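import Pool.Agent.Lib.MP_6c3d62_pr.Mg.G094

section

/-!
# From the laws of far apart points to the law of the cycle lengths
-/

open Finset

set_option linter.unusedSectionVars false

namespace Pool.Agent.Stirring.TN

open Pool.Agent.Stirring

/-- The `k`-point laws of far apart points are asymptotically those of a uniform permutation,
uniformly in `t ∈ T L`. -/
def KLaw (d : ℕ) (T : ℕ → Set ℝ) : Prop :=
  ∀ (k : ℕ) (ε : ℝ), 0 < ε → ∃ L₀ : ℕ, ∀ (L : ℕ) [NeZero L], L₀ ≤ L → ∀ t ∈ T L,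
    ∃ near : (Fin d → ZMod L) → (Fin d → ZMod L) → Prop, (∀ x, near x x) ∧
      (∀ x, open Classical in
        ((univ.filter fun y => near x y).card : ℝ) ≤ ε * Fintype.card (Fin d → ZMod L)) ∧
      ∀ z : Fin k → (Fin d → ZMod L), (∀ a b, a ≠ b → ¬ near (z a) (z b)) →
        ∀ τ : Equiv.Perm (Fin k),
          |expect d L t (fun σ => patI τ σ z) - (relCl τ).card / (k.factorial : ℝ)| ≤ ε

/-- Expectations asymptotically those for a uniform permutation. -/
def Close' (d : ℕ) (T : ℕ → Set ℝ) (G : C(KKset, ℝ)) : Prop :=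
  ∀ δ : ℝ, 0 < δ → ∃ L₀ : ℕ, ∀ (L : ℕ) [NeZero L], L₀ ≤ L → ∀ t ∈ T L,
    |expect d L t (fun σ => G (pt σ)) - unifE (fun σ : Equiv.Perm (Fin d → ZMod L) => G (pt σ))| ≤ δ

section Count

variable {V : Type*} [Fintype V] [DecidableEq V] {ι : Type*} [Fintype ι] [DecidableEq ι]

open Classical in
/-- The number of the functions with two near values. -/
theorem card_near {near : V → V → Prop} {ε : ℝ}
    (h : ∀ x, ((univ.filter fun y => near x y).card : ℝ) ≤ ε * Fintype.card V) {a b : ι}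
    (hab : a ≠ b) :
    ((univ.filter fun z : ι → V => near (z a) (z b)).card : ℝ) ≤
      ε * (Fintype.card V : ℝ) ^ Fintype.card ι := by
  have h1 : ((univ.filter fun z : ι → V => near (z a) (z b)).card : ℝ) =
      ∑ z : ι → V, if near (z a) (z b) then (1 : ℝ) else 0 := by
    rw [← Finset.sum_filter, Finset.sum_const, nsmul_eq_mul, mul_one]
  have h2 : ∑ z : ι → V, (if near (z a) (z b) then (1 : ℝ) else 0) =
      ∑ p : V × ({j // j ≠ b} → V), if near (p.2 ⟨a, hab⟩) p.1 then (1 : ℝ) else 0 := by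
    refine Fintype.sum_equiv (Equiv.funSplitAt b V) _ _ fun z => ?_
    rfl
  rw [h1, h2, Fintype.sum_prod_type_right]
  have h3 : ∀ w : {j // j ≠ b} → V, ∑ v : V, (if near (w ⟨a, hab⟩) v then (1 : ℝ) else 0) ≤
      ε * Fintype.card V := by
    intro w
    rw [← Finset.sum_filter, Finset.sum_const, nsmul_eq_mul, mul_one]
    exact h _
  refine (Finset.sum_le_sum fun w _ => h3 w).trans (le_of_eq ?_)
  have h4 : Fintype.card ι = Fintype.card {j // j ≠ b} + 1 := by
    have h5 := Fintype.card_subtype_compl (fun j : ι => j = b)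
    rw [Fintype.card_subtype_eq] at h5
    have h6 : 0 < Fintype.card ι := Fintype.card_pos_iff.mpr ⟨b⟩
    have h7 : Fintype.card {j // j ≠ b} = Fintype.card {j // ¬ j = b} := rfl
    omega
  rw [Finset.sum_const, Finset.card_univ, Fintype.card_fun, nsmul_eq_mul, h4, pow_succ]
  push_cast
  ring

open Classical in
theorem card_bad {near : V → V → Prop} {ε : ℝ} (hε : 0 ≤ ε)
    (h : ∀ x, ((univ.filter fun y => near x y).card : ℝ) ≤ ε * Fintype.card V) :
    ((univ.filter fun z : ι → V => ¬ ∀ a b, a ≠ b → ¬ near (z a) (z b)).card : ℝ) ≤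
      (Fintype.card ι : ℝ) ^ 2 * (ε * (Fintype.card V : ℝ) ^ Fintype.card ι) := by
  have h1 : (univ.filter fun z : ι → V => ¬ ∀ a b, a ≠ b → ¬ near (z a) (z b)) ⊆
      ((univ : Finset (ι × ι)).filter fun p => p.1 ≠ p.2).biUnion
        fun p => univ.filter fun z : ι → V => near (z p.1) (z p.2) := by
    intro z hz
    have h2 := (Finset.mem_filter.mp hz).2
    push Not at h2
    obtain ⟨a, b, hab, h3⟩ := h2
    rw [Finset.mem_biUnion]
    exact ⟨(a, b), Finset.mem_filter.mpr ⟨Finset.mem_univ _, hab⟩,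
      Finset.mem_filter.mpr ⟨Finset.mem_univ _, h3⟩⟩
  have h2 : (0 : ℝ) ≤ ε * (Fintype.card V : ℝ) ^ Fintype.card ι := by positivity
  calc ((univ.filter fun z : ι → V => ¬ ∀ a b, a ≠ b → ¬ near (z a) (z b)).card : ℝ)
      ≤ ((((univ : Finset (ι × ι)).filter fun p => p.1 ≠ p.2).biUnion
        fun p => univ.filter fun z : ι → V => near (z p.1) (z p.2)).card : ℝ) := by
        exact_mod_cast Finset.card_le_card h1
    _ ≤ ∑ p ∈ (univ : Finset (ι × ι)).filter (fun p => p.1 ≠ p.2),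
        ((univ.filter fun z : ι → V => near (z p.1) (z p.2)).card : ℝ) := by
        exact_mod_cast Finset.card_biUnion_le
    _ ≤ ∑ p ∈ (univ : Finset (ι × ι)).filter (fun p => p.1 ≠ p.2),
        ε * (Fintype.card V : ℝ) ^ Fintype.card ι :=
        Finset.sum_le_sum fun p hp => card_near h (Finset.mem_filter.mp hp).2
    _ ≤ (Fintype.card ι : ℝ) ^ 2 * (ε * (Fintype.card V : ℝ) ^ Fintype.card ι) := by
        rw [Finset.sum_const, nsmul_eq_mul]
        refine mul_le_mul_of_nonneg_right ?_ h2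
        have h3 : ((univ : Finset (ι × ι)).filter fun p => p.1 ≠ p.2).card ≤
            Fintype.card (ι × ι) := Finset.card_le_univ _
        rw [Fintype.card_prod] at h3
        rw [sq]
        exact_mod_cast h3

end Count

theorem close'_of_mom {d : ℕ} {T : ℕ → Set ℝ} (hT : ∀ L, ∀ t ∈ T L, (0 : ℝ) ≤ t)
    (hK : KLaw d T) {G : C(KKset, ℝ)} (hG : Mom G) : Close' d T G := by
  classical
  obtain ⟨ι, _, _, R, h⟩ := hG
  intro δ hδ
  set k := Fintype.card ι with hk
  set e : ι ≃ Fin k := Fintype.equivFin ι with he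
  set C : ℝ := (k.factorial : ℝ) + (k : ℝ) ^ 2 with hC
  have hC0 : 0 < C := by positivity
  set ε : ℝ := δ / C with hε
  have hε0 : 0 < ε := by positivity
  obtain ⟨L₀, hL₀⟩ := hK k ε hε0
  refine ⟨L₀, ?_⟩
  intro L _ hL t ht
  obtain ⟨near, hrefl, hcard, hlaw⟩ := hL₀ L hL t ht
  have ht0 := hT L t ht
  have hn : (0 : ℝ) < Fintype.card (Fin d → ZMod L) := by exact_mod_cast Fintype.card_pos
  set N : ℝ := (Fintype.card (Fin d → ZMod L) : ℝ) ^ k with hN
  have hN0 : 0 < N := by positivity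
  have e0 : ∀ σ : Equiv.Perm (Fin d → ZMod L), G (pt σ) = N⁻¹ * ∑ z : ι → (Fin d → ZMod L), gI R σ z := by
    intro σ
    rw [h _ σ, div_eq_inv_mul]
  simp only [e0]
  rw [expect_smul, unifE_smul, expect_sum, unifE_sum, ← mul_sub, ← Finset.sum_sub_distrib, abs_mul,
    abs_of_pos (by positivity : (0 : ℝ) < N⁻¹)]
  -- the two kinds of points
  have h01 : ∀ (σ : Equiv.Perm (Fin d → ZMod L)) (z : ι → (Fin d → ZMod L)), 0 ≤ gI R σ z ∧ gI R σ z ≤ 1 := by
    intro σ z
    unfold gI
    split_ifs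
    · exact ⟨zero_le_one, le_rfl⟩
    · exact ⟨le_rfl, zero_le_one⟩
  have hbad : ∀ z : ι → (Fin d → ZMod L), |expect d L t (fun σ => gI R σ z) - unifE (fun σ => gI R σ z)| ≤ 1 := by
    intro z
    have h1 : 0 ≤ expect d L t (fun σ => gI R σ z) := by
      rw [← expect_const (d := d) (L := L) t 0]
      exact expect_mono ht0 fun σ => (h01 σ z).1
    have h2 : expect d L t (fun σ => gI R σ z) ≤ 1 := by
      rw [← expect_const (d := d) (L := L) t 1]
      exact expect_mono ht0 fun σ => (h01 σ z).2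
    have h3 : |unifE (fun σ : Equiv.Perm (Fin d → ZMod L) => gI R σ z) - 1 / 2| ≤ 1 / 2 := by
      have e1 : unifE (fun σ : Equiv.Perm (Fin d → ZMod L) => gI R σ z) - 1 / 2 =
          unifE (fun σ : Equiv.Perm (Fin d → ZMod L) => gI R σ z + (-(1 / 2))) := by
        rw [unifE_add, unifE_const]
        ring
      rw [e1]
      refine unifE_abs_le fun σ => ?_
      have := h01 σ z
      rw [abs_le]
      constructor <;> linarith
    rw [abs_le] at h3 ⊢
    constructor <;> linarith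
  have hgood : ∀ z : ι → (Fin d → ZMod L), (∀ a b, a ≠ b → ¬ near (z a) (z b)) →
      |expect d L t (fun σ => gI R σ z) - unifE (fun σ => gI R σ z)| ≤ k.factorial * ε := by
    intro z hz
    set z₁ : Fin k → (Fin d → ZMod L) := z ∘ e.symm with hz₁
    have hzz : z = z₁ ∘ e := by
      funext i
      simp [hz₁]
    have hz1 : ∀ a b, a ≠ b → ¬ near (z₁ a) (z₁ b) := fun a b hab =>
      hz _ _ fun h => hab (e.symm.injective h)
    have hinj : Function.Injective z₁ := by
      intro a b hab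
      by_contra hne
      refine hz1 a b hne ?_
      rw [hab]
      exact hrefl _
    have e1 : expect d L t (fun σ => gI R σ z) =
        ∑ τ : Equiv.Perm (Fin k), gI R τ e * (((relCl τ).card : ℝ)⁻¹ *
          expect d L t (fun σ => patI τ σ z₁)) := by
      rw [hzz]
      simp only [gI_comp]
      rw [expect_sum]
      refine Finset.sum_congr rfl fun τ _ => ?_
      rw [expect_smul]
      unfold patW
      rw [expect_smul]
    have e2 : unifE (fun σ : Equiv.Perm (Fin d → ZMod L) => gI R σ z) =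
        ∑ τ : Equiv.Perm (Fin k), gI R τ e * (((relCl τ).card : ℝ)⁻¹ *
          ((relCl τ).card / (k.factorial : ℝ))) := by
      rw [hzz]
      simp only [gI_comp]
      rw [unifE_sum]
      refine Finset.sum_congr rfl fun τ _ => ?_
      rw [unifE_smul]
      unfold patW
      rw [unifE_smul, unif_pat hinj, Fintype.card_fin]
    rw [e1, e2, ← Finset.sum_sub_distrib]
    refine (Finset.abs_sum_le_sum_abs _ _).trans ?_
    have h1 : ∀ τ ∈ (Finset.univ : Finset (Equiv.Perm (Fin k))),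
        |gI R τ e * (((relCl τ).card : ℝ)⁻¹ * expect d L t (fun σ => patI τ σ z₁)) -
          gI R τ e * (((relCl τ).card : ℝ)⁻¹ * ((relCl τ).card / (k.factorial : ℝ)))| ≤ ε := by
      intro τ _
      rw [← mul_sub, ← mul_sub, abs_mul, abs_mul]
      have h2 := hlaw z₁ hz1 τ
      have h3 : |gI R τ e| ≤ 1 := by
        unfold gI
        split_ifs
        · rw [abs_one]
        · rw [abs_zero]
          exact zero_le_one
      have h4 : |((relCl τ).card : ℝ)⁻¹| ≤ 1 := by
        rw [abs_of_nonneg (inv_nonneg.mpr (Nat.cast_nonneg _))]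
        refine inv_le_one_of_one_le₀ ?_
        exact_mod_cast Finset.card_pos.mpr ⟨_, self_mem_relCl _⟩
      calc |gI R τ e| * (|((relCl τ).card : ℝ)⁻¹| *
            |expect d L t (fun σ => patI τ σ z₁) - (relCl τ).card / (k.factorial : ℝ)|) ≤
          1 * (1 * ε) := by
            refine mul_le_mul h3 ?_ (mul_nonneg (abs_nonneg _) (abs_nonneg _)) zero_le_one
            exact mul_le_mul h4 h2 (abs_nonneg _) zero_le_one
        _ = _ := by ring
    refine (Finset.sum_le_sum h1).trans (le_of_eq ?_)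
    rw [Finset.sum_const, Finset.card_univ, Fintype.card_perm, Fintype.card_fin, nsmul_eq_mul]
  have hsum : |∑ z : ι → (Fin d → ZMod L), (expect d L t (fun σ => gI R σ z) -
      unifE (fun σ => gI R σ z))| ≤ N * (C * ε) := by
    refine (Finset.abs_sum_le_sum_abs _ _).trans ?_
    have h1 : ∀ z : ι → (Fin d → ZMod L), |expect d L t (fun σ => gI R σ z) - unifE (fun σ => gI R σ z)| ≤
        k.factorial * ε + if ¬ ∀ a b, a ≠ b → ¬ near (z a) (z b) then 1 else 0 := by
      intro z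
      have h2 : (0 : ℝ) ≤ k.factorial * ε := by positivity
      by_cases hz : ∀ a b, a ≠ b → ¬ near (z a) (z b)
      · rw [if_neg (not_not.mpr hz), add_zero]
        exact hgood z hz
      · rw [if_pos hz]
        linarith [hbad z]
    refine (Finset.sum_le_sum fun z _ => h1 z).trans ?_
    rw [Finset.sum_add_distrib, Finset.sum_const, Finset.card_univ, Fintype.card_fun, nsmul_eq_mul,
      ← Finset.sum_filter, Finset.sum_const, nsmul_eq_mul, mul_one]
    have h2 := card_bad (ι := ι) hε0.le hcard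
    push_cast
    calc (Fintype.card (Fin d → ZMod L) : ℝ) ^ Fintype.card ι * (k.factorial * ε) +
        ((univ.filter fun z : ι → (Fin d → ZMod L) => ¬ ∀ a b, a ≠ b → ¬ near (z a) (z b)).card : ℝ) ≤
        N * (k.factorial * ε) + (k : ℝ) ^ 2 * (ε * N) := add_le_add le_rfl h2
      _ = _ := by rw [hC]; ring
  calc N⁻¹ * |∑ z : ι → (Fin d → ZMod L), (expect d L t (fun σ => gI R σ z) -
      unifE (fun σ => gI R σ z))| ≤ N⁻¹ * (N * (C * ε)) :=
        mul_le_mul_of_nonneg_left hsum (by positivity)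
    _ = δ := by rw [hε]; field_simp

theorem close'_add {d : ℕ} {T : ℕ → Set ℝ} {G H : C(KKset, ℝ)} (hG : Close' d T G)
    (hH : Close' d T H) : Close' d T (G + H) := by
  intro δ hδ
  obtain ⟨L₁, h1⟩ := hG (δ / 2) (by positivity)
  obtain ⟨L₂, h2⟩ := hH (δ / 2) (by positivity)
  refine ⟨max L₁ L₂, ?_⟩
  intro L _ hL t ht
  have e1 : ∀ σ : Equiv.Perm (Fin d → ZMod L), (G + H) (pt σ) = G (pt σ) + H (pt σ) := fun σ => rfl
  simp only [e1]
  rw [expect_add, unifE_add]
  have h3 := h1 L ((le_max_left _ _).trans hL) t ht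
  have h4 := h2 L ((le_max_right _ _).trans hL) t ht
  rw [abs_le] at h3 h4 ⊢
  constructor <;> linarith [h3.1, h3.2, h4.1, h4.2]

theorem close'_smul {d : ℕ} {T : ℕ → Set ℝ} (a : ℝ) {G : C(KKset, ℝ)} (hG : Close' d T G) :
    Close' d T (a • G) := by
  intro δ hδ
  obtain ⟨L₁, h1⟩ := hG (δ / (|a| + 1)) (by positivity)
  refine ⟨L₁, ?_⟩
  intro L _ hL t ht
  have e1 : ∀ σ : Equiv.Perm (Fin d → ZMod L), (a • G) (pt σ) = a * G (pt σ) := fun σ => rfl
  simp only [e1]
  rw [expect_smul, unifE_smul, ← mul_sub, abs_mul]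
  have h2 := h1 L hL t ht
  calc |a| * |expect d L t (fun σ => G (pt σ)) -
        unifE (fun σ : Equiv.Perm (Fin d → ZMod L) => G (pt σ))| ≤
      |a| * (δ / (|a| + 1)) := mul_le_mul_of_nonneg_left h2 (abs_nonneg _)
    _ ≤ δ := by
      rw [← mul_div_assoc, div_le_iff₀ (by positivity)]
      nlinarith [abs_nonneg a]

theorem close'_zero {d : ℕ} {T : ℕ → Set ℝ} : Close' d T 0 := by
  intro δ hδ
  refine ⟨0, ?_⟩
  intro L _ hL t ht
  have e1 : ∀ σ : Equiv.Perm (Fin d → ZMod L), (0 : C(KKset, ℝ)) (pt σ) = 0 := fun σ => rfl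
  simp only [e1]
  rw [expect_const, unifE_const, sub_self, abs_zero]
  exact hδ.le

theorem close'_adjoin {d : ℕ} {T : ℕ → Set ℝ} (hT : ∀ L, ∀ t ∈ T L, (0 : ℝ) ≤ t)
    (hK : KLaw d T) {G : C(KKset, ℝ)} (hG : G ∈ Algebra.adjoin ℝ (Set.range powS)) :
    Close' d T G := by
  rw [← Subalgebra.mem_toSubmodule, Algebra.adjoin_eq_span] at hG
  induction hG using Submodule.span_induction with
  | mem G hG =>
    refine close'_of_mom hT hK ?_
    induction hG using Submonoid.closure_induction with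
    | mem G h =>
      obtain ⟨k, rfl⟩ := h
      exact mom_powS k
    | one => exact mom_one
    | mul G H _ _ h1 h2 => exact mom_mul h1 h2
  | zero => exact close'_zero
  | add G H _ _ h1 h2 => exact close'_add h1 h2
  | smul a G _ h => exact close'_smul a h

/-- THE FINAL STEP: the law of the cycle lengths from the laws of far apart points. -/
theorem pd_of_klaw {d : ℕ} {T : ℕ → Set ℝ} (hT : ∀ L, ∀ t ∈ T L, (0 : ℝ) ≤ t)
    (hK : KLaw d T) (F : C(KKset, ℝ)) : Close' d T F := by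
  intro δ hδ
  obtain ⟨G, hG, hFG⟩ := approx_powS F (ε := δ / 3) (by positivity)
  obtain ⟨L₀, hc⟩ := close'_adjoin hT hK hG (δ / 3) (by positivity)
  refine ⟨L₀, ?_⟩
  intro L _ hL t ht
  have h1 := hc L hL t ht
  have e1 : expect d L t (fun σ => F (pt σ)) =
      expect d L t (fun σ => G (pt σ)) + expect d L t (fun σ => F (pt σ) - G (pt σ)) := by
    rw [← expect_add]
    congr 1
    funext σ
    ring
  have e2 : unifE (fun σ : Equiv.Perm (Fin d → ZMod L) => F (pt σ)) =
      unifE (fun σ : Equiv.Perm (Fin d → ZMod L) => G (pt σ)) +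
        unifE (fun σ : Equiv.Perm (Fin d → ZMod L) => F (pt σ) - G (pt σ)) := by
    rw [← unifE_add]
    congr 1
    funext σ
    ring
  have h3 : |expect d L t (fun σ => F (pt σ) - G (pt σ))| ≤ δ / 3 :=
    expect_abs_le (hT L t ht) fun σ => (hFG _).le
  have h4 : |unifE (fun σ : Equiv.Perm (Fin d → ZMod L) => F (pt σ) - G (pt σ))| ≤ δ / 3 :=
    unifE_abs_le fun σ => (hFG _).le
  rw [e1, e2]
  rw [abs_le] at h1 h3 h4 ⊢
  constructor <;> linarith [h1.1, h1.2, h3.1, h3.2, h4.1, h4.2]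

/-- The same for continuous functions of the `m` largest relative cycle lengths. -/
theorem pd_relLen {d : ℕ} {T : ℕ → Set ℝ} (hT : ∀ L, ∀ t ∈ T L, (0 : ℝ) ≤ t)
    (hK : KLaw d T) (m : ℕ) (f : (Fin m → ℝ) → ℝ) (hf : Continuous f) (δ : ℝ) (hδ : 0 < δ) :
    ∃ L₀ : ℕ, ∀ (L : ℕ) [NeZero L], L₀ ≤ L → ∀ t ∈ T L,
      |expect d L t (fun σ => f fun i => relLen σ i) -
        (∑ τ : Equiv.Perm (Fin d → ZMod L), f fun i => relLen τ i) /
          ((Fintype.card (Fin d → ZMod L)).factorial : ℝ)| ≤ δ := by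
  set F : C(KKset, ℝ) := ⟨fun p => f fun i => p.1 i,
    hf.comp (continuous_pi fun i => (continuous_apply (i : ℕ)).comp continuous_subtype_val)⟩
    with hF
  obtain ⟨L₀, h⟩ := pd_of_klaw hT hK F δ hδ
  exact ⟨L₀, fun L _ hL t ht => h L hL t ht⟩

end Pool.Agent.Stirring.TN
end

section

/-! The traces of the cycles of a permutation on a set. -/

open Finset

set_option linter.unusedSectionVars false

namespace Pool.Agent.Stirring

section Trace

variable {V : Type*} [Fintype V] [DecidableEq V]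

open Classical in
/-- The sizes of the intersections of `B` with the cycles of `σ` which meet `B`. -/
noncomputable def traceSizes (σ : Equiv.Perm V) (B : Finset V) : Multiset ℕ :=
  (B.image fun x => B.filter fun y => σ.SameCycle x y).val.map Finset.card

theorem multiset_eq_of_sums {s t : Multiset ℕ} (hs : ∀ a ∈ s, 0 < a) (ht : ∀ a ∈ t, 0 < a)
    (h : ∀ f : ℕ → ℝ, (s.map fun l : ℕ => (l : ℝ) * f l).sum =
      (t.map fun l : ℕ => (l : ℝ) * f l).sum) : s = t := by
  ext a
  rcases Nat.eq_zero_or_pos a with rfl | ha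
  · rw [Multiset.count_eq_zero_of_notMem (fun h => (hs 0 h).ne' rfl),
      Multiset.count_eq_zero_of_notMem (fun h => (ht 0 h).ne' rfl)]
  have key : ∀ s : Multiset ℕ, (s.map fun l : ℕ => (l : ℝ) * (if l = a then (1 : ℝ) else 0)).sum =
      a * s.count a := by
    intro s
    induction s using Multiset.induction_on with
    | empty => simp
    | cons b s ih =>
      rw [Multiset.map_cons, Multiset.sum_cons, ih, Multiset.count_cons]
      by_cases hb : b = a
      · subst hb
        simp only [if_true]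
        push_cast
        ring
      · rw [if_neg hb, if_neg (Ne.symm hb)]
        simp
  have h1 := h (fun l => if l = a then (1 : ℝ) else 0)
  rw [key, key] at h1
  have h2 := mul_left_cancel₀ (by positivity : (a : ℝ) ≠ 0) h1
  exact_mod_cast h2

open Classical in
theorem traceSizes_sum (σ : Equiv.Perm V) (B : Finset V) (f : ℕ → ℝ) :
    ((traceSizes σ B).map fun l : ℕ => (l : ℝ) * f l).sum =
      ∑ x ∈ B, f (B.filter fun y => σ.SameCycle x y).card := by
  unfold traceSizes
  rw [Multiset.map_map]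
  change ∑ C ∈ B.image (fun x => B.filter fun y => σ.SameCycle x y),
    ((C.card : ℝ) * f C.card) = _
  rw [← Finset.sum_fiberwise_of_maps_to (g := fun x => B.filter fun y => σ.SameCycle x y)
    (t := B.image fun x => B.filter fun y => σ.SameCycle x y)
    (fun x hx => Finset.mem_image_of_mem _ hx)]
  refine Finset.sum_congr rfl fun C hC => ?_
  obtain ⟨x0, hx0, rfl⟩ := Finset.mem_image.mp hC
  have hfib : (B.filter fun x => (B.filter fun y => σ.SameCycle x y) =
      B.filter fun y => σ.SameCycle x0 y) = B.filter fun y => σ.SameCycle x0 y := by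
    ext x
    simp only [Finset.mem_filter]
    constructor
    · rintro ⟨hx, h⟩
      have h1 : x ∈ B.filter fun y => σ.SameCycle x y :=
        Finset.mem_filter.2 ⟨hx, Equiv.Perm.SameCycle.refl _ _⟩
      rw [h] at h1
      exact Finset.mem_filter.1 h1
    · rintro ⟨hx, h⟩
      refine ⟨hx, ?_⟩
      ext y
      simp only [Finset.mem_filter]
      constructor
      · rintro ⟨hy, h2⟩; exact ⟨hy, h.trans h2⟩
      · rintro ⟨hy, h2⟩; exact ⟨hy, h.symm.trans h2⟩
  rw [hfib]
  have h2 : ∀ x ∈ (B.filter fun y => σ.SameCycle x0 y),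
      f (B.filter fun y => σ.SameCycle x y).card =
        f (B.filter fun y => σ.SameCycle x0 y).card := by
    intro x hx
    congr 2
    ext y
    have h := (Finset.mem_filter.1 hx).2
    simp only [Finset.mem_filter]
    constructor
    · rintro ⟨hy, h2⟩; exact ⟨hy, h.trans h2⟩
    · rintro ⟨hy, h2⟩; exact ⟨hy, h.symm.trans h2⟩
  rw [Finset.sum_congr rfl h2, Finset.sum_const, nsmul_eq_mul]

theorem traceSizes_pos (σ : Equiv.Perm V) (B : Finset V) : ∀ a ∈ traceSizes σ B, 0 < a := by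
  classical
  intro a ha
  unfold traceSizes at ha
  rw [Multiset.mem_map] at ha
  obtain ⟨C, hC, rfl⟩ := ha
  obtain ⟨x, hx, rfl⟩ := Finset.mem_image.mp (Finset.mem_def.2 hC)
  exact Finset.card_pos.2 ⟨x, Finset.mem_filter.2 ⟨hx, Equiv.Perm.SameCycle.refl _ _⟩⟩

theorem parts_eq_traceSizes {W : Type*} [Fintype W] [DecidableEq W] {σ : Equiv.Perm V}
    {B : Finset V} {τ : Equiv.Perm W} {z : W → V} (hz : Function.Injective z)
    (hB : ∀ v, v ∈ B ↔ ∃ w, z w = v) (hp : Pat σ z τ) :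
    τ.partition.parts = traceSizes σ B := by
  classical
  refine multiset_eq_of_sums (fun a ha => τ.partition.parts_pos ha) (traceSizes_pos σ B)
    fun f => ?_
  rw [← sum_cyc_eq_parts, traceSizes_sum]
  have hBi : B = Finset.univ.map ⟨z, hz⟩ := by
    ext v
    rw [hB v]
    simp
  rw [hBi, Finset.sum_map]
  refine Finset.sum_congr rfl fun w _ => ?_
  have h1 : ((Finset.univ.map ⟨z, hz⟩).filter
      fun y => σ.SameCycle ((⟨z, hz⟩ : W ↪ V) w) y) = (cyc τ w).map ⟨z, hz⟩ := by
    ext v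
    simp only [Finset.mem_filter, Finset.mem_map, Finset.mem_univ, true_and,
      Function.Embedding.coeFn_mk, mem_cyc]
    constructor
    · rintro ⟨⟨w', rfl⟩, h⟩
      exact ⟨w', (hp w w').1 h, rfl⟩
    · rintro ⟨w', h, rfl⟩
      exact ⟨⟨w', rfl⟩, (hp w w').2 h⟩
  rw [h1, Finset.card_map]

/-- The `i`-th largest of the numbers `|C ∩ B| / |B|`, over the cycles `C` of `σ` which meet `B`. -/
noncomputable def share (σ : Equiv.Perm V) (B : Finset V) (i : ℕ) : ℝ :=
  (((traceSizes σ B).sort (· ≥ ·)).getD i 0 : ℕ) / (B.card : ℝ)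

theorem relLen_eq_share {W : Type*} [Fintype W] [DecidableEq W] {σ : Equiv.Perm V}
    {B : Finset V} {τ : Equiv.Perm W} {z : W → V} (hz : Function.Injective z)
    (hB : ∀ v, v ∈ B ↔ ∃ w, z w = v) (hp : Pat σ z τ) (i : ℕ) :
    relLen τ i = share σ B i := by
  classical
  have hBi : B = Finset.univ.map ⟨z, hz⟩ := by
    ext v
    rw [hB v]
    simp
  have hc : B.card = Fintype.card W := by rw [hBi, Finset.card_map, Finset.card_univ]
  unfold relLen share
  rw [parts_eq_traceSizes hz hB hp, hc]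

/-- A permutation of `B` whose cycles are the intersections of `B` with the cycles of `σ`. -/
noncomputable def trP (σ : Equiv.Perm V) (B : Finset V) : Equiv.Perm B :=
  (exists_pat σ (fun w : B => (w : V))).choose

theorem trP_pat (σ : Equiv.Perm V) (B : Finset V) : Pat σ (fun w : B => (w : V)) (trP σ B) :=
  (exists_pat σ (fun w : B => (w : V))).choose_spec

theorem relLen_trP (σ : Equiv.Perm V) (B : Finset V) (i : ℕ) :
    relLen (trP σ B) i = share σ B i :=
  relLen_eq_share Subtype.val_injective (fun v => ⟨fun h => ⟨⟨v, h⟩, rfl⟩, by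
    rintro ⟨w, rfl⟩; exact w.2⟩) (trP_pat σ B) i

theorem gI_trP {ι : Type*} [Fintype ι] [DecidableEq ι] (R : ι → ι → Prop) (σ : Equiv.Perm V)
    (B : Finset V) (z : ι → B) : gI R (trP σ B) z = gI R σ (fun i => (z i : V)) := by
  classical
  have h0 : (∀ a b, R a b → (trP σ B).SameCycle (z a) (z b)) ↔
      ∀ a b, R a b → σ.SameCycle (z a : V) (z b : V) :=
    ⟨fun h a b hab => (trP_pat σ B _ _).2 (h a b hab),
      fun h a b hab => (trP_pat σ B _ _).1 (h a b hab)⟩
  rw [gI_eq h0, gI_eq (R := R) (σ := σ) (z := fun i => (z i : V)) Iff.rfl]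

theorem relLen_conj {W : Type*} [Fintype W] [DecidableEq W] (e : V ≃ W) (τ : Equiv.Perm V)
    (i : ℕ) : share (e.permCongr τ) Finset.univ i = relLen τ i := by
  refine (relLen_eq_share (σ := e.permCongr τ) (B := Finset.univ) (z := e) e.injective
    (fun v => ⟨fun _ => e.surjective v, fun _ => Finset.mem_univ _⟩) ?_ i).symm
  intro a b
  have h1 : ∀ k : ℤ, ((e.permCongr τ) ^ k) (e a) = e ((τ ^ k) a) := by
    intro k
    have h2 : (e.permCongr τ) ^ k = e.permCongr (τ ^ k) :=
      (map_zpow (Equiv.permCongrHom e) τ k).symm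
    rw [h2, Equiv.permCongr_apply, e.symm_apply_apply]
  constructor
  · rintro ⟨k, hk⟩
    refine ⟨k, ?_⟩
    rw [h1] at hk
    exact e.injective hk
  · rintro ⟨k, hk⟩
    refine ⟨k, ?_⟩
    rw [h1, hk]

end Trace

end Pool.Agent.Stirring
end

section

/-! The law of the traces of the cycles on a set of small diameter. -/

open Finset

set_option linter.unusedSectionVars false

namespace Pool.Agent.Stirring

/-- The mutual distances of the points of `B` are at most `r`. -/
def Near (d L : ℕ) (B : Finset (Fin d → ZMod L)) (r : ℝ) : Prop :=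
  ∀ x ∈ B, ∀ y ∈ B, ∃ k : Fin d → ℤ, y = x + red d L k ∧ ∑ m, |(k m : ℝ)| ≤ r

/-- Comparison of grouping probabilities in `B` with those of a uniform permutation of `B`. -/
theorem group_close_on {d : ℕ} (hd : 1 ≤ d) (ι : Type*) [Fintype ι] [DecidableEq ι] :
    ∃ C : ℝ, 0 < C ∧ ∀ (L : ℕ) [NeZero L], 2 ≤ L → ∀ t : ℝ, 1 ≤ t → ∀ r : ℝ, 1 ≤ r →
      ∀ B : Finset (Fin d → ZMod L), Near d L B r →
      ∀ (R : ι → ι → Prop) (z : ι → B),
        |expect d L t (fun σ => gI R σ (fun i => (z i : Fin d → ZMod L))) -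
          unifE (fun τ : Equiv.Perm B => gI R τ z)| ≤
            C * (r * Real.sqrt (bet d L t / t)) := by
  classical
  choose c hc0 hc using fun k : ℕ => local_ewens hd (Fin k)
  set n := Fintype.card ι with hn
  refine ⟨∑ k ∈ Finset.range (n + 1), (k.factorial : ℝ) * c k, ?_, ?_⟩
  · refine Finset.sum_pos (fun k _ => ?_) ⟨0, by simp⟩
    have := hc0 k
    positivity
  intro L _ hL t ht r hr B hB R z
  obtain ⟨k, p, z₁, hz₁, hz, hk⟩ := exists_factor z
  have hs0 : 0 ≤ Real.sqrt (bet d L t / t) := Real.sqrt_nonneg _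
  have hz₁' : Function.Injective (fun i => (z₁ i : Fin d → ZMod L)) :=
    fun a b h => hz₁ (Subtype.ext h)
  have hzz : (fun i => (z i : Fin d → ZMod L)) = (fun i => (z₁ i : Fin d → ZMod L)) ∘ p := by
    funext i
    rw [hz]
    rfl
  have e1 : expect d L t (fun σ => gI R σ (fun i => (z i : Fin d → ZMod L))) =
      ∑ τ : Equiv.Perm (Fin k), gI R τ p * (((relCl τ).card : ℝ)⁻¹ *
        patP d L t (fun i => (z₁ i : Fin d → ZMod L)) τ) := by
    rw [hzz]
    simp only [gI_comp]
    rw [expect_sum]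
    refine Finset.sum_congr rfl fun τ _ => ?_
    rw [expect_smul]
    unfold patW
    rw [expect_smul]
    rfl
  have e2 : unifE (fun τ : Equiv.Perm B => gI R τ z) =
      ∑ τ : Equiv.Perm (Fin k), gI R τ p * (((relCl τ).card : ℝ)⁻¹ *
        ((relCl τ).card / (k.factorial : ℝ))) := by
    rw [hz]
    simp only [gI_comp]
    rw [unifE_sum]
    refine Finset.sum_congr rfl fun τ _ => ?_
    rw [unifE_smul]
    unfold patW
    rw [unifE_smul, unif_pat hz₁, Fintype.card_fin]
  rw [e1, e2, ← Finset.sum_sub_distrib]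
  refine (Finset.abs_sum_le_sum_abs _ _).trans ?_
  have h1 : ∀ τ ∈ (Finset.univ : Finset (Equiv.Perm (Fin k))),
      |gI R τ p * (((relCl τ).card : ℝ)⁻¹ * patP d L t (fun i => (z₁ i : Fin d → ZMod L)) τ) -
        gI R τ p * (((relCl τ).card : ℝ)⁻¹ * ((relCl τ).card / (k.factorial : ℝ)))| ≤
        c k * r * Real.sqrt (bet d L t / t) := by
    intro τ _
    rw [← mul_sub, ← mul_sub, abs_mul, abs_mul]
    have h2 := hc k L hL t ht (fun i => (z₁ i : Fin d → ZMod L)) r hz₁' hr
      (fun i j => hB _ (z₁ i).2 _ (z₁ j).2) τ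
    rw [Fintype.card_fin] at h2
    have h3 : |gI R τ p| ≤ 1 := by
      unfold gI
      split_ifs <;> simp
    have h4 : |((relCl τ).card : ℝ)⁻¹| ≤ 1 := by
      rw [abs_of_nonneg (by positivity)]
      refine inv_le_one_of_one_le₀ ?_
      exact_mod_cast Finset.card_pos.mpr ⟨_, self_mem_relCl _⟩
    calc |gI R τ p| * (|((relCl τ).card : ℝ)⁻¹| *
          |patP d L t (fun i => (z₁ i : Fin d → ZMod L)) τ -
            (relCl τ).card / (k.factorial : ℝ)|) ≤
        1 * (1 * (c k * r * Real.sqrt (bet d L t / t))) := by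
          refine mul_le_mul h3 ?_ (by positivity) zero_le_one
          exact mul_le_mul h4 h2 (abs_nonneg _) zero_le_one
      _ = _ := by ring
  refine (Finset.sum_le_sum h1).trans ?_
  rw [Finset.sum_const, Finset.card_univ, Fintype.card_perm, Fintype.card_fin, nsmul_eq_mul]
  have h5 : (k.factorial : ℝ) * c k ≤
      ∑ k ∈ Finset.range (n + 1), (k.factorial : ℝ) * c k := by
    refine Finset.single_le_sum (f := fun k : ℕ => (k.factorial : ℝ) * c k) (fun j _ => ?_)
      (Finset.mem_range.mpr (by omega))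
    have := hc0 j
    positivity
  calc (k.factorial : ℝ) * (c k * r * Real.sqrt (bet d L t / t)) =
      ((k.factorial : ℝ) * c k) * (r * Real.sqrt (bet d L t / t)) := by ring
    _ ≤ _ := mul_le_mul_of_nonneg_right h5 (by positivity)

/-- The mass partition of the trace of the cycles on `B`. -/
noncomputable def ptB {V : Type} [Fintype V] [DecidableEq V] (B : Finset V) [Nonempty B]
    (σ : Equiv.Perm V) : KKset := pt (trP σ B)

/-- Expectations close to those for a uniform permutation, in all sets of small diameter. -/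
def CloseOn (d : ℕ) (G : C(KKset, ℝ)) : Prop :=
  ∃ C : ℝ, 0 < C ∧ ∀ (L : ℕ) [NeZero L], 2 ≤ L → ∀ t : ℝ, 1 ≤ t → ∀ r : ℝ, 1 ≤ r →
    ∀ (B : Finset (Fin d → ZMod L)) [Nonempty B], Near d L B r →
    |expect d L t (fun σ => G (ptB B σ)) - unifE (fun τ : Equiv.Perm B => G (pt τ))| ≤
      C * (r * Real.sqrt (bet d L t / t))

theorem closeOn_of_mom {d : ℕ} (hd : 1 ≤ d) {G : C(KKset, ℝ)} (hG : Mom G) : CloseOn d G := by
  obtain ⟨ι, _, _, R, h⟩ := hG
  obtain ⟨C, hC, hc⟩ := group_close_on hd ι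
  refine ⟨C, hC, ?_⟩
  intro L _ hL t ht r hr B _ hB
  have hn : (0 : ℝ) < Fintype.card B := by exact_mod_cast Fintype.card_pos
  set N : ℝ := (Fintype.card B : ℝ) ^ Fintype.card ι with hN
  have hN0 : 0 < N := by positivity
  have e0 : ∀ σ : Equiv.Perm (Fin d → ZMod L), G (ptB B σ) =
      N⁻¹ * ∑ z : ι → B, gI R σ (fun i => (z i : Fin d → ZMod L)) := by
    intro σ
    unfold ptB
    rw [h _ (trP σ B), div_eq_inv_mul]
    congr 1
    exact Finset.sum_congr rfl fun z _ => gI_trP R σ B z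
  have e0' : ∀ τ : Equiv.Perm B, G (pt τ) = N⁻¹ * ∑ z : ι → B, gI R τ z := by
    intro τ
    rw [h _ τ, div_eq_inv_mul]
  simp only [e0, e0']
  rw [expect_smul, unifE_smul, expect_sum, unifE_sum, ← mul_sub, ← Finset.sum_sub_distrib, abs_mul,
    abs_of_pos (by positivity : (0 : ℝ) < N⁻¹)]
  have h1 : |∑ z : ι → B, (expect d L t (fun σ => gI R σ (fun i => (z i : Fin d → ZMod L))) -
      unifE (fun τ : Equiv.Perm B => gI R τ z))| ≤ N * (C * (r * Real.sqrt (bet d L t / t))) := by
    refine (Finset.abs_sum_le_sum_abs _ _).trans ?_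
    refine (Finset.sum_le_sum fun z _ => hc L hL t ht r hr B hB R z).trans (le_of_eq ?_)
    rw [Finset.sum_const, Finset.card_univ, Fintype.card_fun, nsmul_eq_mul, hN]
    push_cast
    rfl
  calc N⁻¹ * |∑ z : ι → B, (expect d L t (fun σ => gI R σ (fun i => (z i : Fin d → ZMod L))) -
      unifE (fun τ : Equiv.Perm B => gI R τ z))| ≤
        N⁻¹ * (N * (C * (r * Real.sqrt (bet d L t / t)))) :=
        mul_le_mul_of_nonneg_left h1 (by positivity)
    _ = _ := by field_simp

theorem closeOn_add {d : ℕ} {G H : C(KKset, ℝ)} (hG : CloseOn d G) (hH : CloseOn d H) :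
    CloseOn d (G + H) := by
  obtain ⟨C, hC, hc⟩ := hG
  obtain ⟨C', hC', hc'⟩ := hH
  refine ⟨C + C', by positivity, ?_⟩
  intro L _ hL t ht r hr B _ hB
  have e1 : ∀ σ : Equiv.Perm (Fin d → ZMod L), (G + H) (ptB B σ) = G (ptB B σ) + H (ptB B σ) :=
    fun σ => rfl
  have e2 : ∀ τ : Equiv.Perm B, (G + H) (pt τ) = G (pt τ) + H (pt τ) := fun σ => rfl
  simp only [e1, e2]
  rw [expect_add, unifE_add]
  have h1 := hc L hL t ht r hr B hB
  have h2 := hc' L hL t ht r hr B hB
  rw [add_mul]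
  rw [abs_le] at h1 h2 ⊢
  constructor <;> linarith [h1.1, h1.2, h2.1, h2.2]

theorem closeOn_smul {d : ℕ} (a : ℝ) {G : C(KKset, ℝ)} (hG : CloseOn d G) :
    CloseOn d (a • G) := by
  obtain ⟨C, hC, hc⟩ := hG
  refine ⟨|a| * C + C, by positivity, ?_⟩
  intro L _ hL t ht r hr B _ hB
  have e1 : ∀ σ : Equiv.Perm (Fin d → ZMod L), (a • G) (ptB B σ) = a * G (ptB B σ) :=
    fun σ => rfl
  have e2 : ∀ τ : Equiv.Perm B, (a • G) (pt τ) = a * G (pt τ) := fun σ => rfl
  simp only [e1, e2]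
  rw [expect_smul, unifE_smul, ← mul_sub, abs_mul]
  have h1 := hc L hL t ht r hr B hB
  have h0 : 0 ≤ r * Real.sqrt (bet d L t / t) := by positivity
  calc |a| * |expect d L t (fun σ => G (ptB B σ)) -
        unifE (fun τ : Equiv.Perm B => G (pt τ))| ≤
      |a| * (C * (r * Real.sqrt (bet d L t / t))) := mul_le_mul_of_nonneg_left h1 (abs_nonneg _)
    _ ≤ _ := by nlinarith [mul_nonneg hC.le h0]

theorem closeOn_zero {d : ℕ} : CloseOn d 0 := by
  refine ⟨1, one_pos, ?_⟩
  intro L _ hL t ht r hr B _ hB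
  have e1 : ∀ σ : Equiv.Perm (Fin d → ZMod L), (0 : C(KKset, ℝ)) (ptB B σ) = 0 := fun σ => rfl
  have e2 : ∀ τ : Equiv.Perm B, (0 : C(KKset, ℝ)) (pt τ) = 0 := fun σ => rfl
  simp only [e1, e2]
  rw [expect_const, unifE_const, sub_self, abs_zero]
  positivity

theorem closeOn_adjoin {d : ℕ} (hd : 1 ≤ d) {G : C(KKset, ℝ)}
    (hG : G ∈ Algebra.adjoin ℝ (Set.range powS)) : CloseOn d G := by
  rw [← Subalgebra.mem_toSubmodule, Algebra.adjoin_eq_span] at hG
  induction hG using Submodule.span_induction with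
  | mem G hG =>
    refine closeOn_of_mom hd ?_
    induction hG using Submonoid.closure_induction with
    | mem G h =>
      obtain ⟨k, rfl⟩ := h
      exact mom_powS k
    | one => exact mom_one
    | mul G H _ _ h1 h2 => exact mom_mul h1 h2
  | zero => exact closeOn_zero
  | add G H _ _ h1 h2 => exact closeOn_add h1 h2
  | smul a G _ h => exact closeOn_smul a h

/-- Arithmetic of the regime `K r ^ 4 ≤ t ^ (d + 2)`. -/
theorem box_arith {d : ℕ} (hd : 1 ≤ d) {C δ : ℝ} (hC : 0 < C) (hδ : 0 < δ) :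
    ∃ K : ℝ, 0 < K ∧ ∀ L : ℕ, 3 ≤ L → ∀ t : ℝ, 1 ≤ t → ∀ r : ℝ, 1 ≤ r → r ≤ L →
      K * r ^ 4 ≤ t ^ (d + 2) → C * (r * Real.sqrt (bet d L t / t)) ≤ δ := by
  set η := δ / C with hη
  have hηpos : 0 < η := by positivity
  refine ⟨4 / η ^ 4 + 27 ^ (d ^ 2) * (2 / η ^ 2) ^ (d + 2), by positivity, ?_⟩
  intro L hL t ht r hr hrL h1
  have hne : NeZero L := ⟨by omega⟩
  set K := 4 / η ^ 4 + 27 ^ (d ^ 2) * (2 / η ^ 2) ^ (d + 2) with hK
  have hKpos : 0 < K := by positivity
  have hK2 : 4 / η ^ 4 ≤ K := by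
    have : 0 ≤ 27 ^ (d ^ 2) * (2 / η ^ 2) ^ (d + 2) := by positivity
    linarith
  have hK3 : 27 ^ (d ^ 2) * (2 / η ^ 2) ^ (d + 2) ≤ K := by
    have : 0 ≤ 4 / η ^ 4 := by positivity
    linarith
  have hL' : (3 : ℝ) ≤ L := by exact_mod_cast hL
  have hLpos : (0 : ℝ) < L := by linarith
  have hrpos : (0 : ℝ) < r := by linarith
  have ht0 : 0 < t := by linarith
  have hlog : 0 ≤ Real.log L := Real.log_nonneg (by linarith)
  have hp : r ^ 2 * t ^ (-((d : ℝ) / 2)) / t ≤ η ^ 2 / 2 := by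
    have h3 : (r ^ 2 * t ^ (-((d : ℝ) / 2)) / t) ^ 2 = r ^ 4 / t ^ (d + 2) := by
      have h4 : (t ^ (-((d : ℝ) / 2))) ^ 2 = (t ^ d)⁻¹ := by
        rw [← Real.rpow_natCast, ← Real.rpow_mul ht0.le, ← Real.rpow_natCast,
          ← Real.rpow_neg ht0.le]
        congr 1; push_cast; ring
      rw [div_pow, mul_pow, h4, ← pow_mul, pow_add]
      field_simp
    have h5 : (r ^ 2 * t ^ (-((d : ℝ) / 2)) / t) ^ 2 ≤ (η ^ 2 / 2) ^ 2 := by
      rw [h3, div_le_iff₀ (by positivity)]
      have h6 : 1 ≤ (η ^ 2 / 2) ^ 2 * K := by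
        calc (1 : ℝ) = (η ^ 2 / 2) ^ 2 * (4 / η ^ 4) := by field_simp; norm_num
          _ ≤ _ := mul_le_mul_of_nonneg_left hK2 (by positivity)
      calc r ^ 4 ≤ ((η ^ 2 / 2) ^ 2 * K) * r ^ 4 :=
            le_mul_of_one_le_left (by positivity) h6
        _ = (η ^ 2 / 2) ^ 2 * (K * r ^ 4) := by ring
        _ ≤ _ := mul_le_mul_of_nonneg_left h1 (by positivity)
    exact le_of_sq_le_sq h5 (by positivity)
  have hq : r ^ 2 * (Real.log L / (L : ℝ) ^ d) / t ≤ η ^ 2 / 2 := by
    have h5 : (r ^ 2 * (Real.log L / (L : ℝ) ^ d) / t) ^ (d + 2) ≤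
        (η ^ 2 / 2) ^ (d + 2) := by
      have h3 : (r ^ 2 * (Real.log L / (L : ℝ) ^ d) / t) ^ (d + 2) =
          (r ^ (2 * (d + 2)) * (Real.log L) ^ (d + 2)) /
            ((L : ℝ) ^ (d * (d + 2)) * t ^ (d + 2)) := by
        rw [div_pow, mul_pow, div_pow, ← pow_mul, ← pow_mul]
        field_simp
      rw [h3, div_le_iff₀ (by positivity)]
      have h6 : 27 ^ (d ^ 2) ≤ (η ^ 2 / 2) ^ (d + 2) * K := by
        calc (27 : ℝ) ^ (d ^ 2) = (η ^ 2 / 2) ^ (d + 2) *
              (27 ^ (d ^ 2) * (2 / η ^ 2) ^ (d + 2)) := by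
              rw [mul_left_comm, ← mul_pow]
              have : η ^ 2 / 2 * (2 / η ^ 2) = 1 := by field_simp
              rw [this, one_pow, mul_one]
          _ ≤ _ := mul_le_mul_of_nonneg_left hK3 (by positivity)
      have h7 : r ^ (2 * d) ≤ (L : ℝ) ^ (2 * d) := pow_le_pow_left₀ hrpos.le hrL _
      calc r ^ (2 * (d + 2)) * (Real.log L) ^ (d + 2)
          ≤ r ^ (2 * (d + 2)) * (27 ^ (d ^ 2) * (L : ℝ) ^ (d ^ 2)) :=
            mul_le_mul_of_nonneg_left (log_pow_bound hd hL) (by positivity)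
        _ = 27 ^ (d ^ 2) * (r ^ (2 * d) * (L : ℝ) ^ (d ^ 2) * r ^ 4) := by
            rw [show 2 * (d + 2) = 2 * d + 4 by ring, pow_add]; ring
        _ ≤ 27 ^ (d ^ 2) * ((L : ℝ) ^ (2 * d) * (L : ℝ) ^ (d ^ 2) * r ^ 4) := by
            gcongr
        _ = 27 ^ (d ^ 2) * ((L : ℝ) ^ (d * (d + 2)) * r ^ 4) := by
            rw [← pow_add]
            congr 3
            ring
        _ ≤ ((η ^ 2 / 2) ^ (d + 2) * K) * ((L : ℝ) ^ (d * (d + 2)) * r ^ 4) :=
            mul_le_mul_of_nonneg_right h6 (by positivity)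
        _ = (η ^ 2 / 2) ^ (d + 2) * ((L : ℝ) ^ (d * (d + 2)) * (K * r ^ 4)) := by ring
        _ ≤ (η ^ 2 / 2) ^ (d + 2) * ((L : ℝ) ^ (d * (d + 2)) * t ^ (d + 2)) :=
            mul_le_mul_of_nonneg_left (mul_le_mul_of_nonneg_left h1 (by positivity))
              (by positivity)
    exact le_of_pow_le_pow_left₀ (by omega) (by positivity) h5
  have hB : r * Real.sqrt (bet d L t / t) ≤ η := by
    have h3 : r * Real.sqrt (bet d L t / t) = Real.sqrt (r ^ 2 * (bet d L t / t)) := by
      rw [Real.sqrt_mul (by positivity), Real.sqrt_sq hrpos.le]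
    rw [h3, Real.sqrt_le_left hηpos.le]
    have h4 : r ^ 2 * (bet d L t / t) = r ^ 2 * t ^ (-((d : ℝ) / 2)) / t +
        r ^ 2 * (Real.log L / (L : ℝ) ^ d) / t := by
      unfold bet; ring
    rw [h4]
    linarith
  calc C * (r * Real.sqrt (bet d L t / t)) ≤ C * η := mul_le_mul_of_nonneg_left hB hC.le
    _ = δ := by rw [hη]; field_simp

/-- Points of a set of diameter `r` are at distance at most `d * min r L`. -/
theorem near_cap {d L : ℕ} [NeZero L] (hd : 1 ≤ d) {B : Finset (Fin d → ZMod L)} {r : ℝ}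
    (hr : 1 ≤ r) (hB : Near d L B r) :
    ∃ s : ℝ, 1 ≤ s ∧ s ≤ L ∧ s ≤ r ∧ Near d L B (d * s) := by
  have hd1 : (1 : ℝ) ≤ d := by exact_mod_cast hd
  have hL1 : (1 : ℝ) ≤ L := by exact_mod_cast Nat.one_le_iff_ne_zero.2 (NeZero.ne L)
  refine ⟨min r L, le_min hr hL1, min_le_right _ _, min_le_left _ _, ?_⟩
  intro x hx y hy
  rcases le_total r L with h | h
  · rw [min_eq_left h]
    obtain ⟨k, hk, hk'⟩ := hB x hx y hy
    exact ⟨k, hk, hk'.trans (le_mul_of_one_le_left (by linarith) hd1)⟩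
  · rw [min_eq_right h]
    exact exists_red_le x y

/-- The law of the traces of the long cycles compared with that of a uniform permutation. -/
theorem trace_close {d : ℕ} (hd : 1 ≤ d) (F : C(KKset, ℝ)) {δ : ℝ} (hδ : 0 < δ) :
    ∃ K : ℝ, 0 < K ∧ ∀ (L : ℕ) [NeZero L], 3 ≤ L → ∀ t : ℝ, 1 ≤ t → ∀ r : ℝ, 1 ≤ r →
      K * r ^ 4 ≤ t ^ (d + 2) →
      ∀ (B : Finset (Fin d → ZMod L)) [Nonempty B], Near d L B r →
      |expect d L t (fun σ => F (ptB B σ)) -
        unifE (fun τ : Equiv.Perm B => F (pt τ))| ≤ δ := by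
  obtain ⟨G, hG, hFG⟩ := approx_powS F (ε := δ / 3) (by positivity)
  obtain ⟨C, hC, hc⟩ := closeOn_adjoin hd hG
  have hd1 : (1 : ℝ) ≤ d := by exact_mod_cast hd
  obtain ⟨K, hK, hk⟩ := box_arith (d := d) hd (by positivity : 0 < C * d) (by positivity : 0 < δ / 3)
  refine ⟨K, hK, ?_⟩
  intro L _ hL t ht r hr hKt B _ hB
  obtain ⟨s, hs1, hsL, hsr, hBs⟩ := near_cap hd hr hB
  have h1 := hc L (by omega) t ht (d * s) (by nlinarith) B hBs
  have h2 : C * (d * s * Real.sqrt (bet d L t / t)) ≤ δ / 3 := by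
    have h3 := hk L hL t ht s hs1 hsL (le_trans (by gcongr) hKt)
    calc C * (d * s * Real.sqrt (bet d L t / t)) = C * d * (s * Real.sqrt (bet d L t / t)) := by
          ring
      _ ≤ δ / 3 := h3
  have e1 : expect d L t (fun σ => F (ptB B σ)) =
      expect d L t (fun σ => G (ptB B σ)) + expect d L t (fun σ => F (ptB B σ) - G (ptB B σ)) := by
    rw [← expect_add]
    congr 1
    funext σ
    ring
  have e2 : unifE (fun τ : Equiv.Perm B => F (pt τ)) =
      unifE (fun τ : Equiv.Perm B => G (pt τ)) +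
        unifE (fun τ : Equiv.Perm B => F (pt τ) - G (pt τ)) := by
    rw [← unifE_add]
    congr 1
    funext σ
    ring
  have h3 : |expect d L t (fun σ => F (ptB B σ) - G (ptB B σ))| ≤ δ / 3 :=
    expect_abs_le (by linarith) fun σ => (hFG _).le
  have h4 : |unifE (fun τ : Equiv.Perm B => F (pt τ) - G (pt τ))| ≤ δ / 3 :=
    unifE_abs_le fun σ => (hFG _).le
  rw [e1, e2]
  rw [abs_le] at h1 h3 h4 ⊢
  constructor <;> linarith [h1.1, h1.2, h3.1, h3.2, h4.1, h4.2]

/-- The same for continuous functions of finitely many shares. -/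
theorem share_close {d : ℕ} (hd : 1 ≤ d) {m : ℕ} {f : (Fin m → ℝ) → ℝ} (hf : Continuous f)
    {δ : ℝ} (hδ : 0 < δ) :
    ∃ K : ℝ, 0 < K ∧ ∀ (L : ℕ) [NeZero L], 3 ≤ L → ∀ t : ℝ, 1 ≤ t → ∀ r : ℝ, 1 ≤ r →
      K * r ^ 4 ≤ t ^ (d + 2) →
      ∀ B : Finset (Fin d → ZMod L), B.Nonempty → Near d L B r →
      |expect d L t (fun σ => f fun i => share σ B i) -
        (∑ τ : Equiv.Perm (Fin B.card), f fun i => share τ Finset.univ i) /
          (B.card.factorial : ℝ)| ≤ δ := by
  classical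
  set F : C(KKset, ℝ) :=
    ⟨fun p => f fun i => p.1 i, hf.comp (continuous_pi fun i =>
      (continuous_apply (i : ℕ)).comp continuous_subtype_val)⟩ with hF
  obtain ⟨K, hK, h⟩ := trace_close hd F hδ
  refine ⟨K, hK, ?_⟩
  intro L _ hL t ht r hr hKt B hne hB
  have : Nonempty B := hne.to_subtype
  have h1 := h L hL t ht r hr hKt B hB
  have e1 : ∀ σ : Equiv.Perm (Fin d → ZMod L), F (ptB B σ) = f fun i : Fin m => share σ B i := by
    intro σ
    change f (fun i : Fin m => relLen (trP σ B) i) = _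
    congr 1
    funext i
    exact relLen_trP σ B i
  have e2 : unifE (fun τ : Equiv.Perm B => F (pt τ)) =
      (∑ τ : Equiv.Perm (Fin B.card), f fun i : Fin m => share τ Finset.univ i) /
        (B.card.factorial : ℝ) := by
    unfold unifE
    rw [Fintype.card_coe]
    congr 1
    refine Fintype.sum_equiv (B.equivFin.permCongr) _ _ fun τ => ?_
    change f (fun i : Fin m => relLen τ i) = _
    congr 1
    funext i
    exact (relLen_conj B.equivFin τ i).symm
  simp only [e1] at h1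
  rw [e2] at h1
  exact h1

end Pool.Agent.Stirring
end
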