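import Pool.Agent.Lib.MP_6c3d62_pr.Mg.G085

section

/-! Trace bounds for the exclusion process on the complete graph. -/

open Finset Matrix

set_option linter.unusedSectionVars false
set_option linter.style.haveILetI false

namespace Pool.Agent.Stirring

section General

variable {κ : Type*} [Fintype κ] [DecidableEq κ]

theorem hasSum_trace_exp (A : Matrix κ κ ℝ) :
    HasSum (fun n : ℕ => trace (A ^ n) / (n.factorial : ℝ)) (trace (NormedSpace.exp A)) := by
  letI : NormedRing (Matrix κ κ ℝ) := Matrix.linftyOpNormedRing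
  letI : NormedAlgebra ℝ (Matrix κ κ ℝ) := Matrix.linftyOpNormedAlgebra
  have h := NormedSpace.exp_series_hasSum_exp' (𝕂 := ℝ) A
  have h2 := h.mapL (LinearMap.toContinuousLinearMap (Matrix.traceLinearMap κ ℝ ℝ))
  simp only [LinearMap.coe_toContinuousLinearMap', Matrix.traceLinearMap_apply, trace_smul,
    smul_eq_mul, ← div_eq_inv_mul] at h2
  exact h2

theorem trace_exp_add_smul_one (A : Matrix κ κ ℝ) (r : ℝ) :
    trace (NormedSpace.exp (A + r • (1 : Matrix κ κ ℝ))) =
      Real.exp r * trace (NormedSpace.exp A) := by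
  have h2 : NormedSpace.exp (r • (1 : Matrix κ κ ℝ)) = Real.exp r • (1 : Matrix κ κ ℝ) := by
    have : r • (1 : Matrix κ κ ℝ) = diagonal (fun _ => r) := by
      ext i j; simp [Matrix.one_apply, diagonal_apply]
    rw [this, exp_diag_real]
    ext i j
    simp [Matrix.one_apply, diagonal_apply]
  rw [Matrix.exp_add_of_commute _ _ (Commute.smul_right (Commute.one_right _) _), h2,
    Matrix.mul_smul, mul_one, trace_smul, smul_eq_mul]

variable {κ' : Type*} [Fintype κ'] [DecidableEq κ']

theorem trace_pow_comm (X : Matrix κ κ' ℝ) (Y : Matrix κ' κ ℝ) (n : ℕ) :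
    trace ((X * Y) ^ (n + 1)) = trace ((Y * X) ^ (n + 1)) := by
  have h : ∀ m : ℕ, (X * Y) ^ m * X = X * (Y * X) ^ m := by
    intro m
    induction m with
    | zero => simp
    | succ m ih =>
      rw [pow_succ, Matrix.mul_assoc ((X * Y) ^ m) (X * Y) X, Matrix.mul_assoc X Y X,
        ← Matrix.mul_assoc ((X * Y) ^ m) X (Y * X), ih, Matrix.mul_assoc, ← pow_succ]
  rw [pow_succ (X * Y), ← Matrix.mul_assoc, h, Matrix.mul_assoc, Matrix.trace_mul_comm,
    Matrix.mul_assoc, ← pow_succ]

theorem trace_exp_mul_comm (X : Matrix κ κ' ℝ) (Y : Matrix κ' κ ℝ) :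
    trace (NormedSpace.exp (X * Y)) - Fintype.card κ =
      trace (NormedSpace.exp (Y * X)) - Fintype.card κ' := by
  have h1 := hasSum_trace_exp (X * Y)
  have h2 := hasSum_trace_exp (Y * X)
  rw [← h1.tsum_eq, ← h2.tsum_eq, h1.summable.tsum_eq_zero_add, h2.summable.tsum_eq_zero_add]
  simp only [trace_pow_comm X Y]
  simp

end General

section Level

variable {ι : Type*} [Fintype ι] [DecidableEq ι]

theorem card_lev (k : ℕ) : Fintype.card (Lev ι k) = (Fintype.card ι).choose k := by
  rw [Fintype.card_subtype]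
  have : (Finset.univ.filter fun A : Finset ι => A.card = k) =
      Finset.powersetCard k (Finset.univ : Finset ι) := by
    ext A; simp [Finset.mem_powersetCard]
  rw [this, Finset.card_powersetCard, Finset.card_univ]

/-- Trace of the heat kernel of the complete graph on `k`-subsets. -/
noncomputable def kTrace (ι : Type*) [Fintype ι] [DecidableEq ι] (r : ℝ) (k : ℕ) : ℝ :=
  trace (NormedSpace.exp (r • kgen ι k))

theorem kTrace_succ (r : ℝ) (k : ℕ) :
    kTrace ι r (k + 1) = kTrace ι r k +
      Real.exp (-(2 * r * ((k : ℝ) + 1) * ((Fintype.card ι : ℝ) - k))) *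
        (((Fintype.card ι).choose (k + 1) : ℝ) - (Fintype.card ι).choose k) := by
  have h1 : kTrace ι r (k + 1) =
      Real.exp (-(2 * r * ((k : ℝ) + 1) * ((Fintype.card ι : ℝ) - k))) *
        trace (NormedSpace.exp (((2 * r) • (incl ι k)ᵀ) * incl ι k)) := by
    rw [← trace_exp_add_smul_one, kTrace, kgen_succ]
    congr 2
    rw [smul_add, smul_smul, smul_smul, Matrix.smul_mul]
    congr 2 <;> ring
  have h2 : kTrace ι r k =
      Real.exp (-(2 * r * ((k : ℝ) + 1) * ((Fintype.card ι : ℝ) - k))) *
        trace (NormedSpace.exp (incl ι k * ((2 * r) • (incl ι k)ᵀ))) := by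
    rw [← trace_exp_add_smul_one, kTrace, kgen_pred]
    congr 2
    rw [smul_add, smul_smul, smul_smul, Matrix.mul_smul]
    congr 2 <;> ring
  have h3 := trace_exp_mul_comm ((2 * r) • (incl ι k)ᵀ) (incl ι k)
  rw [card_lev, card_lev] at h3
  rw [h1, h2, ← mul_add]
  congr 1
  linarith

theorem kTrace_zero (r : ℝ) : kTrace ι r 0 = 1 := by
  have h : kgen ι 0 = 0 := by
    ext A B
    rw [kgen_apply]
    have : exch A.1 B.1 = 0 := by
      have hB : B.1 = ∅ := Finset.card_eq_zero.mp B.2
      rw [hB]; simp [exch]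
    rw [this]; simp
  rw [kTrace, h, smul_zero, NormedSpace.exp_zero, trace_one, card_lev]
  simp

theorem kTrace_le_sum {r : ℝ} (hr : 0 ≤ r) (k : ℕ) (hk : k ≤ Fintype.card ι) :
    kTrace ι r k ≤ ∑ j ∈ Finset.range (k + 1),
      ((Fintype.card ι).choose j : ℝ) * (Real.exp (-(r * Fintype.card ι))) ^ j := by
  set m := Fintype.card ι with hm
  induction k with
  | zero => rw [kTrace_zero]; simp
  | succ k ih =>
    rw [kTrace_succ, Finset.sum_range_succ]
    refine add_le_add (ih (by omega)) ?_
    rw [← hm]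
    by_cases h2 : 2 * (k + 1) ≤ m
    · rw [mul_comm]
      have hd : ((m.choose (k + 1) : ℕ) : ℝ) - (m.choose k : ℝ) ≤ (m.choose (k + 1) : ℝ) := by
        have : (0 : ℝ) ≤ (m.choose k : ℝ) := Nat.cast_nonneg _
        linarith
      refine mul_le_mul hd ?_ (Real.exp_pos _).le (Nat.cast_nonneg _)
      rw [← Real.exp_nat_mul]
      refine Real.exp_le_exp.mpr ?_
      have h3 : (2 : ℝ) * (k + 1) ≤ m := by exact_mod_cast h2
      push_cast
      have h4 : (0 : ℝ) ≤ r * (k + 1) := by positivity
      nlinarith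
    · have hle : m.choose (k + 1) ≤ m.choose k := by
        have h5 : m.choose (k + 1) * (k + 1) = m.choose k * (m - k) := Nat.choose_succ_right_eq m k
        have h6 : m - k ≤ k + 1 := by omega
        have h7 : m.choose (k + 1) * (k + 1) ≤ m.choose k * (k + 1) := by
          rw [h5]; exact Nat.mul_le_mul_left _ h6
        exact Nat.le_of_mul_le_mul_right h7 (Nat.succ_pos k)
      have hle' : ((m.choose (k + 1) : ℕ) : ℝ) - (m.choose k : ℝ) ≤ 0 := by
        have : ((m.choose (k + 1) : ℕ) : ℝ) ≤ (m.choose k : ℝ) := by exact_mod_cast hle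
        linarith
      calc Real.exp _ * (((m.choose (k + 1) : ℕ) : ℝ) - (m.choose k : ℝ)) ≤ 0 :=
            mul_nonpos_of_nonneg_of_nonpos (Real.exp_pos _).le hle'
        _ ≤ _ := by positivity

theorem kTrace_le {r : ℝ} (hr : 0 ≤ r) (k : ℕ) (hk : k ≤ Fintype.card ι) :
    kTrace ι r k ≤ (1 + Real.exp (-(r * Fintype.card ι))) ^ (Fintype.card ι) := by
  refine (kTrace_le_sum hr k hk).trans ?_
  rw [add_comm (1 : ℝ), add_pow]
  simp only [one_pow, mul_one]
  calc ∑ j ∈ Finset.range (k + 1),
      ((Fintype.card ι).choose j : ℝ) * (Real.exp (-(r * Fintype.card ι))) ^ j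
      ≤ ∑ j ∈ Finset.range (Fintype.card ι + 1),
      ((Fintype.card ι).choose j : ℝ) * (Real.exp (-(r * Fintype.card ι))) ^ j := by
        refine Finset.sum_le_sum_of_subset_of_nonneg ?_ fun j _ _ => by positivity
        intro j hj
        rw [Finset.mem_range] at *
        omega
    _ = _ := Finset.sum_congr rfl fun j _ => mul_comm _ _

/-- Number of subsets fixed by a permutation. -/
noncomputable def fixSets (σ : Equiv.Perm ι) : ℝ :=
  ((Finset.univ.filter fun A : Finset ι => A.map σ.toEmbedding = A).card : ℝ)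

theorem fixSets_eq_sum (σ : Equiv.Perm ι) :
    fixSets σ = ∑ k ∈ Finset.range (Fintype.card ι + 1), trace (permMat _ (levHom ι k σ)) := by
  unfold fixSets
  rw [Finset.card_eq_sum_card_fiberwise (f := fun A : Finset ι => A.card)
    (t := Finset.range (Fintype.card ι + 1))]
  · push_cast
    refine Finset.sum_congr rfl fun k _ => ?_
    rw [trace_permMat]
    congr 1
    rw [Finset.filter_filter]
    refine Finset.card_bij' (fun A hA => (⟨A, (Finset.mem_filter.mp hA).2.2⟩ : Lev ι k))
      (fun A _ => A.1) ?_ ?_ ?_ ?_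
    · intro A hA
      simp only [Finset.mem_filter, Finset.mem_univ, true_and] at hA ⊢
      exact Subtype.ext hA.1
    · intro A hA
      simp only [Finset.mem_filter, Finset.mem_univ, true_and] at hA ⊢
      exact ⟨congrArg Subtype.val hA, A.2⟩
    · intro A _; rfl
    · intro A _; rfl
  · intro A _
    simp only [Finset.coe_range, Set.mem_Iio]
    exact Nat.lt_succ_of_le (Finset.card_le_univ A)

theorem E_fixSets_complete_le {r : ℝ} (hr : 0 ≤ r) :
    E (fun _ : ι × ι => r) (fun p : ι × ι => Equiv.swap p.1 p.2) (fixSets (ι := ι)) ≤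
      (Fintype.card ι + 1) * (1 + Real.exp (-(r * Fintype.card ι))) ^ (Fintype.card ι) := by
  have h1 : (fixSets (ι := ι)) = fun σ => ∑ k ∈ Finset.range (Fintype.card ι + 1),
      trace (permMat _ (levHom ι k σ)) := by
    funext σ; exact fixSets_eq_sum σ
  rw [h1, E_sum]
  have h2 : ∀ k ∈ Finset.range (Fintype.card ι + 1),
      E (fun _ : ι × ι => r) (fun p : ι × ι => Equiv.swap p.1 p.2)
        (fun σ => trace (permMat _ (levHom ι k σ))) ≤
      (1 + Real.exp (-(r * Fintype.card ι))) ^ (Fintype.card ι) := by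
    intro k hk
    have hk' : k ≤ Fintype.card ι := Nat.lt_succ_iff.mp (Finset.mem_range.mp hk)
    have h3 := E_trace (fun _ : ι × ι => r) (fun p : ι × ι => Equiv.swap p.1 p.2)
      ((permMat (Lev ι k)).comp (levHom ι k))
    simp only [MonoidHom.comp_apply] at h3
    rw [h3, ← Finset.smul_sum]
    exact kTrace_le hr k hk'
  refine (Finset.sum_le_sum h2).trans ?_
  rw [Finset.sum_const, Finset.card_range, nsmul_eq_mul]
  push_cast
  exact le_refl _

end Level

end Pool.Agent.Stirring
end

section

/-! The number of cycles of a permutation and invariant sets. -/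

open Finset

set_option linter.unusedSectionVars false

namespace Pool.Agent.Stirring

variable {V : Type*} [Fintype V] [DecidableEq V]

/-- The number of cycles of a permutation, fixed points included. -/
noncomputable def numCycles (σ : Equiv.Perm V) : ℕ :=
  Nat.card (Quotient (Equiv.Perm.SameCycle.setoid σ))

theorem mem_iff_of_map_eq {σ : Equiv.Perm V} {A : Finset V} (h : A.map σ.toEmbedding = A) (x : V) :
    σ x ∈ A ↔ x ∈ A := by
  conv_lhs => rw [← h]
  rw [Finset.mem_map_equiv, Equiv.symm_apply_apply]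

theorem mem_iff_of_sameCycle {σ : Equiv.Perm V} {A : Finset V} (h : A.map σ.toEmbedding = A)
    {x y : V} (hxy : σ.SameCycle x y) : x ∈ A ↔ y ∈ A := by
  have hn : ∀ (n : ℕ) (z : V), (σ ^ n) z ∈ A ↔ z ∈ A := by
    intro n
    induction n with
    | zero => intro z; simp
    | succ n ih =>
      intro z
      rw [pow_succ, Equiv.Perm.mul_apply, ih, mem_iff_of_map_eq h]
  obtain ⟨i, rfl⟩ := hxy
  obtain ⟨n, rfl | rfl⟩ := i.eq_nat_or_neg
  · rw [zpow_natCast, hn]
  · rw [zpow_neg, zpow_natCast]
    have h2 := hn n ((σ ^ n)⁻¹ x)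
    rw [← Equiv.Perm.mul_apply, mul_inv_cancel, Equiv.Perm.one_apply] at h2
    exact h2

theorem map_eq_iff_forall {σ : Equiv.Perm V} {A : Finset V} :
    A.map σ.toEmbedding = A ↔ ∀ x y, σ.SameCycle x y → (x ∈ A ↔ y ∈ A) := by
  constructor
  · intro h x y hxy; exact mem_iff_of_sameCycle h hxy
  · intro h
    ext x
    rw [Finset.mem_map_equiv]
    refine h _ _ ⟨1, ?_⟩
    simp

/-- Invariant sets correspond to sets of cycles. -/
noncomputable def invEquiv (σ : Equiv.Perm V) :
    {A : Finset V // A.map σ.toEmbedding = A} ≃ Set (Quotient (Equiv.Perm.SameCycle.setoid σ)) where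
  toFun A := {q | ∃ x ∈ A.1, (Quotient.mk _ x : Quotient (Equiv.Perm.SameCycle.setoid σ)) = q}
  invFun S := by
    classical
    exact ⟨Finset.univ.filter fun x => (Quotient.mk _ x : Quotient _) ∈ S, by
      rw [map_eq_iff_forall]
      intro x y hxy
      have : (Quotient.mk (Equiv.Perm.SameCycle.setoid σ) x) = Quotient.mk _ y := Quotient.sound hxy
      simp only [Finset.mem_filter, Finset.mem_univ, true_and, this]⟩
  left_inv A := by
    classical
    refine Subtype.ext ?_
    ext x
    simp only [Set.mem_ofPred_eq, Finset.mem_filter, Finset.mem_univ, true_and]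
    constructor
    · rintro ⟨y, hy, hyx⟩
      exact (mem_iff_of_sameCycle A.2 (Quotient.exact hyx : σ.SameCycle y x)).mp hy
    · intro hx; exact ⟨x, hx, rfl⟩
  right_inv S := by
    classical
    ext q
    simp only [Set.mem_ofPred_eq, Finset.mem_filter, Finset.mem_univ, true_and]
    constructor
    · rintro ⟨x, hx, rfl⟩; exact hx
    · intro hq
      obtain ⟨x, rfl⟩ := Quotient.exists_rep q
      exact ⟨x, hq, rfl⟩

theorem fixSets_eq_two_pow (σ : Equiv.Perm V) : fixSets σ = (2 : ℝ) ^ numCycles σ := by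
  classical
  unfold fixSets numCycles
  have h1 : (Finset.univ.filter fun A : Finset V => A.map σ.toEmbedding = A).card =
      Nat.card {A : Finset V // A.map σ.toEmbedding = A} := by
    rw [Nat.card_eq_fintype_card, Fintype.card_subtype]
  rw [h1, Nat.card_congr (invEquiv σ)]
  have : Finite (Quotient (Equiv.Perm.SameCycle.setoid σ)) := Quotient.finite _
  have : Fintype (Quotient (Equiv.Perm.SameCycle.setoid σ)) := Fintype.ofFinite _
  rw [Nat.card_eq_fintype_card, Nat.card_eq_fintype_card, Fintype.card_set]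
  push_cast
  rfl

theorem numCycles_le (σ : Equiv.Perm V) : numCycles σ ≤ Fintype.card V := by
  unfold numCycles
  rw [← Nat.card_eq_fintype_card]
  exact Nat.card_le_card_of_surjective (Quotient.mk _) (fun q => Quotient.exists_rep q)

/-- The cycle (as a set) containing `x`. -/
noncomputable def cyc (σ : Equiv.Perm V) (x : V) : Finset V :=
  by classical exact Finset.univ.filter fun y => σ.SameCycle x y

theorem mem_cyc {σ : Equiv.Perm V} {x y : V} : y ∈ cyc σ x ↔ σ.SameCycle x y := by
  classical
  simp [cyc]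

theorem self_mem_cyc (σ : Equiv.Perm V) (x : V) : x ∈ cyc σ x :=
  mem_cyc.mpr (Equiv.Perm.SameCycle.refl _ _)

theorem card_cyc_pos (σ : Equiv.Perm V) (x : V) : 0 < (cyc σ x).card :=
  Finset.card_pos.mpr ⟨x, self_mem_cyc σ x⟩

theorem cyc_eq_of_sameCycle {σ : Equiv.Perm V} {x y : V} (h : σ.SameCycle x y) :
    cyc σ x = cyc σ y := by
  ext z
  rw [mem_cyc, mem_cyc]
  exact ⟨fun hz => h.symm.trans hz, fun hz => h.trans hz⟩

/-- The number of cycles is the sum of the inverse cycle lengths. -/
theorem sum_inv_card_cyc (σ : Equiv.Perm V) :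
    ∑ x, ((cyc σ x).card : ℝ)⁻¹ = numCycles σ := by
  classical
  have : Finite (Quotient (Equiv.Perm.SameCycle.setoid σ)) := Quotient.finite _
  have : Fintype (Quotient (Equiv.Perm.SameCycle.setoid σ)) := Fintype.ofFinite _
  rw [← Finset.sum_fiberwise (s := Finset.univ)
    (g := fun x => (Quotient.mk (Equiv.Perm.SameCycle.setoid σ) x))]
  have h : ∀ q : Quotient (Equiv.Perm.SameCycle.setoid σ),
      ∑ x with (Quotient.mk (Equiv.Perm.SameCycle.setoid σ) x) = q, ((cyc σ x).card : ℝ)⁻¹ = 1 := by
    intro q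
    obtain ⟨x, rfl⟩ := Quotient.exists_rep q
    have h1 : (Finset.univ.filter fun y => (Quotient.mk (Equiv.Perm.SameCycle.setoid σ) y) =
        Quotient.mk _ x) = cyc σ x := by
      ext y
      rw [mem_cyc, Finset.mem_filter]
      simp only [Finset.mem_univ, true_and]
      constructor
      · intro hy; exact (Quotient.exact hy : σ.SameCycle y x).symm
      · intro hy; exact Quotient.sound hy.symm
    rw [h1]
    have h2 : ∀ y ∈ cyc σ x, ((cyc σ y).card : ℝ)⁻¹ = ((cyc σ x).card : ℝ)⁻¹ := fun y hy => by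
      rw [cyc_eq_of_sameCycle (mem_cyc.mp hy)]
    rw [Finset.sum_congr rfl h2, Finset.sum_const, nsmul_eq_mul]
    have := card_cyc_pos σ x
    field_simp
  rw [Finset.sum_congr rfl fun q _ => h q]
  simp [numCycles, Nat.card_eq_fintype_card]

end Pool.Agent.Stirring
end

section

/-! Factorization of the stirring process over disjoint blocks. -/

open Finset

set_option linter.unusedSectionVars false

namespace Pool.Agent.Stirring

section CycleType

variable {V : Type*} [Fintype V] [DecidableEq V]

theorem cyc_eq_singleton {σ : Equiv.Perm V} {x : V} (hx : x ∉ σ.support) : cyc σ x = {x} := by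
  ext y
  rw [mem_cyc, Finset.mem_singleton]
  constructor
  · rintro ⟨i, rfl⟩
    have h : Function.IsFixedPt σ x := by
      rw [Equiv.Perm.mem_support, not_not] at hx; exact hx
    exact Equiv.Perm.zpow_apply_eq_self_of_apply_eq_self h i
  · rintro rfl; exact Equiv.Perm.SameCycle.refl _ _

theorem cyc_eq_support_cycleOf {σ : Equiv.Perm V} {x : V} (hx : x ∈ σ.support) :
    cyc σ x = (σ.cycleOf x).support := by
  ext y
  rw [mem_cyc, Equiv.Perm.mem_support_cycleOf_iff]
  exact ⟨fun h => ⟨h, hx⟩, fun h => h.1⟩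

theorem numCycles_add_card_support (σ : Equiv.Perm V) :
    numCycles σ + σ.support.card = Multiset.card σ.cycleType + Fintype.card V := by
  have h := sum_inv_card_cyc σ
  rw [← Finset.sum_add_sum_compl σ.support] at h
  have h1 : ∑ x ∈ σ.supportᶜ, ((cyc σ x).card : ℝ)⁻¹ = (Fintype.card V : ℝ) - σ.support.card := by
    have : ∀ x ∈ σ.supportᶜ, ((cyc σ x).card : ℝ)⁻¹ = 1 := fun x hx => by
      rw [cyc_eq_singleton (Finset.mem_compl.mp hx)]; simp
    rw [Finset.sum_congr rfl this, Finset.sum_const, nsmul_eq_mul, mul_one, Finset.card_compl,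
      Nat.cast_sub (Finset.card_le_univ _)]
  have h2 : ∑ x ∈ σ.support, ((cyc σ x).card : ℝ)⁻¹ = (Multiset.card σ.cycleType : ℝ) := by
    rw [← Finset.sum_fiberwise_of_maps_to (t := σ.cycleFactorsFinset) (g := fun x => σ.cycleOf x)
      (fun x hx => Equiv.Perm.cycleOf_mem_cycleFactorsFinset_iff.mpr hx)]
    have h3 : ∀ c ∈ σ.cycleFactorsFinset,
        ∑ x ∈ σ.support with σ.cycleOf x = c, ((cyc σ x).card : ℝ)⁻¹ = 1 := by
      intro c hc
      have h4 : (σ.support.filter fun x => σ.cycleOf x = c) = c.support := by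
        ext x
        rw [Finset.mem_filter]
        constructor
        · rintro ⟨hx, rfl⟩
          exact Equiv.Perm.mem_support_cycleOf_iff.mpr ⟨Equiv.Perm.SameCycle.refl _ _, hx⟩
        · intro hx
          refine ⟨Equiv.Perm.mem_cycleFactorsFinset_support_le hc hx, ?_⟩
          exact (Equiv.Perm.cycle_is_cycleOf hx hc).symm
      rw [h4]
      have h5 : ∀ x ∈ c.support, ((cyc σ x).card : ℝ)⁻¹ = ((c.support.card : ℕ) : ℝ)⁻¹ := by
        intro x hx
        rw [cyc_eq_support_cycleOf (Equiv.Perm.mem_cycleFactorsFinset_support_le hc hx),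
          ← Equiv.Perm.cycle_is_cycleOf hx hc]
      rw [Finset.sum_congr rfl h5, Finset.sum_const, nsmul_eq_mul]
      have hpos : 0 < c.support.card := by
        have := (Equiv.Perm.mem_cycleFactorsFinset_iff.mp hc).1
        exact lt_of_lt_of_le (by norm_num) this.two_le_card_support
      field_simp
    rw [Finset.sum_congr rfl h3, Finset.sum_const, nsmul_eq_mul, mul_one, Equiv.Perm.cycleType_def,
      Multiset.card_map]
    rfl
  rw [h1, h2] at h
  have h6 : (numCycles σ : ℝ) + σ.support.card = (Multiset.card σ.cycleType : ℝ) + Fintype.card V := by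
    linarith
  exact_mod_cast h6

/-- The normalized weight `2 ^ (N - n)`. -/
noncomputable def cw (σ : Equiv.Perm V) : ℝ := fixSets σ / 2 ^ Fintype.card V

theorem cw_eq (σ : Equiv.Perm V) :
    cw σ = 2 ^ Multiset.card σ.cycleType / 2 ^ σ.support.card := by
  unfold cw
  rw [fixSets_eq_two_pow, div_eq_div_iff (by positivity) (by positivity), ← pow_add, ← pow_add,
    numCycles_add_card_support]

theorem cw_mul {σ τ : Equiv.Perm V} (h : Equiv.Perm.Disjoint σ τ) : cw (σ * τ) = cw σ * cw τ := by
  rw [cw_eq, cw_eq, cw_eq, h.cycleType_mul, h.card_support_mul, Multiset.card_add, pow_add, pow_add]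
  field_simp

theorem cw_ofSubtype {p : V → Prop} [DecidablePred p] (σ : Equiv.Perm (Subtype p)) :
    cw (Equiv.Perm.ofSubtype σ) = cw σ := by
  rw [cw_eq, cw_eq, Equiv.Perm.cycleType_ofSubtype, Equiv.Perm.support_ofSubtype, Finset.card_map]

theorem cw_nonneg (σ : Equiv.Perm V) : 0 ≤ cw σ := by
  rw [cw_eq]; positivity

end CycleType

section Split

variable {α : Type*} [Fintype α] {G : Type*} [Group G] [Fintype G] [DecidableEq G]

theorem sum_restr (c : α → ℝ) (p : α → Bool) :
    ∑ a, c a = ∑ a, restr c p a + ∑ a, restr c (fun a => !p a) a := by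
  rw [← Finset.sum_add_distrib]
  refine Finset.sum_congr rfl fun a _ => ?_
  by_cases h : p a = true <;> simp [restr, h]

theorem E_split (c : α → ℝ) (g : α → G) (p : α → Bool) (f : G → ℝ)
    (hf : ∀ l : List α, (∀ a ∈ l, c a ≠ 0) → f (l.map g).prod =
      f ((l.filter p).map g).prod * f ((l.filter fun a => !p a).map g).prod) :
    E c g f = E (restr c p) g f * E (restr c fun a => !p a) g f := by
  unfold E
  rw [Z_congr c (F := fun l => f (l.map g).prod)
    (G := fun l => (fun l => f (l.map g).prod) (l.filter p) *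
      (fun l => f (l.map g).prod) (l.filter fun a => !p a)) hf]
  rw [Z_prod c p (F := fun l => f (l.map g).prod) (G := fun l => f (l.map g).prod)
    (fun l => bound_fin f _) (fun l => bound_fin f _)]
  rw [sum_restr c p, neg_add, Real.exp_add]
  ring

theorem prod_filter_split (g : α → G) (p : α → Bool) (l : List α)
    (h : ∀ a ∈ l, ∀ b ∈ l, p a = true → p b = false → Commute (g a) (g b)) :
    (l.map g).prod = ((l.filter p).map g).prod * ((l.filter fun a => !p a).map g).prod := by
  induction l with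
  | nil => simp
  | cons a l ih =>
    have ih' := ih fun x hx y hy => h x (List.mem_cons_of_mem _ hx) y (List.mem_cons_of_mem _ hy)
    by_cases hp : p a = true
    · rw [List.filter_cons_of_pos hp, List.filter_cons_of_neg (by simp [hp])]
      simp only [List.map_cons, List.prod_cons]
      rw [ih', mul_assoc]
    · have hp' : p a = false := by simpa using hp
      rw [List.filter_cons_of_neg hp, List.filter_cons_of_pos (by simp [hp'])]
      simp only [List.map_cons, List.prod_cons]
      rw [ih', ← mul_assoc, ← mul_assoc]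
      congr 1
      have hc : Commute (g a) ((l.filter p).map g).prod := by
        refine Commute.list_prod_right _ _ ?_
        intro x hx
        obtain ⟨b, hb, rfl⟩ := List.mem_map.mp hx
        have hb' := List.mem_filter.mp hb
        exact (h b (List.mem_cons_of_mem _ hb'.1) a List.mem_cons_self hb'.2 hp').symm
      exact hc.eq

variable {α' : Type*} [Fintype α']

theorem wordSum_transport {j : α' → α} (hj : Function.Injective j) (c : α → ℝ)
    (hc : ∀ a, c a ≠ 0 → ∃ a', j a' = a) (F : List α → ℝ) (n : ℕ) :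
    wordSum c F n = wordSum (fun a' => c (j a')) (fun l => F (l.map j)) n := by
  induction n generalizing F with
  | zero => simp [wordSum_zero]
  | succ n ih =>
    rw [wordSum_succ, wordSum_succ]
    simp only [List.map_cons]
    rw [← Finset.sum_subset (Finset.subset_univ (Finset.univ.map ⟨j, hj⟩))]
    · rw [Finset.sum_map]
      refine Finset.sum_congr rfl fun a' _ => ?_
      simp only [Function.Embedding.coeFn_mk]
      rw [ih]
    · intro a _ ha
      have : c a = 0 := by
        by_contra hne
        obtain ⟨a', rfl⟩ := hc a hne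
        exact ha (Finset.mem_map.mpr ⟨a', Finset.mem_univ _, rfl⟩)
      rw [this, zero_mul]

theorem E_transport {j : α' → α} (hj : Function.Injective j) (c : α → ℝ)
    (hc : ∀ a, c a ≠ 0 → ∃ a', j a' = a) (g : α → G) (f : G → ℝ) {G' : Type*} [Group G']
    [Fintype G'] [DecidableEq G'] (φ : G' →* G) (g' : α' → G') (hg : ∀ a', g (j a') = φ (g' a')) :
    E c g f = E (fun a' => c (j a')) g' (fun σ => f (φ σ)) := by
  unfold E Z
  have h1 : ∑ a, c a = ∑ a', c (j a') := by
    rw [← Finset.sum_subset (Finset.subset_univ (Finset.univ.map ⟨j, hj⟩)), Finset.sum_map]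
    · rfl
    · intro a _ ha
      by_contra hne
      obtain ⟨a', rfl⟩ := hc a hne
      exact ha (Finset.mem_map.mpr ⟨a', Finset.mem_univ _, rfl⟩)
  rw [h1]
  congr 1
  refine tsum_congr fun n => ?_
  rw [wordSum_transport hj c hc]
  congr 2
  funext l
  change f _ = f (φ _)
  rw [List.map_map, map_list_prod, List.map_map]
  congr 2
  refine List.map_congr_left fun a _ => ?_
  exact hg a

end Split

end Pool.Agent.Stirring
end

section

/-! Increments of level traces under the addition of complete graph stirring. -/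

open Finset Matrix

set_option linter.unusedSectionVars false
set_option linter.style.haveILetI false

namespace Pool.Agent.Stirring

section General

variable {κ : Type*} [Fintype κ] [DecidableEq κ] {κ' : Type*} [Fintype κ'] [DecidableEq κ']

theorem hasSum_trace_mul_exp' (M A : Matrix κ κ ℝ) :
    HasSum (fun n : ℕ => trace (M * A ^ n) / (n.factorial : ℝ)) (trace (M * NormedSpace.exp A)) := by
  letI : NormedRing (Matrix κ κ ℝ) := Matrix.linftyOpNormedRing
  letI : NormedAlgebra ℝ (Matrix κ κ ℝ) := Matrix.linftyOpNormedAlgebra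
  have h := NormedSpace.exp_series_hasSum_exp' (𝕂 := ℝ) A
  have h2 := h.mapL (LinearMap.toContinuousLinearMap
    ((Matrix.traceLinearMap κ ℝ ℝ).comp (LinearMap.mulLeft ℝ M)))
  simp only [LinearMap.coe_toContinuousLinearMap', LinearMap.comp_apply, LinearMap.mulLeft_apply,
    Matrix.traceLinearMap_apply, Matrix.mul_smul, trace_smul, smul_eq_mul, ← div_eq_inv_mul] at h2
  exact h2

theorem pow_intertwine {X : Matrix κ κ' ℝ} {M : Matrix κ κ ℝ} {M' : Matrix κ' κ' ℝ}
    (h : X * M' = M * X) (n : ℕ) : X * M' ^ n = M ^ n * X := by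
  induction n with
  | zero => simp
  | succ n ih => rw [pow_succ, ← Matrix.mul_assoc, ih, Matrix.mul_assoc, h, ← Matrix.mul_assoc,
      ← pow_succ]

theorem trace_single_mul' (Y : Matrix κ κ' ℝ) (i : κ) (j : κ') :
    trace ((Matrix.single j i 1 : Matrix κ' κ ℝ) * Y) = Y i j := by
  rw [trace, Finset.sum_eq_single j]
  · simp [Matrix.diag_apply, Matrix.mul_apply, Matrix.single_apply]
  · intro b _ hb
    simp [Matrix.diag_apply, Matrix.mul_apply, Ne.symm hb]
  · intro h; exact absurd (Finset.mem_univ _) h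

theorem exp_intertwine {X : Matrix κ κ' ℝ} {M : Matrix κ κ ℝ} {M' : Matrix κ' κ' ℝ}
    (h : X * M' = M * X) : X * NormedSpace.exp M' = NormedSpace.exp M * X := by
  ext i j
  have h1 := hasSum_trace_mul_exp' ((Matrix.single j i 1 : Matrix κ' κ ℝ) * X) M'
  have h2 := hasSum_trace_mul_exp' (X * (Matrix.single j i 1 : Matrix κ' κ ℝ)) M
  have h3 : (fun n : ℕ => trace ((Matrix.single j i 1 : Matrix κ' κ ℝ) * X * M' ^ n) /
      (n.factorial : ℝ)) = fun n : ℕ => trace (X * (Matrix.single j i 1 : Matrix κ' κ ℝ) * M ^ n) /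
      (n.factorial : ℝ) := by
    funext n
    rw [Matrix.mul_assoc, pow_intertwine h, ← Matrix.mul_assoc, Matrix.trace_mul_comm,
      ← Matrix.mul_assoc]
  rw [h3] at h1
  have h4 := h1.unique h2
  rw [Matrix.mul_assoc, trace_single_mul'] at h4
  rw [h4, Matrix.trace_mul_comm, ← Matrix.mul_assoc, Matrix.trace_mul_comm, trace_single_mul']

/-- Comparison of the traces of `M exp (X Y)` and `M' exp (Y X)` for intertwined `M`, `M'`. -/
theorem trace_mul_exp_comm {X : Matrix κ κ' ℝ} (Y : Matrix κ' κ ℝ) {M : Matrix κ κ ℝ}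
    {M' : Matrix κ' κ' ℝ} (h : X * M' = M * X) :
    trace (M * NormedSpace.exp (X * Y)) - trace M =
      trace (M' * NormedSpace.exp (Y * X)) - trace M' := by
  have h1 := hasSum_trace_mul_exp' M (X * Y)
  have h2 := hasSum_trace_mul_exp' M' (Y * X)
  rw [← h1.tsum_eq, ← h2.tsum_eq, h1.summable.tsum_eq_zero_add, h2.summable.tsum_eq_zero_add]
  have h3 : ∀ n : ℕ, trace (M * (X * Y) ^ (n + 1)) = trace (M' * (Y * X) ^ (n + 1)) := by
    intro n
    have h4 : (X * Y) ^ n * X = X * (Y * X) ^ n := by
      refine (pow_intertwine (X := X) (M := X * Y) (M' := Y * X) ?_ n).symm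
      rw [Matrix.mul_assoc]
    calc trace (M * (X * Y) ^ (n + 1)) = trace (M * ((X * Y) ^ n * X * Y)) := by
          rw [pow_succ, Matrix.mul_assoc ((X * Y) ^ n) X Y]
      _ = trace ((M * X) * ((Y * X) ^ n * Y)) := by rw [h4]; simp only [Matrix.mul_assoc]
      _ = trace (X * (M' * ((Y * X) ^ n * Y))) := by rw [← h]; simp only [Matrix.mul_assoc]
      _ = trace (M' * ((Y * X) ^ n * Y) * X) := Matrix.trace_mul_comm _ _
      _ = trace (M' * (Y * X) ^ (n + 1)) := by rw [pow_succ]; simp only [Matrix.mul_assoc]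
  simp [h3]

theorem trace_mul_exp_add_smul_one (M A : Matrix κ κ ℝ) (r : ℝ) :
    trace (M * NormedSpace.exp (A + r • (1 : Matrix κ κ ℝ))) =
      Real.exp r * trace (M * NormedSpace.exp A) := by
  have h2 : NormedSpace.exp (r • (1 : Matrix κ κ ℝ)) = Real.exp r • (1 : Matrix κ κ ℝ) := by
    have : r • (1 : Matrix κ κ ℝ) = diagonal (fun _ => r) := by
      ext i j; simp [Matrix.one_apply, diagonal_apply]
    rw [this, exp_diag_real]
    ext i j
    simp [Matrix.one_apply, diagonal_apply]
  rw [Matrix.exp_add_of_commute _ _ (Commute.smul_right (Commute.one_right _) _), h2,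
    Matrix.mul_smul, mul_one, Matrix.mul_smul, trace_smul, smul_eq_mul]

/-- The trace of the exponential of a symmetric matrix is nonnegative. -/
theorem trace_exp_nonneg {A : Matrix κ κ ℝ} (hA : A.IsSymm) : 0 ≤ trace (NormedSpace.exp A) := by
  rw [trace]
  refine Finset.sum_nonneg fun i _ => ?_
  exact (Real.exp_pos _).le.trans (exp_diag_entry_le hA i)

end General

section Levels

variable {ι : Type*} [Fintype ι] [DecidableEq ι]

theorem incl_intertwine (k : ℕ) (σ : Equiv.Perm ι) :
    incl ι k * permMat _ (levHom ι (k + 1) σ) = permMat _ (levHom ι k σ) * incl ι k := by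
  ext A B
  rw [Matrix.mul_apply, Matrix.mul_apply]
  have e1 : ∑ C, incl ι k A C * permMat _ (levHom ι (k + 1) σ) C B =
      if A.1 ⊆ (levHom ι (k + 1) σ B).1 then 1 else 0 := by
    rw [Finset.sum_eq_single (levHom ι (k + 1) σ B)]
    · simp [permMat_apply, incl]
    · intro C _ hC
      rw [permMat_apply, if_neg hC, mul_zero]
    · intro h; exact absurd (Finset.mem_univ _) h
  have h1 : A = levHom ι k σ ((levHom ι k σ)⁻¹ A) := by
    rw [← Equiv.Perm.mul_apply, mul_inv_cancel, Equiv.Perm.one_apply]
  have e2 : ∑ C, permMat _ (levHom ι k σ) A C * incl ι k C B =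
      if ((levHom ι k σ)⁻¹ A).1 ⊆ B.1 then 1 else 0 := by
    rw [Finset.sum_eq_single ((levHom ι k σ)⁻¹ A)]
    · rw [permMat_apply, if_pos h1, one_mul]
      simp [incl]
    · intro C _ hC
      have : ¬ A = levHom ι k σ C := by
        intro h
        refine hC ?_
        rw [h, ← Equiv.Perm.mul_apply, inv_mul_cancel, Equiv.Perm.one_apply]
      rw [permMat_apply, if_neg this, zero_mul]
    · intro h; exact absurd (Finset.mem_univ _) h
  rw [e1, e2]
  have h2 : A.1 ⊆ (levHom ι (k + 1) σ B).1 ↔ ((levHom ι k σ)⁻¹ A).1 ⊆ B.1 := by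
    conv_lhs => rw [h1]
    rw [levHom_coe, levHom_coe, Finset.map_subset_map]
  simp only [h2]

/-- The generator with rates `c` on level `k`. -/
noncomputable def gen (ι : Type*) [Fintype ι] [DecidableEq ι] (c : ι × ι → ℝ) (k : ℕ) :
    Matrix (Lev ι k) (Lev ι k) ℝ :=
  ∑ p : ι × ι, c p • (permMat _ (levHom ι k (Equiv.swap p.1 p.2)) - 1)

theorem incl_gen (c : ι × ι → ℝ) (k : ℕ) :
    incl ι k * gen ι c (k + 1) = gen ι c k * incl ι k := by
  unfold gen
  rw [Matrix.mul_sum, Matrix.sum_mul]
  refine Finset.sum_congr rfl fun p _ => ?_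
  rw [Matrix.mul_smul, Matrix.smul_mul, Matrix.mul_sub, Matrix.sub_mul, incl_intertwine,
    Matrix.mul_one, Matrix.one_mul]

theorem isSymm_levGen (c : ι × ι → ℝ) (k : ℕ) : (gen ι c k).IsSymm := by
  unfold gen
  rw [Matrix.IsSymm, Matrix.transpose_sum]
  refine Finset.sum_congr rfl fun p _ => ?_
  rw [Matrix.transpose_smul, Matrix.transpose_sub, Matrix.transpose_one]
  have h : (permMat _ (levHom ι k (Equiv.swap p.1 p.2))).IsSymm := by
    refine permMat_swap_isSymm_of_involutive ?_
    rw [← map_mul, Equiv.swap_mul_self, map_one]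
  rw [h.eq]

theorem gen_add (c c' : ι × ι → ℝ) (k : ℕ) :
    gen ι (fun p => c p + c' p) k = gen ι c k + gen ι c' k := by
  unfold gen
  rw [← Finset.sum_add_distrib]
  exact Finset.sum_congr rfl fun p _ => add_smul _ _ _

theorem gen_const (r : ℝ) (k : ℕ) : gen ι (fun _ => r) k = r • kgen ι k := by
  unfold gen kgen
  rw [Finset.smul_sum]

theorem kgen_comm_perm (k : ℕ) (σ : Equiv.Perm ι) :
    permMat _ (levHom ι k σ) * kgen ι k = kgen ι k * permMat _ (levHom ι k σ) := by
  unfold kgen
  rw [Matrix.mul_sum, Matrix.sum_mul]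
  refine Finset.sum_equiv (σ.prodCongr σ) (by simp) fun p _ => ?_
  rw [Matrix.mul_sub, Matrix.sub_mul, ← map_mul, ← map_mul, ← map_mul, ← map_mul]
  simp only [Equiv.prodCongr_apply, Prod.map_fst, Prod.map_snd]
  rw [Equiv.mul_swap_eq_swap_mul]
  simp

theorem kgen_comm_gen (c : ι × ι → ℝ) (k : ℕ) : Commute (gen ι c k) (kgen ι k) := by
  unfold gen
  rw [Commute, SemiconjBy, Matrix.sum_mul, Matrix.mul_sum]
  refine Finset.sum_congr rfl fun p _ => ?_
  rw [Matrix.smul_mul, Matrix.mul_smul, Matrix.sub_mul, Matrix.mul_sub, kgen_comm_perm,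
    Matrix.one_mul, Matrix.mul_one]

/-- Trace on level `k` of the heat kernel with rates `c`. -/
noncomputable def lTrace (ι : Type*) [Fintype ι] [DecidableEq ι] (c : ι × ι → ℝ) (k : ℕ) : ℝ :=
  trace (NormedSpace.exp (gen ι c k))

theorem lTrace_add_const (c : ι × ι → ℝ) (r : ℝ) (k : ℕ) :
    lTrace ι (fun p => c p + r) k =
      trace (NormedSpace.exp (gen ι c k) * NormedSpace.exp (r • kgen ι k)) := by
  have h := gen_add c (fun _ => r) k
  rw [lTrace, h, gen_const, Matrix.exp_add_of_commute _ _ ((kgen_comm_gen c k).smul_right r)]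

theorem lTrace_succ (c : ι × ι → ℝ) (r : ℝ) (k : ℕ) :
    lTrace ι (fun p => c p + r) (k + 1) - lTrace ι (fun p => c p + r) k =
      Real.exp (-(2 * r * ((k : ℝ) + 1) * ((Fintype.card ι : ℝ) - k))) *
        (lTrace ι c (k + 1) - lTrace ι c k) := by
  rw [lTrace_add_const, lTrace_add_const]
  have h1 : trace (NormedSpace.exp (gen ι c (k + 1)) * NormedSpace.exp (r • kgen ι (k + 1))) =
      Real.exp (-(2 * r * ((k : ℝ) + 1) * ((Fintype.card ι : ℝ) - k))) *
        trace (NormedSpace.exp (gen ι c (k + 1)) *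
          NormedSpace.exp (((2 * r) • (incl ι k)ᵀ) * incl ι k)) := by
    rw [← trace_mul_exp_add_smul_one, kgen_succ]
    congr 3
    rw [smul_add, smul_smul, smul_smul, Matrix.smul_mul]
    congr 2 <;> ring
  have h2 : trace (NormedSpace.exp (gen ι c k) * NormedSpace.exp (r • kgen ι k)) =
      Real.exp (-(2 * r * ((k : ℝ) + 1) * ((Fintype.card ι : ℝ) - k))) *
        trace (NormedSpace.exp (gen ι c k) *
          NormedSpace.exp (incl ι k * ((2 * r) • (incl ι k)ᵀ))) := by
    rw [← trace_mul_exp_add_smul_one, kgen_pred]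
    congr 3
    rw [smul_add, smul_smul, smul_smul, Matrix.mul_smul]
    congr 2 <;> ring
  have h3 := trace_mul_exp_comm ((2 * r) • (incl ι k)ᵀ) (exp_intertwine (incl_gen c k))
  rw [h1, h2, ← mul_sub, lTrace, lTrace]
  congr 1
  linarith

theorem lTrace_zero (c : ι × ι → ℝ) : lTrace ι c 0 = 1 := by
  have h : gen ι c 0 = 0 := by
    unfold gen
    refine Finset.sum_eq_zero fun p _ => ?_
    have : levHom ι 0 (Equiv.swap p.1 p.2) = 1 := by
      ext A : 1
      refine Subtype.ext ?_
      rw [levHom_coe]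
      have hA : A.1 = ∅ := Finset.card_eq_zero.mp A.2
      rw [hA]; simp [hA]
    rw [this, map_one, sub_self, smul_zero]
  rw [lTrace, h, NormedSpace.exp_zero, trace_one, card_lev]
  simp

theorem lTrace_nonneg (c : ι × ι → ℝ) (k : ℕ) : 0 ≤ lTrace ι c k :=
  trace_exp_nonneg (isSymm_levGen c k)

end Levels

end Pool.Agent.Stirring
end

section

/-! A transposition merges two cycles or splits one. -/

open Finset

set_option linter.unusedSectionVars false

namespace Pool.Agent.Stirring

variable {V : Type*} [Fintype V] [DecidableEq V]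

/-- Invariant sets. -/
def invs (σ : Equiv.Perm V) : Finset (Finset V) :=
  Finset.univ.filter fun A : Finset V => A.map σ.toEmbedding = A

/-- Invariant sets not separating `x` and `y`. -/
def invsJ (σ : Equiv.Perm V) (x y : V) : Finset (Finset V) :=
  (invs σ).filter fun A => (x ∈ A ↔ y ∈ A)

theorem card_invs (σ : Equiv.Perm V) : (invs σ).card = 2 ^ numCycles σ := by
  have h := fixSets_eq_two_pow σ
  unfold fixSets at h
  exact_mod_cast h

theorem mul_toEmbedding_map (σ τ : Equiv.Perm V) (A : Finset V) :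
    A.map (σ * τ).toEmbedding = (A.map τ.toEmbedding).map σ.toEmbedding := by
  rw [Finset.map_map]; rfl

theorem map_swap_swap (x y : V) (A : Finset V) :
    (A.map (Equiv.swap x y).toEmbedding).map (Equiv.swap x y).toEmbedding = A := by
  rw [← mul_toEmbedding_map, Equiv.swap_mul_self]
  exact Finset.map_refl

theorem invsJ_swap (σ : Equiv.Perm V) (x y : V) : invsJ (Equiv.swap x y * σ) x y = invsJ σ x y := by
  ext A
  simp only [invsJ, invs, Finset.mem_filter, Finset.mem_univ, true_and]
  constructor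
  · rintro ⟨h1, h2⟩
    refine ⟨?_, h2⟩
    rw [mul_toEmbedding_map] at h1
    have h3 := congrArg (fun B : Finset V => B.map (Equiv.swap x y).toEmbedding) h1
    simp only [map_swap_swap] at h3
    rw [h3, map_swap_of_iff h2]
  · rintro ⟨h1, h2⟩
    refine ⟨?_, h2⟩
    rw [mul_toEmbedding_map, h1, map_swap_of_iff h2]

theorem card_invsJ_same {σ : Equiv.Perm V} {x y : V} (h : σ.SameCycle x y) :
    (invsJ σ x y).card = (invs σ).card := by
  unfold invsJ
  rw [Finset.filter_true_of_mem]
  intro A hA
  exact mem_iff_of_sameCycle (Finset.mem_filter.mp hA).2 h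

theorem symmDiff_mem_invs {σ : Equiv.Perm V} {A B : Finset V} (hA : A ∈ invs σ) (hB : B ∈ invs σ) :
    symmDiff A B ∈ invs σ := by
  have hA' := (Finset.mem_filter.mp hA).2
  have hB' := (Finset.mem_filter.mp hB).2
  refine Finset.mem_filter.mpr ⟨Finset.mem_univ _, ?_⟩
  rw [map_eq_iff_forall] at *
  intro u v huv
  rw [Finset.mem_symmDiff, Finset.mem_symmDiff, hA' u v huv, hB' u v huv]

theorem card_invsJ_diff {σ : Equiv.Perm V} {x y : V} (h : ¬ σ.SameCycle x y) :
    2 * (invsJ σ x y).card = (invs σ).card := by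
  have hC : cyc σ y ∈ invs σ := by
    refine Finset.mem_filter.mpr ⟨Finset.mem_univ _, ?_⟩
    rw [map_eq_iff_forall]
    intro u v huv
    rw [mem_cyc, mem_cyc]
    exact ⟨fun h1 => h1.trans huv, fun h1 => h1.trans huv.symm⟩
  have hx : x ∉ cyc σ y := fun h1 => h (mem_cyc.mp h1).symm
  have hy : y ∈ cyc σ y := self_mem_cyc σ y
  have h1 := Finset.card_filter_add_card_filter_not (s := invs σ) (fun A => (x ∈ A ↔ y ∈ A))
  have h2 : ((invs σ).filter fun A => ¬ (x ∈ A ↔ y ∈ A)).card =
      ((invs σ).filter fun A => (x ∈ A ↔ y ∈ A)).card := by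
    refine Finset.card_bij' (fun A _ => symmDiff A (cyc σ y)) (fun A _ => symmDiff A (cyc σ y))
      ?_ ?_ ?_ ?_
    · intro A hA
      rw [Finset.mem_filter] at *
      refine ⟨symmDiff_mem_invs hA.1 hC, ?_⟩
      rw [Finset.mem_symmDiff, Finset.mem_symmDiff]
      have := hA.2
      tauto
    · intro A hA
      rw [Finset.mem_filter] at *
      refine ⟨symmDiff_mem_invs hA.1 hC, ?_⟩
      rw [Finset.mem_symmDiff, Finset.mem_symmDiff]
      have := hA.2
      tauto
    · intro A _; exact symmDiff_symmDiff_cancel_right _ _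
    · intro A _; exact symmDiff_symmDiff_cancel_right _ _
  unfold invsJ
  omega

theorem neg_one_pow_numCycles (σ : Equiv.Perm V) :
    (-1 : ℤˣ) ^ numCycles σ = (-1) ^ Fintype.card V * Equiv.Perm.sign σ := by
  rw [Equiv.Perm.sign_of_cycleType, Equiv.Perm.sum_cycleType, ← pow_add]
  have h := numCycles_add_card_support σ
  have h2 : Fintype.card V + (σ.support.card + Multiset.card σ.cycleType) =
      numCycles σ + 2 * σ.support.card := by omega
  rw [h2, pow_add, pow_mul]
  simp

theorem numCycles_swap_ne {x y : V} (hxy : x ≠ y) (σ : Equiv.Perm V) :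
    numCycles (Equiv.swap x y * σ) ≠ numCycles σ := by
  intro h
  have h1 := neg_one_pow_numCycles (Equiv.swap x y * σ)
  have h2 := neg_one_pow_numCycles σ
  rw [h, h2, Equiv.Perm.sign_mul, Equiv.Perm.sign_swap hxy] at h1
  have h3 := mul_left_cancel h1
  have h4 : (-1 : ℤˣ) = 1 := by
    have := mul_right_cancel ((one_mul (Equiv.Perm.sign σ)).trans h3)
    exact this.symm
  exact absurd h4 (by decide)

theorem numCycles_swap_same {x y : V} (hxy : x ≠ y) {σ : Equiv.Perm V} (h : σ.SameCycle x y) :
    numCycles (Equiv.swap x y * σ) = numCycles σ + 1 := by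
  have h1 := card_invsJ_same h
  have hne := numCycles_swap_ne hxy σ
  have hJ := invsJ_swap σ x y
  by_cases h' : (Equiv.swap x y * σ).SameCycle x y
  · have h2 := card_invsJ_same h'
    rw [hJ, h1, card_invs, card_invs] at h2
    exact absurd (Nat.pow_right_injective (le_refl 2) h2).symm hne
  · have h2 := card_invsJ_diff h'
    rw [hJ, h1, card_invs, card_invs, ← pow_succ'] at h2
    exact (Nat.pow_right_injective (le_refl 2) h2).symm

theorem numCycles_swap_diff {x y : V} (hxy : x ≠ y) {σ : Equiv.Perm V} (h : ¬ σ.SameCycle x y) :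
    numCycles (Equiv.swap x y * σ) + 1 = numCycles σ := by
  have h1 := card_invsJ_diff h
  have hne := numCycles_swap_ne hxy σ
  have hJ := invsJ_swap σ x y
  by_cases h' : (Equiv.swap x y * σ).SameCycle x y
  · have h2 := card_invsJ_same h'
    rw [hJ] at h2
    rw [h2, card_invs, card_invs, ← pow_succ'] at h1
    exact Nat.pow_right_injective (le_refl 2) h1
  · have h2 := card_invsJ_diff h'
    rw [hJ, h1, card_invs, card_invs] at h2
    exact absurd (Nat.pow_right_injective (le_refl 2) h2).symm hne

theorem numCycles_swap_sub {x y : V} (hxy : x ≠ y) (σ : Equiv.Perm V) :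
    (numCycles (Equiv.swap x y * σ) : ℝ) - numCycles σ =
      2 * (if σ.SameCycle x y then 1 else 0) - 1 := by
  by_cases h : σ.SameCycle x y
  · rw [numCycles_swap_same hxy h, if_pos h]; push_cast; ring
  · rw [← numCycles_swap_diff hxy h, if_neg h]; push_cast; ring

end Pool.Agent.Stirring
end
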