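import Pool.Agent.Lib.MP_6c3d62_pr.Mg.G035
import Pool.Agent.Lib.MP_6c3d62_pr.PL.Av

section

/-! The heat kernel of the torus `(ℤ/L)^d`. -/

open Finset

set_option linter.unusedSectionVars false

namespace Pool.Agent.Stirring.QK

variable {d L : ℕ} [NeZero L]

/-- The rates of the torus: every edge `{x, x + e_i}` has rate `1`. -/
noncomputable def tr (d L : ℕ) [NeZero L] :
    (Fin d → ZMod L) × (Fin d → ZMod L) → ℝ :=
  fun p => ∑ i : Fin d, if p.2 = p.1 + Pi.single i 1 then 1 else 0

theorem tr_eq (d L : ℕ) [NeZero L] :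
    tr d L = trG (fun i : Fin d => (Pi.single i 1 : Fin d → ZMod L)) := rfl

theorem tr_nonneg (p : (Fin d → ZMod L) × (Fin d → ZMod L)) : 0 ≤ tr d L p := trG_nonneg _ p

theorem single_ne (hL : 2 ≤ L) (i : Fin d) : (Pi.single i 1 : Fin d → ZMod L) ≠ 0 := by
  intro h
  have h1 := congrFun h i
  rw [Pi.single_eq_same] at h1
  exact one_ne hL h1

theorem stepT_tr (f : Equiv.Perm (Fin d → ZMod L) → ℝ) (σ : Equiv.Perm (Fin d → ZMod L)) :
    Hier.stepT (tr d L) f σ = ∑ e : (Fin d → ZMod L) × Fin d, f (σ * edgeSwap d L e) := by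
  rw [Hier.stepT_apply, tr_eq, sum_trG _ (fun a b => f (σ * Equiv.swap a b)),
    Fintype.sum_prod_type, Finset.sum_comm]
  rfl

theorem tot_tr : Hier.tot (tr d L) = d * (L : ℝ) ^ d := by
  have h := sum_trG (fun i : Fin d => (Pi.single i 1 : Fin d → ZMod L)) (fun _ _ => (1 : ℝ))
  simp only [mul_one] at h
  have h2 : Hier.tot (tr d L) = ∑ p : (Fin d → ZMod L) × (Fin d → ZMod L),
    trG (fun i : Fin d => (Pi.single i 1 : Fin d → ZMod L)) p := rfl
  rw [h2, h]
  simp [Finset.card_univ, ZMod.card]

theorem stepT_pow_tr (f : Equiv.Perm (Fin d → ZMod L) → ℝ) (n : ℕ)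
    (σ : Equiv.Perm (Fin d → ZMod L)) : (Hier.stepT (tr d L) ^ n) f σ =
      wordSum (fun _ => 1) (fun l => f (σ * (l.map (edgeSwap d L)).prod)) n := by
  induction n generalizing σ with
  | zero => simp [wordSum_zero]
  | succ n ih =>
    rw [pow_succ']
    show Hier.stepT (tr d L) ((Hier.stepT (tr d L) ^ n) f) σ = _
    rw [stepT_tr, wordSum_succ]
    refine Finset.sum_congr rfl fun e _ => ?_
    rw [ih, one_mul]
    simp only [List.map_cons, List.prod_cons, mul_assoc]

theorem expect_eq (t : ℝ) (f : Equiv.Perm (Fin d → ZMod L) → ℝ) :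
    expect d L t f = Hier.sg (tr d L) t f 1 := by
  rw [← (Hier.sg_hasSum (tr d L) t f 1).tsum_eq]
  unfold expect
  refine tsum_congr fun n => ?_
  rw [stepT_pow_tr, tot_tr]
  unfold wordSum
  simp only [Finset.prod_const_one, one_mul]
  have h1 : (d : ℝ) * (L : ℝ) ^ d * t = t * (d * (L : ℝ) ^ d) := by ring
  rw [h1]
  ring

/-- The heat kernel of the torus. -/
noncomputable def hk (d L : ℕ) [NeZero L] (s : ℝ) (x y : Fin d → ZMod L) : ℝ :=
  heat (tr d L) s (Pi.single y 1) x

theorem hk_eq (s : ℝ) (x y : Fin d → ZMod L) :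
    hk d L s x y = hkG (fun i : Fin d => (Pi.single i 1 : Fin d → ZMod L)) s x y := rfl

/-- The distance from the origin in the sup norm. -/
def nrm {d L : ℕ} (x : Fin d → ZMod L) : ℕ := Finset.univ.sup fun i => (x i).valMinAbs.natAbs

theorem lap_tr (hL : 2 ≤ L) (G : (Fin d → ZMod L) → ℝ) (x : Fin d → ZMod L) :
    lap (tr d L) G x = ∑ i, (G (x + Pi.single i 1) + G (x - Pi.single i 1) - 2 * G x) :=
  lap_trG (single_ne hL) G x

theorem hk_translate (s : ℝ) (x y a : Fin d → ZMod L) :
    hk d L s (x + a) (y + a) = hk d L s x y := by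
  by_cases hL : 2 ≤ L
  · exact hkG_translate (single_ne hL) s x y a
  · have h0 : L ≠ 0 := NeZero.ne L
    have h1 : L = 1 := by omega
    subst h1
    have h2 : x + a = x := funext fun _ => Subsingleton.elim _ _
    have h3 : y + a = y := funext fun _ => Subsingleton.elim _ _
    rw [h2, h3]

theorem hk_symm (s : ℝ) (x y : Fin d → ZMod L) : hk d L s x y = hk d L s y x := hkG_symm _ s x y

theorem hk_sum (s : ℝ) (x : Fin d → ZMod L) : ∑ y, hk d L s x y = 1 := hkG_sum _ s x

theorem hk_nonneg {s : ℝ} (hs : 0 ≤ s) (x y : Fin d → ZMod L) : 0 ≤ hk d L s x y :=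
  hkG_nonneg _ hs x y

theorem heat_eq_sum (s : ℝ) (G : (Fin d → ZMod L) → ℝ) (x : Fin d → ZMod L) :
    heat (tr d L) s G x = ∑ y, hk d L s x y * G y := hkG_eq_sum _ s G x

theorem hk_add (s u : ℝ) (x y : Fin d → ZMod L) :
    hk d L (s + u) x y = ∑ z, hk d L s x z * hk d L u z y := hkG_add _ s u x y

/-- H2 -/
theorem heat_grad (hL : 2 ≤ L) {s : ℝ} (hs : 0 < s) {G : (Fin d → ZMod L) → ℝ} {M : ℝ}
    (hG : ∀ x, |G x| ≤ M) (x : Fin d → ZMod L) (i : Fin d) :
    |heat (tr d L) s G (x + Pi.single i 1) - heat (tr d L) s G x| ≤ M / Real.sqrt s :=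
  heat_gradG (single_ne hL) hs hG x i

theorem hk_grad (hL : 2 ≤ L) {s : ℝ} (hs : 0 < s) (x : Fin d → ZMod L) (i : Fin d) :
    ∑ y, |hk d L s x (y + Pi.single i 1) - hk d L s x y| ≤ 1 / Real.sqrt s :=
  hkG_grad (single_ne hL) hs x i

/-- The kernel is a product. -/
theorem hk_prod (hL : 2 ≤ L) (s : ℝ) (x y : Fin d → ZMod L) :
    hk d L s x y = ∏ i, h1 L s (x i) (y i) := by
  have he : ∀ i : Unit, (fun _ : Unit => (1 : ZMod L)) i ≠ 0 := fun _ => one_ne hL
  set U : ℝ → (Fin d → ZMod L) → ℝ := fun s x => ∏ i, h1 L s (x i) (y i) with hU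
  have hd : ∀ r z, HasDerivAt (fun r => U r z)
      (lap (trG (fun i : Fin d => (Pi.single i 1 : Fin d → ZMod L))) (U r) z) r := by
    intro r z
    have h2 : ∀ i ∈ (Finset.univ : Finset (Fin d)), HasDerivAt (fun r => h1 L r (z i) (y i))
        (h1 L r (z i + 1) (y i) + h1 L r (z i - 1) (y i) - 2 * h1 L r (z i) (y i)) r := by
      intro i _
      have h3 := heat_hasDerivAt (trG (fun _ : Unit => (1 : ZMod L))) (Pi.single (y i) 1) r (z i)
      rw [lap_trG he] at h3
      simp only [Finset.univ_unique, Finset.sum_singleton] at h3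
      exact h3
    have h4 := HasDerivAt.fun_finsetProd h2
    refine h4.congr_deriv ?_
    rw [lap_trG (single_ne hL)]
    refine Finset.sum_congr rfl fun i _ => ?_
    have h5 : ∀ w : ZMod L, U r (z + Pi.single i w) =
        (∏ j ∈ Finset.univ.erase i, h1 L r (z j) (y j)) * h1 L r (z i + w) (y i) := by
      intro w
      simp only [hU]
      rw [← Finset.prod_erase_mul _ _ (Finset.mem_univ i)]
      congr 1
      · refine Finset.prod_congr rfl fun j hj => ?_
        rw [Pi.add_apply, Pi.single_eq_of_ne (Finset.ne_of_mem_erase hj), add_zero]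
      · rw [Pi.add_apply, Pi.single_eq_same]
    have h6 : z - Pi.single i 1 = z + Pi.single i (-1) := by
      rw [Pi.single_neg, sub_eq_add_neg]
    have h7 : U r z = (∏ j ∈ Finset.univ.erase i, h1 L r (z j) (y j)) * h1 L r (z i) (y i) := by
      simp only [hU]
      rw [← Finset.prod_erase_mul _ _ (Finset.mem_univ i)]
    rw [h6, h5, h5, h7, smul_eq_mul, ← sub_eq_add_neg]
    ring
  have h8 := heat_unique (fun i : Fin d => (Pi.single i 1 : Fin d → ZMod L)) U hd s x
  have h9 : U 0 = Pi.single y 1 := by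
    funext z
    simp only [hU, h1, hkG, heat_zero, Pi.single_apply]
    rw [Finset.prod_ite_zero]
    simp [funext_iff]
  rw [h9] at h8
  exact h8.symm

/-- H1 -/
theorem hk_le (hL : 2 ≤ L) {s : ℝ} (hs : 0 < s) (x y : Fin d → ZMod L) :
    hk d L s x y ≤ (1 / Real.sqrt s + 1 / L) ^ d := by
  rw [hk_prod hL]
  have h2 : ∏ i, h1 L s (x i) (y i) ≤ ∏ _i : Fin d, (1 / Real.sqrt s + 1 / (L : ℝ)) :=
    Finset.prod_le_prod (fun i _ => hkG_nonneg _ hs.le _ _) fun i _ => h1_le hL hs _ _
  refine h2.trans (le_of_eq ?_)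
  rw [Finset.prod_const, Finset.card_univ, Fintype.card_fin]

/-- The second difference of a function of one coordinate. -/
theorem lap_coord (hL : 2 ≤ L) (j : Fin d) (g : ZMod L → ℝ) (x z : Fin d → ZMod L) :
    lap (tr d L) (fun y => g (y j - x j)) z =
      g (z j - x j + 1) + g (z j - x j - 1) - 2 * g (z j - x j) := by
  rw [lap_tr hL, Finset.sum_eq_single j]
  · rw [Pi.add_apply, Pi.sub_apply, Pi.single_eq_same]
    have h2 : z j + 1 - x j = z j - x j + 1 := by ring
    have h3 : z j - 1 - x j = z j - x j - 1 := by ring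
    rw [h2, h3]
  · intro i _ hij
    rw [Pi.add_apply, Pi.sub_apply, Pi.single_eq_of_ne (Ne.symm hij)]
    rw [add_zero, sub_zero]
    ring
  · intro h; exact absurd (Finset.mem_univ _) h

/-- Second moment of a coordinate. -/
theorem hk_second (hL : 2 ≤ L) {s : ℝ} (hs : 0 ≤ s) (x : Fin d → ZMod L) (j : Fin d) :
    ∑ y, hk d L s x y * ((av (y j - x j) : ℕ) : ℝ) ^ 2 ≤ 2 * s := by
  have h := heat_le_add (e := fun i : Fin d => (Pi.single i 1 : Fin d → ZMod L)) hs
    (F := fun y => ((av (y j - x j) : ℕ) : ℝ) ^ 2) (κ := 2) (fun z => by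
      have h2 := lap_coord hL j (fun k => ((av k : ℕ) : ℝ) ^ 2) x z
      rw [← tr_eq, h2]
      exact av_sq_diff _) x
  rw [← tr_eq, heat_eq_sum] at h
  have h0 : av (L := L) (x j - x j) = 0 := by
    rw [sub_self]
    unfold av
    simp
  rw [h0] at h
  simpa using h

/-- Exponential moment of a coordinate. -/
theorem hk_cosh (hL : 2 ≤ L) {s : ℝ} (hs : 0 ≤ s) (lam : ℝ) (x : Fin d → ZMod L) (j : Fin d) :
    ∑ y, hk d L s x y * Real.cosh (lam * (av (y j - x j) : ℕ)) ≤
      Real.exp (2 * (Real.cosh lam - 1) * s) := by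
  have h := heat_le_mul (e := fun i : Fin d => (Pi.single i 1 : Fin d → ZMod L)) hs
    (F := fun y => Real.cosh (lam * (av (y j - x j) : ℕ))) (κ := 2 * (Real.cosh lam - 1))
    (by have := Real.one_le_cosh lam; linarith) (fun z => by
      have h2 := lap_coord hL j (fun k => Real.cosh (lam * (av k : ℕ))) x z
      rw [← tr_eq, h2]
      exact av_cosh_diff lam _) x
  rw [← tr_eq, heat_eq_sum] at h
  have h0 : av (L := L) (x j - x j) = 0 := by
    rw [sub_self]
    unfold av
    simp
  rw [h0] at h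
  simpa using h

theorem exists_coord {R : ℝ} (hR : 0 < R) {w : Fin d → ZMod L} (h : R ≤ nrm w) :
    ∃ j, R ≤ (av (w j) : ℕ) := by
  by_contra hcon
  push Not at hcon
  have h2 : nrm w < ⌈R⌉₊ := by
    unfold nrm
    rw [Finset.sup_lt_iff (by rw [bot_eq_zero]; exact Nat.ceil_pos.2 hR)]
    intro j _
    exact Nat.lt_ceil.2 (hcon j)
  rw [Nat.lt_ceil] at h2
  exact absurd h (not_le.2 h2)

theorem av_le_nrm (w : Fin d → ZMod L) (j : Fin d) : av (w j) ≤ nrm w :=
  Finset.le_sup (f := fun i => (w i).valMinAbs.natAbs) (Finset.mem_univ j)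

/-- Markov's inequality for the kernel. -/
theorem hk_markov {s : ℝ} (hs : 0 ≤ s) {R : ℝ} (hR : 0 < R) (x : Fin d → ZMod L)
    {g : ZMod L → ℝ} {a b : ℝ} (hg : ∀ k, 0 ≤ g k) (ha : 0 < a)
    (hga : ∀ k : ZMod L, R ≤ (av k : ℕ) → a ≤ g k)
    (hb : ∀ j : Fin d, ∑ y, hk d L s x y * g (y j - x j) ≤ b) :
    ∑ y ∈ Finset.univ.filter (fun y => R ≤ nrm (y - x)), hk d L s x y ≤ d * (b / a) := by
  have h2 : ∑ y ∈ Finset.univ.filter (fun y => R ≤ nrm (y - x)), hk d L s x y ≤
      ∑ y, ∑ j, hk d L s x y * g (y j - x j) / a := by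
    refine (Finset.sum_le_sum fun y hy => ?_).trans
      (Finset.sum_le_univ_sum_of_nonneg fun y => Finset.sum_nonneg fun j _ =>
        div_nonneg (mul_nonneg (hk_nonneg hs x y) (hg _)) ha.le)
    obtain ⟨j, hj⟩ := exists_coord hR (Finset.mem_filter.1 hy).2
    rw [Pi.sub_apply] at hj
    have h3 := hga _ hj
    have h4 : hk d L s x y ≤ hk d L s x y * g (y j - x j) / a := by
      rw [le_div_iff₀ ha]
      exact mul_le_mul_of_nonneg_left h3 (hk_nonneg hs x y)
    exact h4.trans (Finset.single_le_sum (f := fun j => hk d L s x y * g (y j - x j) / a)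
      (fun j _ => div_nonneg (mul_nonneg (hk_nonneg hs x y) (hg _)) ha.le) (Finset.mem_univ j))
  refine h2.trans ?_
  rw [Finset.sum_comm]
  have h3 : ∑ j : Fin d, ∑ y, hk d L s x y * g (y j - x j) / a ≤ ∑ _j : Fin d, b / a := by
    refine Finset.sum_le_sum fun j _ => ?_
    rw [← Finset.sum_div]
    exact div_le_div_of_nonneg_right (hb j) ha.le
  refine h3.trans (le_of_eq ?_)
  rw [Finset.sum_const, Finset.card_univ, Fintype.card_fin, nsmul_eq_mul]

/-- The tail, with a free parameter. -/
theorem hk_tail_lam (hL : 2 ≤ L) {s R lam : ℝ} (hs : 0 ≤ s) (hR : 0 < R) (hl : 0 ≤ lam)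
    (x : Fin d → ZMod L) :
    ∑ y ∈ Finset.univ.filter (fun y => R ≤ nrm (y - x)), hk d L s x y
      ≤ 2 * d * Real.exp (2 * (Real.cosh lam - 1) * s - lam * R) := by
  have h := hk_markov (a := Real.cosh (lam * R)) hs hR x
    (g := fun k => Real.cosh (lam * (av k : ℕ))) (fun k => (Real.cosh_pos _).le)
    (Real.cosh_pos _) (fun k hk => by
      rw [Real.cosh_le_cosh, abs_of_nonneg (mul_nonneg hl hR.le),
        abs_of_nonneg (mul_nonneg hl (Nat.cast_nonneg _))]
      exact mul_le_mul_of_nonneg_left hk hl) (hk_cosh hL hs lam x)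
  refine h.trans ?_
  have h2 : Real.exp (lam * R) / 2 ≤ Real.cosh (lam * R) := by
    rw [Real.cosh_eq]
    have := Real.exp_pos (-(lam * R))
    linarith
  have h3 : Real.exp (2 * (Real.cosh lam - 1) * s) / Real.cosh (lam * R) ≤
      2 * Real.exp (2 * (Real.cosh lam - 1) * s - lam * R) := by
    rw [div_le_iff₀ (Real.cosh_pos _), Real.exp_sub]
    have h4 := Real.exp_pos (lam * R)
    have h5 := Real.exp_pos (2 * (Real.cosh lam - 1) * s)
    calc Real.exp (2 * (Real.cosh lam - 1) * s) =
        2 * (Real.exp (2 * (Real.cosh lam - 1) * s) / Real.exp (lam * R)) *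
          (Real.exp (lam * R) / 2) := by field_simp
      _ ≤ _ := by
        refine mul_le_mul_of_nonneg_left h2 ?_
        positivity
  calc (d : ℝ) * (Real.exp (2 * (Real.cosh lam - 1) * s) / Real.cosh (lam * R)) ≤
      d * (2 * Real.exp (2 * (Real.cosh lam - 1) * s - lam * R)) :=
        mul_le_mul_of_nonneg_left h3 (Nat.cast_nonneg _)
    _ = _ := by ring

theorem cosh_sub_one_le {lam : ℝ} (h0 : 0 ≤ lam) (h1 : lam ≤ 1) : Real.cosh lam - 1 ≤ lam ^ 2 := by
  have h2 := Real.cosh_le_exp_half_sq lam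
  have h3 : Real.exp (lam ^ 2 / 2) ≤ 1 + lam ^ 2 := by
    have h4 := Real.exp_bound_div_one_sub_of_interval' (x := lam ^ 2 / 2)
    have h5 : 0 ≤ lam ^ 2 / 2 := by positivity
    have h6 : lam ^ 2 / 2 ≤ 1 / 2 := by nlinarith
    have h7 := Real.exp_bound_div_one_sub_of_interval h5 (by linarith)
    refine h7.trans ?_
    rw [div_le_iff₀ (by linarith)]
    nlinarith
  linarith

/-- H4 -/
theorem hk_tail (hL : 2 ≤ L) {s R : ℝ} (hs : 0 < s) (hR : 0 < R) (hRs : R ≤ 4 * s)
    (x : Fin d → ZMod L) :
    ∑ y ∈ Finset.univ.filter (fun y => R ≤ nrm (y - x)), hk d L s x y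
      ≤ 2 * d * Real.exp (-(R ^ 2 / (8 * s))) := by
  have hl0 : 0 ≤ R / (4 * s) := by positivity
  have hl1 : R / (4 * s) ≤ 1 := by rw [div_le_one (by positivity)]; exact hRs
  refine (hk_tail_lam hL hs.le hR hl0 x).trans ?_
  have h2 := cosh_sub_one_le hl0 hl1
  refine mul_le_mul_of_nonneg_left (Real.exp_le_exp.2 ?_) (by positivity)
  have h3 : 2 * (Real.cosh (R / (4 * s)) - 1) * s ≤ 2 * (R / (4 * s)) ^ 2 * s := by
    have := mul_le_mul_of_nonneg_right h2 hs.le
    linarith
  have h4 : 2 * (R / (4 * s)) ^ 2 * s - R / (4 * s) * R = -(R ^ 2 / (8 * s)) := by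
    field_simp
    ring
  linarith

end Pool.Agent.Stirring.QK
end

section

/-! T6. The uniform matching at `x`: positivity, linearity, loops, deletion bound. -/

set_option autoImplicit false
set_option linter.unusedSectionVars false

open Finset

namespace Pool.Agent.PL

variable {Y : Type*} [Fintype Y] [DecidableEq Y]

theorem fr_mono {x : Y} {F G : Net Y → ℝ} (h : ∀ b, F b ≤ G b) (m : ℕ) (a : Net Y) :
    fr x F m a ≤ fr x G m a := by
  induction m generalizing a with
  | zero => exact h a
  | succ m ih =>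
    rw [fr, fr]
    exact av_mono fun p q _ _ => ih _

theorem t6_unloop_self {a : Net Y} {x : Y} (h : a x x = 0) : unloop a x = a := by
  funext y z
  unfold unloop
  split_ifs with h1
  · rw [h1.1, h1.2, h]
  · rfl

theorem t6_ind_unloop (a : Net Y) (x : Y) : ind (unloop a x) x = ∑ p ∈ univ.erase x, a p x := by
  unfold ind unloop
  rw [← Finset.add_sum_erase univ _ (mem_univ x)]
  simp only [and_self, if_true, zero_add]
  refine Finset.sum_congr rfl fun p hp => ?_
  rw [if_neg fun h => (Finset.mem_erase.1 hp).1 h.1]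

theorem t6_outd_unloop (a : Net Y) (x : Y) : outd (unloop a x) x = ∑ q ∈ univ.erase x, a x q := by
  unfold outd unloop
  rw [← Finset.add_sum_erase univ _ (mem_univ x)]
  simp only [and_self, if_true, zero_add]
  refine Finset.sum_congr rfl fun p hp => ?_
  rw [if_neg fun h => (Finset.mem_erase.1 hp).1 h.2]

/-- One loop less. -/
def t6_less (a : Net Y) (x : Y) : Net Y := fun y z => if y = x ∧ z = x then a y z - 1 else a y z

theorem t6_step_loop {a : Net Y} {x p q : Y} (h : p = x ∨ q = x) :
    step a x p q = t6_less a x := by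
  funext y z
  unfold step t6_less
  rw [if_pos h]

theorem t6_unloop_less (a : Net Y) (x : Y) : unloop (t6_less a x) x = unloop a x := by
  funext y z
  unfold unloop t6_less
  split_ifs <;> rfl

theorem t6_unloop_step {a : Net Y} {x p q : Y} (hp : p ≠ x) (hq : q ≠ x) :
    unloop (step a x p q) x = step (unloop a x) x p q := by
  funext y z
  unfold unloop step
  have h0 : ¬ (p = x ∨ q = x) := by
    rintro (h | h)
    · exact hp h
    · exact hq h
  simp only [if_neg h0]
  by_cases hy : y = x
  · subst hy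
    by_cases hz : z = y
    · subst hz
      simp [Ne.symm hp, Ne.symm hq]
    · simp [hz]
  · simp [hy]

/-- The average without the loops. -/
theorem t6_av_split {a : Net Y} {x : Y} {m s : ℕ} (hs : a x x = s)
    (hin : ind (unloop a x) x = m) (hout : outd (unloop a x) x = m) (n : ℕ) (hn : n = m + s)
    (G : Y → Y → ℝ) (c : ℝ) (hG : ∀ p q, (p = x ∨ q = x) → G p q = c) :
    av a x n G = (((s : ℝ) ^ 2 + 2 * s * m) * c +
      ∑ p ∈ univ.erase x, ∑ q ∈ univ.erase x, (a p x : ℝ) * (a x q : ℝ) * G p q) / (n : ℝ) ^ 2 := by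
  unfold av
  congr 1
  have h1 : ∑ q ∈ univ.erase x, (a x q : ℝ) = m := by
    rw [t6_outd_unloop] at hout
    exact_mod_cast hout
  have h2 : ∑ p ∈ univ.erase x, (a p x : ℝ) = m := by
    rw [t6_ind_unloop] at hin
    exact_mod_cast hin
  have h3 : ∀ p, ∑ q, (a p x : ℝ) * (a x q : ℝ) * G p q = (a p x : ℝ) * s * c +
      ∑ q ∈ univ.erase x, (a p x : ℝ) * (a x q : ℝ) * G p q := by
    intro p
    rw [← Finset.add_sum_erase univ _ (mem_univ x), hs, hG p x (Or.inr rfl)]
  rw [Finset.sum_congr rfl fun p _ => h3 p, Finset.sum_add_distrib,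
    ← Finset.add_sum_erase univ (fun p => (a p x : ℝ) * s * c) (mem_univ x),
    ← Finset.add_sum_erase univ (fun p => ∑ q ∈ univ.erase x, (a p x : ℝ) * (a x q : ℝ) * G p q)
      (mem_univ x), hs]
  have h4 : ∑ p ∈ univ.erase x, (a p x : ℝ) * s * c = m * s * c := by
    rw [← Finset.sum_mul, ← Finset.sum_mul, h2]
  have h5 : ∑ q ∈ univ.erase x, (s : ℝ) * (a x q : ℝ) * G x q = s * m * c := by
    rw [Finset.sum_congr rfl fun q _ => by rw [hG x q (Or.inl rfl)], ← Finset.sum_mul,
      ← Finset.mul_sum, h1]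
  rw [h4, h5]
  ring

/-- Loops at `x` do not matter. -/
theorem fr_unloop {x : Y} (F : Net Y → ℝ) (m s : ℕ) (a : Net Y) (hs : a x x = s)
    (hin : ind (unloop a x) x = m) (hout : outd (unloop a x) x = m) :
    fr x F (m + s) a = fr x F m (unloop a x) := by
  obtain ⟨n, hn⟩ : ∃ n, n = m + s := ⟨_, rfl⟩
  rw [← hn]
  induction n generalizing m s a with
  | zero =>
    obtain ⟨rfl, rfl⟩ : m = 0 ∧ s = 0 := by omega
    rw [t6_unloop_self hs]
  | succ n ih =>
    rcases Nat.eq_zero_or_pos s with h0 | h0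
    · subst h0
      rw [t6_unloop_self hs, show m = n + 1 by omega]
    · -- there is a loop
      have hless : fr x F n (t6_less a x) = fr x F m (unloop a x) := by
        rw [ih m (s - 1) (t6_less a x) (by unfold t6_less; rw [if_pos ⟨rfl, rfl⟩, hs])
          (by rw [t6_unloop_less]; exact hin) (by rw [t6_unloop_less]; exact hout) (by omega),
          t6_unloop_less]
      have hreal : ∀ p q, p ≠ x → q ≠ x → 1 ≤ a p x → 1 ≤ a x q →
          fr x F n (step a x p q) = fr x F (m - 1) (step (unloop a x) x p q) := by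
        intro p q hp hq h1 h2
        have g1 : 1 ≤ unloop a x p x := by
          unfold unloop
          rw [if_neg fun h => hp h.1]
          exact h1
        have g2 : 1 ≤ unloop a x x q := by
          unfold unloop
          rw [if_neg fun h => hq h.2]
          exact h2
        have hm : 1 ≤ m := by
          rw [← hin]
          unfold ind
          exact g1.trans (Finset.single_le_sum (f := fun z => unloop a x z x)
            (fun _ _ => Nat.zero_le _) (mem_univ p))
        rw [← t6_unloop_step hp hq]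
        refine ih (m - 1) s (step a x p q) ?_ ?_ ?_ (by omega)
        · unfold step
          rw [if_neg (by rintro (h | h); exact hp h; exact hq h), if_neg (fun h => hp h.1.symm),
            if_neg (fun h => hq h.2.symm), if_neg (fun h => hp h.1.symm), hs]
        · rw [t6_unloop_step hp hq, ind_step_self g1 g2, hin]
        · rw [t6_unloop_step hp hq, outd_step_self g1 g2, hout]
      rw [fr, t6_av_split hs hin hout (n + 1) hn (fun p q => fr x F n (step a x p q))
        (fr x F m (unloop a x)) (fun p q h => by rw [t6_step_loop h, hless])]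
      have hsum : ∑ p ∈ univ.erase x, ∑ q ∈ univ.erase x,
          (a p x : ℝ) * (a x q : ℝ) * fr x F n (step a x p q) =
          (m : ℝ) ^ 2 * fr x F m (unloop a x) := by
        have h1 : ∑ p ∈ univ.erase x, ∑ q ∈ univ.erase x,
            (a p x : ℝ) * (a x q : ℝ) * fr x F n (step a x p q) =
            ∑ p ∈ univ.erase x, ∑ q ∈ univ.erase x,
            (a p x : ℝ) * (a x q : ℝ) * fr x F (m - 1) (step (unloop a x) x p q) := by
          refine Finset.sum_congr rfl fun p hp => Finset.sum_congr rfl fun q hq => ?_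
          rcases Nat.eq_zero_or_pos (a p x) with h | h
          · rw [h]; simp
          · rcases Nat.eq_zero_or_pos (a x q) with h' | h'
            · rw [h']; simp
            · rw [hreal p q (Finset.ne_of_mem_erase hp) (Finset.ne_of_mem_erase hq) h h']
        rw [h1]
        rcases Nat.eq_zero_or_pos m with hm | hm
        · subst hm
          have h2 : ∀ p ∈ univ.erase x, a p x = 0 := by
            rw [t6_ind_unloop] at hin
            exact fun p hp => (Finset.sum_eq_zero_iff.1 hin) p hp
          rw [Finset.sum_eq_zero fun p hp => Finset.sum_eq_zero fun q _ => by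
            rw [h2 p hp]; simp]
          simp
        · obtain ⟨k, rfl⟩ : ∃ k, m = k + 1 := ⟨m - 1, by omega⟩
          have hu : unloop a x x x = ((0 : ℕ) : ℕ) := by
            unfold unloop
            rw [if_pos ⟨rfl, rfl⟩]
          have hz := t6_av_split (a := unloop a x) (x := x) (m := k + 1) (s := 0) hu
            (by rw [t6_unloop_self hu]; exact hin) (by rw [t6_unloop_self hu]; exact hout)
            (k + 1) (by omega)
            (fun p q => if p = x ∨ q = x then 0 else fr x F k (step (unloop a x) x p q)) 0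
            (fun p q h => by rw [if_pos h])
          have h3 : fr x F (k + 1) (unloop a x) = av (unloop a x) x (k + 1)
              (fun p q => if p = x ∨ q = x then 0 else fr x F k (step (unloop a x) x p q)) := by
            rw [fr]
            refine av_congr fun p q hp hq => ?_
            rw [if_neg]
            rintro (h | h)
            · rw [h, hu] at hp; omega
            · rw [h, hu] at hq; omega
          have hk : ((k + 1 : ℕ) : ℝ) ^ 2 ≠ 0 := by positivity
          rw [h3, hz, mul_div_cancel₀ _ hk]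
          simp only [Nat.add_sub_cancel, Nat.cast_zero, mul_zero, zero_add]
          refine Finset.sum_congr rfl fun p hp => Finset.sum_congr rfl fun q hq => ?_
          have hp' := Finset.ne_of_mem_erase hp
          have hq' := Finset.ne_of_mem_erase hq
          rw [if_neg (by rintro (h | h); exact hp' h; exact hq' h)]
          unfold unloop
          rw [if_neg fun h => hp' h.1, if_neg fun h => hq' h.2]
      rw [hsum]
      have hne : ((n + 1 : ℕ) : ℝ) ^ 2 ≠ 0 := by positivity
      rw [div_eq_iff hne, hn]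
      push_cast
      ring

/-- Invariant induction for `frs`. `P m a`: the network `a` with `m` strands at `x` is reachable. -/
theorem frs_mono {x : Y} {B : Net Y → Prop} [DecidablePred B] {F G : ℕ → Net Y → ℝ} {m0 : ℕ}
    (P : ℕ → Net Y → Prop)
    (hP : ∀ m a p q, m0 ≤ m → P (m + 1) a → ¬ B a → 1 ≤ a p x → 1 ≤ a x q → P m (step a x p q))
    (h : ∀ m a, P m a → (m ≤ m0 ∨ B a) → F m a ≤ G m a) (m : ℕ) (a : Net Y) (ha : P m a) :
    frs x B F m0 m a ≤ frs x B G m0 m a := by
  induction m generalizing a with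
  | zero => exact h 0 a ha (Or.inl (Nat.zero_le _))
  | succ m ih =>
    rw [frs, frs]
    split_ifs with hc
    · exact h _ _ ha hc
    · rw [not_or] at hc
      exact av_mono fun p q hp hq => ih _ (hP m a p q (by omega) ha hc.2 hp hq)

theorem frs_add {x : Y} {B : Net Y → Prop} [DecidablePred B] (F G : ℕ → Net Y → ℝ) (m0 m : ℕ)
    (a : Net Y) : frs x B (fun k b => F k b + G k b) m0 m a
      = frs x B F m0 m a + frs x B G m0 m a := by
  induction m generalizing a with
  | zero => rfl
  | succ m ih =>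
    rw [frs, frs, frs]
    split_ifs with hc
    · rfl
    · rw [← av_add]
      exact av_congr fun p q _ _ => ih _

theorem frs_mul {x : Y} {B : Net Y → Prop} [DecidablePred B] (c : ℝ) (F : ℕ → Net Y → ℝ)
    (m0 m : ℕ) (a : Net Y) : frs x B (fun k b => c * F k b) m0 m a = c * frs x B F m0 m a := by
  induction m generalizing a with
  | zero => rfl
  | succ m ih =>
    rw [frs, frs]
    split_ifs with hc
    · rfl
    · rw [← av_mul]
      exact av_congr fun p q _ _ => ih _

theorem t6_frs_zero {x : Y} {B : Net Y → Prop} [DecidablePred B] (m0 m : ℕ) (a : Net Y) :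
    frs x B (fun _ _ => 0) m0 m a = 0 := by
  have := frs_mul (x := x) (B := B) 0 (fun _ _ => 0) m0 m a
  simpa using this

theorem frs_sum {ι : Type*} {x : Y} {B : Net Y → Prop} [DecidablePred B] (s : Finset ι)
    (F : ι → ℕ → Net Y → ℝ) (m0 m : ℕ)
    (a : Net Y) : frs x B (fun k b => ∑ i ∈ s, F i k b) m0 m a = ∑ i ∈ s, frs x B (F i) m0 m a := by
  classical
  induction s using Finset.induction_on with
  | empty => simpa using t6_frs_zero m0 m a
  | insert i s hi ih =>
    rw [Finset.sum_insert hi, ← ih, ← frs_add]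
    congr 1
    funext k b
    rw [Finset.sum_insert hi]

/-- Supersolutions: if `V` dominates `F` where one stops and `av V_m (step) ≤ V_{m+1}` where one
goes on, then `frs F ≤ V`. -/
theorem frs_le {x : Y} {B : Net Y → Prop} [DecidablePred B] {F V : ℕ → Net Y → ℝ} {m0 : ℕ}
    (P : ℕ → Net Y → Prop)
    (hP : ∀ m a p q, m0 ≤ m → P (m + 1) a → ¬ B a → 1 ≤ a p x → 1 ≤ a x q → P m (step a x p q))
    (h0 : ∀ m a, P m a → (m ≤ m0 ∨ B a) → F m a ≤ V m a)
    (h1 : ∀ m a, P (m + 1) a → m0 < m + 1 → ¬ B a →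
      av a x (m + 1) (fun p q => V m (step a x p q)) ≤ V (m + 1) a) (m : ℕ) (a : Net Y)
    (ha : P m a) : frs x B F m0 m a ≤ V m a := by
  induction m generalizing a with
  | zero => exact h0 0 a ha (Or.inl (Nat.zero_le _))
  | succ m ih =>
    rw [frs]
    split_ifs with hc
    · exact h0 _ _ ha hc
    · rw [not_or] at hc
      refine le_trans ?_ (h1 m a ha (by omega) hc.2)
      exact av_mono fun p q hp hq => ih _ (hP m a p q (by omega) ha hc.2 hp hq)

theorem t6_fr_le_del {x : Y} {F : Net Y → ℝ}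
    (hF : ∀ b b' : Net Y, (∀ u v, b u v ≤ b' u v) → F b' ≤ F b) (m : ℕ) (a : Net Y)
    (hx : a x x = 0) (hin : ind a x = m) (hout : outd a x = m) : fr x F m a ≤ F (del a x) := by
  induction m generalizing a with
  | zero =>
    rw [fr]
    refine hF _ _ fun u v => ?_
    unfold del
    split_ifs
    · exact Nat.zero_le _
    · exact le_refl _
  | succ m ih =>
    rw [fr]
    refine le_trans ?_ (le_of_eq (av_const (by omega : 1 ≤ m + 1) hin hout (F (del a x))))
    refine av_mono fun p q hp hq => ?_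
    refine (ih _ (step_loop hx hp hq) (by rw [ind_step_self hp hq, hin]; rfl)
      (by rw [outd_step_self hp hq, hout]; rfl)).trans ?_
    exact hF _ _ fun u v => del_step_le hp hq u v

/-- The frozen network dominates the deleted one, at every stopping time. -/
theorem fr_le_frs_del {x : Y} {B : Net Y → Prop} [DecidablePred B] {F : Net Y → ℝ}
    (hF : ∀ b b' : Net Y, (∀ u v, b u v ≤ b' u v) → F b' ≤ F b) (m0 m : ℕ) (a : Net Y)
    (hx : a x x = 0) (hin : ind a x = m) (hout : outd a x = m) :
    fr x F m a ≤ frs x B (fun _ b => F (del b x)) m0 m a := by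
  induction m generalizing a with
  | zero => exact t6_fr_le_del hF 0 a hx hin hout
  | succ m ih =>
    rw [frs]
    split_ifs with hc
    · exact t6_fr_le_del hF (m + 1) a hx hin hout
    · rw [fr]
      exact av_mono fun p q hp hq => ih _ (step_loop hx hp hq)
        (by rw [ind_step_self hp hq, hin]; rfl) (by rw [outd_step_self hp hq, hout]; rfl)

end Pool.Agent.PL
end
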