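import Pool.Agent.Lib.MP_6c3d62_pr.Mg.G034
import Pool.Agent.Lib.MP_6c3d62_pr.Mg.G052

section

/-! Total variation cost of a permutation of a cube for the stirring permutation of the torus. -/

open Finset Equiv

set_option linter.unusedSectionVars false

namespace Pool.Agent.Stirring.TC

open Hier HC QK

section Gen

variable {V : Type*} [Fintype V] [DecidableEq V]

/-- Expectations change by at most twice the cost. -/
theorem sg_move_le {c : V × V → ℝ} (s : ℝ) {g : Perm V} {F : Perm V → ℝ}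
    (hF : ∀ σ, |F σ| ≤ 1) {e : ℝ} (he : tv (lw c s) (rm g (lw c s)) ≤ e) :
    |sg c s (fun σ => F (σ * g⁻¹)) 1 - sg c s F 1| ≤ 2 * e := by
  rw [sg_eq_sum, sg_eq_sum]
  have h1 : ∑ σ, lw c s σ * F (σ * g⁻¹) = ∑ σ, rm g (lw c s) σ * F σ := by
    rw [← sum_mul_right (fun σ => lw c s σ * F (σ * g⁻¹)) g]
    refine Finset.sum_congr rfl fun σ _ => ?_
    unfold rm
    rw [mul_inv_cancel_right]
  rw [h1, ← Finset.sum_sub_distrib]
  refine (Finset.abs_sum_le_sum_abs _ _).trans ?_
  have h2 : ∀ σ, |rm g (lw c s) σ * F σ - lw c s σ * F σ| ≤ |lw c s σ - rm g (lw c s) σ| := by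
    intro σ
    rw [← sub_mul, abs_mul, abs_sub_comm]
    exact mul_le_of_le_one_right (abs_nonneg _) (hF σ)
  refine (Finset.sum_le_sum fun σ _ => h2 σ).trans ?_
  unfold tv at he
  linarith

/-- The same for a multiplication on the left. -/
theorem sg_move_left_le {c : V × V → ℝ} (hT : 0 < tot c) (s : ℝ) {g : Perm V} {F : Perm V → ℝ}
    (hF : ∀ σ, |F σ| ≤ 1) {e : ℝ} (he : tv (lw c s) (rm g (lw c s)) ≤ e) :
    |sg c s (fun σ => F (g * σ)) 1 - sg c s F 1| ≤ 2 * e := by
  have h1 : ∀ F : Perm V → ℝ, sg c s F 1 = sg c s (fun σ => F σ⁻¹) 1 := by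
    intro F
    rw [sg_eq_sum, sg_eq_sum, ← Equiv.sum_comp (Equiv.inv (Perm V))]
    refine Finset.sum_congr rfl fun σ _ => ?_
    have h : (Equiv.inv (Perm V)) σ = σ⁻¹ := rfl
    rw [h, lw_inv hT]
  rw [h1 F, h1 (fun σ => F (g * σ))]
  have h2 : (fun σ : Perm V => F (g * σ⁻¹)) = fun σ => (fun τ => F τ⁻¹) (σ * g⁻¹) := by
    funext σ
    show F (g * σ⁻¹) = F (σ * g⁻¹)⁻¹
    rw [mul_inv_rev, inv_inv]
  rw [h2]
  exact sg_move_le s (F := fun τ => F τ⁻¹) (fun σ => hF _) he

end Gen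

section Torus

variable {d L : ℕ} [NeZero L]

theorem tr_inv (v : Fin d → ZMod L) (p : (Fin d → ZMod L) × (Fin d → ZMod L)) :
    tr d L (p.1 + v, p.2 + v) = tr d L p := by
  unfold tr
  refine Finset.sum_congr rfl fun i _ => ?_
  have h : (p.2 + v = p.1 + v + Pi.single i 1) ↔ (p.2 = p.1 + Pi.single i 1) := by
    rw [add_right_comm p.1 v, add_left_inj]
  simp only [h]

theorem one_le_tr (i : Fin d) : 1 ≤ tr d L (0, Pi.single i 1) := by
  unfold tr
  refine le_trans (le_of_eq ?_) (Finset.single_le_sum (f := fun j : Fin d =>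
    if ((0 : Fin d → ZMod L), (Pi.single i 1 : Fin d → ZMod L)).2 =
      ((0 : Fin d → ZMod L), (Pi.single i 1 : Fin d → ZMod L)).1 + Pi.single j 1 then (1 : ℝ) else 0)
    (fun j _ => by split_ifs <;> norm_num) (Finset.mem_univ i))
  simp

theorem card_torus : (Fintype.card (Fin d → ZMod L) : ℝ) = (L : ℝ) ^ d := by
  rw [Fintype.card_fun, ZMod.card, Fintype.card_fin]
  push_cast
  rfl

/-- The cost of the transposition of two neighbours of the torus. -/
theorem cost_edge (hd : 1 ≤ d) (hL : 2 ≤ L) {s : ℝ} (hs : 1 ≤ s) (x : Fin d → ZMod L) (i : Fin d) :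
    tv (lw (tr d L) s) (rm (swap x (x + Pi.single i 1)) (lw (tr d L) s)) ≤
      4 * Real.sqrt (Real.log ((L : ℝ) ^ d) / s) := by
  have hs0 : 0 < s := by linarith
  have h := tv_lw_nbr (c := tr d L) tr_nonneg tr_inv (one_le_tr i) hs0 x
  rw [card_torus, tot_tr] at h
  refine h.trans ?_
  have hL' : (2 : ℝ) ≤ L := by exact_mod_cast hL
  have hd' : (1 : ℝ) ≤ d := by exact_mod_cast hd
  have hn : (2 : ℝ) ≤ (L : ℝ) ^ d := by
    calc (2 : ℝ) ≤ L := hL'
      _ = (L : ℝ) ^ 1 := (pow_one _).symm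
      _ ≤ (L : ℝ) ^ d := pow_le_pow_right₀ (by linarith) hd
  set l := Real.log ((L : ℝ) ^ d) with hl
  have hl2 : Real.log 2 ≤ l := Real.log_le_log (by norm_num) hn
  have hlog2 := Real.log_two_gt_d9
  have hl0 : (69 / 100 : ℝ) ≤ l := by linarith
  have e1 : Real.sqrt (2 * l / s) ≤ 3 / 2 * Real.sqrt (l / s) := by
    have : 2 * l / s = 2 * (l / s) := by ring
    rw [this, Real.sqrt_mul (by norm_num)]
    refine mul_le_mul_of_nonneg_right ?_ (Real.sqrt_nonneg _)
    rw [Real.sqrt_le_left (by norm_num)]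
    norm_num
  have e2 : Real.exp (-(3 / 10 * (d * (L : ℝ) ^ d * s))) ≤ 5 / 2 * Real.sqrt (l / s) := by
    have h1 : (2 : ℝ) * s ≤ d * (L : ℝ) ^ d * s := by
      refine mul_le_mul_of_nonneg_right ?_ hs0.le
      nlinarith
    have h2 : Real.exp (-(3 / 10 * (d * (L : ℝ) ^ d * s))) ≤ Real.exp (-(3 / 5 * s)) := by
      refine Real.exp_le_exp.mpr ?_
      linarith
    refine h2.trans ?_
    have h3 : Real.exp (-(3 / 5 * s)) ≤ 1 / (3 / 5 * s) := by
      rw [Real.exp_neg, ← one_div]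
      refine one_div_le_one_div_of_le (by positivity) ?_
      have := Real.add_one_le_exp (3 / 5 * s)
      linarith
    have h4 : (4 / 5 : ℝ) / Real.sqrt s ≤ Real.sqrt (l / s) := by
      rw [Real.sqrt_div (by linarith)]
      refine div_le_div_of_nonneg_right ?_ (Real.sqrt_nonneg _)
      rw [Real.le_sqrt (by norm_num) (by linarith)]
      linarith
    have h5 : 1 ≤ Real.sqrt s := by
      rw [Real.one_le_sqrt]; exact hs
    have h6 : 1 / (3 / 5 * s) ≤ 2 / Real.sqrt s := by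
      rw [div_le_div_iff₀ (by positivity) (by positivity)]
      have h7 : Real.sqrt s * Real.sqrt s = s := Real.mul_self_sqrt hs0.le
      nlinarith
    have h7 : 2 / Real.sqrt s = 5 / 2 * (4 / 5 / Real.sqrt s) := by ring
    calc Real.exp (-(3 / 5 * s)) ≤ 1 / (3 / 5 * s) := h3
      _ ≤ 2 / Real.sqrt s := h6
      _ = 5 / 2 * (4 / 5 / Real.sqrt s) := h7
      _ ≤ 5 / 2 * Real.sqrt (l / s) := by linarith
  linarith

/-- The cost of a permutation of a cube. -/
theorem cost_box (hd : 1 ≤ d) (hL : 2 ≤ L) {s : ℝ} (hs : 1 ≤ s) {x : Fin d → ZMod L} {b : ℕ}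
    (hb : b ≤ L) (g : Perm (Fin d → ZMod L)) (hg : ∀ z, z ∉ box x b → g z = z) :
    tv (lw (tr d L) s) (rm g (lw (tr d L) s)) ≤
      8 * (d * b * (b : ℝ) ^ d) * Real.sqrt (Real.log ((L : ℝ) ^ d) / s) := by
  have h := tv_box (p := lw (tr d L) s) hb (x := x)
    (e := 4 * Real.sqrt (Real.log ((L : ℝ) ^ d) / s)) (by positivity) (fun z _ z' _ hzz => by
      obtain ⟨i, h1 | h1⟩ := hzz
      · rw [h1]; exact cost_edge hd hL hs z i
      · rw [h1, swap_comm]; exact cost_edge hd hL hs z' i) g hg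
  refine h.trans (le_of_eq ?_)
  push_cast
  ring

/-- A product of permutations of cubes. -/
theorem cost_boxes (hd : 1 ≤ d) (hL : 2 ≤ L) {s : ℝ} (hs : 1 ≤ s) {b : ℕ} (hb : b ≤ L)
    (l : List (Perm (Fin d → ZMod L)))
    (hl : ∀ g ∈ l, ∃ x : Fin d → ZMod L, ∀ z, z ∉ box x b → g z = z) :
    tv (lw (tr d L) s) (rm l.prod (lw (tr d L) s)) ≤
      l.length * (8 * (d * b * (b : ℝ) ^ d) * Real.sqrt (Real.log ((L : ℝ) ^ d) / s)) := by
  induction l with
  | nil =>
    rw [List.prod_nil, rm_one, tv_self]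
    simp
  | cons g l ih =>
    have h1 := ih fun g' hg' => hl g' (List.mem_cons_of_mem _ hg')
    obtain ⟨x, hx⟩ := hl g List.mem_cons_self
    have h2 := cost_box hd hL hs hb g hx
    have h3 := cost_mul (lw (tr d L) s) g l.prod
    unfold cost at h3
    rw [List.prod_cons, List.length_cons]
    push_cast
    linarith

/-- The expectation of a bounded function changes little when the stirring permutation is multiplied
on the right by permutations of cubes. -/
theorem expect_move (hd : 1 ≤ d) (hL : 2 ≤ L) {s : ℝ} (hs : 1 ≤ s) {b : ℕ} (hb : b ≤ L)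
    (l : List (Perm (Fin d → ZMod L)))
    (hl : ∀ g ∈ l, ∃ x : Fin d → ZMod L, ∀ z, z ∉ box x b → g z = z)
    {F : Perm (Fin d → ZMod L) → ℝ} (hF : ∀ σ, |F σ| ≤ 1) :
    |expect d L s (fun σ => F (σ * l.prod⁻¹)) - expect d L s F| ≤
      2 * (l.length * (8 * (d * b * (b : ℝ) ^ d) * Real.sqrt (Real.log ((L : ℝ) ^ d) / s))) := by
  rw [expect_eq, expect_eq]
  exact sg_move_le s hF (cost_boxes hd hL hs hb l hl)

/-- The same for a multiplication on the left. -/
theorem expect_move_left (hd : 1 ≤ d) (hL : 2 ≤ L) {s : ℝ} (hs : 1 ≤ s) {b : ℕ} (hb : b ≤ L)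
    (l : List (Perm (Fin d → ZMod L)))
    (hl : ∀ g ∈ l, ∃ x : Fin d → ZMod L, ∀ z, z ∉ box x b → g z = z)
    {F : Perm (Fin d → ZMod L) → ℝ} (hF : ∀ σ, |F σ| ≤ 1) :
    |expect d L s (fun σ => F (l.prod * σ)) - expect d L s F| ≤
      2 * (l.length * (8 * (d * b * (b : ℝ) ^ d) * Real.sqrt (Real.log ((L : ℝ) ^ d) / s))) := by
  rw [expect_eq, expect_eq]
  have hT : 0 < tot (tr d L) := by
    rw [tot_tr]
    have hL' : (0 : ℝ) < L := by exact_mod_cast (by omega : 0 < L)
    have hd' : (0 : ℝ) < d := by exact_mod_cast (by omega : 0 < d)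
    positivity
  exact sg_move_left_le hT s hF (cost_boxes hd hL hs hb l hl)

end Torus

end Pool.Agent.Stirring.TC
end

section

/-! The entropy of the stirring permutation per site is of order `log t`, uniformly in the size of the
torus: costs which do not depend on `L`. -/

open Finset Equiv

set_option linter.unusedSectionVars false

namespace Pool.Agent.Stirring.LC

open Hier HC QK TC

section Gibbs

variable {S : Type*} [Fintype S]

/-- Gibbs' inequality. -/
theorem ent_le_gibbs {p q : S → ℝ} (hp : ∀ s, 0 ≤ p s) (hp1 : ∑ s, p s = 1) (hq : ∀ s, 0 < q s)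
    (hq1 : ∑ s, q s ≤ 1) : ent p ≤ ∑ s, p s * -Real.log (q s) := by
  unfold ent
  have h1 : ∀ s, Real.negMulLog (p s) ≤ p s * -Real.log (q s) + (q s - p s) := by
    intro s
    rcases (hp s).eq_or_lt with h | h
    · rw [← h]
      simp only [Real.negMulLog_zero, zero_mul, sub_zero, zero_add]
      exact (hq s).le
    · have h2 : Real.log (q s / p s) ≤ q s / p s - 1 := Real.log_le_sub_one_of_pos (div_pos (hq s) h)
      rw [Real.log_div (hq s).ne' h.ne'] at h2
      have h3 := mul_le_mul_of_nonneg_left h2 h.le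
      have h4 : p s * (q s / p s - 1) = q s - p s := by field_simp
      rw [h4] at h3
      unfold Real.negMulLog
      linarith
  refine (Finset.sum_le_sum fun s _ => h1 s).trans ?_
  rw [Finset.sum_add_distrib, Finset.sum_sub_distrib, hp1]
  linarith

variable {V : Type*} [Fintype V] [DecidableEq V] [AddCommGroup V]

/-- The total weight of the permutations is at most that of the maps. -/
theorem sum_prod_perm_le {w : V → ℝ} (hw : ∀ y, 0 ≤ w y) (hw1 : ∑ y, w y ≤ 1) :
    ∑ σ : Perm V, ∏ x, w (σ x - x) ≤ 1 := by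
  have h1 : ∑ σ : Perm V, ∏ x, w (σ x - x) ≤ ∑ f : V → V, ∏ x, w (f x - x) := by
    have hinj : Function.Injective (fun σ : Perm V => (σ : V → V)) := fun σ τ h => by
      ext x
      exact congrFun h x
    rw [← Finset.sum_image (s := (Finset.univ : Finset (Perm V))) (g := fun σ : Perm V => (σ : V → V))
      (f := fun f : V → V => ∏ x, w (f x - x)) (fun a _ b _ h => hinj h)]
    exact Finset.sum_le_sum_of_subset_of_nonneg (Finset.subset_univ _) fun f _ _ =>
      Finset.prod_nonneg fun x _ => hw _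
  refine h1.trans ?_
  have h2 : ∑ f : V → V, ∏ x, w (f x - x) = ∏ x : V, ∑ y, w (y - x) := by
    rw [Finset.prod_univ_sum]
    simp
  rw [h2]
  refine Finset.prod_le_one (fun x _ => Finset.sum_nonneg fun y _ => hw _) fun x _ => ?_
  rw [← Equiv.sum_comp (Equiv.addRight x)]
  simpa using hw1

theorem ent_le_disp {p : Perm V → ℝ} (hp : IsLaw p) {w : V → ℝ} (hw : ∀ y, 0 < w y)
    (hw1 : ∑ y, w y ≤ 1) :
    ent p ≤ ∑ σ, p σ * ∑ x, -Real.log (w (σ x - x)) := by
  refine (ent_le_gibbs hp.nn hp.one (q := fun σ => ∏ x, w (σ x - x))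
    (fun σ => Finset.prod_pos fun x _ => hw _)
    (sum_prod_perm_le (fun y => (hw y).le) hw1)).trans (le_of_eq ?_)
  refine Finset.sum_congr rfl fun σ _ => ?_
  rw [Real.log_prod (fun x _ => (hw _).ne'), ← Finset.sum_neg_distrib]

end Gibbs

section Weight

variable {d L : ℕ} [NeZero L]

theorem sum_inv_sq_int (n : ℕ) :
    ∑ z ∈ Finset.Icc (-(n : ℤ)) n, 1 / (1 + |(z : ℝ)|) ^ 2 ≤ 3 - 2 / ((n : ℝ) + 1) := by
  induction n with
  | zero => norm_num
  | succ n ih =>
    have h1 : Finset.Icc (-((n + 1 : ℕ) : ℤ)) ((n + 1 : ℕ) : ℤ) =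
        insert (-((n + 1 : ℕ) : ℤ)) (insert (((n + 1 : ℕ) : ℤ)) (Finset.Icc (-(n : ℤ)) n)) := by
      ext z
      simp only [Finset.mem_Icc, Finset.mem_insert]
      push_cast
      omega
    rw [h1, Finset.sum_insert, Finset.sum_insert]
    · have h3 : |((((n + 1 : ℕ) : ℤ)) : ℝ)| = (n : ℝ) + 1 := by
        push_cast
        rw [abs_of_nonneg]
        positivity
      have h2 : |(((-((n + 1 : ℕ) : ℤ)) : ℤ) : ℝ)| = (n : ℝ) + 1 := by
        rw [Int.cast_neg, abs_neg]
        exact h3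
      rw [h2, h3]
      have h4 : (1 : ℝ) / (1 + ((n : ℝ) + 1)) ^ 2 ≤ 1 / ((n : ℝ) + 1) - 1 / ((n : ℝ) + 2) := by
        have hn : (0 : ℝ) ≤ n := Nat.cast_nonneg n
        rw [div_sub_div _ _ (by positivity) (by positivity), div_le_div_iff₀ (by positivity)
          (by positivity)]
        nlinarith
      have h5 : (2 : ℝ) / (((n + 1 : ℕ) : ℝ) + 1) = 2 * (1 / ((n : ℝ) + 2)) := by
        push_cast
        rw [mul_one_div]
        congr 1
        ring
      have h6 : (2 : ℝ) / ((n : ℝ) + 1) = 2 * (1 / ((n : ℝ) + 1)) := by ring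
      rw [h5]
      rw [h6] at ih
      linarith
    · simp only [Finset.mem_Icc]
      push_cast
      omega
    · simp only [Finset.mem_Icc, Finset.mem_insert]
      push_cast
      omega

/-- One coordinate of the weight. -/
noncomputable def w1 (k : ZMod L) : ℝ := 1 / (3 * (1 + (av k : ℝ)) ^ 2)

theorem w1_pos (k : ZMod L) : 0 < w1 k := by
  unfold w1
  positivity

theorem w1_sum : ∑ k : ZMod L, w1 k ≤ 1 := by
  have h1 : ∀ k : ZMod L, w1 k = 1 / 3 * (1 / (1 + |(k.valMinAbs : ℝ)|) ^ 2) := by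
    intro k
    unfold w1
    rw [av_abs]
    field_simp
  rw [Finset.sum_congr rfl fun k _ => h1 k, ← Finset.mul_sum]
  have h2 : ∑ k : ZMod L, (1 / (1 + |(k.valMinAbs : ℝ)|) ^ 2 : ℝ) ≤
      ∑ z ∈ Finset.Icc (-(L : ℤ)) L, 1 / (1 + |(z : ℝ)|) ^ 2 := by
    have hinj : Function.Injective (fun k : ZMod L => k.valMinAbs) := fun a b h => by
      have h3 := congrArg (fun z : ℤ => (z : ZMod L)) h
      simpa [ZMod.coe_valMinAbs] using h3
    rw [← Finset.sum_image (s := (Finset.univ : Finset (ZMod L))) (g := fun k => k.valMinAbs)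
      (f := fun z : ℤ => (1 / (1 + |(z : ℝ)|) ^ 2 : ℝ)) (fun a _ b _ h => hinj h)]
    refine Finset.sum_le_sum_of_subset_of_nonneg ?_ fun z _ _ => by positivity
    intro z hz
    obtain ⟨k, _, rfl⟩ := Finset.mem_image.mp hz
    have h3 := ZMod.natAbs_valMinAbs_le k
    rw [Finset.mem_Icc]
    have h4 : L / 2 ≤ L := Nat.div_le_self L 2
    omega
  have h3 := sum_inv_sq_int L
  have h4 : (0 : ℝ) ≤ 2 / ((L : ℝ) + 1) := by positivity
  linarith

/-- The weight on the torus. -/
noncomputable def wT (y : Fin d → ZMod L) : ℝ := ∏ i, w1 (y i)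

theorem wT_pos (y : Fin d → ZMod L) : 0 < wT y := Finset.prod_pos fun i _ => w1_pos _

theorem wT_sum : ∑ y : Fin d → ZMod L, wT y ≤ 1 := by
  unfold wT
  have h : ∑ y : Fin d → ZMod L, ∏ i, w1 (y i) = ∏ _i : Fin d, ∑ k : ZMod L, w1 k := by
    rw [Finset.prod_univ_sum]
    simp
  rw [h]
  exact Finset.prod_le_one (fun i _ => Finset.sum_nonneg fun k _ => (w1_pos k).le)
    fun i _ => w1_sum

theorem log_wT (y : Fin d → ZMod L) {a : ℝ} (ha : 0 < a) :
    -Real.log (wT y) ≤ ∑ i, (Real.log 3 + 2 * (Real.log (1 + a) + 1 / 2 +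
      (av (y i) : ℝ) ^ 2 / (2 * a ^ 2))) := by
  unfold wT
  rw [Real.log_prod (fun i _ => (w1_pos _).ne'), ← Finset.sum_neg_distrib]
  refine Finset.sum_le_sum fun i _ => ?_
  unfold w1
  have hy : (0 : ℝ) ≤ av (y i) := Nat.cast_nonneg _
  rw [one_div, Real.log_inv, neg_neg, Real.log_mul (by norm_num) (by positivity), Real.log_pow]
  push_cast
  have h1 : Real.log (1 + (av (y i) : ℝ)) ≤ Real.log (1 + a) + 1 / 2 +
      (av (y i) : ℝ) ^ 2 / (2 * a ^ 2) := by
    have h2 : Real.log ((1 + (av (y i) : ℝ)) / (1 + a)) ≤ (1 + (av (y i) : ℝ)) / (1 + a) - 1 :=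
      Real.log_le_sub_one_of_pos (by positivity)
    rw [Real.log_div (by positivity) (by positivity)] at h2
    have h3 : (1 + (av (y i) : ℝ)) / (1 + a) - 1 ≤ (av (y i) : ℝ) / a := by
      rw [div_sub_one (by positivity), div_le_div_iff₀ (by positivity) ha]
      nlinarith
    have h4 : (av (y i) : ℝ) / a ≤ 1 / 2 + (av (y i) : ℝ) ^ 2 / (2 * a ^ 2) := by
      have h5 := sq_nonneg ((av (y i) : ℝ) / a - 1)
      have h6 : (av (y i) : ℝ) ^ 2 / (2 * a ^ 2) = ((av (y i) : ℝ) / a) ^ 2 / 2 := by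
        rw [div_pow]
        field_simp
      rw [h6]
      nlinarith
    linarith
  linarith

end Weight

end Pool.Agent.Stirring.LC
end
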