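import Pool.Agent.Lib.MP_6c3d62_pr.Mg.G059

section

section

/-! Tail events of the telescoping and of the window masses. -/

open Finset

set_option linter.unusedSectionVars false

namespace Pool.Agent.Stirring.QK

variable {V : Type*} [AddCommGroup V] [Fintype V] [DecidableEq V] {Ω : Type*} [Fintype Ω]
variable {c : V × V → ℝ} {h : ℝ} {S : Slab V Ω} {Q Λ : Finset V}

/-- Lower bound of the exponent, positive sign. -/
theorem ex_ge {U θ m : ℝ} {g u : V → ℝ} (hu : ∀ z, 0 ≤ u z) (hU : 0 ≤ U) (hg : ∀ x, 0 ≤ g x)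
    (hgm : ∀ x, g x ≤ m) (hθ0 : 0 ≤ θ) (hθ : 16 * U * |θ| * m ≤ 1) :
    θ / 2 * ∑ z, u z * g z ≤ ex U θ g u := by
  unfold ex
  have h1 : ∑ z, u z * g z ^ 2 ≤ m * ∑ z, u z * g z := by
    rw [Finset.mul_sum]
    refine Finset.sum_le_sum fun z _ => ?_
    have := mul_le_mul_of_nonneg_left (hgm z) (mul_nonneg (hu z) (hg z))
    nlinarith
  have h0 : 0 ≤ ∑ z, u z * g z := Finset.sum_nonneg fun z _ => mul_nonneg (hu z) (hg z)
  rw [abs_of_nonneg hθ0] at hθ
  have h2 : 2 * U * θ ^ 2 * ∑ z, u z * g z ^ 2 ≤ 2 * U * θ ^ 2 * (m * ∑ z, u z * g z) :=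
    mul_le_mul_of_nonneg_left h1 (by positivity)
  have h3 : 2 * U * θ ^ 2 * (m * ∑ z, u z * g z) =
      (16 * U * θ * m) * (θ / 8 * ∑ z, u z * g z) := by ring
  have h4 : (16 * U * θ * m) * (θ / 8 * ∑ z, u z * g z) ≤ 1 * (θ / 8 * ∑ z, u z * g z) :=
    mul_le_mul_of_nonneg_right hθ (by positivity)
  have h5 : 0 ≤ θ * ∑ z, u z * g z := mul_nonneg hθ0 h0
  nlinarith

/-- Lower bound of the exponent, negative sign. -/
theorem ex_neg_ge {U θ m : ℝ} {g u : V → ℝ} (hu : ∀ z, 0 ≤ u z) (hU : 0 ≤ U)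
    (hg : ∀ x, 0 ≤ g x) (hgm : ∀ x, g x ≤ m) (hθ0 : 0 ≤ θ) (hθ : 16 * U * |θ| * m ≤ 1) :
    -(2 * θ * ∑ z, u z * g z) ≤ ex U (-θ) g u := by
  unfold ex
  have h1 : ∑ z, u z * g z ^ 2 ≤ m * ∑ z, u z * g z := by
    rw [Finset.mul_sum]
    refine Finset.sum_le_sum fun z _ => ?_
    have := mul_le_mul_of_nonneg_left (hgm z) (mul_nonneg (hu z) (hg z))
    nlinarith
  have h0 : 0 ≤ ∑ z, u z * g z := Finset.sum_nonneg fun z _ => mul_nonneg (hu z) (hg z)
  rw [abs_of_nonneg hθ0] at hθ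
  have h2 : 2 * U * θ ^ 2 * ∑ z, u z * g z ^ 2 ≤ 2 * U * θ ^ 2 * (m * ∑ z, u z * g z) :=
    mul_le_mul_of_nonneg_left h1 (by positivity)
  have h3 : 2 * U * θ ^ 2 * (m * ∑ z, u z * g z) =
      (16 * U * θ * m) * (θ / 8 * ∑ z, u z * g z) := by ring
  have h4 : (16 * U * θ * m) * (θ / 8 * ∑ z, u z * g z) ≤ 1 * (θ / 8 * ∑ z, u z * g z) :=
    mul_le_mul_of_nonneg_right hθ (by positivity)
  have h5 : 0 ≤ θ * ∑ z, u z * g z := mul_nonneg hθ0 h0
  nlinarith

/-- Upper bound of the exponent at the start. -/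
theorem ex_le {U θ : ℝ} {g u : V → ℝ} (hu : ∀ z, 0 ≤ u z) (hU : 0 ≤ U) :
    ex U θ g u ≤ θ * ∑ z, u z * g z := by
  unfold ex
  have h1 : 0 ≤ ∑ z, u z * g z ^ 2 :=
    Finset.sum_nonneg fun z _ => mul_nonneg (hu z) (sq_nonneg _)
  have h2 : 0 ≤ 2 * U * θ ^ 2 * ∑ z, u z * g z ^ 2 := by positivity
  linarith

/-- The window error over `k` slabs, per unit of `θ`. -/
noncomputable def werr (V : Type*) [Fintype V] (Λ : Finset V) (U : ℝ) (ν : ℕ → ℝ) (k : ℕ) : ℝ :=
  4 * U * (Λ.card / Fintype.card V) * ∑ j ∈ range k, ν j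

/-- **Ev1** upper tail of the telescoping. -/
theorem tele_upper (hc : ∀ p, 0 ≤ c p) (hh : 0 ≤ h) (H : SlabLaw c h S Q Λ) {U θ m : ℝ}
    (g : ℕ → V → ℝ) (hgs : ∀ k, g (k + 1) = heat c h (g k)) (hg : ∀ k x, 0 ≤ g k x)
    (hgm : ∀ k x, g k x ≤ m) (hθ0 : 0 < θ) (hθ : 16 * U * θ * m ≤ 1) (ν : ℕ → ℝ)
    (hν : ∀ k, osc Q (g k) ≤ ν k) (hosc : ∀ k, 2 * θ * U * ν k ≤ 1) (k : ℕ) {u : V → ℝ}
    (hu : ∀ z, 0 ≤ u z) (huU : ∀ z, u z ≤ U) (lam : ℝ) :
    EL S.w k (fun l => if 2 * ∑ z, u z * g k z + 2 * werr V Λ U ν k + 2 * lam / θ ≤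
      ∑ z, fw S Q l u z * g 0 z then 1 else 0) ≤ Real.exp (-lam) := by
  have hU : 0 ≤ U := (hu 0).trans (huU 0)
  have hab : |θ| = θ := abs_of_pos hθ0
  have h1 := tele_expo hc hh H g hgs hg hgm (by rw [hab]; exact hθ) ν hν
    (by rw [hab]; exact hosc) k hu huU
  rw [hab] at h1
  have h2 : Real.exp (ex U θ (g k) u + 4 * θ * U * (Λ.card / Fintype.card V) *
      ∑ j ∈ range k, ν j) ≤ Real.exp (θ * ∑ z, u z * g k z + θ * werr V Λ U ν k) := by
    rw [Real.exp_le_exp]
    have := ex_le (θ := θ) (g := g k) hu hU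
    unfold werr
    nlinarith
  refine EL_markov H.w_nonneg k (F := fun l => Real.exp (ex U θ (g 0) (fw S Q l u)))
    (fun l => (Real.exp_pos _).le)
    (c := Real.exp (θ * ∑ z, u z * g k z + θ * werr V Λ U ν k + lam)) (Real.exp_pos _) ?_ ?_
  · rw [← Real.exp_add]
    refine (h1.trans h2).trans (le_of_eq ?_)
    congr 1; ring
  · intro l _ hl
    rw [Real.exp_le_exp]
    have h3 := ex_ge (U := U) (θ := θ) (m := m) (g := g 0) (fw_nonneg H.allDis l hu) hU
      (hg 0) (hgm 0) hθ0.le (by rw [hab]; exact hθ)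
    refine le_trans ?_ h3
    have h4 := mul_le_mul_of_nonneg_left hl (by positivity : 0 ≤ θ / 2)
    refine le_trans (le_of_eq ?_) h4
    field_simp

/-- **Ev2** lower tail of the telescoping. -/
theorem tele_lower (hc : ∀ p, 0 ≤ c p) (hh : 0 ≤ h) (H : SlabLaw c h S Q Λ) {U θ m : ℝ}
    (g : ℕ → V → ℝ) (hgs : ∀ k, g (k + 1) = heat c h (g k)) (hg : ∀ k x, 0 ≤ g k x)
    (hgm : ∀ k x, g k x ≤ m) (hθ0 : 0 < θ) (hθ : 16 * U * θ * m ≤ 1) (ν : ℕ → ℝ)
    (hν : ∀ k, osc Q (g k) ≤ ν k) (hosc : ∀ k, 2 * θ * U * ν k ≤ 1) (k : ℕ) {u : V → ℝ}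
    (hu : ∀ z, 0 ≤ u z) (huU : ∀ z, u z ≤ U) (lam : ℝ) :
    EL S.w k (fun l => if 2 * ∑ z, fw S Q l u z * g 0 z ≤
      ∑ z, u z * g k z - werr V Λ U ν k - lam / θ then 1 else 0) ≤ Real.exp (-lam) := by
  have hU : 0 ≤ U := (hu 0).trans (huU 0)
  have hab : |(-θ)| = θ := by rw [abs_neg, abs_of_pos hθ0]
  have h1 := tele_expo (θ := -θ) hc hh H g hgs hg hgm (by rw [hab]; exact hθ) ν hν
    (by rw [hab]; exact hosc) k hu huU
  rw [hab] at h1
  have h2 : Real.exp (ex U (-θ) (g k) u + 4 * θ * U * (Λ.card / Fintype.card V) *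
      ∑ j ∈ range k, ν j) ≤ Real.exp (-(θ * ∑ z, u z * g k z) + θ * werr V Λ U ν k) := by
    rw [Real.exp_le_exp]
    have := ex_le (θ := -θ) (g := g k) hu hU
    unfold werr
    nlinarith
  refine EL_markov H.w_nonneg k (F := fun l => Real.exp (ex U (-θ) (g 0) (fw S Q l u)))
    (fun l => (Real.exp_pos _).le)
    (c := Real.exp (-(θ * ∑ z, u z * g k z) + θ * werr V Λ U ν k + lam)) (Real.exp_pos _) ?_ ?_
  · rw [← Real.exp_add]
    refine (h1.trans h2).trans (le_of_eq ?_)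
    congr 1; ring
  · intro l _ hl
    rw [Real.exp_le_exp]
    have h3 := ex_neg_ge (U := U) (θ := θ) (m := m) (g := g 0) (fw_nonneg H.allDis l hu) hU
      (hg 0) (hgm 0) hθ0.le (by rw [abs_of_pos hθ0]; exact hθ)
    refine le_trans ?_ h3
    have h4 := mul_le_mul_of_nonneg_left hl hθ0.le
    have h5 : θ * (∑ z, u z * g k z - werr V Λ U ν k - lam / θ) =
        θ * ∑ z, u z * g k z - θ * werr V Λ U ν k - lam := by field_simp
    rw [h5] at h4
    linarith

/-- Markov's inequality for one slab. -/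
theorem slab_markov (H : SlabLaw c h S Q Λ) {F : Ω → ℝ} (hF : ∀ a, 0 ≤ F a) {K ε : ℝ}
    (hK : 0 < K) (h1 : ∑ a, S.w a * F a ≤ K * ε) {P : Ω → Prop} [DecidablePred P]
    (hP : ∀ a, P a → K ≤ F a) : ∑ a, S.w a * (if P a then 1 else 0) ≤ ε := by
  have h2 : K * ∑ a, S.w a * (if P a then (1 : ℝ) else 0) ≤ K * ε := by
    refine le_trans ?_ h1
    rw [Finset.mul_sum]
    refine Finset.sum_le_sum fun a _ => ?_
    split
    · next hp => nlinarith [H.w_nonneg a, hP a hp]
    · have := mul_nonneg (H.w_nonneg a) (hF a)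
      simpa using this
  exact le_of_mul_le_mul_left h2 hK

/-- **Ev3a** upper tail of the content of a function after one slab, before the averaging. -/
theorem mass_upper (hc : ∀ p, 0 ≤ c p) (hh : 0 ≤ h) (H : SlabLaw c h S Q Λ) {u : V → ℝ} {U : ℝ}
    (hu : ∀ z, 0 ≤ u z) (huU : ∀ z, u z ≤ U) {g : V → ℝ} {m θ : ℝ} (hg : ∀ x, 0 ≤ g x)
    (hgm : ∀ x, g x ≤ m) (hθ0 : 0 < θ) (hθ : 16 * U * θ * m ≤ 1) (lam : ℝ) :
    ∑ a, S.w a * (if 2 * ∑ z, u z * heat c h g z + 2 * lam / θ ≤ ∑ z, u (S.T a z) * g z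
      then 1 else 0) ≤ Real.exp (-lam) := by
  have hU : 0 ≤ U := (hu 0).trans (huU 0)
  have hab : |θ| = θ := abs_of_pos hθ0
  have h1 := sg_expo_le hc hu huU hh hg hgm (by rw [hab]; exact hθ) 1
  rw [← H.law_T] at h1
  refine slab_markov H (F := fun a => Real.exp (expo u θ (2 * U * θ ^ 2) g (S.T a)))
    (fun a => (Real.exp_pos _).le)
    (K := Real.exp (θ * ∑ z, u z * heat c h g z + lam)) (Real.exp_pos _) ?_ ?_
  · rw [← Real.exp_add]
    refine h1.trans ?_
    rw [Real.exp_le_exp]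
    have := ex_le (θ := θ) (g := heat c h g) hu hU
    unfold ex at this
    unfold expo
    simp only [Equiv.Perm.coe_one, id_eq]
    linarith
  · intro a ha
    rw [Real.exp_le_exp]
    have h3 := ex_ge (U := U) (θ := θ) (m := m) (g := g) (u := fun z => u (S.T a z))
      (fun z => hu _) hU hg hgm hθ0.le (by rw [hab]; exact hθ)
    refine le_trans ?_ h3
    have h4 := mul_le_mul_of_nonneg_left ha (by positivity : 0 ≤ θ / 2)
    refine le_trans (le_of_eq ?_) h4
    field_simp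

/-- **Ev3b** lower tail. -/
theorem mass_lower (hc : ∀ p, 0 ≤ c p) (hh : 0 ≤ h) (H : SlabLaw c h S Q Λ) {u : V → ℝ} {U : ℝ}
    (hu : ∀ z, 0 ≤ u z) (huU : ∀ z, u z ≤ U) {g : V → ℝ} {m θ : ℝ} (hg : ∀ x, 0 ≤ g x)
    (hgm : ∀ x, g x ≤ m) (hθ0 : 0 < θ) (hθ : 16 * U * θ * m ≤ 1) (lam : ℝ) :
    ∑ a, S.w a * (if 2 * ∑ z, u (S.T a z) * g z ≤ ∑ z, u z * heat c h g z - lam / θ
      then 1 else 0) ≤ Real.exp (-lam) := by
  have hU : 0 ≤ U := (hu 0).trans (huU 0)
  have hab : |(-θ)| = θ := by rw [abs_neg, abs_of_pos hθ0]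
  have h1 := sg_expo_le (θ := -θ) hc hu huU hh hg hgm (by rw [hab]; exact hθ) 1
  rw [← H.law_T] at h1
  refine slab_markov H (F := fun a => Real.exp (expo u (-θ) (2 * U * (-θ) ^ 2) g (S.T a)))
    (fun a => (Real.exp_pos _).le)
    (K := Real.exp (-(θ * ∑ z, u z * heat c h g z) + lam)) (Real.exp_pos _) ?_ ?_
  · rw [← Real.exp_add]
    refine h1.trans ?_
    rw [Real.exp_le_exp]
    have := ex_le (θ := -θ) (g := heat c h g) hu hU
    unfold ex at this
    unfold expo
    simp only [Equiv.Perm.coe_one, id_eq]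
    linarith
  · intro a ha
    rw [Real.exp_le_exp]
    have h3 := ex_neg_ge (U := U) (θ := θ) (m := m) (g := g) (u := fun z => u (S.T a z))
      (fun z => hu _) hU hg hgm hθ0.le (by rw [abs_of_pos hθ0]; exact hθ)
    refine le_trans ?_ h3
    have h4 := mul_le_mul_of_nonneg_left ha hθ0.le
    have h5 : θ * (∑ z, u z * heat c h g z - lam / θ) =
        θ * ∑ z, u z * heat c h g z - lam := by field_simp
    rw [h5] at h4
    linarith

/-- A good window average is at most the sum of the average over all windows and the content. -/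
theorem avg_good_le {G G' : Finset V} (hG : G ⊆ G') (hD : Dis Q G') {u : V → ℝ}
    (hu : ∀ z, 0 ≤ u z) (z : V) : avg Q G u z ≤ avg Q G' u z + u z := by
  rcases avg_cases (hD.mono hG) u z with h1 | ⟨q, hq, hz, h1⟩
  · rw [h1]
    linarith [avg_nonneg hD hu z]
  · rw [h1, ← avg_in hD u (hG hq) hz]
    linarith [hu z]

/-- **Ev4** backward: upper tail of the content of a function after one slab. -/
theorem mass_back (hc : ∀ p, 0 ≤ c p) (hh : 0 ≤ h) (H : SlabLaw c h S Q Λ) {u : V → ℝ} {U : ℝ}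
    (hu : ∀ z, 0 ≤ u z) (huU : ∀ z, u z ≤ U) {g : V → ℝ} {m θ κ : ℝ} (hg : ∀ x, 0 ≤ g x)
    (hgm : ∀ x, g x ≤ m) (hθ0 : 0 < θ) (hθ : 32 * U * θ * m ≤ 1)
    (hκ : ∀ z, heat c h g z ≤ κ) (hu1 : ∑ z, u z ≤ 1) (lam : ℝ) :
    ∑ a, S.w a * (if 4 * κ + 2 * lam / θ ≤ ∑ z, bck S Q a u z * g z
      then 1 else 0) ≤ Real.exp (-lam) := by
  have hU : 0 ≤ U := (hu 0).trans (huU 0)
  have hab : |θ| = θ := abs_of_pos hθ0
  have hg0 : ∀ z, 0 ≤ heat c h g z := fun z => heat_nonneg hc hh hg z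
  have hκ0 : 0 ≤ κ := (hg0 0).trans (hκ 0)
  set v : V → V → ℝ := fun s z => avg Q (Λ.image (s + ·)) u z + u z with hv
  have hv0 : ∀ s z, 0 ≤ v s z := fun s z => add_nonneg (avg_nonneg (H.dis s) hu z) (hu z)
  have hvU : ∀ s z, v s z ≤ 2 * U := fun s z => by
    have := avg_le (H.dis s) huU z
    simp only [hv]; linarith [huU z]
  have hv1 : ∀ s, ∑ z, v s z ≤ 2 := fun s => by
    simp only [hv, Finset.sum_add_distrib, avg_sum]; linarith
  -- the exponential moment for a fixed shift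
  have h1 : ∀ s, Hier.sg c h (fun τ => Real.exp (expo (v s) θ (2 * (2 * U) * θ ^ 2) g τ⁻¹)) 1 ≤
      Real.exp (2 * θ * κ) := by
    intro s
    rw [sg_inv c h (fun τ => Real.exp (expo (v s) θ (2 * (2 * U) * θ ^ 2) g τ))]
    refine (sg_expo_le hc (hv0 s) (hvU s) hh hg hgm (by rw [hab]; linarith) 1).trans ?_
    rw [Real.exp_le_exp]
    have h2 := ex_le (U := 2 * U) (θ := θ) (g := heat c h g) (hv0 s) (by linarith)
    unfold ex at h2
    unfold expo
    simp only [Equiv.Perm.coe_one, id_eq]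
    have h3 : ∑ z, v s z * heat c h g z ≤ 2 * κ := by
      calc ∑ z, v s z * heat c h g z ≤ ∑ z, v s z * κ :=
            Finset.sum_le_sum fun z _ => mul_le_mul_of_nonneg_left (hκ z) (hv0 s z)
        _ = (∑ z, v s z) * κ := by rw [Finset.sum_mul]
        _ ≤ 2 * κ := mul_le_mul_of_nonneg_right (hv1 s) hκ0
    nlinarith
  have h2 : ∑ a, S.w a * Real.exp (expo (v (S.sh a)) θ (2 * (2 * U) * θ ^ 2) g (S.T a)⁻¹) ≤
      Real.exp (2 * θ * κ) := by
    rw [H.law (fun τ s => Real.exp (expo (v s) θ (2 * (2 * U) * θ ^ 2) g τ⁻¹))]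
    have hn : (0 : ℝ) < Fintype.card V := by
      have : 0 < Fintype.card V := Fintype.card_pos_iff.mpr ⟨0⟩
      exact_mod_cast this
    have h3 : (fun τ : Equiv.Perm V => (∑ s, Real.exp (expo (v s) θ (2 * (2 * U) * θ ^ 2) g τ⁻¹)) /
        (Fintype.card V : ℝ)) = ∑ s, (1 / (Fintype.card V : ℝ)) •
        (fun τ : Equiv.Perm V => Real.exp (expo (v s) θ (2 * (2 * U) * θ ^ 2) g τ⁻¹)) := by
      funext τ
      rw [Finset.sum_apply]
      simp only [Pi.smul_apply, smul_eq_mul]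
      rw [← Finset.mul_sum]
      ring
    rw [h3, map_sum, Finset.sum_apply]
    simp only [Hier.sg_smul]
    calc ∑ s, 1 / (Fintype.card V : ℝ) *
          Hier.sg c h (fun τ => Real.exp (expo (v s) θ (2 * (2 * U) * θ ^ 2) g τ⁻¹)) 1 ≤
          ∑ _s : V, 1 / (Fintype.card V : ℝ) * Real.exp (2 * θ * κ) :=
          Finset.sum_le_sum fun s _ => mul_le_mul_of_nonneg_left (h1 s) (by positivity)
      _ = Real.exp (2 * θ * κ) := by
          rw [Finset.sum_const, Finset.card_univ, nsmul_eq_mul]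
          field_simp
  refine slab_markov H
    (F := fun a => Real.exp (expo (v (S.sh a)) θ (2 * (2 * U) * θ ^ 2) g (S.T a)⁻¹))
    (fun a => (Real.exp_pos _).le)
    (K := Real.exp (2 * θ * κ + lam)) (Real.exp_pos _) ?_ ?_
  · rw [← Real.exp_add]
    refine h2.trans (le_of_eq ?_)
    congr 1; ring
  · intro a ha
    rw [Real.exp_le_exp]
    have h3 := ex_ge (U := 2 * U) (θ := θ) (m := m) (g := g)
      (u := fun z => v (S.sh a) ((S.T a)⁻¹ z))
      (fun z => hv0 _ _) (by linarith) hg hgm hθ0.le (by rw [hab]; linarith)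
    refine le_trans ?_ h3
    have h4 : ∑ z, bck S Q a u z * g z ≤ ∑ z, v (S.sh a) ((S.T a)⁻¹ z) * g z := by
      refine Finset.sum_le_sum fun z _ => mul_le_mul_of_nonneg_right ?_ (hg z)
      unfold bck
      exact avg_good_le (H.sub a) (H.dis _) hu _
    have h5 := mul_le_mul_of_nonneg_left (ha.trans h4) (by positivity : 0 ≤ θ / 2)
    refine le_trans (le_of_eq ?_) h5
    field_simp
    ring

end Pool.Agent.Stirring.QK
end

section

/-! ROW T (helper81): strands without averaging; every strand meets a good window; displacement. -/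

open Finset

set_option linter.unusedSectionVars false

namespace Pool.Agent.Stirring.QK

variable {V : Type*} [AddCommGroup V] [Fintype V] [DecidableEq V] {Ω : Type*} [Fintype Ω]
variable {c : V × V → ℝ} {h : ℝ} {S : Slab V Ω} {Q Λ : Finset V}

/-- Position before the slabs `l` of the strand which is at `z` after them. -/
def trc (S : Slab V Ω) : List Ω → V → V
  | [], z => z
  | a :: l, z => S.T a (trc S l z)

/-- The strand which ends at `z` avoids the good windows of all slabs of `l`. -/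
def Avoid (S : Slab V Ω) (Q : Finset V) : List Ω → V → Prop
  | [], _ => True
  | a :: l, z => Avoid S Q l z ∧ ¬ InWin Q (S.good a) (trc S l z)

noncomputable instance (l : List Ω) : DecidablePred (Avoid S Q l) := Classical.decPred _

theorem trc_append (l l' : List Ω) (z : V) : trc S (l ++ l') z = trc S l (trc S l' z) := by
  induction l with
  | nil => rfl
  | cons a l ih =>
    show S.T a (trc S (l ++ l') z) = S.T a (trc S l (trc S l' z))
    rw [ih]

theorem avoid_append (l l' : List Ω) (z : V) :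
    Avoid S Q (l ++ l') z ↔ Avoid S Q l' z ∧ Avoid S Q l (trc S l' z) := by
  induction l with
  | nil =>
    show Avoid S Q l' z ↔ Avoid S Q l' z ∧ True
    tauto
  | cons a l ih =>
    show (Avoid S Q (l ++ l') z ∧ ¬ InWin Q (S.good a) (trc S (l ++ l') z)) ↔
      Avoid S Q l' z ∧ (Avoid S Q l (trc S l' z) ∧ ¬ InWin Q (S.good a) (trc S l (trc S l' z)))
    rw [ih, trc_append]
    tauto

/-- No window met: the content is transported. -/
theorem fw_avoid (l : List Ω) (z : V) (hz : Avoid S Q l z) (u : V → ℝ) :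
    fw S Q l u z = u (trc S l z) := by
  induction l generalizing u with
  | nil => rfl
  | cons a l ih =>
    obtain ⟨h1, h2⟩ := hz
    show fw S Q l (stp S Q a u) z = u (S.T a (trc S l z))
    rw [ih h1]
    unfold stp
    rw [avg_out _ h2]

/-- The last good window. -/
theorem exists_last {l : List Ω} {z : V} (hz : ¬ Avoid S Q l z) :
    ∃ (l₁ l₂ : List Ω) (a : Ω) (q : V), l = l₁ ++ a :: l₂ ∧ Avoid S Q l₂ z ∧ q ∈ S.good a ∧
      trc S l₂ z - q ∈ Q := by
  induction l with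
  | nil => exact absurd trivial hz
  | cons a l ih =>
    by_cases h1 : Avoid S Q l z
    · have h2 : InWin Q (S.good a) (trc S l z) := by
        by_contra h3
        exact hz ⟨h1, h3⟩
      obtain ⟨q, hq, hq2⟩ := h2
      exact ⟨[], l, a, q, rfl, h1, hq, hq2⟩
    · obtain ⟨l₁, l₂, b, q, e, h2, h3, h4⟩ := ih h1
      exact ⟨a :: l₁, l₂, b, q, by rw [e]; rfl, h2, h3, h4⟩

/-- The value at a site whose last window is known. -/
theorem fw_last (hD : AllDis S Q) {l₁ l₂ : List Ω} {a : Ω} {q z : V} (hz : Avoid S Q l₂ z)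
    (hq : q ∈ S.good a) (hzq : trc S l₂ z - q ∈ Q) (u : V → ℝ) :
    fw S Q (l₁ ++ a :: l₂) u z = (∑ y ∈ Q, fw S Q l₁ u (S.T a (q + y))) / Q.card := by
  rw [fw_append]
  show fw S Q l₂ (stp S Q a (fw S Q l₁ u)) z = _
  rw [fw_avoid l₂ z hz]
  unfold stp
  rw [avg_in (hD a) _ hq hzq]

/-- Every strand meets a good window soon. -/
theorem avoid_le (H : SlabLaw c h S Q Λ) {p : ℝ} (hp1 : p ≤ 1)
    (hp : ∀ z, p ≤ ∑ a, S.w a * (if InWin Q (S.good a) z then 1 else 0)) (k : ℕ) (z : V) :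
    EL S.w k (fun l => if Avoid S Q l z then 1 else 0) ≤ (1 - p) ^ k := by
  classical
  induction k with
  | zero =>
    unfold EL
    simp [Avoid]
  | succ k ih =>
    have h1 : EL S.w (k + 1) (fun l => if Avoid S Q l z then (1 : ℝ) else 0) =
        EL S.w k (fun l => (if Avoid S Q l z then (1 : ℝ) else 0) *
          ∑ a, S.w a * (if InWin Q (S.good a) (trc S l z) then 0 else 1)) := by
      have h2 : EL S.w (k + 1) (fun l => if Avoid S Q l z then (1 : ℝ) else 0) =
          ∑ a, EL S.w k (fun l => S.w a * (if Avoid S Q (a :: l) z then (1 : ℝ) else 0)) := by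
        show ∑ a, S.w a * EL S.w k (fun l => if Avoid S Q (a :: l) z then (1 : ℝ) else 0) = _
        exact Finset.sum_congr rfl fun a _ => (EL_mul k (S.w a) _).symm
      rw [h2, ← EL_sum Finset.univ k (fun a l => S.w a * (if Avoid S Q (a :: l) z then (1 : ℝ) else 0))]
      refine EL_congr k fun l _ => ?_
      rw [Finset.mul_sum]
      refine Finset.sum_congr rfl fun a _ => ?_
      by_cases h3 : Avoid S Q l z
      · by_cases h4 : InWin Q (S.good a) (trc S l z)
        · have h5 : ¬ Avoid S Q (a :: l) z := fun h => h.2 h4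
          rw [if_neg h5, if_pos h4]; ring
        · have h5 : Avoid S Q (a :: l) z := ⟨h3, h4⟩
          rw [if_pos h5, if_pos h3, if_neg h4]; ring
      · have h5 : ¬ Avoid S Q (a :: l) z := fun h => h3 h.1
        rw [if_neg h5, if_neg h3]; ring
    have h6 : ∀ x, ∑ a, S.w a * (if InWin Q (S.good a) x then (0 : ℝ) else 1) ≤ 1 - p := by
      intro x
      have h7 : ∑ a, S.w a * (if InWin Q (S.good a) x then (0 : ℝ) else 1) =
          ∑ a, S.w a - ∑ a, S.w a * (if InWin Q (S.good a) x then 1 else 0) := by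
        rw [← Finset.sum_sub_distrib]
        refine Finset.sum_congr rfl fun a _ => ?_
        split <;> ring
      rw [h7, H.w_sum]
      linarith [hp x]
    rw [h1]
    have h8 : EL S.w k (fun l => (if Avoid S Q l z then (1 : ℝ) else 0) *
          ∑ a, S.w a * (if InWin Q (S.good a) (trc S l z) then 0 else 1)) ≤
        EL S.w k (fun l => (1 - p) * (if Avoid S Q l z then (1 : ℝ) else 0)) := by
      refine EL_mono H.w_nonneg k fun l _ => ?_
      rw [mul_comm]
      refine mul_le_mul_of_nonneg_right (h6 _) ?_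
      split <;> norm_num
    refine h8.trans ?_
    rw [EL_mul, pow_succ, mul_comm]
    exact mul_le_mul_of_nonneg_right ih (by linarith)

/-- The law of the displacement of a strand. -/
theorem trc_law (H : SlabLaw c h S Q Λ) (k : ℕ) (f : V → ℝ) (z : V) :
    EL S.w k (fun l => f (trc S l z)) = heat c (k * h) f z := by
  induction k generalizing f with
  | zero =>
    unfold EL
    simp [trc, heat_zero]
  | succ k ih =>
    have h2 : EL S.w (k + 1) (fun l => f (trc S l z)) =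
        ∑ a, EL S.w k (fun l => S.w a * f (S.T a (trc S l z))) := by
      show ∑ a, S.w a * EL S.w k (fun l => f (trc S (a :: l) z)) = _
      exact Finset.sum_congr rfl fun a _ => (EL_mul k (S.w a) _).symm
    rw [h2, ← EL_sum Finset.univ k (fun a l => S.w a * f (S.T a (trc S l z)))]
    have h3 : ∀ x, ∑ a, S.w a * f (S.T a x) = heat c h f x := by
      intro x
      rw [H.law_T (fun τ => f (τ x)), sg_one_inv]
    rw [EL_congr k fun l _ => h3 _, ih (heat c h f)]
    have h4 : (((k + 1 : ℕ) : ℝ) * h) = k * h + h := by push_cast; ring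
    rw [h4, heat_add]

end Pool.Agent.Stirring.QK
end

section

/-! Exponential moment over many slabs, for a test function which varies little on every window. -/

open Finset

set_option linter.unusedSectionVars false

namespace Pool.Agent.Stirring.QL

open Pool.Agent.Stirring.QK

variable {V : Type*} [AddCommGroup V] [Fintype V] [DecidableEq V] {Ω : Type*} [Fintype Ω]
variable {c : V × V → ℝ} {h : ℝ} {S : Slab V Ω} {Q Λ : Finset V}

/-- The averaging seen by a function which varies by at most `η` on every window. -/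
theorem avg_lip {G : Finset V} (hG : Dis Q G) {u g : V → ℝ} (hu : ∀ z, 0 ≤ u z) {η : ℝ}
    (hη : ∀ x, ∀ y ∈ Q, ∀ y' ∈ Q, |g (x + y) - g (x + y')| ≤ η) :
    |∑ z, avg Q G u z * g z - ∑ z, u z * g z| ≤
      η * ∑ z, (if InWin Q G z then u z else 0) := by
  rw [avg_symm, ← Finset.sum_sub_distrib, Finset.mul_sum]
  refine (Finset.abs_sum_le_sum_abs _ _).trans (Finset.sum_le_sum fun z _ => ?_)
  by_cases hz : InWin Q G z
  · rw [if_pos hz]
    obtain ⟨q, hq, hzq⟩ := hz
    rw [avg_in hG g hq hzq, ← mul_sub, abs_mul, abs_of_nonneg (hu z), mul_comm]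
    refine mul_le_mul_of_nonneg_right ?_ (hu z)
    have hc : (0 : ℝ) < Q.card := by exact_mod_cast Finset.card_pos.mpr ⟨_, hzq⟩
    have h1 : (∑ y ∈ Q, g (q + y)) / Q.card - g z = (∑ y ∈ Q, (g (q + y) - g z)) / Q.card := by
      rw [Finset.sum_sub_distrib, Finset.sum_const, nsmul_eq_mul]
      field_simp
    rw [h1, abs_div, abs_of_pos hc, div_le_iff₀ hc]
    refine (Finset.abs_sum_le_sum_abs _ _).trans ?_
    calc ∑ y ∈ Q, |g (q + y) - g z| ≤ ∑ _y ∈ Q, η := by
          refine Finset.sum_le_sum fun y hy => ?_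
          have h2 := hη q y hy (z - q) hzq
          rwa [add_sub_cancel] at h2
      _ = η * Q.card := by rw [Finset.sum_const, nsmul_eq_mul, mul_comm]
  · rw [if_neg hz, avg_out g hz, sub_self, abs_zero, mul_zero]

/-- The oscillation of the square. -/
theorem lip_sq {g : V → ℝ} {η m : ℝ} (hg : ∀ x, 0 ≤ g x) (hgm : ∀ x, g x ≤ m)
    (hη : ∀ x, ∀ y ∈ Q, ∀ y' ∈ Q, |g (x + y) - g (x + y')| ≤ η) :
    ∀ x, ∀ y ∈ Q, ∀ y' ∈ Q, |g (x + y) ^ 2 - g (x + y') ^ 2| ≤ 2 * m * η := by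
  intro x y hy y' hy'
  have h1 : g (x + y) ^ 2 - g (x + y') ^ 2 =
      (g (x + y) + g (x + y')) * (g (x + y) - g (x + y')) := by ring
  rw [h1, abs_mul, abs_of_nonneg (add_nonneg (hg _) (hg _))]
  refine mul_le_mul ?_ (hη x y hy y' hy') (abs_nonneg _) ?_
  · linarith [hgm (x + y), hgm (x + y')]
  · linarith [hgm x, hg x]

theorem ite_mono' {G G' : Finset V} (h : G ⊆ G') {u : V → ℝ} (hu : ∀ z, 0 ≤ u z) :
    ∑ z, (if InWin Q G z then u z else 0) ≤ ∑ z, (if InWin Q G' z then u z else 0) := by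
  refine Finset.sum_le_sum fun z _ => ?_
  by_cases h1 : InWin Q G z
  · obtain ⟨q, hq, hz⟩ := h1
    rw [if_pos ⟨q, hq, hz⟩, if_pos ⟨q, h hq, hz⟩]
  · rw [if_neg h1]
    split_ifs
    · exact hu z
    · exact le_rfl

/-- One slab. -/
theorem slab_lip (hc : ∀ p, 0 ≤ c p) (hh : 0 ≤ h) (H : SlabLaw c h S Q Λ) {u : V → ℝ} {U : ℝ}
    (hu : ∀ z, 0 ≤ u z) (huU : ∀ z, u z ≤ U) (hu1 : ∑ z, u z ≤ 1) {g : V → ℝ} {m θ η : ℝ}
    (hg : ∀ x, 0 ≤ g x) (hgm : ∀ x, g x ≤ m) (hθ : 16 * U * |θ| * m ≤ 1) (hη0 : 0 ≤ η)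
    (hη : ∀ x, ∀ y ∈ Q, ∀ y' ∈ Q, |g (x + y) - g (x + y')| ≤ η) (hη1 : 2 * |θ| * η ≤ 1) :
    ∑ a, S.w a * Real.exp (ex U θ g (stp S Q a u)) ≤
      Real.exp (ex U θ (heat c h g) u + 4 * |θ| * η * dens V Q Λ) := by
  have hU : 0 ≤ U := (hu 0).trans (huU 0)
  have hm : 0 ≤ m := (hg 0).trans (hgm 0)
  have hn : (0 : ℝ) < Fintype.card V := by
    have : 0 < Fintype.card V := Fintype.card_pos_iff.mpr ⟨0⟩
    exact_mod_cast this
  set W : Equiv.Perm V → V → ℝ := fun τ s =>
    ∑ z, (if InWin Q (Λ.image (s + ·)) z then u (τ z) else 0) with hW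
  have hW0 : ∀ τ s, 0 ≤ W τ s := fun τ s => inWin_mass_nonneg (Q := Q) _ (fun z => hu (τ z))
  have hW1 : ∀ τ s, W τ s ≤ 1 := by
    intro τ s
    refine (inWin_mass_le (Q := Q) (Λ.image (s + ·)) (fun z => hu (τ z))).trans ?_
    rw [Equiv.sum_comp τ u]
    exact hu1
  -- the windows
  have h1 : ∀ a, Real.exp (ex U θ g (stp S Q a u)) ≤
      Real.exp (expo u θ (2 * U * θ ^ 2) g (S.T a)) *
        Real.exp (2 * |θ| * η * W (S.T a) (S.sh a)) := by
    intro a
    rw [← Real.exp_add, Real.exp_le_exp]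
    unfold ex expo stp
    have h2 := avg_lip (H.allDis a) (u := fun z => u (S.T a z)) (fun z => hu _) hη
    have h3 := avg_lip (H.allDis a) (u := fun z => u (S.T a z)) (fun z => hu _)
      (g := fun z => g z ^ 2) (lip_sq hg hgm hη)
    have h4 := ite_mono' (Q := Q) (H.sub a) (u := fun z => u (S.T a z)) (fun z => hu _)
    have h4' : ∑ z, (if InWin Q (Λ.image (S.sh a + ·)) z then u (S.T a z) else 0) =
      W (S.T a) (S.sh a) := rfl
    rw [h4'] at h4
    have h5' := hW0 (S.T a) (S.sh a)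
    generalize W (S.T a) (S.sh a) = o at h4 h5'
    have hI0 := inWin_mass_nonneg (Q := Q) (S.good a) (v := fun z => u (S.T a z)) (fun z => hu _)
    set I := ∑ z, (if InWin Q (S.good a) z then u (S.T a z) else 0)
    set A := ∑ z, avg Q (S.good a) (fun z => u (S.T a z)) z * g z
    set B := ∑ z, u (S.T a z) * g z
    set A2 := ∑ z, avg Q (S.good a) (fun z => u (S.T a z)) z * g z ^ 2
    set B2 := ∑ z, u (S.T a z) * g z ^ 2
    have h5 : θ * (A - B) ≤ |θ| * (η * o) := by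
      calc θ * (A - B) ≤ |θ * (A - B)| := le_abs_self _
        _ = |θ| * |A - B| := abs_mul _ _
        _ ≤ |θ| * (η * I) := mul_le_mul_of_nonneg_left h2 (abs_nonneg _)
        _ ≤ |θ| * (η * o) := by gcongr
    have h6 : -(A2 - B2) ≤ 2 * m * η * o :=
      (neg_le_abs _).trans (h3.trans (mul_le_mul_of_nonneg_left h4 (by positivity)))
    have h7 : 2 * U * θ ^ 2 * (-(A2 - B2)) ≤ |θ| * (η * o) := by
      have h8 : 2 * U * θ ^ 2 * (-(A2 - B2)) ≤ 2 * U * θ ^ 2 * (2 * m * η * o) :=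
        mul_le_mul_of_nonneg_left h6 (by positivity)
      refine h8.trans ?_
      have h9 : 2 * U * θ ^ 2 * (2 * m * η * o) = (4 * U * |θ| * m) * (|θ| * (η * o)) := by
        rw [← sq_abs θ]; ring
      rw [h9]
      have h10 : 4 * U * |θ| * m ≤ 1 := by
        have : 0 ≤ U * |θ| * m := by positivity
        nlinarith
      have h11 : 0 ≤ |θ| * (η * o) := by positivity
      nlinarith
    nlinarith
  refine (Finset.sum_le_sum fun a _ => mul_le_mul_of_nonneg_left (h1 a) (H.w_nonneg a)).trans ?_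
  rw [H.law (fun τ s => Real.exp (expo u θ (2 * U * θ ^ 2) g τ) *
    Real.exp (2 * |θ| * η * W τ s))]
  set K := Real.exp (4 * |θ| * η * dens V Q Λ) with hK
  have hd0 := dens_nonneg V Q Λ
  have hmean : ∀ τ : Equiv.Perm V, (∑ s, Real.exp (2 * |θ| * η * W τ s)) / (Fintype.card V : ℝ) ≤
      K := by
    intro τ
    by_cases hQ : Q.Nonempty
    · have h2 := mean_inWin hQ H.dis (fun z => u (τ z))
      rw [Equiv.sum_comp τ u] at h2
      have h3 : ∑ s, Real.exp (2 * |θ| * η * W τ s) ≤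
          ∑ s, (1 + 2 * (2 * |θ| * η * W τ s)) := by
        refine Finset.sum_le_sum fun s _ => exp_le_two ?_ ?_
        · exact mul_nonneg (by positivity) (hW0 τ s)
        · have h4 : 0 ≤ 2 * |θ| * η := by positivity
          calc 2 * |θ| * η * W τ s ≤ 2 * |θ| * η * 1 :=
                mul_le_mul_of_nonneg_left (hW1 τ s) h4
            _ ≤ 1 := by linarith
      have h4 : (∑ s, (1 + 2 * (2 * |θ| * η * W τ s))) / (Fintype.card V : ℝ) =
          1 + 4 * |θ| * η * ((∑ s, W τ s) / Fintype.card V) := by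
        rw [Finset.sum_add_distrib, Finset.sum_const, Finset.card_univ, nsmul_eq_mul, mul_one]
        have h5 : ∑ s, 2 * (2 * |θ| * η * W τ s) = 4 * |θ| * η * ∑ s, W τ s := by
          rw [Finset.mul_sum]
          exact Finset.sum_congr rfl fun s _ => by ring
        rw [h5]
        field_simp
      have h6 : (∑ s, W τ s) / (Fintype.card V : ℝ) = dens V Q Λ * ∑ z, u z := h2
      calc (∑ s, Real.exp (2 * |θ| * η * W τ s)) / (Fintype.card V : ℝ) ≤
            (∑ s, (1 + 2 * (2 * |θ| * η * W τ s))) / (Fintype.card V : ℝ) :=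
            div_le_div_of_nonneg_right h3 hn.le
        _ = 1 + 4 * |θ| * η * (dens V Q Λ * ∑ z, u z) := by rw [h4, h6]
        _ ≤ 1 + 4 * |θ| * η * (dens V Q Λ * 1) := by gcongr
        _ ≤ K := by
            have := Real.add_one_le_exp (4 * |θ| * η * dens V Q Λ)
            rw [hK]
            linarith
    · have h2 : ∀ s, W τ s = 0 := fun s =>
        Finset.sum_eq_zero fun z _ => if_neg (not_nonempty_inWin hQ _ z)
      simp only [h2, mul_zero, Real.exp_zero]
      rw [Finset.sum_const, Finset.card_univ, nsmul_eq_mul, mul_one, div_self hn.ne']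
      exact Real.one_le_exp (by positivity)
  have hA : Hier.sg c h (fun τ => Real.exp (expo u θ (2 * U * θ ^ 2) g τ)) 1 ≤
      Real.exp (ex U θ (heat c h g) u) := sg_expo_le hc hu huU hh hg hgm hθ 1
  have hB : Hier.sg c h (fun τ => (∑ s, Real.exp (expo u θ (2 * U * θ ^ 2) g τ) *
      Real.exp (2 * |θ| * η * W τ s)) / (Fintype.card V : ℝ)) 1 ≤
      Hier.sg c h (K • fun τ => Real.exp (expo u θ (2 * U * θ ^ 2) g τ)) 1 := by
    refine Hier.sg_mono_on hc (Hier.stab_univ c) (fun τ _ => ?_) hh 1 (Set.mem_univ _)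
    rw [← Finset.mul_sum, mul_div_assoc, Pi.smul_apply, smul_eq_mul, mul_comm K]
    exact mul_le_mul_of_nonneg_left (hmean τ) (Real.exp_pos _).le
  refine hB.trans ?_
  rw [Hier.sg_smul, Real.exp_add, mul_comm]
  exact mul_le_mul_of_nonneg_right hA (Real.exp_pos _).le

/-- Many slabs. -/
theorem tele_lip (hc : ∀ p, 0 ≤ c p) (hh : 0 ≤ h) (H : SlabLaw c h S Q Λ) {U θ m η : ℝ}
    (g : ℕ → V → ℝ) (hgs : ∀ k, g (k + 1) = heat c h (g k)) (hg : ∀ k x, 0 ≤ g k x)
    (hgm : ∀ k x, g k x ≤ m) (hθ : 16 * U * |θ| * m ≤ 1) (hη0 : 0 ≤ η)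
    (hη : ∀ k x, ∀ y ∈ Q, ∀ y' ∈ Q, |g k (x + y) - g k (x + y')| ≤ η) (hη1 : 2 * |θ| * η ≤ 1)
    (k : ℕ) {u : V → ℝ} (hu : ∀ z, 0 ≤ u z) (huU : ∀ z, u z ≤ U) (hu1 : ∑ z, u z ≤ 1) :
    EL S.w k (fun l => Real.exp (ex U θ (g 0) (fw S Q l u))) ≤
      Real.exp (ex U θ (g k) u + 4 * |θ| * η * dens V Q Λ * k) := by
  induction k generalizing u with
  | zero => simp [EL, fw]
  | succ k ih =>
    unfold EL
    have h1 : ∀ a, EL S.w k (fun l => Real.exp (ex U θ (g 0) (fw S Q (a :: l) u))) ≤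
        Real.exp (ex U θ (g k) (stp S Q a u) + 4 * |θ| * η * dens V Q Λ * k) := fun a =>
      ih (fun z => stp_nonneg H.allDis a hu z) (fun z => stp_le H.allDis a huU z)
        ((fw_sum (S := S) (Q := Q) [a] u).le.trans hu1)
    refine (Finset.sum_le_sum fun a _ => mul_le_mul_of_nonneg_left (h1 a) (H.w_nonneg a)).trans ?_
    simp only [Real.exp_add]
    simp only [← mul_assoc]
    rw [← Finset.sum_mul]
    have h2 := slab_lip hc hh H hu huU hu1 (hg k) (hgm k) hθ hη0 (hη k) hη1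
    refine (mul_le_mul_of_nonneg_right h2 (Real.exp_pos _).le).trans (le_of_eq ?_)
    rw [← Real.exp_add, ← Real.exp_add, hgs k]
    congr 1
    push_cast
    ring

/-- Lower tail. -/
theorem tele_lip_lower (hc : ∀ p, 0 ≤ c p) (hh : 0 ≤ h) (H : SlabLaw c h S Q Λ) {U θ m η : ℝ}
    (g : ℕ → V → ℝ) (hgs : ∀ k, g (k + 1) = heat c h (g k)) (hg : ∀ k x, 0 ≤ g k x)
    (hgm : ∀ k x, g k x ≤ m) (hθ0 : 0 < θ) (hθ : 16 * U * θ * m ≤ 1) (hη0 : 0 ≤ η)
    (hη : ∀ k x, ∀ y ∈ Q, ∀ y' ∈ Q, |g k (x + y) - g k (x + y')| ≤ η) (hη1 : 2 * θ * η ≤ 1)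
    (k : ℕ) {u : V → ℝ} (hu : ∀ z, 0 ≤ u z) (huU : ∀ z, u z ≤ U) (hu1 : ∑ z, u z ≤ 1)
    (lam : ℝ) :
    EL S.w k (fun l => if 2 * ∑ z, fw S Q l u z * g 0 z ≤
      ∑ z, u z * g k z - 4 * η * dens V Q Λ * k - lam / θ then 1 else 0) ≤ Real.exp (-lam) := by
  have hU : 0 ≤ U := (hu 0).trans (huU 0)
  have hab : |(-θ)| = θ := by rw [abs_neg, abs_of_pos hθ0]
  have h1 := tele_lip (θ := -θ) hc hh H g hgs hg hgm (by rw [hab]; exact hθ) hη0 hη
    (by rw [hab]; exact hη1) k hu huU hu1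
  rw [hab] at h1
  have h2 : Real.exp (ex U (-θ) (g k) u + 4 * θ * η * dens V Q Λ * k) ≤
      Real.exp (-(θ * ∑ z, u z * g k z) + θ * (4 * η * dens V Q Λ * k)) := by
    rw [Real.exp_le_exp]
    have := ex_le (θ := -θ) (g := g k) hu hU
    nlinarith
  refine EL_markov H.w_nonneg k (F := fun l => Real.exp (ex U (-θ) (g 0) (fw S Q l u)))
    (fun l => (Real.exp_pos _).le)
    (c := Real.exp (-(θ * ∑ z, u z * g k z) + θ * (4 * η * dens V Q Λ * k) + lam))
    (Real.exp_pos _) ?_ ?_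
  · rw [← Real.exp_add]
    refine (h1.trans h2).trans (le_of_eq ?_)
    congr 1; ring
  · intro l _ hl
    rw [Real.exp_le_exp]
    have h3 := ex_neg_ge (U := U) (θ := θ) (m := m) (g := g 0) (fw_nonneg H.allDis l hu) hU
      (hg 0) (hgm 0) hθ0.le (by rw [abs_of_pos hθ0]; exact hθ)
    refine le_trans ?_ h3
    have h4 := mul_le_mul_of_nonneg_left hl hθ0.le
    have h5 : θ * (∑ z, u z * g k z - 4 * η * dens V Q Λ * k - lam / θ) =
        θ * ∑ z, u z * g k z - θ * (4 * η * dens V Q Λ * k) - lam := by field_simp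
    rw [h5] at h4
    linarith

end Pool.Agent.Stirring.QL
end
end

section

/-! ROW L (helper68): localisation of the annealed walk; boxes; oscillation of heat functions. -/

open Finset

set_option linter.unusedSectionVars false

namespace Pool.Agent.Stirring.QK

variable {V : Type*} [AddCommGroup V] [Fintype V] [DecidableEq V] {Ω : Type*} [Fintype Ω]
variable {c : V × V → ℝ} {h : ℝ} {S : Slab V Ω} {Q Λ : Finset V}

theorem InWin.mono {Q G G' : Finset V} (hG : G ⊆ G') {z : V} (hz : InWin Q G z) :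
    InWin Q G' z := by
  obtain ⟨q, hq, h⟩ := hz
  exact ⟨q, hG hq, h⟩

/-- The average multiplies an exponential function at most by `B`, and only inside windows. -/
theorem avg_growth {Q G : Finset V} (hG : Dis Q G) {f v : V → ℝ} {B : ℝ} (hB1 : 1 ≤ B)
    (hf : ∀ z, 0 ≤ f z) (hB : ∀ q, ∀ y ∈ Q, ∀ y' ∈ Q, f (q + y) ≤ B * f (q + y'))
    (hv : ∀ z, 0 ≤ v z) :
    ∑ z, avg Q G v z * f z ≤
      ∑ z, v z * f z * (1 + (B - 1) * if InWin Q G z then 1 else 0) := by
  -- move the average to `f`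
  rw [avg_symm]
  refine Finset.sum_le_sum fun z _ => ?_
  rw [mul_assoc]
  refine mul_le_mul_of_nonneg_left ?_ (hv z)
  by_cases hz : InWin Q G z
  · rw [if_pos hz]
    obtain ⟨q, hq, hzq⟩ := hz
    rw [avg_in hG f hq hzq]
    have hc : (0 : ℝ) < Q.card := by exact_mod_cast Finset.card_pos.mpr ⟨_, hzq⟩
    rw [div_le_iff₀ hc]
    have h1 : ∀ y ∈ Q, f (q + y) ≤ B * f z := by
      intro y hy
      have h2 := hB q y hy (z - q) hzq
      rwa [add_sub_cancel] at h2
    calc ∑ y ∈ Q, f (q + y) ≤ ∑ _y ∈ Q, B * f z := Finset.sum_le_sum h1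
      _ = f z * (1 + (B - 1) * 1) * Q.card := by
          rw [Finset.sum_const, nsmul_eq_mul]; ring
  · rw [if_neg hz, avg_out f hz]
    linarith

/-- One slab. -/
theorem loc_one (hc : ∀ p, 0 ≤ c p) (H : SlabLaw c h S Q Λ) {f : V → ℝ} {A B : ℝ}
    (hB1 : 1 ≤ B) (hf : ∀ z, 0 ≤ f z) (hA : ∀ z, heat c h f z ≤ A * f z)
    (hB : ∀ q, ∀ y ∈ Q, ∀ y' ∈ Q, f (q + y) ≤ B * f (q + y')) {u : V → ℝ}
    (hu : ∀ z, 0 ≤ u z) :
    ∑ a, S.w a * ∑ z, stp S Q a u z * f z ≤
      A * (1 + dens V Q Λ * (B - 1)) * ∑ z, u z * f z := by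
  have hn : (0 : ℝ) < Fintype.card V := by
    have : 0 < Fintype.card V := Fintype.card_pos_iff.mpr ⟨0⟩
    exact_mod_cast this
  have h1 : ∀ a, ∑ z, stp S Q a u z * f z ≤
      ∑ z, (u (S.T a z) * f z) *
        (1 + (B - 1) * if InWin Q (Λ.image (S.sh a + ·)) z then 1 else 0) := by
    intro a
    refine (avg_growth (H.allDis a) hB1 hf hB (v := fun z => u (S.T a z)) fun z => hu _).trans ?_
    refine Finset.sum_le_sum fun z _ => ?_
    refine mul_le_mul_of_nonneg_left ?_ (mul_nonneg (hu _) (hf z))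
    have h2 : (if InWin Q (S.good a) z then (1 : ℝ) else 0) ≤
        if InWin Q (Λ.image (S.sh a + ·)) z then 1 else 0 := by
      by_cases h3 : InWin Q (S.good a) z
      · rw [if_pos h3, if_pos (h3.mono (H.sub a))]
      · rw [if_neg h3]; split <;> norm_num
    have h3 : 0 ≤ B - 1 := by linarith
    have := mul_le_mul_of_nonneg_left h2 h3
    linarith
  refine (Finset.sum_le_sum fun a _ => mul_le_mul_of_nonneg_left (h1 a) (H.w_nonneg a)).trans ?_
  simp only [Finset.mul_sum]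
  rw [Finset.sum_comm]
  have h2 : ∀ z, ∑ a, S.w a * ((u (S.T a z) * f z) *
      (1 + (B - 1) * if InWin Q (Λ.image (S.sh a + ·)) z then 1 else 0)) =
      Hier.sg c h (fun τ => u (τ z) * f z) 1 * (1 + dens V Q Λ * (B - 1)) := by
    intro z
    rw [H.law_mul (fun τ => u (τ z) * f z)
      (fun s => 1 + (B - 1) * if InWin Q (Λ.image (s + ·)) z then 1 else 0)]
    congr 1
    rw [Finset.sum_add_distrib, ← Finset.mul_sum]
    have h3 : ∑ s, (if InWin Q (Λ.image (s + ·)) z then (1 : ℝ) else 0) = Λ.card * Q.card := by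
      rcases Q.eq_empty_or_nonempty with hQ | hQ
      · rw [hQ]
        simp [InWin]
      · exact sum_inWin hQ H.dis z
    rw [h3, Finset.sum_const, Finset.card_univ, nsmul_eq_mul, mul_one]
    unfold dens
    field_simp
  simp only [← Finset.mul_sum] at *
  rw [Finset.sum_congr rfl fun z _ => h2 z, ← Finset.sum_mul]
  have h3 : ∑ z, Hier.sg c h (fun τ => u (τ z) * f z) 1 = ∑ x, u x * heat c h f x := by
    have h4 : ∑ z, Hier.sg c h (fun τ => u (τ z) * f z) 1 =
        Hier.sg c h (∑ z, fun τ : Equiv.Perm V => u (τ z) * f z) 1 := by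
      rw [map_sum, Finset.sum_apply]
    have h5 : (∑ z, fun τ : Equiv.Perm V => u (τ z) * f z) =
        ∑ x, u x • fun τ : Equiv.Perm V => f (τ.symm x) := by
      funext τ
      rw [Finset.sum_apply, Finset.sum_apply]
      simp only [Pi.smul_apply, smul_eq_mul]
      rw [← Equiv.sum_comp τ (fun x => u x * f (τ.symm x))]
      refine Finset.sum_congr rfl fun z _ => ?_
      rw [Equiv.symm_apply_apply]
    rw [h4, h5, map_sum, Finset.sum_apply]
    refine Finset.sum_congr rfl fun x _ => ?_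
    rw [Hier.sg_smul, sg_one]
  rw [h3]
  have hd : 0 ≤ 1 + dens V Q Λ * (B - 1) := by
    have h4 : 0 ≤ dens V Q Λ := by unfold dens; positivity
    have h5 : 0 ≤ B - 1 := by linarith
    positivity
  have h4 : ∑ x, u x * heat c h f x ≤ A * ∑ x, u x * f x := by
    rw [Finset.mul_sum]
    refine Finset.sum_le_sum fun x _ => ?_
    have := mul_le_mul_of_nonneg_left (hA x) (hu x)
    linarith
  calc (∑ x, u x * heat c h f x) * (1 + dens V Q Λ * (B - 1)) ≤
        (A * ∑ x, u x * f x) * (1 + dens V Q Λ * (B - 1)) := mul_le_mul_of_nonneg_right h4 hd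
    _ = _ := by ring

/-- Growth of an exponential function along the annealed walk. -/
theorem loc_exp (hc : ∀ p, 0 ≤ c p) (hh : 0 ≤ h) (H : SlabLaw c h S Q Λ) {f : V → ℝ} {A B : ℝ}
    (hA0 : 0 ≤ A) (hB1 : 1 ≤ B) (hf : ∀ z, 0 ≤ f z) (hA : ∀ z, heat c h f z ≤ A * f z)
    (hB : ∀ q, ∀ y ∈ Q, ∀ y' ∈ Q, f (q + y) ≤ B * f (q + y')) (k : ℕ) {u : V → ℝ}
    (hu : ∀ z, 0 ≤ u z) :
    EL S.w k (fun l => ∑ z, fw S Q l u z * f z) ≤
      (A * (1 + dens V Q Λ * (B - 1))) ^ k * ∑ z, u z * f z := by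
  have hK : 0 ≤ A * (1 + dens V Q Λ * (B - 1)) := by
    have h4 : 0 ≤ dens V Q Λ := by unfold dens; positivity
    have h5 : 0 ≤ B - 1 := by linarith
    positivity
  induction k generalizing u with
  | zero => simp [EL, fw]
  | succ k ih =>
    unfold EL
    have h1 : ∀ a, EL S.w k (fun l => ∑ z, fw S Q (a :: l) u z * f z) ≤
        (A * (1 + dens V Q Λ * (B - 1))) ^ k * ∑ z, stp S Q a u z * f z := fun a =>
      ih fun z => stp_nonneg H.allDis a hu z
    refine (Finset.sum_le_sum fun a _ => mul_le_mul_of_nonneg_left (h1 a) (H.w_nonneg a)).trans ?_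
    have h2 := loc_one hc H hB1 hf hA hB hu
    calc ∑ a, S.w a * ((A * (1 + dens V Q Λ * (B - 1))) ^ k * ∑ z, stp S Q a u z * f z) =
          (A * (1 + dens V Q Λ * (B - 1))) ^ k * ∑ a, S.w a * ∑ z, stp S Q a u z * f z := by
          rw [Finset.mul_sum]
          exact Finset.sum_congr rfl fun a _ => by ring
      _ ≤ (A * (1 + dens V Q Λ * (B - 1))) ^ k *
          (A * (1 + dens V Q Λ * (B - 1)) * ∑ z, u z * f z) :=
          mul_le_mul_of_nonneg_left h2 (pow_nonneg hK k)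
      _ = _ := by rw [pow_succ]; ring

section Torus

variable {d L : ℕ} [NeZero L]

/-- The box of side `b`. -/
def box (d L b : ℕ) : Finset (Fin d → ZMod L) :=
  (Finset.univ : Finset (Fin d → Fin b)).image fun j i => ((j i : ℕ) : ZMod L)

theorem card_box {d L b : ℕ} [NeZero L] (hb : b ≤ L) : (box d L b).card = b ^ d := by
  unfold box
  rw [Finset.card_image_of_injective, Finset.card_univ, Fintype.card_fun, Fintype.card_fin,
    Fintype.card_fin]
  intro j j' hjj
  funext i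
  have h1 := congrFun hjj i
  have h2 : ((j i : ℕ) : ZMod L).val = ((j' i : ℕ) : ZMod L).val := by
    simp only at h1
    rw [h1]
  rw [ZMod.val_natCast, ZMod.val_natCast, Nat.mod_eq_of_lt ((j i).2.trans_le hb),
    Nat.mod_eq_of_lt ((j' i).2.trans_le hb)] at h2
  exact Fin.ext h2

/-- The exponential test function. -/
noncomputable def chf (α : ℝ) (x : Fin d → ZMod L) : (Fin d → ZMod L) → ℝ := fun y =>
  ∑ i, Real.cosh (α * ((y i - x i).valMinAbs.natAbs : ℝ))

theorem chf_self (α : ℝ) (x : Fin d → ZMod L) : chf α x x = d := by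
  unfold chf
  simp

theorem chf_ge {α R : ℝ} (hα : 0 ≤ α) (hR : 0 ≤ R) (x y : Fin d → ZMod L)
    (h : R ≤ (nrm (y - x) : ℝ)) : Real.exp (α * R) / 2 ≤ chf α x y ∨ d = 0 := by
  rcases Nat.eq_zero_or_pos d with hd | hd
  · exact Or.inr hd
  left
  have hne : (Finset.univ : Finset (Fin d)).Nonempty := ⟨⟨0, hd⟩, Finset.mem_univ _⟩
  obtain ⟨i, _, hi⟩ := Finset.exists_mem_eq_sup Finset.univ hne
    (fun i => ((y - x) i).valMinAbs.natAbs)
  have h1 : R ≤ ((y i - x i).valMinAbs.natAbs : ℝ) := by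
    have h2 : nrm (y - x) = (y i - x i).valMinAbs.natAbs := hi
    rwa [h2] at h
  unfold chf
  refine le_trans ?_ (Finset.single_le_sum (f := fun i =>
    Real.cosh (α * ((y i - x i).valMinAbs.natAbs : ℝ))) (fun j _ => (Real.cosh_pos _).le)
    (Finset.mem_univ i))
  show Real.exp (α * R) / 2 ≤ Real.cosh (α * ((y i - x i).valMinAbs.natAbs : ℝ))
  rw [Real.cosh_eq]
  have h3 : Real.exp (α * R) ≤ Real.exp (α * ((y i - x i).valMinAbs.natAbs : ℝ)) :=
    Real.exp_le_exp.mpr (mul_le_mul_of_nonneg_left h1 hα)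
  have h4 := Real.exp_pos (-(α * ((y i - x i).valMinAbs.natAbs : ℝ)))
  linarith

theorem valMinAbs_le_of_eq {n : ℕ} [NeZero n] (z : ZMod n) (m : ℤ) (h : z = (m : ZMod n)) :
    z.valMinAbs.natAbs ≤ m.natAbs :=
  ZMod.natAbs_min_of_le_div_two n z.valMinAbs m (by rw [ZMod.coe_valMinAbs, h])
    (ZMod.natAbs_valMinAbs_le z)

theorem cosh_add_le {a b : ℝ} (hb : 0 ≤ b) : Real.cosh (a + b) ≤ Real.exp b * Real.cosh a := by
  rw [Real.cosh_add, ← Real.cosh_add_sinh b]
  have h1 : Real.sinh a ≤ Real.cosh a := (Real.sinh_lt_cosh a).le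
  have h2 : 0 ≤ Real.sinh b := Real.sinh_nonneg_iff.mpr hb
  nlinarith

theorem cosh_mono_nonneg {a b : ℝ} (ha : 0 ≤ a) (hab : a ≤ b) : Real.cosh a ≤ Real.cosh b := by
  rw [Real.cosh_le_cosh, abs_of_nonneg ha, abs_of_nonneg (ha.trans hab)]
  exact hab

/-- The windows are small. -/
theorem chf_box {α : ℝ} (hα : 0 ≤ α) (b : ℕ) (x : Fin d → ZMod L) (q : Fin d → ZMod L) :
    ∀ y ∈ box d L b, ∀ y' ∈ box d L b, chf α x (q + y) ≤ Real.exp (α * b) * chf α x (q + y') := by
  intro y hy y' hy'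
  unfold box at hy hy'
  rw [Finset.mem_image] at hy hy'
  obtain ⟨j, _, rfl⟩ := hy
  obtain ⟨j', _, rfl⟩ := hy'
  unfold chf
  rw [Finset.mul_sum]
  refine Finset.sum_le_sum fun i _ => ?_
  simp only [Pi.add_apply]
  set m : ℤ := (q i + ((j' i : ℕ) : ZMod L) - x i).valMinAbs with hm
  have h1 : (q i + ((j i : ℕ) : ZMod L) - x i).valMinAbs.natAbs ≤ m.natAbs + b := by
    have h2 := valMinAbs_le_of_eq (q i + ((j i : ℕ) : ZMod L) - x i)
      (m + ((j i : ℕ) - (j' i : ℕ) : ℤ)) (by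
        push_cast
        rw [hm, ZMod.coe_valMinAbs]
        ring)
    refine h2.trans ?_
    have h3 := (j i).2
    have h4 := (j' i).2
    omega
  have h2 : α * ((q i + ((j i : ℕ) : ZMod L) - x i).valMinAbs.natAbs : ℝ) ≤
      α * (m.natAbs : ℝ) + α * b := by
    rw [← mul_add]
    refine mul_le_mul_of_nonneg_left ?_ hα
    exact_mod_cast h1
  refine (cosh_mono_nonneg (by positivity) h2).trans ?_
  exact cosh_add_le (by positivity)

theorem cosh_natAbs_le {α : ℝ} (hα : 0 ≤ α) {n : ℕ} [NeZero n] (z : ZMod n) (m : ℤ)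
    (h : z = (m : ZMod n)) :
    Real.cosh (α * (z.valMinAbs.natAbs : ℝ)) ≤ Real.cosh (α * (m : ℝ)) := by
  have h1 := valMinAbs_le_of_eq z m h
  rw [Real.cosh_le_cosh, abs_mul, abs_mul]
  refine mul_le_mul_of_nonneg_left ?_ (abs_nonneg α)
  have h2 : |((z.valMinAbs.natAbs : ℕ) : ℝ)| = (z.valMinAbs.natAbs : ℝ) :=
    abs_of_nonneg (Nat.cast_nonneg _)
  have h3 : |(m : ℝ)| = (m.natAbs : ℝ) := by
    rw [Nat.cast_natAbs, Int.cast_abs]
  rw [h2, h3]
  exact_mod_cast h1

theorem chf_abs (α : ℝ) (x : Fin d → ZMod L) : chf |α| x = chf α x := by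
  funext y
  unfold chf
  refine Finset.sum_congr rfl fun i _ => ?_
  rw [← Real.cosh_abs (α * _), abs_mul, ← Real.cosh_abs (|α| * _), abs_mul, abs_abs]

/-- The exponential function is a supersolution. -/
theorem lap_chf (hL : 2 ≤ L) (α : ℝ) (x y : Fin d → ZMod L) :
    lap (tr d L) (chf α x) y ≤ 2 * (Real.cosh α - 1) * chf α x y := by
  wlog hα : 0 ≤ α generalizing α
  · have h1 := this |α| (abs_nonneg α)
    rwa [chf_abs, Real.cosh_abs] at h1
  rw [lap_tr hL]
  have key : ∀ i, chf α x (y + Pi.single i 1) + chf α x (y - Pi.single i 1) - 2 * chf α x y ≤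
      2 * (Real.cosh α - 1) * Real.cosh (α * ((y i - x i).valMinAbs.natAbs : ℝ)) := by
    intro i
    unfold chf
    rw [Finset.mul_sum, ← Finset.sum_add_distrib, ← Finset.sum_sub_distrib]
    rw [Finset.sum_eq_single i]
    · simp only [Pi.add_apply, Pi.sub_apply, Pi.single_eq_same]
      set m : ℤ := (y i - x i).valMinAbs with hm
      have hm2 : ((m : ℤ) : ZMod L) = y i - x i := by rw [hm, ZMod.coe_valMinAbs]
      have h1 := cosh_natAbs_le hα (y i + 1 - x i) (m + 1) (by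
        push_cast; rw [hm2]; ring)
      have h2 := cosh_natAbs_le hα (y i - 1 - x i) (m - 1) (by
        push_cast; rw [hm2]; ring)
      have h3 : Real.cosh (α * (m.natAbs : ℝ)) = Real.cosh (α * (m : ℝ)) := by
        have h4 : (m.natAbs : ℝ) = |(m : ℝ)| := by rw [Nat.cast_natAbs, Int.cast_abs]
        rw [h4, ← Real.cosh_abs (α * (m : ℝ)), abs_mul, abs_of_nonneg hα]
      rw [h3]
      push_cast at h1 h2
      have h5 : α * ((m : ℝ) + 1) = α * m + α := by ring
      have h6 : α * ((m : ℝ) - 1) = α * m - α := by ring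
      rw [h5, Real.cosh_add] at h1
      rw [h6, Real.cosh_sub] at h2
      linarith
    · intro k _ hk
      simp only [Pi.add_apply, Pi.sub_apply, Pi.single_eq_of_ne hk, add_zero, sub_zero]
      ring
    · intro h; exact absurd (Finset.mem_univ _) h
  calc ∑ i, (chf α x (y + Pi.single i 1) + chf α x (y - Pi.single i 1) - 2 * chf α x y) ≤
        ∑ i, 2 * (Real.cosh α - 1) * Real.cosh (α * ((y i - x i).valMinAbs.natAbs : ℝ)) :=
        Finset.sum_le_sum fun i _ => key i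
    _ = _ := by rw [← Finset.mul_sum]; rfl

/-- The exponential function is a supersolution (helper11's H4 contains this; if not, prove
`lap (tr d L) (chf α x) ≤ 2 (cosh α - 1) chf α x` and Gronwall). -/
theorem chf_heat (hL : 2 ≤ L) {α s : ℝ} (hs : 0 ≤ s) (x y : Fin d → ZMod L) :
    heat (tr d L) s (chf α x) y ≤ Real.exp (2 * s * (Real.cosh α - 1)) * chf α x y := by
  have h1 := Hier.gron_upper_Icc (u := fun r => heat (tr d L) r (chf α x) y)
    (u' := fun r => lap (tr d L) (heat (tr d L) r (chf α x)) y) (b := 2 * (Real.cosh α - 1))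
    (κ := 0) (T := s) (by
      have := Real.one_le_cosh α
      linarith) le_rfl hs (fun r _ => heat_hasDerivAt (tr d L) (chf α x) r y) (by
      intro r hr
      rw [← heat_comm, add_zero]
      have h2 := heat_mono (fun p => tr_nonneg p) hr.1 (G := lap (tr d L) (chf α x))
        (G' := (2 * (Real.cosh α - 1)) • chf α x) (fun z => by
          rw [Pi.smul_apply, smul_eq_mul]
          exact lap_chf hL α x z) y
      rwa [map_smul, Pi.smul_apply, smul_eq_mul] at h2)
  simp only [heat_zero, zero_mul, add_zero] at h1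
  refine h1.trans (le_of_eq ?_)
  congr 2
  ring

/-- The total oscillation along a translation. -/
theorem dsp_add {W : Type*} [AddCommGroup W] [Fintype W] (F : W → ℝ) (v w : W) :
    ∑ q, |F (q + (v + w)) - F q| ≤ ∑ q, |F (q + v) - F q| + ∑ q, |F (q + w) - F q| := by
  have h1 : ∑ q, |F (q + w) - F q| = ∑ q, |F (q + v + w) - F (q + v)| :=
    (Equiv.sum_comp (Equiv.addRight v) (fun q => |F (q + w) - F q|)).symm
  rw [h1, ← Finset.sum_add_distrib]
  refine Finset.sum_le_sum fun q _ => ?_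
  rw [← add_assoc]
  calc |F (q + v + w) - F q| = |(F (q + v) - F q) + (F (q + v + w) - F (q + v))| := by
        congr 1; ring
    _ ≤ _ := abs_add_le _ _

theorem dsp_nsmul {W : Type*} [AddCommGroup W] [Fintype W] (F : W → ℝ) (v : W) (n : ℕ) :
    ∑ q, |F (q + n • v) - F q| ≤ n * ∑ q, |F (q + v) - F q| := by
  induction n with
  | zero => simp
  | succ n ih =>
    rw [succ_nsmul]
    refine (dsp_add F _ _).trans ?_
    push_cast
    linarith

theorem dsp_sum {W ι : Type*} [AddCommGroup W] [Fintype W] (F : W → ℝ) (s : Finset ι)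
    (v : ι → W) :
    ∑ q, |F (q + ∑ i ∈ s, v i) - F q| ≤ ∑ i ∈ s, ∑ q, |F (q + v i) - F q| := by
  classical
  induction s using Finset.induction_on with
  | empty => simp
  | insert i s hi ih =>
    rw [Finset.sum_insert hi, Finset.sum_insert hi]
    refine (dsp_add F _ _).trans ?_
    linarith

/-- The `L¹` gradient of a heat function. -/
theorem heat_dsp (hL : 2 ≤ L) {s : ℝ} (hs : 0 < s) (g : (Fin d → ZMod L) → ℝ) (i : Fin d) :
    ∑ q, |heat (tr d L) s g (q + Pi.single i 1) - heat (tr d L) s g q| ≤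
      (1 / Real.sqrt s) * ∑ x, |g x| := by
  have h1 : ∀ q, |heat (tr d L) s g (q + Pi.single i 1) - heat (tr d L) s g q| ≤
      ∑ y, |hk d L s y (q + Pi.single i 1) - hk d L s y q| * |g y| := by
    intro q
    rw [heat_eq_sum, heat_eq_sum, ← Finset.sum_sub_distrib]
    refine (Finset.abs_sum_le_sum_abs _ _).trans ?_
    refine Finset.sum_le_sum fun y _ => ?_
    rw [← sub_mul, abs_mul, hk_symm s (q + Pi.single i 1) y, hk_symm s q y]
  refine (Finset.sum_le_sum fun q _ => h1 q).trans ?_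
  rw [Finset.sum_comm, Finset.mul_sum]
  refine Finset.sum_le_sum fun y _ => ?_
  rw [← Finset.sum_mul]
  exact mul_le_mul_of_nonneg_right (hk_grad hL hs y i) (abs_nonneg _)

/-- Oscillation of a heat function over boxes (from the L1 gradient bound of `hk`). -/
theorem osc_heat (hL : 2 ≤ L) (b : ℕ) (hb : b ≤ L) {s : ℝ} (hs : 0 < s)
    (g : (Fin d → ZMod L) → ℝ) :
    osc (box d L b) (heat (tr d L) s g) ≤
      (b : ℝ) ^ d * (d * b) * (1 / Real.sqrt s) * ∑ x, |g x| := by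
  set M : ℝ := (1 / Real.sqrt s) * ∑ x, |g x| with hM
  have hM0 : 0 ≤ M := by positivity
  have h1 : ∀ z ∈ box d L b, ∑ q, |heat (tr d L) s g (q + z) - heat (tr d L) s g q| ≤
      (d * b) * M := by
    intro z hz
    unfold box at hz
    rw [Finset.mem_image] at hz
    obtain ⟨j, _, rfl⟩ := hz
    have h2 : (fun i => ((j i : ℕ) : ZMod L)) =
        ∑ i, (j i : ℕ) • (Pi.single i (1 : ZMod L) : Fin d → ZMod L) := by
      funext k
      rw [Finset.sum_apply, Finset.sum_eq_single k]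
      · simp
      · intro b _ hb; simp [Pi.single_eq_of_ne hb.symm]
      · intro h; exact absurd (Finset.mem_univ _) h
    rw [h2]
    refine (dsp_sum _ _ _).trans ?_
    calc ∑ i, ∑ q, |heat (tr d L) s g (q + (j i : ℕ) • Pi.single i 1) - heat (tr d L) s g q| ≤
          ∑ _i : Fin d, (b : ℝ) * M := by
          refine Finset.sum_le_sum fun i _ => ?_
          refine (dsp_nsmul _ _ _).trans ?_
          refine mul_le_mul ?_ (heat_dsp hL hs g i) (by positivity) (Nat.cast_nonneg _)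
          exact_mod_cast (j i).2.le
      _ = (d * b) * M := by
          rw [Finset.sum_const, Finset.card_univ, Fintype.card_fin, nsmul_eq_mul]; ring
  unfold osc
  refine (Finset.sum_le_sum h1).trans ?_
  rw [Finset.sum_const, card_box hb, nsmul_eq_mul]
  push_cast
  rw [hM]
  exact le_of_eq (by ring)

end Torus

end Pool.Agent.Stirring.QK
end
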