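import Pool.Agent.Lib.MP_6c3d62_pr.PL.NP1
import Pool.Agent.Lib.MP_6c3d62_pr.Mg.G052
import Pool.Agent.Lib.MP_6c3d62_pr.PL.Del
import Pool.Agent.Lib.MP_6c3d62_pr.Mg.G053

section

/-! One node, without loops: the supermartingale. -/

set_option autoImplicit false
set_option linter.unusedSectionVars false

open Finset

namespace Pool.Agent.PL

open Pool.Agent.PL.SD (StepData wf_step dsum_lin exp_le_quad exp_sub_one_le psi le_psi
  psi_nonneg psi_zero wf Xf Gf Lf Pf Xf_step two_le_Xf Gf_nonneg Lf_nonneg one_le_Pf Pf_le)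

theorem np_exp_sum {Q : Type*} {A : Finset Q} {α β : Q → ℝ} {X R r κ τ : ℝ} {R' X' : Q → Q → ℝ}
    {Λ ϱ : ℝ} (D : StepData A α β X R r κ τ R' X') (hΛ : 0 ≤ Λ) (hr : A.card * r ≤ ϱ)
    (hω : 4 * (Λ * τ ^ 2) ≤ 1) (hm : 32 ≤ A.card) :
    ∑ a ∈ A, ∑ b ∈ A, Real.exp (Λ * (R' a b - R)) ≤
      (A.card : ℝ) ^ 2 * (1 + 4 * (Λ * τ ^ 2) * r + 4 * (2 + ϱ ^ 2 / 4) * (Λ * τ ^ 2) ^ 2) := by
  have hτ := D.τ0
  have hX := D.X_nonneg
  have hr0 := D.r0
  have hm32 : (32 : ℝ) ≤ (A.card : ℝ) := by exact_mod_cast hm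
  have q3 := D.sum_R'
  have q4 := D.sum_R'2
  have q5 := D.X_le
  have q6 : ∀ a ∈ A, ∀ b ∈ A, |R' a b - R| ≤ 4 * τ ^ 2 := fun a ha b hb => D.abs_R' ha hb
  set m : ℝ := (A.card : ℝ) with hmdef
  set c2 := 2 + ϱ ^ 2 / 4 with hc2
  set ω := Λ * τ ^ 2 with hωd
  have hm0 : 0 < m := by linarith
  have hω0 : 0 ≤ ω := by positivity
  have hc20 : 0 ≤ c2 := by positivity
  have hq : 2 * X ^ 2 + 8 * r ^ 2 * (m * X ^ 2) ≤ c2 * X ^ 2 := by
    have e1 : 8 * r ^ 2 * m ≤ ϱ ^ 2 / 4 := by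
      have e2 : (m * r) ^ 2 ≤ ϱ ^ 2 := pow_le_pow_left₀ (by positivity) hr 2
      have e3 : 32 * (r ^ 2 * m) ≤ m * (r ^ 2 * m) :=
        mul_le_mul_of_nonneg_right hm32 (by positivity)
      nlinarith
    rw [hc2]; nlinarith [sq_nonneg X]
  have q4' : ∑ a ∈ A, ∑ b ∈ A, (R' a b - R) ^ 2 ≤ c2 * X ^ 2 := q4.trans hq
  have e1 : ∑ a ∈ A, ∑ b ∈ A, Real.exp (Λ * (R' a b - R)) ≤
      ∑ a ∈ A, ∑ b ∈ A, (1 + 0 + Λ * (R' a b - R) + Λ ^ 2 * (R' a b - R) ^ 2) := by
    refine sum_le_sum fun a ha => sum_le_sum fun b hb => ?_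
    have e3 : |Λ * (R' a b - R)| ≤ 1 := by
      rw [abs_mul, abs_of_nonneg hΛ]
      calc Λ * |R' a b - R| ≤ Λ * (4 * τ ^ 2) :=
            mul_le_mul_of_nonneg_left (q6 a ha b hb) hΛ
        _ = 4 * ω := by rw [hωd]; ring
        _ ≤ 1 := hω
    refine (exp_le_quad e3).trans (le_of_eq ?_)
    ring
  rw [dsum_lin A 1 Λ (Λ ^ 2) (fun _ _ => 0)
    (fun a b => R' a b - R) (fun a b => (R' a b - R) ^ 2)] at e1
  simp only [sum_const_zero, add_zero] at e1
  refine e1.trans ?_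
  have e2 : Λ * ∑ a ∈ A, ∑ b ∈ A, (R' a b - R) ≤ m ^ 2 * (4 * ω * r) := by
    calc Λ * ∑ a ∈ A, ∑ b ∈ A, (R' a b - R)
        ≤ Λ * (2 * r * (m * X)) := mul_le_mul_of_nonneg_left q3 hΛ
      _ ≤ Λ * (2 * r * (m * (2 * m * τ ^ 2))) := by gcongr
      _ = m ^ 2 * (4 * ω * r) := by rw [hωd]; ring
  have e3 : Λ ^ 2 * ∑ a ∈ A, ∑ b ∈ A, (R' a b - R) ^ 2 ≤ m ^ 2 * (4 * c2 * ω ^ 2) := by
    calc Λ ^ 2 * ∑ a ∈ A, ∑ b ∈ A, (R' a b - R) ^ 2
        ≤ Λ ^ 2 * (c2 * X ^ 2) := mul_le_mul_of_nonneg_left q4' (by positivity)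
      _ ≤ Λ ^ 2 * (c2 * (2 * m * τ ^ 2) ^ 2) := by gcongr
      _ = m ^ 2 * (4 * c2 * ω ^ 2) := by rw [hωd]; ring
  linarith

variable {Y : Type*} [Fintype Y] [DecidableEq Y] {a : Net Y} {A : Finset Y} {x : Y} {m : ℕ}
  {τ : ℝ}

/-- The exponential of a resistance in one step. -/
theorem np_exp_av (h : Cls a A x m τ) (hm : 33 ≤ m) (hτ : 0 ≤ τ) (hτ1 : τ ≤ 1 / 64)
    {T : ℝ} (hT : τ * m ≤ T) {u v : Y} (hu : u ∈ A.erase x) (hv : v ∈ A.erase x) {Λ : ℝ}
    (hΛ : 0 ≤ Λ) (hω : 4 * (Λ * τ ^ 2) ≤ 1) (c : ℝ) :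
    av a x m (fun p q => Xf (Λ * τ ^ 2) (2 + 3 * T) (2 + (2 + 3 * T) ^ 2 / 4) ((m : ℝ) - 1) *
      Real.exp (Λ * (res (step a x p q) u v - c))) ≤
      Xf (Λ * τ ^ 2) (2 + 3 * T) (2 + (2 + 3 * T) ^ 2 / 4) m *
        Real.exp (Λ * (res a u v - c)) := by
  obtain ⟨p, hp1, hp⟩ := np_enum (fun u => a u x) h.inn
  obtain ⟨q, hq1, hq⟩ := np_enum (fun u => a x u) h.out
  have D := np_stepData h hm hτ hτ1 hT hu hv hp1 hq1 hp hq
  have hT0 : 0 ≤ T := le_trans (by positivity) hT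
  have hr := npr_mul hτ hm hT
  have h33 : (33 : ℝ) ≤ m := by exact_mod_cast hm
  have hm0 : (0 : ℝ) < m := by linarith
  have e1 := np_exp_sum (Λ := Λ) (ϱ := 2 + 3 * T) D hΛ (by simpa using hr) hω
    (by simp; omega)
  have e2 := Xf_step (ω := Λ * τ ^ 2) (ϱ := 2 + 3 * T) (c2 := 2 + (2 + 3 * T) ^ 2 / 4)
    (by positivity) (by positivity) (by linarith : (2 : ℝ) ≤ m) hr
  rw [np_av hp hq, div_le_iff₀ (by positivity)]
  have hX0 : 0 < Xf (Λ * τ ^ 2) (2 + 3 * T) (2 + (2 + 3 * T) ^ 2 / 4) ((m : ℝ) - 1) := by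
    unfold Xf; positivity
  set W := Xf (Λ * τ ^ 2) (2 + 3 * T) (2 + (2 + 3 * T) ^ 2 / 4) ((m : ℝ) - 1)
  set W' := Xf (Λ * τ ^ 2) (2 + 3 * T) (2 + (2 + 3 * T) ^ 2 / 4) (m : ℝ)
  have e3 : ∑ i : Fin m, ∑ j : Fin m, W * Real.exp (Λ * (res (step a x (p i) (q j)) u v - c)) =
      W * Real.exp (Λ * (res a u v - c)) *
        ∑ i : Fin m, ∑ j : Fin m, Real.exp (Λ * (res (step a x (p i) (q j)) u v - res a u v)) := by
    simp only [mul_sum]
    refine sum_congr rfl fun i _ => sum_congr rfl fun j _ => ?_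
    rw [mul_assoc, ← Real.exp_add]
    congr 2; ring
  rw [e3]
  simp only [card_univ, Fintype.card_fin] at e1
  calc W * Real.exp (Λ * (res a u v - c)) *
        ∑ i : Fin m, ∑ j : Fin m, Real.exp (Λ * (res (step a x (p i) (q j)) u v - res a u v))
      ≤ W * Real.exp (Λ * (res a u v - c)) * ((m : ℝ) ^ 2 * (1 + 4 * (Λ * τ ^ 2) * npr τ m +
          4 * (2 + (2 + 3 * T) ^ 2 / 4) * (Λ * τ ^ 2) ^ 2)) :=
        mul_le_mul_of_nonneg_left e1 (by positivity)
    _ = Real.exp (Λ * (res a u v - c)) * (m : ℝ) ^ 2 * ((1 + 4 * (Λ * τ ^ 2) * npr τ m +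
          4 * (2 + (2 + 3 * T) ^ 2 / 4) * (Λ * τ ^ 2) ^ 2) * W) := by ring
    _ ≤ Real.exp (Λ * (res a u v - c)) * (m : ℝ) ^ 2 * W' :=
        mul_le_mul_of_nonneg_left e2 (by positivity)
    _ = _ := by ring

/-- The bounding function in one step. -/
theorem np_wf_av (h : Cls a A x m τ) (hm : 33 ≤ m) (hτ : 0 ≤ τ) (hτ1 : τ ≤ 1 / 64)
    {T : ℝ} (hT : τ * m ≤ T) {u v : Y} (hu : u ∈ A.erase x) (hv : v ∈ A.erase x)
    {lam θ σ l0 : ℝ} (hlam : 0 ≤ lam) (hθ : 0 ≤ θ) (hσ : 0 < σ) (hl : 0 ≤ l0)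
    (hω : 4 * ((1 + θ) * lam * τ ^ 2) ≤ 1) (c : ℝ) :
    av a x m (fun p q => wf lam θ σ τ (2 + 3 * T) l0 ((m : ℝ) - 1)
      (lam * (res (step a x p q) u v - c)) (exr (step a x p q) x u v)) ≤
      wf lam θ σ τ (2 + 3 * T) l0 m (lam * (res a u v - c)) (exr a x u v) := by
  obtain ⟨p, hp1, hp⟩ := np_enum (fun u => a u x) h.inn
  obtain ⟨q, hq1, hq⟩ := np_enum (fun u => a x u) h.out
  have D := np_stepData h hm hτ hτ1 hT hu hv hp1 hq1 hp hq
  have hT0 : 0 ≤ T := le_trans (by positivity) hT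
  have hr := npr_mul hτ hm hT
  have h33 : (33 : ℝ) ≤ m := by exact_mod_cast hm
  have hm0 : (0 : ℝ) < m := by linarith
  have e1 := wf_step (lam := lam) (θ := θ) (σ := σ) (ϱ := 2 + 3 * T) (l0 := l0) D hlam hθ hσ hτ1
    (by linarith) (by simpa using hr) hl hω (by simp; omega) (lam * (res a u v - c))
  simp only [card_univ, Fintype.card_fin] at e1
  rw [np_av hp hq, div_le_iff₀ (by positivity)]
  refine le_trans (le_of_eq ?_) (e1.trans (le_of_eq (mul_comm _ _)))
  refine sum_congr rfl fun i _ => sum_congr rfl fun j _ => ?_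
  congr 1; ring

/-- Maximum principle: the energy at `x`. -/
theorem np_exr_le (h : Cls a A x m τ) (hm : 1 ≤ m) (hτ : 0 ≤ τ) {y z : Y}
    (hy : y ∈ A.erase x) (hz : z ∈ A.erase x) : exr a x y z ≤ 2 * m * τ ^ 2 := by
  have hyz := h.res y hy z hz
  have hg := isPot_pot hyz
  have hrange : ∀ u ∈ A.erase x, (pot a y z u - pot a y z x) ^ 2 ≤ τ ^ 2 := by
    intro u hu
    have e1 := pot_range hg (h.res u hu y hy) (h.res u hu z hz)
    have e2 := pot_range hg ((np_nbr h hτ hm hy).symm) ((np_nbr h hτ hm hz).symm)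
    have e3 : pot a y z y - pot a y z z ≤ τ := by
      rw [← isPot_en hg, ← res_eq hg]; exact res_le hτ hyz
    apply sq_le_sq'
    · linarith [e1.1, e1.2, e2.1, e2.2]
    · linarith [e1.1, e1.2, e2.1, e2.2]
  have hin : ∑ p, (a p x : ℝ) = m := by rw [← h.inn]; unfold ind; push_cast; rfl
  have hout : ∑ p, (a x p : ℝ) = m := by rw [← h.out]; unfold outd; push_cast; rfl
  unfold exr ex
  have f1 : ∑ p, (a p x : ℝ) * (pot a y z p - pot a y z x) ^ 2 ≤ m * τ ^ 2 := by
    rw [← hin, sum_mul]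
    refine sum_le_sum fun p _ => ?_
    rcases Nat.eq_zero_or_pos (a p x) with h0 | h0
    · rw [h0]; simp
    · exact mul_le_mul_of_nonneg_left (hrange p (np_mem_left h h0)) (Nat.cast_nonneg _)
  have f2 : ∑ q, (a x q : ℝ) * (pot a y z q - pot a y z x) ^ 2 ≤ m * τ ^ 2 := by
    rw [← hout, sum_mul]
    refine sum_le_sum fun p _ => ?_
    rcases Nat.eq_zero_or_pos (a x p) with h0 | h0
    · rw [h0]; simp
    · exact mul_le_mul_of_nonneg_left (hrange p (np_mem_right h h0)) (Nat.cast_nonneg _)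
  linarith

/-- The bounding function dominates at the end. -/
theorem np_base {lam θ σ τ ϱ z X : ℝ} (hlam : 0 ≤ lam) (hθ : 0 ≤ θ) (hσ : 0 < σ) (hτ : 0 ≤ τ)
    (hϱ : 0 ≤ ϱ) (hX : 0 ≤ X) (hs : (1 + θ) * (2 * (lam * X)) ≤ Real.log 2) :
    Real.exp (z + 2 * (lam * X)) - 1 ≤ wf lam θ σ τ ϱ 64 32 z X := by
  have h1 := exp_sub_one_le (θ := θ) (z := z + 2 * (lam * X)) (u := psi σ z + 2 * (lam * X)) hθ
    (by have := psi_nonneg σ z; positivity) (by have := le_psi σ z; linarith)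
  have hω0 : 0 ≤ (1 + θ) * lam * τ ^ 2 := by positivity
  have h2 := two_le_Xf (ϱ := ϱ) (c2 := 2 + ϱ ^ 2 / 4) (m := 32) hω0 hϱ (by positivity)
    (by norm_num)
  have h3 : 2 ≤ Lf τ ϱ 64 32 := by
    have := one_le_Pf (τ := τ) hϱ (by norm_num : (1 : ℝ) ≤ 32)
    have h4 : 0 ≤ Real.log 32 := Real.log_nonneg (by norm_num)
    unfold Lf
    rw [le_div_iff₀ (by norm_num)]
    nlinarith [mul_nonneg hϱ h4]
  have h4 := Gf_nonneg (τ := τ) (ϱ := ϱ) (m := 32) (by norm_num)
  have h5 : Real.exp ((1 + θ) * (z + 2 * (lam * X))) ≤ 2 * Real.exp ((1 + θ) * z) := by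
    have : (1 + θ) * (z + 2 * (lam * X)) = (1 + θ) * (2 * (lam * X)) + (1 + θ) * z := by ring
    rw [this, Real.exp_add]
    refine mul_le_mul_of_nonneg_right ?_ (Real.exp_pos _).le
    calc Real.exp ((1 + θ) * (2 * (lam * X))) ≤ Real.exp (Real.log 2) := Real.exp_le_exp.2 hs
      _ = 2 := Real.exp_log (by norm_num)
  unfold wf
  have h6 : 0 ≤ lam ^ 2 * (2 + ϱ ^ 2 / 4) / (4 * σ) * Gf τ ϱ 32 * X ^ 2 := by positivity
  have h7 : lam * 2 * X ≤ lam * Lf τ ϱ 64 32 * X := by gcongr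
  have h8 : Real.exp (-θ) * Real.exp ((1 + θ) * (z + 2 * (lam * X))) ≤
      Real.exp (-θ) * Xf ((1 + θ) * lam * τ ^ 2) ϱ (2 + ϱ ^ 2 / 4) 32 *
        Real.exp ((1 + θ) * z) := by
    rw [mul_assoc]
    refine mul_le_mul_of_nonneg_left (h5.trans ?_) (Real.exp_pos _).le
    exact mul_le_mul_of_nonneg_right h2 (Real.exp_pos _).le
  linarith

theorem np_wf_nonneg {lam θ σ τ ϱ m z X : ℝ} (hlam : 0 ≤ lam) (hσ : 0 < σ)
    (hϱ : 0 ≤ ϱ) (hX : 0 ≤ X) (hm : 1 ≤ m) : 0 ≤ wf lam θ σ τ ϱ 64 m z X := by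
  have h1 := psi_nonneg σ z
  have h2 := Gf_nonneg (τ := τ) (ϱ := ϱ) hm
  have h3 := Lf_nonneg (τ := τ) (l0 := 64) hϱ (by norm_num) hm
  have h4 : 0 < Xf ((1 + θ) * lam * τ ^ 2) ϱ (2 + ϱ ^ 2 / 4) m := by unfold Xf; positivity
  unfold wf
  positivity

end Pool.Agent.PL
end

section

/-! Costs which do not depend on the size of the torus. -/

open Finset Equiv

set_option linter.unusedSectionVars false

namespace Pool.Agent.Stirring.LC

open Hier HC QK TC

section Gen

variable {V : Type*} [Fintype V] [DecidableEq V]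

/-- One lazy ring, for expectations. -/
theorem sum_lz_succ {c : V × V → ℝ} (hT : 0 < tot c) (n : ℕ) (F : Perm V → ℝ) :
    ∑ σ, lz c (n + 1) σ * F σ = 1 / 2 * ∑ σ, lz c n σ * F σ +
      1 / (2 * tot c) * ∑ σ, lz c n σ * ∑ p : V × V, c p * F (σ * swap p.1 p.2) := by
  rw [lz_succ]
  have h1 : ∀ p : V × V, ∑ σ, lz c n (σ * swap p.1 p.2) * F σ =
      ∑ σ, lz c n σ * F (σ * swap p.1 p.2) := by
    intro p
    rw [← sum_mul_right (fun σ => lz c n (σ * swap p.1 p.2) * F σ) (swap p.1 p.2)]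
    refine Finset.sum_congr rfl fun σ _ => ?_
    rw [mul_assoc, swap_mul_self, mul_one]
  have h2 : ∑ σ, (∑ p : V × V, c p / tot c * ((lz c n σ + lz c n (σ * swap p.1 p.2)) / 2)) * F σ =
      ∑ p : V × V, c p / tot c * ((∑ σ, lz c n σ * F σ +
        ∑ σ, lz c n (σ * swap p.1 p.2) * F σ) / 2) := by
    simp only [Finset.sum_mul]
    rw [Finset.sum_comm]
    refine Finset.sum_congr rfl fun p _ => ?_
    rw [← Finset.sum_add_distrib, Finset.sum_div, Finset.mul_sum]
    exact Finset.sum_congr rfl fun σ _ => by ring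
  rw [h2]
  simp only [h1]
  have h3 : ∀ p : V × V, c p / tot c * ((∑ σ, lz c n σ * F σ +
      ∑ σ, lz c n σ * F (σ * swap p.1 p.2)) / 2) =
      c p / tot c * (1 / 2 * ∑ σ, lz c n σ * F σ) +
        1 / (2 * tot c) * ∑ σ, lz c n σ * (c p * F (σ * swap p.1 p.2)) := by
    intro p
    have h4 : ∑ σ, lz c n σ * (c p * F (σ * swap p.1 p.2)) =
        c p * ∑ σ, lz c n σ * F (σ * swap p.1 p.2) := by
      rw [Finset.mul_sum]
      exact Finset.sum_congr rfl fun σ _ => by ring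
    rw [h4]
    field_simp
  rw [Finset.sum_congr rfl fun p _ => h3 p, Finset.sum_add_distrib, ← Finset.sum_mul,
    sum_div_tot hT, one_mul, ← Finset.mul_sum]
  congr 2
  rw [Finset.sum_comm]
  exact Finset.sum_congr rfl fun σ _ => by rw [Finset.mul_sum]

/-- The cost at time `s` from the cost after many lazy rings. -/
theorem tv_lw_le_of {c : V × V → ℝ} (hc : ∀ p, 0 ≤ c p) (hT : 0 < tot c) (g : Perm V) {s δ : ℝ}
    (hs : 0 < s) (hδ0 : 0 ≤ δ)
    (h : ∀ n : ℕ, tot c * s ≤ n → tv (lz c n) (rm g (lz c n)) ≤ δ) :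
    tv (lw c s) (rm g (lw c s)) ≤ Real.exp (-(3 / 10 * (tot c * s))) + δ := by
  set m : ℝ := 2 * tot c * s with hm
  have hm0 : 0 < m := by rw [hm]; positivity
  set A : ℝ := Real.exp (Real.log 2 * (m / 2)) with hA
  have hP : ∀ σ, HasSum (fun n => po m n * lz c n σ) (lw c s σ) := fun σ => lw_hasSum hT s σ
  have hQ : ∀ σ, HasSum (fun n => po m n * rm g (lz c n) σ) (rm g (lw c s) σ) := fun σ =>
    lw_hasSum hT s (σ * g)
  have hb : HasSum (fun n => po m n * (δ + A * (1 / 2) ^ n))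
      (δ + A * Real.exp (m * (1 / 2) - m)) := by
    have h1 := (po_hasSum m).mul_left δ
    have h2 := (po_geom_hasSum m (1 / 2)).mul_left A
    have h3 := h1.add h2
    rw [mul_one] at h3
    refine h3.congr_fun ?_ |> fun h => h
    intro n; ring
  have hB : ∀ n, tv (lz c n) (rm g (lz c n)) ≤ δ + A * (1 / 2) ^ n := by
    intro n
    have hA0 : 0 < A := Real.exp_pos _
    have ht1 : tv (lz c n) (rm g (lz c n)) ≤ 1 :=
      tv_le_one (lz_law hc hT n).nn (rm_law (lz_law hc hT n) g).nn (lz_law hc hT n).one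
        (rm_law (lz_law hc hT n) g).one
    rcases le_or_gt (m / 2) n with h' | h'
    · have h2 := h n (by
        have h4 : m / 2 = tot c * s := by rw [hm]; ring
        rwa [h4] at h')
      have h3 : 0 ≤ A * (1 / 2) ^ n := by positivity
      linarith
    · have h1 : (1 : ℝ) ≤ A * (1 / 2) ^ n := by
        have h2 : (1 / 2 : ℝ) ^ n = Real.exp (-(Real.log 2 * n)) := by
          rw [one_div, inv_pow, ← Real.exp_log (show (0 : ℝ) < 2 by norm_num), ← Real.exp_nat_mul,
            ← Real.exp_neg, Real.log_exp]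
          ring_nf
        rw [h2, hA, ← Real.exp_add]
        refine Real.one_le_exp ?_
        have h3 : 0 < Real.log 2 := Real.log_pos (by norm_num)
        nlinarith
      linarith
  refine (tv_mix_le hm0.le hP hQ hB hb).trans ?_
  rw [add_comm]
  refine add_le_add ?_ le_rfl
  rw [hA, ← Real.exp_add]
  refine Real.exp_le_exp.mpr ?_
  have h1 := Real.log_two_lt_d9
  have h2 : m / 2 = tot c * s := by rw [hm]; ring
  have h3 : m * (1 / 2) - m = -(tot c * s) := by rw [hm]; ring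
  rw [h3, h2]
  have h4 : 0 < tot c * s := by positivity
  nlinarith

/-- As `tv_lz_sq_le`, with the entropy itself. -/
theorem tv_lz_sq_le' {c : V × V → ℝ} (hc : ∀ p, 0 ≤ c p) (hT : 0 < tot c) {w : ℝ} (g : Perm V)
    (hw : ∀ n, w * tv (lz c n) (rm g (lz c n)) ^ 2 ≤
      ∑ p : V × V, c p * tv (lz c n) (rm (swap p.1 p.2) (lz c n)) ^ 2) (hw0 : 0 ≤ w) (n : ℕ) :
    n * (w * tv (lz c n) (rm g (lz c n)) ^ 2) ≤ 2 * tot c * ent (lz c n) := by
  have h1 : ∀ n, ent (lz c n) + w / (2 * tot c) * tv (lz c n) (rm g (lz c n)) ^ 2 ≤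
      ent (lz c (n + 1)) := by
    intro n
    refine le_trans ?_ (ent_lz_succ hc hT n)
    have h2 := div_le_div_of_nonneg_right (hw n) (by positivity : (0 : ℝ) ≤ 2 * tot c)
    have h3 : ∑ p : V × V, c p / tot c * (tv (lz c n) (rm (swap p.1 p.2) (lz c n)) ^ 2 / 2) =
        (∑ p : V × V, c p * tv (lz c n) (rm (swap p.1 p.2) (lz c n)) ^ 2) / (2 * tot c) := by
      rw [Finset.sum_div]
      refine Finset.sum_congr rfl fun p _ => ?_
      field_simp
    rw [h3]
    have h4 : w / (2 * tot c) * tv (lz c n) (rm g (lz c n)) ^ 2 =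
      w * tv (lz c n) (rm g (lz c n)) ^ 2 / (2 * tot c) := by ring
    rw [h4]
    linarith
  have h5 : ∀ n : ℕ, ∑ k ∈ Finset.range n, w / (2 * tot c) * tv (lz c k) (rm g (lz c k)) ^ 2 ≤
      ent (lz c n) := by
    intro n
    induction n with
    | zero =>
      simp only [Finset.range_zero, Finset.sum_empty]
      exact ent_nonneg (lz_law hc hT 0).nn (lz_law hc hT 0).one
    | succ n ih =>
      rw [Finset.sum_range_succ]
      linarith [h1 n]
  have h6 : n * (w / (2 * tot c) * tv (lz c n) (rm g (lz c n)) ^ 2) ≤ ent (lz c n) := by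
    refine le_trans ?_ (h5 n)
    have h7 : (n : ℝ) * (w / (2 * tot c) * tv (lz c n) (rm g (lz c n)) ^ 2) =
        ∑ k ∈ Finset.range n, w / (2 * tot c) * tv (lz c n) (rm g (lz c n)) ^ 2 := by
      rw [Finset.sum_const, Finset.card_range, nsmul_eq_mul]
    rw [h7]
    refine Finset.sum_le_sum fun k hk => mul_le_mul_of_nonneg_left ?_ (by positivity)
    have h8 := tv_lz_anti hc hT g (Finset.mem_range.mp hk).le
    have h9 := tv_nonneg (lz c n) (rm g (lz c n))
    exact pow_le_pow_left₀ h9 h8 2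
  have h8 := mul_le_mul_of_nonneg_left h6 (by positivity : (0 : ℝ) ≤ 2 * tot c)
  refine le_trans (le_of_eq ?_) h8
  field_simp

end Gen

section Torus

variable {d L : ℕ} [NeZero L]

/-- The sum of the squares of the displacements in direction `i`. -/
noncomputable def disp (i : Fin d) (σ : Perm (Fin d → ZMod L)) : ℝ :=
  ∑ x, ((av ((σ x - x) i) : ℕ) : ℝ) ^ 2

theorem disp_swap (hL : 2 ≤ L) (i j : Fin d) (σ : Perm (Fin d → ZMod L)) (a : Fin d → ZMod L) :
    disp i (σ * swap a (a + Pi.single j 1)) ≤ disp i σ +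
      if j = i then 2 * ((((σ (a + Pi.single j 1) - (a + Pi.single j 1) : Fin d → ZMod L) i).valMinAbs :
        ℤ) : ℝ) - 2 * ((((σ a - a) i).valMinAbs : ℤ) : ℝ) + 2 else 0 := by
  set b : Fin d → ZMod L := a + Pi.single j 1 with hb
  have hab : a ≠ b := by
    intro h
    have h1 : (Pi.single j 1 : Fin d → ZMod L) = 0 := by
      have h2 : a + 0 = a + Pi.single j 1 := by rw [add_zero]; exact h
      exact (add_left_cancel h2).symm
    exact single_ne hL j h1
  have h1 : disp i (σ * swap a b) - disp i σ =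
      ((av (((σ * swap a b) a - a) i) : ℕ) : ℝ) ^ 2 - ((av ((σ a - a) i) : ℕ) : ℝ) ^ 2 +
      (((av (((σ * swap a b) b - b) i) : ℕ) : ℝ) ^ 2 - ((av ((σ b - b) i) : ℕ) : ℝ) ^ 2) := by
    unfold disp
    rw [← Finset.sum_sub_distrib]
    refine Finset.sum_eq_add a b hab ?_ (fun h => absurd (Finset.mem_univ _) h)
      (fun h => absurd (Finset.mem_univ _) h)
    intro x _ hx
    rw [Perm.mul_apply, swap_apply_of_ne_of_ne hx.1 hx.2, sub_self]
  have h2 : (σ * swap a b) a = σ b := by rw [Perm.mul_apply, swap_apply_left]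
  have h3 : (σ * swap a b) b = σ a := by rw [Perm.mul_apply, swap_apply_right]
  rw [h2, h3] at h1
  have h4 : (σ b - a) i = (σ b - b) i + (Pi.single j 1 : Fin d → ZMod L) i := by
    rw [hb]
    simp only [Pi.sub_apply, Pi.add_apply]
    ring
  have h5 : (σ a - b) i = (σ a - a) i - (Pi.single j 1 : Fin d → ZMod L) i := by
    rw [hb]
    simp only [Pi.sub_apply, Pi.add_apply]
    ring
  rw [h4, h5] at h1
  by_cases hji : j = i
  · rw [if_pos hji]
    subst hji
    rw [Pi.single_eq_same] at h1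
    have h6 := sq_le_sq.2 (av_add_one ((σ b - b) j))
    have h7 := sq_le_sq.2 (av_sub_one ((σ a - a) j))
    have h8 := av_sq ((σ b - b) j)
    have h9 := av_sq ((σ a - a) j)
    nlinarith
  · rw [if_neg hji]
    have h6 : (Pi.single j 1 : Fin d → ZMod L) i = 0 := Pi.single_eq_of_ne (fun h => hji h.symm) 1
    rw [h6, add_zero, sub_zero] at h1
    linarith

theorem sum_disp_swap (hL : 2 ≤ L) (i : Fin d) (σ : Perm (Fin d → ZMod L)) :
    ∑ p : (Fin d → ZMod L) × (Fin d → ZMod L), tr d L p * disp i (σ * swap p.1 p.2) ≤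
      tot (tr d L) * disp i σ + 2 * (L : ℝ) ^ d := by
  rw [tr_eq, sum_trG _ (fun a b => disp i (σ * swap a b))]
  have h1 : ∀ j : Fin d, ∑ x, disp i (σ * swap x (x + Pi.single j 1)) ≤
      (L : ℝ) ^ d * disp i σ + if j = i then 2 * (L : ℝ) ^ d else 0 := by
    intro j
    refine (Finset.sum_le_sum fun x _ => disp_swap hL i j σ x).trans ?_
    rw [Finset.sum_add_distrib, Finset.sum_const, Finset.card_univ, nsmul_eq_mul, card_torus]
    refine add_le_add le_rfl ?_
    by_cases hji : j = i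
    · simp only [if_pos hji]
      rw [Finset.sum_add_distrib, Finset.sum_sub_distrib, Finset.sum_const, Finset.card_univ,
        nsmul_eq_mul, card_torus]
      have h2 : ∑ x : Fin d → ZMod L,
          2 * ((((σ (x + Pi.single j 1) - (x + Pi.single j 1) : Fin d → ZMod L) i).valMinAbs :
            ℤ) : ℝ) =
          ∑ x : Fin d → ZMod L, 2 * ((((σ x - x) i).valMinAbs : ℤ) : ℝ) :=
        Equiv.sum_comp (Equiv.addRight (Pi.single j 1 : Fin d → ZMod L))
          (fun x => 2 * ((((σ x - x) i).valMinAbs : ℤ) : ℝ))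
      rw [h2]
      linarith
    · simp only [if_neg hji]
      simp
  refine (Finset.sum_le_sum fun j _ => h1 j).trans (le_of_eq ?_)
  rw [Finset.sum_add_distrib, Finset.sum_const, Finset.card_univ, Fintype.card_fin, nsmul_eq_mul,
    Finset.sum_ite_eq' Finset.univ i]
  have h2 := tot_tr (d := d) (L := L)
  rw [tr_eq] at h2
  rw [h2]
  simp
  ring

theorem tot_pos (hd : 1 ≤ d) : 0 < tot (tr d L) := by
  rw [tot_tr]
  have h1 : 0 < L := Nat.pos_of_ne_zero (NeZero.ne L)
  have h2 : (0 : ℝ) < L := by exact_mod_cast h1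
  have h3 : (0 : ℝ) < d := by exact_mod_cast hd
  positivity

theorem mean_disp_le (hd : 1 ≤ d) (hL : 2 ≤ L) (i : Fin d) (n : ℕ) :
    ∑ σ, lz (tr d L) n σ * disp i σ ≤ n / d := by
  have hT := tot_pos (L := L) hd
  have hL' : (0 : ℝ) < L := by exact_mod_cast (by omega : 0 < L)
  have hd' : (0 : ℝ) < d := by exact_mod_cast hd
  induction n with
  | zero =>
    have h1 : ∀ σ : Perm (Fin d → ZMod L), lz (tr d L) 0 σ * disp i σ = 0 := by
      intro σ
      unfold lz
      split_ifs with h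
      · rw [h, one_mul]
        unfold disp
        refine Finset.sum_eq_zero fun x _ => ?_
        simp [av]
      · rw [zero_mul]
    rw [Finset.sum_congr rfl fun σ _ => h1 σ]
    simp
  | succ n ih =>
    rw [sum_lz_succ hT]
    have h1 : ∑ σ, lz (tr d L) n σ * ∑ p : (Fin d → ZMod L) × (Fin d → ZMod L),
        tr d L p * disp i (σ * swap p.1 p.2) ≤
        tot (tr d L) * ∑ σ, lz (tr d L) n σ * disp i σ + 2 * (L : ℝ) ^ d := by
      refine (Finset.sum_le_sum fun σ _ => mul_le_mul_of_nonneg_left (sum_disp_swap hL i σ)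
        ((lz_law tr_nonneg hT n).nn σ)).trans (le_of_eq ?_)
      have h2 : ∀ σ, lz (tr d L) n σ * (tot (tr d L) * disp i σ + 2 * (L : ℝ) ^ d) =
          tot (tr d L) * (lz (tr d L) n σ * disp i σ) + lz (tr d L) n σ * (2 * (L : ℝ) ^ d) :=
        fun σ => by ring
      rw [Finset.sum_congr rfl fun σ _ => h2 σ, Finset.sum_add_distrib, ← Finset.mul_sum,
        ← Finset.sum_mul, (lz_law tr_nonneg hT n).one, one_mul]
    have h2 := mul_le_mul_of_nonneg_left h1 (by positivity : (0 : ℝ) ≤ 1 / (2 * tot (tr d L)))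
    have h3 : 1 / (2 * tot (tr d L)) * (tot (tr d L) * ∑ σ, lz (tr d L) n σ * disp i σ +
        2 * (L : ℝ) ^ d) = 1 / 2 * ∑ σ, lz (tr d L) n σ * disp i σ + 1 / d := by
      rw [tot_tr]
      field_simp
    rw [h3] at h2
    push_cast
    rw [add_div]
    linarith

/-- The entropy after `n` lazy rings. -/
theorem ent_lz_le (hd : 1 ≤ d) (hL : 2 ≤ L) {a : ℝ} (ha : 0 < a) (n : ℕ) :
    ent (lz (tr d L) n) ≤ tot (tr d L) * (Real.log 3 + 1 + 2 * Real.log (1 + a)) + n / a ^ 2 := by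
  have hT := tot_pos (L := L) hd
  have hd' : (0 : ℝ) < d := by exact_mod_cast hd
  have hl := lz_law (tr_nonneg (d := d) (L := L)) hT n
  refine (ent_le_disp hl wT_pos wT_sum).trans ?_
  have h1 : ∀ σ : Perm (Fin d → ZMod L), ∑ x, -Real.log (wT (σ x - x)) ≤
      tot (tr d L) * (Real.log 3 + 1 + 2 * Real.log (1 + a)) + (∑ i, disp i σ) / a ^ 2 := by
    intro σ
    refine (Finset.sum_le_sum fun x _ => log_wT (σ x - x) ha).trans (le_of_eq ?_)
    rw [Finset.sum_comm]
    have h2 : ∀ i : Fin d, ∑ x : Fin d → ZMod L, (Real.log 3 + 2 * (Real.log (1 + a) + 1 / 2 +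
        (av ((σ x - x) i) : ℝ) ^ 2 / (2 * a ^ 2))) =
        (L : ℝ) ^ d * (Real.log 3 + 1 + 2 * Real.log (1 + a)) + disp i σ / a ^ 2 := by
      intro i
      unfold disp
      rw [Finset.sum_div]
      have h3 : ∀ x : Fin d → ZMod L, (Real.log 3 + 2 * (Real.log (1 + a) + 1 / 2 +
          (av ((σ x - x) i) : ℝ) ^ 2 / (2 * a ^ 2))) =
          (Real.log 3 + 1 + 2 * Real.log (1 + a)) + (av ((σ x - x) i) : ℝ) ^ 2 / a ^ 2 := by
        intro x
        field_simp
        ring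
      rw [Finset.sum_congr rfl fun x _ => h3 x, Finset.sum_add_distrib, Finset.sum_const,
        Finset.card_univ, nsmul_eq_mul, card_torus]
    rw [Finset.sum_congr rfl fun i _ => h2 i, Finset.sum_add_distrib, Finset.sum_const,
      Finset.card_univ, Fintype.card_fin, nsmul_eq_mul, tot_tr, ← Finset.sum_div]
    ring
  refine (Finset.sum_le_sum fun σ _ => mul_le_mul_of_nonneg_left (h1 σ) (hl.nn σ)).trans ?_
  have h2 : ∀ σ : Perm (Fin d → ZMod L), lz (tr d L) n σ *
      (tot (tr d L) * (Real.log 3 + 1 + 2 * Real.log (1 + a)) + (∑ i, disp i σ) / a ^ 2) =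
      lz (tr d L) n σ * (tot (tr d L) * (Real.log 3 + 1 + 2 * Real.log (1 + a))) +
        (∑ i, lz (tr d L) n σ * disp i σ) / a ^ 2 := by
    intro σ
    rw [← Finset.mul_sum]
    ring
  rw [Finset.sum_congr rfl fun σ _ => h2 σ, Finset.sum_add_distrib, ← Finset.sum_mul, hl.one,
    one_mul, ← Finset.sum_div, Finset.sum_comm]
  refine add_le_add le_rfl (div_le_div_of_nonneg_right ?_ (by positivity))
  refine (Finset.sum_le_sum fun i _ => mean_disp_le hd hL i n).trans (le_of_eq ?_)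
  rw [Finset.sum_const, Finset.card_univ, Fintype.card_fin, nsmul_eq_mul]
  field_simp

theorem dir_le (Q : (Fin d → ZMod L) → (Fin d → ZMod L) → ℝ) (hQ : ∀ a b, 0 ≤ Q a b) (i : Fin d) :
    ∑ y, Q y (y + Pi.single i 1) ≤ ∑ p : (Fin d → ZMod L) × (Fin d → ZMod L),
      tr d L p * Q p.1 p.2 := by
  rw [tr_eq, sum_trG _ Q]
  exact Finset.single_le_sum (f := fun j : Fin d => ∑ y, Q y (y + Pi.single j 1))
    (fun j _ => Finset.sum_nonneg fun y _ => hQ _ _) (Finset.mem_univ i)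

/-- The cost of the transposition of two neighbours. -/
noncomputable def eta (d : ℕ) (s : ℝ) : ℝ := 3 * Real.sqrt (d * (5 + Real.log s) / s)

theorem eta_nonneg (d : ℕ) (s : ℝ) : 0 ≤ eta d s := by
  unfold eta
  positivity

/-- The cost of the transposition of two neighbours of the torus, uniformly in the size. -/
theorem cost_edge (hd : 1 ≤ d) (hL : 2 ≤ L) {s : ℝ} (hs : 1 ≤ s) (x : Fin d → ZMod L)
    (i : Fin d) :
    tv (lw (tr d L) s) (rm (swap x (x + Pi.single i 1)) (lw (tr d L) s)) ≤ eta d s := by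
  have hT := tot_pos (L := L) hd
  have hs0 : 0 < s := by linarith
  have hL' : (2 : ℝ) ≤ L := by exact_mod_cast hL
  have hd' : (1 : ℝ) ≤ d := by exact_mod_cast hd
  have hcard : (0 : ℝ) < Fintype.card (Fin d → ZMod L) := by exact_mod_cast Fintype.card_pos
  set g : Perm (Fin d → ZMod L) := swap x (x + Pi.single i 1) with hg
  have hlogs : 0 ≤ Real.log s := Real.log_nonneg hs
  -- the energy
  have hw : ∀ n, (Fintype.card (Fin d → ZMod L) : ℝ) *
      tv (lz (tr d L) n) (rm g (lz (tr d L) n)) ^ 2 ≤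
      ∑ p : (Fin d → ZMod L) × (Fin d → ZMod L),
        tr d L p * tv (lz (tr d L) n) (rm (swap p.1 p.2) (lz (tr d L) n)) ^ 2 := by
    intro n
    have h1 : ∀ y : Fin d → ZMod L, tv (lz (tr d L) n)
        (rm (swap y (y + Pi.single i 1)) (lz (tr d L) n)) =
        tv (lz (tr d L) n) (rm g (lz (tr d L) n)) := by
      intro y
      have := tv_lz_conj (c := tr d L) tr_inv (y - x) n x (x + Pi.single i 1)
      have h2 : x + (y - x) = y := by abel
      have h3 : x + Pi.single i 1 + (y - x) = y + Pi.single i 1 := by abel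
      rw [h2, h3] at this
      exact this
    have h2 : (Fintype.card (Fin d → ZMod L) : ℝ) *
        tv (lz (tr d L) n) (rm g (lz (tr d L) n)) ^ 2 =
        ∑ y, tv (lz (tr d L) n) (rm (swap y (y + Pi.single i 1)) (lz (tr d L) n)) ^ 2 := by
      simp_rw [h1]
      rw [Finset.sum_const, Finset.card_univ, nsmul_eq_mul]
    rw [h2]
    exact dir_le (fun a b => tv (lz (tr d L) n) (rm (swap a b) (lz (tr d L) n)) ^ 2)
      (fun a b => sq_nonneg _) i
  have hE : Real.log 3 + 1 + 2 * Real.log (1 + Real.sqrt s) + 1 ≤ 5 + Real.log s := by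
    have h1 : 1 ≤ Real.sqrt s := by rw [Real.one_le_sqrt]; exact hs
    have h2 : Real.log (1 + Real.sqrt s) ≤ Real.log (2 * Real.sqrt s) :=
      Real.log_le_log (by positivity) (by linarith)
    rw [Real.log_mul (by norm_num) (by positivity), Real.log_sqrt hs0.le] at h2
    have h3 := Real.log_two_lt_d9
    have h4 : Real.log 3 ≤ 2 * Real.log 2 := by
      have h5 : Real.log 3 ≤ Real.log 4 := Real.log_le_log (by norm_num) (by norm_num)
      have h6 : Real.log 4 = 2 * Real.log 2 := by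
        rw [show (4 : ℝ) = 2 ^ 2 by norm_num, Real.log_pow]
        push_cast
        ring
      linarith
    linarith
  have key := tv_lw_le_of (c := tr d L) tr_nonneg hT g hs0
    (δ := Real.sqrt (2 * (d * (5 + Real.log s) / s))) (Real.sqrt_nonneg _) ?_
  · refine key.trans ?_
    have e1 : Real.sqrt (2 * (d * (5 + Real.log s) / s)) ≤
        3 / 2 * Real.sqrt (d * (5 + Real.log s) / s) := by
      rw [Real.sqrt_mul (by norm_num)]
      refine mul_le_mul_of_nonneg_right ?_ (Real.sqrt_nonneg _)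
      rw [Real.sqrt_le_left (by norm_num)]
      norm_num
    have e2 : Real.exp (-(3 / 10 * (tot (tr d L) * s))) ≤
        3 / 2 * Real.sqrt (d * (5 + Real.log s) / s) := by
      have h1 : (2 : ℝ) ≤ tot (tr d L) := by
        rw [tot_tr]
        have hn : (2 : ℝ) ≤ (L : ℝ) ^ d := by
          calc (2 : ℝ) ≤ L := hL'
            _ = (L : ℝ) ^ 1 := (pow_one _).symm
            _ ≤ (L : ℝ) ^ d := pow_le_pow_right₀ (by linarith) hd
        nlinarith
      have h2 : Real.exp (-(3 / 10 * (tot (tr d L) * s))) ≤ Real.exp (-(3 / 5 * s)) := by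
        refine Real.exp_le_exp.mpr ?_
        nlinarith
      refine h2.trans ?_
      have h3 : Real.exp (-(3 / 5 * s)) ≤ 1 / (3 / 5 * s) := by
        rw [Real.exp_neg, ← one_div]
        refine one_div_le_one_div_of_le (by positivity) ?_
        have := Real.add_one_le_exp (3 / 5 * s)
        linarith
      have h5 : 1 ≤ Real.sqrt s := by
        rw [Real.one_le_sqrt]; exact hs
      have h6 : 1 / (3 / 5 * s) ≤ 2 / Real.sqrt s := by
        rw [div_le_div_iff₀ (by positivity) (by positivity)]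
        have h7 : Real.sqrt s * Real.sqrt s = s := Real.mul_self_sqrt hs0.le
        nlinarith
      have h7 : 2 / Real.sqrt s ≤ Real.sqrt (d * (5 + Real.log s) / s) := by
        rw [Real.sqrt_div (by positivity)]
        refine div_le_div_of_nonneg_right ?_ (Real.sqrt_nonneg _)
        rw [Real.le_sqrt (by norm_num) (by positivity)]
        nlinarith
      have h8 := Real.sqrt_nonneg (d * (5 + Real.log s) / s)
      linarith
    unfold eta
    linarith
  · intro n hn
    refine Real.le_sqrt_of_sq_le ?_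
    have hn0 : (0 : ℝ) < n := lt_of_lt_of_le (by positivity) hn
    have h1 := tv_lz_sq_le' tr_nonneg hT g hw hcard.le n
    have h2 := ent_lz_le (L := L) hd hL (Real.sqrt_pos.mpr hs0) n
    rw [Real.sq_sqrt hs0.le] at h2
    set v := tv (lz (tr d L) n) (rm g (lz (tr d L) n)) ^ 2 with hv
    have h3 : n * ((L : ℝ) ^ d * v) ≤ 2 * tot (tr d L) *
        (tot (tr d L) * (Real.log 3 + 1 + 2 * Real.log (1 + Real.sqrt s)) + n / s) := by
      have h4 := card_torus (d := d) (L := L)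
      rw [h4] at h1
      exact h1.trans (mul_le_mul_of_nonneg_left h2 (by positivity))
    have h4 : tot (tr d L) * (Real.log 3 + 1 + 2 * Real.log (1 + Real.sqrt s)) + n / s ≤
        n * ((5 + Real.log s) / s) := by
      have h5 : tot (tr d L) ≤ n / s := by
        rw [le_div_iff₀ hs0]
        exact hn
      have h6 : 0 ≤ Real.log 3 + 1 + 2 * Real.log (1 + Real.sqrt s) := by
        have h7 : 0 ≤ Real.log 3 := Real.log_nonneg (by norm_num)
        have h8 : 0 ≤ Real.log (1 + Real.sqrt s) := Real.log_nonneg (by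
          have := Real.sqrt_nonneg s
          linarith)
        linarith
      have h7 := mul_le_mul_of_nonneg_right h5 h6
      have h8 : (0 : ℝ) < n / s := by positivity
      have h9 : n * ((5 + Real.log s) / s) = n / s * (5 + Real.log s) := by ring
      rw [h9]
      have h10 := mul_le_mul_of_nonneg_left hE h8.le
      nlinarith
    have h5 : n * ((L : ℝ) ^ d * v) ≤ 2 * tot (tr d L) * (n * ((5 + Real.log s) / s)) :=
      h3.trans (mul_le_mul_of_nonneg_left h4 (by positivity))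
    rw [tot_tr] at h5
    have hLd : (0 : ℝ) < (L : ℝ) ^ d := by positivity
    have h6 : (n * (L : ℝ) ^ d) * v ≤ (n * (L : ℝ) ^ d) * (2 * (d * (5 + Real.log s) / s)) := by
      calc (n * (L : ℝ) ^ d) * v = n * ((L : ℝ) ^ d * v) := by ring
        _ ≤ 2 * (d * (L : ℝ) ^ d) * (n * ((5 + Real.log s) / s)) := h5
        _ = _ := by ring
    exact le_of_mul_le_mul_left h6 (by positivity)

/-- The cost of a permutation of a cube. -/
theorem cost_box (hd : 1 ≤ d) (hL : 2 ≤ L) {s : ℝ} (hs : 1 ≤ s) {x : Fin d → ZMod L} {b : ℕ}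
    (hb : b ≤ L) (g : Perm (Fin d → ZMod L)) (hg : ∀ z, z ∉ HC.box x b → g z = z) :
    tv (lw (tr d L) s) (rm g (lw (tr d L) s)) ≤ 2 * (d * b * (b : ℝ) ^ d) * eta d s := by
  have h := tv_box (p := lw (tr d L) s) hb (x := x)
    (e := eta d s) (eta_nonneg d s) (fun z _ z' _ hzz => by
      obtain ⟨i, h1 | h1⟩ := hzz
      · rw [h1]; exact cost_edge hd hL hs z i
      · rw [h1, swap_comm]; exact cost_edge hd hL hs z' i) g hg
  refine h.trans (le_of_eq ?_)
  push_cast
  ring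

/-- The expectation of a bounded function changes little when the stirring permutation is multiplied
on the right by a permutation of a cube, uniformly in the size of the torus. -/
theorem expect_box (hd : 1 ≤ d) (hL : 2 ≤ L) {s : ℝ} (hs : 1 ≤ s) {x : Fin d → ZMod L} {b : ℕ}
    (hb : b ≤ L) (g : Perm (Fin d → ZMod L)) (hg : ∀ z, z ∉ HC.box x b → g z = z)
    {F : Perm (Fin d → ZMod L) → ℝ} (hF : ∀ σ, |F σ| ≤ 1) :
    |expect d L s (fun σ => F (σ * g⁻¹)) - expect d L s F| ≤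
      2 * (2 * (d * b * (b : ℝ) ^ d) * eta d s) := by
  rw [expect_eq, expect_eq]
  exact sg_move_le s hF (cost_box hd hL hs hb g hg)

/-- The cost of a product of transpositions of neighbours. -/
theorem cost_swaps (hd : 1 ≤ d) (hL : 2 ≤ L) {s : ℝ} (hs : 1 ≤ s)
    (l : List (Perm (Fin d → ZMod L)))
    (hl : ∀ g ∈ l, ∃ (x : Fin d → ZMod L) (i : Fin d), g = swap x (x + Pi.single i 1)) :
    tv (lw (tr d L) s) (rm l.prod (lw (tr d L) s)) ≤ l.length * eta d s := by
  induction l with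
  | nil =>
    rw [List.prod_nil, rm_one, tv_self]
    simp
  | cons g l ih =>
    have h1 := ih fun g' hg' => hl g' (List.mem_cons_of_mem _ hg')
    obtain ⟨x, i, hx⟩ := hl g List.mem_cons_self
    have h2 := cost_edge hd hL hs x i
    rw [← hx] at h2
    have h3 := cost_mul (lw (tr d L) s) g l.prod
    unfold cost at h3
    rw [List.prod_cons, List.length_cons]
    push_cast
    linarith

/-- Conjugation by a product of transpositions of neighbours. -/
theorem expect_conj (hd : 1 ≤ d) (hL : 2 ≤ L) {s : ℝ} (hs : 1 ≤ s)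
    (l : List (Perm (Fin d → ZMod L)))
    (hl : ∀ g ∈ l, ∃ (x : Fin d → ZMod L) (i : Fin d), g = swap x (x + Pi.single i 1))
    {F : Perm (Fin d → ZMod L) → ℝ} (hF : ∀ σ, |F σ| ≤ 1) :
    |expect d L s (fun σ => F (l.prod * σ * l.prod⁻¹)) - expect d L s F| ≤
      4 * (l.length * eta d s) := by
  have hT := tot_pos (L := L) hd
  have h0 := cost_swaps hd hL hs l hl
  have h1 : |expect d L s (fun σ => F (l.prod * σ * l.prod⁻¹)) -
      expect d L s (fun σ => F (l.prod * σ))| ≤ 2 * (l.length * eta d s) := by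
    rw [expect_eq, expect_eq]
    have h2 : (fun σ => F (l.prod * σ * l.prod⁻¹)) =
        fun σ => (fun τ => F (l.prod * τ)) (σ * l.prod⁻¹) := by
      funext σ
      rw [mul_assoc]
    rw [h2]
    exact sg_move_le s (F := fun τ => F (l.prod * τ)) (fun σ => hF _) h0
  have h2 : |expect d L s (fun σ => F (l.prod * σ)) - expect d L s F| ≤
      2 * (l.length * eta d s) := by
    rw [expect_eq, expect_eq]
    exact sg_move_left_le hT s hF h0
  have h3 := abs_add_le (expect d L s (fun σ => F (l.prod * σ * l.prod⁻¹)) -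
    expect d L s (fun σ => F (l.prod * σ))) (expect d L s (fun σ => F (l.prod * σ)) -
    expect d L s F)
  rw [sub_add_sub_cancel] at h3
  linarith

end Torus

end Pool.Agent.Stirring.LC
end
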