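import Mathlib

section

/-! Networks of strands: definitions (block 4 of the polylog theorem).

A network on the finite set `Y` of nodes is a matrix `a : Y → Y → ℕ`, `a y z` = number of strands
from `y` to `z`. Every strand is a unit conductor. -/

set_option autoImplicit false
set_option linter.unusedSectionVars false

open Finset

namespace Pool.Agent.PL

abbrev Net (Y : Type*) := Y → Y → ℕ

variable {Y : Type*} [Fintype Y] [DecidableEq Y]

/-- Out-degree. -/
def outd (a : Net Y) (y : Y) : ℕ := ∑ z, a y z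

/-- In-degree. -/
def ind (a : Net Y) (y : Y) : ℕ := ∑ z, a z y

/-- The Dirichlet form, polarised. -/
def bil (a : Net Y) (f g : Y → ℝ) : ℝ := ∑ y, ∑ z, (a y z : ℝ) * ((f y - f z) * (g y - g z))

/-- The Dirichlet form. -/
def en (a : Net Y) (f : Y → ℝ) : ℝ := bil a f f

/-- Effective resistance between `y` and `z` at most `r`. -/
def ResLe (a : Net Y) (r : ℝ) (y z : Y) : Prop := ∀ f : Y → ℝ, (f y - f z) ^ 2 ≤ r * en a f

/-- `g` is a unit potential for `(y, z)`. -/
def IsPot (a : Net Y) (y z : Y) (g : Y → ℝ) : Prop := ∀ h : Y → ℝ, bil a g h = h y - h z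

/-- Effective resistance (`0` if `y`, `z` are not connected; never used then). -/
noncomputable def res (a : Net Y) (y z : Y) : ℝ := sInf {r : ℝ | 0 ≤ r ∧ ResLe a r y z}

/-- Join one strand from `p` to `x` and one strand from `x` to `q` (any of `p`, `q` may be `x`:
then one self-loop at `x` disappears). -/
def step (a : Net Y) (x p q : Y) : Net Y := fun y z =>
  if p = x ∨ q = x then (if y = x ∧ z = x then a y z - 1 else a y z)
  else if y = p ∧ z = x then a y z - 1
  else if y = x ∧ z = q then a y z - 1
  else if y = p ∧ z = q then a y z + 1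
  else a y z

/-- Remove the node `x` with all its strands. -/
def del (a : Net Y) (x : Y) : Net Y := fun y z => if y = x ∨ z = x then 0 else a y z

/-- Remove the self-loops at `x`. -/
def unloop (a : Net Y) (x : Y) : Net Y := fun y z => if y = x ∧ z = x then 0 else a y z

/-- Energy of `g` at the node `x`. -/
def ex (a : Net Y) (x : Y) (g : Y → ℝ) : ℝ :=
  ∑ p, (a p x : ℝ) * (g p - g x) ^ 2 + ∑ q, (a x q : ℝ) * (g q - g x) ^ 2

/-- Average over a uniform strand into `x` and an independent uniform strand out of `x`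
(`m` = number of strands into `x`). -/
noncomputable def av (a : Net Y) (x : Y) (m : ℕ) (F : Y → Y → ℝ) : ℝ :=
  (∑ p, ∑ q, (a p x : ℝ) * (a x q : ℝ) * F p q) / (m : ℝ) ^ 2

/-- Join all `m` strands into `x` with the `m` strands out of `x` by a uniform matching and take the
mean of `F` of the resulting network. -/
noncomputable def fr (x : Y) (F : Net Y → ℝ) : ℕ → Net Y → ℝ
  | 0, a => F a
  | m + 1, a => av a x (m + 1) fun p q => fr x F m (step a x p q)

/-- Join all but `m0` strands (uniform matching), stopping at the first network with property `B`;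
mean of `F` at the end, `F m a` also gets the number `m` of strands left. -/
noncomputable def frs (x : Y) (B : Net Y → Prop) [DecidablePred B] (F : ℕ → Net Y → ℝ) (m0 : ℕ) :
    ℕ → Net Y → ℝ
  | 0, a => F 0 a
  | m + 1, a => if m + 1 ≤ m0 ∨ B a then F (m + 1) a
      else av a x (m + 1) fun p q => frs x B F m0 m (step a x p q)

/-- Resistance, capped at `c` (and `c` if `y`, `z` are not connected). -/
noncomputable def rc (a : Net Y) (c : ℝ) (y z : Y) : ℝ :=
  open Classical in if ∃ r, ResLe a r y z then min (res a y z) c else c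

/-- The potential. -/
noncomputable def phi (lam c : ℝ) (A : Finset Y) (a : Net Y) : ℝ :=
  ∑ y ∈ A, ∑ z ∈ A.erase y, Real.exp (lam * rc a c y z)

/-- All resistances inside `A` are at most `r`. -/
def Good (a : Net Y) (A : Finset Y) (r : ℝ) : Prop := ∀ y ∈ A, ∀ z ∈ A, ResLe a r y z

/-- The network lives on `A` and has in- and out-degree `N` there. -/
structure Reg (a : Net Y) (A : Finset Y) (N : ℕ) : Prop where
  out : ∀ y ∈ A, outd a y = N
  inn : ∀ y ∈ A, ind a y = N
  off : ∀ y z, y ∉ A ∨ z ∉ A → a y z = 0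

/-- A unit potential for `(y, z)` (`0` if there is none). -/
noncomputable def pot (a : Net Y) (y z : Y) : Y → ℝ :=
  open Classical in if h : ∃ g, IsPot a y z g then Classical.choose h else 0

/-- Energy at `x` of the unit potential for `(y, z)`. -/
noncomputable def exr (a : Net Y) (x y z : Y) : ℝ := ex a x (pot a y z)

/-- The node `x` has `m` strands in, `m` strands out and no loop, the network lives on `A`, and all
nodes of `A` other than `x` have resistance at most `s` to each other. -/
structure Cls (a : Net Y) (A : Finset Y) (x : Y) (m : ℕ) (s : ℝ) : Prop where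
  off : ∀ y z, y ∉ A ∨ z ∉ A → a y z = 0
  loop : a x x = 0
  inn : ind a x = m
  out : outd a x = m
  res : ∀ y ∈ A.erase x, ∀ z ∈ A.erase x, ResLe a s y z

/-- Failure: some resistance between nodes of `A` other than `x` exceeds `s`. -/
def Fail (A : Finset Y) (x : Y) (s : ℝ) (a : Net Y) : Prop :=
  ¬ ∀ y ∈ A.erase x, ∀ z ∈ A.erase x, ResLe a s y z

noncomputable instance (A : Finset Y) (x : Y) (s : ℝ) : DecidablePred (Fail A x s) :=
  fun _ => Classical.propDecidable _

/-! ### Elementary facts -/

theorem bil_comm (a : Net Y) (f g : Y → ℝ) : bil a f g = bil a g f := by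
  unfold bil; exact Finset.sum_congr rfl fun y _ => Finset.sum_congr rfl fun z _ => by ring

theorem bil_add (a : Net Y) (f g h : Y → ℝ) : bil a f (fun y => g y + h y) = bil a f g + bil a f h := by
  unfold bil
  rw [← Finset.sum_add_distrib]
  refine Finset.sum_congr rfl fun y _ => ?_
  rw [← Finset.sum_add_distrib]
  exact Finset.sum_congr rfl fun z _ => by ring

theorem bil_smul (a : Net Y) (f g : Y → ℝ) (c : ℝ) : bil a f (fun y => c * g y) = c * bil a f g := by
  unfold bil
  rw [Finset.mul_sum]
  refine Finset.sum_congr rfl fun y _ => ?_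
  rw [Finset.mul_sum]
  exact Finset.sum_congr rfl fun z _ => by ring

theorem en_nonneg (a : Net Y) (f : Y → ℝ) : 0 ≤ en a f := by
  unfold en bil
  refine Finset.sum_nonneg fun y _ => Finset.sum_nonneg fun z _ => ?_
  exact mul_nonneg (Nat.cast_nonneg _) (mul_self_nonneg _)

theorem bil_sq_le (a : Net Y) (f g : Y → ℝ) : bil a f g ^ 2 ≤ en a f * en a g := by
  have h : ∀ c : ℝ, 0 ≤ en a f * c ^ 2 + 2 * bil a f g * c + en a g := by
    intro c
    have h1 : en a (fun y => c * f y + g y) = en a f * c ^ 2 + 2 * bil a f g * c + en a g := by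
      unfold en bil
      rw [Finset.sum_mul, Finset.mul_sum, Finset.sum_mul, ← Finset.sum_add_distrib,
        ← Finset.sum_add_distrib]
      refine Finset.sum_congr rfl fun y _ => ?_
      rw [Finset.sum_mul, Finset.mul_sum, Finset.sum_mul, ← Finset.sum_add_distrib,
        ← Finset.sum_add_distrib]
      exact Finset.sum_congr rfl fun z _ => by ring
    rw [← h1]; exact en_nonneg a _
  by_cases h0 : en a f = 0
  · have hb : bil a f g = 0 := by
      by_contra hne
      have h2 := h (-(en a g + 1) / (2 * bil a f g))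
      rw [h0] at h2
      have h3 : 2 * bil a f g * (-(en a g + 1) / (2 * bil a f g)) = -(en a g + 1) := by
        field_simp
      rw [h3] at h2
      linarith
    rw [hb, h0]; simp
  · have h1 : 0 < en a f := lt_of_le_of_ne (en_nonneg a f) (Ne.symm h0)
    have h2 := h (-(bil a f g) / en a f)
    have h3 : en a f * (-(bil a f g) / en a f) ^ 2 + 2 * bil a f g * (-(bil a f g) / en a f) + en a g
        = (en a f * en a g - bil a f g ^ 2) / en a f := by
      field_simp
      ring
    rw [h3] at h2
    have h4 := (div_nonneg_iff.mp h2)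
    rcases h4 with h4 | h4
    · linarith [h4.1]
    · linarith [h4.2]

end Pool.Agent.PL
end

section

/-! Mean over independent slabs. -/

open Finset

set_option linter.unusedSectionVars false

namespace Pool.Agent.Stirring.QK

variable {Ω : Type*} [Fintype Ω]

/-- Mean over `n` independent slabs (the head of the list is the first slab). -/
noncomputable def EL (w : Ω → ℝ) : ℕ → (List Ω → ℝ) → ℝ
  | 0, F => F []
  | n + 1, F => ∑ a, w a * EL w n fun l => F (a :: l)

variable {w : Ω → ℝ}

theorem EL_mono (hw : ∀ a, 0 ≤ w a) (n : ℕ) {F G : List Ω → ℝ}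
    (h : ∀ l, l.length = n → F l ≤ G l) : EL w n F ≤ EL w n G := by
  induction n generalizing F G with
  | zero => exact h [] rfl
  | succ n ih =>
    unfold EL
    refine Finset.sum_le_sum fun a _ => mul_le_mul_of_nonneg_left (ih fun l hl => ?_) (hw a)
    exact h _ (by simp [hl])

theorem EL_congr (n : ℕ) {F G : List Ω → ℝ} (h : ∀ l, l.length = n → F l = G l) :
    EL w n F = EL w n G := by
  induction n generalizing F G with
  | zero => exact h [] rfl
  | succ n ih =>
    unfold EL
    refine Finset.sum_congr rfl fun a _ => ?_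
    rw [ih fun l hl => h _ (by simp [hl])]

theorem EL_const (hw : ∑ a, w a = 1) (n : ℕ) (r : ℝ) : EL w n (fun _ => r) = r := by
  induction n with
  | zero => rfl
  | succ n ih =>
    unfold EL
    simp only [ih]
    rw [← Finset.sum_mul, hw, one_mul]

theorem EL_nonneg (hw : ∀ a, 0 ≤ w a) (n : ℕ) {F : List Ω → ℝ} (h : ∀ l, 0 ≤ F l) :
    0 ≤ EL w n F := by
  induction n generalizing F with
  | zero => exact h []
  | succ n ih =>
    unfold EL
    exact Finset.sum_nonneg fun a _ => mul_nonneg (hw a) (ih fun l => h _)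

theorem EL_mul (n : ℕ) (r : ℝ) (F : List Ω → ℝ) : EL w n (fun l => r * F l) = r * EL w n F := by
  induction n generalizing F with
  | zero => rfl
  | succ n ih =>
    unfold EL
    simp only [ih]
    rw [Finset.mul_sum]
    exact Finset.sum_congr rfl fun a _ => by ring

theorem EL_sum {ι : Type*} (s : Finset ι) (n : ℕ) (F : ι → List Ω → ℝ) :
    EL w n (fun l => ∑ i ∈ s, F i l) = ∑ i ∈ s, EL w n (F i) := by
  induction n generalizing F with
  | zero => rfl
  | succ n ih =>
    unfold EL
    simp only [ih]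
    simp only [Finset.mul_sum]
    rw [Finset.sum_comm]

theorem EL_add (n : ℕ) (F G : List Ω → ℝ) :
    EL w n (fun l => F l + G l) = EL w n F + EL w n G := by
  induction n generalizing F G with
  | zero => rfl
  | succ n ih =>
    unfold EL
    simp only [ih]
    rw [← Finset.sum_add_distrib]
    exact Finset.sum_congr rfl fun a _ => by ring

/-- Splitting the slabs. -/
theorem EL_append (m n : ℕ) (F : List Ω → ℝ) :
    EL w (m + n) F = EL w m fun l => EL w n fun l' => F (l ++ l') := by
  induction m generalizing F with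
  | zero => simp [EL]
  | succ m ih =>
    rw [Nat.succ_add]
    unfold EL
    refine Finset.sum_congr rfl fun a _ => ?_
    rw [ih]
    rfl

/-- The last slab. -/
theorem EL_snoc (n : ℕ) (F : List Ω → ℝ) :
    EL w (n + 1) F = EL w n fun l => ∑ a, w a * F (l ++ [a]) := by
  rw [EL_append n 1 F]
  rfl

/-- Markov's inequality. -/
theorem EL_markov (hw : ∀ a, 0 ≤ w a) (n : ℕ) {F : List Ω → ℝ} (hF : ∀ l, 0 ≤ F l) {c ε : ℝ}
    (hc : 0 < c) (h : EL w n F ≤ c * ε) {P : List Ω → Prop} [DecidablePred P]
    (hP : ∀ l, l.length = n → P l → c ≤ F l) : EL w n (fun l => if P l then 1 else 0) ≤ ε := by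
  have h1 : EL w n (fun l => if P l then (1 : ℝ) else 0) ≤ EL w n (fun l => c⁻¹ * F l) := by
    refine EL_mono hw n fun l hl => ?_
    split
    · next hp =>
      rw [← div_eq_inv_mul, le_div_iff₀ hc, one_mul]
      exact hP l hl hp
    · exact mul_nonneg (inv_nonneg.mpr hc.le) (hF l)
  rw [EL_mul] at h1
  refine h1.trans ?_
  rw [← div_eq_inv_mul, div_le_iff₀ hc]
  linarith

/-- An event which depends on a block of slabs and on the past. -/
theorem EL_block (hw : ∀ a, 0 ≤ w a) (hw1 : ∑ a, w a = 1) {J i k : ℕ} (hik : i + k ≤ J)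
    {F : List Ω → List Ω → ℝ} {ε : ℝ} (h : ∀ l, EL w k (F l) ≤ ε) :
    EL w J (fun l => F (l.take i) ((l.drop i).take k)) ≤ ε := by
  obtain ⟨r, rfl⟩ := Nat.exists_eq_add_of_le hik
  rw [EL_append (i + k) r, EL_append i k]
  have h1 : EL w i (fun l => EL w k fun l' => EL w r fun l'' =>
      F ((l ++ l' ++ l'').take i) (((l ++ l' ++ l'').drop i).take k)) =
      EL w i (fun l => EL w k fun l' => F l l') := by
    refine EL_congr i fun l hl => EL_congr k fun l' hl' => ?_
    have h2 : ∀ l'' : List Ω, F ((l ++ l' ++ l'').take i) (((l ++ l' ++ l'').drop i).take k) =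
        F l l' := by
      intro l''
      rw [List.append_assoc, List.take_left' hl, List.drop_left' hl, List.take_left' hl']
    simp only [h2]
    exact EL_const hw1 r _
  rw [h1]
  calc EL w i (fun l => EL w k fun l' => F l l') ≤ EL w i (fun _ => ε) :=
        EL_mono hw i fun l _ => h l
    _ = ε := EL_const hw1 i ε

end Pool.Agent.Stirring.QK
end

section

/-! Probabilities. -/

open Finset

set_option linter.unusedSectionVars false

namespace Pool.Agent.Stirring.QK

variable {Ω : Type*} [Fintype Ω] {w : Ω → ℝ}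

/-- Probability of an event of `n` independent slabs. -/
noncomputable def Pr (w : Ω → ℝ) (n : ℕ) (P : List Ω → Prop) : ℝ :=
  open Classical in EL w n (fun l => if P l then 1 else 0)

theorem Pr_eq (n : ℕ) (P : List Ω → Prop) [DecidablePred P] :
    Pr w n P = EL w n (fun l => if P l then 1 else 0) := by
  unfold Pr
  congr 1
  funext l
  congr

theorem Pr_mono (hw : ∀ a, 0 ≤ w a) (n : ℕ) {P Q : List Ω → Prop}
    (h : ∀ l, l.length = n → P l → Q l) : Pr w n P ≤ Pr w n Q := by
  classical
  unfold Pr
  refine EL_mono hw n fun l hl => ?_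
  by_cases hp : P l
  · rw [if_pos hp, if_pos (h l hl hp)]
  · rw [if_neg hp]; split_ifs <;> norm_num

theorem Pr_nonneg (hw : ∀ a, 0 ≤ w a) (n : ℕ) (P : List Ω → Prop) : 0 ≤ Pr w n P := by
  classical
  unfold Pr
  exact EL_nonneg hw n fun l => by split_ifs <;> norm_num

theorem Pr_le_one (hw : ∀ a, 0 ≤ w a) (hw1 : ∑ a, w a = 1) (n : ℕ) (P : List Ω → Prop) :
    Pr w n P ≤ 1 := by
  classical
  unfold Pr
  calc _ ≤ EL w n (fun _ => (1 : ℝ)) := EL_mono hw n fun l _ => by split_ifs <;> norm_num
    _ = 1 := EL_const hw1 n 1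

theorem Pr_false (n : ℕ) {P : List Ω → Prop} (h : ∀ l, l.length = n → ¬ P l) : Pr w n P = 0 := by
  classical
  unfold Pr
  have h1 : EL w n (fun l => if P l then (1 : ℝ) else 0) = EL w n (fun l => 0 * (0 : ℝ)) :=
    EL_congr n fun l hl => by rw [if_neg (h l hl)]; ring
  rw [h1, EL_mul, zero_mul]

theorem Pr_or (hw : ∀ a, 0 ≤ w a) (n : ℕ) (P Q : List Ω → Prop) :
    Pr w n (fun l => P l ∨ Q l) ≤ Pr w n P + Pr w n Q := by
  classical
  unfold Pr
  rw [← EL_add]
  refine EL_mono hw n fun l _ => ?_
  by_cases hp : P l <;> by_cases hq : Q l <;> simp [hp, hq]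

theorem Pr_exists (hw : ∀ a, 0 ≤ w a) (n : ℕ) {ι : Type*} [Fintype ι]
    (P : ι → List Ω → Prop) {ε : ℝ} (h : ∀ i, Pr w n (P i) ≤ ε) :
    Pr w n (fun l => ∃ i, P i l) ≤ Fintype.card ι * ε := by
  classical
  have h1 : Pr w n (fun l => ∃ i, P i l) ≤ ∑ i, Pr w n (P i) := by
    unfold Pr
    rw [← EL_sum]
    refine EL_mono hw n fun l _ => ?_
    split_ifs with hp
    · obtain ⟨i, hi⟩ := hp
      calc (1 : ℝ) = if P i l then 1 else 0 := by rw [if_pos hi]
        _ ≤ _ := Finset.single_le_sum (f := fun i => if P i l then (1 : ℝ) else 0)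
            (fun j _ => by split_ifs <;> norm_num) (Finset.mem_univ i)
    · exact Finset.sum_nonneg fun j _ => by split_ifs <;> norm_num
  refine h1.trans ?_
  calc ∑ i, Pr w n (P i) ≤ ∑ _i : ι, ε := Finset.sum_le_sum fun i _ => h i
    _ = _ := by rw [Finset.sum_const, Finset.card_univ, nsmul_eq_mul]

theorem Pr_exists2 (hw : ∀ a, 0 ≤ w a) (n : ℕ) {ι κ : Type*} [Fintype ι] [Fintype κ]
    (P : ι → κ → List Ω → Prop) {ε : ℝ} (h : ∀ i j, Pr w n (P i j) ≤ ε) :
    Pr w n (fun l => ∃ i j, P i j l) ≤ Fintype.card ι * (Fintype.card κ * ε) :=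
  Pr_exists hw n (fun i l => ∃ j, P i j l) fun i => Pr_exists hw n (P i) (h i)

/-- One slab. -/
theorem Pr_one (P : List Ω → Prop) [DecidablePred P] :
    Pr w 1 P = ∑ a, w a * (if P [a] then 1 else 0) := by
  rw [Pr_eq]
  rfl

/-- All the blocks of `l` have the property `P`. -/
def Dec (P : List Ω → List Ω → Prop) (l : List Ω) : Prop :=
  ∀ l₀ A B l₃, l = l₀ ++ A ++ B ++ l₃ → P A B

/-- The union bound over the blocks. -/
theorem dec_bound (hw : ∀ a, 0 ≤ w a) (hw1 : ∑ a, w a = 1) {P : List Ω → List Ω → Prop} {J : ℕ}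
    {ε : ℝ} (hε : 0 ≤ ε) (h : ∀ A, ∀ k ≤ J, Pr w k (fun B => ¬ P A B) ≤ ε) :
    Pr w J (fun l => ¬ Dec P l) ≤ ((J : ℝ) + 1) ^ 3 * ε := by
  classical
  set ι := Fin (J + 1) × Fin (J + 1) × Fin (J + 1) with hι
  set E : ι → List Ω → Prop := fun i l => (i.1 : ℕ) + i.2.1 + i.2.2 ≤ J ∧
    ¬ P ((l.take (i.1 + i.2.1)).drop i.1) ((l.drop (i.1 + i.2.1)).take i.2.2) with hE
  have h1 : Pr w J (fun l => ¬ Dec P l) ≤ Pr w J (fun l => ∃ i, E i l) := by
    refine Pr_mono hw J fun l hl hn => ?_
    unfold Dec at hn
    push Not at hn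
    obtain ⟨l₀, A, B, l₃, he, hP⟩ := hn
    have hlen : l₀.length + A.length + B.length + l₃.length = J := by
      rw [← hl, he]; simp only [List.length_append]
    refine ⟨(⟨l₀.length, by omega⟩, ⟨A.length, by omega⟩, ⟨B.length, by omega⟩), ?_, ?_⟩
    · simp only
      omega
    · simp only
      have e1 : l = (l₀ ++ A) ++ (B ++ l₃) := by rw [he]; simp [List.append_assoc]
      have e2 : l.take (l₀.length + A.length) = l₀ ++ A := by
        rw [e1]; exact List.take_left' (by simp)
      have e3 : l.drop (l₀.length + A.length) = B ++ l₃ := by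
        rw [e1]; exact List.drop_left' (by simp)
      rw [e2, e3, List.drop_left' rfl, List.take_left' rfl]
      exact hP
  refine h1.trans ((Pr_exists hw J E (ε := ε) ?_).trans (le_of_eq ?_))
  · rintro ⟨i, j, k⟩
    by_cases hijk : (i : ℕ) + j + k ≤ J
    · have h2 : Pr w J (E (i, j, k)) = EL w J (fun l => (fun l' l'' =>
          if ¬ P (l'.drop i) l'' then (1 : ℝ) else 0) (l.take (i + j)) ((l.drop (i + j)).take k)) := by
        rw [Pr_eq]
        refine EL_congr J fun l _ => ?_
        simp only [hE, hijk, true_and]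
      rw [h2]
      refine EL_block hw hw1 hijk (F := fun l' l'' => if ¬ P (l'.drop i) l'' then (1 : ℝ) else 0)
        (fun l' => ?_)
      have h3 := h (l'.drop i) k (by omega)
      rwa [Pr_eq] at h3
    · rw [Pr_false J fun l _ hl => hijk hl.1]
      exact hε
  · have h4 : Fintype.card ι = (J + 1) * ((J + 1) * (J + 1)) := by
      simp only [hι, Fintype.card_prod, Fintype.card_fin]
    rw [h4]
    push_cast
    ring

end Pool.Agent.Stirring.QK
end
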