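import Pool.Agent.Lib.MP_6c3d62_pr.Mg.G061
import Pool.Agent.Lib.MP_6c3d62_pr.Mg.G054
import Pool.Agent.Lib.MP_6c3d62_pr.Mg.G025

section

/-! Deterministic part: short rounds, long step. -/

open Finset

set_option linter.unusedSectionVars false

namespace Pool.Agent.Stirring.QK

variable {d L : ℕ} [NeZero L] {Ω : Type*} [Fintype Ω]

/-- The maximum of a function. -/
noncomputable def mx {V : Type*} [Fintype V] [Nonempty V] (u : V → ℝ) : ℝ :=
  Finset.univ.sup' Finset.univ_nonempty u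

theorem le_mx {V : Type*} [Fintype V] [Nonempty V] (u : V → ℝ) (z : V) : u z ≤ mx u :=
  Finset.le_sup' u (Finset.mem_univ z)

theorem mx_le {V : Type*} [Fintype V] [Nonempty V] {u : V → ℝ} {U : ℝ} (h : ∀ z, u z ≤ U) :
    mx u ≤ U := Finset.sup'_le _ _ fun z _ => h z

/-- Start at one site. -/
noncomputable def dl (x : Fin d → ZMod L) : (Fin d → ZMod L) → ℝ := Pi.single x 1

/-- Uniform mass on the cube `q + Q`. -/
noncomputable def cu (Q : Finset (Fin d → ZMod L)) (q : Fin d → ZMod L) :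
    (Fin d → ZMod L) → ℝ := fun z => if z - q ∈ Q then 1 / (Q.card : ℝ) else 0

/-- The conditions on an environment: `A` = past, `B` = block of slabs after `A`.
`δ` = relative precision, `lam` = exponent, `ρ` = radius, `Jg` = meeting length, `t0` = time of the
localisation, `Kw` = bound for the number of windows, `Mm` = bound for the masses. -/
structure Conds (S : Slab (Fin d → ZMod L) Ω) (Q Λ : Finset (Fin d → ZMod L))
    (h δ lam ρ Kw Mm : ℝ) (Jg t0 : ℕ) (A B : List Ω) : Prop where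
  tele_up : ∀ x w, ∑ z, fw S Q (A ++ B) (dl x) z * hk d L h z w ≤
    2 * ∑ z, fw S Q A (dl x) z * hk d L ((B.length + 1) * h) z w + 4 * δ * mx (fw S Q A (dl x))
  tele_lo : ∀ x w, ∑ z, fw S Q A (dl x) z * hk d L ((B.length + 1) * h) z w
    - 2 * δ * mx (fw S Q A (dl x)) ≤ 2 * ∑ z, fw S Q (A ++ B) (dl x) z * hk d L h z w
  mass_up : ∀ a, B = [a] → ∀ x q, ∑ y ∈ Q, fw S Q A (dl x) (S.T a (q + y)) ≤
    2 * ∑ y ∈ Q, ∑ z, fw S Q A (dl x) z * hk d L h z (q + y) + 32 * lam * mx (fw S Q A (dl x))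
  mass_lo : ∀ a, B = [a] → ∀ x q, ∑ y ∈ Q, ∑ z, fw S Q A (dl x) z * hk d L h z (q + y)
    - 16 * lam * mx (fw S Q A (dl x)) ≤ 2 * ∑ y ∈ Q, fw S Q A (dl x) (S.T a (q + y))
  meet : B.length = Jg → ∀ z, ¬ Avoid S Q B z
  disp : B.length ≤ Jg → ∀ z, (nrm (trc S B z - z) : ℝ) ≤ ρ
  loc : B.length = t0 → ∀ x, ∑ z, (if ρ ≤ (nrm (z - x) : ℝ) then fw S Q B (dl x) z else 0) ≤ 1 / 2
  num : ∀ x, cnt S Q Λ B (dl x) ≤ Kw
  num' : ∀ x, bcnt S Q Λ B (dl x) ≤ Kw
  mass : ∀ a, B = [a] → ∀ q q', ∑ y ∈ Q, fw S Q A (cu Q q) (S.T a (q' + y)) ≤ Mm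

variable {S : Slab (Fin d → ZMod L) Ω} {Q Λ : Finset (Fin d → ZMod L)}
variable {h δ lam ρ Kw Mm : ℝ} {Jg t0 : ℕ}

theorem dl_nonneg (x z : Fin d → ZMod L) : 0 ≤ dl x z := by
  unfold dl
  by_cases h : z = x
  · subst h; simp
  · simp [Pi.single_eq_of_ne h]

theorem dl_le_one (x z : Fin d → ZMod L) : dl x z ≤ 1 := by
  unfold dl
  by_cases h : z = x
  · subst h; simp
  · simp [Pi.single_eq_of_ne h]

theorem dl_sum (x : Fin d → ZMod L) : ∑ z, dl x z = 1 := by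
  unfold dl
  rw [Finset.sum_pi_single']
  simp

theorem fw_dl_sum (l : List Ω) (x : Fin d → ZMod L) : ∑ z, fw S Q l (dl x) z = 1 := by
  rw [fw_sum, dl_sum]

theorem mx_anti (hD : AllDis S Q) (l l' : List Ω) (u : (Fin d → ZMod L) → ℝ) :
    mx (fw S Q (l ++ l') u) ≤ mx (fw S Q l u) :=
  mx_le fun z => by
    rw [fw_append]
    exact fw_le hD l' (fun z => le_mx _ z) z

theorem mx_nonneg {u : (Fin d → ZMod L) → ℝ} (hu : ∀ z, 0 ≤ u z) : 0 ≤ mx u :=
  (hu 0).trans (le_mx u 0)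

theorem sum_mul_le {u g : (Fin d → ZMod L) → ℝ} {M : ℝ} (hu : ∀ z, 0 ≤ u z) (hu1 : ∑ z, u z = 1)
    (hg : ∀ z, g z ≤ M) : ∑ z, u z * g z ≤ M := by
  calc ∑ z, u z * g z ≤ ∑ z, u z * M :=
        Finset.sum_le_sum fun z _ => mul_le_mul_of_nonneg_left (hg z) (hu z)
    _ = M := by rw [← Finset.sum_mul, hu1, one_mul]

/-- **R1** one short round. -/
theorem round_up (hD : AllDis S Q) (hQ : Q.Nonempty) (hlam : 0 ≤ lam)
    {M : ℝ} (hM : ∀ m : ℕ, Jg ≤ m → ∀ z w, hk d L ((m + 1) * h) z w ≤ M)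
    {l : List Ω} (hl : Dec (Conds S Q Λ h δ lam ρ Kw Mm Jg t0) l)
    {l₀ A B l₃ : List Ω} (hlA : l = l₀ ++ A ++ B ++ l₃) (hB : B.length = 2 * Jg)
    (x z : Fin d → ZMod L) :
    fw S Q (A ++ B) (dl x) z ≤ 4 * M + (8 * δ + 32 * lam / Q.card) * mx (fw S Q A (dl x)) := by
  obtain ⟨B1, B2, rfl, h1, h2⟩ : ∃ B1 B2 : List Ω, B = B1 ++ B2 ∧ B1.length = Jg ∧
      B2.length = Jg := ⟨B.take Jg, B.drop Jg, (List.take_append_drop _ _).symm, by
        rw [List.length_take]; omega, by rw [List.length_drop]; omega⟩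
  have c1 := (hl l₀ (A ++ B1) B2 l₃ (by rw [hlA]; simp [List.append_assoc])).meet h2 z
  obtain ⟨b1, b2, a, q, rfl, hz, hq, hzq⟩ := exists_last c1
  have hN : (0 : ℝ) < Q.card := by exact_mod_cast Finset.card_pos.mpr hQ
  set U := mx (fw S Q A (dl x)) with hU
  have hU0 : 0 ≤ U := mx_nonneg (fw_nonneg hD A (dl_nonneg x))
  have e1 : A ++ (B1 ++ (b1 ++ a :: b2)) = (A ++ B1 ++ b1) ++ a :: b2 := by
    simp [List.append_assoc]
  rw [e1, fw_last hD hz hq hzq]
  have c2 := (hl l₀ (A ++ B1 ++ b1) [a] (b2 ++ l₃) (by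
    rw [hlA]; simp [List.append_assoc])).mass_up a rfl x q
  have c3 := (hl l₀ A (B1 ++ b1) (a :: b2 ++ l₃) (by
    rw [hlA]; simp [List.append_assoc])).tele_up x
  have c4 : mx (fw S Q (A ++ B1 ++ b1) (dl x)) ≤ U := by
    rw [List.append_assoc]; exact mx_anti hD A _ _
  have c5 : ∀ w, ∑ z, fw S Q (A ++ B1 ++ b1) (dl x) z * hk d L h z w ≤ 2 * M + 4 * δ * U := by
    intro w
    have c6 := c3 w
    rw [← List.append_assoc] at c6
    refine c6.trans ?_
    have c7 := sum_mul_le (fw_nonneg hD A (dl_nonneg x)) (fw_dl_sum A x)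
      (fun z => hM (B1 ++ b1).length (by simp; omega) z w)
    linarith
  have c6 : ∑ y ∈ Q, ∑ z, fw S Q (A ++ B1 ++ b1) (dl x) z * hk d L h z (q + y) ≤
      Q.card * (2 * M + 4 * δ * U) := by
    calc _ ≤ ∑ _y ∈ Q, (2 * M + 4 * δ * U) := Finset.sum_le_sum fun y _ => c5 _
      _ = _ := by rw [Finset.sum_const, nsmul_eq_mul]
  rw [div_le_iff₀ hN]
  have c7 : 32 * lam * mx (fw S Q (A ++ B1 ++ b1) (dl x)) ≤ 32 * lam * U :=
    mul_le_mul_of_nonneg_left c4 (by positivity)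
  have c8 : (4 * M + (8 * δ + 32 * lam / Q.card) * U) * Q.card =
      2 * (Q.card * (2 * M + 4 * δ * U)) + 32 * lam * U := by
    field_simp
    ring
  rw [c8]
  linarith

/-- **R2** many short rounds. -/
theorem rounds_up (hD : AllDis S Q) (hQ : Q.Nonempty) (hδ : 0 ≤ δ) (hlam : 0 ≤ lam)
    {M : ℝ} (hM0 : 0 ≤ M) (hM : ∀ m : ℕ, Jg ≤ m → ∀ z w, hk d L ((m + 1) * h) z w ≤ M)
    (he : 8 * δ + 32 * lam / Q.card ≤ 1 / 2)
    {l : List Ω} (hl : Dec (Conds S Q Λ h δ lam ρ Kw Mm Jg t0) l) (R : ℕ)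
    {l₀ A B l₃ : List Ω} (hlA : l = l₀ ++ A ++ B ++ l₃) (hB : B.length = R * (2 * Jg))
    (x z : Fin d → ZMod L) :
    fw S Q (A ++ B) (dl x) z ≤
      8 * M + (8 * δ + 32 * lam / Q.card) ^ R * mx (fw S Q A (dl x)) := by
  set e := 8 * δ + 32 * lam / Q.card with hedef
  have he0 : 0 ≤ e := by positivity
  induction R generalizing B l₃ z with
  | zero =>
    have : B = [] := by
      rw [← List.length_eq_zero_iff]; simpa using hB
    subst this
    rw [List.append_nil, pow_zero, one_mul]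
    have := le_mx (fw S Q A (dl x)) z
    linarith
  | succ R ih =>
    have hm : (R + 1) * (2 * Jg) = R * (2 * Jg) + 2 * Jg := by ring
    rw [hm] at hB
    obtain ⟨B1, B2, rfl, h1, h2⟩ : ∃ B1 B2 : List Ω, B = B1 ++ B2 ∧ B1.length = R * (2 * Jg) ∧
        B2.length = 2 * Jg := by
      generalize R * (2 * Jg) = K at hB ⊢
      exact ⟨B.take K, B.drop K, (List.take_append_drop _ _).symm, by
          rw [List.length_take]; omega, by rw [List.length_drop]; omega⟩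
    have c1 := round_up (l₀ := l₀) (A := A ++ B1) (B := B2) (l₃ := l₃) hD hQ hlam hM hl
      (by rw [hlA]; simp [List.append_assoc]) h2 x z
    rw [← List.append_assoc]
    refine c1.trans ?_
    have c2 : mx (fw S Q (A ++ B1) (dl x)) ≤ 8 * M + e ^ R * mx (fw S Q A (dl x)) :=
      mx_le fun z => ih (l₃ := B2 ++ l₃) (by rw [hlA]; simp [List.append_assoc]) h1 z
    have c3 := mul_le_mul_of_nonneg_left c2 he0
    have c4 : e * (8 * M) ≤ 1 / 2 * (8 * M) := mul_le_mul_of_nonneg_right he (by positivity)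
    rw [pow_succ]
    nlinarith

theorem nrm_add (x y : Fin d → ZMod L) : nrm (x + y) ≤ nrm x + nrm y := by
  unfold nrm
  refine Finset.sup_le fun i _ => ?_
  have h1 : ((x + y) i).valMinAbs.natAbs ≤ (x i).valMinAbs.natAbs + (y i).valMinAbs.natAbs :=
    (ZMod.natAbs_valMinAbs_add_le (x i) (y i)).trans (Int.natAbs_add_le _ _)
  refine h1.trans (add_le_add ?_ ?_)
  · exact Finset.le_sup (f := fun i => (x i).valMinAbs.natAbs) (Finset.mem_univ i)
  · exact Finset.le_sup (f := fun i => (y i).valMinAbs.natAbs) (Finset.mem_univ i)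

theorem nrm_sub_comm (x y : Fin d → ZMod L) : nrm (x - y) = nrm (y - x) := by
  rw [← nrm_neg, neg_sub]

theorem nrm_box {b : ℕ} {y y' : Fin d → ZMod L} (hy : y ∈ box d L b) (hy' : y' ∈ box d L b) :
    nrm (y - y') ≤ b := by
  unfold box at hy hy'
  rw [Finset.mem_image] at hy hy'
  obtain ⟨j, _, rfl⟩ := hy
  obtain ⟨j', _, rfl⟩ := hy'
  unfold nrm
  refine Finset.sup_le fun i _ => ?_
  have h1 : ((fun i => ((j i : ℕ) : ZMod L)) - fun i => ((j' i : ℕ) : ZMod L)) i =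
      (((j i : ℤ) - (j' i : ℤ) : ℤ) : ZMod L) := by
    push_cast
    rfl
  rw [h1]
  have h2 := av_le (L := L) ((j i : ℤ) - (j' i : ℤ))
  unfold av at h2
  refine h2.trans ?_
  have := (j i).isLt
  have := (j' i).isLt
  omega

/-- **R3** the long step: lower bound of the kernel. -/
theorem low_bound {b : ℕ} (hD : AllDis S (box d L b)) (hQ : (box d L b).Nonempty) (hδ : 0 ≤ δ)
    (hlam : 0 ≤ lam) {U κ : ℝ} (hκ : 0 ≤ κ) {l : List Ω}
    (hl : Dec (Conds S (box d L b) Λ h δ lam ρ Kw Mm Jg t0) l) (hbρ : (b : ℝ) ≤ ρ) {m₀ : ℕ}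
    (hlow : ∀ m : ℕ, m₀ ≤ m → m ≤ l.length → ∀ z w, (nrm (w - z) : ℝ) ≤ 4 * ρ →
      κ ≤ hk d L ((m + 1) * h) z w) (hk0 : ∀ m : ℕ, ∀ z w, 0 ≤ hk d L ((m + 1) * h) z w)
    (hU : ∀ l₀ B l₃, l = l₀ ++ B ++ l₃ → B.length = t0 → ∀ x z,
      fw S (box d L b) B (dl x) z ≤ U)
    {l₀ B l₃ : List Ω} (hlB : l = l₀ ++ B ++ l₃) (hB : t0 + m₀ + Jg ≤ B.length)
    (x z : Fin d → ZMod L) (hxz : (nrm (z - x) : ℝ) ≤ ρ) :
    κ / 8 - (δ / 2 + 8 * lam / (box d L b).card) * U ≤ fw S (box d L b) B (dl x) z := by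
  set Q := box d L b with hQdef
  obtain ⟨B0, B1, B2, rfl, h0, h1, h2⟩ : ∃ B0 B1 B2 : List Ω, B = B0 ++ B1 ++ B2 ∧
      B0.length = t0 ∧ m₀ ≤ B1.length ∧ B2.length = Jg := by
    refine ⟨B.take t0, (B.drop t0).take (B.length - t0 - Jg),
      (B.drop t0).drop (B.length - t0 - Jg), ?_, ?_, ?_, ?_⟩
    · rw [List.append_assoc, List.take_append_drop, List.take_append_drop]
    · rw [List.length_take]; omega
    · rw [List.length_take, List.length_drop]; omega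
    · rw [List.length_drop, List.length_drop]; omega
  have c1 := (hl l₀ (B0 ++ B1) B2 l₃ (by rw [hlB]; simp [List.append_assoc])).meet h2 z
  obtain ⟨b1, b2, a, q, rfl, hz, hq, hzq⟩ := exists_last c1
  have hN : (0 : ℝ) < Q.card := by exact_mod_cast Finset.card_pos.mpr hQ
  have hU0 : 0 ≤ U := (fw_nonneg hD B0 (dl_nonneg x) 0).trans
    (hU l₀ B0 (B1 ++ (b1 ++ a :: b2) ++ l₃) (by rw [hlB]; simp [List.append_assoc]) h0 x 0)
  have e1 : B0 ++ B1 ++ (b1 ++ a :: b2) = (B0 ++ B1 ++ b1) ++ a :: b2 := by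
    simp [List.append_assoc]
  rw [e1, fw_last hD hz hq hzq]
  have c2 := (hl l₀ (B0 ++ B1 ++ b1) [a] (b2 ++ l₃) (by
    rw [hlB]; simp [List.append_assoc])).mass_lo a rfl x q
  have c3 := (hl l₀ B0 (B1 ++ b1) (a :: b2 ++ l₃) (by
    rw [hlB]; simp [List.append_assoc])).tele_lo x
  have c4 : mx (fw S Q (B0 ++ B1 ++ b1) (dl x)) ≤ U := by
    rw [List.append_assoc]
    refine (mx_anti hD B0 _ _).trans (mx_le fun z => ?_)
    exact hU l₀ B0 (B1 ++ (b1 ++ a :: b2) ++ l₃) (by rw [hlB]; simp [List.append_assoc]) h0 x z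
  have c4' : mx (fw S Q B0 (dl x)) ≤ U := mx_le fun z =>
    hU l₀ B0 (B1 ++ (b1 ++ a :: b2) ++ l₃) (by rw [hlB]; simp [List.append_assoc]) h0 x z
  have c5 := (hl l₀ B0 [] (B1 ++ (b1 ++ a :: b2) ++ l₃) (by
    rw [hlB]; simp [List.append_assoc]))
  have c6 := (hl l₀ [] B0 (B1 ++ (b1 ++ a :: b2) ++ l₃) (by
    rw [hlB]; simp [List.append_assoc])).loc h0 x
  have c7 := (hl (l₀ ++ B0 ++ B1 ++ b1 ++ [a]) [] b2 l₃ (by
    rw [hlB]; simp [List.append_assoc])).disp (by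
      simp only [List.length_append, List.length_cons] at h2; omega) z
  -- near mass
  have c8 : 1 / 2 ≤ ∑ y, (if ρ ≤ (nrm (y - x) : ℝ) then 0 else fw S Q B0 (dl x) y) := by
    have h3 : ∑ y, (if ρ ≤ (nrm (y - x) : ℝ) then fw S Q B0 (dl x) y else 0) +
        ∑ y, (if ρ ≤ (nrm (y - x) : ℝ) then 0 else fw S Q B0 (dl x) y) = 1 := by
      rw [← Finset.sum_add_distrib, ← fw_dl_sum (S := S) (Q := Q) B0 x]
      refine Finset.sum_congr rfl fun y _ => ?_
      split_ifs <;> simp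
    linarith
  -- lower bound at the sites of the window
  have c9 : ∀ y ∈ Q, κ / 2 ≤ ∑ z', fw S Q B0 (dl x) z' *
      hk d L (((B1 ++ b1).length + 1) * h) z' (q + y) := by
    intro y hy
    have h3 : κ * ∑ y, (if ρ ≤ (nrm (y - x) : ℝ) then 0 else fw S Q B0 (dl x) y) ≤
        ∑ z', fw S Q B0 (dl x) z' *
        hk d L (((B1 ++ b1).length + 1) * h) z' (q + y) := by
      rw [Finset.mul_sum]
      refine Finset.sum_le_sum fun z' _ => ?_
      split_ifs with h4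
      · rw [mul_zero]
        exact mul_nonneg (fw_nonneg hD B0 (dl_nonneg x) z') (hk0 _ _ _)
      · rw [mul_comm]
        refine mul_le_mul_of_nonneg_left ?_ (fw_nonneg hD B0 (dl_nonneg x) z')
        refine hlow _ ?_ ?_ z' (q + y) ?_
        · rw [List.length_append]; omega
        · rw [hlB]; simp only [List.length_append, List.length_cons]; omega
        · push Not at h4
          have e2 : q + y - z' = (y - (trc S b2 z - q)) + ((trc S b2 z - z) + ((z - x) +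
              (x - z'))) := by abel
          rw [e2]
          have n1 := nrm_add (y - (trc S b2 z - q)) ((trc S b2 z - z) + ((z - x) + (x - z')))
          have n2 := nrm_add (trc S b2 z - z) ((z - x) + (x - z'))
          have n3 := nrm_add (z - x) (x - z')
          have n4 := nrm_box hy hzq
          rw [nrm_sub_comm x z'] at n3
          have n5 : (nrm ((y - (trc S b2 z - q)) + ((trc S b2 z - z) + ((z - x) + (x - z')))) : ℝ) ≤
              b + (nrm (trc S b2 z - z) + (nrm (z - x) + nrm (z' - x))) := by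
            exact_mod_cast n1.trans (add_le_add n4 (n2.trans (add_le_add le_rfl n3)))
          linarith
    have h5 := mul_le_mul_of_nonneg_left c8 hκ
    linarith
  have c10 : Q.card * ((κ / 2 - 2 * δ * U) / 2) ≤
      ∑ y ∈ Q, ∑ z, fw S Q (B0 ++ B1 ++ b1) (dl x) z *
        hk d L h z (q + y) := by
    have h3 : ∑ _y ∈ Q, (κ / 2 - 2 * δ * U) / 2 = Q.card * ((κ / 2 - 2 * δ * U) / 2) := by
      rw [Finset.sum_const, nsmul_eq_mul]
    rw [← h3]
    refine Finset.sum_le_sum fun y hy => ?_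
    have h4 := c3 (q + y)
    rw [← List.append_assoc] at h4
    have h5 := c9 y hy
    have h6 : 2 * δ * mx (fw S Q B0 (dl x)) ≤ 2 * δ * U :=
      mul_le_mul_of_nonneg_left c4' (by positivity)
    linarith
  have c11 : 16 * lam * mx (fw S Q (B0 ++ B1 ++ b1) (dl x)) ≤ 16 * lam * U :=
    mul_le_mul_of_nonneg_left c4 (by positivity)
  rw [le_div_iff₀ hN]
  have c12 : (κ / 8 - (δ / 2 + 8 * lam / Q.card) * U) * Q.card =
      (Q.card * ((κ / 2 - 2 * δ * U) / 2) - 16 * lam * U) / 2 := by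
    field_simp
    ring
  rw [c12]
  linarith

end Pool.Agent.Stirring.QK
end

section

/-! One node, without loops: from the supermartingale to the mean. -/

set_option autoImplicit false
set_option linter.unusedSectionVars false

open Finset

namespace Pool.Agent.PL

open Pool.Agent.PL.SD (psi wf Xf Gf Lf Pf two_le_Xf)

theorem np_expdiff_anti {Y : Type*} [Fintype Y] [DecidableEq Y] {lam c e : ℝ} (hlam : 0 ≤ lam)
    (hc : 0 ≤ c) (y z : Y) (b b' : Net Y) (h : ∀ u v, b u v ≤ b' u v) :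
    max (Real.exp (lam * rc b' c y z) - e) 0 ≤ max (Real.exp (lam * rc b c y z) - e) 0 := by
  have h1 := rc_anti (fun u v _ => h u v) c hc y z
  have h2 : Real.exp (lam * rc b' c y z) ≤ Real.exp (lam * rc b c y z) :=
    Real.exp_le_exp.2 (mul_le_mul_of_nonneg_left h1 hlam)
  exact max_le_max (by linarith) le_rfl

theorem np_main {Y : Type*} [Fintype Y] [DecidableEq Y] {a : Net Y} {A : Finset Y} {x y z : Y}
    {m : ℕ} {ρ T lam θ σ Λ : ℝ} (hρ : 0 < ρ) (hy : y ∈ A.erase x)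
    (hz : z ∈ A.erase x) (h : Cls a A x m ρ) (hm : 32 ≤ m) (hT : 2 * ρ * m ≤ T)
    (hρ1 : 256 * ρ ≤ 1) (hlam : 0 ≤ lam) (hθ : 0 ≤ θ) (hσ : 0 < σ)
    (hω1 : 4 * ((1 + θ) * lam * (2 * ρ) ^ 2) ≤ 1)
    (hω3 : (1 + θ) * (2 * (lam * (64 * (2 * ρ) ^ 2))) ≤ Real.log 2)
    (hΛ : 0 ≤ Λ) (hω2 : 4 * (Λ * (2 * ρ) ^ 2) ≤ 1) :
    fr x (fun b => max (Real.exp (lam * rc b (2 * ρ) y z)
        - Real.exp (lam * rc a (2 * ρ) y z)) 0) m a ≤
      Real.exp (lam * res a y z) * wf lam θ σ (2 * ρ) (2 + 3 * T) 64 m 0 (exr a x y z) +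
      Real.exp (lam * (2 * ρ)) * ∑ u ∈ A.erase x, ∑ v ∈ A.erase x,
        Xf (Λ * (2 * ρ) ^ 2) (2 + 3 * T) (2 + (2 + 3 * T) ^ 2 / 4) m *
          Real.exp (Λ * (res a u v - 2 * ρ)) := by
  have hT0 : 0 ≤ T := le_trans (by positivity) hT
  have hρ0 : 0 ≤ 2 * ρ := by positivity
  have hρ64 : 2 * ρ ≤ 1 / 64 := by linarith
  have hRa : rc a (2 * ρ) y z = res a y z :=
    rc_eq hρ0 ((h.res y hy z hz).mono (by linarith))
  rw [hRa]
  set R0 := res a y z with hR0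
  refine (fr_le_frs_del (B := Fail A x (2 * ρ)) (np_expdiff_anti hlam hρ0 y z) 32 m a h.loop h.inn
    h.out).trans ?_
  let V : ℕ → Net Y → ℝ := fun k b => Real.exp (lam * R0) *
      wf lam θ σ (2 * ρ) (2 + 3 * T) 64 k (lam * (res b y z - R0)) (exr b x y z) +
      Real.exp (lam * (2 * ρ)) * ∑ u ∈ A.erase x, ∑ v ∈ A.erase x,
        Xf (Λ * (2 * ρ) ^ 2) (2 + 3 * T) (2 + (2 + 3 * T) ^ 2 / 4) k *
          Real.exp (Λ * (res b u v - 2 * ρ))
  have hXnn : ∀ k : ℕ, 0 < Xf (Λ * (2 * ρ) ^ 2) (2 + 3 * T) (2 + (2 + 3 * T) ^ 2 / 4) (k : ℝ) := by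
    intro k; unfold Xf; positivity
  have key := frs_le (x := x) (B := Fail A x (2 * ρ)) (m0 := 32)
    (F := fun _ b => max (Real.exp (lam * rc (del b x) (2 * ρ) y z) - Real.exp (lam * R0)) 0)
    (V := V) (fun k b => Cls b A x k (6 / 5 * (2 * ρ)) ∧ 32 ≤ k ∧ k ≤ m) ?_ ?_ ?_ m a ?_
  · refine key.trans (le_of_eq ?_)
    show Real.exp (lam * R0) * wf lam θ σ (2 * ρ) (2 + 3 * T) 64 m (lam * (res a y z - R0))
      (exr a x y z) + _ = _
    rw [← hR0, sub_self, mul_zero]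
  · -- the class
    rintro k b p q hk ⟨hb, _, hkm⟩ hB hp hq
    have hB' : Cls b A x (k + 1) (2 * ρ) := by
      unfold Fail at hB
      rw [not_not] at hB
      exact ⟨hb.off, hb.loop, hb.inn, hb.out, hB⟩
    exact ⟨np_step_cls hB' (by omega) hρ0 hρ64 hp hq, hk, by omega⟩
  · -- stopping
    rintro k b ⟨hb, hk, _⟩ hstop
    have hk1 : (1 : ℝ) ≤ k := by
      have : (32 : ℝ) ≤ k := by exact_mod_cast hk
      linarith
    have hex0 : 0 ≤ exr b x y z := ex_nonneg _ _ _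
    have hwf : 0 ≤ wf lam θ σ (2 * ρ) (2 + 3 * T) 64 k (lam * (res b y z - R0)) (exr b x y z) :=
      np_wf_nonneg hlam hσ (by positivity) hex0 hk1
    have hsum : 0 ≤ ∑ u ∈ A.erase x, ∑ v ∈ A.erase x,
        Xf (Λ * (2 * ρ) ^ 2) (2 + 3 * T) (2 + (2 + 3 * T) ^ 2 / 4) (k : ℝ) *
          Real.exp (Λ * (res b u v - 2 * ρ)) :=
      sum_nonneg fun u _ => sum_nonneg fun v _ => mul_nonneg (hXnn k).le (Real.exp_pos _).le
    by_cases hB : Fail A x (2 * ρ) b
    · -- failure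
      have hB2 := hB
      unfold Fail at hB2
      push Not at hB2
      obtain ⟨u, hu, v, hv, huv⟩ := hB2
      have h1 : 2 * ρ ≤ res b u v := by
        by_contra hlt
        rw [not_le] at hlt
        exact huv ((resLe_res (hb.res u hu v hv)).mono hlt.le)
      have h2 : (1 : ℝ) ≤ ∑ u ∈ A.erase x, ∑ v ∈ A.erase x,
          Xf (Λ * (2 * ρ) ^ 2) (2 + 3 * T) (2 + (2 + 3 * T) ^ 2 / 4) (k : ℝ) *
          Real.exp (Λ * (res b u v - 2 * ρ)) := by
        have h3 := two_le_Xf (ω := Λ * (2 * ρ) ^ 2) (ϱ := 2 + 3 * T)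
          (c2 := 2 + (2 + 3 * T) ^ 2 / 4) (m := (k : ℝ)) (by positivity) (by positivity)
          (by positivity) hk1
        have h4 : 1 ≤ Real.exp (Λ * (res b u v - 2 * ρ)) :=
          Real.one_le_exp (mul_nonneg hΛ (by linarith))
        have h5 : (1 : ℝ) ≤ Xf (Λ * (2 * ρ) ^ 2) (2 + 3 * T) (2 + (2 + 3 * T) ^ 2 / 4) (k : ℝ) *
          Real.exp (Λ * (res b u v - 2 * ρ)) := by nlinarith
        refine h5.trans ?_
        refine le_trans ?_ (single_le_sum (f := fun u => ∑ v ∈ A.erase x,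
          Xf (Λ * (2 * ρ) ^ 2) (2 + 3 * T) (2 + (2 + 3 * T) ^ 2 / 4) (k : ℝ) *
          Real.exp (Λ * (res b u v - 2 * ρ)))
          (fun u _ => sum_nonneg fun v _ => mul_nonneg (hXnn k).le (Real.exp_pos _).le) hu)
        exact single_le_sum (f := fun v =>
          Xf (Λ * (2 * ρ) ^ 2) (2 + 3 * T) (2 + (2 + 3 * T) ^ 2 / 4) (k : ℝ) *
          Real.exp (Λ * (res b u v - 2 * ρ)))
          (fun v _ => mul_nonneg (hXnn k).le (Real.exp_pos _).le) hv
      have h6 : Real.exp (lam * rc (del b x) (2 * ρ) y z) ≤ Real.exp (lam * (2 * ρ)) :=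
        Real.exp_le_exp.2 (mul_le_mul_of_nonneg_left (rc_le _ _ _ _) hlam)
      have h7 : Real.exp (lam * (2 * ρ)) * 1 ≤ Real.exp (lam * (2 * ρ)) *
          ∑ u ∈ A.erase x, ∑ v ∈ A.erase x,
          Xf (Λ * (2 * ρ) ^ 2) (2 + 3 * T) (2 + (2 + 3 * T) ^ 2 / 4) (k : ℝ) *
          Real.exp (Λ * (res b u v - 2 * ρ)) :=
        mul_le_mul_of_nonneg_left h2 (Real.exp_pos _).le
      have h8 : 0 ≤ Real.exp (lam * R0) * wf lam θ σ (2 * ρ) (2 + 3 * T) 64 k
          (lam * (res b y z - R0)) (exr b x y z) := mul_nonneg (Real.exp_pos _).le hwf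
      have h9 := Real.exp_pos (lam * R0)
      have h10 := Real.exp_pos (lam * (2 * ρ))
      apply max_le
      · show _ ≤ Real.exp (lam * R0) * _ + Real.exp (lam * (2 * ρ)) * _
        linarith
      · show _ ≤ Real.exp (lam * R0) * _ + Real.exp (lam * (2 * ρ)) * _
        linarith
    · -- the end
      have hk32 : k = 32 := by
        rcases hstop with h1 | h1
        · omega
        · exact absurd h1 hB
      subst hk32
      have hC : Cls b A x 32 (2 * ρ) := by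
        unfold Fail at hB
        rw [not_not] at hB
        exact ⟨hb.off, hb.loop, hb.inn, hb.out, hB⟩
      have hyz := hC.res y hy z hz
      have hg := isPot_pot hyz
      have hyx : y ≠ x := (mem_erase.1 hy).1
      have hzx : z ≠ x := (mem_erase.1 hz).1
      have hS : ∀ u v, u ≠ x → v ≠ x → 1 ≤ b u x + b x u → 1 ≤ b v x + b x v →
          ResLe b (2 * ρ) u v := by
        intro u v _ _ hu hv
        have mem : ∀ w, 1 ≤ b w x + b x w → w ∈ A.erase x := by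
          intro w hw
          rcases Nat.eq_zero_or_pos (b w x) with h3 | h3
          · exact np_mem_right hC (by omega)
          · exact np_mem_left hC h3
        exact hC.res u (mem u hu) v (mem v hv)
      have h4 : 4 * ((32 : ℕ) : ℝ) * (2 * ρ) ≤ 1 := by push_cast; linarith
      have d1 := res_del_le hρ0 hC.inn hC.out hC.loop hS h4 hyx hzx hρ0 hyz hg
      have d2 := resLe_del hρ0 hC.inn hC.out hC.loop hS h4 hyx hzx hρ0 hyz
      rw [← res_eq hg] at d1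
      have d3 : rc (del b x) (2 * ρ) y z ≤ res b y z + 2 * exr b x y z := by
        refine le_trans ?_ d1
        unfold rc
        rw [if_pos ⟨_, d2⟩]
        exact min_le_left _ _
      have hX := np_exr_le hC (by norm_num) hρ0 hy hz
      have hX' : exr b x y z ≤ 64 * (2 * ρ) ^ 2 := by
        refine hX.trans (le_of_eq ?_); push_cast; ring
      have hlog : (1 + θ) * (2 * (lam * exr b x y z)) ≤ Real.log 2 := by
        refine le_trans ?_ hω3
        have : lam * exr b x y z ≤ lam * (64 * (2 * ρ) ^ 2) :=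
          mul_le_mul_of_nonneg_left hX' hlam
        have h1θ : 0 ≤ 1 + θ := by linarith
        exact mul_le_mul_of_nonneg_left (by linarith) h1θ
      have b1 := np_base (σ := σ) (τ := 2 * ρ) (ϱ := 2 + 3 * T) (z := lam * (res b y z - R0)) hlam
        hθ hσ hρ0 (by positivity) hex0 hlog
      have b2 : Real.exp (lam * rc (del b x) (2 * ρ) y z) ≤ Real.exp (lam * R0) *
          Real.exp (lam * (res b y z - R0) + 2 * (lam * exr b x y z)) := by
        rw [← Real.exp_add]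
        apply Real.exp_le_exp.2
        have := mul_le_mul_of_nonneg_left d3 hlam
        linarith
      have b3 := mul_le_mul_of_nonneg_left b1 (Real.exp_pos (lam * R0)).le
      have b4 : 0 ≤ Real.exp (lam * (2 * ρ)) * ∑ u ∈ A.erase x, ∑ v ∈ A.erase x,
          Xf (Λ * (2 * ρ) ^ 2) (2 + 3 * T) (2 + (2 + 3 * T) ^ 2 / 4) ((32 : ℕ) : ℝ) *
          Real.exp (Λ * (res b u v - 2 * ρ)) := mul_nonneg (Real.exp_pos _).le hsum
      have b5 : 0 ≤ Real.exp (lam * R0) * wf lam θ σ (2 * ρ) (2 + 3 * T) 64 ((32 : ℕ) : ℝ)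
          (lam * (res b y z - R0)) (exr b x y z) := mul_nonneg (Real.exp_pos _).le hwf
      have b6 : ((32 : ℕ) : ℝ) = 32 := by norm_num
      apply max_le
      · show _ ≤ Real.exp (lam * R0) * _ + Real.exp (lam * (2 * ρ)) * _
        rw [b6] at b4 ⊢
        rw [mul_sub, mul_one] at b3
        linarith
      · exact add_nonneg b5 b4
  · -- one step
    rintro k b ⟨hb, hk, hkm⟩ hk32 hB
    have hC : Cls b A x (k + 1) (2 * ρ) := by
      unfold Fail at hB
      rw [not_not] at hB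
      exact ⟨hb.off, hb.loop, hb.inn, hb.out, hB⟩
    have hk33 : 33 ≤ k + 1 := by omega
    have hTk : 2 * ρ * ((k + 1 : ℕ) : ℝ) ≤ T := by
      refine le_trans ?_ hT
      have : ((k + 1 : ℕ) : ℝ) ≤ m := by exact_mod_cast hkm
      exact mul_le_mul_of_nonneg_left this hρ0
    · have hcast : (((k + 1 : ℕ) : ℝ)) - 1 = (k : ℝ) := by push_cast; ring
      have s1 := np_wf_av (lam := lam) (θ := θ) (σ := σ) (l0 := 64) hC hk33 hρ0 hρ64 hTk hy hz
        hlam hθ hσ (by norm_num) hω1 R0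
      rw [hcast] at s1
      have s2 : ∀ u ∈ A.erase x, ∀ v ∈ A.erase x, _ := fun u hu v hv =>
        np_exp_av hC hk33 hρ0 hρ64 hTk hu hv hΛ hω2 (2 * ρ)
      simp only [hcast] at s2
      show av b x (k + 1) (fun p q => Real.exp (lam * R0) *
        wf lam θ σ (2 * ρ) (2 + 3 * T) 64 k (lam * (res (step b x p q) y z - R0))
          (exr (step b x p q) x y z) +
        Real.exp (lam * (2 * ρ)) * ∑ u ∈ A.erase x, ∑ v ∈ A.erase x,
          Xf (Λ * (2 * ρ) ^ 2) (2 + 3 * T) (2 + (2 + 3 * T) ^ 2 / 4) k *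
          Real.exp (Λ * (res (step b x p q) u v - 2 * ρ))) ≤
        Real.exp (lam * R0) * wf lam θ σ (2 * ρ) (2 + 3 * T) 64 ((k + 1 : ℕ) : ℝ)
          (lam * (res b y z - R0)) (exr b x y z) +
        Real.exp (lam * (2 * ρ)) * ∑ u ∈ A.erase x, ∑ v ∈ A.erase x,
          Xf (Λ * (2 * ρ) ^ 2) (2 + 3 * T) (2 + (2 + 3 * T) ^ 2 / 4) ((k + 1 : ℕ) : ℝ) *
          Real.exp (Λ * (res b u v - 2 * ρ))
      rw [av_add, av_mul, av_mul, av_sum]
      refine add_le_add (mul_le_mul_of_nonneg_left s1 (Real.exp_pos _).le)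
        (mul_le_mul_of_nonneg_left (sum_le_sum fun u hu => ?_) (Real.exp_pos _).le)
      rw [av_sum]
      exact sum_le_sum fun v hv => s2 u hu v hv
  · exact ⟨⟨h.off, h.loop, h.inn, h.out, fun u hu v hv =>
      (h.res u hu v hv).mono (by linarith)⟩, hm, le_rfl⟩

end Pool.Agent.PL
end

section

/-! Local version of block (2): the numerical conditions and the conditions on an environment. -/

open Finset

set_option linter.unusedSectionVars false

namespace Pool.Agent.Stirring.QL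

open Pool.Agent.Stirring.QK

/-- The numerical conditions of block (2), local version. `ρ` = localisation radius, `r` = radius of
the lower bounds, `c2` = constant of the mass near a deep point. -/
structure ParL (d L b J Jg R m₀ r : ℕ) (c h δ lam ρ α p p' Mm c1 c2 : ℝ) : Prop where
  hL : 2 ≤ L
  hb : 1 ≤ b
  hbL : b ≤ L
  hJg : 1 ≤ Jg
  hh : 1 ≤ h
  hδ : 0 < δ
  hlam : 1 ≤ lam
  hα : 0 ≤ α
  hp : 0 ≤ p
  hp'0 : 0 ≤ p'
  hp'1 : p' ≤ 1
  u1 : 16 * (lam / δ) * (1 / Real.sqrt h + 1 / L) ^ d ≤ 1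
  u2 : 2 * (lam / δ) * ((b : ℝ) ^ d * (d * b) * (1 / Real.sqrt h)) ≤ 1
  u3 : 8 * p * (d * b) * Real.sqrt J ≤ δ * Real.sqrt h
  u4 : (1 - p') ^ Jg ≤ Real.exp (-lam)
  u5 : 2 * d * Real.exp (2 * (Jg * h) * (Real.cosh α - 1) - α * ρ) ≤ Real.exp (-lam)
  u6 : 4 * d * (Real.exp (2 * h * (Real.cosh α - 1)) * (1 + p * (Real.exp (α * b) - 1))) ^
    (R * (2 * Jg)) * Real.exp (-(α * ρ)) ≤ Real.exp (-(2 * lam))
  u8 : 2 * ((b : ℝ) ^ d * (1 / Real.sqrt h + 1 / L) ^ d) + 32 * lam / (b : ℝ) ^ d ≤ Mm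
  l2 : 8 * δ + 32 * lam / (b : ℝ) ^ d ≤ 1 / 2
  l3 : (b : ℝ) ≤ ρ
  l4 : (r : ℝ) + 4 * ρ ≤ c * Real.sqrt ((m₀ + 1) * h)
  l5 : 4 * (R * (2 * Jg) + m₀ + Jg) ≤ J
  l6 : (δ / 2 + 8 * lam / (b : ℝ) ^ d) *
      (8 * (1 / Real.sqrt (Jg * h) + 1 / L) ^ d + (8 * δ + 32 * lam / (b : ℝ) ^ d) ^ R +
        2 * Real.exp (-lam)) ≤
    c * (1 / Real.sqrt ((J + 1) * h)) ^ d / 16
  l7 : c1 / (r : ℝ) ^ d ≤ c2 * (c * (1 / Real.sqrt ((J + 1) * h)) ^ d / 16)
  l8 : 64 * ρ ≤ r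
  lL : 2 * r ≤ L
  c2pos : 0 < c2
  c2le : c2 ≤ 1
  /-- the test function of radius `ρ` varies little on a window -/
  lh : (b : ℝ) ^ d * b ≤ 8 * ρ
  /-- error of the mass near a deep point -/
  lf : 16 * lam / (b : ℝ) ^ d + 4 * (b / ρ) * p * J ≤ c2
  /-- annealed mass near a deep point -/
  lg : 4 * c2 ≤ c / 2 * (ρ / (2 * Real.sqrt ((J + 1) * h))) ^ d

variable {d L : ℕ} [NeZero L] {Ω : Type*} [Fintype Ω]

/-- The test function: `max 0 (1 - |z' - z| / ρ)`. -/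
noncomputable def bump (ρ : ℝ) (z : Fin d → ZMod L) : (Fin d → ZMod L) → ℝ :=
  fun z' => max 0 (1 - (nrm (z' - z) : ℝ) / ρ)

/-- The conditions on an environment, for starting points and targets in `D`; `D₂` = sites which are
covered by the good windows as often as on the torus. `A` = past, `B` = block of slabs after `A`. -/
structure CondsL (S : Slab (Fin d → ZMod L) Ω) (Q Λ D D₂ : Finset (Fin d → ZMod L))
    (h δ lam ρ Kw Mm c2 : ℝ) (Jg t0 m₀ r : ℕ) (A B : List Ω) : Prop where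
  tele_up : ∀ x ∈ D, ∀ w ∈ D, ∑ z, fw S Q (A ++ B) (dl x) z * hk d L h z w ≤
    2 * ∑ z, fw S Q A (dl x) z * hk d L ((B.length + 1) * h) z w + 4 * δ * mx (fw S Q A (dl x))
  tele_lo : ∀ x ∈ D, ∀ w ∈ D, ∑ z, fw S Q A (dl x) z * hk d L ((B.length + 1) * h) z w
    - 2 * δ * mx (fw S Q A (dl x)) ≤ 2 * ∑ z, fw S Q (A ++ B) (dl x) z * hk d L h z w
  mass_up : ∀ a, B = [a] → ∀ x ∈ D, ∀ q ∈ D, ∑ y ∈ Q, fw S Q A (dl x) (S.T a (q + y)) ≤
    2 * ∑ y ∈ Q, ∑ z, fw S Q A (dl x) z * hk d L h z (q + y) + 32 * lam * mx (fw S Q A (dl x))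
  mass_lo : ∀ a, B = [a] → ∀ x ∈ D, ∀ q ∈ D,
    ∑ y ∈ Q, ∑ z, fw S Q A (dl x) z * hk d L h z (q + y)
    - 16 * lam * mx (fw S Q A (dl x)) ≤ 2 * ∑ y ∈ Q, fw S Q A (dl x) (S.T a (q + y))
  meet : B.length = Jg → ∀ z ∈ D, (∀ B1 B2, B = B1 ++ B2 → trc S B2 z ∈ D₂) → ¬ Avoid S Q B z
  disp : B.length ≤ Jg → ∀ z ∈ D, (nrm (trc S B z - z) : ℝ) ≤ ρ
  loc : B.length ≤ t0 → ∀ x ∈ D,
    ∑ z, (if ρ ≤ (nrm (z - x) : ℝ) then fw S Q B (dl x) z else 0) ≤ Real.exp (-lam)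
  num : ∀ x ∈ D, cnt S Q Λ B (dl x) ≤ Kw
  num' : ∀ x ∈ D, bcnt S Q Λ B (dl x) ≤ Kw
  mass : ∀ a, B = [a] → ∀ q ∈ D, ∀ q' ∈ D, ∑ y ∈ Q, fw S Q A (cu Q q) (S.T a (q' + y)) ≤ Mm
  /-- a walk started in a window of `D` has positive mass near every point at distance of order of
  the square root of the time -/
  hit : m₀ + 1 ≤ B.length → ∀ q ∈ D, ∀ z ∈ D, (nrm (z - q) : ℝ) ≤ r + ρ →
    c2 ≤ ∑ z', fw S Q B (cu Q q) z' * bump ρ z z'

end Pool.Agent.Stirring.QL
end
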