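import Pool.Agent.Lib.MP_6c3d62_pr.QK.Par
import Pool.Agent.Lib.MP_6c3d62_pr.Mg.G062

section

/-! Parameters of the local version of block (2): the common part. -/

open Finset

set_option linter.unusedSectionVars false

namespace Pool.Agent.Stirring.QK

/-- The hypotheses of the choice of the parameters, local version. -/
structure P50 (d a1 a2 R A : ℕ) (c c2 K T : ℝ) (L b : ℕ) (h p : ℝ) : Prop where
  H : P55 d a1 a2 R A (c / 128) (2 * K) T L b h p
  K1 : 1 ≤ K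
  c2p : 0 < c2
  Tc2 : 1 ≤ c2 * T
  Te : T ^ (d * (A * (a1 + a2) + 7) + 2) ≤ Real.exp T

namespace P50

variable {d a1 a2 R A : ℕ} {c c2 K T : ℝ} {L b : ℕ} {h p : ℝ}

/-- `J_g`. -/
noncomputable def Jg (K T p : ℝ) : ℕ := P55.Jg (2 * K) T p

/-- `J`. -/
noncomputable def J (K T p : ℝ) : ℕ := 4 * P55.M T * Jg K T p

/-- `m₀`. -/
noncomputable def m0 (R : ℕ) (K T p : ℝ) : ℕ := (P55.M T / 2 - (2 * R + 1)) * Jg K T p

/-- `√((M J_g + 1) h)`. -/
noncomputable def X (K T h p : ℝ) : ℝ := Real.sqrt (((P55.m0 (2 * K) T p : ℝ) + 1) * h)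

/-- `ρ`. -/
noncomputable def rho (c K T h p : ℝ) : ℝ := P55.rho (c / 128) (2 * K) T h p

/-- `α`. -/
noncomputable def al (K T h p : ℝ) : ℝ := P55.al (2 * K) T h p

/-- `r`. -/
noncomputable def rr (c K T h p : ℝ) : ℕ := ⌊c / 4 * X K T h p⌋₊

theorem hc (P : P50 d a1 a2 R A c c2 K T L b h p) : 0 < c := by
  have := P.H.hc
  linarith

theorem rho_eq (c K T h p : ℝ) : rho c K T h p = c / 512 * X K T h p := by
  unfold rho P55.rho X
  ring

theorem T0 (P : P50 d a1 a2 R A c c2 K T L b h p) : 1 ≤ T := P.H.T0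

theorem b0 (P : P50 d a1 a2 R A c c2 K T L b h p) : (1 : ℝ) ≤ b := P.H.b0

theorem lam1 (P : P50 d a1 a2 R A c c2 K T L b h p) : T ≤ K * T := by
  nlinarith [P.T0, P.K1]

theorem lam2 (P : P50 d a1 a2 R A c c2 K T L b h p) : K * T ≤ 2 * K * T := by
  nlinarith [P.T0, P.K1]

theorem lam3 (P : P50 d a1 a2 R A c c2 K T L b h p) : K * T ≤ T ^ 2 :=
  P.lam2.trans P.H.lam_le

theorem lam0 (P : P50 d a1 a2 R A c c2 K T L b h p) : 0 ≤ K * T := by
  linarith [P.lam1, P.T0]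

theorem c_ge (P : P50 d a1 a2 R A c c2 K T L b h p) : 128 / T ≤ c := by
  have h1 := P.H.c_ge
  have h2 : 128 / T = 128 * (1 / T) := by ring
  rw [h2]
  linarith

theorem M_big (P : P50 d a1 a2 R A c c2 K T L b h p) : 8 * (2 * R + 1) + 8 ≤ P55.M T := by
  have h2 := P.H.R_le
  have h3 := P.H.M_ge
  have h0 := P.H.T1
  have h4 : (8 * (2 * (R : ℝ) + 1) + 8) ≤ (P55.M T : ℝ) := by nlinarith
  exact_mod_cast h4

theorem X_pos (P : P50 d a1 a2 R A c c2 K T L b h p) : 0 < X K T h p := by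
  unfold X
  have := P.H.h_one
  positivity

theorem X_ge (P : P50 d a1 a2 R A c c2 K T L b h p) :
    (b : ℝ) ^ (2 * d + 4) / 2 ≤ X K T h p := by
  have hh := P.H.h_one
  refine P.H.sqrt_h.trans ?_
  apply Real.sqrt_le_sqrt
  have : (0 : ℝ) ≤ (P55.m0 (2 * K) T p : ℝ) := by positivity
  nlinarith

/-- `√((J + 1) h) ≤ 2 X`. -/
theorem D2_le (P : P50 d a1 a2 R A c c2 K T L b h p) :
    Real.sqrt (((J K T p : ℝ) + 1) * h) ≤ 2 * X K T h p := by
  have h1 := P.H.D2_le_rho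
  unfold P55.D2 at h1
  unfold J Jg X
  push_cast
  exact h1

theorem D2_pos (P : P50 d a1 a2 R A c c2 K T L b h p) :
    0 < Real.sqrt (((J K T p : ℝ) + 1) * h) := by
  have := P.H.h_one
  positivity

theorem m0_ge (P : P50 d a1 a2 R A c c2 K T L b h p) :
    ((P55.m0 (2 * K) T p : ℝ) + 1) ≤ 4 * ((m0 R K T p : ℝ) + 1) := by
  have h1 := P.M_big
  have h2 : P55.M T ≤ 4 * (P55.M T / 2 - (2 * R + 1)) := by omega
  have h3 : P55.m0 (2 * K) T p + 1 ≤ 4 * (m0 R K T p + 1) := by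
    unfold P55.m0 m0 Jg
    nlinarith [Nat.mul_le_mul_right (P55.Jg (2 * K) T p) h2]
  exact_mod_cast h3

theorem X_le (P : P50 d a1 a2 R A c c2 K T L b h p) :
    X K T h p ≤ 2 * Real.sqrt (((m0 R K T p : ℝ) + 1) * h) := by
  have hh := P.H.h_one
  have h1 := P.m0_ge
  unfold X
  apply Real.sqrt_le_iff.mpr
  refine ⟨by positivity, ?_⟩
  rw [mul_pow, Real.sq_sqrt (by positivity)]
  nlinarith

theorem rho_pos (P : P50 d a1 a2 R A c c2 K T L b h p) : 0 < rho c K T h p := by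
  rw [rho_eq]
  have := P.hc
  have := P.X_pos
  positivity

theorem rho_ge (P : P50 d a1 a2 R A c c2 K T L b h p) :
    (b : ℝ) ^ (2 * d + 4) / (8 * T) ≤ rho c K T h p := by
  have h0 := P.T0
  have hb := P.b0
  rw [rho_eq]
  have h1 := P.X_ge
  have h2 := P.c_ge
  have h3 : (b : ℝ) ^ (2 * d + 4) / (8 * T) = 1 / (4 * T) * ((b : ℝ) ^ (2 * d + 4) / 2) := by
    field_simp
    norm_num
  have h4 : 1 / (4 * T) ≤ c / 512 := by
    have : 1 / (4 * T) = 128 / T / 512 := by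
      field_simp
      norm_num
    rw [this]
    linarith
  rw [h3]
  exact mul_le_mul h4 h1 (by positivity) (by have := P.hc; positivity)

/-- `b ≥ 10^6 T^9` and more. -/
theorem b_big (P : P50 d a1 a2 R A c c2 K T L b h p) : (10 : ℝ) ^ 6 * T ^ 9 ≤ b := by
  have h1 := P.H.bT (n := 10) (by omega)
  have h2 := P.H.T1
  have h0 := P.T0
  have h3 : T ^ 10 = T * T ^ 9 := by ring
  have : 0 < T ^ 9 := by positivity
  nlinarith

theorem T_le_b (P : P50 d a1 a2 R A c c2 K T L b h p) : (10 : ℝ) ^ 6 * T ≤ b := by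
  refine le_trans ?_ P.b_big
  have h0 := P.T0
  have : T ^ 1 ≤ T ^ 9 := pow_le_pow_right₀ h0 (by norm_num)
  rw [pow_one] at this
  linarith

theorem rho_b (P : P50 d a1 a2 R A c c2 K T L b h p) :
    (10 : ℝ) ^ 5 * ((b : ℝ) ^ d * b ^ 2) ≤ rho c K T h p := by
  refine le_trans ?_ P.rho_ge
  have h0 := P.T0
  have hb := P.b0
  have h1 := P.T_le_b
  rw [le_div_iff₀ (by positivity)]
  have h2 : (b : ℝ) ^ (2 * d + 4) = (b : ℝ) ^ d * b ^ 2 * (b ^ (d + 2)) := by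
    rw [← pow_add, ← pow_add]; congr 1; ring
  have h3 : (b : ℝ) ≤ (b : ℝ) ^ (d + 2) := by
    calc (b : ℝ) = (b : ℝ) ^ 1 := (pow_one _).symm
      _ ≤ _ := pow_le_pow_right₀ hb (by omega)
  rw [h2]
  have h4 : (10 : ℝ) ^ 5 * (8 * T) ≤ (b : ℝ) ^ (d + 2) := by linarith
  calc (10 : ℝ) ^ 5 * ((b : ℝ) ^ d * b ^ 2) * (8 * T)
      = (b : ℝ) ^ d * b ^ 2 * ((10 : ℝ) ^ 5 * (8 * T)) := by ring
    _ ≤ _ := mul_le_mul_of_nonneg_left h4 (by positivity)

theorem rho_b1 (P : P50 d a1 a2 R A c c2 K T L b h p) :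
    (10 : ℝ) ^ 5 * b ≤ rho c K T h p := by
  refine le_trans ?_ P.rho_b
  have hb := P.b0
  have h1 : 1 ≤ (b : ℝ) ^ d := one_le_pow₀ hb
  have h2 : (b : ℝ) ≤ (b : ℝ) ^ 2 := by nlinarith
  have h3 : (b : ℝ) ≤ (b : ℝ) ^ d * b ^ 2 := by nlinarith
  linarith

theorem rr_le (P : P50 d a1 a2 R A c c2 K T L b h p) : (rr c K T h p : ℝ) ≤ c / 4 * X K T h p := by
  apply Nat.floor_le
  have := P.hc
  have := P.X_pos
  positivity

theorem rr_ge (P : P50 d a1 a2 R A c c2 K T L b h p) :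
    c / 8 * X K T h p ≤ (rr c K T h p : ℝ) := by
  have h1 := Nat.lt_floor_add_one (c / 4 * X K T h p)
  have h2 := P.rho_b1
  have hb := P.b0
  have h3 := rho_eq c K T h p
  have h4 : 1 ≤ c / 8 * X K T h p := by
    have : c / 8 * X K T h p = 64 * (c / 512 * X K T h p) := by ring
    rw [this, ← h3]
    linarith
  unfold rr
  have h5 : c / 4 * X K T h p = 2 * (c / 8 * X K T h p) := by ring
  linarith

theorem l8 (P : P50 d a1 a2 R A c c2 K T L b h p) : 64 * rho c K T h p ≤ (rr c K T h p : ℝ) := by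
  refine le_trans (le_of_eq ?_) P.rr_ge
  rw [rho_eq]
  ring

theorem l4 (P : P50 d a1 a2 R A c c2 K T L b h p) :
    (rr c K T h p : ℝ) + 4 * rho c K T h p ≤ c * Real.sqrt (((m0 R K T p : ℝ) + 1) * h) := by
  have h1 := P.rr_le
  have h2 := rho_eq c K T h p
  have h3 := P.X_le
  have hc := P.hc
  have h4 : 0 ≤ c * X K T h p := mul_nonneg hc.le P.X_pos.le
  have h5 : c * X K T h p ≤ c * (2 * Real.sqrt (((m0 R K T p : ℝ) + 1) * h)) :=
    mul_le_mul_of_nonneg_left h3 hc.le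
  rw [h2]
  nlinarith

theorem l5 (P : P50 d a1 a2 R A c c2 K T L b h p) :
    8 * (R * (2 * Jg K T p) + m0 R K T p + Jg K T p) ≤ J K T p := by
  have h1 := P.M_big
  have h2 : 8 * (R * (2 * Jg K T p) + m0 R K T p + Jg K T p) =
      (8 * (2 * R + 1 + (P55.M T / 2 - (2 * R + 1)))) * Jg K T p := by
    unfold m0
    ring
  rw [h2]
  unfold J
  apply Nat.mul_le_mul_right
  omega

theorem hJ (_P : P50 d a1 a2 R A c c2 K T L b h p) :
    (J K T p : ℝ) = 4 * P55.M T * P55.Jg (2 * K) T p := by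
  unfold J Jg
  push_cast
  ring

theorem D2_eq (P : P50 d a1 a2 R A c c2 K T L b h p) :
    P55.D2 (2 * K) T h p = Real.sqrt (((J K T p : ℝ) + 1) * h) := by
  unfold P55.D2
  rw [P.hJ]

theorem D2_leT (P : P50 d a1 a2 R A c c2 K T L b h p) :
    Real.sqrt (((J K T p : ℝ) + 1) * h) ≤ T ^ (A * (a1 + a2) + 7) := by
  rw [← P.D2_eq]
  have h1 := P.H.D2_one
  have h2 := P.H.D2_sq_le
  have h3 := P.H.Jb_le
  have h0 := P.T0
  have h4 : P55.D2 (2 * K) T h p ≤ P55.D2 (2 * K) T h p ^ 2 := by nlinarith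
  have h5 : 2 * T ^ (A * (a1 + a2) + 6) ≤ T ^ (A * (a1 + a2) + 7) := by
    rw [pow_succ T (A * (a1 + a2) + 6), mul_comm 2]
    apply mul_le_mul_of_nonneg_left _ (by positivity)
    linarith [P.H.T1]
  linarith

/-- The exponentially small errors. -/
theorem exp_small (P : P50 d a1 a2 R A c c2 K T L b h p) :
    Real.exp (-(K * T)) ≤ 1 / T ^ 2 * (1 / Real.sqrt (((J K T p : ℝ) + 1) * h)) ^ d := by
  have h0 := P.T0
  have h1 := P.D2_leT
  have h2 := P.D2_pos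
  have h3 := P.Te
  have h4 := P.lam1
  have h5 : Real.exp T ≤ Real.exp (K * T) := Real.exp_le_exp.mpr h4
  rw [Real.exp_neg, one_div_pow, ← one_div, one_div_mul_one_div]
  apply one_div_le_one_div_of_le (by positivity)
  refine le_trans ?_ (h3.trans h5)
  have h6 : Real.sqrt (((J K T p : ℝ) + 1) * h) ^ d ≤ (T ^ (A * (a1 + a2) + 7)) ^ d :=
    pow_le_pow_left₀ h2.le h1 d
  calc T ^ 2 * Real.sqrt (((J K T p : ℝ) + 1) * h) ^ d
      ≤ T ^ 2 * (T ^ (A * (a1 + a2) + 7)) ^ d := mul_le_mul_of_nonneg_left h6 (by positivity)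
    _ = T ^ (d * (A * (a1 + a2) + 7) + 2) := by
        rw [← pow_mul, ← pow_add]
        congr 1
        ring

theorem bd_ge (P : P50 d a1 a2 R A c c2 K T L b h p) : (b : ℝ) ^ 2 ≤ (b : ℝ) ^ d :=
  pow_le_pow_right₀ P.b0 P.H.hd

theorem lam_bd (P : P50 d a1 a2 R A c c2 K T L b h p) :
    K * T / (b : ℝ) ^ d ≤ 1 / (10 : ℝ) ^ 6 / T := by
  have h0 := P.T0
  have hb := P.b0
  have h1 := P.bd_ge
  have h2 := P.lam3
  have h3 := P.b_big
  rw [div_div, div_le_div_iff₀ (by positivity) (by positivity), one_mul]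
  refine le_trans ?_ h1
  have h4 : T ^ 3 ≤ T ^ 9 := pow_le_pow_right₀ h0 (by norm_num)
  have h5 : K * T * ((10 : ℝ) ^ 6 * T) ≤ (10 : ℝ) ^ 6 * T ^ 3 := by
    have : K * T * ((10 : ℝ) ^ 6 * T) ≤ T ^ 2 * ((10 : ℝ) ^ 6 * T) :=
      mul_le_mul_of_nonneg_right h2 (by positivity)
    linarith
  have h6 : (b : ℝ) ≤ (b : ℝ) ^ 2 := by nlinarith
  linarith

/-- The errors of the mass near a point. -/
theorem err (P : P50 d a1 a2 R A c c2 K T L b h p) :
    16 * (K * T) / (b : ℝ) ^ d + 8 * (b / rho c K T h p) * (p * (J K T p : ℝ) + K * T) ≤ c2 := by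
  have h0 := P.T0
  have hb := P.b0
  have hp := P.H.p_pos
  have h1 : p * (J K T p : ℝ) ≤ 48 * T ^ 4 := by
    rw [P.hJ]
    exact P.H.pJ_le
  have h2 := P.lam3
  have h3 : T ^ 2 ≤ T ^ 4 := pow_le_pow_right₀ h0 (by norm_num)
  have h4 : (b : ℝ) / rho c K T h p ≤ 8 * T / b := by
    rw [div_le_div_iff₀ P.rho_pos (by positivity)]
    have e1 := P.rho_ge
    have e2 : (b : ℝ) ^ 2 ≤ (b : ℝ) ^ (2 * d + 4) := pow_le_pow_right₀ hb (by omega)
    rw [div_le_iff₀ (by positivity)] at e1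
    nlinarith
  have h5 : 8 * (b / rho c K T h p) * (p * (J K T p : ℝ) + K * T) ≤
      8 * (8 * T / b) * (49 * T ^ 4) := by
    apply mul_le_mul _ _ _ (by positivity)
    · linarith
    · linarith
    · have := P.lam0
      have : 0 ≤ p * (J K T p : ℝ) := by positivity
      linarith
  have h6 : 8 * (8 * T / b) * (49 * T ^ 4) ≤ 1 / 2 / T := by
    have e1 : 8 * (8 * T / b) * (49 * T ^ 4) = 3136 * T ^ 5 / b := by
      field_simp
      norm_num
    rw [e1, div_div, div_le_div_iff₀ (by positivity) (by positivity)]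
    have e2 := P.b_big
    have e3 : T ^ 6 ≤ T ^ 9 := pow_le_pow_right₀ h0 (by norm_num)
    have e4 : 3136 * T ^ 5 * (2 * T) = 6272 * T ^ 6 := by ring
    rw [e4]
    linarith
  have h7 : 16 * (K * T) / (b : ℝ) ^ d ≤ 1 / 2 / T := by
    have e1 := P.lam_bd
    have e2 : 16 * (K * T) / (b : ℝ) ^ d = 16 * (K * T / (b : ℝ) ^ d) := by ring
    have e3 : 1 / 2 / T = 16 * (1 / 32 / T) := by ring
    rw [e2, e3]
    apply mul_le_mul_of_nonneg_left _ (by norm_num)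
    refine e1.trans ?_
    apply div_le_div_of_nonneg_right _ (by positivity)
    norm_num
  have h8 : 1 / T ≤ c2 := by
    rw [div_le_iff₀ (by linarith)]
    exact P.Tc2
  have h9 : 1 / 2 / T + 1 / 2 / T = 1 / T := by ring
  linarith

theorem l6 (P : P50 d a1 a2 R A c c2 K T L b h p) :
    (1 / (b : ℝ) / 2 + 8 * (K * T) / (b : ℝ) ^ d) *
      (8 * (1 / Real.sqrt ((Jg K T p : ℝ) * h) + 1 / (L : ℝ)) ^ d +
        (8 * (1 / (b : ℝ)) + 32 * (K * T) / (b : ℝ) ^ d) ^ R + 2 * Real.exp (-(K * T))) ≤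
      c * (1 / Real.sqrt (((J K T p : ℝ) + 1) * h)) ^ d / 16 := by
  have h0 := P.T0
  have hb := P.b0
  have hc := P.hc
  have hl0 := P.lam0
  have hl2 := P.lam2
  have h1 := P.H.cl6
  rw [P.D2_eq] at h1
  set D : ℝ := (1 / Real.sqrt (((J K T p : ℝ) + 1) * h)) ^ d with hD
  have hD0 : 0 < D := by
    have := P.D2_pos
    positivity
  have e1 : K * T / (b : ℝ) ^ d ≤ 2 * K * T / (b : ℝ) ^ d :=
    div_le_div_of_nonneg_right hl2 (by positivity)
  have e2 : 1 / (b : ℝ) / 2 + 8 * (K * T) / (b : ℝ) ^ d ≤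
      1 / (b : ℝ) / 2 + 8 * (2 * K * T) / (b : ℝ) ^ d := by
    have q1 : 8 * (K * T) / (b : ℝ) ^ d = 8 * (K * T / (b : ℝ) ^ d) := by ring
    have q2 : 8 * (2 * K * T) / (b : ℝ) ^ d = 8 * (2 * K * T / (b : ℝ) ^ d) := by ring
    rw [q1, q2]
    linarith
  have e3 : 8 * (1 / (b : ℝ)) + 32 * (K * T) / (b : ℝ) ^ d ≤
      8 * (1 / (b : ℝ)) + 32 * (2 * K * T) / (b : ℝ) ^ d := by
    have q1 : 32 * (K * T) / (b : ℝ) ^ d = 32 * (K * T / (b : ℝ) ^ d) := by ring
    have q2 : 32 * (2 * K * T) / (b : ℝ) ^ d = 32 * (2 * K * T / (b : ℝ) ^ d) := by ring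
    rw [q1, q2]
    linarith
  have e4 : (8 * (1 / (b : ℝ)) + 32 * (K * T) / (b : ℝ) ^ d) ^ R ≤
      (8 * (1 / (b : ℝ)) + 32 * (2 * K * T) / (b : ℝ) ^ d) ^ R :=
    pow_le_pow_left₀ (by positivity) e3 R
  have e5 : (1 / (b : ℝ) / 2 + 8 * (K * T) / (b : ℝ) ^ d) *
      (8 * (1 / Real.sqrt ((Jg K T p : ℝ) * h) + 1 / (L : ℝ)) ^ d +
        (8 * (1 / (b : ℝ)) + 32 * (K * T) / (b : ℝ) ^ d) ^ R) ≤ c / 128 * D / 16 := by
    refine le_trans ?_ h1
    unfold Jg
    apply mul_le_mul e2 (by linarith) (by positivity)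
    have : 0 ≤ 2 * K * T := hl0.trans hl2
    positivity
  have e6 : 1 / (b : ℝ) / 2 + 8 * (K * T) / (b : ℝ) ^ d ≤ 1 := by
    have q1 := P.lam_bd
    have q2 : 8 * (K * T) / (b : ℝ) ^ d = 8 * (K * T / (b : ℝ) ^ d) := by ring
    have q3 : 1 / (10 : ℝ) ^ 6 / T ≤ 1 / (10 : ℝ) ^ 6 := div_le_self (by norm_num) h0
    have q4 : 1 / (b : ℝ) ≤ 1 := by
      rw [div_le_one (by positivity)]
      exact hb
    rw [q2]
    norm_num at q1 q3
    have q5 : 1 / (b : ℝ) / 2 ≤ 1 / 2 := by linarith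
    linarith
  have e7 := P.exp_small
  rw [← hD] at e7
  have e8 : (1 / (b : ℝ) / 2 + 8 * (K * T) / (b : ℝ) ^ d) * (2 * Real.exp (-(K * T))) ≤
      1 * (2 * (1 / T ^ 2 * D)) := by
    apply mul_le_mul e6 (by linarith) (by positivity) (by norm_num)
  have e9 : 1 * (2 * (1 / T ^ 2 * D)) ≤ c / 2 * D / 16 := by
    have q1 := P.c_ge
    have q2 : 2 * (1 / T ^ 2) ≤ c / 32 := by
      have q3 : 2 * (1 / T ^ 2) ≤ 128 / T / 32 := by
        rw [div_div, mul_one_div, div_le_div_iff₀ (by positivity) (by positivity)]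
        nlinarith
      linarith
    nlinarith
  have e10 : c / 128 * D / 16 + c / 2 * D / 16 ≤ c * D / 16 := by
    have : 0 < c * D := by positivity
    nlinarith
  calc (1 / (b : ℝ) / 2 + 8 * (K * T) / (b : ℝ) ^ d) *
      (8 * (1 / Real.sqrt ((Jg K T p : ℝ) * h) + 1 / (L : ℝ)) ^ d +
        (8 * (1 / (b : ℝ)) + 32 * (K * T) / (b : ℝ) ^ d) ^ R + 2 * Real.exp (-(K * T)))
      = (1 / (b : ℝ) / 2 + 8 * (K * T) / (b : ℝ) ^ d) *
      (8 * (1 / Real.sqrt ((Jg K T p : ℝ) * h) + 1 / (L : ℝ)) ^ d +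
        (8 * (1 / (b : ℝ)) + 32 * (K * T) / (b : ℝ) ^ d) ^ R) +
        (1 / (b : ℝ) / 2 + 8 * (K * T) / (b : ℝ) ^ d) * (2 * Real.exp (-(K * T))) := by ring
    _ ≤ c * D / 16 := by linarith

theorem u1 (P : P50 d a1 a2 R A c c2 K T L b h p) :
    16 * (K * T / (1 / (b : ℝ))) * (1 / Real.sqrt h + 1 / (L : ℝ)) ^ d ≤ 1 := by
  refine le_trans ?_ P.H.cu1
  have h1 := P.lam2
  have hb := P.b0
  apply mul_le_mul_of_nonneg_right _ (pow_nonneg P.H.s_nonneg _)
  apply mul_le_mul_of_nonneg_left _ (by norm_num)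
  exact div_le_div_of_nonneg_right h1 (by positivity)

theorem u2 (P : P50 d a1 a2 R A c c2 K T L b h p) :
    2 * (K * T / (1 / (b : ℝ))) * ((b : ℝ) ^ d * (d * b) * (1 / Real.sqrt h)) ≤ 1 := by
  refine le_trans ?_ P.H.cu2
  have h1 := P.lam2
  have hb := P.b0
  apply mul_le_mul_of_nonneg_right _ (by positivity)
  apply mul_le_mul_of_nonneg_left _ (by norm_num)
  exact div_le_div_of_nonneg_right h1 (by positivity)

theorem u3 (P : P50 d a1 a2 R A c c2 K T L b h p) :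
    8 * p * (d * b) * Real.sqrt (J K T p : ℝ) ≤ 1 / (b : ℝ) * Real.sqrt h := by
  rw [P.hJ]
  exact P.H.cu3

theorem exp_le (P : P50 d a1 a2 R A c c2 K T L b h p) :
    Real.exp (-(2 * K * T)) ≤ Real.exp (-(K * T)) := by
  apply Real.exp_le_exp.mpr
  linarith [P.lam2]

theorem u4 (P : P50 d a1 a2 R A c c2 K T L b h p) :
    (1 - p / 2) ^ Jg K T p ≤ Real.exp (-(K * T)) :=
  P.H.cu4.trans P.exp_le

theorem u5 (P : P50 d a1 a2 R A c c2 K T L b h p) :
    2 * d * Real.exp (2 * ((Jg K T p : ℝ) * h) * (Real.cosh (al K T h p) - 1) -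
      al K T h p * rho c K T h p) ≤ Real.exp (-(K * T)) :=
  P.H.cu5.trans P.exp_le

theorem u6 (P : P50 d a1 a2 R A c c2 K T L b h p) :
    4 * d * (Real.exp (2 * h * (Real.cosh (al K T h p) - 1)) *
      (1 + p * (Real.exp (al K T h p * b) - 1))) ^ (R * (2 * Jg K T p)) *
        Real.exp (-(al K T h p * rho c K T h p)) ≤ Real.exp (-(2 * (K * T))) := by
  have h1 := P.H.cu6
  have h2 : 2 * (K * T) = 2 * K * T := by ring
  rw [h2]
  exact h1

theorem l2 (P : P50 d a1 a2 R A c c2 K T L b h p) :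
    8 * (1 / (b : ℝ)) + 32 * (K * T) / (b : ℝ) ^ d ≤ 1 / 2 := by
  refine le_trans ?_ P.H.cl2
  have h1 := P.lam2
  have hb := P.b0
  have h2 : 32 * (K * T) / (b : ℝ) ^ d ≤ 32 * (2 * K * T) / (b : ℝ) ^ d :=
    div_le_div_of_nonneg_right (by linarith) (by positivity)
  linarith

/-- `u7` of the second form. -/
theorem u7 (P : P50 d a1 a2 R A c c2 K T L b h p) :
    Real.exp (-(K * T)) ≤ 1 / 2 * (1 / Real.sqrt ((Jg K T p : ℝ) * h) + 1 / (L : ℝ)) ^ d := by
  have h0 := P.T0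
  have hh := P.H.h_one
  have hJg : (1 : ℝ) ≤ (Jg K T p : ℝ) := P.H.Jg_one
  refine P.exp_small.trans ?_
  have h1 : 1 / T ^ 2 ≤ 1 / 2 := by
    apply one_div_le_one_div_of_le (by norm_num)
    nlinarith [P.H.T1]
  apply mul_le_mul h1 _ (by positivity) (by norm_num)
  apply pow_le_pow_left₀ (by positivity)
  have h2 : 1 / Real.sqrt (((J K T p : ℝ) + 1) * h) ≤ 1 / Real.sqrt ((Jg K T p : ℝ) * h) := by
    apply one_div_le_one_div_of_le (by positivity)
    apply Real.sqrt_le_sqrt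
    apply mul_le_mul_of_nonneg_right _ (by linarith)
    have h3 : (Jg K T p : ℝ) ≤ (J K T p : ℝ) := by
      have h4 : Jg K T p ≤ J K T p := by
        have := P.l5
        omega
      exact_mod_cast h4
    linarith
  have h5 : (0 : ℝ) ≤ 1 / (L : ℝ) := by positivity
  linarith

theorem rr_D2 (P : P50 d a1 a2 R A c c2 K T L b h p) :
    c / 16 * Real.sqrt (((J K T p : ℝ) + 1) * h) ≤ (rr c K T h p : ℝ) := by
  refine le_trans ?_ P.rr_ge
  have h1 := P.D2_le
  have hc := P.hc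
  nlinarith

theorem rho_D2 (P : P50 d a1 a2 R A c c2 K T L b h p) :
    c / 1024 * Real.sqrt (((J K T p : ℝ) + 1) * h) ≤ rho c K T h p := by
  rw [rho_eq]
  have h1 := P.D2_le
  have hc := P.hc
  nlinarith

/-- `c1 / r ^ d`, with an arbitrary constant. -/
theorem l7 (P : P50 d a1 a2 R A c c2 K T L b h p) {κ : ℝ} (hκ : 0 ≤ κ) :
    κ * (c / 16) ^ d / (rr c K T h p : ℝ) ^ d ≤
      κ * (1 / Real.sqrt (((J K T p : ℝ) + 1) * h)) ^ d := by
  have hc := P.hc
  have h1 := P.rr_D2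
  have h2 := P.D2_pos
  have h3 : (c / 16 * Real.sqrt (((J K T p : ℝ) + 1) * h)) ^ d ≤ (rr c K T h p : ℝ) ^ d :=
    pow_le_pow_left₀ (by positivity) h1 d
  calc κ * (c / 16) ^ d / (rr c K T h p : ℝ) ^ d
      ≤ κ * (c / 16) ^ d / (c / 16 * Real.sqrt (((J K T p : ℝ) + 1) * h)) ^ d :=
        div_le_div_of_nonneg_left (by positivity) (by positivity) h3
    _ = κ * (1 / Real.sqrt (((J K T p : ℝ) + 1) * h)) ^ d := by
        rw [mul_pow, one_div, inv_pow]
        field_simp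

theorem rr_T (P : P50 d a1 a2 R A c c2 K T L b h p) :
    8 * (rr c K T h p : ℝ) ≤ T ^ (A * (a1 + a2) + 14) := by
  have h0 := P.T0
  have hh := P.H.h_one
  have h1 := P.rr_le
  have h2 := P.D2_leT
  have hc : c ≤ T ^ 2 := by
    have e1 := P.H.Tc'
    have e2 := P.H.T1
    nlinarith
  have h3 : X K T h p ≤ Real.sqrt (((J K T p : ℝ) + 1) * h) := by
    apply Real.sqrt_le_sqrt
    apply mul_le_mul_of_nonneg_right _ (by linarith)
    have e1 : P55.m0 (2 * K) T p ≤ J K T p := by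
      unfold P55.m0 J Jg
      have : P55.M T * P55.Jg (2 * K) T p ≤ 4 * (P55.M T * P55.Jg (2 * K) T p) := by omega
      calc P55.M T * P55.Jg (2 * K) T p ≤ 4 * (P55.M T * P55.Jg (2 * K) T p) := this
        _ = 4 * P55.M T * P55.Jg (2 * K) T p := by ring
    have e2 : (P55.m0 (2 * K) T p : ℝ) ≤ (J K T p : ℝ) := by exact_mod_cast e1
    linarith
  have h4 : c / 4 * X K T h p ≤ T ^ 2 / 4 * T ^ (A * (a1 + a2) + 7) :=
    mul_le_mul (by linarith) (h3.trans h2) P.X_pos.le (by positivity)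
  have h5 : T ^ 2 / 4 * T ^ (A * (a1 + a2) + 7) = T ^ (A * (a1 + a2) + 9) / 4 := by
    have : T ^ (A * (a1 + a2) + 9) = T ^ 2 * T ^ (A * (a1 + a2) + 7) := by
      rw [← pow_add]; congr 1; ring
    rw [this]
    ring
  have h6 : 8 * T ^ (A * (a1 + a2) + 9) ≤ T ^ (A * (a1 + a2) + 14) := by
    have e1 : T ^ (A * (a1 + a2) + 14) = T ^ 5 * T ^ (A * (a1 + a2) + 9) := by
      rw [← pow_add]; congr 1; ring
    have e2 : T ^ 1 ≤ T ^ 5 := pow_le_pow_right₀ h0 (by norm_num)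
    rw [pow_one] at e2
    rw [e1]
    apply mul_le_mul_of_nonneg_right _ (by positivity)
    linarith [P.H.T1]
  have h7 : 0 ≤ T ^ (A * (a1 + a2) + 9) := by positivity
  linarith

theorem rr_L (P : P50 d a1 a2 R A c c2 K T L b h p) : 8 * rr c K T h p ≤ L := by
  have h1 := P.rr_T
  have h2 : T ^ (A * (a1 + a2) + 14) ≤ T ^ (A * (a1 + a2) + 15) :=
    pow_le_pow_right₀ P.T0 (by omega)
  have h3 : (8 * (rr c K T h p : ℝ)) ≤ L := h1.trans (h2.trans P.H.TL)
  exact_mod_cast h3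

/-- `N J (1 + T)² ≤ r^d`. -/
theorem f3 (P : P50 d a1 a2 R A c c2 K T L b h p) :
    (b : ℝ) ^ d * (J K T p : ℝ) * (1 + T) ^ 2 ≤ (rr c K T h p : ℝ) ^ d := by
  have h1 := P.H.f3
  rw [P.hJ]
  refine h1.trans ?_
  apply pow_le_pow_left₀ (by positivity)
  refine P.H.rr_le.trans ?_
  have h2 := P.l8
  have h3 := P.rho_pos
  unfold rho at h2 h3
  linarith

theorem f6 (P : P50 d a1 a2 R A c c2 K T L b h p) :
    ((b : ℝ) ^ d * (2 * ((b : ℝ) ^ d * (1 / Real.sqrt h + 1 / (L : ℝ)) ^ d) +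
      32 * (K * T) / (b : ℝ) ^ d)) * (2 * p * (J K T p : ℝ) + K * T + 1) ≤
      (b : ℝ) ^ d := by
  have h1 := P.H.f6
  have hb := P.b0
  have hp := P.H.p_pos
  have hl0 := P.lam0
  have hl2 := P.lam2
  refine le_trans ?_ h1
  rw [P.hJ]
  have h2 : 32 * (K * T) / (b : ℝ) ^ d ≤ 32 * (2 * K * T) / (b : ℝ) ^ d :=
    div_le_div_of_nonneg_right (by linarith) (by positivity)
  have hs := P.H.s_nonneg
  have hl3 : 0 ≤ 2 * K * T := hl0.trans hl2
  apply mul_le_mul _ (by linarith) (by positivity) (by positivity)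
  apply mul_le_mul_of_nonneg_left _ (by positivity)
  linarith

end P50

end Pool.Agent.Stirring.QK
end

section

section

/-! Union bound, first part: telescoping and masses. -/

open Finset

set_option linter.unusedSectionVars false

namespace Pool.Agent.Stirring.QK

theorem sum_inv_sqrt_le (k : ℕ) : ∑ j ∈ range k, 1 / Real.sqrt ((j : ℝ) + 1) ≤ 2 * Real.sqrt k := by
  induction k with
  | zero => simp
  | succ k ih =>
    rw [Finset.sum_range_succ]
    push_cast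
    have h1 : 0 ≤ Real.sqrt (k : ℝ) := Real.sqrt_nonneg _
    have h2 : 0 < Real.sqrt ((k : ℝ) + 1) := Real.sqrt_pos.mpr (by positivity)
    have h3 : Real.sqrt (k : ℝ) ^ 2 = k := Real.sq_sqrt (Nat.cast_nonneg _)
    have h4 : Real.sqrt ((k : ℝ) + 1) ^ 2 = k + 1 := Real.sq_sqrt (by positivity)
    have h5 : 1 / Real.sqrt ((k : ℝ) + 1) ≤ 2 * (Real.sqrt ((k : ℝ) + 1) - Real.sqrt k) := by
      rw [div_le_iff₀ h2]
      nlinarith [sq_nonneg (Real.sqrt ((k : ℝ) + 1) - Real.sqrt k)]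
    linarith

variable {d L : ℕ} [NeZero L] {Ω : Type*} [Fintype Ω]
variable {S : Slab (Fin d → ZMod L) Ω} {Λ : Finset (Fin d → ZMod L)}
variable {b J Jg R m₀ r : ℕ} {c h δ lam ρ α p p' Mm c1 : ℝ}

/-- The test functions. -/
noncomputable def gk (h : ℝ) (w : Fin d → ZMod L) (k : ℕ) : (Fin d → ZMod L) → ℝ :=
  fun z => hk d L (((k : ℝ) + 1) * h) z w

theorem gk_eq (h : ℝ) (w : Fin d → ZMod L) (k : ℕ) :
    gk h w k = heat (tr d L) (((k : ℝ) + 1) * h) (Pi.single w 1) := rfl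

theorem gk_succ (h : ℝ) (w : Fin d → ZMod L) (k : ℕ) :
    gk h w (k + 1) = heat (tr d L) h (gk h w k) := by
  rw [gk_eq, gk_eq, ← heat_add]
  congr 2
  push_cast
  ring

theorem gk_nonneg (hh : 0 ≤ h) (w : Fin d → ZMod L) (k : ℕ) (z : Fin d → ZMod L) :
    0 ≤ gk h w k z := hk_nonneg (by positivity) z w

theorem hk_le_of_le (hL : 2 ≤ L) {s s' : ℝ} (hs : 0 < s) (hss : s ≤ s') (x y : Fin d → ZMod L) :
    hk d L s' x y ≤ (1 / Real.sqrt s + 1 / L) ^ d := by
  refine (hk_le hL (hs.trans_le hss) x y).trans ?_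
  have h1 : 0 < Real.sqrt s := Real.sqrt_pos.mpr hs
  have h2 : Real.sqrt s ≤ Real.sqrt s' := Real.sqrt_le_sqrt hss
  gcongr

theorem gk_le (hL : 2 ≤ L) (hh : 0 < h) (w : Fin d → ZMod L) (k : ℕ) (z : Fin d → ZMod L) :
    gk h w k z ≤ (1 / Real.sqrt h + 1 / L) ^ d := by
  refine hk_le_of_le hL hh ?_ z w
  have : 0 ≤ (k : ℝ) * h := by positivity
  linarith

/-- Bound of the oscillations. -/
noncomputable def nu (d b : ℕ) (h : ℝ) (k : ℕ) : ℝ :=
  (b : ℝ) ^ d * (d * b) * (1 / Real.sqrt (((k : ℝ) + 1) * h))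

theorem osc_gk (hL : 2 ≤ L) (hb : b ≤ L) (hh : 0 < h) (w : Fin d → ZMod L) (k : ℕ) :
    osc (box d L b) (gk h w k) ≤ nu d b h k := by
  rw [gk_eq]
  refine (osc_heat hL b hb (s := ((k : ℝ) + 1) * h) (by positivity) (Pi.single w 1)).trans
    (le_of_eq ?_)
  have h1 : ∑ x, |(Pi.single w (1 : ℝ) : (Fin d → ZMod L) → ℝ) x| = 1 := by
    rw [Finset.sum_eq_single w]
    · simp
    · intro y _ hy; rw [Pi.single_eq_of_ne hy, abs_zero]
    · intro h; exact absurd (Finset.mem_univ _) h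
  rw [h1, mul_one, nu]

theorem nu_le (hh : 0 < h) (k : ℕ) : nu d b h k ≤ (b : ℝ) ^ d * (d * b) * (1 / Real.sqrt h) := by
  unfold nu
  have h1 : 0 < Real.sqrt h := Real.sqrt_pos.mpr hh
  have h2 : Real.sqrt h ≤ Real.sqrt (((k : ℝ) + 1) * h) := by
    apply Real.sqrt_le_sqrt
    have : 0 ≤ (k : ℝ) * h := by positivity
    linarith
  gcongr

/-- The window error is at most `δ U`. -/
theorem werr_le (P : Par d L b J Jg R m₀ r c h δ lam ρ α p p' Mm c1)
    (hp : dens (Fin d → ZMod L) (box d L b) Λ = p) {U : ℝ} (hU : 0 ≤ U) {k : ℕ} (hkJ : k ≤ J) :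
    werr (Fin d → ZMod L) Λ U (nu d b h) k ≤ δ * U := by
  have hh : 0 < h := lt_of_lt_of_le one_pos P.hh
  have hsh : 0 < Real.sqrt h := Real.sqrt_pos.mpr hh
  unfold werr nu
  have h1 : ∑ j ∈ range k, (b : ℝ) ^ d * (d * b) * (1 / Real.sqrt (((j : ℝ) + 1) * h)) =
      (b : ℝ) ^ d * (d * b) * (1 / Real.sqrt h) * ∑ j ∈ range k, 1 / Real.sqrt ((j : ℝ) + 1) := by
    rw [Finset.mul_sum]
    refine Finset.sum_congr rfl fun j _ => ?_
    rw [Real.sqrt_mul (by positivity)]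
    field_simp
  rw [h1]
  have h2 := sum_inv_sqrt_le k
  have h3 : Real.sqrt (k : ℝ) ≤ Real.sqrt J := Real.sqrt_le_sqrt (by exact_mod_cast hkJ)
  have hcard : ((box d L b).card : ℝ) = (b : ℝ) ^ d := by
    rw [card_box P.hbL]; push_cast; rfl
  have h4 : (Λ.card / (Fintype.card (Fin d → ZMod L)) : ℝ) * (b : ℝ) ^ d = p := by
    rw [← hp, dens, hcard]; ring
  have h5 : 4 * U * (Λ.card / (Fintype.card (Fin d → ZMod L) : ℝ)) *
      ((b : ℝ) ^ d * (d * b) * (1 / Real.sqrt h) * ∑ j ∈ range k, 1 / Real.sqrt ((j : ℝ) + 1)) =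
      4 * U * (p * (d * b)) * (1 / Real.sqrt h) * ∑ j ∈ range k, 1 / Real.sqrt ((j : ℝ) + 1) := by
    rw [← h4]; ring
  rw [h5]
  have hp0 := P.hp
  calc 4 * U * (p * (d * b)) * (1 / Real.sqrt h) * ∑ j ∈ range k, 1 / Real.sqrt ((j : ℝ) + 1) ≤
        4 * U * (p * (d * b)) * (1 / Real.sqrt h) * (2 * Real.sqrt J) := by
        refine mul_le_mul_of_nonneg_left (by linarith) (by positivity)
    _ = U * ((8 * p * (d * b) * Real.sqrt J) / Real.sqrt h) := by ring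
    _ ≤ U * δ := by
        refine mul_le_mul_of_nonneg_left ?_ hU
        rw [div_le_iff₀ hsh]
        exact P.u3
    _ = δ * U := mul_comm _ _

theorem mx_pos {u : (Fin d → ZMod L) → ℝ} (hu1 : ∑ z, u z = 1) : 0 < mx u := by
  by_contra hn
  push Not at hn
  have : ∑ z, u z ≤ 0 := Finset.sum_nonpos fun z _ => (le_mx u z).trans hn
  linarith

/-- The failure of `tele_up`. -/
theorem pr_tele_up (P : Par d L b J Jg R m₀ r c h δ lam ρ α p p' Mm c1)
    (H : SlabLaw (tr d L) h S (box d L b) Λ)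
    (hp : dens (Fin d → ZMod L) (box d L b) Λ = p) (A : List Ω) {k : ℕ} (hkJ : k ≤ J)
    (x w : Fin d → ZMod L) :
    Pr S.w k (fun B => ¬ (∑ z, fw S (box d L b) (A ++ B) (dl x) z * hk d L h z w ≤
      2 * ∑ z, fw S (box d L b) A (dl x) z * hk d L ((B.length + 1) * h) z w +
        4 * δ * mx (fw S (box d L b) A (dl x)))) ≤ Real.exp (-lam) := by
  have hh : 0 < h := lt_of_lt_of_le one_pos P.hh
  set u := fw S (box d L b) A (dl x) with hu
  have hu0 : ∀ z, 0 ≤ u z := fw_nonneg H.allDis A (dl_nonneg x)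
  have hu1 : ∑ z, u z = 1 := fw_dl_sum A x
  set U := mx u with hU
  have hU0 : 0 < U := mx_pos hu1
  have hδ := P.hδ
  have hlam := P.hlam
  have hθ0 : 0 < lam / (δ * U) := by positivity
  have h1 := tele_upper (θ := lam / (δ * U)) (U := U) (m := (1 / Real.sqrt h + 1 / L) ^ d)
    (fun p => tr_nonneg p) hh.le H (gk h w) (gk_succ h w) (gk_nonneg hh.le w)
    (gk_le P.hL hh w) hθ0 (by
      have : 16 * U * (lam / (δ * U)) * (1 / Real.sqrt h + 1 / L) ^ d =
          16 * (lam / δ) * (1 / Real.sqrt h + 1 / L) ^ d := by field_simp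
      rw [this]; exact P.u1)
    (nu d b h) (osc_gk P.hL P.hbL hh w) (fun k => by
      have h3 : 2 * (lam / (δ * U)) * U * nu d b h k = 2 * (lam / δ) * nu d b h k := by field_simp
      rw [h3]
      refine le_trans ?_ P.u2
      exact mul_le_mul_of_nonneg_left (nu_le hh k) (by positivity)) k hu0 (le_mx u) lam
  rw [← Pr_eq] at h1
  refine le_trans (Pr_mono H.w_nonneg k fun B hB hn => ?_) h1
  push Not at hn
  rw [fw_append] at hn
  rw [hB] at hn
  have h2 := werr_le (Λ := Λ) P hp hU0.le hkJ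
  have h3 : 2 * lam / (lam / (δ * U)) = 2 * δ * U := by field_simp
  rw [h3]
  have h4 : ∑ z, fw S (box d L b) B u z * gk h w 0 z =
      ∑ z, fw S (box d L b) B u z * hk d L h z w := by
    refine Finset.sum_congr rfl fun z _ => ?_
    simp [gk]
  have h5 : ∑ z, u z * gk h w k z = ∑ z, u z * hk d L ((k + 1) * h) z w := rfl
  rw [h4, h5]
  linarith

/-- The failure of `tele_lo`. -/
theorem pr_tele_lo (P : Par d L b J Jg R m₀ r c h δ lam ρ α p p' Mm c1)
    (H : SlabLaw (tr d L) h S (box d L b) Λ)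
    (hp : dens (Fin d → ZMod L) (box d L b) Λ = p) (A : List Ω) {k : ℕ} (hkJ : k ≤ J)
    (x w : Fin d → ZMod L) :
    Pr S.w k (fun B => ¬ (∑ z, fw S (box d L b) A (dl x) z * hk d L ((B.length + 1) * h) z w
      - 2 * δ * mx (fw S (box d L b) A (dl x)) ≤
        2 * ∑ z, fw S (box d L b) (A ++ B) (dl x) z * hk d L h z w)) ≤ Real.exp (-lam) := by
  have hh : 0 < h := lt_of_lt_of_le one_pos P.hh
  set u := fw S (box d L b) A (dl x) with hu
  have hu0 : ∀ z, 0 ≤ u z := fw_nonneg H.allDis A (dl_nonneg x)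
  have hu1 : ∑ z, u z = 1 := fw_dl_sum A x
  set U := mx u with hU
  have hU0 : 0 < U := mx_pos hu1
  have hδ := P.hδ
  have hlam := P.hlam
  have hθ0 : 0 < lam / (δ * U) := by positivity
  have h1 := tele_lower (θ := lam / (δ * U)) (U := U) (m := (1 / Real.sqrt h + 1 / L) ^ d)
    (fun p => tr_nonneg p) hh.le H (gk h w) (gk_succ h w) (gk_nonneg hh.le w)
    (gk_le P.hL hh w) hθ0 (by
      have : 16 * U * (lam / (δ * U)) * (1 / Real.sqrt h + 1 / L) ^ d =
          16 * (lam / δ) * (1 / Real.sqrt h + 1 / L) ^ d := by field_simp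
      rw [this]; exact P.u1)
    (nu d b h) (osc_gk P.hL P.hbL hh w) (fun k => by
      have h3 : 2 * (lam / (δ * U)) * U * nu d b h k = 2 * (lam / δ) * nu d b h k := by field_simp
      rw [h3]
      refine le_trans ?_ P.u2
      exact mul_le_mul_of_nonneg_left (nu_le hh k) (by positivity)) k hu0 (le_mx u) lam
  rw [← Pr_eq] at h1
  refine le_trans (Pr_mono H.w_nonneg k fun B hB hn => ?_) h1
  push Not at hn
  rw [fw_append] at hn
  rw [hB] at hn
  have h2 := werr_le (Λ := Λ) P hp hU0.le hkJ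
  have h3 : lam / (lam / (δ * U)) = δ * U := by field_simp
  rw [h3]
  have h4 : ∑ z, fw S (box d L b) B u z * gk h w 0 z =
      ∑ z, fw S (box d L b) B u z * hk d L h z w := by
    refine Finset.sum_congr rfl fun z _ => ?_
    simp [gk]
  have h5 : ∑ z, u z * gk h w k z = ∑ z, u z * hk d L ((k + 1) * h) z w := rfl
  rw [h4, h5]
  linarith

/-- Indicator of the cube `q + Q`. -/
noncomputable def ic (Q : Finset (Fin d → ZMod L)) (q : Fin d → ZMod L) :
    (Fin d → ZMod L) → ℝ := fun z => if z - q ∈ Q then 1 else 0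

theorem sum_ic (Q : Finset (Fin d → ZMod L)) (q : Fin d → ZMod L) (u : (Fin d → ZMod L) → ℝ) :
    ∑ z, u z * ic Q q z = ∑ y ∈ Q, u (q + y) := by
  unfold ic
  rw [← Equiv.sum_comp (Equiv.addLeft q)]
  simp only [Equiv.coe_addLeft, add_sub_cancel_left, mul_ite, mul_one, mul_zero]
  rw [Finset.sum_ite_mem, Finset.univ_inter]

theorem heat_ic (Q : Finset (Fin d → ZMod L)) (q : Fin d → ZMod L) (s : ℝ)
    (z : Fin d → ZMod L) : heat (tr d L) s (ic Q q) z = ∑ y ∈ Q, hk d L s z (q + y) := by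
  rw [heat_eq_sum, sum_ic]

theorem ic_nonneg (Q : Finset (Fin d → ZMod L)) (q z : Fin d → ZMod L) : 0 ≤ ic Q q z := by
  unfold ic; split_ifs <;> norm_num

theorem ic_le_one (Q : Finset (Fin d → ZMod L)) (q z : Fin d → ZMod L) : ic Q q z ≤ 1 := by
  unfold ic; split_ifs <;> norm_num

theorem sum_heat_ic (Q : Finset (Fin d → ZMod L)) (q : Fin d → ZMod L) (s : ℝ)
    (u : (Fin d → ZMod L) → ℝ) : ∑ z, u z * heat (tr d L) s (ic Q q) z =
      ∑ y ∈ Q, ∑ z, u z * hk d L s z (q + y) := by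
  simp only [heat_ic, Finset.mul_sum]
  rw [Finset.sum_comm]

/-- The failure of `mass_up`. -/
theorem pr_mass_up (hh : 0 < h) (H : SlabLaw (tr d L) h S (box d L b) Λ)
    (A : List Ω) (x q : Fin d → ZMod L) :
    Pr S.w 1 (fun B => ∃ a, B = [a] ∧ ¬ (∑ y ∈ box d L b, fw S (box d L b) A (dl x) (S.T a (q + y)) ≤
      2 * ∑ y ∈ box d L b, ∑ z, fw S (box d L b) A (dl x) z * hk d L h z (q + y) +
        32 * lam * mx (fw S (box d L b) A (dl x)))) ≤ Real.exp (-lam) := by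
  set u := fw S (box d L b) A (dl x) with hu
  have hu0 : ∀ z, 0 ≤ u z := fw_nonneg H.allDis A (dl_nonneg x)
  have hu1 : ∑ z, u z = 1 := fw_dl_sum A x
  set U := mx u with hU
  have hU0 : 0 < U := mx_pos hu1
  have hθ0 : 0 < 1 / (16 * U) := by positivity
  have h1 := mass_upper (θ := 1 / (16 * U)) (U := U) (m := 1) (g := ic (box d L b) q)
    (fun p => tr_nonneg p) hh.le H hu0 (le_mx u) (ic_nonneg _ q) (ic_le_one _ q) hθ0
    (le_of_eq (by field_simp)) lam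
  classical
  rw [Pr_one]
  refine le_trans (Finset.sum_le_sum fun a _ => mul_le_mul_of_nonneg_left ?_ (H.w_nonneg a)) h1
  rw [sum_heat_ic]
  have h3 : 2 * lam / (1 / (16 * U)) = 32 * lam * U := by field_simp; ring
  rw [h3, sum_ic (box d L b) q (fun z => u (S.T a z))]
  split_ifs with h4 h5 h5
  · exact le_rfl
  · exfalso
    obtain ⟨a', ha', hn⟩ := h4
    simp only [List.cons.injEq, and_true] at ha'
    subst ha'
    push Not at hn
    exact h5 hn.le
  · exact zero_le_one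
  · exact le_rfl

/-- The failure of `mass_lo`. -/
theorem pr_mass_lo (hh : 0 < h) (H : SlabLaw (tr d L) h S (box d L b) Λ)
    (A : List Ω) (x q : Fin d → ZMod L) :
    Pr S.w 1 (fun B => ∃ a, B = [a] ∧ ¬ (∑ y ∈ box d L b, ∑ z,
      fw S (box d L b) A (dl x) z * hk d L h z (q + y) - 16 * lam *
        mx (fw S (box d L b) A (dl x)) ≤
      2 * ∑ y ∈ box d L b, fw S (box d L b) A (dl x) (S.T a (q + y)))) ≤ Real.exp (-lam) := by
  set u := fw S (box d L b) A (dl x) with hu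
  have hu0 : ∀ z, 0 ≤ u z := fw_nonneg H.allDis A (dl_nonneg x)
  have hu1 : ∑ z, u z = 1 := fw_dl_sum A x
  set U := mx u with hU
  have hU0 : 0 < U := mx_pos hu1
  have hθ0 : 0 < 1 / (16 * U) := by positivity
  have h1 := mass_lower (θ := 1 / (16 * U)) (U := U) (m := 1) (g := ic (box d L b) q)
    (fun p => tr_nonneg p) hh.le H hu0 (le_mx u) (ic_nonneg _ q) (ic_le_one _ q) hθ0
    (le_of_eq (by field_simp)) lam
  classical
  rw [Pr_one]
  refine le_trans (Finset.sum_le_sum fun a _ => mul_le_mul_of_nonneg_left ?_ (H.w_nonneg a)) h1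
  rw [sum_heat_ic]
  have h3 : lam / (1 / (16 * U)) = 16 * lam * U := by field_simp
  rw [h3, sum_ic (box d L b) q (fun z => u (S.T a z))]
  split_ifs with h4 h5 h5
  · exact le_rfl
  · exfalso
    obtain ⟨a', ha', hn⟩ := h4
    simp only [List.cons.injEq, and_true] at ha'
    subst ha'
    push Not at hn
    exact h5 hn.le
  · exact zero_le_one
  · exact le_rfl

theorem cu_nonneg (Q : Finset (Fin d → ZMod L)) (q z : Fin d → ZMod L) : 0 ≤ cu Q q z := by
  unfold cu; split_ifs <;> positivity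

theorem cu_le (Q : Finset (Fin d → ZMod L)) (q z : Fin d → ZMod L) : cu Q q z ≤ 1 / Q.card := by
  unfold cu; split_ifs
  · exact le_rfl
  · positivity

theorem cu_sum {Q : Finset (Fin d → ZMod L)} (hQ : Q.Nonempty) (q : Fin d → ZMod L) :
    ∑ z, cu Q q z = 1 := by
  have h1 : ∀ z, cu Q q z = (1 / (Q.card : ℝ)) * ic Q q z := by
    intro z; unfold cu ic; split_ifs <;> ring
  simp only [h1]
  rw [sum_ic Q q (fun _ => 1 / (Q.card : ℝ)), Finset.sum_const, nsmul_eq_mul]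
  have : (Q.card : ℝ) ≠ 0 := by
    have := Finset.card_pos.mpr hQ
    positivity
  field_simp

theorem box_nonempty (hb : 1 ≤ b) : (box d L b).Nonempty := by
  have : Nonempty (Fin b) := ⟨⟨0, by omega⟩⟩
  unfold box
  exact Finset.univ_nonempty.image _

/-- The failure of `mass`. -/
theorem pr_mass (P : Par d L b J Jg R m₀ r c h δ lam ρ α p p' Mm c1)
    (H : SlabLaw (tr d L) h S (box d L b) Λ) (A : List Ω) (q q' : Fin d → ZMod L) :
    Pr S.w 1 (fun B => ∃ a, B = [a] ∧ ¬ (∑ y ∈ box d L b,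
      fw S (box d L b) A (cu (box d L b) q) (S.T a (q' + y)) ≤ Mm)) ≤ Real.exp (-lam) := by
  have hh : 0 < h := lt_of_lt_of_le one_pos P.hh
  have hQ : (box d L b).Nonempty := box_nonempty P.hb
  set u := fw S (box d L b) A (cu (box d L b) q) with hu
  have hu0 : ∀ z, 0 ≤ u z := fw_nonneg H.allDis A (cu_nonneg _ q)
  have hu1 : ∑ z, u z = 1 := by rw [hu, fw_sum, cu_sum hQ]
  have hcard : ((box d L b).card : ℝ) = (b : ℝ) ^ d := by
    rw [card_box P.hbL]; push_cast; rfl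
  have hbd : (0 : ℝ) < (b : ℝ) ^ d := by
    have : (0 : ℝ) < b := by exact_mod_cast P.hb
    positivity
  have huU : ∀ z, u z ≤ 1 / (b : ℝ) ^ d := by
    intro z
    rw [← hcard]
    exact fw_le H.allDis A (cu_le _ q) z
  have hθ0 : 0 < (b : ℝ) ^ d / 16 := by positivity
  have h1 := mass_upper (θ := (b : ℝ) ^ d / 16) (U := 1 / (b : ℝ) ^ d) (m := 1)
    (g := ic (box d L b) q')
    (fun p => tr_nonneg p) hh.le H hu0 huU (ic_nonneg _ q') (ic_le_one _ q') hθ0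
    (le_of_eq (by field_simp)) lam
  classical
  rw [Pr_one]
  refine le_trans (Finset.sum_le_sum fun a _ => mul_le_mul_of_nonneg_left ?_ (H.w_nonneg a)) h1
  rw [sum_ic (box d L b) q' (fun z => u (S.T a z))]
  have h6 : ∑ z, u z * heat (tr d L) h (ic (box d L b) q') z ≤
      (b : ℝ) ^ d * (1 / Real.sqrt h + 1 / L) ^ d := by
    refine sum_mul_le hu0 hu1 fun z => ?_
    rw [heat_ic, ← hcard]
    calc ∑ y ∈ box d L b, hk d L h z (q' + y) ≤
          ∑ _y ∈ box d L b, (1 / Real.sqrt h + 1 / L) ^ d :=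
          Finset.sum_le_sum fun y _ => hk_le P.hL hh _ _
      _ = _ := by rw [Finset.sum_const, nsmul_eq_mul]
  have h3 : 2 * lam / ((b : ℝ) ^ d / 16) = 32 * lam / (b : ℝ) ^ d := by field_simp; ring
  have h7 := P.u8
  rw [h3]
  split_ifs with h4 h5 h5
  · exact le_rfl
  · exfalso
    obtain ⟨a', ha', hn⟩ := h4
    simp only [List.cons.injEq, and_true] at ha'
    subst ha'
    push Not at hn
    exact h5 (by linarith)
  · exact zero_le_one
  · exact le_rfl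

end Pool.Agent.Stirring.QK
end

section

/-! Parameters of the local version of block (2). -/

open Finset Filter

set_option linter.unusedSectionVars false

namespace Pool.Agent.Stirring.QL

open Pool.Agent.Stirring.QK

/-- All the conditions. -/
theorem parL_of_P50 {d a1 a2 R A : ℕ} {c c2 K T : ℝ} {L b : ℕ} {h p : ℝ}
    (P : P50 d a1 a2 R A c c2 K T L b h p) (hc2 : c2 ≤ 1)
    (hc2' : 4 * c2 ≤ c / 2 * (c / 2048) ^ d) :
    ParL d L b (P50.J K T p) (P50.Jg K T p) R (P50.m0 R K T p) (P50.rr c K T h p) c h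
      (1 / (b : ℝ)) (K * T) (P50.rho c K T h p) (P50.al K T h p) p (p / 2)
      (2 * ((b : ℝ) ^ d * (1 / Real.sqrt h + 1 / (L : ℝ)) ^ d) + 32 * (K * T) / (b : ℝ) ^ d)
      (c2 * (c / 16) * (c / 16) ^ d) c2 where
  hL := P.H.par.hL
  hb := P.H.par.hb
  hbL := P.H.par.hbL
  hJg := P.H.par.hJg
  hh := P.H.h_one
  hδ := P.H.par.hδ
  hlam := P.T0.trans P.lam1
  hα := P.H.al_nonneg
  hp := P.H.p_pos.le
  hp'0 := by linarith [P.H.p_pos]
  hp'1 := by linarith [P.H.p2]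
  u1 := P.u1
  u2 := P.u2
  u3 := P.u3
  u4 := P.u4
  u5 := P.u5
  u6 := P.u6
  u8 := le_rfl
  l2 := P.l2
  l3 := by linarith [P.rho_b1, P.b0]
  l4 := P.l4
  l5 := by have := P.l5; omega
  l6 := P.l6
  l7 := by
    have hc := P.hc
    have h1 := P.l7 (κ := c2 * (c / 16)) (by have := P.c2p; positivity)
    refine h1.trans (le_of_eq ?_)
    ring
  l8 := P.l8
  lL := by have := P.rr_L; omega
  c2pos := P.c2p
  c2le := hc2
  lh := by
    have h1 := P.rho_b
    have hb := P.b0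
    have h2 : (b : ℝ) ≤ (b : ℝ) ^ 2 := by nlinarith
    have h3 : (b : ℝ) ^ d * b ≤ (b : ℝ) ^ d * b ^ 2 := mul_le_mul_of_nonneg_left h2 (by positivity)
    have h4 : 0 ≤ (b : ℝ) ^ d * b ^ 2 := by positivity
    have h5 := P.rho_pos
    linarith
  lf := by
    have h1 := P.err
    have hr := P.rho_pos
    have hb := P.b0
    have hp := P.H.p_pos
    have h2 : 0 ≤ (b : ℝ) / P50.rho c K T h p := by positivity
    have h3 := P.lam0
    have h4 : 0 ≤ p * (P50.J K T p : ℝ) := by positivity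
    nlinarith [mul_nonneg h2 h3, mul_nonneg h2 h4]
  lg := by
    refine hc2'.trans ?_
    have hc := P.hc
    have h1 := P.rho_D2
    have h2 := P.D2_pos
    apply mul_le_mul_of_nonneg_left _ (by positivity)
    apply pow_le_pow_left₀ (by positivity)
    rw [le_div_iff₀ (by positivity)]
    linarith

/-- Par LOCAL. Parameters, local version: `T` = logarithm of the side of the box; everything is
bounded by powers of `T`, independently of `L`. -/
theorem params_local (d : ℕ) (hd : 2 ≤ d) {c : ℝ} (hc : 0 < c) (a1 a2 : ℕ) (ha1 : 4 * d + 8 ≤ a1)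
    (K : ℝ) (hK : 1 ≤ K) :
    ∃ (R A₀ : ℕ) (c1 c2 : ℝ), 0 < c1 ∧ 0 < c2 ∧ ∀ A : ℕ, A₀ ≤ A → ∃ (B : ℕ) (T₀ : ℝ), 1 ≤ T₀ ∧
      ∀ T : ℝ, T₀ ≤ T → ∀ L b : ℕ, T ^ B ≤ L → T ^ A ≤ b → (b : ℝ) ≤ 2 * T ^ A →
      ∀ h : ℝ, (b : ℝ) ^ a1 / 2 ≤ h → h ≤ (b : ℝ) ^ a1 →
      ∀ p : ℝ, 1 / (b : ℝ) ^ a2 ≤ p → p ≤ 1 →
      ∃ (J Jg m₀ r : ℕ) (δ ρ α Mm : ℝ),
        ParL d L b J Jg R m₀ r c h δ (K * T) ρ α p (p / 2) Mm c1 c2 ∧
        (J : ℝ) * (b : ℝ) ^ a1 ≤ T ^ B ∧
        (b : ℝ) ^ d * J * (1 + T) ^ 2 ≤ (r : ℝ) ^ d ∧ 8 * (r : ℝ) ≤ T ^ B ∧ 0 ≤ Mm ∧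
        ((b : ℝ) ^ d * Mm) * (2 * p * J + K * T + 1) ≤ (b : ℝ) ^ d := by
  set c2 : ℝ := min 1 (c / 2 * (c / 2048) ^ d / 4) with hc2
  have c2p : 0 < c2 := lt_min one_pos (by positivity)
  have c21 : c2 ≤ 1 := min_le_left _ _
  have c22 : 4 * c2 ≤ c / 2 * (c / 2048) ^ d := by
    have : c2 ≤ c / 2 * (c / 2048) ^ d / 4 := min_le_right _ _
    linarith
  refine ⟨d * (a1 + a2 + 1) + 1, d + 10, c2 * (c / 16) * (c / 16) ^ d, c2, by positivity, c2p, ?_⟩
  intro A hA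
  set R : ℕ := d * (a1 + a2 + 1) + 1 with hR
  set N : ℕ := d * (A * (a1 + a2) + 7) + 2 with hN
  have hexp : ∀ᶠ T : ℝ in atTop, T ^ N ≤ Real.exp T := by
    have h1 := (Real.isLittleO_pow_exp_atTop (n := N)).bound (show (0 : ℝ) < 1 by norm_num)
    filter_upwards [h1] with T hT
    calc T ^ N ≤ ‖T ^ N‖ := Real.le_norm_self _
      _ ≤ 1 * ‖Real.exp T‖ := hT
      _ = Real.exp T := by simp
  obtain ⟨T1, hT1⟩ := eventually_atTop.mp (hexp.and ((eventually_ge_atTop ((10 : ℝ) ^ 6)).and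
    ((eventually_ge_atTop (2 * K)).and ((eventually_ge_atTop (1 / (c / 128))).and
    ((eventually_ge_atTop (c / 128)).and ((eventually_ge_atTop ((6 : ℝ) ^ d)).and
    ((eventually_ge_atTop ((40 : ℝ) ^ R)).and ((eventually_ge_atTop ((2 : ℝ) ^ (a1 + a2))).and
    ((eventually_ge_atTop ((16 * ((R : ℝ) + 1)) ^ 2 * (2 * K) / (c / 128) ^ 2)).and
    (eventually_ge_atTop (1 / c2)))))))))))
  refine ⟨A * (a1 + a2) + 15, max 1 T1, le_max_left _ _, ?_⟩
  intro T hT L b tL b1 b2 h h1 h2 p p1 p2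
  obtain ⟨te, t1, tK, tc, tc', td, tR, ta, ts, tc2⟩ := hT1 T ((le_max_right _ _).trans hT)
  have hc128 : 0 < c / 128 := by positivity
  have H : P55 d a1 a2 R A (c / 128) (2 * K) T L b h p :=
    { hd := hd, hc := hc128, ha1 := ha1, hK := by linarith, hR := hR, hA := hA, T1 := t1, TK := tK
      Tc := by
        rw [div_le_iff₀ hc128] at tc
        linarith
      Tc' := tc', Td := td, TR := tR, Ta := ta
      Ts := by
        rw [div_le_iff₀ (by positivity)] at ts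
        linarith
      TL := tL, b1 := b1, b2 := b2, h1 := h1, h2 := h2, p1 := p1, p2 := p2 }
  have P : P50 d a1 a2 R A c c2 K T L b h p :=
    { H := H, K1 := hK, c2p := c2p
      Tc2 := by
        rw [div_le_iff₀ c2p] at tc2
        linarith
      Te := te }
  refine ⟨P50.J K T p, P50.Jg K T p, P50.m0 R K T p, P50.rr c K T h p, 1 / (b : ℝ),
    P50.rho c K T h p, P50.al K T h p, _, parL_of_P50 P c21 c22, ?_, P.f3, ?_, ?_, P.f6⟩
  · rw [P.hJ]
    exact P.H.Jb_le.trans (pow_le_pow_right₀ P.T0 (by omega))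
  · exact P.rr_T.trans (pow_le_pow_right₀ P.T0 (by omega))
  · have := P.lam0
    positivity

end Pool.Agent.Stirring.QL
end
end
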