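import Pool.Agent.Lib.MP_6c3d62_pr.Mg.G058
import Pool.Agent.Lib.MP_6c3d62_pr.QK.Win

section

/-! Log-moment generating functions for one slab of stirring. -/

open Finset

set_option linter.unusedSectionVars false

namespace Pool.Agent.Stirring.QK

variable {V : Type*} [Fintype V] [DecidableEq V]

theorem exp_le_quad {x : ℝ} (hx : |x| ≤ 1) : Real.exp x - 1 ≤ x + x ^ 2 := by
  have h := Real.abs_exp_sub_one_sub_id_le hx
  have h2 := (abs_le.mp h).2
  linarith

/-- Change of variables. -/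
theorem sum_perm_swap (σ : Equiv.Perm V) (p : V × V) (v g : V → ℝ) :
    ∑ y, v ((σ * Equiv.swap p.1 p.2) y) * g y = ∑ y, v (σ y) * g (Equiv.swap p.1 p.2 y) := by
  rw [← Equiv.sum_comp (Equiv.swap p.1 p.2) (fun y => v ((σ * Equiv.swap p.1 p.2) y) * g y)]
  refine Finset.sum_congr rfl fun y _ => ?_
  simp [Equiv.Perm.mul_apply]

/-- The difference of a sum when the arguments of `g` are swapped. -/
theorem sum_swap_sub (w g : V → ℝ) (a b : V) :
    ∑ y, w y * (g (Equiv.swap a b y) - g y) = -((w a - w b) * (g a - g b)) := by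
  by_cases hab : a = b
  · subst hab; simp
  have h0 : ∀ y, y ≠ a → y ≠ b → w y * (g (Equiv.swap a b y) - g y) = 0 := by
    intro y h1 h2
    rw [Equiv.swap_apply_of_ne_of_ne h1 h2, sub_self, mul_zero]
  rw [← Finset.sum_subset (Finset.subset_univ {a, b}) (fun y _ hy => by
    have h1 : y ≠ a := fun h => hy (by simp [h])
    have h2 : y ≠ b := fun h => hy (by simp [h])
    exact h0 y h1 h2), Finset.sum_pair hab, Equiv.swap_apply_left, Equiv.swap_apply_right]
  ring

/-- The same for the square of the difference. -/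
theorem sum_swap_sq (w g : V → ℝ) (a b : V) :
    ∑ y, w y * (g (Equiv.swap a b y) - g y) ^ 2 =
      if a = b then 0 else (w a + w b) * (g a - g b) ^ 2 := by
  by_cases hab : a = b
  · subst hab; simp
  rw [if_neg hab]
  have h0 : ∀ y, y ≠ a → y ≠ b → w y * (g (Equiv.swap a b y) - g y) ^ 2 = 0 := by
    intro y h1 h2
    rw [Equiv.swap_apply_of_ne_of_ne h1 h2, sub_self]; ring
  rw [← Finset.sum_subset (Finset.subset_univ {a, b}) (fun y _ hy => by
    have h1 : y ≠ a := fun h => hy (by simp [h])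
    have h2 : y ≠ b := fun h => hy (by simp [h])
    exact h0 y h1 h2), Finset.sum_pair hab, Equiv.swap_apply_left, Equiv.swap_apply_right]
  ring

/-- The exponent. -/
noncomputable def expo (v : V → ℝ) (θ β : ℝ) (g : V → ℝ) (σ : Equiv.Perm V) : ℝ :=
  θ * ∑ y, v (σ y) * g y - β * ∑ y, v (σ y) * g y ^ 2

theorem expo_swap (v : V → ℝ) (θ β : ℝ) (g : V → ℝ) (σ : Equiv.Perm V) (p : V × V) :
    expo v θ β g (σ * Equiv.swap p.1 p.2) - expo v θ β g σ =
      θ * ∑ y, v (σ y) * (g (Equiv.swap p.1 p.2 y) - g y) -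
        β * ∑ y, v (σ y) * (g (Equiv.swap p.1 p.2 y) ^ 2 - g y ^ 2) := by
  unfold expo
  rw [sum_perm_swap σ p v g, sum_perm_swap σ p v (fun y => g y ^ 2)]
  simp only [mul_sub, Finset.sum_sub_distrib]
  ring

/-- The change of the exponent is small. -/
theorem expo_swap_bound {v : V → ℝ} {U : ℝ} (hv : ∀ x, 0 ≤ v x) (hvU : ∀ x, v x ≤ U)
    {θ m : ℝ} {g : V → ℝ} (hg : ∀ x, 0 ≤ g x) (hgm : ∀ x, g x ≤ m) (hθ : 16 * U * |θ| * m ≤ 1)
    (σ : Equiv.Perm V) (p : V × V) :
    |expo v θ (2 * U * θ ^ 2) g (σ * Equiv.swap p.1 p.2) - expo v θ (2 * U * θ ^ 2) g σ| ≤ 1 ∧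
    (expo v θ (2 * U * θ ^ 2) g (σ * Equiv.swap p.1 p.2) - expo v θ (2 * U * θ ^ 2) g σ) ^ 2 ≤
      2 * U * θ ^ 2 * ∑ y, v (σ y) * (g (Equiv.swap p.1 p.2 y) - g y) ^ 2 := by
  rw [expo_swap, sum_swap_sub (fun y => v (σ y)) g, sum_swap_sub (fun y => v (σ y))
    (fun y => g y ^ 2), sum_swap_sq (fun y => v (σ y)) g]
  set a := p.1
  set b := p.2
  by_cases hab : a = b
  · rw [if_pos hab, hab]; simp
  rw [if_neg hab]
  have hva := hv (σ a)
  have hvb := hv (σ b)
  have hva' := hvU (σ a)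
  have hvb' := hvU (σ b)
  have hga := hg a
  have hgb := hg b
  have hga' := hgm a
  have hgb' := hgm b
  set A := v (σ a)
  set B := v (σ b)
  set x := g a
  set y := g b
  have hU : 0 ≤ U := hva.trans hva'
  have hm : 0 ≤ m := hga.trans hga'
  have hid : θ * -((A - B) * (x - y)) - 2 * U * θ ^ 2 * -((A - B) * (x ^ 2 - y ^ 2)) =
      -(θ * (A - B) * (x - y) * (1 - 2 * U * θ * (x + y))) := by ring
  rw [hid]
  have h1 : |A - B| ≤ U := by rw [abs_le]; constructor <;> linarith
  have h2 : |x - y| ≤ m := by rw [abs_le]; constructor <;> linarith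
  have h3 : |2 * U * θ * (x + y)| ≤ 1 / 4 := by
    rw [abs_mul, abs_mul, abs_of_nonneg (by positivity : (0 : ℝ) ≤ 2 * U),
      abs_of_nonneg (by linarith : (0 : ℝ) ≤ x + y)]
    have : 2 * U * |θ| * (x + y) ≤ 2 * U * |θ| * (2 * m) :=
      mul_le_mul_of_nonneg_left (by linarith) (by positivity)
    linarith
  have h4 : |1 - 2 * U * θ * (x + y)| ≤ 5 / 4 := by
    have := abs_sub (1 : ℝ) (2 * U * θ * (x + y))
    have h5 : |1 - 2 * U * θ * (x + y)| ≤ |(1 : ℝ)| + |2 * U * θ * (x + y)| := by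
      exact abs_sub _ _
    rw [abs_one] at h5
    linarith
  constructor
  · rw [abs_neg, abs_mul, abs_mul, abs_mul]
    have h5 : |θ| * |A - B| * |x - y| ≤ |θ| * U * m := by
      have := abs_nonneg θ
      gcongr
    have h6 : |θ| * |A - B| * |x - y| * |1 - 2 * U * θ * (x + y)| ≤ (|θ| * U * m) * (5 / 4) := by
      gcongr
    nlinarith
  · have h5 : (A - B) ^ 2 ≤ U * (A + B) := by
      nlinarith [mul_nonneg hva (sub_nonneg.mpr hva'), mul_nonneg hvb (sub_nonneg.mpr hvb'),
        mul_nonneg hva hvb]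
    have h6 : (1 - 2 * U * θ * (x + y)) ^ 2 ≤ 2 := by
      have := sq_le_sq' (by linarith [abs_le.mp h4 |>.1]) (abs_le.mp h4).2
      nlinarith
    calc (-(θ * (A - B) * (x - y) * (1 - 2 * U * θ * (x + y)))) ^ 2 =
          (θ ^ 2 * (x - y) ^ 2) * ((A - B) ^ 2 * (1 - 2 * U * θ * (x + y)) ^ 2) := by ring
      _ ≤ (θ ^ 2 * (x - y) ^ 2) * ((U * (A + B)) * 2) := by
          have h7 : 0 ≤ U * (A + B) := by positivity
          gcongr
      _ = 2 * U * θ ^ 2 * ((A + B) * (x - y) ^ 2) := by ring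

/-- The time derivative of the exponent. -/
theorem expo_hasDerivAt (v : V → ℝ) (θ β : ℝ) {G G' : ℝ → V → ℝ} {t : ℝ}
    (hG : ∀ x, HasDerivAt (fun u => G u x) (G' t x) t) (σ : Equiv.Perm V) :
    HasDerivAt (fun u => expo v θ β (G u) σ)
      (θ * ∑ y, v (σ y) * G' t y - β * ∑ y, v (σ y) * (2 * G t y * G' t y)) t := by
  unfold expo
  refine HasDerivAt.sub ?_ ?_
  · refine HasDerivAt.const_mul _ ?_
    refine HasDerivAt.fun_sum fun y _ => ?_
    exact (hG y).const_mul _
  · refine HasDerivAt.const_mul _ ?_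
    refine HasDerivAt.fun_sum fun y _ => ?_
    refine HasDerivAt.const_mul _ ?_
    refine ((hG y).pow 2).congr_deriv ?_
    simp

/-- The generator applied to the exponential. -/
theorem gen_exp_le {c : V × V → ℝ} (hc : ∀ p, 0 ≤ c p) {v : V → ℝ} {U : ℝ} (hv : ∀ x, 0 ≤ v x)
    (hvU : ∀ x, v x ≤ U) {θ m : ℝ} {g : V → ℝ} (hg : ∀ x, 0 ≤ g x) (hgm : ∀ x, g x ≤ m)
    (hθ : 16 * U * |θ| * m ≤ 1) (σ : Equiv.Perm V) :
    Hier.gen c (fun τ => Real.exp (expo v θ (2 * U * θ ^ 2) g τ)) σ ≤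
      Real.exp (expo v θ (2 * U * θ ^ 2) g σ) *
        (θ * ∑ y, v (σ y) * lap c g y -
          2 * U * θ ^ 2 * ∑ y, v (σ y) * (2 * g y * lap c g y)) := by
  set β := 2 * U * θ ^ 2 with hβ
  rw [Hier.gen_apply]
  set X := Real.exp (expo v θ β g σ) with hX
  have h1 : ∀ p : V × V, c p * (Real.exp (expo v θ β g (σ * Equiv.swap p.1 p.2)) - X) ≤
      X * (c p * (θ * ∑ y, v (σ y) * (g (Equiv.swap p.1 p.2 y) - g y) -
        β * ∑ y, v (σ y) * (2 * g y * (g (Equiv.swap p.1 p.2 y) - g y)))) := by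
    intro p
    obtain ⟨hb1, hb2⟩ := expo_swap_bound hv hvU hg hgm hθ σ p
    have h2 := exp_le_quad hb1
    have h3 : Real.exp (expo v θ β g (σ * Equiv.swap p.1 p.2)) - X =
        X * (Real.exp (expo v θ β g (σ * Equiv.swap p.1 p.2) - expo v θ β g σ) - 1) := by
      rw [mul_sub, hX, ← Real.exp_add]
      ring_nf
    rw [h3]
    have h4 : expo v θ β g (σ * Equiv.swap p.1 p.2) - expo v θ β g σ +
        (expo v θ β g (σ * Equiv.swap p.1 p.2) - expo v θ β g σ) ^ 2 ≤
        θ * ∑ y, v (σ y) * (g (Equiv.swap p.1 p.2 y) - g y) -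
        β * ∑ y, v (σ y) * (2 * g y * (g (Equiv.swap p.1 p.2 y) - g y)) := by
      have h5 := hb2
      rw [expo_swap] at h5 ⊢
      have h6 : ∑ y, v (σ y) * (g (Equiv.swap p.1 p.2 y) ^ 2 - g y ^ 2) =
          ∑ y, v (σ y) * (2 * g y * (g (Equiv.swap p.1 p.2 y) - g y)) +
          ∑ y, v (σ y) * (g (Equiv.swap p.1 p.2 y) - g y) ^ 2 := by
        rw [← Finset.sum_add_distrib]
        refine Finset.sum_congr rfl fun y _ => by ring
      rw [h6] at h5 ⊢
      rw [mul_add]
      linarith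
    have hX0 : 0 ≤ X := (Real.exp_pos _).le
    calc c p * (X * (Real.exp (expo v θ β g (σ * Equiv.swap p.1 p.2) - expo v θ β g σ) - 1)) =
          (c p * X) * (Real.exp (expo v θ β g (σ * Equiv.swap p.1 p.2) - expo v θ β g σ) - 1) := by
            ring
      _ ≤ (c p * X) * (θ * ∑ y, v (σ y) * (g (Equiv.swap p.1 p.2 y) - g y) -
        β * ∑ y, v (σ y) * (2 * g y * (g (Equiv.swap p.1 p.2 y) - g y))) :=
          mul_le_mul_of_nonneg_left (h2.trans h4) (mul_nonneg (hc p) hX0)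
      _ = _ := by ring
  refine (Finset.sum_le_sum fun p _ => h1 p).trans (le_of_eq ?_)
  rw [← Finset.mul_sum]
  congr 1
  have h2 : ∑ y, v (σ y) * lap c g y =
      ∑ p : V × V, c p * ∑ y, v (σ y) * (g (Equiv.swap p.1 p.2 y) - g y) := by
    simp only [lap_apply, Finset.mul_sum]
    rw [Finset.sum_comm]
    refine Finset.sum_congr rfl fun p _ => Finset.sum_congr rfl fun y _ => by ring
  have h3 : ∑ y, v (σ y) * (2 * g y * lap c g y) =
      ∑ p : V × V, c p * ∑ y, v (σ y) * (2 * g y * (g (Equiv.swap p.1 p.2 y) - g y)) := by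
    simp only [lap_apply, Finset.mul_sum]
    rw [Finset.sum_comm]
    refine Finset.sum_congr rfl fun p _ => Finset.sum_congr rfl fun y _ => by ring
  rw [h2, h3, Finset.mul_sum, Finset.mul_sum, ← Finset.sum_sub_distrib]
  refine Finset.sum_congr rfl fun p _ => by ring

/-- **M2**: the exponential supermartingale for one slab of stirring. `θ` may have any sign. -/
theorem sg_expo_le {c : V × V → ℝ} (hc : ∀ p, 0 ≤ c p) {v : V → ℝ} {U : ℝ} (hv : ∀ x, 0 ≤ v x)
    (hvU : ∀ x, v x ≤ U) {θ m h : ℝ} (hh : 0 ≤ h) {G : V → ℝ} (hG : ∀ x, 0 ≤ G x)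
    (hGm : ∀ x, G x ≤ m) (hθ : 16 * U * |θ| * m ≤ 1) (σ : Equiv.Perm V) :
    Hier.sg c h (fun τ => Real.exp (expo v θ (2 * U * θ ^ 2) G τ)) σ ≤
      Real.exp (expo v θ (2 * U * θ ^ 2) (heat c h G) σ) := by
  set F : ℝ → Hier.Fn V := fun s τ =>
    Real.exp (expo v θ (2 * U * θ ^ 2) (heat c (h - s) G) τ) with hF
  set F' : ℝ → Hier.Fn V := fun s τ =>
    Real.exp (expo v θ (2 * U * θ ^ 2) (heat c (h - s) G) τ) *
      (θ * ∑ y, v (τ y) * (-(lap c (heat c (h - s) G) y)) -
        2 * U * θ ^ 2 * ∑ y, v (τ y) * (2 * heat c (h - s) G y *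
          (-(lap c (heat c (h - s) G) y)))) with hF'
  have h0 := Hier.move_lin (c := c) hc (Hier.stab_univ c) (F := F) (F' := F') (κ := 0) hh
    (by
      intro s _ τ
      have hd : ∀ x, HasDerivAt (fun u => heat c (h - u) G x)
          ((fun u x => -(lap c (heat c (h - u) G) x)) s x) s := by
        intro x
        have h1 := (heat_hasDerivAt c G (h - s) x).comp s ((hasDerivAt_id s).const_sub h)
        refine h1.congr_deriv ?_
        simp
      have h2 := expo_hasDerivAt v θ (2 * U * θ ^ 2) (G := fun u => heat c (h - u) G)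
        (G' := fun u x => -(lap c (heat c (h - u) G) x)) (t := s) hd τ
      exact h2.exp)
    (by
      intro s hs τ _
      have hs' : 0 ≤ h - s := by linarith [hs.2]
      have hg0 : ∀ x, 0 ≤ heat c (h - s) G x := fun x => heat_nonneg hc hs' hG x
      have hgm : ∀ x, heat c (h - s) G x ≤ m := by
        intro x
        have := heat_mono hc hs' hGm x
        rwa [heat_const] at this
      have h1 := gen_exp_le hc hv hvU hg0 hgm hθ τ
      simp only [hF, hF']
      refine (add_le_add_left h1 _).trans (le_of_eq ?_)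
      simp only [mul_neg, Finset.sum_neg_distrib]
      ring)
    (σ := σ) (Set.mem_univ _)
  simp only [hF, sub_self, sub_zero, zero_mul, add_zero] at h0
  rw [heat_zero] at h0
  exact h0

end Pool.Agent.Stirring.QK
end

section

/-! The exponential moment over many slabs. -/

open Finset

set_option linter.unusedSectionVars false

namespace Pool.Agent.Stirring.QK

variable {V : Type*} [AddCommGroup V] [Fintype V] [DecidableEq V] {Ω : Type*} [Fintype Ω]

/-- The law of one slab: stirring with rates `c` for a time `h`, an independent uniform shift, any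
set of good windows among the shifted ones. -/
structure SlabLaw (c : V × V → ℝ) (h : ℝ) (S : Slab V Ω) (Q Λ : Finset V) : Prop where
  w_nonneg : ∀ a, 0 ≤ S.w a
  w_sum : ∑ a, S.w a = 1
  law : ∀ F : Equiv.Perm V → V → ℝ, ∑ a, S.w a * F (S.T a) (S.sh a) =
    Hier.sg c h (fun τ => (∑ s, F τ s) / Fintype.card V) 1
  sub : ∀ a, S.good a ⊆ Λ.image (S.sh a + ·)
  dis : ∀ s, Dis Q (Λ.image (s + ·))

variable {c : V × V → ℝ} {h : ℝ} {S : Slab V Ω} {Q Λ : Finset V}

theorem Dis.mono {Q G G' : Finset V} (h : Dis Q G') (hG : G ⊆ G') : Dis Q G :=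
  fun q hq q' hq' z hz hz' => h q (hG hq) q' (hG hq') z hz hz'

theorem SlabLaw.allDis (H : SlabLaw c h S Q Λ) : AllDis S Q := fun a => (H.dis _).mono (H.sub a)

/-- Functions of the permutation only. -/
theorem SlabLaw.law_T (H : SlabLaw c h S Q Λ) (F : Equiv.Perm V → ℝ) :
    ∑ a, S.w a * F (S.T a) = Hier.sg c h F 1 := by
  have h1 := H.law (fun τ _ => F τ)
  rw [h1]
  have hn : (Fintype.card V : ℝ) ≠ 0 := by
    have : 0 < Fintype.card V := Fintype.card_pos_iff.mpr ⟨0⟩
    positivity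
  have : (fun τ => (∑ _s : V, F τ) / (Fintype.card V : ℝ)) = F := by
    funext τ
    rw [Finset.sum_const, Finset.card_univ, nsmul_eq_mul]
    field_simp
  rw [this]

/-- Products. -/
theorem SlabLaw.law_mul (H : SlabLaw c h S Q Λ) (F : Equiv.Perm V → ℝ) (G : V → ℝ) :
    ∑ a, S.w a * (F (S.T a) * G (S.sh a)) =
      Hier.sg c h F 1 * ((∑ s, G s) / Fintype.card V) := by
  have h1 := H.law (fun τ s => F τ * G s)
  rw [h1]
  have : (fun τ => (∑ s : V, F τ * G s) / (Fintype.card V : ℝ)) =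
      ((∑ s, G s) / (Fintype.card V : ℝ)) • F := by
    funext τ
    rw [← Finset.mul_sum, Pi.smul_apply, smul_eq_mul]
    ring
  rw [this, Hier.sg_smul, mul_comm]

theorem oscS_sq {s : V} {g : V → ℝ} {m : ℝ} (hg : ∀ x, 0 ≤ g x) (hgm : ∀ x, g x ≤ m) :
    oscS Q Λ s (fun x => g x ^ 2) ≤ 2 * m * oscS Q Λ s g := by
  unfold oscS
  rw [Finset.mul_sum]
  refine Finset.sum_le_sum fun q _ => ?_
  rw [Finset.mul_sum]
  refine Finset.sum_le_sum fun z _ => ?_
  have h1 : g (s + q + z) ^ 2 - g (s + q) ^ 2 =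
      (g (s + q + z) + g (s + q)) * (g (s + q + z) - g (s + q)) := by ring
  rw [h1, abs_mul]
  refine mul_le_mul_of_nonneg_right ?_ (abs_nonneg _)
  rw [abs_of_nonneg (add_nonneg (hg _) (hg _))]
  linarith [hgm (s + q + z), hgm (s + q)]

/-- The exponent of the supermartingale. -/
noncomputable def ex (U θ : ℝ) (g u : V → ℝ) : ℝ :=
  θ * ∑ z, u z * g z - 2 * U * θ ^ 2 * ∑ z, u z * g z ^ 2

theorem exp_le_two {y : ℝ} (h0 : 0 ≤ y) (h1 : y ≤ 1) : Real.exp y ≤ 1 + 2 * y := by
  have h2 := exp_le_quad (x := y) (by rw [abs_of_nonneg h0]; exact h1)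
  nlinarith

/-- **L1** One slab. -/
theorem slab_expo (hc : ∀ p, 0 ≤ c p) (hh : 0 ≤ h) (H : SlabLaw c h S Q Λ) {u : V → ℝ} {U : ℝ}
    (hu : ∀ z, 0 ≤ u z) (huU : ∀ z, u z ≤ U) {g : V → ℝ} {m θ : ℝ} (hg : ∀ x, 0 ≤ g x)
    (hgm : ∀ x, g x ≤ m) (hθ : 16 * U * |θ| * m ≤ 1) (hosc : 2 * |θ| * U * osc Q g ≤ 1) :
    ∑ a, S.w a * Real.exp (ex U θ g (stp S Q a u)) ≤
      Real.exp (ex U θ (heat c h g) u +
        4 * |θ| * U * (Λ.card / Fintype.card V) * osc Q g) := by
  have hU : 0 ≤ U := (hu 0).trans (huU 0)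
  have hm : 0 ≤ m := (hg 0).trans (hgm 0)
  have hn : (0 : ℝ) < Fintype.card V := by
    have : 0 < Fintype.card V := Fintype.card_pos_iff.mpr ⟨0⟩
    exact_mod_cast this
  -- the windows
  have h1 : ∀ a, Real.exp (ex U θ g (stp S Q a u)) ≤
      Real.exp (expo u θ (2 * U * θ ^ 2) g (S.T a)) *
        Real.exp (2 * |θ| * U * oscS Q Λ (S.sh a) g) := by
    intro a
    rw [← Real.exp_add, Real.exp_le_exp]
    unfold ex expo stp
    have h2 := avg_osc (Q := Q) (H.sub a) (u := fun z => u (S.T a z)) (U := U) (fun z => hu _)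
      (fun z => huU _) g
    have h3 := avg_osc (Q := Q) (H.sub a) (u := fun z => u (S.T a z)) (U := U) (fun z => hu _)
      (fun z => huU _) (fun z => g z ^ 2)
    have h4 : oscS Q Λ (S.sh a) (fun x => g x ^ 2) ≤ 2 * m * oscS Q Λ (S.sh a) g :=
      oscS_sq hg hgm
    set A := ∑ z, avg Q (S.good a) (fun z => u (S.T a z)) z * g z
    set B := ∑ z, u (S.T a z) * g z
    set A2 := ∑ z, avg Q (S.good a) (fun z => u (S.T a z)) z * g z ^ 2
    set B2 := ∑ z, u (S.T a z) * g z ^ 2
    set o := oscS Q Λ (S.sh a) g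
    have ho : 0 ≤ o := oscS_nonneg _ _ _ _
    have h5 : θ * (A - B) ≤ |θ| * (U * o) := by
      calc θ * (A - B) ≤ |θ * (A - B)| := le_abs_self _
        _ = |θ| * |A - B| := abs_mul _ _
        _ ≤ _ := mul_le_mul_of_nonneg_left h2 (abs_nonneg _)
    have h6 : -(A2 - B2) ≤ U * (2 * m * o) :=
      (neg_le_abs _).trans (h3.trans (mul_le_mul_of_nonneg_left h4 hU))
    have h7 : 2 * U * θ ^ 2 * (-(A2 - B2)) ≤ |θ| * (U * o) := by
      have h8 : 2 * U * θ ^ 2 * (-(A2 - B2)) ≤ 2 * U * θ ^ 2 * (U * (2 * m * o)) :=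
        mul_le_mul_of_nonneg_left h6 (by positivity)
      refine h8.trans ?_
      have h9 : 2 * U * θ ^ 2 * (U * (2 * m * o)) = (4 * U * |θ| * m) * (|θ| * (U * o)) := by
        rw [← sq_abs θ]; ring
      rw [h9]
      have h10 : 4 * U * |θ| * m ≤ 1 := by
        have : 0 ≤ U * |θ| * m := by positivity
        nlinarith
      have h11 : 0 ≤ |θ| * (U * o) := by positivity
      nlinarith
    nlinarith
  refine (Finset.sum_le_sum fun a _ => mul_le_mul_of_nonneg_left (h1 a) (H.w_nonneg a)).trans ?_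
  rw [H.law_mul (fun τ => Real.exp (expo u θ (2 * U * θ ^ 2) g τ))
    (fun s => Real.exp (2 * |θ| * U * oscS Q Λ s g))]
  rw [Real.exp_add]
  have hA : Hier.sg c h (fun τ => Real.exp (expo u θ (2 * U * θ ^ 2) g τ)) 1 ≤
      Real.exp (ex U θ (heat c h g) u) := sg_expo_le hc hu huU hh hg hgm hθ 1
  refine mul_le_mul hA ?_ (by positivity) (Real.exp_pos _).le
  -- the mean over the shift
  have h2 : (∑ s, Real.exp (2 * |θ| * U * oscS Q Λ s g)) / (Fintype.card V : ℝ) ≤
      1 + 4 * |θ| * U * (Λ.card / Fintype.card V) * osc Q g := by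
    rw [div_le_iff₀ hn]
    calc ∑ s, Real.exp (2 * |θ| * U * oscS Q Λ s g) ≤
          ∑ s, (1 + 2 * (2 * |θ| * U * oscS Q Λ s g)) := by
          refine Finset.sum_le_sum fun s _ => exp_le_two ?_ ?_
          · exact mul_nonneg (by positivity) (oscS_nonneg _ _ _ _)
          · refine le_trans ?_ hosc
            exact mul_le_mul_of_nonneg_left (oscS_le _ _ _ _) (by positivity)
      _ = Fintype.card V + 4 * |θ| * U * (Λ.card * osc Q g) := by
          rw [Finset.sum_add_distrib, ← sum_oscS, Finset.sum_const, Finset.card_univ, nsmul_eq_mul,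
            mul_one, Finset.mul_sum]
          congr 1
          exact Finset.sum_congr rfl fun s _ => by ring
      _ = _ := by field_simp
  refine h2.trans ?_
  have := Real.add_one_le_exp (4 * |θ| * U * (Λ.card / Fintype.card V) * osc Q g)
  linarith

/-- **L2** Many slabs. -/
theorem tele_expo (hc : ∀ p, 0 ≤ c p) (hh : 0 ≤ h) (H : SlabLaw c h S Q Λ) {U θ m : ℝ}
    (g : ℕ → V → ℝ) (hgs : ∀ k, g (k + 1) = heat c h (g k)) (hg : ∀ k x, 0 ≤ g k x)
    (hgm : ∀ k x, g k x ≤ m) (hθ : 16 * U * |θ| * m ≤ 1) (ν : ℕ → ℝ)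
    (hν : ∀ k, osc Q (g k) ≤ ν k) (hosc : ∀ k, 2 * |θ| * U * ν k ≤ 1) (k : ℕ) {u : V → ℝ}
    (hu : ∀ z, 0 ≤ u z) (huU : ∀ z, u z ≤ U) :
    EL S.w k (fun l => Real.exp (ex U θ (g 0) (fw S Q l u))) ≤
      Real.exp (ex U θ (g k) u +
        4 * |θ| * U * (Λ.card / Fintype.card V) * ∑ j ∈ range k, ν j) := by
  have hU : 0 ≤ U := (hu 0).trans (huU 0)
  induction k generalizing u with
  | zero => simp [EL, fw]
  | succ k ih =>
    unfold EL
    have h1 : ∀ a, EL S.w k (fun l => Real.exp (ex U θ (g 0) (fw S Q (a :: l) u))) ≤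
        Real.exp (ex U θ (g k) (stp S Q a u) +
          4 * |θ| * U * (Λ.card / Fintype.card V) * ∑ j ∈ range k, ν j) := fun a =>
      ih (fun z => stp_nonneg H.allDis a hu z) (fun z => stp_le H.allDis a huU z)
    refine (Finset.sum_le_sum fun a _ => mul_le_mul_of_nonneg_left (h1 a) (H.w_nonneg a)).trans ?_
    simp only [Real.exp_add]
    simp only [← mul_assoc]
    rw [← Finset.sum_mul]
    have hgk : 2 * |θ| * U * osc Q (g k) ≤ 1 :=
      (mul_le_mul_of_nonneg_left (hν k) (by positivity)).trans (hosc k)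
    have h2 := slab_expo hc hh H hu huU (hg k) (hgm k) hθ hgk
    refine (mul_le_mul_of_nonneg_right h2 (Real.exp_pos _).le).trans ?_
    rw [← Real.exp_add, ← Real.exp_add, Real.exp_le_exp, Finset.sum_range_succ, hgs k]
    have h3 : 4 * |θ| * U * (Λ.card / Fintype.card V) * osc Q (g k) ≤
        4 * |θ| * U * (Λ.card / Fintype.card V) * ν k :=
      mul_le_mul_of_nonneg_left (hν k) (by positivity)
    linarith

end Pool.Agent.Stirring.QK
end

section

/-! ROW C (helper3): inverse invariance of the semigroup; number of windows met, forward and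
backward. -/

open Finset

set_option linter.unusedSectionVars false

namespace Pool.Agent.Stirring.QK

section Inv

variable {V : Type*} [Fintype V] [DecidableEq V]

/-- Left multiplication. -/
noncomputable def lft (c : V × V → ℝ) (F : Equiv.Perm V → ℝ) : Equiv.Perm V → ℝ :=
  fun σ => ∑ p : V × V, c p * F (Equiv.swap p.1 p.2 * σ)

theorem stepT_lft (c : V × V → ℝ) (F : Equiv.Perm V → ℝ) :
    Hier.stepT c (lft c F) = lft c (Hier.stepT c F) := by
  funext σ
  rw [Hier.stepT_apply]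
  unfold lft
  simp only [Hier.stepT_apply, Finset.mul_sum]
  rw [Finset.sum_comm]
  refine Finset.sum_congr rfl fun p _ => Finset.sum_congr rfl fun q _ => ?_
  rw [mul_assoc (Equiv.swap p.1 p.2) σ]
  ring

theorem pow_lft (c : V × V → ℝ) (n : ℕ) (F : Equiv.Perm V → ℝ) :
    (Hier.stepT c ^ n) (lft c F) = lft c ((Hier.stepT c ^ n) F) := by
  induction n with
  | zero => rfl
  | succ n ih =>
    rw [pow_succ']
    show Hier.stepT c ((Hier.stepT c ^ n) (lft c F)) = lft c (Hier.stepT c ((Hier.stepT c ^ n) F))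
    rw [ih, stepT_lft]

theorem pow_one_lft (c : V × V → ℝ) (n : ℕ) (F : Equiv.Perm V → ℝ) :
    (Hier.stepT c ^ n) F 1 = ((lft c)^[n] F) 1 := by
  induction n generalizing F with
  | zero => rfl
  | succ n ih =>
    rw [Function.iterate_succ_apply, ← ih, pow_lft, pow_succ']
    show Hier.stepT c ((Hier.stepT c ^ n) F) 1 = _
    rw [Hier.stepT_apply]
    unfold lft
    simp only [one_mul, mul_one]

theorem pow_inv_lft (c : V × V → ℝ) (n : ℕ) (F : Equiv.Perm V → ℝ) :
    (Hier.stepT c ^ n) (fun σ => F σ⁻¹) = fun σ => ((lft c)^[n] F) σ⁻¹ := by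
  induction n generalizing F with
  | zero => rfl
  | succ n ih =>
    rw [Function.iterate_succ_apply, pow_succ]
    show (Hier.stepT c ^ n) (Hier.stepT c (fun σ => F σ⁻¹)) = _
    have h : Hier.stepT c (fun σ => F σ⁻¹) = fun σ => lft c F σ⁻¹ := by
      funext σ
      rw [Hier.stepT_apply]
      unfold lft
      refine Finset.sum_congr rfl fun p _ => ?_
      rw [mul_inv_rev, Equiv.swap_inv]
    rw [h, ih]

/-- The law of the inverse. -/
theorem sg_inv (c : V × V → ℝ) (s : ℝ) (F : Equiv.Perm V → ℝ) :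
    Hier.sg c s (fun σ => F σ⁻¹) 1 = Hier.sg c s F 1 := by
  refine (Hier.sg_hasSum c s (fun σ => F σ⁻¹) 1).unique ?_
  refine (Hier.sg_hasSum c s F 1).congr_fun ?_ |> fun h => h
  intro n
  rw [pow_inv_lft, pow_one_lft]
  simp only [inv_one]

/-- One particle, other direction (from `sg_inv` and `sg_one`). -/
theorem sg_one_inv (c : V × V → ℝ) (s : ℝ) (G : V → ℝ) (x : V) :
    Hier.sg c s (fun σ => G (σ x)) 1 = heat c s G x := by
  rw [← sg_one, ← sg_inv c s (fun σ => G (σ.symm x))]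
  rfl

end Inv

variable {V : Type*} [AddCommGroup V] [Fintype V] [DecidableEq V] {Ω : Type*} [Fintype Ω]
variable {c : V × V → ℝ} {h : ℝ} {S : Slab V Ω} {Q Λ : Finset V}

/-- Every site is in a window for the same proportion of the shifts. -/
theorem sum_inWin (_hQ : Q.Nonempty) (hdis : ∀ s, Dis Q (Λ.image (s + ·))) (z : V) :
    ∑ s, (if InWin Q (Λ.image (s + ·)) z then (1 : ℝ) else 0) = Λ.card * Q.card := by
  have h1 : ∀ s, (if InWin Q (Λ.image (s + ·)) z then (1 : ℝ) else 0) =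
      ∑ q ∈ Λ, if z - (s + q) ∈ Q then (1 : ℝ) else 0 := by
    intro s
    by_cases h : InWin Q (Λ.image (s + ·)) z
    · rw [if_pos h]
      obtain ⟨q, hq, hz⟩ := h
      obtain ⟨q0, hq0, rfl⟩ := Finset.mem_image.1 hq
      rw [Finset.sum_eq_single q0]
      · rw [if_pos hz]
      · intro q' hq' hne
        rw [if_neg]
        intro hz'
        have := hdis s _ (Finset.mem_image_of_mem _ hq') _ hq z hz' hz
        exact hne (add_left_cancel this)
      · intro h; exact absurd hq0 h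
    · rw [if_neg h, Finset.sum_eq_zero]
      intro q hq
      rw [if_neg]
      intro hz
      exact h ⟨s + q, Finset.mem_image_of_mem _ hq, hz⟩
  simp only [h1]
  rw [Finset.sum_comm]
  have h2 : ∀ q ∈ Λ, ∑ s : V, (if z - (s + q) ∈ Q then (1 : ℝ) else 0) = Q.card := by
    intro q _
    rw [← Equiv.sum_comp (Equiv.subLeft (z - q))
      (fun s => if z - (s + q) ∈ Q then (1 : ℝ) else 0)]
    have h3 : ∀ y, z - (Equiv.subLeft (z - q) y + q) = y := by
      intro y
      rw [Equiv.subLeft_apply]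
      abel
    simp only [h3]
    rw [Finset.sum_ite_mem, Finset.univ_inter, Finset.sum_const, nsmul_eq_mul, mul_one]
  rw [Finset.sum_congr rfl h2, Finset.sum_const, nsmul_eq_mul]

/-- The density of the windows. -/
noncomputable def dens (V : Type*) [Fintype V] (Q Λ : Finset V) : ℝ :=
  Λ.card * Q.card / Fintype.card V

/-- Mass met in all the windows, forward. -/
noncomputable def cnt (S : Slab V Ω) (Q Λ : Finset V) : List Ω → (V → ℝ) → ℝ
  | [], _ => 0
  | a :: l, u => ∑ z, (if InWin Q (Λ.image (S.sh a + ·)) z then u (S.T a z) else 0) +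
      cnt S Q Λ l (stp S Q a u)

/-- Mass met in all the windows, backward. -/
noncomputable def bcnt (S : Slab V Ω) (Q Λ : Finset V) : List Ω → (V → ℝ) → ℝ
  | [], _ => 0
  | a :: l, v => bcnt S Q Λ l v +
      ∑ z, (if InWin Q (Λ.image (S.sh a + ·)) z then bw S Q l v z else 0)

theorem dens_nonneg (V : Type*) [Fintype V] (Q Λ : Finset V) : 0 ≤ dens V Q Λ := by
  unfold dens
  positivity

theorem exp_le_lin {x : ℝ} (h0 : 0 ≤ x) (h1 : x ≤ 1) : Real.exp x ≤ 1 + 2 * x := by
  exact exp_le_two h0 h1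

/-- The mean mass in the windows. -/
theorem mean_inWin (hQ : Q.Nonempty) (hdis : ∀ s, Dis Q (Λ.image (s + ·))) (v : V → ℝ) :
    (∑ s, ∑ z, (if InWin Q (Λ.image (s + ·)) z then v z else 0)) / Fintype.card V =
      dens V Q Λ * ∑ z, v z := by
  rw [Finset.sum_comm]
  have h1 : ∀ z ∈ (Finset.univ : Finset V),
      ∑ s, (if InWin Q (Λ.image (s + ·)) z then v z else 0) = Λ.card * Q.card * v z := by
    intro z _
    rw [← sum_inWin hQ hdis z, Finset.sum_mul]
    refine Finset.sum_congr rfl fun s _ => ?_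
    split_ifs
    · rw [one_mul]
    · rw [zero_mul]
  rw [Finset.sum_congr rfl h1, ← Finset.mul_sum]
  unfold dens
  ring

theorem inWin_mass_nonneg (G : Finset V) {v : V → ℝ} (hv : ∀ z, 0 ≤ v z) :
    0 ≤ ∑ z, (if InWin Q G z then v z else 0) :=
  Finset.sum_nonneg fun z _ => by
    split_ifs
    · exact hv z
    · exact le_rfl

theorem inWin_mass_le (G : Finset V) {v : V → ℝ} (hv : ∀ z, 0 ≤ v z) :
    ∑ z, (if InWin Q G z then v z else 0) ≤ ∑ z, v z :=
  Finset.sum_le_sum fun z _ => by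
    split_ifs
    · exact le_rfl
    · exact hv z

theorem not_nonempty_inWin (hQ : ¬ Q.Nonempty) (G : Finset V) (z : V) : ¬ InWin Q G z := by
  rintro ⟨q, _, hz⟩
  exact hQ ⟨_, hz⟩

/-- The exponential moment of the mass in the windows of one slab, forward. -/
theorem one_cnt (H : SlabLaw c h S Q Λ) {u : V → ℝ} (hu : ∀ z, 0 ≤ u z) (hu1 : ∑ z, u z ≤ 1) :
    ∑ a, S.w a * Real.exp (∑ z, (if InWin Q (Λ.image (S.sh a + ·)) z then u (S.T a z) else 0)) ≤
      Real.exp (2 * dens V Q Λ) := by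
  by_cases hQ : Q.Nonempty
  · have h1 : ∀ a, Real.exp (∑ z, (if InWin Q (Λ.image (S.sh a + ·)) z then u (S.T a z) else 0)) ≤
        1 + 2 * ∑ z, (if InWin Q (Λ.image (S.sh a + ·)) z then u (S.T a z) else 0) := by
      intro a
      have hua : ∀ z, 0 ≤ (fun z => u (S.T a z)) z := fun z => hu _
      have h2 := inWin_mass_nonneg (Q := Q) (Λ.image (S.sh a + ·)) hua
      have h3 := inWin_mass_le (Q := Q) (Λ.image (S.sh a + ·)) hua
      have h4 : ∑ z, u (S.T a z) = ∑ z, u z := Equiv.sum_comp (S.T a) u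
      exact exp_le_lin h2 (by linarith)
    have h2 : ∑ a, S.w a * Real.exp (∑ z, (if InWin Q (Λ.image (S.sh a + ·)) z then
        u (S.T a z) else 0)) ≤ ∑ a, S.w a * (1 + 2 * ∑ z,
          (if InWin Q (Λ.image (S.sh a + ·)) z then u (S.T a z) else 0)) :=
      Finset.sum_le_sum fun a _ => mul_le_mul_of_nonneg_left (h1 a) (H.w_nonneg a)
    have h3 := H.law (fun τ s => ∑ z, (if InWin Q (Λ.image (s + ·)) z then u (τ z) else 0))
    have h4 : (fun τ : Equiv.Perm V => (∑ s, ∑ z, (if InWin Q (Λ.image (s + ·)) z then u (τ z)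
        else 0)) / (Fintype.card V : ℝ)) = fun _ => dens V Q Λ * ∑ z, u z := by
      funext τ
      rw [mean_inWin hQ H.dis (fun z => u (τ z)), Equiv.sum_comp τ u]
    rw [h4, Hier.sg_const] at h3
    have h5 : ∑ a, S.w a * (1 + 2 * ∑ z, (if InWin Q (Λ.image (S.sh a + ·)) z then u (S.T a z)
        else 0)) = 1 + 2 * (dens V Q Λ * ∑ z, u z) := by
      rw [← h3, Finset.mul_sum]
      conv_rhs => rw [← H.w_sum]
      rw [← Finset.sum_add_distrib]
      exact Finset.sum_congr rfl fun a _ => by ring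
    rw [h5] at h2
    refine h2.trans ?_
    have h6 := mul_le_mul_of_nonneg_left hu1 (dens_nonneg V Q Λ)
    have h7 := Real.add_one_le_exp (2 * dens V Q Λ)
    linarith
  · have h1 : ∀ a, Real.exp (∑ z, (if InWin Q (Λ.image (S.sh a + ·)) z then u (S.T a z) else 0)) =
        1 := by
      intro a
      rw [Finset.sum_eq_zero, Real.exp_zero]
      intro z _
      rw [if_neg (not_nonempty_inWin hQ _ z)]
    simp only [h1, mul_one]
    rw [H.w_sum]
    exact Real.one_le_exp (by have := dens_nonneg V Q Λ; linarith)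

/-- The exponential moment of the mass in the windows of one slab, backward. -/
theorem one_bcnt (H : SlabLaw c h S Q Λ) {v : V → ℝ} (hv : ∀ z, 0 ≤ v z) (hv1 : ∑ z, v z ≤ 1) :
    ∑ a, S.w a * Real.exp (∑ z, (if InWin Q (Λ.image (S.sh a + ·)) z then v z else 0)) ≤
      Real.exp (2 * dens V Q Λ) := by
  by_cases hQ : Q.Nonempty
  · have h1 : ∀ a, Real.exp (∑ z, (if InWin Q (Λ.image (S.sh a + ·)) z then v z else 0)) ≤
        1 + 2 * ∑ z, (if InWin Q (Λ.image (S.sh a + ·)) z then v z else 0) := by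
      intro a
      have h2 := inWin_mass_nonneg (Q := Q) (Λ.image (S.sh a + ·)) hv
      have h3 := inWin_mass_le (Q := Q) (Λ.image (S.sh a + ·)) hv
      exact exp_le_lin h2 (by linarith)
    have h2 : ∑ a, S.w a * Real.exp (∑ z, (if InWin Q (Λ.image (S.sh a + ·)) z then
        v z else 0)) ≤ ∑ a, S.w a * (1 + 2 * ∑ z,
          (if InWin Q (Λ.image (S.sh a + ·)) z then v z else 0)) :=
      Finset.sum_le_sum fun a _ => mul_le_mul_of_nonneg_left (h1 a) (H.w_nonneg a)
    have h3 := H.law (fun _ s => ∑ z, (if InWin Q (Λ.image (s + ·)) z then v z else 0))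
    have h4 : (fun _ : Equiv.Perm V => (∑ s, ∑ z, (if InWin Q (Λ.image (s + ·)) z then v z
        else 0)) / (Fintype.card V : ℝ)) = fun _ => dens V Q Λ * ∑ z, v z := by
      funext τ
      rw [mean_inWin hQ H.dis v]
    rw [h4, Hier.sg_const] at h3
    have h5 : ∑ a, S.w a * (1 + 2 * ∑ z, (if InWin Q (Λ.image (S.sh a + ·)) z then v z
        else 0)) = 1 + 2 * (dens V Q Λ * ∑ z, v z) := by
      rw [← h3, Finset.mul_sum]
      conv_rhs => rw [← H.w_sum]
      rw [← Finset.sum_add_distrib]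
      exact Finset.sum_congr rfl fun a _ => by ring
    rw [h5] at h2
    refine h2.trans ?_
    have h6 := mul_le_mul_of_nonneg_left hv1 (dens_nonneg V Q Λ)
    have h7 := Real.add_one_le_exp (2 * dens V Q Λ)
    linarith
  · have h1 : ∀ a, Real.exp (∑ z, (if InWin Q (Λ.image (S.sh a + ·)) z then v z else 0)) = 1 := by
      intro a
      rw [Finset.sum_eq_zero, Real.exp_zero]
      intro z _
      rw [if_neg (not_nonempty_inWin hQ _ z)]
    simp only [h1, mul_one]
    rw [H.w_sum]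
    exact Real.one_le_exp (by have := dens_nonneg V Q Λ; linarith)

/-- `E exp(mass) ≤ exp(2 p k)`: `e^w ≤ 1 + (e - 1) w ≤ 1 + 2 w` on `[0,1]`. -/
theorem cnt_exp (H : SlabLaw c h S Q Λ) (k : ℕ) {u : V → ℝ} (hu : ∀ z, 0 ≤ u z)
    (hu1 : ∑ z, u z ≤ 1) :
    EL S.w k (fun l => Real.exp (cnt S Q Λ l u)) ≤ Real.exp (2 * dens V Q Λ * k) := by
  induction k generalizing u with
  | zero => simp [EL, cnt]
  | succ k ih =>
    unfold EL
    have h1 : ∀ a, EL S.w k (fun l => Real.exp (cnt S Q Λ (a :: l) u)) ≤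
        Real.exp (∑ z, (if InWin Q (Λ.image (S.sh a + ·)) z then u (S.T a z) else 0)) *
          Real.exp (2 * dens V Q Λ * k) := by
      intro a
      have h2 : (fun l => Real.exp (cnt S Q Λ (a :: l) u)) = fun l =>
          Real.exp (∑ z, (if InWin Q (Λ.image (S.sh a + ·)) z then u (S.T a z) else 0)) *
            Real.exp (cnt S Q Λ l (stp S Q a u)) := by
        funext l
        rw [← Real.exp_add]
        rfl
      rw [h2, EL_mul]
      refine mul_le_mul_of_nonneg_left (ih (fun z => stp_nonneg H.allDis a hu z) ?_)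
        (Real.exp_pos _).le
      rw [stp_sum]
      exact hu1
    have h2 : ∑ a, S.w a * EL S.w k (fun l => Real.exp (cnt S Q Λ (a :: l) u)) ≤
        ∑ a, S.w a * (Real.exp (∑ z, (if InWin Q (Λ.image (S.sh a + ·)) z then u (S.T a z)
          else 0)) * Real.exp (2 * dens V Q Λ * k)) :=
      Finset.sum_le_sum fun a _ => mul_le_mul_of_nonneg_left (h1 a) (H.w_nonneg a)
    refine h2.trans ?_
    have h3 := one_cnt H hu hu1
    have h4 : ∑ a, S.w a * (Real.exp (∑ z, (if InWin Q (Λ.image (S.sh a + ·)) z then u (S.T a z)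
        else 0)) * Real.exp (2 * dens V Q Λ * k)) = (∑ a, S.w a * Real.exp (∑ z,
          (if InWin Q (Λ.image (S.sh a + ·)) z then u (S.T a z) else 0))) *
            Real.exp (2 * dens V Q Λ * k) := by
      rw [Finset.sum_mul]
      exact Finset.sum_congr rfl fun a _ => by ring
    rw [h4]
    have h5 : Real.exp (2 * dens V Q Λ * ((k + 1 : ℕ) : ℝ)) =
        Real.exp (2 * dens V Q Λ) * Real.exp (2 * dens V Q Λ * k) := by
      rw [← Real.exp_add]
      congr 1
      push_cast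
      ring
    rw [h5]
    exact mul_le_mul_of_nonneg_right h3 (Real.exp_pos _).le

theorem bcnt_exp (H : SlabLaw c h S Q Λ) (k : ℕ) {u : V → ℝ} (hu : ∀ z, 0 ≤ u z)
    (hu1 : ∑ z, u z ≤ 1) :
    EL S.w k (fun l => Real.exp (bcnt S Q Λ l u)) ≤ Real.exp (2 * dens V Q Λ * k) := by
  induction k with
  | zero => simp [EL, bcnt]
  | succ k ih =>
    have h0 : EL S.w (k + 1) (fun l => Real.exp (bcnt S Q Λ l u)) =
        EL S.w k (fun l => ∑ a, S.w a * (Real.exp (bcnt S Q Λ l u) * Real.exp (∑ z,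
          (if InWin Q (Λ.image (S.sh a + ·)) z then bw S Q l u z else 0)))) := by
      rw [EL_sum]
      show ∑ a, S.w a * EL S.w k (fun l => Real.exp (bcnt S Q Λ (a :: l) u)) = _
      refine Finset.sum_congr rfl fun a _ => ?_
      rw [← EL_mul]
      refine congrArg _ (funext fun l => ?_)
      rw [← Real.exp_add]
      rfl
    rw [h0]
    have h1 : ∀ l : List Ω, l.length = k → ∑ a, S.w a * (Real.exp (bcnt S Q Λ l u) *
        Real.exp (∑ z, (if InWin Q (Λ.image (S.sh a + ·)) z then bw S Q l u z else 0))) ≤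
          Real.exp (2 * dens V Q Λ) * Real.exp (bcnt S Q Λ l u) := by
      intro l _
      have h2 := one_bcnt H (v := bw S Q l u) (fun z => bw_nonneg H.allDis l hu z)
        (by rw [bw_sum]; exact hu1)
      have h3 : ∑ a, S.w a * (Real.exp (bcnt S Q Λ l u) * Real.exp (∑ z,
          (if InWin Q (Λ.image (S.sh a + ·)) z then bw S Q l u z else 0))) =
          (∑ a, S.w a * Real.exp (∑ z, (if InWin Q (Λ.image (S.sh a + ·)) z then
            bw S Q l u z else 0))) * Real.exp (bcnt S Q Λ l u) := by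
        rw [Finset.sum_mul]
        exact Finset.sum_congr rfl fun a _ => by ring
      rw [h3]
      exact mul_le_mul_of_nonneg_right h2 (Real.exp_pos _).le
    refine (EL_mono H.w_nonneg k h1).trans ?_
    rw [EL_mul]
    have h5 : Real.exp (2 * dens V Q Λ * ((k + 1 : ℕ) : ℝ)) =
        Real.exp (2 * dens V Q Λ) * Real.exp (2 * dens V Q Λ * k) := by
      rw [← Real.exp_add]
      congr 1
      push_cast
      ring
    rw [h5]
    exact mul_le_mul_of_nonneg_left ih (Real.exp_pos _).le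

theorem cnt_event (H : SlabLaw c h S Q Λ) (k : ℕ) {u : V → ℝ} (hu : ∀ z, 0 ≤ u z)
    (hu1 : ∑ z, u z ≤ 1) (lam : ℝ) :
    EL S.w k (fun l => if 2 * dens V Q Λ * k + lam ≤ cnt S Q Λ l u then 1 else 0) ≤
      Real.exp (-lam) := by
  refine EL_markov H.w_nonneg k (F := fun l => Real.exp (cnt S Q Λ l u))
    (fun l => (Real.exp_pos _).le) (Real.exp_pos (2 * dens V Q Λ * k + lam)) ?_
    (P := fun l => 2 * dens V Q Λ * k + lam ≤ cnt S Q Λ l u)
    (fun l _ hl => Real.exp_le_exp.2 hl)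
  refine (cnt_exp H k hu hu1).trans (le_of_eq ?_)
  rw [← Real.exp_add]
  congr 1
  ring

theorem bcnt_event (H : SlabLaw c h S Q Λ) (k : ℕ) {u : V → ℝ} (hu : ∀ z, 0 ≤ u z)
    (hu1 : ∑ z, u z ≤ 1) (lam : ℝ) :
    EL S.w k (fun l => if 2 * dens V Q Λ * k + lam ≤ bcnt S Q Λ l u then 1 else 0) ≤
      Real.exp (-lam) := by
  refine EL_markov H.w_nonneg k (F := fun l => Real.exp (bcnt S Q Λ l u))
    (fun l => (Real.exp_pos _).le) (Real.exp_pos (2 * dens V Q Λ * k + lam)) ?_
    (P := fun l => 2 * dens V Q Λ * k + lam ≤ bcnt S Q Λ l u)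
    (fun l _ hl => Real.exp_le_exp.2 hl)
  refine (bcnt_exp H k hu hu1).trans (le_of_eq ?_)
  rw [← Real.exp_add]
  congr 1
  ring

end Pool.Agent.Stirring.QK
end
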