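import Pool.Agent.Lib.MP_6c3d62_pr.Mg.G052
import Pool.Agent.Lib.MP_6c3d62_pr.PL.Pot

section

/-! T12-T13. From permutations to networks. Sites `Q`, permutation `Θ` of `Q`, colouring
`c : Q → Option Y` (`c q = some y`: `q` is an active site of the node `y`). All inactive sites are
fixed points of `Θ` (they have been short-circuited by `rem`). A strand starts at an active site
`w` and ends at `Θ w`. -/

set_option autoImplicit false
set_option linter.unusedSectionVars false

open Finset Equiv

namespace Pool.Agent.PL

variable {Q : Type*} [Fintype Q] [DecidableEq Q]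

/-- Short-circuit the site `i`: `Θ⁻¹ i ↦ Θ i`, `i ↦ i`. -/
def rem (Θ : Perm Q) (i : Q) : Perm Q := swap i (Θ i) * Θ

theorem t12_app_inv (Θ : Perm Q) (i : Q) : Θ (Θ⁻¹ i) = i := by simp

theorem rem_self (Θ : Perm Q) (i : Q) : rem Θ i i = i := by
  simp [rem]

theorem rem_apply {Θ : Perm Q} {i w : Q} (hw : w ≠ i) :
    rem Θ i w = if Θ w = i then Θ i else Θ w := by
  unfold rem
  rw [Perm.mul_apply]
  by_cases h : Θ w = i
  · rw [h, if_pos rfl, swap_apply_left]
  · rw [if_neg h, swap_apply_of_ne_of_ne h]
    exact fun h' => hw (Θ.injective h')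

theorem rem_fixed {Θ : Perm Q} {i w : Q} (hw : Θ w = w) : rem Θ i w = w := by
  by_cases h : w = i
  · subst h; exact rem_self _ _
  · rw [rem_apply h, hw, if_neg h]

theorem rem_comm (Θ : Perm Q) (i j : Q) : rem (rem Θ i) j = rem (rem Θ j) i := by
  by_cases hij : i = j
  · subst hij; rfl
  have hji : j ≠ i := fun h => hij h.symm
  ext w
  by_cases hwi : w = i
  · subst hwi
    rw [rem_self, rem_fixed (rem_self _ _)]
  by_cases hwj : w = j
  · subst hwj
    rw [rem_self, rem_fixed (rem_self _ _)]
  rw [rem_apply hwj, rem_apply hwi, rem_apply hwi, rem_apply hwj, rem_apply hji, rem_apply hij]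
  have hinj : ∀ {u v : Q}, Θ u = Θ v → u = v := fun h => Θ.injective h
  by_cases h1 : Θ w = i
  · by_cases h2 : Θ i = j
    · by_cases h3 : Θ j = i
      · exact absurd (hinj (h1.trans h3.symm)) hwj
      · simp [h1, h2, h3, hij, hji]
    · simp [h1, h2, hij]
  · by_cases h2 : Θ w = j
    · by_cases h3 : Θ j = i
      · by_cases h4 : Θ i = j
        · exact absurd (hinj (h2.trans h4.symm)) hwi
        · simp [h1, h2, h3, h4, hij, hji]
      · simp [h1, h2, h3, hij, hji]
    · simp [h1, h2]

theorem rem_mul {Θ σ : Perm Q} {i : Q} (h : σ i = i) : rem (Θ * σ) i = rem Θ i * σ := by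
  unfold rem
  rw [Perm.mul_apply, h, mul_assoc]

theorem rem_of_fixed {Θ : Perm Q} {i : Q} (h : Θ i = i) : rem Θ i = Θ := by
  unfold rem
  rw [h, swap_self]
  rfl

theorem sameCycle_rem {Θ : Perm Q} {i u v : Q} (hu : u ≠ i) (hv : v ≠ i) :
    (rem Θ i).SameCycle u v ↔ Θ.SameCycle u v := by
  constructor
  · intro h
    obtain ⟨n, hn⟩ := h.exists_nat_pow_eq
    have key : ∀ n : ℕ, Θ.SameCycle u (((rem Θ i) ^ n) u) := by
      intro n
      induction n with
      | zero => exact Perm.SameCycle.refl _ _
      | succ n ih =>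
        rw [pow_succ', Perm.mul_apply]
        refine ih.trans ?_
        set w := ((rem Θ i) ^ n) u
        by_cases hw : w = i
        · rw [hw, rem_self]
        · rw [rem_apply hw]
          split_ifs with h1
          · refine ⟨2, ?_⟩
            rw [zpow_two, Perm.mul_apply, h1]
          · exact ⟨1, by rw [zpow_one]⟩
    rw [← hn]; exact key n
  · intro h
    obtain ⟨n, hn⟩ := h.exists_nat_pow_eq
    have key : ∀ n : ℕ, ((Θ ^ n) u ≠ i → (rem Θ i).SameCycle u ((Θ ^ n) u)) ∧
        ((Θ ^ n) u = i → Θ i ≠ i ∧ (rem Θ i).SameCycle u (Θ i)) := by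
      intro n
      induction n with
      | zero => exact ⟨fun _ => Perm.SameCycle.refl _ _, fun h0 => absurd h0 hu⟩
      | succ n ih =>
        rw [pow_succ', Perm.mul_apply]
        set w := (Θ ^ n) u
        by_cases hw : w = i
        · obtain ⟨h1, h2⟩ := ih.2 hw
          rw [hw]
          exact ⟨fun _ => h2, fun h3 => absurd h3 h1⟩
        · have h1 := ih.1 hw
          refine ⟨fun h2 => h1.trans ⟨1, ?_⟩, fun h2 => ⟨?_, h1.trans ⟨1, ?_⟩⟩⟩
          · rw [zpow_one, rem_apply hw, if_neg h2]
          · intro h3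
            exact hw (Θ.injective (h2.trans h3.symm))
          · rw [zpow_one, rem_apply hw, if_pos h2]
    rw [← hn] at hv ⊢
    exact (key n).1 hv

/-- Short-circuit all sites of `S`. -/
noncomputable def remS (Θ : Perm Q) (S : Finset Q) : Perm Q := S.toList.foldl rem Θ

theorem remS_empty (Θ : Perm Q) : remS Θ ∅ = Θ := by
  simp [remS]

theorem t12_foldl_perm {l l' : List Q} (h : l.Perm l') (Θ : Perm Q) :
    l.foldl rem Θ = l'.foldl rem Θ := by
  induction h generalizing Θ with
  | nil => rfl
  | cons a _ ih => exact ih _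
  | swap a b l => simp only [List.foldl_cons]; rw [rem_comm]
  | trans _ _ ih1 ih2 => exact (ih1 _).trans (ih2 _)

theorem remS_insert {Θ : Perm Q} {S : Finset Q} {i : Q} (hi : i ∉ S) :
    remS Θ (insert i S) = remS (rem Θ i) S := by
  unfold remS
  rw [t12_foldl_perm (Finset.toList_insert hi)]
  rfl

theorem remS_insert' {Θ : Perm Q} {S : Finset Q} {i : Q} (hi : i ∉ S) :
    remS Θ (insert i S) = rem (remS Θ S) i := by
  unfold remS
  rw [t12_foldl_perm ((Finset.toList_insert hi).trans (List.perm_append_singleton i _).symm)]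
  rw [List.foldl_append]
  rfl

theorem remS_fixed {Θ : Perm Q} {S : Finset Q} {i : Q} (hi : i ∈ S) : remS Θ S i = i := by
  induction S using Finset.induction_on generalizing i with
  | empty => simp at hi
  | insert j S hj ih =>
    rw [remS_insert' hj]
    by_cases h : i = j
    · subst h; exact rem_self _ _
    · exact rem_fixed (ih ((Finset.mem_insert.1 hi).resolve_left h))

theorem remS_union {Θ : Perm Q} {S T : Finset Q} : remS (remS Θ S) T = remS Θ (S ∪ T) := by
  induction T using Finset.induction_on with
  | empty => rw [remS_empty, Finset.union_empty]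
  | insert i T hi ih =>
    rw [remS_insert' hi, ih, Finset.union_insert]
    by_cases h : i ∈ S
    · have h1 : i ∈ S ∪ T := Finset.mem_union_left _ h
      rw [Finset.insert_eq_of_mem h1, rem_of_fixed (remS_fixed h1)]
    · have h1 : i ∉ S ∪ T := by
        rw [Finset.mem_union]; tauto
      rw [remS_insert' h1]

theorem remS_mul {Θ σ : Perm Q} {S : Finset Q} (h : ∀ i ∈ S, σ i = i) :
    remS (Θ * σ) S = remS Θ S * σ := by
  induction S using Finset.induction_on with
  | empty => rw [remS_empty, remS_empty]
  | insert i S hi ih =>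
    rw [remS_insert' hi, remS_insert' hi, ih fun j hj => h j (Finset.mem_insert_of_mem hj),
      rem_mul (h i (Finset.mem_insert_self _ _))]

theorem sameCycle_remS {Θ : Perm Q} {S : Finset Q} {u v : Q} (hu : u ∉ S) (hv : v ∉ S) :
    (remS Θ S).SameCycle u v ↔ Θ.SameCycle u v := by
  induction S using Finset.induction_on with
  | empty => rw [remS_empty]
  | insert i S hi ih =>
    rw [Finset.mem_insert, not_or] at hu hv
    rw [remS_insert' hi, sameCycle_rem hu.1 hv.1, ih hu.2 hv.2]

variable {Y : Type*} [Fintype Y] [DecidableEq Y]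

/-- The network of `Θ`: `mat Θ c y z` = number of strands from node `y` to node `z`. -/
def mat (Θ : Perm Q) (c : Q → Option Y) : Net Y := fun y z =>
  (univ.filter fun w => c w = some y ∧ c (Θ w) = some z).card

/-- Sum over the strands of a function of the two ends, after a short circuit. -/
theorem t12_sum_rem (F : Q → Q → ℤ) (g : Perm Q) (i : Q) :
    ∑ w, F w (rem g i w) = ∑ w, F w (g w) - F (g⁻¹ i) i - F i (g i) + F (g⁻¹ i) (g i) + F i i := by
  by_cases h : g i = i
  · have h' : g⁻¹ i = i := by rw [Perm.inv_eq_iff_eq, h]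
    rw [rem_of_fixed h, h', h]; ring
  · have h' : g⁻¹ i ≠ i := by
      intro h1
      rw [Perm.inv_eq_iff_eq] at h1
      exact h h1.symm
    have hd : ∀ G : Q → ℤ, ∑ w, G w = G i + (G (g⁻¹ i) + ∑ w ∈ (univ.erase i).erase (g⁻¹ i), G w) := by
      intro G
      rw [Finset.add_sum_erase _ _ (Finset.mem_erase.2 ⟨h', Finset.mem_univ _⟩ : g⁻¹ i ∈ univ.erase i),
        Finset.add_sum_erase _ _ (Finset.mem_univ i)]
    rw [hd, hd (fun w => F w (g w)), rem_self]
    have h2 : rem g i (g⁻¹ i) = g i := by
      rw [rem_apply h']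
      simp
    have h3 : g (g⁻¹ i) = i := by simp
    have h4 : ∑ w ∈ (univ.erase i).erase (g⁻¹ i), F w (rem g i w)
        = ∑ w ∈ (univ.erase i).erase (g⁻¹ i), F w (g w) := by
      refine Finset.sum_congr rfl fun w hw => ?_
      rw [Finset.mem_erase, Finset.mem_erase] at hw
      have h5 : g w ≠ i := by
        intro h6
        apply hw.1
        rw [← h6]; simp
      rw [rem_apply hw.2.1, if_neg h5]
    rw [h2, h3, h4]; ring

theorem t12_sum_swap (F : Q → Q → ℤ) (Θ : Perm Q) {i j : Q} (hF : ∀ v, F i v = F j v) :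
    ∑ w, F w ((Θ * swap i j) w) = ∑ w, F w (Θ w) := by
  by_cases hij : i = j
  · subst hij; rw [swap_self]; rfl
  have hd : ∀ G : Q → ℤ, ∑ w, G w = G i + (G j + ∑ w ∈ (univ.erase i).erase j, G w) := by
    intro G
    rw [Finset.add_sum_erase _ _ (by simp [Ne.symm hij] : j ∈ univ.erase i),
      Finset.add_sum_erase _ _ (Finset.mem_univ i)]
  rw [hd, hd (fun w => F w (Θ w))]
  have h4 : ∑ w ∈ (univ.erase i).erase j, F w ((Θ * swap i j) w)
      = ∑ w ∈ (univ.erase i).erase j, F w (Θ w) := by
    refine Finset.sum_congr rfl fun w hw => ?_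
    rw [Finset.mem_erase, Finset.mem_erase] at hw
    rw [Perm.mul_apply, swap_apply_of_ne_of_ne hw.2.1 hw.1]
  rw [h4, Perm.mul_apply, Perm.mul_apply, swap_apply_left, swap_apply_right, hF, ← hF (Θ i)]
  ring

theorem t12_mat_eq (Θ : Perm Q) (c : Q → Option Y) (y z : Y) :
    (mat Θ c y z : ℤ) = ∑ w, if c w = some y ∧ c (Θ w) = some z then 1 else 0 := by
  unfold mat
  rw [Finset.card_filter]
  push_cast
  rfl

theorem t12_step {a : Net Y} {x p q : Y} (hpx : 1 ≤ a p x) (hxq : 1 ≤ a x q) (y z : Y) :
    (step a x p q y z : ℤ)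
      = a y z - (if y = p ∧ z = x then 1 else 0) - (if y = x ∧ z = q then 1 else 0)
        + (if y = p ∧ z = q then 1 else 0) := by
  have e1 : y = p ∧ z = x → 1 ≤ a y z := by rintro ⟨rfl, rfl⟩; exact hpx
  have e2 : y = x ∧ z = q → 1 ≤ a y z := by rintro ⟨rfl, rfl⟩; exact hxq
  unfold step
  generalize a y z = n at *
  by_cases h1 : p = x
  · by_cases h2 : q = x
    · subst h1; subst h2
      by_cases h3 : y = q ∧ z = q
      · have := e1 h3
        simp only [if_pos h3, if_true, or_self]; omega
      · simp only [if_neg h3, if_true, or_self]; omega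
    · subst h1
      by_cases h3 : y = p ∧ z = p
      · have := e1 h3
        have h4 : ¬ (y = p ∧ z = q) := fun h => h2 (h.2.symm.trans h3.2)
        simp only [if_neg h4, if_pos h3, if_true, true_or]; omega
      · simp only [if_neg h3, if_true, true_or]; omega
  · by_cases h2 : q = x
    · subst h2
      by_cases h3 : y = q ∧ z = q
      · have := e2 h3
        have h4 : ¬ (y = p ∧ z = q) := fun h => h1 (h.1.symm.trans h3.1)
        simp only [if_neg h4, if_pos h3, if_true, or_true]; omega
      · simp only [if_neg h3, if_true, or_true]; omega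
    · rw [if_neg (by tauto : ¬ (p = x ∨ q = x))]
      by_cases h3 : y = p ∧ z = x
      · have := e1 h3
        have h4 : ¬ (y = x ∧ z = q) := fun h => h2 (h.2.symm.trans h3.2)
        have h5 : ¬ (y = p ∧ z = q) := fun h => h2 (h.2.symm.trans h3.2)
        simp only [if_neg h4, if_neg h5, if_pos h3]; omega
      · by_cases h4 : y = x ∧ z = q
        · have := e2 h4
          have h5 : ¬ (y = p ∧ z = q) := fun h => h1 (h.1.symm.trans h4.1)
          simp only [if_neg h3, if_neg h5, if_pos h4]; omega
        · simp only [if_neg h3, if_neg h4]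
          split_ifs <;> push_cast <;> ring
/-- Joining at `x`: the port `i` (in) is matched to the port `j` (out), then `i` is
short-circuited. -/
theorem mat_step {Θ : Perm Q} {c : Q → Option Y} {i j : Q} {x p q : Y}
    (hfix : ∀ w, c w = none → Θ w = w) (hi : c i = some x) (hj : c j = some x)
    (hp : c (Θ⁻¹ i) = some p) (hq : c (Θ j) = some q) :
    mat (rem (Θ * swap i j) i) (Function.update c i none) = step (mat Θ c) x p q := by
  funext y z
  have key : (mat (rem (Θ * swap i j) i) (Function.update c i none) y z : ℤ)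
      = mat Θ c y z - (if p = y ∧ x = z then 1 else 0) - (if x = y ∧ q = z then 1 else 0)
        + (if p = y ∧ q = z then 1 else 0) := by
    set F : Q → Q → ℤ := fun u v => if c u = some y ∧ c v = some z then 1 else 0 with hFdef
    have hF : ∀ v, F i v = F j v := by
      intro v; simp only [hFdef, hi, hj]
    have h1 := t12_sum_rem F (Θ * swap i j) i
    rw [t12_sum_swap F Θ hF] at h1
    have h2 : c ((Θ * swap i j)⁻¹ i) = some p := by
      rw [mul_inv_rev, Perm.mul_apply, swap_inv]
      by_cases h3 : Θ⁻¹ i = i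
      · rw [h3, swap_apply_left, hj, ← hp, h3, hi]
      by_cases h4 : Θ⁻¹ i = j
      · rw [h4, swap_apply_right, hi, ← hp, h4, hj]
      rw [swap_apply_of_ne_of_ne h3 h4, hp]
    have h3 : (Θ * swap i j) i = Θ j := by
      rw [Perm.mul_apply, swap_apply_left]
    have h5 : (mat (rem (Θ * swap i j) i) (Function.update c i none) y z : ℤ)
        = ∑ w, F w (rem (Θ * swap i j) i w) - F i i := by
      rw [t12_mat_eq, ← Finset.add_sum_erase _ _ (Finset.mem_univ i),
        ← Finset.add_sum_erase (univ) (fun w => F w (rem (Θ * swap i j) i w)) (Finset.mem_univ i)]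
      have h6 : ∑ w ∈ univ.erase i, (if Function.update c i none w = some y ∧
            Function.update c i none (rem (Θ * swap i j) i w) = some z then (1 : ℤ) else 0)
          = ∑ w ∈ univ.erase i, F w (rem (Θ * swap i j) i w) := by
        refine Finset.sum_congr rfl fun w hw => ?_
        have hwi : w ≠ i := (Finset.mem_erase.1 hw).1
        have h7 : rem (Θ * swap i j) i w ≠ i := by
          intro h8
          apply hwi
          apply (rem (Θ * swap i j) i).injective
          rw [h8, rem_self]
        rw [Function.update_of_ne hwi, Function.update_of_ne h7]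
      rw [h6, rem_self]
      simp
    rw [h5, h1, h3, ← t12_mat_eq]
    simp only [hFdef, h2, hi, hq, Option.some.injEq]
    ring
  have hpx : 1 ≤ mat Θ c p x := by
    unfold mat
    rw [Nat.one_le_iff_ne_zero, Finset.card_ne_zero]
    exact ⟨Θ⁻¹ i, Finset.mem_filter.2 ⟨Finset.mem_univ _, hp, by rw [t12_app_inv]; exact hi⟩⟩
  have hxq : 1 ≤ mat Θ c x q := by
    unfold mat
    rw [Nat.one_le_iff_ne_zero, Finset.card_ne_zero]
    exact ⟨j, by simp [hq, hj]⟩
  have key2 := t12_step hpx hxq y z
  have e1 : (p = y ∧ x = z) = (y = p ∧ z = x) := by simp only [eq_comm]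
  have e2 : (x = y ∧ q = z) = (y = x ∧ z = q) := by simp only [eq_comm]
  have e3 : (p = y ∧ q = z) = (y = p ∧ z = q) := by simp only [eq_comm]
  simp only [e1, e2, e3] at key
  have := key.trans key2.symm
  exact_mod_cast this

/-- All sites of the node `x` made inactive. -/
def cOff (c : Q → Option Y) (x : Y) : Q → Option Y := fun w => if c w = some x then none else c w

theorem t13_ai (Θ : Perm Q) (w : Q) : Θ (Θ⁻¹ w) = w := Θ.apply_symm_apply w

theorem t13_ia (Θ : Perm Q) (w : Q) : Θ⁻¹ (Θ w) = w := Θ.symm_apply_apply w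

theorem t13_cOff {c : Q → Option Y} {i : Q} {x : Y} (hi : c i = some x) :
    cOff (Function.update c i none) x = cOff c x := by
  funext w
  unfold cOff
  by_cases hw : w = i
  · subst hw; simp [hi]
  · simp [Function.update_of_ne hw]

theorem t13_some {Θ : Perm Q} {c : Q → Option Y} (hfix : ∀ w, c w = none → Θ w = w) {i : Q}
    {x : Y} (hi : c i = some x) : (∃ p, c (Θ⁻¹ i) = some p) ∧ ∃ q, c (Θ i) = some q := by
  constructor
  · rw [← Option.isSome_iff_exists, ← Option.ne_none_iff_isSome]
    intro h
    have h1 := hfix _ h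
    rw [t13_ai] at h1
    rw [← h1, hi] at h
    exact absurd h (by simp)
  · rw [← Option.isSome_iff_exists, ← Option.ne_none_iff_isSome]
    intro h
    have h1 := Θ.injective (hfix _ h)
    rw [h1, hi] at h
    exact absurd h (by simp)

theorem t13_in (Θ : Perm Q) (c : Q → Option Y) (x p : Y) :
    ∑ i ∈ univ.filter (fun w => c w = some x), (if c (Θ⁻¹ i) = some p then (1 : ℝ) else 0)
      = (mat Θ c p x : ℝ) := by
  rw [Finset.sum_boole]
  unfold mat
  congr 1
  refine Finset.card_bij' (fun w _ => Θ⁻¹ w) (fun w _ => Θ w) ?_ ?_ ?_ ?_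
  · intro w hw
    simp only [Finset.mem_filter, Finset.mem_univ, true_and] at hw ⊢
    rw [t13_ai]
    exact ⟨hw.2, hw.1⟩
  · intro w hw
    simp only [Finset.mem_filter, Finset.mem_univ, true_and] at hw ⊢
    rw [t13_ia]
    exact ⟨hw.2, hw.1⟩
  · intro w _; exact t13_ai _ _
  · intro w _; exact t13_ia _ _

theorem t13_out (Θ : Perm Q) (c : Q → Option Y) (x q : Y) :
    ∑ j ∈ univ.filter (fun w => c w = some x), (if c (Θ j) = some q then (1 : ℝ) else 0)
      = (mat Θ c x q : ℝ) := by
  rw [Finset.sum_boole]
  unfold mat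
  rw [Finset.filter_filter]

/-- Fix `i ∈ B`: the shuffles of `B` are `swap i j * σ'`, `j ∈ B`, `σ'` a shuffle of `B \ i`. -/
theorem t13_split (c : Q → Option Y) {i : Q} {x : Y} (hi : c i = some x) (G : Perm Q → ℝ) :
    ∑ σ ∈ (univ : Finset (Perm Q)).filter (fun σ => ∀ w, c w ≠ some x → σ w = w), G σ
      = ∑ j ∈ univ.filter (fun w => c w = some x),
          ∑ σ ∈ (univ : Finset (Perm Q)).filter
            (fun σ => ∀ w, Function.update c i none w ≠ some x → σ w = w), G (swap i j * σ) := by
  rw [← Finset.sum_product']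
  refine Finset.sum_nbij' (fun σ => (σ i, swap i (σ i) * σ)) (fun a => swap i a.1 * a.2)
    ?_ ?_ ?_ ?_ ?_
  · intro σ hσ
    simp only [Finset.mem_filter, Finset.mem_univ, true_and] at hσ
    have h1 : c (σ i) = some x := by
      by_contra h
      have h2 := σ.injective (hσ _ h)
      rw [h2] at h
      exact h hi
    simp only [Finset.mem_product, Finset.mem_filter, Finset.mem_univ, true_and]
    refine ⟨h1, fun w hw => ?_⟩
    by_cases hwi : w = i
    · subst hwi
      simp [Perm.mul_apply, swap_apply_right]
    · rw [Function.update_of_ne hwi] at hw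
      rw [Perm.mul_apply, hσ w hw]
      refine swap_apply_of_ne_of_ne hwi ?_
      rintro rfl
      exact hw h1
  · intro a ha
    simp only [Finset.mem_product, Finset.mem_filter, Finset.mem_univ, true_and] at ha ⊢
    intro w hw
    have hwi : w ≠ i := by rintro rfl; exact hw hi
    have hwj : w ≠ a.1 := by rintro rfl; exact hw ha.1
    rw [Perm.mul_apply, ha.2 w (by rw [Function.update_of_ne hwi]; exact hw)]
    exact swap_apply_of_ne_of_ne hwi hwj
  · intro σ _
    simp only
    rw [← mul_assoc, swap_mul_self, one_mul]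
  · intro a ha
    simp only [Finset.mem_product, Finset.mem_filter, Finset.mem_univ, true_and] at ha
    have h1 : a.2 i = i := ha.2 i (by simp)
    have h2 : (swap i a.1 * a.2) i = a.1 := by rw [Perm.mul_apply, h1, swap_apply_left]
    refine Prod.ext ?_ ?_
    · exact h2
    · simp only
      rw [h2, ← mul_assoc, swap_mul_self, one_mul]
  · intro σ _
    simp only
    rw [← mul_assoc, swap_mul_self, one_mul]

/-- Uniform shuffle of the `m` sites of `x`, then short-circuit them: this is the uniform matching
`fr`. (Induction on `m`: fix `i`, write the shuffle as `swap i j * σ'` with `j` uniform and `σ'`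
uniform fixing `i`; average also over `i`.) -/
theorem mean_mat {Θ : Perm Q} {c : Q → Option Y} {x : Y} {m : ℕ}
    (hfix : ∀ w, c w = none → Θ w = w)
    (hm : (univ.filter fun w => c w = some x).card = m) (F : Net Y → ℝ) :
    (∑ σ ∈ (univ : Finset (Perm Q)).filter (fun σ => ∀ w, c w ≠ some x → σ w = w),
        F (mat (remS (Θ * σ) (univ.filter fun w => c w = some x)) (cOff c x)))
      = (Nat.factorial m : ℝ) * fr x F m (mat Θ c) := by
  induction m generalizing Θ c with
  | zero =>
    have h0 : ∀ w, c w ≠ some x := by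
      intro w hw
      have : w ∈ univ.filter fun w => c w = some x := by simp [hw]
      rw [Finset.card_eq_zero.1 hm] at this
      exact absurd this (Finset.notMem_empty w)
    have h1 : (univ : Finset (Perm Q)).filter (fun σ => ∀ w, c w ≠ some x → σ w = w) = {1} := by
      ext σ
      simp only [Finset.mem_filter, Finset.mem_univ, true_and, Finset.mem_singleton]
      constructor
      · intro h
        exact Equiv.ext fun w => h w (h0 w)
      · rintro rfl w _; rfl
    have h2 : cOff c x = c := by
      funext w; unfold cOff; rw [if_neg (h0 w)]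
    rw [h1, Finset.sum_singleton, Finset.card_eq_zero.1 hm, remS_empty, mul_one, h2]
    simp [fr]
  | succ m ih =>
    set B := univ.filter fun w => c w = some x with hB
    have key : ∀ i ∈ B, (∑ σ ∈ (univ : Finset (Perm Q)).filter
        (fun σ => ∀ w, c w ≠ some x → σ w = w), F (mat (remS (Θ * σ) B) (cOff c x)))
        = ∑ j ∈ B, (Nat.factorial m : ℝ) *
          fr x F m (mat (rem (Θ * swap i j) i) (Function.update c i none)) := by
      intro i hiB
      have hi : c i = some x := by simpa [hB] using hiB
      have hB' : univ.filter (fun w => Function.update c i none w = some x) = B.erase i := by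
        ext w
        simp only [hB, Finset.mem_filter, Finset.mem_univ, true_and, Finset.mem_erase]
        by_cases hw : w = i
        · subst hw; simp
        · simp [hw]
      rw [t13_split c hi]
      refine Finset.sum_congr rfl fun j hj => ?_
      have hj' : c j = some x := by simpa [hB] using hj
      have hfix' : ∀ w, Function.update c i none w = none → rem (Θ * swap i j) i w = w := by
        intro w hw
        by_cases hwi : w = i
        · subst hwi; exact rem_self _ _
        · rw [Function.update_of_ne hwi] at hw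
          refine rem_fixed ?_
          have hwj : w ≠ j := by rintro rfl; rw [hj'] at hw; exact absurd hw (by simp)
          rw [Perm.mul_apply, swap_apply_of_ne_of_ne hwi hwj]
          exact hfix w hw
      have hcard : (univ.filter fun w => Function.update c i none w = some x).card = m := by
        rw [hB', Finset.card_erase_of_mem hiB, hm]; rfl
      rw [← ih hfix' hcard, t13_cOff hi]
      refine Finset.sum_congr rfl fun σ hσ => ?_
      simp only [Finset.mem_filter, Finset.mem_univ, true_and] at hσ
      have hσi : σ i = i := hσ i (by simp)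
      rw [hB', ← mul_assoc, ← rem_mul hσi]
      congr 2
      have := remS_insert (Θ := Θ * swap i j * σ) (S := B.erase i) (i := i)
        (Finset.notMem_erase i B)
      rw [Finset.insert_erase hiB] at this
      exact this
    have hval : ∀ i ∈ B, ∀ j ∈ B,
        fr x F m (mat (rem (Θ * swap i j) i) (Function.update c i none))
        = ∑ p, ∑ q, (if c (Θ⁻¹ i) = some p then (1 : ℝ) else 0) *
          (if c (Θ j) = some q then (1 : ℝ) else 0) * fr x F m (step (mat Θ c) x p q) := by
      intro i hiB j hjB
      have hi : c i = some x := by simpa [hB] using hiB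
      have hj : c j = some x := by simpa [hB] using hjB
      obtain ⟨p, hp⟩ := (t13_some hfix hi).1
      obtain ⟨q, hq⟩ := (t13_some hfix hj).2
      rw [mat_step hfix hi hj hp hq, Finset.sum_eq_single p, Finset.sum_eq_single q]
      · rw [if_pos hp, if_pos hq]; ring
      · intro q' _ hne
        rw [hq, if_neg (c := some q = some q')]
        · simp
        · intro h; exact hne (Option.some.inj h).symm
      · intro h; exact absurd (Finset.mem_univ q) h
      · intro p' _ hne
        refine Finset.sum_eq_zero fun q' _ => ?_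
        rw [hp, if_neg (c := some p = some p')]
        · simp
        · intro h; exact hne (Option.some.inj h).symm
      · intro h; exact absurd (Finset.mem_univ p) h
    have hsum : ∑ i ∈ B, ∑ j ∈ B,
        fr x F m (mat (rem (Θ * swap i j) i) (Function.update c i none))
        = ∑ p, ∑ q, (mat Θ c p x : ℝ) * (mat Θ c x q : ℝ) * fr x F m (step (mat Θ c) x p q) := by
      rw [Finset.sum_congr rfl fun i hi => Finset.sum_congr rfl fun j hj => hval i hi j hj]
      have e1 : ∀ i ∈ B, (∑ j ∈ B, ∑ p, ∑ q, (if c (Θ⁻¹ i) = some p then (1 : ℝ) else 0) *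
          (if c (Θ j) = some q then (1 : ℝ) else 0) * fr x F m (step (mat Θ c) x p q))
          = ∑ p, ∑ q, (if c (Θ⁻¹ i) = some p then (1 : ℝ) else 0) *
            (mat Θ c x q : ℝ) * fr x F m (step (mat Θ c) x p q) := by
        intro i _
        rw [Finset.sum_comm]
        refine Finset.sum_congr rfl fun p _ => ?_
        rw [Finset.sum_comm]
        refine Finset.sum_congr rfl fun q _ => ?_
        rw [← t13_out Θ c x q, Finset.mul_sum, Finset.sum_mul]
      rw [Finset.sum_congr rfl e1, Finset.sum_comm]
      refine Finset.sum_congr rfl fun p _ => ?_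
      rw [Finset.sum_comm]
      refine Finset.sum_congr rfl fun q _ => ?_
      rw [← t13_in Θ c x p, Finset.sum_mul, Finset.sum_mul]
    have htot : ((m + 1 : ℕ) : ℝ) * (∑ σ ∈ (univ : Finset (Perm Q)).filter
        (fun σ => ∀ w, c w ≠ some x → σ w = w), F (mat (remS (Θ * σ) B) (cOff c x)))
        = (Nat.factorial m : ℝ) * ∑ p, ∑ q, (mat Θ c p x : ℝ) * (mat Θ c x q : ℝ) *
          fr x F m (step (mat Θ c) x p q) := by
      have h1 := Finset.sum_congr rfl key
      rw [Finset.sum_const, hm, nsmul_eq_mul] at h1
      rw [h1, ← hsum, Finset.mul_sum]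
      exact Finset.sum_congr rfl fun i _ => by rw [Finset.mul_sum]
    have hm1 : ((m + 1 : ℕ) : ℝ) ≠ 0 := by positivity
    have : fr x F (m + 1) (mat Θ c) = (∑ p, ∑ q, (mat Θ c p x : ℝ) * (mat Θ c x q : ℝ) *
          fr x F m (step (mat Θ c) x p q)) / ((m + 1 : ℕ) : ℝ) ^ 2 := rfl
    rw [this, Nat.factorial_succ]
    push_cast at htot hm1 ⊢
    field_simp
    linarith [htot]

/-- If every node of `A` has `N` sites and there are no others, the network is regular. -/
theorem mat_reg {Θ : Perm Q} {c : Q → Option Y} {A : Finset Y} {N : ℕ}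
    (hfix : ∀ w, c w = none → Θ w = w)
    (hN : ∀ y ∈ A, (univ.filter fun w => c w = some y).card = N)
    (hA : ∀ w y, c w = some y → y ∈ A) : Reg (mat Θ c) A N := by
  have hne : ∀ w, c w ≠ none → c (Θ w) ≠ none := by
    intro w hw h
    have h1 := hfix _ h
    have h2 : Θ w = w := Θ.injective h1
    rw [h2] at h
    exact hw h
  have hne' : ∀ w, c (Θ w) ≠ none → c w ≠ none := by
    intro w hw h
    rw [hfix _ h] at hw
    exact hw h
  refine ⟨fun y hy => ?_, fun y hy => ?_, fun y z hyz => ?_⟩
  · unfold outd mat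
    rw [← hN y hy, ← Finset.card_biUnion]
    · congr 1
      ext w
      simp only [Finset.mem_biUnion, Finset.mem_univ, true_and, Finset.mem_filter]
      constructor
      · rintro ⟨z, h1, _⟩; exact h1
      · intro h1
        have h2 := hne w (by rw [h1]; simp)
        obtain ⟨z, hz⟩ := Option.ne_none_iff_exists'.1 h2
        exact ⟨z, h1, hz⟩
    · intro z _ z' _ hzz
      rw [Function.onFun, Finset.disjoint_left]
      intro w hw hw'
      rw [Finset.mem_filter] at hw hw'
      exact hzz (Option.some.inj (hw.2.2.symm.trans hw'.2.2))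
  · unfold ind mat
    rw [← hN y hy, ← Finset.card_biUnion]
    · have h0 : (univ.filter fun w => c w = some y)
          = ((univ.biUnion fun z => univ.filter fun w => c w = some z ∧ c (Θ w) = some y)).map
            Θ.toEmbedding := by
        ext w
        simp only [Finset.mem_map, Finset.mem_biUnion, Finset.mem_univ, true_and,
          Finset.mem_filter, Equiv.coe_toEmbedding]
        constructor
        · intro h1
          have h3 : c (Θ (Θ⁻¹ w)) = some y := by
            rw [t12_app_inv]; exact h1
          have h2 := hne' (Θ⁻¹ w) (by rw [h3]; simp)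
          obtain ⟨z, hz⟩ := Option.ne_none_iff_exists'.1 h2
          exact ⟨Θ⁻¹ w, ⟨z, hz, h3⟩, t12_app_inv _ _⟩
        · rintro ⟨v, ⟨z, _, h3⟩, rfl⟩
          exact h3
      rw [h0, Finset.card_map]
    · intro z _ z' _ hzz
      rw [Function.onFun, Finset.disjoint_left]
      intro w hw hw'
      rw [Finset.mem_filter] at hw hw'
      exact hzz (Option.some.inj (hw.2.1.symm.trans hw'.2.1))
  · unfold mat
    rw [Finset.card_eq_zero, Finset.filter_eq_empty_iff]
    rintro w _ ⟨h1, h2⟩
    rcases hyz with h | h
    · exact h (hA w y h1)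
    · exact h (hA _ z h2)

end Pool.Agent.PL
end

section

/-! G0. The network of the inverse permutation is the transposed network. -/

set_option autoImplicit false
set_option linter.unusedSectionVars false

open Finset Equiv

namespace Pool.Agent.PL

theorem rem_inv {Q : Type*} [Fintype Q] [DecidableEq Q] (Θ : Perm Q) (i : Q) :
    rem Θ⁻¹ i = (rem Θ i)⁻¹ := by
  unfold rem
  rw [mul_inv_rev, Equiv.swap_inv, Equiv.mul_swap_eq_swap_mul, Equiv.swap_comm i (Θ⁻¹ i)]
  congr 2
  simp

theorem foldl_rem_inv {Q : Type*} [Fintype Q] [DecidableEq Q] (l : List Q) (Θ : Perm Q) :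
    l.foldl rem Θ⁻¹ = (l.foldl rem Θ)⁻¹ := by
  induction l generalizing Θ with
  | nil => rfl
  | cons a l ih => rw [List.foldl_cons, List.foldl_cons, rem_inv, ih]

theorem remS_inv {Q : Type*} [Fintype Q] [DecidableEq Q] (Θ : Perm Q) (S : Finset Q) :
    remS Θ⁻¹ S = (remS Θ S)⁻¹ := foldl_rem_inv _ _

theorem mat_inv' {Q Y : Type*} [Fintype Q] [DecidableEq Q] [Fintype Y] [DecidableEq Y]
    (Θ : Perm Q) (c : Q → Option Y) (y z : Y) : mat Θ⁻¹ c y z = mat Θ c z y := by
  unfold mat
  refine Finset.card_bij' (fun q _ => Θ⁻¹ q) (fun q _ => Θ q) ?_ ?_ ?_ ?_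
  · intro q hq
    simp only [Finset.mem_filter, Finset.mem_univ, true_and] at hq ⊢
    rw [show Θ (Θ⁻¹ q) = q from Θ.apply_symm_apply q]
    exact ⟨hq.2, hq.1⟩
  · intro q hq
    simp only [Finset.mem_filter, Finset.mem_univ, true_and] at hq ⊢
    rw [show Θ⁻¹ (Θ q) = q from Θ.symm_apply_apply q]
    exact ⟨hq.2, hq.1⟩
  · intro q _
    simp
  · intro q _
    simp

theorem mat_inv {Q Y : Type} [Fintype Q] [DecidableEq Q] [Fintype Y] [DecidableEq Y]
    (Θ : Perm Q) (c : Q → Option Y) (S : Finset Q) (y z : Y) :
    mat (remS Θ⁻¹ S) c y z = mat (remS Θ S) c z y := by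
  rw [remS_inv, mat_inv']

/-- The Dirichlet form does not see the orientation. -/
theorem bil_transpose {Y : Type*} [Fintype Y] [DecidableEq Y] (a : Net Y) (f g : Y → ℝ) :
    bil (fun y z => a z y) f g = bil a f g := by
  unfold bil
  rw [Finset.sum_comm]
  refine Finset.sum_congr rfl fun y _ => Finset.sum_congr rfl fun z _ => ?_
  ring

theorem ResLe_mat_inv {Q Y : Type} [Fintype Q] [DecidableEq Q] [Fintype Y] [DecidableEq Y]
    {Θ : Perm Q} {c : Q → Option Y} {S : Finset Q} {r : ℝ} {y z : Y}
    (h : ResLe (mat (remS Θ S) c) r y z) : ResLe (mat (remS Θ⁻¹ S) c) r y z := by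
  have e : mat (remS Θ⁻¹ S) c = fun u v => mat (remS Θ S) c v u := by
    funext u v
    exact mat_inv Θ c S u v
  intro f
  have h1 := h f
  unfold en at h1 ⊢
  rw [e, bil_transpose]
  exact h1

end Pool.Agent.PL
end
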