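import Mathlib

section

/-! The semigroup of a random walk on permutations which multiplies by transpositions. -/

open Finset

set_option linter.unusedSectionVars false

namespace Pool.Agent.Stirring.Hier

variable {V : Type*} [Fintype V] [DecidableEq V]

/-- Functions on permutations. -/
abbrev Fn (V : Type*) [Fintype V] [DecidableEq V] := Equiv.Perm V → ℝ

/-- The algebra of operators. -/
abbrev Op (V : Type*) [Fintype V] [DecidableEq V] := Fn V →L[ℝ] Fn V

/-- The step operator as a linear map. -/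
noncomputable def stepLin (c : V × V → ℝ) : Fn V →ₗ[ℝ] Fn V where
  toFun f := fun σ => ∑ p : V × V, c p * f (σ * Equiv.swap p.1 p.2)
  map_add' f g := by
    funext σ
    simp only [Pi.add_apply, mul_add, Finset.sum_add_distrib]
  map_smul' r f := by
    funext σ
    simp only [Pi.smul_apply, smul_eq_mul, RingHom.id_apply, Finset.mul_sum]
    refine Finset.sum_congr rfl fun p _ => by ring

/-- The step operator. -/
noncomputable def stepT (c : V × V → ℝ) : Op V := LinearMap.toContinuousLinearMap (stepLin c)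

theorem stepT_apply (c : V × V → ℝ) (f : Fn V) (σ : Equiv.Perm V) :
    stepT c f σ = ∑ p : V × V, c p * f (σ * Equiv.swap p.1 p.2) := rfl

/-- The total rate. -/
noncomputable def tot (c : V × V → ℝ) : ℝ := ∑ p, c p

/-- The generator. -/
noncomputable def gen (c : V × V → ℝ) : Op V := stepT c - tot c • (1 : Op V)

theorem gen_apply (c : V × V → ℝ) (f : Fn V) (σ : Equiv.Perm V) :
    gen c f σ = ∑ p : V × V, c p * (f (σ * Equiv.swap p.1 p.2) - f σ) := by
  unfold gen
  have h : (stepT c - tot c • (1 : Op V)) f = stepT c f - tot c • f := rfl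
  rw [h, Pi.sub_apply, stepT_apply, Pi.smul_apply, smul_eq_mul, tot, Finset.sum_mul,
    ← Finset.sum_sub_distrib]
  exact Finset.sum_congr rfl fun p _ => by ring

/-- The semigroup. -/
noncomputable def sg (c : V × V → ℝ) (s : ℝ) : Op V := NormedSpace.exp (s • gen c)

noncomputable instance opRat : NormedAlgebra ℚ (Op V) := NormedAlgebra.restrictScalars ℚ ℝ (Op V)

theorem exp_smul_one (r : ℝ) : NormedSpace.exp (r • (1 : Op V)) = Real.exp r • (1 : Op V) := by
  have h := NormedSpace.exp_series_hasSum_exp' (𝕂 := ℝ) (r • (1 : Op V))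
  have h2 : HasSum (fun n : ℕ => ((n.factorial : ℝ))⁻¹ • (r • (1 : Op V)) ^ n)
      (Real.exp r • (1 : Op V)) := by
    have h3 : HasSum (fun n : ℕ => ((n.factorial : ℝ))⁻¹ • r ^ n) (Real.exp r) := by
      have := NormedSpace.exp_series_hasSum_exp' (𝕂 := ℝ) r
      rwa [← Real.exp_eq_exp_ℝ] at this
    have h4 := h3.smul_const (1 : Op V)
    refine h4.congr_fun ?_ |> fun h => h
    intro n
    rw [smul_pow, one_pow, smul_assoc]
  exact h.unique h2

theorem sg_eq (c : V × V → ℝ) (s : ℝ) :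
    sg c s = Real.exp (-(s * tot c)) • NormedSpace.exp (s • stepT c) := by
  have h1 : s • gen c = s • stepT c + (-(s * tot c)) • (1 : Op V) := by
    unfold gen
    module
  unfold sg
  rw [h1, NormedSpace.exp_add_of_commute (Commute.smul_right (Commute.one_right _) _),
    exp_smul_one, mul_smul_comm, mul_one]

/-- Evaluation at a function and a permutation. -/
noncomputable def ev (f : Fn V) (σ : Equiv.Perm V) : Op V →L[ℝ] ℝ :=
  (ContinuousLinearMap.proj (R := ℝ) (φ := fun _ : Equiv.Perm V => ℝ) σ).comp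
    (ContinuousLinearMap.apply ℝ (Fn V) f)

theorem ev_apply (f : Fn V) (σ : Equiv.Perm V) (A : Op V) : ev f σ A = A f σ := rfl

theorem sg_hasSum (c : V × V → ℝ) (s : ℝ) (f : Fn V) (σ : Equiv.Perm V) :
    HasSum (fun n : ℕ => Real.exp (-(s * tot c)) * (s ^ n / n.factorial * ((stepT c ^ n) f σ)))
      (sg c s f σ) := by
  have h := (NormedSpace.exp_series_hasSum_exp' (𝕂 := ℝ) (s • stepT c)).mapL (ev f σ)
  have h2 := h.mul_left (Real.exp (-(s * tot c)))
  have h3 : sg c s f σ = Real.exp (-(s * tot c)) * ev f σ (NormedSpace.exp (s • stepT c)) := by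
    rw [sg_eq]; rfl
  rw [h3]
  refine h2.congr_fun ?_ |> fun h => h
  intro n
  congr 1
  rw [smul_pow, ← smul_assoc, map_smul, ev_apply, smul_eq_mul, smul_eq_mul]
  rw [div_eq_inv_mul]

theorem stepT_pow_succ (c : V × V → ℝ) (n : ℕ) (f : Fn V) (σ : Equiv.Perm V) :
    (stepT c ^ (n + 1)) f σ =
      ∑ p : V × V, c p * (stepT c ^ n) f (σ * Equiv.swap p.1 p.2) := by
  rw [pow_succ']
  rfl

/-- The set `G` is stable under the jumps. -/
def Stab (c : V × V → ℝ) (G : Set (Equiv.Perm V)) : Prop :=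
  ∀ σ ∈ G, ∀ p : V × V, c p ≠ 0 → σ * Equiv.swap p.1 p.2 ∈ G

theorem pow_nonneg_on {c : V × V → ℝ} (hc : ∀ p, 0 ≤ c p) {G : Set (Equiv.Perm V)}
    (hG : Stab c G) {f : Fn V} (hf : ∀ σ ∈ G, 0 ≤ f σ) (n : ℕ) :
    ∀ σ ∈ G, 0 ≤ (stepT c ^ n) f σ := by
  induction n with
  | zero => intro σ hσ; simpa using hf σ hσ
  | succ n ih =>
    intro σ hσ
    rw [stepT_pow_succ]
    refine Finset.sum_nonneg fun p _ => ?_
    by_cases h : c p = 0
    · rw [h, zero_mul]
    · exact mul_nonneg (hc p) (ih _ (hG σ hσ p h))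

theorem sg_nonneg_on {c : V × V → ℝ} (hc : ∀ p, 0 ≤ c p) {G : Set (Equiv.Perm V)}
    (hG : Stab c G) {f : Fn V} (hf : ∀ σ ∈ G, 0 ≤ f σ) {s : ℝ} (hs : 0 ≤ s) :
    ∀ σ ∈ G, 0 ≤ sg c s f σ := by
  intro σ hσ
  refine (sg_hasSum c s f σ).nonneg fun n => ?_
  have := pow_nonneg_on hc hG hf n σ hσ
  positivity

theorem sg_sub (c : V × V → ℝ) (s : ℝ) (f g : Fn V) (σ : Equiv.Perm V) :
    sg c s (f - g) σ = sg c s f σ - sg c s g σ := by
  rw [map_sub]; rfl

theorem sg_add (c : V × V → ℝ) (s : ℝ) (f g : Fn V) (σ : Equiv.Perm V) :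
    sg c s (f + g) σ = sg c s f σ + sg c s g σ := by
  rw [map_add]; rfl

theorem sg_smul (c : V × V → ℝ) (s r : ℝ) (f : Fn V) (σ : Equiv.Perm V) :
    sg c s (r • f) σ = r * sg c s f σ := by
  rw [map_smul]; rfl

theorem sg_mono_on {c : V × V → ℝ} (hc : ∀ p, 0 ≤ c p) {G : Set (Equiv.Perm V)}
    (hG : Stab c G) {f g : Fn V} (hfg : ∀ σ ∈ G, f σ ≤ g σ) {s : ℝ} (hs : 0 ≤ s) :
    ∀ σ ∈ G, sg c s f σ ≤ sg c s g σ := by
  intro σ hσ
  have h := sg_nonneg_on hc hG (f := g - f) (fun τ hτ => by
    rw [Pi.sub_apply]; linarith [hfg τ hτ]) hs σ hσ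
  rw [sg_sub] at h
  linarith

theorem stab_univ (c : V × V → ℝ) : Stab c Set.univ := fun _ _ _ _ => Set.mem_univ _

theorem sg_congr_on {c : V × V → ℝ} (hc : ∀ p, 0 ≤ c p) {G : Set (Equiv.Perm V)}
    (hG : Stab c G) {f g : Fn V} (hfg : ∀ σ ∈ G, f σ = g σ) {s : ℝ} (hs : 0 ≤ s) :
    ∀ σ ∈ G, sg c s f σ = sg c s g σ := fun σ hσ =>
  le_antisymm (sg_mono_on hc hG (fun τ hτ => (hfg τ hτ).le) hs σ hσ)
    (sg_mono_on hc hG (fun τ hτ => (hfg τ hτ).ge) hs σ hσ)

theorem gen_const (c : V × V → ℝ) (r : ℝ) : gen c (fun _ => r) = 0 := by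
  funext σ
  rw [gen_apply]
  simp

theorem sg_const (c : V × V → ℝ) (s r : ℝ) (σ : Equiv.Perm V) : sg c s (fun _ => r) σ = r := by
  have h := (NormedSpace.exp_series_hasSum_exp' (𝕂 := ℝ) (s • gen c)).mapL (ev (fun _ => r) σ)
  have h2 : HasSum (fun n : ℕ => ev (fun _ => r) σ ((n.factorial : ℝ)⁻¹ • (s • gen c) ^ n)) r := by
    have h3 := hasSum_single (f := fun n : ℕ => ev (fun _ => r) σ
      ((n.factorial : ℝ)⁻¹ • (s • gen c) ^ n)) 0 (by
      intro n hn
      obtain ⟨m, rfl⟩ := Nat.exists_eq_succ_of_ne_zero hn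
      rw [map_smul, ev_apply, Nat.succ_eq_add_one, pow_succ]
      have h4 : ((s • gen c) ^ m * s • gen c) (fun _ => r) = ((s • gen c) ^ m) ((s • gen c)
        (fun _ => r)) := rfl
      have h5 : (s • gen c) (fun _ : Equiv.Perm V => r) = 0 := by
        have : (s • gen c) (fun _ : Equiv.Perm V => r) = s • (gen c (fun _ => r)) := rfl
        rw [this, gen_const, smul_zero]
      rw [h4, h5, map_zero]
      simp)
    simpa [ev_apply] using h3
  exact h.unique h2

theorem sg_hasDerivAt (c : V × V → ℝ) (f : Fn V) (σ : Equiv.Perm V) (s : ℝ) :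
    HasDerivAt (fun u => sg c u f σ) (sg c s (gen c f) σ) s := by
  have h := hasDerivAt_exp_smul_const (𝕂 := ℝ) (gen c) s
  have h2 := (ev f σ).hasFDerivAt.comp_hasDerivAt s h
  exact h2

theorem sg_zero (c : V × V → ℝ) (f : Fn V) (σ : Equiv.Perm V) : sg c 0 f σ = f σ := by
  unfold sg
  rw [zero_smul, NormedSpace.exp_zero]
  rfl

theorem sg_add_time (c : V × V → ℝ) (s u : ℝ) : sg c (s + u) = sg c s * sg c u := by
  unfold sg
  rw [add_smul, NormedSpace.exp_add_of_commute]
  exact (Commute.refl _).smul_left _ |>.smul_right _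

/-- Jensen's inequality for the square. -/
theorem sg_sq {c : V × V → ℝ} (hc : ∀ p, 0 ≤ c p) {s : ℝ} (hs : 0 ≤ s) (f : Fn V)
    (σ : Equiv.Perm V) : (sg c s f σ) ^ 2 ≤ sg c s (fun τ => f τ ^ 2) σ := by
  set m := sg c s f σ with hm
  have h := sg_nonneg_on hc (stab_univ c) (f := (fun τ => f τ ^ 2) + (-(2 * m)) • f +
    (fun _ => m ^ 2)) (fun τ _ => by
      simp only [Pi.add_apply, Pi.smul_apply, smul_eq_mul]
      nlinarith [sq_nonneg (f τ - m)]) hs σ (Set.mem_univ _)
  rw [sg_add, sg_add, sg_smul, sg_const, ← hm] at h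
  nlinarith

theorem tot_add (c c' : V × V → ℝ) : tot (c + c') = tot c + tot c' := by
  unfold tot
  simp only [Pi.add_apply, Finset.sum_add_distrib]

theorem stepT_add (c c' : V × V → ℝ) : stepT (c + c') = stepT c + stepT c' := by
  refine ContinuousLinearMap.ext fun f => ?_
  funext σ
  have h : (stepT c + stepT c') f σ = stepT c f σ + stepT c' f σ := rfl
  rw [h, stepT_apply, stepT_apply, stepT_apply, ← Finset.sum_add_distrib]
  refine Finset.sum_congr rfl fun p _ => ?_
  rw [Pi.add_apply]; ring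

theorem gen_add (c c' : V × V → ℝ) : gen (c + c') = gen c + gen c' := by
  unfold gen
  rw [stepT_add, tot_add]
  module

theorem gen_comm {c c' : V × V → ℝ} (h : Commute (stepT c) (stepT c')) :
    Commute (gen c) (gen c') := by
  unfold gen
  have h1 : Commute (stepT c) (stepT c' - tot c' • (1 : Op V)) :=
    h.sub_right ((Commute.one_right _).smul_right _)
  exact h1.sub_left ((Commute.one_left _).smul_left _)

theorem sg_add_rates {c c' : V × V → ℝ} (h : Commute (stepT c) (stepT c')) (s : ℝ) :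
    sg (c + c') s = sg c s * sg c' s := by
  unfold sg
  rw [gen_add, smul_add, NormedSpace.exp_add_of_commute]
  exact ((gen_comm h).smul_left s).smul_right s

/-- Rates which are constant on the blocks of a partition commute with rates supported on a finer
partition. -/
theorem stepT_commute {c c' : V × V → ℝ}
    (h : ∀ p : V × V, c p ≠ 0 → ∀ q : V × V,
      c' (Equiv.swap p.1 p.2 q.1, Equiv.swap p.1 p.2 q.2) = c' q) :
    Commute (stepT c) (stepT c') := by
  refine ContinuousLinearMap.ext fun f => ?_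
  funext σ
  show stepT c (stepT c' f) σ = stepT c' (stepT c f) σ
  rw [stepT_apply, stepT_apply]
  simp only [stepT_apply, Finset.mul_sum]
  rw [Finset.sum_comm (f := fun q p => c' q * (c p * f (σ * Equiv.swap q.1 q.2 *
    Equiv.swap p.1 p.2)))]
  refine Finset.sum_congr rfl fun p _ => ?_
  by_cases hp : c p = 0
  · simp [hp]
  -- change of variables q -> swap_p q
  have h1 := h p hp
  set e : V × V ≃ V × V := Equiv.prodCongr (Equiv.swap p.1 p.2) (Equiv.swap p.1 p.2) with he
  rw [← e.sum_comp (fun q => c' q * (c p * f (σ * Equiv.swap q.1 q.2 * Equiv.swap p.1 p.2)))]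
  refine Finset.sum_congr rfl fun q _ => ?_
  have h2 : c' (e q) = c' q := h1 q
  have h3 : σ * Equiv.swap p.1 p.2 * Equiv.swap q.1 q.2 =
      σ * Equiv.swap (e q).1 (e q).2 * Equiv.swap p.1 p.2 := by
    have h4 : (e q).1 = Equiv.swap p.1 p.2 q.1 := rfl
    have h5 : (e q).2 = Equiv.swap p.1 p.2 q.2 := rfl
    rw [h4, h5, mul_assoc, mul_assoc]
    congr 1
    have h6 := Equiv.swap_apply_apply (Equiv.swap p.1 p.2) q.1 q.2
    rw [h6]
    simp [mul_assoc]
  rw [h2, h3]
  ring

end Pool.Agent.Stirring.Hier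
end

section

/-! Differential inequalities for the semigroup. -/

open Finset

set_option linter.unusedSectionVars false

namespace Pool.Agent.Stirring.Hier

theorem gron_lower {u u' : ℝ → ℝ} {a b : ℝ} (hb : 0 < b)
    (hu : ∀ s, HasDerivAt u (u' s) s) (h : ∀ s, 0 ≤ s → a - b * u s ≤ u' s) {s : ℝ} (hs : 0 ≤ s) :
    a / b + Real.exp (-(b * s)) * (u 0 - a / b) ≤ u s := by
  set v : ℝ → ℝ := fun x => Real.exp (b * x) * (u x - a / b) with hv
  have hd : ∀ x, HasDerivAt v (Real.exp (b * x) * (u' x + b * u x - a)) x := by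
    intro x
    have h1 : HasDerivAt (fun y => Real.exp (b * y)) (Real.exp (b * x) * (b * 1)) x :=
      ((hasDerivAt_id x).const_mul b).exp
    have h2 := h1.mul ((hu x).sub_const (a / b))
    refine h2.congr_deriv ?_
    field_simp
    ring
  have hmono : MonotoneOn v (Set.Ici 0) := by
    refine monotoneOn_of_deriv_nonneg (convex_Ici 0) ?_ ?_ ?_
    · exact fun x _ => (hd x).continuousAt.continuousWithinAt
    · exact fun x _ => (hd x).differentiableAt.differentiableWithinAt
    · intro x hx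
      rw [interior_Ici] at hx
      rw [(hd x).deriv]
      have := h x (le_of_lt hx)
      have h3 := Real.exp_pos (b * x)
      refine mul_nonneg h3.le (by linarith)
  have h4 := hmono (Set.mem_Ici.mpr le_rfl) (Set.mem_Ici.mpr hs) hs
  simp only [hv, mul_zero, Real.exp_zero, one_mul] at h4
  have h5 : Real.exp (-(b * s)) * (Real.exp (b * s) * (u s - a / b)) = u s - a / b := by
    rw [← mul_assoc, ← Real.exp_add]; simp
  have h6 := mul_le_mul_of_nonneg_left h4 (Real.exp_pos (-(b * s))).le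
  rw [h5] at h6
  linarith

theorem gron_upper {u u' : ℝ → ℝ} {b : ℝ}
    (hu : ∀ s, HasDerivAt u (u' s) s) (h : ∀ s, 0 ≤ s → u' s ≤ b * u s) {s : ℝ} (hs : 0 ≤ s) :
    u s ≤ Real.exp (b * s) * u 0 := by
  set v : ℝ → ℝ := fun x => Real.exp (-(b * x)) * u x with hv
  have hd : ∀ x, HasDerivAt v (Real.exp (-(b * x)) * (u' x - b * u x)) x := by
    intro x
    have h1 : HasDerivAt (fun y => Real.exp (-(b * y))) (Real.exp (-(b * x)) * (-(b * 1))) x :=
      (((hasDerivAt_id x).const_mul b).neg).exp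
    have h2 := h1.mul (hu x)
    refine h2.congr_deriv ?_
    ring
  have hmono : AntitoneOn v (Set.Ici 0) := by
    refine antitoneOn_of_deriv_nonpos (convex_Ici 0) ?_ ?_ ?_
    · exact fun x _ => (hd x).continuousAt.continuousWithinAt
    · exact fun x _ => (hd x).differentiableAt.differentiableWithinAt
    · intro x hx
      rw [interior_Ici] at hx
      rw [(hd x).deriv]
      have := h x (le_of_lt hx)
      have h3 := Real.exp_pos (-(b * x))
      exact mul_nonpos_of_nonneg_of_nonpos h3.le (by linarith)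
  have h4 := hmono (Set.mem_Ici.mpr le_rfl) (Set.mem_Ici.mpr hs) hs
  simp only [hv, mul_zero, neg_zero, Real.exp_zero, one_mul] at h4
  have h5 : Real.exp (b * s) * (Real.exp (-(b * s)) * u s) = u s := by
    rw [← mul_assoc, ← Real.exp_add]; simp
  have h6 := mul_le_mul_of_nonneg_left h4 (Real.exp_pos (b * s)).le
  rw [h5] at h6
  linarith

theorem lin_upper {u u' : ℝ → ℝ} {κ : ℝ}
    (hu : ∀ s, HasDerivAt u (u' s) s) (h : ∀ s, 0 ≤ s → u' s ≤ κ) {s : ℝ} (hs : 0 ≤ s) :
    u s ≤ u 0 + κ * s := by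
  set v : ℝ → ℝ := fun x => u x - κ * x with hv
  have hd : ∀ x, HasDerivAt v (u' x - κ) x := by
    intro x
    have h1 := (hu x).sub ((hasDerivAt_id x).const_mul κ)
    exact h1.congr_deriv (by ring)
  have hmono : AntitoneOn v (Set.Ici 0) := by
    refine antitoneOn_of_deriv_nonpos (convex_Ici 0) ?_ ?_ ?_
    · exact fun x _ => (hd x).continuousAt.continuousWithinAt
    · exact fun x _ => (hd x).differentiableAt.differentiableWithinAt
    · intro x hx
      rw [interior_Ici] at hx
      rw [(hd x).deriv]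
      linarith [h x (le_of_lt hx)]
  have h4 := hmono (Set.mem_Ici.mpr le_rfl) (Set.mem_Ici.mpr hs) hs
  simp only [hv, mul_zero, sub_zero] at h4
  linarith

/-- Riccati inequality. -/
theorem riccati {w w' : ℝ → ℝ} {γ : ℝ} (hγ : 0 < γ)
    (hw : ∀ s, HasDerivAt w (w' s) s) (h : ∀ s, 0 ≤ s → 0 < w s → w' s ≤ -(γ * w s ^ 2))
    {s : ℝ} (hs : 0 < s) : w s ≤ 1 / (γ * s) := by
  by_cases hws : w s ≤ 0
  · exact hws.trans (by positivity)
  push Not at hws
  -- positivity on [0, s]
  have hpos : ∀ x ∈ Set.Icc 0 s, 0 < w x := by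
    by_contra hcon
    push Not at hcon
    obtain ⟨x, hx, hwx⟩ := hcon
    -- last zero of w before s
    set Z : Set ℝ := {y ∈ Set.Icc x s | w y ≤ 0} with hZ
    have hcont : Continuous w := continuous_iff_continuousAt.mpr fun y => (hw y).continuousAt
    have hZc : IsClosed Z := by
      have : Z = Set.Icc x s ∩ w ⁻¹' Set.Iic 0 := by
        ext y; simp [hZ]
      rw [this]
      exact isClosed_Icc.inter (isClosed_Iic.preimage hcont)
    have hZne : Z.Nonempty := ⟨x, ⟨le_rfl, hx.2⟩, hwx⟩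
    have hZb : BddAbove Z := ⟨s, fun y hy => hy.1.2⟩
    have hsup := hZc.csSup_mem hZne hZb
    set z := sSup Z with hz
    have hzs : z < s := by
      rcases lt_or_eq_of_le hsup.1.2 with h1 | h1
      · exact h1
      · rw [h1] at hsup; exact absurd hsup.2 (not_le.mpr hws)
    have hafter : ∀ y ∈ Set.Ioc z s, 0 < w y := by
      intro y hy
      by_contra hy0
      push Not at hy0
      have : y ∈ Z := ⟨⟨hsup.1.1.trans hy.1.le, hy.2⟩, hy0⟩
      exact absurd (le_csSup hZb this) (not_le.mpr hy.1)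
    have hanti : AntitoneOn w (Set.Icc z s) := by
      refine antitoneOn_of_deriv_nonpos (convex_Icc z s) ?_ ?_ ?_
      · exact fun y _ => (hw y).continuousAt.continuousWithinAt
      · exact fun y _ => (hw y).differentiableAt.differentiableWithinAt
      · intro y hy
        rw [interior_Icc] at hy
        rw [(hw y).deriv]
        have h1 := h y (hx.1.trans (hsup.1.1.trans hy.1.le)) (hafter y ⟨hy.1, hy.2.le⟩)
        have : 0 ≤ γ * w y ^ 2 := by positivity
        linarith
    have h2 := hanti (Set.left_mem_Icc.mpr hzs.le) (Set.right_mem_Icc.mpr hzs.le) hzs.le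
    linarith [hsup.2]
  set v : ℝ → ℝ := fun x => (w x)⁻¹ - γ * x with hv
  have hd : ∀ x ∈ Set.Icc 0 s, HasDerivAt v (-(w' x) / (w x) ^ 2 - γ) x := by
    intro x hx
    have h1 := ((hw x).inv (hpos x hx).ne').sub ((hasDerivAt_id x).const_mul γ)
    exact h1.congr_deriv (by ring)
  have hmono : MonotoneOn v (Set.Icc 0 s) := by
    refine monotoneOn_of_deriv_nonneg (convex_Icc 0 s) ?_ ?_ ?_
    · exact fun x hx => (hd x hx).continuousAt.continuousWithinAt
    · intro x hx
      rw [interior_Icc] at hx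
      exact (hd x ⟨hx.1.le, hx.2.le⟩).differentiableAt.differentiableWithinAt
    · intro x hx
      rw [interior_Icc] at hx
      have hx' : x ∈ Set.Icc 0 s := ⟨hx.1.le, hx.2.le⟩
      rw [(hd x hx').deriv]
      have h1 := h x hx.1.le (hpos x hx')
      have h2 := hpos x hx'
      have h3 : γ ≤ -(w' x) / (w x) ^ 2 := by
        rw [le_div_iff₀ (by positivity)]
        linarith
      linarith
  have h4 := hmono (Set.left_mem_Icc.mpr hs.le) (Set.right_mem_Icc.mpr hs.le) hs.le
  simp only [hv, mul_zero, sub_zero] at h4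
  have h5 : 0 < (w 0)⁻¹ := inv_pos.mpr (hpos 0 (Set.left_mem_Icc.mpr hs.le))
  have h6 : γ * s ≤ (w s)⁻¹ := by linarith
  rw [le_div_iff₀ (by positivity)]
  calc w s * (γ * s) ≤ w s * (w s)⁻¹ := mul_le_mul_of_nonneg_left h6 hws.le
    _ = 1 := mul_inv_cancel₀ hws.ne'

variable {V : Type*} [Fintype V] [DecidableEq V]

theorem sg_lower {c : V × V → ℝ} (hc : ∀ p, 0 ≤ c p) {G : Set (Equiv.Perm V)} (hG : Stab c G)
    {ψ : Fn V} {a b : ℝ} (hb : 0 < b) (h : ∀ σ ∈ G, a - b * ψ σ ≤ gen c ψ σ) {s : ℝ} (hs : 0 ≤ s)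
    {σ : Equiv.Perm V} (hσ : σ ∈ G) :
    a / b + Real.exp (-(b * s)) * (ψ σ - a / b) ≤ sg c s ψ σ := by
  have h1 := gron_lower (u := fun u => sg c u ψ σ) (u' := fun u => sg c u (gen c ψ) σ) (a := a)
    hb (sg_hasDerivAt c ψ σ) (by
      intro x hx
      have h2 := sg_mono_on hc hG (f := (fun _ => a) - b • ψ) (g := gen c ψ) (by
        intro τ hτ
        rw [Pi.sub_apply, Pi.smul_apply, smul_eq_mul]
        exact h τ hτ) hx σ hσ
      rw [sg_sub, sg_const, sg_smul] at h2
      exact h2) hs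
  simp only [sg_zero] at h1
  exact h1

theorem sg_exp_upper {c : V × V → ℝ} (hc : ∀ p, 0 ≤ c p) {G : Set (Equiv.Perm V)}
    (hG : Stab c G) {φ : Fn V} {b : ℝ} (h : ∀ σ ∈ G, gen c φ σ ≤ b * φ σ) {s : ℝ} (hs : 0 ≤ s)
    {σ : Equiv.Perm V} (hσ : σ ∈ G) : sg c s φ σ ≤ Real.exp (b * s) * φ σ := by
  have h1 := gron_upper (u := fun u => sg c u φ σ) (u' := fun u => sg c u (gen c φ) σ) (b := b)
    (sg_hasDerivAt c φ σ) (by
      intro x hx
      have h2 := sg_mono_on hc hG (f := gen c φ) (g := b • φ) (by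
        intro τ hτ
        rw [Pi.smul_apply, smul_eq_mul]
        exact h τ hτ) hx σ hσ
      rw [sg_smul] at h2
      exact h2) hs
  simp only [sg_zero] at h1
  exact h1

theorem sg_lin_upper {c : V × V → ℝ} (hc : ∀ p, 0 ≤ c p) {G : Set (Equiv.Perm V)}
    (hG : Stab c G) {φ : Fn V} {κ : ℝ} (h : ∀ σ ∈ G, gen c φ σ ≤ κ) {s : ℝ} (hs : 0 ≤ s)
    {σ : Equiv.Perm V} (hσ : σ ∈ G) : sg c s φ σ ≤ φ σ + κ * s := by
  have h1 := lin_upper (u := fun u => sg c u φ σ) (u' := fun u => sg c u (gen c φ) σ) (κ := κ)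
    (sg_hasDerivAt c φ σ) (by
      intro x hx
      have h2 := sg_mono_on hc hG (f := gen c φ) (g := fun _ => κ) h hx σ hσ
      rw [sg_const] at h2
      exact h2) hs
  simp only [sg_zero] at h1
  exact h1

/-- The one-level bound: if `X` decreases at rate `γ (X - Y)²` up to an error `κ`, then after time
`s` it is at most `Y + κ s + 1 / (γ s)`. -/
theorem sg_riccati {c : V × V → ℝ} (hc : ∀ p, 0 ≤ c p) {G : Set (Equiv.Perm V)}
    (hG : Stab c G) {X Y : Fn V} {κ γ : ℝ} (hγ : 0 < γ)
    (hX : ∀ σ ∈ G, gen c X σ ≤ κ - γ * (X σ - Y σ) ^ 2)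
    (hY : ∀ σ ∈ G, gen c Y σ ≤ κ) {s : ℝ} (hs : 0 < s)
    {σ : Equiv.Perm V} (hσ : σ ∈ G) : sg c s X σ ≤ Y σ + κ * s + 1 / (γ * s) := by
  set w : ℝ → ℝ := fun u => sg c u X σ - Y σ - κ * u with hw
  have hd : ∀ u, HasDerivAt w (sg c u (gen c X) σ - κ) u := by
    intro u
    have h1 := ((sg_hasDerivAt c X σ u).sub_const (Y σ)).sub ((hasDerivAt_id u).const_mul κ)
    exact h1.congr_deriv (by ring)
  have h := riccati hγ hd (by
    intro u hu hwu
    have h2 := sg_mono_on hc hG (f := gen c X) (g := (fun _ => κ) - γ • (fun τ => (X τ - Y τ) ^ 2))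
      (by
        intro τ hτ
        rw [Pi.sub_apply, Pi.smul_apply, smul_eq_mul]
        exact hX τ hτ) hu σ hσ
    rw [sg_sub, sg_const, sg_smul] at h2
    have h3 := sg_sq hc hu (X - Y) σ
    rw [sg_sub] at h3
    have h4 := sg_lin_upper hc hG hY hu hσ
    have h5 : w u ≤ sg c u X σ - sg c u Y σ := by
      simp only [hw]; linarith
    have h6 : (fun τ => (X - Y) τ ^ 2) = fun τ => (X τ - Y τ) ^ 2 := rfl
    rw [h6] at h3
    have h7 : w u ^ 2 ≤ sg c u (fun τ => (X τ - Y τ) ^ 2) σ :=
      le_trans (pow_le_pow_left₀ hwu.le h5 2) h3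
    have h8 := mul_le_mul_of_nonneg_left h7 hγ.le
    linarith) hs
  simp only [hw] at h
  linarith

end Pool.Agent.Stirring.Hier
end

section

/-! Time dependent functions and the semigroup. -/

open Finset

set_option linter.unusedSectionVars false

namespace Pool.Agent.Stirring.Hier

/-- A linear upper bound on an interval. -/
theorem lin_upper_Icc {u u' : ℝ → ℝ} {κ T : ℝ} (hT : 0 ≤ T)
    (hu : ∀ s ∈ Set.Icc 0 T, HasDerivAt u (u' s) s) (h : ∀ s ∈ Set.Icc 0 T, u' s ≤ κ) :
    u T ≤ u 0 + κ * T := by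
  set v : ℝ → ℝ := fun x => u x - κ * x with hv
  have hd : ∀ x ∈ Set.Icc 0 T, HasDerivAt v (u' x - κ) x := by
    intro x hx
    have h1 := (hu x hx).sub ((hasDerivAt_id x).const_mul κ)
    exact h1.congr_deriv (by ring)
  have hmono : AntitoneOn v (Set.Icc 0 T) := by
    refine antitoneOn_of_deriv_nonpos (convex_Icc 0 T) ?_ ?_ ?_
    · exact fun x hx => (hd x hx).continuousAt.continuousWithinAt
    · intro x hx
      rw [interior_Icc] at hx
      exact (hd x ⟨hx.1.le, hx.2.le⟩).differentiableAt.differentiableWithinAt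
    · intro x hx
      rw [interior_Icc] at hx
      have hx' : x ∈ Set.Icc 0 T := ⟨hx.1.le, hx.2.le⟩
      rw [(hd x hx').deriv]
      linarith [h x hx']
  have h4 := hmono (Set.left_mem_Icc.mpr hT) (Set.right_mem_Icc.mpr hT) hT
  simp only [hv, mul_zero, sub_zero] at h4
  linarith

/-- A Gronwall inequality on an interval. -/
theorem gron_upper_Icc {u u' : ℝ → ℝ} {b κ T : ℝ} (hb : 0 ≤ b) (hκ : 0 ≤ κ) (hT : 0 ≤ T)
    (hu : ∀ s ∈ Set.Icc 0 T, HasDerivAt u (u' s) s)
    (h : ∀ s ∈ Set.Icc 0 T, u' s ≤ b * u s + κ) :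
    u T ≤ Real.exp (b * T) * (u 0 + κ * T) := by
  set v : ℝ → ℝ := fun x => Real.exp (-(b * x)) * u x with hv
  have hd : ∀ x ∈ Set.Icc 0 T, HasDerivAt v (Real.exp (-(b * x)) * (u' x - b * u x)) x := by
    intro x hx
    have h1 : HasDerivAt (fun y => Real.exp (-(b * y))) (Real.exp (-(b * x)) * (-(b * 1))) x :=
      (((hasDerivAt_id x).const_mul b).neg).exp
    have h2 := h1.mul (hu x hx)
    refine h2.congr_deriv ?_
    ring
  have h3 := lin_upper_Icc (κ := κ) hT hd (by
    intro s hs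
    have h1 := h s hs
    have h2 : Real.exp (-(b * s)) ≤ 1 := by
      rw [Real.exp_le_one_iff]
      have := mul_nonneg hb hs.1
      linarith
    have h3 := Real.exp_pos (-(b * s))
    calc Real.exp (-(b * s)) * (u' s - b * u s) ≤ Real.exp (-(b * s)) * κ :=
          mul_le_mul_of_nonneg_left (by linarith) h3.le
      _ ≤ 1 * κ := mul_le_mul_of_nonneg_right h2 hκ
      _ = κ := one_mul κ)
  simp only [hv, mul_zero, neg_zero, Real.exp_zero, one_mul] at h3
  have h5 : Real.exp (b * T) * (Real.exp (-(b * T)) * u T) = u T := by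
    rw [← mul_assoc, ← Real.exp_add]; simp
  have h6 := mul_le_mul_of_nonneg_left h3 (Real.exp_pos (b * T)).le
  rw [h5] at h6
  exact h6

variable {V : Type*} [Fintype V] [DecidableEq V]

/-- The derivative of the expectation of a time dependent function. -/
theorem sg_move_hasDerivAt (c : V × V → ℝ) {F F' : ℝ → Fn V} {s : ℝ}
    (hF : ∀ τ, HasDerivAt (fun u => F u τ) (F' s τ) s) (σ : Equiv.Perm V) :
    HasDerivAt (fun u => sg c u (F u) σ) (sg c s (fun τ => gen c (F s) τ + F' s τ) σ) s := by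
  have h1 : HasDerivAt (fun u => sg c u) (sg c s * gen c) s := hasDerivAt_exp_smul_const
    (𝕂 := ℝ) (gen c) s
  have h2 : HasDerivAt F (F' s) s := hasDerivAt_pi.mpr hF
  have h3 := h1.clm_apply h2
  have h4 := (hasDerivAt_pi.mp h3) σ
  refine h4.congr_deriv ?_
  have h5 : (fun τ => gen c (F s) τ + F' s τ) = gen c (F s) + F' s := rfl
  rw [h5, sg_add]
  rfl

/-- Linear upper bound for a time dependent function. -/
theorem move_lin {c : V × V → ℝ} (hc : ∀ p, 0 ≤ c p) {G : Set (Equiv.Perm V)} (hG : Stab c G)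
    {F F' : ℝ → Fn V} {κ T : ℝ} (hT : 0 ≤ T)
    (hF : ∀ s ∈ Set.Icc 0 T, ∀ τ, HasDerivAt (fun u => F u τ) (F' s τ) s)
    (h : ∀ s ∈ Set.Icc 0 T, ∀ τ ∈ G, gen c (F s) τ + F' s τ ≤ κ)
    {σ : Equiv.Perm V} (hσ : σ ∈ G) : sg c T (F T) σ ≤ F 0 σ + κ * T := by
  have h1 := lin_upper_Icc (κ := κ) hT (fun s hs => sg_move_hasDerivAt c (hF s hs) σ) (by
    intro s hs
    have h2 := sg_mono_on hc hG (h s hs) hs.1 σ hσ
    rwa [sg_const] at h2)
  simp only [sg_zero] at h1
  exact h1

/-- Gronwall bound for a time dependent function. -/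
theorem move_gron {c : V × V → ℝ} (hc : ∀ p, 0 ≤ c p) {G : Set (Equiv.Perm V)} (hG : Stab c G)
    {F F' : ℝ → Fn V} {b κ T : ℝ} (hb : 0 ≤ b) (hκ : 0 ≤ κ) (hT : 0 ≤ T)
    (hF : ∀ s ∈ Set.Icc 0 T, ∀ τ, HasDerivAt (fun u => F u τ) (F' s τ) s)
    (h : ∀ s ∈ Set.Icc 0 T, ∀ τ ∈ G, gen c (F s) τ + F' s τ ≤ b * F s τ + κ)
    {σ : Equiv.Perm V} (hσ : σ ∈ G) :
    sg c T (F T) σ ≤ Real.exp (b * T) * (F 0 σ + κ * T) := by
  have h1 := gron_upper_Icc hb hκ hT (fun s hs => sg_move_hasDerivAt c (hF s hs) σ) (by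
    intro s hs
    have h2 := sg_mono_on hc hG (h s hs) hs.1 σ hσ
    have h3 : (fun τ => b * F s τ + κ) = b • (F s) + (fun _ => κ) := rfl
    rw [h3, sg_add, sg_smul, sg_const] at h2
    exact h2)
  simp only [sg_zero] at h1
  exact h1

end Pool.Agent.Stirring.Hier
end

section

/-! Poissonized words: sums over words in a finite alphabet with exponential weights. -/

open Finset

namespace Pool.Agent.Stirring

section Words

variable {α : Type*} [Fintype α]

/-- Sum over all words of length `n` of the product of the letter weights times `F`. -/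
noncomputable def wordSum (c : α → ℝ) (F : List α → ℝ) (n : ℕ) : ℝ :=
  ∑ w : Fin n → α, (∏ i, c (w i)) * F (List.ofFn w)

/-- The exponential generating functional of words. -/
noncomputable def Z (c : α → ℝ) (F : List α → ℝ) : ℝ :=
  ∑' n : ℕ, wordSum c F n / (n.factorial : ℝ)

theorem wordSum_zero (c : α → ℝ) (F : List α → ℝ) : wordSum c F 0 = F [] := by
  simp [wordSum]

theorem wordSum_succ (c : α → ℝ) (F : List α → ℝ) (n : ℕ) :
    wordSum c F (n + 1) = ∑ a, c a * wordSum c (fun l => F (a :: l)) n := by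
  unfold wordSum
  rw [← (Fin.consEquiv (fun _ : Fin (n + 1) => α)).sum_comp, Fintype.sum_prod_type]
  refine Finset.sum_congr rfl fun a _ => ?_
  rw [Finset.mul_sum]
  refine Finset.sum_congr rfl fun w _ => ?_
  simp [Fin.consEquiv, Fin.prod_univ_succ, List.ofFn_succ, mul_assoc]

theorem wordSum_add (c : α → ℝ) (F G : List α → ℝ) (n : ℕ) :
    wordSum c (fun l => F l + G l) n = wordSum c F n + wordSum c G n := by
  simp [wordSum, mul_add, Finset.sum_add_distrib]

theorem wordSum_smul (c : α → ℝ) (r : ℝ) (F : List α → ℝ) (n : ℕ) :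
    wordSum c (fun l => r * F l) n = r * wordSum c F n := by
  simp only [wordSum, Finset.mul_sum]
  refine Finset.sum_congr rfl fun w _ => by ring

theorem wordSum_sum {ι : Type*} (s : Finset ι) (c : α → ℝ) (F : ι → List α → ℝ) (n : ℕ) :
    wordSum c (fun l => ∑ i ∈ s, F i l) n = ∑ i ∈ s, wordSum c (F i) n := by
  simp only [wordSum, Finset.mul_sum]
  rw [Finset.sum_comm]

theorem wordSum_const (c : α → ℝ) (r : ℝ) (n : ℕ) :
    wordSum c (fun _ => r) n = r * (∑ a, c a) ^ n := by
  induction n with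
  | zero => simp [wordSum_zero]
  | succ n ih =>
    rw [wordSum_succ]
    simp only [ih]
    rw [← Finset.sum_mul, pow_succ]; ring

theorem wordSum_mono {c : α → ℝ} (hc : ∀ a, 0 ≤ c a) {F G : List α → ℝ} (h : ∀ l, F l ≤ G l)
    (n : ℕ) : wordSum c F n ≤ wordSum c G n := by
  unfold wordSum
  refine Finset.sum_le_sum fun w _ => ?_
  exact mul_le_mul_of_nonneg_left (h _) (Finset.prod_nonneg fun i _ => hc _)

theorem abs_wordSum_le (c : α → ℝ) (F : List α → ℝ) {C R : ℝ}
    (h : ∀ l, |F l| ≤ C * R ^ l.length) (n : ℕ) :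
    |wordSum c F n| ≤ C * (R * ∑ a, |c a|) ^ n := by
  calc |wordSum c F n| ≤ ∑ w : Fin n → α, |(∏ i, c (w i)) * F (List.ofFn w)| :=
        Finset.abs_sum_le_sum_abs _ _
    _ ≤ ∑ w : Fin n → α, (∏ i, |c (w i)|) * (C * R ^ n) := by
        refine Finset.sum_le_sum fun w _ => ?_
        rw [abs_mul, Finset.abs_prod]
        refine mul_le_mul_of_nonneg_left ?_ (Finset.prod_nonneg fun i _ => abs_nonneg _)
        simpa using h (List.ofFn w)
    _ = wordSum (fun a => |c a|) (fun _ => C * R ^ n) n := rfl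
    _ = C * (R * ∑ a, |c a|) ^ n := by
        rw [wordSum_const, mul_pow]; ring

theorem summable_of_growth (c : α → ℝ) (F : List α → ℝ) {C R : ℝ}
    (h : ∀ l, |F l| ≤ C * R ^ l.length) :
    Summable fun n : ℕ => wordSum c F n / (n.factorial : ℝ) := by
  refine Summable.of_norm_bounded
    (g := fun n : ℕ => C * ((R * ∑ a, |c a|) ^ n / (n.factorial : ℝ))) ?_ fun n => ?_
  · exact (Real.summable_pow_div_factorial _).mul_left C
  · rw [Real.norm_eq_abs, abs_div, Nat.abs_cast, ← mul_div_assoc]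
    exact div_le_div_of_nonneg_right (abs_wordSum_le c F h n) (by positivity)

theorem summable_of_bounded (c : α → ℝ) (F : List α → ℝ) {C : ℝ} (h : ∀ l, |F l| ≤ C) :
    Summable fun n : ℕ => wordSum c F n / (n.factorial : ℝ) :=
  summable_of_growth c F (C := C) (R := 1) (by simpa using h)

theorem summable_norm_of_bounded (c : α → ℝ) (F : List α → ℝ) {C : ℝ} (h : ∀ l, |F l| ≤ C) :
    Summable fun n : ℕ => ‖wordSum c F n / (n.factorial : ℝ)‖ :=
  (summable_of_bounded c F h).norm

theorem Z_const (c : α → ℝ) (r : ℝ) : Z c (fun _ => r) = r * Real.exp (∑ a, c a) := by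
  unfold Z
  simp only [wordSum_const, mul_div_assoc]
  rw [tsum_mul_left, Real.exp_eq_exp_ℝ, NormedSpace.exp_eq_tsum_div]

theorem Z_add (c : α → ℝ) {F G : List α → ℝ} {C C' : ℝ} (hF : ∀ l, |F l| ≤ C)
    (hG : ∀ l, |G l| ≤ C') : Z c (fun l => F l + G l) = Z c F + Z c G := by
  unfold Z
  rw [← (summable_of_bounded c F hF).tsum_add (summable_of_bounded c G hG)]
  exact tsum_congr fun n => by rw [wordSum_add, add_div]

theorem Z_smul (c : α → ℝ) (r : ℝ) (F : List α → ℝ) :
    Z c (fun l => r * F l) = r * Z c F := by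
  unfold Z
  rw [← tsum_mul_left]
  exact tsum_congr fun n => by rw [wordSum_smul, mul_div_assoc]

theorem Z_sum {ι : Type*} (s : Finset ι) (c : α → ℝ) {F : ι → List α → ℝ} {C : ι → ℝ}
    (hF : ∀ i ∈ s, ∀ l, |F i l| ≤ C i) :
    Z c (fun l => ∑ i ∈ s, F i l) = ∑ i ∈ s, Z c (F i) := by
  unfold Z
  rw [← Summable.tsum_finsetSum fun i hi => summable_of_bounded c (F i) (hF i hi)]
  exact tsum_congr fun n => by rw [wordSum_sum, Finset.sum_div]

theorem Z_mono {c : α → ℝ} (hc : ∀ a, 0 ≤ c a) {F G : List α → ℝ} {C C' : ℝ}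
    (hF : ∀ l, |F l| ≤ C) (hG : ∀ l, |G l| ≤ C') (h : ∀ l, F l ≤ G l) : Z c F ≤ Z c G := by
  unfold Z
  refine Summable.tsum_le_tsum (fun n => ?_) (summable_of_bounded c F hF)
    (summable_of_bounded c G hG)
  exact div_le_div_of_nonneg_right (wordSum_mono hc h n) (by positivity)

end Words

section Product

variable {α : Type*} [Fintype α]

/-- The weights restricted to the letters satisfying `p`. -/
noncomputable def restr (c : α → ℝ) (p : α → Bool) : α → ℝ := fun a => if p a then c a else 0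

theorem wordSum_prod (c : α → ℝ) (p : α → Bool) (F G : List α → ℝ) (n : ℕ) :
    wordSum c (fun l => F (l.filter p) * G (l.filter fun a => !p a)) n =
      ∑ k ∈ Finset.range (n + 1), (n.choose k : ℝ) *
        (wordSum (restr c p) F k * wordSum (restr c fun a => !p a) G (n - k)) := by
  induction n generalizing F G with
  | zero => simp [wordSum_zero]
  | succ n ih =>
    rw [wordSum_succ]
    have h1 : ∀ a, c a * wordSum c (fun l => F ((a :: l).filter p) *
        G ((a :: l).filter fun a => !p a)) n =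
        (restr c p a * wordSum c (fun l => (fun l => F (a :: l)) (l.filter p) *
          G (l.filter fun a => !p a)) n) +
        (restr c (fun a => !p a) a * wordSum c (fun l => F (l.filter p) *
          (fun l => G (a :: l)) (l.filter fun a => !p a)) n) := by
      intro a
      by_cases h : p a = true
      · simp [restr, h]
      · simp [restr, h]
    simp only [h1, Finset.sum_add_distrib]
    rw [Finset.sum_congr rfl fun a (_ : a ∈ Finset.univ) =>
        congrArg (fun z => restr c p a * z) (ih (fun l => F (a :: l)) G),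
      Finset.sum_congr rfl fun a (_ : a ∈ Finset.univ) =>
        congrArg (fun z => restr c (fun a => !p a) a * z) (ih F (fun l => G (a :: l)))]
    have e1 : ∑ a, restr c p a * ∑ k ∈ Finset.range (n + 1), (n.choose k : ℝ) *
        (wordSum (restr c p) (fun l => F (a :: l)) k * wordSum (restr c fun a => !p a) G (n - k))
        = ∑ k ∈ Finset.range (n + 1), (n.choose k : ℝ) *
          (wordSum (restr c p) F (k + 1) * wordSum (restr c fun a => !p a) G (n - k)) := by
      simp only [Finset.mul_sum, wordSum_succ (restr c p) F, Finset.sum_mul]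
      rw [Finset.sum_comm]
      refine Finset.sum_congr rfl fun k _ => Finset.sum_congr rfl fun a _ => by ring
    have e2 : ∑ a, restr c (fun a => !p a) a * ∑ k ∈ Finset.range (n + 1), (n.choose k : ℝ) *
        (wordSum (restr c p) F k * wordSum (restr c fun a => !p a) (fun l => G (a :: l)) (n - k))
        = ∑ k ∈ Finset.range (n + 1), (n.choose k : ℝ) *
          (wordSum (restr c p) F k * wordSum (restr c fun a => !p a) G (n - k + 1)) := by
      simp only [Finset.mul_sum, wordSum_succ (restr c fun a => !p a) G]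
      rw [Finset.sum_comm]
      refine Finset.sum_congr rfl fun k _ => Finset.sum_congr rfl fun a _ => by ring
    rw [e1, e2]
    set A : ℕ → ℝ := wordSum (restr c p) F with hA
    set B : ℕ → ℝ := wordSum (restr c fun a => !p a) G with hB
    -- Pascal
    rw [Finset.sum_range_succ' (fun k => ((n + 1).choose k : ℝ) * (A k * B (n + 1 - k)))]
    simp only [Nat.choose_succ_succ, Nat.cast_add, add_mul, Finset.sum_add_distrib,
      Nat.choose_zero_right, Nat.cast_one, one_mul, Nat.sub_zero, Nat.add_sub_add_right]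
    rw [Finset.sum_range_succ' (fun k => ((n.choose k : ℕ) : ℝ) * (A k * B (n - k + 1)))]
    rw [Finset.sum_range_succ (fun k => ((n.choose (k + 1) : ℕ) : ℝ) * (A (k + 1) * B (n - k)))]
    have h2 : ∀ k ∈ Finset.range n, ((n.choose (k + 1) : ℕ) : ℝ) * (A (k + 1) * B (n - (k + 1) + 1))
        = ((n.choose (k + 1) : ℕ) : ℝ) * (A (k + 1) * B (n - k)) := by
      intro k hk
      have : n - (k + 1) + 1 = n - k := by have := Finset.mem_range.mp hk; omega
      rw [this]
    rw [Finset.sum_congr rfl h2]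
    simp
    ring

theorem Z_prod (c : α → ℝ) (p : α → Bool) {F G : List α → ℝ} {C C' : ℝ} (hF : ∀ l, |F l| ≤ C)
    (hG : ∀ l, |G l| ≤ C') :
    Z c (fun l => F (l.filter p) * G (l.filter fun a => !p a)) =
      Z (restr c p) F * Z (restr c fun a => !p a) G := by
  unfold Z
  rw [tsum_mul_tsum_eq_tsum_sum_range_of_summable_norm (summable_norm_of_bounded _ F hF)
    (summable_norm_of_bounded _ G hG)]
  refine tsum_congr fun n => ?_
  rw [wordSum_prod, Finset.sum_div]
  refine Finset.sum_congr rfl fun k hk => ?_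
  have hk' : k ≤ n := Nat.lt_succ_iff.mp (Finset.mem_range.mp hk)
  have h1 : ((n.choose k : ℕ) : ℝ) = (n.factorial : ℝ) / (k.factorial * (n - k).factorial) := by
    rw [Nat.cast_choose ℝ hk']
  rw [h1]
  have h2 : (n.factorial : ℝ) ≠ 0 := by positivity
  have h3 : (k.factorial : ℝ) ≠ 0 := by positivity
  have h4 : ((n - k).factorial : ℝ) ≠ 0 := by positivity
  field_simp

/-- Only words in the support of the weights matter. -/
theorem wordSum_congr (c : α → ℝ) {F G : List α → ℝ} (h : ∀ l, (∀ a ∈ l, c a ≠ 0) → F l = G l)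
    (n : ℕ) : wordSum c F n = wordSum c G n := by
  unfold wordSum
  refine Finset.sum_congr rfl fun w _ => ?_
  by_cases hw : ∀ i, c (w i) ≠ 0
  · rw [h]
    intro a ha
    obtain ⟨i, rfl⟩ := (List.mem_ofFn' _ _).mp ha
    exact hw i
  · push Not at hw
    obtain ⟨i, hi⟩ := hw
    have : ∏ i, c (w i) = 0 := Finset.prod_eq_zero (Finset.mem_univ i) hi
    rw [this]; simp

theorem Z_congr (c : α → ℝ) {F G : List α → ℝ} (h : ∀ l, (∀ a ∈ l, c a ≠ 0) → F l = G l) :
    Z c F = Z c G := by
  unfold Z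
  exact tsum_congr fun n => by rw [wordSum_congr c h]

end Product

end Pool.Agent.Stirring
end

section

/-! Expectations for the random walk on a finite group driven by Poisson clocks. -/

open Finset

set_option linter.unusedSectionVars false
set_option linter.style.haveILetI false

namespace Pool.Agent.Stirring

section Basic

variable {α : Type*} [Fintype α] {G : Type*} [Group G] [Fintype G] [DecidableEq G]

/-- Expectation of `f` of the product of a Poissonized word. -/
noncomputable def E (c : α → ℝ) (g : α → G) (f : G → ℝ) : ℝ :=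
  Real.exp (-∑ a, c a) * Z c (fun l => f (l.map g).prod)

/-- The law. -/
noncomputable def law (c : α → ℝ) (g : α → G) (σ : G) : ℝ :=
  E c g (fun τ => if τ = σ then 1 else 0)

theorem bound_fin (f : G → ℝ) (x : G) : |f x| ≤ ∑ y, |f y| :=
  Finset.single_le_sum (f := fun y => |f y|) (fun _ _ => abs_nonneg _) (Finset.mem_univ x)

theorem E_const (c : α → ℝ) (g : α → G) (r : ℝ) : E c g (fun _ => r) = r := by
  unfold E
  rw [Z_const, Real.exp_neg]
  have := (Real.exp_pos (∑ a, c a)).ne'
  field_simp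

theorem E_smul (c : α → ℝ) (g : α → G) (r : ℝ) (f : G → ℝ) :
    E c g (fun σ => r * f σ) = r * E c g f := by
  unfold E
  rw [Z_smul c r (fun l => f (l.map g).prod)]; ring

theorem E_add (c : α → ℝ) (g : α → G) (f h : G → ℝ) :
    E c g (fun σ => f σ + h σ) = E c g f + E c g h := by
  unfold E
  rw [Z_add c (F := fun l => f (l.map g).prod) (G := fun l => h (l.map g).prod)
    (fun l => bound_fin f _) (fun l => bound_fin h _)]
  ring

theorem E_sum {ι : Type*} (s : Finset ι) (c : α → ℝ) (g : α → G) (f : ι → G → ℝ) :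
    E c g (fun σ => ∑ i ∈ s, f i σ) = ∑ i ∈ s, E c g (f i) := by
  unfold E
  rw [Z_sum s c (F := fun i l => f i (l.map g).prod) (fun i _ l => bound_fin (f i) _),
    Finset.mul_sum]

theorem E_mono {c : α → ℝ} (hc : ∀ a, 0 ≤ c a) (g : α → G) {f h : G → ℝ} (hfh : ∀ σ, f σ ≤ h σ) :
    E c g f ≤ E c g h := by
  unfold E
  exact mul_le_mul_of_nonneg_left (Z_mono hc (fun l => bound_fin f _) (fun l => bound_fin h _)
    fun l => hfh _) (Real.exp_pos _).le

theorem E_nonneg {c : α → ℝ} (hc : ∀ a, 0 ≤ c a) (g : α → G) {f : G → ℝ} (hf : ∀ σ, 0 ≤ f σ) :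
    0 ≤ E c g f := by
  have := E_mono hc g (f := fun _ => 0) (h := f) hf
  rwa [E_const] at this

theorem E_eq_sum (c : α → ℝ) (g : α → G) (f : G → ℝ) :
    E c g f = ∑ σ, law c g σ * f σ := by
  have h : f = fun τ => ∑ σ, f σ * (if τ = σ then (1 : ℝ) else 0) := by
    funext τ; simp
  conv_lhs => rw [h]
  rw [E_sum]
  refine Finset.sum_congr rfl fun σ _ => ?_
  rw [E_smul, law]; ring

theorem law_nonneg {c : α → ℝ} (hc : ∀ a, 0 ≤ c a) (g : α → G) (σ : G) : 0 ≤ law c g σ :=
  E_nonneg hc g fun τ => by split_ifs <;> norm_num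

theorem law_sum (c : α → ℝ) (g : α → G) : ∑ σ, law c g σ = 1 := by
  have := E_eq_sum c g (fun _ => 1)
  rw [E_const] at this
  simpa using this.symm

theorem E_congr_law (c : α → ℝ) (g : α → G) {f h : G → ℝ}
    (hfh : ∀ l : List α, (∀ a ∈ l, c a ≠ 0) → f (l.map g).prod = h (l.map g).prod) :
    E c g f = E c g h := by
  unfold E
  rw [Z_congr c (F := fun l => f (l.map g).prod) (G := fun l => h (l.map g).prod) hfh]

/-- Jensen's inequality in the form `2 ^ (E f) ≤ E (2 ^ f)`. -/
theorem two_rpow_E_le {c : α → ℝ} (hc : ∀ a, 0 ≤ c a) (g : α → G) (f : G → ℝ) :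
    (2 : ℝ) ^ (E c g f) ≤ E c g (fun σ => (2 : ℝ) ^ f σ) := by
  set m := E c g f with hm
  have key : ∀ x : ℝ, (2 : ℝ) ^ m * (1 + Real.log 2 * (x + -m)) ≤ (2 : ℝ) ^ x := by
    intro x
    have h1 : (2 : ℝ) ^ x = 2 ^ m * Real.exp (Real.log 2 * (x + -m)) := by
      rw [← Real.rpow_def_of_pos (by norm_num : (0 : ℝ) < 2), ← Real.rpow_add (by norm_num)]
      ring_nf
    rw [h1]
    refine mul_le_mul_of_nonneg_left ?_ (by positivity)
    have := Real.add_one_le_exp (Real.log 2 * (x + -m))
    linarith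
  have h2 := E_mono hc g (f := fun σ => (2 : ℝ) ^ m * (1 + Real.log 2 * (f σ + -m)))
    (h := fun σ => (2 : ℝ) ^ f σ) fun σ => key (f σ)
  rw [E_smul, E_add, E_const, E_smul, E_add, E_const] at h2
  rw [← hm] at h2
  simpa using h2

end Basic

section Trace

variable {α : Type*} [Fintype α] {G : Type*} [Group G] [Fintype G] [DecidableEq G]
variable {κ : Type*} [Fintype κ] [DecidableEq κ]

open Matrix

theorem wordSum_matrix (c : α → ℝ) (g : α → G) (ρ : G →* Matrix κ κ ℝ) (n : ℕ) (M : Matrix κ κ ℝ) :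
    wordSum c (fun l => trace (M * ρ (l.map g).prod)) n =
      trace (M * (∑ a, c a • ρ (g a)) ^ n) := by
  induction n generalizing M with
  | zero => simp [wordSum_zero]
  | succ n ih =>
    rw [wordSum_succ]
    have h : ∀ a, wordSum c (fun l => trace (M * ρ ((a :: l).map g).prod)) n =
        trace (M * ρ (g a) * (∑ a, c a • ρ (g a)) ^ n) := by
      intro a
      rw [← ih (M * ρ (g a))]
      simp [mul_assoc]
    simp only [h]
    rw [pow_succ', ← mul_assoc, Matrix.mul_sum, Matrix.sum_mul, trace_sum]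
    refine Finset.sum_congr rfl fun a _ => ?_
    rw [Matrix.mul_smul, Matrix.smul_mul, trace_smul, smul_eq_mul]

theorem trace_exp_eq_tsum (A : Matrix κ κ ℝ) :
    trace (NormedSpace.exp A) = ∑' n : ℕ, trace (A ^ n) / (n.factorial : ℝ) := by
  letI : NormedRing (Matrix κ κ ℝ) := Matrix.linftyOpNormedRing
  letI : NormedAlgebra ℝ (Matrix κ κ ℝ) := Matrix.linftyOpNormedAlgebra
  have h := NormedSpace.exp_series_hasSum_exp' (𝕂 := ℝ) A
  have h2 := h.mapL (LinearMap.toContinuousLinearMap (Matrix.traceLinearMap κ ℝ ℝ))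
  have h3 := h2.tsum_eq
  simp only [LinearMap.coe_toContinuousLinearMap', Matrix.traceLinearMap_apply, trace_smul,
    smul_eq_mul] at h3
  refine h3.symm.trans ?_
  exact tsum_congr fun n => by rw [div_eq_inv_mul]

theorem E_trace (c : α → ℝ) (g : α → G) (ρ : G →* Matrix κ κ ℝ) :
    E c g (fun σ => trace (ρ σ)) = trace (NormedSpace.exp (∑ a, c a • (ρ (g a) - 1))) := by
  have h1 : ∑ a, c a • (ρ (g a) - 1) = (∑ a, c a • ρ (g a)) + (-(∑ a, c a)) • (1 : Matrix κ κ ℝ) := by
    simp only [smul_sub, Finset.sum_sub_distrib, ← Finset.sum_smul]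
    rw [neg_smul, sub_eq_add_neg]
  have h2 : NormedSpace.exp ((-(∑ a, c a)) • (1 : Matrix κ κ ℝ)) =
      Real.exp (-(∑ a, c a)) • (1 : Matrix κ κ ℝ) := by
    have : (-(∑ a, c a)) • (1 : Matrix κ κ ℝ) = diagonal (fun _ => -(∑ a, c a)) := by
      ext i j; simp [Matrix.one_apply, diagonal_apply]
    rw [this, exp_diagonal, Pi.exp_def]
    ext i j
    simp [Matrix.one_apply, diagonal_apply, Real.exp_eq_exp_ℝ]
  rw [h1, Matrix.exp_add_of_commute _ _ (Commute.smul_right (Commute.one_right _) _), h2,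
    Matrix.mul_smul, mul_one, trace_smul, smul_eq_mul, trace_exp_eq_tsum]
  unfold E Z
  congr 1
  refine tsum_congr fun n => ?_
  have := wordSum_matrix c g ρ n 1
  simp only [one_mul] at this
  rw [this]

end Trace

end Pool.Agent.Stirring
end

section

/-! Monotonicity of `trace (exp A)` in the quadratic form order (Peierls' argument). -/

open Finset Matrix

set_option linter.unusedSectionVars false

namespace Pool.Agent.Stirring

variable {κ : Type*} [Fintype κ] [DecidableEq κ]

theorem exists_orth_diag {A : Matrix κ κ ℝ} (hA : A.IsSymm) :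
    ∃ (U : Matrix κ κ ℝ) (d : κ → ℝ), U * Uᵀ = 1 ∧ Uᵀ * U = 1 ∧ A = U * diagonal d * Uᵀ := by
  have hH : A.IsHermitian := by
    rw [Matrix.IsHermitian, conjTranspose_eq_transpose_of_trivial]; exact hA
  refine ⟨(hH.eigenvectorUnitary : Matrix κ κ ℝ), hH.eigenvalues, ?_, ?_, ?_⟩
  · have := Unitary.coe_mul_star_self hH.eigenvectorUnitary
    rwa [Unitary.coe_star, Matrix.star_eq_conjTranspose, conjTranspose_eq_transpose_of_trivial] at this
  · have := Unitary.coe_star_mul_self hH.eigenvectorUnitary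
    rwa [Matrix.star_eq_conjTranspose, conjTranspose_eq_transpose_of_trivial] at this
  · have := hH.spectral_theorem
    rw [Unitary.conjStarAlgAut_apply] at this
    rw [Matrix.star_eq_conjTranspose, conjTranspose_eq_transpose_of_trivial] at this
    exact this

theorem exp_orth_conj {U : Matrix κ κ ℝ} (h1 : U * Uᵀ = 1) (A : Matrix κ κ ℝ) :
    NormedSpace.exp (U * A * Uᵀ) = U * NormedSpace.exp A * Uᵀ := by
  have hinv : U⁻¹ = Uᵀ := Matrix.inv_eq_right_inv h1
  have hU : IsUnit U := by
    rw [Matrix.isUnit_iff_isUnit_det]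
    exact Matrix.isUnit_det_of_right_inverse h1
  rw [← hinv]
  exact Matrix.exp_conj U A hU

theorem exp_diag_real (d : κ → ℝ) :
    NormedSpace.exp (diagonal d) = diagonal (fun i => Real.exp (d i)) := by
  rw [exp_diagonal, Pi.exp_def]
  simp [Real.exp_eq_exp_ℝ]

/-- Peierls' inequality for a diagonal entry. -/
theorem exp_diag_entry_le {M : Matrix κ κ ℝ} (hM : M.IsSymm) (i : κ) :
    Real.exp (M i i) ≤ NormedSpace.exp M i i := by
  obtain ⟨U, d, h1, h2, rfl⟩ := exists_orth_diag hM
  rw [exp_orth_conj h1, exp_diag_real]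
  have hentry : ∀ e : κ → ℝ, (U * diagonal e * Uᵀ) i i = ∑ j, (U i j * U i j) * e j := by
    intro e
    rw [Matrix.mul_apply]
    refine Finset.sum_congr rfl fun j _ => ?_
    rw [Matrix.mul_diagonal, Matrix.transpose_apply]; ring
  rw [hentry, hentry]
  have hsum : ∑ j, U i j * U i j = 1 := by
    have := congrFun (congrFun h1 i) i
    rw [Matrix.mul_apply] at this
    simpa [Matrix.transpose_apply] using this
  have := convexOn_exp.map_sum_le (t := Finset.univ) (w := fun j => U i j * U i j)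
    (p := d) (fun j _ => mul_self_nonneg _) hsum (fun j _ => Set.mem_univ _)
  simpa [smul_eq_mul] using this

theorem trace_exp_mono {A B : Matrix κ κ ℝ} (hA : A.IsSymm) (hB : B.IsSymm)
    (h : ∀ x : κ → ℝ, x ⬝ᵥ A.mulVec x ≤ x ⬝ᵥ B.mulVec x) :
    trace (NormedSpace.exp A) ≤ trace (NormedSpace.exp B) := by
  obtain ⟨U, d, h1, h2, hAU⟩ := exists_orth_diag hA
  set M : Matrix κ κ ℝ := Uᵀ * B * U with hMdef
  have hM : M.IsSymm := by
    rw [Matrix.IsSymm, hMdef, Matrix.transpose_mul, Matrix.transpose_mul, Matrix.transpose_transpose,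
      hB.eq, Matrix.mul_assoc]
  have hBM : B = U * M * Uᵀ := by
    rw [hMdef]
    calc B = (U * Uᵀ) * B * (U * Uᵀ) := by rw [h1]; simp
      _ = U * (Uᵀ * B * U) * Uᵀ := by simp only [Matrix.mul_assoc]
  have tA : trace (NormedSpace.exp A) = ∑ i, Real.exp (d i) := by
    rw [hAU, exp_orth_conj h1, exp_diag_real, Matrix.trace_mul_comm, ← Matrix.mul_assoc, h2,
      Matrix.one_mul, trace_diagonal]
  have tB : trace (NormedSpace.exp B) = ∑ i, NormedSpace.exp M i i := by
    rw [hBM, exp_orth_conj h1, Matrix.trace_mul_comm, ← Matrix.mul_assoc, h2, Matrix.one_mul]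
    rfl
  rw [tA, tB]
  refine Finset.sum_le_sum fun i _ => ?_
  refine le_trans (Real.exp_le_exp.mpr ?_) (exp_diag_entry_le hM i)
  have hcol : ∀ C : Matrix κ κ ℝ, (Uᵀ * C * U) i i = (fun j => U j i) ⬝ᵥ C.mulVec (fun j => U j i) := by
    intro C
    rw [Matrix.mul_assoc, Matrix.mul_apply]
    simp only [dotProduct, Matrix.transpose_apply]
    refine Finset.sum_congr rfl fun j _ => ?_
    rw [Matrix.mul_apply]; rfl
  have hd : d i = (Uᵀ * A * U) i i := by
    have : Uᵀ * A * U = diagonal d := by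
      rw [hAU]
      calc Uᵀ * (U * diagonal d * Uᵀ) * U = (Uᵀ * U) * diagonal d * (Uᵀ * U) := by
            simp only [Matrix.mul_assoc]
        _ = diagonal d := by rw [h2]; simp
    rw [this, diagonal_apply_eq]
  rw [hd, hcol A, hMdef, hcol B]
  exact h _

end Pool.Agent.Stirring
end

section

/-! Permutation representations on subsets; exclusion processes on the complete graph. -/

open Finset Matrix

set_option linter.unusedSectionVars false

namespace Pool.Agent.Stirring

section PermMat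

variable {X : Type*} [Fintype X] [DecidableEq X]

/-- The permutation representation as a monoid homomorphism to matrices. -/
def permMat (X : Type*) [Fintype X] [DecidableEq X] : Equiv.Perm X →* Matrix X X ℝ where
  toFun τ := Matrix.of fun x y => if x = τ y then 1 else 0
  map_one' := by ext x y; simp only [Matrix.of_apply, Matrix.one_apply]; rfl
  map_mul' σ τ := by
    ext x y
    rw [Matrix.mul_apply]
    simp only [Matrix.of_apply, Equiv.Perm.mul_apply]
    rw [Finset.sum_eq_single (τ y)]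
    · rw [if_pos rfl, mul_one]; rfl
    · intro b _ hb; simp [hb]
    · intro h; exact absurd (Finset.mem_univ _) h

theorem permMat_apply (τ : Equiv.Perm X) (x y : X) :
    permMat X τ x y = if x = τ y then 1 else 0 := rfl

theorem trace_permMat (τ : Equiv.Perm X) :
    trace (permMat X τ) = ((Finset.univ.filter fun x => τ x = x).card : ℝ) := by
  rw [trace]
  simp only [diag_apply, permMat_apply, Finset.card_filter]
  push_cast
  refine Finset.sum_congr rfl fun x _ => ?_
  simp [eq_comm]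

theorem permMat_swap_isSymm_of_involutive {τ : Equiv.Perm X} (h : τ * τ = 1) :
    (permMat X τ).IsSymm := by
  ext x y
  rw [Matrix.transpose_apply, permMat_apply, permMat_apply]
  have : ∀ z, τ (τ z) = z := fun z => by
    have := congrArg (fun σ : Equiv.Perm X => σ z) h; simpa using this
  congr 1
  rw [eq_iff_iff]
  constructor
  · rintro rfl; exact (this _).symm
  · rintro rfl; exact (this _).symm

end PermMat

section Level

variable {ι : Type*} [Fintype ι] [DecidableEq ι]

/-- Subsets with `k` elements. -/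
abbrev Lev (ι : Type*) (k : ℕ) := {A : Finset ι // A.card = k}

/-- Action of permutations on subsets. -/
def setHom (ι : Type*) [DecidableEq ι] : Equiv.Perm ι →* Equiv.Perm (Finset ι) where
  toFun σ := σ.finsetCongr
  map_one' := Equiv.ext fun A => by
    rw [Equiv.finsetCongr_apply]; exact Finset.map_refl
  map_mul' σ τ := Equiv.ext fun A => by
    rw [Equiv.Perm.mul_apply, Equiv.finsetCongr_apply, Equiv.finsetCongr_apply,
      Equiv.finsetCongr_apply, Finset.map_map]
    rfl

omit [Fintype ι] in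
theorem setHom_apply (σ : Equiv.Perm ι) (A : Finset ι) : setHom ι σ A = A.map σ.toEmbedding := rfl

omit [Fintype ι] in
theorem card_setHom (σ : Equiv.Perm ι) (A : Finset ι) : (setHom ι σ A).card = A.card := by
  rw [setHom_apply, Finset.card_map]

/-- Action of permutations on `k`-subsets. -/
def levHom (ι : Type*) [DecidableEq ι] (k : ℕ) : Equiv.Perm ι →* Equiv.Perm (Lev ι k) where
  toFun σ := (setHom ι σ).subtypePerm (fun A => by rw [card_setHom])
  map_one' := Equiv.ext fun A => Subtype.ext (by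
    change (setHom ι 1) A.1 = A.1
    rw [map_one]; rfl)
  map_mul' σ τ := Equiv.ext fun A => Subtype.ext (by
    change (setHom ι (σ * τ)) A.1 = (setHom ι σ) ((setHom ι τ) A.1)
    rw [map_mul]; rfl)

theorem levHom_coe (σ : Equiv.Perm ι) {k : ℕ} (A : Lev ι k) :
    ((levHom ι k σ A : Lev ι k) : Finset ι) = A.1.map σ.toEmbedding := rfl

theorem map_swap_of_iff {a b : ι} {B : Finset ι} (h : a ∈ B ↔ b ∈ B) :
    B.map (Equiv.swap a b).toEmbedding = B := by
  ext x
  simp only [Finset.mem_map_equiv, Equiv.symm_swap]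
  by_cases hxa : x = a
  · subst hxa; simp [h]
  · by_cases hxb : x = b
    · subst hxb; simp [h]
    · rw [Equiv.swap_apply_of_ne_of_ne hxa hxb]

theorem map_swap_of_mem_not_mem {a b : ι} {B : Finset ι} (ha : a ∈ B) (hb : b ∉ B) :
    B.map (Equiv.swap a b).toEmbedding = insert b (B.erase a) := by
  ext x
  simp only [Finset.mem_map_equiv, Equiv.symm_swap, Finset.mem_insert, Finset.mem_erase]
  have hab : a ≠ b := fun h => hb (h ▸ ha)
  by_cases hxa : x = a
  · subst hxa; simp [hb, hab]
  · by_cases hxb : x = b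
    · subst hxb; simp [ha]
    · rw [Equiv.swap_apply_of_ne_of_ne hxa hxb]; simp [hxa, hxb]

/-- The exchange matrix. -/
def exch (A B : Finset ι) : ℝ := ∑ a ∈ B, ∑ b ∈ Bᶜ, if A = insert b (B.erase a) then 1 else 0

theorem sum_swap_entry (A B : Finset ι) :
    ∑ p : ι × ι, (if A = B.map (Equiv.swap p.1 p.2).toEmbedding then (1 : ℝ) else 0) =
      ((B.card : ℝ) ^ 2 + ((Fintype.card ι : ℝ) - B.card) ^ 2) * (if A = B then 1 else 0)
        + 2 * exch A B := by
  rw [Fintype.sum_prod_type]
  have hsplit : ∀ f : ι → ℝ, ∑ x, f x = ∑ x ∈ B, f x + ∑ x ∈ Bᶜ, f x := fun f =>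
    (Finset.sum_add_sum_compl B f).symm
  rw [hsplit]
  simp only [hsplit (fun y => if A = B.map (Equiv.swap _ y).toEmbedding then (1 : ℝ) else 0)]
  rw [Finset.sum_add_distrib, Finset.sum_add_distrib]
  have h1 : ∑ x ∈ B, ∑ y ∈ B, (if A = B.map (Equiv.swap x y).toEmbedding then (1 : ℝ) else 0) =
      (B.card : ℝ) ^ 2 * (if A = B then 1 else 0) := by
    have : ∀ x ∈ B, ∀ y ∈ B, (if A = B.map (Equiv.swap x y).toEmbedding then (1 : ℝ) else 0) =
        if A = B then 1 else 0 := fun x hx y hy => by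
      rw [map_swap_of_iff (by simp [hx, hy])]
    rw [Finset.sum_congr rfl fun x hx => Finset.sum_congr rfl fun y hy => this x hx y hy]
    simp only [Finset.sum_const, nsmul_eq_mul]; ring
  have h2 : ∑ x ∈ Bᶜ, ∑ y ∈ Bᶜ, (if A = B.map (Equiv.swap x y).toEmbedding then (1 : ℝ) else 0) =
      ((Fintype.card ι : ℝ) - B.card) ^ 2 * (if A = B then 1 else 0) := by
    have : ∀ x ∈ Bᶜ, ∀ y ∈ Bᶜ, (if A = B.map (Equiv.swap x y).toEmbedding then (1 : ℝ) else 0) =
        if A = B then 1 else 0 := fun x hx y hy => by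
      rw [map_swap_of_iff (by simp [Finset.mem_compl.mp hx, Finset.mem_compl.mp hy])]
    rw [Finset.sum_congr rfl fun x hx => Finset.sum_congr rfl fun y hy => this x hx y hy]
    simp only [Finset.sum_const, nsmul_eq_mul]
    rw [Finset.card_compl, Nat.cast_sub (Finset.card_le_univ B)]; ring
  have h3 : ∑ x ∈ B, ∑ y ∈ Bᶜ, (if A = B.map (Equiv.swap x y).toEmbedding then (1 : ℝ) else 0) =
      exch A B := by
    unfold exch
    refine Finset.sum_congr rfl fun x hx => Finset.sum_congr rfl fun y hy => ?_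
    rw [map_swap_of_mem_not_mem hx (Finset.mem_compl.mp hy)]
  have h4 : ∑ x ∈ Bᶜ, ∑ y ∈ B, (if A = B.map (Equiv.swap x y).toEmbedding then (1 : ℝ) else 0) =
      exch A B := by
    rw [Finset.sum_comm]
    unfold exch
    refine Finset.sum_congr rfl fun x hx => Finset.sum_congr rfl fun y hy => ?_
    rw [Equiv.swap_comm, map_swap_of_mem_not_mem hx (Finset.mem_compl.mp hy)]
  rw [h1, h2, h3, h4]; ring

/-- Inclusion matrix between consecutive levels. -/
def incl (ι : Type*) [DecidableEq ι] (k : ℕ) : Matrix (Lev ι k) (Lev ι (k + 1)) ℝ :=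
  Matrix.of fun C B => if C.1 ⊆ B.1 then 1 else 0

theorem sum_insert_eq {A C : Finset ι} (h : A.card = C.card + 1) :
    ∑ b ∈ Cᶜ, (if A = insert b C then (1 : ℝ) else 0) = if C ⊆ A then 1 else 0 := by
  by_cases hCA : C ⊆ A
  · rw [if_pos hCA]
    have h1 : (A \ C).card = 1 := by
      rw [Finset.card_sdiff_of_subset hCA]; omega
    obtain ⟨b, hb⟩ := Finset.card_eq_one.mp h1
    have hbm : b ∈ A \ C := by rw [hb]; exact Finset.mem_singleton_self b
    have hbA : b ∈ A := (Finset.mem_sdiff.mp hbm).1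
    have hbC : b ∉ C := (Finset.mem_sdiff.mp hbm).2
    have hA : A = insert b C := by
      refine (Finset.eq_of_subset_of_card_le ?_ ?_).symm
      · exact Finset.insert_subset hbA hCA
      · rw [Finset.card_insert_of_notMem hbC, h]
    rw [Finset.sum_eq_single b]
    · rw [if_pos hA]
    · intro b' hb' hne
      rw [if_neg]
      intro hA'
      have : b' ∈ A := by rw [hA']; exact Finset.mem_insert_self _ _
      have : b' ∈ A \ C := Finset.mem_sdiff.mpr ⟨this, Finset.mem_compl.mp hb'⟩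
      rw [hb] at this
      exact hne (Finset.mem_singleton.mp this)
    · intro hn
      exact absurd (Finset.mem_compl.mpr hbC) hn
  · rw [if_neg hCA]
    refine Finset.sum_eq_zero fun b _ => if_neg ?_
    rintro rfl
    exact hCA (Finset.subset_insert _ _)

theorem sum_erase_eq {A C : Finset ι} (h : C.card = A.card + 1) :
    ∑ a ∈ C, (if A = C.erase a then (1 : ℝ) else 0) = if A ⊆ C then 1 else 0 := by
  by_cases hAC : A ⊆ C
  · rw [if_pos hAC]
    have h1 : (C \ A).card = 1 := by
      rw [Finset.card_sdiff_of_subset hAC]; omega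
    obtain ⟨b, hb⟩ := Finset.card_eq_one.mp h1
    have hbm : b ∈ C \ A := by rw [hb]; exact Finset.mem_singleton_self b
    have hbC : b ∈ C := (Finset.mem_sdiff.mp hbm).1
    have hbA : b ∉ A := (Finset.mem_sdiff.mp hbm).2
    have hA : A = C.erase b := by
      refine Finset.eq_of_subset_of_card_le ?_ ?_
      · intro x hx
        exact Finset.mem_erase.mpr ⟨fun hxb => hbA (hxb ▸ hx), hAC hx⟩
      · rw [Finset.card_erase_of_mem hbC]; omega
    rw [Finset.sum_eq_single b]
    · rw [if_pos hA]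
    · intro b' hb' hne
      rw [if_neg]
      intro hA'
      have : b' ∉ A := by rw [hA']; exact Finset.notMem_erase _ _
      have : b' ∈ C \ A := Finset.mem_sdiff.mpr ⟨hb', this⟩
      rw [hb] at this
      exact hne (Finset.mem_singleton.mp this)
    · intro hn
      exact absurd hbC hn
  · rw [if_neg hAC]
    refine Finset.sum_eq_zero fun b _ => if_neg ?_
    rintro rfl
    exact hAC (Finset.erase_subset _ _)

theorem incl_transpose_mul (k : ℕ) (A B : Lev ι (k + 1)) :
    ((incl ι k)ᵀ * incl ι k) A B = (k + 1 : ℝ) * (if A.1 = B.1 then 1 else 0) + exch A.1 B.1 := by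
  rw [Matrix.mul_apply]
  simp only [Matrix.transpose_apply, incl, Matrix.of_apply]
  have h1 : ∑ C : Lev ι k, ((if C.1 ⊆ A.1 then (1 : ℝ) else 0) * if C.1 ⊆ B.1 then 1 else 0) =
      ∑ a ∈ B.1, if B.1.erase a ⊆ A.1 then (1 : ℝ) else 0 := by
    have : ∀ C : Lev ι k, ((if C.1 ⊆ A.1 then (1 : ℝ) else 0) * if C.1 ⊆ B.1 then 1 else 0) =
        ∑ a ∈ B.1, (if C.1 = B.1.erase a then (1 : ℝ) else 0) * (if C.1 ⊆ A.1 then 1 else 0) := by
      intro C
      rw [← Finset.sum_mul, sum_erase_eq (by rw [B.2, C.2]), mul_comm]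
    rw [Finset.sum_congr rfl fun C _ => this C, Finset.sum_comm]
    refine Finset.sum_congr rfl fun a ha => ?_
    have hc : (B.1.erase a).card = k := by rw [Finset.card_erase_of_mem ha, B.2]; rfl
    rw [Finset.sum_eq_single (⟨B.1.erase a, hc⟩ : Lev ι k)]
    · simp
    · intro C _ hC
      rw [if_neg, zero_mul]
      intro h; exact hC (Subtype.ext h)
    · intro h; exact absurd (Finset.mem_univ _) h
  rw [h1]
  have h2 : ∀ a ∈ B.1, (if B.1.erase a ⊆ A.1 then (1 : ℝ) else 0) =
      (if A.1 = B.1 then 1 else 0) + ∑ b ∈ B.1ᶜ, if A.1 = insert b (B.1.erase a) then 1 else 0 := by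
    intro a ha
    have hcard : A.1.card = (B.1.erase a).card + 1 := by
      rw [Finset.card_erase_of_mem ha, A.2, B.2]; rfl
    rw [← sum_insert_eq hcard]
    have hcompl : (B.1.erase a)ᶜ = insert a B.1ᶜ := by
      rw [Finset.compl_erase]
    rw [hcompl, Finset.sum_insert (by simpa using ha), Finset.insert_erase ha]
  rw [Finset.sum_congr rfl h2, Finset.sum_add_distrib, Finset.sum_const, B.2, nsmul_eq_mul]
  push_cast
  rfl

theorem incl_mul_transpose (k : ℕ) (A B : Lev ι k) :
    (incl ι k * (incl ι k)ᵀ) A B = ((Fintype.card ι : ℝ) - k) * (if A.1 = B.1 then 1 else 0)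
      + exch A.1 B.1 := by
  rw [Matrix.mul_apply]
  simp only [Matrix.transpose_apply, incl, Matrix.of_apply]
  have h1 : ∑ C : Lev ι (k + 1), ((if A.1 ⊆ C.1 then (1 : ℝ) else 0) * if B.1 ⊆ C.1 then 1 else 0) =
      ∑ b ∈ B.1ᶜ, if A.1 ⊆ insert b B.1 then (1 : ℝ) else 0 := by
    have : ∀ C : Lev ι (k + 1), ((if A.1 ⊆ C.1 then (1 : ℝ) else 0) * if B.1 ⊆ C.1 then 1 else 0) =
        ∑ b ∈ B.1ᶜ, (if C.1 = insert b B.1 then (1 : ℝ) else 0) * (if A.1 ⊆ C.1 then 1 else 0) := by
      intro C
      rw [← Finset.sum_mul, sum_insert_eq (by rw [B.2, C.2]), mul_comm]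
    rw [Finset.sum_congr rfl fun C _ => this C, Finset.sum_comm]
    refine Finset.sum_congr rfl fun b hb => ?_
    have hc : (insert b B.1).card = k + 1 := by
      rw [Finset.card_insert_of_notMem (Finset.mem_compl.mp hb), B.2]
    rw [Finset.sum_eq_single (⟨insert b B.1, hc⟩ : Lev ι (k + 1))]
    · simp
    · intro C _ hC
      rw [if_neg, zero_mul]
      intro h; exact hC (Subtype.ext h)
    · intro h; exact absurd (Finset.mem_univ _) h
  rw [h1]
  have h2 : ∀ b ∈ B.1ᶜ, (if A.1 ⊆ insert b B.1 then (1 : ℝ) else 0) =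
      (if A.1 = B.1 then 1 else 0) + ∑ a ∈ B.1, if A.1 = insert b (B.1.erase a) then 1 else 0 := by
    intro b hb
    have hb' := Finset.mem_compl.mp hb
    have hcard : (insert b B.1).card = A.1.card + 1 := by
      rw [Finset.card_insert_of_notMem hb', A.2, B.2]
    rw [← sum_erase_eq hcard, Finset.sum_insert hb', Finset.erase_insert hb']
    congr 1
    refine Finset.sum_congr rfl fun a ha => ?_
    rw [Finset.erase_insert_of_ne (fun h : b = a => hb' (by rw [h]; exact ha))]
  rw [Finset.sum_congr rfl h2, Finset.sum_add_distrib, Finset.sum_const, Finset.card_compl, B.2,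
    nsmul_eq_mul, Nat.cast_sub (by rw [← B.2]; exact Finset.card_le_univ _)]
  congr 1
  unfold exch
  rw [Finset.sum_comm]

/-- The generator of the complete graph on `k`-subsets (ordered pairs). -/
noncomputable def kgen (ι : Type*) [Fintype ι] [DecidableEq ι] (k : ℕ) :
    Matrix (Lev ι k) (Lev ι k) ℝ :=
  ∑ p : ι × ι, (permMat _ (levHom ι k (Equiv.swap p.1 p.2)) - 1)

theorem kgen_apply (k : ℕ) (A B : Lev ι k) :
    kgen ι k A B = -(2 * (k : ℝ) * ((Fintype.card ι : ℝ) - k)) * (if A.1 = B.1 then 1 else 0)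
      + 2 * exch A.1 B.1 := by
  unfold kgen
  rw [Finset.sum_sub_distrib, Matrix.sub_apply, Matrix.sum_apply]
  have h1 : ∀ p : ι × ι, permMat _ (levHom ι k (Equiv.swap p.1 p.2)) A B =
      if A.1 = B.1.map (Equiv.swap p.1 p.2).toEmbedding then 1 else 0 := by
    intro p
    rw [permMat_apply]
    congr 1
    rw [eq_iff_iff, Subtype.ext_iff, levHom_coe]
  rw [Finset.sum_congr rfl fun p _ => h1 p, sum_swap_entry, B.2]
  rw [Finset.sum_const, Matrix.smul_apply, Matrix.one_apply]
  have h2 : (if A = B then (1 : ℝ) else 0) = if A.1 = B.1 then 1 else 0 := by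
    congr 1
    rw [eq_iff_iff, Subtype.ext_iff]
  rw [h2, Finset.card_univ, Fintype.card_prod, nsmul_eq_mul]
  push_cast
  ring

theorem kgen_succ (k : ℕ) :
    kgen ι (k + 1) = (2 : ℝ) • ((incl ι k)ᵀ * incl ι k)
      + (-(2 * ((k : ℝ) + 1) * ((Fintype.card ι : ℝ) - k))) • (1 : Matrix _ _ ℝ) := by
  ext A B
  rw [kgen_apply, Matrix.add_apply, Matrix.smul_apply, Matrix.smul_apply, incl_transpose_mul,
    Matrix.one_apply]
  have h2 : (if A = B then (1 : ℝ) else 0) = if A.1 = B.1 then 1 else 0 := by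
    congr 1
    rw [eq_iff_iff, Subtype.ext_iff]
  rw [h2]
  push_cast
  simp only [smul_eq_mul]
  ring

theorem kgen_pred (k : ℕ) :
    kgen ι k = (2 : ℝ) • (incl ι k * (incl ι k)ᵀ)
      + (-(2 * ((k : ℝ) + 1) * ((Fintype.card ι : ℝ) - k))) • (1 : Matrix _ _ ℝ) := by
  ext A B
  rw [kgen_apply, Matrix.add_apply, Matrix.smul_apply, Matrix.smul_apply, incl_mul_transpose,
    Matrix.one_apply]
  have h2 : (if A = B then (1 : ℝ) else 0) = if A.1 = B.1 then 1 else 0 := by
    congr 1
    rw [eq_iff_iff, Subtype.ext_iff]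
  rw [h2]
  simp only [smul_eq_mul]
  ring

end Level

end Pool.Agent.Stirring
end
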