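import Pool.Agent.Lib.MP_6c3d62_pr.Mg.G086
import Pool.Agent.Lib.MP_6c3d62_pr.Mg.G085

section

/-! Time derivative of expectations of the continuous-time walk. -/

open Finset Matrix

set_option linter.unusedSectionVars false
set_option linter.style.haveILetI false

namespace Pool.Agent.Stirring

variable {α : Type*} [Fintype α] {G : Type*} [Group G] [Fintype G] [DecidableEq G]

/-- The left regular representation. -/
def regHom (G : Type*) [Group G] : G →* Equiv.Perm G where
  toFun g := Equiv.mulLeft g
  map_one' := by ext x; simp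
  map_mul' g h := by ext x; simp

/-- Matrix representing a function. -/
def fMat (f : G → ℝ) : Matrix G G ℝ := Matrix.of fun x y => if x = 1 then f y else 0

theorem trace_fMat (f : G → ℝ) (g : G) : trace (fMat f * permMat G (regHom G g)) = f g := by
  rw [trace]
  simp only [diag_apply, Matrix.mul_apply, fMat, Matrix.of_apply, permMat_apply]
  rw [Finset.sum_eq_single 1]
  · rw [Finset.sum_eq_single g]
    · simp [regHom]
    · intro b _ hb
      rw [if_neg (show ¬ b = regHom G g 1 from by simpa [regHom] using hb), mul_zero]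
    · intro h; exact absurd (Finset.mem_univ _) h
  · intro b _ hb
    refine Finset.sum_eq_zero fun y _ => ?_
    rw [if_neg hb, zero_mul]
  · intro h; exact absurd (Finset.mem_univ _) h

theorem hasSum_trace_mul_exp {κ : Type*} [Fintype κ] [DecidableEq κ] (M A : Matrix κ κ ℝ) :
    HasSum (fun n : ℕ => trace (M * A ^ n) / (n.factorial : ℝ)) (trace (M * NormedSpace.exp A)) := by
  letI : NormedRing (Matrix κ κ ℝ) := Matrix.linftyOpNormedRing
  letI : NormedAlgebra ℝ (Matrix κ κ ℝ) := Matrix.linftyOpNormedAlgebra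
  have h := NormedSpace.exp_series_hasSum_exp' (𝕂 := ℝ) A
  have h2 := h.mapL (LinearMap.toContinuousLinearMap
    ((Matrix.traceLinearMap κ ℝ ℝ).comp (LinearMap.mulLeft ℝ M)))
  simp only [LinearMap.coe_toContinuousLinearMap', LinearMap.comp_apply, LinearMap.mulLeft_apply,
    Matrix.traceLinearMap_apply, Matrix.mul_smul, trace_smul, smul_eq_mul, ← div_eq_inv_mul] at h2
  exact h2

theorem E_eq_trace_exp (g : α → G) (f : G → ℝ) (s : ℝ) :
    E (fun _ : α => s) g f = Real.exp (-(Fintype.card α * s)) *
      trace (fMat f * NormedSpace.exp (s • ∑ a, permMat G (regHom G (g a)))) := by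
  unfold E Z
  have h1 : ∑ _a : α, s = Fintype.card α * s := by
    rw [Finset.sum_const, Finset.card_univ, nsmul_eq_mul]
  rw [h1, ← (hasSum_trace_mul_exp (fMat f) (s • ∑ a, permMat G (regHom G (g a)))).tsum_eq]
  congr 1
  refine tsum_congr fun n => ?_
  have h2 := wordSum_matrix (fun _ : α => s) g ((permMat G).comp (regHom G)) n (fMat f)
  simp only [MonoidHom.comp_apply, trace_fMat] at h2
  rw [h2, Finset.smul_sum]

theorem hasDerivAt_E (g : α → G) (f : G → ℝ) (s : ℝ) :
    HasDerivAt (fun u : ℝ => E (fun _ : α => u) g f)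
      (∑ a, (E (fun _ : α => s) g (fun σ => f (g a * σ)) - E (fun _ : α => s) g f)) s := by
  set S : Matrix G G ℝ := ∑ a, permMat G (regHom G (g a)) with hS
  have h0 : (fun u : ℝ => E (fun _ : α => u) g f) = fun u =>
      Real.exp (-(Fintype.card α * u)) * trace (fMat f * NormedSpace.exp (u • S)) := by
    funext u; exact E_eq_trace_exp g f u
  rw [h0]
  have h1 : HasDerivAt (fun u : ℝ => trace (fMat f * NormedSpace.exp (u • S)))
      (trace (fMat f * (S * NormedSpace.exp (s • S)))) s := by
    letI : NormedRing (Matrix G G ℝ) := Matrix.linftyOpNormedRing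
    letI : NormedAlgebra ℝ (Matrix G G ℝ) := Matrix.linftyOpNormedAlgebra
    have h := hasDerivAt_exp_smul_const' (𝕂 := ℝ) S s
    have h2 := (LinearMap.toContinuousLinearMap
      ((Matrix.traceLinearMap G ℝ ℝ).comp (LinearMap.mulLeft ℝ (fMat f)))).hasFDerivAt.comp_hasDerivAt
      s h
    exact h2
  have h3 : HasDerivAt (fun u : ℝ => Real.exp (-(Fintype.card α * u)))
      (Real.exp (-(Fintype.card α * s)) * (-(Fintype.card α : ℝ))) s := by
    have h4 : HasDerivAt (fun u : ℝ => -((Fintype.card α : ℝ) * u)) (-(Fintype.card α : ℝ)) s := by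
      have := (hasDerivAt_id' s).const_mul (-(Fintype.card α : ℝ))
      rw [mul_one] at this
      exact this.congr_of_eventuallyEq (Filter.Eventually.of_forall fun u => by simp)
    exact h4.exp
  have h5 := h3.mul h1
  refine h5.congr_deriv ?_
  rw [Finset.sum_sub_distrib, Finset.sum_const, Finset.card_univ, nsmul_eq_mul,
    E_eq_trace_exp g f s]
  have h6 : ∑ a, E (fun _ : α => s) g (fun σ => f (g a * σ)) =
      Real.exp (-(Fintype.card α * s)) * trace (fMat f * (S * NormedSpace.exp (s • S))) := by
    have h7 : ∀ a, E (fun _ : α => s) g (fun σ => f (g a * σ)) =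
        Real.exp (-(Fintype.card α * s)) *
          trace (fMat f * (permMat G (regHom G (g a)) * NormedSpace.exp (s • S))) := by
      intro a
      rw [E_eq_trace_exp]
      congr 1
      have h8 : fMat (fun σ => f (g a * σ)) = fMat f * permMat G (regHom G (g a)) := by
        ext x y
        rw [Matrix.mul_apply]
        simp only [fMat, Matrix.of_apply, permMat_apply]
        rw [Finset.sum_eq_single (g a * y)]
        · simp [regHom]
        · intro b _ hb
          rw [if_neg (show ¬ b = regHom G (g a) y from by simpa [regHom] using hb), mul_zero]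
        · intro h; exact absurd (Finset.mem_univ _) h
      rw [h8, Matrix.mul_assoc]
    rw [Finset.sum_congr rfl fun a _ => h7 a, ← Finset.mul_sum]
    congr 1
    rw [hS, Finset.sum_mul, Finset.mul_sum, trace_sum]
  rw [h6]
  ring

theorem continuous_E (g : α → G) (f : G → ℝ) : Continuous (fun u : ℝ => E (fun _ : α => u) g f) :=
  continuous_iff_continuousAt.mpr fun s => (hasDerivAt_E g f s).continuousAt

end Pool.Agent.Stirring
end

section

/-! Traces, projections and families of commuting lowering operators. -/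

open Finset Matrix

set_option linter.unusedSectionVars false
set_option linter.style.haveILetI false

namespace Pool.Agent.Stirring

variable {κ : Type*} [Fintype κ] [DecidableEq κ]

/-- Nonnegative quadratic form. -/
def Nn (S : Matrix κ κ ℝ) : Prop := ∀ f : κ → ℝ, 0 ≤ f ⬝ᵥ S.mulVec f

theorem Nn.trace {S : Matrix κ κ ℝ} (h : Nn S) : 0 ≤ trace S := by
  rw [Matrix.trace]
  refine Finset.sum_nonneg fun i _ => ?_
  have h1 := h (Pi.single i 1)
  rw [Matrix.mulVec_single_one, single_one_dotProduct] at h1
  exact h1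

theorem Nn.conj {S : Matrix κ κ ℝ} (h : Nn S) (P : Matrix κ κ ℝ) : Nn (Pᵀ * S * P) := by
  intro f
  rw [Matrix.mul_assoc, ← Matrix.mulVec_mulVec, Matrix.dotProduct_mulVec, ← Matrix.mulVec_transpose,
    Matrix.transpose_transpose, ← Matrix.mulVec_mulVec]
  exact h (P.mulVec f)

theorem trace_mul_proj_nonneg {S P : Matrix κ κ ℝ} (h : Nn S) (hP : P.IsSymm) (hP2 : P * P = P) :
    0 ≤ trace (S * P) := by
  have h1 := (h.conj P).trace
  rw [hP.eq] at h1
  have h2 : trace (P * S * P) = trace (S * P) := by
    rw [Matrix.trace_mul_comm, ← Matrix.mul_assoc, hP2, Matrix.trace_mul_comm]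
  rwa [h2] at h1

theorem nn_exp {H : Matrix κ κ ℝ} (hH : H.IsSymm) : Nn (NormedSpace.exp H) := by
  obtain ⟨U, d, h1, h2, rfl⟩ := exists_orth_diag hH
  rw [exp_orth_conj h1, exp_diag_real]
  intro f
  rw [Matrix.mul_assoc, ← Matrix.mulVec_mulVec, ← Matrix.mulVec_mulVec, Matrix.dotProduct_mulVec,
    ← Matrix.mulVec_transpose]
  unfold dotProduct
  refine Finset.sum_nonneg fun j _ => ?_
  rw [Matrix.mulVec_diagonal]
  have := Real.exp_pos (d j)
  nlinarith [mul_self_nonneg ((Uᵀ.mulVec f) j)]

/-- The pseudoinverse of a symmetric matrix. -/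
theorem exists_pinv {B : Matrix κ κ ℝ} (hB : B.IsSymm) :
    ∃ B' : Matrix κ κ ℝ, B'.IsSymm ∧ B * B' = B' * B ∧ B * B' * B = B ∧ B' * B * B' = B' ∧
      ∀ C : Matrix κ κ ℝ, C * B = B * C → C * B' = B' * C := by
  obtain ⟨U, d, h1, h2, rfl⟩ := exists_orth_diag hB
  have hmul : ∀ a b : κ → ℝ, (U * diagonal a * Uᵀ) * (U * diagonal b * Uᵀ) =
      U * diagonal (fun i => a i * b i) * Uᵀ := by
    intro a b
    calc (U * diagonal a * Uᵀ) * (U * diagonal b * Uᵀ)
        = U * diagonal a * (Uᵀ * U) * diagonal b * Uᵀ := by simp only [Matrix.mul_assoc]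
      _ = U * (diagonal a * diagonal b) * Uᵀ := by
          rw [h2, Matrix.mul_one, Matrix.mul_assoc U]
      _ = _ := by rw [diagonal_mul_diagonal]
  refine ⟨U * diagonal (fun i => (d i)⁻¹) * Uᵀ, ?_, ?_, ?_, ?_, ?_⟩
  · rw [Matrix.IsSymm, Matrix.transpose_mul, Matrix.transpose_mul, Matrix.transpose_transpose,
      diagonal_transpose, Matrix.mul_assoc]
  · rw [hmul, hmul]
    congr 3
    funext i
    ring
  · rw [hmul, hmul]
    congr 3
    funext i
    exact mul_inv_mul_cancel (d i)
  · rw [hmul, hmul]
    congr 3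
    funext i
    by_cases h : d i = 0
    · rw [h]; simp
    · field_simp
  · intro C hC
    set M := Uᵀ * C * U with hM
    have hCM : C = U * M * Uᵀ := by
      rw [hM]
      calc C = (U * Uᵀ) * C * (U * Uᵀ) := by rw [h1]; simp
        _ = U * (Uᵀ * C * U) * Uᵀ := by simp only [Matrix.mul_assoc]
    have hcomm : ∀ e : κ → ℝ, C * (U * diagonal e * Uᵀ) = (U * diagonal e * Uᵀ) * C ↔
        M * diagonal e = diagonal e * M := by
      intro e
      constructor
      · intro h
        calc M * diagonal e = Uᵀ * (C * (U * diagonal e * Uᵀ)) * U := by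
              rw [hM]
              calc Uᵀ * C * U * diagonal e = Uᵀ * C * U * diagonal e * (Uᵀ * U) := by
                    rw [h2, Matrix.mul_one]
                _ = _ := by simp only [Matrix.mul_assoc]
          _ = Uᵀ * ((U * diagonal e * Uᵀ) * C) * U := by rw [h]
          _ = (Uᵀ * U) * diagonal e * (Uᵀ * C * U) := by simp only [Matrix.mul_assoc]
          _ = _ := by rw [h2, Matrix.one_mul]
      · intro h
        rw [hCM]
        calc U * M * Uᵀ * (U * diagonal e * Uᵀ) = U * M * (Uᵀ * U) * diagonal e * Uᵀ := by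
              simp only [Matrix.mul_assoc]
          _ = U * (M * diagonal e) * Uᵀ := by
              rw [h2, Matrix.mul_one]; simp only [Matrix.mul_assoc]
          _ = U * (diagonal e * M) * Uᵀ := by rw [h]
          _ = U * diagonal e * (Uᵀ * U) * M * Uᵀ := by
              rw [h2, Matrix.mul_one]; simp only [Matrix.mul_assoc]
          _ = _ := by simp only [Matrix.mul_assoc]
    have h3 := (hcomm d).mp hC
    refine (hcomm _).mpr ?_
    ext i j
    have h4 := congrFun (congrFun h3 i) j
    rw [Matrix.mul_diagonal, Matrix.diagonal_mul] at h4 ⊢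
    by_cases h5 : M i j = 0
    · rw [h5]; ring
    · have h6 : d i = d j := by
        have : M i j * (d i - d j) = 0 := by linarith
        rcases mul_eq_zero.mp this with h | h
        · exact absurd h h5
        · linarith
      rw [h6]; ring

theorem eq_zero_of_transpose_mul_self {A : Matrix κ κ ℝ} (h : Aᵀ * A = 0) : A = 0 := by
  rw [← conjTranspose_eq_transpose_of_trivial] at h
  exact Matrix.conjTranspose_mul_self_eq_zero.mp h

/-- One step: the projection onto the kernel of a lowering operator inside an invariant subspace. -/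
theorem proj_step {S Q R : Matrix κ κ ℝ} {c : ℝ} (hc : 0 < c) (hS : Nn S) (hSs : S.IsSymm)
    (hQs : Q.IsSymm) (hQ2 : Q * Q = Q) (hQS : Q * S = S * Q) (hRS : R * S = c • (S * R))
    (hRQ : R * Q = Q * R * Q) :
    ∃ Q' : Matrix κ κ ℝ, Q'.IsSymm ∧ Q' * Q' = Q' ∧ Q' * S = S * Q' ∧ Q * Q' = Q' ∧ R * Q' = 0 ∧
      (∀ C : Matrix κ κ ℝ, C * Q = Q * C * Q → C * R = R * C → C * Q' = Q' * C * Q') ∧
      (1 - c) * trace (S * Q) ≤ trace (S * Q') := by
  obtain ⟨A, hA⟩ : ∃ A, A = R * Q := ⟨_, rfl⟩
  rw [← hA] at hRQ
  have hAS : A * S = c • (S * A) := by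
    rw [hA, Matrix.mul_assoc, hQS, ← Matrix.mul_assoc, hRS, Matrix.smul_mul, Matrix.mul_assoc]
  have hSA : Aᵀ * S = c⁻¹ • (S * Aᵀ) := by
    have h := congrArg Matrix.transpose hAS
    rw [Matrix.transpose_mul, Matrix.transpose_smul, Matrix.transpose_mul, hSs.eq] at h
    rw [h, smul_smul, inv_mul_cancel₀ hc.ne', one_smul]
  have hAQ : A * Q = A := by rw [hA, Matrix.mul_assoc, hQ2]
  have hQA : Q * A = A := by rw [hRQ, ← Matrix.mul_assoc, ← Matrix.mul_assoc, hQ2]
  obtain ⟨B, hB⟩ : ∃ B, B = Aᵀ * A := ⟨_, rfl⟩
  have hBs : B.IsSymm := by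
    rw [Matrix.IsSymm, hB, Matrix.transpose_mul, Matrix.transpose_transpose]
  obtain ⟨B', hB's, hBB', hB1, hB2, hB3⟩ := exists_pinv hBs
  have hBS : S * B = B * S := by
    rw [hB, Matrix.mul_assoc, hAS, Matrix.mul_smul, ← Matrix.mul_assoc, ← Matrix.mul_assoc, hSA,
      Matrix.smul_mul, smul_smul, mul_inv_cancel₀ hc.ne', one_smul, Matrix.mul_assoc]
  have hB'S : S * B' = B' * S := hB3 S hBS
  have hQB : Q * B = B * Q := by
    have e1 : B * Q = B := by rw [hB, Matrix.mul_assoc, hAQ]
    have e2 : Q * B = B := by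
      have := congrArg Matrix.transpose e1
      rwa [Matrix.transpose_mul, hQs.eq, hBs.eq] at this
    rw [e1, e2]
  have hQB' : Q * B' = B' * Q := hB3 Q hQB
  obtain ⟨P, hP⟩ : ∃ P, P = B' * B := ⟨_, rfl⟩
  have hPs : P.IsSymm := by
    rw [Matrix.IsSymm, hP, Matrix.transpose_mul, hB's.eq, hBs.eq, hBB']
  have hP2 : P * P = P := by
    rw [hP, ← Matrix.mul_assoc, hB2]
  have hPQ : P * Q = P := by
    rw [hP, Matrix.mul_assoc, hB, Matrix.mul_assoc, hAQ]
  have hQP : Q * P = P := by
    have := congrArg Matrix.transpose hPQ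
    rwa [Matrix.transpose_mul, hQs.eq, hPs.eq] at this
  have hPS : P * S = S * P := by
    rw [hP, Matrix.mul_assoc, ← hBS, ← Matrix.mul_assoc, ← hB'S, Matrix.mul_assoc]
  have hAP : A * P = A := by
    have h0 : (A - A * P)ᵀ * (A - A * P) = 0 := by
      have e1 : A - A * P = A * (1 - P) := by rw [Matrix.mul_sub, Matrix.mul_one]
      rw [e1, Matrix.transpose_mul, Matrix.mul_assoc, ← Matrix.mul_assoc Aᵀ A, ← hB,
        Matrix.mul_sub B, Matrix.mul_one, hP, ← Matrix.mul_assoc B B' B, hB1, sub_self,
        Matrix.mul_zero]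
    have := eq_zero_of_transpose_mul_self h0
    exact (sub_eq_zero.mp this).symm
  obtain ⟨P', hP'⟩ : ∃ P', P' = A * B' * Aᵀ := ⟨_, rfl⟩
  have hP's : P'.IsSymm := by
    rw [Matrix.IsSymm, hP', Matrix.transpose_mul, Matrix.transpose_mul, Matrix.transpose_transpose,
      hB's.eq, Matrix.mul_assoc]
  have hP'2 : P' * P' = P' := by
    rw [hP']
    calc A * B' * Aᵀ * (A * B' * Aᵀ) = A * (B' * (Aᵀ * A) * B') * Aᵀ := by
          simp only [Matrix.mul_assoc]
      _ = _ := by rw [← hB, hB2]
  have hQP' : Q * P' = P' := by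
    rw [hP', ← Matrix.mul_assoc, ← Matrix.mul_assoc, hQA]
  have hP'Q : P' * Q = P' := by
    have := congrArg Matrix.transpose hQP'
    rwa [Matrix.transpose_mul, hQs.eq, hP's.eq] at this
  have htr : trace (S * P) = c * trace (S * P') := by
    have e1 : S * P = S * B' * Aᵀ * A := by
      rw [hP, hB]; simp only [Matrix.mul_assoc]
    have e2 : A * (S * B' * Aᵀ) = c • (S * P') := by
      calc A * (S * B' * Aᵀ) = (A * S) * B' * Aᵀ := by simp only [Matrix.mul_assoc]
        _ = c • (S * A * B' * Aᵀ) := by
            rw [hAS, Matrix.smul_mul, Matrix.smul_mul]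
        _ = _ := by rw [hP']; simp only [Matrix.mul_assoc]
    rw [e1, Matrix.trace_mul_comm, e2, trace_smul, smul_eq_mul]
  have htr2 : trace (S * P') ≤ trace (S * Q) := by
    have h1 : 0 ≤ trace (S * (Q - P')) := by
      refine trace_mul_proj_nonneg hS ?_ ?_
      · rw [Matrix.IsSymm, Matrix.transpose_sub, hQs.eq, hP's.eq]
      · rw [Matrix.sub_mul, Matrix.mul_sub, Matrix.mul_sub, hQ2, hQP', hP'Q, hP'2, sub_self,
          sub_zero]
    rw [Matrix.mul_sub, trace_sub] at h1
    linarith
  refine ⟨Q - P, ?_, ?_, ?_, ?_, ?_, ?_, ?_⟩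
  · rw [Matrix.IsSymm, Matrix.transpose_sub, hQs.eq, hPs.eq]
  · rw [Matrix.sub_mul, Matrix.mul_sub, Matrix.mul_sub, hQ2, hQP, hPQ, hP2, sub_self, sub_zero]
  · rw [Matrix.sub_mul, Matrix.mul_sub, hQS, hPS]
  · rw [Matrix.mul_sub, hQ2, hQP]
  · have h1 : R * P = A := by
      rw [← hQP, ← Matrix.mul_assoc, ← hA, hAP]
    rw [Matrix.mul_sub, ← hA, h1, sub_self]
  · intro C hCQ hCR
    have hQQ' : Q * (Q - P) = Q - P := by rw [Matrix.mul_sub, hQ2, hQP]
    have hRQ' : R * (Q - P) = 0 := by
      have h1 : R * P = A := by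
        rw [← hQP, ← Matrix.mul_assoc, ← hA, hAP]
      rw [Matrix.mul_sub, ← hA, h1, sub_self]
    have e1 : Q * (C * (Q - P)) = C * (Q - P) := by
      calc Q * (C * (Q - P)) = Q * C * Q * (Q - P) := by
            rw [Matrix.mul_assoc (Q * C), hQQ', Matrix.mul_assoc]
        _ = C * Q * (Q - P) := by rw [← hCQ]
        _ = _ := by rw [Matrix.mul_assoc, hQQ']
    have e2 : P * (C * (Q - P)) = 0 := by
      have h1 : A * (C * (Q - P)) = 0 := by
        calc A * (C * (Q - P)) = R * (Q * (C * (Q - P))) := by rw [hA, Matrix.mul_assoc]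
          _ = R * (C * (Q - P)) := by rw [e1]
          _ = C * (R * (Q - P)) := by rw [← Matrix.mul_assoc, ← hCR, Matrix.mul_assoc]
          _ = 0 := by rw [hRQ', Matrix.mul_zero]
      calc P * (C * (Q - P)) = B' * (Aᵀ * (A * (C * (Q - P)))) := by
            generalize C * (Q - P) = W
            rw [hP, hB, Matrix.mul_assoc, Matrix.mul_assoc]
        _ = 0 := by rw [h1, Matrix.mul_zero, Matrix.mul_zero]
    rw [Matrix.mul_assoc, Matrix.sub_mul, e1, e2, sub_zero]
  · rw [Matrix.mul_sub, trace_sub, htr]
    have := mul_le_mul_of_nonneg_left htr2 hc.le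
    linarith

/-- Iteration over a family of commuting lowering operators. -/
theorem proj_family {C : Type*} {S : Matrix κ κ ℝ} {R : C → Matrix κ κ ℝ} {c : ℝ} (hc : 0 < c)
    (hc1 : c ≤ 1) (hS : Nn S) (hSs : S.IsSymm) (hRS : ∀ b, R b * S = c • (S * R b))
    (hRR : ∀ b b', R b * R b' = R b' * R b) (s : List C) :
    ∃ Q : Matrix κ κ ℝ, Q.IsSymm ∧ Q * Q = Q ∧ Q * S = S * Q ∧ (∀ b ∈ s, R b * Q = 0) ∧
      (∀ b, R b * Q = Q * R b * Q) ∧ (1 - c) ^ s.length * trace S ≤ trace (S * Q) := by
  induction s with
  | nil =>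
    refine ⟨1, Matrix.isSymm_one, Matrix.one_mul 1, ?_, ?_, ?_, ?_⟩
    · rw [Matrix.one_mul, Matrix.mul_one]
    · intro b hb; exact absurd hb List.not_mem_nil
    · intro b; rw [Matrix.mul_one, Matrix.one_mul, Matrix.mul_one]
    · rw [List.length_nil, pow_zero, one_mul, Matrix.mul_one]
  | cons b0 s ih =>
    obtain ⟨Q, h1, h2, h3, h4, h5, h6⟩ := ih
    obtain ⟨Q', k1, k2, k3, k4, k5, k6, k7⟩ := proj_step hc hS hSs h1 h2 h3 (hRS b0) (h5 b0)
    refine ⟨Q', k1, k2, k3, ?_, ?_, ?_⟩
    · intro b hb
      rcases List.mem_cons.mp hb with rfl | hb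
      · exact k5
      · rw [← k4, ← Matrix.mul_assoc, h4 b hb, Matrix.zero_mul]
    · intro b
      exact k6 (R b) (h5 b) (hRR b b0)
    · rw [List.length_cons, pow_succ]
      have : (1 - c) * ((1 - c) ^ s.length * trace S) ≤ (1 - c) * trace (S * Q) :=
        mul_le_mul_of_nonneg_left h6 (by linarith)
      calc (1 - c) ^ s.length * (1 - c) * trace S = (1 - c) * ((1 - c) ^ s.length * trace S) := by
            ring
        _ ≤ _ := this.trans k7

theorem exp_mul_of_mul_eq_zero {X Q : Matrix κ κ ℝ} (h : X * Q = 0) :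
    NormedSpace.exp X * Q = Q := by
  letI : NormedRing (Matrix κ κ ℝ) := Matrix.linftyOpNormedRing
  letI : NormedAlgebra ℝ (Matrix κ κ ℝ) := Matrix.linftyOpNormedAlgebra
  have h1 := NormedSpace.exp_series_hasSum_exp' (𝕂 := ℝ) X
  have h2 := h1.mul_right Q
  have h3 : HasSum (fun n : ℕ => ((n.factorial : ℝ)⁻¹ • X ^ n) * Q) Q := by
    have h4 : (fun n : ℕ => ((n.factorial : ℝ)⁻¹ • X ^ n) * Q) = fun n => if n = 0 then Q else 0 := by
      funext n
      cases n with
      | zero => simp
      | succ n =>
        rw [if_neg (Nat.succ_ne_zero n), pow_succ, Matrix.smul_mul, Matrix.mul_assoc, h,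
          Matrix.mul_zero, smul_zero]
    rw [h4]
    exact hasSum_ite_eq 0 Q
  exact h2.unique h3

/-- Comparison of the trace with the trace damped by the number operators. -/
theorem trace_le_damped {C : Type*} [Fintype C] {S : Matrix κ κ ℝ} {R : C → Matrix κ κ ℝ} {c : ℝ}
    (hc : 0 < c) (hc1 : c ≤ 1) (hS : Nn S) (hSs : S.IsSymm)
    (hRS : ∀ b, R b * S = c • (S * R b)) (hRR : ∀ b b', R b * R b' = R b' * R b) (M : ℝ) :
    (1 - c) ^ Fintype.card C * trace S ≤
      trace (S * NormedSpace.exp ((-M) • ∑ b, (R b)ᵀ * R b)) := by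
  obtain ⟨Q, h1, h2, h3, h4, h5, h6⟩ := proj_family hc hc1 hS hSs hRS hRR
    (Finset.univ : Finset C).toList
  rw [Finset.length_toList, Finset.card_univ] at h6
  refine h6.trans ?_
  set X := ∑ b, (R b)ᵀ * R b with hX
  have hXs : X.IsSymm := by
    rw [Matrix.IsSymm, hX, Matrix.transpose_sum]
    exact Finset.sum_congr rfl fun b _ => by
      rw [Matrix.transpose_mul, Matrix.transpose_transpose]
  have hXQ : X * Q = 0 := by
    rw [hX, Finset.sum_mul]
    refine Finset.sum_eq_zero fun b _ => ?_
    rw [Matrix.mul_assoc, h4 b (Finset.mem_toList.mpr (Finset.mem_univ b)), Matrix.mul_zero]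
  have hXS : Commute X S := by
    have h7 : ∀ b, (R b)ᵀ * R b * S = S * ((R b)ᵀ * R b) := by
      intro b
      have e1 : (R b)ᵀ * S = c⁻¹ • (S * (R b)ᵀ) := by
        have h := congrArg Matrix.transpose (hRS b)
        rw [Matrix.transpose_mul, Matrix.transpose_smul, Matrix.transpose_mul, hSs.eq] at h
        rw [h, smul_smul, inv_mul_cancel₀ hc.ne', one_smul]
      rw [Matrix.mul_assoc, hRS b, Matrix.mul_smul, ← Matrix.mul_assoc, e1, Matrix.smul_mul,
        smul_smul, mul_inv_cancel₀ hc.ne', one_smul, Matrix.mul_assoc]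
    show X * S = S * X
    rw [hX, Finset.sum_mul, Finset.mul_sum]
    exact Finset.sum_congr rfl fun b _ => h7 b
  set E := NormedSpace.exp ((-M) • X) with hE
  set E2 := NormedSpace.exp ((-(M / 2)) • X) with hE2
  have hE2s : E2.IsSymm := by
    rw [Matrix.IsSymm, hE2, ← Matrix.exp_transpose, Matrix.transpose_smul, hXs.eq]
  have hEE : E = E2 * E2 := by
    rw [hE, hE2, ← Matrix.exp_add_of_commute _ _ (Commute.refl _), ← add_smul]
    congr 2
    ring
  have hE2S : E2 * S = S * E2 := by
    have : Commute ((-(M / 2)) • X) S := hXS.smul_left _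
    exact (Commute.exp_left this).eq
  have hEQ : E * Q = Q := by
    rw [hE]
    exact exp_mul_of_mul_eq_zero (by rw [Matrix.smul_mul, hXQ, smul_zero])
  have hSE : Nn (S * E) := by
    have h8 := hS.conj E2
    have h9 : E2ᵀ * S * E2 = S * E := by
      rw [hE2s.eq, hE2S, hEE, Matrix.mul_assoc]
    rwa [h9] at h8
  have h10 : trace (S * Q) = trace (S * E * Q) := by
    rw [Matrix.mul_assoc, hEQ]
  rw [h10]
  have h11 : 0 ≤ trace (S * E * (1 - Q)) := by
    refine trace_mul_proj_nonneg hSE ?_ ?_
    · rw [Matrix.IsSymm, Matrix.transpose_sub, Matrix.transpose_one, h1.eq]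
    · rw [Matrix.sub_mul, Matrix.mul_sub, Matrix.mul_sub, h2, Matrix.one_mul, Matrix.mul_one,
        Matrix.one_mul, sub_self, sub_zero]
  rw [Matrix.mul_sub, Matrix.mul_one, trace_sub] at h11
  linarith

end Pool.Agent.Stirring
end

section

/-! Colourings with several colours: the action of permutations and the lowering operators. -/

open Finset Matrix

set_option linter.unusedSectionVars false

namespace Pool.Agent.Stirring

section Act

variable {V : Type*} {K : Type*}

/-- The action of permutations on colourings. -/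
def colHom (V K : Type*) : Equiv.Perm V →* Equiv.Perm (V → K) where
  toFun σ := Equiv.arrowCongr σ (Equiv.refl K)
  map_one' := by ext η x; rfl
  map_mul' σ τ := by ext η x; rfl

theorem colHom_apply (σ : Equiv.Perm V) (η : V → K) (x : V) :
    colHom V K σ η x = η (σ.symm x) := rfl

theorem colHom_apply' (σ : Equiv.Perm V) (η : V → K) :
    colHom V K σ η = fun x => η (σ.symm x) := rfl

theorem colHom_eq_iff (σ : Equiv.Perm V) (η ζ : V → K) :
    ζ = colHom V K σ η ↔ (fun x => ζ (σ x)) = η := by
  constructor
  · rintro rfl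
    funext x
    rw [colHom_apply, Equiv.symm_apply_apply]
  · rintro rfl
    funext x
    rw [colHom_apply, Equiv.apply_symm_apply]

variable [Fintype V] [DecidableEq V] [Fintype K] [DecidableEq K]

/-- The representation on functions of colourings. -/
def rhoQ (V K : Type*) [Fintype V] [DecidableEq V] [Fintype K] [DecidableEq K] :
    Equiv.Perm V →* Matrix (V → K) (V → K) ℝ := (permMat (V → K)).comp (colHom V K)

theorem rhoQ_apply (σ : Equiv.Perm V) (ζ η : V → K) :
    rhoQ V K σ ζ η = if ζ = colHom V K σ η then 1 else 0 := rfl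

theorem rhoQ_mulVec (σ : Equiv.Perm V) (f : (V → K) → ℝ) (ζ : V → K) :
    (rhoQ V K σ).mulVec f ζ = f fun x => ζ (σ x) := by
  unfold Matrix.mulVec dotProduct
  simp only [rhoQ_apply, colHom_eq_iff, ite_mul, one_mul, zero_mul]
  rw [Finset.sum_ite_eq Finset.univ (fun x => ζ (σ x)) f, if_pos (Finset.mem_univ _)]

theorem rhoQ_isSymm {g : Equiv.Perm V} (hg : g * g = 1) : (rhoQ V K g).IsSymm := by
  refine permMat_swap_isSymm_of_involutive ?_
  rw [← map_mul, hg, map_one]

theorem ext_mulVec {κ : Type*} [Fintype κ] [DecidableEq κ] {A B : Matrix κ κ ℝ}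
    (h : ∀ f x, A.mulVec f x = B.mulVec f x) : A = B := by
  ext i j
  have := h (Pi.single j 1) i
  rwa [Matrix.mulVec_single_one, Matrix.mulVec_single_one] at this

end Act

section Low

variable {V : Type*} [Fintype V] [DecidableEq V] {C : Type*} [Fintype C] [DecidableEq C]

/-- Number of coloured vertices. -/
def nCol (η : V → Option C) : ℕ := (Finset.univ.filter fun x => η x ≠ none).card

theorem nCol_le (η : V → Option C) : nCol η ≤ Fintype.card V := Finset.card_le_univ _

theorem nCol_comp (η : V → Option C) (σ : Equiv.Perm V) : nCol (fun x => η (σ x)) = nCol η := by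
  unfold nCol
  refine Finset.card_bij (fun x _ => σ x) ?_ ?_ ?_
  · intro x hx
    rw [Finset.mem_filter] at *
    exact ⟨Finset.mem_univ _, hx.2⟩
  · intro x _ y _ h; exact σ.injective h
  · intro y hy
    rw [Finset.mem_filter] at hy
    refine ⟨σ.symm y, ?_, Equiv.apply_symm_apply _ _⟩
    rw [Finset.mem_filter]
    refine ⟨Finset.mem_univ _, ?_⟩
    show η (σ (σ.symm y)) ≠ none
    rw [Equiv.apply_symm_apply]
    exact hy.2

theorem nCol_update {η : V → Option C} {x : V} (hx : η x = none) (b : C) :
    nCol (Function.update η x (some b)) = nCol η + 1 := by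
  unfold nCol
  have h : (Finset.univ.filter fun y => Function.update η x (some b) y ≠ none) =
      insert x (Finset.univ.filter fun y => η y ≠ none) := by
    ext y
    rw [Finset.mem_insert, Finset.mem_filter, Finset.mem_filter]
    by_cases hy : y = x
    · subst hy; simp
    · rw [Function.update_of_ne hy]; simp [hy]
  rw [h, Finset.card_insert_of_notMem]
  rw [Finset.mem_filter]
  exact fun h => h.2 hx

/-- The lowering operator. -/
def lowM (b : C) : Matrix (V → Option C) (V → Option C) ℝ :=
  Matrix.of fun η ζ => ∑ x, if η x = none ∧ Function.update η x (some b) = ζ then 1 else 0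

theorem lowM_mulVec (b : C) (f : (V → Option C) → ℝ) (η : V → Option C) :
    (lowM b).mulVec f η = ∑ x, if η x = none then f (Function.update η x (some b)) else 0 := by
  unfold Matrix.mulVec dotProduct lowM
  simp only [Matrix.of_apply, Finset.sum_mul]
  rw [Finset.sum_comm]
  refine Finset.sum_congr rfl fun x _ => ?_
  by_cases hx : η x = none
  · simp only [hx, true_and, if_true, ite_mul, one_mul, zero_mul]
    rw [Finset.sum_ite_eq Finset.univ _ f, if_pos (Finset.mem_univ _)]
  · simp [hx]

theorem lowM_transpose_mulVec (b : C) (f : (V → Option C) → ℝ) (ζ : V → Option C) :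
    (lowM b)ᵀ.mulVec f ζ = ∑ x, if ζ x = some b then f (Function.update ζ x none) else 0 := by
  unfold Matrix.mulVec dotProduct lowM
  simp only [Matrix.transpose_apply, Matrix.of_apply, Finset.sum_mul]
  rw [Finset.sum_comm]
  refine Finset.sum_congr rfl fun x _ => ?_
  have hiff : ∀ η : V → Option C, (η x = none ∧ Function.update η x (some b) = ζ) ↔
      (Function.update ζ x none = η ∧ ζ x = some b) := by
    intro η
    constructor
    · rintro ⟨h1, rfl⟩
      refine ⟨?_, Function.update_self _ _ _⟩
      rw [Function.update_idem, ← h1, Function.update_eq_self]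
    · rintro ⟨rfl, h2⟩
      refine ⟨Function.update_self _ _ _, ?_⟩
      rw [Function.update_idem, ← h2, Function.update_eq_self]
  simp only [hiff]
  by_cases hx : ζ x = some b
  · simp only [hx, and_true, if_true, ite_mul, one_mul, zero_mul]
    rw [Finset.sum_ite_eq Finset.univ _ f, if_pos (Finset.mem_univ _)]
  · simp [hx]

theorem lowM_rhoQ (b : C) (σ : Equiv.Perm V) :
    lowM b * rhoQ V (Option C) σ = rhoQ V (Option C) σ * lowM b := by
  refine ext_mulVec fun f η => ?_
  rw [← Matrix.mulVec_mulVec, ← Matrix.mulVec_mulVec, lowM_mulVec, rhoQ_mulVec, lowM_mulVec]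
  simp only [rhoQ_mulVec]
  rw [← Equiv.sum_comp σ]
  refine Finset.sum_congr rfl fun x _ => ?_
  by_cases hx : η (σ x) = none
  · rw [if_pos hx, if_pos hx]
    congr 1
    funext y
    by_cases hy : y = x
    · subst hy; simp
    · rw [Function.update_of_ne hy, Function.update_of_ne (fun h => hy (σ.injective h))]
  · rw [if_neg hx, if_neg hx]

theorem lowM_comm (b b' : C) :
    (lowM b : Matrix (V → Option C) (V → Option C) ℝ) * lowM b' = lowM b' * lowM b := by
  refine ext_mulVec fun f η => ?_
  rw [← Matrix.mulVec_mulVec, ← Matrix.mulVec_mulVec, lowM_mulVec, lowM_mulVec]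
  simp only [lowM_mulVec]
  have key : ∀ c c' : C, ∑ x, (if η x = none then ∑ y, (if Function.update η x (some c) y = none
      then f (Function.update (Function.update η x (some c)) y (some c')) else 0) else 0) =
      ∑ x, ∑ y, if x ≠ y ∧ η x = none ∧ η y = none then
        f (Function.update (Function.update η x (some c)) y (some c')) else 0 := by
    intro c c'
    refine Finset.sum_congr rfl fun x _ => ?_
    by_cases hx : η x = none
    · rw [if_pos hx]
      refine Finset.sum_congr rfl fun y _ => ?_
      by_cases hy : y = x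
      · subst hy
        rw [Function.update_self]
        simp
      · rw [Function.update_of_ne hy]
        simp [hx, Ne.symm hy]
    · simp [hx]
  rw [key, key, Finset.sum_comm]
  refine Finset.sum_congr rfl fun x _ => Finset.sum_congr rfl fun y _ => ?_
  by_cases hxy : x = y
  · subst hxy; simp
  · rw [Function.update_comm (Ne.symm hxy)]
    refine if_congr ?_ rfl rfl
    tauto

theorem lowM_diag (b : C) (a : ℝ) :
    lowM b * diagonal (fun η : V → Option C => Real.exp (-(a * nCol η))) =
      Real.exp (-a) • (diagonal (fun η : V → Option C => Real.exp (-(a * nCol η))) * lowM b) := by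
  ext η ζ
  rw [Matrix.mul_diagonal, Matrix.smul_apply, Matrix.diagonal_mul, smul_eq_mul]
  unfold lowM
  rw [Matrix.of_apply, Finset.sum_mul, Finset.mul_sum, Finset.mul_sum]
  refine Finset.sum_congr rfl fun x _ => ?_
  by_cases h : η x = none ∧ Function.update η x (some b) = ζ
  · rw [if_pos h, one_mul, mul_one, ← Real.exp_add, ← h.2, nCol_update h.1]
    push_cast
    ring_nf
  · rw [if_neg h]; ring

theorem rhoQ_diag (u : ℕ → ℝ) (σ : Equiv.Perm V) :
    rhoQ V (Option C) σ * diagonal (fun η : V → Option C => u (nCol η)) =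
      diagonal (fun η : V → Option C => u (nCol η)) * rhoQ V (Option C) σ := by
  refine ext_mulVec fun f η => ?_
  rw [← Matrix.mulVec_mulVec, ← Matrix.mulVec_mulVec, rhoQ_mulVec, Matrix.mulVec_diagonal,
    Matrix.mulVec_diagonal, rhoQ_mulVec, nCol_comp]

/-- The number operator of the family of lowering operators. -/
noncomputable def numX (V C : Type*) [Fintype V] [DecidableEq V] [Fintype C] [DecidableEq C] :
    Matrix (V → Option C) (V → Option C) ℝ := ∑ b : C, (lowM b)ᵀ * lowM b

/-- Exchange of a coloured vertex and an empty one. -/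
noncomputable def exq (f : (V → Option C) → ℝ) (η : V → Option C) : ℝ :=
  ∑ x, ∑ y, if η x ≠ none ∧ η y = none then f (fun z => η (Equiv.swap x y z)) else 0

theorem update_update_swap {η : V → Option C} {x y : V} (hxy : x ≠ y) (hy : η y = none) (b : C)
    (hx : η x = some b) : Function.update (Function.update η x none) y (some b) =
      fun z => η (Equiv.swap x y z) := by
  funext z
  by_cases h1 : z = y
  · subst h1; rw [Function.update_self, Equiv.swap_apply_right, hx]
  · rw [Function.update_of_ne h1]
    by_cases h2 : z = x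
    · subst h2; rw [Function.update_self, Equiv.swap_apply_left, hy]
    · rw [Function.update_of_ne h2, Equiv.swap_apply_of_ne_of_ne h2 h1]

theorem sum_some (g : C → ℝ) (o : Option C) :
    ∑ b, (if o = some b then g b else 0) = o.elim 0 g := by
  cases o with
  | none => simp
  | some c => simp

theorem numX_mulVec (f : (V → Option C) → ℝ) (η : V → Option C) :
    (numX V C).mulVec f η = nCol η * f η + exq f η := by
  unfold numX
  rw [Matrix.sum_mulVec]
  rw [Finset.sum_apply]
  have h1 : ∀ b : C, ((lowM b)ᵀ * lowM b : Matrix (V → Option C) (V → Option C) ℝ).mulVec f η = ∑ x, ∑ y, if η x = some b then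
      (if y = x then f η else if η y = none then f (fun z => η (Equiv.swap x y z)) else 0)
      else 0 := by
    intro b
    rw [← Matrix.mulVec_mulVec, lowM_transpose_mulVec]
    refine Finset.sum_congr rfl fun x _ => ?_
    by_cases hx : η x = some b
    · rw [if_pos hx, lowM_mulVec]
      refine Finset.sum_congr rfl fun y _ => ?_
      rw [if_pos hx]
      by_cases hy : y = x
      · subst hy
        rw [Function.update_self, if_pos rfl, if_pos rfl, Function.update_idem, ← hx,
          Function.update_eq_self]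
      · rw [Function.update_of_ne hy, if_neg hy]
        by_cases hyn : η y = none
        · rw [if_pos hyn, if_pos hyn, update_update_swap (Ne.symm hy) hyn b hx]
        · rw [if_neg hyn, if_neg hyn]
    · rw [if_neg hx]
      simp [hx]
  rw [Finset.sum_congr rfl fun b _ => h1 b, Finset.sum_comm]
  have h2 : ∀ x : V, ∑ b : C, ∑ y, (if η x = some b then
      (if y = x then f η else if η y = none then f (fun z => η (Equiv.swap x y z)) else 0)
      else 0) = (if η x ≠ none then f η else 0) +
        ∑ y, if η x ≠ none ∧ η y = none then f (fun z => η (Equiv.swap x y z)) else 0 := by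
    intro x
    rw [Finset.sum_comm]
    have h3 : ∀ y, ∑ b : C, (if η x = some b then
      (if y = x then f η else if η y = none then f (fun z => η (Equiv.swap x y z)) else 0)
      else 0) = (if y = x then (if η x ≠ none then f η else 0) else 0) +
        if η x ≠ none ∧ η y = none then f (fun z => η (Equiv.swap x y z)) else 0 := by
      intro y
      rw [sum_some]
      cases hx : η x with
      | none => simp
      | some c =>
        by_cases hy : y = x
        · subst hy; simp [hx]
        · simp [hy]
    rw [Finset.sum_congr rfl fun y _ => h3 y, Finset.sum_add_distrib]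
    congr 1
    simp
  rw [Finset.sum_congr rfl fun x _ => h2 x, Finset.sum_add_distrib]
  congr 1
  rw [← Finset.sum_filter, Finset.sum_const, nsmul_eq_mul]
  rfl

/-- The transposed family. -/
theorem numY_mulVec (f : (V → Option C) → ℝ) (η : V → Option C) :
    (∑ b : C, lowM b * (lowM b)ᵀ : Matrix (V → Option C) (V → Option C) ℝ).mulVec f η =
      Fintype.card C * ((Fintype.card V : ℝ) - nCol η) * f η + exq f η := by
  rw [Matrix.sum_mulVec]
  rw [Finset.sum_apply]
  have h1 : ∀ b : C, (lowM b * (lowM b)ᵀ : Matrix (V → Option C) (V → Option C) ℝ).mulVec f η = ∑ y, ∑ x, if η y = none then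
      (if x = y then f η else if η x = some b then f (fun z => η (Equiv.swap x y z)) else 0)
      else 0 := by
    intro b
    rw [← Matrix.mulVec_mulVec, lowM_mulVec]
    refine Finset.sum_congr rfl fun y _ => ?_
    by_cases hy : η y = none
    · rw [if_pos hy, lowM_transpose_mulVec]
      refine Finset.sum_congr rfl fun x _ => ?_
      rw [if_pos hy]
      by_cases hx : x = y
      · subst hx
        rw [Function.update_self, if_pos rfl, if_pos rfl, Function.update_idem, ← hy,
          Function.update_eq_self]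
      · rw [Function.update_of_ne hx, if_neg hx]
        by_cases hxn : η x = some b
        · rw [if_pos hxn, if_pos hxn, Function.update_comm (Ne.symm hx),
            update_update_swap hx hy b hxn]
        · rw [if_neg hxn, if_neg hxn]
    · rw [if_neg hy]
      simp [hy]
  rw [Finset.sum_congr rfl fun b _ => h1 b, Finset.sum_comm]
  have h2 : ∀ y : V, ∑ b : C, ∑ x, (if η y = none then
      (if x = y then f η else if η x = some b then f (fun z => η (Equiv.swap x y z)) else 0)
      else 0) = (if η y = none then Fintype.card C * f η else 0) +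
        ∑ x, if η x ≠ none ∧ η y = none then f (fun z => η (Equiv.swap x y z)) else 0 := by
    intro y
    rw [Finset.sum_comm]
    have h3 : ∀ x, ∑ b : C, (if η y = none then
      (if x = y then f η else if η x = some b then f (fun z => η (Equiv.swap x y z)) else 0)
      else 0) = (if x = y then (if η y = none then Fintype.card C * f η else 0) else 0) +
        if η x ≠ none ∧ η y = none then f (fun z => η (Equiv.swap x y z)) else 0 := by
      intro x
      by_cases hy : η y = none
      · simp only [hy, if_true, and_true]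
        by_cases hx : x = y
        · subst hx; simp [hy]
        · simp only [hx, if_false, zero_add]
          rw [sum_some (fun _ => f fun z => η (Equiv.swap x y z)) (η x)]
          cases hxx : η x with
          | none => simp
          | some c => simp
      · simp [hy]
    rw [Finset.sum_congr rfl fun y _ => h3 y, Finset.sum_add_distrib]
    congr 1
    simp
  rw [Finset.sum_congr rfl fun x _ => h2 x, Finset.sum_add_distrib]
  congr 1
  · rw [← Finset.sum_filter, Finset.sum_const, nsmul_eq_mul]
    have h3 : (Finset.univ.filter fun x => η x = none).card + nCol η = Fintype.card V := by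
      unfold nCol
      rw [← Finset.card_univ (α := V)]
      exact Finset.card_filter_add_card_filter_not (s := Finset.univ) (p := fun x => η x = none)
    have h4 : ((Finset.univ.filter fun x => η x = none).card : ℝ) =
        (Fintype.card V : ℝ) - nCol η := by
      rw [← h3]; push_cast; ring
    rw [h4]; ring
  · rw [Finset.sum_comm]
    rfl

end Low

end Pool.Agent.Stirring
end

section

/-! The quadratic form of the complete graph generator on colourings. -/

open Finset Matrix

set_option linter.unusedSectionVars false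

namespace Pool.Agent.Stirring

section Sector

variable {κ : Type*} [Fintype κ] [DecidableEq κ]

/-- A form that preserves the level sets of a function is nonnegative if it is so on each level. -/
theorem quad_sector {W : Matrix κ κ ℝ} {n : κ → ℕ}
    (hW : ∀ i j, n i ≠ n j → W i j = 0)
    (h : ∀ (k : ℕ) (f : κ → ℝ), (∀ i, n i ≠ k → f i = 0) → 0 ≤ f ⬝ᵥ W.mulVec f)
    (f : κ → ℝ) : 0 ≤ f ⬝ᵥ W.mulVec f := by
  have h1 : f ⬝ᵥ W.mulVec f = ∑ k ∈ Finset.univ.image n,
      (fun i => if n i = k then f i else 0) ⬝ᵥ W.mulVec (fun i => if n i = k then f i else 0) := by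
    simp only [Matrix.mulVec, dotProduct]
    rw [Finset.sum_comm' (t' := Finset.univ) (s' := fun _ => Finset.univ.image n)
      (by intro x y; simp)]
    refine Finset.sum_congr rfl fun i _ => ?_
    rw [Finset.sum_eq_single (n i)]
    · simp only [if_true]
      congr 1
      refine Finset.sum_congr rfl fun j _ => ?_
      by_cases hij : n j = n i
      · rw [if_pos hij]
      · rw [if_neg hij, hW i j (fun h => hij h.symm)]; ring
    · intro k _ hk
      simp only [if_neg (Ne.symm hk), zero_mul]
    · intro hn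
      exact absurd (Finset.mem_image_of_mem n (Finset.mem_univ i)) hn
  rw [h1]
  refine Finset.sum_nonneg fun k _ => h k _ fun i hi => if_neg hi

end Sector

variable {V : Type*} [Fintype V] [DecidableEq V] {C : Type*} [Fintype C] [DecidableEq C]

theorem lowM_diag' (b : C) (u : ℕ → ℝ) :
    lowM b * diagonal (fun η : V → Option C => u (nCol η)) =
      diagonal (fun η : V → Option C => u (nCol η + 1)) * lowM b := by
  ext η ζ
  rw [Matrix.mul_diagonal, Matrix.diagonal_mul]
  unfold lowM
  rw [Matrix.of_apply, Finset.sum_mul, Finset.mul_sum]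
  refine Finset.sum_congr rfl fun x _ => ?_
  by_cases h : η x = none ∧ Function.update η x (some b) = ζ
  · rw [if_pos h, one_mul, mul_one, ← h.2, nCol_update h.1]
  · rw [if_neg h]; ring

theorem numX_isSymm : (numX V C).IsSymm := by
  rw [Matrix.IsSymm, numX, Matrix.transpose_sum]
  exact Finset.sum_congr rfl fun b _ => by
    rw [Matrix.transpose_mul, Matrix.transpose_transpose]

theorem numX_diag (u : ℕ → ℝ) :
    numX V C * diagonal (fun η : V → Option C => u (nCol η)) =
      diagonal (fun η : V → Option C => u (nCol η)) * numX V C := by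
  unfold numX
  rw [Finset.sum_mul, Finset.mul_sum]
  refine Finset.sum_congr rfl fun b _ => ?_
  have h1 := lowM_diag' (V := V) b u
  have h2 := congrArg Matrix.transpose h1
  rw [Matrix.transpose_mul, Matrix.transpose_mul, diagonal_transpose, diagonal_transpose] at h2
  rw [Matrix.mul_assoc, h1, ← Matrix.mul_assoc, ← h2, Matrix.mul_assoc]

theorem rhoQ_transpose {K : Type*} [Fintype K] [DecidableEq K] (σ : Equiv.Perm V) :
    (rhoQ V K σ)ᵀ = rhoQ V K σ⁻¹ := by
  ext η ζ
  rw [Matrix.transpose_apply, rhoQ_apply, rhoQ_apply]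
  refine if_congr ?_ rfl rfl
  rw [map_inv, Equiv.Perm.eq_inv_iff_eq]
  exact eq_comm

theorem numX_rhoQ (σ : Equiv.Perm V) :
    numX V C * rhoQ V (Option C) σ = rhoQ V (Option C) σ * numX V C := by
  unfold numX
  rw [Finset.sum_mul, Finset.mul_sum]
  refine Finset.sum_congr rfl fun b _ => ?_
  have h1 := lowM_rhoQ (V := V) b σ
  have h2 := congrArg Matrix.transpose (lowM_rhoQ (V := V) b σ⁻¹)
  rw [Matrix.transpose_mul, Matrix.transpose_mul, rhoQ_transpose, inv_inv] at h2
  rw [Matrix.mul_assoc, h1, ← Matrix.mul_assoc, ← h2, Matrix.mul_assoc]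

theorem dot_transpose_mul (A : Matrix (V → Option C) (V → Option C) ℝ) (f : (V → Option C) → ℝ) :
    f ⬝ᵥ (Aᵀ * A).mulVec f = ∑ η, (A.mulVec f η) ^ 2 := by
  rw [← Matrix.mulVec_mulVec, Matrix.dotProduct_mulVec, ← Matrix.mulVec_transpose,
    Matrix.transpose_transpose]
  unfold dotProduct
  exact Finset.sum_congr rfl fun η _ => by ring

/-- The quadratic form of the number operator. -/
theorem quad_numX (f : (V → Option C) → ℝ) :
    f ⬝ᵥ (numX V C).mulVec f = ∑ η, (nCol η : ℝ) * f η ^ 2 + ∑ η, f η * exq f η := by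
  unfold dotProduct
  rw [← Finset.sum_add_distrib]
  refine Finset.sum_congr rfl fun η _ => ?_
  rw [numX_mulVec]; ring

theorem quad_numX_nonneg (f : (V → Option C) → ℝ) : 0 ≤ f ⬝ᵥ (numX V C).mulVec f := by
  unfold numX
  rw [Matrix.sum_mulVec, dotProduct_sum]
  refine Finset.sum_nonneg fun b _ => ?_
  rw [dot_transpose_mul]
  exact Finset.sum_nonneg fun η _ => sq_nonneg _

theorem quad_numY_nonneg (f : (V → Option C) → ℝ) :
    0 ≤ ∑ η, (Fintype.card C * ((Fintype.card V : ℝ) - nCol η)) * f η ^ 2 +
      ∑ η, f η * exq f η := by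
  have h1 : 0 ≤ f ⬝ᵥ (∑ b : C, lowM b * (lowM b)ᵀ :
      Matrix (V → Option C) (V → Option C) ℝ).mulVec f := by
    rw [Matrix.sum_mulVec, dotProduct_sum]
    refine Finset.sum_nonneg fun b _ => ?_
    have := dot_transpose_mul ((lowM b)ᵀ : Matrix (V → Option C) (V → Option C) ℝ) f
    rw [Matrix.transpose_transpose] at this
    rw [this]
    exact Finset.sum_nonneg fun η _ => sq_nonneg _
  refine h1.trans (le_of_eq ?_)
  unfold dotProduct
  rw [← Finset.sum_add_distrib]
  refine Finset.sum_congr rfl fun η _ => ?_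
  rw [numY_mulVec]; ring

/-- The Dirichlet form of the complete graph. -/
noncomputable def dirK (f : (V → Option C) → ℝ) : ℝ :=
  ∑ x : V, ∑ y : V, ∑ η : V → Option C, (f η - f fun z => η (Equiv.swap x y z)) ^ 2

theorem sum_comp_swap (x y : V) (F : (V → Option C) → ℝ) :
    ∑ η : V → Option C, F (fun z => η (Equiv.swap x y z)) = ∑ η, F η :=
  Equiv.sum_comp (colHom V (Option C) (Equiv.swap x y)) F

theorem sum_ind_eq (η : V → Option C) :
    ∑ x : V, ∑ y : V, (if η x ≠ none ∧ η y = none then (1 : ℝ) else 0) =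
      nCol η * ((Fintype.card V : ℝ) - nCol η) := by
  have h3 : (Finset.univ.filter fun x => η x = none).card + nCol η = Fintype.card V := by
    unfold nCol
    rw [← Finset.card_univ (α := V)]
    exact Finset.card_filter_add_card_filter_not (s := Finset.univ) (p := fun x => η x = none)
  have h4 : ((Finset.univ.filter fun x => η x = none).card : ℝ) =
      (Fintype.card V : ℝ) - nCol η := by
    rw [← h3]; push_cast; ring
  have h5 : ∀ x : V, ∑ y : V, (if η x ≠ none ∧ η y = none then (1 : ℝ) else 0) =
      if η x ≠ none then ((Fintype.card V : ℝ) - nCol η) else 0 := by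
    intro x
    by_cases hx : η x ≠ none
    · rw [if_pos hx, ← h4, Finset.card_filter]
      push_cast
      exact Finset.sum_congr rfl fun y _ => by simp [hx]
    · rw [if_neg hx]
      exact Finset.sum_eq_zero fun y _ => by simp [hx]
  rw [Finset.sum_congr rfl fun x _ => h5 x, ← Finset.sum_filter, Finset.sum_const, nsmul_eq_mul]
  rfl

theorem dirK_ge (f : (V → Option C) → ℝ) :
    4 * ∑ η, (nCol η * ((Fintype.card V : ℝ) - nCol η)) * f η ^ 2 - 4 * ∑ η, f η * exq f η ≤
      dirK f := by
  -- one pair
  have h1 : ∀ x y : V, 2 * ∑ η : V → Option C, (if η x ≠ none ∧ η y = none then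
      (f η ^ 2 + f (fun z => η (Equiv.swap x y z)) ^ 2 -
        2 * (f η * f fun z => η (Equiv.swap x y z))) else 0) ≤
      ∑ η : V → Option C, (f η - f fun z => η (Equiv.swap x y z)) ^ 2 := by
    intro x y
    have e1 : ∑ η : V → Option C, (if η x ≠ none ∧ η y = none then
        (f η - f fun z => η (Equiv.swap x y z)) ^ 2 else 0) =
        ∑ η : V → Option C, (if η y ≠ none ∧ η x = none then
        (f η - f fun z => η (Equiv.swap x y z)) ^ 2 else 0) := by
      rw [← sum_comp_swap x y]
      refine Finset.sum_congr rfl fun η _ => ?_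
      simp only [Equiv.swap_apply_left, Equiv.swap_apply_right, Equiv.swap_apply_self]
      refine if_congr Iff.rfl ?_ rfl
      ring
    have e2 : ∑ η : V → Option C, (if η x ≠ none ∧ η y = none then
        (f η - f fun z => η (Equiv.swap x y z)) ^ 2 else 0) +
        ∑ η : V → Option C, (if η y ≠ none ∧ η x = none then
        (f η - f fun z => η (Equiv.swap x y z)) ^ 2 else 0) ≤
        ∑ η : V → Option C, (f η - f fun z => η (Equiv.swap x y z)) ^ 2 := by
      rw [← Finset.sum_add_distrib]
      refine Finset.sum_le_sum fun η _ => ?_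
      have := sq_nonneg (f η - f fun z => η (Equiv.swap x y z))
      by_cases hx : η x = none <;> by_cases hy : η y = none <;> simp [hx, hy, this]
    have e3 : ∑ η : V → Option C, (if η x ≠ none ∧ η y = none then
        (f η - f fun z => η (Equiv.swap x y z)) ^ 2 else 0) =
        ∑ η : V → Option C, (if η x ≠ none ∧ η y = none then
      (f η ^ 2 + f (fun z => η (Equiv.swap x y z)) ^ 2 -
        2 * (f η * f fun z => η (Equiv.swap x y z))) else 0) := by
      refine Finset.sum_congr rfl fun η _ => if_congr Iff.rfl ?_ rfl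
      ring
    rw [← e3]
    linarith
  have h2 := Finset.sum_le_sum fun x (_ : x ∈ (Finset.univ : Finset V)) =>
    Finset.sum_le_sum fun y (_ : y ∈ (Finset.univ : Finset V)) => h1 x y
  refine le_trans (le_of_eq ?_) h2
  simp only [← Finset.mul_sum]
  have hsplit : ∀ x y : V, ∑ η : V → Option C, (if η x ≠ none ∧ η y = none then
      (f η ^ 2 + f (fun z => η (Equiv.swap x y z)) ^ 2 -
        2 * (f η * f fun z => η (Equiv.swap x y z))) else 0) =
      ∑ η : V → Option C, (if η x ≠ none ∧ η y = none then f η ^ 2 else 0) +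
      ∑ η : V → Option C, (if η y ≠ none ∧ η x = none then f η ^ 2 else 0) -
      2 * ∑ η : V → Option C, (if η x ≠ none ∧ η y = none then
        f η * f (fun z => η (Equiv.swap x y z)) else 0) := by
    intro x y
    have e1 : ∑ η : V → Option C, (if η y ≠ none ∧ η x = none then f η ^ 2 else 0) =
        ∑ η : V → Option C, (if η x ≠ none ∧ η y = none then
          f (fun z => η (Equiv.swap x y z)) ^ 2 else 0) := by
      rw [← sum_comp_swap x y]
      refine Finset.sum_congr rfl fun η _ => ?_
      simp only [Equiv.swap_apply_left, Equiv.swap_apply_right]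
    rw [e1, Finset.mul_sum, ← Finset.sum_add_distrib, ← Finset.sum_sub_distrib]
    refine Finset.sum_congr rfl fun η _ => ?_
    split_ifs <;> ring
  simp only [hsplit]
  have h3 : ∀ g : (V → Option C) → ℝ, ∑ x : V, ∑ y : V, ∑ η : V → Option C,
      (if η x ≠ none ∧ η y = none then g η else 0) =
      ∑ η : V → Option C, (nCol η * ((Fintype.card V : ℝ) - nCol η)) * g η := by
    intro g
    have e1 : ∀ x : V, ∑ y : V, ∑ η : V → Option C,
      (if η x ≠ none ∧ η y = none then g η else 0) = ∑ η : V → Option C, ∑ y : V,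
      (if η x ≠ none ∧ η y = none then g η else 0) := fun x => Finset.sum_comm
    rw [Finset.sum_congr rfl fun x _ => e1 x, Finset.sum_comm]
    refine Finset.sum_congr rfl fun η _ => ?_
    rw [← sum_ind_eq, Finset.sum_mul]
    refine Finset.sum_congr rfl fun x _ => ?_
    rw [Finset.sum_mul]
    refine Finset.sum_congr rfl fun y _ => ?_
    split_ifs <;> ring
  have h4 : ∑ x : V, ∑ y : V, ∑ η : V → Option C,
      (if η y ≠ none ∧ η x = none then f η ^ 2 else 0) =
      ∑ η : V → Option C, (nCol η * ((Fintype.card V : ℝ) - nCol η)) * f η ^ 2 := by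
    rw [Finset.sum_comm]
    exact h3 fun η => f η ^ 2
  have h5 : ∑ x : V, ∑ y : V, ∑ η : V → Option C, (if η x ≠ none ∧ η y = none then
        f η * f (fun z => η (Equiv.swap x y z)) else 0) = ∑ η, f η * exq f η := by
    have e1 : ∀ x : V, ∑ y : V, ∑ η : V → Option C, (if η x ≠ none ∧ η y = none then
        f η * f (fun z => η (Equiv.swap x y z)) else 0) = ∑ η : V → Option C, ∑ y : V,
        (if η x ≠ none ∧ η y = none then
        f η * f (fun z => η (Equiv.swap x y z)) else 0) := fun x => Finset.sum_comm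
    rw [Finset.sum_congr rfl fun x _ => e1 x, Finset.sum_comm]
    refine Finset.sum_congr rfl fun η _ => ?_
    unfold exq
    rw [Finset.mul_sum]
    refine Finset.sum_congr rfl fun x _ => ?_
    rw [Finset.mul_sum]
    refine Finset.sum_congr rfl fun y _ => ?_
    split_ifs <;> ring
  simp only [Finset.sum_sub_distrib, Finset.sum_add_distrib, ← Finset.mul_sum]
  rw [h3 fun η => f η ^ 2, h4, h5]
  ring

/-- The quadratic form of the complete graph generator. -/
theorem quad_dirK (f : (V → Option C) → ℝ) :
    f ⬝ᵥ (∑ p : V × V, (rhoQ V (Option C) (Equiv.swap p.1 p.2) - 1)).mulVec f = -(dirK f) / 2 := by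
  rw [Matrix.sum_mulVec, dotProduct_sum, Fintype.sum_prod_type]
  unfold dirK
  rw [neg_div, Finset.sum_div, ← Finset.sum_neg_distrib]
  refine Finset.sum_congr rfl fun x _ => ?_
  rw [Finset.sum_div, ← Finset.sum_neg_distrib]
  refine Finset.sum_congr rfl fun y _ => ?_
  rw [Matrix.sub_mulVec, Matrix.one_mulVec, dotProduct_sub]
  unfold dotProduct
  simp only [rhoQ_mulVec]
  have h1 : ∑ η : V → Option C, (f η - f fun z => η (Equiv.swap x y z)) ^ 2 =
      2 * ∑ η, f η * f η - 2 * ∑ η : V → Option C, f η * f (fun z => η (Equiv.swap x y z)) := by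
    have e1 := sum_comp_swap x y (fun η : V → Option C => f η * f η)
    have e2 : ∀ η : V → Option C, (f η - f fun z => η (Equiv.swap x y z)) ^ 2 =
        f η * f η + f (fun z => η (Equiv.swap x y z)) * f (fun z => η (Equiv.swap x y z)) -
          2 * (f η * f (fun z => η (Equiv.swap x y z))) := fun η => by ring
    rw [Finset.sum_congr rfl fun η _ => e2 η, Finset.sum_sub_distrib, Finset.sum_add_distrib, e1,
      ← Finset.mul_sum]
    ring
  rw [h1]
  ring

/-- The main operator inequality. -/
theorem casimir_le (f : (V → Option C) → ℝ) :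
    f ⬝ᵥ (∑ p : V × V, (rhoQ V (Option C) (Equiv.swap p.1 p.2) - 1)).mulVec f ≤
      2 * (1 + Fintype.card V / (Fintype.card C + 1 : ℝ)) * (f ⬝ᵥ (numX V C).mulVec f) -
        2 * (Fintype.card V / (Fintype.card C + 1 : ℝ)) * ∑ η, (nCol η : ℝ) * f η ^ 2 := by
  set m : ℝ := (Fintype.card V : ℝ) with hm
  set p : ℝ := (Fintype.card C : ℝ) with hp
  have hp0 : 0 ≤ p := by rw [hp]; positivity
  have hm0 : 0 ≤ m := by rw [hm]; positivity
  set D : Matrix (V → Option C) (V → Option C) ℝ :=
    ∑ p : V × V, (rhoQ V (Option C) (Equiv.swap p.1 p.2) - 1) with hD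
  set W : Matrix (V → Option C) (V → Option C) ℝ := (2 * (1 + m / (p + 1))) • numX V C -
    (2 * (m / (p + 1))) • diagonal (fun η => (nCol η : ℝ)) - D with hW
  have hWq : ∀ g : (V → Option C) → ℝ, g ⬝ᵥ W.mulVec g = 2 * (1 + m / (p + 1)) *
      (g ⬝ᵥ (numX V C).mulVec g) - 2 * (m / (p + 1)) * ∑ η, (nCol η : ℝ) * g η ^ 2 -
        g ⬝ᵥ D.mulVec g := by
    intro g
    rw [hW, Matrix.sub_mulVec, Matrix.sub_mulVec, dotProduct_sub, dotProduct_sub,
      Matrix.smul_mulVec, Matrix.smul_mulVec, dotProduct_smul, dotProduct_smul, smul_eq_mul,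
      smul_eq_mul]
    congr 2
    congr 1
    unfold dotProduct
    refine Finset.sum_congr rfl fun η _ => ?_
    rw [Matrix.mulVec_diagonal]; ring
  have hDdiag : D * diagonal (fun η : V → Option C => (nCol η : ℝ)) =
      diagonal (fun η : V → Option C => (nCol η : ℝ)) * D := by
    rw [hD, Finset.sum_mul, Finset.mul_sum]
    refine Finset.sum_congr rfl fun q _ => ?_
    rw [Matrix.sub_mul, Matrix.mul_sub, rhoQ_diag (fun n => (n : ℝ)), Matrix.one_mul,
      Matrix.mul_one]
  have hWdiag : W * diagonal (fun η : V → Option C => (nCol η : ℝ)) =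
      diagonal (fun η : V → Option C => (nCol η : ℝ)) * W := by
    rw [hW, Matrix.sub_mul, Matrix.sub_mul, Matrix.mul_sub, Matrix.mul_sub, Matrix.smul_mul,
      Matrix.smul_mul, Matrix.mul_smul, Matrix.mul_smul, hDdiag, numX_diag (fun n => (n : ℝ))]
  have key := quad_sector (W := W) (n := nCol) (fun η ζ hne => by
    have h1 := congrFun (congrFun hWdiag η) ζ
    rw [Matrix.mul_diagonal, Matrix.diagonal_mul] at h1
    have h2 : W η ζ * ((nCol ζ : ℝ) - nCol η) = 0 := by linarith
    rcases mul_eq_zero.mp h2 with h | h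
    · exact h
    · exfalso
      apply hne
      have : (nCol ζ : ℝ) = nCol η := by linarith
      exact_mod_cast this.symm) (fun k g hg => ?_) f
  · rw [hWq] at key
    linarith
  · rw [hWq]
    set S := ∑ η, g η ^ 2 with hS
    have hS0 : 0 ≤ S := Finset.sum_nonneg fun _ _ => sq_nonneg _
    have hlev : ∀ u : ℕ → ℝ, ∑ η, u (nCol η) * g η ^ 2 = u k * S := by
      intro u
      rw [hS, Finset.mul_sum]
      refine Finset.sum_congr rfl fun η _ => ?_
      by_cases h : nCol η = k
      · rw [h]
      · rw [hg η h]; ring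
    by_cases hkm : k ≤ Fintype.card V
    swap
    · have hz : g = 0 := by
        funext η
        refine hg η ?_
        have := nCol_le η
        omega
      have e1 : g ⬝ᵥ (numX V C).mulVec g = 0 := by rw [hz]; simp
      have e2 : g ⬝ᵥ D.mulVec g = 0 := by rw [hz]; simp
      have e3 : S = 0 := by rw [hS, hz]; simp
      rw [e1, e2, hlev (fun n => (n : ℝ)), e3]
      simp
    have hkm' : (k : ℝ) ≤ m := by rw [hm]; exact_mod_cast hkm
    have hk0 : (0 : ℝ) ≤ k := Nat.cast_nonneg k
    have h1 : g ⬝ᵥ D.mulVec g ≤ 2 * (g ⬝ᵥ (numX V C).mulVec g) - 2 * (k * (m - k + 1)) * S := by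
      have e1 := quad_dirK g
      have e2 := dirK_ge g
      have e3 := quad_numX g
      have e4 := hlev (fun n => (n : ℝ) * (m - n))
      have e5 := hlev (fun n => (n : ℝ))
      rw [← hD] at e1
      rw [← hm, e4] at e2
      rw [e5] at e3
      rw [e1, e3]
      linarith
    have h2 := quad_numX_nonneg g
    have h3 : (((p + 1) * k - p * m)) * S ≤ g ⬝ᵥ (numX V C).mulVec g := by
      have e1 := quad_numY_nonneg g
      have e3 := quad_numX g
      have e4 := hlev (fun n => p * (m - n))
      have e5 := hlev (fun n => (n : ℝ))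
      rw [← hm, ← hp, e4] at e1
      rw [e5] at e3
      rw [e3]
      linarith
    rw [hlev (fun n => (n : ℝ))]
    set Xg := g ⬝ᵥ (numX V C).mulVec g with hXg
    set w := m / (p + 1) with hw
    have hw0 : 0 ≤ w := by positivity
    have hwm : w * (p + 1) = m := by rw [hw]; field_simp
    have goal1 : 0 ≤ 2 * w * Xg - 2 * w * (k * S) + 2 * (k * (m - k + 1)) * S := by
      by_cases hc : (k : ℝ) ≤ p * w
      · have h4 : w * k ≤ k * (m - k + 1) := by
          have : w ≤ m - k + 1 := by nlinarith
          nlinarith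
        have h5 : 0 ≤ 2 * w * Xg := by positivity
        nlinarith [mul_le_mul_of_nonneg_right h4 hS0]
      · push Not at hc
        have h4 : 2 * w * ((((p + 1) * k - p * m)) * S) ≤ 2 * w * Xg :=
          mul_le_mul_of_nonneg_left h3 (by positivity)
        have h5 : 0 ≤ w * ((p + 1) * k - p * m) - w * k + k * (m - k + 1) := by
          have e1 : w * ((p + 1) * k - p * m) = m * k - p * m * w := by
            have : w * ((p + 1) * k - p * m) = (w * (p + 1)) * k - p * m * w := by ring
            rw [this, hwm]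
          rw [e1]
          nlinarith [mul_nonneg (sub_nonneg.mpr hc.le) (sub_nonneg.mpr hkm')]
        nlinarith [mul_nonneg h5 hS0]
    linarith

end Pool.Agent.Stirring
end
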