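import Pool.Agent.Lib.MP_6c3d62_pr.Mg.G087
import Pool.Agent.Lib.MP_6c3d62_pr.Mg.G040
import Pool.Agent.Lib.MP_6c3d62_pr.Mg.G086
import Pool.Agent.Lib.MP_6c3d62_pr.Trotter

section

/-! Consequences of the exponential moment bound. -/

open Finset

set_option linter.unusedSectionVars false

namespace Pool.Agent.Stirring

variable {d L : ℕ} [NeZero L]

/-- The final constant. -/
noncomputable def cf (d : ℕ) : ℝ := ((d : ℝ) + 1 + cs d) / Real.log 2

theorem cf_pos {d : ℕ} (hd : 1 ≤ d) : 0 < cf d := by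
  unfold cf
  have h1 := cs_pos hd
  have h2 := Real.log_pos (show (1 : ℝ) < 2 by norm_num)
  positivity

theorem log_bound (hd : 1 ≤ d) (hL : 2 ≤ L) {t : ℝ} (ht : 1 ≤ t) :
    Real.log ((L : ℝ) ^ d + 1) + cs d * t ^ (-((d : ℝ) / 2)) * (L : ℝ) ^ d ≤
      cf d * ((L : ℝ) ^ d * t ^ (-((d : ℝ) / 2)) + Real.log L) * Real.log 2 := by
  have hL' : (2 : ℝ) ≤ L := by exact_mod_cast hL
  have hlog2 := Real.log_pos (show (1 : ℝ) < 2 by norm_num)
  have hlogL : 0 < Real.log L := Real.log_pos (by linarith)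
  have hcs := cs_pos hd
  have h1 : Real.log ((L : ℝ) ^ d + 1) ≤ ((d : ℝ) + 1) * Real.log L := by
    have h2 : ((d : ℝ) + 1) * Real.log L = Real.log ((L : ℝ) ^ (d + 1)) := by
      rw [Real.log_pow]; push_cast; ring
    rw [h2]
    refine Real.log_le_log (by positivity) ?_
    have h3 : (1 : ℝ) ≤ (L : ℝ) ^ d := one_le_pow₀ (by linarith)
    rw [pow_succ]
    nlinarith
  have ht0 : 0 ≤ t ^ (-((d : ℝ) / 2)) := Real.rpow_nonneg (by linarith) _
  have h4 : cf d * Real.log 2 = (d : ℝ) + 1 + cs d := by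
    unfold cf
    field_simp
  have h5 : cf d * ((L : ℝ) ^ d * t ^ (-((d : ℝ) / 2)) + Real.log L) * Real.log 2 =
      ((d : ℝ) + 1 + cs d) * ((L : ℝ) ^ d * t ^ (-((d : ℝ) / 2)) + Real.log L) := by
    rw [← h4]; ring
  rw [h5]
  have h6 : 0 ≤ (L : ℝ) ^ d * t ^ (-((d : ℝ) / 2)) := by positivity
  have h7 : 0 ≤ ((d : ℝ) + 1) * ((L : ℝ) ^ d * t ^ (-((d : ℝ) / 2))) := by positivity
  have h8 : 0 ≤ cs d * Real.log L := by positivity
  nlinarith

theorem expect_numCycles_final (hd : 1 ≤ d) (hL : 2 ≤ L) {t : ℝ} (ht : 1 ≤ t) :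
    expect d L t (fun σ => (numCycles σ : ℝ)) ≤
      cf d * ((L : ℝ) ^ d * t ^ (-((d : ℝ) / 2)) + Real.log L) := by
  have hlog2 := Real.log_pos (show (1 : ℝ) < 2 by norm_num)
  have h1 := (expect_numCycles_sharp (L := L) hd hL ht).trans (log_bound hd hL ht)
  exact le_of_mul_le_mul_right h1 hlog2

theorem expect_inv_card_final (hd : 1 ≤ d) (hL : 2 ≤ L) {t : ℝ} (ht : 1 ≤ t)
    (x : Fin d → ZMod L) :
    expect d L t (fun σ => ((cyc σ x).card : ℝ)⁻¹) ≤
      cf d * (t ^ (-((d : ℝ) / 2)) + Real.log L / (L : ℝ) ^ d) := by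
  have hL' : (0 : ℝ) < L := by exact_mod_cast (by omega : 0 < L)
  have h1 := expect_inv_card_cyc (d := d) (L := L) t x
  have h2 := expect_numCycles_final (L := L) hd hL ht
  rw [← h1] at h2
  have h3 : (L : ℝ) ^ d * (cf d * (t ^ (-((d : ℝ) / 2)) + Real.log L / (L : ℝ) ^ d)) =
      cf d * ((L : ℝ) ^ d * t ^ (-((d : ℝ) / 2)) + Real.log L) := by
    field_simp
  rw [← h3] at h2
  exact le_of_mul_le_mul_left h2 (by positivity)

theorem expect_mono {t : ℝ} (ht : 0 ≤ t) {f g : Equiv.Perm (Fin d → ZMod L) → ℝ}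
    (h : ∀ σ, f σ ≤ g σ) : expect d L t f ≤ expect d L t g := by
  rw [expect_eq, expect_eq]
  exact E_mono (fun _ => ht) _ h

theorem expect_smul (t r : ℝ) (f : Equiv.Perm (Fin d → ZMod L) → ℝ) :
    expect d L t (fun σ => r * f σ) = r * expect d L t f := by
  rw [expect_eq, expect_eq, E_smul]

theorem expect_const (t r : ℝ) : expect d L t (fun _ => r) = r := by
  rw [expect_eq, E_const]

theorem prob_card_le_final (hd : 1 ≤ d) (hL : 2 ≤ L) {t : ℝ} (ht : 1 ≤ t)
    (x : Fin d → ZMod L) (K : ℕ) :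
    expect d L t (fun σ => if (cyc σ x).card ≤ K then (1 : ℝ) else 0) ≤
      cf d * K * (t ^ (-((d : ℝ) / 2)) + Real.log L / (L : ℝ) ^ d) := by
  have h1 : expect d L t (fun σ => if (cyc σ x).card ≤ K then (1 : ℝ) else 0) ≤
      expect d L t (fun σ => (K : ℝ) * ((cyc σ x).card : ℝ)⁻¹) := by
    refine expect_mono (by linarith) fun σ => ?_
    have hpos : (0 : ℝ) < (cyc σ x).card := by exact_mod_cast card_cyc_pos σ x
    split_ifs with h
    · rw [← div_eq_mul_inv, le_div_iff₀ hpos, one_mul]
      exact_mod_cast h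
    · positivity
  rw [expect_smul] at h1
  refine h1.trans ?_
  calc (K : ℝ) * expect d L t (fun σ => ((cyc σ x).card : ℝ)⁻¹)
      ≤ K * (cf d * (t ^ (-((d : ℝ) / 2)) + Real.log L / (L : ℝ) ^ d)) :=
        mul_le_mul_of_nonneg_left (expect_inv_card_final hd hL ht x) (Nat.cast_nonneg _)
    _ = _ := by ring

/-- Exponential tail for the number of cycles. -/
theorem prob_numCycles_ge (hd : 1 ≤ d) (hL : 2 ≤ L) {t : ℝ} (ht : 1 ≤ t) (s : ℝ) :
    expect d L t (fun σ => if cf d * ((L : ℝ) ^ d * t ^ (-((d : ℝ) / 2)) + Real.log L) + s ≤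
      (numCycles σ : ℝ) then (1 : ℝ) else 0) ≤ (2 : ℝ) ^ (-s) := by
  set B := cf d * ((L : ℝ) ^ d * t ^ (-((d : ℝ) / 2)) + Real.log L) with hB
  have h1 : expect d L t (fun σ => if B + s ≤ (numCycles σ : ℝ) then (1 : ℝ) else 0) ≤
      expect d L t (fun σ => (2 : ℝ) ^ (-(B + s)) * fixSets σ) := by
    refine expect_mono (by linarith) fun σ => ?_
    rw [fixSets_eq_two_pow]
    split_ifs with h
    · rw [← Real.rpow_natCast, ← Real.rpow_add (by norm_num)]
      exact Real.one_le_rpow (by norm_num) (by linarith)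
    · positivity
  rw [expect_smul] at h1
  refine h1.trans ?_
  have hE : 0 < expect d L t fixSets := by
    have h2 := expect_mono (d := d) (L := L) (t := t) (by linarith) (f := fun _ => 1) (g := fixSets)
      (fun σ => by rw [fixSets_eq_two_pow]; exact one_le_pow₀ (by norm_num))
    rw [expect_const] at h2
    linarith
  have h3 : expect d L t fixSets ≤ (2 : ℝ) ^ B := by
    rw [Real.rpow_def_of_pos (by norm_num), ← Real.log_le_iff_le_exp hE, mul_comm]
    exact (log_expect_fixSets_le hd hL ht).trans (log_bound hd hL ht)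
  calc (2 : ℝ) ^ (-(B + s)) * expect d L t fixSets ≤ (2 : ℝ) ^ (-(B + s)) * (2 : ℝ) ^ B :=
        mul_le_mul_of_nonneg_left h3 (by positivity)
    _ = (2 : ℝ) ^ (-s) := by
        rw [← Real.rpow_add (by norm_num)]
        congr 1; ring

end Pool.Agent.Stirring
end

section

/-! Lower bound for the return probability. -/

open Finset Matrix

set_option linter.unusedSectionVars false
set_option linter.style.haveILetI false

namespace Pool.Agent.Stirring

section General

variable {κ : Type*} [Fintype κ] [DecidableEq κ]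

theorem quad_exp_ge {A : Matrix κ κ ℝ} (hA : A.IsSymm) (φ : κ → ℝ) (hφ : 0 < φ ⬝ᵥ φ) :
    (φ ⬝ᵥ φ) * Real.exp ((φ ⬝ᵥ A.mulVec φ) / (φ ⬝ᵥ φ)) ≤ φ ⬝ᵥ (NormedSpace.exp A).mulVec φ := by
  obtain ⟨U, d, h1, h2, rfl⟩ := exists_orth_diag hA
  rw [exp_orth_conj h1, exp_diag_real]
  set ψ : κ → ℝ := Uᵀ.mulVec φ with hψ
  have hq : ∀ e : κ → ℝ, φ ⬝ᵥ (U * diagonal e * Uᵀ).mulVec φ = ∑ j, ψ j ^ 2 * e j := by
    intro e
    rw [Matrix.mul_assoc, ← Matrix.mulVec_mulVec, ← Matrix.mulVec_mulVec, ← hψ,
      Matrix.dotProduct_mulVec, ← Matrix.mulVec_transpose, ← hψ]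
    unfold dotProduct
    refine Finset.sum_congr rfl fun j _ => ?_
    rw [Matrix.mulVec_diagonal]; ring
  have hn : φ ⬝ᵥ φ = ∑ j, ψ j ^ 2 := by
    have := hq (fun _ => 1)
    simp only [mul_one] at this
    rw [← this]
    have h3 : diagonal (fun _ : κ => (1 : ℝ)) = 1 := Matrix.diagonal_one
    rw [h3, Matrix.mul_one, h1, Matrix.one_mulVec]
  rw [hq, hq]
  set N := φ ⬝ᵥ φ with hN
  have hw : ∑ j, ψ j ^ 2 / N = 1 := by
    rw [← Finset.sum_div, ← hn, div_self hφ.ne']
  have := convexOn_exp.map_sum_le (t := Finset.univ) (w := fun j => ψ j ^ 2 / N)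
    (p := d) (fun j _ => by positivity) hw (fun j _ => Set.mem_univ _)
  simp only [smul_eq_mul] at this
  have e1 : ∑ j, ψ j ^ 2 / N * d j = (∑ j, ψ j ^ 2 * d j) / N := by
    rw [Finset.sum_div]
    refine Finset.sum_congr rfl fun j _ => by ring
  have e2 : ∑ j, ψ j ^ 2 / N * Real.exp (d j) = (∑ j, ψ j ^ 2 * Real.exp (d j)) / N := by
    rw [Finset.sum_div]
    refine Finset.sum_congr rfl fun j _ => by ring
  rw [e1, e2, le_div_iff₀ hφ] at this
  linarith

theorem exp_entry_le {A : Matrix κ κ ℝ} (hA : A.IsSymm) (x y : κ) :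
    2 * NormedSpace.exp A x y ≤ NormedSpace.exp A x x + NormedSpace.exp A y y := by
  obtain ⟨U, d, h1, h2, rfl⟩ := exists_orth_diag hA
  rw [exp_orth_conj h1, exp_diag_real]
  have hentry : ∀ i j : κ, (U * diagonal (fun k => Real.exp (d k)) * Uᵀ) i j =
      ∑ k, U i k * U j k * Real.exp (d k) := by
    intro i j
    rw [Matrix.mul_apply]
    refine Finset.sum_congr rfl fun k _ => ?_
    rw [Matrix.mul_diagonal, Matrix.transpose_apply]; ring
  rw [hentry, hentry, hentry, Finset.mul_sum, ← Finset.sum_add_distrib]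
  refine Finset.sum_le_sum fun k _ => ?_
  have := Real.exp_pos (d k)
  nlinarith [sq_nonneg (U x k - U y k)]

variable {α : Type*} [Fintype α] {G : Type*} [Group G] [Fintype G] [DecidableEq G]

theorem E_trace_mul (c : α → ℝ) (g : α → G) (ρ : G →* Matrix κ κ ℝ) (M : Matrix κ κ ℝ) :
    E c g (fun σ => trace (M * ρ σ)) =
      trace (M * NormedSpace.exp (∑ a, c a • (ρ (g a) - 1))) := by
  have h1 : ∑ a, c a • (ρ (g a) - 1) =
      (∑ a, c a • ρ (g a)) + (-(∑ a, c a)) • (1 : Matrix κ κ ℝ) := by
    simp only [smul_sub, Finset.sum_sub_distrib, ← Finset.sum_smul]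
    rw [neg_smul, sub_eq_add_neg]
  have h2 : NormedSpace.exp ((-(∑ a, c a)) • (1 : Matrix κ κ ℝ)) =
      Real.exp (-(∑ a, c a)) • (1 : Matrix κ κ ℝ) := by
    have : (-(∑ a, c a)) • (1 : Matrix κ κ ℝ) = diagonal (fun _ => -(∑ a, c a)) := by
      ext i j; simp [Matrix.one_apply, diagonal_apply]
    rw [this, exp_diag_real]
    ext i j
    simp [Matrix.one_apply, diagonal_apply]
  rw [h1, Matrix.exp_add_of_commute _ _ (Commute.smul_right (Commute.one_right _) _), h2,
    Matrix.mul_smul, mul_one, Matrix.mul_smul, trace_smul, smul_eq_mul,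
    ← (hasSum_trace_mul_exp M _).tsum_eq]
  unfold E Z
  congr 1
  refine tsum_congr fun n => ?_
  rw [wordSum_matrix c g ρ n M]

end General

section Walk

variable {V : Type*} [Fintype V] [DecidableEq V] {α : Type*} [Fintype α]

theorem quad_form_vertex (φ : V → ℝ) (x y : V) (hxy : x ≠ y) :
    φ ⬝ᵥ (permMat V (Equiv.swap x y) - 1).mulVec φ = -(φ x - φ y) ^ 2 := by
  rw [Matrix.sub_mulVec, Matrix.one_mulVec, dotProduct_sub]
  have h1 : φ ⬝ᵥ (permMat V (Equiv.swap x y)).mulVec φ = ∑ z, φ (Equiv.swap x y z) * φ z := by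
    unfold dotProduct
    simp only [Matrix.mulVec, dotProduct, permMat_apply, Finset.mul_sum, ite_mul, one_mul, zero_mul,
      mul_ite, mul_zero]
    rw [Finset.sum_comm]
    refine Finset.sum_congr rfl fun B _ => ?_
    rw [Finset.sum_ite_eq']
    simp
  have h2 : φ ⬝ᵥ φ = ∑ z, φ z * φ z := rfl
  rw [h1, h2, ← Finset.sum_sub_distrib]
  have h3 : ∑ z, (φ (Equiv.swap x y z) * φ z - φ z * φ z) =
      ∑ z ∈ {x, y}, (φ (Equiv.swap x y z) * φ z - φ z * φ z) := by
    refine (Finset.sum_subset (Finset.subset_univ _) ?_).symm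
    intro z _ hz
    simp only [Finset.mem_insert, Finset.mem_singleton, not_or] at hz
    rw [Equiv.swap_apply_of_ne_of_ne hz.1 hz.2, sub_self]
  rw [h3, Finset.sum_pair hxy, Equiv.swap_apply_left, Equiv.swap_apply_right]
  ring

/-- Lower bound for the return probability by a test function. -/
theorem return_ge (c : α → ℝ) (g : α → Equiv.Perm V) (u v : α → V) (hg : ∀ a, g a = Equiv.swap (u a) (v a))
    (huv : ∀ a, u a ≠ v a) (p : ℝ)
    (hp : ∀ x, E c g (fun σ => if x = σ x then (1 : ℝ) else 0) = p) (φ : V → ℝ)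
    (hφ0 : ∀ x, 0 ≤ φ x) (hφ : 0 < ∑ x, φ x ^ 2) :
    (∑ x, φ x ^ 2) * Real.exp (-(∑ a, c a * (φ (u a) - φ (v a)) ^ 2) / ∑ x, φ x ^ 2) ≤
      p * (∑ x, φ x) ^ 2 := by
  set A : Matrix V V ℝ := ∑ a, c a • ((permMat V) (g a) - 1) with hA
  have hsymm : A.IsSymm := by
    rw [Matrix.IsSymm, hA, Matrix.transpose_sum]
    refine Finset.sum_congr rfl fun a _ => ?_
    rw [Matrix.transpose_smul, Matrix.transpose_sub, Matrix.transpose_one]
    have h : (permMat V (g a)).IsSymm := by
      refine permMat_swap_isSymm_of_involutive ?_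
      rw [hg, Equiv.swap_mul_self]
    rw [h.eq]
  have hsq : φ ⬝ᵥ φ = ∑ x, φ x ^ 2 := by
    unfold dotProduct
    exact Finset.sum_congr rfl fun x _ => (sq (φ x)).symm
  have hquad : φ ⬝ᵥ A.mulVec φ = -(∑ a, c a * (φ (u a) - φ (v a)) ^ 2) := by
    rw [hA, Matrix.sum_mulVec, dotProduct_sum, ← Finset.sum_neg_distrib]
    refine Finset.sum_congr rfl fun a _ => ?_
    rw [Matrix.smul_mulVec, dotProduct_smul, hg, quad_form_vertex _ _ _ (huv a), smul_eq_mul]
    ring
  have hdiag : ∀ x, NormedSpace.exp A x x = p := by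
    intro x
    rw [← hp x]
    have h1 := E_trace_mul c g (permMat V) (Matrix.single x x (1 : ℝ))
    have h2 : ∀ R : Matrix V V ℝ, trace (Matrix.single x x (1 : ℝ) * R) = R x x := by
      intro R
      rw [Matrix.trace_mul_comm]
      simp only [Matrix.trace, diag_apply, Matrix.mul_apply, Matrix.single_apply, mul_ite, mul_one,
        mul_zero]
      rw [Finset.sum_eq_single x]
      · rw [Finset.sum_eq_single x]
        · simp
        · intro b _ hb; rw [if_neg (fun h => hb h.1.symm)]
        · intro h; exact absurd (Finset.mem_univ _) h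
      · intro b _ hb
        exact Finset.sum_eq_zero fun y _ => if_neg (fun h => hb h.2.symm)
      · intro h; exact absurd (Finset.mem_univ _) h
    simp only [h2] at h1
    rw [← h1]
    rfl
  have h1 := quad_exp_ge hsymm φ (by rw [hsq]; exact hφ)
  rw [hsq, hquad] at h1
  refine h1.trans ?_
  have hent : ∀ x y, NormedSpace.exp A x y ≤ p := by
    intro x y
    have := exp_entry_le hsymm x y
    rw [hdiag, hdiag] at this
    linarith
  unfold dotProduct
  simp only [Matrix.mulVec, dotProduct]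
  calc ∑ x, φ x * ∑ y, NormedSpace.exp A x y * φ y
      ≤ ∑ x, φ x * ∑ y, p * φ y := by
        refine Finset.sum_le_sum fun x _ => mul_le_mul_of_nonneg_left ?_ (hφ0 x)
        exact Finset.sum_le_sum fun y _ => mul_le_mul_of_nonneg_right (hent x y) (hφ0 y)
    _ = p * (∑ x, φ x) ^ 2 := by
        rw [← Finset.mul_sum, ← Finset.sum_mul]; ring

end Walk

end Pool.Agent.Stirring
end

section

/-! Time averages of the probability that neighbours are in the same cycle. -/

open Finset

set_option linter.unusedSectionVars false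

namespace Pool.Agent.Stirring

variable {d L : ℕ} [NeZero L]

/-- Probability that `x` and `y` are in the same cycle of `η_L(s)`. -/
noncomputable def sameProb (d L : ℕ) [NeZero L] (s : ℝ) (x y : Fin d → ZMod L) : ℝ :=
  expect d L s fun σ => if σ.SameCycle x y then 1 else 0

/-- Permutation of coordinates. -/
def coordP (d L : ℕ) (π : Equiv.Perm (Fin d)) : Equiv.Perm (Fin d → ZMod L) :=
  Equiv.arrowCongr π (Equiv.refl _)

/-- Permutation of coordinates on edges. -/
def coordE (d L : ℕ) (π : Equiv.Perm (Fin d)) :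
    ((Fin d → ZMod L) × Fin d) ≃ ((Fin d → ZMod L) × Fin d) :=
  Equiv.prodCongr (coordP d L π) π

theorem coordP_single (π : Equiv.Perm (Fin d)) (x : Fin d → ZMod L) (i : Fin d) :
    coordP d L π (x + Pi.single i 1) = coordP d L π x + Pi.single (π i) 1 := by
  ext j
  simp only [coordP, Equiv.arrowCongr_apply, Function.comp_apply, Equiv.refl_apply, Pi.add_apply]
  congr 1
  by_cases h : j = π i
  · subst h; simp
  · have h2 : π.symm j ≠ i := fun h3 => h (by rw [← h3]; simp)
    rw [Pi.single_eq_of_ne h2, Pi.single_eq_of_ne h]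

theorem edgeSwap_coordE (π : Equiv.Perm (Fin d)) (e : (Fin d → ZMod L) × Fin d) :
    edgeSwap d L (coordE d L π e) = coordP d L π * edgeSwap d L e * (coordP d L π)⁻¹ := by
  unfold edgeSwap
  rw [← Equiv.swap_apply_apply, coordP_single]
  rfl

theorem sameProb_conj (s : ℝ) (φ : ((Fin d → ZMod L) × Fin d) ≃ ((Fin d → ZMod L) × Fin d))
    (τ : Equiv.Perm (Fin d → ZMod L))
    (h : ∀ e, edgeSwap d L (φ e) = τ * edgeSwap d L e * τ⁻¹) (x y : Fin d → ZMod L) :
    sameProb d L s (τ x) (τ y) = sameProb d L s x y := by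
  unfold sameProb
  rw [expect_eq, E_conj _ _ φ τ (fun _ => rfl) h, ← expect_eq]
  congr 1
  funext σ
  refine if_congr ?_ rfl rfl
  rw [Equiv.Perm.sameCycle_conj]
  have h1 : ∀ z, τ⁻¹ (τ z) = z := fun z => by
    rw [← Equiv.Perm.mul_apply, inv_mul_cancel, Equiv.Perm.one_apply]
  rw [h1, h1]

theorem sameProb_edge (s : ℝ) (x y : Fin d → ZMod L) (i j : Fin d) :
    sameProb d L s x (x + Pi.single i 1) = sameProb d L s y (y + Pi.single j 1) := by
  have h1 := sameProb_conj s (coordE d L (Equiv.swap i j)) (coordP d L (Equiv.swap i j))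
    (edgeSwap_coordE _) x (x + Pi.single i 1)
  rw [coordP_single, Equiv.swap_apply_left] at h1
  rw [← h1]
  set x' := coordP d L (Equiv.swap i j) x
  have h2 := sameProb_conj s (transE d L (y - x')) (trans d L (y - x')) (edgeSwap_transE _)
    x' (x' + Pi.single j 1)
  rw [← h2]
  have h3 : trans d L (y - x') x' = y := by simp [trans]
  have h4 : trans d L (y - x') (x' + Pi.single j 1) = y + Pi.single j 1 := by
    simp only [trans, Equiv.coe_addRight]
    abel
  rw [h3, h4]

theorem edge_ne (hL : 2 ≤ L) (x : Fin d → ZMod L) (i : Fin d) : x ≠ x + Pi.single i 1 := by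
  intro h
  have h1 := congrFun h i
  simp only [Pi.add_apply, Pi.single_eq_same] at h1
  have h2 : (1 : ZMod L) = 0 := by
    have := h1.symm
    simpa using this
  have : Fact (1 < L) := ⟨by omega⟩
  exact one_ne_zero h2

theorem hasDerivAt_numCycles (hL : 2 ≤ L) (s : ℝ) (x : Fin d → ZMod L) (i : Fin d) :
    HasDerivAt (fun u : ℝ => expect d L u (fun σ => (numCycles σ : ℝ)))
      (d * (L : ℝ) ^ d * (2 * sameProb d L s x (x + Pi.single i 1) - 1)) s := by
  classical
  have h0 : (fun u : ℝ => expect d L u (fun σ => (numCycles σ : ℝ))) = fun u =>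
      E (fun _ : (Fin d → ZMod L) × Fin d => u) (edgeSwap d L) (fun σ => (numCycles σ : ℝ)) := by
    funext u; exact expect_eq u _
  rw [h0]
  refine (hasDerivAt_E (edgeSwap d L) (fun σ => (numCycles σ : ℝ)) s).congr_deriv ?_
  have h1 : ∀ e ∈ (Finset.univ : Finset ((Fin d → ZMod L) × Fin d)),
      (E (fun _ : (Fin d → ZMod L) × Fin d => s) (edgeSwap d L)
        (fun σ => (numCycles (edgeSwap d L e * σ) : ℝ)) -
      E (fun _ : (Fin d → ZMod L) × Fin d => s) (edgeSwap d L) (fun σ => (numCycles σ : ℝ))) =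
      2 * sameProb d L s x (x + Pi.single i 1) - 1 := by
    intro e _
    have h2 : (fun σ : Equiv.Perm (Fin d → ZMod L) => (numCycles (edgeSwap d L e * σ) : ℝ)) =
        fun σ => (numCycles σ : ℝ) +
          (2 * (if σ.SameCycle e.1 (e.1 + Pi.single e.2 1) then 1 else 0) + (-1)) := by
      funext σ
      have := numCycles_swap_sub (edge_ne hL e.1 e.2) σ
      unfold edgeSwap
      linarith
    rw [h2, E_add, E_add, E_smul, E_const, ← expect_eq, ← expect_eq]
    have h3 : expect d L s (fun σ => if σ.SameCycle e.1 (e.1 + Pi.single e.2 1) then (1 : ℝ) else 0)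
        = sameProb d L s x (x + Pi.single i 1) := by
      rw [← sameProb_edge s e.1 x e.2 i]; rfl
    rw [h3]; ring
  rw [Finset.sum_congr rfl h1, Finset.sum_const, Finset.card_univ, nsmul_eq_mul, card_letters]

theorem continuous_sameProb (x y : Fin d → ZMod L) :
    Continuous fun s => sameProb d L s x y := by
  classical
  have h0 : (fun s : ℝ => sameProb d L s x y) = fun u =>
      E (fun _ : (Fin d → ZMod L) × Fin d => u) (edgeSwap d L)
        (fun σ => if σ.SameCycle x y then (1 : ℝ) else 0) := by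
    funext u; exact expect_eq u _
  rw [h0]
  exact continuous_E _ _

/-- The window identity. -/
theorem window_identity (hd : 1 ≤ d) (hL : 2 ≤ L) (a b : ℝ) (x : Fin d → ZMod L) (i : Fin d) :
    ∫ s in a..b, (2 * sameProb d L s x (x + Pi.single i 1) - 1) =
      (expect d L b (fun σ => (numCycles σ : ℝ)) - expect d L a (fun σ => (numCycles σ : ℝ))) /
        (d * (L : ℝ) ^ d) := by
  have hpos : (0 : ℝ) < d * (L : ℝ) ^ d := by
    have h1 : (0 : ℝ) < d := by exact_mod_cast hd
    have h2 : (0 : ℝ) < L := by exact_mod_cast (by omega : 0 < L)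
    positivity
  have h := intervalIntegral.integral_eq_sub_of_hasDerivAt
    (f := fun u : ℝ => expect d L u (fun σ => (numCycles σ : ℝ)))
    (f' := fun s => d * (L : ℝ) ^ d * (2 * sameProb d L s x (x + Pi.single i 1) - 1))
    (a := a) (b := b) (fun s _ => hasDerivAt_numCycles hL s x i)
    (Continuous.intervalIntegrable (by
      have := continuous_sameProb (d := d) (L := L) x (x + Pi.single i 1)
      fun_prop) _ _)
  rw [intervalIntegral.integral_const_mul] at h
  rw [eq_div_iff hpos.ne', mul_comm]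
  exact h

end Pool.Agent.Stirring
end

section

/-! Jensen's inequality for the exclusion path measure with a potential. -/

open Finset Matrix Filter Topology

set_option linter.unusedSectionVars false

namespace Pool.Agent.Stirring

section Words

variable {α : Type*} [Fintype α]

theorem wordSum_succ_last (c : α → ℝ) (F : List α → ℝ) (n : ℕ) :
    wordSum c F (n + 1) = ∑ a, c a * wordSum c (fun l => F (l ++ [a])) n := by
  induction n generalizing F with
  | zero => rw [wordSum_succ]; simp [wordSum_zero]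
  | succ n ih =>
    rw [wordSum_succ]
    have h1 : ∀ a, wordSum c (fun l => F (a :: l)) (n + 1) =
        ∑ b, c b * wordSum c (fun l => F (a :: (l ++ [b]))) n := fun a => ih _
    simp only [h1]
    have h2 : ∀ b, wordSum c (fun l => F (l ++ [b])) (n + 1) =
        ∑ a, c a * wordSum c (fun l => F (a :: (l ++ [b]))) n := by
      intro b
      rw [wordSum_succ]
      rfl
    simp only [h2, Finset.mul_sum]
    rw [Finset.sum_comm]
    refine Finset.sum_congr rfl fun a _ => Finset.sum_congr rfl fun b _ => by ring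

theorem wordSum_rotate_one (c : α → ℝ) (F : List α → ℝ) (n : ℕ) :
    wordSum c (fun l => F (l.rotate 1)) n = wordSum c F n := by
  cases n with
  | zero => simp [wordSum_zero]
  | succ n =>
    rw [wordSum_succ, wordSum_succ_last c F]
    refine Finset.sum_congr rfl fun a _ => ?_
    simp only [List.rotate_cons_succ, List.rotate_zero]

theorem wordSum_rotate (c : α → ℝ) (F : List α → ℝ) (n j : ℕ) :
    wordSum c (fun l => F (l.rotate j)) n = wordSum c F n := by
  induction j with
  | zero => simp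
  | succ j ih =>
    rw [← ih, ← wordSum_rotate_one c (fun l => F (l.rotate j))]
    congr 1
    funext l
    rw [List.rotate_rotate, add_comm]

/-- Length restricted congruence. -/
theorem wordSum_congr_length (c : α → ℝ) {F G : List α → ℝ} (n : ℕ)
    (h : ∀ l : List α, l.length = n → F l = G l) : wordSum c F n = wordSum c G n := by
  unfold wordSum
  refine Finset.sum_congr rfl fun w _ => ?_
  rw [h _ (List.length_ofFn)]

/-- General matrix letters. -/
theorem wordSum_matrix' {κ : Type*} [Fintype κ] [DecidableEq κ] (c : α → ℝ)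
    (B : α → Matrix κ κ ℝ) (n : ℕ) (M : Matrix κ κ ℝ) :
    wordSum c (fun l => trace (M * (l.map B).prod)) n = trace (M * (∑ a, c a • B a) ^ n) := by
  induction n generalizing M with
  | zero => simp [wordSum_zero]
  | succ n ih =>
    rw [wordSum_succ]
    have h : ∀ a, wordSum c (fun l => trace (M * ((a :: l).map B).prod)) n =
        trace (M * B a * (∑ a, c a • B a) ^ n) := by
      intro a
      rw [← ih (M * B a)]
      simp [mul_assoc]
    simp only [h]
    rw [pow_succ', ← mul_assoc, Matrix.mul_sum, Matrix.sum_mul, trace_sum]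
    refine Finset.sum_congr rfl fun a _ => ?_
    rw [Matrix.mul_smul, Matrix.smul_mul, trace_smul, smul_eq_mul]

/-- Jensen's inequality for words. -/
theorem exp_wordSum_le {p : α → ℝ} (hp : ∀ a, 0 ≤ p a) (hp1 : ∑ a, p a = 1) (F : List α → ℝ)
    (n : ℕ) : Real.exp (wordSum p F n) ≤ wordSum p (fun l => Real.exp (F l)) n := by
  set m := wordSum p F n with hm
  have key : ∀ x : ℝ, Real.exp m * (1 + (x + -m)) ≤ Real.exp x := by
    intro x
    have h1 : Real.exp x = Real.exp m * Real.exp (x + -m) := by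
      rw [← Real.exp_add]; ring_nf
    rw [h1]
    refine mul_le_mul_of_nonneg_left ?_ (Real.exp_pos _).le
    have := Real.add_one_le_exp (x + -m)
    linarith
  have h2 := wordSum_mono hp (F := fun l => Real.exp m * (1 + (F l + -m)))
    (G := fun l => Real.exp (F l)) (fun l => key (F l)) n
  rw [wordSum_smul, wordSum_add, wordSum_const, wordSum_add, wordSum_const, hp1, one_pow] at h2
  rw [← hm] at h2
  simpa using h2

end Words

section Law

variable {α : Type*} [Fintype α] {G : Type*} [Group G] [Fintype G] [DecidableEq G]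
variable {κ : Type*} [Fintype κ] [DecidableEq κ]

/-- The exponential of the generator in a representation is the average over the law. -/
theorem exp_gen_eq_sum_law (c : α → ℝ) (g : α → G) (ρ : G →* Matrix κ κ ℝ) :
    NormedSpace.exp (∑ a, c a • (ρ (g a) - 1)) = ∑ σ, law c g σ • ρ σ := by
  ext i j
  have h1 := E_trace_mul c g ρ (Matrix.single j i (1 : ℝ))
  rw [trace_single_mul'] at h1
  rw [E_eq_sum] at h1
  rw [← h1, Matrix.sum_apply]
  refine Finset.sum_congr rfl fun σ _ => ?_
  rw [trace_single_mul', Matrix.smul_apply, smul_eq_mul]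

theorem smul_gen (c : α → ℝ) (g : α → G) (ρ : G →* Matrix κ κ ℝ) (r : ℝ) :
    ∑ a, (r * c a) • (ρ (g a) - 1) = r • ∑ a, c a • (ρ (g a) - 1) := by
  rw [Finset.smul_sum]
  exact Finset.sum_congr rfl fun a _ => by rw [smul_smul]

theorem wordSum_law (c : α → ℝ) (g : α → G) {m : ℕ} (hm : 0 < m) (F : G → ℝ) :
    wordSum (law (fun a => (m : ℝ)⁻¹ * c a) g) (fun l => F l.prod) m = E c g F := by
  have h0 : (fun l : List G => F l.prod) =
      fun l => trace (fMat F * ((permMat G).comp (regHom G)) (l.map id).prod) := by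
    funext l
    rw [MonoidHom.comp_apply, trace_fMat, List.map_id]
  rw [h0, wordSum_matrix]
  have h1 := exp_gen_eq_sum_law (fun a => (m : ℝ)⁻¹ * c a) g ((permMat G).comp (regHom G))
  simp only [id]
  rw [← h1, smul_gen]
  have hm' : (m : ℝ) ≠ 0 := by exact_mod_cast hm.ne'
  have h2 : NormedSpace.exp ((m : ℝ)⁻¹ • ∑ a, c a • (((permMat G).comp (regHom G)) (g a) - 1)) ^ m =
      NormedSpace.exp (∑ a, c a • (((permMat G).comp (regHom G)) (g a) - 1)) := by
    rw [← Matrix.exp_nsmul, ← Nat.cast_smul_eq_nsmul ℝ, smul_smul, mul_inv_cancel₀ hm', one_smul]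
  rw [h2, exp_gen_eq_sum_law, Matrix.mul_sum, trace_sum, E_eq_sum]
  refine Finset.sum_congr rfl fun σ _ => ?_
  rw [Matrix.mul_smul, trace_smul, smul_eq_mul, MonoidHom.comp_apply, trace_fMat]

end Law

section Path

variable {V : Type*} [Fintype V] [DecidableEq V]

/-- The representation on functions of subsets. -/
noncomputable abbrev rhoS (V : Type*) [Fintype V] [DecidableEq V] :
    Equiv.Perm V →* Matrix (Finset V) (Finset V) ℝ :=
  (permMat (Finset V)).comp (setHom V)

/-- Sum of the potential along the path. -/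
noncomputable def sPot (U : Finset V → ℝ) (l : List (Equiv.Perm V)) (A : Finset V) : ℝ :=
  ∑ j ∈ Finset.range l.length, U (A.map (l.drop (j + 1)).prod.toEmbedding)

theorem sPot_cons (U : Finset V → ℝ) (σ : Equiv.Perm V) (l : List (Equiv.Perm V)) (A : Finset V) :
    sPot U (σ :: l) A = U (A.map l.prod.toEmbedding) + sPot U l A := by
  unfold sPot
  rw [List.length_cons, Finset.sum_range_succ', add_comm]
  simp

theorem path_entry (U : Finset V → ℝ) (l : List (Equiv.Perm V)) (B A : Finset V) :
    ((l.map fun σ => rhoS V σ * diagonal (fun A => Real.exp (U A))).prod) B A =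
      if B = A.map l.prod.toEmbedding then Real.exp (sPot U l A) else 0 := by
  induction l generalizing B with
  | nil =>
    rw [List.map_nil, List.prod_nil, Matrix.one_apply, List.prod_nil]
    have : A.map (1 : Equiv.Perm V).toEmbedding = A := Finset.map_refl
    rw [this]
    simp [sPot]
  | cons σ l ih =>
    rw [List.map_cons, List.prod_cons, Matrix.mul_apply]
    simp only [ih]
    rw [Finset.sum_eq_single (A.map l.prod.toEmbedding)]
    · rw [if_pos rfl, Matrix.mul_diagonal, MonoidHom.comp_apply, permMat_apply, setHom_apply,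
        List.prod_cons, mul_toEmbedding_map, sPot_cons, Real.exp_add]
      split_ifs <;> simp
    · intro C _ hC
      rw [if_neg hC, mul_zero]
    · intro h; exact absurd (Finset.mem_univ _) h

theorem path_trace (U : Finset V → ℝ) (l : List (Equiv.Perm V)) :
    trace ((l.map fun σ => rhoS V σ * diagonal (fun A => Real.exp (U A))).prod) =
      ∑ A ∈ invs l.prod, Real.exp (sPot U l A) := by
  rw [trace]
  simp only [diag_apply, path_entry]
  rw [invs, Finset.sum_filter]
  refine Finset.sum_congr rfl fun A _ => ?_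
  simp only [eq_comm]

/-- Average of a function over the invariant sets. -/
noncomputable def avgI (U : Finset V → ℝ) (τ : Equiv.Perm V) : ℝ :=
  (∑ A ∈ invs τ, U A) / ((invs τ).card : ℝ)

theorem sum_invs_conj (U : Finset V → ℝ) (a b : Equiv.Perm V) :
    ∑ A ∈ invs (a * b), U (A.map b.toEmbedding) = ∑ B ∈ invs (b * a), U B := by
  refine Finset.sum_nbij' (fun A => A.map b.toEmbedding) (fun B => B.map (b⁻¹).toEmbedding) ?_ ?_ ?_
    ?_ ?_
  · intro A hA
    simp only [invs, Finset.mem_filter, Finset.mem_univ, true_and] at hA ⊢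
    rw [← mul_toEmbedding_map, mul_assoc, mul_toEmbedding_map b, hA]
  · intro B hB
    simp only [invs, Finset.mem_filter, Finset.mem_univ, true_and] at hB ⊢
    rw [← mul_toEmbedding_map, mul_assoc, mul_inv_cancel, mul_one]
    conv_rhs => rw [← hB]
    rw [← mul_toEmbedding_map, ← mul_assoc, inv_mul_cancel, one_mul]
  · intro A _
    rw [← mul_toEmbedding_map, inv_mul_cancel]
    exact Finset.map_refl
  · intro B _
    rw [← mul_toEmbedding_map, mul_inv_cancel]
    exact Finset.map_refl
  · intro A _; rfl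

theorem card_invs_comm (a b : Equiv.Perm V) : (invs (a * b)).card = (invs (b * a)).card := by
  have h := sum_invs_conj (fun _ => (1 : ℝ)) a b
  simp only [Finset.sum_const, nsmul_eq_mul, mul_one] at h
  exact_mod_cast h

theorem card_invs_pos (τ : Equiv.Perm V) : (0 : ℝ) < ((invs τ).card : ℝ) := by
  rw [card_invs]; positivity

theorem avg_sPot (U : Finset V → ℝ) (l : List (Equiv.Perm V)) :
    avgI (sPot U l) l.prod = ∑ j ∈ Finset.range l.length, avgI U (l.rotate (j + 1)).prod := by
  unfold avgI sPot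
  rw [Finset.sum_comm, Finset.sum_div]
  refine Finset.sum_congr rfl fun j hj => ?_
  have hj' : j + 1 ≤ l.length := Finset.mem_range.mp hj
  have h1 : l.prod = (l.take (j + 1)).prod * (l.drop (j + 1)).prod := by
    rw [← List.prod_append, List.take_append_drop]
  have h2 : (l.rotate (j + 1)).prod = (l.drop (j + 1)).prod * (l.take (j + 1)).prod := by
    rw [List.rotate_eq_drop_append_take hj', List.prod_append]
  rw [h1, h2, sum_invs_conj, card_invs_comm]

theorem avgI_smul (r : ℝ) (U : Finset V → ℝ) (τ : Equiv.Perm V) :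
    avgI (fun A => r * U A) τ = r * avgI U τ := by
  unfold avgI
  rw [← Finset.mul_sum, mul_div_assoc]

/-- Jensen for the average over invariant sets. -/
theorem jensen_invs (W : Finset V → ℝ) (τ : Equiv.Perm V) :
    Real.exp (Real.log 2 * numCycles τ + avgI W τ) ≤ ∑ A ∈ invs τ, Real.exp (W A) := by
  have hc := card_invs_pos τ
  have h0 : Real.exp (Real.log 2 * numCycles τ) = ((invs τ).card : ℝ) := by
    rw [card_invs, Real.exp_mul, Real.exp_log (by norm_num), Real.rpow_natCast]
    push_cast; rfl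
  set m := avgI W τ with hm
  have hsum : ∑ A ∈ invs τ, W A = ((invs τ).card : ℝ) * m := by
    rw [hm, avgI]; field_simp
  have key : ∀ x : ℝ, Real.exp m * (1 + (x + -m)) ≤ Real.exp x := by
    intro x
    have h1 : Real.exp x = Real.exp m * Real.exp (x + -m) := by
      rw [← Real.exp_add]; ring_nf
    rw [h1]
    refine mul_le_mul_of_nonneg_left ?_ (Real.exp_pos _).le
    have := Real.add_one_le_exp (x + -m)
    linarith
  have h2 : ∑ A ∈ invs τ, Real.exp m * (1 + (W A + -m)) ≤ ∑ A ∈ invs τ, Real.exp (W A) :=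
    Finset.sum_le_sum fun A _ => key (W A)
  rw [← Finset.mul_sum, Finset.sum_add_distrib, Finset.sum_add_distrib, hsum] at h2
  simp only [Finset.sum_const, nsmul_eq_mul, mul_one] at h2
  rw [Real.exp_add, h0, mul_comm]
  refine le_trans (le_of_eq ?_) h2
  ring

variable {α : Type*} [Fintype α]

theorem path_lower {c : α → ℝ} (hc : ∀ a, 0 ≤ c a) (g : α → Equiv.Perm V) (U : Finset V → ℝ)
    {m : ℕ} (hm : 0 < m) :
    Real.exp (Real.log 2 * E c g (fun σ => (numCycles σ : ℝ)) + E c g (avgI U)) ≤
      trace ((NormedSpace.exp ((m : ℝ)⁻¹ • ∑ a, c a • (rhoS V (g a) - 1)) *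
        NormedSpace.exp ((m : ℝ)⁻¹ • diagonal U)) ^ m) := by
  have hm' : (m : ℝ) ≠ 0 := by exact_mod_cast hm.ne'
  set p := law (fun a => (m : ℝ)⁻¹ * c a) g with hp
  have hp0 : ∀ σ, 0 ≤ p σ := law_nonneg (fun a => mul_nonneg (by positivity) (hc a)) g
  have hp1 : ∑ σ, p σ = 1 := law_sum _ _
  set U' : Finset V → ℝ := fun A => (m : ℝ)⁻¹ * U A with hU'
  have h1 : NormedSpace.exp ((m : ℝ)⁻¹ • diagonal U) = diagonal (fun A => Real.exp (U' A)) := by
    have : (m : ℝ)⁻¹ • (diagonal U : Matrix (Finset V) (Finset V) ℝ) = diagonal U' := by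
      ext i j; simp [diagonal_apply, hU']
    rw [this, exp_diag_real]
  have h2 : NormedSpace.exp ((m : ℝ)⁻¹ • ∑ a, c a • (rhoS V (g a) - 1)) *
      NormedSpace.exp ((m : ℝ)⁻¹ • diagonal U) =
      ∑ σ, p σ • (rhoS V σ * diagonal (fun A => Real.exp (U' A))) := by
    rw [h1, ← smul_gen, exp_gen_eq_sum_law, Finset.sum_mul]
    exact Finset.sum_congr rfl fun σ _ => by rw [Matrix.smul_mul]
  have h3 := wordSum_matrix' p (fun σ => rhoS V σ * diagonal (fun A => Real.exp (U' A))) m 1
  simp only [one_mul] at h3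
  rw [h2, ← h3]
  have h4 : wordSum p (fun l => Real.exp (Real.log 2 * numCycles l.prod +
      avgI (sPot U' l) l.prod)) m ≤
      wordSum p (fun l => trace ((l.map fun σ => rhoS V σ *
        diagonal (fun A => Real.exp (U' A))).prod)) m := by
    refine wordSum_mono hp0 (fun l => ?_) m
    rw [path_trace]
    exact jensen_invs _ _
  refine le_trans (le_trans (Real.exp_le_exp.mpr (le_of_eq ?_)) (exp_wordSum_le hp0 hp1 _ m)) h4
  rw [wordSum_add, wordSum_smul, hp, wordSum_law c g hm (fun σ => (numCycles σ : ℝ))]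
  congr 1
  have h5 : wordSum p (fun l => avgI (sPot U' l) l.prod) m =
      wordSum p (fun l => ∑ j ∈ Finset.range m, avgI U' (l.rotate (j + 1)).prod) m := by
    refine wordSum_congr_length _ _ fun l hl => ?_
    rw [avg_sPot, hl]
  rw [← hp, h5, wordSum_sum]
  have h6 : ∀ j ∈ Finset.range m, wordSum p (fun l => avgI U' (l.rotate (j + 1)).prod) m =
      (m : ℝ)⁻¹ * E c g (avgI U) := by
    intro j _
    rw [wordSum_rotate p (fun l => avgI U' l.prod) m (j + 1), hp, wordSum_law c g hm (avgI U'),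
      ← E_smul]
    congr 1
    funext τ
    exact avgI_smul _ _ _
  rw [Finset.sum_congr rfl h6, Finset.sum_const, Finset.card_range, nsmul_eq_mul]
  field_simp

/-- Lower bound for the partition function of the exclusion process with a potential. -/
theorem path_jensen {c : α → ℝ} (hc : ∀ a, 0 ≤ c a) (g : α → Equiv.Perm V) (U : Finset V → ℝ) :
    Real.exp (Real.log 2 * E c g (fun σ => (numCycles σ : ℝ)) + E c g (avgI U)) ≤
      trace (NormedSpace.exp (∑ a, c a • (rhoS V (g a) - 1) + diagonal U)) := by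
  letI : NormedRing (Matrix (Finset V) (Finset V) ℝ) := Matrix.linftyOpNormedRing
  letI : NormedAlgebra ℝ (Matrix (Finset V) (Finset V) ℝ) := Matrix.linftyOpNormedAlgebra
  haveI : NormOneClass (Matrix (Finset V) (Finset V) ℝ) := Matrix.linfty_opNormOneClass
  have h1 := trotter (∑ a, c a • (rhoS V (g a) - 1)) (diagonal U : Matrix (Finset V) (Finset V) ℝ)
  have h2 : Continuous fun M : Matrix (Finset V) (Finset V) ℝ => trace M :=
    (LinearMap.toContinuousLinearMap (Matrix.traceLinearMap (Finset V) ℝ ℝ)).continuous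
  have h3 := (h2.tendsto _).comp h1
  refine ge_of_tendsto h3 ?_
  filter_upwards [eventually_gt_atTop 0] with m hm
  exact path_lower hc g U hm

end Path

end Pool.Agent.Stirring
end

section

/-! Two-point functions at different distances: comparison by means of a potential. -/

open Finset Matrix

set_option linter.unusedSectionVars false

namespace Pool.Agent.Stirring

section Diag

variable {V : Type*} [Fintype V] [DecidableEq V]

theorem map_map_of_mul_self {g : Equiv.Perm V} (hg : g * g = 1) (A : Finset V) :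
    (A.map g.toEmbedding).map g.toEmbedding = A := by
  rw [← mul_toEmbedding_map, hg]
  exact Finset.map_refl

/-- A potential which changes sign under an involution is dominated by its Dirichlet form. -/
theorem quad_diag_le (D f : Finset V → ℝ) {g : Equiv.Perm V}
    (hD : ∀ A : Finset V, D (A.map g.toEmbedding) = -D A) (hD1 : ∀ A, |D A| ≤ 1) {a : ℝ} (ha : 0 < a) :
    ∑ A, D A * f A ^ 2 ≤ a / 2 * lenFun f g ^ 2 + 1 / (2 * a) * ∑ A, f A ^ 2 := by
  have hre : ∀ F : Finset V → ℝ, ∑ A : Finset V, F (A.map g.toEmbedding) = ∑ A, F A := fun F =>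
    Equiv.sum_comp (setHom V g) F
  have h1 : ∑ A, D A * f A ^ 2 =
      1 / 2 * ∑ A : Finset V, D A * (f A ^ 2 - f (A.map g.toEmbedding) ^ 2) := by
    have h2 : ∑ A, D A * f A ^ 2 = -∑ A : Finset V, D A * f (A.map g.toEmbedding) ^ 2 := by
      rw [← hre (fun A => D A * f A ^ 2), ← Finset.sum_neg_distrib]
      refine Finset.sum_congr rfl fun A _ => ?_
      rw [hD]; ring
    have h3 : ∑ A : Finset V, D A * (f A ^ 2 - f (A.map g.toEmbedding) ^ 2) =
        ∑ A, D A * f A ^ 2 - ∑ A : Finset V, D A * f (A.map g.toEmbedding) ^ 2 := by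
      rw [← Finset.sum_sub_distrib]
      exact Finset.sum_congr rfl fun A _ => by ring
    rw [h3]; linarith
  have h4 : ∀ A : Finset V, D A * (f A ^ 2 - f (A.map g.toEmbedding) ^ 2) ≤
      a * (f A - f (A.map g.toEmbedding)) ^ 2 +
        1 / (2 * a) * (f A ^ 2 + f (A.map g.toEmbedding) ^ 2) := by
    intro A
    set u := f A
    set v := f (A.map g.toEmbedding)
    have h5 : D A * (u ^ 2 - v ^ 2) ≤ |u - v| * |u + v| := by
      calc D A * (u ^ 2 - v ^ 2) ≤ |D A * (u ^ 2 - v ^ 2)| := le_abs_self _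
        _ = |D A| * |(u - v) * (u + v)| := by rw [abs_mul]; congr 2; ring
        _ ≤ 1 * |(u - v) * (u + v)| := mul_le_mul_of_nonneg_right (hD1 A) (abs_nonneg _)
        _ = |u - v| * |u + v| := by rw [one_mul, abs_mul]
    have h6 : |u - v| * |u + v| ≤ a * (u - v) ^ 2 + 1 / (4 * a) * (u + v) ^ 2 := by
      have h7 : 0 ≤ (1 / (4 * a)) * (2 * a * |u - v| - |u + v|) ^ 2 := by positivity
      have h8 : (1 / (4 * a)) * (2 * a * |u - v| - |u + v|) ^ 2 =
          a * |u - v| ^ 2 + 1 / (4 * a) * |u + v| ^ 2 - |u - v| * |u + v| := by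
        field_simp; ring
      rw [h8, sq_abs, sq_abs] at h7
      linarith
    have h9 : 1 / (4 * a) * (u + v) ^ 2 ≤ 1 / (2 * a) * (u ^ 2 + v ^ 2) := by
      have h10 : 1 / (2 * a) * (u ^ 2 + v ^ 2) = 1 / (4 * a) * (2 * (u ^ 2 + v ^ 2)) := by
        field_simp; ring
      rw [h10]
      refine mul_le_mul_of_nonneg_left ?_ (by positivity)
      nlinarith [sq_nonneg (u - v)]
    linarith
  have h11 := Finset.sum_le_sum fun A (_ : A ∈ Finset.univ) => h4 A
  rw [Finset.sum_add_distrib, ← Finset.mul_sum, ← Finset.mul_sum, Finset.sum_add_distrib,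
    hre (fun A => f A ^ 2), ← lenFun_sq] at h11
  rw [h1]
  have h12 : 1 / 2 * (a * lenFun f g ^ 2 + 1 / (2 * a) * (∑ A, f A ^ 2 + ∑ A, f A ^ 2)) =
      a / 2 * lenFun f g ^ 2 + 1 / (2 * a) * ∑ A, f A ^ 2 := by ring
  linarith

/-- The average over invariant sets of the indicator that two points are in the set. -/
theorem avgI_pair (τ : Equiv.Perm V) (x y : V) :
    avgI (fun A => if x ∈ A ∧ y ∈ A then (1 : ℝ) else 0) τ =
      (1 + if τ.SameCycle x y then 1 else 0) / 4 := by
  classical
  have h1 : ∑ A ∈ invs τ, (if x ∈ A ∧ y ∈ A then (1 : ℝ) else 0) =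
      (((invs τ).filter fun A => x ∈ A ∧ y ∈ A).card : ℝ) := by
    rw [Finset.card_filter]; push_cast; rfl
  have hcompl : ∀ A ∈ invs τ, Aᶜ ∈ invs τ := by
    intro A hA
    have hA' := (Finset.mem_filter.mp hA).2
    refine Finset.mem_filter.mpr ⟨Finset.mem_univ _, ?_⟩
    rw [map_eq_iff_forall] at *
    intro u v huv
    rw [Finset.mem_compl, Finset.mem_compl, hA' u v huv]
  have h2 : ((invs τ).filter fun A => x ∈ A ∧ y ∈ A).card =
      ((invs τ).filter fun A => x ∉ A ∧ y ∉ A).card := by
    refine Finset.card_bij' (fun A _ => Aᶜ) (fun A _ => Aᶜ) ?_ ?_ ?_ ?_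
    · intro A hA
      rw [Finset.mem_filter] at *
      refine ⟨hcompl A hA.1, ?_, ?_⟩
      · rw [Finset.mem_compl, not_not]; exact hA.2.1
      · rw [Finset.mem_compl, not_not]; exact hA.2.2
    · intro A hA
      rw [Finset.mem_filter] at *
      refine ⟨hcompl A hA.1, ?_, ?_⟩
      · rw [Finset.mem_compl]; exact hA.2.1
      · rw [Finset.mem_compl]; exact hA.2.2
    · intro A _; exact compl_compl A
    · intro A _; exact compl_compl A
  have h3 : (invsJ τ x y).card = ((invs τ).filter fun A => x ∈ A ∧ y ∈ A).card +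
      ((invs τ).filter fun A => x ∉ A ∧ y ∉ A).card := by
    rw [← Finset.card_union_of_disjoint]
    · congr 1
      ext A
      simp only [invsJ, Finset.mem_filter, Finset.mem_union]
      tauto
    · rw [Finset.disjoint_left]
      intro A hA hA'
      rw [Finset.mem_filter] at *
      exact hA'.2.1 hA.2.1
  have h4 : ((invsJ τ x y).card : ℝ) =
      2 * (((invs τ).filter fun A => x ∈ A ∧ y ∈ A).card : ℝ) := by
    rw [h3, ← h2]; push_cast; ring
  have hpos := card_invs_pos τ
  unfold avgI
  rw [h1, div_eq_div_iff hpos.ne' (by norm_num)]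
  split_ifs with h
  · have h5 : ((invsJ τ x y).card : ℝ) = ((invs τ).card : ℝ) := by
      exact_mod_cast card_invsJ_same h
    linarith
  · have h5 : 2 * ((invsJ τ x y).card : ℝ) = ((invs τ).card : ℝ) := by
      exact_mod_cast card_invsJ_diff h
    linarith

theorem avgI_sub (U W : Finset V → ℝ) (τ : Equiv.Perm V) :
    avgI (fun A => U A - W A) τ = avgI U τ - avgI W τ := by
  unfold avgI
  rw [Finset.sum_sub_distrib, sub_div]

theorem avgI_sum {ι : Type*} (s : Finset ι) (U : ι → Finset V → ℝ) (τ : Equiv.Perm V) :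
    avgI (fun A => ∑ i ∈ s, U i A) τ = ∑ i ∈ s, avgI (U i) τ := by
  unfold avgI
  rw [Finset.sum_comm, Finset.sum_div]

end Diag

section Len

variable {d L : ℕ} [NeZero L]

theorem sum_shift (u : Fin d → ZMod L) (f : (Fin d → ZMod L) → ℝ) : ∑ x, f (x + u) = ∑ x, f x :=
  Equiv.sum_comp (Equiv.addRight u) f

/-- Quadratic mean of the lengths of the transpositions `(x, x + v)`. -/
noncomputable def NN (ell : Equiv.Perm (Fin d → ZMod L) → ℝ) (v : Fin d → ZMod L) : ℝ :=
  Real.sqrt (∑ x, ell (Equiv.swap x (x + v)) ^ 2)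

theorem NN_nonneg (ell : Equiv.Perm (Fin d → ZMod L) → ℝ) (v : Fin d → ZMod L) : 0 ≤ NN ell v :=
  Real.sqrt_nonneg _

theorem NN_sq (ell : Equiv.Perm (Fin d → ZMod L) → ℝ) (v : Fin d → ZMod L) :
    NN ell v ^ 2 = ∑ x, ell (Equiv.swap x (x + v)) ^ 2 :=
  Real.sq_sqrt (Finset.sum_nonneg fun _ _ => sq_nonneg _)

theorem minkowski {ι : Type*} [Fintype ι] (a b : ι → ℝ) :
    Real.sqrt (∑ x, (a x + b x) ^ 2) ≤ Real.sqrt (∑ x, a x ^ 2) + Real.sqrt (∑ x, b x ^ 2) := by
  have h := norm_add_le (WithLp.toLp 2 a : EuclideanSpace ℝ ι) (WithLp.toLp 2 b)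
  rw [EuclideanSpace.norm_eq, EuclideanSpace.norm_eq, EuclideanSpace.norm_eq] at h
  simpa using h

theorem NN_add_le {ell : Equiv.Perm (Fin d → ZMod L) → ℝ} (h : IsLen ell) (u v : Fin d → ZMod L) :
    NN ell (u + v) ≤ NN ell u + 2 * NN ell v := by
  have h1 : ∑ x, ell (Equiv.swap x (x + (u + v))) ^ 2 ≤
      ∑ x, (ell (Equiv.swap x (x + u)) + 2 * ell (Equiv.swap (x + u) (x + u + v))) ^ 2 := by
    refine Finset.sum_le_sum fun x _ => ?_
    refine pow_le_pow_left₀ (h.nonneg _) ?_ 2
    rw [← add_assoc]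
    exact h.tri x (x + u) (x + u + v)
  have h2 := minkowski (fun x : Fin d → ZMod L => ell (Equiv.swap x (x + u)))
    (fun x => 2 * ell (Equiv.swap (x + u) (x + u + v)))
  have h3 : ∑ x : Fin d → ZMod L, (2 * ell (Equiv.swap (x + u) (x + u + v))) ^ 2 =
      2 ^ 2 * ∑ x : Fin d → ZMod L, ell (Equiv.swap x (x + v)) ^ 2 := by
    rw [Finset.mul_sum, ← sum_shift u (fun x => 2 ^ 2 * ell (Equiv.swap x (x + v)) ^ 2)]
    exact Finset.sum_congr rfl fun x _ => by rw [mul_pow]
  rw [h3, Real.sqrt_mul (by norm_num), Real.sqrt_sq (by norm_num)] at h2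
  exact (Real.sqrt_le_sqrt h1).trans h2

theorem NN_zero {ell : Equiv.Perm (Fin d → ZMod L) → ℝ} (h : IsLen ell) : NN ell 0 = 0 := by
  unfold NN
  have : ∀ x : Fin d → ZMod L, ell (Equiv.swap x (x + 0)) ^ 2 = 0 := by
    intro x
    rw [add_zero, Equiv.swap_self]
    have h1 : ell (Equiv.refl _) = 0 := h.one
    rw [h1]; norm_num
  rw [Finset.sum_congr rfl fun x _ => this x]
  simp

theorem NN_neg (ell : Equiv.Perm (Fin d → ZMod L) → ℝ) (v : Fin d → ZMod L) :
    NN ell (-v) = NN ell v := by
  unfold NN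
  congr 1
  rw [← sum_shift v (fun x => ell (Equiv.swap x (x + -v)) ^ 2)]
  refine Finset.sum_congr rfl fun x _ => ?_
  rw [add_neg_cancel_right, Equiv.swap_comm]

theorem NN_nsmul_le {ell : Equiv.Perm (Fin d → ZMod L) → ℝ} (h : IsLen ell) (u v : Fin d → ZMod L)
    (n : ℕ) : NN ell (u + n • v) ≤ NN ell u + 2 * n * NN ell v := by
  induction n with
  | zero => simp
  | succ n ih =>
    rw [succ_nsmul, ← add_assoc]
    have := NN_add_le h (u + n • v) v
    push_cast
    linarith

theorem NN_zsmul_le {ell : Equiv.Perm (Fin d → ZMod L) → ℝ} (h : IsLen ell) (u v : Fin d → ZMod L)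
    (n : ℤ) : NN ell (u + n • v) ≤ NN ell u + 2 * |(n : ℝ)| * NN ell v := by
  obtain ⟨k, rfl | rfl⟩ := n.eq_nat_or_neg
  · have := NN_nsmul_le h u v k
    simpa using this
  · have := NN_nsmul_le h u (-v) k
    rw [NN_neg] at this
    simpa using this

theorem NN_single_le {ell : Equiv.Perm (Fin d → ZMod L) → ℝ} (i : Fin d) :
    NN ell (Pi.single i 1) ≤ Real.sqrt (∑ e, ell (edgeSwap d L e) ^ 2) := by
  unfold NN
  refine Real.sqrt_le_sqrt ?_
  rw [Fintype.sum_prod_type]
  refine Finset.sum_le_sum fun x _ => ?_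
  exact Finset.single_le_sum (f := fun j => ell (edgeSwap d L (x, j)) ^ 2)
    (fun j _ => sq_nonneg _) (Finset.mem_univ i)

/-- Reduction of an integer vector. -/
def red (d L : ℕ) (k : Fin d → ℤ) : Fin d → ZMod L := fun i => (k i : ZMod L)

theorem red_eq_sum (k : Fin d → ℤ) :
    red d L k = ∑ i, k i • (Pi.single i 1 : Fin d → ZMod L) := by
  ext j
  rw [Finset.sum_apply, Finset.sum_eq_single j]
  · simp [red]
  · intro b _ hb
    rw [Pi.smul_apply, Pi.single_eq_of_ne (Ne.symm hb), smul_zero]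
  · intro h; exact absurd (Finset.mem_univ _) h

theorem NN_red_le {ell : Equiv.Perm (Fin d → ZMod L) → ℝ} (h : IsLen ell) (k : Fin d → ℤ) :
    NN ell (red d L k) ≤ 2 * (∑ i, |(k i : ℝ)|) * Real.sqrt (∑ e, ell (edgeSwap d L e) ^ 2) := by
  rw [red_eq_sum]
  set S := Real.sqrt (∑ e, ell (edgeSwap d L e) ^ 2)
  have key : ∀ s : Finset (Fin d), NN ell (∑ i ∈ s, k i • (Pi.single i 1 : Fin d → ZMod L)) ≤
      2 * (∑ i ∈ s, |(k i : ℝ)|) * S := by
    intro s
    induction s using Finset.induction_on with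
    | empty => simp [NN_zero h]
    | insert i s hi ih =>
      rw [Finset.sum_insert hi, Finset.sum_insert hi, add_comm]
      have h1 := NN_zsmul_le h (∑ i ∈ s, k i • (Pi.single i 1 : Fin d → ZMod L)) (Pi.single i 1)
        (k i)
      have h2 := NN_single_le (ell := ell) (L := L) i
      have h3 : 2 * |(k i : ℝ)| * NN ell (Pi.single i 1) ≤ 2 * |(k i : ℝ)| * S :=
        mul_le_mul_of_nonneg_left h2 (by positivity)
      linarith
  exact key Finset.univ

/-- Comparison of the length of all transpositions `(x + z, x + z + k)` with the edges. -/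
theorem sum_swap_sq_le {ell : Equiv.Perm (Fin d → ZMod L) → ℝ} (h : IsLen ell)
    (z w : Fin d → ZMod L) (k : Fin d → ℤ) (hk : w = z + red d L k) :
    ∑ x, ell (Equiv.swap (x + z) (x + w)) ^ 2 ≤
      4 * (∑ i, |(k i : ℝ)|) ^ 2 * ∑ e, ell (edgeSwap d L e) ^ 2 := by
  have h1 : ∑ x : Fin d → ZMod L, ell (Equiv.swap (x + z) (x + w)) ^ 2 =
      NN ell (red d L k) ^ 2 := by
    rw [NN_sq, ← sum_shift z (fun x => ell (Equiv.swap x (x + red d L k)) ^ 2)]
    refine Finset.sum_congr rfl fun x _ => ?_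
    rw [hk, add_assoc]
  rw [h1]
  have h2 := NN_red_le h k (L := L)
  have h3 : 0 ≤ ∑ e, ell (edgeSwap d L e) ^ 2 := Finset.sum_nonneg fun _ _ => sq_nonneg _
  calc NN ell (red d L k) ^ 2 ≤
      (2 * (∑ i, |(k i : ℝ)|) * Real.sqrt (∑ e, ell (edgeSwap d L e) ^ 2)) ^ 2 :=
        pow_le_pow_left₀ (NN_nonneg _ _) h2 2
    _ = _ := by rw [mul_pow, Real.sq_sqrt h3]; ring

end Len

end Pool.Agent.Stirring
end

section

section

/-! The partition function with several colours and complete graph stirring. -/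

open Finset Matrix

set_option linter.unusedSectionVars false

namespace Pool.Agent.Stirring

variable {V : Type*} [Fintype V] [DecidableEq V] {C : Type*} [Fintype C] [DecidableEq C]

/-- Weighted number of invariant colourings. -/
noncomputable def gq (C : Type*) [Fintype C] [DecidableEq C] (a : ℝ) (σ : Equiv.Perm V) : ℝ :=
  ∑ η : V → Option C, if colHom V (Option C) σ η = η then Real.exp (-(a * nCol η)) else 0

theorem gq_eq_trace (a : ℝ) (σ : Equiv.Perm V) :
    gq C a σ = trace (diagonal (fun η : V → Option C => Real.exp (-(a * nCol η))) *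
      rhoQ V (Option C) σ) := by
  rw [Matrix.trace]
  unfold gq
  refine Finset.sum_congr rfl fun η _ => ?_
  rw [diag_apply, Matrix.diagonal_mul, rhoQ_apply, mul_ite, mul_one, mul_zero]
  exact if_congr eq_comm rfl rfl

theorem gq_nonneg (a : ℝ) (σ : Equiv.Perm V) : 0 ≤ gq C a σ := by
  unfold gq
  refine Finset.sum_nonneg fun A _ => ?_
  split_ifs
  · exact (Real.exp_pos _).le
  · exact le_refl _

/-- The partition function. -/
noncomputable def Xq (V C : Type*) [Fintype V] [DecidableEq V] [Fintype C] [DecidableEq C]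
    (c : V × V → ℝ) (a : ℝ) : ℝ :=
  E c (fun p : V × V => Equiv.swap p.1 p.2) (gq C a)

/-- The generator on colourings. -/
noncomputable def genQ (V K : Type*) [Fintype V] [DecidableEq V] [Fintype K] [DecidableEq K]
    (c : V × V → ℝ) : Matrix (V → K) (V → K) ℝ :=
  ∑ p, c p • (rhoQ V K (Equiv.swap p.1 p.2) - 1)

theorem genQ_isSymm {K : Type*} [Fintype K] [DecidableEq K] (c : V × V → ℝ) :
    (genQ V K c).IsSymm := by
  rw [Matrix.IsSymm, genQ, Matrix.transpose_sum]
  refine Finset.sum_congr rfl fun p _ => ?_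
  rw [Matrix.transpose_smul, Matrix.transpose_sub, Matrix.transpose_one,
    (rhoQ_isSymm (Equiv.swap_mul_self _ _)).eq]

/-- The weight operator. -/
noncomputable def wtQ (V C : Type*) [Fintype V] [DecidableEq V] [Fintype C] [DecidableEq C]
    (a : ℝ) : Matrix (V → Option C) (V → Option C) ℝ :=
  diagonal fun η : V → Option C => -(a * nCol η)

theorem exp_wtQ (a : ℝ) : NormedSpace.exp (wtQ V C a) =
    diagonal (fun η : V → Option C => Real.exp (-(a * nCol η))) := exp_diag_real _

theorem wtQ_comm_genQ (c : V × V → ℝ) (a : ℝ) : Commute (wtQ V C a) (genQ V (Option C) c) := by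
  show _ * _ = _ * _
  unfold genQ wtQ
  rw [Finset.sum_mul, Finset.mul_sum]
  refine Finset.sum_congr rfl fun p _ => ?_
  rw [Matrix.mul_smul, Matrix.smul_mul, Matrix.sub_mul, Matrix.mul_sub, Matrix.one_mul,
    Matrix.mul_one, rhoQ_diag (fun n : ℕ => -(a * n))]

theorem numX_comm_genQ (c : V × V → ℝ) : Commute (numX V C) (genQ V (Option C) c) := by
  show _ * _ = _ * _
  unfold genQ
  rw [Finset.sum_mul, Finset.mul_sum]
  refine Finset.sum_congr rfl fun p _ => ?_
  rw [Matrix.mul_smul, Matrix.smul_mul, Matrix.sub_mul, Matrix.mul_sub, Matrix.one_mul,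
    Matrix.mul_one, numX_rhoQ]

theorem numX_comm_wtQ (a : ℝ) : Commute (numX V C) (wtQ V C a) :=
  numX_diag (fun n : ℕ => -(a * n))

theorem lowM_comm_genQ (b : C) (c : V × V → ℝ) :
    Commute (lowM b) (genQ V (Option C) c) := by
  show _ * _ = _ * _
  unfold genQ
  rw [Finset.sum_mul, Finset.mul_sum]
  refine Finset.sum_congr rfl fun p _ => ?_
  rw [Matrix.mul_smul, Matrix.smul_mul, Matrix.sub_mul, Matrix.mul_sub, Matrix.one_mul,
    Matrix.mul_one, lowM_rhoQ]

theorem Xq_eq_trace (c : V × V → ℝ) (a : ℝ) :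
    Xq V C c a = trace (NormedSpace.exp (wtQ V C a + genQ V (Option C) c)) := by
  unfold Xq
  have h : (gq C a : Equiv.Perm V → ℝ) = fun σ =>
      trace (NormedSpace.exp (wtQ V C a) * rhoQ V (Option C) σ) := by
    funext σ
    rw [gq_eq_trace, exp_wtQ]
  rw [h, E_trace_mul, Matrix.exp_add_of_commute _ _ (wtQ_comm_genQ c a)]
  rfl

theorem Xq_nonneg (c : V × V → ℝ) (a : ℝ) : 0 ≤ Xq V C c a := by
  rw [Xq_eq_trace]
  refine (nn_exp ?_).trace
  rw [Matrix.IsSymm, Matrix.transpose_add, (genQ_isSymm c).eq, wtQ, diagonal_transpose]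

theorem Xq_antitone (c : V × V → ℝ) {a b : ℝ} (h : a ≤ b) : Xq V C c b ≤ Xq V C c a := by
  rw [Xq_eq_trace, Xq_eq_trace]
  refine trace_exp_mono ?_ ?_ fun f => ?_
  · rw [Matrix.IsSymm, Matrix.transpose_add, (genQ_isSymm c).eq, wtQ, diagonal_transpose]
  · rw [Matrix.IsSymm, Matrix.transpose_add, (genQ_isSymm c).eq, wtQ, diagonal_transpose]
  · rw [Matrix.add_mulVec, dotProduct_add, Matrix.add_mulVec, dotProduct_add]
    refine add_le_add_left ?_ _
    unfold wtQ dotProduct
    refine Finset.sum_le_sum fun η _ => ?_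
    rw [Matrix.mulVec_diagonal, Matrix.mulVec_diagonal]
    have h1 : (0 : ℝ) ≤ nCol η := Nat.cast_nonneg _
    nlinarith [mul_nonneg (mul_nonneg (sub_nonneg.mpr h) h1) (mul_self_nonneg (f η))]

/-- Adding complete graph stirring. -/
theorem Xq_add_le (c : V × V → ℝ) {r : ℝ} (hr : 0 ≤ r) {a : ℝ} (ha : 0 ≤ a) :
    (1 - Real.exp (-a)) ^ Fintype.card C * Xq V C (fun p => c p + r) a ≤
      Xq V C c (a + 2 * r * (Fintype.card V / (Fintype.card C + 1 : ℝ))) := by
  set w : ℝ := Fintype.card V / (Fintype.card C + 1 : ℝ) with hw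
  have hw0 : 0 ≤ w := by rw [hw]; positivity
  set G := genQ V (Option C) (fun p => c p + r) with hG
  set M : ℝ := 2 * r * (1 + w) with hM
  have hsym : (wtQ V C a + G).IsSymm := by
    rw [Matrix.IsSymm, Matrix.transpose_add, (genQ_isSymm _).eq, wtQ, diagonal_transpose]
  set S := NormedSpace.exp (wtQ V C a + G) with hS
  have hSmul : S = NormedSpace.exp (wtQ V C a) * NormedSpace.exp G :=
    Matrix.exp_add_of_commute _ _ (wtQ_comm_genQ _ a)
  have hc1 : Real.exp (-a) ≤ 1 := by rw [Real.exp_le_one_iff]; linarith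
  have hRS : ∀ b : C, lowM b * S = Real.exp (-a) • (S * lowM b) := by
    intro b
    have h1 : Commute (lowM b) (NormedSpace.exp G) :=
      Commute.exp_right (lowM_comm_genQ b _)
    rw [hSmul, ← Matrix.mul_assoc, exp_wtQ, lowM_diag, Matrix.smul_mul, Matrix.mul_assoc,
      h1.eq, Matrix.mul_assoc]
  have h1 := trace_le_damped (C := C) (Real.exp_pos (-a)) hc1 (nn_exp hsym)
    (by rw [Matrix.IsSymm, ← Matrix.exp_transpose, hsym.eq]) hRS lowM_comm M
  rw [Xq_eq_trace]
  refine h1.trans ?_
  have hX : (∑ b : C, (lowM b)ᵀ * lowM b : Matrix (V → Option C) (V → Option C) ℝ) = numX V C := rfl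
  rw [hX]
  have hcomm : Commute (wtQ V C a + G) ((-M) • numX V C) :=
    Commute.smul_right (Commute.add_left (numX_comm_wtQ a).symm (numX_comm_genQ _).symm) _
  rw [← Matrix.exp_add_of_commute _ _ hcomm, Xq_eq_trace]
  refine trace_exp_mono ?_ ?_ fun f => ?_
  · rw [Matrix.IsSymm, Matrix.transpose_add, hsym.eq, Matrix.transpose_smul, numX_isSymm.eq]
  · rw [Matrix.IsSymm, Matrix.transpose_add, (genQ_isSymm _).eq, wtQ, diagonal_transpose]
  have hGsplit : G = genQ V (Option C) c +
      r • ∑ p : V × V, (rhoQ V (Option C) (Equiv.swap p.1 p.2) - 1) := by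
    rw [hG]
    unfold genQ
    rw [Finset.smul_sum, ← Finset.sum_add_distrib]
    exact Finset.sum_congr rfl fun p _ => by rw [add_smul]
  have hwt : ∀ a : ℝ, f ⬝ᵥ (wtQ V C a).mulVec f = -(a * ∑ η, (nCol η : ℝ) * f η ^ 2) := by
    intro a
    unfold wtQ dotProduct
    rw [Finset.mul_sum, ← Finset.sum_neg_distrib]
    refine Finset.sum_congr rfl fun η _ => ?_
    rw [Matrix.mulVec_diagonal]; ring
  have hcas := mul_le_mul_of_nonneg_left (casimir_le (V := V) (C := C) f) hr
  rw [← hw] at hcas
  rw [hGsplit]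
  simp only [Matrix.add_mulVec, dotProduct_add, Matrix.smul_mulVec, dotProduct_smul, smul_eq_mul,
    hwt]
  rw [hM]
  nlinarith

/-- Comparison of the trace with its weighted version. -/
theorem Xq_zero_le {c : V × V → ℝ} (hc : ∀ p, 0 ≤ c p) {a : ℝ} (ha : 0 ≤ a) :
    Xq V C c 0 ≤ Real.exp (a * Fintype.card V) * Xq V C c a := by
  unfold Xq
  rw [← E_smul]
  refine E_mono hc _ fun σ => ?_
  unfold gq
  rw [Finset.mul_sum]
  refine Finset.sum_le_sum fun η _ => ?_
  split_ifs
  · rw [← Real.exp_add]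
    refine Real.exp_le_exp.mpr ?_
    have : (nCol η : ℝ) ≤ Fintype.card V := by exact_mod_cast nCol_le η
    nlinarith
  · rw [mul_zero]

/-! ### Factorization -/

theorem colHom_fix_iff {K : Type*} (σ : Equiv.Perm V) (η : V → K) :
    colHom V K σ η = η ↔ ∀ x, η (σ x) = η x := by
  constructor
  · intro h x
    have h1 := congrFun h (σ x)
    rw [colHom_apply, Equiv.symm_apply_apply] at h1
    exact h1.symm
  · intro h
    funext x
    rw [colHom_apply]
    have := h (σ.symm x)
    rw [Equiv.apply_symm_apply] at this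
    exact this.symm

theorem gq_one (a : ℝ) : gq C a (1 : Equiv.Perm V) =
    (1 + Fintype.card C * Real.exp (-a)) ^ Fintype.card V := by
  unfold gq
  have h1 : ∀ η : V → Option C, (if colHom V (Option C) 1 η = η then Real.exp (-(a * nCol η))
      else 0) = ∏ x, (if η x = none then 1 else Real.exp (-a)) := by
    intro η
    rw [if_pos (by rw [map_one]; rfl), Finset.prod_ite, Finset.prod_const_one, one_mul,
      Finset.prod_const, ← Real.exp_nat_mul]
    unfold nCol
    ring_nf
  rw [Finset.sum_congr rfl fun η _ => h1 η]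
  have h2 := Finset.prod_univ_sum (ι := V) (κ := fun _ => Option C) (t := fun _ => Finset.univ)
    (f := fun _ o => if o = none then (1 : ℝ) else Real.exp (-a))
  rw [Fintype.piFinset_univ] at h2
  rw [← h2, Finset.prod_const, Finset.card_univ, Fintype.sum_option]
  simp

/-- The pair exchange. -/
theorem gq_mul_mul (a : ℝ) {σ τ : Equiv.Perm V} (h : Equiv.Perm.Disjoint σ τ) :
    gq C a (σ * τ) * gq C a (1 : Equiv.Perm V) = gq C a σ * gq C a τ := by
  unfold gq
  rw [Finset.sum_mul_sum, Finset.sum_mul_sum, ← Fintype.sum_prod_type', ← Fintype.sum_prod_type']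
  set mx : (V → Option C) × (V → Option C) → (V → Option C) × (V → Option C) := fun q =>
    (fun x => if σ x = x then q.2 x else q.1 x, fun x => if σ x = x then q.1 x else q.2 x) with hmx
  have hinv : ∀ q, mx (mx q) = q := by
    rintro ⟨η, ζ⟩
    simp only [hmx]
    refine Prod.ext ?_ ?_
    · funext x
      by_cases hx : σ x = x <;> simp [hx]
    · funext x
      by_cases hx : σ x = x <;> simp [hx]
  have hcard : ∀ q, (nCol (mx q).1 : ℝ) + nCol (mx q).2 = nCol q.1 + nCol q.2 := by
    rintro ⟨η, ζ⟩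
    have e1 : ∀ ξ : V → Option C, (nCol ξ : ℝ) = ∑ x, if ξ x ≠ none then (1 : ℝ) else 0 := by
      intro ξ
      unfold nCol
      rw [Finset.card_filter]
      push_cast
      rfl
    rw [e1, e1, e1, e1, ← Finset.sum_add_distrib, ← Finset.sum_add_distrib]
    refine Finset.sum_congr rfl fun x _ => ?_
    simp only [hmx]
    by_cases hx : σ x = x
    · simp only [hx, if_true]; ring
    · simp only [hx, if_false]
  have hfix : ∀ q, (colHom V (Option C) (σ * τ) q.1 = q.1 ∧ colHom V (Option C) 1 q.2 = q.2) ↔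
      (colHom V (Option C) σ (mx q).1 = (mx q).1 ∧ colHom V (Option C) τ (mx q).2 = (mx q).2) := by
    rintro ⟨η, ζ⟩
    rw [colHom_fix_iff, colHom_fix_iff, colHom_fix_iff, colHom_fix_iff]
    simp only [hmx, Equiv.Perm.mul_apply, Equiv.Perm.one_apply, implies_true, and_true]
    constructor
    · intro h1
      refine ⟨fun x => ?_, fun x => ?_⟩
      · by_cases hx : σ x = x
        · simp only [hx]
        · have hx2 : ¬ σ (σ x) = σ x := fun h2 => hx (σ.injective h2)
          rw [if_neg hx2, if_neg hx]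
          have h3 : τ x = x := (h x).resolve_left hx
          have := h1 x
          rw [h3] at this
          exact this
      · by_cases hx : τ x = x
        · simp only [hx]
        · have h3 : σ x = x := (h x).resolve_right hx
          have hx2 : ¬ τ (τ x) = τ x := fun h2 => hx (τ.injective h2)
          have h4 : σ (τ x) = τ x := (h (τ x)).resolve_right hx2
          rw [if_pos h4, if_pos h3]
          have := h1 x
          rw [h4] at this
          exact this
    · rintro ⟨h1, h2⟩ x
      by_cases hx : σ x = x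
      · have h3 := h2 x
        rw [if_pos hx] at h3
        by_cases hx2 : τ x = x
        · rw [hx2, hx]
        · have hx3 : ¬ τ (τ x) = τ x := fun h2 => hx2 (τ.injective h2)
          have h4 : σ (τ x) = τ x := (h (τ x)).resolve_right hx3
          rw [if_pos h4] at h3
          rw [h4]
          exact h3
      · have h3 : τ x = x := (h x).resolve_left hx
        rw [h3]
        have h4 := h1 x
        have hx2 : ¬ σ (σ x) = σ x := fun h2 => hx (σ.injective h2)
        rw [if_neg hx2, if_neg hx] at h4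
        exact h4
  have hmul : ∀ (p p' : Prop) [Decidable p] [Decidable p'] (u v : ℝ),
      (if p then Real.exp u else 0) * (if p' then Real.exp v else 0) =
        if p ∧ p' then Real.exp (u + v) else 0 := by
    intro p p' _ _ u v
    by_cases hp : p
    · by_cases hp' : p'
      · rw [if_pos hp, if_pos hp', if_pos ⟨hp, hp'⟩, Real.exp_add]
      · rw [if_neg hp', mul_zero, if_neg (fun h => hp' h.2)]
    · rw [if_neg hp, zero_mul, if_neg (fun h => hp h.1)]
  simp only [hmul]
  refine Finset.sum_bij' (fun q _ => mx q) (fun q _ => mx q) (fun _ _ => Finset.mem_univ _)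
    (fun _ _ => Finset.mem_univ _) (fun q _ => hinv q) (fun q _ => hinv q) fun q _ => ?_
  refine if_congr (hfix q) ?_ rfl
  congr 1
  have := hcard q
  linear_combination a * this

/-- Normalized weight. -/
noncomputable def ngq (C : Type*) [Fintype C] [DecidableEq C] (a : ℝ) (σ : Equiv.Perm V) : ℝ :=
  gq C a σ / (1 + Fintype.card C * Real.exp (-a)) ^ Fintype.card V

theorem base_pos (C : Type*) [Fintype C] (a : ℝ) : 0 < 1 + Fintype.card C * Real.exp (-a) := by
  have := Real.exp_pos (-a)
  positivity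

theorem ngq_mul (a : ℝ) {σ τ : Equiv.Perm V} (h : Equiv.Perm.Disjoint σ τ) :
    ngq C a (σ * τ) = ngq C a σ * ngq C a τ := by
  have h1 := gq_mul_mul (C := C) a h
  rw [gq_one] at h1
  have h2 := base_pos C a
  unfold ngq
  rw [div_mul_div_comm, ← h1]
  field_simp

theorem ngq_one (a : ℝ) : ngq C a (1 : Equiv.Perm V) = 1 := by
  unfold ngq
  rw [gq_one, div_self]
  have := base_pos C a
  positivity

theorem gq_ofSubtype (a : ℝ) {p : V → Prop} [DecidablePred p] (σ : Equiv.Perm (Subtype p)) :
    gq C a (Equiv.Perm.ofSubtype σ) =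
      gq C a σ * (1 + Fintype.card C * Real.exp (-a)) ^ Fintype.card {x // ¬ p x} := by
  rw [← gq_one]
  unfold gq
  rw [Finset.sum_mul_sum, ← Fintype.sum_prod_type']
  rw [← Equiv.sum_comp (Equiv.piEquivPiSubtypeProd p (fun _ => Option C)).symm]
  refine Finset.sum_congr rfl fun q _ => ?_
  obtain ⟨η, ζ⟩ := q
  set ξ := (Equiv.piEquivPiSubtypeProd p (fun _ => Option C)).symm (η, ζ) with hξ
  have hξ1 : ∀ (x : V) (hx : p x), ξ x = η ⟨x, hx⟩ := by
    intro x hx
    rw [hξ, Equiv.piEquivPiSubtypeProd_symm_apply]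
    simp [hx]
  have hξ2 : ∀ (x : V) (hx : ¬ p x), ξ x = ζ ⟨x, hx⟩ := by
    intro x hx
    rw [hξ, Equiv.piEquivPiSubtypeProd_symm_apply]
    simp [hx]
  have hfix : colHom V (Option C) (Equiv.Perm.ofSubtype σ) ξ = ξ ↔
      colHom (Subtype p) (Option C) σ η = η := by
    rw [colHom_fix_iff, colHom_fix_iff]
    constructor
    · intro h x
      have := h x
      rw [Equiv.Perm.ofSubtype_apply_coe, hξ1 _ (σ x).2, hξ1 _ x.2] at this
      exact this
    · intro h x
      by_cases hx : p x
      · have := h ⟨x, hx⟩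
        rw [Equiv.Perm.ofSubtype_apply_of_mem σ hx, hξ1 _ (σ ⟨x, hx⟩).2, hξ1 x hx]
        exact this
      · rw [Equiv.Perm.ofSubtype_apply_of_not_mem σ hx]
  have hcard : nCol ξ = nCol η + nCol ζ := by
    unfold nCol
    rw [← Finset.card_filter_add_card_filter_not (s := Finset.univ.filter fun x => ξ x ≠ none) p]
    congr 1
    · symm
      refine Finset.card_bij (fun x _ => x.1) ?_ ?_ ?_
      · intro x hx
        rw [Finset.mem_filter, Finset.mem_filter]
        rw [Finset.mem_filter] at hx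
        refine ⟨⟨Finset.mem_univ _, ?_⟩, x.2⟩
        rw [hξ1 _ x.2]; exact hx.2
      · intro x _ y _ hxy; exact Subtype.ext hxy
      · intro y hy
        rw [Finset.mem_filter, Finset.mem_filter] at hy
        refine ⟨⟨y, hy.2⟩, ?_, rfl⟩
        rw [Finset.mem_filter]
        refine ⟨Finset.mem_univ _, ?_⟩
        rw [← hξ1 y hy.2]; exact hy.1.2
    · symm
      refine Finset.card_bij (fun x _ => x.1) ?_ ?_ ?_
      · intro x hx
        rw [Finset.mem_filter, Finset.mem_filter]
        rw [Finset.mem_filter] at hx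
        refine ⟨⟨Finset.mem_univ _, ?_⟩, x.2⟩
        rw [hξ2 _ x.2]; exact hx.2
      · intro x _ y _ hxy; exact Subtype.ext hxy
      · intro y hy
        rw [Finset.mem_filter, Finset.mem_filter] at hy
        refine ⟨⟨y, hy.2⟩, ?_, rfl⟩
        rw [Finset.mem_filter]
        refine ⟨Finset.mem_univ _, ?_⟩
        rw [← hξ2 y hy.2]; exact hy.1.2
  have hone : colHom {x // ¬ p x} (Option C) 1 ζ = ζ := by rw [map_one]; rfl
  simp only
  rw [if_pos hone]
  by_cases hf : colHom (Subtype p) (Option C) σ η = η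
  · rw [if_pos hf, if_pos (hfix.mpr hf), hcard, ← Real.exp_add]
    push_cast
    ring_nf
  · rw [if_neg hf, if_neg (fun h => hf (hfix.mp h)), zero_mul]

theorem ngq_ofSubtype (a : ℝ) {p : V → Prop} [DecidablePred p] (σ : Equiv.Perm (Subtype p)) :
    ngq C a (Equiv.Perm.ofSubtype σ) = ngq C a σ := by
  unfold ngq
  rw [gq_ofSubtype]
  have hcard : Fintype.card V = Fintype.card (Subtype p) + Fintype.card {x // ¬ p x} := by
    rw [Fintype.card_subtype, Fintype.card_subtype, ← Finset.card_univ (α := V)]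
    exact (Finset.card_filter_add_card_filter_not (s := Finset.univ) (p := p)).symm
  rw [hcard, pow_add]
  have h2 := base_pos C a
  field_simp

end Pool.Agent.Stirring
end

section

/-! The multiscale bound with several colours. -/

open Finset

set_option linter.unusedSectionVars false

namespace Pool.Agent.Stirring

section Blocks

variable {V : Type*} [Fintype V] [DecidableEq V] {K : Type*} [DecidableEq K]
variable {C : Type*} [Fintype C] [DecidableEq C]

theorem Eq_resB_insert {β : V → K} {c : V × V → ℝ} (hc : ∀ p, c p ≠ 0 → β p.1 = β p.2) (a : ℝ)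
    {S : Finset K} {k : K} (hk : k ∉ S) :
    E (resB β c (insert k S)) sw (ngq C a) = E (resB β c {k}) sw (ngq C a) *
      E (resB β c S) sw (ngq C a) := by
  set p : V × V → Bool := fun q => decide (β q.1 = k) with hp
  have h1 : restr (resB β c (insert k S)) p = resB β c {k} := by
    funext q
    simp only [restr, hp, resB, Finset.mem_insert, Finset.mem_singleton, decide_eq_true_eq]
    by_cases h : β q.1 = k <;> simp [h]
  have h2 : restr (resB β c (insert k S)) (fun q => !p q) = resB β c S := by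
    funext q
    simp only [restr, hp, resB, Finset.mem_insert, Bool.not_eq_true', decide_eq_false_iff_not]
    by_cases h : β q.1 = k
    · simp [h, hk]
    · simp [h]
  rw [E_split (resB β c (insert k S)) sw p (ngq C a), h1, h2]
  intro l hl
  have hl' : ∀ q ∈ l, β q.1 = β q.2 := by
    intro q hq
    refine hc q ?_
    intro h0
    refine hl q hq ?_
    simp [resB, h0]
  have ha : ∀ q ∈ l.filter p, β q.1 = k ∧ β q.2 = k := by
    intro q hq
    have := List.mem_filter.mp hq
    have h3 : β q.1 = k := by simpa [hp] using this.2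
    exact ⟨h3, by rw [← hl' q this.1]; exact h3⟩
  have hb : ∀ q ∈ l.filter (fun q => !p q), ¬ β q.1 = k ∧ ¬ β q.2 = k := by
    intro q hq
    have := List.mem_filter.mp hq
    have h3 : ¬ β q.1 = k := by simpa [hp] using this.2
    exact ⟨h3, by rw [← hl' q this.1]; exact h3⟩
  have hdisj : Equiv.Perm.Disjoint ((l.filter p).map sw).prod
      ((l.filter fun q => !p q).map sw).prod := by
    intro z
    by_cases hz : β z = k
    · right
      exact prod_sw_fix (P := fun j => ¬ j = k) _ hb (not_not.mpr hz)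
    · left
      exact prod_sw_fix (P := fun j => j = k) _ ha hz
  rw [prod_filter_split sw p l, ngq_mul a hdisj]
  intro a ha' b hb' hpa hpb
  have h3 : β a.1 = k := by simpa [hp] using hpa
  have h4 : β a.2 = k := by rw [← hl' a ha']; exact h3
  have h5 : ¬ β b.1 = k := by simpa [hp] using hpb
  have h6 : ¬ β b.2 = k := by rw [← hl' b hb']; exact h5
  refine Equiv.Perm.Disjoint.commute ?_
  intro z
  by_cases hz : β z = k
  · right
    refine Equiv.swap_apply_of_ne_of_ne ?_ ?_
    · rintro rfl; exact h5 hz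
    · rintro rfl; exact h6 hz
  · left
    refine Equiv.swap_apply_of_ne_of_ne ?_ ?_
    · rintro rfl; exact hz h3
    · rintro rfl; exact hz h4

theorem Eq_resB_empty (β : V → K) (c : V × V → ℝ) (a : ℝ) :
    E (resB β c ∅) sw (ngq C a) = 1 := by
  have h : ∀ l : List (V × V), (∀ q ∈ l, resB β c ∅ q ≠ 0) →
      ngq C a (l.map sw).prod = (fun _ => (1 : ℝ)) (l.map sw).prod := by
    intro l hl
    cases l with
    | nil =>
      simp only [List.map_nil, List.prod_nil]
      rw [ngq_one]
    | cons q l =>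
      exact absurd (by simp [resB]) (hl q List.mem_cons_self)
  rw [E_congr_law (h := fun _ => (1 : ℝ)) _ _ h, E_const]

theorem Eq_resB_prod {β : V → K} {c : V × V → ℝ} (hc : ∀ p, c p ≠ 0 → β p.1 = β p.2) (a : ℝ)
    (S : Finset K) : E (resB β c S) sw (ngq C a) = ∏ k ∈ S, E (resB β c {k}) sw (ngq C a) := by
  induction S using Finset.induction_on with
  | empty => rw [Eq_resB_empty, Finset.prod_empty]
  | insert k S hk ih => rw [Eq_resB_insert hc a hk, Finset.prod_insert hk, ih]

theorem Eq_resB_single {β : V → K} {c : V × V → ℝ} (hc : ∀ p, c p ≠ 0 → β p.1 = β p.2) (a : ℝ)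
    (k : K) : E (resB β c {k}) sw (ngq C a) = Xq {x : V // β x = k} C (subR β c k) a /
      (1 + Fintype.card C * Real.exp (-a)) ^ Fintype.card {x : V // β x = k} := by
  classical
  set B := {x : V // β x = k} with hB
  have hj : Function.Injective (fun q : B × B => ((q.1 : V), (q.2 : V))) := by
    rintro ⟨a, b⟩ ⟨a', b'⟩ h
    simp only [Prod.mk.injEq] at h
    exact Prod.ext (Subtype.ext h.1) (Subtype.ext h.2)
  have h1 := E_transport (j := fun q : B × B => ((q.1 : V), (q.2 : V))) hj (resB β c {k})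
    (by
      intro q hq
      have h2 : β q.1 = k := by
        by_contra hne
        refine hq ?_
        simp [resB, hne]
      have h3 : c q ≠ 0 := by
        intro h0
        refine hq ?_
        simp [resB, h0]
      exact ⟨(⟨q.1, h2⟩, ⟨q.2, by rw [← hc q h3]; exact h2⟩), rfl⟩) sw (ngq C a)
    (Equiv.Perm.ofSubtype (p := fun x : V => β x = k)) (fun q : B × B => Equiv.swap q.1 q.2)
    (by
      intro q
      rw [Equiv.Perm.ofSubtype_swap_eq]; rfl)
  rw [h1]
  have h2 : (fun q : B × B => resB β c {k} ((q.1 : V), (q.2 : V))) = subR β c k := by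
    funext q
    simp only [resB, Finset.mem_singleton, subR]
    rw [if_pos q.1.2]
  rw [h2]
  have h3 : (fun σ : Equiv.Perm B => ngq C a (Equiv.Perm.ofSubtype (p := fun x : V => β x = k) σ)) =
      fun σ => ((1 + Fintype.card C * Real.exp (-a)) ^ Fintype.card B)⁻¹ * gq C a σ := by
    funext σ
    rw [ngq_ofSubtype, ngq, div_eq_inv_mul]
  rw [h3, E_smul, Xq, div_eq_inv_mul]

/-- The partition function factorizes over blocks. -/
theorem Xq_prod {β : V → K} {c : V × V → ℝ} (hc : ∀ p, c p ≠ 0 → β p.1 = β p.2) (a : ℝ) :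
    Xq V C c a = ∏ k ∈ Finset.univ.image β, Xq {x : V // β x = k} C (subR β c k) a := by
  have hpos := base_pos C a
  have h1 : Xq V C c a = (1 + Fintype.card C * Real.exp (-a)) ^ Fintype.card V *
      E c sw (ngq C a) := by
    have h2 : (gq C a : Equiv.Perm V → ℝ) = fun σ =>
        (1 + Fintype.card C * Real.exp (-a)) ^ Fintype.card V * ngq C a σ := by
      funext σ
      rw [ngq]
      field_simp
    unfold Xq
    rw [h2, E_smul]
    rfl
  rw [h1]
  conv_lhs => rw [← resB_image β c]
  rw [Eq_resB_prod hc]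
  rw [Finset.prod_congr rfl fun k _ => Eq_resB_single hc a k, Finset.prod_div_distrib]
  have h3 : ∏ k ∈ Finset.univ.image β, (1 + Fintype.card C * Real.exp (-a)) ^
      Fintype.card {x : V // β x = k} = (1 + Fintype.card C * Real.exp (-a)) ^ Fintype.card V := by
    rw [Finset.prod_pow_eq_pow_sum]
    congr 1
    rw [← Finset.card_univ (α := V),
      Finset.card_eq_sum_card_fiberwise (f := β) (t := Finset.univ.image β)
        (fun x _ => Finset.mem_image_of_mem β (Finset.mem_univ x))]
    refine Finset.sum_congr rfl fun k _ => ?_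
    rw [Fintype.card_subtype]
  rw [h3]
  field_simp

/-- Adding complete graph stirring inside the blocks. -/
theorem Xq_step {β : V → K} {c : V × V → ℝ} (hc : ∀ p, c p ≠ 0 → β p.1 = β p.2) {r s a : ℝ}
    (hr : 0 ≤ r) (ha : 0 < a)
    (hs : ∀ k ∈ Finset.univ.image β, s ≤ Fintype.card {x : V // β x = k}) :
    Xq V C (fun p => c p + if β p.1 = β p.2 then r else 0) a ≤
      (((1 - Real.exp (-a))⁻¹) ^ Fintype.card C) ^ (Finset.univ.image β).card *
        Xq V C c (a + 2 / (Fintype.card C + 1 : ℝ) * (r * s)) := by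
  have hc' : ∀ p : V × V, (c p + if β p.1 = β p.2 then r else 0) ≠ 0 → β p.1 = β p.2 := by
    intro p hp
    by_contra hne
    refine hp ?_
    rw [if_neg hne, add_zero]
    by_contra h0
    exact hne (hc p h0)
  have hea : Real.exp (-a) < 1 := by rw [Real.exp_lt_one_iff]; linarith
  have h1a : 0 < 1 - Real.exp (-a) := by linarith
  rw [Xq_prod hc', Xq_prod hc, ← Finset.prod_const, ← Finset.prod_mul_distrib]
  refine Finset.prod_le_prod (fun k _ => Xq_nonneg _ _) fun k hk => ?_
  have h1 : subR β (fun p => c p + if β p.1 = β p.2 then r else 0) k =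
      fun q => subR β c k q + r := by
    funext q
    simp only [subR]
    rw [if_pos (by rw [q.1.2, q.2.2])]
  rw [h1]
  have h2 := Xq_add_le (V := {x : V // β x = k}) (C := C) (subR β c k) hr ha.le
  have h3 : Xq {x : V // β x = k} C (subR β c k) (a + 2 * r *
      (Fintype.card {x : V // β x = k} / (Fintype.card C + 1 : ℝ))) ≤
      Xq {x : V // β x = k} C (subR β c k) (a + 2 / (Fintype.card C + 1 : ℝ) * (r * s)) := by
    refine Xq_antitone _ ?_
    have h4 := mul_le_mul_of_nonneg_left (hs k hk) hr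
    have h5 : (0 : ℝ) < Fintype.card C + 1 := by positivity
    have h6 : 2 / (Fintype.card C + 1 : ℝ) * (r * s) ≤ 2 / (Fintype.card C + 1 : ℝ) *
        (r * Fintype.card {x : V // β x = k}) := mul_le_mul_of_nonneg_left h4 (by positivity)
    have h7 : 2 * r * (Fintype.card {x : V // β x = k} / (Fintype.card C + 1 : ℝ)) =
        2 / (Fintype.card C + 1 : ℝ) * (r * Fintype.card {x : V // β x = k}) := by ring
    rw [h7]
    linarith
  have h8 : 0 < (1 - Real.exp (-a)) ^ Fintype.card C := by positivity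
  rw [inv_pow, ← div_eq_inv_mul, le_div_iff₀ h8, mul_comm]
  exact h2.trans h3

/-- The partition function without stirring. -/
theorem Xq_zero_rates (a : ℝ) : Xq V C (fun _ => 0) a =
    (1 + Fintype.card C * Real.exp (-a)) ^ Fintype.card V := by
  unfold Xq
  have h : ∀ l : List (V × V), (∀ q ∈ l, (fun _ : V × V => (0 : ℝ)) q ≠ 0) →
      gq C a (l.map (fun p : V × V => Equiv.swap p.1 p.2)).prod =
        (fun _ => (1 + Fintype.card C * Real.exp (-a)) ^ Fintype.card V)
          (l.map (fun p : V × V => Equiv.swap p.1 p.2)).prod := by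
    intro l hl
    cases l with
    | nil =>
      simp only [List.map_nil, List.prod_nil]
      exact gq_one a
    | cons q l =>
      exact absurd rfl (hl q List.mem_cons_self)
  rw [E_congr_law (h := fun _ => (1 + Fintype.card C * Real.exp (-a)) ^ Fintype.card V) _ _ h,
    E_const]

end Blocks

section Torus

variable {d L : ℕ} [NeZero L] {C : Type*} [Fintype C] [DecidableEq C]

theorem tailA_smul (w : ℝ) (b : ℕ → ℝ) (J j : ℕ) :
    tailA d (fun i => w * b i) J j = w * tailA d b J j := by
  unfold tailA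
  rw [Finset.mul_sum]
  exact Finset.sum_congr rfl fun i _ => by ring

/-- The scaled tail. -/
noncomputable def tq (C : Type*) [Fintype C] (d : ℕ) (b : ℕ → ℝ) (J j : ℕ) : ℝ :=
  2 / (Fintype.card C + 1 : ℝ) * tailA d b J j

theorem tq_pos (b : ℕ → ℝ) (hb : ∀ j, 0 < b j) {J j : ℕ} (h : j < J) : 0 < tq C d b J j := by
  have := tailA_pos (d := d) b hb h
  unfold tq
  positivity

theorem Xq_multi (b : ℕ → ℝ) (hb : ∀ j, 0 < b j) {J : ℕ} (hJ : 2 ^ J ≤ L) (m : ℕ) (hm : m < J) :
    Xq (Fin d → ZMod L) C (cM d L b m) (tq C d b J m) ≤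
      (∏ j ∈ Finset.range m, (((1 - Real.exp (-tq C d b J (j + 1)))⁻¹) ^ Fintype.card C) ^
        ((L / 2 ^ (j + 1)) ^ d)) *
        (1 + Fintype.card C * Real.exp (-tq C d b J 0)) ^ (L ^ d) := by
  induction m with
  | zero =>
    have h : cM d L b 0 = fun _ => 0 := by
      funext p; simp [cM]
    rw [h, Xq_zero_rates, Finset.range_zero, Finset.prod_empty, one_mul, card_torus]
  | succ m ih =>
    have hmL : 2 ^ (m + 1) ≤ L := (Nat.pow_le_pow_right (by norm_num) (by omega)).trans hJ
    have ha := tq_pos (C := C) (d := d) b hb hm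
    have h1 := Xq_step (C := C) (β := lv d L (m + 1)) (c := cM d L b m)
      (cM_support b (by omega) hmL) (r := b (m + 1)) (s := ((2 : ℝ) ^ (m + 1)) ^ d)
      (a := tq C d b J (m + 1)) (hb _).le ha (fun k hk => card_block_ge hmL hk)
    have h2 : tq C d b J (m + 1) + 2 / (Fintype.card C + 1 : ℝ) *
        (b (m + 1) * ((2 : ℝ) ^ (m + 1)) ^ d) = tq C d b J m := by
      unfold tq
      rw [tailA_succ b (by omega : m < J)]
      ring
    rw [← cM_succ, h2] at h1
    refine h1.trans ?_
    have hea : Real.exp (-tq C d b J (m + 1)) < 1 := by rw [Real.exp_lt_one_iff]; linarith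
    have h1a : 0 < 1 - Real.exp (-tq C d b J (m + 1)) := by linarith
    have h1b : 1 ≤ (1 - Real.exp (-tq C d b J (m + 1)))⁻¹ := by
      rw [one_le_inv₀ h1a]
      have := Real.exp_pos (-tq C d b J (m + 1))
      linarith
    have h1c : 1 ≤ ((1 - Real.exp (-tq C d b J (m + 1)))⁻¹) ^ Fintype.card C :=
      one_le_pow₀ h1b
    rw [Finset.prod_range_succ]
    calc _ ≤ (((1 - Real.exp (-tq C d b J (m + 1)))⁻¹) ^ Fintype.card C) ^
          ((L / 2 ^ (m + 1)) ^ d) * Xq (Fin d → ZMod L) C (cM d L b m) (tq C d b J m) := by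
          refine mul_le_mul_of_nonneg_right ?_ (Xq_nonneg _ _)
          exact pow_le_pow_right₀ h1c (card_image_lv_le _ hmL)
      _ ≤ (((1 - Real.exp (-tq C d b J (m + 1)))⁻¹) ^ Fintype.card C) ^
          ((L / 2 ^ (m + 1)) ^ d) * _ :=
          mul_le_mul_of_nonneg_left (ih (by omega)) (by positivity)
      _ = _ := by ring

end Torus

end Pool.Agent.Stirring
end
end
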