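import Pool.Agent.Lib.MP_6c3d62_pr.Mg.G089
import Pool.Agent.Lib.MP_6c3d62_pr.Mg.G088

section

section

/-! The Ising chains: correlations along cycles. -/

open Finset

set_option linter.unusedSectionVars false

namespace Pool.Agent.Stirring

section Chain

variable {V : Type*} [Fintype V] [DecidableEq V]

theorem sum_le_of_injOn {ι κ : Type*} [DecidableEq κ] {s : Finset ι} {t : Finset κ} {f : ι → ℝ}
    {g : κ → ℝ} (e : ι → κ) (he : ∀ i ∈ s, e i ∈ t) (hinj : Set.InjOn e s)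
    (hfg : ∀ i ∈ s, f i ≤ g (e i)) (hg : ∀ k ∈ t, 0 ≤ g k) : ∑ i ∈ s, f i ≤ ∑ k ∈ t, g k := by
  refine (Finset.sum_le_sum hfg).trans ?_
  rw [← Finset.sum_image (f := g) (g := e) hinj]
  exact Finset.sum_le_sum_of_subset_of_nonneg (Finset.image_subset_iff.mpr he)
    fun k hk _ => hg k hk

/-- The places where the set changes along the cycles. -/
def bd (τ : Equiv.Perm V) (S : Finset V) : Finset V := symmDiff S (S.map (τ⁻¹).toEmbedding)

theorem mem_bd {τ : Equiv.Perm V} {S : Finset V} {z : V} : z ∈ bd τ S ↔ ¬ (z ∈ S ↔ τ z ∈ S) := by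
  unfold bd
  rw [Finset.mem_symmDiff, Finset.mem_map_equiv]
  have : (τ⁻¹).symm z = τ z := rfl
  rw [this]
  tauto

theorem bd_symmDiff (τ : Equiv.Perm V) (S T : Finset V) :
    bd τ (symmDiff S T) = symmDiff (bd τ S) (bd τ T) := by
  ext z
  simp only [mem_bd, Finset.mem_symmDiff]
  tauto

theorem bd_eq_empty {τ : Equiv.Perm V} {S : Finset V} : bd τ S = ∅ ↔ S ∈ invs τ := by
  simp only [invs, Finset.mem_filter, Finset.mem_univ, true_and]
  constructor
  · intro h
    ext z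
    have h1 : τ.symm z ∉ bd τ S := by rw [h]; simp
    rw [mem_bd, not_not] at h1
    rw [Finset.mem_map_equiv, h1, Equiv.apply_symm_apply]
  · intro h
    refine Finset.eq_empty_of_forall_notMem fun z => ?_
    rw [mem_bd, not_not]
    exact (mem_iff_of_map_eq h z).symm

theorem Wt_eq (ϑ : ℝ) (τ : Equiv.Perm V) (X : Finset V) :
    Wt ϑ τ X = ∑ S : Finset V, if bd τ S = X then ϑ ^ S.card else 0 := rfl

theorem Wt_eq_invs (ϑ : ℝ) (τ : Equiv.Perm V) (J : Finset V) :
    Wt ϑ τ (bd τ J) = ∑ D ∈ invs τ, ϑ ^ (symmDiff D J).card := by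
  have hinv : Function.Involutive fun D : Finset V => symmDiff D J := fun D =>
    symmDiff_symmDiff_cancel_right J D
  rw [Wt_eq, ← Equiv.sum_comp (Function.Involutive.toPerm _ hinv)]
  rw [show invs τ = Finset.univ.filter fun D => D ∈ invs τ by ext; simp]
  rw [Finset.sum_filter]
  refine Finset.sum_congr rfl fun D _ => ?_
  have h1 : (Function.Involutive.toPerm _ hinv) D = symmDiff D J := rfl
  rw [h1, bd_symmDiff]
  refine if_congr ?_ rfl rfl
  rw [← bd_eq_empty]
  constructor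
  · intro h
    have h2 := congrArg (fun A => symmDiff A (bd τ J)) h
    simpa using h2
  · intro h
    rw [h]
    exact bot_symmDiff _

theorem Zt_eq_invs (ϑ : ℝ) (τ : Equiv.Perm V) : Zt ϑ τ = ∑ D ∈ invs τ, ϑ ^ D.card := by
  have h := Wt_eq_invs ϑ τ ∅
  have h1 : bd τ ∅ = ∅ := by simp [bd]
  rw [h1] at h
  unfold Zt
  rw [h]
  refine Finset.sum_congr rfl fun D _ => ?_
  rw [← Finset.bot_eq_empty, symmDiff_bot]

/-- The set with boundary `{u}, {τ ^ l u}`. -/
def arc (τ : Equiv.Perm V) (u : V) : ℕ → Finset V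
  | 0 => ∅
  | l + 1 => symmDiff (arc τ u l) {(τ ^ (l + 1)) u}

theorem bd_arc (τ : Equiv.Perm V) (u : V) (l : ℕ) :
    bd τ (arc τ u l) = symmDiff {u} {(τ ^ l) u} := by
  induction l with
  | zero => simp [arc, bd]
  | succ l ih =>
    rw [arc, bd_symmDiff, ih]
    have h1 : bd τ {(τ ^ (l + 1)) u} = symmDiff {(τ ^ (l + 1)) u} {(τ ^ l) u} := by
      unfold bd
      congr 1
      rw [Finset.map_singleton]
      congr 1
      change τ⁻¹ ((τ ^ (l + 1)) u) = _
      rw [pow_succ', Equiv.Perm.mul_apply, ← Equiv.Perm.mul_apply, inv_mul_cancel,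
        Equiv.Perm.one_apply]
    rw [h1, symmDiff_comm {(τ ^ (l + 1)) u} {(τ ^ l) u}, ← symmDiff_assoc,
      symmDiff_symmDiff_cancel_right]

theorem pow_mem_cyc (τ : Equiv.Perm V) (u : V) (l : ℕ) : (τ ^ l) u ∈ cyc τ u :=
  mem_cyc.mpr ⟨l, by simp⟩

theorem arc_subset (τ : Equiv.Perm V) (u : V) (l : ℕ) : arc τ u l ⊆ cyc τ u := by
  induction l with
  | zero => simp [arc]
  | succ l ih =>
    intro z hz
    rw [arc, Finset.mem_symmDiff] at hz
    rcases hz with h | h
    · exact ih h.1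
    · rw [Finset.mem_singleton.mp h.1]; exact pow_mem_cyc τ u _

theorem isCycleOn_cyc (τ : Equiv.Perm V) (u : V) : τ.IsCycleOn (cyc τ u : Set V) := by
  refine ⟨⟨?_, τ.injective.injOn, ?_⟩, ?_⟩
  · intro z hz
    have hz' := mem_cyc.mp (Finset.mem_coe.mp hz)
    exact Finset.mem_coe.mpr (mem_cyc.mpr (Equiv.Perm.sameCycle_apply_right.mpr hz'))
  · intro z hz
    have hz' := mem_cyc.mp (Finset.mem_coe.mp hz)
    refine ⟨τ⁻¹ z, Finset.mem_coe.mpr (mem_cyc.mpr (hz'.trans ⟨-1, by simp⟩)), ?_⟩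
    rw [← Equiv.Perm.mul_apply, mul_inv_cancel, Equiv.Perm.one_apply]
  · intro x hx y hy
    have hx' := mem_cyc.mp (Finset.mem_coe.mp hx)
    have hy' := mem_cyc.mp (Finset.mem_coe.mp hy)
    exact hx'.symm.trans hy'

theorem pow_inj_of_lt (τ : Equiv.Perm V) (u : V) {a b : ℕ} (ha : a < (cyc τ u).card)
    (hb : b < (cyc τ u).card) (h : (τ ^ a) u = (τ ^ b) u) : a = b := by
  have h1 := ((isCycleOn_cyc τ u).pow_apply_eq_pow_apply (Finset.mem_coe.mpr (self_mem_cyc τ u))).mp h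
  exact Nat.ModEq.eq_of_lt_of_lt h1 ha hb

/-- For `l` smaller than the length of the cycle. -/
theorem arc_eq_image (τ : Equiv.Perm V) (u : V) {l : ℕ} (hl : l < (cyc τ u).card) :
    arc τ u l = (Finset.Icc 1 l).image (fun j => (τ ^ j) u) := by
  induction l with
  | zero => simp [arc]
  | succ l ih =>
    rw [arc, ih (by omega)]
    have h1 : Finset.Icc 1 (l + 1) = insert (l + 1) (Finset.Icc 1 l) := by
      ext j; simp only [Finset.mem_Icc, Finset.mem_insert]; omega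
    rw [h1, Finset.image_insert]
    have h2 : (τ ^ (l + 1)) u ∉ (Finset.Icc 1 l).image (fun j => (τ ^ j) u) := by
      intro h
      obtain ⟨j, hj, hj2⟩ := Finset.mem_image.mp h
      rw [Finset.mem_Icc] at hj
      have := pow_inj_of_lt τ u (by omega) hl hj2
      omega
    ext z
    simp only [Finset.mem_symmDiff, Finset.mem_insert, Finset.mem_singleton]
    constructor
    · rintro (h | h)
      · exact Or.inr h.1
      · exact Or.inl h.1
    · rintro (h | h)
      · right; exact ⟨h, by rw [h]; exact h2⟩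
      · left; exact ⟨h, fun h3 => h2 (by rw [← h3]; exact h)⟩

theorem card_arc (τ : Equiv.Perm V) (u : V) {l : ℕ} (hl : l < (cyc τ u).card) :
    (arc τ u l).card = l := by
  rw [arc_eq_image τ u hl, Finset.card_image_of_injOn]
  · simp
  · intro a ha b hb h
    rw [Finset.coe_Icc, Set.mem_Icc] at ha hb
    exact pow_inj_of_lt τ u (by omega) (by omega) h

theorem mem_invs_iff {τ : Equiv.Perm V} {D : Finset V} :
    D ∈ invs τ ↔ ∀ x y, τ.SameCycle x y → (x ∈ D ↔ y ∈ D) := by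
  rw [invs, Finset.mem_filter]
  simp only [Finset.mem_univ, true_and]
  exact map_eq_iff_forall

theorem cyc_mem_invs (τ : Equiv.Perm V) (u : V) : cyc τ u ∈ invs τ := by
  rw [mem_invs_iff]
  intro x y hxy
  rw [mem_cyc, mem_cyc]
  exact ⟨fun h => h.trans hxy, fun h => h.trans hxy.symm⟩

/-- Upper bound of the correlation inside a cycle. -/
theorem Wt_arc_le {ϑ : ℝ} (h0 : 0 ≤ ϑ) (τ : Equiv.Perm V) (u : V) {l : ℕ}
    (hl : l < (cyc τ u).card) :
    Wt ϑ τ (symmDiff {u} {(τ ^ l) u}) ≤ (ϑ ^ l + ϑ ^ ((cyc τ u).card - l)) * Zt ϑ τ := by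
  classical
  rw [← bd_arc, Wt_eq_invs, Zt_eq_invs]
  have hJ := arc_subset τ u l
  have hJc := card_arc τ u hl
  set J := arc τ u l
  set C := cyc τ u
  rw [← Finset.sum_filter_add_sum_filter_not (invs τ) (fun D => u ∈ D), add_comm, add_mul]
  refine add_le_add ?_ ?_
  · have h2 : ∀ D ∈ (invs τ).filter (fun D => ¬ u ∈ D), ϑ ^ (symmDiff D J).card =
        ϑ ^ l * ϑ ^ D.card := by
      intro D hD
      rw [Finset.mem_filter, mem_invs_iff] at hD
      have hdis : Disjoint D J := by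
        rw [Finset.disjoint_left]
        intro z hz hzJ
        exact hD.2 ((hD.1 u z (mem_cyc.mp (hJ hzJ))).mpr hz)
      rw [symmDiff_eq_sup_sdiff_inf, disjoint_iff.mp hdis, Finset.sup_eq_union]
      rw [Finset.bot_eq_empty, Finset.sdiff_empty, Finset.card_union_of_disjoint hdis, hJc,
        pow_add, mul_comm]
    rw [Finset.sum_congr rfl h2, ← Finset.mul_sum]
    refine mul_le_mul_of_nonneg_left ?_ (pow_nonneg h0 _)
    exact Finset.sum_le_sum_of_subset_of_nonneg (Finset.filter_subset _ _)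
      fun D _ _ => pow_nonneg h0 _
  · have h2 : ∀ D ∈ (invs τ).filter (fun D => u ∈ D), ϑ ^ (symmDiff D J).card =
        ϑ ^ (C.card - l) * ϑ ^ (D \ C).card := by
      intro D hD
      rw [Finset.mem_filter, mem_invs_iff] at hD
      have hCD : C ⊆ D := fun z hz => (hD.1 u z (mem_cyc.mp hz)).mp hD.2
      have hJD : J ⊆ D := hJ.trans hCD
      have h3 : symmDiff D J = D \ J := by
        rw [symmDiff_def, Finset.sdiff_eq_empty_iff_subset.mpr hJD]
        simp
      rw [h3, Finset.card_sdiff_of_subset hJD, Finset.card_sdiff_of_subset hCD, ← pow_add, hJc]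
      congr 1
      have := Finset.card_le_card hCD
      have := Finset.card_le_card hJ
      omega
    rw [Finset.sum_congr rfl h2, ← Finset.mul_sum]
    refine mul_le_mul_of_nonneg_left ?_ (pow_nonneg h0 _)
    refine sum_le_of_injOn (fun D => D \ C) ?_ ?_ (fun D _ => le_rfl) (fun D _ => pow_nonneg h0 _)
    · intro D hD
      rw [Finset.mem_filter] at hD
      have hD1 := mem_invs_iff.mp hD.1
      have hC1 := mem_invs_iff.mp (cyc_mem_invs τ u)
      rw [mem_invs_iff]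
      intro x y hxy
      rw [Finset.mem_sdiff, Finset.mem_sdiff, hD1 x y hxy, hC1 x y hxy]
    · intro D hD D' hD' h
      rw [Finset.mem_coe, Finset.mem_filter, mem_invs_iff] at hD hD'
      have hCD : C ⊆ D := fun z hz => (hD.1 u z (mem_cyc.mp hz)).mp hD.2
      have hCD' : C ⊆ D' := fun z hz => (hD'.1 u z (mem_cyc.mp hz)).mp hD'.2
      have h' : D \ C = D' \ C := h
      calc D = D \ C ∪ C := (Finset.sdiff_union_of_subset hCD).symm
        _ = D' \ C ∪ C := by rw [h']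
        _ = D' := Finset.sdiff_union_of_subset hCD'

/-- Lower bound of the correlation inside a cycle. -/
theorem le_Wt_of_sameCycle {ϑ : ℝ} (h0 : 0 ≤ ϑ) (h1 : ϑ ≤ 1) {τ : Equiv.Perm V} {x y : V}
    (h : τ.SameCycle x y) :
    ϑ ^ (cyc τ x).card * Zt ϑ τ ≤ Wt ϑ τ (symmDiff {x} {y}) := by
  obtain ⟨l, _, hl⟩ := h.exists_pow_eq'
  rw [← hl, ← bd_arc, Wt_eq_invs, Zt_eq_invs, Finset.mul_sum]
  refine Finset.sum_le_sum fun D _ => ?_
  rw [← pow_add]
  refine pow_le_pow_of_le_one h0 h1 ?_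
  have h2 := Finset.card_le_card (arc_subset τ x l)
  have h3 : (symmDiff D (arc τ x l)).card ≤ D.card + (arc τ x l).card := by
    refine (Finset.card_le_card ?_).trans (Finset.card_union_le _ _)
    exact symmDiff_le_sup
  omega

/-- No correlation between different cycles. -/
theorem Wt_of_not_sameCycle {ϑ : ℝ} {τ : Equiv.Perm V} {x y : V} (h : ¬ τ.SameCycle x y) :
    Wt ϑ τ (symmDiff {x} {y}) = 0 := by
  rw [Wt_eq]
  refine Finset.sum_eq_zero fun S _ => ?_
  rw [if_neg]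
  intro hS
  have hC : (cyc τ x).map τ.toEmbedding = cyc τ x :=
    (Finset.mem_filter.mp (cyc_mem_invs τ x)).2
  have h1 : ∏ z ∈ cyc τ x, sg S z * sg S (τ z) = 1 := by
    rw [Finset.prod_mul_distrib]
    have h2 : ∏ z ∈ cyc τ x, sg S (τ z) = ∏ z ∈ cyc τ x, sg S z := by
      conv_rhs => rw [← hC]
      rw [Finset.prod_map]
      rfl
    rw [h2, ← Finset.prod_mul_distrib]
    exact Finset.prod_eq_one fun z _ => sg_mul_self S z
  have h3 : ∀ z ∈ cyc τ x, sg S z * sg S (τ z) = if z = x then -1 else 1 := by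
    intro z hz
    have h4 : z ∈ bd τ S ↔ z = x := by
      rw [hS, Finset.mem_symmDiff, Finset.mem_singleton, Finset.mem_singleton]
      constructor
      · rintro (h5 | h5)
        · exact h5.1
        · exact absurd (mem_cyc.mp (h5.1 ▸ hz)) h
      · intro h5
        left
        refine ⟨h5, fun h6 => h ?_⟩
        rw [← h5, h6]
    rw [mem_bd] at h4
    unfold sg
    by_cases h5 : z = x
    · rw [if_pos h5]
      have h6 := h4.mpr h5
      split_ifs <;> first | (exfalso; tauto) | norm_num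
    · rw [if_neg h5]
      have h6 := mt h4.mp h5
      split_ifs <;> first | (exfalso; tauto) | norm_num
  rw [Finset.prod_congr rfl h3, Finset.prod_ite_eq' (cyc τ x) x (fun _ => (-1 : ℝ)),
    if_pos (self_mem_cyc τ x)] at h1
  norm_num at h1

/-- The correlation. -/
noncomputable def Gt (ϑ : ℝ) (τ : Equiv.Perm V) (x y : V) : ℝ :=
  Wt ϑ τ (symmDiff {x} {y}) / Zt ϑ τ

theorem Gt_eq_avgM (ϑ : ℝ) (τ : Equiv.Perm V) (x y : V) :
    avgM ϑ (fun A => sg A x * sg A y) τ = Gt ϑ τ x y := by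
  unfold avgM Gt
  congr 1
  rw [← sum_MM_wal]
  refine Finset.sum_congr rfl fun A _ => ?_
  rw [← wal_mul]
  simp [wal]

theorem Gt_nonneg {ϑ : ℝ} (h0 : 0 ≤ ϑ) (τ : Equiv.Perm V) (x y : V) : 0 ≤ Gt ϑ τ x y :=
  div_nonneg (Wt_nonneg h0 _ _) (Zt_pos h0 τ).le

theorem Gt_le_one {ϑ : ℝ} (h0 : 0 ≤ ϑ) (h1 : ϑ ≤ 1) (τ : Equiv.Perm V) (x y : V) :
    Gt ϑ τ x y ≤ 1 := by
  rw [← Gt_eq_avgM, avgM, div_le_one (Zt_pos h0 τ), ← sum_MM]
  refine Finset.sum_le_sum fun A _ => ?_
  have h2 : sg A x * sg A y ≤ 1 := by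
    calc sg A x * sg A y ≤ |sg A x * sg A y| := le_abs_self _
      _ = 1 := by rw [abs_mul, abs_sg, abs_sg, one_mul]
  calc _ ≤ MM V ϑ A (A.map τ.toEmbedding) * 1 :=
        mul_le_mul_of_nonneg_left h2 (MM_nonneg h0 h1 _ _)
    _ = _ := mul_one _

theorem Gt_self {ϑ : ℝ} (h0 : 0 ≤ ϑ) (τ : Equiv.Perm V) (x : V) : Gt ϑ τ x x = 1 := by
  unfold Gt
  rw [symmDiff_self, Finset.bot_eq_empty]
  exact div_self (Zt_pos h0 τ).ne'

theorem Gt_conj (ϑ : ℝ) (τ π : Equiv.Perm V) (x y : V) :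
    Gt ϑ (π * τ * π⁻¹) (π x) (π y) = Gt ϑ τ x y := by
  rw [← Gt_eq_avgM, ← Gt_eq_avgM]
  unfold avgM
  have h1 := sum_M_conj ϑ (fun A => sg A (π x) * sg A (π y)) (τ * π⁻¹) π
  have h2 : τ * π⁻¹ * π = τ := by group
  have h3 : π * (τ * π⁻¹) = π * τ * π⁻¹ := by group
  rw [h2, h3] at h1
  have h4 := Zt_comm ϑ (τ * π⁻¹) π
  rw [h2, h3] at h4
  rw [← h1, ← h4]
  congr 1
  refine Finset.sum_congr rfl fun A _ => ?_
  rw [sg_map, sg_map]
  have h5 : ∀ z, π⁻¹ (π z) = z := fun z => by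
    rw [← Equiv.Perm.mul_apply, inv_mul_cancel, Equiv.Perm.one_apply]
  rw [h5, h5]

theorem Gt_inv_apply (ϑ : ℝ) (τ : Equiv.Perm V) (x y : V) :
    Gt ϑ τ (τ⁻¹ x) (τ⁻¹ y) = Gt ϑ τ x y := by
  have h := Gt_conj ϑ τ τ⁻¹ x y
  have h2 : τ⁻¹ * τ * τ⁻¹⁻¹ = τ := by group
  rwa [h2] at h

theorem Gt_of_not_sameCycle {ϑ : ℝ} {τ : Equiv.Perm V} {x y : V} (h : ¬ τ.SameCycle x y) :
    Gt ϑ τ x y = 0 := by
  unfold Gt
  rw [Wt_of_not_sameCycle h, zero_div]

theorem le_Gt_of_sameCycle {ϑ : ℝ} (h0 : 0 ≤ ϑ) (h1 : ϑ ≤ 1) {τ : Equiv.Perm V} {x y : V}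
    (h : τ.SameCycle x y) : ϑ ^ (cyc τ x).card ≤ Gt ϑ τ x y := by
  unfold Gt
  rw [le_div_iff₀ (Zt_pos h0 τ)]
  exact le_Wt_of_sameCycle h0 h1 h

/-- The correlations are summable. -/
theorem sum_Gt_le {ϑ : ℝ} (h0 : 0 ≤ ϑ) (h1 : ϑ < 1) (τ : Equiv.Perm V) (u : V) :
    ∑ v, Gt ϑ τ u v ≤ 3 / (1 - ϑ) := by
  classical
  have hpos : 0 < 1 - ϑ := by linarith
  set c := (cyc τ u).card with hc
  have hcpos : 0 < c := card_cyc_pos τ u
  have h2 : ∑ v, Gt ϑ τ u v = ∑ v ∈ cyc τ u, Gt ϑ τ u v := by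
    symm
    refine Finset.sum_subset (Finset.subset_univ _) fun v _ hv => ?_
    exact Gt_of_not_sameCycle fun h => hv (mem_cyc.mpr h)
  have h3 : cyc τ u = (Finset.range c).image fun l => (τ ^ l) u := by
    ext v
    rw [Finset.mem_image]
    constructor
    · intro hv
      obtain ⟨l, hl, hlv⟩ := (isCycleOn_cyc τ u).exists_pow_eq (Finset.mem_coe.mpr (self_mem_cyc τ u))
        (Finset.mem_coe.mpr hv)
      exact ⟨l, Finset.mem_range.mpr hl, hlv⟩
    · rintro ⟨l, _, rfl⟩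
      exact pow_mem_cyc τ u l
  have hinj : Set.InjOn (fun l => (τ ^ l) u) (Finset.range c : Set ℕ) := by
    intro a ha b hb h
    rw [Finset.coe_range, Set.mem_Iio] at ha hb
    exact pow_inj_of_lt τ u ha hb h
  rw [h2]
  have h4 : ∑ v ∈ cyc τ u, Gt ϑ τ u v = ∑ l ∈ Finset.range c, Gt ϑ τ u ((τ ^ l) u) := by
    conv_lhs => rw [h3]
    rw [Finset.sum_image hinj]
  rw [h4]
  have h5 : ∀ l ∈ Finset.range c, Gt ϑ τ u ((τ ^ l) u) ≤ ϑ ^ l + ϑ ^ (c - l) := by
    intro l hl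
    unfold Gt
    rw [div_le_iff₀ (Zt_pos h0 τ)]
    exact Wt_arc_le h0 τ u (Finset.mem_range.mp hl)
  refine (Finset.sum_le_sum h5).trans ?_
  rw [Finset.sum_add_distrib]
  have h6 : ∑ l ∈ Finset.range c, ϑ ^ l ≤ 1 / (1 - ϑ) := by
    rw [geom_sum_eq h1.ne, ← neg_sub (1 : ℝ) (ϑ ^ c), ← neg_sub (1 : ℝ) ϑ, neg_div_neg_eq]
    refine div_le_div_of_nonneg_right ?_ hpos.le
    have := pow_nonneg h0 c
    linarith
  have h7 : ∑ l ∈ Finset.range c, ϑ ^ (c - l) ≤ 1 / (1 - ϑ) := by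
    have h8 : ∑ l ∈ Finset.range c, ϑ ^ (c - l) ≤ ∑ l ∈ Finset.range c, ϑ ^ (c - 1 - l) := by
      refine Finset.sum_le_sum fun l _ => ?_
      exact pow_le_pow_of_le_one h0 h1.le (by omega)
    rw [Finset.sum_range_reflect] at h8
    exact h8.trans h6
  have h8 : 3 / (1 - ϑ) = 1 / (1 - ϑ) + 1 / (1 - ϑ) + 1 / (1 - ϑ) := by ring
  have h9 : 0 < 1 / (1 - ϑ) := by positivity
  linarith

end Chain

end Pool.Agent.Stirring
end

section

/-! The effect of a transposition on the partition function of the Ising chains. -/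

open Finset

set_option linter.unusedSectionVars false

namespace Pool.Agent.Stirring

section SwapZ

variable {V : Type*} [Fintype V] [DecidableEq V]

theorem Zt_swap_le {ϑ : ℝ} (h0 : 0 ≤ ϑ) (σ : Equiv.Perm V) {x y : V} (hxy : x ≠ y) :
    Zt ϑ (Equiv.swap x y * σ) ≤ ∑ S ∈ invsJ σ x y, ϑ ^ S.card +
      Wt ϑ σ (symmDiff {σ⁻¹ x} {σ⁻¹ y}) := by
  classical
  rw [Zt_eq_invs, ← Finset.sum_filter_add_sum_filter_not (invs (Equiv.swap x y * σ))
    (fun S => (x ∈ S ↔ y ∈ S))]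
  have h1 : (invs (Equiv.swap x y * σ)).filter (fun S => (x ∈ S ↔ y ∈ S)) = invsJ σ x y :=
    invsJ_swap σ x y
  rw [h1]
  refine add_le_add le_rfl ?_
  rw [Wt_eq, ← Finset.sum_filter]
  refine Finset.sum_le_sum_of_subset_of_nonneg ?_ fun S _ _ => pow_nonneg h0 _
  intro S hS
  rw [Finset.mem_filter] at hS
  obtain ⟨hS1, hS2⟩ := hS
  rw [Finset.mem_filter]
  refine ⟨Finset.mem_univ _, ?_⟩
  have hS3 := (Finset.mem_filter.mp hS1).2
  have h2 : ∀ z, z ∈ S ↔ Equiv.swap x y (σ z) ∈ S := fun z => (mem_iff_of_map_eq hS3 z).symm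
  have hinj : ∀ z, z = σ⁻¹ x ↔ σ z = x := fun z => by
    rw [Equiv.Perm.eq_inv_iff_eq]
  have hinj' : ∀ z, z = σ⁻¹ y ↔ σ z = y := fun z => by
    rw [Equiv.Perm.eq_inv_iff_eq]
  ext z
  rw [mem_bd, Finset.mem_symmDiff, Finset.mem_singleton, Finset.mem_singleton, hinj, hinj']
  have h3 := h2 z
  by_cases hx : σ z = x
  · rw [hx, Equiv.swap_apply_left] at h3
    rw [hx]
    tauto
  · by_cases hy : σ z = y
    · rw [hy, Equiv.swap_apply_right] at h3
      rw [hy]
      have : y ≠ x := hxy.symm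
      tauto
    · rw [Equiv.swap_apply_of_ne_of_ne hx hy] at h3
      tauto

/-- The weight of the invariant sets separating two cycles. -/
theorem sep_weight {ϑ : ℝ} (h0 : 0 ≤ ϑ) (h1 : ϑ ≤ 1) {σ : Equiv.Perm V} {x y : V}
    (hxy : ¬ σ.SameCycle x y) :
    ϑ ^ (cyc σ x).card / 4 * Zt ϑ σ ≤
      ∑ S ∈ (invs σ).filter (fun S => ¬ (x ∈ S ↔ y ∈ S)), ϑ ^ S.card := by
  classical
  set Cx := cyc σ x with hCx
  set Cy := cyc σ y with hCy
  have hxCy : x ∉ Cy := fun h => hxy (mem_cyc.mp h).symm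
  have hyCx : y ∉ Cx := fun h => hxy (mem_cyc.mp h)
  have hxCx : x ∈ Cx := self_mem_cyc σ x
  have hyCy : y ∈ Cy := self_mem_cyc σ y
  have hCxi := mem_invs_iff.mp (cyc_mem_invs σ x)
  have hCyi := mem_invs_iff.mp (cyc_mem_invs σ y)
  set W := ∑ S ∈ (invs σ).filter (fun S => ¬ (x ∈ S ↔ y ∈ S)), ϑ ^ S.card with hW
  have key : ∀ p : Bool × Bool, ∑ S ∈ (invs σ).filter
      (fun S => ((decide (x ∈ S), decide (y ∈ S)) : Bool × Bool) = p),
        ϑ ^ Cx.card * ϑ ^ S.card ≤ W := by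
    intro p
    refine sum_le_of_injOn (fun S => (S ∪ Cx) \ Cy) ?_ ?_ ?_ (fun S _ => pow_nonneg h0 _)
    · intro S hS
      have hS1 := mem_invs_iff.mp (Finset.mem_filter.mp hS).1
      rw [Finset.mem_filter, mem_invs_iff]
      refine ⟨fun u v huv => ?_, ?_⟩
      · simp only [Finset.mem_sdiff, Finset.mem_union]
        rw [hS1 u v huv, hCxi u v huv, hCyi u v huv]
      · simp only [Finset.mem_sdiff, Finset.mem_union]
        tauto
    · intro S hS S' hS' h
      rw [Finset.mem_coe, Finset.mem_filter] at hS hS'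
      have hS1 := mem_invs_iff.mp hS.1
      have hS1' := mem_invs_iff.mp hS'.1
      have hp := hS.2.trans hS'.2.symm
      have hpx : (x ∈ S ↔ x ∈ S') := by
        have := congrArg Prod.fst hp
        simpa using this
      have hpy : (y ∈ S ↔ y ∈ S') := by
        have := congrArg Prod.snd hp
        simpa using this
      ext z
      by_cases hz : z ∈ Cx
      · rw [← hS1 x z (mem_cyc.mp hz), ← hS1' x z (mem_cyc.mp hz), hpx]
      · by_cases hz' : z ∈ Cy
        · rw [← hS1 y z (mem_cyc.mp hz'), ← hS1' y z (mem_cyc.mp hz'), hpy]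
        · have h3 : z ∈ (S ∪ Cx) \ Cy ↔ z ∈ (S' ∪ Cx) \ Cy := by
            have h4 : (S ∪ Cx) \ Cy = (S' ∪ Cx) \ Cy := h
            rw [h4]
          simp only [Finset.mem_sdiff, Finset.mem_union] at h3
          tauto
    · intro S _
      rw [← pow_add]
      refine pow_le_pow_of_le_one h0 h1 ?_
      calc ((S ∪ Cx) \ Cy).card ≤ (S ∪ Cx).card := Finset.card_le_card Finset.sdiff_subset
        _ ≤ S.card + Cx.card := Finset.card_union_le _ _
        _ = _ := add_comm _ _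
  have h2 := Finset.sum_fiberwise (invs σ)
    (fun S => ((decide (x ∈ S), decide (y ∈ S)) : Bool × Bool))
    (fun S => ϑ ^ Cx.card * ϑ ^ S.card)
  have h3 := Finset.sum_le_sum fun p (_ : p ∈ (Finset.univ : Finset (Bool × Bool))) => key p
  rw [h2, Finset.sum_const, Finset.card_univ, ← Finset.mul_sum, ← Zt_eq_invs] at h3
  have h4 : Fintype.card (Bool × Bool) = 4 := by simp
  rw [h4, nsmul_eq_mul] at h3
  push_cast at h3
  linarith

theorem sum_invsJ_le {ϑ : ℝ} (h0 : 0 ≤ ϑ) (h1 : ϑ ≤ 1) {σ : Equiv.Perm V} {x y : V}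
    (hxy : ¬ σ.SameCycle x y) :
    ∑ S ∈ invsJ σ x y, ϑ ^ S.card ≤ (1 - ϑ ^ (cyc σ x).card / 4) * Zt ϑ σ := by
  classical
  have h2 := sep_weight h0 h1 hxy
  have h3 := Finset.sum_filter_add_sum_filter_not (invs σ) (fun S => (x ∈ S ↔ y ∈ S))
    (fun S => ϑ ^ S.card)
  rw [← Zt_eq_invs] at h3
  have h4 : ∑ S ∈ (invs σ).filter (fun S => (x ∈ S ↔ y ∈ S)), ϑ ^ S.card =
      ∑ S ∈ invsJ σ x y, ϑ ^ S.card := rfl
  rw [h4] at h3
  linarith

theorem sum_invsJ_le_Zt {ϑ : ℝ} (h0 : 0 ≤ ϑ) (σ : Equiv.Perm V) (x y : V) :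
    ∑ S ∈ invsJ σ x y, ϑ ^ S.card ≤ Zt ϑ σ := by
  rw [Zt_eq_invs]
  exact Finset.sum_le_sum_of_subset_of_nonneg (Finset.filter_subset _ _)
    fun S _ _ => pow_nonneg h0 _

/-- The effect of a transposition on the logarithm of the partition function. -/
theorem log_Zt_swap_le {ϑ : ℝ} (h0 : 0 ≤ ϑ) (h1 : ϑ ≤ 1) (σ : Equiv.Perm V) {x y : V}
    (hxy : x ≠ y) :
    Real.log (Zt ϑ (Equiv.swap x y * σ)) - Real.log (Zt ϑ σ) ≤
      5 / 4 * Gt ϑ σ x y - ϑ ^ (cyc σ x).card / 4 := by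
  have hZ := Zt_pos h0 σ
  have hZ' := Zt_pos h0 (Equiv.swap x y * σ)
  rw [← Real.log_div hZ'.ne' hZ.ne']
  have h2 : Real.log (Zt ϑ (Equiv.swap x y * σ) / Zt ϑ σ) ≤
      Zt ϑ (Equiv.swap x y * σ) / Zt ϑ σ - 1 :=
    Real.log_le_sub_one_of_pos (by positivity)
  refine h2.trans ?_
  have h3 := Zt_swap_le h0 σ hxy
  have h4 : Wt ϑ σ (symmDiff {σ⁻¹ x} {σ⁻¹ y}) = Gt ϑ σ x y * Zt ϑ σ := by
    rw [← Gt_inv_apply]
    unfold Gt
    rw [div_mul_cancel₀ _ hZ.ne']
  rw [h4] at h3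
  by_cases h : σ.SameCycle x y
  · have h5 := sum_invsJ_le_Zt h0 σ x y
    have h6 := le_Gt_of_sameCycle h0 h1 h
    have h7 : Zt ϑ (Equiv.swap x y * σ) / Zt ϑ σ ≤ 1 + Gt ϑ σ x y := by
      rw [div_le_iff₀ hZ]; linarith
    linarith
  · have h5 := sum_invsJ_le h0 h1 h
    have h6 : Gt ϑ σ x y = 0 := Gt_of_not_sameCycle h
    rw [h6] at h3 ⊢
    have h7 : Zt ϑ (Equiv.swap x y * σ) / Zt ϑ σ ≤ 1 - ϑ ^ (cyc σ x).card / 4 := by
      rw [div_le_iff₀ hZ]; linarith
    linarith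

theorem log_Zt_nonneg {ϑ : ℝ} (h0 : 0 ≤ ϑ) (σ : Equiv.Perm V) : 0 ≤ Real.log (Zt ϑ σ) :=
  Real.log_nonneg (one_le_Zt h0 σ)

theorem log_Zt_le {ϑ : ℝ} (h0 : 0 ≤ ϑ) (h1 : ϑ ≤ 1) (σ : Equiv.Perm V) :
    Real.log (Zt ϑ σ) ≤ Real.log 2 * numCycles σ := by
  have h2 : Zt ϑ σ ≤ 2 ^ numCycles σ := by
    rw [Zt_eq_invs]
    calc ∑ D ∈ invs σ, ϑ ^ D.card ≤ ∑ D ∈ invs σ, (1 : ℝ) :=
          Finset.sum_le_sum fun D _ => pow_le_one₀ h0 h1
      _ = ((invs σ).card : ℝ) := by simp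
      _ = 2 ^ numCycles σ := by rw [card_invs]; push_cast; rfl
  calc Real.log (Zt ϑ σ) ≤ Real.log (2 ^ numCycles σ) := Real.log_le_log (Zt_pos h0 σ) h2
    _ = _ := by rw [Real.log_pow]; ring

end SwapZ

end Pool.Agent.Stirring
end

section

/-! Exponential moments of the number of cycles: several colours. -/

open Finset Matrix

set_option linter.unusedSectionVars false

namespace Pool.Agent.Stirring

section Len

variable {V : Type*} [Fintype V] [DecidableEq V] {K : Type*} [Fintype K] [DecidableEq K]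

/-- The number of invariant colourings. -/
noncomputable def fixQ (K : Type*) [Fintype K] [DecidableEq K] (σ : Equiv.Perm V) : ℝ :=
  ((Finset.univ.filter fun η : V → K => colHom V K σ η = η).card : ℝ)

theorem fixQ_eq_trace (σ : Equiv.Perm V) : fixQ K σ = trace (rhoQ V K σ) := by
  unfold fixQ rhoQ
  rw [MonoidHom.comp_apply, trace_permMat]

/-- The length of a function of colourings. -/
noncomputable def lenQ (φ : (V → K) → ℝ) (g : Equiv.Perm V) : ℝ :=
  Real.sqrt (∑ η, (φ η - φ (colHom V K g η)) ^ 2)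

theorem lenQ_sq (φ : (V → K) → ℝ) (g : Equiv.Perm V) :
    lenQ φ g ^ 2 = ∑ η, (φ η - φ (colHom V K g η)) ^ 2 :=
  Real.sq_sqrt (Finset.sum_nonneg fun _ _ => sq_nonneg _)

theorem lenQ_eq_norm (φ : (V → K) → ℝ) (g : Equiv.Perm V) :
    lenQ φ g = ‖(WithLp.toLp 2 (fun η => φ η - φ (colHom V K g η)) :
      EuclideanSpace ℝ (V → K))‖ := by
  rw [EuclideanSpace.norm_eq]
  simp [lenQ]

theorem isLen_lenQ (φ : (V → K) → ℝ) : IsLen (lenQ φ) where
  nonneg g := Real.sqrt_nonneg _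
  one := by
    unfold lenQ
    simp
  mul g h := by
    rw [lenQ_eq_norm, lenQ_eq_norm φ g, lenQ_eq_norm φ h]
    have h1 : ‖(WithLp.toLp 2 (fun η => φ η - φ (colHom V K g η)) :
        EuclideanSpace ℝ (V → K))‖ = ‖(WithLp.toLp 2 (fun η => φ (colHom V K h η) -
        φ (colHom V K g (colHom V K h η))) : EuclideanSpace ℝ (V → K))‖ := by
      rw [EuclideanSpace.norm_eq, EuclideanSpace.norm_eq]
      congr 1
      exact (Equiv.sum_comp (colHom V K h) (fun η => ‖φ η - φ (colHom V K g η)‖ ^ 2)).symm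
    rw [h1, add_comm]
    refine le_trans (le_of_eq ?_) (norm_add_le _ _)
    congr 1
    ext η
    simp only [PiLp.add_apply]
    rw [map_mul, Equiv.Perm.mul_apply]; ring

theorem quad_rhoQ (φ : (V → K) → ℝ) (g : Equiv.Perm V) :
    φ ⬝ᵥ (rhoQ V K g - 1).mulVec φ = -(lenQ φ g ^ 2) / 2 := by
  rw [lenQ_sq, Matrix.sub_mulVec, Matrix.one_mulVec, dotProduct_sub]
  have h1 : φ ⬝ᵥ (rhoQ V K g).mulVec φ = ∑ η, φ (colHom V K g η) * φ η := by
    have e1 : φ ⬝ᵥ (rhoQ V K g).mulVec φ = ∑ η, φ η * φ (fun x => η (g x)) := by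
      unfold dotProduct
      exact Finset.sum_congr rfl fun η _ => by rw [rhoQ_mulVec]
    rw [e1, ← Equiv.sum_comp (colHom V K g)]
    refine Finset.sum_congr rfl fun η _ => ?_
    congr 2
    funext x
    rw [colHom_apply, Equiv.symm_apply_apply]
  have h2 : φ ⬝ᵥ φ = ∑ η, φ η * φ η := rfl
  have h3 : ∑ η : V → K, φ η ^ 2 = ∑ η : V → K, φ (colHom V K g η) ^ 2 :=
    (Equiv.sum_comp (colHom V K g) (fun η => φ η ^ 2)).symm
  have h4 : ∑ η : V → K, (φ η - φ (colHom V K g η)) ^ 2 =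
      2 * ∑ η, φ η ^ 2 - 2 * ∑ η, φ (colHom V K g η) * φ η := by
    have : ∀ η : V → K, (φ η - φ (colHom V K g η)) ^ 2 =
        φ η ^ 2 + φ (colHom V K g η) ^ 2 - 2 * (φ (colHom V K g η) * φ η) := fun η => by
      ring
    rw [Finset.sum_congr rfl fun η _ => this η, Finset.sum_sub_distrib, Finset.sum_add_distrib,
      ← h3, ← Finset.mul_sum]
    ring
  rw [h1, h2, h4]
  simp only [← sq]
  ring

variable {α : Type*} [Fintype α]

/-- The generator on colourings for general letters. -/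
noncomputable def genA (K : Type*) [Fintype K] [DecidableEq K] (c : α → ℝ) (g : α → Equiv.Perm V) :
    Matrix (V → K) (V → K) ℝ := ∑ a, c a • (rhoQ V K (g a) - 1)

theorem genA_isSymm (c : α → ℝ) (g : α → Equiv.Perm V) (hg : ∀ a, g a * g a = 1) :
    (genA K c g).IsSymm := by
  rw [Matrix.IsSymm, genA, Matrix.transpose_sum]
  refine Finset.sum_congr rfl fun a _ => ?_
  rw [Matrix.transpose_smul, Matrix.transpose_sub, Matrix.transpose_one, (rhoQ_isSymm (hg a)).eq]

theorem quad_genA (φ : (V → K) → ℝ) (c : α → ℝ) (g : α → Equiv.Perm V) :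
    φ ⬝ᵥ (genA K c g).mulVec φ = -(∑ a, c a * lenQ φ (g a) ^ 2) / 2 := by
  rw [genA, Matrix.sum_mulVec, dotProduct_sum]
  rw [← Finset.sum_neg_distrib, Finset.sum_div]
  refine Finset.sum_congr rfl fun a _ => ?_
  rw [Matrix.smul_mulVec, dotProduct_smul, quad_rhoQ, smul_eq_mul]
  ring

theorem E_fixQ (c : α → ℝ) (g : α → Equiv.Perm V) :
    E c g (fixQ K) = trace (NormedSpace.exp (genA K c g)) := by
  have h1 : (fixQ K : Equiv.Perm V → ℝ) = fun σ => trace (rhoQ V K σ) := by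
    funext σ; exact fixQ_eq_trace σ
  rw [h1, E_trace]
  rfl

theorem E_fixQ_mono {β : Type*} [Fintype β]
    (c : α → ℝ) (g : α → Equiv.Perm V) (hg : ∀ a, g a * g a = 1)
    (c' : β → ℝ) (g' : β → Equiv.Perm V) (hg' : ∀ a, g' a * g' a = 1)
    (h : ∀ ell : Equiv.Perm V → ℝ, IsLen ell →
      ∑ b, c' b * ell (g' b) ^ 2 ≤ ∑ a, c a * ell (g a) ^ 2) :
    E c g (fixQ K) ≤ E c' g' (fixQ K) := by
  rw [E_fixQ, E_fixQ]
  refine trace_exp_mono (genA_isSymm c g hg) (genA_isSymm c' g' hg') fun φ => ?_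
  rw [quad_genA, quad_genA]
  have := h (lenQ φ) (isLen_lenQ φ)
  linarith

theorem fixQ_ge_one [Nonempty K] (σ : Equiv.Perm V) : 1 ≤ fixQ K σ := by
  unfold fixQ
  have h : (fun _ : V => Classical.arbitrary K) ∈
      (Finset.univ.filter fun η : V → K => colHom V K σ η = η) := by
    rw [Finset.mem_filter]
    exact ⟨Finset.mem_univ _, by rw [colHom_fix_iff]; intro x; rfl⟩
  exact_mod_cast Finset.card_pos.mpr ⟨_, h⟩

theorem fixQ_le (σ : Equiv.Perm V) : fixQ K σ ≤ (Fintype.card K : ℝ) ^ Fintype.card V := by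
  unfold fixQ
  have h1 := Finset.card_le_univ (Finset.univ.filter fun η : V → K => colHom V K σ η = η)
  rw [Fintype.card_fun] at h1
  exact_mod_cast h1

end Len

section Torus

variable {d L : ℕ} [NeZero L] {C : Type*} [Fintype C] [DecidableEq C]

theorem gq_zero {V : Type*} [Fintype V] [DecidableEq V] (σ : Equiv.Perm V) :
    gq C 0 σ = fixQ (Option C) σ := by
  unfold gq fixQ
  rw [Finset.card_filter]
  push_cast
  refine Finset.sum_congr rfl fun η _ => ?_
  simp

theorem one_sub_exp_ge {x : ℝ} (h0 : 0 ≤ x) (h1 : x ≤ 1) : x / 2 ≤ 1 - Real.exp (-x) := by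
  have h2 : Real.exp (-x) ≤ (1 + x)⁻¹ := by
    rw [Real.exp_neg]
    refine inv_anti₀ (by linarith) ?_
    have := Real.add_one_le_exp x
    linarith
  have h3 : (1 + x)⁻¹ ≤ 1 - x / 2 := by
    rw [inv_le_iff_one_le_mul₀ (by linarith)]
    nlinarith
  linarith

theorem expect_fixQ_multi (hd : 1 ≤ d) (hL : 2 ≤ L) {t : ℝ} (b : ℕ → ℝ) (hb : ∀ j, 0 < b j)
    (hbt : ∑ j ∈ Finset.range (Nat.log 2 L), b (j + 1) *
      (64 * d * 2 ^ d * ((2 : ℝ) ^ (j + 1)) ^ (d + 2)) ≤ t) :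
    expect d L t (fixQ (Option C)) ≤ (Real.exp 1 * (2 * (L : ℝ) ^ d) ^ Fintype.card C) *
      ((∏ j ∈ Finset.range (Nat.log 2 L - 1),
        (((1 - Real.exp (-tq C d b (Nat.log 2 L) (j + 1)))⁻¹) ^ Fintype.card C) ^
          ((L / 2 ^ (j + 1)) ^ d)) *
        (1 + Fintype.card C * Real.exp (-tq C d b (Nat.log 2 L) 0)) ^ (L ^ d)) := by
  obtain ⟨J, hJ⟩ : ∃ J, Nat.log 2 L = J + 1 := by
    have := Nat.log_pos (b := 2) (by norm_num) hL
    exact ⟨Nat.log 2 L - 1, by omega⟩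
  rw [hJ] at hbt ⊢
  have hLJ : 2 ^ (J + 1) ≤ L := by rw [← hJ]; exact Nat.pow_log_le_self 2 (by omega)
  have hLJ2 : L < 2 ^ (J + 1 + 1) := by rw [← hJ]; exact Nat.lt_pow_succ_log_self (by norm_num) L
  have hq1 : L / 2 ^ (J + 1) = 1 := by
    refine Nat.div_eq_of_lt_le (by omega) ?_
    rw [pow_succ] at hLJ2; omega
  rw [Nat.add_sub_cancel, expect_eq]
  have h1 : E (fun _ : (Fin d → ZMod L) × Fin d => t) (edgeSwap d L) (fixQ (Option C)) ≤
      E (cM d L b (J + 1)) sw (fixQ (Option C)) := by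
    refine E_fixQ_mono _ _ edgeSwap_mul_self _ _ (fun p => Equiv.swap_mul_self _ _) ?_
    intro ell hell
    have hS : 0 ≤ ∑ e : (Fin d → ZMod L) × Fin d, ell (edgeSwap d L e) ^ 2 :=
      Finset.sum_nonneg fun _ _ => sq_nonneg _
    calc ∑ p, cM d L b (J + 1) p * ell (sw p) ^ 2
        = ∑ j ∈ Finset.range (J + 1), b (j + 1) *
          ∑ p : (Fin d → ZMod L) × (Fin d → ZMod L), (if lv d L (j + 1) p.1 = lv d L (j + 1) p.2
            then ell (Equiv.swap p.1 p.2) ^ 2 else 0) := by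
          simp only [cM, Finset.sum_mul, Finset.mul_sum]
          rw [Finset.sum_comm]
          refine Finset.sum_congr rfl fun j _ => Finset.sum_congr rfl fun p _ => ?_
          split_ifs
          · rfl
          · simp
      _ ≤ ∑ j ∈ Finset.range (J + 1), b (j + 1) *
          (64 * d * 2 ^ d * ((2 : ℝ) ^ (j + 1)) ^ (d + 2) *
            ∑ e : (Fin d → ZMod L) × Fin d, ell (edgeSwap d L e) ^ 2) := by
          refine Finset.sum_le_sum fun j hj => mul_le_mul_of_nonneg_left ?_ (hb _).le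
          refine box_sum_lv hell hd ?_
          have := Finset.mem_range.mp hj
          exact (Nat.pow_le_pow_right (by norm_num) (by omega)).trans hLJ
      _ = (∑ j ∈ Finset.range (J + 1), b (j + 1) *
          (64 * d * 2 ^ d * ((2 : ℝ) ^ (j + 1)) ^ (d + 2))) *
            ∑ e : (Fin d → ZMod L) × Fin d, ell (edgeSwap d L e) ^ 2 := by
          rw [Finset.sum_mul]
          exact Finset.sum_congr rfl fun j _ => by ring
      _ ≤ t * ∑ e : (Fin d → ZMod L) × Fin d, ell (edgeSwap d L e) ^ 2 :=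
          mul_le_mul_of_nonneg_right hbt hS
      _ = _ := by rw [Finset.mul_sum]
  refine h1.trans ?_
  -- the top level
  have h2 : cM d L b (J + 1) = fun p => cM d L b J p + b (J + 1) := by
    rw [cM_succ]
    funext p
    rw [if_pos]
    funext i
    unfold lv bn
    rw [hq1]; simp
  have h3 : E (cM d L b (J + 1)) sw (fixQ (Option C)) =
      Xq (Fin d → ZMod L) C (cM d L b (J + 1)) 0 := by
    unfold Xq
    have : (gq C 0 : Equiv.Perm (Fin d → ZMod L) → ℝ) = fixQ (Option C) := by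
      funext σ; exact gq_zero σ
    rw [this]; rfl
  have hcpos : ∀ p, 0 ≤ cM d L b (J + 1) p := by
    intro p
    unfold cM
    refine Finset.sum_nonneg fun j _ => ?_
    split_ifs
    · exact (hb _).le
    · exact le_refl _
  set m : ℝ := (L : ℝ) ^ d with hm
  have hLpos : (1 : ℝ) ≤ L := by exact_mod_cast (by omega : 1 ≤ L)
  have hm1 : 1 ≤ m := one_le_pow₀ hLpos
  have hmcard : (Fintype.card (Fin d → ZMod L) : ℝ) = m := by
    rw [card_torus]; push_cast; rfl
  have hinv : 0 < 1 / m := by positivity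
  have hinv1 : 1 / m ≤ 1 := by rw [div_le_one (by linarith)]; exact hm1
  rw [h3]
  have h4 := Xq_zero_le (C := C) hcpos hinv.le
  rw [hmcard, one_div, inv_mul_cancel₀ (by linarith)] at h4
  refine h4.trans ?_
  rw [mul_assoc]
  refine mul_le_mul_of_nonneg_left ?_ (Real.exp_pos _).le
  have h5 := Xq_add_le (V := Fin d → ZMod L) (C := C) (cM d L b J) (hb (J + 1)).le hinv.le
  rw [← h2, one_div, hmcard] at h5
  have hge := one_sub_exp_ge hinv.le hinv1
  rw [one_div] at hge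
  have hq0 : 0 < 1 - Real.exp (-m⁻¹) := by
    have : 0 < m⁻¹ / 2 := by positivity
    linarith
  have h6 : Xq (Fin d → ZMod L) C (cM d L b (J + 1)) m⁻¹ ≤ (2 * m) ^ Fintype.card C *
      Xq (Fin d → ZMod L) C (cM d L b J) (m⁻¹ + 2 * b (J + 1) *
        (m / (Fintype.card C + 1 : ℝ))) := by
    have e1 : (2 * m) ^ Fintype.card C * (1 - Real.exp (-m⁻¹)) ^ Fintype.card C ≥ 1 := by
      rw [← mul_pow]
      refine one_le_pow₀ ?_
      have : 2 * m * (m⁻¹ / 2) = 1 := by field_simp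
      nlinarith
    have e2 := Xq_nonneg (V := Fin d → ZMod L) (C := C) (cM d L b (J + 1)) m⁻¹
    calc Xq (Fin d → ZMod L) C (cM d L b (J + 1)) m⁻¹
        ≤ ((2 * m) ^ Fintype.card C * (1 - Real.exp (-m⁻¹)) ^ Fintype.card C) *
          Xq (Fin d → ZMod L) C (cM d L b (J + 1)) m⁻¹ := le_mul_of_one_le_left e2 e1
      _ = (2 * m) ^ Fintype.card C * ((1 - Real.exp (-m⁻¹)) ^ Fintype.card C *
          Xq (Fin d → ZMod L) C (cM d L b (J + 1)) m⁻¹) := by ring
      _ ≤ _ := mul_le_mul_of_nonneg_left h5 (by positivity)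
  refine h6.trans ?_
  refine mul_le_mul_of_nonneg_left ?_ (by positivity)
  refine le_trans (Xq_antitone _ ?_) (Xq_multi b hb hLJ J (Nat.lt_succ_self J))
  unfold tq
  rw [tailA_succ b (Nat.lt_succ_self J), tailA_self, zero_add]
  have h7 : ((2 : ℝ) ^ (J + 1)) ^ d ≤ m := by
    rw [hm]
    refine pow_le_pow_left₀ (by positivity) ?_ d
    exact_mod_cast hLJ
  have h8 : 2 / (Fintype.card C + 1 : ℝ) * (b (J + 1) * ((2 : ℝ) ^ (J + 1)) ^ d) ≤
      2 / (Fintype.card C + 1 : ℝ) * (b (J + 1) * m) := by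
    refine mul_le_mul_of_nonneg_left ?_ (by positivity)
    exact mul_le_mul_of_nonneg_left h7 (hb _).le
  have h9 : 2 * b (J + 1) * (m / (Fintype.card C + 1 : ℝ)) =
      2 / (Fintype.card C + 1 : ℝ) * (b (J + 1) * m) := by ring
  rw [h9]
  have : 0 < m⁻¹ := by positivity
  linarith

/-- The exponential moment bound at a dyadic time scale. -/
theorem log_expect_fixQ_le_dyadic (hd : 1 ≤ d) (hL : 2 ≤ L) {t : ℝ} {J0 : ℕ}
    (ht : (4 : ℝ) ^ J0 ≤ 2 / (Fintype.card C + 1 : ℝ) * t) :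
    Real.log (expect d L t (fixQ (Option C))) ≤
      (1 + Fintype.card C * Real.log (2 * (L : ℝ) ^ d)) +
      Fintype.card C * (9 * kk d / ((2 : ℝ) ^ J0) ^ d * (L : ℝ) ^ d) := by
  have hk := kap_pos hd
  set w : ℝ := 2 / (Fintype.card C + 1 : ℝ) with hw
  have hw0 : 0 < w := by rw [hw]; positivity
  have ht0 : 0 < t := by
    have : 0 < w * t := lt_of_lt_of_le (by positivity) ht
    exact (pos_iff_pos_of_mul_pos this).mp hw0
  have hd' : (0 : ℝ) < d := by exact_mod_cast hd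
  set b : ℕ → ℝ := fun j => t * (1 / 2) ^ nd j J0 / 4 / (64 * d * 2 ^ d * ((2 : ℝ) ^ j) ^ (d + 2))
    with hb
  have hbpos : ∀ j, 0 < b j := fun j => by rw [hb]; positivity
  set J := Nat.log 2 L with hJ
  have hJ1 : 1 ≤ J := Nat.log_pos (by norm_num) hL
  have hbt : ∑ j ∈ Finset.range J, b (j + 1) *
      (64 * d * 2 ^ d * ((2 : ℝ) ^ (j + 1)) ^ (d + 2)) ≤ t := by
    have h1 : ∀ j ∈ Finset.range J, b (j + 1) * (64 * d * 2 ^ d * ((2 : ℝ) ^ (j + 1)) ^ (d + 2)) =
        t / 4 * (1 / 2) ^ nd (j + 1) J0 := by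
      intro j _
      simp only [hb]
      field_simp
    rw [Finset.sum_congr rfl h1, ← Finset.mul_sum]
    have h2 := sum_pow_nd_shift_le (ρ := 1 / 2) (by norm_num) (by norm_num) J J0 1
    have h3 : (2 : ℝ) / (1 - 1 / 2) = 4 := by norm_num
    rw [h3] at h2
    calc t / 4 * ∑ j ∈ Finset.range J, (1 / 2 : ℝ) ^ nd (j + 1) J0 ≤ t / 4 * 4 :=
          mul_le_mul_of_nonneg_left h2 (by positivity)
      _ = t := by ring
  have hA : ∀ j < J, kap d * (4 : ℝ) ^ J0 / 4 ^ (j + 1) * (1 / 2) ^ nd (j + 1) J0 ≤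
      tq C d b J j := by
    intro j hj
    refine le_trans ?_ (mul_le_mul_of_nonneg_left (tailA_ge b hbpos hj) hw0.le)
    have h1 : b (j + 1) * ((2 : ℝ) ^ (j + 1)) ^ d =
        kap d * t / 4 ^ (j + 1) * (1 / 2) ^ nd (j + 1) J0 := by
      simp only [hb, kap]
      have h4 : (4 : ℝ) ^ (j + 1) = (2 ^ (j + 1)) ^ 2 := by
        rw [← pow_mul, mul_comm, pow_mul]; norm_num
      rw [h4, pow_add ((2 : ℝ) ^ (j + 1)) d 2]
      field_simp
      ring
    rw [h1]
    have h2 : w * (kap d * t / 4 ^ (j + 1) * (1 / 2) ^ nd (j + 1) J0) =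
        kap d * (w * t) / 4 ^ (j + 1) * (1 / 2) ^ nd (j + 1) J0 := by ring
    rw [h2]
    refine mul_le_mul_of_nonneg_right ?_ (by positivity)
    refine div_le_div_of_nonneg_right ?_ (by positivity)
    exact mul_le_mul_of_nonneg_left ht hk.le
  have hApos : ∀ j < J, 0 < tq C d b J j := fun j hj => tq_pos b hbpos hj
  have h1 := expect_fixQ_multi (C := C) (L := L) hd hL b hbpos hbt
  rw [← hJ] at h1
  have hE : 0 < expect d L t (fixQ (Option C)) := by
    have h2 := E_mono (c := fun _ : (Fin d → ZMod L) × Fin d => t) (fun _ => ht0.le)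
      (edgeSwap d L) (f := fun _ => 1) (h := fixQ (Option C)) (fun σ => fixQ_ge_one σ)
    rw [E_const] at h2
    rw [expect_eq]
    linarith
  refine (Real.log_le_log hE h1).trans ?_
  have hinv : ∀ j < J, 0 < (1 - Real.exp (-tq C d b J j))⁻¹ := by
    intro j hj
    have := hApos j hj
    have hea : Real.exp (-tq C d b J j) < 1 := by rw [Real.exp_lt_one_iff]; linarith
    exact inv_pos.mpr (by linarith)
  have hprodpos : ∀ j ∈ Finset.range (J - 1),
      (((1 - Real.exp (-tq C d b J (j + 1)))⁻¹) ^ Fintype.card C) ^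
        ((L / 2 ^ (j + 1)) ^ d) ≠ 0 := by
    intro j hj
    have := Finset.mem_range.mp hj
    exact (pow_pos (pow_pos (hinv (j + 1) (by omega)) _) _).ne'
  have hexp := Real.exp_pos (-tq C d b J 0)
  have hLpos : (0 : ℝ) < L := by exact_mod_cast (by omega : 0 < L)
  have hbase := base_pos C (tq C d b J 0)
  rw [Real.log_mul (by positivity) (mul_ne_zero (Finset.prod_ne_zero_iff.mpr hprodpos)
    (by positivity)), Real.log_mul (Finset.prod_ne_zero_iff.mpr hprodpos) (by positivity),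
    Real.log_prod hprodpos, Real.log_pow, Real.log_mul (by positivity) (by positivity),
    Real.log_exp, Real.log_pow]
  refine add_le_add_right ?_ _
  have hLd : (0 : ℝ) ≤ (L : ℝ) ^ d := by positivity
  have hkk : 0 < kk d := kk_pos hd
  set p : ℝ := (Fintype.card C : ℝ) with hp
  have hp0 : 0 ≤ p := by rw [hp]; positivity
  -- each scale
  have hterm : ∀ j ∈ Finset.range (J - 1),
      Real.log ((((1 - Real.exp (-tq C d b J (j + 1)))⁻¹) ^ Fintype.card C) ^
        ((L / 2 ^ (j + 1)) ^ d)) ≤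
      p * ((L : ℝ) ^ d * (kk d / ((2 : ℝ) ^ J0) ^ d) * (3 / 4) ^ nd (j + 2) J0) := by
    intro j hj
    have hjJ : j + 1 < J := by have := Finset.mem_range.mp hj; omega
    have hs := scale_bound hd (j + 1) J0 (hA (j + 1) hjJ)
    rw [Real.log_pow, Real.log_pow]
    have hent : 0 ≤ ent (tq C d b J (j + 1)) :=
      (Real.exp_pos _).le.trans (exp_neg_le_ent (hApos _ hjJ))
    have hq : (((L / 2 ^ (j + 1)) ^ d : ℕ) : ℝ) ≤ (L : ℝ) ^ d / ((2 : ℝ) ^ (j + 1)) ^ d := by
      push_cast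
      rw [← div_pow]
      refine pow_le_pow_left₀ (Nat.cast_nonneg _) ?_ d
      have := @Nat.cast_div_le ℝ _ _ _ L (2 ^ (j + 1))
      push_cast at this
      exact this
    calc (((L / 2 ^ (j + 1)) ^ d : ℕ) : ℝ) *
          (p * Real.log ((1 - Real.exp (-tq C d b J (j + 1)))⁻¹))
        = p * ((((L / 2 ^ (j + 1)) ^ d : ℕ) : ℝ) * ent (tq C d b J (j + 1))) := by
          unfold ent; ring
      _ ≤ p * ((L : ℝ) ^ d / ((2 : ℝ) ^ (j + 1)) ^ d * ent (tq C d b J (j + 1))) :=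
          mul_le_mul_of_nonneg_left (mul_le_mul_of_nonneg_right hq hent) hp0
      _ = p * ((L : ℝ) ^ d * (ent (tq C d b J (j + 1)) / ((2 : ℝ) ^ (j + 1)) ^ d)) := by ring
      _ ≤ p * ((L : ℝ) ^ d * (kk d / ((2 : ℝ) ^ J0) ^ d * (3 / 4) ^ nd (j + 1 + 1) J0)) :=
          mul_le_mul_of_nonneg_left (mul_le_mul_of_nonneg_left hs hLd) hp0
      _ = _ := by ring
  have hsum := Finset.sum_le_sum hterm
  rw [← Finset.mul_sum, ← Finset.mul_sum] at hsum
  have hgeo := sum_pow_nd_shift_le (ρ := 3 / 4) (by norm_num) (by norm_num) (J - 1) J0 2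
  have h8 : (2 : ℝ) / (1 - 3 / 4) = 8 := by norm_num
  rw [h8] at hgeo
  have hlast : ((L ^ d : ℕ) : ℝ) * Real.log (1 + p * Real.exp (-tq C d b J 0)) ≤
      p * ((L : ℝ) ^ d * (kk d / ((2 : ℝ) ^ J0) ^ d)) := by
    push_cast
    have h2 := Real.log_le_sub_one_of_pos hbase
    have h3 := exp_neg_le_ent (hApos 0 (by omega))
    have h4 := scale_bound hd 0 J0 (hA 0 (by omega))
    rw [pow_zero, one_pow, div_one] at h4
    have h5 : (3 / 4 : ℝ) ^ nd (0 + 1) J0 ≤ 1 := pow_le_one₀ (by norm_num) (by norm_num)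
    have h6 : kk d / ((2 : ℝ) ^ J0) ^ d * (3 / 4) ^ nd (0 + 1) J0 ≤ kk d / ((2 : ℝ) ^ J0) ^ d * 1 :=
      mul_le_mul_of_nonneg_left h5 (by positivity)
    have h7 : Real.log (1 + p * Real.exp (-tq C d b J 0)) ≤ p * (kk d / ((2 : ℝ) ^ J0) ^ d) := by
      have h9 : Real.exp (-tq C d b J 0) ≤ kk d / ((2 : ℝ) ^ J0) ^ d := by linarith
      have h10 := mul_le_mul_of_nonneg_left h9 hp0
      linarith
    calc (L : ℝ) ^ d * Real.log (1 + p * Real.exp (-tq C d b J 0)) ≤
        (L : ℝ) ^ d * (p * (kk d / ((2 : ℝ) ^ J0) ^ d)) := mul_le_mul_of_nonneg_left h7 hLd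
      _ = _ := by ring
  have hfin : p * ((L : ℝ) ^ d * (kk d / ((2 : ℝ) ^ J0) ^ d) *
      ∑ j ∈ Finset.range (J - 1), (3 / 4 : ℝ) ^ nd (j + 2) J0) ≤
      p * ((L : ℝ) ^ d * (kk d / ((2 : ℝ) ^ J0) ^ d) * 8) :=
    mul_le_mul_of_nonneg_left (mul_le_mul_of_nonneg_left hgeo (by positivity)) hp0
  calc _ ≤ p * ((L : ℝ) ^ d * (kk d / ((2 : ℝ) ^ J0) ^ d) * 8) +
        p * ((L : ℝ) ^ d * (kk d / ((2 : ℝ) ^ J0) ^ d)) := add_le_add (hsum.trans hfin) hlast
    _ = _ := by ring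

/-- The constant of the bound with several colours. -/
noncomputable def cqq (d p : ℕ) : ℝ := (p * cs d + (p + 1)) * ((p : ℝ) + 1) ^ d

/-- Exponential moment of the number of cycles. -/
theorem log_expect_fixQ_le (hd : 1 ≤ d) (hL : 2 ≤ L) {t : ℝ} (ht : 1 ≤ t) :
    Real.log (expect d L t (fixQ (Option C))) ≤
      (1 + Fintype.card C * Real.log (2 * (L : ℝ) ^ d)) +
      cqq d (Fintype.card C) * t ^ (-((d : ℝ) / 2)) * (L : ℝ) ^ d := by
  set p : ℝ := (Fintype.card C : ℝ) with hp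
  have hp0 : 0 ≤ p := by rw [hp]; positivity
  have ht0 : 0 < t := by linarith
  have hcs := cs_pos hd
  have hLpos : (1 : ℝ) ≤ L := by exact_mod_cast (by omega : 1 ≤ L)
  have hLd : 0 < (L : ℝ) ^ d := by positivity
  have hlogL : 0 ≤ Real.log (2 * (L : ℝ) ^ d) := by
    refine Real.log_nonneg ?_
    have : (1 : ℝ) ≤ (L : ℝ) ^ d := one_le_pow₀ hLpos
    linarith
  set w : ℝ := 2 / (p + 1) with hw
  have hw0 : 0 < w := by rw [hw]; positivity
  have hwt0 : 0 < w * t := by positivity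
  have hwinv : (w * t) ^ (-((d : ℝ) / 2)) ≤ (p + 1) ^ d * t ^ (-((d : ℝ) / 2)) := by
    rw [Real.mul_rpow hw0.le ht0.le]
    refine mul_le_mul_of_nonneg_right ?_ (Real.rpow_nonneg ht0.le _)
    have h1 : w⁻¹ ≤ p + 1 := by
      rw [hw, inv_div]
      linarith
    calc w ^ (-((d : ℝ) / 2)) = (w⁻¹) ^ ((d : ℝ) / 2) := by
          rw [Real.rpow_neg hw0.le, Real.inv_rpow hw0.le]
      _ ≤ (p + 1) ^ ((d : ℝ) / 2) := Real.rpow_le_rpow (by positivity) h1 (by positivity)
      _ ≤ (p + 1) ^ (d : ℝ) := by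
          refine Real.rpow_le_rpow_of_exponent_le (by linarith) ?_
          have : (0 : ℝ) ≤ d := by positivity
          linarith
      _ = (p + 1) ^ d := Real.rpow_natCast _ _
  have hrp : 0 ≤ t ^ (-((d : ℝ) / 2)) := Real.rpow_nonneg ht0.le _
  by_cases hwt : w * t < 1
  · have hE : 0 < expect d L t (fixQ (Option C)) := by
      have h2 := E_mono (c := fun _ : (Fin d → ZMod L) × Fin d => t) (fun _ => ht0.le)
        (edgeSwap d L) (f := fun _ => 1) (h := fixQ (Option C)) (fun σ => fixQ_ge_one σ)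
      rw [E_const] at h2
      rw [expect_eq]
      linarith
    have h1 : expect d L t (fixQ (Option C)) ≤ (p + 1) ^ (L ^ d) := by
      have h2 := expect_mono (d := d) (L := L) ht0.le (f := fixQ (Option C))
        (g := fun _ => (p + 1) ^ (L ^ d)) (fun σ => by
          have := fixQ_le (K := Option C) σ
          rw [Fintype.card_option, card_torus] at this
          push_cast at this
          exact this)
      rwa [expect_const] at h2
    have h3 := Real.log_le_log hE h1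
    rw [Real.log_pow] at h3
    push_cast at h3
    have h4 : Real.log (p + 1) ≤ p + 1 := by
      have := Real.log_le_sub_one_of_pos (show 0 < p + 1 by linarith)
      linarith
    have h5 : 1 ≤ (w * t) ^ (-((d : ℝ) / 2)) := by
      rw [Real.rpow_neg hwt0.le]
      rw [one_le_inv₀ (Real.rpow_pos_of_pos hwt0 _)]
      exact Real.rpow_le_one hwt0.le hwt.le (by positivity)
    have h6 : 1 ≤ (p + 1) ^ d * t ^ (-((d : ℝ) / 2)) := h5.trans hwinv
    have h7 : (L : ℝ) ^ d * Real.log (p + 1) ≤ (L : ℝ) ^ d * (p + 1) :=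
      mul_le_mul_of_nonneg_left h4 hLd.le
    have h8 : (p + 1) * 1 ≤ (p * cs d + (p + 1)) * ((p + 1) ^ d * t ^ (-((d : ℝ) / 2))) :=
      mul_le_mul (by nlinarith) h6 (by norm_num) (by positivity)
    have h9 : (L : ℝ) ^ d * (p + 1) ≤ cqq d (Fintype.card C) * t ^ (-((d : ℝ) / 2)) *
        (L : ℝ) ^ d := by
      unfold cqq
      rw [← hp]
      nlinarith
    have h10 : 0 ≤ p * Real.log (2 * (L : ℝ) ^ d) := mul_nonneg hp0 hlogL
    linarith
  · push Not at hwt
    set J0 := Nat.log 4 ⌊w * t⌋₊ with hJ0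
    have hft : 1 ≤ ⌊w * t⌋₊ := Nat.one_le_floor_iff _ |>.mpr hwt
    have h1 : (4 : ℝ) ^ J0 ≤ w * t := by
      have h2 : 4 ^ J0 ≤ ⌊w * t⌋₊ := Nat.pow_log_le_self 4 (by omega)
      have h3 : ((4 ^ J0 : ℕ) : ℝ) ≤ (⌊w * t⌋₊ : ℝ) := by exact_mod_cast h2
      push_cast at h3
      exact h3.trans (Nat.floor_le hwt0.le)
    have h2 : w * t < (4 : ℝ) ^ (J0 + 1) := by
      have h3 : ⌊w * t⌋₊ < 4 ^ (J0 + 1) := Nat.lt_pow_succ_log_self (by norm_num) _
      have h4 : (⌊w * t⌋₊ : ℝ) + 1 ≤ ((4 ^ (J0 + 1) : ℕ) : ℝ) := by exact_mod_cast h3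
      push_cast at h4
      exact (Nat.lt_floor_add_one (w * t)).trans_le h4
    have h3 := log_expect_fixQ_le_dyadic (C := C) (L := L) hd hL h1
    rw [← hp] at h3
    refine h3.trans (add_le_add_right ?_ _)
    have h4 : (w * t) ^ ((d : ℝ) / 2) ≤ ((2 : ℝ) ^ (J0 + 1)) ^ d := by
      have h5 : ((2 : ℝ) ^ (J0 + 1)) ^ d = ((4 : ℝ) ^ (J0 + 1)) ^ ((d : ℝ) / 2) := by
        rw [show (4 : ℝ) = 2 ^ 2 by norm_num, ← pow_mul, ← pow_mul, ← Real.rpow_natCast,
          ← Real.rpow_natCast, ← Real.rpow_mul (by norm_num)]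
        congr 1
        push_cast
        ring
      rw [h5]
      exact Real.rpow_le_rpow hwt0.le h2.le (by positivity)
    have hkk := kk_pos hd
    have h6 : 0 < (w * t) ^ ((d : ℝ) / 2) := Real.rpow_pos_of_pos hwt0 _
    have h7 : 9 * kk d / ((2 : ℝ) ^ J0) ^ d ≤ cs d * (w * t) ^ (-((d : ℝ) / 2)) := by
      rw [Real.rpow_neg hwt0.le]
      calc 9 * kk d / ((2 : ℝ) ^ J0) ^ d = 9 * 2 ^ d * kk d * (((2 : ℝ) ^ (J0 + 1)) ^ d)⁻¹ := by
            rw [pow_succ (2 : ℝ) J0, mul_pow]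
            field_simp
        _ ≤ 9 * 2 ^ d * kk d * ((w * t) ^ ((d : ℝ) / 2))⁻¹ :=
            mul_le_mul_of_nonneg_left (inv_anti₀ h6 h4) (by positivity)
        _ = _ := rfl
    have h8 : 9 * kk d / ((2 : ℝ) ^ J0) ^ d ≤ cs d * ((p + 1) ^ d * t ^ (-((d : ℝ) / 2))) :=
      h7.trans (mul_le_mul_of_nonneg_left hwinv hcs.le)
    calc p * (9 * kk d / ((2 : ℝ) ^ J0) ^ d * (L : ℝ) ^ d)
        ≤ p * (cs d * ((p + 1) ^ d * t ^ (-((d : ℝ) / 2))) * (L : ℝ) ^ d) :=
          mul_le_mul_of_nonneg_left (mul_le_mul_of_nonneg_right h8 hLd.le) hp0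
      _ = (p * cs d) * (p + 1) ^ d * t ^ (-((d : ℝ) / 2)) * (L : ℝ) ^ d := by ring
      _ ≤ (p * cs d + (p + 1)) * (p + 1) ^ d * t ^ (-((d : ℝ) / 2)) * (L : ℝ) ^ d := by
          refine mul_le_mul_of_nonneg_right ?_ hLd.le
          refine mul_le_mul_of_nonneg_right ?_ hrp
          refine mul_le_mul_of_nonneg_right ?_ (by positivity)
          linarith
      _ = _ := by unfold cqq; rw [← hp]

/-- The constant in terms of the basic error. -/
noncomputable def cE (d p : ℕ) : ℝ := 2 + p * (1 + d) + cqq d p * 2 ^ d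

theorem cqq_pos (hd : 1 ≤ d) (p : ℕ) : 0 < cqq d p := by
  have := cs_pos hd
  unfold cqq
  positivity

theorem cE_pos (hd : 1 ≤ d) (p : ℕ) : 0 < cE d p := by
  have := cqq_pos hd p
  unfold cE
  positivity

theorem log_fixQ_half_le (hd : 1 ≤ d) (hL : 2 ≤ L) {t : ℝ} (ht : 2 ≤ t) :
    Real.log (expect d L (t / 2) (fixQ (Option C))) ≤
      cE d (Fintype.card C) * bet d L t * (L : ℝ) ^ d := by
  have ht0 : 0 < t := by linarith
  refine (log_expect_fixQ_le (C := C) (L := L) hd hL (t := t / 2) (by linarith)).trans ?_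
  set p : ℝ := (Fintype.card C : ℝ) with hp
  have hp0 : 0 ≤ p := by rw [hp]; positivity
  have hcq := cqq_pos hd (Fintype.card C)
  have hL2 : (2 : ℝ) ≤ L := by exact_mod_cast hL
  have hLd : 0 < (L : ℝ) ^ d := by positivity
  have hlog2 : Real.log 2 ≤ Real.log L := Real.log_le_log (by norm_num) hL2
  have hl2 := Real.log_two_gt_d9
  have hlogL : 0 < Real.log L := by linarith
  have h1 : 1 + p * Real.log (2 * (L : ℝ) ^ d) ≤ (2 + p * (1 + d)) * Real.log L := by
    rw [Real.log_mul (by norm_num) (by positivity), Real.log_pow]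
    nlinarith [mul_nonneg hp0 (sub_nonneg.mpr hlog2)]
  have h2 : (t / 2) ^ (-((d : ℝ) / 2)) ≤ 2 ^ d * t ^ (-((d : ℝ) / 2)) := by
    rw [Real.div_rpow ht0.le (by norm_num), div_eq_mul_inv, mul_comm]
    refine mul_le_mul_of_nonneg_right ?_ (Real.rpow_nonneg ht0.le _)
    rw [← Real.rpow_neg (by norm_num), neg_neg]
    calc (2 : ℝ) ^ ((d : ℝ) / 2) ≤ 2 ^ (d : ℝ) := by
          refine Real.rpow_le_rpow_of_exponent_le (by norm_num) ?_
          have : (0 : ℝ) ≤ d := by positivity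
          linarith
      _ = 2 ^ d := Real.rpow_natCast _ _
  have h3 : cqq d (Fintype.card C) * (t / 2) ^ (-((d : ℝ) / 2)) * (L : ℝ) ^ d ≤
      cqq d (Fintype.card C) * (2 ^ d * t ^ (-((d : ℝ) / 2))) * (L : ℝ) ^ d :=
    mul_le_mul_of_nonneg_right (mul_le_mul_of_nonneg_left h2 hcq.le) hLd.le
  refine (add_le_add h1 h3).trans ?_
  have h4 : 0 ≤ t ^ (-((d : ℝ) / 2)) := Real.rpow_nonneg ht0.le _
  unfold cE bet
  rw [← hp]
  have e1 : (2 + p * (1 + d) + cqq d (Fintype.card C) * 2 ^ d) *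
      (t ^ (-((d : ℝ) / 2)) + Real.log L / (L : ℝ) ^ d) * (L : ℝ) ^ d =
      (2 + p * (1 + d)) * Real.log L + cqq d (Fintype.card C) * (2 ^ d * t ^ (-((d : ℝ) / 2))) *
        (L : ℝ) ^ d + ((2 + p * (1 + d)) * t ^ (-((d : ℝ) / 2)) * (L : ℝ) ^ d +
          cqq d (Fintype.card C) * 2 ^ d * Real.log L) := by
    field_simp
    ring
  rw [e1]
  have e2 : 0 ≤ (2 + p * (1 + d)) * t ^ (-((d : ℝ) / 2)) * (L : ℝ) ^ d +
          cqq d (Fintype.card C) * 2 ^ d * Real.log L := by positivity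
  linarith

end Torus

end Pool.Agent.Stirring
end
end

section

section

/-! Comparison of the correlations of the Ising chains at different distances. -/

open Finset Matrix

set_option linter.unusedSectionVars false

namespace Pool.Agent.Stirring

variable {d L : ℕ} [NeZero L]

/-- Expected correlation. -/
noncomputable def gExp (d L : ℕ) [NeZero L] (ϑ s : ℝ) (x y : Fin d → ZMod L) : ℝ :=
  expect d L s fun σ => Gt ϑ σ x y

theorem gExp_shift (ϑ s : ℝ) (x z : Fin d → ZMod L) :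
    gExp d L ϑ s x (x + z) = gExp d L ϑ s 0 z := by
  unfold gExp
  rw [expect_trans s x (fun σ => Gt ϑ σ x (x + z))]
  congr 1
  funext σ
  have h1 : trans d L x 0 = x := by simp [trans]
  have h2 : trans d L x z = x + z := by simp [trans, add_comm]
  have h := Gt_conj ϑ σ (trans d L x) 0 z
  rw [h1, h2] at h
  exact h

theorem gExp_nonneg {ϑ : ℝ} (h0 : 0 ≤ ϑ) {s : ℝ} (hs : 0 ≤ s) (x y : Fin d → ZMod L) :
    0 ≤ gExp d L ϑ s x y := by
  have h := expect_mono (d := d) (L := L) hs (f := fun _ => 0)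
    (g := fun σ => Gt ϑ σ x y) (fun σ => Gt_nonneg h0 σ x y)
  rwa [expect_const] at h

theorem gExp_le_one {ϑ : ℝ} (h0 : 0 ≤ ϑ) (h1 : ϑ ≤ 1) {s : ℝ} (hs : 0 ≤ s)
    (x y : Fin d → ZMod L) : gExp d L ϑ s x y ≤ 1 := by
  have h := expect_mono (d := d) (L := L) hs
    (f := fun σ => Gt ϑ σ x y) (g := fun _ => 1) (fun σ => Gt_le_one h0 h1 σ x y)
  rwa [expect_const] at h

/-- One term of the potential. -/
noncomputable def Dsp (z w x : Fin d → ZMod L) (A : Finset (Fin d → ZMod L)) : ℝ :=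
  (2 : ℝ)⁻¹ * (sg A x * sg A (x + z) - sg A x * sg A (x + w))

theorem Dsp_map {z w : Fin d → ZMod L} (hz : z ≠ 0) (hw : w ≠ 0) (x : Fin d → ZMod L)
    (A : Finset (Fin d → ZMod L)) :
    Dsp z w x (A.map (Equiv.swap (x + z) (x + w)).toEmbedding) = -Dsp z w x A := by
  have hx1 : x ≠ x + z := fun h => hz (by simpa using h.symm)
  have hx2 : x ≠ x + w := fun h => hw (by simpa using h.symm)
  unfold Dsp
  simp only [sg_map, Equiv.swap_inv, Equiv.swap_apply_of_ne_of_ne hx1 hx2,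
    Equiv.swap_apply_left, Equiv.swap_apply_right]
  ring

theorem abs_Dsp_le (z w x : Fin d → ZMod L) (A : Finset (Fin d → ZMod L)) :
    |Dsp z w x A| ≤ 1 := by
  unfold Dsp sg
  split_ifs <;> norm_num

theorem avgM_pot (ϑ γ : ℝ) (z w : Fin d → ZMod L) (τ : Equiv.Perm (Fin d → ZMod L)) :
    avgM ϑ (fun A => γ * ∑ x, Dsp z w x A) τ =
      γ * ∑ x, (2 : ℝ)⁻¹ * (Gt ϑ τ x (x + z) - Gt ϑ τ x (x + w)) := by
  rw [avgM_smul, avgM_sum]
  congr 1
  refine Finset.sum_congr rfl fun x _ => ?_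
  unfold Dsp
  rw [avgM_smul, avgM_sub, Gt_eq_avgM, Gt_eq_avgM]

theorem E_avgM_pot (ϑ t γ : ℝ) (z w : Fin d → ZMod L) :
    E (fun _ : (Fin d → ZMod L) × Fin d => t) (edgeSwap d L)
      (avgM ϑ (fun A => γ * ∑ x, Dsp z w x A)) =
      γ / 2 * (L : ℝ) ^ d * (gExp d L ϑ t 0 z - gExp d L ϑ t 0 w) := by
  have h1 : avgM ϑ (fun A => γ * ∑ x, Dsp z w x A) =
      fun τ : Equiv.Perm (Fin d → ZMod L) => γ / 2 * ∑ x : Fin d → ZMod L,
        (Gt ϑ τ x (x + z) + (-1) * Gt ϑ τ x (x + w)) := by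
    funext τ
    rw [avgM_pot, Finset.mul_sum, Finset.mul_sum]
    exact Finset.sum_congr rfl fun x _ => by ring
  rw [h1, E_smul, E_sum]
  have h2 : ∀ x ∈ (Finset.univ : Finset (Fin d → ZMod L)),
      E (fun _ : (Fin d → ZMod L) × Fin d => t) (edgeSwap d L)
        (fun τ => Gt ϑ τ x (x + z) + (-1) * Gt ϑ τ x (x + w)) =
      gExp d L ϑ t 0 z - gExp d L ϑ t 0 w := by
    intro x _
    rw [E_add, E_smul, ← expect_eq, ← expect_eq]
    have h3 : expect d L t (fun τ => Gt ϑ τ x (x + z)) = gExp d L ϑ t 0 z := gExp_shift ϑ t x z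
    have h4 : expect d L t (fun τ => Gt ϑ τ x (x + w)) = gExp d L ϑ t 0 w := gExp_shift ϑ t x w
    rw [h3, h4]; ring
  rw [Finset.sum_congr rfl h2, Finset.sum_const, Finset.card_univ, card_torus, nsmul_eq_mul]
  push_cast; ring

/-- The trace with a potential. -/
theorem trace_pot_le {t : ℝ} (ht : 0 < t) {γ : ℝ} (hγ : 0 < γ) {z w : Fin d → ZMod L}
    (D : (Fin d → ZMod L) → Finset (Fin d → ZMod L) → ℝ)
    (hD : ∀ x A, D x (A.map (Equiv.swap (x + z) (x + w)).toEmbedding) = -D x A)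
    (hD1 : ∀ x A, |D x A| ≤ 1) (k : Fin d → ℤ) (hk : w = z + red d L k)
    (hK : 0 < ∑ i, |(k i : ℝ)|) :
    trace (NormedSpace.exp (∑ a, (fun _ : (Fin d → ZMod L) × Fin d => t) a •
      (rhoS (Fin d → ZMod L) (edgeSwap d L a) - 1) + diagonal (fun A => γ * ∑ x, D x A))) ≤
    Real.exp (4 * γ ^ 2 * (∑ i, |(k i : ℝ)|) ^ 2 * (L : ℝ) ^ d / t) *
      expect d L (t / 2) fixSets := by
  set K := ∑ i, |(k i : ℝ)| with hKdef
  set κ := 4 * γ ^ 2 * K ^ 2 * (L : ℝ) ^ d / t with hκ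
  have h0 : expect d L (t / 2) fixSets = trace (NormedSpace.exp
      (∑ a, (fun _ : (Fin d → ZMod L) × Fin d => t / 2) a •
        (rhoS (Fin d → ZMod L) (edgeSwap d L a) - 1))) := by
    rw [expect_eq]
    have h1 : (fixSets : Equiv.Perm (Fin d → ZMod L) → ℝ) = fun σ =>
        trace (rhoS (Fin d → ZMod L) σ) := by
      funext σ; exact fixSets_eq_trace σ
    rw [h1, E_trace]
  rw [h0, ← trace_exp_add_smul_one]
  have hsym : ∀ s : ℝ, (∑ a, (fun _ : (Fin d → ZMod L) × Fin d => s) a •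
      (rhoS (Fin d → ZMod L) (edgeSwap d L a) - 1)).IsSymm := fun s =>
    isSymm_gen _ _ edgeSwap_mul_self
  refine trace_exp_mono ?_ ?_ fun f => ?_
  · rw [Matrix.IsSymm, Matrix.transpose_add, (hsym t).eq, diagonal_transpose]
  · rw [Matrix.IsSymm, Matrix.transpose_add, (hsym (t / 2)).eq, Matrix.transpose_smul,
      Matrix.transpose_one]
  rw [Matrix.add_mulVec, dotProduct_add, Matrix.add_mulVec, dotProduct_add, quad_gen, quad_gen]
  have h2 : f ⬝ᵥ (diagonal (fun A => γ * ∑ x, D x A)).mulVec f =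
      ∑ A, (γ * ∑ x, D x A) * f A ^ 2 := by
    unfold dotProduct
    refine Finset.sum_congr rfl fun A _ => ?_
    rw [mulVec_diagonal]; ring
  have h3 : f ⬝ᵥ (κ • (1 : Matrix (Finset (Fin d → ZMod L)) (Finset (Fin d → ZMod L)) ℝ)).mulVec f =
      κ * ∑ A, f A ^ 2 := by
    rw [Matrix.smul_mulVec, Matrix.one_mulVec, dotProduct_smul, smul_eq_mul]
    congr 1
    unfold dotProduct
    exact Finset.sum_congr rfl fun A _ => by ring
  rw [h2, h3]
  set a : ℝ := t / (8 * γ * K ^ 2) with ha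
  have hapos : 0 < a := by positivity
  set S := ∑ e, lenFun f (edgeSwap d L e) ^ 2 with hS
  have h4 : ∑ A, (γ * ∑ x, D x A) * f A ^ 2 ≤
      γ * (a / 2 * (4 * K ^ 2 * S) + (L : ℝ) ^ d * (1 / (2 * a) * ∑ A, f A ^ 2)) := by
    have h5 : ∑ A, (γ * ∑ x, D x A) * f A ^ 2 = γ * ∑ x, ∑ A, D x A * f A ^ 2 := by
      rw [Finset.sum_comm, Finset.mul_sum]
      refine Finset.sum_congr rfl fun A _ => ?_
      rw [mul_assoc, Finset.sum_mul]
    rw [h5]
    refine mul_le_mul_of_nonneg_left ?_ hγ.le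
    have h6 := Finset.sum_le_sum fun x (_ : x ∈ (Finset.univ : Finset (Fin d → ZMod L))) =>
      quad_diag_le (D x) f (hD x) (hD1 x) hapos
    rw [Finset.sum_add_distrib, ← Finset.mul_sum] at h6
    simp only [Finset.sum_const, Finset.card_univ, card_torus, nsmul_eq_mul] at h6
    push_cast at h6
    refine h6.trans (add_le_add_left (mul_le_mul_of_nonneg_left ?_ (by positivity)) _)
    exact sum_swap_sq_le (isLen_lenFun f) z w k hk
  have h7 : γ * (a / 2 * (4 * K ^ 2 * S)) = t / 4 * S := by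
    rw [ha]; field_simp; ring
  have h8 : γ * ((L : ℝ) ^ d * (1 / (2 * a) * ∑ A, f A ^ 2)) = κ * ∑ A, f A ^ 2 := by
    rw [ha, hκ]; field_simp; ring
  have h9 : ∀ s : ℝ, ∑ e : (Fin d → ZMod L) × Fin d, s * lenFun f (edgeSwap d L e) ^ 2 = s * S := by
    intro s; rw [hS, Finset.mul_sum]
  rw [h9, h9]
  rw [mul_add, h7, h8] at h4
  linarith

/-- The comparison of the correlation at two distances, with a free parameter. -/
theorem corr_free {ϑ : ℝ} (h0 : 0 ≤ ϑ) (h1 : ϑ ≤ 1) (hd : 1 ≤ d) (hL : 2 ≤ L) {t : ℝ}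
    (ht : 2 ≤ t) {γ : ℝ} (hγ : 0 < γ)
    {z w : Fin d → ZMod L} (hz : z ≠ 0) (hw : w ≠ 0) (k : Fin d → ℤ) (hk : w = z + red d L k)
    (hK : 0 < ∑ i, |(k i : ℝ)|) :
    γ / 2 * (L : ℝ) ^ d * (gExp d L ϑ t 0 z - gExp d L ϑ t 0 w) ≤
      4 * γ ^ 2 * (∑ i, |(k i : ℝ)|) ^ 2 * (L : ℝ) ^ d / t +
        (Real.log ((L : ℝ) ^ d + 1) + cs d * (t / 2) ^ (-((d : ℝ) / 2)) * (L : ℝ) ^ d) := by
  have ht0 : 0 ≤ t := by linarith
  have hj := path_jensenM h0 h1 (c := fun _ : (Fin d → ZMod L) × Fin d => t) (fun _ => ht0)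
    (edgeSwap d L) (fun A => γ * ∑ x, Dsp z w x A)
  have hsym : (∑ a, (fun _ : (Fin d → ZMod L) × Fin d => t) a •
      (rhoS (Fin d → ZMod L) (edgeSwap d L a) - 1) +
        diagonal (fun A => γ * ∑ x, Dsp z w x A)).IsSymm := by
    have := isSymm_gen (fun _ : (Fin d → ZMod L) × Fin d => t) _
      (edgeSwap_mul_self (d := d) (L := L))
    rw [Matrix.IsSymm, Matrix.transpose_add, this.eq, diagonal_transpose]
  have h2 := (hj.trans (trace_MM_mul_exp_le h0 h1 hsym)).trans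
    (trace_pot_le (by linarith) hγ (Dsp z w) (fun x A => Dsp_map hz hw x A)
      (fun x A => abs_Dsp_le z w x A) k hk hK)
  have hE : 0 < expect d L (t / 2) fixSets := by
    have h3 := expect_mono (d := d) (L := L) (t := t / 2) (by linarith) (f := fun _ => 1)
      (g := fixSets) (fun σ => by rw [fixSets_eq_two_pow]; exact one_le_pow₀ (by norm_num))
    rw [expect_const] at h3
    linarith
  have h3 := Real.log_le_log (Real.exp_pos _) h2
  rw [Real.log_exp, Real.log_mul (Real.exp_pos _).ne' hE.ne', Real.log_exp, E_avgM_pot] at h3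
  have h4 := log_expect_fixSets_le (L := L) hd hL (t := t / 2) (by linarith)
  have h5 : 0 ≤ E (fun _ : (Fin d → ZMod L) × Fin d => t) (edgeSwap d L)
      (fun σ => Real.log (Zt ϑ σ)) := E_nonneg (fun _ => ht0) _ fun σ => log_Zt_nonneg h0 σ
  linarith

/-- Optimization of the free parameter. -/
theorem opt_gamma (hd : 1 ≤ d) (hL : 2 ≤ L) {t : ℝ} (ht : 1 ≤ t) {K Δ : ℝ} (hK1 : 1 ≤ K)
    (hΔ1 : Δ ≤ 1)
    (h : 2 ≤ t → ∀ γ : ℝ, 0 < γ → γ / 2 * (L : ℝ) ^ d * Δ ≤ 4 * γ ^ 2 * K ^ 2 * (L : ℝ) ^ d / t +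
        (Real.log ((L : ℝ) ^ d + 1) + cs d * (t / 2) ^ (-((d : ℝ) / 2)) * (L : ℝ) ^ d)) :
    Δ ≤ cg d * K * Real.sqrt (bet d L t / t) := by
  have ht0 : 0 < t := by linarith
  have hb := bet_pos (d := d) hL ht0
  have hcg := cg_pos hd
  have hcs := cs_pos hd
  have hLpos : (0 : ℝ) < L := by exact_mod_cast (by omega : 0 < L)
  have hLd : 0 < (L : ℝ) ^ d := by positivity
  set β := bet d L t with hβ
  have hKpos : 0 < K := by linarith
  by_cases ht2 : t < 2
  · refine hΔ1.trans ?_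
    have h2 : (1 / 2 ^ (d + 1)) ^ 2 ≤ β / t := by
      have h3 : (1 / 2 : ℝ) ^ d ≤ t ^ (-((d : ℝ) / 2)) := by
        rw [Real.rpow_neg ht0.le, one_div, inv_pow]
        refine inv_anti₀ (Real.rpow_pos_of_pos ht0 _) ?_
        calc t ^ ((d : ℝ) / 2) ≤ 2 ^ ((d : ℝ) / 2) :=
              Real.rpow_le_rpow ht0.le ht2.le (by positivity)
          _ ≤ 2 ^ (d : ℝ) := by
              refine Real.rpow_le_rpow_of_exponent_le (by norm_num) ?_
              have : (0 : ℝ) ≤ d := by positivity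
              linarith
          _ = 2 ^ d := Real.rpow_natCast _ _
      have h4 : t ^ (-((d : ℝ) / 2)) ≤ β := by
        have h2 : 0 ≤ Real.log L := Real.log_nonneg (by exact_mod_cast (by omega : 1 ≤ L))
        have h3 : 0 ≤ Real.log L / (L : ℝ) ^ d := by positivity
        rw [hβ]; unfold bet; linarith
      rw [le_div_iff₀ ht0]
      have h5 : (1 / 2 ^ (d + 1) : ℝ) ^ 2 = (1 / 2) ^ d * ((1 / 2) ^ d * (1 / 4)) := by
        rw [div_pow, one_pow, div_pow, one_pow, ← pow_mul, mul_comm (d + 1) 2, pow_mul]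
        rw [pow_succ]
        have : ((2 : ℝ) ^ 2) ^ d = 2 ^ d * 2 ^ d := by rw [← pow_mul, two_mul, pow_add]
        rw [this]; field_simp; norm_num
      have h6 : (1 / 2 : ℝ) ^ d ≤ 1 := pow_le_one₀ (by norm_num) (by norm_num)
      have h7 : 0 < (1 / 2 : ℝ) ^ d := by positivity
      rw [h5]
      nlinarith
    have h3 : 1 / 2 ^ (d + 1) ≤ Real.sqrt (β / t) := by
      rw [Real.le_sqrt' (by positivity)]; exact h2
    have h4 : (2 : ℝ) ^ (d + 1) ≤ cg d := by
      have : 0 ≤ 4 * (4 + ((d : ℝ) + 1) + cs d * 2 ^ d) := by positivity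
      unfold cg; linarith
    calc (1 : ℝ) = 2 ^ (d + 1) * 1 * (1 / 2 ^ (d + 1)) := by field_simp
      _ ≤ cg d * K * Real.sqrt (β / t) :=
          mul_le_mul (mul_le_mul h4 hK1 (by norm_num) hcg.le) h3 (by positivity) (by positivity)
  · push Not at ht2
    set γ := Real.sqrt (t * β) / K with hγ
    have hsq : 0 < Real.sqrt (t * β) := Real.sqrt_pos.mpr (by positivity)
    have hγpos : 0 < γ := by positivity
    have h1 := h ht2 γ hγpos
    have h2 := log_add_le (L := L) hd hL ht0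
    have h3 : 4 * γ ^ 2 * K ^ 2 * (L : ℝ) ^ d / t = 4 * β * (L : ℝ) ^ d := by
      rw [hγ, div_pow, Real.sq_sqrt (by positivity)]; field_simp
    rw [h3] at h1
    have h4 : γ / 2 * Δ ≤ (4 + (d + 1) + cs d * 2 ^ d) * β := by
      have h5 : γ / 2 * Δ * (L : ℝ) ^ d ≤ (4 + (d + 1) + cs d * 2 ^ d) * β * (L : ℝ) ^ d := by
        nlinarith
      exact le_of_mul_le_mul_right h5 hLd
    have h5 : Δ ≤ 2 * (4 + (d + 1) + cs d * 2 ^ d) * (β / γ) := by
      rw [← mul_div_assoc, le_div_iff₀ hγpos]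
      linarith
    have h6 : β / γ = K * Real.sqrt (β / t) := by
      have h7 : Real.sqrt (β / t) = Real.sqrt (t * β) / t := by
        rw [show β / t = (t * β) / t ^ 2 by field_simp, Real.sqrt_div (by positivity),
          Real.sqrt_sq ht0.le]
      have hs2 : Real.sqrt (t * β) * Real.sqrt (t * β) = t * β :=
        Real.mul_self_sqrt (by positivity)
      rw [h7, hγ, div_div_eq_mul_div, mul_div_assoc', div_eq_div_iff hsq.ne' ht0.ne']
      linear_combination (-K) * hs2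
    rw [h6] at h5
    have h7 : 2 * (4 + ((d : ℝ) + 1) + cs d * 2 ^ d) ≤ cg d := by
      unfold cg
      have h8 : (0 : ℝ) ≤ 2 ^ (d + 1) := by positivity
      have h9 : 0 ≤ cs d * 2 ^ d := by positivity
      have h10 : (0 : ℝ) ≤ d := by positivity
      linarith
    calc Δ ≤ 2 * (4 + (d + 1) + cs d * 2 ^ d) * (K * Real.sqrt (β / t)) := h5
      _ ≤ cg d * (K * Real.sqrt (β / t)) := mul_le_mul_of_nonneg_right h7 (by positivity)
      _ = _ := by ring

/-- Correlations at different distances are close. -/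
theorem corr_le {ϑ : ℝ} (h0 : 0 ≤ ϑ) (h1 : ϑ ≤ 1) (hd : 1 ≤ d) (hL : 2 ≤ L) {t : ℝ} (ht : 1 ≤ t)
    {z w : Fin d → ZMod L} (hz : z ≠ 0) (hw : w ≠ 0) (k : Fin d → ℤ) (hk : w = z + red d L k) :
    gExp d L ϑ t 0 z - gExp d L ϑ t 0 w ≤
      cg d * (∑ i, |(k i : ℝ)|) * Real.sqrt (bet d L t / t) := by
  have ht0 : 0 < t := by linarith
  have hb := bet_pos (d := d) hL ht0
  have hcg := cg_pos hd
  have hKnn : 0 ≤ ∑ i, |(k i : ℝ)| := Finset.sum_nonneg fun _ _ => abs_nonneg _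
  by_cases hK : ∀ i, k i = 0
  · have : w = z := by
      rw [hk]
      ext i
      simp [red, hK i]
    rw [this, sub_self]
    positivity
  push Not at hK
  obtain ⟨i0, hi0⟩ := hK
  have hK1 : 1 ≤ ∑ i, |(k i : ℝ)| := by
    refine le_trans ?_ (Finset.single_le_sum (f := fun i => |(k i : ℝ)|)
      (fun i _ => abs_nonneg _) (Finset.mem_univ i0))
    exact_mod_cast Int.one_le_abs hi0
  refine opt_gamma hd hL ht hK1 ?_ fun ht2 γ hγ =>
    corr_free h0 h1 hd hL ht2 hγ hz hw k hk (by linarith)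
  have := gExp_le_one h0 h1 ht0.le (0 : Fin d → ZMod L) z
  have := gExp_nonneg h0 ht0.le (0 : Fin d → ZMod L) w
  linarith

end Pool.Agent.Stirring
end

section

/-! Long cycles from the two-point function. -/

open Finset

set_option linter.unusedSectionVars false

namespace Pool.Agent.Stirring

variable {d L : ℕ} [NeZero L]

/-- The points of the box of side `r` with corner `x`. -/
def boxPt (d L r : ℕ) (x : Fin d → ZMod L) (κ : Fin d → Fin r) : Fin d → ZMod L :=
  x + red d L fun i => ((κ i : ℕ) : ℤ)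

theorem boxPt_injective {r : ℕ} (hr : r ≤ L) (x : Fin d → ZMod L) :
    Function.Injective (boxPt d L r x) := by
  intro κ κ' h
  unfold boxPt at h
  have h1 := add_left_cancel h
  funext i
  have h2 := congrFun h1 i
  simp only [red, Int.cast_natCast] at h2
  have h3 := congrArg ZMod.val h2
  rw [ZMod.val_natCast_of_lt (lt_of_lt_of_le (κ i).2 hr),
    ZMod.val_natCast_of_lt (lt_of_lt_of_le (κ' i).2 hr)] at h3
  exact Fin.ext h3

theorem continuous_expect (f : Equiv.Perm (Fin d → ZMod L) → ℝ) :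
    Continuous fun s : ℝ => expect d L s f := by
  have : (fun s : ℝ => expect d L s f) = fun s =>
    E (fun _ : (Fin d → ZMod L) × Fin d => s) (edgeSwap d L) f := by
    funext s; exact expect_eq s _
  rw [this]
  exact continuous_E _ _

theorem cyc_box (σ : Equiv.Perm (Fin d → ZMod L)) {r : ℕ} (hr1 : 1 ≤ r) (hr : r ≤ L)
    (x : Fin d → ZMod L) {ε : ℝ} (hε : 0 ≤ ε) :
    (∑ κ : Fin d → Fin r, if σ.SameCycle x (boxPt d L r x κ) then (1 : ℝ) else 0) / (r : ℝ) ^ d +
      (-ε) ≤ if ε * (r : ℝ) ^ d ≤ ((cyc σ x).card : ℝ) then 1 else 0 := by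
  classical
  have hrpos : (0 : ℝ) < (r : ℝ) ^ d := by
    have : (0 : ℝ) < r := by exact_mod_cast hr1
    positivity
  have h1 : (∑ κ : Fin d → Fin r, if σ.SameCycle x (boxPt d L r x κ) then (1 : ℝ) else 0) =
      ((Finset.univ.filter fun κ : Fin d → Fin r =>
        σ.SameCycle x (boxPt d L r x κ)).card : ℝ) := by
    rw [Finset.card_filter]; push_cast
    exact Finset.sum_congr rfl fun κ _ => by congr
  have h2 : (Finset.univ.filter fun κ : Fin d → Fin r =>
        σ.SameCycle x (boxPt d L r x κ)).card ≤ (cyc σ x).card := by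
    refine Finset.card_le_card_of_injOn (boxPt d L r x) ?_ ((boxPt_injective hr x).injOn)
    intro κ hκ
    rw [Finset.coe_filter] at hκ
    exact mem_cyc.mpr hκ.2
  have h3 : (Finset.univ.filter fun κ : Fin d → Fin r =>
        σ.SameCycle x (boxPt d L r x κ)).card ≤ r ^ d := by
    refine (Finset.card_le_univ _).trans ?_
    rw [Fintype.card_fun, Fintype.card_fin, Fintype.card_fin]
  have h2' : ((Finset.univ.filter fun κ : Fin d → Fin r =>
        σ.SameCycle x (boxPt d L r x κ)).card : ℝ) ≤ ((cyc σ x).card : ℝ) := by exact_mod_cast h2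
  have h3' : ((Finset.univ.filter fun κ : Fin d → Fin r =>
        σ.SameCycle x (boxPt d L r x κ)).card : ℝ) ≤ (r : ℝ) ^ d := by exact_mod_cast h3
  rw [h1]
  split_ifs with h4
  · have h5 := div_le_one_of_le₀ h3' hrpos.le
    linarith
  · push Not at h4
    have h5 := div_lt_div_of_pos_right (h2'.trans_lt h4) hrpos
    rw [mul_div_cancel_right₀ _ hrpos.ne'] at h5
    linarith

theorem sum_single_norm (d r : ℕ) (κ : Fin d → Fin r) :
    ∑ i, |((((κ i : ℕ) : ℤ)) : ℝ)| ≤ d * r := by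
  have h : ∀ i, |((((κ i : ℕ) : ℤ)) : ℝ)| ≤ r := by
    intro i
    rw [Int.cast_natCast, abs_of_nonneg (Nat.cast_nonneg _)]
    exact_mod_cast (κ i).2.le
  refine (Finset.sum_le_sum fun i _ => h i).trans ?_
  rw [Finset.sum_const, Finset.card_univ, Fintype.card_fin, nsmul_eq_mul]

theorem same_self_window {t T : ℝ} (hT : 0 < T) (x : Fin d → ZMod L) :
    (∫ s in t..(t + T), sameProb d L s x x) / T = 1 := by
  have h : ∀ s, sameProb d L s x x = 1 := by
    intro s
    unfold sameProb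
    have : (fun σ : Equiv.Perm (Fin d → ZMod L) => if σ.SameCycle x x then (1 : ℝ) else 0) =
        fun _ => 1 := by
      funext σ; rw [if_pos (Equiv.Perm.SameCycle.refl _ _)]
    rw [this, expect_const]
  simp only [h, intervalIntegral.integral_const, smul_eq_mul, mul_one]
  rw [add_sub_cancel_left, div_self hT.ne']

/-- Cycles are long with probability almost one half. -/
theorem long_window (hd : 1 ≤ d) (hL : 3 ≤ L) {t T : ℝ} (ht : 1 ≤ t) (hT : 0 < T)
    (x : Fin d → ZMod L) {r : ℕ} (hr1 : 1 ≤ r) (hr : r ≤ L) {ε : ℝ} (hε : 0 ≤ ε) :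
    1 / 2 - ε - d * clr d * (bet d L t / T + r * Real.sqrt (bet d L t / t)) ≤
      (∫ s in t..(t + T), expect d L s
        (fun σ => if ε * (r : ℝ) ^ d ≤ ((cyc σ x).card : ℝ) then (1 : ℝ) else 0)) / T := by
  classical
  have hclr := clr_pos hd
  have hL2 : 2 ≤ L := by omega
  have ht0 : 0 < t := by linarith
  have hb := bet_pos (d := d) hL2 ht0
  have hd1 : (1 : ℝ) ≤ d := by exact_mod_cast hd
  have hrr : (0 : ℝ) < r := by exact_mod_cast hr1
  have hrpos : (0 : ℝ) < (r : ℝ) ^ d := by positivity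
  set err := d * clr d * (bet d L t / T + r * Real.sqrt (bet d L t / t)) with herr
  have herr0 : 0 ≤ err := by positivity
  -- pointwise lower bound in time
  have h1 : ∀ s ∈ Set.Icc t (t + T),
      (∑ κ : Fin d → Fin r, sameProb d L s x (boxPt d L r x κ)) / (r : ℝ) ^ d + (-ε) ≤
      expect d L s (fun σ => if ε * (r : ℝ) ^ d ≤ ((cyc σ x).card : ℝ) then (1 : ℝ) else 0) := by
    intro s hs
    have hs0 : 0 ≤ s := ht0.le.trans hs.1
    have h2 := expect_mono (d := d) (L := L) hs0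
      (f := fun σ => ((r : ℝ) ^ d)⁻¹ * (∑ κ : Fin d → Fin r,
        if σ.SameCycle x (boxPt d L r x κ) then (1 : ℝ) else 0) + (-ε))
      (g := fun σ => if ε * (r : ℝ) ^ d ≤ ((cyc σ x).card : ℝ) then (1 : ℝ) else 0)
      (fun σ => by
        have := cyc_box σ hr1 hr x hε
        rw [div_eq_inv_mul] at this
        exact this)
    rw [expect_eq, E_add, E_const, E_smul, E_sum] at h2
    refine le_trans (le_of_eq ?_) h2
    rw [div_eq_inv_mul]
    congr 2
    exact Finset.sum_congr rfl fun κ _ => by rw [← expect_eq]; rfl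
  have hc1 : ∀ κ : Fin d → Fin r, IntervalIntegrable
      (fun s => sameProb d L s x (boxPt d L r x κ)) MeasureTheory.volume t (t + T) := fun κ =>
    (continuous_sameProb x _).intervalIntegrable _ _
  have h3 := intervalIntegral.integral_mono_on (by linarith)
    (f := fun s => (∑ κ : Fin d → Fin r, sameProb d L s x (boxPt d L r x κ)) / (r : ℝ) ^ d + (-ε))
    (g := fun s => expect d L s
      (fun σ => if ε * (r : ℝ) ^ d ≤ ((cyc σ x).card : ℝ) then (1 : ℝ) else 0))
    (a := t) (b := t + T) (μ := MeasureTheory.volume)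
    (Continuous.intervalIntegrable (by
      have := fun κ : Fin d → Fin r => continuous_sameProb (d := d) (L := L) x (boxPt d L r x κ)
      fun_prop) _ _)
    ((continuous_expect _).intervalIntegrable _ _) h1
  rw [intervalIntegral.integral_add (Continuous.intervalIntegrable (by
      have := fun κ : Fin d → Fin r => continuous_sameProb (d := d) (L := L) x (boxPt d L r x κ)
      fun_prop) _ _) intervalIntegrable_const, intervalIntegral.integral_div,
    intervalIntegral.integral_finsetSum fun κ _ => hc1 κ] at h3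
  simp only [intervalIntegral.integral_const, add_sub_cancel_left, smul_eq_mul] at h3
  have h4 : ∀ κ : Fin d → Fin r,
      T * (1 / 2 - err) ≤ ∫ s in t..(t + T), sameProb d L s x (boxPt d L r x κ) := by
    intro κ
    by_cases hx : x = boxPt d L r x κ
    · have h5 := same_self_window (d := d) (L := L) (t := t) hT x
      rw [← hx]
      rw [div_eq_one_iff_eq hT.ne'] at h5
      rw [h5]
      nlinarith
    · have h5 := same_window hd hL ht hT x (boxPt d L r x κ) (fun i => ((κ i : ℕ) : ℤ)) hx rfl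
      have h6 := sum_single_norm d r κ
      have h7 : clr d * (bet d L t / T + ((∑ i, |((((κ i : ℕ) : ℤ)) : ℝ)|) - 1) *
          Real.sqrt (bet d L t / t)) ≤ err := by
        rw [herr, mul_comm (d : ℝ) (clr d), mul_assoc]
        refine mul_le_mul_of_nonneg_left ?_ hclr.le
        have h8 : ((∑ i, |((((κ i : ℕ) : ℤ)) : ℝ)|) - 1) * Real.sqrt (bet d L t / t) ≤
            d * r * Real.sqrt (bet d L t / t) :=
          mul_le_mul_of_nonneg_right (by linarith) (Real.sqrt_nonneg _)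
        have h9 : 0 ≤ bet d L t / T := by positivity
        nlinarith
      have h8 := (abs_le.mp (h5.trans h7)).1
      have h9 : 1 / 2 - err ≤ (∫ s in t..(t + T), sameProb d L s x (boxPt d L r x κ)) / T := by
        linarith
      rw [le_div_iff₀ hT] at h9
      linarith
  have h5 := Finset.sum_le_sum fun κ (_ : κ ∈ (Finset.univ : Finset (Fin d → Fin r))) => h4 κ
  simp only [Finset.sum_const, Finset.card_univ, Fintype.card_fun, Fintype.card_fin,
    nsmul_eq_mul] at h5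
  push_cast at h5
  rw [le_div_iff₀ hT]
  refine le_trans ?_ h3
  have h6 : T * (1 / 2 - err) ≤
      (∑ κ : Fin d → Fin r, ∫ s in t..(t + T), sameProb d L s x (boxPt d L r x κ)) /
        (r : ℝ) ^ d := by
    rw [le_div_iff₀ hrpos]
    linarith
  linarith

end Pool.Agent.Stirring
end

section

/-! Macroscopic cycles long before the mixing time. -/

open Finset

set_option linter.unusedSectionVars false

namespace Pool.Agent.Stirring

variable {d L : ℕ} [NeZero L]

theorem log_pow_bound (hd : 1 ≤ d) (hL : 3 ≤ L) :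
    (Real.log L) ^ (d + 2) ≤ 27 ^ (d ^ 2) * (L : ℝ) ^ (d ^ 2) := by
  have hL' : (3 : ℝ) ≤ L := by exact_mod_cast hL
  have hLpos : (0 : ℝ) < L := by linarith
  have h1 : 1 ≤ Real.log L := by
    rw [Real.le_log_iff_exp_le hLpos]
    have := Real.exp_one_lt_d9
    linarith
  have h2 : (Real.log L) ^ 3 ≤ 27 * L := by
    have h3 : Real.exp (Real.log L / 3) ^ 3 = L := by
      rw [← Real.exp_nat_mul]
      rw [show ((3 : ℕ) : ℝ) * (Real.log L / 3) = Real.log L by push_cast; ring, Real.exp_log hLpos]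
    have h4 : Real.log L / 3 ≤ Real.exp (Real.log L / 3) := by
      have := Real.add_one_le_exp (Real.log L / 3)
      linarith
    have h5 := pow_le_pow_left₀ (by linarith : 0 ≤ Real.log L / 3) h4 3
    rw [h3, div_pow] at h5
    rw [div_le_iff₀ (by norm_num)] at h5
    linarith
  have h3 : d + 2 ≤ 3 * d ^ 2 := by nlinarith
  calc (Real.log L) ^ (d + 2) ≤ (Real.log L) ^ (3 * d ^ 2) := pow_le_pow_right₀ h1 h3
    _ = ((Real.log L) ^ 3) ^ (d ^ 2) := pow_mul _ _ _
    _ ≤ (27 * L) ^ (d ^ 2) := pow_le_pow_left₀ (by positivity) h2 _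
    _ = _ := mul_pow _ _ _

theorem macro_arith (hd : 1 ≤ d) {C δ : ℝ} (hC : 0 < C) (hδ : 0 < δ) :
    ∃ K : ℝ, 0 < K ∧ ∀ L : ℕ, 3 ≤ L → ∀ t T : ℝ, 1 ≤ t → 0 < T →
      K * (L : ℝ) ^ 4 ≤ t ^ (d + 2) → K * bet d L t ≤ T →
      C * (bet d L t / T + L * Real.sqrt (bet d L t / t)) ≤ δ := by
  set η := δ / (2 * C) with hη
  have hηpos : 0 < η := by positivity
  refine ⟨1 / η + 4 / η ^ 4 + 27 ^ (d ^ 2) * (2 / η ^ 2) ^ (d + 2), by positivity, ?_⟩
  intro L hL t T ht hT h1 h2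
  have hne : NeZero L := ⟨by omega⟩
  set K := 1 / η + 4 / η ^ 4 + 27 ^ (d ^ 2) * (2 / η ^ 2) ^ (d + 2) with hK
  have hKpos : 0 < K := by positivity
  have hK1 : 1 / η ≤ K := by
    have : 0 ≤ 4 / η ^ 4 := by positivity
    have : 0 ≤ 27 ^ (d ^ 2) * (2 / η ^ 2) ^ (d + 2) := by positivity
    linarith
  have hK2 : 4 / η ^ 4 ≤ K := by
    have : 0 ≤ 1 / η := by positivity
    have : 0 ≤ 27 ^ (d ^ 2) * (2 / η ^ 2) ^ (d + 2) := by positivity
    linarith
  have hK3 : 27 ^ (d ^ 2) * (2 / η ^ 2) ^ (d + 2) ≤ K := by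
    have : 0 ≤ 1 / η := by positivity
    have : 0 ≤ 4 / η ^ 4 := by positivity
    linarith
  have hL' : (3 : ℝ) ≤ L := by exact_mod_cast hL
  have hLpos : (0 : ℝ) < L := by linarith
  have ht0 : 0 < t := by linarith
  have hlog : 0 ≤ Real.log L := Real.log_nonneg (by linarith)
  have hb : 0 < bet d L t := by
    have h1 : 0 < t ^ (-((d : ℝ) / 2)) := Real.rpow_pos_of_pos ht0 _
    have h3 : 0 ≤ Real.log L / (L : ℝ) ^ d := by positivity
    unfold bet; linarith
  -- first term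
  have hA : bet d L t / T ≤ η := by
    rw [div_le_iff₀ hT]
    have h3 : 1 ≤ η * K := by
      have := mul_le_mul_of_nonneg_left hK1 hηpos.le
      rwa [mul_one_div_cancel hηpos.ne'] at this
    calc bet d L t ≤ (η * K) * bet d L t := le_mul_of_one_le_left hb.le h3
      _ = η * (K * bet d L t) := by ring
      _ ≤ η * T := mul_le_mul_of_nonneg_left h2 hηpos.le
  -- the two parts of the second term
  have hp : (L : ℝ) ^ 2 * t ^ (-((d : ℝ) / 2)) / t ≤ η ^ 2 / 2 := by
    have h3 : ((L : ℝ) ^ 2 * t ^ (-((d : ℝ) / 2)) / t) ^ 2 = (L : ℝ) ^ 4 / t ^ (d + 2) := by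
      have h4 : (t ^ (-((d : ℝ) / 2))) ^ 2 = (t ^ d)⁻¹ := by
        rw [← Real.rpow_natCast, ← Real.rpow_mul ht0.le, ← Real.rpow_natCast,
          ← Real.rpow_neg ht0.le]
        congr 1; push_cast; ring
      rw [div_pow, mul_pow, h4, ← pow_mul, pow_add]
      field_simp
    have h5 : ((L : ℝ) ^ 2 * t ^ (-((d : ℝ) / 2)) / t) ^ 2 ≤ (η ^ 2 / 2) ^ 2 := by
      rw [h3, div_le_iff₀ (by positivity)]
      have h6 : 1 ≤ (η ^ 2 / 2) ^ 2 * K := by
        calc (1 : ℝ) = (η ^ 2 / 2) ^ 2 * (4 / η ^ 4) := by field_simp; norm_num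
          _ ≤ _ := mul_le_mul_of_nonneg_left hK2 (by positivity)
      calc (L : ℝ) ^ 4 ≤ ((η ^ 2 / 2) ^ 2 * K) * (L : ℝ) ^ 4 :=
            le_mul_of_one_le_left (by positivity) h6
        _ = (η ^ 2 / 2) ^ 2 * (K * (L : ℝ) ^ 4) := by ring
        _ ≤ _ := mul_le_mul_of_nonneg_left h1 (by positivity)
    exact le_of_sq_le_sq h5 (by positivity)
  have hq : (L : ℝ) ^ 2 * (Real.log L / (L : ℝ) ^ d) / t ≤ η ^ 2 / 2 := by
    have h5 : ((L : ℝ) ^ 2 * (Real.log L / (L : ℝ) ^ d) / t) ^ (d + 2) ≤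
        (η ^ 2 / 2) ^ (d + 2) := by
      have h3 : ((L : ℝ) ^ 2 * (Real.log L / (L : ℝ) ^ d) / t) ^ (d + 2) =
          ((L : ℝ) ^ (2 * (d + 2)) * (Real.log L) ^ (d + 2)) /
            ((L : ℝ) ^ (d * (d + 2)) * t ^ (d + 2)) := by
        rw [div_pow, mul_pow, div_pow, ← pow_mul, ← pow_mul]
        field_simp
      rw [h3, div_le_iff₀ (by positivity)]
      have h6 : 27 ^ (d ^ 2) ≤ (η ^ 2 / 2) ^ (d + 2) * K := by
        calc (27 : ℝ) ^ (d ^ 2) = (η ^ 2 / 2) ^ (d + 2) *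
              (27 ^ (d ^ 2) * (2 / η ^ 2) ^ (d + 2)) := by
              rw [mul_left_comm, ← mul_pow]
              have : η ^ 2 / 2 * (2 / η ^ 2) = 1 := by field_simp
              rw [this, one_pow, mul_one]
          _ ≤ _ := mul_le_mul_of_nonneg_left hK3 (by positivity)
      calc (L : ℝ) ^ (2 * (d + 2)) * (Real.log L) ^ (d + 2)
          ≤ (L : ℝ) ^ (2 * (d + 2)) * (27 ^ (d ^ 2) * (L : ℝ) ^ (d ^ 2)) :=
            mul_le_mul_of_nonneg_left (log_pow_bound hd hL) (by positivity)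
        _ = 27 ^ (d ^ 2) * ((L : ℝ) ^ (d * (d + 2)) * (L : ℝ) ^ 4) := by
            rw [mul_left_comm, ← pow_add, ← pow_add]
            congr 2
            ring
        _ ≤ ((η ^ 2 / 2) ^ (d + 2) * K) * ((L : ℝ) ^ (d * (d + 2)) * (L : ℝ) ^ 4) :=
            mul_le_mul_of_nonneg_right h6 (by positivity)
        _ = (η ^ 2 / 2) ^ (d + 2) * ((L : ℝ) ^ (d * (d + 2)) * (K * (L : ℝ) ^ 4)) := by ring
        _ ≤ (η ^ 2 / 2) ^ (d + 2) * ((L : ℝ) ^ (d * (d + 2)) * t ^ (d + 2)) :=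
            mul_le_mul_of_nonneg_left (mul_le_mul_of_nonneg_left h1 (by positivity))
              (by positivity)
    exact le_of_pow_le_pow_left₀ (by omega) (by positivity) h5
  have hB : (L : ℝ) * Real.sqrt (bet d L t / t) ≤ η := by
    have h3 : (L : ℝ) * Real.sqrt (bet d L t / t) = Real.sqrt ((L : ℝ) ^ 2 * (bet d L t / t)) := by
      rw [Real.sqrt_mul (by positivity), Real.sqrt_sq hLpos.le]
    rw [h3, Real.sqrt_le_left hηpos.le]
    have h4 : (L : ℝ) ^ 2 * (bet d L t / t) = (L : ℝ) ^ 2 * t ^ (-((d : ℝ) / 2)) / t +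
        (L : ℝ) ^ 2 * (Real.log L / (L : ℝ) ^ d) / t := by
      unfold bet; ring
    rw [h4]
    linarith
  calc C * (bet d L t / T + L * Real.sqrt (bet d L t / t)) ≤ C * (η + η) :=
        mul_le_mul_of_nonneg_left (add_le_add hA hB) hC.le
    _ = δ := by rw [hη]; field_simp; ring

end Pool.Agent.Stirring
end

section

/-! Short cycles are rare. -/

open Finset

set_option linter.unusedSectionVars false

namespace Pool.Agent.Stirring

variable {d L : ℕ} [NeZero L]

/-- Expectation of `ϑ ^ |C_x|`. -/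
noncomputable def hExp (d L : ℕ) [NeZero L] (ϑ s : ℝ) (x : Fin d → ZMod L) : ℝ :=
  expect d L s fun σ => ϑ ^ (cyc σ x).card

theorem continuous_gExp (ϑ : ℝ) (x y : Fin d → ZMod L) :
    Continuous fun s => gExp d L ϑ s x y := continuous_expect _

theorem continuous_hExp (ϑ : ℝ) (x : Fin d → ZMod L) :
    Continuous fun s => hExp d L ϑ s x := continuous_expect _

/-- The correlation of neighbours is small. -/
theorem gExp_edge_le {ϑ : ℝ} (h0 : 0 ≤ ϑ) (h1 : ϑ < 1) (hd : 1 ≤ d) (hL : 2 ≤ L) {t : ℝ}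
    (ht : 1 ≤ t) (i : Fin d) {r : ℕ} (hr1 : 1 ≤ r) (hr : r ≤ L) :
    gExp d L ϑ t 0 (Pi.single i 1) ≤
      3 / (1 - ϑ) / (r : ℝ) ^ d + cg d * (d * r) * Real.sqrt (bet d L t / t) := by
  classical
  have ht0 : 0 < t := by linarith
  have hcg := cg_pos hd
  have hd1 : (1 : ℝ) ≤ d := by exact_mod_cast hd
  have hrr : (1 : ℝ) ≤ r := by exact_mod_cast hr1
  have hrpos : (0 : ℝ) < (r : ℝ) ^ d := by positivity
  set u : Fin d → ZMod L := Pi.single i 1 with hu
  set η := cg d * (d * r) * Real.sqrt (bet d L t / t) with hη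
  have hη0 : 0 ≤ η := by positivity
  have hu0 : u ≠ 0 := by
    intro h
    have := edge_ne (d := d) (L := L) hL 0 i
    rw [← hu, h, add_zero] at this
    exact this rfl
  have key : ∀ κ : Fin d → Fin r, gExp d L ϑ t 0 u ≤ gExp d L ϑ t 0 (boxPt d L r 0 κ) + η := by
    intro κ
    by_cases hv : boxPt d L r 0 κ = 0
    · rw [hv]
      have h2 : gExp d L ϑ t 0 0 = 1 := by
        unfold gExp
        have : (fun σ : Equiv.Perm (Fin d → ZMod L) => Gt ϑ σ 0 0) = fun _ => 1 := by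
          funext σ; exact Gt_self h0 σ 0
        rw [this, expect_const]
      rw [h2]
      have := gExp_le_one h0 h1.le ht0.le (0 : Fin d → ZMod L) u
      linarith
    · set k : Fin d → ℤ := (fun j => ((κ j : ℕ) : ℤ)) - Pi.single i 1 with hk
      have h2 : boxPt d L r 0 κ = u + red d L k := by
        unfold boxPt
        ext j
        by_cases hj : j = i
        · subst hj; simp [red, hk, hu]
        · simp [red, hk, hu, Pi.single_eq_of_ne hj]
      have h3 := corr_le h0 h1.le hd hL ht hu0 hv k h2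
      have h4 : ∑ j, |(k j : ℝ)| ≤ d * r := by
        have h5 : ∀ j, |(k j : ℝ)| ≤ r := by
          intro j
          have h6 : ((κ j : ℕ) : ℝ) ≤ (r : ℝ) - 1 := by
            have : (κ j : ℕ) + 1 ≤ r := (κ j).2
            have h7 : (((κ j : ℕ) + 1 : ℕ) : ℝ) ≤ r := by exact_mod_cast this
            push_cast at h7; linarith
          have h7 : (0 : ℝ) ≤ ((κ j : ℕ) : ℝ) := Nat.cast_nonneg _
          by_cases hj : j = i
          · subst hj
            simp only [hk, Pi.sub_apply, Pi.single_eq_same]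
            push_cast
            rw [abs_le]; constructor <;> linarith
          · simp only [hk, Pi.sub_apply, Pi.single_eq_of_ne hj]
            push_cast
            rw [abs_le]; constructor <;> linarith
        refine (Finset.sum_le_sum fun j _ => h5 j).trans ?_
        rw [Finset.sum_const, Finset.card_univ, Fintype.card_fin, nsmul_eq_mul]
      have h5 : cg d * (∑ j, |(k j : ℝ)|) * Real.sqrt (bet d L t / t) ≤ η := by
        rw [hη]
        exact mul_le_mul_of_nonneg_right (mul_le_mul_of_nonneg_left h4 hcg.le)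
          (Real.sqrt_nonneg _)
      linarith
  have hsum := Finset.sum_le_sum fun κ (_ : κ ∈ (Finset.univ : Finset (Fin d → Fin r))) => key κ
  rw [Finset.sum_add_distrib] at hsum
  simp only [Finset.sum_const, Finset.card_univ, Fintype.card_fun, Fintype.card_fin,
    nsmul_eq_mul] at hsum
  push_cast at hsum
  have h6 : ∑ κ : Fin d → Fin r, gExp d L ϑ t 0 (boxPt d L r 0 κ) ≤ 3 / (1 - ϑ) := by
    have h7 : ∑ κ : Fin d → Fin r, gExp d L ϑ t 0 (boxPt d L r 0 κ) =
        expect d L t (fun σ => ∑ κ : Fin d → Fin r, Gt ϑ σ 0 (boxPt d L r 0 κ)) := by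
      rw [expect_eq, E_sum]
      exact Finset.sum_congr rfl fun κ _ => by rw [← expect_eq]; rfl
    have h8 := expect_mono (d := d) (L := L) ht0.le
      (f := fun σ => ∑ κ : Fin d → Fin r, Gt ϑ σ 0 (boxPt d L r 0 κ))
      (g := fun _ => 3 / (1 - ϑ)) (fun σ => by
        refine le_trans ?_ (sum_Gt_le h0 h1 σ 0)
        exact sum_le_of_injOn (boxPt d L r 0) (fun κ _ => Finset.mem_univ _)
          ((boxPt_injective hr 0).injOn) (fun κ _ => le_rfl) (fun v _ => Gt_nonneg h0 σ 0 v))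
    rw [expect_const] at h8
    rw [h7]; exact h8
  have h9 : gExp d L ϑ t 0 u - η ≤ 3 / (1 - ϑ) / (r : ℝ) ^ d := by
    rw [le_div_iff₀ hrpos]
    nlinarith
  linarith

theorem hExp_eq (ϑ s : ℝ) (x y : Fin d → ZMod L) : hExp d L ϑ s x = hExp d L ϑ s y :=
  expect_card_cyc s (fun n => ϑ ^ n) x y

/-- The window inequality. -/
theorem hExp_window {ϑ : ℝ} (h0 : 0 ≤ ϑ) (h1 : ϑ < 1) (hd : 1 ≤ d) (hL : 2 ≤ L) {t T : ℝ}
    (ht : 1 ≤ t) (hT : 0 < T) (x : Fin d → ZMod L) {r : ℕ} (hr1 : 1 ≤ r) (hr : r ≤ L) :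
    (∫ s in t..(t + T), hExp d L ϑ s x) / T ≤
      5 * (3 / (1 - ϑ) / (r : ℝ) ^ d + cg d * (d * r) * Real.sqrt (bet d L t / t)) +
        4 * cf d * (bet d L t / T) := by
  have ht0 : 0 < t := by linarith
  have hcf := cf_pos hd
  have hd1 : (1 : ℝ) ≤ d := by exact_mod_cast hd
  have hLpos : (0 : ℝ) < L := by exact_mod_cast (by omega : 0 < L)
  have hLd : 0 < (L : ℝ) ^ d := by positivity
  set B := 3 / (1 - ϑ) / (r : ℝ) ^ d + cg d * (d * r) * Real.sqrt (bet d L t / t) with hB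
  set F : Equiv.Perm (Fin d → ZMod L) → ℝ := fun σ => Real.log (Zt ϑ σ) with hF
  set F' : ℝ → ℝ := fun s => ∑ a : (Fin d → ZMod L) × Fin d,
    (E (fun _ : (Fin d → ZMod L) × Fin d => s) (edgeSwap d L) (fun σ => F (edgeSwap d L a * σ)) -
      E (fun _ : (Fin d → ZMod L) × Fin d => s) (edgeSwap d L) F) with hF'
  have hderiv : ∀ s : ℝ, HasDerivAt
      (fun u : ℝ => E (fun _ : (Fin d → ZMod L) × Fin d => u) (edgeSwap d L) F) (F' s) s :=
    fun s => hasDerivAt_E (edgeSwap d L) F s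
  have hFcont : Continuous F' := by
    refine continuous_finsetSum _ fun a _ => ?_
    exact (continuous_E (edgeSwap d L) (fun σ => F (edgeSwap d L a * σ))).sub
      (continuous_E (edgeSwap d L) F)
  have hint := intervalIntegral.integral_eq_sub_of_hasDerivAt (a := t) (b := t + T)
    (fun s _ => hderiv s) (hFcont.intervalIntegrable _ _)
  have hpt : ∀ s ∈ Set.Icc t (t + T), F' s ≤
      d * (L : ℝ) ^ d * (5 / 4 * B - hExp d L ϑ s x / 4) := by
    intro s hs
    have hs0 : 0 ≤ s := ht0.le.trans hs.1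
    have hs1 : 1 ≤ s := ht.trans hs.1
    have hBs : ∀ i : Fin d, gExp d L ϑ s 0 (Pi.single i 1) ≤ B := by
      intro i
      refine (gExp_edge_le h0 h1 hd hL hs1 i hr1 hr).trans ?_
      rw [hB]
      refine add_le_add le_rfl (mul_le_mul_of_nonneg_left ?_ ?_)
      · refine Real.sqrt_le_sqrt ?_
        have h2 := bet_anti (d := d) (L := L) ht0 hs.1
        have h3 := bet_pos (d := d) hL ht0
        exact div_le_div₀ h3.le h2 ht0 hs.1
      · have := cg_pos hd
        positivity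
    have hterm : ∀ a ∈ (Finset.univ : Finset ((Fin d → ZMod L) × Fin d)),
        (E (fun _ : (Fin d → ZMod L) × Fin d => s) (edgeSwap d L)
          (fun σ => F (edgeSwap d L a * σ)) -
        E (fun _ : (Fin d → ZMod L) × Fin d => s) (edgeSwap d L) F) ≤
        5 / 4 * B - hExp d L ϑ s x / 4 := by
      intro a _
      have e1 : ∀ σ : Equiv.Perm (Fin d → ZMod L), F (edgeSwap d L a * σ) + (-1) * F σ ≤
          5 / 4 * Gt ϑ σ a.1 (a.1 + Pi.single a.2 1) + (-(1 / 4)) * ϑ ^ (cyc σ a.1).card := by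
        intro σ
        have h3 := log_Zt_swap_le h0 h1.le σ (edge_ne hL a.1 a.2)
        have h4 : F (edgeSwap d L a * σ) =
          Real.log (Zt ϑ (Equiv.swap a.1 (a.1 + Pi.single a.2 1) * σ)) := rfl
        rw [h4, hF]
        linarith
      have h2 := E_mono (c := fun _ : (Fin d → ZMod L) × Fin d => s) (fun _ => hs0)
        (edgeSwap d L) e1
      have e2 : E (fun _ : (Fin d → ZMod L) × Fin d => s) (edgeSwap d L)
          (fun σ => 5 / 4 * Gt ϑ σ a.1 (a.1 + Pi.single a.2 1) +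
            (-(1 / 4)) * ϑ ^ (cyc σ a.1).card) =
          5 / 4 * gExp d L ϑ s a.1 (a.1 + Pi.single a.2 1) + (-(1 / 4)) * hExp d L ϑ s a.1 := by
        rw [E_add, E_smul, E_smul, ← expect_eq, ← expect_eq]
        rfl
      rw [e2, E_add, E_smul, hExp_eq ϑ s a.1 x, gExp_shift] at h2
      have h5 := hBs a.2
      linarith
    refine (Finset.sum_le_sum hterm).trans (le_of_eq ?_)
    rw [Finset.sum_const, Finset.card_univ, nsmul_eq_mul, card_letters]
  have hmono := intervalIntegral.integral_mono_on (a := t) (b := t + T)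
    (μ := MeasureTheory.volume) (by linarith) (hFcont.intervalIntegrable _ _)
    (g := fun s => d * (L : ℝ) ^ d * (5 / 4 * B - hExp d L ϑ s x / 4))
    (Continuous.intervalIntegrable (by
      have := continuous_hExp (d := d) (L := L) ϑ x
      fun_prop) _ _) hpt
  rw [hint, intervalIntegral.integral_const_mul, intervalIntegral.integral_sub
    intervalIntegrable_const ((continuous_hExp ϑ x).intervalIntegrable _ _ |>.div_const 4),
    intervalIntegral.integral_div] at hmono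
  simp only [intervalIntegral.integral_const, smul_eq_mul, add_sub_cancel_left] at hmono
  have hE1 : 0 ≤ E (fun _ : (Fin d → ZMod L) × Fin d => t + T) (edgeSwap d L) F :=
    E_nonneg (fun _ => by linarith) _ fun σ => log_Zt_nonneg h0 σ
  have hE2 : E (fun _ : (Fin d → ZMod L) × Fin d => t) (edgeSwap d L) F ≤
      cf d * bet d L t * (L : ℝ) ^ d := by
    have h2 := E_mono (c := fun _ : (Fin d → ZMod L) × Fin d => t) (fun _ => ht0.le)
      (edgeSwap d L) (f := F) (h := fun σ => Real.log 2 * (numCycles σ : ℝ))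
      (fun σ => log_Zt_le h0 h1.le σ)
    rw [E_smul, ← expect_eq t (fun σ => (numCycles σ : ℝ))] at h2
    have h3 := expect_numCycles_final hd hL ht (d := d) (L := L)
    have h4 : cf d * ((L : ℝ) ^ d * t ^ (-((d : ℝ) / 2)) + Real.log L) =
        cf d * bet d L t * (L : ℝ) ^ d := by
      unfold bet; field_simp
    rw [h4] at h3
    have h5 : Real.log 2 ≤ 1 := by
      have := Real.log_two_lt_d9
      linarith
    have h6 : 0 ≤ Real.log 2 := Real.log_nonneg (by norm_num)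
    have h7 : 0 ≤ expect d L t (fun σ => (numCycles σ : ℝ)) := by
      have := expect_mono (d := d) (L := L) (t := t) ht0.le (f := fun _ => 0)
        (g := fun σ => (numCycles σ : ℝ)) (fun σ => Nat.cast_nonneg _)
      rwa [expect_const] at this
    calc _ ≤ Real.log 2 * expect d L t (fun σ => (numCycles σ : ℝ)) := h2
      _ ≤ 1 * expect d L t (fun σ => (numCycles σ : ℝ)) := mul_le_mul_of_nonneg_right h5 h7
      _ ≤ _ := by rw [one_mul]; exact h3
  set H := ∫ s in t..(t + T), hExp d L ϑ s x with hH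
  have hb := bet_pos (d := d) hL ht0
  have h10 : (d : ℝ) * (L : ℝ) ^ d * (H / 4) ≤
      d * (L : ℝ) ^ d * (5 / 4 * B * T + cf d * bet d L t) := by
    have h11 : cf d * bet d L t * (L : ℝ) ^ d ≤ d * (L : ℝ) ^ d * (cf d * bet d L t) := by
      have : 0 ≤ cf d * bet d L t * (L : ℝ) ^ d := by positivity
      nlinarith
    nlinarith
  have h12 : H / 4 ≤ 5 / 4 * B * T + cf d * bet d L t :=
    le_of_mul_le_mul_left h10 (by positivity)
  rw [div_le_iff₀ hT]
  have h13 : (5 * B + 4 * cf d * (bet d L t / T)) * T = 5 * B * T + 4 * (cf d * bet d L t) := by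
    field_simp
  rw [h13]
  linarith

/-- The constant of the short cycle estimate. -/
noncomputable def csh (d : ℕ) : ℝ := 90 + 15 * (d * cg d) + 12 * cf d

theorem csh_pos {d : ℕ} (hd : 1 ≤ d) : 0 < csh d := by
  have := cf_pos hd
  have := cg_pos hd
  unfold csh; positivity

theorem third_le_pow (m : ℕ) (hm : 1 ≤ m) : (1 : ℝ) / 3 ≤ ((m : ℝ) / (m + 1)) ^ m := by
  have hm' : (0 : ℝ) < m := by exact_mod_cast hm
  have h1 : ((m : ℝ) / (m + 1)) ^ m = ((1 + 1 / (m : ℝ)) ^ m)⁻¹ := by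
    rw [← inv_pow]
    congr 1
    field_simp
  rw [h1, one_div]
  refine inv_anti₀ (by positivity) ?_
  have h2 : (1 + 1 / (m : ℝ)) ≤ Real.exp (1 / m) := by
    have := Real.add_one_le_exp (1 / (m : ℝ))
    linarith
  calc (1 + 1 / (m : ℝ)) ^ m ≤ (Real.exp (1 / m)) ^ m :=
        pow_le_pow_left₀ (by positivity) h2 m
    _ = Real.exp 1 := by rw [← Real.exp_nat_mul]; congr 1; field_simp
    _ ≤ 3 := by
        have := Real.exp_one_lt_d9
        linarith

/-- Short cycles are rare. -/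
theorem short_window (hd : 1 ≤ d) (hL : 2 ≤ L) {t T : ℝ} (ht : 1 ≤ t) (hT : 0 < T)
    (x : Fin d → ZMod L) {r : ℕ} (hr1 : 1 ≤ r) (hr : r ≤ L) (m : ℕ) :
    (∫ s in t..(t + T), expect d L s
      (fun σ => if (cyc σ x).card ≤ m then (1 : ℝ) else 0)) / T ≤
      csh d * (m / (r : ℝ) ^ d + bet d L t / T + r * Real.sqrt (bet d L t / t)) := by
  classical
  have ht0 : 0 < t := by linarith
  have hb := bet_pos (d := d) hL ht0
  have hcsh := csh_pos hd
  have hcg := cg_pos hd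
  have hcf := cf_pos hd
  have hrr : (0 : ℝ) < r := by exact_mod_cast hr1
  rcases Nat.eq_zero_or_pos m with hm | hm
  · subst hm
    have h2 : ∀ s, expect d L s (fun σ => if (cyc σ x).card ≤ 0 then (1 : ℝ) else 0) = 0 := by
      intro s
      have : (fun σ : Equiv.Perm (Fin d → ZMod L) =>
          if (cyc σ x).card ≤ 0 then (1 : ℝ) else 0) = fun _ => 0 := by
        funext σ
        rw [if_neg]
        have := card_cyc_pos σ x
        omega
      rw [this, expect_const]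
    simp only [h2, intervalIntegral.integral_zero, zero_div]
    have h3 : (0 : ℝ) ≤ ((0 : ℕ) : ℝ) / (r : ℝ) ^ d := by positivity
    positivity
  · have hm' : (1 : ℝ) ≤ m := by exact_mod_cast hm
    set ϑ : ℝ := m / (m + 1) with hϑ
    have h0 : 0 ≤ ϑ := by positivity
    have h1 : ϑ < 1 := by
      rw [hϑ, div_lt_one (by positivity)]; linarith
    have h2 : 1 / (1 - ϑ) = m + 1 := by
      rw [hϑ]; field_simp; ring
    have hw := hExp_window h0 h1 hd hL ht hT x hr1 hr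
    have h3 : ∀ s ∈ Set.Icc t (t + T), expect d L s
        (fun σ => if (cyc σ x).card ≤ m then (1 : ℝ) else 0) ≤ 3 * hExp d L ϑ s x := by
      intro s hs
      have hs0 : 0 ≤ s := ht0.le.trans hs.1
      have h4 := expect_mono (d := d) (L := L) hs0
        (f := fun σ => if (cyc σ x).card ≤ m then (1 : ℝ) else 0)
        (g := fun σ => 3 * ϑ ^ (cyc σ x).card) (fun σ => by
          split_ifs with h5
          · have h6 := third_le_pow m hm
            have h7 : ϑ ^ m ≤ ϑ ^ (cyc σ x).card := pow_le_pow_of_le_one h0 h1.le h5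
            rw [← hϑ] at h6
            linarith
          · positivity)
      refine h4.trans (le_of_eq ?_)
      rw [expect_eq, E_smul, ← expect_eq]
      rfl
    have h4 := intervalIntegral.integral_mono_on (by linarith)
      (f := fun s => expect d L s (fun σ => if (cyc σ x).card ≤ m then (1 : ℝ) else 0))
      (g := fun s => 3 * hExp d L ϑ s x) (a := t) (b := t + T) (μ := MeasureTheory.volume)
      ((continuous_expect _).intervalIntegrable _ _)
      (((continuous_hExp ϑ x).const_mul 3).intervalIntegrable _ _) h3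
    rw [intervalIntegral.integral_const_mul] at h4
    have h5 : (∫ s in t..(t + T), expect d L s
      (fun σ => if (cyc σ x).card ≤ m then (1 : ℝ) else 0)) / T ≤
      3 * ((∫ s in t..(t + T), hExp d L ϑ s x) / T) := by
      rw [← mul_div_assoc]
      exact div_le_div_of_nonneg_right h4 hT.le
    have h6 : 3 / (1 - ϑ) / (r : ℝ) ^ d ≤ 6 * (m / (r : ℝ) ^ d) := by
      have h7 : 3 / (1 - ϑ) = 3 * (m + 1) := by rw [← h2]; ring
      rw [h7, ← mul_div_assoc]
      refine div_le_div_of_nonneg_right ?_ (by positivity)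
      linarith
    have h8 : 0 ≤ m / (r : ℝ) ^ d := by positivity
    have h9 : 0 ≤ bet d L t / T := by positivity
    have h10 : 0 ≤ r * Real.sqrt (bet d L t / t) := by positivity
    have hdc : 0 ≤ d * cg d := by positivity
    refine (h5.trans (mul_le_mul_of_nonneg_left hw (by norm_num))).trans ?_
    unfold csh
    have h11 : cg d * (d * r) * Real.sqrt (bet d L t / t) =
        (d * cg d) * (r * Real.sqrt (bet d L t / t)) := by ring
    rw [h11]
    set P := (d : ℝ) * cg d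
    set Q := r * Real.sqrt (bet d L t / t)
    set R := bet d L t / T
    set S := (m : ℝ) / (r : ℝ) ^ d
    have e1 := mul_nonneg hdc h10
    have e2 := mul_nonneg hdc h9
    have e3 := mul_nonneg hdc h8
    have e4 := mul_nonneg hcf.le h10
    have e5 := mul_nonneg hcf.le h9
    have e6 := mul_nonneg hcf.le h8
    nlinarith

end Pool.Agent.Stirring
end
end
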