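import Pool.Agent.Lib.MP_6c3d62_pr.Mg.G089
import Pool.Agent.Lib.MP_6c3d62_pr.Mg.G090

section

/-! Ghost letters, potentials and the symmetry of a ring. -/

open Finset Matrix Filter Topology

set_option linter.unusedSectionVars false
set_option linter.style.haveILetI false

namespace Pool.Agent.Stirring

section Ghost

variable {α β : Type*} [Fintype α] [Fintype β] {G : Type*} [Group G] [Fintype G] [DecidableEq G]

/-- Letters acting as the identity do not change the expectation. -/
theorem E_ghost (c : α → ℝ) (g : α → G) (c' : β → ℝ) (f : G → ℝ) :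
    E (Sum.elim c c') (Sum.elim g (fun _ => 1)) f = E c g f := by
  have h0 : f = fun σ => trace (fMat f * ((permMat G).comp (regHom G)) σ) := by
    funext σ
    rw [MonoidHom.comp_apply, trace_fMat]
  rw [h0, E_trace_mul, E_trace_mul, Fintype.sum_sum_type]
  simp only [Sum.elim_inl, Sum.elim_inr, map_one, sub_self, smul_zero, Finset.sum_const_zero,
    add_zero]

end Ghost

section Pot

variable {V : Type*} [Fintype V] [DecidableEq V] {α : Type*} [Fintype α]

theorem letM_zero (g : Equiv.Perm V) :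
    (diagonal (fun _ : Finset V => Real.exp 0)) * rhoS V g = rhoS V g := by
  simp only [Real.exp_zero, diagonal_one, one_mul]

/-- Jensen's inequality with a potential. -/
theorem Clo.pot_le (K : Clo V) {c : α → ℝ} (hc : ∀ a, 0 ≤ c a) (g : α → Equiv.Perm V)
    (hg : ∀ a, g a * g a = 1) (U : Finset V → ℝ) :
    Real.exp (E c g (K.avg U)) ≤
      trace (NormedSpace.exp (∑ a, c a • (rhoS V (g a) - 1) + diagonal U)) := by
  set S : Matrix (Finset V) (Finset V) ℝ := ∑ a, c a • (rhoS V (g a) - 1) with hS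
  have hsymS : S.IsSymm := isSymm_gen c g hg
  have h1 : ∀ κ : ℝ, 0 < κ → Real.exp (E c g (K.avg U)) ≤
      trace (NormedSpace.exp (S + diagonal (fun A => κ⁻¹ * (Real.exp (κ * U A) - 1)))) := by
    intro κ hκ
    have hc' : ∀ a : α ⊕ Unit, 0 ≤ Sum.elim c (fun _ : Unit => κ⁻¹) a := by
      rintro (a | a)
      · exact hc a
      · exact (inv_pos.mpr hκ).le
    have hj := K.word_jensen hc' (Sum.elim g (fun _ => 1))
      (Sum.elim (fun _ _ => 0) (fun _ A => κ * U A))
    rw [Fintype.sum_sum_type, Fintype.sum_sum_type] at hj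
    simp only [Sum.elim_inl, Sum.elim_inr, Finset.univ_unique, Finset.sum_singleton, one_mul] at hj
    have e1 : ∀ a, c a * E (Sum.elim c (fun _ : Unit => κ⁻¹)) (Sum.elim g (fun _ => 1))
        (fun σ => K.avg (fun _ => 0) (g a * σ)) = 0 := by
      intro a
      simp only [K.avg_const]
      rw [E_const, mul_zero]
    have e2 : κ⁻¹ * E (Sum.elim c (fun _ : Unit => κ⁻¹)) (Sum.elim g (fun _ => 1))
        (fun σ => K.avg (fun A => κ * U A) σ) = E c g (K.avg U) := by
      simp only [K.avg_smul]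
      rw [E_ghost, E_smul, ← mul_assoc, inv_mul_cancel₀ hκ.ne', one_mul]
    rw [Finset.sum_congr rfl fun a _ => e1 a, Finset.sum_const_zero, zero_add, e2] at hj
    have e3 : ∑ a, c a • (letM (Sum.elim g (fun _ : Unit => 1))
        (Sum.elim (fun _ _ => 0) (fun _ A => κ * U A)) (Sum.inl a) - 1) = S := by
      rw [hS]
      refine Finset.sum_congr rfl fun a _ => ?_
      unfold letM
      simp only [Sum.elim_inl]
      rw [letM_zero]
    have e4 : κ⁻¹ • (letM (Sum.elim g (fun _ : Unit => 1))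
        (Sum.elim (fun _ _ => 0) (fun _ A => κ * U A)) (Sum.inr default) - 1) =
        diagonal (fun A => κ⁻¹ * (Real.exp (κ * U A) - 1)) := by
      unfold letM
      simp only [Sum.elim_inr, map_one, mul_one]
      ext A B
      simp only [Matrix.smul_apply, Matrix.sub_apply, diagonal_apply, Matrix.one_apply,
        smul_eq_mul]
      split_ifs <;> simp
    rw [e3, e4] at hj
    refine hj.trans (K.trace_le _ ?_)
    rw [Matrix.IsSymm, Matrix.transpose_add, hsymS.eq, diagonal_transpose]
  letI : NormedRing (Matrix (Finset V) (Finset V) ℝ) := Matrix.linftyOpNormedRing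
  letI : NormedAlgebra ℝ (Matrix (Finset V) (Finset V) ℝ) := Matrix.linftyOpNormedAlgebra
  letI : NormedAlgebra ℚ (Matrix (Finset V) (Finset V) ℝ) :=
    NormedAlgebra.restrictScalars ℚ ℝ (Matrix (Finset V) (Finset V) ℝ)
  have hcont : Continuous fun D : Finset V → ℝ => trace (NormedSpace.exp (S + diagonal D)) := by
    have h2 : Continuous fun M : Matrix (Finset V) (Finset V) ℝ => trace M :=
      (LinearMap.toContinuousLinearMap (Matrix.traceLinearMap (Finset V) ℝ ℝ)).continuous
    have h3 : Continuous fun M : Matrix (Finset V) (Finset V) ℝ => NormedSpace.exp M :=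
      NormedSpace.exp_continuous
    have h4 : Continuous fun D : Finset V → ℝ =>
        (diagonal D : Matrix (Finset V) (Finset V) ℝ) :=
      (LinearMap.toContinuousLinearMap (Matrix.diagonalLinearMap (Finset V) ℝ ℝ)).continuous
    exact h2.comp (h3.comp (continuous_const.add h4))
  have hlim : Tendsto (fun κ : ℝ => fun A : Finset V => κ⁻¹ * (Real.exp (κ * U A) - 1))
      (𝓝[>] 0) (𝓝 U) := by
    rw [tendsto_pi_nhds]
    intro A
    have h5 : HasDerivAt (fun κ : ℝ => Real.exp (κ * U A)) (U A) 0 := by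
      have := ((hasDerivAt_id (0 : ℝ)).mul_const (U A)).exp
      simpa using this
    rw [hasDerivAt_iff_tendsto_slope_zero] at h5
    have h6 : Tendsto (fun t : ℝ => t⁻¹ • (Real.exp ((0 + t) * U A) - Real.exp (0 * U A)))
        (𝓝[>] 0) (𝓝 (U A)) :=
      h5.mono_left (nhdsWithin_mono 0 (fun x (hx : (0 : ℝ) < x) => hx.ne'))
    simpa using h6
  have h7 := (hcont.tendsto U).comp hlim
  refine ge_of_tendsto h7 ?_
  filter_upwards [self_mem_nhdsWithin] with κ hκ
  exact h1 κ hκ

end Pot

section Ring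

variable {V : Type*} [Fintype V] [DecidableEq V]

theorem rhoS_apply (g : Equiv.Perm V) (B A : Finset V) :
    rhoS V g B A = if B = A.map g.toEmbedding then 1 else 0 := by
  rw [MonoidHom.comp_apply, permMat_apply]
  by_cases h : B = A.map g.toEmbedding
  · rw [if_pos h, if_pos (show B = setHom V g A from h)]
  · rw [if_neg h, if_neg (show ¬ B = setHom V g A from h)]

theorem quad_letM (f u : Finset V → ℝ) {g : Equiv.Perm V}
    (hu : ∀ A, u (A.map g.toEmbedding) = u A) :
    f ⬝ᵥ (diagonal u * rhoS V g).mulVec f =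
      ∑ A, u A * f A ^ 2 - (∑ A, u A * (f A - f (A.map g.toEmbedding)) ^ 2) / 2 := by
  have h1 : f ⬝ᵥ (diagonal u * rhoS V g).mulVec f =
      ∑ A, u A * (f (A.map g.toEmbedding) * f A) := by
    have h0 : ∀ B, ((diagonal u * rhoS V g).mulVec f) B =
        ∑ A, (if B = A.map g.toEmbedding then u B * f A else 0) := by
      intro B
      simp only [Matrix.mulVec, dotProduct, Matrix.diagonal_mul, rhoS_apply]
      refine Finset.sum_congr rfl fun A _ => ?_
      by_cases h : B = A.map g.toEmbedding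
      · rw [if_pos h, if_pos h]; ring
      · rw [if_neg h, if_neg h]; ring
    unfold dotProduct
    simp only [h0, Finset.mul_sum, mul_ite, mul_zero]
    rw [Finset.sum_comm]
    refine Finset.sum_congr rfl fun A _ => ?_
    rw [Finset.sum_ite_eq' Finset.univ (A.map g.toEmbedding) fun B => f B * (u B * f A),
      if_pos (Finset.mem_univ _), hu]
    ring
  have h3 : ∑ A : Finset V, u A * f A ^ 2 = ∑ A : Finset V, u A * f (A.map g.toEmbedding) ^ 2 := by
    rw [← Equiv.sum_comp (setHom V g) fun A => u A * f A ^ 2]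
    exact Finset.sum_congr rfl fun A _ => by rw [setHom_apply, hu]
  have h4 : ∑ A : Finset V, u A * (f A - f (A.map g.toEmbedding)) ^ 2 =
      2 * ∑ A, u A * f A ^ 2 - 2 * ∑ A, u A * (f (A.map g.toEmbedding) * f A) := by
    have : ∀ A : Finset V, u A * (f A - f (A.map g.toEmbedding)) ^ 2 =
        u A * f A ^ 2 + u A * f (A.map g.toEmbedding) ^ 2 -
          2 * (u A * (f (A.map g.toEmbedding) * f A)) := fun A => by ring
    rw [Finset.sum_congr rfl fun A _ => this A, Finset.sum_sub_distrib, Finset.sum_add_distrib,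
      ← h3, ← Finset.mul_sum]
    ring
  rw [h1, h4]
  ring

theorem isSymm_letM {u : Finset V → ℝ} {g : Equiv.Perm V} (hg : g * g = 1)
    (hu : ∀ A, u (A.map g.toEmbedding) = u A) : (diagonal u * rhoS V g).IsSymm := by
  have h : (rhoS V g).IsSymm := by
    rw [MonoidHom.comp_apply]
    refine permMat_swap_isSymm_of_involutive ?_
    rw [← map_mul, hg, map_one]
  rw [Matrix.IsSymm, Matrix.transpose_mul, h.eq, diagonal_transpose]
  ext B A
  rw [Matrix.mul_diagonal, Matrix.diagonal_mul, rhoS_apply]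
  by_cases h1 : B = A.map g.toEmbedding
  · rw [if_pos h1, h1, hu]; ring
  · rw [if_neg h1]; ring

theorem quad_diag (f v : Finset V → ℝ) :
    f ⬝ᵥ (diagonal v).mulVec f = ∑ A, v A * f A ^ 2 := by
  unfold dotProduct
  refine Finset.sum_congr rfl fun A _ => ?_
  rw [mulVec_diagonal]; ring

variable {α : Type*} [Fintype α]

/-- The generator with ring weights is dominated by half of the generator. -/
theorem ring_trace_le {t ε : ℝ} (ht : 0 ≤ t) (hε : 0 ≤ ε) (hε1 : ε ≤ 1 / 2)
    {g : α → Equiv.Perm V} (hg : ∀ a, g a * g a = 1) {b : α → Finset V → ℝ}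
    (hb : ∀ a A, b a (A.map (g a).toEmbedding) = b a A) (hb1 : ∀ a A, |b a A| ≤ 1) :
    trace (NormedSpace.exp (∑ a, t • (diagonal (fun A => 1 + ε * b a A) * rhoS V (g a) - 1) +
      ∑ a, t • (diagonal (fun A => 1 - ε * b a A) - 1))) ≤
    trace (NormedSpace.exp (∑ a, (t / 2) • (rhoS V (g a) - 1))) := by
  refine trace_exp_mono ?_ (isSymm_gen _ g hg) fun f => ?_
  · rw [Matrix.IsSymm, Matrix.transpose_add, Matrix.transpose_sum, Matrix.transpose_sum]
    congr 1
    · refine Finset.sum_congr rfl fun a _ => ?_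
      rw [Matrix.transpose_smul, Matrix.transpose_sub, Matrix.transpose_one,
        (isSymm_letM (hg a) (fun A => by rw [hb a A])).eq]
    · refine Finset.sum_congr rfl fun a _ => ?_
      rw [Matrix.transpose_smul, Matrix.transpose_sub, Matrix.transpose_one, diagonal_transpose]
  rw [quad_gen f (fun _ => t / 2) g, Matrix.add_mulVec, dotProduct_add, Matrix.sum_mulVec,
    Matrix.sum_mulVec, dotProduct_sum, dotProduct_sum, ← Finset.sum_add_distrib,
    ← Finset.sum_neg_distrib, Finset.sum_div]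
  refine Finset.sum_le_sum fun a _ => ?_
  rw [Matrix.smul_mulVec, Matrix.smul_mulVec, dotProduct_smul, dotProduct_smul, smul_eq_mul,
    smul_eq_mul, Matrix.sub_mulVec, Matrix.sub_mulVec, dotProduct_sub, dotProduct_sub,
    Matrix.one_mulVec, quad_letM f _ (fun A => by rw [hb a A]), quad_diag, lenFun_sq]
  have h1 : f ⬝ᵥ f = ∑ A, f A ^ 2 := by
    unfold dotProduct
    exact Finset.sum_congr rfl fun A _ => by ring
  have h2 : ∑ A, (1 + ε * b a A) * f A ^ 2 + ∑ A, (1 - ε * b a A) * f A ^ 2 =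
      2 * ∑ A, f A ^ 2 := by
    rw [← Finset.sum_add_distrib, Finset.mul_sum]
    exact Finset.sum_congr rfl fun A _ => by ring
  have h3 : (1 / 2 : ℝ) * ∑ A, (f A - f (A.map (g a).toEmbedding)) ^ 2 ≤
      ∑ A, (1 + ε * b a A) * (f A - f (A.map (g a).toEmbedding)) ^ 2 := by
    rw [Finset.mul_sum]
    refine Finset.sum_le_sum fun A _ => mul_le_mul_of_nonneg_right ?_ (sq_nonneg _)
    have h4 := (abs_le.mp (hb1 a A)).1
    nlinarith
  rw [h1]
  nlinarith

theorem log_one_add_ge {x : ℝ} (hx : |x| ≤ 1 / 2) : x - 2 * x ^ 2 ≤ Real.log (1 + x) := by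
  obtain ⟨h1, h2⟩ := abs_le.mp hx
  have h3 : 0 < 1 + x := by linarith
  refine le_trans ?_ (Real.one_sub_inv_le_log_of_pos h3)
  have h4 : 1 - (1 + x)⁻¹ = x / (1 + x) := by field_simp; ring
  rw [h4, le_div_iff₀ h3]
  nlinarith [sq_nonneg x, mul_nonneg (sq_nonneg x) (by linarith : (0 : ℝ) ≤ 1 + 2 * x)]

/-- Rings are almost symmetric. -/
theorem Clo.ring_le (K : Clo V) {t ε : ℝ} (ht : 0 ≤ t) (hε : 0 ≤ ε) (hε1 : ε ≤ 1 / 2)
    {g : α → Equiv.Perm V} (hg : ∀ a, g a * g a = 1) {b : α → Finset V → ℝ}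
    (hb : ∀ a A, b a (A.map (g a).toEmbedding) = b a A) (hb1 : ∀ a A, |b a A| ≤ 1) :
    ε * t * ∑ a, (E (fun _ => t) g (fun σ => K.avg (b a) (g a * σ)) -
        E (fun _ => t) g (fun σ => K.avg (b a) σ)) ≤
      4 * ε ^ 2 * t * Fintype.card α + Real.log (E (fun _ : α => t / 2) g fixSets) := by
  have hab : ∀ a A, |ε * b a A| ≤ 1 / 2 := by
    intro a A
    rw [abs_mul, abs_of_nonneg hε]
    have := hb1 a A
    have := abs_nonneg (b a A)
    nlinarith
  have hpos1 : ∀ a A, 0 < 1 + ε * b a A := fun a A => by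
    have := (abs_le.mp (hab a A)).1; linarith
  have hpos2 : ∀ a A, 0 < 1 - ε * b a A := fun a A => by
    have := (abs_le.mp (hab a A)).2; linarith
  set Y : α ⊕ α → Finset V → ℝ := Sum.elim (fun a A => Real.log (1 + ε * b a A))
    (fun a A => Real.log (1 - ε * b a A)) with hY
  have hj := K.word_jensen (c := Sum.elim (fun _ : α => t) (fun _ : α => t))
    (by rintro (a | a) <;> exact ht) (Sum.elim g (fun _ => 1)) Y
  rw [Fintype.sum_sum_type, Fintype.sum_sum_type] at hj
  simp only [Sum.elim_inl, Sum.elim_inr, one_mul, hY] at hj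
  have e3 : ∀ a, letM (Sum.elim g (fun _ : α => 1)) (Sum.elim
      (fun a A => Real.log (1 + ε * b a A)) (fun a A => Real.log (1 - ε * b a A))) (Sum.inl a) =
      diagonal (fun A => 1 + ε * b a A) * rhoS V (g a) := by
    intro a
    unfold letM
    simp only [Sum.elim_inl]
    congr 2
    funext A
    rw [Real.exp_log (hpos1 a A)]
  have e4 : ∀ a, letM (Sum.elim g (fun _ : α => 1)) (Sum.elim
      (fun a A => Real.log (1 + ε * b a A)) (fun a A => Real.log (1 - ε * b a A))) (Sum.inr a) =
      diagonal (fun A => 1 - ε * b a A) := by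
    intro a
    unfold letM
    simp only [Sum.elim_inr, map_one, mul_one]
    congr 1
    funext A
    rw [Real.exp_log (hpos2 a A)]
  simp only [e3, e4] at hj
  have hsym : (∑ a, t • (diagonal (fun A => 1 + ε * b a A) * rhoS V (g a) - 1) +
      ∑ a, t • (diagonal (fun A => 1 - ε * b a A) - 1)).IsSymm := by
    rw [Matrix.IsSymm, Matrix.transpose_add, Matrix.transpose_sum, Matrix.transpose_sum]
    congr 1
    · refine Finset.sum_congr rfl fun a _ => ?_
      rw [Matrix.transpose_smul, Matrix.transpose_sub, Matrix.transpose_one,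
        (isSymm_letM (hg a) (fun A => by rw [hb a A])).eq]
    · refine Finset.sum_congr rfl fun a _ => ?_
      rw [Matrix.transpose_smul, Matrix.transpose_sub, Matrix.transpose_one, diagonal_transpose]
  have h2 := (hj.trans (K.trace_le _ hsym)).trans (ring_trace_le ht hε hε1 hg hb hb1)
  have h0 : trace (NormedSpace.exp (∑ a, (t / 2) • (rhoS V (g a) - 1))) =
      E (fun _ : α => t / 2) g fixSets := by
    have h1 : (fixSets : Equiv.Perm V → ℝ) = fun σ => trace (rhoS V σ) := by
      funext σ; exact fixSets_eq_trace σ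
    rw [h1, E_trace]
  rw [h0] at h2
  have h3 := Real.log_le_log (Real.exp_pos _) h2
  rw [Real.log_exp] at h3
  refine le_trans ?_ (le_trans (add_le_add_right h3 (4 * ε ^ 2 * t * Fintype.card α)) (le_of_eq ?_))
  swap
  · rfl
  have hterm1 : ∀ a, ε * E (fun _ => t) g (fun σ => K.avg (b a) (g a * σ)) - 2 * ε ^ 2 ≤
      E (Sum.elim (fun _ : α => t) (fun _ : α => t)) (Sum.elim g (fun _ => 1))
        (fun σ => K.avg (fun A => Real.log (1 + ε * b a A)) (g a * σ)) := by
    intro a
    rw [E_ghost]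
    have h5 := E_mono (c := fun _ : α => t) (fun _ => ht) g
      (f := fun σ => ε * K.avg (b a) (g a * σ) + (-(2 * ε ^ 2)))
      (h := fun σ => K.avg (fun A => Real.log (1 + ε * b a A)) (g a * σ)) (fun σ => by
        have h6 := K.avg_mono (X := fun A => ε * b a A + (-(2 * ε ^ 2)))
          (Y := fun A => Real.log (1 + ε * b a A)) (fun A => by
            have h7 := log_one_add_ge (hab a A)
            have h8 : (b a A) ^ 2 ≤ 1 := by
              rw [← sq_abs]
              exact pow_le_one₀ (abs_nonneg _) (hb1 a A)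
            have h9 : 2 * (ε * b a A) ^ 2 ≤ 2 * ε ^ 2 := by
              rw [mul_pow]
              nlinarith [sq_nonneg ε]
            linarith) (g a * σ)
        rw [K.avg_add (fun A => ε * b a A) (fun _ => -(2 * ε ^ 2)), K.avg_smul, K.avg_const] at h6
        exact h6)
    rw [E_add, E_smul, E_const] at h5
    linarith
  have hterm2 : ∀ a, -(ε * E (fun _ => t) g (fun σ => K.avg (b a) σ)) - 2 * ε ^ 2 ≤
      E (Sum.elim (fun _ : α => t) (fun _ : α => t)) (Sum.elim g (fun _ => 1))
        (fun σ => K.avg (fun A => Real.log (1 - ε * b a A)) σ) := by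
    intro a
    rw [E_ghost]
    have h5 := E_mono (c := fun _ : α => t) (fun _ => ht) g
      (f := fun σ => (-ε) * K.avg (b a) σ + (-(2 * ε ^ 2)))
      (h := fun σ => K.avg (fun A => Real.log (1 - ε * b a A)) σ) (fun σ => by
        have h6 := K.avg_mono (X := fun A => (-ε) * b a A + (-(2 * ε ^ 2)))
          (Y := fun A => Real.log (1 - ε * b a A)) (fun A => by
            have h7 := log_one_add_ge (x := -(ε * b a A)) (by rw [abs_neg]; exact hab a A)
            have h8 : (b a A) ^ 2 ≤ 1 := by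
              rw [← sq_abs]
              exact pow_le_one₀ (abs_nonneg _) (hb1 a A)
            have h9 : 2 * (-(ε * b a A)) ^ 2 ≤ 2 * ε ^ 2 := by
              rw [neg_sq, mul_pow]
              nlinarith [sq_nonneg ε]
            rw [← sub_eq_add_neg] at h7
            linarith) σ
        rw [K.avg_add (fun A => (-ε) * b a A) (fun _ => -(2 * ε ^ 2)), K.avg_smul,
          K.avg_const] at h6
        exact h6)
    rw [E_add, E_smul, E_const] at h5
    linarith
  have h10 := Finset.sum_le_sum fun a (_ : a ∈ (Finset.univ : Finset α)) =>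
    mul_le_mul_of_nonneg_left (add_le_add (hterm1 a) (hterm2 a)) ht
  have h11 : ∑ a : α, t * (ε * E (fun _ => t) g (fun σ => K.avg (b a) (g a * σ)) - 2 * ε ^ 2 +
      (-(ε * E (fun _ => t) g (fun σ => K.avg (b a) σ)) - 2 * ε ^ 2)) =
      ε * t * ∑ a, (E (fun _ => t) g (fun σ => K.avg (b a) (g a * σ)) -
        E (fun _ => t) g (fun σ => K.avg (b a) σ)) - 4 * ε ^ 2 * t * Fintype.card α := by
    have : ∀ a : α, t * (ε * E (fun _ => t) g (fun σ => K.avg (b a) (g a * σ)) - 2 * ε ^ 2 +
      (-(ε * E (fun _ => t) g (fun σ => K.avg (b a) σ)) - 2 * ε ^ 2)) =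
      ε * t * (E (fun _ => t) g (fun σ => K.avg (b a) (g a * σ)) -
        E (fun _ => t) g (fun σ => K.avg (b a) σ)) - 4 * ε ^ 2 * t := fun a => by ring
    rw [Finset.sum_congr rfl fun a _ => this a, Finset.sum_sub_distrib, ← Finset.mul_sum,
      Finset.sum_const, Finset.card_univ, nsmul_eq_mul]
    ring
  rw [h11] at h10
  simp only [mul_add] at h10
  rw [Finset.sum_add_distrib] at h10
  linarith

end Ring

end Pool.Agent.Stirring
end

section

/-! Ring symmetry and flatness of pair functions on the torus. -/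

open Finset Matrix

set_option linter.unusedSectionVars false

namespace Pool.Agent.Stirring

section Pair

variable {V : Type*} [Fintype V] [DecidableEq V]

/-- A natural symmetric function of a colouring and two points. -/
structure NatPair (b : Finset V → V → V → ℝ) : Prop where
  map : ∀ (π : Equiv.Perm V) (A : Finset V) (x y : V),
    b (A.map π.toEmbedding) (π x) (π y) = b A x y
  symm : ∀ (A : Finset V) (x y : V), b A x y = b A y x
  le : ∀ (A : Finset V) (x y : V), |b A x y| ≤ 1

/-- The averaged pair function. -/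
noncomputable def Clo.pair (K : Clo V) (b : Finset V → V → V → ℝ) (σ : Equiv.Perm V)
    (x y : V) : ℝ := K.avg (fun A => b A x y) σ

theorem Clo.pair_conj (K : Clo V) {b : Finset V → V → V → ℝ} (hb : NatPair b)
    (π σ : Equiv.Perm V) (x y : V) :
    K.pair b (π * σ * π⁻¹) (π x) (π y) = K.pair b σ x y := by
  unfold Clo.pair
  have h := K.avg_conj (fun A => b A (π x) (π y)) (σ * π⁻¹) π
  rw [inv_mul_cancel_right] at h
  rw [mul_assoc, ← h]
  congr 1
  funext A
  exact hb.map π A x y

theorem Clo.abs_pair_le (K : Clo V) {b : Finset V → V → V → ℝ} (hb : NatPair b)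
    (σ : Equiv.Perm V) (x y : V) : |K.pair b σ x y| ≤ 1 :=
  K.abs_avg_le (fun A => hb.le A x y) σ

end Pair

variable {d L : ℕ} [NeZero L]

/-- Ring symmetry and flatness of the expectation of a pair function. -/
structure RF (d L : ℕ) [NeZero L] (t c : ℝ)
    (F : Equiv.Perm (Fin d → ZMod L) → (Fin d → ZMod L) → (Fin d → ZMod L) → ℝ) : Prop where
  cov : ∀ π σ x y, F (π * σ * π⁻¹) (π x) (π y) = F σ x y
  ring : ∀ i : Fin d, |expect d L t (fun σ => F (edgeSwap d L (0, i) * σ) 0 (Pi.single i 1)) -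
    expect d L t (fun σ => F σ 0 (Pi.single i 1))| ≤ c * Real.sqrt (bet d L t / t)
  flat : ∀ (z : Fin d → ZMod L) (k : Fin d → ℤ), z ≠ 0 → z + red d L k ≠ 0 →
    |expect d L t (fun σ => F σ 0 z) - expect d L t (fun σ => F σ 0 (z + red d L k))| ≤
      c * (∑ i, |(k i : ℝ)|) * Real.sqrt (bet d L t / t)

theorem expect_add (t : ℝ) (f g : Equiv.Perm (Fin d → ZMod L) → ℝ) :
    expect d L t (fun σ => f σ + g σ) = expect d L t f + expect d L t g := by
  rw [expect_eq, E_add, ← expect_eq, ← expect_eq]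

theorem expect_sum {ι : Type*} (s : Finset ι) (t : ℝ) (f : ι → Equiv.Perm (Fin d → ZMod L) → ℝ) :
    expect d L t (fun σ => ∑ i ∈ s, f i σ) = ∑ i ∈ s, expect d L t (f i) := by
  rw [expect_eq, E_sum]
  exact Finset.sum_congr rfl fun i _ => (expect_eq t (f i)).symm

theorem abs_expect_le {t : ℝ} (ht : 0 ≤ t) {f : Equiv.Perm (Fin d → ZMod L) → ℝ} {B : ℝ}
    (h : ∀ σ, |f σ| ≤ B) : |expect d L t f| ≤ B := by
  rw [abs_le]
  constructor
  · rw [← expect_const (d := d) (L := L) t (-B)]
    exact expect_mono ht fun σ => (abs_le.mp (h σ)).1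
  · rw [← expect_const (d := d) (L := L) t B]
    exact expect_mono ht fun σ => (abs_le.mp (h σ)).2

theorem RF.add {t c c' : ℝ}
    {F G : Equiv.Perm (Fin d → ZMod L) → (Fin d → ZMod L) → (Fin d → ZMod L) → ℝ}
    (hF : RF d L t c F) (hG : RF d L t c' G) : RF d L t (c + c') (fun σ x y => F σ x y + G σ x y) where
  cov π σ x y := by rw [hF.cov, hG.cov]
  ring i := by
    rw [expect_add, expect_add]
    have h1 := hF.ring i
    have h2 := hG.ring i
    rw [abs_le] at *
    constructor <;> linarith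
  flat z k hz hw := by
    rw [expect_add, expect_add]
    have h1 := hF.flat z k hz hw
    have h2 := hG.flat z k hz hw
    rw [abs_le] at *
    constructor <;> linarith

theorem RF.smul {t c : ℝ} (r : ℝ)
    {F : Equiv.Perm (Fin d → ZMod L) → (Fin d → ZMod L) → (Fin d → ZMod L) → ℝ}
    (hF : RF d L t c F) : RF d L t (|r| * c) (fun σ x y => r * F σ x y) where
  cov π σ x y := by rw [hF.cov]
  ring i := by
    rw [expect_smul, expect_smul, ← mul_sub, abs_mul, mul_assoc]
    exact mul_le_mul_of_nonneg_left (hF.ring i) (abs_nonneg r)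
  flat z k hz hw := by
    rw [expect_smul, expect_smul, ← mul_sub, abs_mul, mul_assoc, mul_assoc]
    refine mul_le_mul_of_nonneg_left ?_ (abs_nonneg r)
    rw [← mul_assoc]
    exact hF.flat z k hz hw

theorem RF.const (t r : ℝ) : RF d L t 0 (fun _ _ _ => r) where
  cov _ _ _ _ := rfl
  ring i := by rw [expect_const, sub_self, abs_zero, zero_mul]
  flat z k _ _ := by rw [expect_const, sub_self, abs_zero, zero_mul, zero_mul]

theorem RF.congr {t c c' : ℝ}
    {F G : Equiv.Perm (Fin d → ZMod L) → (Fin d → ZMod L) → (Fin d → ZMod L) → ℝ}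
    (hF : RF d L t c F) (h : ∀ σ x y, F σ x y = G σ x y) (hc : c ≤ c') : RF d L t c' G := by
  have : F = G := by funext σ x y; exact h σ x y
  subst this
  exact
    { cov := hF.cov
      ring := fun i => (hF.ring i).trans (mul_le_mul_of_nonneg_right hc (Real.sqrt_nonneg _))
      flat := fun z k hz hw => (hF.flat z k hz hw).trans (mul_le_mul_of_nonneg_right
        (mul_le_mul_of_nonneg_right hc (Finset.sum_nonneg fun _ _ => abs_nonneg _))
        (Real.sqrt_nonneg _)) }

theorem expect_shift {t : ℝ}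
    {F : Equiv.Perm (Fin d → ZMod L) → (Fin d → ZMod L) → (Fin d → ZMod L) → ℝ}
    (hF : ∀ π σ x y, F (π * σ * π⁻¹) (π x) (π y) = F σ x y) (x z : Fin d → ZMod L) :
    expect d L t (fun σ => F σ x (x + z)) = expect d L t (fun σ => F σ 0 z) := by
  rw [expect_trans t x (fun σ => F σ x (x + z))]
  congr 1
  funext σ
  have h1 : trans d L x 0 = x := by simp [trans]
  have h2 : trans d L x z = x + z := by simp [trans, add_comm]
  have h := hF (trans d L x) σ 0 z
  rw [h1, h2] at h
  exact h

theorem expect_shift_edge {t : ℝ}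
    {F : Equiv.Perm (Fin d → ZMod L) → (Fin d → ZMod L) → (Fin d → ZMod L) → ℝ}
    (hF : ∀ π σ x y, F (π * σ * π⁻¹) (π x) (π y) = F σ x y) (x : Fin d → ZMod L) (i : Fin d) :
    expect d L t (fun σ => F (edgeSwap d L (x, i) * σ) x (x + Pi.single i 1)) =
      expect d L t (fun σ => F (edgeSwap d L (0, i) * σ) 0 (Pi.single i 1)) := by
  refine (expect_trans t x
    (fun σ => F (edgeSwap d L (x, i) * σ) x (x + Pi.single i 1))).trans ?_
  congr 1
  funext σ
  have h1 : trans d L x 0 = x := by simp [trans]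
  have h2 : trans d L x (Pi.single i 1) = x + Pi.single i 1 := by simp [trans, add_comm]
  have h := hF (trans d L x) (edgeSwap d L (0, i) * σ) 0 (Pi.single i 1)
  rw [h1, h2] at h
  rw [← h]
  congr 1
  have h3 : edgeSwap d L (x, i) =
      trans d L x * edgeSwap d L (0, i) * (trans d L x)⁻¹ := by
    rw [← edgeSwap_transE]
    congr 1
    simp [transE]
  rw [h3]
  group

theorem sqrt_bet_ge (hL : 2 ≤ L) {t : ℝ} (ht : 1 ≤ t) (ht2 : t < 2) :
    1 / 2 ^ (d + 1) ≤ Real.sqrt (bet d L t / t) := by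
  have ht0 : 0 < t := by linarith
  set β := bet d L t with hβ
  have h2 : (1 / 2 ^ (d + 1)) ^ 2 ≤ β / t := by
    have h3 : (1 / 2 : ℝ) ^ d ≤ t ^ (-((d : ℝ) / 2)) := by
      rw [Real.rpow_neg ht0.le, one_div, inv_pow]
      refine inv_anti₀ (Real.rpow_pos_of_pos ht0 _) ?_
      calc t ^ ((d : ℝ) / 2) ≤ 2 ^ ((d : ℝ) / 2) :=
            Real.rpow_le_rpow ht0.le ht2.le (by positivity)
        _ ≤ 2 ^ (d : ℝ) := by
            refine Real.rpow_le_rpow_of_exponent_le (by norm_num) ?_
            have : (0 : ℝ) ≤ d := by positivity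
            linarith
        _ = 2 ^ d := Real.rpow_natCast _ _
    have h4 : t ^ (-((d : ℝ) / 2)) ≤ β := by
      have h2 : 0 ≤ Real.log L := Real.log_nonneg (by exact_mod_cast (by omega : 1 ≤ L))
      have h3 : 0 ≤ Real.log L / (L : ℝ) ^ d := by positivity
      rw [hβ]; unfold bet; linarith
    rw [le_div_iff₀ ht0]
    have h5 : (1 / 2 ^ (d + 1) : ℝ) ^ 2 = (1 / 2) ^ d * ((1 / 2) ^ d * (1 / 4)) := by
      rw [div_pow, one_pow, div_pow, one_pow, ← pow_mul, mul_comm (d + 1) 2, pow_mul]
      rw [pow_succ]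
      have : ((2 : ℝ) ^ 2) ^ d = 2 ^ d * 2 ^ d := by rw [← pow_mul, two_mul, pow_add]
      rw [this]; field_simp; norm_num
    have h6 : (1 / 2 : ℝ) ^ d ≤ 1 := pow_le_one₀ (by norm_num) (by norm_num)
    have h7 : 0 < (1 / 2 : ℝ) ^ d := by positivity
    rw [h5]
    nlinarith
  rw [Real.le_sqrt' (by positivity)]; exact h2

theorem log_fixSets_le (hd : 1 ≤ d) (hL : 2 ≤ L) {t : ℝ} (ht : 2 ≤ t) :
    Real.log (E (fun _ : (Fin d → ZMod L) × Fin d => t / 2) (edgeSwap d L) fixSets) ≤
      ((d + 1) + cs d * 2 ^ d) * bet d L t * (L : ℝ) ^ d := by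
  rw [← expect_eq]
  exact (log_expect_fixSets_le (L := L) hd hL (t := t / 2) (by linarith)).trans
    (log_add_le (L := L) hd hL (by linarith))

/-- One-sided ring symmetry. -/
theorem ring_one_sided (K : Clo (Fin d → ZMod L)) (hd : 1 ≤ d) (hL : 2 ≤ L) {t : ℝ} (ht : 1 ≤ t)
    {b : Finset (Fin d → ZMod L) → (Fin d → ZMod L) → (Fin d → ZMod L) → ℝ} (hb : NatPair b)
    (i : Fin d) :
    expect d L t (fun σ => K.pair b (edgeSwap d L (0, i) * σ) 0 (Pi.single i 1)) -
      expect d L t (fun σ => K.pair b σ 0 (Pi.single i 1)) ≤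
      2 * cg d * Real.sqrt (bet d L t / t) := by
  have ht0 : 0 < t := by linarith
  have hbp := bet_pos (d := d) hL ht0
  have hcs := cs_pos hd
  have hcg := cg_pos hd
  have hLpos : (0 : ℝ) < L := by exact_mod_cast (by omega : 0 < L)
  have hLd : 0 < (L : ℝ) ^ d := by positivity
  set Δ := expect d L t (fun σ => K.pair b (edgeSwap d L (0, i) * σ) 0 (Pi.single i 1)) -
      expect d L t (fun σ => K.pair b σ 0 (Pi.single i 1)) with hΔ
  set s := Real.sqrt (bet d L t / t) with hs
  have hs0 : 0 < s := Real.sqrt_pos.mpr (by positivity)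
  have hΔ2 : Δ ≤ 2 := by
    have h1 := abs_le.mp (abs_expect_le (d := d) (L := L) ht0.le
      (f := fun σ => K.pair b (edgeSwap d L (0, i) * σ) 0 (Pi.single i 1)) (B := 1)
      fun σ => K.abs_pair_le hb _ _ _)
    have h2 := abs_le.mp (abs_expect_le (d := d) (L := L) ht0.le
      (f := fun σ => K.pair b σ 0 (Pi.single i 1)) (B := 1) fun σ => K.abs_pair_le hb _ _ _)
    linarith [h1.2, h2.1]
  have hcg16 : 16 ≤ cg d := by
    unfold cg
    have h1 : (0 : ℝ) ≤ d := by positivity
    have h2 : (0 : ℝ) ≤ cs d * 2 ^ d := by positivity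
    have h3 : (0 : ℝ) ≤ 2 ^ (d + 1) := by positivity
    linarith
  by_cases ht2 : t < 2
  · have h1 := sqrt_bet_ge (d := d) hL ht ht2
    rw [← hs] at h1
    have h2 : (2 : ℝ) ^ (d + 1) ≤ cg d := by
      have : 0 ≤ 4 * (4 + ((d : ℝ) + 1) + cs d * 2 ^ d) := by positivity
      unfold cg; linarith
    rw [div_le_iff₀ (by positivity)] at h1
    nlinarith
  push Not at ht2
  by_cases hs1 : 1 / 2 < s
  · nlinarith
  push Not at hs1
  set b' : (Fin d → ZMod L) × Fin d → Finset (Fin d → ZMod L) → ℝ :=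
    fun a A => if a.2 = i then b A a.1 (a.1 + Pi.single i 1) else 0 with hb'
  have hinv : ∀ a A, b' a (A.map (edgeSwap d L a).toEmbedding) = b' a A := by
    intro a A
    simp only [hb']
    split_ifs with h
    · have h1 := hb.map (edgeSwap d L a) A (a.1 + Pi.single i 1) a.1
      have h2 : edgeSwap d L a (a.1 + Pi.single i 1) = a.1 := by
        unfold edgeSwap
        rw [h, Equiv.swap_apply_right]
      have h3 : edgeSwap d L a a.1 = a.1 + Pi.single i 1 := by
        unfold edgeSwap
        rw [h, Equiv.swap_apply_left]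
      rw [h2, h3] at h1
      rw [h1, hb.symm]
    · rfl
  have hle : ∀ a A, |b' a A| ≤ 1 := by
    intro a A
    simp only [hb']
    split_ifs
    · exact hb.le _ _ _
    · norm_num
  have h1 := K.ring_le ht0.le hs0.le hs1 edgeSwap_mul_self hinv hle
  have h2 := log_fixSets_le hd hL ht2
  have h3 : ∑ a, (E (fun _ : (Fin d → ZMod L) × Fin d => t) (edgeSwap d L)
      (fun σ => K.avg (b' a) (edgeSwap d L a * σ)) -
        E (fun _ => t) (edgeSwap d L) (fun σ => K.avg (b' a) σ)) = (L : ℝ) ^ d * Δ := by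
    rw [Fintype.sum_prod_type]
    have h4 : ∀ x : Fin d → ZMod L, ∑ j : Fin d,
        (E (fun _ : (Fin d → ZMod L) × Fin d => t) (edgeSwap d L)
          (fun σ => K.avg (b' (x, j)) (edgeSwap d L (x, j) * σ)) -
        E (fun _ => t) (edgeSwap d L) (fun σ => K.avg (b' (x, j)) σ)) = Δ := by
      intro x
      rw [Finset.sum_eq_single i]
      · simp only [hb', if_true]
        rw [← expect_eq, ← expect_eq]
        have h5 := expect_shift_edge (t := t) (F := K.pair b) (fun π σ x y => K.pair_conj hb π σ x y)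
          x i
        have h6 := expect_shift (t := t) (F := K.pair b) (fun π σ x y => K.pair_conj hb π σ x y)
          x (Pi.single i 1)
        rw [hΔ, ← h5, ← h6]
        rfl
      · intro j _ hj
        simp only [hb', if_neg hj, K.avg_const]
        rw [E_const, sub_self]
      · intro h; exact absurd (Finset.mem_univ _) h
    rw [Finset.sum_congr rfl fun x _ => h4 x, Finset.sum_const, Finset.card_univ, card_torus,
      nsmul_eq_mul]
    push_cast; rfl
  rw [h3, card_letters] at h1
  have h5 : bet d L t = s ^ 2 * t := by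
    rw [hs, Real.sq_sqrt (by positivity)]; field_simp
  rw [h5] at h2
  have h6 : s * t * (L : ℝ) ^ d * Δ ≤
      s * t * (L : ℝ) ^ d * ((4 * d + ((d + 1) + cs d * 2 ^ d)) * s) := by
    nlinarith
  have h7 : Δ ≤ (4 * d + ((d + 1) + cs d * 2 ^ d)) * s :=
    le_of_mul_le_mul_left h6 (by positivity)
  refine h7.trans (mul_le_mul_of_nonneg_right ?_ hs0.le)
  have h8 : (d : ℝ) ≤ 2 ^ (d + 1) := by
    have h9 : d ≤ 2 ^ (d + 1) := (Nat.lt_two_pow_self (n := d)).le.trans
      (Nat.pow_le_pow_right (by norm_num) (by omega))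
    exact_mod_cast h9
  have h9 : (0 : ℝ) ≤ cs d * 2 ^ d := by positivity
  unfold cg
  nlinarith

/-- One-sided flatness. -/
theorem flat_one_sided (K : Clo (Fin d → ZMod L)) (hd : 1 ≤ d) (hL : 2 ≤ L) {t : ℝ} (ht : 1 ≤ t)
    {b : Finset (Fin d → ZMod L) → (Fin d → ZMod L) → (Fin d → ZMod L) → ℝ} (hb : NatPair b)
    {z w : Fin d → ZMod L} (hz : z ≠ 0) (hw : w ≠ 0) (k : Fin d → ℤ) (hk : w = z + red d L k) :
    expect d L t (fun σ => K.pair b σ 0 z) - expect d L t (fun σ => K.pair b σ 0 w) ≤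
      2 * cg d * (∑ i, |(k i : ℝ)|) * Real.sqrt (bet d L t / t) := by
  have ht0 : 0 < t := by linarith
  have hbp := bet_pos (d := d) hL ht0
  have hcg := cg_pos hd
  have hLpos : (0 : ℝ) < L := by exact_mod_cast (by omega : 0 < L)
  have hLd : 0 < (L : ℝ) ^ d := by positivity
  by_cases hK : ∀ i, k i = 0
  · have : w = z := by
      rw [hk]
      ext i
      simp [red, hK i]
    rw [this, sub_self]
    have : 0 ≤ ∑ i, |(k i : ℝ)| := Finset.sum_nonneg fun _ _ => abs_nonneg _
    positivity
  push Not at hK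
  obtain ⟨i0, hi0⟩ := hK
  have hK1 : 1 ≤ ∑ i, |(k i : ℝ)| := by
    refine le_trans ?_ (Finset.single_le_sum (f := fun i => |(k i : ℝ)|)
      (fun i _ => abs_nonneg _) (Finset.mem_univ i0))
    exact_mod_cast Int.one_le_abs hi0
  set Kk := ∑ i, |(k i : ℝ)| with hKdef
  set Δ := expect d L t (fun σ => K.pair b σ 0 z) - expect d L t (fun σ => K.pair b σ 0 w) with hΔ
  have hΔ2 : Δ ≤ 2 := by
    have h1 := abs_le.mp (abs_expect_le (d := d) (L := L) ht0.le
      (f := fun σ => K.pair b σ 0 z) (B := 1) fun σ => K.abs_pair_le hb _ _ _)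
    have h2 := abs_le.mp (abs_expect_le (d := d) (L := L) ht0.le
      (f := fun σ => K.pair b σ 0 w) (B := 1) fun σ => K.abs_pair_le hb _ _ _)
    linarith [h1.2, h2.1]
  set D : (Fin d → ZMod L) → Finset (Fin d → ZMod L) → ℝ :=
    fun x A => (2 : ℝ)⁻¹ * (b A x (x + z) - b A x (x + w)) with hD
  have hDanti : ∀ x A, D x (A.map (Equiv.swap (x + z) (x + w)).toEmbedding) = -D x A := by
    intro x A
    have hx1 : x ≠ x + z := fun h => hz (by simpa using h.symm)
    have hx2 : x ≠ x + w := fun h => hw (by simpa using h.symm)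
    have e1 := hb.map (Equiv.swap (x + z) (x + w)) A x (x + z)
    have e2 := hb.map (Equiv.swap (x + z) (x + w)) A x (x + w)
    rw [Equiv.swap_apply_of_ne_of_ne hx1 hx2, Equiv.swap_apply_left] at e1
    rw [Equiv.swap_apply_of_ne_of_ne hx1 hx2, Equiv.swap_apply_right] at e2
    simp only [hD]
    rw [e1, e2]; ring
  have hD1 : ∀ x A, |D x A| ≤ 1 := by
    intro x A
    have e1 := abs_le.mp (hb.le A x (x + z))
    have e2 := abs_le.mp (hb.le A x (x + w))
    simp only [hD]
    rw [abs_le]
    constructor <;> linarith [e1.1, e1.2, e2.1, e2.2]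
  have hmain : 2 ≤ t → ∀ γ : ℝ, 0 < γ → γ / 2 * (L : ℝ) ^ d * Δ ≤
      4 * γ ^ 2 * Kk ^ 2 * (L : ℝ) ^ d / t +
        (Real.log ((L : ℝ) ^ d + 1) + cs d * (t / 2) ^ (-((d : ℝ) / 2)) * (L : ℝ) ^ d) := by
    intro ht2 γ hγ
    have h1 := K.pot_le (c := fun _ : (Fin d → ZMod L) × Fin d => t) (fun _ => ht0.le)
      (edgeSwap d L) edgeSwap_mul_self (fun A => γ * ∑ x, D x A)
    have h2 := h1.trans (trace_pot_le ht0 hγ D hDanti hD1 k hk (by linarith))
    have hE : 0 < expect d L (t / 2) fixSets := by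
      have h3 := expect_mono (d := d) (L := L) (t := t / 2) (by linarith) (f := fun _ => 1)
        (g := fixSets) (fun σ => by rw [fixSets_eq_two_pow]; exact one_le_pow₀ (by norm_num))
      rw [expect_const] at h3
      linarith
    have h3 := Real.log_le_log (Real.exp_pos _) h2
    rw [Real.log_exp, Real.log_mul (Real.exp_pos _).ne' hE.ne', Real.log_exp] at h3
    have h4 := log_expect_fixSets_le (L := L) hd hL (t := t / 2) (by linarith)
    have h5 : E (fun _ : (Fin d → ZMod L) × Fin d => t) (edgeSwap d L)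
        (K.avg (fun A => γ * ∑ x, D x A)) = γ / 2 * (L : ℝ) ^ d * Δ := by
      have e1 : K.avg (fun A => γ * ∑ x, D x A) = fun σ => γ / 2 * ∑ x : Fin d → ZMod L,
          (K.pair b σ x (x + z) + (-1) * K.pair b σ x (x + w)) := by
        funext σ
        rw [K.avg_smul, K.avg_sum, Finset.mul_sum, Finset.mul_sum]
        refine Finset.sum_congr rfl fun x _ => ?_
        simp only [hD]
        rw [K.avg_smul, K.avg_sub]
        unfold Clo.pair
        ring
      rw [e1, E_smul, E_sum]
      have e2 : ∀ x ∈ (Finset.univ : Finset (Fin d → ZMod L)),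
          E (fun _ : (Fin d → ZMod L) × Fin d => t) (edgeSwap d L)
            (fun σ => K.pair b σ x (x + z) + (-1) * K.pair b σ x (x + w)) = Δ := by
        intro x _
        rw [E_add, E_smul, ← expect_eq, ← expect_eq]
        have h3 := expect_shift (t := t) (F := K.pair b) (fun π σ x y => K.pair_conj hb π σ x y)
          x z
        have h4 := expect_shift (t := t) (F := K.pair b) (fun π σ x y => K.pair_conj hb π σ x y)
          x w
        rw [h3, h4]; ring
      rw [Finset.sum_congr rfl e2, Finset.sum_const, Finset.card_univ, card_torus, nsmul_eq_mul]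
      push_cast; ring
    rw [h5] at h3
    linarith
  have h := opt_gamma hd hL ht (K := Kk) (Δ := Δ / 2) hK1 (by linarith) (fun ht2 γ hγ => by
    have h1 := hmain ht2 (γ / 2) (by positivity)
    have h2 : 4 * (γ / 2) ^ 2 * Kk ^ 2 * (L : ℝ) ^ d / t ≤
        4 * γ ^ 2 * Kk ^ 2 * (L : ℝ) ^ d / t := by
      refine div_le_div_of_nonneg_right ?_ ht0.le
      refine mul_le_mul_of_nonneg_right (mul_le_mul_of_nonneg_right ?_ (sq_nonneg _)) hLd.le
      nlinarith [sq_nonneg γ]
    linarith)
  linarith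

/-- The expectation of a natural pair function is ring symmetric and flat. -/
theorem rf_pair (K : Clo (Fin d → ZMod L)) (hd : 1 ≤ d) (hL : 2 ≤ L) {t : ℝ} (ht : 1 ≤ t)
    {b : Finset (Fin d → ZMod L) → (Fin d → ZMod L) → (Fin d → ZMod L) → ℝ} (hb : NatPair b) :
    RF d L t (2 * cg d) (K.pair b) := by
  have hbn : NatPair (fun A x y => -b A x y) :=
    { map := fun π A x y => by rw [hb.map]
      symm := fun A x y => by rw [hb.symm]
      le := fun A x y => by rw [abs_neg]; exact hb.le A x y }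
  have hneg : ∀ σ x y, K.pair (fun A x y => -b A x y) σ x y = -1 * K.pair b σ x y := by
    intro σ x y
    unfold Clo.pair
    rw [← K.avg_smul]
    congr 1
    funext A
    ring
  refine ⟨fun π σ x y => K.pair_conj hb π σ x y, fun i => ?_, fun z k hz hw => ?_⟩
  · have h1 := ring_one_sided K hd hL ht hb i
    have h2 := ring_one_sided K hd hL ht hbn i
    simp only [hneg] at h2
    rw [expect_smul, expect_smul] at h2
    rw [abs_le]
    constructor <;> linarith
  · have h1 := flat_one_sided K hd hL ht hb hz hw k rfl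
    have h2 := flat_one_sided K hd hL ht hbn hz hw k rfl
    simp only [hneg] at h2
    rw [expect_smul, expect_smul] at h2
    rw [abs_le]
    constructor <;> linarith

end Pool.Agent.Stirring
end

section

/-! Closures: invariant sets, rules and Ising chains. -/

open Finset Matrix

set_option linter.unusedSectionVars false

namespace Pool.Agent.Stirring

section Inv

variable {V : Type*} [Fintype V] [DecidableEq V]

/-- A closure supported on invariant sets. -/
noncomputable def Clo.ofInv (w : Equiv.Perm V → Finset V → ℝ) (h0 : ∀ σ A, 0 ≤ w σ A)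
    (h1 : ∀ σ, ∑ A, w σ A = 1)
    (hc : ∀ a b A, w (b * a) (A.map b.toEmbedding) = w (a * b) A)
    (hs : ∀ σ A, w σ A ≠ 0 → A.map σ.toEmbedding = A) : Clo V where
  w := w
  M := 1
  w_nonneg := h0
  w_sum := h1
  w_conj := hc
  exp_le σ X := by
    have h2 := convexOn_exp.map_sum_le (t := Finset.univ) (w := fun A => w σ A) (p := X)
      (fun A _ => h0 σ A) (h1 σ) (fun A _ => Set.mem_univ _)
    simp only [smul_eq_mul] at h2
    refine h2.trans (Finset.sum_le_sum fun A _ => ?_)
    refine mul_le_mul_of_nonneg_right ?_ (Real.exp_pos _).le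
    by_cases hA : w σ A = 0
    · rw [hA, Matrix.one_apply]
      split_ifs <;> norm_num
    · rw [hs σ A hA, Matrix.one_apply_eq, ← h1 σ]
      exact Finset.single_le_sum (f := fun A => w σ A) (fun A _ => h0 σ A) (Finset.mem_univ A)
  trace_le H _ := by rw [one_mul]

/-- A rule: a natural map that gives an invariant set from a permutation, marked points and an
invariant set. -/
structure Rule (V : Type*) [Fintype V] [DecidableEq V] (m : ℕ) where
  /-- the set -/
  S : Equiv.Perm V → (Fin m → V) → Finset V → Finset V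
  nat : ∀ (a b : Equiv.Perm V) (Z : Fin m → V) (R : Finset V),
    S (b * a) (fun i => b (Z i)) (R.map b.toEmbedding) = (S (a * b) Z R).map b.toEmbedding
  inv : ∀ (σ : Equiv.Perm V) (Z : Fin m → V) (R : Finset V), R ∈ invs σ →
    (S σ Z R).map σ.toEmbedding = S σ Z R

variable {m : ℕ}

theorem invs_conj_mem (a b : Equiv.Perm V) (R : Finset V) :
    R.map b.toEmbedding ∈ invs (b * a) ↔ R ∈ invs (a * b) := by
  simp only [invs, Finset.mem_filter, Finset.mem_univ, true_and]
  rw [← mul_toEmbedding_map, mul_assoc, mul_toEmbedding_map b, Finset.map_inj]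

/-- The law of the set of a rule. -/
noncomputable def Rule.w (ρ : Rule V m) (σ : Equiv.Perm V) (A : Finset V) : ℝ :=
  ∑ Z : Fin m → V, ∑ R : Finset V, if R ∈ invs σ ∧ ρ.S σ Z R = A then
    ((Fintype.card (Fin m → V) : ℝ) * (invs σ).card)⁻¹ else 0

theorem Rule.w_nonneg (ρ : Rule V m) (σ : Equiv.Perm V) (A : Finset V) : 0 ≤ ρ.w σ A :=
  Finset.sum_nonneg fun _ _ => Finset.sum_nonneg fun _ _ => by split_ifs <;> positivity

theorem Rule.sum_w_mul (ρ : Rule V m) (σ : Equiv.Perm V) (X : Finset V → ℝ) :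
    ∑ A, ρ.w σ A * X A = (Fintype.card (Fin m → V) : ℝ)⁻¹ * ∑ Z : Fin m → V,
      ((invs σ).card : ℝ)⁻¹ * ∑ R ∈ invs σ, X (ρ.S σ Z R) := by
  unfold Rule.w
  simp only [Finset.sum_mul]
  rw [Finset.sum_comm, Finset.mul_sum]
  refine Finset.sum_congr rfl fun Z _ => ?_
  rw [Finset.sum_comm, ← mul_assoc, ← mul_inv, Finset.mul_sum]
  have h : ∀ R : Finset V, ∑ A : Finset V, (if R ∈ invs σ ∧ ρ.S σ Z R = A then
      ((Fintype.card (Fin m → V) : ℝ) * (invs σ).card)⁻¹ else 0) * X A =
      if R ∈ invs σ then ((Fintype.card (Fin m → V) : ℝ) * (invs σ).card)⁻¹ * X (ρ.S σ Z R)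
      else 0 := by
    intro R
    by_cases hR : R ∈ invs σ
    · rw [if_pos hR, Finset.sum_eq_single (ρ.S σ Z R)]
      · rw [if_pos ⟨hR, rfl⟩]
      · intro A _ hA
        rw [if_neg (fun h => hA h.2.symm), zero_mul]
      · intro h; exact absurd (Finset.mem_univ _) h
    · rw [if_neg hR]
      refine Finset.sum_eq_zero fun A _ => ?_
      rw [if_neg (fun h => hR h.1), zero_mul]
  rw [Finset.sum_congr rfl fun R _ => h R, ← Finset.sum_filter]
  congr 1
  ext R
  simp

theorem Rule.w_sum [Nonempty V] (ρ : Rule V m) (σ : Equiv.Perm V) : ∑ A, ρ.w σ A = 1 := by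
  have h := ρ.sum_w_mul σ (fun _ => 1)
  simp only [mul_one, Finset.sum_const, nsmul_eq_mul] at h
  rw [h]
  have h1 := (card_invs_pos σ).ne'
  have h2 : (Fintype.card (Fin m → V) : ℝ) ≠ 0 := by
    exact_mod_cast Fintype.card_ne_zero
  rw [inv_mul_cancel₀ h1, mul_one, Finset.card_univ, inv_mul_cancel₀ h2]

theorem Rule.w_conj (ρ : Rule V m) (a b : Equiv.Perm V) (A : Finset V) :
    ρ.w (b * a) (A.map b.toEmbedding) = ρ.w (a * b) A := by
  unfold Rule.w
  have e1 : ∀ f : (Fin m → V) → ℝ, ∑ Z : Fin m → V, f Z =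
      ∑ Z : Fin m → V, f (fun i => b (Z i)) := by
    intro f
    exact (Equiv.sum_comp (Equiv.arrowCongr (Equiv.refl (Fin m)) b) f).symm
  have e2 : ∀ f : Finset V → ℝ, ∑ R : Finset V, f R = ∑ R : Finset V, f (R.map b.toEmbedding) := by
    intro f
    exact (Equiv.sum_comp (setHom V b) f).symm
  rw [e1]
  refine Finset.sum_congr rfl fun Z _ => ?_
  rw [e2]
  refine Finset.sum_congr rfl fun R _ => ?_
  refine if_congr ?_ ?_ rfl
  · rw [invs_conj_mem, ρ.nat, Finset.map_inj]
  · rw [card_invs_comm]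

theorem Rule.w_supp (ρ : Rule V m) (σ : Equiv.Perm V) (A : Finset V) (h : ρ.w σ A ≠ 0) :
    A.map σ.toEmbedding = A := by
  unfold Rule.w at h
  obtain ⟨Z, _, hZ⟩ := Finset.exists_ne_zero_of_sum_ne_zero h
  obtain ⟨R, _, hR⟩ := Finset.exists_ne_zero_of_sum_ne_zero hZ
  by_cases h1 : R ∈ invs σ ∧ ρ.S σ Z R = A
  · rw [← h1.2]
    exact ρ.inv σ Z R h1.1
  · rw [if_neg h1] at hR
    exact absurd rfl hR

/-- The closure of a rule. -/
noncomputable def Rule.clo [Nonempty V] (ρ : Rule V m) : Clo V :=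
  Clo.ofInv ρ.w ρ.w_nonneg ρ.w_sum ρ.w_conj ρ.w_supp

theorem Rule.avg_eq [Nonempty V] (ρ : Rule V m) (X : Finset V → ℝ) (σ : Equiv.Perm V) :
    ρ.clo.avg X σ = (Fintype.card (Fin m → V) : ℝ)⁻¹ * ∑ Z : Fin m → V,
      ((invs σ).card : ℝ)⁻¹ * ∑ R ∈ invs σ, X (ρ.S σ Z R) := ρ.sum_w_mul σ X

/-- The pair function: both points are in the set. -/
noncomputable def bIn (A : Finset V) (x y : V) : ℝ := if x ∈ A ∧ y ∈ A then 1 else 0

theorem natPair_bIn : NatPair (bIn : Finset V → V → V → ℝ) where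
  map π A x y := by
    unfold bIn
    simp only [Finset.mem_map_equiv, Equiv.symm_apply_apply]
  symm A x y := by
    unfold bIn
    simp only [and_comm]
  le A x y := by
    unfold bIn
    split_ifs <;> norm_num

/-- The Ising closure. -/
noncomputable def cloIsing (V : Type*) [Fintype V] [DecidableEq V] (ϑ : ℝ) (h0 : 0 ≤ ϑ)
    (h1 : ϑ ≤ 1) : Clo V where
  w σ A := MM V ϑ A (A.map σ.toEmbedding) / Zt ϑ σ
  M := MM V ϑ
  w_nonneg σ A := div_nonneg (MM_nonneg h0 h1 _ _) (Zt_pos h0 σ).le
  w_sum σ := by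
    rw [← Finset.sum_div, sum_MM, div_self (Zt_pos h0 σ).ne']
  w_conj a b A := by
    rw [Zt_comm ϑ b a]
    congr 1
    rw [← mul_toEmbedding_map, mul_assoc, mul_toEmbedding_map b, MM_map]
  exp_le σ X := by
    have h2 := jensen_M h0 h1 X σ
    refine le_trans (Real.exp_le_exp.mpr ?_) h2
    have h3 : 0 ≤ Real.log (Zt ϑ σ) := log_Zt_nonneg h0 σ
    have h4 : avgM ϑ X σ = ∑ A : Finset V, MM V ϑ A (A.map σ.toEmbedding) / Zt ϑ σ * X A := by
      unfold avgM
      rw [Finset.sum_div]
      exact Finset.sum_congr rfl fun A _ => by ring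
    rw [← h4]
    linarith
  trace_le H hH := trace_MM_mul_exp_le h0 h1 hH

/-- The spin pair function. -/
def bSg (A : Finset V) (x y : V) : ℝ := sg A x * sg A y

theorem natPair_bSg : NatPair (bSg : Finset V → V → V → ℝ) where
  map π A x y := by
    unfold bSg
    rw [sg_map, sg_map]
    have h1 : ∀ z, π⁻¹ (π z) = z := fun z => by
      rw [← Equiv.Perm.mul_apply, inv_mul_cancel, Equiv.Perm.one_apply]
    rw [h1, h1]
  symm A x y := mul_comm _ _
  le A x y := by
    unfold bSg
    rw [abs_mul, abs_sg, abs_sg, one_mul]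

theorem cloIsing_pair {ϑ : ℝ} (h0 : 0 ≤ ϑ) (h1 : ϑ ≤ 1) (σ : Equiv.Perm V) (x y : V) :
    (cloIsing V ϑ h0 h1).pair bSg σ x y = Gt ϑ σ x y := by
  rw [← Gt_eq_avgM]
  unfold Clo.pair Clo.avg avgM
  rw [Finset.sum_div]
  exact Finset.sum_congr rfl fun A _ => by
    show MM V ϑ A (A.map σ.toEmbedding) / Zt ϑ σ * bSg A x y = _
    unfold bSg
    ring

end Inv

end Pool.Agent.Stirring
end
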