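import Pool.Agent.Lib.MP_6c3d62_pr.Mg.G092
import Pool.Agent.Lib.MP_6c3d62_pr.Mg.G090
import Pool.Agent.Lib.MP_6c3d62_pr.Mg.G091

section

section

/-! From approximate ring symmetry to the law of the cycles of a uniform permutation. -/

open Finset

set_option linter.unusedSectionVars false

namespace Pool.Agent.Stirring

variable {ι : Type*} [Fintype ι] [DecidableEq ι]

open Classical in
/-- The pairs of different points in the same cycle. -/
noncomputable def pairsOf (τ : Equiv.Perm ι) : Finset (ι × ι) :=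
  Finset.univ.filter fun p => p.1 ≠ p.2 ∧ τ.SameCycle p.1 p.2

theorem mem_pairsOf (τ : Equiv.Perm ι) (a b : ι) :
    (a, b) ∈ pairsOf τ ↔ a ≠ b ∧ τ.SameCycle a b := by
  classical
  unfold pairsOf
  rw [Finset.mem_filter]
  simp

theorem pairsOf_one_of_empty {τ : Equiv.Perm ι} (h : pairsOf τ = ∅) : τ = 1 := by
  ext a
  by_contra hne
  have h1 : (a, τ a) ∈ pairsOf τ := by
    rw [mem_pairsOf]
    refine ⟨fun h2 => hne h2.symm, ?_⟩
    exact (Equiv.Perm.SameCycle.refl τ a).apply_right
  rw [h] at h1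
  exact absurd h1 (Finset.notMem_empty _)

theorem pairsOf_swap_lt {τ : Equiv.Perm ι} {i j : ι} (hij : i ≠ j) (h : τ.SameCycle i j) :
    (pairsOf (Equiv.swap i j * τ)).card < (pairsOf τ).card := by
  refine Finset.card_lt_card ?_
  have hn := not_sameCycle_swap hij h
  have h1 : Equiv.swap i j * (Equiv.swap i j * τ) = τ := by
    rw [← mul_assoc, Equiv.swap_mul_self, one_mul]
  have hm := sameCycle_merge hij hn
  rw [h1] at hm
  rw [Finset.ssubset_iff_of_subset]
  · exact ⟨(i, j), (mem_pairsOf _ _ _).mpr ⟨hij, h⟩, fun h2 => hn ((mem_pairsOf _ _ _).mp h2).2⟩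
  · rintro ⟨a, b⟩ hab
    rw [mem_pairsOf] at hab ⊢
    exact ⟨hab.1, (hm a b).mpr (Or.inl hab.2)⟩

theorem pairsOf_eq_of_relCl {τ τ' : Equiv.Perm ι} (h : τ' ∈ relCl τ) : pairsOf τ' = pairsOf τ := by
  ext ⟨a, b⟩
  rw [mem_pairsOf, mem_pairsOf, (mem_relCl τ τ').mp h a b]

theorem relCl_card_le (τ : Equiv.Perm ι) :
    ((relCl τ).card : ℝ) ≤ ((Fintype.card ι).factorial : ℝ) := by
  have h1 : (relCl τ).card ≤ Fintype.card (Equiv.Perm ι) := Finset.card_le_univ _
  rw [Fintype.card_perm] at h1
  exact_mod_cast h1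

theorem pairsOf_card_le (τ : Equiv.Perm ι) :
    ((pairsOf τ).card : ℝ) ≤ (Fintype.card ι : ℝ) ^ 2 := by
  have h1 : (pairsOf τ).card ≤ Fintype.card (ι × ι) := Finset.card_le_univ _
  rw [Fintype.card_prod] at h1
  have h2 : ((pairsOf τ).card : ℝ) ≤ ((Fintype.card ι * Fintype.card ι : ℕ) : ℝ) := by
    exact_mod_cast h1
  rw [sq]
  push_cast at h2
  exact h2

/-- Approximate ring symmetry implies the law of the cycles of a uniform permutation. -/
theorem ewens_of_approx {Q : Equiv.Perm ι → ℝ} {e : ℝ} (he : 0 ≤ e)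
    (hsum : ∑ τ, Q τ / (relCl τ).card = 1)
    (hQ : ∀ (τ : Equiv.Perm ι) (i j : ι), i ≠ j → τ.SameCycle i j →
      |Q τ - ∑ τ' ∈ relCl τ, Q (Equiv.swap i j * τ') / (relCl (Equiv.swap i j * τ')).card| ≤ e)
    (τ : Equiv.Perm ι) :
    |Q τ - (relCl τ).card / ((Fintype.card ι).factorial : ℝ)| ≤
      2 * (Fintype.card ι : ℝ) ^ 2 * ((Fintype.card ι).factorial : ℝ) * e := by
  set q : Equiv.Perm ι → ℝ := fun τ => Q τ / (relCl τ).card with hq
  have hind : ∀ (n : ℕ) (τ : Equiv.Perm ι), (pairsOf τ).card ≤ n → |q τ - q 1| ≤ n * e := by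
    intro n
    induction n with
    | zero =>
      intro τ hτ
      have h1 : τ = 1 := pairsOf_one_of_empty (Finset.card_eq_zero.mp (by omega))
      rw [h1, sub_self, abs_zero]
      positivity
    | succ n ih =>
      intro τ hτ
      by_cases h0 : pairsOf τ = ∅
      · rw [pairsOf_one_of_empty h0, sub_self, abs_zero]
        positivity
      obtain ⟨⟨i, j⟩, hp⟩ := Finset.nonempty_iff_ne_empty.mpr h0
      rw [mem_pairsOf] at hp
      obtain ⟨hij, hs⟩ := hp
      have h1 := hQ τ i j hij hs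
      have hN := relCl_card_pos τ
      have hN1 : (1 : ℝ) ≤ (relCl τ).card := by
        exact_mod_cast Finset.card_pos.mpr ⟨τ, self_mem_relCl τ⟩
      have h2 : ∀ τ' ∈ relCl τ, |q (Equiv.swap i j * τ') - q 1| ≤ n * e := by
        intro τ' hτ'
        refine ih _ ?_
        have h3 : τ'.SameCycle i j := ((mem_relCl τ τ').mp hτ' i j).mpr hs
        have h4 := pairsOf_swap_lt hij h3
        rw [pairsOf_eq_of_relCl hτ'] at h4
        omega
      have h3 : |∑ τ' ∈ relCl τ, q (Equiv.swap i j * τ') - (relCl τ).card * q 1| ≤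
          (relCl τ).card * (n * e) := by
        have h4 : ∑ τ' ∈ relCl τ, q (Equiv.swap i j * τ') - (relCl τ).card * q 1 =
            ∑ τ' ∈ relCl τ, (q (Equiv.swap i j * τ') - q 1) := by
          rw [Finset.sum_sub_distrib, Finset.sum_const, nsmul_eq_mul]
        rw [h4]
        refine (Finset.abs_sum_le_sum_abs _ _).trans ?_
        refine (Finset.sum_le_sum h2).trans (le_of_eq ?_)
        rw [Finset.sum_const, nsmul_eq_mul]
      have h5 : |(relCl τ).card * (q τ - q 1)| ≤ (relCl τ).card * (((n + 1 : ℕ) : ℝ) * e) := by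
        have h6 : (relCl τ).card * q τ = Q τ := by
          rw [hq]
          field_simp
        have h7 : (relCl τ).card * (q τ - q 1) =
            (Q τ - ∑ τ' ∈ relCl τ, q (Equiv.swap i j * τ')) +
            (∑ τ' ∈ relCl τ, q (Equiv.swap i j * τ') - (relCl τ).card * q 1) := by
          rw [mul_sub, h6]; ring
        rw [h7]
        refine (abs_add_le _ _).trans ?_
        refine (add_le_add h1 h3).trans ?_
        push_cast
        nlinarith
      rw [abs_mul, abs_of_pos hN] at h5
      exact le_of_mul_le_mul_left h5 hN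
  set k2 : ℝ := (Fintype.card ι : ℝ) ^ 2 with hk2
  set F : ℝ := ((Fintype.card ι).factorial : ℝ) with hF
  have hFpos : 0 < F := by rw [hF]; positivity
  have hall : ∀ τ, |q τ - q 1| ≤ k2 * e := by
    intro τ
    refine (hind _ τ le_rfl).trans ?_
    exact mul_le_mul_of_nonneg_right (pairsOf_card_le τ) he
  have hcard : (Fintype.card (Equiv.Perm ι) : ℝ) = F := by
    rw [Fintype.card_perm]
  have h1 : |F * (q 1 - 1 / F)| ≤ F * (k2 * e) := by
    have h2 : F * (q 1 - 1 / F) = ∑ τ : Equiv.Perm ι, (q 1 - q τ) := by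
      rw [Finset.sum_sub_distrib, Finset.sum_const, Finset.card_univ, nsmul_eq_mul, hcard, hsum]
      field_simp
    rw [h2]
    refine (Finset.abs_sum_le_sum_abs _ _).trans ?_
    have h3 : ∀ τ ∈ (Finset.univ : Finset (Equiv.Perm ι)), |q 1 - q τ| ≤ k2 * e := by
      intro τ _
      rw [abs_sub_comm]
      exact hall τ
    refine (Finset.sum_le_sum h3).trans (le_of_eq ?_)
    rw [Finset.sum_const, Finset.card_univ, nsmul_eq_mul, hcard]
  rw [abs_mul, abs_of_pos hFpos] at h1
  have h2 : |q 1 - 1 / F| ≤ k2 * e := le_of_mul_le_mul_left h1 hFpos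
  have h3 : |q τ - 1 / F| ≤ 2 * (k2 * e) := by
    have := abs_sub_le (q τ) (q 1) (1 / F)
    have := hall τ
    linarith
  have hN := relCl_card_pos τ
  have h4 : Q τ - (relCl τ).card / F = (relCl τ).card * (q τ - 1 / F) := by
    rw [hq]
    field_simp
  rw [h4, abs_mul, abs_of_pos hN]
  calc ((relCl τ).card : ℝ) * |q τ - 1 / F| ≤ F * (2 * (k2 * e)) :=
        mul_le_mul (relCl_card_le τ) h3 (abs_nonneg _) hFpos.le
    _ = _ := by ring

end Pool.Agent.Stirring
end

section

/-! Jensen's inequality on words for colourings with several colours. -/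

open Finset Matrix Filter Topology

set_option linter.unusedSectionVars false
set_option linter.style.haveILetI false

namespace Pool.Agent.Stirring

section Avg

variable {V : Type*} [Fintype V] [DecidableEq V] {K : Type*} [Fintype K] [DecidableEq K]

/-- The invariant colourings. -/
def fixS (K : Type*) [Fintype K] [DecidableEq K] (σ : Equiv.Perm V) : Finset (V → K) :=
  Finset.univ.filter fun η : V → K => colHom V K σ η = η

theorem mem_fixS (σ : Equiv.Perm V) (η : V → K) : η ∈ fixS K σ ↔ ∀ x, η (σ x) = η x := by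
  unfold fixS
  rw [Finset.mem_filter, colHom_fix_iff]
  simp

theorem fixQ_eq_card (σ : Equiv.Perm V) : fixQ K σ = ((fixS K σ).card : ℝ) := rfl

/-- The average over the invariant colourings. -/
noncomputable def avgQ (X : (V → K) → ℝ) (σ : Equiv.Perm V) : ℝ :=
  (fixQ K σ)⁻¹ * ∑ η ∈ fixS K σ, X η

theorem avgQ_add (X Y : (V → K) → ℝ) (σ : Equiv.Perm V) :
    avgQ (fun η => X η + Y η) σ = avgQ X σ + avgQ Y σ := by
  simp only [avgQ, Finset.sum_add_distrib, mul_add]

theorem avgQ_sub (X Y : (V → K) → ℝ) (σ : Equiv.Perm V) :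
    avgQ (fun η => X η - Y η) σ = avgQ X σ - avgQ Y σ := by
  simp only [avgQ, Finset.sum_sub_distrib, mul_sub]

theorem avgQ_smul (r : ℝ) (X : (V → K) → ℝ) (σ : Equiv.Perm V) :
    avgQ (fun η => r * X η) σ = r * avgQ X σ := by
  simp only [avgQ, ← Finset.mul_sum]
  ring

theorem avgQ_sum {ι : Type*} (s : Finset ι) (X : ι → (V → K) → ℝ) (σ : Equiv.Perm V) :
    avgQ (fun η => ∑ i ∈ s, X i η) σ = ∑ i ∈ s, avgQ (X i) σ := by
  simp only [avgQ, ← Finset.mul_sum]
  rw [Finset.sum_comm]

variable [Nonempty K]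

theorem fixQ_pos (σ : Equiv.Perm V) : 0 < fixQ K σ := by
  have := fixQ_ge_one (K := K) σ
  linarith

theorem avgQ_const (r : ℝ) (σ : Equiv.Perm V) : avgQ (fun _ : V → K => r) σ = r := by
  unfold avgQ
  rw [Finset.sum_const, nsmul_eq_mul, ← fixQ_eq_card, ← mul_assoc,
    inv_mul_cancel₀ (fixQ_pos σ).ne', one_mul]

theorem avgQ_mono {X Y : (V → K) → ℝ} (h : ∀ η, X η ≤ Y η) (σ : Equiv.Perm V) :
    avgQ X σ ≤ avgQ Y σ := by
  unfold avgQ
  refine mul_le_mul_of_nonneg_left (Finset.sum_le_sum fun η _ => h η) ?_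
  have := fixQ_pos (K := K) σ
  positivity

theorem abs_avgQ_le {X : (V → K) → ℝ} {B : ℝ} (h : ∀ η, |X η| ≤ B) (σ : Equiv.Perm V) :
    |avgQ X σ| ≤ B := by
  rw [abs_le]
  constructor
  · rw [← avgQ_const (K := K) (-B) σ]
    exact avgQ_mono (fun η => (abs_le.mp (h η)).1) σ
  · rw [← avgQ_const (K := K) B σ]
    exact avgQ_mono (fun η => (abs_le.mp (h η)).2) σ

theorem sum_fixS_conj (X : (V → K) → ℝ) (a b : Equiv.Perm V) :
    ∑ η ∈ fixS K (a * b), X (colHom V K b η) = ∑ η ∈ fixS K (b * a), X η := by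
  refine Finset.sum_bij' (fun η _ => colHom V K b η) (fun η _ => colHom V K b⁻¹ η) ?_ ?_ ?_ ?_ ?_
  · intro η hη
    unfold fixS at *
    rw [Finset.mem_filter] at *
    refine ⟨Finset.mem_univ _, ?_⟩
    rw [← Equiv.Perm.mul_apply, ← map_mul, mul_assoc, map_mul, Equiv.Perm.mul_apply, hη.2]
  · intro η hη
    unfold fixS at *
    rw [Finset.mem_filter] at *
    refine ⟨Finset.mem_univ _, ?_⟩
    rw [← Equiv.Perm.mul_apply, ← map_mul, mul_inv_cancel_right]
    have h1 : a = b⁻¹ * (b * a) := by group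
    rw [h1, map_mul, Equiv.Perm.mul_apply, hη.2]
  · intro η _
    rw [← Equiv.Perm.mul_apply, ← map_mul, inv_mul_cancel, map_one]; rfl
  · intro η _
    rw [← Equiv.Perm.mul_apply, ← map_mul, mul_inv_cancel, map_one]; rfl
  · intro η _; rfl

theorem fixQ_comm (a b : Equiv.Perm V) : fixQ K (a * b) = fixQ K (b * a) := by
  have h := sum_fixS_conj (K := K) (fun _ => 1) a b
  simp only [Finset.sum_const, nsmul_eq_mul, mul_one] at h
  rw [fixQ_eq_card, fixQ_eq_card, h]

theorem avgQ_conj (X : (V → K) → ℝ) (a b : Equiv.Perm V) :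
    avgQ (fun η => X (colHom V K b η)) (a * b) = avgQ X (b * a) := by
  unfold avgQ
  rw [sum_fixS_conj X a b, fixQ_comm]

theorem exp_avgQ_le (X : (V → K) → ℝ) (σ : Equiv.Perm V) :
    Real.exp (avgQ X σ) ≤ ∑ η, if η = colHom V K σ η then Real.exp (X η) else 0 := by
  have hpos := fixQ_pos (K := K) σ
  have h1 := fixQ_ge_one (K := K) σ
  have h2 := convexOn_exp.map_sum_le (t := fixS K σ) (w := fun _ => (fixQ K σ)⁻¹) (p := X)
    (fun η _ => by positivity) (by
      rw [Finset.sum_const, nsmul_eq_mul, ← fixQ_eq_card, mul_inv_cancel₀ hpos.ne'])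
    (fun η _ => Set.mem_univ _)
  simp only [smul_eq_mul, ← Finset.mul_sum] at h2
  have h3 : ∑ η, (if η = colHom V K σ η then Real.exp (X η) else 0) =
      ∑ η ∈ fixS K σ, Real.exp (X η) := by
    unfold fixS
    rw [Finset.sum_filter]
    exact Finset.sum_congr rfl fun η _ => if_congr eq_comm rfl rfl
  rw [h3]
  refine h2.trans ?_
  have h4 : 0 ≤ ∑ η ∈ fixS K σ, Real.exp (X η) := Finset.sum_nonneg fun _ _ => (Real.exp_pos _).le
  exact mul_le_of_le_one_left h4 (inv_le_one_of_one_le₀ h1)

end Avg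

section Word

variable {V : Type*} [Fintype V] [DecidableEq V] {K : Type*} [Fintype K] [DecidableEq K]
variable {α : Type*} [Fintype α]

/-- The matrix of a letter. -/
noncomputable def letQ (g : α → Equiv.Perm V) (Y : α → (V → K) → ℝ) (a : α) :
    Matrix (V → K) (V → K) ℝ :=
  diagonal (fun η => Real.exp (Y a η)) * rhoQ V K (g a)

/-- The weight of the first letter. -/
noncomputable def hdQ (g : α → Equiv.Perm V) (Y : α → (V → K) → ℝ) :
    List α → (V → K) → ℝ
  | [], _ => 0
  | a :: l, η => Y a (colHom V K ((a :: l).map g).prod η)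

/-- The total weight. -/
noncomputable def totQ (g : α → Equiv.Perm V) (Y : α → (V → K) → ℝ) (l : List α)
    (η : V → K) : ℝ := ∑ j ∈ Finset.range l.length, hdQ g Y (l.drop j) η

theorem totQ_cons (g : α → Equiv.Perm V) (Y : α → (V → K) → ℝ) (a : α) (l : List α)
    (η : V → K) :
    totQ g Y (a :: l) η = Y a (colHom V K ((a :: l).map g).prod η) + totQ g Y l η := by
  unfold totQ
  rw [List.length_cons, Finset.sum_range_succ', add_comm]
  rfl

theorem letQ_prod_apply (g : α → Equiv.Perm V) (Y : α → (V → K) → ℝ) (l : List α)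
    (ζ η : V → K) :
    ((l.map (letQ g Y)).prod) ζ η =
      if ζ = colHom V K (l.map g).prod η then Real.exp (totQ g Y l η) else 0 := by
  induction l generalizing ζ with
  | nil =>
    rw [List.map_nil, List.prod_nil, Matrix.one_apply, List.map_nil, List.prod_nil, map_one]
    simp [totQ]
  | cons a l ih =>
    rw [List.map_cons, List.prod_cons, Matrix.mul_apply]
    simp only [ih]
    rw [Finset.sum_eq_single (colHom V K (l.map g).prod η)]
    · rw [if_pos rfl, letQ, Matrix.diagonal_mul, rhoQ_apply, totQ_cons, List.map_cons,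
        List.prod_cons, map_mul, Equiv.Perm.mul_apply, Real.exp_add]
      split_ifs with h
      · rw [h]; ring
      · ring
    · intro D _ hD
      rw [if_neg hD, mul_zero]
    · intro h; exact absurd (Finset.mem_univ _) h

theorem trace_letQ (g : α → Equiv.Perm V) (Y : α → (V → K) → ℝ) (l : List α) :
    trace ((l.map (letQ g Y)).prod) =
      ∑ η : V → K, if η = colHom V K (l.map g).prod η then Real.exp (totQ g Y l η) else 0 := by
  rw [trace]
  simp only [diag_apply, letQ_prod_apply]

theorem abs_totQ_le (g : α → Equiv.Perm V) {Y : α → (V → K) → ℝ} {B : ℝ}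
    (hY : ∀ a η, |Y a η| ≤ B) (l : List α) (η : V → K) :
    |totQ g Y l η| ≤ B * l.length := by
  induction l with
  | nil => simp [totQ]
  | cons a l ih =>
    rw [totQ_cons]
    refine (abs_add_le _ _).trans ?_
    have := hY a (colHom V K ((a :: l).map g).prod η)
    rw [List.length_cons]
    push_cast
    linarith

variable [Nonempty K]

/-- The averaged weight of the first letter. -/
noncomputable def hdAQ (g : α → Equiv.Perm V) (Y : α → (V → K) → ℝ) :
    List α → ℝ
  | [] => 0
  | a :: l => avgQ (Y a) ((a :: l).map g).prod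

theorem abs_hdAQ_le (g : α → Equiv.Perm V) {Y : α → (V → K) → ℝ} {B : ℝ}
    (hB : 0 ≤ B) (hY : ∀ a η, |Y a η| ≤ B) (l : List α) : |hdAQ g Y l| ≤ B := by
  cases l with
  | nil => simpa [hdAQ] using hB
  | cons a l => exact abs_avgQ_le (hY a) _

theorem avgQ_totQ (g : α → Equiv.Perm V) (Y : α → (V → K) → ℝ) (l : List α) :
    avgQ (totQ g Y l) (l.map g).prod = ∑ j ∈ Finset.range l.length, hdAQ g Y (l.rotate j) := by
  have h0 : avgQ (totQ g Y l) (l.map g).prod =
      ∑ j ∈ Finset.range l.length, avgQ (hdQ g Y (l.drop j)) (l.map g).prod := by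
    unfold totQ
    exact avgQ_sum _ _ _
  rw [h0]
  refine Finset.sum_congr rfl fun j hj => ?_
  have hj' : j < l.length := Finset.mem_range.mp hj
  obtain ⟨a, l', hl'⟩ : ∃ a l', l.drop j = a :: l' := by
    refine List.exists_cons_of_ne_nil ?_
    intro h
    have := List.length_drop (i := j) (l := l)
    rw [h, List.length_nil] at this
    omega
  have h1 : (l.map g).prod = ((l.take j).map g).prod * ((l.drop j).map g).prod := by
    rw [← List.prod_append, ← List.map_append, List.take_append_drop]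
  have h2 : l.rotate j = a :: (l' ++ l.take j) := by
    rw [List.rotate_eq_drop_append_take hj'.le, hl', List.cons_append]
  rw [h1, h2, hl']
  have h3 : hdAQ g Y (a :: (l' ++ l.take j)) =
      avgQ (Y a) (((a :: l').map g).prod * ((l.take j).map g).prod) := by
    rw [← List.prod_append, ← List.map_append]
    rfl
  rw [h3, ← avgQ_conj (Y a)]
  rfl

/-- Jensen's inequality for words closed by invariant colourings. -/
theorem word_jensenQ {c : α → ℝ} (hc : ∀ a, 0 ≤ c a) (g : α → Equiv.Perm V)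
    (Y : α → (V → K) → ℝ) :
    Real.exp (∑ a, c a * E c g (fun σ => avgQ (Y a) (g a * σ))) ≤
      trace (NormedSpace.exp (∑ a, c a • (letQ g Y a - 1))) := by
  classical
  -- a bound
  set B : ℝ := ∑ a, ∑ η, |Y a η| with hB
  have hB0 : 0 ≤ B := Finset.sum_nonneg fun a _ => Finset.sum_nonneg fun η _ => abs_nonneg _
  have hY : ∀ a η, |Y a η| ≤ B := by
    intro a η
    refine (Finset.single_le_sum (f := fun η => |Y a η|) (fun _ _ => abs_nonneg _)
      (Finset.mem_univ η)).trans ?_
    exact Finset.single_le_sum (f := fun a => ∑ η, |Y a η|)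
      (fun _ _ => Finset.sum_nonneg fun _ _ => abs_nonneg _) (Finset.mem_univ a)
  set s := ∑ a, c a with hs
  have hrot : ∀ l : List α, |∑ j ∈ Finset.range l.length, hdAQ g Y (l.rotate j)| ≤
      B * l.length := by
    intro l
    refine (Finset.abs_sum_le_sum_abs _ _).trans ?_
    refine (Finset.sum_le_sum fun j _ => abs_hdAQ_le g hB0 hY (l.rotate j)).trans ?_
    rw [Finset.sum_const, Finset.card_range, nsmul_eq_mul, mul_comm]
  have h1 := exp_Z_le hc hrot
  rw [Z_rotate_sum c (abs_hdAQ_le g hB0 hY)] at h1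
  have h2 : Real.exp (-∑ a, c a) * ∑ a, c a * Z c (fun l => hdAQ g Y (a :: l)) =
      ∑ a, c a * E c g (fun σ => avgQ (Y a) (g a * σ)) := by
    rw [Finset.mul_sum]
    refine Finset.sum_congr rfl fun a _ => ?_
    unfold E
    rw [← mul_assoc, mul_comm (Real.exp _) (c a), mul_assoc]
    rfl
  rw [h2] at h1
  refine h1.trans ?_
  have h3 : Z c (fun l => Real.exp (∑ j ∈ Finset.range l.length, hdAQ g Y (l.rotate j))) ≤
      Z c (fun l => trace ((1 : Matrix (V → K) (V → K) ℝ) * (l.map (letQ g Y)).prod)) := by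
    refine Z_mono_gro hc (C := 1) (R := Real.exp B)
      (C' := ∑ _η : V → K, (1 : ℝ)) (R' := Real.exp B) ?_ ?_ ?_
    · intro l
      rw [abs_of_pos (Real.exp_pos _), one_mul, ← Real.exp_nat_mul, mul_comm (l.length : ℝ)]
      exact Real.exp_le_exp.mpr ((le_abs_self _).trans (hrot l))
    · intro l
      rw [one_mul, trace_letQ]
      refine (Finset.abs_sum_le_sum_abs _ _).trans ?_
      rw [Finset.sum_mul]
      refine Finset.sum_le_sum fun η _ => ?_
      rw [one_mul, ← Real.exp_nat_mul, mul_comm (l.length : ℝ)]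
      split_ifs
      · rw [abs_of_pos (Real.exp_pos _)]
        exact Real.exp_le_exp.mpr ((le_abs_self _).trans (abs_totQ_le g hY l η))
      · rw [abs_zero]
        exact (Real.exp_pos _).le
    · intro l
      rw [one_mul, trace_letQ, ← avgQ_totQ]
      exact exp_avgQ_le _ _
  refine (mul_le_mul_of_nonneg_left h3 (Real.exp_pos _).le).trans (le_of_eq ?_)
  rw [Z_trace]
  have h4 : ∑ a, c a • (letQ g Y a - 1) =
      (∑ a, c a • letQ g Y a) + (-(∑ a, c a)) • (1 : Matrix (V → K) (V → K) ℝ) := by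
    simp only [smul_sub, Finset.sum_sub_distrib, ← Finset.sum_smul]
    rw [neg_smul, sub_eq_add_neg]
  rw [h4, exp_add_smul_one', trace_smul, smul_eq_mul, one_mul]

/-- Jensen's inequality with a potential. -/
theorem pot_leQ {c : α → ℝ} (hc : ∀ a, 0 ≤ c a) (g : α → Equiv.Perm V)
    (U : (V → K) → ℝ) :
    Real.exp (E c g (avgQ U)) ≤
      trace (NormedSpace.exp (genA K c g + diagonal U)) := by
  set S : Matrix (V → K) (V → K) ℝ := genA K c g with hS
  have h1 : ∀ κ : ℝ, 0 < κ → Real.exp (E c g (avgQ U)) ≤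
      trace (NormedSpace.exp (S + diagonal (fun η => κ⁻¹ * (Real.exp (κ * U η) - 1)))) := by
    intro κ hκ
    have hc' : ∀ a : α ⊕ Unit, 0 ≤ Sum.elim c (fun _ : Unit => κ⁻¹) a := by
      rintro (a | a)
      · exact hc a
      · exact (inv_pos.mpr hκ).le
    have hj := word_jensenQ (K := K) hc' (Sum.elim g (fun _ => 1))
      (Sum.elim (fun _ _ => 0) (fun _ η => κ * U η))
    rw [Fintype.sum_sum_type, Fintype.sum_sum_type] at hj
    simp only [Sum.elim_inl, Sum.elim_inr, Finset.univ_unique, Finset.sum_singleton, one_mul] at hj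
    have e1 : ∀ a, c a * E (Sum.elim c (fun _ : Unit => κ⁻¹)) (Sum.elim g (fun _ => 1))
        (fun σ => avgQ (fun _ : V → K => 0) (g a * σ)) = 0 := by
      intro a
      simp only [avgQ_const]
      rw [E_const, mul_zero]
    have e2 : κ⁻¹ * E (Sum.elim c (fun _ : Unit => κ⁻¹)) (Sum.elim g (fun _ => 1))
        (fun σ => avgQ (fun η => κ * U η) σ) = E c g (avgQ U) := by
      simp only [avgQ_smul]
      rw [E_ghost, E_smul, ← mul_assoc, inv_mul_cancel₀ hκ.ne', one_mul]
    rw [Finset.sum_congr rfl fun a _ => e1 a, Finset.sum_const_zero, zero_add, e2] at hj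
    have e3 : ∑ a, c a • (letQ (Sum.elim g (fun _ : Unit => 1))
        (Sum.elim (fun _ _ => 0) (fun _ η => κ * U η)) (Sum.inl a) - 1) = S := by
      rw [hS, genA]
      refine Finset.sum_congr rfl fun a _ => ?_
      unfold letQ
      simp only [Sum.elim_inl, Real.exp_zero, diagonal_one, one_mul]
    have e4 : κ⁻¹ • (letQ (Sum.elim g (fun _ : Unit => 1))
        (Sum.elim (fun _ _ => 0) (fun _ η => κ * U η)) (Sum.inr default) - 1) =
        diagonal (fun η : V → K => κ⁻¹ * (Real.exp (κ * U η) - 1)) := by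
      unfold letQ
      simp only [Sum.elim_inr, map_one, mul_one]
      ext η ζ
      simp only [Matrix.smul_apply, Matrix.sub_apply, diagonal_apply, Matrix.one_apply,
        smul_eq_mul]
      split_ifs <;> simp
    rw [e3, e4] at hj
    exact hj
  letI : NormedRing (Matrix (V → K) (V → K) ℝ) := Matrix.linftyOpNormedRing
  letI : NormedAlgebra ℝ (Matrix (V → K) (V → K) ℝ) := Matrix.linftyOpNormedAlgebra
  letI : NormedAlgebra ℚ (Matrix (V → K) (V → K) ℝ) :=
    NormedAlgebra.restrictScalars ℚ ℝ (Matrix (V → K) (V → K) ℝ)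
  have hcont : Continuous fun D : (V → K) → ℝ => trace (NormedSpace.exp (S + diagonal D)) := by
    have h2 : Continuous fun M : Matrix (V → K) (V → K) ℝ => trace M :=
      (LinearMap.toContinuousLinearMap (Matrix.traceLinearMap (V → K) ℝ ℝ)).continuous
    have h3 : Continuous fun M : Matrix (V → K) (V → K) ℝ => NormedSpace.exp M :=
      NormedSpace.exp_continuous
    have h4 : Continuous fun D : (V → K) → ℝ =>
        (diagonal D : Matrix (V → K) (V → K) ℝ) :=
      (LinearMap.toContinuousLinearMap (Matrix.diagonalLinearMap (V → K) ℝ ℝ)).continuous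
    exact h2.comp (h3.comp (continuous_const.add h4))
  have hlim : Tendsto (fun κ : ℝ => fun η : V → K => κ⁻¹ * (Real.exp (κ * U η) - 1))
      (𝓝[>] 0) (𝓝 U) := by
    rw [tendsto_pi_nhds]
    intro η
    have h5 : HasDerivAt (fun κ : ℝ => Real.exp (κ * U η)) (U η) 0 := by
      have := ((hasDerivAt_id (0 : ℝ)).mul_const (U η)).exp
      simpa using this
    rw [hasDerivAt_iff_tendsto_slope_zero] at h5
    have h6 : Tendsto (fun t : ℝ => t⁻¹ • (Real.exp ((0 + t) * U η) - Real.exp (0 * U η)))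
        (𝓝[>] 0) (𝓝 (U η)) :=
      h5.mono_left (nhdsWithin_mono 0 (fun x (hx : (0 : ℝ) < x) => hx.ne'))
    simpa using h6
  have h7 := (hcont.tendsto U).comp hlim
  refine ge_of_tendsto h7 ?_
  filter_upwards [self_mem_nhdsWithin] with κ hκ
  exact h1 κ hκ

end Word

section Ring

variable {V : Type*} [Fintype V] [DecidableEq V] {K : Type*} [Fintype K] [DecidableEq K]

theorem quad_diagQ (f v : (V → K) → ℝ) :
    f ⬝ᵥ (diagonal v).mulVec f = ∑ η, v η * f η ^ 2 := by
  unfold dotProduct
  refine Finset.sum_congr rfl fun η _ => ?_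
  rw [mulVec_diagonal]; ring

theorem quad_letQ (f u : (V → K) → ℝ) {g : Equiv.Perm V}
    (hu : ∀ η, u (colHom V K g η) = u η) :
    f ⬝ᵥ (diagonal u * rhoQ V K g).mulVec f =
      ∑ η, u η * f η ^ 2 - (∑ η, u η * (f η - f (colHom V K g η)) ^ 2) / 2 := by
  have h1 : f ⬝ᵥ (diagonal u * rhoQ V K g).mulVec f =
      ∑ η, u η * (f (colHom V K g η) * f η) := by
    have e1 : f ⬝ᵥ (diagonal u * rhoQ V K g).mulVec f =
        ∑ η : V → K, f η * (u η * f (fun x => η (g x))) := by
      unfold dotProduct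
      refine Finset.sum_congr rfl fun η _ => ?_
      rw [← Matrix.mulVec_mulVec, Matrix.mulVec_diagonal, rhoQ_mulVec]
    rw [e1, ← Equiv.sum_comp (colHom V K g)]
    refine Finset.sum_congr rfl fun η _ => ?_
    have e2 : (fun x => colHom V K g η (g x)) = η := by
      funext x
      rw [colHom_apply, Equiv.symm_apply_apply]
    rw [e2, hu]; ring
  have h3 : ∑ η : V → K, u η * f η ^ 2 = ∑ η : V → K, u η * f (colHom V K g η) ^ 2 := by
    rw [← Equiv.sum_comp (colHom V K g) fun η => u η * f η ^ 2]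
    exact Finset.sum_congr rfl fun η _ => by rw [hu]
  have h4 : ∑ η : V → K, u η * (f η - f (colHom V K g η)) ^ 2 =
      2 * ∑ η, u η * f η ^ 2 - 2 * ∑ η, u η * (f (colHom V K g η) * f η) := by
    have : ∀ η : V → K, u η * (f η - f (colHom V K g η)) ^ 2 =
        u η * f η ^ 2 + u η * f (colHom V K g η) ^ 2 -
          2 * (u η * (f (colHom V K g η) * f η)) := fun η => by ring
    rw [Finset.sum_congr rfl fun η _ => this η, Finset.sum_sub_distrib, Finset.sum_add_distrib,
      ← h3, ← Finset.mul_sum]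
    ring
  rw [h1, h4]
  ring

theorem isSymm_letQ {u : (V → K) → ℝ} {g : Equiv.Perm V} (hg : g * g = 1)
    (hu : ∀ η, u (colHom V K g η) = u η) : (diagonal u * rhoQ V K g).IsSymm := by
  rw [Matrix.IsSymm, Matrix.transpose_mul, (rhoQ_isSymm hg).eq, diagonal_transpose]
  ext η ζ
  rw [Matrix.mul_diagonal, Matrix.diagonal_mul, rhoQ_apply]
  by_cases h1 : η = colHom V K g ζ
  · rw [if_pos h1, h1, hu]; ring
  · rw [if_neg h1]; ring

variable {α : Type*} [Fintype α]

/-- The generator with ring weights is dominated by half of the generator. -/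
theorem ring_trace_leQ {t ε : ℝ} (ht : 0 ≤ t) (hε : 0 ≤ ε) (hε1 : ε ≤ 1 / 2)
    {g : α → Equiv.Perm V} (hg : ∀ a, g a * g a = 1) {b : α → (V → K) → ℝ}
    (hb : ∀ a η, b a (colHom V K (g a) η) = b a η) (hb1 : ∀ a η, |b a η| ≤ 1) :
    trace (NormedSpace.exp (∑ a, t • (diagonal (fun η => 1 + ε * b a η) * rhoQ V K (g a) - 1) +
      ∑ a, t • (diagonal (fun η => 1 - ε * b a η) - 1))) ≤
    trace (NormedSpace.exp (genA K (fun _ : α => t / 2) g)) := by
  refine trace_exp_mono ?_ (genA_isSymm _ g hg) fun f => ?_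
  · rw [Matrix.IsSymm, Matrix.transpose_add, Matrix.transpose_sum, Matrix.transpose_sum]
    congr 1
    · refine Finset.sum_congr rfl fun a _ => ?_
      rw [Matrix.transpose_smul, Matrix.transpose_sub, Matrix.transpose_one,
        (isSymm_letQ (hg a) (fun η => by rw [hb a η])).eq]
    · refine Finset.sum_congr rfl fun a _ => ?_
      rw [Matrix.transpose_smul, Matrix.transpose_sub, Matrix.transpose_one, diagonal_transpose]
  rw [quad_genA, Matrix.add_mulVec, dotProduct_add, Matrix.sum_mulVec,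
    Matrix.sum_mulVec, dotProduct_sum, dotProduct_sum, ← Finset.sum_add_distrib,
    ← Finset.sum_neg_distrib, Finset.sum_div]
  refine Finset.sum_le_sum fun a _ => ?_
  rw [Matrix.smul_mulVec, Matrix.smul_mulVec, dotProduct_smul, dotProduct_smul, smul_eq_mul,
    smul_eq_mul, Matrix.sub_mulVec, Matrix.sub_mulVec, dotProduct_sub, dotProduct_sub,
    Matrix.one_mulVec, quad_letQ f _ (fun η => by rw [hb a η]), quad_diagQ, lenQ_sq]
  have h1 : f ⬝ᵥ f = ∑ η, f η ^ 2 := by
    unfold dotProduct
    exact Finset.sum_congr rfl fun η _ => by ring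
  have h2 : ∑ η, (1 + ε * b a η) * f η ^ 2 + ∑ η, (1 - ε * b a η) * f η ^ 2 =
      2 * ∑ η, f η ^ 2 := by
    rw [← Finset.sum_add_distrib, Finset.mul_sum]
    exact Finset.sum_congr rfl fun η _ => by ring
  have h3 : (1 / 2 : ℝ) * ∑ η, (f η - f (colHom V K (g a) η)) ^ 2 ≤
      ∑ η, (1 + ε * b a η) * (f η - f (colHom V K (g a) η)) ^ 2 := by
    rw [Finset.mul_sum]
    refine Finset.sum_le_sum fun η _ => mul_le_mul_of_nonneg_right ?_ (sq_nonneg _)
    have h4 := (abs_le.mp (hb1 a η)).1
    nlinarith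
  rw [h1]
  nlinarith

variable [Nonempty K]

/-- Rings are almost symmetric. -/
theorem ring_leQ {t ε : ℝ} (ht : 0 ≤ t) (hε : 0 ≤ ε) (hε1 : ε ≤ 1 / 2)
    {g : α → Equiv.Perm V} (hg : ∀ a, g a * g a = 1) {b : α → (V → K) → ℝ}
    (hb : ∀ a η, b a (colHom V K (g a) η) = b a η) (hb1 : ∀ a η, |b a η| ≤ 1) :
    ε * t * ∑ a, (E (fun _ => t) g (fun σ => avgQ (b a) (g a * σ)) -
        E (fun _ => t) g (fun σ => avgQ (b a) σ)) ≤
      4 * ε ^ 2 * t * Fintype.card α + Real.log (E (fun _ : α => t / 2) g (fixQ K)) := by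
  have hab : ∀ a η, |ε * b a η| ≤ 1 / 2 := by
    intro a η
    rw [abs_mul, abs_of_nonneg hε]
    have := hb1 a η
    have := abs_nonneg (b a η)
    nlinarith
  have hpos1 : ∀ a η, 0 < 1 + ε * b a η := fun a η => by
    have := (abs_le.mp (hab a η)).1; linarith
  have hpos2 : ∀ a η, 0 < 1 - ε * b a η := fun a η => by
    have := (abs_le.mp (hab a η)).2; linarith
  set Y : α ⊕ α → (V → K) → ℝ := Sum.elim (fun a η => Real.log (1 + ε * b a η))
    (fun a η => Real.log (1 - ε * b a η)) with hY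
  have hj := word_jensenQ (c := Sum.elim (fun _ : α => t) (fun _ : α => t))
    (by rintro (a | a) <;> exact ht) (Sum.elim g (fun _ => 1)) Y
  rw [Fintype.sum_sum_type, Fintype.sum_sum_type] at hj
  simp only [Sum.elim_inl, Sum.elim_inr, one_mul, hY] at hj
  have e3 : ∀ a, letQ (Sum.elim g (fun _ : α => 1)) (Sum.elim
      (fun a η => Real.log (1 + ε * b a η)) (fun a η => Real.log (1 - ε * b a η))) (Sum.inl a) =
      diagonal (fun η => 1 + ε * b a η) * rhoQ V K (g a) := by
    intro a
    unfold letQ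
    simp only [Sum.elim_inl]
    congr 2
    funext η
    rw [Real.exp_log (hpos1 a η)]
  have e4 : ∀ a, letQ (Sum.elim g (fun _ : α => 1)) (Sum.elim
      (fun a η => Real.log (1 + ε * b a η)) (fun a η => Real.log (1 - ε * b a η))) (Sum.inr a) =
      diagonal (fun η => 1 - ε * b a η) := by
    intro a
    unfold letQ
    simp only [Sum.elim_inr, map_one, mul_one]
    congr 1
    funext η
    rw [Real.exp_log (hpos2 a η)]
  simp only [e3, e4] at hj
  have h2 := hj.trans (ring_trace_leQ ht hε hε1 hg hb hb1)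
  rw [← E_fixQ] at h2
  have h3 := Real.log_le_log (Real.exp_pos _) h2
  rw [Real.log_exp] at h3
  refine le_trans ?_ (le_trans (add_le_add_right h3 (4 * ε ^ 2 * t * Fintype.card α)) (le_of_eq ?_))
  swap
  · rfl
  have hterm1 : ∀ a, ε * E (fun _ => t) g (fun σ => avgQ (b a) (g a * σ)) - 2 * ε ^ 2 ≤
      E (Sum.elim (fun _ : α => t) (fun _ : α => t)) (Sum.elim g (fun _ => 1))
        (fun σ => avgQ (fun η => Real.log (1 + ε * b a η)) (g a * σ)) := by
    intro a
    rw [E_ghost]
    have h5 := E_mono (c := fun _ : α => t) (fun _ => ht) g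
      (f := fun σ => ε * avgQ (b a) (g a * σ) + (-(2 * ε ^ 2)))
      (h := fun σ => avgQ (fun η => Real.log (1 + ε * b a η)) (g a * σ)) (fun σ => by
        have h6 := avgQ_mono (X := fun η => ε * b a η + (-(2 * ε ^ 2)))
          (Y := fun η => Real.log (1 + ε * b a η)) (fun η => by
            have h7 := log_one_add_ge (hab a η)
            have h8 : (b a η) ^ 2 ≤ 1 := by
              rw [← sq_abs]
              exact pow_le_one₀ (abs_nonneg _) (hb1 a η)
            have h9 : 2 * (ε * b a η) ^ 2 ≤ 2 * ε ^ 2 := by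
              rw [mul_pow]
              nlinarith [sq_nonneg ε]
            linarith) (g a * σ)
        rw [avgQ_add (fun η => ε * b a η) (fun _ => -(2 * ε ^ 2)), avgQ_smul, avgQ_const] at h6
        exact h6)
    rw [E_add, E_smul, E_const] at h5
    linarith
  have hterm2 : ∀ a, -(ε * E (fun _ => t) g (fun σ => avgQ (b a) σ)) - 2 * ε ^ 2 ≤
      E (Sum.elim (fun _ : α => t) (fun _ : α => t)) (Sum.elim g (fun _ => 1))
        (fun σ => avgQ (fun η => Real.log (1 - ε * b a η)) σ) := by
    intro a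
    rw [E_ghost]
    have h5 := E_mono (c := fun _ : α => t) (fun _ => ht) g
      (f := fun σ => (-ε) * avgQ (b a) σ + (-(2 * ε ^ 2)))
      (h := fun σ => avgQ (fun η => Real.log (1 - ε * b a η)) σ) (fun σ => by
        have h6 := avgQ_mono (X := fun η => (-ε) * b a η + (-(2 * ε ^ 2)))
          (Y := fun η => Real.log (1 - ε * b a η)) (fun η => by
            have h7 := log_one_add_ge (x := -(ε * b a η)) (by rw [abs_neg]; exact hab a η)
            have h8 : (b a η) ^ 2 ≤ 1 := by
              rw [← sq_abs]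
              exact pow_le_one₀ (abs_nonneg _) (hb1 a η)
            have h9 : 2 * (-(ε * b a η)) ^ 2 ≤ 2 * ε ^ 2 := by
              rw [neg_sq, mul_pow]
              nlinarith [sq_nonneg ε]
            rw [← sub_eq_add_neg] at h7
            linarith) σ
        rw [avgQ_add (fun η => (-ε) * b a η) (fun _ => -(2 * ε ^ 2)), avgQ_smul,
          avgQ_const] at h6
        exact h6)
    rw [E_add, E_smul, E_const] at h5
    linarith
  have h10 := Finset.sum_le_sum fun a (_ : a ∈ (Finset.univ : Finset α)) =>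
    mul_le_mul_of_nonneg_left (add_le_add (hterm1 a) (hterm2 a)) ht
  have h11 : ∑ a : α, t * (ε * E (fun _ => t) g (fun σ => avgQ (b a) (g a * σ)) - 2 * ε ^ 2 +
      (-(ε * E (fun _ => t) g (fun σ => avgQ (b a) σ)) - 2 * ε ^ 2)) =
      ε * t * ∑ a, (E (fun _ => t) g (fun σ => avgQ (b a) (g a * σ)) -
        E (fun _ => t) g (fun σ => avgQ (b a) σ)) - 4 * ε ^ 2 * t * Fintype.card α := by
    have : ∀ a : α, t * (ε * E (fun _ => t) g (fun σ => avgQ (b a) (g a * σ)) - 2 * ε ^ 2 +
      (-(ε * E (fun _ => t) g (fun σ => avgQ (b a) σ)) - 2 * ε ^ 2)) =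
      ε * t * (E (fun _ => t) g (fun σ => avgQ (b a) (g a * σ)) -
        E (fun _ => t) g (fun σ => avgQ (b a) σ)) - 4 * ε ^ 2 * t := fun a => by ring
    rw [Finset.sum_congr rfl fun a _ => this a, Finset.sum_sub_distrib, ← Finset.mul_sum,
      Finset.sum_const, Finset.card_univ, nsmul_eq_mul]
    ring
  rw [h11] at h10
  simp only [mul_add] at h10
  rw [Finset.sum_add_distrib] at h10
  linarith

end Ring

end Pool.Agent.Stirring
end

section

/-! Ring symmetry and flatness of functions of several marked points. -/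

open Finset Matrix

set_option linter.unusedSectionVars false

namespace Pool.Agent.Stirring

section Quad

variable {V : Type*} [Fintype V] [DecidableEq V] {K : Type*} [Fintype K] [DecidableEq K]

/-- A potential which changes sign under an involution is dominated by its Dirichlet form. -/
theorem quad_diag_leQ (D f : (V → K) → ℝ) {g : Equiv.Perm V}
    (hD : ∀ η : V → K, D (colHom V K g η) = -D η) (hD1 : ∀ η, |D η| ≤ 1) {a : ℝ} (ha : 0 < a) :
    ∑ η, D η * f η ^ 2 ≤ a / 2 * lenQ f g ^ 2 + 1 / (2 * a) * ∑ η, f η ^ 2 := by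
  have hre : ∀ F : (V → K) → ℝ, ∑ η : V → K, F (colHom V K g η) = ∑ η, F η := fun F =>
    Equiv.sum_comp (colHom V K g) F
  have h1 : ∑ η, D η * f η ^ 2 =
      1 / 2 * ∑ η : V → K, D η * (f η ^ 2 - f (colHom V K g η) ^ 2) := by
    have h2 : ∑ η, D η * f η ^ 2 = -∑ η : V → K, D η * f (colHom V K g η) ^ 2 := by
      rw [← hre (fun η => D η * f η ^ 2), ← Finset.sum_neg_distrib]
      refine Finset.sum_congr rfl fun η _ => ?_
      rw [hD]; ring
    have h3 : ∑ η : V → K, D η * (f η ^ 2 - f (colHom V K g η) ^ 2) =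
        ∑ η, D η * f η ^ 2 - ∑ η : V → K, D η * f (colHom V K g η) ^ 2 := by
      rw [← Finset.sum_sub_distrib]
      exact Finset.sum_congr rfl fun η _ => by ring
    rw [h3]; linarith
  have h4 : ∀ η : V → K, D η * (f η ^ 2 - f (colHom V K g η) ^ 2) ≤
      a * (f η - f (colHom V K g η)) ^ 2 +
        1 / (2 * a) * (f η ^ 2 + f (colHom V K g η) ^ 2) := by
    intro η
    set u := f η
    set v := f (colHom V K g η)
    have h5 : D η * (u ^ 2 - v ^ 2) ≤ |u - v| * |u + v| := by
      calc D η * (u ^ 2 - v ^ 2) ≤ |D η * (u ^ 2 - v ^ 2)| := le_abs_self _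
        _ = |D η| * |(u - v) * (u + v)| := by rw [abs_mul]; congr 2; ring
        _ ≤ 1 * |(u - v) * (u + v)| := mul_le_mul_of_nonneg_right (hD1 η) (abs_nonneg _)
        _ = |u - v| * |u + v| := by rw [one_mul, abs_mul]
    have h6 : |u - v| * |u + v| ≤ a * (u - v) ^ 2 + 1 / (4 * a) * (u + v) ^ 2 := by
      have h7 : 0 ≤ (1 / (4 * a)) * (2 * a * |u - v| - |u + v|) ^ 2 := by positivity
      have h8 : (1 / (4 * a)) * (2 * a * |u - v| - |u + v|) ^ 2 =
          a * |u - v| ^ 2 + 1 / (4 * a) * |u + v| ^ 2 - |u - v| * |u + v| := by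
        field_simp; ring
      rw [h8, sq_abs, sq_abs] at h7
      linarith
    have h9 : 1 / (4 * a) * (u + v) ^ 2 ≤ 1 / (2 * a) * (u ^ 2 + v ^ 2) := by
      have h10 : 1 / (2 * a) * (u ^ 2 + v ^ 2) = 1 / (4 * a) * (2 * (u ^ 2 + v ^ 2)) := by
        field_simp; ring
      rw [h10]
      refine mul_le_mul_of_nonneg_left ?_ (by positivity)
      nlinarith [sq_nonneg (u - v)]
    linarith
  have h11 := Finset.sum_le_sum fun η (_ : η ∈ Finset.univ) => h4 η
  rw [Finset.sum_add_distrib, ← Finset.mul_sum, ← Finset.mul_sum, Finset.sum_add_distrib,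
    hre (fun η => f η ^ 2), ← lenQ_sq] at h11
  rw [h1]
  have h12 : 1 / 2 * (a * lenQ f g ^ 2 + 1 / (2 * a) * (∑ η, f η ^ 2 + ∑ η, f η ^ 2)) =
      a / 2 * lenQ f g ^ 2 + 1 / (2 * a) * ∑ η, f η ^ 2 := by ring
  linarith

end Quad

variable {d L : ℕ} [NeZero L] {K : Type*} [Fintype K] [DecidableEq K]

/-- The trace with a potential. -/
theorem trace_pot_leQ {t : ℝ} (ht : 0 < t) {γ : ℝ} (hγ : 0 < γ) {z w : Fin d → ZMod L}
    (D : (Fin d → ZMod L) → ((Fin d → ZMod L) → K) → ℝ)
    (hD : ∀ x η, D x (colHom _ K (Equiv.swap (x + z) (x + w)) η) = -D x η)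
    (hD1 : ∀ x η, |D x η| ≤ 1) (k : Fin d → ℤ) (hk : w = z + red d L k)
    (hK : 0 < ∑ i, |(k i : ℝ)|) :
    trace (NormedSpace.exp (genA K (fun _ : (Fin d → ZMod L) × Fin d => t) (edgeSwap d L) +
      diagonal (fun η => γ * ∑ x, D x η))) ≤
    Real.exp (4 * γ ^ 2 * (∑ i, |(k i : ℝ)|) ^ 2 * (L : ℝ) ^ d / t) *
      expect d L (t / 2) (fixQ K) := by
  set Kk := ∑ i, |(k i : ℝ)| with hKdef
  set κ := 4 * γ ^ 2 * Kk ^ 2 * (L : ℝ) ^ d / t with hκ
  rw [expect_eq, E_fixQ, ← trace_exp_add_smul_one]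
  have hsym : ∀ s : ℝ, (genA K (fun _ : (Fin d → ZMod L) × Fin d => s) (edgeSwap d L)).IsSymm :=
    fun s => genA_isSymm _ _ edgeSwap_mul_self
  refine trace_exp_mono ?_ ?_ fun f => ?_
  · rw [Matrix.IsSymm, Matrix.transpose_add, (hsym t).eq, diagonal_transpose]
  · rw [Matrix.IsSymm, Matrix.transpose_add, (hsym (t / 2)).eq, Matrix.transpose_smul,
      Matrix.transpose_one]
  rw [Matrix.add_mulVec, dotProduct_add, Matrix.add_mulVec, dotProduct_add, quad_genA, quad_genA,
    quad_diagQ]
  have h3 : f ⬝ᵥ (κ • (1 : Matrix ((Fin d → ZMod L) → K) ((Fin d → ZMod L) → K) ℝ)).mulVec f =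
      κ * ∑ η, f η ^ 2 := by
    rw [Matrix.smul_mulVec, Matrix.one_mulVec, dotProduct_smul, smul_eq_mul]
    congr 1
    unfold dotProduct
    exact Finset.sum_congr rfl fun A _ => by ring
  rw [h3]
  set a : ℝ := t / (8 * γ * Kk ^ 2) with ha
  have hapos : 0 < a := by positivity
  set S := ∑ e, lenQ f (edgeSwap d L e) ^ 2 with hS
  have h4 : ∑ η, (γ * ∑ x, D x η) * f η ^ 2 ≤
      γ * (a / 2 * (4 * Kk ^ 2 * S) + (L : ℝ) ^ d * (1 / (2 * a) * ∑ η, f η ^ 2)) := by
    have h5 : ∑ η, (γ * ∑ x, D x η) * f η ^ 2 = γ * ∑ x, ∑ η, D x η * f η ^ 2 := by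
      rw [Finset.sum_comm, Finset.mul_sum]
      refine Finset.sum_congr rfl fun η _ => ?_
      rw [mul_assoc, Finset.sum_mul]
    rw [h5]
    refine mul_le_mul_of_nonneg_left ?_ hγ.le
    have h6 := Finset.sum_le_sum fun x (_ : x ∈ (Finset.univ : Finset (Fin d → ZMod L))) =>
      quad_diag_leQ (D x) f (hD x) (hD1 x) hapos
    rw [Finset.sum_add_distrib, ← Finset.mul_sum] at h6
    simp only [Finset.sum_const, Finset.card_univ, card_torus, nsmul_eq_mul] at h6
    push_cast at h6
    refine h6.trans (add_le_add_left (mul_le_mul_of_nonneg_left ?_ (by positivity)) _)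
    exact sum_swap_sq_le (isLen_lenQ f) z w k hk
  have h7 : γ * (a / 2 * (4 * Kk ^ 2 * S)) = t / 4 * S := by
    rw [ha]; field_simp; ring
  have h8 : γ * ((L : ℝ) ^ d * (1 / (2 * a) * ∑ η, f η ^ 2)) = κ * ∑ η, f η ^ 2 := by
    rw [ha, hκ]; field_simp; ring
  have h9 : ∀ s : ℝ, ∑ e : (Fin d → ZMod L) × Fin d, s * lenQ f (edgeSwap d L e) ^ 2 = s * S := by
    intro s; rw [hS, Finset.mul_sum]
  rw [h9, h9]
  rw [mul_add, h7, h8] at h4
  linarith

/-- Optimization of the free parameter. -/
theorem opt_gammaQ (hd : 1 ≤ d) (hL : 2 ≤ L) {t : ℝ} (ht : 1 ≤ t) {Kk Δ A : ℝ} (hA : 0 ≤ A)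
    (hK1 : 1 ≤ Kk) (hΔ1 : Δ ≤ 1)
    (h : 2 ≤ t → ∀ γ : ℝ, 0 < γ → γ / 2 * (L : ℝ) ^ d * Δ ≤
      4 * γ ^ 2 * Kk ^ 2 * (L : ℝ) ^ d / t + A * bet d L t * (L : ℝ) ^ d) :
    Δ ≤ (2 * (4 + A) + 2 ^ (d + 1)) * Kk * Real.sqrt (bet d L t / t) := by
  have ht0 : 0 < t := by linarith
  have hb := bet_pos (d := d) hL ht0
  have hLpos : (0 : ℝ) < L := by exact_mod_cast (by omega : 0 < L)
  have hLd : 0 < (L : ℝ) ^ d := by positivity
  set β := bet d L t with hβ
  have hKpos : 0 < Kk := by linarith
  have hs0 := Real.sqrt_nonneg (β / t)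
  by_cases ht2 : t < 2
  · have h1 := sqrt_bet_ge (d := d) hL ht ht2
    rw [← hβ] at h1
    refine hΔ1.trans ?_
    have h2 : 1 ≤ 2 ^ (d + 1) * Real.sqrt (β / t) := by
      rw [div_le_iff₀ (by positivity)] at h1
      linarith
    have h3 : 2 ^ (d + 1) * Real.sqrt (β / t) ≤
        (2 * (4 + A) + 2 ^ (d + 1)) * Kk * Real.sqrt (β / t) := by
      refine mul_le_mul_of_nonneg_right ?_ hs0
      have h4 : (0 : ℝ) ≤ 2 ^ (d + 1) := by positivity
      nlinarith
    linarith
  · push Not at ht2
    set γ := Real.sqrt (t * β) / Kk with hγ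
    have hsq : 0 < Real.sqrt (t * β) := Real.sqrt_pos.mpr (by positivity)
    have hγpos : 0 < γ := by positivity
    have h1 := h ht2 γ hγpos
    have h3 : 4 * γ ^ 2 * Kk ^ 2 * (L : ℝ) ^ d / t = 4 * β * (L : ℝ) ^ d := by
      rw [hγ, div_pow, Real.sq_sqrt (by positivity)]; field_simp
    rw [h3] at h1
    have h4 : γ / 2 * Δ ≤ (4 + A) * β := by
      have h5 : γ / 2 * Δ * (L : ℝ) ^ d ≤ (4 + A) * β * (L : ℝ) ^ d := by nlinarith
      exact le_of_mul_le_mul_right h5 hLd
    have h5 : Δ ≤ 2 * (4 + A) * (β / γ) := by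
      rw [← mul_div_assoc, le_div_iff₀ hγpos]
      linarith
    have h6 : β / γ = Kk * Real.sqrt (β / t) := by
      have h7 : Real.sqrt (β / t) = Real.sqrt (t * β) / t := by
        rw [show β / t = (t * β) / t ^ 2 by field_simp, Real.sqrt_div (by positivity),
          Real.sqrt_sq ht0.le]
      have hs2 : Real.sqrt (t * β) * Real.sqrt (t * β) = t * β :=
        Real.mul_self_sqrt (by positivity)
      rw [h7, hγ, div_div_eq_mul_div, mul_div_assoc', div_eq_div_iff hsq.ne' ht0.ne']
      linear_combination (-Kk) * hs2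
    rw [h6] at h5
    calc Δ ≤ 2 * (4 + A) * (Kk * Real.sqrt (β / t)) := h5
      _ ≤ (2 * (4 + A) + 2 ^ (d + 1)) * (Kk * Real.sqrt (β / t)) := by
          refine mul_le_mul_of_nonneg_right ?_ (by positivity)
          have h4 : (0 : ℝ) ≤ 2 ^ (d + 1) := by positivity
          linarith
      _ = _ := by ring

variable {ι : Type*} [DecidableEq ι]

/-- A natural function of a colouring and marked points. -/
structure NatFun {V : Type*} (K : Type*) {ι : Type*} (b : (V → K) → (ι → V) → ℝ) : Prop where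
  map : ∀ (π : Equiv.Perm V) (η : V → K) (z : ι → V),
    b (colHom V K π η) (fun i => π (z i)) = b η z
  le : ∀ (η : V → K) (z : ι → V), |b η z| ≤ 1

/-- Ring symmetry and flatness of the expectation of a function of marked points. -/
structure RK (d L : ℕ) [NeZero L] (t c : ℝ)
    (F : Equiv.Perm (Fin d → ZMod L) → (ι → (Fin d → ZMod L)) → ℝ) : Prop where
  ring : ∀ (z : ι → (Fin d → ZMod L)) (i j : ι) (m : Fin d), Function.Injective z → i ≠ j →
    z j = z i + Pi.single m 1 →
    |expect d L t (fun σ => F (Equiv.swap (z i) (z j) * σ) z +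
        F (Equiv.swap (z i) (z j) * σ) (z ∘ Equiv.swap i j)) -
      expect d L t (fun σ => F σ z + F σ (z ∘ Equiv.swap i j))| ≤ c * Real.sqrt (bet d L t / t)
  flat : ∀ (z : ι → (Fin d → ZMod L)) (x : Fin d → ZMod L) (k : Fin d → ℤ),
    |expect d L t (fun σ => F σ z) -
      expect d L t (fun σ => F σ (fun i => Equiv.swap x (x + red d L k) (z i)))| ≤
      c * (∑ i, |(k i : ℝ)|) * Real.sqrt (bet d L t / t)

theorem RK.add {t c c' : ℝ}
    {F G : Equiv.Perm (Fin d → ZMod L) → (ι → (Fin d → ZMod L)) → ℝ}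
    (hF : RK d L t c F) (hG : RK d L t c' G) :
    RK d L t (c + c') (fun σ z => F σ z + G σ z) where
  ring z i j m hz hij hj := by
    have e1 : expect d L t (fun σ => F (Equiv.swap (z i) (z j) * σ) z +
        G (Equiv.swap (z i) (z j) * σ) z + (F (Equiv.swap (z i) (z j) * σ) (z ∘ Equiv.swap i j) +
        G (Equiv.swap (z i) (z j) * σ) (z ∘ Equiv.swap i j))) =
        expect d L t (fun σ => F (Equiv.swap (z i) (z j) * σ) z +
          F (Equiv.swap (z i) (z j) * σ) (z ∘ Equiv.swap i j)) +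
        expect d L t (fun σ => G (Equiv.swap (z i) (z j) * σ) z +
          G (Equiv.swap (z i) (z j) * σ) (z ∘ Equiv.swap i j)) := by
      rw [← expect_add]
      congr 1; funext σ; ring
    have e2 : expect d L t (fun σ => F σ z + G σ z + (F σ (z ∘ Equiv.swap i j) +
        G σ (z ∘ Equiv.swap i j))) =
        expect d L t (fun σ => F σ z + F σ (z ∘ Equiv.swap i j)) +
        expect d L t (fun σ => G σ z + G σ (z ∘ Equiv.swap i j)) := by
      rw [← expect_add]
      congr 1; funext σ; ring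
    rw [e1, e2]
    have h1 := hF.ring z i j m hz hij hj
    have h2 := hG.ring z i j m hz hij hj
    rw [abs_le] at *
    constructor <;> linarith
  flat z x k := by
    rw [expect_add, expect_add]
    have h1 := hF.flat z x k
    have h2 := hG.flat z x k
    rw [abs_le] at *
    constructor <;> linarith

theorem RK.smul {t c : ℝ} (r : ℝ)
    {F : Equiv.Perm (Fin d → ZMod L) → (ι → (Fin d → ZMod L)) → ℝ}
    (hF : RK d L t c F) : RK d L t (|r| * c) (fun σ z => r * F σ z) where
  ring z i j m hz hij hj := by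
    simp only [← mul_add]
    rw [expect_smul, expect_smul, ← mul_sub, abs_mul, mul_assoc]
    exact mul_le_mul_of_nonneg_left (hF.ring z i j m hz hij hj) (abs_nonneg r)
  flat z x k := by
    rw [expect_smul, expect_smul, ← mul_sub, abs_mul, mul_assoc, mul_assoc]
    refine mul_le_mul_of_nonneg_left ?_ (abs_nonneg r)
    rw [← mul_assoc]
    exact hF.flat z x k

theorem RK.mono {t c c' : ℝ}
    {F : Equiv.Perm (Fin d → ZMod L) → (ι → (Fin d → ZMod L)) → ℝ}
    (hF : RK d L t c F) (hc : c ≤ c') : RK d L t c' F where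
  ring z i j m hz hij hj := (hF.ring z i j m hz hij hj).trans
    (mul_le_mul_of_nonneg_right hc (Real.sqrt_nonneg _))
  flat z x k := (hF.flat z x k).trans (mul_le_mul_of_nonneg_right
        (mul_le_mul_of_nonneg_right hc (Finset.sum_nonneg fun _ _ => abs_nonneg _))
        (Real.sqrt_nonneg _))

theorem RK.zero (t : ℝ) : RK (ι := ι) d L t 0 (fun _ _ => 0) where
  ring z i j m _ _ _ := by simp
  flat z x k := by simp

theorem RK.sum {t : ℝ} {γ : Type*} (s : Finset γ) {c : γ → ℝ}
    {F : γ → Equiv.Perm (Fin d → ZMod L) → (ι → (Fin d → ZMod L)) → ℝ}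
    (hF : ∀ a ∈ s, RK d L t (c a) (F a)) :
    RK d L t (∑ a ∈ s, c a) (fun σ z => ∑ a ∈ s, F a σ z) := by
  classical
  induction s using Finset.induction_on with
  | empty => simpa using RK.zero (ι := ι) (d := d) (L := L) t
  | insert a s ha ih =>
    simp only [Finset.sum_insert ha]
    exact (hF a (Finset.mem_insert_self _ _)).add
      (ih fun b hb => hF b (Finset.mem_insert_of_mem hb))

section Nat

variable {C : Type*} [Fintype C] [DecidableEq C]

/-- The constant of ring symmetry and flatness. -/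
noncomputable def crk (d p : ℕ) : ℝ := 8 * (d + 4 + cE d p) + 2 ^ (d + 3)

theorem crk_pos (hd : 1 ≤ d) (p : ℕ) : 0 < crk d p := by
  have := cE_pos hd p
  unfold crk
  positivity

theorem avgQ_nat {V : Type*} [Fintype V] [DecidableEq V] [Nonempty K]
    {b : (V → K) → (ι → V) → ℝ} (hb : NatFun K b) (π σ : Equiv.Perm V) (z : ι → V) :
    avgQ (fun η => b η (fun i => π (z i))) (π * σ * π⁻¹) = avgQ (fun η => b η z) σ := by
  have h := avgQ_conj (K := K) (fun η => b η (fun i => π (z i))) (σ * π⁻¹) π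
  rw [inv_mul_cancel_right] at h
  rw [mul_assoc, ← h]
  congr 1
  funext η
  exact hb.map π η z

/-- One-sided ring symmetry. -/
theorem ring_one_sidedQ (hd : 1 ≤ d) (hL : 2 ≤ L) {t : ℝ} (ht : 1 ≤ t)
    {b : ((Fin d → ZMod L) → Option C) → (ι → (Fin d → ZMod L)) → ℝ}
    (hb : NatFun (Option C) b) (z : ι → (Fin d → ZMod L)) {i j : ι} (m : Fin d)
    (hz : Function.Injective z) (hij : i ≠ j) (hj : z j = z i + Pi.single m 1) :
    expect d L t (fun σ => avgQ (fun η => b η z) (Equiv.swap (z i) (z j) * σ) +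
        avgQ (fun η => b η (z ∘ Equiv.swap i j)) (Equiv.swap (z i) (z j) * σ)) -
      expect d L t (fun σ => avgQ (fun η => b η z) σ +
        avgQ (fun η => b η (z ∘ Equiv.swap i j)) σ) ≤
      crk d (Fintype.card C) * Real.sqrt (bet d L t / t) := by
  have ht0 : 0 < t := by linarith
  have hbp := bet_pos (d := d) hL ht0
  have hcE := cE_pos hd (Fintype.card C)
  have hLpos : (0 : ℝ) < L := by exact_mod_cast (by omega : 0 < L)
  have hLd : 0 < (L : ℝ) ^ d := by positivity
  set G : Equiv.Perm (Fin d → ZMod L) → ℝ := fun σ => avgQ (fun η => b η z) σ +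
        avgQ (fun η => b η (z ∘ Equiv.swap i j)) σ with hG
  set Δ := expect d L t (fun σ => G (Equiv.swap (z i) (z j) * σ)) - expect d L t G with hΔ
  show Δ ≤ _
  set s := Real.sqrt (bet d L t / t) with hs
  have hs0 : 0 < s := Real.sqrt_pos.mpr (by positivity)
  have hG2 : ∀ σ, |G σ| ≤ 2 := by
    intro σ
    refine (abs_add_le _ _).trans ?_
    have h1 := abs_avgQ_le (X := fun η => b η z) (B := 1) (fun η => hb.le η z) σ
    have h2 := abs_avgQ_le (X := fun η => b η (z ∘ Equiv.swap i j)) (B := 1)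
      (fun η => hb.le η _) σ
    linarith
  have hΔ4 : Δ ≤ 4 := by
    have h1 := abs_le.mp (abs_expect_le (d := d) (L := L) ht0.le
      (f := fun σ => G (Equiv.swap (z i) (z j) * σ)) (B := 2) fun σ => hG2 _)
    have h2 := abs_le.mp (abs_expect_le (d := d) (L := L) ht0.le (f := G) (B := 2) hG2)
    linarith [h1.2, h2.1]
  have hcrk : 8 ≤ crk d (Fintype.card C) := by
    unfold crk
    have h1 : (0 : ℝ) ≤ d := by positivity
    have h3 : (0 : ℝ) ≤ 2 ^ (d + 3) := by positivity
    linarith
  by_cases ht2 : t < 2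
  · have h1 := sqrt_bet_ge (d := d) hL ht ht2
    rw [← hs] at h1
    have h2 : 4 * (2 : ℝ) ^ (d + 1) ≤ crk d (Fintype.card C) := by
      have h3 : (4 : ℝ) * 2 ^ (d + 1) = 2 ^ (d + 3) := by rw [pow_add, pow_add]; norm_num; ring
      rw [h3]
      unfold crk
      have : 0 ≤ 8 * ((d : ℝ) + 4 + cE d (Fintype.card C)) := by positivity
      linarith
    rw [div_le_iff₀ (by positivity)] at h1
    nlinarith
  push Not at ht2
  by_cases hs1 : 1 / 2 < s
  · nlinarith
  push Not at hs1
  -- the marked points moved to `x`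
  set zx : (Fin d → ZMod L) → ι → (Fin d → ZMod L) := fun x l => z l + (x - z i) with hzx
  have hzi : ∀ x, zx x i = x := fun x => by simp [hzx]
  have hzj : ∀ x, zx x j = x + Pi.single m 1 := fun x => by
    simp only [hzx]; rw [hj]; abel
  have hzinj : ∀ x, Function.Injective (zx x) := by
    intro x a a' h
    simp only [hzx] at h
    exact hz (add_right_cancel h)
  set b' : (Fin d → ZMod L) × Fin d → ((Fin d → ZMod L) → Option C) → ℝ :=
    fun a η => if a.2 = m then (2 : ℝ)⁻¹ * (b η (zx a.1) + b η (zx a.1 ∘ Equiv.swap i j)) else 0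
    with hb'
  have hswapz : ∀ x l, Equiv.swap x (x + Pi.single m 1) (zx x l) = zx x (Equiv.swap i j l) := by
    intro x l
    by_cases hl : l = i
    · subst hl; rw [Equiv.swap_apply_left, hzi, hzj, Equiv.swap_apply_left]
    · by_cases hl2 : l = j
      · subst hl2; rw [Equiv.swap_apply_right, hzi, hzj, Equiv.swap_apply_right]
      · rw [Equiv.swap_apply_of_ne_of_ne hl hl2, Equiv.swap_apply_of_ne_of_ne]
        · intro h
          rw [← hzi x] at h
          exact hl (hzinj x (by rw [hzi] at h; rw [hzi]; exact h))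
        · intro h
          rw [← hzj x] at h
          exact hl2 (hzinj x h)
  have hinv : ∀ a η, b' a (colHom _ (Option C) (edgeSwap d L a) η) = b' a η := by
    intro a η
    simp only [hb']
    split_ifs with h
    · have hE : edgeSwap d L a = Equiv.swap a.1 (a.1 + Pi.single m 1) := by
        unfold edgeSwap; rw [h]
      rw [hE]
      have e1 := hb.map (Equiv.swap a.1 (a.1 + Pi.single m 1)) η (zx a.1 ∘ Equiv.swap i j)
      have e2 := hb.map (Equiv.swap a.1 (a.1 + Pi.single m 1)) η (zx a.1)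
      have e3 : (fun l => Equiv.swap a.1 (a.1 + Pi.single m 1) ((zx a.1 ∘ Equiv.swap i j) l)) =
          zx a.1 := by
        funext l
        rw [Function.comp_apply, hswapz, Equiv.swap_apply_self]
      have e4 : (fun l => Equiv.swap a.1 (a.1 + Pi.single m 1) (zx a.1 l)) =
          zx a.1 ∘ Equiv.swap i j := by
        funext l
        rw [hswapz]; rfl
      rw [e3] at e1
      rw [e4] at e2
      rw [e1, e2, add_comm]
    · rfl
  have hle : ∀ a η, |b' a η| ≤ 1 := by
    intro a η
    simp only [hb']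
    split_ifs
    · have h1 := abs_le.mp (hb.le η (zx a.1))
      have h2 := abs_le.mp (hb.le η (zx a.1 ∘ Equiv.swap i j))
      rw [abs_le]
      constructor <;> linarith [h1.1, h1.2, h2.1, h2.2]
    · norm_num
  have h1 := ring_leQ (K := Option C) ht0.le hs0.le hs1 edgeSwap_mul_self hinv hle
  rw [← expect_eq (d := d) (L := L) (t / 2)] at h1
  have h2 := log_fixQ_half_le (C := C) (d := d) (L := L) hd hL ht2
  have h3 : ∑ a, (E (fun _ : (Fin d → ZMod L) × Fin d => t) (edgeSwap d L)
      (fun σ => avgQ (b' a) (edgeSwap d L a * σ)) -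
        E (fun _ => t) (edgeSwap d L) (fun σ => avgQ (b' a) σ)) = (L : ℝ) ^ d * (Δ / 2) := by
    rw [Fintype.sum_prod_type]
    have h4 : ∀ x : Fin d → ZMod L, ∑ j' : Fin d,
        (E (fun _ : (Fin d → ZMod L) × Fin d => t) (edgeSwap d L)
          (fun σ => avgQ (b' (x, j')) (edgeSwap d L (x, j') * σ)) -
        E (fun _ => t) (edgeSwap d L) (fun σ => avgQ (b' (x, j')) σ)) = Δ / 2 := by
      intro x
      rw [Finset.sum_eq_single m]
      · have e0 : ∀ σ, avgQ (b' (x, m)) σ = (2 : ℝ)⁻¹ * (avgQ (fun η => b η (zx x)) σ +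
            avgQ (fun η => b η (zx x ∘ Equiv.swap i j)) σ) := by
          intro σ
          simp only [hb', if_true]
          rw [avgQ_smul, avgQ_add]
        simp only [e0]
        rw [E_smul, E_smul, ← expect_eq, ← expect_eq, hΔ]
        have hπ : ∀ l, trans d L (x - z i) (z l) = zx x l := fun l => by simp [trans, hzx]
        have hcomp : zx x ∘ Equiv.swap i j = fun l => trans d L (x - z i)
            ((z ∘ Equiv.swap i j) l) := by
          funext l
          rw [Function.comp_apply, Function.comp_apply, hπ]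
        have hzxf : zx x = fun l => trans d L (x - z i) (z l) := by
          funext l; rw [hπ]
        have hGx : ∀ σ, avgQ (fun η => b η (zx x)) (trans d L (x - z i) * σ *
            (trans d L (x - z i))⁻¹) + avgQ (fun η => b η (zx x ∘ Equiv.swap i j))
            (trans d L (x - z i) * σ * (trans d L (x - z i))⁻¹) = G σ := by
          intro σ
          rw [hcomp, hzxf, avgQ_nat hb, avgQ_nat hb]
        have e1 : expect d L t (fun σ => avgQ (fun η => b η (zx x)) σ +
            avgQ (fun η => b η (zx x ∘ Equiv.swap i j)) σ) = expect d L t G := by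
          rw [expect_trans t (x - z i)]
          congr 1
          funext σ
          exact hGx σ
        have e2 : expect d L t (fun σ => avgQ (fun η => b η (zx x)) (edgeSwap d L (x, m) * σ) +
            avgQ (fun η => b η (zx x ∘ Equiv.swap i j)) (edgeSwap d L (x, m) * σ)) =
            expect d L t (fun σ => G (Equiv.swap (z i) (z j) * σ)) := by
          rw [expect_trans t (x - z i)]
          congr 1
          funext σ
          rw [← hGx]
          have e3 : edgeSwap d L (x, m) * (trans d L (x - z i) * σ * (trans d L (x - z i))⁻¹) =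
              trans d L (x - z i) * (Equiv.swap (z i) (z j) * σ) *
                (trans d L (x - z i))⁻¹ := by
            have e4 : edgeSwap d L (x, m) = trans d L (x - z i) * Equiv.swap (z i) (z j) *
                (trans d L (x - z i))⁻¹ := by
              have e5 := Equiv.swap_apply_apply (trans d L (x - z i)) (z i) (z j)
              rw [hπ, hπ, hzi, hzj] at e5
              unfold edgeSwap
              exact e5
            rw [e4]
            group
          rw [e3]
        rw [e1, e2]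
        ring
      · intro j' _ hj'
        simp only [hb', if_neg hj']
        simp only [avgQ_const]
        rw [E_const, sub_self]
      · intro h; exact absurd (Finset.mem_univ _) h
    rw [Finset.sum_congr rfl fun x _ => h4 x, Finset.sum_const, Finset.card_univ, card_torus,
      nsmul_eq_mul]
    push_cast; rfl
  rw [h3, card_letters] at h1
  have h5 : bet d L t = s ^ 2 * t := by
    rw [hs, Real.sq_sqrt (by positivity)]; field_simp
  rw [h5] at h2
  have h6 : s * t * (L : ℝ) ^ d * Δ ≤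
      s * t * (L : ℝ) ^ d * (2 * (4 * d + cE d (Fintype.card C)) * s) := by
    nlinarith
  have h7 : Δ ≤ 2 * (4 * d + cE d (Fintype.card C)) * s :=
    le_of_mul_le_mul_left h6 (by positivity)
  refine h7.trans (mul_le_mul_of_nonneg_right ?_ hs0.le)
  have h9 : (0 : ℝ) ≤ 2 ^ (d + 3) := by positivity
  unfold crk
  nlinarith

/-- One-sided flatness. -/
theorem flat_one_sidedQ (hd : 1 ≤ d) (hL : 2 ≤ L) {t : ℝ} (ht : 1 ≤ t)
    {b : ((Fin d → ZMod L) → Option C) → (ι → (Fin d → ZMod L)) → ℝ}
    (hb : NatFun (Option C) b) (z : ι → (Fin d → ZMod L)) (x : Fin d → ZMod L) (k : Fin d → ℤ) :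
    expect d L t (fun σ => avgQ (fun η => b η z) σ) - expect d L t (fun σ =>
        avgQ (fun η => b η (fun i => Equiv.swap x (x + red d L k) (z i))) σ) ≤
      crk d (Fintype.card C) * (∑ i, |(k i : ℝ)|) * Real.sqrt (bet d L t / t) := by
  have ht0 : 0 < t := by linarith
  have hbp := bet_pos (d := d) hL ht0
  have hcrk := crk_pos hd (Fintype.card C)
  have hcE := cE_pos hd (Fintype.card C)
  have hLpos : (0 : ℝ) < L := by exact_mod_cast (by omega : 0 < L)
  have hLd : 0 < (L : ℝ) ^ d := by positivity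
  by_cases hK : ∀ i, k i = 0
  · have h0 : x + red d L k = x := by
      ext i
      simp [red, hK i]
    rw [h0]
    simp only [Equiv.swap_self, Equiv.refl_apply]
    rw [sub_self]
    have : 0 ≤ ∑ i, |(k i : ℝ)| := Finset.sum_nonneg fun _ _ => abs_nonneg _
    positivity
  push Not at hK
  obtain ⟨i0, hi0⟩ := hK
  have hK1 : 1 ≤ ∑ i, |(k i : ℝ)| := by
    refine le_trans ?_ (Finset.single_le_sum (f := fun i => |(k i : ℝ)|)
      (fun i _ => abs_nonneg _) (Finset.mem_univ i0))
    exact_mod_cast Int.one_le_abs hi0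
  set Kk := ∑ i, |(k i : ℝ)| with hKdef
  obtain ⟨y, hy⟩ : ∃ y, y = x + red d L k := ⟨_, rfl⟩
  rw [← hy]
  set z' : ι → (Fin d → ZMod L) := fun i => Equiv.swap x y (z i) with hz'
  set Δ := expect d L t (fun σ => avgQ (fun η => b η z) σ) -
    expect d L t (fun σ => avgQ (fun η => b η z') σ) with hΔ
  have hΔ2 : Δ ≤ 2 := by
    have h1 := abs_le.mp (abs_expect_le (d := d) (L := L) ht0.le
      (f := fun σ => avgQ (fun η => b η z) σ) (B := 1) fun σ => abs_avgQ_le (fun η => hb.le η z) _)
    have h2 := abs_le.mp (abs_expect_le (d := d) (L := L) ht0.le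
      (f := fun σ => avgQ (fun η => b η z') σ) (B := 1)
      fun σ => abs_avgQ_le (fun η => hb.le η z') _)
    linarith [h1.2, h2.1]
  set D : (Fin d → ZMod L) → ((Fin d → ZMod L) → Option C) → ℝ :=
    fun u η => (2 : ℝ)⁻¹ * (b η (fun i => u + z i) - b η (fun i => u + z' i)) with hD
  have hsw : ∀ u v, Equiv.swap (u + x) (u + y) (u + v) = u + Equiv.swap x y v := by
    intro u v
    by_cases hv : v = x
    · subst hv; rw [Equiv.swap_apply_left, Equiv.swap_apply_left]
    · by_cases hv2 : v = y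
      · subst hv2; rw [Equiv.swap_apply_right, Equiv.swap_apply_right]
      · rw [Equiv.swap_apply_of_ne_of_ne hv hv2, Equiv.swap_apply_of_ne_of_ne]
        · exact fun h => hv (add_left_cancel h)
        · exact fun h => hv2 (add_left_cancel h)
  have hDanti : ∀ u η, D u (colHom _ (Option C) (Equiv.swap (u + x) (u + y)) η) = -D u η := by
    intro u η
    have e1 := hb.map (Equiv.swap (u + x) (u + y)) η (fun i => u + z i)
    have e2 := hb.map (Equiv.swap (u + x) (u + y)) η (fun i => u + z' i)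
    simp only [hsw] at e1 e2
    have e3 : (fun i => u + Equiv.swap x y (z' i)) = fun i => u + z i := by
      funext i
      simp only [hz']
      rw [Equiv.swap_apply_self]
    rw [e3] at e2
    simp only [hD]
    rw [e2]
    have e4 : b (colHom _ (Option C) (Equiv.swap (u + x) (u + y)) η) (fun i => u + z' i) =
        b η (fun i => u + z i) := e1
    rw [e4]; ring
  have hD1 : ∀ u η, |D u η| ≤ 1 := by
    intro u η
    have e1 := abs_le.mp (hb.le η (fun i => u + z i))
    have e2 := abs_le.mp (hb.le η (fun i => u + z' i))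
    simp only [hD]
    rw [abs_le]
    constructor <;> linarith [e1.1, e1.2, e2.1, e2.2]
  have htr : ∀ (u : Fin d → ZMod L) (v : ι → (Fin d → ZMod L)),
      expect d L t (fun σ => avgQ (fun η => b η (fun i => u + v i)) σ) =
      expect d L t (fun σ => avgQ (fun η => b η v) σ) := by
    intro u v
    rw [expect_trans t u]
    congr 1
    funext σ
    have e1 : (fun i => u + v i) = fun i => trans d L u (v i) := by
      funext i
      simp [trans, add_comm]
    rw [e1]
    exact avgQ_nat hb _ _ _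
  have hmain : 2 ≤ t → ∀ γ : ℝ, 0 < γ → γ / 2 * (L : ℝ) ^ d * Δ ≤
      4 * γ ^ 2 * Kk ^ 2 * (L : ℝ) ^ d / t +
        cE d (Fintype.card C) * bet d L t * (L : ℝ) ^ d := by
    intro ht2 γ hγ
    have h1 := pot_leQ (K := Option C) (c := fun _ : (Fin d → ZMod L) × Fin d => t)
      (fun _ => ht0.le) (edgeSwap d L) (fun η => γ * ∑ u, D u η)
    have h2 := h1.trans (trace_pot_leQ ht0 hγ D hDanti hD1 k hy (by linarith))
    have hE : 0 < expect d L (t / 2) (fixQ (Option C)) := by
      have h3 := expect_mono (d := d) (L := L) (t := t / 2) (by linarith) (f := fun _ => 1)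
        (g := fixQ (Option C)) (fun σ => fixQ_ge_one σ)
      rw [expect_const] at h3
      linarith
    have h3 := Real.log_le_log (Real.exp_pos _) h2
    rw [Real.log_exp, Real.log_mul (Real.exp_pos _).ne' hE.ne', Real.log_exp] at h3
    have h4 := log_fixQ_half_le (C := C) (L := L) hd hL ht2
    have h5 : E (fun _ : (Fin d → ZMod L) × Fin d => t) (edgeSwap d L)
        (avgQ (fun η => γ * ∑ u, D u η)) = γ / 2 * (L : ℝ) ^ d * Δ := by
      have e1 : avgQ (fun η => γ * ∑ u, D u η) = fun σ => γ / 2 * ∑ u : Fin d → ZMod L,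
          (avgQ (fun η => b η (fun i => u + z i)) σ +
            (-1) * avgQ (fun η => b η (fun i => u + z' i)) σ) := by
        funext σ
        rw [avgQ_smul, avgQ_sum, Finset.mul_sum, Finset.mul_sum]
        refine Finset.sum_congr rfl fun u _ => ?_
        simp only [hD]
        rw [avgQ_smul, avgQ_sub]
        ring
      rw [e1, E_smul, E_sum]
      have e2 : ∀ u ∈ (Finset.univ : Finset (Fin d → ZMod L)),
          E (fun _ : (Fin d → ZMod L) × Fin d => t) (edgeSwap d L)
            (fun σ => avgQ (fun η => b η (fun i => u + z i)) σ +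
            (-1) * avgQ (fun η => b η (fun i => u + z' i)) σ) = Δ := by
        intro u _
        rw [E_add, E_smul, ← expect_eq, ← expect_eq, htr u z, htr u z']
        ring
      rw [Finset.sum_congr rfl e2, Finset.sum_const, Finset.card_univ, card_torus, nsmul_eq_mul]
      push_cast; ring
    rw [h5] at h3
    linarith
  have h := opt_gammaQ hd hL ht (Kk := Kk) (Δ := Δ / 2) (A := cE d (Fintype.card C)) hcE.le hK1
    (by linarith) (fun ht2 γ hγ => by
    have h1 := hmain ht2 (γ / 2) (by positivity)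
    have h2 : 4 * (γ / 2) ^ 2 * Kk ^ 2 * (L : ℝ) ^ d / t ≤
        4 * γ ^ 2 * Kk ^ 2 * (L : ℝ) ^ d / t := by
      refine div_le_div_of_nonneg_right ?_ ht0.le
      refine mul_le_mul_of_nonneg_right (mul_le_mul_of_nonneg_right ?_ (sq_nonneg _)) hLd.le
      nlinarith [sq_nonneg γ]
    linarith)
  have hs0 := Real.sqrt_nonneg (bet d L t / t)
  have h10 : 2 * (2 * (4 + cE d (Fintype.card C)) + 2 ^ (d + 1)) ≤ crk d (Fintype.card C) := by
    unfold crk
    have h11 : (2 : ℝ) ^ (d + 3) = 4 * 2 ^ (d + 1) := by rw [pow_add, pow_add]; norm_num; ring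
    rw [h11]
    have h12 : (0 : ℝ) ≤ d := by positivity
    have h13 : (0 : ℝ) < 2 ^ (d + 1) := by positivity
    linarith
  calc Δ ≤ 2 * ((2 * (4 + cE d (Fintype.card C)) + 2 ^ (d + 1)) * Kk *
        Real.sqrt (bet d L t / t)) := by linarith
    _ = 2 * (2 * (4 + cE d (Fintype.card C)) + 2 ^ (d + 1)) * Kk *
        Real.sqrt (bet d L t / t) := by ring
    _ ≤ _ := mul_le_mul_of_nonneg_right (mul_le_mul_of_nonneg_right h10 (by linarith)) hs0

/-- The expectation of a natural function of marked points is ring symmetric and flat. -/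
theorem rk_nat (hd : 1 ≤ d) (hL : 2 ≤ L) {t : ℝ} (ht : 1 ≤ t)
    {b : ((Fin d → ZMod L) → Option C) → (ι → (Fin d → ZMod L)) → ℝ}
    (hb : NatFun (Option C) b) :
    RK d L t (crk d (Fintype.card C)) (fun σ z => avgQ (fun η => b η z) σ) := by
  have hbn : NatFun (Option C) (fun η (z : ι → (Fin d → ZMod L)) => -b η z) :=
    { map := fun π η z => by rw [hb.map]
      le := fun η z => by rw [abs_neg]; exact hb.le η z }
  have hneg : ∀ σ z, avgQ (fun η => -b η z) σ = -1 * avgQ (fun η => b η z) σ := by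
    intro σ z
    rw [← avgQ_smul]
    congr 1
    funext η
    ring
  refine ⟨fun z i j m hz hij hj => ?_, fun z x k => ?_⟩
  · have h1 := ring_one_sidedQ hd hL ht hb z m hz hij hj
    have h2 := ring_one_sidedQ hd hL ht hbn z m hz hij hj
    simp only [hneg, ← mul_add] at h2
    rw [expect_smul, expect_smul] at h2
    rw [abs_le]
    constructor <;> linarith
  · have h1 := flat_one_sidedQ hd hL ht hb z x k
    have h2 := flat_one_sidedQ hd hL ht hbn z x k
    simp only [hneg] at h2
    rw [expect_smul, expect_smul] at h2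
    rw [abs_le]
    constructor <;> linarith

end Nat

end Pool.Agent.Stirring
end
end

section

/-! The law of the pattern of marked points in the cycles. -/

open Finset

set_option linter.unusedSectionVars false

namespace Pool.Agent.Stirring

section Count

variable {V : Type*} [Fintype V] [DecidableEq V] {K : Type*} [Fintype K] [DecidableEq K]
variable {ι : Type*} [Fintype ι] [DecidableEq ι]

theorem fixS_const_on {σ : Equiv.Perm V} {η : V → K} (h : η ∈ fixS K σ) {x y : V}
    (hxy : σ.SameCycle x y) : η x = η y := by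
  rw [mem_fixS] at h
  obtain ⟨n, rfl⟩ := hxy
  have hpow : ∀ (m : ℕ) (u : V), η ((σ ^ m) u) = η u := by
    intro m
    induction m with
    | zero => intro u; simp
    | succ m ih => intro u; rw [pow_succ', Equiv.Perm.mul_apply, h, ih]
  rcases n with m | m
  · exact (hpow m x).symm
  · rw [zpow_negSucc]
    have := hpow (m + 1) ((σ ^ (m + 1))⁻¹ x)
    rw [← Equiv.Perm.mul_apply, mul_inv_cancel, Equiv.Perm.one_apply] at this
    exact this

theorem mem_fixS_iff_sameCycle (σ : Equiv.Perm V) (η : V → K) :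
    η ∈ fixS K σ ↔ ∀ x y, σ.SameCycle x y → η x = η y := by
  constructor
  · intro h x y hxy; exact fixS_const_on h hxy
  · intro h
    rw [mem_fixS]
    intro x
    exact (h x (σ x) (Equiv.Perm.SameCycle.refl σ x).apply_right).symm

open Classical in
/-- Recolouring of the cycles of the marked points. -/
noncomputable def recol (σ : Equiv.Perm V) (z : ι → V) (h : ι → K) (η : V → K) : V → K :=
  fun x => if hx : ∃ i, σ.SameCycle (z i) x then h hx.choose else η x

theorem recol_mem {σ : Equiv.Perm V} {z : ι → V} {τ : Equiv.Perm ι} (hP : Pat σ z τ) {h : ι → K}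
    (hh : h ∈ fixS K τ) {η : V → K} (hη : η ∈ fixS K σ) : recol σ z h η ∈ fixS K σ := by
  classical
  rw [mem_fixS_iff_sameCycle]
  intro x y hxy
  unfold recol
  by_cases hx : ∃ i, σ.SameCycle (z i) x
  · have hy : ∃ i, σ.SameCycle (z i) y := ⟨hx.choose, hx.choose_spec.trans hxy⟩
    rw [dif_pos hx, dif_pos hy]
    refine fixS_const_on hh ?_
    rw [← hP]
    exact (hx.choose_spec.trans hxy).trans hy.choose_spec.symm
  · have hy : ¬ ∃ i, σ.SameCycle (z i) y := fun ⟨i, hi⟩ => hx ⟨i, hi.trans hxy.symm⟩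
    rw [dif_neg hx, dif_neg hy]
    exact fixS_const_on hη hxy

theorem recol_z {σ : Equiv.Perm V} {z : ι → V} {τ : Equiv.Perm ι} (hP : Pat σ z τ) {h : ι → K}
    (hh : h ∈ fixS K τ) (η : V → K) (i : ι) : recol σ z h η (z i) = h i := by
  classical
  have hx : ∃ j, σ.SameCycle (z j) (z i) := ⟨i, Equiv.Perm.SameCycle.refl _ _⟩
  unfold recol
  rw [dif_pos hx]
  refine fixS_const_on hh ?_
  rw [← hP]
  exact hx.choose_spec

theorem recol_recol {σ : Equiv.Perm V} {z : ι → V}
    {h h' : ι → K} {η : V → K} (hη : η ∈ fixS K σ)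
    (hz : (fun i => η (z i)) = h) : recol σ z h (recol σ z h' η) = η := by
  classical
  funext x
  unfold recol
  by_cases hx : ∃ i, σ.SameCycle (z i) x
  · rw [dif_pos hx, ← hz]
    exact fixS_const_on hη hx.choose_spec
  · rw [dif_neg hx, dif_neg hx]

/-- The number of invariant colourings with given colours at the marked points. -/
noncomputable def nfib (σ : Equiv.Perm V) (z : ι → V) (h : ι → K) : ℕ :=
  ((fixS K σ).filter fun η => (fun i => η (z i)) = h).card

theorem nfib_eq {σ : Equiv.Perm V} {z : ι → V} {τ : Equiv.Perm ι} (hP : Pat σ z τ) {h h' : ι → K}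
    (hh : h ∈ fixS K τ) (hh' : h' ∈ fixS K τ) : nfib σ z h = nfib σ z h' := by
  unfold nfib
  refine Finset.card_bij' (fun η _ => recol σ z h' η) (fun η _ => recol σ z h η) ?_ ?_ ?_ ?_
  · intro η hη
    rw [Finset.mem_filter] at *
    exact ⟨recol_mem hP hh' hη.1, funext fun i => recol_z hP hh' η i⟩
  · intro η hη
    rw [Finset.mem_filter] at *
    exact ⟨recol_mem hP hh hη.1, funext fun i => recol_z hP hh η i⟩
  · intro η hη
    rw [Finset.mem_filter] at hη
    exact recol_recol hη.1 hη.2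
  · intro η hη
    rw [Finset.mem_filter] at hη
    exact recol_recol hη.1 hη.2

theorem nfib_zero {σ : Equiv.Perm V} {z : ι → V} {τ : Equiv.Perm ι} (hP : Pat σ z τ) {h : ι → K}
    (hh : h ∉ fixS K τ) : nfib σ z h = 0 := by
  unfold nfib
  rw [Finset.card_eq_zero, Finset.filter_eq_empty_iff]
  intro η hη hz
  apply hh
  rw [mem_fixS_iff_sameCycle]
  intro a b hab
  rw [← hz]
  exact fixS_const_on hη ((hP a b).mpr hab)

theorem nfib_mul [Nonempty K] {σ : Equiv.Perm V} {z : ι → V} {τ : Equiv.Perm ι} (hP : Pat σ z τ)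
    {h : ι → K} (hh : h ∈ fixS K τ) : (nfib σ z h : ℝ) * fixQ K τ = fixQ K σ := by
  have h1 : (fixS K σ).card = ∑ h' : ι → K, nfib σ z h' := by
    unfold nfib
    exact Finset.card_eq_sum_card_fiberwise (f := fun η : V → K => fun i => η (z i))
      (t := Finset.univ) (fun _ _ => Finset.mem_univ _)
  have h2 : ∑ h' : ι → K, nfib σ z h' = ∑ h' ∈ fixS K τ, nfib σ z h' := by
    refine (Finset.sum_subset (Finset.subset_univ _) ?_).symm
    intro h' _ hn
    exact nfib_zero hP hn
  have h3 : ∑ h' ∈ fixS K τ, nfib σ z h' = (fixS K τ).card * nfib σ z h := by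
    rw [Finset.sum_congr rfl fun h' hh' => nfib_eq hP hh' hh, Finset.sum_const, smul_eq_mul]
  rw [fixQ_eq_card, fixQ_eq_card, h1, h2, h3]
  push_cast
  ring

/-- The indicator of given colours at the marked points. -/
noncomputable def bPt (h : ι → K) (η : V → K) (z : ι → V) : ℝ :=
  if (fun i => η (z i)) = h then 1 else 0

theorem natFun_bPt (h : ι → K) : NatFun K (bPt h : (V → K) → (ι → V) → ℝ) where
  map π η z := by
    unfold bPt
    simp only [colHom_apply, Equiv.symm_apply_apply]
  le η z := by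
    unfold bPt
    split_ifs <;> norm_num

/-- The conditional law of the colours. -/
theorem avgQ_bPt [Nonempty K] {σ : Equiv.Perm V} {z : ι → V} {τ : Equiv.Perm ι}
    (hP : Pat σ z τ) (h : ι → K) :
    avgQ (fun η => bPt h η z) σ = if h ∈ fixS K τ then (fixQ K τ)⁻¹ else 0 := by
  have h1 : ∑ η ∈ fixS K σ, bPt h η z = (nfib σ z h : ℝ) := by
    unfold bPt nfib
    rw [Finset.card_filter]
    push_cast
    rfl
  unfold avgQ
  rw [h1]
  split_ifs with hh
  · have h2 := nfib_mul hP hh
    have h3 := fixQ_pos (K := K) σ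
    have h4 := fixQ_pos (K := K) τ
    rw [← h2]
    have h5 : (nfib σ z h : ℝ) ≠ 0 := by
      intro h0
      rw [h0, zero_mul] at h2
      linarith
    field_simp
  · rw [nfib_zero hP hh]
    simp

open Classical in
/-- The indicator of a pattern. -/
noncomputable def patI (τ : Equiv.Perm ι) (σ : Equiv.Perm V) (z : ι → V) : ℝ :=
  if Pat σ z τ then 1 else 0

/-- The weight of a pattern. -/
noncomputable def patW (τ : Equiv.Perm ι) (σ : Equiv.Perm V) (z : ι → V) : ℝ :=
  ((relCl τ).card : ℝ)⁻¹ * patI τ σ z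

theorem sum_patW (σ : Equiv.Perm V) (z : ι → V) : ∑ τ : Equiv.Perm ι, patW τ σ z = 1 := by
  classical
  rw [← sum_pat_weight σ z]
  refine Finset.sum_congr rfl fun τ _ => ?_
  unfold patW patI
  split_ifs <;> simp

theorem avgQ_bPt_eq_sum [Nonempty K] (σ : Equiv.Perm V) (z : ι → V) (h : ι → K) :
    avgQ (fun η => bPt h η z) σ =
      ∑ τ : Equiv.Perm ι, patW τ σ z * if h ∈ fixS K τ then (fixQ K τ)⁻¹ else 0 := by
  have h1 : ∀ τ : Equiv.Perm ι, patW τ σ z * (if h ∈ fixS K τ then (fixQ K τ)⁻¹ else 0) =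
      patW τ σ z * avgQ (fun η => bPt h η z) σ := by
    intro τ
    by_cases hP : Pat σ z τ
    · rw [avgQ_bPt hP]
    · have : patW τ σ z = 0 := by unfold patW patI; rw [if_neg hP, mul_zero]
      rw [this, zero_mul, zero_mul]
  rw [Finset.sum_congr rfl fun τ _ => h1 τ, ← Finset.sum_mul, sum_patW, one_mul]

/-- Colours that separate the cycles of a permutation of the marked points. -/
theorem exists_sep (τ0 : Equiv.Perm ι) :
    ∃ h : ι → Option ι, ∀ a b, h a = h b ↔ τ0.SameCycle a b := by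
  classical
  let s : Setoid ι := ⟨τ0.SameCycle, ⟨fun a => Equiv.Perm.SameCycle.refl _ _,
    fun h => h.symm, fun h1 h2 => h1.trans h2⟩⟩
  refine ⟨fun a => some (Quotient.out (Quotient.mk s a)), fun a b => ?_⟩
  rw [Option.some_inj]
  constructor
  · intro h
    have h1 : s.r (Quotient.out (Quotient.mk s a)) a := Quotient.mk_out a
    have h2 : s.r (Quotient.out (Quotient.mk s b)) b := Quotient.mk_out b
    rw [h] at h1
    exact s.iseqv.trans (s.iseqv.symm h1) h2
  · intro h
    have : Quotient.mk s a = Quotient.mk s b := Quotient.sound h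
    rw [this]

theorem fixS_eq_of_relCl {τ τ' : Equiv.Perm ι} (h : τ' ∈ relCl τ) : fixS K τ' = fixS K τ := by
  ext η
  rw [mem_fixS_iff_sameCycle, mem_fixS_iff_sameCycle]
  rw [mem_relCl] at h
  simp only [h]

theorem patI_eq_of_relCl {τ τ' : Equiv.Perm ι} (h : τ' ∈ relCl τ) (σ : Equiv.Perm V) (z : ι → V) :
    patI τ' σ z = patI τ σ z := by
  classical
  unfold patI
  refine if_congr ?_ rfl rfl
  rw [mem_relCl] at h
  exact ⟨fun h1 a b => (h1 a b).trans (h a b), fun h1 a b => (h1 a b).trans (h a b).symm⟩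

theorem relCl_eq_of_mem {τ τ' : Equiv.Perm ι} (h : τ' ∈ relCl τ) : relCl τ' = relCl τ := by
  ext u
  rw [mem_relCl] at h
  rw [mem_relCl, mem_relCl]
  exact ⟨fun h1 a b => (h1 a b).trans (h a b), fun h1 a b => (h1 a b).trans (h a b).symm⟩

/-- Triangular inversion. -/
theorem patI_eq [Nonempty ι] (τ0 : Equiv.Perm ι) {h : ι → Option ι}
    (hh : ∀ a b, h a = h b ↔ τ0.SameCycle a b) (σ : Equiv.Perm V) (z : ι → V) :
    patI τ0 σ z = fixQ (Option ι) τ0 * (avgQ (fun η => bPt h η z) σ + (-1) *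
      ∑ τ ∈ Finset.univ.filter (fun τ : Equiv.Perm ι => (pairsOf τ).card < (pairsOf τ0).card),
        (if h ∈ fixS (Option ι) τ then (fixQ (Option ι) τ)⁻¹ else 0) *
          (((relCl τ).card : ℝ)⁻¹ * patI τ σ z)) := by
  classical
  have hsub : ∀ τ : Equiv.Perm ι, h ∈ fixS (Option ι) τ ↔ pairsOf τ ⊆ pairsOf τ0 := by
    intro τ
    rw [mem_fixS_iff_sameCycle]
    constructor
    · rintro h1 ⟨a, b⟩ hab
      rw [mem_pairsOf] at *
      exact ⟨hab.1, (hh a b).mp (h1 a b hab.2)⟩
    · intro h1 a b hab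
      rw [hh]
      by_cases hne : a = b
      · subst hne; exact Equiv.Perm.SameCycle.refl _ _
      · exact ((mem_pairsOf τ0 a b).mp (h1 ((mem_pairsOf τ a b).mpr ⟨hne, hab⟩))).2
  have hrel : ∀ τ : Equiv.Perm ι, h ∈ fixS (Option ι) τ → ¬ (pairsOf τ).card < (pairsOf τ0).card →
      τ ∈ relCl τ0 := by
    intro τ h1 h2
    have h3 : pairsOf τ = pairsOf τ0 :=
      Finset.eq_of_subset_of_card_le ((hsub τ).mp h1) (not_lt.mp h2)
    rw [mem_relCl]
    intro a b
    by_cases hne : a = b
    · subst hne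
      exact ⟨fun _ => Equiv.Perm.SameCycle.refl _ _, fun _ => Equiv.Perm.SameCycle.refl _ _⟩
    · have h4 : (a, b) ∈ pairsOf τ ↔ (a, b) ∈ pairsOf τ0 := by rw [h3]
      rw [mem_pairsOf, mem_pairsOf] at h4
      exact ⟨fun h5 => (h4.mp ⟨hne, h5⟩).2, fun h5 => (h4.mpr ⟨hne, h5⟩).2⟩
  have hpos := fixQ_pos (K := Option ι) τ0
  have hN := relCl_card_pos τ0
  rw [avgQ_bPt_eq_sum, ← Finset.sum_filter_add_sum_filter_not Finset.univ
    (fun τ : Equiv.Perm ι => (pairsOf τ).card < (pairsOf τ0).card)]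
  have e1 : ∑ τ ∈ Finset.univ.filter (fun τ : Equiv.Perm ι =>
      ¬ (pairsOf τ).card < (pairsOf τ0).card),
      patW τ σ z * (if h ∈ fixS (Option ι) τ then (fixQ (Option ι) τ)⁻¹ else 0) =
      ∑ τ ∈ relCl τ0, ((relCl τ0).card : ℝ)⁻¹ * patI τ0 σ z * (fixQ (Option ι) τ0)⁻¹ := by
    have hss : relCl τ0 ⊆ Finset.univ.filter (fun τ : Equiv.Perm ι =>
        ¬ (pairsOf τ).card < (pairsOf τ0).card) := by
      intro τ hτ
      rw [Finset.mem_filter]
      refine ⟨Finset.mem_univ _, ?_⟩
      rw [pairsOf_eq_of_relCl hτ]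
      exact lt_irrefl _
    rw [← Finset.sum_subset hss]
    · refine Finset.sum_congr rfl fun τ hτ => ?_
      have h1 : h ∈ fixS (Option ι) τ := by
        rw [hsub, pairsOf_eq_of_relCl hτ]
      rw [if_pos h1]
      unfold patW
      rw [patI_eq_of_relCl hτ, relCl_eq_of_mem hτ]
      have h2 : fixQ (Option ι) τ = fixQ (Option ι) τ0 := by
        rw [fixQ_eq_card, fixQ_eq_card, fixS_eq_of_relCl hτ]
      rw [h2]
    · intro τ hτ hn
      rw [Finset.mem_filter] at hτ
      rw [if_neg (fun h1 => hn (hrel τ h1 hτ.2)), mul_zero]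
  rw [e1, Finset.sum_const, nsmul_eq_mul]
  have e2 : ∑ τ ∈ Finset.univ.filter (fun τ : Equiv.Perm ι =>
      (pairsOf τ).card < (pairsOf τ0).card),
      patW τ σ z * (if h ∈ fixS (Option ι) τ then (fixQ (Option ι) τ)⁻¹ else 0) =
      ∑ τ ∈ Finset.univ.filter (fun τ : Equiv.Perm ι => (pairsOf τ).card < (pairsOf τ0).card),
        (if h ∈ fixS (Option ι) τ then (fixQ (Option ι) τ)⁻¹ else 0) *
          (((relCl τ).card : ℝ)⁻¹ * patI τ σ z) := by
    refine Finset.sum_congr rfl fun τ _ => ?_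
    unfold patW
    ring
  rw [e2]
  field_simp
  ring

end Count

section RKPat

variable {d : ℕ} {ι : Type*} [Fintype ι] [DecidableEq ι]

theorem rk_pat_aux [Nonempty ι] (hd : 1 ≤ d) (n : ℕ) :
    ∃ c : ℝ, 0 ≤ c ∧ ∀ τ : Equiv.Perm ι, (pairsOf τ).card < n →
      ∀ (L : ℕ) [NeZero L], 2 ≤ L → ∀ t : ℝ, 1 ≤ t →
        RK d L t c (fun σ (z : ι → (Fin d → ZMod L)) => patI τ σ z) := by
  classical
  induction n with
  | zero => exact ⟨0, le_refl _, fun τ hτ => absurd hτ (Nat.not_lt_zero _)⟩
  | succ n ih =>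
    obtain ⟨c, hc0, hc⟩ := ih
    have hcrk := crk_pos hd (Fintype.card ι)
    set F : ℝ := ((Fintype.card ι : ℝ) + 1) ^ Fintype.card ι with hF
    have hF0 : 0 ≤ F := by rw [hF]; positivity
    set N : ℝ := ((Fintype.card ι).factorial : ℝ) with hN
    have hN0 : 0 ≤ N := by rw [hN]; positivity
    refine ⟨F * (crk d (Fintype.card ι) + N * c), by positivity, ?_⟩
    intro τ0 hτ0 L _ hL t ht
    obtain ⟨h, hh⟩ := exists_sep τ0
    have hfun : (fun σ (z : ι → (Fin d → ZMod L)) => patI τ0 σ z) = fun σ z =>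
        fixQ (Option ι) τ0 * (avgQ (fun η => bPt h η z) σ + (-1) *
      ∑ τ ∈ Finset.univ.filter (fun τ : Equiv.Perm ι => (pairsOf τ).card < (pairsOf τ0).card),
        (if h ∈ fixS (Option ι) τ then (fixQ (Option ι) τ)⁻¹ else 0) *
          (((relCl τ).card : ℝ)⁻¹ * patI τ σ z)) := by
      funext σ z
      exact patI_eq τ0 hh σ z
    rw [hfun]
    have h1 := rk_nat (C := ι) (ι := ι) (L := L) hd hL ht (natFun_bPt (V := Fin d → ZMod L) h)
    have h2 : ∀ τ ∈ Finset.univ.filter (fun τ : Equiv.Perm ι =>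
        (pairsOf τ).card < (pairsOf τ0).card),
        RK d L t c (fun σ (z : ι → (Fin d → ZMod L)) =>
          (if h ∈ fixS (Option ι) τ then (fixQ (Option ι) τ)⁻¹ else 0) *
          (((relCl τ).card : ℝ)⁻¹ * patI τ σ z)) := by
      intro τ hτ
      rw [Finset.mem_filter] at hτ
      have h3 := hc τ (by omega) L hL t ht
      have h4 := (h3.smul ((relCl τ).card : ℝ)⁻¹).smul
        (if h ∈ fixS (Option ι) τ then (fixQ (Option ι) τ)⁻¹ else 0)
      refine h4.mono ?_
      have h5 : |((relCl τ).card : ℝ)⁻¹| ≤ 1 := by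
        have := relCl_card_pos τ
        rw [abs_of_pos (inv_pos.mpr this)]
        refine inv_le_one_of_one_le₀ ?_
        exact_mod_cast Finset.card_pos.mpr ⟨τ, self_mem_relCl τ⟩
      have h6 : |if h ∈ fixS (Option ι) τ then (fixQ (Option ι) τ)⁻¹ else 0| ≤ 1 := by
        split_ifs
        · have := fixQ_pos (K := Option ι) τ
          rw [abs_of_pos (inv_pos.mpr this)]
          exact inv_le_one_of_one_le₀ (fixQ_ge_one τ)
        · norm_num
      calc _ ≤ 1 * (1 * c) := by
            refine mul_le_mul h6 (mul_le_mul_of_nonneg_right h5 hc0) (by positivity) (by norm_num)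
        _ = c := by ring
    have h3 := RK.sum _ h2
    rw [Finset.sum_const, nsmul_eq_mul] at h3
    have h4 := (h1.add (h3.smul (-1))).smul (fixQ (Option ι) τ0)
    refine h4.mono ?_
    have h5 : |fixQ (Option ι) τ0| ≤ F := by
      rw [abs_of_pos (fixQ_pos τ0)]
      have := fixQ_le (K := Option ι) τ0
      rw [Fintype.card_option] at this
      push_cast at this
      exact this
    have h6 : ((Finset.univ.filter (fun τ : Equiv.Perm ι =>
        (pairsOf τ).card < (pairsOf τ0).card)).card : ℝ) ≤ N := by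
      have := Finset.card_le_univ (Finset.univ.filter (fun τ : Equiv.Perm ι =>
        (pairsOf τ).card < (pairsOf τ0).card))
      rw [Fintype.card_perm] at this
      rw [hN]
      exact_mod_cast this
    refine mul_le_mul h5 ?_ (by positivity) hF0
    rw [abs_neg, abs_one, one_mul]
    exact add_le_add_right (mul_le_mul_of_nonneg_right h6 hc0) _

/-- Pattern indicators are ring symmetric and flat. -/
theorem rk_pat [Nonempty ι] (hd : 1 ≤ d) :
    ∃ c : ℝ, 0 ≤ c ∧ ∀ τ : Equiv.Perm ι, ∀ (L : ℕ) [NeZero L], 2 ≤ L → ∀ t : ℝ, 1 ≤ t →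
        RK d L t c (fun σ (z : ι → (Fin d → ZMod L)) => patI τ σ z) := by
  obtain ⟨c, hc0, hc⟩ := rk_pat_aux (ι := ι) hd (Fintype.card (ι × ι) + 1)
  exact ⟨c, hc0, fun τ => hc τ (Nat.lt_succ_of_le (Finset.card_le_univ _))⟩

end RKPat

end Pool.Agent.Stirring
end
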