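import Pool.Agent.Lib.MP_6c3d62_pr.TN.T1
import Pool.Agent.Lib.MP_6c3d62_pr.Mg.G093

section

section

/-!
# Two nodes, part T2: the paths between the two nodes, and the comparison
-/

open Finset

set_option linter.unusedSectionVars false

namespace Pool.Agent.Stirring.TN

open Pool.Agent.Stirring

variable {X : Type*} [Fintype X] [DecidableEq X]

/-- The first point of `S` among `ω v, ω² v, ...` is in `T`. -/
def Lead (ω : Equiv.Perm X) (S T : Finset X) (v : X) : Prop :=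
  ∃ n, (ω ^ (n + 1)) v ∈ T ∧ ∀ m < n, (ω ^ (m + 1)) v ∉ S

theorem pow_succ_apply' (ω : Equiv.Perm X) (n : ℕ) (v : X) :
    (ω ^ (n + 1)) v = (ω ^ n) (ω v) := by
  rw [pow_succ]
  rfl

theorem Lead.step {ω : Equiv.Perm X} {S T : Finset X} {v : X} (h : Lead ω S T v) :
    ω v ∈ T ∨ (ω v ∉ S ∧ Lead ω S T (ω v)) := by
  obtain ⟨n, h1, h2⟩ := h
  cases n with
  | zero =>
    left
    simpa using h1
  | succ n =>
    right
    refine ⟨?_, n, ?_, fun m hm => ?_⟩
    · have := h2 0 (Nat.succ_pos n)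
      simpa using this
    · rw [pow_succ_apply'] at h1
      exact h1
    · have := h2 (m + 1) (Nat.succ_lt_succ hm)
      rw [pow_succ_apply'] at this
      exact this

theorem lead_or {ω : Equiv.Perm X} {S1 S2 : Finset X} {v : X} (hv : v ∈ S1 ∪ S2) :
    Lead ω (S1 ∪ S2) S1 v ∨ Lead ω (S1 ∪ S2) S2 v := by
  classical
  have hex : ∃ n, (ω ^ (n + 1)) v ∈ S1 ∪ S2 := by
    refine ⟨orderOf ω - 1, ?_⟩
    have h1 : orderOf ω - 1 + 1 = orderOf ω := Nat.sub_add_cancel (orderOf_pos ω)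
    rw [h1, pow_orderOf_eq_one]
    exact hv
  have h1 := Nat.find_spec hex
  have h2 : ∀ m < Nat.find hex, (ω ^ (m + 1)) v ∉ S1 ∪ S2 := fun m hm => Nat.find_min hex hm
  rcases Finset.mem_union.mp h1 with h | h
  · exact Or.inl ⟨_, h, h2⟩
  · exact Or.inr ⟨_, h, h2⟩

/-- The permutations which preserve the two nodes. -/
structure Pres (S1 S2 : Finset X) (σ : Equiv.Perm X) : Prop where
  fst : ∀ c ∈ S1, σ c ∈ S1
  snd : ∀ c ∈ S2, σ c ∈ S2
  off : ∀ c, c ∉ S1 ∪ S2 → σ c = c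

theorem Pres.mem {S1 S2 : Finset X} {σ : Equiv.Perm X} (h : Pres S1 S2 σ) {c : X}
    (hc : c ∈ S1 ∪ S2) : σ c ∈ S1 ∪ S2 := by
  rcases Finset.mem_union.mp hc with h1 | h1
  · exact Finset.mem_union_left _ (h.fst c h1)
  · exact Finset.mem_union_right _ (h.snd c h1)

open Classical in
/-- The points of `S` which lead to `T`. -/
noncomputable def cr (ω : Equiv.Perm X) (S1 S2 S T : Finset X) : Finset X :=
  S.filter fun o => Lead ω (S1 ∪ S2) T o

theorem mem_cr {ω : Equiv.Perm X} {S1 S2 S T : Finset X} {o : X} :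
    o ∈ cr ω S1 S2 S T ↔ o ∈ S ∧ Lead ω (S1 ∪ S2) T o := by
  classical
  unfold cr
  rw [Finset.mem_filter]

theorem cr_subset (ω : Equiv.Perm X) (S1 S2 S T : Finset X) : cr ω S1 S2 S T ⊆ S :=
  fun _ h => (mem_cr.mp h).1

section Paths

variable {ω σ : Equiv.Perm X} {S1 S2 : Finset X} {x : X}

/-- After a crossing from the first node to the second one the path stays in the second node until it
crosses back. -/
theorem lead_after (hσ : Pres S1 S2 σ) {m : ℕ} (hm : out ω σ x m ∈ cr ω S1 S2 S1 S2) (i : ℕ)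
    (hi : ∀ j, 1 ≤ j → j ≤ i → out ω σ x (m + j) ∉ cr ω S1 S2 S2 S1) :
    Lead ω (S1 ∪ S2) S2 (out ω σ x (m + i)) ∧
      (1 ≤ i → out ω σ x (m + i) ∈ S2 ∨ out ω σ x (m + i) ∉ S1 ∪ S2) := by
  induction i with
  | zero => exact ⟨(mem_cr.mp hm).2, fun h => absurd h (by norm_num)⟩
  | succ i ih =>
    obtain ⟨h1, -⟩ := ih fun j h1 h2 => hi j h1 (Nat.le_succ_of_le h2)
    have h3 := hi (i + 1) (Nat.succ_le_succ (Nat.zero_le i)) le_rfl
    have e : out ω σ x (m + (i + 1)) = σ (ω (out ω σ x (m + i))) := out_succ ω σ x (m + i)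
    rcases h1.step with h2 | ⟨h2, h4⟩
    · have h5 : out ω σ x (m + (i + 1)) ∈ S2 := by
        rw [e]
        exact hσ.snd _ h2
      refine ⟨?_, fun _ => Or.inl h5⟩
      rcases lead_or (ω := ω) (Finset.mem_union_right S1 h5) with h6 | h6
      · exact absurd (mem_cr.mpr ⟨h5, h6⟩) h3
      · exact h6
    · have h5 : out ω σ x (m + (i + 1)) = ω (out ω σ x (m + i)) := by
        rw [e, hσ.off _ h2]
      rw [h5]
      exact ⟨h4, fun _ => Or.inr h2⟩

theorem not_mem_after (hd : Disjoint S1 S2) (hσ : Pres S1 S2 σ) {m m' : ℕ} (hmm : m < m')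
    (hm : out ω σ x m ∈ cr ω S1 S2 S1 S2)
    (hi : ∀ j, j ≤ m' → out ω σ x j ∉ cr ω S1 S2 S2 S1) : out ω σ x m' ∉ S1 := by
  obtain ⟨i, rfl⟩ : ∃ i, m' = m + i := ⟨m' - m, by omega⟩
  obtain ⟨-, h⟩ := lead_after hσ hm i fun j _ hj => hi _ (by omega)
  rcases h (by omega) with h1 | h1
  · exact fun h2 => Finset.disjoint_left.mp hd h2 h1
  · exact fun h2 => h1 (Finset.mem_union_left _ h2)

/-- `o` is the last point of `S` before `v`. -/
def Back (ω : Equiv.Perm X) (S : Finset X) (v o : X) : Prop :=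
  o ∈ S ∧ ∃ n, (ω ^ (n + 1)) o = v ∧ ∀ i < n, (ω ^ (i + 1)) o ∉ S

theorem Back.unique {S : Finset X} {v o o' : X} (h : Back ω S v o) (h' : Back ω S v o') :
    o = o' := by
  have key : ∀ (o o' : X) (n n' : ℕ), o ∈ S → (ω ^ (n + 1)) o = v → (ω ^ (n' + 1)) o' = v →
      (∀ i < n', (ω ^ (i + 1)) o' ∉ S) → n < n' → False := by
    intro o o' n n' ho h1 h2 h3 hn
    have h4 : (ω ^ (n + 1)) ((ω ^ (n' - n)) o') = (ω ^ (n + 1)) o := by
      rw [h1, ← Equiv.Perm.mul_apply, ← pow_add, show n + 1 + (n' - n) = n' + 1 by omega, h2]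
    have h5 := (ω ^ (n + 1)).injective h4
    refine h3 (n' - n - 1) (by omega) ?_
    rw [show n' - n - 1 + 1 = n' - n by omega, h5]
    exact ho
  obtain ⟨ho, n, h1, h2⟩ := h
  obtain ⟨ho', n', h1', h2'⟩ := h'
  rcases lt_trichotomy n n' with hn | hn | hn
  · exact (key o o' n n' ho h1 h1' h2' hn).elim
  · subst hn
    exact (ω ^ (n + 1)).injective (h1.trans h1'.symm)
  · exact (key o' o n' n ho' h1' h1 h2 hn).elim

theorem exists_back (hσ : Pres S1 S2 σ) (hx : x ∈ S1 ∪ S2) (m : ℕ) :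
    ∃ m' ≤ m, Back ω (S1 ∪ S2) (ω (out ω σ x m)) (out ω σ x m') := by
  induction m with
  | zero => exact ⟨0, le_rfl, hσ.mem hx, 0, by simp, fun i hi => absurd hi (Nat.not_lt_zero i)⟩
  | succ m ih =>
    by_cases h : out ω σ x (m + 1) ∈ S1 ∪ S2
    · exact ⟨m + 1, le_rfl, h, 0, by simp, fun i hi => absurd hi (Nat.not_lt_zero i)⟩
    · have h1 : ω (out ω σ x m) ∉ S1 ∪ S2 := by
        intro h2
        rw [out_succ] at h
        exact h (hσ.mem h2)
      have h2 : out ω σ x (m + 1) = ω (out ω σ x m) := by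
        rw [out_succ, hσ.off _ h1]
      obtain ⟨m', hm', ho, n, h3, h4⟩ := ih
      refine ⟨m', Nat.le_succ_of_le hm', ho, n + 1, ?_, fun i hi => ?_⟩
      · rw [h2, ← h3, pow_succ' ω (n + 1)]
        rfl
      · rcases Nat.lt_succ_iff_lt_or_eq.mp hi with hi | hi
        · exact h4 i hi
        · rw [hi, h3]
          exact h1

/-- The orbit of `x` passes through `v` before it crosses from the second node to the first one. -/
def Pass (ω σ : Equiv.Perm X) (S1 S2 : Finset X) (x v : X) : Prop :=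
  ∃ m, ω (out ω σ x m) = v ∧ ∀ j ≤ m, out ω σ x j ∉ cr ω S1 S2 S2 S1

/-- The same for the out-points. -/
def Pass' (ω σ : Equiv.Perm X) (S1 S2 : Finset X) (x o : X) : Prop :=
  ∃ m, out ω σ x m = o ∧ ∀ j ≤ m, out ω σ x j ∉ cr ω S1 S2 S2 S1

theorem Pass.back (hσ : Pres S1 S2 σ) (hx : x ∈ S1 ∪ S2) {v : X} (h : Pass ω σ S1 S2 x v) :
    ∃ o, Back ω (S1 ∪ S2) v o ∧ Pass' ω σ S1 S2 x o := by
  obtain ⟨m, h1, h2⟩ := h
  obtain ⟨m', hm', h3⟩ := exists_back (ω := ω) hσ hx m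
  rw [h1] at h3
  exact ⟨_, h3, m', rfl, fun j hj => h2 j (hj.trans hm')⟩

theorem Pass'.hit_snd {o : X} (h : Pass' ω σ S1 S2 x o) :
    Hit ω σ x (insert o (cr ω S1 S2 S2 S1)) o := by
  obtain ⟨m, h1, h2⟩ := h
  obtain ⟨m0, hm0, h3, h4⟩ := exists_hit (ω := ω) (σ := σ) (x := x)
    (K := insert o (cr ω S1 S2 S2 S1)) (n := m) (by rw [h1]; exact Finset.mem_insert_self _ _)
  refine ⟨m0, ?_, Finset.mem_insert_self _ _, h4⟩
  rcases Finset.mem_insert.mp h3 with h5 | h5
  · exact h5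
  · exact absurd h5 (h2 m0 hm0)

theorem Pass'.hit_fst (hd : Disjoint S1 S2) (hσ : Pres S1 S2 σ) {o : X} (ho : o ∈ S1)
    (h : Pass' ω σ S1 S2 x o) : Hit ω σ x (insert o (cr ω S1 S2 S1 S2)) o := by
  obtain ⟨m, h1, h2⟩ := h
  obtain ⟨m0, hm0, h3, h4⟩ := exists_hit (ω := ω) (σ := σ) (x := x)
    (K := insert o (cr ω S1 S2 S1 S2)) (n := m) (by rw [h1]; exact Finset.mem_insert_self _ _)
  refine ⟨m0, ?_, Finset.mem_insert_self _ _, h4⟩
  rcases Finset.mem_insert.mp h3 with h5 | h5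
  · exact h5
  · by_contra hne
    have h6 : m0 < m := lt_of_le_of_ne hm0 fun h => hne (by rw [h, h1])
    exact not_mem_after hd hσ h6 h5 h2 (h1 ▸ ho)

end Paths

/-- The law of the product of two uniform shuffles of `S1` and `S2`. -/
structure Law (w : Equiv.Perm X → ℝ) (S1 S2 : Finset X) : Prop where
  nonneg : ∀ σ, 0 ≤ w σ
  sum : ∑ σ, w σ = 1
  pres : ∀ σ, w σ ≠ 0 → Pres S1 S2 σ
  inv1 : Inv w S1
  inv2 : Inv w S2

theorem Inv.mono {w : Equiv.Perm X → ℝ} {K K' : Finset X} (h : Inv w K') (hK : K ⊆ K') :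
    Inv w K := fun k hk k' hk' σ => h k (hK hk) k' (hK hk') σ

section Bound

variable {w : Equiv.Perm X → ℝ} {S1 S2 : Finset X} {ω : Equiv.Perm X} {A : ℝ}

theorem pr_pass'_le (hw : Law w S1 S2) (hd : Disjoint S1 S2)
    (hA1 : A ≤ (cr ω S1 S2 S1 S2).card) (hA2 : A ≤ (cr ω S1 S2 S2 S1).card) (x : X) {o : X}
    (ho : o ∈ S1 ∪ S2) : A * pr w (fun σ => Pass' ω σ S1 S2 x o) ≤ 1 := by
  have key : ∀ K : Finset X, Inv w (insert o K) → A ≤ K.card →
      (∀ σ, w σ ≠ 0 → Pass' ω σ S1 S2 x o → Hit ω σ x (insert o K) o) →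
      A * pr w (fun σ => Pass' ω σ S1 S2 x o) ≤ 1 := by
    intro K hK hA h
    have h1 := card_mul_pr_hit_le hw.nonneg hw.sum hK ω x (Finset.mem_insert_self o K)
    have h2 : pr w (fun σ => Pass' ω σ S1 S2 x o) ≤ pr w (fun σ => Hit ω σ x (insert o K) o) :=
      pr_mono hw.nonneg h
    have h3 : (K.card : ℝ) ≤ ((insert o K).card : ℝ) := by
      exact_mod_cast Finset.card_le_card (Finset.subset_insert o K)
    have h4 := pr_nonneg hw.nonneg (fun σ => Pass' ω σ S1 S2 x o)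
    calc A * pr w (fun σ => Pass' ω σ S1 S2 x o) ≤
        ((insert o K).card : ℝ) * pr w (fun σ => Hit ω σ x (insert o K) o) :=
          mul_le_mul (hA.trans h3) h2 h4 (Nat.cast_nonneg _)
      _ ≤ 1 := h1
  rcases Finset.mem_union.mp ho with h | h
  · refine key (cr ω S1 S2 S1 S2) (hw.inv1.mono ?_) hA1 fun σ h0 h1 =>
      h1.hit_fst hd (hw.pres σ h0) h
    exact Finset.insert_subset h (cr_subset _ _ _ _ _)
  · refine key (cr ω S1 S2 S2 S1) (hw.inv2.mono ?_) hA2 fun σ h0 h1 => h1.hit_snd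
    exact Finset.insert_subset h (cr_subset _ _ _ _ _)

/-- The orbit of a port is unlikely to pass through a given point before the crossing. -/
theorem pr_pass_le (hw : Law w S1 S2) (hd : Disjoint S1 S2)
    (hA1 : A ≤ (cr ω S1 S2 S1 S2).card) (hA2 : A ≤ (cr ω S1 S2 S2 S1).card) {x : X}
    (hx : x ∈ S1 ∪ S2) (v : X) : A * pr w (fun σ => Pass ω σ S1 S2 x v) ≤ 1 := by
  by_cases h : ∃ o, Back ω (S1 ∪ S2) v o
  · obtain ⟨o, ho⟩ := h
    have h1 := pr_pass'_le hw hd hA1 hA2 x ho.1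
    by_cases hA : 0 ≤ A
    · refine le_trans (mul_le_mul_of_nonneg_left (pr_mono hw.nonneg fun σ h0 h2 => ?_) hA) h1
      obtain ⟨o', h3, h4⟩ := h2.back (hw.pres σ h0) hx
      rw [ho.unique h3]
      exact h4
    · push Not at hA
      exact le_trans (mul_nonpos_of_nonpos_of_nonneg hA.le (pr_nonneg hw.nonneg _)) zero_le_one
  · have h1 : pr w (fun σ => Pass ω σ S1 S2 x v) ≤ pr w (fun _ => False) := by
      refine pr_mono hw.nonneg fun σ h0 h2 => ?_
      obtain ⟨o', h3, -⟩ := h2.back (hw.pres σ h0) hx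
      exact h ⟨o', h3⟩
    have h2 : pr w (fun _ => False) = 0 := by
      unfold pr
      simp
    rw [h2] at h1
    rw [le_antisymm h1 (pr_nonneg hw.nonneg _), mul_zero]
    exact zero_le_one

end Bound

end Pool.Agent.Stirring.TN
end

section

/-!
# Two nodes, part T3: the comparison, and the law of the marked points
-/

open Finset

set_option linter.unusedSectionVars false

namespace Pool.Agent.Stirring.TN

open Pool.Agent.Stirring

variable {X : Type*} [Fintype X] [DecidableEq X]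

open Classical in
/-- Exchange of the first points of `K` on the two paths. -/
noncomputable def th (ω : Equiv.Perm X) (K : Finset X) (x y : X) (σ : Equiv.Perm X) :
    Equiv.Perm X :=
  if h : ∃ p : X × X, p.1 ≠ p.2 ∧ Hit ω σ x K p.1 ∧ Hit ω σ y K p.2 then
    Equiv.swap h.choose.1 h.choose.2 * σ else σ

theorem Hit.mem {ω σ : Equiv.Perm X} {x : X} {K : Finset X} {k : X} (h : Hit ω σ x K k) :
    k ∈ K := h.choose_spec.2.1

theorem th_of {ω σ : Equiv.Perm X} {K : Finset X} {x y o o' : X} (h1 : o ≠ o')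
    (h2 : Hit ω σ x K o) (h3 : Hit ω σ y K o') : th ω K x y σ = Equiv.swap o o' * σ := by
  have h : ∃ p : X × X, p.1 ≠ p.2 ∧ Hit ω σ x K p.1 ∧ Hit ω σ y K p.2 := ⟨(o, o'), h1, h2, h3⟩
  unfold th
  rw [dif_pos h]
  obtain ⟨-, h4, h5⟩ := h.choose_spec
  rw [h4.unique h2, h5.unique h3]

theorem th_not {ω σ : Equiv.Perm X} {K : Finset X} {x y : X}
    (h : ¬ ∃ p : X × X, p.1 ≠ p.2 ∧ Hit ω σ x K p.1 ∧ Hit ω σ y K p.2) :
    th ω K x y σ = σ := by
  unfold th
  rw [dif_neg h]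

theorem th_th (ω : Equiv.Perm X) (K : Finset X) (x y : X) (σ : Equiv.Perm X) :
    th ω K x y (th ω K x y σ) = σ := by
  by_cases h : ∃ p : X × X, p.1 ≠ p.2 ∧ Hit ω σ x K p.1 ∧ Hit ω σ y K p.2
  · obtain ⟨⟨o, o'⟩, h1, h2, h3⟩ := h
    rw [th_of h1 h2 h3]
    have h4 : Hit ω (Equiv.swap o o' * σ) x K o' := h2.swap h3.mem
    have h5 : Hit ω (Equiv.swap o o' * σ) y K o := by
      rw [Equiv.swap_comm]
      exact h3.swap h2.mem
    rw [th_of (Ne.symm h1) h4 h5, Equiv.swap_comm, ← mul_assoc, Equiv.swap_mul_self, one_mul]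
  · rw [th_not h, th_not h]

theorem w_th {w : Equiv.Perm X → ℝ} {K : Finset X} (hK : Inv w K) (ω : Equiv.Perm X) (x y : X)
    (σ : Equiv.Perm X) : w (th ω K x y σ) = w σ := by
  by_cases h : ∃ p : X × X, p.1 ≠ p.2 ∧ Hit ω σ x K p.1 ∧ Hit ω σ y K p.2
  · obtain ⟨⟨o, o'⟩, h1, h2, h3⟩ := h
    rw [th_of h1 h2 h3]
    exact hK o h2.mem o' h3.mem σ
  · rw [th_not h]

theorem sum_th {w : Equiv.Perm X → ℝ} {K : Finset X} (hK : Inv w K) (ω : Equiv.Perm X) (x y : X)
    (f : Equiv.Perm X → ℝ) : ∑ σ, w σ * f (th ω K x y σ) = ∑ σ, w σ * f σ := by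
  refine Finset.sum_nbij' (th ω K x y) (th ω K x y) (fun _ _ => Finset.mem_univ _)
    (fun _ _ => Finset.mem_univ _) (fun σ _ => th_th ω K x y σ) (fun σ _ => th_th ω K x y σ)
    (fun σ _ => by rw [w_th hK])

section Good

variable {ω σ : Equiv.Perm X} {S1 S2 : Finset X}

theorem pass_of_eq {x v : X} {m : ℕ} (h : ((ω * σ) ^ (m + 1)) x = v)
    (h' : ∀ j ≤ m, out ω σ x j ∉ cr ω S1 S2 S2 S1) : Pass ω σ S1 S2 x v :=
  ⟨m, by rw [← orb_succ, h], h'⟩

theorem exists_first {x : X} (h : ¬ Pass ω σ S1 S2 x x) :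
    ∃ n, out ω σ x n ∈ cr ω S1 S2 S2 S1 ∧ ∀ j < n, out ω σ x j ∉ cr ω S1 S2 S2 S1 := by
  have h1 : ∃ n, out ω σ x n ∈ cr ω S1 S2 S2 S1 := by
    by_contra hcon
    push Not at hcon
    refine h (pass_of_eq (m := orderOf (ω * σ) - 1) ?_ fun j _ => hcon j)
    rw [Nat.sub_add_cancel (orderOf_pos (ω * σ)), pow_orderOf_eq_one]
    rfl
  obtain ⟨n, hn⟩ := h1
  obtain ⟨m, -, h2, h3⟩ := exists_hit hn
  exact ⟨m, h2, h3⟩

theorem orb_ne {x y : X} {n m : ℕ} (hxy : x ≠ y) (h1 : ¬ Pass ω σ S1 S2 x y)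
    (h2 : ¬ Pass ω σ S1 S2 y x) (hn : ∀ j < n, out ω σ x j ∉ cr ω S1 S2 S2 S1)
    (hm : ∀ j < m, out ω σ y j ∉ cr ω S1 S2 S2 S1) :
    ∀ i ≤ n, ∀ j ≤ m, ((ω * σ) ^ i) x ≠ ((ω * σ) ^ j) y := by
  intro i hi j hj he
  rcases lt_trichotomy i j with h | h | h
  · have h3 : ((ω * σ) ^ i) x = ((ω * σ) ^ i) (((ω * σ) ^ (j - i)) y) := by
      rw [he, ← Equiv.Perm.mul_apply, ← pow_add, show i + (j - i) = j by omega]
    have h4 := ((ω * σ) ^ i).injective h3
    refine h2 (pass_of_eq (m := j - i - 1) ?_ fun k hk => hm k (by omega))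
    rw [show j - i - 1 + 1 = j - i by omega]
    exact h4.symm
  · subst h
    exact hxy (((ω * σ) ^ i).injective he)
  · have h3 : ((ω * σ) ^ j) (((ω * σ) ^ (i - j)) x) = ((ω * σ) ^ j) y := by
      rw [← he, ← Equiv.Perm.mul_apply, ← pow_add, show j + (i - j) = i by omega]
    have h4 := ((ω * σ) ^ j).injective h3
    refine h1 (pass_of_eq (m := i - j - 1) ?_ fun k hk => hn k (by omega))
    rw [show i - j - 1 + 1 = i - j by omega]
    exact h4

/-- If the two paths do not meet the marked points, the exchange of the images of `x` and `y` has the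
same effect on the marked points as the exchange of the crossings. -/
theorem sameCycle_th {ι : Type*} {z : ι → X} {x y : X} (hxy : x ≠ y)
    (hx : ∃ i, z i = x) (hy : ∃ j, z j = y)
    (h : ∀ b, ¬ Pass ω σ S1 S2 x (z b) ∧ ¬ Pass ω σ S1 S2 y (z b)) (a b : ι) :
    (ω * σ * Equiv.swap x y).SameCycle (z a) (z b) ↔
      (ω * th ω (cr ω S1 S2 S2 S1) x y σ).SameCycle (z a) (z b) := by
  obtain ⟨i, rfl⟩ := hx
  obtain ⟨j, rfl⟩ := hy
  obtain ⟨n, h1, h2⟩ := exists_first (h i).1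
  obtain ⟨m, h3, h4⟩ := exists_first (h j).2
  have h5 := orb_ne hxy (h j).1 (h i).2 h2 h4
  have h6 : ((ω * σ) ^ n) (z i) ≠ ((ω * σ) ^ m) (z j) := h5 n le_rfl m le_rfl
  have h7 : th ω (cr ω S1 S2 S2 S1) (z i) (z j) σ =
      Equiv.swap (out ω σ (z i) n) (out ω σ (z j) m) * σ := by
    refine th_of ?_ ⟨n, rfl, h1, h2⟩ ⟨m, rfl, h3, h4⟩
    rw [out_eq, out_eq]
    exact fun h => h6 (σ.injective h)
  have h8 : ω * th ω (cr ω S1 S2 S2 S1) (z i) (z j) σ =
      ω * σ * Equiv.swap (((ω * σ) ^ n) (z i)) (((ω * σ) ^ m) (z j)) := by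
    rw [h7, out_eq, out_eq, mul_assoc, Equiv.mul_swap_eq_swap_mul]
  have key : ∀ (x : X) (n : ℕ), (∀ j < n, out ω σ x j ∉ cr ω S1 S2 S2 S1) → ∀ v,
      ¬ Pass ω σ S1 S2 x v → ∀ i < n, v ≠ ((ω * σ) ^ (i + 1)) x := by
    intro x n hn v hv i hi he
    exact hv (pass_of_eq he.symm fun k hk => hn k (by omega))
  rw [h8]
  exact move_both (ω * σ) n m h5 (key _ n h2 _ (h a).1) (key _ n h2 _ (h b).1)
    (key _ m h4 _ (h a).2) (key _ m h4 _ (h b).2)

end Good

/-- THE COMPARISON FOR TWO NODES. The product `ω σ` of a fixed permutation and of uniform shuffles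
`σ` of the disjoint sets `S1` and `S2`, marked points `z` with `z i ∈ S1` and `z j ∈ S2`; `A` is at
most the number of the crossings. The exchange of the images of `z i` and `z j` changes the
expectation of a function of the pattern of the marked points by at most `2 |ι| / A`. -/
theorem two_node {ι : Type*} [Fintype ι] {w : Equiv.Perm X → ℝ} {S1 S2 : Finset X}
    (hw : Law w S1 S2) (hd : Disjoint S1 S2) {ω : Equiv.Perm X} {A : ℝ} (hA : 0 < A)
    (hA1 : A ≤ (cr ω S1 S2 S1 S2).card) (hA2 : A ≤ (cr ω S1 S2 S2 S1).card) {z : ι → X} {i j : ι}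
    (hi : z i ∈ S1) (hj : z j ∈ S2) {F : Equiv.Perm X → ℝ} (hF0 : ∀ η, 0 ≤ F η)
    (hF1 : ∀ η, F η ≤ 1)
    (hF : ∀ η η' : Equiv.Perm X, (∀ a b, η.SameCycle (z a) (z b) ↔ η'.SameCycle (z a) (z b)) →
      F η = F η') :
    |∑ σ, w σ * F (ω * σ * Equiv.swap (z i) (z j)) - ∑ σ, w σ * F (ω * σ)| ≤
      2 * Fintype.card ι / A := by
  classical
  have hxy : z i ≠ z j := fun h => Finset.disjoint_left.mp hd hi (h ▸ hj)
  set K := cr ω S1 S2 S2 S1 with hK
  have hKinv : Inv w K := hw.inv2.mono (cr_subset _ _ _ _ _)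
  rw [← sum_th hKinv ω (z i) (z j) (fun σ => F (ω * σ)), ← Finset.sum_sub_distrib]
  set B : Equiv.Perm X → Prop := fun σ => ∃ b ∈ (Finset.univ : Finset ι),
    (Pass ω σ S1 S2 (z i) (z b) ∨ Pass ω σ S1 S2 (z j) (z b)) with hB
  have h1 : ∀ σ, |w σ * F (ω * σ * Equiv.swap (z i) (z j)) -
      w σ * F (ω * th ω K (z i) (z j) σ)| ≤ if B σ then w σ else 0 := by
    intro σ
    rw [← mul_sub, abs_mul, abs_of_nonneg (hw.nonneg σ)]
    by_cases hBσ : B σ
    · rw [if_pos hBσ]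
      refine mul_le_of_le_one_right (hw.nonneg σ) ?_
      rw [abs_le]
      have e1 := hF0 (ω * σ * Equiv.swap (z i) (z j))
      have e2 := hF1 (ω * σ * Equiv.swap (z i) (z j))
      have e3 := hF0 (ω * th ω K (z i) (z j) σ)
      have e4 := hF1 (ω * th ω K (z i) (z j) σ)
      constructor <;> linarith
    · rw [if_neg hBσ, hF _ (ω * th ω K (z i) (z j) σ), sub_self, abs_zero, mul_zero]
      intro a b
      refine sameCycle_th hxy ⟨i, rfl⟩ ⟨j, rfl⟩ (fun c => ⟨fun h => ?_, fun h => ?_⟩) a b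
      · exact hBσ ⟨c, Finset.mem_univ c, Or.inl h⟩
      · exact hBσ ⟨c, Finset.mem_univ c, Or.inr h⟩
  refine (Finset.abs_sum_le_sum_abs _ _).trans ((Finset.sum_le_sum fun σ _ => h1 σ).trans ?_)
  have h2 : (∑ σ, if B σ then w σ else 0) = pr w B := by
    unfold pr
    refine Finset.sum_congr rfl fun σ _ => ?_
    by_cases hBσ : B σ
    · rw [if_pos hBσ, if_pos hBσ]
    · rw [if_neg hBσ, if_neg hBσ]
  rw [h2]
  have h3 : ∀ b, pr w (fun σ => Pass ω σ S1 S2 (z i) (z b) ∨ Pass ω σ S1 S2 (z j) (z b)) ≤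
      2 / A := by
    intro b
    have e1 := pr_pass_le hw hd hA1 hA2 (Finset.mem_union_left S2 hi) (z b)
    have e2 := pr_pass_le hw hd hA1 hA2 (Finset.mem_union_right S1 hj) (z b)
    have e3 := pr_or_le hw.nonneg (fun σ => Pass ω σ S1 S2 (z i) (z b))
      (fun σ => Pass ω σ S1 S2 (z j) (z b))
    rw [le_div_iff₀ hA]
    nlinarith
  refine (pr_exists_le hw.nonneg Finset.univ _).trans ((Finset.sum_le_sum fun b _ => h3 b).trans ?_)
  rw [Finset.sum_const, Finset.card_univ, nsmul_eq_mul]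
  apply le_of_eq
  ring

/-! ### From the comparison to the law -/

section Ewens

variable {ι : Type*} [Fintype ι] [DecidableEq ι]

theorem pat_inv {σ : Equiv.Perm X} {z : ι → X} {τ : Equiv.Perm ι} :
    Pat σ⁻¹ z τ ↔ Pat σ z τ := by
  unfold Pat
  simp only [Equiv.Perm.sameCycle_inv]

open Classical in
/-- The pattern indicator. -/
noncomputable def pI (τ : Equiv.Perm ι) (z : ι → X) (η : Equiv.Perm X) : ℝ :=
  if Pat η z τ then 1 else 0

theorem pI_nonneg (τ : Equiv.Perm ι) (z : ι → X) (η : Equiv.Perm X) : 0 ≤ pI τ z η := by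
  unfold pI
  split_ifs
  · exact zero_le_one
  · exact le_rfl

theorem pI_le_one (τ : Equiv.Perm ι) (z : ι → X) (η : Equiv.Perm X) : pI τ z η ≤ 1 := by
  unfold pI
  split_ifs
  · exact le_rfl
  · exact zero_le_one

theorem pI_congr (τ : Equiv.Perm ι) (z : ι → X) (η η' : Equiv.Perm X)
    (h : ∀ a b, η.SameCycle (z a) (z b) ↔ η'.SameCycle (z a) (z b)) : pI τ z η = pI τ z η' := by
  classical
  have h1 : Pat η z τ ↔ Pat η' z τ := by
    unfold Pat
    simp only [h]
  unfold pI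
  by_cases h2 : Pat η z τ
  · rw [if_pos h2, if_pos (h1.mp h2)]
  · rw [if_neg h2, if_neg fun h3 => h2 (h1.mpr h3)]

theorem pI_swap (σ : Equiv.Perm X) (z : ι → X) {i j : ι} (hij : i ≠ j) (hz : z i ≠ z j)
    {τ : Equiv.Perm ι} (hτ : τ.SameCycle i j) :
    pI τ z (σ * Equiv.swap (z i) (z j)) =
      ∑ τ' ∈ relCl τ, pI (Equiv.swap i j * τ') z σ / (relCl (Equiv.swap i j * τ')).card := by
  classical
  have h1 : pI τ z (σ * Equiv.swap (z i) (z j)) = pI τ z (Equiv.swap (z i) (z j) * σ⁻¹) :=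
    pI_congr τ z _ _ fun a b => sameCycle_mul_swap σ (z a) (z b)
  rw [h1]
  unfold pI
  rw [pat_swap σ⁻¹ z hij hz hτ]
  refine Finset.sum_congr rfl fun τ' _ => ?_
  by_cases h : Pat σ z (Equiv.swap i j * τ')
  · rw [if_pos (pat_inv.mpr h), if_pos h, one_div]
  · rw [if_neg (fun h' => h (pat_inv.mp h')), if_neg h, zero_div]

/-- If the exchange of the images of two marked points changes the probabilities of the patterns by
at most `e`, then the patterns have approximately the law of a uniform permutation. -/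
theorem ewens_of_right {Ω : Type*} [Fintype Ω] {μ : Ω → ℝ} (hμ : ∑ s, μ s = 1)
    {η : Ω → Equiv.Perm X} {z : ι → X} (hz : Function.Injective z) {e : ℝ} (he : 0 ≤ e)
    (h : ∀ (τ : Equiv.Perm ι) (i j : ι), i ≠ j →
      |∑ s, μ s * pI τ z (η s * Equiv.swap (z i) (z j)) - ∑ s, μ s * pI τ z (η s)| ≤ e)
    (τ : Equiv.Perm ι) :
    |∑ s, μ s * pI τ z (η s) - (relCl τ).card / ((Fintype.card ι).factorial : ℝ)| ≤
      2 * (Fintype.card ι : ℝ) ^ 2 * ((Fintype.card ι).factorial : ℝ) * e := by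
  classical
  refine ewens_of_approx (Q := fun τ => ∑ s, μ s * pI τ z (η s)) he ?_ ?_ τ
  · simp only [Finset.sum_div]
    rw [Finset.sum_comm, ← hμ]
    refine Finset.sum_congr rfl fun s _ => ?_
    have h1 := sum_pat_weight (η s) z
    have h2 : ∑ τ, μ s * pI τ z (η s) / (relCl τ).card =
        μ s * ∑ τ : Equiv.Perm ι, (if Pat (η s) z τ then ((relCl τ).card : ℝ)⁻¹ else 0) := by
      rw [Finset.mul_sum]
      refine Finset.sum_congr rfl fun τ _ => ?_
      unfold pI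
      split_ifs
      · rw [mul_one, div_eq_mul_inv]
      · simp
    rw [h2, h1, mul_one]
  · intro τ i j hij hτ
    have h1 : ∑ s, μ s * pI τ z (η s * Equiv.swap (z i) (z j)) =
        ∑ τ' ∈ relCl τ, (∑ s, μ s * pI (Equiv.swap i j * τ') z (η s)) /
          (relCl (Equiv.swap i j * τ')).card := by
      simp only [Finset.sum_div]
      rw [Finset.sum_comm]
      refine Finset.sum_congr rfl fun s _ => ?_
      rw [pI_swap (η s) z hij (fun h => hij (hz h)) hτ, Finset.mul_sum]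
      refine Finset.sum_congr rfl fun τ' _ => ?_
      rw [mul_div_assoc]
    have h2 := h τ i j hij
    rw [h1, abs_sub_comm] at h2
    exact h2

end Ewens

end Pool.Agent.Stirring.TN
end
end

section

/-!
# Two nodes, part T4: averages over shuffles, and the number of the crossings
-/

open Finset

set_option linter.unusedSectionVars false

namespace Pool.Agent.Stirring.TN

open Pool.Agent.Stirring

variable {X : Type*} [Fintype X] [DecidableEq X]

/-! ### The uniform shuffles of a finset -/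

/-- The permutations of `A` (the identity outside `A`). -/
def permsOn (A : Finset X) : Finset (Equiv.Perm X) := univ.filter fun σ => ∀ c, c ∉ A → σ c = c

theorem mem_permsOn {A : Finset X} {σ : Equiv.Perm X} :
    σ ∈ permsOn A ↔ ∀ c, c ∉ A → σ c = c := by
  simp [permsOn]

theorem card_permsOn (A : Finset X) : (permsOn A).card = A.card.factorial := by
  classical
  have h1 : (permsOn A).card = Fintype.card {f : Equiv.Perm X // ∀ a, ¬ (a ∈ A) → f a = a} := by
    rw [Fintype.card_subtype]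
    rfl
  rw [h1, ← Fintype.card_congr (Equiv.Perm.subtypeEquivSubtypePerm fun a => a ∈ A),
    Fintype.card_perm, Fintype.card_coe]

theorem mem_of_permsOn {A : Finset X} {σ : Equiv.Perm X} (h : σ ∈ permsOn A) {c : X}
    (hc : c ∈ A) : σ c ∈ A := by
  by_contra h1
  have h2 := mem_permsOn.mp h _ h1
  have h3 := σ.injective h2
  rw [h3] at h1
  exact h1 hc

theorem swap_mul_mem {A : Finset X} {σ : Equiv.Perm X} {k k' : X} (hk : k ∈ A) (hk' : k' ∈ A) :
    Equiv.swap k k' * σ ∈ permsOn A ↔ σ ∈ permsOn A := by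
  have key : ∀ σ : Equiv.Perm X, σ ∈ permsOn A → Equiv.swap k k' * σ ∈ permsOn A := by
    intro σ h
    rw [mem_permsOn] at h ⊢
    intro c hc
    have h1 : c ≠ k := by
      rintro rfl
      exact hc hk
    have h2 : c ≠ k' := by
      rintro rfl
      exact hc hk'
    rw [Equiv.Perm.mul_apply, h c hc, Equiv.swap_apply_of_ne_of_ne h1 h2]
  refine ⟨fun h => ?_, key σ⟩
  have h1 := key _ h
  rwa [← mul_assoc, Equiv.swap_mul_self, one_mul] at h1

/-- The law of the product of two uniform shuffles. -/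
noncomputable def w2 (S1 S2 : Finset X) (σ : Equiv.Perm X) : ℝ :=
  (∑ σ1 ∈ permsOn S1, ∑ σ2 ∈ permsOn S2, if σ1 * σ2 = σ then 1 else 0) /
    ((S1.card.factorial : ℝ) * (S2.card.factorial : ℝ))

theorem sum_w2 (S1 S2 : Finset X) (G : Equiv.Perm X → ℝ) :
    ∑ σ, w2 S1 S2 σ * G σ = (∑ σ1 ∈ permsOn S1, ∑ σ2 ∈ permsOn S2, G (σ1 * σ2)) /
      ((S1.card.factorial : ℝ) * (S2.card.factorial : ℝ)) := by
  unfold w2
  simp only [div_mul_eq_mul_div, Finset.sum_mul]
  rw [← Finset.sum_div, Finset.sum_comm]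
  congr 1
  refine Finset.sum_congr rfl fun σ1 _ => ?_
  rw [Finset.sum_comm]
  refine Finset.sum_congr rfl fun σ2 _ => ?_
  simp

theorem law_w2 {S1 S2 : Finset X} (hd : Disjoint S1 S2) : Law (w2 S1 S2) S1 S2 := by
  have hf : (0 : ℝ) < (S1.card.factorial : ℝ) * (S2.card.factorial : ℝ) := by positivity
  refine ⟨fun σ => ?_, ?_, fun σ hσ => ?_, ?_, ?_⟩
  · unfold w2
    refine div_nonneg (Finset.sum_nonneg fun _ _ => Finset.sum_nonneg fun _ _ => ?_) hf.le
    split_ifs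
    · exact zero_le_one
    · exact le_rfl
  · have h1 := sum_w2 S1 S2 (fun _ => 1)
    simp only [mul_one] at h1
    rw [h1]
    simp only [Finset.sum_const, nsmul_eq_mul, mul_one, card_permsOn]
    exact div_self hf.ne'
  · have h1 : ∃ σ1 ∈ permsOn S1, ∃ σ2 ∈ permsOn S2, σ1 * σ2 = σ := by
      by_contra hcon
      push Not at hcon
      apply hσ
      unfold w2
      rw [Finset.sum_eq_zero fun σ1 h1 => Finset.sum_eq_zero fun σ2 h2 => if_neg (hcon σ1 h1 σ2 h2),
        zero_div]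
    obtain ⟨σ1, h1, σ2, h2, rfl⟩ := h1
    refine ⟨fun c hc => ?_, fun c hc => ?_, fun c hc => ?_⟩
    · rw [Equiv.Perm.mul_apply,
        mem_permsOn.mp h2 c (fun h => Finset.disjoint_left.mp hd hc h)]
      exact mem_of_permsOn h1 hc
    · have h3 := mem_of_permsOn h2 hc
      rw [Equiv.Perm.mul_apply, mem_permsOn.mp h1 _ (fun h => Finset.disjoint_left.mp hd h h3)]
      exact h3
    · have h3 : c ∉ S2 := fun h => hc (Finset.mem_union_right _ h)
      have h4 : c ∉ S1 := fun h => hc (Finset.mem_union_left _ h)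
      rw [Equiv.Perm.mul_apply, mem_permsOn.mp h2 c h3, mem_permsOn.mp h1 c h4]
  · intro k hk k' hk' σ
    unfold w2
    congr 1
    refine Finset.sum_bij' (fun σ1 _ => Equiv.swap k k' * σ1) (fun σ1 _ => Equiv.swap k k' * σ1)
      (fun σ1 h => (swap_mul_mem hk hk').mpr h) (fun σ1 h => (swap_mul_mem hk hk').mpr h)
      (fun σ1 _ => by rw [← mul_assoc, Equiv.swap_mul_self, one_mul])
      (fun σ1 _ => by rw [← mul_assoc, Equiv.swap_mul_self, one_mul]) (fun σ1 _ => ?_)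
    refine Finset.sum_congr rfl fun σ2 _ => ?_
    have e : σ1 * σ2 = Equiv.swap k k' * σ ↔ Equiv.swap k k' * σ1 * σ2 = σ := by
      constructor
      · intro h
        rw [mul_assoc, h, ← mul_assoc, Equiv.swap_mul_self, one_mul]
      · intro h
        rw [← h, mul_assoc, ← mul_assoc, Equiv.swap_mul_self, one_mul]
    by_cases h : σ1 * σ2 = Equiv.swap k k' * σ
    · rw [if_pos h, if_pos (e.mp h)]
    · rw [if_neg h, if_neg fun h' => h (e.mpr h')]
  · intro k hk k' hk' σ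
    unfold w2
    congr 1
    refine Finset.sum_congr rfl fun σ1 h1 => ?_
    have hcomm : Equiv.swap k k' * σ1 = σ1 * Equiv.swap k k' := by
      have e1 := mem_permsOn.mp h1 k (fun h => Finset.disjoint_left.mp hd h hk)
      have e2 := mem_permsOn.mp h1 k' (fun h => Finset.disjoint_left.mp hd h hk')
      rw [Equiv.mul_swap_eq_swap_mul, e1, e2]
    refine Finset.sum_bij' (fun σ2 _ => Equiv.swap k k' * σ2) (fun σ2 _ => Equiv.swap k k' * σ2)
      (fun σ2 h => (swap_mul_mem hk hk').mpr h) (fun σ2 h => (swap_mul_mem hk hk').mpr h)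
      (fun σ2 _ => by rw [← mul_assoc, Equiv.swap_mul_self, one_mul])
      (fun σ2 _ => by rw [← mul_assoc, Equiv.swap_mul_self, one_mul]) (fun σ2 _ => ?_)
    have e : σ1 * σ2 = Equiv.swap k k' * σ ↔ σ1 * (Equiv.swap k k' * σ2) = σ := by
      constructor
      · intro h
        rw [← mul_assoc, ← hcomm, mul_assoc, h, ← mul_assoc, Equiv.swap_mul_self, one_mul]
      · intro h
        rw [← h, ← mul_assoc σ1, ← hcomm, mul_assoc, ← mul_assoc, Equiv.swap_mul_self, one_mul]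
    by_cases h : σ1 * σ2 = Equiv.swap k k' * σ
    · rw [if_pos h, if_pos (e.mp h)]
    · rw [if_neg h, if_neg fun h' => h (e.mpr h')]

/-! ### First return maps -/

/-- `ν` is the first return map of `ω` to `S`, extended by the identity. -/
structure FR (ω ν : Equiv.Perm X) (S : Finset X) : Prop where
  off : ∀ c, c ∉ S → ν c = c
  on : ∀ c ∈ S, ν c ∈ S ∧ ∃ n, (ω ^ (n + 1)) c = ν c ∧ ∀ m < n, (ω ^ (m + 1)) c ∉ S

theorem FR.lead_iff {ω ν : Equiv.Perm X} {S T : Finset X} (h : FR ω ν S) (hT : T ⊆ S) {c : X}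
    (hc : c ∈ S) : Lead ω S T c ↔ ν c ∈ T := by
  obtain ⟨h1, n, h2, h3⟩ := h.on c hc
  constructor
  · rintro ⟨m, h4, h5⟩
    rcases lt_trichotomy n m with hn | hn | hn
    · exact absurd (h2 ▸ h1) (h5 n hn)
    · subst hn
      rw [← h2]
      exact h4
    · exact absurd (hT h4) (h3 m hn)
  · intro h4
    exact ⟨n, by rw [h2]; exact h4, h3⟩

/-- The number of the strands from `S` to `T`. -/
def nstr (ν : Equiv.Perm X) (S T : Finset X) : ℕ := (S.filter fun c => ν c ∈ T).card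

theorem FR.card_cr {ω ν : Equiv.Perm X} {S1 S2 S T : Finset X} (h : FR ω ν (S1 ∪ S2))
    (hS : S ⊆ S1 ∪ S2) (hT : T ⊆ S1 ∪ S2) : (cr ω S1 S2 S T).card = nstr ν S T := by
  unfold nstr
  congr 1
  ext c
  rw [mem_cr, Finset.mem_filter]
  constructor
  · rintro ⟨h1, h2⟩
    exact ⟨h1, (h.lead_iff hT (hS h1)).mp h2⟩
  · rintro ⟨h1, h2⟩
    exact ⟨h1, (h.lead_iff hT (hS h1)).mpr h2⟩

/-- There are as many strands from `S1` to `S2` as from `S2` to `S1`. -/
theorem nstr_symm {ν : Equiv.Perm X} {S1 S2 : Finset X} (hd : Disjoint S1 S2)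
    (hν : ∀ c ∈ S1 ∪ S2, ν c ∈ S1 ∪ S2) : nstr ν S1 S2 = nstr ν S2 S1 := by
  have h1 : ∀ c ∈ S1 ∪ S2, (ν c ∈ S2 ↔ ν c ∉ S1) := by
    intro c hc
    rcases Finset.mem_union.mp (hν c hc) with h | h
    · exact ⟨fun h2 => absurd h2 (Finset.disjoint_left.mp hd h), fun h2 => absurd h h2⟩
    · exact ⟨fun _ => Finset.disjoint_right.mp hd h, fun _ => h⟩
  -- `ν` is a bijection of the points of `S1 ∪ S2` with image in `S1` to `S1`
  have h2 : ((S1 ∪ S2).filter fun c => ν c ∈ S1).card = S1.card := by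
    have hsurj : (S1 ∪ S2).image ν = S1 ∪ S2 := by
      refine Finset.eq_of_subset_of_card_le ?_ ?_
      · intro c hc
        obtain ⟨c', h3, rfl⟩ := Finset.mem_image.mp hc
        exact hν c' h3
      · rw [Finset.card_image_of_injective _ ν.injective]
    refine Finset.card_bij (fun c _ => ν c) (fun c hc => (Finset.mem_filter.mp hc).2)
      (fun c _ c' _ h => ν.injective h) (fun c hc => ?_)
    have h3 : c ∈ (S1 ∪ S2).image ν := by
      rw [hsurj]
      exact Finset.mem_union_left _ hc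
    obtain ⟨c', h4, rfl⟩ := Finset.mem_image.mp h3
    exact ⟨c', Finset.mem_filter.mpr ⟨h4, hc⟩, rfl⟩
  have h3 : ((S1 ∪ S2).filter fun c => ν c ∈ S1).card =
      (S1.filter fun c => ν c ∈ S1).card + (S2.filter fun c => ν c ∈ S1).card := by
    rw [Finset.filter_union, Finset.card_union_of_disjoint]
    exact Finset.disjoint_filter_filter hd
  have h4 : (S1.filter fun c => ν c ∈ S1).card + (S1.filter fun c => ¬ ν c ∈ S1).card =
      S1.card := Finset.card_filter_add_card_filter_not _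
  have h5 : nstr ν S1 S2 = (S1.filter fun c => ¬ ν c ∈ S1).card := by
    unfold nstr
    congr 1
    exact Finset.filter_congr fun c hc => h1 c (Finset.mem_union_left _ hc)
  rw [h5]
  unfold nstr
  omega

theorem FR.trans {φ ψ ν : Equiv.Perm X} {S S' : Finset X} (h : FR φ ψ S) (h' : FR ψ ν S')
    (hS : S' ⊆ S) : FR φ ν S' := by
  refine ⟨h'.off, fun c hc => ?_⟩
  obtain ⟨h1, n, h2, h3⟩ := h'.on c hc
  refine ⟨h1, ?_⟩
  rw [← h2]
  have key : ∀ n, (∀ m < n, (ψ ^ (m + 1)) c ∉ S') → (ψ ^ (n + 1)) c ∈ S ∧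
      ∃ N, (φ ^ (N + 1)) c = (ψ ^ (n + 1)) c ∧ ∀ m < N, (φ ^ (m + 1)) c ∉ S' := by
    intro n
    induction n with
    | zero =>
      intro _
      obtain ⟨h4, N, h5, h6⟩ := h.on c (hS hc)
      refine ⟨by simpa using h4, N, by simpa using h5, fun m hm h7 => h6 m hm (hS h7)⟩
    | succ n ih =>
      intro hn
      obtain ⟨h4, N, h5, h6⟩ := ih fun m hm => hn m (Nat.lt_succ_of_lt hm)
      obtain ⟨h7, M, h8, h9⟩ := h.on _ h4
      have e : (ψ ^ (n + 1 + 1)) c = ψ ((ψ ^ (n + 1)) c) := by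
        rw [pow_succ' ψ (n + 1)]
        rfl
      have e2 : ∀ m, (φ ^ (m + 1 + (N + 1))) c = (φ ^ (m + 1)) ((ψ ^ (n + 1)) c) := by
        intro m
        rw [pow_add, Equiv.Perm.mul_apply, h5]
      refine ⟨by rw [e]; exact h7, M + 1 + N, ?_, fun m hm => ?_⟩
      · rw [show M + 1 + N + 1 = M + 1 + (N + 1) by omega, e2, h8, e]
      · rcases lt_trichotomy m N with h10 | h10 | h10
        · exact h6 m h10
        · rw [h10, h5]
          exact hn n (Nat.lt_succ_self n)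
        · obtain ⟨i, rfl⟩ : ∃ i, m = i + (N + 1) := ⟨m - (N + 1), by omega⟩
          rw [show i + (N + 1) + 1 = i + 1 + (N + 1) by omega, e2]
          exact fun h11 => h9 i (by omega) (hS h11)
  exact (key n h3).2

theorem fr_rem (φ : Equiv.Perm X) (a : X) : FR φ (rem φ a) ({a}ᶜ) := by
  refine ⟨fun c hc => ?_, fun c hc => ?_⟩
  · have h1 : c = a := by simpa using hc
    rw [h1]
    exact rem_apply φ a
  · have h1 : c ≠ a := by simpa using hc
    have h2 : rem φ a c ≠ a := by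
      intro h
      exact h1 ((rem φ a).injective (h.trans (rem_apply φ a).symm))
    refine ⟨by simpa using h2, ?_⟩
    by_cases h3 : φ c = a
    · have h4 : φ⁻¹ a = c := by rw [Equiv.Perm.inv_eq_iff_eq, h3]
      have h5 : rem φ a c = φ a := by
        unfold rem
        rw [h4, Equiv.Perm.mul_apply, Equiv.swap_apply_left]
      refine ⟨1, ?_, fun m hm => ?_⟩
      · rw [h5, pow_succ', pow_one, Equiv.Perm.mul_apply, h3]
      · have : m = 0 := by omega
        subst this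
        simpa using h3
    · have h4 : φ⁻¹ a ≠ c := fun h => h3 (by rw [← h]; exact φ.apply_symm_apply a)
      have h5 : rem φ a c = φ c := by
        unfold rem
        rw [Equiv.Perm.mul_apply, Equiv.swap_apply_of_ne_of_ne (Ne.symm h4) h1]
      exact ⟨0, by simpa using h5.symm, fun m hm => absurd hm (Nat.not_lt_zero m)⟩

/-- THE COMPARISON FOR TWO NODES, for averages over shuffles; `ν` is the wiring (the first return map
to `S1 ∪ S2`). -/
theorem two_node_avg {ι : Type*} [Fintype ι] {S1 S2 : Finset X} (hd : Disjoint S1 S2)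
    {ω ν : Equiv.Perm X} (hν : FR ω ν (S1 ∪ S2)) {A : ℝ} (hA : 0 < A) (hA1 : A ≤ nstr ν S1 S2)
    {z : ι → X} {i j : ι} (hi : z i ∈ S1) (hj : z j ∈ S2) {F : Equiv.Perm X → ℝ}
    (hF0 : ∀ η, 0 ≤ F η) (hF1 : ∀ η, F η ≤ 1)
    (hF : ∀ η η' : Equiv.Perm X, (∀ a b, η.SameCycle (z a) (z b) ↔ η'.SameCycle (z a) (z b)) →
      F η = F η') :
    |(∑ σ1 ∈ permsOn S1, ∑ σ2 ∈ permsOn S2,
        (F (ω * σ1 * σ2 * Equiv.swap (z i) (z j)) - F (ω * σ1 * σ2))) /
      ((S1.card.factorial : ℝ) * (S2.card.factorial : ℝ))| ≤ 2 * Fintype.card ι / A := by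
  have h1 := two_node (law_w2 hd) hd (ω := ω) hA
    (by rw [hν.card_cr Finset.subset_union_left Finset.subset_union_right]; exact hA1)
    (by
      rw [hν.card_cr Finset.subset_union_right Finset.subset_union_left,
        ← nstr_symm hd fun c hc => (hν.on c hc).1]
      exact hA1) hi hj hF0 hF1 hF
  rw [sum_w2 S1 S2 (fun σ => F (ω * σ * Equiv.swap (z i) (z j))), sum_w2 S1 S2 (fun σ => F (ω * σ)),
    ← sub_div, ← Finset.sum_sub_distrib] at h1
  simp only [← Finset.sum_sub_distrib, ← mul_assoc] at h1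
  exact h1

end Pool.Agent.Stirring.TN
end
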