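import Pool.Agent.Lib.MP_6c3d62_pr.PL.NP4
import Pool.Agent.Lib.MP_6c3d62_pr.Mg.G064
import Pool.Agent.Lib.MP_6c3d62_pr.Mg.G073

section

/-! T10. One node. T11. The choice of the node. -/

set_option autoImplicit false
set_option linter.unusedSectionVars false

open Finset

namespace Pool.Agent.PL

/-- One pair `(y, z)`, one node `x` (loops allowed): mean of the positive part of the increment of
`exp (lam rc)`, `lam = κ/ρ`. -/
theorem node_pair (C1 : ℝ) (hC1 : 1 ≤ C1) : ∃ C2 : ℝ, 1 ≤ C2 ∧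
    ∀ (Y : Type) [Fintype Y] [DecidableEq Y] (a : Net Y) (A : Finset Y) (x y z : Y) (N : ℕ)
      (ρ κ : ℝ),
    0 < ρ → (N : ℝ) * ρ ≤ C1 → x ∈ A → y ∈ A.erase x → z ∈ A.erase x → Reg a A N → Good a A ρ →
    1 ≤ κ → C2 * κ ^ 4 ≤ N →
    fr x (fun b => max (Real.exp (κ / ρ * rc b (2 * ρ) y z)
        - Real.exp (κ / ρ * rc a (2 * ρ) y z)) 0) N a
      ≤ C2 * (κ / ρ) / Real.sqrt (Real.sqrt N) * exr a x y z
          * Real.exp (κ / ρ * rc a (2 * ρ) y z)
        + 3 * (A.card : ℝ) ^ 2 * Real.exp (-κ) :=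
  node_pair4 C1 hC1

/-! ### The choice of the node -/

section FrSum

variable {Y : Type*} [Fintype Y] [DecidableEq Y]

theorem t11_fr_sum {ι : Type*} {x : Y} (s : Finset ι) (F : ι → Net Y → ℝ) (m : ℕ) (a : Net Y) :
    fr x (fun b => ∑ i ∈ s, F i b) m a = ∑ i ∈ s, fr x (F i) m a := by
  induction m generalizing a with
  | zero => rfl
  | succ m ih =>
    unfold fr
    rw [← av_sum]
    congr 1
    funext p q
    exact ih _

theorem t11_rc_nonneg (a : Net Y) {c : ℝ} (hc : 0 ≤ c) (y z : Y) : 0 ≤ rc a c y z := by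
  unfold rc
  split_ifs
  · exact le_min (res_nonneg a y z) hc
  · exact hc

theorem t11_exr_nonneg (a : Net Y) (x y z : Y) : 0 ≤ exr a x y z := ex_nonneg _ _ _

theorem t11_sum_exr {a : Net Y} {A : Finset Y} {ρ : ℝ} (hρ : 0 ≤ ρ) (hg : Good a A ρ)
    {y z : Y} (hy : y ∈ A) (hz : z ∈ A) : ∑ x ∈ A, exr a x y z ≤ 2 * ρ := by
  have h1 : ∑ x ∈ A, exr a x y z ≤ ∑ x, exr a x y z :=
    sum_le_sum_of_subset_of_nonneg (subset_univ _) fun _ _ _ => t11_exr_nonneg _ _ _ _
  have h2 : ∑ x, exr a x y z = 2 * en a (pot a y z) := sum_ex _ _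
  have h3 : en a (pot a y z) ≤ ρ := by
    rw [← res_eq (isPot_pot (hg y hy z hz))]
    exact res_le hρ (hg y hy z hz)
  linarith

theorem t11_phi_ge {a : Net Y} {A : Finset Y} {lam c : ℝ} (hl : 0 ≤ lam) (hc : 0 ≤ c)
    (hA : 2 ≤ A.card) : 1 ≤ phi lam c A a := by
  obtain ⟨y, hy, z, hz, hyz⟩ := Finset.one_lt_card.1 (by omega : 1 < A.card)
  unfold phi
  have h1 : 1 ≤ Real.exp (lam * rc a c y z) :=
    Real.one_le_exp (mul_nonneg hl (t11_rc_nonneg a hc y z))
  refine h1.trans ?_
  refine (single_le_sum (f := fun z => Real.exp (lam * rc a c y z))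
    (fun _ _ => (Real.exp_pos _).le) (mem_erase.2 ⟨Ne.symm hyz, hz⟩ : z ∈ A.erase y)).trans ?_
  exact single_le_sum (f := fun y => ∑ z ∈ A.erase y, Real.exp (lam * rc a c y z))
    (fun _ _ => sum_nonneg fun _ _ => (Real.exp_pos _).le) hy

end FrSum

/-- Greedy choice of `x`: since `Σ_x exr a x y z = 2 res a y z`, some `x ∈ A \ M` has
`Σ_{y,z} exr * exp ≤ (2ρ / |A \ M|) Σ_{y,z} exp`. -/
theorem node_step (C1 : ℝ) (hC1 : 1 ≤ C1) : ∃ C2 : ℝ, 1 ≤ C2 ∧
    ∀ (Y : Type) [Fintype Y] [DecidableEq Y] (a : Net Y) (A M : Finset Y) (N : ℕ) (ρ κ : ℝ),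
    0 < ρ → (N : ℝ) * ρ ≤ C1 → M ⊆ A → 2 ≤ A.card → (A \ M).Nonempty → Reg a A N → Good a A ρ →
    1 ≤ κ → C2 * κ ^ 4 ≤ N → (A.card : ℝ) ^ 6 * N ≤ Real.exp κ →
    ∃ x ∈ A \ M,
      fr x (fun b => ∑ y ∈ A.erase x, ∑ z ∈ (A.erase x).erase y,
        max (Real.exp (κ / ρ * rc b (2 * ρ) y z) - Real.exp (κ / ρ * rc a (2 * ρ) y z)) 0) N a
      ≤ C2 * κ / Real.sqrt (Real.sqrt N) / (A \ M).card * phi (κ / ρ) (2 * ρ) A a := by
  obtain ⟨K, hK, hpair⟩ := node_pair C1 hC1
  refine ⟨2 * K + 3, by linarith, ?_⟩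
  intro Y _ _ a A M N ρ κ hρ hNρ hMA hA hne hreg hgood hκ hNκ hexp
  have hlam : 0 ≤ κ / ρ := by positivity
  set lam := κ / ρ with hlamdef
  set S : Y → ℝ := fun x => ∑ y ∈ A.erase x, ∑ z ∈ (A.erase x).erase y,
    exr a x y z * Real.exp (lam * rc a (2 * ρ) y z) with hS
  have hκ2 : 1 ≤ κ ^ 4 := one_le_pow₀ hκ
  have hN1 : (1 : ℝ) ≤ N := by nlinarith
  have hN0 : (0 : ℝ) < N := by linarith
  have hcard : (0 : ℝ) < (A \ M).card := by exact_mod_cast hne.card_pos
  have hA2 : (2 : ℝ) ≤ A.card := by exact_mod_cast hA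
  have hAM : ((A \ M).card : ℝ) ≤ A.card := by exact_mod_cast card_le_card sdiff_subset
  set Φ := phi lam (2 * ρ) A a with hΦ
  have hΦ1 : 1 ≤ Φ := t11_phi_ge hlam (by linarith) hA
  have hnn : ∀ x y z, 0 ≤ exr a x y z * Real.exp (lam * rc a (2 * ρ) y z) := fun x y z =>
    mul_nonneg (t11_exr_nonneg _ _ _ _) (Real.exp_pos _).le
  -- the total
  have hsum : ∑ x ∈ A \ M, S x ≤ ∑ x ∈ A \ M, (2 * ρ * Φ / (A \ M).card) := by
    have e1 : ∑ x ∈ A \ M, (2 * ρ * Φ / (A \ M).card) = 2 * ρ * Φ := by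
      rw [sum_const, nsmul_eq_mul]
      field_simp
    rw [e1]
    have e2 : ∑ x ∈ A \ M, S x ≤ ∑ x ∈ A, ∑ y ∈ A, ∑ z ∈ A.erase y,
        exr a x y z * Real.exp (lam * rc a (2 * ρ) y z) := by
      refine (sum_le_sum fun x _ => ?_).trans
        (sum_le_sum_of_subset_of_nonneg sdiff_subset fun _ _ _ =>
          sum_nonneg fun _ _ => sum_nonneg fun _ _ => hnn _ _ _)
      refine (sum_le_sum fun y _ => ?_).trans
        (sum_le_sum_of_subset_of_nonneg (erase_subset x A) fun _ _ _ =>
          sum_nonneg fun _ _ => hnn _ _ _)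
      exact sum_le_sum_of_subset_of_nonneg (erase_subset_erase y (erase_subset x A))
        fun _ _ _ => hnn _ _ _
    refine e2.trans ?_
    rw [sum_comm]
    have e3 : ∀ y ∈ A, ∑ x ∈ A, ∑ z ∈ A.erase y,
          exr a x y z * Real.exp (lam * rc a (2 * ρ) y z)
        ≤ 2 * ρ * ∑ z ∈ A.erase y, Real.exp (lam * rc a (2 * ρ) y z) := by
      intro y hy
      rw [sum_comm, mul_sum]
      refine sum_le_sum fun z hz => ?_
      rw [← sum_mul]
      exact mul_le_mul_of_nonneg_right (t11_sum_exr hρ.le hgood hy (mem_of_mem_erase hz))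
        (Real.exp_pos _).le
    refine (sum_le_sum e3).trans (le_of_eq ?_)
    rw [← mul_sum]
    rfl
  obtain ⟨x, hx, hxS⟩ := exists_le_of_sum_le hne hsum
  refine ⟨x, hx, ?_⟩
  have hxA : x ∈ A := (mem_sdiff.1 hx).1
  have hW0 : 0 < Real.sqrt (Real.sqrt N) := Real.sqrt_pos.2 (Real.sqrt_pos.2 hN0)
  have hWN : Real.sqrt (Real.sqrt N) ≤ N := by
    rw [Real.sqrt_le_left hN0.le, Real.sqrt_le_left (by positivity)]
    have : (1 : ℝ) ≤ (N : ℝ) ^ 2 := one_le_pow₀ hN1
    nlinarith [pow_pos hN0 3]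
  set W := Real.sqrt (Real.sqrt N) with hW
  have hb : (A.card : ℝ) ^ 4 * Real.exp (-κ) ≤ 1 / (A.card * N) := by
    rw [Real.exp_neg]
    have h1 : (0 : ℝ) < (A.card : ℝ) ^ 6 * N := by positivity
    have h2 : (Real.exp κ)⁻¹ ≤ ((A.card : ℝ) ^ 6 * N)⁻¹ := inv_anti₀ h1 hexp
    refine (mul_le_mul_of_nonneg_left h2 (by positivity)).trans ?_
    have hA0 : (0 : ℝ) < A.card := by linarith
    have h3 : (A.card : ℝ) ^ 4 * ((A.card : ℝ) ^ 6 * N)⁻¹ = 1 / ((A.card : ℝ) ^ 2 * N) := by
      field_simp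
    rw [h3]
    refine one_div_le_one_div_of_le (by positivity) ?_
    refine mul_le_mul_of_nonneg_right ?_ hN0.le
    nlinarith
  have h0 : fr x (fun b => ∑ y ∈ A.erase x, ∑ z ∈ (A.erase x).erase y,
        max (Real.exp (lam * rc b (2 * ρ) y z) - Real.exp (lam * rc a (2 * ρ) y z)) 0) N a
      ≤ K * lam / W * S x + (A.card : ℝ) ^ 2 * (3 * (A.card : ℝ) ^ 2 * Real.exp (-κ)) := by
    rw [t11_fr_sum]
    have h1 : ∀ y ∈ A.erase x, fr x (fun b => ∑ z ∈ (A.erase x).erase y,
        max (Real.exp (lam * rc b (2 * ρ) y z) - Real.exp (lam * rc a (2 * ρ) y z)) 0) N a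
        ≤ K * lam / W * (∑ z ∈ (A.erase x).erase y,
            exr a x y z * Real.exp (lam * rc a (2 * ρ) y z))
          + A.card * (3 * (A.card : ℝ) ^ 2 * Real.exp (-κ)) := by
      intro y hy
      rw [t11_fr_sum]
      have h2 : ∀ z ∈ (A.erase x).erase y, fr x (fun b => 
          max (Real.exp (lam * rc b (2 * ρ) y z) - Real.exp (lam * rc a (2 * ρ) y z)) 0) N a
          ≤ K * lam / W * (exr a x y z * Real.exp (lam * rc a (2 * ρ) y z))
            + 3 * (A.card : ℝ) ^ 2 * Real.exp (-κ) := by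
        intro z hz
        have h3 := hpair Y a A x y z N ρ κ hρ hNρ hxA hy (mem_of_mem_erase hz) hreg hgood hκ
          (by nlinarith)
        refine h3.trans (le_of_eq ?_)
        ring
      refine (sum_le_sum h2).trans ?_
      rw [sum_add_distrib, ← mul_sum, sum_const, nsmul_eq_mul]
      have h4 : (((A.erase x).erase y).card : ℝ) ≤ A.card := by
        exact_mod_cast card_le_card ((erase_subset _ _).trans (erase_subset _ _))
      have h5 : 0 ≤ 3 * (A.card : ℝ) ^ 2 * Real.exp (-κ) := by positivity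
      have := mul_le_mul_of_nonneg_right h4 h5
      linarith
    refine (sum_le_sum h1).trans ?_
    rw [sum_add_distrib, ← mul_sum, sum_const, nsmul_eq_mul]
    have h4 : ((A.erase x).card : ℝ) ≤ A.card := by
      exact_mod_cast card_le_card (erase_subset _ _)
    have h5 : 0 ≤ (A.card : ℝ) * (3 * (A.card : ℝ) ^ 2 * Real.exp (-κ)) := by positivity
    have h6 := mul_le_mul_of_nonneg_right h4 h5
    have h7 : (A.card : ℝ) * (A.card * (3 * (A.card : ℝ) ^ 2 * Real.exp (-κ)))
        = (A.card : ℝ) ^ 2 * (3 * (A.card : ℝ) ^ 2 * Real.exp (-κ)) := by ring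
    rw [h7] at h6
    linarith
  refine h0.trans ?_
  have h8 : K * lam / W * S x ≤ 2 * K * κ / W / (A \ M).card * Φ := by
    have h9 : 0 ≤ K * lam / W := by positivity
    refine (mul_le_mul_of_nonneg_left hxS h9).trans (le_of_eq ?_)
    rw [hlamdef]
    field_simp
  have h10 : (A.card : ℝ) ^ 2 * (3 * (A.card : ℝ) ^ 2 * Real.exp (-κ))
      ≤ 3 * κ / W / (A \ M).card * Φ := by
    have e1 : (A.card : ℝ) ^ 2 * (3 * (A.card : ℝ) ^ 2 * Real.exp (-κ))
        = 3 * ((A.card : ℝ) ^ 4 * Real.exp (-κ)) := by ring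
    rw [e1]
    have e2 : 3 * ((A.card : ℝ) ^ 4 * Real.exp (-κ)) ≤ 3 * (1 / (A.card * N)) := by linarith
    refine e2.trans ?_
    have e3 : 1 / ((A.card : ℝ) * N) ≤ 1 / ((A \ M).card * W) :=
      one_div_le_one_div_of_le (by positivity) (mul_le_mul hAM hWN hW0.le (by linarith))
    have e4 : 3 * κ / W / (A \ M).card * Φ = 3 * (1 / ((A \ M).card * W)) * (κ * Φ) := by
      field_simp
    rw [e4]
    have e5 : 1 ≤ κ * Φ := by nlinarith
    have e6 : 0 ≤ 3 * (1 / (((A \ M).card : ℝ) * W)) := by positivity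
    nlinarith
  calc _ ≤ 2 * K * κ / W / (A \ M).card * Φ + 3 * κ / W / (A \ M).card * Φ := add_le_add h8 h10
    _ = _ := by ring

end Pool.Agent.PL
end

section

/-! T14. The freezing theorem: independent shuffles of bounded density at all nodes but the marked
ones. -/

set_option autoImplicit false
set_option linter.unusedSectionVars false

open Finset Equiv

namespace Pool.Agent.PL

section Data

variable {Q : Type} [Fintype Q] [DecidableEq Q] {Y : Type} [Fintype Y] [DecidableEq Y]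

/-- Mean of `G (Θ * σ₁ * ... * σ_k)` for independent `σ_i` of law `π y_i`. -/
noncomputable def JL (π : Y → Perm Q → ℝ) (G : Perm Q → ℝ) : List Y → Perm Q → ℝ
  | [], Θ => G Θ
  | y :: l, Θ => ∑ σ, π y σ * JL π G l (Θ * σ)

/-- `π y` is a probability on the permutations of the sites of `y`, of density at most `D`. -/
structure Dens (c : Q → Option Y) (N : ℕ) (D : ℝ) (y : Y) (p : Perm Q → ℝ) : Prop where
  nonneg : ∀ σ, 0 ≤ p σ
  sum : ∑ σ, p σ = 1
  supp : ∀ σ, p σ ≠ 0 → ∀ w, c w ≠ some y → σ w = w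
  le : ∀ σ, p σ ≤ D / (Nat.factorial N : ℝ)

/-- The sites of the nodes in `A` only. -/
def cOn (c : Q → Option Y) (A : Finset Y) : Q → Option Y := fun w =>
  match c w with
  | none => none
  | some y => if y ∈ A then some y else none

/-- The network of `Θ` on the nodes of `A`. -/
noncomputable def netA (Θ : Perm Q) (c : Q → Option Y) (A : Finset Y) : Net Y :=
  mat (remS Θ (univ.filter fun w => cOn c A w = none)) (cOn c A)

theorem jl_comm {c : Q → Option Y} {x y : Y} (hxy : x ≠ y) {σ τ : Perm Q}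
    (hσ : ∀ w, c w ≠ some x → σ w = w) (hτ : ∀ w, c w ≠ some y → τ w = w) : σ * τ = τ * σ := by
  have hd : Perm.Disjoint σ τ := by
    intro w
    by_cases h : c w = some x
    · right; apply hτ; rw [h]; intro e; exact hxy (Option.some.inj e)
    · left; exact hσ w h
  exact hd.commute.eq

/-- Order of the nodes does not matter. -/
theorem JL_perm {c : Q → Option Y} {N : ℕ} {D : ℝ} {π : Y → Perm Q → ℝ} (G : Perm Q → ℝ)
    {l l' : List Y} (hl : l.Nodup) (hπ : ∀ y ∈ l, Dens c N D y (π y)) (h : l.Perm l')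
    (Θ : Perm Q) : JL π G l Θ = JL π G l' Θ := by
  induction h generalizing Θ with
  | nil => rfl
  | cons a _ ih =>
    simp only [JL]
    refine sum_congr rfl fun σ _ => ?_
    rw [ih (List.nodup_cons.1 hl).2 (fun y hy => hπ y (List.mem_cons_of_mem _ hy))]
  | swap a b l =>
    simp only [JL]
    have hab : b ≠ a := by
      intro e
      rw [List.nodup_cons] at hl
      exact hl.1 (by rw [e]; exact List.mem_cons_self)
    have ha := hπ a (by simp)
    have hb := hπ b (by simp)
    simp only [mul_sum]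
    rw [sum_comm]
    refine sum_congr rfl fun σ _ => sum_congr rfl fun τ _ => ?_
    by_cases h1 : π a σ = 0
    · rw [h1]; ring
    by_cases h2 : π b τ = 0
    · rw [h2]; ring
    have hc := jl_comm (c := c) hab (hb.supp τ h2) (ha.supp σ h1)
    have : Θ * τ * σ = Θ * σ * τ := by rw [mul_assoc, mul_assoc, hc]
    rw [this]; ring
  | trans h1 _ ih1 ih2 =>
    rw [ih1 hl hπ, ih2 (h1.nodup_iff.1 hl) (fun y hy => hπ y (h1.mem_iff.2 hy))]

theorem JL_nonneg {c : Q → Option Y} {N : ℕ} {D : ℝ} {π : Y → Perm Q → ℝ} {G : Perm Q → ℝ}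
    (hG : ∀ Θ, 0 ≤ G Θ) {l : List Y} (hπ : ∀ y ∈ l, Dens c N D y (π y))
    (Θ : Perm Q) : 0 ≤ JL π G l Θ := by
  induction l generalizing Θ with
  | nil => exact hG Θ
  | cons a l ih =>
    simp only [JL]
    exact sum_nonneg fun σ _ => mul_nonneg ((hπ a List.mem_cons_self).nonneg σ)
      (ih (fun y hy => hπ y (List.mem_cons_of_mem _ hy)) _)

theorem JL_le_one {c : Q → Option Y} {N : ℕ} {D : ℝ} {π : Y → Perm Q → ℝ} {G : Perm Q → ℝ}
    (hG : ∀ Θ, G Θ ≤ 1) {l : List Y} (hπ : ∀ y ∈ l, Dens c N D y (π y))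
    (Θ : Perm Q) : JL π G l Θ ≤ 1 := by
  induction l generalizing Θ with
  | nil => exact hG Θ
  | cons a l ih =>
    simp only [JL]
    have ha := hπ a List.mem_cons_self
    rw [← ha.sum]
    refine sum_le_sum fun σ _ => ?_
    have h1 := ih (fun y hy => hπ y (List.mem_cons_of_mem _ hy)) (Θ * σ)
    have h2 := mul_le_mul_of_nonneg_left h1 (ha.nonneg σ)
    linarith

theorem jl_cOn {c : Q → Option Y} {A : Finset Y} {x : Y} (hx : x ∈ A) (w : Q) :
    cOn c A w = some x ↔ c w = some x := by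
  unfold cOn
  cases h : c w with
  | none => simp
  | some u =>
    by_cases hu : u ∈ A
    · simp [hu]
    · simp only [hu, if_false, Option.some.injEq]
      constructor
      · intro h'; exact absurd h' (by simp)
      · rintro rfl; exact absurd hx hu

theorem jl_cOff {c : Q → Option Y} {A : Finset Y} {x : Y} (hx : x ∈ A) :
    cOn c (A.erase x) = cOff (cOn c A) x := by
  funext w
  unfold cOff
  by_cases h : c w = some x
  · rw [if_pos ((jl_cOn hx w).2 h)]
    unfold cOn
    rw [h]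
    simp
  · rw [if_neg (fun e => h ((jl_cOn hx w).1 e))]
    unfold cOn
    cases h1 : c w with
    | none => rfl
    | some u =>
      have hux : u ≠ x := by
        rintro rfl; exact h h1
      simp only [mem_erase, ne_eq, hux, not_false_eq_true, true_and]

/-- One node of density at most `D`, in terms of the uniform matching. -/
theorem node_law {c : Q → Option Y} {N : ℕ} {D : ℝ} {A : Finset Y} {x : Y} (hx : x ∈ A)
    (hN : (univ.filter fun w => c w = some x).card = N) {p : Perm Q → ℝ} (hp : Dens c N D x p)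
    (Θ : Perm Q) (F : Net Y → ℝ) (hF : ∀ b, 0 ≤ F b) :
    ∑ σ, p σ * F (netA (Θ * σ) c (A.erase x)) ≤ D * fr x F N (netA Θ c A) := by
  classical
  set Z := univ.filter fun w => cOn c A w = none with hZ
  have hmean := mean_mat (Θ := remS Θ Z) (c := cOn c A) (x := x) (m := N)
    (fun w hw => remS_fixed (mem_filter.2 ⟨mem_univ _, hw⟩))
    (by rw [← hN]; congr 1; ext w; simp only [mem_filter, mem_univ, true_and]; exact jl_cOn hx w) F
  have hnet : ∀ σ : Perm Q, (∀ w, cOn c A w ≠ some x → σ w = w) →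
      netA (Θ * σ) c (A.erase x) =
        mat (remS (remS Θ Z * σ) (univ.filter fun w => cOn c A w = some x)) (cOff (cOn c A) x) := by
    intro σ hσ
    unfold netA
    rw [jl_cOff hx]
    congr 1
    have h1 : (univ.filter fun w => cOff (cOn c A) x w = none) =
        Z ∪ univ.filter fun w => cOn c A w = some x := by
      ext w
      simp only [mem_filter, mem_univ, true_and, mem_union, hZ]
      unfold cOff
      by_cases h : cOn c A w = some x
      · simp [h]
      · simp [h]
    rw [h1, ← remS_union, remS_mul]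
    intro i hi
    apply hσ
    rw [(mem_filter.1 hi).2]
    simp
  have hfact : (0 : ℝ) < (Nat.factorial N : ℝ) := by exact_mod_cast Nat.factorial_pos N
  have h1 : ∑ σ, p σ * F (netA (Θ * σ) c (A.erase x)) =
      ∑ σ ∈ (univ : Finset (Perm Q)).filter (fun σ => ∀ w, cOn c A w ≠ some x → σ w = w),
        p σ * F (netA (Θ * σ) c (A.erase x)) := by
    symm
    apply sum_subset (filter_subset _ _)
    intro σ _ hσ
    rw [mem_filter, not_and] at hσ
    have h2 : p σ = 0 := by
      by_contra h3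
      apply hσ (mem_univ _)
      intro w hw
      exact hp.supp σ h3 w (fun e => hw ((jl_cOn hx w).2 e))
    rw [h2, zero_mul]
  rw [h1]
  have h2 : ∑ σ ∈ (univ : Finset (Perm Q)).filter (fun σ => ∀ w, cOn c A w ≠ some x → σ w = w),
        p σ * F (netA (Θ * σ) c (A.erase x)) ≤
      ∑ σ ∈ (univ : Finset (Perm Q)).filter (fun σ => ∀ w, cOn c A w ≠ some x → σ w = w),
        D / (Nat.factorial N : ℝ) *
        F (mat (remS (remS Θ Z * σ) (univ.filter fun w => cOn c A w = some x))
          (cOff (cOn c A) x)) := by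
    refine sum_le_sum fun σ hσ => ?_
    rw [hnet σ (mem_filter.1 hσ).2]
    exact mul_le_mul_of_nonneg_right (hp.le σ) (hF _)
  refine h2.trans (le_of_eq ?_)
  rw [← mul_sum, hmean]
  unfold netA
  rw [← hZ]
  field_simp

/-- The indicator of a bad network on the marked nodes. -/
noncomputable def fzBad (c : Q → Option Y) (M : Finset Y) (ρ : ℝ) (Θ' : Perm Q) : ℝ :=
  open Classical in if ∀ y ∈ M, ∀ z ∈ M, ResLe (netA Θ' c M) ρ y z then 0 else 1

theorem fzBad_nonneg (c : Q → Option Y) (M : Finset Y) (ρ : ℝ) (Θ' : Perm Q) :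
    0 ≤ fzBad c M ρ Θ' := by
  unfold fzBad; split_ifs <;> norm_num

theorem fzBad_le (c : Q → Option Y) (M : Finset Y) (ρ : ℝ) (Θ' : Perm Q) :
    fzBad c M ρ Θ' ≤ 1 := by
  unfold fzBad; split_ifs <;> norm_num

/-- The potential of a bad network is large. -/
theorem fz_phi_bad {b : Net Y} {A : Finset Y} {ρ κ : ℝ} (hρ : 0 < ρ) (hκ : 0 ≤ κ)
    (h : ¬ Good b A ρ) : Real.exp κ ≤ phi (κ / ρ) (2 * ρ) A b := by
  unfold Good at h
  push Not at h
  obtain ⟨y, hy, z, hz, hyz⟩ := h
  have hne : z ≠ y := by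
    rintro rfl
    apply hyz
    intro f
    have h0 := en_nonneg b f
    have h1 : 0 ≤ ρ * en b f := by positivity
    simpa using h1
  have hrc : ρ ≤ rc b (2 * ρ) y z := by
    unfold rc
    split_ifs with h1
    · obtain ⟨r, hr⟩ := h1
      refine le_min ?_ (by linarith)
      by_contra h2
      rw [not_le] at h2
      exact hyz ((resLe_res hr).mono h2.le)
    · linarith
  have h1 : Real.exp κ ≤ Real.exp (κ / ρ * rc b (2 * ρ) y z) := by
    apply Real.exp_le_exp.2
    have e1 : κ / ρ * ρ = κ := by field_simp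
    have e2 := mul_le_mul_of_nonneg_left hrc (by positivity : 0 ≤ κ / ρ)
    linarith
  refine h1.trans ?_
  unfold phi
  refine le_trans ?_ (single_le_sum (f := fun y => ∑ z ∈ A.erase y,
    Real.exp (κ / ρ * rc b (2 * ρ) y z))
    (fun y _ => sum_nonneg fun z _ => (Real.exp_pos _).le) hy)
  exact single_le_sum (f := fun z => Real.exp (κ / ρ * rc b (2 * ρ) y z))
    (fun z _ => (Real.exp_pos _).le) (mem_erase.2 ⟨hne, hz⟩)

theorem fz_phi_nonneg (b : Net Y) (A : Finset Y) (lam c : ℝ) : 0 ≤ phi lam c A b :=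
  sum_nonneg fun _ _ => sum_nonneg fun _ _ => (Real.exp_pos _).le

/-- The increase of the potential. -/
noncomputable def fzInc (lam c : ℝ) (A : Finset Y) (x : Y) (a b : Net Y) : ℝ :=
  ∑ y ∈ A.erase x, ∑ z ∈ (A.erase x).erase y,
    max (Real.exp (lam * rc b c y z) - Real.exp (lam * rc a c y z)) 0

theorem fz_phi_step (lam c : ℝ) (A : Finset Y) (x : Y) (a b : Net Y) :
    phi lam c (A.erase x) b ≤ phi lam c A a + fzInc lam c A x a b := by
  have h1 : phi lam c (A.erase x) a ≤ phi lam c A a := by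
    unfold phi
    refine (sum_le_sum fun y _ => ?_).trans
      (sum_le_sum_of_subset_of_nonneg (erase_subset x A) fun _ _ _ =>
        sum_nonneg fun _ _ => (Real.exp_pos _).le)
    exact sum_le_sum_of_subset_of_nonneg (erase_subset_erase y (erase_subset x A))
      fun _ _ _ => (Real.exp_pos _).le
  have h2 : phi lam c (A.erase x) b ≤ phi lam c (A.erase x) a + fzInc lam c A x a b := by
    unfold phi fzInc
    rw [← sum_add_distrib]
    refine sum_le_sum fun y _ => ?_
    rw [← sum_add_distrib]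
    refine sum_le_sum fun z _ => ?_
    have := le_max_left (Real.exp (lam * rc b c y z) - Real.exp (lam * rc a c y z)) 0
    linarith
  linarith

theorem fzInc_nonneg (lam c : ℝ) (A : Finset Y) (x : Y) (a b : Net Y) :
    0 ≤ fzInc lam c A x a b :=
  sum_nonneg fun _ _ => sum_nonneg fun _ _ => le_max_right _ _

theorem fz_card {c : Q → Option Y} {A : Finset Y} {y : Y} (hy : y ∈ A) :
    (univ.filter fun w => cOn c A w = some y) = univ.filter fun w => c w = some y := by
  ext w
  simp only [mem_filter, mem_univ, true_and]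
  unfold cOn
  cases h : c w with
  | none => simp
  | some u =>
    by_cases hu : u ∈ A
    · simp [hu]
    · simp only [hu, if_false, Option.some.injEq]
      constructor
      · intro h'; exact absurd h' (by simp)
      · rintro rfl; exact absurd hy hu

theorem fz_reg {c : Q → Option Y} {N : ℕ} {A : Finset Y}
    (hN : ∀ y ∈ A, (univ.filter fun w => c w = some y).card = N) (Θ : Perm Q) :
    Reg (netA Θ c A) A N := by
  unfold netA
  refine mat_reg ?_ ?_ ?_
  · intro w hw
    exact remS_fixed (mem_filter.2 ⟨mem_univ _, hw⟩)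
  · intro y hy
    rw [fz_card hy]; exact hN y hy
  · intro w y hw
    unfold cOn at hw
    cases h : c w with
    | none => rw [h] at hw; simp at hw
    | some u =>
      rw [h] at hw
      by_cases hu : u ∈ A
      · simp only [hu, if_true, Option.some.injEq] at hw
        rw [← hw]; exact hu
      · simp [hu] at hw

/-- The product. -/
noncomputable def fzP (ε : ℝ) (n : ℕ) : ℝ := ∏ j ∈ range n, (1 + ε / ((j : ℝ) + 1))

theorem fzP_ge {ε : ℝ} (hε : 0 ≤ ε) (n : ℕ) : 1 ≤ fzP ε n := by
  unfold fzP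
  induction n with
  | zero => simp
  | succ n ih =>
    rw [prod_range_succ]
    have : 0 ≤ ε / ((n : ℝ) + 1) := by positivity
    nlinarith

theorem fzP_succ (ε : ℝ) (n : ℕ) : fzP ε (n + 1) = fzP ε n * (1 + ε / ((n + 1 : ℕ) : ℝ)) := by
  unfold fzP
  rw [prod_range_succ]
  push_cast
  rfl

theorem fzP_le {ε : ℝ} (hε : 0 ≤ ε) {n : ℕ} (hn : 1 ≤ n) :
    fzP ε n ≤ Real.exp (ε * (1 + Real.log n)) := by
  have h1 : ∀ n : ℕ, fzP ε n ≤ Real.exp (ε * ∑ j ∈ range n, 1 / ((j : ℝ) + 1)) := by
    intro n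
    induction n with
    | zero => simp [fzP]
    | succ n ih =>
      unfold fzP at ih ⊢
      rw [prod_range_succ, sum_range_succ, mul_add ε, Real.exp_add]
      refine mul_le_mul ih ?_ (by positivity) (Real.exp_pos _).le
      have := Real.add_one_le_exp (ε * (1 / ((n : ℝ) + 1)))
      have e : ε / ((n : ℝ) + 1) = ε * (1 / ((n : ℝ) + 1)) := by ring
      rw [e]; linarith
  refine (h1 n).trans ?_
  apply Real.exp_le_exp.2
  apply mul_le_mul_of_nonneg_left _ hε
  have h2 := harmonic_le_one_add_log n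
  unfold harmonic at h2
  push_cast at h2
  refine le_trans (le_of_eq ?_) h2
  refine sum_congr rfl fun j _ => ?_
  rw [one_div]

/-- The induction. -/
theorem fz_main {C : ℝ} {c : Q → Option Y} {N : ℕ} {ρ κ : ℝ} {A0 M : Finset Y}
    {π : Y → Perm Q → ℝ} (hρ : 0 < ρ) (hκ : 1 ≤ κ) (hC : 0 ≤ C)
    (hstep : ∀ (a : Net Y) (A : Finset Y), M ⊆ A → A ⊆ A0 → (A \ M).Nonempty → Reg a A N →
      Good a A ρ → ∃ x ∈ A \ M, fr x (fzInc (κ / ρ) (2 * ρ) A x a) N a
        ≤ C * κ / Real.sqrt (Real.sqrt N) / (A \ M).card * phi (κ / ρ) (2 * ρ) A a)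
    (hN : ∀ y ∈ A0, (univ.filter fun w => c w = some y).card = N)
    (hπ : ∀ y, y ∈ A0 → y ∉ M → Dens c N 4 y (π y)) (n : ℕ) :
    ∀ (A : Finset Y) (l : List Y) (Θ : Perm Q), M ⊆ A → A ⊆ A0 → (A \ M).card = n → l.Nodup →
      (∀ y, y ∈ l ↔ y ∈ A ∧ y ∉ M) →
      JL π (fzBad c M ρ) l Θ ≤ fzP (4 * (C * κ / Real.sqrt (Real.sqrt N))) n *
        phi (κ / ρ) (2 * ρ) A (netA Θ c A) * Real.exp (-κ) := by
  set ε := 4 * (C * κ / Real.sqrt (Real.sqrt N)) with hε
  have hε0 : 0 ≤ ε := by positivity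
  have hbadcase : ∀ (n : ℕ) (A : Finset Y) (l : List Y) (Θ : Perm Q), A ⊆ A0 →
      (∀ y, y ∈ l ↔ y ∈ A ∧ y ∉ M) → ¬ Good (netA Θ c A) A ρ →
      JL π (fzBad c M ρ) l Θ ≤ fzP ε n * phi (κ / ρ) (2 * ρ) A (netA Θ c A) * Real.exp (-κ) := by
    intro n A l Θ hA hl hbad
    have h1 := fz_phi_bad hρ (by linarith : 0 ≤ κ) hbad
    have h2 := JL_le_one (c := c) (N := N) (D := 4) (π := π) (G := fzBad c M ρ) (l := l)
      (fun Θ => fzBad_le c M ρ Θ) (fun y hy => hπ y (hA ((hl y).1 hy).1) ((hl y).1 hy).2) Θ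
    have h3 := fzP_ge hε0 n
    have h4 : 1 ≤ phi (κ / ρ) (2 * ρ) A (netA Θ c A) * Real.exp (-κ) := by
      have e := mul_le_mul_of_nonneg_right h1 (Real.exp_pos (-κ)).le
      rwa [← Real.exp_add, add_neg_cancel, Real.exp_zero] at e
    rw [mul_assoc]
    nlinarith
  induction n with
  | zero =>
    intro A l Θ hMA hA hn hl hlm
    have hAM : A = M := by
      rw [card_eq_zero, sdiff_eq_empty_iff_subset] at hn
      exact subset_antisymm hn hMA
    have hl0 : l = [] := by
      rw [List.eq_nil_iff_forall_not_mem]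
      intro y hy
      have := (hlm y).1 hy
      rw [hAM] at this
      exact this.2 this.1
    by_cases hg : Good (netA Θ c A) A ρ
    · rw [hl0]
      have : JL π (fzBad c M ρ) [] Θ = 0 := by
        show fzBad c M ρ Θ = 0
        unfold fzBad
        rw [if_pos]
        rw [hAM] at hg
        exact hg
      rw [this]
      have h1 := fz_phi_nonneg (netA Θ c A) A (κ / ρ) (2 * ρ)
      have h3 := fzP_ge hε0 0
      positivity
    · exact hbadcase 0 A l Θ hA hlm hg
  | succ n ih =>
    intro A l Θ hMA hA hn hl hlm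
    by_cases hg : Good (netA Θ c A) A ρ
    · have hne : (A \ M).Nonempty := by rw [← card_pos, hn]; omega
      have hreg := fz_reg (c := c) (N := N) (A := A) (fun y hy => hN y (hA hy)) Θ
      obtain ⟨x, hx, hfr⟩ := hstep _ A hMA hA hne hreg hg
      have hxA : x ∈ A := (mem_sdiff.1 hx).1
      have hxM : x ∉ M := (mem_sdiff.1 hx).2
      have hxl : x ∈ l := (hlm x).2 ⟨hxA, hxM⟩
      have hD : Dens c N 4 x (π x) := hπ x (hA hxA) hxM
      have hdl : ∀ y ∈ l, Dens c N 4 y (π y) := fun y hy =>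
        hπ y (hA ((hlm y).1 hy).1) ((hlm y).1 hy).2
      have hperm : l.Perm (x :: l.erase x) := List.perm_cons_erase hxl
      rw [JL_perm (c := c) (N := N) (D := 4) (fzBad c M ρ) hl hdl hperm Θ]
      show ∑ σ, π x σ * JL π (fzBad c M ρ) (l.erase x) (Θ * σ) ≤ _
      have hcard : ((A.erase x) \ M).card = n := by
        have : (A.erase x) \ M = (A \ M).erase x := by
          ext y; simp only [mem_sdiff, mem_erase]; tauto
        rw [this, card_erase_of_mem hx, hn]; rfl
      have hIH : ∀ σ, JL π (fzBad c M ρ) (l.erase x) (Θ * σ) ≤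
          fzP ε n * phi (κ / ρ) (2 * ρ) (A.erase x) (netA (Θ * σ) c (A.erase x)) *
            Real.exp (-κ) := by
        intro σ
        refine ih (A.erase x) (l.erase x) (Θ * σ) ?_ ((erase_subset _ _).trans hA) hcard
          (hl.erase x) ?_
        · intro y hy
          exact mem_erase.2 ⟨fun e => hxM (e ▸ hy), hMA hy⟩
        · intro y
          rw [hl.mem_erase_iff, hlm y, mem_erase]; tauto
      have hP := fzP_ge hε0 n
      have h1 : ∀ σ, π x σ * JL π (fzBad c M ρ) (l.erase x) (Θ * σ) ≤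
          (fzP ε n * Real.exp (-κ)) * (π x σ * phi (κ / ρ) (2 * ρ) A (netA Θ c A)) +
          (fzP ε n * Real.exp (-κ)) * (π x σ * fzInc (κ / ρ) (2 * ρ) A x (netA Θ c A)
            (netA (Θ * σ) c (A.erase x))) := by
        intro σ
        have e1 := mul_le_mul_of_nonneg_left (hIH σ) (hD.nonneg σ)
        have e2 := fz_phi_step (κ / ρ) (2 * ρ) A x (netA Θ c A) (netA (Θ * σ) c (A.erase x))
        have e3 := mul_le_mul_of_nonneg_left e2
          (mul_nonneg (mul_nonneg (hD.nonneg σ) (by linarith : 0 ≤ fzP ε n))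
            (Real.exp_pos (-κ)).le)
        nlinarith
      refine (sum_le_sum fun σ _ => h1 σ).trans ?_
      rw [sum_add_distrib, ← mul_sum, ← mul_sum, ← sum_mul, hD.sum, one_mul]
      have h2 := node_law hxA (hN x (hA hxA)) hD Θ
        (fzInc (κ / ρ) (2 * ρ) A x (netA Θ c A)) (fun b => fzInc_nonneg _ _ _ _ _ b)
      have h3 : ∑ σ, π x σ * fzInc (κ / ρ) (2 * ρ) A x (netA Θ c A)
          (netA (Θ * σ) c (A.erase x)) ≤ ε / ((n + 1 : ℕ) : ℝ) *
            phi (κ / ρ) (2 * ρ) A (netA Θ c A) := by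
        refine h2.trans ?_
        refine (mul_le_mul_of_nonneg_left hfr (by norm_num)).trans (le_of_eq ?_)
        rw [hn, hε]; ring
      rw [fzP_succ]
      have h4 := mul_le_mul_of_nonneg_left h3
        (mul_nonneg (by linarith : 0 ≤ fzP ε n) (Real.exp_pos (-κ)).le)
      nlinarith
    · exact hbadcase (n + 1) A l Θ hA hlm hg

end Data

/-- **The freezing theorem.** `A0`: the nodes (`Y` may contain labels without sites). -/
theorem freeze (C1 : ℝ) (hC1 : 1 ≤ C1) : ∃ C2 : ℝ, 1 ≤ C2 ∧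
    ∀ (Q : Type) [Fintype Q] [DecidableEq Q] (Y : Type) [Fintype Y] [DecidableEq Y]
      (c : Q → Option Y) (N : ℕ) (ρ κ : ℝ) (A0 M : Finset Y) (π : Y → Perm Q → ℝ) (l : List Y)
      (Θ : Perm Q),
    0 < ρ → (N : ℝ) * ρ ≤ C1 → 1 ≤ κ → C2 * κ ^ 2 ≤ N →
    C2 * κ * Real.log (A0.card) ≤ Real.sqrt (Real.sqrt N) →
    (A0.card : ℝ) ^ 6 * N ≤ Real.exp κ → 2 ≤ M.card → M ⊆ A0 →
    (∀ y ∈ A0, (univ.filter fun w => c w = some y).card = N) →
    (∀ q y, c q = some y → y ∈ A0) →
    l.Nodup → (∀ y, y ∈ l ↔ y ∈ A0 ∧ y ∉ M) → (∀ y ∈ l, Dens c N 4 y (π y)) →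
    (∀ y ∈ A0, ∀ z ∈ A0, ResLe (netA Θ c A0) (ρ / 2) y z) →
    JL π (fun Θ' => open Classical in
        if ∀ y ∈ M, ∀ z ∈ M, ResLe (netA Θ' c M) ρ y z then 0 else 1) l Θ
      ≤ C2 * (A0.card : ℝ) ^ 2 * Real.exp (-(κ / 2)) := by
  obtain ⟨C, hC, hnode⟩ := node_step C1 hC1
  refine ⟨12 * C, by linarith, ?_⟩
  intro Q _ _ Y _ _ c N ρ κ A0 M π l Θ hρ hNρ hκ _ hlog hexp hM hMA hN _ hl hlm hD hres
  have hA2 : 2 ≤ A0.card := hM.trans (card_le_card hMA)
  have hA2' : (2 : ℝ) ≤ A0.card := by exact_mod_cast hA2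
  have hlog2 : (0.69 : ℝ) ≤ Real.log A0.card := by
    have h1 := Real.log_two_gt_d9
    have h2 := Real.log_le_log (by norm_num) hA2'
    linarith
  set W := Real.sqrt (Real.sqrt N) with hW
  have hW0 : 0 ≤ W := Real.sqrt_nonneg _
  have hW4 : W ^ 4 = N := by
    have : W ^ 4 = (W ^ 2) ^ 2 := by ring
    rw [this, hW, Real.sq_sqrt (Real.sqrt_nonneg _), Real.sq_sqrt (Nat.cast_nonneg _)]
  have hCκ : 0 ≤ C * κ := by positivity
  have h8 : 8 * (C * κ) ≤ W := by nlinarith
  have hN4 : C * κ ^ 4 ≤ N := by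
    rw [← hW4]
    have e1 : (8 * (C * κ)) ^ 4 ≤ W ^ 4 := pow_le_pow_left₀ (by positivity) h8 4
    refine le_trans ?_ e1
    have e2 : (8 * (C * κ)) ^ 4 = 4096 * C ^ 4 * κ ^ 4 := by ring
    rw [e2]
    apply mul_le_mul_of_nonneg_right _ (by positivity)
    have : C ≤ C ^ 4 := le_self_pow₀ hC (by norm_num)
    nlinarith
  have hW1 : 0 < W := by nlinarith
  have key := fz_main (C := C) (c := c) (N := N) (ρ := ρ) (κ := κ) (A0 := A0) (M := M)
    (π := π) hρ hκ (by linarith) ?_ hN (fun y hy hyM => hD y ((hlm y).2 ⟨hy, hyM⟩))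
    (A0 \ M).card A0 l Θ hMA subset_rfl rfl hl hlm
  · have hgoal : JL π (fun Θ' => open Classical in
        if ∀ y ∈ M, ∀ z ∈ M, ResLe (netA Θ' c M) ρ y z then 0 else 1) l Θ =
        JL π (fzBad c M ρ) l Θ := rfl
    rw [hgoal]
    refine key.trans ?_
    set ε := 4 * (C * κ / W) with hε
    have hε0 : 0 ≤ ε := by positivity
    -- the product
    have hP : fzP ε (A0 \ M).card ≤ 3 := by
      rcases Nat.eq_zero_or_pos (A0 \ M).card with h0 | h0
      · rw [h0]; unfold fzP; norm_num
      · refine (fzP_le hε0 h0).trans ?_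
        have e1 : Real.log (A0 \ M).card ≤ Real.log A0.card := by
          apply Real.log_le_log (by exact_mod_cast h0)
          exact_mod_cast card_le_card sdiff_subset
        have e2 : ε * (1 + Real.log (A0 \ M).card) ≤ 1 := by
          have f1 : 1 + Real.log (A0 \ M).card ≤ 3 * Real.log A0.card := by linarith
          have f2 : ε * (1 + Real.log (A0 \ M).card) ≤ ε * (3 * Real.log A0.card) :=
            mul_le_mul_of_nonneg_left f1 hε0
          have f3 : ε * (3 * Real.log A0.card) = (12 * C * κ * Real.log A0.card) / W := by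
            rw [hε]; field_simp; ring
          rw [f3] at f2
          refine f2.trans ?_
          rw [div_le_one hW1]; exact hlog
        refine (Real.exp_le_exp.2 e2).trans ?_
        have := Real.exp_one_lt_d9; linarith
    -- the potential
    have hphi : phi (κ / ρ) (2 * ρ) A0 (netA Θ c A0) ≤ (A0.card : ℝ) ^ 2 * Real.exp (κ / 2) := by
      unfold phi
      have e1 : ∀ y ∈ A0, ∀ z ∈ A0.erase y,
          Real.exp (κ / ρ * rc (netA Θ c A0) (2 * ρ) y z) ≤ Real.exp (κ / 2) := by
        intro y hy z hz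
        apply Real.exp_le_exp.2
        have h1 := hres y hy z (mem_of_mem_erase hz)
        have h2 : rc (netA Θ c A0) (2 * ρ) y z ≤ ρ / 2 := by
          rw [rc_eq (by positivity) (h1.mono (by linarith))]
          exact res_le (by positivity) h1
        calc κ / ρ * rc (netA Θ c A0) (2 * ρ) y z ≤ κ / ρ * (ρ / 2) :=
              mul_le_mul_of_nonneg_left h2 (by positivity)
          _ = κ / 2 := by field_simp
      refine (sum_le_sum fun y hy => sum_le_sum fun z hz => e1 y hy z hz).trans ?_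
      have e2 : ∀ y ∈ A0, ∑ z ∈ A0.erase y, Real.exp (κ / 2) ≤ A0.card * Real.exp (κ / 2) := by
        intro y _
        rw [sum_const, nsmul_eq_mul]
        apply mul_le_mul_of_nonneg_right _ (Real.exp_pos _).le
        exact_mod_cast card_le_card (erase_subset _ _)
      refine (sum_le_sum e2).trans ?_
      rw [sum_const, nsmul_eq_mul]
      exact le_of_eq (by ring)
    have hphi0 := fz_phi_nonneg (netA Θ c A0) A0 (κ / ρ) (2 * ρ)
    have hP0 := fzP_ge hε0 (A0 \ M).card
    have hexp2 : Real.exp (κ / 2) * Real.exp (-κ) = Real.exp (-(κ / 2)) := by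
      rw [← Real.exp_add]; congr 1; ring
    calc fzP ε (A0 \ M).card * phi (κ / ρ) (2 * ρ) A0 (netA Θ c A0) * Real.exp (-κ)
        ≤ 3 * ((A0.card : ℝ) ^ 2 * Real.exp (κ / 2)) * Real.exp (-κ) := by
          apply mul_le_mul_of_nonneg_right _ (Real.exp_pos _).le
          exact mul_le_mul hP hphi hphi0 (by norm_num)
      _ = 3 * (A0.card : ℝ) ^ 2 * (Real.exp (κ / 2) * Real.exp (-κ)) := by ring
      _ = 3 * (A0.card : ℝ) ^ 2 * Real.exp (-(κ / 2)) := by rw [hexp2]
      _ ≤ 12 * C * (A0.card : ℝ) ^ 2 * Real.exp (-(κ / 2)) := by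
          apply mul_le_mul_of_nonneg_right _ (Real.exp_pos _).le
          apply mul_le_mul_of_nonneg_right _ (by positivity)
          linarith
  · intro a A hMA' hAA hne hreg hgood
    have hcA : 2 ≤ A.card := hM.trans (card_le_card hMA')
    refine hnode Y a A M N ρ κ hρ hNρ hMA' hcA hne hreg hgood hκ hN4 (le_trans ?_ hexp)
    apply mul_le_mul_of_nonneg_right _ (Nat.cast_nonneg _)
    apply pow_le_pow_left₀ (Nat.cast_nonneg _)
    exact_mod_cast card_le_card hAA

end Pool.Agent.PL
end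

section

/-! The environment: levels `0, …, J`, permutations `S j` from level `j` to level `j + 1` (the particle
at `v` moves to `S j v`), windows `w j` at level `j` (`w j v = some x`: `v` is in the window `x`;
`none`: in no window). `w 0`: the marked windows. After level `J` the permutation `Φ` leads back to
level `0`. -/

set_option autoImplicit false
set_option linter.unusedSectionVars false

open Finset Equiv

namespace Pool.Agent.PL

variable {V : Type} [Fintype V] [DecidableEq V]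

/-- Averaging over the windows. -/
noncomputable def avgW (w : V → Option V) (u : V → ℝ) (v : V) : ℝ :=
  if w v = none then u v
  else (∑ v' ∈ univ.filter (fun v' => w v' = w v), u v') / (univ.filter (fun v' => w v' = w v)).card

/-- The annealed walk: start at level `i` with the mass `u` (after averaging at level `i`), mass
after averaging at level `i + k`. -/
noncomputable def kr (S : ℕ → Perm V) (w : ℕ → V → Option V) (i : ℕ) : ℕ → (V → ℝ) → V → ℝ
  | 0, u => u
  | k + 1, u => avgW (w (i + k + 1)) (fun v => kr S w i k u ((S (i + k))⁻¹ v))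

/-- Sites of the window `x` at level `j`. -/
def win (w : ℕ → V → Option V) (j : ℕ) (x : V) : Finset V := univ.filter fun v => w j v = some x

/-- Probability that the annealed walk from a uniform site of the window `(i, x)` is in the window
`(j, y)` at level `j`. -/
noncomputable def wm (S : ℕ → Perm V) (w : ℕ → V → Option V) (N : ℕ) (i : ℕ) (x : V) (j : ℕ)
    (y : V) : ℝ :=
  (∑ v ∈ win w i x, ∑ v' ∈ win w j y, kr S w i (j - i) (Pi.single v 1) v') / N

/-- The space-time permutation on `Fin (J + 1) × V`: `(j, v) ↦ (j + 1, S j v)`, `(J, v) ↦ (0, Φ v)`. -/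
def stP (J : ℕ) (S : ℕ → Perm V) (Φ : Perm V) : Perm (Fin (J + 1) × V) :=
  Equiv.prodShear (finRotate (J + 1)) fun j => if (j : ℕ) = J then Φ else S j

/-- The nodes of space-time: a site of the window `x` at level `j` belongs to the node `(j, x)`. -/
def stc (J : ℕ) (w : ℕ → V → Option V) : Fin (J + 1) × V → Option (Fin (J + 1) × V) :=
  fun q => (w q.1 q.2).map fun x => (q.1, x)

/-- All resistances between nodes are at most `ρ`; `F` = value of the last node visited. -/
def RB {Q Y : Type} [Fintype Q] [DecidableEq Q] (Θ : Perm Q) (c : Q → Option Y) (ρ : ℝ) : Prop :=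
  ∀ F : Q → ℝ, (∀ q q', c q ≠ none → c q = c q' → F q = F q') →
    (∀ q, c (Θ q) = none → F (Θ q) = F q) →
    ∀ q q', c q ≠ none → c q' ≠ none → (F q - F q') ^ 2 ≤ ρ * ∑ p, (F (Θ p) - F p) ^ 2

/-- One inactive site. -/
theorem rb_rem {Q Y : Type} [Fintype Q] [DecidableEq Q] {Θ : Perm Q} {c : Q → Option Y} {ρ : ℝ}
    {i : Q} (hi : c i = none) (h : RB Θ c ρ) : RB (rem Θ i) c ρ := by
  intro F hF1 hF2 q q' hq hq'
  by_cases hii : Θ i = i
  · have e : rem Θ i = Θ := rem_of_fixed hii
    rw [e] at hF2 ⊢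
    exact h F hF1 hF2 q q' hq hq'
  -- the predecessor of `i`
  obtain ⟨w, hw⟩ : ∃ w, Θ w = i := Θ.surjective i
  have hwi : w ≠ i := fun h' => hii (by rw [h'] at hw; exact hw)
  have hne : ∀ p, c p ≠ none → p ≠ i := fun p hp h' => hp (by rw [h', hi])
  let F' : Q → ℝ := Function.update F i (F w)
  have hF'i : F' i = F w := Function.update_self _ _ _
  have hF' : ∀ p, p ≠ i → F' p = F p := fun p hp => Function.update_of_ne hp _ _
  have r1 : rem Θ i w = Θ i := by rw [rem_apply hwi, if_pos hw]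
  have r2 : rem Θ i i = i := rem_self Θ i
  have r3 : ∀ p, p ≠ i → p ≠ w → rem Θ i p = Θ p ∧ Θ p ≠ i := by
    intro p hp hpw
    have h1 : Θ p ≠ i := fun h' => hpw (Θ.injective (h'.trans hw.symm))
    rw [rem_apply hp, if_neg h1]
    exact ⟨rfl, h1⟩
  have h1 : ∀ q q', c q ≠ none → c q = c q' → F' q = F' q' := by
    intro p p' hp hpp
    rw [hF' p (hne p hp), hF' p' (hne p' (by rw [← hpp]; exact hp))]
    exact hF1 p p' hp hpp
  have h2 : ∀ q, c (Θ q) = none → F' (Θ q) = F' q := by
    intro p hp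
    by_cases hpi : p = i
    · subst hpi
      rw [hF'i, hF' _ hii]
      have h3 := hF2 w (by rw [r1]; exact hp)
      rw [r1] at h3
      exact h3
    · by_cases hpw : p = w
      · subst hpw
        rw [hw, hF'i, hF' _ hpi]
      · obtain ⟨h3, h4⟩ := r3 p hpi hpw
        rw [hF' _ h4, hF' _ hpi, ← h3]
        exact hF2 p (by rw [h3]; exact hp)
  have h3 := h F' h1 h2 q q' hq hq'
  rw [hF' q (hne q hq), hF' q' (hne q' hq')] at h3
  refine h3.trans (le_of_eq ?_)
  congr 1
  rw [← Equiv.sum_comp (swap i w)]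
  refine Finset.sum_congr rfl fun p _ => ?_
  by_cases hpi : p = i
  · subst hpi
    rw [swap_apply_left, hw, hF'i, hF' w hwi, r2, sub_self, sub_self]
  · by_cases hpw : p = w
    · subst hpw
      rw [swap_apply_right, hF'i, hF' _ hii, r1]
    · obtain ⟨h4, h5⟩ := r3 p hpi hpw
      rw [swap_apply_of_ne_of_ne hpi hpw, hF' _ h5, hF' _ hpi, h4]

theorem rb_remS {Q Y : Type} [Fintype Q] [DecidableEq Q] {Θ : Perm Q} {c : Q → Option Y} {ρ : ℝ}
    (h : RB Θ c ρ) (S : Finset Q) (hS : ∀ i ∈ S, c i = none) : RB (remS Θ S) c ρ := by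
  induction S using Finset.induction_on with
  | empty =>
    rw [remS_empty]
    exact h
  | insert i S hi ih =>
    rw [remS_insert' hi]
    exact rb_rem (hS i (Finset.mem_insert_self i S))
      (ih fun j hj => hS j (Finset.mem_insert_of_mem hj))

/-- From `RB` to the networks of `Freeze.lean`. (Given `f : Y → ℝ` let `F q` be the value of `f` at
the last active site before or at `q` along `Θ`, `0` on cycles without active sites.) -/
theorem netA_of_RB {Q Y : Type} [Fintype Q] [DecidableEq Q] [Fintype Y] [DecidableEq Y]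
    {Θ : Perm Q} {c : Q → Option Y} {ρ : ℝ} (hρ : 0 ≤ ρ) (h : RB Θ c ρ) {y z : Y}
    (hy : ∃ q, c q = some y) (hz : ∃ q, c q = some z) :
    ResLe (mat (remS Θ (univ.filter fun q => c q = none)) c) ρ y z := by
  intro f
  set Θ' : Perm Q := remS Θ (univ.filter fun q => c q = none) with hΘ'
  have h' : RB Θ' c ρ := rb_remS h _ fun i hi => (Finset.mem_filter.1 hi).2
  have hfix : ∀ p, c p = none → Θ' p = p := fun p hp =>
    remS_fixed (Finset.mem_filter.2 ⟨Finset.mem_univ p, hp⟩)
  have hact : ∀ p, c (Θ' p) = none → c p = none := by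
    intro p hp
    have h1 := Θ'.injective (hfix _ hp)
    rwa [h1] at hp
  let F : Q → ℝ := fun q => (c q).elim 0 f
  have hFs : ∀ q y, c q = some y → F q = f y := by
    intro q y hq
    show (c q).elim 0 f = f y
    rw [hq]
    rfl
  obtain ⟨q, hq⟩ := hy
  obtain ⟨q', hq'⟩ := hz
  have h1 := h' F (fun p p' _ hpp => by
      show (c p).elim 0 f = (c p').elim 0 f
      rw [hpp])
    (fun p hp => by
      have h1 := Θ'.injective (hfix _ hp)
      rw [h1])
    q q' (by rw [hq]; exact Option.some_ne_none y) (by rw [hq']; exact Option.some_ne_none z)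
  rw [hFs q y hq, hFs q' z hq'] at h1
  refine h1.trans (le_of_eq ?_)
  congr 1
  have key : ∀ p, (F (Θ' p) - F p) ^ 2 = ∑ a, ∑ b,
      (if c p = some a ∧ c (Θ' p) = some b then (1 : ℝ) else 0) *
        ((f a - f b) * (f a - f b)) := by
    intro p
    cases hp : c p with
    | none =>
      rw [hfix p hp, sub_self]
      simp
    | some a =>
      cases hp' : c (Θ' p) with
      | none =>
        have h2 := hact p hp'
        rw [hp] at h2
        exact absurd h2 (Option.some_ne_none a)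
      | some b =>
        rw [hFs p a hp, hFs _ b hp']
        rw [Finset.sum_eq_single a, Finset.sum_eq_single b]
        · simp
          ring
        · intro b' _ hb'
          rw [if_neg, zero_mul]
          rintro ⟨_, h3⟩
          exact hb' (Option.some.inj h3).symm
        · intro hb
          exact absurd (Finset.mem_univ b) hb
        · intro a' _ ha'
          refine Finset.sum_eq_zero fun b' _ => ?_
          rw [if_neg, zero_mul]
          rintro ⟨h3, _⟩
          exact ha' (Option.some.inj h3).symm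
        · intro ha
          exact absurd (Finset.mem_univ a) ha
  unfold en bil
  calc ∑ p, (F (Θ' p) - F p) ^ 2 = ∑ p, ∑ a, ∑ b,
      (if c p = some a ∧ c (Θ' p) = some b then (1 : ℝ) else 0) *
        ((f a - f b) * (f a - f b)) := Finset.sum_congr rfl fun p _ => key p
    _ = ∑ a, ∑ b, ∑ p, (if c p = some a ∧ c (Θ' p) = some b then (1 : ℝ) else 0) *
        ((f a - f b) * (f a - f b)) := by
        rw [Finset.sum_comm]
        exact Finset.sum_congr rfl fun a _ => Finset.sum_comm
    _ = ∑ a, ∑ b, (mat Θ' c a b : ℝ) * ((f a - f b) * (f a - f b)) := by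
        refine Finset.sum_congr rfl fun a _ => Finset.sum_congr rfl fun b _ => ?_
        rw [← Finset.sum_mul, Finset.sum_boole]
        rfl

end Pool.Agent.PL
end

section

/-!
# Two nodes, part T5: from the freezing theorem to the law of the marked points
-/

open Finset

set_option linter.unusedSectionVars false

namespace Pool.Agent.Stirring.TN

open Pool.Agent.Stirring

variable {Q : Type} [Fintype Q] [DecidableEq Q]

/-! ### The wiring -/

theorem rem_eq (Θ : Equiv.Perm Q) (a : Q) : PL.rem Θ a = rem Θ a := by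
  unfold PL.rem rem
  rw [Equiv.mul_swap_eq_swap_mul]
  congr 2
  exact (Θ.apply_symm_apply a).symm

theorem rem_pow_ne (φ : Equiv.Perm Q) {a c : Q} (h : c ≠ a) (n : ℕ) : ((rem φ a) ^ n) c ≠ a := by
  intro h1
  have h2 : ((rem φ a) ^ n) a = a := by
    induction n with
    | zero => rfl
    | succ n ih => rw [pow_succ, Equiv.Perm.mul_apply, rem_apply, Equiv.Perm.pow_apply_eq_self_of_apply_eq_self (rem_apply φ a)]
  exact h (((rem φ a) ^ n).injective (h1.trans h2.symm))

/-- Short-circuiting the sites of `S` gives the first return map to the complement. -/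
theorem fr_remS (Θ : Equiv.Perm Q) (S : Finset Q) : FR Θ (PL.remS Θ S) Sᶜ := by
  classical
  induction S using Finset.induction_on generalizing Θ with
  | empty =>
    rw [PL.remS_empty]
    refine ⟨fun c hc => absurd (Finset.mem_compl.mpr (Finset.notMem_empty c)) hc, fun c _ => ?_⟩
    refine ⟨Finset.mem_compl.mpr (Finset.notMem_empty _), 0, by simp,
      fun m hm => absurd hm (Nat.not_lt_zero m)⟩
  | insert a S ha ih =>
    rw [PL.remS_insert ha, rem_eq]
    have h1 := ih (rem Θ a)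
    have h2 : FR (rem Θ a) (PL.remS (rem Θ a) S) (insert a S)ᶜ := by
      refine ⟨fun c hc => ?_, fun c hc => ?_⟩
      · have h3 : c ∈ insert a S := by
          by_contra h
          exact hc (Finset.mem_compl.mpr h)
        rcases Finset.mem_insert.mp h3 with h4 | h4
        · obtain ⟨-, n, h5, -⟩ := h1.on a (Finset.mem_compl.mpr ha)
          rw [h4, ← h5]
          exact Equiv.Perm.pow_apply_eq_self_of_apply_eq_self (rem_apply Θ a) _
        · exact h1.off c fun h => (Finset.mem_compl.mp h) h4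
      · have h3 : c ≠ a := by
          rintro rfl
          exact (Finset.mem_compl.mp hc) (Finset.mem_insert_self _ _)
        have h4 : c ∉ S := fun h => (Finset.mem_compl.mp hc) (Finset.mem_insert_of_mem h)
        obtain ⟨h5, n, h6, h7⟩ := h1.on c (Finset.mem_compl.mpr h4)
        refine ⟨?_, n, h6, fun m hm h8 => h7 m hm ?_⟩
        · rw [Finset.mem_compl, Finset.mem_insert, not_or]
          exact ⟨by rw [← h6]; exact rem_pow_ne Θ h3 _, Finset.mem_compl.mp h5⟩
        · rw [Finset.mem_compl] at h8 ⊢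
          exact fun h9 => h8 (Finset.mem_insert_of_mem h9)
    refine (fr_rem Θ a).trans h2 ?_
    intro c hc
    rw [Finset.mem_compl, Finset.mem_singleton]
    rintro rfl
    exact (Finset.mem_compl.mp hc) (Finset.mem_insert_self _ _)

variable {Y : Type} [Fintype Y] [DecidableEq Y]

/-- The sites of a node. -/
def fib (c : Q → Option Y) (y : Y) : Finset Q := univ.filter fun w => c w = some y

theorem mem_fib {c : Q → Option Y} {y : Y} {w : Q} : w ∈ fib c y ↔ c w = some y := by
  simp [fib]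

theorem fib_disjoint {c : Q → Option Y} {y z : Y} (h : y ≠ z) : Disjoint (fib c y) (fib c z) := by
  rw [Finset.disjoint_left]
  intro w h1 h2
  rw [mem_fib] at h1 h2
  exact h (Option.some.inj (h1.symm.trans h2))

theorem cOn_pair {c : Q → Option Y} {y z : Y} {w : Q} :
    PL.cOn c {y, z} w = none ↔ w ∈ (fib c y ∪ fib c z)ᶜ := by
  rw [Finset.mem_compl, Finset.mem_union, mem_fib, mem_fib]
  unfold PL.cOn
  cases h : c w with
  | none => simp
  | some u =>
    simp only [Finset.mem_insert, Finset.mem_singleton, Option.some.injEq]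
    split_ifs with h1 <;> simp [h1]

theorem cOn_some {c : Q → Option Y} {y z u : Y} (hu : u ∈ ({y, z} : Finset Y)) {w : Q} :
    PL.cOn c {y, z} w = some u ↔ w ∈ fib c u := by
  rw [mem_fib]
  unfold PL.cOn
  cases h : c w with
  | none => simp
  | some v =>
    simp only [Option.some.injEq]
    split_ifs with h1
    · simp
    · constructor
      · intro h2
        exact absurd h2 (by simp)
      · rintro rfl
        exact absurd hu h1

/-- The wiring of two nodes. -/
noncomputable def wir (Θ : Equiv.Perm Q) (c : Q → Option Y) (y z : Y) : Equiv.Perm Q :=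
  PL.remS Θ (fib c y ∪ fib c z)ᶜ

theorem fr_wir (Θ : Equiv.Perm Q) (c : Q → Option Y) (y z : Y) :
    FR Θ (wir Θ c y z) (fib c y ∪ fib c z) := by
  have h := fr_remS Θ (fib c y ∪ fib c z)ᶜ
  rw [compl_compl] at h
  exact h

theorem netA_pair (Θ : Equiv.Perm Q) (c : Q → Option Y) {y z u v : Y}
    (hu : u ∈ ({y, z} : Finset Y)) (hv : v ∈ ({y, z} : Finset Y)) :
    PL.netA Θ c {y, z} u v = nstr (wir Θ c y z) (fib c u) (fib c v) := by
  unfold PL.netA PL.mat nstr wir
  have h1 : (univ.filter fun w => PL.cOn c {y, z} w = none) = (fib c y ∪ fib c z)ᶜ := by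
    ext w
    rw [Finset.mem_filter]
    simp only [Finset.mem_univ, true_and]
    exact cOn_pair
  rw [h1]
  congr 1
  ext w
  rw [Finset.mem_filter, Finset.mem_filter, cOn_some hu, cOn_some hv]
  simp

theorem netA_pair_zero (Θ : Equiv.Perm Q) (c : Q → Option Y) {y z u v : Y}
    (h : u ∉ ({y, z} : Finset Y) ∨ v ∉ ({y, z} : Finset Y)) : PL.netA Θ c {y, z} u v = 0 := by
  unfold PL.netA PL.mat
  rw [Finset.card_eq_zero, Finset.filter_eq_empty_iff]
  rintro w - ⟨h1, h2⟩
  have key : ∀ (w : Q) (u : Y), PL.cOn c {y, z} w = some u → u ∈ ({y, z} : Finset Y) := by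
    intro w u hw
    unfold PL.cOn at hw
    cases hc : c w with
    | none => simp [hc] at hw
    | some v =>
      simp only [hc] at hw
      split_ifs at hw with h3
      have := Option.some.inj hw
      rw [← this]
      exact h3
  rcases h with h | h
  · exact h (key _ _ h1)
  · exact h (key _ _ h2)

/-- A bound for the resistance gives a lower bound for the number of the strands. -/
theorem nstr_of_res {Θ : Equiv.Perm Q} {c : Q → Option Y} {y z : Y} (hyz : y ≠ z) {ρ : ℝ}
    (hρ : 0 < ρ) (h : PL.ResLe (PL.netA Θ c {y, z}) ρ y z) :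
    1 / (2 * ρ) ≤ nstr (wir Θ c y z) (fib c y) (fib c z) := by
  classical
  have h1 := h fun u => if u = y then 1 else 0
  simp only [if_true, if_neg hyz.symm, sub_zero, one_pow] at h1
  set a := PL.netA Θ c {y, z} with ha
  have hy : y ∈ ({y, z} : Finset Y) := by simp
  have hz : z ∈ ({y, z} : Finset Y) := by simp
  have h2 : PL.en a (fun u => if u = y then 1 else 0) = (a y z : ℝ) + a z y := by
    unfold PL.en PL.bil
    have e1 : ∀ u v, ((a u v : ℝ) * (((if u = y then (1 : ℝ) else 0) - if v = y then 1 else 0) *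
        ((if u = y then 1 else 0) - if v = y then 1 else 0))) =
        (if u = y ∧ v = z then (a y z : ℝ) else 0) + (if u = z ∧ v = y then (a z y : ℝ) else 0) := by
      intro u v
      by_cases hu : u ∈ ({y, z} : Finset Y)
      · by_cases hv : v ∈ ({y, z} : Finset Y)
        · rw [Finset.mem_insert, Finset.mem_singleton] at hu hv
          rcases hu with rfl | rfl <;> rcases hv with rfl | rfl <;>
            simp [hyz, hyz.symm]
        · have h3 : a u v = 0 := netA_pair_zero Θ c (Or.inr hv)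
          rw [Finset.mem_insert, Finset.mem_singleton, not_or] at hv
          have e2 : ¬ (u = y ∧ v = z) := fun h => hv.2 h.2
          have e3 : ¬ (u = z ∧ v = y) := fun h => hv.1 h.2
          rw [if_neg e2, if_neg e3, h3]
          simp
      · have h3 : a u v = 0 := netA_pair_zero Θ c (Or.inl hu)
        rw [Finset.mem_insert, Finset.mem_singleton, not_or] at hu
        have e2 : ¬ (u = y ∧ v = z) := fun h => hu.1 h.1
        have e3 : ¬ (u = z ∧ v = y) := fun h => hu.2 h.1
        rw [if_neg e2, if_neg e3, h3]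
        simp
    simp only [e1, Finset.sum_add_distrib]
    congr 1
    · rw [Finset.sum_eq_single y (fun u _ hu => Finset.sum_eq_zero fun v _ => if_neg fun h => hu h.1)
        (fun h => absurd (Finset.mem_univ y) h), Finset.sum_eq_single z
        (fun v _ hv => if_neg fun h => hv h.2) (fun h => absurd (Finset.mem_univ z) h)]
      simp
    · rw [Finset.sum_eq_single z (fun u _ hu => Finset.sum_eq_zero fun v _ => if_neg fun h => hu h.1)
        (fun h => absurd (Finset.mem_univ z) h), Finset.sum_eq_single y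
        (fun v _ hv => if_neg fun h => hv h.2) (fun h => absurd (Finset.mem_univ y) h)]
      simp
  rw [h2, ha, netA_pair Θ c hy hz, netA_pair Θ c hz hy,
    ← nstr_symm (fib_disjoint hyz) fun w hw => ((fr_wir Θ c y z).on w hw).1] at h1
  rw [div_le_iff₀ (by positivity)]
  linarith

/-! ### The product law -/

theorem JL_append {π : Y → Equiv.Perm Q → ℝ} (G : Equiv.Perm Q → ℝ) (l l' : List Y)
    (Θ : Equiv.Perm Q) :
    PL.JL π G (l ++ l') Θ = PL.JL π (fun Θ' => PL.JL π G l' Θ') l Θ := by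
  induction l generalizing Θ with
  | nil => rfl
  | cons y l ih =>
    show ∑ σ, π y σ * PL.JL π G (l ++ l') (Θ * σ) = _
    simp only [ih]
    rfl

theorem JL_add {π : Y → Equiv.Perm Q → ℝ} (G H : Equiv.Perm Q → ℝ) (l : List Y)
    (Θ : Equiv.Perm Q) :
    PL.JL π (fun η => G η + H η) l Θ = PL.JL π G l Θ + PL.JL π H l Θ := by
  induction l generalizing Θ with
  | nil => rfl
  | cons y l ih =>
    show ∑ σ, π y σ * PL.JL π (fun η => G η + H η) l (Θ * σ) =
      ∑ σ, π y σ * PL.JL π G l (Θ * σ) + ∑ σ, π y σ * PL.JL π H l (Θ * σ)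
    rw [← Finset.sum_add_distrib]
    refine Finset.sum_congr rfl fun σ _ => ?_
    rw [ih]
    ring

theorem JL_smul {π : Y → Equiv.Perm Q → ℝ} (r : ℝ) (G : Equiv.Perm Q → ℝ) (l : List Y)
    (Θ : Equiv.Perm Q) :
    PL.JL π (fun η => r * G η) l Θ = r * PL.JL π G l Θ := by
  induction l generalizing Θ with
  | nil => rfl
  | cons y l ih =>
    show ∑ σ, π y σ * PL.JL π (fun η => r * G η) l (Θ * σ) =
      r * ∑ σ, π y σ * PL.JL π G l (Θ * σ)
    rw [Finset.mul_sum]
    refine Finset.sum_congr rfl fun σ _ => ?_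
    rw [ih]
    ring

theorem JL_sub {π : Y → Equiv.Perm Q → ℝ} (G H : Equiv.Perm Q → ℝ) (l : List Y)
    (Θ : Equiv.Perm Q) :
    PL.JL π (fun η => G η - H η) l Θ = PL.JL π G l Θ - PL.JL π H l Θ := by
  have h1 := JL_add (π := π) G (fun η => (-1) * H η) l Θ
  rw [JL_smul] at h1
  have h2 : (fun η => G η - H η) = fun η => G η + (-1) * H η := by
    funext η
    ring
  rw [h2, h1]
  ring

theorem JL_sum {π : Y → Equiv.Perm Q → ℝ} {κ : Type*} (s : Finset κ) (G : κ → Equiv.Perm Q → ℝ)
    (l : List Y) (Θ : Equiv.Perm Q) :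
    PL.JL π (fun η => ∑ k ∈ s, G k η) l Θ = ∑ k ∈ s, PL.JL π (G k) l Θ := by
  classical
  induction s using Finset.induction_on with
  | empty =>
    simp only [Finset.sum_empty]
    have h := JL_smul (π := π) 0 (fun _ => 0) l Θ
    simp only [zero_mul] at h
    exact h
  | insert a s ha ih =>
    simp only [Finset.sum_insert ha]
    rw [JL_add, ih]

theorem JL_mono {c : Q → Option Y} {N : ℕ} {D : ℝ} {π : Y → Equiv.Perm Q → ℝ}
    {G H : Equiv.Perm Q → ℝ} (hGH : ∀ η, G η ≤ H η) {l : List Y}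
    (hπ : ∀ y ∈ l, PL.Dens c N D y (π y)) (Θ : Equiv.Perm Q) :
    PL.JL π G l Θ ≤ PL.JL π H l Θ := by
  induction l generalizing Θ with
  | nil => exact hGH Θ
  | cons y l ih =>
    show ∑ σ, π y σ * PL.JL π G l (Θ * σ) ≤ ∑ σ, π y σ * PL.JL π H l (Θ * σ)
    refine Finset.sum_le_sum fun σ _ => ?_
    exact mul_le_mul_of_nonneg_left (ih (fun y hy => hπ y (List.mem_cons_of_mem _ hy)) _)
      ((hπ y List.mem_cons_self).nonneg σ)

theorem JL_const {c : Q → Option Y} {N : ℕ} {D : ℝ} {π : Y → Equiv.Perm Q → ℝ} (r : ℝ)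
    {l : List Y} (hπ : ∀ y ∈ l, PL.Dens c N D y (π y)) (Θ : Equiv.Perm Q) :
    PL.JL π (fun _ => r) l Θ = r := by
  induction l generalizing Θ with
  | nil => rfl
  | cons y l ih =>
    show ∑ σ, π y σ * PL.JL π (fun _ => r) l (Θ * σ) = r
    simp only [ih (fun y hy => hπ y (List.mem_cons_of_mem _ hy))]
    rw [← Finset.sum_mul, (hπ y List.mem_cons_self).sum, one_mul]

theorem JL_abs_le {c : Q → Option Y} {N : ℕ} {D : ℝ} {π : Y → Equiv.Perm Q → ℝ}
    {G H : Equiv.Perm Q → ℝ} (hGH : ∀ η, |G η| ≤ H η) {l : List Y}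
    (hπ : ∀ y ∈ l, PL.Dens c N D y (π y)) (Θ : Equiv.Perm Q) :
    |PL.JL π G l Θ| ≤ PL.JL π H l Θ := by
  rw [abs_le]
  constructor
  · have h1 := JL_mono (G := fun η => (-1) * H η) (H := G)
      (fun η => by have := (abs_le.mp (hGH η)).1; linarith) hπ Θ
    rw [JL_smul] at h1
    linarith
  · exact JL_mono (fun η => (abs_le.mp (hGH η)).2) hπ Θ

open Classical in
/-- The law of the product. -/
noncomputable def muL (π : Y → Equiv.Perm Q → ℝ) (l : List Y) (Θ η : Equiv.Perm Q) : ℝ :=
  PL.JL π (fun η' => if η' = η then 1 else 0) l Θ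

theorem JL_eq_sum (π : Y → Equiv.Perm Q → ℝ) (G : Equiv.Perm Q → ℝ) (l : List Y)
    (Θ : Equiv.Perm Q) : PL.JL π G l Θ = ∑ η, muL π l Θ η * G η := by
  classical
  have h1 : G = fun η => ∑ η', G η' * (if η = η' then 1 else 0) := by
    funext η
    simp
  conv_lhs => rw [h1]
  rw [JL_sum]
  refine Finset.sum_congr rfl fun η _ => ?_
  rw [JL_smul, mul_comm]
  unfold muL
  congr

/-! ### The last two nodes -/

/-- The law of a uniform shuffle of the sites of `y`. -/
def UnifAt (c : Q → Option Y) (y : Y) (p : Equiv.Perm Q → ℝ) : Prop :=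
  ∀ σ, p σ = if σ ∈ permsOn (fib c y) then 1 / ((fib c y).card.factorial : ℝ) else 0

theorem sum_unif {c : Q → Option Y} {y : Y} {p : Equiv.Perm Q → ℝ} (hp : UnifAt c y p)
    (f : Equiv.Perm Q → ℝ) :
    ∑ σ, p σ * f σ = (∑ σ ∈ permsOn (fib c y), f σ) / ((fib c y).card.factorial : ℝ) := by
  classical
  have h1 : ∀ σ, p σ * f σ =
      if σ ∈ permsOn (fib c y) then f σ / ((fib c y).card.factorial : ℝ) else 0 := by
    intro σ
    rw [hp σ]
    split_ifs
    · ring
    · ring
  rw [Finset.sum_congr rfl fun σ _ => h1 σ, ← Finset.sum_filter, Finset.sum_div]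
  refine Finset.sum_congr ?_ fun _ _ => rfl
  ext σ
  simp

section End

variable {ι : Type*} [Fintype ι] [DecidableEq ι]

/-- The two last nodes. -/
theorem two_last {c : Q → Option Y} {π : Y → Equiv.Perm Q → ℝ} {y y' : Y} (hyy : y ≠ y')
    (hu : UnifAt c y (π y)) (hu' : UnifAt c y' (π y')) {z : ι → Q} {i j : ι}
    (hi : c (z i) = some y) (hj : c (z j) = some y') {ρ : ℝ} (hρ : 0 < ρ) {Θ : Equiv.Perm Q}
    (h : PL.ResLe (PL.netA Θ c {y, y'}) ρ y y') (τ : Equiv.Perm ι) :
    |PL.JL π (fun η => pI τ z (η * Equiv.swap (z i) (z j)) - pI τ z η) [y, y'] Θ| ≤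
      4 * Fintype.card ι * ρ := by
  have h1 := two_node_avg (fib_disjoint hyy) (fr_wir Θ c y y') (A := 1 / (2 * ρ)) (by positivity)
    (nstr_of_res hyy hρ h) (z := z) (i := i) (j := j) (mem_fib.mpr hi) (mem_fib.mpr hj)
    (F := pI τ z) (pI_nonneg τ z) (pI_le_one τ z) (pI_congr τ z)
  have h2 : PL.JL π (fun η => pI τ z (η * Equiv.swap (z i) (z j)) - pI τ z η) [y, y'] Θ =
      (∑ σ1 ∈ permsOn (fib c y), ∑ σ2 ∈ permsOn (fib c y'),
        (pI τ z (Θ * σ1 * σ2 * Equiv.swap (z i) (z j)) - pI τ z (Θ * σ1 * σ2))) /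
      (((fib c y).card.factorial : ℝ) * ((fib c y').card.factorial : ℝ)) := by
    show ∑ σ, π y σ * (∑ σ', π y' σ' *
      (pI τ z (Θ * σ * σ' * Equiv.swap (z i) (z j)) - pI τ z (Θ * σ * σ'))) = _
    rw [sum_unif hu]
    simp only [sum_unif hu']
    rw [← Finset.sum_div, div_div, mul_comm ((fib c y').card.factorial : ℝ)]
  rw [h2]
  refine h1.trans (le_of_eq ?_)
  field_simp
  ring

/-- THE ENDGAME. All the nodes are shuffled independently, the marked ones uniformly; with all nodes
but two marked ones frozen the resistance between these two is at most `ρ` with probability at least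
`1 - δ`. Then the pattern of the marked points has approximately the law for a uniform
permutation. -/
theorem endgame {c : Q → Option Y} {N : ℕ} {π : Y → Equiv.Perm Q → ℝ} {l : List Y}
    {Θ : Equiv.Perm Q} (hl : l.Nodup) (hπ : ∀ y ∈ l, PL.Dens c N 4 y (π y)) {m : ι → Y}
    (hm : Function.Injective m) (hml : ∀ a, m a ∈ l) (hu : ∀ a, UnifAt c (m a) (π (m a)))
    {z : ι → Q} (hz : ∀ a, c (z a) = some (m a)) {ρ δ : ℝ} (hρ : 0 < ρ) (hδ : 0 ≤ δ)
    (hbad : ∀ a b, a ≠ b → ∀ l' : List Y, l'.Nodup → (∀ y, y ∈ l' ↔ y ∈ l ∧ y ∉ ({m a, m b} : Finset Y)) →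
      PL.JL π (fun Θ' => open Classical in
        if ∀ y ∈ ({m a, m b} : Finset Y), ∀ z ∈ ({m a, m b} : Finset Y),
          PL.ResLe (PL.netA Θ' c {m a, m b}) ρ y z then 0 else 1) l' Θ ≤ δ)
    (τ : Equiv.Perm ι) :
    |PL.JL π (pI τ z) l Θ - (relCl τ).card / ((Fintype.card ι).factorial : ℝ)| ≤
      2 * (Fintype.card ι : ℝ) ^ 2 * ((Fintype.card ι).factorial : ℝ) *
        (4 * Fintype.card ι * ρ + δ) := by
  classical
  have hzi : Function.Injective z := by
    intro a b h
    have h1 := hz a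
    rw [h, hz b] at h1
    exact hm (Option.some.inj h1).symm
  have hμ : ∑ η, muL π l Θ η = 1 := by
    have h1 := JL_eq_sum π (fun _ => 1) l Θ
    rw [JL_const 1 hπ] at h1
    simp only [mul_one] at h1
    exact h1.symm
  have key := ewens_of_right (μ := muL π l Θ) hμ (η := fun η => η) hzi
    (e := 4 * Fintype.card ι * ρ + δ) (by positivity) ?_ τ
  · rw [← JL_eq_sum] at key
    exact key
  intro τ a b hab
  have hne : m a ≠ m b := fun h => hab (hm h)
  rw [← JL_eq_sum π (fun η => pI τ z (η * Equiv.swap (z a) (z b))), ← JL_eq_sum π (pI τ z),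
    ← JL_sub]
  -- the two nodes last
  set l' := (l.erase (m a)).erase (m b) with hl'
  have hnd : (l.erase (m a)).Nodup := hl.erase _
  have hmem : ∀ y, y ∈ l' ↔ y ∈ l ∧ y ∉ ({m a, m b} : Finset Y) := by
    intro y
    rw [hl', hnd.mem_erase_iff, hl.mem_erase_iff, Finset.mem_insert, Finset.mem_singleton, not_or]
    tauto
  have hperm : l.Perm (l' ++ [m a, m b]) := by
    have h1 : l.Perm (m a :: l.erase (m a)) := List.perm_cons_erase (hml a)
    have h2 : (l.erase (m a)).Perm (m b :: l') :=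
      List.perm_cons_erase ((hl.mem_erase_iff).mpr ⟨fun h => hne h.symm, hml b⟩)
    refine h1.trans ((List.Perm.cons _ h2).trans ?_)
    have h3 : (m a :: m b :: l') = [m a, m b] ++ l' := rfl
    rw [h3]
    exact List.perm_append_comm
  rw [PL.JL_perm _ hl hπ hperm Θ, JL_append]
  have hπ' : ∀ y ∈ l', PL.Dens c N 4 y (π y) := fun y hy => hπ y ((hmem y).mp hy).1
  have hπ2 : ∀ y ∈ [m a, m b], PL.Dens c N 4 y (π y) := by
    intro y hy
    rcases List.mem_cons.mp hy with h | h
    · rw [h]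
      exact hπ _ (hml a)
    · rw [List.mem_singleton.mp h]
      exact hπ _ (hml b)
  have h1 : ∀ Θ' : Equiv.Perm Q,
      |PL.JL π (fun η => pI τ z (η * Equiv.swap (z a) (z b)) - pI τ z η) [m a, m b] Θ'| ≤
      4 * Fintype.card ι * ρ + (if ∀ y ∈ ({m a, m b} : Finset Y), ∀ z ∈ ({m a, m b} : Finset Y),
          PL.ResLe (PL.netA Θ' c {m a, m b}) ρ y z then (0 : ℝ) else 1) := by
    intro Θ'
    split_ifs with h
    · rw [add_zero]
      exact two_last hne (hu a) (hu b) (hz a) (hz b) hρ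
        (h _ (Finset.mem_insert_self _ _) _ (Finset.mem_insert_of_mem (Finset.mem_singleton_self _)))
        τ
    · have h2 := JL_abs_le (G := fun η => pI τ z (η * Equiv.swap (z a) (z b)) - pI τ z η)
        (H := fun _ => 1) (fun η => by
          rw [abs_le]
          have e1 := pI_nonneg τ z (η * Equiv.swap (z a) (z b))
          have e2 := pI_le_one τ z (η * Equiv.swap (z a) (z b))
          have e3 := pI_nonneg τ z η
          have e4 := pI_le_one τ z η
          constructor <;> linarith) hπ2 Θ'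
      rw [JL_const 1 hπ2] at h2
      have : (0 : ℝ) ≤ 4 * Fintype.card ι * ρ := by positivity
      linarith
  refine (JL_abs_le h1 hπ' Θ).trans ?_
  rw [JL_add, JL_const _ hπ']
  have h2 := hbad a b hab l' (hnd.erase _) hmem
  refine add_le_add le_rfl (le_trans (le_of_eq ?_) h2)
  congr

end End

/-- The freezing theorem and the endgame together. -/
theorem endgame_freeze (C1 : ℝ) (hC1 : 1 ≤ C1) : ∃ C2 : ℝ, 1 ≤ C2 ∧
    ∀ (Q : Type) [Fintype Q] [DecidableEq Q] (Y : Type) [Fintype Y] [DecidableEq Y]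
      (ι : Type) [Fintype ι] [DecidableEq ι]
      (c : Q → Option Y) (N : ℕ) (ρ κ : ℝ) (A0 : Finset Y) (π : Y → Equiv.Perm Q → ℝ) (l : List Y)
      (Θ : Equiv.Perm Q) (m : ι → Y) (z : ι → Q),
    0 < ρ → (N : ℝ) * ρ ≤ C1 → 1 ≤ κ → C2 * κ ^ 2 ≤ N →
    C2 * κ * Real.log (A0.card) ≤ Real.sqrt (Real.sqrt N) →
    (A0.card : ℝ) ^ 6 * N ≤ Real.exp κ →
    (∀ y ∈ A0, (univ.filter fun w => c w = some y).card = N) →
    (∀ q y, c q = some y → y ∈ A0) →
    l.Nodup → (∀ y, y ∈ l ↔ y ∈ A0) → (∀ y ∈ l, PL.Dens c N 4 y (π y)) →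
    (∀ y ∈ A0, ∀ z ∈ A0, PL.ResLe (PL.netA Θ c A0) (ρ / 2) y z) →
    Function.Injective m → (∀ a, UnifAt c (m a) (π (m a))) → (∀ a, c (z a) = some (m a)) →
    ∀ τ : Equiv.Perm ι,
      |PL.JL π (pI τ z) l Θ - (relCl τ).card / ((Fintype.card ι).factorial : ℝ)| ≤
        2 * (Fintype.card ι : ℝ) ^ 2 * ((Fintype.card ι).factorial : ℝ) *
          (4 * Fintype.card ι * ρ + C2 * (A0.card : ℝ) ^ 2 * Real.exp (-(κ / 2))) := by
  obtain ⟨C2, hC2, hfr⟩ := PL.freeze C1 hC1
  refine ⟨C2, hC2, ?_⟩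
  intro Q _ _ Y _ _ ι _ _ c N ρ κ A0 π l Θ m z hρ h1 h2 h3 h4 h5 h6 h7 hl hlA hπ hres hm hu hz τ
  have hmA : ∀ a, m a ∈ A0 := fun a => h7 _ _ (hz a)
  refine endgame hl hπ hm (fun a => (hlA _).mpr (hmA a)) hu hz hρ (by positivity) ?_ τ
  intro a b hab l' hl' hl'A
  have hne : m a ≠ m b := fun h => hab (hm h)
  refine hfr Q Y c N ρ κ A0 {m a, m b} π l' Θ hρ h1 h2 h3 h4 h5 ?_ ?_ h6 h7 hl' ?_ ?_ hres
  · rw [Finset.card_pair hne]
  · intro y hy
    rcases Finset.mem_insert.mp hy with h | h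
    · rw [h]
      exact hmA a
    · rw [Finset.mem_singleton.mp h]
      exact hmA b
  · intro y
    rw [hl'A, hlA]
  · intro y hy
    exact hπ y ((hl'A y).mp hy).1

end Pool.Agent.Stirring.TN
end
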