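import Mathlib
import Pool.Agent.Lib.MP_6c3d62_pr.Mg.G085

section

/-! Block (3), resistances: annealed kernels (transport, then average over the windows). -/

set_option autoImplicit false
set_option linter.unusedSectionVars false

open Finset

namespace Pool.Agent.Stirring.RS

variable {V : Type*} [Fintype V] [DecidableEq V]

/-- The colour class of `v`. -/
def cls (c : V → Option V) (v : V) : Finset V := univ.filter (fun x => c x = c v)

/-- Average over the windows of the colouring `c` (`none` = not in a window). -/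
noncomputable def av (c : V → Option V) (u : V → ℝ) (v : V) : ℝ :=
  if c v = none then u v else (∑ x ∈ cls c v, u x) / ((cls c v).card : ℝ)

/-- One level forward: transport by `T` (level `i` to level `i + 1`), then average. -/
noncomputable def stp (T : ℕ → Equiv.Perm V) (w : ℕ → V → Option V) (i : ℕ) (u : V → ℝ) : V → ℝ :=
  av (w (i + 1)) (fun v => u ((T i).symm v))

/-- The dual of `stp`. -/
noncomputable def bck (T : ℕ → Equiv.Perm V) (w : ℕ → V → Option V) (i : ℕ) (φ : V → ℝ) : V → ℝ :=
  fun v => av (w (i + 1)) φ (T i v)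

/-- `n` levels forward from level `0`. -/
noncomputable def fwd (T : ℕ → Equiv.Perm V) (w : ℕ → V → Option V) (u : V → ℝ) : ℕ → V → ℝ
  | 0 => u
  | n + 1 => stp T w n (fwd T w u n)

/-- From level `n` back to level `n - k`. -/
noncomputable def hbk (T : ℕ → Equiv.Perm V) (w : ℕ → V → Option V) (n : ℕ) (φ : V → ℝ) :
    ℕ → V → ℝ
  | 0 => φ
  | k + 1 => bck T w (n - 1 - k) (hbk T w n φ k)

lemma mem_cls (c : V → Option V) (v x : V) : x ∈ cls c v ↔ c x = c v := by
  simp [cls]

lemma cls_pos (c : V → Option V) (v : V) : 0 < ((cls c v).card : ℝ) := by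
  have : 0 < (cls c v).card := Finset.card_pos.2 ⟨v, by simp [cls]⟩
  exact_mod_cast this

lemma cls_eq (c : V → Option V) {v x : V} (h : c x = c v) : cls c x = cls c v := by
  simp [cls, h]

lemma av_nonneg (c : V → Option V) {u : V → ℝ} (hu : ∀ v, 0 ≤ u v) (v : V) : 0 ≤ av c u v := by
  unfold av
  split_ifs with h
  · exact hu v
  · exact div_nonneg (Finset.sum_nonneg fun x _ => hu x) (cls_pos c v).le

lemma av_const (c : V → Option V) (a : ℝ) (v : V) : av c (fun _ => a) v = a := by
  unfold av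
  split_ifs with h
  · rfl
  · rw [Finset.sum_const, nsmul_eq_mul, mul_div_assoc, mul_div_cancel₀]
    exact (cls_pos c v).ne'

lemma av_mono (c : V → Option V) {u u' : V → ℝ} (h : ∀ v, u v ≤ u' v) (v : V) :
    av c u v ≤ av c u' v := by
  unfold av
  split_ifs with h1
  · exact h v
  · exact div_le_div_of_nonneg_right (Finset.sum_le_sum fun x _ => h x) (cls_pos c v).le

/-- Linearity. -/
lemma av_sum_fn {ι : Type*} (s : Finset ι) (c : V → Option V) (a : ι → ℝ) (u : ι → V → ℝ) (v : V) :
    av c (fun x => ∑ k ∈ s, a k * u k x) v = ∑ k ∈ s, a k * av c (u k) v := by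
  unfold av
  split_ifs with h
  · rfl
  · rw [Finset.sum_comm, Finset.sum_div]
    refine Finset.sum_congr rfl fun k _ => ?_
    rw [← Finset.mul_sum, mul_div_assoc]

/-- Constant on classes: comes out of the average. -/
lemma av_mul (c : V → Option V) (u F : V → ℝ)
    (hF : ∀ x y, c x = c y → c x ≠ none → F x = F y) (v : V) :
    av c (fun x => u x * F x) v = av c u v * F v := by
  unfold av
  split_ifs with h
  · rfl
  · rw [div_mul_eq_mul_div, Finset.sum_mul]
    congr 1
    refine Finset.sum_congr rfl fun x hx => ?_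
    rw [mem_cls] at hx
    show u x * F x = u x * F v
    rw [hF x v hx (by rw [hx]; exact h)]

/-- Self-adjointness. -/
lemma av_adj (c : V → Option V) (u φ : V → ℝ) :
    ∑ v, av c u v * φ v = ∑ v, u v * av c φ v := by
  have key : ∀ (u φ : V → ℝ), ∑ v, av c u v * φ v =
      ∑ v, ∑ x, (if c v = none then (if x = v then u x * φ v else 0)
        else if c x = c v then u x * φ v / ((cls c v).card : ℝ) else 0) := by
    intro u φ
    refine Finset.sum_congr rfl fun v _ => ?_
    unfold av
    split_ifs with h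
    · simp
    · rw [div_mul_eq_mul_div, Finset.sum_mul, Finset.sum_div, cls, Finset.sum_filter]
  rw [key u φ]
  have key2 : ∑ v, u v * av c φ v = ∑ v, av c φ v * u v := by
    refine Finset.sum_congr rfl fun v _ => mul_comm _ _
  rw [key2, key φ u, Finset.sum_comm]
  refine Finset.sum_congr rfl fun x _ => Finset.sum_congr rfl fun v _ => ?_
  by_cases hv : c v = none
  · rw [if_pos hv]
    by_cases hx : c x = none
    · rw [if_pos hx]
      by_cases hxv : x = v
      · subst hxv; simp [mul_comm]
      · rw [if_neg hxv, if_neg (fun h => hxv h.symm)]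
    · rw [if_neg hx]
      have h1 : ¬ (c v = c x) := by rw [hv]; exact fun h => hx h.symm
      rw [if_neg h1]
      have h2 : x ≠ v := by rintro rfl; exact hx hv
      rw [if_neg h2]
  · rw [if_neg hv]
    by_cases hx : c x = none
    · rw [if_pos hx]
      have h1 : ¬ (c x = c v) := by rw [hx]; exact fun h => hv h.symm
      rw [if_neg h1]
      have h2 : v ≠ x := by rintro rfl; exact hv hx
      rw [if_neg h2]
    · rw [if_neg hx]
      by_cases h1 : c x = c v
      · rw [if_pos h1, if_pos h1.symm, cls_eq c h1, mul_comm (u x)]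
      · rw [if_neg h1, if_neg (fun h => h1 h.symm)]

lemma av_sum (c : V → Option V) (u : V → ℝ) : ∑ v, av c u v = ∑ v, u v := by
  have h := av_adj c u (fun _ => 1)
  simp only [mul_one] at h
  rw [h]
  refine Finset.sum_congr rfl fun v _ => ?_
  rw [av_const, mul_one]

variable (T : ℕ → Equiv.Perm V) (w : ℕ → V → Option V)

lemma stp_nonneg (i : ℕ) {u : V → ℝ} (hu : ∀ v, 0 ≤ u v) (v : V) : 0 ≤ stp T w i u v :=
  av_nonneg _ (fun _ => hu _) v

lemma stp_const (i : ℕ) (a : ℝ) (v : V) : stp T w i (fun _ => a) v = a := av_const _ a v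

lemma stp_mono (i : ℕ) {u u' : V → ℝ} (h : ∀ v, u v ≤ u' v) (v : V) :
    stp T w i u v ≤ stp T w i u' v := av_mono _ (fun _ => h _) v

lemma stp_sum (i : ℕ) (u : V → ℝ) : ∑ v, stp T w i u v = ∑ v, u v := by
  unfold stp
  rw [av_sum]
  exact Equiv.sum_comp (T i).symm u

lemma stp_lin {ι : Type*} (s : Finset ι) (i : ℕ) (a : ι → ℝ) (u : ι → V → ℝ) (v : V) :
    stp T w i (fun x => ∑ k ∈ s, a k * u k x) v = ∑ k ∈ s, a k * stp T w i (u k) v :=
  av_sum_fn s _ a (fun k x => u k ((T i).symm x)) v

lemma bck_nonneg (i : ℕ) {u : V → ℝ} (hu : ∀ v, 0 ≤ u v) (v : V) : 0 ≤ bck T w i u v :=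
  av_nonneg _ hu _

lemma bck_const (i : ℕ) (a : ℝ) (v : V) : bck T w i (fun _ => a) v = a := av_const _ a _

lemma bck_mono (i : ℕ) {u u' : V → ℝ} (h : ∀ v, u v ≤ u' v) (v : V) :
    bck T w i u v ≤ bck T w i u' v := av_mono _ h _

lemma bck_lin {ι : Type*} (s : Finset ι) (i : ℕ) (a : ι → ℝ) (u : ι → V → ℝ) (v : V) :
    bck T w i (fun x => ∑ k ∈ s, a k * u k x) v = ∑ k ∈ s, a k * bck T w i (u k) v :=
  av_sum_fn s _ a u _

/-- Duality of one step, with a function constant on the windows of the arrival level. -/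
lemma stp_adj (i : ℕ) (u φ : V → ℝ) : ∑ v, stp T w i u v * φ v = ∑ v, u v * bck T w i φ v := by
  unfold stp bck
  rw [av_adj]
  rw [← Equiv.sum_comp (T i)]
  refine Finset.sum_congr rfl fun v _ => ?_
  rw [Equiv.symm_apply_apply]

lemma stp_adjF (i : ℕ) (u φ F : V → ℝ)
    (hF : ∀ x y, w (i + 1) x = w (i + 1) y → w (i + 1) x ≠ none → F x = F y) :
    ∑ v, stp T w i u v * φ v * F v = ∑ v, u v * bck T w i φ v * F (T i v) := by
  have h := stp_adj T w i u (fun v => φ v * F v)
  simp only [← mul_assoc] at h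
  rw [h]
  refine Finset.sum_congr rfl fun v _ => ?_
  unfold bck
  rw [av_mul _ φ F hF, mul_assoc]

lemma fwd_nonneg {u : V → ℝ} (hu : ∀ v, 0 ≤ u v) (n : ℕ) : ∀ v, 0 ≤ fwd T w u n v := by
  induction n with
  | zero => exact hu
  | succ n ih => exact stp_nonneg T w n ih

lemma fwd_sum (u : V → ℝ) (n : ℕ) : ∑ v, fwd T w u n v = ∑ v, u v := by
  induction n with
  | zero => rfl
  | succ n ih => rw [fwd, stp_sum, ih]

lemma fwd_mono {u u' : V → ℝ} (h : ∀ v, u v ≤ u' v) (n : ℕ) :
    ∀ v, fwd T w u n v ≤ fwd T w u' n v := by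
  induction n with
  | zero => exact h
  | succ n ih => exact stp_mono T w n ih

lemma fwd_const (a : ℝ) (n : ℕ) : ∀ v, fwd T w (fun _ => a) n v = a := by
  induction n with
  | zero => exact fun _ => rfl
  | succ n ih =>
    intro v
    have : fwd T w (fun _ => a) n = fun _ => a := funext ih
    rw [fwd, this, stp_const]

lemma fwd_lin {ι : Type*} (s : Finset ι) (a : ι → ℝ) (u : ι → V → ℝ) (n : ℕ) :
    ∀ v, fwd T w (fun x => ∑ k ∈ s, a k * u k x) n v = ∑ k ∈ s, a k * fwd T w (u k) n v := by
  induction n with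
  | zero => exact fun _ => rfl
  | succ n ih =>
    intro v
    have : fwd T w (fun x => ∑ k ∈ s, a k * u k x) n =
        fun x => ∑ k ∈ s, a k * fwd T w (u k) n x := funext ih
    rw [fwd, this, stp_lin]
    rfl

lemma hbk_nonneg (n : ℕ) {u : V → ℝ} (hu : ∀ v, 0 ≤ u v) (k : ℕ) : ∀ v, 0 ≤ hbk T w n u k v := by
  induction k with
  | zero => exact hu
  | succ k ih => exact bck_nonneg T w _ ih

lemma hbk_mono (n : ℕ) {u u' : V → ℝ} (h : ∀ v, u v ≤ u' v) (k : ℕ) :
    ∀ v, hbk T w n u k v ≤ hbk T w n u' k v := by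
  induction k with
  | zero => exact h
  | succ k ih => exact bck_mono T w _ ih

lemma hbk_const (n : ℕ) (a : ℝ) (k : ℕ) : ∀ v, hbk T w n (fun _ => a) k v = a := by
  induction k with
  | zero => exact fun _ => rfl
  | succ k ih =>
    intro v
    have : hbk T w n (fun _ => a) k = fun _ => a := funext ih
    rw [hbk, this, bck_const]

lemma hbk_lin {ι : Type*} (n : ℕ) (s : Finset ι) (a : ι → ℝ) (u : ι → V → ℝ) (k : ℕ) :
    ∀ v, hbk T w n (fun x => ∑ j ∈ s, a j * u j x) k v = ∑ j ∈ s, a j * hbk T w n (u j) k v := by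
  induction k with
  | zero => exact fun _ => rfl
  | succ k ih =>
    intro v
    have : hbk T w n (fun x => ∑ j ∈ s, a j * u j x) k =
        fun x => ∑ j ∈ s, a j * hbk T w n (u j) k x := funext ih
    rw [hbk, this, bck_lin]
    rfl

/-- `D`: jump of `G` from level `m` to level `m + 1` along the strand of `v`. -/
def jmp (G : ℕ → V → ℝ) (m : ℕ) (v : V) : ℝ := G m v - G (m + 1) (T m v)

/-- Telescoping identity. -/
theorem tel (G : ℕ → V → ℝ) (n : ℕ)
    (hG : ∀ m, m < n → ∀ x y, w (m + 1) x = w (m + 1) y → w (m + 1) x ≠ none →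
      G (m + 1) x = G (m + 1) y)
    (u φ : V → ℝ) :
    ∑ v, u v * hbk T w n φ n v * G 0 v - ∑ v, fwd T w u n v * φ v * G n v =
      ∑ m ∈ range n, ∑ v, fwd T w u m v * hbk T w n φ (n - m) v * jmp T G m v := by
  have key : ∀ m, m < n → ∑ v, fwd T w u m v * hbk T w n φ (n - m) v * jmp T G m v =
      ∑ v, fwd T w u m v * hbk T w n φ (n - m) v * G m v -
      ∑ v, fwd T w u (m + 1) v * hbk T w n φ (n - (m + 1)) v * G (m + 1) v := by
    intro m hm
    have h1 : n - m = (n - (m + 1)) + 1 := by omega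
    have h2 : hbk T w n φ (n - m) = bck T w m (hbk T w n φ (n - (m + 1))) := by
      rw [h1, hbk]
      congr 1
      omega
    have h3 := stp_adjF T w m (fwd T w u m) (hbk T w n φ (n - (m + 1))) (G (m + 1)) (hG m hm)
    rw [show fwd T w u (m + 1) = stp T w m (fwd T w u m) from rfl, h3, h2, ← Finset.sum_sub_distrib]
    refine Finset.sum_congr rfl fun v _ => ?_
    unfold jmp
    ring
  rw [Finset.sum_congr rfl fun m hm => key m (Finset.mem_range.1 hm),
    Finset.sum_range_sub' (fun m => ∑ v, fwd T w u m v * hbk T w n φ (n - m) v * G m v) n]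
  simp [fwd, hbk]

end Pool.Agent.Stirring.RS
end

section

/-! G4. The semigroup and left translations. -/

set_option autoImplicit false
set_option linter.unusedSectionVars false

open Finset Equiv Pool.Agent.Stirring

namespace Pool.Agent.PL

section Gen

variable {V : Type*} [Fintype V] [DecidableEq V]

theorem g4_stepT_left (c : V × V → ℝ) (n : ℕ) (H : Perm V → ℝ) (g σ : Perm V) :
    (Hier.stepT c ^ n) (fun x => H (g * x)) σ = (Hier.stepT c ^ n) H (g * σ) := by
  induction n generalizing σ with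
  | zero => rfl
  | succ n ih =>
    rw [Hier.stepT_pow_succ, Hier.stepT_pow_succ]
    refine Finset.sum_congr rfl fun p _ => ?_
    rw [ih, mul_assoc]

/-- The semigroup commutes with left translations. -/
theorem g4_sg_left (c : V × V → ℝ) (t : ℝ) (H : Perm V → ℝ) (g σ : Perm V) :
    Hier.sg c t (fun x => H (g * x)) σ = Hier.sg c t H (g * σ) := by
  have h1 := Hier.sg_hasSum c t (fun x => H (g * x)) σ
  have h2 := Hier.sg_hasSum c t H (g * σ)
  simp only [g4_stepT_left] at h1
  exact h1.unique h2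

/-- G4 on any finite set. -/
theorem g4_sg_split (c : V × V → ℝ) (s t : ℝ) (H : Perm V → ℝ) (σ : Perm V) :
    Hier.sg c (s + t) H σ = Hier.sg c s (fun g => Hier.sg c t (fun x => H (g * x)) 1) σ := by
  have h : (fun g => Hier.sg c t (fun x => H (g * x)) 1) = Hier.sg c t H := by
    funext g
    rw [g4_sg_left, mul_one]
  rw [h, Hier.sg_add_time]
  rfl

end Gen

section Torus

variable {d L : ℕ} [NeZero L]

/-- G4. The filler: the law of the whole evolution up to time `t = J h + t'`. -/
theorem sg_split (c : (Fin d → ZMod L) × (Fin d → ZMod L) → ℝ) (s t : ℝ)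
    (H : Perm (Fin d → ZMod L) → ℝ) :
    Hier.sg c (s + t) H 1 = Hier.sg c s (fun g => Hier.sg c t (fun x => H (g * x)) 1) 1 :=
  g4_sg_split c s t H 1

end Torus

end Pool.Agent.PL
end
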