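import Pool.Agent.Lib.MP_6c3d62_pr.Mg.G066
import Pool.Agent.Lib.MP_6c3d62_pr.Mg.G064
import Pool.Agent.Lib.MP_6c3d62_pr.Mg.G067
import Pool.Agent.Lib.MP_6c3d62_pr.Mg.G052
import Pool.Agent.Lib.MP_6c3d62_pr.Mg.G059
import Pool.Agent.Lib.MP_6c3d62_pr.Mg.G093
import Pool.Agent.Lib.MP_6c3d62_pr.Mg.G065

section

/-! Block (3): box to box, and the bound of all resistances. -/

set_option autoImplicit false
set_option linter.unusedSectionVars false

open Finset

namespace Pool.Agent.Stirring.RS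

open PL

/-- Means over boxes. -/
noncomputable def mn {d L : ℕ} [NeZero L] (s : ℕ) (f : (Fin d → ZMod L) → ℝ)
    (b : Fin d → ZMod L) : ℝ := (∑ v' ∈ bx s b, f v') / ((bx s b).card : ℝ)

/-- Energy between the levels. -/
noncomputable def en3 {V : Type} [Fintype V] (S : ℕ → Equiv.Perm V) (J : ℕ) (F : ℕ → V → ℝ) : ℝ :=
  ∑ j ∈ range J, ∑ v', (F (j + 1) (S j v') - F j v') ^ 2

lemma en3_nonneg {V : Type} [Fintype V] (S : ℕ → Equiv.Perm V) (J : ℕ) (F : ℕ → V → ℝ) :
    0 ≤ en3 S J F := Finset.sum_nonneg fun _ _ => Finset.sum_nonneg fun _ _ => sq_nonneg _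

theorem hub_hub (d : ℕ) (c1 : ℝ) (hc1 : 0 < c1) (ov : ℕ)
    (L : ℕ) [NeZero L] (S : ℕ → Equiv.Perm (Fin d → ZMod L))
      (w : ℕ → (Fin d → ZMod L) → Option (Fin d → ZMod L)) (J N r : ℕ) (M Kw : ℝ)
    (hr : 8 ≤ r) (hL : 2 * r ≤ L) (hE : GoodEnv S w J N r c1 M Kw)
    (F : ℕ → (Fin d → ZMod L) → ℝ)
    (hF : ∀ j ≤ J, ∀ v v', w j v ≠ none → w j v = w j v' → F j v = F j v')
    (ι : Type) [Fintype ι] (a b : ι → (Fin d → ZMod L))
    (hab : ∀ m, near (r / 4) (a m) (b m))
    (hov : ∀ v, (univ.filter fun m => near (r / 4) v (a m)).card ≤ ov) :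
      ∑ m, (mn (r / 4) (F 0) (a m) - mn (r / 4) (F J) (b m)) ^ 2
        ≤ ((4 ^ d / c1) ^ 2 * (ov * 4 ^ d)) * J / (r : ℝ) ^ d * en3 S J F := by
  have hrr : (0 : ℝ) < (r : ℝ) ^ d := by positivity
  have hCon : Con w F J := by
    intro m hm x y h1 h2
    exact hF (m + 1) (by omega) x y h2 h1
  have hdl : ∀ v : Fin d → ZMod L, dl v = (Pi.single v (1 : ℝ) : (Fin d → ZMod L) → ℝ) := by
    intro v; funext x
    rw [Pi.single_apply]; rfl
  have one : ∀ m, (mn (r / 4) (F 0) (a m) - mn (r / 4) (F J) (b m)) ^ 2 ≤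
      (4 ^ d / c1) ^ 2 * J * ∑ j ∈ range J, ∑ v, fwd S w (ub (r / 4) (a m)) j v *
        (jmp S F j v) ^ 2 := by
    intro m
    have h1 := law_to S w (G := F) (n := J) hCon (ub (r / 4) (a m)) (ub (r / 4) (b m))
      (ub_nonneg _ _) (ub_sum _ _) (ub_nonneg _ _) (ub_sum _ _)
      (1 / ((bx (r / 4) (b m)).card : ℝ)) (c1 / (r : ℝ) ^ d) (by positivity) (by positivity)
      (ub_le _ _)
      (by
        intro v v' hv hv'
        rw [hdl, ← kr_eq0]
        refine hE.low 0 J (by omega) (by omega) v v' ?_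
        exact near_mono (by omega) (near_trans (near_trans (ub_ne hv) (hab m))
          (near_symm (ub_ne hv'))))
    rw [ub_mean, ub_mean] at h1
    refine h1.trans ?_
    have hBpos := bx_pos (r / 4) (b m)
    have hratio : (1 / ((bx (r / 4) (b m)).card : ℝ)) / (c1 / (r : ℝ) ^ d) ≤ 4 ^ d / c1 := by
      have h1 := card_bx_quarter hr hL (b m)
      rw [div_div_eq_mul_div, div_mul_eq_mul_div, one_mul, div_div,
        div_le_div_iff₀ (by positivity) hc1]
      nlinarith
    have hratio0 : 0 ≤ (1 / ((bx (r / 4) (b m)).card : ℝ)) / (c1 / (r : ℝ) ^ d) := by positivity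
    refine mul_le_mul_of_nonneg_right (mul_le_mul_of_nonneg_right
      (pow_le_pow_left₀ hratio0 hratio 2) (Nat.cast_nonneg _)) ?_
    exact Finset.sum_nonneg fun j _ => Finset.sum_nonneg fun v _ =>
      mul_nonneg (fwd_nonneg S w (ub_nonneg _ _) j v) (sq_nonneg _)
  -- overlap
  have hsum : ∀ j v, ∑ m, fwd S w (ub (r / 4) (a m)) j v ≤ ov * 4 ^ d / (r : ℝ) ^ d := by
    intro j v
    have h1 := fwd_lin S w (univ : Finset ι) (fun _ => (1 : ℝ)) (fun m => ub (r / 4) (a m)) j v
    have h2 : ∑ m, fwd S w (ub (r / 4) (a m)) j v =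
        fwd S w (fun x => ∑ m ∈ (univ : Finset ι), (1 : ℝ) * ub (r / 4) (a m) x) j v := by
      rw [h1]; simp
    rw [h2]
    have h3 : ∀ x, ∑ m ∈ (univ : Finset ι), (1 : ℝ) * ub (r / 4) (a m) x ≤
        ov * 4 ^ d / (r : ℝ) ^ d := by
      intro x
      have h4 : ∀ m, (1 : ℝ) * ub (r / 4) (a m) x ≤
          if near (r / 4) x (a m) then 4 ^ d / (r : ℝ) ^ d else 0 := by
        intro m
        rw [one_mul]
        unfold ub
        split_ifs
        · have h5 := card_bx_quarter hr hL (a m)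
          rw [div_le_div_iff₀ (bx_pos _ _) hrr, one_mul]
          exact h5
        · exact le_rfl
      refine (Finset.sum_le_sum fun m _ => h4 m).trans ?_
      rw [← Finset.sum_filter, Finset.sum_const, nsmul_eq_mul, mul_div_assoc]
      refine mul_le_mul_of_nonneg_right ?_ (by positivity)
      exact_mod_cast hov x
    have h5 := fwd_mono S w h3 j v
    rwa [fwd_const] at h5
  calc _ ≤ ∑ m, (4 ^ d / c1) ^ 2 * J * ∑ j ∈ range J, ∑ v, fwd S w (ub (r / 4) (a m)) j v *
        (jmp S F j v) ^ 2 := Finset.sum_le_sum fun m _ => one m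
    _ = (4 ^ d / c1) ^ 2 * J * ∑ j ∈ range J, ∑ v, (∑ m, fwd S w (ub (r / 4) (a m)) j v) *
        (jmp S F j v) ^ 2 := by
      rw [← Finset.mul_sum]
      congr 1
      rw [Finset.sum_comm]
      refine Finset.sum_congr rfl fun j _ => ?_
      rw [Finset.sum_comm]
      refine Finset.sum_congr rfl fun v _ => ?_
      rw [Finset.sum_mul]
    _ ≤ (4 ^ d / c1) ^ 2 * J * ∑ j ∈ range J, ∑ v, (ov * 4 ^ d / (r : ℝ) ^ d) *
        (jmp S F j v) ^ 2 := by
      refine mul_le_mul_of_nonneg_left ?_ (by positivity)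
      refine Finset.sum_le_sum fun j _ => Finset.sum_le_sum fun v _ => ?_
      exact mul_le_mul_of_nonneg_right (hsum j v) (sq_nonneg _)
    _ = _ := by
      have h6 : ∑ j ∈ range J, ∑ v, (ov * 4 ^ d / (r : ℝ) ^ d) * (jmp S F j v) ^ 2 =
          (ov * 4 ^ d / (r : ℝ) ^ d) * en3 S J F := by
        unfold en3
        rw [Finset.mul_sum]
        refine Finset.sum_congr rfl fun j _ => ?_
        rw [Finset.mul_sum]
        refine Finset.sum_congr rfl fun v _ => ?_
        unfold jmp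
        ring
      rw [h6]
      ring

/-- `(a + b + c + e + f)² ≤ 5 (…)`. -/
lemma five_sq (a b c e f X : ℝ) (ha : a ^ 2 ≤ X) (hb : b ^ 2 ≤ X) (hc : c ^ 2 ≤ X)
    (he : e ^ 2 ≤ X) (hf : f ^ 2 ≤ X) : (a + b + c + e + f) ^ 2 ≤ 25 * X := by
  nlinarith [sq_nonneg (a - b), sq_nonneg (a - c), sq_nonneg (a - e), sq_nonneg (a - f),
    sq_nonneg (b - c), sq_nonneg (b - e), sq_nonneg (b - f), sq_nonneg (c - e),
    sq_nonneg (c - f), sq_nonneg (e - f)]

/-- Energy of `H0` on the coarse torus. -/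
lemma coarse_sum {d K : ℕ} [NeZero K] (H0 HJ : (Fin d → ZMod K) → ℝ) (X : ℝ)
    (same : ∑ k, (H0 k - HJ k) ^ 2 ≤ X)
    (adj : ∀ e : Fin d, ∑ k, (H0 k - HJ (k + Pi.single e 1)) ^ 2 ≤ X) :
    ∑ k, ∑ e, (H0 k - H0 (k + Pi.single e 1)) ^ 2 ≤ 4 * d * X := by
  have h3 : ∀ k (e : Fin d), (H0 k - H0 (k + Pi.single e 1)) ^ 2 ≤
      2 * (H0 k - HJ (k + Pi.single e 1)) ^ 2 +
      2 * (H0 (k + Pi.single e 1) - HJ (k + Pi.single e 1)) ^ 2 := by
    intro k e
    nlinarith [sq_nonneg ((H0 k - HJ (k + Pi.single e 1)) +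
      (H0 (k + Pi.single e 1) - HJ (k + Pi.single e 1)))]
  have h4 : ∀ e : Fin d, ∑ k, (H0 k - H0 (k + Pi.single e 1)) ^ 2 ≤ 4 * X := by
    intro e
    refine (Finset.sum_le_sum fun k _ => h3 k e).trans ?_
    rw [Finset.sum_add_distrib, ← Finset.mul_sum, ← Finset.mul_sum]
    have h5 : ∑ k, (H0 (k + Pi.single e 1) - HJ (k + Pi.single e 1)) ^ 2 =
        ∑ k, (H0 k - HJ k) ^ 2 :=
      Fintype.sum_equiv (Equiv.addRight (Pi.single e 1 : Fin d → ZMod K)) _ _ (fun _ => rfl)
    rw [h5]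
    have := adj e
    linarith
  rw [Finset.sum_comm]
  refine (Finset.sum_le_sum fun e _ => h4 e).trans ?_
  rw [Finset.sum_const, card_univ, Fintype.card_fin, nsmul_eq_mul]
  refine le_of_eq ?_
  ring

/-- Everything at the level of the functions `F : ℕ → V → ℝ`. -/
theorem res_levels (d : ℕ) (hd : 2 ≤ d) (c1 : ℝ) (hc1 : 0 < c1) : ∃ C : ℝ, 1 ≤ C ∧
    ∀ (L : ℕ) [NeZero L] (S : ℕ → Equiv.Perm (Fin d → ZMod L))
      (w : ℕ → (Fin d → ZMod L) → Option (Fin d → ZMod L)) (J N r : ℕ) (M Kw : ℝ),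
    1 ≤ N → 1 ≤ J → 8 ≤ r → 2 * r ≤ L → 0 ≤ M → GoodEnv S w J N r c1 M Kw → M * Kw ≤ N →
    (N : ℝ) * J * (1 + Real.log L) ^ 2 ≤ (r : ℝ) ^ d →
    ∀ (F : ℕ → (Fin d → ZMod L) → ℝ),
      (∀ j ≤ J, ∀ v v', w j v ≠ none → w j v = w j v' → F j v = F j v') →
      (∀ j < J, ∀ v, w (j + 1) (S j v) = none → F (j + 1) (S j v) = F j v) →
      ∀ i i' v v', i ≤ J → i' ≤ J → w i v ≠ none → w i' v' ≠ none →
        (F i v - F i' v') ^ 2 ≤ C / N * en3 S J F := by
  obtain ⟨C6, hC6, lat⟩ := lattice_res d hd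
  obtain ⟨ov, cen⟩ := centres d (by omega)
  obtain ⟨C3, hC3⟩ : ∃ C3 : ℝ, C3 = 2 * (4 ^ d / c1) ^ 2 := ⟨_, rfl⟩
  obtain ⟨C5, hC5⟩ : ∃ C5 : ℝ, C5 = (4 ^ d / c1) ^ 2 * (ov * 4 ^ d) := ⟨_, rfl⟩
  have hC30 : 0 ≤ C3 := by rw [hC3]; positivity
  have hC50 : 0 ≤ C5 := by rw [hC5]; positivity
  obtain ⟨C7, hC7⟩ : ∃ C7 : ℝ, C7 = C3 + C5 + C6 * (4 * d * C5) := ⟨_, rfl⟩
  have h70 : 0 ≤ C6 * (4 * d * C5) := by positivity
  refine ⟨1 + 25 * C7, by linarith, ?_⟩
  intro L _ S w J N r M Kw hN hJ hr hL hM hE hMK hbig F hF hF' i i' v v' hi hi' hv hv'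
  have hNr : (0 : ℝ) < N := by positivity
  have hJr : (1 : ℝ) ≤ J := by exact_mod_cast hJ
  have hrr : (0 : ℝ) < (r : ℝ) ^ d := by positivity
  have hlog : 0 ≤ Real.log L := Real.log_natCast_nonneg L
  have hEn := en3_nonneg S J F
  obtain ⟨L', _, a, hL', hadj, hcov, hovl, -, -⟩ := cen L (r / 4) (by omega) (by omega)
  -- `J / r^d ≤ 1/N`
  have hJr2 : (J : ℝ) / (r : ℝ) ^ d * (1 + Real.log L) ^ 2 ≤ 1 / N := by
    rw [div_mul_eq_mul_div, div_le_div_iff₀ hrr hNr]
    calc (J : ℝ) * (1 + Real.log L) ^ 2 * N = (N : ℝ) * J * (1 + Real.log L) ^ 2 := by ring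
      _ ≤ _ := hbig
      _ = _ := by ring
  have hJr1 : (J : ℝ) / (r : ℝ) ^ d ≤ 1 / N := by
    refine le_trans ?_ hJr2
    refine le_mul_of_one_le_right (by positivity) ?_
    nlinarith
  obtain ⟨H0, hH0⟩ : ∃ H0 : (Fin d → ZMod L') → ℝ, H0 = fun k => mn (r / 4) (F 0) (a k) :=
    ⟨_, rfl⟩
  obtain ⟨HJ, hHJ⟩ : ∃ HJ : (Fin d → ZMod L') → ℝ, HJ = fun k => mn (r / 4) (F J) (a k) :=
    ⟨_, rfl⟩
  -- same cube
  have same : ∑ k, (H0 k - HJ k) ^ 2 ≤ C5 * J / (r : ℝ) ^ d * en3 S J F := by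
    rw [hH0, hHJ, hC5]
    exact hub_hub d c1 hc1 ov L S w J N r M Kw hr hL hE F hF (Fin d → ZMod L') a a
      (fun m => near_self _ _) hovl
  have adj : ∀ e : Fin d, ∑ k, (H0 k - HJ (k + Pi.single e 1)) ^ 2 ≤
      C5 * J / (r : ℝ) ^ d * en3 S J F := by
    intro e
    rw [hH0, hHJ, hC5]
    exact hub_hub d c1 hc1 ov L S w J N r M Kw hr hL hE F hF (Fin d → ZMod L') a
      (fun k => a (k + Pi.single e 1)) (fun m => hadj m e) hovl
  have small : C5 * J / (r : ℝ) ^ d * en3 S J F ≤ C5 / N * en3 S J F := by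
    refine mul_le_mul_of_nonneg_right ?_ hEn
    rw [mul_div_assoc]
    calc C5 * (J / (r : ℝ) ^ d) ≤ C5 * (1 / N) := mul_le_mul_of_nonneg_left hJr1 hC50
      _ = _ := by ring
  have same1 : ∀ k, (H0 k - HJ k) ^ 2 ≤ C5 / N * en3 S J F := by
    intro k
    refine le_trans ?_ (same.trans small)
    exact Finset.single_le_sum (f := fun k => (H0 k - HJ k) ^ 2) (fun _ _ => sq_nonneg _)
      (mem_univ k)
  -- lattice
  have far : ∀ k k', (H0 k - H0 k') ^ 2 ≤ C6 * (4 * d * C5) / N * en3 S J F := by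
    intro k k'
    have h1 := lat L' H0 k k'
    have h2 : ∑ k, ∑ e, (H0 k - H0 (k + Pi.single e 1)) ^ 2 ≤
        4 * d * (C5 * J / (r : ℝ) ^ d * en3 S J F) := coarse_sum H0 HJ _ same adj
    have h6 : (1 + Real.log L') ^ 2 ≤ (1 + Real.log L) ^ 2 := by
      have hL'0 : 0 < (L' : ℝ) := by
        have : L' ≠ 0 := NeZero.ne L'
        positivity
      have : Real.log L' ≤ Real.log L := Real.log_le_log hL'0 (by exact_mod_cast hL')
      have h0 := Real.log_natCast_nonneg L'
      exact pow_le_pow_left₀ (by linarith) (by linarith) 2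
    calc _ ≤ C6 * (1 + Real.log L') ^ 2 * ∑ k, ∑ e, (H0 k - H0 (k + Pi.single e 1)) ^ 2 := h1
      _ ≤ C6 * (1 + Real.log L) ^ 2 * (4 * d * (C5 * J / (r : ℝ) ^ d * en3 S J F)) := by
          refine mul_le_mul (mul_le_mul_of_nonneg_left h6 (by linarith)) h2 ?_ ?_
          · exact Finset.sum_nonneg fun _ _ => Finset.sum_nonneg fun _ _ => sq_nonneg _
          · have : 0 ≤ C6 := by linarith
            positivity
      _ = C6 * (4 * d * C5) * (J / (r : ℝ) ^ d * (1 + Real.log L) ^ 2) * en3 S J F := by ring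
      _ ≤ C6 * (4 * d * C5) * (1 / N) * en3 S J F := by
          refine mul_le_mul_of_nonneg_right (mul_le_mul_of_nonneg_left hJr2 h70) hEn
      _ = _ := by ring
  -- nodes
  have hX : ∀ {c : ℝ}, c ≤ C7 → c / N * en3 S J F ≤ C7 / N * en3 S J F := by
    intro c hc
    exact mul_le_mul_of_nonneg_right (div_le_div_of_nonneg_right hc hNr.le) hEn
  have node : ∀ i v, i ≤ J → w i v ≠ none → ∃ k, ∃ e : ℝ, e ^ 2 ≤ C7 / N * en3 S J F ∧
      ∃ f : ℝ, f ^ 2 ≤ C7 / N * en3 S J F ∧ F i v = H0 k + e + f := by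
    intro i v hi hv
    obtain ⟨x, hx⟩ := Option.ne_none_iff_exists'.1 hv
    have hmem : v ∈ win w i x := Finset.mem_filter.2 ⟨mem_univ _, hx⟩
    obtain ⟨k, hk⟩ := hcov v
    by_cases h2 : 2 * i ≤ J
    · have h3 : (F i v - HJ k) ^ 2 ≤ C3 / N * en3 S J F := by
        rw [hHJ, hC3]
        exact node_fwd d c1 hc1 L S w J N r M Kw hN hr hL hM hE hMK F hF hF' i x v (a k) h2
          hmem hk
      refine ⟨k, HJ k - H0 k, ?_, F i v - HJ k, ?_, by ring⟩
      · have h4 := same1 k
        have h5 : (HJ k - H0 k) ^ 2 = (H0 k - HJ k) ^ 2 := by ring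
        rw [h5]
        exact h4.trans (hX (by linarith))
      · exact h3.trans (hX (by linarith))
    · have h3 : (F i v - H0 k) ^ 2 ≤ C3 / N * en3 S J F := by
        rw [hH0, hC3]
        exact node_bwd d c1 hc1 L S w J N r M Kw hN hr hL hM hE hMK F hF hF' i x v (a k) hi
          (by omega) hmem hk
      refine ⟨k, 0, ?_, F i v - H0 k, ?_, by ring⟩
      · have : 0 ≤ C7 / N * en3 S J F := by
          have h7 : 0 ≤ C7 := by linarith
          positivity
        simpa using this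
      · exact h3.trans (hX (by linarith))
  obtain ⟨k, e, he, f, hf, h1⟩ := node i v hi hv
  obtain ⟨k', e', he', f', hf', h1'⟩ := node i' v' hi' hv'
  have h8 := (far k k').trans (hX (c := C6 * (4 * d * C5)) (by linarith))
  have h9 := five_sq e f (H0 k - H0 k') (-e') (-f') (C7 / N * en3 S J F) he hf h8
    (by rw [neg_sq]; exact he') (by rw [neg_sq]; exact hf')
  have h10 : F i v - F i' v' = e + f + (H0 k - H0 k') + -e' + -f' := by
    rw [h1, h1']; ring
  rw [h10]
  refine h9.trans ?_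
  have h11 : 0 ≤ 1 / (N : ℝ) * en3 S J F := by positivity
  calc 25 * (C7 / N * en3 S J F) ≤ 25 * (C7 / N * en3 S J F) + 1 / (N : ℝ) * en3 S J F := by
        linarith
    _ = _ := by ring

/-- **Block (3).** -/
theorem res_bound (d : ℕ) (hd : 2 ≤ d) (c1 : ℝ) (hc1 : 0 < c1) : ∃ C : ℝ, 1 ≤ C ∧
    ∀ (L : ℕ) [NeZero L] (S : ℕ → Equiv.Perm (Fin d → ZMod L)) (Φ : Equiv.Perm (Fin d → ZMod L))
      (w : ℕ → (Fin d → ZMod L) → Option (Fin d → ZMod L)) (J N r : ℕ) (M Kw : ℝ),
    1 ≤ N → 1 ≤ J → 8 ≤ r → 2 * r ≤ L → 0 ≤ M → GoodEnv S w J N r c1 M Kw → M * Kw ≤ N →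
    (N : ℝ) * J * (1 + Real.log L) ^ 2 ≤ (r : ℝ) ^ d →
    RB (stP J S Φ) (stc J w) (C / N) := by
  obtain ⟨C, hC, h⟩ := res_levels d hd c1 hc1
  refine ⟨C, hC, ?_⟩
  intro L _ S Φ w J N r M Kw hN hJ hr hL hM hE hMK hbig F hF hF' q q' hq hq'
  set F' : ℕ → (Fin d → ZMod L) → ℝ := fun j v =>
    if hj : j < J + 1 then F (⟨j, hj⟩, v) else 0 with hF'def
  have hval : ∀ (j : ℕ) (hj : j < J + 1) v, F' j v = F (⟨j, hj⟩, v) := by
    intro j hj v
    simp only [hF'def, dif_pos hj]
  have hne : ∀ (j : ℕ) (hj : j < J + 1) v, w j v ≠ none ↔ stc J w (⟨j, hj⟩, v) ≠ none := by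
    intro j hj v
    unfold stc
    simp
  have hstep : ∀ (j : ℕ) (hj : j < J) v, stP J S Φ (⟨j, by omega⟩, v) =
      ((⟨j + 1, by omega⟩ : Fin (J + 1)), S j v) := by
    intro j hj v
    have h1 : finRotate (J + 1) ⟨j, by omega⟩ = (⟨j + 1, by omega⟩ : Fin (J + 1)) :=
      finRotate_of_lt hj
    have h2 : ¬ (j = J) := by omega
    unfold stP
    simp only [Equiv.prodShear_apply, h1, h2, if_false]
  have c1' : ∀ j ≤ J, ∀ v v', w j v ≠ none → w j v = w j v' → F' j v = F' j v' := by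
    intro j hj v v' h1 h2
    rw [hval j (by omega), hval j (by omega)]
    refine hF _ _ ((hne j (by omega) v).1 h1) ?_
    unfold stc
    simp only [h2]
  have c2' : ∀ j < J, ∀ v, w (j + 1) (S j v) = none → F' (j + 1) (S j v) = F' j v := by
    intro j hj v h1
    rw [hval (j + 1) (by omega), hval j (by omega)]
    have h2 := hF' (⟨j, by omega⟩, v)
    rw [hstep j hj v] at h2
    refine h2 ?_
    unfold stc
    simp [h1]
  have main := h L S w J N r M Kw hN hJ hr hL hM hE hMK hbig F' c1' c2' q.1 q'.1 q.2 q'.2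
    (by have := q.1.2; omega) (by have := q'.1.2; omega)
    ((hne q.1 q.1.2 q.2).2 hq) ((hne q'.1 q'.1.2 q'.2).2 hq')
  rw [hval q.1 q.1.2, hval q'.1 q'.1.2] at main
  refine main.trans ?_
  refine mul_le_mul_of_nonneg_left ?_ (by positivity)
  -- energies
  have h3 : ∑ p, (F (stP J S Φ p) - F p) ^ 2 =
      ∑ j : Fin (J + 1), ∑ v, (F (stP J S Φ (j, v)) - F (j, v)) ^ 2 :=
    Fintype.sum_prod_type _
  rw [h3, Fin.sum_univ_castSucc]
  have h4 : en3 S J F' = ∑ j : Fin J, ∑ v, (F (stP J S Φ (j.castSucc, v)) - F (j.castSucc, v)) ^ 2 := by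
    unfold en3
    rw [Finset.sum_range]
    refine Finset.sum_congr rfl fun j _ => Finset.sum_congr rfl fun v _ => ?_
    have hj := j.2
    rw [hval (j + 1) (by omega), hval j (by omega)]
    have := hstep j hj v
    show _ = (F (stP J S Φ ((⟨j, by omega⟩ : Fin (J + 1)), v)) - F (⟨j, by omega⟩, v)) ^ 2
    rw [this]
  rw [h4]
  refine le_add_of_nonneg_right ?_
  exact Finset.sum_nonneg fun _ _ => sq_nonneg _

end Pool.Agent.Stirring.RS

namespace Pool.Agent.PL

/-- **Block (3).** All resistances are at most `C / N`. -/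
theorem res_bound (d : ℕ) (hd : 2 ≤ d) (c1 : ℝ) (hc1 : 0 < c1) : ∃ C : ℝ, 1 ≤ C ∧
    ∀ (L : ℕ) [NeZero L] (S : ℕ → Equiv.Perm (Fin d → ZMod L)) (Φ : Equiv.Perm (Fin d → ZMod L))
      (w : ℕ → (Fin d → ZMod L) → Option (Fin d → ZMod L)) (J N r : ℕ) (M Kw : ℝ),
    1 ≤ N → 1 ≤ J → 8 ≤ r → 2 * r ≤ L → 0 ≤ M → GoodEnv S w J N r c1 M Kw → M * Kw ≤ N →
    (N : ℝ) * J * (1 + Real.log L) ^ 2 ≤ (r : ℝ) ^ d →
    RB (stP J S Φ) (stc J w) (C / N) :=
  Pool.Agent.Stirring.RS.res_bound d hd c1 hc1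

end Pool.Agent.PL
end

section

/-! LOCAL version, block (3): what block (2) delivers for an environment whose windows lie in a box. -/

set_option autoImplicit false
set_option linter.unusedSectionVars false

open Finset Equiv

namespace Pool.Agent.PL

/-- The deep box: corner `o`, side `s`. -/
def dp {d L : ℕ} (o : Fin d → ZMod L) (s : ℕ) (v : Fin d → ZMod L) : Prop :=
  ∀ i, (v i - o i).val < s

/-- What block (2) delivers for an environment. The windows lie within distance `r / 8` of the deep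
box. -/
structure GoodEnvL {d L : ℕ} [NeZero L] (S : ℕ → Perm (Fin d → ZMod L))
    (w : ℕ → (Fin d → ZMod L) → Option (Fin d → ZMod L)) (J N r : ℕ) (c1 M Kw : ℝ)
    (o : Fin d → ZMod L) (s : ℕ) : Prop where
  /-- windows have `N` sites -/
  card : ∀ j ≤ J, ∀ x, (win w j x).Nonempty → (win w j x).card = N
  /-- windows are small (their diameter is much smaller than `r`) -/
  diam : ∀ j ≤ J, ∀ x, ∀ v ∈ win w j x, ∀ v' ∈ win w j x, near (r / 8) v v'
  /-- windows are close to the deep box -/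
  act : ∀ j ≤ J, ∀ v, w j v ≠ none → ∃ u, dp o s u ∧ near (r / 8) v u
  /-- (O1), between deep points -/
  low : ∀ v v', dp o s v → dp o s v' → near r v v' →
    c1 / (r : ℝ) ^ d ≤ kr S w 0 J (Pi.single v 1) v'
  /-- (O1), from a window of a level `i ≤ J / 2` to a deep point of level `J` -/
  lowF : ∀ i, 2 * i ≤ J → ∀ x, ∀ v ∈ win w i x, ∀ v', dp o s v' → near r v v' →
    c1 / (r : ℝ) ^ d ≤ (∑ a ∈ win w i x, kr S w i (J - i) (Pi.single a 1) v') / N
  /-- (O1), from a deep point of level `0` to a point in a window of a level `j ≥ J / 2` -/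
  lowB : ∀ j ≤ J, J ≤ 2 * j → ∀ v, dp o s v → ∀ v', w j v' ≠ none → near r v v' →
    c1 / (r : ℝ) ^ d ≤ kr S w 0 j (Pi.single v 1) v'
  /-- (O2) -/
  mass : ∀ i j, i < j → j ≤ J → ∀ x y, wm S w N i x j y ≤ M / N
  /-- (O3), forward -/
  num : ∀ i ≤ J, ∀ x, ∑ j ∈ Ioc i J, ∑ y, wm S w N i x j y ≤ Kw
  /-- (O3), backward -/
  num' : ∀ j ≤ J, ∀ y, ∑ i ∈ range j, ∑ x, wm S w N i x j y ≤ Kw

end Pool.Agent.PL
end

section

/-! Glue. Convention of blocks (1), (2): `T` multiplies on the right, the content at `z` after a slab is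
the content at `T z` before it; window shuffles `s` act as `T ↦ T * s`. Total:
`(T₁ s₁) (T₂ s₂) ⋯ (T_J s_J) Φ s₀`, `s₀` the shuffles of the marked windows, `Φ` the filler. -/

set_option autoImplicit false
set_option linter.unusedSectionVars false

open Finset Equiv Pool.Agent.Stirring

namespace Pool.Agent.PL

section Defs

variable {V : Type} [AddCommGroup V] [Fintype V] [DecidableEq V] {Ω : Type} [Fintype Ω]

/-- Law of the shuffle of the window `y + Q`. -/
structure WDens (Q : Finset V) (y : V) (p : Perm V → ℝ) : Prop where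
  nonneg : ∀ σ, 0 ≤ p σ
  sum : ∑ σ, p σ = 1
  supp : ∀ σ, p σ ≠ 0 → ∀ v, v - y ∉ Q → σ v = v
  le : ∀ σ, p σ ≤ 4 / (Q.card.factorial : ℝ)

/-- The uniform law of the shuffle of `y + Q`. -/
noncomputable def wUnif (Q : Finset V) (y : V) : Perm V → ℝ := fun σ =>
  open Classical in if ∀ v, v - y ∉ Q → σ v = v then 1 / (Q.card.factorial : ℝ) else 0

/-- **Output of block (1)**: the law of one slab is in the (closed) convex hull of the laws
`T a * (independent shuffles of density ≤ 4 of the good windows of a)`. -/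
def SlabMix (c : V × V → ℝ) (h : ℝ) (S : QK.Slab V Ω) (Q : Finset V) : Prop :=
  ∀ (H : Perm V → ℝ) (b : Ω → ℝ),
    (∀ (a : Ω) (μ : V → Perm V → ℝ), (∀ y ∈ S.good a, WDens Q y (μ y)) →
      JL μ H (S.good a).toList (S.T a) ≤ b a) →
    Hier.sg c h H 1 ≤ ∑ a, S.w a * b a

/-- Mean over the window shuffles of several slabs, `g (T₁ s₁) (T₂ s₂) ⋯`. -/
noncomputable def JS (S : QK.Slab V Ω) (H : Perm V → ℝ) :
    List (Ω × (V → Perm V → ℝ)) → Perm V → ℝ
  | [], g => H g
  | (a, μ) :: l, g => JL μ (fun g' => JS S H l g') (S.good a).toList (g * S.T a)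

/-- Admissible laws. -/
def Adm (S : QK.Slab V Ω) (Q : Finset V) (l : List (Ω × (V → Perm V → ℝ))) : Prop :=
  ∀ p ∈ l, ∀ y ∈ S.good p.1, WDens Q y (p.2 y)

/-- The colouring of the windows `y + Q`, `y ∈ G`. -/
noncomputable def colW (Q G : Finset V) (v : V) : Option V :=
  open Classical in if h : ∃ q ∈ G, v - q ∈ Q then some (Classical.choose h) else none

/-- Level `j → j + 1` of the environment `l` of slabs. -/
def envS (S : QK.Slab V Ω) (l : List Ω) (j : ℕ) : Perm V := ((l.map S.T).getD j 1)⁻¹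

/-- Windows at level `j` of the environment `l`, `M0` at level `0`. -/
noncomputable def envW (S : QK.Slab V Ω) (Q M0 : Finset V) (l : List Ω) (j : ℕ) :
    V → Option V := colW Q ((M0 :: l.map S.good).getD j ∅)

end Defs

section G3

variable {V : Type} [Fintype V] [DecidableEq V] {Y : Type} [Fintype Y] [DecidableEq Y]

theorem g3_step_left (c : V × V → ℝ) (n : ℕ) (H : Perm V → ℝ) (g σ : Perm V) :
    (Hier.stepT c ^ n) (fun x => H (g * x)) σ = (Hier.stepT c ^ n) H (g * σ) := by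
  induction n generalizing σ with
  | zero => rfl
  | succ n ih =>
    rw [Hier.stepT_pow_succ, Hier.stepT_pow_succ]
    refine Finset.sum_congr rfl fun p _ => ?_
    rw [ih, mul_assoc]

/-- The semigroup commutes with the left translations. -/
theorem g3_sg_left (c : V × V → ℝ) (s : ℝ) (H : Perm V → ℝ) (g σ : Perm V) :
    Hier.sg c s (fun x => H (g * x)) σ = Hier.sg c s H (g * σ) := by
  have h1 := Hier.sg_hasSum c s (fun x => H (g * x)) σ
  have h2 := Hier.sg_hasSum c s H (g * σ)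
  refine h1.unique ?_
  convert! h2 using 4 with n
  rw [g3_step_left]

theorem g3_sg_add (c : V × V → ℝ) (s t : ℝ) (H : Perm V → ℝ) (g : Perm V) :
    Hier.sg c (s + t) H g = Hier.sg c s (fun x => Hier.sg c t H x) g := by
  have h : Hier.sg c (s + t) = Hier.sg c s * Hier.sg c t := by
    unfold Hier.sg
    rw [add_smul, NormedSpace.exp_add_of_commute]
    exact (Commute.refl _).smul_left _ |>.smul_right _
  rw [h]
  rfl

theorem g3_sg_zero (c : V × V → ℝ) (H : Perm V → ℝ) (g : Perm V) : Hier.sg c 0 H g = H g := by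
  unfold Hier.sg
  rw [zero_smul, NormedSpace.exp_zero]
  rfl

/-- `JL` commutes with the left translations. -/
theorem g3_JL_left (π : Y → Perm V → ℝ) (G : Perm V → ℝ) (l : List Y) (g Θ : Perm V) :
    JL π G l (g * Θ) = JL π (fun x => G (g * x)) l Θ := by
  induction l generalizing Θ with
  | nil => rfl
  | cons y l ih =>
    unfold JL
    refine Finset.sum_congr rfl fun σ _ => ?_
    rw [mul_assoc, ih]

/-- `JL` commutes with linear functionals. -/
theorem g3_JL_lin (A : (Perm V → ℝ) →ₗ[ℝ] ℝ) (π : Y → Perm V → ℝ) (K : Perm V → Perm V → ℝ)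
    (l : List Y) (Θ : Perm V) :
    JL π (fun y => A (K y)) l Θ = A (fun x => JL π (fun y => K y x) l Θ) := by
  induction l generalizing Θ with
  | nil => rfl
  | cons y l ih =>
    have h1 : (fun x => JL π (fun y => K y x) (y :: l) Θ) =
        ∑ σ, π y σ • fun x => JL π (fun y => K y x) l (Θ * σ) := by
      funext x
      rw [Finset.sum_apply]
      rfl
    rw [h1, map_sum]
    show ∑ σ, π y σ * JL π (fun y => A (K y)) l (Θ * σ) = _
    refine Finset.sum_congr rfl fun σ _ => ?_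
    rw [map_smul, ih, smul_eq_mul]

end G3

section G3b

variable {V : Type} [AddCommGroup V] [Fintype V] [DecidableEq V] {Ω : Type} [Fintype Ω]

/-- `JS` commutes with the left translations. -/
theorem g3_JS_left (S : QK.Slab V Ω) (H : Perm V → ℝ) (l : List (Ω × (V → Perm V → ℝ)))
    (g x : Perm V) : JS S H l (g * x) = JS S (fun y => H (g * y)) l x := by
  induction l generalizing x with
  | nil => rfl
  | cons p l ih =>
    obtain ⟨a, μ⟩ := p
    show JL μ (fun g' => JS S H l g') (S.good a).toList (g * x * S.T a) =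
      JL μ (fun g' => JS S (fun y => H (g * y)) l g') (S.good a).toList (x * S.T a)
    rw [mul_assoc, g3_JL_left]
    simp only [ih]

/-- `JL` is linear in the function. -/
theorem g3_JL_add {Y : Type} (π : Y → Perm V → ℝ) (G G' : Perm V → ℝ) (l : List Y) (Θ : Perm V) :
    JL π (fun x => G x + G' x) l Θ = JL π G l Θ + JL π G' l Θ := by
  induction l generalizing Θ with
  | nil => rfl
  | cons y l ih =>
    unfold JL
    rw [← Finset.sum_add_distrib]
    refine Finset.sum_congr rfl fun σ _ => ?_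
    rw [ih, mul_add]

theorem g3_JL_smul {Y : Type} (π : Y → Perm V → ℝ) (r : ℝ) (G : Perm V → ℝ) (l : List Y)
    (Θ : Perm V) : JL π (fun x => r * G x) l Θ = r * JL π G l Θ := by
  induction l generalizing Θ with
  | nil => rfl
  | cons y l ih =>
    unfold JL
    rw [Finset.mul_sum]
    refine Finset.sum_congr rfl fun σ _ => ?_
    rw [ih]
    ring

theorem g3_JS_add (S : QK.Slab V Ω) (H H' : Perm V → ℝ) (l : List (Ω × (V → Perm V → ℝ)))
    (g : Perm V) : JS S (fun x => H x + H' x) l g = JS S H l g + JS S H' l g := by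
  induction l generalizing g with
  | nil => rfl
  | cons p l ih =>
    obtain ⟨a, μ⟩ := p
    show JL μ (fun g' => JS S (fun x => H x + H' x) l g') (S.good a).toList (g * S.T a) =
      JL μ (fun g' => JS S H l g') (S.good a).toList (g * S.T a) +
        JL μ (fun g' => JS S H' l g') (S.good a).toList (g * S.T a)
    rw [← g3_JL_add]
    simp only [ih]

theorem g3_JS_smul (S : QK.Slab V Ω) (r : ℝ) (H : Perm V → ℝ) (l : List (Ω × (V → Perm V → ℝ)))
    (g : Perm V) : JS S (fun x => r * H x) l g = r * JS S H l g := by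
  induction l generalizing g with
  | nil => rfl
  | cons p l ih =>
    obtain ⟨a, μ⟩ := p
    show JL μ (fun g' => JS S (fun x => r * H x) l g') (S.good a).toList (g * S.T a) =
      r * JL μ (fun g' => JS S H l g') (S.good a).toList (g * S.T a)
    rw [← g3_JL_smul]
    simp only [ih]

/-- `H ↦ JS S H l g` as a linear functional. -/
noncomputable def g3_JSlin (S : QK.Slab V Ω) (l : List (Ω × (V → Perm V → ℝ))) (g : Perm V) :
    (Perm V → ℝ) →ₗ[ℝ] ℝ where
  toFun H := JS S H l g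
  map_add' H H' := g3_JS_add S H H' l g
  map_smul' r H := g3_JS_smul S r H l g

/-- `H ↦ sg c t H g` as a linear functional. -/
noncomputable def g3_sglin (c : V × V → ℝ) (t : ℝ) (g : Perm V) : (Perm V → ℝ) →ₗ[ℝ] ℝ where
  toFun H := Hier.sg c t H g
  map_add' H H' := Hier.sg_add c t H H' g
  map_smul' r H := Hier.sg_smul c t r H g

theorem g3_aux {c : V × V → ℝ} {h : ℝ} {S : QK.Slab V Ω} {Q : Finset V}
    (hmix : SlabMix c h S Q) (J : ℕ) : ∀ (H : Perm V → ℝ) (g : Perm V)
    (b : List Ω → ℝ),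
    (∀ l : List (Ω × (V → Perm V → ℝ)), l.length = J → Adm S Q l →
      JS S H l g ≤ b (l.map Prod.fst)) →
    Hier.sg c (J * h) H g ≤ QK.EL S.w J b := by
  induction J with
  | zero =>
    intro H g b hb
    have h1 := hb [] rfl (fun p hp => absurd hp List.not_mem_nil)
    rw [Nat.cast_zero, zero_mul, g3_sg_zero]
    exact h1
  | succ J ih =>
    intro H g b hb
    have e1 : ((J + 1 : ℕ) : ℝ) * h = h + (J : ℝ) * h := by
      push_cast
      ring
    rw [e1, g3_sg_add]
    have e2 : Hier.sg c h (fun x => Hier.sg c ((J : ℝ) * h) H x) g =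
        Hier.sg c h (fun x => Hier.sg c ((J : ℝ) * h) H (g * x)) 1 := by
      rw [g3_sg_left c h (fun x => Hier.sg c ((J : ℝ) * h) H x) g 1, mul_one]
    rw [e2]
    refine hmix _ (fun a => QK.EL S.w J fun l => b (a :: l)) fun a μ hμ => ?_
    have e3 : JL μ (fun x => Hier.sg c ((J : ℝ) * h) H (g * x)) (S.good a).toList (S.T a) =
        Hier.sg c ((J : ℝ) * h)
          (fun x => JL μ (fun y => H (g * y * x)) (S.good a).toList (S.T a)) 1 := by
      have e4 := g3_JL_lin (g3_sglin c ((J : ℝ) * h) 1) μ (fun y x => H (g * y * x))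
        (S.good a).toList (S.T a)
      have e5 : (fun y => g3_sglin c ((J : ℝ) * h) (1 : Perm V) fun x => H (g * y * x)) =
          fun x => Hier.sg c ((J : ℝ) * h) H (g * x) := by
        funext y
        show Hier.sg c ((J : ℝ) * h) (fun x => H (g * y * x)) 1 = _
        rw [g3_sg_left c ((J : ℝ) * h) H (g * y) 1, mul_one]
      rw [e5] at e4
      exact e4
    rw [e3]
    refine ih _ 1 (fun l => b (a :: l)) fun l hl hadm => ?_
    have e6 : JS S (fun x => JL μ (fun y => H (g * y * x)) (S.good a).toList (S.T a)) l 1 =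
        JS S H ((a, μ) :: l) g := by
      have e7 := g3_JL_lin (g3_JSlin S l 1) μ (fun y x => H (g * y * x)) (S.good a).toList (S.T a)
      have e8 : (fun y => g3_JSlin S l (1 : Perm V) fun x => H (g * y * x)) =
          fun y => JS S H l (g * y) := by
        funext y
        show JS S (fun x => H (g * y * x)) l 1 = _
        rw [← g3_JS_left, mul_one]
      rw [e8] at e7
      show (g3_JSlin S l 1) (fun x => JL μ (fun y => H (g * y * x)) (S.good a).toList (S.T a)) = _
      rw [← e7]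
      show _ = JL μ (fun g' => JS S H l g') (S.good a).toList (g * S.T a)
      rw [g3_JL_left]
    rw [e6]
    refine hb ((a, μ) :: l) (by simp [hl]) ?_
    intro p hp
    rcases List.mem_cons.1 hp with rfl | hp
    · exact hμ
    · exact hadm p hp

end G3b

section Repr

variable {V : Type} [Fintype V] [DecidableEq V]

/-- The level `m`. -/
def gr_lv (J m : ℕ) : Fin (J + 1) := Fin.ofNat (J + 1) m

theorem gr_lv_val {J m : ℕ} (h : m < J + 1) : (gr_lv J m : ℕ) = m := Nat.mod_eq_of_lt h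

theorem gr_lv_succ (J m : ℕ) : gr_lv J (m + 1) = gr_lv J m + 1 := by
  apply Fin.ext
  rw [Fin.val_add]
  show (m + 1) % (J + 1) = (m % (J + 1) + ((1 : Fin (J + 1)) : ℕ)) % (J + 1)
  rw [Fin.val_one', ← Nat.add_mod]

theorem gr_lv_eq_zero (J m : ℕ) : gr_lv J m = 0 ↔ J + 1 ∣ m := by
  rw [Fin.ext_iff]
  exact (Nat.dvd_iff_mod_eq_zero).symm

/-- Levelwise permutations. -/
def gr_LA (n : ℕ) (s : ℕ → Perm V) : Perm (Fin n × V) :=
  Equiv.prodShear (Equiv.refl _) (fun j => s j)

theorem gr_LA_apply (n : ℕ) (s : ℕ → Perm V) (j : Fin n) (v : V) :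
    gr_LA n s (j, v) = (j, s j v) := rfl

/-- A permutation on one level. -/
def gr_lft (n : ℕ) (j : ℕ) (x : Perm V) : Perm (Fin n × V) := gr_LA n (Function.update 1 j x)

theorem gr_lft_same {n : ℕ} {j : ℕ} {i : Fin n} (h : (i : ℕ) = j) (x : Perm V) (v : V) :
    gr_lft n j x (i, v) = (i, x v) := by
  unfold gr_lft
  rw [gr_LA_apply, h, Function.update_self]

theorem gr_lft_ne {n : ℕ} {j : ℕ} {i : Fin n} (h : (i : ℕ) ≠ j) (x : Perm V) (v : V) :
    gr_lft n j x (i, v) = (i, v) := by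
  unfold gr_lft
  rw [gr_LA_apply, Function.update_of_ne h]
  rfl

theorem gr_LA_lft (n : ℕ) (s : ℕ → Perm V) (j : ℕ) (x : Perm V) :
    gr_LA n s * gr_lft n j x = gr_LA n (Function.update s j (s j * x)) := by
  ext1 ⟨i, v⟩
  rw [Perm.mul_apply]
  by_cases h : (i : ℕ) = j
  · rw [gr_lft_same h, gr_LA_apply, gr_LA_apply, h, Function.update_self]
    rfl
  · rw [gr_lft_ne h, gr_LA_apply, gr_LA_apply, Function.update_of_ne h]

theorem gr_lft_mul (n : ℕ) (j : ℕ) (x y : Perm V) :
    gr_lft n j (x * y) = gr_lft n j x * gr_lft n j y := by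
  unfold gr_lft
  have h := gr_LA_lft n (Function.update 1 j x) j y
  unfold gr_lft at h
  rw [h, Function.update_self, Function.update_idem]

theorem gr_lft_one (n : ℕ) (j : ℕ) : gr_lft n j (1 : Perm V) = 1 := by
  ext1 ⟨i, v⟩
  by_cases h : (i : ℕ) = j
  · rw [gr_lft_same h]; rfl
  · rw [gr_lft_ne h]; rfl

theorem gr_lft_inj {n : ℕ} (i : Fin n) {x y : Perm V} (h : gr_lft n i x = gr_lft n i y) :
    x = y := by
  ext v
  have h1 := congrArg (fun σ => (σ (i, v)).2) h
  simp only [gr_lft_same rfl] at h1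
  exact h1

/-- Push-forward. -/
noncomputable def gr_push (n : ℕ) (j : ℕ) (p : Perm V → ℝ) : Perm (Fin n × V) → ℝ :=
  fun σ => ∑ x, if gr_lft n j x = σ then p x else 0

theorem gr_push_sum (n : ℕ) (j : ℕ) (p : Perm V → ℝ) (F : Perm (Fin n × V) → ℝ) :
    ∑ σ, gr_push n j p σ * F σ = ∑ x, p x * F (gr_lft n j x) := by
  unfold gr_push
  simp_rw [Finset.sum_mul]
  rw [Finset.sum_comm]
  refine Finset.sum_congr rfl fun x _ => ?_
  simp_rw [ite_mul, zero_mul]
  rw [Finset.sum_ite_eq]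
  simp

theorem gr_push_nonneg {n : ℕ} {j : ℕ} {p : Perm V → ℝ} (hp : ∀ x, 0 ≤ p x)
    (σ : Perm (Fin n × V)) : 0 ≤ gr_push n j p σ := by
  unfold gr_push
  refine Finset.sum_nonneg fun x _ => ?_
  split_ifs
  · exact hp x
  · exact le_rfl

theorem gr_push_lft {n : ℕ} (i : Fin n) (p : Perm V → ℝ) (x : Perm V) :
    gr_push n i p (gr_lft n i x) = p x := by
  unfold gr_push
  rw [Finset.sum_eq_single x]
  · rw [if_pos rfl]
  · intro y _ hy
    rw [if_neg]
    intro h
    exact hy (gr_lft_inj i h)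
  · intro h; exact absurd (Finset.mem_univ _) h

theorem gr_push_ne {n : ℕ} {j : ℕ} {p : Perm V → ℝ} {σ : Perm (Fin n × V)}
    (h : gr_push n j p σ ≠ 0) : ∃ x, gr_lft n j x = σ ∧ p x ≠ 0 := by
  by_contra hc
  push Not at hc
  refine h ?_
  unfold gr_push
  refine Finset.sum_eq_zero fun x _ => ?_
  split_ifs with hx
  · exact hc x hx
  · rfl

theorem gr_push_le {n : ℕ} (i : Fin n) {p : Perm V → ℝ} {b : ℝ} (hb : 0 ≤ b)
    (hp : ∀ x, p x ≤ b) (σ : Perm (Fin n × V)) : gr_push n i p σ ≤ b := by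
  by_cases h : ∃ x, gr_lft n i x = σ
  · obtain ⟨x, rfl⟩ := h
    rw [gr_push_lft]
    exact hp x
  · have : gr_push n i p σ = 0 := by
      by_contra hc
      obtain ⟨x, hx, _⟩ := gr_push_ne hc
      exact h ⟨x, hx⟩
    rw [this]
    exact hb

/-- `JL` and left translations. -/
theorem gr_JL_left {Y : Type} (π : Y → Perm V → ℝ) (G : Perm V → ℝ) (l : List Y) (g Θ : Perm V) :
    JL π G l (g * Θ) = JL π (fun x => G (g * x)) l Θ := by
  induction l generalizing Θ with
  | nil => rfl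
  | cons y l ih =>
    show ∑ σ, π y σ * JL π G l (g * Θ * σ) = ∑ σ, π y σ * JL π (fun x => G (g * x)) l (Θ * σ)
    refine Finset.sum_congr rfl fun σ _ => ?_
    rw [mul_assoc, ih]

theorem gr_JL_append {Y : Type} (π : Y → Perm V → ℝ) (G : Perm V → ℝ) (l l' : List Y)
    (Θ : Perm V) : JL π G (l ++ l') Θ = JL π (fun x => JL π G l' x) l Θ := by
  induction l generalizing Θ with
  | nil => rfl
  | cons y l ih =>
    show ∑ σ, π y σ * JL π G (l ++ l') (Θ * σ) = ∑ σ, π y σ * JL π (fun x => JL π G l' x) l (Θ * σ)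
    refine Finset.sum_congr rfl fun σ _ => ?_
    rw [ih]

theorem gr_JL_congr {Y : Type} (π : Y → Perm V → ℝ) {G G' : Perm V → ℝ} (h : ∀ x, G x = G' x)
    (l : List Y) (Θ : Perm V) : JL π G l Θ = JL π G' l Θ := by
  rw [funext h]

theorem gr_JL_push {n : ℕ} {Z : Type} (π : Fin n × Z → Perm (Fin n × V) → ℝ)
    (G : Perm (Fin n × V) → ℝ) (μ : Z → Perm V → ℝ) (i : Fin n) (ys : List Z)
    (hπ : ∀ y ∈ ys, π (i, y) = gr_push n i (μ y)) (Θ : Perm (Fin n × V)) (g : Perm V) :
    JL π G (ys.map fun y => (i, y)) (Θ * gr_lft n i g)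
      = JL μ (fun x => G (Θ * gr_lft n i x)) ys g := by
  induction ys generalizing g with
  | nil => rfl
  | cons y ys ih =>
    show ∑ σ, π (i, y) σ * JL π G (ys.map fun y => (i, y)) (Θ * gr_lft n i g * σ)
      = ∑ x, μ y x * JL μ (fun x => G (Θ * gr_lft n i x)) ys (g * x)
    rw [hπ y (List.mem_cons_self ..), gr_push_sum]
    refine Finset.sum_congr rfl fun x _ => ?_
    rw [mul_assoc, ← gr_lft_mul, ih fun y hy => hπ y (List.mem_cons_of_mem _ hy)]

/-- The product of the first `m` slabs. -/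
def gr_PP (T : ℕ → Perm V) (s : ℕ → Perm V) : ℕ → Perm V
  | 0 => 1
  | m + 1 => gr_PP T s m * (T m * s (m + 1))

theorem gr_PP_congr (T : ℕ → Perm V) {s s' : ℕ → Perm V} (m : ℕ)
    (h : ∀ j, 1 ≤ j → j ≤ m → s j = s' j) : gr_PP T s m = gr_PP T s' m := by
  induction m with
  | zero => rfl
  | succ m ih =>
    show gr_PP T s m * (T m * s (m + 1)) = gr_PP T s' m * (T m * s' (m + 1))
    rw [ih fun j h1 h2 => h j h1 (by omega), h (m + 1) (by omega) le_rfl]

/-! Cycles of space-time. -/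

theorem gr_stP_apply (J : ℕ) (T : ℕ → Perm V) (Φ : Perm V) (m : ℕ) (hm : m < J) (v : V) :
    stP J T Φ ((gr_lv J m), v) = ((gr_lv J (m + 1)), T m v) := by
  have h1 : ((gr_lv J m) : ℕ) = m := gr_lv_val (by omega)
  show (finRotate (J + 1) (gr_lv J m), _) = _
  rw [finRotate_apply]
  refine Prod.ext ?_ ?_
  · exact (gr_lv_succ J m).symm
  · show (if ((gr_lv J m) : ℕ) = J then Φ else T ((gr_lv J m) : ℕ)) v = _
    rw [h1, if_neg (by omega)]

theorem gr_stP_last (J : ℕ) (T : ℕ → Perm V) (Φ : Perm V) (v : V) :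
    stP J T Φ ((gr_lv J J), v) = (0, Φ v) := by
  have h1 : ((gr_lv J J) : ℕ) = J := gr_lv_val (by omega)
  show (finRotate (J + 1) (gr_lv J J), _) = _
  rw [finRotate_apply]
  refine Prod.ext ?_ ?_
  · show (gr_lv J J) + 1 = 0
    rw [← gr_lv_succ, gr_lv_eq_zero]
  · show (if ((gr_lv J J) : ℕ) = J then Φ else T ((gr_lv J J) : ℕ)) v = _
    rw [h1, if_pos rfl]

theorem gr_P_zero (J : ℕ) (T s : ℕ → Perm V) (Φ : Perm V) (v : V) :
    ((stP J (fun j => (T j)⁻¹) Φ⁻¹)⁻¹ * gr_LA (J + 1) s) (0, v)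
      = ((gr_lv J J), Φ (s 0 v)) := by
  rw [Perm.mul_apply, gr_LA_apply, Perm.inv_eq_iff_eq, gr_stP_last]
  simp

theorem gr_P_succ (J : ℕ) (T s : ℕ → Perm V) (Φ : Perm V) (m : ℕ) (hm : m < J) (v : V) :
    ((stP J (fun j => (T j)⁻¹) Φ⁻¹)⁻¹ * gr_LA (J + 1) s) ((gr_lv J (m + 1)), v)
      = ((gr_lv J m), T m (s (m + 1) v)) := by
  rw [Perm.mul_apply, gr_LA_apply, Perm.inv_eq_iff_eq, gr_stP_apply J _ _ m hm]
  have h1 : ((gr_lv J (m + 1)) : ℕ) = m + 1 := gr_lv_val (by omega)
  rw [h1]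
  simp

theorem gr_P_level (J : ℕ) (T s : ℕ → Perm V) (Φ : Perm V) (q : Fin (J + 1) × V) :
    (((stP J (fun j => (T j)⁻¹) Φ⁻¹)⁻¹ * gr_LA (J + 1) s) q).1 + 1 = q.1 := by
  set P := (stP J (fun j => (T j)⁻¹) Φ⁻¹)⁻¹ * gr_LA (J + 1) s with hP
  have h1 : stP J (fun j => (T j)⁻¹) Φ⁻¹ (P q) = gr_LA (J + 1) s q := by
    rw [hP, Perm.mul_apply]
    exact Equiv.apply_symm_apply _ _
  have h2 := congrArg Prod.fst h1
  have h3 : (stP J (fun j => (T j)⁻¹) Φ⁻¹ (P q)).1 = (P q).1 + 1 := by
    show finRotate (J + 1) (P q).1 = _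
    rw [finRotate_apply]
  rw [h3] at h2
  exact h2

theorem gr_P_level_pow (J : ℕ) (T s : ℕ → Perm V) (Φ : Perm V) (q : Fin (J + 1) × V) (n : ℕ) :
    ((((stP J (fun j => (T j)⁻¹) Φ⁻¹)⁻¹ * gr_LA (J + 1) s) ^ n) q).1 + gr_lv J n = q.1 := by
  induction n with
  | zero =>
    have h0 : gr_lv J 0 = 0 := by rw [gr_lv_eq_zero]; exact dvd_zero _
    rw [h0, add_zero]
    rfl
  | succ n ih =>
    rw [pow_succ', Perm.mul_apply, gr_lv_succ, add_comm (gr_lv J n) 1, ← add_assoc, gr_P_level, ih]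

theorem gr_P_round (J : ℕ) (T s : ℕ → Perm V) (Φ : Perm V) (v : V) :
    (((stP J (fun j => (T j)⁻¹) Φ⁻¹)⁻¹ * gr_LA (J + 1) s) ^ (J + 1)) (0, v)
      = (0, (gr_PP T s J * Φ * s 0) v) := by
  set P := (stP J (fun j => (T j)⁻¹) Φ⁻¹)⁻¹ * gr_LA (J + 1) s with hP
  have key : ∀ i, i ≤ J → ∃ w, (P ^ (i + 1)) (0, v) = ((gr_lv J (J - i)), w) ∧
      gr_PP T s (J - i) w = (gr_PP T s J * Φ * s 0) v := by
    intro i
    induction i with
    | zero =>
      intro _
      refine ⟨Φ (s 0 v), ?_, rfl⟩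
      rw [zero_add, pow_one, hP, gr_P_zero, Nat.sub_zero]
    | succ i ih =>
      intro hi
      obtain ⟨w, hw1, hw2⟩ := ih (by omega)
      obtain ⟨m, hm⟩ : ∃ m, J - i = m + 1 := ⟨J - i - 1, by omega⟩
      have hm' : J - (i + 1) = m := by omega
      refine ⟨T m (s (m + 1) w), ?_, ?_⟩
      · rw [pow_succ', Perm.mul_apply, hw1, hm, hm', hP, gr_P_succ J T s Φ m (by omega)]
      · rw [hm', ← hw2, hm]
        rfl
  obtain ⟨w, hw1, hw2⟩ := key J le_rfl
  rw [hw1, ← hw2, Nat.sub_self]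
  rfl

theorem gr_sameCycle (J : ℕ) (T s : ℕ → Perm V) (Φ : Perm V) (x y : V) :
    ((stP J (fun j => (T j)⁻¹) Φ⁻¹)⁻¹ * gr_LA (J + 1) s).SameCycle (0, x) (0, y)
      ↔ (gr_PP T s J * Φ * s 0).SameCycle x y := by
  set P := (stP J (fun j => (T j)⁻¹) Φ⁻¹)⁻¹ * gr_LA (J + 1) s with hP
  set W := gr_PP T s J * Φ * s 0 with hW
  have hround : ∀ k : ℕ, ∀ v, (P ^ ((J + 1) * k)) (0, v) = (0, (W ^ k) v) := by
    intro k
    induction k with
    | zero => intro v; simp
    | succ k ih =>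
      intro v
      rw [Nat.mul_succ, add_comm ((J + 1) * k) (J + 1), pow_add, Perm.mul_apply, ih, hP, gr_P_round, ← hW, pow_succ']
      rfl
  constructor
  · intro h
    obtain ⟨n, hn⟩ := h.exists_nat_pow_eq
    have h1 := gr_P_level_pow J T s Φ (0, x) n
    rw [← hP, hn] at h1
    have h2 : (gr_lv J n) = 0 := by simpa using h1
    rw [gr_lv_eq_zero] at h2
    obtain ⟨k, rfl⟩ := h2
    rw [hround] at hn
    have h3 := congrArg Prod.snd hn
    exact ⟨k, by rw [zpow_natCast]; exact h3⟩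
  · intro h
    obtain ⟨k, hk⟩ := h.exists_nat_pow_eq
    exact ⟨((J + 1) * k : ℕ), by rw [zpow_natCast, hround, hk]⟩

theorem gr_patI (J : ℕ) (T s : ℕ → Perm V) (Φ : Perm V) {k : ℕ} (z : Fin k → V)
    (τ : Perm (Fin k)) :
    patI τ ((stP J (fun j => (T j)⁻¹) Φ⁻¹)⁻¹ * gr_LA (J + 1) s)
        (fun i => ((0 : Fin (J + 1)), z i))
      = patI τ (gr_PP T s J * Φ * s 0) z := by
  have h : Pat ((stP J (fun j => (T j)⁻¹) Φ⁻¹)⁻¹ * gr_LA (J + 1) s)
      (fun i => ((0 : Fin (J + 1)), z i)) τ ↔ Pat (gr_PP T s J * Φ * s 0) z τ := by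
    unfold Pat
    exact forall_congr' fun a => forall_congr' fun b => by rw [gr_sameCycle]
  unfold patI
  by_cases hc : Pat (gr_PP T s J * Φ * s 0) z τ
  · rw [if_pos (h.mpr hc), if_pos hc]
  · rw [if_neg (fun h1 => hc (h.mp h1)), if_neg hc]

end Repr

section Repr2

variable {V : Type} [AddCommGroup V] [Fintype V] [DecidableEq V] {Ω : Type} [Fintype Ω]

theorem gr_colW_some {Q G : Finset V} (hG : QK.Dis Q G) {v y : V} (hy : y ∈ G) (h : v - y ∈ Q) :
    colW Q G v = some y := by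
  unfold colW
  have h1 : ∃ q ∈ G, v - q ∈ Q := ⟨y, hy, h⟩
  rw [dif_pos h1]
  congr 1
  exact hG _ (Classical.choose_spec h1).1 _ hy v (Classical.choose_spec h1).2 h

theorem gr_colW_mem {Q G : Finset V} {v y : V} (h : colW Q G v = some y) : y ∈ G ∧ v - y ∈ Q := by
  unfold colW at h
  split_ifs at h with h1
  rw [Option.some_inj] at h
  rw [← h]
  exact Classical.choose_spec h1

theorem gr_card_win (Q : Finset V) (y : V) :
    (univ.filter fun v : V => v - y ∈ Q).card = Q.card := by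
  have h : (univ.filter fun v : V => v - y ∈ Q) = Q.image (fun q => q + y) := by
    ext v
    simp only [Finset.mem_filter, Finset.mem_univ, true_and, Finset.mem_image]
    constructor
    · intro h; exact ⟨v - y, h, by abel⟩
    · rintro ⟨q, hq, rfl⟩; rwa [add_sub_cancel_right]
  rw [h, Finset.card_image_of_injective _ (add_left_injective y)]

theorem gr_wUnif_sum (Q : Finset V) (y : V) : ∑ σ, wUnif Q y σ = 1 := by
  classical
  unfold wUnif
  rw [← Finset.sum_filter, Finset.sum_const, nsmul_eq_mul]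
  have h1 : (univ.filter fun σ : Perm V => ∀ v, v - y ∉ Q → σ v = v).card = Q.card.factorial := by
    rw [← gr_card_win Q y]
    have e := Equiv.Perm.subtypeEquivSubtypePerm (fun v : V => v - y ∈ Q)
    have h2 := Fintype.card_congr e
    rw [Fintype.card_perm, Fintype.card_subtype, Fintype.card_subtype] at h2
    rw [← h2]
  rw [h1]
  have : (Q.card.factorial : ℝ) ≠ 0 := by exact_mod_cast Nat.factorial_ne_zero _
  field_simp

theorem gr_wUnif_dens (Q : Finset V) (y : V) : WDens Q y (wUnif Q y) where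
  nonneg σ := by
    unfold wUnif
    split_ifs
    · positivity
    · exact le_rfl
  sum := gr_wUnif_sum Q y
  supp σ h := by
    unfold wUnif at h
    split_ifs at h with h1
    · exact h1
    · exact absurd rfl h
  le σ := by
    unfold wUnif
    have h0 : (0 : ℝ) < (Q.card.factorial : ℝ) := by exact_mod_cast Nat.factorial_pos _
    split_ifs
    · exact div_le_div_of_nonneg_right (by norm_num) h0.le
    · positivity

/-- The nodes of the remaining slabs, level by level, the marked windows last. -/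
noncomputable def gr_nd (S : QK.Slab V Ω) (J : ℕ) (M0 : Finset V) :
    ℕ → List (Ω × (V → Perm V → ℝ)) → List (Fin (J + 1) × V)
  | _, [] => M0.toList.map fun y => (0, y)
  | m, a :: l => ((S.good a.1).toList.map fun y => ((gr_lv J (m + 1)), y))
      ++ gr_nd S J M0 (m + 1) l

theorem gr_main (S : QK.Slab V Ω) (Q M0 : Finset V) (J : ℕ) (T : ℕ → Perm V) (Φ : Perm V)
    (F : Perm V → ℝ) (Th : Perm (Fin (J + 1) × V)) (G : Perm (Fin (J + 1) × V) → ℝ)
    (π : Fin (J + 1) × V → Perm (Fin (J + 1) × V) → ℝ)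
    (hG : ∀ s : ℕ → Perm V, G (Th * gr_LA (J + 1) s) = F (gr_PP T s J * Φ * s 0))
    (hπ0 : ∀ y ∈ M0, π (0, y) = gr_push (J + 1) 0 (wUnif Q y))
    (l : List (Ω × (V → Perm V → ℝ))) :
    ∀ m : ℕ, m + l.length = J → (∀ i (h : i < l.length), T (m + i) = S.T (l[i]).1) →
    (∀ i (h : i < l.length), ∀ y ∈ S.good (l[i]).1,
      π ((gr_lv J (m + i + 1)), y) = gr_push (J + 1) (m + i + 1) ((l[i]).2 y)) →
    ∀ s : ℕ → Perm V, s 0 = 1 → (∀ j, m < j → s j = 1) →
    JS S (fun g => JL (wUnif Q) F M0.toList (g * Φ)) l (gr_PP T s m)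
      = JL π G (gr_nd S J M0 m l) (Th * gr_LA (J + 1) s) := by
  induction l with
  | nil =>
    intro m hm _ _ s hs0 _
    rw [List.length_nil, add_zero] at hm
    subst hm
    show JL (wUnif Q) F M0.toList (gr_PP T s m * Φ) =
      JL π G (M0.toList.map fun y => (0, y)) (Th * gr_LA (m + 1) s)
    have h1 := gr_JL_push π G (wUnif Q) (0 : Fin (m + 1)) M0.toList
      (fun y hy => by
        rw [Finset.mem_toList] at hy
        have := hπ0 y hy
        simpa using this) (Th * gr_LA (m + 1) s) 1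
    rw [gr_lft_one, mul_one] at h1
    rw [h1]
    have h2 := gr_JL_left (wUnif Q) F M0.toList (gr_PP T s m * Φ) 1
    rw [mul_one] at h2
    rw [h2]
    refine gr_JL_congr _ (fun x => ?_) _ _
    show F (gr_PP T s m * Φ * x) = G (Th * gr_LA (m + 1) s * gr_lft (m + 1) ((0 : Fin (m + 1)) : ℕ) x)
    rw [mul_assoc Th, gr_LA_lft, hG]
    congr 1
    have h3 : gr_PP T (Function.update s ((0 : Fin (m + 1)) : ℕ)
        (s ((0 : Fin (m + 1)) : ℕ) * x)) m = gr_PP T s m := by
      refine gr_PP_congr T m fun j hj _ => ?_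
      rw [Function.update_of_ne]
      simp only [Fin.val_zero]
      omega
    rw [h3]
    simp [hs0]
  | cons a l ih =>
    obtain ⟨a, μ⟩ := a
    intro m hm hT hπ s hs0 hs1
    rw [List.length_cons] at hm
    show JL μ (fun g' => JS S (fun g => JL (wUnif Q) F M0.toList (g * Φ)) l g') (S.good a).toList
        (gr_PP T s m * S.T a) =
      JL π G (((S.good a).toList.map fun y => ((gr_lv J (m + 1)), y))
        ++ gr_nd S J M0 (m + 1) l) (Th * gr_LA (J + 1) s)
    have hval : ((gr_lv J (m + 1)) : ℕ) = m + 1 := gr_lv_val (by omega)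
    rw [gr_JL_append]
    have h1 := gr_JL_push π (fun x => JL π G (gr_nd S J M0 (m + 1) l) x) μ
      (gr_lv J (m + 1)) (S.good a).toList
      (fun y hy => by
        rw [Finset.mem_toList] at hy
        have := hπ 0 (by simp) y hy
        rw [hval]
        simpa using this) (Th * gr_LA (J + 1) s) 1
    rw [gr_lft_one, mul_one] at h1
    rw [h1]
    have h2 := gr_JL_left μ (fun g' => JS S (fun g => JL (wUnif Q) F M0.toList (g * Φ)) l g')
      (S.good a).toList (gr_PP T s m * S.T a) 1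
    rw [mul_one] at h2
    rw [h2]
    refine gr_JL_congr _ (fun x => ?_) _ _
    show JS S (fun g => JL (wUnif Q) F M0.toList (g * Φ)) l (gr_PP T s m * S.T a * x) =
      JL π G (gr_nd S J M0 (m + 1) l)
        (Th * gr_LA (J + 1) s * gr_lft (J + 1) ((gr_lv J (m + 1)) : ℕ) x)
    rw [hval, mul_assoc Th, gr_LA_lft, hs1 (m + 1) (by omega), one_mul]
    have h3 : gr_PP T s m * S.T a * x = gr_PP T (Function.update s (m + 1) x) (m + 1) := by
      show _ = gr_PP T (Function.update s (m + 1) x) m *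
        (T m * (Function.update s (m + 1) x) (m + 1))
      rw [Function.update_self, gr_PP_congr T (s := Function.update s (m + 1) x) (s' := s) m
        (fun j _ hj => Function.update_of_ne (by omega) _ _)]
      have := hT 0 (by simp)
      rw [add_zero] at this
      rw [this, mul_assoc]
      rfl
    rw [h3]
    refine ih (m + 1) (by omega) (fun i hi => ?_) (fun i hi y hy => ?_) _ ?_ ?_
    · have := hT (i + 1) (by rw [List.length_cons]; omega)
      rw [List.getElem_cons_succ] at this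
      rw [← this]
      congr 1
      omega
    · have := hπ (i + 1) (by rw [List.length_cons]; omega) y (by
        rw [List.getElem_cons_succ]; exact hy)
      rw [List.getElem_cons_succ] at this
      have e : m + 1 + i + 1 = m + (i + 1) + 1 := by omega
      rw [e]
      exact this
    · rw [Function.update_of_ne (by omega)]
      exact hs0
    · intro j hj
      rw [Function.update_of_ne (by omega)]
      exact hs1 j (by omega)

/-- Levels of the nodes. -/
theorem gr_nd_mem (S : QK.Slab V Ω) (J : ℕ) (M0 : Finset V) (l : List (Ω × (V → Perm V → ℝ))) :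
    ∀ m : ℕ, m + l.length = J → ∀ q : Fin (J + 1) × V, q ∈ gr_nd S J M0 m l ↔
      ((q.1 : ℕ) = 0 ∧ q.2 ∈ M0) ∨
      ∃ i, ∃ _ : i < l.length, (q.1 : ℕ) = m + 1 + i ∧ q.2 ∈ S.good (l[i]).1 := by
  induction l with
  | nil =>
    intro m hm q
    show q ∈ (M0.toList.map fun y => ((0 : Fin (J + 1)), y)) ↔ _
    rw [List.mem_map]
    constructor
    · rintro ⟨y, hy, rfl⟩
      exact Or.inl ⟨rfl, Finset.mem_toList.mp hy⟩
    · rintro (⟨h1, h2⟩ | ⟨i, hi, _⟩)
      · refine ⟨q.2, Finset.mem_toList.mpr h2, ?_⟩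
        exact Prod.ext (Fin.ext h1.symm) rfl
      · exact absurd hi (by simp)
  | cons a l ih =>
    intro m hm q
    rw [List.length_cons] at hm
    have hval : ((gr_lv J (m + 1)) : ℕ) = m + 1 := gr_lv_val (by omega)
    show q ∈ (((S.good a.1).toList.map fun y => ((gr_lv J (m + 1)), y))
        ++ gr_nd S J M0 (m + 1) l) ↔ _
    rw [List.mem_append, ih (m + 1) (by omega) q, List.mem_map]
    constructor
    · rintro (⟨y, hy, rfl⟩ | ⟨h1, h2⟩ | ⟨i, hi, h1, h2⟩)
      · exact Or.inr ⟨0, by simp, by rw [hval], by simpa using Finset.mem_toList.mp hy⟩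
      · exact Or.inl ⟨h1, h2⟩
      · exact Or.inr ⟨i + 1, by rw [List.length_cons]; omega, by omega, by
          rw [List.getElem_cons_succ]; exact h2⟩
    · rintro (⟨h1, h2⟩ | ⟨i, hi, h1, h2⟩)
      · exact Or.inr (Or.inl ⟨h1, h2⟩)
      · rcases i with _ | i
        · refine Or.inl ⟨q.2, Finset.mem_toList.mpr (by simpa using h2), ?_⟩
          refine Prod.ext (Fin.ext ?_) rfl
          show ((gr_lv J (m + 1)) : ℕ) = _
          rw [hval]
          omega
        · refine Or.inr (Or.inr ⟨i, by rw [List.length_cons] at hi; omega, by omega, ?_⟩)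
          rw [List.getElem_cons_succ] at h2
          exact h2

theorem gr_nd_nodup (S : QK.Slab V Ω) (J : ℕ) (M0 : Finset V)
    (l : List (Ω × (V → Perm V → ℝ))) :
    ∀ m : ℕ, m + l.length = J → (gr_nd S J M0 m l).Nodup := by
  induction l with
  | nil =>
    intro m _
    show (M0.toList.map fun y => ((0 : Fin (J + 1)), y)).Nodup
    refine (Finset.nodup_toList M0).map ?_
    intro a b h
    exact congrArg Prod.snd h
  | cons a l ih =>
    intro m hm
    rw [List.length_cons] at hm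
    have hval : ((gr_lv J (m + 1)) : ℕ) = m + 1 := gr_lv_val (by omega)
    show (((S.good a.1).toList.map fun y => ((gr_lv J (m + 1)), y))
        ++ gr_nd S J M0 (m + 1) l).Nodup
    refine List.Nodup.append ?_ (ih (m + 1) (by omega)) ?_
    · refine (Finset.nodup_toList _).map ?_
      intro a b h
      exact congrArg Prod.snd h
    · intro q h1 h2
      rw [List.mem_map] at h1
      obtain ⟨y, _, rfl⟩ := h1
      rw [gr_nd_mem S J M0 l (m + 1) (by omega)] at h2
      rcases h2 with ⟨h3, _⟩ | ⟨i, _, h3, _⟩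
      · change ((gr_lv J (m + 1)) : ℕ) = 0 at h3
        rw [hval] at h3
        omega
      · change ((gr_lv J (m + 1)) : ℕ) = _ at h3
        rw [hval] at h3
        omega

end Repr2

section G

variable {V : Type} [AddCommGroup V] [Fintype V] [DecidableEq V] {Ω : Type} [Fintype Ω]

/-- G3. One slab after the other is replaced by its actual law. -/
theorem slab_induction {c : V × V → ℝ} {h : ℝ} {S : QK.Slab V Ω} {Q : Finset V}
    (hmix : SlabMix c h S Q) (J : ℕ) (H : Perm V → ℝ) (g : Perm V)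
    (b : List Ω → ℝ)
    (hb : ∀ l : List (Ω × (V → Perm V → ℝ)), l.length = J → Adm S Q l →
      JS S H l g ≤ b (l.map Prod.fst)) :
    Hier.sg c (J * h) H g ≤ QK.EL S.w J b :=
  g3_aux hmix J H g b hb

/-- The push-forward of a law of density at most `4` of the shuffle of one window. -/
theorem gr_push_dens {Q G : Finset V} {J : ℕ} (w : ℕ → V → Option V) (i : Fin (J + 1))
    (hw : w i = colW Q G) (hG : QK.Dis Q G) {y : V} (hy : y ∈ G) {p : Perm V → ℝ}
    (hp : WDens Q y p) : Dens (stc J w) Q.card 4 (i, y) (gr_push (J + 1) i p) where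
  nonneg := gr_push_nonneg hp.nonneg
  sum := by
    have h := gr_push_sum (J + 1) i p (fun _ => 1)
    simp only [mul_one] at h
    rw [h, hp.sum]
  supp := by
    intro σ hσ q hq
    obtain ⟨x, rfl, hx⟩ := gr_push_ne hσ
    obtain ⟨j, v⟩ := q
    by_cases hj : j = i
    · subst hj
      rw [gr_lft_same rfl]
      have h1 : v - y ∉ Q := by
        intro h2
        refine hq ?_
        show (w j v).map (fun x => (j, x)) = some (j, y)
        rw [hw, gr_colW_some hG hy h2]
        rfl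
      rw [hp.supp x hx v h1]
    · rw [gr_lft_ne (fun h => hj (Fin.ext h))]
  le := gr_push_le i (by positivity) hp.le

theorem gr_stc_some {Q G : Finset V} {J : ℕ} (w : ℕ → V → Option V) (i : Fin (J + 1))
    (hw : w i = colW Q G) (hG : QK.Dis Q G) {y : V} (hy : y ∈ G) (q : Fin (J + 1) × V) :
    stc J w q = some (i, y) ↔ q.1 = i ∧ q.2 - y ∈ Q := by
  obtain ⟨j, v⟩ := q
  show (w j v).map (fun x => (j, x)) = some (i, y) ↔ j = i ∧ v - y ∈ Q
  constructor
  · intro h
    rw [Option.map_eq_some_iff] at h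
    obtain ⟨x, hx, hxy⟩ := h
    have h1 : j = i := congrArg Prod.fst hxy
    have h2 : x = y := congrArg Prod.snd hxy
    subst h1
    subst h2
    rw [hw] at hx
    exact ⟨rfl, (gr_colW_mem hx).2⟩
  · rintro ⟨rfl, h⟩
    rw [hw, gr_colW_some hG hy h]
    rfl

/-- The law at the marked nodes. -/
theorem gr_push_unif {Q G : Finset V} {J : ℕ} (w : ℕ → V → Option V)
    (hw : w ((0 : Fin (J + 1)) : ℕ) = colW Q G) (hG : QK.Dis Q G) {y : V} (hy : y ∈ G)
    (σ : Perm (Fin (J + 1) × V)) :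
    gr_push (J + 1) 0 (wUnif Q y) σ = open Classical in
        if ∀ q, stc J w q ≠ some (0, y) → σ q = q
          then 1 / (Q.card.factorial : ℝ) else 0 := by
  classical
  have hst := gr_stc_some w (0 : Fin (J + 1)) hw hG hy
  split_ifs with h
  · -- `σ` comes from a shuffle of the window
    have hlev : ∀ v, (σ ((0 : Fin (J + 1)), v)).1 = 0 := by
      intro v
      by_contra hne
      have h1 : σ (σ ((0 : Fin (J + 1)), v)) = σ ((0 : Fin (J + 1)), v) := by
        refine h _ fun h2 => hne ?_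
        exact ((hst _).mp h2).1
      have h2 := σ.injective h1
      rw [h2] at hne
      exact hne rfl
    have hinj : Function.Injective fun v => (σ ((0 : Fin (J + 1)), v)).2 := by
      intro a b hab
      have h1 : σ ((0 : Fin (J + 1)), a) = σ ((0 : Fin (J + 1)), b) :=
        Prod.ext ((hlev a).trans (hlev b).symm) hab
      exact congrArg Prod.snd (σ.injective h1)
    set x : Perm V := Equiv.ofBijective _ (Finite.injective_iff_bijective.mp hinj) with hx
    have hxv : ∀ v, σ ((0 : Fin (J + 1)), v) = (0, x v) := fun v => Prod.ext (hlev v) rfl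
    have hσ : gr_lft (J + 1) ((0 : Fin (J + 1)) : ℕ) x = σ := by
      ext1 ⟨j, v⟩
      by_cases hj : j = 0
      · subst hj
        rw [gr_lft_same rfl, hxv]
      · rw [gr_lft_ne (fun h1 => hj (Fin.ext h1)), h _ fun h2 => hj ((hst _).mp h2).1]
    have h3 := gr_push_lft (0 : Fin (J + 1)) (wUnif Q y) x
    rw [hσ] at h3
    have h4 : gr_push (J + 1) 0 (wUnif Q y) σ = wUnif Q y x := h3
    rw [h4]
    unfold wUnif
    rw [if_pos]
    intro v hv
    have h5 := h ((0 : Fin (J + 1)), v) fun h2 => hv ((hst _).mp h2).2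
    rw [hxv] at h5
    exact congrArg Prod.snd h5
  · by_contra hc
    obtain ⟨x, hx, hx0⟩ := gr_push_ne hc
    refine h fun q hq => ?_
    obtain ⟨j, v⟩ := q
    rw [← hx]
    by_cases hj : (j : ℕ) = 0
    · rw [gr_lft_same hj]
      have hv : v - y ∉ Q := fun h1 => hq ((hst _).mpr ⟨Fin.ext hj, h1⟩)
      rw [(gr_wUnif_dens Q y).supp x hx0 v hv]
    · rw [gr_lft_ne hj]

/-- G1 + G2. The mean over all window shuffles (and those of the marked windows `M0`) as a mean over
the shuffles of the nodes of space-time. -/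
theorem inner_repr {S : QK.Slab V Ω} {Q : Finset V} (hQ : Q.Nonempty)
    (l : List (Ω × (V → Perm V → ℝ))) (hl : Adm S Q l)
    (hdis : ∀ a, QK.Dis Q (S.good a)) {M0 : Finset V} (hM0 : QK.Dis Q M0) (Φ : Perm V) {k : ℕ}
    (z : Fin k → V) (τ : Perm (Fin k)) :
    ∃ (π : Fin (l.length + 1) × V → Perm (Fin (l.length + 1) × V) → ℝ)
      (nodes : List (Fin (l.length + 1) × V)),
      nodes.Nodup ∧
      (∀ y, y ∈ nodes ↔ ∃ q, stc l.length (envW S Q M0 (l.map Prod.fst)) q = some y) ∧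
      (∀ y ∈ nodes, (univ.filter fun q =>
        stc l.length (envW S Q M0 (l.map Prod.fst)) q = some y).card = Q.card) ∧
      (∀ y ∈ nodes, Dens (stc l.length (envW S Q M0 (l.map Prod.fst))) Q.card 4 y (π y)) ∧
      (∀ y ∈ M0, ∀ σ, π (0, y) σ = open Classical in
        if ∀ q, stc l.length (envW S Q M0 (l.map Prod.fst)) q ≠ some (0, y) → σ q = q
          then 1 / (Q.card.factorial : ℝ) else 0) ∧
      JS S (fun g => JL (wUnif Q) (fun x => patI τ x z) M0.toList (g * Φ)) l 1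
        = JL π (fun P => patI τ P (fun i => ((0 : Fin (l.length + 1)), z i))) nodes
            (stP l.length (envS S (l.map Prod.fst)) Φ⁻¹)⁻¹ := by
  classical
  set w := envW S Q M0 (l.map Prod.fst) with hw
  -- the set of windows of each level
  set Gs : ℕ → Finset V := fun j => ((M0 :: (l.map Prod.fst).map S.good).getD j ∅) with hGs
  have hwG : ∀ j, w j = colW Q (Gs j) := fun j => rfl
  have hG0 : Gs 0 = M0 := rfl
  have hG1 : ∀ i (h : i < l.length), Gs (i + 1) = S.good (l[i]).1 := by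
    intro i h
    show (M0 :: (l.map Prod.fst).map S.good).getD (i + 1) ∅ = _
    rw [List.getD_cons_succ, List.getD_eq_getElem _ _ (by simpa using h)]
    simp
  have hGd : ∀ j, QK.Dis Q (Gs j) := by
    intro j
    rcases j with _ | i
    · exact hM0
    · by_cases h : i < l.length
      · rw [hG1 i h]; exact hdis _
      · have : Gs (i + 1) = ∅ := by
          show (M0 :: (l.map Prod.fst).map S.good).getD (i + 1) ∅ = _
          rw [List.getD_cons_succ, List.getD_eq_default _ _ (by simpa using h)]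
        rw [this]
        intro q hq
        exact absurd hq (Finset.notMem_empty q)
  -- the laws
  set lw : ℕ → V → Perm V → ℝ := fun j => ((wUnif Q) :: l.map Prod.snd).getD j (wUnif Q) with hlw
  have hl1 : ∀ i (h : i < l.length), lw (i + 1) = (l[i]).2 := by
    intro i h
    show ((wUnif Q) :: l.map Prod.snd).getD (i + 1) (wUnif Q) = _
    rw [List.getD_cons_succ, List.getD_eq_getElem _ _ (by simpa using h)]
    simp
  have hlW : ∀ j, ∀ y ∈ Gs j, WDens Q y (lw j y) := by
    intro j y hy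
    rcases j with _ | i
    · exact gr_wUnif_dens Q y
    · by_cases h : i < l.length
      · rw [hl1 i h]
        rw [hG1 i h] at hy
        exact hl _ (List.getElem_mem h) y hy
      · have : lw (i + 1) = wUnif Q := by
          show ((wUnif Q) :: l.map Prod.snd).getD (i + 1) (wUnif Q) = _
          rw [List.getD_cons_succ, List.getD_eq_default _ _ (by simpa using h)]
        rw [this]
        exact gr_wUnif_dens Q y
  set π : Fin (l.length + 1) × V → Perm (Fin (l.length + 1) × V) → ℝ :=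
    fun q => gr_push (l.length + 1) q.1 (lw q.1 q.2) with hπ
  have hmem : ∀ q : Fin (l.length + 1) × V, q ∈ gr_nd S l.length M0 0 l ↔ q.2 ∈ Gs q.1 := by
    intro q
    rw [gr_nd_mem S l.length M0 l 0 (by omega)]
    constructor
    · rintro (⟨h1, h2⟩ | ⟨i, hi, h1, h2⟩)
      · rw [h1, hG0]; exact h2
      · rw [h1, show 0 + 1 + i = i + 1 by omega, hG1 i hi]; exact h2
    · intro h
      rcases hq : (q.1 : ℕ) with _ | i
      · rw [hq, hG0] at h
        exact Or.inl ⟨rfl, h⟩
      · have hi : i < l.length := by have := q.1.isLt; omega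
        rw [hq, hG1 i hi] at h
        exact Or.inr ⟨i, hi, by omega, h⟩
  refine ⟨π, gr_nd S l.length M0 0 l, gr_nd_nodup S l.length M0 l 0 (by omega), ?_, ?_, ?_, ?_, ?_⟩
  · rintro ⟨i, y⟩
    rw [hmem]
    constructor
    · intro hy
      obtain ⟨q0, hq0⟩ := hQ
      refine ⟨(i, y + q0), ?_⟩
      rw [gr_stc_some w i (hwG i) (hGd i) hy]
      exact ⟨rfl, by simpa using hq0⟩
    · rintro ⟨⟨j, v⟩, hq⟩
      change (w j v).map (fun x => (j, x)) = some (i, y) at hq
      rw [Option.map_eq_some_iff] at hq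
      obtain ⟨x, hx, hxy⟩ := hq
      have h1 : j = i := congrArg Prod.fst hxy
      have h2 : x = y := congrArg Prod.snd hxy
      subst h1
      subst h2
      rw [hwG] at hx
      exact (gr_colW_mem hx).1
  · rintro ⟨i, y⟩ hy
    rw [hmem] at hy
    have h1 : (univ.filter fun q : Fin (l.length + 1) × V => stc l.length w q = some (i, y))
        = (univ.filter fun v : V => v - y ∈ Q).image fun v => (i, v) := by
      ext ⟨j, v⟩
      simp only [Finset.mem_filter, Finset.mem_univ, true_and, Finset.mem_image,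
        gr_stc_some w i (hwG i) (hGd i) hy, Prod.mk.injEq]
      constructor
      · rintro ⟨rfl, h⟩; exact ⟨v, h, rfl, rfl⟩
      · rintro ⟨v', h, rfl, rfl⟩; exact ⟨rfl, h⟩
    rw [h1, Finset.card_image_of_injective _ (fun a b h => congrArg Prod.snd h), gr_card_win]
  · rintro ⟨i, y⟩ hy
    rw [hmem] at hy
    exact gr_push_dens w i (hwG i) (hGd i) hy (hlW _ y hy)
  · intro y hy σ
    exact gr_push_unif w (hwG 0) hM0 hy σ
  · have hT : ∀ i (h : i < l.length), ((l.map Prod.fst).map S.T).getD i 1 = S.T (l[i]).1 := by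
      intro i h
      rw [List.getD_eq_getElem _ _ (by simpa using h)]
      simp
    have hmain := gr_main S Q M0 l.length (fun j => ((l.map Prod.fst).map S.T).getD j 1) Φ
      (fun x => patI τ x z)
      (stP l.length (envS S (l.map Prod.fst)) Φ⁻¹)⁻¹
      (fun P => patI τ P (fun i => ((0 : Fin (l.length + 1)), z i))) π
      (fun s => gr_patI l.length (fun j => ((l.map Prod.fst).map S.T).getD j 1) s Φ z τ)
      (fun y _ => rfl) l 0 (by omega)
      (fun i h => by rw [zero_add]; exact hT i h)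
      (fun i h y _ => by
        show gr_push (l.length + 1) ((gr_lv l.length (0 + i + 1)) : ℕ)
          (lw ((gr_lv l.length (0 + i + 1)) : ℕ) y) = _
        rw [gr_lv_val (by omega), zero_add, hl1 i h])
      (fun _ => 1) rfl (fun _ _ => rfl)
    have h1 : gr_LA (l.length + 1) (fun _ => (1 : Perm V)) = 1 := rfl
    rw [h1, mul_one] at hmain
    exact hmain

end G

section G5

variable {V : Type} [AddCommGroup V] [Fintype V] [DecidableEq V]

theorem wUnif_nonneg (Q : Finset V) (y : V) (σ : Perm V) : 0 ≤ wUnif Q y σ := by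
  unfold wUnif
  split_ifs <;> positivity

theorem wUnif_supp {Q : Finset V} {y : V} {σ : Perm V} (h : wUnif Q y σ ≠ 0) :
    ∀ v, v - y ∉ Q → σ v = v := by
  unfold wUnif at h
  by_contra hc
  exact h (if_neg hc)

theorem wUnif_sum (Q : Finset V) (y : V) : ∑ σ, wUnif Q y σ = 1 := by
  classical
  have h1 : ∑ σ, wUnif Q y σ =
      ((univ.filter fun σ : Perm V => ∀ v, v - y ∉ Q → σ v = v).card : ℝ) *
        (1 / (Q.card.factorial : ℝ)) := by
    unfold wUnif
    rw [← Finset.sum_filter, Finset.sum_const, nsmul_eq_mul]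
  have h2 : (univ.filter fun σ : Perm V => ∀ v, v - y ∉ Q → σ v = v).card =
      Q.card.factorial := by
    rw [← Fintype.card_subtype,
      ← Fintype.card_congr (Equiv.Perm.subtypeEquivSubtypePerm fun v => v - y ∈ Q),
      Fintype.card_perm]
    congr 1
    rw [Fintype.card_subtype]
    refine Finset.card_bij (fun v _ => v - y) ?_ ?_ ?_
    · intro v hv; exact (Finset.mem_filter.1 hv).2
    · intro v _ w _ h; exact sub_left_injective h
    · intro q hq; exact ⟨q + y, by simp [hq], by simp⟩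
  rw [h1, h2]
  have : (Q.card.factorial : ℝ) ≠ 0 := by positivity
  field_simp

theorem g5_JL_nonneg {Y : Type} [Fintype Y] [DecidableEq Y] {π : Y → Perm V → ℝ}
    (hπ : ∀ y σ, 0 ≤ π y σ) {H : Perm V → ℝ} (hH : ∀ x, 0 ≤ H x) (l : List Y) (x : Perm V) :
    0 ≤ JL π H l x := by
  induction l generalizing x with
  | nil => exact hH x
  | cons y l ih => exact Finset.sum_nonneg fun σ _ => mul_nonneg (hπ y σ) (ih _)

theorem g5_JL_le {Y : Type} [Fintype Y] [DecidableEq Y] {π : Y → Perm V → ℝ}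
    (hπ : ∀ y σ, 0 ≤ π y σ) (hs : ∀ y, ∑ σ, π y σ = 1) {H : Perm V → ℝ} (hH : ∀ x, H x ≤ 1)
    (l : List Y) (x : Perm V) : JL π H l x ≤ 1 := by
  induction l generalizing x with
  | nil => exact hH x
  | cons y l ih =>
    refine (Finset.sum_le_sum fun σ _ => mul_le_mul_of_nonneg_left (ih _) (hπ y σ)).trans ?_
    simp only [mul_one]
    exact (hs y).le

end G5

section Torus5

variable {d L : ℕ} [NeZero L]

theorem g5_expect_sum (t : ℝ) {ι : Type*} (s : Finset ι) (a : ι → ℝ)
    (f : ι → Perm (Fin d → ZMod L) → ℝ) :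
    expect d L t (fun x => ∑ i ∈ s, a i * f i x) = ∑ i ∈ s, a i * expect d L t (f i) := by
  simp only [QK.expect_eq]
  have h : (fun x => ∑ i ∈ s, a i * f i x) = ∑ i ∈ s, a i • f i := by
    funext x
    simp [Finset.sum_apply]
  rw [h, map_sum, Finset.sum_apply]
  refine Finset.sum_congr rfl fun i _ => ?_
  rw [map_smul]
  rfl

/-- G5. Insertion of uniform shuffles of the marked windows at the end, from the bound `e` for one
shuffle. -/
theorem insert_marked {Q : Finset (Fin d → ZMod L)} {t e : ℝ} (ht : 0 ≤ t)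
    (hone : ∀ y (s : Perm (Fin d → ZMod L)), (∀ v, v - y ∉ Q → s v = v) →
      ∀ H : Perm (Fin d → ZMod L) → ℝ, (∀ x, 0 ≤ H x) → (∀ x, H x ≤ 1) →
        |expect d L t (fun x => H (x * s)) - expect d L t H| ≤ e)
    (M0 : Finset (Fin d → ZMod L)) (H : Perm (Fin d → ZMod L) → ℝ) (hH0 : ∀ x, 0 ≤ H x)
    (hH1 : ∀ x, H x ≤ 1) :
    |expect d L t (fun x => JL (wUnif Q) H M0.toList x) - expect d L t H| ≤ M0.card * e := by
  have key : ∀ l : List (Fin d → ZMod L),
      |expect d L t (fun x => JL (wUnif Q) H l x) - expect d L t H| ≤ l.length * e := by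
    intro l
    induction l with
    | nil => simp [JL]
    | cons y l ih =>
      set G : Perm (Fin d → ZMod L) → ℝ := fun x => JL (wUnif Q) H l x with hG
      have hG0 : ∀ x, 0 ≤ G x := g5_JL_nonneg (wUnif_nonneg Q) hH0 l
      have hG1 : ∀ x, G x ≤ 1 := g5_JL_le (wUnif_nonneg Q) (wUnif_sum Q) hH1 l
      have e1 : expect d L t (fun x => JL (wUnif Q) H (y :: l) x) =
          ∑ s, wUnif Q y s * expect d L t (fun x => G (x * s)) :=
        g5_expect_sum t univ (wUnif Q y) (fun s x => G (x * s))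
      have e2 : expect d L t (fun x => JL (wUnif Q) H (y :: l) x) - expect d L t G =
          ∑ s, wUnif Q y s * (expect d L t (fun x => G (x * s)) - expect d L t G) := by
        simp only [mul_sub]
        rw [Finset.sum_sub_distrib, ← Finset.sum_mul, wUnif_sum, one_mul, ← e1]
      have e3 : |expect d L t (fun x => JL (wUnif Q) H (y :: l) x) - expect d L t G| ≤ e := by
        rw [e2]
        refine (Finset.abs_sum_le_sum_abs _ _).trans ?_
        have e4 : ∀ s ∈ (univ : Finset (Perm (Fin d → ZMod L))),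
            |wUnif Q y s * (expect d L t (fun x => G (x * s)) - expect d L t G)| ≤
              wUnif Q y s * e := by
          intro s _
          rw [abs_mul, abs_of_nonneg (wUnif_nonneg Q y s)]
          by_cases h0 : wUnif Q y s = 0
          · rw [h0]; simp
          · exact mul_le_mul_of_nonneg_left (hone y s (wUnif_supp h0) G hG0 hG1)
              (wUnif_nonneg Q y s)
        refine (Finset.sum_le_sum e4).trans (le_of_eq ?_)
        rw [← Finset.sum_mul, wUnif_sum, one_mul]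
      have e5 := abs_sub_le (expect d L t (fun x => JL (wUnif Q) H (y :: l) x))
        (expect d L t G) (expect d L t H)
      rw [List.length_cons]
      push_cast
      linarith
  have := key M0.toList
  rwa [Finset.length_toList] at this

end Torus5


end Pool.Agent.PL
end

section

section

/-! G8. One good environment: the mean over all window shuffles. -/

set_option autoImplicit false
set_option linter.unusedSectionVars false

open Finset Equiv Pool.Agent.Stirring

namespace Pool.Agent.PL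

theorem cOn_eq {Q Y : Type} [DecidableEq Y] {c : Q → Option Y} {A : Finset Y}
    (h : ∀ q y, c q = some y → y ∈ A) : cOn c A = c := by
  funext w
  unfold cOn
  cases hc : c w with
  | none => rfl
  | some y => simp [h w y hc]

/-- **G8.** -/
theorem inner_bound (d : ℕ) (hd : 2 ≤ d) (c1 : ℝ) (hc1 : 0 < c1) : ∃ C : ℝ, 1 ≤ C ∧
    ∀ (L : ℕ) [NeZero L] (Ω : Type) [Fintype Ω] (S : QK.Slab (Fin d → ZMod L) Ω)
      (Q : Finset (Fin d → ZMod L))
      (l : List (Ω × ((Fin d → ZMod L) → Perm (Fin d → ZMod L) → ℝ)))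
      (M0 : Finset (Fin d → ZMod L)) (Φ : Perm (Fin d → ZMod L)) (k : ℕ)
      (z : Fin k → (Fin d → ZMod L)) (τ : Perm (Fin k)) (r : ℕ) (M Kw κ : ℝ),
    (0 : Fin d → ZMod L) ∈ Q → 1 ≤ l.length → 8 ≤ r → 2 * r ≤ L → 0 ≤ M →
    GoodEnv (envS S (l.map Prod.fst)) (envW S Q M0 (l.map Prod.fst)) l.length Q.card r c1 M Kw →
    M * Kw ≤ Q.card → (Q.card : ℝ) * l.length * (1 + Real.log L) ^ 2 ≤ (r : ℝ) ^ d →
    Adm S Q l → (∀ a, QK.Dis Q (S.good a)) → QK.Dis Q M0 →
    Function.Injective z → (∀ i, z i ∈ M0) →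
    1 ≤ κ → C * κ ^ 2 ≤ Q.card →
    C * κ * Real.log (((l.length : ℝ) + 1) * (L : ℝ) ^ d) ≤ Real.sqrt (Real.sqrt Q.card) →
    (((l.length : ℝ) + 1) * (L : ℝ) ^ d) ^ 6 * Q.card ≤ Real.exp κ →
    |JS S (fun g => JL (wUnif Q) (fun x => patI τ x z) M0.toList (g * Φ)) l 1
        - (relCl τ).card / (k.factorial : ℝ)| ≤
      2 * (k : ℝ) ^ 2 * (k.factorial : ℝ) * (4 * k * (C / Q.card)
        + C * (((l.length : ℝ) + 1) * (L : ℝ) ^ d) ^ 2 * Real.exp (-(κ / 2))) := by
  classical
  obtain ⟨C3, hC3, hres⟩ := res_bound d hd c1 hc1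
  obtain ⟨C2, hC2, hend⟩ := TN.endgame_freeze (2 * C3) (by linarith)
  refine ⟨max C2 (2 * C3), le_max_of_le_left hC2, ?_⟩
  intro L _ Ω _ S Q l M0 Φ k z τ r M Kw κ h0Q hl1 hr8 hrL hM hG hMK hNJ hadm hdis hdM0 hz hzM
    hκ hκN hκlog hκexp
  set C := max C2 (2 * C3) with hC
  have hQne : Q.Nonempty := ⟨0, h0Q⟩
  have hN1 : 1 ≤ Q.card := Finset.card_pos.mpr hQne
  have hN0 : (0 : ℝ) < Q.card := by exact_mod_cast hN1
  obtain ⟨π, nodes, hnd, hmem, hcard, hdens, hunif, hrepr⟩ :=
    inner_repr (S := S) hQne l hadm hdis hdM0 Φ z τ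
  have hRB : RB (stP l.length (envS S (l.map Prod.fst)) Φ⁻¹)
      (stc l.length (envW S Q M0 (l.map Prod.fst))) (C3 / Q.card) :=
    hres L (envS S (l.map Prod.fst)) Φ⁻¹ (envW S Q M0 (l.map Prod.fst)) l.length Q.card r M Kw
      hN1 hl1 hr8 hrL hM hG hMK hNJ
  -- parameters
  obtain ⟨ρ, hρ⟩ : ∃ ρ : ℝ, ρ = 2 * C3 / Q.card := ⟨_, rfl⟩
  have hρ0 : 0 < ρ := by rw [hρ]; positivity
  have hρ2 : ρ / 2 = C3 / Q.card := by rw [hρ]; ring
  obtain ⟨A0, hA0⟩ : ∃ A0 : Finset (Fin (l.length + 1) × (Fin d → ZMod L)),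
    A0 = nodes.toFinset := ⟨_, rfl⟩
  have hA0mem : ∀ y, y ∈ A0 ↔ y ∈ nodes := fun y => by rw [hA0]; exact List.mem_toFinset
  have hcA : ∀ q y, stc l.length (envW S Q M0 (l.map Prod.fst)) q = some y → y ∈ A0 :=
    fun q y h => (hA0mem y).mpr ((hmem y).mpr ⟨q, h⟩)
  have hcard0 : (A0.card : ℝ) ≤ ((l.length : ℝ) + 1) * (L : ℝ) ^ d := by
    have h1 : A0.card ≤ Fintype.card (Fin (l.length + 1) × (Fin d → ZMod L)) :=
      Finset.card_le_univ _
    have h2 : Fintype.card (Fin (l.length + 1) × (Fin d → ZMod L)) = (l.length + 1) * L ^ d := by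
      rw [Fintype.card_prod, Fintype.card_fin, Fintype.card_fun, Fintype.card_fin, ZMod.card]
    rw [h2] at h1
    exact_mod_cast h1
  have hinv : ∀ y ∈ A0, ∀ z ∈ A0, ResLe (netA (stP l.length (envS S (l.map Prod.fst)) Φ⁻¹)⁻¹
      (stc l.length (envW S Q M0 (l.map Prod.fst))) A0) (ρ / 2) y z := by
    intro y hy z hz
    have h1 : netA (stP l.length (envS S (l.map Prod.fst)) Φ⁻¹)⁻¹
        (stc l.length (envW S Q M0 (l.map Prod.fst))) A0
        = mat (remS (stP l.length (envS S (l.map Prod.fst)) Φ⁻¹)⁻¹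
          (univ.filter fun w => stc l.length (envW S Q M0 (l.map Prod.fst)) w = none))
          (stc l.length (envW S Q M0 (l.map Prod.fst))) := by
      unfold netA
      rw [cOn_eq hcA]
    rw [h1]
    refine ResLe_mat_inv ?_
    rw [hρ2]
    refine netA_of_RB (by positivity) hRB ?_ ?_
    · exact (hmem y).mp ((hA0mem y).mp hy)
    · exact (hmem z).mp ((hA0mem z).mp hz)
  rw [hrepr]
  have hmark : ∀ i, stc l.length (envW S Q M0 (l.map Prod.fst))
      ((0 : Fin (l.length + 1)), z i) = some ((0 : Fin (l.length + 1)), z i) := by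
    intro i
    unfold stc envW
    simp only [Fin.val_zero, List.getD_cons_zero]
    have h1 : ∃ q ∈ M0, z i - q ∈ Q := ⟨z i, hzM i, by simpa using h0Q⟩
    unfold colW
    rw [dif_pos h1]
    have h2 := Classical.choose_spec h1
    have h3 : Classical.choose h1 = z i :=
      hdM0 _ h2.1 _ (hzM i) (z i) h2.2 (by simpa using h0Q)
    rw [h3]
    rfl
  -- the case of no marks
  rcases Nat.eq_zero_or_pos k with hk0 | hk0
  · subst hk0
    have h1 : (fun P : Perm (Fin (l.length + 1) × (Fin d → ZMod L)) =>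
        patI τ P (fun i => ((0 : Fin (l.length + 1)), z i))) = fun _ => 1 := by
      funext P
      unfold patI
      rw [if_pos]
      intro a
      exact a.elim0
    rw [h1, TN.JL_const 1 hdens]
    have h2 : (relCl τ).card = 1 := by
      rw [Finset.card_eq_one]
      exact ⟨τ, Finset.eq_singleton_iff_unique_mem.mpr
        ⟨self_mem_relCl τ, fun σ _ => Subsingleton.elim _ _⟩⟩
    rw [h2]
    simp
  have hk1 : Nonempty (Fin k) := ⟨⟨0, hk0⟩⟩
  have hA1 : (1 : ℝ) ≤ A0.card := by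
    have : 0 < A0.card := Finset.card_pos.mpr ⟨_, hcA _ _ (hmark ⟨0, hk0⟩)⟩
    exact_mod_cast this
  have key := hend (Fin (l.length + 1) × (Fin d → ZMod L)) (Fin (l.length + 1) × (Fin d → ZMod L))
    (Fin k) (stc l.length (envW S Q M0 (l.map Prod.fst))) Q.card ρ κ A0 π nodes
    (stP l.length (envS S (l.map Prod.fst)) Φ⁻¹)⁻¹
    (fun i => ((0 : Fin (l.length + 1)), z i)) (fun i => ((0 : Fin (l.length + 1)), z i))
    hρ0 ?_ hκ ?_ ?_ ?_ (fun y hy => hcard y ((hA0mem y).mp hy)) hcA hnd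
    (fun y => (hA0mem y).symm) hdens hinv ?_ ?_ hmark τ
  · rw [Fintype.card_fin] at key
    refine le_trans (le_of_eq ?_) (key.trans ?_)
    · rfl
    · have hC2' : C2 ≤ max C2 (2 * C3) := le_max_left _ _
      have hC3' : ρ ≤ max C2 (2 * C3) / Q.card := by
        rw [hρ]
        exact div_le_div_of_nonneg_right (le_max_right _ _) hN0.le
      refine mul_le_mul_of_nonneg_left ?_ (by positivity)
      refine add_le_add ?_ ?_
      · exact mul_le_mul_of_nonneg_left hC3' (by positivity)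
      · refine mul_le_mul_of_nonneg_right ?_ (Real.exp_pos _).le
        refine mul_le_mul hC2' ?_ (by positivity) (by positivity)
        exact pow_le_pow_left₀ (by positivity) hcard0 2
  · rw [hρ]
    field_simp
    exact le_rfl
  · refine le_trans ?_ hκN
    exact mul_le_mul_of_nonneg_right (le_max_left _ _) (by positivity)
  · refine le_trans ?_ hκlog
    have h1 : Real.log A0.card ≤ Real.log (((l.length : ℝ) + 1) * (L : ℝ) ^ d) :=
      Real.log_le_log (by linarith) hcard0
    have h2 : 0 ≤ Real.log (A0.card : ℝ) := Real.log_nonneg hA1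
    refine mul_le_mul ?_ h1 h2 (by positivity)
    exact mul_le_mul_of_nonneg_right (le_max_left _ _) (by linarith)
  · refine le_trans ?_ hκexp
    refine mul_le_mul_of_nonneg_right ?_ (Nat.cast_nonneg _)
    exact pow_le_pow_left₀ (by positivity) hcard0 6
  · intro i j hij
    exact hz (Prod.ext_iff.mp hij).2
  · intro i σ
    have h1 := hunif (z i) (hzM i) σ
    rw [h1]
    have h2 := hcard _ ((hmem _).mpr ⟨_, hmark i⟩)
    have h3 : TN.fib (stc l.length (envW S Q M0 (l.map Prod.fst)))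
        ((0 : Fin (l.length + 1)), z i) = univ.filter fun q =>
        stc l.length (envW S Q M0 (l.map Prod.fst)) q = some ((0 : Fin (l.length + 1)), z i) := rfl
    rw [h3, h2]
    by_cases h4 : ∀ q, stc l.length (envW S Q M0 (l.map Prod.fst)) q
        ≠ some ((0 : Fin (l.length + 1)), z i) → σ q = q
    · rw [if_pos h4, if_pos]
      rw [TN.mem_permsOn]
      intro q hq
      exact h4 q fun h => hq (by simp [h])
    · rw [if_neg h4, if_neg]
      rw [TN.mem_permsOn]
      intro h5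
      exact h4 fun q hq => h5 q (by simpa using hq)

end Pool.Agent.PL
end

section

/-!
# G9a: the probabilistic assembly, for a fixed torus and a fixed time
-/

open Finset

set_option linter.unusedSectionVars false

namespace Pool.Agent.Stirring.TN

open Pool.Agent.Stirring

section Kernel

variable {V : Type*} [Fintype V] [DecidableEq V]

/-- The kernel of the semigroup. -/
theorem sg_kernel (c : V × V → ℝ) (s : ℝ) (F : Equiv.Perm V → ℝ) (σ : Equiv.Perm V) :
    Hier.sg c s F σ = ∑ x, F x * Hier.sg c s (Pi.single x 1) σ := by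
  have h1 : F = ∑ x, F x • (Pi.single x (1 : ℝ) : Equiv.Perm V → ℝ) := by
    funext τ
    rw [Finset.sum_apply]
    simp only [Pi.smul_apply, Pi.single_apply, smul_eq_mul]
    simp
  conv_lhs => rw [h1]
  rw [map_sum, Finset.sum_apply]
  refine Finset.sum_congr rfl fun x _ => ?_
  rw [map_smul]
  rfl

theorem sg_sum' (c : V × V → ℝ) (s : ℝ) {κ : Type*} (t : Finset κ) (p : κ → ℝ)
    (F : κ → Equiv.Perm V → ℝ) (σ : Equiv.Perm V) :
    Hier.sg c s (fun g => ∑ x ∈ t, p x * F x g) σ = ∑ x ∈ t, p x * Hier.sg c s (F x) σ := by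
  have h1 : (fun g => ∑ x ∈ t, p x * F x g) = ∑ x ∈ t, p x • F x := by
    funext g
    rw [Finset.sum_apply]
    rfl
  rw [h1, map_sum, Finset.sum_apply]
  refine Finset.sum_congr rfl fun x _ => ?_
  rw [map_smul]
  rfl

theorem sg_nonneg' {c : V × V → ℝ} (hc : ∀ p, 0 ≤ c p) {s : ℝ} (hs : 0 ≤ s)
    {F : Equiv.Perm V → ℝ} (hF : ∀ σ, 0 ≤ F σ) (σ : Equiv.Perm V) : 0 ≤ Hier.sg c s F σ :=
  Hier.sg_nonneg_on hc (Hier.stab_univ c) (fun τ _ => hF τ) hs σ trivial

end Kernel

section JL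

variable {Q Y : Type} [Fintype Q] [DecidableEq Q]

/-- `JL` of an affine function. -/
theorem JL_affine {π : Y → Equiv.Perm Q → ℝ} (a r : ℝ) (G : Equiv.Perm Q → ℝ) {l : List Y}
    (hπ : ∀ y ∈ l, ∑ σ, π y σ = 1) (Θ : Equiv.Perm Q) :
    PL.JL π (fun η => a * G η + r) l Θ = a * PL.JL π G l Θ + r := by
  induction l generalizing Θ with
  | nil => rfl
  | cons y l ih =>
    show ∑ σ, π y σ * PL.JL π (fun η => a * G η + r) l (Θ * σ) =
      a * ∑ σ, π y σ * PL.JL π G l (Θ * σ) + r
    have h1 : ∀ σ, π y σ * PL.JL π (fun η => a * G η + r) l (Θ * σ) =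
        a * (π y σ * PL.JL π G l (Θ * σ)) + π y σ * r := by
      intro σ
      rw [ih (fun y hy => hπ y (List.mem_cons_of_mem _ hy))]
      ring
    rw [Finset.sum_congr rfl fun σ _ => h1 σ, Finset.sum_add_distrib, ← Finset.mul_sum,
      ← Finset.sum_mul, hπ y List.mem_cons_self, one_mul]

theorem JL_mono' {π : Y → Equiv.Perm Q → ℝ} {G H : Equiv.Perm Q → ℝ} (hGH : ∀ η, G η ≤ H η)
    {l : List Y} (hπ : ∀ y ∈ l, ∀ σ, 0 ≤ π y σ) (Θ : Equiv.Perm Q) :
    PL.JL π G l Θ ≤ PL.JL π H l Θ := by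
  induction l generalizing Θ with
  | nil => exact hGH Θ
  | cons y l ih =>
    show ∑ σ, π y σ * PL.JL π G l (Θ * σ) ≤ ∑ σ, π y σ * PL.JL π H l (Θ * σ)
    refine Finset.sum_le_sum fun σ _ => ?_
    exact mul_le_mul_of_nonneg_left (ih (fun y hy => hπ y (List.mem_cons_of_mem _ hy)) _)
      (hπ y List.mem_cons_self σ)

theorem JL_const' {π : Y → Equiv.Perm Q → ℝ} (r : ℝ) {l : List Y}
    (hπ : ∀ y ∈ l, ∑ σ, π y σ = 1) (Θ : Equiv.Perm Q) : PL.JL π (fun _ => r) l Θ = r := by
  have h1 := JL_affine (π := π) 0 r (fun _ => 0) hπ Θ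
  simp only [zero_mul, zero_add] at h1
  exact h1

end JL

section JS

variable {V : Type} [AddCommGroup V] [Fintype V] [DecidableEq V] {Ω : Type} [Fintype Ω]
  {S : QK.Slab V Ω} {Q : Finset V}

theorem JS_mono {G H : Equiv.Perm V → ℝ} (hGH : ∀ η, G η ≤ H η)
    {l : List (Ω × (V → Equiv.Perm V → ℝ))} (hl : PL.Adm S Q l) (g : Equiv.Perm V) :
    PL.JS S G l g ≤ PL.JS S H l g := by
  induction l generalizing g with
  | nil => exact hGH g
  | cons p l ih =>
    obtain ⟨a, μ⟩ := p
    show PL.JL μ (fun g' => PL.JS S G l g') (S.good a).toList (g * S.T a) ≤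
      PL.JL μ (fun g' => PL.JS S H l g') (S.good a).toList (g * S.T a)
    refine JL_mono' (fun η => ih (fun p hp => hl p (List.mem_cons_of_mem _ hp)) η) ?_ _
    intro y hy
    exact (hl (a, μ) List.mem_cons_self y (Finset.mem_toList.mp hy)).nonneg

theorem JS_affine (a r : ℝ) (G : Equiv.Perm V → ℝ) {l : List (Ω × (V → Equiv.Perm V → ℝ))}
    (hl : PL.Adm S Q l) (g : Equiv.Perm V) :
    PL.JS S (fun η => a * G η + r) l g = a * PL.JS S G l g + r := by
  induction l generalizing g with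
  | nil => rfl
  | cons p l ih =>
    obtain ⟨b, μ⟩ := p
    show PL.JL μ (fun g' => PL.JS S (fun η => a * G η + r) l g') (S.good b).toList (g * S.T b) =
      a * PL.JL μ (fun g' => PL.JS S G l g') (S.good b).toList (g * S.T b) + r
    simp only [ih (fun p hp => hl p (List.mem_cons_of_mem _ hp))]
    exact JL_affine a r _ (fun y hy =>
      (hl (b, μ) List.mem_cons_self y (Finset.mem_toList.mp hy)).sum) _

theorem JS_const (r : ℝ) {l : List (Ω × (V → Equiv.Perm V → ℝ))}
    (hl : PL.Adm S Q l) (g : Equiv.Perm V) : PL.JS S (fun _ => r) l g = r := by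
  have h1 := JS_affine (S := S) 0 r (fun _ => 0) hl g
  simp only [zero_mul, zero_add] at h1
  exact h1

end JS

/-- G9a. The assembly: the slabs are replaced by their mixtures, the filler is a mixture. -/
theorem assemble {d L : ℕ} [NeZero L] {Ω : Type} [Fintype Ω]
    {c : (Fin d → ZMod L) × (Fin d → ZMod L) → ℝ} (hc : ∀ p, 0 ≤ c p) {h t' : ℝ} (hh : 0 ≤ h)
    (ht' : 0 ≤ t') {S : QK.Slab (Fin d → ZMod L) Ω} {Q : Finset (Fin d → ZMod L)}
    (hmix : PL.SlabMix c h S Q) (hw0 : ∀ a, 0 ≤ S.w a) (hw1 : ∑ a, S.w a = 1) (J : ℕ)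
    {H : Equiv.Perm (Fin d → ZMod L) → ℝ} (hH0 : ∀ g, 0 ≤ H g) (hH1 : ∀ g, H g ≤ 1) {c0 : ℝ}
    (hc0 : 0 ≤ c0) (hc1 : c0 ≤ 1) (good : List Ω → Prop) [DecidablePred good] {err δ : ℝ}
    (herr : 0 ≤ err)
    (hin : ∀ (Φ : Equiv.Perm (Fin d → ZMod L))
      (l : List (Ω × ((Fin d → ZMod L) → Equiv.Perm (Fin d → ZMod L) → ℝ))), l.length = J →
      PL.Adm S Q l → good (l.map Prod.fst) →
      |PL.JS S (fun g => H (g * Φ)) l 1 - c0| ≤ err)
    (hδ : QK.EL S.w J (fun l => if good l then 0 else 1) ≤ δ) :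
    |Hier.sg c (J * h + t') H 1 - c0| ≤ err + δ := by
  classical
  have hJh : (0 : ℝ) ≤ J * h := mul_nonneg (Nat.cast_nonneg _) hh
  rw [PL.sg_split]
  set p : Equiv.Perm (Fin d → ZMod L) → ℝ := fun x => Hier.sg c t' (Pi.single x 1) 1 with hp
  have hp0 : ∀ x, 0 ≤ p x := fun x => sg_nonneg' hc ht' (fun σ => by
    rw [Pi.single_apply]
    split_ifs
    · exact zero_le_one
    · exact le_rfl) 1
  have hp1 : ∑ x, p x = 1 := by
    have h1 := sg_kernel c t' (fun _ => 1) (1 : Equiv.Perm (Fin d → ZMod L))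
    rw [Hier.sg_const] at h1
    simp only [one_mul] at h1
    exact h1.symm
  have h2 : (fun g => Hier.sg c t' (fun x => H (g * x)) 1) = fun g => ∑ x, p x * H (g * x) := by
    funext g
    rw [sg_kernel]
    refine Finset.sum_congr rfl fun x _ => ?_
    rw [mul_comm]
  rw [h2, sg_sum' c (J * h) univ p (fun x g => H (g * x))]
  have key : ∀ x, |Hier.sg c (J * h) (fun g => H (g * x)) 1 - c0| ≤ err + δ := by
    intro x
    have hind : ∀ l : List (Ω × ((Fin d → ZMod L) → Equiv.Perm (Fin d → ZMod L) → ℝ)),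
        PL.Adm S Q l → 0 ≤ PL.JS S (fun g => H (g * x)) l 1 ∧
          PL.JS S (fun g => H (g * x)) l 1 ≤ 1 := by
      intro l hl
      constructor
      · rw [← JS_const (S := S) 0 hl 1]
        exact JS_mono (fun η => hH0 _) hl 1
      · rw [← JS_const (S := S) 1 hl 1]
        exact JS_mono (fun η => hH1 _) hl 1
    rw [abs_le]
    constructor
    · -- the lower bound
      have h3 := PL.slab_induction hmix J (fun g => (-1) * H (g * x) + 0) 1
        (fun l => (err - c0) + if good l then 0 else 1) ?_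
      · have h4 : Hier.sg c (J * h) (fun g => (-1) * H (g * x) + 0) 1 =
            - Hier.sg c (J * h) (fun g => H (g * x)) 1 := by
          have h5 : (fun g => (-1) * H (g * x) + 0) = (-1 : ℝ) • fun g => H (g * x) := by
            funext g
            rw [Pi.smul_apply, smul_eq_mul, add_zero]
          rw [h5, Hier.sg_smul]
          ring
        rw [h4, QK.EL_add, QK.EL_const hw1] at h3
        linarith
      · intro l hlJ hl
        rw [JS_affine (S := S) (-1) 0 (fun g => H (g * x)) hl 1]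
        obtain ⟨h5, h6⟩ := hind l hl
        split_ifs with hg
        · have h7 := hin x l hlJ hl hg
          rw [abs_le] at h7
          linarith
        · linarith
    · have h3 := PL.slab_induction hmix J (fun g => H (g * x)) 1
        (fun l => (c0 + err) + if good l then 0 else 1) ?_
      · rw [QK.EL_add, QK.EL_const hw1] at h3
        linarith
      · intro l hlJ hl
        obtain ⟨h5, h6⟩ := hind l hl
        show PL.JS S (fun g => H (g * x)) l 1 ≤ _
        split_ifs with hg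
        · have h7 := hin x l hlJ hl hg
          rw [abs_le] at h7
          linarith
        · linarith
  have h3 : ∑ x, p x * Hier.sg c (J * h) (fun g => H (g * x)) 1 - c0 =
      ∑ x, p x * (Hier.sg c (J * h) (fun g => H (g * x)) 1 - c0) := by
    simp only [mul_sub]
    rw [Finset.sum_sub_distrib, ← Finset.sum_mul, hp1, one_mul]
  rw [h3]
  refine (Finset.abs_sum_le_sum_abs _ _).trans ?_
  have h4 : ∀ x, |p x * (Hier.sg c (J * h) (fun g => H (g * x)) 1 - c0)| ≤ p x * (err + δ) := by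
    intro x
    rw [abs_mul, abs_of_nonneg (hp0 x)]
    exact mul_le_mul_of_nonneg_left (key x) (hp0 x)
  refine (Finset.sum_le_sum fun x _ => h4 x).trans (le_of_eq ?_)
  rw [← Finset.sum_mul, hp1, one_mul]

end Pool.Agent.Stirring.TN
end
end
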