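import Pool.Agent.Lib.MP_6c3d62_pr.Mg.G090
import Pool.Agent.Lib.MP_6c3d62_pr.Mg.G091

section

section

/-! The mean length of a cycle and macroscopic cycles. -/

open Finset

set_option linter.unusedSectionVars false

namespace Pool.Agent.Stirring

variable {d L : ℕ} [NeZero L]

theorem card_cyc_eq_sum (σ : Equiv.Perm (Fin d → ZMod L)) (x : Fin d → ZMod L) :
    ((cyc σ x).card : ℝ) =
      ∑ κ : Fin d → Fin L, if σ.SameCycle x (boxPt d L L x κ) then (1 : ℝ) else 0 := by
  classical
  have hbij : Function.Bijective (boxPt d L L x) := by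
    rw [Fintype.bijective_iff_injective_and_card]
    refine ⟨boxPt_injective le_rfl x, ?_⟩
    rw [Fintype.card_fun, Fintype.card_fun, Fintype.card_fin, ZMod.card]
  have h1 : ((cyc σ x).card : ℝ) = ∑ y, if σ.SameCycle x y then (1 : ℝ) else 0 := by
    unfold cyc
    rw [Finset.card_filter]
    push_cast
    exact Finset.sum_congr rfl fun y _ => by congr
  rw [h1]
  exact ((Equiv.ofBijective _ hbij).sum_comp
    fun y => if σ.SameCycle x y then (1 : ℝ) else 0).symm

/-- The mean length of a cycle. -/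
theorem mean_window (hd : 1 ≤ d) (hL : 3 ≤ L) {t T : ℝ} (ht : 1 ≤ t) (hT : 0 < T)
    (x : Fin d → ZMod L) :
    |(∫ s in t..(t + T), expect d L s (fun σ => ((cyc σ x).card : ℝ))) / T / (L : ℝ) ^ d - 1 / 2| ≤
      1 / (L : ℝ) ^ d + d * clr d * (bet d L t / T + L * Real.sqrt (bet d L t / t)) := by
  classical
  have hclr := clr_pos hd
  have hL2 : 2 ≤ L := by omega
  have ht0 : 0 < t := by linarith
  have hb := bet_pos (d := d) hL2 ht0
  have hd1 : (1 : ℝ) ≤ d := by exact_mod_cast hd
  have hLpos : (0 : ℝ) < L := by exact_mod_cast (by omega : 0 < L)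
  have hLd : 0 < (L : ℝ) ^ d := by positivity
  set err := d * clr d * (bet d L t / T + L * Real.sqrt (bet d L t / t)) with herr
  have herr0 : 0 ≤ err := by positivity
  have h1 : ∀ s : ℝ, expect d L s (fun σ => ((cyc σ x).card : ℝ)) =
      ∑ κ : Fin d → Fin L, sameProb d L s x (boxPt d L L x κ) := by
    intro s
    have : (fun σ : Equiv.Perm (Fin d → ZMod L) => ((cyc σ x).card : ℝ)) =
        fun σ => ∑ κ : Fin d → Fin L, if σ.SameCycle x (boxPt d L L x κ) then (1 : ℝ) else 0 := by
      funext σ; exact card_cyc_eq_sum σ x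
    rw [this, expect_eq, E_sum]
    exact Finset.sum_congr rfl fun κ _ => by rw [← expect_eq]; rfl
  simp only [h1]
  rw [intervalIntegral.integral_finsetSum fun κ _ =>
    (continuous_sameProb x (boxPt d L L x κ)).intervalIntegrable _ _]
  have hcard : (Fintype.card (Fin d → Fin L) : ℝ) = (L : ℝ) ^ d := by
    rw [Fintype.card_fun, Fintype.card_fin, Fintype.card_fin]; push_cast; rfl
  have h2 : (∑ κ : Fin d → Fin L, ∫ s in t..(t + T), sameProb d L s x (boxPt d L L x κ)) / T /
      (L : ℝ) ^ d - 1 / 2 = (∑ κ : Fin d → Fin L,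
        ((∫ s in t..(t + T), sameProb d L s x (boxPt d L L x κ)) / T - 1 / 2)) / (L : ℝ) ^ d := by
    rw [Finset.sum_sub_distrib, Finset.sum_const, Finset.card_univ, nsmul_eq_mul, hcard,
      ← Finset.sum_div]
    field_simp
  rw [h2, abs_div, abs_of_pos hLd, div_le_iff₀ hLd]
  refine (Finset.abs_sum_le_sum_abs _ _).trans ?_
  have h3 : ∀ κ ∈ (Finset.univ : Finset (Fin d → Fin L)),
      |(∫ s in t..(t + T), sameProb d L s x (boxPt d L L x κ)) / T - 1 / 2| ≤
        (if boxPt d L L x κ = x then 1 else 0) + err := by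
    intro κ _
    by_cases hx : boxPt d L L x κ = x
    · rw [if_pos hx, hx, same_self_window hT x]
      norm_num
      linarith
    · rw [if_neg hx, zero_add]
      have h5 := same_window hd hL ht hT x (boxPt d L L x κ) (fun i => ((κ i : ℕ) : ℤ))
        (Ne.symm hx) rfl
      have h6 := sum_single_norm d L κ
      refine h5.trans ?_
      rw [herr, mul_comm (d : ℝ) (clr d), mul_assoc]
      refine mul_le_mul_of_nonneg_left ?_ hclr.le
      have h8 : ((∑ i, |((((κ i : ℕ) : ℤ)) : ℝ)|) - 1) * Real.sqrt (bet d L t / t) ≤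
          d * L * Real.sqrt (bet d L t / t) :=
        mul_le_mul_of_nonneg_right (by linarith) (Real.sqrt_nonneg _)
      have h9 : 0 ≤ bet d L t / T := by positivity
      nlinarith
  refine (Finset.sum_le_sum h3).trans ?_
  rw [Finset.sum_add_distrib, Finset.sum_const, Finset.card_univ, nsmul_eq_mul, hcard]
  have h4 : ∑ κ : Fin d → Fin L, (if boxPt d L L x κ = x then (1 : ℝ) else 0) ≤ 1 := by
    rw [← Finset.sum_filter, Finset.sum_const, nsmul_eq_mul, mul_one]
    have : (Finset.univ.filter fun κ : Fin d → Fin L => boxPt d L L x κ = x).card ≤ 1 := by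
      rw [Finset.card_le_one]
      intro a ha b hb
      rw [Finset.mem_filter] at ha hb
      exact boxPt_injective le_rfl x (ha.2.trans hb.2.symm)
    exact_mod_cast this
  have h5 : (1 / (L : ℝ) ^ d + err) * (L : ℝ) ^ d = 1 + (L : ℝ) ^ d * err := by
    field_simp
  rw [h5]
  linarith

/-- Almost all vertices are in macroscopic cycles. -/
theorem macro_window (hd : 1 ≤ d) (hL : 2 ≤ L) {t T : ℝ} (ht : 1 ≤ t) (hT : 0 < T)
    (x : Fin d → ZMod L) {ε : ℝ} (hε : 0 ≤ ε) :
    1 - csh d * (ε + (bet d L t / T + L * Real.sqrt (bet d L t / t))) ≤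
      (∫ s in t..(t + T), expect d L s
        (fun σ => if ε * (L : ℝ) ^ d ≤ ((cyc σ x).card : ℝ) then (1 : ℝ) else 0)) / T := by
  classical
  have hcsh := csh_pos hd
  have ht0 : 0 < t := by linarith
  have hLpos : (0 : ℝ) < L := by exact_mod_cast (by omega : 0 < L)
  have hLd : 0 < (L : ℝ) ^ d := by positivity
  set m : ℕ := ⌊ε * (L : ℝ) ^ d⌋₊ with hm
  have hm1 : (m : ℝ) ≤ ε * (L : ℝ) ^ d := Nat.floor_le (by positivity)
  have hs := short_window hd hL ht hT x (r := L) (by omega) le_rfl m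
  have h1 : ∀ s ∈ Set.Icc t (t + T), 1 - expect d L s
      (fun σ => if (cyc σ x).card ≤ m then (1 : ℝ) else 0) ≤ expect d L s
        (fun σ => if ε * (L : ℝ) ^ d ≤ ((cyc σ x).card : ℝ) then (1 : ℝ) else 0) := by
    intro s hs
    have hs0 : 0 ≤ s := ht0.le.trans hs.1
    have h2 := expect_mono (d := d) (L := L) hs0
      (f := fun σ => 1 + (-1) * (if (cyc σ x).card ≤ m then (1 : ℝ) else 0))
      (g := fun σ => if ε * (L : ℝ) ^ d ≤ ((cyc σ x).card : ℝ) then (1 : ℝ) else 0) (fun σ => by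
        by_cases h3 : (cyc σ x).card ≤ m
        · rw [if_pos h3]
          split_ifs <;> norm_num
        · rw [if_neg h3]
          have h4 : ε * (L : ℝ) ^ d ≤ ((cyc σ x).card : ℝ) := by
            push Not at h3
            have h5 : ((m + 1 : ℕ) : ℝ) ≤ ((cyc σ x).card : ℝ) := by exact_mod_cast h3
            have h6 := Nat.lt_floor_add_one (ε * (L : ℝ) ^ d)
            push_cast at h5
            linarith
          rw [if_pos h4]; norm_num)
    rw [expect_eq s (fun σ => 1 + (-1) * (if (cyc σ x).card ≤ m then (1 : ℝ) else 0)), E_add,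
      E_const, E_smul, ← expect_eq] at h2
    linarith
  have h2 := intervalIntegral.integral_mono_on (a := t) (b := t + T)
    (μ := MeasureTheory.volume) (by linarith)
    (f := fun s => 1 - expect d L s (fun σ => if (cyc σ x).card ≤ m then (1 : ℝ) else 0))
    (g := fun s => expect d L s
      (fun σ => if ε * (L : ℝ) ^ d ≤ ((cyc σ x).card : ℝ) then (1 : ℝ) else 0))
    ((continuous_const.sub (continuous_expect _)).intervalIntegrable _ _)
    ((continuous_expect _).intervalIntegrable _ _) h1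
  rw [intervalIntegral.integral_sub intervalIntegrable_const
    ((continuous_expect _).intervalIntegrable _ _)] at h2
  simp only [intervalIntegral.integral_const, add_sub_cancel_left, smul_eq_mul, mul_one] at h2
  have h3 : (m : ℝ) / (L : ℝ) ^ d ≤ ε := by
    rw [div_le_iff₀ hLd]; exact hm1
  have h4 : csh d * (m / (L : ℝ) ^ d + bet d L t / T + L * Real.sqrt (bet d L t / t)) ≤
      csh d * (ε + (bet d L t / T + L * Real.sqrt (bet d L t / t))) :=
    mul_le_mul_of_nonneg_left (by linarith) hcsh.le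
  have h5 := hs.trans h4
  rw [div_le_iff₀ hT] at h5
  rw [le_div_iff₀ hT]
  linarith

end Pool.Agent.Stirring
end

section

/-! Pointwise in time: two-point function, short cycles, macroscopic cycles. -/

open Finset

set_option linter.unusedSectionVars false

namespace Pool.Agent.Stirring

variable {d L : ℕ} [NeZero L]

/-- The uniform rule. -/
def unifRule (V : Type*) [Fintype V] [DecidableEq V] : Rule V 0 where
  S _ _ R := R
  nat _ _ _ _ := rfl
  inv _ _ _ hR := (Finset.mem_filter.mp hR).2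

theorem unifRule_pair {V : Type*} [Fintype V] [DecidableEq V] [Nonempty V] (σ : Equiv.Perm V)
    (x y : V) :
    (unifRule V).clo.pair bIn σ x y = (1 + if σ.SameCycle x y then 1 else 0) / 4 := by
  unfold Clo.pair
  rw [Rule.avg_eq]
  have h1 : (Fintype.card (Fin 0 → V) : ℝ) = 1 := by simp
  rw [h1, inv_one, one_mul]
  have h2 : ∀ Z : Fin 0 → V, ((invs σ).card : ℝ)⁻¹ *
      ∑ R ∈ invs σ, bIn ((unifRule V).S σ Z R) x y =
      (1 + if σ.SameCycle x y then 1 else 0) / 4 := by
    intro Z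
    rw [← avgI_pair]
    unfold avgI bIn
    rw [div_eq_inv_mul]
    rfl
  rw [Finset.sum_congr rfl fun Z _ => h2 Z]
  simp

/-- The indicator that two points are in the same cycle. -/
noncomputable def sameI {V : Type*} [Fintype V] [DecidableEq V] (σ : Equiv.Perm V) (x y : V) : ℝ :=
  if σ.SameCycle x y then 1 else 0

theorem rf_same (hd : 1 ≤ d) (hL : 2 ≤ L) {t : ℝ} (ht : 1 ≤ t) :
    RF d L t (8 * cg d) (fun σ x y => sameI σ x y) := by
  have h1 := rf_pair (unifRule (Fin d → ZMod L)).clo hd hL ht natPair_bIn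
  have h2 := (h1.smul 4).add (RF.const (d := d) (L := L) t (-1))
  refine h2.congr (fun σ x y => ?_) ?_
  · rw [unifRule_pair]
    unfold sameI
    ring
  · rw [abs_of_pos (by norm_num : (0 : ℝ) < 4)]; linarith

theorem sameI_swap {V : Type*} [Fintype V] [DecidableEq V] {x y : V} (hxy : x ≠ y)
    (σ : Equiv.Perm V) : sameI (Equiv.swap x y * σ) x y = 1 - sameI σ x y := by
  have h1 := numCycles_swap_sub hxy σ
  have h2 := numCycles_swap_sub hxy (Equiv.swap x y * σ)
  rw [← mul_assoc, Equiv.swap_mul_self, one_mul] at h2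
  unfold sameI
  linarith

theorem edge_same (hd : 1 ≤ d) (hL : 2 ≤ L) {t : ℝ} (ht : 1 ≤ t) (i : Fin d) :
    |sameProb d L t 0 (Pi.single i 1) - 1 / 2| ≤ 4 * cg d * Real.sqrt (bet d L t / t) := by
  have h1 := (rf_same (d := d) (L := L) hd hL ht).ring i
  have hne : (0 : Fin d → ZMod L) ≠ Pi.single i 1 := by
    have := edge_ne hL (0 : Fin d → ZMod L) i
    rwa [zero_add] at this
  have h2 : (fun σ : Equiv.Perm (Fin d → ZMod L) =>
      sameI (edgeSwap d L (0, i) * σ) 0 (Pi.single i 1)) =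
      fun σ => 1 + (-1) * sameI σ 0 (Pi.single i 1) := by
    funext σ
    have h3 : edgeSwap d L (0, i) = Equiv.swap 0 (Pi.single i 1) := by
      unfold edgeSwap; simp
    rw [h3, sameI_swap hne]; ring
  rw [h2, expect_add, expect_const, expect_smul] at h1
  have h4 : expect d L t (fun σ => sameI σ 0 (Pi.single i 1)) = sameProb d L t 0 (Pi.single i 1) :=
    rfl
  rw [h4] at h1
  rw [abs_le] at *
  constructor <;> linarith [h1.1, h1.2]

/-- The two-point function, pointwise in time. -/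
theorem same_pointwise (hd : 1 ≤ d) (hL : 2 ≤ L) {t : ℝ} (ht : 1 ≤ t)
    (x y : Fin d → ZMod L) (k : Fin d → ℤ) (hxy : x ≠ y) (hk : y = x + red d L k) :
    |sameProb d L t x y - 1 / 2| ≤
      20 * cg d * (∑ i, |(k i : ℝ)|) * Real.sqrt (bet d L t / t) := by
  have hcg := cg_pos hd
  have ht0 : 0 < t := by linarith
  have hb := bet_pos (d := d) hL ht0
  obtain ⟨i⟩ : Nonempty (Fin d) := ⟨⟨0, hd⟩⟩
  set z : Fin d → ZMod L := red d L k with hz
  have hz0 : z ≠ 0 := fun h => hxy (by rw [hk, h, add_zero])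
  have he0 : (Pi.single i 1 : Fin d → ZMod L) ≠ 0 := by
    have := edge_ne hL (0 : Fin d → ZMod L) i
    rw [zero_add] at this
    exact this.symm
  set k' : Fin d → ℤ := k - Pi.single i 1 with hk'
  have hz' : z = Pi.single i 1 + red d L k' := by
    rw [hz, hk']
    ext j
    simp only [red, Pi.add_apply, Pi.sub_apply, Int.cast_sub]
    by_cases hj : j = i
    · subst hj; simp
    · rw [Pi.single_eq_of_ne hj, Pi.single_eq_of_ne hj]; simp
  have h1 := (rf_same (d := d) (L := L) hd hL ht).flat (Pi.single i 1) k' he0 (by rw [← hz']; exact hz0)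
  rw [← hz'] at h1
  have h2 := edge_same (d := d) (L := L) hd hL ht i
  have h3 : expect d L t (fun σ => sameI σ 0 (Pi.single i 1)) = sameProb d L t 0 (Pi.single i 1) :=
    rfl
  have h4 : expect d L t (fun σ => sameI σ 0 z) = sameProb d L t 0 z := rfl
  rw [h3, h4] at h1
  have h5 : sameProb d L t x y = sameProb d L t 0 z := by
    rw [hk, sameProb_shift]
  rw [h5]
  have hK1 : 1 ≤ ∑ i, |(k i : ℝ)| := by
    have : ∃ j, k j ≠ 0 := by
      by_contra hcon
      push Not at hcon
      apply hz0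
      rw [hz]
      ext j
      simp [red, hcon j]
    obtain ⟨j, hj⟩ := this
    refine le_trans ?_ (Finset.single_le_sum (f := fun i => |(k i : ℝ)|)
      (fun i _ => abs_nonneg _) (Finset.mem_univ j))
    exact_mod_cast Int.one_le_abs hj
  have hK2 : ∑ j, |(k' j : ℝ)| ≤ ∑ i, |(k i : ℝ)| + 1 := by
    have h6 : ∀ j, |(k' j : ℝ)| ≤ |(k j : ℝ)| + (if j = i then 1 else 0) := by
      intro j
      rw [hk']
      by_cases hj : j = i
      · subst hj
        simp only [Pi.sub_apply, Pi.single_eq_same, if_true]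
        push_cast
        refine (abs_sub _ _).trans ?_
        simp
      · simp only [Pi.sub_apply, Pi.single_eq_of_ne hj, if_neg hj]
        simp
    refine (Finset.sum_le_sum fun j _ => h6 j).trans (le_of_eq ?_)
    rw [Finset.sum_add_distrib]
    simp
  set s := Real.sqrt (bet d L t / t) with hs
  have hs0 : 0 ≤ s := Real.sqrt_nonneg _
  have h7 : 8 * cg d * (∑ j, |(k' j : ℝ)|) * s ≤ 16 * cg d * (∑ i, |(k i : ℝ)|) * s := by
    have : ∑ j, |(k' j : ℝ)| ≤ 2 * ∑ i, |(k i : ℝ)| := by linarith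
    have h8 := mul_le_mul_of_nonneg_left this (by positivity : 0 ≤ 8 * cg d * s)
    nlinarith
  have h8 : 4 * cg d * s ≤ 4 * cg d * (∑ i, |(k i : ℝ)|) * s := by
    have := mul_le_mul_of_nonneg_left hK1 (by positivity : 0 ≤ 4 * cg d * s)
    nlinarith
  have h9 : |sameProb d L t 0 z - 1 / 2| ≤ |sameProb d L t 0 (Pi.single i 1) - sameProb d L t 0 z| +
      |sameProb d L t 0 (Pi.single i 1) - 1 / 2| := by
    rw [abs_sub_comm (sameProb d L t 0 (Pi.single i 1)) (sameProb d L t 0 z)]
    have := abs_sub_le (sameProb d L t 0 z) (sameProb d L t 0 (Pi.single i 1)) (1 / 2)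
    exact this
  linarith

/-- Short cycles, pointwise in time. -/
theorem hExp_pointwise {ϑ : ℝ} (h0 : 0 ≤ ϑ) (h1 : ϑ < 1) (hd : 1 ≤ d) (hL : 2 ≤ L) {t : ℝ}
    (ht : 1 ≤ t) (x : Fin d → ZMod L) {r : ℕ} (hr1 : 1 ≤ r) (hr : r ≤ L) :
    hExp d L ϑ t x ≤ 30 / (1 - ϑ) / (r : ℝ) ^ d +
      20 * (d * cg d) * (r * Real.sqrt (bet d L t / t)) := by
  have ht0 : 0 < t := by linarith
  have hb := bet_pos (d := d) hL ht0
  have hcg := cg_pos hd
  have hd1 : (1 : ℝ) ≤ d := by exact_mod_cast hd
  have hrr : (1 : ℝ) ≤ r := by exact_mod_cast hr1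
  obtain ⟨i⟩ : Nonempty (Fin d) := ⟨⟨0, hd⟩⟩
  set e : Fin d → ZMod L := Pi.single i 1 with he
  have hne : (0 : Fin d → ZMod L) ≠ e := by
    have := edge_ne hL (0 : Fin d → ZMod L) i
    rwa [zero_add] at this
  have hx : hExp d L ϑ t x = hExp d L ϑ t 0 :=
    expect_card_cyc t (fun n => ϑ ^ n) x 0
  rw [hx]
  have hedge : edgeSwap d L (0, i) = Equiv.swap 0 e := by
    unfold edgeSwap; simp [he]
  have hrf := (rf_pair (cloIsing (Fin d → ZMod L) ϑ h0 h1.le) hd hL ht natPair_bSg).ring i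
  simp only [cloIsing_pair] at hrf
  rw [hedge] at hrf
  have hpt : ∀ σ : Equiv.Perm (Fin d → ZMod L), ϑ ^ (cyc σ 0).card ≤
      5 * Gt ϑ σ 0 e + 5 * Gt ϑ (Equiv.swap 0 e * σ) 0 e := by
    intro σ
    have h3 := log_Zt_swap_le h0 h1.le σ hne
    have h4 := log_Zt_swap_le h0 h1.le (Equiv.swap 0 e * σ) hne
    rw [← mul_assoc, Equiv.swap_mul_self, one_mul] at h4
    have h5 : 0 ≤ ϑ ^ (cyc (Equiv.swap 0 e * σ) 0).card := by positivity
    linarith
  have h6 := expect_mono (d := d) (L := L) ht0.le (f := fun σ => ϑ ^ (cyc σ 0).card)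
    (g := fun σ => 5 * Gt ϑ σ 0 e + 5 * Gt ϑ (Equiv.swap 0 e * σ) 0 e) hpt
  rw [expect_add, expect_smul, expect_smul] at h6
  have h7 := gExp_edge_le h0 h1 hd hL ht i hr1 hr
  have h8 : expect d L t (fun σ => Gt ϑ σ 0 e) = gExp d L ϑ t 0 e := rfl
  rw [h8] at h6 hrf
  have h9 := (abs_le.mp hrf).2
  unfold hExp
  have h10 : 30 / (1 - ϑ) / (r : ℝ) ^ d = 10 * (3 / (1 - ϑ) / (r : ℝ) ^ d) := by ring
  rw [h10]
  set s := Real.sqrt (bet d L t / t) with hs
  have hs0 : 0 ≤ s := Real.sqrt_nonneg _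
  have h11 : cg d * s ≤ d * cg d * (r * s) := by
    have h12 : 1 * 1 ≤ (d : ℝ) * r := mul_le_mul hd1 hrr (by norm_num) (by linarith)
    have := mul_le_mul_of_nonneg_left h12 (by positivity : 0 ≤ cg d * s)
    nlinarith
  nlinarith

/-- The constant of the short cycle estimate. -/
noncomputable def csp (d : ℕ) : ℝ := 180 + 60 * (d * cg d)

theorem csp_pos {d : ℕ} (hd : 1 ≤ d) : 0 < csp d := by
  have := cg_pos hd
  unfold csp; positivity

/-- Short cycles are rare. -/
theorem short_pointwise (hd : 1 ≤ d) (hL : 2 ≤ L) {t : ℝ} (ht : 1 ≤ t)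
    (x : Fin d → ZMod L) {r : ℕ} (hr1 : 1 ≤ r) (hr : r ≤ L) (m : ℕ) :
    expect d L t (fun σ => if (cyc σ x).card ≤ m then (1 : ℝ) else 0) ≤
      csp d * (m / (r : ℝ) ^ d + r * Real.sqrt (bet d L t / t)) := by
  classical
  have ht0 : 0 < t := by linarith
  have hb := bet_pos (d := d) hL ht0
  have hcsp := csp_pos hd
  have hcg := cg_pos hd
  have hrr : (0 : ℝ) < r := by exact_mod_cast hr1
  rcases Nat.eq_zero_or_pos m with hm | hm
  · subst hm
    have : (fun σ : Equiv.Perm (Fin d → ZMod L) =>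
        if (cyc σ x).card ≤ 0 then (1 : ℝ) else 0) = fun _ => 0 := by
      funext σ
      rw [if_neg]
      have := card_cyc_pos σ x
      omega
    rw [this, expect_const]
    have h3 : (0 : ℝ) ≤ ((0 : ℕ) : ℝ) / (r : ℝ) ^ d := by positivity
    positivity
  · have hm' : (1 : ℝ) ≤ m := by exact_mod_cast hm
    set ϑ : ℝ := m / (m + 1) with hϑ
    have h0 : 0 ≤ ϑ := by positivity
    have h1 : ϑ < 1 := by
      rw [hϑ, div_lt_one (by positivity)]; linarith
    have h2 : 1 / (1 - ϑ) = m + 1 := by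
      rw [hϑ]; field_simp; ring
    have hw := hExp_pointwise h0 h1 hd hL ht x hr1 hr
    have h3 : expect d L t
        (fun σ => if (cyc σ x).card ≤ m then (1 : ℝ) else 0) ≤ 3 * hExp d L ϑ t x := by
      have h4 := expect_mono (d := d) (L := L) ht0.le
        (f := fun σ => if (cyc σ x).card ≤ m then (1 : ℝ) else 0)
        (g := fun σ => 3 * ϑ ^ (cyc σ x).card) (fun σ => by
          split_ifs with h5
          · have h6 := third_le_pow m hm
            have h7 : ϑ ^ m ≤ ϑ ^ (cyc σ x).card := pow_le_pow_of_le_one h0 h1.le h5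
            rw [← hϑ] at h6
            linarith
          · positivity)
      refine h4.trans (le_of_eq ?_)
      rw [expect_eq, E_smul, ← expect_eq]
      rfl
    have h6 : 30 / (1 - ϑ) / (r : ℝ) ^ d ≤ 60 * (m / (r : ℝ) ^ d) := by
      have h7 : 30 / (1 - ϑ) = 30 * (m + 1) := by rw [← h2]; ring
      rw [h7, ← mul_div_assoc]
      refine div_le_div_of_nonneg_right ?_ (by positivity)
      linarith
    have h8 : 0 ≤ m / (r : ℝ) ^ d := by positivity
    have h10 : 0 ≤ r * Real.sqrt (bet d L t / t) := by positivity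
    have hdc : 0 ≤ d * cg d := by positivity
    refine (h3.trans (mul_le_mul_of_nonneg_left hw (by norm_num))).trans ?_
    unfold csp
    have e1 := mul_nonneg hdc h10
    have e3 := mul_nonneg hdc h8
    nlinarith

/-- Macroscopic cycles, pointwise in time. -/
theorem macro_pointwise (hd : 1 ≤ d) (hL : 2 ≤ L) {t : ℝ} (ht : 1 ≤ t)
    (x : Fin d → ZMod L) {ε : ℝ} (hε : 0 ≤ ε) :
    1 - csp d * (ε + L * Real.sqrt (bet d L t / t)) ≤ expect d L t
        (fun σ => if ε * (L : ℝ) ^ d ≤ ((cyc σ x).card : ℝ) then (1 : ℝ) else 0) := by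
  classical
  have hcsp := csp_pos hd
  have ht0 : 0 < t := by linarith
  have hLpos : (0 : ℝ) < L := by exact_mod_cast (by omega : 0 < L)
  have hLd : 0 < (L : ℝ) ^ d := by positivity
  set m : ℕ := ⌊ε * (L : ℝ) ^ d⌋₊ with hm
  have hm1 : (m : ℝ) ≤ ε * (L : ℝ) ^ d := Nat.floor_le (by positivity)
  have hs := short_pointwise hd hL ht x (r := L) (by omega) le_rfl m
  have h2 := expect_mono (d := d) (L := L) ht0.le
    (f := fun σ => 1 + (-1) * (if (cyc σ x).card ≤ m then (1 : ℝ) else 0))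
    (g := fun σ => if ε * (L : ℝ) ^ d ≤ ((cyc σ x).card : ℝ) then (1 : ℝ) else 0) (fun σ => by
      by_cases h3 : (cyc σ x).card ≤ m
      · rw [if_pos h3]
        split_ifs <;> norm_num
      · rw [if_neg h3]
        have h4 : ε * (L : ℝ) ^ d ≤ ((cyc σ x).card : ℝ) := by
          push Not at h3
          have h5 : ((m + 1 : ℕ) : ℝ) ≤ ((cyc σ x).card : ℝ) := by exact_mod_cast h3
          have h6 := Nat.lt_floor_add_one (ε * (L : ℝ) ^ d)
          push_cast at h5
          linarith
        rw [if_pos h4]; norm_num)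
  rw [expect_eq t (fun σ => 1 + (-1) * (if (cyc σ x).card ≤ m then (1 : ℝ) else 0)), E_add,
    E_const, E_smul, ← expect_eq] at h2
  have h3 : (m : ℝ) / (L : ℝ) ^ d ≤ ε := by
    rw [div_le_iff₀ hLd]; exact hm1
  have h4 : csp d * (m / (L : ℝ) ^ d + L * Real.sqrt (bet d L t / t)) ≤
      csp d * (ε + L * Real.sqrt (bet d L t / t)) :=
    mul_le_mul_of_nonneg_left (by linarith) hcsp.le
  linarith

end Pool.Agent.Stirring
end

section

/-! The mean length of a cycle, pointwise in time. -/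

open Finset

set_option linter.unusedSectionVars false

namespace Pool.Agent.Stirring

variable {d L : ℕ} [NeZero L]

theorem sameProb_self (t : ℝ) (x : Fin d → ZMod L) : sameProb d L t x x = 1 := by
  classical
  unfold sameProb
  have : (fun σ : Equiv.Perm (Fin d → ZMod L) => if σ.SameCycle x x then (1 : ℝ) else 0) =
      fun _ => 1 := by
    funext σ
    rw [if_pos (Equiv.Perm.SameCycle.refl _ _)]
  rw [this, expect_const]

/-- The mean length of a cycle. -/
theorem mean_pointwise (hd : 1 ≤ d) (hL : 2 ≤ L) {t : ℝ} (ht : 1 ≤ t)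
    (x : Fin d → ZMod L) :
    |expect d L t (fun σ => ((cyc σ x).card : ℝ)) / (L : ℝ) ^ d - 1 / 2| ≤
      1 / (L : ℝ) ^ d + 20 * (d * cg d) * (L * Real.sqrt (bet d L t / t)) := by
  classical
  have hcg := cg_pos hd
  have ht0 : 0 < t := by linarith
  have hb := bet_pos (d := d) hL ht0
  have hLpos : (0 : ℝ) < L := by exact_mod_cast (by omega : 0 < L)
  have hLd : 0 < (L : ℝ) ^ d := by positivity
  set err := 20 * (d * cg d) * (L * Real.sqrt (bet d L t / t)) with herr
  have herr0 : 0 ≤ err := by positivity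
  have h1 : expect d L t (fun σ => ((cyc σ x).card : ℝ)) =
      ∑ κ : Fin d → Fin L, sameProb d L t x (boxPt d L L x κ) := by
    have : (fun σ : Equiv.Perm (Fin d → ZMod L) => ((cyc σ x).card : ℝ)) =
        fun σ => ∑ κ : Fin d → Fin L, if σ.SameCycle x (boxPt d L L x κ) then (1 : ℝ) else 0 := by
      funext σ; exact card_cyc_eq_sum σ x
    rw [this, expect_eq, E_sum]
    exact Finset.sum_congr rfl fun κ _ => by rw [← expect_eq]; rfl
  have hcard : (Fintype.card (Fin d → Fin L) : ℝ) = (L : ℝ) ^ d := by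
    rw [Fintype.card_fun, Fintype.card_fin, Fintype.card_fin]; push_cast; rfl
  have h2 : (∑ κ : Fin d → Fin L, sameProb d L t x (boxPt d L L x κ)) / (L : ℝ) ^ d - 1 / 2 =
      (∑ κ : Fin d → Fin L, (sameProb d L t x (boxPt d L L x κ) - 1 / 2)) / (L : ℝ) ^ d := by
    rw [Finset.sum_sub_distrib, Finset.sum_const, Finset.card_univ, nsmul_eq_mul, hcard]
    field_simp
  rw [h1, h2, abs_div, abs_of_pos hLd, div_le_iff₀ hLd]
  refine (Finset.abs_sum_le_sum_abs _ _).trans ?_
  have h3 : ∀ κ ∈ (Finset.univ : Finset (Fin d → Fin L)),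
      |sameProb d L t x (boxPt d L L x κ) - 1 / 2| ≤
        (if boxPt d L L x κ = x then 1 else 0) + err := by
    intro κ _
    by_cases hx : boxPt d L L x κ = x
    · rw [if_pos hx, hx, sameProb_self]
      norm_num
      linarith
    · rw [if_neg hx, zero_add]
      have h5 := same_pointwise hd hL ht x (boxPt d L L x κ) (fun i => ((κ i : ℕ) : ℤ))
        (Ne.symm hx) rfl
      have h6 := sum_single_norm d L κ
      refine h5.trans ?_
      rw [herr]
      have h8 : (∑ i, |((((κ i : ℕ) : ℤ)) : ℝ)|) ≤ d * L := by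
        refine (Finset.sum_le_sum (g := fun _ => (L : ℝ)) fun i _ => ?_).trans (le_of_eq ?_)
        · have h7 : ((κ i : ℕ) : ℝ) ≤ L := by exact_mod_cast (κ i).2.le
          push_cast
          rw [abs_of_nonneg (Nat.cast_nonneg _)]
          exact h7
        · rw [Finset.sum_const, Finset.card_univ, Fintype.card_fin, nsmul_eq_mul]
      have h9 := mul_le_mul_of_nonneg_right h8
        (by positivity : 0 ≤ 20 * cg d * Real.sqrt (bet d L t / t))
      nlinarith
  refine (Finset.sum_le_sum h3).trans ?_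
  rw [Finset.sum_add_distrib, Finset.sum_const, Finset.card_univ, nsmul_eq_mul, hcard]
  have h4 : ∑ κ : Fin d → Fin L, (if boxPt d L L x κ = x then (1 : ℝ) else 0) ≤ 1 := by
    rw [← Finset.sum_filter, Finset.sum_const, nsmul_eq_mul, mul_one]
    have : (Finset.univ.filter fun κ : Fin d → Fin L => boxPt d L L x κ = x).card ≤ 1 := by
      rw [Finset.card_le_one]
      intro a ha b hb
      rw [Finset.mem_filter] at ha hb
      exact boxPt_injective le_rfl x (ha.2.trans hb.2.symm)
    exact_mod_cast this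
  have h5 : (1 / (L : ℝ) ^ d + err) * (L : ℝ) ^ d = 1 + (L : ℝ) ^ d * err := by
    field_simp
  rw [h5]
  linarith

/-- Arithmetic of the macroscopic regime. -/
theorem macro_arith' (hd : 1 ≤ d) {C δ : ℝ} (hC : 0 < C) (hδ : 0 < δ) :
    ∃ K : ℝ, 0 < K ∧ ∀ L : ℕ, 3 ≤ L → ∀ t : ℝ, 1 ≤ t →
      K * (L : ℝ) ^ 4 ≤ t ^ (d + 2) → C * (L * Real.sqrt (bet d L t / t)) ≤ δ := by
  obtain ⟨K, hK, h⟩ := macro_arith (d := d) hd hC hδ
  refine ⟨K, hK, fun L hL t ht h1 => ?_⟩
  have hne : NeZero L := ⟨by omega⟩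
  have ht0 : 0 < t := by linarith
  have hb := bet_pos (d := d) (L := L) (by omega) ht0
  have h2 := h L hL t (K * bet d L t) ht (by positivity) h1 le_rfl
  refine le_trans (mul_le_mul_of_nonneg_left ?_ hC.le) h2
  have : 0 ≤ bet d L t / (K * bet d L t) := by positivity
  linarith

end Pool.Agent.Stirring
end
end

section

/-! Patterns of marked points in the cycles of a permutation. -/

open Finset

set_option linter.unusedSectionVars false

namespace Pool.Agent.Stirring

section Merge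

variable {V : Type*} [Fintype V] [DecidableEq V]

theorem not_sameCycle_swap {x y : V} (hxy : x ≠ y) {σ : Equiv.Perm V} (h : σ.SameCycle x y) :
    ¬ (Equiv.swap x y * σ).SameCycle x y := by
  have h1 := sameI_swap hxy σ
  unfold sameI at h1
  rw [if_pos h] at h1
  intro h2
  rw [if_pos h2] at h1
  norm_num at h1

theorem sameCycle_swap {x y : V} (hxy : x ≠ y) {σ : Equiv.Perm V} (h : ¬ σ.SameCycle x y) :
    (Equiv.swap x y * σ).SameCycle x y := by
  have h1 := sameI_swap hxy σ
  unfold sameI at h1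
  rw [if_neg h] at h1
  by_contra h2
  rw [if_neg h2] at h1
  norm_num at h1

/-- Merging two cycles. -/
theorem sameCycle_merge {x y : V} (hxy : x ≠ y) {σ : Equiv.Perm V} (h : ¬ σ.SameCycle x y)
    (u v : V) :
    (Equiv.swap x y * σ).SameCycle u v ↔ σ.SameCycle u v ∨
      (σ.SameCycle u x ∧ σ.SameCycle v y) ∨ (σ.SameCycle u y ∧ σ.SameCycle v x) := by
  classical
  have hS : (Equiv.swap x y * σ).SameCycle x y := sameCycle_swap hxy h
  have hJ := invsJ_swap σ x y
  -- invariant sets of the product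
  have hmem : ∀ A : Finset V, A ∈ invs (Equiv.swap x y * σ) ↔ A ∈ invs σ ∧ (x ∈ A ↔ y ∈ A) := by
    intro A
    have h1 : A ∈ invsJ (Equiv.swap x y * σ) x y ↔ A ∈ invsJ σ x y := by rw [hJ]
    simp only [invsJ, Finset.mem_filter] at h1
    constructor
    · intro hA
      refine h1.mp ⟨hA, ?_⟩
      have hA' := (Finset.mem_filter.mp hA).2
      exact map_eq_iff_forall.mp hA' x y hS
    · intro hA
      exact (h1.mpr hA).1
  have hcyc : ∀ A : Finset V, A ∈ invs σ ↔ ∀ a b, σ.SameCycle a b → (a ∈ A ↔ b ∈ A) := by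
    intro A
    rw [invs, Finset.mem_filter, map_eq_iff_forall]
    simp
  have hcyc' : ∀ A : Finset V, A ∈ invs (Equiv.swap x y * σ) ↔
      ∀ a b, (Equiv.swap x y * σ).SameCycle a b → (a ∈ A ↔ b ∈ A) := by
    intro A
    rw [invs, Finset.mem_filter, map_eq_iff_forall]
    simp
  have hC : ∀ w : V, cyc σ w ∈ invs σ := by
    intro w
    rw [hcyc]
    intro a b hab
    rw [mem_cyc, mem_cyc]
    exact ⟨fun h1 => h1.trans hab, fun h1 => h1.trans hab.symm⟩
  constructor
  · intro huv
    by_cases hux : σ.SameCycle u x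
    · have hA : cyc σ x ∪ cyc σ y ∈ invs (Equiv.swap x y * σ) := by
        rw [hmem]
        refine ⟨?_, ?_⟩
        · rw [hcyc]
          intro a b hab
          have e1 := ((hcyc _).mp (hC x)) a b hab
          have e2 := ((hcyc _).mp (hC y)) a b hab
          rw [Finset.mem_union, Finset.mem_union, e1, e2]
        · simp only [Finset.mem_union, mem_cyc]
          exact ⟨fun _ => Or.inr (Equiv.Perm.SameCycle.refl _ _),
            fun _ => Or.inl (Equiv.Perm.SameCycle.refl _ _)⟩
      have h1 := ((hcyc' _).mp hA u v huv).mp (by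
        rw [Finset.mem_union, mem_cyc]; exact Or.inl hux.symm)
      rw [Finset.mem_union, mem_cyc, mem_cyc] at h1
      rcases h1 with h1 | h1
      · exact Or.inl (hux.trans h1)
      · exact Or.inr (Or.inl ⟨hux, h1.symm⟩)
    · by_cases huy : σ.SameCycle u y
      · have hA : cyc σ x ∪ cyc σ y ∈ invs (Equiv.swap x y * σ) := by
          rw [hmem]
          refine ⟨?_, ?_⟩
          · rw [hcyc]
            intro a b hab
            have e1 := ((hcyc _).mp (hC x)) a b hab
            have e2 := ((hcyc _).mp (hC y)) a b hab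
            rw [Finset.mem_union, Finset.mem_union, e1, e2]
          · simp only [Finset.mem_union, mem_cyc]
            exact ⟨fun _ => Or.inr (Equiv.Perm.SameCycle.refl _ _),
              fun _ => Or.inl (Equiv.Perm.SameCycle.refl _ _)⟩
        have h1 := ((hcyc' _).mp hA u v huv).mp (by
          rw [Finset.mem_union, mem_cyc, mem_cyc]; exact Or.inr huy.symm)
        rw [Finset.mem_union, mem_cyc, mem_cyc] at h1
        rcases h1 with h1 | h1
        · exact Or.inr (Or.inr ⟨huy, h1.symm⟩)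
        · exact Or.inl (huy.trans h1)
      · have hA : cyc σ u ∈ invs (Equiv.swap x y * σ) := by
          rw [hmem]
          refine ⟨hC u, ?_⟩
          rw [mem_cyc, mem_cyc]
          exact ⟨fun h1 => absurd h1 hux, fun h1 => absurd h1 huy⟩
        have h1 := ((hcyc' _).mp hA u v huv).mp (by
          rw [mem_cyc])
        rw [mem_cyc] at h1
        exact Or.inl h1
  · intro h1
    by_contra hcon
    have hA : cyc (Equiv.swap x y * σ) u ∈ invs (Equiv.swap x y * σ) := by
      rw [hcyc']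
      intro a b hab
      rw [mem_cyc, mem_cyc]
      exact ⟨fun h1 => h1.trans hab, fun h1 => h1.trans hab.symm⟩
    obtain ⟨h2, h3⟩ := (hmem _).mp hA
    have h4 := (hcyc _).mp h2
    have hu : u ∈ cyc (Equiv.swap x y * σ) u := by rw [mem_cyc]
    have hv : v ∉ cyc (Equiv.swap x y * σ) u := by rw [mem_cyc]; exact hcon
    rcases h1 with h1 | ⟨h1, h5⟩ | ⟨h1, h5⟩
    · exact hv ((h4 u v h1).mp hu)
    · exact hv ((h4 v y h5).mpr (h3.mp ((h4 u x h1).mp hu)))
    · exact hv ((h4 v x h5).mpr (h3.mpr ((h4 u y h1).mp hu)))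

end Merge

section Exist

variable {ι : Type*} [Fintype ι] [DecidableEq ι]

/-- Every equivalence relation is the cycle relation of a permutation. -/
theorem exists_perm_sameCycle (r : Setoid ι) :
    ∃ τ : Equiv.Perm ι, ∀ a b, τ.SameCycle a b ↔ r a b := by
  classical
  set q : ι → Quotient r := Quotient.mk r with hq
  have h1 : ∀ c : Quotient r, ∃ f : Equiv.Perm {a // q a = c}, ∀ a b, f.SameCycle a b := by
    intro c
    obtain ⟨f, hf, -⟩ := (Finset.univ : Finset {a // q a = c}).exists_cycleOn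
    exact ⟨f, fun a b => hf.2 (by simp) (by simp)⟩
  choose f hf using h1
  set e := Equiv.sigmaFiberEquiv q with he
  set τ : Equiv.Perm ι := (Equiv.permCongrHom e)
    (Equiv.Perm.sigmaCongrRightHom (fun c : Quotient r => {a // q a = c}) f) with hτ
  have hpow : ∀ (n : ℤ) (a : ι), (τ ^ n) a = (((f (q a)) ^ n) ⟨a, rfl⟩).1 := by
    intro n a
    rw [hτ, ← map_zpow, ← map_zpow]
    rfl
  refine ⟨τ, fun a b => ⟨?_, ?_⟩⟩
  · rintro ⟨n, hn⟩
    rw [hpow] at hn
    have h2 := (((f (q a)) ^ n) ⟨a, rfl⟩).2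
    rw [hn] at h2
    exact Quotient.exact h2.symm
  · intro hab
    have h2 : q b = q a := (Quotient.sound hab).symm
    obtain ⟨n, hn⟩ := hf (q a) ⟨a, rfl⟩ ⟨b, h2⟩
    exact ⟨n, by rw [hpow, hn]⟩

variable {V : Type*} [Fintype V] [DecidableEq V]

/-- The marked points `z` are distributed over the cycles of `σ` as the points of `ι` over the
cycles of `τ`. -/
def Pat (σ : Equiv.Perm V) (z : ι → V) (τ : Equiv.Perm ι) : Prop :=
  ∀ a b, σ.SameCycle (z a) (z b) ↔ τ.SameCycle a b

theorem exists_pat (σ : Equiv.Perm V) (z : ι → V) : ∃ τ : Equiv.Perm ι, Pat σ z τ := by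
  obtain ⟨τ, hτ⟩ := exists_perm_sameCycle
    (⟨fun a b => σ.SameCycle (z a) (z b),
      ⟨fun a => Equiv.Perm.SameCycle.refl _ _, fun h => h.symm, fun h1 h2 => h1.trans h2⟩⟩ :
      Setoid ι)
  exact ⟨τ, fun a b => (hτ a b).symm⟩

open Classical in
/-- The permutations with the same cycle relation. -/
noncomputable def relCl (τ : Equiv.Perm ι) : Finset (Equiv.Perm ι) :=
  Finset.univ.filter fun τ' => ∀ a b, τ'.SameCycle a b ↔ τ.SameCycle a b

theorem mem_relCl (τ τ' : Equiv.Perm ι) :
    τ' ∈ relCl τ ↔ ∀ a b, τ'.SameCycle a b ↔ τ.SameCycle a b := by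
  classical
  unfold relCl
  rw [Finset.mem_filter]
  simp

theorem self_mem_relCl (τ : Equiv.Perm ι) : τ ∈ relCl τ := by
  rw [mem_relCl]
  exact fun _ _ => Iff.rfl

theorem relCl_card_pos (τ : Equiv.Perm ι) : (0 : ℝ) < (relCl τ).card := by
  exact_mod_cast Finset.card_pos.mpr ⟨τ, self_mem_relCl τ⟩

open Classical in
theorem relCl_eq_of_pat {σ : Equiv.Perm V} {z : ι → V} {τ : Equiv.Perm ι} (h : Pat σ z τ) :
    relCl τ = Finset.univ.filter fun τ' => Pat σ z τ' := by
  ext τ'
  rw [mem_relCl, Finset.mem_filter]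
  constructor
  · intro h1
    exact ⟨Finset.mem_univ _, fun a b => (h a b).trans (h1 a b).symm⟩
  · rintro ⟨-, h1⟩ a b
    exact (h1 a b).symm.trans (h a b)

open Classical in
/-- The weights of a pattern add up to one. -/
theorem sum_pat_weight (σ : Equiv.Perm V) (z : ι → V) :
    ∑ τ : Equiv.Perm ι, (if Pat σ z τ then ((relCl τ).card : ℝ)⁻¹ else 0) = 1 := by
  obtain ⟨τ0, h0⟩ := exists_pat σ z
  rw [← Finset.sum_filter]
  have h1 : ∀ τ ∈ Finset.univ.filter (fun τ : Equiv.Perm ι => Pat σ z τ),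
      ((relCl τ).card : ℝ)⁻¹ = ((Finset.univ.filter (fun τ : Equiv.Perm ι => Pat σ z τ)).card : ℝ)⁻¹ := by
    intro τ hτ
    rw [relCl_eq_of_pat (Finset.mem_filter.mp hτ).2]
  rw [Finset.sum_congr rfl h1, Finset.sum_const, nsmul_eq_mul, mul_inv_cancel₀]
  have : 0 < (Finset.univ.filter (fun τ : Equiv.Perm ι => Pat σ z τ)).card :=
    Finset.card_pos.mpr ⟨τ0, Finset.mem_filter.mpr ⟨Finset.mem_univ _, h0⟩⟩
  exact_mod_cast this.ne'

open Classical in
/-- The effect of a ring on the pattern of marked points. -/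
theorem pat_swap (σ : Equiv.Perm V) (z : ι → V) {i j : ι} (hij : i ≠ j) (hz : z i ≠ z j)
    {τ : Equiv.Perm ι} (hτ : τ.SameCycle i j) :
    (if Pat (Equiv.swap (z i) (z j) * σ) z τ then (1 : ℝ) else 0) =
      ∑ τ' ∈ relCl τ, (if Pat σ z (Equiv.swap i j * τ') then
        ((relCl (Equiv.swap i j * τ')).card : ℝ)⁻¹ else 0) := by
  by_cases hs : σ.SameCycle (z i) (z j)
  · rw [if_neg]
    · symm
      refine Finset.sum_eq_zero fun τ' hτ' => ?_
      rw [if_neg]
      intro h1
      have h2 : τ'.SameCycle i j := ((mem_relCl τ τ').mp hτ' i j).mpr hτ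
      exact not_sameCycle_swap hij h2 ((h1 i j).mp hs)
    · intro h1
      exact not_sameCycle_swap hz hs ((h1 i j).mpr hτ)
  · set T := Finset.univ.filter (fun τ' : Equiv.Perm ι => Pat σ z τ') with hT
    obtain ⟨τ0, h0⟩ := exists_pat σ z
    have hTpos : 0 < T.card :=
      Finset.card_pos.mpr ⟨τ0, Finset.mem_filter.mpr ⟨Finset.mem_univ _, h0⟩⟩
    have hkey : ∀ τ' ∈ T, (Equiv.swap i j * τ' ∈ relCl τ ↔
        Pat (Equiv.swap (z i) (z j) * σ) z τ) := by
      intro τ' hτ'
      have hp := (Finset.mem_filter.mp hτ').2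
      have hn : ¬ τ'.SameCycle i j := fun h1 => hs ((hp i j).mpr h1)
      have h2 : ∀ a b, (Equiv.swap i j * τ').SameCycle a b ↔
          (Equiv.swap (z i) (z j) * σ).SameCycle (z a) (z b) := by
        intro a b
        rw [sameCycle_merge hij hn, sameCycle_merge hz hs, hp a b, hp a i, hp b j, hp a j, hp b i]
      rw [mem_relCl]
      constructor
      · intro h3 a b
        exact (h2 a b).symm.trans (h3 a b)
      · intro h3 a b
        exact (h2 a b).trans (h3 a b)
    have h1 : ∑ τ' ∈ relCl τ, (if Pat σ z (Equiv.swap i j * τ') then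
        ((relCl (Equiv.swap i j * τ')).card : ℝ)⁻¹ else 0) =
        ∑ τ' : Equiv.Perm ι, if τ' ∈ relCl τ ∧ Pat σ z (Equiv.swap i j * τ') then
          (T.card : ℝ)⁻¹ else 0 := by
      rw [← Finset.sum_filter_add_sum_filter_not Finset.univ (fun τ' => τ' ∈ relCl τ)
        (fun τ' => if τ' ∈ relCl τ ∧ Pat σ z (Equiv.swap i j * τ') then (T.card : ℝ)⁻¹ else 0)]
      have e1 : ∑ τ' ∈ Finset.univ.filter (fun τ' => ¬ τ' ∈ relCl τ),
          (if τ' ∈ relCl τ ∧ Pat σ z (Equiv.swap i j * τ') then (T.card : ℝ)⁻¹ else 0) = 0 := by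
        refine Finset.sum_eq_zero fun τ' hτ' => ?_
        rw [if_neg (fun h => (Finset.mem_filter.mp hτ').2 h.1)]
      have e2 : Finset.univ.filter (fun τ' => τ' ∈ relCl τ) = relCl τ := by
        ext; simp
      rw [e1, add_zero, e2]
      refine Finset.sum_congr rfl fun τ' hτ' => ?_
      by_cases h3 : Pat σ z (Equiv.swap i j * τ')
      · rw [if_pos h3, if_pos ⟨hτ', h3⟩, relCl_eq_of_pat h3]
      · rw [if_neg h3, if_neg (fun h => h3 h.2)]
    have h2 : ∑ τ' : Equiv.Perm ι, (if τ' ∈ relCl τ ∧ Pat σ z (Equiv.swap i j * τ') then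
          (T.card : ℝ)⁻¹ else 0) =
        ∑ τ' : Equiv.Perm ι, (if Equiv.swap i j * τ' ∈ relCl τ ∧ Pat σ z τ' then
          (T.card : ℝ)⁻¹ else 0) := by
      rw [← Equiv.sum_comp (Equiv.mulLeft (Equiv.swap i j)) (fun τ' =>
        if τ' ∈ relCl τ ∧ Pat σ z (Equiv.swap i j * τ') then (T.card : ℝ)⁻¹ else 0)]
      refine Finset.sum_congr rfl fun τ' _ => if_congr ?_ rfl rfl
      rw [Equiv.coe_mulLeft]
      have h3 : Equiv.swap i j * (Equiv.swap i j * τ') = τ' := by
        rw [← mul_assoc, Equiv.swap_mul_self, one_mul]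
      rw [h3]
    rw [h1, h2]
    by_cases hP : Pat (Equiv.swap (z i) (z j) * σ) z τ
    · rw [if_pos hP]
      have h3 : ∀ τ' : Equiv.Perm ι, (if Equiv.swap i j * τ' ∈ relCl τ ∧ Pat σ z τ' then
          (T.card : ℝ)⁻¹ else 0) = if Pat σ z τ' then (T.card : ℝ)⁻¹ else 0 := by
        intro τ'
        by_cases h4 : Pat σ z τ'
        · rw [if_pos h4, if_pos ⟨(hkey τ' (Finset.mem_filter.mpr ⟨Finset.mem_univ _, h4⟩)).mpr hP,
            h4⟩]
        · rw [if_neg h4, if_neg (fun h => h4 h.2)]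
      rw [Finset.sum_congr rfl fun τ' _ => h3 τ', ← Finset.sum_filter, Finset.sum_const,
        nsmul_eq_mul, mul_inv_cancel₀]
      exact_mod_cast hTpos.ne'
    · rw [if_neg hP]
      symm
      refine Finset.sum_eq_zero fun τ' _ => ?_
      rw [if_neg]
      rintro ⟨h4, h5⟩
      exact hP ((hkey τ' (Finset.mem_filter.mpr ⟨Finset.mem_univ _, h5⟩)).mp h4)

end Exist

end Pool.Agent.Stirring
end
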