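import Pool.Agent.Lib.MP_6c3d62_pr.Mg.G093
import Pool.Agent.Lib.MP_6c3d62_pr.Mg.G092

section

section

/-! The local law of the cycle pattern of marked points. -/

open Finset

set_option linter.unusedSectionVars false

namespace Pool.Agent.Stirring

section Alg

variable {V : Type*} [Fintype V] [DecidableEq V] {ι : Type*} [Fintype ι] [DecidableEq ι]

theorem patI_swap (σ : Equiv.Perm V) (z : ι → V) {i j : ι} (hij : i ≠ j) (hz : z i ≠ z j)
    {τ : Equiv.Perm ι} (hτ : τ.SameCycle i j) :
    patI τ (Equiv.swap (z i) (z j) * σ) z =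
      ∑ τ' ∈ relCl τ, ((relCl (Equiv.swap i j * τ')).card : ℝ)⁻¹ *
        patI (Equiv.swap i j * τ') σ z := by
  classical
  have h := pat_swap σ z hij hz hτ
  unfold patI
  rw [h]
  refine Finset.sum_congr rfl fun τ' _ => ?_
  split_ifs <;> simp

theorem patI_comp_swap (σ : Equiv.Perm V) (z : ι → V) {i j : ι}
    {τ : Equiv.Perm ι} (hτ : τ.SameCycle i j) :
    patI τ σ (z ∘ Equiv.swap i j) = patI τ σ z := by
  classical
  have hs : ∀ a, τ.SameCycle (Equiv.swap i j a) a := by
    intro a
    by_cases ha : a = i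
    · subst ha; rw [Equiv.swap_apply_left]; exact hτ.symm
    · by_cases hb : a = j
      · subst hb; rw [Equiv.swap_apply_right]; exact hτ
      · rw [Equiv.swap_apply_of_ne_of_ne ha hb]
  unfold patI
  refine if_congr ?_ rfl rfl
  constructor
  · intro h a b
    have h1 := h (Equiv.swap i j a) (Equiv.swap i j b)
    simp only [Function.comp_apply, Equiv.swap_apply_self] at h1
    rw [h1]
    exact ⟨fun h2 => ((hs a).symm.trans h2).trans (hs b), fun h2 => ((hs a).trans h2).trans (hs b).symm⟩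
  · intro h a b
    rw [Function.comp_apply, Function.comp_apply, h]
    exact ⟨fun h2 => ((hs a).symm.trans h2).trans (hs b), fun h2 => ((hs a).trans h2).trans (hs b).symm⟩

end Alg

section Torus

variable {d L : ℕ} [NeZero L] {ι : Type*} [Fintype ι] [DecidableEq ι]

/-- The probability of a pattern. -/
noncomputable def patP (d L : ℕ) [NeZero L] (t : ℝ) (z : ι → (Fin d → ZMod L))
    (τ : Equiv.Perm ι) : ℝ := expect d L t fun σ => patI τ σ z

theorem sum_patP (t : ℝ) (z : ι → (Fin d → ZMod L)) :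
    ∑ τ : Equiv.Perm ι, patP d L t z τ / (relCl τ).card = 1 := by
  have h1 : ∀ τ : Equiv.Perm ι, patP d L t z τ / (relCl τ).card =
      expect d L t fun σ => patW τ σ z := by
    intro τ
    unfold patP patW
    rw [expect_smul, div_eq_inv_mul]
  rw [Finset.sum_congr rfl fun τ _ => h1 τ, ← expect_sum]
  simp only [sum_patW]
  exact expect_const t 1

theorem red_add (k l : Fin d → ℤ) : red d L (k + l) = red d L k + red d L l := by
  ext i; simp [red]

theorem red_neg (k : Fin d → ℤ) : red d L (-k) = -red d L k := by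
  ext i; simp [red]

theorem red_single (m : Fin d) : red d L (Pi.single m 1) = Pi.single m 1 := by
  ext i
  unfold red
  by_cases h : i = m
  · subst h; simp
  · simp [Pi.single_eq_of_ne h]

theorem sum_abs_add_le (k l : Fin d → ℤ) :
    ∑ i, |((k + l) i : ℝ)| ≤ ∑ i, |(k i : ℝ)| + ∑ i, |(l i : ℝ)| := by
  rw [← Finset.sum_add_distrib]
  refine Finset.sum_le_sum fun i _ => ?_
  rw [Pi.add_apply]
  push_cast
  exact abs_add_le _ _

theorem sum_abs_single (m : Fin d) : ∑ i, |((Pi.single m 1 : Fin d → ℤ) i : ℝ)| = 1 := by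
  rw [Finset.sum_eq_single m]
  · simp
  · intro b _ hb; simp [Pi.single_eq_of_ne hb]
  · intro h; exact absurd (Finset.mem_univ _) h

theorem single_ne_zero (hL : 2 ≤ L) (m : Fin d) : (Pi.single m 1 : Fin d → ZMod L) ≠ 0 := by
  intro h
  have h1 := congrFun h m
  rw [Pi.single_eq_same, Pi.zero_apply] at h1
  have : Fact (1 < L) := ⟨hL⟩
  exact one_ne_zero h1

/-- The local law of the pattern. -/
theorem local_ewens (hd : 1 ≤ d) (ι : Type*) [Fintype ι] [DecidableEq ι] :
    ∃ c : ℝ, 0 < c ∧ ∀ (L : ℕ) [NeZero L], 2 ≤ L → ∀ t : ℝ, 1 ≤ t →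
      ∀ (z : ι → (Fin d → ZMod L)) (r : ℝ), Function.Injective z → 1 ≤ r →
        (∀ i j, ∃ k : Fin d → ℤ, z j = z i + red d L k ∧ ∑ m, |(k m : ℝ)| ≤ r) →
        ∀ τ : Equiv.Perm ι, |patP d L t z τ -
          (relCl τ).card / ((Fintype.card ι).factorial : ℝ)| ≤
            c * r * Real.sqrt (bet d L t / t) := by
  classical
  by_cases hι : IsEmpty ι
  · refine ⟨1, one_pos, ?_⟩
    intro L _ hL t ht z r _ hr _ τ
    have hs := sum_patP (d := d) (L := L) t z
    have h1 : ∀ τ' : Equiv.Perm ι, τ' = τ := fun τ' => by ext a; exact (hι.false a).elim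
    have h2 : ∑ τ' : Equiv.Perm ι, patP d L t z τ' / ((relCl τ').card : ℝ) =
        patP d L t z τ / (relCl τ).card := by
      rw [Finset.sum_eq_single τ (fun b _ hb => absurd (h1 b) hb)
        (fun h => absurd (Finset.mem_univ _) h)]
    rw [h2] at hs
    have h3 := relCl_card_pos τ
    have h4 : (relCl τ).card = 1 := by
      rw [Finset.card_eq_one]
      exact ⟨τ, by ext τ'; simp [h1 τ', self_mem_relCl]⟩
    rw [h4] at hs ⊢
    rw [Nat.cast_one, div_one] at hs
    rw [hs, Fintype.card_eq_zero, Nat.factorial_zero]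
    simp only [Nat.cast_one, div_one, sub_self, abs_zero]
    have := Real.sqrt_nonneg (bet d L t / t)
    positivity
  rw [not_isEmpty_iff] at hι
  obtain ⟨c, hc0, hc⟩ := rk_pat (ι := ι) hd
  set N : ℝ := ((Fintype.card ι).factorial : ℝ) with hN
  have hN0 : 0 < N := by rw [hN]; positivity
  set k2 : ℝ := (Fintype.card ι : ℝ) ^ 2 with hk2
  have hk20 : 0 ≤ k2 := by rw [hk2]; positivity
  refine ⟨2 * k2 * N * (2 * c * (N + 2)) + 1, by positivity, ?_⟩
  intro L _ hL t ht z r hz hr hdiam τ
  set s := Real.sqrt (bet d L t / t) with hs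
  have hs0 : 0 ≤ s := Real.sqrt_nonneg _
  have hmain := ewens_of_approx (Q := patP d L t z) (e := 2 * c * (N + 2) * r * s)
    (by positivity) (sum_patP t z) ?_ τ
  · refine hmain.trans ?_
    have h1 : 0 ≤ r * s := by positivity
    have h2 : 2 * k2 * N * (2 * c * (N + 2) * r * s) = (2 * k2 * N * (2 * c * (N + 2))) * (r * s) := by
      ring
    rw [← hk2, ← hN, h2]
    calc (2 * k2 * N * (2 * c * (N + 2))) * (r * s) ≤
        (2 * k2 * N * (2 * c * (N + 2)) + 1) * (r * s) := by nlinarith
      _ = _ := by ring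
  intro τ i j hij hτ
  obtain ⟨k, hk, hkr⟩ := hdiam i j
  set m : Fin d := ⟨0, by omega⟩ with hm
  obtain ⟨y, hy⟩ : ∃ y, y = z i + Pi.single m 1 := ⟨_, rfl⟩
  set k' : Fin d → ℤ := -k + Pi.single m 1 with hk'
  have hyk : y = z j + red d L k' := by
    rw [hk', red_add, red_neg, red_single, hk, hy]
    abel
  have hk'r : ∑ l, |(k' l : ℝ)| ≤ 2 * r := by
    refine (sum_abs_add_le (-k) (Pi.single m 1)).trans ?_
    rw [sum_abs_single]
    have : ∑ l, |((-k) l : ℝ)| = ∑ l, |(k l : ℝ)| := by
      refine Finset.sum_congr rfl fun l _ => ?_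
      rw [Pi.neg_apply]; push_cast; rw [abs_neg]
    rw [this]
    linarith
  have hyi : y ≠ z i := by
    intro h
    rw [hy] at h
    exact single_ne_zero hL m (by simpa using h)
  have hzij : z i ≠ z j := fun h => hij (hz h)
  set z' : ι → (Fin d → ZMod L) := fun l => Equiv.swap (z j) (z j + red d L k') (z l) with hz'
  have hz'i : z' i = z i := by
    simp only [hz']
    rw [← hyk]
    exact Equiv.swap_apply_of_ne_of_ne hzij (Ne.symm hyi)
  have hz'j : z' j = z' i + Pi.single m 1 := by
    rw [hz'i, ← hy]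
    simp only [hz']
    rw [Equiv.swap_apply_left, ← hyk]
  have hz'inj : Function.Injective z' := fun a b h => hz ((Equiv.swap _ _).injective h)
  -- moving the points
  have hmove : ∀ u : Equiv.Perm ι, |patP d L t z u - patP d L t z' u| ≤ 2 * c * r * s := by
    intro u
    refine ((hc u L hL t ht).flat z (z j) k').trans ?_
    have h1 : c * ∑ l, |(k' l : ℝ)| ≤ c * (2 * r) := mul_le_mul_of_nonneg_left hk'r hc0
    have h2 : c * (2 * r) = 2 * c * r := by ring
    exact mul_le_mul_of_nonneg_right (h1.trans (le_of_eq h2)) hs0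
  -- the ring
  have hring := (hc τ L hL t ht).ring z' i j m hz'inj hij hz'j
  have e1 : expect d L t (fun σ => patI τ (Equiv.swap (z' i) (z' j) * σ) z' +
      patI τ (Equiv.swap (z' i) (z' j) * σ) (z' ∘ Equiv.swap i j)) =
      2 * ∑ τ' ∈ relCl τ, patP d L t z' (Equiv.swap i j * τ') /
        (relCl (Equiv.swap i j * τ')).card := by
    have hz'ne : z' i ≠ z' j := fun h => hij (hz'inj h)
    have h1 : (fun σ => patI τ (Equiv.swap (z' i) (z' j) * σ) z' +
      patI τ (Equiv.swap (z' i) (z' j) * σ) (z' ∘ Equiv.swap i j)) = fun σ =>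
        2 * ∑ τ' ∈ relCl τ, ((relCl (Equiv.swap i j * τ')).card : ℝ)⁻¹ *
        patI (Equiv.swap i j * τ') σ z' := by
      funext σ
      rw [patI_comp_swap _ _ hτ, patI_swap σ z' hij hz'ne hτ]
      ring
    rw [h1, expect_smul, expect_sum]
    congr 1
    refine Finset.sum_congr rfl fun τ' _ => ?_
    rw [expect_smul, div_eq_inv_mul]
    rfl
  have e2 : expect d L t (fun σ => patI τ σ z' + patI τ σ (z' ∘ Equiv.swap i j)) =
      2 * patP d L t z' τ := by
    have h1 : (fun σ => patI τ σ z' + patI τ σ (z' ∘ Equiv.swap i j)) = fun σ =>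
        2 * patI τ σ z' := by
      funext σ
      rw [patI_comp_swap _ _ hτ]
      ring
    rw [h1, expect_smul]
    rfl
  rw [e1, e2] at hring
  have hA : |patP d L t z' τ - ∑ τ' ∈ relCl τ, patP d L t z' (Equiv.swap i j * τ') /
        (relCl (Equiv.swap i j * τ')).card| ≤ c * s := by
    rw [abs_sub_comm, ← mul_sub, abs_mul, abs_of_pos (by norm_num : (0 : ℝ) < 2)] at hring
    have h1 : 0 ≤ c * s := by positivity
    linarith
  have hB : |∑ τ' ∈ relCl τ, patP d L t z' (Equiv.swap i j * τ') /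
        (relCl (Equiv.swap i j * τ')).card - ∑ τ' ∈ relCl τ, patP d L t z (Equiv.swap i j * τ') /
        (relCl (Equiv.swap i j * τ')).card| ≤ N * (2 * c * r * s) := by
    rw [← Finset.sum_sub_distrib]
    refine (Finset.abs_sum_le_sum_abs _ _).trans ?_
    have h1 : ∀ τ' ∈ relCl τ, |patP d L t z' (Equiv.swap i j * τ') /
        (relCl (Equiv.swap i j * τ')).card - patP d L t z (Equiv.swap i j * τ') /
        (relCl (Equiv.swap i j * τ')).card| ≤ 2 * c * r * s := by
      intro τ' _
      have h2 : (1 : ℝ) ≤ (relCl (Equiv.swap i j * τ')).card := by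
        exact_mod_cast Finset.card_pos.mpr ⟨_, self_mem_relCl _⟩
      rw [← sub_div, abs_div, abs_of_pos (by linarith : (0 : ℝ) < (relCl (Equiv.swap i j * τ')).card)]
      rw [abs_sub_comm]
      exact (div_le_self (abs_nonneg _) h2).trans (hmove _)
    refine (Finset.sum_le_sum h1).trans ?_
    rw [Finset.sum_const, nsmul_eq_mul]
    exact mul_le_mul_of_nonneg_right (relCl_card_le τ) (by positivity)
  have h0 := hmove τ
  have h3 : c * s ≤ 2 * c * r * s := by
    have : 0 ≤ c * s := by positivity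
    nlinarith
  calc |patP d L t z τ - ∑ τ' ∈ relCl τ, patP d L t z (Equiv.swap i j * τ') /
        (relCl (Equiv.swap i j * τ')).card|
      ≤ |patP d L t z τ - patP d L t z' τ| + |patP d L t z' τ -
        ∑ τ' ∈ relCl τ, patP d L t z' (Equiv.swap i j * τ') /
        (relCl (Equiv.swap i j * τ')).card| + |∑ τ' ∈ relCl τ,
        patP d L t z' (Equiv.swap i j * τ') / (relCl (Equiv.swap i j * τ')).card -
        ∑ τ' ∈ relCl τ, patP d L t z (Equiv.swap i j * τ') /
        (relCl (Equiv.swap i j * τ')).card| := by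
        have h5 := abs_sub_le (patP d L t z τ) (patP d L t z' τ)
          (∑ τ' ∈ relCl τ, patP d L t z (Equiv.swap i j * τ') /
            (relCl (Equiv.swap i j * τ')).card)
        have h6 := abs_sub_le (patP d L t z' τ) (∑ τ' ∈ relCl τ,
          patP d L t z' (Equiv.swap i j * τ') / (relCl (Equiv.swap i j * τ')).card)
          (∑ τ' ∈ relCl τ, patP d L t z (Equiv.swap i j * τ') /
            (relCl (Equiv.swap i j * τ')).card)
        linarith
    _ ≤ 2 * c * r * s + 2 * c * r * s + N * (2 * c * r * s) := by linarith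
    _ = 2 * c * (N + 2) * r * s := by ring

end Torus

end Pool.Agent.Stirring
end

section

/-! The cycle lengths of a permutation, sorted, and power sums. -/

open Finset

set_option linter.unusedSectionVars false

namespace Pool.Agent.Stirring

section Parts

variable {V : Type*} [Fintype V] [DecidableEq V]

theorem card_cyc_of_mem_support {σ : Equiv.Perm V} {x : V} (hx : x ∈ σ.support) :
    (cyc σ x).card = (σ.cycleOf x).support.card := by
  classical
  congr 1
  ext y
  rw [mem_cyc, Equiv.Perm.mem_support_cycleOf_iff' (Equiv.Perm.mem_support.mp hx)]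

theorem card_cyc_of_notMem_support {σ : Equiv.Perm V} {x : V} (hx : x ∉ σ.support) :
    (cyc σ x).card = 1 := by
  classical
  rw [Finset.card_eq_one]
  refine ⟨x, ?_⟩
  ext y
  rw [mem_cyc, Finset.mem_singleton]
  rw [Equiv.Perm.notMem_support] at hx
  constructor
  · intro h
    exact ((Equiv.Perm.SameCycle.eq_of_left h hx)).symm
  · rintro rfl; exact Equiv.Perm.SameCycle.refl _ _

theorem sum_cyc_eq_parts (σ : Equiv.Perm V) (f : ℕ → ℝ) :
    ∑ x, f (cyc σ x).card = (σ.partition.parts.map fun l : ℕ => (l : ℝ) * f l).sum := by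
  classical
  rw [Equiv.Perm.parts_partition, Multiset.map_add, Multiset.sum_add]
  rw [← Finset.sum_add_sum_compl σ.support]
  congr 1
  · rw [Equiv.Perm.cycleType_def, Multiset.map_map]
    have hmap : ∀ x ∈ σ.support, σ.cycleOf x ∈ σ.cycleFactorsFinset := fun x hx =>
      Equiv.Perm.cycleOf_mem_cycleFactorsFinset_iff.mpr hx
    rw [← Finset.sum_fiberwise_of_maps_to hmap]
    change _ = ∑ c ∈ σ.cycleFactorsFinset, _
    refine Finset.sum_congr rfl fun c hc => ?_
    have h1 : (σ.support.filter fun x => σ.cycleOf x = c) = c.support := by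
      ext x
      rw [Finset.mem_filter]
      constructor
      · rintro ⟨hx, rfl⟩
        rw [Equiv.Perm.mem_support_cycleOf_iff]
        exact ⟨Equiv.Perm.SameCycle.refl _ _, hx⟩
      · intro hx
        have h2 := Equiv.Perm.cycle_is_cycleOf hx hc
        refine ⟨?_, h2.symm⟩
        exact Equiv.Perm.mem_cycleFactorsFinset_support_le hc hx
    rw [h1]
    have h2 : ∀ x ∈ c.support, f (cyc σ x).card = f c.support.card := by
      intro x hx
      have h3 := Equiv.Perm.cycle_is_cycleOf hx hc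
      rw [card_cyc_of_mem_support (Equiv.Perm.mem_cycleFactorsFinset_support_le hc hx), ← h3]
    rw [Finset.sum_congr rfl h2, Finset.sum_const, nsmul_eq_mul]
    rfl
  · rw [Multiset.map_replicate, Multiset.sum_replicate, nsmul_eq_mul, Nat.cast_one, one_mul]
    have h2 : ∀ x ∈ σ.supportᶜ, f (cyc σ x).card = f 1 := by
      intro x hx
      rw [card_cyc_of_notMem_support (Finset.mem_compl.mp hx)]
    rw [Finset.sum_congr rfl h2, Finset.sum_const, nsmul_eq_mul, Finset.card_compl]

/-- The `i`-th longest cycle of a permutation (`i = 0, 1, ...`), as a fraction of the number of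
points, and `0` if there are at most `i` cycles. -/
noncomputable def relLen (σ : Equiv.Perm V) (i : ℕ) : ℝ :=
  ((σ.partition.parts.sort (· ≥ ·)).getD i 0 : ℕ) / (Fintype.card V : ℝ)

theorem sum_getD_pow (l : List ℕ) (c : ℝ) {k : ℕ} (hk : k ≠ 0) :
    HasSum (fun i : ℕ => ((l.getD i 0 : ℕ) / c) ^ k) ((l.map fun a : ℕ => ((a : ℝ) / c) ^ k).sum) := by
  have h1 : (l.map fun a : ℕ => ((a : ℝ) / c) ^ k).sum =
      ∑ i ∈ Finset.range l.length, ((l.getD i 0 : ℕ) / c) ^ k := by
    rw [← Fin.sum_univ_eq_sum_range (fun i => (((l.getD i 0 : ℕ) : ℝ) / c) ^ k) l.length]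
    rw [← List.sum_ofFn]
    congr 1
    refine List.ext_getElem (by simp) ?_
    intro i h1 h2
    have h3 : i < l.length := by simpa using h1
    simp only [List.getElem_map, List.getElem_ofFn]
    rw [List.getD_eq_getElem _ _ h3]
  rw [h1]
  refine hasSum_sum_of_ne_finset_zero ?_
  intro i hi
  rw [Finset.mem_range, not_lt] at hi
  rw [List.getD_eq_default _ _ hi]
  simp [hk]

end Parts

end Pool.Agent.Stirring
end

section

/-! The space of nonincreasing mass partitions, and approximation of continuous functions on it. -/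

open Finset

set_option linter.unusedSectionVars false

namespace Pool.Agent.Stirring

/-- Nonincreasing sequences of nonnegative numbers with sum at most one. -/
def KKset : Set (ℕ → ℝ) :=
  {p | (∀ i, 0 ≤ p i) ∧ (∀ i, p (i + 1) ≤ p i) ∧ ∀ n, ∑ i ∈ Finset.range n, p i ≤ 1}

theorem KKset_antitone {p : ℕ → ℝ} (hp : p ∈ KKset) : Antitone p :=
  antitone_nat_of_succ_le hp.2.1

theorem KKset_le {p : ℕ → ℝ} (hp : p ∈ KKset) (i : ℕ) : p i ≤ 1 / ((i : ℝ) + 1) := by
  have h1 := hp.2.2 (i + 1)
  have h2 : ∑ j ∈ Finset.range (i + 1), p i ≤ ∑ j ∈ Finset.range (i + 1), p j := by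
    refine Finset.sum_le_sum fun j hj => ?_
    exact KKset_antitone hp (by rw [Finset.mem_range] at hj; omega)
  rw [Finset.sum_const, Finset.card_range, nsmul_eq_mul] at h2
  rw [le_div_iff₀ (by positivity)]
  push_cast at h2
  linarith

theorem KKset_le_one {p : ℕ → ℝ} (hp : p ∈ KKset) (i : ℕ) : p i ≤ 1 := by
  refine (KKset_le hp i).trans ?_
  rw [div_le_one (by positivity)]
  have : (0 : ℝ) ≤ i := Nat.cast_nonneg _
  linarith

theorem isClosed_KKset : IsClosed KKset := by
  have h1 : KKset = (⋂ i : ℕ, {p : ℕ → ℝ | 0 ≤ p i}) ∩ ((⋂ i : ℕ, {p : ℕ → ℝ | p (i + 1) ≤ p i}) ∩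
      ⋂ n : ℕ, {p : ℕ → ℝ | ∑ i ∈ Finset.range n, p i ≤ 1}) := by
    ext p
    simp only [KKset, Set.mem_inter_iff, Set.mem_iInter]
    rfl
  rw [h1]
  refine IsClosed.inter (isClosed_iInter fun i => ?_) (IsClosed.inter (isClosed_iInter fun i => ?_)
    (isClosed_iInter fun n => ?_))
  · exact isClosed_le continuous_const (continuous_apply i)
  · exact isClosed_le (continuous_apply (i + 1)) (continuous_apply i)
  · exact isClosed_le (continuous_finsetSum _ fun i _ => continuous_apply i) continuous_const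

theorem isCompact_KKset : IsCompact KKset := by
  have h1 : IsCompact (Set.pi Set.univ fun _ : ℕ => Set.Icc (0 : ℝ) 1) :=
    isCompact_univ_pi fun _ => isCompact_Icc
  refine h1.of_isClosed_subset isClosed_KKset ?_
  intro p hp i _
  exact ⟨hp.1 i, KKset_le_one hp i⟩

instance : CompactSpace KKset := isCompact_iff_compactSpace.mp isCompact_KKset

theorem summable_dom : Summable fun i : ℕ => (1 / ((i : ℝ) + 1)) ^ 2 := by
  have h := (summable_nat_add_iff 1).mpr (Real.summable_one_div_nat_pow.mpr (by norm_num : 1 < 2))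
  refine h.congr fun i => ?_
  push_cast
  rw [one_div_pow]

theorem pow_le_dom {p : ℕ → ℝ} (hp : p ∈ KKset) {k : ℕ} (hk : 2 ≤ k) (i : ℕ) :
    p i ^ k ≤ (1 / ((i : ℝ) + 1)) ^ 2 := by
  calc p i ^ k ≤ p i ^ 2 := pow_le_pow_of_le_one (hp.1 i) (KKset_le_one hp i) hk
    _ ≤ _ := pow_le_pow_left₀ (hp.1 i) (KKset_le hp i) 2

theorem summable_pow {p : ℕ → ℝ} (hp : p ∈ KKset) {k : ℕ} (hk : 2 ≤ k) :
    Summable fun i => p i ^ k :=
  Summable.of_nonneg_of_le (fun i => pow_nonneg (hp.1 i) k) (pow_le_dom hp hk) summable_dom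

/-- The power sums. -/
noncomputable def powS (k : ℕ) : C(KKset, ℝ) where
  toFun p := ∑' i, p.1 i ^ (k + 2)
  continuous_toFun := by
    refine continuous_tsum (fun i => ?_) summable_dom (fun i p => ?_)
    · exact ((continuous_apply i).comp continuous_subtype_val).pow _
    · rw [Real.norm_eq_abs, abs_of_nonneg (pow_nonneg (p.2.1 i) _)]
      exact pow_le_dom p.2 (by omega) i

theorem powS_apply (k : ℕ) (p : KKset) : powS k p = ∑' i, p.1 i ^ (k + 2) := rfl

theorem powS_sep {p q : KKset} (h : ∀ k, powS k p = powS k q) : ∀ i, p.1 i ≤ q.1 i := by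
  by_contra hne
  push Not at hne
  -- the first index where they differ
  have hex : ∃ i, p.1 i ≠ q.1 i := by
    obtain ⟨i, hi⟩ := hne
    exact ⟨i, ne_of_gt hi⟩
  -- it suffices to treat the first difference
  have key : ∀ (p q : KKset), (∀ k, powS k p = powS k q) → ∀ n, (∀ j < n, p.1 j = q.1 j) →
      ¬ q.1 n < p.1 n := by
    intro p q h n hn hlt
    set a := p.1 n with ha
    set b := q.1 n with hb
    have hb0 : 0 ≤ b := q.2.1 n
    have ha0 : 0 < a := lt_of_le_of_lt hb0 hlt
    set B : ℝ := ∑' i, q.1 (i + n) ^ 2 with hB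
    have hmain : ∀ k : ℕ, a ^ (k + 2) ≤ b ^ k * B := by
      intro k
      have h1 := h k
      rw [powS_apply, powS_apply] at h1
      rw [← (summable_pow p.2 (by omega : 2 ≤ k + 2)).sum_add_tsum_nat_add n,
        ← (summable_pow q.2 (by omega : 2 ≤ k + 2)).sum_add_tsum_nat_add n] at h1
      have h2 : ∑ i ∈ Finset.range n, p.1 i ^ (k + 2) = ∑ i ∈ Finset.range n, q.1 i ^ (k + 2) :=
        Finset.sum_congr rfl fun i hi => by rw [hn i (Finset.mem_range.mp hi)]
      have h3 : ∑' i, p.1 (i + n) ^ (k + 2) = ∑' i, q.1 (i + n) ^ (k + 2) := by linarith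
      have hsp := (summable_nat_add_iff n).mpr (summable_pow p.2 (by omega : 2 ≤ k + 2))
      have hsq := (summable_nat_add_iff n).mpr (summable_pow q.2 (by omega : 2 ≤ k + 2))
      have hsq2 := (summable_nat_add_iff n).mpr (summable_pow q.2 (le_refl 2))
      have h4 : a ^ (k + 2) ≤ ∑' i, p.1 (i + n) ^ (k + 2) := by
        have := hsp.le_tsum 0 (fun j _ => pow_nonneg (p.2.1 _) _)
        simpa using this
      have h5 : ∑' i, q.1 (i + n) ^ (k + 2) ≤ ∑' i, b ^ k * q.1 (i + n) ^ 2 := by
        refine hsq.tsum_le_tsum (fun i => ?_) (hsq2.mul_left _)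
        rw [pow_add]
        refine mul_le_mul_of_nonneg_right ?_ (sq_nonneg _)
        exact pow_le_pow_left₀ (q.2.1 _) (KKset_antitone q.2 (by omega)) k
      rw [tsum_mul_left] at h5
      calc a ^ (k + 2) ≤ _ := h4
        _ = _ := h3
        _ ≤ _ := h5
    have hr : b / a < 1 := by rw [div_lt_one ha0]; exact hlt
    have hr0 : 0 ≤ b / a := by positivity
    have hlim : Filter.Tendsto (fun k : ℕ => (b / a) ^ k * B) Filter.atTop (nhds (0 * B)) :=
      (tendsto_pow_atTop_nhds_zero_of_lt_one hr0 hr).mul_const B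
    rw [zero_mul] at hlim
    have h6 : ∀ k : ℕ, a ^ 2 ≤ (b / a) ^ k * B := by
      intro k
      have h7 := hmain k
      rw [div_pow, div_mul_eq_mul_div, le_div_iff₀ (by positivity), ← pow_add, add_comm 2 k]
      exact h7
    have h8 := ge_of_tendsto' hlim h6
    have : 0 < a ^ 2 := by positivity
    linarith
  classical
  set n := Nat.find hex with hn
  have h1 : p.1 n ≠ q.1 n := Nat.find_spec hex
  have h2 : ∀ j < n, p.1 j = q.1 j := fun j hj => by
    have := Nat.find_min hex hj
    push Not at this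
    exact this
  rcases lt_or_gt_of_ne h1 with h3 | h3
  · exact key q p (fun k => (h k).symm) n (fun j hj => (h2 j hj).symm) h3
  · exact key p q h n h2 h3

/-- The algebra generated by the power sums is dense. -/
theorem approx_powS (F : C(KKset, ℝ)) {ε : ℝ} (hε : 0 < ε) :
    ∃ G ∈ Algebra.adjoin ℝ (Set.range powS), ∀ p, |F p - G p| < ε := by
  have hsep : (Algebra.adjoin ℝ (Set.range powS)).SeparatesPoints := by
    intro p q hpq
    by_contra hcon
    push Not at hcon
    have h1 : ∀ k, powS k p = powS k q := by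
      intro k
      exact hcon (powS k) ⟨powS k, Algebra.subset_adjoin ⟨k, rfl⟩, rfl⟩
    apply hpq
    refine Subtype.ext (funext fun i => ?_)
    exact le_antisymm (powS_sep h1 i) (powS_sep (fun k => (h1 k).symm) i)
  obtain ⟨G, hG⟩ := ContinuousMap.exists_mem_subalgebra_near_continuousMap_of_separatesPoints
    (Algebra.adjoin ℝ (Set.range powS)) hsep F ε hε
  refine ⟨G, G.2, fun p => ?_⟩
  have h1 := (ContinuousMap.norm_lt_iff _ hε).mp hG p
  rw [Real.norm_eq_abs, ContinuousMap.sub_apply, abs_sub_comm] at h1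
  exact h1

end Pool.Agent.Stirring
end

section

/-! Comparison of grouping probabilities with those of a uniform permutation. -/

open Finset

set_option linter.unusedSectionVars false

namespace Pool.Agent.Stirring

section Unif

variable {V : Type*} [Fintype V] [DecidableEq V] {ι : Type*} [Fintype ι] [DecidableEq ι]

/-- The expectation for a uniform permutation. -/
noncomputable def unifE (f : Equiv.Perm V → ℝ) : ℝ :=
  (∑ σ, f σ) / ((Fintype.card V).factorial : ℝ)

theorem unifE_const (c : ℝ) : unifE (fun _ : Equiv.Perm V => c) = c := by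
  unfold unifE
  rw [Finset.sum_const, Finset.card_univ, Fintype.card_perm, nsmul_eq_mul]
  field_simp

theorem unifE_add (f g : Equiv.Perm V → ℝ) :
    unifE (fun σ => f σ + g σ) = unifE f + unifE g := by
  unfold unifE
  rw [Finset.sum_add_distrib, add_div]

theorem unifE_smul (c : ℝ) (f : Equiv.Perm V → ℝ) :
    unifE (fun σ => c * f σ) = c * unifE f := by
  unfold unifE
  rw [← Finset.mul_sum, mul_div_assoc]

theorem unifE_sum {κ : Type*} (s : Finset κ) (f : κ → Equiv.Perm V → ℝ) :
    unifE (fun σ => ∑ k ∈ s, f k σ) = ∑ k ∈ s, unifE (f k) := by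
  unfold unifE
  rw [Finset.sum_comm, Finset.sum_div]

theorem unifE_abs_le {f : Equiv.Perm V → ℝ} {c : ℝ} (h : ∀ σ, |f σ| ≤ c) : |unifE f| ≤ c := by
  unfold unifE
  rw [abs_div, abs_of_pos (by positivity : (0 : ℝ) < ((Fintype.card V).factorial : ℝ)),
    div_le_iff₀ (by positivity)]
  refine (Finset.abs_sum_le_sum_abs _ _).trans ?_
  refine (Finset.sum_le_sum fun σ _ => h σ).trans (le_of_eq ?_)
  rw [Finset.sum_const, Finset.card_univ, Fintype.card_perm, nsmul_eq_mul, mul_comm]

/-- The pattern of distinct points in a uniform permutation. -/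
theorem unif_pat {z : ι → V} (hz : Function.Injective z) (τ : Equiv.Perm ι) :
    unifE (fun σ => patI τ σ z) = (relCl τ).card / ((Fintype.card ι).factorial : ℝ) := by
  have h := ewens_of_approx (Q := fun τ => unifE (fun σ : Equiv.Perm V => patI τ σ z)) (e := 0)
    le_rfl ?_ ?_ τ
  · rw [mul_zero] at h
    have h1 := abs_nonpos_iff.mp h
    linarith
  · have h1 : ∀ τ : Equiv.Perm ι, unifE (fun σ : Equiv.Perm V => patI τ σ z) / (relCl τ).card =
        unifE fun σ => patW τ σ z := by
      intro τ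
      unfold patW
      rw [unifE_smul, div_eq_inv_mul]
    rw [Finset.sum_congr rfl fun τ _ => h1 τ, ← unifE_sum]
    simp only [sum_patW]
    exact unifE_const 1
  · intro τ i j hij hτ
    have hzij : z i ≠ z j := fun h => hij (hz h)
    have h1 : unifE (fun σ : Equiv.Perm V => patI τ (Equiv.swap (z i) (z j) * σ) z) =
        unifE (fun σ : Equiv.Perm V => patI τ σ z) := by
      unfold unifE
      congr 1
      exact Fintype.sum_equiv (Equiv.mulLeft (Equiv.swap (z i) (z j))) _ _ (fun σ => rfl)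
    have h2 : unifE (fun σ : Equiv.Perm V => patI τ (Equiv.swap (z i) (z j) * σ) z) =
        ∑ τ' ∈ relCl τ, unifE (fun σ : Equiv.Perm V => patI (Equiv.swap i j * τ') σ z) /
          (relCl (Equiv.swap i j * τ')).card := by
      have h3 : (fun σ : Equiv.Perm V => patI τ (Equiv.swap (z i) (z j) * σ) z) = fun σ =>
          ∑ τ' ∈ relCl τ, ((relCl (Equiv.swap i j * τ')).card : ℝ)⁻¹ *
            patI (Equiv.swap i j * τ') σ z := by
        funext σ
        exact patI_swap σ z hij hzij hτ
      rw [h3, unifE_sum]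
      refine Finset.sum_congr rfl fun τ' _ => ?_
      rw [unifE_smul, div_eq_inv_mul]
    rw [← h2, h1, sub_self, abs_zero]

open Classical in
/-- The event that related indices sit in the same cycle. -/
noncomputable def gI (R : ι → ι → Prop) (σ : Equiv.Perm V) (z : ι → V) : ℝ :=
  if ∀ a b, R a b → σ.SameCycle (z a) (z b) then 1 else 0

theorem gI_eq {R : ι → ι → Prop} {σ : Equiv.Perm V} {z : ι → V} {P : Prop} [Decidable P]
    (h : (∀ a b, R a b → σ.SameCycle (z a) (z b)) ↔ P) : gI R σ z = if P then 1 else 0 := by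
  classical
  unfold gI
  by_cases hP : P
  · rw [if_pos hP, if_pos (h.mpr hP)]
  · rw [if_neg hP, if_neg (fun h1 => hP (h.mp h1))]

open Classical in
theorem gI_comp {κ : Type*} [Fintype κ] [DecidableEq κ] (R : ι → ι → Prop) (σ : Equiv.Perm V)
    (z : κ → V) (p : ι → κ) :
    gI R σ (z ∘ p) = ∑ τ : Equiv.Perm κ, (gI R τ p) * patW τ σ z := by
  obtain ⟨τ0, hτ0⟩ := exists_pat σ z
  have hc : gI R σ (z ∘ p) = gI R τ0 p := by
    unfold gI
    refine if_congr ?_ rfl rfl
    constructor
    · intro h a b hab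
      exact (hτ0 _ _).mp (h a b hab)
    · intro h a b hab
      exact (hτ0 _ _).mpr (h a b hab)
  have h1 : ∀ τ : Equiv.Perm κ, gI R τ p * patW τ σ z = gI R τ0 p * patW τ σ z := by
    intro τ
    by_cases hτ : Pat σ z τ
    · congr 1
      unfold gI
      refine if_congr ?_ rfl rfl
      constructor
      · intro h a b hab
        exact (hτ0 _ _).mp ((hτ _ _).mpr (h a b hab))
      · intro h a b hab
        exact (hτ _ _).mp ((hτ0 _ _).mpr (h a b hab))
    · unfold patW patI
      rw [if_neg hτ, mul_zero, mul_zero, mul_zero]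
  rw [Finset.sum_congr rfl fun τ _ => h1 τ, ← Finset.mul_sum, sum_patW, mul_one, hc]

theorem exists_factor (z : ι → V) : ∃ (k : ℕ) (p : ι → Fin k) (z₁ : Fin k → V),
    Function.Injective z₁ ∧ z = z₁ ∘ p ∧ k ≤ Fintype.card ι := by
  classical
  set e := Fintype.equivFin (Set.range z) with he
  refine ⟨Fintype.card (Set.range z), fun i => e ⟨z i, i, rfl⟩, fun j => (e.symm j : V), ?_, ?_, ?_⟩
  · intro a b h
    exact e.symm.injective (Subtype.ext h)
  · funext i
    simp
  · exact Fintype.card_range_le z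

theorem gI_sum_mul {ι' : Type*} [Fintype ι'] [DecidableEq ι'] (R : ι → ι → Prop)
    (R' : ι' → ι' → Prop) (σ : Equiv.Perm V) :
    ∑ z : ι ⊕ ι' → V, gI (Sum.LiftRel R R') σ z =
      (∑ z : ι → V, gI R σ z) * ∑ z : ι' → V, gI R' σ z := by
  classical
  rw [Finset.sum_mul_sum, ← Finset.sum_product', Finset.univ_product_univ]
  refine Fintype.sum_equiv (Equiv.sumArrowEquivProdArrow ι ι' V) _ _ ?_
  intro z
  simp only [Equiv.sumArrowEquivProdArrow, Equiv.coe_fn_mk]
  have h0 : (∀ a b, Sum.LiftRel R R' a b → σ.SameCycle (z a) (z b)) ↔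
      ((∀ a b, R a b → σ.SameCycle ((z ∘ Sum.inl) a) ((z ∘ Sum.inl) b)) ∧
        ∀ a b, R' a b → σ.SameCycle ((z ∘ Sum.inr) a) ((z ∘ Sum.inr) b)) := by
    constructor
    · intro h
      exact ⟨fun a b hab => h _ _ (Sum.LiftRel.inl hab), fun a b hab => h _ _ (Sum.LiftRel.inr hab)⟩
    · rintro ⟨h1, h2⟩ a b hab
      cases hab with
      | inl h => exact h1 _ _ h
      | inr h => exact h2 _ _ h
  rw [gI_eq h0, gI_eq (Iff.refl _), gI_eq (Iff.refl _)]
  by_cases hA : ∀ a b, R a b → σ.SameCycle ((z ∘ Sum.inl) a) ((z ∘ Sum.inl) b)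
  · by_cases hB : ∀ a b, R' a b → σ.SameCycle ((z ∘ Sum.inr) a) ((z ∘ Sum.inr) b)
    · rw [if_pos ⟨hA, hB⟩, if_pos hA, if_pos hB, mul_one]
    · rw [if_neg (fun h => hB h.2), if_neg hB, mul_zero]
  · rw [if_neg (fun h => hA h.1), if_neg hA, zero_mul]

theorem gI_top_sum (σ : Equiv.Perm V) (k : ℕ) :
    ∑ z : Fin (k + 1) → V, gI (fun _ _ => True) σ z = ∑ x, ((cyc σ x).card : ℝ) ^ k := by
  classical
  rw [← Fintype.sum_equiv (Fin.consEquiv fun _ => V) (fun q => gI (fun _ _ => True) σ
    (Fin.cons q.1 q.2 : Fin (k + 1) → V)) _ (fun q => rfl)]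
  rw [Fintype.sum_prod_type]
  refine Finset.sum_congr rfl fun x _ => ?_
  have h1 : ∀ y : Fin k → V, gI (fun _ _ => True) σ (Fin.cons x y : Fin (k + 1) → V) =
      if y ∈ Fintype.piFinset (fun _ : Fin k => cyc σ x) then 1 else 0 := by
    intro y
    refine gI_eq ?_
    rw [Fintype.mem_piFinset]
    constructor
    · intro h j
      have := h 0 j.succ trivial
      rw [Fin.cons_zero, Fin.cons_succ] at this
      exact mem_cyc.mpr this
    · intro h a b _
      have h2 : ∀ a : Fin (k + 1), σ.SameCycle x ((Fin.cons x y : Fin (k + 1) → V) a) := by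
        intro a
        refine Fin.cases ?_ (fun j => ?_) a
        · rw [Fin.cons_zero]
        · rw [Fin.cons_succ]; exact mem_cyc.mp (h j)
      exact (h2 a).symm.trans (h2 b)
  rw [Finset.sum_congr rfl fun y _ => h1 y]
  rw [Finset.sum_ite_mem, Finset.univ_inter, Finset.sum_const, Fintype.card_piFinset_const,
    nsmul_eq_mul, mul_one]
  push_cast
  rfl

end Unif

end Pool.Agent.Stirring
end

section

/-! Comparison of grouping probabilities of stirring with those of a uniform permutation. -/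

open Finset

set_option linter.unusedSectionVars false

namespace Pool.Agent.Stirring

variable {d L : ℕ} [NeZero L] {ι : Type*} [Fintype ι] [DecidableEq ι]

theorem exists_red_le (x y : Fin d → ZMod L) :
    ∃ k : Fin d → ℤ, y = x + red d L k ∧ ∑ m, |(k m : ℝ)| ≤ d * L := by
  refine ⟨fun i => ((y i - x i).val : ℤ), ?_, ?_⟩
  · ext i
    rw [Pi.add_apply]
    unfold red
    rw [Int.cast_natCast, ZMod.natCast_zmod_val]
    ring
  · have h1 : ∀ m ∈ (Finset.univ : Finset (Fin d)), |(((y m - x m).val : ℤ) : ℝ)| ≤ (L : ℝ) := by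
      intro m _
      rw [Int.cast_natCast, Nat.abs_cast]
      exact_mod_cast (ZMod.val_lt (y m - x m)).le
    refine (Finset.sum_le_sum h1).trans (le_of_eq ?_)
    rw [Finset.sum_const, Finset.card_univ, Fintype.card_fin, nsmul_eq_mul]

/-- Comparison of grouping probabilities with those of a uniform permutation. -/
theorem group_close (hd : 1 ≤ d) (ι : Type*) [Fintype ι] [DecidableEq ι] :
    ∃ C : ℝ, 0 < C ∧ ∀ (L : ℕ) [NeZero L], 2 ≤ L → ∀ t : ℝ, 1 ≤ t →
      ∀ (R : ι → ι → Prop) (z : ι → (Fin d → ZMod L)),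
        |expect d L t (fun σ => gI R σ z) - unifE (fun σ => gI R σ z)| ≤
          C * (L * Real.sqrt (bet d L t / t)) := by
  classical
  choose c hc0 hc using fun k : ℕ => local_ewens hd (Fin k)
  set n := Fintype.card ι with hn
  refine ⟨∑ k ∈ Finset.range (n + 1), (k.factorial : ℝ) * c k * d, ?_, ?_⟩
  · refine Finset.sum_pos (fun k _ => ?_) ⟨0, by simp⟩
    have := hc0 k
    have : (0 : ℝ) < d := by exact_mod_cast hd
    positivity
  intro L _ hL t ht R z
  obtain ⟨k, p, z₁, hz₁, hz, hk⟩ := exists_factor z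
  have hs0 : 0 ≤ Real.sqrt (bet d L t / t) := Real.sqrt_nonneg _
  have hd1 : (1 : ℝ) ≤ d := by exact_mod_cast hd
  have hL1 : (1 : ℝ) ≤ L := by exact_mod_cast (by omega : 1 ≤ L)
  have hdL : (1 : ℝ) ≤ d * L := by nlinarith
  have e1 : expect d L t (fun σ => gI R σ z) =
      ∑ τ : Equiv.Perm (Fin k), gI R τ p * (((relCl τ).card : ℝ)⁻¹ * patP d L t z₁ τ) := by
    rw [hz]
    simp only [gI_comp]
    rw [expect_sum]
    refine Finset.sum_congr rfl fun τ _ => ?_
    rw [expect_smul]
    unfold patW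
    rw [expect_smul]
    rfl
  have e2 : unifE (fun σ => gI R σ z) =
      ∑ τ : Equiv.Perm (Fin k), gI R τ p * (((relCl τ).card : ℝ)⁻¹ *
        ((relCl τ).card / (k.factorial : ℝ))) := by
    rw [hz]
    simp only [gI_comp]
    rw [unifE_sum]
    refine Finset.sum_congr rfl fun τ _ => ?_
    rw [unifE_smul]
    unfold patW
    rw [unifE_smul, unif_pat hz₁, Fintype.card_fin]
  rw [e1, e2, ← Finset.sum_sub_distrib]
  refine (Finset.abs_sum_le_sum_abs _ _).trans ?_
  have h1 : ∀ τ ∈ (Finset.univ : Finset (Equiv.Perm (Fin k))),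
      |gI R τ p * (((relCl τ).card : ℝ)⁻¹ * patP d L t z₁ τ) -
        gI R τ p * (((relCl τ).card : ℝ)⁻¹ * ((relCl τ).card / (k.factorial : ℝ)))| ≤
        c k * (d * L) * Real.sqrt (bet d L t / t) := by
    intro τ _
    rw [← mul_sub, ← mul_sub, abs_mul, abs_mul]
    have h2 := hc k L hL t ht z₁ (d * L) hz₁ hdL (fun i j => exists_red_le (z₁ i) (z₁ j)) τ
    rw [Fintype.card_fin] at h2
    have h3 : |gI R τ p| ≤ 1 := by
      unfold gI
      split_ifs <;> simp
    have h4 : |((relCl τ).card : ℝ)⁻¹| ≤ 1 := by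
      rw [abs_of_nonneg (by positivity)]
      refine inv_le_one_of_one_le₀ ?_
      exact_mod_cast Finset.card_pos.mpr ⟨_, self_mem_relCl _⟩
    calc |gI R τ p| * (|((relCl τ).card : ℝ)⁻¹| *
          |patP d L t z₁ τ - (relCl τ).card / (k.factorial : ℝ)|) ≤
        1 * (1 * (c k * (d * L) * Real.sqrt (bet d L t / t))) := by
          refine mul_le_mul h3 ?_ (by positivity) zero_le_one
          exact mul_le_mul h4 h2 (abs_nonneg _) zero_le_one
      _ = _ := by ring
  refine (Finset.sum_le_sum h1).trans ?_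
  rw [Finset.sum_const, Finset.card_univ, Fintype.card_perm, Fintype.card_fin, nsmul_eq_mul]
  have h5 : (k.factorial : ℝ) * c k * d ≤
      ∑ k ∈ Finset.range (n + 1), (k.factorial : ℝ) * c k * d := by
    refine Finset.single_le_sum (f := fun k : ℕ => (k.factorial : ℝ) * c k * d) (fun j _ => ?_)
      (Finset.mem_range.mpr (by omega))
    have := hc0 j
    positivity
  calc (k.factorial : ℝ) * (c k * (d * L) * Real.sqrt (bet d L t / t)) =
      ((k.factorial : ℝ) * c k * d) * (L * Real.sqrt (bet d L t / t)) := by ring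
    _ ≤ _ := mul_le_mul_of_nonneg_right h5 (by positivity)

end Pool.Agent.Stirring
end
end

section

/-! The law of the long cycles compared with that of a uniform permutation. -/

open Finset

set_option linter.unusedSectionVars false

namespace Pool.Agent.Stirring

section Pt

variable {V : Type} [Fintype V] [DecidableEq V] [Nonempty V]

theorem relLen_mem (σ : Equiv.Perm V) : relLen σ ∈ KKset := by
  have hn : (0 : ℝ) < Fintype.card V := by exact_mod_cast Fintype.card_pos
  refine ⟨fun i => ?_, fun i => ?_, fun n => ?_⟩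
  · unfold relLen; positivity
  · unfold relLen
    refine div_le_div_of_nonneg_right ?_ hn.le
    have hs := σ.partition.parts.pairwise_sort (· ≥ ·)
    set l := σ.partition.parts.sort (· ≥ ·) with hl
    by_cases h : i + 1 < l.length
    · rw [List.getD_eq_getElem _ _ h, List.getD_eq_getElem _ _ (by omega : i < l.length)]
      exact_mod_cast (List.pairwise_iff_getElem.mp hs) i (i + 1) (by omega) h (by omega)
    · rw [List.getD_eq_default _ _ (by omega : l.length ≤ i + 1)]
      exact_mod_cast Nat.zero_le _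
  · have h1 := sum_getD_pow (σ.partition.parts.sort (· ≥ ·)) (Fintype.card V : ℝ) one_ne_zero
    have h2 : ∑ i ∈ Finset.range n, relLen σ i ≤
        ((σ.partition.parts.sort (· ≥ ·)).map fun a : ℕ => ((a : ℝ) / Fintype.card V) ^ 1).sum := by
      have h3 := sum_le_hasSum (Finset.range n) (fun i _ => by positivity) h1
      refine le_trans (le_of_eq ?_) h3
      refine Finset.sum_congr rfl fun i _ => ?_
      unfold relLen
      rw [pow_one]
    refine h2.trans (le_of_eq ?_)
    have h4 : ((σ.partition.parts.sort (· ≥ ·)).map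
        fun a : ℕ => ((a : ℝ) / Fintype.card V) ^ 1).sum =
        (σ.partition.parts.map fun a : ℕ => (a : ℝ) * (1 / (Fintype.card V : ℝ))).sum := by
      rw [← Multiset.sum_coe, ← Multiset.map_coe, Multiset.sort_eq]
      congr 1
      refine Multiset.map_congr rfl fun a _ => ?_
      rw [pow_one, mul_one_div]
    rw [h4, ← sum_cyc_eq_parts σ (fun _ => 1 / (Fintype.card V : ℝ)), Finset.sum_const,
      Finset.card_univ, nsmul_eq_mul, mul_one_div, div_self hn.ne']

/-- The mass partition of a permutation. -/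
noncomputable def pt (σ : Equiv.Perm V) : KKset := ⟨relLen σ, relLen_mem σ⟩

theorem powS_pt (σ : Equiv.Perm V) (k : ℕ) :
    powS k (pt σ) = (∑ z : Fin (k + 2) → V, gI (fun _ _ => True) σ z) /
      (Fintype.card V : ℝ) ^ (k + 2) := by
  rw [powS_apply]
  have h1 := sum_getD_pow (σ.partition.parts.sort (· ≥ ·)) (Fintype.card V : ℝ)
    (by omega : k + 2 ≠ 0)
  have h2 : ∑' i, (pt σ).1 i ^ (k + 2) = ∑' i : ℕ,
      (((σ.partition.parts.sort (· ≥ ·)).getD i 0 : ℕ) / (Fintype.card V : ℝ)) ^ (k + 2) := rfl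
  rw [h2, h1.tsum_eq, gI_top_sum]
  have h4 : ((σ.partition.parts.sort (· ≥ ·)).map
      fun a : ℕ => ((a : ℝ) / Fintype.card V) ^ (k + 2)).sum =
      (σ.partition.parts.map fun a : ℕ =>
        (a : ℝ) * ((a : ℝ) ^ (k + 1) / (Fintype.card V : ℝ) ^ (k + 2))).sum := by
    rw [← Multiset.sum_coe, ← Multiset.map_coe, Multiset.sort_eq]
    congr 1
    refine Multiset.map_congr rfl fun a _ => ?_
    rw [div_pow]
    ring
  rw [h4, ← sum_cyc_eq_parts σ (fun a => (a : ℝ) ^ (k + 1) / (Fintype.card V : ℝ) ^ (k + 2)),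
    Finset.sum_div]

end Pt

/-- Functions which are normalized counts of grouping events. -/
def Mom (G : C(KKset, ℝ)) : Prop :=
  ∃ (ι : Type) (_ : Fintype ι) (_ : DecidableEq ι) (R : ι → ι → Prop),
    ∀ (V : Type) [Fintype V] [DecidableEq V] [Nonempty V] (σ : Equiv.Perm V),
      G (pt σ) = (∑ z : ι → V, gI R σ z) / (Fintype.card V : ℝ) ^ Fintype.card ι

theorem mom_powS (k : ℕ) : Mom (powS k) := by
  refine ⟨Fin (k + 2), inferInstance, inferInstance, fun _ _ => True, ?_⟩
  intro V _ _ _ σ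
  rw [powS_pt, Fintype.card_fin]

theorem mom_one : Mom 1 := by
  refine ⟨Fin 0, inferInstance, inferInstance, fun _ _ => True, ?_⟩
  intro V _ _ _ σ
  rw [Fintype.card_fin, pow_zero, div_one, ContinuousMap.one_apply]
  have h1 : ∀ z : Fin 0 → V, gI (fun _ _ => True) σ z = 1 := by
    intro z
    rw [gI_eq (P := True) ⟨fun _ => trivial, fun _ a => a.elim0⟩, if_pos trivial]
  rw [Finset.sum_congr rfl fun z _ => h1 z]
  simp

theorem mom_mul {G H : C(KKset, ℝ)} (hG : Mom G) (hH : Mom H) : Mom (G * H) := by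
  obtain ⟨ι, _, _, R, h⟩ := hG
  obtain ⟨ι', _, _, R', h'⟩ := hH
  refine ⟨ι ⊕ ι', inferInstance, inferInstance, Sum.LiftRel R R', ?_⟩
  intro V _ _ _ σ
  rw [ContinuousMap.mul_apply, h V σ, h' V σ, gI_sum_mul, Fintype.card_sum, pow_add,
    div_mul_div_comm]

/-- Expectations close to those for a uniform permutation. -/
def Close (d : ℕ) (G : C(KKset, ℝ)) : Prop :=
  ∃ C : ℝ, 0 < C ∧ ∀ (L : ℕ) [NeZero L], 2 ≤ L → ∀ t : ℝ, 1 ≤ t →
    |expect d L t (fun σ => G (pt σ)) - unifE (fun σ : Equiv.Perm (Fin d → ZMod L) => G (pt σ))| ≤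
      C * (L * Real.sqrt (bet d L t / t))

theorem close_of_mom {d : ℕ} (hd : 1 ≤ d) {G : C(KKset, ℝ)} (hG : Mom G) : Close d G := by
  obtain ⟨ι, _, _, R, h⟩ := hG
  obtain ⟨C, hC, hc⟩ := group_close hd ι
  refine ⟨C, hC, ?_⟩
  intro L _ hL t ht
  have hn : (0 : ℝ) < Fintype.card (Fin d → ZMod L) := by exact_mod_cast Fintype.card_pos
  set N : ℝ := (Fintype.card (Fin d → ZMod L) : ℝ) ^ Fintype.card ι with hN
  have hN0 : 0 < N := by positivity
  have e0 : ∀ σ : Equiv.Perm (Fin d → ZMod L), G (pt σ) =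
      N⁻¹ * ∑ z : ι → (Fin d → ZMod L), gI R σ z := by
    intro σ
    rw [h _ σ, div_eq_inv_mul]
  simp only [e0]
  rw [expect_smul, unifE_smul, expect_sum, unifE_sum, ← mul_sub, ← Finset.sum_sub_distrib, abs_mul,
    abs_of_pos (by positivity : (0 : ℝ) < N⁻¹)]
  have h1 : |∑ z : ι → (Fin d → ZMod L), (expect d L t (fun σ => gI R σ z) -
      unifE (fun σ => gI R σ z))| ≤ N * (C * (L * Real.sqrt (bet d L t / t))) := by
    refine (Finset.abs_sum_le_sum_abs _ _).trans ?_
    refine (Finset.sum_le_sum fun z _ => hc L hL t ht R z).trans (le_of_eq ?_)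
    rw [Finset.sum_const, Finset.card_univ, Fintype.card_fun, nsmul_eq_mul, hN]
    push_cast
    rfl
  calc N⁻¹ * |∑ z : ι → (Fin d → ZMod L), (expect d L t (fun σ => gI R σ z) -
      unifE (fun σ => gI R σ z))| ≤ N⁻¹ * (N * (C * (L * Real.sqrt (bet d L t / t)))) :=
        mul_le_mul_of_nonneg_left h1 (by positivity)
    _ = _ := by field_simp

theorem close_add {d : ℕ} {G H : C(KKset, ℝ)} (hG : Close d G) (hH : Close d H) :
    Close d (G + H) := by
  obtain ⟨C, hC, hc⟩ := hG
  obtain ⟨C', hC', hc'⟩ := hH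
  refine ⟨C + C', by positivity, ?_⟩
  intro L _ hL t ht
  have e1 : ∀ σ : Equiv.Perm (Fin d → ZMod L), (G + H) (pt σ) = G (pt σ) + H (pt σ) := fun σ => rfl
  simp only [e1]
  rw [expect_add, unifE_add]
  have h1 := hc L hL t ht
  have h2 := hc' L hL t ht
  have h3 := abs_add_le
    (expect d L t (fun σ => G (pt σ)) - unifE (fun σ : Equiv.Perm (Fin d → ZMod L) => G (pt σ)))
    (expect d L t (fun σ => H (pt σ)) - unifE (fun σ : Equiv.Perm (Fin d → ZMod L) => H (pt σ)))
  calc |expect d L t (fun σ => G (pt σ)) + expect d L t (fun σ => H (pt σ)) -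
        (unifE (fun σ : Equiv.Perm (Fin d → ZMod L) => G (pt σ)) +
          unifE (fun σ : Equiv.Perm (Fin d → ZMod L) => H (pt σ)))| =
      |(expect d L t (fun σ => G (pt σ)) -
          unifE (fun σ : Equiv.Perm (Fin d → ZMod L) => G (pt σ))) +
        (expect d L t (fun σ => H (pt σ)) -
          unifE (fun σ : Equiv.Perm (Fin d → ZMod L) => H (pt σ)))| := by congr 1; ring
    _ ≤ _ := h3
    _ ≤ _ := by rw [add_mul]; exact add_le_add h1 h2

theorem close_smul {d : ℕ} (a : ℝ) {G : C(KKset, ℝ)} (hG : Close d G) : Close d (a • G) := by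
  obtain ⟨C, hC, hc⟩ := hG
  refine ⟨|a| * C + C, by positivity, ?_⟩
  intro L _ hL t ht
  have e1 : ∀ σ : Equiv.Perm (Fin d → ZMod L), (a • G) (pt σ) = a * G (pt σ) := fun σ => rfl
  simp only [e1]
  rw [expect_smul, unifE_smul, ← mul_sub, abs_mul]
  have h1 := hc L hL t ht
  have h0 : 0 ≤ L * Real.sqrt (bet d L t / t) := by positivity
  calc |a| * |expect d L t (fun σ => G (pt σ)) -
        unifE (fun σ : Equiv.Perm (Fin d → ZMod L) => G (pt σ))| ≤
      |a| * (C * (L * Real.sqrt (bet d L t / t))) := mul_le_mul_of_nonneg_left h1 (abs_nonneg _)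
    _ ≤ _ := by nlinarith [mul_nonneg hC.le h0]

theorem close_zero {d : ℕ} : Close d 0 := by
  refine ⟨1, one_pos, ?_⟩
  intro L _ hL t ht
  have e1 : ∀ σ : Equiv.Perm (Fin d → ZMod L), (0 : C(KKset, ℝ)) (pt σ) = 0 := fun σ => rfl
  simp only [e1]
  rw [expect_const, unifE_const, sub_self, abs_zero]
  positivity

theorem close_adjoin {d : ℕ} (hd : 1 ≤ d) {G : C(KKset, ℝ)}
    (hG : G ∈ Algebra.adjoin ℝ (Set.range powS)) : Close d G := by
  rw [← Subalgebra.mem_toSubmodule, Algebra.adjoin_eq_span] at hG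
  induction hG using Submodule.span_induction with
  | mem G hG =>
    refine close_of_mom hd ?_
    induction hG using Submonoid.closure_induction with
    | mem G h =>
      obtain ⟨k, rfl⟩ := h
      exact mom_powS k
    | one => exact mom_one
    | mul G H _ _ h1 h2 => exact mom_mul h1 h2
  | zero => exact close_zero
  | add G H _ _ h1 h2 => exact close_add h1 h2
  | smul a G _ h => exact close_smul a h

theorem expect_abs_le {d L : ℕ} [NeZero L] {t : ℝ} (ht : 0 ≤ t)
    {f : Equiv.Perm (Fin d → ZMod L) → ℝ} {c : ℝ} (h : ∀ σ, |f σ| ≤ c) :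
    |expect d L t f| ≤ c := by
  rw [abs_le]
  constructor
  · rw [← expect_const (d := d) (L := L) t (-c)]
    exact expect_mono ht fun σ => (abs_le.mp (h σ)).1
  · rw [← expect_const (d := d) (L := L) t c]
    exact expect_mono ht fun σ => (abs_le.mp (h σ)).2

/-- The law of the long cycles compared with that of a uniform permutation. -/
theorem long_cycles_close {d : ℕ} (hd : 1 ≤ d) (F : C(KKset, ℝ)) {δ : ℝ} (hδ : 0 < δ) :
    ∃ K : ℝ, 0 < K ∧ ∀ (L : ℕ) [NeZero L], 3 ≤ L → ∀ t : ℝ, 1 ≤ t →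
      K * (L : ℝ) ^ 4 ≤ t ^ (d + 2) →
      |expect d L t (fun σ => F (pt σ)) -
        unifE (fun σ : Equiv.Perm (Fin d → ZMod L) => F (pt σ))| ≤ δ := by
  obtain ⟨G, hG, hFG⟩ := approx_powS F (ε := δ / 3) (by positivity)
  obtain ⟨C, hC, hc⟩ := close_adjoin hd hG
  obtain ⟨K, hK, hk⟩ := macro_arith' (d := d) hd hC (by positivity : 0 < δ / 3)
  refine ⟨K, hK, ?_⟩
  intro L _ hL t ht h
  have h1 := hc L (by omega) t ht
  have h2 := hk L hL t ht h
  have e1 : expect d L t (fun σ => F (pt σ)) =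
      expect d L t (fun σ => G (pt σ)) + expect d L t (fun σ => F (pt σ) - G (pt σ)) := by
    rw [← expect_add]
    congr 1
    funext σ
    ring
  have e2 : unifE (fun σ : Equiv.Perm (Fin d → ZMod L) => F (pt σ)) =
      unifE (fun σ : Equiv.Perm (Fin d → ZMod L) => G (pt σ)) +
        unifE (fun σ : Equiv.Perm (Fin d → ZMod L) => F (pt σ) - G (pt σ)) := by
    rw [← unifE_add]
    congr 1
    funext σ
    ring
  have h3 : |expect d L t (fun σ => F (pt σ) - G (pt σ))| ≤ δ / 3 :=
    expect_abs_le (by linarith) fun σ => (hFG _).le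
  have h4 : |unifE (fun σ : Equiv.Perm (Fin d → ZMod L) => F (pt σ) - G (pt σ))| ≤ δ / 3 :=
    unifE_abs_le fun σ => (hFG _).le
  rw [e1, e2]
  rw [abs_le] at h1 h3 h4 ⊢
  constructor <;> linarith [h1.1, h1.2, h3.1, h3.2, h4.1, h4.2]

end Pool.Agent.Stirring
end
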