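import Pool.Agent.Lib.MP_6c3d62_pr.Mg.G060
import Pool.Agent.Lib.MP_6c3d62_pr.Mg.G094
import Pool.Agent.Lib.MP_6c3d62_pr.Mg.G062
import Pool.Agent.Lib.MP_6c3d62_pr.HC.A9
import Pool.Agent.Lib.MP_6c3d62_pr.Mg.G061

section

section

/-! Hidden coins, local version of A7: no `log L`, all subsets of the windows. -/

open Finset

set_option linter.unusedSectionVars false

namespace Pool.Agent.Stirring.HC

variable {d L : ℕ} [NeZero L]

/-- One slab without shift, for all subsets of the windows. -/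
theorem base' (hd : 1 ≤ d) {b r : ℕ} {h₀ : ℝ} (hb1 : 1 ≤ b) (hb : 8 * b ≤ r) (hr : 2 * r ≤ L)
    (hh : (r : ℝ) ≤ 8 * h₀) (hlog : 128 * h₀ * Real.log (16 * d * (b : ℝ) ^ d) ≤ (r : ℝ) ^ 2)
    (hbig : 1024 * 12 ^ d * (d : ℝ) ^ 2 * (b : ℝ) ^ 2 * ((b : ℝ) ^ d) ^ 3 *
      Real.log ((r : ℝ) ^ d) ≤ h₀) :
    ∃ h : ℝ, h₀ / 2 ≤ h ∧ h ≤ h₀ ∧ ∃ u : Fin d → ℕ, (∀ j, u j + b ≤ r) ∧
      DecP (wnd (L := L) u b) univ (cors d L r).toList (((L / r : ℕ) : ℝ) ^ d / 2)
        (fun _ F => Hier.sg (QK.tr d L) h F 1) := by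
  have hr8 : 8 ≤ r := by omega
  have hL2 : 2 ≤ L := by omega
  have hh0 : 0 < h₀ := by
    have : (8 : ℝ) ≤ r := by exact_mod_cast hr8
    linarith
  set c := QK.tr d L with hc
  have hc0 : ∀ p, 0 ≤ c p := tr_nonneg
  have htot : 0 < Hier.tot c := tot_tr_pos hd
  set cs := (cors d L r).toList with hcsdef
  have hcs : cs.Nodup := Finset.nodup_toList _
  have hcol : ∀ i z, cor (d := d) (L := L) r z = some i → i ∈ cs := fun i z h =>
    Finset.mem_toList.mpr (cor_mem h)
  -- numbers
  set N : ℝ := (b : ℝ) ^ d with hN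
  have hN1 : 1 ≤ N := one_le_pow₀ (by exact_mod_cast hb1)
  set K : ℝ := ((L / r : ℕ) : ℝ) ^ d with hK
  have hK1 : 1 ≤ K := by
    refine one_le_pow₀ ?_
    have : 1 ≤ L / r := by
      rw [Nat.le_div_iff_mul_le (by omega)]
      omega
    exact_mod_cast this
  set a : ℝ := ((r / 4 : ℕ) : ℝ) ^ d with ha
  have ha1 : 1 ≤ a := by
    refine one_le_pow₀ ?_
    have : 1 ≤ r / 4 := by omega
    exact_mod_cast this
  have hcardV : (Fintype.card (Fin d → ZMod L) : ℝ) = (L : ℝ) ^ d := by
    rw [Fintype.card_fun, ZMod.card, Fintype.card_fin]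
    push_cast
    rfl
  set n : ℝ := (L : ℝ) ^ d with hn
  have hn2 : 2 ≤ n := by
    calc (2 : ℝ) = 2 ^ 1 := by norm_num
      _ ≤ 2 ^ d := pow_le_pow_right₀ (by norm_num) hd
      _ ≤ (L : ℝ) ^ d := pow_le_pow_left₀ (by norm_num) (by exact_mod_cast hL2) d
  set lr : ℝ := Real.log ((r : ℝ) ^ d) with hlr
  have hr8' : (8 : ℝ) ≤ r := by exact_mod_cast hr8
  have hrd : (8 : ℝ) ≤ (r : ℝ) ^ d := by
    calc (8 : ℝ) ≤ r := hr8'
      _ = (r : ℝ) ^ 1 := (pow_one _).symm
      _ ≤ (r : ℝ) ^ d := pow_le_pow_right₀ (by linarith) hd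
  have hlogn : 0 < lr := Real.log_pos (by linarith)
  have hncard : n ≤ 12 ^ d * K * a := card_torus hr8 hr
  set B : ℝ := n * lr with hB
  have hBpos : 0 < B := by positivity
  obtain ⟨M, h, h1, h2, h3, h4⟩ := choose_time' (κ₀ := cor (d := d) (L := L) r) hcs hcol hc0 htot
    (K := (r : ℝ) ^ d) (by linarith)
    (fun i => by exact_mod_cast cls_cor_card (d := d) (L := L) (r := r) (by omega) i) hh0
    (δ := min (1 / 8) (2 * B / h₀)) (lt_min (by norm_num) (by positivity))
  rw [hcardV] at h3
  have hhpos : 0 < h := by linarith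
  have hδ1 : min (1 / 8) (2 * B / h₀) ≤ 1 / 8 := min_le_left _ _
  have hδ2 : min (1 / 8) (2 * B / h₀) ≤ 2 * B / h₀ := min_le_right _ _
  have h0 := inv_st0 (V := Fin d → ZMod L) (I := Fin d → ZMod L) (cor r)
  set S0 : St (Fin d → ZMod L) (Fin d → ZMod L) := st0 (cor r) with hS0
  set f : (Fin d → ZMod L) → ℝ := fun z =>
    ∑ n ∈ range M, pw c h n * WW c n (fun s => rough s z) S0 with hf
  have hf0 : ∀ z, 0 ≤ f z := fun z => Finset.sum_nonneg fun n _ =>
    mul_nonneg (pw_nonneg hc0 hhpos.le n) (WW_nonneg hc0 (fun s _ => rough_nonneg s z) n h0)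
  obtain ⟨u, hu1, hu2, hu3⟩ := exists_offset (d := d) (L := L) (b := b) hr8 hb hf0
  have hub : ∀ j, u j + b ≤ r := fun j => by have := hu2 j; omega
  refine ⟨h, h1, h2, u, hub, ?_⟩
  have hbL : b ≤ L := by omega
  have hdec := decP_sg (W := wnd (L := L) u b) (κ₀ := cor r) (G := gd (wnd u b) (errw u b) cs)
    hcs hcol hc0 hhpos.le (fun s hs => decP_val hs (fun i hi σ hσ => errw_spec hbL s i hi σ hσ) hcs) M
  refine hdec.congr (fun P F => rfl) ?_
  -- the sum of the roughness
  have hfsum : ∑ z, f z ≤ 4 * B / h₀ := by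
    have h5 : ∑ z, f z = ∑ n ∈ range M, pw c h n * WW c n (fun s => ∑ p, c p * dd s p) S0 := by
      rw [hf]
      show ∑ z, ∑ n ∈ range M, pw c h n * WW c n (fun s => rough s z) S0 = _
      rw [Finset.sum_comm]
      refine Finset.sum_congr rfl fun n _ => ?_
      rw [← Finset.mul_sum, ← WW_sum]
      congr 2
      funext s
      rw [hc, sum_tr]
      rfl
    rw [h5]
    refine h3.trans ?_
    have : 4 * B / h₀ = 2 * B / h₀ + 2 * B / h₀ := by ring
    rw [this]
    linarith
  -- the displacement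
  have hdisp : ∀ x ∈ cors d L r, ∀ z ∈ wnd u b x,
      ∑ n ∈ range M, pw c h n * WW c n (fun s => badc x (s.κ z)) S0 ≤ 1 / (8 * N) := by
    intro x hx z hz
    set F : Equiv.Perm (Fin d → ZMod L) → ℝ := fun σ => if cor r (σ z) = some x then 0 else 1
      with hF
    have hF0 : ∀ σ, 0 ≤ F σ := fun σ => by
      rw [hF]; show 0 ≤ (if cor r (σ z) = some x then (0 : ℝ) else 1)
      split_ifs <;> norm_num
    have h5 : ∑ n ∈ range M, pw c h n * WW c n (fun s => badc x (s.κ z)) S0 =
        ∑ n ∈ range M, pw c h n * ((lz c)^[n] F) 1 := by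
      refine Finset.sum_congr rfl fun n _ => ?_
      congr 1
      have h6 := val_WW h0 hcs hcol c F n
      rw [val_st0] at h6
      rw [h6]
      refine le_antisymm (WW_mono hc0 (fun s hs => ?_) n h0) (WW_mono hc0 (fun s hs => ?_) n h0)
      · exact (val_col hs cs z (badc x)).ge
      · exact (val_col hs cs z (badc x)).le
    rw [h5]
    obtain ⟨bt, hbt, hsg, _⟩ := sg_tail hc0 hhpos.le M
    have h6 := hsg F
    have h7 : 0 ≤ ∑ π, bt π * F π := Finset.sum_nonneg fun π _ => mul_nonneg (hbt π) (hF0 π)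
    have h8 := disp hL2 hr8 hu1 hu2 hb hx hz hhpos (by linarith)
    have h9 : 2 * d * Real.exp (-((r : ℝ) ^ 2 / (128 * h))) ≤ 1 / (8 * N) := by
      have hdN : 0 < 16 * (d : ℝ) * N := by
        have : (1 : ℝ) ≤ d := by exact_mod_cast hd
        positivity
      have h10 : Real.log (16 * d * N) ≤ (r : ℝ) ^ 2 / (128 * h) := by
        rw [le_div_iff₀ (by positivity)]
        have h11 : 0 ≤ Real.log (16 * d * N) := by
          refine Real.log_nonneg ?_
          have : (1 : ℝ) ≤ d := by exact_mod_cast hd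
          nlinarith
        calc Real.log (16 * d * N) * (128 * h) ≤ Real.log (16 * d * N) * (128 * h₀) :=
              mul_le_mul_of_nonneg_left (by linarith) h11
          _ = 128 * h₀ * Real.log (16 * d * N) := by ring
          _ ≤ _ := hlog
      have h12 : Real.exp (-((r : ℝ) ^ 2 / (128 * h))) ≤ 1 / (16 * d * N) := by
        calc Real.exp (-((r : ℝ) ^ 2 / (128 * h))) ≤ Real.exp (-Real.log (16 * d * N)) :=
              Real.exp_le_exp.mpr (by linarith)
          _ = 1 / (16 * d * N) := by rw [Real.exp_neg, Real.exp_log hdN, one_div]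
      have hd0 : (0 : ℝ) < d := by exact_mod_cast (by omega : 0 < d)
      calc 2 * d * Real.exp (-((r : ℝ) ^ 2 / (128 * h))) ≤ 2 * d * (1 / (16 * d * N)) :=
            mul_le_mul_of_nonneg_left h12 (by positivity)
        _ = 1 / (8 * N) := by field_simp; norm_num
    linarith
  -- lower bound
  have hcardcors : ((cors d L r).card : ℝ) = K := by
    rw [card_cors (by omega)]; push_cast; rfl
  have hwcard : ∀ x, ((wnd (L := L) u b x).card : ℝ) = N := by
    intro x
    unfold wnd
    rw [box_card hbL]; push_cast; rfl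
  set A : ℝ := 32 * (d : ℝ) ^ 2 * (b : ℝ) ^ 2 * N ^ 2 with hA
  have hlow : ∀ n, WW c n (gd (wnd u b) (errw u b) cs) S0 ≥
      7 / 8 * K * Hier.tot c ^ n -
        ∑ x ∈ cors d L r, ∑ z ∈ wnd u b x, WW c n (fun s => badc x (s.κ z)) S0 -
        A * ∑ x ∈ cors d L r, ∑ z ∈ wnd u b x, WW c n (fun s => rough s z) S0 := by
    intro n
    have h5 : WW c n (fun s => 7 / 8 * K) S0 ≤ WW c n (fun s => (gd (wnd u b) (errw u b) cs s +
        ∑ x ∈ cors d L r, ∑ z ∈ wnd u b x, badc x (s.κ z)) +
        A * ∑ x ∈ cors d L r, ∑ z ∈ wnd u b x, rough s z) S0 := by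
      refine WW_mono hc0 (fun s _ => ?_) n h0
      have h6 : gd (wnd u b) (errw u b) cs s = ∑ x ∈ cors d L r,
          if wnd u b x ⊆ cls s.κ x then 1 - 2 * errw u b s x else 0 := by
        unfold gd
        rw [hcsdef, Finset.sum_map_toList]
      rw [h6, Finset.mul_sum, ← Finset.sum_add_distrib, ← Finset.sum_add_distrib, ← hcardcors,
        mul_comm, ← nsmul_eq_mul, ← Finset.sum_const]
      refine Finset.sum_le_sum fun x _ => ?_
      have := unit_low (u := u) (b := b) s x
      linarith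
    rw [WW_const, WW_add, WW_add, WW_smul, WW_sum, WW_sum] at h5
    have h7 : ∀ x ∈ cors d L r, WW c n (fun s => ∑ z ∈ wnd u b x, badc x (s.κ z)) S0 =
        ∑ z ∈ wnd u b x, WW c n (fun s => badc x (s.κ z)) S0 := fun x _ => WW_sum _ _ _ _ _
    have h8 : ∀ x ∈ cors d L r, WW c n (fun s => ∑ z ∈ wnd u b x, rough s z) S0 =
        ∑ z ∈ wnd u b x, WW c n (fun s => rough s z) S0 := fun x _ => WW_sum _ _ _ _ _
    rw [Finset.sum_congr rfl h7, Finset.sum_congr rfl h8] at h5
    linarith
  have hsum : ∑ n ∈ range M, pw c h n * WW c n (gd (wnd u b) (errw u b) cs) S0 ≥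
      7 / 8 * K * ∑ n ∈ range M, pw c h n * Hier.tot c ^ n -
        ∑ x ∈ cors d L r, ∑ z ∈ wnd u b x,
          ∑ n ∈ range M, pw c h n * WW c n (fun s => badc x (s.κ z)) S0 -
        A * ∑ x ∈ cors d L r, ∑ z ∈ wnd u b x, f z := by
    have h5 : ∀ n ∈ range M, pw c h n * (7 / 8 * K * Hier.tot c ^ n -
        ∑ x ∈ cors d L r, ∑ z ∈ wnd u b x, WW c n (fun s => badc x (s.κ z)) S0 -
        A * ∑ x ∈ cors d L r, ∑ z ∈ wnd u b x, WW c n (fun s => rough s z) S0) ≤
        pw c h n * WW c n (gd (wnd u b) (errw u b) cs) S0 := fun n _ =>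
      mul_le_mul_of_nonneg_left (hlow n) (pw_nonneg hc0 hhpos.le n)
    refine le_trans (le_of_eq ?_) (Finset.sum_le_sum h5)
    have h6 : ∑ x ∈ cors d L r, ∑ z ∈ wnd u b x,
          ∑ n ∈ range M, pw c h n * WW c n (fun s => badc x (s.κ z)) S0 =
        ∑ n ∈ range M, pw c h n * ∑ x ∈ cors d L r, ∑ z ∈ wnd u b x,
          WW c n (fun s => badc x (s.κ z)) S0 := by
      simp only [Finset.mul_sum]
      rw [Finset.sum_comm]
      rw [Finset.sum_congr rfl fun n _ => Finset.sum_comm]
    have h7 : ∑ x ∈ cors d L r, ∑ z ∈ wnd u b x, f z =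
        ∑ n ∈ range M, pw c h n * ∑ x ∈ cors d L r, ∑ z ∈ wnd u b x,
          WW c n (fun s => rough s z) S0 := by
      simp only [Finset.mul_sum, hf]
      rw [Finset.sum_comm]
      rw [Finset.sum_congr rfl fun n _ => Finset.sum_comm]
    rw [h6, h7, Finset.mul_sum, Finset.mul_sum, ← Finset.sum_sub_distrib, ← Finset.sum_sub_distrib]
    exact Finset.sum_congr rfl fun n _ => by ring
  have hbadsum : ∑ x ∈ cors d L r, ∑ z ∈ wnd u b x,
      ∑ n ∈ range M, pw c h n * WW c n (fun s => badc x (s.κ z)) S0 ≤ K / 8 := by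
    calc _ ≤ ∑ x ∈ cors d L r, ∑ z ∈ wnd u b x, 1 / (8 * N) :=
          Finset.sum_le_sum fun x hx => Finset.sum_le_sum fun z hz => hdisp x hx z hz
      _ = ∑ x ∈ cors d L r, (1 / 8 : ℝ) := by
          refine Finset.sum_congr rfl fun x _ => ?_
          rw [Finset.sum_const, nsmul_eq_mul, hwcard]
          field_simp
      _ = K / 8 := by rw [Finset.sum_const, nsmul_eq_mul, hcardcors]; ring
  have hroughsum : A * ∑ x ∈ cors d L r, ∑ z ∈ wnd u b x, f z ≤ K / 8 := by
    have h5 : ∑ x ∈ cors d L r, ∑ z ∈ wnd u b x, f z ≤ N * (4 * B / h₀) / a := by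
      rw [le_div_iff₀ (by positivity), mul_comm]
      exact hu3.trans (mul_le_mul_of_nonneg_left hfsum (by positivity))
    calc A * ∑ x ∈ cors d L r, ∑ z ∈ wnd u b x, f z ≤ A * (N * (4 * B / h₀) / a) :=
          mul_le_mul_of_nonneg_left h5 (by positivity)
      _ ≤ A * (N * (4 * ((12 ^ d * K * a) * lr) / h₀) / a) := by
          have : B ≤ (12 ^ d * K * a) * lr :=
            mul_le_mul_of_nonneg_right hncard hlogn.le
          gcongr
      _ = K / 8 * ((1024 * 12 ^ d * (d : ℝ) ^ 2 * (b : ℝ) ^ 2 * N ^ 3 * lr) / h₀) := by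
          rw [hA]
          field_simp
          ring
      _ ≤ K / 8 * 1 := by
          refine mul_le_mul_of_nonneg_left ?_ (by positivity)
          rw [div_le_one hh0]
          exact hbig
      _ = K / 8 := mul_one _
  have h5 : 7 / 8 * K * (7 / 8) ≤ 7 / 8 * K * ∑ n ∈ range M, pw c h n * Hier.tot c ^ n :=
    mul_le_mul_of_nonneg_left (by linarith) (by positivity)
  have h6 := hsum
  linarith

end Pool.Agent.Stirring.HC
end

section

/-! LOCAL version, 6iii: near points are moved apart. -/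

set_option autoImplicit false
set_option linter.unusedSectionVars false

open Finset Equiv

namespace Pool.Agent.Stirring.LC

open Pool.Agent.Stirring QK

section

variable {d L : ℕ} [NeZero L]

/-- Translation invariance of the law of a pattern. -/
theorem patP_add {ι : Type*} [Fintype ι] [DecidableEq ι] (t : ℝ) (a : Fin d → ZMod L)
    (z : ι → (Fin d → ZMod L)) (τ : Equiv.Perm ι) :
    expect d L t (fun σ => patI τ σ (fun i => z i + a)) = expect d L t (fun σ => patI τ σ z) := by
  rw [expect_trans t a (fun σ => patI τ σ (fun i => z i + a))]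
  congr 1
  funext σ
  have h1 : (fun i => z i + a) = fun i => trans d L a (z i) := by
    funext i
    simp [trans]
  rw [h1]
  unfold patI
  have h2 : Pat (trans d L a * σ * (trans d L a)⁻¹) (fun i => trans d L a (z i)) τ ↔ Pat σ z τ := by
    unfold Pat
    refine forall_congr' fun i => forall_congr' fun j => ?_
    rw [Equiv.Perm.sameCycle_conj]
    simp
  by_cases h : Pat σ z τ
  · rw [if_pos h, if_pos (h2.2 h)]
  · rw [if_neg h, if_neg (fun h' => h (h2.1 h'))]

theorem av_ge {z : ℤ} {n : ℕ} (h1 : n ≤ z.natAbs) (h2 : z.natAbs + n ≤ L) :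
    n ≤ av (z : ZMod L) := by
  unfold av
  have h3 : (((z : ZMod L).valMinAbs : ℤ) : ZMod L) = (z : ZMod L) := ZMod.coe_valMinAbs _
  have h4 : ((L : ℤ)) ∣ z - (z : ZMod L).valMinAbs := by
    rw [← ZMod.intCast_eq_intCast_iff_dvd_sub]
    exact h3
  obtain ⟨q, hq⟩ := h4
  set v := (z : ZMod L).valMinAbs with hv
  by_cases hq0 : q = 0
  · rw [hq0, mul_zero] at hq
    have : z = v := by omega
    rw [← this]
    exact h1
  · have h5 : (L : ℤ) ≤ |z - v| := by
      rw [hq, abs_mul, Nat.abs_cast]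
      have : 1 ≤ |q| := Int.one_le_abs hq0
      have hL : (0 : ℤ) ≤ L := by positivity
      nlinarith
    have h6 : |z - v| ≤ |z| + |v| := abs_sub z v
    have h7 : |z| = (z.natAbs : ℤ) := Int.abs_eq_natAbs z
    have h8 : |v| = (v.natAbs : ℤ) := Int.abs_eq_natAbs v
    omega

theorem nrm_single_ge (i0 : Fin d) {m m' n : ℕ} (h1 : m + n ≤ m') (h2 : m' + n ≤ L) :
    n ≤ nrm (red d L (Pi.single i0 (m' : ℤ)) - red d L (Pi.single i0 (m : ℤ))) := by
  refine le_trans ?_ (av_le_nrm _ i0)
  have h3 : (red d L (Pi.single i0 (m' : ℤ)) - red d L (Pi.single i0 (m : ℤ))) i0 =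
      (((m' : ℤ) - m : ℤ) : ZMod L) := by
    simp [red]
  rw [h3]
  refine av_ge ?_ ?_ <;> omega

theorem sum_abs_single' (m : Fin d) (n : ℕ) :
    ∑ i, |((Pi.single m (n : ℤ) : Fin d → ℤ) i : ℝ)| = n := by
  rw [Finset.sum_eq_single m]
  · simp
  · intro b _ hb; simp [Pi.single_eq_of_ne hb]
  · intro h; exact absurd (Finset.mem_univ _) h

/-- A free place on the line through a point. -/
theorem exists_place {ι : Type*} [Fintype ι] [DecidableEq ι] (i0 : Fin d) {B : ℕ} (hB : 1 ≤ B)
    (hL : 2 * B * Fintype.card ι ≤ L) (z : ι → (Fin d → ZMod L)) (i : ι) :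
    ∃ n : ℕ, n ≤ 2 * B * Fintype.card ι ∧
      ∀ j, j ≠ i → B ≤ nrm (z i + red d L (Pi.single i0 (n : ℤ)) - z j) := by
  classical
  by_contra hcon
  push Not at hcon
  have h1 : ∀ n : Fin (Fintype.card ι), ∃ j, j ≠ i ∧
      nrm (z i + red d L (Pi.single i0 (((2 * B * (n : ℕ) : ℕ)) : ℤ)) - z j) < B := by
    intro n
    obtain ⟨j, hj, h⟩ := hcon (2 * B * (n : ℕ)) (Nat.mul_le_mul_left _ n.2.le)
    exact ⟨j, hj, h⟩
  choose f hf1 hf2 using h1
  have hcard : ((Finset.univ : Finset ι).erase i).card < (Finset.univ : Finset (Fin (Fintype.card ι))).card := by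
    rw [Finset.card_erase_of_mem (Finset.mem_univ i), Finset.card_univ, Finset.card_univ,
      Fintype.card_fin]
    have : 0 < Fintype.card ι := Fintype.card_pos_iff.2 ⟨i⟩
    omega
  obtain ⟨n, _, m, _, hnm, hfe⟩ := Finset.exists_ne_map_eq_of_card_lt_of_maps_to hcard
    (f := f) (fun n _ => Finset.mem_erase.2 ⟨hf1 n, Finset.mem_univ _⟩)
  have key : ∀ n m : Fin (Fintype.card ι), (n : ℕ) < m → f n = f m → False := by
    intro n m hnm hfe
    have h2 := hf2 n
    have h3 := hf2 m
    rw [← hfe] at h3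
    have h4 : 2 * B ≤ nrm (red d L (Pi.single i0 (((2 * B * (m : ℕ) : ℕ)) : ℤ)) -
        red d L (Pi.single i0 (((2 * B * (n : ℕ) : ℕ)) : ℤ))) := by
      refine nrm_single_ge i0 ?_ ?_
      · have : (n : ℕ) + 1 ≤ m := hnm
        calc 2 * B * (n : ℕ) + 2 * B = 2 * B * ((n : ℕ) + 1) := by ring
          _ ≤ _ := Nat.mul_le_mul_left _ this
      · have : (m : ℕ) + 1 ≤ Fintype.card ι := m.2
        calc 2 * B * (m : ℕ) + 2 * B = 2 * B * ((m : ℕ) + 1) := by ring
          _ ≤ _ := (Nat.mul_le_mul_left _ this).trans hL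
    have h5 : red d L (Pi.single i0 (((2 * B * (m : ℕ) : ℕ)) : ℤ)) -
        red d L (Pi.single i0 (((2 * B * (n : ℕ) : ℕ)) : ℤ)) =
        (z i + red d L (Pi.single i0 (((2 * B * (m : ℕ) : ℕ)) : ℤ)) - z (f n)) +
        -(z i + red d L (Pi.single i0 (((2 * B * (n : ℕ) : ℕ)) : ℤ)) - z (f n)) := by abel
    rw [h5] at h4
    have h6 := nrm_add (z i + red d L (Pi.single i0 (((2 * B * (m : ℕ) : ℕ)) : ℤ)) - z (f n))
      (-(z i + red d L (Pi.single i0 (((2 * B * (n : ℕ) : ℕ)) : ℤ)) - z (f n)))
    rw [nrm_neg (z i + red d L (Pi.single i0 (((2 * B * (n : ℕ) : ℕ)) : ℤ)) - z (f n))] at h6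
    omega
  rcases lt_or_gt_of_ne (fun h : (n : ℕ) = m => hnm (Fin.ext h)) with h | h
  · exact key n m h hfe
  · exact key m n h hfe.symm

end

/-- Near points are moved apart, along the direction `i0`, by at most `2 B k` each. -/
theorem move_apart {d : ℕ} (hd : 1 ≤ d) (ι : Type*) [Fintype ι] [DecidableEq ι] :
    ∃ c : ℝ, 0 ≤ c ∧ ∀ (L : ℕ) [NeZero L], 2 ≤ L → ∀ t : ℝ, 1 ≤ t → ∀ B : ℕ, 1 ≤ B →
      2 * B * Fintype.card ι ≤ L → ∀ (i0 : Fin d) (z : ι → (Fin d → ZMod L)), Function.Injective z →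
      ∃ z' : ι → (Fin d → ZMod L), Function.Injective z' ∧
        (∀ i, ∃ n : ℕ, n ≤ 2 * B * Fintype.card ι ∧
          z' i = z i + red d L (Pi.single i0 (n : ℤ))) ∧
        (∀ i j, i ≠ j → B ≤ nrm (z' i - z' j)) ∧
        ∀ τ : Equiv.Perm ι, |expect d L t (fun σ => patI τ σ z) -
          expect d L t (fun σ => patI τ σ z')| ≤ c * B * Real.sqrt (bet d L t / t) := by
  classical
  by_cases hι : IsEmpty ι
  · refine ⟨0, le_rfl, ?_⟩
    intro L _ _ t _ B _ _ i0 z hz
    refine ⟨z, hz, fun i => (hι.false i).elim, fun i => (hι.false i).elim, fun τ => ?_⟩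
    rw [sub_self, abs_zero, zero_mul, zero_mul]
  rw [not_isEmpty_iff] at hι
  obtain ⟨c, hc0, hc⟩ := rk_pat (ι := ι) hd
  set K : ℝ := (Fintype.card ι : ℝ) with hK
  have hK0 : 0 ≤ K := by rw [hK]; positivity
  refine ⟨K * (c * (2 * K)), by positivity, ?_⟩
  intro L _ hL t ht B hB hBL i0 z hz
  set s := Real.sqrt (bet d L t / t) with hs
  have hs0 : 0 ≤ s := Real.sqrt_nonneg _
  have main : ∀ A : Finset ι, ∃ z' : ι → (Fin d → ZMod L), Function.Injective z' ∧
      (∀ i, i ∉ A → z' i = z i) ∧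
      (∀ i, ∃ n : ℕ, n ≤ 2 * B * Fintype.card ι ∧
          z' i = z i + red d L (Pi.single i0 (n : ℤ))) ∧
      (∀ i ∈ A, ∀ j, j ≠ i → B ≤ nrm (z' i - z' j)) ∧
      ∀ τ : Equiv.Perm ι, |expect d L t (fun σ => patI τ σ z) -
          expect d L t (fun σ => patI τ σ z')| ≤ A.card * (c * (2 * B * K) * s) := by
    intro A
    induction A using Finset.induction_on with
    | empty =>
      refine ⟨z, hz, fun i _ => rfl, fun i => ⟨0, Nat.zero_le _, ?_⟩, fun i hi => ?_, fun τ => ?_⟩
      · have : red d L (Pi.single i0 (((0 : ℕ)) : ℤ)) = 0 := by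
          ext j; simp [red]
        rw [this, add_zero]
      · exact absurd hi (Finset.notMem_empty _)
      · rw [sub_self, abs_zero, Finset.card_empty, Nat.cast_zero, zero_mul]
    | insert a A ha ih =>
      obtain ⟨z', h1, h2, h3, h4, h5⟩ := ih
      obtain ⟨n, hn1, hn2⟩ := exists_place (L := L) i0 hB hBL z' a
      set p := z' a + red d L (Pi.single i0 (n : ℤ)) with hp
      have hpne : ∀ j, j ≠ a → z' j ≠ p := by
        intro j hj h
        have h6 := hn2 j hj
        rw [h, sub_self] at h6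
        have h7 : nrm (0 : Fin d → ZMod L) = 0 := by
          unfold nrm
          rw [← Nat.le_zero]
          refine Finset.sup_le fun i _ => ?_
          simp
        omega
      set z'' : ι → (Fin d → ZMod L) := fun i => Equiv.swap (z' a) p (z' i) with hz''
      have e1 : z'' a = p := by simp only [hz'']; exact Equiv.swap_apply_left _ _
      have e2 : ∀ j, j ≠ a → z'' j = z' j := by
        intro j hj
        simp only [hz'']
        exact Equiv.swap_apply_of_ne_of_ne (fun h => hj (h1 h)) (hpne j hj)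
      refine ⟨z'', fun i j h => h1 ((Equiv.swap _ _).injective h), ?_, ?_, ?_, ?_⟩
      · intro i hi
        rw [Finset.mem_insert, not_or] at hi
        rw [e2 i hi.1]
        exact h2 i hi.2
      · intro i
        by_cases hia : i = a
        · subst hia
          exact ⟨n, hn1, by rw [e1, hp, h2 i ha]⟩
        · rw [e2 i hia]
          exact h3 i
      · intro i hi j hj
        by_cases hia : i = a
        · subst hia
          rw [e1, e2 j hj]
          exact hn2 j hj
        · rw [e2 i hia]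
          have hiA : i ∈ A := (Finset.mem_insert.1 hi).resolve_left hia
          by_cases hja : j = a
          · subst hja
            rw [e1, nrm_sub_comm]
            exact hn2 i hia
          · rw [e2 j hja]
            exact h4 i hiA j hj
      · intro τ
        have h6 := (hc τ L hL t ht).flat z' (z' a) (Pi.single i0 (n : ℤ))
        rw [sum_abs_single', ← hs] at h6
        have h7 : |expect d L t (fun σ => patI τ σ z') - expect d L t (fun σ => patI τ σ z'')| ≤
            c * (2 * B * K) * s := by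
          refine h6.trans (mul_le_mul_of_nonneg_right (mul_le_mul_of_nonneg_left ?_ hc0) hs0)
          rw [hK]
          exact_mod_cast hn1
        have h8 := abs_sub_le (expect d L t (fun σ => patI τ σ z))
          (expect d L t (fun σ => patI τ σ z')) (expect d L t (fun σ => patI τ σ z''))
        rw [Finset.card_insert_of_notMem ha]
        push_cast
        have h9 := h5 τ
        linarith
  obtain ⟨z', h1, _, h3, h4, h5⟩ := main Finset.univ
  refine ⟨z', h1, h3, fun i j hij => h4 i (Finset.mem_univ _) j (Ne.symm hij), fun τ => ?_⟩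
  refine (h5 τ).trans (le_of_eq ?_)
  rw [Finset.card_univ]
  ring

end Pool.Agent.Stirring.LC
end
end

section

/-! Hidden coins, local version of A8: one slab, any set of base points. -/

open Finset

set_option linter.unusedSectionVars false

namespace Pool.Agent.Stirring.HC

section Shift

variable {V : Type} [AddCommGroup V] [Fintype V] [DecidableEq V]

/-- One slab with a uniform shift, for all sets of base points. -/
theorem slab_of_decP {c : V × V → ℝ} (hc : ∀ s x y, c (s + x, s + y) = c (x, y)) {h : ℝ}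
    {Q : Finset V} {cs : List V} (hcs : cs.Nodup) (u : V) {W : V → Finset V}
    (hW : ∀ x z, z ∈ W x ↔ z - (x + u) ∈ Q)
    (hdis : ∀ x ∈ cs, ∀ y ∈ cs, ∀ z, z ∈ W x → z ∈ W y → x = y) {g : ℝ}
    (hD : DecP W univ cs g (fun _ F => Hier.sg c h F 1)) :
    ∃ (Ω : Type) (_ : Fintype Ω) (S : QK.Slab V Ω) (ν : Ω → V → Equiv.Perm V → ℝ),
      QK.SlabLaw c h S Q (cs.map (· + u)).toFinset ∧
      (∀ a, ∀ q ∈ S.good a, (∀ σ, 0 ≤ ν a q σ) ∧ ∑ σ, ν a q σ = 1 ∧
        (∀ σ, ν a q σ ≠ 0 → ∀ v, v - q ∉ Q → σ v = v) ∧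
        ∀ σ, ν a q σ ≤ 4 / (Q.card.factorial : ℝ)) ∧
      (∀ (D0 : Finset V) (F : Equiv.Perm V → V → ℝ),
        ∑ a, S.w a * El (ν a) ((S.good a).filter fun q => q ∈ D0).toList
          (fun π => F (S.T a * π) (S.sh a)) =
          Hier.sg c h (fun τ => (∑ s, F τ s) / Fintype.card V) 1) ∧
      ∀ z, g * Q.card / Fintype.card V ≤
        ∑ a, S.w a * (if QK.InWin Q (S.good a) z then 1 else 0) := by
  obtain ⟨Ξ, _, w, T, l, μ, h3, _, h5, h6, h8', h9⟩ := hD
  have h8 : ∀ (P : V → Bool) (F : Equiv.Perm V → ℝ), Hier.sg c h F 1 =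
      ∑ ξ, w ξ * El (μ ξ) ((l ξ).filter P) (fun π => F (T ξ * π)) := h8'
  have h7 : ∀ F : Equiv.Perm V → ℝ, Hier.sg c h F 1 = ∑ ξ, w ξ * F (T ξ) := by
    intro F
    rw [h8 (fun _ => false) F]
    refine Finset.sum_congr rfl fun ξ _ => ?_
    rw [List.filter_false]
    show w ξ * F (T ξ * 1) = _
    rw [mul_one]
  have hn : (0 : ℝ) < Fintype.card V := by
    have : 0 < Fintype.card V := Fintype.card_pos_iff.mpr ⟨0⟩
    exact_mod_cast this
  have hlnd : ∀ ξ, (l ξ).Nodup := fun ξ => hcs.sublist (h5 ξ)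
  have hQW : ∀ x, (W x).card = Q.card := by
    intro x
    refine Finset.card_bij (fun z _ => z - (x + u)) (fun z hz => (hW x z).mp hz) ?_ ?_
    · intro z _ z' _ h; exact sub_left_injective h
    · intro y hy
      exact ⟨y + (x + u), (hW x _).mpr (by simpa using hy), by simp⟩
  set gd' : Ξ × V → List V := fun a => (l a.1).map fun x => a.2 + (x + u) with hgd'
  have hgnd : ∀ a, (gd' a).Nodup := fun a =>
    (hlnd a.1).map fun x y hxy => by
      have := add_left_cancel hxy
      exact add_right_cancel this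
  set S : QK.Slab V (Ξ × V) :=
    { w := fun a => w a.1 / Fintype.card V
      T := fun a => trl a.2 * T a.1 * (trl a.2)⁻¹
      sh := fun a => a.2
      good := fun a => (gd' a).toFinset } with hS
  set ν : Ξ × V → V → Equiv.Perm V → ℝ := fun a q π =>
    μ a.1 (q - a.2 - u) ((trl a.2)⁻¹ * π * trl a.2) with hν
  have hlaw : ∀ F : Equiv.Perm V → V → ℝ, ∑ a, S.w a * F (S.T a) (S.sh a) =
      Hier.sg c h (fun τ => (∑ s, F τ s) / Fintype.card V) 1 := by
    intro F
    rw [sg_avg, Finset.sum_div, Fintype.sum_prod_type, Finset.sum_comm]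
    refine Finset.sum_congr rfl fun s _ => ?_
    rw [← sg_trl hc h s, h7, Finset.sum_div]
    exact Finset.sum_congr rfl fun ξ _ => by simp only [hS]; ring
  refine ⟨Ξ × V, inferInstance, S, ν, ?_, ?_, ?_, ?_⟩
  · refine ⟨fun a => div_nonneg (h3 _) hn.le, ?_, hlaw, ?_, ?_⟩
    · have h10 := hlaw (fun _ _ => 1)
      simp only [mul_one] at h10
      rw [h10]
      have h11 : (fun _ : Equiv.Perm V => (∑ _s : V, (1 : ℝ)) / Fintype.card V) = fun _ => 1 := by
        funext _
        simp
      rw [h11, Hier.sg_const]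
    · intro a q hq
      simp only [hS, hgd', List.mem_toFinset, List.mem_map] at hq
      obtain ⟨x, hx, rfl⟩ := hq
      rw [Finset.mem_image]
      refine ⟨x + u, ?_, rfl⟩
      rw [List.mem_toFinset, List.mem_map]
      exact ⟨x, (h5 _).subset hx, rfl⟩
    · intro s q hq q' hq' z hz hz'
      rw [Finset.mem_image] at hq hq'
      obtain ⟨x', hx', rfl⟩ := hq
      obtain ⟨y', hy', rfl⟩ := hq'
      rw [List.mem_toFinset, List.mem_map] at hx' hy'
      obtain ⟨x, hx, rfl⟩ := hx'
      obtain ⟨y, hy, rfl⟩ := hy'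
      have h10 : z - s ∈ W x := by
        rw [hW]
        have : z - s - (x + u) = z - (s + (x + u)) := by abel
        rw [this]; exact hz
      have h11 : z - s ∈ W y := by
        rw [hW]
        have : z - s - (y + u) = z - (s + (y + u)) := by abel
        rw [this]; exact hz'
      rw [hdis x hx y hy _ h10 h11]
  · intro a q hq
    simp only [hS, hgd', List.mem_toFinset, List.mem_map] at hq
    obtain ⟨x, hx, rfl⟩ := hq
    have h10 : a.2 + (x + u) - a.2 - u = x := by abel
    have h11 := h6 a.1 x hx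
    refine ⟨fun σ => h11.law.nn _ |> fun h => by simp only [hν, h10]; exact h, ?_, ?_, ?_⟩
    · simp only [hν, h10]
      rw [← h11.law.one]
      exact Equiv.sum_comp ((Equiv.mulLeft (trl a.2)⁻¹).trans (Equiv.mulRight (trl a.2))) (μ a.1 x)
    · intro σ hσ v hv
      simp only [hν, h10] at hσ
      have h12 : v - a.2 ∉ W x := by
        rw [hW]
        have : v - a.2 - (x + u) = v - (a.2 + (x + u)) := by abel
        rw [this]; exact hv
      have h13 := h11.supp _ hσ _ h12
      rw [Equiv.Perm.mul_apply, Equiv.Perm.mul_apply, trl_apply, trl_inv_apply] at h13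
      have h14 : a.2 + (v - a.2) = v := by abel
      rw [h14] at h13
      exact sub_left_injective h13
    · intro σ
      simp only [hν, h10]
      have := h11.le ((trl a.2)⁻¹ * σ * trl a.2)
      rwa [hQW] at this
  · intro D0 F
    rw [sg_avg, Finset.sum_div, Fintype.sum_prod_type, Finset.sum_comm]
    refine Finset.sum_congr rfl fun s _ => ?_
    rw [← sg_trl hc h s, h8 (fun x => decide (s + (x + u) ∈ D0)), Finset.sum_div]
    refine Finset.sum_congr rfl fun ξ _ => ?_
    have h10 : El (ν (ξ, s)) ((S.good (ξ, s)).filter fun q => q ∈ D0).toList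
        (fun π => F (S.T (ξ, s) * π) (S.sh (ξ, s))) =
        El (μ ξ) ((l ξ).filter fun x => decide (s + (x + u) ∈ D0))
          (fun π => F (trl s * (T ξ * π) * (trl s)⁻¹) s) := by
      set ll : List V := (l ξ).filter fun x => decide (s + (x + u) ∈ D0) with hll
      have hllsub : ∀ x ∈ ll, x ∈ l ξ := fun x hx => List.mem_of_mem_filter hx
      set gg : List V := ll.map fun x => s + (x + u) with hgg
      have hggnd : gg.Nodup := ((hlnd ξ).filter _).map fun x y hxy =>
        add_right_cancel (add_left_cancel hxy)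
      have hperm : ((S.good (ξ, s)).filter fun q => q ∈ D0).toList.Perm gg := by
        refine (List.perm_ext_iff_of_nodup (Finset.nodup_toList _) hggnd).mpr fun q => ?_
        rw [Finset.mem_toList, Finset.mem_filter]
        simp only [hS, hgd', hgg, hll, List.mem_toFinset, List.mem_map, List.mem_filter,
          decide_eq_true_eq]
        constructor
        · rintro ⟨⟨x, hx, rfl⟩, hq⟩
          exact ⟨x, ⟨hx, hq⟩, rfl⟩
        · rintro ⟨x, ⟨hx, hq⟩, rfl⟩
          exact ⟨⟨x, hx, rfl⟩, hq⟩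
      have hsupp : ∀ q ∈ gg, SuppIn (univ.filter fun v => v - q ∈ Q) (ν (ξ, s) q) := by
        intro q hq σ hσ v hv
        simp only [hgg, List.mem_map] at hq
        obtain ⟨x, hx, rfl⟩ := hq
        have h10 : s + (x + u) - s - u = x := by abel
        have h11 := h6 ξ x (hllsub x hx)
        simp only [hν, h10] at hσ
        have h12 : v - s ∉ W x := by
          rw [hW]
          have : v - s - (x + u) = v - (s + (x + u)) := by abel
          rw [this]
          simpa using hv
        have h13 := h11.supp _ hσ _ h12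
        rw [Equiv.Perm.mul_apply, Equiv.Perm.mul_apply, trl_apply, trl_inv_apply] at h13
        have h14 : s + (v - s) = v := by abel
        rw [h14] at h13
        exact sub_left_injective h13
      have hdd : ∀ q ∈ gg, ∀ q' ∈ gg, q ≠ q' →
          Disjoint (univ.filter fun v => v - q ∈ Q) (univ.filter fun v => v - q' ∈ Q) := by
        intro q hq q' hq' hne
        simp only [hgg, List.mem_map] at hq hq'
        obtain ⟨x, hx, rfl⟩ := hq
        obtain ⟨y, hy, rfl⟩ := hq'
        rw [Finset.disjoint_left]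
        intro z hz hz'
        simp only [Finset.mem_filter, Finset.mem_univ, true_and] at hz hz'
        have h10 : z - s ∈ W x := by
          rw [hW]
          have : z - s - (x + u) = z - (s + (x + u)) := by abel
          rw [this]; exact hz
        have h11 : z - s ∈ W y := by
          rw [hW]
          have : z - s - (y + u) = z - (s + (y + u)) := by abel
          rw [this]; exact hz'
        exact hne (by rw [hdis x ((h5 ξ).subset (hllsub x hx)) y
          ((h5 ξ).subset (hllsub y hy)) _ h10 h11])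
      rw [El_perm' (W := fun q => univ.filter fun v => v - q ∈ Q) (Finset.nodup_toList _)
        (fun q hq => hsupp q (hperm.mem_iff.mp hq))
        (fun q hq q' hq' => hdd q (hperm.mem_iff.mp hq) q' (hperm.mem_iff.mp hq')) hperm]
      simp only [hgg]
      rw [El_map]
      have h15 : ∀ x ∈ ll, ν (ξ, s) (s + (x + u)) = fun π =>
          μ ξ x ((trl s)⁻¹ * π * trl s) := by
        intro x _
        have h10 : s + (x + u) - s - u = x := by abel
        funext π
        simp only [hν, h10]
      rw [El_congr' h15, El_conj]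
      congr 1
      funext π
      simp only [hS]
      congr 1
      group
    rw [h10]
    simp only [hS]
    ring
  · intro z
    have h10 : ∀ ξ, ∑ s : V, (if QK.InWin Q (S.good (ξ, s)) z then (1 : ℝ) else 0) =
        (l ξ).length * Q.card := by
      intro ξ
      have h11 : ∀ s : V, (if QK.InWin Q (S.good (ξ, s)) z then (1 : ℝ) else 0) =
          ∑ x ∈ (l ξ).toFinset, if z - (s + (x + u)) ∈ Q then 1 else 0 := by
        intro s
        by_cases h12 : QK.InWin Q (S.good (ξ, s)) z
        · rw [if_pos h12]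
          obtain ⟨q, hq, hz⟩ := h12
          simp only [hS, hgd', List.mem_toFinset, List.mem_map] at hq
          obtain ⟨x, hx, rfl⟩ := hq
          rw [Finset.sum_eq_single x, if_pos hz]
          · intro y hy hne
            rw [if_neg]
            intro hz'
            refine hne (hdis y ((h5 ξ).subset (List.mem_toFinset.mp hy)) x ((h5 ξ).subset hx) (z - s)
              ?_ ?_)
            · rw [hW]
              have : z - s - (y + u) = z - (s + (y + u)) := by abel
              rw [this]; exact hz'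
            · rw [hW]
              have : z - s - (x + u) = z - (s + (x + u)) := by abel
              rw [this]; exact hz
          · intro h; exact absurd (List.mem_toFinset.mpr hx) h
        · rw [if_neg h12, Finset.sum_eq_zero]
          intro x hx
          rw [if_neg]
          intro hz
          refine h12 ⟨s + (x + u), ?_, hz⟩
          simp only [hS, hgd', List.mem_toFinset, List.mem_map]
          exact ⟨x, List.mem_toFinset.mp hx, rfl⟩
      simp only [h11]
      rw [Finset.sum_comm]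
      have h13 : ∀ x ∈ (l ξ).toFinset, ∑ s : V, (if z - (s + (x + u)) ∈ Q then (1 : ℝ) else 0) =
          Q.card := by
        intro x _
        rw [← Equiv.sum_comp (Equiv.subLeft (z - (x + u)))
          (fun s : V => if z - (s + (x + u)) ∈ Q then (1 : ℝ) else 0)]
        have h14 : ∀ s : V, z - ((Equiv.subLeft (z - (x + u))) s + (x + u)) = s := by
          intro s
          rw [Equiv.subLeft_apply]
          abel
        simp only [h14]
        rw [Finset.sum_ite_mem, Finset.univ_inter, Finset.sum_const, nsmul_eq_mul, mul_one]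
      rw [Finset.sum_congr rfl h13, Finset.sum_const, nsmul_eq_mul,
        List.toFinset_card_of_nodup (hlnd ξ)]
    have h11 : ∑ a, S.w a * (if QK.InWin Q (S.good a) z then (1 : ℝ) else 0) =
        (∑ ξ, w ξ * (l ξ).length) * Q.card / Fintype.card V := by
      rw [Fintype.sum_prod_type, Finset.sum_mul, Finset.sum_div]
      refine Finset.sum_congr rfl fun ξ _ => ?_
      have h12 := h10 ξ
      calc ∑ s, S.w (ξ, s) * (if QK.InWin Q (S.good (ξ, s)) z then (1 : ℝ) else 0)
          = w ξ / Fintype.card V *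
            ∑ s : V, (if QK.InWin Q (S.good (ξ, s)) z then (1 : ℝ) else 0) := by
            rw [Finset.mul_sum]
        _ = _ := by rw [h12]; ring
    rw [h11]
    have : (0 : ℝ) ≤ Q.card := Nat.cast_nonneg _
    gcongr

end Shift

end Pool.Agent.Stirring.HC
end

section

/-! Hidden coins, local version: no `log L`, any set of base points. -/

open Finset

set_option linter.unusedSectionVars false

namespace Pool.Agent.Stirring.HC

variable {d L : ℕ} [NeZero L]

/-- The slabs with the windows based in `D0` only. -/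
def restr {Ω : Type} (S : QK.Slab (Fin d → ZMod L) Ω) (D0 : Finset (Fin d → ZMod L)) :
    QK.Slab (Fin d → ZMod L) Ω where
  w := S.w
  T := S.T
  sh := S.sh
  good := fun a => (S.good a).filter fun q => q ∈ D0

theorem restr_law {Ω : Type} [Fintype Ω] {c : (Fin d → ZMod L) × (Fin d → ZMod L) → ℝ} {h : ℝ}
    {S : QK.Slab (Fin d → ZMod L) Ω} {Q Λ : Finset (Fin d → ZMod L)} (H : QK.SlabLaw c h S Q Λ)
    (D0 : Finset (Fin d → ZMod L)) : QK.SlabLaw c h (restr S D0) Q Λ where
  w_nonneg := H.w_nonneg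
  w_sum := H.w_sum
  law := H.law
  sub := fun a => (Finset.filter_subset _ _).trans (H.sub a)
  dis := H.dis

theorem restr_sub {Ω : Type} (S : QK.Slab (Fin d → ZMod L) Ω) (D0 : Finset (Fin d → ZMod L))
    (a : Ω) : (restr S D0).good a ⊆ D0 := fun _ hq => (Finset.mem_filter.mp hq).2

/-- **Hidden coins**, explicit form: the shuffles of the windows based outside `D0` may be left
out. -/
theorem hidden_coins_loc0 (hd : 1 ≤ d) {b r : ℕ} {h₀ : ℝ} (hb1 : 1 ≤ b) (hb : 8 * b ≤ r)
    (hr : 2 * r ≤ L) (hh : (r : ℝ) ≤ 8 * h₀)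
    (hlog : 128 * h₀ * Real.log (16 * d * (b : ℝ) ^ d) ≤ (r : ℝ) ^ 2)
    (hbig : 1024 * 12 ^ d * (d : ℝ) ^ 2 * (b : ℝ) ^ 2 * ((b : ℝ) ^ d) ^ 3 *
      Real.log ((r : ℝ) ^ d) ≤ h₀) :
    ∃ h : ℝ, h₀ / 2 ≤ h ∧ h ≤ h₀ ∧
      ∃ (Ω : Type) (_ : Fintype Ω) (S : QK.Slab (Fin d → ZMod L) Ω)
        (Λ : Finset (Fin d → ZMod L))
        (ν : Ω → (Fin d → ZMod L) → Equiv.Perm (Fin d → ZMod L) → ℝ),
        QK.SlabLaw (QK.tr d L) h S (QK.box d L b) Λ ∧ Λ.card = (L / r) ^ d ∧
        (∀ a, ∀ q ∈ S.good a, (∀ σ, 0 ≤ ν a q σ) ∧ ∑ σ, ν a q σ = 1 ∧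
          (∀ σ, ν a q σ ≠ 0 → ∀ v, v - q ∉ QK.box d L b → σ v = v) ∧
          ∀ σ, ν a q σ ≤ 4 / (((QK.box d L b).card).factorial : ℝ)) ∧
        (∀ (D0 : Finset (Fin d → ZMod L))
            (F : Equiv.Perm (Fin d → ZMod L) → (Fin d → ZMod L) → ℝ),
          ∑ a, (restr S D0).w a * El (ν a) ((restr S D0).good a).toList
            (fun π => F ((restr S D0).T a * π) ((restr S D0).sh a)) =
            Hier.sg (QK.tr d L) h
              (fun τ => (∑ s, F τ s) / Fintype.card (Fin d → ZMod L)) 1) ∧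
        ∀ (D0 : Finset (Fin d → ZMod L)) (z : Fin d → ZMod L),
          (∀ q, z - q ∈ QK.box d L b → q ∈ D0) →
          QK.dens (Fin d → ZMod L) (QK.box d L b) Λ / 2 ≤
            ∑ a, (restr S D0).w a *
              (if QK.InWin (QK.box d L b) ((restr S D0).good a) z then 1 else 0) := by
  have hbox : box (0 : Fin d → ZMod L) b = QK.box d L b := by
    unfold box QK.box
    congr 1
    funext c
    exact zero_add _
  obtain ⟨h, h1, h2, u, hu, hD⟩ := base' (L := L) hd hb1 hb hr hh hlog hbig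
  have hW : ∀ x z : Fin d → ZMod L, z ∈ wnd u b x ↔ z - (x + vec d L u) ∈ QK.box d L b :=
    fun x z => by rw [← hbox]; exact mem_box_iff
  obtain ⟨Ω, _, S, ν, h3, h4, h5, h6⟩ := slab_of_decP tr_shift (Finset.nodup_toList _) (vec d L u)
    hW (fun x hx y hy z hz hz' => wnd_disj hu (Finset.mem_toList.mp hx) (Finset.mem_toList.mp hy)
      hz hz') hD
  have hcard : (((cors d L r).toList.map (· + vec d L u)).toFinset).card = (L / r) ^ d := by
    rw [List.toFinset_card_of_nodup, List.length_map, Finset.length_toList, card_cors (by omega)]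
    exact (Finset.nodup_toList _).map (add_left_injective _)
  refine ⟨h, h1, h2, Ω, _, S, _, ν, h3, hcard, h4, h5, fun D0 z hz => ?_⟩
  have h7 : ∀ a, (if QK.InWin (QK.box d L b) ((restr S D0).good a) z then (1 : ℝ) else 0) =
      (if QK.InWin (QK.box d L b) (S.good a) z then 1 else 0) := by
    intro a
    refine if_congr ⟨?_, ?_⟩ rfl rfl
    · rintro ⟨q, hq, hqz⟩
      exact ⟨q, (Finset.mem_filter.mp hq).1, hqz⟩
    · rintro ⟨q, hq, hqz⟩
      exact ⟨q, Finset.mem_filter.mpr ⟨hq, hz q hqz⟩, hqz⟩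
  simp only [h7]
  refine le_trans (le_of_eq ?_) (h6 z)
  unfold QK.dens
  rw [hcard]
  push_cast
  ring

end Pool.Agent.Stirring.HC
end
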