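import Pool.Agent.Lib.MP_6c3d62_pr.Mg.G070
import Pool.Agent.Lib.MP_6c3d62_pr.Mg.G063
import Pool.Agent.Lib.MP_6c3d62_pr.Mg.G075

section

section

/-! LOCAL version, block (3): centres of the balls in the deep box, on a folded torus. -/

set_option autoImplicit false
set_option linter.unusedSectionVars false

open Finset

namespace Pool.Agent.PL

/-- Positions on an axis. -/
def lpos (q mg s m : ℕ) : ℕ := min (mg + m * q) (s - 1 - mg)

/-- The fold `ℤ/2K → {0, …, K-1}`. -/
def fld (K : ℕ) (z : ZMod (2 * K)) : ℕ := if z.val < K then z.val else 2 * K - 1 - z.val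

lemma fld_lt {K : ℕ} (hK : 1 ≤ K) (z : ZMod (2 * K)) : fld K z < K := by
  haveI : NeZero (2 * K) := ⟨by omega⟩
  have h := ZMod.val_lt z
  unfold fld
  split_ifs <;> omega

lemma fld_cast {K m : ℕ} (hm : m < K) : fld K (m : ZMod (2 * K)) = m := by
  unfold fld
  have h : ((m : ZMod (2 * K))).val = m := by
    rw [ZMod.val_natCast]
    exact Nat.mod_eq_of_lt (by omega)
  rw [h, if_pos hm]

lemma fld_adj {K : ℕ} (hK : 1 ≤ K) (z : ZMod (2 * K)) :
    fld K (z + 1) ≤ fld K z + 1 ∧ fld K z ≤ fld K (z + 1) + 1 := by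
  haveI : NeZero (2 * K) := ⟨by omega⟩
  have h := ZMod.val_lt z
  have h1 : (z + 1).val = (z.val + 1) % (2 * K) := by
    have : z + 1 = ((z.val + 1 : ℕ) : ZMod (2 * K)) := by
      push_cast
      rw [ZMod.natCast_zmod_val]
    rw [this, ZMod.val_natCast]
  rcases Nat.lt_or_ge (z.val + 1) (2 * K) with h2 | h2
  · rw [Nat.mod_eq_of_lt h2] at h1
    unfold fld
    rw [h1]
    split_ifs <;> omega
  · have h3 : z.val + 1 = 2 * K := by omega
    rw [h3, Nat.mod_self] at h1
    unfold fld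
    rw [h1]
    split_ifs <;> omega

lemma fld_fib {K : ℕ} (hK : 1 ≤ K) [NeZero (2 * K)] (m : ℕ) :
    ((univ : Finset (ZMod (2 * K))).filter fun z => fld K z = m).card ≤ 2 := by
  have hsub : ((univ : Finset (ZMod (2 * K))).filter fun z => fld K z = m).image ZMod.val ⊆
      {m, 2 * K - 1 - m} := by
    intro x hx
    rw [Finset.mem_image] at hx
    obtain ⟨z, hz, rfl⟩ := hx
    have hz' := (Finset.mem_filter.1 hz).2
    have h := ZMod.val_lt z
    unfold fld at hz'
    rw [Finset.mem_insert, Finset.mem_singleton]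
    split_ifs at hz' <;> omega
  have h1 := Finset.card_le_card hsub
  rw [Finset.card_image_of_injective _ (ZMod.val_injective _)] at h1
  exact h1.trans Finset.card_le_two

/-- One axis. -/
theorem one_axis (L r s : ℕ) [NeZero L] (hr : 8 ≤ r) (hrs : r ≤ s) (hsL : s ≤ L) :
    ∃ (L' : ℕ) (_ : NeZero L') (a : ZMod L' → ℕ), L' ≤ s ∧
      (∀ κ, |(a κ : ℤ) - a (κ + 1)| ≤ ((r / 4 : ℕ) : ℤ)) ∧
      (∀ c : ℤ, -((r / 8 : ℕ) : ℤ) ≤ c → c < s + ((r / 8 : ℕ) : ℤ) →
        ∃ κ, |c - a κ| ≤ ((r / 2 : ℕ) : ℤ)) ∧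
      (∀ κ, r / 4 + r / 8 ≤ a κ ∧ a κ + (r / 4 + r / 8) < s) ∧
      (∀ v : ZMod L, (univ.filter fun κ => |(v - (a κ : ZMod L)).valMinAbs| ≤
        ((r / 4 : ℕ) : ℤ)).card ≤ 14) := by
  obtain ⟨q, hq⟩ : ∃ q, q = r / 4 := ⟨_, rfl⟩
  obtain ⟨e, he⟩ : ∃ e, e = r / 8 := ⟨_, rfl⟩
  obtain ⟨mg, hmg⟩ : ∃ mg, mg = q + e := ⟨_, rfl⟩
  obtain ⟨A, hA⟩ : ∃ A, A = s - 1 - 2 * mg := ⟨_, rfl⟩
  obtain ⟨D, hD⟩ : ∃ D, D = A / q := ⟨_, rfl⟩
  obtain ⟨K, hK⟩ : ∃ K, K = D + 2 := ⟨_, rfl⟩
  have hq2 : 2 ≤ q := by omega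
  have he1 : 1 ≤ e := by omega
  have hmg2 : 2 * mg + 1 ≤ s := by omega
  have hDq : D * q ≤ A := by rw [hD]; exact Nat.div_mul_le_self A q
  have hDq2 : A < (D + 1) * q := by
    rw [hD]
    exact Nat.lt_mul_of_div_lt (Nat.lt_succ_self _) (by omega)
  have hD2 : 2 * D ≤ A := by nlinarith
  have hK1 : 1 ≤ K := by omega
  haveI : NeZero (2 * K) := ⟨by omega⟩
  -- positions
  have hp : ∀ m, m ≤ D → lpos q mg s m = mg + m * q := by
    intro m hm
    unfold lpos
    have : m * q ≤ D * q := Nat.mul_le_mul_right q hm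
    rw [min_eq_left (by omega)]
  have hpt : lpos q mg s (D + 1) = s - 1 - mg := by
    unfold lpos
    rw [min_eq_right (by omega)]
  have hpm : ∀ m m', m ≤ m' → lpos q mg s m ≤ lpos q mg s m' := by
    intro m m' hm
    unfold lpos
    have : m * q ≤ m' * q := Nat.mul_le_mul_right q hm
    exact min_le_min (by omega) le_rfl
  have hps : ∀ m, lpos q mg s (m + 1) ≤ lpos q mg s m + q := by
    intro m
    unfold lpos
    have : (m + 1) * q = m * q + q := by ring
    omega
  have hlo : ∀ m, mg ≤ lpos q mg s m := by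
    intro m
    unfold lpos
    exact le_min (by omega) (by omega)
  have hhi : ∀ m, lpos q mg s m ≤ s - 1 - mg := by
    intro m
    unfold lpos
    exact min_le_right _ _
  refine ⟨2 * K, inferInstance, fun κ => lpos q mg s (fld K κ), by omega, ?_, ?_, ?_, ?_⟩
  · intro κ
    obtain ⟨h1, h2⟩ := fld_adj hK1 κ
    have h3 := hps (fld K κ)
    have h4 := hps (fld K (κ + 1))
    have h5 := hpm _ _ h1
    have h6 := hpm _ _ h2
    rw [← hq]
    show |((lpos q mg s (fld K κ) : ℕ) : ℤ) - ((lpos q mg s (fld K (κ + 1)) : ℕ) : ℤ)| ≤ (q : ℤ)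
    rw [abs_le]
    constructor <;> omega
  · intro c hc1 hc2
    rw [← he] at hc1 hc2
    rcases lt_or_ge c mg with h | h
    · refine ⟨((0 : ℕ) : ZMod (2 * K)), ?_⟩
      show |c - ((lpos q mg s (fld K ((0 : ℕ) : ZMod (2 * K))) : ℕ) : ℤ)| ≤ _
      rw [fld_cast (by omega : 0 < K), hp 0 (by omega), abs_le]
      constructor <;> omega
    rcases lt_or_ge ((s - 1 - mg : ℕ) : ℤ) c with h' | h'
    · refine ⟨((D + 1 : ℕ) : ZMod (2 * K)), ?_⟩
      show |c - ((lpos q mg s (fld K ((D + 1 : ℕ) : ZMod (2 * K))) : ℕ) : ℤ)| ≤ _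
      rw [fld_cast (by omega : D + 1 < K), hpt, abs_le]
      constructor <;> omega
    · obtain ⟨n, hn⟩ : ∃ n : ℕ, c = mg + n := ⟨(c - mg).toNat, by omega⟩
      have h1 : n ≤ A := by omega
      have h2 : n / q ≤ D := by rw [hD]; exact Nat.div_le_div_right h1
      have h3 := Nat.div_mul_le_self n q
      have h4 : n < (n / q + 1) * q := Nat.lt_mul_of_div_lt (Nat.lt_succ_self _) (by omega)
      have h5 : (n / q + 1) * q = n / q * q + q := by ring
      refine ⟨((n / q : ℕ) : ZMod (2 * K)), ?_⟩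
      show |c - ((lpos q mg s (fld K ((n / q : ℕ) : ZMod (2 * K))) : ℕ) : ℤ)| ≤ _
      rw [fld_cast (by omega : n / q < K), hp _ h2, abs_le]
      constructor <;> omega
  · intro κ
    have h1 := hlo (fld K κ)
    have h2 := hhi (fld K κ)
    constructor
    · show r / 4 + r / 8 ≤ lpos q mg s (fld K κ)
      omega
    · show lpos q mg s (fld K κ) + (r / 4 + r / 8) < s
      omega
  · intro v
    set Z := (univ : Finset (ZMod (2 * K))).filter fun κ =>
      |(v - ((lpos q mg s (fld K κ) : ℕ) : ZMod L)).valMinAbs| ≤ ((r / 4 : ℕ) : ℤ) with hZ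
    have hF : ∀ k ∈ Z.image (fld K), ∀ k' ∈ Z.image (fld K), k' < k + 7 := by
      intro m hm m' hm'
      obtain ⟨κ, hκ, rfl⟩ := Finset.mem_image.1 hm
      obtain ⟨κ', hκ', rfl⟩ := Finset.mem_image.1 hm'
      have h1 := (Finset.mem_filter.1 hκ).2
      have h2 := (Finset.mem_filter.1 hκ').2
      have hb := fld_lt hK1 κ
      have hb' := fld_lt hK1 κ'
      generalize hmm : fld K κ = m at h1 hb ⊢
      generalize hmm' : fld K κ' = m' at h2 hb' ⊢
      by_contra hcon
      push Not at hcon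
      -- the distance of the positions
      set p := lpos q mg s m with hpdef
      set p' := lpos q mg s m' with hpdef'
      have e1 : p = mg + m * q := hp m (by omega)
      have e2 : mg + (m + 3) * q ≤ p' := by
        rw [← hp (m + 3) (by omega)]
        exact hpm _ _ (by omega)
      have e3 : (m + 3) * q = m * q + 3 * q := by ring
      have e4 : p' ≤ s - 1 - mg := hhi m'
      -- integers
      have h3 : (((v - (p : ZMod L)).valMinAbs - (v - (p' : ZMod L)).valMinAbs - ((p' : ℤ) - p) : ℤ) :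
          ZMod L) = 0 := by
        push_cast
        ring
      rw [ZMod.intCast_zmod_eq_zero_iff_dvd] at h3
      have h4 := abs_le.1 h1
      have h5 := abs_le.1 h2
      have h6 : |(v - (p : ZMod L)).valMinAbs - (v - (p' : ZMod L)).valMinAbs - ((p' : ℤ) - p)| <
          L := by
        rw [abs_lt]
        constructor <;> omega
      have h7 := Int.eq_zero_of_abs_lt_dvd h3 h6
      omega
    have h1 := c55_card_le (Z.image (fld K)) hF
    have h2 : Z.card ≤ 2 * (Z.image (fld K)).card := by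
      refine Finset.card_le_mul_card_image Z 2 ?_
      intro m hm
      refine le_trans (Finset.card_le_card ?_) (fld_fib hK1 m)
      intro x hx
      rw [Finset.mem_filter] at hx ⊢
      exact ⟨Finset.mem_univ _, hx.2⟩
    have h3 : Z.card ≤ 14 := by omega
    exact h3

lemma val_lt_of {L s : ℕ} [NeZero L] (hsL : s ≤ L) {x : ZMod L} {n : ℤ} (h : (n : ZMod L) = x)
    (h0 : 0 ≤ n) (h1 : n < s) : x.val < s := by
  obtain ⟨m, rfl⟩ := Int.eq_ofNat_of_zero_le h0
  have h2 : x.val = m := by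
    rw [← h]
    simp only [Int.ofNat_eq_natCast, Int.cast_natCast, ZMod.val_natCast]
    exact Nat.mod_eq_of_lt (by omega)
  omega

/-- Centres of the balls. -/
theorem centresL (d : ℕ) : ∃ ov : ℕ, ∀ (L r s : ℕ) [NeZero L] (o : Fin d → ZMod L), 8 ≤ r →
    r ≤ s → s ≤ L →
    ∃ (L' : ℕ) (_ : NeZero L') (a : (Fin d → ZMod L') → (Fin d → ZMod L)), L' ≤ s ∧
      (∀ k i, near (r / 4) (a k) (a (k + Pi.single i 1))) ∧
      (∀ v, (∃ u, dp o s u ∧ near (r / 8) v u) → ∃ k, near (r / 2) v (a k)) ∧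
      (∀ v, (univ.filter fun k => near (r / 4) v (a k)).card ≤ ov) ∧
      (∀ k v', near (r / 4 + r / 8) v' (a k) → dp o s v') := by
  refine ⟨14 ^ d, ?_⟩
  intro L r s _ o hr hrs hsL
  obtain ⟨L', hne, a, hL', ha1, ha2, ha3, ha4⟩ := one_axis L r s hr hrs hsL
  refine ⟨L', hne, fun k i => o i + (a (k i) : ZMod L), hL', ?_, ?_, ?_, ?_⟩
  · intro k i j
    by_cases hij : j = i
    · subst hij
      have h1 := ha1 (k j)
      have h2 : (((a (k j) : ℤ) - a (k j + 1) : ℤ) : ZMod L) =
          (o j + (a (k j) : ZMod L)) -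
            (o j + (a ((k + Pi.single j 1 : Fin d → ZMod L') j) : ZMod L)) := by
        rw [Pi.add_apply, Pi.single_eq_same]
        push_cast
        ring
      exact (c55_abs_le _ _ h2).trans h1
    · simp [Pi.single_eq_of_ne hij]
      omega
  · rintro v ⟨u, hu, hvu⟩
    have h1 : ∀ i, ∃ κ, |(((u i - o i).val : ℤ) + (v i - u i).valMinAbs) - a κ| ≤
        ((r / 2 : ℕ) : ℤ) := by
      intro i
      have h2 := hu i
      have h3 := abs_le.1 (hvu i)
      exact ha2 _ (by omega) (by omega)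
    choose f hf using h1
    refine ⟨f, fun i => ?_⟩
    refine (c55_abs_le _ _ ?_).trans (hf i)
    push_cast
    rw [ZMod.natCast_zmod_val]
    ring
  · intro v
    have h1 : (univ.filter fun k : Fin d → ZMod L' =>
        near (r / 4) v (fun i => o i + (a (k i) : ZMod L)))
        = Fintype.piFinset (fun i => univ.filter fun κ =>
          |((v i - o i) - (a κ : ZMod L)).valMinAbs| ≤ ((r / 4 : ℕ) : ℤ)) := by
      ext k
      rw [Finset.mem_filter, Fintype.mem_piFinset]
      simp only [Finset.mem_filter, Finset.mem_univ, true_and, near, sub_sub]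
    rw [h1, Fintype.card_piFinset]
    calc ∏ i : Fin d, (univ.filter fun κ =>
          |((v i - o i) - (a κ : ZMod L)).valMinAbs| ≤ ((r / 4 : ℕ) : ℤ)).card
        ≤ ∏ _i : Fin d, 14 := Finset.prod_le_prod' fun i _ => ha4 (v i - o i)
      _ = 14 ^ d := by simp
  · intro k v' h i
    have h1 := abs_le.1 (h i)
    have h2 := ha3 (k i)
    refine val_lt_of hsL (n := (a (k i) : ℤ) +
      (v' i - (o i + (a (k i) : ZMod L))).valMinAbs) ?_ ?_ ?_
    · push_cast
      ring
    · push_cast at h1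
      omega
    · push_cast at h1
      omega

end Pool.Agent.PL
end

section

/-! LOCAL version, block (3): from a node to a deep box (forward). -/

set_option autoImplicit false
set_option linter.unusedSectionVars false

open Finset

namespace Pool.Agent.Stirring.RS

open PL

/-- From a node to a deep box (forward). -/
theorem node_fwdL (d : ℕ) (c1 : ℝ) (hc1 : 0 < c1)
    (L : ℕ) [NeZero L] (S : ℕ → Equiv.Perm (Fin d → ZMod L))
      (w : ℕ → (Fin d → ZMod L) → Option (Fin d → ZMod L)) (J N r : ℕ) (M Kw : ℝ)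
    (hN : 1 ≤ N) (hr : 8 ≤ r) (hL : 2 * r ≤ L) (hM : 0 ≤ M) {o : Fin d → ZMod L} {s : ℕ}
    (hE : GoodEnvL S w J N r c1 M Kw o s)
    (hMK : M * Kw ≤ N)
    (F : ℕ → (Fin d → ZMod L) → ℝ)
    (hF : ∀ j ≤ J, ∀ v v', w j v ≠ none → w j v = w j v' → F j v = F j v')
    (hF' : ∀ j < J, ∀ v, w (j + 1) (S j v) = none → F (j + 1) (S j v) = F j v)
    (i : ℕ) (x v b : Fin d → ZMod L) (hi : 2 * i ≤ J) (hv : v ∈ win w i x)
    (hb : near (r / 2) v b) (hball : ∀ v', near (r / 4) v' b → dp o s v') :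
      (F i v - (∑ v' ∈ bx (r / 4) b, F J v') / (bx (r / 4) b).card) ^ 2
        ≤ (2 * (4 ^ d / c1) ^ 2) / N * ∑ j ∈ range J, ∑ v', (F (j + 1) (S j v') - F j v') ^ 2 := by
  set n := J - i with hn
  have hJ : i + n = J := by omega
  set T : ℕ → Equiv.Perm (Fin d → ZMod L) := fun m => S (i + m) with hT
  set w' : ℕ → (Fin d → ZMod L) → Option (Fin d → ZMod L) := fun m => w (i + m) with hw'
  set G : ℕ → (Fin d → ZMod L) → ℝ := fun m => F (i + m) with hG
  have hNr : (0 : ℝ) < N := by positivity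
  have hrr : (0 : ℝ) < (r : ℝ) ^ d := by positivity
  have hxi : w i v = some x := (Finset.mem_filter.1 hv).2
  have hcard : (win w i x).card = N := hE.card i (by omega) x ⟨v, hv⟩
  have hCon : Con w' G n := by
    intro m hm a a' h1 h2
    exact hF (i + (m + 1)) (by omega) a a' h2 h1
  have hP : ∀ m, m < n → ∀ a, ¬ (w' (m + 1) (T m a) ≠ none) → jmp T G m a = 0 := by
    intro m hm a h
    have h' : w (i + m + 1) (S (i + m) a) = none := by
      by_contra h0; exact h h0
    have := hF' (i + m) (by omega) a h'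
    show F (i + m) a - F (i + (m + 1)) (S (i + m) a) = 0
    rw [show i + (m + 1) = i + m + 1 by omega, this]
    ring
  have hBpos := bx_pos (r / 4) b
  have hlow : ∀ v', ub (r / 4) b v' ≠ 0 → c1 / (r : ℝ) ^ d ≤ fwd T w' (uw w i x N) n v' := by
    intro v' h
    have h1 := ub_ne h
    rw [← kr_eq S w i n (uw w i x N), kr_uw]
    exact hE.lowF i hi x v hv v' (hball v' h1)
      (near_mono (by omega) (near_trans hb (near_symm h1)))
  have hg : ∀ a, uw w i x N a ≠ 0 → G 0 a = F i v := by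
    intro a ha
    have h1 : w i a = some x := by
      by_contra h0
      exact ha (by unfold uw; rw [if_neg h0])
    show F (i + 0) a = F i v
    rw [Nat.add_zero]
    exact hF i (by omega) a v (by rw [h1]; simp) (by rw [h1, hxi])
  have main := node_to T w' (G := G) (n := n) hCon (fun m a => w' (m + 1) (T m a) ≠ none) hP
    (uw w i x N) (ub (r / 4) b) (uw_nonneg w i x N) (ub_nonneg _ _) (ub_sum _ _) (F i v)
    (1 / ((bx (r / 4) b).card : ℝ)) (c1 / (r : ℝ) ^ d) (by positivity) (by positivity)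
    (ub_le _ _) hlow hg
  rw [ub_mean] at main
  have hGn : G n = F J := by show F (i + n) = F J; rw [hJ]
  rw [hGn] at main
  -- the square sum
  have hmass : ∀ m, m < n → ∀ y, ∑ v' ∈ win w' (m + 1) y, fwd T w' (uw w i x N) (m + 1) v' =
      wm S w N i x (i + (m + 1)) y := by
    intro m hm y
    rw [wm_eq]
    refine Finset.sum_congr rfl fun v' _ => ?_
    rw [kr_eq]
  have hsq : sqS T w' (fun m a => w' (m + 1) (T m a) ≠ none) (uw w i x N) n ≤ 2 / (N : ℝ) := by
    have h1 := sqS_arr T w' (uw w i x N) (uw_nonneg w i x N) n (M / N / N) Kw (by positivity)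
      (by
        intro m hm a ha
        obtain ⟨y, hy⟩ := Option.ne_none_iff_exists'.1 ha
        refine fwd_win (T := T) (w := w') (uw w i x N) m N hN hy ?_ _ ?_
        · exact hE.card (i + (m + 1)) (by omega) y
            ⟨a, Finset.mem_filter.2 ⟨mem_univ _, hy⟩⟩
        · rw [hmass m hm y]
          exact hE.mass i (i + (m + 1)) (by omega) (by omega) x y)
      (by
        have h2 : ∀ m ∈ range n, ∑ a, (if w' (m + 1) a = none then 0
            else fwd T w' (uw w i x N) (m + 1) a) = ∑ y, wm S w N i x (i + (m + 1)) y := by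
          intro m hm
          rw [sum_win]
          refine Finset.sum_congr rfl fun y _ => ?_
          rw [← hmass m (Finset.mem_range.1 hm) y]
          rfl
        rw [Finset.sum_congr rfl h2]
        refine le_trans (le_of_eq ?_) (hE.num i (by omega) x)
        have h3 : Ioc i J = Ico (i + 1) (J + 1) := by
          ext a; simp only [Finset.mem_Ioc, Finset.mem_Ico]; omega
        rw [h3, Finset.sum_Ico_eq_sum_range]
        have h4 : J + 1 - (i + 1) = n := by omega
        rw [h4]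
        refine Finset.sum_congr rfl fun m _ => ?_
        rw [show i + (m + 1) = i + 1 + m by omega])
    rw [uw_sq w i x N hN hcard] at h1
    refine h1.trans ?_
    have h5 : M / N / N * Kw ≤ 1 / (N : ℝ) := by
      have : M / N / N * Kw = (M * Kw) / (N * N) := by field_simp
      rw [this, div_le_div_iff₀ (by positivity) hNr]
      nlinarith
    have : (2 : ℝ) / N = 1 / N + 1 / N := by ring
    rw [this]
    linarith
  have hEJ : EJ T G n ≤ ∑ j ∈ range J, ∑ v', (F (j + 1) (S j v') - F j v') ^ 2 := by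
    have h1 : ∑ j ∈ range J, ∑ v', (F (j + 1) (S j v') - F j v') ^ 2 =
        ∑ j ∈ range i, ∑ v', (F (j + 1) (S j v') - F j v') ^ 2 +
        ∑ j ∈ range n, ∑ v', (F (i + j + 1) (S (i + j) v') - F (i + j) v') ^ 2 := by
      rw [← hJ, Finset.sum_range_add]
    rw [h1]
    have h2 : 0 ≤ ∑ j ∈ range i, ∑ v', (F (j + 1) (S j v') - F j v') ^ 2 :=
      Finset.sum_nonneg fun _ _ => Finset.sum_nonneg fun _ _ => sq_nonneg _
    have h3 : EJ T G n = ∑ j ∈ range n, ∑ v', (F (i + j + 1) (S (i + j) v') - F (i + j) v') ^ 2 := by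
      unfold EJ
      refine Finset.sum_congr rfl fun m _ => Finset.sum_congr rfl fun a _ => ?_
      show (F (i + m) a - F (i + (m + 1)) (S (i + m) a)) ^ 2 = _
      rw [show i + (m + 1) = i + m + 1 by omega]
      ring
    linarith
  have hratio : (1 / ((bx (r / 4) b).card : ℝ)) / (c1 / (r : ℝ) ^ d) ≤ 4 ^ d / c1 := by
    have h1 := card_bx_quarter hr hL b
    rw [div_div_eq_mul_div, div_mul_eq_mul_div, one_mul, div_div, div_le_div_iff₀ (by positivity) hc1]
    nlinarith
  have hratio0 : 0 ≤ (1 / ((bx (r / 4) b).card : ℝ)) / (c1 / (r : ℝ) ^ d) := by positivity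
  have hEJ0 := EJ_nonneg T G n
  calc _ ≤ _ := main
    _ ≤ (4 ^ d / c1) ^ 2 * (2 / N) * ∑ j ∈ range J, ∑ v', (F (j + 1) (S j v') - F j v') ^ 2 := by
        have h1 : ((1 / ((bx (r / 4) b).card : ℝ)) / (c1 / (r : ℝ) ^ d)) ^ 2 ≤ (4 ^ d / c1) ^ 2 :=
          pow_le_pow_left₀ hratio0 hratio 2
        have h2 : 0 ≤ sqS T w' (fun m a => w' (m + 1) (T m a) ≠ none) (uw w i x N) n := by
          unfold sqS
          refine Finset.sum_nonneg fun _ _ => Finset.sum_nonneg fun _ _ => ?_
          split_ifs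
          · exact sq_nonneg _
          · exact le_rfl
        refine mul_le_mul (mul_le_mul h1 hsq h2 (by positivity)) hEJ hEJ0 (by positivity)
    _ = _ := by ring

end Pool.Agent.Stirring.RS
end

section

/-! LOCAL version, block (3): from a node to a deep box (backward). -/

set_option autoImplicit false
set_option linter.unusedSectionVars false

open Finset

namespace Pool.Agent.Stirring.RS

open PL

/-- From a node to a deep box (backward). -/
theorem node_bwdL (d : ℕ) (c1 : ℝ) (hc1 : 0 < c1)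
    (L : ℕ) [NeZero L] (S : ℕ → Equiv.Perm (Fin d → ZMod L))
      (w : ℕ → (Fin d → ZMod L) → Option (Fin d → ZMod L)) (J N r : ℕ) (M Kw : ℝ)
    (hN : 1 ≤ N) (hr : 8 ≤ r) (hL : 2 * r ≤ L) (hM : 0 ≤ M) {o : Fin d → ZMod L} {s : ℕ}
    (hE : GoodEnvL S w J N r c1 M Kw o s)
    (hMK : M * Kw ≤ N)
    (F : ℕ → (Fin d → ZMod L) → ℝ)
    (hF : ∀ j ≤ J, ∀ v v', w j v ≠ none → w j v = w j v' → F j v = F j v')
    (hF' : ∀ j < J, ∀ v, w (j + 1) (S j v) = none → F (j + 1) (S j v) = F j v)
    (j : ℕ) (y v b : Fin d → ZMod L) (hjJ : j ≤ J) (hj : J ≤ 2 * j) (hv : v ∈ win w j y)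
    (hb : near (r / 2) v b)
    (hball : ∀ v' v'', near (r / 4) v' b → near (r / 8) v'' v' → dp o s v'') :
      (F j v - (∑ v' ∈ bx (r / 4) b, F 0 v') / (bx (r / 4) b).card) ^ 2
        ≤ (2 * (4 ^ d / c1) ^ 2) / N * ∑ j ∈ range J, ∑ v', (F (j + 1) (S j v') - F j v') ^ 2 := by
  set T : ℕ → Equiv.Perm (Fin d → ZMod L) := revT S j with hT
  set w' : ℕ → (Fin d → ZMod L) → Option (Fin d → ZMod L) := revw w j with hw'
  set G : ℕ → (Fin d → ZMod L) → ℝ := fun m => F (j - m) with hG
  have hNr : (0 : ℝ) < N := by positivity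
  have hrr : (0 : ℝ) < (r : ℝ) ^ d := by positivity
  have hyj : w j v = some y := (Finset.mem_filter.1 hv).2
  have hcard : (win w j y).card = N := hE.card j hjJ y ⟨v, hv⟩
  have hCon : Con w' G j := by
    intro m hm a a' h1 h2
    exact hF (j - (m + 1)) (by omega) a a' h2 h1
  -- the jump in terms of the forward jump
  have hjmp : ∀ m, m < j → ∀ a, jmp T G m a =
      F (j - (m + 1) + 1) (S (j - (m + 1)) ((S (j - (m + 1)))⁻¹ a)) -
        F (j - (m + 1)) ((S (j - (m + 1)))⁻¹ a) := by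
    intro m hm a
    show F (j - m) a - F (j - (m + 1)) ((S (j - 1 - m))⁻¹ a) = _
    rw [show j - (m + 1) + 1 = j - m by omega, show j - 1 - m = j - (m + 1) by omega,
      perm_ais]
  have hP : ∀ m, m < j → ∀ a, ¬ (w' m a ≠ none) → jmp T G m a = 0 := by
    intro m hm a h
    have h' : w (j - m) a = none := by
      by_contra h0; exact h h0
    rw [hjmp m hm a]
    have h2 : w (j - (m + 1) + 1) (S (j - (m + 1)) ((S (j - (m + 1)))⁻¹ a)) = none := by
      rw [show j - (m + 1) + 1 = j - m by omega, perm_ais]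
      exact h'
    rw [hF' (j - (m + 1)) (by omega) _ h2]
    ring
  have hBpos := bx_pos (r / 4) b
  have hlow : ∀ v', ub (r / 4) b v' ≠ 0 → c1 / (r : ℝ) ^ d ≤ fwd T w' (uw w j y N) j v' := by
    intro v' h
    have h1 := ub_ne h
    rw [fwd_rev S w N y j j le_rfl]
    rw [Nat.sub_self]
    refine le_av _ _ _ _ ?_
    intro a ha
    unfold bu
    rw [le_div_iff₀ hNr, Nat.zero_add]
    have h2 : ∀ a' ∈ win w j y, c1 / (r : ℝ) ^ d ≤ kr S w 0 j (Pi.single a 1) a' := by
      intro a' ha'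
      have h3 : near (r / 8) a' v := hE.diam j hjJ y a' ha' v hv
      have h4 : near (r / 8) a v' := by
        rcases ha with rfl | ⟨h5, h6⟩
        · exact near_self _ _
        · obtain ⟨z, hz⟩ := Option.ne_none_iff_exists'.1 h6
          exact hE.diam 0 (Nat.zero_le _) z a
            (Finset.mem_filter.2 ⟨mem_univ _, by rw [h5, hz]⟩) v'
            (Finset.mem_filter.2 ⟨mem_univ _, hz⟩)
      refine hE.lowB j hjJ hj a (hball v' a h1 h4) a' ?_ ?_
      · rw [(Finset.mem_filter.1 ha').2]; simp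
      · exact near_mono (by omega) (near_trans (near_trans h4 h1) (near_symm (near_trans h3 hb)))
    calc c1 / (r : ℝ) ^ d * N = ∑ a' ∈ win w j y, c1 / (r : ℝ) ^ d := by
          rw [Finset.sum_const, hcard, nsmul_eq_mul, mul_comm]
      _ ≤ _ := Finset.sum_le_sum h2
  have hg : ∀ a, uw w j y N a ≠ 0 → G 0 a = F j v := by
    intro a ha
    have h1 : w j a = some y := by
      by_contra h0
      exact ha (by unfold uw; rw [if_neg h0])
    show F (j - 0) a = F j v
    rw [Nat.sub_zero]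
    exact hF j hjJ a v (by rw [h1]; simp) (by rw [h1, hyj])
  have main := node_to T w' (G := G) (n := j) hCon (fun m a => w' m a ≠ none) hP
    (uw w j y N) (ub (r / 4) b) (uw_nonneg w j y N) (ub_nonneg _ _) (ub_sum _ _) (F j v)
    (1 / ((bx (r / 4) b).card : ℝ)) (c1 / (r : ℝ) ^ d) (by positivity) (by positivity)
    (ub_le _ _) hlow hg
  rw [ub_mean] at main
  have hGn : G j = F 0 := by show F (j - j) = F 0; rw [Nat.sub_self]
  rw [hGn] at main
  -- masses
  have hmass : ∀ m, m < j → ∀ x, ∑ v' ∈ win w' (m + 1) x, fwd T w' (uw w j y N) (m + 1) v' =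
      wm S w N (j - (m + 1)) x j y := by
    intro m hm x
    rw [fwd_rev S w N y j (m + 1) (by omega)]
    have h1 : ∑ v' ∈ win w' (m + 1) x,
        av (w (j - (m + 1))) (bu S w N y (j - (m + 1)) (m + 1)) v' =
        ∑ v' ∈ win w (j - (m + 1)) x, bu S w N y (j - (m + 1)) (m + 1) v' := by
      show ∑ v' ∈ win w (j - (m + 1)) x,
        av (w (j - (m + 1))) (bu S w N y (j - (m + 1)) (m + 1)) v' = _
      rcases (win w (j - (m + 1)) x).eq_empty_or_nonempty with h | ⟨a, ha⟩
      · rw [h]; simp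
      · have ha' : w (j - (m + 1)) a = some x := (Finset.mem_filter.1 ha).2
        have hne : w (j - (m + 1)) a ≠ none := by rw [ha']; simp
        rw [win_eq_cls w _ ha', av_sum_cls _ _ hne]
        unfold av
        rw [if_neg hne, mul_div_cancel₀ _ (cls_pos _ _).ne']
    rw [h1]
    unfold bu wm
    rw [← Finset.sum_div]
    rw [show j - (m + 1) + (m + 1) = j by omega, show j - (j - (m + 1)) = m + 1 by omega]
  have hsq : sqS T w' (fun m a => w' m a ≠ none) (uw w j y N) j ≤ 2 / (N : ℝ) := by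
    have h1 := sqS_dep T w' (uw w j y N) (uw_nonneg w j y N) j (M / N / N) Kw (by positivity)
      (by
        intro m hm a ha
        obtain ⟨x, hx⟩ := Option.ne_none_iff_exists'.1 ha
        refine fwd_win (T := T) (w := w') (uw w j y N) m N hN hx ?_ _ ?_
        · exact hE.card (j - (m + 1)) (by omega) x
            ⟨a, Finset.mem_filter.2 ⟨mem_univ _, hx⟩⟩
        · rw [hmass m hm x]
          exact hE.mass (j - (m + 1)) j (by omega) hjJ x y)
      (by
        have h2 : ∀ m ∈ range j, ∑ a, (if w' (m + 1) a = none then 0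
            else fwd T w' (uw w j y N) (m + 1) a) = ∑ x, wm S w N (j - 1 - m) x j y := by
          intro m hm
          rw [sum_win]
          refine Finset.sum_congr rfl fun x _ => ?_
          rw [show j - 1 - m = j - (m + 1) by omega, ← hmass m (Finset.mem_range.1 hm) x]
          rfl
        rw [Finset.sum_congr rfl h2,
          Finset.sum_range_reflect (fun i => ∑ x, wm S w N i x j y) j]
        exact hE.num' j hjJ y)
    rw [uw_sq w j y N hN hcard] at h1
    refine h1.trans ?_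
    have h5 : M / N / N * Kw ≤ 1 / (N : ℝ) := by
      have : M / N / N * Kw = (M * Kw) / (N * N) := by field_simp
      rw [this, div_le_div_iff₀ (by positivity) hNr]
      nlinarith
    have : (2 : ℝ) / N = 1 / N + 1 / N := by ring
    rw [this]
    linarith
  have hEJ : EJ T G j ≤ ∑ j ∈ range J, ∑ v', (F (j + 1) (S j v') - F j v') ^ 2 := by
    have h3 : EJ T G j = ∑ l ∈ range j, ∑ v', (F (l + 1) (S l v') - F l v') ^ 2 := by
      rw [← Finset.sum_range_reflect (fun l => ∑ v', (F (l + 1) (S l v') - F l v') ^ 2) j]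
      unfold EJ
      refine Finset.sum_congr rfl fun m hm => ?_
      have hm' := Finset.mem_range.1 hm
      rw [show j - 1 - m = j - (m + 1) by omega,
        ← Equiv.sum_comp (S (j - (m + 1)))⁻¹
          (fun v' => (F (j - (m + 1) + 1) (S (j - (m + 1)) v') - F (j - (m + 1)) v') ^ 2)]
      refine Finset.sum_congr rfl fun a _ => ?_
      rw [hjmp m hm' a]
    rw [h3]
    refine Finset.sum_le_sum_of_subset_of_nonneg ?_ fun _ _ _ =>
      Finset.sum_nonneg fun _ _ => sq_nonneg _
    intro l hl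
    rw [Finset.mem_range] at hl ⊢
    omega
  have hratio : (1 / ((bx (r / 4) b).card : ℝ)) / (c1 / (r : ℝ) ^ d) ≤ 4 ^ d / c1 := by
    have h1 := card_bx_quarter hr hL b
    rw [div_div_eq_mul_div, div_mul_eq_mul_div, one_mul, div_div, div_le_div_iff₀ (by positivity) hc1]
    nlinarith
  have hratio0 : 0 ≤ (1 / ((bx (r / 4) b).card : ℝ)) / (c1 / (r : ℝ) ^ d) := by positivity
  have hEJ0 := EJ_nonneg T G j
  calc _ ≤ _ := main
    _ ≤ (4 ^ d / c1) ^ 2 * (2 / N) * ∑ j ∈ range J, ∑ v', (F (j + 1) (S j v') - F j v') ^ 2 := by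
        have h1 : ((1 / ((bx (r / 4) b).card : ℝ)) / (c1 / (r : ℝ) ^ d)) ^ 2 ≤ (4 ^ d / c1) ^ 2 :=
          pow_le_pow_left₀ hratio0 hratio 2
        have h2 : 0 ≤ sqS T w' (fun m a => w' m a ≠ none) (uw w j y N) j := by
          unfold sqS
          refine Finset.sum_nonneg fun _ _ => Finset.sum_nonneg fun _ _ => ?_
          split_ifs
          · exact sq_nonneg _
          · exact le_rfl
        refine mul_le_mul (mul_le_mul h1 hsq h2 (by positivity)) hEJ hEJ0 (by positivity)
    _ = _ := by ring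

end Pool.Agent.Stirring.RS
end
end

section

section

/-! LOCAL version, 6iii: the law of any `k` points of a set of diameter `r`, from the laws of far
apart points in a box (uniformly in `L`) and on the torus. -/

set_option autoImplicit false
set_option linter.unusedSectionVars false

open Finset Equiv Filter

namespace Pool.Agent.Stirring.LC

open Pool.Agent.Stirring QK Pool.Agent.PL

/-- The statement of `klaw_far`. -/
def KFar (d A C : ℕ) : Prop := ∀ (k : ℕ) (ε : ℝ), 0 < ε →
    ∃ s₀ : ℕ, ∀ s : ℕ, s₀ ≤ s → ∀ (L : ℕ) [NeZero L], 4 * s ≤ L → ∀ t : ℝ, Real.log s ^ C ≤ t →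
      ∀ z : Fin k → (Fin d → ZMod L), (∀ i, dp 0 s (z i)) →
        (∀ a b, a ≠ b → Real.log s ^ A ≤ (QK.nrm (z a - z b) : ℝ)) →
        ∀ τ : Equiv.Perm (Fin k),
          |expect d L t (fun σ => patI τ σ z) - (relCl τ).card / (k.factorial : ℝ)| ≤ ε

/-- The statement of `klaw_torus`. -/
def KTor (d A C : ℕ) : Prop := ∀ (k : ℕ) (ε : ℝ), 0 < ε →
    ∃ L₀ : ℕ, ∀ (L : ℕ) [NeZero L], L₀ ≤ L → ∀ t : ℝ, Real.log L ^ C ≤ t →
      ∀ z : Fin k → (Fin d → ZMod L),
        (∀ a b, a ≠ b → Real.log L ^ A ≤ (QK.nrm (z a - z b) : ℝ)) →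
        ∀ τ : Equiv.Perm (Fin k),
          |expect d L t (fun σ => patI τ σ z) - (relCl τ).card / (k.factorial : ℝ)| ≤ ε

/-- All points: the hypothesis of `share_close_of_lklaw`. -/
def LKLaw (d C : ℕ) : Prop := ∀ (k : ℕ) (ε : ℝ), 0 < ε → ∃ t₀ : ℝ, ∀ (L : ℕ) [NeZero L], 3 ≤ L →
  ∀ t r : ℝ, t₀ ≤ t → 1 ≤ r → Real.log r ^ C ≤ t → ∀ z : Fin k → (Fin d → ZMod L),
    Function.Injective z →
    (∀ i j, ∃ u : Fin d → ℤ, z j = z i + red d L u ∧ ∑ m, |(u m : ℝ)| ≤ r) →
    ∀ τ : Equiv.Perm (Fin k),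
      |expect d L t (fun σ => patI τ σ z) - (relCl τ).card / (k.factorial : ℝ)| ≤ ε

theorem bet_le_two {d L : ℕ} [NeZero L] (hd : 1 ≤ d) {t : ℝ} (ht : 1 ≤ t) : bet d L t ≤ 2 := by
  unfold bet
  have h1 : t ^ (-((d : ℝ) / 2)) ≤ 1 :=
    Real.rpow_le_one_of_one_le_of_nonpos ht (by have : (0:ℝ) ≤ d := by positivity
                                                linarith)
  have hL : 1 ≤ L := Nat.one_le_iff_ne_zero.2 (NeZero.ne L)
  have hL1 : (1 : ℝ) ≤ L := by exact_mod_cast hL
  have h2 : Real.log L / (L : ℝ) ^ d ≤ 1 := by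
    rw [div_le_one (by positivity)]
    calc Real.log L ≤ L := Real.log_le_self (by linarith)
      _ = (L : ℝ) ^ 1 := (pow_one _).symm
      _ ≤ (L : ℝ) ^ d := pow_le_pow_right₀ hL1 hd
  linarith

theorem sqrt_bet_le {d L : ℕ} [NeZero L] (hd : 1 ≤ d) {t x : ℝ} {m : ℕ} (hx : 1 ≤ x)
    (ht : t = (x ^ m) ^ 2) : Real.sqrt (bet d L t / t) ≤ 2 / x ^ m := by
  have h0 : (1 : ℝ) ≤ x ^ m := one_le_pow₀ hx
  have ht1 : 1 ≤ t := by rw [ht]; exact one_le_pow₀ h0
  have h1 := bet_le_two (L := L) hd ht1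
  rw [Real.sqrt_le_left (by positivity), div_pow, ← ht]
  refine div_le_div_of_nonneg_right ?_ (by linarith)
  linarith

theorem diam_all {d L : ℕ} [NeZero L] (x y : Fin d → ZMod L) :
    ∃ u : Fin d → ℤ, y = x + red d L u ∧ ∑ m, |(u m : ℝ)| ≤ d * L := by
  refine ⟨fun m => ((y - x) m).valMinAbs, ?_, ?_⟩
  · funext m
    have : red d L (fun m => ((y - x) m).valMinAbs) m = (y - x) m := by
      unfold red
      exact ZMod.coe_valMinAbs _
    rw [Pi.add_apply, this, Pi.sub_apply]
    abel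
  · calc ∑ m, |((((y - x) m).valMinAbs : ℤ) : ℝ)| ≤ ∑ _m : Fin d, (L : ℝ) := by
          refine Finset.sum_le_sum fun m _ => ?_
          have h1 := ZMod.natAbs_valMinAbs_le ((y - x) m)
          have h2 : |(((y - x) m).valMinAbs : ℤ)| ≤ (L : ℤ) := by
            rw [Int.abs_eq_natAbs]
            have : L / 2 ≤ L := Nat.div_le_self _ _
            exact_mod_cast h1.trans this
          exact_mod_cast h2
      _ = d * L := by simp

/-- Eventual inequalities. -/
theorem lk_num (A k s₀ : ℕ) : ∀ᶠ x : ℝ in atTop,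
    4 ≤ x ∧ (s₀ : ℝ) + 1 + (2 * (Real.exp (Real.sqrt x) + 1) + 2 * (2 * (2 * x) ^ A) * k) + 1 ≤
      Real.exp x := by
  have h1 := Real.tendsto_pow_mul_exp_neg_atTop_nhds_zero A
  have h2 : ∀ᶠ x : ℝ in atTop, x ^ A * Real.exp (-x) < 1 / (8 * 2 ^ A * k + 1) / 4 :=
    h1.eventually_lt_const (by positivity)
  have h3 : ∀ᶠ x : ℝ in atTop, (8 : ℝ) ≤ Real.exp (x / 2) := by
    have : Tendsto (fun x : ℝ => Real.exp (x / 2)) atTop atTop :=
      Real.tendsto_exp_atTop.comp (tendsto_id.atTop_div_const (by norm_num))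
    exact this.eventually_ge_atTop 8
  have h4 : ∀ᶠ x : ℝ in atTop, (4 * ((s₀ : ℝ) + 4)) ≤ Real.exp x :=
    Real.tendsto_exp_atTop.eventually_ge_atTop _
  filter_upwards [h2, h3, h4, eventually_ge_atTop 4] with x g2 g3 g4 g5
  refine ⟨g5, ?_⟩
  have hE : 0 < Real.exp x := Real.exp_pos x
  have e1 : Real.exp x = Real.exp (x / 2) * Real.exp (x / 2) := by
    rw [← Real.exp_add]; congr 1; ring
  have e2 : Real.exp (Real.sqrt x) ≤ Real.exp (x / 2) := by
    refine Real.exp_le_exp.2 ?_
    rw [Real.sqrt_le_left (by linarith)]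
    nlinarith
  have e3 : 2 * Real.exp (Real.sqrt x) ≤ Real.exp x / 4 := by
    have : 0 < Real.exp (x / 2) := Real.exp_pos _
    nlinarith
  have e4 : x ^ A * (8 * 2 ^ A * k + 1) ≤ Real.exp x / 4 := by
    have hpos : (0 : ℝ) < 8 * 2 ^ A * k + 1 := by positivity
    rw [Real.exp_neg, div_div, lt_div_iff₀ (by positivity), ← div_eq_mul_inv, div_mul_eq_mul_div,
      div_lt_one hE] at g2
    linarith
  have hxA : 0 ≤ x ^ A := by positivity
  have e5 : 2 * (2 * (2 * x) ^ A) * k ≤ Real.exp x / 4 := by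
    have : 2 * (2 * (2 * x) ^ A) * (k : ℝ) = x ^ A * (4 * 2 ^ A * k) := by rw [mul_pow]; ring
    rw [this]
    refine le_trans (mul_le_mul_of_nonneg_left ?_ hxA) e4
    have : (0 : ℝ) ≤ 2 ^ A * k := by positivity
    linarith
  linarith

/-- **6iii.** -/
theorem lklaw_of {d : ℕ} (hd : 2 ≤ d) (hfar : ∃ A C : ℕ, KFar d A C)
    (htor : ∃ A C : ℕ, KTor d A C) : ∃ C : ℕ, LKLaw d C := by
  classical
  obtain ⟨A1, C1, hfar⟩ := hfar
  obtain ⟨A2, C2, htor⟩ := htor
  set A := A1 + A2 with hA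
  set m := C1 + C2 + A + 1 with hm
  refine ⟨4 * m, ?_⟩
  intro k ε hε
  obtain ⟨s₀, hs₀⟩ := hfar k (ε / 2) (by positivity)
  obtain ⟨L₀, hL₀⟩ := htor k (ε / 2) (by positivity)
  obtain ⟨c1, hc1, hew⟩ := local_ewens (d := d) (by omega) (Fin k)
  obtain ⟨c2, hc2, hmv⟩ := move_apart (d := d) (by omega) (Fin k)
  set K1 : ℝ := c2 * (2 * 2 ^ A) * 2 with hK1
  set K2 : ℝ := c1 * (d * (4 * 2 ^ A * k + L₀) + 1) * 2 with hK2
  obtain ⟨x₀, hx₀⟩ := eventually_atTop.1 (((lk_num A k s₀).and
    (eventually_ge_atTop (K1 / (ε / 2)))).and (eventually_ge_atTop (K2 / ε)))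
  refine ⟨(max x₀ 1) ^ (2 * m), ?_⟩
  intro L _ hL t r ht hr hrt z hz hdiam τ
  have hmne : 2 * m ≠ 0 := by omega
  set x : ℝ := t ^ (((2 * m : ℕ) : ℝ)⁻¹) with hx
  have ht0 : 0 ≤ t := le_trans (by positivity) ht
  have hxt : x ^ (2 * m) = t := Real.rpow_inv_natCast_pow ht0 hmne
  have hxpos : 0 ≤ x := Real.rpow_nonneg ht0 _
  have hxx : max x₀ 1 ≤ x := by
    rw [← hxt] at ht
    exact le_of_pow_le_pow_left₀ hmne hxpos ht
  obtain ⟨⟨⟨hx4, hnum⟩, hQ1⟩, hQ2⟩ := hx₀ x ((le_max_left _ _).trans hxx)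
  have hx1 : 1 ≤ x := by linarith
  have ht2 : t = (x ^ m) ^ 2 := by rw [← hxt, ← pow_mul, mul_comm]
  have hxm1 : (1 : ℝ) ≤ x ^ m := one_le_pow₀ hx1
  have ht1 : 1 ≤ t := by rw [ht2]; exact one_le_pow₀ hxm1
  have hsq := sqrt_bet_le (L := L) (by omega : 1 ≤ d) hx1 ht2
  have hsq0 := Real.sqrt_nonneg (bet d L t / t)
  -- the distance of the moved points
  set B : ℕ := ⌈(2 * x) ^ A⌉₊ with hB
  have h2x : (1 : ℝ) ≤ (2 * x) ^ A := one_le_pow₀ (by linarith)
  have hB1 : 1 ≤ B := Nat.one_le_ceil_iff.2 (by linarith)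
  have hBge : (2 * x) ^ A ≤ B := Nat.le_ceil _
  have hBle : (B : ℝ) ≤ 2 * (2 * x) ^ A := by
    have := (Nat.ceil_lt_add_one (by linarith : (0 : ℝ) ≤ (2 * x) ^ A)).le
    linarith
  have hxA : (1 : ℝ) ≤ x ^ A := one_le_pow₀ hx1
  have hmA : x ^ A * x ≤ x ^ m := by
    rw [← pow_succ]
    exact pow_le_pow_right₀ hx1 (by omega)
  have hcost : c2 * B * Real.sqrt (bet d L t / t) ≤ ε / 2 := by
    have h1 : c2 * B * Real.sqrt (bet d L t / t) ≤ c2 * (2 * (2 * x) ^ A) * (2 / x ^ m) :=
      mul_le_mul (mul_le_mul_of_nonneg_left hBle hc2) hsq hsq0 (by positivity)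
    have h2 : c2 * (2 * (2 * x) ^ A) * (2 / x ^ m) = K1 * (x ^ A / x ^ m) := by
      rw [hK1, mul_pow]; ring
    have h3 : x ^ A / x ^ m ≤ 1 / x := by
      rw [div_le_div_iff₀ (by positivity) (by positivity), one_mul]
      exact hmA
    have h4 : K1 * (x ^ A / x ^ m) ≤ K1 * (1 / x) := mul_le_mul_of_nonneg_left h3 (by positivity)
    have h5 : K1 * (1 / x) ≤ ε / 2 := by
      rw [mul_one_div, div_le_iff₀ (by linarith)]
      rw [div_le_iff₀ (by positivity)] at hQ1
      linarith
    linarith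
  by_cases hk : k = 0
  · subst hk
    have h1 := hew L (by omega) t ht1 z 1 hz le_rfl (fun i => i.elim0) τ
    rw [Fintype.card_fin] at h1
    refine h1.trans ?_
    have h2 : c1 * 1 * Real.sqrt (bet d L t / t) ≤ K2 / x := by
      have h3 : c1 * 1 * Real.sqrt (bet d L t / t) ≤ c1 * 1 * (2 / x ^ m) :=
        mul_le_mul_of_nonneg_left hsq (by positivity)
      have h4 : 2 / x ^ m ≤ 2 / x := by
        refine div_le_div_of_nonneg_left (by norm_num) (by positivity) ?_
        have : x ≤ x ^ A * x := le_mul_of_one_le_left hxpos hxA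
        linarith
      have h5 : c1 * 1 * (2 / x ^ m) ≤ c1 * 1 * (2 / x) :=
        mul_le_mul_of_nonneg_left h4 (by positivity)
      have h6 : c1 * 1 * (2 / x) ≤ K2 / x := by
        rw [mul_div_assoc']
        refine div_le_div_of_nonneg_right ?_ hxpos
        rw [hK2]
        have : (0 : ℝ) ≤ c1 * (d * (4 * 2 ^ A * ((0 : ℕ) : ℝ) + L₀)) := by positivity
        linarith
      linarith
    have h7 : K2 / x ≤ ε := by
      rw [div_le_iff₀ (by linarith)]
      rw [div_le_iff₀ (by positivity)] at hQ2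
      linarith
    linarith
  have hk1 : 1 ≤ k := Nat.one_le_iff_ne_zero.2 hk
  by_cases hLs : L < 2 * B * k + L₀
  · -- small tori
    have h1 := hew L (by omega) t ht1 z (d * L + 1) hz (by
        have : (0 : ℝ) ≤ (d : ℝ) * L := by positivity
        linarith) (fun i j => by
        obtain ⟨u, hu1, hu2⟩ := diam_all (z i) (z j)
        exact ⟨u, hu1, by linarith⟩) τ
    rw [Fintype.card_fin] at h1
    refine h1.trans ?_
    have hLr : (L : ℝ) ≤ 2 * (2 * (2 * x) ^ A) * k + L₀ := by
      have h2 : (L : ℝ) ≤ 2 * B * k + L₀ := by exact_mod_cast hLs.le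
      have h3 : 2 * (B : ℝ) * k ≤ 2 * (2 * (2 * x) ^ A) * k :=
        mul_le_mul_of_nonneg_right (mul_le_mul_of_nonneg_left hBle (by norm_num)) (by positivity)
      linarith
    have hLr2 : (d : ℝ) * L + 1 ≤ (d * (4 * 2 ^ A * k + L₀) + 1) * x ^ A := by
      have h2 : 2 * (2 * (2 * x) ^ A) * (k : ℝ) + L₀ ≤ (4 * 2 ^ A * k + L₀) * x ^ A := by
        rw [mul_pow]
        have : (L₀ : ℝ) ≤ L₀ * x ^ A := le_mul_of_one_le_right (by positivity) hxA
        nlinarith
      have h3 : (d : ℝ) * L ≤ d * ((4 * 2 ^ A * k + L₀) * x ^ A) :=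
        mul_le_mul_of_nonneg_left (hLr.trans h2) (by positivity)
      linarith
    calc c1 * (d * L + 1) * Real.sqrt (bet d L t / t)
        ≤ c1 * ((d * (4 * 2 ^ A * k + L₀) + 1) * x ^ A) * (2 / x ^ m) :=
          mul_le_mul (mul_le_mul_of_nonneg_left hLr2 hc1.le) hsq hsq0 (by positivity)
      _ = K2 * (x ^ A / x ^ m) := by rw [hK2]; ring
      _ ≤ K2 * (1 / x) := by
          refine mul_le_mul_of_nonneg_left ?_ (by positivity)
          rw [div_le_div_iff₀ (by positivity) (by positivity), one_mul]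
          exact hmA
      _ ≤ ε := by
          rw [mul_one_div, div_le_iff₀ (by linarith)]
          rw [div_le_iff₀ (by positivity)] at hQ2
          linarith
  push Not at hLs
  have hBL : 2 * B * Fintype.card (Fin k) ≤ L := by rw [Fintype.card_fin]; omega
  set i0 : Fin d := ⟨0, by omega⟩ with hi0
  obtain ⟨z', hz'1, hz'2, hz'3, hz'4⟩ := hmv L (by omega) t ht1 B hB1 hBL i0 z hz
  rw [Fintype.card_fin] at hz'2
  have hmain : |expect d L t (fun σ => patI τ σ z') - (relCl τ).card / (k.factorial : ℝ)| ≤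
      ε / 2 := by
    set s : ℕ := ⌊Real.exp x⌋₊ with hs
    have hexp0 : (0 : ℝ) ≤ Real.exp x := (Real.exp_pos x).le
    have hsle : (s : ℝ) ≤ Real.exp x := Nat.floor_le hexp0
    have hsge : Real.exp x < s + 1 := Nat.lt_floor_add_one _
    set Bs : ℝ := 2 * (Real.exp (Real.sqrt x) + 1) + 2 * (2 * (2 * x) ^ A) * k with hBs
    have hBs0 : 0 ≤ Bs := by
      have := Real.exp_pos (Real.sqrt x)
      positivity
    have hs1 : (s₀ : ℝ) < s := by linarith
    have hs1' : s₀ ≤ s := by exact_mod_cast hs1.le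
    have hspos : (0 : ℝ) < s := lt_of_le_of_lt (by positivity) hs1
    have hlogs : Real.log s ≤ x := by
      rw [← Real.log_exp x]
      exact Real.log_le_log hspos hsle
    have hspos' : 1 ≤ s := by exact_mod_cast hspos
    have hlogs0 : 0 ≤ Real.log s := Real.log_nonneg (by exact_mod_cast hspos')
    by_cases hLs4 : L < 4 * s
    · -- the torus
      have hLpos : (0 : ℝ) < L := by exact_mod_cast (by omega : 0 < L)
      have hlogL : Real.log L ≤ 2 * x := by
        have h1 : (L : ℝ) ≤ 4 * s := by exact_mod_cast hLs4.le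
        have h2 : Real.log L ≤ Real.log (4 * s) := Real.log_le_log hLpos h1
        rw [Real.log_mul (by norm_num) hspos.ne'] at h2
        have h3 : Real.log 4 ≤ 4 := Real.log_le_self (by norm_num)
        linarith
      have hlogL0 : 0 ≤ Real.log L := Real.log_nonneg (by exact_mod_cast (by omega : 1 ≤ L))
      refine hL₀ L (by omega) t ?_ z' ?_ τ
      · calc Real.log L ^ C2 ≤ (2 * x) ^ C2 := pow_le_pow_left₀ hlogL0 hlogL _
          _ ≤ (x ^ 2) ^ C2 := pow_le_pow_left₀ (by positivity) (by nlinarith) _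
          _ = x ^ (2 * C2) := by rw [pow_mul]
          _ ≤ x ^ (2 * m) := pow_le_pow_right₀ hx1 (by omega)
          _ = t := hxt
      · intro a b hab
        calc Real.log L ^ A2 ≤ (2 * x) ^ A2 := pow_le_pow_left₀ hlogL0 hlogL _
          _ ≤ (2 * x) ^ A := pow_le_pow_right₀ (by linarith) (by omega)
          _ ≤ B := hBge
          _ ≤ (QK.nrm (z' a - z' b) : ℝ) := by exact_mod_cast hz'3 a b hab
    · push Not at hLs4
      -- the box
      set R : ℕ := ⌈r⌉₊ with hR
      have hrx : r ≤ Real.exp (Real.sqrt x) := by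
        have hlogr0 : 0 ≤ Real.log r := Real.log_nonneg hr
        have h1 : (Real.log r ^ 2) ^ (2 * m) ≤ x ^ (2 * m) := by
          rw [hxt, ← pow_mul]
          calc Real.log r ^ (2 * (2 * m)) = Real.log r ^ (4 * m) := by congr 1; ring
            _ ≤ t := hrt
        have h2 : Real.log r ^ 2 ≤ x := le_of_pow_le_pow_left₀ hmne hxpos h1
        have h3 : Real.log r ≤ Real.sqrt x := Real.le_sqrt_of_sq_le h2
        exact (Real.log_le_iff_le_exp (by linarith)).1 h3
      have hRr : r ≤ R := Nat.le_ceil r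
      have hRle : (R : ℝ) ≤ Real.exp (Real.sqrt x) + 1 :=
        (Nat.ceil_lt_add_one (by linarith : 0 ≤ r)).le.trans (by linarith)
      have hfit : 2 * R + 2 * B * k < s := by
        have h1 : (2 * R + 2 * B * k : ℝ) ≤ Bs := by
          have h2 : 2 * (B : ℝ) * k ≤ 2 * (2 * (2 * x) ^ A) * k :=
            mul_le_mul_of_nonneg_right (mul_le_mul_of_nonneg_left hBle (by norm_num))
              (by positivity)
          rw [hBs]
          linarith
        have h3 : (2 * R + 2 * B * k : ℝ) < s := by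
          have : (0 : ℝ) ≤ s₀ := by positivity
          linarith
        exact_mod_cast h3
      set j0 : Fin k := ⟨0, hk1⟩ with hj0
      set a : Fin d → ZMod L := (fun _ => ((R : ℕ) : ZMod L)) - z j0 with ha
      have hpat := patP_add t a z' τ
      rw [← hpat]
      refine hs₀ s hs1' L hLs4 t ?_ (fun i => z' i + a) ?_ ?_ τ
      · calc Real.log s ^ C1 ≤ x ^ C1 := pow_le_pow_left₀ hlogs0 hlogs _
          _ ≤ x ^ (2 * m) := pow_le_pow_right₀ hx1 (by omega)
          _ = t := hxt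
      · intro i l
        obtain ⟨n, hn1, hn2⟩ := hz'2 i
        obtain ⟨u, hu1, hu2⟩ := hdiam j0 i
        have hul : |(u l : ℝ)| ≤ R :=
          (Finset.single_le_sum (f := fun m => |(u m : ℝ)|) (fun _ _ => abs_nonneg _)
            (Finset.mem_univ l)).trans (hu2.trans hRr)
        have hul' : |u l| ≤ (R : ℤ) := by exact_mod_cast hul
        have hul2 := abs_le.1 hul'
        set nl : ℤ := (Pi.single i0 (n : ℤ) : Fin d → ℤ) l with hnl
        have hnl0 : 0 ≤ nl ∧ nl ≤ n := by
          rw [hnl]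
          by_cases h : l = i0
          · subst h; simp
          · rw [Pi.single_eq_of_ne h]; simp
        have hcoord : (z' i + a) l - (0 : Fin d → ZMod L) l =
            (((u l + nl + R).toNat : ℕ) : ZMod L) := by
          have h1 : (((u l + nl + R).toNat : ℕ) : ZMod L) = ((u l + nl + R : ℤ) : ZMod L) := by
            rw [← Int.cast_natCast, Int.toNat_of_nonneg (by linarith [hul2.1, hnl0.1])]
          rw [h1, hn2, hu1, ha]
          simp only [Pi.add_apply, Pi.sub_apply, Pi.zero_apply, sub_zero, red]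
          push_cast
          ring
        show ((z' i + a) l - (0 : Fin d → ZMod L) l).val < s
        have hn1' : (n : ℤ) ≤ 2 * B * k := by exact_mod_cast hn1
        have hfit' : (2 * R + 2 * B * k : ℤ) < s := by exact_mod_cast hfit
        rw [hcoord, ZMod.val_natCast]
        refine lt_of_le_of_lt (Nat.mod_le _ _) ?_
        have h5 : (u l + nl + R).toNat ≤ 2 * R + 2 * B * k := by
          rw [Int.toNat_le]
          push_cast
          linarith [hul2.2, hnl0.2]
        omega
      · intro i j hij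
        have h1 : z' i + a - (z' j + a) = z' i - z' j := by abel
        calc Real.log s ^ A1 ≤ x ^ A1 := pow_le_pow_left₀ hlogs0 hlogs _
          _ ≤ (2 * x) ^ A1 := pow_le_pow_left₀ hxpos (by linarith) _
          _ ≤ (2 * x) ^ A := pow_le_pow_right₀ (by linarith) (by omega)
          _ ≤ B := hBge
          _ ≤ (QK.nrm (z' i + a - (z' j + a)) : ℝ) := by
            rw [h1]
            exact_mod_cast hz'3 i j hij
  have h8 := abs_sub_le (expect d L t (fun σ => patI τ σ z)) (expect d L t (fun σ => patI τ σ z'))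
    ((relCl τ).card / (k.factorial : ℝ))
  have h9 := hz'4 τ
  linarith

end Pool.Agent.Stirring.LC
end

section

/-! 6ii: the law of the traces of the cycles on a set of diameter `r`, `(log r) ^ C ≤ t`. -/

open Finset

set_option autoImplicit false
set_option linter.unusedSectionVars false

namespace Pool.Agent.Stirring.LC

open Pool.Agent.Stirring

/-- Comparison of grouping probabilities in `B` with those of a uniform permutation of `B`. -/
theorem group_close_of {d C : ℕ} (hK : LKLaw d C) (ι : Type*) [Fintype ι] [DecidableEq ι]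
    {ε : ℝ} (hε : 0 < ε) :
    ∃ t₀ : ℝ, ∀ (L : ℕ) [NeZero L], 3 ≤ L → ∀ t r : ℝ, t₀ ≤ t → 1 ≤ r → Real.log r ^ C ≤ t →
      ∀ B : Finset (Fin d → ZMod L), Near d L B r →
      ∀ (R : ι → ι → Prop) (z : ι → B),
        |expect d L t (fun σ => gI R σ (fun i => (z i : Fin d → ZMod L))) -
          unifE (fun τ : Equiv.Perm B => gI R τ z)| ≤ ε := by
  classical
  set n := Fintype.card ι with hn
  have hnf : (0 : ℝ) < (n.factorial : ℝ) := by exact_mod_cast Nat.factorial_pos n
  choose c hc using fun k : ℕ => hK k (ε / n.factorial) (by positivity)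
  refine ⟨∑ k ∈ Finset.range (n + 1), |c k|, ?_⟩
  intro L _ hL t r ht hr hrt B hB R z
  obtain ⟨k, p, z₁, hz₁, hz, hk⟩ := exists_factor z
  have hz₁' : Function.Injective (fun i => (z₁ i : Fin d → ZMod L)) :=
    fun a b h => hz₁ (Subtype.ext h)
  have hkn : k ≤ n := hk
  have htk : c k ≤ t := by
    refine le_trans (le_abs_self _) (le_trans ?_ ht)
    exact Finset.single_le_sum (f := fun k : ℕ => |c k|) (fun j _ => abs_nonneg _)
      (Finset.mem_range.mpr (by omega))
  have hzz : (fun i => (z i : Fin d → ZMod L)) = (fun i => (z₁ i : Fin d → ZMod L)) ∘ p := by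
    funext i
    rw [hz]
    rfl
  have e1 : expect d L t (fun σ => gI R σ (fun i => (z i : Fin d → ZMod L))) =
      ∑ τ : Equiv.Perm (Fin k), gI R τ p * (((relCl τ).card : ℝ)⁻¹ *
        patP d L t (fun i => (z₁ i : Fin d → ZMod L)) τ) := by
    rw [hzz]
    simp only [gI_comp]
    rw [expect_sum]
    refine Finset.sum_congr rfl fun τ _ => ?_
    rw [expect_smul]
    unfold patW
    rw [expect_smul]
    rfl
  have e2 : unifE (fun τ : Equiv.Perm B => gI R τ z) =
      ∑ τ : Equiv.Perm (Fin k), gI R τ p * (((relCl τ).card : ℝ)⁻¹ *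
        ((relCl τ).card / (k.factorial : ℝ))) := by
    rw [hz]
    simp only [gI_comp]
    rw [unifE_sum]
    refine Finset.sum_congr rfl fun τ _ => ?_
    rw [unifE_smul]
    unfold patW
    rw [unifE_smul, unif_pat hz₁, Fintype.card_fin]
  rw [e1, e2, ← Finset.sum_sub_distrib]
  refine (Finset.abs_sum_le_sum_abs _ _).trans ?_
  have h1 : ∀ τ ∈ (Finset.univ : Finset (Equiv.Perm (Fin k))),
      |gI R τ p * (((relCl τ).card : ℝ)⁻¹ * patP d L t (fun i => (z₁ i : Fin d → ZMod L)) τ) -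
        gI R τ p * (((relCl τ).card : ℝ)⁻¹ * ((relCl τ).card / (k.factorial : ℝ)))| ≤
        ε / n.factorial := by
    intro τ _
    rw [← mul_sub, ← mul_sub, abs_mul, abs_mul]
    have h2 : |patP d L t (fun i => (z₁ i : Fin d → ZMod L)) τ -
        (relCl τ).card / (k.factorial : ℝ)| ≤ ε / n.factorial :=
      hc k L hL t r htk hr hrt (fun i => (z₁ i : Fin d → ZMod L)) hz₁'
        (fun i j => hB _ (z₁ i).2 _ (z₁ j).2) τ
    have h3 : |gI R τ p| ≤ 1 := by
      unfold gI
      split_ifs <;> simp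
    have h4 : |((relCl τ).card : ℝ)⁻¹| ≤ 1 := by
      rw [abs_of_nonneg (by positivity)]
      refine inv_le_one_of_one_le₀ ?_
      exact_mod_cast Finset.card_pos.mpr ⟨_, self_mem_relCl _⟩
    calc |gI R τ p| * (|((relCl τ).card : ℝ)⁻¹| *
          |patP d L t (fun i => (z₁ i : Fin d → ZMod L)) τ -
            (relCl τ).card / (k.factorial : ℝ)|) ≤
        1 * (1 * (ε / n.factorial)) := by
          refine mul_le_mul h3 ?_ (by positivity) zero_le_one
          exact mul_le_mul h4 h2 (abs_nonneg _) zero_le_one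
      _ = _ := by ring
  refine (Finset.sum_le_sum h1).trans ?_
  rw [Finset.sum_const, Finset.card_univ, Fintype.card_perm, Fintype.card_fin, nsmul_eq_mul]
  have h5 : (k.factorial : ℝ) ≤ n.factorial := by exact_mod_cast Nat.factorial_le hkn
  calc (k.factorial : ℝ) * (ε / n.factorial) ≤ n.factorial * (ε / n.factorial) :=
        mul_le_mul_of_nonneg_right h5 (by positivity)
    _ = ε := by field_simp

/-- Expectations close to those for a uniform permutation, in all sets of diameter `r`. -/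
def CloseL (d C : ℕ) (G : C(KKset, ℝ)) : Prop :=
  ∀ ε : ℝ, 0 < ε → ∃ t₀ : ℝ, ∀ (L : ℕ) [NeZero L], 3 ≤ L → ∀ t r : ℝ, t₀ ≤ t → 1 ≤ r →
    Real.log r ^ C ≤ t → ∀ (B : Finset (Fin d → ZMod L)) [Nonempty B], Near d L B r →
    |expect d L t (fun σ => G (ptB B σ)) - unifE (fun τ : Equiv.Perm B => G (pt τ))| ≤ ε

theorem closeL_of_mom {d C : ℕ} (hK : LKLaw d C) {G : C(KKset, ℝ)} (hG : Mom G) :
    CloseL d C G := by
  obtain ⟨ι, _, _, R, h⟩ := hG
  intro ε hε
  obtain ⟨t₀, hc⟩ := group_close_of hK ι hε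
  refine ⟨t₀, ?_⟩
  intro L _ hL t r ht hr hrt B _ hB
  have hn : (0 : ℝ) < Fintype.card B := by exact_mod_cast Fintype.card_pos
  set N : ℝ := (Fintype.card B : ℝ) ^ Fintype.card ι with hN
  have hN0 : 0 < N := by positivity
  have e0 : ∀ σ : Equiv.Perm (Fin d → ZMod L), G (ptB B σ) =
      N⁻¹ * ∑ z : ι → B, gI R σ (fun i => (z i : Fin d → ZMod L)) := by
    intro σ
    unfold ptB
    rw [h _ (trP σ B), div_eq_inv_mul]
    congr 1
    exact Finset.sum_congr rfl fun z _ => gI_trP R σ B z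
  have e0' : ∀ τ : Equiv.Perm B, G (pt τ) = N⁻¹ * ∑ z : ι → B, gI R τ z := by
    intro τ
    rw [h _ τ, div_eq_inv_mul]
  simp only [e0, e0']
  rw [expect_smul, unifE_smul, expect_sum, unifE_sum, ← mul_sub, ← Finset.sum_sub_distrib, abs_mul,
    abs_of_pos (by positivity : (0 : ℝ) < N⁻¹)]
  have h1 : |∑ z : ι → B, (expect d L t (fun σ => gI R σ (fun i => (z i : Fin d → ZMod L))) -
      unifE (fun τ : Equiv.Perm B => gI R τ z))| ≤ N * ε := by
    refine (Finset.abs_sum_le_sum_abs _ _).trans ?_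
    refine (Finset.sum_le_sum fun z _ => hc L hL t r ht hr hrt B hB R z).trans (le_of_eq ?_)
    rw [Finset.sum_const, Finset.card_univ, Fintype.card_fun, nsmul_eq_mul, hN]
    push_cast
    rfl
  calc N⁻¹ * |∑ z : ι → B, (expect d L t (fun σ => gI R σ (fun i => (z i : Fin d → ZMod L))) -
      unifE (fun τ : Equiv.Perm B => gI R τ z))| ≤ N⁻¹ * (N * ε) :=
        mul_le_mul_of_nonneg_left h1 (by positivity)
    _ = _ := by field_simp

theorem closeL_add {d C : ℕ} {G H : C(KKset, ℝ)} (hG : CloseL d C G) (hH : CloseL d C H) :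
    CloseL d C (G + H) := by
  intro ε hε
  obtain ⟨t₁, hc⟩ := hG (ε / 2) (by positivity)
  obtain ⟨t₂, hc'⟩ := hH (ε / 2) (by positivity)
  refine ⟨max t₁ t₂, ?_⟩
  intro L _ hL t r ht hr hrt B _ hB
  have e1 : ∀ σ : Equiv.Perm (Fin d → ZMod L), (G + H) (ptB B σ) = G (ptB B σ) + H (ptB B σ) :=
    fun σ => rfl
  have e2 : ∀ τ : Equiv.Perm B, (G + H) (pt τ) = G (pt τ) + H (pt τ) := fun σ => rfl
  simp only [e1, e2]
  rw [expect_add, unifE_add]
  have h1 := hc L hL t r ((le_max_left _ _).trans ht) hr hrt B hB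
  have h2 := hc' L hL t r ((le_max_right _ _).trans ht) hr hrt B hB
  rw [abs_le] at h1 h2 ⊢
  constructor <;> linarith [h1.1, h1.2, h2.1, h2.2]

theorem closeL_smul {d C : ℕ} (a : ℝ) {G : C(KKset, ℝ)} (hG : CloseL d C G) :
    CloseL d C (a • G) := by
  intro ε hε
  have ha : 0 ≤ |a| := abs_nonneg a
  obtain ⟨t₀, hc⟩ := hG (ε / (|a| + 1)) (by positivity)
  refine ⟨t₀, ?_⟩
  intro L _ hL t r ht hr hrt B _ hB
  have e1 : ∀ σ : Equiv.Perm (Fin d → ZMod L), (a • G) (ptB B σ) = a * G (ptB B σ) :=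
    fun σ => rfl
  have e2 : ∀ τ : Equiv.Perm B, (a • G) (pt τ) = a * G (pt τ) := fun σ => rfl
  simp only [e1, e2]
  rw [expect_smul, unifE_smul, ← mul_sub, abs_mul]
  have h1 := hc L hL t r ht hr hrt B hB
  calc |a| * |expect d L t (fun σ => G (ptB B σ)) -
        unifE (fun τ : Equiv.Perm B => G (pt τ))| ≤
      |a| * (ε / (|a| + 1)) := mul_le_mul_of_nonneg_left h1 ha
    _ ≤ (|a| + 1) * (ε / (|a| + 1)) := mul_le_mul_of_nonneg_right (by linarith) (by positivity)
    _ = ε := by field_simp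

theorem closeL_zero {d C : ℕ} : CloseL d C 0 := by
  intro ε hε
  refine ⟨0, ?_⟩
  intro L _ hL t r ht hr hrt B _ hB
  have e1 : ∀ σ : Equiv.Perm (Fin d → ZMod L), (0 : C(KKset, ℝ)) (ptB B σ) = 0 := fun σ => rfl
  have e2 : ∀ τ : Equiv.Perm B, (0 : C(KKset, ℝ)) (pt τ) = 0 := fun σ => rfl
  simp only [e1, e2]
  rw [expect_const, unifE_const, sub_self, abs_zero]
  exact hε.le

theorem closeL_adjoin {d C : ℕ} (hK : LKLaw d C) {G : C(KKset, ℝ)}
    (hG : G ∈ Algebra.adjoin ℝ (Set.range powS)) : CloseL d C G := by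
  rw [← Subalgebra.mem_toSubmodule, Algebra.adjoin_eq_span] at hG
  induction hG using Submodule.span_induction with
  | mem G hG =>
    refine closeL_of_mom hK ?_
    induction hG using Submonoid.closure_induction with
    | mem G h =>
      obtain ⟨k, rfl⟩ := h
      exact mom_powS k
    | one => exact mom_one
    | mul G H _ _ h1 h2 => exact mom_mul h1 h2
  | zero => exact closeL_zero
  | add G H _ _ h1 h2 => exact closeL_add h1 h2
  | smul a G _ h => exact closeL_smul a h

/-- All continuous functions. -/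
theorem closeL_all {d C : ℕ} (hK : LKLaw d C) (F : C(KKset, ℝ)) : CloseL d C F := by
  intro δ hδ
  obtain ⟨G, hG, hFG⟩ := approx_powS F (ε := δ / 3) (by positivity)
  obtain ⟨t₀, hc⟩ := closeL_adjoin hK hG (δ / 3) (by positivity)
  refine ⟨max t₀ 0, ?_⟩
  intro L _ hL t r ht hr hrt B _ hB
  have ht0 : 0 ≤ t := (le_max_right _ _).trans ht
  have h1 := hc L hL t r ((le_max_left _ _).trans ht) hr hrt B hB
  have e1 : expect d L t (fun σ => F (ptB B σ)) =
      expect d L t (fun σ => G (ptB B σ)) + expect d L t (fun σ => F (ptB B σ) - G (ptB B σ)) := by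
    rw [← expect_add]
    congr 1
    funext σ
    ring
  have e2 : unifE (fun τ : Equiv.Perm B => F (pt τ)) =
      unifE (fun τ : Equiv.Perm B => G (pt τ)) +
        unifE (fun τ : Equiv.Perm B => F (pt τ) - G (pt τ)) := by
    rw [← unifE_add]
    congr 1
    funext σ
    ring
  have h3 : |expect d L t (fun σ => F (ptB B σ) - G (ptB B σ))| ≤ δ / 3 :=
    expect_abs_le ht0 fun σ => (hFG _).le
  have h4 : |unifE (fun τ : Equiv.Perm B => F (pt τ) - G (pt τ))| ≤ δ / 3 :=
    unifE_abs_le fun σ => (hFG _).le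
  rw [e1, e2]
  rw [abs_le] at h1 h3 h4 ⊢
  constructor <;> linarith [h1.1, h1.2, h3.1, h3.2, h4.1, h4.2]

/-- **6ii.** Continuous functions of finitely many shares. -/
theorem share_close_of_lklaw {d C : ℕ} (hK : LKLaw d C) {m : ℕ} {f : (Fin m → ℝ) → ℝ}
    (hf : Continuous f) {δ : ℝ} (hδ : 0 < δ) :
    ∃ t₀ : ℝ, ∀ (L : ℕ) [NeZero L], 3 ≤ L → ∀ t r : ℝ, t₀ ≤ t → 1 ≤ r → Real.log r ^ C ≤ t →
      ∀ B : Finset (Fin d → ZMod L), B.Nonempty → Near d L B r →
      |expect d L t (fun σ => f fun i => share σ B i) -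
        (∑ τ : Equiv.Perm (Fin B.card), f fun i => share τ Finset.univ i) /
          (B.card.factorial : ℝ)| ≤ δ := by
  classical
  set F : C(KKset, ℝ) :=
    ⟨fun p => f fun i => p.1 i, hf.comp (continuous_pi fun i =>
      (continuous_apply (i : ℕ)).comp continuous_subtype_val)⟩ with hF
  obtain ⟨t₀, h⟩ := closeL_all hK F δ hδ
  refine ⟨t₀, ?_⟩
  intro L _ hL t r ht hr hrt B hne hB
  have : Nonempty B := hne.to_subtype
  have h1 := h L hL t r ht hr hrt B hB
  have e1 : ∀ σ : Equiv.Perm (Fin d → ZMod L), F (ptB B σ) = f fun i : Fin m => share σ B i := by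
    intro σ
    change f (fun i : Fin m => relLen (trP σ B) i) = _
    congr 1
    funext i
    exact relLen_trP σ B i
  have e2 : unifE (fun τ : Equiv.Perm B => F (pt τ)) =
      (∑ τ : Equiv.Perm (Fin B.card), f fun i : Fin m => share τ Finset.univ i) /
        (B.card.factorial : ℝ) := by
    unfold unifE
    rw [Fintype.card_coe]
    congr 1
    refine Fintype.sum_equiv (B.equivFin.permCongr) _ _ fun τ => ?_
    change f (fun i : Fin m => relLen τ i) = _
    congr 1
    funext i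
    exact (relLen_conj B.equivFin τ i).symm
  simp only [e1] at h1
  rw [e2] at h1
  exact h1

end Pool.Agent.Stirring.LC
end
end
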