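import Pool.Agent.Lib.MP_6c3d62_pr.Mg.G071
import Pool.Agent.Lib.MP_6c3d62_pr.LC.ParH
import Pool.Agent.Lib.MP_6c3d62_pr.Mg.G068
import Pool.Agent.Lib.MP_6c3d62_pr.Mg.G072
import Pool.Agent.Lib.MP_6c3d62_pr.Mg.G070
import Pool.Agent.Lib.MP_6c3d62_pr.Mg.G061
import Pool.Agent.Lib.MP_6c3d62_pr.Mg.G075
import Pool.Agent.Lib.MP_6c3d62_pr.TN.G9b
import Pool.Agent.Lib.MP_6c3d62_pr.Mg.G053
import Pool.Agent.Lib.MP_6c3d62_pr.Mg.G062

section

section

/-! G1: the environment in a box of side `s`, uniformly in `L`. -/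

set_option autoImplicit false
set_option linter.unusedSectionVars false

open Finset Equiv Pool.Agent.Stirring Filter

namespace Pool.Agent.PL

/-- G1. -/
theorem env_good_local (d : ℕ) (hd : 2 ≤ d) : ∃ (A B : ℕ) (c1 : ℝ), 0 < c1 ∧
    ∀ᶠ s : ℕ in atTop, ∀ (L : ℕ) [NeZero L], 4 * s ≤ L → EnvGoodL d A B c1 s L := by
  obtain ⟨c, hc, hkge⟩ := QK.hk_ge d
  have hK1 : (1 : ℝ) ≤ (2 * d + 6 : ℕ) := by exact_mod_cast (by omega : 1 ≤ 2 * d + 6)
  obtain ⟨R, A₀, c1, c2, hc1, -, hpar⟩ := QL.params_local d hd hc (4 * d + 8) ((4 * d + 8) * d) le_rfl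
    ((2 * d + 6 : ℕ) : ℝ) hK1
  obtain ⟨B, T₀, -, hB⟩ := hpar (max A₀ 8) (le_max_left _ _)
  have hA8 : 8 ≤ max A₀ 8 := le_max_right _ _
  generalize max A₀ 8 = A at hB hA8
  refine ⟨A + 1, B, c1, hc1, ?_⟩
  filter_upwards [ev_log_ge T₀, par_hidden_loc d (4 * d + 8) A (by omega) (by omega) (by omega),
    ev_log_ge 2, ev_log_pow_le B 1, eventually_ge_atTop (96 * 4 ^ d + 100)]
    with s hT0 hL2 hlog hB1 hs100
  intro L _ hL4
  rw [one_mul] at hB1
  have hlog1 : 1 ≤ Real.log s := by linarith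
  have hx1 : 1 ≤ Real.log s ^ A := one_le_pow₀ hlog1
  obtain ⟨b, hbdef⟩ : ∃ b : ℕ, b = ⌈Real.log s ^ A⌉₊ := ⟨_, rfl⟩
  have hb1 : Real.log s ^ A ≤ b := by rw [hbdef]; exact Nat.le_ceil _
  have hb2 : (b : ℝ) ≤ 2 * Real.log s ^ A := by
    have := Nat.ceil_lt_add_one (zero_le_one.trans hx1)
    rw [← hbdef] at this
    linarith
  have hsL : s ≤ L := by omega
  have hsL' : (s : ℝ) ≤ L := by exact_mod_cast hsL
  have hs0 : (0 : ℝ) < s := by
    have : 0 < s := by omega
    exact_mod_cast this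
  obtain ⟨p1, p2, p3, p4, p5, p6, p7, p8⟩ := hL2 b hb1 hb2 L hsL
  obtain ⟨h, hh1, hh2, Ω, iΩ, S, Λ, HS, hcard, hmix, hgood⟩ :=
    HC.hidden_coins_loc (d := d) (L := L) (by omega) (b := b) (r := b ^ (4 * d + 8))
      (h₀ := (b : ℝ) ^ (4 * d + 8)) p1 p2 p3 p4
      (by push_cast at p5 ⊢; exact p5) p6
  have hbr : (1 : ℝ) ≤ b := by exact_mod_cast p1
  have hbL : b ≤ L := by
    have h1 : b ≤ b ^ (4 * d + 8) := Nat.le_self_pow (by omega) b
    omega
  have hcb : (QK.box d L b).card = b ^ d := QK.card_box hbL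
  have hdens : QK.dens (Fin d → ZMod L) (QK.box d L b) Λ =
      (((L / b ^ (4 * d + 8)) ^ d : ℕ) : ℝ) * ((b ^ d : ℕ) : ℝ) / ((L ^ d : ℕ) : ℝ) := by
    unfold QK.dens
    rw [hcard, hcb, QK.card_V]
    push_cast
    rfl
  obtain ⟨J, Jg, m₀, r, δ, ρ, α, Mm, hP, q1, q3, q4, q5, q6⟩ :=
    hB (Real.log s) hT0 L b (hB1.trans hsL') hb1 hb2 h hh1 hh2
      (QK.dens (Fin d → ZMod L) (QK.box d L b) Λ)
      (by rw [hdens]; exact p7) (by rw [hdens]; exact p8)
  have hJ2 : 2 ≤ J := by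
    have h1 := hP.l5
    have h2 := hP.hJg
    have h3 : Jg ≤ R * (2 * Jg) + m₀ + Jg := by omega
    omega
  have hba1 : (1 : ℝ) ≤ (b : ℝ) ^ (4 * d + 8) := one_le_pow₀ hbr
  have hJ0 : (0 : ℝ) ≤ J := Nat.cast_nonneg _
  have hJs : (J : ℝ) ≤ s := by
    refine le_trans ?_ (q1.trans hB1)
    nlinarith
  have hbs : b ≤ s := by
    have h1 : (b : ℝ) ≤ s := by
      refine le_trans ?_ (q1.trans hB1)
      have h2 : (b : ℝ) ≤ (b : ℝ) ^ (4 * d + 8) := by
        conv_lhs => rw [← pow_one (b : ℝ)]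
        exact pow_le_pow_right₀ hbr (by omega)
      have h3 : (1 : ℝ) ≤ J := by exact_mod_cast (by omega : 1 ≤ J)
      nlinarith
    exact_mod_cast h1
  have hrs : 2 * r ≤ s := by
    have h1 : 2 * (r : ℝ) ≤ s := by
      have h0 : (0 : ℝ) ≤ r := Nat.cast_nonneg r
      have h1 := q4.trans hB1
      linarith
    exact_mod_cast h1
  have h8b : 8 * b ≤ r := by
    have h1 := hP.l3
    have h2 := hP.l8
    have h3 : (8 : ℝ) * b ≤ r := by
      have : (0 : ℝ) ≤ b := Nat.cast_nonneg _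
      linarith
    exact_mod_cast h3
  have hh0 : 0 ≤ h := by linarith [hP.hh]
  have hbd0 : (0 : ℝ) ≤ (b : ℝ) ^ d := by positivity
  have HR := HC.restr_law HS (QL.DB (0 : Fin d → ZMod L) s r b)
  refine ⟨b, J, r, h, (b : ℝ) ^ d * Mm,
    2 * QK.dens (Fin d → ZMod L) (QK.box d L b) Λ * J + ((2 * d + 6 : ℕ) : ℝ) * Real.log s + 1,
    Ω, iΩ, HC.restr S (QL.DB 0 s r b), QL.DB 0 s r b, p1, hbs, ?_, ?_, by omega, hJs, hh0, ?_,
    by omega, by omega, mul_nonneg hbd0 q5, q6, q3,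
    HR.w_nonneg, HR.w_sum, hmix _, HR.allDis, HC.restr_sub S _, ?_, ?_, ?_⟩
  · exact (pow_le_pow_right₀ hlog1 hA8).trans hb1
  · refine hb2.trans ?_
    rw [pow_succ, mul_comm]
    exact mul_le_mul_of_nonneg_left hlog (by linarith)
  · exact (mul_le_mul_of_nonneg_left hh2 (Nat.cast_nonneg _)).trans q1
  · have h1 := QL.card_DB (d := d) (L := L) p1 0 s r
    have h2 : (s + r) ^ d ≤ (2 * s) ^ d := Nat.pow_le_pow_left (by omega) d
    exact_mod_cast h1.trans h2
  · intro v hv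
    exact QL.dp_mem_DB h8b hv
  · intro M0 hM0 hM0d
    have h1 := QL.pr_goodEnvL (o := (0 : Fin d → ZMod L)) (s := s) (by omega : 1 ≤ d) hP hc
      (fun s' hs x y => hkge L (by omega) s' hs x y) HR rfl
      (fun z hz => hgood _ z hz) q5 (HC.restr_sub S _) M0 hM0
      (fun v hv => QL.dp_mem_DB h8b (hM0d v hv))
    unfold QK.Pr at h1
    refine le_trans (le_of_eq ?_) (h1.trans ?_)
    · refine QK.EL_congr _ fun l _ => ?_
      rw [envS_eq, envW_eq]
      split_ifs <;> first | rfl | (exfalso; tauto)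
    · have h2 : Real.exp (-(((2 * d + 6 : ℕ) : ℝ) * Real.log s)) = 1 / (s : ℝ) ^ (2 * d + 6) := by
        rw [Real.exp_neg, mul_comm, ← Real.rpow_def_of_pos hs0, Real.rpow_natCast, one_div]
      rw [h2]
      have hs1' : (1 : ℝ) ≤ s := by
        have : 1 ≤ s := by omega
        exact_mod_cast this
      have hs9 : (96 : ℝ) * 4 ^ d ≤ s := by
        have h3 : 96 * 4 ^ d ≤ s := by omega
        exact_mod_cast h3
      have h3 : ((J : ℝ) + 1) ^ 3 ≤ (2 * s) ^ 3 :=
        pow_le_pow_left₀ (by positivity) (by linarith) 3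
      have h4 : (((s : ℝ) + r) ^ d) ^ 2 ≤ ((2 * (s : ℝ)) ^ d) ^ 2 := by
        have h5 : (r : ℝ) ≤ s := by exact_mod_cast (by omega : r ≤ s)
        have h6 : (0 : ℝ) ≤ r := Nat.cast_nonneg _
        exact pow_le_pow_left₀ (by positivity)
          (pow_le_pow_left₀ (by positivity) (by linarith) d) 2
      calc ((J : ℝ) + 1) ^ 3 * (12 * (((s : ℝ) + r) ^ d) ^ 2 * (1 / (s : ℝ) ^ (2 * d + 6)))
          ≤ (2 * s) ^ 3 * (12 * ((2 * (s : ℝ)) ^ d) ^ 2 * (1 / (s : ℝ) ^ (2 * d + 6))) := by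
            gcongr
        _ = 96 * 4 ^ d / (s : ℝ) ^ 3 := by
            have h7 : (s : ℝ) ^ (2 * d + 6) = (s : ℝ) ^ 6 * ((s : ℝ) ^ d) ^ 2 := by ring
            have h8 : ((2 : ℝ) ^ d) ^ 2 = 4 ^ d := by
              rw [← pow_mul, mul_comm, pow_mul]
              norm_num
            rw [h7, mul_pow, mul_pow, mul_pow, h8]
            field_simp
            ring
        _ ≤ 1 / s := by
            rw [div_le_div_iff₀ (by positivity) hs0]
            have h9 : (s : ℝ) ≤ (s : ℝ) ^ 2 := by nlinarith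
            nlinarith [mul_pos hs0 hs0]

end Pool.Agent.PL
end

section

/-! LOCAL version, block (3): all resistances between the windows. -/

set_option autoImplicit false
set_option linter.unusedSectionVars false

open Finset

namespace Pool.Agent.Stirring.RS

open PL

/-- Box to box. -/
theorem hub_hubL (d : ℕ) (c1 : ℝ) (hc1 : 0 < c1) (ov : ℕ)
    (L : ℕ) [NeZero L] (S : ℕ → Equiv.Perm (Fin d → ZMod L))
      (w : ℕ → (Fin d → ZMod L) → Option (Fin d → ZMod L)) (J N r : ℕ) (M Kw : ℝ)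
    (hr : 8 ≤ r) (hL : 2 * r ≤ L) {o : Fin d → ZMod L} {s : ℕ}
    (hE : GoodEnvL S w J N r c1 M Kw o s)
    (F : ℕ → (Fin d → ZMod L) → ℝ)
    (hF : ∀ j ≤ J, ∀ v v', w j v ≠ none → w j v = w j v' → F j v = F j v')
    (ι : Type) [Fintype ι] (a b : ι → (Fin d → ZMod L))
    (hab : ∀ m, near (r / 4) (a m) (b m))
    (hda : ∀ m v, near (r / 4) v (a m) → dp o s v) (hdb : ∀ m v, near (r / 4) v (b m) → dp o s v)
    (hov : ∀ v, (univ.filter fun m => near (r / 4) v (a m)).card ≤ ov) :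
      ∑ m, (mn (r / 4) (F 0) (a m) - mn (r / 4) (F J) (b m)) ^ 2
        ≤ ((4 ^ d / c1) ^ 2 * (ov * 4 ^ d)) * J / (r : ℝ) ^ d * en3 S J F := by
  have hrr : (0 : ℝ) < (r : ℝ) ^ d := by positivity
  have hCon : Con w F J := by
    intro m hm x y h1 h2
    exact hF (m + 1) (by omega) x y h2 h1
  have hdl : ∀ v : Fin d → ZMod L, dl v = (Pi.single v (1 : ℝ) : (Fin d → ZMod L) → ℝ) := by
    intro v; funext x
    rw [Pi.single_apply]; rfl
  have one : ∀ m, (mn (r / 4) (F 0) (a m) - mn (r / 4) (F J) (b m)) ^ 2 ≤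
      (4 ^ d / c1) ^ 2 * J * ∑ j ∈ range J, ∑ v, fwd S w (ub (r / 4) (a m)) j v *
        (jmp S F j v) ^ 2 := by
    intro m
    have h1 := law_to S w (G := F) (n := J) hCon (ub (r / 4) (a m)) (ub (r / 4) (b m))
      (ub_nonneg _ _) (ub_sum _ _) (ub_nonneg _ _) (ub_sum _ _)
      (1 / ((bx (r / 4) (b m)).card : ℝ)) (c1 / (r : ℝ) ^ d) (by positivity) (by positivity)
      (ub_le _ _)
      (by
        intro v v' hv hv'
        rw [hdl, ← kr_eq0]
        refine hE.low v v' (hda m v (ub_ne hv)) (hdb m v' (ub_ne hv')) ?_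
        exact near_mono (by omega) (near_trans (near_trans (ub_ne hv) (hab m))
          (near_symm (ub_ne hv'))))
    rw [ub_mean, ub_mean] at h1
    refine h1.trans ?_
    have hBpos := bx_pos (r / 4) (b m)
    have hratio : (1 / ((bx (r / 4) (b m)).card : ℝ)) / (c1 / (r : ℝ) ^ d) ≤ 4 ^ d / c1 := by
      have h1 := card_bx_quarter hr hL (b m)
      rw [div_div_eq_mul_div, div_mul_eq_mul_div, one_mul, div_div,
        div_le_div_iff₀ (by positivity) hc1]
      nlinarith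
    have hratio0 : 0 ≤ (1 / ((bx (r / 4) (b m)).card : ℝ)) / (c1 / (r : ℝ) ^ d) := by positivity
    refine mul_le_mul_of_nonneg_right (mul_le_mul_of_nonneg_right
      (pow_le_pow_left₀ hratio0 hratio 2) (Nat.cast_nonneg _)) ?_
    exact Finset.sum_nonneg fun j _ => Finset.sum_nonneg fun v _ =>
      mul_nonneg (fwd_nonneg S w (ub_nonneg _ _) j v) (sq_nonneg _)
  -- overlap
  have hsum : ∀ j v, ∑ m, fwd S w (ub (r / 4) (a m)) j v ≤ ov * 4 ^ d / (r : ℝ) ^ d := by
    intro j v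
    have h1 := fwd_lin S w (univ : Finset ι) (fun _ => (1 : ℝ)) (fun m => ub (r / 4) (a m)) j v
    have h2 : ∑ m, fwd S w (ub (r / 4) (a m)) j v =
        fwd S w (fun x => ∑ m ∈ (univ : Finset ι), (1 : ℝ) * ub (r / 4) (a m) x) j v := by
      rw [h1]; simp
    rw [h2]
    have h3 : ∀ x, ∑ m ∈ (univ : Finset ι), (1 : ℝ) * ub (r / 4) (a m) x ≤
        ov * 4 ^ d / (r : ℝ) ^ d := by
      intro x
      have h4 : ∀ m, (1 : ℝ) * ub (r / 4) (a m) x ≤
          if near (r / 4) x (a m) then 4 ^ d / (r : ℝ) ^ d else 0 := by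
        intro m
        rw [one_mul]
        unfold ub
        split_ifs
        · have h5 := card_bx_quarter hr hL (a m)
          rw [div_le_div_iff₀ (bx_pos _ _) hrr, one_mul]
          exact h5
        · exact le_rfl
      refine (Finset.sum_le_sum fun m _ => h4 m).trans ?_
      rw [← Finset.sum_filter, Finset.sum_const, nsmul_eq_mul, mul_div_assoc]
      refine mul_le_mul_of_nonneg_right ?_ (by positivity)
      exact_mod_cast hov x
    have h5 := fwd_mono S w h3 j v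
    rwa [fwd_const] at h5
  calc _ ≤ ∑ m, (4 ^ d / c1) ^ 2 * J * ∑ j ∈ range J, ∑ v, fwd S w (ub (r / 4) (a m)) j v *
        (jmp S F j v) ^ 2 := Finset.sum_le_sum fun m _ => one m
    _ = (4 ^ d / c1) ^ 2 * J * ∑ j ∈ range J, ∑ v, (∑ m, fwd S w (ub (r / 4) (a m)) j v) *
        (jmp S F j v) ^ 2 := by
      rw [← Finset.mul_sum]
      congr 1
      rw [Finset.sum_comm]
      refine Finset.sum_congr rfl fun j _ => ?_
      rw [Finset.sum_comm]
      refine Finset.sum_congr rfl fun v _ => ?_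
      rw [Finset.sum_mul]
    _ ≤ (4 ^ d / c1) ^ 2 * J * ∑ j ∈ range J, ∑ v, (ov * 4 ^ d / (r : ℝ) ^ d) *
        (jmp S F j v) ^ 2 := by
      refine mul_le_mul_of_nonneg_left ?_ (by positivity)
      refine Finset.sum_le_sum fun j _ => Finset.sum_le_sum fun v _ => ?_
      exact mul_le_mul_of_nonneg_right (hsum j v) (sq_nonneg _)
    _ = _ := by
      have h6 : ∑ j ∈ range J, ∑ v, (ov * 4 ^ d / (r : ℝ) ^ d) * (jmp S F j v) ^ 2 =
          (ov * 4 ^ d / (r : ℝ) ^ d) * en3 S J F := by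
        unfold en3
        rw [Finset.mul_sum]
        refine Finset.sum_congr rfl fun j _ => ?_
        rw [Finset.mul_sum]
        refine Finset.sum_congr rfl fun v _ => ?_
        unfold jmp
        ring
      rw [h6]
      ring

/-- Everything at the level of the functions `F : ℕ → V → ℝ`. -/
theorem res_levelsL (d : ℕ) (hd : 2 ≤ d) (c1 : ℝ) (hc1 : 0 < c1) : ∃ C : ℝ, 1 ≤ C ∧
    ∀ (L : ℕ) [NeZero L] (S : ℕ → Equiv.Perm (Fin d → ZMod L))
      (w : ℕ → (Fin d → ZMod L) → Option (Fin d → ZMod L)) (J N r : ℕ) (M Kw : ℝ)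
      (o : Fin d → ZMod L) (s : ℕ),
    1 ≤ N → 1 ≤ J → 8 ≤ r → 2 * r ≤ L → r ≤ s → s ≤ L → 0 ≤ M →
    GoodEnvL S w J N r c1 M Kw o s → M * Kw ≤ N →
    (N : ℝ) * J * (1 + Real.log s) ^ 2 ≤ (r : ℝ) ^ d →
    ∀ (F : ℕ → (Fin d → ZMod L) → ℝ),
      (∀ j ≤ J, ∀ v v', w j v ≠ none → w j v = w j v' → F j v = F j v') →
      (∀ j < J, ∀ v, w (j + 1) (S j v) = none → F (j + 1) (S j v) = F j v) →
      ∀ i i' v v', i ≤ J → i' ≤ J → w i v ≠ none → w i' v' ≠ none →
        (F i v - F i' v') ^ 2 ≤ C / N * en3 S J F := by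
  obtain ⟨C6, hC6, lat⟩ := lattice_res d hd
  obtain ⟨ov, cen⟩ := centresL d
  obtain ⟨C3, hC3⟩ : ∃ C3 : ℝ, C3 = 2 * (4 ^ d / c1) ^ 2 := ⟨_, rfl⟩
  obtain ⟨C5, hC5⟩ : ∃ C5 : ℝ, C5 = (4 ^ d / c1) ^ 2 * (ov * 4 ^ d) := ⟨_, rfl⟩
  have hC30 : 0 ≤ C3 := by rw [hC3]; positivity
  have hC50 : 0 ≤ C5 := by rw [hC5]; positivity
  obtain ⟨C7, hC7⟩ : ∃ C7 : ℝ, C7 = C3 + C5 + C6 * (4 * d * C5) := ⟨_, rfl⟩
  have h70 : 0 ≤ C6 * (4 * d * C5) := by positivity
  refine ⟨1 + 25 * C7, by linarith, ?_⟩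
  intro L _ S w J N r M Kw o s hN hJ hr hL hrs hsL hM hE hMK hbig F hF hF' i i' v v' hi hi' hv hv'
  have hNr : (0 : ℝ) < N := by positivity
  have hJr : (1 : ℝ) ≤ J := by exact_mod_cast hJ
  have hrr : (0 : ℝ) < (r : ℝ) ^ d := by positivity
  have hlog : 0 ≤ Real.log s := Real.log_natCast_nonneg s
  have hEn := en3_nonneg S J F
  obtain ⟨L', _, a, hL', hadj, hcov, hovl, hdeep⟩ := cen L r s o hr hrs hsL
  have hd4 : ∀ k v', near (r / 4) v' (a k) → dp o s v' := fun k v' h =>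
    hdeep k v' (near_mono (by omega) h)
  -- `J / r^d ≤ 1/N`
  have hJr2 : (J : ℝ) / (r : ℝ) ^ d * (1 + Real.log s) ^ 2 ≤ 1 / N := by
    rw [div_mul_eq_mul_div, div_le_div_iff₀ hrr hNr]
    calc (J : ℝ) * (1 + Real.log s) ^ 2 * N = (N : ℝ) * J * (1 + Real.log s) ^ 2 := by ring
      _ ≤ _ := hbig
      _ = _ := by ring
  have hJr1 : (J : ℝ) / (r : ℝ) ^ d ≤ 1 / N := by
    refine le_trans ?_ hJr2
    refine le_mul_of_one_le_right (by positivity) ?_
    nlinarith
  obtain ⟨H0, hH0⟩ : ∃ H0 : (Fin d → ZMod L') → ℝ, H0 = fun k => mn (r / 4) (F 0) (a k) :=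
    ⟨_, rfl⟩
  obtain ⟨HJ, hHJ⟩ : ∃ HJ : (Fin d → ZMod L') → ℝ, HJ = fun k => mn (r / 4) (F J) (a k) :=
    ⟨_, rfl⟩
  -- same cube
  have same : ∑ k, (H0 k - HJ k) ^ 2 ≤ C5 * J / (r : ℝ) ^ d * en3 S J F := by
    rw [hH0, hHJ, hC5]
    exact hub_hubL d c1 hc1 ov L S w J N r M Kw hr hL hE F hF (Fin d → ZMod L') a a
      (fun m => near_self _ _) hd4 hd4 hovl
  have adj : ∀ e : Fin d, ∑ k, (H0 k - HJ (k + Pi.single e 1)) ^ 2 ≤
      C5 * J / (r : ℝ) ^ d * en3 S J F := by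
    intro e
    rw [hH0, hHJ, hC5]
    exact hub_hubL d c1 hc1 ov L S w J N r M Kw hr hL hE F hF (Fin d → ZMod L') a
      (fun k => a (k + Pi.single e 1)) (fun m => hadj m e) hd4 (fun m => hd4 _) hovl
  have small : C5 * J / (r : ℝ) ^ d * en3 S J F ≤ C5 / N * en3 S J F := by
    refine mul_le_mul_of_nonneg_right ?_ hEn
    rw [mul_div_assoc]
    calc C5 * (J / (r : ℝ) ^ d) ≤ C5 * (1 / N) := mul_le_mul_of_nonneg_left hJr1 hC50
      _ = _ := by ring
  have same1 : ∀ k, (H0 k - HJ k) ^ 2 ≤ C5 / N * en3 S J F := by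
    intro k
    refine le_trans ?_ (same.trans small)
    exact Finset.single_le_sum (f := fun k => (H0 k - HJ k) ^ 2) (fun _ _ => sq_nonneg _)
      (mem_univ k)
  -- lattice
  have far : ∀ k k', (H0 k - H0 k') ^ 2 ≤ C6 * (4 * d * C5) / N * en3 S J F := by
    intro k k'
    have h1 := lat L' H0 k k'
    have h2 : ∑ k, ∑ e, (H0 k - H0 (k + Pi.single e 1)) ^ 2 ≤
        4 * d * (C5 * J / (r : ℝ) ^ d * en3 S J F) := coarse_sum H0 HJ _ same adj
    have h6 : (1 + Real.log L') ^ 2 ≤ (1 + Real.log s) ^ 2 := by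
      have hL'0 : 0 < (L' : ℝ) := by
        have : L' ≠ 0 := NeZero.ne L'
        positivity
      have : Real.log L' ≤ Real.log s := Real.log_le_log hL'0 (by exact_mod_cast hL')
      have h0 := Real.log_natCast_nonneg L'
      exact pow_le_pow_left₀ (by linarith) (by linarith) 2
    calc _ ≤ C6 * (1 + Real.log L') ^ 2 * ∑ k, ∑ e, (H0 k - H0 (k + Pi.single e 1)) ^ 2 := h1
      _ ≤ C6 * (1 + Real.log s) ^ 2 * (4 * d * (C5 * J / (r : ℝ) ^ d * en3 S J F)) := by
          refine mul_le_mul (mul_le_mul_of_nonneg_left h6 (by linarith)) h2 ?_ ?_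
          · exact Finset.sum_nonneg fun _ _ => Finset.sum_nonneg fun _ _ => sq_nonneg _
          · have : 0 ≤ C6 := by linarith
            positivity
      _ = C6 * (4 * d * C5) * (J / (r : ℝ) ^ d * (1 + Real.log s) ^ 2) * en3 S J F := by ring
      _ ≤ C6 * (4 * d * C5) * (1 / N) * en3 S J F := by
          refine mul_le_mul_of_nonneg_right (mul_le_mul_of_nonneg_left hJr2 h70) hEn
      _ = _ := by ring
  -- nodes
  have hX : ∀ {c : ℝ}, c ≤ C7 → c / N * en3 S J F ≤ C7 / N * en3 S J F := by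
    intro c hc
    exact mul_le_mul_of_nonneg_right (div_le_div_of_nonneg_right hc hNr.le) hEn
  have node : ∀ i v, i ≤ J → w i v ≠ none → ∃ k, ∃ e : ℝ, e ^ 2 ≤ C7 / N * en3 S J F ∧
      ∃ f : ℝ, f ^ 2 ≤ C7 / N * en3 S J F ∧ F i v = H0 k + e + f := by
    intro i v hi hv
    obtain ⟨x, hx⟩ := Option.ne_none_iff_exists'.1 hv
    have hmem : v ∈ win w i x := Finset.mem_filter.2 ⟨mem_univ _, hx⟩
    obtain ⟨k, hk⟩ := hcov v (hE.act i hi v hv)
    by_cases h2 : 2 * i ≤ J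
    · have h3 : (F i v - HJ k) ^ 2 ≤ C3 / N * en3 S J F := by
        rw [hHJ, hC3]
        exact node_fwdL d c1 hc1 L S w J N r M Kw hN hr hL hM hE hMK F hF hF' i x v (a k) h2
          hmem hk (hd4 k)
      refine ⟨k, HJ k - H0 k, ?_, F i v - HJ k, ?_, by ring⟩
      · have h4 := same1 k
        have h5 : (HJ k - H0 k) ^ 2 = (H0 k - HJ k) ^ 2 := by ring
        rw [h5]
        exact h4.trans (hX (by linarith))
      · exact h3.trans (hX (by linarith))
    · have h3 : (F i v - H0 k) ^ 2 ≤ C3 / N * en3 S J F := by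
        rw [hH0, hC3]
        exact node_bwdL d c1 hc1 L S w J N r M Kw hN hr hL hM hE hMK F hF hF' i x v (a k) hi
          (by omega) hmem hk (fun v' v'' h h' =>
            hdeep k v'' (near_mono (by omega) (near_trans h' h)))
      refine ⟨k, 0, ?_, F i v - H0 k, ?_, by ring⟩
      · have : 0 ≤ C7 / N * en3 S J F := by
          have h7 : 0 ≤ C7 := by linarith
          positivity
        simpa using this
      · exact h3.trans (hX (by linarith))
  obtain ⟨k, e, he, f, hf, h1⟩ := node i v hi hv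
  obtain ⟨k', e', he', f', hf', h1'⟩ := node i' v' hi' hv'
  have h8 := (far k k').trans (hX (c := C6 * (4 * d * C5)) (by linarith))
  have h9 := five_sq e f (H0 k - H0 k') (-e') (-f') (C7 / N * en3 S J F) he hf h8
    (by rw [neg_sq]; exact he') (by rw [neg_sq]; exact hf')
  have h10 : F i v - F i' v' = e + f + (H0 k - H0 k') + -e' + -f' := by
    rw [h1, h1']; ring
  rw [h10]
  refine h9.trans ?_
  have h11 : 0 ≤ 1 / (N : ℝ) * en3 S J F := by positivity
  calc 25 * (C7 / N * en3 S J F) ≤ 25 * (C7 / N * en3 S J F) + 1 / (N : ℝ) * en3 S J F := by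
        linarith
    _ = _ := by ring

/-- **Block (3).** -/
theorem res_boundL (d : ℕ) (hd : 2 ≤ d) (c1 : ℝ) (hc1 : 0 < c1) : ∃ C : ℝ, 1 ≤ C ∧
    ∀ (L : ℕ) [NeZero L] (S : ℕ → Equiv.Perm (Fin d → ZMod L)) (Φ : Equiv.Perm (Fin d → ZMod L))
      (w : ℕ → (Fin d → ZMod L) → Option (Fin d → ZMod L)) (J N r : ℕ) (M Kw : ℝ)
      (o : Fin d → ZMod L) (s : ℕ),
    1 ≤ N → 1 ≤ J → 8 ≤ r → 2 * r ≤ L → r ≤ s → s ≤ L → 0 ≤ M →
    GoodEnvL S w J N r c1 M Kw o s → M * Kw ≤ N →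
    (N : ℝ) * J * (1 + Real.log s) ^ 2 ≤ (r : ℝ) ^ d →
    RB (stP J S Φ) (stc J w) (C / N) := by
  obtain ⟨C, hC, h⟩ := res_levelsL d hd c1 hc1
  refine ⟨C, hC, ?_⟩
  intro L _ S Φ w J N r M Kw o s hN hJ hr hL hrs hsL hM hE hMK hbig F hF hF' q q' hq hq'
  set F' : ℕ → (Fin d → ZMod L) → ℝ := fun j v =>
    if hj : j < J + 1 then F (⟨j, hj⟩, v) else 0 with hF'def
  have hval : ∀ (j : ℕ) (hj : j < J + 1) v, F' j v = F (⟨j, hj⟩, v) := by
    intro j hj v
    simp only [hF'def, dif_pos hj]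
  have hne : ∀ (j : ℕ) (hj : j < J + 1) v, w j v ≠ none ↔ stc J w (⟨j, hj⟩, v) ≠ none := by
    intro j hj v
    unfold stc
    simp
  have hstep : ∀ (j : ℕ) (hj : j < J) v, stP J S Φ (⟨j, by omega⟩, v) =
      ((⟨j + 1, by omega⟩ : Fin (J + 1)), S j v) := by
    intro j hj v
    have h1 : finRotate (J + 1) ⟨j, by omega⟩ = (⟨j + 1, by omega⟩ : Fin (J + 1)) :=
      finRotate_of_lt hj
    have h2 : ¬ (j = J) := by omega
    unfold stP
    simp only [Equiv.prodShear_apply, h1, h2, if_false]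
  have c1' : ∀ j ≤ J, ∀ v v', w j v ≠ none → w j v = w j v' → F' j v = F' j v' := by
    intro j hj v v' h1 h2
    rw [hval j (by omega), hval j (by omega)]
    refine hF _ _ ((hne j (by omega) v).1 h1) ?_
    unfold stc
    simp only [h2]
  have c2' : ∀ j < J, ∀ v, w (j + 1) (S j v) = none → F' (j + 1) (S j v) = F' j v := by
    intro j hj v h1
    rw [hval (j + 1) (by omega), hval j (by omega)]
    have h2 := hF' (⟨j, by omega⟩, v)
    rw [hstep j hj v] at h2
    refine h2 ?_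
    unfold stc
    simp [h1]
  have main := h L S w J N r M Kw o s hN hJ hr hL hrs hsL hM hE hMK hbig F' c1' c2' q.1 q'.1 q.2 q'.2
    (by have := q.1.2; omega) (by have := q'.1.2; omega)
    ((hne q.1 q.1.2 q.2).2 hq) ((hne q'.1 q'.1.2 q'.2).2 hq')
  rw [hval q.1 q.1.2, hval q'.1 q'.1.2] at main
  refine main.trans ?_
  refine mul_le_mul_of_nonneg_left ?_ (by positivity)
  -- energies
  have h3 : ∑ p, (F (stP J S Φ p) - F p) ^ 2 =
      ∑ j : Fin (J + 1), ∑ v, (F (stP J S Φ (j, v)) - F (j, v)) ^ 2 :=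
    Fintype.sum_prod_type _
  rw [h3, Fin.sum_univ_castSucc]
  have h4 : en3 S J F' = ∑ j : Fin J, ∑ v, (F (stP J S Φ (j.castSucc, v)) - F (j.castSucc, v)) ^ 2 := by
    unfold en3
    rw [Finset.sum_range]
    refine Finset.sum_congr rfl fun j _ => Finset.sum_congr rfl fun v _ => ?_
    have hj := j.2
    rw [hval (j + 1) (by omega), hval j (by omega)]
    have := hstep j hj v
    show _ = (F (stP J S Φ ((⟨j, by omega⟩ : Fin (J + 1)), v)) - F (⟨j, by omega⟩, v)) ^ 2
    rw [this]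
  rw [h4]
  refine le_add_of_nonneg_right ?_
  exact Finset.sum_nonneg fun _ _ => sq_nonneg _

end Pool.Agent.Stirring.RS

namespace Pool.Agent.PL

open Equiv

/-- **Block (3), local version.** All resistances are at most `C / N`; nothing is assumed about `L`
except `s ≤ L`, nothing about `Φ`. -/
theorem res_bound_local (d : ℕ) (hd : 2 ≤ d) (c1 : ℝ) (hc1 : 0 < c1) : ∃ C : ℝ, 1 ≤ C ∧
    ∀ (L : ℕ) [NeZero L] (S : ℕ → Perm (Fin d → ZMod L)) (Φ : Perm (Fin d → ZMod L))
      (w : ℕ → (Fin d → ZMod L) → Option (Fin d → ZMod L)) (J N r : ℕ) (M Kw : ℝ)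
      (o : Fin d → ZMod L) (s : ℕ),
    1 ≤ N → 1 ≤ J → 8 ≤ r → 2 * r ≤ L → r ≤ s → s ≤ L → 0 ≤ M →
    GoodEnvL S w J N r c1 M Kw o s → M * Kw ≤ N →
    (N : ℝ) * J * (1 + Real.log s) ^ 2 ≤ (r : ℝ) ^ d →
    RB (stP J S Φ) (stc J w) (C / N) :=
  Pool.Agent.Stirring.RS.res_boundL d hd c1 hc1

end Pool.Agent.PL
end

section

/-! LOCAL version of G8: one good environment, windows in a box. -/

set_option autoImplicit false
set_option linter.unusedSectionVars false

open Finset Equiv Pool.Agent.Stirring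

namespace Pool.Agent.PL

/-- **G8, local version.** `D0` contains all the window positions. -/
theorem inner_bound_local (d : ℕ) (hd : 2 ≤ d) (c1 : ℝ) (hc1 : 0 < c1) : ∃ C : ℝ, 1 ≤ C ∧
    ∀ (L : ℕ) [NeZero L] (Ω : Type) [Fintype Ω] (S : QK.Slab (Fin d → ZMod L) Ω)
      (Q : Finset (Fin d → ZMod L)) (D0 : Finset (Fin d → ZMod L)) (K : ℝ)
      (l : List (Ω × ((Fin d → ZMod L) → Perm (Fin d → ZMod L) → ℝ)))
      (M0 : Finset (Fin d → ZMod L)) (Φ : Perm (Fin d → ZMod L)) (k : ℕ)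
      (z : Fin k → (Fin d → ZMod L)) (τ : Perm (Fin k)) (r : ℕ) (M Kw κ : ℝ)
      (o : Fin d → ZMod L) (s : ℕ),
    (∀ a, S.good a ⊆ D0) → M0 ⊆ D0 → (D0.card : ℝ) ≤ K →
    (0 : Fin d → ZMod L) ∈ Q → 1 ≤ l.length → 8 ≤ r → 2 * r ≤ L → r ≤ s → s ≤ L →
    0 ≤ M →
    GoodEnvL (envS S (l.map Prod.fst)) (envW S Q M0 (l.map Prod.fst)) l.length Q.card r c1 M Kw o s →
    M * Kw ≤ Q.card → (Q.card : ℝ) * l.length * (1 + Real.log s) ^ 2 ≤ (r : ℝ) ^ d →
    Adm S Q l → (∀ a, QK.Dis Q (S.good a)) → QK.Dis Q M0 →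
    Function.Injective z → (∀ i, z i ∈ M0) →
    1 ≤ κ → C * κ ^ 2 ≤ Q.card →
    C * κ * Real.log (((l.length : ℝ) + 1) * K) ≤ Real.sqrt (Real.sqrt Q.card) →
    (((l.length : ℝ) + 1) * K) ^ 6 * Q.card ≤ Real.exp κ →
    |JS S (fun g => JL (wUnif Q) (fun x => patI τ x z) M0.toList (g * Φ)) l 1
        - (relCl τ).card / (k.factorial : ℝ)| ≤
      2 * (k : ℝ) ^ 2 * (k.factorial : ℝ) * (4 * k * (C / Q.card)
        + C * (((l.length : ℝ) + 1) * K) ^ 2 * Real.exp (-(κ / 2))) := by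
  classical
  obtain ⟨C3, hC3, hres⟩ := res_bound_local d hd c1 hc1
  obtain ⟨C2, hC2, hend⟩ := TN.endgame_freeze (2 * C3) (by linarith)
  refine ⟨max C2 (2 * C3), le_max_of_le_left hC2, ?_⟩
  intro L _ Ω _ S Q D0 K l M0 Φ k z τ r M Kw κ o s hgD hMD hDK h0Q hl1 hr8 hrL hrs hsL hM hG hMK
    hNJ hadm hdis hdM0 hz hzM hκ hκN hκlog hκexp
  have hK0 : 0 ≤ K := (Nat.cast_nonneg _).trans hDK
  set C := max C2 (2 * C3) with hC
  have hQne : Q.Nonempty := ⟨0, h0Q⟩
  have hN1 : 1 ≤ Q.card := Finset.card_pos.mpr hQne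
  have hN0 : (0 : ℝ) < Q.card := by exact_mod_cast hN1
  obtain ⟨π, nodes, hnd, hmem, hcard, hdens, hunif, hrepr⟩ :=
    inner_repr (S := S) hQne l hadm hdis hdM0 Φ z τ
  have hRB : RB (stP l.length (envS S (l.map Prod.fst)) Φ⁻¹)
      (stc l.length (envW S Q M0 (l.map Prod.fst))) (C3 / Q.card) :=
    hres L (envS S (l.map Prod.fst)) Φ⁻¹ (envW S Q M0 (l.map Prod.fst)) l.length Q.card r M Kw
      o s hN1 hl1 hr8 hrL hrs hsL hM hG hMK hNJ
  -- parameters
  obtain ⟨ρ, hρ⟩ : ∃ ρ : ℝ, ρ = 2 * C3 / Q.card := ⟨_, rfl⟩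
  have hρ0 : 0 < ρ := by rw [hρ]; positivity
  have hρ2 : ρ / 2 = C3 / Q.card := by rw [hρ]; ring
  obtain ⟨A0, hA0⟩ : ∃ A0 : Finset (Fin (l.length + 1) × (Fin d → ZMod L)),
    A0 = nodes.toFinset := ⟨_, rfl⟩
  have hA0mem : ∀ y, y ∈ A0 ↔ y ∈ nodes := fun y => by rw [hA0]; exact List.mem_toFinset
  have hcA : ∀ q y, stc l.length (envW S Q M0 (l.map Prod.fst)) q = some y → y ∈ A0 :=
    fun q y h => (hA0mem y).mpr ((hmem y).mpr ⟨q, h⟩)
  have hcard0 : (A0.card : ℝ) ≤ ((l.length : ℝ) + 1) * K := by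
    have h1 : A0 ⊆ (univ : Finset (Fin (l.length + 1))) ×ˢ D0 := by
      rintro ⟨i, y⟩ hy
      obtain ⟨⟨j, v⟩, hq⟩ := (hmem (i, y)).mp ((hA0mem (i, y)).mp hy)
      rw [Finset.mem_product]
      refine ⟨Finset.mem_univ _, ?_⟩
      change (envW S Q M0 (l.map Prod.fst) j v).map (fun x => (j, x)) = some (i, y) at hq
      rw [Option.map_eq_some_iff] at hq
      obtain ⟨x, hx, hxy⟩ := hq
      have h2 : x = y := congrArg Prod.snd hxy
      subst h2
      have h3 := (gr_colW_mem (show colW Q ((M0 :: (l.map Prod.fst).map S.good).getD j ∅) v =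
        some x from hx)).1
      have h4 : ∀ G ∈ (M0 :: (l.map Prod.fst).map S.good), G ⊆ D0 := by
        intro G hG
        rcases List.mem_cons.mp hG with h | h
        · rw [h]; exact hMD
        · obtain ⟨a, -, rfl⟩ := List.mem_map.mp h
          exact hgD a
      rcases Nat.lt_or_ge j (M0 :: (l.map Prod.fst).map S.good).length with h5 | h5
      · rw [List.getD_eq_getElem _ _ h5] at h3
        exact h4 _ (List.getElem_mem h5) h3
      · rw [List.getD_eq_default _ _ h5] at h3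
        exact absurd h3 (Finset.notMem_empty _)
    have h2 := Finset.card_le_card h1
    rw [Finset.card_product, Finset.card_univ, Fintype.card_fin] at h2
    have h3 : (A0.card : ℝ) ≤ ((l.length : ℝ) + 1) * D0.card := by exact_mod_cast h2
    exact h3.trans (mul_le_mul_of_nonneg_left hDK (by positivity))
  have hinv : ∀ y ∈ A0, ∀ z ∈ A0, ResLe (netA (stP l.length (envS S (l.map Prod.fst)) Φ⁻¹)⁻¹
      (stc l.length (envW S Q M0 (l.map Prod.fst))) A0) (ρ / 2) y z := by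
    intro y hy z hz
    have h1 : netA (stP l.length (envS S (l.map Prod.fst)) Φ⁻¹)⁻¹
        (stc l.length (envW S Q M0 (l.map Prod.fst))) A0
        = mat (remS (stP l.length (envS S (l.map Prod.fst)) Φ⁻¹)⁻¹
          (univ.filter fun w => stc l.length (envW S Q M0 (l.map Prod.fst)) w = none))
          (stc l.length (envW S Q M0 (l.map Prod.fst))) := by
      unfold netA
      rw [cOn_eq hcA]
    rw [h1]
    refine ResLe_mat_inv ?_
    rw [hρ2]
    refine netA_of_RB (by positivity) hRB ?_ ?_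
    · exact (hmem y).mp ((hA0mem y).mp hy)
    · exact (hmem z).mp ((hA0mem z).mp hz)
  rw [hrepr]
  have hmark : ∀ i, stc l.length (envW S Q M0 (l.map Prod.fst))
      ((0 : Fin (l.length + 1)), z i) = some ((0 : Fin (l.length + 1)), z i) := by
    intro i
    unfold stc envW
    simp only [Fin.val_zero, List.getD_cons_zero]
    have h1 : ∃ q ∈ M0, z i - q ∈ Q := ⟨z i, hzM i, by simpa using h0Q⟩
    unfold colW
    rw [dif_pos h1]
    have h2 := Classical.choose_spec h1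
    have h3 : Classical.choose h1 = z i :=
      hdM0 _ h2.1 _ (hzM i) (z i) h2.2 (by simpa using h0Q)
    rw [h3]
    rfl
  -- the case of no marks
  rcases Nat.eq_zero_or_pos k with hk0 | hk0
  · subst hk0
    have h1 : (fun P : Perm (Fin (l.length + 1) × (Fin d → ZMod L)) =>
        patI τ P (fun i => ((0 : Fin (l.length + 1)), z i))) = fun _ => 1 := by
      funext P
      unfold patI
      rw [if_pos]
      intro a
      exact a.elim0
    rw [h1, TN.JL_const 1 hdens]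
    have h2 : (relCl τ).card = 1 := by
      rw [Finset.card_eq_one]
      exact ⟨τ, Finset.eq_singleton_iff_unique_mem.mpr
        ⟨self_mem_relCl τ, fun σ _ => Subsingleton.elim _ _⟩⟩
    rw [h2]
    simp
  have hk1 : Nonempty (Fin k) := ⟨⟨0, hk0⟩⟩
  have hA1 : (1 : ℝ) ≤ A0.card := by
    have : 0 < A0.card := Finset.card_pos.mpr ⟨_, hcA _ _ (hmark ⟨0, hk0⟩)⟩
    exact_mod_cast this
  have key := hend (Fin (l.length + 1) × (Fin d → ZMod L)) (Fin (l.length + 1) × (Fin d → ZMod L))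
    (Fin k) (stc l.length (envW S Q M0 (l.map Prod.fst))) Q.card ρ κ A0 π nodes
    (stP l.length (envS S (l.map Prod.fst)) Φ⁻¹)⁻¹
    (fun i => ((0 : Fin (l.length + 1)), z i)) (fun i => ((0 : Fin (l.length + 1)), z i))
    hρ0 ?_ hκ ?_ ?_ ?_ (fun y hy => hcard y ((hA0mem y).mp hy)) hcA hnd
    (fun y => (hA0mem y).symm) hdens hinv ?_ ?_ hmark τ
  · rw [Fintype.card_fin] at key
    refine le_trans (le_of_eq ?_) (key.trans ?_)
    · rfl
    · have hC2' : C2 ≤ max C2 (2 * C3) := le_max_left _ _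
      have hC3' : ρ ≤ max C2 (2 * C3) / Q.card := by
        rw [hρ]
        exact div_le_div_of_nonneg_right (le_max_right _ _) hN0.le
      refine mul_le_mul_of_nonneg_left ?_ (by positivity)
      refine add_le_add ?_ ?_
      · exact mul_le_mul_of_nonneg_left hC3' (by positivity)
      · refine mul_le_mul_of_nonneg_right ?_ (Real.exp_pos _).le
        refine mul_le_mul hC2' ?_ (by positivity) (by positivity)
        exact pow_le_pow_left₀ (by positivity) hcard0 2
  · rw [hρ]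
    field_simp
    exact le_rfl
  · refine le_trans ?_ hκN
    exact mul_le_mul_of_nonneg_right (le_max_left _ _) (by positivity)
  · refine le_trans ?_ hκlog
    have h1 : Real.log A0.card ≤ Real.log (((l.length : ℝ) + 1) * K) :=
      Real.log_le_log (by linarith) hcard0
    have h2 : 0 ≤ Real.log (A0.card : ℝ) := Real.log_nonneg hA1
    refine mul_le_mul ?_ h1 h2 (by positivity)
    exact mul_le_mul_of_nonneg_right (le_max_left _ _) (by linarith)
  · refine le_trans ?_ hκexp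
    refine mul_le_mul_of_nonneg_right ?_ (Nat.cast_nonneg _)
    exact pow_le_pow_left₀ (by positivity) hcard0 6
  · intro i j hij
    exact hz (Prod.ext_iff.mp hij).2
  · intro i σ
    have h1 := hunif (z i) (hzM i) σ
    rw [h1]
    have h2 := hcard _ ((hmem _).mpr ⟨_, hmark i⟩)
    have h3 : TN.fib (stc l.length (envW S Q M0 (l.map Prod.fst)))
        ((0 : Fin (l.length + 1)), z i) = univ.filter fun q =>
        stc l.length (envW S Q M0 (l.map Prod.fst)) q = some ((0 : Fin (l.length + 1)), z i) := rfl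
    rw [h3, h2]
    by_cases h4 : ∀ q, stc l.length (envW S Q M0 (l.map Prod.fst)) q
        ≠ some ((0 : Fin (l.length + 1)), z i) → σ q = q
    · rw [if_pos h4, if_pos]
      rw [TN.mem_permsOn]
      intro q hq
      exact h4 q fun h => hq (by simp [h])
    · rw [if_neg h4, if_neg]
      rw [TN.mem_permsOn]
      intro h5
      exact h4 fun q hq => h5 q (by simpa using hq)

end Pool.Agent.PL
end
end

section

/-!
# G9: the laws of far apart points
-/

open Finset Filter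

set_option linter.unusedSectionVars false

namespace Pool.Agent.Stirring.TN

open Pool.Agent.Stirring Pool.Agent.PL

/-- The environment of `env_good`. -/
def EnvGood (d A B : ℕ) (c1 : ℝ) (L : ℕ) [NeZero L] : Prop :=
  ∃ (b J r : ℕ) (h M Kw : ℝ) (Ω : Type) (_ : Fintype Ω) (S : QK.Slab (Fin d → ZMod L) Ω),
      1 ≤ b ∧ b ≤ L ∧ Real.log L ^ 8 ≤ b ∧ (b : ℝ) ≤ Real.log L ^ A ∧
      1 ≤ J ∧ (J : ℝ) ≤ L ∧ 0 ≤ h ∧ (J : ℝ) * h ≤ Real.log L ^ B ∧
      8 ≤ r ∧ 2 * r ≤ L ∧ 0 ≤ M ∧ M * Kw ≤ (b : ℝ) ^ d ∧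
      (b : ℝ) ^ d * J * (1 + Real.log L) ^ 2 ≤ (r : ℝ) ^ d ∧
      (∀ a, 0 ≤ S.w a) ∧ ∑ a, S.w a = 1 ∧
      SlabMix (QK.tr d L) h S (QK.box d L b) ∧
      (∀ a, QK.Dis (QK.box d L b) (S.good a)) ∧
      ∀ M0 : Finset (Fin d → ZMod L), QK.Dis (QK.box d L b) M0 →
        QK.EL S.w J (fun l => open Classical in
          if GoodEnv (envS S l) (envW S (QK.box d L b) M0 l) J (b ^ d) r c1 M Kw then 0 else 1)
          ≤ 1 / L

section Box

variable {d L : ℕ} [NeZero L]

theorem zero_mem_box {b : ℕ} (hb : 1 ≤ b) : (0 : Fin d → ZMod L) ∈ QK.box d L b := by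
  unfold QK.box
  rw [Finset.mem_image]
  exact ⟨fun _ => ⟨0, by omega⟩, Finset.mem_univ _, by funext i; simp⟩

theorem box_box {b : ℕ} {y z : Fin d → ZMod L} (hz : z ∉ HC.box y b) : z - y ∉ QK.box d L b := by
  intro h
  apply hz
  unfold QK.box at h
  unfold HC.box
  rw [Finset.mem_image] at h ⊢
  obtain ⟨c, hc, h⟩ := h
  exact ⟨c, hc, by rw [h]; abel⟩

theorem wUnif_sum9 (Q : Finset (Fin d → ZMod L)) (y : Fin d → ZMod L) :
    ∑ σ, wUnif Q y σ = 1 := by
  classical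
  have h1 : ∑ σ, wUnif Q y σ =
      ((univ.filter fun σ : Equiv.Perm (Fin d → ZMod L) => ∀ v, v - y ∉ Q → σ v = v).card : ℝ) *
        (1 / (Q.card.factorial : ℝ)) := by
    unfold wUnif
    rw [← Finset.sum_filter, Finset.sum_const, nsmul_eq_mul]
  have h2 : (univ.filter fun σ : Equiv.Perm (Fin d → ZMod L) => ∀ v, v - y ∉ Q → σ v = v).card =
      Q.card.factorial := by
    rw [← Fintype.card_subtype,
      ← Fintype.card_congr (Equiv.Perm.subtypeEquivSubtypePerm fun v => v - y ∈ Q),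
      Fintype.card_perm]
    congr 1
    rw [Fintype.card_subtype]
    refine Finset.card_bij (fun v _ => v - y) ?_ ?_ ?_
    · intro v hv; exact (Finset.mem_filter.1 hv).2
    · intro v _ w _ h; exact sub_left_injective h
    · intro q hq; exact ⟨q + y, by simp [hq], by simp⟩
  rw [h1, h2]
  have : (Q.card.factorial : ℝ) ≠ 0 := by positivity
  field_simp

/-- Two windows meet. -/
def NearW (Q : Finset (Fin d → ZMod L)) (x y : Fin d → ZMod L) : Prop :=
  ∃ u ∈ Q, ∃ v ∈ Q, x + u = y + v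

theorem nearW_card (Q : Finset (Fin d → ZMod L)) (x : Fin d → ZMod L) : open Classical in
    ((univ.filter fun y => NearW Q x y).card : ℝ) ≤ (Q.card : ℝ) ^ 2 := by
  classical
  have h1 : (univ.filter fun y => NearW Q x y) ⊆ (Q ×ˢ Q).image fun p => x + p.1 - p.2 := by
    intro y hy
    obtain ⟨u, hu, v, hv, h⟩ := (Finset.mem_filter.mp hy).2
    rw [Finset.mem_image]
    exact ⟨(u, v), Finset.mem_product.mpr ⟨hu, hv⟩, by
      show x + u - v = y
      rw [h]
      abel⟩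
  have h2 := (Finset.card_le_card h1).trans Finset.card_image_le
  rw [Finset.card_product] at h2
  rw [sq]
  exact_mod_cast h2

theorem dis_of_far {k : ℕ} {Q : Finset (Fin d → ZMod L)} {z : Fin k → Fin d → ZMod L}
    (hz : ∀ a b, a ≠ b → ¬ NearW Q (z a) (z b)) : QK.Dis Q (univ.image z) := by
  intro q hq q' hq' w hw hw'
  obtain ⟨i, _, rfl⟩ := Finset.mem_image.mp hq
  obtain ⟨j, _, rfl⟩ := Finset.mem_image.mp hq'
  by_contra hne
  have hij : i ≠ j := fun h => hne (by rw [h])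
  refine hz i j hij ⟨w - z i, hw, w - z j, hw', ?_⟩
  abel

end Box

/-- **G9.** The laws of `k` far apart points. -/
theorem klaw_of_env (d : ℕ) (hd : 2 ≤ d) {A B : ℕ} {c1 : ℝ} (hc1 : 0 < c1)
    (hev : ∀ᶠ L : ℕ in atTop, ∀ [NeZero L], EnvGood d A B c1 L) :
    KLaw d (fun L => {t : ℝ | Real.log L ^ (B + 2 * A * (d + 1) + 2) ≤ t}) := by
  classical
  obtain ⟨C, hC, hin⟩ := inner_bound d hd c1 hc1
  intro k ε hε
  have hpar := klaw_par d (2 * (d * A)) (C * (7 * d + 7) ^ 2)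
    (2 * (k : ℝ) ^ 2 * (k.factorial : ℝ) * (4 * k * C + C) + 1) (16 * k * d) ε hε
  obtain ⟨L₀, hL₀⟩ := eventually_atTop.mp (hev.and hpar)
  refine ⟨L₀, ?_⟩
  intro L _ hL t ht
  obtain ⟨hE, hL64, hK0, hK1, hK2, hK3⟩ := hL₀ L hL
  obtain ⟨b, J, r, h, M, Kw, Ω, _, S, hb1, hbL, hlogb, hbA, hJ1, hJL, hh, hJh, hr8, hrL, hM, hMK,
    hbJ, hw0, hw1, hmix, hdis, hbad⟩ := hE
  have hL64' : (64 : ℝ) ≤ L := by exact_mod_cast hL64
  have hL0 : (0 : ℝ) < L := by linarith
  have hd0 : (2 : ℝ) ≤ d := by exact_mod_cast hd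
  have hb1' : (1 : ℝ) ≤ b := by exact_mod_cast hb1
  have hbL' : (b : ℝ) ≤ L := by exact_mod_cast hbL
  obtain ⟨n1, n2, n3, n4, n5, n6⟩ := kappa_num hd hL64' hC hJL hb1' hbL' hlogb hK0
  have hx1 : 1 ≤ Real.log L := by
    refine le_trans ?_ hK0
    nlinarith
  have hx0 : 0 < Real.log L := by linarith
  have ht' : Real.log L ^ (B + 2 * A * (d + 1) + 2) ≤ t := ht
  have htB : Real.log L ^ B ≤ t :=
    (pow_le_pow_right₀ hx1 (by omega)).trans ht'
  have ht1 : 1 ≤ t := (one_le_pow₀ hx1).trans htB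
  have hcard : (QK.box d L b).card = b ^ d := QK.card_box hbL
  have hcardR : ((QK.box d L b).card : ℝ) = (b : ℝ) ^ d := by rw [hcard]; push_cast; rfl
  refine ⟨NearW (QK.box d L b), fun x => ⟨0, zero_mem_box hb1, 0, zero_mem_box hb1, rfl⟩, ?_, ?_⟩
  · intro x
    refine (nearW_card _ x).trans ?_
    rw [hcardR, Fintype.card_fun, Fintype.card_fin, ZMod.card]
    have h1 : ((b : ℝ) ^ d) ^ 2 ≤ Real.log L ^ (2 * (d * A)) := by
      calc ((b : ℝ) ^ d) ^ 2 ≤ ((Real.log L ^ A) ^ d) ^ 2 :=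
            pow_le_pow_left₀ (by positivity) (pow_le_pow_left₀ (by positivity) hbA d) 2
        _ = Real.log L ^ (2 * (d * A)) := by rw [← pow_mul, ← pow_mul]; congr 1; ring
    refine h1.trans (hK1.trans ?_)
    push_cast
    refine mul_le_mul_of_nonneg_left ?_ hε.le
    calc (L : ℝ) = (L : ℝ) ^ 1 := (pow_one _).symm
      _ ≤ (L : ℝ) ^ d := pow_le_pow_right₀ (by linarith) (by omega)
  intro z hz τ
  have hzinj : Function.Injective z := by
    intro i j hij
    by_contra hne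
    exact hz i j hne ⟨0, zero_mem_box hb1, 0, zero_mem_box hb1, by rw [hij]⟩
  have hdM0 := dis_of_far hz
  set M0 : Finset (Fin d → ZMod L) := univ.image z with hM0
  have hM0card : M0.card ≤ k := by
    refine Finset.card_image_le.trans (le_of_eq ?_)
    rw [Finset.card_univ, Fintype.card_fin]
  have hzM : ∀ i, z i ∈ M0 := fun i => Finset.mem_image_of_mem z (Finset.mem_univ i)
  set c0 : ℝ := (relCl τ).card / (k.factorial : ℝ) with hc0
  have hF0 : ∀ x : Equiv.Perm (Fin d → ZMod L), 0 ≤ patI τ x z := by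
    intro x
    unfold patI
    split_ifs
    · exact zero_le_one
    · exact le_rfl
  have hF1 : ∀ x : Equiv.Perm (Fin d → ZMod L), patI τ x z ≤ 1 := by
    intro x
    unfold patI
    split_ifs
    · exact le_rfl
    · exact zero_le_one
  -- the insertion
  set e : ℝ := 2 * (8 * (d * b * (b : ℝ) ^ d) * Real.sqrt (Real.log ((L : ℝ) ^ d) / t)) with he
  have hone : ∀ y (s : Equiv.Perm (Fin d → ZMod L)), (∀ v, v - y ∉ QK.box d L b → s v = v) →
      ∀ H : Equiv.Perm (Fin d → ZMod L) → ℝ, (∀ x, 0 ≤ H x) → (∀ x, H x ≤ 1) →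
        |expect d L t (fun x => H (x * s)) - expect d L t H| ≤ e := by
    intro y s hs H hH0 hH1
    have h1 := TC.expect_move (d := d) (L := L) (by omega) (by omega) ht1 hbL [s⁻¹]
      (fun g hg => ⟨y, fun w hw => by
        rw [List.mem_singleton.mp hg, Equiv.Perm.inv_eq_iff_eq]
        exact (hs w (box_box hw)).symm⟩) (F := H)
      (fun σ => abs_le.mpr ⟨by linarith [hH0 σ], hH1 σ⟩)
    rw [List.prod_singleton, inv_inv, List.length_singleton, Nat.cast_one, one_mul] at h1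
    exact h1
  have hins := insert_marked (by linarith : (0 : ℝ) ≤ t) hone M0 (fun x => patI τ x z) hF0 hF1
  have he0 : 0 ≤ e := by positivity
  have heb : (M0.card : ℝ) * e ≤ ε / 2 := by
    have h1 : (M0.card : ℝ) * e ≤ k * e :=
      mul_le_mul_of_nonneg_right (by exact_mod_cast hM0card) he0
    refine h1.trans (le_trans ?_ hK3)
    have h2 := cost_num (d := d) (A := A) (B := B) hx1 (by linarith : (0 : ℝ) ≤ b) hbA ht'
    rw [he, Real.log_pow]
    have h3 : (k : ℝ) * (2 * (8 * (d * b * (b : ℝ) ^ d) * Real.sqrt (d * Real.log L / t))) =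
        16 * k * d * (b * (b : ℝ) ^ d * Real.sqrt (d * Real.log L / t)) := by ring
    rw [h3]
    exact mul_le_mul_of_nonneg_left h2 (by positivity)
  -- the main part
  have hwn : ∀ y ∈ M0.toList, ∀ σ, 0 ≤ wUnif (QK.box d L b) y σ := by
    intro y _ σ
    unfold wUnif
    split_ifs
    · positivity
    · exact le_rfl
  have hws : ∀ y ∈ M0.toList, ∑ σ, wUnif (QK.box d L b) y σ = 1 := fun y _ => wUnif_sum9 _ y
  set H : Equiv.Perm (Fin d → ZMod L) → ℝ :=
    fun g => JL (wUnif (QK.box d L b)) (fun x => patI τ x z) M0.toList g with hH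
  have hH0 : ∀ g, 0 ≤ H g := by
    intro g
    have h1 := JL_mono' (π := wUnif (QK.box d L b)) (G := fun _ => (0 : ℝ))
      (H := fun x => patI τ x z) hF0 hwn g
    rwa [JL_const' 0 hws g] at h1
  have hH1 : ∀ g, H g ≤ 1 := by
    intro g
    have h1 := JL_mono' (π := wUnif (QK.box d L b)) (G := fun x => patI τ x z)
      (H := fun _ => (1 : ℝ)) hF1 hwn g
    rwa [JL_const' 1 hws g] at h1
  have hrel : ((relCl τ).card : ℝ) ≤ (k.factorial : ℝ) := by
    have h1 : (relCl τ).card ≤ Fintype.card (Equiv.Perm (Fin k)) := Finset.card_le_univ _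
    rw [Fintype.card_perm, Fintype.card_fin] at h1
    exact_mod_cast h1
  have hkf : (0 : ℝ) < (k.factorial : ℝ) := by exact_mod_cast Nat.factorial_pos k
  have hc00 : 0 ≤ c0 := by positivity
  have hc01 : c0 ≤ 1 := by
    rw [hc0, div_le_one hkf]
    exact hrel
  set κ : ℝ := (7 * d + 7) * Real.log L with hκ
  set err : ℝ := 2 * (k : ℝ) ^ 2 * (k.factorial : ℝ) * (4 * k * (C / (b : ℝ) ^ d)
    + C * (((J : ℝ) + 1) * (L : ℝ) ^ d) ^ 2 * Real.exp (-(κ / 2))) with herr
  have herr0 : 0 ≤ err := by positivity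
  have hmain := assemble (c := QK.tr d L) QK.tr_nonneg hh (t' := t - J * h) (by linarith) hmix hw0
    hw1 J hH0 hH1 hc00 hc01
    (fun l => GoodEnv (envS S l) (envW S (QK.box d L b) M0 l) J (b ^ d) r c1 M Kw)
    (err := err) (δ := 1 / L) herr0 ?_ (hbad M0 hdM0)
  · have h2 : (J : ℝ) * h + (t - J * h) = t := by ring
    rw [h2, ← QK.expect_eq] at hmain
    have h3 : err + 1 / L ≤ ε / 2 := by
      refine le_trans ?_ hK2
      have h4 : 1 / (L : ℝ) ≤ 1 / Real.log L :=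
        one_div_le_one_div_of_le hx0 (Real.log_le_self hL0.le)
      have h5 : C / (L : ℝ) ≤ C / Real.log L :=
        div_le_div_of_nonneg_left (by linarith) hx0 (Real.log_le_self hL0.le)
      have h6 : err ≤ 2 * (k : ℝ) ^ 2 * (k.factorial : ℝ) *
          (4 * k * (C / Real.log L) + C / Real.log L) := by
        rw [herr]
        refine mul_le_mul_of_nonneg_left ?_ (by positivity)
        exact add_le_add (mul_le_mul_of_nonneg_left n5 (by positivity)) (n6.trans h5)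
      calc err + 1 / L ≤ 2 * (k : ℝ) ^ 2 * (k.factorial : ℝ) *
          (4 * k * (C / Real.log L) + C / Real.log L) + 1 / Real.log L := add_le_add h6 h4
        _ = _ := by ring
    have h7 : |expect d L t (fun σ => patI τ σ z) - c0| ≤
        |expect d L t H - expect d L t (fun σ => patI τ σ z)| + |expect d L t H - c0| := by
      rw [abs_sub_comm (expect d L t H) (expect d L t fun σ => patI τ σ z)]
      have h8 := abs_add_le (expect d L t (fun σ => patI τ σ z) - expect d L t H)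
        (expect d L t H - c0)
      rwa [sub_add_sub_cancel] at h8
    refine h7.trans ?_
    have h8 : |expect d L t H - expect d L t (fun σ => patI τ σ z)| ≤ M0.card * e := hins
    linarith
  · intro Φ l hlJ hl hg
    have h1 := hin L Ω S (QK.box d L b) l M0 Φ k z τ r M Kw κ (zero_mem_box hb1)
      (by omega) hr8 hrL hM (by rw [hlJ, hcard]; exact hg) (by rw [hcardR]; exact hMK)
      (by rw [hcardR, hlJ]; exact hbJ) hl hdis hdM0 hzinj hzM n1 (by rw [hcardR]; exact n2)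
      (by rw [hcardR, hlJ]; exact n3) (by rw [hcardR, hlJ]; exact n4)
    rw [hcardR, hlJ] at h1
    exact h1

end Pool.Agent.Stirring.TN
end

section

section

/-!
# LC, row C2: the laws of far apart points of the torus, explicit distance
-/

open Finset Filter

set_option autoImplicit false
set_option linter.unusedSectionVars false

namespace Pool.Agent.Stirring.LC

open Pool.Agent.Stirring Pool.Agent.PL Pool.Agent.Stirring.TN

/-- C2. The laws of far apart points of the torus, the relation `near` made explicit. -/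
theorem klaw_torus_of_env (d : ℕ) (hd : 2 ≤ d) {A B : ℕ} {c1 : ℝ} (hc1 : 0 < c1)
    (hev : ∀ᶠ L : ℕ in atTop, ∀ [NeZero L], EnvGood d A B c1 L) (k : ℕ) (ε : ℝ) (hε : 0 < ε) :
    ∃ L₀ : ℕ, ∀ (L : ℕ) [NeZero L], L₀ ≤ L → ∀ t : ℝ,
      Real.log L ^ (B + 2 * A * (d + 1) + 2) ≤ t →
        ∀ z : Fin k → (Fin d → ZMod L),
          (∀ a b, a ≠ b → Real.log L ^ (A + 1) ≤ (QK.nrm (z a - z b) : ℝ)) →
          ∀ τ : Equiv.Perm (Fin k),
            |expect d L t (fun σ => patI τ σ z) - (relCl τ).card / (k.factorial : ℝ)| ≤ ε := by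
  classical
  obtain ⟨C, hC, hin⟩ := inner_bound d hd c1 hc1
  have hpar := klaw_par d (2 * (d * A)) (C * (7 * d + 7) ^ 2)
    (2 * (k : ℝ) ^ 2 * (k.factorial : ℝ) * (4 * k * C + C) + 1) (16 * k * d) ε hε
  obtain ⟨L₀, hL₀⟩ := eventually_atTop.mp (hev.and hpar)
  refine ⟨L₀, ?_⟩
  intro L _ hL t ht
  obtain ⟨hE, hL64, hK0, hK1, hK2, hK3⟩ := hL₀ L hL
  obtain ⟨b, J, r, h, M, Kw, Ω, _, S, hb1, hbL, hlogb, hbA, hJ1, hJL, hh, hJh, hr8, hrL, hM, hMK,
    hbJ, hw0, hw1, hmix, hdis, hbad⟩ := hE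
  have hL64' : (64 : ℝ) ≤ L := by exact_mod_cast hL64
  have hL0 : (0 : ℝ) < L := by linarith
  have hd0 : (2 : ℝ) ≤ d := by exact_mod_cast hd
  have hb1' : (1 : ℝ) ≤ b := by exact_mod_cast hb1
  have hbL' : (b : ℝ) ≤ L := by exact_mod_cast hbL
  obtain ⟨n1, n2, n3, n4, n5, n6⟩ := kappa_num hd hL64' hC hJL hb1' hbL' hlogb hK0
  have hx1 : 1 ≤ Real.log L := by
    refine le_trans ?_ hK0
    nlinarith
  have hx1' : 1 < Real.log L := by
    refine lt_of_lt_of_le ?_ hK0
    nlinarith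
  have hx0 : 0 < Real.log L := by linarith
  have ht' : Real.log L ^ (B + 2 * A * (d + 1) + 2) ≤ t := ht
  have htB : Real.log L ^ B ≤ t :=
    (pow_le_pow_right₀ hx1 (by omega)).trans ht'
  have ht1 : 1 ≤ t := (one_le_pow₀ hx1).trans htB
  have hcard : (QK.box d L b).card = b ^ d := QK.card_box hbL
  have hcardR : ((QK.box d L b).card : ℝ) = (b : ℝ) ^ d := by rw [hcard]; push_cast; rfl
  intro z hz0 τ
  have hz : ∀ i j, i ≠ j → ¬ NearW (QK.box d L b) (z i) (z j) := by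
    rintro i j hij ⟨u, hu, v, hv, huv⟩
    have h1 : z i - z j = v - u := by
      rw [sub_eq_sub_iff_add_eq_add, huv, add_comm]
    have h2 := hz0 i j hij
    rw [h1] at h2
    have h3 : (QK.nrm (v - u) : ℝ) ≤ b := by exact_mod_cast QK.nrm_box hv hu
    have h4 : Real.log L ^ A < Real.log L ^ (A + 1) :=
      pow_lt_pow_right₀ hx1' (Nat.lt_succ_self A)
    linarith
  have hzinj : Function.Injective z := by
    intro i j hij
    by_contra hne
    exact hz i j hne ⟨0, zero_mem_box hb1, 0, zero_mem_box hb1, by rw [hij]⟩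
  have hdM0 := dis_of_far hz
  set M0 : Finset (Fin d → ZMod L) := univ.image z with hM0
  have hM0card : M0.card ≤ k := by
    refine Finset.card_image_le.trans (le_of_eq ?_)
    rw [Finset.card_univ, Fintype.card_fin]
  have hzM : ∀ i, z i ∈ M0 := fun i => Finset.mem_image_of_mem z (Finset.mem_univ i)
  set c0 : ℝ := (relCl τ).card / (k.factorial : ℝ) with hc0
  have hF0 : ∀ x : Equiv.Perm (Fin d → ZMod L), 0 ≤ patI τ x z := by
    intro x
    unfold patI
    split_ifs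
    · exact zero_le_one
    · exact le_rfl
  have hF1 : ∀ x : Equiv.Perm (Fin d → ZMod L), patI τ x z ≤ 1 := by
    intro x
    unfold patI
    split_ifs
    · exact le_rfl
    · exact zero_le_one
  -- the insertion
  set e : ℝ := 2 * (8 * (d * b * (b : ℝ) ^ d) * Real.sqrt (Real.log ((L : ℝ) ^ d) / t)) with he
  have hone : ∀ y (s : Equiv.Perm (Fin d → ZMod L)), (∀ v, v - y ∉ QK.box d L b → s v = v) →
      ∀ H : Equiv.Perm (Fin d → ZMod L) → ℝ, (∀ x, 0 ≤ H x) → (∀ x, H x ≤ 1) →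
        |expect d L t (fun x => H (x * s)) - expect d L t H| ≤ e := by
    intro y s hs H hH0 hH1
    have h1 := TC.expect_move (d := d) (L := L) (by omega) (by omega) ht1 hbL [s⁻¹]
      (fun g hg => ⟨y, fun w hw => by
        rw [List.mem_singleton.mp hg, Equiv.Perm.inv_eq_iff_eq]
        exact (hs w (box_box hw)).symm⟩) (F := H)
      (fun σ => abs_le.mpr ⟨by linarith [hH0 σ], hH1 σ⟩)
    rw [List.prod_singleton, inv_inv, List.length_singleton, Nat.cast_one, one_mul] at h1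
    exact h1
  have hins := insert_marked (by linarith : (0 : ℝ) ≤ t) hone M0 (fun x => patI τ x z) hF0 hF1
  have he0 : 0 ≤ e := by positivity
  have heb : (M0.card : ℝ) * e ≤ ε / 2 := by
    have h1 : (M0.card : ℝ) * e ≤ k * e :=
      mul_le_mul_of_nonneg_right (by exact_mod_cast hM0card) he0
    refine h1.trans (le_trans ?_ hK3)
    have h2 := cost_num (d := d) (A := A) (B := B) hx1 (by linarith : (0 : ℝ) ≤ b) hbA ht'
    rw [he, Real.log_pow]
    have h3 : (k : ℝ) * (2 * (8 * (d * b * (b : ℝ) ^ d) * Real.sqrt (d * Real.log L / t))) =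
        16 * k * d * (b * (b : ℝ) ^ d * Real.sqrt (d * Real.log L / t)) := by ring
    rw [h3]
    exact mul_le_mul_of_nonneg_left h2 (by positivity)
  -- the main part
  have hwn : ∀ y ∈ M0.toList, ∀ σ, 0 ≤ wUnif (QK.box d L b) y σ := by
    intro y _ σ
    unfold wUnif
    split_ifs
    · positivity
    · exact le_rfl
  have hws : ∀ y ∈ M0.toList, ∑ σ, wUnif (QK.box d L b) y σ = 1 := fun y _ => wUnif_sum9 _ y
  set H : Equiv.Perm (Fin d → ZMod L) → ℝ :=
    fun g => JL (wUnif (QK.box d L b)) (fun x => patI τ x z) M0.toList g with hH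
  have hH0 : ∀ g, 0 ≤ H g := by
    intro g
    have h1 := JL_mono' (π := wUnif (QK.box d L b)) (G := fun _ => (0 : ℝ))
      (H := fun x => patI τ x z) hF0 hwn g
    rwa [JL_const' 0 hws g] at h1
  have hH1 : ∀ g, H g ≤ 1 := by
    intro g
    have h1 := JL_mono' (π := wUnif (QK.box d L b)) (G := fun x => patI τ x z)
      (H := fun _ => (1 : ℝ)) hF1 hwn g
    rwa [JL_const' 1 hws g] at h1
  have hrel : ((relCl τ).card : ℝ) ≤ (k.factorial : ℝ) := by
    have h1 : (relCl τ).card ≤ Fintype.card (Equiv.Perm (Fin k)) := Finset.card_le_univ _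
    rw [Fintype.card_perm, Fintype.card_fin] at h1
    exact_mod_cast h1
  have hkf : (0 : ℝ) < (k.factorial : ℝ) := by exact_mod_cast Nat.factorial_pos k
  have hc00 : 0 ≤ c0 := by positivity
  have hc01 : c0 ≤ 1 := by
    rw [hc0, div_le_one hkf]
    exact hrel
  set κ : ℝ := (7 * d + 7) * Real.log L with hκ
  set err : ℝ := 2 * (k : ℝ) ^ 2 * (k.factorial : ℝ) * (4 * k * (C / (b : ℝ) ^ d)
    + C * (((J : ℝ) + 1) * (L : ℝ) ^ d) ^ 2 * Real.exp (-(κ / 2))) with herr
  have herr0 : 0 ≤ err := by positivity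
  have hmain := assemble (c := QK.tr d L) QK.tr_nonneg hh (t' := t - J * h) (by linarith) hmix hw0
    hw1 J hH0 hH1 hc00 hc01
    (fun l => GoodEnv (envS S l) (envW S (QK.box d L b) M0 l) J (b ^ d) r c1 M Kw)
    (err := err) (δ := 1 / L) herr0 ?_ (hbad M0 hdM0)
  · have h2 : (J : ℝ) * h + (t - J * h) = t := by ring
    rw [h2, ← QK.expect_eq] at hmain
    have h3 : err + 1 / L ≤ ε / 2 := by
      refine le_trans ?_ hK2
      have h4 : 1 / (L : ℝ) ≤ 1 / Real.log L :=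
        one_div_le_one_div_of_le hx0 (Real.log_le_self hL0.le)
      have h5 : C / (L : ℝ) ≤ C / Real.log L :=
        div_le_div_of_nonneg_left (by linarith) hx0 (Real.log_le_self hL0.le)
      have h6 : err ≤ 2 * (k : ℝ) ^ 2 * (k.factorial : ℝ) *
          (4 * k * (C / Real.log L) + C / Real.log L) := by
        rw [herr]
        refine mul_le_mul_of_nonneg_left ?_ (by positivity)
        exact add_le_add (mul_le_mul_of_nonneg_left n5 (by positivity)) (n6.trans h5)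
      calc err + 1 / L ≤ 2 * (k : ℝ) ^ 2 * (k.factorial : ℝ) *
          (4 * k * (C / Real.log L) + C / Real.log L) + 1 / Real.log L := add_le_add h6 h4
        _ = _ := by ring
    have h7 : |expect d L t (fun σ => patI τ σ z) - c0| ≤
        |expect d L t H - expect d L t (fun σ => patI τ σ z)| + |expect d L t H - c0| := by
      rw [abs_sub_comm (expect d L t H) (expect d L t fun σ => patI τ σ z)]
      have h8 := abs_add_le (expect d L t (fun σ => patI τ σ z) - expect d L t H)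
        (expect d L t H - c0)
      rwa [sub_add_sub_cancel] at h8
    refine h7.trans ?_
    have h8 : |expect d L t H - expect d L t (fun σ => patI τ σ z)| ≤ M0.card * e := hins
    linarith
  · intro Φ l hlJ hl hg
    have h1 := hin L Ω S (QK.box d L b) l M0 Φ k z τ r M Kw κ (zero_mem_box hb1)
      (by omega) hr8 hrL hM (by rw [hlJ, hcard]; exact hg) (by rw [hcardR]; exact hMK)
      (by rw [hcardR, hlJ]; exact hbJ) hl hdis hdM0 hzinj hzM n1 (by rw [hcardR]; exact n2)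
      (by rw [hcardR, hlJ]; exact n3) (by rw [hcardR, hlJ]; exact n4)
    rw [hcardR, hlJ] at h1
    exact h1

end Pool.Agent.Stirring.LC
end

section

/-!
# LC, row C2: `klaw_torus`
-/

open Finset Filter

set_option autoImplicit false
set_option linter.unusedSectionVars false

namespace Pool.Agent.Stirring.LC

open Pool.Agent.Stirring Pool.Agent.PL

/-- C2. The laws of far apart points of the torus (`TN.klaw_of_env`, `near` made explicit). -/
theorem klaw_torus (d : ℕ) (hd : 2 ≤ d) : ∃ A C : ℕ, ∀ (k : ℕ) (ε : ℝ), 0 < ε →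
    ∃ L₀ : ℕ, ∀ (L : ℕ) [NeZero L], L₀ ≤ L → ∀ t : ℝ, Real.log L ^ C ≤ t →
      ∀ z : Fin k → (Fin d → ZMod L),
        (∀ a b, a ≠ b → Real.log L ^ A ≤ (QK.nrm (z a - z b) : ℝ)) →
        ∀ τ : Equiv.Perm (Fin k),
          |expect d L t (fun σ => patI τ σ z) - (relCl τ).card / (k.factorial : ℝ)| ≤ ε := by
  obtain ⟨A, B, c1, hc1, hev⟩ := PL.env_good d hd
  exact ⟨A + 1, B + 2 * A * (d + 1) + 2, fun k ε hε => klaw_torus_of_env d hd hc1 hev k ε hε⟩

end Pool.Agent.Stirring.LC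
end
end
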