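import Pool.Agent.Lib.MP_6c3d62_pr.Mg.G068
import Pool.Agent.Lib.MP_6c3d62_pr.Mg.G062
import Pool.Agent.Lib.MP_6c3d62_pr.Mg.G061

section

/-! Union bound, second part. The final statement of block (2). -/

open Finset

set_option linter.unusedSectionVars false

namespace Pool.Agent.Stirring.QK

variable {d L : ℕ} [NeZero L] {Ω : Type*} [Fintype Ω]
variable {S : Slab (Fin d → ZMod L) Ω} {Λ : Finset (Fin d → ZMod L)}
variable {b J Jg R m₀ r : ℕ} {c h δ lam ρ α p p' Mm c1 : ℝ}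

theorem pr_meet (P : Par d L b J Jg R m₀ r c h δ lam ρ α p p' Mm c1)
    (H : SlabLaw (tr d L) h S (box d L b) Λ)
    (hg : ∀ z, p' ≤ ∑ a, S.w a * (if InWin (box d L b) (S.good a) z then 1 else 0))
    (z : Fin d → ZMod L) :
    Pr S.w Jg (fun B => Avoid S (box d L b) B z) ≤ Real.exp (-lam) := by
  rw [Pr_eq]
  exact (avoid_le H P.hp'1 hg Jg z).trans P.u4

theorem chf_nonneg (α : ℝ) (x y : Fin d → ZMod L) : 0 ≤ chf α x y :=
  Finset.sum_nonneg fun _ _ => (Real.cosh_pos _).le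

theorem pr_disp (hd : 1 ≤ d) (P : Par d L b J Jg R m₀ r c h δ lam ρ α p p' Mm c1)
    (H : SlabLaw (tr d L) h S (box d L b) Λ) {k : ℕ} (hk : k ≤ Jg) (z : Fin d → ZMod L) :
    Pr S.w k (fun B => ¬ ((nrm (trc S B z - z) : ℝ) ≤ ρ)) ≤ Real.exp (-lam) := by
  have hh : 0 < h := lt_of_lt_of_le one_pos P.hh
  have hρ : 0 ≤ ρ := (Nat.cast_nonneg b).trans P.l3
  classical
  rw [Pr_eq]
  refine EL_markov H.w_nonneg k (F := fun B => chf α z (trc S B z)) (fun B => chf_nonneg α z _)
    (c := Real.exp (α * ρ) / 2) (by positivity) ?_ ?_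
  · rw [trc_law H k (chf α z) z]
    refine (chf_heat P.hL (s := k * h) (by positivity) z z).trans ?_
    rw [chf_self]
    have h1 : Real.exp (2 * (k * h) * (Real.cosh α - 1)) ≤
        Real.exp (2 * (Jg * h) * (Real.cosh α - 1)) := by
      rw [Real.exp_le_exp]
      have h2 : 0 ≤ Real.cosh α - 1 := by linarith [Real.one_le_cosh α]
      have h3 : (k : ℝ) ≤ Jg := by exact_mod_cast hk
      have h4 : (k : ℝ) * h ≤ Jg * h := mul_le_mul_of_nonneg_right h3 hh.le
      nlinarith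
    have h2 : Real.exp (2 * (Jg * h) * (Real.cosh α - 1)) * d =
        Real.exp (α * ρ) / 2 * (2 * d * Real.exp (2 * (Jg * h) * (Real.cosh α - 1) - α * ρ)) := by
      rw [Real.exp_sub]
      field_simp
    calc Real.exp (2 * (k * h) * (Real.cosh α - 1)) * d ≤
          Real.exp (2 * (Jg * h) * (Real.cosh α - 1)) * d :=
          mul_le_mul_of_nonneg_right h1 (Nat.cast_nonneg _)
      _ = _ := h2
      _ ≤ _ := mul_le_mul_of_nonneg_left P.u5 (by positivity)
  · intro B _ hB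
    push Not at hB
    rcases chf_ge P.hα hρ z (trc S B z) hB.le with h1 | h1
    · exact h1
    · omega

theorem pr_loc (hd : 1 ≤ d) (P : Par d L b J Jg R m₀ r c h δ lam ρ α p p' Mm c1)
    (H : SlabLaw (tr d L) h S (box d L b) Λ)
    (hp : dens (Fin d → ZMod L) (box d L b) Λ = p) (x : Fin d → ZMod L) :
    Pr S.w (R * (2 * Jg)) (fun B => ¬ (∑ z, (if ρ ≤ (nrm (z - x) : ℝ) then
      fw S (box d L b) B (dl x) z else 0) ≤ 1 / 2)) ≤ Real.exp (-lam) := by
  have hh : 0 < h := lt_of_lt_of_le one_pos P.hh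
  have hρ : 0 ≤ ρ := (Nat.cast_nonneg b).trans P.l3
  classical
  rw [Pr_eq]
  refine EL_markov H.w_nonneg _
    (F := fun B => ∑ z, |fw S (box d L b) B (dl x) z| * chf α x z)
    (fun B => Finset.sum_nonneg fun z _ => mul_nonneg (abs_nonneg _) (chf_nonneg α x z))
    (c := Real.exp (α * ρ) / 4) (by positivity) ?_ ?_
  · have h1 := loc_exp (A := Real.exp (2 * h * (Real.cosh α - 1))) (B := Real.exp (α * b))
      (f := chf α x) (fun p => tr_nonneg p) hh.le H (Real.exp_pos _).le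
      (Real.one_le_exp (mul_nonneg P.hα (Nat.cast_nonneg _))) (chf_nonneg α x)
      (chf_heat P.hL hh.le x) (fun q => chf_box P.hα b x q) (R * (2 * Jg)) (dl_nonneg x)
    have h2 : EL S.w (R * (2 * Jg)) (fun B => ∑ z, |fw S (box d L b) B (dl x) z| * chf α x z) =
        EL S.w (R * (2 * Jg)) (fun B => ∑ z, fw S (box d L b) B (dl x) z * chf α x z) := by
      refine EL_congr _ fun B _ => Finset.sum_congr rfl fun z _ => ?_
      rw [abs_of_nonneg (fw_nonneg H.allDis B (dl_nonneg x) z)]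
    rw [h2]
    refine h1.trans ?_
    have h3 : ∑ z, dl x z * chf α x z = d := by
      rw [Finset.sum_eq_single x]
      · rw [chf_self]; simp [dl]
      · intro y _ hy; simp [dl, Pi.single_eq_of_ne hy]
      · intro h; exact absurd (Finset.mem_univ _) h
    rw [h3, hp]
    have h4 := mul_le_mul_of_nonneg_left P.u6 (by positivity : 0 ≤ Real.exp (α * ρ) / 4)
    refine le_trans (le_of_eq ?_) h4
    rw [Real.exp_neg]
    field_simp
  · intro B _ hB
    push Not at hB
    have h1 : ∀ z, (if ρ ≤ (nrm (z - x) : ℝ) then fw S (box d L b) B (dl x) z else 0) *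
        (Real.exp (α * ρ) / 2) ≤ |fw S (box d L b) B (dl x) z| * chf α x z := by
      intro z
      have h0 := fw_nonneg H.allDis B (dl_nonneg x) z
      rw [abs_of_nonneg h0]
      split_ifs with h2
      · rcases chf_ge P.hα hρ x z h2 with h3 | h3
        · exact mul_le_mul_of_nonneg_left h3 h0
        · omega
      · rw [zero_mul]; exact mul_nonneg h0 (chf_nonneg α x z)
    have h2 := Finset.sum_le_sum fun (z : Fin d → ZMod L) (_ : z ∈ Finset.univ) => h1 z
    rw [← Finset.sum_mul] at h2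
    refine le_trans ?_ h2
    have h3 := mul_le_mul_of_nonneg_right hB.le (by positivity : 0 ≤ Real.exp (α * ρ) / 2)
    linarith

theorem pr_num (P : Par d L b J Jg R m₀ r c h δ lam ρ α p p' Mm c1)
    (H : SlabLaw (tr d L) h S (box d L b) Λ)
    (hp : dens (Fin d → ZMod L) (box d L b) Λ = p) {k : ℕ} (hkJ : k ≤ J) (x : Fin d → ZMod L) :
    Pr S.w k (fun B => ¬ (cnt S (box d L b) Λ B (dl x) ≤ 2 * p * J + lam)) ≤
      Real.exp (-lam) := by
  have h1 := cnt_event H k (dl_nonneg x) (dl_sum x).le lam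
  rw [← Pr_eq] at h1
  refine le_trans (Pr_mono H.w_nonneg k fun B _ hB => ?_) h1
  push Not at hB
  rw [hp]
  have h3 : (k : ℝ) ≤ J := by exact_mod_cast hkJ
  have h4 := mul_le_mul_of_nonneg_left h3 (by linarith [P.hp] : 0 ≤ 2 * p)
  linarith

theorem pr_num' (P : Par d L b J Jg R m₀ r c h δ lam ρ α p p' Mm c1)
    (H : SlabLaw (tr d L) h S (box d L b) Λ)
    (hp : dens (Fin d → ZMod L) (box d L b) Λ = p) {k : ℕ} (hkJ : k ≤ J) (x : Fin d → ZMod L) :
    Pr S.w k (fun B => ¬ (bcnt S (box d L b) Λ B (dl x) ≤ 2 * p * J + lam)) ≤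
      Real.exp (-lam) := by
  have h1 := bcnt_event H k (dl_nonneg x) (dl_sum x).le lam
  rw [← Pr_eq] at h1
  refine le_trans (Pr_mono H.w_nonneg k fun B _ hB => ?_) h1
  push Not at hB
  rw [hp]
  have h3 : (k : ℝ) ≤ J := by exact_mod_cast hkJ
  have h4 := mul_le_mul_of_nonneg_left h3 (by linarith [P.hp] : 0 ≤ 2 * p)
  linarith

theorem card_V : (Fintype.card (Fin d → ZMod L) : ℝ) = (L : ℝ) ^ d := by
  rw [Fintype.card_fun, ZMod.card, Fintype.card_fin]
  push_cast
  rfl

theorem Pr_len {w : Ω → ℝ} (hw : ∀ a, 0 ≤ w a) {k m : ℕ} {P : List Ω → Prop} {ε : ℝ}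
    (hε : 0 ≤ ε) (h : k = m → Pr w k P ≤ ε) : Pr w k (fun B => B.length = m ∧ P B) ≤ ε := by
  by_cases hkm : k = m
  · exact (Pr_mono hw k (fun l _ h => h.2)).trans (h hkm)
  · rw [Pr_false k (fun l hl h => hkm (hl ▸ h.1))]; exact hε

theorem Pr_le_len {w : Ω → ℝ} (hw : ∀ a, 0 ≤ w a) {k m : ℕ} {P : List Ω → Prop} {ε : ℝ}
    (hε : 0 ≤ ε) (h : k ≤ m → Pr w k P ≤ ε) : Pr w k (fun B => B.length ≤ m ∧ P B) ≤ ε := by
  by_cases hkm : k ≤ m
  · exact (Pr_mono hw k (fun l _ h => h.2)).trans (h hkm)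
  · rw [Pr_false k (fun l hl h => hkm (hl ▸ h.1))]; exact hε

/-- The conditions fail for a block with small probability. -/
theorem pr_conds (hd : 1 ≤ d) (P : Par d L b J Jg R m₀ r c h δ lam ρ α p p' Mm c1)
    (H : SlabLaw (tr d L) h S (box d L b) Λ)
    (hp : dens (Fin d → ZMod L) (box d L b) Λ = p)
    (hg : ∀ z, p' ≤ ∑ a, S.w a * (if InWin (box d L b) (S.good a) z then 1 else 0))
    (A : List Ω) {k : ℕ} (hkJ : k ≤ J) :
    Pr S.w k (fun B => ¬ Conds S (box d L b) Λ h δ lam ρ (2 * p * J + lam) Mm Jg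
      (R * (2 * Jg)) A B) ≤ 10 * ((L : ℝ) ^ d) ^ 2 * Real.exp (-lam) := by
  have hh : 0 < h := lt_of_lt_of_le one_pos P.hh
  have hw := H.w_nonneg
  set n : ℝ := (L : ℝ) ^ d with hn
  set e := Real.exp (-lam) with he
  have he0 : 0 ≤ e := (Real.exp_pos _).le
  have hL1 : (1 : ℝ) ≤ L := by exact_mod_cast (by have := P.hL; omega : 1 ≤ L)
  have hn1 : 1 ≤ n := one_le_pow₀ hL1
  have hc : (Fintype.card (Fin d → ZMod L) : ℝ) = n := card_V
  have hnn : 0 ≤ n * (n * e) := by positivity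
  have hn1' : n * e ≤ n * (n * e) := by
    have : 0 ≤ n * e := by positivity
    nlinarith
  -- the ten events
  have e1 := Pr_exists2 hw k _ (fun x w => pr_tele_up P H hp A hkJ x w)
  have e2 := Pr_exists2 hw k _ (fun x w => pr_tele_lo P H hp A hkJ x w)
  have e3 := Pr_len hw (k := k) (m := 1) hnn (fun hk1 => by
    rw [hk1, ← hc]
    exact Pr_exists2 hw 1 _ (fun x q => pr_mass_up (lam := lam) hh H A x q))
  have e4 := Pr_len hw (k := k) (m := 1) hnn (fun hk1 => by
    rw [hk1, ← hc]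
    exact Pr_exists2 hw 1 _ (fun x q => pr_mass_lo (lam := lam) hh H A x q))
  have e5 := Pr_len hw (k := k) (m := 1) hnn (fun hk1 => by
    rw [hk1, ← hc]
    exact Pr_exists2 hw 1 _ (fun q q' => pr_mass P H A q q'))
  have e6 := Pr_len hw (k := k) (m := Jg) hnn (fun hk1 => by
    refine le_trans ?_ hn1'
    rw [hk1, ← hc]
    exact Pr_exists hw Jg _ (fun z => pr_meet P H hg z))
  have e7 := Pr_le_len hw (k := k) (m := Jg) hnn (fun hk1 => by
    refine le_trans ?_ hn1'
    rw [← hc]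
    exact Pr_exists hw k _ (fun z => pr_disp hd P H hk1 z))
  have e8 := Pr_len hw (k := k) (m := R * (2 * Jg)) hnn (fun hk1 => by
    refine le_trans ?_ hn1'
    rw [hk1, ← hc]
    exact Pr_exists hw (R * (2 * Jg)) _ (fun x => pr_loc hd P H hp x))
  have e9 := Pr_exists hw k _ (fun x => pr_num P H hp hkJ x)
  have e10 := Pr_exists hw k _ (fun x => pr_num' P H hp hkJ x)
  rw [hc] at e1 e2 e9 e10
  have f10 := (Pr_or hw k _ _).trans (add_le_add e9 e10)
  have f8 := (Pr_or hw k _ _).trans (add_le_add e8 f10)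
  have f7 := (Pr_or hw k _ _).trans (add_le_add e7 f8)
  have f6 := (Pr_or hw k _ _).trans (add_le_add e6 f7)
  have f5 := (Pr_or hw k _ _).trans (add_le_add e5 f6)
  have f4 := (Pr_or hw k _ _).trans (add_le_add e4 f5)
  have f3 := (Pr_or hw k _ _).trans (add_le_add e3 f4)
  have f2 := (Pr_or hw k _ _).trans (add_le_add e2 f3)
  have f1 := (Pr_or hw k _ _).trans (add_le_add e1 f2)
  refine le_trans (Pr_mono hw k fun B hB hn => ?_) (f1.trans ?_)
  · by_contra hcon
    simp only [not_or, not_exists, not_and, not_not] at hcon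
    obtain ⟨g1, g2, g3, g4, g5, g6, g7, g8, g9, g10⟩ := hcon
    refine hn ⟨g1, g2, ?_, ?_, ?_, ?_, ?_, g9, g10, ?_⟩
    · intro a ha x q
      exact g3 (by rw [ha]; rfl) x q a ha
    · intro a ha x q
      exact g4 (by rw [ha]; rfl) x q a ha
    · intro hl z; exact g6 hl z
    · intro hl z; exact g7 hl z
    · intro hl x; exact g8 hl x
    · intro a ha q q'
      exact g5 (by rw [ha]; rfl) q q' a ha
  · nlinarith

/-- **Block (2).** All blocks of the environment satisfy the conditions, with high probability. -/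
theorem pr_dec (hd : 1 ≤ d) (P : Par d L b J Jg R m₀ r c h δ lam ρ α p p' Mm c1)
    (H : SlabLaw (tr d L) h S (box d L b) Λ)
    (hp : dens (Fin d → ZMod L) (box d L b) Λ = p)
    (hg : ∀ z, p' ≤ ∑ a, S.w a * (if InWin (box d L b) (S.good a) z then 1 else 0)) :
    Pr S.w J (fun l => ¬ Dec (Conds S (box d L b) Λ h δ lam ρ (2 * p * J + lam) Mm Jg
      (R * (2 * Jg))) l) ≤
      ((J : ℝ) + 1) ^ 3 * (10 * ((L : ℝ) ^ d) ^ 2 * Real.exp (-lam)) :=
  dec_bound H.w_nonneg H.w_sum (by positivity) fun A k hk => pr_conds hd P H hp hg A hk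

/-- The lower bound (O1) for a good environment. -/
theorem low_of_dec (P : Par d L b J Jg R m₀ r c h δ lam ρ α p p' Mm c1) (hc : 0 < c)
    (hkge : ∀ s : ℝ, 1 ≤ s → ∀ x y : Fin d → ZMod L, (nrm (y - x) : ℝ) ≤ c * Real.sqrt s →
      c * (1 / Real.sqrt s) ^ d ≤ hk d L s x y) (hD : AllDis S (box d L b))
    {l : List Ω} (hlJ : l.length = J)
    (hl : Dec (Conds S (box d L b) Λ h δ lam ρ (2 * p * J + lam) Mm Jg (R * (2 * Jg))) l)
    (l₀ B l₃ : List Ω) (hlB : l = l₀ ++ B ++ l₃) (hB : l.length ≤ 2 * B.length)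
    (x z : Fin d → ZMod L) (hxz : (nrm (z - x) : ℝ) ≤ r) :
    c1 / (r : ℝ) ^ d ≤ fw S (box d L b) B (dl x) z := by
  have hh : 0 < h := lt_of_lt_of_le one_pos P.hh
  have hh1 := P.hh
  have hQ : (box d L b).Nonempty := box_nonempty P.hb
  have hδ := P.hδ
  have hlam := P.hlam
  have hbd : (0 : ℝ) < (b : ℝ) ^ d := by
    have : (0 : ℝ) < b := by exact_mod_cast P.hb
    positivity
  have hcard : ((box d L b).card : ℝ) = (b : ℝ) ^ d := by
    rw [card_box P.hbL]; push_cast; rfl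
  have hJg : (1 : ℝ) ≤ Jg := by exact_mod_cast P.hJg
  set M := (1 / Real.sqrt (Jg * h) + 1 / (L : ℝ)) ^ d with hM
  have hM0 : 0 ≤ M := by positivity
  set e := 8 * δ + 32 * lam / (b : ℝ) ^ d with hedef
  have he0 : 0 ≤ e := by positivity
  set κ := c * (1 / Real.sqrt ((J + 1) * h)) ^ d with hκ
  have hκ0 : 0 ≤ κ := by positivity
  have hMm : ∀ m : ℕ, Jg ≤ m → ∀ z w, hk d L ((m + 1) * h) z w ≤ M := by
    intro m hm z w
    refine hk_le_of_le P.hL (by positivity) ?_ z w
    have : (Jg : ℝ) ≤ m := by exact_mod_cast hm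
    nlinarith
  have hU : ∀ l₀ B l₃, l = l₀ ++ B ++ l₃ → B.length = R * (2 * Jg) → ∀ x z,
      fw S (box d L b) B (dl x) z ≤ 8 * M + e ^ R := by
    intro l₀ B l₃ h1 h2 x z
    have h3 := rounds_up (A := []) (B := B) hD hQ hδ.le hlam.le hM0 hMm
      (by rw [hcard]; exact P.l2) hl R (l₀ := l₀) (l₃ := l₃) (by rw [h1]; simp) h2 x z
    rw [List.nil_append, hcard] at h3
    have h4 : mx (fw S (box d L b) [] (dl x)) ≤ 1 := mx_le fun z => dl_le_one x z
    have h5 : (8 * δ + 32 * lam / (b : ℝ) ^ d) ^ R * mx (fw S (box d L b) [] (dl x)) ≤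
        (8 * δ + 32 * lam / (b : ℝ) ^ d) ^ R * 1 :=
      mul_le_mul_of_nonneg_left h4 (by positivity)
    linarith
  have h1 := low_bound (m₀ := m₀) (κ := κ) (U := 8 * M + e ^ R) hD hQ hδ.le hlam.le hκ0 hl P.l3
    (by
      intro m hm hm' z w hzw
      have hmJ : (m : ℝ) ≤ J := by exact_mod_cast (hlJ ▸ hm' : m ≤ J)
      have hm0 : (m₀ : ℝ) ≤ m := by exact_mod_cast hm
      have hs1 : 1 ≤ ((m : ℝ) + 1) * h := by
        have : 0 ≤ (m : ℝ) * h := by positivity
        nlinarith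
      have h2 := hkge (((m : ℝ) + 1) * h) hs1 z w (by
        refine hzw.trans (P.l4.trans ?_)
        refine mul_le_mul_of_nonneg_left (Real.sqrt_le_sqrt ?_) hc.le
        exact mul_le_mul_of_nonneg_right (by linarith) hh.le)
      refine le_trans ?_ h2
      rw [hκ]
      have h3 : 0 < Real.sqrt (((m : ℝ) + 1) * h) := Real.sqrt_pos.mpr (by linarith)
      have h4 : Real.sqrt (((m : ℝ) + 1) * h) ≤ Real.sqrt ((J + 1) * h) :=
        Real.sqrt_le_sqrt (mul_le_mul_of_nonneg_right (by linarith) hh.le)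
      gcongr)
    (fun m z w => hk_nonneg (by positivity) z w) hU hlB
    (by have := P.l5; omega) x z (hxz.trans P.l8)
  refine le_trans ?_ h1
  rw [hcard]
  have h6 := P.l6
  have h7 := P.l7
  rw [← hM, ← hedef, ← hκ] at h6
  rw [← hκ] at h7
  linarith

end Pool.Agent.Stirring.QK
end

section

section

/-! Local version of block (2): the mass near a point, for a walk started in a window. -/

open Finset

set_option linter.unusedSectionVars false

namespace Pool.Agent.Stirring.QL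

open Pool.Agent.Stirring.QK

variable {d L : ℕ} [NeZero L] {Ω : Type*} [Fintype Ω]
variable {S : Slab (Fin d → ZMod L) Ω} {Λ : Finset (Fin d → ZMod L)}
variable {h δ lam ρ Mm c2 c α p p' c1 : ℝ} {b J Jg R m₀ r : ℕ}

theorem bump_nonneg (ρ : ℝ) (z z' : Fin d → ZMod L) : 0 ≤ bump ρ z z' := le_max_left _ _

theorem bump_le_one {ρ : ℝ} (hρ : 0 ≤ ρ) (z z' : Fin d → ZMod L) : bump ρ z z' ≤ 1 := by
  unfold bump
  refine max_le zero_le_one ?_
  have : 0 ≤ (nrm (z' - z) : ℝ) / ρ := by positivity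
  linarith

/-- The bump is a Lipschitz function. -/
theorem bump_lip {ρ : ℝ} (hρ : 0 < ρ) (z x y : Fin d → ZMod L) :
    |bump ρ z x - bump ρ z y| ≤ (nrm (x - y) : ℝ) / ρ := by
  unfold bump
  refine (abs_max_sub_max_le_max _ _ _ _).trans ?_
  rw [sub_self, abs_zero, max_eq_right (abs_nonneg _)]
  have e1 : 1 - (nrm (x - z) : ℝ) / ρ - (1 - (nrm (y - z) : ℝ) / ρ) =
      ((nrm (y - z) : ℝ) - nrm (x - z)) / ρ := by ring
  rw [e1, abs_div, abs_of_pos hρ]
  refine div_le_div_of_nonneg_right ?_ hρ.le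
  have e2 : x - z = (x - y) + (y - z) := by abel
  have e3 : y - z = (y - x) + (x - z) := by abel
  have n1 : (nrm (x - z) : ℝ) ≤ nrm (x - y) + nrm (y - z) := by
    conv_lhs => rw [e2]
    exact_mod_cast nrm_add _ _
  have n2 : (nrm (y - z) : ℝ) ≤ nrm (x - y) + nrm (x - z) := by
    conv_lhs => rw [e3]
    rw [nrm_sub_comm x y]
    exact_mod_cast nrm_add _ _
  rw [abs_le]
  constructor <;> linarith

theorem heat_tr_shift (s : ℝ) (G : (Fin d → ZMod L) → ℝ) (x y : Fin d → ZMod L) :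
    heat (tr d L) s G (x + y) = ∑ z, hk d L s x z * G (z + y) := by
  rw [heat_eq_sum, ← Equiv.sum_comp (Equiv.addRight y)]
  refine Finset.sum_congr rfl fun z _ => ?_
  simp only [Equiv.coe_addRight]
  rw [hk_translate]

/-- The modulus of continuity is kept by the heat semigroup. -/
theorem heat_lip {s η : ℝ} (hs : 0 ≤ s) {G : (Fin d → ZMod L) → ℝ} {y y' : Fin d → ZMod L}
    (hG : ∀ z, |G (z + y) - G (z + y')| ≤ η) (x : Fin d → ZMod L) :
    |heat (tr d L) s G (x + y) - heat (tr d L) s G (x + y')| ≤ η := by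
  rw [heat_tr_shift, heat_tr_shift, ← Finset.sum_sub_distrib]
  refine (Finset.abs_sum_le_sum_abs _ _).trans ?_
  calc ∑ z, |hk d L s x z * G (z + y) - hk d L s x z * G (z + y')| ≤ ∑ z, hk d L s x z * η := by
        refine Finset.sum_le_sum fun z _ => ?_
        rw [← mul_sub, abs_mul, abs_of_nonneg (hk_nonneg hs x z)]
        exact mul_le_mul_of_nonneg_left (hG z) (hk_nonneg hs x z)
    _ = η := by rw [← Finset.sum_mul, hk_sum, one_mul]

theorem nrm_box_lt {m : ℕ} {y : Fin d → ZMod L} (hm : 1 ≤ m) (hy : y ∈ box d L m) :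
    nrm y ≤ m - 1 := by
  unfold QK.box at hy
  rw [Finset.mem_image] at hy
  obtain ⟨j, _, rfl⟩ := hy
  unfold nrm
  refine Finset.sup_le fun i _ => ?_
  have h1 : (((j i : ℕ) : ZMod L)) = (((j i : ℤ) : ℤ) : ZMod L) := by
    push_cast
    rfl
  show (((j i : ℕ) : ZMod L)).valMinAbs.natAbs ≤ m - 1
  rw [h1]
  have h2 := av_le (L := L) ((j i : ℤ))
  unfold av at h2
  refine h2.trans ?_
  have := (j i).isLt
  omega

/-- The annealed mass. -/
theorem annealed (P : ParL d L b J Jg R m₀ r c h δ lam ρ α p p' Mm c1 c2) (hc : 0 < c)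
    (hkge : ∀ s : ℝ, 1 ≤ s → ∀ x y : Fin d → ZMod L, (nrm (y - x) : ℝ) ≤ c * Real.sqrt s →
      c * (1 / Real.sqrt s) ^ d ≤ hk d L s x y) {k : ℕ} (hk1 : m₀ + 1 ≤ k) (hkJ : k ≤ J)
    {w z : Fin d → ZMod L} (hwz : (nrm (z - w) : ℝ) ≤ r + 2 * ρ) :
    4 * c2 ≤ heat (tr d L) (k * h) (bump ρ z) w := by
  have hh : 0 < h := lt_of_lt_of_le one_pos P.hh
  have hh1 := P.hh
  have hb1 : (1 : ℝ) ≤ b := by exact_mod_cast P.hb
  have hρ1 : 1 ≤ ρ := hb1.trans P.l3
  have hρ : 0 < ρ := by linarith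
  have hk0 : (m₀ : ℝ) + 1 ≤ k := by exact_mod_cast hk1
  have hkJ' : (k : ℝ) ≤ J := by exact_mod_cast hkJ
  have hm0 : (0 : ℝ) ≤ m₀ := Nat.cast_nonneg _
  have hs1 : 1 ≤ (k : ℝ) * h := by nlinarith
  have hs0 : 0 ≤ (k : ℝ) * h := by linarith
  set m := ⌈ρ / 2⌉₊ with hm
  have hm1 : 1 ≤ m := by
    rw [hm]
    exact Nat.one_le_iff_ne_zero.mpr (Nat.ceil_pos.mpr (by positivity)).ne'
  have hmρ : ρ / 2 ≤ m := Nat.le_ceil _
  have hmρ' : (m : ℝ) < ρ / 2 + 1 := Nat.ceil_lt_add_one (by positivity)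
  have hmL : m ≤ L := by
    have h1 : (m : ℝ) ≤ L := by
      have h2 := P.l8
      have h3 : (2 : ℝ) * r ≤ L := by exact_mod_cast P.lL
      linarith
    exact_mod_cast h1
  have hcard : ((box d L m).card : ℝ) = (m : ℝ) ^ d := by
    rw [card_box hmL]; push_cast; rfl
  set κ := c * (1 / Real.sqrt ((J + 1) * h)) ^ d with hκ
  have hκ0 : 0 ≤ κ := by positivity
  have hlow : ∀ y ∈ box d L m, κ / 2 ≤ hk d L (k * h) w (z + y) * bump ρ z (z + y) := by
    intro y hy
    have n1 := nrm_box_lt hm1 hy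
    have n2 : (nrm y : ℝ) ≤ ρ / 2 := by
      have h1 : (nrm y : ℝ) + 1 ≤ m := by
        have : nrm y + 1 ≤ m := by omega
        exact_mod_cast this
      linarith
    have e1 : z + y - z = y := by abel
    have b1 : 1 / 2 ≤ bump ρ z (z + y) := by
      unfold bump
      refine le_trans ?_ (le_max_right _ _)
      rw [e1]
      have : (nrm y : ℝ) / ρ ≤ 1 / 2 := by
        rw [div_le_iff₀ hρ]
        linarith
      linarith
    have k1 : κ ≤ hk d L (k * h) w (z + y) := by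
      have h2 := hkge (k * h) hs1 w (z + y) (by
        have e2 : z + y - w = y + (z - w) := by abel
        rw [e2]
        have n3 : (nrm (y + (z - w)) : ℝ) ≤ nrm y + nrm (z - w) := by
          exact_mod_cast nrm_add _ _
        have n4 := P.l4
        have n5 : Real.sqrt ((m₀ + 1) * h) ≤ Real.sqrt (k * h) :=
          Real.sqrt_le_sqrt (mul_le_mul_of_nonneg_right hk0 hh.le)
        have n6 := mul_le_mul_of_nonneg_left n5 hc.le
        linarith)
      refine le_trans ?_ h2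
      rw [hκ]
      have h3 : 0 < Real.sqrt ((k : ℝ) * h) := Real.sqrt_pos.mpr (by linarith)
      have h4 : Real.sqrt ((k : ℝ) * h) ≤ Real.sqrt ((J + 1) * h) :=
        Real.sqrt_le_sqrt (mul_le_mul_of_nonneg_right (by linarith) hh.le)
      gcongr
    calc κ / 2 = κ * (1 / 2) := by ring
      _ ≤ _ := mul_le_mul k1 b1 (by norm_num) (hκ0.trans k1)
  rw [heat_eq_sum]
  have h1 : ∑ y ∈ box d L m, hk d L (k * h) w (z + y) * bump ρ z (z + y) ≤
      ∑ y, hk d L (k * h) w y * bump ρ z y := by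
    have e1 : ∑ y ∈ box d L m, hk d L (k * h) w (z + y) * bump ρ z (z + y) =
        ∑ v ∈ (box d L m).image (z + ·), hk d L (k * h) w v * bump ρ z v := by
      rw [Finset.sum_image fun a _ a' _ hh => add_left_cancel hh]
    rw [e1]
    exact Finset.sum_le_sum_of_subset_of_nonneg (Finset.subset_univ _) fun v _ _ =>
      mul_nonneg (hk_nonneg hs0 _ _) (bump_nonneg _ _ _)
  refine le_trans ?_ h1
  have h2 : (m : ℝ) ^ d * (κ / 2) ≤
      ∑ y ∈ box d L m, hk d L (k * h) w (z + y) * bump ρ z (z + y) := by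
    calc (m : ℝ) ^ d * (κ / 2) = ∑ _y ∈ box d L m, κ / 2 := by
          rw [Finset.sum_const, nsmul_eq_mul, hcard]
      _ ≤ _ := Finset.sum_le_sum hlow
  refine le_trans ?_ h2
  refine P.lg.trans ?_
  have h3 : (ρ / (2 * Real.sqrt ((J + 1) * h))) ^ d =
      (ρ / 2) ^ d * (1 / Real.sqrt ((J + 1) * h)) ^ d := by
    rw [← mul_pow]
    congr 1
    field_simp
  rw [h3]
  have h4 : (ρ / 2) ^ d ≤ (m : ℝ) ^ d := pow_le_pow_left₀ (by positivity) hmρ d
  calc c / 2 * ((ρ / 2) ^ d * (1 / Real.sqrt ((J + 1) * h)) ^ d) = (ρ / 2) ^ d * (κ / 2) := by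
        rw [hκ]; ring
    _ ≤ (m : ℝ) ^ d * (κ / 2) := mul_le_mul_of_nonneg_right h4 (by linarith)

/-- **The event `hit`.** -/
theorem pr_hit (P : ParL d L b J Jg R m₀ r c h δ lam ρ α p p' Mm c1 c2) (hc : 0 < c)
    (hkge : ∀ s : ℝ, 1 ≤ s → ∀ x y : Fin d → ZMod L, (nrm (y - x) : ℝ) ≤ c * Real.sqrt s →
      c * (1 / Real.sqrt s) ^ d ≤ hk d L s x y)
    (H : SlabLaw (tr d L) h S (box d L b) Λ)
    (hp : dens (Fin d → ZMod L) (box d L b) Λ = p) {k : ℕ} (hk1 : m₀ + 1 ≤ k) (hkJ : k ≤ J)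
    (q z : Fin d → ZMod L) (hqz : (nrm (z - q) : ℝ) ≤ r + ρ) :
    Pr S.w k (fun B => ¬ (c2 ≤ ∑ z', fw S (box d L b) B (cu (box d L b) q) z' * bump ρ z z')) ≤
      Real.exp (-lam) := by
  have hh : 0 < h := lt_of_lt_of_le one_pos P.hh
  have hb1 : (1 : ℝ) ≤ b := by exact_mod_cast P.hb
  have hbd : (0 : ℝ) < (b : ℝ) ^ d := by positivity
  have hρ : 0 < ρ := by
    have := P.l3
    linarith
  have hQ : (box d L b).Nonempty := box_nonempty P.hb
  have hcard : ((box d L b).card : ℝ) = (b : ℝ) ^ d := by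
    rw [card_box P.hbL]; push_cast; rfl
  set Q := box d L b with hQdef
  set u := cu Q q with hu
  have hu0 : ∀ z, 0 ≤ u z := cu_nonneg Q q
  have hu1 : ∑ z, u z = 1 := cu_sum hQ q
  set g : ℕ → (Fin d → ZMod L) → ℝ := fun k => heat (tr d L) (k * h) (bump ρ z) with hg
  have hg0 : g 0 = bump ρ z := by
    simp only [hg, Nat.cast_zero, zero_mul]
    exact heat_zero _ _
  have h1 := tele_lip_lower (θ := (b : ℝ) ^ d / 16) (U := 1 / (b : ℝ) ^ d) (m := 1)
    (η := b / ρ) (fun p => tr_nonneg p) hh.le H g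
    (fun k => by
      simp only [hg]
      rw [← heat_add]
      congr 1
      push_cast
      ring_nf)
    (fun k x => heat_nonneg (fun p => tr_nonneg p) (by positivity)
      (fun z' => bump_nonneg ρ z z') x)
    (fun k x => by
      have h2 := heat_mono (c := tr d L) (fun p => tr_nonneg p) (s := k * h) (by positivity)
        (G := bump ρ z) (G' := fun _ => 1) (fun z' => bump_le_one hρ.le z z') x
      rwa [heat_const] at h2)
    (by positivity) (le_of_eq (by field_simp)) (by positivity)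
    (fun k x y hy y' hy' => by
      refine heat_lip (by positivity) (fun z' => ?_) x
      refine (bump_lip hρ z _ _).trans ?_
      have e1 : z' + y - (z' + y') = y - y' := by abel
      rw [e1]
      have n1 : (nrm (y - y') : ℝ) ≤ b := by exact_mod_cast nrm_box hy hy'
      exact div_le_div_of_nonneg_right n1 hρ.le)
    (by
      have h2 := P.lh
      have h3 : 2 * ((b : ℝ) ^ d / 16) * (b / ρ) = (b : ℝ) ^ d * b / (8 * ρ) := by
        field_simp
        ring
      rw [h3, div_le_one (by positivity)]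
      exact h2) k hu0
    (fun z => by rw [← hcard]; exact cu_le Q q z) hu1.le lam
  rw [← Pr_eq] at h1
  refine le_trans (Pr_mono H.w_nonneg k fun B _ hn => ?_) h1
  push Not at hn
  rw [hg0, hp]
  have h2 : 4 * c2 ≤ ∑ w, u w * g k w := by
    calc 4 * c2 = ∑ w, u w * (4 * c2) := by rw [← Finset.sum_mul, hu1, one_mul]
      _ ≤ _ := by
        refine Finset.sum_le_sum fun w _ => ?_
        by_cases hw : w - q ∈ Q
        · refine mul_le_mul_of_nonneg_left ?_ (hu0 w)
          refine annealed P hc hkge hk1 hkJ ?_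
          have e1 : z - w = (z - q) + (q - w) := by abel
          rw [e1]
          have n1 : (nrm ((z - q) + (q - w)) : ℝ) ≤ nrm (z - q) + nrm (q - w) := by
            exact_mod_cast nrm_add _ _
          have n2 : (nrm (q - w) : ℝ) ≤ b := by
            rw [nrm_sub_comm]
            have h3 := nrm_box_lt P.hb hw
            have h4 : nrm (w - q) ≤ b := by omega
            exact_mod_cast h4
          have := P.l3
          linarith
        · have h3 : u w = 0 := by
            rw [hu]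
            unfold cu
            rw [if_neg hw]
          rw [h3, zero_mul, zero_mul]
  have h3 := P.lf
  have h4 : lam / ((b : ℝ) ^ d / 16) = 16 * lam / (b : ℝ) ^ d := by field_simp
  rw [h4]
  have hp0 := P.hp
  have h5 : 4 * (b / ρ) * p * k ≤ 4 * (b / ρ) * p * J := by
    have : (k : ℝ) ≤ J := by exact_mod_cast hkJ
    exact mul_le_mul_of_nonneg_left this (by positivity)
  have h6 := P.c2pos
  linarith

end Pool.Agent.Stirring.QL
end

section

/-! Local version of block (2): the union bound over the sites of a finite set. -/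

open Finset

set_option linter.unusedSectionVars false

namespace Pool.Agent.Stirring.QL

open Pool.Agent.Stirring.QK

section Strand

variable {V : Type*} [AddCommGroup V] [Fintype V] [DecidableEq V] {Ω : Type*} [Fintype Ω]
variable {c : V × V → ℝ} {h : ℝ} {S : Slab V Ω} {Q Λ : Finset V}

/-- The strand which stays among the covered sites meets a good window soon. -/
theorem avoid_leL (H : SlabLaw c h S Q Λ) {p : ℝ} (hp1 : p ≤ 1) (D2 : V → Prop)
    (hp : ∀ z, D2 z → p ≤ ∑ a, S.w a * (if InWin Q (S.good a) z then 1 else 0)) (k : ℕ) (z : V) :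
    Pr S.w k (fun l => (∀ l1 l2, l = l1 ++ l2 → D2 (trc S l2 z)) ∧ Avoid S Q l z) ≤
      (1 - p) ^ k := by
  classical
  rw [Pr_eq]
  induction k with
  | zero =>
    unfold EL
    rw [pow_zero]
    dsimp only
    split_ifs <;> norm_num
  | succ k ih =>
    set E : List Ω → Prop := fun l => (∀ l1 l2, l = l1 ++ l2 → D2 (trc S l2 z)) ∧
      Avoid S Q l z with hE
    have hE1 : ∀ a l, E (a :: l) → E l := by
      intro a l hl
      refine ⟨fun l1 l2 h12 => hl.1 (a :: l1) l2 (by rw [h12]; rfl), hl.2.1⟩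
    have hE2 : ∀ a l, E (a :: l) → ¬ InWin Q (S.good a) (trc S l z) := fun a l hl => hl.2.2
    have hE3 : ∀ l, E l → D2 (trc S l z) := fun l hl => hl.1 [] l rfl
    have h1 : EL S.w (k + 1) (fun l => if E l then (1 : ℝ) else 0) ≤
        EL S.w k (fun l => (if E l then (1 : ℝ) else 0) *
          ∑ a, S.w a * (if InWin Q (S.good a) (trc S l z) then 0 else 1)) := by
      have h2 : EL S.w (k + 1) (fun l => if E l then (1 : ℝ) else 0) =
          ∑ a, EL S.w k (fun l => S.w a * (if E (a :: l) then (1 : ℝ) else 0)) := by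
        show ∑ a, S.w a * EL S.w k (fun l => if E (a :: l) then (1 : ℝ) else 0) = _
        exact Finset.sum_congr rfl fun a _ => (EL_mul k (S.w a) _).symm
      rw [h2, ← EL_sum Finset.univ k (fun a l => S.w a * (if E (a :: l) then (1 : ℝ) else 0))]
      refine EL_mono H.w_nonneg k fun l _ => ?_
      rw [Finset.mul_sum]
      refine Finset.sum_le_sum fun a _ => ?_
      by_cases h3 : E (a :: l)
      · rw [if_pos h3, if_pos (hE1 a l h3), if_neg (hE2 a l h3)]; linarith
      · rw [if_neg h3, mul_zero]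
        have := H.w_nonneg a
        split_ifs <;> simp [this]
    have h8 : EL S.w k (fun l => (if E l then (1 : ℝ) else 0) *
          ∑ a, S.w a * (if InWin Q (S.good a) (trc S l z) then 0 else 1)) ≤
        EL S.w k (fun l => (1 - p) * (if E l then (1 : ℝ) else 0)) := by
      refine EL_mono H.w_nonneg k fun l _ => ?_
      by_cases h3 : E l
      · rw [if_pos h3, one_mul, mul_one]
        have h7 : ∑ a, S.w a * (if InWin Q (S.good a) (trc S l z) then (0 : ℝ) else 1) =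
            ∑ a, S.w a - ∑ a, S.w a * (if InWin Q (S.good a) (trc S l z) then 1 else 0) := by
          rw [← Finset.sum_sub_distrib]
          refine Finset.sum_congr rfl fun a _ => ?_
          split <;> ring
        rw [h7, H.w_sum]
        linarith [hp _ (hE3 l h3)]
      · rw [if_neg h3, zero_mul, mul_zero]
    refine h1.trans (h8.trans ?_)
    rw [EL_mul, pow_succ, mul_comm]
    exact mul_le_mul_of_nonneg_right ih (by linarith)

end Strand

section Union

variable {Ω : Type*} [Fintype Ω] {w : Ω → ℝ}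

theorem Pr_exists_mem (hw : ∀ a, 0 ≤ w a) (n : ℕ) {ι : Type*} (D : Finset ι)
    (P : ι → List Ω → Prop) {ε : ℝ} (h : ∀ i ∈ D, Pr w n (P i) ≤ ε) :
    Pr w n (fun l => ∃ i ∈ D, P i l) ≤ D.card * ε := by
  have h1 := Pr_exists hw n (fun (i : {x // x ∈ D}) l => P i.1 l) fun i => h i.1 i.2
  rw [Fintype.card_coe] at h1
  exact (Pr_mono hw n fun l _ ⟨i, hi, hl⟩ => ⟨⟨i, hi⟩, hl⟩).trans h1

theorem Pr_exists2_mem (hw : ∀ a, 0 ≤ w a) (n : ℕ) {ι κ : Type*} (D : Finset ι) (D' : Finset κ)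
    (P : ι → κ → List Ω → Prop) {ε : ℝ} (h : ∀ i ∈ D, ∀ j ∈ D', Pr w n (P i j) ≤ ε) :
    Pr w n (fun l => ∃ i ∈ D, ∃ j ∈ D', P i j l) ≤ D.card * (D'.card * ε) :=
  Pr_exists_mem hw n D (fun i l => ∃ j ∈ D', P i j l) fun i hi =>
    Pr_exists_mem hw n D' (P i) (h i hi)

theorem Pr_ge_len {w : Ω → ℝ} (hw : ∀ a, 0 ≤ w a) {k m : ℕ} {P : List Ω → Prop} {ε : ℝ}
    (hε : 0 ≤ ε) (h : m ≤ k → Pr w k P ≤ ε) : Pr w k (fun B => m ≤ B.length ∧ P B) ≤ ε := by
  by_cases hkm : m ≤ k
  · exact (Pr_mono hw k (fun l _ h => h.2)).trans (h hkm)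
  · rw [Pr_false k (fun l hl h => hkm (hl ▸ h.1))]; exact hε

end Union

variable {d L : ℕ} [NeZero L] {Ω : Type*} [Fintype Ω]
variable {S : Slab (Fin d → ZMod L) Ω} {Λ : Finset (Fin d → ZMod L)}
variable {b J Jg R m₀ r : ℕ} {c h δ lam ρ α p p' Mm c1 c2 : ℝ}

/-- The window error is at most `δ U`. -/
theorem werr_leL (P : ParL d L b J Jg R m₀ r c h δ lam ρ α p p' Mm c1 c2)
    (hp : QK.dens (Fin d → ZMod L) (box d L b) Λ = p) {U : ℝ} (hU : 0 ≤ U) {k : ℕ} (hkJ : k ≤ J) :
    werr (Fin d → ZMod L) Λ U (nu d b h) k ≤ δ * U := by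
  have hh : 0 < h := lt_of_lt_of_le one_pos P.hh
  have hsh : 0 < Real.sqrt h := Real.sqrt_pos.mpr hh
  unfold werr nu
  have h1 : ∑ j ∈ range k, (b : ℝ) ^ d * (d * b) * (1 / Real.sqrt (((j : ℝ) + 1) * h)) =
      (b : ℝ) ^ d * (d * b) * (1 / Real.sqrt h) * ∑ j ∈ range k, 1 / Real.sqrt ((j : ℝ) + 1) := by
    rw [Finset.mul_sum]
    refine Finset.sum_congr rfl fun j _ => ?_
    rw [Real.sqrt_mul (by positivity)]
    field_simp
  rw [h1]
  have h2 := sum_inv_sqrt_le k
  have h3 : Real.sqrt (k : ℝ) ≤ Real.sqrt J := Real.sqrt_le_sqrt (by exact_mod_cast hkJ)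
  have hcard : ((box d L b).card : ℝ) = (b : ℝ) ^ d := by
    rw [card_box P.hbL]; push_cast; rfl
  have h4 : (Λ.card / (Fintype.card (Fin d → ZMod L)) : ℝ) * (b : ℝ) ^ d = p := by
    rw [← hp, QK.dens, hcard]; ring
  have h5 : 4 * U * (Λ.card / (Fintype.card (Fin d → ZMod L) : ℝ)) *
      ((b : ℝ) ^ d * (d * b) * (1 / Real.sqrt h) * ∑ j ∈ range k, 1 / Real.sqrt ((j : ℝ) + 1)) =
      4 * U * (p * (d * b)) * (1 / Real.sqrt h) * ∑ j ∈ range k, 1 / Real.sqrt ((j : ℝ) + 1) := by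
    rw [← h4]; ring
  rw [h5]
  have hp0 := P.hp
  calc 4 * U * (p * (d * b)) * (1 / Real.sqrt h) * ∑ j ∈ range k, 1 / Real.sqrt ((j : ℝ) + 1) ≤
        4 * U * (p * (d * b)) * (1 / Real.sqrt h) * (2 * Real.sqrt J) := by
        refine mul_le_mul_of_nonneg_left (by linarith) (by positivity)
    _ = U * ((8 * p * (d * b) * Real.sqrt J) / Real.sqrt h) := by ring
    _ ≤ U * δ := by
        refine mul_le_mul_of_nonneg_left ?_ hU
        rw [div_le_iff₀ hsh]
        exact P.u3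
    _ = δ * U := mul_comm _ _

/-- The failure of `tele_up`. -/
theorem pr_tele_upL (P : ParL d L b J Jg R m₀ r c h δ lam ρ α p p' Mm c1 c2)
    (H : SlabLaw (tr d L) h S (box d L b) Λ)
    (hp : QK.dens (Fin d → ZMod L) (box d L b) Λ = p) (A : List Ω) {k : ℕ} (hkJ : k ≤ J)
    (x w : Fin d → ZMod L) :
    Pr S.w k (fun B => ¬ (∑ z, fw S (box d L b) (A ++ B) (dl x) z * hk d L h z w ≤
      2 * ∑ z, fw S (box d L b) A (dl x) z * hk d L ((B.length + 1) * h) z w +
        4 * δ * mx (fw S (box d L b) A (dl x)))) ≤ Real.exp (-lam) := by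
  have hh : 0 < h := lt_of_lt_of_le one_pos P.hh
  set u := fw S (box d L b) A (dl x) with hu
  have hu0 : ∀ z, 0 ≤ u z := fw_nonneg H.allDis A (dl_nonneg x)
  have hu1 : ∑ z, u z = 1 := fw_dl_sum A x
  set U := mx u with hU
  have hU0 : 0 < U := mx_pos hu1
  have hδ := P.hδ
  have hlam := P.hlam
  have hθ0 : 0 < lam / (δ * U) := by positivity
  have h1 := tele_upper (θ := lam / (δ * U)) (U := U) (m := (1 / Real.sqrt h + 1 / L) ^ d)
    (fun p => tr_nonneg p) hh.le H (gk h w) (gk_succ h w) (gk_nonneg hh.le w)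
    (gk_le P.hL hh w) hθ0 (by
      have : 16 * U * (lam / (δ * U)) * (1 / Real.sqrt h + 1 / L) ^ d =
          16 * (lam / δ) * (1 / Real.sqrt h + 1 / L) ^ d := by field_simp
      rw [this]; exact P.u1)
    (nu d b h) (osc_gk P.hL P.hbL hh w) (fun k => by
      have h3 : 2 * (lam / (δ * U)) * U * nu d b h k = 2 * (lam / δ) * nu d b h k := by field_simp
      rw [h3]
      refine le_trans ?_ P.u2
      exact mul_le_mul_of_nonneg_left (nu_le hh k) (by positivity)) k hu0 (le_mx u) lam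
  rw [← Pr_eq] at h1
  refine le_trans (Pr_mono H.w_nonneg k fun B hB hn => ?_) h1
  push Not at hn
  rw [fw_append] at hn
  rw [hB] at hn
  have h2 := werr_leL (Λ := Λ) P hp hU0.le hkJ
  have h3 : 2 * lam / (lam / (δ * U)) = 2 * δ * U := by field_simp
  rw [h3]
  have h4 : ∑ z, fw S (box d L b) B u z * gk h w 0 z =
      ∑ z, fw S (box d L b) B u z * hk d L h z w := by
    refine Finset.sum_congr rfl fun z _ => ?_
    simp [gk]
  have h5 : ∑ z, u z * gk h w k z = ∑ z, u z * hk d L ((k + 1) * h) z w := rfl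
  rw [h4, h5]
  linarith

/-- The failure of `tele_lo`. -/
theorem pr_tele_loL (P : ParL d L b J Jg R m₀ r c h δ lam ρ α p p' Mm c1 c2)
    (H : SlabLaw (tr d L) h S (box d L b) Λ)
    (hp : QK.dens (Fin d → ZMod L) (box d L b) Λ = p) (A : List Ω) {k : ℕ} (hkJ : k ≤ J)
    (x w : Fin d → ZMod L) :
    Pr S.w k (fun B => ¬ (∑ z, fw S (box d L b) A (dl x) z * hk d L ((B.length + 1) * h) z w
      - 2 * δ * mx (fw S (box d L b) A (dl x)) ≤
        2 * ∑ z, fw S (box d L b) (A ++ B) (dl x) z * hk d L h z w)) ≤ Real.exp (-lam) := by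
  have hh : 0 < h := lt_of_lt_of_le one_pos P.hh
  set u := fw S (box d L b) A (dl x) with hu
  have hu0 : ∀ z, 0 ≤ u z := fw_nonneg H.allDis A (dl_nonneg x)
  have hu1 : ∑ z, u z = 1 := fw_dl_sum A x
  set U := mx u with hU
  have hU0 : 0 < U := mx_pos hu1
  have hδ := P.hδ
  have hlam := P.hlam
  have hθ0 : 0 < lam / (δ * U) := by positivity
  have h1 := tele_lower (θ := lam / (δ * U)) (U := U) (m := (1 / Real.sqrt h + 1 / L) ^ d)
    (fun p => tr_nonneg p) hh.le H (gk h w) (gk_succ h w) (gk_nonneg hh.le w)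
    (gk_le P.hL hh w) hθ0 (by
      have : 16 * U * (lam / (δ * U)) * (1 / Real.sqrt h + 1 / L) ^ d =
          16 * (lam / δ) * (1 / Real.sqrt h + 1 / L) ^ d := by field_simp
      rw [this]; exact P.u1)
    (nu d b h) (osc_gk P.hL P.hbL hh w) (fun k => by
      have h3 : 2 * (lam / (δ * U)) * U * nu d b h k = 2 * (lam / δ) * nu d b h k := by field_simp
      rw [h3]
      refine le_trans ?_ P.u2
      exact mul_le_mul_of_nonneg_left (nu_le hh k) (by positivity)) k hu0 (le_mx u) lam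
  rw [← Pr_eq] at h1
  refine le_trans (Pr_mono H.w_nonneg k fun B hB hn => ?_) h1
  push Not at hn
  rw [fw_append] at hn
  rw [hB] at hn
  have h2 := werr_leL (Λ := Λ) P hp hU0.le hkJ
  have h3 : lam / (lam / (δ * U)) = δ * U := by field_simp
  rw [h3]
  have h4 : ∑ z, fw S (box d L b) B u z * gk h w 0 z =
      ∑ z, fw S (box d L b) B u z * hk d L h z w := by
    refine Finset.sum_congr rfl fun z _ => ?_
    simp [gk]
  have h5 : ∑ z, u z * gk h w k z = ∑ z, u z * hk d L ((k + 1) * h) z w := rfl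
  rw [h4, h5]
  linarith

/-- The failure of `mass`. -/
theorem pr_massL (P : ParL d L b J Jg R m₀ r c h δ lam ρ α p p' Mm c1 c2)
    (H : SlabLaw (tr d L) h S (box d L b) Λ) (A : List Ω) (q q' : Fin d → ZMod L) :
    Pr S.w 1 (fun B => ∃ a, B = [a] ∧ ¬ (∑ y ∈ box d L b,
      fw S (box d L b) A (cu (box d L b) q) (S.T a (q' + y)) ≤ Mm)) ≤ Real.exp (-lam) := by
  have hh : 0 < h := lt_of_lt_of_le one_pos P.hh
  have hQ : (box d L b).Nonempty := box_nonempty P.hb
  set u := fw S (box d L b) A (cu (box d L b) q) with hu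
  have hu0 : ∀ z, 0 ≤ u z := fw_nonneg H.allDis A (cu_nonneg _ q)
  have hu1 : ∑ z, u z = 1 := by rw [hu, fw_sum, cu_sum hQ]
  have hcard : ((box d L b).card : ℝ) = (b : ℝ) ^ d := by
    rw [card_box P.hbL]; push_cast; rfl
  have hbd : (0 : ℝ) < (b : ℝ) ^ d := by
    have : (0 : ℝ) < b := by exact_mod_cast P.hb
    positivity
  have huU : ∀ z, u z ≤ 1 / (b : ℝ) ^ d := by
    intro z
    rw [← hcard]
    exact fw_le H.allDis A (cu_le _ q) z
  have hθ0 : 0 < (b : ℝ) ^ d / 16 := by positivity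
  have h1 := mass_upper (θ := (b : ℝ) ^ d / 16) (U := 1 / (b : ℝ) ^ d) (m := 1)
    (g := ic (box d L b) q')
    (fun p => tr_nonneg p) hh.le H hu0 huU (ic_nonneg _ q') (ic_le_one _ q') hθ0
    (le_of_eq (by field_simp)) lam
  classical
  rw [Pr_one]
  refine le_trans (Finset.sum_le_sum fun a _ => mul_le_mul_of_nonneg_left ?_ (H.w_nonneg a)) h1
  rw [sum_ic (box d L b) q' (fun z => u (S.T a z))]
  have h6 : ∑ z, u z * heat (tr d L) h (ic (box d L b) q') z ≤
      (b : ℝ) ^ d * (1 / Real.sqrt h + 1 / L) ^ d := by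
    refine sum_mul_le hu0 hu1 fun z => ?_
    rw [heat_ic, ← hcard]
    calc ∑ y ∈ box d L b, hk d L h z (q' + y) ≤
          ∑ _y ∈ box d L b, (1 / Real.sqrt h + 1 / L) ^ d :=
          Finset.sum_le_sum fun y _ => hk_le P.hL hh _ _
      _ = _ := by rw [Finset.sum_const, nsmul_eq_mul]
  have h3 : 2 * lam / ((b : ℝ) ^ d / 16) = 32 * lam / (b : ℝ) ^ d := by field_simp; ring
  have h7 := P.u8
  rw [h3]
  split_ifs with h4 h5 h5
  · exact le_rfl
  · exfalso
    obtain ⟨a', ha', hn⟩ := h4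
    simp only [List.cons.injEq, and_true] at ha'
    subst ha'
    push Not at hn
    exact h5 (by linarith)
  · exact zero_le_one
  · exact le_rfl

theorem pr_meetL (P : ParL d L b J Jg R m₀ r c h δ lam ρ α p p' Mm c1 c2)
    (H : SlabLaw (tr d L) h S (box d L b) Λ) (D2 : Finset (Fin d → ZMod L))
    (hg : ∀ z ∈ D2, p' ≤ ∑ a, S.w a * (if InWin (box d L b) (S.good a) z then 1 else 0))
    (z : Fin d → ZMod L) :
    Pr S.w Jg (fun B => (∀ B1 B2, B = B1 ++ B2 → trc S B2 z ∈ D2) ∧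
      Avoid S (box d L b) B z) ≤ Real.exp (-lam) :=
  (avoid_leL H P.hp'1 (fun x => x ∈ D2) hg Jg z).trans P.u4

theorem pr_dispL (hd : 1 ≤ d) (P : ParL d L b J Jg R m₀ r c h δ lam ρ α p p' Mm c1 c2)
    (H : SlabLaw (tr d L) h S (box d L b) Λ) {k : ℕ} (hk : k ≤ Jg) (z : Fin d → ZMod L) :
    Pr S.w k (fun B => ¬ ((nrm (trc S B z - z) : ℝ) ≤ ρ)) ≤ Real.exp (-lam) := by
  have hh : 0 < h := lt_of_lt_of_le one_pos P.hh
  have hρ : 0 ≤ ρ := (Nat.cast_nonneg b).trans P.l3
  classical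
  rw [Pr_eq]
  refine EL_markov H.w_nonneg k (F := fun B => chf α z (trc S B z)) (fun B => chf_nonneg α z _)
    (c := Real.exp (α * ρ) / 2) (by positivity) ?_ ?_
  · rw [trc_law H k (chf α z) z]
    refine (chf_heat P.hL (s := k * h) (by positivity) z z).trans ?_
    rw [chf_self]
    have h1 : Real.exp (2 * (k * h) * (Real.cosh α - 1)) ≤
        Real.exp (2 * (Jg * h) * (Real.cosh α - 1)) := by
      rw [Real.exp_le_exp]
      have h2 : 0 ≤ Real.cosh α - 1 := by linarith [Real.one_le_cosh α]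
      have h3 : (k : ℝ) ≤ Jg := by exact_mod_cast hk
      have h4 : (k : ℝ) * h ≤ Jg * h := mul_le_mul_of_nonneg_right h3 hh.le
      nlinarith
    have h2 : Real.exp (2 * (Jg * h) * (Real.cosh α - 1)) * d =
        Real.exp (α * ρ) / 2 * (2 * d * Real.exp (2 * (Jg * h) * (Real.cosh α - 1) - α * ρ)) := by
      rw [Real.exp_sub]
      field_simp
    calc Real.exp (2 * (k * h) * (Real.cosh α - 1)) * d ≤
          Real.exp (2 * (Jg * h) * (Real.cosh α - 1)) * d :=
          mul_le_mul_of_nonneg_right h1 (Nat.cast_nonneg _)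
      _ = _ := h2
      _ ≤ _ := mul_le_mul_of_nonneg_left P.u5 (by positivity)
  · intro B _ hB
    push Not at hB
    rcases chf_ge P.hα hρ z (trc S B z) hB.le with h1 | h1
    · exact h1
    · omega

theorem pr_locL (hd : 1 ≤ d) (P : ParL d L b J Jg R m₀ r c h δ lam ρ α p p' Mm c1 c2)
    (H : SlabLaw (tr d L) h S (box d L b) Λ)
    (hp : QK.dens (Fin d → ZMod L) (box d L b) Λ = p) {k : ℕ} (hk : k ≤ R * (2 * Jg))
    (x : Fin d → ZMod L) :
    Pr S.w k (fun B => ¬ (∑ z, (if ρ ≤ (nrm (z - x) : ℝ) then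
      fw S (box d L b) B (dl x) z else 0) ≤ Real.exp (-lam))) ≤ Real.exp (-lam) := by
  have hh : 0 < h := lt_of_lt_of_le one_pos P.hh
  have hρ : 0 ≤ ρ := (Nat.cast_nonneg b).trans P.l3
  classical
  rw [Pr_eq]
  refine EL_markov H.w_nonneg _
    (F := fun B => ∑ z, |fw S (box d L b) B (dl x) z| * chf α x z)
    (fun B => Finset.sum_nonneg fun z _ => mul_nonneg (abs_nonneg _) (chf_nonneg α x z))
    (c := Real.exp (α * ρ) / 2 * Real.exp (-lam)) (by positivity) ?_ ?_
  · have h1 := loc_exp (A := Real.exp (2 * h * (Real.cosh α - 1))) (B := Real.exp (α * b))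
      (f := chf α x) (fun p => tr_nonneg p) hh.le H (Real.exp_pos _).le
      (Real.one_le_exp (mul_nonneg P.hα (Nat.cast_nonneg _))) (chf_nonneg α x)
      (chf_heat P.hL hh.le x) (fun q => chf_box P.hα b x q) k (dl_nonneg x)
    have h2 : EL S.w k (fun B => ∑ z, |fw S (box d L b) B (dl x) z| * chf α x z) =
        EL S.w k (fun B => ∑ z, fw S (box d L b) B (dl x) z * chf α x z) := by
      refine EL_congr _ fun B _ => Finset.sum_congr rfl fun z _ => ?_
      rw [abs_of_nonneg (fw_nonneg H.allDis B (dl_nonneg x) z)]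
    rw [h2]
    refine h1.trans ?_
    have h3 : ∑ z, dl x z * chf α x z = d := by
      rw [Finset.sum_eq_single x]
      · rw [chf_self]; simp [dl]
      · intro y _ hy; simp [dl, Pi.single_eq_of_ne hy]
      · intro h; exact absurd (Finset.mem_univ _) h
    rw [h3, hp]
    set a := Real.exp (2 * h * (Real.cosh α - 1)) * (1 + p * (Real.exp (α * b) - 1)) with ha
    have ha1 : 1 ≤ a := by
      have e1 : 1 ≤ Real.exp (2 * h * (Real.cosh α - 1)) := by
        apply Real.one_le_exp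
        have : 0 ≤ Real.cosh α - 1 := by linarith [Real.one_le_cosh α]
        positivity
      have e2 : 1 ≤ Real.exp (α * b) := Real.one_le_exp (mul_nonneg P.hα (Nat.cast_nonneg _))
      have e3 : 0 ≤ p * (Real.exp (α * b) - 1) := mul_nonneg P.hp (by linarith)
      have e4 : 1 ≤ 1 + p * (Real.exp (α * b) - 1) := by linarith
      rw [ha]
      nlinarith
    have h5 : a ^ k ≤ a ^ (R * (2 * Jg)) := pow_le_pow_right₀ ha1 hk
    have h4 := mul_le_mul_of_nonneg_left P.u6 (by positivity : 0 ≤ Real.exp (α * ρ) / 4)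
    have h6 : Real.exp (-(2 * lam)) = Real.exp (-lam) * Real.exp (-lam) := by
      rw [← Real.exp_add]; congr 1; ring
    have h7 : Real.exp (α * ρ) / 4 * (4 * d * a ^ (R * (2 * Jg)) * Real.exp (-(α * ρ))) =
        a ^ (R * (2 * Jg)) * d := by
      rw [Real.exp_neg]; field_simp
    rw [← ha, h7, h6] at h4
    have h8 : 0 ≤ Real.exp (α * ρ) * (Real.exp (-lam) * Real.exp (-lam)) := by positivity
    calc a ^ k * (d : ℝ) ≤ a ^ (R * (2 * Jg)) * d :=
          mul_le_mul_of_nonneg_right h5 (Nat.cast_nonneg _)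
      _ ≤ Real.exp (α * ρ) / 4 * (Real.exp (-lam) * Real.exp (-lam)) := h4
      _ ≤ Real.exp (α * ρ) / 2 * Real.exp (-lam) * Real.exp (-lam) := by linarith
  · intro B _ hB
    push Not at hB
    have h1 : ∀ z, (if ρ ≤ (nrm (z - x) : ℝ) then fw S (box d L b) B (dl x) z else 0) *
        (Real.exp (α * ρ) / 2) ≤ |fw S (box d L b) B (dl x) z| * chf α x z := by
      intro z
      have h0 := fw_nonneg H.allDis B (dl_nonneg x) z
      rw [abs_of_nonneg h0]
      split_ifs with h2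
      · rcases chf_ge P.hα hρ x z h2 with h3 | h3
        · exact mul_le_mul_of_nonneg_left h3 h0
        · omega
      · rw [zero_mul]; exact mul_nonneg h0 (chf_nonneg α x z)
    have h2 := Finset.sum_le_sum fun (z : Fin d → ZMod L) (_ : z ∈ Finset.univ) => h1 z
    rw [← Finset.sum_mul] at h2
    refine le_trans ?_ h2
    have h3 := mul_le_mul_of_nonneg_right hB.le (by positivity : 0 ≤ Real.exp (α * ρ) / 2)
    linarith

theorem pr_numL (P : ParL d L b J Jg R m₀ r c h δ lam ρ α p p' Mm c1 c2)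
    (H : SlabLaw (tr d L) h S (box d L b) Λ)
    (hp : QK.dens (Fin d → ZMod L) (box d L b) Λ = p) {k : ℕ} (hkJ : k ≤ J) (x : Fin d → ZMod L) :
    Pr S.w k (fun B => ¬ (cnt S (box d L b) Λ B (dl x) ≤ 2 * p * J + lam)) ≤
      Real.exp (-lam) := by
  have h1 := cnt_event H k (dl_nonneg x) (dl_sum x).le lam
  rw [← Pr_eq] at h1
  refine le_trans (Pr_mono H.w_nonneg k fun B _ hB => ?_) h1
  push Not at hB
  rw [hp]
  have h3 : (k : ℝ) ≤ J := by exact_mod_cast hkJ
  have h4 := mul_le_mul_of_nonneg_left h3 (by linarith [P.hp] : 0 ≤ 2 * p)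
  linarith

theorem pr_num'L (P : ParL d L b J Jg R m₀ r c h δ lam ρ α p p' Mm c1 c2)
    (H : SlabLaw (tr d L) h S (box d L b) Λ)
    (hp : QK.dens (Fin d → ZMod L) (box d L b) Λ = p) {k : ℕ} (hkJ : k ≤ J) (x : Fin d → ZMod L) :
    Pr S.w k (fun B => ¬ (bcnt S (box d L b) Λ B (dl x) ≤ 2 * p * J + lam)) ≤
      Real.exp (-lam) := by
  have h1 := bcnt_event H k (dl_nonneg x) (dl_sum x).le lam
  rw [← Pr_eq] at h1
  refine le_trans (Pr_mono H.w_nonneg k fun B _ hB => ?_) h1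
  push Not at hB
  rw [hp]
  have h3 : (k : ℝ) ≤ J := by exact_mod_cast hkJ
  have h4 := mul_le_mul_of_nonneg_left h3 (by linarith [P.hp] : 0 ≤ 2 * p)
  linarith

/-- The conditions fail for a block with small probability. -/
theorem pr_condsL (hd : 1 ≤ d) (P : ParL d L b J Jg R m₀ r c h δ lam ρ α p p' Mm c1 c2)
    (H : SlabLaw (tr d L) h S (box d L b) Λ)
    (hp : QK.dens (Fin d → ZMod L) (box d L b) Λ = p) (D D2 : Finset (Fin d → ZMod L))
    (hg : ∀ z ∈ D2, p' ≤ ∑ a, S.w a * (if InWin (box d L b) (S.good a) z then 1 else 0))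
    (hhit : ∀ k, m₀ + 1 ≤ k → k ≤ J → ∀ q z : Fin d → ZMod L, (nrm (z - q) : ℝ) ≤ r + ρ →
      Pr S.w k (fun B => ¬ (c2 ≤ ∑ z', fw S (box d L b) B (cu (box d L b) q) z' * bump ρ z z')) ≤
        Real.exp (-lam))
    (A : List Ω) {k : ℕ} (hkJ : k ≤ J) :
    Pr S.w k (fun B => ¬ CondsL S (box d L b) Λ D D2 h δ lam ρ (2 * p * J + lam) Mm c2 Jg
      (R * (2 * Jg)) m₀ r A B) ≤ 12 * (D.card : ℝ) ^ 2 * Real.exp (-lam) := by
  have hh : 0 < h := lt_of_lt_of_le one_pos P.hh
  have hw := H.w_nonneg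
  set n : ℝ := (D.card : ℝ) with hn
  set e := Real.exp (-lam) with he
  have he0 : 0 ≤ e := (Real.exp_pos _).le
  have hn0 : 0 ≤ n := Nat.cast_nonneg _
  have hnn : 0 ≤ n * (n * e) := by positivity
  have hn1' : n * e ≤ n * (n * e) := by
    have h1 : n ≤ n * n := by
      rw [hn]; exact_mod_cast Nat.le_mul_self D.card
    calc n * e ≤ n * n * e := mul_le_mul_of_nonneg_right h1 he0
      _ = n * (n * e) := by ring
  -- the events
  have e1 := Pr_exists2_mem hw k D D _ (fun x _ w _ => pr_tele_upL P H hp A hkJ x w)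
  have e2 := Pr_exists2_mem hw k D D _ (fun x _ w _ => pr_tele_loL P H hp A hkJ x w)
  have e3 := Pr_len hw (k := k) (m := 1) hnn (fun hk1 => by
    rw [hk1]
    exact Pr_exists2_mem hw 1 D D _ (fun x _ q _ => pr_mass_up (lam := lam) hh H A x q))
  have e4 := Pr_len hw (k := k) (m := 1) hnn (fun hk1 => by
    rw [hk1]
    exact Pr_exists2_mem hw 1 D D _ (fun x _ q _ => pr_mass_lo (lam := lam) hh H A x q))
  have e5 := Pr_len hw (k := k) (m := 1) hnn (fun hk1 => by
    rw [hk1]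
    exact Pr_exists2_mem hw 1 D D _ (fun q _ q' _ => pr_massL P H A q q'))
  have e6 := Pr_len hw (k := k) (m := Jg) hnn (fun hk1 => by
    refine le_trans ?_ hn1'
    rw [hk1]
    exact Pr_exists_mem hw Jg D _ (fun z _ => pr_meetL P H D2 hg z))
  have e7 := Pr_le_len hw (k := k) (m := Jg) hnn (fun hk1 => by
    refine le_trans ?_ hn1'
    exact Pr_exists_mem hw k D _ (fun z _ => pr_dispL hd P H hk1 z))
  have e8 := Pr_le_len hw (k := k) (m := R * (2 * Jg)) hnn (fun hk1 => by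
    refine le_trans ?_ hn1'
    exact Pr_exists_mem hw k D _ (fun x _ => pr_locL hd P H hp hk1 x))
  have e9 := (Pr_exists_mem hw k D _ (fun x _ => pr_numL P H hp hkJ x)).trans hn1'
  have e10 := (Pr_exists_mem hw k D _ (fun x _ => pr_num'L P H hp hkJ x)).trans hn1'
  have e11 := Pr_ge_len hw (k := k) (m := m₀ + 1) hnn (fun hk1 =>
    Pr_exists2_mem hw k D D (fun q z B => (nrm (z - q) : ℝ) ≤ r + ρ ∧
      ¬ (c2 ≤ ∑ z', fw S (box d L b) B (cu (box d L b) q) z' * bump ρ z z'))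
      (fun q _ z _ => by
        by_cases hqz : (nrm (z - q) : ℝ) ≤ r + ρ
        · exact (Pr_mono hw k (fun l _ h => h.2)).trans (hhit k hk1 hkJ q z hqz)
        · rw [Pr_false k (fun l _ h => hqz h.1)]; exact he0))
  have f11 := (Pr_or hw k _ _).trans (add_le_add e10 e11)
  have f10 := (Pr_or hw k _ _).trans (add_le_add e9 f11)
  have f8 := (Pr_or hw k _ _).trans (add_le_add e8 f10)
  have f7 := (Pr_or hw k _ _).trans (add_le_add e7 f8)
  have f6 := (Pr_or hw k _ _).trans (add_le_add e6 f7)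
  have f5 := (Pr_or hw k _ _).trans (add_le_add e5 f6)
  have f4 := (Pr_or hw k _ _).trans (add_le_add e4 f5)
  have f3 := (Pr_or hw k _ _).trans (add_le_add e3 f4)
  have f2 := (Pr_or hw k _ _).trans (add_le_add e2 f3)
  have f1 := (Pr_or hw k _ _).trans (add_le_add e1 f2)
  refine le_trans (Pr_mono hw k fun B hB hn => ?_) (f1.trans ?_)
  · by_contra hcon
    simp only [not_or, not_exists, not_and, not_not] at hcon
    obtain ⟨g1, g2, g3, g4, g5, g6, g7, g8, g9, g10, g11⟩ := hcon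
    refine hn { tele_up := g1, tele_lo := g2, mass_up := ?_, mass_lo := ?_, meet := ?_,
                disp := g7, loc := g8, num := g9, num' := g10, mass := ?_, hit := ?_ }
    · intro a ha x hx q hq
      exact g3 (by rw [ha]; rfl) x hx q hq a ha
    · intro a ha x hx q hq
      exact g4 (by rw [ha]; rfl) x hx q hq a ha
    · intro hl z hz hB; exact g6 hl z hz hB
    · intro a ha q hq q' hq'
      exact g5 (by rw [ha]; rfl) q hq q' hq' a ha
    · intro hl q hq z hz hqz
      exact g11 hl q hq z hz hqz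
  · nlinarith

/-- **Block (2), local.** All blocks of the environment satisfy the conditions, with high
probability. -/
theorem pr_decL (hd : 1 ≤ d) (P : ParL d L b J Jg R m₀ r c h δ lam ρ α p p' Mm c1 c2)
    (H : SlabLaw (tr d L) h S (box d L b) Λ)
    (hp : QK.dens (Fin d → ZMod L) (box d L b) Λ = p) (D D2 : Finset (Fin d → ZMod L))
    (hg : ∀ z ∈ D2, p' ≤ ∑ a, S.w a * (if InWin (box d L b) (S.good a) z then 1 else 0))
    (hhit : ∀ k, m₀ + 1 ≤ k → k ≤ J → ∀ q z : Fin d → ZMod L, (nrm (z - q) : ℝ) ≤ r + ρ →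
      Pr S.w k (fun B => ¬ (c2 ≤ ∑ z', fw S (box d L b) B (cu (box d L b) q) z' * bump ρ z z')) ≤
        Real.exp (-lam)) :
    Pr S.w J (fun l => ¬ Dec (CondsL S (box d L b) Λ D D2 h δ lam ρ (2 * p * J + lam) Mm c2 Jg
      (R * (2 * Jg)) m₀ r) l) ≤
      ((J : ℝ) + 1) ^ 3 * (12 * (D.card : ℝ) ^ 2 * Real.exp (-lam)) :=
  dec_bound H.w_nonneg H.w_sum (by positivity) fun A k hk => pr_condsL hd P H hp D D2 hg hhit A hk

end Pool.Agent.Stirring.QL
end
end
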