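import Pool.Agent.Lib.MP_6c3d62_pr.Mg.G065
import Pool.Agent.Lib.MP_6c3d62_pr.PL.Lattice
import Pool.Agent.Lib.MP_6c3d62_pr.RS.Br
import Pool.Agent.Lib.MP_6c3d62_pr.Mg.G062
import Pool.Agent.Lib.MP_6c3d62_pr.Mg.G069

section

/-! Block (3): from the quenched kernel to the resistances. -/

set_option autoImplicit false
set_option linter.unusedSectionVars false

open Finset Equiv

namespace Pool.Agent.PL



/-! Torus. -/

/-- Distance (maximum norm) at most `r`. -/
def near {d L : ℕ} (r : ℕ) (v v' : Fin d → ZMod L) : Prop := ∀ i, |(v i - v' i).valMinAbs| ≤ (r : ℤ)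

noncomputable instance {d L : ℕ} (r : ℕ) (v v' : Fin d → ZMod L) : Decidable (near r v v') :=
  Classical.propDecidable _

/-- `valMinAbs` is the smallest representative in absolute value. -/
theorem c55_abs_le {L : ℕ} [NeZero L] (z : ℤ) (x : ZMod L) (h : (z : ZMod L) = x) :
    |x.valMinAbs| ≤ |z| := by
  by_contra hc
  push Not at hc
  have h1 : ((x.valMinAbs - z : ℤ) : ZMod L) = 0 := by
    rw [Int.cast_sub, ZMod.coe_valMinAbs, h, sub_self]
  rw [ZMod.intCast_zmod_eq_zero_iff_dvd] at h1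
  have h2 := ZMod.valMinAbs_mem_Ioc x
  rw [Set.mem_Ioc] at h2
  have h3 : |x.valMinAbs| * 2 ≤ L := by
    rcases abs_cases x.valMinAbs with ⟨h, _⟩ | ⟨h, _⟩ <;> rw [h] <;> linarith [h2.1, h2.2]
  have h4 : |x.valMinAbs - z| < L := by
    have := abs_sub x.valMinAbs z
    linarith
  have h5 := Int.eq_zero_of_abs_lt_dvd h1 h4
  have h6 : x.valMinAbs = z := by linarith
  rw [h6] at hc
  exact lt_irrefl _ hc

/-- The position of the centre number `k`. -/
def c55_pos (L L' k : ℕ) : ℕ := k * L / L'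

theorem c55_pos_step {L L' s : ℕ} (hL' : 0 < L') (h : L ≤ s * L') (k : ℕ) :
    c55_pos L L' (k + 1) ≤ c55_pos L L' k + s := by
  unfold c55_pos
  rw [← Nat.add_mul_div_right _ _ hL']
  apply Nat.div_le_div_right
  nlinarith

theorem c55_pos_mono {L L' : ℕ} {k k' : ℕ} (h : k ≤ k') : c55_pos L L' k ≤ c55_pos L L' k' := by
  unfold c55_pos
  exact Nat.div_le_div_right (Nat.mul_le_mul_right _ h)

theorem c55_pos_top {L L' : ℕ} (hL' : 0 < L') : c55_pos L L' L' = L := by
  unfold c55_pos
  exact Nat.mul_div_cancel_left _ hL'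

theorem c55_pos_lt {L L' : ℕ} (hL : 0 < L) {k : ℕ} (hk : k < L') : c55_pos L L' k < L := by
  unfold c55_pos
  apply Nat.div_lt_of_lt_mul
  exact Nat.mul_lt_mul_of_pos_right hk hL

theorem c55_pos_zero {L L' : ℕ} : c55_pos L L' 0 = 0 := by
  unfold c55_pos
  simp

/-- Close centres have close numbers. -/
theorem c55_pos_gap {L L' s : ℕ} (hs : 1 ≤ s) (hL' : 0 < L') (h : s * L' ≤ 2 * L) (_hL : 0 < L)
    {k k' : ℕ} (hkk : c55_pos L L' k' ≤ c55_pos L L' k + 2 * s) : k' < k + 7 := by
  by_contra hc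
  push Not at hc
  have h1 : c55_pos L L' (k + 7) ≤ c55_pos L L' k' := c55_pos_mono hc
  have h2 : c55_pos L L' (k + 7) ≤ c55_pos L L' k + 2 * s := h1.trans hkk
  unfold c55_pos at h2
  have h3 : k * L / L' * L' ≤ k * L := Nat.div_mul_le_self _ _
  have h4 : (k + 7) * L < ((k + 7) * L / L' + 1) * L' := by
    have := Nat.lt_div_mul_add (a := (k + 7) * L) hL'
    linarith [this, add_mul ((k + 7) * L / L') 1 L']
  have h5 : ((k + 7) * L / L' + 1) * L' ≤ (k * L / L' + 2 * s + 1) * L' :=
    Nat.mul_le_mul_right _ (by omega)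
  have h6 : (k * L / L' + 2 * s + 1) * L' = k * L / L' * L' + 2 * (s * L') + L' := by ring
  have h7 : L' ≤ s * L' := Nat.le_mul_of_pos_left _ hs
  have h8 : (k + 7) * L = k * L + 7 * L := by ring
  omega

/-- A finset of numbers of diameter below `7` has at most `7` elements. -/
theorem c55_card_le (F : Finset ℕ) (h : ∀ k ∈ F, ∀ k' ∈ F, k' < k + 7) : F.card ≤ 7 := by
  rcases F.eq_empty_or_nonempty with rfl | hF
  · simp
  have hsub : F ⊆ Finset.Ico (F.min' hF) (F.min' hF + 7) := by
    intro k hk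
    rw [Finset.mem_Ico]
    exact ⟨F.min'_le k hk, h _ (F.min'_mem hF) _ hk⟩
  have := Finset.card_le_card hsub
  simpa using this

/-- The number of centres with position in a window. -/
theorem c55_card_window {L L' s : ℕ} (hs : 1 ≤ s) (hL' : 0 < L') (h : s * L' ≤ 2 * L)
    (hL : 0 < L) (c : ℤ) :
    ((range L').filter fun k => |c - (c55_pos L L' k : ℤ)| ≤ s).card ≤ 7 := by
  apply c55_card_le
  intro k hk k' hk'
  rw [Finset.mem_filter] at hk hk'
  apply c55_pos_gap hs hL' h hL
  have h1 := abs_le.mp hk.2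
  have h2 := abs_le.mp hk'.2
  have : (c55_pos L L' k' : ℤ) ≤ c55_pos L L' k + 2 * s := by linarith [h1.1, h1.2, h2.1, h2.2]
  exact_mod_cast this

/-- One dimension. -/
theorem c55_one (L s : ℕ) [NeZero L] (hs : 1 ≤ s) (hsL : s ≤ L) :
    ∃ (L' : ℕ) (_ : NeZero L') (a : ZMod L' → ZMod L), L' ≤ L ∧
      (∀ k, |(a k - a (k + 1)).valMinAbs| ≤ (s : ℤ)) ∧
      (∀ v, ∃ k, |(v - a k).valMinAbs| ≤ (s : ℤ)) ∧
      (∀ v, (univ.filter fun k => |(v - a k).valMinAbs| ≤ (s : ℤ)).card ≤ 21) := by
  have hL : 0 < L := Nat.pos_of_ne_zero (NeZero.ne L)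
  set L' : ℕ := (L + s - 1) / s with hL'def
  have hL'1 : 0 < L' := Nat.div_pos (by omega) hs
  have hlow : L ≤ s * L' := by
    have := Nat.lt_div_mul_add (a := L + s - 1) hs
    rw [← hL'def, mul_comm] at this
    omega
  have hup : s * L' ≤ 2 * L := by
    have := Nat.mul_div_le (L + s - 1) s
    rw [← hL'def] at this
    omega
  have hLL : L' ≤ L := by
    rw [hL'def]
    apply Nat.div_le_of_le_mul
    obtain ⟨t, rfl⟩ : ∃ t, s = t + 1 := ⟨s - 1, by omega⟩
    obtain ⟨l, rfl⟩ : ∃ l, L = l + 1 := ⟨L - 1, by omega⟩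
    have : (t + 1) * (l + 1) = t * l + t + l + 1 := by ring
    omega
  have hne : NeZero L' := ⟨hL'1.ne'⟩
  refine ⟨L', hne, fun k => ((c55_pos L L' k.val : ℕ) : ZMod L), hLL, ?_, ?_, ?_⟩
  · intro k
    by_cases hk : k.val + 1 < L'
    · have hv : (k + 1).val = k.val + 1 := by
        rw [ZMod.val_add, ZMod.val_one_eq_one_mod, Nat.add_mod_mod, Nat.mod_eq_of_lt hk]
      have h1 := c55_pos_step hL'1 hlow k.val
      have h2 : c55_pos L L' k.val ≤ c55_pos L L' (k.val + 1) := c55_pos_mono (by omega)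
      refine (c55_abs_le ((c55_pos L L' k.val : ℤ) - (c55_pos L L' (k.val + 1) : ℤ)) _ ?_).trans ?_
      · show _ = ((c55_pos L L' k.val : ℕ) : ZMod L) - ((c55_pos L L' (k + 1).val : ℕ) : ZMod L)
        rw [hv]; push_cast; rfl
      · rw [abs_le]
        constructor <;> push_cast <;> omega
    · have hkv : k.val + 1 = L' := by
        have := ZMod.val_lt k
        omega
      have hv : (k + 1).val = 0 := by
        rw [ZMod.val_add, ZMod.val_one_eq_one_mod, Nat.add_mod_mod, hkv, Nat.mod_self]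
      have h1 := c55_pos_step hL'1 hlow k.val
      have h2 : c55_pos L L' k.val ≤ c55_pos L L' (k.val + 1) := c55_pos_mono (by omega)
      rw [hkv, c55_pos_top hL'1] at h1 h2
      refine (c55_abs_le ((c55_pos L L' k.val : ℤ) - (L : ℤ)) _ ?_).trans ?_
      · show _ = ((c55_pos L L' k.val : ℕ) : ZMod L) - ((c55_pos L L' (k + 1).val : ℕ) : ZMod L)
        rw [hv, c55_pos_zero]; simp
      · rw [abs_le]
        constructor <;> omega
  · intro v
    -- the last centre before `v`
    have hex : ∃ k, v.val < c55_pos L L' k := ⟨L', by rw [c55_pos_top hL'1]; exact ZMod.val_lt v⟩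
    classical
    set k0 := Nat.find hex with hk0
    have hk1 : v.val < c55_pos L L' k0 := Nat.find_spec hex
    have hk2 : k0 ≤ L' := Nat.find_min' hex (by rw [c55_pos_top hL'1]; exact ZMod.val_lt v)
    have hk3 : k0 ≠ 0 := by
      intro h
      rw [h, c55_pos_zero] at hk1
      exact absurd hk1 (by omega)
    obtain ⟨k, hk⟩ : ∃ k, k0 = k + 1 := ⟨k0 - 1, by omega⟩
    have hk4 : ¬ v.val < c55_pos L L' k := Nat.find_min hex (by omega)
    rw [hk] at hk1
    have h1 := c55_pos_step hL'1 hlow k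
    refine ⟨(k : ZMod L'), ?_⟩
    refine (c55_abs_le ((v.val : ℤ) - (c55_pos L L' k : ℤ)) _ ?_).trans ?_
    · show _ = v - ((c55_pos L L' (k : ZMod L').val : ℕ) : ZMod L)
      rw [ZMod.val_natCast, Nat.mod_eq_of_lt (by omega)]
      push_cast
      rw [ZMod.natCast_zmod_val]
    · rw [abs_le]
      constructor <;> omega
  · intro v
    have hinj : Function.Injective (fun k : ZMod L' => k.val) := ZMod.val_injective L'
    have hsub : (univ.filter fun k : ZMod L' =>
        |(v - ((c55_pos L L' k.val : ℕ) : ZMod L)).valMinAbs| ≤ (s : ℤ)).image (fun k => k.val)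
        ⊆ (((range L').filter fun k => |((v.val : ℤ) - L) - (c55_pos L L' k : ℤ)| ≤ s) ∪
          ((range L').filter fun k => |(v.val : ℤ) - (c55_pos L L' k : ℤ)| ≤ s)) ∪
          ((range L').filter fun k => |((v.val : ℤ) + L) - (c55_pos L L' k : ℤ)| ≤ s) := by
      intro k hk
      rw [Finset.mem_image] at hk
      obtain ⟨κ, hκ, rfl⟩ := hk
      rw [Finset.mem_filter] at hκ
      have hκ2 := hκ.2
      set z := (v - ((c55_pos L L' κ.val : ℕ) : ZMod L)).valMinAbs with hz
      have hdvd : (L : ℤ) ∣ (v.val : ℤ) - (c55_pos L L' κ.val : ℤ) - z := by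
        rw [← ZMod.intCast_zmod_eq_zero_iff_dvd]
        push_cast
        rw [hz, ZMod.coe_valMinAbs, ZMod.natCast_zmod_val]
        ring
      obtain ⟨t, ht⟩ := hdvd
      have hzs := abs_le.mp hκ2
      have hv1 := ZMod.val_lt v
      have hκL := ZMod.val_lt κ
      have hp : c55_pos L L' κ.val < L := c55_pos_lt hL hκL
      have hLz : (0 : ℤ) < L := by exact_mod_cast hL
      have hp' : (c55_pos L L' κ.val : ℤ) < L := by exact_mod_cast hp
      have hp0 : (0 : ℤ) ≤ c55_pos L L' κ.val := by positivity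
      have hv1' : (v.val : ℤ) < L := by exact_mod_cast hv1
      have hv0 : (0 : ℤ) ≤ v.val := by positivity
      have hsL' : (s : ℤ) ≤ L := by exact_mod_cast hsL
      have ht1 : t < 2 := by
        by_contra hc
        push Not at hc
        nlinarith [hzs.1, hzs.2]
      have ht2 : -2 ≤ t := by
        by_contra hc
        push Not at hc
        nlinarith [hzs.1, hzs.2]
      have ht3 : t = -2 ∨ t = -1 ∨ t = 0 ∨ t = 1 := by omega
      rw [Finset.mem_union, Finset.mem_union, Finset.mem_filter, Finset.mem_filter,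
        Finset.mem_filter, Finset.mem_range]
      rcases ht3 with h | h | h | h
      · -- `t = -2` : both ends
        exfalso
        rw [h] at ht
        linarith [hzs.1, hzs.2]
      · right
        refine ⟨hκL, ?_⟩
        rw [h] at ht
        rw [abs_le]
        constructor <;> linarith [hzs.1, hzs.2]
      · left; right
        refine ⟨hκL, ?_⟩
        rw [h] at ht
        rw [abs_le]
        constructor <;> linarith [hzs.1, hzs.2]
      · left; left
        refine ⟨hκL, ?_⟩
        rw [h] at ht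
        rw [abs_le]
        constructor <;> linarith [hzs.1, hzs.2]
    have h1 := Finset.card_le_card hsub
    rw [Finset.card_image_of_injective _ hinj] at h1
    have h2 := c55_card_window hs hL'1 hup hL ((v.val : ℤ) - L)
    have h3 := c55_card_window hs hL'1 hup hL (v.val : ℤ)
    have h4 := c55_card_window hs hL'1 hup hL ((v.val : ℤ) + L)
    refine h1.trans ((Finset.card_union_le _ _).trans ?_)
    have h5 := Finset.card_union_le
      ((range L').filter fun k => |((v.val : ℤ) - L) - (c55_pos L L' k : ℤ)| ≤ s)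
      ((range L').filter fun k => |(v.val : ℤ) - (c55_pos L L' k : ℤ)| ≤ s)
    omega

/-- The number of points of a box. -/
theorem c55_card_box (d L s : ℕ) [NeZero L] :
    ((univ : Finset (Fin d → ZMod L)).filter fun v => near s v 0).card
      = ((univ : Finset (ZMod L)).filter fun x => |x.valMinAbs| ≤ (s : ℤ)).card ^ d := by
  have h1 : ((univ : Finset (Fin d → ZMod L)).filter fun v => near s v 0)
      = Fintype.piFinset (fun _ : Fin d =>
        (univ : Finset (ZMod L)).filter fun x => |x.valMinAbs| ≤ (s : ℤ)) := by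
    ext k
    simp only [Finset.mem_filter, Finset.mem_univ, true_and, Fintype.mem_piFinset, near,
      Pi.zero_apply, sub_zero]
  rw [h1, Fintype.card_piFinset]
  simp

theorem c55_box_le (L s : ℕ) [NeZero L] (hs : 1 ≤ s) :
    ((univ : Finset (ZMod L)).filter fun x => |x.valMinAbs| ≤ (s : ℤ)).card ≤ 3 * s := by
  have hsub : ((univ : Finset (ZMod L)).filter fun x => |x.valMinAbs| ≤ (s : ℤ)).image
      (fun x => x.valMinAbs) ⊆ Finset.Icc (-(s : ℤ)) s := by
    intro z hz
    rw [Finset.mem_image] at hz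
    obtain ⟨x, hx, rfl⟩ := hz
    rw [Finset.mem_filter] at hx
    rw [Finset.mem_Icc]
    exact abs_le.mp hx.2
  have h1 := Finset.card_le_card hsub
  rw [Finset.card_image_of_injective _ ZMod.injective_valMinAbs, Int.card_Icc] at h1
  omega

theorem c55_le_box (L s : ℕ) [NeZero L] (hsL : s ≤ L) :
    s ≤ ((univ : Finset (ZMod L)).filter fun x => |x.valMinAbs| ≤ (s : ℤ)).card := by
  have hsub : (range s).image (fun n : ℕ => (n : ZMod L))
      ⊆ ((univ : Finset (ZMod L)).filter fun x => |x.valMinAbs| ≤ (s : ℤ)) := by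
    intro x hx
    rw [Finset.mem_image] at hx
    obtain ⟨n, hn, rfl⟩ := hx
    rw [Finset.mem_range] at hn
    rw [Finset.mem_filter]
    refine ⟨Finset.mem_univ _, (c55_abs_le (n : ℤ) _ (by push_cast; rfl)).trans ?_⟩
    rw [abs_of_nonneg (by positivity)]
    exact_mod_cast hn.le
  have h1 := Finset.card_le_card hsub
  rw [Finset.card_image_of_injOn, Finset.card_range] at h1
  · exact h1
  · intro m hm n hn hmn
    rw [Finset.coe_range, Set.mem_Iio] at hm hn
    have := (ZMod.natCast_eq_natCast_iff' m n L).mp hmn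
    rwa [Nat.mod_eq_of_lt (by omega), Nat.mod_eq_of_lt (by omega)] at this

/-- R6'. Centres: a coarse torus of side `L' = ⌈L/s⌉` mapped into `(ℤ/L)^d`. -/
theorem centres (d : ℕ) (hd : 1 ≤ d) : ∃ ov : ℕ, ∀ (L s : ℕ) [NeZero L], 1 ≤ s → s ≤ L →
    ∃ (L' : ℕ) (_ : NeZero L') (a : (Fin d → ZMod L') → (Fin d → ZMod L)), L' ≤ L ∧
      (∀ k i, near s (a k) (a (k + Pi.single i 1))) ∧
      (∀ v, ∃ k, near s v (a k)) ∧
      (∀ v, (univ.filter fun k => near s v (a k)).card ≤ ov) ∧
      ((univ : Finset (Fin d → ZMod L)).filter fun v => near s v 0).card ≤ (3 * s) ^ d ∧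
      s ^ d ≤ ((univ : Finset (Fin d → ZMod L)).filter fun v => near s v 0).card := by
  refine ⟨21 ^ d, ?_⟩
  intro L s _ hs hsL
  obtain ⟨L', hne, a, hLL, ha1, ha2, ha3⟩ := c55_one L s hs hsL
  refine ⟨L', hne, fun k i => a (k i), hLL, ?_, ?_, ?_, ?_, ?_⟩
  · intro k i j
    by_cases hij : j = i
    · subst hij
      have := ha1 (k j)
      simpa using this
    · simp [Pi.single_eq_of_ne hij]
  · intro v
    choose f hf using ha2
    exact ⟨fun i => f (v i), fun i => hf (v i)⟩
  · intro v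
    have h1 : (univ.filter fun k : Fin d → ZMod L' => near s v (fun i => a (k i)))
        = Fintype.piFinset (fun i => univ.filter fun κ => |(v i - a κ).valMinAbs| ≤ (s : ℤ)) := by
      ext k
      rw [Finset.mem_filter, Fintype.mem_piFinset]
      simp only [Finset.mem_filter, Finset.mem_univ, true_and]
      exact Iff.rfl
    rw [h1, Fintype.card_piFinset]
    calc ∏ i : Fin d, (univ.filter fun κ => |(v i - a κ).valMinAbs| ≤ (s : ℤ)).card
        ≤ ∏ _i : Fin d, 21 := Finset.prod_le_prod' fun i _ => ha3 (v i)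
      _ = 21 ^ d := by simp
  · rw [c55_card_box]
    exact Nat.pow_le_pow_left (c55_box_le L s hs) d
  · rw [c55_card_box]
    exact Nat.pow_le_pow_left (c55_le_box L s hsL) d

/-- What block (2) delivers for an environment. -/
structure GoodEnv {d L : ℕ} [NeZero L] (S : ℕ → Perm (Fin d → ZMod L))
    (w : ℕ → (Fin d → ZMod L) → Option (Fin d → ZMod L)) (J N r : ℕ) (c1 M Kw : ℝ) : Prop where
  /-- windows have `N` sites -/
  card : ∀ j ≤ J, ∀ x, (win w j x).Nonempty → (win w j x).card = N
  /-- windows are small (their diameter is much smaller than `r`) -/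
  diam : ∀ j ≤ J, ∀ x, ∀ v ∈ win w j x, ∀ v' ∈ win w j x, near (r / 4) v v'
  /-- (O1) -/
  low : ∀ i k, i + k ≤ J → J ≤ 2 * k → ∀ v v', near r v v' →
    c1 / (r : ℝ) ^ d ≤ kr S w i k (Pi.single v 1) v'
  /-- (O2) -/
  mass : ∀ i j, i < j → j ≤ J → ∀ x y, wm S w N i x j y ≤ M / N
  /-- (O3), forward -/
  num : ∀ i ≤ J, ∀ x, ∑ j ∈ Ioc i J, ∑ y, wm S w N i x j y ≤ Kw
  /-- (O3), backward -/
  num' : ∀ j ≤ J, ∀ y, ∑ i ∈ range j, ∑ x, wm S w N i x j y ≤ Kw

end Pool.Agent.PL
end

section

section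

/-! Block (3): boxes on the torus. -/

set_option autoImplicit false
set_option linter.unusedSectionVars false

open Finset

namespace Pool.Agent.Stirring.RS

open PL

lemma near_symm {d L : ℕ} {r : ℕ} {v v' : Fin d → ZMod L} (h : near r v v') : near r v' v := by
  intro i
  have h1 := h i
  have h2 : v' i - v i = -(v i - v' i) := by ring
  rw [h2]
  rw [Int.abs_eq_natAbs] at h1 ⊢
  rwa [ZMod.natAbs_valMinAbs_neg]

lemma near_trans {d L : ℕ} {r s : ℕ} {v v' v'' : Fin d → ZMod L} (h : near r v v')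
    (h' : near s v' v'') : near (r + s) v v'' := by
  intro i
  have h1 := h i
  have h2 := h' i
  have h3 : v i - v'' i = (v i - v' i) + (v' i - v'' i) := by ring
  rw [h3]
  have h4 := ZMod.natAbs_valMinAbs_add_le (v i - v' i) (v' i - v'' i)
  have h5 : |((v i - v' i) + (v' i - v'' i)).valMinAbs| ≤
      |(v i - v' i).valMinAbs + (v' i - v'' i).valMinAbs| := by
    rw [Int.abs_eq_natAbs, Int.abs_eq_natAbs]
    exact_mod_cast h4
  refine h5.trans ((abs_add_le _ _).trans ?_)
  push_cast
  exact add_le_add h1 h2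

lemma near_mono {d L : ℕ} {r s : ℕ} (hrs : r ≤ s) {v v' : Fin d → ZMod L} (h : near r v v') :
    near s v v' := fun i => (h i).trans (by exact_mod_cast hrs)

lemma near_self {d L : ℕ} (r : ℕ) (v : Fin d → ZMod L) : near r v v := by
  intro i
  simp

/-- The box of half side `s` around `b`. -/
noncomputable def bx {d L : ℕ} [NeZero L] (s : ℕ) (b : Fin d → ZMod L) : Finset (Fin d → ZMod L) :=
  univ.filter (fun v' => near s v' b)

lemma mem_bx {d L : ℕ} [NeZero L] (s : ℕ) (b v : Fin d → ZMod L) : v ∈ bx s b ↔ near s v b := by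
  simp [bx]

lemma card_bx {d L : ℕ} [NeZero L] {s : ℕ} (hs : 2 * s + 1 ≤ L) (b : Fin d → ZMod L) :
    (2 * s + 1) ^ d ≤ (bx s b).card := by
  have hval : ∀ j : Fin (2 * s + 1), (((j : ℤ) - s : ℤ) : ZMod L).valMinAbs = (j : ℤ) - s := by
    intro j
    rw [ZMod.valMinAbs_spec]
    refine ⟨rfl, ?_⟩
    have := j.2
    rw [Set.mem_Ioc]
    constructor <;> omega
  set f : (Fin d → Fin (2 * s + 1)) → (Fin d → ZMod L) :=
    fun j i => b i + (((j i : ℤ) - s : ℤ) : ZMod L) with hf
  have hinj : Function.Injective f := by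
    intro j j' h
    funext i
    have h1 := congrFun h i
    simp only [hf] at h1
    have h2 := add_left_cancel h1
    have h3 := congrArg ZMod.valMinAbs h2
    rw [hval, hval] at h3
    exact Fin.ext (by omega)
  have h1 : (univ.image f).card = (2 * s + 1) ^ d := by
    rw [Finset.card_image_of_injective _ hinj, Finset.card_univ]
    simp
  rw [← h1]
  refine Finset.card_le_card ?_
  intro v hv
  obtain ⟨j, _, rfl⟩ := Finset.mem_image.1 hv
  rw [mem_bx]
  intro i
  have h2 : f j i - b i = (((j i : ℤ) - s : ℤ) : ZMod L) := by simp [hf]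
  rw [h2, hval]
  have := (j i).2
  rw [abs_le]
  constructor <;> omega

/-- The size of the boxes of half side `r / 4`. -/
lemma card_bx_quarter {d L : ℕ} [NeZero L] {r : ℕ} (hr : 8 ≤ r) (hL : 2 * r ≤ L)
    (b : Fin d → ZMod L) : (r : ℝ) ^ d ≤ 4 ^ d * ((bx (r / 4) b).card : ℝ) := by
  have h1 : (2 * (r / 4) + 1) ^ d ≤ (bx (r / 4) b).card := card_bx (by omega) b
  have h2 : (r : ℝ) ≤ 4 * ((2 * (r / 4) + 1 : ℕ) : ℝ) := by
    have : r ≤ 4 * (2 * (r / 4) + 1) := by omega
    exact_mod_cast this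
  calc (r : ℝ) ^ d ≤ (4 * ((2 * (r / 4) + 1 : ℕ) : ℝ)) ^ d := pow_le_pow_left₀ (by positivity) h2 d
    _ = 4 ^ d * (((2 * (r / 4) + 1) ^ d : ℕ) : ℝ) := by rw [mul_pow]; push_cast; ring
    _ ≤ _ := by
      refine mul_le_mul_of_nonneg_left ?_ (by positivity)
      exact_mod_cast h1

lemma bx_pos {d L : ℕ} [NeZero L] (s : ℕ) (b : Fin d → ZMod L) : 0 < ((bx s b).card : ℝ) := by
  have : 0 < (bx s b).card := Finset.card_pos.2 ⟨b, (mem_bx _ _ _).2 (near_self _ _)⟩
  exact_mod_cast this

/-- The uniform law on a box. -/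
noncomputable def ub {d L : ℕ} [NeZero L] (s : ℕ) (b : Fin d → ZMod L) : (Fin d → ZMod L) → ℝ :=
  fun v => if near s v b then 1 / ((bx s b).card : ℝ) else 0

lemma ub_nonneg {d L : ℕ} [NeZero L] (s : ℕ) (b v : Fin d → ZMod L) : 0 ≤ ub s b v := by
  unfold ub; split_ifs <;> positivity

lemma ub_le {d L : ℕ} [NeZero L] (s : ℕ) (b v : Fin d → ZMod L) :
    ub s b v ≤ 1 / ((bx s b).card : ℝ) := by
  unfold ub; split_ifs
  · exact le_rfl
  · positivity

lemma ub_mean {d L : ℕ} [NeZero L] (s : ℕ) (b : Fin d → ZMod L) (f : (Fin d → ZMod L) → ℝ) :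
    ∑ v, ub s b v * f v = (∑ v ∈ bx s b, f v) / ((bx s b).card : ℝ) := by
  unfold ub bx
  rw [Finset.sum_filter, Finset.sum_div]
  refine Finset.sum_congr rfl fun v _ => ?_
  split_ifs
  · ring
  · simp

lemma ub_sum {d L : ℕ} [NeZero L] (s : ℕ) (b : Fin d → ZMod L) : ∑ v, ub s b v = 1 := by
  have h := ub_mean s b (fun _ => 1)
  simp only [mul_one, sum_const, nsmul_eq_mul] at h
  rw [h, div_self (bx_pos s b).ne']

lemma ub_ne {d L : ℕ} [NeZero L] {s : ℕ} {b v : Fin d → ZMod L} (h : ub s b v ≠ 0) :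
    near s v b := by
  by_contra hn
  exact h (by unfold ub; rw [if_neg hn])

end Pool.Agent.Stirring.RS
end

section

/-! Block (3): square sums, and the link with the kernels `kr` of `PL/Env.lean`. -/

set_option autoImplicit false
set_option linter.unusedSectionVars false

open Finset

namespace Pool.Agent.Stirring.RS

variable {V : Type} [Fintype V] [DecidableEq V]

section sq
variable (T : ℕ → Equiv.Perm V) (w : ℕ → V → Option V)

/-- Forward form: steps that arrive in a window. -/
lemma sqS_arr (u : V → ℝ) (hu : ∀ v, 0 ≤ u v) (n : ℕ) (b Kw : ℝ) (hb0 : 0 ≤ b)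
    (hb : ∀ m, m < n → ∀ v, w (m + 1) v ≠ none → fwd T w u (m + 1) v ≤ b)
    (hK : ∑ m ∈ range n, ∑ v, (if w (m + 1) v = none then 0 else fwd T w u (m + 1) v) ≤ Kw) :
    sqS T w (fun m v => w (m + 1) (T m v) ≠ none) u n ≤ ∑ v, u v ^ 2 + b * Kw := by
  have key : ∀ m, m < n → ∑ v, (if w (m + 1) (T m v) ≠ none then (fwd T w u m v) ^ 2 else 0) ≤
      ∑ v, (fwd T w u m v) ^ 2 - ∑ v, (fwd T w u (m + 1) v) ^ 2 +
        b * ∑ v, (if w (m + 1) v = none then 0 else fwd T w u (m + 1) v) := by
    intro m hm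
    have e1 : ∑ v, (fwd T w u (m + 1) v) ^ 2 = ∑ v, (fwd T w u (m + 1) (T m v)) ^ 2 :=
      (Equiv.sum_comp (T m) (fun v => (fwd T w u (m + 1) v) ^ 2)).symm
    have e2 : ∑ v, (if w (m + 1) v = none then 0 else fwd T w u (m + 1) v) =
        ∑ v, (if w (m + 1) (T m v) = none then 0 else fwd T w u (m + 1) (T m v)) :=
      (Equiv.sum_comp (T m) (fun v => if w (m + 1) v = none then 0 else fwd T w u (m + 1) v)).symm
    rw [e1, e2, Finset.mul_sum, ← Finset.sum_sub_distrib, ← Finset.sum_add_distrib]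
    refine Finset.sum_le_sum fun v _ => ?_
    by_cases h : w (m + 1) (T m v) = none
    · have h2 : fwd T w u (m + 1) (T m v) = fwd T w u m v := by
        show av (w (m + 1)) (fun v => fwd T w u m ((T m).symm v)) (T m v) = _
        rw [av, if_pos h, Equiv.symm_apply_apply]
      simp [h, h2]
    · have h3 := hb m hm (T m v) h
      have h4 := fwd_nonneg T w hu (m + 1) (T m v)
      simp only [ne_eq, h, not_false_eq_true, if_true, if_false]
      nlinarith
  unfold sqS
  refine (Finset.sum_le_sum fun m hm => key m (Finset.mem_range.1 hm)).trans ?_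
  rw [Finset.sum_add_distrib, ← Finset.mul_sum,
    Finset.sum_range_sub' (fun m => ∑ v, (fwd T w u m v) ^ 2) n]
  have h5 : 0 ≤ ∑ v, (fwd T w u n v) ^ 2 := Finset.sum_nonneg fun _ _ => sq_nonneg _
  have h6 := mul_le_mul_of_nonneg_left hK hb0
  have h7 : ∑ v, (fwd T w u 0 v) ^ 2 = ∑ v, u v ^ 2 := rfl
  rw [h7]
  linarith

/-- Backward form: steps that leave from a window. -/
lemma sqS_dep (u : V → ℝ) (hu : ∀ v, 0 ≤ u v) (n : ℕ) (b Kw : ℝ) (hb0 : 0 ≤ b)
    (hb : ∀ m, m < n → ∀ v, w (m + 1) v ≠ none → fwd T w u (m + 1) v ≤ b)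
    (hK : ∑ m ∈ range n, ∑ v, (if w (m + 1) v = none then 0 else fwd T w u (m + 1) v) ≤ Kw) :
    sqS T w (fun m v => w m v ≠ none) u n ≤ ∑ v, u v ^ 2 + b * Kw := by
  have hpos : 0 ≤ ∑ m ∈ range n, ∑ v, (if w (m + 1) v = none then 0 else fwd T w u (m + 1) v) := by
    refine Finset.sum_nonneg fun m _ => Finset.sum_nonneg fun v _ => ?_
    split_ifs
    · exact le_rfl
    · exact fwd_nonneg T w hu _ _
  have hu2 : 0 ≤ ∑ v, u v ^ 2 := Finset.sum_nonneg fun _ _ => sq_nonneg _
  unfold sqS
  rcases n with _ | n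
  · simp only [range_zero, sum_empty]
    simp only [range_zero, sum_empty] at hK
    have := mul_nonneg hb0 hK
    linarith
  rw [Finset.sum_range_succ']
  have h0 : ∑ v, (if w 0 v ≠ none then (fwd T w u 0 v) ^ 2 else 0) ≤ ∑ v, u v ^ 2 := by
    refine Finset.sum_le_sum fun v _ => ?_
    split_ifs
    · exact le_rfl
    · exact sq_nonneg _
  have h1 : ∑ m ∈ range n, ∑ v, (if w (m + 1) v ≠ none then (fwd T w u (m + 1) v) ^ 2 else 0) ≤
      b * ∑ m ∈ range n, ∑ v, (if w (m + 1) v = none then 0 else fwd T w u (m + 1) v) := by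
    rw [Finset.mul_sum]
    refine Finset.sum_le_sum fun m hm => ?_
    rw [Finset.mul_sum]
    refine Finset.sum_le_sum fun v _ => ?_
    by_cases h : w (m + 1) v = none
    · simp [h]
    · have h3 := hb m ((Finset.mem_range.1 hm).trans (Nat.lt_succ_self n)) v h
      have h4 := fwd_nonneg T w hu (m + 1) v
      simp only [ne_eq, h, not_false_eq_true, if_true, if_false]
      nlinarith
  have h2 : ∑ m ∈ range n, ∑ v, (if w (m + 1) v = none then 0 else fwd T w u (m + 1) v) ≤ Kw := by
    refine le_trans ?_ hK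
    rw [Finset.sum_range_succ]
    refine le_add_of_nonneg_right (Finset.sum_nonneg fun v _ => ?_)
    split_ifs
    · exact le_rfl
    · exact fwd_nonneg T w hu _ _
  have h3 := mul_le_mul_of_nonneg_left h2 hb0
  linarith

end sq

/-! Link with `kr`. -/

section link
variable (S : ℕ → Equiv.Perm V) (w : ℕ → V → Option V)

lemma kr_eq (i k : ℕ) (u : V → ℝ) :
    PL.kr S w i k u = fwd (fun m => S (i + m)) (fun m => w (i + m)) u k := by
  induction k with
  | zero => rfl
  | succ k ih =>
    show PL.avgW (w (i + k + 1)) (fun v => PL.kr S w i k u ((S (i + k))⁻¹ v)) = _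
    rw [ih]
    rfl

lemma kr_eq0 (k : ℕ) (u : V → ℝ) : PL.kr S w 0 k u = fwd S w u k := by
  rw [kr_eq]
  simp only [Nat.zero_add]

lemma kr_lin (i k : ℕ) (s : Finset V) (a : V → ℝ) (f : V → V → ℝ) (v : V) :
    PL.kr S w i k (fun x => ∑ j ∈ s, a j * f j x) v = ∑ j ∈ s, a j * PL.kr S w i k (f j) v := by
  simp only [kr_eq]
  exact fwd_lin _ _ s a f k v

lemma kr_nn (i k : ℕ) {u : V → ℝ} (hu : ∀ v, 0 ≤ u v) (v : V) : 0 ≤ PL.kr S w i k u v := by
  rw [kr_eq]
  exact fwd_nonneg _ _ hu k v

/-- Peel off the first step. -/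
lemma kr_peel (i k : ℕ) (u : V → ℝ) :
    PL.kr S w i (k + 1) u = PL.kr S w (i + 1) k (PL.kr S w i 1 u) := by
  induction k with
  | zero => rfl
  | succ k ih =>
    show PL.avgW (w (i + (k + 1) + 1)) (fun v => PL.kr S w i (k + 1) u ((S (i + (k + 1)))⁻¹ v)) =
      PL.avgW (w (i + 1 + k + 1)) (fun v => PL.kr S w (i + 1) k (PL.kr S w i 1 u)
        ((S (i + 1 + k))⁻¹ v))
    rw [ih]
    have e : i + (k + 1) = i + 1 + k := by omega
    rw [e]

/-- The uniform law on the window `x` of level `i`. -/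
noncomputable def uw (i : ℕ) (x : V) (N : ℕ) : V → ℝ := fun v => if w i v = some x then 1 / (N : ℝ) else 0

lemma uw_nonneg (i : ℕ) (x : V) (N : ℕ) (v : V) : 0 ≤ uw w i x N v := by
  unfold uw; split_ifs <;> positivity

lemma uw_eq (i : ℕ) (x : V) (N : ℕ) :
    uw w i x N = fun v' => ∑ v ∈ PL.win w i x, (1 / (N : ℝ)) * (Pi.single v (1 : ℝ) : V → ℝ) v' := by
  funext v'
  rw [← Finset.mul_sum]
  unfold uw PL.win
  by_cases h : w i v' = some x
  · rw [if_pos h]
    have : ∑ v ∈ univ.filter (fun v => w i v = some x), (Pi.single v (1 : ℝ) : V → ℝ) v' = 1 := by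
      rw [Finset.sum_eq_single v']
      · simp
      · intro b _ hb
        simp [Pi.single_apply, hb.symm]
      · intro hn; exact absurd (by simp [h]) hn
    rw [this, mul_one]
  · rw [if_neg h]
    have : ∑ v ∈ univ.filter (fun v => w i v = some x), (Pi.single v (1 : ℝ) : V → ℝ) v' = 0 := by
      refine Finset.sum_eq_zero fun b hb => ?_
      have hb' := (Finset.mem_filter.1 hb).2
      have : v' ≠ b := by rintro rfl; exact h hb'
      simp [Pi.single_apply, this]
    rw [this, mul_zero]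

/-- Evolution of the uniform law on a window. -/
lemma kr_uw (i k : ℕ) (x : V) (N : ℕ) (v' : V) :
    PL.kr S w i k (uw w i x N) v' =
      (∑ v ∈ PL.win w i x, PL.kr S w i k (Pi.single v 1) v') / N := by
  rw [uw_eq, kr_lin S w i k _ (fun _ => 1 / (N : ℝ)) (fun v => (Pi.single v (1 : ℝ) : V → ℝ)),
    ← Finset.mul_sum]
  ring

lemma wm_eq (i k : ℕ) (x y : V) (N : ℕ) :
    PL.wm S w N i x (i + k) y = ∑ v' ∈ PL.win w (i + k) y, PL.kr S w i k (uw w i x N) v' := by
  unfold PL.wm
  have : i + k - i = k := by omega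
  rw [this, Finset.sum_comm, Finset.sum_div]
  refine Finset.sum_congr rfl fun v' _ => ?_
  rw [kr_uw]

/-- Sum over all windows. -/
lemma sum_win (c : V → Option V) (f : V → ℝ) :
    ∑ v, (if c v = none then 0 else f v) = ∑ y, ∑ v ∈ univ.filter (fun v => c v = some y), f v := by
  have : ∀ y : V, ∑ v ∈ univ.filter (fun v => c v = some y), f v =
      ∑ v, if c v = some y then f v else 0 := fun y => Finset.sum_filter _ _
  simp_rw [this]
  rw [Finset.sum_comm]
  refine Finset.sum_congr rfl fun v _ => ?_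
  rcases h : c v with _ | y
  · simp
  · simp

end link

end Pool.Agent.Stirring.RS
end

section

/-! Block (3): from a node to a box (forward), `node_fwd`. -/

set_option autoImplicit false
set_option linter.unusedSectionVars false

open Finset

namespace Pool.Agent.Stirring.RS

open PL

section gen
variable {V : Type} [Fintype V] [DecidableEq V]

lemma av_sum_cls (c : V → Option V) (f : V → ℝ) {v : V} (h : c v ≠ none) :
    ∑ x ∈ cls c v, av c f x = ((cls c v).card : ℝ) * av c f v := by
  have : ∀ x ∈ cls c v, av c f x = av c f v := by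
    intro x hx
    have hx' := (mem_cls c v x).1 hx
    unfold av
    rw [if_neg h, if_neg (by rw [hx']; exact h), cls_eq c hx']
  rw [Finset.sum_congr rfl this, Finset.sum_const, nsmul_eq_mul]

/-- Lower bound of an average. -/
lemma le_av (c : V → Option V) (f : V → ℝ) (k : ℝ) (v : V)
    (h : ∀ x, (x = v ∨ (c x = c v ∧ c v ≠ none)) → k ≤ f x) : k ≤ av c f v := by
  unfold av
  split_ifs with h1
  · exact h v (Or.inl rfl)
  · rw [le_div_iff₀ (cls_pos c v), mul_comm, ← nsmul_eq_mul, ← Finset.sum_const]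
    refine Finset.sum_le_sum fun x hx => ?_
    exact h x (Or.inr ⟨(mem_cls c v x).1 hx, h1⟩)

lemma win_eq_cls (w : ℕ → V → Option V) (j : ℕ) {v y : V} (h : w j v = some y) :
    win w j y = cls (w j) v := by
  unfold win cls
  rw [h]

/-- `∑ u²` for the uniform law on a window. -/
lemma uw_sq (w : ℕ → V → Option V) (i : ℕ) (x : V) (N : ℕ) (hN : 1 ≤ N)
    (hc : (win w i x).card = N) : ∑ v, uw w i x N v ^ 2 = 1 / (N : ℝ) := by
  have h1 : ∀ v, uw w i x N v ^ 2 = if w i v = some x then (1 / (N : ℝ)) ^ 2 else 0 := by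
    intro v; unfold uw; split_ifs <;> simp
  simp_rw [h1]
  rw [← Finset.sum_filter, Finset.sum_const, nsmul_eq_mul]
  have h2 : ((univ.filter (fun v => w i v = some x)).card : ℝ) = N := by
    have : (univ.filter (fun v => w i v = some x)).card = N := hc
    exact_mod_cast this
  rw [h2]
  have : (N : ℝ) ≠ 0 := by positivity
  field_simp

lemma uw_sum (w : ℕ → V → Option V) (i : ℕ) (x : V) (N : ℕ) (hN : 1 ≤ N)
    (hc : (win w i x).card = N) : ∑ v, uw w i x N v = 1 := by
  unfold uw
  rw [← Finset.sum_filter, Finset.sum_const, nsmul_eq_mul]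
  have h2 : ((univ.filter (fun v => w i v = some x)).card : ℝ) = N := by
    have : (univ.filter (fun v => w i v = some x)).card = N := hc
    exact_mod_cast this
  rw [h2]
  have : (N : ℝ) ≠ 0 := by positivity
  field_simp

/-- Value of the evolved law on a window, from its mass. -/
lemma fwd_win {T : ℕ → Equiv.Perm V} {w : ℕ → V → Option V} (u : V → ℝ) (m : ℕ) (N : ℕ)
    (hN : 1 ≤ N) {v y : V} (h : w (m + 1) v = some y) (hc : (win w (m + 1) y).card = N) (a : ℝ)
    (hm : ∑ v' ∈ win w (m + 1) y, fwd T w u (m + 1) v' ≤ a) :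
    fwd T w u (m + 1) v ≤ a / N := by
  have hne : w (m + 1) v ≠ none := by rw [h]; simp
  have h1 : ∑ v' ∈ win w (m + 1) y, fwd T w u (m + 1) v' = (N : ℝ) * fwd T w u (m + 1) v := by
    rw [win_eq_cls w (m + 1) h]
    have h2 := av_sum_cls (w (m + 1)) (fun v => fwd T w u m ((T m).symm v)) hne
    have h3 : ((cls (w (m + 1)) v).card : ℝ) = N := by
      rw [← win_eq_cls w (m + 1) h, hc]
    rw [h3] at h2
    exact h2
  have hN' : (0 : ℝ) < N := by positivity
  rw [le_div_iff₀ hN', mul_comm, ← h1]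
  exact hm

end gen

theorem node_fwd (d : ℕ) (c1 : ℝ) (hc1 : 0 < c1)
    (L : ℕ) [NeZero L] (S : ℕ → Equiv.Perm (Fin d → ZMod L))
      (w : ℕ → (Fin d → ZMod L) → Option (Fin d → ZMod L)) (J N r : ℕ) (M Kw : ℝ)
    (hN : 1 ≤ N) (hr : 8 ≤ r) (hL : 2 * r ≤ L) (hM : 0 ≤ M) (hE : GoodEnv S w J N r c1 M Kw)
    (hMK : M * Kw ≤ N)
    (F : ℕ → (Fin d → ZMod L) → ℝ)
    (hF : ∀ j ≤ J, ∀ v v', w j v ≠ none → w j v = w j v' → F j v = F j v')
    (hF' : ∀ j < J, ∀ v, w (j + 1) (S j v) = none → F (j + 1) (S j v) = F j v)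
    (i : ℕ) (x v b : Fin d → ZMod L) (hi : 2 * i ≤ J) (hv : v ∈ win w i x)
    (hb : near (r / 4) v b) :
      (F i v - (∑ v' ∈ bx (r / 4) b, F J v') / (bx (r / 4) b).card) ^ 2
        ≤ (2 * (4 ^ d / c1) ^ 2) / N * ∑ j ∈ range J, ∑ v', (F (j + 1) (S j v') - F j v') ^ 2 := by
  set n := J - i with hn
  have hJ : i + n = J := by omega
  set T : ℕ → Equiv.Perm (Fin d → ZMod L) := fun m => S (i + m) with hT
  set w' : ℕ → (Fin d → ZMod L) → Option (Fin d → ZMod L) := fun m => w (i + m) with hw'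
  set G : ℕ → (Fin d → ZMod L) → ℝ := fun m => F (i + m) with hG
  have hNr : (0 : ℝ) < N := by positivity
  have hrr : (0 : ℝ) < (r : ℝ) ^ d := by positivity
  have hxi : w i v = some x := (Finset.mem_filter.1 hv).2
  have hcard : (win w i x).card = N := hE.card i (by omega) x ⟨v, hv⟩
  have hCon : Con w' G n := by
    intro m hm a a' h1 h2
    exact hF (i + (m + 1)) (by omega) a a' h2 h1
  have hP : ∀ m, m < n → ∀ a, ¬ (w' (m + 1) (T m a) ≠ none) → jmp T G m a = 0 := by
    intro m hm a h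
    have h' : w (i + m + 1) (S (i + m) a) = none := by
      by_contra h0; exact h h0
    have := hF' (i + m) (by omega) a h'
    show F (i + m) a - F (i + (m + 1)) (S (i + m) a) = 0
    rw [show i + (m + 1) = i + m + 1 by omega, this]
    ring
  have hBpos := bx_pos (r / 4) b
  have hlow : ∀ v', ub (r / 4) b v' ≠ 0 → c1 / (r : ℝ) ^ d ≤ fwd T w' (uw w i x N) n v' := by
    intro v' h
    have h1 := ub_ne h
    rw [← kr_eq S w i n (uw w i x N), kr_uw, le_div_iff₀ hNr]
    have h2 : ∀ a ∈ win w i x, c1 / (r : ℝ) ^ d ≤ kr S w i n (Pi.single a 1) v' := by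
      intro a ha
      refine hE.low i n (by omega) (by omega) a v' ?_
      have h3 : near (r / 4) a v := hE.diam i (by omega) x a ha v hv
      exact near_mono (by omega) (near_trans (near_trans h3 hb) (near_symm h1))
    calc c1 / (r : ℝ) ^ d * N = ∑ a ∈ win w i x, c1 / (r : ℝ) ^ d := by
          rw [Finset.sum_const, hcard, nsmul_eq_mul, mul_comm]
      _ ≤ _ := Finset.sum_le_sum h2
  have hg : ∀ a, uw w i x N a ≠ 0 → G 0 a = F i v := by
    intro a ha
    have h1 : w i a = some x := by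
      by_contra h0
      exact ha (by unfold uw; rw [if_neg h0])
    show F (i + 0) a = F i v
    rw [Nat.add_zero]
    exact hF i (by omega) a v (by rw [h1]; simp) (by rw [h1, hxi])
  have main := node_to T w' (G := G) (n := n) hCon (fun m a => w' (m + 1) (T m a) ≠ none) hP
    (uw w i x N) (ub (r / 4) b) (uw_nonneg w i x N) (ub_nonneg _ _) (ub_sum _ _) (F i v)
    (1 / ((bx (r / 4) b).card : ℝ)) (c1 / (r : ℝ) ^ d) (by positivity) (by positivity)
    (ub_le _ _) hlow hg
  rw [ub_mean] at main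
  have hGn : G n = F J := by show F (i + n) = F J; rw [hJ]
  rw [hGn] at main
  -- the square sum
  have hmass : ∀ m, m < n → ∀ y, ∑ v' ∈ win w' (m + 1) y, fwd T w' (uw w i x N) (m + 1) v' =
      wm S w N i x (i + (m + 1)) y := by
    intro m hm y
    rw [wm_eq]
    refine Finset.sum_congr rfl fun v' _ => ?_
    rw [kr_eq]
  have hsq : sqS T w' (fun m a => w' (m + 1) (T m a) ≠ none) (uw w i x N) n ≤ 2 / (N : ℝ) := by
    have h1 := sqS_arr T w' (uw w i x N) (uw_nonneg w i x N) n (M / N / N) Kw (by positivity)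
      (by
        intro m hm a ha
        obtain ⟨y, hy⟩ := Option.ne_none_iff_exists'.1 ha
        refine fwd_win (T := T) (w := w') (uw w i x N) m N hN hy ?_ _ ?_
        · exact hE.card (i + (m + 1)) (by omega) y
            ⟨a, Finset.mem_filter.2 ⟨mem_univ _, hy⟩⟩
        · rw [hmass m hm y]
          exact hE.mass i (i + (m + 1)) (by omega) (by omega) x y)
      (by
        have h2 : ∀ m ∈ range n, ∑ a, (if w' (m + 1) a = none then 0
            else fwd T w' (uw w i x N) (m + 1) a) = ∑ y, wm S w N i x (i + (m + 1)) y := by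
          intro m hm
          rw [sum_win]
          refine Finset.sum_congr rfl fun y _ => ?_
          rw [← hmass m (Finset.mem_range.1 hm) y]
          rfl
        rw [Finset.sum_congr rfl h2]
        refine le_trans (le_of_eq ?_) (hE.num i (by omega) x)
        have h3 : Ioc i J = Ico (i + 1) (J + 1) := by
          ext a; simp only [Finset.mem_Ioc, Finset.mem_Ico]; omega
        rw [h3, Finset.sum_Ico_eq_sum_range]
        have h4 : J + 1 - (i + 1) = n := by omega
        rw [h4]
        refine Finset.sum_congr rfl fun m _ => ?_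
        rw [show i + (m + 1) = i + 1 + m by omega])
    rw [uw_sq w i x N hN hcard] at h1
    refine h1.trans ?_
    have h5 : M / N / N * Kw ≤ 1 / (N : ℝ) := by
      have : M / N / N * Kw = (M * Kw) / (N * N) := by field_simp
      rw [this, div_le_div_iff₀ (by positivity) hNr]
      nlinarith
    have : (2 : ℝ) / N = 1 / N + 1 / N := by ring
    rw [this]
    linarith
  have hEJ : EJ T G n ≤ ∑ j ∈ range J, ∑ v', (F (j + 1) (S j v') - F j v') ^ 2 := by
    have h1 : ∑ j ∈ range J, ∑ v', (F (j + 1) (S j v') - F j v') ^ 2 =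
        ∑ j ∈ range i, ∑ v', (F (j + 1) (S j v') - F j v') ^ 2 +
        ∑ j ∈ range n, ∑ v', (F (i + j + 1) (S (i + j) v') - F (i + j) v') ^ 2 := by
      rw [← hJ, Finset.sum_range_add]
    rw [h1]
    have h2 : 0 ≤ ∑ j ∈ range i, ∑ v', (F (j + 1) (S j v') - F j v') ^ 2 :=
      Finset.sum_nonneg fun _ _ => Finset.sum_nonneg fun _ _ => sq_nonneg _
    have h3 : EJ T G n = ∑ j ∈ range n, ∑ v', (F (i + j + 1) (S (i + j) v') - F (i + j) v') ^ 2 := by
      unfold EJ
      refine Finset.sum_congr rfl fun m _ => Finset.sum_congr rfl fun a _ => ?_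
      show (F (i + m) a - F (i + (m + 1)) (S (i + m) a)) ^ 2 = _
      rw [show i + (m + 1) = i + m + 1 by omega]
      ring
    linarith
  have hratio : (1 / ((bx (r / 4) b).card : ℝ)) / (c1 / (r : ℝ) ^ d) ≤ 4 ^ d / c1 := by
    have h1 := card_bx_quarter hr hL b
    rw [div_div_eq_mul_div, div_mul_eq_mul_div, one_mul, div_div, div_le_div_iff₀ (by positivity) hc1]
    nlinarith
  have hratio0 : 0 ≤ (1 / ((bx (r / 4) b).card : ℝ)) / (c1 / (r : ℝ) ^ d) := by positivity
  have hEJ0 := EJ_nonneg T G n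
  calc _ ≤ _ := main
    _ ≤ (4 ^ d / c1) ^ 2 * (2 / N) * ∑ j ∈ range J, ∑ v', (F (j + 1) (S j v') - F j v') ^ 2 := by
        have h1 : ((1 / ((bx (r / 4) b).card : ℝ)) / (c1 / (r : ℝ) ^ d)) ^ 2 ≤ (4 ^ d / c1) ^ 2 :=
          pow_le_pow_left₀ hratio0 hratio 2
        have h2 : 0 ≤ sqS T w' (fun m a => w' (m + 1) (T m a) ≠ none) (uw w i x N) n := by
          unfold sqS
          refine Finset.sum_nonneg fun _ _ => Finset.sum_nonneg fun _ _ => ?_
          split_ifs
          · exact sq_nonneg _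
          · exact le_rfl
        refine mul_le_mul (mul_le_mul h1 hsq h2 (by positivity)) hEJ hEJ0 (by positivity)
    _ = _ := by ring

end Pool.Agent.Stirring.RS
end
end

section

/-! ROW G: from the conditions on the list of slabs to the predicate `GoodEnv` of block (3). -/

open Finset

set_option linter.unusedSectionVars false

namespace Pool.Agent.Stirring.QK

variable {d L : ℕ} [NeZero L] {Ω : Type*} [Fintype Ω]

/-- The permutation from level `j` to level `j + 1`: the particle at `v` moves to `(T a)⁻¹ v`. -/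
noncomputable def envS (S : Slab (Fin d → ZMod L) Ω) (l : List Ω) (j : ℕ) :
    Equiv.Perm (Fin d → ZMod L) :=
  match l[j]? with
  | some a => (S.T a)⁻¹
  | none => 1

/-- The colouring of a set of windows. -/
noncomputable def col (Q G : Finset (Fin d → ZMod L)) (z : Fin d → ZMod L) :
    Option (Fin d → ZMod L) :=
  open Classical in if h : ∃ q ∈ G, z - q ∈ Q then some h.choose else none

/-- The windows: the marked ones at level `0`, the good ones of slab `j` at level `j + 1`. -/
noncomputable def envW (S : Slab (Fin d → ZMod L) Ω) (Q K₀ : Finset (Fin d → ZMod L))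
    (l : List Ω) : ℕ → (Fin d → ZMod L) → Option (Fin d → ZMod L)
  | 0 => col Q K₀
  | j + 1 =>
    match l[j]? with
    | some a => col Q (S.good a)
    | none => fun _ => none

variable {S : Slab (Fin d → ZMod L) Ω} {Λ K₀ : Finset (Fin d → ZMod L)}
variable {h δ lam ρ Kw Mm : ℝ} {Jg t0 b : ℕ}

/-! ### Colourings -/

theorem g7_col_some {Q G : Finset (Fin d → ZMod L)} (hG : Dis Q G) {z q : Fin d → ZMod L} :
    col Q G z = some q ↔ q ∈ G ∧ z - q ∈ Q := by
  classical
  unfold col
  constructor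
  · intro h
    split_ifs at h with h1
    have h2 := h1.choose_spec
    have h3 : h1.choose = q := Option.some.inj h
    rw [h3] at h2
    exact h2
  · rintro ⟨h1, h2⟩
    have h3 : ∃ q ∈ G, z - q ∈ Q := ⟨q, h1, h2⟩
    rw [dif_pos h3]
    congr 1
    exact hG _ h3.choose_spec.1 _ h1 z h3.choose_spec.2 h2

theorem g7_col_none {Q G : Finset (Fin d → ZMod L)} {z : Fin d → ZMod L} (h : ¬ InWin Q G z) :
    col Q G z = none := by
  classical
  unfold col
  exact dif_neg h

theorem g7_filter {Q G : Finset (Fin d → ZMod L)} (hG : Dis Q G) {q : Fin d → ZMod L}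
    (hq : q ∈ G) : (univ.filter fun v => col Q G v = some q) = Q.image (q + ·) := by
  ext v
  rw [mem_filter, mem_image]
  constructor
  · rintro ⟨-, h⟩
    exact ⟨v - q, ((g7_col_some hG).1 h).2, by abel⟩
  · rintro ⟨y, hy, rfl⟩
    refine ⟨mem_univ _, (g7_col_some hG).2 ⟨hq, ?_⟩⟩
    rw [add_sub_cancel_left]
    exact hy

theorem g7_filter_none {Q G : Finset (Fin d → ZMod L)} (hG : Dis Q G) {q : Fin d → ZMod L}
    (hq : q ∉ G) : (univ.filter fun v => col Q G v = some q) = ∅ := by
  rw [Finset.filter_eq_empty_iff]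
  intro v _ h
  exact hq ((g7_col_some hG).1 h).1

theorem g7_sum {Q G : Finset (Fin d → ZMod L)} (hG : Dis Q G) {q : Fin d → ZMod L}
    (hq : q ∈ G) (f : (Fin d → ZMod L) → ℝ) :
    ∑ v ∈ univ.filter (fun v => col Q G v = some q), f v = ∑ y ∈ Q, f (q + y) := by
  rw [g7_filter hG hq, sum_image fun a _ b _ h => add_left_cancel h]

theorem g7_card {Q G : Finset (Fin d → ZMod L)} (hG : Dis Q G) {q : Fin d → ZMod L}
    (hq : q ∈ G) : (univ.filter fun v => col Q G v = some q).card = Q.card := by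
  rw [g7_filter hG hq, card_image_of_injective _ (add_right_injective q)]

theorem g7_avgW {Q G : Finset (Fin d → ZMod L)} (hG : Dis Q G) (u : (Fin d → ZMod L) → ℝ) :
    Pool.Agent.PL.avgW (col Q G) u = avg Q G u := by
  funext z
  unfold Pool.Agent.PL.avgW
  by_cases h : InWin Q G z
  · obtain ⟨q, hq, hz⟩ := h
    have h1 := (g7_col_some hG).2 ⟨hq, hz⟩
    rw [h1, if_neg (by simp), avg_in hG u hq hz, g7_sum hG hq, g7_card hG hq]
  · rw [if_pos (g7_col_none h), avg_out u h]

/-- Sum over all windows. -/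
theorem g7_sum_all {Q G : Finset (Fin d → ZMod L)} (hG : Dis Q G)
    (f : (Fin d → ZMod L) → ℝ) :
    ∑ x, ∑ v ∈ univ.filter (fun v => col Q G v = some x), f v =
      ∑ v, if InWin Q G v then f v else 0 := by
  simp only [sum_filter]
  rw [sum_comm]
  refine sum_congr rfl fun v _ => ?_
  by_cases h : InWin Q G v
  · obtain ⟨q, hq, hz⟩ := h
    have h1 := (g7_col_some hG).2 ⟨hq, hz⟩
    rw [if_pos ⟨q, hq, hz⟩, h1, sum_eq_single q]
    · rw [if_pos rfl]
    · intro x _ hx
      rw [if_neg]
      intro h2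
      exact hx (Option.some.inj h2).symm
    · intro h2
      exact absurd (mem_univ _) h2
  · rw [if_neg h, g7_col_none h]
    refine sum_eq_zero fun x _ => ?_
    rw [if_neg (by simp)]

/-- The set of the windows of level `j`. -/
noncomputable def lev (S : Slab (Fin d → ZMod L) Ω) (K₀ : Finset (Fin d → ZMod L))
    (l : List Ω) : ℕ → Finset (Fin d → ZMod L)
  | 0 => K₀
  | j + 1 =>
    match l[j]? with
    | some a => S.good a
    | none => ∅

theorem g7_lev_succ {l : List Ω} {j : ℕ} {a : Ω} (h : l[j]? = some a) :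
    lev S K₀ l (j + 1) = S.good a := by
  show (match l[j]? with
    | some a => S.good a
    | none => ∅) = _
  rw [h]

theorem g7_lev_none {l : List Ω} {j : ℕ} (h : l[j]? = none) :
    lev S K₀ l (j + 1) = ∅ := by
  show (match l[j]? with
    | some a => S.good a
    | none => ∅) = _
  rw [h]

theorem g7_envW (Q : Finset (Fin d → ZMod L)) (l : List Ω) (j : ℕ) :
    envW S Q K₀ l j = col Q (lev S K₀ l j) := by
  cases j with
  | zero => rfl
  | succ j =>
    show (match l[j]? with
      | some a => col Q (S.good a)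
      | none => fun _ => none) = _
    rcases h : l[j]? with _ | a
    · rw [g7_lev_none h]
      funext z
      rw [g7_col_none]
      rintro ⟨q, hq, -⟩
      exact absurd hq (Finset.notMem_empty q)
    · rw [g7_lev_succ h]

theorem g7_lev_dis {Q : Finset (Fin d → ZMod L)} (hD : AllDis S Q) (hK₀ : Dis Q K₀)
    (l : List Ω) (j : ℕ) : Dis Q (lev S K₀ l j) := by
  cases j with
  | zero => exact hK₀
  | succ j =>
    rcases h : l[j]? with _ | a
    · rw [g7_lev_none h]
      intro q hq
      exact absurd hq (Finset.notMem_empty q)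
    · rw [g7_lev_succ h]
      exact hD a

theorem g7_envS {l : List Ω} {j : ℕ} {a : Ω} (h : l[j]? = some a) :
    envS S l j = (S.T a)⁻¹ := by
  show (match l[j]? with
    | some a => (S.T a)⁻¹
    | none => 1) = _
  rw [h]

theorem g7_take_succ {l : List Ω} {i k : ℕ} {a : Ω} (h : l[i + k]? = some a) :
    (l.drop i).take (k + 1) = (l.drop i).take k ++ [a] := by
  rw [List.take_add_one, List.getElem?_drop, h]
  rfl

/-- The two descriptions of the annealed walk. -/
theorem kr_eq_fw (hD : AllDis S (box d L b)) (l : List Ω) (i k : ℕ) (hik : i + k ≤ l.length)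
    (u : (Fin d → ZMod L) → ℝ) :
    Pool.Agent.PL.kr (envS S l) (envW S (box d L b) K₀ l) i k u =
      fw S (box d L b) ((l.drop i).take k) u := by
  induction k with
  | zero =>
    rw [List.take_zero]
    rfl
  | succ k ih =>
    obtain ⟨a, ha⟩ : ∃ a, l[i + k]? = some a := ⟨l[i + k], List.getElem?_eq_getElem (by omega)⟩
    rw [g7_take_succ ha, fw_snoc, ← ih (by omega)]
    show Pool.Agent.PL.avgW _ _ = _
    have h1 : envW S (box d L b) K₀ l (i + k + 1) = col (box d L b) (S.good a) := by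
      rw [g7_envW, g7_lev_succ ha]
    rw [h1, g7_avgW (hD a), g7_envS ha]
    rfl

/-! ### Linearity -/

section Lin

variable {Q : Finset (Fin d → ZMod L)}

theorem g7_sum_dl (f : (Fin d → ZMod L) → ℝ) (x : Fin d → ZMod L) :
    ∑ z, f z * dl x z = f x := by
  unfold dl
  rw [Finset.sum_eq_single x]
  · simp
  · intro b _ hb
    simp [Pi.single_eq_of_ne hb]
  · intro h
    exact absurd (Finset.mem_univ _) h

theorem g7_dl_sum (f : (Fin d → ZMod L) → ℝ) (x : Fin d → ZMod L) :
    ∑ z, f z * dl z x = f x := by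
  rw [← g7_sum_dl f x]
  refine Finset.sum_congr rfl fun z _ => ?_
  congr 1
  unfold dl
  by_cases h : z = x
  · subst h
    rfl
  · rw [Pi.single_eq_of_ne h, Pi.single_eq_of_ne (Ne.symm h)]

theorem g7_fw_lin (l : List Ω) (u : (Fin d → ZMod L) → ℝ) (x : Fin d → ZMod L) :
    fw S Q l u x = ∑ v, u v * fw S Q l (dl v) x := by
  have h1 := fw_bw S Q l u (dl x)
  rw [g7_sum_dl] at h1
  rw [h1]
  refine Finset.sum_congr rfl fun v _ => ?_
  congr 1
  exact (fw_single S Q l v x).symm

theorem g7_bw_lin (l : List Ω) (u : (Fin d → ZMod L) → ℝ) (x : Fin d → ZMod L) :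
    bw S Q l u x = ∑ v, u v * bw S Q l (dl v) x := by
  have h1 := fw_bw S Q l (dl x) u
  have h2 : ∑ z, dl x z * bw S Q l u z = bw S Q l u x := by
    rw [← g7_sum_dl (bw S Q l u) x]
    exact Finset.sum_congr rfl fun z _ => mul_comm _ _
  rw [h2] at h1
  rw [← h1]
  refine Finset.sum_congr rfl fun v _ => ?_
  rw [mul_comm]
  congr 1
  exact fw_single S Q l x v

theorem g7_stp_lin (a : Ω) (u : (Fin d → ZMod L) → ℝ) (x : Fin d → ZMod L) :
    stp S Q a u x = ∑ v, u v * stp S Q a (dl v) x := g7_fw_lin [a] u x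

theorem g7_cnt_lin (l : List Ω) (u : (Fin d → ZMod L) → ℝ) :
    cnt S Q Λ l u = ∑ v, u v * cnt S Q Λ l (dl v) := by
  induction l generalizing u with
  | nil => simp [cnt]
  | cons a l ih =>
    simp only [cnt]
    rw [ih (stp S Q a u)]
    have h1 : ∀ v, u v * (∑ z, (if InWin Q (Λ.image (S.sh a + ·)) z then dl v (S.T a z) else 0) +
        cnt S Q Λ l (stp S Q a (dl v))) =
        u v * (∑ z, (if InWin Q (Λ.image (S.sh a + ·)) z then dl v (S.T a z) else 0)) +
        ∑ x, u v * (stp S Q a (dl v) x * cnt S Q Λ l (dl x)) := by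
      intro v
      rw [mul_add, ih (stp S Q a (dl v))]
      congr 1
      rw [Finset.mul_sum]
    simp only [h1]
    rw [Finset.sum_add_distrib]
    congr 1
    · simp only [Finset.mul_sum]
      rw [Finset.sum_comm]
      refine Finset.sum_congr rfl fun z _ => ?_
      split_ifs
      · exact (g7_dl_sum u (S.T a z)).symm
      · simp
    · rw [Finset.sum_comm]
      refine Finset.sum_congr rfl fun x _ => ?_
      rw [g7_stp_lin a u x, Finset.sum_mul]
      exact Finset.sum_congr rfl fun v _ => by ring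

theorem g7_bcnt_lin (l : List Ω) (u : (Fin d → ZMod L) → ℝ) :
    bcnt S Q Λ l u = ∑ v, u v * bcnt S Q Λ l (dl v) := by
  induction l with
  | nil => simp [bcnt]
  | cons a l ih =>
    simp only [bcnt]
    rw [ih]
    simp only [mul_add]
    rw [Finset.sum_add_distrib]
    congr 1
    simp only [Finset.mul_sum]
    rw [Finset.sum_comm]
    refine Finset.sum_congr rfl fun z _ => ?_
    split_ifs
    · exact g7_bw_lin l u z
    · simp

/-- the uniform mass on a window -/
theorem g7_cu_nonneg (q z : Fin d → ZMod L) : 0 ≤ cu Q q z := by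
  unfold cu
  split_ifs
  · positivity
  · exact le_rfl

theorem g7_cu_mul (q : Fin d → ZMod L) (f : (Fin d → ZMod L) → ℝ) :
    ∑ z, cu Q q z * f z = (∑ y ∈ Q, f (q + y)) / Q.card := by
  rw [← Equiv.sum_comp (Equiv.addLeft q)]
  unfold cu
  simp only [Equiv.coe_addLeft, add_sub_cancel_left, ite_mul, zero_mul]
  rw [Finset.sum_ite_mem, Finset.univ_inter, Finset.sum_div]
  exact Finset.sum_congr rfl fun y _ => by ring

theorem g7_cu_sum (hQ : Q.Nonempty) (q : Fin d → ZMod L) : ∑ z, cu Q q z = 1 := by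
  have h1 := g7_cu_mul (Q := Q) q (fun _ => 1)
  simp only [mul_one] at h1
  rw [h1, Finset.sum_const, nsmul_eq_mul, mul_one, div_self]
  have : 0 < Q.card := Finset.card_pos.2 hQ
  positivity

theorem g7_mean_le (hQ : Q.Nonempty) (q : Fin d → ZMod L) {f : (Fin d → ZMod L) → ℝ} {K : ℝ}
    (hf : ∀ z, f z ≤ K) : ∑ z, cu Q q z * f z ≤ K := by
  calc ∑ z, cu Q q z * f z ≤ ∑ z, cu Q q z * K :=
        Finset.sum_le_sum fun z _ => mul_le_mul_of_nonneg_left (hf z) (g7_cu_nonneg q z)
    _ = K := by rw [← Finset.sum_mul, g7_cu_sum hQ, one_mul]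

/-! ### The masses level by level -/

/-- mass in the good windows of the slab `k` of `B` (before the averaging) -/
noncomputable def g7F (S : Slab (Fin d → ZMod L) Ω) (Q : Finset (Fin d → ZMod L)) (B : List Ω)
    (u : (Fin d → ZMod L) → ℝ) (k : ℕ) : ℝ :=
  match B[k]? with
  | some a => ∑ z, if InWin Q (S.good a) z then fw S Q (B.take k) u (S.T a z) else 0
  | none => 0

noncomputable def g7B (S : Slab (Fin d → ZMod L) Ω) (Q : Finset (Fin d → ZMod L)) (B : List Ω)
    (u : (Fin d → ZMod L) → ℝ) (k : ℕ) : ℝ :=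
  match B[k]? with
  | some a => ∑ z, if InWin Q (S.good a) z then bw S Q (B.drop (k + 1)) u z else 0
  | none => 0

theorem g7_inWin_mono {G G' : Finset (Fin d → ZMod L)} (h : G ⊆ G') {z : Fin d → ZMod L}
    (hz : InWin Q G z) : InWin Q G' z := by
  obtain ⟨q, hq, h1⟩ := hz
  exact ⟨q, h hq, h1⟩

theorem g7_ite_mono {G G' : Finset (Fin d → ZMod L)} (h : G ⊆ G') (z : Fin d → ZMod L) {r : ℝ}
    (hr : 0 ≤ r) : (if InWin Q G z then r else 0) ≤ if InWin Q G' z then r else 0 := by
  by_cases h1 : InWin Q G z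
  · rw [if_pos h1, if_pos (g7_inWin_mono h h1)]
  · rw [if_neg h1]
    split_ifs
    · exact hr
    · exact le_rfl

theorem g7_sum_F (hD : AllDis S Q) (hsub : ∀ a, S.good a ⊆ Λ.image (S.sh a + ·)) (B : List Ω)
    {u : (Fin d → ZMod L) → ℝ} (hu : ∀ z, 0 ≤ u z) :
    ∑ k ∈ range B.length, g7F S Q B u k ≤ cnt S Q Λ B u := by
  induction B generalizing u with
  | nil => simp [cnt]
  | cons a B ih =>
    rw [List.length_cons, Finset.sum_range_succ', add_comm]
    simp only [cnt]
    refine add_le_add ?_ ?_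
    · show (∑ z, if InWin Q (S.good a) z then u (S.T a z) else 0) ≤ _
      exact Finset.sum_le_sum fun z _ => g7_ite_mono (hsub a) z (hu _)
    · refine le_trans (le_of_eq ?_) (ih fun z => stp_nonneg hD a hu z)
      refine Finset.sum_congr rfl fun k _ => ?_
      unfold g7F
      rw [List.getElem?_cons_succ]
      rfl

theorem g7_sum_B (hD : AllDis S Q) (hsub : ∀ a, S.good a ⊆ Λ.image (S.sh a + ·)) (B : List Ω)
    {u : (Fin d → ZMod L) → ℝ} (hu : ∀ z, 0 ≤ u z) :
    ∑ k ∈ range B.length, g7B S Q B u k ≤ bcnt S Q Λ B u := by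
  induction B with
  | nil => simp [bcnt]
  | cons a B ih =>
    rw [List.length_cons, Finset.sum_range_succ']
    simp only [bcnt]
    refine add_le_add ?_ ?_
    · refine le_trans (le_of_eq ?_) ih
      refine Finset.sum_congr rfl fun k _ => ?_
      unfold g7B
      rw [List.getElem?_cons_succ]
      rfl
    · show (∑ z, if InWin Q (S.good a) z then bw S Q B u z else 0) ≤ _
      exact Finset.sum_le_sum fun z _ => g7_ite_mono (hsub a) z (bw_nonneg hD B hu z)

/-- the averaging does not change the mass in the windows -/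
theorem g7_avg_in {G : Finset (Fin d → ZMod L)} (u : (Fin d → ZMod L) → ℝ) :
    (∑ z, if InWin Q G z then avg Q G u z else 0) = ∑ z, if InWin Q G z then u z else 0 := by
  have h1 := avg_sum Q G u
  have h2 : ∀ f : (Fin d → ZMod L) → ℝ, ∑ z, f z =
      (∑ z, if InWin Q G z then f z else 0) + ∑ z, if InWin Q G z then 0 else f z := by
    intro f
    rw [← Finset.sum_add_distrib]
    refine Finset.sum_congr rfl fun z _ => ?_
    split_ifs <;> simp
  rw [h2 (avg Q G u), h2 u] at h1
  have h3 : (∑ z, if InWin Q G z then 0 else avg Q G u z) =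
      ∑ z, if InWin Q G z then 0 else u z := by
    refine Finset.sum_congr rfl fun z _ => ?_
    split_ifs with h
    · rfl
    · exact avg_out u h
  rw [h3] at h1
  linarith

end Lin

/-! ### The masses of the windows -/

section Wm

open Pool.Agent.PL (wm win kr)

theorem g7_box_ne (hb : 1 ≤ b) : (box d L b).Nonempty := by
  have : NeZero b := ⟨by omega⟩
  exact Finset.Nonempty.image (Finset.univ_nonempty) _

theorem g7_win (Q : Finset (Fin d → ZMod L)) (l : List Ω) (j : ℕ) (x : Fin d → ZMod L) :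
    win (envW S Q K₀ l) j x = univ.filter fun v => col Q (lev S K₀ l j) v = some x := by
  unfold win
  rw [g7_envW]

theorem g7_wm (hD : AllDis S (box d L b)) (l : List Ω) {i j : ℕ} (hij : i ≤ j)
    (hj : j ≤ l.length) (x y : Fin d → ZMod L) (N : ℕ) :
    wm (envS S l) (envW S (box d L b) K₀ l) N i x j y =
      (∑ v ∈ win (envW S (box d L b) K₀ l) i x, ∑ v' ∈ win (envW S (box d L b) K₀ l) j y,
        fw S (box d L b) ((l.drop i).take (j - i)) (dl v) v') / N := by
  unfold wm
  congr 1
  refine Finset.sum_congr rfl fun v _ => Finset.sum_congr rfl fun v' _ => ?_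
  rw [kr_eq_fw hD l i (j - i) (by omega)]
  rfl

theorem g7_wm_f (hbL : b ≤ L) (hD : AllDis S (box d L b)) (hK₀ : Dis (box d L b) K₀)
    (l : List Ω) {i j : ℕ} (hij : i ≤ j) (hj : j ≤ l.length) {x : Fin d → ZMod L}
    (hx : x ∈ lev S K₀ l i) (y : Fin d → ZMod L) :
    wm (envS S l) (envW S (box d L b) K₀ l) (b ^ d) i x j y =
      ∑ v' ∈ win (envW S (box d L b) K₀ l) j y,
        fw S (box d L b) ((l.drop i).take (j - i)) (cu (box d L b) x) v' := by
  rw [g7_wm hD l hij hj, Finset.sum_comm, Finset.sum_div]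
  refine Finset.sum_congr rfl fun v' _ => ?_
  rw [g7_fw_lin, g7_cu_mul, g7_win, g7_sum (g7_lev_dis hD hK₀ l i) hx, card_box hbL]

theorem g7_wm_b (hbL : b ≤ L) (hD : AllDis S (box d L b)) (hK₀ : Dis (box d L b) K₀)
    (l : List Ω) {i j : ℕ} (hij : i ≤ j) (hj : j ≤ l.length) (x : Fin d → ZMod L)
    {y : Fin d → ZMod L} (hy : y ∈ lev S K₀ l j) :
    wm (envS S l) (envW S (box d L b) K₀ l) (b ^ d) i x j y =
      ∑ v ∈ win (envW S (box d L b) K₀ l) i x,
        bw S (box d L b) ((l.drop i).take (j - i)) (cu (box d L b) y) v := by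
  rw [g7_wm hD l hij hj, Finset.sum_div]
  refine Finset.sum_congr rfl fun v _ => ?_
  rw [g7_win, g7_sum (g7_lev_dis hD hK₀ l j) hy, ← card_box hbL, ← g7_cu_mul]
  have h1 := fw_bw S (box d L b) ((l.drop i).take (j - i)) (dl v) (cu (box d L b) y)
  have h2 : ∑ z, dl v z * bw S (box d L b) ((l.drop i).take (j - i)) (cu (box d L b) y) z =
      bw S (box d L b) ((l.drop i).take (j - i)) (cu (box d L b) y) v := by
    rw [← g7_sum_dl (bw S (box d L b) ((l.drop i).take (j - i)) (cu (box d L b) y)) v]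
    exact Finset.sum_congr rfl fun z _ => mul_comm _ _
  rw [← h2, ← h1]
  exact Finset.sum_congr rfl fun z _ => mul_comm _ _

theorem g7_win_empty (hD : AllDis S (box d L b)) (hK₀ : Dis (box d L b) K₀)
    (l : List Ω) {j : ℕ} {y : Fin d → ZMod L} (hy : y ∉ lev S K₀ l j) :
    win (envW S (box d L b) K₀ l) j y = ∅ := by
  rw [g7_win, g7_filter_none (g7_lev_dis hD hK₀ l j) hy]

theorem g7_wm_zero_left (hD : AllDis S (box d L b)) (hK₀ : Dis (box d L b) K₀)
    (l : List Ω) {i j N : ℕ} {x : Fin d → ZMod L} (hx : x ∉ lev S K₀ l i)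
    (y : Fin d → ZMod L) : wm (envS S l) (envW S (box d L b) K₀ l) N i x j y = 0 := by
  unfold wm
  rw [g7_win_empty hD hK₀ l hx]
  simp

theorem g7_wm_zero_right (hD : AllDis S (box d L b)) (hK₀ : Dis (box d L b) K₀)
    (l : List Ω) {i j N : ℕ} (x : Fin d → ZMod L) {y : Fin d → ZMod L}
    (hy : y ∉ lev S K₀ l j) : wm (envS S l) (envW S (box d L b) K₀ l) N i x j y = 0 := by
  unfold wm
  rw [g7_win_empty hD hK₀ l hy]
  simp

end Wm

theorem g7_near {r : ℕ} {v v' : Fin d → ZMod L} (h : Pool.Agent.PL.near r v v') :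
    (nrm (v' - v) : ℝ) ≤ r := by
  have h1 : nrm (v' - v) ≤ r := by
    unfold nrm
    refine Finset.sup_le fun i _ => ?_
    have h2 := h i
    have h3 : (v' - v) i = -(v i - v' i) := by
      rw [Pi.sub_apply]
      ring
    rw [h3, ZMod.natAbs_valMinAbs_neg]
    rw [Int.abs_eq_natAbs] at h2
    omega
  exact_mod_cast h1

theorem g7_box_near (hbL : b ≤ L) {r : ℕ} (hr : 4 * b ≤ r) (x : Fin d → ZMod L)
    {y y' : Fin d → ZMod L} (hy : y ∈ box d L b) (hy' : y' ∈ box d L b) :
    Pool.Agent.PL.near (r / 4) (x + y) (x + y') := by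
  intro i
  unfold box at hy hy'
  rw [Finset.mem_image] at hy hy'
  obtain ⟨j, -, rfl⟩ := hy
  obtain ⟨j', -, rfl⟩ := hy'
  have h1 : ((x + fun i => ((j i : ℕ) : ZMod L)) i - (x + fun i => ((j' i : ℕ) : ZMod L)) i) =
      (((j i : ℕ) : ℤ) - ((j' i : ℕ) : ℤ) : ℤ) := by
    simp only [Pi.add_apply]
    push_cast
    ring
  rw [h1]
  have h2 := (j i).2
  have h3 := (j' i).2
  have h4 : (((((j i : ℕ) : ℤ) - ((j' i : ℕ) : ℤ) : ℤ) : ZMod L).valMinAbs).natAbs ≤
      (((j i : ℕ) : ℤ) - ((j' i : ℕ) : ℤ)).natAbs :=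
    ZMod.natAbs_min_of_le_div_two L _ _ (by simp) (ZMod.natAbs_valMinAbs_le _)
  rw [Int.abs_eq_natAbs]
  omega

theorem goodEnv (hL : 2 ≤ L) (hb : 1 ≤ b) (hbL : b ≤ L) (hD : AllDis S (box d L b))
    (hsub : ∀ a, S.good a ⊆ Λ.image (S.sh a + ·)) (hdis : ∀ s, Dis (box d L b) (Λ.image (s + ·)))
    (hK₀ : Dis (box d L b) K₀) {r : ℕ} (hr : 4 * b ≤ r) {c1 : ℝ} (hMm : 0 ≤ Mm) (hKw : 0 ≤ Kw)
    {l : List Ω} (hl : Dec (Conds S (box d L b) Λ h δ lam ρ Kw Mm Jg t0) l)
    (hlow : ∀ l₀ B l₃, l = l₀ ++ B ++ l₃ → l.length ≤ 2 * B.length → ∀ x z,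
      (nrm (z - x) : ℝ) ≤ r → c1 / (r : ℝ) ^ d ≤ fw S (box d L b) B (dl x) z) :
    Pool.Agent.PL.GoodEnv (envS S l) (envW S (box d L b) K₀ l) l.length (b ^ d) r c1
      ((b : ℝ) ^ d * Mm) (Kw + 1) := by
  have hQ : (box d L b).Nonempty := g7_box_ne hb
  have hbr : (0 : ℝ) < (b : ℝ) ^ d := by
    have : (0 : ℝ) < b := by exact_mod_cast (by omega : 0 < b)
    positivity
  refine ⟨?_, ?_, ?_, ?_, ?_, ?_⟩
  · -- card
    intro j _ x hx
    rw [g7_win] at hx ⊢
    by_cases h : x ∈ lev S K₀ l j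
    · rw [g7_card (g7_lev_dis hD hK₀ l j) h, card_box hbL]
    · rw [g7_filter_none (g7_lev_dis hD hK₀ l j) h] at hx
      exact absurd hx Finset.not_nonempty_empty
  · -- diam
    intro j _ x v hv v' hv'
    rw [g7_win] at hv hv'
    by_cases h : x ∈ lev S K₀ l j
    · rw [g7_filter (g7_lev_dis hD hK₀ l j) h, Finset.mem_image] at hv hv'
      obtain ⟨y, hy, rfl⟩ := hv
      obtain ⟨y', hy', rfl⟩ := hv'
      exact g7_box_near hbL hr x hy hy'
    · rw [g7_filter_none (g7_lev_dis hD hK₀ l j) h] at hv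
      exact absurd hv (Finset.notMem_empty v)
  · -- low
    intro i k hik hk v v' hv
    rw [kr_eq_fw hD l i k hik]
    refine hlow (l.take i) ((l.drop i).take k) ((l.drop i).drop k) ?_ ?_ v v' (g7_near hv)
    · rw [List.append_assoc, List.take_append_drop, List.take_append_drop]
    · rw [List.length_take, List.length_drop]
      omega
  · -- mass
    intro i j hij hj x y
    have hM : ((b : ℝ) ^ d * Mm) / ((b ^ d : ℕ) : ℝ) = Mm := by
      push_cast
      field_simp
    rw [hM]
    by_cases hx : x ∈ lev S K₀ l i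
    swap
    · rw [g7_wm_zero_left hD hK₀ l hx]
      exact hMm
    by_cases hy : y ∈ lev S K₀ l j
    swap
    · rw [g7_wm_zero_right hD hK₀ l x hy]
      exact hMm
    rw [g7_wm_f hbL hD hK₀ l hij.le hj hx]
    obtain ⟨k, rfl⟩ : ∃ k, j = i + k + 1 := ⟨j - i - 1, by omega⟩
    obtain ⟨a, ha⟩ : ∃ a, l[i + k]? = some a := ⟨l[i + k], List.getElem?_eq_getElem (by omega)⟩
    have h1 : i + k + 1 - i = k + 1 := by omega
    rw [h1, g7_take_succ ha, g7_win, g7_sum (g7_lev_dis hD hK₀ l _) hy]
    rw [g7_lev_succ ha] at hy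
    have h2 : ∀ z ∈ box d L b, fw S (box d L b) ((l.drop i).take k ++ [a]) (cu (box d L b) x)
        (y + z) = (∑ z' ∈ box d L b, fw S (box d L b) ((l.drop i).take k) (cu (box d L b) x)
          (S.T a (y + z'))) / (box d L b).card := by
      intro z hz
      rw [fw_snoc]
      exact avg_in (hD a) _ hy (by rw [add_sub_cancel_left]; exact hz)
    rw [Finset.sum_congr rfl h2, Finset.sum_const, nsmul_eq_mul]
    have hc : (0 : ℝ) < (box d L b).card := by exact_mod_cast Finset.card_pos.2 hQ
    rw [mul_div_cancel₀ _ hc.ne']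
    refine (hl (l.take i) ((l.drop i).take k) [a] (l.drop (i + k + 1)) ?_).mass a rfl x y
    rw [List.append_assoc (l.take i), ← g7_take_succ ha, List.append_assoc]
    have h3 : l.drop (i + k + 1) = (l.drop i).drop (k + 1) := by
      rw [List.drop_drop, add_assoc]
    rw [h3, List.take_append_drop, List.take_append_drop]
  · -- num
    intro i hi x
    by_cases hx : x ∈ lev S K₀ l i
    swap
    · rw [Finset.sum_eq_zero fun j _ => Finset.sum_eq_zero fun y _ =>
        g7_wm_zero_left hD hK₀ l hx y]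
      linarith
    have h1 : ∑ j ∈ Ioc i l.length, ∑ y, Pool.Agent.PL.wm (envS S l)
        (envW S (box d L b) K₀ l) (b ^ d) i x j y =
        ∑ k ∈ range (l.drop i).length, g7F S (box d L b) (l.drop i) (cu (box d L b) x) k := by
      rw [List.length_drop]
      refine Finset.sum_bij' (fun j _ => j - i - 1) (fun k _ => i + k + 1) ?_ ?_ ?_ ?_ ?_
      · intro j hj
        rw [Finset.mem_Ioc] at hj
        rw [Finset.mem_range]
        omega
      · intro k hk
        rw [Finset.mem_range] at hk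
        rw [Finset.mem_Ioc]
        omega
      · intro j hj
        rw [Finset.mem_Ioc] at hj
        omega
      · intro k _
        omega
      · intro j hj
        rw [Finset.mem_Ioc] at hj
        obtain ⟨k, rfl⟩ : ∃ k, j = i + k + 1 := ⟨j - i - 1, by omega⟩
        obtain ⟨a, ha⟩ : ∃ a, l[i + k]? = some a :=
          ⟨l[i + k], List.getElem?_eq_getElem (by omega)⟩
        have h2 : i + k + 1 - i - 1 = k := by omega
        have h3 : i + k + 1 - i = k + 1 := by omega
        rw [h2]
        have h4 : ∀ y, Pool.Agent.PL.wm (envS S l) (envW S (box d L b) K₀ l) (b ^ d) i x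
            (i + k + 1) y = ∑ v' ∈ univ.filter (fun v => col (box d L b) (S.good a) v = some y),
            avg (box d L b) (S.good a) (fun z => fw S (box d L b) ((l.drop i).take k)
              (cu (box d L b) x) (S.T a z)) v' := by
          intro y
          rw [g7_wm_f hbL hD hK₀ l (by omega) hj.2 hx, h3, g7_take_succ ha, g7_win,
            g7_lev_succ ha]
          refine Finset.sum_congr rfl fun v' _ => ?_
          rw [fw_snoc]
          rfl
        rw [Finset.sum_congr rfl fun y _ => h4 y, g7_sum_all (hD a), g7_avg_in]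
        unfold g7F
        rw [List.getElem?_drop, ha]
    rw [h1]
    refine (g7_sum_F hD hsub _ fun z => g7_cu_nonneg x z).trans ?_
    rw [g7_cnt_lin]
    refine (g7_mean_le hQ x fun z => (hl (l.take i) [] (l.drop i) [] ?_).num z).trans ?_
    · rw [List.append_nil, List.append_nil, List.take_append_drop]
    · linarith
  · -- num'
    intro j hj y
    by_cases hy : y ∈ lev S K₀ l j
    swap
    · rw [Finset.sum_eq_zero fun i _ => Finset.sum_eq_zero fun x _ =>
        g7_wm_zero_right hD hK₀ l x hy]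
      linarith
    rcases j with _ | j
    · rw [Finset.range_zero, Finset.sum_empty]
      linarith
    have h0 : ∀ i ∈ range (j + 1), ∑ x, Pool.Agent.PL.wm (envS S l)
        (envW S (box d L b) K₀ l) (b ^ d) i x (j + 1) y =
        ∑ v, if InWin (box d L b) (lev S K₀ l i) v then
          bw S (box d L b) ((l.take (j + 1)).drop i) (cu (box d L b) y) v else 0 := by
      intro i hi
      rw [Finset.mem_range] at hi
      rw [← g7_sum_all (g7_lev_dis hD hK₀ l i)]
      refine Finset.sum_congr rfl fun x _ => ?_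
      rw [g7_wm_b hbL hD hK₀ l hi.le hj x hy, g7_win, List.drop_take]
    rw [Finset.sum_congr rfl h0, Finset.sum_range_succ', add_comm]
    rw [add_comm Kw 1]
    refine add_le_add ?_ ?_
    · calc _ ≤ ∑ v, bw S (box d L b) ((l.take (j + 1)).drop 0) (cu (box d L b) y) v := by
            refine Finset.sum_le_sum fun v _ => ?_
            split_ifs
            · exact le_rfl
            · exact bw_nonneg hD _ (fun z => g7_cu_nonneg y z) v
        _ = 1 := by rw [bw_sum, g7_cu_sum hQ]
    · have h1 : ∑ k ∈ range j, (∑ v, if InWin (box d L b) (lev S K₀ l (k + 1)) v then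
          bw S (box d L b) ((l.take (j + 1)).drop (k + 1)) (cu (box d L b) y) v else 0) =
          ∑ k ∈ range j, g7B S (box d L b) (l.take (j + 1)) (cu (box d L b) y) k := by
        refine Finset.sum_congr rfl fun k hk => ?_
        rw [Finset.mem_range] at hk
        obtain ⟨a, ha⟩ : ∃ a, l[k]? = some a := ⟨l[k], List.getElem?_eq_getElem (by omega)⟩
        rw [g7_lev_succ ha]
        unfold g7B
        rw [List.getElem?_take_of_lt (by omega), ha]
      rw [h1]
      have h2 : ∑ k ∈ range j, g7B S (box d L b) (l.take (j + 1)) (cu (box d L b) y) k ≤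
          ∑ k ∈ range (l.take (j + 1)).length,
            g7B S (box d L b) (l.take (j + 1)) (cu (box d L b) y) k := by
        refine Finset.sum_le_sum_of_subset_of_nonneg ?_ ?_
        · intro k hk
          rw [Finset.mem_range] at hk ⊢
          rw [List.length_take]
          omega
        · intro k _ _
          unfold g7B
          split
          · refine Finset.sum_nonneg fun z _ => ?_
            split_ifs
            · exact bw_nonneg hD _ (fun z => g7_cu_nonneg y z) z
            · exact le_rfl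
          · exact le_rfl
      refine h2.trans ((g7_sum_B hD hsub _ fun z => g7_cu_nonneg y z).trans ?_)
      rw [g7_bcnt_lin]
      refine g7_mean_le hQ y fun z => (hl [] [] (l.take (j + 1)) (l.drop (j + 1)) ?_).num' z
      rw [List.nil_append, List.nil_append, List.take_append_drop]

end Pool.Agent.Stirring.QK
end

section

section

/-! Block (3): from a node to a box (backward), `node_bwd`. -/

set_option autoImplicit false
set_option linter.unusedSectionVars false

open Finset

namespace Pool.Agent.Stirring.RS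

open PL

section gen
variable {V : Type} [Fintype V] [DecidableEq V]

lemma perm_ais {W : Type*} (p : Equiv.Perm W) (x : W) : p (p⁻¹ x) = x := p.apply_symm_apply x

/-- Backward law of the uniform law on the window `y` of level `l + m`, at level `l` before
averaging. -/
noncomputable def bu (S : ℕ → Equiv.Perm V) (w : ℕ → V → Option V) (N : ℕ) (y : V) (l m : ℕ) :
    V → ℝ :=
  fun v => (∑ v' ∈ win w (l + m) y, kr S w l m (Pi.single v 1) v') / N

/-- Linearity of `kr` in the form needed. -/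
lemma kr_expand (S : ℕ → Equiv.Perm V) (w : ℕ → V → Option V) (i k : ℕ) (u : V → ℝ) (v' : V) :
    kr S w i k u v' = ∑ v, u v * kr S w i k (Pi.single v 1) v' := by
  have h := kr_lin S w i k univ u (fun v => (Pi.single v (1 : ℝ) : V → ℝ)) v'
  have h2 : (fun x => ∑ j ∈ (univ : Finset V), u j * (Pi.single j (1 : ℝ) : V → ℝ) x) = u := by
    funext x
    rw [Finset.sum_eq_single x]
    · simp
    · intro b _ hb
      rw [Pi.single_apply, if_neg (fun h => hb h.symm), mul_zero]
    · intro hn; exact absurd (mem_univ x) hn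
  rw [h2] at h
  exact h

lemma bu_step (S : ℕ → Equiv.Perm V) (w : ℕ → V → Option V) (N : ℕ) (y : V) (l m : ℕ) (v : V) :
    bu S w N y l (m + 1) v = av (w (l + 1)) (bu S w N y (l + 1) m) (S l v) := by
  have hk : kr S w l 1 (Pi.single v (1 : ℝ) : V → ℝ) =
      av (w (l + 1)) (Pi.single (S l v) (1 : ℝ) : V → ℝ) := by
    show avgW (w (l + 0 + 1)) (fun x => (Pi.single v (1 : ℝ) : V → ℝ) ((S (l + 0))⁻¹ x)) = _
    have h0 : (fun x => (Pi.single v (1 : ℝ) : V → ℝ) ((S (l + 0))⁻¹ x)) =
        (Pi.single (S l v) (1 : ℝ) : V → ℝ) := by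
      funext x
      rw [Pi.single_apply, Pi.single_apply]
      have : ((S (l + 0))⁻¹ x = v) ↔ (x = S l v) := by
        rw [Equiv.Perm.inv_eq_iff_eq]
        exact Iff.rfl
      simp only [this]
    rw [h0]
    rfl
  have e1 : l + (m + 1) = l + 1 + m := by omega
  unfold bu
  rw [e1]
  have h1 : ∀ v', kr S w l (m + 1) (Pi.single v (1 : ℝ) : V → ℝ) v' =
      ∑ x, av (w (l + 1)) (Pi.single (S l v) (1 : ℝ) : V → ℝ) x *
        kr S w (l + 1) m (Pi.single x 1) v' := by
    intro v'
    rw [kr_peel, hk, kr_expand]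
  simp_rw [h1]
  rw [Finset.sum_comm]
  have h2 : ∀ x, ∑ v' ∈ win w (l + 1 + m) y,
      av (w (l + 1)) (Pi.single (S l v) (1 : ℝ) : V → ℝ) x *
        kr S w (l + 1) m (Pi.single x 1) v' =
      av (w (l + 1)) (Pi.single (S l v) (1 : ℝ) : V → ℝ) x *
      ∑ v' ∈ win w (l + 1 + m) y, kr S w (l + 1) m (Pi.single x 1) v' := by
    intro x
    rw [Finset.mul_sum]
  simp_rw [h2]
  rw [Finset.sum_div]
  have h3 : ∑ x, av (w (l + 1)) (Pi.single (S l v) (1 : ℝ) : V → ℝ) x *
      (∑ v' ∈ win w (l + 1 + m) y, kr S w (l + 1) m (Pi.single x 1) v') / (N : ℝ) =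
      ∑ x, av (w (l + 1)) (Pi.single (S l v) (1 : ℝ) : V → ℝ) x *
      bu S w N y (l + 1) m x := by
    refine Finset.sum_congr rfl fun x _ => ?_
    unfold bu
    ring
  rw [h3, av_adj, Finset.sum_eq_single (S l v)]
  · rw [Pi.single_eq_same, one_mul]
    rfl
  · intro b _ hb
    rw [Pi.single_apply, if_neg hb, zero_mul]
  · intro hn; exact absurd (mem_univ _) hn

/-- The reversed environment, seen from level `n`. -/
def revT (S : ℕ → Equiv.Perm V) (n : ℕ) : ℕ → Equiv.Perm V := fun m => (S (n - 1 - m))⁻¹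

def revw (w : ℕ → V → Option V) (n : ℕ) : ℕ → V → Option V := fun m => w (n - m)

lemma fwd_rev (S : ℕ → Equiv.Perm V) (w : ℕ → V → Option V) (N : ℕ) (y : V) (n : ℕ) :
    ∀ m ≤ n, fwd (revT S n) (revw w n) (uw w n y N) m = av (w (n - m)) (bu S w N y (n - m) m) := by
  intro m
  induction m with
  | zero =>
    intro _
    funext v
    show uw w n y N v = av (w (n - 0)) (bu S w N y (n - 0) 0) v
    have h1 : bu S w N y n 0 = uw w n y N := by
      funext x
      unfold bu uw
      show (∑ v' ∈ win w n y, (Pi.single x (1 : ℝ) : V → ℝ) v') / (N : ℝ) = _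
      by_cases hx : w n x = some y
      · rw [if_pos hx, Finset.sum_eq_single x]
        · simp
        · intro b _ hb
          rw [Pi.single_apply, if_neg hb]
        · intro hn; exact absurd (by simp [win, hx]) hn
      · rw [if_neg hx, Finset.sum_eq_zero, zero_div]
        intro b hb
        have hb' : w n b = some y := (Finset.mem_filter.1 hb).2
        rw [Pi.single_apply, if_neg]
        rintro rfl
        exact hx hb'
    rw [Nat.sub_zero, h1]
    unfold av
    split_ifs with h
    · rfl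
    · have h2 : ∀ x ∈ cls (w n) v, uw w n y N x = uw w n y N v := by
        intro x hx
        unfold uw
        rw [(mem_cls _ _ _).1 hx]
      rw [Finset.sum_congr rfl h2, Finset.sum_const, nsmul_eq_mul, mul_div_assoc,
        mul_div_cancel₀ _ (cls_pos (w n) v).ne']
  | succ m ih =>
    intro hm
    have ih' := ih (by omega)
    have e1 : n - (m + 1) + 1 = n - m := by omega
    have e2 : n - 1 - m = n - (m + 1) := by omega
    show av (w (n - (m + 1))) (fun v => fwd (revT S n) (revw w n) (uw w n y N) m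
      (S (n - 1 - m) v)) = _
    rw [ih']
    congr 1
    funext v
    rw [bu_step, e1, e2]

end gen

theorem node_bwd (d : ℕ) (c1 : ℝ) (hc1 : 0 < c1)
    (L : ℕ) [NeZero L] (S : ℕ → Equiv.Perm (Fin d → ZMod L))
      (w : ℕ → (Fin d → ZMod L) → Option (Fin d → ZMod L)) (J N r : ℕ) (M Kw : ℝ)
    (hN : 1 ≤ N) (hr : 8 ≤ r) (hL : 2 * r ≤ L) (hM : 0 ≤ M) (hE : GoodEnv S w J N r c1 M Kw)
    (hMK : M * Kw ≤ N)
    (F : ℕ → (Fin d → ZMod L) → ℝ)
    (hF : ∀ j ≤ J, ∀ v v', w j v ≠ none → w j v = w j v' → F j v = F j v')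
    (hF' : ∀ j < J, ∀ v, w (j + 1) (S j v) = none → F (j + 1) (S j v) = F j v)
    (j : ℕ) (y v b : Fin d → ZMod L) (hjJ : j ≤ J) (hj : J ≤ 2 * j) (hv : v ∈ win w j y)
    (hb : near (r / 4) v b) :
      (F j v - (∑ v' ∈ bx (r / 4) b, F 0 v') / (bx (r / 4) b).card) ^ 2
        ≤ (2 * (4 ^ d / c1) ^ 2) / N * ∑ j ∈ range J, ∑ v', (F (j + 1) (S j v') - F j v') ^ 2 := by
  set T : ℕ → Equiv.Perm (Fin d → ZMod L) := revT S j with hT
  set w' : ℕ → (Fin d → ZMod L) → Option (Fin d → ZMod L) := revw w j with hw'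
  set G : ℕ → (Fin d → ZMod L) → ℝ := fun m => F (j - m) with hG
  have hNr : (0 : ℝ) < N := by positivity
  have hrr : (0 : ℝ) < (r : ℝ) ^ d := by positivity
  have hyj : w j v = some y := (Finset.mem_filter.1 hv).2
  have hcard : (win w j y).card = N := hE.card j hjJ y ⟨v, hv⟩
  have hCon : Con w' G j := by
    intro m hm a a' h1 h2
    exact hF (j - (m + 1)) (by omega) a a' h2 h1
  -- the jump in terms of the forward jump
  have hjmp : ∀ m, m < j → ∀ a, jmp T G m a =
      F (j - (m + 1) + 1) (S (j - (m + 1)) ((S (j - (m + 1)))⁻¹ a)) -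
        F (j - (m + 1)) ((S (j - (m + 1)))⁻¹ a) := by
    intro m hm a
    show F (j - m) a - F (j - (m + 1)) ((S (j - 1 - m))⁻¹ a) = _
    rw [show j - (m + 1) + 1 = j - m by omega, show j - 1 - m = j - (m + 1) by omega,
      perm_ais]
  have hP : ∀ m, m < j → ∀ a, ¬ (w' m a ≠ none) → jmp T G m a = 0 := by
    intro m hm a h
    have h' : w (j - m) a = none := by
      by_contra h0; exact h h0
    rw [hjmp m hm a]
    have h2 : w (j - (m + 1) + 1) (S (j - (m + 1)) ((S (j - (m + 1)))⁻¹ a)) = none := by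
      rw [show j - (m + 1) + 1 = j - m by omega, perm_ais]
      exact h'
    rw [hF' (j - (m + 1)) (by omega) _ h2]
    ring
  have hBpos := bx_pos (r / 4) b
  have hlow : ∀ v', ub (r / 4) b v' ≠ 0 → c1 / (r : ℝ) ^ d ≤ fwd T w' (uw w j y N) j v' := by
    intro v' h
    have h1 := ub_ne h
    rw [fwd_rev S w N y j j le_rfl]
    rw [Nat.sub_self]
    refine le_av _ _ _ _ ?_
    intro a ha
    unfold bu
    rw [le_div_iff₀ hNr, Nat.zero_add]
    have h2 : ∀ a' ∈ win w j y, c1 / (r : ℝ) ^ d ≤ kr S w 0 j (Pi.single a 1) a' := by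
      intro a' ha'
      refine hE.low 0 j (by omega) (by omega) a a' ?_
      have h3 : near (r / 4) a' v := hE.diam j hjJ y a' ha' v hv
      have h4 : near (r / 4) a v' := by
        rcases ha with rfl | ⟨h5, h6⟩
        · exact near_self _ _
        · obtain ⟨z, hz⟩ := Option.ne_none_iff_exists'.1 h6
          exact hE.diam 0 (Nat.zero_le _) z a
            (Finset.mem_filter.2 ⟨mem_univ _, by rw [h5, hz]⟩) v'
            (Finset.mem_filter.2 ⟨mem_univ _, hz⟩)
      exact near_mono (by omega) (near_trans (near_trans h4 h1) (near_symm (near_trans h3 hb)))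
    calc c1 / (r : ℝ) ^ d * N = ∑ a' ∈ win w j y, c1 / (r : ℝ) ^ d := by
          rw [Finset.sum_const, hcard, nsmul_eq_mul, mul_comm]
      _ ≤ _ := Finset.sum_le_sum h2
  have hg : ∀ a, uw w j y N a ≠ 0 → G 0 a = F j v := by
    intro a ha
    have h1 : w j a = some y := by
      by_contra h0
      exact ha (by unfold uw; rw [if_neg h0])
    show F (j - 0) a = F j v
    rw [Nat.sub_zero]
    exact hF j hjJ a v (by rw [h1]; simp) (by rw [h1, hyj])
  have main := node_to T w' (G := G) (n := j) hCon (fun m a => w' m a ≠ none) hP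
    (uw w j y N) (ub (r / 4) b) (uw_nonneg w j y N) (ub_nonneg _ _) (ub_sum _ _) (F j v)
    (1 / ((bx (r / 4) b).card : ℝ)) (c1 / (r : ℝ) ^ d) (by positivity) (by positivity)
    (ub_le _ _) hlow hg
  rw [ub_mean] at main
  have hGn : G j = F 0 := by show F (j - j) = F 0; rw [Nat.sub_self]
  rw [hGn] at main
  -- masses
  have hmass : ∀ m, m < j → ∀ x, ∑ v' ∈ win w' (m + 1) x, fwd T w' (uw w j y N) (m + 1) v' =
      wm S w N (j - (m + 1)) x j y := by
    intro m hm x
    rw [fwd_rev S w N y j (m + 1) (by omega)]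
    have h1 : ∑ v' ∈ win w' (m + 1) x,
        av (w (j - (m + 1))) (bu S w N y (j - (m + 1)) (m + 1)) v' =
        ∑ v' ∈ win w (j - (m + 1)) x, bu S w N y (j - (m + 1)) (m + 1) v' := by
      show ∑ v' ∈ win w (j - (m + 1)) x,
        av (w (j - (m + 1))) (bu S w N y (j - (m + 1)) (m + 1)) v' = _
      rcases (win w (j - (m + 1)) x).eq_empty_or_nonempty with h | ⟨a, ha⟩
      · rw [h]; simp
      · have ha' : w (j - (m + 1)) a = some x := (Finset.mem_filter.1 ha).2
        have hne : w (j - (m + 1)) a ≠ none := by rw [ha']; simp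
        rw [win_eq_cls w _ ha', av_sum_cls _ _ hne]
        unfold av
        rw [if_neg hne, mul_div_cancel₀ _ (cls_pos _ _).ne']
    rw [h1]
    unfold bu wm
    rw [← Finset.sum_div]
    rw [show j - (m + 1) + (m + 1) = j by omega, show j - (j - (m + 1)) = m + 1 by omega]
  have hsq : sqS T w' (fun m a => w' m a ≠ none) (uw w j y N) j ≤ 2 / (N : ℝ) := by
    have h1 := sqS_dep T w' (uw w j y N) (uw_nonneg w j y N) j (M / N / N) Kw (by positivity)
      (by
        intro m hm a ha
        obtain ⟨x, hx⟩ := Option.ne_none_iff_exists'.1 ha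
        refine fwd_win (T := T) (w := w') (uw w j y N) m N hN hx ?_ _ ?_
        · exact hE.card (j - (m + 1)) (by omega) x
            ⟨a, Finset.mem_filter.2 ⟨mem_univ _, hx⟩⟩
        · rw [hmass m hm x]
          exact hE.mass (j - (m + 1)) j (by omega) hjJ x y)
      (by
        have h2 : ∀ m ∈ range j, ∑ a, (if w' (m + 1) a = none then 0
            else fwd T w' (uw w j y N) (m + 1) a) = ∑ x, wm S w N (j - 1 - m) x j y := by
          intro m hm
          rw [sum_win]
          refine Finset.sum_congr rfl fun x _ => ?_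
          rw [show j - 1 - m = j - (m + 1) by omega, ← hmass m (Finset.mem_range.1 hm) x]
          rfl
        rw [Finset.sum_congr rfl h2,
          Finset.sum_range_reflect (fun i => ∑ x, wm S w N i x j y) j]
        exact hE.num' j hjJ y)
    rw [uw_sq w j y N hN hcard] at h1
    refine h1.trans ?_
    have h5 : M / N / N * Kw ≤ 1 / (N : ℝ) := by
      have : M / N / N * Kw = (M * Kw) / (N * N) := by field_simp
      rw [this, div_le_div_iff₀ (by positivity) hNr]
      nlinarith
    have : (2 : ℝ) / N = 1 / N + 1 / N := by ring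
    rw [this]
    linarith
  have hEJ : EJ T G j ≤ ∑ j ∈ range J, ∑ v', (F (j + 1) (S j v') - F j v') ^ 2 := by
    have h3 : EJ T G j = ∑ l ∈ range j, ∑ v', (F (l + 1) (S l v') - F l v') ^ 2 := by
      rw [← Finset.sum_range_reflect (fun l => ∑ v', (F (l + 1) (S l v') - F l v') ^ 2) j]
      unfold EJ
      refine Finset.sum_congr rfl fun m hm => ?_
      have hm' := Finset.mem_range.1 hm
      rw [show j - 1 - m = j - (m + 1) by omega,
        ← Equiv.sum_comp (S (j - (m + 1)))⁻¹
          (fun v' => (F (j - (m + 1) + 1) (S (j - (m + 1)) v') - F (j - (m + 1)) v') ^ 2)]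
      refine Finset.sum_congr rfl fun a _ => ?_
      rw [hjmp m hm' a]
    rw [h3]
    refine Finset.sum_le_sum_of_subset_of_nonneg ?_ fun _ _ _ =>
      Finset.sum_nonneg fun _ _ => sq_nonneg _
    intro l hl
    rw [Finset.mem_range] at hl ⊢
    omega
  have hratio : (1 / ((bx (r / 4) b).card : ℝ)) / (c1 / (r : ℝ) ^ d) ≤ 4 ^ d / c1 := by
    have h1 := card_bx_quarter hr hL b
    rw [div_div_eq_mul_div, div_mul_eq_mul_div, one_mul, div_div, div_le_div_iff₀ (by positivity) hc1]
    nlinarith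
  have hratio0 : 0 ≤ (1 / ((bx (r / 4) b).card : ℝ)) / (c1 / (r : ℝ) ^ d) := by positivity
  have hEJ0 := EJ_nonneg T G j
  calc _ ≤ _ := main
    _ ≤ (4 ^ d / c1) ^ 2 * (2 / N) * ∑ j ∈ range J, ∑ v', (F (j + 1) (S j v') - F j v') ^ 2 := by
        have h1 : ((1 / ((bx (r / 4) b).card : ℝ)) / (c1 / (r : ℝ) ^ d)) ^ 2 ≤ (4 ^ d / c1) ^ 2 :=
          pow_le_pow_left₀ hratio0 hratio 2
        have h2 : 0 ≤ sqS T w' (fun m a => w' m a ≠ none) (uw w j y N) j := by
          unfold sqS
          refine Finset.sum_nonneg fun _ _ => Finset.sum_nonneg fun _ _ => ?_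
          split_ifs
          · exact sq_nonneg _
          · exact le_rfl
        refine mul_le_mul (mul_le_mul h1 hsq h2 (by positivity)) hEJ hEJ0 (by positivity)
    _ = _ := by ring

end Pool.Agent.Stirring.RS
end

section

/-! The final theorem of block (2). -/

open Finset

set_option linter.unusedSectionVars false

namespace Pool.Agent.Stirring.QK

variable {d L : ℕ} [NeZero L] {Ω : Type*} [Fintype Ω]
variable {S : Slab (Fin d → ZMod L) Ω} {Λ : Finset (Fin d → ZMod L)}
variable {b J Jg R m₀ r : ℕ} {c h δ lam ρ α p p' Mm c1 : ℝ}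

/-- **Block (2), final form.** `hkge` is `hk_ge`. -/
theorem pr_goodEnv (hd : 1 ≤ d) (P : Par d L b J Jg R m₀ r c h δ lam ρ α p p' Mm c1)
    (hc : 0 < c) (hkge : ∀ s : ℝ, 1 ≤ s → ∀ x y : Fin d → ZMod L,
      (nrm (y - x) : ℝ) ≤ c * Real.sqrt s → c * (1 / Real.sqrt s) ^ d ≤ hk d L s x y)
    (H : SlabLaw (tr d L) h S (box d L b) Λ)
    (hp : dens (Fin d → ZMod L) (box d L b) Λ = p)
    (hg : ∀ z, p' ≤ ∑ a, S.w a * (if InWin (box d L b) (S.good a) z then 1 else 0))
    (hMm : 0 ≤ Mm) (K₀ : Finset (Fin d → ZMod L)) (hK₀ : Dis (box d L b) K₀) :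
    Pr S.w J (fun l => ¬ Pool.Agent.PL.GoodEnv (envS S l) (envW S (box d L b) K₀ l) J (b ^ d) r c1
      ((b : ℝ) ^ d * Mm) (2 * p * J + lam + 1)) ≤
      ((J : ℝ) + 1) ^ 3 * (10 * ((L : ℝ) ^ d) ^ 2 * Real.exp (-lam)) := by
  refine le_trans (Pr_mono (Q := fun l => ¬ Dec (Conds S (box d L b) Λ h δ lam ρ
    (2 * p * J + lam) Mm Jg (R * (2 * Jg))) l) H.w_nonneg J fun l hl hn => ?_)
    (pr_dec hd P H hp hg)
  intro hdec
  refine hn ?_
  have hKw : 0 ≤ 2 * p * J + lam := by
    have := P.hp
    have := P.hlam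
    positivity
  have h1 := goodEnv (c1 := c1) P.hL P.hb P.hbL H.allDis H.sub H.dis hK₀ P.l9 hMm hKw hdec
    (fun l₀ B l₃ h1 h2 x z h3 => low_of_dec P hc hkge H.allDis hl hdec l₀ B l₃ h1 h2 x z h3)
  rw [hl] at h1
  exact h1

end Pool.Agent.Stirring.QK
end
end
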