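import Pool.Agent.Lib.MP_6c3d62_pr.Mg.G063
import Pool.Agent.Lib.MP_6c3d62_pr.Mg.G070
import Pool.Agent.Lib.MP_6c3d62_pr.Mg.G062
import Pool.Agent.Lib.MP_6c3d62_pr.PL.Par6
import Pool.Agent.Lib.MP_6c3d62_pr.Mg.G066
import Pool.Agent.Lib.MP_6c3d62_pr.HC.A9
import Pool.Agent.Lib.MP_6c3d62_pr.QL.Low
import Pool.Agent.Lib.MP_6c3d62_pr.Mg.G069

section

section

/-! Hidden coins, local version, in the form used by the glue. -/

open Finset

set_option linter.unusedSectionVars false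

namespace Pool.Agent.Stirring.HC

theorem JL_eq_El' {V : Type} [Fintype V] [DecidableEq V] {Y : Type}
    [Fintype Y] [DecidableEq Y] (π : Y → Equiv.Perm V → ℝ) (G : Equiv.Perm V → ℝ) (l : List Y)
    (Θ : Equiv.Perm V) : PL.JL π G l Θ = El π l (fun σ => G (Θ * σ)) := by
  induction l generalizing Θ with
  | nil => simp [PL.JL, El]
  | cons y l ih =>
    show ∑ σ, π y σ * PL.JL π G l (Θ * σ) = ∑ σ, π y σ * El π l (fun τ => G (Θ * (σ * τ)))
    refine Finset.sum_congr rfl fun σ _ => ?_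
    rw [ih]
    simp only [mul_assoc]

variable {d L : ℕ} [NeZero L]

/-- **Hidden coins**, local: no `log L`; the windows based outside any set `D0` may be left out. -/
theorem hidden_coins_loc (hd : 1 ≤ d) {b r : ℕ} {h₀ : ℝ} (hb1 : 1 ≤ b) (hb : 8 * b ≤ r)
    (hr : 2 * r ≤ L) (hh : (r : ℝ) ≤ 8 * h₀)
    (hlog : 128 * h₀ * Real.log (16 * d * (b : ℝ) ^ d) ≤ (r : ℝ) ^ 2)
    (hbig : 1024 * 12 ^ d * (d : ℝ) ^ 2 * (b : ℝ) ^ 2 * ((b : ℝ) ^ d) ^ 3 *
      Real.log ((r : ℝ) ^ d) ≤ h₀) :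
    ∃ h : ℝ, h₀ / 2 ≤ h ∧ h ≤ h₀ ∧
      ∃ (Ω : Type) (_ : Fintype Ω) (S : QK.Slab (Fin d → ZMod L) Ω)
        (Λ : Finset (Fin d → ZMod L)),
        QK.SlabLaw (QK.tr d L) h S (QK.box d L b) Λ ∧ Λ.card = (L / r) ^ d ∧
        (∀ D0 : Finset (Fin d → ZMod L), PL.SlabMix (QK.tr d L) h (restr S D0) (QK.box d L b)) ∧
        ∀ (D0 : Finset (Fin d → ZMod L)) (z : Fin d → ZMod L),
          (∀ q, z - q ∈ QK.box d L b → q ∈ D0) →
          QK.dens (Fin d → ZMod L) (QK.box d L b) Λ / 2 ≤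
            ∑ a, (restr S D0).w a *
              (if QK.InWin (QK.box d L b) ((restr S D0).good a) z then 1 else 0) := by
  obtain ⟨h, h1, h2, Ω, _, S, Λ, ν, h3, h4, h5, h6, h7⟩ :=
    hidden_coins_loc0 (L := L) hd hb1 hb hr hh hlog hbig
  refine ⟨h, h1, h2, Ω, _, S, Λ, h3, h4, fun D0 => ?_, h7⟩
  intro H bd hbd
  have h8 := h6 D0 (fun τ _ => H τ)
  have h9 : (fun τ : Equiv.Perm (Fin d → ZMod L) => (∑ _s : Fin d → ZMod L, H τ) /
      (Fintype.card (Fin d → ZMod L) : ℝ)) = H := by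
    funext τ
    have hn : (Fintype.card (Fin d → ZMod L) : ℝ) ≠ 0 := by
      have : 0 < Fintype.card (Fin d → ZMod L) := Fintype.card_pos_iff.mpr ⟨0⟩
      positivity
    rw [Finset.sum_const, Finset.card_univ, nsmul_eq_mul]
    field_simp
  rw [h9] at h8
  rw [← h8]
  refine Finset.sum_le_sum fun a _ => mul_le_mul_of_nonneg_left ?_ (h3.w_nonneg a)
  have h10 := hbd a (ν a) (fun y hy => by
    obtain ⟨ha, hb', hc, hd'⟩ := h5 a y (Finset.mem_filter.mp hy).1
    exact ⟨ha, hb', hc, hd'⟩)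
  rw [JL_eq_El'] at h10
  exact h10

end Pool.Agent.Stirring.HC
end

section

/-! The environment of `env_good_local`. -/

set_option autoImplicit false
set_option linter.unusedSectionVars false

open Finset Equiv Pool.Agent.Stirring Filter

namespace Pool.Agent.PL

/-- The environment of `env_good_local`: deep box with corner `0` and side `s`; `D0` = base points of
the windows. -/
def EnvGoodL (d A B : ℕ) (c1 : ℝ) (s L : ℕ) [NeZero L] : Prop :=
  ∃ (b J r : ℕ) (h M Kw : ℝ) (Ω : Type) (_ : Fintype Ω) (S : QK.Slab (Fin d → ZMod L) Ω)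
    (D0 : Finset (Fin d → ZMod L)),
      1 ≤ b ∧ b ≤ s ∧ Real.log s ^ 8 ≤ b ∧ (b : ℝ) ≤ Real.log s ^ A ∧
      1 ≤ J ∧ (J : ℝ) ≤ s ∧ 0 ≤ h ∧ (J : ℝ) * h ≤ Real.log s ^ B ∧
      8 ≤ r ∧ r ≤ s ∧ 0 ≤ M ∧ M * Kw ≤ (b : ℝ) ^ d ∧
      (b : ℝ) ^ d * J * (1 + Real.log s) ^ 2 ≤ (r : ℝ) ^ d ∧
      (∀ a, 0 ≤ S.w a) ∧ ∑ a, S.w a = 1 ∧
      SlabMix (QK.tr d L) h S (QK.box d L b) ∧
      (∀ a, QK.Dis (QK.box d L b) (S.good a)) ∧ (∀ a, S.good a ⊆ D0) ∧
      (D0.card : ℝ) ≤ (2 * (s : ℝ)) ^ d ∧ (∀ v, dp 0 s v → v ∈ D0) ∧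
      ∀ M0 : Finset (Fin d → ZMod L), QK.Dis (QK.box d L b) M0 → (∀ v ∈ M0, dp 0 s v) →
        QK.EL S.w J (fun l => open Classical in
          if GoodEnvL (envS S l) (envW S (QK.box d L b) M0 l) J (b ^ d) r c1 M Kw 0 s
            then 0 else 1) ≤ 1 / s

end Pool.Agent.PL
end

section

/-! G10: the environment is good, from blocks (1), (2) and the parameters. -/

set_option autoImplicit false
set_option linter.unusedSectionVars false

open Finset Equiv Pool.Agent.Stirring Filter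

namespace Pool.Agent.PL

section

variable {d L : ℕ} [NeZero L] {Ω : Type} [Fintype Ω]

theorem envS_eq (S : QK.Slab (Fin d → ZMod L) Ω) (l : List Ω) : envS S l = QK.envS S l := by
  funext j
  unfold envS QK.envS
  rw [List.getD_eq_getElem?_getD, List.getElem?_map]
  cases l[j]? with
  | none => simp
  | some a => simp

theorem envW_eq (S : QK.Slab (Fin d → ZMod L) Ω) (Q M0 : Finset (Fin d → ZMod L))
    (l : List Ω) : envW S Q M0 l = QK.envW S Q M0 l := by
  funext j
  cases j with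
  | zero => rfl
  | succ j =>
    have h1 : QK.envW S Q M0 l (j + 1) = match l[j]? with
      | some a => QK.col Q (S.good a)
      | none => fun _ => none := rfl
    have h2 : envW S Q M0 l (j + 1) = colW Q ((M0 :: l.map S.good).getD (j + 1) ∅) := rfl
    rw [h1, h2, List.getD_eq_getElem?_getD, List.getElem?_cons_succ, List.getElem?_map]
    cases l[j]? with
    | none =>
      funext v
      show colW Q ∅ v = none
      unfold colW
      rw [dif_neg (by simp)]
    | some a => rfl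

theorem box_eq (b : ℕ) : HC.box (0 : Fin d → ZMod L) b = QK.box d L b := by
  unfold HC.box QK.box
  refine Finset.image_congr fun c _ => ?_
  simp only [zero_add]

/-- The two notations for the mean over independent shuffles. -/
theorem El_eq_JL {V : Type} [Fintype V] [DecidableEq V] (μ : V → Perm V → ℝ)
    (H : Perm V → ℝ) (l : List V) (Θ : Perm V) :
    HC.El μ l (fun π => H (Θ * π)) = JL μ H l Θ := by
  induction l generalizing Θ with
  | nil => simp [HC.El, JL]
  | cons i l ih =>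
    simp only [HC.El, JL]
    refine Finset.sum_congr rfl fun π _ => ?_
    rw [← ih (Θ * π)]
    simp only [mul_assoc]

/-- From the explicit mixture to `SlabMix`. -/
theorem slabMix_of {h : ℝ} {S : QK.Slab (Fin d → ZMod L) Ω} {Q : Finset (Fin d → ZMod L)}
    {ν : Ω → (Fin d → ZMod L) → Perm (Fin d → ZMod L) → ℝ} (hw : ∀ a, 0 ≤ S.w a)
    (hν : ∀ a, ∀ q ∈ S.good a, (∀ σ, 0 ≤ ν a q σ) ∧ ∑ σ, ν a q σ = 1 ∧
          (∀ σ, ν a q σ ≠ 0 → ∀ v, v - q ∉ Q → σ v = v) ∧
          ∀ σ, ν a q σ ≤ 4 / ((Q.card).factorial : ℝ))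
    (hmix : ∀ F : Perm (Fin d → ZMod L) → (Fin d → ZMod L) → ℝ,
          ∑ a, S.w a * HC.El (ν a) (S.good a).toList (fun π => F (S.T a * π) (S.sh a)) =
            Hier.sg (QK.tr d L) h
              (fun τ => (∑ s, F τ s) / Fintype.card (Fin d → ZMod L)) 1) :
    SlabMix (QK.tr d L) h S Q := by
  intro H b hb
  have h1 := hmix (fun τ _ => H τ)
  have hn : (Fintype.card (Fin d → ZMod L) : ℝ) ≠ 0 := by
    have : 0 < Fintype.card (Fin d → ZMod L) := Fintype.card_pos_iff.mpr ⟨0⟩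
    positivity
  have h2 : (fun τ : Perm (Fin d → ZMod L) =>
      (∑ _s : Fin d → ZMod L, H τ) / (Fintype.card (Fin d → ZMod L) : ℝ)) = H := by
    funext τ
    rw [Finset.sum_const, Finset.card_univ, nsmul_eq_mul]
    field_simp
  rw [h2] at h1
  rw [← h1]
  refine Finset.sum_le_sum fun a _ => mul_le_mul_of_nonneg_left ?_ (hw a)
  rw [El_eq_JL]
  refine hb a (ν a) fun y hy => ?_
  obtain ⟨e1, e2, e3, e4⟩ := hν a y hy
  exact ⟨e1, e2, e3, e4⟩

end

/-- G10. Everything about the environment, for all large `L`: `b` = side of the windows, `h` = length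
of a slab, `J` = number of slabs. -/
theorem env_good (d : ℕ) (hd : 2 ≤ d) : ∃ (A B : ℕ) (c1 : ℝ), 0 < c1 ∧
    ∀ᶠ L : ℕ in atTop, ∀ [NeZero L], ∃ (b J r : ℕ) (h M Kw : ℝ) (Ω : Type) (_ : Fintype Ω)
      (S : QK.Slab (Fin d → ZMod L) Ω),
      1 ≤ b ∧ b ≤ L ∧ Real.log L ^ 8 ≤ b ∧ (b : ℝ) ≤ Real.log L ^ A ∧
      1 ≤ J ∧ (J : ℝ) ≤ L ∧ 0 ≤ h ∧ (J : ℝ) * h ≤ Real.log L ^ B ∧
      8 ≤ r ∧ 2 * r ≤ L ∧ 0 ≤ M ∧ M * Kw ≤ (b : ℝ) ^ d ∧
      (b : ℝ) ^ d * J * (1 + Real.log L) ^ 2 ≤ (r : ℝ) ^ d ∧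
      (∀ a, 0 ≤ S.w a) ∧ ∑ a, S.w a = 1 ∧
      SlabMix (QK.tr d L) h S (QK.box d L b) ∧
      (∀ a, QK.Dis (QK.box d L b) (S.good a)) ∧
      ∀ M0 : Finset (Fin d → ZMod L), QK.Dis (QK.box d L b) M0 →
        QK.EL S.w J (fun l => open Classical in
          if GoodEnv (envS S l) (envW S (QK.box d L b) M0 l) J (b ^ d) r c1 M Kw then 0 else 1)
          ≤ 1 / L := by
  obtain ⟨c, hc, hkge⟩ := QK.hk_ge d
  have hK1 : (1 : ℝ) ≤ (2 * d + 6 : ℕ) := by exact_mod_cast (by omega : 1 ≤ 2 * d + 6)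
  obtain ⟨R, A₀, c1, hc1, hpar⟩ := QK.params d hd hc (4 * d + 8) ((4 * d + 8) * d) le_rfl
    ((2 * d + 6 : ℕ) : ℝ) hK1
  obtain ⟨B, hB⟩ := hpar (max A₀ 8) (le_max_left _ _)
  have hA8 : 8 ≤ max A₀ 8 := le_max_right _ _
  generalize max A₀ 8 = A at hB hA8
  refine ⟨A + 1, B, c1, hc1, ?_⟩
  filter_upwards [hB, par_hidden d (4 * d + 8) A (by omega) (by omega) (by omega), ev_log_ge 2,
    eventually_ge_atTop 100] with L hL1 hL2 hlog hL100
  intro _
  have hlog1 : 1 ≤ Real.log L := by linarith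
  have hx1 : 1 ≤ Real.log L ^ A := one_le_pow₀ hlog1
  obtain ⟨b, hbdef⟩ : ∃ b : ℕ, b = ⌈Real.log L ^ A⌉₊ := ⟨_, rfl⟩
  have hb1 : Real.log L ^ A ≤ b := by rw [hbdef]; exact Nat.le_ceil _
  have hb2 : (b : ℝ) ≤ 2 * Real.log L ^ A := by
    have := Nat.ceil_lt_add_one (zero_le_one.trans hx1)
    rw [← hbdef] at this
    linarith
  obtain ⟨p1, p2, p3, p4, p5, p6, p7, p8⟩ := hL2 b hb1 hb2
  obtain ⟨h, hh1, hh2, Ω, iΩ, S, Λ, ν, HS, hcard, hν, hmix, hgood⟩ :=
    HC.hidden_coins (d := d) (L := L) (by omega) (b := b) (r := b ^ (4 * d + 8))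
      (h₀ := (b : ℝ) ^ (4 * d + 8)) p1 p2 p3 p4
      (by push_cast at p5 ⊢; exact p5) p6
  rw [box_eq] at HS hν hgood
  have hbr : (1 : ℝ) ≤ b := by exact_mod_cast p1
  have hL0 : (0 : ℝ) < L := by
    have : 0 < L := by omega
    exact_mod_cast this
  have hbL : b ≤ L := by
    have h1 : b ≤ b ^ (4 * d + 8) := Nat.le_self_pow (by omega) b
    omega
  have hcb : (QK.box d L b).card = b ^ d := QK.card_box hbL
  have hdens : QK.dens (Fin d → ZMod L) (QK.box d L b) Λ =
      (((L / b ^ (4 * d + 8)) ^ d : ℕ) : ℝ) * ((b ^ d : ℕ) : ℝ) / ((L ^ d : ℕ) : ℝ) := by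
    unfold QK.dens
    rw [hcard, hcb, QK.card_V]
    push_cast
    rfl
  obtain ⟨J, Jg, m₀, r, δ, ρ, α, Mm, hP, q1, q2, q3, q4, q5, q6⟩ :=
    hL1 b hb1 hb2 h hh1 hh2 (QK.dens (Fin d → ZMod L) (QK.box d L b) Λ)
      (by rw [hdens]; exact p7) (by rw [hdens]; exact p8)
  have hJ2 : 2 ≤ J := by
    have h1 := hP.l5
    have h2 := hP.hJg
    have h3 : Jg ≤ R * (2 * Jg) + m₀ + Jg := by omega
    omega
  have hba1 : (1 : ℝ) ≤ (b : ℝ) ^ (4 * d + 8) := one_le_pow₀ hbr
  have hJL : (J : ℝ) ≤ L := by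
    refine le_trans ?_ q2
    have : (0 : ℝ) ≤ J := Nat.cast_nonneg _
    nlinarith
  have hh0 : 0 ≤ h := by linarith [hP.hh]
  have hbd0 : (0 : ℝ) ≤ (b : ℝ) ^ d := by positivity
  refine ⟨b, J, r, h, (b : ℝ) ^ d * Mm,
    2 * QK.dens (Fin d → ZMod L) (QK.box d L b) Λ * J + ((2 * d + 6 : ℕ) : ℝ) * Real.log L + 1,
    Ω, iΩ, S, p1, hbL, ?_, ?_, by omega, hJL, hh0, ?_, ?_, q4, mul_nonneg hbd0 q5, q6, q3,
    HS.w_nonneg, HS.w_sum, slabMix_of HS.w_nonneg hν hmix, HS.allDis, ?_⟩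
  · exact (pow_le_pow_right₀ hlog1 hA8).trans hb1
  · refine hb2.trans ?_
    rw [pow_succ, mul_comm]
    exact mul_le_mul_of_nonneg_left hlog (by linarith)
  · exact (mul_le_mul_of_nonneg_left hh2 (Nat.cast_nonneg _)).trans q1
  · have h1 := hP.l9
    have h2 : (2 : ℝ) ≤ b := by
      refine le_trans ?_ hb1
      refine hlog.trans ?_
      conv_lhs => rw [← pow_one (Real.log L)]
      exact pow_le_pow_right₀ hlog1 (by omega)
    have h3 : 2 ≤ b := by exact_mod_cast h2
    omega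
  · intro M0 hM0
    have h1 := QK.pr_goodEnv (by omega : 1 ≤ d) hP hc
      (fun s hs x y => hkge L (by omega) s hs x y) HS rfl hgood q5 M0 hM0
    unfold QK.Pr at h1
    refine le_trans (le_of_eq ?_) (h1.trans ?_)
    · refine QK.EL_congr _ fun l _ => ?_
      rw [envS_eq, envW_eq]
      split_ifs <;> first | rfl | (exfalso; tauto)
    · have h2 : Real.exp (-(((2 * d + 6 : ℕ) : ℝ) * Real.log L)) = 1 / (L : ℝ) ^ (2 * d + 6) := by
        rw [Real.exp_neg, mul_comm, ← Real.rpow_def_of_pos hL0, Real.rpow_natCast, one_div]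
      rw [h2]
      have hL1' : (1 : ℝ) ≤ L := by
        have : 1 ≤ L := by omega
        exact_mod_cast this
      have hL9 : (100 : ℝ) ≤ L := by exact_mod_cast hL100
      have h3 : ((J : ℝ) + 1) ^ 3 ≤ (2 * L) ^ 3 :=
        pow_le_pow_left₀ (by positivity) (by linarith) 3
      calc ((J : ℝ) + 1) ^ 3 * (10 * ((L : ℝ) ^ d) ^ 2 * (1 / (L : ℝ) ^ (2 * d + 6)))
          ≤ (2 * L) ^ 3 * (10 * ((L : ℝ) ^ d) ^ 2 * (1 / (L : ℝ) ^ (2 * d + 6))) :=
            mul_le_mul_of_nonneg_right h3 (by positivity)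
        _ = 80 / (L : ℝ) ^ 3 := by
            have : (L : ℝ) ^ (2 * d + 6) = (L : ℝ) ^ 6 * ((L : ℝ) ^ d) ^ 2 := by ring
            rw [this]
            field_simp
            ring
        _ ≤ 1 / L := by
            rw [div_le_div_iff₀ (by positivity) hL0]
            nlinarith [mul_pos hL0 hL0, mul_pos (mul_pos hL0 hL0) hL0]

end Pool.Agent.PL
end
end

section

/-! Local version of block (2): the sets of sites. -/

open Finset

set_option linter.unusedSectionVars false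

namespace Pool.Agent.Stirring.QL

open Pool.Agent.Stirring.QK
open Pool.Agent.PL (dp near)

variable {d L : ℕ} [NeZero L]

/-- Sites within distance `r / 8` of the deep box. -/
noncomputable def DD (o : Fin d → ZMod L) (s r : ℕ) : Finset (Fin d → ZMod L) :=
  open Classical in univ.filter fun v => ∃ u, dp o s u ∧ near (r / 8) v u

/-- Base points of the cubes which are contained in `DD`. -/
noncomputable def DB (o : Fin d → ZMod L) (s r b : ℕ) : Finset (Fin d → ZMod L) :=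
  open Classical in univ.filter fun q => ∀ y ∈ box d L b, q + y ∈ DD o s r

/-- Sites all of whose cubes are contained in `DD`. -/
noncomputable def D2 (o : Fin d → ZMod L) (s r b : ℕ) : Finset (Fin d → ZMod L) :=
  open Classical in univ.filter fun z => ∀ q, z - q ∈ box d L b → q ∈ DB o s r b

variable {o : Fin d → ZMod L} {s r b : ℕ}

theorem mem_DD {v : Fin d → ZMod L} : v ∈ DD o s r ↔ ∃ u, dp o s u ∧ near (r / 8) v u := by
  classical
  simp [DD]

theorem mem_DB {q : Fin d → ZMod L} : q ∈ DB o s r b ↔ ∀ y ∈ box d L b, q + y ∈ DD o s r := by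
  classical
  simp [DB]

theorem mem_D2 {z : Fin d → ZMod L} :
    z ∈ D2 o s r b ↔ ∀ q, z - q ∈ box d L b → q ∈ DB o s r b := by
  classical
  simp [D2]

theorem near_refl (r : ℕ) (v : Fin d → ZMod L) : near r v v := by
  intro i
  rw [sub_self, ZMod.valMinAbs_zero]
  simp

theorem dp_mem_DD {v : Fin d → ZMod L} (h : dp o s v) : v ∈ DD o s r :=
  mem_DD.2 ⟨v, h, near_refl _ _⟩

theorem zero_mem_box (hb : 1 ≤ b) : (0 : Fin d → ZMod L) ∈ box d L b := by
  unfold QK.box
  rw [Finset.mem_image]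
  refine ⟨fun _ => ⟨0, hb⟩, Finset.mem_univ _, ?_⟩
  funext i
  simp

theorem DB_subset (hb : 1 ≤ b) : DB o s r b ⊆ DD o s r := by
  intro q hq
  have h := mem_DB.1 hq 0 (zero_mem_box hb)
  rwa [add_zero] at h

theorem D2_subset (hb : 1 ≤ b) : D2 o s r b ⊆ DD o s r := by
  intro z hz
  have h := mem_D2.1 hz z (by rw [sub_self]; exact zero_mem_box hb)
  exact DB_subset hb h

/-- coordinates of the sites of a cube -/
theorem box_coord {y : Fin d → ZMod L} (hy : y ∈ box d L b) (i : Fin d) :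
    ∃ j : ℕ, j < b ∧ y i = ((j : ℕ) : ZMod L) := by
  unfold QK.box at hy
  rw [Finset.mem_image] at hy
  obtain ⟨j, -, rfl⟩ := hy
  exact ⟨(j i : ℕ), (j i).2, rfl⟩

/-- `|z + (j' - j)| ≤ |z| + b` -/
theorem abs_shift (z : ZMod L) {j j' : ℕ} (hj : j < b) (hj' : j' < b) {m : ℕ}
    (hz : z.valMinAbs.natAbs ≤ m) :
    ((z - (j : ZMod L) + (j' : ZMod L)).valMinAbs).natAbs ≤ m + b := by
  have h1 : z - (j : ZMod L) + (j' : ZMod L) =
      ((z.valMinAbs + ((j' : ℤ) - (j : ℤ)) : ℤ) : ZMod L) := by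
    push_cast [ZMod.coe_valMinAbs]
    ring
  rw [h1]
  have h4 : ((((z.valMinAbs + ((j' : ℤ) - (j : ℤ)) : ℤ) : ZMod L).valMinAbs).natAbs) ≤
      (z.valMinAbs + ((j' : ℤ) - (j : ℤ))).natAbs :=
    ZMod.natAbs_min_of_le_div_two L _ _ (by simp) (ZMod.natAbs_valMinAbs_le _)
  omega

theorem nrm_coord {m : ℕ} {v : Fin d → ZMod L} (h : (nrm v : ℝ) ≤ m) (i : Fin d) :
    (v i).valMinAbs.natAbs ≤ m := by
  have h1 : nrm v ≤ m := by exact_mod_cast h
  refine le_trans ?_ h1
  unfold nrm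
  exact Finset.le_sup (f := fun i => (v i).valMinAbs.natAbs) (Finset.mem_univ i)

/-- The ball around a deep point is contained in `D2`. -/
theorem ball_D2 {ρ : ℝ} (hbρ : (b : ℝ) ≤ ρ) (hb : 1 ≤ b) (hρ : 64 * ρ ≤ r)
    {v z : Fin d → ZMod L} (hv : dp o s v) (hz : (nrm (z - v) : ℝ) ≤ 4 * ρ) :
    z ∈ D2 o s r b := by
  refine mem_D2.2 fun q hq => mem_DB.2 fun y hy => mem_DD.2 ⟨v, hv, fun i => ?_⟩
  obtain ⟨j, hj, hj1⟩ := box_coord hq i
  obtain ⟨j', hj', hj1'⟩ := box_coord hy i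
  have hρ0 : 0 ≤ ρ := (Nat.cast_nonneg b).trans hbρ
  have hb1 : (1 : ℝ) ≤ b := by exact_mod_cast hb
  have h1 : (q + y) i - v i = (z - v) i - (j : ZMod L) + (j' : ZMod L) := by
    rw [Pi.sub_apply] at hj1
    rw [Pi.add_apply, Pi.sub_apply, ← hj1, ← hj1']
    ring
  rw [h1]
  have h2 : (nrm (z - v) : ℝ) ≤ (⌊4 * ρ⌋₊ : ℕ) := by
    exact_mod_cast Nat.le_floor hz
  have h3 := abs_shift ((z - v) i) hj hj' (nrm_coord h2 i)
  have h4 : ⌊4 * ρ⌋₊ + b ≤ r / 8 := by
    rw [Nat.le_div_iff_mul_le (by norm_num)]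
    have h5 : (⌊4 * ρ⌋₊ : ℝ) ≤ 4 * ρ := Nat.floor_le (by positivity)
    have h6 : (((⌊4 * ρ⌋₊ + b) * 8 : ℕ) : ℝ) ≤ r := by
      push_cast
      nlinarith
    exact_mod_cast h6
  rw [Int.abs_eq_natAbs]
  omega

/-- Number of sites. -/
theorem card_DD (o : Fin d → ZMod L) (s r : ℕ) : (DD o s r).card ≤ (s + r) ^ d := by
  classical
  have h1 : DD o s r ⊆ (Finset.univ : Finset (Fin d → Fin (s + r))).image
      (fun k i => o i + ((((k i : ℕ) : ℤ) - ((r / 8 : ℕ) : ℤ) : ℤ) : ZMod L)) := by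
    intro v hv
    obtain ⟨u, hu, hvu⟩ := mem_DD.1 hv
    rw [Finset.mem_image]
    have h2 : ∀ i, ∃ k : Fin (s + r), v i =
        o i + ((((k : ℕ) : ℤ) - ((r / 8 : ℕ) : ℤ) : ℤ) : ZMod L) := by
      intro i
      have h3 := hu i
      have h4 := hvu i
      rw [Int.abs_eq_natAbs] at h4
      set a := (u i - o i).val with ha
      set c := (v i - u i).valMinAbs with hc
      have h5 : v i = o i + (((a : ℤ) + c : ℤ) : ZMod L) := by
        push_cast [hc, ha, ZMod.coe_valMinAbs, ZMod.natCast_zmod_val]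
        ring
      refine ⟨⟨((a : ℤ) + c + ((r / 8 : ℕ) : ℤ)).toNat, by omega⟩, ?_⟩
      rw [h5]
      congr 2
      simp only
      omega
    choose k hk using h2
    exact ⟨k, Finset.mem_univ _, funext fun i => (hk i).symm⟩
  calc (DD o s r).card ≤ _ := Finset.card_le_card h1
    _ ≤ (Finset.univ : Finset (Fin d → Fin (s + r))).card := Finset.card_image_le
    _ = (s + r) ^ d := by simp

end Pool.Agent.Stirring.QL
end

section

section

/-! Local version of block (2): from the conditions on the list of slabs to `GoodEnvL`. -/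

open Finset

set_option linter.unusedSectionVars false

namespace Pool.Agent.Stirring.QL

open Pool.Agent.Stirring.QK
open Pool.Agent.PL (dp near win wm kr)

variable {d L : ℕ} [NeZero L] {Ω : Type*} [Fintype Ω]
variable {S : Slab (Fin d → ZMod L) Ω} {Λ K₀ : Finset (Fin d → ZMod L)}
variable {h δ lam ρ Kw Mm c2 : ℝ} {Jg t0 m₀ b : ℕ}
variable {o : Fin d → ZMod L} {s r : ℕ}

theorem dp_mem_DB (hbr : 8 * b ≤ r) {v : Fin d → ZMod L} (hv : dp o s v) : v ∈ DB o s r b := by
  refine mem_DB.2 fun y hy => mem_DD.2 ⟨v, hv, fun i => ?_⟩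
  obtain ⟨j, hj, hj1⟩ := box_coord hy i
  have h1 : (v + y) i - v i = 0 - ((0 : ℕ) : ZMod L) + (j : ZMod L) := by
    rw [Pi.add_apply, hj1]
    push_cast
    ring
  rw [h1]
  have h2 := abs_shift (m := 0) (b := b) (0 : ZMod L) (j := 0) (j' := j) (by omega) hj
    (by rw [ZMod.valMinAbs_zero]; simp)
  rw [Int.abs_eq_natAbs]
  omega

/-- `near` from the norm -/
theorem nrm_sub_le (x y z : Fin d → ZMod L) : (nrm (x - z) : ℝ) ≤ nrm (x - y) + nrm (y - z) := by
  have h1 : nrm (x - z) ≤ nrm (x - y) + nrm (y - z) := by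
    have h2 : x - z = (x - y) + (y - z) := by abel
    rw [h2]
    unfold nrm
    refine Finset.sup_le fun i _ => ?_
    have h3 : (((x - y) + (y - z)) i).valMinAbs.natAbs ≤
        ((x - y) i).valMinAbs.natAbs + ((y - z) i).valMinAbs.natAbs :=
      (ZMod.natAbs_valMinAbs_add_le _ _).trans (Int.natAbs_add_le _ _)
    exact h3.trans (add_le_add
      (Finset.le_sup (f := fun i => ((x - y) i).valMinAbs.natAbs) (Finset.mem_univ i))
      (Finset.le_sup (f := fun i => ((y - z) i).valMinAbs.natAbs) (Finset.mem_univ i)))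
  exact_mod_cast h1

/-- The mean over the sites of a window, for `f` bounded on the window. -/
theorem mean_le_win {Q : Finset (Fin d → ZMod L)} (hQ : Q.Nonempty) (q : Fin d → ZMod L)
    {f : (Fin d → ZMod L) → ℝ} {K : ℝ} (hf : ∀ y ∈ Q, f (q + y) ≤ K) :
    ∑ z, cu Q q z * f z ≤ K := by
  rw [g7_cu_mul]
  have hc : (0 : ℝ) < Q.card := by exact_mod_cast Finset.card_pos.2 hQ
  rw [div_le_iff₀ hc]
  calc ∑ y ∈ Q, f (q + y) ≤ ∑ _y ∈ Q, K := Finset.sum_le_sum hf
    _ = K * Q.card := by rw [Finset.sum_const, nsmul_eq_mul]; ring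

/-- **From the conditions to `GoodEnvL`.** -/
theorem goodEnvL (hb : 1 ≤ b) (hbL : b ≤ L) (hD : AllDis S (box d L b))
    (hsub : ∀ a, S.good a ⊆ Λ.image (S.sh a + ·))
    (hK₀ : Dis (box d L b) K₀) (hr : 8 * b ≤ r) {c1 : ℝ} (hMm : 0 ≤ Mm) (hKw : 0 ≤ Kw)
    (hgD : ∀ a, S.good a ⊆ DB o s r b) (hKD : K₀ ⊆ DB o s r b)
    {l : List Ω} {E2 : Finset (Fin d → ZMod L)} (hJ1 : 1 ≤ l.length)
    (hl : Dec (CondsL S (box d L b) Λ (DD o s r) E2 h δ lam ρ Kw Mm c2 Jg t0 m₀ r) l)
    (hlow : ∀ v v', dp o s v → dp o s v' → (nrm (v' - v) : ℝ) ≤ r →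
      c1 / (r : ℝ) ^ d ≤ fw S (box d L b) l (dl v) v')
    (hlowF : ∀ l₀ B, l = l₀ ++ B → l.length ≤ 2 * B.length → ∀ q ∈ DB o s r b, ∀ v', dp o s v' →
      (nrm (v' - q) : ℝ) ≤ r + b → c1 / (r : ℝ) ^ d ≤ fw S (box d L b) B (cu (box d L b) q) v')
    (hlowB : ∀ B a l₃, l = B ++ a :: l₃ → l.length ≤ 2 * (B.length + 1) → ∀ v, dp o s v →
      ∀ q ∈ S.good a, ∀ v', v' - q ∈ box d L b → (nrm (v' - v) : ℝ) ≤ r →
        c1 / (r : ℝ) ^ d ≤ fw S (box d L b) (B ++ [a]) (dl v) v') :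
    Pool.Agent.PL.GoodEnvL (envS S l) (envW S (box d L b) K₀ l) l.length (b ^ d) r c1
      ((b : ℝ) ^ d * Mm) (Kw + 1) o s := by
  have hQ : (box d L b).Nonempty := g7_box_ne hb
  have hbr : (0 : ℝ) < (b : ℝ) ^ d := by
    have : (0 : ℝ) < b := by exact_mod_cast (by omega : 0 < b)
    positivity
  -- the windows of all levels have their base points in `DB`
  have hlev : ∀ j, lev S K₀ l j ⊆ DB o s r b := by
    intro j
    cases j with
    | zero => exact hKD
    | succ j =>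
      rcases h : l[j]? with _ | a
      · rw [g7_lev_none h]
        exact Finset.empty_subset _
      · rw [g7_lev_succ h]
        exact hgD a
  refine ⟨?_, ?_, ?_, ?_, ?_, ?_, ?_, ?_, ?_⟩
  · -- card
    intro j _ x hx
    rw [g7_win] at hx ⊢
    by_cases h : x ∈ lev S K₀ l j
    · rw [g7_card (g7_lev_dis hD hK₀ l j) h, card_box hbL]
    · rw [g7_filter_none (g7_lev_dis hD hK₀ l j) h] at hx
      exact absurd hx Finset.not_nonempty_empty
  · -- diam
    intro j _ x v hv v' hv'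
    rw [g7_win] at hv hv'
    by_cases h : x ∈ lev S K₀ l j
    · rw [g7_filter (g7_lev_dis hD hK₀ l j) h, Finset.mem_image] at hv hv'
      obtain ⟨y, hy, rfl⟩ := hv
      obtain ⟨y', hy', rfl⟩ := hv'
      intro i
      obtain ⟨j1, hj1, hj1'⟩ := box_coord hy i
      obtain ⟨j2, hj2, hj2'⟩ := box_coord hy' i
      have h1 : (x + y) i - (x + y') i = 0 - (j2 : ZMod L) + (j1 : ZMod L) := by
        rw [Pi.add_apply, Pi.add_apply, hj1', hj2']
        ring
      rw [h1]
      have h2 := abs_shift (m := 0) (b := b) (0 : ZMod L) (j := j2) (j' := j1) hj2 hj1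
        (by rw [ZMod.valMinAbs_zero]; simp)
      rw [Int.abs_eq_natAbs]
      omega
    · rw [g7_filter_none (g7_lev_dis hD hK₀ l j) h] at hv
      exact absurd hv (Finset.notMem_empty v)
  · -- act
    intro j _ v hv
    rw [g7_envW] at hv
    obtain ⟨x, hx⟩ := Option.ne_none_iff_exists'.1 hv
    obtain ⟨h1, h2⟩ := (g7_col_some (g7_lev_dis hD hK₀ l j)).1 hx
    have h3 := mem_DB.1 (hlev j h1) (v - x) h2
    rw [add_sub_cancel] at h3
    exact mem_DD.1 h3
  · -- low
    intro v v' hv hv' hvv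
    have h1 := kr_eq_fw (K₀ := K₀) hD l 0 l.length (by omega) (Pi.single v 1)
    rw [h1, List.drop_zero, List.take_length]
    exact hlow v v' hv hv' (g7_near hvv)
  · -- lowF
    intro i hi x v hv v' hv' hvv
    have hiL : i ≤ l.length := by omega
    rw [g7_win] at hv
    by_cases hx : x ∈ lev S K₀ l i
    swap
    · rw [g7_filter_none (g7_lev_dis hD hK₀ l i) hx] at hv
      exact absurd hv (Finset.notMem_empty v)
    have h0 : (∑ a ∈ win (envW S (box d L b) K₀ l) i x,
        kr (envS S l) (envW S (box d L b) K₀ l) i (l.length - i) (Pi.single a 1) v') /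
          ((b ^ d : ℕ) : ℝ) = fw S (box d L b) (l.drop i) (cu (box d L b) x) v' := by
      rw [g7_fw_lin, g7_cu_mul, g7_win, g7_sum (g7_lev_dis hD hK₀ l i) hx, card_box hbL]
      congr 1
      refine Finset.sum_congr rfl fun y _ => ?_
      rw [kr_eq_fw hD l i (l.length - i) (by omega)]
      have h2 : (l.drop i).take (l.length - i) = l.drop i := by
        rw [← List.length_drop, List.take_length]
      rw [h2]
      rfl
    rw [h0]
    rw [g7_filter (g7_lev_dis hD hK₀ l i) hx, Finset.mem_image] at hv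
    obtain ⟨y, hy, rfl⟩ := hv
    refine hlowF (l.take i) (l.drop i) (List.take_append_drop i l).symm
      (by rw [List.length_drop]; omega) x (hlev i hx) v' hv' ?_
    refine (nrm_sub_le v' (x + y) x).trans (add_le_add (g7_near hvv) ?_)
    rw [add_sub_cancel_left]
    have h5 := nrm_box hy (zero_mem_box hb)
    rw [sub_zero] at h5
    exact_mod_cast h5
  · -- lowB
    intro j hj hj2 v hv v' hv' hvv
    have hj0 : j ≠ 0 := by
      rintro rfl
      omega
    obtain ⟨j, rfl⟩ : ∃ j', j = j' + 1 := ⟨j - 1, by omega⟩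
    obtain ⟨a, ha⟩ : ∃ a, l[j]? = some a := ⟨l[j], List.getElem?_eq_getElem (by omega)⟩
    rw [g7_envW, g7_lev_succ ha] at hv'
    obtain ⟨q, hq⟩ := Option.ne_none_iff_exists'.1 hv'
    obtain ⟨hq1, hq2⟩ := (g7_col_some (hD a)).1 hq
    have h1 := kr_eq_fw (K₀ := K₀) hD l 0 (j + 1) (by omega) (Pi.single v 1)
    have h2 : (l.drop 0).take (j + 1) = l.take j ++ [a] := by
      have h3 := g7_take_succ (l := l) (i := 0) (k := j) (a := a) (by rw [Nat.zero_add]; exact ha)
      rw [h3, List.drop_zero]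
    rw [h1, h2]
    refine hlowB (l.take j) a (l.drop (j + 1)) ?_ ?_ v hv q hq1 v' hq2 (g7_near hvv)
    · have h5 : j < l.length := by omega
      have h3 : a :: l.drop (j + 1) = l.drop j := by
        rw [List.drop_eq_getElem_cons h5]
        congr 1
        have h4 := List.getElem?_eq_getElem h5
        rw [ha] at h4
        exact Option.some.inj h4
      rw [h3, List.take_append_drop]
    · rw [List.length_take]
      omega
  · -- mass
    intro i j hij hj x y
    have hM : ((b : ℝ) ^ d * Mm) / ((b ^ d : ℕ) : ℝ) = Mm := by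
      push_cast
      field_simp
    rw [hM]
    by_cases hx : x ∈ lev S K₀ l i
    swap
    · rw [g7_wm_zero_left hD hK₀ l hx]
      exact hMm
    by_cases hy : y ∈ lev S K₀ l j
    swap
    · rw [g7_wm_zero_right hD hK₀ l x hy]
      exact hMm
    have hxD : x ∈ DD o s r := DB_subset hb (hlev i hx)
    have hyD : y ∈ DD o s r := DB_subset hb (hlev j hy)
    rw [g7_wm_f hbL hD hK₀ l hij.le hj hx]
    obtain ⟨k, rfl⟩ : ∃ k, j = i + k + 1 := ⟨j - i - 1, by omega⟩
    obtain ⟨a, ha⟩ : ∃ a, l[i + k]? = some a := ⟨l[i + k], List.getElem?_eq_getElem (by omega)⟩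
    have h1 : i + k + 1 - i = k + 1 := by omega
    rw [h1, g7_take_succ ha, g7_win, g7_sum (g7_lev_dis hD hK₀ l _) hy]
    rw [g7_lev_succ ha] at hy
    have h2 : ∀ z ∈ box d L b, fw S (box d L b) ((l.drop i).take k ++ [a]) (cu (box d L b) x)
        (y + z) = (∑ z' ∈ box d L b, fw S (box d L b) ((l.drop i).take k) (cu (box d L b) x)
          (S.T a (y + z'))) / (box d L b).card := by
      intro z hz
      rw [fw_snoc]
      exact avg_in (hD a) _ hy (by rw [add_sub_cancel_left]; exact hz)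
    rw [Finset.sum_congr rfl h2, Finset.sum_const, nsmul_eq_mul]
    have hc : (0 : ℝ) < (box d L b).card := by exact_mod_cast Finset.card_pos.2 hQ
    rw [mul_div_cancel₀ _ hc.ne']
    refine (hl (l.take i) ((l.drop i).take k) [a] (l.drop (i + k + 1)) ?_).mass a rfl x hxD y hyD
    rw [List.append_assoc (l.take i), ← g7_take_succ ha, List.append_assoc]
    have h3 : l.drop (i + k + 1) = (l.drop i).drop (k + 1) := by
      rw [List.drop_drop, add_assoc]
    rw [h3, List.take_append_drop, List.take_append_drop]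
  · -- num
    intro i hi x
    by_cases hx : x ∈ lev S K₀ l i
    swap
    · rw [Finset.sum_eq_zero fun j _ => Finset.sum_eq_zero fun y _ =>
        g7_wm_zero_left hD hK₀ l hx y]
      linarith
    have h1 : ∑ j ∈ Ioc i l.length, ∑ y, Pool.Agent.PL.wm (envS S l)
        (envW S (box d L b) K₀ l) (b ^ d) i x j y =
        ∑ k ∈ range (l.drop i).length, g7F S (box d L b) (l.drop i) (cu (box d L b) x) k := by
      rw [List.length_drop]
      refine Finset.sum_bij' (fun j _ => j - i - 1) (fun k _ => i + k + 1) ?_ ?_ ?_ ?_ ?_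
      · intro j hj
        rw [Finset.mem_Ioc] at hj
        rw [Finset.mem_range]
        omega
      · intro k hk
        rw [Finset.mem_range] at hk
        rw [Finset.mem_Ioc]
        omega
      · intro j hj
        rw [Finset.mem_Ioc] at hj
        omega
      · intro k _
        omega
      · intro j hj
        rw [Finset.mem_Ioc] at hj
        obtain ⟨k, rfl⟩ : ∃ k, j = i + k + 1 := ⟨j - i - 1, by omega⟩
        obtain ⟨a, ha⟩ : ∃ a, l[i + k]? = some a :=
          ⟨l[i + k], List.getElem?_eq_getElem (by omega)⟩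
        have h2 : i + k + 1 - i - 1 = k := by omega
        have h3 : i + k + 1 - i = k + 1 := by omega
        rw [h2]
        have h4 : ∀ y, Pool.Agent.PL.wm (envS S l) (envW S (box d L b) K₀ l) (b ^ d) i x
            (i + k + 1) y = ∑ v' ∈ univ.filter (fun v => col (box d L b) (S.good a) v = some y),
            avg (box d L b) (S.good a) (fun z => fw S (box d L b) ((l.drop i).take k)
              (cu (box d L b) x) (S.T a z)) v' := by
          intro y
          rw [g7_wm_f hbL hD hK₀ l (by omega) hj.2 hx, h3, g7_take_succ ha, g7_win,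
            g7_lev_succ ha]
          refine Finset.sum_congr rfl fun v' _ => ?_
          rw [fw_snoc]
          rfl
        rw [Finset.sum_congr rfl fun y _ => h4 y, g7_sum_all (hD a), g7_avg_in]
        unfold g7F
        rw [List.getElem?_drop, ha]
    rw [h1]
    refine (g7_sum_F hD hsub _ fun z => g7_cu_nonneg x z).trans ?_
    rw [g7_cnt_lin]
    refine (mean_le_win hQ x fun y hy => (hl (l.take i) [] (l.drop i) [] ?_).num (x + y)
      (mem_DB.1 (hlev i hx) y hy)).trans ?_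
    · rw [List.append_nil, List.append_nil, List.take_append_drop]
    · linarith
  · -- num'
    intro j hj y
    by_cases hy : y ∈ lev S K₀ l j
    swap
    · rw [Finset.sum_eq_zero fun i _ => Finset.sum_eq_zero fun x _ =>
        g7_wm_zero_right hD hK₀ l x hy]
      linarith
    rcases j with _ | j
    · rw [Finset.range_zero, Finset.sum_empty]
      linarith
    have h0 : ∀ i ∈ range (j + 1), ∑ x, Pool.Agent.PL.wm (envS S l)
        (envW S (box d L b) K₀ l) (b ^ d) i x (j + 1) y =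
        ∑ v, if InWin (box d L b) (lev S K₀ l i) v then
          bw S (box d L b) ((l.take (j + 1)).drop i) (cu (box d L b) y) v else 0 := by
      intro i hi
      rw [Finset.mem_range] at hi
      rw [← g7_sum_all (g7_lev_dis hD hK₀ l i)]
      refine Finset.sum_congr rfl fun x _ => ?_
      rw [g7_wm_b hbL hD hK₀ l hi.le hj x hy, g7_win, List.drop_take]
    rw [Finset.sum_congr rfl h0, Finset.sum_range_succ', add_comm]
    rw [add_comm Kw 1]
    refine add_le_add ?_ ?_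
    · calc _ ≤ ∑ v, bw S (box d L b) ((l.take (j + 1)).drop 0) (cu (box d L b) y) v := by
            refine Finset.sum_le_sum fun v _ => ?_
            split_ifs
            · exact le_rfl
            · exact bw_nonneg hD _ (fun z => g7_cu_nonneg y z) v
        _ = 1 := by rw [bw_sum, g7_cu_sum hQ]
    · have h1 : ∑ k ∈ range j, (∑ v, if InWin (box d L b) (lev S K₀ l (k + 1)) v then
          bw S (box d L b) ((l.take (j + 1)).drop (k + 1)) (cu (box d L b) y) v else 0) =
          ∑ k ∈ range j, g7B S (box d L b) (l.take (j + 1)) (cu (box d L b) y) k := by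
        refine Finset.sum_congr rfl fun k hk => ?_
        rw [Finset.mem_range] at hk
        obtain ⟨a, ha⟩ : ∃ a, l[k]? = some a := ⟨l[k], List.getElem?_eq_getElem (by omega)⟩
        rw [g7_lev_succ ha]
        unfold g7B
        rw [List.getElem?_take_of_lt (by omega), ha]
      rw [h1]
      have h2 : ∑ k ∈ range j, g7B S (box d L b) (l.take (j + 1)) (cu (box d L b) y) k ≤
          ∑ k ∈ range (l.take (j + 1)).length,
            g7B S (box d L b) (l.take (j + 1)) (cu (box d L b) y) k := by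
        refine Finset.sum_le_sum_of_subset_of_nonneg ?_ ?_
        · intro k hk
          rw [Finset.mem_range] at hk ⊢
          rw [List.length_take]
          omega
        · intro k _ _
          unfold g7B
          split
          · refine Finset.sum_nonneg fun z _ => ?_
            split_ifs
            · exact bw_nonneg hD _ (fun z => g7_cu_nonneg y z) z
            · exact le_rfl
          · exact le_rfl
      refine h2.trans ((g7_sum_B hD hsub _ fun z => g7_cu_nonneg y z).trans ?_)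
      rw [g7_bcnt_lin]
      refine mean_le_win hQ y fun z hz => (hl [] [] (l.take (j + 1)) (l.drop (j + 1)) ?_).num'
        (y + z) (mem_DB.1 (hlev (j + 1) hy) z hz)
      rw [List.nil_append, List.nil_append, List.take_append_drop]

end Pool.Agent.Stirring.QL
end

section

/-! Local version of block (2): the lower bounds and `GoodEnvL` for a good list of slabs. -/

open Finset

set_option linter.unusedSectionVars false

namespace Pool.Agent.Stirring.QL

open Pool.Agent.Stirring.QK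
open Pool.Agent.PL (dp near)

variable {d L : ℕ} [NeZero L] {Ω : Type*} [Fintype Ω]
variable {S : Slab (Fin d → ZMod L) Ω} {Λ K₀ : Finset (Fin d → ZMod L)}
variable {b J Jg R m₀ r s : ℕ} {c h δ lam ρ α p p' Mm c1 c2 : ℝ} {o : Fin d → ZMod L}

/-- The constant of the lower bounds. -/
theorem c1_le (P : ParL d L b J Jg R m₀ r c h δ lam ρ α p p' Mm c1 c2) (hc : 0 < c) :
    c1 / (r : ℝ) ^ d ≤ kap d J c h / 16 ∧ c1 / (r : ℝ) ^ d ≤ c2 * (kap d J c h / 16) := by
  have h1 := P.l7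
  have h0 := kap_nonneg (d := d) (h := h) hc J
  have h2 : c * (1 / Real.sqrt ((J + 1) * h)) ^ d = kap d J c h := rfl
  rw [h2] at h1
  have h3 : c2 * (kap d J c h / 16) ≤ kap d J c h / 16 := by
    have := P.c2le
    have := P.c2pos
    nlinarith
  exact ⟨h1.trans h3, h1⟩

/-- **A good list of slabs is a good environment.** -/
theorem goodEnvL_of_dec (P : ParL d L b J Jg R m₀ r c h δ lam ρ α p p' Mm c1 c2) (hc : 0 < c)
    (hkge : ∀ s : ℝ, 1 ≤ s → ∀ x y : Fin d → ZMod L, (nrm (y - x) : ℝ) ≤ c * Real.sqrt s →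
      c * (1 / Real.sqrt s) ^ d ≤ hk d L s x y) (hD : AllDis S (box d L b))
    (hsub : ∀ a, S.good a ⊆ Λ.image (S.sh a + ·)) (hK₀ : Dis (box d L b) K₀) (hMm : 0 ≤ Mm)
    (hgD : ∀ a, S.good a ⊆ DB o s r b) (hKD : K₀ ⊆ DB o s r b)
    {l : List Ω} (hlJ : l.length = J)
    (hl : Dec (CondsL S (box d L b) Λ (DD o s r) (D2 o s r b) h δ lam ρ (2 * p * J + lam) Mm c2
      Jg (R * (2 * Jg)) m₀ r) l) :
    Pool.Agent.PL.GoodEnvL (envS S l) (envW S (box d L b) K₀ l) J (b ^ d) r c1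
      ((b : ℝ) ^ d * Mm) (2 * p * J + lam + 1) o s := by
  have hb := P.hb
  have hρ := rho_nonneg P
  have h8 := P.l8
  have h3 := P.l3
  have h5 := P.l5
  have hJg := P.hJg
  have hb1 : (1 : ℝ) ≤ b := by exact_mod_cast hb
  obtain ⟨hk1, hk2⟩ := c1_le P hc
  have hr : 8 * b ≤ r := by
    have : ((8 * b : ℕ) : ℝ) ≤ r := by
      push_cast
      linarith
    exact_mod_cast this
  have hKw : 0 ≤ 2 * p * J + lam := by
    have := P.hp
    have := P.hlam
    positivity
  have hgq : ∀ a, ∀ q ∈ S.good a, q ∈ DD o s r := fun a q hq => DB_subset hb (hgD a hq)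
  have hgD' : ∀ a, ∀ q ∈ S.good a, ∀ y ∈ box d L b, q + y ∈ DD o s r :=
    fun a q hq y hy => mem_DB.1 (hgD a hq) y hy
  have hD₂ : D2 o s r b ⊆ DD o s r := D2_subset hb
  have hball : ∀ {m : ℝ} {z : Fin d → ZMod L}, dp o s z → m ≤ 4 * ρ →
      ∀ y, (nrm (y - z) : ℝ) ≤ m → y ∈ D2 o s r b :=
    fun hz hm y hy => ball_D2 h3 hb h8 hz (hy.trans hm)
  have h1 := goodEnvL (c1 := c1) (Λ := Λ) (o := o) (s := s) hb P.hbL hD hsub hK₀ hr hMm hKw hgD
    hKD (l := l) (E2 := D2 o s r b) (by omega) hl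
    (fun v v' hv hv' hvv => by
      refine hk1.trans (low_h P hc hkge hD hgq hgD' hD₂ hlJ hl (l₀ := []) (l₃ := [])
        (by simp) (by omega) (hball hv (by linarith)) (hball hv' (by linarith)) hvv))
    (fun l₀ B hlB hB q hq v' hv' hqv => by
      refine hk2.trans (low_f P hc hkge hD hgq hgD' hD₂ hlJ hl (l₀ := l₀) (l₃ := [])
        (by rw [hlB]; simp) (by omega) (DB_subset hb hq) (hball hv' le_rfl)
        (hqv.trans (by linarith))))
    (fun B a l₃ hlB hB v hv q hq v' hv' hvv => by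
      refine hk1.trans (low_b P hc hkge hD hgq hgD' hD₂ hlJ hl (l₀ := []) (l₃ := l₃)
        (by rw [hlB]; simp) (by omega) (hball hv (by linarith)) ⟨q, hq, hv'⟩ hvv))
  rw [hlJ] at h1
  exact h1

end Pool.Agent.Stirring.QL
end

section

/-! Block (2), local version: the final theorem. -/

open Finset

set_option linter.unusedSectionVars false

namespace Pool.Agent.Stirring.QL

open Pool.Agent.Stirring.QK
open Pool.Agent.PL (dp near)

variable {d L : ℕ} [NeZero L] {Ω : Type*} [Fintype Ω]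
variable {S : Slab (Fin d → ZMod L) Ω} {Λ : Finset (Fin d → ZMod L)}
variable {b J Jg R m₀ r s : ℕ} {c h δ lam ρ α p p' Mm c1 c2 : ℝ} {o : Fin d → ZMod L}

/-- **Block (2), local version, final form.** The windows lie in the neighbourhood `DD o s r` of the
deep box with corner `o` and side `s` (`DB o s r b`: their base points). `hkge` is `hk_ge`. -/
theorem pr_goodEnvL (hd : 1 ≤ d)
    (P : ParL d L b J Jg R m₀ r c h δ lam ρ α p p' Mm c1 c2)
    (hc : 0 < c) (hkge : ∀ s : ℝ, 1 ≤ s → ∀ x y : Fin d → ZMod L,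
      (nrm (y - x) : ℝ) ≤ c * Real.sqrt s → c * (1 / Real.sqrt s) ^ d ≤ hk d L s x y)
    (H : SlabLaw (tr d L) h S (box d L b) Λ)
    (hp : QK.dens (Fin d → ZMod L) (box d L b) Λ = p)
    (hg : ∀ z, (∀ q, z - q ∈ box d L b → q ∈ DB o s r b) →
      p' ≤ ∑ a, S.w a * (if InWin (box d L b) (S.good a) z then 1 else 0))
    (hMm : 0 ≤ Mm) (hgD : ∀ a, S.good a ⊆ DB o s r b)
    (K₀ : Finset (Fin d → ZMod L)) (hK₀ : Dis (box d L b) K₀) (hKD : K₀ ⊆ DB o s r b) :
    Pr S.w J (fun l => ¬ Pool.Agent.PL.GoodEnvL (envS S l) (envW S (box d L b) K₀ l) J (b ^ d) r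
      c1 ((b : ℝ) ^ d * Mm) (2 * p * J + lam + 1) o s) ≤
      ((J : ℝ) + 1) ^ 3 * (12 * (((s : ℝ) + r) ^ d) ^ 2 * Real.exp (-lam)) := by
  have h0 := pr_decL hd P H hp (DD o s r) (D2 o s r b) (fun z hz => hg z (mem_D2.1 hz))
    (fun k h1 h2 q z h3 => pr_hit P hc hkge H hp h1 h2 q z h3)
  have h1 : ((DD o s r).card : ℝ) ≤ ((s : ℝ) + r) ^ d := by
    exact_mod_cast card_DD o s r
  refine (Pr_mono (Q := fun l => ¬ Dec (CondsL S (box d L b) Λ (DD o s r) (D2 o s r b) h δ lam ρ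
    (2 * p * J + lam) Mm c2 Jg (R * (2 * Jg)) m₀ r) l) H.w_nonneg J fun l hl hn hdec =>
      hn (goodEnvL_of_dec P hc hkge H.allDis H.sub hK₀ hMm hgD hKD hl hdec)).trans
    (h0.trans ?_)
  gcongr

/-- Number of base points. -/
theorem card_DB (hb : 1 ≤ b) (o : Fin d → ZMod L) (s r : ℕ) :
    (DB o s r b).card ≤ (s + r) ^ d :=
  (Finset.card_le_card (DB_subset hb)).trans (card_DD o s r)

end Pool.Agent.Stirring.QL
end
end
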