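import Mathlib
import Pool.Agent.Lib.MP_6c3d62_pr.Mg.G085
import Pool.Agent.Lib.MP_6c3d62_pr.HierDefs

section

/-! Permutations composed with random perfect matchings: definitions. -/

open Finset

namespace Pool.Agent.Stirring.HP

variable {V : Type} [Fintype V] [DecidableEq V]

/-- The point `a` is bypassed: it becomes a fixed point, its predecessor is sent to its image. -/
def del (a : V) (ρ : Equiv.Perm V) : Equiv.Perm V := Equiv.swap a (ρ a) * ρ

/-- Multiply by the transposition of `x` and `y`, then bypass `y` and `x`. -/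
def stp (x y : V) (ρ : Equiv.Perm V) : Equiv.Perm V := del x (del y (ρ * Equiv.swap x y))

/-- All the points outside of `S` are fixed. -/
def SuppIn (S : Finset V) (ρ : Equiv.Perm V) : Prop := ∀ a, a ∉ S → ρ a = a

instance (S : Finset V) : DecidablePred (SuppIn S) := fun ρ => by
  unfold SuppIn; infer_instance

/-- The perfect matchings of `X`: the involutions whose set of moved points is `X`. -/
def matchings (X : Finset V) : Finset (Equiv.Perm V) :=
  univ.filter fun μ => μ * μ = 1 ∧ ∀ a, μ a ≠ a ↔ a ∈ X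

/-- The mean of `F (ρ * μ)` over the perfect matchings `μ` of `X`. -/
noncomputable def AM (F : Equiv.Perm V → ℝ) (ρ : Equiv.Perm V) (X : Finset V) : ℝ :=
  (∑ μ ∈ matchings X, F (ρ * μ)) / ((matchings X).card : ℝ)

/-- The mean of `F π` over the permutations `π` of `Z`. -/
noncomputable def UZ (Z : Finset V) (F : Equiv.Perm V → ℝ) : ℝ :=
  (∑ π ∈ univ.filter (SuppIn Z), F π) / (Z.card.factorial : ℝ)

/-- `F` does not change when a point of `X` is bypassed. -/
def Inv (X Z : Finset V) (F : Equiv.Perm V → ℝ) : Prop :=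
  ∀ π, SuppIn (X ∪ Z) π → ∀ a ∈ X, F (del a π) = F π

/-- No point of `Z` is sent to a point of `Z`. -/
def Q1 (Z : Finset V) (ρ : Equiv.Perm V) : Prop := ∀ z ∈ Z, ρ z ∉ Z

instance (Z : Finset V) : DecidablePred (Q1 Z) := fun ρ => by
  unfold Q1; infer_instance

/-- The number of points of `X` with period at most two. -/
def phi (X : Finset V) (ρ : Equiv.Perm V) : ℕ := (X.filter fun x => ρ (ρ x) = x).card

/-- The product of the `1 - 1 / (4 i)`, `i = 1, …, M`. -/
noncomputable def bet (M : ℕ) : ℝ := ∏ i ∈ range M, (1 - 1 / (4 * ((i : ℝ) + 1)))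

/-- The number of perfect matchings of `2 M` points. -/
def mm : ℕ → ℕ
  | 0 => 1
  | M + 1 => (2 * M + 1) * mm M

/-- `X` without `x` and `y`. -/
abbrev rmv (X : Finset V) (x y : V) : Finset V := (X.erase x).erase y

/-- Gluing: `F` after the image `z ↦ j` has been inserted. -/
abbrev glue (z j : V) (F : Equiv.Perm V → ℝ) : Equiv.Perm V → ℝ :=
  fun π => F (Equiv.swap z j * π)

end Pool.Agent.Stirring.HP
end

section

/-! Cycle lengths of a permutation multiplied by a transposition. -/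

open Finset

set_option linter.unusedSectionVars false

namespace Pool.Agent.Stirring.Hier

variable {V : Type*} [Fintype V] [DecidableEq V]

/-- The length of the cycle of `σ` through `x`. -/
noncomputable def cl (σ : Equiv.Perm V) (x : V) : ℕ := Function.minimalPeriod (σ : V → V) x

theorem iterate_cl (σ : Equiv.Perm V) (x : V) : (σ : V → V)^[cl σ x] x = x :=
  Function.iterate_minimalPeriod

theorem cl_pos (σ : Equiv.Perm V) (x : V) : 0 < cl σ x := by
  refine Function.minimalPeriod_pos_of_mem_periodicPts ?_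
  refine ⟨orderOf σ, orderOf_pos σ, ?_⟩
  show (σ : V → V)^[orderOf σ] x = x
  rw [Equiv.Perm.iterate_eq_pow, pow_orderOf_eq_one]
  rfl

theorem iter_inj {σ : Equiv.Perm V} {x : V} {i j : ℕ} (hi : i < cl σ x) (hj : j < cl σ x)
    (h : (σ : V → V)^[i] x = (σ : V → V)^[j] x) : i = j :=
  Function.iterate_injOn_Iio_minimalPeriod hi hj h

theorem iter_ne {σ : Equiv.Perm V} {x : V} {i : ℕ} (hi : i < cl σ x) (h0 : 0 < i) :
    (σ : V → V)^[i] x ≠ x := by
  intro h
  have := iter_inj (σ := σ) (x := x) hi (cl_pos σ x) (by simpa using h)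
  omega

theorem iter_mod (σ : Equiv.Perm V) (x : V) (i : ℕ) :
    (σ : V → V)^[i] x = (σ : V → V)^[i % cl σ x] x :=
  (Function.iterate_mod_minimalPeriod_eq).symm

theorem minPeriod_eq {f : V → V} {x : V} {m : ℕ} (hm : 0 < m) (h1 : f^[m] x = x)
    (h2 : ∀ j, 0 < j → j < m → f^[j] x ≠ x) : Function.minimalPeriod f x = m := by
  have hle := Function.IsPeriodicPt.minimalPeriod_le hm (show Function.IsPeriodicPt f m x from h1)
  have hpos := Function.minimalPeriod_pos_of_mem_periodicPts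
    (show x ∈ Function.periodicPts f from ⟨m, hm, h1⟩)
  by_contra hne
  exact h2 _ hpos (lt_of_le_of_ne hle hne) Function.iterate_minimalPeriod

theorem mul_swap_apply (σ : Equiv.Perm V) (a b z : V) :
    (σ * Equiv.swap a b) z = σ (Equiv.swap a b z) := rfl

theorem iter_eq {σ : Equiv.Perm V} {a b x : V} {m : ℕ}
    (h : ∀ i < m, (σ : V → V)^[i] x ≠ a ∧ (σ : V → V)^[i] x ≠ b) :
    ∀ i ≤ m, ((σ * Equiv.swap a b : Equiv.Perm V) : V → V)^[i] x = (σ : V → V)^[i] x := by
  intro i
  induction i with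
  | zero => intro _; rfl
  | succ i ih =>
    intro hi
    rw [Function.iterate_succ_apply', Function.iterate_succ_apply', ih (by omega), mul_swap_apply,
      Equiv.swap_apply_of_ne_of_ne (h i (by omega)).1 (h i (by omega)).2]

/-- Neither point is in the cycle of `x`. -/
theorem cl_swap_out {σ : Equiv.Perm V} {a b x : V} (ha : ∀ i, (σ : V → V)^[i] x ≠ a)
    (hb : ∀ i, (σ : V → V)^[i] x ≠ b) : cl (σ * Equiv.swap a b) x = cl σ x := by
  have h : ∀ i, ((σ * Equiv.swap a b : Equiv.Perm V) : V → V)^[i] x = (σ : V → V)^[i] x :=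
    fun i => iter_eq (m := i) (fun j _ => ⟨ha j, hb j⟩) i le_rfl
  refine minPeriod_eq (cl_pos σ x) ?_ ?_
  · rw [h, iterate_cl]
  · intro j h0 hj
    rw [h]
    exact iter_ne hj h0

/-- Both points are in the cycle of `x`: splitting. -/
theorem cl_swap_split {σ : Equiv.Perm V} {x : V} {p q : ℕ} (hpq : p < q) (hq : q < cl σ x) :
    cl (σ * Equiv.swap ((σ : V → V)^[p] x) ((σ : V → V)^[q] x)) x = cl σ x - (q - p) := by
  set a := (σ : V → V)^[p] x with ha
  set b := (σ : V → V)^[q] x with hb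
  set τ : Equiv.Perm V := σ * Equiv.swap a b with hτ
  have e1 : ∀ i ≤ p, (τ : V → V)^[i] x = (σ : V → V)^[i] x := by
    refine iter_eq fun i hi => ⟨?_, ?_⟩
    · intro h; have := iter_inj (by omega) (by omega) h; omega
    · intro h; have := iter_inj (by omega) (by omega) h; omega
  have e2 : (τ : V → V)^[p + 1] x = (σ : V → V)^[q + 1] x := by
    rw [Function.iterate_succ_apply', e1 p le_rfl, ← ha, hτ, mul_swap_apply,
      Equiv.swap_apply_left, hb, Function.iterate_succ_apply']
  have e3 : ∀ i ≤ cl σ x - q - 1, (τ : V → V)^[i] ((σ : V → V)^[q + 1] x) =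
      (σ : V → V)^[i] ((σ : V → V)^[q + 1] x) := by
    refine iter_eq fun i hi => ⟨?_, ?_⟩
    · rw [← Function.iterate_add_apply]
      intro h; have := iter_inj (by omega) (by omega) h; omega
    · rw [← Function.iterate_add_apply]
      intro h; have := iter_inj (by omega) (by omega) h; omega
  have e4 : ∀ i ≤ cl σ x - q - 1, (τ : V → V)^[p + 1 + i] x = (σ : V → V)^[q + 1 + i] x := by
    intro i hi
    rw [add_comm (p + 1) i, Function.iterate_add_apply, e2, e3 i hi, ← Function.iterate_add_apply,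
      add_comm i]
  refine minPeriod_eq (by omega) ?_ ?_
  · have h := e4 (cl σ x - q - 1) le_rfl
    have h1 : p + 1 + (cl σ x - q - 1) = cl σ x - (q - p) := by omega
    have h2 : q + 1 + (cl σ x - q - 1) = cl σ x := by omega
    rw [h1, h2, iterate_cl] at h
    exact h
  · intro j h0 hj
    by_cases hjp : j ≤ p
    · rw [e1 j hjp]; exact iter_ne (by omega) h0
    · have h := e4 (j - p - 1) (by omega)
      have h1 : p + 1 + (j - p - 1) = j := by omega
      rw [h1] at h
      rw [h]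
      exact iter_ne (by omega) (by omega)

/-- One point is in the cycle of `x`, the other not: merging. -/
theorem cl_swap_merge {σ : Equiv.Perm V} {x b : V} {p : ℕ} (hp : p < cl σ x)
    (hb : ∀ i, (σ : V → V)^[i] x ≠ b) :
    cl (σ * Equiv.swap ((σ : V → V)^[p] x) b) x = cl σ x + cl σ b := by
  set a := (σ : V → V)^[p] x with ha
  set τ : Equiv.Perm V := σ * Equiv.swap a b with hτ
  have hdisj : ∀ i j, (σ : V → V)^[i] b ≠ (σ : V → V)^[j] x := by
    intro i j h
    -- move forward to get back to b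
    have h1 : (σ : V → V)^[(cl σ b) * (i + 1) - i] ((σ : V → V)^[i] b) = b := by
      rw [← Function.iterate_add_apply]
      have h2 : cl σ b * (i + 1) - i + i = cl σ b * (i + 1) := by
        have := cl_pos σ b
        have h3 : i ≤ cl σ b * (i + 1) := by nlinarith
        omega
      rw [h2]
      exact (Function.IsPeriodicPt.mul_const
        (show Function.IsPeriodicPt (σ : V → V) (cl σ b) b from iterate_cl σ b) (i + 1))
    rw [h, ← Function.iterate_add_apply] at h1
    exact hb _ h1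
  have lb := cl_pos σ b
  have e1 : ∀ i ≤ p, (τ : V → V)^[i] x = (σ : V → V)^[i] x := by
    refine iter_eq fun i hi => ⟨?_, hb i⟩
    intro h; have := iter_inj (by omega) (by omega) h; omega
  have e2 : (τ : V → V)^[p + 1] x = σ b := by
    rw [Function.iterate_succ_apply', e1 p le_rfl, ← ha, hτ, mul_swap_apply, Equiv.swap_apply_left]
  have e3 : ∀ i ≤ cl σ b - 1, (τ : V → V)^[i] (σ b) = (σ : V → V)^[i] (σ b) := by
    refine iter_eq fun i hi => ⟨?_, ?_⟩
    · rw [← Function.iterate_succ_apply]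
      exact hdisj _ _
    · rw [← Function.iterate_succ_apply]
      exact iter_ne (by omega) (by omega)
  have e4 : ∀ i ≤ cl σ b - 1, (τ : V → V)^[p + 1 + i] x = (σ : V → V)^[i + 1] b := by
    intro i hi
    rw [add_comm (p + 1) i, Function.iterate_add_apply, e2, e3 i hi, ← Function.iterate_succ_apply]
  have e5 : (τ : V → V)^[p + cl σ b] x = b := by
    have h := e4 (cl σ b - 1) le_rfl
    have h1 : p + 1 + (cl σ b - 1) = p + cl σ b := by omega
    have h2 : cl σ b - 1 + 1 = cl σ b := by omega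
    rw [h1, h2, iterate_cl] at h
    exact h
  have e6 : (τ : V → V)^[p + cl σ b + 1] x = (σ : V → V)^[p + 1] x := by
    rw [Function.iterate_succ_apply', e5, hτ, mul_swap_apply, Equiv.swap_apply_right, ha,
      Function.iterate_succ_apply']
  have e7 : ∀ i ≤ cl σ x - p - 1, (τ : V → V)^[i] ((σ : V → V)^[p + 1] x) =
      (σ : V → V)^[i] ((σ : V → V)^[p + 1] x) := by
    refine iter_eq fun i hi => ⟨?_, ?_⟩
    · rw [← Function.iterate_add_apply]
      intro h; have := iter_inj (by omega) (by omega) h; omega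
    · rw [← Function.iterate_add_apply]
      exact hb _
  have e8 : ∀ i ≤ cl σ x - p - 1, (τ : V → V)^[p + cl σ b + 1 + i] x =
      (σ : V → V)^[p + 1 + i] x := by
    intro i hi
    rw [add_comm (p + cl σ b + 1) i, Function.iterate_add_apply, e6, e7 i hi,
      ← Function.iterate_add_apply, add_comm i]
  refine minPeriod_eq (by omega) ?_ ?_
  · have h := e8 (cl σ x - p - 1) le_rfl
    have h1 : p + cl σ b + 1 + (cl σ x - p - 1) = cl σ x + cl σ b := by omega
    have h2 : p + 1 + (cl σ x - p - 1) = cl σ x := by omega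
    rw [h1, h2, iterate_cl] at h
    exact h
  · intro j h0 hj
    by_cases hjp : j ≤ p
    · rw [e1 j hjp]; exact iter_ne (by omega) h0
    · by_cases hjb : j ≤ p + cl σ b
      · have h := e4 (j - p - 1) (by omega)
        have h1 : p + 1 + (j - p - 1) = j := by omega
        rw [h1] at h
        rw [h]
        exact hdisj _ 0
      · have h := e8 (j - p - cl σ b - 1) (by omega)
        have h1 : p + cl σ b + 1 + (j - p - cl σ b - 1) = j := by omega
        rw [h1] at h
        rw [h]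
        exact iter_ne (by omega) (by omega)

/-- The cycle of `x` as a finite set. -/
noncomputable def orb (σ : Equiv.Perm V) (x : V) : Finset V :=
  (Finset.range (cl σ x)).image fun i => (σ : V → V)^[i] x

theorem mem_orb {σ : Equiv.Perm V} {x y : V} : y ∈ orb σ x ↔ ∃ i, (σ : V → V)^[i] x = y := by
  simp only [orb, Finset.mem_image, Finset.mem_range]
  constructor
  · rintro ⟨i, _, h⟩; exact ⟨i, h⟩
  · rintro ⟨i, h⟩
    exact ⟨i % cl σ x, Nat.mod_lt _ (cl_pos σ x), by rw [← iter_mod, h]⟩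

theorem sum_orb (σ : Equiv.Perm V) (x : V) (F : V → ℝ) :
    ∑ a ∈ orb σ x, F a = ∑ p ∈ Finset.range (cl σ x), F ((σ : V → V)^[p] x) := by
  unfold orb
  rw [Finset.sum_image]
  intro i hi j hj h
  exact iter_inj (Finset.mem_range.mp hi) (Finset.mem_range.mp hj) h

theorem card_orb (σ : Equiv.Perm V) (x : V) : (orb σ x).card = cl σ x := by
  unfold orb
  rw [Finset.card_image_of_injOn, Finset.card_range]
  intro i hi j hj h
  exact iter_inj (Finset.mem_range.mp hi) (Finset.mem_range.mp hj) h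

theorem orb_subset {σ : Equiv.Perm V} {B : Finset V} (hB : ∀ y ∈ B, σ y ∈ B) {x : V}
    (hx : x ∈ B) : orb σ x ⊆ B := by
  intro y hy
  obtain ⟨i, rfl⟩ := mem_orb.mp hy
  induction i with
  | zero => exact hx
  | succ i ih =>
    rw [Function.iterate_succ_apply']
    exact hB _ (ih (mem_orb.mpr ⟨i, rfl⟩))

theorem cl_le_card {σ : Equiv.Perm V} {B : Finset V} (hB : ∀ y ∈ B, σ y ∈ B) {x : V}
    (hx : x ∈ B) : cl σ x ≤ B.card := by
  rw [← card_orb]
  exact Finset.card_le_card (orb_subset hB hx)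

theorem sum_pairs_aux (G : ℕ → ℝ) (l : ℕ) :
    ∑ q ∈ Finset.range l, ∑ p ∈ Finset.range q, G (q - p) =
      ∑ d ∈ Finset.range l, ((l : ℝ) - d) * (if d = 0 then 0 else G d) := by
  induction l with
  | zero => simp
  | succ l ih =>
    rw [Finset.sum_range_succ, ih]
    have h1 : ∑ p ∈ Finset.range l, G (l - p) =
        ∑ d ∈ Finset.range (l + 1), (if d = 0 then 0 else G d) := by
      rw [Finset.sum_range_succ']
      simp only [Nat.add_eq_zero_iff, one_ne_zero, and_false, if_false, if_true, add_zero]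
      rw [← Finset.sum_range_reflect]
      refine Finset.sum_congr rfl fun p hp => ?_
      have := Finset.mem_range.mp hp
      congr 1
      omega
    rw [h1]
    have h2 : ∑ d ∈ Finset.range (l + 1), (((l + 1 : ℕ) : ℝ) - d) * (if d = 0 then 0 else G d) =
        ∑ d ∈ Finset.range (l + 1), ((l : ℝ) - d) * (if d = 0 then 0 else G d) +
        ∑ d ∈ Finset.range (l + 1), (if d = 0 then 0 else G d) := by
      rw [← Finset.sum_add_distrib]
      refine Finset.sum_congr rfl fun d _ => ?_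
      push_cast
      ring
    rw [h2, Finset.sum_range_succ (fun d => ((l : ℝ) - d) * (if d = 0 then 0 else G d))]
    simp

theorem sum_pairs (f : ℕ → ℝ) (l : ℕ) :
    ∑ q ∈ Finset.range l, ∑ p ∈ Finset.range q, f (l - (q - p)) =
      ∑ j ∈ Finset.range l, (j : ℝ) * f j := by
  rw [sum_pairs_aux (fun d => f (l - d))]
  rcases Nat.eq_zero_or_pos l with rfl | hl
  · simp
  obtain ⟨m, rfl⟩ := Nat.exists_eq_succ_of_ne_zero hl.ne'
  rw [Nat.succ_eq_add_one, Finset.sum_range_succ', Finset.sum_range_succ']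
  simp only [Nat.add_eq_zero_iff, one_ne_zero, and_false, if_false, if_true, mul_zero, add_zero,
    Nat.cast_zero, zero_mul]
  rw [← Finset.sum_range_reflect]
  refine Finset.sum_congr rfl fun p hp => ?_
  have := Finset.mem_range.mp hp
  have h1 : m + 1 - (m - 1 - p + 1) = p + 1 := by omega
  rw [h1]
  have h2 : ((m - 1 - p + 1 : ℕ) : ℝ) = (m : ℝ) - p := by
    have h3 : m - 1 - p + 1 = m - p := by omega
    rw [h3, Nat.cast_sub (by omega)]
  rw [h2]
  push_cast
  ring

theorem swap_symm_cl (σ : Equiv.Perm V) (a b x : V) :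
    cl (σ * Equiv.swap a b) x = cl (σ * Equiv.swap b a) x := by rw [Equiv.swap_comm]

/-- The effect of multiplying by all transpositions of a block on a function of the length of the
cycle of `x`. -/
theorem sum_swap {σ : Equiv.Perm V} {B : Finset V} (hB : ∀ y ∈ B, σ y ∈ B) {x : V}
    (hx : x ∈ B) (f : ℕ → ℝ) :
    ∑ a ∈ B, ∑ b ∈ B, (f (cl (σ * Equiv.swap a b) x) - f (cl σ x)) =
      2 * ∑ j ∈ Finset.range (cl σ x), (j : ℝ) * (f j - f (cl σ x)) +
      2 * (cl σ x : ℝ) * ∑ b ∈ B \ orb σ x, (f (cl σ x + cl σ b) - f (cl σ x)) := by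
  classical
  set l := cl σ x with hl
  set C := orb σ x with hC
  have hCB : C ⊆ B := orb_subset hB hx
  have hsplit : ∀ F : V → ℝ, ∑ b ∈ B, F b = ∑ b ∈ B \ C, F b + ∑ b ∈ C, F b :=
    fun F => (Finset.sum_sdiff hCB).symm
  have hout : ∀ b, b ∉ C → ∀ i, (σ : V → V)^[i] x ≠ b := by
    intro b hb i h
    exact hb (mem_orb.mpr ⟨i, h⟩)
  -- both outside
  have h00 : ∀ a ∈ B \ C, ∀ b ∈ B \ C, f (cl (σ * Equiv.swap a b) x) - f l = 0 := by
    intro a ha b hb
    rw [cl_swap_out (hout a (Finset.mem_sdiff.mp ha).2) (hout b (Finset.mem_sdiff.mp hb).2)]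
    ring
  have h10 : ∀ a ∈ C, ∀ b ∈ B \ C, f (cl (σ * Equiv.swap a b) x) - f l = f (l + cl σ b) - f l := by
    intro a ha b hb
    simp only [hC, orb, Finset.mem_image, Finset.mem_range] at ha
    obtain ⟨p, hp, rfl⟩ := ha
    rw [cl_swap_merge hp (hout b (Finset.mem_sdiff.mp hb).2)]
  have h01 : ∀ a ∈ B \ C, ∀ b ∈ C, f (cl (σ * Equiv.swap a b) x) - f l = f (l + cl σ a) - f l := by
    intro a ha b hb
    rw [swap_symm_cl]
    exact h10 b hb a ha
  have h11 : ∑ a ∈ C, ∑ b ∈ C, (f (cl (σ * Equiv.swap a b) x) - f l) =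
      2 * ∑ j ∈ Finset.range l, (j : ℝ) * (f j - f l) := by
    rw [hC, sum_orb]
    have h2 : ∀ p ∈ Finset.range (cl σ x), ∑ b ∈ orb σ x,
        (f (cl (σ * Equiv.swap ((σ : V → V)^[p] x) b) x) - f l) =
        ∑ q ∈ Finset.range l, (if p < q then f (l - (q - p)) - f l else 0) +
        ∑ q ∈ Finset.range l, (if q < p then f (l - (p - q)) - f l else 0) := by
      intro p hp
      have hp' := Finset.mem_range.mp hp
      rw [sum_orb, ← Finset.sum_add_distrib]
      refine Finset.sum_congr rfl fun q hq => ?_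
      have hq' := Finset.mem_range.mp hq
      rcases lt_trichotomy p q with h | h | h
      · rw [if_pos h, if_neg (by omega), cl_swap_split h hq', add_zero]
      · subst h
        rw [if_neg (by omega), Equiv.swap_self]
        have : σ * Equiv.refl V = σ := by
          ext z; rfl
        rw [this]
        ring
      · rw [if_neg (by omega), if_pos h, Equiv.swap_comm, cl_swap_split h hp', zero_add]
    rw [Finset.sum_congr rfl h2, Finset.sum_add_distrib]
    have h3 : ∑ p ∈ Finset.range (cl σ x), ∑ q ∈ Finset.range l,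
        (if q < p then f (l - (p - q)) - f l else 0) =
        ∑ j ∈ Finset.range l, (j : ℝ) * (f j - f l) := by
      rw [← sum_pairs (fun j => f j - f l) l]
      refine Finset.sum_congr rfl fun p hp => ?_
      have hp' := Finset.mem_range.mp hp
      rw [← Finset.sum_filter]
      refine Finset.sum_congr ?_ fun q _ => rfl
      ext q
      simp only [Finset.mem_filter, Finset.mem_range]
      omega
    have h4 : ∑ p ∈ Finset.range (cl σ x), ∑ q ∈ Finset.range l,
        (if p < q then f (l - (q - p)) - f l else 0) =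
        ∑ j ∈ Finset.range l, (j : ℝ) * (f j - f l) := by
      rw [Finset.sum_comm]
      exact h3
    rw [h3, h4]
    ring
  rw [hsplit fun a => ∑ b ∈ B, (f (cl (σ * Equiv.swap a b) x) - f l)]
  have hA : ∑ a ∈ B \ C, ∑ b ∈ B, (f (cl (σ * Equiv.swap a b) x) - f l) =
      (l : ℝ) * ∑ b ∈ B \ C, (f (l + cl σ b) - f l) := by
    rw [Finset.mul_sum]
    refine Finset.sum_congr rfl fun a ha => ?_
    rw [hsplit, Finset.sum_eq_zero (h00 a ha), zero_add, Finset.sum_congr rfl (h01 a ha),
      Finset.sum_const, hC, card_orb, nsmul_eq_mul]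
  have hB' : ∑ a ∈ C, ∑ b ∈ B, (f (cl (σ * Equiv.swap a b) x) - f l) =
      (l : ℝ) * ∑ b ∈ B \ C, (f (l + cl σ b) - f l) +
      2 * ∑ j ∈ Finset.range l, (j : ℝ) * (f j - f l) := by
    rw [← h11, Finset.sum_congr rfl fun a ha => hsplit _, Finset.sum_add_distrib]
    congr 1
    rw [Finset.sum_congr rfl fun a ha => Finset.sum_congr rfl (h10 a ha), Finset.sum_const, hC,
      card_orb, nsmul_eq_mul]
  rw [hA, hB']
  ring

end Pool.Agent.Stirring.Hier
end

section

/-! Drift of functions of the cycle lengths under uniform transpositions inside blocks. -/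

open Finset

set_option linter.unusedSectionVars false

namespace Pool.Agent.Stirring.Hier

variable {V : Type*} [Fintype V] [DecidableEq V] {ι : Type*} [DecidableEq ι]

/-- The block of `x`. -/
def blk (β : V → ι) (x : V) : Finset V := Finset.univ.filter fun y => β y = β x

/-- Permutations preserving the blocks. -/
def pres (β : V → ι) : Set (Equiv.Perm V) := {σ | ∀ y, β (σ y) = β y}

/-- Uniform transpositions inside the blocks, total rate `g` in each block of size `n`. -/
noncomputable def brate (β : V → ι) (n : ℕ) (g : ℝ) : V × V → ℝ :=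
  fun p => if β p.1 = β p.2 then g / (n : ℝ) ^ 2 else 0

theorem brate_nonneg {β : V → ι} {n : ℕ} {g : ℝ} (hg : 0 ≤ g) (p : V × V) :
    0 ≤ brate β n g p := by
  unfold brate
  split_ifs
  · positivity
  · exact le_rfl

theorem mem_blk {β : V → ι} {x y : V} : y ∈ blk β x ↔ β y = β x := by simp [blk]

theorem self_mem_blk (β : V → ι) (x : V) : x ∈ blk β x := mem_blk.mpr rfl

theorem pres_blk {β : V → ι} {σ : Equiv.Perm V} (hσ : σ ∈ pres β) (x : V) :
    ∀ y ∈ blk β x, σ y ∈ blk β x := by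
  intro y hy
  rw [mem_blk] at *
  rw [hσ y, hy]

theorem stab_pres (β : V → ι) (n : ℕ) (g : ℝ) : Stab (brate β n g) (pres β) := by
  intro σ hσ p hp y
  have h : β p.1 = β p.2 := by
    by_contra h
    exact hp (by unfold brate; rw [if_neg h])
  show β (σ (Equiv.swap p.1 p.2 y)) = β y
  rw [hσ]
  by_cases h1 : y = p.1
  · rw [h1, Equiv.swap_apply_left, h]
  · by_cases h2 : y = p.2
    · rw [h2, Equiv.swap_apply_right, h]
    · rw [Equiv.swap_apply_of_ne_of_ne h1 h2]

/-- The generator applied to a function of the length of the cycle of `x`. -/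
theorem gen_cl {β : V → ι} {n : ℕ} {g : ℝ} {σ : Equiv.Perm V} (hσ : σ ∈ pres β) (x : V)
    (f : ℕ → ℝ) :
    gen (brate β n g) (fun τ => f (cl τ x)) σ = g / (n : ℝ) ^ 2 *
      (2 * ∑ j ∈ Finset.range (cl σ x), (j : ℝ) * (f j - f (cl σ x)) +
      2 * (cl σ x : ℝ) * ∑ b ∈ blk β x \ orb σ x, (f (cl σ x + cl σ b) - f (cl σ x))) := by
  classical
  rw [gen_apply, ← sum_swap (pres_blk hσ x) (self_mem_blk β x) f]
  have h1 : ∀ p : V × V, brate β n g p * (f (cl (σ * Equiv.swap p.1 p.2) x) - f (cl σ x)) =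
      if p ∈ blk β x ×ˢ blk β x then
        g / (n : ℝ) ^ 2 * (f (cl (σ * Equiv.swap p.1 p.2) x) - f (cl σ x)) else 0 := by
    intro p
    unfold brate
    by_cases hp : β p.1 = β p.2
    · rw [if_pos hp]
      by_cases hx : β p.1 = β x
      · rw [if_pos]
        rw [Finset.mem_product, mem_blk, mem_blk]
        exact ⟨hx, by rw [← hp]; exact hx⟩
      · rw [if_neg]
        · have h2 : ∀ i, (σ : V → V)^[i] x ≠ p.1 := by
            intro i h
            have h3 := orb_subset (pres_blk hσ x) (self_mem_blk β x) (mem_orb.mpr ⟨i, h⟩)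
            exact hx (mem_blk.mp h3)
          have h4 : ∀ i, (σ : V → V)^[i] x ≠ p.2 := by
            intro i h
            have h3 := orb_subset (pres_blk hσ x) (self_mem_blk β x) (mem_orb.mpr ⟨i, h⟩)
            exact hx (by rw [hp]; exact mem_blk.mp h3)
          rw [cl_swap_out h2 h4]
          ring
        · rw [Finset.mem_product, mem_blk, mem_blk]
          exact fun h => hx h.1
    · rw [if_neg hp, if_neg, zero_mul]
      rw [Finset.mem_product, mem_blk, mem_blk]
      exact fun h => hp (by rw [h.1, h.2])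
  rw [Finset.sum_congr rfl fun p _ => h1 p, ← Finset.sum_filter, Finset.filter_mem_eq_inter,
    Finset.univ_inter, Finset.sum_product, Finset.mul_sum]
  refine Finset.sum_congr rfl fun a _ => ?_
  rw [Finset.mul_sum]

theorem cl_orb {σ : Equiv.Perm V} {x b : V} (hb : b ∈ orb σ x) : cl σ b = cl σ x := by
  obtain ⟨i, rfl⟩ := mem_orb.mp hb
  unfold cl
  have h : ∀ m, Function.minimalPeriod (σ : V → V) ((σ : V → V)^[m] x) =
      Function.minimalPeriod (σ : V → V) x := by
    intro m
    refine Function.minimalPeriod_apply_iterate ?_ m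
    exact ⟨cl σ x, cl_pos σ x, iterate_cl σ x⟩
  exact h i

section TruncatedLinear

variable {D : ℝ}

/-- The truncated linear function. -/
noncomputable def tl (D : ℝ) (l : ℕ) : ℝ := min 1 ((l : ℝ) / D)

theorem tl_nonneg (hD : 0 < D) (l : ℕ) : 0 ≤ tl D l := by
  unfold tl
  exact le_min zero_le_one (by positivity)

theorem tl_le_one (l : ℕ) : tl D l ≤ 1 := min_le_left _ _

theorem tl_mono (hD : 0 < D) {j l : ℕ} (h : j ≤ l) : tl D j ≤ tl D l := by
  unfold tl
  exact min_le_min le_rfl (by gcongr)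

theorem tl_of_ge (hD : 0 < D) {l : ℕ} (h : D ≤ l) : tl D l = 1 := by
  unfold tl
  exact min_eq_left (by rwa [one_le_div hD])

theorem tl_of_lt (hD : 0 < D) {l : ℕ} (h : (l : ℝ) < D) : tl D l = l / D := by
  unfold tl
  exact min_eq_right (by rw [div_le_one hD]; exact h.le)

theorem sum_b_tl_le {β : V → ι} {n : ℕ} (hn : ∀ x, (blk β x).card = n) (hD : 0 < D)
    (σ : Equiv.Perm V) (x : V) :
    ∑ b ∈ blk β x \ orb σ x, (tl D (cl σ x + cl σ b) - tl D (cl σ x)) ≤
      n * (1 - tl D (cl σ x)) := by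
  have h1 : ∀ b ∈ blk β x \ orb σ x, tl D (cl σ x + cl σ b) - tl D (cl σ x) ≤
      1 - tl D (cl σ x) := fun b _ => by linarith [tl_le_one (D := D) (cl σ x + cl σ b)]
  refine (Finset.sum_le_sum h1).trans ?_
  rw [Finset.sum_const, nsmul_eq_mul]
  have h2 : ((blk β x \ orb σ x).card : ℝ) ≤ n := by
    rw [← hn x]
    exact_mod_cast Finset.card_le_card Finset.sdiff_subset
  exact mul_le_mul_of_nonneg_right h2 (by linarith [tl_le_one (D := D) (cl σ x)])

theorem l_mul_le (hD : 0 < D) (l : ℕ) : (l : ℝ) * (1 - tl D l) ≤ D * (1 - tl D l) := by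
  by_cases h : D ≤ l
  · rw [tl_of_ge hD h]; simp
  · push Not at h
    exact mul_le_mul_of_nonneg_right h.le (by linarith [tl_le_one (D := D) l])

theorem gen_tl_upper {β : V → ι} {n : ℕ} (hn : ∀ x, (blk β x).card = n) {g : ℝ} (hg : 0 ≤ g)
    (hD : 0 < D) {σ : Equiv.Perm V} (hσ : σ ∈ pres β) (x : V) :
    gen (brate β n g) (fun τ => tl D (cl τ x)) σ ≤ (2 * D * g / n) * tl D (cl σ x) := by
  have hn0 : 0 < n := by
    rw [← hn x]; exact Finset.card_pos.mpr ⟨x, self_mem_blk β x⟩
  have hn0' : (0 : ℝ) < n := by exact_mod_cast hn0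
  rw [gen_cl hσ]
  have h1 : ∑ j ∈ Finset.range (cl σ x), (j : ℝ) * (tl D j - tl D (cl σ x)) ≤ 0 := by
    refine Finset.sum_nonpos fun j hj => ?_
    have := tl_mono hD (Finset.mem_range.mp hj).le
    exact mul_nonpos_of_nonneg_of_nonpos (Nat.cast_nonneg _) (by linarith)
  have h2 := sum_b_tl_le hn hD σ x
  have h3 : (cl σ x : ℝ) * (1 - tl D (cl σ x)) ≤ D * tl D (cl σ x) := by
    by_cases h : D ≤ cl σ x
    · rw [tl_of_ge hD h]
      have := hD.le
      simpa using this
    · push Not at h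
      rw [tl_of_lt hD h]
      have h4 : D * ((cl σ x : ℝ) / D) = cl σ x := by field_simp
      rw [h4]
      have h5 : (0 : ℝ) ≤ (cl σ x : ℝ) / D := by positivity
      nlinarith [Nat.cast_nonneg (α := ℝ) (cl σ x)]
  have h6 : 2 * ∑ j ∈ Finset.range (cl σ x), (j : ℝ) * (tl D j - tl D (cl σ x)) +
      2 * (cl σ x : ℝ) * ∑ b ∈ blk β x \ orb σ x, (tl D (cl σ x + cl σ b) - tl D (cl σ x)) ≤
      2 * n * (D * tl D (cl σ x)) := by
    have h7 : 2 * (cl σ x : ℝ) * ∑ b ∈ blk β x \ orb σ x,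
        (tl D (cl σ x + cl σ b) - tl D (cl σ x)) ≤ 2 * (cl σ x : ℝ) * (n * (1 - tl D (cl σ x))) :=
      mul_le_mul_of_nonneg_left h2 (by positivity)
    nlinarith
  calc g / (n : ℝ) ^ 2 * _ ≤ g / (n : ℝ) ^ 2 * (2 * n * (D * tl D (cl σ x))) :=
        mul_le_mul_of_nonneg_left h6 (by positivity)
    _ = (2 * D * g / n) * tl D (cl σ x) := by field_simp

theorem sum_range_id (m : ℕ) : ∑ j ∈ Finset.range m, (j : ℝ) = (m : ℝ) * (m - 1) / 2 := by
  induction m with
  | zero => simp
  | succ m ih => rw [Finset.sum_range_succ, ih]; push_cast; ring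

theorem sum_range_sq (m : ℕ) :
    ∑ j ∈ Finset.range m, (j : ℝ) * j = (m : ℝ) * (m - 1) * (2 * m - 1) / 6 := by
  induction m with
  | zero => simp
  | succ m ih => rw [Finset.sum_range_succ, ih]; push_cast; ring

/-- The gain from splittings. -/
theorem split_gain (hD : 4 ≤ D) (l : ℕ) :
    D ^ 2 / 32 - D ^ 2 / 16 * (1 - tl D l) ≤
      2 * ∑ j ∈ Finset.range l, (j : ℝ) * (tl D l - tl D j) := by
  have hD0 : 0 < D := by linarith
  by_cases h : D ≤ l
  · rw [tl_of_ge hD0 h, sub_self, mul_zero, sub_zero]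
    set m := ⌊D / 2⌋₊ + 1 with hm
    have hfl : (⌊D / 2⌋₊ : ℝ) ≤ D / 2 := Nat.floor_le (by positivity)
    have hfl2 : D / 2 < (⌊D / 2⌋₊ : ℝ) + 1 := Nat.lt_floor_add_one _
    have hml : m ≤ l := by
      have : (m : ℝ) ≤ l := by
        rw [hm]; push_cast; linarith
      exact_mod_cast this
    have h1 : ∑ j ∈ Finset.range m, (j : ℝ) * (1 / 2) ≤
        ∑ j ∈ Finset.range l, (j : ℝ) * (1 - tl D j) := by
      have h2 : ∑ j ∈ Finset.range m, (j : ℝ) * (1 / 2) ≤
          ∑ j ∈ Finset.range m, (j : ℝ) * (1 - tl D j) := by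
        refine Finset.sum_le_sum fun j hj => ?_
        have hj' : j ≤ ⌊D / 2⌋₊ := by
          have := Finset.mem_range.mp hj
          omega
        have hj2 : (j : ℝ) ≤ D / 2 := le_trans (by exact_mod_cast hj') hfl
        have hj3 : tl D j ≤ 1 / 2 := by
          rw [tl_of_lt hD0 (by linarith)]
          rw [div_le_iff₀ hD0]; linarith
        exact mul_le_mul_of_nonneg_left (by linarith) (Nat.cast_nonneg _)
      refine h2.trans ?_
      refine Finset.sum_le_sum_of_subset_of_nonneg ?_ ?_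
      · intro j hj
        rw [Finset.mem_range] at *
        omega
      · intro j _ _
        exact mul_nonneg (Nat.cast_nonneg _) (by linarith [tl_le_one (D := D) j])
    rw [← Finset.sum_mul, sum_range_id] at h1
    have hm1 : D / 2 ≤ (m : ℝ) := by rw [hm]; push_cast; linarith
    have hm2 : D / 4 ≤ (m : ℝ) - 1 := by
      have h5 : (m : ℝ) - 1 = (⌊D / 2⌋₊ : ℝ) := by rw [hm]; push_cast; ring
      rw [h5]; linarith
    nlinarith
  · push Not at h
    have h1 : ∀ j ∈ Finset.range l, (j : ℝ) * (tl D l - tl D j) = (l * j - j * j) / D := by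
      intro j hj
      have hj' : (j : ℝ) < l := by exact_mod_cast Finset.mem_range.mp hj
      rw [tl_of_lt hD0 h, tl_of_lt hD0 (by linarith)]
      field_simp
    rw [Finset.sum_congr rfl h1, ← Finset.sum_div, Finset.sum_sub_distrib, ← Finset.mul_sum,
      sum_range_id, sum_range_sq, tl_of_lt hD0 h]
    set L : ℝ := (l : ℝ) with hL
    have hL0 : 0 ≤ L := Nat.cast_nonneg _
    have e1 : 2 * ((L * (L * (L - 1) / 2) - L * (L - 1) * (2 * L - 1) / 6) / D) =
        L * (L ^ 2 - 1) / (3 * D) := by field_simp; ring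
    rw [e1]
    by_cases h2 : L ≤ D / 2
    · have h3 : D ^ 2 / 32 - D ^ 2 / 16 * (1 - L / D) ≤ 0 := by
        have h4 : L / D ≤ 1 / 2 := by rw [div_le_iff₀ hD0]; linarith
        nlinarith [sq_nonneg D]
      refine h3.trans ?_
      have h5 : 0 ≤ L * (L ^ 2 - 1) := by
        rcases Nat.eq_zero_or_pos l with h6 | h6
        · rw [hL, h6]; simp
        · have h7 : (1 : ℝ) ≤ L := by rw [hL]; exact_mod_cast h6
          exact mul_nonneg hL0 (by nlinarith)
      positivity
    · push Not at h2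
      have h3 : D ^ 2 / 32 - D ^ 2 / 16 * (1 - L / D) ≤ D ^ 2 / 32 := by
        have h4 : L / D ≤ 1 := by rw [div_le_one hD0]; exact h.le
        nlinarith [sq_nonneg D]
      refine h3.trans ?_
      have hL2 : 2 ≤ L := by linarith
      rw [le_div_iff₀ (by positivity)]
      have h5 : D ^ 2 / 32 * (3 * D) = 3 / 4 * (D / 2) ^ 3 := by ring
      rw [h5]
      have h6 : (D / 2) ^ 3 ≤ L ^ 3 := pow_le_pow_left₀ (by positivity) h2.le 3
      nlinarith [mul_nonneg hL0 (by nlinarith : (0 : ℝ) ≤ L ^ 2 - 4)]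

theorem gen_tl_lower {β : V → ι} {n : ℕ} (hn : ∀ x, (blk β x).card = n) {g : ℝ} (hg : 0 ≤ g)
    (hD : 4 ≤ D) {σ : Equiv.Perm V} (hσ : σ ∈ pres β) (x : V) :
    g / (n : ℝ) ^ 2 * (D ^ 2 / 32) - g / (n : ℝ) ^ 2 * (D ^ 2 / 16 + 2 * D * n) *
      (1 - tl D (cl σ x)) ≤ gen (brate β n g) (fun τ => 1 - tl D (cl τ x)) σ := by
  have hD0 : 0 < D := by linarith
  have h0 := gen_cl (n := n) (g := g) hσ x (fun l => 1 - tl D l)
  rw [h0]
  have h1 := split_gain hD (cl σ x)
  have h2 := sum_b_tl_le hn hD0 σ x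
  have h3 := l_mul_le hD0 (cl σ x)
  have e1 : ∑ j ∈ Finset.range (cl σ x), (j : ℝ) * (1 - tl D j - (1 - tl D (cl σ x))) =
      ∑ j ∈ Finset.range (cl σ x), (j : ℝ) * (tl D (cl σ x) - tl D j) :=
    Finset.sum_congr rfl fun j _ => by ring
  have e2 : ∑ b ∈ blk β x \ orb σ x, (1 - tl D (cl σ x + cl σ b) - (1 - tl D (cl σ x))) =
      - ∑ b ∈ blk β x \ orb σ x, (tl D (cl σ x + cl σ b) - tl D (cl σ x)) := by
    rw [← Finset.sum_neg_distrib]
    exact Finset.sum_congr rfl fun b _ => by ring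
  rw [e1, e2]
  have h4 : 2 * (cl σ x : ℝ) * ∑ b ∈ blk β x \ orb σ x,
      (tl D (cl σ x + cl σ b) - tl D (cl σ x)) ≤ 2 * D * n * (1 - tl D (cl σ x)) := by
    have h5 := mul_le_mul_of_nonneg_left h2 (by positivity : (0 : ℝ) ≤ 2 * (cl σ x : ℝ))
    have hnn : (0 : ℝ) ≤ 2 * (n : ℝ) := by positivity
    have h6 := mul_le_mul_of_nonneg_left h3 hnn
    nlinarith
  have h7 : D ^ 2 / 32 - (D ^ 2 / 16 + 2 * D * n) * (1 - tl D (cl σ x)) ≤
      2 * ∑ j ∈ Finset.range (cl σ x), (j : ℝ) * (tl D (cl σ x) - tl D j) +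
      2 * (cl σ x : ℝ) * - ∑ b ∈ blk β x \ orb σ x,
        (tl D (cl σ x + cl σ b) - tl D (cl σ x)) := by nlinarith
  have h8 := mul_le_mul_of_nonneg_left h7 (by positivity : (0 : ℝ) ≤ g / (n : ℝ) ^ 2)
  nlinarith

end TruncatedLinear

end Pool.Agent.Stirring.Hier
end

section

/-! Drift of the Laplace functional of the cycle lengths. -/

open Finset

set_option linter.unusedSectionVars false

namespace Pool.Agent.Stirring.Hier

theorem sq_mul_exp_neg_le {y : ℝ} (hy : 0 ≤ y) : y ^ 2 * Real.exp (-y) ≤ 1 := by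
  have h1 := Real.quadratic_le_exp_of_nonneg (x := y / 2) (by positivity)
  have h2 : y ≤ Real.exp (y / 2) := by nlinarith [sq_nonneg (y - 2)]
  have h3 : y ^ 2 ≤ Real.exp (y / 2) ^ 2 := pow_le_pow_left₀ hy h2 2
  have h4 : Real.exp (y / 2) ^ 2 = Real.exp y := by
    rw [← Real.exp_nat_mul]; congr 1; push_cast; ring
  rw [h4] at h3
  calc y ^ 2 * Real.exp (-y) ≤ Real.exp y * Real.exp (-y) :=
        mul_le_mul_of_nonneg_right h3 (Real.exp_pos _).le
    _ = 1 := by rw [← Real.exp_add]; simp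

theorem mul_sq_exp_le {a : ℝ} (ha : 0 < a) :
    Real.exp (-a) / (1 - Real.exp (-a)) ^ 2 ≤ 1 / a ^ 2 := by
  have h1 : Real.exp (-a) < 1 := by rw [Real.exp_lt_one_iff]; linarith
  have h0 : 0 < 1 - Real.exp (-a) := by linarith
  have h0' : 0 < (1 - Real.exp (-a)) ^ 2 := by positivity
  have ha2 : 0 < a ^ 2 := by positivity
  rw [div_le_div_iff₀ h0' ha2, one_mul]
  -- a e^{-a/2} ≤ 1 - e^{-a}
  have h2 : a / 2 ≤ Real.sinh (a / 2) := Real.self_le_sinh_iff.mpr (by positivity)
  rw [Real.sinh_eq] at h2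
  have h3 : a ≤ Real.exp (a / 2) - Real.exp (-(a / 2)) := by linarith
  have h4 : Real.exp (-(a / 2)) * a ≤ 1 - Real.exp (-a) := by
    have h5 := mul_le_mul_of_nonneg_left h3 (Real.exp_pos (-(a / 2))).le
    have h6 : Real.exp (-(a / 2)) * (Real.exp (a / 2) - Real.exp (-(a / 2))) =
        1 - Real.exp (-a) := by
      rw [mul_sub, ← Real.exp_add, ← Real.exp_add]
      have e1 : -(a / 2) + a / 2 = 0 := by ring
      have e2 : -(a / 2) + -(a / 2) = -a := by ring
      rw [e1, e2, Real.exp_zero]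
    linarith
  have h7 : (Real.exp (-(a / 2)) * a) ^ 2 ≤ (1 - Real.exp (-a)) ^ 2 :=
    pow_le_pow_left₀ (by positivity) h4 2
  have h8 : (Real.exp (-(a / 2)) * a) ^ 2 = Real.exp (-a) * a ^ 2 := by
    rw [mul_pow, ← Real.exp_nat_mul]
    congr 2
    push_cast; ring
  rw [h8] at h7
  exact h7

theorem sum_j_exp_le {a : ℝ} (ha : 0 < a) (l : ℕ) :
    ∑ j ∈ Finset.range l, (j : ℝ) * Real.exp (-(a * j)) ≤ 1 / a ^ 2 := by
  have h1 : Real.exp (-a) < 1 := by rw [Real.exp_lt_one_iff]; linarith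
  have h2 := hasSum_coe_mul_geometric_of_norm_lt_one (r := Real.exp (-a)) (by
    rw [Real.norm_eq_abs, abs_of_pos (Real.exp_pos _)]; exact h1)
  have h3 := sum_le_hasSum (Finset.range l) (fun j _ => by positivity) h2
  have h4 : ∀ j : ℕ, (j : ℝ) * Real.exp (-(a * j)) = (j : ℝ) * Real.exp (-a) ^ j := by
    intro j
    rw [← Real.exp_nat_mul]
    congr 2
    ring
  rw [Finset.sum_congr rfl fun j _ => h4 j]
  exact h3.trans (mul_sq_exp_le ha)

variable {V : Type*} [Fintype V] [DecidableEq V] {ι : Type*} [DecidableEq ι]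

/-- Exponential function of the length. -/
noncomputable def ex (a : ℝ) (l : ℕ) : ℝ := Real.exp (-(a * l))

theorem ex_pos (a : ℝ) (l : ℕ) : 0 < ex a l := Real.exp_pos _

theorem ex_le_one {a : ℝ} (ha : 0 ≤ a) (l : ℕ) : ex a l ≤ 1 := by
  unfold ex
  rw [Real.exp_le_one_iff]
  have : 0 ≤ a * l := by positivity
  linarith

theorem ex_add (a : ℝ) (l m : ℕ) : ex a (l + m) = ex a l * ex a m := by
  unfold ex
  rw [← Real.exp_add]
  congr 1
  push_cast
  ring

/-- The mass of the block of `x` seen by the Laplace functional. -/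
noncomputable def massA (β : V → ι) (a : ℝ) (σ : Equiv.Perm V) (x : V) : ℝ :=
  ∑ b ∈ blk β x, (1 - ex a (cl σ b))

theorem gen_ex_le {β : V → ι} {n : ℕ} (hn : ∀ x, (blk β x).card = n) {g : ℝ} (hg : 0 ≤ g)
    {a : ℝ} (ha : 0 < a) {σ : Equiv.Perm V} (hσ : σ ∈ pres β) (x : V) :
    gen (brate β n g) (fun τ => ex a (cl τ x)) σ ≤
      g / (n : ℝ) ^ 2 * (4 / a ^ 2 - 2 * (cl σ x : ℝ) * ex a (cl σ x) * massA β a σ x) := by
  rw [gen_cl hσ]
  refine mul_le_mul_of_nonneg_left ?_ (by positivity)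
  set l := cl σ x with hl
  have h1 : ∑ j ∈ Finset.range l, (j : ℝ) * (ex a j - ex a l) ≤ 1 / a ^ 2 := by
    refine le_trans ?_ (sum_j_exp_le ha l)
    refine Finset.sum_le_sum fun j _ => ?_
    refine mul_le_mul_of_nonneg_left ?_ (Nat.cast_nonneg _)
    have := ex_pos a l
    unfold ex at *
    linarith
  have h2 : ∑ b ∈ blk β x \ orb σ x, (ex a (l + cl σ b) - ex a l) =
      -(ex a l * (massA β a σ x - l * (1 - ex a l))) := by
    have h3 : ∑ b ∈ blk β x \ orb σ x, (1 - ex a (cl σ b)) =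
        massA β a σ x - l * (1 - ex a l) := by
      have h4 := Finset.sum_sdiff (f := fun b => 1 - ex a (cl σ b))
        (orb_subset (pres_blk hσ x) (self_mem_blk β x))
      have h5 : ∑ b ∈ orb σ x, (1 - ex a (cl σ b)) = l * (1 - ex a l) := by
        rw [Finset.sum_congr rfl fun b hb => by rw [cl_orb hb], Finset.sum_const, card_orb,
          nsmul_eq_mul]
      unfold massA
      linarith
    rw [← h3, Finset.mul_sum, ← Finset.sum_neg_distrib]
    refine Finset.sum_congr rfl fun b _ => ?_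
    rw [ex_add]
    ring
  rw [h2]
  have h6 : (l : ℝ) ^ 2 * ex a l ≤ 1 / a ^ 2 := by
    have h7 := sq_mul_exp_neg_le (y := a * l) (by positivity)
    rw [le_div_iff₀ (by positivity)]
    unfold ex
    calc (l : ℝ) ^ 2 * Real.exp (-(a * l)) * a ^ 2 = (a * l) ^ 2 * Real.exp (-(a * l)) := by ring
      _ ≤ 1 := h7
  have h8 : (l : ℝ) ^ 2 * ex a l * (1 - ex a l) ≤ 1 / a ^ 2 := by
    have h9 := ex_pos a l
    have h10 := ex_le_one ha.le l
    have h11 : 0 ≤ (l : ℝ) ^ 2 * ex a l := by positivity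
    nlinarith
  have e : 4 / a ^ 2 = 4 * (1 / a ^ 2) := by ring
  rw [e]
  nlinarith

/-- The Laplace functional: the average over all vertices. -/
noncomputable def Lap (a : ℝ) (σ : Equiv.Perm V) : ℝ :=
  (∑ x, ex a (cl σ x)) / Fintype.card V

theorem gen_sum (c : V × V → ℝ) (F : V → Fn V) (σ : Equiv.Perm V) :
    gen c (fun τ => ∑ x, F x τ) σ = ∑ x, gen c (F x) σ := by
  rw [gen_apply]
  simp only [gen_apply]
  rw [Finset.sum_comm]
  refine Finset.sum_congr rfl fun p _ => ?_
  rw [← Finset.mul_sum, Finset.sum_sub_distrib]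

theorem gen_div (c : V × V → ℝ) (f : Fn V) (r : ℝ) (σ : Equiv.Perm V) :
    gen c (fun τ => f τ / r) σ = gen c f σ / r := by
  rw [gen_apply, gen_apply, Finset.sum_div]
  refine Finset.sum_congr rfl fun p _ => ?_
  ring

theorem gen_Lap (c : V × V → ℝ) (a : ℝ) (σ : Equiv.Perm V) :
    gen c (Lap a) σ = (∑ x, gen c (fun τ => ex a (cl τ x)) σ) / Fintype.card V := by
  have h : (Lap a : Fn V) = fun τ => (∑ x, (fun τ => ex a (cl τ x)) τ) / Fintype.card V := rfl
  rw [h, gen_div, gen_sum]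

theorem card_pos_of_blk {β : V → ι} {n : ℕ} [Nonempty V] (hn : ∀ x, (blk β x).card = n) :
    0 < n := by
  obtain ⟨x⟩ := ‹Nonempty V›
  rw [← hn x]; exact Finset.card_pos.mpr ⟨x, self_mem_blk β x⟩

/-- Simple upper bound for the drift of the Laplace functional. -/
theorem gen_Lap_le [Nonempty V] {β : V → ι} {n : ℕ} (hn : ∀ x, (blk β x).card = n) {g : ℝ}
    (hg : 0 ≤ g) {a : ℝ} (ha : 0 < a) {σ : Equiv.Perm V} (hσ : σ ∈ pres β) :
    gen (brate β n g) (Lap a) σ ≤ 4 * g / ((n : ℝ) * a) ^ 2 := by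
  have hV : (0 : ℝ) < Fintype.card V := by exact_mod_cast Fintype.card_pos
  have hn0 : (0 : ℝ) < n := by exact_mod_cast card_pos_of_blk hn
  rw [gen_Lap, div_le_iff₀ hV]
  have h1 : ∀ x ∈ (Finset.univ : Finset V), gen (brate β n g) (fun τ => ex a (cl τ x)) σ ≤
      4 * g / ((n : ℝ) * a) ^ 2 := by
    intro x _
    refine (gen_ex_le hn hg ha hσ x).trans ?_
    have h2 : 0 ≤ 2 * (cl σ x : ℝ) * ex a (cl σ x) * massA β a σ x := by
      have h3 : 0 ≤ massA β a σ x := Finset.sum_nonneg fun b _ => by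
        linarith [ex_le_one ha.le (cl σ b)]
      have := ex_pos a (cl σ x)
      positivity
    calc g / (n : ℝ) ^ 2 * (4 / a ^ 2 - 2 * (cl σ x : ℝ) * ex a (cl σ x) * massA β a σ x) ≤
          g / (n : ℝ) ^ 2 * (4 / a ^ 2) :=
          mul_le_mul_of_nonneg_left (by linarith) (by positivity)
      _ = 4 * g / ((n : ℝ) * a) ^ 2 := by field_simp
  refine (Finset.sum_le_sum h1).trans ?_
  rw [Finset.sum_const, Finset.card_univ, nsmul_eq_mul, mul_comm]

theorem card_image_mul {β : V → ι} {n : ℕ} (hn : ∀ x, (blk β x).card = n) :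
    ((Finset.univ.image β).card : ℝ) * n = Fintype.card V := by
  have h := Finset.card_eq_sum_card_fiberwise (s := (Finset.univ : Finset V)) (f := β)
    (t := Finset.univ.image β) (fun x _ => Finset.mem_image_of_mem β (Finset.mem_univ x))
  have h2 : ∀ i ∈ Finset.univ.image β, (Finset.univ.filter fun x => β x = i).card = n := by
    intro i hi
    obtain ⟨x, _, rfl⟩ := Finset.mem_image.mp hi
    exact hn x
  rw [Finset.sum_congr rfl h2, Finset.sum_const, smul_eq_mul, Finset.card_univ] at h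
  rw [h]
  push_cast
  ring

/-- Averaging over blocks. -/
theorem sum_block_sq {β : V → ι} {n : ℕ} (hn : ∀ x, (blk β x).card = n) [Nonempty V]
    (d : V → ℝ) :
    (n : ℝ) * (∑ x, d x) ^ 2 ≤ Fintype.card V * ∑ x, d x * ∑ b ∈ blk β x, d b := by
  set I := Finset.univ.image β with hI
  have hmap : ∀ x ∈ (Finset.univ : Finset V), β x ∈ I :=
    fun x _ => Finset.mem_image_of_mem β (Finset.mem_univ x)
  have h1 : ∑ x, d x = ∑ i ∈ I, ∑ x ∈ Finset.univ.filter (fun x => β x = i), d x :=
    (Finset.sum_fiberwise_of_maps_to hmap d).symm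
  have h2 : ∑ x, d x * ∑ b ∈ blk β x, d b =
      ∑ i ∈ I, (∑ x ∈ Finset.univ.filter (fun x => β x = i), d x) ^ 2 := by
    rw [← Finset.sum_fiberwise_of_maps_to hmap]
    refine Finset.sum_congr rfl fun i hi => ?_
    have h3 : ∀ x ∈ Finset.univ.filter (fun x => β x = i), d x * ∑ b ∈ blk β x, d b =
        d x * ∑ b ∈ Finset.univ.filter (fun x => β x = i), d b := by
      intro x hx
      have h4 : β x = i := (Finset.mem_filter.mp hx).2
      have h5 : blk β x = Finset.univ.filter (fun x => β x = i) := by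
        unfold blk; rw [h4]
      rw [h5]
    rw [Finset.sum_congr rfl h3, ← Finset.sum_mul, sq]
  have h6 := sq_sum_le_card_mul_sum_sq (s := I)
    (f := fun i => ∑ x ∈ Finset.univ.filter (fun x => β x = i), d x)
  rw [← h1, ← h2] at h6
  have h7 := card_image_mul hn
  rw [← hI] at h7
  have h8 := mul_le_mul_of_nonneg_left h6 (Nat.cast_nonneg (α := ℝ) n)
  calc (n : ℝ) * (∑ x, d x) ^ 2 ≤ (n : ℝ) * ((I.card : ℝ) * ∑ x, d x * ∑ b ∈ blk β x, d b) := h8
    _ = ((I.card : ℝ) * n) * ∑ x, d x * ∑ b ∈ blk β x, d b := by ring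
    _ = _ := by rw [h7]

theorem bernoulli_exp {y w : ℝ} (hw : 1 ≤ w) :
    1 - Real.exp (-(w * y)) ≤ w * (1 - Real.exp (-y)) := by
  have h1 : Real.exp (-(w * y)) = (1 + (Real.exp (-y) - 1)) ^ w := by
    rw [add_sub_cancel, ← Real.exp_mul]
    congr 1; ring
  have h2 := one_add_mul_self_le_rpow_one_add (s := Real.exp (-y) - 1)
    (by linarith [Real.exp_pos (-y)]) hw
  rw [h1]
  linarith

/-- The main drift inequality for the Laplace functional. -/
theorem gen_Lap_quad [Nonempty V] {β : V → ι} {n : ℕ} (hn : ∀ x, (blk β x).card = n) {g : ℝ}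
    (hg : 0 ≤ g) {a w : ℝ} (ha : 0 < a) (hw : 1 < w) {σ : Equiv.Perm V} (hσ : σ ∈ pres β) :
    gen (brate β n g) (Lap a) σ ≤ 4 * g / ((n : ℝ) * a) ^ 2 -
      (2 * g / (w * (w - 1) * ((n : ℝ) * a))) * (Lap a σ - Lap (w * a) σ) ^ 2 := by
  have hV : (0 : ℝ) < Fintype.card V := by exact_mod_cast Fintype.card_pos
  have hn0 : (0 : ℝ) < n := by exact_mod_cast card_pos_of_blk hn
  have hw0 : 0 < w := by linarith
  have hw1 : 0 < w - 1 := by linarith
  set d : V → ℝ := fun x => ex a (cl σ x) - ex (w * a) (cl σ x) with hd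
  have hdn : ∀ x, 0 ≤ d x := by
    intro x
    simp only [hd, ex, sub_nonneg, Real.exp_le_exp, neg_le_neg_iff]
    have : 0 ≤ a * (cl σ x : ℝ) := by positivity
    nlinarith
  -- lower bound for l z^l
  have hA : ∀ x, d x ≤ (w - 1) * a * ((cl σ x : ℝ) * ex a (cl σ x)) := by
    intro x
    have h1 : ex (w * a) (cl σ x) = ex a (cl σ x) * Real.exp (-((w - 1) * a * (cl σ x : ℝ))) := by
      unfold ex
      rw [← Real.exp_add]
      congr 1; ring
    have h2 := Real.add_one_le_exp (-((w - 1) * a * (cl σ x : ℝ)))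
    have h3 := ex_pos a (cl σ x)
    simp only [hd]
    rw [h1]
    nlinarith
  have hB : ∀ x, ∑ b ∈ blk β x, d b ≤ w * massA β a σ x := by
    intro x
    unfold massA
    rw [Finset.mul_sum]
    refine Finset.sum_le_sum fun b _ => ?_
    have h1 := bernoulli_exp (y := a * (cl σ b : ℝ)) hw.le
    have h2 := ex_le_one ha.le (cl σ b)
    simp only [hd]
    have h3 : Real.exp (-(w * (a * (cl σ b : ℝ)))) = ex (w * a) (cl σ b) := by
      unfold ex; rw [mul_assoc]
    rw [h3] at h1
    unfold ex at *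
    linarith
  have hM : ∀ x, 0 ≤ massA β a σ x := fun x => Finset.sum_nonneg fun b _ => by
    linarith [ex_le_one ha.le (cl σ b)]
  have h1 : ∑ x, d x * ∑ b ∈ blk β x, d b ≤
      (w - 1) * a * w * ∑ x, (cl σ x : ℝ) * ex a (cl σ x) * massA β a σ x := by
    rw [Finset.mul_sum]
    refine Finset.sum_le_sum fun x _ => ?_
    have h2 : d x * ∑ b ∈ blk β x, d b ≤ d x * (w * massA β a σ x) :=
      mul_le_mul_of_nonneg_left (hB x) (hdn x)
    have h3 : d x * (w * massA β a σ x) ≤
        ((w - 1) * a * ((cl σ x : ℝ) * ex a (cl σ x))) * (w * massA β a σ x) :=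
      mul_le_mul_of_nonneg_right (hA x) (mul_nonneg hw0.le (hM x))
    refine (h2.trans h3).trans (le_of_eq ?_)
    ring
  have h2 := sum_block_sq hn d
  have h3 : Lap a σ - Lap (w * a) σ = (∑ x, d x) / Fintype.card V := by
    unfold Lap
    rw [← sub_div, ← Finset.sum_sub_distrib]
  rw [gen_Lap, h3]
  set S := ∑ x, (cl σ x : ℝ) * ex a (cl σ x) * massA β a σ x with hS
  have h4 : ∑ x, gen (brate β n g) (fun τ => ex a (cl τ x)) σ ≤
      g / (n : ℝ) ^ 2 * (Fintype.card V * (4 / a ^ 2) - 2 * S) := by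
    have h5 := Finset.sum_le_sum fun x (_ : x ∈ (Finset.univ : Finset V)) =>
      gen_ex_le hn hg ha hσ x
    refine h5.trans (le_of_eq ?_)
    rw [← Finset.mul_sum, Finset.sum_sub_distrib, Finset.sum_const, Finset.card_univ,
      nsmul_eq_mul, hS, Finset.mul_sum]
    congr 2
    exact Finset.sum_congr rfl fun x _ => by ring
  set T := ∑ x, d x with hT
  set P := ∑ x, d x * ∑ b ∈ blk β x, d b with hP
  have h6 : (n : ℝ) * T ^ 2 ≤ Fintype.card V * ((w - 1) * a * w * S) :=
    h2.trans (mul_le_mul_of_nonneg_left h1 hV.le)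
  have h7 : (n : ℝ) * T ^ 2 / (Fintype.card V * ((w - 1) * a * w)) ≤ S := by
    rw [div_le_iff₀ (by positivity)]
    linarith
  have h8 : g / (n : ℝ) ^ 2 * (Fintype.card V * (4 / a ^ 2) - 2 * S) ≤
      g / (n : ℝ) ^ 2 * (Fintype.card V * (4 / a ^ 2) -
        2 * ((n : ℝ) * T ^ 2 / (Fintype.card V * ((w - 1) * a * w)))) :=
    mul_le_mul_of_nonneg_left (by linarith) (by positivity)
  rw [div_le_iff₀ hV]
  refine (h4.trans h8).trans (le_of_eq ?_)
  field_simp

/-- The one-level bound for the Laplace functional. -/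
theorem sg_Lap_le [Nonempty V] {β : V → ι} {n : ℕ} (hn : ∀ x, (blk β x).card = n) {g : ℝ}
    (hg : 0 < g) {a w : ℝ} (ha : 0 < a) (hw : 1 < w) {s : ℝ} (hs : 0 < s)
    {σ : Equiv.Perm V} (hσ : σ ∈ pres β) :
    sg (brate β n g) s (Lap a) σ ≤ Lap (w * a) σ + 4 * (g * s) / ((n : ℝ) * a) ^ 2 +
      w * (w - 1) / 2 * (((n : ℝ) * a) / (g * s)) := by
  have hn0 : (0 : ℝ) < n := by exact_mod_cast card_pos_of_blk hn
  have hw0 : 0 < w := by linarith
  have hw1 : 0 < w - 1 := by linarith
  have h := sg_riccati (c := brate β n g) (brate_nonneg hg.le) (stab_pres β n g)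
    (X := Lap a) (Y := Lap (w * a)) (κ := 4 * g / ((n : ℝ) * a) ^ 2)
    (γ := 2 * g / (w * (w - 1) * ((n : ℝ) * a))) (by positivity)
    (fun σ hσ => gen_Lap_quad hn hg.le ha hw hσ)
    (fun σ hσ => by
      refine (gen_Lap_le hn hg.le (by positivity : 0 < w * a) hσ).trans ?_
      refine div_le_div_of_nonneg_left (by positivity) (by positivity) ?_
      refine pow_le_pow_left₀ (by positivity) ?_ 2
      refine mul_le_mul_of_nonneg_left ?_ hn0.le
      nlinarith) hs hσ
  refine h.trans (le_of_eq ?_)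
  field_simp

/-- The trivial bound. -/
theorem sg_Lap_triv [Nonempty V] {β : V → ι} {n : ℕ} (hn : ∀ x, (blk β x).card = n) {g : ℝ}
    (hg : 0 ≤ g) {a : ℝ} (ha : 0 < a) {s : ℝ} (hs : 0 ≤ s)
    {σ : Equiv.Perm V} (hσ : σ ∈ pres β) :
    sg (brate β n g) s (Lap a) σ ≤ Lap a σ + 4 * g / ((n : ℝ) * a) ^ 2 * s :=
  sg_lin_upper (brate_nonneg hg) (stab_pres β n g)
    (fun σ hσ => gen_Lap_le hn hg ha hσ) hs hσ

end Pool.Agent.Stirring.Hier
end

section

/-! The Laplace functional of a block and its drift. -/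

open Finset

set_option linter.unusedSectionVars false

namespace Pool.Agent.Stirring.Hier

variable {V : Type*} [Fintype V] [DecidableEq V] {ι : Type*} [DecidableEq ι]

/-- The Laplace functional of the block of `x`. -/
noncomputable def Phi (β : V → ι) (n : ℕ) (h : ℝ) (σ : Equiv.Perm V) (x : V) : ℝ :=
  (∑ y ∈ blk β x, ex (h / n) (cl σ y)) / n

/-- Minus the derivative of the Laplace functional. -/
noncomputable def dPhi (β : V → ι) (n : ℕ) (h : ℝ) (σ : Equiv.Perm V) (x : V) : ℝ :=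
  (∑ y ∈ blk β x, ((cl σ y : ℝ) / n) * ex (h / n) (cl σ y)) / n

theorem Phi_hasDerivAt (β : V → ι) (n : ℕ) (h : ℝ) (σ : Equiv.Perm V) (x : V) :
    HasDerivAt (fun h => Phi β n h σ x) (-dPhi β n h σ x) h := by
  have h1 : ∀ y ∈ blk β x, HasDerivAt (fun h : ℝ => ex (h / n) (cl σ y))
      (-(((cl σ y : ℝ) / n) * ex (h / n) (cl σ y))) h := by
    intro y _
    unfold ex
    have h2 : HasDerivAt (fun h : ℝ => -(h / n * (cl σ y : ℝ))) (-(1 / n * (cl σ y : ℝ))) h :=
      (((hasDerivAt_id h).div_const (n : ℝ)).mul_const (cl σ y : ℝ)).neg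
    refine h2.exp.congr_deriv ?_
    ring
  have h2 := (HasDerivAt.fun_sum h1).div_const (n : ℝ)
  refine h2.congr_deriv ?_
  unfold dPhi
  rw [Finset.sum_neg_distrib, neg_div]

section Facts

variable {β : V → ι} {n : ℕ} (hn : ∀ x, (blk β x).card = n) {h : ℝ}

include hn

theorem n_pos (x : V) : (0 : ℝ) < n := by
  have : 0 < n := by rw [← hn x]; exact Finset.card_pos.mpr ⟨x, self_mem_blk β x⟩
  exact_mod_cast this

theorem Phi_nonneg (h : ℝ) (σ : Equiv.Perm V) (x : V) : 0 ≤ Phi β n h σ x := by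
  have := n_pos hn x
  unfold Phi
  exact div_nonneg (Finset.sum_nonneg fun y _ => (ex_pos _ _).le) this.le

theorem Phi_le_one (hh : 0 ≤ h) (σ : Equiv.Perm V) (x : V) : Phi β n h σ x ≤ 1 := by
  have h0 := n_pos hn x
  unfold Phi
  rw [div_le_one h0]
  calc ∑ y ∈ blk β x, ex (h / n) (cl σ y) ≤ ∑ y ∈ blk β x, (1 : ℝ) :=
        Finset.sum_le_sum fun y _ => ex_le_one (by positivity) _
    _ = n := by rw [Finset.sum_const, hn, nsmul_eq_mul, mul_one]

theorem dPhi_nonneg (h : ℝ) (σ : Equiv.Perm V) (x : V) : 0 ≤ dPhi β n h σ x := by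
  have := n_pos hn x
  unfold dPhi
  refine div_nonneg (Finset.sum_nonneg fun y _ => ?_) this.le
  have := ex_pos (h / n) (cl σ y)
  positivity

theorem mul_dPhi_le (h : ℝ) (σ : Equiv.Perm V) (x : V) :
    h * dPhi β n h σ x ≤ 1 - Phi β n h σ x := by
  have h0 := n_pos hn x
  unfold dPhi Phi
  rw [mul_div_assoc', le_sub_iff_add_le, ← add_div, div_le_one h0, Finset.mul_sum,
    ← Finset.sum_add_distrib]
  calc ∑ y ∈ blk β x, (h * ((cl σ y : ℝ) / n * ex (h / n) (cl σ y)) + ex (h / n) (cl σ y)) ≤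
        ∑ y ∈ blk β x, (1 : ℝ) := by
        refine Finset.sum_le_sum fun y _ => ?_
        unfold ex
        set z : ℝ := h / n * (cl σ y : ℝ) with hz
        have h1 : h * ((cl σ y : ℝ) / n * Real.exp (-z)) + Real.exp (-z) =
            (z + 1) * Real.exp (-z) := by
          rw [hz]; ring
        rw [h1]
        have h2 := Real.add_one_le_exp z
        have h3 : Real.exp z * Real.exp (-z) = 1 := by rw [← Real.exp_add]; simp
        calc (z + 1) * Real.exp (-z) ≤ Real.exp z * Real.exp (-z) :=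
              mul_le_mul_of_nonneg_right h2 (Real.exp_pos _).le
          _ = 1 := h3
    _ = n := by rw [Finset.sum_const, hn, nsmul_eq_mul, mul_one]

theorem Phi_anti {h' : ℝ} (hh : h ≤ h') (σ : Equiv.Perm V) (x : V) :
    Phi β n h' σ x ≤ Phi β n h σ x := by
  have h0 := n_pos hn x
  unfold Phi
  refine div_le_div_of_nonneg_right (Finset.sum_le_sum fun y _ => ?_) h0.le
  unfold ex
  rw [Real.exp_le_exp, neg_le_neg_iff]
  exact mul_le_mul_of_nonneg_right (div_le_div_of_nonneg_right hh h0.le) (Nat.cast_nonneg _)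

omit hn in
theorem gen_sum' (c : V × V → ℝ) (S : Finset V) (F : V → Fn V) (σ : Equiv.Perm V) :
    gen c (fun τ => ∑ x ∈ S, F x τ) σ = ∑ x ∈ S, gen c (F x) σ := by
  rw [gen_apply]
  simp only [gen_apply]
  rw [Finset.sum_comm]
  refine Finset.sum_congr rfl fun p _ => ?_
  rw [← Finset.mul_sum, Finset.sum_sub_distrib]

/-- The drift of the Laplace functional. -/
theorem gen_Phi_le {g : ℝ} (hg : 0 ≤ g) (hh : 0 < h) {σ : Equiv.Perm V} (hσ : σ ∈ pres β)
    (x : V) : gen (brate β n g) (fun τ => Phi β n h τ x) σ ≤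
      g * (4 / h ^ 2 - 2 * (1 - Phi β n h σ x) * dPhi β n h σ x) := by
  have h0 := n_pos hn x
  have ha : 0 < h / n := by positivity
  have e1 : gen (brate β n g) (fun τ => Phi β n h τ x) σ =
      (∑ y ∈ blk β x, gen (brate β n g) (fun τ => ex (h / n) (cl τ y)) σ) / n := by
    have : (fun τ : Equiv.Perm V => Phi β n h τ x) =
        fun τ => (∑ y ∈ blk β x, (fun τ => ex (h / n) (cl τ y)) τ) / n := rfl
    rw [this, gen_div, gen_sum']
  rw [e1, div_le_iff₀ h0]
  have hm : ∀ y ∈ blk β x, massA β (h / n) σ y = n * (1 - Phi β n h σ x) := by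
    intro y hy
    have h2 : blk β y = blk β x := by
      unfold blk; rw [mem_blk.mp hy]
    unfold massA Phi
    rw [h2, Finset.sum_sub_distrib, Finset.sum_const, hn, nsmul_eq_mul, mul_one]
    field_simp
  have h1 : ∑ y ∈ blk β x, gen (brate β n g) (fun τ => ex (h / n) (cl τ y)) σ ≤
      ∑ y ∈ blk β x, (g * (4 / h ^ 2) - g * 2 * (1 - Phi β n h σ x) *
        (((cl σ y : ℝ) / n) * ex (h / n) (cl σ y))) := by
    refine Finset.sum_le_sum fun y hy => ?_
    refine (gen_ex_le hn hg ha hσ y).trans (le_of_eq ?_)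
    rw [hm y hy]
    field_simp
  refine h1.trans (le_of_eq ?_)
  rw [Finset.sum_sub_distrib, Finset.sum_const, hn, nsmul_eq_mul, ← Finset.mul_sum]
  unfold dPhi
  field_simp

end Facts

section Jump

theorem mem_orb_symm {σ : Equiv.Perm V} {x y : V} : y ∈ orb σ x ↔ x ∈ orb σ y := by
  have h : ∀ x y : V, y ∈ orb σ x → x ∈ orb σ y := by
    intro x y hy
    obtain ⟨i, hi⟩ := mem_orb.mp hy
    have h1 : σ.SameCycle x y := ⟨(i : ℤ), by
      rw [zpow_natCast, ← hi, Equiv.Perm.iterate_eq_pow]⟩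
    obtain ⟨j, hj⟩ := h1.symm.exists_nat_pow_eq
    exact mem_orb.mpr ⟨j, by rw [Equiv.Perm.iterate_eq_pow]; exact hj⟩
  exact ⟨h x y, h y x⟩

theorem not_touch {σ : Equiv.Perm V} {a b y : V} (ha : a ∉ orb σ y) (hb : b ∉ orb σ y) :
    cl (σ * Equiv.swap a b) y = cl σ y ∧ a ∉ orb (σ * Equiv.swap a b) y ∧
      b ∉ orb (σ * Equiv.swap a b) y := by
  have ha' : ∀ i, (σ : V → V)^[i] y ≠ a := fun i h => ha (mem_orb.mpr ⟨i, h⟩)
  have hb' : ∀ i, (σ : V → V)^[i] y ≠ b := fun i h => hb (mem_orb.mpr ⟨i, h⟩)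
  have h : ∀ i, ((σ * Equiv.swap a b : Equiv.Perm V) : V → V)^[i] y = (σ : V → V)^[i] y :=
    fun i => iter_eq (m := i) (fun j _ => ⟨ha' j, hb' j⟩) i le_rfl
  refine ⟨cl_swap_out ha' hb', ?_, ?_⟩
  · intro hc
    obtain ⟨i, hi⟩ := mem_orb.mp hc
    rw [h i] at hi
    exact ha' i hi
  · intro hc
    obtain ⟨i, hi⟩ := mem_orb.mp hc
    rw [h i] at hi
    exact hb' i hi

/-- The vertices whose cycle contains `a` or `b`. -/
noncomputable def touch (σ : Equiv.Perm V) (a b : V) : Finset V := orb σ a ∪ orb σ b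

theorem notMem_touch {σ : Equiv.Perm V} {a b y : V} :
    y ∉ touch σ a b ↔ a ∉ orb σ y ∧ b ∉ orb σ y := by
  unfold touch
  rw [Finset.mem_union, not_or, mem_orb_symm, mem_orb_symm (x := b)]

theorem touch_swap (σ : Equiv.Perm V) (a b : V) :
    touch (σ * Equiv.swap a b) a b = touch σ a b := by
  have h : ∀ σ : Equiv.Perm V, ∀ y, y ∉ touch σ a b → y ∉ touch (σ * Equiv.swap a b) a b := by
    intro σ y hy
    rw [notMem_touch] at *
    exact (not_touch hy.1 hy.2).2
  ext y
  constructor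
  · intro h1
    by_contra h2
    exact h σ y h2 h1
  · intro h1
    by_contra h2
    have h3 := h _ y h2
    rw [mul_assoc, Equiv.swap_mul_self, mul_one] at h3
    exact h3 h1

theorem mul_exp_neg_le_one {z : ℝ} : z * Real.exp (-z) ≤ 1 := by
  have h2 := Real.add_one_le_exp z
  have h3 : Real.exp z * Real.exp (-z) = 1 := by rw [← Real.exp_add]; simp
  rw [← h3]
  exact mul_le_mul_of_nonneg_right (by linarith) (Real.exp_pos _).le

theorem sum_touch_le {n : ℕ} {h : ℝ} (hn0 : (0 : ℝ) < n) (hh : 0 < h) (σ : Equiv.Perm V)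
    (a b : V) : ∑ y ∈ touch σ a b, ex (h / n) (cl σ y) ≤ 2 * n / h := by
  have h1 : ∀ a : V, ∑ y ∈ orb σ a, ex (h / n) (cl σ y) ≤ n / h := by
    intro a
    rw [Finset.sum_congr rfl fun y hy => by rw [cl_orb hy], Finset.sum_const, card_orb,
      nsmul_eq_mul]
    unfold ex
    have h2 := mul_exp_neg_le_one (z := h / n * (cl σ a : ℝ))
    rw [le_div_iff₀ hh]
    have h3 : (cl σ a : ℝ) * Real.exp (-(h / n * (cl σ a : ℝ))) * h =
        (h / n * (cl σ a : ℝ) * Real.exp (-(h / n * (cl σ a : ℝ)))) * n := by field_simp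
    rw [h3]
    nlinarith
  have h2 : ∑ y ∈ touch σ a b, ex (h / n) (cl σ y) ≤
      ∑ y ∈ orb σ a, ex (h / n) (cl σ y) + ∑ y ∈ orb σ b, ex (h / n) (cl σ y) := by
    unfold touch
    have h3 := Finset.sum_union_inter (s₁ := orb σ a) (s₂ := orb σ b)
      (f := fun y => ex (h / n) (cl σ y))
    have h4 : 0 ≤ ∑ y ∈ orb σ a ∩ orb σ b, ex (h / n) (cl σ y) :=
      Finset.sum_nonneg fun y _ => (ex_pos _ _).le
    linarith
  have h3 := h1 a
  have h4 := h1 b
  have h5 : 2 * (n : ℝ) / h = n / h + n / h := by ring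
  rw [h5]
  linarith

/-- The change of the Laplace functional under a transposition. -/
theorem Phi_jump {β : V → ι} {n : ℕ} {h : ℝ} (hn0 : (0 : ℝ) < n) (hh : 0 < h)
    (σ : Equiv.Perm V) (a b x : V) :
    |Phi β n h (σ * Equiv.swap a b) x - Phi β n h σ x| ≤ 2 / h := by
  set σ' := σ * Equiv.swap a b with hσ'
  have e1 : Phi β n h σ' x - Phi β n h σ x =
      (∑ y ∈ blk β x ∩ touch σ a b, ex (h / n) (cl σ' y) -
        ∑ y ∈ blk β x ∩ touch σ a b, ex (h / n) (cl σ y)) / n := by
    unfold Phi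
    rw [← sub_div]
    congr 1
    have h1 : ∀ τ : Equiv.Perm V, ∑ y ∈ blk β x, ex (h / n) (cl τ y) =
        ∑ y ∈ blk β x ∩ touch σ a b, ex (h / n) (cl τ y) +
        ∑ y ∈ blk β x \ touch σ a b, ex (h / n) (cl τ y) := fun τ =>
      (Finset.sum_inter_add_sum_sdiff _ _ _).symm
    rw [h1 σ', h1 σ]
    have h2 : ∑ y ∈ blk β x \ touch σ a b, ex (h / n) (cl σ' y) =
        ∑ y ∈ blk β x \ touch σ a b, ex (h / n) (cl σ y) := by
      refine Finset.sum_congr rfl fun y hy => ?_
      have h3 := notMem_touch.mp (Finset.mem_sdiff.mp hy).2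
      rw [hσ', (not_touch h3.1 h3.2).1]
    rw [h2]
    ring
  rw [e1, abs_div, abs_of_pos hn0, div_le_iff₀ hn0]
  have h1 : ∑ y ∈ blk β x ∩ touch σ a b, ex (h / n) (cl σ' y) ≤ 2 * n / h := by
    refine le_trans ?_ (sum_touch_le hn0 hh σ' a b)
    rw [hσ', touch_swap]
    exact Finset.sum_le_sum_of_subset_of_nonneg Finset.inter_subset_right
      fun y _ _ => (ex_pos _ _).le
  have h2 : ∑ y ∈ blk β x ∩ touch σ a b, ex (h / n) (cl σ y) ≤ 2 * n / h := by
    refine le_trans ?_ (sum_touch_le hn0 hh σ a b)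
    exact Finset.sum_le_sum_of_subset_of_nonneg Finset.inter_subset_right
      fun y _ _ => (ex_pos _ _).le
  have h3 : 0 ≤ ∑ y ∈ blk β x ∩ touch σ a b, ex (h / n) (cl σ' y) :=
    Finset.sum_nonneg fun y _ => (ex_pos _ _).le
  have h4 : 0 ≤ ∑ y ∈ blk β x ∩ touch σ a b, ex (h / n) (cl σ y) :=
    Finset.sum_nonneg fun y _ => (ex_pos _ _).le
  have h5 : 2 / h * (n : ℝ) = 2 * n / h := by ring
  rw [h5, abs_le]
  constructor <;> linarith

/-- Transpositions in other blocks do not matter. -/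
theorem Phi_out {β : V → ι} {n : ℕ} {h : ℝ} {σ : Equiv.Perm V} (hσ : σ ∈ pres β) {a b x : V}
    (hab : β a = β b) (hax : β a ≠ β x) :
    Phi β n h (σ * Equiv.swap a b) x = Phi β n h σ x := by
  unfold Phi
  congr 1
  refine Finset.sum_congr rfl fun y hy => ?_
  have hy' := mem_blk.mp hy
  have h1 : ∀ z ∈ orb σ y, β z = β x := by
    intro z hz
    have := orb_subset (pres_blk hσ y) (self_mem_blk β y) hz
    rw [mem_blk.mp this, hy']
  rw [(not_touch (fun h => hax (h1 a h)) (fun h => hax (by rw [hab]; exact h1 b h))).1]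

end Jump

end Pool.Agent.Stirring.Hier
end

section

section

/-! A1a: bypassing a point. -/

open Finset

namespace Pool.Agent.Stirring.HP

variable {V : Type} [Fintype V] [DecidableEq V]

theorem del_self (a : V) (ρ : Equiv.Perm V) : del a ρ a = a := by
  unfold del
  rw [Equiv.Perm.mul_apply, Equiv.swap_apply_right]

/-- `swap a (ρ a) (ρ b)`: if `ρ b = a` this is `ρ a`; otherwise `ρ b ≠ a` and `ρ b ≠ ρ a`. -/
theorem del_apply {a b : V} (h : b ≠ a) (ρ : Equiv.Perm V) :
    del a ρ b = if ρ b = a then ρ a else ρ b := by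
  unfold del
  rw [Equiv.Perm.mul_apply]
  by_cases h1 : ρ b = a
  · rw [if_pos h1, h1, Equiv.swap_apply_left]
  · rw [if_neg h1, Equiv.swap_apply_of_ne_of_ne h1 fun h2 => h (ρ.injective h2)]

/-- Unfold; `(σ * μ) a = σ a`; associativity. -/
theorem del_mul {a : V} {μ : Equiv.Perm V} (h : μ a = a) (σ : Equiv.Perm V) :
    del a (σ * μ) = del a σ * μ := by
  unfold del
  rw [Equiv.Perm.mul_apply, h, mul_assoc]

theorem del_of_fixed {a : V} {ρ : Equiv.Perm V} (h : ρ a = a) : del a ρ = ρ := by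
  unfold del
  rw [h, Equiv.swap_self]
  exact one_mul ρ

/-- `s = swap z j` fixes `a`, so `s * swap a b = swap a (s b) * s` for every `b`
(`Equiv.swap_apply_apply` or `Equiv.mul_swap_eq_swap_mul`); take `b = π a`. -/
theorem swap_del {z j a : V} (h1 : a ≠ z) (h2 : a ≠ j) (π : Equiv.Perm V) :
    Equiv.swap z j * del a π = del a (Equiv.swap z j * π) := by
  have h : Equiv.swap z j a = a := Equiv.swap_apply_of_ne_of_ne h1 h2
  unfold del
  rw [Equiv.Perm.mul_apply, ← mul_assoc, ← mul_assoc, Equiv.mul_swap_eq_swap_mul, h]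

/-- Bypassing a fixed point which has been inserted by a transposition: check the values at `u`, `v`
and the other points. -/
theorem del_mul_swap {u v : V} {ρ : Equiv.Perm V} (h : ρ u = u) :
    del u (ρ * Equiv.swap u v) = ρ := by
  refine Equiv.ext fun w => ?_
  by_cases hw : w = u
  · rw [hw, del_self, h]
  · rw [del_apply hw, Equiv.Perm.mul_apply, Equiv.Perm.mul_apply, Equiv.swap_apply_left]
    by_cases hv : w = v
    · rw [hv, Equiv.swap_apply_right, if_pos h]
    · rw [Equiv.swap_apply_of_ne_of_ne hw hv, if_neg]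
      intro h3
      exact hw (ρ.injective (h3.trans h.symm))

theorem suppIn_one (S : Finset V) : SuppIn S (1 : Equiv.Perm V) := by
  intro a _
  rfl

theorem suppIn_mul {S : Finset V} {ρ μ : Equiv.Perm V} (h : SuppIn S ρ) (h' : SuppIn S μ) :
    SuppIn S (ρ * μ) := by
  intro a ha
  rw [Equiv.Perm.mul_apply, h' a ha, h a ha]

theorem suppIn_mono {S T : Finset V} (hST : S ⊆ T) {ρ : Equiv.Perm V} (h : SuppIn S ρ) :
    SuppIn T ρ := by
  intro a ha
  exact h a fun h1 => ha (hST h1)

theorem suppIn_swap {S : Finset V} {x y : V} (hx : x ∈ S) (hy : y ∈ S) :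
    SuppIn S (Equiv.swap x y) := by
  intro a ha
  exact Equiv.swap_apply_of_ne_of_ne (fun h => ha (h ▸ hx)) fun h => ha (h ▸ hy)

/-- A permutation which fixes the points outside of `S` maps `S` to itself: if `ρ a ∉ S` then
`ρ (ρ a) = ρ a`, so `ρ a = a ∈ S`. -/
theorem suppIn_apply_mem {S : Finset V} {ρ : Equiv.Perm V} (h : SuppIn S ρ) {a : V} (ha : a ∈ S) :
    ρ a ∈ S := by
  by_contra hc
  have h1 := ρ.injective (h _ hc)
  rw [h1] at hc
  exact hc ha

/-- Also if `a ∉ S`, since then `del a ρ = ρ`. -/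
theorem suppIn_del {S : Finset V} {ρ : Equiv.Perm V} (h : SuppIn S ρ) (a : V) :
    SuppIn (S.erase a) (del a ρ) := by
  intro b hb
  by_cases hba : b = a
  · rw [hba, del_self]
  · have hbS : b ∉ S := fun h1 => hb (Finset.mem_erase.2 ⟨hba, h1⟩)
    have h1 : ρ b = b := h b hbS
    rw [del_apply hba, h1, if_neg hba]

end Pool.Agent.Stirring.HP
end

section

/-! A1b: bypassing a point. -/

open Finset

namespace Pool.Agent.Stirring.HP

variable {V : Type} [Fintype V] [DecidableEq V]

/-- Bypassing `a` does not change the relation of being in the same cycle between other points.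
Proof. `→`: for `b ≠ a` the point `del a ρ b` is `ρ b` or `ρ (ρ b)`, so it is in the `ρ`-cycle of `b`
(and is `≠ a`); induction on the exponent `n` in `(del a ρ ^ n) x = y` (use
`Equiv.Perm.SameCycle.exists_pow_eq''` / `exists_nat_pow_eq`, natural exponents suffice as `V` is
finite). `←`: strong induction on `n` with `(ρ ^ n) x = y`, `x, y ≠ a`: if `n = 0` trivial; otherwise
`ρ x = a` forces `n ≥ 2` and `del a ρ x = ρ a = (ρ ^ 2) x`, else `del a ρ x = ρ x`; apply the induction
hypothesis to `del a ρ x`. -/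
theorem sameCycle_del {a x y : V} (hx : x ≠ a) (hy : y ≠ a) (ρ : Equiv.Perm V) :
    (del a ρ).SameCycle x y ↔ ρ.SameCycle x y := by
  constructor
  · -- forward: the trajectory of `del a ρ` stays in the cycle of `ρ`
    have key : ∀ n : ℕ, ((del a ρ) ^ n) x ≠ a ∧ ρ.SameCycle x (((del a ρ) ^ n) x) := by
      intro n
      induction n with
      | zero => exact ⟨by simpa using hx, by rw [pow_zero, Equiv.Perm.one_apply]⟩
      | succ n ih =>
        obtain ⟨h1, h2⟩ := ih
        rw [pow_succ', Equiv.Perm.mul_apply]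
        constructor
        · intro h
          have h3 : del a ρ a = a := del_self a ρ
          exact h1 ((del a ρ).injective (h.trans h3.symm))
        · rw [del_apply h1]
          split_ifs with h4
          · have h5 : ρ.SameCycle x (ρ (((del a ρ) ^ n) x)) := h2.apply_right
            rw [h4] at h5
            exact h5.apply_right
          · exact h2.apply_right
    intro h
    obtain ⟨n, _, hn⟩ := h.exists_pow_eq'
    rw [← hn]
    exact (key n).2
  · intro h
    obtain ⟨n, -, hn⟩ := h.exists_pow_eq'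
    clear h
    induction n using Nat.strong_induction_on generalizing x with
    | _ n ih =>
      rcases Nat.eq_zero_or_pos n with h0 | h0
      · subst h0
        rw [pow_zero, Equiv.Perm.one_apply] at hn
        rw [hn]
      · by_cases hxa : ρ x = a
        · -- then `n ≥ 2`
          have hn2 : 2 ≤ n := by
            rcases Nat.lt_or_ge n 2 with h2 | h2
            · exfalso
              have h3 : n = 1 := by omega
              rw [h3, pow_one, hxa] at hn
              exact hy hn.symm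
            · exact h2
          have hd : del a ρ x = ρ a := by rw [del_apply hx, if_pos hxa]
          obtain ⟨m, rfl⟩ : ∃ m, n = m + 2 := ⟨n - 2, by omega⟩
          have hm : (ρ ^ m) (ρ a) = y := by
            rw [← hn, pow_add, Equiv.Perm.mul_apply, pow_two, Equiv.Perm.mul_apply, hxa]
          have hne : ρ a ≠ a := by
            intro h
            exact hx (ρ.injective (hxa.trans h.symm))
          have h4 := ih m (by omega) hne hm
          have h5 : (del a ρ).SameCycle x (del a ρ x) := (Equiv.Perm.SameCycle.refl _ x).apply_right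
          rw [hd] at h5
          exact h5.trans h4
        · have hd : del a ρ x = ρ x := by rw [del_apply hx, if_neg hxa]
          obtain ⟨m, rfl⟩ : ∃ m, n = m + 1 := ⟨n - 1, by omega⟩
          have hm : (ρ ^ m) (ρ x) = y := by
            rw [← hn, pow_succ, Equiv.Perm.mul_apply]
          have h4 := ih m (by omega) hxa hm
          have h5 : (del a ρ).SameCycle x (del a ρ x) := (Equiv.Perm.SameCycle.refl _ x).apply_right
          rw [hd] at h5
          exact h5.trans h4

end Pool.Agent.Stirring.HP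
end

section

end

section

/-! A2a: perfect matchings. -/

open Finset

namespace Pool.Agent.Stirring.HP

variable {V : Type} [Fintype V] [DecidableEq V]

theorem mem_matchings {X : Finset V} {μ : Equiv.Perm V} :
    μ ∈ matchings X ↔ μ * μ = 1 ∧ ∀ a, μ a ≠ a ↔ a ∈ X := by
  simp only [matchings, Finset.mem_filter, Finset.mem_univ, true_and]

theorem matchings_fix {X : Finset V} {μ : Equiv.Perm V} (h : μ ∈ matchings X) {a : V}
    (ha : a ∉ X) : μ a = a := by
  by_contra h1
  exact ha (((mem_matchings.1 h).2 a).1 h1)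

theorem matchings_suppIn {X : Finset V} {μ : Equiv.Perm V} (h : μ ∈ matchings X) :
    SuppIn X μ := by
  exact fun a ha => matchings_fix h ha

theorem matchings_empty : matchings (∅ : Finset V) = {1} := by
  ext μ
  rw [mem_matchings, Finset.mem_singleton]
  constructor
  · rintro ⟨_, h⟩
    ext a
    by_contra h1
    exact Finset.notMem_empty a ((h a).1 h1)
  · rintro rfl
    exact ⟨one_mul 1, fun a => ⟨fun h => absurd rfl h, fun h => absurd h (Finset.notMem_empty a)⟩⟩

theorem mm_pos (M : ℕ) : 0 < mm M := by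
  induction M with
  | zero => exact Nat.one_pos
  | succ M ih =>
    rw [mm]
    positivity

/-- `(2 M)! = 2 ^ M * M! * mm M`. -/
theorem factorial_mm (M : ℕ) : (2 * M).factorial = 2 ^ M * M.factorial * mm M := by
  induction M with
  | zero => simp [mm]
  | succ M ih =>
    have h1 : 2 * (M + 1) = 2 * M + 1 + 1 := by ring
    rw [h1, Nat.factorial_succ, Nat.factorial_succ, ih, mm, Nat.factorial_succ, pow_succ]
    ring

end Pool.Agent.Stirring.HP
end

section

/-! A2b: perfect matchings. -/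

open Finset

namespace Pool.Agent.Stirring.HP

variable {V : Type} [Fintype V] [DecidableEq V]

theorem A2b_fwd {X : Finset V} {x y : V} (hx : x ∈ X) {μ : Equiv.Perm V} (hμ : μ ∈ matchings X)
    (hxy : μ x = y) : Equiv.swap x y * μ ∈ matchings (rmv X x y) ∧ y ∈ X.erase x := by
  rw [mem_matchings] at hμ
  obtain ⟨h1, h2⟩ := hμ
  have h3 : ∀ a, μ (μ a) = a := fun a => by
    rw [← Equiv.Perm.mul_apply, h1, Equiv.Perm.one_apply]
  have hyx : μ y = x := by rw [← hxy, h3]
  have hne : y ≠ x := by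
    rw [← hxy]
    exact (h2 x).2 hx
  have hyX : y ∈ X := (h2 y).1 (by rw [hyx]; exact hne.symm)
  have hval : ∀ a, a ≠ x → a ≠ y → μ a ≠ x ∧ μ a ≠ y ∧ (Equiv.swap x y * μ) a = μ a := by
    intro a hax hay
    have e1 : μ a ≠ x := fun h => hay (by rw [← h3 a, h, hxy])
    have e2 : μ a ≠ y := fun h => hax (by rw [← h3 a, h, hyx])
    exact ⟨e1, e2, Equiv.swap_apply_of_ne_of_ne e1 e2⟩
  have hvx : (Equiv.swap x y * μ) x = x := by
    rw [Equiv.Perm.mul_apply, hxy, Equiv.swap_apply_right]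
  have hvy : (Equiv.swap x y * μ) y = y := by
    rw [Equiv.Perm.mul_apply, hyx, Equiv.swap_apply_left]
  refine ⟨mem_matchings.2 ⟨?_, fun a => ?_⟩, Finset.mem_erase.2 ⟨hne, hyX⟩⟩
  · apply Equiv.ext
    intro a
    rw [Equiv.Perm.mul_apply, Equiv.Perm.one_apply]
    by_cases hax : a = x
    · rw [hax, hvx, hvx]
    by_cases hay : a = y
    · rw [hay, hvy, hvy]
    obtain ⟨e1, e2, e3⟩ := hval a hax hay
    rw [e3, (hval (μ a) e1 e2).2.2, h3]
  · rw [Finset.mem_erase, Finset.mem_erase]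
    by_cases hax : a = x
    · subst hax
      simp only [hvx, ne_eq, not_true_eq_false, false_and, and_false]
    by_cases hay : a = y
    · subst hay
      simp only [hvy, ne_eq, not_true_eq_false, false_and]
    rw [(hval a hax hay).2.2, h2 a]
    exact ⟨fun h => ⟨hay, hax, h⟩, fun h => h.2.2⟩

theorem A2b_bwd {X : Finset V} {x y : V} (hx : x ∈ X) (hy : y ∈ X.erase x) {ν : Equiv.Perm V}
    (hν : ν ∈ matchings (rmv X x y)) :
    Equiv.swap x y * ν ∈ matchings X ∧ (Equiv.swap x y * ν) x = y := by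
  rw [Finset.mem_erase] at hy
  obtain ⟨hne, hyX⟩ := hy
  have hfx : ν x = x := matchings_fix hν (by simp)
  have hfy : ν y = y := matchings_fix hν (by simp)
  rw [mem_matchings] at hν
  obtain ⟨h1, h2⟩ := hν
  have h3 : ∀ a, ν (ν a) = a := fun a => by
    rw [← Equiv.Perm.mul_apply, h1, Equiv.Perm.one_apply]
  have hval : ∀ a, a ≠ x → a ≠ y → ν a ≠ x ∧ ν a ≠ y ∧ (Equiv.swap x y * ν) a = ν a := by
    intro a hax hay
    have e1 : ν a ≠ x := fun h => hax (ν.injective (by rw [h, hfx]))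
    have e2 : ν a ≠ y := fun h => hay (ν.injective (by rw [h, hfy]))
    exact ⟨e1, e2, Equiv.swap_apply_of_ne_of_ne e1 e2⟩
  have hvx : (Equiv.swap x y * ν) x = y := by
    rw [Equiv.Perm.mul_apply, hfx, Equiv.swap_apply_left]
  have hvy : (Equiv.swap x y * ν) y = x := by
    rw [Equiv.Perm.mul_apply, hfy, Equiv.swap_apply_right]
  refine ⟨mem_matchings.2 ⟨?_, fun a => ?_⟩, hvx⟩
  · apply Equiv.ext
    intro a
    rw [Equiv.Perm.mul_apply, Equiv.Perm.one_apply]
    by_cases hax : a = x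
    · rw [hax, hvx, hvy]
    by_cases hay : a = y
    · rw [hay, hvy, hvx]
    obtain ⟨e1, e2, e3⟩ := hval a hax hay
    rw [e3, (hval (ν a) e1 e2).2.2, h3]
  · by_cases hax : a = x
    · subst hax
      rw [hvx]
      exact ⟨fun _ => hx, fun _ => hne⟩
    by_cases hay : a = y
    · subst hay
      rw [hvy]
      exact ⟨fun _ => hyX, fun _ => hne.symm⟩
    rw [(hval a hax hay).2.2, h2 a, Finset.mem_erase, Finset.mem_erase]
    exact ⟨fun h => h.2.2, fun h => ⟨hay, hax, h⟩⟩

/-- Decomposition according to the partner `y = μ x` of `x`. For `μ ∈ matchings X` put `y = μ x`, then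
`y ∈ X`, `y ≠ x`, `μ y = x` and `ν = swap x y * μ` is in `matchings (X \ {x, y})`; conversely
`swap x y * ν` is in `matchings X`, with partner `y` of `x`. Use `Finset.sum_sigma'` and
`Finset.sum_bij'` (or `Finset.sum_nbij'`), or `Finset.sum_fiberwise_of_maps_to` over `μ ↦ μ x`. -/
theorem sum_matchings {X : Finset V} {x : V} (hx : x ∈ X) (f : Equiv.Perm V → ℝ) :
    ∑ μ ∈ matchings X, f μ =
      ∑ y ∈ X.erase x, ∑ ν ∈ matchings (rmv X x y), f (Equiv.swap x y * ν) := by
  rw [← Finset.sum_fiberwise_of_maps_to (s := matchings X) (t := X.erase x) (g := fun μ => μ x)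
    (fun μ hμ => (A2b_fwd hx hμ rfl).2)]
  refine Finset.sum_congr rfl fun y hy => ?_
  refine Finset.sum_bij' (fun μ _ => Equiv.swap x y * μ) (fun ν _ => Equiv.swap x y * ν) ?_ ?_ ?_ ?_ ?_
  · intro μ hμ
    rw [Finset.mem_filter] at hμ
    exact (A2b_fwd hx hμ.1 hμ.2).1
  · intro ν hν
    rw [Finset.mem_filter]
    exact A2b_bwd hx hy hν
  · intro μ _
    rw [← mul_assoc, Equiv.swap_mul_self, one_mul]
  · intro ν _
    rw [← mul_assoc, Equiv.swap_mul_self, one_mul]
  · intro μ _
    rw [← mul_assoc, Equiv.swap_mul_self, one_mul]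

end Pool.Agent.Stirring.HP
end

section

/-! A2c: perfect matchings. -/

open Finset

namespace Pool.Agent.Stirring.HP

variable {V : Type} [Fintype V] [DecidableEq V]

/-- Induction on `M` with `sum_matchings` for `f = 1`. -/
theorem card_matchings {X : Finset V} {M : ℕ} (h : X.card = 2 * M) :
    (matchings X).card = mm M := by
  induction M generalizing X with
  | zero =>
    rw [mul_zero, Finset.card_eq_zero] at h
    rw [h, matchings_empty, Finset.card_singleton]
    rfl
  | succ M ih =>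
    have hne : X.Nonempty := by
      rw [← Finset.card_pos]
      omega
    obtain ⟨x, hx⟩ := hne
    have h1 := sum_matchings hx (fun _ => (1 : ℝ))
    have h2 : ∀ y ∈ X.erase x, ∑ ν ∈ matchings (rmv X x y), (1 : ℝ) = (mm M : ℝ) := by
      intro y hy
      rw [Finset.sum_const, nsmul_eq_mul, mul_one, ih]
      rw [Finset.card_erase_of_mem hy, Finset.card_erase_of_mem hx]
      omega
    rw [Finset.sum_congr rfl h2, Finset.sum_const, Finset.sum_const, Finset.card_erase_of_mem hx,
      nsmul_eq_mul, nsmul_eq_mul, mul_one, h] at h1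
    have h3 : 2 * (M + 1) - 1 = 2 * M + 1 := by omega
    rw [h3] at h1
    rw [mm]
    exact_mod_cast h1

end Pool.Agent.Stirring.HP
end

section

end
end

section

/-! Subsets which a permutation almost preserves, and sums over the permutations preserving a
colouring: definitions. -/

open Finset

set_option linter.unusedSectionVars false

namespace Pool.Agent.Stirring.Mono

variable {V : Type*} [Fintype V] [DecidableEq V] {ι : Type*} [DecidableEq ι]

/-- The `k`-subsets of `U` which contain `M` and avoid `M'`. -/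
def fam (U M M' : Finset V) (k : ℕ) : Finset (Finset V) :=
  (U.powersetCard k).filter fun S => M ⊆ S ∧ Disjoint M' S

/-- The number of points of `S` which `σ` moves out of `S`. -/
def esc (σ : Equiv.Perm V) (S : Finset V) : ℕ := (S.filter fun v => σ v ∉ S).card

/-- The number of sets of the family which `σ` preserves. -/
def iN (U M M' : Finset V) (σ : Equiv.Perm V) (k : ℕ) : ℕ :=
  ((fam U M M' k).filter fun S => esc σ S = 0).card

/-- The number of sets of the family from which exactly one point escapes. -/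
def tN (U M M' : Finset V) (σ : Equiv.Perm V) (k : ℕ) : ℕ :=
  ((fam U M M' k).filter fun S => esc σ S = 1).card

/-- Exactly one point escapes, and it is in `M`. -/
def xN (U M M' : Finset V) (σ : Equiv.Perm V) (k : ℕ) : ℕ :=
  ((fam U M M' k).filter fun S => esc σ S = 1 ∧ ∃ v ∈ M, σ v ∉ S).card

/-- Exactly one point escapes, and its image is in `M'`. -/
def yN (U M M' : Finset V) (σ : Equiv.Perm V) (k : ℕ) : ℕ :=
  ((fam U M M' k).filter fun S => esc σ S = 1 ∧ ∃ v ∈ S, σ v ∈ M').card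

/-- The permutations preserving the colouring `c`. -/
def yg {κ : Type*} [DecidableEq κ] (c : V → κ) : Finset (Equiv.Perm V) :=
  Finset.univ.filter fun π => ∀ v, c (π v) = c v

/-- The sum of `F` over the permutations preserving `c`. -/
def ys {κ : Type*} [DecidableEq κ] (c : V → κ) (F : Equiv.Perm V → ℝ) : ℝ := ∑ π ∈ yg c, F π

/-- Recolouring of the set `U`: colour `a` on `S`, colour `b` on the rest of `U`. -/
def rc (c : V → V) (U S : Finset V) (a b : V) : V → V :=
  fun v => if v ∈ U then (if v ∈ S then a else b) else c v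

/-- The sum of `F` over the products of a permutation preserving the recolouring and of a
transposition which exchanges the colours `a` and `b`. -/
def cr (c : V → V) (U S : Finset V) (a b : V) (F : Equiv.Perm V → ℝ) : ℝ :=
  ∑ v ∈ S, ∑ w ∈ U \ S, ys (rc c U S a b) fun π => F (π * Equiv.swap v w)

/-- Invariance under the conjugations which preserve the blocks of `β` and fix the marks. -/
def CI (β : V → ι) (Mk : Finset V) (F : Equiv.Perm V → ℝ) : Prop :=
  ∀ g : Equiv.Perm V, (∀ v, β (g v) = β v) → (∀ m ∈ Mk, g m = m) →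
    ∀ σ : Equiv.Perm V, F (g * σ * g⁻¹) = F σ

/-- Antisymmetry in the marks. -/
def AS (Mk : Finset V) (F : Equiv.Perm V → ℝ) : Prop :=
  ∀ x ∈ Mk, ∀ y ∈ Mk, x ≠ y → ∀ σ : Equiv.Perm V, F (σ * Equiv.swap x y) = -F σ

/-- Nonpositive sums over the permutations preserving a colouring which is finer than `β` and
separates the marks. -/
def NP (β : V → ι) (Mk : Finset V) (F : Equiv.Perm V → ℝ) : Prop :=
  ∀ c : V → V, (∀ v w, c v = c w → β v = β w) → (∀ x ∈ Mk, ∀ y ∈ Mk, c x = c y → x = y) →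
    ys c F ≤ 0

/-- The cone. -/
def Cone (β : V → ι) (Mk : Finset V) (F : Equiv.Perm V → ℝ) : Prop :=
  CI β Mk F ∧ AS Mk F ∧ NP β Mk F

theorem mem_fam {U M M' S : Finset V} {k : ℕ} :
    S ∈ fam U M M' k ↔ S ⊆ U ∧ S.card = k ∧ M ⊆ S ∧ Disjoint M' S := by
  unfold fam
  rw [Finset.mem_filter, Finset.mem_powersetCard]
  tauto

theorem esc_eq_zero {σ : Equiv.Perm V} {S : Finset V} : esc σ S = 0 ↔ ∀ v ∈ S, σ v ∈ S := by
  unfold esc
  rw [Finset.card_eq_zero, Finset.filter_eq_empty_iff]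
  simp only [not_not]

theorem esc_eq_one {σ : Equiv.Perm V} {S : Finset V} :
    esc σ S = 1 ↔ ∃ v ∈ S, σ v ∉ S ∧ ∀ u ∈ S, u ≠ v → σ u ∈ S := by
  unfold esc
  rw [Finset.card_eq_one]
  constructor
  · rintro ⟨v, hv⟩
    have h1 : v ∈ S.filter fun v => σ v ∉ S := by rw [hv]; exact Finset.mem_singleton_self v
    rw [Finset.mem_filter] at h1
    refine ⟨v, h1.1, h1.2, fun u hu huv => ?_⟩
    by_contra h
    have h2 : u ∈ S.filter fun v => σ v ∉ S := Finset.mem_filter.mpr ⟨hu, h⟩
    rw [hv, Finset.mem_singleton] at h2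
    exact huv h2
  · rintro ⟨v, hv, h1, h2⟩
    refine ⟨v, ?_⟩
    ext u
    rw [Finset.mem_filter, Finset.mem_singleton]
    constructor
    · rintro ⟨hu, h⟩
      by_contra huv
      exact h (h2 u hu huv)
    · rintro rfl
      exact ⟨hv, h1⟩

theorem mem_yg {κ : Type*} [DecidableEq κ] {c : V → κ} {π : Equiv.Perm V} :
    π ∈ yg c ↔ ∀ v, c (π v) = c v := by
  unfold yg
  rw [Finset.mem_filter]
  simp

end Pool.Agent.Stirring.Mono
end

section

/-! Blocks of the hierarchical lattice and the recursion over the levels. -/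

open Finset

set_option linter.unusedSectionVars false

namespace Pool.Agent.Stirring.Hier

variable {N K : ℕ}

/-- The label of the block of level `j` containing `x`. -/
def lab (N K j : ℕ) (x : Word N K) : Fin K → Option (Fin N) :=
  fun i => if j ≤ (i : ℕ) then some (x i) else none

theorem lab_eq_iff {j : ℕ} {x y : Word N K} : lab N K j x = lab N K j y ↔ SameBlock j x y := by
  constructor
  · intro h i hi
    have h1 := congrFun h i
    unfold lab at h1
    rw [if_pos hi, if_pos hi] at h1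
    exact Option.some_injective _ h1
  · intro h
    funext i
    unfold lab
    by_cases hi : j ≤ (i : ℕ)
    · rw [if_pos hi, if_pos hi, h i hi]
    · rw [if_neg hi, if_neg hi]

theorem sameBlock_mono {j k : ℕ} (hjk : j ≤ k) {x y : Word N K} (h : SameBlock j x y) :
    SameBlock k x y := fun i hi => h i (hjk.trans hi)

theorem card_blk {j : ℕ} (hj : j ≤ K) (x : Word N K) : (blk (lab N K j) x).card = N ^ j := by
  classical
  have h1 : blk (lab N K j) x = Fintype.piFinset
      (fun i : Fin K => if j ≤ (i : ℕ) then ({x i} : Finset (Fin N)) else Finset.univ) := by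
    ext y
    rw [mem_blk, lab_eq_iff, Fintype.mem_piFinset]
    constructor
    · intro h i
      by_cases hi : j ≤ (i : ℕ)
      · rw [if_pos hi, Finset.mem_singleton]; exact h i hi
      · rw [if_neg hi]; exact Finset.mem_univ _
    · intro h i hi
      have := h i
      rw [if_pos hi, Finset.mem_singleton] at this
      exact this
  rw [h1, Fintype.card_piFinset]
  have h2 : ∀ i : Fin K, (if j ≤ (i : ℕ) then ({x i} : Finset (Fin N)) else Finset.univ).card =
      if (i : ℕ) < j then N else 1 := by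
    intro i
    by_cases hi : j ≤ (i : ℕ)
    · rw [if_pos hi, if_neg (by omega), Finset.card_singleton]
    · rw [if_neg hi, if_pos (by omega), Finset.card_univ, Fintype.card_fin]
  rw [Finset.prod_congr rfl fun i _ => h2 i, Fin.prod_univ_eq_prod_range
    (fun i => if i < j then N else 1) K]
  rw [← Finset.prod_filter, Finset.prod_const]
  congr 1
  have : (Finset.range K).filter (fun i => i < j) = Finset.range j := by
    ext i
    simp only [Finset.mem_filter, Finset.mem_range]
    omega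
  rw [this, Finset.card_range]

/-- Rates of the first `k` levels. -/
noncomputable def lev (N K : ℕ) (g : ℕ → ℝ) (k : ℕ) : Word N K × Word N K → ℝ :=
  ∑ j ∈ Finset.range k, brate (lab N K (j + 1)) (N ^ (j + 1)) (g (j + 1))

theorem lev_zero (g : ℕ → ℝ) : lev N K g 0 = 0 := by simp [lev]

theorem lev_succ (g : ℕ → ℝ) (k : ℕ) :
    lev N K g (k + 1) = lev N K g k + brate (lab N K (k + 1)) (N ^ (k + 1)) (g (k + 1)) := by
  unfold lev
  rw [Finset.sum_range_succ]

theorem lev_apply_ne {g : ℕ → ℝ} {k : ℕ} {p : Word N K × Word N K} (h : lev N K g k p ≠ 0) :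
    lab N K k p.1 = lab N K k p.2 := by
  unfold lev at h
  rw [Finset.sum_apply] at h
  obtain ⟨j, hj, hne⟩ := Finset.exists_ne_zero_of_sum_ne_zero h
  unfold brate at hne
  have h1 : lab N K (j + 1) p.1 = lab N K (j + 1) p.2 := by
    by_contra hc
    exact hne (if_neg hc)
  rw [lab_eq_iff] at *
  exact sameBlock_mono (by have := Finset.mem_range.mp hj; omega) h1

theorem lev_nonneg {g : ℕ → ℝ} (hg : ∀ j, 0 ≤ g j) (k : ℕ) (p : Word N K × Word N K) :
    0 ≤ lev N K g k p := by
  unfold lev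
  rw [Finset.sum_apply]
  exact Finset.sum_nonneg fun j _ => brate_nonneg (hg _) p

theorem lab_swap {j k : ℕ} (hjk : j ≤ k) {a b : Word N K} (h : lab N K j a = lab N K j b)
    (y : Word N K) : lab N K k (Equiv.swap a b y) = lab N K k y := by
  have h' : lab N K k a = lab N K k b := by
    rw [lab_eq_iff] at *
    exact sameBlock_mono hjk h
  by_cases h1 : y = a
  · rw [h1, Equiv.swap_apply_left, h']
  · by_cases h2 : y = b
    · rw [h2, Equiv.swap_apply_right, h']
    · rw [Equiv.swap_apply_of_ne_of_ne h1 h2]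

theorem lev_commute (g : ℕ → ℝ) (k : ℕ) :
    Commute (stepT (lev N K g k)) (stepT (brate (lab N K (k + 1)) (N ^ (k + 1)) (g (k + 1)))) := by
  refine stepT_commute fun p hp q => ?_
  have h := lev_apply_ne hp
  unfold brate
  simp only [lab_swap (Nat.le_succ k) h]

theorem stab_lev (g : ℕ → ℝ) (k : ℕ) : Stab (lev N K g k) (pres (lab N K k)) := by
  intro σ hσ p hp y
  show lab N K k (σ (Equiv.swap p.1 p.2 y)) = lab N K k y
  rw [hσ, lab_swap le_rfl (lev_apply_ne hp)]

theorem one_mem_pres (j : ℕ) : (1 : Equiv.Perm (Word N K)) ∈ pres (lab N K j) := fun _ => rfl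

theorem pres_mono {j k : ℕ} (hjk : j ≤ k) {σ : Equiv.Perm (Word N K)}
    (hσ : σ ∈ pres (lab N K j)) : σ ∈ pres (lab N K k) := by
  intro y
  have h := hσ y
  rw [lab_eq_iff] at *
  exact sameBlock_mono hjk h

/-- Expectation after the first `k` levels. -/
noncomputable def EL (N K : ℕ) (g : ℕ → ℝ) (t : ℝ) (k : ℕ) (f : Fn (Word N K)) : ℝ :=
  sg (lev N K g k) t f 1

theorem EL_zero (g : ℕ → ℝ) (t : ℝ) (f : Fn (Word N K)) : EL N K g t 0 f = f 1 := by
  unfold EL sg
  have h : gen (0 : Word N K × Word N K → ℝ) = 0 := by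
    refine ContinuousLinearMap.ext fun f => ?_
    funext σ
    rw [gen_apply]
    simp
  rw [lev_zero, h, smul_zero, NormedSpace.exp_zero]
  rfl

theorem EL_succ (g : ℕ → ℝ) (t : ℝ) (k : ℕ) (f : Fn (Word N K)) :
    EL N K g t (k + 1) f =
      EL N K g t k (sg (brate (lab N K (k + 1)) (N ^ (k + 1)) (g (k + 1))) t f) := by
  unfold EL
  rw [lev_succ, sg_add_rates (lev_commute g k)]
  rfl

theorem EL_mono {g : ℕ → ℝ} (hg : ∀ j, 0 ≤ g j) {t : ℝ} (ht : 0 ≤ t) (k : ℕ)
    {f h : Fn (Word N K)} (hfh : ∀ σ ∈ pres (lab N K k), f σ ≤ h σ) :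
    EL N K g t k f ≤ EL N K g t k h :=
  sg_mono_on (lev_nonneg hg k) (stab_lev g k) hfh ht 1 (one_mem_pres k)

theorem EL_const (g : ℕ → ℝ) (t : ℝ) (k : ℕ) (r : ℝ) : EL N K g t k (fun _ => r) = r :=
  sg_const _ _ _ _

theorem EL_add (g : ℕ → ℝ) (t : ℝ) (k : ℕ) (f h : Fn (Word N K)) :
    EL N K g t k (fun σ => f σ + h σ) = EL N K g t k f + EL N K g t k h :=
  sg_add _ _ f h 1

theorem EL_mul (g : ℕ → ℝ) (t : ℝ) (k : ℕ) (r : ℝ) (f : Fn (Word N K)) :
    EL N K g t k (fun σ => r * f σ) = r * EL N K g t k f :=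
  sg_smul _ _ r f 1

theorem EL_sum (g : ℕ → ℝ) (t : ℝ) (k : ℕ) {α : Type*} (s : Finset α) (f : α → Fn (Word N K)) :
    EL N K g t k (fun σ => ∑ i ∈ s, f i σ) = ∑ i ∈ s, EL N K g t k (f i) := by
  classical
  induction s using Finset.induction_on with
  | empty => simp only [Finset.sum_empty]; exact EL_const g t k 0
  | insert i s hi ih =>
    simp only [Finset.sum_insert hi]
    rw [EL_add, ih]

end Pool.Agent.Stirring.Hier
end

section

/-! The recurrent case: large cycles are cut. -/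

open Finset Filter

set_option linter.unusedSectionVars false

namespace Pool.Agent.Stirring.Hier

section Level

variable {V : Type*} [Fintype V] [DecidableEq V] {ι : Type*} [DecidableEq ι]

theorem exp_two_mul_mul_le {κ q : ℝ} (hκ : 0 < κ) (hκ' : κ ≤ 1 / 4)
    (hq : q ≤ 1 - 5 / 2 * κ) : Real.exp (2 * κ) * q ≤ 1 - κ / 2 := by
  have h1 := Real.add_one_le_exp (-(2 * κ))
  have h2 : Real.exp (2 * κ) * Real.exp (-(2 * κ)) = 1 := by
    rw [← Real.exp_add]; simp
  have h3 := Real.exp_pos (2 * κ)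
  have h4 : Real.exp (2 * κ) * (1 - 2 * κ) ≤ 1 := by
    rw [← h2]
    exact mul_le_mul_of_nonneg_left (by linarith) h3.le
  have h5 : q ≤ (1 - 2 * κ) * (1 - κ / 2) := by nlinarith
  calc Real.exp (2 * κ) * q ≤ Real.exp (2 * κ) * ((1 - 2 * κ) * (1 - κ / 2)) :=
        mul_le_mul_of_nonneg_left h5 h3.le
    _ = (Real.exp (2 * κ) * (1 - 2 * κ)) * (1 - κ / 2) := by ring
    _ ≤ 1 * (1 - κ / 2) := mul_le_mul_of_nonneg_right h4 (by linarith)
    _ = 1 - κ / 2 := one_mul _

/-- The effect of one level on the truncated length of the cycle of `x`. -/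
theorem level_step {β : V → ι} {n : ℕ} (hn : ∀ x, (blk β x).card = n) {g t κ q D D' : ℝ}
    (hg : 0 < g) (ht : 0 < t) (hκ : 0 < κ) (hκ' : κ ≤ 1 / 4)
    (hq : q ≤ 1 - 5 / 2 * κ) (hD : D = min 1 (κ / (t * g)) * n) (hD4 : 4 ≤ D) (hD' : 0 < D')
    (hDD : D' ≤ q * D) {σ : Equiv.Perm V} (hσ : σ ∈ pres β) (x : V)
    (hl : (cl σ x : ℝ) ≤ q * n) :
    sg (brate β n g) t (fun τ => tl D (cl τ x)) σ ≤
      (1 - κ ^ 2 / (2 * κ + 64 * (t * g))) * tl D' (cl σ x) := by
  have hn0 : (0 : ℝ) < n := by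
    have : 0 < n := by rw [← hn x]; exact Finset.card_pos.mpr ⟨x, self_mem_blk β x⟩
    exact_mod_cast this
  have hr : 0 < t * g := mul_pos ht hg
  set u : ℝ := min 1 (κ / (t * g)) with hu
  have hu0 : 0 < u := lt_min one_pos (by positivity)
  have hur : u * (t * g) ≤ κ := by
    have : u ≤ κ / (t * g) := min_le_right _ _
    rwa [le_div_iff₀ hr] at this
  have hD0 : 0 < D := by linarith
  have hβ : κ ^ 2 / (2 * κ + 64 * (t * g)) ≤ κ / 2 := by
    rw [div_le_div_iff₀ (by positivity) (by norm_num)]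
    nlinarith [mul_pos hκ hr]
  have hβ0 : 0 ≤ κ ^ 2 / (2 * κ + 64 * (t * g)) := by positivity
  -- upper bound
  have hup : sg (brate β n g) t (fun τ => tl D (cl τ x)) σ ≤
      Real.exp (2 * κ) * tl D (cl σ x) := by
    have h1 := sg_exp_upper (brate_nonneg (β := β) (n := n) hg.le) (stab_pres β n g)
      (φ := fun τ => tl D (cl τ x)) (b := 2 * D * g / n)
      (fun τ hτ => gen_tl_upper hn hg.le hD0 hτ x) ht.le hσ
    refine h1.trans (mul_le_mul_of_nonneg_right ?_ (tl_nonneg hD0 _))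
    rw [Real.exp_le_exp]
    have h2 : 2 * D * g / n * t = 2 * (u * (t * g)) := by
      rw [hD]; field_simp
    rw [h2]; linarith
  have hE := exp_two_mul_mul_le hκ hκ' hq
  by_cases hlD : (cl σ x : ℝ) < D'
  · -- short cycle
    have h1 : tl D (cl σ x) ≤ q * tl D' (cl σ x) := by
      rw [tl_of_lt hD' hlD]
      refine (min_le_right _ _).trans ?_
      rw [div_le_iff₀ hD0, mul_div_assoc', div_mul_eq_mul_div, le_div_iff₀ hD']
      have := mul_le_mul_of_nonneg_left hDD (Nat.cast_nonneg (α := ℝ) (cl σ x))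
      linarith
    have h2 : 0 ≤ tl D' (cl σ x) := tl_nonneg hD' _
    calc sg (brate β n g) t (fun τ => tl D (cl τ x)) σ ≤ Real.exp (2 * κ) * tl D (cl σ x) := hup
      _ ≤ Real.exp (2 * κ) * (q * tl D' (cl σ x)) :=
          mul_le_mul_of_nonneg_left h1 (Real.exp_pos _).le
      _ = (Real.exp (2 * κ) * q) * tl D' (cl σ x) := by ring
      _ ≤ (1 - κ / 2) * tl D' (cl σ x) := mul_le_mul_of_nonneg_right hE h2
      _ ≤ _ := mul_le_mul_of_nonneg_right (by linarith) h2
  · push Not at hlD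
    rw [tl_of_ge hD' hlD, mul_one]
    by_cases h1 : 1 ≤ κ / (t * g)
    · -- the whole block
      have hu1 : u = 1 := min_eq_left h1
      rw [hu1, one_mul] at hD
      have h2 : tl D (cl σ x) ≤ q := by
        refine (min_le_right _ _).trans ?_
        rw [div_le_iff₀ hD0, hD]
        exact hl
      calc sg (brate β n g) t (fun τ => tl D (cl τ x)) σ ≤
            Real.exp (2 * κ) * tl D (cl σ x) := hup
        _ ≤ Real.exp (2 * κ) * q := mul_le_mul_of_nonneg_left h2 (Real.exp_pos _).le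
        _ ≤ 1 - κ / 2 := hE
        _ ≤ _ := by linarith
    · push Not at h1
      have hu1 : u = κ / (t * g) := min_eq_right h1.le
      set a : ℝ := g / (n : ℝ) ^ 2 * (D ^ 2 / 32) with ha
      set b : ℝ := g / (n : ℝ) ^ 2 * (D ^ 2 / 16 + 2 * D * n) with hb
      have hb0 : 0 < b := by positivity
      have h2 := sg_lower (brate_nonneg (β := β) (n := n) hg.le) (stab_pres β n g)
        (ψ := fun τ => 1 - tl D (cl τ x)) (a := a) (b := b) hb0
        (fun τ hτ => gen_tl_lower hn hg.le hD4 hτ x) ht.le hσ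
      have h3 : sg (brate β n g) t (fun τ => 1 - tl D (cl τ x)) σ =
          1 - sg (brate β n g) t (fun τ => tl D (cl τ x)) σ := by
        have h4 : (fun τ : Equiv.Perm V => 1 - tl D (cl τ x)) =
            (fun _ => (1 : ℝ)) - fun τ => tl D (cl τ x) := rfl
        rw [h4, sg_sub, sg_const]
      rw [h3] at h2
      have h5 : a / b = κ / (2 * κ + 64 * (t * g)) := by
        rw [ha, hb, hD, hu1]
        field_simp
        ring
      have h6 : 2 * κ ≤ b * t := by
        have h7 : b * t = (t * g) * (u ^ 2 / 16 + 2 * u) := by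
          rw [hb, hD]
          field_simp
        rw [h7, hu1]
        have h8 : (t * g) * ((κ / (t * g)) ^ 2 / 16 + 2 * (κ / (t * g))) =
            (t * g) * ((κ / (t * g)) ^ 2 / 16) + 2 * κ := by
          field_simp
        rw [h8]
        have : 0 ≤ (t * g) * ((κ / (t * g)) ^ 2 / 16) := by positivity
        linarith
      have h9 : Real.exp (-(b * t)) ≤ 1 - κ := by
        have h10 : Real.exp (-(b * t)) ≤ Real.exp (-(2 * κ)) := by
          rw [Real.exp_le_exp]; linarith
        refine h10.trans ?_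
        have h11 := Real.add_one_le_exp (2 * κ)
        have h12 : Real.exp (-(2 * κ)) * Real.exp (2 * κ) = 1 := by
          rw [← Real.exp_add]; simp
        have h13 := Real.exp_pos (-(2 * κ))
        have h14 : Real.exp (-(2 * κ)) * (1 + 2 * κ) ≤ 1 := by
          rw [← h12]
          exact mul_le_mul_of_nonneg_left (by linarith) h13.le
        have h15 : Real.exp (-(2 * κ)) ≤ 1 / (1 + 2 * κ) := by
          rw [le_div_iff₀ (by linarith)]; exact h14
        refine h15.trans ?_
        rw [div_le_iff₀ (by linarith)]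
        nlinarith
      have h16 : 0 ≤ 1 - tl D (cl σ x) := by linarith [tl_le_one (D := D) (cl σ x)]
      have h17 : 0 ≤ a / b := by positivity
      have h18 : 0 < Real.exp (-(b * t)) := Real.exp_pos _
      have h19 : κ * (a / b) ≤ 1 - sg (brate β n g) t (fun τ => tl D (cl τ x)) σ := by
        refine le_trans ?_ h2
        nlinarith [mul_nonneg h18.le h16]
      have h20 : κ ^ 2 / (2 * κ + 64 * (t * g)) = κ * (a / b) := by
        rw [h5]; ring
      rw [h20]
      linarith

end Level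

section Chain

variable {N K : ℕ}

/-- The cutoff at level `k`. -/
noncomputable def dd (N : ℕ) (g : ℕ → ℝ) (t κ : ℝ) (k : ℕ) : ℝ :=
  min 1 (κ / (t * g k)) * ((N ^ k : ℕ) : ℝ)

/-- The gain at level `k`. -/
noncomputable def bb (g : ℕ → ℝ) (t κ : ℝ) (k : ℕ) : ℝ := κ ^ 2 / (2 * κ + 64 * (t * g k))

theorem bb_nonneg {g : ℕ → ℝ} {t κ : ℝ} (hg : ∀ j, 0 < g j) (ht : 0 < t) (hκ : 0 < κ) (k : ℕ) :
    0 ≤ bb g t κ k := by
  have := hg k
  unfold bb
  positivity

theorem bb_le {g : ℕ → ℝ} {t κ : ℝ} (hg : ∀ j, 0 < g j) (ht : 0 < t) (hκ : 0 < κ)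
    (hκ' : κ ≤ 1 / 4) (k : ℕ) : bb g t κ k ≤ 1 := by
  have h := mul_pos ht (hg k)
  unfold bb
  rw [div_le_one (by positivity)]
  nlinarith

theorem dd_pos (hN : 0 < N) {g : ℕ → ℝ} {t κ : ℝ} (hg : ∀ j, 0 < g j) (ht : 0 < t) (hκ : 0 < κ)
    (k : ℕ) : 0 < dd N g t κ k := by
  have h := mul_pos ht (hg k)
  have h2 : 0 < min 1 (κ / (t * g k)) := lt_min one_pos (by positivity)
  have h3 : (0 : ℝ) < ((N ^ k : ℕ) : ℝ) := by exact_mod_cast pow_pos hN k
  exact mul_pos h2 h3

theorem dd_le (hN : 0 < N) {g : ℕ → ℝ} {t κ : ℝ} (k : ℕ) : dd N g t κ k ≤ ((N ^ k : ℕ) : ℝ) := by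
  have h3 : (0 : ℝ) < ((N ^ k : ℕ) : ℝ) := by exact_mod_cast pow_pos hN k
  calc dd N g t κ k ≤ 1 * ((N ^ k : ℕ) : ℝ) :=
        mul_le_mul_of_nonneg_right (min_le_left _ _) h3.le
    _ = _ := one_mul _

theorem dd_step (hN : 0 < N) {g : ℕ → ℝ} {t κ ρ : ℝ} (hg : ∀ j, 0 < g j) (ht : 0 < t)
    (hκ : 0 < κ) (hρ : ∀ j, g (j + 1) ≤ ρ * g j) (k : ℕ) :
    dd N g t κ k ≤ max ρ 1 / N * dd N g t κ (k + 1) := by
  have hNr : (0 : ℝ) < N := by exact_mod_cast hN
  have h1 : min 1 (κ / (t * g k)) ≤ max ρ 1 * min 1 (κ / (t * g (k + 1))) := by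
    have hm : (1 : ℝ) ≤ max ρ 1 := le_max_right _ _
    have hg1 := mul_pos ht (hg k)
    have hg2 := mul_pos ht (hg (k + 1))
    rw [mul_min_of_nonneg _ _ (by linarith)]
    refine le_min ((min_le_left _ _).trans (by linarith)) ((min_le_right _ _).trans ?_)
    rw [mul_div_assoc', div_le_div_iff₀ hg1 hg2]
    have h2 : g (k + 1) ≤ max ρ 1 * g k :=
      (hρ k).trans (mul_le_mul_of_nonneg_right (le_max_left _ _) (hg k).le)
    have h3 := mul_le_mul_of_nonneg_left h2 (mul_pos hκ ht).le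
    nlinarith
  unfold dd
  have h4 : ((N ^ (k + 1) : ℕ) : ℝ) = N * ((N ^ k : ℕ) : ℝ) := by push_cast; ring
  rw [h4]
  have h5 : max ρ 1 / N * (min 1 (κ / (t * g (k + 1))) * (N * ((N ^ k : ℕ) : ℝ))) =
      (max ρ 1 * min 1 (κ / (t * g (k + 1)))) * ((N ^ k : ℕ) : ℝ) := by
    field_simp
  rw [h5]
  exact mul_le_mul_of_nonneg_right h1 (Nat.cast_nonneg _)

theorem chain {g : ℕ → ℝ} {t κ ρ : ℝ} (hN : 0 < N) (hg : ∀ j, 0 < g j) (ht : 0 < t)
    (hκ : 0 < κ) (hκ' : κ ≤ 1 / 4) (hρ : ∀ j, g (j + 1) ≤ ρ * g j)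
    (hq : max ρ 1 / N ≤ 1 - 5 / 2 * κ) {k₀ : ℕ} (hk₀ : ∀ k, k₀ ≤ k → 4 ≤ dd N g t κ k)
    (x : Word N K) {k : ℕ} (hk : k₀ ≤ k) (hkK : k ≤ K) :
    EL N K g t k (fun τ => tl (dd N g t κ k) (cl τ x)) ≤
      ∏ j ∈ Finset.range (k - k₀), (1 - bb g t κ (k₀ + j + 1)) := by
  induction k, hk using Nat.le_induction with
  | base =>
    rw [Nat.sub_self, Finset.range_zero, Finset.prod_empty]
    have h := EL_mono (N := N) (K := K) (fun j => (hg j).le) ht.le k₀
      (f := fun τ => tl (dd N g t κ k₀) (cl τ x)) (h := fun _ => 1) (fun τ _ => tl_le_one _)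
    rw [EL_const] at h
    exact h
  | succ k hk ih =>
    have ih' := ih (by omega)
    have hNr : (0 : ℝ) < N := by exact_mod_cast hN
    rw [EL_succ]
    have h1 : ∀ σ ∈ pres (lab N K k), sg (brate (lab N K (k + 1)) (N ^ (k + 1)) (g (k + 1))) t
        (fun τ => tl (dd N g t κ (k + 1)) (cl τ x)) σ ≤
        (1 - bb g t κ (k + 1)) * tl (dd N g t κ k) (cl σ x) := by
      intro σ hσ
      refine level_step (fun x => card_blk hkK x) (hg _) ht hκ hκ' hq rfl (hk₀ _ (by omega))
        (dd_pos hN hg ht hκ k) (dd_step hN hg ht hκ hρ k) (pres_mono (Nat.le_succ k) hσ) x ?_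
      have h2 : cl σ x ≤ N ^ k := by
        rw [← card_blk (by omega : k ≤ K) x]
        exact cl_le_card (pres_blk hσ x) (self_mem_blk _ x)
      have h3 : (cl σ x : ℝ) ≤ (N : ℝ) ^ k := by exact_mod_cast h2
      refine h3.trans ?_
      have h4 : (((N ^ (k + 1) : ℕ)) : ℝ) = N * (N : ℝ) ^ k := by push_cast; ring
      rw [h4]
      have h5 : max ρ 1 / N * (N * (N : ℝ) ^ k) = max ρ 1 * (N : ℝ) ^ k := by field_simp
      rw [h5]
      have h6 : (0 : ℝ) < (N : ℝ) ^ k := by positivity
      nlinarith [le_max_right ρ 1]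
    refine (EL_mono (fun j => (hg j).le) ht.le k h1).trans ?_
    rw [EL_mul]
    have e1 : k + 1 - k₀ = (k - k₀) + 1 := by omega
    have e2 : k₀ + (k - k₀) + 1 = k + 1 := by omega
    rw [e1, Finset.prod_range_succ, e2, mul_comm]
    exact mul_le_mul_of_nonneg_right ih' (by linarith [bb_le hg ht hκ hκ' (k + 1)])

theorem prod_tendsto {b : ℕ → ℝ} (h0 : ∀ j, 0 ≤ b j) (h1 : ∀ j, b j ≤ 1) (hs : ¬ Summable b) :
    Tendsto (fun n => ∏ j ∈ Finset.range n, (1 - b j)) atTop (nhds 0) := by
  have h2 := (not_summable_iff_tendsto_nat_atTop_of_nonneg h0).mp hs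
  have h3 : Tendsto (fun n => Real.exp (-(∑ j ∈ Finset.range n, b j))) atTop (nhds 0) :=
    Real.tendsto_exp_neg_atTop_nhds_zero.comp h2
  refine squeeze_zero (fun n => Finset.prod_nonneg fun j _ => by linarith [h1 j]) (fun n => ?_) h3
  rw [← Finset.sum_neg_distrib, Real.exp_sum]
  refine Finset.prod_le_prod (fun j _ => by linarith [h1 j]) fun j _ => ?_
  have := Real.add_one_le_exp (-(b j))
  linarith

theorem bb_not_summable {g : ℕ → ℝ} {t κ : ℝ} (hg : ∀ j, 0 < g j) (ht : 0 < t) (hκ : 0 < κ)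
    (hs : ¬ Summable fun j => 1 / g j) : ¬ Summable fun j => bb g t κ j := by
  intro h
  apply hs
  have h1 := h.tendsto_atTop_zero
  have h2 : ∀ᶠ j in atTop, bb g t κ j < κ / 4 := h1.eventually_lt_const (by positivity)
  have h3 : ∀ᶠ j in atTop, ‖1 / g j‖ ≤ (128 * t / κ ^ 2) * bb g t κ j := by
    filter_upwards [h2] with j hj
    have hgj := hg j
    have hr := mul_pos ht hgj
    rw [Real.norm_of_nonneg (by positivity)]
    unfold bb at hj ⊢
    rw [div_lt_iff₀ (by positivity)] at hj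
    have h4 : 2 * κ < 64 * (t * g j) := by nlinarith
    rw [div_mul_div_comm, div_le_div_iff₀ hgj (by positivity)]
    have h5 : 0 < κ ^ 2 := by positivity
    nlinarith
  exact Summable.of_norm_bounded_eventually_nat (h.mul_left _) h3

theorem dd_large {g : ℕ → ℝ} {t κ ρ : ℝ} (hN : 2 ≤ N) (hg : ∀ j, 0 < g j) (ht : 0 < t)
    (hκ : 0 < κ) (hρ : ∀ j, g (j + 1) ≤ ρ * g j) (hρN : ρ < N) :
    ∃ k₀, ∀ k, k₀ ≤ k → 4 ≤ dd N g t κ k := by
  have hNr : (2 : ℝ) ≤ N := by exact_mod_cast hN
  have hm : max ρ 1 < N := max_lt hρN (by linarith)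
  have hm1 : (1 : ℝ) ≤ max ρ 1 := le_max_right _ _
  have hq0 : 0 < max ρ 1 / N := by positivity
  have hq1 : max ρ 1 / N < 1 := by rw [div_lt_one (by linarith)]; exact hm
  have h1 : ∀ k, dd N g t κ 0 ≤ (max ρ 1 / N) ^ k * dd N g t κ k := by
    intro k
    induction k with
    | zero => simp
    | succ k ih =>
      refine ih.trans ?_
      rw [pow_succ, mul_assoc]
      exact mul_le_mul_of_nonneg_left (dd_step (by omega) hg ht hκ hρ k) (by positivity)
  have h2 := tendsto_pow_atTop_nhds_zero_of_lt_one hq0.le hq1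
  have hd0 := dd_pos (by omega : 0 < N) hg ht hκ 0
  have h3 : ∀ᶠ k in atTop, (max ρ 1 / N) ^ k < dd N g t κ 0 / 4 :=
    h2.eventually_lt_const (by positivity)
  obtain ⟨k₀, hk₀⟩ := eventually_atTop.mp h3
  refine ⟨k₀, fun k hk => ?_⟩
  have h4 := hk₀ k hk
  have h5 := h1 k
  by_contra h6
  push Not at h6
  have h7 : 0 < (max ρ 1 / (N : ℝ)) ^ k := by positivity
  have h8 := dd_pos (by omega : 0 < N) hg ht hκ k
  nlinarith

/-- In the recurrent case the truncated length of the cycle of every vertex tends to zero. -/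
theorem exists_bound {g : ℕ → ℝ} {t ρ : ℝ} (hN : 2 ≤ N) (hg : ∀ j, 0 < g j) (ht : 0 < t)
    (hρ : ∀ j, g (j + 1) ≤ ρ * g j) (hρN : ρ < N) (hs : ¬ Summable fun j => 1 / g j) :
    ∃ (D P : ℕ → ℝ), (∀ K, 0 < D K ∧ D K ≤ ((N ^ K : ℕ) : ℝ)) ∧ Tendsto P atTop (nhds 0) ∧
      ∃ k₀, ∀ K, k₀ ≤ K → ∀ x : Word N K, EL N K g t K (fun τ => tl (D K) (cl τ x)) ≤ P K := by
  have hNr : (2 : ℝ) ≤ N := by exact_mod_cast hN
  have hm : max ρ 1 < N := max_lt hρN (by linarith)
  have hm1 : (1 : ℝ) ≤ max ρ 1 := le_max_right _ _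
  have hq1 : max ρ 1 / N < 1 := by rw [div_lt_one (by linarith)]; exact hm
  set κ : ℝ := min (1 / 4) (2 / 5 * (1 - max ρ 1 / N)) with hκdef
  have hκ : 0 < κ := lt_min (by norm_num) (by linarith)
  have hκ' : κ ≤ 1 / 4 := min_le_left _ _
  have hq : max ρ 1 / N ≤ 1 - 5 / 2 * κ := by
    have : κ ≤ 2 / 5 * (1 - max ρ 1 / N) := min_le_right _ _
    linarith
  obtain ⟨k₀, hk₀⟩ := dd_large hN hg ht hκ hρ hρN
  refine ⟨dd N g t κ, fun K => ∏ j ∈ Finset.range (K - k₀), (1 - bb g t κ (k₀ + j + 1)),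
    fun K => ⟨dd_pos (by omega) hg ht hκ K, dd_le (by omega) K⟩, ?_, k₀, ?_⟩
  · have h1 : ¬ Summable fun j => bb g t κ (k₀ + j + 1) := by
      intro h
      refine bb_not_summable hg ht hκ hs ?_
      have h2 : (fun j => bb g t κ (k₀ + j + 1)) = fun j => bb g t κ (j + (k₀ + 1)) := by
        funext j; congr 1; ring
      rw [h2] at h
      exact (summable_nat_add_iff (k₀ + 1)).mp h
    have h3 := prod_tendsto (fun j => bb_nonneg hg ht hκ (k₀ + j + 1))
      (fun j => bb_le hg ht hκ hκ' (k₀ + j + 1)) h1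
    exact h3.comp (tendsto_sub_atTop_nat k₀)
  · intro K hK x
    exact chain (by omega) hg ht hκ hκ' hρ hq hk₀ x hK le_rfl

end Chain

end Pool.Agent.Stirring.Hier
end

section

/-! The link between the explicit expectation and the semigroup; the recurrent case. -/

open Finset Filter

set_option linter.unusedSectionVars false

namespace Pool.Agent.Stirring.Hier

section General

variable {V : Type*} [Fintype V] [DecidableEq V]

theorem stepT_pow_apply (c : V × V → ℝ) (n : ℕ) (f : Fn V) (σ : Equiv.Perm V) :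
    (stepT c ^ n) f σ = ∑ w : Fin n → V × V, (∏ i, c (w i)) *
      f (σ * ((List.ofFn w).map fun p => Equiv.swap p.1 p.2).prod) := by
  induction n generalizing σ with
  | zero => simp
  | succ n ih =>
    rw [stepT_pow_succ]
    have e := Equiv.sum_comp (M := ℝ) (Fin.consEquiv (fun _ : Fin (n + 1) => V × V))
      (fun w : Fin (n + 1) → V × V => (∏ i, c (w i)) *
      f (σ * ((List.ofFn w).map fun p => Equiv.swap p.1 p.2).prod))
    conv_rhs => rw [← e, Fintype.sum_prod_type]
    refine Finset.sum_congr rfl fun p _ => ?_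
    rw [ih, Finset.mul_sum]
    refine Finset.sum_congr rfl fun (w : Fin n → V × V) _ => ?_
    have h1 : (Fin.consEquiv (fun _ : Fin (n + 1) => V × V)) (p, w) = Fin.cons p w := rfl
    rw [h1, Fin.prod_univ_succ, List.ofFn_succ]
    simp only [Fin.cons_zero, Fin.cons_succ, List.map_cons, List.prod_cons]
    rw [mul_assoc, mul_assoc]

theorem cycLen_eq (σ : Equiv.Perm V) (x : V) : cycLen σ x = cl σ x := by
  unfold cycLen
  rw [← card_orb, Nat.card_eq_fintype_card, Fintype.card_subtype]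
  congr 1
  ext y
  rw [Finset.mem_filter, mem_orb]
  constructor
  · rintro ⟨_, h⟩
    obtain ⟨i, hi⟩ := h.exists_nat_pow_eq
    exact ⟨i, by rw [Equiv.Perm.iterate_eq_pow]; exact hi⟩
  · rintro ⟨i, hi⟩
    refine ⟨Finset.mem_univ _, (i : ℤ), ?_⟩
    rw [zpow_natCast, ← hi, Equiv.Perm.iterate_eq_pow]

end General

variable {N K : ℕ}

theorem sum_Icc_one (F : ℕ → ℝ) (M : ℕ) :
    ∑ j ∈ Finset.Icc 1 M, F j = ∑ j ∈ Finset.range M, F (j + 1) := by
  induction M with
  | zero => simp
  | succ M ih => rw [Finset.sum_Icc_succ_top (by omega), ih, Finset.sum_range_succ]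

theorem pairRate_eq (g : ℕ → ℝ) : pairRate N K g = lev N K g K := by
  classical
  funext p
  unfold pairRate lev
  rw [Finset.sum_apply, sum_Icc_one]
  refine Finset.sum_congr rfl fun j _ => ?_
  unfold brate
  by_cases h : SameBlock (j + 1) p.1 p.2
  · rw [if_pos h, if_pos (lab_eq_iff.mpr h)]
    push_cast
    rfl
  · rw [if_neg h, if_neg (fun h' => h (lab_eq_iff.mp h'))]

theorem hexpect_eq (g : ℕ → ℝ) (t : ℝ) (f : Fn (Word N K)) :
    hexpect N K g t f = EL N K g t K f := by
  unfold hexpect EL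
  rw [pairRate_eq]
  have h := sg_hasSum (lev N K g K) t f 1
  rw [← h.tsum_eq]
  refine tsum_congr fun n => ?_
  rw [stepT_pow_apply]
  simp only [one_mul]
  unfold tot
  ring

/-- The indicator of a set of permutations. -/
noncomputable def ind {V : Type*} (A : Set (Equiv.Perm V)) : Equiv.Perm V → ℝ :=
  A.indicator fun _ => 1

theorem ind_nonneg {V : Type*} (A : Set (Equiv.Perm V)) (σ : Equiv.Perm V) : 0 ≤ ind A σ :=
  Set.indicator_nonneg (fun _ _ => zero_le_one) σ

theorem ind_long_le (hN : 0 < N) {ε D : ℝ} (hε : 0 < ε) (hD0 : 0 < D)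
    (hD : D ≤ ((N ^ K : ℕ) : ℝ)) (σ : Equiv.Perm (Word N K)) :
    ind {σ : Equiv.Perm (Word N K) | ∃ x, ε * (N : ℝ) ^ K ≤ cycLen σ x} σ ≤
      (1 / (ε * min 1 ε)) * ((1 / (N : ℝ) ^ K) * ∑ x, tl D (cl σ x)) := by
  have hNr : (0 : ℝ) < N := by exact_mod_cast hN
  have hNK : (0 : ℝ) < (N : ℝ) ^ K := by positivity
  have hm : 0 < min 1 ε := lt_min one_pos hε
  unfold ind
  by_cases h : ∃ x, ε * (N : ℝ) ^ K ≤ cycLen σ x
  · rw [Set.indicator_of_mem (by exact h)]
    obtain ⟨x, hx⟩ := h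
    rw [cycLen_eq] at hx
    have h1 : ∀ y ∈ orb σ x, min 1 ε ≤ tl D (cl σ y) := by
      intro y hy
      rw [cl_orb hy]
      refine min_le_min le_rfl ?_
      rw [le_div_iff₀ hD0]
      push_cast at hD
      calc ε * D ≤ ε * (N : ℝ) ^ K := mul_le_mul_of_nonneg_left hD hε.le
        _ ≤ _ := hx
    have h2 : (cl σ x : ℝ) * min 1 ε ≤ ∑ y, tl D (cl σ y) := by
      calc (cl σ x : ℝ) * min 1 ε = ∑ y ∈ orb σ x, min 1 ε := by
            rw [Finset.sum_const, card_orb, nsmul_eq_mul]
        _ ≤ ∑ y ∈ orb σ x, tl D (cl σ y) := Finset.sum_le_sum h1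
        _ ≤ _ := Finset.sum_le_sum_of_subset_of_nonneg (Finset.subset_univ _)
            fun y _ _ => tl_nonneg hD0 _
    rw [← mul_assoc, div_mul_div_comm, one_mul, div_mul_eq_mul_div, one_mul,
      le_div_iff₀ (by positivity), one_mul]
    have h3 : ε * (N : ℝ) ^ K * min 1 ε ≤ (cl σ x : ℝ) * min 1 ε :=
      mul_le_mul_of_nonneg_right hx hm.le
    nlinarith
  · rw [Set.indicator_of_notMem (by exact h)]
    have h1 : 0 ≤ ∑ x, tl D (cl σ x) := Finset.sum_nonneg fun y _ => tl_nonneg hD0 _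
    positivity

theorem card_word : (Fintype.card (Word N K) : ℝ) = (N : ℝ) ^ K := by
  simp [Word]

/-- The recurrent case: no macroscopic cycles at any time. -/
theorem recurrent_case {g : ℕ → ℝ} {ρ : ℝ} (hN : 2 ≤ N) (hg : ∀ j, 0 < g j)
    (hρN : ρ < N) (hρ : ∀ j, g (j + 1) ≤ ρ * g j) (hs : ¬ Summable fun j => 1 / g j)
    {t : ℝ} (ht : 0 ≤ t) {ε : ℝ} (hε : 0 < ε) :
    Tendsto (fun K => hexpect N K g t (ind {σ : Equiv.Perm (Word N K) |
      ∃ x, ε * (N : ℝ) ^ K ≤ cycLen σ x})) atTop (nhds 0) := by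
  have hNr : (2 : ℝ) ≤ N := by exact_mod_cast hN
  have hN0 : 0 < N := by omega
  have hm : 0 < min 1 ε := lt_min one_pos hε
  rcases ht.eq_or_lt with rfl | ht
  · -- time zero
    have h1 : ∀ᶠ K in atTop, 1 / ε < (N : ℝ) ^ K :=
      (tendsto_pow_atTop_atTop_of_one_lt (by linarith)).eventually_gt_atTop _
    refine tendsto_const_nhds.congr' ?_
    filter_upwards [h1] with K hK
    rw [hexpect_eq]
    unfold EL
    rw [sg_zero]
    unfold ind
    rw [Set.indicator_of_notMem]
    rintro ⟨x, hx⟩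
    rw [cycLen_eq] at hx
    have h2 : cl (1 : Equiv.Perm (Word N K)) x = 1 := by
      unfold cl
      have : ((1 : Equiv.Perm (Word N K)) : Word N K → Word N K) = id := rfl
      rw [this, Function.minimalPeriod_id]
    rw [h2] at hx
    rw [div_lt_iff₀ hε] at hK
    push_cast at hx
    linarith
  · obtain ⟨D, P, hD, hP, k₀, hk₀⟩ := exists_bound hN hg ht hρ hρN hs
    have h1 : Tendsto (fun K => (1 / (ε * min 1 ε)) * P K) atTop (nhds 0) := by
      have := hP.const_mul (1 / (ε * min 1 ε))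
      rwa [mul_zero] at this
    refine squeeze_zero' ?_ ?_ h1
    · refine Eventually.of_forall fun K => ?_
      rw [hexpect_eq]
      have h2 := EL_mono (N := N) (K := K) (fun j => (hg j).le) ht.le K
        (f := fun _ => 0) (h := ind {σ : Equiv.Perm (Word N K) |
          ∃ x, ε * (N : ℝ) ^ K ≤ cycLen σ x}) (fun σ _ => ind_nonneg _ σ)
      rwa [EL_const] at h2
    · filter_upwards [eventually_ge_atTop k₀] with K hK
      rw [hexpect_eq]
      have h2 := EL_mono (N := N) (K := K) (fun j => (hg j).le) ht.le K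
        (f := ind {σ : Equiv.Perm (Word N K) | ∃ x, ε * (N : ℝ) ^ K ≤ cycLen σ x})
        (fun σ _ => ind_long_le hN0 hε (hD K).1 (hD K).2 σ)
      refine h2.trans ?_
      rw [EL_mul, EL_mul, EL_sum]
      have hNK : (0 : ℝ) < (N : ℝ) ^ K := by positivity
      have h3 : ∑ x : Word N K, EL N K g t K (fun τ => tl (D K) (cl τ x)) ≤ (N : ℝ) ^ K * P K := by
        calc ∑ x : Word N K, EL N K g t K (fun τ => tl (D K) (cl τ x)) ≤
              ∑ _x : Word N K, P K := Finset.sum_le_sum fun x _ => hk₀ K hK x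
          _ = (N : ℝ) ^ K * P K := by
              rw [Finset.sum_const, Finset.card_univ, nsmul_eq_mul, card_word]
      refine mul_le_mul_of_nonneg_left ?_ (by positivity)
      rw [div_mul_eq_mul_div, one_mul, div_le_iff₀ hNK]
      linarith

end Pool.Agent.Stirring.Hier
end

section

/-! One level of the hierarchy in the transient case. -/

open Finset

set_option linter.unusedSectionVars false

namespace Pool.Agent.Stirring.Hier

/-- The square of the positive part. -/
noncomputable def sp (m x : ℝ) : ℝ := (max (x - m) 0) ^ 2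

theorem sp_nonneg (m x : ℝ) : 0 ≤ sp m x := sq_nonneg _

theorem sp_mono (m : ℝ) {x y : ℝ} (h : x ≤ y) : sp m x ≤ sp m y := by
  unfold sp
  exact pow_le_pow_left₀ (le_max_right _ _) (max_le_max (by linarith) le_rfl) 2

theorem sp_taylor (m x y : ℝ) :
    sp m y ≤ sp m x + 2 * max (x - m) 0 * (y - x) + (y - x) ^ 2 := by
  unfold sp
  set u := max (x - m) 0 with hu
  have h1 : x - m ≤ u := le_max_left _ _
  have h2 : u ^ 2 + 2 * u * (y - x) + (y - x) ^ 2 = (u + (y - x)) ^ 2 := by ring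
  rw [h2]
  rcases le_total (y - m) 0 with h | h
  · rw [max_eq_right h]
    simp only [ne_eq, OfNat.ofNat_ne_zero, not_false_eq_true, zero_pow]
    exact sq_nonneg _
  · rw [max_eq_left h]
    exact pow_le_pow_left₀ h (by linarith) 2

theorem sp_convex (m x y : ℝ) :
    sp m x + 2 * max (x - m) 0 * (y - x) ≤ sp m y := by
  unfold sp
  set u := max (x - m) 0 with hu
  set v := max (y - m) 0 with hv
  have hu0 : 0 ≤ u := le_max_right _ _
  have hv1 : y - m ≤ v := le_max_left _ _
  have h1 : u * (x - m) = u ^ 2 := by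
    rcases le_total (x - m) 0 with h | h
    · rw [hu, max_eq_right h]; ring
    · rw [hu, max_eq_left h]; ring
  have h2 : u * (y - m) ≤ u * v := mul_le_mul_of_nonneg_left hv1 hu0
  nlinarith [sq_nonneg (u - v)]

theorem sp_hasDerivAt (m x : ℝ) : HasDerivAt (sp m) (2 * max (x - m) 0) x := by
  refine HasDerivAt.of_isLittleO ?_
  have h1 : (fun y => sp m y - sp m x - (y - x) • (2 * max (x - m) 0)) =O[nhds x]
      fun y => ‖y - x‖ ^ 2 := by
    refine Asymptotics.IsBigO.of_bound 1 (Filter.Eventually.of_forall fun y => ?_)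
    have h2 := sp_taylor m x y
    have h3 := sp_convex m x y
    rw [Real.norm_eq_abs, Real.norm_eq_abs, Real.norm_eq_abs, sq_abs, one_mul, abs_sq, abs_le,
      smul_eq_mul]
    have h4 := sq_nonneg (y - x)
    constructor
    · linarith
    · linarith
  exact h1.trans_isLittleO (Asymptotics.isLittleO_pow_sub_sub x (by norm_num))

variable {V : Type*} [Fintype V] [DecidableEq V] {ι : Type*} [DecidableEq ι]

section Step

variable {β : V → ι} {n : ℕ} (hn : ∀ x, (blk β x).card = n) {g h : ℝ}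

include hn

/-- The drift of the square of the positive part of the Laplace functional. -/
theorem gen_sp_le (hg : 0 ≤ g) (hh : 0 < h) (m : ℝ) {σ : Equiv.Perm V} (hσ : σ ∈ pres β) (x : V) :
    gen (brate β n g) (fun τ => sp m (Phi β n h τ x)) σ ≤
      2 * max (Phi β n h σ x - m) 0 * gen (brate β n g) (fun τ => Phi β n h τ x) σ +
        g * (4 / h ^ 2) := by
  have hn0 := n_pos hn x
  rw [gen_apply, gen_apply, Finset.mul_sum]
  have h1 : ∀ p ∈ (Finset.univ : Finset (V × V)), brate β n g p *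
      (sp m (Phi β n h (σ * Equiv.swap p.1 p.2) x) - sp m (Phi β n h σ x)) ≤
      2 * max (Phi β n h σ x - m) 0 * (brate β n g p *
        (Phi β n h (σ * Equiv.swap p.1 p.2) x - Phi β n h σ x)) +
      (if p ∈ blk β x ×ˢ blk β x then g / (n : ℝ) ^ 2 * (4 / h ^ 2) else 0) := by
    intro p _
    unfold brate
    by_cases hp : β p.1 = β p.2
    · rw [if_pos hp]
      by_cases hx : β p.1 = β x
      · rw [if_pos (Finset.mem_product.mpr ⟨mem_blk.mpr hx, mem_blk.mpr (by rw [← hp]; exact hx)⟩)]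
        have h2 := sp_taylor m (Phi β n h σ x) (Phi β n h (σ * Equiv.swap p.1 p.2) x)
        have h3 := Phi_jump (β := β) hn0 hh σ p.1 p.2 x
        have h4 : (Phi β n h (σ * Equiv.swap p.1 p.2) x - Phi β n h σ x) ^ 2 ≤ 4 / h ^ 2 := by
          have h5 : (4 : ℝ) / h ^ 2 = (2 / h) ^ 2 := by ring
          rw [h5]
          exact sq_le_sq' (by linarith [(abs_le.mp h3).1]) (abs_le.mp h3).2
        have h6 : 0 ≤ g / (n : ℝ) ^ 2 := by positivity
        have h7 : sp m (Phi β n h (σ * Equiv.swap p.1 p.2) x) - sp m (Phi β n h σ x) ≤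
            2 * max (Phi β n h σ x - m) 0 *
              (Phi β n h (σ * Equiv.swap p.1 p.2) x - Phi β n h σ x) + 4 / h ^ 2 := by linarith
        have h8 := mul_le_mul_of_nonneg_left h7 h6
        linarith
      · rw [Phi_out hσ hp hx]
        rw [sub_self, sub_self, mul_zero, mul_zero, zero_add]
        split_ifs
        · positivity
        · exact le_rfl
    · rw [if_neg hp, zero_mul, zero_mul, mul_zero, zero_add]
      split_ifs
      · positivity
      · exact le_rfl
  refine (Finset.sum_le_sum h1).trans ?_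
  rw [Finset.sum_add_distrib]
  refine add_le_add le_rfl (le_of_eq ?_)
  rw [← Finset.sum_filter, Finset.filter_mem_eq_inter, Finset.univ_inter, Finset.sum_const,
    Finset.card_product, hn, nsmul_eq_mul]
  push_cast
  field_simp

/-- Drift of the Laplace functional with decreasing parameter. -/
theorem move_Phi_le {b m : ℝ} (hg : 0 ≤ g) (hh : 0 < h) (hbm : b + m ≤ 1 / 2)
    {σ : Equiv.Perm V} (hσ : σ ∈ pres β) (x : V) :
    gen (brate β n g) (fun τ => Phi β n h τ x) σ + 2 * b * g * dPhi β n h σ x ≤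
      g * (4 / h ^ 2 + 8 * b ^ 2 / h * sp m (Phi β n h σ x)) := by
  have h1 := gen_Phi_le hn hg hh hσ x
  set P := Phi β n h σ x with hP
  set d := dPhi β n h σ x with hd
  have hd0 : 0 ≤ d := dPhi_nonneg hn h σ x
  have h2 : h * d ≤ 1 - P := mul_dPhi_le hn h σ x
  have h3 : (2 * b - 2 * (1 - P)) * d ≤ 8 * b ^ 2 / h * sp m P := by
    by_cases hA : b ≤ 1 - P
    · have h4 : (2 * b - 2 * (1 - P)) * d ≤ 0 :=
        mul_nonpos_of_nonpos_of_nonneg (by linarith) hd0
      have h5 : 0 ≤ 8 * b ^ 2 / h * sp m P := mul_nonneg (by positivity) (sp_nonneg m P)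
      linarith
    · push Not at hA
      have h4 : 1 / 4 ≤ sp m P := by
        unfold sp
        have h5 : 1 / 2 ≤ max (P - m) 0 := le_trans (by linarith) (le_max_left _ _)
        nlinarith
      have h6 : d ≤ b / h := by
        rw [le_div_iff₀ hh]; linarith
      have h7 : 0 ≤ 1 - P := le_trans (mul_nonneg hh.le hd0) h2
      have h8 : (2 * b - 2 * (1 - P)) * d ≤ 2 * b * (b / h) := by
        have : (2 * b - 2 * (1 - P)) * d ≤ 2 * b * d :=
          mul_le_mul_of_nonneg_right (by linarith) hd0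
        exact this.trans (mul_le_mul_of_nonneg_left h6 (by linarith))
      have h9 : 2 * b * (b / h) = 8 * b ^ 2 / h * (1 / 4) := by ring
      rw [h9] at h8
      exact h8.trans (mul_le_mul_of_nonneg_left h4 (by positivity))
  have h10 := mul_le_mul_of_nonneg_left h3 hg
  nlinarith

/-- Drift of the square with decreasing parameter. -/
theorem move_sp_le {b m : ℝ} (hg : 0 ≤ g) (hh : 0 < h) (hm0 : 0 ≤ m)
    (hbm : b + m ≤ 1 / 2) {σ : Equiv.Perm V} (hσ : σ ∈ pres β) (x : V) :
    gen (brate β n g) (fun τ => sp m (Phi β n h τ x)) σ +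
        2 * max (Phi β n h σ x - m) 0 * (2 * b * g * dPhi β n h σ x) ≤
      g * (8 * b ^ 2 / h) * sp m (Phi β n h σ x) + g * (12 / h ^ 2) := by
  have h1 := gen_sp_le hn hg hh m hσ x
  have h2 := gen_Phi_le hn hg hh hσ x
  set P := Phi β n h σ x with hP
  set d := dPhi β n h σ x with hd
  have hd0 : 0 ≤ d := dPhi_nonneg hn h σ x
  have h3 : h * d ≤ 1 - P := mul_dPhi_le hn h σ x
  have hP1 : 0 ≤ 1 - P := le_trans (mul_nonneg hh.le hd0) h3
  set u := max (P - m) 0 with hu
  have hu0 : 0 ≤ u := le_max_right _ _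
  have hu1 : u ≤ 1 := max_le (by linarith) zero_le_one
  have hsp : sp m P = u ^ 2 := rfl
  have h4 : 2 * u * ((2 * b - 2 * (1 - P)) * d) ≤ 8 * b ^ 2 / h * u ^ 2 := by
    by_cases hA : b ≤ 1 - P
    · have h4 : (2 * b - 2 * (1 - P)) * d ≤ 0 :=
        mul_nonpos_of_nonpos_of_nonneg (by linarith) hd0
      have h5 : 0 ≤ 8 * b ^ 2 / h * u ^ 2 := by positivity
      nlinarith [mul_nonneg hu0 (neg_nonneg.mpr h4)]
    · push Not at hA
      have h5 : 1 / 2 ≤ u := le_trans (by linarith) (le_max_left _ _)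
      have h6 : d ≤ b / h := by
        rw [le_div_iff₀ hh]; linarith
      have h8 : (2 * b - 2 * (1 - P)) * d ≤ 2 * b * (b / h) := by
        have : (2 * b - 2 * (1 - P)) * d ≤ 2 * b * d :=
          mul_le_mul_of_nonneg_right (by linarith) hd0
        exact this.trans (mul_le_mul_of_nonneg_left h6 (by linarith))
      have h9 : 2 * u * ((2 * b - 2 * (1 - P)) * d) ≤ 2 * u * (2 * b * (b / h)) :=
        mul_le_mul_of_nonneg_left h8 (by linarith)
      have h10 : 2 * u * (2 * b * (b / h)) = (4 * b ^ 2 / h) * u := by ring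
      have h11 : 8 * b ^ 2 / h * u ^ 2 = (4 * b ^ 2 / h) * (2 * u * u) := by ring
      rw [h10] at h9
      rw [h11]
      refine h9.trans (mul_le_mul_of_nonneg_left ?_ (by positivity))
      nlinarith
  have h5 : 2 * u * (g * (4 / h ^ 2 - 2 * (1 - P) * d)) + g * (4 / h ^ 2) +
      2 * u * (2 * b * g * d) ≤ g * (8 * b ^ 2 / h) * sp m P + g * (12 / h ^ 2) := by
    rw [hsp]
    have h6 : 2 * u * (g * (4 / h ^ 2)) ≤ g * (8 / h ^ 2) := by
      have h7 : 0 ≤ g * (8 / h ^ 2) := by positivity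
      have h8 : 2 * u * (g * (4 / h ^ 2)) = u * (g * (8 / h ^ 2)) := by ring
      rw [h8]
      nlinarith
    have h9 := mul_le_mul_of_nonneg_left h4 hg
    have h10 : g * (12 / h ^ 2) = g * (8 / h ^ 2) + g * (4 / h ^ 2) := by ring
    rw [h10]
    nlinarith
  have h6 : 2 * u * gen (brate β n g) (fun τ => Phi β n h τ x) σ ≤
      2 * u * (g * (4 / h ^ 2 - 2 * (1 - P) * d)) :=
    mul_le_mul_of_nonneg_left h2 (by linarith)
  linarith

theorem gen_Phi_simple (hg : 0 ≤ g) (hh : 0 < h) {σ : Equiv.Perm V} (hσ : σ ∈ pres β) (x : V) :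
    gen (brate β n g) (fun τ => Phi β n h τ x) σ ≤ g * (4 / h ^ 2) := by
  refine (gen_Phi_le hn hg hh hσ x).trans (mul_le_mul_of_nonneg_left ?_ hg)
  have h1 := dPhi_nonneg hn h σ x
  have h2 := Phi_le_one hn hh.le σ x
  have : 0 ≤ 2 * (1 - Phi β n h σ x) * dPhi β n h σ x := by
    have : 0 ≤ 1 - Phi β n h σ x := by linarith
    positivity
  linarith

theorem gen_sp_simple (hg : 0 ≤ g) (hh : 0 < h) {m : ℝ} (hm0 : 0 ≤ m) {σ : Equiv.Perm V}
    (hσ : σ ∈ pres β) (x : V) :
    gen (brate β n g) (fun τ => sp m (Phi β n h τ x)) σ ≤ g * (12 / h ^ 2) := by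
  have h1 := gen_sp_le hn hg hh m hσ x
  have h2 := gen_Phi_simple hn hg hh hσ x
  have h3 := Phi_le_one hn hh.le σ x
  set u := max (Phi β n h σ x - m) 0 with hu
  have hu0 : 0 ≤ u := le_max_right _ _
  have hu1 : u ≤ 1 := max_le (by linarith) zero_le_one
  have h4 : 2 * u * gen (brate β n g) (fun τ => Phi β n h τ x) σ ≤ 2 * u * (g * (4 / h ^ 2)) :=
    mul_le_mul_of_nonneg_left h2 (by linarith)
  have h5 : 2 * u * (g * (4 / h ^ 2)) ≤ g * (8 / h ^ 2) := by
    have h7 : 0 ≤ g * (8 / h ^ 2) := by positivity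
    have h8 : 2 * u * (g * (4 / h ^ 2)) = u * (g * (8 / h ^ 2)) := by ring
    rw [h8]
    nlinarith
  have h6 : g * (12 / h ^ 2) = g * (8 / h ^ 2) + g * (4 / h ^ 2) := by ring
  rw [h6]
  linarith

omit hn in
theorem exp_quarter_le {y : ℝ} (hy : y ≤ 1 / 4) : Real.exp y ≤ 4 / 3 := by
  have h1 : Real.exp y ≤ Real.exp (1 / 4) := Real.exp_le_exp.mpr hy
  refine h1.trans ?_
  have h2 := Real.add_one_le_exp (-(1 / 4 : ℝ))
  have h3 : Real.exp (1 / 4) * Real.exp (-(1 / 4)) = 1 := by rw [← Real.exp_add]; simp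
  have h4 := Real.exp_pos (1 / 4)
  nlinarith

section OneLevel

variable {b m t h₀ h₁ : ℝ}

/-- First phase: the parameter decreases from `h₀` to `h₁`. -/
theorem phase_one (hg : 0 < g) (hh₁ : 0 < h₁) (h10 : h₁ ≤ h₀) (hb : 0 < b) (hm0 : 0 ≤ m)
    (hbm : b + m ≤ 1 / 2) (hbh : 16 * b * h₀ ≤ h₁) {σ : Equiv.Perm V} (hσ : σ ∈ pres β) (x : V) :
    sg (brate β n g) ((h₀ - h₁) / (2 * b * g)) (fun τ => sp m (Phi β n h₁ τ x)) σ ≤
      4 / 3 * (sp m (Phi β n h₀ σ x) + g * (12 / h₁ ^ 2) * ((h₀ - h₁) / (2 * b * g))) ∧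
    sg (brate β n g) ((h₀ - h₁) / (2 * b * g)) (fun τ => Phi β n h₁ τ x) σ ≤
      Phi β n h₀ σ x + g * (4 / h₁ ^ 2) * ((h₀ - h₁) / (2 * b * g)) +
      1 / 4 * (4 / 3 * (sp m (Phi β n h₀ σ x) +
        g * (12 / h₁ ^ 2) * ((h₀ - h₁) / (2 * b * g)))) := by
  set T : ℝ := (h₀ - h₁) / (2 * b * g) with hT
  have hbg : 0 < 2 * b * g := by positivity
  have hT0 : 0 ≤ T := div_nonneg (by linarith) hbg.le
  set hs : ℝ → ℝ := fun s => h₀ - 2 * b * g * s with hhs
  have hs0 : hs 0 = h₀ := by simp [hhs]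
  have hsT : hs T = h₁ := by
    simp only [hhs, hT]
    field_simp
    ring
  have hs1 : ∀ s ∈ Set.Icc 0 T, h₁ ≤ hs s := by
    intro s hs'
    rw [← hsT]
    simp only [hhs]
    have := mul_le_mul_of_nonneg_left hs'.2 hbg.le
    linarith
  set F : ℝ → Fn V := fun s τ => Phi β n (hs s) τ x with hF
  set F' : ℝ → Fn V := fun s τ => 2 * b * g * dPhi β n (hs s) τ x with hF'
  have hds : ∀ s, HasDerivAt hs (-(2 * b * g)) s := by
    intro s
    have := ((hasDerivAt_id s).const_mul (2 * b * g)).const_sub h₀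
    exact this.congr_deriv (by ring)
  have hd : ∀ s τ, HasDerivAt (fun u => F u τ) (F' s τ) s := by
    intro s τ
    have h1 := (Phi_hasDerivAt β n (hs s) τ x).comp s (hds s)
    exact h1.congr_deriv (by simp only [hF']; ring)
  have hdsp : ∀ s τ, HasDerivAt (fun u => sp m (F u τ))
      (2 * max (Phi β n (hs s) τ x - m) 0 * (2 * b * g * dPhi β n (hs s) τ x)) s := by
    intro s τ
    exact (sp_hasDerivAt m (F s τ)).comp s (hd s τ)
  set B : ℝ := g * (8 * b ^ 2 / h₁) with hB
  set κ : ℝ := g * (12 / h₁ ^ 2) with hκ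
  have hB0 : 0 ≤ B := by positivity
  have hκ0 : 0 ≤ κ := by positivity
  have hBT : B * T ≤ 1 / 4 := by
    have h1 : B * T = 4 * b * (h₀ - h₁) / h₁ := by
      rw [hB, hT]; field_simp; ring
    rw [h1, div_le_iff₀ hh₁]
    nlinarith
  -- the bound for the square
  have key : ∀ S ∈ Set.Icc 0 T, sg (brate β n g) S (fun τ => sp m (F S τ)) σ ≤
      4 / 3 * (sp m (Phi β n h₀ σ x) + κ * T) := by
    intro S hS
    have h1 := move_gron (brate_nonneg (β := β) (n := n) hg.le) (stab_pres β n g)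
      (F := fun s τ => sp m (F s τ))
      (F' := fun s τ => 2 * max (Phi β n (hs s) τ x - m) 0 * (2 * b * g * dPhi β n (hs s) τ x))
      hB0 hκ0 hS.1 (fun s _ τ => hdsp s τ) (by
        intro s hs' τ hτ
        have hs2 := hs1 s ⟨hs'.1, hs'.2.trans hS.2⟩
        have hpos : 0 < hs s := lt_of_lt_of_le hh₁ hs2
        refine (move_sp_le hn hg.le hpos hm0 hbm hτ x).trans ?_
        have h2 : g * (8 * b ^ 2 / hs s) ≤ B := by
          rw [hB]
          refine mul_le_mul_of_nonneg_left ?_ hg.le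
          exact div_le_div_of_nonneg_left (by positivity) hh₁ hs2
        have h3 : g * (12 / hs s ^ 2) ≤ κ := by
          rw [hκ]
          refine mul_le_mul_of_nonneg_left ?_ hg.le
          exact div_le_div_of_nonneg_left (by norm_num) (by positivity)
            (pow_le_pow_left₀ hh₁.le hs2 2)
        exact add_le_add (mul_le_mul_of_nonneg_right h2 (sp_nonneg _ _)) h3) hσ
    refine h1.trans ?_
    have h2 : Real.exp (B * S) ≤ 4 / 3 := by
      refine exp_quarter_le (le_trans ?_ hBT)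
      exact mul_le_mul_of_nonneg_left hS.2 hB0
    have h3 : F 0 σ = Phi β n h₀ σ x := by simp only [hF, hs0]
    simp only [h3]
    have h4 : κ * S ≤ κ * T := mul_le_mul_of_nonneg_left hS.2 hκ0
    have h5 : 0 ≤ κ * S := mul_nonneg hκ0 hS.1
    have h6 := sp_nonneg m (Phi β n h₀ σ x)
    calc Real.exp (B * S) * (sp m (Phi β n h₀ σ x) + κ * S) ≤
          4 / 3 * (sp m (Phi β n h₀ σ x) + κ * S) :=
          mul_le_mul_of_nonneg_right h2 (by linarith)
      _ ≤ _ := by linarith
  constructor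
  · have h1 := key T ⟨hT0, le_rfl⟩
    simp only [hF, hsT] at h1
    exact h1
  · set Q : ℝ := 4 / 3 * (sp m (Phi β n h₀ σ x) + κ * T) with hQ
    have hQ0 : 0 ≤ Q := by
      have h6 := sp_nonneg m (Phi β n h₀ σ x)
      have h7 := mul_nonneg hκ0 hT0
      positivity
    have h1 := lin_upper_Icc (κ := g * (4 / h₁ ^ 2) + B * Q) hT0
      (fun s _ => sg_move_hasDerivAt (brate β n g) (F := F) (F' := F') (s := s)
        (fun τ => hd s τ) σ) (by
        intro s hs'
        have hs2 := hs1 s hs'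
        have hpos : 0 < hs s := lt_of_lt_of_le hh₁ hs2
        have h2 := sg_mono_on (brate_nonneg (β := β) (n := n) hg.le) (stab_pres β n g)
          (f := fun τ => gen (brate β n g) (F s) τ + F' s τ)
          (g := (fun _ => g * (4 / h₁ ^ 2)) + B • (fun τ => sp m (F s τ))) (by
            intro τ hτ
            rw [Pi.add_apply, Pi.smul_apply, smul_eq_mul]
            refine (move_Phi_le hn hg.le hpos hbm hτ x).trans ?_
            have h3 : g * (4 / hs s ^ 2) ≤ g * (4 / h₁ ^ 2) := by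
              refine mul_le_mul_of_nonneg_left ?_ hg.le
              exact div_le_div_of_nonneg_left (by norm_num) (by positivity)
                (pow_le_pow_left₀ hh₁.le hs2 2)
            have h4 : g * (8 * b ^ 2 / hs s) ≤ B := by
              rw [hB]
              refine mul_le_mul_of_nonneg_left ?_ hg.le
              exact div_le_div_of_nonneg_left (by positivity) hh₁ hs2
            have h5 : g * (4 / hs s ^ 2 + 8 * b ^ 2 / hs s * sp m (Phi β n (hs s) τ x)) =
                g * (4 / hs s ^ 2) + g * (8 * b ^ 2 / hs s) * sp m (Phi β n (hs s) τ x) := by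
              ring
            rw [h5]
            exact add_le_add h3 (mul_le_mul_of_nonneg_right h4 (sp_nonneg _ _))) hs'.1 σ hσ
        rw [sg_add, sg_const, sg_smul] at h2
        refine h2.trans ?_
        exact add_le_add le_rfl (mul_le_mul_of_nonneg_left (key s hs') hB0))
    simp only [sg_zero] at h1
    have h2 : F 0 σ = Phi β n h₀ σ x := by simp only [hF, hs0]
    have h3 : sg (brate β n g) T (F T) σ =
        sg (brate β n g) T (fun τ => Phi β n h₁ τ x) σ := by
      simp only [hF, hsT]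
    rw [h2, h3] at h1
    refine h1.trans ?_
    have h4 : (g * (4 / h₁ ^ 2) + B * Q) * T = g * (4 / h₁ ^ 2) * T + (B * T) * Q := by ring
    rw [h4]
    have h5 : (B * T) * Q ≤ 1 / 4 * Q := mul_le_mul_of_nonneg_right hBT hQ0
    linarith

/-- The two bounds for one level. -/
theorem one_level (hg : 0 < g) (hh₁ : 0 < h₁) (h10 : h₁ ≤ h₀) (hb : 0 < b) (hm0 : 0 ≤ m)
    (hbm : b + m ≤ 1 / 2) (hbh : 16 * b * h₀ ≤ h₁) (ht : h₀ - h₁ ≤ 2 * b * g * t)
    {σ : Equiv.Perm V} (hσ : σ ∈ pres β) (x : V) :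
    sg (brate β n g) t (fun τ => sp m (Phi β n h₁ τ x)) σ ≤
      4 / 3 * sp m (Phi β n h₀ σ x) + 16 * (g * t) / h₁ ^ 2 ∧
    sg (brate β n g) t (fun τ => Phi β n h₁ τ x) σ ≤
      Phi β n h₀ σ x + 1 / 3 * sp m (Phi β n h₀ σ x) + 8 * (g * t) / h₁ ^ 2 := by
  set T : ℝ := (h₀ - h₁) / (2 * b * g) with hT
  have hbg : 0 < 2 * b * g := by positivity
  have hT0 : 0 ≤ T := div_nonneg (by linarith) hbg.le
  have hTt : T ≤ t := by
    rw [hT, div_le_iff₀ hbg]; linarith
  have hc := brate_nonneg (β := β) (n := n) hg.le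
  have hG := stab_pres β n g
  obtain ⟨h1, h2⟩ := phase_one hn hg hh₁ h10 hb hm0 hbm hbh hσ x
  rw [← hT] at h1 h2
  have e1 : sg (brate β n g) t = sg (brate β n g) T * sg (brate β n g) (t - T) := by
    rw [← sg_add_time]; congr 1; ring
  have hh2 : 0 < h₁ ^ 2 := by positivity
  have hTg : 0 ≤ g * T / h₁ ^ 2 := by positivity
  have htT : 0 ≤ g * (t - T) / h₁ ^ 2 := by
    have : 0 ≤ t - T := by linarith
    positivity
  constructor
  · have h3 : ∀ τ ∈ pres β, sg (brate β n g) (t - T) (fun τ => sp m (Phi β n h₁ τ x)) τ ≤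
        (((fun τ => sp m (Phi β n h₁ τ x)) : Fn V) + ((fun _ => g * (12 / h₁ ^ 2) * (t - T)) : Fn V)) τ := by
      intro τ hτ
      exact sg_lin_upper hc hG (fun τ' hτ' => gen_sp_simple hn hg.le hh₁ hm0 hτ' x)
        (by linarith) hτ
    have h4 := sg_mono_on hc hG h3 hT0 σ hσ
    rw [sg_add, sg_const] at h4
    rw [e1]
    have h5 := h4.trans (add_le_add h1 le_rfl)
    have h6 : 4 / 3 * (sp m (Phi β n h₀ σ x) + g * (12 / h₁ ^ 2) * T) +
        g * (12 / h₁ ^ 2) * (t - T) = 4 / 3 * sp m (Phi β n h₀ σ x) + 16 * (g * T / h₁ ^ 2) +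
        12 * (g * (t - T) / h₁ ^ 2) := by ring
    have h7 : 16 * (g * t) / h₁ ^ 2 = 16 * (g * T / h₁ ^ 2) + 16 * (g * (t - T) / h₁ ^ 2) := by
      ring
    rw [h6] at h5
    rw [h7]
    exact h5.trans (by linarith)
  · have h3 : ∀ τ ∈ pres β, sg (brate β n g) (t - T) (fun τ => Phi β n h₁ τ x) τ ≤
        (((fun τ => Phi β n h₁ τ x) : Fn V) + ((fun _ => g * (4 / h₁ ^ 2) * (t - T)) : Fn V)) τ := by
      intro τ hτ
      exact sg_lin_upper hc hG (fun τ' hτ' => gen_Phi_simple hn hg.le hh₁ hτ' x)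
        (by linarith) hτ
    have h4 := sg_mono_on hc hG h3 hT0 σ hσ
    rw [sg_add, sg_const] at h4
    rw [e1]
    have h5 := h4.trans (add_le_add h2 le_rfl)
    have h6 : Phi β n h₀ σ x + g * (4 / h₁ ^ 2) * T +
        1 / 4 * (4 / 3 * (sp m (Phi β n h₀ σ x) + g * (12 / h₁ ^ 2) * T)) +
        g * (4 / h₁ ^ 2) * (t - T) = Phi β n h₀ σ x + 1 / 3 * sp m (Phi β n h₀ σ x) +
        8 * (g * T / h₁ ^ 2) + 4 * (g * (t - T) / h₁ ^ 2) := by ring
    have h7 : 8 * (g * t) / h₁ ^ 2 = 8 * (g * T / h₁ ^ 2) + 8 * (g * (t - T) / h₁ ^ 2) := by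
      ring
    rw [h6] at h5
    rw [h7]
    exact h5.trans (by linarith)

end OneLevel

end Step

end Pool.Agent.Stirring.Hier
end

section

/-! A10a: the product `bet` and the arithmetic of the induction. Only real numbers. -/

open Finset

namespace Pool.Agent.Stirring.HP

theorem bet_zero : bet 0 = 1 := by
  unfold bet
  rw [range_zero, prod_empty]

theorem bet_succ (M : ℕ) : bet (M + 1) = bet M * (1 - 1 / (4 * ((M : ℝ) + 1))) := by
  unfold bet
  rw [prod_range_succ]

private theorem A10a_fac (i : ℕ) : 0 < 1 - 1 / (4 * ((i : ℝ) + 1)) ∧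
    1 - 1 / (4 * ((i : ℝ) + 1)) ≤ 1 := by
  have h1 : (0 : ℝ) ≤ i := Nat.cast_nonneg i
  have h2 : (0 : ℝ) < 4 * ((i : ℝ) + 1) := by linarith
  have h3 : 1 / (4 * ((i : ℝ) + 1)) < 1 := by
    rw [div_lt_one h2]
    linarith
  have h4 : 0 < 1 / (4 * ((i : ℝ) + 1)) := one_div_pos.2 h2
  constructor <;> linarith

theorem bet_pos (M : ℕ) : 0 < bet M := by
  unfold bet
  exact prod_pos fun i _ => (A10a_fac i).1

theorem bet_le_one (M : ℕ) : bet M ≤ 1 := by
  unfold bet
  exact prod_le_one (fun i _ => (A10a_fac i).1.le) fun i _ => (A10a_fac i).2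

theorem bet_anti {M M' : ℕ} (h : M ≤ M') : bet M' ≤ bet M := by
  induction M', h using Nat.le_induction with
  | base => exact le_rfl
  | succ k _ ih =>
    rw [bet_succ]
    exact (mul_le_of_le_one_right (bet_pos k).le (A10a_fac k).2).trans ih

/-- `(1 - 1 / (4 i)) ^ 2 ≥ i / (i + 1)`. -/
theorem bet_lower (M : ℕ) : 1 / ((M : ℝ) + 1) ≤ bet M ^ 2 := by
  induction M with
  | zero => rw [bet_zero]; norm_num
  | succ k ih =>
    rw [bet_succ, mul_pow]
    push_cast
    obtain ⟨t, ht⟩ : ∃ t : ℝ, t = (k : ℝ) + 1 := ⟨_, rfl⟩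
    have ht1 : 1 ≤ t := by
      rw [ht]
      have : (0 : ℝ) ≤ k := Nat.cast_nonneg k
      linarith
    rw [← ht] at ih ⊢
    have ht0 : 0 < t := by linarith
    have h1 : 1 / (t + 1) ≤ 1 / t * (1 - 1 / (4 * t)) ^ 2 := by
      have e : 1 / t * (1 - 1 / (4 * t)) ^ 2 = (4 * t - 1) ^ 2 / (16 * t ^ 3) := by
        field_simp
        ring
      rw [e, div_le_div_iff₀ (by linarith) (by positivity)]
      nlinarith
    exact h1.trans (mul_le_mul_of_nonneg_right ih (sq_nonneg _))

/-- `(1 - u) ^ 4 (1 + 4 u) ≤ (1 - u) ^ 4 (1 + u) ^ 4 ≤ 1` with `u = 1 / (4 i)`. -/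
theorem bet_upper (M : ℕ) : bet M ^ 4 ≤ 1 / ((M : ℝ) + 1) := by
  induction M with
  | zero => rw [bet_zero]; norm_num
  | succ k ih =>
    rw [bet_succ, mul_pow]
    push_cast
    obtain ⟨t, ht⟩ : ∃ t : ℝ, t = (k : ℝ) + 1 := ⟨_, rfl⟩
    have ht1 : 1 ≤ t := by
      rw [ht]
      have : (0 : ℝ) ≤ k := Nat.cast_nonneg k
      linarith
    rw [← ht] at ih ⊢
    have ht0 : 0 < t := by linarith
    have h1 : 1 / t * (1 - 1 / (4 * t)) ^ 4 ≤ 1 / (t + 1) := by
      have e : 1 / t * (1 - 1 / (4 * t)) ^ 4 = (4 * t - 1) ^ 4 / (256 * t ^ 5) := by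
        field_simp
        ring
      rw [e, div_le_div_iff₀ (by positivity) (by linarith)]
      have h3 : 0 ≤ t ^ 2 * (t - 1) := mul_nonneg (sq_nonneg t) (by linarith)
      have h4 : 0 ≤ t ^ 2 := sq_nonneg t
      nlinarith
    exact (mul_le_mul_of_nonneg_right ih (by positivity)).trans h1

end Pool.Agent.Stirring.HP
end

section

/-! The functional of the cycle lengths. -/

open Finset Pool.Agent.Stirring.Hier

set_option linter.unusedSectionVars false

namespace Pool.Agent.Stirring.Mono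

variable {V : Type*} [Fintype V] [DecidableEq V] {ι : Type*} [DecidableEq ι]

/-- The sum of `φ` of the lengths of the cycles of all points. -/
noncomputable def cs (φ : ℕ → ℝ) : Fn V := fun σ => ∑ z, φ (cl σ z)

/-- Its increment under the transposition of `x` and `y`. -/
noncomputable def hh (φ : ℕ → ℝ) (x y : V) : Fn V := fun σ => cs φ (σ * Equiv.swap x y) - cs φ σ

/-- TASK H1a. PROOF. `cl (g * σ * g⁻¹) (g z) = cl σ z`: minimal periods, the iterates satisfy
`(g * σ * g⁻¹)^[i] (g z) = g (σ^[i] z)` (induction), injectivity of `g`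
(`minPeriod_eq` from HierCycle, or `Function.minimalPeriod_eq_minimalPeriod_iff`, or
`Function.Semiconj`). Then `Equiv.sum_comp g`. -/
theorem cs_conj (φ : ℕ → ℝ) (g σ : Equiv.Perm V) : cs φ (g * σ * g⁻¹) = cs φ σ := by
  have hit : ∀ (z : V) (i : ℕ), ((g * σ * g⁻¹ : Equiv.Perm V) : V → V)^[i] (g z) =
      g ((σ : V → V)^[i] z) := by
    intro z i
    induction i with
    | zero => rfl
    | succ i ih =>
      rw [Function.iterate_succ_apply', Function.iterate_succ_apply', ih]
      show g (σ (g⁻¹ (g _))) = _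
      simp
  have hcl : ∀ z : V, cl (g * σ * g⁻¹) (g z) = cl σ z := by
    intro z
    refine minPeriod_eq (cl_pos σ z) ?_ ?_
    · rw [hit, iterate_cl]
    · intro j h0 hj h
      rw [hit] at h
      exact iter_ne hj h0 (g.injective h)
  unfold cs
  rw [← Equiv.sum_comp g]
  exact Finset.sum_congr rfl fun z _ => by rw [hcl]

/-- TASK H1b. PROOF. The colour is constant along the cycles of `π`: `c (π^[i] z) = c z`, so no cycle
contains both `x` and `y`. If the cycle of `z` contains neither: `cl_swap_out`, equality. If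
`x = π^[p] z` with `p < cl π z` (use `iter_mod`), then `y` is not in the cycle of `z`
(`c y ≠ c x = c z`) and `cl_swap_merge` gives `cl (π * swap x y) z = cl π z + cl π y`. If
`y = π^[p] z`, the same with `Equiv.swap_comm`. -/
theorem cl_le_of_sep {c : V → V} {π : Equiv.Perm V} (hπ : π ∈ yg c) {x y : V} (hxy : c x ≠ c y)
    (z : V) : cl π z ≤ cl (π * Equiv.swap x y) z := by
  have hc : ∀ i, c ((π : V → V)^[i] z) = c z := by
    intro i
    induction i with
    | zero => rfl
    | succ i ih => rw [Function.iterate_succ_apply', mem_yg.mp hπ, ih]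
  by_cases hx : ∃ i, (π : V → V)^[i] z = x
  · obtain ⟨i, hi⟩ := hx
    have hy : ∀ j, (π : V → V)^[j] z ≠ y := by
      intro j hj
      apply hxy
      rw [← hi, ← hj, hc, hc]
    have h := cl_swap_merge (σ := π) (x := z) (b := y) (p := i % cl π z)
      (Nat.mod_lt _ (cl_pos π z)) hy
    rw [← iter_mod, hi] at h
    omega
  · by_cases hy : ∃ i, (π : V → V)^[i] z = y
    · obtain ⟨i, hi⟩ := hy
      have hx' : ∀ j, (π : V → V)^[j] z ≠ x := fun j hj => hx ⟨j, hj⟩
      have h := cl_swap_merge (σ := π) (x := z) (b := x) (p := i % cl π z)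
        (Nat.mod_lt _ (cl_pos π z)) hx'
      rw [← iter_mod, hi, Equiv.swap_comm] at h
      omega
    · rw [cl_swap_out (fun i h => hx ⟨i, h⟩) (fun i h => hy ⟨i, h⟩)]

/-- TASK H1c. PROOF. `CI`: for `g` fixing `x` and `y`: `g σ g⁻¹ * swap x y = g (σ * swap x y) g⁻¹`
(`swap (g x) (g y) = g * swap x y * g⁻¹`, `Equiv.swap_apply_apply`) and `cs_conj` twice. `AS`: for
two different marks, `{u, v} = {x, y}` so `swap u v = swap x y` (`Equiv.swap_comm`),
`σ * swap x y * swap x y = σ`, so `hh (σ * swap x y) = cs σ - cs (σ * swap x y) = -hh σ`. `NP`: if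
`x = y` then `hh = 0` (`Equiv.swap_self`) and the sum is `0`. Otherwise `c x ≠ c y` (separation of the
marks), and for `π ∈ yg c`: `hh φ x y π ≤ 0` by `cl_le_of_sep` and `hφ`; `Finset.sum_nonpos`. -/
theorem hh_cone {φ : ℕ → ℝ} (hφ : Antitone φ) (β : V → ι) (x y : V) :
    Cone β {x, y} (hh φ x y) := by
  refine ⟨?_, ?_, ?_⟩
  · intro g _ hg σ
    have hx : g x = x := hg x (by simp)
    have hy : g y = y := hg y (by simp)
    have h1 : Equiv.swap x y = g * Equiv.swap x y * g⁻¹ := by
      rw [← Equiv.swap_apply_apply, hx, hy]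
    have h2 : g * σ * g⁻¹ * Equiv.swap x y = g * (σ * Equiv.swap x y) * g⁻¹ := by
      conv_lhs => rw [h1]
      group
    unfold hh
    rw [h2, cs_conj, cs_conj]
  · intro u hu v hv huv σ
    have h1 : Equiv.swap u v = Equiv.swap x y := by
      simp only [Finset.mem_insert, Finset.mem_singleton] at hu hv
      rcases hu with rfl | rfl <;> rcases hv with rfl | rfl
      · exact absurd rfl huv
      · rfl
      · exact Equiv.swap_comm _ _
      · exact absurd rfl huv
    unfold hh
    rw [h1, mul_assoc, Equiv.swap_mul_self, mul_one]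
    ring
  · intro c _ hc
    unfold ys
    refine Finset.sum_nonpos fun π hπ => ?_
    unfold hh
    by_cases hxy : x = y
    · subst hxy
      rw [Equiv.swap_self]
      have : (π * Equiv.refl V : Equiv.Perm V) = π := rfl
      rw [this, sub_self]
    · have hcxy : c x ≠ c y := fun h => hxy (hc x (by simp) y (by simp) h)
      have : cs φ (π * Equiv.swap x y) ≤ cs φ π :=
        Finset.sum_le_sum fun z _ => hφ (cl_le_of_sep hπ hcxy z)
      linarith

/-- TASK H1d. PROOF. `gen_apply` and the definition of `hh`. -/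
theorem gen_cs (q : V × V → ℝ) (φ : ℕ → ℝ) :
    gen q (cs φ) = fun σ => ∑ p : V × V, q p * hh φ p.1 p.2 σ := by
  funext σ
  rw [gen_apply]
  rfl

end Pool.Agent.Stirring.Mono
end
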