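import Mathlib
import Pool.Agent.Lib.MP_6c3d62_pr.Mg.G085
import Pool.Agent.Lib.MP_6c3d62_pr.Mg.G076

section

section

/-! C1a: the semigroup after a long time is almost invariant under one step. -/

open Finset

namespace Pool.Agent.Stirring.HP

open Pool.Agent.Stirring.Hier

theorem pois_sum (l : ℝ) : HasSum (fun n : ℕ => Real.exp (-l) * (l ^ n / n.factorial)) 1 := by
  have h : HasSum (fun n : ℕ => l ^ n / n.factorial) (Real.exp l) := by
    have := NormedSpace.expSeries_div_hasSum_exp (𝔸 := ℝ) l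
    rwa [← Real.exp_eq_exp_ℝ] at this
  have h2 := h.mul_left (Real.exp (-l))
  rwa [← Real.exp_add, neg_add_cancel, Real.exp_zero] at h2

/-- Shift of the index. -/
private theorem C1a_shift (l : ℝ) (g : ℕ → ℝ) {S : ℝ}
    (h : HasSum (fun n : ℕ => Real.exp (-l) * (l ^ n / n.factorial) * g (n + 1)) S) :
    HasSum (fun n : ℕ => Real.exp (-l) * (l ^ n / n.factorial) * n * g n) (l * S) := by
  have h1 := h.mul_left l
  rw [← hasSum_nat_add_iff' 1]
  simp only [Finset.sum_range_one, Nat.cast_zero, mul_zero, zero_mul, sub_zero]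
  refine h1.congr_fun ?_ |> fun h => h
  intro n
  rw [Nat.factorial_succ]
  have h2 : ((n.factorial : ℕ) : ℝ) ≠ 0 := by exact_mod_cast n.factorial_ne_zero
  have h3 : ((n : ℝ) + 1) ≠ 0 := by positivity
  push_cast
  field_simp
  ring

theorem pois_mean (l : ℝ) :
    HasSum (fun n : ℕ => Real.exp (-l) * (l ^ n / n.factorial) * n) l := by
  have h := C1a_shift l (fun _ => 1) (S := 1) (by simpa using pois_sum l)
  simpa using h

theorem pois_sq (l : ℝ) :
    HasSum (fun n : ℕ => Real.exp (-l) * (l ^ n / n.factorial) * (n : ℝ) ^ 2) (l ^ 2 + l) := by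
  have h := C1a_shift l (fun n => (n : ℝ)) (S := l + 1) (by
    have := (pois_mean l).add (pois_sum l)
    refine this.congr_fun ?_ |> fun h => h
    intro n
    push_cast
    ring)
  have e : l * (l + 1) = l ^ 2 + l := by ring
  rw [e] at h
  refine h.congr_fun ?_ |> fun h => h
  intro n
  ring

/-- The difference is `∑ p_n (1 - n / l) a_n` (since `p_(n - 1) = p_n n / l`), and
`|1 - n / l| ≤ (√l (1 - n / l)² + 1 / √l) / 2`; sum with `pois_sum`, `pois_mean`, `pois_sq`:
`∑ p_n (1 - n / l)² = 1 / l`. -/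
theorem pois_shift {l : ℝ} (hl : 0 < l) {a : ℕ → ℝ} {C : ℝ} (ha : ∀ n, |a n| ≤ C) {x y : ℝ}
    (hx : HasSum (fun n : ℕ => Real.exp (-l) * (l ^ n / n.factorial) * a n) x)
    (hy : HasSum (fun n : ℕ => Real.exp (-l) * (l ^ n / n.factorial) * a (n + 1)) y) :
    |x - y| ≤ C / Real.sqrt l := by
  have hs : 0 < Real.sqrt l := Real.sqrt_pos.mpr hl
  have hss : Real.sqrt l * Real.sqrt l = l := Real.mul_self_sqrt hl.le
  have hC : 0 ≤ C := (abs_nonneg _).trans (ha 0)
  have h1 : HasSum (fun n : ℕ => Real.exp (-l) * (l ^ n / n.factorial) * ((1 - n / l) * a n))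
      (x - y) := by
    have h2 := hx.sub ((C1a_shift l a hy).mul_left l⁻¹)
    have e : x - l⁻¹ * (l * y) = x - y := by
      rw [← mul_assoc, inv_mul_cancel₀ hl.ne', one_mul]
    rw [e] at h2
    refine h2.congr_fun ?_ |> fun h => h
    intro n
    field_simp
  have h3 : HasSum (fun n : ℕ => Real.exp (-l) * (l ^ n / n.factorial) *
      (C * ((Real.sqrt l * (1 - n / l) ^ 2 + 1 / Real.sqrt l) / 2))) (C / Real.sqrt l) := by
    have h4 := (((pois_sum l).sub ((pois_mean l).mul_left (2 / l))).add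
      ((pois_sq l).mul_left (1 / l ^ 2))).mul_left (C / 2 * Real.sqrt l)
    have h5 := h4.add ((pois_sum l).mul_left (C / (2 * Real.sqrt l)))
    have e : C / 2 * Real.sqrt l * (1 - 2 / l * l + 1 / l ^ 2 * (l ^ 2 + l)) +
        C / (2 * Real.sqrt l) * 1 = C / Real.sqrt l := by
      have e1 : (1 - 2 / l * l + 1 / l ^ 2 * (l ^ 2 + l)) = 1 / l := by
        field_simp
        ring
      have e2 : C / 2 * Real.sqrt l * (1 / l) = C / (2 * Real.sqrt l) := by
        rw [← hss]
        field_simp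
        rw [Real.sqrt_sq hs.le]
      rw [e1, e2]
      field_simp
      ring
    rw [e] at h5
    refine h5.congr_fun ?_ |> fun h => h
    intro n
    field_simp
    ring
  have h6 := h1.norm_le_of_bounded h3 (by
    intro n
    have hp : 0 ≤ Real.exp (-l) * (l ^ n / n.factorial) := by positivity
    rw [Real.norm_eq_abs, abs_mul, abs_of_nonneg hp]
    refine mul_le_mul_of_nonneg_left ?_ hp
    rw [abs_mul, mul_comm]
    refine mul_le_mul (ha n) ?_ (abs_nonneg _) hC
    set u := 1 - (n : ℝ) / l with hu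
    have h7 : 0 ≤ (Real.sqrt l * |u| - 1) ^ 2 / Real.sqrt l := by positivity
    have h8 : (Real.sqrt l * |u| - 1) ^ 2 / Real.sqrt l =
        Real.sqrt l * u ^ 2 + 1 / Real.sqrt l - 2 * |u| := by
      rw [← sq_abs u]
      field_simp
      ring
    linarith)
  rwa [Real.norm_eq_abs] at h6

end Pool.Agent.Stirring.HP
end

section

/-! C1b: the semigroup after a long time is almost invariant under one step. -/

open Finset

namespace Pool.Agent.Stirring.HP

open Pool.Agent.Stirring.Hier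

variable {V : Type*} [Fintype V] [DecidableEq V]

private theorem C1b_pow_bound {c : V × V → ℝ} (hc : ∀ p, 0 ≤ c p) {f : Fn V} {C : ℝ}
    (hf : ∀ σ, |f σ| ≤ C) (n : ℕ) : ∀ σ : Equiv.Perm V, |(stepT c ^ n) f σ| ≤ tot c ^ n * C := by
  induction n with
  | zero => intro σ; simpa using hf σ
  | succ n ih =>
    intro σ
    rw [stepT_pow_succ]
    calc |∑ p : V × V, c p * (stepT c ^ n) f (σ * Equiv.swap p.1 p.2)|
        ≤ ∑ p : V × V, |c p * (stepT c ^ n) f (σ * Equiv.swap p.1 p.2)| :=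
          Finset.abs_sum_le_sum_abs _ _
      _ ≤ ∑ p : V × V, c p * (tot c ^ n * C) := by
          refine Finset.sum_le_sum fun p _ => ?_
          rw [abs_mul, abs_of_nonneg (hc p)]
          exact mul_le_mul_of_nonneg_left (ih _) (hc p)
      _ = tot c ^ (n + 1) * C := by
          rw [← Finset.sum_mul]
          have : ∑ p : V × V, c p = tot c := rfl
          rw [this, pow_succ]
          ring

private theorem C1b_bound {c : V × V → ℝ} (hc : ∀ p, 0 ≤ c p) (ht : 0 < tot c) {f : Fn V}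
    {C : ℝ} (hf : ∀ σ, |f σ| ≤ C) (n : ℕ) (σ : Equiv.Perm V) :
    |(tot c)⁻¹ ^ n * (stepT c ^ n) f σ| ≤ C := by
  have h := C1b_pow_bound hc hf n σ
  have h1 : 0 < (tot c)⁻¹ ^ n := by positivity
  rw [abs_mul, abs_of_pos h1]
  calc (tot c)⁻¹ ^ n * |(stepT c ^ n) f σ| ≤ (tot c)⁻¹ ^ n * (tot c ^ n * C) :=
        mul_le_mul_of_nonneg_left h h1.le
    _ = C := by
        rw [← mul_assoc, ← mul_pow, inv_mul_cancel₀ ht.ne', one_pow, one_mul]

/-- `sg_hasSum`: `sg c s f σ` and `sg c s ((tot c)⁻¹ • stepT c f) σ` are the sums of `p_n a_n` and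
`p_n a_(n+1)` with `l = s * tot c`, `a n = (tot c)⁻¹ ^ n * (stepT c ^ n) f σ`, which is bounded by
`C` (`pow_nonneg_on` for `C - f` and `C + f`, or `stepT_pow` bounds: the `n`-th power of
`(tot c)⁻¹ • stepT c` is an average). Note `(stepT c ^ n) (stepT c f) = (stepT c ^ (n + 1)) f`. -/
theorem sg_smooth {c : V × V → ℝ} (hc : ∀ p, 0 ≤ c p) (ht : 0 < tot c) {s : ℝ} (hs : 0 < s)
    {f : Fn V} {C : ℝ} (hf : ∀ σ, |f σ| ≤ C) (σ : Equiv.Perm V) :
    |sg c s f σ - sg c s ((tot c)⁻¹ • stepT c f) σ| ≤ C / Real.sqrt (s * tot c) := by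
  have hl : 0 < s * tot c := mul_pos hs ht
  have h1 : HasSum (fun n : ℕ => Real.exp (-(s * tot c)) * ((s * tot c) ^ n / n.factorial) *
      ((tot c)⁻¹ ^ n * (stepT c ^ n) f σ)) (sg c s f σ) := by
    refine (sg_hasSum c s f σ).congr_fun ?_ |> fun h => h
    intro n
    rw [mul_pow, inv_pow]
    have : tot c ^ n ≠ 0 := pow_ne_zero _ ht.ne'
    field_simp
  have h2 : HasSum (fun n : ℕ => Real.exp (-(s * tot c)) * ((s * tot c) ^ n / n.factorial) *
      ((tot c)⁻¹ ^ (n + 1) * (stepT c ^ (n + 1)) f σ))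
      (sg c s ((tot c)⁻¹ • stepT c f) σ) := by
    refine (sg_hasSum c s ((tot c)⁻¹ • stepT c f) σ).congr_fun ?_ |> fun h => h
    intro n
    have e : (stepT c ^ n) ((tot c)⁻¹ • stepT c f) σ = (tot c)⁻¹ * (stepT c ^ (n + 1)) f σ := by
      rw [map_smul, pow_succ]
      rfl
    rw [e, mul_pow, pow_succ, inv_pow]
    have : tot c ^ n ≠ 0 := pow_ne_zero _ ht.ne'
    field_simp
  exact pois_shift hl (a := fun n => (tot c)⁻¹ ^ n * (stepT c ^ n) f σ)
    (fun n => C1b_bound hc ht hf n σ) h1 h2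

/-- Iterate `sg_smooth` for the functions `(tot c)⁻¹ ^ i • (stepT c ^ i) f`, all bounded by `C`. -/
theorem sg_smooth_pow {c : V × V → ℝ} (hc : ∀ p, 0 ≤ c p) (ht : 0 < tot c) {s : ℝ} (hs : 0 < s)
    {f : Fn V} {C : ℝ} (hf : ∀ σ, |f σ| ≤ C) (M : ℕ) (σ : Equiv.Perm V) :
    |sg c s f σ - sg c s ((tot c)⁻¹ ^ M • (stepT c ^ M) f) σ| ≤
      M * (C / Real.sqrt (s * tot c)) := by
  induction M with
  | zero => simp
  | succ M ih =>
    have h := sg_smooth hc ht hs (f := (tot c)⁻¹ ^ M • (stepT c ^ M) f) (C := C)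
      (fun τ => by
        rw [Pi.smul_apply, smul_eq_mul]
        exact C1b_bound hc ht hf M τ) σ
    have e : (tot c)⁻¹ • stepT c ((tot c)⁻¹ ^ M • (stepT c ^ M) f) =
        (tot c)⁻¹ ^ (M + 1) • (stepT c ^ (M + 1)) f := by
      rw [map_smul, smul_smul, ← pow_succ', pow_succ' (stepT c)]
      rfl
    rw [e] at h
    calc |sg c s f σ - sg c s ((tot c)⁻¹ ^ (M + 1) • (stepT c ^ (M + 1)) f) σ|
        ≤ |sg c s f σ - sg c s ((tot c)⁻¹ ^ M • (stepT c ^ M) f) σ| +
          |sg c s ((tot c)⁻¹ ^ M • (stepT c ^ M) f) σ -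
            sg c s ((tot c)⁻¹ ^ (M + 1) • (stepT c ^ (M + 1)) f) σ| := abs_sub_le _ _ _
      _ ≤ M * (C / Real.sqrt (s * tot c)) + C / Real.sqrt (s * tot c) := add_le_add ih h
      _ = ((M + 1 : ℕ) : ℝ) * (C / Real.sqrt (s * tot c)) := by push_cast; ring

end Pool.Agent.Stirring.HP
end

section

end

section

/-! The total length of the longest cycles of a permutation. -/

namespace Pool.Agent.Stirring.Hier

/-- The total length of the `k` longest cycles of `σ`: the largest number of vertices which are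
covered by `k` cycles. -/
noncomputable def topMass {V : Type*} [Fintype V] (k : ℕ) (σ : Equiv.Perm V) : ℕ :=
  sSup {n : ℕ | ∃ s : Finset V, s.card ≤ k ∧ n = Nat.card {y // ∃ x ∈ s, σ.SameCycle x y}}

end Pool.Agent.Stirring.Hier
end

section

/-! B6b: the number of transpositions inside `B` is binomial. -/

open Finset

namespace Pool.Agent.Stirring.HP

variable {V : Type} [Fintype V] [DecidableEq V]

theorem binom_sum {p : ℝ} (M : ℕ) :
    ∑ j ∈ range (M + 1), (M.choose j : ℝ) * p ^ j * (1 - p) ^ (M - j) = 1 := by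
  have h := add_pow p (1 - p) M
  rw [add_sub_cancel, one_pow] at h
  refine (sum_congr rfl fun j _ => ?_).trans h.symm
  ring

/-- The variance (`bernsteinPolynomial.variance`, or by induction). -/
theorem binom_var {p : ℝ} (M : ℕ) :
    ∑ j ∈ range (M + 1), (M.choose j : ℝ) * p ^ j * (1 - p) ^ (M - j) * ((j : ℝ) - M * p) ^ 2 =
      M * p * (1 - p) := by
  have h := bernsteinPolynomial.variance ℝ M
  have h2 := congrArg (Polynomial.eval p) h
  simp only [Polynomial.eval_finsetSum, bernsteinPolynomial, Polynomial.eval_mul,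
    Polynomial.eval_pow, Polynomial.eval_sub, Polynomial.eval_one, Polynomial.eval_X,
    Polynomial.eval_natCast, nsmul_eq_mul] at h2
  rw [← h2]
  refine sum_congr rfl fun j _ => ?_
  ring

/-- Chebyshev: `(j - M p)² ≥ (M p / 2)²` for `j < j₀ ≤ M p / 2`; `M p (1 - p) / (M p / 2)² ≤
4 / (M p)`. -/
theorem binom_tail {p : ℝ} (hp : 0 < p) (hp1 : p ≤ 1) {M j₀ : ℕ} (hM : 1 ≤ M)
    (hj : (j₀ : ℝ) ≤ M * p / 2) :
    ∑ j ∈ range (M + 1), (if j < j₀ then (M.choose j : ℝ) * p ^ j * (1 - p) ^ (M - j) else 0) ≤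
      4 / (M * p) := by
  have hMp : 0 < (M : ℝ) * p := mul_pos (by exact_mod_cast hM) hp
  have hq : 0 ≤ 1 - p := sub_nonneg.2 hp1
  have hterm : ∀ j ∈ range (M + 1),
      (if j < j₀ then (M.choose j : ℝ) * p ^ j * (1 - p) ^ (M - j) else 0) ≤
        (M.choose j : ℝ) * p ^ j * (1 - p) ^ (M - j) * ((j : ℝ) - M * p) ^ 2 *
          (4 / (M * p) ^ 2) := by
    intro j _
    have h0 : 0 ≤ (M.choose j : ℝ) * p ^ j * (1 - p) ^ (M - j) :=
      mul_nonneg (mul_nonneg (Nat.cast_nonneg _) (pow_nonneg hp.le _)) (pow_nonneg hq _)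
    split_ifs with h
    · have h1 : (j : ℝ) ≤ M * p / 2 := le_trans (by exact_mod_cast h.le) hj
      have h2 : 1 ≤ ((j : ℝ) - M * p) ^ 2 * (4 / (M * p) ^ 2) := by
        rw [mul_div_assoc', le_div_iff₀ (by positivity)]
        nlinarith
      calc _ = (M.choose j : ℝ) * p ^ j * (1 - p) ^ (M - j) * 1 := (mul_one _).symm
        _ ≤ (M.choose j : ℝ) * p ^ j * (1 - p) ^ (M - j) *
            (((j : ℝ) - M * p) ^ 2 * (4 / (M * p) ^ 2)) := mul_le_mul_of_nonneg_left h2 h0
        _ = _ := by ring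
    · exact mul_nonneg (mul_nonneg h0 (sq_nonneg _)) (by positivity)
  refine (sum_le_sum hterm).trans ?_
  rw [← sum_mul, binom_var, mul_div_assoc', div_le_div_iff₀ (by positivity) hMp]
  nlinarith [mul_nonneg (mul_nonneg hMp.le hMp.le) hp.le]

end Pool.Agent.Stirring.HP
end

section

/-! Two marks: comparison of a permutation with its product with the transposition of the marks. -/

open Finset

set_option linter.unusedSectionVars false

namespace Pool.Agent.Stirring.Mono

variable {V : Type*} [Fintype V] [DecidableEq V]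

/-- Sets which lose at most one point, to `y`. -/
def wN (U : Finset V) (x y : V) (σ : Equiv.Perm V) (k : ℕ) : ℕ :=
  ((fam U {x} {y} k).filter fun R => ∀ v ∈ R, σ v ∈ insert y R).card

/-- Sets containing both marks which are preserved. -/
def bN (U : Finset V) (x y : V) (σ : Equiv.Perm V) (k : ℕ) : ℕ :=
  ((fam U {x, y} ∅ k).filter fun S => esc σ S = 0).card

private theorem C4a_mem {U : Finset V} {x y : V} {k : ℕ} {S : Finset V}
    (h : S ∈ fam U {x} {y} k) : x ∈ S := by
  rw [mem_fam] at h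
  exact h.2.2.1 (Finset.mem_singleton_self x)

private theorem C4a_notMem {U : Finset V} {x y : V} {k : ℕ} {S : Finset V}
    (h : S ∈ fam U {x} {y} k) : y ∉ S := by
  rw [mem_fam] at h
  exact Finset.disjoint_left.1 h.2.2.2 (Finset.mem_singleton_self y)

private theorem C4a_aux {U : Finset V} {x y : V} {k : ℕ} {σ : Equiv.Perm V} :
    xN U {x} {y} σ k + iN U {x} {y} σ k =
      ((fam U {x} {y} k).filter fun S => ∀ v ∈ S, v ≠ x → σ v ∈ S).card := by
  unfold xN iN
  rw [← Finset.card_union_of_disjoint]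
  · congr 1
    ext S
    rw [Finset.mem_union, Finset.mem_filter, Finset.mem_filter, Finset.mem_filter]
    constructor
    · rintro (⟨hS, h1, v, hv, hv'⟩ | ⟨hS, h0⟩)
      · refine ⟨hS, fun u hu hux => ?_⟩
        rw [esc_eq_one] at h1
        obtain ⟨w, hw, hw', h⟩ := h1
        rw [Finset.mem_singleton] at hv
        by_contra hcon
        have h2 : u = w := by
          by_contra h3
          exact hcon (h u hu h3)
        have h4 : v = w := by
          by_contra h3
          exact hv' (h v (hv ▸ C4a_mem hS) h3)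
        exact hux (h2.trans (h4.symm.trans hv))
      · exact ⟨hS, fun u hu _ => esc_eq_zero.1 h0 u hu⟩
    · rintro ⟨hS, h⟩
      by_cases hx : σ x ∈ S
      · refine Or.inr ⟨hS, esc_eq_zero.2 fun u hu => ?_⟩
        by_cases hux : u = x
        · rw [hux]; exact hx
        · exact h u hu hux
      · exact Or.inl ⟨hS, esc_eq_one.2 ⟨x, C4a_mem hS, hx, fun u hu hux => h u hu hux⟩,
          x, Finset.mem_singleton_self x, hx⟩
  · rw [Finset.disjoint_left]
    intro S h1 h2
    rw [Finset.mem_filter] at h1 h2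
    omega

/-- TASK C4a. PROOF. Both sides are the cardinality of
`Z = (fam U {x} {y} k).filter (fun S => ∀ v ∈ S, v ≠ x → σ v ∈ S)`: split `Z` according to
`σ x ∈ S` (then `esc σ S = 0`) or `σ x ∉ S` (then `esc σ S = 1 ∧ ∃ v ∈ {x}, σ v ∉ S`), using `x ∈ S`,
`esc_eq_zero`, `esc_eq_one`. The same for `τ = σ * swap x y`: for `v ∈ S`, `v ≠ x` we have `v ≠ y`
(since `y ∉ S`) and so `τ v = σ v` (`Equiv.swap_apply_of_ne_of_ne`): the set `Z` for `τ` is the same
as for `σ`. (`xN` and `iN` at `M = {x}`, `M' = {y}`.) -/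
theorem xN_delta {U : Finset V} {σ : Equiv.Perm V} {x y : V} (hxy : x ≠ y) (k : ℕ) :
    xN U {x} {y} σ k + iN U {x} {y} σ k =
      xN U {x} {y} (σ * Equiv.swap x y) k + iN U {x} {y} (σ * Equiv.swap x y) k := by
  rw [C4a_aux, C4a_aux]
  congr 1
  ext S
  rw [Finset.mem_filter, Finset.mem_filter]
  refine and_congr_right fun hS => ?_
  have hy : y ∉ S := C4a_notMem hS
  refine forall₃_congr fun v hv hvx => ?_
  have hvy : v ≠ y := fun h => hy (h ▸ hv)
  rw [Equiv.Perm.mul_apply, Equiv.swap_apply_of_ne_of_ne hvx hvy]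

/-- TASK C4b. PROOF. Split the family of `wN` according to whether all images are in `R`
(`esc σ R = 0`) or not; in the latter case there is `v ∈ R` with `σ v ∉ R`, so `σ v = y`, this `v` is
unique by injectivity, so `esc σ R = 1` and `∃ v ∈ R, σ v ∈ {y}`. Conversely if `esc σ R = 1` and
`σ v = y` for some `v ∈ R`, then `σ v ∉ R` because `y ∉ R`, so `v` is the escaping point and the
other points stay in `R`. -/
theorem wN_eq {U : Finset V} {σ : Equiv.Perm V} {x y : V} (k : ℕ) :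
    wN U x y σ k = yN U {x} {y} σ k + iN U {x} {y} σ k := by
  unfold wN yN iN
  rw [← Finset.card_union_of_disjoint]
  · congr 1
    ext R
    rw [Finset.mem_union, Finset.mem_filter, Finset.mem_filter, Finset.mem_filter]
    constructor
    · rintro ⟨hR, h⟩
      have hy : y ∉ R := C4a_notMem hR
      by_cases h0 : esc σ R = 0
      · exact Or.inr ⟨hR, h0⟩
      · rw [esc_eq_zero] at h0
        push Not at h0
        obtain ⟨v, hv, hv'⟩ := h0
        have hvy : σ v = y := by
          have h1 := h v hv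
          rw [Finset.mem_insert] at h1
          exact h1.resolve_right hv'
        refine Or.inl ⟨hR, esc_eq_one.2 ⟨v, hv, hv', fun u hu huv => ?_⟩, v, hv, ?_⟩
        · have h1 := h u hu
          rw [Finset.mem_insert] at h1
          refine h1.resolve_left fun h2 => huv ?_
          exact σ.injective (h2.trans hvy.symm)
        · rw [hvy]; exact Finset.mem_singleton_self y
    · rintro (⟨hR, h1, v, hv, hv'⟩ | ⟨hR, h0⟩)
      · refine ⟨hR, fun u hu => ?_⟩
        have hy : y ∉ R := C4a_notMem hR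
        rw [Finset.mem_singleton] at hv'
        rw [esc_eq_one] at h1
        obtain ⟨w, hw, hw', h⟩ := h1
        have h4 : v = w := by
          by_contra h3
          exact hy (hv' ▸ h v hv h3)
        by_cases hu' : u = w
        · rw [hu', ← h4, hv']
          exact Finset.mem_insert_self y R
        · exact Finset.mem_insert_of_mem (h u hu hu')
      · exact ⟨hR, fun u hu => Finset.mem_insert_of_mem (esc_eq_zero.1 h0 u hu)⟩
  · rw [Finset.disjoint_left]
    intro S h1 h2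
    rw [Finset.mem_filter] at h1 h2
    omega

/-- TASK C4c. PROOF. With `τ = σ * swap x y` (`τ x = σ y`, `τ y = σ x`, `τ v = σ v` otherwise):
`R = {x, y} ∪ S₀ ⊆ S` is mapped to the same set by `σ` and `τ`: for `S ∋ x, y`, `∀ v ∈ S, σ v ∈ S`
iff `∀ v ∈ S, τ v ∈ S`. So the two filters are equal (`esc_eq_zero`). -/
theorem bN_swap {U : Finset V} {σ : Equiv.Perm V} {x y : V} (k : ℕ) :
    bN U x y (σ * Equiv.swap x y) k = bN U x y σ k := by
  unfold bN
  congr 1
  ext S
  rw [Finset.mem_filter, Finset.mem_filter, esc_eq_zero, esc_eq_zero]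
  refine and_congr_right fun hS => ?_
  rw [mem_fam] at hS
  have hx : x ∈ S := hS.2.2.1 (Finset.mem_insert_self x _)
  have hy : y ∈ S := hS.2.2.1 (Finset.mem_insert_of_mem (Finset.mem_singleton_self y))
  have hs : ∀ v ∈ S, Equiv.swap x y v ∈ S := by
    intro v hv
    rw [Equiv.swap_apply_def]
    split_ifs
    · exact hy
    · exact hx
    · exact hv
  constructor
  · intro h v hv
    have h1 := h _ (hs v hv)
    rwa [Equiv.Perm.mul_apply, Equiv.swap_apply_self] at h1
  · intro h v hv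
    rw [Equiv.Perm.mul_apply]
    exact h _ (hs v hv)

end Pool.Agent.Stirring.Mono
end

section

/-! Two marks: the recursion. -/

open Finset

set_option linter.unusedSectionVars false

namespace Pool.Agent.Stirring.Mono

variable {V : Type*} [Fintype V] [DecidableEq V]

private theorem mem_fam_two {U : Finset V} {a b : V} {n : ℕ} {S : Finset V} :
    S ∈ fam U {a} {b} n ↔ S ⊆ U ∧ S.card = n ∧ a ∈ S ∧ b ∉ S := by
  rw [mem_fam, Finset.singleton_subset_iff, Finset.disjoint_singleton_left]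

private theorem mem_U_iff {U : Finset V} {σ : Equiv.Perm V} (hσ : ∀ v ∈ U, σ v ∈ U) (v : V) :
    σ v ∈ U ↔ v ∈ U := by
  refine ⟨fun h => ?_, hσ v⟩
  have h1 : U.map σ.toEmbedding = U := by
    apply Finset.eq_of_subset_of_card_le
    · intro w hw
      rw [Finset.mem_map] at hw
      obtain ⟨u, hu, rfl⟩ := hw
      exact hσ u hu
    · rw [Finset.card_map]
  rw [← h1, Finset.mem_map] at h
  obtain ⟨u, hu, h2⟩ := h
  have h3 : u = v := σ.injective h2
  rwa [← h3]

private theorem wN_split {U : Finset V} {σ : Equiv.Perm V} (hσ : ∀ v ∈ U, σ v ∈ U) {x y : V}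
    (k : ℕ) :
    wN U x y σ k = iN U {x} {y} σ k +
      ((U.powersetCard k).filter fun R => y ∈ R ∧ σ x ∈ R ∧ σ y ∉ R ∧
        ∀ v ∈ R, v ≠ y → σ v ∈ R).card := by
  unfold wN iN
  rw [← Finset.card_filter_add_card_filter_not (s := (fam U {x} {y} k).filter
    fun R => ∀ v ∈ R, σ v ∈ insert y R) (fun R => ∀ v ∈ R, σ v ∈ R)]
  congr 1
  · congr 1
    ext R
    simp only [Finset.mem_filter, esc_eq_zero]
    constructor
    · rintro ⟨⟨h1, _⟩, h2⟩
      exact ⟨h1, h2⟩
    · rintro ⟨h1, h2⟩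
      exact ⟨⟨h1, fun v hv => Finset.mem_insert_of_mem (h2 v hv)⟩, h2⟩
  · refine Finset.card_equiv (Equiv.finsetCongr σ) fun R => ?_
    rw [Equiv.finsetCongr_apply]
    simp only [Finset.mem_filter, mem_fam_two, Finset.mem_powersetCard, Finset.card_map,
      Finset.mem_map_equiv, Equiv.symm_apply_apply]
    have hsub : R.map σ.toEmbedding ⊆ U ↔ R ⊆ U := by
      constructor
      · intro h v hv
        have h1 : σ v ∈ U := h (Finset.mem_map_of_mem _ hv)
        exact (mem_U_iff hσ v).1 h1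
      · intro h v hv
        rw [Finset.mem_map] at hv
        obtain ⟨u, hu, rfl⟩ := hv
        exact hσ u (h hu)
    rw [hsub]
    constructor
    · rintro ⟨⟨⟨h1, h2, h3, h4⟩, h5⟩, h6⟩
      push Not at h6
      obtain ⟨v, hv, hvR⟩ := h6
      have h7 : σ v = y := by
        rcases Finset.mem_insert.1 (h5 v hv) with h | h
        · exact h
        · exact absurd h hvR
      refine ⟨⟨h1, h2⟩, ?_, h3, h4, ?_⟩
      · rw [← h7, Equiv.symm_apply_apply]
        exact hv
      · intro w hw hwy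
        have h8 := h5 _ hw
        rw [Equiv.apply_symm_apply, Finset.mem_insert] at h8
        exact h8.resolve_left hwy
    · rintro ⟨⟨h1, h2⟩, h3, h4, h5, h6⟩
      refine ⟨⟨⟨h1, h2, h4, h5⟩, ?_⟩, ?_⟩
      · intro v hv
        rw [Finset.mem_insert]
        by_cases hvy : σ v = y
        · exact Or.inl hvy
        · right
          apply h6 (σ v) _ hvy
          rw [Equiv.symm_apply_apply]
          exact hv
      · intro h7
        have h8 := h7 _ h3
        rw [Equiv.apply_symm_apply] at h8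
        exact h5 h8

private theorem part_one {U : Finset V} {σ : Equiv.Perm V} {x y : V}
    (hy : y ∈ U) (hxy : x ≠ y) (k : ℕ) :
    (((U.powersetCard (k + 1)).filter fun R => y ∈ R ∧ σ x ∈ R ∧ σ y ∉ R ∧
        ∀ v ∈ R, v ≠ y → σ v ∈ R).filter fun R => x ∈ R).card + bN U x y σ (k + 1) =
      wN U x y σ k := by
  unfold wN bN
  rw [add_comm, ← Finset.card_filter_add_card_filter_not (s := (fam U {x} {y} k).filter
    fun R => ∀ v ∈ R, σ v ∈ insert y R) (fun R => σ y ∈ insert y R)]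
  congr 1
  · refine Finset.card_nbij' (fun S => S.erase y) (fun R => insert y R) ?_ ?_ ?_ ?_
    · intro S hS
      rw [Finset.mem_coe, Finset.mem_filter, mem_fam, esc_eq_zero] at hS
      obtain ⟨⟨h1, h2, h3, _⟩, h4⟩ := hS
      have hxS : x ∈ S := h3 (Finset.mem_insert_self _ _)
      have hyS : y ∈ S := h3 (Finset.mem_insert_of_mem (Finset.mem_singleton_self _))
      rw [Finset.mem_coe, Finset.mem_filter, Finset.mem_filter, mem_fam_two,
        Finset.insert_erase hyS]
      refine ⟨⟨⟨(Finset.erase_subset _ _).trans h1, ?_, ?_, ?_⟩, ?_⟩, h4 y hyS⟩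
      · rw [Finset.card_erase_of_mem hyS, h2]
        rfl
      · exact Finset.mem_erase.2 ⟨hxy, hxS⟩
      · exact Finset.notMem_erase _ _
      · intro v hv
        exact h4 v (Finset.mem_of_mem_erase hv)
    · intro R hR
      rw [Finset.mem_coe, Finset.mem_filter, Finset.mem_filter, mem_fam_two] at hR
      obtain ⟨⟨⟨h1, h2, h3, h4⟩, h5⟩, h6⟩ := hR
      rw [Finset.mem_coe, Finset.mem_filter, mem_fam, esc_eq_zero]
      refine ⟨⟨?_, ?_, ?_, ?_⟩, ?_⟩
      · exact Finset.insert_subset hy h1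
      · rw [Finset.card_insert_of_notMem h4, h2]
      · intro v hv
        rcases Finset.mem_insert.1 hv with h | h
        · rw [h]
          exact Finset.mem_insert_of_mem h3
        · rw [Finset.mem_singleton.1 h]
          exact Finset.mem_insert_self _ _
      · exact Finset.disjoint_empty_left _
      · intro v hv
        rcases Finset.mem_insert.1 hv with h | h
        · rw [h]
          exact h6
        · exact h5 v h
    · intro S hS
      rw [Finset.mem_coe, Finset.mem_filter, mem_fam] at hS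
      have hyS : y ∈ S := hS.1.2.2.1 (Finset.mem_insert_of_mem (Finset.mem_singleton_self _))
      exact Finset.insert_erase hyS
    · intro R hR
      rw [Finset.mem_coe, Finset.mem_filter, Finset.mem_filter, mem_fam_two] at hR
      exact Finset.erase_insert hR.1.1.2.2.2
  · refine Finset.card_nbij' (fun S => S.erase y) (fun R => insert y R) ?_ ?_ ?_ ?_
    · intro S hS
      rw [Finset.mem_coe, Finset.mem_filter, Finset.mem_filter, Finset.mem_powersetCard] at hS
      obtain ⟨⟨⟨h1, h2⟩, h3, h4, h5, h6⟩, h7⟩ := hS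
      rw [Finset.mem_coe, Finset.mem_filter, Finset.mem_filter, mem_fam_two,
        Finset.insert_erase h3]
      refine ⟨⟨⟨(Finset.erase_subset _ _).trans h1, ?_, ?_, ?_⟩, ?_⟩, h5⟩
      · rw [Finset.card_erase_of_mem h3, h2]
        rfl
      · exact Finset.mem_erase.2 ⟨hxy, h7⟩
      · exact Finset.notMem_erase _ _
      · intro v hv
        exact h6 v (Finset.mem_of_mem_erase hv) (Finset.ne_of_mem_erase hv)
    · intro R hR
      rw [Finset.mem_coe, Finset.mem_filter, Finset.mem_filter, mem_fam_two] at hR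
      obtain ⟨⟨⟨h1, h2, h3, h4⟩, h5⟩, h6⟩ := hR
      rw [Finset.mem_coe, Finset.mem_filter, Finset.mem_filter, Finset.mem_powersetCard]
      refine ⟨⟨⟨Finset.insert_subset hy h1, ?_⟩, Finset.mem_insert_self _ _, h5 x h3, h6, ?_⟩,
        Finset.mem_insert_of_mem h3⟩
      · rw [Finset.card_insert_of_notMem h4, h2]
      · intro v hv hvy
        exact h5 v (Finset.mem_of_mem_insert_of_ne hv hvy)
    · intro S hS
      rw [Finset.mem_coe, Finset.mem_filter, Finset.mem_filter] at hS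
      exact Finset.insert_erase hS.1.2.1
    · intro R hR
      rw [Finset.mem_coe, Finset.mem_filter, Finset.mem_filter, mem_fam_two] at hR
      exact Finset.erase_insert hR.1.1.2.2.2

private theorem part_two {U : Finset V} {σ : Equiv.Perm V} {x y : V} (k : ℕ) :
    (((U.powersetCard k).filter fun R => y ∈ R ∧ σ x ∈ R ∧ σ y ∉ R ∧
        ∀ v ∈ R, v ≠ y → σ v ∈ R).filter fun R => ¬ x ∈ R).card =
      iN U {y} {x} (σ * Equiv.swap x y) k := by
  unfold iN
  congr 1
  ext R
  simp only [Finset.mem_filter, mem_fam_two, Finset.mem_powersetCard, esc_eq_zero]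
  have hτy : (σ * Equiv.swap x y) y = σ x := by
    rw [Equiv.Perm.mul_apply, Equiv.swap_apply_right]
  have hτx : (σ * Equiv.swap x y) x = σ y := by
    rw [Equiv.Perm.mul_apply, Equiv.swap_apply_left]
  have hτv : ∀ v, v ≠ x → v ≠ y → (σ * Equiv.swap x y) v = σ v := by
    intro v h1 h2
    rw [Equiv.Perm.mul_apply, Equiv.swap_apply_of_ne_of_ne h1 h2]
  constructor
  · rintro ⟨⟨⟨h1, h2⟩, h3, h4, h5, h6⟩, h7⟩
    refine ⟨⟨h1, h2, h3, h7⟩, fun v hv => ?_⟩
    by_cases hvy : v = y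
    · rw [hvy, hτy]
      exact h4
    · rw [hτv v (fun h => h7 (h ▸ hv)) hvy]
      exact h6 v hv hvy
  · rintro ⟨⟨h1, h2, h3, h4⟩, h5⟩
    refine ⟨⟨⟨h1, h2⟩, h3, ?_, ?_, ?_⟩, h4⟩
    · rw [← hτy]
      exact h5 y h3
    · intro h6
      apply h4
      rw [← hτx] at h6
      exact (mem_U_iff h5 x).1 h6
    · intro v hv hvy
      rw [← hτv v (fun h => h4 (h ▸ hv)) hvy]
      exact h5 v hv

/-- TASK C4d. PROOF. Write `Wk` for the family counted by `wN U x y σ (k+1)`: `R ⊆ U`,
`R.card = k + 1`, `x ∈ R`, `y ∉ R`, `∀ v ∈ R, σ v ∈ insert y R`. Split according to whether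
`∀ v ∈ R, σ v ∈ R` (counted by `iN U {x} {y} σ (k+1)`) or not. In the second case `y = σ v` for some
`v ∈ R`, i.e. `y ∈ R' := R.image σ`; then `R ↦ R'` is a bijection of the second case onto
`E = (U.powersetCard (k+1)).filter (fun R' => y ∈ R' ∧ σ x ∈ R' ∧ σ y ∉ R' ∧
∀ v ∈ R', v ≠ y → σ v ∈ R')` [`x ∈ R ↔ σ x ∈ R'`, `y ∉ R ↔ σ y ∉ R'`; `R' ⊆ insert y R`, so
`v ∈ R'`, `v ≠ y` gives `v ∈ R`, `σ v ∈ R'`; conversely from `R' ∈ E` put `R = R'.image σ⁻¹ ⊆ U`
(`σ` maps `U` onto `U`); `v ∈ R` gives `σ v ∈ R'` and `R' ⊆ insert y R`: `u ∈ R'`, `u ≠ y` gives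
`σ u ∈ R'`, `u ∈ R`; not all of `R` stays in `R` because `y ∈ R' = R.image σ`, `y ∉ R`]. Split `E`
according to `x ∈ R'`. (i) `x ∈ R'` (then `σ x ∈ R'` is automatic since `x ≠ y`): `R'' = R'.erase y`
is in the family of `wN U x y σ k` (`R'' ⊆ U`, card `k`, `x ∈ R''`, `y ∉ R''`,
`∀ v ∈ R'', σ v ∈ R' = insert y R''`) and `σ y ∉ insert y R''`; this is a bijection, and the members
`R''` of the family of `wN U x y σ k` with `σ y ∈ insert y R''` correspond by `R'' ↦ insert y R''` to
the sets `S ⊆ U` of card `k + 1` with `x, y ∈ S`, `∀ v ∈ S, σ v ∈ S`, counted by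
`bN U x y σ (k+1)`. So `#(i) + bN (k+1) = wN k`. (ii) `x ∉ R'`: then with `τ = σ * swap x y`:
`τ y = σ x ∈ R'` and `τ v = σ v` for the other `v ∈ R'`: so `R'` is preserved by `τ`; conversely if
`y ∈ R'`, `x ∉ R'`, `∀ v ∈ R', τ v ∈ R'` then `σ x = τ y ∈ R'`, `σ v = τ v ∈ R'` for `v ∈ R'`,
`v ≠ y`, and `σ y = τ x ∉ R'` (`τ` maps `R'` onto `R'` and `x ∉ R'`). So `#(ii) = iN U {y} {x} τ (k+1)`.
Total: `wN (k+1) = iN + #E = iN + (wN k - bN (k+1)) + iN' τ`. -/
theorem wN_succ {U : Finset V} {σ : Equiv.Perm V} (hσ : ∀ v ∈ U, σ v ∈ U) {x y : V}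
    (hx : x ∈ U) (hy : y ∈ U) (hxy : x ≠ y) (k : ℕ) :
    wN U x y σ (k + 1) + bN U x y σ (k + 1) =
      iN U {x} {y} σ (k + 1) + wN U x y σ k + iN U {y} {x} (σ * Equiv.swap x y) (k + 1) := by
  rw [wN_split hσ (k + 1), ← Finset.card_filter_add_card_filter_not (s :=
    (U.powersetCard (k + 1)).filter fun R => y ∈ R ∧ σ x ∈ R ∧ σ y ∉ R ∧
      ∀ v ∈ R, v ≠ y → σ v ∈ R) (fun R => x ∈ R), part_two (k + 1),
    ← part_one (σ := σ) hy hxy k]
  ring

end Pool.Agent.Stirring.Mono
end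

section

/-! Two marks: all files. -/
end
end

section

section

/-! Independence of different blocks. -/

open Finset

set_option linter.unusedSectionVars false

namespace Pool.Agent.Stirring.Hier

section General

variable {V : Type*} [Fintype V] [DecidableEq V]

theorem pow_mul_inv {c : V × V → ℝ} {G : Set (Equiv.Perm V)} (hG : Stab c G) {f h : Fn V}
    (hf : ∀ σ ∈ G, ∀ p, c p ≠ 0 → f (σ * Equiv.swap p.1 p.2) = f σ) (n : ℕ) :
    ∀ σ ∈ G, (stepT c ^ n) (fun τ => f τ * h τ) σ = f σ * (stepT c ^ n) h σ := by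
  induction n with
  | zero => intro σ _; simp
  | succ n ih =>
    intro σ hσ
    rw [stepT_pow_succ, stepT_pow_succ, Finset.mul_sum]
    refine Finset.sum_congr rfl fun p _ => ?_
    by_cases hp : c p = 0
    · rw [hp]; ring
    · rw [ih _ (hG σ hσ p hp), hf σ hσ p hp]
      ring

theorem sg_mul_inv {c : V × V → ℝ} {G : Set (Equiv.Perm V)} (hG : Stab c G) {f h : Fn V}
    (hf : ∀ σ ∈ G, ∀ p, c p ≠ 0 → f (σ * Equiv.swap p.1 p.2) = f σ) (t : ℝ) :
    ∀ σ ∈ G, sg c t (fun τ => f τ * h τ) σ = f σ * sg c t h σ := by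
  intro σ hσ
  have h1 := sg_hasSum c t (fun τ => f τ * h τ) σ
  have h2 := (sg_hasSum c t h σ).mul_left (f σ)
  refine h1.unique ?_
  refine h2.congr_fun ?_ |> fun h => h
  intro n
  rw [pow_mul_inv hG hf n σ hσ]
  ring

theorem sg_inv {c : V × V → ℝ} {G : Set (Equiv.Perm V)} (hG : Stab c G) {f : Fn V}
    (hf : ∀ σ ∈ G, ∀ p, c p ≠ 0 → f (σ * Equiv.swap p.1 p.2) = f σ) (t : ℝ) :
    ∀ σ ∈ G, sg c t f σ = f σ := by
  intro σ hσ
  have h1 := sg_mul_inv (h := fun _ => 1) hG hf t σ hσ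
  rw [sg_const, mul_one] at h1
  have h2 : (fun τ => f τ * 1) = f := by funext τ; rw [mul_one]
  rw [h2] at h1
  exact h1

theorem pow_shift {c : V × V → ℝ} {G : Set (Equiv.Perm V)} (hG : Stab c G) {f : Fn V}
    {q : V × V} (hf : ∀ σ ∈ G, f (σ * Equiv.swap q.1 q.2) = f σ)
    (hq : ∀ p, c p ≠ 0 → Commute (Equiv.swap q.1 q.2) (Equiv.swap p.1 p.2)) (n : ℕ) :
    ∀ σ ∈ G, (stepT c ^ n) f (σ * Equiv.swap q.1 q.2) = (stepT c ^ n) f σ := by
  induction n with
  | zero => intro σ hσ; simpa using hf σ hσ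
  | succ n ih =>
    intro σ hσ
    rw [stepT_pow_succ, stepT_pow_succ]
    refine Finset.sum_congr rfl fun p _ => ?_
    by_cases hp : c p = 0
    · rw [hp]; ring
    · rw [mul_assoc, (hq p hp).eq, ← mul_assoc, ih _ (hG σ hσ p hp)]

theorem sg_shift {c : V × V → ℝ} {G : Set (Equiv.Perm V)} (hG : Stab c G) {f : Fn V}
    {q : V × V} (hf : ∀ σ ∈ G, f (σ * Equiv.swap q.1 q.2) = f σ)
    (hq : ∀ p, c p ≠ 0 → Commute (Equiv.swap q.1 q.2) (Equiv.swap p.1 p.2)) (t : ℝ) :
    ∀ σ ∈ G, sg c t f (σ * Equiv.swap q.1 q.2) = sg c t f σ := by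
  intro σ hσ
  have h1 := sg_hasSum c t f (σ * Equiv.swap q.1 q.2)
  have h2 := sg_hasSum c t f σ
  refine h1.unique ?_
  refine h2.congr_fun ?_ |> fun h => h
  intro n
  rw [pow_shift hG hf hq n σ hσ]

theorem swap_commute {a b c d : V} (hac : a ≠ c) (had : a ≠ d) (hbc : b ≠ c) (hbd : b ≠ d) :
    Commute (Equiv.swap a b) (Equiv.swap c d) := by
  refine Equiv.Perm.Disjoint.commute ?_
  intro x
  by_cases h1 : x = a
  · right
    rw [h1, Equiv.swap_apply_of_ne_of_ne hac had]
  · by_cases h2 : x = b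
    · right
      rw [h2, Equiv.swap_apply_of_ne_of_ne hbc hbd]
    · left
      exact Equiv.swap_apply_of_ne_of_ne h1 h2

/-- Functions depending on disjoint parts of the permutation are independent. -/
theorem sg_indep {c : V × V → ℝ} (hc : ∀ p, 0 ≤ c p) {G : Set (Equiv.Perm V)} (hG : Stab c G)
    (B : V → Prop) [DecidablePred B] (hB : ∀ p, c p ≠ 0 → (B p.1 ↔ B p.2)) {f f' : Fn V}
    (hf : ∀ σ ∈ G, ∀ p, c p ≠ 0 → ¬ B p.1 → f (σ * Equiv.swap p.1 p.2) = f σ)
    (hf' : ∀ σ ∈ G, ∀ p, c p ≠ 0 → B p.1 → f' (σ * Equiv.swap p.1 p.2) = f' σ)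
    {t : ℝ} (ht : 0 ≤ t) :
    ∀ σ ∈ G, sg c t (fun τ => f τ * f' τ) σ = sg c t f σ * sg c t f' σ := by
  set c1 : V × V → ℝ := fun p => if B p.1 then c p else 0 with hc1
  set c2 : V × V → ℝ := fun p => if B p.1 then 0 else c p with hc2
  have hsum : c = c1 + c2 := by
    funext p
    simp only [hc1, hc2, Pi.add_apply]
    split_ifs <;> simp
  have h1 : ∀ p, c1 p ≠ 0 → c p ≠ 0 ∧ B p.1 := by
    intro p hp
    simp only [hc1] at hp
    by_cases hb : B p.1
    · rw [if_pos hb] at hp; exact ⟨hp, hb⟩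
    · rw [if_neg hb] at hp; exact absurd rfl hp
  have h2 : ∀ p, c2 p ≠ 0 → c p ≠ 0 ∧ ¬ B p.1 := by
    intro p hp
    simp only [hc2] at hp
    by_cases hb : B p.1
    · rw [if_pos hb] at hp; exact absurd rfl hp
    · rw [if_neg hb] at hp; exact ⟨hp, hb⟩
  have hc1n : ∀ p, 0 ≤ c1 p := by
    intro p; simp only [hc1]; split_ifs
    · exact hc p
    · exact le_rfl
  have hG1 : Stab c1 G := fun σ hσ p hp => hG σ hσ p (h1 p hp).1
  have hG2 : Stab c2 G := fun σ hσ p hp => hG σ hσ p (h2 p hp).1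
  have hcom : Commute (stepT c1) (stepT c2) := by
    refine stepT_commute fun p hp q => ?_
    obtain ⟨hp0, hpB⟩ := h1 p hp
    have hpB2 : B p.2 := (hB p hp0).mp hpB
    have hsw : ∀ y, B (Equiv.swap p.1 p.2 y) ↔ B y := by
      intro y
      by_cases hy1 : y = p.1
      · rw [hy1, Equiv.swap_apply_left]; exact ⟨fun _ => hpB, fun _ => hpB2⟩
      · by_cases hy2 : y = p.2
        · rw [hy2, Equiv.swap_apply_right]; exact ⟨fun _ => hpB2, fun _ => hpB⟩
        · rw [Equiv.swap_apply_of_ne_of_ne hy1 hy2]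
    have hfix : ∀ y, ¬ B y → Equiv.swap p.1 p.2 y = y := by
      intro y hy
      refine Equiv.swap_apply_of_ne_of_ne ?_ ?_
      · rintro rfl; exact hy hpB
      · rintro rfl; exact hy hpB2
    simp only [hc2, hsw]
    by_cases hq1 : B q.1
    · rw [if_pos hq1, if_pos hq1]
    · rw [if_neg hq1, if_neg hq1, hfix _ hq1]
      by_cases hq2 : B q.2
      · have e1 : c (q.1, Equiv.swap p.1 p.2 q.2) = 0 := by
          by_contra hne
          exact hq1 ((hB _ hne).mpr ((hsw q.2).mpr hq2))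
        have e2 : c q = 0 := by
          by_contra hne
          exact hq1 ((hB _ hne).mpr hq2)
        rw [e1, e2]
      · rw [hfix _ hq2]
  have hsg : sg c t = sg c1 t * sg c2 t := by
    conv_lhs => rw [hsum]
    exact sg_add_rates hcom t
  intro σ hσ
  have ef : ∀ τ ∈ G, sg c2 t f τ = f τ :=
    sg_inv hG2 (fun σ hσ p hp => hf σ hσ p (h2 p hp).1 (h2 p hp).2) t
  have eff : ∀ τ ∈ G, sg c2 t (fun τ => f τ * f' τ) τ = sg c2 t f' τ * f τ := by
    intro τ hτ
    rw [sg_mul_inv hG2 (fun σ hσ p hp => hf σ hσ p (h2 p hp).1 (h2 p hp).2) t τ hτ, mul_comm]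
  have hF' : ∀ σ ∈ G, ∀ p, c1 p ≠ 0 →
      sg c2 t f' (σ * Equiv.swap p.1 p.2) = sg c2 t f' σ := by
    intro σ hσ p hp
    obtain ⟨hp0, hpB⟩ := h1 p hp
    have hpB2 : B p.2 := (hB p hp0).mp hpB
    refine sg_shift hG2 (fun τ hτ => hf' τ hτ p hp0 hpB) ?_ t σ hσ
    intro q hq
    obtain ⟨hq0, hqB⟩ := h2 q hq
    have hqB2 : ¬ B q.2 := fun h => hqB ((hB q hq0).mpr h)
    refine swap_commute ?_ ?_ ?_ ?_
    · rintro h; rw [h] at hpB; exact hqB hpB
    · rintro h; rw [h] at hpB; exact hqB2 hpB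
    · rintro h; rw [h] at hpB2; exact hqB hpB2
    · rintro h; rw [h] at hpB2; exact hqB2 hpB2
  rw [hsg]
  show sg c1 t (sg c2 t (fun τ => f τ * f' τ)) σ = sg c1 t (sg c2 t f) σ * sg c1 t (sg c2 t f') σ
  rw [sg_congr_on hc1n hG1 eff ht σ hσ, sg_congr_on hc1n hG1 ef ht σ hσ,
    sg_mul_inv hG1 hF' t σ hσ, sg_inv hG1 hF' t σ hσ, mul_comm]

end General

end Pool.Agent.Stirring.Hier
end

section

/-! The recursion over the levels in the transient case. -/

open Finset

set_option linter.unusedSectionVars false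

namespace Pool.Agent.Stirring.Hier

section CS

variable {V : Type*} [Fintype V] [DecidableEq V]

/-- The Cauchy–Schwarz inequality for the semigroup. -/
theorem sg_cs {c : V × V → ℝ} (hc : ∀ p, 0 ≤ c p) {s : ℝ} (hs : 0 ≤ s) (f h : Fn V)
    (σ : Equiv.Perm V) : (sg c s (fun τ => f τ * h τ) σ) ^ 2 ≤
      sg c s (fun τ => f τ ^ 2) σ * sg c s (fun τ => h τ ^ 2) σ := by
  have h1 : ∀ x : ℝ, 0 ≤ sg c s (fun τ => h τ ^ 2) σ * (x * x) +
      (2 * sg c s (fun τ => f τ * h τ) σ) * x + sg c s (fun τ => f τ ^ 2) σ := by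
    intro x
    have h2 := sg_nonneg_on hc (stab_univ c) (f := (x * x) • (fun τ => h τ ^ 2) +
      (2 * x) • (fun τ => f τ * h τ) + (fun τ => f τ ^ 2)) (fun τ _ => by
        simp only [Pi.add_apply, Pi.smul_apply, smul_eq_mul]
        nlinarith [sq_nonneg (x * h τ + f τ)]) hs σ (Set.mem_univ _)
    rw [sg_add, sg_add, sg_smul, sg_smul] at h2
    linarith
  have h2 := discrim_le_zero h1
  unfold discrim at h2
  nlinarith

end CS

variable {N K : ℕ}

theorem Phi_succ (hN : 0 < N) {k : ℕ} (hk : k < K) (h : ℝ) (σ : Equiv.Perm (Word N K))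
    (x : Word N K) :
    Phi (lab N K (k + 1)) (N ^ (k + 1)) (N * h) σ x =
      (∑ a : Fin N, Phi (lab N K k) (N ^ k) h σ (Function.update x ⟨k, hk⟩ a)) / N := by
  have hNr : (0 : ℝ) < N := by exact_mod_cast hN
  unfold Phi
  rw [← Finset.sum_div, div_div]
  have e1 : (((N ^ (k + 1) : ℕ)) : ℝ) = ((N ^ k : ℕ) : ℝ) * N := by push_cast; ring
  have hNk : (0 : ℝ) < ((N ^ k : ℕ) : ℝ) := by exact_mod_cast pow_pos hN k
  rw [e1]
  congr 1
  have e2 : (N : ℝ) * h / (((N ^ k : ℕ) : ℝ) * N) = h / ((N ^ k : ℕ) : ℝ) := by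
    field_simp
  rw [e2, ← Finset.sum_fiberwise (blk (lab N K (k + 1)) x) (fun y => y ⟨k, hk⟩)]
  refine Finset.sum_congr rfl fun a _ => ?_
  refine Finset.sum_congr ?_ fun y _ => rfl
  ext y
  rw [Finset.mem_filter, mem_blk, mem_blk, lab_eq_iff, lab_eq_iff]
  constructor
  · rintro ⟨h1, h2⟩ i hi
    by_cases hik : i = ⟨k, hk⟩
    · rw [hik, Function.update_self, h2]
    · rw [Function.update_of_ne hik]
      refine h1 i ?_
      have : (i : ℕ) ≠ k := fun h => hik (Fin.ext h)
      omega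
  · intro h1
    refine ⟨fun i hi => ?_, ?_⟩
    · have h2 := h1 i (by omega)
      rwa [Function.update_of_ne (by
        intro h
        rw [h] at hi
        simp at hi)] at h2
    · have h2 := h1 ⟨k, hk⟩ le_rfl
      rwa [Function.update_self] at h2

theorem max_avg_le {m : ℝ} (hN : 0 < N) (P : Fin N → ℝ) :
    max ((∑ a, P a) / N - m) 0 ≤ (∑ a, max (P a - m) 0) / N := by
  have hNr : (0 : ℝ) < N := by exact_mod_cast hN
  refine max_le ?_ (div_nonneg (Finset.sum_nonneg fun a _ => le_max_right _ _) hNr.le)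
  rw [le_div_iff₀ hNr, sub_mul, div_mul_cancel₀ _ hNr.ne']
  have h1 : ∑ a : Fin N, (P a - m) ≤ ∑ a, max (P a - m) 0 :=
    Finset.sum_le_sum fun a _ => le_max_left _ _
  rw [Finset.sum_sub_distrib, Finset.sum_const, Finset.card_univ, Fintype.card_fin,
    nsmul_eq_mul] at h1
  linarith

section Rec

variable {g : ℕ → ℝ} {t : ℝ}

/-- The expectation of the positive part. -/
theorem EL_pos_sq_le (hg : ∀ j, 0 < g j) (ht : 0 ≤ t) {k : ℕ} (hk : k ≤ K)
    {h m M W : ℝ} (hm : 0 < m) (hW0 : 0 ≤ W)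
    (hM : ∀ x : Word N K, EL N K g t k (fun τ => Phi (lab N K k) (N ^ k) h τ x) ≤ M)
    (hW : ∀ x : Word N K, EL N K g t k (fun τ => sp m (Phi (lab N K k) (N ^ k) h τ x)) ≤ W)
    (x : Word N K) :
    (EL N K g t k (fun τ => max (Phi (lab N K k) (N ^ k) h τ x - m) 0)) ^ 2 ≤ W * (M / m) := by
  classical
  set P : Fn (Word N K) := fun τ => Phi (lab N K k) (N ^ k) h τ x with hP
  have hgn : ∀ j, 0 ≤ g j := fun j => (hg j).le
  have hcard : ∀ x : Word N K, (blk (lab N K k) x).card = N ^ k := fun x => card_blk hk x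
  have hP0 : ∀ τ, 0 ≤ P τ := fun τ => Phi_nonneg hcard h τ x
  have h1 := sg_cs (lev_nonneg (N := N) (K := K) hgn k) ht
    (fun τ => max (P τ - m) 0) (fun τ => if m < P τ then 1 else 0) 1
  have e1 : (fun τ => max (P τ - m) 0 * (if m < P τ then (1 : ℝ) else 0)) =
      fun τ => max (P τ - m) 0 := by
    funext τ
    by_cases h : m < P τ
    · rw [if_pos h, mul_one]
    · rw [if_neg h, mul_zero, max_eq_right (by linarith)]
  rw [e1] at h1
  have h2 : sg (lev N K g k) t (fun τ => (if m < P τ then (1 : ℝ) else 0) ^ 2) 1 ≤ M / m := by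
    have h3 : ∀ τ ∈ pres (lab N K k), (if m < P τ then (1 : ℝ) else 0) ^ 2 ≤ (1 / m) * P τ := by
      intro τ _
      by_cases h : m < P τ
      · rw [if_pos h, one_pow, div_mul_eq_mul_div, one_mul, le_div_iff₀ hm]
        linarith
      · rw [if_neg h]
        simp only [ne_eq, OfNat.ofNat_ne_zero, not_false_eq_true, zero_pow]
        exact mul_nonneg (by positivity) (hP0 τ)
    have h4 := EL_mono (N := N) (K := K) hgn ht k h3
    rw [EL_mul] at h4
    refine h4.trans ?_
    rw [div_mul_eq_mul_div, one_mul]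
    exact div_le_div_of_nonneg_right (hM x) hm.le
  have h3 : sg (lev N K g k) t (fun τ => max (P τ - m) 0 ^ 2) 1 ≤ W := hW x
  have h4 : 0 ≤ sg (lev N K g k) t (fun τ => (if m < P τ then (1 : ℝ) else 0) ^ 2) 1 :=
    sg_nonneg_on (lev_nonneg hgn k) (stab_univ _) (fun τ _ => sq_nonneg _) ht 1 (Set.mem_univ _)
  calc (EL N K g t k (fun τ => max (P τ - m) 0)) ^ 2 ≤ _ := h1
    _ ≤ W * (M / m) := mul_le_mul h3 h2 h4 hW0

/-- Independence of two different blocks of level `k`. -/
theorem EL_indep (hg : ∀ j, 0 < g j) (ht : 0 ≤ t) {k : ℕ} {h m : ℝ} {x y : Word N K}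
    (hxy : lab N K k x ≠ lab N K k y) :
    EL N K g t k (fun τ => max (Phi (lab N K k) (N ^ k) h τ x - m) 0 *
      max (Phi (lab N K k) (N ^ k) h τ y - m) 0) =
    EL N K g t k (fun τ => max (Phi (lab N K k) (N ^ k) h τ x - m) 0) *
      EL N K g t k (fun τ => max (Phi (lab N K k) (N ^ k) h τ y - m) 0) := by
  have hgn : ∀ j, 0 ≤ g j := fun j => (hg j).le
  refine sg_indep (lev_nonneg hgn k) (stab_lev g k) (fun z => lab N K k z = lab N K k x)
    (fun p hp => by rw [lev_apply_ne hp]) ?_ ?_ ht 1 (one_mem_pres k)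
  · intro σ hσ p hp hB
    rw [Phi_out hσ (lev_apply_ne hp) hB]
  · intro σ hσ p hp hB
    rw [Phi_out hσ (lev_apply_ne hp) (fun h => hxy (hB.symm.trans h))]

/-- Averaging the square of the positive part over the subblocks. -/
theorem EL_sp_avg (hg : ∀ j, 0 < g j) (ht : 0 ≤ t) (hN : 0 < N) {k : ℕ} (hk : k < K)
    {h m M W : ℝ} (hm : 0 < m) (hM0 : 0 ≤ M) (hW0 : 0 ≤ W)
    (hM : ∀ x : Word N K, EL N K g t k (fun τ => Phi (lab N K k) (N ^ k) h τ x) ≤ M)
    (hW : ∀ x : Word N K, EL N K g t k (fun τ => sp m (Phi (lab N K k) (N ^ k) h τ x)) ≤ W)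
    (x : Word N K) :
    EL N K g t k (fun τ => sp m (Phi (lab N K (k + 1)) (N ^ (k + 1)) (N * h) τ x)) ≤
      (1 / N + M / m) * W := by
  have hNr : (0 : ℝ) < N := by exact_mod_cast hN
  have hgn : ∀ j, 0 ≤ g j := fun j => (hg j).le
  set xa : Fin N → Word N K := fun a => Function.update x ⟨k, hk⟩ a with hxa
  set φ : Fin N → Fn (Word N K) := fun a τ =>
    max (Phi (lab N K k) (N ^ k) h τ (xa a) - m) 0 with hφ
  have h1 : ∀ τ ∈ pres (lab N K k), sp m (Phi (lab N K (k + 1)) (N ^ (k + 1)) (N * h) τ x) ≤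
      (1 / (N : ℝ) ^ 2) * ∑ a, ∑ a', φ a τ * φ a' τ := by
    intro τ _
    rw [Phi_succ hN hk]
    unfold sp
    have h2 := max_avg_le (m := m) hN (fun a => Phi (lab N K k) (N ^ k) h τ (xa a))
    refine (pow_le_pow_left₀ (le_max_right _ _) h2 2).trans (le_of_eq ?_)
    rw [div_pow, sq (∑ a, max (Phi (lab N K k) (N ^ k) h τ (xa a) - m) 0), Finset.sum_mul_sum]
    ring
  refine (EL_mono hgn ht k h1).trans ?_
  rw [EL_mul, EL_sum]
  have h2 : ∀ a : Fin N, EL N K g t k (fun σ => ∑ a', φ a σ * φ a' σ) ≤ W + N * (W * (M / m)) := by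
    intro a
    rw [EL_sum]
    have h3 : ∀ a' ∈ (Finset.univ : Finset (Fin N)), EL N K g t k (fun σ => φ a σ * φ a' σ) ≤
        (if a' = a then W else 0) + W * (M / m) := by
      intro a' _
      have hWM : 0 ≤ W * (M / m) := by positivity
      by_cases haa : a' = a
      · rw [if_pos haa, haa]
        have e1 : (fun σ => φ a σ * φ a σ) =
            fun τ => sp m (Phi (lab N K k) (N ^ k) h τ (xa a)) := by
          funext τ
          unfold sp
          rw [sq]
        rw [e1]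
        linarith [hW (xa a)]
      · rw [if_neg haa, zero_add]
        have hne : lab N K k (xa a) ≠ lab N K k (xa a') := by
          intro hc
          rw [lab_eq_iff] at hc
          have h4 := hc ⟨k, hk⟩ le_rfl
          simp only [hxa, Function.update_self] at h4
          exact haa h4.symm
        have h5 := EL_indep (m := m) (h := h) hg ht hne
        have h6 := EL_pos_sq_le hg ht hk.le hm hW0 hM hW (xa a)
        have h7 := EL_pos_sq_le hg ht hk.le hm hW0 hM hW (xa a')
        have h8 : EL N K g t k (fun σ => φ a σ * φ a' σ) =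
            EL N K g t k (φ a) * EL N K g t k (φ a') := h5
        rw [h8]
        have h9 : (EL N K g t k (φ a)) ^ 2 ≤ W * (M / m) := h6
        have h10 : (EL N K g t k (φ a')) ^ 2 ≤ W * (M / m) := h7
        nlinarith [sq_nonneg (EL N K g t k (φ a) - EL N K g t k (φ a'))]
    refine (Finset.sum_le_sum h3).trans (le_of_eq ?_)
    rw [Finset.sum_add_distrib, Finset.sum_ite_eq' , if_pos (Finset.mem_univ _), Finset.sum_const,
      Finset.card_univ, Fintype.card_fin, nsmul_eq_mul]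
  have h3 : ∑ a : Fin N, EL N K g t k (fun σ => ∑ a', φ a σ * φ a' σ) ≤
      N * (W + N * (W * (M / m))) := by
    refine (Finset.sum_le_sum fun a _ => h2 a).trans (le_of_eq ?_)
    rw [Finset.sum_const, Finset.card_univ, Fintype.card_fin, nsmul_eq_mul]
  refine (mul_le_mul_of_nonneg_left h3 (by positivity)).trans (le_of_eq ?_)
  field_simp

theorem EL_Phi_avg (hN : 0 < N) {k : ℕ} (hk : k < K) {h M : ℝ}
    (hM : ∀ x : Word N K, EL N K g t k (fun τ => Phi (lab N K k) (N ^ k) h τ x) ≤ M)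
    (x : Word N K) :
    EL N K g t k (fun τ => Phi (lab N K (k + 1)) (N ^ (k + 1)) (N * h) τ x) ≤ M := by
  have hNr : (0 : ℝ) < N := by exact_mod_cast hN
  have e1 : (fun τ => Phi (lab N K (k + 1)) (N ^ (k + 1)) (N * h) τ x) = fun τ => (1 / (N : ℝ)) *
      ∑ a : Fin N, Phi (lab N K k) (N ^ k) h τ (Function.update x ⟨k, hk⟩ a) := by
    funext τ
    rw [Phi_succ hN hk]
    ring
  rw [e1, EL_mul, EL_sum]
  have h1 : ∑ a : Fin N, EL N K g t k (fun τ => Phi (lab N K k) (N ^ k) h τ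
      (Function.update x ⟨k, hk⟩ a)) ≤ N * M := by
    refine (Finset.sum_le_sum fun a _ => hM _).trans (le_of_eq ?_)
    rw [Finset.sum_const, Finset.card_univ, Fintype.card_fin, nsmul_eq_mul]
  rw [div_mul_eq_mul_div, one_mul, div_le_iff₀ hNr]
  linarith

/-- One step of the recursion. -/
theorem rec_step (hg : ∀ j, 0 < g j) (ht : 0 ≤ t) (hN : 0 < N) {k : ℕ} (hk : k < K)
    {h h₁ m b M W : ℝ} (hh₁ : 0 < h₁) (hm : 0 < m) (hb : 0 < b)
    (hbm : b + m ≤ 1 / 2) (hbh : 16 * b * max (N * h) h₁ ≤ h₁)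
    (hbt : max (N * h) h₁ - h₁ ≤ 2 * b * g (k + 1) * t) (hM0 : 0 ≤ M) (hW0 : 0 ≤ W)
    (hM : ∀ x : Word N K, EL N K g t k (fun τ => Phi (lab N K k) (N ^ k) h τ x) ≤ M)
    (hW : ∀ x : Word N K, EL N K g t k (fun τ => sp m (Phi (lab N K k) (N ^ k) h τ x)) ≤ W)
    (x : Word N K) :
    EL N K g t (k + 1) (fun τ => sp m (Phi (lab N K (k + 1)) (N ^ (k + 1)) h₁ τ x)) ≤
      4 / 3 * ((1 / N + M / m) * W) + 16 * (g (k + 1) * t) / h₁ ^ 2 ∧
    EL N K g t (k + 1) (fun τ => Phi (lab N K (k + 1)) (N ^ (k + 1)) h₁ τ x) ≤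
      M + 1 / 3 * ((1 / N + M / m) * W) + 8 * (g (k + 1) * t) / h₁ ^ 2 := by
  have hgn : ∀ j, 0 ≤ g j := fun j => (hg j).le
  have hcard : ∀ x : Word N K, (blk (lab N K (k + 1)) x).card = N ^ (k + 1) :=
    fun x => card_blk (by omega) x
  set h₀ : ℝ := max (N * h) h₁ with hh₀
  have h10 : h₁ ≤ h₀ := le_max_right _ _
  have hNh : N * h ≤ h₀ := le_max_left _ _
  have h1 := EL_sp_avg hg ht hN hk hm hM0 hW0 hM hW x
  have h2 := EL_Phi_avg hN hk hM x
  constructor
  · rw [EL_succ]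
    have h3 : ∀ σ ∈ pres (lab N K k), sg (brate (lab N K (k + 1)) (N ^ (k + 1)) (g (k + 1))) t
        (fun τ => sp m (Phi (lab N K (k + 1)) (N ^ (k + 1)) h₁ τ x)) σ ≤
        4 / 3 * sp m (Phi (lab N K (k + 1)) (N ^ (k + 1)) (N * h) σ x) +
        16 * (g (k + 1) * t) / h₁ ^ 2 := by
      intro σ hσ
      refine (one_level hcard (hg _) hh₁ h10 hb hm.le hbm hbh hbt
        (pres_mono (Nat.le_succ k) hσ) x).1.trans ?_
      have h4 := sp_mono m (Phi_anti hcard hNh σ x)
      linarith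
    refine (EL_mono hgn ht k h3).trans ?_
    rw [EL_add, EL_mul, EL_const]
    linarith
  · rw [EL_succ]
    have h3 : ∀ σ ∈ pres (lab N K k), sg (brate (lab N K (k + 1)) (N ^ (k + 1)) (g (k + 1))) t
        (fun τ => Phi (lab N K (k + 1)) (N ^ (k + 1)) h₁ τ x) σ ≤
        (Phi (lab N K (k + 1)) (N ^ (k + 1)) (N * h) σ x +
        1 / 3 * sp m (Phi (lab N K (k + 1)) (N ^ (k + 1)) (N * h) σ x)) +
        8 * (g (k + 1) * t) / h₁ ^ 2 := by
      intro σ hσ
      refine (one_level hcard (hg _) hh₁ h10 hb hm.le hbm hbh hbt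
        (pres_mono (Nat.le_succ k) hσ) x).2.trans ?_
      have h4 := sp_mono m (Phi_anti hcard hNh σ x)
      have h5 := Phi_anti hcard hNh σ x
      linarith
    refine (EL_mono hgn ht k h3).trans ?_
    rw [EL_add, EL_add, EL_mul, EL_const]
    linarith

end Rec

end Pool.Agent.Stirring.Hier
end

section

/-! The top level in the transient case. -/

open Finset

set_option linter.unusedSectionVars false

namespace Pool.Agent.Stirring.Hier

/-- A concave function between `x` and `4 x`. -/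
noncomputable def gf (x : ℝ) : ℝ := 1 - 4 * sp (-(1 / 2)) (-x)

theorem gf_eq (x : ℝ) : gf x = 1 - 4 * (max (1 / 2 - x) 0) ^ 2 := by
  unfold gf sp
  congr 4
  ring

theorem gf_hasDerivAt (x : ℝ) : HasDerivAt gf (8 * max (1 / 2 - x) 0) x := by
  have h1 := (sp_hasDerivAt (-(1 / 2)) (-x)).comp x (hasDerivAt_neg x)
  have h2 := (h1.const_mul 4).const_sub 1
  refine h2.congr_deriv ?_
  have : -x - -(1 / 2) = 1 / 2 - x := by ring
  rw [this]
  ring

theorem gf_concave (x y : ℝ) : gf y ≤ gf x + 8 * max (1 / 2 - x) 0 * (y - x) := by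
  have h := sp_convex (-(1 / 2)) (-x) (-y)
  have e : -x - -(1 / 2) = 1 / 2 - x := by ring
  rw [e] at h
  unfold gf
  nlinarith

theorem le_gf {x : ℝ} (h0 : 0 ≤ x) (h1 : x ≤ 1) : x ≤ gf x := by
  rw [gf_eq]
  rcases le_total (1 / 2 - x) 0 with h | h
  · rw [max_eq_right h]; linarith
  · rw [max_eq_left h]; nlinarith

theorem gf_le {x : ℝ} (h0 : 0 ≤ x) : gf x ≤ 4 * x := by
  rw [gf_eq]
  rcases le_total (1 / 2 - x) 0 with h | h
  · rw [max_eq_right h]; linarith
  · rw [max_eq_left h]; nlinarith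

variable {V : Type*} [Fintype V] [DecidableEq V] {ι : Type*} [DecidableEq ι]

section Top

variable {β : V → ι} {n : ℕ} (hn : ∀ x, (blk β x).card = n) {g h : ℝ}

include hn

theorem gen_gf_le (hg : 0 ≤ g) {σ : Equiv.Perm V} (x : V) :
    gen (brate β n g) (fun τ => gf (Phi β n h τ x)) σ ≤
      8 * max (1 / 2 - Phi β n h σ x) 0 * gen (brate β n g) (fun τ => Phi β n h τ x) σ := by
  rw [gen_apply, gen_apply, Finset.mul_sum]
  refine Finset.sum_le_sum fun p _ => ?_
  have h1 := gf_concave (Phi β n h σ x) (Phi β n h (σ * Equiv.swap p.1 p.2) x)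
  have h2 : gf (Phi β n h (σ * Equiv.swap p.1 p.2) x) - gf (Phi β n h σ x) ≤
      8 * max (1 / 2 - Phi β n h σ x) 0 *
        (Phi β n h (σ * Equiv.swap p.1 p.2) x - Phi β n h σ x) := by linarith
  have h3 := mul_le_mul_of_nonneg_left h2 (brate_nonneg (β := β) (n := n) hg p)
  linarith

theorem move_gf_le (hg : 0 ≤ g) (hh : 0 < h) {σ : Equiv.Perm V} (hσ : σ ∈ pres β) (x : V) :
    gen (brate β n g) (fun τ => gf (Phi β n h τ x)) σ +
        8 * max (1 / 2 - Phi β n h σ x) 0 * (g * dPhi β n h σ x) ≤ 16 * g / h ^ 2 := by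
  have h1 := gen_gf_le (h := h) hn hg (σ := σ) x
  have h2 := gen_Phi_le hn hg hh hσ x
  set P := Phi β n h σ x with hP
  set d := dPhi β n h σ x with hd
  have hd0 : 0 ≤ d := dPhi_nonneg hn h σ x
  have hP0 : 0 ≤ P := Phi_nonneg hn h σ x
  set u := max (1 / 2 - P) 0 with hu
  have hu0 : 0 ≤ u := le_max_right _ _
  have hu1 : u ≤ 1 / 2 := max_le (by linarith) (by norm_num)
  have h3 : 8 * u * gen (brate β n g) (fun τ => Phi β n h τ x) σ ≤
      8 * u * (g * (4 / h ^ 2 - 2 * (1 - P) * d)) :=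
    mul_le_mul_of_nonneg_left h2 (by linarith)
  have h4 : u * ((1 - 2 * (1 - P)) * d) ≤ 0 := by
    rcases le_total (1 / 2 - P) 0 with h | h
    · rw [hu, max_eq_right h, zero_mul]
    · refine mul_nonpos_of_nonneg_of_nonpos hu0 (mul_nonpos_of_nonpos_of_nonneg ?_ hd0)
      linarith
  have h5 : 8 * u * (g * (4 / h ^ 2)) ≤ 16 * g / h ^ 2 := by
    have h6 : 0 ≤ g / h ^ 2 := by positivity
    have h7 : 8 * u * (g * (4 / h ^ 2)) = (32 * u) * (g / h ^ 2) := by ring
    have h8 : 16 * g / h ^ 2 = 16 * (g / h ^ 2) := by ring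
    rw [h7, h8]
    exact mul_le_mul_of_nonneg_right (by linarith) h6
  have h6 := mul_nonneg hg (neg_nonneg.mpr h4)
  nlinarith

/-- The parameter decreases with unit speed from `h₀` to `H`. -/
theorem top_phase (hg : 0 < g) {h₀ H : ℝ} (hH : 0 < H) (hH0 : H ≤ h₀) {σ : Equiv.Perm V}
    (hσ : σ ∈ pres β) (x : V) :
    sg (brate β n g) ((h₀ - H) / g) (fun τ => Phi β n H τ x) σ ≤
      4 * Phi β n h₀ σ x + 16 / H := by
  set T : ℝ := (h₀ - H) / g with hT
  have hT0 : 0 ≤ T := div_nonneg (by linarith) hg.le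
  set hs : ℝ → ℝ := fun s => h₀ - g * s with hhs
  have hs0 : hs 0 = h₀ := by simp [hhs]
  have hsT : hs T = H := by
    simp only [hhs, hT]
    field_simp
    ring
  have hs1 : ∀ s ∈ Set.Icc 0 T, H ≤ hs s := by
    intro s hs'
    rw [← hsT]
    simp only [hhs]
    have := mul_le_mul_of_nonneg_left hs'.2 hg.le
    linarith
  have hds : ∀ s, HasDerivAt hs (-g) s := by
    intro s
    have := ((hasDerivAt_id s).const_mul g).const_sub h₀
    exact this.congr_deriv (by ring)
  have hd : ∀ s τ, HasDerivAt (fun u => Phi β n (hs u) τ x) (g * dPhi β n (hs s) τ x) s := by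
    intro s τ
    have h1 := (Phi_hasDerivAt β n (hs s) τ x).comp s (hds s)
    exact h1.congr_deriv (by ring)
  set F : ℝ → Fn V := fun s τ => gf (Phi β n (hs s) τ x) + -(16 / hs s) with hF
  set F' : ℝ → Fn V := fun s τ => 8 * max (1 / 2 - Phi β n (hs s) τ x) 0 *
    (g * dPhi β n (hs s) τ x) + -(16 * g / hs s ^ 2) with hF'
  have hFd : ∀ s ∈ Set.Icc 0 T, ∀ τ, HasDerivAt (fun u => F u τ) (F' s τ) s := by
    intro s hs' τ
    have hpos : 0 < hs s := lt_of_lt_of_le hH (hs1 s hs')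
    have h1 := (gf_hasDerivAt (Phi β n (hs s) τ x)).comp s (hd s τ)
    have h2 : HasDerivAt (fun u => -(16 / hs u)) (-(16 * g / hs s ^ 2)) s := by
      have h3 := ((hasDerivAt_const s (16 : ℝ)).div (hds s) hpos.ne').neg
      refine h3.congr_deriv ?_
      field_simp
      ring
    exact h1.add h2
  have hc := brate_nonneg (β := β) (n := n) hg.le
  have hG := stab_pres β n g
  have h1 := move_lin hc hG (κ := 0) hT0 hFd (by
    intro s hs' τ hτ
    have hpos : 0 < hs s := lt_of_lt_of_le hH (hs1 s hs')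
    have h2 : gen (brate β n g) (F s) τ =
        gen (brate β n g) (fun τ => gf (Phi β n (hs s) τ x)) τ := by
      rw [gen_apply, gen_apply]
      refine Finset.sum_congr rfl fun p _ => ?_
      simp only [hF]
      ring
    rw [h2]
    have h3 := move_gf_le hn hg.le hpos hτ x
    simp only [hF']
    linarith) hσ
  have h2 : sg (brate β n g) T (F T) σ =
      sg (brate β n g) T (fun τ => gf (Phi β n H τ x)) σ + -(16 / H) := by
    have h3 : F T = (fun τ => gf (Phi β n H τ x)) + fun _ => -(16 / H) := by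
      funext τ
      simp only [hF, hsT, Pi.add_apply]
    rw [h3, sg_add, sg_const]
  have h3 : F 0 σ = gf (Phi β n h₀ σ x) + -(16 / h₀) := by simp only [hF, hs0]
  rw [h2, h3, zero_mul, add_zero] at h1
  have h4 : sg (brate β n g) T (fun τ => Phi β n H τ x) σ ≤
      sg (brate β n g) T (fun τ => gf (Phi β n H τ x)) σ :=
    sg_mono_on hc hG (fun τ _ => le_gf (Phi_nonneg hn H τ x) (Phi_le_one hn hH.le τ x)) hT0 σ hσ
  have h5 := gf_le (Phi_nonneg hn h₀ σ x)
  have h6 : 0 ≤ 16 / h₀ := by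
    have : 0 < h₀ := lt_of_lt_of_le hH hH0
    positivity
  linarith

theorem top_level (hg : 0 < g) {h₀ H t : ℝ} (hH : 0 < H) (hH0 : H ≤ h₀) (ht : h₀ - H ≤ g * t)
    {σ : Equiv.Perm V} (hσ : σ ∈ pres β) (x : V) :
    sg (brate β n g) t (fun τ => Phi β n H τ x) σ ≤
      4 * Phi β n h₀ σ x + 16 * (g * t) / h₀ ^ 2 + 16 / H := by
  set T : ℝ := (h₀ - H) / g with hT
  have hT0 : 0 ≤ T := div_nonneg (by linarith) hg.le
  have hTt : T ≤ t := by
    rw [hT, div_le_iff₀ hg]; linarith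
  have hh₀ : 0 < h₀ := lt_of_lt_of_le hH hH0
  have hc := brate_nonneg (β := β) (n := n) hg.le
  have hG := stab_pres β n g
  have e1 : sg (brate β n g) t = sg (brate β n g) (t - T) * sg (brate β n g) T := by
    rw [← sg_add_time]; congr 1; ring
  have h1 : ∀ τ ∈ pres β, sg (brate β n g) T (fun τ => Phi β n H τ x) τ ≤
      (((4 : ℝ) • ((fun τ => Phi β n h₀ τ x) : Fn V)) + ((fun _ => 16 / H) : Fn V)) τ := by
    intro τ hτ
    exact top_phase hn hg hH hH0 hτ x
  have h2 := sg_mono_on hc hG h1 (by linarith : 0 ≤ t - T) σ hσ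
  rw [sg_add, sg_const, sg_smul] at h2
  rw [e1]
  refine h2.trans ?_
  have h3 := sg_lin_upper hc hG (fun τ hτ => gen_Phi_simple hn hg.le hh₀ hτ x)
    (by linarith : 0 ≤ t - T) hσ
  have h4 : g * (4 / h₀ ^ 2) * (t - T) ≤ 4 * (g * t) / h₀ ^ 2 := by
    have h5 : g * (4 / h₀ ^ 2) * (t - T) = (4 * g / h₀ ^ 2) * (t - T) := by ring
    have h6 : 4 * (g * t) / h₀ ^ 2 = (4 * g / h₀ ^ 2) * t := by ring
    rw [h5, h6]
    exact mul_le_mul_of_nonneg_left (by linarith) (by positivity)
  have h7 : 16 * (g * t) / h₀ ^ 2 = 4 * (4 * (g * t) / h₀ ^ 2) := by ring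
  rw [h7]
  linarith

end Top

end Pool.Agent.Stirring.Hier
end

section

/-! The transient case. -/

open Finset

set_option linter.unusedSectionVars false

namespace Pool.Agent.Stirring.Hier

theorem cl_one {V : Type*} [Fintype V] [DecidableEq V] (x : V) :
    cl (1 : Equiv.Perm V) x = 1 := by
  unfold cl
  have : ((1 : Equiv.Perm V) : V → V) = id := rfl
  rw [this, Function.minimalPeriod_id]

variable {N K : ℕ}

/-- The scale of the cycles which are controlled. -/
noncomputable def lam (N : ℕ) (c : ℝ) : ℝ := c ^ 2 / (8 * (N : ℝ) ^ 2)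

section

variable {g : ℕ → ℝ} {t c : ℝ}

theorem lam_pos (hN : 0 < N) (hc : 0 < c) : 0 < lam N c := by
  have hNr : (0 : ℝ) < N := by exact_mod_cast hN
  unfold lam
  positivity

theorem lam_le_half (hN : 0 < N) (hc : 0 < c) (hc1 : c ≤ 1) : lam N c ≤ 1 / 2 := by
  have hNr : (1 : ℝ) ≤ N := by exact_mod_cast hN
  unfold lam
  rw [div_le_div_iff₀ (by positivity) (by norm_num)]
  nlinarith

theorem lam_le_one (hN : 0 < N) (hc : 0 < c) (hc1 : c ≤ 1) : lam N c ≤ 1 :=
  (lam_le_half hN hc hc1).trans (by norm_num)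

/-- The numbers `N h_k` and `h_{k+1}`. -/
theorem scales (hg : ∀ j, 0 < g j) (ht : 0 < t) (hN : 0 < N) (hc : 0 < c) (hc1 : c ≤ 1)
    (hcg : ∀ j, c * g j ≤ g (j + 1)) (k : ℕ) :
    16 * (c / (16 * N)) * max (N * (lam N c * (t * g k))) (lam N c * (t * g (k + 1))) ≤
      lam N c * (t * g (k + 1)) ∧
    max (N * (lam N c * (t * g k))) (lam N c * (t * g (k + 1))) - lam N c * (t * g (k + 1)) ≤
      2 * (c / (16 * N)) * g (k + 1) * t ∧
    max (N * (lam N c * (t * g k))) (lam N c * (t * g (k + 1))) ≤ g (k + 1) * t / 2 := by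
  have hNr : (1 : ℝ) ≤ N := by exact_mod_cast hN
  have hNp : (0 : ℝ) < N := by linarith
  have hl := lam_pos hN hc
  have hl1 := lam_le_half hN hc hc1
  have hgk := hg k
  have hgk1 := hg (k + 1)
  have h1 := hcg k
  have hlN : N * lam N c = c ^ 2 / (8 * N) := by
    unfold lam; field_simp
  have h2 : N * (lam N c * (t * g k)) ≤ 2 * (c / (16 * N)) * g (k + 1) * t := by
    have h3 : N * (lam N c * (t * g k)) = c / (8 * N) * t * (c * g k) := by
      rw [← mul_assoc, hlN]; ring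
    have h4 : 2 * (c / (16 * N)) * g (k + 1) * t = c / (8 * N) * t * g (k + 1) := by ring
    rw [h3, h4]
    exact mul_le_mul_of_nonneg_left h1 (by positivity)
  refine ⟨?_, ?_, ?_⟩
  · have h3 : 16 * (c / (16 * N)) = c / N := by ring
    rw [h3, mul_max_of_nonneg _ _ (by positivity)]
    refine max_le ?_ ?_
    · have h4 : c / N * (N * (lam N c * (t * g k))) = lam N c * t * (c * g k) := by
        field_simp
      rw [h4]
      have h5 := mul_le_mul_of_nonneg_left h1 (by positivity : 0 ≤ lam N c * t)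
      linarith
    · have h4 : c / N ≤ 1 := by rw [div_le_one hNp]; linarith
      have h5 : 0 ≤ lam N c * (t * g (k + 1)) := by positivity
      nlinarith
  · rcases le_total (N * (lam N c * (t * g k))) (lam N c * (t * g (k + 1))) with h | h
    · rw [max_eq_right h, sub_self]; positivity
    · rw [max_eq_left h]
      have : 0 ≤ lam N c * (t * g (k + 1)) := by positivity
      linarith
  · refine max_le (h2.trans ?_) ?_
    · have h5 : 2 * (c / (16 * N)) ≤ 1 / 2 := by
        rw [mul_div_assoc', div_le_div_iff₀ (by positivity) (by norm_num)]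
        linarith
      have h6 : 0 ≤ g (k + 1) * t := by positivity
      nlinarith
    · have h6 : 0 ≤ t * g (k + 1) := by positivity
      nlinarith

/-- The value of the bound at level `k`. -/
noncomputable def aa (N : ℕ) (g : ℕ → ℝ) (t c : ℝ) (k : ℕ) : ℝ :=
  28 / (lam N c ^ 2 * t) * ∑ j ∈ Finset.range (k + 1), 1 / g j

theorem recursion (hg : ∀ j, 0 < g j) (ht : 0 < t) (hN : 2 ≤ N) (hc : 0 < c) (hc1 : c ≤ 1)
    (hcg : ∀ j, c * g j ≤ g (j + 1)) (hsmall : ∀ k, aa N g t c k ≤ 1 / 32)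
    {k : ℕ} (hk : k ≤ K) :
    ∃ M W : ℝ, 0 ≤ M ∧ 0 ≤ W ∧ M + 5 / 4 * W ≤ aa N g t c k ∧
      (∀ x : Word N K, EL N K g t k
        (fun τ => Phi (lab N K k) (N ^ k) (lam N c * (t * g k)) τ x) ≤ M) ∧
      (∀ x : Word N K, EL N K g t k
        (fun τ => sp (1 / 4) (Phi (lab N K k) (N ^ k) (lam N c * (t * g k)) τ x)) ≤ W) := by
  have hN0 : 0 < N := by omega
  have hNr : (2 : ℝ) ≤ N := by exact_mod_cast hN
  have hl := lam_pos hN0 hc
  have hl1 := lam_le_one hN0 hc hc1
  induction k with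
  | zero =>
    set h : ℝ := lam N c * (t * g 0) with hh
    have hg0 := hg 0
    have hh0 : 0 < h := by positivity
    have hval : ∀ x : Word N K, Phi (lab N K 0) (N ^ 0) h 1 x = Real.exp (-h) := by
      intro x
      unfold Phi
      rw [Finset.sum_congr rfl fun y _ => by rw [cl_one], Finset.sum_const, card_blk hk]
      unfold ex
      simp
    have hexp : Real.exp (-h) ≤ 1 / h := by
      rw [le_div_iff₀ hh0]
      have := mul_exp_neg_le_one (z := h)
      linarith
    have hexp0 := Real.exp_pos (-h)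
    have hexp1 : Real.exp (-h) ≤ 1 := by rw [Real.exp_le_one_iff]; linarith
    refine ⟨1 / h, 1 / h, by positivity, by positivity, ?_, ?_, ?_⟩
    · unfold aa
      rw [Finset.sum_range_one]
      have h1 : 1 / h + 5 / 4 * (1 / h) = 9 / 4 * (1 / h) := by ring
      have h2 : 28 / (lam N c ^ 2 * t) * (1 / g 0) = 28 / lam N c * (1 / h) := by
        rw [hh]; field_simp
      rw [h1, h2]
      refine mul_le_mul_of_nonneg_right ?_ (by positivity)
      rw [le_div_iff₀ hl]
      linarith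
    · intro x
      rw [EL_zero, hval]
      exact hexp
    · intro x
      rw [EL_zero, hval]
      unfold sp
      have h1 : max (Real.exp (-h) - 1 / 4) 0 ≤ Real.exp (-h) := max_le (by linarith) hexp0.le
      have h2 : (max (Real.exp (-h) - 1 / 4) 0) ^ 2 ≤ Real.exp (-h) ^ 2 :=
        pow_le_pow_left₀ (le_max_right _ _) h1 2
      have h3 : Real.exp (-h) ^ 2 ≤ Real.exp (-h) := by nlinarith
      linarith
  | succ k ih =>
    obtain ⟨M, W, hM0, hW0, hMW, hM, hW⟩ := ih (by omega)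
    obtain ⟨s1, s2, _⟩ := scales hg ht hN0 hc hc1 hcg k
    have hgk := hg (k + 1)
    set h₁ : ℝ := lam N c * (t * g (k + 1)) with hh₁
    have hh₁0 : 0 < h₁ := by positivity
    have hb : 0 < c / (16 * (N : ℝ)) := by positivity
    have hbm : c / (16 * (N : ℝ)) + 1 / 4 ≤ 1 / 2 := by
      have : c / (16 * (N : ℝ)) ≤ 1 / 4 := by
        rw [div_le_div_iff₀ (by positivity) (by norm_num)]
        linarith
      linarith
    have hstep := rec_step (K := K) hg ht.le hN0 (by omega : k < K) hh₁0 (by norm_num) hb hbm s1 s2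
      hM0 hW0 hM hW
    have hM32 : M ≤ 1 / 32 := by
      have := hsmall k
      linarith
    have hfac : 1 / (N : ℝ) + M / (1 / 4) ≤ 5 / 8 := by
      have h1 : 1 / (N : ℝ) ≤ 1 / 2 := by
        rw [div_le_div_iff₀ (by positivity) (by norm_num)]; linarith
      have h2 : M / (1 / 4) = 4 * M := by ring
      rw [h2]; linarith
    have hfac0 : 0 ≤ 1 / (N : ℝ) + M / (1 / 4) := by positivity
    set E : ℝ := 1 / (lam N c ^ 2 * t) * (1 / g (k + 1)) with hE
    have hE0 : 0 ≤ E := by positivity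
    have e1 : (g (k + 1) * t) / h₁ ^ 2 = E := by
      rw [hh₁, hE]; field_simp
    refine ⟨M + 5 / 24 * W + 8 * E, 5 / 6 * W + 16 * E, by positivity, by positivity, ?_, ?_, ?_⟩
    · have h1 : aa N g t c (k + 1) = aa N g t c k + 28 * E := by
        unfold aa
        rw [Finset.sum_range_succ _ (k + 1), mul_add, hE]
        ring
      rw [h1]
      linarith
    · intro x
      refine (hstep x).2.trans ?_
      have h1 := mul_le_mul_of_nonneg_right hfac hW0
      have h2 : 8 * (g (k + 1) * t) / h₁ ^ 2 = 8 * E := by rw [← e1]; ring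
      rw [h2]
      linarith
    · intro x
      refine (hstep x).1.trans ?_
      have h1 := mul_le_mul_of_nonneg_right hfac hW0
      have h2 : 16 * (g (k + 1) * t) / h₁ ^ 2 = 16 * E := by rw [← e1]; ring
      rw [h2]
      linarith

/-- The bound for the Laplace functional at the top level. -/
theorem final_Phi (hg : ∀ j, 0 < g j) (ht : 0 < t) (hN : 2 ≤ N) (hc : 0 < c) (hc1 : c ≤ 1)
    (hcg : ∀ j, c * g j ≤ g (j + 1)) {S H : ℝ} (hS : ∀ k, ∑ j ∈ Finset.range k, 1 / g j ≤ S)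
    (hH : 0 < H) (ht1 : 896 * S ≤ lam N c ^ 2 * t) (ht2 : H * S ≤ lam N c * t)
    (x : Word N (K + 1)) :
    EL N (K + 1) g t (K + 1)
      (fun τ => Phi (lab N (K + 1) (K + 1)) (N ^ (K + 1)) H τ x) ≤
      128 * S / (lam N c ^ 2 * t) + 16 / H := by
  have hN0 : 0 < N := by omega
  have hl := lam_pos hN0 hc
  have hl1 := lam_le_one hN0 hc hc1
  have hgn : ∀ j, 0 ≤ g j := fun j => (hg j).le
  have hlt : 0 < lam N c ^ 2 * t := by positivity
  have hsmall' : ∀ k, aa N g t c k ≤ 28 * S / (lam N c ^ 2 * t) := by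
    intro k
    unfold aa
    rw [div_mul_eq_mul_div]
    exact div_le_div_of_nonneg_right (mul_le_mul_of_nonneg_left (hS _) (by norm_num)) hlt.le
  have hsmall : ∀ k, aa N g t c k ≤ 1 / 32 := by
    intro k
    refine (hsmall' k).trans ?_
    rw [div_le_iff₀ hlt]
    linarith
  obtain ⟨M, W, hM0, hW0, hMW, hM, hW⟩ := recursion (K := K + 1) hg ht hN hc hc1 hcg hsmall
    (by omega : K ≤ K + 1)
  obtain ⟨s1, s2, s3⟩ := scales hg ht hN0 hc hc1 hcg K
  have hMle : M ≤ 28 * S / (lam N c ^ 2 * t) := by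
    have := hsmall' K
    linarith
  have hgK := hg (K + 1)
  set h₁ : ℝ := lam N c * (t * g (K + 1)) with hh₁
  have hh₁0 : 0 < h₁ := by positivity
  set h₀ : ℝ := max (N * (lam N c * (t * g K))) h₁ with hh₀
  have hgS : 1 / g (K + 1) ≤ S := by
    have h1 := hS (K + 2)
    rw [Finset.sum_range_succ] at h1
    have h2 : 0 ≤ ∑ j ∈ Finset.range (K + 1), 1 / g j := Finset.sum_nonneg fun j _ => by
      have := hg j
      positivity
    linarith
  have hHh : H ≤ h₀ := by
    refine le_trans ?_ (le_max_right _ _)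
    rw [div_le_iff₀ hgK] at hgS
    have h1 : H ≤ H * (S * g (K + 1)) := by nlinarith
    have h2 : H * S * g (K + 1) ≤ lam N c * t * g (K + 1) :=
      mul_le_mul_of_nonneg_right ht2 hgK.le
    rw [hh₁]
    linarith
  have hcard : ∀ x : Word N (K + 1), (blk (lab N (K + 1) (K + 1)) x).card = N ^ (K + 1) :=
    fun x => card_blk le_rfl x
  rw [EL_succ]
  have h1 : ∀ σ ∈ pres (lab N (K + 1) K),
      sg (brate (lab N (K + 1) (K + 1)) (N ^ (K + 1)) (g (K + 1))) t
      (fun τ => Phi (lab N (K + 1) (K + 1)) (N ^ (K + 1)) H τ x) σ ≤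
      4 * Phi (lab N (K + 1) (K + 1)) (N ^ (K + 1)) (N * (lam N c * (t * g K))) σ x +
        (16 * (g (K + 1) * t) / h₁ ^ 2 + 16 / H) := by
    intro σ hσ
    have hgt : 0 < g (K + 1) * t := by positivity
    refine (top_level hcard (hg _) hH hHh (by linarith) (pres_mono (Nat.le_succ K) hσ) x).trans ?_
    have h2 := Phi_anti hcard (le_max_left (N * (lam N c * (t * g K))) h₁) σ x
    have h3 : 16 * (g (K + 1) * t) / h₀ ^ 2 ≤ 16 * (g (K + 1) * t) / h₁ ^ 2 := by
      refine div_le_div_of_nonneg_left (by positivity) (by positivity) ?_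
      exact pow_le_pow_left₀ hh₁0.le (le_max_right _ _) 2
    linarith
  refine (EL_mono hgn ht.le K h1).trans ?_
  rw [EL_add, EL_mul, EL_const]
  have h2 := EL_Phi_avg hN0 (by omega : K < K + 1) hM x
  have h3 : 16 * (g (K + 1) * t) / h₁ ^ 2 ≤ 16 * S / (lam N c ^ 2 * t) := by
    have h4 : 16 * (g (K + 1) * t) / h₁ ^ 2 = 16 * (1 / g (K + 1)) / (lam N c ^ 2 * t) := by
      rw [hh₁]; field_simp
    rw [h4]
    exact div_le_div_of_nonneg_right (by linarith) hlt.le
  have h5 : 128 * S / (lam N c ^ 2 * t) = 4 * (28 * S / (lam N c ^ 2 * t)) +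
      16 * S / (lam N c ^ 2 * t) := by ring
  rw [h5]
  linarith

end

end Pool.Agent.Stirring.Hier
end
end

section

/-! Macroscopic cycles in the transient case: the fraction of vertices in macroscopic cycles. -/

open Finset Filter

set_option linter.unusedSectionVars false

namespace Pool.Agent.Stirring.Hier

variable {N K : ℕ}

theorem blk_top (x : Word N K) : blk (lab N K K) x = Finset.univ := by
  ext y
  rw [mem_blk, lab_eq_iff]
  simp only [Finset.mem_univ, iff_true]
  intro i hi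
  exact absurd i.2 (by omega)

theorem one_sub_three_ex_le {H n : ℝ} (hH : 0 < H) (hn : 0 < n) (l : ℕ) :
    1 - 3 * ex (H / n) l ≤ if 1 / H * n ≤ l then 1 else 0 := by
  have h0 := ex_pos (H / n) l
  split_ifs with h
  · linarith
  · push Not at h
    have h1 : H / n * (l : ℝ) ≤ 1 := by
      rw [div_mul_eq_mul_div, div_le_one hn]
      rw [div_mul_eq_mul_div, one_mul, lt_div_iff₀ hH] at h
      linarith
    have h2 : Real.exp (-1) ≤ ex (H / n) l := by
      unfold ex
      rw [Real.exp_le_exp]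
      linarith
    have h3 : 1 / 3 ≤ Real.exp (-1) := by
      have h4 := Real.exp_one_lt_d9
      have h5 : Real.exp 1 * Real.exp (-1) = 1 := by rw [← Real.exp_add]; simp
      have h6 := Real.exp_pos (-1)
      nlinarith
    linarith

theorem count_ge (hN : 0 < N) {H : ℝ} (hH : 0 < H) (σ : Equiv.Perm (Word N K)) (x₀ : Word N K) :
    (N : ℝ) ^ K * (1 - 3 * Phi (lab N K K) (N ^ K) H σ x₀) ≤
      (Nat.card {x : Word N K // 1 / H * (N : ℝ) ^ K ≤ cycLen σ x} : ℝ) := by
  classical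
  have hNr : (0 : ℝ) < N := by exact_mod_cast hN
  have hNK : (0 : ℝ) < (N : ℝ) ^ K := by positivity
  have h1 : (Nat.card {x : Word N K // 1 / H * (N : ℝ) ^ K ≤ cycLen σ x} : ℝ) =
      ∑ x : Word N K, if 1 / H * (N : ℝ) ^ K ≤ cl σ x then (1 : ℝ) else 0 := by
    rw [Nat.card_eq_fintype_card, Fintype.card_subtype, Finset.sum_boole]
    simp only [cycLen_eq]
  have h2 : (N : ℝ) ^ K * Phi (lab N K K) (N ^ K) H σ x₀ =
      ∑ x : Word N K, ex (H / (N : ℝ) ^ K) (cl σ x) := by
    unfold Phi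
    rw [blk_top]
    push_cast
    field_simp
  have h3 : (N : ℝ) ^ K = ∑ _x : Word N K, (1 : ℝ) := by
    rw [Finset.sum_const, Finset.card_univ, nsmul_eq_mul, mul_one, card_word]
  rw [h1, mul_sub, mul_one]
  have h4 : (N : ℝ) ^ K * (3 * Phi (lab N K K) (N ^ K) H σ x₀) =
      ∑ x : Word N K, 3 * ex (H / (N : ℝ) ^ K) (cl σ x) := by
    rw [← Finset.mul_sum, ← h2]; ring
  rw [h4]
  conv_lhs => rw [h3]
  rw [← Finset.sum_sub_distrib]
  exact Finset.sum_le_sum fun x _ => by
    rw [← h3]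
    exact one_sub_three_ex_le hH hNK _

theorem summable_bound {g : ℕ → ℝ} (hg : ∀ j, 0 < g j) (hs : Summable fun j => 1 / g j) :
    0 < ∑' j, 1 / g j ∧ ∀ k, ∑ j ∈ Finset.range k, 1 / g j ≤ ∑' j, 1 / g j := by
  have h0 : ∀ j, 0 ≤ 1 / g j := fun j => by
    have := hg j
    positivity
  have h1 : ∀ k, ∑ j ∈ Finset.range k, 1 / g j ≤ ∑' j, 1 / g j :=
    fun k => hs.sum_le_tsum _ (fun j _ => h0 j)
  refine ⟨?_, h1⟩
  have h2 := h1 1
  rw [Finset.sum_range_one] at h2
  have h3 := hg 0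
  have : 0 < 1 / g 0 := by positivity
  linarith

/-- The transient case: most vertices are in macroscopic cycles if `t` is large. -/
theorem transient_case {g : ℕ → ℝ} {c : ℝ} (hN : 2 ≤ N) (hg : ∀ j, 0 < g j) (hc : 0 < c)
    (hcg : ∀ j, c * g j ≤ g (j + 1)) (hs : Summable fun j => 1 / g j) {δ : ℝ} (hδ : 0 < δ) :
    ∃ t₀ ε : ℝ, 0 < t₀ ∧ 0 < ε ∧ ∀ t, t₀ ≤ t → ∀ K : ℕ,
      (1 - δ) * (N : ℝ) ^ K ≤ hexpect N K g t fun σ =>
        (Nat.card {x : Word N K // ε * (N : ℝ) ^ K ≤ cycLen σ x} : ℝ) := by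
  classical
  have hN0 : 0 < N := by omega
  have hNr : (0 : ℝ) < N := by exact_mod_cast hN0
  have hgn : ∀ j, 0 ≤ g j := fun j => (hg j).le
  -- reduce to c ≤ 1
  set c' : ℝ := min c 1 with hc'
  have hc0 : 0 < c' := lt_min hc one_pos
  have hc1 : c' ≤ 1 := min_le_right _ _
  have hcg' : ∀ j, c' * g j ≤ g (j + 1) := fun j =>
    (mul_le_mul_of_nonneg_right (min_le_left _ _) (hgn j)).trans (hcg j)
  obtain ⟨hS0, hS⟩ := summable_bound hg hs
  set S : ℝ := ∑' j, 1 / g j with hSdef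
  have hl := lam_pos hN0 hc0
  set L : ℝ := lam N c' with hL
  set H : ℝ := 96 / δ + 1 with hH
  have hHpos : 0 < H := by positivity
  refine ⟨896 * S / L ^ 2 + H * S / L + 768 * S / (L ^ 2 * δ), 1 / H, by positivity,
    by positivity, ?_⟩
  intro t ht K
  have e1 : 0 < 896 * S / L ^ 2 := by positivity
  have e2 : 0 < H * S / L := by positivity
  have e3 : 0 < 768 * S / (L ^ 2 * δ) := by positivity
  have ht0 : 0 < t := by linarith
  have ht1 : 896 * S ≤ L ^ 2 * t := by
    have : 896 * S / L ^ 2 ≤ t := by linarith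
    rw [div_le_iff₀ (by positivity)] at this
    linarith
  have ht2 : H * S ≤ L * t := by
    have : H * S / L ≤ t := by linarith
    rw [div_le_iff₀ hl] at this
    linarith
  have ht3 : 768 * S ≤ L ^ 2 * δ * t := by
    have : 768 * S / (L ^ 2 * δ) ≤ t := by linarith
    rw [div_le_iff₀ (by positivity)] at this
    linarith
  rw [hexpect_eq]
  have x₀ : Word N K := fun _ => ⟨0, hN0⟩
  -- the bound for the Laplace functional
  have key : EL N K g t K (fun τ => Phi (lab N K K) (N ^ K) H τ x₀) ≤ δ / 3 := by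
    have hδ1 : 16 / H ≤ δ / 6 := by
      rw [div_le_iff₀ hHpos, hH]
      have : δ / 6 * (96 / δ + 1) = 16 + δ / 6 := by field_simp; ring
      rw [this]
      linarith
    rcases K with _ | K
    · rw [EL_zero]
      have h1 : Phi (lab N 0 0) (N ^ 0) H 1 x₀ = Real.exp (-H) := by
        unfold Phi
        rw [Finset.sum_congr rfl fun y _ => by rw [cl_one], Finset.sum_const, card_blk le_rfl]
        unfold ex
        simp
      rw [h1]
      have h2 : Real.exp (-H) ≤ 1 / H := by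
        rw [le_div_iff₀ hHpos]
        have := mul_exp_neg_le_one (z := H)
        linarith
      have h3 : 16 / H = 16 * (1 / H) := by ring
      have h4 : 0 < 1 / H := by positivity
      linarith
    · refine (final_Phi hg ht0 hN hc0 hc1 hcg' hS hHpos ht1 ht2 x₀).trans ?_
      have h1 : 128 * S / (L ^ 2 * t) ≤ δ / 6 := by
        rw [div_le_div_iff₀ (by positivity) (by norm_num)]
        linarith
      linarith
  have h1 := EL_mono (N := N) (K := K) hgn ht0.le K (f := fun σ => (N : ℝ) ^ K *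
    (1 - 3 * Phi (lab N K K) (N ^ K) H σ x₀)) (h := fun σ =>
      (Nat.card {x : Word N K // 1 / H * (N : ℝ) ^ K ≤ cycLen σ x} : ℝ))
      (fun σ _ => count_ge hN0 hHpos σ x₀)
  refine le_trans ?_ h1
  have h2 : EL N K g t K (fun σ => (N : ℝ) ^ K * (1 - 3 * Phi (lab N K K) (N ^ K) H σ x₀)) =
      (N : ℝ) ^ K * (1 - 3 * EL N K g t K (fun τ => Phi (lab N K K) (N ^ K) H τ x₀)) := by
    rw [EL_mul]
    congr 1
    have h3 : (fun σ : Equiv.Perm (Word N K) => 1 - 3 * Phi (lab N K K) (N ^ K) H σ x₀) =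
        fun σ => (fun _ => (1 : ℝ)) σ + (fun σ => (-3) * Phi (lab N K K) (N ^ K) H σ x₀) σ := by
      funext σ; ring
    rw [h3, EL_add, EL_const, EL_mul]
    ring
  rw [h2, mul_comm]
  refine mul_le_mul_of_nonneg_left ?_ (by positivity)
  linarith

end Pool.Agent.Stirring.Hier
end

section

section

/-! Counting the sets below. -/

open Finset

set_option linter.unusedSectionVars false

namespace Pool.Agent.Stirring.Mono

variable {V : Type*} [Fintype V] [DecidableEq V]

private theorem below_image {U M M' S : Finset V} {σ : Equiv.Perm V} {k : ℕ}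
    (hS : S ∈ fam U M M' (k + 1)) :
    ((fam U M M' k).filter fun R => R ⊆ S ∧ ∀ v ∈ R, σ v ∈ S) =
      ((S \ M).filter fun u => ∀ v ∈ S, v ≠ u → σ v ∈ S).image fun u => S.erase u := by
  obtain ⟨hSU, hSc, hMS, hMd⟩ := mem_fam.mp hS
  ext R
  rw [Finset.mem_filter, Finset.mem_image, mem_fam]
  constructor
  · rintro ⟨⟨_, hRc, hMR, _⟩, hRS, hR⟩
    have h1 : (S \ R).card = 1 := by
      rw [Finset.card_sdiff_of_subset hRS]
      omega
    obtain ⟨u, hu⟩ := Finset.card_eq_one.mp h1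
    have huS : u ∈ S \ R := by rw [hu]; exact Finset.mem_singleton_self u
    rw [Finset.mem_sdiff] at huS
    refine ⟨u, ?_, ?_⟩
    · rw [Finset.mem_filter, Finset.mem_sdiff]
      refine ⟨⟨huS.1, fun h => huS.2 (hMR h)⟩, fun v hv hvu => hR v ?_⟩
      by_contra h
      have : v ∈ S \ R := Finset.mem_sdiff.mpr ⟨hv, h⟩
      rw [hu, Finset.mem_singleton] at this
      exact hvu this
    · ext v
      rw [Finset.mem_erase]
      constructor
      · rintro ⟨hvu, hv⟩
        by_contra h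
        have : v ∈ S \ R := Finset.mem_sdiff.mpr ⟨hv, h⟩
        rw [hu, Finset.mem_singleton] at this
        exact hvu this
      · intro hv
        exact ⟨fun h => huS.2 (h ▸ hv), hRS hv⟩
  · rintro ⟨u, hu, rfl⟩
    rw [Finset.mem_filter, Finset.mem_sdiff] at hu
    obtain ⟨⟨huS, huM⟩, hu2⟩ := hu
    refine ⟨⟨(Finset.erase_subset u S).trans hSU, ?_, ?_, ?_⟩, Finset.erase_subset u S, ?_⟩
    · rw [Finset.card_erase_of_mem huS, hSc]
      rfl
    · intro m hm
      exact Finset.mem_erase.mpr ⟨fun h => huM (h ▸ hm), hMS hm⟩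
    · exact Finset.disjoint_of_subset_right (Finset.erase_subset u S) hMd
    · intro v hv
      rw [Finset.mem_erase] at hv
      exact hu2 v hv.2 hv.1

/-- TASK C1a. PROOF. The map `u ↦ S.erase u` is a bijection from
`A = (S \ M).filter (fun u => ∀ v ∈ S, v ≠ u → σ v ∈ S)` onto the filtered set on the left
(`Finset.card_bij` or `card_image_of_injOn`; use `mem_fam`, `Finset.card_erase_of_mem`,
`Finset.exists_eq_insert_iff` / `Finset.covBy`: a set `R ⊆ S` with `R.card = k`, `S.card = k + 1`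
is `S.erase u` for some `u`, e.g. `u` the element of `S \ R`, `Finset.card_sdiff`; `u ∉ M` since
`M ⊆ R`). Injective since `u ∉ S.erase u`, `v ∈ S.erase u`. So the left side is `A.card`. Now use
`esc_eq_zero`, `esc_eq_one`: if `esc σ S = 0` then `A = S \ M`, with card `k + 1 - M.card`
(`Finset.card_sdiff_of_subset`). If `esc σ S = 1`, with escaping point `v₀` (`σ v₀ ∉ S`, the others
stay in `S`): `u ∈ A` iff `u = v₀` and `v₀ ∉ M`; and `∃ v ∈ M, σ v ∉ S` iff `v₀ ∈ M` (since
`M ⊆ S`). If `esc σ S ≥ 2` then `A = ∅` (two different escaping points, `Finset.one_lt_card`;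
each must be equal to `u`). -/
theorem below_card {U M M' S : Finset V} {σ : Equiv.Perm V} {k : ℕ}
    (hS : S ∈ fam U M M' (k + 1)) :
    ((fam U M M' k).filter fun R => R ⊆ S ∧ ∀ v ∈ R, σ v ∈ S).card =
      if esc σ S = 0 then k + 1 - M.card
      else if esc σ S = 1 ∧ ¬ ∃ v ∈ M, σ v ∉ S then 1 else 0 := by
  rw [below_image hS]
  obtain ⟨hSU, hSc, hMS, hMd⟩ := mem_fam.mp hS
  rw [Finset.card_image_of_injOn]
  swap
  · intro u hu v hv huv
    rw [Finset.mem_coe, Finset.mem_filter, Finset.mem_sdiff] at hu hv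
    by_contra h
    have h1 : v ∈ S.erase u := Finset.mem_erase.mpr ⟨fun h' => h h'.symm, hv.1.1⟩
    have h2 : S.erase u = S.erase v := huv
    rw [h2] at h1
    exact Finset.notMem_erase v S h1
  by_cases h0 : esc σ S = 0
  · rw [if_pos h0]
    rw [esc_eq_zero] at h0
    rw [Finset.filter_true_of_mem (fun u _ v hv _ => h0 v hv), Finset.card_sdiff_of_subset hMS,
      hSc]
  · rw [if_neg h0]
    by_cases h1 : esc σ S = 1
    · obtain ⟨v₀, hv₀, hv1, hv2⟩ := esc_eq_one.mp h1
      by_cases hM : ∃ v ∈ M, σ v ∉ S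
      · rw [if_neg (fun h => h.2 hM), Finset.card_eq_zero, Finset.filter_eq_empty_iff]
        obtain ⟨w, hwM, hw⟩ := hM
        have hwv : w = v₀ := by
          by_contra h
          exact hw (hv2 w (hMS hwM) h)
        intro u hu hu2
        rw [Finset.mem_sdiff] at hu
        exact hw (hu2 w (hMS hwM) (fun h => hu.2 (h ▸ hwM)))
      · rw [if_pos ⟨h1, hM⟩, Finset.card_eq_one]
        refine ⟨v₀, ?_⟩
        ext u
        rw [Finset.mem_filter, Finset.mem_sdiff, Finset.mem_singleton]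
        constructor
        · rintro ⟨_, hu2⟩
          by_contra h
          exact hv1 (hu2 v₀ hv₀ (fun h' => h h'.symm))
        · rintro rfl
          exact ⟨⟨hv₀, fun h => hM ⟨u, h, hv1⟩⟩, hv2⟩
    · rw [if_neg (fun h => h1 h.1), Finset.card_eq_zero, Finset.filter_eq_empty_iff]
      intro u hu hu2
      have h2 : 1 < (S.filter fun v => σ v ∉ S).card := by
        have h3 : esc σ S = (S.filter fun v => σ v ∉ S).card := rfl
        omega
      obtain ⟨a, ha, b, hb, hab⟩ := Finset.one_lt_card.mp h2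
      rw [Finset.mem_filter] at ha hb
      have ha' : a = u := by
        by_contra h
        exact ha.2 (hu2 a ha.1 h)
      have hb' : b = u := by
        by_contra h
        exact hb.2 (hu2 b hb.1 h)
      exact hab (ha'.trans hb'.symm)

end Pool.Agent.Stirring.Mono
end

section

/-! Counting the sets above. -/

open Finset

set_option linter.unusedSectionVars false

namespace Pool.Agent.Stirring.Mono

variable {V : Type*} [Fintype V] [DecidableEq V]

private theorem C1b_bij {U M M' R : Finset V} {σ : Equiv.Perm V} {k : ℕ}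
    (hR : R ∈ fam U M M' k) :
    ((fam U M M' (k + 1)).filter fun S => R ⊆ S ∧ ∀ v ∈ R, σ v ∈ S).card =
      (((U \ R) \ M').filter fun w => ∀ v ∈ R, σ v ∈ insert w R).card := by
  obtain ⟨hRU, hRk, hMR, hdis⟩ := mem_fam.mp hR
  symm
  refine Finset.card_bij (fun w _ => insert w R) ?_ ?_ ?_
  · intro w hw
    rw [Finset.mem_filter, Finset.mem_sdiff, Finset.mem_sdiff] at hw
    obtain ⟨⟨⟨hwU, hwR⟩, hwM⟩, hw2⟩ := hw
    rw [Finset.mem_filter, mem_fam]
    refine ⟨⟨?_, ?_, ?_, ?_⟩, Finset.subset_insert _ _, hw2⟩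
    · exact Finset.insert_subset hwU hRU
    · rw [Finset.card_insert_of_notMem hwR, hRk]
    · exact hMR.trans (Finset.subset_insert _ _)
    · rw [Finset.disjoint_insert_right]
      exact ⟨hwM, hdis⟩
  · intro w hw w' _ h
    rw [Finset.mem_filter, Finset.mem_sdiff, Finset.mem_sdiff] at hw
    have h1 : w ∈ insert w' R := by
      have h2 : insert w R = insert w' R := h
      rw [← h2]
      exact Finset.mem_insert_self _ _
    rcases Finset.mem_insert.mp h1 with h3 | h3
    · exact h3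
    · exact absurd h3 hw.1.1.2
  · intro S hS
    rw [Finset.mem_filter, mem_fam] at hS
    obtain ⟨⟨hSU, hSk, _, hSd⟩, hRS, hS2⟩ := hS
    obtain ⟨w, hwR, hwS⟩ := Finset.exists_eq_insert_iff.mpr ⟨hRS, by rw [hRk, hSk]⟩
    have hwS' : w ∈ S := by rw [← hwS]; exact Finset.mem_insert_self _ _
    refine ⟨w, ?_, hwS⟩
    rw [Finset.mem_filter, Finset.mem_sdiff, Finset.mem_sdiff]
    refine ⟨⟨⟨hSU hwS', hwR⟩, fun hwM => Finset.disjoint_left.mp hSd hwM hwS'⟩, ?_⟩
    intro v hv
    rw [hwS]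
    exact hS2 v hv

/-- TASK C1b. PROOF. The map `w ↦ insert w R` is a bijection from
`B = ((U \ R) \ M').filter (fun w => ∀ v ∈ R, σ v ∈ insert w R)` onto the filtered set on the left
(`Finset.card_bij`; `mem_fam`; a set `S ⊇ R` with `S.card = k + 1`, `R.card = k` is `insert w R`
where `w` is the element of `S \ R`, and `w ∉ M'` because `Disjoint M' S`; conversely
`Disjoint M' (insert w R)` iff `w ∉ M'` and `Disjoint M' R`; `M ⊆ R ⊆ insert w R`). Injective since
`w ∉ R`. Now: if `esc σ R = 0`, then `B = (U \ R) \ M'`, with card `U.card - k - M'.card` (`R ⊆ U`,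
`M' ⊆ U \ R`). If `esc σ R = 1`, with escaping point `v₀`, then `w ∈ B` iff `w = σ v₀` and
`σ v₀ ∉ M'` (`σ v₀ ∈ U` by `hσ`, `σ v₀ ∉ R`); and `∃ v ∈ R, σ v ∈ M'` iff `σ v₀ ∈ M'` (if `σ v ∈ M'`
then `σ v ∉ R` by disjointness so `v = v₀`). If `esc σ R ≥ 2` then `B = ∅`: two different escaping
points `v ≠ v'` in `R` would both have image `w`, against the injectivity of `σ`. -/
theorem above_card {U M M' R : Finset V} {σ : Equiv.Perm V} {k : ℕ} (hσ : ∀ v ∈ U, σ v ∈ U)
    (hM' : M' ⊆ U) (hR : R ∈ fam U M M' k) :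
    ((fam U M M' (k + 1)).filter fun S => R ⊆ S ∧ ∀ v ∈ R, σ v ∈ S).card =
      if esc σ R = 0 then U.card - k - M'.card
      else if esc σ R = 1 ∧ ¬ ∃ v ∈ R, σ v ∈ M' then 1 else 0 := by
  rw [C1b_bij hR]
  obtain ⟨hRU, hRk, hMR, hdis⟩ := mem_fam.mp hR
  by_cases h0 : esc σ R = 0
  · rw [if_pos h0]
    rw [esc_eq_zero] at h0
    rw [Finset.filter_true_of_mem (fun w _ v hv => Finset.mem_insert_of_mem (h0 v hv))]
    have hM2 : M' ⊆ U \ R := fun x hx =>
      Finset.mem_sdiff.mpr ⟨hM' hx, fun hxR => Finset.disjoint_left.mp hdis hx hxR⟩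
    rw [Finset.card_sdiff_of_subset hM2, Finset.card_sdiff_of_subset hRU, hRk]
  · rw [if_neg h0]
    by_cases h1 : esc σ R = 1
    · have h1' : (R.filter fun v => σ v ∉ R).card = 1 := h1
      obtain ⟨v0, hv0⟩ := Finset.card_eq_one.mp h1'
      have hmem : ∀ v, (v ∈ R ∧ σ v ∉ R) ↔ v = v0 := by
        intro v
        have h5 : v ∈ (R.filter fun v => σ v ∉ R) ↔ v = v0 := by
          rw [hv0, Finset.mem_singleton]
        rw [Finset.mem_filter] at h5
        exact h5
      obtain ⟨hv0R, hv0σ⟩ := (hmem v0).mpr rfl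
      have hiff : (∃ v ∈ R, σ v ∈ M') ↔ σ v0 ∈ M' := by
        constructor
        · rintro ⟨v, hv, hvM⟩
          have h2 : v = v0 := (hmem v).mp ⟨hv, fun hvR => Finset.disjoint_left.mp hdis hvM hvR⟩
          rw [← h2]
          exact hvM
        · intro h
          exact ⟨v0, hv0R, h⟩
      have hB : ∀ w, w ∈ (((U \ R) \ M').filter fun w => ∀ v ∈ R, σ v ∈ insert w R) ↔
          (w = σ v0 ∧ σ v0 ∉ M') := by
        intro w
        rw [Finset.mem_filter, Finset.mem_sdiff, Finset.mem_sdiff]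
        constructor
        · rintro ⟨⟨⟨_, _⟩, hwM⟩, hw2⟩
          rcases Finset.mem_insert.mp (hw2 v0 hv0R) with h3 | h3
          · exact ⟨h3.symm, by rw [h3]; exact hwM⟩
          · exact absurd h3 hv0σ
        · rintro ⟨rfl, hwM⟩
          refine ⟨⟨⟨hσ v0 (hRU hv0R), hv0σ⟩, hwM⟩, ?_⟩
          intro v hv
          by_cases h3 : σ v ∈ R
          · exact Finset.mem_insert_of_mem h3
          · rw [(hmem v).mp ⟨hv, h3⟩]
            exact Finset.mem_insert_self _ _
      by_cases h4 : σ v0 ∈ M'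
      · rw [if_neg (fun h => h.2 (hiff.mpr h4)), Finset.card_eq_zero, Finset.eq_empty_iff_forall_notMem]
        intro w hw
        exact ((hB w).mp hw).2 h4
      · rw [if_pos ⟨h1, fun h => h4 (hiff.mp h)⟩, Finset.card_eq_one]
        refine ⟨σ v0, ?_⟩
        ext w
        rw [hB, Finset.mem_singleton]
        exact ⟨fun h => h.1, fun h => ⟨h, h4⟩⟩
    · rw [if_neg (fun h => h1 h.1), Finset.card_eq_zero, Finset.eq_empty_iff_forall_notMem]
      intro w hw
      rw [Finset.mem_filter] at hw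
      have h2 : 1 < (R.filter fun v => σ v ∉ R).card := by
        have : esc σ R = (R.filter fun v => σ v ∉ R).card := rfl
        omega
      obtain ⟨a, ha, b, hb, hab⟩ := Finset.one_lt_card.mp h2
      rw [Finset.mem_filter] at ha hb
      have ha2 : σ a = w := by
        rcases Finset.mem_insert.mp (hw.2 a ha.1) with h3 | h3
        · exact h3
        · exact absurd h3 ha.2
      have hb2 : σ b = w := by
        rcases Finset.mem_insert.mp (hw.2 b hb.1) with h3 | h3
        · exact h3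
        · exact absurd h3 hb.2
      exact hab (σ.injective (ha2.trans hb2.symm))

end Pool.Agent.Stirring.Mono
end

section

/-! The first identity between the counts. -/

open Finset

set_option linter.unusedSectionVars false

namespace Pool.Agent.Stirring.Mono

variable {V : Type*} [Fintype V] [DecidableEq V]

private theorem C1_sum (F : Finset (Finset V)) (a : ℝ) (n : Finset V → ℕ)
    (P : Finset V → Prop) [DecidablePred P] :
    ∑ S ∈ F, (if n S = 0 then a else if n S = 1 ∧ ¬ P S then (1 : ℝ) else 0) =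
      a * ((F.filter fun S => n S = 0).card : ℝ) + ((F.filter fun S => n S = 1).card : ℝ) -
        ((F.filter fun S => n S = 1 ∧ P S).card : ℝ) := by
  rw [← Finset.sum_boole, ← Finset.sum_boole, ← Finset.sum_boole, Finset.mul_sum,
    ← Finset.sum_add_distrib, ← Finset.sum_sub_distrib]
  refine Finset.sum_congr rfl fun S _ => ?_
  by_cases h0 : n S = 0
  · rw [if_pos h0, if_pos h0, if_neg (by omega), if_neg (by omega)]
    ring
  · rw [if_neg h0, if_neg h0]
    by_cases h1 : n S = 1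
    · rw [if_pos h1]
      by_cases hP : P S
      · rw [if_neg (by tauto), if_pos ⟨h1, hP⟩]
        ring
      · rw [if_pos ⟨h1, hP⟩, if_neg (by tauto)]
        ring
    · rw [if_neg (by tauto), if_neg h1, if_neg (by tauto)]
      ring

/-- TASK C1. PROOF. Double counting of the pairs `(R, S)`, `R ∈ fam U M M' k`,
`S ∈ fam U M M' (k + 1)`, `R ⊆ S ∧ ∀ v ∈ R, σ v ∈ S`:
`∑ S ∈ fam (k+1), (card of below filter) = ∑ R ∈ fam k, (card of above filter)` by
`Finset.sum_card_bipartiteAbove_eq_sum_card_bipartiteBelow` (or `Finset.card_filter`,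
`Finset.sum_comm`). Insert `below_card`, `above_card` (cast to `ℝ`). The sum over `S` of
`if esc = 0 then k + 1 - M.card else if esc = 1 ∧ ¬ P then 1 else 0` equals
`(k + 1 - M.card) * iN + (tN - xN)`: write `ite (esc = 0) a (ite ..) = ite (esc = 0) a 0 +
ite (esc = 1 ∧ ¬ P) 1 0`, use `Finset.sum_ite`/`Finset.sum_boole`/`Finset.card_filter`, and
`#{esc = 1 ∧ ¬ P} = #{esc = 1} - #{esc = 1 ∧ P}` (`Finset.filter_and_not`,
`Finset.card_filter_add_card_filter_not` ..). The natural subtractions: for `S ∈ fam (k+1)` we have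
`M.card ≤ k + 1` (as `M ⊆ S`); if the family `fam (k+1)` is empty both sides are `0`
(`iN = tN = xN = 0`). For `R ∈ fam k`: `R ⊆ U`, `M' ⊆ U`, `M'` and `R` disjoint so
`k + M'.card ≤ U.card`; if `fam k` is empty then `iN = tN = yN = 0`. -/
theorem pairs {U M M' : Finset V} {σ : Equiv.Perm V} (hσ : ∀ v ∈ U, σ v ∈ U) (hM' : M' ⊆ U)
    (k : ℕ) :
    ((k : ℝ) + 1 - M.card) * iN U M M' σ (k + 1) + tN U M M' σ (k + 1) - xN U M M' σ (k + 1) =
      ((U.card : ℝ) - k - M'.card) * iN U M M' σ k + tN U M M' σ k - yN U M M' σ k := by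
  classical
  have h1 : ∑ S ∈ fam U M M' (k + 1),
      ((((fam U M M' k).filter fun R => R ⊆ S ∧ ∀ v ∈ R, σ v ∈ S).card : ℕ) : ℝ) =
      ∑ R ∈ fam U M M' k,
      ((((fam U M M' (k + 1)).filter fun S => R ⊆ S ∧ ∀ v ∈ R, σ v ∈ S).card : ℕ) : ℝ) := by
    simp only [← Finset.sum_boole]
    exact Finset.sum_comm
  have h2 : ∑ S ∈ fam U M M' (k + 1),
      ((((fam U M M' k).filter fun R => R ⊆ S ∧ ∀ v ∈ R, σ v ∈ S).card : ℕ) : ℝ) =
      ∑ S ∈ fam U M M' (k + 1), (if esc σ S = 0 then ((k : ℝ) + 1 - M.card)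
        else if esc σ S = 1 ∧ ¬ ∃ v ∈ M, σ v ∉ S then (1 : ℝ) else 0) := by
    refine Finset.sum_congr rfl fun S hS => ?_
    rw [below_card hS]
    have hM : M.card ≤ k + 1 := by
      obtain ⟨_, h2, h3, _⟩ := mem_fam.1 hS
      rw [← h2]
      exact Finset.card_le_card h3
    split_ifs <;> push_cast [Nat.cast_sub hM] <;> ring
  have h3 : ∑ R ∈ fam U M M' k,
      ((((fam U M M' (k + 1)).filter fun S => R ⊆ S ∧ ∀ v ∈ R, σ v ∈ S).card : ℕ) : ℝ) =
      ∑ R ∈ fam U M M' k, (if esc σ R = 0 then ((U.card : ℝ) - k - M'.card)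
        else if esc σ R = 1 ∧ ¬ ∃ v ∈ R, σ v ∈ M' then (1 : ℝ) else 0) := by
    refine Finset.sum_congr rfl fun R hR => ?_
    rw [above_card hσ hM' hR]
    have hU : k + M'.card ≤ U.card := by
      obtain ⟨h1, h2, _, h4⟩ := mem_fam.1 hR
      rw [← h2, ← Finset.card_union_of_disjoint h4.symm]
      exact Finset.card_le_card (Finset.union_subset h1 hM')
    have e1 : (((U.card - k - M'.card : ℕ)) : ℝ) = (U.card : ℝ) - k - M'.card := by
      rw [Nat.cast_sub (by omega), Nat.cast_sub (by omega)]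
    split_ifs
    · exact e1
    · norm_num
    · norm_num
  rw [h2, h3, C1_sum, C1_sum] at h1
  exact h1

end Pool.Agent.Stirring.Mono
end

section

/-! One mark. -/

open Finset

set_option linter.unusedSectionVars false

namespace Pool.Agent.Stirring.Mono

variable {V : Type*} [Fintype V] [DecidableEq V]

private theorem c2a_ia (σ : Equiv.Perm V) (u : V) : σ⁻¹ (σ u) = u := by simp

private theorem c2a_ai (σ : Equiv.Perm V) (u : V) : σ (σ⁻¹ u) = u := by simp

private theorem c2a_memX {U : Finset V} {σ : Equiv.Perm V} {x : V} {k : ℕ} {R : Finset V} :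
    (R ∈ (fam U {x} ∅ k).filter fun S => esc σ S = 1 ∧ ∃ v ∈ ({x} : Finset V), σ v ∉ S) ↔
      R ⊆ U ∧ R.card = k ∧ x ∈ R ∧ σ x ∉ R ∧ ∀ v ∈ R, v ≠ x → σ v ∈ R := by
  rw [Finset.mem_filter, mem_fam, esc_eq_one]
  constructor
  · rintro ⟨⟨h1, h2, h3, -⟩, ⟨v, hv, hv1, hv2⟩, w, hw, hwx⟩
    rw [Finset.mem_singleton] at hw
    subst hw
    have hx : w ∈ R := h3 (Finset.mem_singleton_self w)
    have hwv : w = v := by
      by_contra hne
      exact hwx (hv2 w hx hne)
    subst hwv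
    exact ⟨h1, h2, hx, hwx, hv2⟩
  · rintro ⟨h1, h2, h3, h4, h5⟩
    exact ⟨⟨h1, h2, Finset.singleton_subset_iff.mpr h3, Finset.disjoint_empty_left _⟩,
      ⟨x, h3, h4, h5⟩, x, Finset.mem_singleton_self x, h4⟩

private theorem c2a_memI {U : Finset V} {σ : Equiv.Perm V} {x : V} {k : ℕ} {R : Finset V} :
    (R ∈ (fam U {x} ∅ k).filter fun S => esc σ S = 0) ↔
      R ⊆ U ∧ R.card = k ∧ x ∈ R ∧ ∀ v ∈ R, σ v ∈ R := by
  rw [Finset.mem_filter, mem_fam, esc_eq_zero, Finset.singleton_subset_iff]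
  constructor
  · rintro ⟨⟨h1, h2, h3, -⟩, h4⟩
    exact ⟨h1, h2, h3, h4⟩
  · rintro ⟨h1, h2, h3, h4⟩
    exact ⟨⟨h1, h2, h3, Finset.disjoint_empty_left _⟩, h4⟩

private theorem c2a_memJ {U : Finset V} {σ : Equiv.Perm V} {x : V} {k : ℕ} {R : Finset V} :
    (R ∈ (fam U ∅ {x} k).filter fun S => esc σ S = 0) ↔
      R ⊆ U ∧ R.card = k ∧ x ∉ R ∧ ∀ v ∈ R, σ v ∈ R := by
  rw [Finset.mem_filter, mem_fam, esc_eq_zero, Finset.disjoint_singleton_left]
  constructor
  · rintro ⟨⟨h1, h2, -, h3⟩, h4⟩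
    exact ⟨h1, h2, h3, h4⟩
  · rintro ⟨h1, h2, h3, h4⟩
    exact ⟨⟨h1, h2, Finset.empty_subset _, h3⟩, h4⟩

/-- TASK C2a. PROOF. Let `Z = (fam U {x} ∅ (k+1)).filter (fun S => ∀ v ∈ S, v ≠ x → σ v ∈ S)`.
Step 1: `Z.card = xN U {x} ∅ σ (k+1) + iN U {x} ∅ σ (k+1)`: split `Z` according to `σ x ∈ S` or not
(for `x ∈ S`: `esc σ S = 0` iff all of `S` stays, `esc σ S = 1 ∧ σ x ∉ S` iff `σ x ∉ S` and the
others stay; `esc_eq_zero`, `esc_eq_one`; `∃ v ∈ {x}, σ v ∉ S` is `σ x ∉ S`). Step 2: the map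
`S ↦ R = (S.erase x).map σ.toEmbedding` (or `(S.erase x).image σ`) is a bijection of `Z` onto
`Z' = (U.powersetCard k).filter (fun R => σ x ∉ R ∧ ∀ v ∈ R, v ≠ x → σ v ∈ R)`, with inverse
`R ↦ insert x (R.image σ⁻¹)` [for `S ∈ Z`: `R ⊆ S ⊆ U`, `R.card = k`; `σ x ∉ R` as
`x ∉ S.erase x`; if `v ∈ R`, `v ≠ x` then `v ∈ S.erase x` so `σ v ∈ R`. Conversely for `R ∈ Z'` put
`S = insert x (σ⁻¹ R)`: `x ∉ σ⁻¹ R` as `σ x ∉ R`, so `S.card = k + 1`; `S ⊆ U` because `σ⁻¹ U ⊆ U`
(finite: `σ` maps `U` into `U`, hence onto); for `v ∈ S`, `v ≠ x`: `σ v ∈ R`, and `R ⊆ S`: an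
element `u ∈ R` is `x` or satisfies `σ u ∈ R`, i.e. `u ∈ σ⁻¹ R`.] Step 3: `Z'.card = xN U {x} ∅ σ k +
iN U ∅ {x} σ k`: split according to `x ∈ R`: if `x ∈ R` the conditions say `esc σ R = 1` with
`σ x ∉ R` (this is the family of `xN U {x} ∅ σ k`); if `x ∉ R` they say `∀ v ∈ R, σ v ∈ R` and
`σ x ∉ R`, and the latter is automatic (`R.image σ ⊆ R` has the same cardinality so it is `R`;
if `σ x ∈ R = R.image σ` then `x ∈ R`): this is the family of `iN U ∅ {x} σ k`
(`Disjoint {x} R` iff `x ∉ R`). -/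
theorem xN_single {U : Finset V} {σ : Equiv.Perm V} (hσ : ∀ v ∈ U, σ v ∈ U) {x : V} (hx : x ∈ U)
    (k : ℕ) :
    xN U {x} ∅ σ (k + 1) + iN U {x} ∅ σ (k + 1) = xN U {x} ∅ σ k + iN U ∅ {x} σ k := by
  have hσ' : ∀ v ∈ U, σ⁻¹ v ∈ U := by
    have h1 : U.image σ ⊆ U := Finset.image_subset_iff.mpr hσ
    have h2 : U.image σ = U := by
      apply Finset.eq_of_subset_of_card_le h1
      rw [Finset.card_image_of_injective _ σ.injective]
    intro v hv
    rw [← h2, Finset.mem_image] at hv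
    obtain ⟨u, hu, rfl⟩ := hv
    rw [c2a_ia]
    exact hu
  -- step 1
  have step1 : ((U.powersetCard (k + 1)).filter
      fun S => x ∈ S ∧ ∀ v ∈ S, v ≠ x → σ v ∈ S).card =
      xN U {x} ∅ σ (k + 1) + iN U {x} ∅ σ (k + 1) := by
    rw [← Finset.card_filter_add_card_filter_not (fun S => σ x ∉ S)]
    unfold xN iN
    congr 1
    · congr 1
      ext S
      rw [c2a_memX, Finset.mem_filter, Finset.mem_filter, Finset.mem_powersetCard]
      tauto
    · congr 1
      ext S
      rw [c2a_memI, Finset.mem_filter, Finset.mem_filter, Finset.mem_powersetCard]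
      constructor
      · rintro ⟨⟨⟨h1, h2⟩, h3, h4⟩, h5⟩
        refine ⟨h1, h2, h3, fun v hv => ?_⟩
        by_cases hvx : v = x
        · rw [hvx]
          exact not_not.mp h5
        · exact h4 v hv hvx
      · rintro ⟨h1, h2, h3, h4⟩
        exact ⟨⟨⟨h1, h2⟩, h3, fun v hv _ => h4 v hv⟩, not_not.mpr (h4 x h3)⟩
  -- step 2
  have step2 : ((U.powersetCard (k + 1)).filter
      fun S => x ∈ S ∧ ∀ v ∈ S, v ≠ x → σ v ∈ S).card =
      ((U.powersetCard k).filter fun R => σ x ∉ R ∧ ∀ v ∈ R, v ≠ x → σ v ∈ R).card := by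
    refine Finset.card_nbij' (fun S => (S.erase x).image σ)
      (fun R => insert x (R.image (σ⁻¹ : Equiv.Perm V))) ?_ ?_ ?_ ?_
    · intro S hS
      rw [Finset.mem_coe, Finset.mem_filter, Finset.mem_powersetCard] at hS
      rw [Finset.mem_coe, Finset.mem_filter, Finset.mem_powersetCard]
      obtain ⟨⟨h1, h2⟩, h3, h4⟩ := hS
      have hRS : ∀ v ∈ (S.erase x).image σ, v ∈ S := by
        intro v hv
        rw [Finset.mem_image] at hv
        obtain ⟨u, hu, rfl⟩ := hv
        exact h4 u (Finset.mem_of_mem_erase hu) (Finset.ne_of_mem_erase hu)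
      refine ⟨⟨fun v hv => h1 (hRS v hv), ?_⟩, ?_, ?_⟩
      · rw [Finset.card_image_of_injective _ σ.injective, Finset.card_erase_of_mem h3, h2]
        rfl
      · intro h
        rw [Finset.mem_image] at h
        obtain ⟨u, hu, hux⟩ := h
        exact Finset.ne_of_mem_erase hu (σ.injective hux)
      · intro v hv hvx
        exact Finset.mem_image_of_mem _ (Finset.mem_erase.mpr ⟨hvx, hRS v hv⟩)
    · intro R hR
      rw [Finset.mem_coe, Finset.mem_filter, Finset.mem_powersetCard] at hR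
      rw [Finset.mem_coe, Finset.mem_filter, Finset.mem_powersetCard]
      obtain ⟨⟨h1, h2⟩, h3, h4⟩ := hR
      have hx' : x ∉ R.image (σ⁻¹ : Equiv.Perm V) := by
        intro h
        rw [Finset.mem_image] at h
        obtain ⟨u, hu, hux⟩ := h
        rw [Equiv.Perm.inv_eq_iff_eq] at hux
        rw [hux] at hu
        exact h3 hu
      have hRS : ∀ u ∈ R, u ∈ insert x (R.image (σ⁻¹ : Equiv.Perm V)) := by
        intro u hu
        by_cases hux : u = x
        · rw [hux]
          exact Finset.mem_insert_self _ _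
        · apply Finset.mem_insert_of_mem
          exact Finset.mem_image.mpr ⟨σ u, h4 u hu hux, c2a_ia σ u⟩
      refine ⟨⟨?_, ?_⟩, Finset.mem_insert_self _ _, ?_⟩
      · intro v hv
        rw [Finset.mem_insert] at hv
        rcases hv with rfl | hv
        · exact hx
        · rw [Finset.mem_image] at hv
          obtain ⟨u, hu, rfl⟩ := hv
          exact hσ' u (h1 hu)
      · rw [Finset.card_insert_of_notMem hx',
          Finset.card_image_of_injective _ (σ⁻¹).injective, h2]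
      · intro v hv hvx
        rw [Finset.mem_insert] at hv
        rcases hv with hv | hv
        · exact absurd hv hvx
        · rw [Finset.mem_image] at hv
          obtain ⟨u, hu, rfl⟩ := hv
          rw [c2a_ai]
          exact hRS u hu
    · intro S hS
      rw [Finset.mem_coe, Finset.mem_filter, Finset.mem_powersetCard] at hS
      obtain ⟨-, h3, -⟩ := hS
      have h5 : ((S.erase x).image σ).image (σ⁻¹ : Equiv.Perm V) = S.erase x := by
        ext u
        rw [Finset.mem_image]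
        constructor
        · rintro ⟨w, hw, rfl⟩
          rw [Finset.mem_image] at hw
          obtain ⟨z, hz, rfl⟩ := hw
          rw [c2a_ia]
          exact hz
        · intro hu
          exact ⟨σ u, Finset.mem_image_of_mem _ hu, c2a_ia σ u⟩
      change insert x (((S.erase x).image σ).image (σ⁻¹ : Equiv.Perm V)) = S
      rw [h5]
      exact Finset.insert_erase h3
    · intro R hR
      rw [Finset.mem_coe, Finset.mem_filter, Finset.mem_powersetCard] at hR
      obtain ⟨-, h3, -⟩ := hR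
      have hx' : x ∉ R.image (σ⁻¹ : Equiv.Perm V) := by
        intro h
        rw [Finset.mem_image] at h
        obtain ⟨u, hu, hux⟩ := h
        rw [Equiv.Perm.inv_eq_iff_eq] at hux
        rw [hux] at hu
        exact h3 hu
      change ((insert x (R.image (σ⁻¹ : Equiv.Perm V))).erase x).image σ = R
      rw [Finset.erase_insert hx']
      ext u
      rw [Finset.mem_image]
      constructor
      · rintro ⟨w, hw, rfl⟩
        rw [Finset.mem_image] at hw
        obtain ⟨z, hz, rfl⟩ := hw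
        rw [c2a_ai]
        exact hz
      · intro hu
        exact ⟨σ⁻¹ u, Finset.mem_image_of_mem _ hu, c2a_ai σ u⟩
  -- step 3
  have step3 : ((U.powersetCard k).filter
      fun R => σ x ∉ R ∧ ∀ v ∈ R, v ≠ x → σ v ∈ R).card =
      xN U {x} ∅ σ k + iN U ∅ {x} σ k := by
    rw [← Finset.card_filter_add_card_filter_not (fun R => x ∈ R)]
    unfold xN iN
    congr 1
    · congr 1
      ext S
      rw [c2a_memX, Finset.mem_filter, Finset.mem_filter, Finset.mem_powersetCard]
      tauto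
    · congr 1
      ext S
      rw [c2a_memJ, Finset.mem_filter, Finset.mem_filter, Finset.mem_powersetCard]
      constructor
      · rintro ⟨⟨⟨h1, h2⟩, h3, h4⟩, h5⟩
        refine ⟨h1, h2, h5, fun v hv => ?_⟩
        by_cases hvx : v = x
        · rw [hvx] at hv
          exact absurd hv h5
        · exact h4 v hv hvx
      · rintro ⟨h1, h2, h3, h4⟩
        refine ⟨⟨⟨h1, h2⟩, ?_, fun v hv _ => h4 v hv⟩, h3⟩
        intro h5
        have h6 : S.image σ = S := by
          apply Finset.eq_of_subset_of_card_le (Finset.image_subset_iff.mpr h4)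
          rw [Finset.card_image_of_injective _ σ.injective]
        rw [← h6, Finset.mem_image] at h5
        obtain ⟨u, hu, hux⟩ := h5
        rw [σ.injective hux] at hu
        exact h3 hu
  rw [← step1, step2, step3]

end Pool.Agent.Stirring.Mono
end

section

/-! One mark to avoid. -/

open Finset

set_option linter.unusedSectionVars false

namespace Pool.Agent.Stirring.Mono

variable {V : Type*} [Fintype V] [DecidableEq V]

private theorem c2b_ia (σ : Equiv.Perm V) (u : V) : σ⁻¹ (σ u) = u := by simp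

private theorem c2b_ai (σ : Equiv.Perm V) (u : V) : σ (σ⁻¹ u) = u := by simp

private theorem c2b_memY {U : Finset V} {σ : Equiv.Perm V} {x : V} {k : ℕ} {R : Finset V} :
    (R ∈ (fam U ∅ {x} k).filter fun S => esc σ S = 1 ∧ ∃ v ∈ S, σ v ∈ ({x} : Finset V)) ↔
      R ⊆ U ∧ R.card = k ∧ x ∉ R ∧ (∃ v ∈ R, σ v = x) ∧ ∀ v ∈ R, σ v = x ∨ σ v ∈ R := by
  rw [Finset.mem_filter, mem_fam, esc_eq_one]
  constructor
  · rintro ⟨⟨h1, h2, -, h4⟩, ⟨v, hv, hv1, hv2⟩, w, hw, hwx⟩
    rw [Finset.disjoint_singleton_left] at h4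
    rw [Finset.mem_singleton] at hwx
    have hwv : w = v := by
      by_contra hne
      have := hv2 w hw hne
      rw [hwx] at this
      exact h4 this
    subst hwv
    refine ⟨h1, h2, h4, ⟨w, hw, hwx⟩, fun u hu => ?_⟩
    by_cases huw : u = w
    · left
      rw [huw]
      exact hwx
    · right
      exact hv2 u hu huw
  · rintro ⟨h1, h2, h3, ⟨v, hv, hvx⟩, h4⟩
    refine ⟨⟨h1, h2, Finset.empty_subset _, Finset.disjoint_singleton_left.mpr h3⟩,
      ⟨v, hv, ?_, fun u hu huv => ?_⟩, v, hv, ?_⟩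
    · rw [hvx]
      exact h3
    · rcases h4 u hu with h5 | h5
      · exact absurd (σ.injective (h5.trans hvx.symm)) huv
      · exact h5
    · rw [hvx]
      exact Finset.mem_singleton_self x

private theorem c2b_memX {U : Finset V} {σ : Equiv.Perm V} {x : V} {k : ℕ} {R : Finset V} :
    (R ∈ (fam U {x} ∅ k).filter fun S => esc σ S = 1 ∧ ∃ v ∈ ({x} : Finset V), σ v ∉ S) ↔
      R ⊆ U ∧ R.card = k ∧ x ∈ R ∧ σ x ∉ R ∧ ∀ v ∈ R, v ≠ x → σ v ∈ R := by
  rw [Finset.mem_filter, mem_fam, esc_eq_one]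
  constructor
  · rintro ⟨⟨h1, h2, h3, -⟩, ⟨v, hv, hv1, hv2⟩, w, hw, hwx⟩
    rw [Finset.mem_singleton] at hw
    subst hw
    have hx : w ∈ R := h3 (Finset.mem_singleton_self w)
    have hwv : w = v := by
      by_contra hne
      exact hwx (hv2 w hx hne)
    subst hwv
    exact ⟨h1, h2, hx, hwx, hv2⟩
  · rintro ⟨h1, h2, h3, h4, h5⟩
    exact ⟨⟨h1, h2, Finset.singleton_subset_iff.mpr h3, Finset.disjoint_empty_left _⟩,
      ⟨x, h3, h4, h5⟩, x, Finset.mem_singleton_self x, h4⟩

/-- TASK C2b. PROOF. The map `R ↦ R.image σ` is a bijection from the family of `yN U ∅ {x} σ k`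
(`R ⊆ U`, `R.card = k`, `x ∉ R`, `esc σ R = 1`, `∃ v ∈ R, σ v = x`) onto the family of
`xN U {x} ∅ σ k` (`R' ⊆ U`, `R'.card = k`, `x ∈ R'`, `esc σ R' = 1`, `σ x ∉ R'`). Indeed the first
family is: `R ⊆ U`, card `k`, `x ∉ R`, `x ∈ R.image σ`, `∀ v ∈ R, σ v ∈ insert x R` (the escaping
point is the one mapped to `x`), the second one is: `R' ⊆ U`, card `k`, `x ∈ R'`, `σ x ∉ R'`,
`∀ v ∈ R', v ≠ x → σ v ∈ R'`. For `R' = R.image σ`: `R' ⊆ insert x R`; `σ x ∉ R'` iff `x ∉ R`; if
`v ∈ R'`, `v ≠ x` then `v ∈ R` so `σ v ∈ R'`. Conversely for `R'` put `R = R'.image σ⁻¹` (subset of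
`U` because `σ` maps `U` onto `U`): `x ∉ R` as `σ x ∉ R'`; `x ∈ R' = R.image σ`; for `v ∈ R`,
`σ v ∈ R'`, and `R' ⊆ insert x R` because `u ∈ R'`, `u ≠ x` gives `σ u ∈ R'`, i.e. `u ∈ R`. -/
theorem yN_single {U : Finset V} {σ : Equiv.Perm V} (hσ : ∀ v ∈ U, σ v ∈ U) {x : V} (hx : x ∈ U)
    (k : ℕ) : yN U ∅ {x} σ k = xN U {x} ∅ σ k := by
  have hσ' : ∀ v ∈ U, σ⁻¹ v ∈ U := by
    have h1 : U.image σ ⊆ U := Finset.image_subset_iff.mpr hσ
    have h2 : U.image σ = U := by
      apply Finset.eq_of_subset_of_card_le h1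
      rw [Finset.card_image_of_injective _ σ.injective]
    intro v hv
    rw [← h2, Finset.mem_image] at hv
    obtain ⟨u, hu, rfl⟩ := hv
    rw [c2b_ia]
    exact hu
  unfold yN xN
  refine Finset.card_nbij' (fun R => R.image σ) (fun R => R.image (σ⁻¹ : Equiv.Perm V)) ?_ ?_ ?_ ?_
  · intro R hR
    rw [Finset.mem_coe, c2b_memY] at hR
    rw [Finset.mem_coe, c2b_memX]
    obtain ⟨h1, h2, h3, ⟨v, hv, hvx⟩, h4⟩ := hR
    refine ⟨?_, ?_, ?_, ?_, ?_⟩
    · exact Finset.image_subset_iff.mpr fun u hu => hσ u (h1 hu)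
    · rw [Finset.card_image_of_injective _ σ.injective]
      exact h2
    · exact Finset.mem_image.mpr ⟨v, hv, hvx⟩
    · intro h
      rw [Finset.mem_image] at h
      obtain ⟨u, hu, hux⟩ := h
      rw [σ.injective hux] at hu
      exact h3 hu
    · intro u hu hux
      rw [Finset.mem_image] at hu
      obtain ⟨w, hw, rfl⟩ := hu
      rcases h4 w hw with h5 | h5
      · exact absurd h5 hux
      · exact Finset.mem_image_of_mem _ h5
  · intro R hR
    rw [Finset.mem_coe, c2b_memX] at hR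
    rw [Finset.mem_coe, c2b_memY]
    obtain ⟨h1, h2, h3, h4, h5⟩ := hR
    refine ⟨?_, ?_, ?_, ?_, ?_⟩
    · exact Finset.image_subset_iff.mpr fun u hu => hσ' u (h1 hu)
    · rw [Finset.card_image_of_injective _ (σ⁻¹).injective]
      exact h2
    · intro h
      rw [Finset.mem_image] at h
      obtain ⟨u, hu, hux⟩ := h
      rw [Equiv.Perm.inv_eq_iff_eq] at hux
      rw [hux] at hu
      exact h4 hu
    · refine ⟨σ⁻¹ x, Finset.mem_image_of_mem _ h3, ?_⟩
      exact c2b_ai σ x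
    · intro u hu
      rw [Finset.mem_image] at hu
      obtain ⟨w, hw, rfl⟩ := hu
      rw [c2b_ai]
      by_cases hwx : w = x
      · left
        exact hwx
      · right
        refine Finset.mem_image.mpr ⟨σ w, h5 w hw hwx, ?_⟩
        exact c2b_ia σ w
  · intro R _
    ext u
    simp
  · intro R _
    ext u
    simp

end Pool.Agent.Stirring.Mono
end

section

/-! One mark: all files. -/
end

section

/-! The number of sets with exactly one escaping point, with at most one mark. -/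

open Finset

set_option linter.unusedSectionVars false

namespace Pool.Agent.Stirring.Mono

variable {V : Type*} [Fintype V] [DecidableEq V]

/-- TASK C3a. PROOF. Pure recursion. Let `D k` be the right side; one checks
`D (k + 1) - D k = -(k + 1) * i (k + 1) + (n - k) * i k + ∑ j ∈ range (k + 1), (i' j - i j)`
(`Finset.sum_range_succ`; `∑ j ∈ range (k+1), (n - (k+1) - j) i j = ∑ j ∈ range (k + 1),
(n - k - j) i j - ∑ j ∈ range (k + 1), i j`, and the term `j = k` of the first sum is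
`(n - 2 k) i k`; the term `j = k` of `∑ (k + 1 - j) i' j` is `i' k`), which is the hypothesis `hstep`
for `T`; and `D 0 = 0 = T 0`. Induction on `k`. -/
theorem rec_solve {n : ℝ} {T i i' : ℕ → ℝ} (h0 : T 0 = 0)
    (hstep : ∀ k : ℕ, T (k + 1) - T k = -((k : ℝ) + 1) * i (k + 1) + (n - k) * i k +
      ∑ j ∈ Finset.range (k + 1), (i' j - i j)) (k : ℕ) :
    T k = -(k : ℝ) * i k + ∑ j ∈ Finset.range k, (n - k - j) * i j +
      ∑ j ∈ Finset.range k, ((k : ℝ) - j) * i' j := by
  induction k with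
  | zero => simp [h0]
  | succ k ih =>
    have h1 := hstep k
    have h2 : T (k + 1) = T k + (-((k : ℝ) + 1) * i (k + 1) + (n - k) * i k +
      ∑ j ∈ Finset.range (k + 1), (i' j - i j)) := by linarith
    rw [h2, ih]
    have h3 : ∑ j ∈ Finset.range (k + 1), (n - ((k + 1 : ℕ) : ℝ) - j) * i j =
        ∑ j ∈ Finset.range (k + 1), ((n - k - j) * i j - i j) := by
      refine Finset.sum_congr rfl fun j _ => ?_
      push_cast
      ring
    have h4 : ∑ j ∈ Finset.range (k + 1), (((k + 1 : ℕ) : ℝ) - j) * i' j =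
        ∑ j ∈ Finset.range (k + 1), (((k : ℝ) - j) * i' j + i' j) := by
      refine Finset.sum_congr rfl fun j _ => ?_
      push_cast
      ring
    rw [h3, h4, Finset.sum_sub_distrib, Finset.sum_add_distrib, Finset.sum_sub_distrib,
      Finset.sum_range_succ (fun j => (n - k - (j : ℝ)) * i j),
      Finset.sum_range_succ (fun j => ((k : ℝ) - (j : ℝ)) * i' j)]
    push_cast
    ring

/-- TASK C3b. PROOF. `xN U {x} ∅ σ 0 = 0` and `iN U {x} ∅ σ 0 = 0` (no set of cardinality `0`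
contains `x`). Induction on `k` from `xN_single` (cast to `ℝ`): `X (k+1) = X k + i' k - i (k+1)`. -/
theorem xN_formula {U : Finset V} {σ : Equiv.Perm V} (hσ : ∀ v ∈ U, σ v ∈ U) {x : V} (hx : x ∈ U)
    (k : ℕ) : (xN U {x} ∅ σ k : ℝ) = -(iN U {x} ∅ σ k : ℝ) +
      ∑ j ∈ Finset.range k, ((iN U ∅ {x} σ j : ℝ) - iN U {x} ∅ σ j) := by
  induction k with
  | zero =>
    have hf : fam U {x} ∅ 0 = ∅ := by
      rw [Finset.eq_empty_iff_forall_notMem]
      intro S hS
      rw [mem_fam] at hS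
      obtain ⟨-, h0, h1, -⟩ := hS
      rw [Finset.card_eq_zero] at h0
      rw [h0] at h1
      exact absurd (h1 (Finset.mem_singleton_self x)) (Finset.notMem_empty x)
    simp [xN, iN, hf]
  | succ k ih =>
    have h1 := xN_single hσ hx k
    have h2 : (xN U {x} ∅ σ (k + 1) : ℝ) + iN U {x} ∅ σ (k + 1) =
        xN U {x} ∅ σ k + iN U ∅ {x} σ k := by exact_mod_cast h1
    rw [Finset.sum_range_succ]
    linarith

/-- The empty set loses no point. -/
theorem tN_zero (U M M' : Finset V) (σ : Equiv.Perm V) : tN U M M' σ 0 = 0 := by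
  unfold tN
  rw [Finset.card_eq_zero, Finset.filter_eq_empty_iff]
  intro S hS
  rw [mem_fam, Finset.card_eq_zero] at hS
  obtain ⟨-, rfl, -⟩ := hS
  unfold esc
  simp

/-- TASK C3c. PROOF. No marks: `xN U ∅ ∅ σ k = 0` and `yN U ∅ ∅ σ k = 0` (`∃ v ∈ ∅` is false), and
`pairs` gives the hypothesis of `rec_solve` with `n = U.card`, `i = i' = iN U ∅ ∅ σ`:
`T (k+1) - T k = (n - k) i k - (k + 1) i (k + 1)`, and the last sum is `0`. -/
theorem formula_none {U : Finset V} {σ : Equiv.Perm V} (hσ : ∀ v ∈ U, σ v ∈ U) (k : ℕ) :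
    (tN U ∅ ∅ σ k : ℝ) = -(k : ℝ) * iN U ∅ ∅ σ k +
      ∑ j ∈ Finset.range k, ((U.card : ℝ) - k - j) * iN U ∅ ∅ σ j +
      ∑ j ∈ Finset.range k, ((k : ℝ) - j) * iN U ∅ ∅ σ j := by
  have hx0 : ∀ k, xN U ∅ ∅ σ k = 0 := by
    intro k
    simp [xN]
  have hy0 : ∀ k, yN U ∅ ∅ σ k = 0 := by
    intro k
    simp [yN]
  refine rec_solve (n := (U.card : ℝ)) (T := fun k => (tN U ∅ ∅ σ k : ℝ))
    (i := fun k => (iN U ∅ ∅ σ k : ℝ)) (i' := fun k => (iN U ∅ ∅ σ k : ℝ)) ?_ ?_ k
  · simp [tN_zero]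
  · intro k
    have h := pairs (M := ∅) hσ (Finset.empty_subset U) k
    rw [hx0, hy0] at h
    simp only [Finset.card_empty, Nat.cast_zero, sub_zero] at h
    simp only [sub_self, Finset.sum_const_zero]
    linarith

/-- TASK C3d. PROOF. `M = {x}`, `M' = ∅`: `yN U {x} ∅ σ k = 0`; `pairs` and `xN_formula` (at `k + 1`)
give `T (k+1) - T k = X (k+1) + (n - k) i k - k i (k + 1)
= -(k+1) i (k+1) + (n - k) i k + ∑ j ∈ range (k + 1), (i' j - i j)`; `rec_solve`, `tN_zero`. -/
theorem formula_left {U : Finset V} {σ : Equiv.Perm V} (hσ : ∀ v ∈ U, σ v ∈ U) {x : V}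
    (hx : x ∈ U) (k : ℕ) :
    (tN U {x} ∅ σ k : ℝ) = -(k : ℝ) * iN U {x} ∅ σ k +
      ∑ j ∈ Finset.range k, ((U.card : ℝ) - k - j) * iN U {x} ∅ σ j +
      ∑ j ∈ Finset.range k, ((k : ℝ) - j) * iN U ∅ {x} σ j := by
  have hy0 : ∀ k, yN U {x} ∅ σ k = 0 := by
    intro k
    simp [yN]
  refine rec_solve (n := (U.card : ℝ)) (T := fun k => (tN U {x} ∅ σ k : ℝ))
    (i := fun k => (iN U {x} ∅ σ k : ℝ)) (i' := fun k => (iN U ∅ {x} σ k : ℝ)) ?_ ?_ k
  · simp [tN_zero]
  · intro k
    have h := pairs (M := {x}) hσ (Finset.empty_subset U) k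
    have h1 := xN_formula hσ hx (k + 1)
    rw [hy0] at h
    simp only [Finset.card_empty, Finset.card_singleton, Nat.cast_zero, Nat.cast_one,
      sub_zero] at h
    linarith

/-- TASK C3e. PROOF. `M = ∅`, `M' = {x}`: `xN U ∅ {x} σ k = 0` (`∃ v ∈ ∅`), and by `yN_single` and
`xN_formula`, with `i = iN U ∅ {x} σ`, `i' = iN U {x} ∅ σ`:
`Y k = -i' k + ∑ j ∈ range k, (i j - i' j)`. `pairs`: `T (k+1) - T k = (n - k - 1) i k - (k + 1) i (k+1)
- Y k = -(k+1) i (k+1) + (n - k) i k - i k + i' k + ∑ j ∈ range k, (i' j - i j)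
= -(k+1) i (k+1) + (n - k) i k + ∑ j ∈ range (k+1), (i' j - i j)`; `rec_solve`, `tN_zero`. -/
theorem formula_right {U : Finset V} {σ : Equiv.Perm V} (hσ : ∀ v ∈ U, σ v ∈ U) {x : V}
    (hx : x ∈ U) (k : ℕ) :
    (tN U ∅ {x} σ k : ℝ) = -(k : ℝ) * iN U ∅ {x} σ k +
      ∑ j ∈ Finset.range k, ((U.card : ℝ) - k - j) * iN U ∅ {x} σ j +
      ∑ j ∈ Finset.range k, ((k : ℝ) - j) * iN U {x} ∅ σ j := by
  have hx0 : ∀ k, xN U ∅ {x} σ k = 0 := by
    intro k
    simp [xN]
  refine rec_solve (n := (U.card : ℝ)) (T := fun k => (tN U ∅ {x} σ k : ℝ))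
    (i := fun k => (iN U ∅ {x} σ k : ℝ)) (i' := fun k => (iN U {x} ∅ σ k : ℝ)) ?_ ?_ k
  · simp [tN_zero]
  · intro k
    have h := pairs (M := ∅) hσ (Finset.singleton_subset_iff.mpr hx) k
    have h1 := xN_formula hσ hx k
    rw [hx0, yN_single hσ hx] at h
    simp only [Finset.card_empty, Finset.card_singleton, Nat.cast_zero, Nat.cast_one,
      sub_zero] at h
    rw [Finset.sum_sub_distrib] at h1
    rw [Finset.sum_sub_distrib, Finset.sum_range_succ, Finset.sum_range_succ]
    linarith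

end Pool.Agent.Stirring.Mono
end

section

/-! The number of sets with exactly one escaping point, with two marks. -/

open Finset

set_option linter.unusedSectionVars false

namespace Pool.Agent.Stirring.Mono

variable {V : Type*} [Fintype V] [DecidableEq V]

/-- The product with the transposition preserves `U`. -/
private theorem c5_pres {U : Finset V} {σ : Equiv.Perm V} (hσ : ∀ v ∈ U, σ v ∈ U) {x y : V}
    (hx : x ∈ U) (hy : y ∈ U) : ∀ v ∈ U, (σ * Equiv.swap x y) v ∈ U := by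
  intro v hv
  rw [Equiv.Perm.mul_apply]
  refine hσ _ ?_
  rw [Equiv.swap_apply_def]
  split_ifs with h1 h2
  · exact hy
  · exact hx
  · exact hv

/-- TASK C5a. PROOF. Let `τ = σ * swap x y`; `τ * swap x y = σ`, and `τ` also maps `U` into `U`
(`x, y ∈ U`). Write `w k = wN σ k - wN τ k`, `i k = iN U {x} {y} σ k - iN U {x} {y} τ k`,
`i' k = iN U {y} {x} σ k - iN U {y} {x} τ k` (in `ℝ`). `wN_succ` for `σ` and for `τ` and `bN_swap`
give `w (k+1) = i (k+1) + w k - i' (k+1)`. At `k = 0` all of `wN`, `iN U {x} {y}`, `iN U {y} {x}` are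
`0` (no set of cardinality `0` contains a mark), so by induction
`w k = ∑ j ∈ range (k + 1), (i j - i' j)`. Then `wN_eq` for `σ` and `τ`:
`yN σ k - yN τ k = w k - i k = ∑ j ∈ range k, (i j - i' j) - i' k`. -/
theorem yN_delta {U : Finset V} {σ : Equiv.Perm V} (hσ : ∀ v ∈ U, σ v ∈ U) {x y : V}
    (hx : x ∈ U) (hy : y ∈ U) (hxy : x ≠ y) (k : ℕ) :
    (yN U {x} {y} σ k : ℝ) - yN U {x} {y} (σ * Equiv.swap x y) k =
      ∑ j ∈ Finset.range k, (((iN U {x} {y} σ j : ℝ) - iN U {x} {y} (σ * Equiv.swap x y) j) -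
        ((iN U {y} {x} σ j : ℝ) - iN U {y} {x} (σ * Equiv.swap x y) j)) -
      ((iN U {y} {x} σ k : ℝ) - iN U {y} {x} (σ * Equiv.swap x y) k) := by
  have hτ := c5_pres hσ hx hy
  have hττ : σ * Equiv.swap x y * Equiv.swap x y = σ := by
    rw [mul_assoc, Equiv.swap_mul_self, mul_one]
  have hw : ∀ k : ℕ, (wN U x y σ k : ℝ) - wN U x y (σ * Equiv.swap x y) k =
      ∑ j ∈ Finset.range (k + 1),
        (((iN U {x} {y} σ j : ℝ) - iN U {x} {y} (σ * Equiv.swap x y) j) -
        ((iN U {y} {x} σ j : ℝ) - iN U {y} {x} (σ * Equiv.swap x y) j)) := by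
    intro k
    induction k with
    | zero =>
      have hf : ∀ a b : V, fam U {a} {b} 0 = ∅ := by
        intro a b
        rw [Finset.eq_empty_iff_forall_notMem]
        intro S hS
        rw [mem_fam] at hS
        obtain ⟨-, h0, h1, -⟩ := hS
        rw [Finset.card_eq_zero] at h0
        rw [h0] at h1
        exact absurd (h1 (Finset.mem_singleton_self a)) (Finset.notMem_empty a)
      simp [wN, iN, hf]
    | succ k ih =>
      rw [Finset.sum_range_succ, ← ih]
      have h1 := wN_succ hσ hx hy hxy k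
      have h2 := wN_succ hτ hx hy hxy k
      rw [hττ, bN_swap] at h2
      have h1' : (wN U x y σ (k + 1) : ℝ) + bN U x y σ (k + 1) =
        iN U {x} {y} σ (k + 1) + wN U x y σ k + iN U {y} {x} (σ * Equiv.swap x y) (k + 1) := by
        exact_mod_cast h1
      have h2' : (wN U x y (σ * Equiv.swap x y) (k + 1) : ℝ) + bN U x y σ (k + 1) =
        iN U {x} {y} (σ * Equiv.swap x y) (k + 1) + wN U x y (σ * Equiv.swap x y) k +
          iN U {y} {x} σ (k + 1) := by
        exact_mod_cast h2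
      linarith
  have h := hw k
  rw [Finset.sum_range_succ, wN_eq, wN_eq, Nat.cast_add, Nat.cast_add] at h
  linarith

/-- TASK C5b. PROOF. `rec_solve` with `n = U.card`, `T k = tN U {x} {y} σ k - tN U {x} {y} τ k`,
`i`, `i'` the differences as in `yN_delta`. The step: `pairs` for `σ` and for `τ` (`τ` preserves
`U`), with `M.card = M'.card = 1`:
`k * i (k+1) + T (k+1) - δX (k+1) = (n - k - 1) * i k + T k - δY k`, where by `xN_delta`
`δX (k+1) = xN σ (k+1) - xN τ (k+1) = -i (k+1)` and by `yN_delta`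
`δY k = ∑ j ∈ range k, (i j - i' j) - i' k`. So
`T (k+1) - T k = -(k+1) i (k+1) + (n - k) i k - i k + i' k + ∑ j ∈ range k, (i' j - i j)
= -(k+1) i (k+1) + (n - k) i k + ∑ j ∈ range (k+1), (i' j - i j)`. `T 0 = 0` by `tN_zero`. -/
theorem formula_two {U : Finset V} {σ : Equiv.Perm V} (hσ : ∀ v ∈ U, σ v ∈ U) {x y : V}
    (hx : x ∈ U) (hy : y ∈ U) (hxy : x ≠ y) (k : ℕ) :
    (tN U {x} {y} σ k : ℝ) - tN U {x} {y} (σ * Equiv.swap x y) k =
      -(k : ℝ) * ((iN U {x} {y} σ k : ℝ) - iN U {x} {y} (σ * Equiv.swap x y) k) +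
      ∑ j ∈ Finset.range k, ((U.card : ℝ) - k - j) *
        ((iN U {x} {y} σ j : ℝ) - iN U {x} {y} (σ * Equiv.swap x y) j) +
      ∑ j ∈ Finset.range k, ((k : ℝ) - j) *
        ((iN U {y} {x} σ j : ℝ) - iN U {y} {x} (σ * Equiv.swap x y) j) := by
  have hτ := c5_pres hσ hx hy
  have hMy : ({y} : Finset V) ⊆ U := Finset.singleton_subset_iff.mpr hy
  have hP1 := fun k => pairs (M := {x}) hσ hMy k
  have hP2 := fun k => pairs (M := {x}) hτ hMy k
  refine rec_solve (n := (U.card : ℝ))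
    (T := fun k => (tN U {x} {y} σ k : ℝ) - tN U {x} {y} (σ * Equiv.swap x y) k)
    (i := fun k => (iN U {x} {y} σ k : ℝ) - iN U {x} {y} (σ * Equiv.swap x y) k)
    (i' := fun k => (iN U {y} {x} σ k : ℝ) - iN U {y} {x} (σ * Equiv.swap x y) k) ?_ ?_ k
  · simp [tN_zero]
  · intro k
    have h1 := hP1 k
    have h2 := hP2 k
    rw [Finset.card_singleton, Finset.card_singleton, Nat.cast_one] at h1 h2
    have hX : (xN U {x} {y} σ (k + 1) : ℝ) + iN U {x} {y} σ (k + 1) =
        xN U {x} {y} (σ * Equiv.swap x y) (k + 1) +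
          iN U {x} {y} (σ * Equiv.swap x y) (k + 1) := by
      exact_mod_cast xN_delta (U := U) (σ := σ) hxy (k + 1)
    have hY := yN_delta hσ hx hy hxy k
    rw [Finset.sum_sub_distrib] at hY
    rw [Finset.sum_sub_distrib, Finset.sum_range_succ, Finset.sum_range_succ]
    linarith

end Pool.Agent.Stirring.Mono
end
end
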