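import Pool.Agent.Lib.MP_6c3d62_pr.Mg.G076

section

section

/-! C4a: the limit of the grouping counts. -/

open Finset Filter Topology

namespace Pool.Agent.Stirring.HP


/-- The choice of the parameters: `Φ₀ = r ^ 2`, `q = r ^ 31`, `M = r ^ 32`, `j₀ = ⌊M b₀² / 2⌋₊`, `r` large:
`(r² + 200)² bet j₀ → 0` since `bet j₀ ≤ (j₀ + 1) ^ (-1/4)` (`bet_upper`) `≤ C r ^ (-8)`;
`(k + 2 M / Φ₀) / q → 0`; `M² (1 - 1 / q) ^ (2 j₀ - 2) ≤ M² exp (-(2 j₀ - 2) / q) → 0`. -/
theorem params (k : ℕ) {A b₀ C δ : ℝ} (hA : 0 < A) (hb₀ : 0 < b₀) (hb₁ : b₀ ≤ 1) (hC : 0 < C)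
    (hδ : 0 < δ) : ∃ (M j₀ : ℕ) (q Φ₀ : ℝ), 1 ≤ M ∧ 1 ≤ j₀ ∧ 1 ≤ q ∧ 0 < Φ₀ ∧
      (j₀ : ℝ) ≤ M * b₀ ^ 2 / 2 ∧
      4 / (M * b₀ ^ 2) + (A * (Φ₀ + 200) ^ 2 * bet j₀ + (k : ℝ) ^ 2 / j₀ +
        (k + 2 * M / Φ₀) * ((k + 2 * M) * (1 - 1 / q) ^ (2 * j₀ - 2))) ≤ δ ∧
      (k + 2 * M / Φ₀) / b₀ * (C / q) ≤ δ := by
  have hb2 : 0 < b₀ ^ 2 := by positivity
  have hb2' : b₀ ^ 2 ≤ 1 := by nlinarith
  have hE : ∀ c ε : ℝ, 0 < ε → ∀ᶠ r : ℕ in atTop, c / (r : ℝ) ≤ ε := fun c ε hε =>
    (tendsto_const_div_atTop_nhds_zero_nat c).eventually_le_const hε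
  have hexp : ∀ᶠ r : ℕ in atTop, ((k : ℝ) + 2) ^ 2 * Real.exp 4 / (b₀ ^ 2) ^ 62 *
      ((b₀ ^ 2 * (r : ℝ)) ^ 62 * Real.exp (-(b₀ ^ 2 * (r : ℝ)))) ≤ δ / 4 := by
    have h1 : Tendsto (fun r : ℕ => b₀ ^ 2 * (r : ℝ)) atTop atTop :=
      (tendsto_natCast_atTop_atTop).const_mul_atTop hb2
    have h2 := (Real.tendsto_pow_mul_exp_neg_atTop_nhds_zero 62).comp h1
    have h3 := h2.const_mul (((k : ℝ) + 2) ^ 2 * Real.exp 4 / (b₀ ^ 2) ^ 62)
    rw [mul_zero] at h3
    exact h3.eventually_le_const (by positivity)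
  obtain ⟨r, hr15, hrb, h1, h2, h3, h4, h5⟩ := ((eventually_ge_atTop 15).and
    ((hE (4 / b₀ ^ 2) 1 one_pos).and ((hE (4 / b₀ ^ 2) (δ / 4) (by positivity)).and
    ((hE (4 * A * (2 / b₀ ^ 2)) (δ / 4) (by positivity)).and
    ((hE (4 * (k : ℝ) ^ 2 / b₀ ^ 2) (δ / 4) (by positivity)).and
    (hexp.and (hE (((k : ℝ) + 2) * C / b₀) δ hδ))))))).exists
  have hr15' : (15 : ℝ) ≤ r := by exact_mod_cast hr15
  have hr0 : (0 : ℝ) < r := by linarith
  have hr1 : (1 : ℝ) ≤ r := by linarith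
  have hpow1 : ∀ m : ℕ, 1 ≤ m → (r : ℝ) ≤ (r : ℝ) ^ m := fun m hm => le_self_pow₀ hr1 (by omega)
  have hpow0 : ∀ m : ℕ, (1 : ℝ) ≤ (r : ℝ) ^ m := fun m => one_le_pow₀ hr1
  have hbig : 1 ≤ (r : ℝ) ^ 32 * b₀ ^ 2 / 4 := by
    rw [div_le_iff₀ hr0, div_le_iff₀ hb2] at hrb
    have := hpow1 32 (by norm_num)
    nlinarith
  set j : ℕ := ⌊(r : ℝ) ^ 32 * b₀ ^ 2 / 2⌋₊ with hj
  have hjle : (j : ℝ) ≤ (r : ℝ) ^ 32 * b₀ ^ 2 / 2 := Nat.floor_le (by positivity)
  have hjlt : (r : ℝ) ^ 32 * b₀ ^ 2 / 2 < (j : ℝ) + 1 := Nat.lt_floor_add_one _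
  have hjge : (r : ℝ) ^ 32 * b₀ ^ 2 / 4 ≤ (j : ℝ) := by linarith
  have hj1 : 1 ≤ j := by
    have : (1 : ℝ) ≤ (j : ℝ) := by linarith
    exact_mod_cast this
  have hj0 : (0 : ℝ) < j := by exact_mod_cast hj1
  have hbp := bet_pos j
  -- bound of bet
  have hbet : bet j ≤ (2 / b₀ ^ 2) / (r : ℝ) ^ 8 := by
    have hu := bet_upper j
    have hc1 : (1 : ℝ) ≤ 2 / b₀ ^ 2 := by
      rw [le_div_iff₀ hb2]
      linarith
    have hc : 2 / b₀ ^ 2 ≤ (2 / b₀ ^ 2) ^ 4 := le_self_pow₀ hc1 (by norm_num)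
    have e1 : 1 / ((j : ℝ) + 1) ≤ (2 / b₀ ^ 2) / (r : ℝ) ^ 32 := by
      have e2 : (2 / b₀ ^ 2) / (r : ℝ) ^ 32 = 1 / ((r : ℝ) ^ 32 * b₀ ^ 2 / 2) := by
        field_simp
      rw [e2]
      exact one_div_le_one_div_of_le (by positivity) hjlt.le
    have e3 : bet j ^ 4 ≤ ((2 / b₀ ^ 2) / (r : ℝ) ^ 8) ^ 4 := by
      refine (hu.trans e1).trans ?_
      rw [div_pow, ← pow_mul]
      exact div_le_div_of_nonneg_right hc (by positivity)
    exact le_of_pow_le_pow_left₀ (by norm_num) (by positivity) e3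
  have t1 : 4 / ((r : ℝ) ^ 32 * b₀ ^ 2) ≤ δ / 4 := by
    refine le_trans ?_ h1
    rw [div_div]
    refine div_le_div_of_nonneg_left (by norm_num) (by positivity) ?_
    have := hpow1 32 (by norm_num)
    nlinarith
  have t2 : A * ((r : ℝ) ^ 2 + 200) ^ 2 * bet j ≤ δ / 4 := by
    refine le_trans ?_ h2
    have e1 : ((r : ℝ) ^ 2 + 200) ^ 2 ≤ 4 * (r : ℝ) ^ 4 := by
      have : (r : ℝ) ^ 2 + 200 ≤ 2 * (r : ℝ) ^ 2 := by nlinarith
      calc ((r : ℝ) ^ 2 + 200) ^ 2 ≤ (2 * (r : ℝ) ^ 2) ^ 2 :=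
            pow_le_pow_left₀ (by positivity) this 2
        _ = 4 * (r : ℝ) ^ 4 := by ring
    calc A * ((r : ℝ) ^ 2 + 200) ^ 2 * bet j ≤ A * (4 * (r : ℝ) ^ 4) * ((2 / b₀ ^ 2) / (r : ℝ) ^ 8) := by
          apply mul_le_mul _ hbet hbp.le (by positivity)
          exact mul_le_mul_of_nonneg_left e1 hA.le
      _ = 4 * A * (2 / b₀ ^ 2) / (r : ℝ) ^ 4 := by
          field_simp
      _ ≤ 4 * A * (2 / b₀ ^ 2) / (r : ℝ) :=
          div_le_div_of_nonneg_left (by positivity) hr0 (hpow1 4 (by norm_num))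
  have t3 : (k : ℝ) ^ 2 / (j : ℝ) ≤ δ / 4 := by
    refine le_trans ?_ h3
    rw [div_div, div_le_div_iff₀ hj0 (by positivity)]
    have := hpow1 32 (by norm_num)
    have e1 : b₀ ^ 2 * (r : ℝ) ≤ 4 * (j : ℝ) := by nlinarith
    have e2 : (0 : ℝ) ≤ (k : ℝ) ^ 2 := by positivity
    nlinarith
  have hq1 : (1 : ℝ) ≤ (r : ℝ) ^ 31 := hpow0 31
  have hq0 : (0 : ℝ) < (r : ℝ) ^ 31 := by positivity
  have hMΦ : 2 * (r : ℝ) ^ 32 / (r : ℝ) ^ 2 = 2 * (r : ℝ) ^ 30 := by
    field_simp
  have t4 : ((k : ℝ) + 2 * (r : ℝ) ^ 32 / (r : ℝ) ^ 2) * (((k : ℝ) + 2 * (r : ℝ) ^ 32) *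
      (1 - 1 / (r : ℝ) ^ 31) ^ (2 * j - 2)) ≤ δ / 4 := by
    refine le_trans ?_ h4
    rw [hMΦ]
    have hk0 : (0 : ℝ) ≤ k := Nat.cast_nonneg k
    have e1 : (k : ℝ) + 2 * (r : ℝ) ^ 30 ≤ ((k : ℝ) + 2) * (r : ℝ) ^ 30 := by
      have := hpow0 30
      nlinarith
    have e2 : (k : ℝ) + 2 * (r : ℝ) ^ 32 ≤ ((k : ℝ) + 2) * (r : ℝ) ^ 32 := by
      have := hpow0 32
      nlinarith
    have hx0 : 0 ≤ 1 - 1 / (r : ℝ) ^ 31 := by
      rw [sub_nonneg, div_le_one hq0]
      exact hq1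
    have e3 : (1 - 1 / (r : ℝ) ^ 31) ^ (2 * j - 2) ≤ Real.exp 4 * Real.exp (-(b₀ ^ 2 * (r : ℝ))) := by
      have f1 : 1 - 1 / (r : ℝ) ^ 31 ≤ Real.exp (-(1 / (r : ℝ) ^ 31)) := by
        have := Real.add_one_le_exp (-(1 / (r : ℝ) ^ 31))
        linarith
      refine (pow_le_pow_left₀ hx0 f1 _).trans ?_
      rw [← Real.exp_nat_mul, ← Real.exp_add]
      apply Real.exp_le_exp.2
      have hcast : ((2 * j - 2 : ℕ) : ℝ) = 2 * (j : ℝ) - 2 := by
        rw [Nat.cast_sub (by omega)]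
        push_cast
        ring
      rw [hcast]
      have f2 : (r : ℝ) ^ 32 * b₀ ^ 2 - 4 ≤ 2 * (j : ℝ) - 2 := by linarith
      have f3 : b₀ ^ 2 * (r : ℝ) - 4 ≤ ((r : ℝ) ^ 32 * b₀ ^ 2 - 4) / (r : ℝ) ^ 31 := by
        rw [sub_div]
        have g1 : (r : ℝ) ^ 32 * b₀ ^ 2 / (r : ℝ) ^ 31 = b₀ ^ 2 * (r : ℝ) := by
          field_simp
        have g2 : 4 / (r : ℝ) ^ 31 ≤ 4 := by
          rw [div_le_iff₀ hq0]
          linarith
        rw [g1]
        linarith
      have f4 : ((r : ℝ) ^ 32 * b₀ ^ 2 - 4) / (r : ℝ) ^ 31 ≤ (2 * (j : ℝ) - 2) / (r : ℝ) ^ 31 :=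
        div_le_div_of_nonneg_right f2 hq0.le
      have f5 : (2 * (j : ℝ) - 2) * -(1 / (r : ℝ) ^ 31) = -((2 * (j : ℝ) - 2) / (r : ℝ) ^ 31) := by
        ring
      rw [f5]
      linarith
    calc ((k : ℝ) + 2 * (r : ℝ) ^ 30) * (((k : ℝ) + 2 * (r : ℝ) ^ 32) *
          (1 - 1 / (r : ℝ) ^ 31) ^ (2 * j - 2))
        ≤ (((k : ℝ) + 2) * (r : ℝ) ^ 30) * ((((k : ℝ) + 2) * (r : ℝ) ^ 32) *
          (Real.exp 4 * Real.exp (-(b₀ ^ 2 * (r : ℝ))))) := by
          apply mul_le_mul e1 _ (by positivity) (by positivity)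
          exact mul_le_mul e2 e3 (by positivity) (by positivity)
      _ = ((k : ℝ) + 2) ^ 2 * Real.exp 4 / (b₀ ^ 2) ^ 62 *
          ((b₀ ^ 2 * (r : ℝ)) ^ 62 * Real.exp (-(b₀ ^ 2 * (r : ℝ)))) := by
          rw [mul_pow (b₀ ^ 2) (r : ℝ) 62]
          field_simp
  have t5 : ((k : ℝ) + 2 * (r : ℝ) ^ 32 / (r : ℝ) ^ 2) / b₀ * (C / (r : ℝ) ^ 31) ≤ δ := by
    refine le_trans ?_ h5
    rw [hMΦ]
    have hk0 : (0 : ℝ) ≤ k := Nat.cast_nonneg k
    have e1 : (k : ℝ) + 2 * (r : ℝ) ^ 30 ≤ ((k : ℝ) + 2) * (r : ℝ) ^ 30 := by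
      have := hpow0 30
      nlinarith
    calc ((k : ℝ) + 2 * (r : ℝ) ^ 30) / b₀ * (C / (r : ℝ) ^ 31)
        ≤ (((k : ℝ) + 2) * (r : ℝ) ^ 30) / b₀ * (C / (r : ℝ) ^ 31) := by
          apply mul_le_mul_of_nonneg_right _ (by positivity)
          exact div_le_div_of_nonneg_right e1 hb₀.le
      _ = ((k : ℝ) + 2) * C / b₀ / (r : ℝ) := by
          field_simp
  refine ⟨r ^ 32, j, (r : ℝ) ^ 31, (r : ℝ) ^ 2, ?_, hj1, hq1, by positivity, ?_, ?_, ?_⟩
  · exact Nat.one_le_pow _ _ (by omega)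
  · push_cast
    exact hjle
  · push_cast
    linarith
  · push_cast
    exact t5

end Pool.Agent.Stirring.HP
end

section

/-! Small times: the clusters of the pairs which have rung are finite. -/

open Finset Filter

set_option linter.unusedSectionVars false

namespace Pool.Agent.Stirring.Hier

section General

variable {V : Type*} [Fintype V] [DecidableEq V]

/-- `a` and `b` are joined by a letter of the word. -/
def Jn {n : ℕ} (w : Fin n → V × V) (a b : V) : Prop := ∃ i, w i = (a, b) ∨ w i = (b, a)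

/-- `a` and `b` are connected by the letters of the word. -/
def Cn {n : ℕ} (w : Fin n → V × V) : V → V → Prop := Relation.ReflTransGen (Jn w)

theorem Jn_symm {n : ℕ} {w : Fin n → V × V} {a b : V} (h : Jn w a b) : Jn w b a := by
  obtain ⟨i, hi⟩ := h
  exact ⟨i, hi.symm⟩

theorem Jn_swap {n : ℕ} (w : Fin n → V × V) (i : Fin n) (y : V) :
    Cn w y (Equiv.swap (w i).1 (w i).2 y) := by
  by_cases h1 : y = (w i).1
  · rw [h1, Equiv.swap_apply_left]
    exact Relation.ReflTransGen.single ⟨i, Or.inl rfl⟩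
  · by_cases h2 : y = (w i).2
    · rw [h2, Equiv.swap_apply_right]
      exact Relation.ReflTransGen.single ⟨i, Or.inr rfl⟩
    · rw [Equiv.swap_apply_of_ne_of_ne h1 h2]
      exact Relation.ReflTransGen.refl

theorem Cn_prod {n : ℕ} (w : Fin n → V × V) (y : V) :
    Cn w y (((List.ofFn w).map fun p => Equiv.swap p.1 p.2).prod y) := by
  have h : ∀ l : List (V × V), (∀ p ∈ l, ∃ i, w i = p) → ∀ y,
      Cn w y ((l.map fun p => Equiv.swap p.1 p.2).prod y) := by
    intro l
    induction l with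
    | nil => intro _ y; exact Relation.ReflTransGen.refl
    | cons p l ih =>
      intro hl y
      rw [List.map_cons, List.prod_cons]
      have h1 := ih (fun q hq => hl q (List.mem_cons_of_mem _ hq)) y
      obtain ⟨i, hi⟩ := hl p List.mem_cons_self
      have h2 := Jn_swap w i ((l.map fun p => Equiv.swap p.1 p.2).prod y)
      rw [hi] at h2
      exact h1.trans h2
  refine h _ (fun p hp => ?_) y
  obtain ⟨i, hi⟩ := (List.mem_ofFn' w p).mp hp
  exact ⟨i, hi⟩

/-- The cluster of `x`. -/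
noncomputable def clu {n : ℕ} (w : Fin n → V × V) (x : V) : Finset V := by
  classical exact Finset.univ.filter fun y => Cn w x y

theorem mem_clu {n : ℕ} {w : Fin n → V × V} {x y : V} : y ∈ clu w x ↔ Cn w x y := by
  unfold clu
  simp

theorem cl_le_clu {n : ℕ} (w : Fin n → V × V) (x : V) :
    cl ((List.ofFn w).map fun p => Equiv.swap p.1 p.2).prod x ≤ (clu w x).card := by
  set σ := ((List.ofFn w).map fun p => Equiv.swap p.1 p.2).prod with hσ
  have hsub : orb σ x ⊆ clu w x := by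
    intro y hy
    obtain ⟨i, rfl⟩ := mem_orb.mp hy
    rw [mem_clu]
    induction i with
    | zero => exact Relation.ReflTransGen.refl
    | succ i ih =>
      rw [Function.iterate_succ_apply']
      exact (ih (mem_orb.mpr ⟨i, rfl⟩)).trans (Cn_prod w _)
  rw [← card_orb]
  exact Finset.card_le_card hsub

/-- Paths from `x` can be chosen not to return to `x`. -/
theorem rtg_avoid {r : V → V → Prop} {x y : V} (h : Relation.ReflTransGen r x y) :
    y = x ∨ ∃ b, r x b ∧ b ≠ x ∧ y ≠ x ∧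
      Relation.ReflTransGen (fun a b => r a b ∧ a ≠ x ∧ b ≠ x) b y := by
  induction h with
  | refl => exact Or.inl rfl
  | tail h1 h2 ih =>
    rename_i y' y
    by_cases hy : y = x
    · exact Or.inl hy
    right
    rcases ih with rfl | ⟨b, hb1, hb2, hb3, hb4⟩
    · exact ⟨y, h2, hy, hy, Relation.ReflTransGen.refl⟩
    · exact ⟨b, hb1, hb2, hy, hb4.tail ⟨h2, hb3, hy⟩⟩

/-- Removing a letter at `x`. -/
theorem clu_step {n : ℕ} (w : Fin (n + 1) → V × V) (x : V) :
    ((clu w x).card : ℝ) ≤ 1 + ∑ i : Fin (n + 1),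
      ((if (w i).1 = x then ((clu (w ∘ i.succAbove) (w i).2).card : ℝ) else 0) +
       (if (w i).2 = x then ((clu (w ∘ i.succAbove) (w i).1).card : ℝ) else 0)) := by
  classical
  set A : Fin (n + 1) → Finset V := fun i =>
    (if (w i).1 = x then clu (w ∘ i.succAbove) (w i).2 else ∅) with hA
  set B : Fin (n + 1) → Finset V := fun i =>
    (if (w i).2 = x then clu (w ∘ i.succAbove) (w i).1 else ∅) with hB
  have hsub : clu w x ⊆ {x} ∪ Finset.univ.biUnion fun i => A i ∪ B i := by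
    intro y hy
    rw [mem_clu] at hy
    rcases rtg_avoid hy with rfl | ⟨b, hb1, hb2, hb3, hb4⟩
    · exact Finset.mem_union_left _ (Finset.mem_singleton_self _)
    · refine Finset.mem_union_right _ ?_
      obtain ⟨i, hi⟩ := hb1
      have hconn : Cn (w ∘ i.succAbove) b y := by
        refine Relation.ReflTransGen.mono ?_ _ _ hb4
        rintro a a' ⟨⟨j, hj⟩, ha, ha'⟩
        have hji : j ≠ i := by
          rintro rfl
          rcases hi with hi | hi <;> rcases hj with hj | hj <;> rw [hi] at hj <;>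
            simp only [Prod.mk.injEq] at hj
          · exact ha hj.1.symm
          · exact ha' hj.1.symm
          · exact ha' hj.2.symm
          · exact ha hj.2.symm
        obtain ⟨j', rfl⟩ := Fin.exists_succAbove_eq hji
        exact ⟨j', hj⟩
      refine Finset.mem_biUnion.mpr ⟨i, Finset.mem_univ _, ?_⟩
      rcases hi with hi | hi
      · refine Finset.mem_union_left _ ?_
        simp only [hA]
        rw [if_pos (by rw [hi]), hi]
        exact mem_clu.mpr hconn
      · refine Finset.mem_union_right _ ?_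
        simp only [hB]
        rw [if_pos (by rw [hi]), hi]
        exact mem_clu.mpr hconn
  have h1 : (clu w x).card ≤ 1 + ∑ i, ((A i).card + (B i).card) := by
    refine (Finset.card_le_card hsub).trans ((Finset.card_union_le _ _).trans ?_)
    rw [Finset.card_singleton]
    refine Nat.add_le_add_left (Finset.card_biUnion_le.trans ?_) 1
    exact Finset.sum_le_sum fun i _ => Finset.card_union_le _ _
  have h2 : ((clu w x).card : ℝ) ≤ 1 + ∑ i, (((A i).card : ℝ) + ((B i).card : ℝ)) := by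
    exact_mod_cast h1
  refine h2.trans (le_of_eq ?_)
  congr 1
  refine Finset.sum_congr rfl fun i _ => ?_
  simp only [hA, hB]
  split_ifs <;> simp

/-- The sum over all words of length `n`. -/
noncomputable def csum (c : V × V → ℝ) (n : ℕ) (x : V) : ℝ :=
  ∑ w : Fin n → V × V, (∏ i, c (w i)) * ((clu w x).card : ℝ)

theorem sum_insert (c : V × V → ℝ) {n : ℕ} (i : Fin (n + 1))
    (F : V × V → (Fin n → V × V) → ℝ) :
    ∑ w : Fin (n + 1) → V × V, (∏ j, c (w j)) * F (w i) (w ∘ i.succAbove) =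
      ∑ a, c a * ∑ w : Fin n → V × V, (∏ j, c (w j)) * F a w := by
  have e := Equiv.sum_comp (M := ℝ) (Fin.insertNthEquiv (fun _ : Fin (n + 1) => V × V) i)
    (fun w : Fin (n + 1) → V × V => (∏ j, c (w j)) * F (w i) (w ∘ i.succAbove))
  rw [← e, Fintype.sum_prod_type]
  refine Finset.sum_congr rfl fun a _ => ?_
  rw [Finset.mul_sum]
  refine Finset.sum_congr rfl fun (w : Fin n → V × V) _ => ?_
  have h1 : (Fin.insertNthEquiv (fun _ : Fin (n + 1) => V × V) i) (a, w) =
      i.insertNth (α := fun _ => V × V) a w := rfl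
  have h2 : (i.insertNth (α := fun _ => V × V) a w) ∘ i.succAbove = w := by
    funext j
    simp
  rw [h1, h2, Fin.prod_univ_succAbove _ i]
  simp only [Fin.insertNth_apply_same, Fin.insertNth_apply_succAbove]
  ring

theorem sum_prod_words (c : V × V → ℝ) (n : ℕ) :
    ∑ w : Fin n → V × V, ∏ i, c (w i) = tot c ^ n := by
  unfold tot
  rw [← Fin.prod_const, Finset.prod_univ_sum]
  rfl

theorem csum_succ {c : V × V → ℝ} (hc : ∀ p, 0 ≤ c p) {D A : ℝ}
    (hD : ∀ x, ∑ b, (c (x, b) + c (b, x)) ≤ D) {n : ℕ} (hA0 : 0 ≤ A)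
    (hA : ∀ x, csum c n x ≤ A) (x : V) :
    csum c (n + 1) x ≤ tot c ^ (n + 1) + (n + 1) * (D * A) := by
  have h1 : csum c (n + 1) x ≤ ∑ w : Fin (n + 1) → V × V, (∏ i, c (w i)) *
      (1 + ∑ i : Fin (n + 1),
      ((if (w i).1 = x then ((clu (w ∘ i.succAbove) (w i).2).card : ℝ) else 0) +
       (if (w i).2 = x then ((clu (w ∘ i.succAbove) (w i).1).card : ℝ) else 0))) := by
    unfold csum
    exact Finset.sum_le_sum fun w _ => mul_le_mul_of_nonneg_left (clu_step w x)
      (Finset.prod_nonneg fun i _ => hc _)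
  refine h1.trans ?_
  simp only [mul_add, mul_one, Finset.sum_add_distrib, Finset.mul_sum]
  rw [sum_prod_words, Finset.sum_comm]
  have h2 : ∑ w : Fin (n + 1) → V × V, ∑ i : Fin (n + 1), (∏ i, c (w i)) *
      (if (w i).2 = x then ((clu (w ∘ i.succAbove) (w i).1).card : ℝ) else 0) =
      ∑ i : Fin (n + 1), ∑ w : Fin (n + 1) → V × V, (∏ i, c (w i)) *
      (if (w i).2 = x then ((clu (w ∘ i.succAbove) (w i).1).card : ℝ) else 0) :=
    Finset.sum_comm
  rw [h2]
  have h3 : ∀ i : Fin (n + 1), ∑ w : Fin (n + 1) → V × V, (∏ i, c (w i)) *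
      (if (w i).1 = x then ((clu (w ∘ i.succAbove) (w i).2).card : ℝ) else 0) =
      ∑ b, c (x, b) * csum c n b := by
    intro i
    rw [sum_insert c i (fun a w' => if a.1 = x then ((clu w' a.2).card : ℝ) else 0),
      Fintype.sum_prod_type, Finset.sum_eq_single x]
    · refine Finset.sum_congr rfl fun b _ => ?_
      simp only [if_true]
      rfl
    · intro a _ ha
      refine Finset.sum_eq_zero fun b _ => ?_
      simp only [if_neg ha, mul_zero, Finset.sum_const_zero]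
    · intro h; exact absurd (Finset.mem_univ _) h
  have h4 : ∀ i : Fin (n + 1), ∑ w : Fin (n + 1) → V × V, (∏ i, c (w i)) *
      (if (w i).2 = x then ((clu (w ∘ i.succAbove) (w i).1).card : ℝ) else 0) =
      ∑ b, c (b, x) * csum c n b := by
    intro i
    rw [sum_insert c i (fun a w' => if a.2 = x then ((clu w' a.1).card : ℝ) else 0),
      Fintype.sum_prod_type]
    refine Finset.sum_congr rfl fun b _ => ?_
    rw [Finset.sum_eq_single x]
    · simp only [if_true]
      rfl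
    · intro a _ ha
      simp only [if_neg ha, mul_zero, Finset.sum_const_zero]
    · intro h; exact absurd (Finset.mem_univ _) h
  rw [Finset.sum_congr rfl fun i _ => h3 i, Finset.sum_congr rfl fun i _ => h4 i,
    Finset.sum_const, Finset.sum_const, Finset.card_univ, Fintype.card_fin, nsmul_eq_mul,
    nsmul_eq_mul, ← mul_add, ← Finset.sum_add_distrib]
  refine add_le_add le_rfl ?_
  push_cast
  refine mul_le_mul_of_nonneg_left ?_ (by positivity)
  calc ∑ b, (c (x, b) * csum c n b + c (b, x) * csum c n b) ≤ ∑ b, (c (x, b) + c (b, x)) * A := by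
        refine Finset.sum_le_sum fun b _ => ?_
        rw [← add_mul]
        exact mul_le_mul_of_nonneg_left (hA b) (add_nonneg (hc _) (hc _))
    _ = (∑ b, (c (x, b) + c (b, x))) * A := by rw [Finset.sum_mul]
    _ ≤ D * A := mul_le_mul_of_nonneg_right (hD x) hA0

theorem csum_nonneg {c : V × V → ℝ} (hc : ∀ p, 0 ≤ c p) (n : ℕ) (x : V) : 0 ≤ csum c n x :=
  Finset.sum_nonneg fun w _ => mul_nonneg (Finset.prod_nonneg fun i _ => hc _)
    (Nat.cast_nonneg _)

/-- The sequence bounding `csum`. -/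
noncomputable def bseq (T D : ℝ) : ℕ → ℝ
  | 0 => 1
  | n + 1 => T ^ (n + 1) + (n + 1) * (D * bseq T D n)

theorem bseq_nonneg {T D : ℝ} (hT : 0 ≤ T) (hD : 0 ≤ D) (n : ℕ) : 0 ≤ bseq T D n := by
  induction n with
  | zero => simp [bseq]
  | succ n ih => unfold bseq; positivity

theorem csum_le {c : V × V → ℝ} (hc : ∀ p, 0 ≤ c p) {D : ℝ} (hD0 : 0 ≤ D)
    (hD : ∀ x, ∑ b, (c (x, b) + c (b, x)) ≤ D) (n : ℕ) (x : V) :
    csum c n x ≤ bseq (tot c) D n := by
  have htot : 0 ≤ tot c := Finset.sum_nonneg fun p _ => hc p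
  induction n generalizing x with
  | zero =>
    unfold csum bseq
    have h1 : ∀ w : Fin 0 → V × V, clu w x = {x} := by
      intro _
      ext y
      rw [mem_clu, Finset.mem_singleton]
      constructor
      · intro h
        rcases rtg_avoid h with h | ⟨b, ⟨i, _⟩, _⟩
        · exact h
        · exact i.elim0
      · rintro rfl; exact Relation.ReflTransGen.refl
    simp [h1]
  | succ n ih =>
    exact csum_succ hc hD (bseq_nonneg htot hD0 n) ih x

theorem bseq_sum {T D t : ℝ} (hT : 0 ≤ T) (hD : 0 ≤ D) (ht : 0 ≤ t) (htD : t * D < 1) (M : ℕ) :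
    ∑ n ∈ Finset.range M, t ^ n / n.factorial * bseq T D n ≤ Real.exp (t * T) / (1 - t * D) := by
  have h0 : ∀ n, 0 ≤ t ^ n / n.factorial * bseq T D n := fun n =>
    mul_nonneg (by positivity) (bseq_nonneg hT hD n)
  have h1 : ∑ n ∈ Finset.range (M + 1), t ^ n / n.factorial * bseq T D n ≤
      Real.exp (t * T) + t * D * ∑ n ∈ Finset.range M, t ^ n / n.factorial * bseq T D n := by
    rw [Finset.sum_range_succ', Finset.mul_sum]
    have h2 : ∀ n ∈ Finset.range M, t ^ (n + 1) / (n + 1).factorial * bseq T D (n + 1) =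
        (t * T) ^ (n + 1) / (n + 1).factorial + t * D * (t ^ n / n.factorial * bseq T D n) := by
      intro n _
      have hf : ((n + 1).factorial : ℝ) = (n + 1) * n.factorial := by
        rw [Nat.factorial_succ]; push_cast; ring
      have hf0 : (n.factorial : ℝ) ≠ 0 := by positivity
      have hn0 : ((n : ℝ) + 1) ≠ 0 := by positivity
      rw [bseq, hf]
      field_simp
      ring
    rw [Finset.sum_congr rfl h2, Finset.sum_add_distrib]
    have h3 : ∑ n ∈ Finset.range M, (t * T) ^ (n + 1) / ((n + 1).factorial : ℝ) +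
        t ^ 0 / (Nat.factorial 0 : ℝ) * bseq T D 0 ≤ Real.exp (t * T) := by
      have h4 := Real.sum_le_exp_of_nonneg (mul_nonneg ht hT) (M + 1)
      rw [Finset.sum_range_succ'] at h4
      simp only [pow_zero, Nat.factorial_zero, Nat.cast_one, div_one, bseq, mul_one] at h4 ⊢
      exact h4
    linarith
  have h2 : ∑ n ∈ Finset.range M, t ^ n / n.factorial * bseq T D n ≤
      ∑ n ∈ Finset.range (M + 1), t ^ n / n.factorial * bseq T D n := by
    rw [Finset.sum_range_succ]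
    linarith [h0 M]
  rw [le_div_iff₀ (by linarith)]
  linarith

/-- The expected length of a cycle for small times. -/
theorem sg_cl_le {c : V × V → ℝ} (hc : ∀ p, 0 ≤ c p) {D t : ℝ} (hD0 : 0 ≤ D)
    (hD : ∀ x, ∑ b, (c (x, b) + c (b, x)) ≤ D) (ht : 0 ≤ t) (htD : t * D < 1) (x : V) :
    sg c t (fun σ => (cl σ x : ℝ)) 1 ≤ 1 / (1 - t * D) := by
  have htot : 0 ≤ tot c := Finset.sum_nonneg fun p _ => hc p
  have h1 := sg_hasSum c t (fun σ => (cl σ x : ℝ)) 1
  have hterm : ∀ n : ℕ, (stepT c ^ n) (fun σ => (cl σ x : ℝ)) 1 ≤ bseq (tot c) D n := by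
    intro n
    rw [stepT_pow_apply]
    refine le_trans ?_ (csum_le hc hD0 hD n x)
    unfold csum
    refine Finset.sum_le_sum fun w _ => mul_le_mul_of_nonneg_left ?_
      (Finset.prod_nonneg fun i _ => hc _)
    rw [one_mul]
    exact_mod_cast cl_le_clu w x
  have hpos : ∀ n : ℕ, 0 ≤ (stepT c ^ n) (fun σ => (cl σ x : ℝ)) 1 := fun n =>
    pow_nonneg_on hc (stab_univ c) (fun τ _ => Nat.cast_nonneg _) n 1 (Set.mem_univ _)
  refine le_of_tendsto' h1.tendsto_sum_nat fun M => ?_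
  have h2 : ∑ n ∈ Finset.range M, Real.exp (-(t * tot c)) *
      (t ^ n / n.factorial * (stepT c ^ n) (fun σ => (cl σ x : ℝ)) 1) ≤
      Real.exp (-(t * tot c)) * ∑ n ∈ Finset.range M, t ^ n / n.factorial * bseq (tot c) D n := by
    rw [Finset.mul_sum]
    refine Finset.sum_le_sum fun n _ => ?_
    refine mul_le_mul_of_nonneg_left ?_ (Real.exp_pos _).le
    exact mul_le_mul_of_nonneg_left (hterm n) (by positivity)
  refine h2.trans ?_
  have h3 := mul_le_mul_of_nonneg_left (bseq_sum htot hD0 ht htD M)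
    (Real.exp_pos (-(t * tot c))).le
  refine h3.trans (le_of_eq ?_)
  rw [← mul_div_assoc, ← Real.exp_add]
  simp

end General

section Hierarchical

variable {N K : ℕ}

theorem sum_brate {j : ℕ} (hN : 0 < N) (hj : j ≤ K) {g : ℝ} (x : Word N K) :
    ∑ b, (brate (lab N K j) (N ^ j) g (x, b) + brate (lab N K j) (N ^ j) g (b, x)) =
      2 * (g / (N : ℝ) ^ j) := by
  have hNr : (0 : ℝ) < N := by exact_mod_cast hN
  have h1 : ∑ b, brate (lab N K j) (N ^ j) g (x, b) = g / (N : ℝ) ^ j := by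
    unfold brate
    rw [← Finset.sum_filter, Finset.sum_const]
    have h2 : (Finset.univ.filter fun b : Word N K => lab N K j x = lab N K j b) =
        blk (lab N K j) x := by
      unfold blk
      ext b
      simp only [Finset.mem_filter, Finset.mem_univ, true_and]
      exact eq_comm
    rw [h2, card_blk hj, nsmul_eq_mul]
    push_cast
    field_simp
  have h3 : ∑ b, brate (lab N K j) (N ^ j) g (b, x) = g / (N : ℝ) ^ j := by
    rw [← h1]
    refine Finset.sum_congr rfl fun b _ => ?_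
    unfold brate
    simp only [eq_comm]
  rw [Finset.sum_add_distrib, h1, h3]
  ring

/-- For small times there are no macroscopic cycles. -/
theorem small_case {g : ℕ → ℝ} {ρ : ℝ} (hN : 2 ≤ N) (hg : ∀ j, 0 < g j)
    (hρN : ρ < N) (hρ : ∀ j, g (j + 1) ≤ ρ * g j) :
    ∃ t₁ : ℝ, 0 < t₁ ∧ ∀ t, 0 ≤ t → t < t₁ → ∀ ε : ℝ, 0 < ε →
      Tendsto (fun K => hexpect N K g t (ind {σ : Equiv.Perm (Word N K) |
        ∃ x, ε * (N : ℝ) ^ K ≤ cycLen σ x})) atTop (nhds 0) := by
  have hN0 : 0 < N := by omega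
  have hNr : (2 : ℝ) ≤ N := by exact_mod_cast hN
  have hgn : ∀ j, 0 ≤ g j := fun j => (hg j).le
  have hm : max ρ 1 < N := max_lt hρN (by linarith)
  have hm1 : (1 : ℝ) ≤ max ρ 1 := le_max_right _ _
  set q : ℝ := max ρ 1 / N with hqdef
  have hq0 : 0 < q := by positivity
  have hq1 : q < 1 := by rw [hqdef, div_lt_one (by linarith)]; exact hm
  have hqs : ∀ j, g j / (N : ℝ) ^ j ≤ q ^ j * g 0 := by
    intro j
    induction j with
    | zero => simp
    | succ j ih =>
      have h1 : g (j + 1) ≤ max ρ 1 * g j :=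
        (hρ j).trans (mul_le_mul_of_nonneg_right (le_max_left _ _) (hg j).le)
      have h2 : q * (g j / (N : ℝ) ^ j) = max ρ 1 * g j / (N : ℝ) ^ (j + 1) := by
        rw [hqdef, pow_succ]; field_simp
      have h3 : g (j + 1) / (N : ℝ) ^ (j + 1) ≤ q * (g j / (N : ℝ) ^ j) := by
        rw [h2]; exact div_le_div_of_nonneg_right h1 (by positivity)
      refine h3.trans ?_
      rw [pow_succ']
      have := mul_le_mul_of_nonneg_left ih hq0.le
      linarith
  have hq1' : 0 < 1 - q := by linarith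
  have hg0 := hg 0
  set D : ℝ := 2 * (g 0 / (1 - q)) with hD
  have hD0 : 0 < D := by positivity
  have hsum : ∀ K, ∑ j ∈ Finset.range K, g (j + 1) / (N : ℝ) ^ (j + 1) ≤ g 0 / (1 - q) := by
    intro K
    calc ∑ j ∈ Finset.range K, g (j + 1) / (N : ℝ) ^ (j + 1) ≤
          ∑ j ∈ Finset.range K, q ^ j * g 0 := by
          refine Finset.sum_le_sum fun j _ => (hqs (j + 1)).trans ?_
          refine mul_le_mul_of_nonneg_right ?_ hg0.le
          rw [pow_succ]
          exact mul_le_of_le_one_right (by positivity) hq1.le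
      _ = (∑ j ∈ Finset.range K, q ^ j) * g 0 := by rw [Finset.sum_mul]
      _ ≤ (1 - q)⁻¹ * g 0 := by
          refine mul_le_mul_of_nonneg_right ?_ hg0.le
          have h3 := (summable_geometric_of_lt_one hq0.le hq1).sum_le_tsum (Finset.range K)
            (fun i _ => pow_nonneg hq0.le i)
          rwa [tsum_geometric_of_lt_one hq0.le hq1] at h3
      _ = g 0 / (1 - q) := by rw [inv_mul_eq_div]
  refine ⟨1 / (2 * D), by positivity, ?_⟩
  intro t ht ht1 ε hε
  have htD : t * D ≤ 1 / 2 := by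
    rw [lt_div_iff₀ (by positivity)] at ht1
    linarith
  -- expectation of the cycle lengths
  have hE : ∀ (K : ℕ) (x : Word N K), EL N K g t K (fun σ => (cl σ x : ℝ)) ≤ 2 := by
    intro K x
    have h1 : ∀ x : Word N K, ∑ b, (lev N K g K (x, b) + lev N K g K (b, x)) ≤ D := by
      intro x
      have h2 : ∑ b, (lev N K g K (x, b) + lev N K g K (b, x)) =
          ∑ j ∈ Finset.range K, 2 * (g (j + 1) / (N : ℝ) ^ (j + 1)) := by
        unfold lev
        simp only [Finset.sum_apply, ← Finset.sum_add_distrib]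
        rw [Finset.sum_comm]
        refine Finset.sum_congr rfl fun j hj => ?_
        exact sum_brate hN0 (by have := Finset.mem_range.mp hj; omega) x
      rw [h2, ← Finset.mul_sum, hD]
      exact mul_le_mul_of_nonneg_left (hsum K) (by norm_num)
    refine (sg_cl_le (lev_nonneg hgn K) hD0.le h1 ht (by linarith) x).trans ?_
    rw [div_le_iff₀ (by linarith)]
    linarith
  have hlim : Tendsto (fun K : ℕ => 2 / ε ^ 2 * (1 / (N : ℝ) ^ K)) atTop (nhds 0) := by
    have h1 : Tendsto (fun K : ℕ => (1 / (N : ℝ)) ^ K) atTop (nhds 0) := by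
      refine tendsto_pow_atTop_nhds_zero_of_lt_one (by positivity) ?_
      rw [div_lt_one (by linarith)]; linarith
    have h2 := h1.const_mul (2 / ε ^ 2)
    rw [mul_zero] at h2
    refine h2.congr fun K => ?_
    rw [one_div_pow]
  refine squeeze_zero (fun K => ?_) (fun K => ?_) hlim
  · rw [hexpect_eq]
    have h2 := EL_mono (N := N) (K := K) hgn ht K
      (f := fun _ => 0) (h := ind {σ : Equiv.Perm (Word N K) |
        ∃ x, ε * (N : ℝ) ^ K ≤ cycLen σ x}) (fun σ _ => ind_nonneg _ σ)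
    rwa [EL_const] at h2
  · rw [hexpect_eq]
    have hNK : (0 : ℝ) < (N : ℝ) ^ K := by positivity
    have h1 := EL_mono (N := N) (K := K) hgn ht K
      (f := ind {σ : Equiv.Perm (Word N K) | ∃ x, ε * (N : ℝ) ^ K ≤ cycLen σ x})
      (h := fun σ => (1 / (ε * (N : ℝ) ^ K) ^ 2) * ∑ x, (cl σ x : ℝ)) (by
        intro σ _
        unfold ind
        by_cases h : ∃ x, ε * (N : ℝ) ^ K ≤ cycLen σ x
        · rw [Set.indicator_of_mem (by exact h)]
          obtain ⟨x, hx⟩ := h
          rw [cycLen_eq] at hx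
          have h2 : (cl σ x : ℝ) * (cl σ x : ℝ) ≤ ∑ y, (cl σ y : ℝ) := by
            calc (cl σ x : ℝ) * (cl σ x : ℝ) = ∑ y ∈ orb σ x, (cl σ y : ℝ) := by
                  rw [Finset.sum_congr rfl fun y hy => by rw [cl_orb hy], Finset.sum_const,
                    card_orb, nsmul_eq_mul]
              _ ≤ _ := Finset.sum_le_sum_of_subset_of_nonneg (Finset.subset_univ _)
                  fun y _ _ => Nat.cast_nonneg _
          rw [div_mul_eq_mul_div, one_mul, le_div_iff₀ (by positivity), one_mul]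
          refine le_trans ?_ h2
          rw [sq]
          exact mul_le_mul hx hx (by positivity) (Nat.cast_nonneg _)
        · rw [Set.indicator_of_notMem (by exact h)]
          have : 0 ≤ ∑ x, (cl σ x : ℝ) := Finset.sum_nonneg fun _ _ => Nat.cast_nonneg _
          positivity)
    refine h1.trans ?_
    rw [EL_mul, EL_sum]
    have h2 : ∑ x : Word N K, EL N K g t K (fun σ => (cl σ x : ℝ)) ≤ (N : ℝ) ^ K * 2 := by
      calc ∑ x : Word N K, EL N K g t K (fun σ => (cl σ x : ℝ)) ≤ ∑ _x : Word N K, (2 : ℝ) :=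
            Finset.sum_le_sum fun x _ => hE K x
        _ = (N : ℝ) ^ K * 2 := by
            rw [Finset.sum_const, Finset.card_univ, nsmul_eq_mul, card_word]
    refine (mul_le_mul_of_nonneg_left h2 (by positivity)).trans (le_of_eq ?_)
    field_simp

end Hierarchical

end Pool.Agent.Stirring.Hier
end
end

section

section

/-! A3a: the mean over the perfect matchings. -/

open Finset

namespace Pool.Agent.Stirring.HP

variable {V : Type} [Fintype V] [DecidableEq V]

theorem AM_abs_le {F : Equiv.Perm V → ℝ} {c : ℝ} (hc : 0 ≤ c) (hF : ∀ π, |F π| ≤ c)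
    (ρ : Equiv.Perm V) (X : Finset V) : |AM F ρ X| ≤ c := by
  unfold AM
  rw [abs_div, Nat.abs_cast]
  rcases Nat.eq_zero_or_pos (matchings X).card with h0 | h0
  · rw [h0, Nat.cast_zero, div_zero]
    exact hc
  · rw [div_le_iff₀ (by exact_mod_cast h0)]
    calc |∑ μ ∈ matchings X, F (ρ * μ)| ≤ ∑ μ ∈ matchings X, |F (ρ * μ)| :=
          Finset.abs_sum_le_sum_abs _ _
      _ ≤ ∑ μ ∈ matchings X, c := Finset.sum_le_sum fun μ _ => hF _
      _ = c * (matchings X).card := by rw [Finset.sum_const, nsmul_eq_mul, mul_comm]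

/-- `sum_matchings`, and all the sets `rmv X x y` have `2 M` points, hence `mm M` matchings
(`card_matchings`); `mm (M + 1) = (2 M + 1) mm M`. -/
theorem AM_rec {X : Finset V} {M : ℕ} (hX : X.card = 2 * (M + 1)) {x : V} (hx : x ∈ X)
    (F : Equiv.Perm V → ℝ) (ρ : Equiv.Perm V) :
    AM F ρ X = (∑ y ∈ X.erase x, AM F (ρ * Equiv.swap x y) (rmv X x y)) / (2 * M + 1) := by
  have hc : ∀ y ∈ X.erase x, (matchings (rmv X x y)).card = mm M := by
    intro y hy
    refine card_matchings ?_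
    rw [Finset.card_erase_of_mem hy, Finset.card_erase_of_mem hx, hX]
    omega
  have h1 : ∀ y ∈ X.erase x, AM F (ρ * Equiv.swap x y) (rmv X x y) =
      (∑ ν ∈ matchings (rmv X x y), F (ρ * (Equiv.swap x y * ν))) / (mm M : ℝ) := by
    intro y hy
    unfold AM
    rw [hc y hy]
    simp only [mul_assoc]
  rw [Finset.sum_congr rfl h1, ← Finset.sum_div]
  unfold AM
  rw [sum_matchings hx (fun μ => F (ρ * μ)), card_matchings hX, div_div]
  congr 1
  rw [mm]
  push_cast
  ring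

end Pool.Agent.Stirring.HP
end

section

/-! A5a: the mean over the permutations of `Z`. -/

open Finset

namespace Pool.Agent.Stirring.HP

variable {V : Type} [Fintype V] [DecidableEq V]

/-- The permutations supported in `Z` are in bijection with `Equiv.Perm Z`
(`Equiv.Perm.subtypeEquivSubtypePerm`). -/
theorem card_suppIn (Z : Finset V) :
    (univ.filter (SuppIn Z) : Finset (Equiv.Perm V)).card = Z.card.factorial := by
  have h1 := Fintype.card_congr (Equiv.Perm.subtypeEquivSubtypePerm fun a : V => a ∈ Z)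
  rw [Fintype.card_perm, Fintype.card_coe] at h1
  rw [h1, Fintype.card_subtype]
  rfl

theorem UZ_abs_le {F : Equiv.Perm V → ℝ} {c : ℝ} (hF : ∀ π, |F π| ≤ c)
    (Z : Finset V) : |UZ Z F| ≤ c := by
  have h0 : (0 : ℝ) < (Z.card.factorial : ℝ) := by exact_mod_cast Nat.factorial_pos _
  rw [UZ, abs_div, abs_of_pos h0, div_le_iff₀ h0]
  refine (Finset.abs_sum_le_sum_abs _ _).trans ((Finset.sum_le_card_nsmul _ _ c
    fun π _ => hF π).trans (le_of_eq ?_))
  rw [card_suppIn, nsmul_eq_mul, mul_comm]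

end Pool.Agent.Stirring.HP
end

section

/-! A5b: the mean over the permutations of `Z`. -/

open Finset

namespace Pool.Agent.Stirring.HP

variable {V : Type} [Fintype V] [DecidableEq V]

/-- Decomposition according to `j = π z`: `π ↦ (π z, swap z (π z) * π)`, the second component is
supported in `Z.erase z`. -/
theorem UZ_rec {Z : Finset V} {z : V} (hz : z ∈ Z) (F : Equiv.Perm V → ℝ) :
    UZ Z F = (∑ j ∈ Z, UZ (Z.erase z) (glue z j F)) / (Z.card : ℝ) := by
  classical
  have hc : Z.card = (Z.erase z).card + 1 := (Finset.card_erase_add_one hz).symm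
  have hsum : ∑ π ∈ univ.filter (SuppIn Z), F π =
      ∑ j ∈ Z, ∑ π ∈ univ.filter (SuppIn (Z.erase z)), F (Equiv.swap z j * π) := by
    rw [← Finset.sum_product']
    symm
    refine Finset.sum_bij' (fun q _ => Equiv.swap z q.1 * q.2)
      (fun π _ => (π z, Equiv.swap z (π z) * π)) ?_ ?_ ?_ ?_ ?_
    · rintro ⟨j, π⟩ hq
      rw [Finset.mem_product, Finset.mem_filter] at hq
      obtain ⟨hj, _, hπ⟩ := hq
      rw [Finset.mem_filter]
      refine ⟨Finset.mem_univ _, ?_⟩
      exact suppIn_mul (suppIn_swap hz hj) (suppIn_mono (Finset.erase_subset z Z) hπ)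
    · intro π hπ
      rw [Finset.mem_filter] at hπ
      rw [Finset.mem_product, Finset.mem_filter]
      have hj : π z ∈ Z := suppIn_apply_mem hπ.2 hz
      refine ⟨hj, Finset.mem_univ _, ?_⟩
      intro a ha
      by_cases haz : a = z
      · rw [haz, Equiv.Perm.mul_apply, Equiv.swap_apply_right]
      · have ha' : a ∉ Z := fun h => ha (Finset.mem_erase.mpr ⟨haz, h⟩)
        rw [Equiv.Perm.mul_apply, hπ.2 a ha', Equiv.swap_apply_of_ne_of_ne haz]
        intro h
        exact ha' (h ▸ hj)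
    · rintro ⟨j, π⟩ hq
      rw [Finset.mem_product, Finset.mem_filter] at hq
      obtain ⟨hj, _, hπ⟩ := hq
      have hπz : π z = z := hπ z (Finset.notMem_erase z Z)
      have h1 : (Equiv.swap z j * π) z = j := by
        rw [Equiv.Perm.mul_apply, hπz, Equiv.swap_apply_left]
      simp only [h1]
      rw [← mul_assoc, Equiv.swap_mul_self, one_mul]
    · intro π _
      simp only
      rw [← mul_assoc, Equiv.swap_mul_self, one_mul]
    · rintro ⟨j, π⟩ _
      rfl
  unfold UZ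
  rw [hsum, ← Finset.sum_div, hc, Nat.factorial_succ, Nat.cast_mul, div_div, mul_comm]

end Pool.Agent.Stirring.HP
end

section

/-! A3b: the mean over the perfect matchings. -/

open Finset

namespace Pool.Agent.Stirring.HP

variable {V : Type} [Fintype V] [DecidableEq V]

theorem Inv_mono {X X' Z : Finset V} (h : X' ⊆ X) {F : Equiv.Perm V → ℝ} (hI : Inv X Z F) :
    Inv X' Z F := by
  exact fun π hπ a ha => hI π (suppIn_mono (union_subset_union_left h) hπ) a (h ha)

/-- By `AM_rec` it remains to see `F (ρ * swap x y * ν) = F (stp x y ρ * ν)` for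
`ν ∈ matchings (rmv X x y)`. `ν` fixes `x` and `y`, so by `del_mul` (twice)
`stp x y ρ * ν = del x (del y (ρ * swap x y * ν))`, and `F` does not change when `y`, then `x` is
bypassed (`hI`; `ρ * swap x y * ν` and `del y (…)` are supported in `X ∪ Z`: `suppIn_mul`,
`suppIn_del`, `suppIn_mono`). -/
theorem AM_stp {X Z : Finset V} {M : ℕ} (hX : X.card = 2 * (M + 1)) {x : V} (hx : x ∈ X)
    {F : Equiv.Perm V → ℝ} (hI : Inv X Z F) {ρ : Equiv.Perm V} (hS : SuppIn (X ∪ Z) ρ) :
    AM F ρ X = (∑ y ∈ X.erase x, AM F (stp x y ρ) (rmv X x y)) / (2 * M + 1) := by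
  rw [AM_rec hX hx]
  congr 1
  refine Finset.sum_congr rfl fun y hy => ?_
  unfold AM
  congr 1
  refine Finset.sum_congr rfl fun ν hν => ?_
  have hyX : y ∈ X := Finset.mem_of_mem_erase hy
  have hνx : ν x = x := matchings_fix hν fun h => by
    exact Finset.notMem_erase x X (Finset.mem_of_mem_erase h)
  have hνy : ν y = y := matchings_fix hν (Finset.notMem_erase y _)
  have hs : SuppIn (X ∪ Z) (ρ * Equiv.swap x y * ν) := by
    refine suppIn_mul (suppIn_mul hS (suppIn_swap (Finset.mem_union_left _ hx)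
      (Finset.mem_union_left _ hyX))) (suppIn_mono ?_ (matchings_suppIn hν))
    exact ((Finset.erase_subset _ _).trans (Finset.erase_subset _ _)).trans
      Finset.subset_union_left
  have h1 : stp x y ρ * ν = del x (del y (ρ * Equiv.swap x y * ν)) := by
    rw [stp, del_mul hνy, del_mul hνx]
  rw [h1, hI _ (suppIn_mono (Finset.erase_subset _ _) (suppIn_del hs y)) x hx, hI _ hs y hyX]

/-- `swap z (ρ z) * (del z ρ * μ) = ρ * μ`. -/
theorem AM_glue {X : Finset V} {z j : V} {ρ : Equiv.Perm V} (hj : ρ z = j)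
    (F : Equiv.Perm V → ℝ) : AM F ρ X = AM (glue z j F) (del z ρ) X := by
  unfold AM
  congr 1
  refine Finset.sum_congr rfl fun μ _ => ?_
  show F (ρ * μ) = F (Equiv.swap z j * (del z ρ * μ))
  congr 1
  rw [del, hj, mul_assoc, ← mul_assoc (Equiv.swap z j) (Equiv.swap z j), Equiv.swap_mul_self,
    one_mul]

/-- For `π` supported in `X ∪ Z.erase z` and `a ∈ X` (so `a ≠ z`, `a ≠ j`):
`glue z j F (del a π) = F (del a (swap z j * π)) = F (swap z j * π)` by `swap_del` and `hI`. -/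
theorem Inv_glue {X Z : Finset V} (hXZ : Disjoint X Z) {z j : V} (hz : z ∈ Z) (hj : j ∈ Z)
    {F : Equiv.Perm V → ℝ} (hI : Inv X Z F) : Inv X (Z.erase z) (glue z j F) := by
  intro π hπ a ha
  have haz : a ≠ z := fun h => Finset.disjoint_left.1 hXZ ha (h ▸ hz)
  have haj : a ≠ j := fun h => Finset.disjoint_left.1 hXZ ha (h ▸ hj)
  show F (Equiv.swap z j * del a π) = F (Equiv.swap z j * π)
  rw [swap_del haz haj]
  refine hI _ ?_ a ha
  refine suppIn_mul (suppIn_swap (Finset.mem_union_right _ hz) (Finset.mem_union_right _ hj))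
    (suppIn_mono ?_ hπ)
  exact Finset.union_subset_union_right (Finset.erase_subset _ _)

end Pool.Agent.Stirring.HP
end

section

/-! A3c: the mean over the perfect matchings. -/

open Finset

namespace Pool.Agent.Stirring.HP

variable {V : Type} [Fintype V] [DecidableEq V]

/-- If `Z` has at most one point then `F` is constant on the permutations supported in `X ∪ Z`:
induction on the number of points of `X` which are moved by `π` (or on a list of the points of `X`):
after bypassing all the points of `X` the permutation is supported in `Z`, hence it is `1`. -/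
theorem Inv_const {X Z : Finset V} (hZ : Z.card ≤ 1) {F : Equiv.Perm V → ℝ}
    (hI : Inv X Z F) {π : Equiv.Perm V} (hS : SuppIn (X ∪ Z) π) : F π = F 1 := by
  have key : ∀ T : Finset V, T ⊆ X → ∀ π : Equiv.Perm V, SuppIn (T ∪ Z) π → F π = F 1 := by
    intro T
    induction T using Finset.induction_on with
    | empty =>
      intro _ π hπ
      have : π = 1 := by
        ext b
        by_cases hb : b ∈ ∅ ∪ Z
        · have h1 := suppIn_apply_mem hπ hb
          rw [Finset.empty_union] at hb h1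
          exact Finset.card_le_one.1 hZ _ h1 _ hb
        · exact hπ b hb
      rw [this]
    | insert a T _ ih =>
      intro hT π hπ
      have haX : a ∈ X := hT (Finset.mem_insert_self a T)
      have hTX : T ⊆ X := (Finset.subset_insert a T).trans hT
      rw [← hI π (suppIn_mono (Finset.union_subset_union_left hT) hπ) a haX]
      refine ih hTX _ (suppIn_mono ?_ (suppIn_del hπ a))
      intro b hb
      rw [Finset.mem_erase, Finset.mem_union, Finset.mem_insert] at hb
      rw [Finset.mem_union]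
      tauto
  exact key X (Finset.Subset.refl X) π hS

end Pool.Agent.Stirring.HP
end

section

/-! A4a: the values of `stp`. -/

open Finset

namespace Pool.Agent.Stirring.HP

variable {V : Type} [Fintype V] [DecidableEq V]

/-- With `τ = ρ * swap x y`: `τ x = ρ y`, `τ y = ρ x`, `τ i = ρ i`; then `del_apply` twice, all the
cases. (Checked by computer for all small permutations.) -/
theorem stp_apply {x y i : V} (hxy : x ≠ y) (hx : i ≠ x) (hy : i ≠ y) (ρ : Equiv.Perm V) :
    stp x y ρ i = if ρ i = x then (if ρ y = y then ρ x else ρ y)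
      else if ρ i = y then (if ρ x = x then ρ y else ρ x) else ρ i := by
  have e1 : (ρ * Equiv.swap x y) i = ρ i := by
    rw [Equiv.Perm.mul_apply, Equiv.swap_apply_of_ne_of_ne hx hy]
  have e2 : (ρ * Equiv.swap x y) y = ρ x := by
    rw [Equiv.Perm.mul_apply, Equiv.swap_apply_right]
  have e3 : (ρ * Equiv.swap x y) x = ρ y := by
    rw [Equiv.Perm.mul_apply, Equiv.swap_apply_left]
  have hinj : ρ i = y → ρ y ≠ y := fun h h' => hy (ρ.injective (h.trans h'.symm))
  rw [stp, del_apply hx, del_apply hy, del_apply hxy, e1, e2, e3]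
  by_cases h1 : ρ i = x
  · have h2 : ρ i ≠ y := fun h => hxy (h1.symm.trans h)
    rw [if_neg h2, if_pos h1, if_pos h1]
  · rw [if_neg h1]
    by_cases h2 : ρ i = y
    · rw [if_pos h2, if_pos h2, if_neg (hinj h2)]
    · rw [if_neg h2, if_neg h2, if_neg h1]

theorem stp_left (x y : V) (ρ : Equiv.Perm V) : stp x y ρ x = x := del_self _ _

theorem stp_right (x y : V) (ρ : Equiv.Perm V) : stp x y ρ y = y := by
  by_cases h : y = x
  · subst h
    exact del_self _ _
  · rw [stp, del_apply h, del_self, if_neg h]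

theorem stp_suppIn {S : Finset V} {x y : V} (hx : x ∈ S) (hy : y ∈ S) {ρ : Equiv.Perm V}
    (h : SuppIn S ρ) : SuppIn (rmv S x y) (stp x y ρ) := by
  have h1 := suppIn_del (suppIn_del (suppIn_mul h (suppIn_swap hx hy)) y) x
  rwa [Finset.erase_right_comm] at h1

end Pool.Agent.Stirring.HP
end

section

end

section

/-! A8a: the step at `x = ρ z` when nothing is known on `ρ x`. -/

open Finset

namespace Pool.Agent.Stirring.HP

variable {V : Type} [Fintype V] [DecidableEq V]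

/-- The good `y` for the step at `x = ρ z`. -/
def Gd (Z : Finset V) (ρ : Equiv.Perm V) (z y : V) : Prop :=
  ρ (ρ y) ≠ y ∧ ρ y ∉ Z ∧ ρ (ρ y) ∉ Z ∧ ρ.symm y ∉ Z ∧ y ≠ ρ (ρ (ρ z)) ∧ y ≠ ρ (ρ (ρ (ρ z)))

private theorem A8a_ne {ρ : Equiv.Perm V} {y : V} (h : ρ (ρ y) ≠ y) : ρ y ≠ y := fun h1 =>
  h (by rw [h1, h1])

/-- The step at a good `y` keeps the property `Q1`. -/
theorem good_Q1 {X Z : Finset V} {ρ : Equiv.Perm V} (hXZ : Disjoint X Z)
    (hS : SuppIn (X ∪ Z) ρ) (hQ : Q1 Z ρ)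
    {z : V} (hz : z ∈ Z) {y : V} (hy : y ∈ X.erase (ρ z)) (hg : Gd Z ρ z y) :
    Q1 Z (stp (ρ z) y ρ) := by
  obtain ⟨h1, h2, h3, h4, -, -⟩ := hg
  obtain ⟨hyx, hyX⟩ := mem_erase.1 hy
  have hyZ : y ∉ Z := fun h => (disjoint_left.1 hXZ hyX) h
  intro i hi
  have hix : i ≠ ρ z := fun h => hQ z hz (h ▸ hi)
  have hiy : i ≠ y := fun h => hyZ (h ▸ hi)
  rw [stp_apply hyx.symm hix hiy]
  by_cases ha : ρ i = ρ z
  · rw [if_pos ha, if_neg (A8a_ne h1)]
    exact h2
  · rw [if_neg ha]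
    by_cases hb : ρ i = y
    · exfalso
      apply h4
      rw [← hb, Equiv.symm_apply_apply]
      exact hi
    · rw [if_neg hb]
      exact hQ i hi

/-- The step at a good `y`: the second image of `z` is outside of `Z`. -/
theorem good_G {X Z : Finset V} {ρ : Equiv.Perm V} (hXZ : Disjoint X Z)
    (hS : SuppIn (X ∪ Z) ρ) (hQ : Q1 Z ρ)
    {z : V} (hz : z ∈ Z) {y : V} (hy : y ∈ X.erase (ρ z)) (hg : Gd Z ρ z y) :
    stp (ρ z) y ρ (stp (ρ z) y ρ z) ∉ Z := by
  obtain ⟨h1, h2, h3, h4, -, -⟩ := hg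
  obtain ⟨hyx, hyX⟩ := mem_erase.1 hy
  have hyZ : y ∉ Z := fun h => (disjoint_left.1 hXZ hyX) h
  have hzx : z ≠ ρ z := fun h => hQ z hz (h ▸ hz)
  have hzy : z ≠ y := fun h => hyZ (h ▸ hz)
  have e1 : stp (ρ z) y ρ z = ρ y := by
    rw [stp_apply hyx.symm hzx hzy, if_pos rfl, if_neg (A8a_ne h1)]
  have h5 : ρ y ≠ ρ z := fun h => hzy (ρ.injective h).symm
  have h6 : ρ (ρ y) ≠ ρ z := fun h => h2 (by rw [ρ.injective h]; exact hz)
  rw [e1, stp_apply hyx.symm h5 (A8a_ne h1), if_neg h6, if_neg h1]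
  exact h3

open Classical in
/-- The number of the points of `X` which are not good. -/
theorem card_not_good (X Z : Finset V) (ρ : Equiv.Perm V) (z : V) :
    ((X.erase (ρ z)).filter fun y => ¬ Gd Z ρ z y).card ≤ phi X ρ + 3 * Z.card + 2 := by
  have hsub : ((X.erase (ρ z)).filter fun y => ¬ Gd Z ρ z y) ⊆
      (X.filter fun x => ρ (ρ x) = x) ∪ (Z.image ρ.symm ∪ (Z.image (fun i => ρ.symm (ρ.symm i)) ∪
        (Z.image ρ ∪ ({ρ (ρ (ρ z))} ∪ {ρ (ρ (ρ (ρ z)))})))) := by
    intro y hy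
    obtain ⟨hyX, hy2⟩ := mem_filter.1 hy
    have hyX' := (mem_erase.1 hyX).2
    by_contra hcon
    apply hy2
    simp only [mem_union, mem_filter, mem_image, mem_singleton, not_or] at hcon
    obtain ⟨c1, c2, c3, c4, c5, c6⟩ := hcon
    refine ⟨fun h => c1 ⟨hyX', h⟩, fun h => c2 ⟨ρ y, h, ρ.symm_apply_apply y⟩, fun h =>
      c3 ⟨ρ (ρ y), h, by rw [ρ.symm_apply_apply, ρ.symm_apply_apply]⟩, fun h =>
      c4 ⟨ρ.symm y, h, ρ.apply_symm_apply y⟩, c5, c6⟩
  refine (card_le_card hsub).trans ?_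
  have u1 := card_union_le (X.filter fun x => ρ (ρ x) = x) (Z.image ρ.symm ∪
    (Z.image (fun i => ρ.symm (ρ.symm i)) ∪
        (Z.image ρ ∪ ({ρ (ρ (ρ z))} ∪ {ρ (ρ (ρ (ρ z)))}))))
  have u2 := card_union_le (Z.image ρ.symm) (Z.image (fun i => ρ.symm (ρ.symm i)) ∪
        (Z.image ρ ∪ ({ρ (ρ (ρ z))} ∪ {ρ (ρ (ρ (ρ z)))})))
  have u3 := card_union_le (Z.image (fun i => ρ.symm (ρ.symm i)))
        (Z.image ρ ∪ ({ρ (ρ (ρ z))} ∪ {ρ (ρ (ρ (ρ z)))}))
  have u4 := card_union_le (Z.image ρ) ({ρ (ρ (ρ z))} ∪ {ρ (ρ (ρ (ρ z)))})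
  have u5 := card_union_le ({ρ (ρ (ρ z))} : Finset V) {ρ (ρ (ρ (ρ z)))}
  have v1 : (Z.image ρ.symm).card ≤ Z.card := card_image_le
  have v2 : (Z.image (fun i => ρ.symm (ρ.symm i))).card ≤ Z.card := card_image_le
  have v3 : (Z.image ρ).card ≤ Z.card := card_image_le
  rw [card_singleton, card_singleton] at u5
  have w1 : (X.filter fun x => ρ (ρ x) = x).card = phi X ρ := rfl
  omega

end Pool.Agent.Stirring.HP
end

section

/-! A8b: the step at `x = ρ z` when nothing is known on `ρ x`. -/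

open Finset

namespace Pool.Agent.Stirring.HP

variable {V : Type} [Fintype V] [DecidableEq V]

/-- Every `p ∈ X`, `p ≠ x, y` with `ρ' (ρ' p) = p` satisfies `ρ (ρ p) = p`. Except for `x`, `y`, the
permutations `ρ'` and `ρ` differ only at `z` (`ρ' z = ρ y`) and at `i = ρ.symm y` if `i ≠ x`
(`ρ' i = ρ x`; here `ρ x ≠ x, y, i`: `ρ x = i` would give `y = ρ (ρ x)`). `p ≠ z`. If `ρ' p = z` then
`p = ρ y`, `z = ρ' (ρ y) = ρ (ρ y)`, excluded. If `p = i`: `i = ρ' (ρ x)`, and `ρ' (ρ x) = ρ (ρ x)`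
gives `y = ρ (ρ (ρ x))`, excluded, unless `ρ x = z` (then `ρ' (ρ x) = ρ y = i`, so `ρ (ρ y) = y`,
excluded) or `ρ (ρ x) = y` (excluded). If `ρ' p = i`, `p ≠ i`: then `p = ρ' i = ρ x` and
`ρ' (ρ x) = i`, as before. -/
theorem good_phi {X Z : Finset V} {ρ : Equiv.Perm V} (hXZ : Disjoint X Z)
    (hS : SuppIn (X ∪ Z) ρ) (hQ : Q1 Z ρ)
    {z : V} (hz : z ∈ Z) {y : V} (hy : y ∈ X.erase (ρ z)) (hg : Gd Z ρ z y) :
    phi (rmv X (ρ z) y) (stp (ρ z) y ρ) ≤ phi X ρ := by
  obtain ⟨g1, g2, g3, g4, g5, g6⟩ := hg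
  obtain ⟨hyx, hyX⟩ := Finset.mem_erase.1 hy
  have hxX : ρ z ∈ X := by
    have h1 := suppIn_apply_mem hS (Finset.mem_union_right X hz)
    exact (Finset.mem_union.1 h1).resolve_right (hQ z hz)
  obtain ⟨x, hx⟩ : ∃ x, x = ρ z := ⟨_, rfl⟩
  rw [← hx] at hyx hxX g5 g6 ⊢
  have hxz : x ≠ z := fun h => (Finset.disjoint_left.1 hXZ hxX) (h ▸ hz)
  have hρx : ρ x ≠ x := fun h => hxz (ρ.injective (h.trans hx))
  have hρy : ρ y ≠ y := fun h => g1 (by rw [h, h])
  have hst : ∀ i, i ≠ x → i ≠ y → stp x y ρ i =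
      if ρ i = x then ρ y else if ρ i = y then ρ x else ρ i := by
    intro i hi hi'
    rw [stp_apply (Ne.symm hyx) hi hi', if_neg hρy, if_neg hρx]
  unfold phi
  refine Finset.card_le_card fun p hp => ?_
  obtain ⟨hp1, hp2⟩ := Finset.mem_filter.1 hp
  obtain ⟨hpy, hp3⟩ := Finset.mem_erase.1 hp1
  obtain ⟨hpx, hpX⟩ := Finset.mem_erase.1 hp3
  rw [Finset.mem_filter]
  refine ⟨hpX, ?_⟩
  have hpz : p ≠ z := fun h => (Finset.disjoint_left.1 hXZ hpX) (h ▸ hz)
  have hρpx : ρ p ≠ x := fun h => hpz (ρ.injective (h.trans hx))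
  by_cases hA : ρ p = y
  · exfalso
    rw [hst p hpx hpy, if_neg hρpx, if_pos hA] at hp2
    have hw : ρ x ≠ y := fun h => hpx (ρ.injective (hA.trans h.symm))
    rw [hst (ρ x) hρx hw] at hp2
    by_cases h1 : ρ (ρ x) = x
    · rw [if_pos h1] at hp2
      exact g1 (by rw [hp2, hA])
    · rw [if_neg h1] at hp2
      by_cases h2 : ρ (ρ x) = y
      · exact g5 h2.symm
      · rw [if_neg h2] at hp2
        exact g6 (by rw [hp2, hA])
  · rw [hst p hpx hpy, if_neg hρpx, if_neg hA] at hp2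
    rw [hst (ρ p) hρpx hA] at hp2
    by_cases h1 : ρ (ρ p) = x
    · exfalso
      rw [if_pos h1] at hp2
      have h2 : ρ p = z := ρ.injective (h1.trans hx)
      exact g3 (by rw [hp2, h2]; exact hz)
    · rw [if_neg h1] at hp2
      by_cases h2 : ρ (ρ p) = y
      · exfalso
        rw [if_pos h2] at hp2
        exact g6 (by rw [hp2, h2])
      · rwa [if_neg h2] at hp2

end Pool.Agent.Stirring.HP
end
end
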