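import Pool.Agent.Lib.MP_6c3d62_pr.Mg.G080
import Pool.Agent.Lib.MP_6c3d62_pr.Mg.G077
import Pool.Agent.Lib.MP_6c3d62_pr.Mg.G081

section

section

/-! The last level, with sharp constants: almost all the mass which is not in finite cycles is in
macroscopic cycles. -/

open Finset Filter Topology

set_option linter.unusedSectionVars false

namespace Pool.Agent.Stirring.Hier

/-- A function which is at least `x`, close to `x` below `θ` and constant above `θ + 2 δ`. -/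
noncomputable def gq (θ δ x : ℝ) : ℝ :=
  x + (sp θ x - (2 + δ) * sp (θ + δ) x + (1 + δ) * sp (θ + 2 * δ) x) / (2 * δ ^ 2)

/-- Its derivative. -/
noncomputable def gq' (θ δ x : ℝ) : ℝ :=
  1 + (2 * max (x - θ) 0 - (2 + δ) * (2 * max (x - (θ + δ)) 0) +
    (1 + δ) * (2 * max (x - (θ + 2 * δ)) 0)) / (2 * δ ^ 2)

theorem gq_hasDerivAt (θ δ x : ℝ) : HasDerivAt (gq θ δ) (gq' θ δ x) x := by
  unfold gq gq'
  exact (hasDerivAt_id x).add ((((sp_hasDerivAt θ x).sub
    ((sp_hasDerivAt (θ + δ) x).const_mul (2 + δ))).add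
    ((sp_hasDerivAt (θ + 2 * δ) x).const_mul (1 + δ))).div_const (2 * δ ^ 2))

theorem gq_taylor {θ δ : ℝ} (hδ : 0 < δ) (x y : ℝ) :
    gq θ δ y ≤ gq θ δ x + gq' θ δ x * (y - x) + (2 + δ) / (2 * δ ^ 2) * (y - x) ^ 2 := by
  have h1 := sp_taylor θ x y
  have h2 := sp_convex (θ + δ) x y
  have h3 := sp_taylor (θ + 2 * δ) x y
  unfold gq gq'
  have hd : 0 < 2 * δ ^ 2 := by positivity
  have h4 : (sp θ y - (2 + δ) * sp (θ + δ) y + (1 + δ) * sp (θ + 2 * δ) y) ≤
      (sp θ x - (2 + δ) * sp (θ + δ) x + (1 + δ) * sp (θ + 2 * δ) x) +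
      (2 * max (x - θ) 0 - (2 + δ) * (2 * max (x - (θ + δ)) 0) +
      (1 + δ) * (2 * max (x - (θ + 2 * δ)) 0)) * (y - x) + (2 + δ) * (y - x) ^ 2 := by
    have h5 := mul_le_mul_of_nonneg_left h2 (by linarith : 0 ≤ 2 + δ)
    have h6 := mul_le_mul_of_nonneg_left h3 (by linarith : 0 ≤ 1 + δ)
    linarith
  have h5 := div_le_div_of_nonneg_right h4 hd.le
  have h6 : ((sp θ x - (2 + δ) * sp (θ + δ) x + (1 + δ) * sp (θ + 2 * δ) x) +
      (2 * max (x - θ) 0 - (2 + δ) * (2 * max (x - (θ + δ)) 0) +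
      (1 + δ) * (2 * max (x - (θ + 2 * δ)) 0)) * (y - x) + (2 + δ) * (y - x) ^ 2) / (2 * δ ^ 2) =
      (sp θ x - (2 + δ) * sp (θ + δ) x + (1 + δ) * sp (θ + 2 * δ) x) / (2 * δ ^ 2) +
      (2 * max (x - θ) 0 - (2 + δ) * (2 * max (x - (θ + δ)) 0) +
      (1 + δ) * (2 * max (x - (θ + 2 * δ)) 0)) / (2 * δ ^ 2) * (y - x) +
      (2 + δ) / (2 * δ ^ 2) * (y - x) ^ 2 := by
    field_simp
  rw [h6] at h5
  linarith

theorem gq_cases {θ δ x : ℝ} (hδ : 0 < δ) :
    (x ≤ θ ∧ gq θ δ x = x ∧ gq' θ δ x = 1) ∨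
    (θ ≤ x ∧ x ≤ θ + δ ∧ gq θ δ x = x + (x - θ) ^ 2 / (2 * δ ^ 2) ∧
      gq' θ δ x = 1 + (x - θ) / δ ^ 2) ∨
    (θ + δ ≤ x ∧ x ≤ θ + 2 * δ ∧
      gq θ δ x = x + ((x - θ) ^ 2 - (2 + δ) * (x - (θ + δ)) ^ 2) / (2 * δ ^ 2) ∧
      gq' θ δ x = (1 + δ) * (θ + 2 * δ - x) / δ ^ 2) ∨
    (θ + 2 * δ ≤ x ∧ gq θ δ x = 1 + θ + 3 * δ / 2 ∧ gq' θ δ x = 0) := by
  unfold gq gq' sp
  rcases le_total x θ with h1 | h1
  · left
    rw [max_eq_right (by linarith : x - θ ≤ 0), max_eq_right (by linarith : x - (θ + δ) ≤ 0),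
      max_eq_right (by linarith : x - (θ + 2 * δ) ≤ 0)]
    refine ⟨h1, by ring, by ring⟩
  · rcases le_total x (θ + δ) with h2 | h2
    · right; left
      rw [max_eq_left (by linarith : 0 ≤ x - θ), max_eq_right (by linarith : x - (θ + δ) ≤ 0),
        max_eq_right (by linarith : x - (θ + 2 * δ) ≤ 0)]
      refine ⟨h1, h2, by ring, by field_simp; ring⟩
    · rcases le_total x (θ + 2 * δ) with h3 | h3
      · right; right; left
        rw [max_eq_left (by linarith : 0 ≤ x - θ), max_eq_left (by linarith : 0 ≤ x - (θ + δ)),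
          max_eq_right (by linarith : x - (θ + 2 * δ) ≤ 0)]
        refine ⟨h2, h3, by ring, by field_simp; ring⟩
      · right; right; right
        rw [max_eq_left (by linarith : 0 ≤ x - θ), max_eq_left (by linarith : 0 ≤ x - (θ + δ)),
          max_eq_left (by linarith : 0 ≤ x - (θ + 2 * δ))]
        refine ⟨h3, by field_simp; ring, by field_simp; ring⟩

theorem gq'_nonneg {θ δ x : ℝ} (hδ : 0 < δ) : 0 ≤ gq' θ δ x := by
  rcases gq_cases (θ := θ) (x := x) hδ with h | h | h | h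
  · rw [h.2.2]; norm_num
  · rw [h.2.2.2]
    have : 0 ≤ x - θ := by linarith [h.1]
    positivity
  · rw [h.2.2.2]
    have : 0 ≤ θ + 2 * δ - x := by linarith [h.2.1]
    positivity
  · rw [h.2.2]

theorem gq'_le {θ δ x : ℝ} (hδ : 0 < δ) : gq' θ δ x ≤ 1 + 1 / δ := by
  have h0 : 0 < 1 / δ := by positivity
  rcases gq_cases (θ := θ) (x := x) hδ with h | h | h | h
  · rw [h.2.2]; linarith
  · rw [h.2.2.2]
    have : (x - θ) / δ ^ 2 ≤ 1 / δ := by
      rw [div_le_div_iff₀ (by positivity) hδ]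
      have : x - θ ≤ δ := by linarith [h.2.1]
      nlinarith
    linarith
  · rw [h.2.2.2]
    rw [div_le_iff₀ (by positivity)]
    have h1 : θ + 2 * δ - x ≤ δ := by linarith [h.1]
    have h2 : (1 + 1 / δ) * δ ^ 2 = (1 + δ) * δ := by field_simp; ring
    rw [h2]
    exact mul_le_mul_of_nonneg_left h1 (by linarith)
  · rw [h.2.2]; linarith

theorem le_gq {θ δ x : ℝ} (hθ : 0 ≤ θ) (hδ : 0 < δ) (hδ1 : δ ≤ 1) (hx : x ≤ 1) :
    x ≤ gq θ δ x := by
  rcases gq_cases (θ := θ) (x := x) hδ with h | h | h | h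
  · rw [h.2.1]
  · rw [h.2.2.1]
    have : 0 ≤ (x - θ) ^ 2 / (2 * δ ^ 2) := by positivity
    linarith
  · rw [h.2.2.1]
    have h1 : 0 ≤ (x - θ) ^ 2 - (2 + δ) * (x - (θ + δ)) ^ 2 := by
      set v := x - (θ + δ) with hv
      have h2 : x - θ = v + δ := by rw [hv]; ring
      have hv0 : 0 ≤ v := by linarith [h.1]
      have hv1 : v ≤ δ := by linarith [h.2.1]
      rw [h2]
      have h3 : (v + δ) ^ 2 - (2 + δ) * v ^ 2 = δ ^ 2 + v * (2 * δ - (1 + δ) * v) := by ring
      rw [h3]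
      have h4 : (1 + δ) * v ≤ 2 * δ := by nlinarith
      have h5 := mul_nonneg hv0 (by linarith : 0 ≤ 2 * δ - (1 + δ) * v)
      nlinarith
    have h2 : 0 ≤ ((x - θ) ^ 2 - (2 + δ) * (x - (θ + δ)) ^ 2) / (2 * δ ^ 2) := by positivity
    linarith
  · rw [h.2.1]; linarith

theorem gq_le {θ δ x : ℝ} (hδ : 0 < δ) : gq θ δ x ≤ x + sp θ x / (2 * δ ^ 2) := by
  unfold gq
  have h1 : sp (θ + 2 * δ) x ≤ sp (θ + δ) x := by
    unfold sp
    exact pow_le_pow_left₀ (le_max_right _ _) (max_le_max (by linarith) le_rfl) 2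
  have h0 := sp_nonneg (θ + δ) x
  have h2 : sp θ x - (2 + δ) * sp (θ + δ) x + (1 + δ) * sp (θ + 2 * δ) x ≤ sp θ x := by
    have := mul_le_mul_of_nonneg_left h1 (by linarith : 0 ≤ 1 + δ)
    linarith
  have h3 := div_le_div_of_nonneg_right h2 (by positivity : 0 ≤ 2 * δ ^ 2)
  linarith

variable {V : Type*} [Fintype V] [DecidableEq V] {ι : Type*} [DecidableEq ι]

section Top

variable {β : V → ι} {n : ℕ} (hn : ∀ x, (blk β x).card = n) {g h : ℝ}

include hn

/-- Drift of a function with a second order upper bound. -/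
theorem gen_taylor_le (hg : 0 ≤ g) (hh : 0 < h) {f : ℝ → ℝ} {D L : ℝ} (hL : 0 ≤ L)
    {σ : Equiv.Perm V} (hσ : σ ∈ pres β) (x : V)
    (hf : ∀ y, f y ≤ f (Phi β n h σ x) + D * (y - Phi β n h σ x) +
      L * (y - Phi β n h σ x) ^ 2) :
    gen (brate β n g) (fun τ => f (Phi β n h τ x)) σ ≤
      D * gen (brate β n g) (fun τ => Phi β n h τ x) σ + g * (4 * L / h ^ 2) := by
  have hn0 := n_pos hn x
  rw [gen_apply, gen_apply, Finset.mul_sum]
  have h1 : ∀ p ∈ (Finset.univ : Finset (V × V)), brate β n g p *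
      (f (Phi β n h (σ * Equiv.swap p.1 p.2) x) - f (Phi β n h σ x)) ≤
      D * (brate β n g p *
        (Phi β n h (σ * Equiv.swap p.1 p.2) x - Phi β n h σ x)) +
      (if p ∈ blk β x ×ˢ blk β x then g / (n : ℝ) ^ 2 * (4 * L / h ^ 2) else 0) := by
    intro p _
    unfold brate
    by_cases hp : β p.1 = β p.2
    · rw [if_pos hp]
      by_cases hx : β p.1 = β x
      · rw [if_pos (Finset.mem_product.mpr ⟨mem_blk.mpr hx, mem_blk.mpr (by rw [← hp]; exact hx)⟩)]
        have h2 := hf (Phi β n h (σ * Equiv.swap p.1 p.2) x)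
        have h3 := Phi_jump (β := β) hn0 hh σ p.1 p.2 x
        have h4 : (Phi β n h (σ * Equiv.swap p.1 p.2) x - Phi β n h σ x) ^ 2 ≤ 4 / h ^ 2 := by
          have h5 : (4 : ℝ) / h ^ 2 = (2 / h) ^ 2 := by ring
          rw [h5]
          exact sq_le_sq' (by linarith [(abs_le.mp h3).1]) (abs_le.mp h3).2
        have h6 : 0 ≤ g / (n : ℝ) ^ 2 := by positivity
        have h4' := mul_le_mul_of_nonneg_left h4 hL
        have h4'' : L * (4 / h ^ 2) = 4 * L / h ^ 2 := by ring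
        have h7 : f (Phi β n h (σ * Equiv.swap p.1 p.2) x) - f (Phi β n h σ x) ≤
            D * (Phi β n h (σ * Equiv.swap p.1 p.2) x - Phi β n h σ x) + 4 * L / h ^ 2 := by
          linarith
        have h8 := mul_le_mul_of_nonneg_left h7 h6
        linarith
      · rw [Phi_out hσ hp hx]
        rw [sub_self, sub_self, mul_zero, mul_zero, zero_add]
        split_ifs
        · positivity
        · exact le_rfl
    · rw [if_neg hp, zero_mul, zero_mul, mul_zero, zero_add]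
      split_ifs
      · positivity
      · exact le_rfl
  refine (Finset.sum_le_sum h1).trans ?_
  rw [Finset.sum_add_distrib]
  refine add_le_add le_rfl (le_of_eq ?_)
  rw [← Finset.sum_filter, Finset.filter_mem_eq_inter, Finset.univ_inter, Finset.sum_const,
    Finset.card_product, hn, nsmul_eq_mul]
  push_cast
  field_simp

theorem move_gq_le {b θ δ : ℝ} (hg : 0 ≤ g) (hh : 0 < h) (hδ : 0 < δ) (hδ1 : δ ≤ 1)
    (hbθ : b + θ + 2 * δ ≤ 1) {σ : Equiv.Perm V} (hσ : σ ∈ pres β) (x : V) :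
    gen (brate β n g) (fun τ => gq θ δ (Phi β n h τ x)) σ +
        gq' θ δ (Phi β n h σ x) * (2 * b * g * dPhi β n h σ x) ≤
      16 / δ ^ 2 * g / h ^ 2 := by
  have h1 := gen_taylor_le hn hg hh (f := gq θ δ) (D := gq' θ δ (Phi β n h σ x))
    (L := (2 + δ) / (2 * δ ^ 2)) (by positivity) hσ x (fun y => gq_taylor hδ _ y)
  have h2 := gen_Phi_le hn hg hh hσ x
  set P := Phi β n h σ x with hP
  set d := dPhi β n h σ x with hd
  have hd0 : 0 ≤ d := dPhi_nonneg hn h σ x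
  have hq0 : 0 ≤ gq' θ δ P := gq'_nonneg hδ
  have hq1 : gq' θ δ P ≤ 1 + 1 / δ := gq'_le hδ
  have h3 : gq' θ δ P * gen (brate β n g) (fun τ => Phi β n h τ x) σ ≤
      gq' θ δ P * (g * (4 / h ^ 2 - 2 * (1 - P) * d)) :=
    mul_le_mul_of_nonneg_left h2 hq0
  have h4 : gq' θ δ P * ((2 * b - 2 * (1 - P)) * d) ≤ 0 := by
    rcases le_total (θ + 2 * δ) P with h | h
    · rcases gq_cases (θ := θ) (x := P) hδ with h' | h' | h' | h'
      · linarith [h'.1]
      · linarith [h'.2.1]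
      · rw [h'.2.2.2]
        have : P = θ + 2 * δ := le_antisymm h'.2.1 h
        rw [this, sub_self, mul_zero, zero_div, zero_mul]
      · rw [h'.2.2, zero_mul]
    · refine mul_nonpos_of_nonneg_of_nonpos hq0 (mul_nonpos_of_nonpos_of_nonneg ?_ hd0)
      linarith
  have h5 : gq' θ δ P * (g * (4 / h ^ 2)) + g * (4 * ((2 + δ) / (2 * δ ^ 2)) / h ^ 2) ≤
      16 / δ ^ 2 * g / h ^ 2 := by
    have h6 : 0 ≤ g / h ^ 2 := by positivity
    have h7 : gq' θ δ P * (g * (4 / h ^ 2)) + g * (4 * ((2 + δ) / (2 * δ ^ 2)) / h ^ 2) =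
        4 * (gq' θ δ P + (2 + δ) / (2 * δ ^ 2)) * (g / h ^ 2) := by ring
    have h8 : 16 / δ ^ 2 * g / h ^ 2 = 16 / δ ^ 2 * (g / h ^ 2) := by ring
    rw [h7, h8]
    refine mul_le_mul_of_nonneg_right ?_ h6
    have h9 : 1 + 1 / δ + (2 + δ) / (2 * δ ^ 2) ≤ 4 / δ ^ 2 := by
      rw [← sub_nonneg]
      have : 4 / δ ^ 2 - (1 + 1 / δ + (2 + δ) / (2 * δ ^ 2)) =
          (6 - 2 * δ ^ 2 - 3 * δ) / (2 * δ ^ 2) := by
        field_simp; ring
      rw [this]
      refine div_nonneg ?_ (by positivity)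
      nlinarith
    have h10 : 16 / δ ^ 2 = 4 * (4 / δ ^ 2) := by ring
    rw [h10]
    linarith
  have h6 := mul_le_mul_of_nonneg_left h4 hg
  nlinarith

/-- The parameter decreases with speed `2 b g` from `h₀` to `H`. -/
theorem top_phase2 {b θ δ : ℝ} (hg : 0 < g) (hb : 0 < b) (hθ : 0 ≤ θ) (hδ : 0 < δ) (hδ1 : δ ≤ 1)
    (hbθ : b + θ + 2 * δ ≤ 1) {h₀ H : ℝ} (hH : 0 < H) (hH0 : H ≤ h₀) {σ : Equiv.Perm V}
    (hσ : σ ∈ pres β) (x : V) :
    sg (brate β n g) ((h₀ - H) / (2 * b * g)) (fun τ => Phi β n H τ x) σ ≤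
      Phi β n h₀ σ x + sp θ (Phi β n h₀ σ x) / (2 * δ ^ 2) + 8 / (b * δ ^ 2) / H := by
  set T : ℝ := (h₀ - H) / (2 * b * g) with hT
  have hbg : 0 < 2 * b * g := by positivity
  have hT0 : 0 ≤ T := div_nonneg (by linarith) hbg.le
  set hs : ℝ → ℝ := fun s => h₀ - 2 * b * g * s with hhs
  have hs0 : hs 0 = h₀ := by simp [hhs]
  have hsT : hs T = H := by
    simp only [hhs, hT]
    field_simp
    ring
  have hs1 : ∀ s ∈ Set.Icc 0 T, H ≤ hs s := by
    intro s hs'
    rw [← hsT]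
    simp only [hhs]
    have := mul_le_mul_of_nonneg_left hs'.2 hbg.le
    linarith
  have hds : ∀ s, HasDerivAt hs (-(2 * b * g)) s := by
    intro s
    have := ((hasDerivAt_id s).const_mul (2 * b * g)).const_sub h₀
    exact this.congr_deriv (by ring)
  have hd : ∀ s τ, HasDerivAt (fun u => Phi β n (hs u) τ x) (2 * b * g * dPhi β n (hs s) τ x) s := by
    intro s τ
    have h1 := (Phi_hasDerivAt β n (hs s) τ x).comp s (hds s)
    exact h1.congr_deriv (by ring)
  set C : ℝ := 8 / (b * δ ^ 2) with hC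
  have hC0 : 0 < C := by positivity
  set F : ℝ → Fn V := fun s τ => gq θ δ (Phi β n (hs s) τ x) + -(C / hs s) with hF
  set F' : ℝ → Fn V := fun s τ => gq' θ δ (Phi β n (hs s) τ x) *
    (2 * b * g * dPhi β n (hs s) τ x) + -(C * (2 * b * g) / hs s ^ 2) with hF'
  have hFd : ∀ s ∈ Set.Icc 0 T, ∀ τ, HasDerivAt (fun u => F u τ) (F' s τ) s := by
    intro s hs' τ
    have hpos : 0 < hs s := lt_of_lt_of_le hH (hs1 s hs')
    have h1 := (gq_hasDerivAt θ δ (Phi β n (hs s) τ x)).comp s (hd s τ)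
    have h2 : HasDerivAt (fun u => -(C / hs u)) (-(C * (2 * b * g) / hs s ^ 2)) s := by
      have h3 := ((hasDerivAt_const s C).div (hds s) hpos.ne').neg
      refine h3.congr_deriv ?_
      field_simp
      ring
    exact h1.add h2
  have hc := brate_nonneg (β := β) (n := n) hg.le
  have hG := stab_pres β n g
  have h1 := move_lin hc hG (κ := 0) hT0 hFd (by
    intro s hs' τ hτ
    have hpos : 0 < hs s := lt_of_lt_of_le hH (hs1 s hs')
    have h2 : gen (brate β n g) (F s) τ =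
        gen (brate β n g) (fun τ => gq θ δ (Phi β n (hs s) τ x)) τ := by
      rw [gen_apply, gen_apply]
      refine Finset.sum_congr rfl fun p _ => ?_
      simp only [hF]
      ring
    rw [h2]
    have h3 := move_gq_le hn hg.le hpos hδ hδ1 hbθ hτ x
    simp only [hF']
    have h4 : C * (2 * b * g) / hs s ^ 2 = 16 / δ ^ 2 * g / hs s ^ 2 := by
      rw [hC]; field_simp; norm_num
    rw [h4]
    linarith) hσ
  have h2 : sg (brate β n g) T (F T) σ =
      sg (brate β n g) T (fun τ => gq θ δ (Phi β n H τ x)) σ + -(C / H) := by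
    have h3 : F T = (fun τ => gq θ δ (Phi β n H τ x)) + fun _ => -(C / H) := by
      funext τ
      simp only [hF, hsT, Pi.add_apply]
    rw [h3, sg_add, sg_const]
  have h3 : F 0 σ = gq θ δ (Phi β n h₀ σ x) + -(C / h₀) := by simp only [hF, hs0]
  rw [h2, h3, zero_mul, add_zero] at h1
  have h4 : sg (brate β n g) T (fun τ => Phi β n H τ x) σ ≤
      sg (brate β n g) T (fun τ => gq θ δ (Phi β n H τ x)) σ :=
    sg_mono_on hc hG (fun τ _ => le_gq hθ hδ hδ1 (Phi_le_one hn hH.le τ x)) hT0 σ hσ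
  have h5 := gq_le (θ := θ) (x := Phi β n h₀ σ x) hδ
  have h6 : 0 ≤ C / h₀ := by
    have : 0 < h₀ := lt_of_lt_of_le hH hH0
    positivity
  linarith

theorem top_level2 {b θ δ : ℝ} (hg : 0 < g) (hb : 0 < b) (hθ : 0 ≤ θ) (hδ : 0 < δ) (hδ1 : δ ≤ 1)
    (hbθ : b + θ + 2 * δ ≤ 1) {h₀ H s : ℝ} (hH : 0 < H) (hH0 : H ≤ h₀)
    (hs : h₀ - H ≤ 2 * b * g * s) {σ : Equiv.Perm V} (hσ : σ ∈ pres β) (x : V) :
    sg (brate β n g) s (fun τ => Phi β n H τ x) σ ≤
      Phi β n h₀ σ x + sp θ (Phi β n h₀ σ x) / (2 * δ ^ 2) + 8 / (b * δ ^ 2) / H +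
        10 / δ ^ 2 * (g * s) / h₀ ^ 2 := by
  set T : ℝ := (h₀ - H) / (2 * b * g) with hT
  have hbg : 0 < 2 * b * g := by positivity
  have hT0 : 0 ≤ T := div_nonneg (by linarith) hbg.le
  have hTs : T ≤ s := by
    rw [hT, div_le_iff₀ hbg]; linarith
  have hh₀ : 0 < h₀ := lt_of_lt_of_le hH hH0
  have hc := brate_nonneg (β := β) (n := n) hg.le
  have hG := stab_pres β n g
  have e1 : sg (brate β n g) s = sg (brate β n g) (s - T) * sg (brate β n g) T := by
    rw [← sg_add_time]; congr 1; ring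
  have h1 : ∀ τ ∈ pres β, sg (brate β n g) T (fun τ => Phi β n H τ x) τ ≤
      (((((fun τ => Phi β n h₀ τ x) : Fn V)) + (1 / (2 * δ ^ 2)) •
        ((fun τ => sp θ (Phi β n h₀ τ x)) : Fn V)) +
        ((fun _ => 8 / (b * δ ^ 2) / H) : Fn V)) τ := by
    intro τ hτ
    refine (top_phase2 hn hg hb hθ hδ hδ1 hbθ hH hH0 hτ x).trans (le_of_eq ?_)
    simp only [Pi.add_apply, Pi.smul_apply, smul_eq_mul]
    ring
  have h2 := sg_mono_on hc hG h1 (by linarith : 0 ≤ s - T) σ hσ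
  rw [sg_add, sg_add, sg_const, sg_smul] at h2
  rw [e1]
  refine h2.trans ?_
  have h3 := sg_lin_upper hc hG (fun τ hτ => gen_Phi_simple hn hg.le hh₀ hτ x)
    (by linarith : 0 ≤ s - T) hσ
  have h4 := sg_lin_upper hc hG (fun τ hτ => gen_sp_simple hn hg.le hh₀ hθ hτ x)
    (by linarith : 0 ≤ s - T) hσ
  have h5 := mul_le_mul_of_nonneg_left h4 (by positivity : 0 ≤ 1 / (2 * δ ^ 2))
  set X : ℝ := g * s / h₀ ^ 2 with hX
  have hTs' : g * (4 / h₀ ^ 2) * (s - T) ≤ 4 * X := by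
    have h6 : g * (4 / h₀ ^ 2) * (s - T) = (4 * g / h₀ ^ 2) * (s - T) := by ring
    have h7 : 4 * X = (4 * g / h₀ ^ 2) * s := by rw [hX]; ring
    rw [h6, h7]
    exact mul_le_mul_of_nonneg_left (by linarith) (by positivity)
  have hTs2 : g * (12 / h₀ ^ 2) * (s - T) ≤ 12 * X := by
    have h6 : g * (12 / h₀ ^ 2) * (s - T) = 3 * (g * (4 / h₀ ^ 2) * (s - T)) := by ring
    rw [h6]; linarith
  have h6 : 1 / (2 * δ ^ 2) * (g * (12 / h₀ ^ 2) * (s - T)) ≤ 6 / δ ^ 2 * X := by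
    have h7 := mul_le_mul_of_nonneg_left hTs2 (by positivity : 0 ≤ 1 / (2 * δ ^ 2))
    have h8 : 1 / (2 * δ ^ 2) * (12 * X) = 6 / δ ^ 2 * X := by field_simp; ring
    linarith
  have hX0 : 0 ≤ X := by
    have : 0 ≤ s := by linarith
    positivity
  have h7 : 4 * X ≤ 4 / δ ^ 2 * X := by
    refine mul_le_mul_of_nonneg_right ?_ hX0
    rw [le_div_iff₀ (by positivity)]
    nlinarith
  have h8 : 10 / δ ^ 2 * (g * s) / h₀ ^ 2 = 4 / δ ^ 2 * X + 6 / δ ^ 2 * X := by
    rw [hX]; ring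
  have h9 : sp θ (Phi β n h₀ σ x) / (2 * δ ^ 2) =
      1 / (2 * δ ^ 2) * sp θ (Phi β n h₀ σ x) := by ring
  rw [h8, h9]
  have h10 : 1 / (2 * δ ^ 2) * (sp θ (Phi β n h₀ σ x) + g * (12 / h₀ ^ 2) * (s - T)) =
      1 / (2 * δ ^ 2) * sp θ (Phi β n h₀ σ x) +
      1 / (2 * δ ^ 2) * (g * (12 / h₀ ^ 2) * (s - T)) := by ring
  rw [h10] at h5
  linarith

end Top

end Pool.Agent.Stirring.Hier
end

section

/-! The mass which is not in finite cycles is in macroscopic cycles. -/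

open Finset Filter Topology

set_option linter.unusedSectionVars false

namespace Pool.Agent.Stirring.Hier

variable {N K : ℕ} {g : ℕ → ℝ} {t c ρ : ℝ}

/-- The Laplace functional at a fixed scale, during the second half of the last level. -/
theorem top_bound (hN : 2 ≤ N) (hg : ∀ j, 0 < g j) (hc : 0 < c) (hρN : ρ < N)
    (hcg : ∀ j, c * g j ≤ g (j + 1)) (hρ : ∀ j, g (j + 1) ≤ ρ * g j)
    (hs : Summable fun j => 1 / g j) (ht : 0 < t) (hf1 : finf N g t < 1) :
    ∃ C : ℝ, 0 < C ∧ ∀ H : ℝ, 1 ≤ H → ∀ η : ℝ, 0 < η → ∀ᶠ K in atTop, ∀ s ∈ Set.Icc (t / 2) t,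
      EL N (K + 1) g t K (sg (top N (K + 1) g) s (Ps N (K + 1) H)) ≤
        finf N g t + η + C / H := by
  have hN0 : 0 < N := by omega
  have hNr : (2 : ℝ) ≤ N := by exact_mod_cast hN
  have hNp : (0 : ℝ) < N := by linarith
  have hf0 := finf_nonneg hN hg hρN hρ ht.le
  have hgn : ∀ j, 0 ≤ g j := fun j => (hg j).le
  have hρ0 : 0 < ρ := by
    have h1 := hg 1
    have h2 := hρ 0
    have h3 := hg 0
    by_contra h4
    push Not at h4
    nlinarith
  set c' : ℝ := min c 1 with hc'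
  have hc0 : 0 < c' := lt_min hc one_pos
  have hc1 : c' ≤ 1 := min_le_right _ _
  have hcg' : ∀ j, c' * g j ≤ g (j + 1) := fun j =>
    (mul_le_mul_of_nonneg_right (min_le_left _ _) (hgn j)).trans (hcg j)
  set f := finf N g t with hf
  set ω : ℝ := 1 - f with hω
  have hω0 : 0 < ω := by rw [hω]; linarith
  have hω1 : ω ≤ 1 := by rw [hω]; linarith
  set m : ℝ := f + ω / 4 with hm
  have hm0 : 0 < m := by rw [hm]; linarith
  set δ : ℝ := ω / 8 with hδdef
  have hδ : 0 < δ := by positivity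
  have hδ1 : δ ≤ 1 := by rw [hδdef]; linarith
  set b : ℝ := ω / 4 with hbdef
  have hb : 0 < b := by positivity
  have hbθ : b + m + 2 * δ ≤ 1 := by rw [hbdef, hm, hδdef]; linarith
  obtain ⟨l, q, hl, hl0, hq0, hq1, hstep⟩ := step_params (N := N) hN hc0 hc1 (m := m)
    (Mb := f + ω / 8) (l₀ := b * c' / N) hm0 (by rw [hm]; linarith) (by linarith)
    (by rw [hm]; linarith) (by positivity)
  have hMt := Ps_tendsto hN hg hρN hρ ht hl
  have hMev : ∀ᶠ K in atTop, MM N g l t K < f + ω / 8 := hMt.eventually_lt_const (by linarith)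
  have hWt : Tendsto (WW N g m l t) atTop (𝓝 0) :=
    WW_tendsto hg hs ht hq0 hq1 (hstep g hg hcg' t ht) (hMev.mono fun K hK => hK.le)
  have hgt := g_tendsto hg hs
  refine ⟨8 / (b * δ ^ 2), by positivity, fun H hH η hη => ?_⟩
  have hHp : 0 < H := by linarith
  have e1 : ∀ᶠ K in atTop, MM N g l t K < f + η / 3 := hMt.eventually_lt_const (by linarith)
  have e2 : ∀ᶠ K in atTop, WW N g m l t K < η / 3 * (2 * δ ^ 2) :=
    hWt.eventually_lt_const (by positivity)
  have e3 : ∀ᶠ K in atTop, H / (N * l * t) ≤ g K := hgt.eventually_ge_atTop _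
  have e4 : ∀ᶠ K in atTop, 10 / δ ^ 2 * ρ / (N ^ 2 * l ^ 2 * t) / (η / 3) ≤ g K :=
    hgt.eventually_ge_atTop _
  filter_upwards [e1, e2, e3, e4, hMev] with K h1 h2 h3 h4 h5 s hs'
  have hgK := hg K
  have hgK1 := hg (K + 1)
  set h : ℝ := l * (t * g K) with hh
  have hh0 : 0 < h := by positivity
  have hHh : H ≤ N * h := by
    rw [div_le_iff₀ (by positivity)] at h3
    rw [hh]; linarith
  have hs0 : 0 < s := by linarith [hs'.1]
  have hT : N * h - H ≤ 2 * b * g (K + 1) * s := by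
    have h6 : N * l ≤ b * c' := by
      rw [le_div_iff₀ hNp] at hl0
      linarith
    have h7 : N * h ≤ b * g (K + 1) * t := by
      calc N * h = (N * l) * (t * g K) := by rw [hh]; ring
        _ ≤ (b * c') * (t * g K) := mul_le_mul_of_nonneg_right h6 (by positivity)
        _ = b * t * (c' * g K) := by ring
        _ ≤ b * t * g (K + 1) := mul_le_mul_of_nonneg_left (hcg' K) (by positivity)
        _ = _ := by ring
    have h8 : b * g (K + 1) * t ≤ 2 * b * g (K + 1) * s := by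
      have h9 := mul_le_mul_of_nonneg_left hs'.1 (by positivity : 0 ≤ 2 * b * g (K + 1))
      linarith
    linarith
  have x₀ : Word N (K + 1) := fun _ => ⟨0, hN0⟩
  have eP : ∀ h : ℝ, (fun τ => Phi (lab N (K + 1) (K + 1)) (N ^ (K + 1)) h τ x₀) =
      Ps N (K + 1) h := fun h => by funext τ; exact Phi_top h τ x₀
  have hcard : ∀ x : Word N (K + 1), (blk (lab N (K + 1) (K + 1)) x).card = N ^ (K + 1) :=
    fun x => card_top x
  have key : ∀ σ ∈ pres (lab N (K + 1) K), sg (top N (K + 1) g) s (Ps N (K + 1) H) σ ≤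
      (Ps N (K + 1) (N * h) σ + (1 / (2 * δ ^ 2)) * sp m (Ps N (K + 1) (N * h) σ)) +
      (8 / (b * δ ^ 2) / H + 10 / δ ^ 2 * (g (K + 1) * s) / (N * h) ^ 2) := by
    intro σ _
    have h6 := top_level2 hcard hgK1 hb hm0.le hδ hδ1 hbθ hHp hHh hT (pres_top σ) x₀
    rw [eP, Phi_top] at h6
    refine h6.trans (le_of_eq ?_)
    ring
  refine (EL_mono hgn ht.le K key).trans ?_
  rw [EL_add, EL_add, EL_mul, EL_const]
  have hMK : EL N (K + 1) g t K (fun σ => Ps N (K + 1) (N * h) σ) = MM N g l t K :=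
    EL_Ps_avg hgn ht.le hN0 h
  have hW0 := WW_nonneg (N := N) hgn ht.le m l K
  have hM0 := MM_nonneg (N := N) hgn ht.le l K
  have hMm : MM N g l t K ≤ m := by rw [hm]; linarith
  have hWK : EL N (K + 1) g t K (fun σ => sp m (Ps N (K + 1) (N * h) σ)) ≤ WW N g m l t K := by
    refine (EL_sp_avg' hgn ht.le hN0 hm0 hW0 (le_refl (MM N g l t K)) le_rfl).trans ?_
    have h6 : MM N g l t K / m ≤ 1 := by rw [div_le_one hm0]; exact hMm
    have h7 : 1 / (N : ℝ) ≤ 1 := by rw [div_le_one hNp]; linarith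
    have h8 : 1 / (N : ℝ) + (1 - 1 / N) * (MM N g l t K / m) ≤ 1 := by
      have := mul_le_mul_of_nonneg_left h6 (by linarith : 0 ≤ 1 - 1 / (N : ℝ))
      linarith
    have := mul_le_mul_of_nonneg_right h8 hW0
    linarith
  rw [hMK]
  have h6 : 1 / (2 * δ ^ 2) * EL N (K + 1) g t K (fun σ => sp m (Ps N (K + 1) (N * h) σ)) ≤
      η / 3 := by
    have h7 := mul_le_mul_of_nonneg_left (hWK.trans h2.le) (by positivity : 0 ≤ 1 / (2 * δ ^ 2))
    refine h7.trans (le_of_eq ?_)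
    field_simp
  have h7 : 10 / δ ^ 2 * (g (K + 1) * s) / (N * h) ^ 2 ≤ η / 3 := by
    have h8 : g (K + 1) * s ≤ ρ * g K * t :=
      mul_le_mul (hρ K) hs'.2 hs0.le (by positivity)
    have h9 : 10 / δ ^ 2 * (g (K + 1) * s) / (N * h) ^ 2 ≤
        10 / δ ^ 2 * (ρ * g K * t) / (N * h) ^ 2 := by
      refine div_le_div_of_nonneg_right ?_ (by positivity)
      exact mul_le_mul_of_nonneg_left h8 (by positivity)
    refine h9.trans ?_
    have h10 : 10 / δ ^ 2 * (ρ * g K * t) / (N * h) ^ 2 =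
        10 / δ ^ 2 * ρ / (N ^ 2 * l ^ 2 * t) / g K := by
      rw [hh]; field_simp
    rw [h10, div_le_iff₀ hgK]
    rw [div_le_iff₀ (by positivity)] at h4
    linarith
  linarith

/-- Few vertices are in cycles which are neither finite nor macroscopic. -/
theorem macro_bound (hN : 2 ≤ N) (hg : ∀ j, 0 < g j) (hc : 0 < c) (hρN : ρ < N)
    (hcg : ∀ j, c * g j ≤ g (j + 1)) (hρ : ∀ j, g (j + 1) ≤ ρ * g j)
    (hs : Summable fun j => 1 / g j) (ht : 0 < t) (hf1 : finf N g t < 1) {η : ℝ} (hη : 0 < η) :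
    ∃ ε₀ : ℝ, 0 < ε₀ ∧ ∀ ε : ℝ, 0 < ε → ε ≤ ε₀ → ∀ᶠ K in atTop, ∀ s ∈ Set.Icc (t / 2) t,
      EL N (K + 1) g t K (sg (top N (K + 1) g) s
        (av N (K + 1) (below (ε * (N : ℝ) ^ (K + 1))))) ≤ finf N g t + η := by
  have hN0 : 0 < N := by omega
  have hNp : (0 : ℝ) < N := by exact_mod_cast hN0
  have hf0 := finf_nonneg hN hg hρN hρ ht.le
  have hgn : ∀ j, 0 ≤ g j := fun j => (hg j).le
  obtain ⟨C, hC, hb⟩ := top_bound hN hg hc hρN hcg hρ hs ht hf1
  set H : ℝ := max 1 (4 * C / η) with hH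
  have hH1 : 1 ≤ H := le_max_left _ _
  have hHp : 0 < H := by linarith
  have hCH : C / H ≤ η / 4 := by
    rw [div_le_iff₀ hHp]
    have h1 : 4 * C / η ≤ H := le_max_right _ _
    rw [div_le_iff₀ hη] at h1
    linarith
  set ε₀ : ℝ := min (1 / (2 * H)) (η / (4 * H * (1 + η))) with hε₀
  have hε₀0 : 0 < ε₀ := lt_min (by positivity) (by positivity)
  refine ⟨ε₀, hε₀0, fun ε hε hεε => ?_⟩
  filter_upwards [hb H hH1 (η / 4) (by positivity)] with K hK s hs'
  have h1 := hK s hs'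
  have hs0 : 0 ≤ s := by linarith [hs'.1]
  have hy : H * ε ≤ 1 / 2 := by
    have h2 : ε ≤ 1 / (2 * H) := hεε.trans (min_le_left _ _)
    rw [le_div_iff₀ (by positivity)] at h2
    linarith
  have hy2 : 2 * (H * ε) * (1 + η) ≤ η / 2 := by
    have h2 : ε ≤ η / (4 * H * (1 + η)) := hεε.trans (min_le_right _ _)
    rw [le_div_iff₀ (by positivity)] at h2
    linarith
  have hexp : Real.exp (H * ε) ≤ 1 + 2 * (H * ε) :=
    exp_le_one_add (by positivity) hy le_rfl
  have hn : (0 : ℝ) < (N : ℝ) ^ (K + 1) := by positivity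
  have h2 : ∀ σ, av N (K + 1) (below (ε * (N : ℝ) ^ (K + 1))) σ ≤
      Real.exp (H * ε) * Ps N (K + 1) H σ := by
    intro σ
    unfold Ps
    rw [← av_mul]
    refine av_mono (fun l => ?_) σ
    have h3 := below_le_ex (h := H / (N : ℝ) ^ (K + 1)) (by positivity)
      (ε * (N : ℝ) ^ (K + 1)) l
    have h4 : H / (N : ℝ) ^ (K + 1) * (ε * (N : ℝ) ^ (K + 1)) = H * ε := by
      field_simp
    rw [h4] at h3
    have h5 := mul_le_mul_of_nonneg_left h3 (Real.exp_pos (H * ε)).le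
    rw [← mul_assoc, ← Real.exp_add, add_neg_cancel, Real.exp_zero, one_mul] at h5
    exact h5
  have h3 : ∀ σ ∈ pres (lab N (K + 1) K), sg (top N (K + 1) g) s
      (av N (K + 1) (below (ε * (N : ℝ) ^ (K + 1)))) σ ≤
      Real.exp (H * ε) * sg (top N (K + 1) g) s (Ps N (K + 1) H) σ := by
    intro σ _
    have h4 := sg_mono_on (top_nonneg (N := N) (K := K + 1) hgn) (stab_univ _)
      (g := Real.exp (H * ε) • (Ps N (K + 1) H)) (fun τ _ => h2 τ) hs0 σ (Set.mem_univ _)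
    rwa [sg_smul] at h4
  refine (EL_mono hgn ht.le K h3).trans ?_
  rw [EL_mul]
  have h4 : EL N (K + 1) g t K (fun σ => sg (top N (K + 1) g) s (Ps N (K + 1) H) σ) ≤
      finf N g t + η / 2 := by
    refine h1.trans ?_
    linarith
  have hf1' : finf N g t + η / 2 ≤ 1 + η := by linarith
  have h5 : 0 ≤ finf N g t + η / 2 := by linarith
  calc Real.exp (H * ε) * _ ≤ Real.exp (H * ε) * (finf N g t + η / 2) :=
        mul_le_mul_of_nonneg_left h4 (Real.exp_pos _).le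
    _ ≤ (1 + 2 * (H * ε)) * (finf N g t + η / 2) := mul_le_mul_of_nonneg_right hexp h5
    _ = finf N g t + η / 2 + 2 * (H * ε) * (finf N g t + η / 2) := by ring
    _ ≤ finf N g t + η / 2 + 2 * (H * ε) * (1 + η) := by
        have := mul_le_mul_of_nonneg_left hf1' (by positivity : 0 ≤ 2 * (H * ε))
        linarith
    _ ≤ _ := by linarith

/-- Convergence of the fraction of vertices in cycles which are not macroscopic. -/
theorem uu_macro (hN : 2 ≤ N) (hg : ∀ j, 0 < g j) (hc : 0 < c) (hρN : ρ < N)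
    (hcg : ∀ j, c * g j ≤ g (j + 1)) (hρ : ∀ j, g (j + 1) ≤ ρ * g j)
    (hs : Summable fun j => 1 / g j) (ht : 0 ≤ t) {η : ℝ} (hη : 0 < η) :
    ∃ ε₀ : ℝ, 0 < ε₀ ∧ ∀ ε : ℝ, 0 < ε → ε ≤ ε₀ → ∀ᶠ K in atTop,
      |uu N g t K (ε * (N : ℝ) ^ K) - finf N g t| ≤ η := by
  have hN0 : 0 < N := by omega
  have hNr : (2 : ℝ) ≤ N := by exact_mod_cast hN
  have hgn : ∀ j, 0 ≤ g j := fun j => (hg j).le
  -- the upper bound
  have hup : ∃ ε₀ : ℝ, 0 < ε₀ ∧ ∀ ε : ℝ, 0 < ε → ε ≤ ε₀ → ∀ᶠ K in atTop,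
      uu N g t K (ε * (N : ℝ) ^ K) ≤ finf N g t + η := by
    rcases (finf_le_one hN hg hρN hρ ht).eq_or_lt with h1 | h1
    · refine ⟨1, one_pos, fun ε _ _ => Eventually.of_forall fun K => ?_⟩
      have := uu_le_one (N := N) hN0 hgn ht K (ε * (N : ℝ) ^ K)
      linarith
    · have ht0 : 0 < t := by
        rcases ht.eq_or_lt with h | h
        · rw [← h, finf_zero hN hg hρN hρ] at h1
          exact absurd h1 (lt_irrefl _)
        · exact h
      obtain ⟨ε₀, hε₀, hb⟩ := macro_bound hN hg hc hρN hcg hρ hs ht0 h1 hη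
      refine ⟨ε₀, hε₀, fun ε hε hεε => ?_⟩
      obtain ⟨K₀, hK₀⟩ := eventually_atTop.mp (hb ε hε hεε)
      filter_upwards [eventually_ge_atTop (K₀ + 1)] with K hK
      obtain ⟨k, rfl⟩ : ∃ k, K = k + 1 := ⟨K - 1, by omega⟩
      have h2 := hK₀ k (by omega) t ⟨by linarith, le_rfl⟩
      unfold uu
      rw [EL_top]
      exact h2
  obtain ⟨ε₀, hε₀, hb⟩ := hup
  refine ⟨ε₀, hε₀, fun ε hε hεε => ?_⟩
  obtain ⟨m, hm⟩ := (Metric.tendsto_atTop.mp (ul_tendsto_finf hN hg hρN hρ ht) (η / 2)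
    (by positivity))
  have hm1 := hm m le_rfl
  rw [Real.dist_eq] at hm1
  have h1 : ∀ᶠ K in atTop, |uu N g t K m - ul N g t m| < η / 2 := by
    have := (Metric.tendsto_atTop.mp (ul_tendsto hN hg hρN hρ ht m) (η / 2) (by positivity))
    obtain ⟨K₀, hK₀⟩ := this
    filter_upwards [eventually_ge_atTop K₀] with K hK
    have := hK₀ K hK
    rwa [Real.dist_eq] at this
  have h2 : ∀ᶠ K : ℕ in atTop, (m : ℝ) / ε ≤ (N : ℝ) ^ K :=
    (tendsto_pow_atTop_atTop_of_one_lt (by linarith)).eventually_ge_atTop _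
  filter_upwards [hb ε hε hεε, h1, h2] with K h3 h4 h5
  rw [div_le_iff₀ hε] at h5
  have h6 := uu_mono (N := N) (g := g) (t := t) hgn ht K (a := (m : ℝ))
    (b := ε * (N : ℝ) ^ K) (by linarith)
  rw [abs_le]
  have h7 := abs_lt.mp h4
  have h8 := abs_lt.mp hm1
  constructor
  · linarith [h7.1, h8.1]
  · linarith

/-- Convergence of the fraction of vertices in long cycles. -/
theorem uu_long (hN : 2 ≤ N) (hg : ∀ j, 0 < g j) (hρN : ρ < N)
    (hρ : ∀ j, g (j + 1) ≤ ρ * g j) (ht : 0 ≤ t) {η : ℝ} (hη : 0 < η) :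
    ∃ m₀ : ℕ, ∀ m : ℕ, m₀ ≤ m → ∀ᶠ K in atTop, |uu N g t K m - finf N g t| ≤ η := by
  obtain ⟨m₀, hm₀⟩ := (Metric.tendsto_atTop.mp (ul_tendsto_finf hN hg hρN hρ ht) (η / 2)
    (by positivity))
  refine ⟨m₀, fun m hm => ?_⟩
  have h1 := hm₀ m hm
  obtain ⟨K₀, hK₀⟩ := (Metric.tendsto_atTop.mp (ul_tendsto hN hg hρN hρ ht m) (η / 2)
    (by positivity))
  filter_upwards [eventually_ge_atTop K₀] with K hK
  have h2 := hK₀ K hK
  rw [Real.dist_eq] at h1 h2
  have h3 : uu N g t K m - finf N g t = (uu N g t K m - ul N g t m) +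
      (ul N g t m - finf N g t) := by ring
  rw [h3]
  refine (abs_add_le _ _).trans ?_
  linarith

end Pool.Agent.Stirring.Hier
end

section

/-! Arbitrarily many macroscopic cycles at every time at which there is one. -/

open Finset Filter Topology

set_option linter.unusedSectionVars false

namespace Pool.Agent.Stirring.Hier

variable {N K : ℕ} {g : ℕ → ℝ} {t c ρ : ℝ}

theorem Wn_top (a : ℝ) (σ : Equiv.Perm (Word N K)) (x : Word N K) :
    Wn (lab N K K) (N ^ K) a σ x = av N K (wind a) σ := by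
  unfold Wn av
  rw [blk_top]
  push_cast
  rfl

theorem gen_av_wind_ge (hN : 0 < N) (hg : ∀ j, 0 ≤ g j) {ε : ℝ} (hε : 0 < ε) (hε1 : ε ≤ 1)
    (h4 : 4 ≤ ε * (N : ℝ) ^ K) (σ : Equiv.Perm (Word N K)) :
    g K * ε ^ 2 / 4 * (1 - av N K (below (ε * (N : ℝ) ^ K)) σ) -
      3 * g K * ε * av N K (wind (ε * (N : ℝ) ^ K)) σ ≤
      gen (top N K g) (av N K (wind (ε * (N : ℝ) ^ K))) σ := by
  have hNr : (0 : ℝ) < N := by exact_mod_cast hN
  have hn : (0 : ℝ) < (N : ℝ) ^ K := by positivity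
  set n : ℝ := (N : ℝ) ^ K with hndef
  rw [gen_av, le_div_iff₀ hn]
  have h1 : ∑ x : Word N K, g K / n ^ 2 * ((ε * n) ^ 2 / 4 * (1 - below (ε * n) (cl σ x)) -
      3 * (ε * n) * n * wind (ε * n) (cl σ x)) ≤
      ∑ x, gen (top N K g) (fun τ => wind (ε * n) (cl τ x)) σ := by
    refine Finset.sum_le_sum fun x _ => ?_
    have h2 := gen_wind_ge card_top (hg K) h4 (by
      push_cast
      rw [← hndef]
      nlinarith) (pres_top σ) x
    push_cast at h2
    rw [← hndef] at h2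
    exact h2
  refine le_trans (le_of_eq ?_) h1
  rw [← Finset.mul_sum, Finset.sum_sub_distrib, ← Finset.mul_sum, ← Finset.mul_sum,
    Finset.sum_sub_distrib, Finset.sum_const, Finset.card_univ, nsmul_eq_mul, card_word,
    ← hndef]
  unfold av
  rw [← hndef]
  field_simp

theorem EL_sg_hasDerivAt (k : ℕ) (c : Word N K × Word N K → ℝ) (f : Fn (Word N K)) (s : ℝ) :
    HasDerivAt (fun u => EL N K g t k (sg c u f)) (EL N K g t k (sg c s (gen c f))) s := by
  have h1 : HasDerivAt (fun u => sg c u f) (sg c s (gen c f)) s :=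
    hasDerivAt_pi.mpr fun σ => sg_hasDerivAt c f σ s
  have h2 := (((ContinuousLinearMap.proj (R := ℝ)
    (φ := fun _ : Equiv.Perm (Word N K) => ℝ) 1).comp
    (sg (lev N K g k) t)).hasFDerivAt (x := sg c s f)).comp_hasDerivAt s h1
  exact h2

/-- The mass of a macroscopic window. -/
theorem wind_bound (hN : 2 ≤ N) (hg : ∀ j, 0 < g j) (hc : 0 < c) (hρN : ρ < N)
    (hcg : ∀ j, c * g j ≤ g (j + 1)) (hρ : ∀ j, g (j + 1) ≤ ρ * g j)
    (hs : Summable fun j => 1 / g j) (ht : 0 < t) (hf1 : finf N g t < 1) :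
    ∃ ε₀ : ℝ, 0 < ε₀ ∧ ∀ ε : ℝ, 0 < ε → ε ≤ ε₀ → ∀ᶠ K in atTop,
      ε * (1 - finf N g t) / 48 ≤ EL N (K + 1) g t (K + 1)
        (av N (K + 1) (wind (ε * (N : ℝ) ^ (K + 1)))) := by
  have hN0 : 0 < N := by omega
  have hNr : (2 : ℝ) ≤ N := by exact_mod_cast hN
  have hgn : ∀ j, 0 ≤ g j := fun j => (hg j).le
  set μ : ℝ := 1 - finf N g t with hμ
  have hμ0 : 0 < μ := by rw [hμ]; linarith
  obtain ⟨ε₀, hε₀, hb⟩ := macro_bound hN hg hc hρN hcg hρ hs ht hf1 (η := μ / 2)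
    (by positivity)
  refine ⟨min ε₀ 1, lt_min hε₀ one_pos, fun ε hε hεε => ?_⟩
  have hε1 : ε ≤ 1 := hεε.trans (min_le_right _ _)
  have hgt := (g_tendsto hg hs).comp (tendsto_add_atTop_nat 1)
  have e1 : ∀ᶠ K : ℕ in atTop, 2 / (3 * ε * t) ≤ g (K + 1) := hgt.eventually_ge_atTop _
  have e2 : ∀ᶠ K : ℕ in atTop, 4 / ε ≤ (N : ℝ) ^ (K + 1) :=
    ((tendsto_pow_atTop_atTop_of_one_lt (by linarith : (1 : ℝ) < N)).comp
      (tendsto_add_atTop_nat 1)).eventually_ge_atTop _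
  filter_upwards [hb ε hε (hεε.trans (min_le_left _ _)), e1, e2] with K h1 h2 h3
  have hgK := hg (K + 1)
  have h4 : 4 ≤ ε * (N : ℝ) ^ (K + 1) := by
    rw [div_le_iff₀ hε] at h3
    linarith
  set a : ℝ := ε * (N : ℝ) ^ (K + 1) with ha
  have ha0 : 0 ≤ a := by linarith
  set G : ℝ := g (K + 1) with hG
  set A : ℝ := G * ε ^ 2 / 4 * (μ / 2) with hA
  set B : ℝ := 3 * G * ε with hB
  have hB0 : 0 < B := by positivity
  have h5 := gron_lower_Icc (a := A) hB0 (by linarith : t / 2 ≤ t)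
    (fun s _ => EL_sg_hasDerivAt (g := g) (t := t) K (top N (K + 1) g)
      (av N (K + 1) (wind a)) s) (by
      intro s hs'
      have hs0 : 0 ≤ s := by linarith [hs'.1]
      have h6 : ∀ σ ∈ pres (lab N (K + 1) K), (G * ε ^ 2 / 4 + (-(G * ε ^ 2 / 4)) *
          sg (top N (K + 1) g) s (av N (K + 1) (below a)) σ) + (-B) *
          sg (top N (K + 1) g) s (av N (K + 1) (wind a)) σ ≤
          sg (top N (K + 1) g) s (gen (top N (K + 1) g) (av N (K + 1) (wind a))) σ := by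
        intro σ _
        have h7 := sg_mono_on (top_nonneg (N := N) (K := K + 1) hgn) (stab_univ _)
          (f := (fun _ => G * ε ^ 2 / 4) +
          (-(G * ε ^ 2 / 4)) • (av N (K + 1) (below a)) + (-B) • (av N (K + 1) (wind a)))
          (g := gen (top N (K + 1) g) (av N (K + 1) (wind a))) (by
            intro τ _
            simp only [Pi.add_apply, Pi.smul_apply, smul_eq_mul]
            refine le_trans (le_of_eq ?_) (gen_av_wind_ge hN0 hgn hε hε1 h4 τ)
            rw [hB]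
            ring) hs0 σ (Set.mem_univ _)
        rw [sg_add, sg_add, sg_const, sg_smul, sg_smul] at h7
        exact h7
      have h8 := EL_mono (N := N) (K := K + 1) hgn ht.le K h6
      rw [EL_add, EL_add, EL_const, EL_mul, EL_mul] at h8
      have h9 := h1 s hs'
      have h10 : EL N (K + 1) g t K (fun σ => sg (top N (K + 1) g) s
          (av N (K + 1) (below a)) σ) ≤ 1 - μ / 2 := by
        refine h9.trans ?_
        rw [hμ]; linarith
      have h11 := mul_le_mul_of_nonneg_left h10 (by positivity : 0 ≤ G * ε ^ 2 / 4)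
      refine le_trans ?_ h8
      rw [hA]
      have h12 : EL N (K + 1) g t K (fun σ => sg (top N (K + 1) g) s
          (av N (K + 1) (wind a)) σ) = EL N (K + 1) g t K (sg (top N (K + 1) g) s
          (av N (K + 1) (wind a))) := rfl
      rw [h12]
      linarith)
  have h6 : 0 ≤ EL N (K + 1) g t K (sg (top N (K + 1) g) (t / 2) (av N (K + 1) (wind a))) := by
    have h7 := EL_mono (N := N) (K := K + 1) hgn ht.le K (f := fun _ => 0)
      (h := sg (top N (K + 1) g) (t / 2) (av N (K + 1) (wind a))) (fun σ _ =>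
        sg_nonneg_on (top_nonneg (N := N) (K := K + 1) hgn) (stab_univ _) (fun τ _ => by
          unfold av
          exact div_nonneg (Finset.sum_nonneg fun y _ => wind_nonneg ha0 _) (by positivity))
          (by linarith) σ (Set.mem_univ _))
    rwa [EL_const] at h7
  rw [EL_top]
  refine le_trans ?_ h5
  have h7 : A / B = ε * μ / 24 := by
    rw [hA, hB]; field_simp; ring
  have h8 : B * (t - t / 2) = 3 * ε * t / 2 * G := by rw [hB]; ring
  rw [h7, h8]
  have h9 : 1 ≤ 3 * ε * t / 2 * G := by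
    rw [div_le_iff₀ (by positivity)] at h2
    linarith
  have h10 : Real.exp (-(3 * ε * t / 2 * G)) ≤ 1 / 2 := by
    set y : ℝ := 3 * ε * t / 2 * G with hy
    have h3 := Real.add_one_le_exp y
    have h4 : Real.exp y * Real.exp (-y) = 1 := by rw [← Real.exp_add]; simp
    have h5 := Real.exp_pos (-y)
    nlinarith
  have h11 := Real.exp_pos (-(3 * ε * t / 2 * G))
  have h12 : 0 ≤ ε * μ := by positivity
  have h13 := mul_nonneg h11.le h6
  have h14 : Real.exp (-(3 * ε * t / 2 * G)) * (ε * μ) ≤ 1 / 2 * (ε * μ) :=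
    mul_le_mul_of_nonneg_right h10 h12
  nlinarith

/-- For every `i` there are `i` macroscopic cycles with positive probability, at every time at
which not all the mass is in finite cycles. -/
theorem many_case' (hN : 2 ≤ N) (hg : ∀ j, 0 < g j) (hc : 0 < c) (hρN : ρ < N)
    (hcg : ∀ j, c * g j ≤ g (j + 1)) (hρ : ∀ j, g (j + 1) ≤ ρ * g j)
    (hs : Summable fun j => 1 / g j) (ht : 0 < t) (hf1 : finf N g t < 1) (i : ℕ) (hi1 : 1 ≤ i) :
    ∃ ε : ℝ, 0 < ε ∧ ∀ᶠ K : ℕ in atTop,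
      ε ≤ hexpect N K g t (ind {σ : Equiv.Perm (Word N K) | ∃ s : Finset (Word N K),
        s.card = i ∧ (∀ x ∈ s, ε * (N : ℝ) ^ K ≤ cycLen σ x) ∧
        ∀ x ∈ s, ∀ y ∈ s, σ.SameCycle x y → x = y}) := by
  classical
  have hN0 : 0 < N := by omega
  have hNr : (2 : ℝ) ≤ N := by exact_mod_cast hN
  have hgn : ∀ j, 0 ≤ g j := fun j => (hg j).le
  obtain ⟨ε₀, hε₀, hb⟩ := wind_bound hN hg hc hρN hcg hρ hs ht hf1
  set μ : ℝ := 1 - finf N g t with hμ
  have hμ0 : 0 < μ := by rw [hμ]; linarith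
  set H₀ : ℝ := 1 / ε₀ with hH₀
  have hH₀0 : 0 < H₀ := by positivity
  set J : ℕ := ⌈48 * (i : ℝ) / μ⌉₊ with hJ
  have hJi : (i : ℝ) ≤ J * (μ / 48) := by
    have h1 : 48 * (i : ℝ) / μ ≤ J := Nat.le_ceil _
    rw [div_le_iff₀ hμ0] at h1
    linarith
  set HJ : ℝ := H₀ * 2 ^ J with hHJ
  have hHJ0 : 0 < HJ := by positivity
  refine ⟨min (1 / HJ) 1, lt_min (by positivity) one_pos, ?_⟩
  have hscale : ∀ j : ℕ, 1 / (H₀ * 2 ^ j) ≤ ε₀ := by
    intro j
    have h1 : (1 : ℝ) ≤ 2 ^ j := one_le_pow₀ (by norm_num)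
    have h2 : 1 / (H₀ * 2 ^ j) = ε₀ / 2 ^ j := by
      rw [hH₀]; field_simp
    rw [h2, div_le_iff₀ (by positivity)]
    nlinarith
  have hall : ∀ᶠ K : ℕ in atTop, ∀ j ∈ Finset.range J, 1 / (H₀ * 2 ^ j) * μ / 48 ≤
      EL N (K + 1) g t (K + 1) (av N (K + 1) (wind (1 / (H₀ * 2 ^ j) * (N : ℝ) ^ (K + 1)))) := by
    rw [Filter.eventually_all_finset]
    intro j _
    exact hb (1 / (H₀ * 2 ^ j)) (by positivity) (hscale j)
  obtain ⟨K₀, hK₀⟩ := eventually_atTop.mp hall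
  filter_upwards [eventually_ge_atTop (K₀ + 1)] with K hK3
  obtain ⟨k, rfl⟩ : ∃ k, K = k + 1 := ⟨K - 1, by omega⟩
  have hwin := hK₀ k (by omega)
  rw [hexpect_eq]
  have x₀ : Word N (k + 1) := fun _ => ⟨0, hN0⟩
  set n : ℝ := ((N ^ (k + 1) : ℕ) : ℝ) with hn
  have hnr : n = (N : ℝ) ^ (k + 1) := by rw [hn]; push_cast; rfl
  have hn0 : 0 < n := by rw [hnr]; positivity
  set Z : Fn (Word N (k + 1)) := fun σ => (numC (1 / HJ * n) σ : ℝ) with hZ
  have hEZ : (i : ℝ) ≤ EL N (k + 1) g t (k + 1) Z := by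
    have h1 := EL_mono (N := N) (K := k + 1) hgn ht.le (k + 1)
      (f := fun σ => ∑ j ∈ Finset.range J, (H₀ * 2 ^ j) *
        Wn (lab N (k + 1) (k + 1)) (N ^ (k + 1)) (1 / (H₀ * 2 ^ j) * n) σ x₀) (h := Z)
      (fun σ _ => numC_ge hN0 J hH₀0 σ x₀)
    refine le_trans ?_ h1
    rw [EL_sum]
    have h2 : ∀ j ∈ Finset.range J, μ / 48 ≤ EL N (k + 1) g t (k + 1)
        (fun σ => (H₀ * 2 ^ j) *
        Wn (lab N (k + 1) (k + 1)) (N ^ (k + 1)) (1 / (H₀ * 2 ^ j) * n) σ x₀) := by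
      intro j hj
      have hj0 : (0 : ℝ) < H₀ * 2 ^ j := by positivity
      rw [EL_mul]
      have h3 := hwin j hj
      have h4 : (fun σ => Wn (lab N (k + 1) (k + 1)) (N ^ (k + 1)) (1 / (H₀ * 2 ^ j) * n) σ x₀) =
          av N (k + 1) (wind (1 / (H₀ * 2 ^ j) * (N : ℝ) ^ (k + 1))) := by
        funext σ
        rw [Wn_top, hnr]
      rw [h4]
      have h5 := mul_le_mul_of_nonneg_left h3 hj0.le
      refine le_trans (le_of_eq ?_) h5
      field_simp
    have h3 := Finset.sum_le_sum h2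
    rw [Finset.sum_const, Finset.card_range, nsmul_eq_mul] at h3
    linarith
  -- from expectation to probability
  have hpt : ∀ σ ∈ pres (lab N (k + 1) (k + 1)), (1 / HJ) * Z σ + (1 / HJ) * (-((i : ℝ) - 1)) ≤
      ind {σ : Equiv.Perm (Word N (k + 1)) | ∃ s : Finset (Word N (k + 1)),
        s.card = i ∧ (∀ x ∈ s, min (1 / HJ) 1 * (N : ℝ) ^ (k + 1) ≤ cycLen σ x) ∧
        ∀ x ∈ s, ∀ y ∈ s, σ.SameCycle x y → x = y} σ := by
    intro σ _
    by_cases hi : i ≤ numC (1 / HJ * n) σ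
    · have hmem : σ ∈ {σ : Equiv.Perm (Word N (k + 1)) | ∃ s : Finset (Word N (k + 1)),
        s.card = i ∧ (∀ x ∈ s, min (1 / HJ) 1 * (N : ℝ) ^ (k + 1) ≤ cycLen σ x) ∧
        ∀ x ∈ s, ∀ y ∈ s, σ.SameCycle x y → x = y} := by
        obtain ⟨s, hs1, hs2, hs3⟩ := exists_reps hi
        rw [hnr] at hs2
        refine ⟨s, hs1, fun x hx => ?_, hs3⟩
        refine le_trans ?_ (hs2 x hx)
        exact mul_le_mul_of_nonneg_right (min_le_left _ _) (by positivity)
      unfold ind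
      rw [Set.indicator_of_mem hmem]
      have h1 := numC_le (ε := 1 / HJ) hN0 (by positivity) σ
      rw [← hn] at h1
      have h2 : (1 / HJ) * Z σ ≤ 1 := by
        have h3 := mul_le_mul_of_nonneg_left h1 (by positivity : 0 ≤ 1 / HJ)
        refine h3.trans (le_of_eq ?_)
        field_simp
      have h4 : (1 : ℝ) ≤ i := by exact_mod_cast hi1
      have h5 : (1 / HJ) * (-((i : ℝ) - 1)) ≤ 0 :=
        mul_nonpos_of_nonneg_of_nonpos (by positivity) (by linarith)
      linarith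
    · push Not at hi
      have h1 : (numC (1 / HJ * n) σ : ℝ) ≤ (i : ℝ) - 1 := by
        have : numC (1 / HJ * n) σ + 1 ≤ i := hi
        have h2 : ((numC (1 / HJ * n) σ : ℝ)) + 1 ≤ i := by exact_mod_cast this
        linarith
      have h2 : (1 / HJ) * Z σ + (1 / HJ) * (-((i : ℝ) - 1)) ≤ 0 := by
        rw [← mul_add]
        exact mul_nonpos_of_nonneg_of_nonpos (by positivity) (by
          have : Z σ ≤ (i : ℝ) - 1 := h1
          linarith)
      exact h2.trans (ind_nonneg _ _)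
  have h1 := EL_mono (N := N) (K := k + 1) hgn ht.le (k + 1) hpt
  refine le_trans ?_ h1
  rw [EL_add, EL_mul, EL_const]
  have h2 := mul_le_mul_of_nonneg_left hEZ (by positivity : 0 ≤ 1 / HJ)
  have h3 : min (1 / HJ) 1 ≤ 1 / HJ := min_le_left _ _
  linarith

end Pool.Agent.Stirring.Hier
end

section

/-! The fraction of vertices in macroscopic cycles. -/

open Finset Filter Topology

set_option linter.unusedSectionVars false

namespace Pool.Agent.Stirring.Hier

section TopMass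

variable {V : Type*} [Fintype V] [DecidableEq V]

/-- The number of vertices in cycles of length at least `a`. -/
noncomputable def cnt (a : ℝ) (σ : Equiv.Perm V) : ℝ :=
  ∑ x : V, if a ≤ (cl σ x : ℝ) then (1 : ℝ) else 0

theorem card_cycLen (a : ℝ) (σ : Equiv.Perm V) :
    (Nat.card {x : V // a ≤ (cycLen σ x : ℝ)} : ℝ) = cnt a σ := by
  classical
  rw [Nat.card_eq_fintype_card, Fintype.card_subtype]
  unfold cnt
  rw [Finset.sum_boole]
  simp only [cycLen_eq]

theorem mem_orb_iff {σ : Equiv.Perm V} {x y : V} : y ∈ orb σ x ↔ σ.SameCycle x y := by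
  rw [mem_orb]
  constructor
  · rintro ⟨i, hi⟩
    exact ⟨(i : ℤ), by rw [zpow_natCast, ← hi, Equiv.Perm.iterate_eq_pow]⟩
  · intro h
    obtain ⟨i, hi⟩ := h.exists_nat_pow_eq
    exact ⟨i, by rw [Equiv.Perm.iterate_eq_pow]; exact hi⟩

theorem cover_card (σ : Equiv.Perm V) (s : Finset V) :
    Nat.card {y // ∃ x ∈ s, σ.SameCycle x y} = (s.biUnion (orb σ)).card := by
  classical
  rw [Nat.card_eq_fintype_card, Fintype.card_subtype]
  congr 1
  ext y
  rw [Finset.mem_filter, Finset.mem_biUnion]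
  simp only [Finset.mem_univ, true_and, mem_orb_iff]

theorem topMass_le {a : ℝ} (ha : 0 ≤ a) (k : ℕ) (σ : Equiv.Perm V) :
    (topMass k σ : ℝ) ≤ cnt a σ + k * a := by
  classical
  have h : ∀ n ∈ {n : ℕ | ∃ s : Finset V, s.card ≤ k ∧
      n = Nat.card {y // ∃ x ∈ s, σ.SameCycle x y}}, (n : ℝ) ≤ cnt a σ + k * a := by
    rintro n ⟨s, hs, rfl⟩
    rw [cover_card]
    set S1 := s.filter fun x => a ≤ (cl σ x : ℝ) with hS1
    set S2 := s.filter fun x => ¬ a ≤ (cl σ x : ℝ) with hS2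
    have h1 : s.biUnion (orb σ) ⊆ (Finset.univ.filter fun x => a ≤ (cl σ x : ℝ)) ∪
        S2.biUnion (orb σ) := by
      intro y hy
      obtain ⟨x, hx, hxy⟩ := Finset.mem_biUnion.mp hy
      by_cases hax : a ≤ (cl σ x : ℝ)
      · refine Finset.mem_union_left _ (Finset.mem_filter.mpr ⟨Finset.mem_univ _, ?_⟩)
        rw [cl_orb hxy]; exact hax
      · exact Finset.mem_union_right _ (Finset.mem_biUnion.mpr
          ⟨x, Finset.mem_filter.mpr ⟨hx, hax⟩, hxy⟩)
    have h2 : ((s.biUnion (orb σ)).card : ℝ) ≤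
        ((Finset.univ.filter fun x => a ≤ (cl σ x : ℝ)).card : ℝ) +
        ((S2.biUnion (orb σ)).card : ℝ) := by
      exact_mod_cast (Finset.card_le_card h1).trans (Finset.card_union_le _ _)
    have h3 : ((Finset.univ.filter fun x => a ≤ (cl σ x : ℝ)).card : ℝ) = cnt a σ := by
      unfold cnt
      rw [Finset.sum_boole]
    have h4 : ((S2.biUnion (orb σ)).card : ℝ) ≤ k * a := by
      have h5 : ((S2.biUnion (orb σ)).card : ℝ) ≤ ∑ x ∈ S2, (cl σ x : ℝ) := by
        have h6 : (S2.biUnion (orb σ)).card ≤ ∑ x ∈ S2, (orb σ x).card := Finset.card_biUnion_le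
        have h7 : ∑ x ∈ S2, (orb σ x).card = ∑ x ∈ S2, cl σ x :=
          Finset.sum_congr rfl fun x _ => card_orb σ x
        rw [h7] at h6
        exact_mod_cast h6
      refine h5.trans ?_
      have h6 : ∑ x ∈ S2, (cl σ x : ℝ) ≤ ∑ _x ∈ S2, a := by
        refine Finset.sum_le_sum fun x hx => ?_
        have := (Finset.mem_filter.mp hx).2
        push Not at this
        exact this.le
      refine h6.trans ?_
      rw [Finset.sum_const, nsmul_eq_mul]
      refine mul_le_mul_of_nonneg_right ?_ ha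
      have : S2.card ≤ k := (Finset.card_filter_le _ _).trans hs
      exact_mod_cast this
    linarith
  unfold topMass
  set A := {n : ℕ | ∃ s : Finset V, s.card ≤ k ∧
      n = Nat.card {y // ∃ x ∈ s, σ.SameCycle x y}} with hA
  have hne : A.Nonempty := ⟨_, ∅, by simp, rfl⟩
  have hbdd : BddAbove A := by
    refine ⟨⌊cnt a σ + k * a⌋₊, fun n hn => ?_⟩
    exact Nat.le_floor (h n hn)
  exact h _ (Nat.sSup_mem hne hbdd)

theorem le_topMass {a : ℝ} {k : ℕ} {σ : Equiv.Perm V} (hk : numC a σ ≤ k) :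
    cnt a σ ≤ topMass k σ := by
  classical
  obtain ⟨u, hu1, hu2, hu3⟩ := Finset.exists_subset_injOn_image_eq_of_surjOn
    (f := orb σ) (↑(Finset.univ.filter fun x => a ≤ (cl σ x : ℝ)) : Set V)
    ((Finset.univ.filter fun x => a ≤ (cl σ x : ℝ)).image (orb σ)) (by
      rw [Finset.coe_image]
      exact Set.surjOn_image _ _)
  have hcard : u.card = numC a σ := by
    unfold numC
    rw [← hu3, Finset.card_image_of_injOn hu2]
  have h1 : (Finset.univ.filter fun x => a ≤ (cl σ x : ℝ)) ⊆ u.biUnion (orb σ) := by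
    intro y hy
    have h2 : orb σ y ∈ u.image (orb σ) := by
      rw [hu3]
      exact Finset.mem_image_of_mem _ hy
    obtain ⟨x, hx, hxy⟩ := Finset.mem_image.mp h2
    refine Finset.mem_biUnion.mpr ⟨x, hx, ?_⟩
    rw [hxy]
    exact self_mem_orb σ y
  have h2 : (u.biUnion (orb σ)).card ≤ topMass k σ := by
    unfold topMass
    refine le_csSup ?_ ⟨u, by rw [hcard]; exact hk, (cover_card σ u).symm⟩
    refine ⟨Fintype.card V, ?_⟩
    rintro n ⟨s, _, rfl⟩
    rw [cover_card]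
    exact Finset.card_le_univ _
  have h3 : cnt a σ = ((Finset.univ.filter fun x => a ≤ (cl σ x : ℝ)).card : ℝ) := by
    unfold cnt
    rw [Finset.sum_boole]
  rw [h3]
  exact_mod_cast (Finset.card_le_card h1).trans h2

end TopMass

variable {N K : ℕ}

theorem cnt_eq (hN : 0 < N) (a : ℝ) (σ : Equiv.Perm (Word N K)) :
    cnt a σ = (N : ℝ) ^ K * (1 - av N K (below a) σ) := by
  have hNr : (0 : ℝ) < N := by exact_mod_cast hN
  have hNK : (0 : ℝ) < (N : ℝ) ^ K := by positivity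
  have h1 : (N : ℝ) ^ K * (1 - av N K (below a) σ) = (N : ℝ) ^ K -
      ∑ x : Word N K, below a (cl σ x) := by
    unfold av; field_simp
  have h2 : (N : ℝ) ^ K = ∑ _x : Word N K, (1 : ℝ) := by
    rw [Finset.sum_const, Finset.card_univ, nsmul_eq_mul, mul_one, card_word]
  rw [h1]
  conv_rhs => rw [h2]
  rw [← Finset.sum_sub_distrib]
  unfold cnt
  refine Finset.sum_congr rfl fun x _ => ?_
  unfold below
  by_cases h : a ≤ (cl σ x : ℝ)
  · rw [if_pos h, if_neg (by linarith), sub_zero]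
  · rw [if_neg h, if_pos (by linarith), sub_self]

theorem EL_cnt (hN : 0 < N) (g : ℕ → ℝ) (t a : ℝ) (K : ℕ) :
    EL N K g t K (fun σ => cnt a σ) = (N : ℝ) ^ K * (1 - uu N g t K a) := by
  have h1 : (fun σ : Equiv.Perm (Word N K) => cnt a σ) =
      fun σ => (N : ℝ) ^ K + (-(N : ℝ) ^ K) * av N K (below a) σ := by
    funext σ
    rw [cnt_eq hN]; ring
  rw [h1, EL_add, EL_const, EL_mul]
  unfold uu
  ring

theorem ind_le_cnt (hN : 0 < N) {ε ε' : ℝ} (hε : 0 < ε) (hε' : ε' ≤ ε)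
    (σ : Equiv.Perm (Word N K)) :
    ind {σ : Equiv.Perm (Word N K) | ∃ x, ε * (N : ℝ) ^ K ≤ cycLen σ x} σ ≤
      1 / (ε * (N : ℝ) ^ K) * cnt (ε' * (N : ℝ) ^ K) σ := by
  have hNr : (0 : ℝ) < N := by exact_mod_cast hN
  have hNK : (0 : ℝ) < (N : ℝ) ^ K := by positivity
  have hc0 : 0 ≤ cnt (ε' * (N : ℝ) ^ K) σ := by
    unfold cnt
    exact Finset.sum_nonneg fun x _ => by split_ifs <;> norm_num
  unfold ind
  by_cases h : ∃ x, ε * (N : ℝ) ^ K ≤ cycLen σ x
  · rw [Set.indicator_of_mem (by exact h)]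
    obtain ⟨x, hx⟩ := h
    rw [cycLen_eq] at hx
    have h1 : (cl σ x : ℝ) ≤ cnt (ε' * (N : ℝ) ^ K) σ := by
      unfold cnt
      calc (cl σ x : ℝ) = ∑ y ∈ orb σ x, (1 : ℝ) := by
            rw [Finset.sum_const, card_orb, nsmul_eq_mul, mul_one]
        _ ≤ ∑ y ∈ orb σ x, (if ε' * (N : ℝ) ^ K ≤ (cl σ y : ℝ) then (1 : ℝ) else 0) := by
            refine Finset.sum_le_sum fun y hy => ?_
            rw [cl_orb hy, if_pos]
            exact (mul_le_mul_of_nonneg_right hε' hNK.le).trans hx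
        _ ≤ _ := Finset.sum_le_sum_of_subset_of_nonneg (Finset.subset_univ _)
            fun y _ _ => by split_ifs <;> norm_num
    rw [div_mul_eq_mul_div, one_mul, le_div_iff₀ (by positivity), one_mul]
    linarith
  · rw [Set.indicator_of_notMem (by exact h)]
    positivity

theorem cnt_le_ind (hN : 0 < N) (ε : ℝ) (σ : Equiv.Perm (Word N K)) :
    cnt (ε * (N : ℝ) ^ K) σ ≤ (N : ℝ) ^ K *
      ind {σ : Equiv.Perm (Word N K) | ∃ x, ε * (N : ℝ) ^ K ≤ cycLen σ x} σ := by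
  have hNr : (0 : ℝ) < N := by exact_mod_cast hN
  unfold ind
  by_cases h : ∃ x, ε * (N : ℝ) ^ K ≤ cycLen σ x
  · rw [Set.indicator_of_mem (by exact h), mul_one, ← card_word]
    unfold cnt
    rw [Finset.sum_boole]
    exact_mod_cast Finset.card_filter_le _ _
  · rw [Set.indicator_of_notMem (by exact h), mul_zero]
    push Not at h
    unfold cnt
    refine (Finset.sum_eq_zero fun x _ => ?_).le
    have := h x
    rw [cycLen_eq] at this
    rw [if_neg (by linarith)]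

section Main

variable {g : ℕ → ℝ} {t c ρ : ℝ}

variable (hN : 2 ≤ N) (hg : ∀ j, 0 < g j) (hc : 0 < c) (hρN : ρ < N)
  (hcg : ∀ j, c * g j ≤ g (j + 1)) (hρ : ∀ j, g (j + 1) ≤ ρ * g j)
  (hs : Summable fun j => 1 / g j)

include hN hg hc hρN hcg hρ hs

/-- The `k` longest cycles. -/
theorem top_case (ht : 0 ≤ t) {η : ℝ} (hη : 0 < η) : ∃ k₀ : ℕ, ∀ k : ℕ, k₀ ≤ k → ∀ᶠ K in atTop,
    |hexpect N K g t (fun σ => (topMass k σ : ℝ)) / (N : ℝ) ^ K - (1 - finf N g t)| ≤ η := by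
  have hN0 : 0 < N := by omega
  have hNr : (2 : ℝ) ≤ N := by exact_mod_cast hN
  have hgn : ∀ j, 0 ≤ g j := fun j => (hg j).le
  obtain ⟨ε₀, hε₀, hb⟩ := uu_macro hN hg hc hρN hcg hρ hs ht (half_pos hη)
  refine ⟨⌈1 / ε₀⌉₊, fun k hk => ?_⟩
  have hk' : 1 / ε₀ ≤ k := (Nat.le_ceil _).trans (by exact_mod_cast hk)
  set ε : ℝ := min ε₀ (η / (2 * (k + 1))) with hε
  have hε0 : 0 < ε := lt_min hε₀ (by positivity)
  have hkε : k * ε ≤ η / 2 := by
    have h1 : ε ≤ η / (2 * (k + 1)) := min_le_right _ _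
    rw [le_div_iff₀ (by positivity)] at h1
    nlinarith
  filter_upwards [hb ε₀ hε₀ le_rfl, hb ε hε0 (min_le_left _ _)] with K h1 h2
  have hNK : (0 : ℝ) < (N : ℝ) ^ K := by positivity
  rw [hexpect_eq]
  have h3 := EL_mono (N := N) (K := K) hgn ht K
    (f := fun σ => cnt (ε₀ * (N : ℝ) ^ K) σ) (h := fun σ => (topMass k σ : ℝ)) (fun σ _ => by
      refine le_topMass ?_
      have h4 := numC_le (K := K) hN0 hε₀ σ
      push_cast at h4
      have h5 : (numC (ε₀ * (N : ℝ) ^ K) σ : ℝ) ≤ k := h4.trans hk'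
      exact_mod_cast h5)
  have h4 := EL_mono (N := N) (K := K) hgn ht K
    (f := fun σ => (topMass k σ : ℝ)) (h := fun σ => cnt (ε * (N : ℝ) ^ K) σ +
      k * (ε * (N : ℝ) ^ K)) (fun σ _ => topMass_le (by positivity) k σ)
  rw [EL_add, EL_const] at h4
  rw [EL_cnt hN0] at h3 h4
  have h5 : 1 - uu N g t K (ε₀ * (N : ℝ) ^ K) ≤
      EL N K g t K (fun σ => (topMass k σ : ℝ)) / (N : ℝ) ^ K := by
    rw [le_div_iff₀ hNK]; linarith
  have h6 : EL N K g t K (fun σ => (topMass k σ : ℝ)) / (N : ℝ) ^ K ≤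
      1 - uu N g t K (ε * (N : ℝ) ^ K) + k * ε := by
    rw [div_le_iff₀ hNK]; linarith
  rw [abs_le] at h1 h2 ⊢
  constructor
  · linarith [h1.2]
  · linarith [h2.1]

/-- Long cycles. -/
theorem long_case (ht : 0 ≤ t) {η : ℝ} (hη : 0 < η) : ∃ l₀ : ℕ, ∀ l : ℕ, l₀ ≤ l → ∀ᶠ K in atTop,
    |hexpect N K g t (fun σ => (Nat.card {x : Word N K // l ≤ cycLen σ x} : ℝ)) / (N : ℝ) ^ K -
      (1 - finf N g t)| ≤ η := by
  have hN0 : 0 < N := by omega
  have hNr : (2 : ℝ) ≤ N := by exact_mod_cast hN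
  obtain ⟨m₀, hb⟩ := uu_long hN hg hρN hρ ht hη
  refine ⟨m₀, fun l hl => ?_⟩
  filter_upwards [hb l hl] with K h1
  have hNK : (0 : ℝ) < (N : ℝ) ^ K := by positivity
  rw [hexpect_eq]
  have h2 : (fun σ : Equiv.Perm (Word N K) => (Nat.card {x : Word N K // l ≤ cycLen σ x} : ℝ)) =
      fun σ => cnt (l : ℝ) σ := by
    funext σ
    rw [← card_cycLen]
    simp only [Nat.cast_le]
  rw [h2, EL_cnt hN0, mul_div_cancel_left₀ _ hNK.ne', abs_sub_comm]
  have h3 : 1 - finf N g t - (1 - uu N g t K l) = uu N g t K l - finf N g t := by ring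
  rw [h3]
  exact h1

/-- No macroscopic cycles if all the mass is in finite cycles. -/
theorem none_case (ht : 0 ≤ t) (hf : finf N g t = 1) {ε : ℝ} (hε : 0 < ε) :
    Tendsto (fun K : ℕ => hprob N K g t {σ | ∃ x, ε * (N : ℝ) ^ K ≤ cycLen σ x}) atTop
      (𝓝 0) := by
  have hN0 : 0 < N := by omega
  have hNr : (2 : ℝ) ≤ N := by exact_mod_cast hN
  have hgn : ∀ j, 0 ≤ g j := fun j => (hg j).le
  rw [Metric.tendsto_atTop]
  intro η hη
  obtain ⟨ε₀, hε₀, hb⟩ := uu_macro hN hg hc hρN hcg hρ hs ht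
    (by positivity : 0 < η * ε / 2)
  set ε' : ℝ := min ε ε₀ with hε'
  have hε'0 : 0 < ε' := lt_min hε hε₀
  obtain ⟨K₀, hK₀⟩ := eventually_atTop.mp (hb ε' hε'0 (min_le_right _ _))
  refine ⟨K₀, fun K hK => ?_⟩
  have h1 := hK₀ K hK
  have hNK : (0 : ℝ) < (N : ℝ) ^ K := by positivity
  have h2 : hprob N K g t {σ | ∃ x, ε * (N : ℝ) ^ K ≤ cycLen σ x} =
      EL N K g t K (ind {σ : Equiv.Perm (Word N K) | ∃ x, ε * (N : ℝ) ^ K ≤ cycLen σ x}) := by
    unfold hprob
    rw [hexpect_eq]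
    rfl
  rw [h2]
  have h3 := EL_mono (N := N) (K := K) hgn ht K (f := fun _ => 0)
    (h := ind {σ : Equiv.Perm (Word N K) | ∃ x, ε * (N : ℝ) ^ K ≤ cycLen σ x})
    (fun σ _ => ind_nonneg _ σ)
  have h4 := EL_mono (N := N) (K := K) hgn ht K
    (f := ind {σ : Equiv.Perm (Word N K) | ∃ x, ε * (N : ℝ) ^ K ≤ cycLen σ x})
    (h := fun σ => 1 / (ε * (N : ℝ) ^ K) * cnt (ε' * (N : ℝ) ^ K) σ)
    (fun σ _ => ind_le_cnt hN0 hε (min_le_left _ _) σ)
  rw [EL_const] at h3
  rw [EL_mul, EL_cnt hN0] at h4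
  rw [hf] at h1
  have h5 : 1 / (ε * (N : ℝ) ^ K) * ((N : ℝ) ^ K * (1 - uu N g t K (ε' * (N : ℝ) ^ K))) =
      (1 - uu N g t K (ε' * (N : ℝ) ^ K)) / ε := by
    field_simp
  rw [h5] at h4
  have h6 : (1 - uu N g t K (ε' * (N : ℝ) ^ K)) / ε ≤ η / 2 := by
    rw [div_le_iff₀ hε]
    linarith [(abs_le.mp h1).1]
  rw [Real.dist_eq, sub_zero, abs_of_nonneg h3]
  linarith

/-- For small times all the mass is in finite cycles. -/
theorem finf_small : ∃ t₁ : ℝ, 0 < t₁ ∧ ∀ t : ℝ, 0 ≤ t → t ≤ t₁ → finf N g t = 1 := by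
  have hN0 : 0 < N := by omega
  have hNr : (2 : ℝ) ≤ N := by exact_mod_cast hN
  have hgn : ∀ j, 0 ≤ g j := fun j => (hg j).le
  obtain ⟨t₁, ht₁, h⟩ := small_case hN hg hρN hρ
  refine ⟨t₁ / 2, by positivity, fun t ht htt => ?_⟩
  refine le_antisymm (finf_le_one hN hg hρN hρ ht) ?_
  refine le_of_forall_pos_le_add fun η hη => ?_
  obtain ⟨ε₀, hε₀, hb⟩ := uu_macro hN hg hc hρN hcg hρ hs ht (half_pos hη)
  have h1 := (h t ht (by linarith) ε₀ hε₀).eventually_lt_const (half_pos hη)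
  obtain ⟨K, hK1, hK2⟩ := (h1.and (hb ε₀ hε₀ le_rfl)).exists
  have hNK : (0 : ℝ) < (N : ℝ) ^ K := by positivity
  rw [hexpect_eq] at hK1
  have h4 := EL_mono (N := N) (K := K) hgn ht K
    (f := fun σ => cnt (ε₀ * (N : ℝ) ^ K) σ)
    (h := fun σ => (N : ℝ) ^ K *
      ind {σ : Equiv.Perm (Word N K) | ∃ x, ε₀ * (N : ℝ) ^ K ≤ cycLen σ x} σ)
    (fun σ _ => cnt_le_ind hN0 ε₀ σ)
  rw [EL_mul, EL_cnt hN0] at h4
  have h5 := le_of_mul_le_mul_left h4 hNK
  linarith [(abs_le.mp hK2).2]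

/-- For large times almost all the mass is in macroscopic cycles. -/
theorem finf_tendsto : Tendsto (fun t => 1 - finf N g t) atTop (𝓝 1) := by
  have hN0 : 0 < N := by omega
  have hNr : (2 : ℝ) ≤ N := by exact_mod_cast hN
  have hgn : ∀ j, 0 ≤ g j := fun j => (hg j).le
  rw [Metric.tendsto_atTop]
  intro η hη
  obtain ⟨t₀, ε, ht₀, hε, h⟩ := transient_case hN hg hc hcg hs (by positivity : 0 < η / 4)
  refine ⟨t₀, fun t ht => ?_⟩
  have ht0 : 0 ≤ t := by linarith
  obtain ⟨ε₀, hε₀, hb⟩ := uu_macro hN hg hc hρN hcg hρ hs ht0 (by positivity : 0 < η / 4)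
  set ε' : ℝ := min ε ε₀ with hε'
  have hε'0 : 0 < ε' := lt_min hε hε₀
  obtain ⟨K, hK⟩ := (hb ε' hε'0 (min_le_right _ _)).exists
  have hNK : (0 : ℝ) < (N : ℝ) ^ K := by positivity
  have h1 := h t ht K
  rw [hexpect_eq] at h1
  have h2 : (fun σ : Equiv.Perm (Word N K) =>
      (Nat.card {x : Word N K // ε * (N : ℝ) ^ K ≤ cycLen σ x} : ℝ)) =
      fun σ => cnt (ε * (N : ℝ) ^ K) σ := by
    funext σ
    rw [← card_cycLen]
  rw [h2, EL_cnt hN0, mul_comm] at h1
  have h3 := le_of_mul_le_mul_left h1 hNK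
  have h4 := uu_mono (N := N) (g := g) (t := t) hgn ht0 K (a := ε' * (N : ℝ) ^ K)
    (b := ε * (N : ℝ) ^ K) (mul_le_mul_of_nonneg_right (min_le_left _ _) hNK.le)
  have h5 := finf_nonneg hN hg hρN hρ ht0
  have h6 := (abs_le.mp hK).1
  rw [Real.dist_eq, abs_lt]
  constructor <;> linarith

end Main

end Pool.Agent.Stirring.Hier
end
end

section

section

/-! C3a: concentration of the mass of the short cycles. -/

open Finset Filter Topology

namespace Pool.Agent.Stirring.HP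

open Pool.Agent.Stirring.Hier

variable {N : ℕ} {g : ℕ → ℝ} {t c ρ : ℝ}

/-- As in the proof of `top_bound`: for `m ∈ (finf, 1)` there is a scale `l > 0` such that the
expectation of the square of the positive part of `Ps (l t g_K) - m` tends to `0` (`step_params` with
`Mb = (finf + m) / 2`, `l₀ = 1`, `Ps_tendsto`, `WW_tendsto`). By Cauchy-Schwarz (`sg_sq`) also the
expectation of the positive part tends to `0`. -/
theorem pos_part_tendsto (hN : 2 ≤ N) (hg : ∀ j, 0 < g j) (hc : 0 < c) (hρN : ρ < N)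
    (hcg : ∀ j, c * g j ≤ g (j + 1)) (hρ : ∀ j, g (j + 1) ≤ ρ * g j)
    (hs : Summable fun j => 1 / g j) (ht : 0 < t) {m : ℝ} (hm : finf N g t < m) (hm1 : m < 1) :
    ∃ l : ℝ, 0 < l ∧
      Tendsto (fun K => EL N K g t K (fun σ => max (Ps N K (l * (t * g K)) σ - m) 0)) atTop
        (𝓝 0) := by
  have hf0 := finf_nonneg hN hg hρN hρ ht.le
  have hgn : ∀ j, 0 ≤ g j := fun j => (hg j).le
  set c' : ℝ := min c 1 with hc'
  have hc0 : 0 < c' := lt_min hc one_pos
  have hc1 : c' ≤ 1 := min_le_right _ _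
  have hcg' : ∀ j, c' * g j ≤ g (j + 1) := fun j =>
    (mul_le_mul_of_nonneg_right (min_le_left _ _) (hgn j)).trans (hcg j)
  obtain ⟨l, q, hl, _, hq0, hq1, hstep⟩ := step_params (N := N) hN hc0 hc1 (m := m)
    (Mb := (finf N g t + m) / 2) (l₀ := 1) (by linarith) hm1 (by linarith) (by linarith) one_pos
  have hMt := Ps_tendsto hN hg hρN hρ ht hl
  have hMev : ∀ᶠ K in atTop, MM N g l t K < (finf N g t + m) / 2 :=
    hMt.eventually_lt_const (by linarith)
  have hWt : Tendsto (WW N g m l t) atTop (𝓝 0) :=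
    WW_tendsto hg hs ht hq0 hq1 (hstep g hg hcg' t ht) (hMev.mono fun K hK => hK.le)
  refine ⟨l, hl, ?_⟩
  have h1 : Tendsto (fun K => Real.sqrt (WW N g m l t K)) atTop (𝓝 0) := by
    have := (Real.continuous_sqrt.tendsto 0).comp hWt
    rwa [Real.sqrt_zero] at this
  refine squeeze_zero (fun K => ?_) (fun K => ?_) h1
  · have h := EL_mono (N := N) (K := K) hgn ht.le K (f := fun _ => 0)
      (h := fun σ => max (Ps N K (l * (t * g K)) σ - m) 0) (fun σ _ => le_max_right _ _)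
    rwa [EL_const] at h
  · refine Real.le_sqrt_of_sq_le ?_
    exact sg_sq (lev_nonneg hgn K) ht.le (fun σ => max (Ps N K (l * (t * g K)) σ - m) 0) 1

end Pool.Agent.Stirring.HP
end

section

/-! C3b: concentration of the mass of the short cycles. -/

open Finset Filter Topology

namespace Pool.Agent.Stirring.HP

open Pool.Agent.Stirring.Hier

variable {N : ℕ} {g : ℕ → ℝ} {t c ρ : ℝ}

/-- Case `finf = 1`: `|av - 1| = 1 - av`, and `1 - uu N g t K l` is small (`uu_long`). Case `finf < 1`,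
`t > 0` (`finf_zero`): take `m = finf + η / 8` (or less, `< 1`). `av N K (below l) σ ≤
exp (h l / N^K) * Ps N K h σ` with `h = λ t g_K`, `λ` from `pos_part_tendsto`, and `h l / N^K → 0`
(`gam_tendsto`), so the expectation of `max (av - m) 0` is eventually small; finally
`|x - f| ≤ 2 max (x - m) 0 + 2 (m - f) - (x - f)` and the expectation of `x = av N K (below l)` is
`uu N g t K l`, which is within `η / 4` of `f = finf` for `l ≥ l₀`, `K` large (`uu_long`). -/
theorem conc (hN : 2 ≤ N) (hg : ∀ j, 0 < g j) (hc : 0 < c) (hρN : ρ < N)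
    (hcg : ∀ j, c * g j ≤ g (j + 1)) (hρ : ∀ j, g (j + 1) ≤ ρ * g j)
    (hs : Summable fun j => 1 / g j) (ht : 0 ≤ t) {η : ℝ} (hη : 0 < η) :
    ∃ l₀ : ℕ, ∀ l : ℕ, l₀ ≤ l → ∀ᶠ K in atTop,
      EL N K g t K (fun σ => |av N K (below l) σ - finf N g t|) ≤ η := by
  have hN0 : 0 < N := by omega
  have hgn : ∀ j, 0 ≤ g j := fun j => (hg j).le
  have hx1 : ∀ (K l : ℕ) (σ : Equiv.Perm (Word N K)), av N K (below l) σ ≤ 1 := by
    intro K l σ
    rw [← av_const (K := K) hN0 1 σ]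
    exact av_mono (fun j => below_le_one _ j) σ
  obtain ⟨m₀, hm₀⟩ := uu_long (t := t) hN hg hρN hρ ht (η := η / 4) (by positivity)
  refine ⟨m₀, fun l hl => ?_⟩
  have hf1 := finf_le_one hN hg hρN hρ ht
  rcases eq_or_lt_of_le hf1 with hf | hf
  · filter_upwards [hm₀ l hl] with K hK
    have h1 : EL N K g t K (fun σ => |av N K (below l) σ - finf N g t|)
        ≤ EL N K g t K (fun σ => 1 + (-1) * av N K (below l) σ) := by
      refine EL_mono hgn ht K fun σ _ => ?_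
      rw [hf, abs_sub_comm, abs_of_nonneg (sub_nonneg.2 (hx1 K l σ))]
      linarith
    rw [EL_add, EL_const, EL_mul] at h1
    have h2 : EL N K g t K (av N K (below l)) = uu N g t K l := rfl
    rw [h2] at h1
    rw [hf] at hK
    have h3 := (abs_le.1 hK).1
    rw [hf] at h1 ⊢
    linarith
  · have ht' : 0 < t := by
      rcases eq_or_lt_of_le ht with h0 | h0
      · exact absurd (finf_zero (N := N) (g := g) (ρ := ρ) hN hg hρN hρ) (by rw [h0]; exact hf.ne)
      · exact h0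
    set m : ℝ := min (finf N g t + η / 8) ((finf N g t + 1) / 2) with hm
    have hfm : finf N g t < m := lt_min (by linarith) (by linarith)
    have hm1 : m < 1 := lt_of_le_of_lt (min_le_right _ _) (by linarith)
    have hm8 : m ≤ finf N g t + η / 8 := min_le_left _ _
    obtain ⟨lam, hlam, hlim⟩ := pos_part_tendsto (t := t) hN hg hc hρN hcg hρ hs ht' hfm hm1
    have hE : Tendsto (fun K => Real.exp (-(lam * (t * gam N g K) * l))) atTop (𝓝 1) := by
      have h3 := (((gam_tendsto hN hg hρN hρ).const_mul t).const_mul lam).mul_const (l : ℝ)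
      have h4 := (Real.continuous_exp.tendsto _).comp h3.neg
      simpa [Function.comp_def] using h4
    filter_upwards [hm₀ l hl, hlim.eventually_le_const (show (0 : ℝ) < η / 16 by positivity),
      hE.eventually_const_le (show 1 - η / 16 < 1 by linarith)] with K hK hK2 hK3
    have hγ := gam_pos hN0 hg K
    have e1 : lam * (t * g K) / (N : ℝ) ^ K = lam * (t * gam N g K) := by
      unfold gam; ring
    have hpt : ∀ σ : Equiv.Perm (Word N K), |av N K (below l) σ - finf N g t|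
        ≤ 2 * max (Ps N K (lam * (t * g K)) σ - m) 0
          + ((2 * (η / 16) + 2 * (m - finf N g t) + finf N g t)
            + (-1) * av N K (below l) σ) := by
      intro σ
      have h1 : Real.exp (-(lam * (t * gam N g K) * l)) * av N K (below l) σ
          ≤ Ps N K (lam * (t * g K)) σ := by
        unfold Ps
        rw [e1, ← av_mul]
        exact av_mono (fun j => below_le_ex (by positivity) (l : ℝ) j) σ
      have h2 := hx1 K l σ
      have h0 : 0 ≤ av N K (below l) σ := by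
        unfold av
        exact div_nonneg (Finset.sum_nonneg fun x _ => below_nonneg _ _) (by positivity)
      have h3 : av N K (below l) σ ≤ Ps N K (lam * (t * g K)) σ + η / 16 := by
        have h4 : (1 - η / 16) * av N K (below l) σ
            ≤ Real.exp (-(lam * (t * gam N g K) * l)) * av N K (below l) σ :=
          mul_le_mul_of_nonneg_right hK3 h0
        nlinarith
      have h5 := le_max_left (Ps N K (lam * (t * g K)) σ - m) 0
      have h6 := le_max_right (Ps N K (lam * (t * g K)) σ - m) 0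
      rw [abs_le]
      constructor <;> linarith
    have h1 := EL_mono (N := N) (K := K) hgn ht K (f := fun σ => |av N K (below l) σ - finf N g t|)
      (h := fun σ => 2 * max (Ps N K (lam * (t * g K)) σ - m) 0
          + ((2 * (η / 16) + 2 * (m - finf N g t) + finf N g t)
            + (-1) * av N K (below l) σ)) (fun σ _ => hpt σ)
    rw [EL_add, EL_add, EL_const, EL_mul, EL_mul] at h1
    have h2 : EL N K g t K (av N K (below l)) = uu N g t K l := rfl
    rw [h2] at h1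
    have h3 := (abs_le.1 hK).1
    linarith

end Pool.Agent.Stirring.HP
end

section

end
end
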