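import Pool.Agent.Lib.MP_6c3d62_pr.Mg.G076
import Pool.Agent.Lib.MP_6c3d62_pr.Mg.G094
import Pool.Agent.Lib.MP_6c3d62_pr.Mg.G077
import Pool.Agent.Lib.MP_6c3d62_pr.Mg.G082

section

section

/-! Words of transpositions at random points: definitions. -/

open Finset

namespace Pool.Agent.Stirring.HP

variable {V : Type} [Fintype V] [DecidableEq V] {κ : Type} [Fintype κ] [DecidableEq κ]

/-- The trace of `σ` on `S`: all the points outside of `S` are bypassed. -/
noncomputable def trc (S : Finset V) (σ : Equiv.Perm V) : Equiv.Perm V :=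
  (Sᶜ.toList).foldr del σ

/-- The product of the transpositions of a word. -/
def wp {M : ℕ} (w : Fin M → V × V) : Equiv.Perm V :=
  ((List.ofFn w).map fun p => Equiv.swap p.1 p.2).prod

/-- The transposition, if both points are in `B`. -/
def swB (B : Finset V) (p : V × V) : Equiv.Perm V :=
  if p.1 ∈ B ∧ p.2 ∈ B then Equiv.swap p.1 p.2 else 1

/-- The product of the transpositions of a word with both points in `B`. -/
def wpB (B : Finset V) {M : ℕ} (w : Fin M → V × V) : Equiv.Perm V :=
  ((List.ofFn w).map (swB B)).prod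

/-- The points of a word. -/
def slots {M : ℕ} (w : Fin M → V × V) : Fin M ⊕ Fin M → V :=
  Sum.elim (fun i => (w i).1) (fun i => (w i).2)

/-- The words whose points are the points of `X`, each exactly once. -/
def Wset (X : Finset V) (j : ℕ) : Finset (Fin j → V × V) :=
  univ.filter fun w => Function.Injective (slots w) ∧ univ.image (slots w) = X

/-- The words with distinct points, all in `B` and different from the `z c`. -/
def GW (B : Finset V) (z : κ → V) (j : ℕ) : Finset (Fin j → V × V) :=
  univ.filter fun w => Function.Injective (slots w) ∧ ∀ s, slots w s ∈ B ∧ ∀ c, slots w s ≠ z c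

/-- The probability of the grouping `R` for a uniform permutation of the indices. -/
noncomputable def UR (R : κ → κ → Prop) : ℝ :=
  (∑ τ : Equiv.Perm κ, gI R τ id) / ((Fintype.card κ).factorial : ℝ)

/-- All the points, observed points and points of the word. -/
def smp {M : ℕ} (z : κ → V) (w : Fin M → V × V) : κ ⊕ (Fin M ⊕ Fin M) → V :=
  Sum.elim z (slots w)

/-- The values are distinct, and the value at `c`, if it is not in `B`, is the only one on its
cycle. -/
def Nice {I : Type} (σ : Equiv.Perm V) (B : Finset V) (u : I → V) : Prop :=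
  ∀ c c', c ≠ c' → u c ≠ u c' ∧ (u c ∉ B → ¬ σ.SameCycle (u c) (u c'))

/-- Every index is related to another one. -/
def NoIso (R : κ → κ → Prop) : Prop := ∀ a, ∃ b, b ≠ a ∧ (R a b ∨ R b a)

/-- The mean over the words of length `M`. -/
noncomputable def PM (M : ℕ) (f : Equiv.Perm V → ℝ) (σ : Equiv.Perm V) : ℝ :=
  (∑ w : Fin M → V × V, f (σ * wp w)) / ((Fintype.card V : ℝ) ^ 2) ^ M

/-- The mean over the words of length `M` when only the transpositions inside `B` are used. -/
noncomputable def LM (B : Finset V) (M : ℕ) (f : Equiv.Perm V → ℝ) (σ : Equiv.Perm V) : ℝ :=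
  (∑ w : Fin M → V × V, f (σ * wpB B w)) / ((Fintype.card V : ℝ) ^ 2) ^ M

/-- The mean over the words of length `j` in the points of `B`. -/
noncomputable def QM (B : Finset V) (j : ℕ) (f : Equiv.Perm V → ℝ) (σ : Equiv.Perm V) : ℝ :=
  (∑ w ∈ Fintype.piFinset (fun _ : Fin j => B ×ˢ B), f (σ * wp w)) / ((B.card : ℝ) ^ 2) ^ j

/-- The vertices in cycles of length at least `l`. -/
noncomputable def big (l : ℕ) (σ : Equiv.Perm V) : Finset V :=
  univ.filter fun x => l ≤ Hier.cl σ x

end Pool.Agent.Stirring.HP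
end

section

/-! B1a: the trace of a permutation on a set. -/

open Finset

namespace Pool.Agent.Stirring.HP

variable {V : Type} [Fintype V] [DecidableEq V]

private theorem B1a_foldr_fix (l : List V) (σ : Equiv.Perm V) {a : V} (ha : a ∈ l) :
    (l.foldr del σ) a = a := by
  induction l with
  | nil => simp at ha
  | cons b l ih =>
    rw [List.foldr_cons]
    by_cases hab : a = b
    · subst hab
      exact del_self _ _
    · have hal : a ∈ l := by
        rcases List.mem_cons.mp ha with h | h
        · exact absurd h hab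
        · exact h
      rw [del_apply hab, ih hal, if_neg hab]

private theorem B1a_foldr_sameCycle (l : List V) (σ : Equiv.Perm V) {x y : V} (hx : x ∉ l)
    (hy : y ∉ l) : (l.foldr del σ).SameCycle x y ↔ σ.SameCycle x y := by
  induction l with
  | nil => simp
  | cons b l ih =>
    rw [List.mem_cons, not_or] at hx hy
    rw [List.foldr_cons, sameCycle_del hx.1 hy.1, ih hx.2 hy.2]

private theorem B1a_foldr_mul (l : List V) {F : Equiv.Perm V → ℝ} {μ : Equiv.Perm V}
    (hF : ∀ a ∈ l, ∀ π, F (del a π) = F π) (hμ : ∀ a ∈ l, μ a = a) (σ : Equiv.Perm V) :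
    F (σ * μ) = F (l.foldr del σ * μ) := by
  induction l with
  | nil => simp
  | cons b l ih =>
    rw [List.foldr_cons, ← del_mul (hμ b List.mem_cons_self), hF b List.mem_cons_self]
    exact ih (fun a ha => hF a (List.mem_cons_of_mem _ ha))
      (fun a ha => hμ a (List.mem_cons_of_mem _ ha))

/-- Induction on the list: `del` fixes its point and keeps fixed points fixed. -/
theorem trc_suppIn (S : Finset V) (σ : Equiv.Perm V) : SuppIn S (trc S σ) := by
  intro a ha
  unfold trc
  exact B1a_foldr_fix _ _ (by simpa using ha)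

/-- Induction on the list with `sameCycle_del`. -/
theorem trc_sameCycle {S : Finset V} {x y : V} (hx : x ∈ S) (hy : y ∈ S) (σ : Equiv.Perm V) :
    (trc S σ).SameCycle x y ↔ σ.SameCycle x y := by
  unfold trc
  exact B1a_foldr_sameCycle _ _ (by simpa using hx) (by simpa using hy)

/-- Induction on the list with `del_mul`. -/
theorem trc_mul {S : Finset V} {F : Equiv.Perm V → ℝ}
    (hF : ∀ a, a ∉ S → ∀ π, F (del a π) = F π) {μ : Equiv.Perm V} (hμ : SuppIn S μ)
    (σ : Equiv.Perm V) : F (σ * μ) = F (trc S σ * μ) := by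
  unfold trc
  exact B1a_foldr_mul _ (fun a ha => hF a (by simpa using ha))
    (fun a ha => hμ a (by simpa using ha)) σ

end Pool.Agent.Stirring.HP
end

section

/-! B1b: the trace of a permutation on a set. -/

open Finset

namespace Pool.Agent.Stirring.HP

variable {V : Type} [Fintype V] [DecidableEq V]

/-- If `ρ (ρ x) = x`, `ρ = trc S σ`, every `y ∈ S` in the `σ`-cycle of `x` is in the `ρ`-cycle of
`x` (`trc_sameCycle`), which is `{x, ρ x}`. -/
theorem trc_two {S : Finset V} {x : V} (hx : x ∈ S) {σ : Equiv.Perm V}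
    (h : trc S σ (trc S σ x) = x) : (S.filter fun y => σ.SameCycle x y).card ≤ 2 := by
  set ρ := trc S σ with hρ
  have hsub : (S.filter fun y => σ.SameCycle x y) ⊆ {x, ρ x} := by
    intro y hy
    rw [mem_filter] at hy
    have hc : ρ.SameCycle x y := (trc_sameCycle hx hy.1 σ).mpr hy.2
    obtain ⟨n, hn⟩ := hc.exists_nat_pow_eq
    have key : ∀ n : ℕ, (ρ ^ n) x = x ∨ (ρ ^ n) x = ρ x := by
      intro n
      induction n with
      | zero => left; simp
      | succ n ih =>
        rw [pow_succ', Equiv.Perm.mul_apply]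
        rcases ih with h1 | h1
        · right; rw [h1]
        · left; rw [h1, h]
    rw [mem_insert, mem_singleton]
    rcases key n with h1 | h1
    · left; rw [← hn, h1]
    · right; rw [← hn, h1]
  exact (card_le_card hsub).trans (card_le_two)

/-- A point of `S` which is alone in its `σ`-cycle among the points of `S` is fixed by the trace. -/
theorem trc_fixed {S : Finset V} {x : V} (hx : x ∈ S) {σ : Equiv.Perm V}
    (h : ∀ y ∈ S, y ≠ x → ¬ σ.SameCycle x y) : trc S σ x = x := by
  by_contra hne
  have hmem : trc S σ x ∈ S := suppIn_apply_mem (trc_suppIn S σ) hx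
  have hc : (trc S σ).SameCycle x (trc S σ x) := ⟨1, by simp⟩
  exact h _ hmem hne ((trc_sameCycle hx hmem σ).mp hc)

end Pool.Agent.Stirring.HP
end

section

end

section

/-! B2a: words with distinct points, and perfect matchings. -/

open Finset

namespace Pool.Agent.Stirring.HP

variable {V : Type} [Fintype V] [DecidableEq V] {κ : Type} [Fintype κ] [DecidableEq κ]

theorem wp_zero (w : Fin 0 → V × V) : wp w = 1 := by
  simp [wp]

theorem wp_cons {M : ℕ} (p : V × V) (w : Fin M → V × V) :
    wp (Fin.cons p w : Fin (M + 1) → V × V) = Equiv.swap p.1 p.2 * wp w := by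
  unfold wp
  rw [List.ofFn_succ]
  simp

theorem wpB_cons (B : Finset V) {M : ℕ} (p : V × V) (w : Fin M → V × V) :
    wpB B (Fin.cons p w : Fin (M + 1) → V × V) = swB B p * wpB B w := by
  unfold wpB
  rw [List.ofFn_succ]
  simp

/-- A word with distinct points, all in `X`. -/
theorem wp_suppIn {M : ℕ} {w : Fin M → V × V} {S : Finset V} (h : ∀ s, slots w s ∈ S) :
    SuppIn S (wp w) := by
  induction M with
  | zero => rw [wp_zero]; exact suppIn_one S
  | succ M ih =>
    rw [← Fin.cons_self_tail w, wp_cons]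
    refine suppIn_mul (suppIn_swap (h (Sum.inl 0)) (h (Sum.inr 0))) (ih ?_)
    intro s
    rcases s with i | i
    · exact h (Sum.inl i.succ)
    · exact h (Sum.inr i.succ)

theorem wpB_suppIn (B : Finset V) {M : ℕ} {w : Fin M → V × V} {S : Finset V}
    (h : ∀ s, slots w s ∈ S) : SuppIn S (wpB B w) := by
  induction M with
  | zero =>
    have : wpB B w = 1 := by simp [wpB]
    rw [this]; exact suppIn_one S
  | succ M ih =>
    rw [← Fin.cons_self_tail w, wpB_cons]
    refine suppIn_mul ?_ (ih ?_)
    · unfold swB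
      split_ifs
      · exact suppIn_swap (h (Sum.inl 0)) (h (Sum.inr 0))
      · exact suppIn_one S
    · intro s
      rcases s with i | i
      · exact h (Sum.inl i.succ)
      · exact h (Sum.inr i.succ)

end Pool.Agent.Stirring.HP
end

section

/-! B3a: grouping events. -/

open Finset

namespace Pool.Agent.Stirring.HP

variable {V : Type} [Fintype V] [DecidableEq V] {κ : Type} [Fintype κ] [DecidableEq κ]

theorem gI_abs_le (R : κ → κ → Prop) (σ : Equiv.Perm V) (z : κ → V) : |gI R σ z| ≤ 1 := by
  unfold gI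
  split_ifs
  · rw [abs_one]
  · rw [abs_zero]; exact zero_le_one

theorem gI_nonneg (R : κ → κ → Prop) (σ : Equiv.Perm V) (z : κ → V) : 0 ≤ gI R σ z := by
  unfold gI
  split_ifs
  · exact zero_le_one
  · exact le_rfl

theorem gI_le_one (R : κ → κ → Prop) (σ : Equiv.Perm V) (z : κ → V) : gI R σ z ≤ 1 := by
  unfold gI
  split_ifs
  · exact le_rfl
  · exact zero_le_one

theorem UR_nonneg (R : κ → κ → Prop) : 0 ≤ UR R := by
  unfold UR
  exact div_nonneg (Finset.sum_nonneg fun τ _ => gI_nonneg R τ id) (Nat.cast_nonneg _)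

theorem UR_le_one (R : κ → κ → Prop) : UR R ≤ 1 := by
  unfold UR
  rw [div_le_one (by exact_mod_cast Nat.factorial_pos _)]
  refine (Finset.sum_le_sum fun τ _ => gI_le_one R τ id).trans (le_of_eq ?_)
  rw [Finset.sum_const, Finset.card_univ, Fintype.card_perm, nsmul_eq_mul, mul_one]

/-- `sameCycle_del`. -/
theorem gI_del (R : κ → κ → Prop) {z : κ → V} {a : V} (h : ∀ c, z c ≠ a) (π : Equiv.Perm V) :
    gI R (del a π) z = gI R π z := by
  classical
  unfold gI
  refine if_congr ?_ rfl rfl
  constructor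
  · intro H c c' hc
    exact (sameCycle_del (h c) (h c') π).1 (H c c' hc)
  · intro H c c' hc
    exact (sameCycle_del (h c) (h c') π).2 (H c c' hc)

end Pool.Agent.Stirring.HP
end

section

/-! B4a: the transpositions which touch a short cycle have no effect. -/

open Finset

namespace Pool.Agent.Stirring.HP

variable {V : Type} [Fintype V] [DecidableEq V] {κ : Type} [Fintype κ] [DecidableEq κ]

/-- Induction on the word (`Fin.cons`), for all `ρ`. Let `w = cons p w'`. If `p.1, p.2 ∈ B` apply the
induction hypothesis to `ρ * swap p.1 p.2` (it agrees with `ρ` at the points of `w'`, which are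
different from `p.1`, `p.2`). Otherwise, say `p.1 ∉ B` (the other case is the same after
`Equiv.swap_comm`): `wp w'` fixes `p.1` and `p.2`, so `swap p.1 p.2 * wp w' = wp w' * swap p.1 p.2`,
`(ρ * wp w') p.1 = ρ p.1 = p.1`, hence `del p.1 (ρ * wp w' * swap p.1 p.2) = ρ * wp w'`
(`del_mul_swap`) and `gI` does not change (`gI_del`); then the induction hypothesis for `ρ`
(`swB B p = 1`). -/
theorem drop_out (R : κ → κ → Prop) (z : κ → V) (B : Finset V) {M : ℕ} (w : Fin M → V × V)
    (ρ : Equiv.Perm V) (hinj : Function.Injective (slots w)) (hz : ∀ s c, slots w s ≠ z c)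
    (hfix : ∀ s, slots w s ∉ B → ρ (slots w s) = slots w s) :
    gI R (ρ * wp w) z = gI R (ρ * wpB B w) z := by
  induction M generalizing ρ with
  | zero =>
    have h : wpB B w = 1 := by
      unfold wpB
      simp
    rw [wp_zero, h]
  | succ M ih =>
    obtain ⟨p, w', rfl⟩ : ∃ (p : V × V) (w' : Fin M → V × V), w = Fin.cons p w' :=
      ⟨w 0, Fin.tail w, (Fin.cons_self_tail w).symm⟩
    have hs : ∀ s : Fin M ⊕ Fin M, slots (Fin.cons p w' : Fin (M + 1) → V × V)
        (Sum.map Fin.succ Fin.succ s) = slots w' s := by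
      rintro (i | i) <;> simp [slots]
    have h1 : slots (Fin.cons p w' : Fin (M + 1) → V × V) (Sum.inl 0) = p.1 := by
      simp [slots]
    have h2 : slots (Fin.cons p w' : Fin (M + 1) → V × V) (Sum.inr 0) = p.2 := by
      simp [slots]
    have hinj' : Function.Injective (slots w') := by
      intro s s' hss
      have h3 : Sum.map Fin.succ Fin.succ s = Sum.map Fin.succ Fin.succ s' := by
        apply hinj
        rw [hs, hs, hss]
      exact Sum.map_injective.2 ⟨Fin.succ_injective _, Fin.succ_injective _⟩ h3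
    have hz' : ∀ s c, slots w' s ≠ z c := fun s c => by
      rw [← hs]
      exact hz _ c
    have hfix' : ∀ s, slots w' s ∉ B → ρ (slots w' s) = slots w' s := fun s hB => by
      rw [← hs] at hB ⊢
      exact hfix _ hB
    have hne1 : ∀ s, slots w' s ≠ p.1 := by
      intro s hss
      rw [← hs, ← h1] at hss
      have h3 := hinj hss
      rcases s with i | i
      · simp [Fin.succ_ne_zero] at h3
      · simp at h3
    have hne2 : ∀ s, slots w' s ≠ p.2 := by
      intro s hss
      rw [← hs, ← h2] at hss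
      have h3 := hinj hss
      rcases s with i | i
      · simp at h3
      · simp [Fin.succ_ne_zero] at h3
    have hf1 : wp w' p.1 = p.1 :=
      wp_suppIn (S := {p.1}ᶜ) (fun s => by simpa using hne1 s) p.1 (by simp)
    have hf2 : wp w' p.2 = p.2 :=
      wp_suppIn (S := {p.2}ᶜ) (fun s => by simpa using hne2 s) p.2 (by simp)
    have hcomm : Equiv.swap p.1 p.2 * wp w' = wp w' * Equiv.swap p.1 p.2 := by
      rw [Equiv.mul_swap_eq_swap_mul, hf1, hf2]
    rw [wp_cons, wpB_cons]
    by_cases hB : p.1 ∈ B ∧ p.2 ∈ B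
    · have hsw : swB B p = Equiv.swap p.1 p.2 := by
        unfold swB
        rw [if_pos hB]
      rw [hsw, ← mul_assoc, ← mul_assoc]
      refine ih w' (ρ * Equiv.swap p.1 p.2) hinj' hz' (fun s hsB => ?_)
      rw [Equiv.Perm.mul_apply, Equiv.swap_apply_of_ne_of_ne (hne1 s) (hne2 s)]
      exact hfix' s hsB
    · have hsw : swB B p = 1 := by
        unfold swB
        rw [if_neg hB]
      rw [hsw, one_mul, ← ih w' ρ hinj' hz' hfix']
      by_cases hB1 : p.1 ∈ B
      · have hB2 : p.2 ∉ B := fun h => hB ⟨hB1, h⟩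
        have hr : ρ p.2 = p.2 := by
          have := hfix (Sum.inr 0)
          rw [h2] at this
          exact this hB2
        have hd : del p.2 (ρ * wp w' * Equiv.swap p.2 p.1) = ρ * wp w' :=
          del_mul_swap (by rw [Equiv.Perm.mul_apply, hf2, hr])
        rw [hcomm, ← mul_assoc, Equiv.swap_comm p.1 p.2,
          ← gI_del R (a := p.2) (fun c hc => hz (Sum.inr 0) c (by rw [h2, hc])), hd]
      · have hr : ρ p.1 = p.1 := by
          have := hfix (Sum.inl 0)
          rw [h1] at this
          exact this hB1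
        have hd : del p.1 (ρ * wp w' * Equiv.swap p.1 p.2) = ρ * wp w' :=
          del_mul_swap (by rw [Equiv.Perm.mul_apply, hf1, hr])
        rw [hcomm, ← mul_assoc,
          ← gI_del R (a := p.1) (fun c hc => hz (Sum.inl 0) c (by rw [h1, hc])), hd]

end Pool.Agent.Stirring.HP
end

section

/-! B4b: the transpositions which touch a short cycle have no effect. -/

open Finset

namespace Pool.Agent.Stirring.HP

variable {V : Type} [Fintype V] [DecidableEq V] {κ : Type} [Fintype κ] [DecidableEq κ]

/-- Let `u = smp z w`, `S = univ.image u`, `ρ = trc S σ`. `gI R (σ * wp w) z = gI R (ρ * wp w) z` and the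
same for `wpB B w` (`trc_mul`, `gI_del`, `wp_suppIn`, `wpB_suppIn`). By `Nice` and `trc_fixed` `ρ`
fixes every `u c` which is not in `B`. If all `z a ∈ B`: `drop_out`. If `z a ∉ B`: `ρ * wp w` fixes
`z a` (the points of `w` are different from `z a`), there is `b ≠ a` with `R a b` or `R b a`, and
`z b ≠ z a` is not in the cycle `{z a}`, so `gI = 0`. -/
theorem nice_eq {R : κ → κ → Prop} (hR : NoIso R) {B : Finset V} {σ : Equiv.Perm V} {z : κ → V}
    {M : ℕ} {w : Fin M → V × V} (h : Nice σ B (smp z w)) :
    gI R (σ * wp w) z = if ∀ a, z a ∈ B then gI R (σ * wpB B w) z else 0 := by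
  have hS : ∀ c, smp z w c ∈ univ.image (smp z w) := fun c => mem_image_of_mem _ (mem_univ c)
  obtain ⟨S, hSdef⟩ : ∃ S, S = univ.image (smp z w) := ⟨_, rfl⟩
  rw [← hSdef] at hS
  have hF : ∀ a, a ∉ S → ∀ π, gI R (del a π) z = gI R π z := by
    intro a ha π
    refine gI_del R (fun c hc => ha ?_) π
    rw [← hc]
    exact hS (Sum.inl c)
  have hSw : ∀ s, slots w s ∈ S := fun s => hS (Sum.inr s)
  have e1 : gI R (σ * wp w) z = gI R (trc S σ * wp w) z :=
    trc_mul (F := fun π => gI R π z) hF (wp_suppIn hSw) σ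
  have e2 : gI R (σ * wpB B w) z = gI R (trc S σ * wpB B w) z :=
    trc_mul (F := fun π => gI R π z) hF (wpB_suppIn B hSw) σ
  have hfix : ∀ c, smp z w c ∉ B → trc S σ (smp z w c) = smp z w c := by
    intro c hc
    refine trc_fixed (hS c) fun y hy hne => ?_
    rw [hSdef] at hy
    obtain ⟨c', _, rfl⟩ := mem_image.1 hy
    exact (h c c' fun hcc => hne (by rw [hcc])).2 hc
  have hz : ∀ s c, slots w s ≠ z c := fun s c =>
    (h (Sum.inr s) (Sum.inl c) (by simp)).1
  by_cases hB : ∀ a, z a ∈ B
  · rw [if_pos hB, e1, e2]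
    refine drop_out R z B w _ (fun s s' hss => ?_) hz fun s hs => hfix (Sum.inr s) hs
    by_contra hne
    exact (h (Sum.inr s) (Sum.inr s') fun h1 => hne (Sum.inr_injective h1)).1 hss
  · rw [if_neg hB, e1]
    push Not at hB
    obtain ⟨a, ha⟩ := hB
    obtain ⟨b, hba, hR'⟩ := hR a
    have h1 : wp w (z a) = z a :=
      wp_suppIn (S := univ.erase (z a))
        (fun s => mem_erase.2 ⟨hz s a, mem_univ _⟩) (z a) (notMem_erase _ _)
    have h2 : (trc S σ * wp w) (z a) = z a := by
      rw [Equiv.Perm.mul_apply, h1]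
      exact hfix (Sum.inl a) ha
    have h3 : z b ≠ z a := (h (Sum.inl b) (Sum.inl a) fun h1 => hba (Sum.inl_injective h1)).1
    have h4 : ¬ (trc S σ * wp w).SameCycle (z a) (z b) := by
      rintro ⟨i, hi⟩
      rw [Equiv.Perm.zpow_apply_eq_self_of_apply_eq_self h2] at hi
      exact h3 hi.symm
    unfold gI
    rw [if_neg]
    intro H
    rcases hR' with h5 | h5
    · exact h4 (H a b h5)
    · exact h4 (H b a h5).symm

end Pool.Agent.Stirring.HP
end

section

end

section

/-! B5a: counting samples. -/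

open Finset

namespace Pool.Agent.Stirring.HP

variable {V : Type} [Fintype V] [DecidableEq V] {I : Type} [Fintype I] [DecidableEq I]

/-- Two coordinates in a relation with at most `D` partners of each point: `n ^ (s - 1) * D` maps. Fix
all the coordinates except `c'`. (E.g. `u ↦ (Function.update u c' (u c), …)`, or the equivalence
`Equiv.funSplitAt c' V`.) -/
theorem card_pair {B : Finset V} {E : V → V → Prop} [DecidableRel E] {D : ℕ}
    (hE : ∀ x ∈ B, (B.filter (E x)).card ≤ D) {c c' : I} (hc : c ≠ c') :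
    ((Fintype.piFinset fun _ : I => B).filter fun u => E (u c) (u c')).card ≤
      B.card ^ (Fintype.card I - 1) * D := by
  have hcard : (Fintype.piFinset fun _ : {i : I // i ≠ c'} => B).card =
      B.card ^ (Fintype.card I - 1) := by
    rw [Fintype.card_piFinset, Finset.prod_const, Finset.card_univ]
    congr 1
    rw [Fintype.card_subtype_compl]
    simp
  rw [← hcard, mul_comm]
  refine Finset.card_le_mul_card_image_of_maps_to
    (f := fun (u : I → V) (i : {i : I // i ≠ c'}) => u i) (fun u hu => ?_) D fun v hv => ?_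
  · rw [Finset.mem_filter, Fintype.mem_piFinset] at hu
    rw [Fintype.mem_piFinset]
    exact fun i => hu.1 i
  · rw [Fintype.mem_piFinset] at hv
    refine (Finset.card_le_card_of_injOn (fun u : I → V => u c')
      (t := B.filter (E (v ⟨c, hc⟩))) (fun u hu => ?_) fun u hu u' hu' h => ?_).trans
      (hE _ (hv ⟨c, hc⟩))
    · obtain ⟨h1, h2⟩ := Finset.mem_filter.1 hu
      obtain ⟨h3, h4⟩ := Finset.mem_filter.1 h1
      rw [Fintype.mem_piFinset] at h3
      refine Finset.mem_coe.2 (Finset.mem_filter.2 ⟨h3 c', ?_⟩)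
      rw [← h2]
      exact h4
    · have h2 := (Finset.mem_filter.1 (Finset.mem_coe.1 hu)).2
      have h2' := (Finset.mem_filter.1 (Finset.mem_coe.1 hu')).2
      funext i
      by_cases hi : i = c'
      · subst hi
        exact h
      · have h5 := congrFun (h2.trans h2'.symm) ⟨i, hi⟩
        exact h5

private theorem B5a_union {B : Finset V} {E : V → V → Prop} [DecidableRel E] {D : ℕ}
    (hE : ∀ x ∈ B, (B.filter (E x)).card ≤ D) {s : Finset (I → V)}
    (hs : ∀ u ∈ s, u ∈ (Fintype.piFinset fun _ : I => B) ∧ ∃ c c', c ≠ c' ∧ E (u c) (u c')) :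
    s.card ≤ Fintype.card I ^ 2 * (B.card ^ (Fintype.card I - 1) * D) := by
  have h1 : s ⊆ ((univ : Finset (I × I)).filter fun p => p.1 ≠ p.2).biUnion fun p =>
      (Fintype.piFinset fun _ : I => B).filter fun u => E (u p.1) (u p.2) := by
    intro u hu
    obtain ⟨h2, c, c', h3, h4⟩ := hs u hu
    rw [Finset.mem_biUnion]
    exact ⟨(c, c'), Finset.mem_filter.2 ⟨Finset.mem_univ _, h3⟩, Finset.mem_filter.2 ⟨h2, h4⟩⟩
  refine (Finset.card_le_card h1).trans (Finset.card_biUnion_le.trans
    ((Finset.sum_le_card_nsmul _ _ (B.card ^ (Fintype.card I - 1) * D)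
      fun p hp => card_pair hE (Finset.mem_filter.1 hp).2).trans ?_))
  rw [smul_eq_mul]
  refine Nat.mul_le_mul_right _ ((Finset.card_filter_le _ _).trans (le_of_eq ?_))
  rw [Finset.card_univ, Fintype.card_prod, sq]

/-- The maps which are not injective. `card_pair` with `E` the equality. -/
theorem card_not_inj (B : Finset V) :
    ((Fintype.piFinset fun _ : I => B).filter fun u => ¬ Function.Injective u).card ≤
      Fintype.card I ^ 2 * B.card ^ (Fintype.card I - 1) := by
  have h := B5a_union (I := I) (B := B) (E := fun x y => x = y) (D := 1) (fun x _ => ?_)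
    (s := (Fintype.piFinset fun _ : I => B).filter fun u => ¬ Function.Injective u)
    fun u hu => ?_
  · rwa [mul_one] at h
  · refine Finset.card_le_one.2 fun a ha b hb => ?_
    exact (Finset.mem_filter.1 ha).2.symm.trans (Finset.mem_filter.1 hb).2
  · obtain ⟨h1, h2⟩ := Finset.mem_filter.1 hu
    refine ⟨h1, ?_⟩
    unfold Function.Injective at h2
    push Not at h2
    obtain ⟨c, c', h3, h4⟩ := h2
    exact ⟨c, c', h4, h3⟩

open Classical in
/-- The maps which are not nice for the set of the vertices in cycles of length at least `l ≥ 1`: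
`card_pair` with `B = univ`, `E x y ↔ x = y ∨ (x ∉ big l σ ∧ σ.SameCycle x y)`, `D = l`
(`Hier.card_orb`, `Hier.mem_orb`). -/
theorem card_not_nice {l : ℕ} (hl : 1 ≤ l) (σ : Equiv.Perm V) :
    (univ.filter fun u : I → V => ¬ Nice σ (big l σ) u).card ≤
      Fintype.card I ^ 2 * (l * Fintype.card V ^ (Fintype.card I - 1)) := by
  have h := B5a_union (I := I) (B := (univ : Finset V))
    (E := fun x y => x = y ∨ (x ∉ big l σ ∧ σ.SameCycle x y)) (D := l) (fun x _ => ?_)
    (s := univ.filter fun u : I → V => ¬ Nice σ (big l σ) u) fun u hu => ?_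
  · rw [Finset.card_univ] at h
    rwa [mul_comm l]
  · by_cases hx : x ∈ big l σ
    · refine le_trans (Finset.card_le_one.2 fun a ha b hb => ?_) hl
      have ha' := ((Finset.mem_filter.1 ha).2.resolve_right fun h => h.1 hx)
      have hb' := ((Finset.mem_filter.1 hb).2.resolve_right fun h => h.1 hx)
      exact ha'.symm.trans hb'
    · have hx' : Hier.cl σ x < l := by
        have := fun h => hx (Finset.mem_filter.2 ⟨Finset.mem_univ _, h⟩)
        exact not_le.1 this
      refine le_trans (Finset.card_le_card fun y hy => ?_) ((Hier.card_orb σ x).trans_lt hx').le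
      rw [Hier.mem_orb]
      rcases (Finset.mem_filter.1 hy).2 with h | h
      · exact ⟨0, h⟩
      · obtain ⟨i, -, hi⟩ := h.2.exists_pow_eq'
        exact ⟨i, by rw [← hi, Equiv.Perm.iterate_eq_pow]⟩
  · have h2 := (Finset.mem_filter.1 hu).2
    refine ⟨by simp, ?_⟩
    unfold Nice at h2
    push Not at h2
    obtain ⟨c, c', h3, h4⟩ := h2
    refine ⟨c, c', h3, ?_⟩
    by_cases h5 : u c = u c'
    · exact Or.inl h5
    · exact Or.inr (h4 h5)

end Pool.Agent.Stirring.HP
end

section

/-! B5b: counting samples. -/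

open Finset

namespace Pool.Agent.Stirring.HP

variable {V : Type} [Fintype V] [DecidableEq V] {I : Type} [Fintype I] [DecidableEq I]

/-- Exchangeability. Let `T b' = {u ∈ B^I | u injective, f (image u) (u a) = u b'}`, `b' ≠ a`. These
sets are disjoint (injectivity), and `u ↦ u ∘ swap b b'` is a bijection from `T b` to `T b'`. -/
theorem card_exch (B : Finset V) (f : Finset V → V → V) {a b : I} (hab : a ≠ b) :
    (Fintype.card I - 1) * ((Fintype.piFinset fun _ : I => B).filter fun u =>
      Function.Injective u ∧ f (univ.image u) (u a) = u b).card ≤ B.card ^ Fintype.card I := by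
  set T : I → Finset (I → V) := fun b' => (Fintype.piFinset fun _ : I => B).filter fun u =>
      Function.Injective u ∧ f (univ.image u) (u a) = u b' with hT
  have hmem : ∀ b' u, u ∈ T b' ↔ (∀ i, u i ∈ B) ∧ Function.Injective u ∧
      f (univ.image u) (u a) = u b' := fun b' u => by
    rw [hT, Finset.mem_filter, Fintype.mem_piFinset]
  have hmap : ∀ b₁ b₂ : I, b₁ ≠ a → b₂ ≠ a → ∀ u ∈ T b₁, u ∘ Equiv.swap b₁ b₂ ∈ T b₂ := by
    intro b₁ b₂ h1 h2 u hu
    obtain ⟨h3, h4, h5⟩ := (hmem _ _).1 hu
    refine (hmem _ _).2 ⟨fun i => h3 _, h4.comp (Equiv.swap b₁ b₂).injective, ?_⟩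
    have h6 : univ.image (u ∘ Equiv.swap b₁ b₂) = univ.image u := by
      rw [← Finset.image_image]
      congr 1
      ext i
      simp only [Finset.mem_image, Finset.mem_univ, true_and, iff_true]
      exact (Equiv.swap b₁ b₂).surjective i
    rw [h6, Function.comp_apply, Function.comp_apply,
      Equiv.swap_apply_of_ne_of_ne h1.symm h2.symm, Equiv.swap_apply_right]
    exact h5
  have hcard : ∀ b' ∈ univ.erase a, (T b').card = (T b).card := by
    intro b' hb'
    have hb'a : b' ≠ a := Finset.ne_of_mem_erase hb'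
    refine Finset.card_nbij' (fun u => u ∘ Equiv.swap b' b) (fun u => u ∘ Equiv.swap b b')
      (hmap b' b hb'a hab.symm) (hmap b b' hab.symm hb'a) (fun u _ => ?_) fun u _ => ?_
    · funext i
      simp only [Function.comp_apply]
      rw [Equiv.swap_comm b b', Equiv.swap_apply_self]
    · funext i
      simp only [Function.comp_apply]
      rw [Equiv.swap_comm b' b, Equiv.swap_apply_self]
  have hdisj : Set.PairwiseDisjoint (↑(univ.erase a) : Set I) T := by
    intro b₁ _ b₂ _ h
    refine Finset.disjoint_left.2 fun u hu hu' => h ?_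
    obtain ⟨-, h4, h5⟩ := (hmem _ _).1 hu
    exact h4 (h5.symm.trans ((hmem _ _).1 hu').2.2)
  have h1 : ((univ.erase a).biUnion T).card = (Fintype.card I - 1) * (T b).card := by
    rw [Finset.card_biUnion hdisj, Finset.sum_congr rfl hcard, Finset.sum_const, smul_eq_mul,
      Finset.card_erase_of_mem (Finset.mem_univ a), Finset.card_univ]
  have h2 : (Fintype.piFinset fun _ : I => B).card = B.card ^ Fintype.card I := by
    rw [Fintype.card_piFinset, Finset.prod_const, Finset.card_univ]
  rw [← h1, ← h2]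
  refine Finset.card_le_card fun u hu => ?_
  obtain ⟨b', -, hb'⟩ := Finset.mem_biUnion.1 hu
  exact (Finset.mem_filter.1 hb').1

end Pool.Agent.Stirring.HP
end

section

/-! B5c: counting samples. -/

open Finset

namespace Pool.Agent.Stirring.HP

variable {V : Type} [Fintype V] [DecidableEq V] {I : Type} [Fintype I] [DecidableEq I]

private theorem B5c_mem_orb {σ : Equiv.Perm V} {x y : V} :
    y ∈ Hier.orb σ x ↔ σ.SameCycle x y := by
  rw [Hier.mem_orb]
  constructor
  · rintro ⟨i, hi⟩
    exact ⟨(i : ℤ), by rw [zpow_natCast, ← hi, Equiv.Perm.iterate_eq_pow]⟩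
  · intro h
    obtain ⟨i, hi⟩ := h.exists_nat_pow_eq
    exact ⟨i, by rw [Equiv.Perm.iterate_eq_pow]; exact hi⟩

/-- Fixed value at `i`, in `G` at the other points. -/
private theorem B5c_count (i : I) (x : V) (G : I → Finset V) :
    (Fintype.piFinset fun c => if c = i then ({x} : Finset V) else G c).card =
      ∏ c ∈ Finset.univ.erase i, (G c).card := by
  rw [Fintype.card_piFinset, ← Finset.mul_prod_erase Finset.univ _ (Finset.mem_univ i), if_pos rfl,
    Finset.card_singleton, one_mul]
  refine Finset.prod_congr rfl (fun c hc => ?_)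
  rw [if_neg (Finset.ne_of_mem_erase hc)]

private theorem B5c_short (B S : Finset V) (i : I) :
    ((Fintype.piFinset fun _ : I => B).filter fun u => u i ∈ S).card ≤
      B.card ^ (Fintype.card I - 1) * S.card := by
  have h1 : ((Fintype.piFinset fun _ : I => B).filter fun u => u i ∈ S) ⊆
      S.biUnion fun x => Fintype.piFinset fun c => if c = i then ({x} : Finset V) else B := by
    intro u hu
    rw [Finset.mem_filter, Fintype.mem_piFinset] at hu
    rw [Finset.mem_biUnion]
    refine ⟨u i, hu.2, ?_⟩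
    rw [Fintype.mem_piFinset]
    intro c
    by_cases hc : c = i
    · rw [if_pos hc, hc]; exact Finset.mem_singleton_self _
    · rw [if_neg hc]; exact hu.1 c
  calc _ ≤ _ := Finset.card_le_card h1
    _ ≤ ∑ x ∈ S, (Fintype.piFinset fun c => if c = i then ({x} : Finset V) else B).card :=
      Finset.card_biUnion_le
    _ = ∑ x ∈ S, B.card ^ (Fintype.card I - 1) := by
      refine Finset.sum_congr rfl (fun x _ => ?_)
      rw [B5c_count i x (fun _ => B), Finset.prod_const, Finset.card_erase_of_mem (Finset.mem_univ i),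
        Finset.card_univ]
    _ = B.card ^ (Fintype.card I - 1) * S.card := by
      rw [Finset.sum_const, smul_eq_mul, mul_comm]

private theorem B5c_long {B : Finset V} {σ : Equiv.Perm V} (hB : ∀ x ∈ B, σ x ∈ B) {i i' : I}
    (hi : i' ≠ i) {q : ℝ} (hq : 1 ≤ q) :
    (((Fintype.piFinset fun _ : I => B).filter fun u => (B.card / q : ℝ) ≤ (Hier.cl σ (u i) : ℝ) ∧
      ∀ c, c ≠ i → c ≠ i' → ¬ σ.SameCycle (u i) (u c)).card : ℝ) ≤
      (B.card : ℝ) ^ 2 * ((B.card : ℝ) * (1 - 1 / q)) ^ (Fintype.card I - 2) := by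
  set S : Finset V := B.filter fun x => (B.card / q : ℝ) ≤ (Hier.cl σ x : ℝ) with hS
  have h1 : ((Fintype.piFinset fun _ : I => B).filter fun u =>
      (B.card / q : ℝ) ≤ (Hier.cl σ (u i) : ℝ) ∧
      ∀ c, c ≠ i → c ≠ i' → ¬ σ.SameCycle (u i) (u c)) ⊆
      S.biUnion fun x => Fintype.piFinset fun c => if c = i then ({x} : Finset V) else
        (if c = i' then B else B \ Hier.orb σ x) := by
    intro u hu
    rw [Finset.mem_filter, Fintype.mem_piFinset] at hu
    obtain ⟨hu1, hu2, hu3⟩ := hu
    rw [Finset.mem_biUnion]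
    refine ⟨u i, Finset.mem_filter.mpr ⟨hu1 i, hu2⟩, ?_⟩
    rw [Fintype.mem_piFinset]
    intro c
    by_cases hc : c = i
    · rw [if_pos hc, hc]; exact Finset.mem_singleton_self _
    · rw [if_neg hc]
      by_cases hc' : c = i'
      · rw [if_pos hc']; exact hu1 c
      · rw [if_neg hc', Finset.mem_sdiff, B5c_mem_orb]
        exact ⟨hu1 c, hu3 c hc hc'⟩
  have hq0 : (0 : ℝ) < q := by linarith
  have hN0 : (0 : ℝ) ≤ (B.card : ℝ) := Nat.cast_nonneg _
  have h2 : ∀ x ∈ S, ((Fintype.piFinset fun c => if c = i then ({x} : Finset V) else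
        (if c = i' then B else B \ Hier.orb σ x)).card : ℝ) ≤
      (B.card : ℝ) * ((B.card : ℝ) * (1 - 1 / q)) ^ (Fintype.card I - 2) := by
    intro x hx
    rw [hS, Finset.mem_filter] at hx
    rw [B5c_count i x (fun c => if c = i' then B else B \ Hier.orb σ x)]
    have hi' : i' ∈ Finset.univ.erase i := Finset.mem_erase.mpr ⟨hi, Finset.mem_univ _⟩
    rw [← Finset.mul_prod_erase _ _ hi', if_pos rfl]
    have h3 : ∏ c ∈ (Finset.univ.erase i).erase i', (if c = i' then B else B \ Hier.orb σ x).card =
        (B \ Hier.orb σ x).card ^ (Fintype.card I - 2) := by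
      rw [Finset.prod_congr rfl (fun c hc => by rw [if_neg (Finset.ne_of_mem_erase hc)]),
        Finset.prod_const, Finset.card_erase_of_mem hi', Finset.card_erase_of_mem (Finset.mem_univ i),
        Finset.card_univ]
      rfl
    rw [h3]
    push_cast
    refine mul_le_mul_of_nonneg_left ?_ hN0
    refine pow_le_pow_left₀ (Nat.cast_nonneg _) ?_ _
    have h4 : Hier.orb σ x ⊆ B := Hier.orb_subset hB hx.1
    rw [Finset.card_sdiff_of_subset h4, Nat.cast_sub (Finset.card_le_card h4), Hier.card_orb]
    have h5 := hx.2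
    have h6 : (B.card : ℝ) * (1 - 1 / q) = B.card - B.card / q := by ring
    rw [h6]
    linarith
  have h3 : ((S.card : ℕ) : ℝ) ≤ (B.card : ℝ) := by
    exact_mod_cast Finset.card_le_card (Finset.filter_subset _ _)
  have hK : 0 ≤ (B.card : ℝ) * ((B.card : ℝ) * (1 - 1 / q)) ^ (Fintype.card I - 2) := by
    refine mul_nonneg hN0 (pow_nonneg (mul_nonneg hN0 ?_) _)
    rw [sub_nonneg, div_le_one hq0]
    exact hq
  calc _ ≤ ((S.biUnion fun x => Fintype.piFinset fun c => if c = i then ({x} : Finset V) else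
        (if c = i' then B else B \ Hier.orb σ x)).card : ℝ) := by
        exact_mod_cast Finset.card_le_card h1
    _ ≤ ((∑ x ∈ S, (Fintype.piFinset fun c => if c = i then ({x} : Finset V) else
        (if c = i' then B else B \ Hier.orb σ x)).card : ℕ) : ℝ) := by
        exact_mod_cast Finset.card_biUnion_le
    _ = ∑ x ∈ S, ((Fintype.piFinset fun c => if c = i then ({x} : Finset V) else
        (if c = i' then B else B \ Hier.orb σ x)).card : ℝ) := by push_cast; rfl
    _ ≤ ∑ x ∈ S, (B.card : ℝ) * ((B.card : ℝ) * (1 - 1 / q)) ^ (Fintype.card I - 2) :=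
        Finset.sum_le_sum h2
    _ = (S.card : ℝ) * ((B.card : ℝ) * ((B.card : ℝ) * (1 - 1 / q)) ^ (Fintype.card I - 2)) := by
        rw [Finset.sum_const, nsmul_eq_mul]
    _ ≤ (B.card : ℝ) * ((B.card : ℝ) * ((B.card : ℝ) * (1 - 1 / q)) ^ (Fintype.card I - 2)) :=
        mul_le_mul_of_nonneg_right h3 hK
    _ = _ := by ring

/-- For `x ∈ B` the cycle of `x` is contained in `B`. Let `s = |I| ≥ 2`, `q ≥ 1`. If
`cl σ (u i) ≥ |B| / q` then at most one coordinate `c ≠ i` has `u c` in the cycle `C` of `x = u i`, so for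
some `i' ≠ i` all the coordinates `c ≠ i, i'` are in `B \ C`, which has at most `|B| (1 - 1 / q)`
points: for given `x` and `i'` there are at most `|B| (|B| (1 - 1 / q)) ^ (s - 2)` such maps. -/
theorem card_short {B : Finset V} {σ : Equiv.Perm V} (hB : ∀ x ∈ B, σ x ∈ B) (i : I)
    (hs : 2 ≤ Fintype.card I) {q : ℝ} (hq : 1 ≤ q) :
    (((Fintype.piFinset fun _ : I => B).filter fun u => Function.Injective u ∧
      ((univ.image u).filter fun y => σ.SameCycle (u i) y).card ≤ 2).card : ℝ) ≤
      (B.card : ℝ) ^ (Fintype.card I - 1) *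
        ((B.filter fun x => (Hier.cl σ x : ℝ) < B.card / q).card : ℝ) +
      Fintype.card I * ((B.card : ℝ) ^ Fintype.card I * (1 - 1 / q) ^ (Fintype.card I - 2)) := by
  have hq0 : (0 : ℝ) < q := by linarith
  have hN0 : (0 : ℝ) ≤ (B.card : ℝ) := Nat.cast_nonneg _
  have hsub : ((Fintype.piFinset fun _ : I => B).filter fun u => Function.Injective u ∧
      ((univ.image u).filter fun y => σ.SameCycle (u i) y).card ≤ 2) ⊆
      ((Fintype.piFinset fun _ : I => B).filter fun u =>
        u i ∈ B.filter fun x => (Hier.cl σ x : ℝ) < B.card / q) ∪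
      (Finset.univ.erase i).biUnion fun i' => ((Fintype.piFinset fun _ : I => B).filter fun u =>
        (B.card / q : ℝ) ≤ (Hier.cl σ (u i) : ℝ) ∧
          ∀ c, c ≠ i → c ≠ i' → ¬ σ.SameCycle (u i) (u c)) := by
    intro u hu
    rw [Finset.mem_filter] at hu
    obtain ⟨hu1, hinj, hcard⟩ := hu
    have hu1' := hu1
    rw [Fintype.mem_piFinset] at hu1'
    rw [Finset.mem_union]
    by_cases hl : (Hier.cl σ (u i) : ℝ) < B.card / q
    · left
      rw [Finset.mem_filter, Finset.mem_filter]
      exact ⟨hu1, hu1' i, hl⟩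
    · right
      rw [Finset.mem_biUnion]
      obtain ⟨i₀, hi₀⟩ : ∃ i₀ : I, i₀ ≠ i := Fintype.exists_ne_of_one_lt_card (by omega) i
      by_cases hex : ∃ i', i' ≠ i ∧ σ.SameCycle (u i) (u i')
      · obtain ⟨i', hi', hsc⟩ := hex
        refine ⟨i', Finset.mem_erase.mpr ⟨hi', Finset.mem_univ _⟩, ?_⟩
        rw [Finset.mem_filter]
        refine ⟨hu1, not_lt.mp hl, ?_⟩
        intro c hc hc' hsc'
        have h3 : ({u i, u i', u c} : Finset V) ⊆
            (univ.image u).filter fun y => σ.SameCycle (u i) y := by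
          intro y hy
          rw [Finset.mem_insert, Finset.mem_insert, Finset.mem_singleton] at hy
          rw [Finset.mem_filter]
          rcases hy with rfl | rfl | rfl
          · exact ⟨Finset.mem_image_of_mem u (Finset.mem_univ _), Equiv.Perm.SameCycle.refl _ _⟩
          · exact ⟨Finset.mem_image_of_mem u (Finset.mem_univ _), hsc⟩
          · exact ⟨Finset.mem_image_of_mem u (Finset.mem_univ _), hsc'⟩
        have h4 : ({u i, u i', u c} : Finset V).card = 3 := by
          rw [Finset.card_eq_three]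
          exact ⟨u i, u i', u c, fun h => hi' (hinj h).symm, fun h => hc (hinj h).symm,
            fun h => hc' (hinj h).symm, rfl⟩
        have h5 := Finset.card_le_card h3
        omega
      · refine ⟨i₀, Finset.mem_erase.mpr ⟨hi₀, Finset.mem_univ _⟩, ?_⟩
        rw [Finset.mem_filter]
        refine ⟨hu1, not_lt.mp hl, ?_⟩
        intro c hc _ hsc'
        exact hex ⟨c, hc, hsc'⟩
  have h1 := Finset.card_le_card hsub
  have h2 := Finset.card_union_le
    ((Fintype.piFinset fun _ : I => B).filter fun u =>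
        u i ∈ B.filter fun x => (Hier.cl σ x : ℝ) < B.card / q)
    ((Finset.univ.erase i).biUnion fun i' => ((Fintype.piFinset fun _ : I => B).filter fun u =>
        (B.card / q : ℝ) ≤ (Hier.cl σ (u i) : ℝ) ∧
          ∀ c, c ≠ i → c ≠ i' → ¬ σ.SameCycle (u i) (u c)))
  have h3 := B5c_short B (B.filter fun x => (Hier.cl σ x : ℝ) < B.card / q) i
  have h4 : (((Finset.univ.erase i).biUnion fun i' =>
      ((Fintype.piFinset fun _ : I => B).filter fun u =>
        (B.card / q : ℝ) ≤ (Hier.cl σ (u i) : ℝ) ∧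
          ∀ c, c ≠ i → c ≠ i' → ¬ σ.SameCycle (u i) (u c))).card : ℝ) ≤
      Fintype.card I * ((B.card : ℝ) ^ Fintype.card I * (1 - 1 / q) ^ (Fintype.card I - 2)) := by
    have hK : (B.card : ℝ) ^ 2 * ((B.card : ℝ) * (1 - 1 / q)) ^ (Fintype.card I - 2) =
        (B.card : ℝ) ^ Fintype.card I * (1 - 1 / q) ^ (Fintype.card I - 2) := by
      obtain ⟨s, hs'⟩ : ∃ s, Fintype.card I = s + 2 := ⟨Fintype.card I - 2, by omega⟩
      rw [hs', Nat.add_sub_cancel, mul_pow, pow_add]
      ring
    have hK0 : 0 ≤ (B.card : ℝ) ^ Fintype.card I * (1 - 1 / q) ^ (Fintype.card I - 2) := by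
      refine mul_nonneg (pow_nonneg hN0 _) (pow_nonneg ?_ _)
      rw [sub_nonneg, div_le_one hq0]
      exact hq
    calc _ ≤ ((∑ i' ∈ Finset.univ.erase i,
          ((Fintype.piFinset fun _ : I => B).filter fun u =>
            (B.card / q : ℝ) ≤ (Hier.cl σ (u i) : ℝ) ∧
            ∀ c, c ≠ i → c ≠ i' → ¬ σ.SameCycle (u i) (u c)).card : ℕ) : ℝ) := by
          exact_mod_cast Finset.card_biUnion_le
      _ = ∑ i' ∈ Finset.univ.erase i,
          (((Fintype.piFinset fun _ : I => B).filter fun u =>
            (B.card / q : ℝ) ≤ (Hier.cl σ (u i) : ℝ) ∧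
            ∀ c, c ≠ i → c ≠ i' → ¬ σ.SameCycle (u i) (u c)).card : ℝ) := by push_cast; rfl
      _ ≤ ∑ i' ∈ Finset.univ.erase i,
          (B.card : ℝ) ^ Fintype.card I * (1 - 1 / q) ^ (Fintype.card I - 2) := by
          refine Finset.sum_le_sum (fun i' hi' => ?_)
          rw [← hK]
          exact B5c_long hB (Finset.ne_of_mem_erase hi') hq
      _ = ((Finset.univ.erase i).card : ℝ) *
          ((B.card : ℝ) ^ Fintype.card I * (1 - 1 / q) ^ (Fintype.card I - 2)) := by
          rw [Finset.sum_const, nsmul_eq_mul]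
      _ ≤ _ := by
          refine mul_le_mul_of_nonneg_right ?_ hK0
          exact_mod_cast Finset.card_le_univ _
  have h3' : (((Fintype.piFinset fun _ : I => B).filter fun u =>
        u i ∈ B.filter fun x => (Hier.cl σ x : ℝ) < B.card / q).card : ℝ) ≤
      (B.card : ℝ) ^ (Fintype.card I - 1) *
        ((B.filter fun x => (Hier.cl σ x : ℝ) < B.card / q).card : ℝ) := by
    exact_mod_cast h3
  have h12 : (((Fintype.piFinset fun _ : I => B).filter fun u => Function.Injective u ∧
      ((univ.image u).filter fun y => σ.SameCycle (u i) y).card ≤ 2).card : ℝ) ≤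
      (((Fintype.piFinset fun _ : I => B).filter fun u =>
        u i ∈ B.filter fun x => (Hier.cl σ x : ℝ) < B.card / q).card : ℝ) +
      (((Finset.univ.erase i).biUnion fun i' =>
      ((Fintype.piFinset fun _ : I => B).filter fun u =>
        (B.card / q : ℝ) ≤ (Hier.cl σ (u i) : ℝ) ∧
          ∀ c, c ≠ i → c ≠ i' → ¬ σ.SameCycle (u i) (u c))).card : ℝ) := by
    exact_mod_cast h1.trans h2
  linarith

end Pool.Agent.Stirring.HP
end

section

end

section

/-! B2b: words with distinct points, and perfect matchings. -/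

open Finset

namespace Pool.Agent.Stirring.HP

variable {V : Type} [Fintype V] [DecidableEq V] {κ : Type} [Fintype κ] [DecidableEq κ]

private def B2b_sh {M : ℕ} : Fin M ⊕ Fin M → Fin (M + 1) ⊕ Fin (M + 1) :=
  Sum.map Fin.succ Fin.succ

omit [Fintype V] [DecidableEq V] in
private theorem B2b_slots_sh {M : ℕ} (p : V × V) (w : Fin M → V × V) (s : Fin M ⊕ Fin M) :
    slots (Fin.cons p w : Fin (M + 1) → V × V) (B2b_sh s) = slots w s := by
  rcases s with i | i <;> simp [slots, B2b_sh]

omit [Fintype V] [DecidableEq V] in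
private theorem B2b_slots_inl {M : ℕ} (p : V × V) (w : Fin M → V × V) :
    slots (Fin.cons p w : Fin (M + 1) → V × V) (Sum.inl 0) = p.1 := by
  simp [slots]

omit [Fintype V] [DecidableEq V] in
private theorem B2b_slots_inr {M : ℕ} (p : V × V) (w : Fin M → V × V) :
    slots (Fin.cons p w : Fin (M + 1) → V × V) (Sum.inr 0) = p.2 := by
  simp [slots]

private theorem B2b_sh_inj {M : ℕ} : Function.Injective (B2b_sh (M := M)) :=
  Sum.map_injective.mpr ⟨Fin.succ_injective _, Fin.succ_injective _⟩

private theorem B2b_cases {M : ℕ} (s : Fin (M + 1) ⊕ Fin (M + 1)) :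
    s = Sum.inl 0 ∨ s = Sum.inr 0 ∨ ∃ t : Fin M ⊕ Fin M, s = B2b_sh t := by
  rcases s with i | i
  · rcases Fin.eq_zero_or_eq_succ i with h | ⟨k, h⟩
    · left; rw [h]
    · right; right; exact ⟨Sum.inl k, by rw [h]; rfl⟩
  · rcases Fin.eq_zero_or_eq_succ i with h | ⟨k, h⟩
    · right; left; rw [h]
    · right; right; exact ⟨Sum.inr k, by rw [h]; rfl⟩

private theorem B2b_sh_ne_inl {M : ℕ} (t : Fin M ⊕ Fin M) : B2b_sh t ≠ Sum.inl 0 := by
  rcases t with i | i <;> simp [B2b_sh]

private theorem B2b_sh_ne_inr {M : ℕ} (t : Fin M ⊕ Fin M) : B2b_sh t ≠ Sum.inr 0 := by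
  rcases t with i | i <;> simp [B2b_sh]

omit [Fintype V] in
private theorem B2b_image {M : ℕ} (p : V × V) (w : Fin M → V × V) :
    univ.image (slots (Fin.cons p w : Fin (M + 1) → V × V)) =
      insert p.1 (insert p.2 (univ.image (slots w))) := by
  ext a
  simp only [mem_image, mem_univ, true_and, mem_insert]
  constructor
  · rintro ⟨s, rfl⟩
    rcases B2b_cases s with h | h | ⟨t, h⟩
    · left; rw [h, B2b_slots_inl]
    · right; left; rw [h, B2b_slots_inr]
    · right; right; exact ⟨t, by rw [h, B2b_slots_sh]⟩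
  · rintro (h | h | ⟨t, h⟩)
    · exact ⟨Sum.inl 0, by rw [h, B2b_slots_inl]⟩
    · exact ⟨Sum.inr 0, by rw [h, B2b_slots_inr]⟩
    · exact ⟨B2b_sh t, by rw [← h, B2b_slots_sh]⟩

omit [Fintype V] in
private theorem B2b_inj {M : ℕ} (p : V × V) (w : Fin M → V × V) :
    Function.Injective (slots (Fin.cons p w : Fin (M + 1) → V × V)) ↔
      p.1 ≠ p.2 ∧ p.1 ∉ univ.image (slots w) ∧ p.2 ∉ univ.image (slots w) ∧
        Function.Injective (slots w) := by
  simp only [mem_image, mem_univ, true_and, not_exists]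
  constructor
  · intro h
    refine ⟨?_, ?_, ?_, ?_⟩
    · intro he
      have := h ((B2b_slots_inl p w).trans (he.trans (B2b_slots_inr p w).symm))
      simp at this
    · intro t ht
      have := h ((B2b_slots_sh p w t).trans (ht.trans (B2b_slots_inl p w).symm))
      exact B2b_sh_ne_inl t this
    · intro t ht
      have := h ((B2b_slots_sh p w t).trans (ht.trans (B2b_slots_inr p w).symm))
      exact B2b_sh_ne_inr t this
    · intro s t hst
      have := h ((B2b_slots_sh p w s).trans (hst.trans (B2b_slots_sh p w t).symm))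
      exact B2b_sh_inj this
  · rintro ⟨h1, h2, h3, h4⟩ s t hst
    rcases B2b_cases s with hs | hs | ⟨s', hs⟩ <;> rcases B2b_cases t with ht | ht | ⟨t', ht⟩ <;>
      subst hs <;> subst ht <;>
      simp only [B2b_slots_inl, B2b_slots_inr, B2b_slots_sh] at hst
    · rfl
    · exact absurd hst h1
    · exact absurd hst.symm (h2 _)
    · exact absurd hst.symm h1
    · rfl
    · exact absurd hst.symm (h3 _)
    · exact absurd hst (h2 _)
    · exact absurd hst (h3 _)
    · rw [h4 hst]

private theorem B2b_mem {X : Finset V} {j : ℕ} (x y : V) (w : Fin j → V × V) :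
    (Fin.cons (x, y) w : Fin (j + 1) → V × V) ∈ Wset X (j + 1) ↔
      x ∈ X ∧ y ∈ X.erase x ∧ w ∈ Wset (rmv X x y) j := by
  unfold Wset
  simp only [mem_filter, mem_univ, true_and, B2b_inj, B2b_image]
  constructor
  · rintro ⟨⟨h1, h2, h3, h4⟩, h5⟩
    subst h5
    refine ⟨mem_insert_self _ _, ?_, h4, ?_⟩
    · rw [mem_erase]
      exact ⟨Ne.symm h1, mem_insert_of_mem (mem_insert_self _ _)⟩
    · show _ = ((insert x (insert y (univ.image (slots w)))).erase x).erase y
      rw [erase_insert, erase_insert h3]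
      rw [mem_insert, not_or]
      exact ⟨h1, h2⟩
  · rintro ⟨h1, h2, h3, h4⟩
    rw [h4]
    have hxy : x ≠ y := (ne_of_mem_erase h2).symm
    refine ⟨⟨hxy, ?_, ?_, h3⟩, ?_⟩
    · simp [rmv]
    · simp [rmv]
    · show insert x (insert y ((X.erase x).erase y)) = X
      rw [insert_erase h2, insert_erase h1]

/-- Induction on `j`. A word of `Wset X (j + 1)` is `Fin.cons (x, y) w` with `x ∈ X`,
`y ∈ X.erase x`, `w ∈ Wset (rmv X x y) j` (`Fin.consEquiv`). By the induction hypothesis the sum is
`∑_{x ∈ X} 2 ^ j j! ∑_{y ∈ X.erase x} ∑_{ν ∈ matchings (rmv X x y)} f (swap x y * ν)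
= ∑_{x ∈ X} 2 ^ j j! ∑_{μ ∈ matchings X} f μ` by `sum_matchings`, and `|X| = 2 (j + 1)`. Replace `f`
by `fun μ => f (swap x y * μ)` in the induction hypothesis. -/
theorem sum_Wset {X : Finset V} {j : ℕ} (hX : X.card = 2 * j) (f : Equiv.Perm V → ℝ) :
    ∑ w ∈ Wset X j, f (wp w) = 2 ^ j * j.factorial * ∑ μ ∈ matchings X, f μ := by
  induction j generalizing X f with
  | zero =>
    have hX0 : X = ∅ := by rw [← card_eq_zero, hX]
    subst hX0
    have hW : Wset (∅ : Finset V) 0 = univ := by
      unfold Wset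
      rw [filter_eq_self]
      intro w _
      refine ⟨fun s => ?_, ?_⟩
      · rcases s with i | i <;> exact i.elim0
      · rw [univ_eq_empty, image_empty]
    rw [hW, matchings_empty]
    simp [wp_zero]
  | succ j ih =>
    have e1 : ∑ w ∈ Wset X (j + 1), f (wp w) =
        ∑ p : V × V, ∑ w : Fin j → V × V,
          if (Fin.cons p w : Fin (j + 1) → V × V) ∈ Wset X (j + 1)
            then f (wp (Fin.cons p w : Fin (j + 1) → V × V)) else 0 := by
      have h0 : ∑ w ∈ Wset X (j + 1), f (wp w) =
          ∑ w : Fin (j + 1) → V × V, if w ∈ Wset X (j + 1) then f (wp w) else 0 := by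
        rw [Finset.sum_ite_mem, univ_inter]
      rw [h0, ← (Fin.consEquiv (fun _ : Fin (j + 1) => V × V)).sum_comp, Fintype.sum_prod_type]
      rfl
    have e2 : ∀ x y : V, (∑ w : Fin j → V × V,
          if (Fin.cons (x, y) w : Fin (j + 1) → V × V) ∈ Wset X (j + 1)
            then f (wp (Fin.cons (x, y) w : Fin (j + 1) → V × V)) else 0) =
        if x ∈ X then (if y ∈ X.erase x then
          2 ^ j * j.factorial * ∑ ν ∈ matchings (rmv X x y), f (Equiv.swap x y * ν)
          else 0) else 0 := by
      intro x y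
      by_cases hx : x ∈ X
      · by_cases hy : y ∈ X.erase x
        · rw [if_pos hx, if_pos hy]
          have hc : (rmv X x y).card = 2 * j := by
            show ((X.erase x).erase y).card = 2 * j
            rw [card_erase_of_mem hy, card_erase_of_mem hx, hX]
            omega
          rw [← ih hc (fun μ => f (Equiv.swap x y * μ))]
          have h0 : ∑ w ∈ Wset (rmv X x y) j, f (Equiv.swap x y * wp w) =
              ∑ w : Fin j → V × V,
                if w ∈ Wset (rmv X x y) j then f (Equiv.swap x y * wp w) else 0 := by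
            rw [Finset.sum_ite_mem, univ_inter]
          rw [h0]
          refine sum_congr rfl fun w _ => ?_
          rw [wp_cons]
          by_cases hw : w ∈ Wset (rmv X x y) j
          · rw [if_pos hw, if_pos ((B2b_mem x y w).mpr ⟨hx, hy, hw⟩)]
          · rw [if_neg hw, if_neg (fun h => hw ((B2b_mem x y w).mp h).2.2)]
        · rw [if_pos hx, if_neg hy]
          refine sum_eq_zero fun w _ => ?_
          rw [if_neg (fun h => hy ((B2b_mem x y w).mp h).2.1)]
      · rw [if_neg hx]
        refine sum_eq_zero fun w _ => ?_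
        rw [if_neg (fun h => hx ((B2b_mem x y w).mp h).1)]
    rw [e1, Fintype.sum_prod_type]
    have e3 : ∀ x : V, (∑ y : V, ∑ w : Fin j → V × V,
          if (Fin.cons (x, y) w : Fin (j + 1) → V × V) ∈ Wset X (j + 1)
            then f (wp (Fin.cons (x, y) w : Fin (j + 1) → V × V)) else 0) =
        if x ∈ X then 2 ^ j * j.factorial * ∑ μ ∈ matchings X, f μ else 0 := by
      intro x
      rw [sum_congr rfl fun y _ => e2 x y]
      by_cases hx : x ∈ X
      · simp only [if_pos hx]
        rw [Finset.sum_ite_mem, univ_inter, ← mul_sum, ← sum_matchings hx]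
      · simp only [if_neg hx, sum_const_zero]
    rw [sum_congr rfl fun x _ => e3 x, Finset.sum_ite_mem, univ_inter, sum_const, hX,
      nsmul_eq_mul, Nat.factorial_succ]
    push_cast
    ring

/-- `sum_Wset` with `f = 1`, `card_matchings`, `factorial_mm`. -/
theorem card_Wset {X : Finset V} {j : ℕ} (hX : X.card = 2 * j) :
    ((Wset X j).card : ℝ) = 2 ^ j * j.factorial * (matchings X).card := by
  have := sum_Wset hX (fun _ : Equiv.Perm V => (1 : ℝ))
  simpa using this

end Pool.Agent.Stirring.HP
end

section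

/-! B2c: words with distinct points, and perfect matchings. -/

open Finset

namespace Pool.Agent.Stirring.HP

variable {V : Type} [Fintype V] [DecidableEq V] {κ : Type} [Fintype κ] [DecidableEq κ]

/-- Group the words of `GW B z j` according to the set `X` of their points: for `X = univ.image
(slots w)` (`2 j` points of `B` different from the `z c`) the words of `GW B z j` with this set are
exactly those of `Wset X j`, and `∑_{w ∈ Wset X j} F (σ * wp w) = |Wset X j| * AM F σ X` by `sum_Wset`
(with `f μ = F (σ * μ)`) and `card_Wset`. (`Finset.sum_fiberwise` twice.) -/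
theorem sum_GW (B : Finset V) (z : κ → V) (j : ℕ) (F : Equiv.Perm V → ℝ) (σ : Equiv.Perm V) :
    ∑ w ∈ GW B z j, F (σ * wp w) = ∑ w ∈ GW B z j, AM F σ (univ.image (slots w)) := by
  classical
  have hfib : ∀ X ∈ (GW B z j).image (fun w => univ.image (slots w)),
      ((GW B z j).filter fun w => univ.image (slots w) = X) = Wset X j := by
    intro X hX
    obtain ⟨w0, hw0, rfl⟩ := Finset.mem_image.1 hX
    have h0 := (Finset.mem_filter.1 hw0).2
    ext w
    simp only [GW, Wset, Finset.mem_filter, Finset.mem_univ, true_and]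
    constructor
    · rintro ⟨⟨h1, -⟩, h2⟩
      exact ⟨h1, h2⟩
    · rintro ⟨h1, h2⟩
      refine ⟨⟨h1, fun s => ?_⟩, h2⟩
      have h3 : slots w s ∈ univ.image (slots w0) := by
        rw [← h2]
        exact Finset.mem_image_of_mem _ (Finset.mem_univ s)
      obtain ⟨s', -, hs'⟩ := Finset.mem_image.1 h3
      rw [← hs']
      exact h0.2 s'
  have hcard : ∀ X ∈ (GW B z j).image (fun w => univ.image (slots w)), X.card = 2 * j := by
    intro X hX
    obtain ⟨w0, hw0, rfl⟩ := Finset.mem_image.1 hX
    have h0 := (Finset.mem_filter.1 hw0).2.1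
    rw [Finset.card_image_of_injective _ h0, Finset.card_univ, Fintype.card_sum,
      Fintype.card_fin]
    omega
  have hmaps : ∀ w ∈ GW B z j, univ.image (slots w) ∈
      (GW B z j).image (fun w => univ.image (slots w)) := fun w hw =>
    Finset.mem_image_of_mem _ hw
  rw [← Finset.sum_fiberwise_of_maps_to hmaps (fun w => F (σ * wp w)),
    ← Finset.sum_fiberwise_of_maps_to hmaps (fun w => AM F σ (univ.image (slots w)))]
  refine Finset.sum_congr rfl fun X hX => ?_
  have e1 : ∑ w ∈ (GW B z j).filter (fun w => univ.image (slots w) = X),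
      AM F σ (univ.image (slots w)) = ∑ w ∈ (GW B z j).filter
        (fun w => univ.image (slots w) = X), AM F σ X :=
    Finset.sum_congr rfl fun w hw => by rw [(Finset.mem_filter.1 hw).2]
  rw [e1, hfib X hX, Finset.sum_const, nsmul_eq_mul, card_Wset (hcard X hX),
    sum_Wset (hcard X hX) (fun μ => F (σ * μ))]
  unfold AM
  rcases Nat.eq_zero_or_pos (matchings X).card with h0 | h0
  · rw [Finset.card_eq_zero] at h0
    rw [h0]
    simp
  · have h1 : ((matchings X).card : ℝ) ≠ 0 := by
      exact_mod_cast h0.ne'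
    field_simp

end Pool.Agent.Stirring.HP
end

section

end

section

/-! B7a: the mean over the words in the points of `B`. -/

open Finset

namespace Pool.Agent.Stirring.HP

variable {V : Type} [Fintype V] [DecidableEq V] {κ : Type} [Fintype κ] [DecidableEq κ]

/-- The pairs `(z, w)` are the maps `smp z w` (equivalences `Sum` of functions, `Equiv.sumArrowEquivProdArrow`,
`Equiv.arrowProdEquivProdArrow`). -/
theorem sum_smp (B : Finset V) (j : ℕ) (f : (κ ⊕ (Fin j ⊕ Fin j) → V) → ℝ) :
    ∑ z ∈ Fintype.piFinset (fun _ : κ => B), ∑ w ∈ Fintype.piFinset (fun _ : Fin j => B ×ˢ B),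
      f (smp z w) = ∑ u ∈ Fintype.piFinset (fun _ : κ ⊕ (Fin j ⊕ Fin j) => B), f u := by
  rw [← sum_product']
  refine sum_nbij' (fun x => smp x.1 x.2)
    (fun u => (fun c => u (Sum.inl c), fun k => (u (Sum.inr (Sum.inl k)), u (Sum.inr (Sum.inr k)))))
    ?_ ?_ ?_ ?_ ?_
  · rintro ⟨z, w⟩ h
    rw [mem_product, Fintype.mem_piFinset, Fintype.mem_piFinset] at h
    rw [Fintype.mem_piFinset]
    rintro (c | k | k)
    · exact h.1 c
    · exact (mem_product.1 (h.2 k)).1
    · exact (mem_product.1 (h.2 k)).2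
  · intro u h
    rw [Fintype.mem_piFinset] at h
    rw [mem_product, Fintype.mem_piFinset, Fintype.mem_piFinset]
    exact ⟨fun c => h _, fun k => mem_product.2 ⟨h _, h _⟩⟩
  · rintro ⟨z, w⟩ _
    rfl
  · intro u _
    funext s
    rcases s with c | k | k <;> rfl
  · intro x _
    rfl

theorem smp_inj {B : Finset V} {j : ℕ} {z : κ → V} {w : Fin j → V × V} :
    (Function.Injective (smp z w) ∧ ∀ s, slots w s ∈ B) ↔
      (Function.Injective z ∧ w ∈ GW B z j) := by
  unfold GW
  rw [mem_filter]
  constructor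
  · rintro ⟨h1, h2⟩
    refine ⟨fun a b h => Sum.inl_injective (h1 h), mem_univ _,
      fun a b h => Sum.inr_injective (h1 h), fun s => ⟨h2 s, fun c h => ?_⟩⟩
    exact Sum.inr_ne_inl (h1 (a₁ := Sum.inr s) (a₂ := Sum.inl c) h)
  · rintro ⟨h1, -, h2, h3⟩
    refine ⟨?_, fun s => (h3 s).1⟩
    rintro (a | a) (b | b) h
    · exact congrArg _ (h1 h)
    · exact ((h3 b).2 a h.symm).elim
    · exact ((h3 a).2 b h).elim
    · exact congrArg _ (h2 h)

theorem image_smp {j : ℕ} (z : κ → V) (w : Fin j → V × V) :
    univ.image (smp z w) = univ.image (slots w) ∪ univ.image z := by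
  ext x
  simp only [mem_image, mem_union, mem_univ, true_and, Sum.exists, smp, Sum.elim_inl,
    Sum.elim_inr]
  exact or_comm

end Pool.Agent.Stirring.HP
end

section

/-! B6a: the number of transpositions inside `B` is binomial. -/

open Finset

namespace Pool.Agent.Stirring.HP

variable {V : Type} [Fintype V] [DecidableEq V]

private theorem B6a_cons {j : ℕ} (S : Finset (V × V)) (g : (Fin (j + 1) → V × V) → ℝ) :
    ∑ w ∈ Fintype.piFinset (fun _ : Fin (j + 1) => S), g w =
      ∑ p ∈ S, ∑ w ∈ Fintype.piFinset (fun _ : Fin j => S),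
        g (Fin.cons p w : Fin (j + 1) → V × V) := by
  rw [← Finset.sum_product']
  refine Finset.sum_nbij' (fun w => (w 0, Fin.tail w))
    (fun q => (Fin.cons q.1 q.2 : Fin (j + 1) → V × V)) ?_ ?_ ?_ ?_ ?_
  · intro w hw
    rw [Fintype.mem_piFinset] at hw
    rw [Finset.mem_product, Fintype.mem_piFinset]
    exact ⟨hw 0, fun i => hw i.succ⟩
  · intro q hq
    rw [Finset.mem_product, Fintype.mem_piFinset] at hq
    rw [Fintype.mem_piFinset]
    intro i
    refine Fin.cases ?_ (fun i => ?_) i
    · exact hq.1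
    · exact hq.2 i
  · intro w _
    exact Fin.cons_self_tail w
  · intro q _
    simp
  · intro w _
    simp only [Fin.cons_self_tail]

/-- Split off the first letter (`Fin.consEquiv`, `wp_cons`). -/
theorem QM_succ (B : Finset V) (j : ℕ) (f : Equiv.Perm V → ℝ) (σ : Equiv.Perm V) :
    QM B (j + 1) f σ =
      (∑ p ∈ B ×ˢ B, QM B j f (σ * Equiv.swap p.1 p.2)) / (B.card : ℝ) ^ 2 := by
  unfold QM
  rw [B6a_cons]
  simp only [wp_cons, ← mul_assoc]
  rw [← Finset.sum_div, div_div, pow_succ]

/-- Split off the first letter; the letters outside of `B × B` contribute `1 - (|B| / n)²`. -/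
theorem LM_succ [Nonempty V] (B : Finset V) (M : ℕ) (f : Equiv.Perm V → ℝ) (σ : Equiv.Perm V) :
    LM B (M + 1) f σ =
      (∑ p ∈ B ×ˢ B, LM B M f (σ * Equiv.swap p.1 p.2)) / (Fintype.card V : ℝ) ^ 2 +
      (1 - ((B.card : ℝ) / Fintype.card V) ^ 2) * LM B M f σ := by
  have hn : ((Fintype.card V : ℕ) : ℝ) ≠ 0 := by exact_mod_cast Fintype.card_ne_zero
  have h1 : ∑ w : Fin (M + 1) → V × V, f (σ * wpB B w) =
      ∑ p : V × V, ∑ w : Fin M → V × V, f (σ * swB B p * wpB B w) := by
    have h := B6a_cons (j := M) (univ : Finset (V × V)) fun w => f (σ * wpB B w)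
    simp only [Fintype.piFinset_univ, wpB_cons, ← mul_assoc] at h
    exact h
  have h2 : ∑ p : V × V, ∑ w : Fin M → V × V, f (σ * swB B p * wpB B w) =
      ∑ p ∈ B ×ˢ B, ∑ w : Fin M → V × V, f (σ * Equiv.swap p.1 p.2 * wpB B w) +
        ((Fintype.card V : ℝ) ^ 2 - (B.card : ℝ) ^ 2) *
          ∑ w : Fin M → V × V, f (σ * wpB B w) := by
    rw [← Finset.sum_add_sum_compl (B ×ˢ B)]
    congr 1
    · refine Finset.sum_congr rfl fun p hp => ?_
      rw [swB, if_pos (Finset.mem_product.1 hp)]
    · rw [Finset.sum_congr rfl (g := fun _ => ∑ w : Fin M → V × V, f (σ * wpB B w)) fun p hp => ?_]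
      · rw [Finset.sum_const, Finset.card_compl, nsmul_eq_mul, Finset.card_product,
          Fintype.card_prod, Nat.cast_sub (Nat.mul_le_mul (Finset.card_le_univ B)
            (Finset.card_le_univ B))]
        push_cast
        ring
      · rw [Finset.mem_compl, Finset.mem_product] at hp
        rw [swB, if_neg hp, mul_one]
  unfold LM
  rw [h1, h2, ← Finset.sum_div, pow_succ]
  field_simp
  ring

/-- Induction on `M` for all `σ`, with `LM_succ`, `QM_succ` and Pascal's rule
(`Finset.sum_range_succ'`, `Nat.choose_succ_succ`). -/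
theorem LM_eq [Nonempty V] {B : Finset V} (hB : B.Nonempty) (M : ℕ) (f : Equiv.Perm V → ℝ)
    (σ : Equiv.Perm V) :
    LM B M f σ = ∑ j ∈ range (M + 1), (M.choose j : ℝ) * (((B.card : ℝ) / Fintype.card V) ^ 2) ^ j *
      (1 - ((B.card : ℝ) / Fintype.card V) ^ 2) ^ (M - j) * QM B j f σ := by
  have hn : ((Fintype.card V : ℕ) : ℝ) ≠ 0 := by exact_mod_cast Fintype.card_ne_zero
  have hb : ((B.card : ℕ) : ℝ) ≠ 0 := by exact_mod_cast (Finset.card_pos.2 hB).ne'
  induction M generalizing σ with
  | zero =>
    have h1 : ∀ w : Fin 0 → V × V, wpB B w = 1 := fun w => by simp [wpB]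
    have h2 : ∀ w : Fin 0 → V × V, wp w = 1 := fun w => by simp [wp]
    simp [LM, QM, h1, h2]
  | succ M ih =>
    rw [LM_succ]
    simp only [ih]
    set x := ((B.card : ℝ) / Fintype.card V) ^ 2 with hx
    have hQ : ∀ j, (∑ p ∈ B ×ˢ B, QM B j f (σ * Equiv.swap p.1 p.2)) / (Fintype.card V : ℝ) ^ 2 =
        x * QM B (j + 1) f σ := fun j => by
      rw [QM_succ, hx]
      field_simp
    have h1 : (∑ p ∈ B ×ˢ B, ∑ j ∈ range (M + 1), (M.choose j : ℝ) * x ^ j *
        (1 - x) ^ (M - j) * QM B j f (σ * Equiv.swap p.1 p.2)) / (Fintype.card V : ℝ) ^ 2 =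
        ∑ j ∈ range (M + 1), (M.choose j : ℝ) * x ^ (j + 1) * (1 - x) ^ (M - j) *
          QM B (j + 1) f σ := by
      rw [Finset.sum_comm, Finset.sum_div]
      refine Finset.sum_congr rfl fun j _ => ?_
      rw [← Finset.mul_sum, mul_div_assoc, hQ, pow_succ]
      ring
    have h2 : (1 - x) * ∑ j ∈ range (M + 1), (M.choose j : ℝ) * x ^ j * (1 - x) ^ (M - j) *
        QM B j f σ = ∑ j ∈ range (M + 1), (M.choose (j + 1) : ℝ) * x ^ (j + 1) *
          (1 - x) ^ (M - j) * QM B (j + 1) f σ + (1 - x) ^ (M + 1) * QM B 0 f σ := by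
      have h3 := Finset.sum_range_succ' (fun j => (M.choose j : ℝ) * x ^ j *
        (1 - x) ^ (M + 1 - j) * QM B j f σ) (M + 1)
      rw [Finset.sum_range_succ] at h3
      simp only [Nat.choose_succ_self, Nat.cast_zero, zero_mul, add_zero, Nat.add_sub_add_right,
        Nat.choose_zero_right, Nat.cast_one, pow_zero, one_mul, Nat.sub_zero] at h3
      rw [← h3, Finset.mul_sum]
      refine Finset.sum_congr rfl fun j hj => ?_
      rw [Nat.succ_sub (Nat.lt_succ_iff.1 (Finset.mem_range.1 hj)), pow_succ]
      ring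
    rw [h1, h2, Finset.sum_range_succ' _ (M + 1), ← add_assoc, ← Finset.sum_add_distrib]
    simp only [Nat.choose_zero_right, Nat.cast_one, pow_zero, one_mul, Nat.sub_zero,
      Nat.add_sub_add_right]
    congr 1
    refine Finset.sum_congr rfl fun j _ => ?_
    rw [Nat.choose_succ_succ]
    push_cast
    ring

end Pool.Agent.Stirring.HP
end

section

end
end

section

section

/-! C5c: convergence in law of the rescaled cycle lengths. -/

open Finset Filter Topology

namespace Pool.Agent.Stirring.HP

open Pool.Agent.Stirring.Hier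

variable {N : ℕ} [NeZero N] {g : ℕ → ℝ} {t c ρ m : ℝ} {h0 : 0 ≤ m} {h1 : m ≤ 1}

theorem C5c_sum_cyc {V : Type} [Fintype V] [DecidableEq V] (σ : Equiv.Perm V) (f : ℕ → ℝ) :
    ∑ x, f (cyc σ x).card = ∑ A ∈ univ.image (cyc σ), (A.card : ℝ) * f A.card := by
  rw [← Finset.sum_fiberwise_of_maps_to (s := univ) (t := univ.image (cyc σ)) (g := cyc σ)
    (fun x hx => Finset.mem_image_of_mem _ hx)]
  refine Finset.sum_congr rfl fun A hA => ?_
  obtain ⟨z, _, rfl⟩ := Finset.mem_image.1 hA
  have h1 : (univ.filter fun x => cyc σ x = cyc σ z) = cyc σ z := by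
    ext x
    rw [Finset.mem_filter, mem_cyc]
    constructor
    · rintro ⟨_, h⟩
      have := self_mem_cyc σ x
      rw [h] at this
      exact mem_cyc.1 this
    · intro h
      refine ⟨Finset.mem_univ _, ?_⟩
      ext y
      rw [mem_cyc, mem_cyc]
      exact ⟨fun h' => h.trans h', fun h' => h.symm.trans h'⟩
  rw [h1, Finset.sum_congr rfl (g := fun _ => f (cyc σ z).card), Finset.sum_const, nsmul_eq_mul]
  intro x hx
  rw [← h1, Finset.mem_filter] at hx
  rw [hx.2]

theorem C5c_count (s : Multiset ℕ) (a : ℕ) :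
    (s.map fun l => if l = a then (1 : ℝ) else 0).sum = s.count a := by
  induction s using Multiset.induction_on with
  | empty => simp
  | cons b s ih =>
    rw [Multiset.map_cons, Multiset.sum_cons, ih, Multiset.count_cons]
    by_cases h : b = a
    · rw [if_pos h, if_pos h.symm]; push_cast; ring
    · rw [if_neg h, if_neg (fun e => h e.symm)]; push_cast; ring

theorem C5c_parts {V : Type} [Fintype V] [DecidableEq V] (σ : Equiv.Perm V) :
    σ.partition.parts = (univ.image (cyc σ)).val.map Finset.card := by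
  refine Multiset.ext.2 fun a => ?_
  rcases Nat.eq_zero_or_pos a with rfl | ha
  · rw [Multiset.count_eq_zero_of_notMem, Multiset.count_eq_zero_of_notMem]
    · intro h
      obtain ⟨A, hA, hA0⟩ := Multiset.mem_map.1 h
      obtain ⟨z, _, rfl⟩ := Finset.mem_image.1 (Finset.mem_def.2 hA)
      have := self_mem_cyc σ z
      rw [Finset.card_eq_zero.1 hA0] at this
      exact Finset.notMem_empty _ this
    · intro h
      exact lt_irrefl _ (σ.partition.parts_pos h)
  · have haR : (a : ℝ) ≠ 0 := by exact_mod_cast ha.ne'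
    have e1 := sum_cyc_eq_parts σ (fun l => if l = a then 1 / (l : ℝ) else 0)
    have e2 := C5c_sum_cyc σ (fun l => if l = a then 1 / (l : ℝ) else 0)
    have e3 : (σ.partition.parts.map fun l : ℕ => (l : ℝ) * (if l = a then 1 / (l : ℝ) else 0)) =
        σ.partition.parts.map fun l : ℕ => if l = a then (1 : ℝ) else 0 := by
      refine Multiset.map_congr rfl fun l _ => ?_
      by_cases h : l = a
      · subst h
        rw [if_pos rfl, if_pos rfl]
        field_simp
      · rw [if_neg h, if_neg h, mul_zero]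
    have e4 : ∑ A ∈ univ.image (cyc σ), (A.card : ℝ) *
        (if A.card = a then 1 / (A.card : ℝ) else 0) =
        (((univ.image (cyc σ)).val.map Finset.card).map
          fun l : ℕ => if l = a then (1 : ℝ) else 0).sum := by
      rw [Multiset.map_map, Finset.sum]
      congr 1
      refine Multiset.map_congr rfl fun A _ => ?_
      simp only [Function.comp_apply]
      by_cases h : A.card = a
      · rw [if_pos h, if_pos h, h]
        field_simp
      · rw [if_neg h, if_neg h, mul_zero]
    rw [e3, C5c_count] at e1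
    rw [e4, C5c_count, e1] at e2
    exact_mod_cast e2

theorem C5c_take : ∀ (l : List ℕ) (k : ℕ), (l.take k).sum = ∑ i ∈ range k, l.getD i 0
  | [], k => by simp
  | a :: l, 0 => by simp
  | a :: l, k + 1 => by
    rw [List.take_succ_cons, List.sum_cons, C5c_take l k, Finset.sum_range_succ', add_comm]
    rfl

theorem C5c_take_mono (l : List ℕ) {k k' : ℕ} (h : k ≤ k') : (l.take k).sum ≤ (l.take k').sum := by
  rw [C5c_take, C5c_take]
  exact Finset.sum_le_sum_of_subset (Finset.range_mono h)

theorem C5c_sublist {l' l : List ℕ} (h : l'.Sublist l) (hl : l.Pairwise (· ≥ ·)) :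
    l'.sum ≤ (l.take l'.length).sum := by
  induction h with
  | slnil => simp
  | @cons l₁ l₂ a h ih =>
    have h2 := ih hl.of_cons
    cases hl1 : l₁ with
    | nil => simp
    | cons b l₃ =>
      rw [hl1] at h2
      refine h2.trans ?_
      rw [List.length_cons, List.take_succ_cons, List.sum_cons, C5c_take, Finset.sum_range_succ,
        C5c_take, add_comm]
      refine Nat.add_le_add_right ?_ _
      by_cases h3 : l₃.length < l₂.length
      · rw [List.getD_eq_getElem _ _ h3]
        exact (List.pairwise_cons.1 hl).1 _ (List.getElem_mem h3)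
      · rw [List.getD_eq_default _ _ (not_lt.1 h3)]
        exact Nat.zero_le _
  | @cons_cons l₁ l₂ a h ih =>
    rw [List.length_cons, List.take_succ_cons, List.sum_cons, List.sum_cons]
    exact Nat.add_le_add_left (ih hl.of_cons) _

/-- The list of the cycles, with decreasing lengths. -/
theorem C5c_list {V : Type} [Fintype V] [DecidableEq V] (σ : Equiv.Perm V) :
    ∃ L : List (Finset V), L.Nodup ∧ L.toFinset = univ.image (cyc σ) ∧
      L.map Finset.card = σ.partition.parts.sort (· ≥ ·) := by
  have hp := List.perm_insertionSort (fun A B : Finset V => B.card ≤ A.card)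
    (univ.image (cyc σ)).toList
  set L := (univ.image (cyc σ)).toList.insertionSort (fun A B : Finset V => B.card ≤ A.card) with hL
  refine ⟨L, hp.nodup_iff.2 (Finset.nodup_toList _), ?_, ?_⟩
  · rw [List.toFinset_eq_of_perm _ _ hp, Finset.toList_toFinset]
  · haveI : Std.Total (fun A B : Finset V => B.card ≤ A.card) := ⟨fun A B => le_total _ _⟩
    haveI : IsTrans (Finset V) (fun A B : Finset V => B.card ≤ A.card) :=
      ⟨fun A B C h1 h2 => le_trans h2 h1⟩
    have hs : L.Pairwise (fun A B : Finset V => B.card ≤ A.card) := List.pairwise_insertionSort _ _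
    have hs1 : (L.map Finset.card).Pairwise (· ≥ ·) := List.pairwise_map.2 hs
    have hs2 := σ.partition.parts.pairwise_sort (· ≥ ·)
    refine List.Perm.eq_of_pairwise (le := (· ≥ ·)) (fun a b _ _ h1 h2 => le_antisymm h2 h1)
      hs1 hs2 ?_
    rw [← Multiset.coe_eq_coe, Multiset.sort_eq, C5c_parts, ← Multiset.map_coe]
    congr 1
    rw [Multiset.coe_eq_coe.2 hp]
    exact Finset.coe_toList _

/-- `topMass k σ / n` is the sum of the `k` largest relative lengths. -/
theorem topMass_eq {V : Type} [Fintype V] [DecidableEq V] [Nonempty V] (k : ℕ)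
    (σ : Equiv.Perm V) :
    (topMass k σ : ℝ) / Fintype.card V = ∑ i ∈ range k, relLen σ i := by
  classical
  obtain ⟨L, hLn, hLf, hLm⟩ := C5c_list σ
  set l := σ.partition.parts.sort (· ≥ ·) with hl
  have hls : l.Pairwise (· ≥ ·) := σ.partition.parts.pairwise_sort (· ≥ ·)
  have hcov : ∀ s : Finset V, Nat.card {y // ∃ x ∈ s, σ.SameCycle x y} =
      ∑ A ∈ s.image (cyc σ), A.card := by
    intro s
    rw [Nat.card_eq_fintype_card, Fintype.card_subtype, ← Finset.card_biUnion]
    · congr 1
      ext y
      simp only [Finset.mem_filter, Finset.mem_univ, true_and, Finset.mem_biUnion,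
        Finset.mem_image, exists_exists_and_eq_and, id, mem_cyc]
    · intro A hA B hB hAB
      obtain ⟨x, _, rfl⟩ := Finset.mem_image.1 hA
      obtain ⟨y, _, rfl⟩ := Finset.mem_image.1 hB
      refine Finset.disjoint_left.2 fun z hz hz' => hAB ?_
      rw [mem_cyc] at hz hz'
      ext w
      rw [mem_cyc, mem_cyc]
      exact ⟨fun h => hz'.trans (hz.symm.trans h), fun h => hz.trans (hz'.symm.trans h)⟩
  have key : topMass k σ = (l.take k).sum := by
    unfold topMass
    apply le_antisymm
    · refine csSup_le ⟨_, ∅, by simp, rfl⟩ ?_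
      rintro n ⟨s, hs, rfl⟩
      rw [hcov]
      have h1 : ((L.filter fun A => A ∈ s.image (cyc σ))).toFinset = s.image (cyc σ) := by
        ext A
        rw [List.mem_toFinset, List.mem_filter, ← List.mem_toFinset, hLf, decide_eq_true_iff]
        constructor
        · rintro ⟨_, h⟩; exact h
        · intro h
          exact ⟨Finset.image_subset_image (Finset.subset_univ s) h, h⟩
      have h2 : (L.filter fun A => A ∈ s.image (cyc σ)).Nodup := hLn.filter _
      have h3 : ∑ A ∈ s.image (cyc σ), A.card =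
          ((L.filter fun A => A ∈ s.image (cyc σ)).map Finset.card).sum := by
        conv_lhs => rw [← h1]
        exact List.sum_toFinset _ h2
      rw [h3]
      have h4 : ((L.filter fun A => A ∈ s.image (cyc σ)).map Finset.card).Sublist l := by
        rw [← hLm]
        exact List.filter_sublist.map _
      refine (C5c_sublist h4 hls).trans (C5c_take_mono l ?_)
      rw [List.length_map, ← List.toFinset_card_of_nodup h2, h1]
      exact Finset.card_image_le.trans hs
    · have h2 : (L.take k).Nodup := hLn.sublist (List.take_sublist k L)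
      have hsub : (L.take k).toFinset ⊆ univ.image (cyc σ) := by
        rw [← hLf]
        intro A hA
        rw [List.mem_toFinset] at hA ⊢
        exact List.mem_of_mem_take hA
      obtain ⟨s, hs1, hs2, hs3⟩ := Finset.exists_subset_injOn_image_eq_of_surjOn
        (f := cyc σ) (Set.univ : Set V) (L.take k).toFinset (by
          intro A hA
          obtain ⟨x, _, hx⟩ := Finset.mem_image.1 (hsub (Finset.mem_coe.1 hA))
          exact ⟨x, Set.mem_univ _, hx⟩)
      have hcard : s.card ≤ k := by
        rw [← Finset.card_image_of_injOn hs2, hs3, List.toFinset_card_of_nodup h2]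
        exact List.length_take_le k L
      have h3 : (l.take k).sum = Nat.card {y // ∃ x ∈ s, σ.SameCycle x y} := by
        rw [hcov, hs3, List.sum_toFinset _ h2, List.map_take, hLm]
      rw [h3]
      refine le_csSup ?_ ⟨s, hcard, rfl⟩
      refine ⟨Fintype.card V, ?_⟩
      rintro n ⟨s, _, rfl⟩
      rw [← Nat.card_eq_fintype_card]
      exact Nat.card_le_card_of_injective _ Subtype.val_injective
  rw [key, C5c_take]
  push_cast
  rw [Finset.sum_div]
  rfl

end Pool.Agent.Stirring.HP
end

section

/-! C6b: the theorem on the rescaled cycle lengths. -/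

open Finset Filter Topology

namespace Pool.Agent.Stirring.HP

open Pool.Agent.Stirring.Hier

variable {N : ℕ} {g : ℕ → ℝ} {t c ρ : ℝ}

private theorem C6b_cycLen {V : Type} [Fintype V] [DecidableEq V] (σ : Equiv.Perm V) (x : V) :
    cycLen σ x = (cyc σ x).card := by
  classical
  unfold cycLen
  rw [Nat.card_eq_fintype_card, Fintype.card_subtype]
  congr 1

/-- The weight `1 / m` of the lengths `m ≥ a`. -/
private noncomputable def C6b_F (a : ℝ) (m : ℕ) : ℝ := by
  classical
  exact if a ≤ (m : ℝ) then (m : ℝ)⁻¹ else 0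

private theorem C6b_F_nonneg (a : ℝ) (m : ℕ) : 0 ≤ C6b_F a m := by
  unfold C6b_F
  split_ifs
  · positivity
  · exact le_refl 0

private theorem C6b_mul_F {a : ℝ} (ha : 0 < a) {m : ℕ} (h : a ≤ (m : ℝ)) :
    (m : ℝ) * C6b_F a m = 1 := by
  unfold C6b_F
  rw [if_pos h]
  exact mul_inv_cancel₀ (lt_of_lt_of_le ha h).ne'

private theorem C6b_F_zero {a : ℝ} {m : ℕ} (h : ¬ a ≤ (m : ℝ)) : C6b_F a m = 0 := by
  unfold C6b_F
  rw [if_neg h]

/-- The number of entries `≥ a` of a list. -/
private noncomputable def C6b_c (a : ℝ) (l : List ℕ) : ℕ := by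
  classical
  exact l.countP (fun m : ℕ => decide (a ≤ (m : ℝ)))

private theorem C6b_c_nil (a : ℝ) : C6b_c a [] = 0 := by
  unfold C6b_c
  simp

private theorem C6b_c_pos {a : ℝ} {m : ℕ} (h : a ≤ (m : ℝ)) (l : List ℕ) :
    C6b_c a (m :: l) = C6b_c a l + 1 := by
  unfold C6b_c
  rw [List.countP_cons_of_pos (by simpa using h)]

private theorem C6b_c_neg {a : ℝ} {m : ℕ} (h : ¬ a ≤ (m : ℝ)) (l : List ℕ) :
    C6b_c a (m :: l) = C6b_c a l := by
  unfold C6b_c
  rw [List.countP_cons_of_neg (by simpa using h)]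

private theorem C6b_c_zero {a : ℝ} {l : List ℕ} (h : ∀ m ∈ l, ¬ a ≤ (m : ℝ)) : C6b_c a l = 0 := by
  induction l with
  | nil => exact C6b_c_nil a
  | cons m l ih =>
    rw [C6b_c_neg (h m (by simp))]
    exact ih fun k hk => h k (by simp [hk])

private theorem C6b_sum (a : ℝ) (ha : 0 < a) (l : List ℕ) :
    (l.map fun m : ℕ => (m : ℝ) * C6b_F a m).sum = (C6b_c a l : ℝ) := by
  induction l with
  | nil => simp [C6b_c_nil]
  | cons m l ih =>
    rw [List.map_cons, List.sum_cons, ih]
    by_cases h : a ≤ (m : ℝ)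
    · rw [C6b_mul_F ha h, C6b_c_pos h]
      push_cast
      ring
    · rw [C6b_F_zero h, C6b_c_neg h]
      ring

private theorem C6b_getD {a : ℝ} (ha : 0 < a) (l : List ℕ) (hl : l.Pairwise (· ≥ ·)) (i : ℕ) :
    a ≤ ((l.getD i 0 : ℕ) : ℝ) ↔ i + 1 ≤ C6b_c a l := by
  induction l generalizing i with
  | nil =>
    rw [C6b_c_nil]
    simp [ha]
  | cons m l ih =>
    rw [List.pairwise_cons] at hl
    by_cases h : a ≤ (m : ℝ)
    · rw [C6b_c_pos h]
      cases i with
      | zero => simp [h]
      | succ i =>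
        rw [List.getD_cons_succ, ih hl.2]
        omega
    · have h0 : ∀ k ∈ l, ¬ a ≤ (k : ℝ) := by
        intro k hk hak
        have h2 : (k : ℝ) ≤ (m : ℝ) := by exact_mod_cast hl.1 k hk
        exact h (hak.trans h2)
      rw [C6b_c_neg h, C6b_c_zero h0]
      cases i with
      | zero => simpa using h
      | succ i =>
        rw [List.getD_cons_succ, ih hl.2, C6b_c_zero h0]
        omega

private theorem C6b_biUnion {V : Type} [Fintype V] [DecidableEq V] (σ : Equiv.Perm V) {a : ℝ}
    (ha : 0 < a) (s : Finset V) (h1 : ∀ x ∈ s, a ≤ ((cyc σ x).card : ℝ))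
    (h2 : ∀ x ∈ s, ∀ y ∈ s, σ.SameCycle x y → x = y) :
    ∑ x ∈ s.biUnion (cyc σ), C6b_F a (cyc σ x).card = (s.card : ℝ) := by
  rw [Finset.sum_biUnion]
  · rw [Finset.sum_congr rfl (g := fun _ => (1 : ℝ))]
    · simp
    intro x hx
    have h3 : ∀ y ∈ cyc σ x, C6b_F a (cyc σ y).card = C6b_F a (cyc σ x).card := fun y hy => by
      rw [cyc_eq_of_sameCycle (mem_cyc.mp hy)]
    rw [Finset.sum_congr rfl h3, Finset.sum_const, nsmul_eq_mul]
    exact C6b_mul_F ha (h1 x hx)
  · intro x hx y hy hxy
    rw [Function.onFun, Finset.disjoint_left]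
    intro z hz hz'
    exact hxy (h2 x hx y hy ((mem_cyc.mp hz).trans (mem_cyc.mp hz').symm))

/-- `relLen σ i ≥ ε` if and only if there are `i + 1` vertices in distinct cycles of length at least
`ε n` (`ε > 0`). -/
theorem relLen_ge {V : Type} [Fintype V] [DecidableEq V] [Nonempty V] (σ : Equiv.Perm V) (i : ℕ)
    {ε : ℝ} (hε : 0 < ε) : ε ≤ relLen σ i ↔ ∃ s : Finset V, s.card = i + 1 ∧
      (∀ x ∈ s, ε * Fintype.card V ≤ cycLen σ x) ∧
      ∀ x ∈ s, ∀ y ∈ s, σ.SameCycle x y → x = y := by
  classical
  have hn : (0 : ℝ) < (Fintype.card V : ℝ) := by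
    exact_mod_cast Fintype.card_pos
  set a : ℝ := ε * Fintype.card V with ha_def
  have ha : 0 < a := mul_pos hε hn
  have key : ∑ x, C6b_F a (cyc σ x).card =
      (C6b_c a (σ.partition.parts.sort (· ≥ ·)) : ℝ) := by
    rw [sum_cyc_eq_parts]
    conv_lhs => rw [← Multiset.sort_eq σ.partition.parts (· ≥ ·)]
    rw [Multiset.map_coe, Multiset.sum_coe]
    exact C6b_sum a ha _
  unfold relLen
  rw [le_div_iff₀ hn, ← ha_def, C6b_getD ha _ (Multiset.pairwise_sort _ _) i]
  constructor
  · intro h
    set rep : V → V := fun x => Quotient.out (Quotient.mk (Equiv.Perm.SameCycle.setoid σ) x)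
      with hrep
    have hr : ∀ x, σ.SameCycle (rep x) x := fun x =>
      Quotient.exact (Quotient.out_eq (Quotient.mk (Equiv.Perm.SameCycle.setoid σ) x))
    have hrr : ∀ x y, σ.SameCycle x y → rep x = rep y := by
      intro x y hxy
      have h5 : Quotient.mk (Equiv.Perm.SameCycle.setoid σ) x =
          Quotient.mk (Equiv.Perm.SameCycle.setoid σ) y := Quotient.sound hxy
      simp only [hrep, h5]
    set T : Finset V := univ.filter fun x => a ≤ ((cyc σ x).card : ℝ) ∧ rep x = x with hT
    have hT1 : ∀ x ∈ T, a ≤ ((cyc σ x).card : ℝ) := fun x hx => by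
      rw [hT, Finset.mem_filter] at hx
      exact hx.2.1
    have hT2 : ∀ x ∈ T, ∀ y ∈ T, σ.SameCycle x y → x = y := by
      intro x hx y hy hxy
      rw [hT, Finset.mem_filter] at hx hy
      rw [← hx.2.2, ← hy.2.2]
      exact hrr x y hxy
    have h3 := C6b_biUnion σ ha T hT1 hT2
    have h4 : ∑ x, C6b_F a (cyc σ x).card = ∑ x ∈ T.biUnion (cyc σ), C6b_F a (cyc σ x).card := by
      symm
      refine Finset.sum_subset (Finset.subset_univ _) ?_
      intro x _ hx
      refine C6b_F_zero ?_
      intro hax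
      refine hx ?_
      rw [Finset.mem_biUnion]
      refine ⟨rep x, ?_, mem_cyc.mpr (hr x)⟩
      rw [hT, Finset.mem_filter]
      refine ⟨Finset.mem_univ _, ?_, hrr _ _ (hr x)⟩
      rw [cyc_eq_of_sameCycle (hr x)]
      exact hax
    have h5 : i + 1 ≤ T.card := by
      have h6 : ((C6b_c a (σ.partition.parts.sort (· ≥ ·)) : ℕ) : ℝ) = (T.card : ℝ) := by
        rw [← key, h4, h3]
      have h7 : C6b_c a (σ.partition.parts.sort (· ≥ ·)) = T.card := by exact_mod_cast h6
      omega
    obtain ⟨s, hs, hsc⟩ := Finset.exists_subset_card_eq h5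
    refine ⟨s, hsc, ?_, ?_⟩
    · intro x hx
      rw [C6b_cycLen]
      exact hT1 x (hs hx)
    · intro x hx y hy
      exact hT2 x (hs hx) y (hs hy)
  · rintro ⟨s, hs, h1, h2⟩
    have h3 := C6b_biUnion σ ha s (fun x hx => by
      have := h1 x hx
      rwa [C6b_cycLen] at this) h2
    have h4 : ∑ x ∈ s.biUnion (cyc σ), C6b_F a (cyc σ x).card ≤ ∑ x, C6b_F a (cyc σ x).card :=
      Finset.sum_le_sum_of_subset_of_nonneg (Finset.subset_univ _)
        fun x _ _ => C6b_F_nonneg a _
    rw [h3, key, hs] at h4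
    exact_mod_cast h4

end Pool.Agent.Stirring.HP
end
end
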