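import Pool.Agent.Lib.MP_6c3d62_pr.Mg.G076
import Pool.Agent.Lib.MP_6c3d62_pr.Mg.G085

section

/-! Sums over the permutations preserving a recolouring. -/

open Finset

set_option linter.unusedSectionVars false

namespace Pool.Agent.Stirring.Mono

variable {V : Type*} [Fintype V] [DecidableEq V]

/-- TASK Y1a. PROOF. `rc c U U a b` is `a` on `U` and `c v` outside, and `c v ≠ a` outside `U` by
`hU`. So `rc c U U a b (π v) = rc c U U a b v = a` for `v ∈ U` forces `π v ∈ U`. -/
theorem yg_rc_pres {c : V → V} {a b : V} {U : Finset V}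
    (hU : ∀ v, v ∈ U ↔ c v = a ∨ c v = b) {π : Equiv.Perm V} (hπ : π ∈ yg (rc c U U a b)) :
    ∀ v ∈ U, π v ∈ U := by
  intro v hv
  rw [mem_yg] at hπ
  have h := hπ v
  by_contra hn
  unfold rc at h
  rw [if_neg hn, if_pos hv, if_pos hv] at h
  exact hn ((hU _).mpr (Or.inl h))

/-- TASK Y1b. PROOF. `(→)` If `π` preserves `rc c U S a b` then for `v ∈ S` the colour of `π v` is
`a`, so `π v ∈ S` (on `U \ S` the colour is `b ≠ a`, outside `U` it is `c (π v) ≠ a` by `hU`), so
`esc π S = 0` (`esc_eq_zero`); for `v ∈ U \ S` the colour of `π v` is `b` so `π v ∈ U`; so `π` maps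
`U` into `U`; for `v ∉ U` the colour of `π v` is `c v ∉ {a, b}`, so `π v ∉ U` and
`c (π v) = c v`. Hence `π` preserves `rc c U U a b`. `(←)` `π` maps `U` into `U` (`yg_rc_pres`), `S`
into `S`, hence (injectivity, finiteness: `S.image π = S`, e.g. `Finset.eq_of_subset_of_card_le`)
`U \ S` into `U \ S`; outside `U`: `π v ∉ U` (else the colour `rc c U U a b (π v) = a ≠ c v`) and
`c (π v) = c v`. -/
theorem mem_yg_rc {c : V → V} {a b : V} (hab : a ≠ b) {U S : Finset V}
    (hU : ∀ v, v ∈ U ↔ c v = a ∨ c v = b) (hS : S ⊆ U) (π : Equiv.Perm V) :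
    π ∈ yg (rc c U S a b) ↔ π ∈ yg (rc c U U a b) ∧ esc π S = 0 := by
  constructor
  · intro hπ
    rw [mem_yg] at hπ
    have hS1 : ∀ v ∈ S, π v ∈ S := by
      intro v hv
      have h := hπ v
      unfold rc at h
      rw [if_pos (hS hv), if_pos hv] at h
      by_contra hn
      by_cases hu : π v ∈ U
      · rw [if_pos hu, if_neg hn] at h
        exact hab h.symm
      · rw [if_neg hu] at h
        exact hu ((hU _).mpr (Or.inl h))
    have hU1 : ∀ v ∈ U, π v ∈ U := by
      intro v hv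
      by_cases hs : v ∈ S
      · exact hS (hS1 v hs)
      · have h := hπ v
        unfold rc at h
        rw [if_pos hv, if_neg hs] at h
        by_contra hn
        rw [if_neg hn] at h
        exact hn ((hU _).mpr (Or.inr h))
    refine ⟨?_, esc_eq_zero.mpr hS1⟩
    rw [mem_yg]
    intro v
    unfold rc
    by_cases hv : v ∈ U
    · rw [if_pos hv, if_pos hv, if_pos (hU1 v hv), if_pos (hU1 v hv)]
    · have h := hπ v
      unfold rc at h
      rw [if_neg hv] at h ⊢
      by_cases hu : π v ∈ U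
      · exfalso
        rw [if_pos hu] at h
        by_cases hs : π v ∈ S
        · rw [if_pos hs] at h
          exact hv ((hU _).mpr (Or.inl h.symm))
        · rw [if_neg hs] at h
          exact hv ((hU _).mpr (Or.inr h.symm))
      · rw [if_neg hu] at h ⊢
        exact h
  · rintro ⟨hπ, he⟩
    have hU1 := yg_rc_pres hU hπ
    rw [esc_eq_zero] at he
    have himg : S.image π = S := by
      refine Finset.eq_of_subset_of_card_le ?_ ?_
      · intro w hw
        obtain ⟨v, hv, rfl⟩ := Finset.mem_image.mp hw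
        exact he v hv
      · rw [Finset.card_image_of_injective S π.injective]
    have hback : ∀ v, π v ∈ S → v ∈ S := by
      intro v hv
      rw [← himg] at hv
      obtain ⟨u, hu, huv⟩ := Finset.mem_image.mp hv
      rwa [← π.injective huv]
    rw [mem_yg] at hπ ⊢
    intro v
    have h := hπ v
    unfold rc at h ⊢
    by_cases hv : v ∈ U
    · rw [if_pos hv, if_pos (hU1 v hv)]
      by_cases hs : v ∈ S
      · rw [if_pos hs, if_pos (he v hs)]
      · rw [if_neg hs, if_neg (fun h' => hs (hback v h'))]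
    · rw [if_neg hv] at h ⊢
      by_cases hu : π v ∈ U
      · exfalso
        rw [if_pos hu, if_pos hu] at h
        exact hv ((hU _).mpr (Or.inl h.symm))
      · rw [if_neg hu] at h ⊢
        exact h

/-- TASK Y1c. PROOF. By `mem_yg_rc` (members of `fam` are subsets of `U`)
`ys (rc c U S a b) F = ∑ π ∈ yg (rc c U U a b), if esc π S = 0 then F π else 0`
(`Finset.sum_filter`, and `yg (rc c U S a b) = (yg (rc c U U a b)).filter (esc · S = 0)` by `ext`).
Exchange the sums (`Finset.sum_comm`); the inner sum over `S ∈ fam U M M' j` of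
`if esc π S = 0 then F π else 0` is `iN * F π` (`Finset.sum_ite`, `Finset.sum_const`,
`nsmul_eq_mul`). -/
theorem sum_inv {c : V → V} {a b : V} (hab : a ≠ b) {U : Finset V}
    (hU : ∀ v, v ∈ U ↔ c v = a ∨ c v = b) (M M' : Finset V) (j : ℕ) (F : Equiv.Perm V → ℝ) :
    ∑ S ∈ fam U M M' j, ys (rc c U S a b) F =
      ∑ π ∈ yg (rc c U U a b), (iN U M M' π j : ℝ) * F π := by
  have h1 : ∀ S ∈ fam U M M' j, ys (rc c U S a b) F =
      ∑ π ∈ yg (rc c U U a b), if esc π S = 0 then F π else 0 := by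
    intro S hS
    have hSU : S ⊆ U := (mem_fam.mp hS).1
    unfold ys
    rw [← Finset.sum_filter]
    refine Finset.sum_congr ?_ fun _ _ => rfl
    ext π
    rw [Finset.mem_filter]
    exact mem_yg_rc hab hU hSU π
  rw [Finset.sum_congr rfl h1, Finset.sum_comm]
  refine Finset.sum_congr rfl fun π _ => ?_
  unfold iN
  rw [← Finset.sum_filter, Finset.sum_const, nsmul_eq_mul]

end Pool.Agent.Stirring.Mono
end

section

/-! Exchanging two colours. -/

open Finset

set_option linter.unusedSectionVars false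

namespace Pool.Agent.Stirring.Mono

variable {V : Type*} [Fintype V] [DecidableEq V]

private theorem pres_inv {π : Equiv.Perm V} {S : Finset V} (h : ∀ v ∈ S, π v ∈ S) {u : V}
    (hu : π u ∈ S) : u ∈ S := by
  have h1 : S.image π = S := Finset.eq_of_subset_of_card_le (Finset.image_subset_iff.mpr h)
    (by rw [Finset.card_image_of_injective _ π.injective])
  rw [← h1] at hu
  obtain ⟨w, hw, hwu⟩ := Finset.mem_image.mp hu
  exact π.injective hwu ▸ hw

private theorem mul_swap_mem {c : V → V} {a b : V} {U : Finset V} {v w : V} (hv : v ∈ U)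
    (hw : w ∈ U) {π : Equiv.Perm V} (hπ : π ∈ yg (rc c U U a b)) :
    π * Equiv.swap v w ∈ yg (rc c U U a b) := by
  rw [mem_yg] at hπ ⊢
  intro x
  rw [Equiv.Perm.mul_apply, hπ]
  by_cases hxv : x = v
  · subst hxv
    rw [Equiv.swap_apply_left]
    simp [rc, hv, hw]
  · by_cases hxw : x = w
    · subst hxw
      rw [Equiv.swap_apply_right]
      simp [rc, hv, hw]
    · rw [Equiv.swap_apply_of_ne_of_ne hxv hxw]

private theorem cr_fwd {c : V → V} {a b : V} (hab : a ≠ b) {U S : Finset V}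
    (hU : ∀ v, v ∈ U ↔ c v = a ∨ c v = b) (hS : S ⊆ U) {v w : V} (hv : v ∈ S) (hw : w ∈ U \ S)
    {π : Equiv.Perm V} (hπ : π ∈ yg (rc c U S a b)) :
    (π * Equiv.swap v w ∈ yg (rc c U U a b)) ∧ (π * Equiv.swap v w) v ∉ S ∧
      (∀ u ∈ S, u ≠ v → (π * Equiv.swap v w) u ∈ S) ∧ (π * Equiv.swap v w) w ∈ S ∧
      ∀ u ∈ U \ S, u ≠ w → (π * Equiv.swap v w) u ∉ S := by
  obtain ⟨h1, h2⟩ := (mem_yg_rc hab hU hS π).mp hπ
  rw [esc_eq_zero] at h2
  rw [Finset.mem_sdiff] at hw
  refine ⟨mul_swap_mem (hS hv) hw.1 h1, ?_, ?_, ?_, ?_⟩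
  · rw [Equiv.Perm.mul_apply, Equiv.swap_apply_left]
    exact fun h => hw.2 (pres_inv h2 h)
  · intro u hu huv
    have huw : u ≠ w := fun h => hw.2 (h ▸ hu)
    rw [Equiv.Perm.mul_apply, Equiv.swap_apply_of_ne_of_ne huv huw]
    exact h2 u hu
  · rw [Equiv.Perm.mul_apply, Equiv.swap_apply_right]
    exact h2 v hv
  · intro u hu huw
    rw [Finset.mem_sdiff] at hu
    have huv : u ≠ v := fun h => hu.2 (h ▸ hv)
    rw [Equiv.Perm.mul_apply, Equiv.swap_apply_of_ne_of_ne huv huw]
    exact fun h => hu.2 (pres_inv h2 h)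

/-- TASK Y2a. PROOF. The left side is a sum over the triples `(v, w, π)`, `v ∈ S`, `w ∈ U \ S`,
`π ∈ yg (rc c U S a b)` (unfold `cr`, `ys`, `Finset.sum_product'` or `Finset.sum_sigma'`). The map
`(v, w, π) ↦ σ = π * swap v w` is a bijection onto `{σ ∈ yg (rc c U U a b) | esc σ S = 1}`
(`Finset.sum_bij`). (1) It lands there: `π` preserves `rc c U U a b` and `esc π S = 0`
(`mem_yg_rc`), `swap v w` preserves `rc c U U a b` (`v, w ∈ U`); `σ v = π w ∉ S` (`π` maps `S` onto
`S`, and `w ∉ S`), for `u ∈ S`, `u ≠ v` we have `u ≠ w` and `σ u = π u ∈ S`: `esc_eq_one`. Also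
`σ w = π v ∈ S`. (2) Injective: `v` is the unique point of `S` with `σ v ∉ S`, and `w` is the unique
point of `U \ S` with `σ w ∈ S` (for `u ∈ U \ S`, `u ≠ w`: `u ≠ v`, `σ u = π u ∉ S`), and
`π = σ * swap v w`. (3) Surjective: given `σ`, `esc_eq_one` gives `v ∈ S` with `σ v ∉ S`, the others
staying; there is `w ∈ U \ S` with `σ w ∈ S`: otherwise `σ⁻¹ S ⊆ S` within `U` (`σ` maps `U` onto
`U`), i.e. the preimage of `S` has the same cardinality as `S` and would be `S`, but `v ∈ S` is not in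
it. Take `π = σ * swap v w`: it preserves `rc c U U a b` and maps `S` into `S` (`π v = σ w ∈ S`,
`π u = σ u ∈ S` for `u ∈ S`, `u ≠ v`), so it is in `yg (rc c U S a b)` by `mem_yg_rc`;
`π * swap v w = σ` (`Equiv.swap_mul_self`/`mul_assoc`). -/
theorem cr_eq {c : V → V} {a b : V} (hab : a ≠ b) {U S : Finset V}
    (hU : ∀ v, v ∈ U ↔ c v = a ∨ c v = b) (hS : S ⊆ U) (F : Equiv.Perm V → ℝ) :
    cr c U S a b F = ∑ σ ∈ (yg (rc c U U a b)).filter (fun σ => esc σ S = 1), F σ := by
  have h0 : cr c U S a b F = ∑ x ∈ S ×ˢ ((U \ S) ×ˢ yg (rc c U S a b)),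
      F (x.2.2 * Equiv.swap x.1 x.2.1) := by
    rw [Finset.sum_product]
    unfold cr ys
    refine Finset.sum_congr rfl fun v _ => ?_
    rw [Finset.sum_product]
  rw [h0]
  refine Finset.sum_bij (fun x _ => x.2.2 * Equiv.swap x.1 x.2.1) ?_ ?_ ?_ ?_
  · rintro ⟨v, w, π⟩ hx
    simp only [Finset.mem_product] at hx
    obtain ⟨hv, hw, hπ⟩ := hx
    obtain ⟨h1, h2, h3, _, _⟩ := cr_fwd hab hU hS hv hw hπ
    rw [Finset.mem_filter]
    exact ⟨h1, esc_eq_one.mpr ⟨v, hv, h2, h3⟩⟩
  · rintro ⟨v, w, π⟩ hx ⟨v', w', π'⟩ hx' heq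
    simp only [Finset.mem_product] at hx hx'
    obtain ⟨hv, hw, hπ⟩ := hx
    obtain ⟨hv', hw', hπ'⟩ := hx'
    obtain ⟨_, h2, _, h4, _⟩ := cr_fwd hab hU hS hv hw hπ
    obtain ⟨_, _, h3', _, h5'⟩ := cr_fwd hab hU hS hv' hw' hπ'
    simp only at heq
    have hvv : v = v' := by
      by_contra hne
      have h := h3' v hv hne
      rw [← heq] at h
      exact h2 h
    have hww : w = w' := by
      by_contra hne
      have h := h5' w hw hne
      rw [← heq] at h
      exact h h4
    subst hvv hww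
    have hpp : π = π' := mul_right_cancel heq
    rw [hpp]
  · intro σ hσ
    rw [Finset.mem_filter] at hσ
    obtain ⟨h1, h2⟩ := hσ
    obtain ⟨v, hv, h3, h4⟩ := esc_eq_one.mp h2
    have hUU : ∀ x ∈ U, σ x ∈ U := yg_rc_pres hU h1
    have hex : ∃ w ∈ U \ S, σ w ∈ S := by
      by_contra hcon
      push Not at hcon
      have hinv : ∀ u ∈ S, σ⁻¹ u ∈ S := by
        intro u hu
        have h5 : σ (σ⁻¹ u) = u := σ.apply_symm_apply u
        have h6 : σ⁻¹ u ∈ U := pres_inv hUU (by rw [h5]; exact hS hu)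
        by_contra h7
        have h8 := hcon (σ⁻¹ u) (Finset.mem_sdiff.mpr ⟨h6, h7⟩)
        rw [h5] at h8
        exact h8 hu
      have h9 : σ⁻¹ (σ v) = v := σ.symm_apply_apply v
      exact h3 (pres_inv hinv (by rw [h9]; exact hv))
    obtain ⟨w, hw, hwS⟩ := hex
    have hw' := Finset.mem_sdiff.mp hw
    have hmem : σ * Equiv.swap v w ∈ yg (rc c U S a b) := by
      rw [mem_yg_rc hab hU hS]
      refine ⟨mul_swap_mem (hS hv) hw'.1 h1, esc_eq_zero.mpr fun u hu => ?_⟩
      by_cases huv : u = v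
      · rw [huv, Equiv.Perm.mul_apply, Equiv.swap_apply_left]
        exact hwS
      · have huw : u ≠ w := fun h => hw'.2 (h ▸ hu)
        rw [Equiv.Perm.mul_apply, Equiv.swap_apply_of_ne_of_ne huv huw]
        exact h4 u hu huv
    refine ⟨(v, w, σ * Equiv.swap v w), ?_, ?_⟩
    · simp only [Finset.mem_product]
      exact ⟨hv, hw, hmem⟩
    · simp only [mul_assoc, Equiv.swap_mul_self, mul_one]
  · intro x _
    rfl

/-- TASK Y2b. PROOF. As `sum_inv`: insert `cr_eq`, `Finset.sum_filter`, exchange the sums, and the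
inner sum over `S ∈ fam U M M' k` of `if esc σ S = 1 then F σ else 0` is `tN * F σ`. -/
theorem sum_cr {c : V → V} {a b : V} (hab : a ≠ b) {U : Finset V}
    (hU : ∀ v, v ∈ U ↔ c v = a ∨ c v = b) (M M' : Finset V) (k : ℕ) (F : Equiv.Perm V → ℝ) :
    ∑ S ∈ fam U M M' k, cr c U S a b F =
      ∑ π ∈ yg (rc c U U a b), (tN U M M' π k : ℝ) * F π := by
  have h1 : ∀ S ∈ fam U M M' k, cr c U S a b F =
      ∑ π ∈ yg (rc c U U a b), if esc π S = 1 then F π else 0 := by
    intro S hS
    rw [cr_eq hab hU (mem_fam.mp hS).1 F, Finset.sum_filter]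
  rw [Finset.sum_congr rfl h1, Finset.sum_comm]
  refine Finset.sum_congr rfl fun π _ => ?_
  rw [← Finset.sum_filter, Finset.sum_const, nsmul_eq_mul]
  rfl

end Pool.Agent.Stirring.Mono
end

section

/-! Conjugation invariance of the sums. -/

open Finset

set_option linter.unusedSectionVars false

namespace Pool.Agent.Stirring.Mono

variable {V : Type*} [Fintype V] [DecidableEq V] {ι : Type*} [DecidableEq ι]

/-- TASK Y3a. PROOF. `π` preserves `c ∘ g` iff `g * π * g⁻¹` preserves `c`. So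
`π ↦ g * π * g⁻¹` is a bijection from `yg (fun v => c (g v))` to `yg c` (inverse
`ρ ↦ g⁻¹ * ρ * g`), `Finset.sum_nbij'` or `Finset.sum_bij'`. -/
theorem ys_conj {κ : Type*} [DecidableEq κ] (c : V → κ) (g : Equiv.Perm V)
    (G : Equiv.Perm V → ℝ) : ys (fun v => c (g v)) G = ys c fun ρ => G (g⁻¹ * ρ * g) := by
  unfold ys
  refine Finset.sum_bij' (fun π _ => g * π * g⁻¹) (fun ρ _ => g⁻¹ * ρ * g) ?_ ?_ ?_ ?_ ?_
  · intro π hπ
    rw [mem_yg] at hπ ⊢
    intro v
    have h := hπ (g⁻¹ v)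
    have h2 : g (g⁻¹ v) = v := g.apply_symm_apply v
    rw [h2] at h
    exact h
  · intro ρ hρ
    rw [mem_yg] at hρ ⊢
    intro v
    have h2 : g (g⁻¹ (ρ (g v))) = ρ (g v) := g.apply_symm_apply _
    simp only [Equiv.Perm.mul_apply]
    rw [h2]
    exact hρ (g v)
  · intro π _
    group
  · intro ρ _
    group
  · intro π _
    congr 1
    group

private def dcol (R T : Finset V) (v : V) : V ⊕ Bool :=
  if v ∈ R then Sum.inr (decide (v ∈ T)) else Sum.inl v

private theorem dcol_inl {R T : Finset V} {u v : V} :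
    dcol R T u = Sum.inl v ↔ u ∉ R ∧ u = v := by
  unfold dcol
  by_cases h : u ∈ R
  · simp [h]
  · simp [h]

private theorem dcol_inr {R T : Finset V} {u : V} {b : Bool} :
    dcol R T u = Sum.inr b ↔ u ∈ R ∧ decide (u ∈ T) = b := by
  unfold dcol
  by_cases h : u ∈ R
  · simp [h]
  · simp [h]

private theorem dcol_card {U M M' T T' : Finset V} {k : ℕ} (hT : T ∈ fam U M M' k)
    (hT' : T' ∈ fam U M M' k) (x : V ⊕ Bool) :
    Fintype.card {v // dcol (U \ (M ∪ M')) T v = x} =
      Fintype.card {v // dcol (U \ (M ∪ M')) T' v = x} := by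
  have key : ∀ S : Finset V, S ∈ fam U M M' k →
      (Finset.univ.filter fun v => dcol (U \ (M ∪ M')) S v = Sum.inr true) = S \ M := by
    intro S hS
    obtain ⟨h1, _, _, h4⟩ := mem_fam.mp hS
    ext v
    rw [Finset.mem_filter, dcol_inr]
    simp only [Finset.mem_univ, true_and, Finset.mem_sdiff, Finset.mem_union, not_or,
      decide_eq_true_eq]
    constructor
    · rintro ⟨⟨_, h, _⟩, h'⟩
      exact ⟨h', h⟩
    · rintro ⟨h, h'⟩
      exact ⟨⟨h1 h, h', fun hm => Finset.disjoint_left.mp h4 hm h⟩, h⟩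
  have key2 : ∀ S : Finset V, S ∈ fam U M M' k →
      (Finset.univ.filter fun v => dcol (U \ (M ∪ M')) S v = Sum.inr false) =
        (U \ (M ∪ M')) \ (S \ M) := by
    intro S _
    ext v
    rw [Finset.mem_filter, dcol_inr]
    simp only [Finset.mem_univ, true_and, Finset.mem_sdiff, Finset.mem_union, not_or,
      decide_eq_false_iff_not]
    tauto
  have key3 : ∀ S : Finset V, S ∈ fam U M M' k → S \ M ⊆ U \ (M ∪ M') := by
    intro S hS
    obtain ⟨h1, _, _, h4⟩ := mem_fam.mp hS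
    intro v hv
    rw [Finset.mem_sdiff] at hv
    simp only [Finset.mem_sdiff, Finset.mem_union, not_or]
    exact ⟨h1 hv.1, hv.2, fun hm => Finset.disjoint_left.mp h4 hm hv.1⟩
  have key4 : ∀ S : Finset V, S ∈ fam U M M' k → (S \ M).card = k - M.card := by
    intro S hS
    obtain ⟨_, h2, h3, _⟩ := mem_fam.mp hS
    rw [Finset.card_sdiff_of_subset h3, h2]
  rw [Fintype.card_subtype, Fintype.card_subtype]
  rcases x with v | b
  · congr 1
    ext u
    rw [Finset.mem_filter, Finset.mem_filter, dcol_inl, dcol_inl]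
  · cases b
    · rw [key2 T hT, key2 T' hT', Finset.card_sdiff_of_subset (key3 T hT),
        Finset.card_sdiff_of_subset (key3 T' hT'), key4 T hT, key4 T' hT']
    · rw [key T hT, key T' hT', key4 T hT, key4 T' hT']

/-- TASK Y3b. PROOF. Let `R = U \ (M ∪ M')` and define two colourings `d, d' : V → V ⊕ Bool`:
`d v = if v ∈ R then .inr (decide (v ∈ S)) else .inl v`, `d' v` the same with `S'`. For every colour
the fibres of `d` and `d'` have the same cardinality: `inl v`: `{v}` if `v ∉ R`, else empty, for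
both; `inr true`: `R ∩ S = S \ M` (as `M' ∩ S = ∅`), of cardinality `k - M.card`, and the same for
`S'`; `inr false`: `R \ S`, of cardinality `R.card - (k - M.card)`, and the same. Take equivalences
of the fibres (`Fintype.equivOfCardEq`) and `g = Equiv.ofFiberEquiv _ : V ≃ V`, with
`d' (g v) = d v` (`Equiv.ofFiberEquiv_map`). Then for `v ∉ R`: `d' (g v) = .inl v` so `g v = v`
(look at the definition of `d'`). This gives the first three properties (`v ∉ U`, `v ∈ M`, `v ∈ M'`
all imply `v ∉ R`). Last: if `v ∈ R`, then `d' (g v) = .inr (decide (v ∈ S))`, so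
`g v ∈ R` and `g v ∈ S' ↔ v ∈ S`; if `v ∉ R`, then `g v = v`, and `v ∈ S' ↔ v ∈ S`: for `v ∈ M` both
true, for `v ∈ M'` both false, for `v ∉ U` both false. -/
theorem exists_conj {U M M' S S' : Finset V} {k : ℕ} (hS : S ∈ fam U M M' k)
    (hS' : S' ∈ fam U M M' k) :
    ∃ g : Equiv.Perm V, (∀ v, v ∉ U → g v = v) ∧ (∀ v ∈ M, g v = v) ∧ (∀ v ∈ M', g v = v) ∧
      ∀ v, g v ∈ S' ↔ v ∈ S := by
  obtain ⟨h1, _, h3, h4⟩ := mem_fam.mp hS
  obtain ⟨h1', _, h3', h4'⟩ := mem_fam.mp hS'
  let g : V ≃ V := Equiv.ofFiberEquiv (f := dcol (U \ (M ∪ M')) S) (g := dcol (U \ (M ∪ M')) S')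
    (fun x => Fintype.equivOfCardEq (dcol_card hS hS' x))
  have hg : ∀ v, dcol (U \ (M ∪ M')) S' (g v) = dcol (U \ (M ∪ M')) S v := fun v =>
    Equiv.ofFiberEquiv_map _ v
  have hfix : ∀ v, v ∉ U \ (M ∪ M') → g v = v := by
    intro v hv
    have h := hg v
    rw [(dcol_inl (R := U \ (M ∪ M')) (T := S) (u := v) (v := v)).mpr ⟨hv, rfl⟩, dcol_inl] at h
    exact h.2
  refine ⟨g, fun v hv => hfix v ?_, fun v hv => hfix v ?_, fun v hv => hfix v ?_, fun v => ?_⟩
  · simp only [Finset.mem_sdiff, not_and]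
    exact fun h => absurd h hv
  · simp only [Finset.mem_sdiff, Finset.mem_union, not_and, not_not]
    exact fun _ => Or.inl hv
  · simp only [Finset.mem_sdiff, Finset.mem_union, not_and, not_not]
    exact fun _ => Or.inr hv
  · by_cases hv : v ∈ U \ (M ∪ M')
    · have h := hg v
      rw [(dcol_inr (R := U \ (M ∪ M')) (T := S) (u := v) (b := decide (v ∈ S))).mpr ⟨hv, rfl⟩,
        dcol_inr] at h
      have h2 := h.2
      rwa [decide_eq_decide] at h2
    · rw [hfix v hv]
      simp only [Finset.mem_sdiff, Finset.mem_union, not_and, not_not] at hv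
      by_cases hvU : v ∈ U
      · rcases hv hvU with hm | hm
        · exact ⟨fun _ => h3 hm, fun _ => h3' hm⟩
        · exact ⟨fun h => absurd h (Finset.disjoint_left.mp h4' hm),
            fun h => absurd h (Finset.disjoint_left.mp h4 hm)⟩
      · exact ⟨fun h => absurd (h1' h) hvU, fun h => absurd (h1 h) hvU⟩

end Pool.Agent.Stirring.Mono
end

section

/-! The sums do not depend on the set. -/

open Finset

set_option linter.unusedSectionVars false

namespace Pool.Agent.Stirring.Mono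

variable {V : Type*} [Fintype V] [DecidableEq V] {ι : Type*} [DecidableEq ι]

private theorem conj_data {β : V → ι} {Mk : Finset V}
    {U M M' S S' : Finset V} {k : ℕ} (hβ : ∀ v ∈ U, ∀ w ∈ U, β v = β w)
    (hMk : ∀ m ∈ Mk, m ∈ U → m ∈ M ∨ m ∈ M') (hS : S ∈ fam U M M' k) (hS' : S' ∈ fam U M M' k)
    (c : V → V) (a b : V) : ∃ g : Equiv.Perm V, (∀ v, β (g v) = β v) ∧ (∀ m ∈ Mk, g m = m) ∧
      (∀ v, g v ∈ S' ↔ v ∈ S) ∧ (∀ v, g v ∈ U ↔ v ∈ U) ∧
      rc c U S a b = fun v => rc c U S' a b (g v) := by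
  obtain ⟨g, h1, h2, h3, h4⟩ := exists_conj hS hS'
  have hgU : ∀ v, g v ∈ U ↔ v ∈ U := by
    intro v
    by_cases hv : v ∈ U
    · refine ⟨fun _ => hv, fun _ => ?_⟩
      by_contra hc
      have h5 := h1 _ hc
      have h6 : g v = v := g.injective h5
      rw [h6] at hc
      exact hc hv
    · rw [h1 v hv]
  refine ⟨g, ?_, ?_, h4, hgU, ?_⟩
  · intro v
    by_cases hv : v ∈ U
    · exact hβ _ ((hgU v).mpr hv) _ hv
    · rw [h1 v hv]
  · intro m hm
    by_cases hv : m ∈ U
    · rcases hMk m hm hv with h | h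
      · exact h2 m h
      · exact h3 m h
    · exact h1 m hv
  · funext v
    unfold rc
    by_cases hv : v ∈ U
    · rw [if_pos hv, if_pos ((hgU v).mpr hv)]
      by_cases hs : v ∈ S
      · rw [if_pos hs, if_pos ((h4 v).mpr hs)]
      · rw [if_neg hs, if_neg (fun h => hs ((h4 v).mp h))]
    · rw [if_neg hv, if_neg (fun h => hv ((hgU v).mp h)), h1 v hv]

/-- TASK Y3c. PROOF. Take `g` from `exists_conj`. `g` maps `U` to `U` (if `v ∈ U` and `g v ∉ U` then
`g (g v) = g v`, so `g v = v`, contradiction). Then `rc c U S a b = fun v => rc c U S' a b (g v)`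
(`funext`; for `v ∈ U`, `g v ∈ U` and `g v ∈ S' ↔ v ∈ S`; for `v ∉ U`, `g v = v`). `ys_conj` gives
`ys (rc c U S a b) F = ys (rc c U S' a b) (fun ρ => F (g⁻¹ * ρ * g))`, and
`F (g⁻¹ * ρ * g) = F (g * (g⁻¹ * ρ * g) * g⁻¹) = F ρ` by `hF` (`g` preserves `β`: outside `U` it
fixes the points, inside `U` all `β` are equal; `g` fixes the marks: a mark outside `U` is fixed, a
mark in `U` is in `M` or in `M'`). -/
theorem ys_inv {β : V → ι} {Mk : Finset V} {F : Equiv.Perm V → ℝ} (hF : CI β Mk F)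
    {U M M' S S' : Finset V} {k : ℕ} (hβ : ∀ v ∈ U, ∀ w ∈ U, β v = β w)
    (hMk : ∀ m ∈ Mk, m ∈ U → m ∈ M ∨ m ∈ M') (hS : S ∈ fam U M M' k) (hS' : S' ∈ fam U M M' k)
    (c : V → V) (a b : V) : ys (rc c U S a b) F = ys (rc c U S' a b) F := by
  obtain ⟨g, hg1, hg2, -, -, hg5⟩ := conj_data hβ hMk hS hS' c a b
  rw [hg5, ys_conj]
  unfold ys
  refine Finset.sum_congr rfl fun ρ _ => ?_
  have h := hF g hg1 hg2 (g⁻¹ * ρ * g)
  refine h.symm.trans ?_
  congr 1
  group

/-- TASK Y3d. PROOF. `g` as in the proof of `ys_inv`; `S' = S.map g`, `U \ S' = (U \ S).map g`, so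
`cr c U S' a b F = ∑ v ∈ S, ∑ w ∈ U \ S, ys (rc c U S' a b) (fun π => F (π * swap (g v) (g w)))`
(`Finset.sum_nbij'`, or `Finset.sum_map`). On the other side, `rc c U S a b = (rc c U S' a b) ∘ g`
and `ys_conj` with `G π = F (π * swap v w)`: `ys (rc c U S a b) G = ys (rc c U S' a b) (fun ρ =>
F (g⁻¹ * ρ * g * swap v w))`, and by `hF` this is
`F (g * (g⁻¹ * ρ * g * swap v w) * g⁻¹) = F (ρ * (g * swap v w * g⁻¹)) = F (ρ * swap (g v) (g w))`
(`Equiv.swap_apply_apply` / `Equiv.mul_swap_eq_swap_mul`). -/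
theorem cr_inv {β : V → ι} {Mk : Finset V} {F : Equiv.Perm V → ℝ} (hF : CI β Mk F)
    {U M M' S S' : Finset V} {k : ℕ} (hβ : ∀ v ∈ U, ∀ w ∈ U, β v = β w)
    (hMk : ∀ m ∈ Mk, m ∈ U → m ∈ M ∨ m ∈ M') (hS : S ∈ fam U M M' k) (hS' : S' ∈ fam U M M' k)
    (c : V → V) (a b : V) : cr c U S a b F = cr c U S' a b F := by
  obtain ⟨g, hg1, hg2, hg3, hg4, hg5⟩ := conj_data hβ hMk hS hS' c a b
  unfold cr
  have hterm : ∀ v w : V, ys (rc c U S a b) (fun π => F (π * Equiv.swap v w)) =
      ys (rc c U S' a b) (fun π => F (π * Equiv.swap (g v) (g w))) := by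
    intro v w
    rw [hg5, ys_conj]
    unfold ys
    refine Finset.sum_congr rfl fun ρ _ => ?_
    have h := hF g hg1 hg2 (g⁻¹ * ρ * g * Equiv.swap v w)
    refine h.symm.trans ?_
    beta_reduce
    congr 1
    rw [Equiv.swap_apply_apply]
    group
  refine Finset.sum_nbij' (fun v => g v) (fun v => g.symm v) ?_ ?_ ?_ ?_ ?_
  · intro v hv
    exact (hg3 v).mpr hv
  · intro v hv
    refine (hg3 _).mp ?_
    rw [Equiv.apply_symm_apply]
    exact hv
  · intro v _
    exact Equiv.symm_apply_apply g v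
  · intro v _
    exact Equiv.apply_symm_apply g v
  · intro v _
    refine Finset.sum_nbij' (fun w => g w) (fun w => g.symm w) ?_ ?_ ?_ ?_ ?_
    · intro w hw
      rw [Finset.mem_sdiff] at hw ⊢
      exact ⟨(hg4 w).mpr hw.1, fun h => hw.2 ((hg3 w).mp h)⟩
    · intro w hw
      rw [Finset.mem_sdiff] at hw ⊢
      refine ⟨(hg4 _).mp ?_, fun h => hw.2 ?_⟩
      · rw [Equiv.apply_symm_apply]
        exact hw.1
      · have h2 := (hg3 _).mpr h
        rw [Equiv.apply_symm_apply] at h2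
        exact h2
    · intro w _
      exact Equiv.symm_apply_apply g w
    · intro w _
      exact Equiv.apply_symm_apply g w
    · intro w _
      exact hterm v w

end Pool.Agent.Stirring.Mono
end

section

/-! Conjugation invariance: all files. -/
end

section

/-! Invariance and antisymmetry are kept by the random walk. -/

open Finset Pool.Agent.Stirring.Hier

set_option linter.unusedSectionVars false

namespace Pool.Agent.Stirring.Mono

variable {V : Type*} [Fintype V] [DecidableEq V] {ι : Type*} [DecidableEq ι]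

/-- TASK S4a. PROOF. `stepT_apply`: `stepT q F (g σ g⁻¹) = ∑ p, q p * F (g σ g⁻¹ * swap p.1 p.2)`.
Change of variables `p = (g p'.1, g p'.2)` (`Equiv.sum_comp` with `Equiv.prodCongr g g`):
`q (g p'.1, g p'.2) = q p'` by `hq`, and `g σ g⁻¹ * swap (g u) (g v) = g (σ * swap u v) g⁻¹`
(`Equiv.swap_apply_apply`: `swap (g u) (g v) = g * swap u v * g⁻¹`); then `hF`. -/
theorem CI_step {β : V → ι} {Mk : Finset V} {F : Fn V} (hF : CI β Mk F) {q : V × V → ℝ}
    (hq : ∀ g : Equiv.Perm V, (∀ v, β (g v) = β v) → ∀ p : V × V, q (g p.1, g p.2) = q p) :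
    CI β Mk (stepT q F) := by
  intro g hg hm σ
  rw [stepT_apply, stepT_apply]
  rw [← Equiv.sum_comp (Equiv.prodCongr g g)]
  refine Finset.sum_congr rfl fun p _ => ?_
  have h1 : (Equiv.prodCongr g g) p = (g p.1, g p.2) := rfl
  rw [h1, hq g hg p]
  congr 1
  have h2 : g * σ * g⁻¹ * Equiv.swap (g p.1) (g p.2) = g * (σ * Equiv.swap p.1 p.2) * g⁻¹ := by
    rw [Equiv.swap_apply_apply]
    group
  show F (g * σ * g⁻¹ * Equiv.swap (g p.1) (g p.2)) = F (σ * Equiv.swap p.1 p.2)
  rw [h2]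
  exact hF g hg hm _

/-- TASK S4b. PROOF. With `τ = swap x y`: `stepT q F (σ * τ) = ∑ p, q p * F (σ * τ * swap p.1 p.2)`,
`τ * swap u v = swap (τ u) (τ v) * τ`, so `F (σ * τ * swap u v) = F (σ * swap (τ u) (τ v) * τ) =
-F (σ * swap (τ u) (τ v))` by `hF x hx y hy hxy`. Change of variables `p ↦ (τ p.1, τ p.2)`
(`Equiv.sum_comp` with `Equiv.prodCongr τ τ`) and `hq`. -/
theorem AS_step {Mk : Finset V} {F : Fn V} (hF : AS Mk F) {q : V × V → ℝ}
    (hq : ∀ x ∈ Mk, ∀ y ∈ Mk, ∀ p : V × V,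
      q (Equiv.swap x y p.1, Equiv.swap x y p.2) = q p) :
    AS Mk (stepT q F) := by
  intro x hx y hy hxy σ
  rw [stepT_apply, stepT_apply]
  rw [← Equiv.sum_comp (Equiv.prodCongr (Equiv.swap x y) (Equiv.swap x y)),
    ← Finset.sum_neg_distrib]
  refine Finset.sum_congr rfl fun p _ => ?_
  have h1 : (Equiv.prodCongr (Equiv.swap x y) (Equiv.swap x y)) p =
    (Equiv.swap x y p.1, Equiv.swap x y p.2) := rfl
  rw [h1, hq x hx y hy p]
  have h2 : σ * Equiv.swap x y * Equiv.swap (Equiv.swap x y p.1) (Equiv.swap x y p.2) =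
      σ * Equiv.swap p.1 p.2 * Equiv.swap x y := by
    rw [Equiv.swap_apply_apply, Equiv.swap_inv]
    have h3 : σ * Equiv.swap x y * (Equiv.swap x y * Equiv.swap p.1 p.2 * Equiv.swap x y) =
      σ * (Equiv.swap x y * Equiv.swap x y) * Equiv.swap p.1 p.2 * Equiv.swap x y := by
      simp only [mul_assoc]
    rw [h3, Equiv.swap_mul_self, mul_one]
  show q p * F (σ * Equiv.swap x y *
    Equiv.swap (Equiv.swap x y p.1) (Equiv.swap x y p.2)) = -(q p * F (σ * Equiv.swap p.1 p.2))
  rw [h2, hF x hx y hy hxy, mul_neg]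

/-- TASK S4c. PROOF. `CI β Mk ((stepT q ^ n) F)` for all `n` by induction (`CI_step`; `pow_succ'`,
`(stepT q ^ (n + 1)) F = stepT q ((stepT q ^ n) F)` by `rfl`, see `stepT_pow_succ`). Then
`sg_hasSum` at `g σ g⁻¹` and at `σ` have the same terms, `HasSum.unique`. -/
theorem CI_sg {β : V → ι} {Mk : Finset V} {F : Fn V} (hF : CI β Mk F) {q : V × V → ℝ}
    (hq : ∀ g : Equiv.Perm V, (∀ v, β (g v) = β v) → ∀ p : V × V, q (g p.1, g p.2) = q p)
    (t : ℝ) : CI β Mk (sg q t F) := by
  have hn : ∀ n : ℕ, CI β Mk ((stepT q ^ n) F) := by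
    intro n
    induction n with
    | zero => exact hF
    | succ n ih =>
      have h : (stepT q ^ (n + 1)) F = stepT q ((stepT q ^ n) F) := by
        rw [pow_succ']
        rfl
      rw [h]
      exact CI_step ih hq
  intro g hg hm σ
  have h1 := sg_hasSum q t F (g * σ * g⁻¹)
  have h2 := sg_hasSum q t F σ
  have h3 : (fun n : ℕ => Real.exp (-(t * tot q)) * (t ^ n / n.factorial *
      ((stepT q ^ n) F (g * σ * g⁻¹)))) =
      fun n : ℕ => Real.exp (-(t * tot q)) * (t ^ n / n.factorial * ((stepT q ^ n) F σ)) := by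
    funext n
    rw [hn n g hg hm σ]
  rw [h3] at h1
  exact h1.unique h2

/-- TASK S4d. PROOF. The same for `AS`: `AS Mk ((stepT q ^ n) F)` by induction (`AS_step`), and
`sg_hasSum` at `σ * swap x y` has the terms of `sg_hasSum` at `σ` with the opposite sign
(`HasSum.neg`, `HasSum.unique`). -/
theorem AS_sg {Mk : Finset V} {F : Fn V} (hF : AS Mk F) {q : V × V → ℝ}
    (hq : ∀ x ∈ Mk, ∀ y ∈ Mk, ∀ p : V × V,
      q (Equiv.swap x y p.1, Equiv.swap x y p.2) = q p)
    (t : ℝ) : AS Mk (sg q t F) := by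
  have hn : ∀ n : ℕ, AS Mk ((stepT q ^ n) F) := by
    intro n
    induction n with
    | zero => exact hF
    | succ n ih =>
      have h : (stepT q ^ (n + 1)) F = stepT q ((stepT q ^ n) F) := by
        rw [pow_succ']
        rfl
      rw [h]
      exact AS_step ih hq
  intro x hx y hy hxy σ
  have h1 := sg_hasSum q t F (σ * Equiv.swap x y)
  have h2 := (sg_hasSum q t F σ).neg
  have h3 : (fun n : ℕ => Real.exp (-(t * tot q)) * (t ^ n / n.factorial *
      ((stepT q ^ n) F (σ * Equiv.swap x y)))) =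
      fun n : ℕ => -(Real.exp (-(t * tot q)) * (t ^ n / n.factorial * ((stepT q ^ n) F σ))) := by
    funext n
    rw [hn n x hx y hy hxy σ]
    ring
  rw [h3] at h1
  exact h1.unique h2

end Pool.Agent.Stirring.Mono
end
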