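import Pool.Agent.Lib.MP_6c3d62_pr.HC.En3
import Pool.Agent.Lib.MP_6c3d62_pr.Mg.G085

section

/-! Lazy rings: the law of the stirring permutation is a Poisson mixture of the laws of words of
lazy rings; entropy bound for the cost of a transposition. -/

open Finset Equiv

set_option linter.unusedSectionVars false

namespace Pool.Agent.Stirring.TC

open Hier HC

variable {V : Type*} [Fintype V] [DecidableEq V]

/-- The law after `n` lazy rings. -/
noncomputable def lz (c : V × V → ℝ) : ℕ → Perm V → ℝ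
  | 0 => fun σ => if σ = 1 then 1 else 0
  | n + 1 => fun σ => ∑ p : V × V, c p / tot c * ((lz c n σ + lz c n (σ * swap p.1 p.2)) / 2)

theorem lz_succ (c : V × V → ℝ) (n : ℕ) :
    lz c (n + 1) = fun σ => ∑ p : V × V, c p / tot c *
      ((lz c n σ + lz c n (σ * swap p.1 p.2)) / 2) := rfl

theorem sum_div_tot {c : V × V → ℝ} (hT : 0 < tot c) : ∑ p, c p / tot c = 1 := by
  rw [← Finset.sum_div]
  exact div_self hT.ne'

theorem lz_law {c : V × V → ℝ} (hc : ∀ p, 0 ≤ c p) (hT : 0 < tot c) (n : ℕ) : IsLaw (lz c n) := by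
  induction n with
  | zero =>
    refine ⟨fun σ => ?_, ?_⟩
    · unfold lz; split_ifs <;> norm_num
    · unfold lz; simp
  | succ n ih =>
    rw [lz_succ]
    refine ⟨fun σ => Finset.sum_nonneg fun p _ => ?_, ?_⟩
    · have h1 := hc p
      have h2 := ih.nn σ
      have h3 := ih.nn (σ * swap p.1 p.2)
      positivity
    · rw [Finset.sum_comm]
      have h : ∀ p : V × V, ∑ σ, c p / tot c * ((lz c n σ + lz c n (σ * swap p.1 p.2)) / 2) =
          c p / tot c := by
        intro p
        rw [← Finset.mul_sum, ← Finset.sum_div, Finset.sum_add_distrib, sum_mul_right, ih.one]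
        norm_num
      simp_rw [h]
      exact sum_div_tot hT

/-- The recursion at the other end of the word. -/
theorem lz_left (c : V × V → ℝ) (n : ℕ) : ∀ σ, lz c (n + 1) σ =
    ∑ p : V × V, c p / tot c * ((lz c n σ + lz c n (swap p.1 p.2 * σ)) / 2) := by
  induction n with
  | zero =>
    intro σ
    rw [lz_succ]
    refine Finset.sum_congr rfl fun p _ => ?_
    have h : (σ * swap p.1 p.2 = 1) ↔ (swap p.1 p.2 * σ = 1) := by
      rw [mul_eq_one_iff_eq_inv, mul_eq_one_iff_inv_eq, swap_inv]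
      exact ⟨fun h => h.symm, fun h => h.symm⟩
    simp only [lz, h]
  | succ n ih =>
    intro σ
    have h1 : ∀ τ, lz c (n + 1) τ = ∑ p : V × V, c p / tot c *
      ((lz c n τ + lz c n (τ * swap p.1 p.2)) / 2) := fun τ => by rw [lz_succ]
    have e1 : ∀ a b : V × V → ℝ, (∑ q, c q / tot c * a q + ∑ q, c q / tot c * b q) / 2 =
        ∑ q, c q / tot c * ((a q + b q) / 2) := by
      intro a b
      rw [← Finset.sum_add_distrib, Finset.sum_div]
      refine Finset.sum_congr rfl fun q _ => by ring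
    have hL : ∀ p : V × V, (lz c (n + 1) σ + lz c (n + 1) (σ * swap p.1 p.2)) / 2 =
        ∑ q : V × V, c q / tot c * (((lz c n σ + lz c n (swap q.1 q.2 * σ)) / 2 +
          (lz c n (σ * swap p.1 p.2) + lz c n (swap q.1 q.2 * (σ * swap p.1 p.2))) / 2) / 2) := by
      intro p
      rw [ih σ, ih (σ * swap p.1 p.2), e1]
    have hR : ∀ p : V × V, (lz c (n + 1) σ + lz c (n + 1) (swap p.1 p.2 * σ)) / 2 =
        ∑ q : V × V, c q / tot c * (((lz c n σ + lz c n (σ * swap q.1 q.2)) / 2 +
          (lz c n (swap p.1 p.2 * σ) + lz c n (swap p.1 p.2 * σ * swap q.1 q.2)) / 2) / 2) := by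
      intro p
      rw [h1 σ, h1 (swap p.1 p.2 * σ), e1]
    rw [lz_succ c (n + 1)]
    simp only [hL, hR]
    simp_rw [Finset.mul_sum]
    rw [Finset.sum_comm]
    refine Finset.sum_congr rfl fun q _ => Finset.sum_congr rfl fun p _ => ?_
    rw [mul_assoc (swap q.1 q.2) σ]
    ring

/-- Diagonal rates. -/
noncomputable def dg (T : ℝ) (x0 : V) : V × V → ℝ := fun p => if p = (x0, x0) then T else 0

theorem tot_dg (T : ℝ) (x0 : V) : tot (dg T x0) = T := by
  unfold tot dg; simp

theorem gen_dg (T : ℝ) (x0 : V) : gen (dg T x0) = 0 := by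
  refine ContinuousLinearMap.ext fun f => ?_
  funext σ
  rw [gen_apply]
  refine Finset.sum_eq_zero fun p _ => ?_
  unfold dg
  split_ifs with h
  · rw [h]
    have h1 : σ * swap x0 x0 = σ := by rw [swap_self]; exact mul_one σ
    show T * (f (σ * swap x0 x0) - f σ) = 0
    rw [h1, sub_self, mul_zero]
  · simp

theorem sg_dg (c : V × V → ℝ) (T : ℝ) (x0 : V) (s : ℝ) : sg (c + dg T x0) s = sg c s := by
  unfold sg
  rw [gen_add, gen_dg, add_zero]

theorem stepT_lz {c : V × V → ℝ} (hT : 0 < tot c) (x0 : V) (n : ℕ) : ∀ σ τ : Perm V,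
    (stepT (c + dg (tot c) x0) ^ n) (fun ρ => if ρ = σ then 1 else 0) τ =
      (2 * tot c) ^ n * lz c n (τ⁻¹ * σ) := by
  induction n with
  | zero =>
    intro σ τ
    have h : (τ⁻¹ * σ = 1) ↔ τ = σ := by rw [inv_mul_eq_one]
    simp only [pow_zero, one_mul, lz, h]
    rfl
  | succ n ih =>
    intro σ τ
    rw [stepT_pow_succ]
    simp only [ih]
    rw [lz_left]
    have h1 : ∀ p : V × V, (τ * swap p.1 p.2)⁻¹ * σ = swap p.1 p.2 * (τ⁻¹ * σ) := by
      intro p
      rw [mul_inv_rev, swap_inv, mul_assoc]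
    simp only [h1, Pi.add_apply, add_mul, Finset.sum_add_distrib]
    have h2 : ∑ p : V × V, dg (tot c) x0 p * ((2 * tot c) ^ n * lz c n (swap p.1 p.2 * (τ⁻¹ * σ)))
        = tot c * ((2 * tot c) ^ n * lz c n (τ⁻¹ * σ)) := by
      rw [Finset.sum_eq_single (x0, x0)]
      · have h6 : swap x0 x0 * (τ⁻¹ * σ) = τ⁻¹ * σ := by rw [swap_self]; exact one_mul _
        show (if (x0, x0) = (x0, x0) then tot c else 0) *
          ((2 * tot c) ^ n * lz c n (swap x0 x0 * (τ⁻¹ * σ))) = _
        rw [if_pos rfl, h6]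
      · intro p _ hp
        unfold dg; rw [if_neg hp, zero_mul]
      · intro h; exact absurd (Finset.mem_univ _) h
    rw [h2]
    have h3 : ∑ p : V × V, c p / tot c * ((lz c n (τ⁻¹ * σ) + lz c n (swap p.1 p.2 * (τ⁻¹ * σ))) / 2)
        = lz c n (τ⁻¹ * σ) / 2 +
          (∑ p : V × V, c p * lz c n (swap p.1 p.2 * (τ⁻¹ * σ))) / (2 * tot c) := by
      have h4 : ∀ p : V × V, c p / tot c *
          ((lz c n (τ⁻¹ * σ) + lz c n (swap p.1 p.2 * (τ⁻¹ * σ))) / 2) =
          c p / tot c * (lz c n (τ⁻¹ * σ) / 2) +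
          c p * lz c n (swap p.1 p.2 * (τ⁻¹ * σ)) / (2 * tot c) := by
        intro p
        field_simp
      simp only [h4]
      rw [Finset.sum_add_distrib, ← Finset.sum_mul, sum_div_tot hT, one_mul, Finset.sum_div]
    rw [h3]
    have h5 : ∑ p : V × V, c p * ((2 * tot c) ^ n * lz c n (swap p.1 p.2 * (τ⁻¹ * σ))) =
        (2 * tot c) ^ n * ∑ p : V × V, c p * lz c n (swap p.1 p.2 * (τ⁻¹ * σ)) := by
      rw [Finset.mul_sum]
      refine Finset.sum_congr rfl fun p _ => by ring
    rw [h5, pow_succ]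
    field_simp
    ring

/-- The law of the stirring permutation at time `s`. -/
noncomputable def lw (c : V × V → ℝ) (s : ℝ) : Perm V → ℝ :=
  fun σ => sg c s (fun ρ => if ρ = σ then 1 else 0) 1

/-- Poisson mixture of lazy words. -/
theorem lw_hasSum {c : V × V → ℝ} (hT : 0 < tot c) (s : ℝ) (σ : Perm V) :
    HasSum (fun n : ℕ => Real.exp (-(2 * tot c * s)) * ((2 * tot c * s) ^ n / n.factorial) *
      lz c n σ) (lw c s σ) := by
  have hne : Nonempty V := by
    by_contra h
    rw [not_nonempty_iff] at h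
    have : tot c = 0 := by unfold tot; simp
    exact hT.ne' this
  obtain ⟨x0⟩ := hne
  have h := sg_hasSum (c + dg (tot c) x0) s (fun ρ => if ρ = σ then 1 else 0) 1
  rw [sg_dg, tot_add, tot_dg] at h
  refine h.congr_fun ?_ |> fun h => h
  intro n
  rw [stepT_lz hT, inv_one, one_mul, mul_pow]
  have : s * (tot c + tot c) = 2 * tot c * s := by ring
  rw [this]
  ring

theorem lw_law {c : V × V → ℝ} (hc : ∀ p, 0 ≤ c p) {s : ℝ} (hs : 0 ≤ s) : IsLaw (lw c s) := by
  refine ⟨fun σ => sg_nonneg_on hc (stab_univ c) (fun τ _ => by split_ifs <;> norm_num) hs 1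
    (Set.mem_univ _), ?_⟩
  unfold lw
  have h : ∑ σ : Perm V, sg c s (fun ρ => if ρ = σ then (1 : ℝ) else 0) 1 =
      sg c s (fun _ => 1) 1 := by
    have h1 : (fun _ : Perm V => (1 : ℝ)) = ∑ σ : Perm V, fun ρ => if ρ = σ then (1 : ℝ) else 0 := by
      funext ρ
      rw [Finset.sum_apply]
      simp
    rw [h1, map_sum, Finset.sum_apply]
  rw [h, sg_const]

/-- Expectation as a sum against the law. -/
theorem sg_eq_sum (c : V × V → ℝ) (s : ℝ) (f : Perm V → ℝ) :
    sg c s f 1 = ∑ σ, lw c s σ * f σ := by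
  have h1 : f = ∑ σ : Perm V, f σ • fun ρ => if ρ = σ then (1 : ℝ) else 0 := by
    funext ρ
    rw [Finset.sum_apply]
    simp
  conv_lhs => rw [h1]
  rw [map_sum, Finset.sum_apply]
  refine Finset.sum_congr rfl fun σ _ => ?_
  rw [sg_smul, lw]
  ring

/-- The entropy grows at every lazy ring. -/
theorem ent_lz_succ {c : V × V → ℝ} (hc : ∀ p, 0 ≤ c p) (hT : 0 < tot c) (n : ℕ) :
    ent (lz c n) + ∑ p : V × V, c p / tot c * (tv (lz c n) (rm (swap p.1 p.2) (lz c n)) ^ 2 / 2) ≤
      ent (lz c (n + 1)) := by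
  have hl := lz_law hc hT n
  have h1 := ent_mix Finset.univ (fun p : V × V => c p / tot c)
    (fun p σ => (lz c n σ + lz c n (σ * swap p.1 p.2)) / 2)
    (fun p _ => div_nonneg (hc p) hT.le) (sum_div_tot hT)
    (fun p _ σ => by
      have h2 := hl.nn σ
      have h3 := hl.nn (σ * swap p.1 p.2)
      positivity)
  rw [lz_succ]
  refine le_trans ?_ h1
  have h2 : ent (lz c n) = ∑ p : V × V, c p / tot c * ent (lz c n) := by
    rw [← Finset.sum_mul, sum_div_tot hT, one_mul]
  rw [h2, ← Finset.sum_add_distrib]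
  refine Finset.sum_le_sum fun p _ => ?_
  rw [← mul_add]
  exact mul_le_mul_of_nonneg_left (ent_step_rm hl (swap p.1 p.2)) (div_nonneg (hc p) hT.le)

theorem tv_sum_le {ι S : Type*} [Fintype S] (t : Finset ι) (w : ι → ℝ) (hw : ∀ i ∈ t, 0 ≤ w i)
    (p q : ι → S → ℝ) :
    tv (fun s => ∑ i ∈ t, w i * p i s) (fun s => ∑ i ∈ t, w i * q i s) ≤
      ∑ i ∈ t, w i * tv (p i) (q i) := by
  unfold tv
  have h : ∀ i, w i * ((∑ s, |p i s - q i s|) / 2) = (∑ s, w i * |p i s - q i s|) / 2 := by
    intro i; rw [← Finset.mul_sum]; ring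
  simp only [h]
  rw [← Finset.sum_div, Finset.sum_comm]
  refine div_le_div_of_nonneg_right (Finset.sum_le_sum fun s _ => ?_) (by norm_num)
  rw [← Finset.sum_sub_distrib]
  refine (Finset.abs_sum_le_sum_abs _ _).trans (Finset.sum_le_sum fun i hi => ?_)
  rw [← mul_sub, abs_mul, abs_of_nonneg (hw i hi)]

theorem tv_lm (p q : Perm V → ℝ) (g : Perm V) : tv (fun σ => p (g * σ)) (fun σ => q (g * σ)) =
    tv p q := tv_comp p q (Equiv.mulLeft g)

theorem tv_avg (p p' q q' : Perm V → ℝ) :
    tv (fun s => (p s + p' s) / 2) (fun s => (q s + q' s) / 2) ≤ (tv p q + tv p' q') / 2 := by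
  unfold tv
  rw [← add_div, ← Finset.sum_add_distrib]
  refine le_of_le_of_eq (div_le_div_of_nonneg_right (Finset.sum_le_sum
    (g := fun s => (|p s - q s| + |p' s - q' s|) / 2) fun s _ => ?_) (by norm_num)) ?_
  · rw [← sub_div, abs_div, abs_of_pos (by norm_num : (0 : ℝ) < 2)]
    refine div_le_div_of_nonneg_right ?_ (by norm_num)
    have : p s + p' s - (q s + q' s) = (p s - q s) + (p' s - q' s) := by ring
    rw [this]
    exact abs_add_le _ _
  · rw [← Finset.sum_div]

/-- The cost of a permutation decreases along the lazy words. -/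
theorem tv_lz_succ {c : V × V → ℝ} (hc : ∀ p, 0 ≤ c p) (hT : 0 < tot c) (n : ℕ) (g : Perm V) :
    tv (lz c (n + 1)) (rm g (lz c (n + 1))) ≤ tv (lz c n) (rm g (lz c n)) := by
  have h0 : lz c (n + 1) = fun σ => ∑ p : V × V, c p / tot c *
      ((lz c n σ + lz c n (swap p.1 p.2 * σ)) / 2) := funext (lz_left c n)
  have h1 : rm g (lz c (n + 1)) = fun σ => ∑ p : V × V, c p / tot c *
      ((rm g (lz c n) σ + rm g (lz c n) (swap p.1 p.2 * σ)) / 2) := by
    funext σ
    unfold rm
    rw [lz_left]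
    simp only [mul_assoc]
  rw [h1, h0]
  refine (tv_sum_le Finset.univ _ (fun p _ => div_nonneg (hc p) hT.le)
    (fun p σ => (lz c n σ + lz c n (swap p.1 p.2 * σ)) / 2)
    (fun p σ => (rm g (lz c n) σ + rm g (lz c n) (swap p.1 p.2 * σ)) / 2)).trans ?_
  have h2 : tv (lz c n) (rm g (lz c n)) = ∑ p : V × V, c p / tot c *
      tv (lz c n) (rm g (lz c n)) := by
    rw [← Finset.sum_mul, sum_div_tot hT, one_mul]
  rw [h2]
  refine Finset.sum_le_sum fun p _ => mul_le_mul_of_nonneg_left ?_ (div_nonneg (hc p) hT.le)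
  refine (tv_avg _ _ _ _).trans ?_
  rw [tv_lm (lz c n) (rm g (lz c n)) (swap p.1 p.2)]
  linarith

theorem tv_lz_anti {c : V × V → ℝ} (hc : ∀ p, 0 ≤ c p) (hT : 0 < tot c) (g : Perm V) :
    Antitone fun n => tv (lz c n) (rm g (lz c n)) :=
  antitone_nat_of_succ_le fun n => tv_lz_succ hc hT n g

/-- Entropy bound for the cost of a transposition after `n` lazy rings. -/
theorem tv_lz_sq_le {c : V × V → ℝ} (hc : ∀ p, 0 ≤ c p) (hT : 0 < tot c) {w : ℝ} (g : Perm V)
    (hw : ∀ n, w * tv (lz c n) (rm g (lz c n)) ^ 2 ≤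
      ∑ p : V × V, c p * tv (lz c n) (rm (swap p.1 p.2) (lz c n)) ^ 2) (hw0 : 0 ≤ w) (n : ℕ) :
    n * (w * tv (lz c n) (rm g (lz c n)) ^ 2) ≤
      2 * tot c * (Fintype.card V * Real.log (Fintype.card V)) := by
  have h1 : ∀ n, ent (lz c n) + w / (2 * tot c) * tv (lz c n) (rm g (lz c n)) ^ 2 ≤
      ent (lz c (n + 1)) := by
    intro n
    refine le_trans ?_ (ent_lz_succ hc hT n)
    have h2 := div_le_div_of_nonneg_right (hw n) (by positivity : (0 : ℝ) ≤ 2 * tot c)
    have h3 : ∑ p : V × V, c p / tot c * (tv (lz c n) (rm (swap p.1 p.2) (lz c n)) ^ 2 / 2) =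
        (∑ p : V × V, c p * tv (lz c n) (rm (swap p.1 p.2) (lz c n)) ^ 2) / (2 * tot c) := by
      rw [Finset.sum_div]
      refine Finset.sum_congr rfl fun p _ => ?_
      field_simp
    rw [h3]
    have h4 : w / (2 * tot c) * tv (lz c n) (rm g (lz c n)) ^ 2 =
      w * tv (lz c n) (rm g (lz c n)) ^ 2 / (2 * tot c) := by ring
    rw [h4]
    linarith
  have h5 : ∀ n : ℕ, ∑ k ∈ Finset.range n, w / (2 * tot c) * tv (lz c k) (rm g (lz c k)) ^ 2 ≤
      ent (lz c n) := by
    intro n
    induction n with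
    | zero =>
      simp only [Finset.range_zero, Finset.sum_empty]
      exact ent_nonneg (lz_law hc hT 0).nn (lz_law hc hT 0).one
    | succ n ih =>
      rw [Finset.sum_range_succ]
      linarith [h1 n]
  have h6 : n * (w / (2 * tot c) * tv (lz c n) (rm g (lz c n)) ^ 2) ≤ ent (lz c n) := by
    refine le_trans ?_ (h5 n)
    have h7 : (n : ℝ) * (w / (2 * tot c) * tv (lz c n) (rm g (lz c n)) ^ 2) =
        ∑ k ∈ Finset.range n, w / (2 * tot c) * tv (lz c n) (rm g (lz c n)) ^ 2 := by
      rw [Finset.sum_const, Finset.card_range, nsmul_eq_mul]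
    rw [h7]
    refine Finset.sum_le_sum fun k hk => mul_le_mul_of_nonneg_left ?_ (by positivity)
    have h8 := tv_lz_anti hc hT g (Finset.mem_range.mp hk).le
    have h9 := tv_nonneg (lz c n) (rm g (lz c n))
    exact pow_le_pow_left₀ h9 h8 2
  have h7 : ent (lz c n) ≤ Fintype.card V * Real.log (Fintype.card V) := by
    have := ent_le_supp (lz_law hc hT n) (C := Finset.univ)
      (fun π _ z hz => absurd (Finset.mem_univ z) hz)
    rw [Finset.card_univ] at this
    exact this
  have h8 := mul_le_mul_of_nonneg_left (h6.trans h7) (by positivity : (0 : ℝ) ≤ 2 * tot c)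
  refine le_trans (le_of_eq ?_) h8
  field_simp

end Pool.Agent.Stirring.TC
end

section

/-! Total variation cost of a transposition for the stirring permutation at time `s`. -/

open Finset Equiv

set_option linter.unusedSectionVars false

namespace Pool.Agent.Stirring.TC

open Hier HC

section Mix

variable {V : Type*} [Fintype V] [DecidableEq V]

/-- The Poisson weight. -/
noncomputable def po (m : ℝ) (n : ℕ) : ℝ := Real.exp (-m) * (m ^ n / n.factorial)

theorem po_nonneg {m : ℝ} (hm : 0 ≤ m) (n : ℕ) : 0 ≤ po m n := by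
  unfold po; positivity

theorem po_geom_hasSum (m r : ℝ) : HasSum (fun n => po m n * r ^ n) (Real.exp (m * r - m)) := by
  have h := NormedSpace.expSeries_div_hasSum_exp (𝔸 := ℝ) (m * r)
  rw [← Real.exp_eq_exp_ℝ] at h
  have h2 := h.mul_left (Real.exp (-m))
  rw [← Real.exp_add] at h2
  have h3 : -m + m * r = m * r - m := by ring
  rw [h3] at h2
  refine h2.congr_fun ?_ |> fun h => h
  intro n
  unfold po
  rw [mul_pow]; ring

theorem po_hasSum (m : ℝ) : HasSum (fun n => po m n) 1 := by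
  have h := po_geom_hasSum m 1
  simpa using h

/-- Total variation of two mixtures. -/
theorem tv_mix_le {S : Type*} [Fintype S] {m : ℝ} (hm : 0 ≤ m) {P Q : ℕ → S → ℝ} {p q : S → ℝ}
    (hp : ∀ s, HasSum (fun n => po m n * P n s) (p s))
    (hq : ∀ s, HasSum (fun n => po m n * Q n s) (q s)) {B : ℕ → ℝ} {b : ℝ}
    (hB : ∀ n, tv (P n) (Q n) ≤ B n) (hb : HasSum (fun n => po m n * B n) b) : tv p q ≤ b := by
  have h1 : ∀ s, HasSum (fun n => po m n * (P n s - Q n s)) (p s - q s) := by
    intro s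
    have := (hp s).sub (hq s)
    refine this.congr_fun ?_ |> fun h => h
    intro n; ring
  have hdom : ∀ s n, |po m n * (P n s - Q n s)| ≤ 2 * (po m n * B n) := by
    intro s n
    rw [abs_mul, abs_of_nonneg (po_nonneg hm n)]
    have h2 : |P n s - Q n s| ≤ ∑ s, |P n s - Q n s| :=
      Finset.single_le_sum (f := fun s => |P n s - Q n s|) (fun _ _ => abs_nonneg _)
        (Finset.mem_univ s)
    have h3 := hB n
    unfold tv at h3
    have h4 := po_nonneg hm n
    nlinarith
  have hsum : ∀ s, Summable fun n => |po m n * (P n s - Q n s)| := fun s =>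
    Summable.of_nonneg_of_le (fun _ => abs_nonneg _) (hdom s) (hb.summable.mul_left 2)
  have h2 : ∀ s, |p s - q s| ≤ ∑' n, |po m n * (P n s - Q n s)| := by
    intro s
    rw [← (h1 s).tsum_eq]
    have h3 : Summable fun n => ‖po m n * (P n s - Q n s)‖ := hsum s
    have := norm_tsum_le_tsum_norm h3
    exact this
  unfold tv
  have h3 : ∑ s, |p s - q s| ≤ 2 * b := by
    refine (Finset.sum_le_sum fun s _ => h2 s).trans ?_
    rw [← Summable.tsum_finsetSum (fun s _ => hsum s)]
    have h4 : HasSum (fun n => 2 * (po m n * B n)) (2 * b) := hb.mul_left 2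
    refine (Summable.tsum_le_tsum ?_ (summable_sum fun s _ => hsum s) h4.summable).trans
      (le_of_eq h4.tsum_eq)
    intro n
    have h5 : ∑ s, |po m n * (P n s - Q n s)| = po m n * ∑ s, |P n s - Q n s| := by
      rw [Finset.mul_sum]
      refine Finset.sum_congr rfl fun s _ => ?_
      rw [abs_mul, abs_of_nonneg (po_nonneg hm n)]
    rw [h5]
    have h6 := hB n
    unfold tv at h6
    have h7 := po_nonneg hm n
    nlinarith
  linarith

/-- The cost of a permutation for the stirring permutation at time `s`. -/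
theorem tv_lw_le {c : V × V → ℝ} (hc : ∀ p, 0 ≤ c p) (hT : 0 < tot c) {w : ℝ} (hw0 : 0 < w)
    (g : Perm V) (hw : ∀ n, w * tv (lz c n) (rm g (lz c n)) ^ 2 ≤
      ∑ p : V × V, c p * tv (lz c n) (rm (swap p.1 p.2) (lz c n)) ^ 2) {s : ℝ} (hs : 0 < s) :
    tv (lw c s) (rm g (lw c s)) ≤ Real.exp (-(3 / 10 * (tot c * s))) +
      Real.sqrt (2 * (Fintype.card V * Real.log (Fintype.card V)) / (w * s)) := by
  set m : ℝ := 2 * tot c * s with hm
  have hm0 : 0 < m := by rw [hm]; positivity
  set δ := Real.sqrt (2 * (Fintype.card V * Real.log (Fintype.card V)) / (w * s)) with hδ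
  have hδ0 : 0 ≤ δ := Real.sqrt_nonneg _
  set A : ℝ := Real.exp (Real.log 2 * (m / 2)) with hA
  have hP : ∀ σ, HasSum (fun n => po m n * lz c n σ) (lw c s σ) := fun σ => lw_hasSum hT s σ
  have hQ : ∀ σ, HasSum (fun n => po m n * rm g (lz c n) σ) (rm g (lw c s) σ) := fun σ =>
    lw_hasSum hT s (σ * g)
  have hb : HasSum (fun n => po m n * (δ + A * (1 / 2) ^ n))
      (δ + A * Real.exp (m * (1 / 2) - m)) := by
    have h1 := (po_hasSum m).mul_left δ
    have h2 := (po_geom_hasSum m (1 / 2)).mul_left A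
    have h3 := h1.add h2
    rw [mul_one] at h3
    refine h3.congr_fun ?_ |> fun h => h
    intro n; ring
  have hB : ∀ n, tv (lz c n) (rm g (lz c n)) ≤ δ + A * (1 / 2) ^ n := by
    intro n
    have hA0 : 0 < A := Real.exp_pos _
    have ht1 : tv (lz c n) (rm g (lz c n)) ≤ 1 :=
      tv_le_one (lz_law hc hT n).nn (rm_law (lz_law hc hT n) g).nn (lz_law hc hT n).one
        (rm_law (lz_law hc hT n) g).one
    rcases le_or_gt (m / 2) n with h | h
    · have hn : (0 : ℝ) < n := lt_of_lt_of_le (by positivity) h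
      have h1 := tv_lz_sq_le hc hT g hw hw0.le n
      have h2 : tv (lz c n) (rm g (lz c n)) ≤ δ := by
        rw [hδ]
        refine Real.le_sqrt_of_sq_le ?_
        rw [le_div_iff₀ (by positivity)]
        have h3 : s * tot c ≤ n := by
          have : m / 2 = s * tot c := by rw [hm]; ring
          linarith
        have h4 : 0 ≤ w * tv (lz c n) (rm g (lz c n)) ^ 2 := by positivity
        have h5 : s * tot c * (w * tv (lz c n) (rm g (lz c n)) ^ 2) ≤
            2 * tot c * (Fintype.card V * Real.log (Fintype.card V)) :=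
          (mul_le_mul_of_nonneg_right h3 h4).trans h1
        have h6 : tot c * (tv (lz c n) (rm g (lz c n)) ^ 2 * (w * s)) ≤
            tot c * (2 * (Fintype.card V * Real.log (Fintype.card V))) := by
          nlinarith
        exact le_of_mul_le_mul_left h6 hT
      have h3 : 0 ≤ A * (1 / 2) ^ n := by positivity
      linarith
    · have h1 : (1 : ℝ) ≤ A * (1 / 2) ^ n := by
        have h2 : (1 / 2 : ℝ) ^ n = Real.exp (-(Real.log 2 * n)) := by
          rw [one_div, inv_pow, ← Real.exp_log (show (0 : ℝ) < 2 by norm_num), ← Real.exp_nat_mul,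
            ← Real.exp_neg, Real.log_exp]
          ring_nf
        rw [h2, hA, ← Real.exp_add]
        refine Real.one_le_exp ?_
        have h3 : 0 < Real.log 2 := Real.log_pos (by norm_num)
        nlinarith
      linarith
  refine (tv_mix_le hm0.le hP hQ hB hb).trans ?_
  rw [add_comm]
  refine add_le_add ?_ le_rfl
  rw [hA, ← Real.exp_add]
  refine Real.exp_le_exp.mpr ?_
  have h1 := Real.log_two_lt_d9
  have h2 : m / 2 = tot c * s := by rw [hm]; ring
  have h3 : m * (1 / 2) - m = -(tot c * s) := by rw [hm]; ring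
  rw [h3, h2]
  have h4 : 0 < tot c * s := by positivity
  nlinarith

/-- Inverses. -/
theorem lz_inv (c : V × V → ℝ) (n : ℕ) : ∀ σ, lz c n σ⁻¹ = lz c n σ := by
  induction n with
  | zero => intro σ; simp [lz]
  | succ n ih =>
    intro σ
    rw [lz_left, lz_succ]
    refine Finset.sum_congr rfl fun p _ => ?_
    have h : swap p.1 p.2 * σ⁻¹ = (σ * swap p.1 p.2)⁻¹ := by rw [mul_inv_rev, swap_inv]
    rw [h, ih, ih]

theorem lw_inv {c : V × V → ℝ} (hT : 0 < tot c) (s : ℝ) (σ : Perm V) :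
    lw c s σ⁻¹ = lw c s σ := by
  have h1 := lw_hasSum hT s σ⁻¹
  simp only [lz_inv] at h1
  exact h1.unique (lw_hasSum hT s σ)

/-- Left multiplication costs as much as right multiplication. -/
theorem tv_lw_left {c : V × V → ℝ} (hT : 0 < tot c) (s : ℝ) (g : Perm V) :
    tv (lw c s) (fun σ => lw c s (g * σ)) = tv (lw c s) (rm g⁻¹ (lw c s)) := by
  unfold tv rm
  congr 1
  rw [← Equiv.sum_comp (Equiv.inv (Perm V))]
  refine Finset.sum_congr rfl fun σ _ => ?_
  have h1 : (Equiv.inv (Perm V)) σ = σ⁻¹ := rfl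
  have h2 : g * σ⁻¹ = (σ * g⁻¹)⁻¹ := by rw [mul_inv_rev, inv_inv]
  rw [h1]
  show |lw c s σ⁻¹ - lw c s (g * σ⁻¹)| = |lw c s σ - lw c s (σ * g⁻¹)|
  rw [h2, lw_inv hT, lw_inv hT]

end Mix

section Inv

variable {V : Type*} [Fintype V] [DecidableEq V] [AddCommGroup V]

theorem lz_conj {c : V × V → ℝ} (hinv : ∀ (v : V) (p : V × V), c (p.1 + v, p.2 + v) = c p) (v : V)
    (n : ℕ) : ∀ σ, lz c n (Equiv.addRight v * σ * (Equiv.addRight v)⁻¹) = lz c n σ := by
  induction n with
  | zero =>
    intro σ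
    have h : (Equiv.addRight v * σ * (Equiv.addRight v)⁻¹ = 1) ↔ σ = 1 := by
      rw [mul_inv_eq_one, mul_eq_left]
    simp only [lz, h]
  | succ n ih =>
    intro σ
    rw [lz_succ]
    set θ : Perm V := Equiv.addRight v with hθ
    set e : V × V ≃ V × V := Equiv.prodCongr (Equiv.addRight v) (Equiv.addRight v) with he
    show ∑ p : V × V, c p / tot c * ((lz c n (θ * σ * θ⁻¹) +
        lz c n (θ * σ * θ⁻¹ * swap p.1 p.2)) / 2) =
      ∑ p : V × V, c p / tot c * ((lz c n σ + lz c n (σ * swap p.1 p.2)) / 2)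
    rw [← e.sum_comp]
    refine Finset.sum_congr rfl fun p _ => ?_
    have h1 : c (e p) = c p := hinv v p
    have h2 : swap (e p).1 (e p).2 = θ * swap p.1 p.2 * θ⁻¹ := by
      rw [← Equiv.swap_apply_apply]
      rfl
    have h3 : θ * σ * θ⁻¹ * (θ * swap p.1 p.2 * θ⁻¹) = θ * (σ * swap p.1 p.2) * θ⁻¹ := by
      group
    rw [h1, h2, h3, ih, ih]

theorem tv_lz_conj {c : V × V → ℝ} (hinv : ∀ (v : V) (p : V × V), c (p.1 + v, p.2 + v) = c p)
    (v : V) (n : ℕ) (x y : V) :
    tv (lz c n) (rm (swap (x + v) (y + v)) (lz c n)) = tv (lz c n) (rm (swap x y) (lz c n)) := by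
  set θ : Perm V := Equiv.addRight v with hθ
  have h2 : swap (x + v) (y + v) = θ * swap x y * θ⁻¹ := by
    rw [← Equiv.swap_apply_apply]
    rfl
  rw [h2]
  unfold tv rm
  congr 1
  rw [← Equiv.sum_comp (MulAut.conj θ).toEquiv]
  refine Finset.sum_congr rfl fun σ _ => ?_
  have h3 : (MulAut.conj θ).toEquiv σ = θ * σ * θ⁻¹ := rfl
  have h4 : θ * σ * θ⁻¹ * (θ * swap x y * θ⁻¹) = θ * (σ * swap x y) * θ⁻¹ := by group
  rw [h3, h4, lz_conj hinv, lz_conj hinv]

/-- The cost of a transposition of neighbours for translation invariant rates. -/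
theorem tv_lw_nbr {c : V × V → ℝ} (hc : ∀ p, 0 ≤ c p)
    (hinv : ∀ (v : V) (p : V × V), c (p.1 + v, p.2 + v) = c p) {e : V} (he : 1 ≤ c (0, e))
    {s : ℝ} (hs : 0 < s) (x : V) :
    tv (lw c s) (rm (swap x (x + e)) (lw c s)) ≤ Real.exp (-(3 / 10 * (tot c * s))) +
      Real.sqrt (2 * Real.log (Fintype.card V) / s) := by
  have hcx : ∀ y : V, 1 ≤ c (y, y + e) := by
    intro y
    have := hinv y (0, e)
    simp only [zero_add] at this
    rw [add_comm y e, this]
    exact he
  have hT : 0 < tot c := by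
    unfold tot
    refine Finset.sum_pos' (fun p _ => hc p) ⟨(0, e), Finset.mem_univ _, by linarith⟩
  have hcard : (0 : ℝ) < Fintype.card V := by exact_mod_cast Fintype.card_pos
  have hw : ∀ n, (Fintype.card V : ℝ) * tv (lz c n) (rm (swap x (x + e)) (lz c n)) ^ 2 ≤
      ∑ p : V × V, c p * tv (lz c n) (rm (swap p.1 p.2) (lz c n)) ^ 2 := by
    intro n
    have h1 : ∀ y : V, tv (lz c n) (rm (swap y (y + e)) (lz c n)) =
        tv (lz c n) (rm (swap x (x + e)) (lz c n)) := by
      intro y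
      have := tv_lz_conj hinv (y - x) n x (x + e)
      have h2 : x + (y - x) = y := by abel
      have h3 : x + e + (y - x) = y + e := by abel
      rw [h2, h3] at this
      exact this
    have h2 : (Fintype.card V : ℝ) * tv (lz c n) (rm (swap x (x + e)) (lz c n)) ^ 2 =
        ∑ y : V, tv (lz c n) (rm (swap y (y + e)) (lz c n)) ^ 2 := by
      simp_rw [h1]
      rw [Finset.sum_const, Finset.card_univ, nsmul_eq_mul]
    rw [h2]
    have hinj : Function.Injective fun y : V => (y, y + e) := fun a b h => (Prod.ext_iff.mp h).1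
    have h3 : ∑ y : V, tv (lz c n) (rm (swap y (y + e)) (lz c n)) ^ 2 ≤
        ∑ y : V, c (y, y + e) * tv (lz c n) (rm (swap y (y + e)) (lz c n)) ^ 2 := by
      refine Finset.sum_le_sum fun y _ => ?_
      have := sq_nonneg (tv (lz c n) (rm (swap y (y + e)) (lz c n)))
      nlinarith [hcx y]
    refine h3.trans ?_
    have h4 : ∑ y : V, c (y, y + e) * tv (lz c n) (rm (swap y (y + e)) (lz c n)) ^ 2 =
        ∑ p ∈ (Finset.univ : Finset V).map ⟨fun y : V => (y, y + e), hinj⟩,
          c p * tv (lz c n) (rm (swap p.1 p.2) (lz c n)) ^ 2 := by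
      rw [Finset.sum_map]
      rfl
    rw [h4]
    refine Finset.sum_le_sum_of_subset_of_nonneg (Finset.subset_univ _) fun p _ _ => ?_
    have := hc p
    positivity
  refine (tv_lw_le hc hT hcard (swap x (x + e)) hw hs).trans (add_le_add le_rfl (le_of_eq ?_))
  congr 1
  field_simp

end Inv

end Pool.Agent.Stirring.TC
end
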