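import Pool.Agent.Lib.MP_6c3d62_pr.QK.Heat0

section

/-! Stirring on the torus as a semigroup; the heat semigroup of a finite abelian group. -/

open Finset

set_option linter.unusedSectionVars false

namespace Pool.Agent.Stirring.QK

section Group

variable {V ι : Type*} [Fintype V] [DecidableEq V] [AddCommGroup V] [Fintype ι]

/-- The rates of the Cayley graph with the generators `e i`. -/
noncomputable def trG (e : ι → V) : V × V → ℝ :=
  fun p => ∑ i, if p.2 = p.1 + e i then 1 else 0

theorem trG_nonneg (e : ι → V) (p : V × V) : 0 ≤ trG e p :=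
  Finset.sum_nonneg fun _ _ => by split_ifs <;> norm_num

theorem sum_trG (e : ι → V) (F : V → V → ℝ) :
    ∑ p : V × V, trG e p * F p.1 p.2 = ∑ i, ∑ x, F x (x + e i) := by
  unfold trG
  simp only [Finset.sum_mul]
  rw [Finset.sum_comm]
  refine Finset.sum_congr rfl fun i _ => ?_
  rw [Fintype.sum_prod_type]
  refine Finset.sum_congr rfl fun x _ => ?_
  simp only [ite_mul, one_mul, zero_mul]
  rw [Finset.sum_ite_eq']
  simp

theorem sum_swap {e : V} (he : e ≠ 0) (H : V → V → ℝ) (x : V) (h0 : ∀ z, H z z = 0) :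
    ∑ z, H (Equiv.swap z (z + e) x) x = H (x + e) x + H (x - e) x := by
  have h1 : x ≠ x - e := fun h => he (by
    have := congrArg (fun t => x - t) h
    simpa using this.symm)
  have h2 : ∑ z, H (Equiv.swap z (z + e) x) x = ∑ z ∈ {x, x - e}, H (Equiv.swap z (z + e) x) x := by
    refine (Finset.sum_subset (Finset.subset_univ _) ?_).symm
    intro z _ hz
    simp only [Finset.mem_insert, Finset.mem_singleton, not_or] at hz
    rw [Equiv.swap_apply_of_ne_of_ne (Ne.symm hz.1) (fun h => hz.2 (by rw [h]; abel)), h0]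
  rw [h2, Finset.sum_pair h1, Equiv.swap_apply_left]
  have h3 : x - e + e = x := by abel
  rw [h3, Equiv.swap_apply_right]

/-- The generator of the walk. -/
theorem lap_trG {e : ι → V} (he : ∀ i, e i ≠ 0) (G : V → ℝ) (x : V) :
    lap (trG e) G x = ∑ i, (G (x + e i) + G (x - e i) - 2 * G x) := by
  rw [lap_apply, sum_trG e (fun a b => G (Equiv.swap a b x) - G x)]
  refine Finset.sum_congr rfl fun i _ => ?_
  rw [sum_swap (he i) (fun y x => G y - G x) x (fun z => sub_self _)]
  ring

/-- The square field. -/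
theorem lap_sq {e : ι → V} (he : ∀ i, e i ≠ 0) (G : V → ℝ) (x : V) :
    lap (trG e) (fun y => G y ^ 2) x - 2 * G x * lap (trG e) G x =
      ∑ i, ((G (x + e i) - G x) ^ 2 + (G (x - e i) - G x) ^ 2) := by
  rw [lap_trG he, lap_trG he, Finset.mul_sum, ← Finset.sum_sub_distrib]
  exact Finset.sum_congr rfl fun i _ => by ring

/-- Translation. -/
noncomputable def tau (a : V) : (V → ℝ) →L[ℝ] (V → ℝ) :=
  LinearMap.toContinuousLinearMap
    { toFun := fun G => fun x => G (x + a)
      map_add' := fun _ _ => rfl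
      map_smul' := fun _ _ => rfl }

theorem tau_apply (a : V) (G : V → ℝ) (x : V) : tau a G x = G (x + a) := rfl

theorem lap_tau {e : ι → V} (he : ∀ i, e i ≠ 0) (a : V) (G : V → ℝ) :
    tau a (lap (trG e) G) = lap (trG e) (tau a G) := by
  funext x
  rw [tau_apply, lap_trG he, lap_trG he]
  refine Finset.sum_congr rfl fun i _ => ?_
  rw [tau_apply, tau_apply, tau_apply]
  have h1 : x + a + e i = x + e i + a := by abel
  have h2 : x + a - e i = x - e i + a := by abel
  rw [h1, h2]

theorem heat_tau {e : ι → V} (he : ∀ i, e i ≠ 0) (a : V) (s : ℝ) (G : V → ℝ) :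
    tau a (heat (trG e) s G) = heat (trG e) s (tau a G) :=
  heat_intertwine (tau a) (lap_tau he a) s G

/-- The heat kernel. -/
noncomputable def hkG (e : ι → V) (s : ℝ) (x y : V) : ℝ := heat (trG e) s (Pi.single y 1) x

theorem hkG_nonneg (e : ι → V) {s : ℝ} (hs : 0 ≤ s) (x y : V) : 0 ≤ hkG e s x y := by
  refine heat_nonneg (trG_nonneg e) hs (fun z => ?_) x
  rw [Pi.single_apply]
  split_ifs <;> norm_num

theorem hkG_eq_sum (e : ι → V) (s : ℝ) (G : V → ℝ) (x : V) :
    heat (trG e) s G x = ∑ y, hkG e s x y * G y := by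
  have h1 : G = ∑ y, G y • (Pi.single y (1 : ℝ) : V → ℝ) := by
    funext z
    rw [Finset.sum_apply]
    simp [Pi.single_apply]
  conv_lhs => rw [h1]
  rw [map_sum, Finset.sum_apply]
  refine Finset.sum_congr rfl fun y _ => ?_
  rw [map_smul, Pi.smul_apply, smul_eq_mul, mul_comm]
  rfl

theorem hkG_symm (e : ι → V) (s : ℝ) (x y : V) : hkG e s x y = hkG e s y x := by
  have h := heat_symm (trG e) s (Pi.single x 1) (Pi.single y 1)
  simp only [Pi.single_apply, ite_mul, one_mul, zero_mul] at h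
  rw [Finset.sum_ite_eq', Finset.sum_ite_eq'] at h
  simp only [Finset.mem_univ, if_true] at h
  exact h

theorem hkG_sum (e : ι → V) (s : ℝ) (x : V) : ∑ y, hkG e s x y = 1 := by
  have h := hkG_eq_sum e s (fun _ => 1) x
  rw [heat_const] at h
  simp only [mul_one] at h
  exact h.symm

theorem hkG_translate {e : ι → V} (he : ∀ i, e i ≠ 0) (s : ℝ) (x y a : V) :
    hkG e s (x + a) (y + a) = hkG e s x y := by
  have h := congrFun (heat_tau he a s (Pi.single (y + a) 1)) x
  rw [tau_apply] at h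
  have h2 : tau a (Pi.single (y + a) (1 : ℝ)) = (Pi.single y 1 : V → ℝ) := by
    funext z
    rw [tau_apply, Pi.single_apply, Pi.single_apply]
    exact if_congr (by simp) rfl rfl
  unfold hkG
  rw [h, h2]

/-- THE GRADIENT BOUND. -/
theorem heat_gradG {e : ι → V} (he : ∀ i, e i ≠ 0) {s : ℝ} (hs : 0 < s) {G : V → ℝ} {M : ℝ}
    (hG : ∀ x, |G x| ≤ M) (x : V) (i : ι) :
    |heat (trG e) s G (x + e i) - heat (trG e) s G x| ≤ M / Real.sqrt s := by
  have hc := trG_nonneg e
  set D : ℝ := heat (trG e) s G (x + e i) - heat (trG e) s G x with hD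
  -- `v r = P_r ((P_(s - r) G)^2)`
  set v : ℝ → ℝ := fun r => ∑ y, hkG e r x y * (heat (trG e) (s - r) G y) ^ 2 with hv
  have hv0 : v s ≤ M ^ 2 := by
    have h1 : v s = heat (trG e) s (fun y => G y ^ 2) x := by
      rw [hkG_eq_sum]
      simp only [hv, sub_self, heat_zero]
    rw [h1]
    have h2 := heat_mono hc hs.le (G := fun y => G y ^ 2) (G' := fun _ => M ^ 2) (fun y => by
      have := hG y
      have h3 := abs_nonneg (G y)
      calc G y ^ 2 = |G y| ^ 2 := (sq_abs _).symm
        _ ≤ M ^ 2 := by gcongr) x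
    rwa [heat_const] at h2
  have hv1 : 0 ≤ v 0 := by
    have h1 : v 0 = heat (trG e) 0 (fun y => heat (trG e) s G y ^ 2) x := by
      rw [hkG_eq_sum]
      simp only [hv, sub_zero]
    rw [h1, heat_zero]
    positivity
  have hd : ∀ r ∈ Set.Icc 0 s, HasDerivAt v
      (heat (trG e) r (fun y => ∑ i, ((heat (trG e) (s - r) G (y + e i) -
        heat (trG e) (s - r) G y) ^ 2 + (heat (trG e) (s - r) G (y - e i) -
        heat (trG e) (s - r) G y) ^ 2)) x) r := by
    intro r _
    have h1 : ∀ y ∈ (Finset.univ : Finset V), HasDerivAt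
        (fun r => hkG e r x y * (heat (trG e) (s - r) G y) ^ 2)
        (lap (trG e) (heat (trG e) r (Pi.single y 1)) x * (heat (trG e) (s - r) G y) ^ 2 +
          hkG e r x y * (2 * heat (trG e) (s - r) G y *
            -(lap (trG e) (heat (trG e) (s - r) G) y))) r := by
      intro y _
      have h2 : HasDerivAt (fun r => heat (trG e) (s - r) G y)
          (-(lap (trG e) (heat (trG e) (s - r) G) y)) r := by
        have h3 : HasDerivAt (fun r : ℝ => s - r) (-1) r := by
          simpa using (hasDerivAt_id r).const_sub s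
        have h4 := (heat_hasDerivAt (trG e) G (s - r) y).comp r h3
        refine h4.congr_deriv ?_
        ring
      have h5 := (heat_hasDerivAt (trG e) (Pi.single y 1) r x).mul (h2.pow 2)
      refine h5.congr_deriv ?_
      unfold hkG
      norm_num
    refine (HasDerivAt.fun_sum h1).congr_deriv ?_
    set g := heat (trG e) (s - r) G with hg
    have h6 : ∑ y, lap (trG e) (heat (trG e) r (Pi.single y 1)) x * g y ^ 2 =
        heat (trG e) r (lap (trG e) (fun y => g y ^ 2)) x := by
      rw [heat_comm]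
      have h7 : heat (trG e) r (fun y => g y ^ 2) =
          ∑ y, (g y ^ 2) • heat (trG e) r (Pi.single y 1) := by
        funext z
        rw [hkG_eq_sum, Finset.sum_apply]
        refine Finset.sum_congr rfl fun y _ => ?_
        rw [Pi.smul_apply, smul_eq_mul, mul_comm]
        rfl
      rw [h7, map_sum, Finset.sum_apply]
      refine Finset.sum_congr rfl fun y _ => ?_
      rw [map_smul, Pi.smul_apply, smul_eq_mul, mul_comm]
    rw [Finset.sum_add_distrib, h6, hkG_eq_sum, hkG_eq_sum, ← Finset.sum_add_distrib]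
    refine Finset.sum_congr rfl fun y _ => ?_
    rw [← lap_sq he g y]
    ring
  have hlow : ∀ r ∈ Set.Icc 0 s, D ^ 2 ≤ heat (trG e) r (fun y => ∑ i,
      ((heat (trG e) (s - r) G (y + e i) - heat (trG e) (s - r) G y) ^ 2 +
        (heat (trG e) (s - r) G (y - e i) - heat (trG e) (s - r) G y) ^ 2)) x := by
    intro r hr
    set g := heat (trG e) (s - r) G with hg
    have h1 : D = heat (trG e) r (fun y => g (y + e i) - g y) x := by
      have h2 : (fun y => g (y + e i) - g y) = tau (e i) g - g := rfl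
      rw [h2, map_sub, Pi.sub_apply, ← heat_tau he, tau_apply, hg, ← heat_add]
      have h3 : r + (s - r) = s := by ring
      rw [h3]
    rw [h1]
    refine (heat_sq hc hr.1 _ x).trans (heat_mono hc hr.1 (fun y => ?_) x)
    refine le_trans ?_ (Finset.single_le_sum (f := fun i => (g (y + e i) - g y) ^ 2 +
      (g (y - e i) - g y) ^ 2) (fun j _ => by positivity) (Finset.mem_univ i))
    have := sq_nonneg (g (y - e i) - g y)
    linarith
  have h1 := Hier.lin_upper_Icc (u := fun r => - v r) (κ := - D ^ 2) hs.le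
    (fun r hr => (hd r hr).neg) (fun r hr => by
      have := hlow r hr
      linarith)
  have h2 : s * D ^ 2 ≤ M ^ 2 := by
    have : -v s ≤ -v 0 + -D ^ 2 * s := h1
    nlinarith
  have hM : 0 ≤ M := (abs_nonneg _).trans (hG x)
  rw [le_div_iff₀ (Real.sqrt_pos.2 hs)]
  refine le_of_sq_le_sq ?_ hM |> fun h => h
  rw [mul_pow, sq_abs, Real.sq_sqrt hs.le]
  linarith

/-- The `L¹` gradient bound. -/
theorem hkG_grad {e : ι → V} (he : ∀ i, e i ≠ 0) {s : ℝ} (hs : 0 < s) (x : V) (i : ι) :
    ∑ y, |hkG e s x (y + e i) - hkG e s x y| ≤ 1 / Real.sqrt s := by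
  set g : V → ℝ := fun y => if 0 ≤ hkG e s x (y + e i) - hkG e s x y then 1 else -1 with hg
  have h1 : ∀ y, |g y| ≤ 1 := by
    intro y
    simp only [hg]
    split_ifs <;> simp
  have h2 : ∑ y, |hkG e s x (y + e i) - hkG e s x y| =
      heat (trG e) s g (x - e i) - heat (trG e) s g x := by
    rw [hkG_eq_sum, hkG_eq_sum, ← Finset.sum_sub_distrib]
    refine Finset.sum_congr rfl fun y _ => ?_
    have h3 : hkG e s (x - e i) y = hkG e s x (y + e i) := by
      rw [← hkG_translate he s (x - e i) y (e i), sub_add_cancel]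
    rw [h3, ← sub_mul]
    simp only [hg]
    split_ifs with h
    · rw [mul_one, abs_of_nonneg h]
    · rw [abs_of_neg (not_le.1 h)]; ring
  rw [h2]
  have h3 := heat_gradG he hs h1 (x - e i) i
  rw [sub_add_cancel] at h3
  rw [abs_sub_comm] at h3
  exact (le_abs_self _).trans h3

end Group

end Pool.Agent.Stirring.QK
end

section

/-! The heat kernel of the torus: sup bound, gradient, tail, lower bound. -/

open Finset

set_option linter.unusedSectionVars false

namespace Pool.Agent.Stirring.QK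

section Group

variable {V ι : Type*} [Fintype V] [DecidableEq V] [AddCommGroup V] [Fintype ι]

theorem sum_lap_heat (e : ι → V) (r : ℝ) (f : V → ℝ) (x : V) :
    ∑ y, lap (trG e) (heat (trG e) r (Pi.single y 1)) x * f y =
      heat (trG e) r (lap (trG e) f) x := by
  rw [heat_comm]
  have h7 : heat (trG e) r f = ∑ y, (f y) • heat (trG e) r (Pi.single y 1) := by
    funext z
    rw [hkG_eq_sum, Finset.sum_apply]
    refine Finset.sum_congr rfl fun y _ => ?_
    rw [Pi.smul_apply, smul_eq_mul, mul_comm]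
    rfl
  rw [h7, map_sum, Finset.sum_apply]
  refine Finset.sum_congr rfl fun y _ => ?_
  rw [map_smul, Pi.smul_apply, smul_eq_mul, mul_comm]

/-- Uniqueness for the heat equation. -/
theorem heat_unique (e : ι → V) (U : ℝ → V → ℝ)
    (hU : ∀ r z, HasDerivAt (fun r => U r z) (lap (trG e) (U r) z) r) (s : ℝ) (x : V) :
    U s x = heat (trG e) s (U 0) x := by
  set v : ℝ → ℝ := fun r => ∑ z, hkG e (s - r) x z * U r z with hv
  have hd : ∀ r, HasDerivAt v 0 r := by
    intro r
    have h1 : ∀ z ∈ (Finset.univ : Finset V), HasDerivAt (fun r => hkG e (s - r) x z * U r z)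
        (-(lap (trG e) (heat (trG e) (s - r) (Pi.single z 1)) x) * U r z +
          hkG e (s - r) x z * lap (trG e) (U r) z) r := by
      intro z _
      have h2 : HasDerivAt (fun r => hkG e (s - r) x z)
          (-(lap (trG e) (heat (trG e) (s - r) (Pi.single z 1)) x)) r := by
        have h3 : HasDerivAt (fun r : ℝ => s - r) (-1) r := by
          simpa using (hasDerivAt_id r).const_sub s
        have h4 := (heat_hasDerivAt (trG e) (Pi.single z 1) (s - r) x).comp r h3
        refine h4.congr_deriv ?_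
        ring
      exact h2.mul (hU r z)
    refine (HasDerivAt.fun_sum h1).congr_deriv ?_
    rw [Finset.sum_add_distrib, ← hkG_eq_sum]
    have h5 : ∑ z, -(lap (trG e) (heat (trG e) (s - r) (Pi.single z 1)) x) * U r z =
        -heat (trG e) (s - r) (lap (trG e) (U r)) x := by
      rw [← sum_lap_heat, ← Finset.sum_neg_distrib]
      exact Finset.sum_congr rfl fun z _ => by ring
    rw [h5]
    ring
  have h1 : v s = v 0 := is_const_of_deriv_eq_zero (fun r => (hd r).differentiableAt)
    (fun r => (hd r).deriv) s 0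
  have h2 : v s = U s x := by
    have h3 : v s = heat (trG e) 0 (U s) x := by
      rw [hkG_eq_sum]
      simp only [hv, sub_self]
    rw [h3, heat_zero]
  have h3 : v 0 = heat (trG e) s (U 0) x := by
    rw [hkG_eq_sum]
    simp only [hv, sub_zero]
  rw [← h2, h1, h3]

/-- Chapman-Kolmogorov. -/
theorem hkG_add (e : ι → V) (s u : ℝ) (x y : V) :
    hkG e (s + u) x y = ∑ z, hkG e s x z * hkG e u z y := by
  unfold hkG
  rw [heat_add, hkG_eq_sum]
  rfl

/-- An additive supersolution. -/
theorem heat_le_add {e : ι → V} {s : ℝ} (hs : 0 ≤ s) {F : V → ℝ} {κ : ℝ}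
    (h : ∀ z, lap (trG e) F z ≤ κ) (x : V) : heat (trG e) s F x ≤ F x + κ * s := by
  have h1 := Hier.lin_upper_Icc (u := fun r => heat (trG e) r F x) (κ := κ) hs
    (fun r _ => heat_hasDerivAt (trG e) F r x) (fun r hr => by
      rw [← heat_comm]
      have h2 := heat_mono (trG_nonneg e) hr.1 h x
      rwa [heat_const] at h2)
  simp only [heat_zero] at h1
  exact h1

/-- A multiplicative supersolution. -/
theorem heat_le_mul {e : ι → V} {s : ℝ} (hs : 0 ≤ s) {F : V → ℝ} {κ : ℝ} (hκ : 0 ≤ κ)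
    (h : ∀ z, lap (trG e) F z ≤ κ * F z) (x : V) :
    heat (trG e) s F x ≤ Real.exp (κ * s) * F x := by
  have h1 := Hier.gron_upper_Icc (u := fun r => heat (trG e) r F x) (b := κ) (κ := 0) hκ le_rfl hs
    (fun r _ => heat_hasDerivAt (trG e) F r x) (fun r hr => by
      rw [← heat_comm]
      have h2 := heat_mono (trG_nonneg e) hr.1 h x
      have h3 : heat (trG e) r (fun z => κ * F z) x = κ * heat (trG e) r F x := by
        have h4 : (fun z => κ * F z) = κ • F := rfl
        rw [h4, map_smul]; rfl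
      linarith)
  simp only [heat_zero, zero_mul, add_zero] at h1
  exact h1

/-- The distance of two translates of the kernel in `L¹`. -/
noncomputable def phiG (e : ι → V) (s : ℝ) (w : V) : ℝ := ∑ z, |hkG e s w z - hkG e s 0 z|

theorem phiG_eq {e : ι → V} (he : ∀ i, e i ≠ 0) (s : ℝ) (w x : V) :
    ∑ z, |hkG e s (x + w) z - hkG e s x z| = phiG e s w := by
  unfold phiG
  rw [← Equiv.sum_comp (Equiv.addRight x) (fun z => |hkG e s (x + w) z - hkG e s x z|)]
  refine Finset.sum_congr rfl fun z _ => ?_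
  have h1 := hkG_translate he s w z x
  have h2 := hkG_translate he s 0 z x
  rw [zero_add] at h2
  show |hkG e s (x + w) (z + x) - hkG e s x (z + x)| = _
  rw [add_comm x w, h1, h2]

theorem phiG_add {e : ι → V} (he : ∀ i, e i ≠ 0) (s : ℝ) (w w' : V) :
    phiG e s (w + w') ≤ phiG e s w + phiG e s w' := by
  rw [← phiG_eq he s w' w]
  unfold phiG
  rw [← Finset.sum_add_distrib]
  refine Finset.sum_le_sum fun z _ => ?_
  have := abs_sub_le (hkG e s (w + w') z) (hkG e s w z) (hkG e s 0 z)
  linarith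

theorem phiG_neg {e : ι → V} (he : ∀ i, e i ≠ 0) (s : ℝ) (w : V) : phiG e s (-w) = phiG e s w := by
  rw [← phiG_eq he s w (-w), neg_add_cancel]
  unfold phiG
  exact Finset.sum_congr rfl fun z _ => abs_sub_comm _ _

theorem phiG_zero (e : ι → V) (s : ℝ) : phiG e s 0 = 0 := by
  unfold phiG
  simp

theorem phiG_gen {e : ι → V} (he : ∀ i, e i ≠ 0) {s : ℝ} (hs : 0 < s) (i : ι) :
    phiG e s (e i) ≤ 1 / Real.sqrt s := by
  have h := hkG_grad he hs 0 i
  rw [← phiG_neg he]
  refine le_trans (le_of_eq ?_) h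
  unfold phiG
  refine Finset.sum_congr rfl fun z _ => ?_
  have h1 := hkG_translate he s (-e i) z (e i)
  rw [neg_add_cancel] at h1
  rw [h1]

theorem phiG_nsmul {e : ι → V} (he : ∀ i, e i ≠ 0) {s : ℝ} (hs : 0 < s) (i : ι) (n : ℕ) :
    phiG e s (n • e i) ≤ n * (1 / Real.sqrt s) := by
  induction n with
  | zero => rw [zero_smul, phiG_zero]; simp
  | succ n ih =>
    rw [succ_nsmul]
    have h1 := phiG_add he s (n • e i) (e i)
    have h2 := phiG_gen he hs i
    push_cast
    linarith

theorem phiG_zsmul {e : ι → V} (he : ∀ i, e i ≠ 0) {s : ℝ} (hs : 0 < s) (i : ι) (n : ℤ) :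
    phiG e s (n • e i) ≤ n.natAbs * (1 / Real.sqrt s) := by
  rcases Int.natAbs_eq n with h | h
  · have h1 : n • e i = n.natAbs • e i := by
      conv_lhs => rw [h]
      exact natCast_zsmul _ _
    rw [h1]
    exact phiG_nsmul he hs i _
  · have h1 : n • e i = -(n.natAbs • e i) := by
      conv_lhs => rw [h]
      rw [neg_smul]
      congr 1
      exact natCast_zsmul _ _
    rw [h1, phiG_neg he]
    exact phiG_nsmul he hs i _

theorem phiG_sum {e : ι → V} (he : ∀ i, e i ≠ 0) {s : ℝ} (hs : 0 < s) (n : ι → ℤ) (S : Finset ι) :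
    phiG e s (∑ i ∈ S, n i • e i) ≤ (∑ i ∈ S, (n i).natAbs : ℕ) * (1 / Real.sqrt s) := by
  classical
  induction S using Finset.induction_on with
  | empty => simp [phiG_zero]
  | insert i S hi ih =>
    rw [Finset.sum_insert hi, Finset.sum_insert hi]
    have h1 := phiG_add he s (n i • e i) (∑ i ∈ S, n i • e i)
    have h2 := phiG_zsmul he hs i (n i)
    push_cast at ih ⊢
    linarith

end Group

section ZM

variable {L : ℕ} [NeZero L]

/-- The absolute value of a residue. -/
def av (k : ZMod L) : ℕ := k.valMinAbs.natAbs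

theorem av_le (z : ℤ) : av (z : ZMod L) ≤ z.natAbs := by
  unfold av
  refine ZMod.natAbs_min_of_le_div_two L _ _ ?_ (ZMod.natAbs_valMinAbs_le _)
  rw [ZMod.coe_valMinAbs]

theorem av_add_one (k : ZMod L) : |((av (k + 1) : ℕ) : ℝ)| ≤ |(k.valMinAbs : ℝ) + 1| := by
  have h1 : k + 1 = ((k.valMinAbs + 1 : ℤ) : ZMod L) := by
    rw [Int.cast_add, ZMod.coe_valMinAbs, Int.cast_one]
  have h2 := av_le (L := L) (k.valMinAbs + 1)
  rw [← h1] at h2
  have h3 : ((av (k + 1) : ℕ) : ℝ) ≤ ((k.valMinAbs + 1).natAbs : ℝ) := by exact_mod_cast h2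
  rw [abs_of_nonneg (Nat.cast_nonneg _)]
  refine h3.trans (le_of_eq ?_)
  rw [Nat.cast_natAbs]
  push_cast
  rfl

theorem av_sub_one (k : ZMod L) : |((av (k - 1) : ℕ) : ℝ)| ≤ |(k.valMinAbs : ℝ) - 1| := by
  have h1 : k - 1 = ((k.valMinAbs - 1 : ℤ) : ZMod L) := by
    rw [Int.cast_sub, ZMod.coe_valMinAbs, Int.cast_one]
  have h2 := av_le (L := L) (k.valMinAbs - 1)
  rw [← h1] at h2
  have h3 : ((av (k - 1) : ℕ) : ℝ) ≤ ((k.valMinAbs - 1).natAbs : ℝ) := by exact_mod_cast h2
  rw [abs_of_nonneg (Nat.cast_nonneg _)]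
  refine h3.trans (le_of_eq ?_)
  rw [Nat.cast_natAbs]
  push_cast
  rfl

theorem av_abs (k : ZMod L) : ((av k : ℕ) : ℝ) = |(k.valMinAbs : ℝ)| := by
  unfold av
  rw [Nat.cast_natAbs]
  push_cast
  rfl

theorem av_sq (k : ZMod L) : ((av k : ℕ) : ℝ) ^ 2 = (k.valMinAbs : ℝ) ^ 2 := by
  rw [av_abs, sq_abs]

theorem av_sq_diff (k : ZMod L) :
    ((av (k + 1) : ℕ) : ℝ) ^ 2 + ((av (k - 1) : ℕ) : ℝ) ^ 2 - 2 * ((av k : ℕ) : ℝ) ^ 2 ≤ 2 := by
  have h1 := sq_le_sq.2 (av_add_one k)
  have h2 := sq_le_sq.2 (av_sub_one k)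
  rw [av_sq k]
  nlinarith

theorem av_cosh_diff (lam : ℝ) (k : ZMod L) :
    Real.cosh (lam * (av (k + 1) : ℕ)) + Real.cosh (lam * (av (k - 1) : ℕ)) -
      2 * Real.cosh (lam * (av k : ℕ)) ≤
        2 * (Real.cosh lam - 1) * Real.cosh (lam * (av k : ℕ)) := by
  have h1 : Real.cosh (lam * (av (k + 1) : ℕ)) ≤ Real.cosh (lam * ((k.valMinAbs : ℝ) + 1)) := by
    rw [Real.cosh_le_cosh, abs_mul, abs_mul]
    exact mul_le_mul_of_nonneg_left (av_add_one k) (abs_nonneg _)
  have h2 : Real.cosh (lam * (av (k - 1) : ℕ)) ≤ Real.cosh (lam * ((k.valMinAbs : ℝ) - 1)) := by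
    rw [Real.cosh_le_cosh, abs_mul, abs_mul]
    exact mul_le_mul_of_nonneg_left (av_sub_one k) (abs_nonneg _)
  have h3 : Real.cosh (lam * (av k : ℕ)) = Real.cosh (lam * (k.valMinAbs : ℝ)) := by
    rw [← Real.cosh_abs, abs_mul, Nat.abs_cast, av_abs, ← abs_mul, Real.cosh_abs]
  rw [h3]
  have h4 : Real.cosh (lam * ((k.valMinAbs : ℝ) + 1)) + Real.cosh (lam * ((k.valMinAbs : ℝ) - 1)) =
      2 * Real.cosh (lam * (k.valMinAbs : ℝ)) * Real.cosh lam := by
    rw [mul_add, mul_sub, mul_one, Real.cosh_add, Real.cosh_sub]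
    ring
  nlinarith

/-- The number of points in a ball. -/
theorem card_av_le (r : ℕ) : (Finset.univ.filter fun k : ZMod L => av k ≤ r).card ≤ 2 * r + 1 := by
  have h : (Finset.univ.filter fun k : ZMod L => av k ≤ r).card ≤
      (Finset.Icc (-(r : ℤ)) r).card := by
    refine Finset.card_le_card_of_injOn (fun k => k.valMinAbs) (fun k hk => ?_) (fun a _ b _ h => ?_)
    · have h1 := (Finset.mem_filter.1 hk).2
      unfold av at h1
      rw [Finset.coe_Icc, Set.mem_Icc]
      show -(r : ℤ) ≤ k.valMinAbs ∧ k.valMinAbs ≤ (r : ℤ)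
      omega
    · exact ZMod.injective_valMinAbs h
  refine h.trans ?_
  rw [Int.card_Icc]
  omega

/-- The maximum minus the minimum is at most the total variation. -/
theorem sub_le_tv (f : ZMod L → ℝ) (a b : ZMod L) : f b - f a ≤ ∑ z, |f (z + 1) - f z| := by
  set n := (b - a).val with hn
  have hb : b = a + (n : ZMod L) := by
    rw [hn, ZMod.natCast_zmod_val]
    abel
  have h1 : f b - f a = ∑ i ∈ Finset.range n, (f (a + ((i + 1 : ℕ) : ZMod L)) -
      f (a + (i : ZMod L))) := by
    rw [Finset.sum_range_sub (fun i => f (a + (i : ZMod L))), hb]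
    simp
  rw [h1]
  have h2 : ∑ i ∈ Finset.range n, (f (a + ((i + 1 : ℕ) : ZMod L)) - f (a + (i : ZMod L))) ≤
      ∑ i ∈ Finset.range n, |f (a + (i : ZMod L) + 1) - f (a + (i : ZMod L))| := by
    refine Finset.sum_le_sum fun i _ => ?_
    have h3 : a + ((i + 1 : ℕ) : ZMod L) = a + (i : ZMod L) + 1 := by push_cast; ring
    rw [h3]
    exact le_abs_self _
  refine h2.trans ?_
  have hinj : Set.InjOn (fun i : ℕ => a + (i : ZMod L)) (Finset.range n : Set ℕ) := by
    intro i hi j hj hij
    have hnL : n < L := ZMod.val_lt _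
    have hi' : i < L := (Finset.mem_range.1 hi).trans hnL
    have hj' : j < L := (Finset.mem_range.1 hj).trans hnL
    have h4 : (i : ZMod L) = (j : ZMod L) := add_left_cancel hij
    have h5 := congrArg ZMod.val h4
    rwa [ZMod.val_cast_of_lt hi', ZMod.val_cast_of_lt hj'] at h5
  have h6 : ∑ i ∈ Finset.range n, |f (a + (i : ZMod L) + 1) - f (a + (i : ZMod L))| =
      ∑ z ∈ (Finset.range n).image (fun i : ℕ => a + (i : ZMod L)), |f (z + 1) - f z| := by
    rw [Finset.sum_image hinj]
  rw [h6]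
  exact Finset.sum_le_univ_sum_of_nonneg fun _ => abs_nonneg _

/-- The heat kernel on the cycle. -/
noncomputable def h1 (L : ℕ) [NeZero L] (s : ℝ) (a b : ZMod L) : ℝ :=
  hkG (fun _ : Unit => (1 : ZMod L)) s a b

theorem one_ne {L : ℕ} (hL : 2 ≤ L) : (1 : ZMod L) ≠ 0 := by
  have : Fact (1 < L) := ⟨hL⟩
  exact one_ne_zero

theorem h1_le (hL : 2 ≤ L) {s : ℝ} (hs : 0 < s) (a b : ZMod L) :
    h1 L s a b ≤ 1 / Real.sqrt s + 1 / L := by
  have he : ∀ i : Unit, (fun _ : Unit => (1 : ZMod L)) i ≠ 0 := fun _ => one_ne hL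
  have hex : ∃ y0, h1 L s a y0 ≤ 1 / L := by
    by_contra hcon
    push Not at hcon
    have h2 : ∑ y : ZMod L, (1 / (L : ℝ)) < ∑ y, h1 L s a y :=
      Finset.sum_lt_sum_of_nonempty Finset.univ_nonempty fun y _ => hcon y
    have h3 : ∑ y, h1 L s a y = 1 := hkG_sum _ s a
    rw [h3, Finset.sum_const, Finset.card_univ, ZMod.card, nsmul_eq_mul] at h2
    have h4 : (L : ℝ) ≠ 0 := Nat.cast_ne_zero.2 (NeZero.ne L)
    rw [mul_one_div_cancel h4] at h2
    exact lt_irrefl _ h2
  obtain ⟨y0, hy0⟩ := hex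
  have h2 := sub_le_tv (h1 L s a) y0 b
  have h3 : ∑ z, |h1 L s a (z + 1) - h1 L s a z| ≤ 1 / Real.sqrt s := hkG_grad he hs a ()
  linarith

end ZM

end Pool.Agent.Stirring.QK
end
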