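import Pool.Agent.Lib.MP_6c3d62_pr.Mg.G074
import Pool.Agent.Lib.MP_6c3d62_pr.MU.End
import Pool.Agent.Lib.MP_6c3d62_pr.MU.Repr
import Pool.Agent.Lib.MP_6c3d62_pr.LC.Far

section

/-! MU, row C: one good environment, windows in a box, for functions of the induced permutation. -/

set_option autoImplicit false
set_option linter.unusedSectionVars false

open Finset Equiv Pool.Agent.Stirring Pool.Agent.Stirring.MU

namespace Pool.Agent.PL

/-- As `inner_bound_local`. -/
theorem inner_bound_local_ind (d : ℕ) (hd : 2 ≤ d) (c1 : ℝ) (hc1 : 0 < c1) : ∃ C : ℝ, 1 ≤ C ∧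
    ∀ (L : ℕ) [NeZero L] (Ω : Type) [Fintype Ω] (S : QK.Slab (Fin d → ZMod L) Ω)
      (Q : Finset (Fin d → ZMod L)) (D0 : Finset (Fin d → ZMod L)) (K : ℝ)
      (l : List (Ω × ((Fin d → ZMod L) → Perm (Fin d → ZMod L) → ℝ)))
      (M0 : Finset (Fin d → ZMod L)) (Φ : Perm (Fin d → ZMod L)) (k : ℕ)
      (z : Fin k → (Fin d → ZMod L)) (F : Perm (Fin k) → ℝ) (r : ℕ) (M Kw κ : ℝ)
      (o : Fin d → ZMod L) (s : ℕ),
    (∀ a, S.good a ⊆ D0) → M0 ⊆ D0 → (D0.card : ℝ) ≤ K →
    (0 : Fin d → ZMod L) ∈ Q → 1 ≤ l.length → 8 ≤ r → 2 * r ≤ L → r ≤ s → s ≤ L →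
    0 ≤ M →
    GoodEnvL (envS S (l.map Prod.fst)) (envW S Q M0 (l.map Prod.fst)) l.length Q.card r c1 M Kw o s →
    M * Kw ≤ Q.card → (Q.card : ℝ) * l.length * (1 + Real.log s) ^ 2 ≤ (r : ℝ) ^ d →
    Adm S Q l → (∀ a, QK.Dis Q (S.good a)) → QK.Dis Q M0 →
    Function.Injective z → (∀ i, z i ∈ M0) →
    1 ≤ κ → C * κ ^ 2 ≤ Q.card →
    C * κ * Real.log (((l.length : ℝ) + 1) * K) ≤ Real.sqrt (Real.sqrt Q.card) →
    (((l.length : ℝ) + 1) * K) ^ 6 * Q.card ≤ Real.exp κ →
    (∀ τ, 0 ≤ F τ) → (∀ τ, F τ ≤ 1) →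
    |JS S (fun g => JL (wUnif Q) (indF F z) M0.toList (g * Φ)) l 1
        - (∑ τ, F τ) / (k.factorial : ℝ)| ≤
      (k : ℝ) * (4 * k * (C / Q.card)
        + C * (((l.length : ℝ) + 1) * K) ^ 2 * Real.exp (-(κ / 2))) := by
  classical
  obtain ⟨C3, hC3, hres⟩ := res_bound_local d hd c1 hc1
  obtain ⟨C2, hC2, hend⟩ := endgame_freeze_ind (2 * C3) (by linarith)
  refine ⟨max C2 (2 * C3), le_max_of_le_left hC2, ?_⟩
  intro L _ Ω _ S Q D0 K l M0 Φ k z F r M Kw κ o s hgD hMD hDK h0Q hl1 hr8 hrL hrs hsL hM hG hMK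
    hNJ hadm hdis hdM0 hz hzM hκ hκN hκlog hκexp hF0 hF1
  have hK0 : 0 ≤ K := (Nat.cast_nonneg _).trans hDK
  set C := max C2 (2 * C3) with hC
  have hQne : Q.Nonempty := ⟨0, h0Q⟩
  have hN1 : 1 ≤ Q.card := Finset.card_pos.mpr hQne
  have hN0 : (0 : ℝ) < Q.card := by exact_mod_cast hN1
  obtain ⟨π, nodes, hnd, hmem, hcard, hdens, hunif, hrepr⟩ :=
    inner_repr_ind (S := S) hQne l hadm hdis hdM0 Φ z F
  have hRB : RB (stP l.length (envS S (l.map Prod.fst)) Φ⁻¹)
      (stc l.length (envW S Q M0 (l.map Prod.fst))) (C3 / Q.card) :=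
    hres L (envS S (l.map Prod.fst)) Φ⁻¹ (envW S Q M0 (l.map Prod.fst)) l.length Q.card r M Kw
      o s hN1 hl1 hr8 hrL hrs hsL hM hG hMK hNJ
  -- parameters
  obtain ⟨ρ, hρ⟩ : ∃ ρ : ℝ, ρ = 2 * C3 / Q.card := ⟨_, rfl⟩
  have hρ0 : 0 < ρ := by rw [hρ]; positivity
  have hρ2 : ρ / 2 = C3 / Q.card := by rw [hρ]; ring
  obtain ⟨A0, hA0⟩ : ∃ A0 : Finset (Fin (l.length + 1) × (Fin d → ZMod L)),
    A0 = nodes.toFinset := ⟨_, rfl⟩
  have hA0mem : ∀ y, y ∈ A0 ↔ y ∈ nodes := fun y => by rw [hA0]; exact List.mem_toFinset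
  have hcA : ∀ q y, stc l.length (envW S Q M0 (l.map Prod.fst)) q = some y → y ∈ A0 :=
    fun q y h => (hA0mem y).mpr ((hmem y).mpr ⟨q, h⟩)
  have hcard0 : (A0.card : ℝ) ≤ ((l.length : ℝ) + 1) * K := by
    have h1 : A0 ⊆ (univ : Finset (Fin (l.length + 1))) ×ˢ D0 := by
      rintro ⟨i, y⟩ hy
      obtain ⟨⟨j, v⟩, hq⟩ := (hmem (i, y)).mp ((hA0mem (i, y)).mp hy)
      rw [Finset.mem_product]
      refine ⟨Finset.mem_univ _, ?_⟩
      change (envW S Q M0 (l.map Prod.fst) j v).map (fun x => (j, x)) = some (i, y) at hq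
      rw [Option.map_eq_some_iff] at hq
      obtain ⟨x, hx, hxy⟩ := hq
      have h2 : x = y := congrArg Prod.snd hxy
      subst h2
      have h3 := (gr_colW_mem (show colW Q ((M0 :: (l.map Prod.fst).map S.good).getD j ∅) v =
        some x from hx)).1
      have h4 : ∀ G ∈ (M0 :: (l.map Prod.fst).map S.good), G ⊆ D0 := by
        intro G hG
        rcases List.mem_cons.mp hG with h | h
        · rw [h]; exact hMD
        · obtain ⟨a, -, rfl⟩ := List.mem_map.mp h
          exact hgD a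
      rcases Nat.lt_or_ge j (M0 :: (l.map Prod.fst).map S.good).length with h5 | h5
      · rw [List.getD_eq_getElem _ _ h5] at h3
        exact h4 _ (List.getElem_mem h5) h3
      · rw [List.getD_eq_default _ _ h5] at h3
        exact absurd h3 (Finset.notMem_empty _)
    have h2 := Finset.card_le_card h1
    rw [Finset.card_product, Finset.card_univ, Fintype.card_fin] at h2
    have h3 : (A0.card : ℝ) ≤ ((l.length : ℝ) + 1) * D0.card := by exact_mod_cast h2
    exact h3.trans (mul_le_mul_of_nonneg_left hDK (by positivity))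
  have hinv : ∀ y ∈ A0, ∀ z ∈ A0, ResLe (netA (stP l.length (envS S (l.map Prod.fst)) Φ⁻¹)⁻¹
      (stc l.length (envW S Q M0 (l.map Prod.fst))) A0) (ρ / 2) y z := by
    intro y hy z hz
    have h1 : netA (stP l.length (envS S (l.map Prod.fst)) Φ⁻¹)⁻¹
        (stc l.length (envW S Q M0 (l.map Prod.fst))) A0
        = mat (remS (stP l.length (envS S (l.map Prod.fst)) Φ⁻¹)⁻¹
          (univ.filter fun w => stc l.length (envW S Q M0 (l.map Prod.fst)) w = none))
          (stc l.length (envW S Q M0 (l.map Prod.fst))) := by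
      unfold netA
      rw [cOn_eq hcA]
    rw [h1]
    refine ResLe_mat_inv ?_
    rw [hρ2]
    refine netA_of_RB (by positivity) hRB ?_ ?_
    · exact (hmem y).mp ((hA0mem y).mp hy)
    · exact (hmem z).mp ((hA0mem z).mp hz)
  rw [hrepr]
  have hmark : ∀ i, stc l.length (envW S Q M0 (l.map Prod.fst))
      ((0 : Fin (l.length + 1)), z i) = some ((0 : Fin (l.length + 1)), z i) := by
    intro i
    unfold stc envW
    simp only [Fin.val_zero, List.getD_cons_zero]
    have h1 : ∃ q ∈ M0, z i - q ∈ Q := ⟨z i, hzM i, by simpa using h0Q⟩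
    unfold colW
    rw [dif_pos h1]
    have h2 := Classical.choose_spec h1
    have h3 : Classical.choose h1 = z i :=
      hdM0 _ h2.1 _ (hzM i) (z i) h2.2 (by simpa using h0Q)
    rw [h3]
    rfl
  -- the case of no marks
  rcases Nat.eq_zero_or_pos k with hk0 | hk0
  · subst hk0
    have h1 : (indF F (fun i => ((0 : Fin (l.length + 1)), z i)) :
        Perm (Fin (l.length + 1) × (Fin d → ZMod L)) → ℝ) = fun _ => F 1 := by
      funext P
      exact indF_eq (fun i => i.elim0) (fun i => i.elim0)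
    have h2 : ∑ τ, F τ = F 1 := by
      rw [Fintype.sum_eq_single (1 : Perm (Fin 0))]
      intro τ hτ
      exact absurd (Subsingleton.elim _ _) hτ
    rw [h1, TN.JL_const (F 1) hdens, h2]
    simp
  have hk1 : Nonempty (Fin k) := ⟨⟨0, hk0⟩⟩
  have hA1 : (1 : ℝ) ≤ A0.card := by
    have : 0 < A0.card := Finset.card_pos.mpr ⟨_, hcA _ _ (hmark ⟨0, hk0⟩)⟩
    exact_mod_cast this
  have key := hend (Fin (l.length + 1) × (Fin d → ZMod L)) (Fin (l.length + 1) × (Fin d → ZMod L))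
    (Fin k) (stc l.length (envW S Q M0 (l.map Prod.fst))) Q.card ρ κ A0 π nodes
    (stP l.length (envS S (l.map Prod.fst)) Φ⁻¹)⁻¹
    (fun i => ((0 : Fin (l.length + 1)), z i)) (fun i => ((0 : Fin (l.length + 1)), z i))
    hρ0 ?_ hκ ?_ ?_ ?_ (fun y hy => hcard y ((hA0mem y).mp hy)) hcA hnd
    (fun y => (hA0mem y).symm) hdens hinv ?_ ?_ hmark F hF0 hF1
  · rw [Fintype.card_fin] at key
    refine le_trans (le_of_eq ?_) (key.trans ?_)
    · rfl
    · have hC2' : C2 ≤ max C2 (2 * C3) := le_max_left _ _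
      have hC3' : ρ ≤ max C2 (2 * C3) / Q.card := by
        rw [hρ]
        exact div_le_div_of_nonneg_right (le_max_right _ _) hN0.le
      refine mul_le_mul_of_nonneg_left ?_ (by positivity)
      refine add_le_add ?_ ?_
      · exact mul_le_mul_of_nonneg_left hC3' (by positivity)
      · refine mul_le_mul_of_nonneg_right ?_ (Real.exp_pos _).le
        refine mul_le_mul hC2' ?_ (by positivity) (by positivity)
        exact pow_le_pow_left₀ (by positivity) hcard0 2
  · rw [hρ]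
    field_simp
    exact le_rfl
  · refine le_trans ?_ hκN
    exact mul_le_mul_of_nonneg_right (le_max_left _ _) (by positivity)
  · refine le_trans ?_ hκlog
    have h1 : Real.log A0.card ≤ Real.log (((l.length : ℝ) + 1) * K) :=
      Real.log_le_log (by linarith) hcard0
    have h2 : 0 ≤ Real.log (A0.card : ℝ) := Real.log_nonneg hA1
    refine mul_le_mul ?_ h1 h2 (by positivity)
    exact mul_le_mul_of_nonneg_right (le_max_left _ _) (by linarith)
  · refine le_trans ?_ hκexp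
    refine mul_le_mul_of_nonneg_right ?_ (Nat.cast_nonneg _)
    exact pow_le_pow_left₀ (by positivity) hcard0 6
  · intro i j hij
    exact hz (Prod.ext_iff.mp hij).2
  · intro i σ
    have h1 := hunif (z i) (hzM i) σ
    rw [h1]
    have h2 := hcard _ ((hmem _).mpr ⟨_, hmark i⟩)
    have h3 : TN.fib (stc l.length (envW S Q M0 (l.map Prod.fst)))
        ((0 : Fin (l.length + 1)), z i) = univ.filter fun q =>
        stc l.length (envW S Q M0 (l.map Prod.fst)) q = some ((0 : Fin (l.length + 1)), z i) := rfl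
    rw [h3, h2]
    by_cases h4 : ∀ q, stc l.length (envW S Q M0 (l.map Prod.fst)) q
        ≠ some ((0 : Fin (l.length + 1)), z i) → σ q = q
    · rw [if_pos h4, if_pos]
      rw [TN.mem_permsOn]
      intro q hq
      exact h4 q fun h => hq (by simp [h])
    · rw [if_neg h4, if_neg]
      rw [TN.mem_permsOn]
      intro h5
      exact h4 fun q hq => h5 q (by simpa using hq)

end Pool.Agent.PL
end

section

/-!
# MU, row D: the induced permutation of far apart points of a box, uniformly in the size of the torus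
-/

open Finset Filter Topology

set_option autoImplicit false
set_option linter.unusedSectionVars false

namespace Pool.Agent.Stirring.MU

open Pool.Agent.Stirring Pool.Agent.PL Pool.Agent.Stirring.TN Pool.Agent.Stirring.LC

/-- As `LC.klaw_far_of_env`, for all `k` at once, with the error. -/
theorem far_ind (d : ℕ) (hd : 2 ≤ d) {A B : ℕ} {c1 : ℝ} (hc1 : 0 < c1)
    (hev : ∀ᶠ s : ℕ in atTop, ∀ (L : ℕ) [NeZero L], 4 * s ≤ L → EnvGoodL d A B c1 s L) :
    ∃ K : ℝ, 1 ≤ K ∧ ∃ s₀ : ℕ, ∀ s : ℕ, s₀ ≤ s → ∀ (L : ℕ) [NeZero L], 4 * s ≤ L → ∀ t : ℝ,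
      Real.log s ^ (B + 4 * (A * (d + 1) + 1)) ≤ t →
      ∀ (k : ℕ) (z : Fin k → (Fin d → ZMod L)), (∀ i, dp 0 s (z i)) →
        (∀ a b, a ≠ b → Real.log s ^ (A + 1) ≤ (QK.nrm (z a - z b) : ℝ)) →
        ∀ F : Equiv.Perm (Fin k) → ℝ, (∀ τ, 0 ≤ F τ) → (∀ τ, F τ ≤ 1) →
          |expect d L t (indF F z) - (∑ τ, F τ) / (k.factorial : ℝ)| ≤
            K * ((k : ℝ) + 1) ^ 2 / Real.log s := by
  classical
  obtain ⟨C, hC, hin⟩ := inner_bound_local_ind d hd c1 hc1
  have hpar := far_par (C * (7 * d + 7) ^ 2) 0 0 ((2 : ℝ) ^ (6 * d + 6)) 1 one_pos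
  obtain ⟨s₀, hs₀⟩ := eventually_atTop.mp (hev.and hpar)
  refine ⟨4 * d * (3 * Real.sqrt (7 * d)) + 5 * C + 1, ?_, s₀, ?_⟩
  · have : 0 ≤ 4 * (d : ℝ) * (3 * Real.sqrt (7 * d)) := by positivity
    linarith
  intro s hs L _ hsL t ht k z hdp hzfar F hF0 hF1
  obtain ⟨hE, hs64, hK0, -, -, hK4⟩ := hs₀ s hs
  obtain ⟨b, J, r, h, M, Kw, Ω, _, S, D0, hb1, hbs, hlogb, hbA, hJ1, hJs, hh, hJh, hr8, hrs, hM,
    hMK, hbJ, hw0, hw1, hmix, hdis, hgD, hDc, hdpD, hbad⟩ := hE L hsL
  have hs64' : (64 : ℝ) ≤ s := by exact_mod_cast hs64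
  have hs0 : (0 : ℝ) < s := by linarith
  have hd0 : (2 : ℝ) ≤ d := by exact_mod_cast hd
  have hb1' : (1 : ℝ) ≤ b := by exact_mod_cast hb1
  have hbs' : (b : ℝ) ≤ s := by exact_mod_cast hbs
  have hbL : b ≤ L := by omega
  obtain ⟨n1, n2, n3, n4, n5, n6⟩ := kappa_num' hd hs64' hC hJs hb1' hbs' hlogb hK0 hK4
  have hx1 : 441 ≤ Real.log s := by
    refine le_trans ?_ hK0
    have h7 : (21 : ℝ) ≤ 7 * d + 7 := by linarith
    nlinarith
  have hx0 : 0 < Real.log s := by linarith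
  have htB : Real.log s ^ B ≤ t :=
    (pow_le_pow_right₀ (by linarith) (by omega)).trans ht
  have ht1 : 1 ≤ t := (one_le_pow₀ (by linarith)).trans htB
  have hcard : (QK.box d L b).card = b ^ d := QK.card_box hbL
  have hcardR : ((QK.box d L b).card : ℝ) = (b : ℝ) ^ d := by rw [hcard]; push_cast; rfl
  have hz : ∀ a c, a ≠ c → ¬ NearW (QK.box d L b) (z a) (z c) := by
    intro a c hac
    refine not_nearW ?_
    have h1 := hzfar a c hac
    have h2 : (b : ℝ) < Real.log s ^ (A + 1) := by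
      rw [pow_succ]
      have h3 : (0 : ℝ) < Real.log s ^ A := by positivity
      nlinarith
    exact_mod_cast lt_of_lt_of_le h2 h1
  have hzinj : Function.Injective z := by
    intro i j hij
    by_contra hne
    exact hz i j hne ⟨0, zero_mem_box hb1, 0, zero_mem_box hb1, by rw [hij]⟩
  have hdM0 := dis_of_far hz
  set M0 : Finset (Fin d → ZMod L) := univ.image z with hM0
  have hM0card : M0.card ≤ k := by
    refine Finset.card_image_le.trans (le_of_eq ?_)
    rw [Finset.card_univ, Fintype.card_fin]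
  have hzM : ∀ i, z i ∈ M0 := fun i => Finset.mem_image_of_mem z (Finset.mem_univ i)
  have hM0dp : ∀ v ∈ M0, dp 0 s v := by
    intro v hv
    obtain ⟨i, _, rfl⟩ := Finset.mem_image.mp hv
    exact hdp i
  have hM0D : M0 ⊆ D0 := fun v hv => hdpD v (hM0dp v hv)
  have hk0 : (0 : ℝ) ≤ k := Nat.cast_nonneg k
  set c0 : ℝ := (∑ τ, F τ) / (k.factorial : ℝ) with hc0
  have hG0 : ∀ x : Equiv.Perm (Fin d → ZMod L), 0 ≤ indF F z x := indF_nonneg hF0 z
  have hG1 : ∀ x : Equiv.Perm (Fin d → ZMod L), indF F z x ≤ 1 := indF_le_one hF1 hzinj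
  -- the insertion
  set e : ℝ := 2 * (2 * (d * b * (b : ℝ) ^ d) * eta d t) with he
  have hone : ∀ y (g : Equiv.Perm (Fin d → ZMod L)), (∀ v, v - y ∉ QK.box d L b → g v = v) →
      ∀ H : Equiv.Perm (Fin d → ZMod L) → ℝ, (∀ x, 0 ≤ H x) → (∀ x, H x ≤ 1) →
        |expect d L t (fun x => H (x * g)) - expect d L t H| ≤ e := by
    intro y g hg H hH0 hH1
    have h1 := expect_box (d := d) (L := L) (by omega) (by omega) ht1 hbL g⁻¹
      (fun w hw => by
        rw [Equiv.Perm.inv_eq_iff_eq]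
        exact (hg w (box_box hw)).symm) (F := H)
      (fun σ => abs_le.mpr ⟨by linarith [hH0 σ], hH1 σ⟩)
    rw [inv_inv] at h1
    exact h1
  have hins := insert_marked (by linarith : (0 : ℝ) ≤ t) hone M0 (indF F z) hG0 hG1
  have he0 : 0 ≤ e := by
    have := eta_nonneg d t
    positivity
  have heb : (M0.card : ℝ) * e ≤ k * (4 * d * (3 * Real.sqrt (7 * d))) / Real.log s := by
    have h1 : (M0.card : ℝ) * e ≤ k * e :=
      mul_le_mul_of_nonneg_right (by exact_mod_cast hM0card) he0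
    refine h1.trans ?_
    have h2 : (b : ℝ) * (b : ℝ) ^ d ≤ Real.log s ^ (A * (d + 1)) := by
      have h3 : (b : ℝ) * (b : ℝ) ^ d = (b : ℝ) ^ (d + 1) := by ring
      rw [h3, pow_mul]
      exact pow_le_pow_left₀ (by linarith) hbA _
    have h3 := eta_num (d := d) (N := A * (d + 1)) (x := Real.log s) (t := t)
      (b := (b : ℝ) * (b : ℝ) ^ d) (by linarith) (by positivity) h2
      ((pow_le_pow_right₀ (by linarith) (by omega)).trans ht)
    have h4 : (k : ℝ) * e = 4 * k * d * ((b : ℝ) * (b : ℝ) ^ d * eta d t) := by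
      rw [he]
      ring
    rw [h4]
    calc 4 * (k : ℝ) * d * ((b : ℝ) * (b : ℝ) ^ d * eta d t) ≤
        4 * k * d * (3 * Real.sqrt (7 * d) / Real.log s) :=
          mul_le_mul_of_nonneg_left h3 (by positivity)
      _ = _ := by ring
  -- the main part
  have hwn : ∀ y ∈ M0.toList, ∀ σ, 0 ≤ wUnif (QK.box d L b) y σ := by
    intro y _ σ
    unfold wUnif
    split_ifs
    · positivity
    · exact le_rfl
  have hws : ∀ y ∈ M0.toList, ∑ σ, wUnif (QK.box d L b) y σ = 1 := fun y _ => wUnif_sum9 _ y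
  set H : Equiv.Perm (Fin d → ZMod L) → ℝ :=
    fun g => JL (wUnif (QK.box d L b)) (indF F z) M0.toList g with hH
  have hH0 : ∀ g, 0 ≤ H g := by
    intro g
    have h1 := JL_mono' (π := wUnif (QK.box d L b)) (G := fun _ => (0 : ℝ))
      (H := indF F z) hG0 hwn g
    rwa [JL_const' 0 hws g] at h1
  have hH1 : ∀ g, H g ≤ 1 := by
    intro g
    have h1 := JL_mono' (π := wUnif (QK.box d L b)) (G := indF F z)
      (H := fun _ => (1 : ℝ)) hG1 hwn g
    rwa [JL_const' 1 hws g] at h1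
  have hkf : (0 : ℝ) < (k.factorial : ℝ) := by exact_mod_cast Nat.factorial_pos k
  have hc00 : 0 ≤ c0 := div_nonneg (Finset.sum_nonneg fun τ _ => hF0 τ) hkf.le
  have hc01 : c0 ≤ 1 := by
    rw [hc0, div_le_one hkf]
    refine (Finset.sum_le_sum fun τ _ => hF1 τ).trans (le_of_eq ?_)
    rw [Finset.sum_const, Finset.card_univ, Fintype.card_perm, Fintype.card_fin, nsmul_eq_mul,
      mul_one]
  set κ : ℝ := (7 * d + 7) * Real.log s with hκ
  set err : ℝ := (k : ℝ) * (4 * k * (C / (b : ℝ) ^ d)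
    + C * (((J : ℝ) + 1) * (2 * (s : ℝ)) ^ d) ^ 2 * Real.exp (-(κ / 2))) with herr
  have herr0 : 0 ≤ err := by positivity
  have hmain := assemble (c := QK.tr d L) QK.tr_nonneg hh (t' := t - J * h) (by linarith) hmix hw0
    hw1 J hH0 hH1 hc00 hc01
    (fun l => GoodEnvL (envS S l) (envW S (QK.box d L b) M0 l) J (b ^ d) r c1 M Kw 0 s)
    (err := err) (δ := 1 / s) herr0 ?_ (hbad M0 hdM0 hM0dp)
  · have h2 : (J : ℝ) * h + (t - J * h) = t := by ring
    rw [h2, ← QK.expect_eq] at hmain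
    have h3 : err + 1 / s ≤ (5 * C + 1) * ((k : ℝ) + 1) ^ 2 / Real.log s := by
      have h4 : 1 / (s : ℝ) ≤ 1 / Real.log s :=
        one_div_le_one_div_of_le hx0 (Real.log_le_self hs0.le)
      have h5 : C / (s : ℝ) ≤ C / Real.log s :=
        div_le_div_of_nonneg_left (by linarith) hx0 (Real.log_le_self hs0.le)
      have h6 : err ≤ (k : ℝ) * (4 * k * (C / Real.log s) + C / Real.log s) := by
        rw [herr]
        refine mul_le_mul_of_nonneg_left ?_ (by positivity)
        exact add_le_add (mul_le_mul_of_nonneg_left n5 (by positivity)) (n6.trans h5)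
      refine (add_le_add h6 h4).trans ?_
      have h7 : (k : ℝ) * (4 * k * (C / Real.log s) + C / Real.log s) + 1 / Real.log s =
          (4 * C * k ^ 2 + C * k + 1) / Real.log s := by ring
      rw [h7]
      refine div_le_div_of_nonneg_right ?_ hx0.le
      nlinarith [mul_nonneg hk0 hk0, mul_nonneg (by linarith : (0 : ℝ) ≤ C) hk0,
        mul_nonneg (by linarith : (0 : ℝ) ≤ C) (mul_nonneg hk0 hk0)]
    have h7 : |expect d L t (indF F z) - c0| ≤
        |expect d L t H - expect d L t (indF F z)| + |expect d L t H - c0| := by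
      rw [abs_sub_comm (expect d L t H) (expect d L t (indF F z))]
      have h8 := abs_add_le (expect d L t (indF F z) - expect d L t H)
        (expect d L t H - c0)
      rwa [sub_add_sub_cancel] at h8
    refine h7.trans ?_
    have h8 : |expect d L t H - expect d L t (indF F z)| ≤ M0.card * e := hins
    have h9 : (k : ℝ) * (4 * d * (3 * Real.sqrt (7 * d))) / Real.log s ≤
        (4 * d * (3 * Real.sqrt (7 * d))) * ((k : ℝ) + 1) ^ 2 / Real.log s := by
      refine div_le_div_of_nonneg_right ?_ hx0.le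
      rw [mul_comm]
      refine mul_le_mul_of_nonneg_left ?_ (by positivity)
      nlinarith
    have h10 : (4 * d * (3 * Real.sqrt (7 * d)) + 5 * C + 1) * ((k : ℝ) + 1) ^ 2 / Real.log s =
        (4 * d * (3 * Real.sqrt (7 * d))) * ((k : ℝ) + 1) ^ 2 / Real.log s +
          (5 * C + 1) * ((k : ℝ) + 1) ^ 2 / Real.log s := by ring
    rw [h10]
    linarith
  · intro Φ l hlJ hl hg
    have h1 := hin L Ω S (QK.box d L b) D0 ((2 * (s : ℝ)) ^ d) l M0 Φ k z F r M Kw κ 0 s hgD hM0D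
      hDc (zero_mem_box hb1) (by omega) hr8 (by omega) hrs (by omega) hM
      (by rw [hlJ, hcard]; exact hg) (by rw [hcardR]; exact hMK)
      (by rw [hcardR, hlJ]; exact hbJ) hl hdis hdM0 hzinj hzM n1 (by rw [hcardR]; exact n2)
      (by rw [hcardR, hlJ]; exact n3) (by rw [hcardR, hlJ]; exact n4) hF0 hF1
    rw [hcardR, hlJ] at h1
    exact h1

end Pool.Agent.Stirring.MU
end
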