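import Mathlib
import Pool.Agent.Lib.MP_6c3d62_pr.HierDefs3

section

/-! Expectations over random subsets of a finite set, the elements of which are chosen
independently. -/

set_option autoImplicit false

namespace Pool.Agent.Stirring.Hier.Perc

open Finset

section ExS

variable {I J : Type*} [DecidableEq I] [DecidableEq J]

/-- The expectation of `F` over the random subset of `S` which contains each `e` independently with
probability `p e`. -/
noncomputable def ExS (p : I → ℝ) (S : Finset I) (F : Finset I → ℝ) : ℝ :=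
  ∑ E ∈ S.powerset, ((∏ e ∈ E, p e) * ∏ e ∈ S \ E, (1 - p e)) * F E

theorem ExS_congr {p : I → ℝ} {S : Finset I} {F G : Finset I → ℝ} (h : ∀ E ⊆ S, F E = G E) :
    ExS p S F = ExS p S G := by
  unfold ExS
  refine sum_congr rfl fun E hE => ?_
  rw [h E (mem_powerset.1 hE)]

theorem ExS_add (p : I → ℝ) (S : Finset I) (F G : Finset I → ℝ) :
    ExS p S (fun E => F E + G E) = ExS p S F + ExS p S G := by
  unfold ExS
  rw [← sum_add_distrib]
  refine sum_congr rfl fun E _ => ?_
  ring

theorem ExS_sub (p : I → ℝ) (S : Finset I) (F G : Finset I → ℝ) :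
    ExS p S (fun E => F E - G E) = ExS p S F - ExS p S G := by
  unfold ExS
  rw [← sum_sub_distrib]
  refine sum_congr rfl fun E _ => ?_
  ring

theorem ExS_mul_left (p : I → ℝ) (S : Finset I) (c : ℝ) (F : Finset I → ℝ) :
    ExS p S (fun E => c * F E) = c * ExS p S F := by
  unfold ExS
  rw [mul_sum]
  refine sum_congr rfl fun E _ => ?_
  ring

theorem ExS_sum {ι : Type*} (p : I → ℝ) (S : Finset I) (s : Finset ι) (F : ι → Finset I → ℝ) :
    ExS p S (fun E => ∑ i ∈ s, F i E) = ∑ i ∈ s, ExS p S (F i) := by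
  unfold ExS
  rw [sum_comm]
  refine sum_congr rfl fun E _ => ?_
  rw [mul_sum]

theorem ExS_mono {p : I → ℝ} (h0 : ∀ e, 0 ≤ p e) (h1 : ∀ e, p e ≤ 1) (S : Finset I)
    {F G : Finset I → ℝ} (h : ∀ E ⊆ S, F E ≤ G E) : ExS p S F ≤ ExS p S G := by
  unfold ExS
  refine sum_le_sum fun E hE => mul_le_mul_of_nonneg_left (h E (mem_powerset.1 hE)) ?_
  exact mul_nonneg (prod_nonneg fun e _ => h0 e) (prod_nonneg fun e _ => sub_nonneg.2 (h1 e))

theorem ExS_empty (p : I → ℝ) (F : Finset I → ℝ) : ExS p ∅ F = F ∅ := by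
  simp [ExS]

theorem ExS_insert (p : I → ℝ) {a : I} {S : Finset I} (ha : a ∉ S) (F : Finset I → ℝ) :
    ExS p (insert a S) F =
      (1 - p a) * ExS p S F + p a * ExS p S (fun E => F (insert a E)) := by
  unfold ExS
  rw [sum_powerset_insert ha, mul_sum, mul_sum]
  congr 1
  · refine sum_congr rfl fun E hE => ?_
    have hE' := mem_powerset.1 hE
    have h1 : insert a S \ E = insert a (S \ E) := by
      rw [insert_sdiff_of_notMem]
      exact fun h => ha (hE' h)
    rw [h1, prod_insert (fun h => ha (mem_sdiff.1 h).1)]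
    ring
  · refine sum_congr rfl fun E hE => ?_
    have hE' := mem_powerset.1 hE
    have haE : a ∉ E := fun h => ha (hE' h)
    have h1 : insert a S \ insert a E = S \ E := by
      ext x
      simp only [mem_sdiff, mem_insert, not_or]
      constructor
      · rintro ⟨h2 | h2, h3, h4⟩
        · exact absurd h2 h3
        · exact ⟨h2, h4⟩
      · rintro ⟨h2, h3⟩
        exact ⟨Or.inr h2, fun h4 => ha (h4 ▸ h2), h3⟩
    rw [h1, prod_insert haE]
    ring

theorem ExS_one (p : I → ℝ) (S : Finset I) : ExS p S (fun _ => 1) = 1 := by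
  induction S using Finset.induction_on with
  | empty => rw [ExS_empty]
  | insert a S ha ih =>
    rw [ExS_insert p ha, ih]
    ring

theorem ExS_const (p : I → ℝ) (S : Finset I) (c : ℝ) : ExS p S (fun _ => c) = c := by
  have h := ExS_mul_left p S c (fun _ => 1)
  rw [ExS_one, mul_one] at h
  simpa using h

theorem ExS_union (p : I → ℝ) {S T : Finset I} (h : Disjoint S T) (F : Finset I → ℝ) :
    ExS p (S ∪ T) F = ExS p S (fun E => ExS p T (fun E' => F (E ∪ E'))) := by
  induction T using Finset.induction_on generalizing F with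
  | empty =>
    rw [union_empty]
    refine ExS_congr fun E _ => ?_
    rw [ExS_empty, union_empty]
  | insert a T ha ih =>
    have h1 : Disjoint S T := h.mono_right (subset_insert a T)
    have haS : a ∉ S := fun h2 => disjoint_left.1 h h2 (mem_insert_self a T)
    have h2 : a ∉ S ∪ T := by
      rw [mem_union, not_or]
      exact ⟨haS, ha⟩
    rw [union_insert, ExS_insert p h2, ih h1, ih h1]
    rw [← ExS_mul_left, ← ExS_mul_left, ← ExS_add]
    refine ExS_congr fun E _ => ?_
    rw [ExS_insert p ha]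
    simp only [union_insert]

/-- The random subset of the whole type. -/
noncomputable def Ex [Fintype I] (p : I → ℝ) (F : Finset I → ℝ) : ℝ := ExS p univ F

variable [Fintype I] [Fintype J]

theorem Ex_eq_left (p : I → ℝ) (S : Finset I) {F : Finset I → ℝ} (hF : ∀ E, F E = F (E ∩ S)) :
    Ex p F = ExS p S F := by
  have h1 : (univ : Finset I) = S ∪ Sᶜ := (union_compl S).symm
  unfold Ex
  rw [h1, ExS_union p disjoint_compl_right]
  refine ExS_congr fun E hE => ?_
  have h2 : ExS p Sᶜ (fun E' => F (E ∪ E')) = ExS p Sᶜ (fun _ => F E) := by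
    refine ExS_congr fun E' hE' => ?_
    rw [hF]
    congr 1
    ext x
    simp only [mem_inter, mem_union]
    constructor
    · rintro ⟨h3 | h3, h4⟩
      · exact h3
      · exact absurd h4 (mem_compl.1 (hE' h3))
    · intro h3
      exact ⟨Or.inl h3, hE h3⟩
  rw [h2, ExS_const]

/-- Independence. -/
theorem Ex_mul (p : I → ℝ) (S : Finset I) {F G : Finset I → ℝ} (hF : ∀ E, F E = F (E ∩ S))
    (hG : ∀ E, G E = G (E ∩ Sᶜ)) : Ex p (fun E => F E * G E) = Ex p F * Ex p G := by
  rw [Ex_eq_left p S hF, Ex_eq_left p Sᶜ hG]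
  have h1 : (univ : Finset I) = S ∪ Sᶜ := (union_compl S).symm
  unfold Ex
  rw [h1, ExS_union p disjoint_compl_right]
  have h2 : ∀ E ⊆ S, ExS p Sᶜ (fun E' => F (E ∪ E') * G (E ∪ E')) = ExS p Sᶜ G * F E := by
    intro E hE
    rw [mul_comm, ← ExS_mul_left]
    refine ExS_congr fun E' hE' => ?_
    have h3 : (E ∪ E') ∩ S = E := by
      ext x
      simp only [mem_inter, mem_union]
      constructor
      · rintro ⟨h3 | h3, h4⟩
        · exact h3
        · exact absurd h4 (mem_compl.1 (hE' h3))
      · intro h3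
        exact ⟨Or.inl h3, hE h3⟩
    have h4 : (E ∪ E') ∩ Sᶜ = E' := by
      ext x
      simp only [mem_inter, mem_union, mem_compl]
      constructor
      · rintro ⟨h3 | h3, h4⟩
        · exact absurd (hE h3) h4
        · exact h3
      · intro h3
        exact ⟨Or.inr h3, mem_compl.1 (hE' h3)⟩
    rw [hF (E ∪ E'), hG (E ∪ E'), h3, h4]
  rw [ExS_congr h2, ExS_mul_left]
  ring

/-- The part of the random set in the image of `f`. -/
def pull (f : J ↪ I) (E : Finset I) : Finset J := univ.filter fun j => f j ∈ E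

omit [DecidableEq J] [Fintype I] in
theorem mem_pull {f : J ↪ I} {E : Finset I} {j : J} : j ∈ pull f E ↔ f j ∈ E := by
  simp [pull]

omit [Fintype I] in
theorem ExS_map (p : I → ℝ) (f : J ↪ I) (S : Finset J) (F : Finset J → ℝ) :
    ExS p (S.map f) (fun E => F (pull f E)) = ExS (fun j => p (f j)) S F := by
  induction S using Finset.induction_on generalizing F with
  | empty =>
    rw [map_empty, ExS_empty, ExS_empty]
    congr 1
    ext j
    simp [mem_pull]
  | insert a S ha ih =>
    have h1 : f a ∉ S.map f := by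
      rw [mem_map']
      exact ha
    rw [map_insert, ExS_insert p h1, ExS_insert _ ha, ih]
    congr 2
    rw [← ih (fun E => F (insert a E))]
    refine ExS_congr fun E _ => ?_
    congr 1
    ext j
    simp only [mem_pull, mem_insert, EmbeddingLike.apply_eq_iff_eq]

theorem Ex_pull (p : I → ℝ) (f : J ↪ I) (F : Finset J → ℝ) :
    Ex p (fun E => F (pull f E)) = Ex (fun j => p (f j)) F := by
  rw [Ex_eq_left p (univ.map f), ExS_map]
  · rfl
  · intro E
    congr 1
    ext j
    simp [mem_pull]

theorem Ex_disj (p : I → ℝ) (R : Finset I) :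
    Ex p (fun E => if Disjoint E R then 1 else 0) = ∏ e ∈ R, (1 - p e) := by
  rw [Ex_eq_left p R]
  · unfold ExS
    rw [sum_eq_single ∅]
    · simp
    · intro E hE hne
      beta_reduce
      rw [if_neg, mul_zero]
      intro h
      have h2 : E ⊆ ∅ := by
        have h3 := disjoint_self_iff_empty E |>.1 (h.mono_right (mem_powerset.1 hE))
        rw [h3]
      exact hne (subset_empty.1 h2)
    · intro h
      exact absurd (empty_mem_powerset R) h
  · intro E
    have : Disjoint E R ↔ Disjoint (E ∩ R) R := by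
      rw [disjoint_iff_inter_eq_empty, disjoint_iff_inter_eq_empty, inter_assoc, inter_self]
    simp only [this]

end ExS

end Pool.Agent.Stirring.Hier.Perc
end

section

/-! The designated cluster of a block. -/

set_option autoImplicit false

namespace Pool.Agent.Stirring.Hier.Perc

open Finset

variable {N K : ℕ}

/-- Append the letter `a`. -/
def sn (x : Word N K) (a : Fin N) : Word N (K + 1) := Fin.snoc (α := fun _ => Fin N) x a

theorem sn_castSucc (x : Word N K) (a : Fin N) (i : Fin K) : sn x a i.castSucc = x i := by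
  simp [sn]

theorem sn_last (x : Word N K) (a : Fin N) : sn x a (Fin.last K) = a := by
  simp [sn]

theorem sn_inj {x y : Word N K} {a b : Fin N} (h : sn x a = sn y b) : x = y ∧ a = b := by
  constructor
  · funext i
    rw [← sn_castSucc x a i, h, sn_castSucc]
  · rw [← sn_last x a, h, sn_last]

theorem exists_sn (z : Word N (K + 1)) : ∃ (x : Word N K) (a : Fin N), sn x a = z :=
  ⟨fun i => z i.castSucc, z (Fin.last K), by
    funext i
    refine Fin.lastCases ?_ (fun i => ?_) i
    · rw [sn_last]
    · rw [sn_castSucc]⟩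

/-- The pairs of the block `a`. -/
def blk (a : Fin N) : (Word N K × Word N K) ↪ (Word N (K + 1) × Word N (K + 1)) where
  toFun p := (sn p.1 a, sn p.2 a)
  inj' p q h := by
    have h1 := congrArg Prod.fst h
    have h2 := congrArg Prod.snd h
    exact Prod.ext (sn_inj h1).1 (sn_inj h2).1

theorem blk_apply (a : Fin N) (x y : Word N K) : blk a (x, y) = (sn x a, sn y a) := rfl

theorem sameBlock_sn {j : ℕ} (hj : j ≤ K) (x y : Word N K) (a b : Fin N) :
    SameBlock j (sn x a) (sn y b) ↔ a = b ∧ SameBlock j x y := by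
  constructor
  · intro h
    constructor
    · have h1 := h (Fin.last K) (by simpa using hj)
      rwa [sn_last, sn_last] at h1
    · intro i hi
      have h1 := h i.castSucc (by simpa using hi)
      rwa [sn_castSucc, sn_castSucc] at h1
  · rintro ⟨rfl, h⟩ i
    refine Fin.lastCases (fun _ => ?_) (fun i hi => ?_) i
    · rw [sn_last, sn_last]
    · rw [sn_castSucc, sn_castSucc]
      exact h i (by simpa using hi)

theorem sameBlock_top (z w : Word N (K + 1)) : SameBlock (K + 1) z w := fun i hi =>
  absurd i.2 (by omega)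

theorem le_pairRate_cross {g : ℕ → ℝ} (hg : ∀ j, 0 < g j) (e : Word N (K + 1) × Word N (K + 1)) :
    g (K + 1) / ((N : ℝ) ^ (K + 1)) ^ 2 ≤ pairRate N (K + 1) g e := by
  classical
  unfold pairRate
  have h1 : g (K + 1) / ((N : ℝ) ^ (K + 1)) ^ 2 =
      if SameBlock (K + 1) e.1 e.2 then g (K + 1) / ((N : ℝ) ^ (K + 1)) ^ 2 else 0 := by
    rw [if_pos (sameBlock_top _ _)]
  rw [h1]
  refine Finset.single_le_sum (f := fun j => if SameBlock j e.1 e.2 then
    g j / ((N : ℝ) ^ j) ^ 2 else 0) (fun j _ => ?_) (Finset.mem_Icc.2 ⟨by omega, le_rfl⟩)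
  split_ifs
  · exact div_nonneg (hg j).le (by positivity)
  · exact le_rfl

theorem le_pairRate_blk {g : ℕ → ℝ} (hg : ∀ j, 0 < g j) (a : Fin N) (e : Word N K × Word N K) :
    pairRate N K g e ≤ pairRate N (K + 1) g (blk a e) := by
  classical
  unfold pairRate
  have h1 : ∑ j ∈ Finset.Icc 1 K, (if SameBlock j e.1 e.2 then g j / ((N : ℝ) ^ j) ^ 2 else 0) =
      ∑ j ∈ Finset.Icc 1 K, (if SameBlock j (blk a e).1 (blk a e).2 then
        g j / ((N : ℝ) ^ j) ^ 2 else 0) := by
    refine Finset.sum_congr rfl fun j hj => ?_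
    have h2 : SameBlock j (blk a e).1 (blk a e).2 ↔ SameBlock j e.1 e.2 := by
      show SameBlock j (sn e.1 a) (sn e.2 a) ↔ _
      rw [sameBlock_sn (Finset.mem_Icc.1 hj).2]
      simp
    simp only [h2]
  rw [h1]
  refine Finset.sum_le_sum_of_subset_of_nonneg (Finset.Icc_subset_Icc le_rfl (by omega)) ?_
  intro j _ _
  split_ifs
  · exact div_nonneg (hg j).le (by positivity)
  · exact le_rfl

/-- Appending the letter `a`, as an embedding. -/
def snE (a : Fin N) : Word N K ↪ Word N (K + 1) where
  toFun x := sn x a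
  inj' _ _ h := (sn_inj h).1

open Classical in
/-- The designated cluster: the union of the designated clusters of the subblocks with density at
least `1/8`, if every two of them are joined by a pair, and empty otherwise. -/
noncomputable def dcl (N : ℕ) : (K : ℕ) → Finset (Word N K × Word N K) → Finset (Word N K)
  | 0, _ => univ
  | K + 1, E =>
    if ∀ a b : Fin N, a ≠ b → 1 / 8 * (N : ℝ) ^ K ≤ ((dcl N K (pull (blk a) E)).card : ℝ) →
        1 / 8 * (N : ℝ) ^ K ≤ ((dcl N K (pull (blk b) E)).card : ℝ) →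
        ∃ x ∈ dcl N K (pull (blk a) E), ∃ y ∈ dcl N K (pull (blk b) E), (sn x a, sn y b) ∈ E
    then (univ.filter fun a => 1 / 8 * (N : ℝ) ^ K ≤
        ((dcl N K (pull (blk a) E)).card : ℝ)).biUnion fun a =>
        (dcl N K (pull (blk a) E)).map (snE a)
    else ∅

/-- Large designated clusters of different subblocks are joined. -/
def good (N K : ℕ) (E : Finset (Word N (K + 1) × Word N (K + 1))) : Prop :=
  ∀ a b : Fin N, a ≠ b → 1 / 8 * (N : ℝ) ^ K ≤ ((dcl N K (pull (blk a) E)).card : ℝ) →
    1 / 8 * (N : ℝ) ^ K ≤ ((dcl N K (pull (blk b) E)).card : ℝ) →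
    ∃ x ∈ dcl N K (pull (blk a) E), ∃ y ∈ dcl N K (pull (blk b) E), (sn x a, sn y b) ∈ E

open Classical in
theorem dcl_good {E : Finset (Word N (K + 1) × Word N (K + 1))} (h : good N K E) :
    dcl N (K + 1) E = (univ.filter fun a => 1 / 8 * (N : ℝ) ^ K ≤
        ((dcl N K (pull (blk a) E)).card : ℝ)).biUnion fun a =>
        (dcl N K (pull (blk a) E)).map (snE a) := by
  rw [dcl]
  exact if_pos h

theorem dcl_not_good {E : Finset (Word N (K + 1) × Word N (K + 1))} (h : ¬ good N K E) :
    dcl N (K + 1) E = ∅ := by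
  rw [dcl]
  exact if_neg h

/-- The complementary density. -/
noncomputable def dd (N K : ℕ) (E : Finset (Word N K × Word N K)) : ℝ :=
  1 - ((dcl N K E).card : ℝ) / (N : ℝ) ^ K

/-- The same, if it is at most `7/8`, and `1` otherwise. -/
noncomputable def yy (N K : ℕ) (E : Finset (Word N K × Word N K)) : ℝ :=
  if dd N K E ≤ 7 / 8 then dd N K E else 1

theorem dd_nonneg (hN : 0 < N) (E : Finset (Word N K × Word N K)) : 0 ≤ dd N K E := by
  have hNr : (0 : ℝ) < N := by exact_mod_cast hN
  unfold dd
  rw [sub_nonneg, div_le_one (by positivity)]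
  have h1 : (dcl N K E).card ≤ Fintype.card (Word N K) := Finset.card_le_univ _
  have h2 : Fintype.card (Word N K) = N ^ K := by simp [Word]
  rw [h2] at h1
  exact_mod_cast h1

theorem dd_le_one (E : Finset (Word N K × Word N K)) : dd N K E ≤ 1 := by
  unfold dd
  have : (0 : ℝ) ≤ ((dcl N K E).card : ℝ) / (N : ℝ) ^ K := by positivity
  linarith

theorem dd_zero (E : Finset (Word N 0 × Word N 0)) : dd N 0 E = 0 := by
  have h2 : Fintype.card (Word N 0) = 1 := by simp [Word]
  unfold dd
  rw [dcl, Finset.card_univ, h2]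
  simp

theorem big_iff (hN : 0 < N) (E : Finset (Word N K × Word N K)) :
    1 / 8 * (N : ℝ) ^ K ≤ ((dcl N K E).card : ℝ) ↔ dd N K E ≤ 7 / 8 := by
  have hNr : (0 : ℝ) < N := by exact_mod_cast hN
  unfold dd
  rw [← le_div_iff₀ (by positivity)]
  constructor
  · intro h
    linarith
  · intro h
    linarith

/-- The recursion for the densities. -/
theorem dd_succ_good (hN : 0 < N) {E : Finset (Word N (K + 1) × Word N (K + 1))}
    (h : good N K E) : dd N (K + 1) E = (∑ a : Fin N, yy N K (pull (blk a) E)) / N := by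
  classical
  have hNr : (0 : ℝ) < N := by exact_mod_cast hN
  have h1 : ((dcl N (K + 1) E).card : ℝ) = ∑ a : Fin N, (1 - yy N K (pull (blk a) E)) *
      (N : ℝ) ^ K := by
    rw [dcl_good h, Finset.card_biUnion]
    · push_cast
      rw [Finset.sum_filter]
      refine Finset.sum_congr rfl fun a _ => ?_
      rw [Finset.card_map]
      by_cases hb : 1 / 8 * (N : ℝ) ^ K ≤ ((dcl N K (pull (blk a) E)).card : ℝ)
      · rw [if_pos hb, yy, if_pos ((big_iff hN _).1 hb), dd]
        field_simp
        ring
      · rw [if_neg hb, yy, if_neg (fun h2 => hb ((big_iff hN _).2 h2))]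
        ring
    · intro a _ b _ hab
      refine Finset.disjoint_left.2 ?_
      intro z hz hz'
      obtain ⟨x, _, hx⟩ := Finset.mem_map.1 hz
      obtain ⟨y, _, hy⟩ := Finset.mem_map.1 hz'
      exact hab (sn_inj (hx.trans hy.symm)).2
  unfold dd
  rw [h1, ← Finset.sum_mul, Finset.sum_sub_distrib, pow_succ]
  simp only [Finset.sum_const, Finset.card_univ, Fintype.card_fin, nsmul_eq_mul, mul_one]
  field_simp
  ring

theorem dd_succ_not_good {E : Finset (Word N (K + 1) × Word N (K + 1))} (h : ¬ good N K E) :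
    dd N (K + 1) E = 1 := by
  unfold dd
  rw [dcl_not_good h]
  simp

theorem joined_pull {a : Fin N} {E : Finset (Word N (K + 1) × Word N (K + 1))} {x y : Word N K}
    (h : Joined (pull (blk a) E) x y) : Joined E (sn x a) (sn y a) := by
  refine Relation.ReflTransGen.lift (fun x => sn x a) (p := fun u v => (u, v) ∈ E ∨ (v, u) ∈ E)
    (fun u v huv => ?_) _ _ h
  rcases huv with huv | huv
  · exact Or.inl (mem_pull.1 huv)
  · exact Or.inr (mem_pull.1 huv)

/-- The designated cluster is connected. -/
theorem joined_dcl : ∀ (K : ℕ) (E : Finset (Word N K × Word N K)), ∀ x ∈ dcl N K E,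
    ∀ y ∈ dcl N K E, Joined E x y
  | 0, E, x, _, y, _ => by
    have h : x = y := Subsingleton.elim x y
    rw [h]
    exact Relation.ReflTransGen.refl
  | K + 1, E, z, hz, w, hw => by
    classical
    by_cases h : good N K E
    · rw [dcl_good h] at hz hw
      obtain ⟨a, ha, hz⟩ := Finset.mem_biUnion.1 hz
      obtain ⟨b, hb, hw⟩ := Finset.mem_biUnion.1 hw
      obtain ⟨x, hx, rfl⟩ := Finset.mem_map.1 hz
      obtain ⟨y, hy, rfl⟩ := Finset.mem_map.1 hw
      show Joined E (sn x a) (sn y b)
      by_cases hab : a = b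
      · subst hab
        exact joined_pull (joined_dcl K _ x hx y hy)
      · obtain ⟨x', hx', y', hy', hxy⟩ := h a b hab (Finset.mem_filter.1 ha).2
          (Finset.mem_filter.1 hb).2
        have h1 := joined_pull (joined_dcl K _ x hx x' hx')
        have h2 := joined_pull (joined_dcl K _ y' hy' y hy)
        exact (h1.tail (Or.inl hxy)).trans h2
    · rw [dcl_not_good h] at hz
      exact absurd hz (Finset.notMem_empty _)

end Pool.Agent.Stirring.Hier.Perc
end

section

/-! Percolation of the pairs which have rung: the induction over the levels. -/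

set_option autoImplicit false

namespace Pool.Agent.Stirring.Hier.Perc

open Finset

section General

variable {I : Type*} [DecidableEq I] [Fintype I]

/-- The second moment about the mean is the smallest. -/
theorem Ex_sq_mean_le {p : I → ℝ} (F : Finset I → ℝ)
    (c : ℝ) : Ex p (fun E => (F E - Ex p F) ^ 2) ≤ Ex p (fun E => (F E - c) ^ 2) := by
  set m := Ex p F with hm
  have h2 : Ex p (fun E => (F E - c) ^ 2) - Ex p (fun E => (F E - m) ^ 2) = (m - c) ^ 2 := by
    unfold Ex at hm ⊢
    rw [← ExS_sub]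
    have h3 : ∀ E : Finset I, (F E - c) ^ 2 - (F E - m) ^ 2 =
        (2 * (m - c)) * F E + (c ^ 2 - m ^ 2) := fun E => by ring
    simp only [h3]
    rw [ExS_add, ExS_mul_left, ExS_const, ← hm]
    ring
  have h3 : 0 ≤ (m - c) ^ 2 := sq_nonneg _
  linarith

/-- Chebyshev. -/
theorem Ex_cheb {p : I → ℝ} (h0 : ∀ e, 0 ≤ p e) (h1 : ∀ e, p e ≤ 1) {d : Finset I → ℝ}
    {V : ℝ} (hm : Ex p d ≤ 1 / 8) (hV : Ex p (fun E => (d E - Ex p d) ^ 2) ≤ V) :
    Ex p (fun E => if d E ≤ 7 / 8 then 0 else 1) ≤ 16 / 9 * V := by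
  set m := Ex p d with hmm
  have h2 : Ex p (fun E => if d E ≤ 7 / 8 then 0 else 1) ≤
      Ex p (fun E => 16 / 9 * (d E - m) ^ 2) := by
    refine ExS_mono h0 h1 _ fun E _ => ?_
    split_ifs with h
    · positivity
    · have h3 : 3 / 4 ≤ d E - m := by
        push Not at h
        linarith
      nlinarith
  refine h2.trans ?_
  unfold Ex at hV ⊢
  rw [ExS_mul_left]
  linarith

end General

variable {N K : ℕ}

/-- The pairs ring at least with the probabilities at time `t`. -/
def Big (N K : ℕ) (g : ℕ → ℝ) (t : ℝ) (p : Word N K × Word N K → ℝ) : Prop :=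
  (∀ e, 1 - Real.exp (-(t * pairRate N K g e)) ≤ p e) ∧ ∀ e, p e ≤ 1

theorem pairRate_nonneg {g : ℕ → ℝ} (hg : ∀ j, 0 < g j) (e : Word N K × Word N K) :
    0 ≤ pairRate N K g e := by
  classical
  unfold pairRate
  refine Finset.sum_nonneg fun j _ => ?_
  split_ifs
  · exact div_nonneg (hg j).le (by positivity)
  · exact le_rfl

theorem Big.nonneg {g : ℕ → ℝ} (hg : ∀ j, 0 < g j) {t : ℝ} (ht : 0 ≤ t)
    {p : Word N K × Word N K → ℝ} (h : Big N K g t p) (e : Word N K × Word N K) : 0 ≤ p e := by
  refine le_trans ?_ (h.1 e)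
  rw [sub_nonneg, Real.exp_le_one_iff, neg_nonpos]
  exact mul_nonneg ht (pairRate_nonneg hg e)

theorem Big.blk {g : ℕ → ℝ} (hg : ∀ j, 0 < g j) {t : ℝ} (ht : 0 ≤ t)
    {p : Word N (K + 1) × Word N (K + 1) → ℝ} (h : Big N (K + 1) g t p) (a : Fin N) :
    Big N K g t (fun e => p (blk a e)) := by
  refine ⟨fun e => le_trans ?_ (h.1 _), fun e => h.2 _⟩
  have h1 := le_pairRate_blk hg a e
  have h2 : Real.exp (-(t * pairRate N (K + 1) g (Perc.blk a e))) ≤
      Real.exp (-(t * pairRate N K g e)) := by
    rw [Real.exp_le_exp]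
    have := mul_le_mul_of_nonneg_left h1 ht
    linarith
  linarith

/-- Independence of different blocks. -/
theorem Ex_blk_mul (p : Word N (K + 1) × Word N (K + 1) → ℝ) {a b : Fin N} (hab : a ≠ b)
    (F G : Finset (Word N K × Word N K) → ℝ) :
    Ex p (fun E => F (pull (blk a) E) * G (pull (blk b) E)) =
      Ex (fun e => p (blk a e)) F * Ex (fun e => p (blk b e)) G := by
  rw [← Ex_pull p (blk a) F, ← Ex_pull p (blk b) G]
  refine Ex_mul p (univ.map (blk a)) ?_ ?_
  · intro E
    congr 1
    ext e
    simp [mem_pull]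
  · intro E
    congr 1
    ext e
    simp only [mem_pull, mem_inter, mem_compl, mem_map, mem_univ, true_and, not_exists]
    constructor
    · intro h
      refine ⟨h, fun e' he' => hab ?_⟩
      exact (sn_inj (congrArg Prod.fst he')).2
    · exact fun h => h.1

/-- The pairs between the sets `s`, `s'` in the blocks `a`, `b`. -/
def crossE (a b : Fin N) (_ : a ≠ b) : (Word N K × Word N K) ↪
    (Word N (K + 1) × Word N (K + 1)) where
  toFun e := (sn e.1 a, sn e.2 b)
  inj' _ _ h := Prod.ext (sn_inj (congrArg Prod.fst h)).1 (sn_inj (congrArg Prod.snd h)).1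

theorem prod_cross_le {g : ℕ → ℝ} (hg : ∀ j, 0 < g j) (hN : 0 < N) {t : ℝ} (ht : 0 ≤ t)
    {p : Word N (K + 1) × Word N (K + 1) → ℝ} (h : Big N (K + 1) g t p) {a b : Fin N}
    (hab : a ≠ b) {s s' : Finset (Word N K)} (hs : 1 / 8 * (N : ℝ) ^ K ≤ (s.card : ℝ))
    (hs' : 1 / 8 * (N : ℝ) ^ K ≤ (s'.card : ℝ)) :
    ∏ e ∈ (s ×ˢ s').map (crossE a b hab), (1 - p e) ≤
      Real.exp (-(t * g (K + 1) / (64 * (N : ℝ) ^ 2))) := by
  have hNr : (0 : ℝ) < N := by exact_mod_cast hN
  have h1 : ∏ e ∈ (s ×ˢ s').map (crossE a b hab), (1 - p e) ≤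
      ∏ e ∈ (s ×ˢ s').map (crossE a b hab),
        Real.exp (-(t * (g (K + 1) / ((N : ℝ) ^ (K + 1)) ^ 2))) := by
    refine Finset.prod_le_prod (fun e _ => sub_nonneg.2 (h.2 e)) fun e _ => ?_
    have h2 := h.1 e
    have h3 : Real.exp (-(t * pairRate N (K + 1) g e)) ≤
        Real.exp (-(t * (g (K + 1) / ((N : ℝ) ^ (K + 1)) ^ 2))) := by
      rw [Real.exp_le_exp]
      have := mul_le_mul_of_nonneg_left (le_pairRate_cross hg e) ht
      linarith
    linarith
  refine h1.trans ?_
  rw [Finset.prod_const, Finset.card_map, Finset.card_product, ← Real.exp_nat_mul,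
    Real.exp_le_exp]
  push_cast
  have h4 : (1 / 8 * (N : ℝ) ^ K) * (1 / 8 * (N : ℝ) ^ K) ≤ (s.card : ℝ) * (s'.card : ℝ) :=
    mul_le_mul hs hs' (by positivity) (by positivity)
  have h5 : 0 ≤ t * (g (K + 1) / ((N : ℝ) ^ (K + 1)) ^ 2) :=
    mul_nonneg ht (div_nonneg (hg _).le (by positivity))
  have h6 : t * g (K + 1) / (64 * (N : ℝ) ^ 2) = (1 / 8 * (N : ℝ) ^ K) * (1 / 8 * (N : ℝ) ^ K) *
      (t * (g (K + 1) / ((N : ℝ) ^ (K + 1)) ^ 2)) := by
    rw [pow_succ]
    field_simp
    ring
  rw [h6]
  have := mul_le_mul_of_nonneg_right h4 h5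
  linarith

/-- The probability that two large designated clusters are not joined. -/
theorem Ex_bad_le {g : ℕ → ℝ} (hg : ∀ j, 0 < g j) (hN : 0 < N) {t : ℝ} (ht : 0 ≤ t)
    {p : Word N (K + 1) × Word N (K + 1) → ℝ} (h : Big N (K + 1) g t p) {a b : Fin N}
    (hab : a ≠ b) :
    Ex p (fun E => ∑ s : Finset (Word N K), ∑ s' : Finset (Word N K),
      if 1 / 8 * (N : ℝ) ^ K ≤ (s.card : ℝ) ∧ 1 / 8 * (N : ℝ) ^ K ≤ (s'.card : ℝ) then
        ((if dcl N K (pull (blk a) E) = s then 1 else 0) *
          (if dcl N K (pull (blk b) E) = s' then 1 else 0)) *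
          (if Disjoint E ((s ×ˢ s').map (crossE a b hab)) then 1 else 0) else 0) ≤
      Real.exp (-(t * g (K + 1) / (64 * (N : ℝ) ^ 2))) := by
  classical
  have h0 := h.nonneg hg ht
  set ε := Real.exp (-(t * g (K + 1) / (64 * (N : ℝ) ^ 2))) with hε
  have h1 : ∀ s s' : Finset (Word N K), Ex p (fun E =>
      if 1 / 8 * (N : ℝ) ^ K ≤ (s.card : ℝ) ∧ 1 / 8 * (N : ℝ) ^ K ≤ (s'.card : ℝ) then
        ((if dcl N K (pull (blk a) E) = s then 1 else 0) *
          (if dcl N K (pull (blk b) E) = s' then 1 else 0)) *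
          (if Disjoint E ((s ×ˢ s').map (crossE a b hab)) then 1 else 0) else 0) ≤
      ε * Ex p (fun E => (if dcl N K (pull (blk a) E) = s then 1 else 0) *
          (if dcl N K (pull (blk b) E) = s' then 1 else 0)) := by
    intro s s'
    have hnn : 0 ≤ Ex p (fun E => (if dcl N K (pull (blk a) E) = s then (1 : ℝ) else 0) *
          (if dcl N K (pull (blk b) E) = s' then 1 else 0)) := by
      have h2 := ExS_mono h0 h.2 univ (F := fun _ => 0)
        (G := fun E => (if dcl N K (pull (blk a) E) = s then (1 : ℝ) else 0) *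
          (if dcl N K (pull (blk b) E) = s' then 1 else 0)) (fun E _ => by
            split_ifs <;> norm_num)
      rwa [ExS_const] at h2
    by_cases hs : 1 / 8 * (N : ℝ) ^ K ≤ (s.card : ℝ) ∧ 1 / 8 * (N : ℝ) ^ K ≤ (s'.card : ℝ)
    · simp only [if_pos hs]
      have h2 := Ex_mul p ((s ×ˢ s').map (crossE a b hab))ᶜ
        (F := fun E => (if dcl N K (pull (blk a) E) = s then (1 : ℝ) else 0) *
          (if dcl N K (pull (blk b) E) = s' then 1 else 0))
        (G := fun E => if Disjoint E ((s ×ˢ s').map (crossE a b hab)) then 1 else 0) ?_ ?_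
      · rw [h2, Ex_disj, mul_comm]
        exact mul_le_mul_of_nonneg_right (prod_cross_le hg hN ht h hab hs.1 hs.2) hnn
      · intro E
        have e1 : pull (blk a) (E ∩ ((s ×ˢ s').map (crossE a b hab))ᶜ) = pull (blk a) E := by
          ext e
          simp only [mem_pull, mem_inter, mem_compl, mem_map, not_exists, not_and]
          constructor
          · exact fun h => h.1
          · intro h
            refine ⟨h, fun e' _ he' => hab ?_⟩
            exact (sn_inj (congrArg Prod.snd he')).2.symm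
        have e2 : pull (blk b) (E ∩ ((s ×ˢ s').map (crossE a b hab))ᶜ) = pull (blk b) E := by
          ext e
          simp only [mem_pull, mem_inter, mem_compl, mem_map, not_exists, not_and]
          constructor
          · exact fun h => h.1
          · intro h
            refine ⟨h, fun e' _ he' => hab ?_⟩
            exact (sn_inj (congrArg Prod.fst he')).2
        simp only [e1, e2]
      · intro E
        have e1 : Disjoint (E ∩ (((s ×ˢ s').map (crossE a b hab))ᶜ)ᶜ)
            ((s ×ˢ s').map (crossE a b hab)) ↔ Disjoint E ((s ×ˢ s').map (crossE a b hab)) := by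
          rw [compl_compl, disjoint_iff_inter_eq_empty, disjoint_iff_inter_eq_empty, inter_assoc,
            inter_self]
        simp only [e1]
    · simp only [if_neg hs]
      have h2 : Ex p (fun _ => (0 : ℝ)) = 0 := ExS_const p univ 0
      rw [h2]
      exact mul_nonneg (Real.exp_pos _).le hnn
  unfold Ex at h1 ⊢
  rw [ExS_sum]
  have h2 : ∀ s : Finset (Word N K), ExS p univ (fun E => ∑ s' : Finset (Word N K),
      if 1 / 8 * (N : ℝ) ^ K ≤ (s.card : ℝ) ∧ 1 / 8 * (N : ℝ) ^ K ≤ (s'.card : ℝ) then
        ((if dcl N K (pull (blk a) E) = s then 1 else 0) *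
          (if dcl N K (pull (blk b) E) = s' then 1 else 0)) *
          (if Disjoint E ((s ×ˢ s').map (crossE a b hab)) then 1 else 0) else 0) ≤
      ∑ s' : Finset (Word N K), ε * ExS p univ (fun E =>
        (if dcl N K (pull (blk a) E) = s then 1 else 0) *
          (if dcl N K (pull (blk b) E) = s' then 1 else 0)) := by
    intro s
    rw [ExS_sum]
    exact Finset.sum_le_sum fun s' _ => h1 s s'
  refine (Finset.sum_le_sum fun s _ => h2 s).trans (le_of_eq ?_)
  have h3 : ∀ s : Finset (Word N K), ∑ s' : Finset (Word N K), ε * ExS p univ (fun E =>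
        (if dcl N K (pull (blk a) E) = s then (1 : ℝ) else 0) *
          (if dcl N K (pull (blk b) E) = s' then 1 else 0)) =
      ε * ExS p univ (fun E => if dcl N K (pull (blk a) E) = s then 1 else 0) := by
    intro s
    rw [← Finset.mul_sum, ← ExS_sum]
    congr 2
    funext E
    rw [← Finset.mul_sum, Finset.sum_ite_eq, if_pos (mem_univ _), mul_one]
  rw [Finset.sum_congr rfl fun s _ => h3 s, ← Finset.mul_sum, ← ExS_sum]
  have h4 : (fun E : Finset (Word N (K + 1) × Word N (K + 1)) => ∑ s : Finset (Word N K),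
      if dcl N K (pull (blk a) E) = s then (1 : ℝ) else 0) = fun _ => 1 := by
    funext E
    rw [Finset.sum_ite_eq, if_pos (mem_univ _)]
  rw [h4, ExS_one, mul_one]

open Classical in
/-- The probability that the block is not good. -/
theorem Ex_not_good_le {g : ℕ → ℝ} (hg : ∀ j, 0 < g j) (hN : 0 < N) {t : ℝ} (ht : 0 ≤ t)
    {p : Word N (K + 1) × Word N (K + 1) → ℝ} (h : Big N (K + 1) g t p) :
    Ex p (fun E => if good N K E then 0 else 1) ≤
      (N : ℝ) ^ 2 * Real.exp (-(t * g (K + 1) / (64 * (N : ℝ) ^ 2))) := by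
  have h0 := h.nonneg hg ht
  set ε := Real.exp (-(t * g (K + 1) / (64 * (N : ℝ) ^ 2))) with hε
  set B : Fin N → Fin N → Finset (Word N (K + 1) × Word N (K + 1)) → ℝ := fun a b E =>
    if hab : a ≠ b then ∑ s : Finset (Word N K), ∑ s' : Finset (Word N K),
      if 1 / 8 * (N : ℝ) ^ K ≤ (s.card : ℝ) ∧ 1 / 8 * (N : ℝ) ^ K ≤ (s'.card : ℝ) then
        ((if dcl N K (pull (blk a) E) = s then 1 else 0) *
          (if dcl N K (pull (blk b) E) = s' then 1 else 0)) *
          (if Disjoint E ((s ×ˢ s').map (crossE a b hab)) then 1 else 0) else 0 else 0 with hB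
  have hB0 : ∀ a b E, 0 ≤ B a b E := by
    intro a b E
    rw [hB]
    dsimp only
    split_ifs
    · refine Finset.sum_nonneg fun s _ => Finset.sum_nonneg fun s' _ => ?_
      split_ifs <;> norm_num
    · exact le_rfl
  have hBE : ∀ a b, Ex p (B a b) ≤ ε := by
    intro a b
    by_cases hab : a ≠ b
    · have h1 := Ex_bad_le hg hN ht h hab
      rw [hB]
      simp only [dif_pos hab]
      exact h1
    · rw [hB]
      simp only [dif_neg hab]
      have h2 : Ex p (fun _ => (0 : ℝ)) = 0 := ExS_const p univ 0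
      rw [h2]
      exact (Real.exp_pos _).le
  have h1 : Ex p (fun E => if good N K E then 0 else 1) ≤ Ex p (fun E => ∑ a, ∑ b, B a b E) := by
    refine ExS_mono h0 h.2 _ fun E _ => ?_
    split_ifs with hgd
    · exact Finset.sum_nonneg fun a _ => Finset.sum_nonneg fun b _ => hB0 a b E
    · unfold good at hgd
      push Not at hgd
      obtain ⟨a, b, hab, ha, hb, hno⟩ := hgd
      have h2 : 1 ≤ B a b E := by
        rw [hB]
        simp only [dif_pos hab]
        have h3 : ∀ s s' : Finset (Word N K), (0 : ℝ) ≤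
          (if 1 / 8 * (N : ℝ) ^ K ≤ (s.card : ℝ) ∧ 1 / 8 * (N : ℝ) ^ K ≤ (s'.card : ℝ) then
            ((if dcl N K (pull (blk a) E) = s then 1 else 0) *
              (if dcl N K (pull (blk b) E) = s' then 1 else 0)) *
            (if Disjoint E ((s ×ˢ s').map (crossE a b hab)) then 1 else 0) else 0) := by
          intro s s'
          split_ifs <;> norm_num
        have h4 : (1 : ℝ) ≤
          (if 1 / 8 * (N : ℝ) ^ K ≤ ((dcl N K (pull (blk a) E)).card : ℝ) ∧
              1 / 8 * (N : ℝ) ^ K ≤ ((dcl N K (pull (blk b) E)).card : ℝ) then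
            ((if dcl N K (pull (blk a) E) = dcl N K (pull (blk a) E) then 1 else 0) *
              (if dcl N K (pull (blk b) E) = dcl N K (pull (blk b) E) then 1 else 0)) *
            (if Disjoint E ((dcl N K (pull (blk a) E) ×ˢ dcl N K (pull (blk b) E)).map
              (crossE a b hab)) then 1 else 0) else 0) := by
          rw [if_pos ⟨ha, hb⟩, if_pos rfl, if_pos rfl, if_pos]
          · norm_num
          · rw [Finset.disjoint_left]
            intro z hz hz'
            obtain ⟨e, he, rfl⟩ := mem_map.1 hz'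
            rw [mem_product] at he
            exact hno e.1 he.1 e.2 he.2 hz
        refine h4.trans ?_
        refine (Finset.single_le_sum (f := fun s' => _) (fun s' _ => h3 _ s')
          (mem_univ (dcl N K (pull (blk b) E)))).trans ?_
        exact Finset.single_le_sum (f := fun s => ∑ s' : Finset (Word N K),
          (if 1 / 8 * (N : ℝ) ^ K ≤ (s.card : ℝ) ∧ 1 / 8 * (N : ℝ) ^ K ≤ (s'.card : ℝ) then
            ((if dcl N K (pull (blk a) E) = s then (1 : ℝ) else 0) *
              (if dcl N K (pull (blk b) E) = s' then 1 else 0)) *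
            (if Disjoint E ((s ×ˢ s').map (crossE a b hab)) then 1 else 0) else 0))
          (fun s _ => Finset.sum_nonneg fun s' _ => h3 s s')
          (mem_univ (dcl N K (pull (blk a) E)))
      refine h2.trans ?_
      refine (Finset.single_le_sum (f := fun b => B a b E) (fun b _ => hB0 a b E)
        (mem_univ b)).trans ?_
      exact Finset.single_le_sum (f := fun a => ∑ b, B a b E)
        (fun a _ => Finset.sum_nonneg fun b _ => hB0 a b E) (mem_univ a)
  refine h1.trans ?_
  have h2 : Ex p (fun E => ∑ a, ∑ b, B a b E) = ∑ a, ∑ b, Ex p (B a b) := by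
    unfold Ex
    rw [ExS_sum]
    exact Finset.sum_congr rfl fun a _ => ExS_sum _ _ _ _
  rw [h2]
  refine (Finset.sum_le_sum fun a _ => Finset.sum_le_sum fun b _ => hBE a b).trans (le_of_eq ?_)
  simp only [Finset.sum_const, Finset.card_univ, Fintype.card_fin, nsmul_eq_mul]
  ring

end Pool.Agent.Stirring.Hier.Perc
end
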