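import Pool.Agent.Lib.MP_6c3d62_pr.HC.En3
import Pool.Agent.Lib.MP_6c3d62_pr.Mg.G085

section

/-! Decomposition of a law on permutations at a window: a good part which is resampled in the window
with density at most four, and a small bad part. -/

open Finset Equiv

set_option linter.unusedSectionVars false

namespace Pool.Agent.Stirring.HC

variable {V : Type*} [Fintype V] [DecidableEq V]

/-- The permutations of the window `W`. -/
def winG (W : Finset V) : Subgroup (Perm V) where
  carrier := {s | ∀ z, z ∉ W → s z = z}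
  mul_mem' := by
    intro a b ha hb z hz
    rw [Perm.mul_apply, hb z hz, ha z hz]
  one_mem' := fun z _ => rfl
  inv_mem' := by
    intro a ha z hz
    rw [Perm.inv_eq_iff_eq, ha z hz]

theorem mem_winG {W : Finset V} {s : Perm V} : s ∈ winG W ↔ ∀ z, z ∉ W → s z = z := Iff.rfl

/-- The opposite group, acting by right multiplication. -/
abbrev winO (W : Finset V) : Subgroup (Perm V)ᵐᵒᵖ := (winG W).op

noncomputable instance (W : Finset V) : Fintype (winO W) :=
  letI : Fintype (winG W) := Fintype.ofInjective Subtype.val Subtype.val_injective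
  Fintype.ofEquiv (winG W) (winG W).equivOp

theorem card_winO (W : Finset V) : Fintype.card (winO W) = W.card.factorial := by
  classical
  have h1 : Fintype.card (winO W) = Fintype.card {s : Perm V // ∀ z, ¬ z ∈ W → s z = z} :=
    Fintype.card_congr (((winG W).equivOp).symm.trans (Equiv.refl _))
  rw [h1, ← Fintype.card_congr (Equiv.Perm.subtypeEquivSubtypePerm (fun z => z ∈ W)),
    Fintype.card_perm]
  congr 1
  exact Fintype.card_coe W

/-- The element of the acting group given by a permutation of the window. -/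
def toO {W : Finset V} (s : Perm V) (hs : s ∈ winG W) : winO W :=
  ⟨MulOpposite.op s, by rw [Subgroup.mem_op]; exact hs⟩

theorem winO_smul {W : Finset V} (g : winO W) (π : Perm V) :
    g • π = π * MulOpposite.unop (g : (Perm V)ᵐᵒᵖ) := rfl

theorem winO_mem {W : Finset V} (g : winO W) : MulOpposite.unop (g : (Perm V)ᵐᵒᵖ) ∈ winG W := g.2

/-- DECOMPOSITION. The good part `a` of the law is invariant under resampling in the window with
density at most four; the bad part `bb` is small; the two parts add up to the law. -/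
theorem decomp {p : Perm V → ℝ} (hp : IsLaw p) {W : Finset V} {e : ℝ}
    (he : ∀ s : Perm V, (∀ z, z ∉ W → s z = z) → tv p (rm s p) ≤ e) :
    ∃ (a bb : Perm V → ℝ) (mu : Perm V → Perm V → ℝ),
      (∀ ρ, 0 ≤ a ρ) ∧ (∀ ρ, 0 ≤ bb ρ) ∧ (∀ ρ, a ρ + bb ρ = p ρ) ∧
      (∀ ρ, IsLaw (mu ρ)) ∧ (∀ ρ, SuppIn W (mu ρ)) ∧
      (∀ ρ s, mu ρ s ≤ 4 / (W.card.factorial : ℝ)) ∧
      (∑ ρ, bb ρ ≤ 2 * e) ∧
      (∀ F : Perm V → ℝ, ∑ ρ, a ρ * F ρ = ∑ ρ, a ρ * ∑ s, mu ρ s * F (ρ * s)) ∧
      (∀ F : Perm V → ℝ, ∑ π, p π * F π =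
        ∑ ρ, a ρ * ∑ s, mu ρ s * F (ρ * s) + ∑ ρ, bb ρ * F ρ) := by
  classical
  obtain ⟨μ, hμ0, hμ4, hμ1, hμF⟩ := good_resample (G := winO W) hp.nn
  have hcard : (Fintype.card (winO W) : ℝ) = (W.card.factorial : ℝ) := by rw [card_winO]
  have hfac : (0 : ℝ) < (W.card.factorial : ℝ) := by exact_mod_cast W.card.factorial_pos
  set mu : Perm V → Perm V → ℝ := fun ρ s =>
    ∑ g : winO W, if MulOpposite.unop (g : (Perm V)ᵐᵒᵖ) = s then μ ρ g else 0 with hmu
  have hsum : ∀ (ρ : Perm V) (F : Perm V → ℝ), ∑ s, mu ρ s * F s =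
      ∑ g : winO W, μ ρ g * F (MulOpposite.unop (g : (Perm V)ᵐᵒᵖ)) := by
    intro ρ F
    simp only [hmu, Finset.sum_mul]
    rw [Finset.sum_comm]
    refine Finset.sum_congr rfl fun g _ => ?_
    rw [Finset.sum_eq_single (MulOpposite.unop (g : (Perm V)ᵐᵒᵖ))]
    · rw [if_pos rfl]
    · intro s _ hs
      rw [if_neg (fun h => hs h.symm), zero_mul]
    · intro h; exact absurd (Finset.mem_univ _) h
  have hgood : ∀ F : Perm V → ℝ, ∑ ρ, good (winO W) p ρ * F ρ =
      ∑ ρ, good (winO W) p ρ * ∑ s, mu ρ s * F (ρ * s) := by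
    intro F
    rw [hμF F]
    refine Finset.sum_congr rfl fun ρ _ => ?_
    rw [hsum ρ (fun s => F (ρ * s))]
    rfl
  refine ⟨good (winO W) p, fun ρ => p ρ - good (winO W) p ρ, mu, good_nonneg hp.nn,
    fun ρ => sub_nonneg.mpr (good_le hp.nn ρ), fun ρ => by ring, ?_, ?_, ?_, ?_, hgood, ?_⟩
  · intro ρ
    refine ⟨fun s => Finset.sum_nonneg fun g _ => ?_, ?_⟩
    · split_ifs
      · exact hμ0 _ _
      · exact le_rfl
    · have := hsum ρ (fun _ => 1)
      simp only [mul_one] at this
      rw [this]; exact hμ1 ρ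
  · intro ρ s hs z hz
    obtain ⟨g, _, hg⟩ := Finset.exists_ne_zero_of_sum_ne_zero hs
    have h1 : MulOpposite.unop (g : (Perm V)ᵐᵒᵖ) = s := by
      by_contra h
      rw [if_neg h] at hg
      exact hg rfl
    rw [← h1]
    exact winO_mem g z hz
  · intro ρ s
    by_cases hs : s ∈ winG W
    · have h1 : mu ρ s = μ ρ (toO s hs) := by
        simp only [hmu]
        rw [Finset.sum_eq_single (toO s hs)]
        · exact if_pos rfl
        · intro g _ hg
          rw [if_neg]
          intro h
          refine hg (Subtype.ext ?_)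
          rw [toO]
          exact MulOpposite.unop_injective h
        · intro h; exact absurd (Finset.mem_univ _) h
      rw [h1, ← hcard]
      exact hμ4 _ _
    · have h1 : mu ρ s = 0 := by
        simp only [hmu]
        refine Finset.sum_eq_zero fun g _ => ?_
        rw [if_neg]
        intro h
        exact hs (h ▸ winO_mem g)
      rw [h1]
      positivity
  · exact bad_le hp.nn fun g => he _ (winO_mem g)
  · intro F
    rw [← hgood F, ← Finset.sum_add_distrib]
    refine Finset.sum_congr rfl fun ρ _ => ?_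
    ring

/-- Supports in the decomposition. -/
theorem decomp_supp {p a bb : Perm V → ℝ} {C : Finset V} (hC : SuppIn C p) (ha : ∀ ρ, 0 ≤ a ρ)
    (hb : ∀ ρ, 0 ≤ bb ρ) (hab : ∀ ρ, a ρ + bb ρ = p ρ) : SuppIn C a ∧ SuppIn C bb := by
  constructor
  · intro ρ h
    refine hC ρ ?_
    have h1 := hb ρ
    have h2 := lt_of_le_of_ne (ha ρ) (Ne.symm h)
    have := hab ρ
    linarith
  · intro ρ h
    refine hC ρ ?_
    have h1 := ha ρ
    have h2 := lt_of_le_of_ne (hb ρ) (Ne.symm h)
    have := hab ρ
    linarith

end Pool.Agent.Stirring.HC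
end

section

/-! Hidden coins (block (1)): definitions.

Permutations are multiplied on the right, `T ↦ T * swap`. A law is a weight on permutations. -/

open Finset

set_option linter.unusedSectionVars false

namespace Pool.Agent.Stirring.HC

variable {V : Type} [Fintype V] [DecidableEq V]

/-- `F ↦ E F (π₁ π₂ ⋯)` for independent `π_i` with laws `μ i`, `i` in the list `l`. -/
noncomputable def El {I : Type} (μ : I → Equiv.Perm V → ℝ) : List I → (Equiv.Perm V → ℝ) → ℝ
  | [], F => F 1
  | i :: l, F => ∑ π, μ i π * El μ l (fun σ => F (π * σ))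

section St

variable {I : Type} [DecidableEq I]

/-- A state: the colour of the particle at each site, the revealed permutation, and for each colour
the law of the hidden permutation of its sites. -/
structure St (V I : Type) [Fintype V] [DecidableEq V] where
  κ : V → Option I
  η : Equiv.Perm V
  q : I → Equiv.Perm V → ℝ

/-- The two sites have the same colour. -/
def hid (s : St V I) (p : V × V) : Prop := s.κ p.1 = s.κ p.2 ∧ s.κ p.1 ≠ none

instance (s : St V I) (p : V × V) : Decidable (hid s p) := by unfold hid; infer_instance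

/-- A ring at `p` with the coin `a.2`; the coin is revealed only if the colours are different. -/
noncomputable def step (s : St V I) (a : (V × V) × Bool) : St V I :=
  if hid s a.1 then
    { s with q := fun i => if s.κ a.1.1 = some i then
        (fun π => (s.q i π + rm (Equiv.swap a.1.1 a.1.2) (s.q i) π) / 2) else s.q i }
  else if a.2 then
    { κ := fun z => s.κ (Equiv.swap a.1.1 a.1.2 z)
      η := s.η * Equiv.swap a.1.1 a.1.2
      q := fun i π => s.q i (Equiv.swap a.1.1 a.1.2 * π * Equiv.swap a.1.1 a.1.2) }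
  else s

/-- The sites of colour `i`. -/
def cls (κ : V → Option I) (i : I) : Finset V := univ.filter fun z => κ z = some i

/-- Invariants of the states. -/
structure Inv (κ₀ : V → Option I) (s : St V I) : Prop where
  law : ∀ i, IsLaw (s.q i)
  supp : ∀ i, SuppIn (cls s.κ i) (s.q i)
  col : ∀ z, s.κ z = κ₀ (s.η z)

/-- The initial state. -/
noncomputable def st0 (κ₀ : V → Option I) : St V I where
  κ := κ₀
  η := 1
  q := fun _ π => if π = 1 then 1 else 0

/-- The expectation of `F` of the permutation, given the revealed information. -/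
noncomputable def val (cs : List I) (s : St V I) (F : Equiv.Perm V → ℝ) : ℝ :=
  El s.q cs (fun π => F (s.η * π))

/-- The step operator of the lazy walk. -/
noncomputable def lz (c : V × V → ℝ) (F : Equiv.Perm V → ℝ) : Equiv.Perm V → ℝ :=
  fun σ => ∑ p, c p * ((F σ + F (σ * Equiv.swap p.1 p.2)) / 2)

/-- One step on functions of the state. -/
noncomputable def TT (c : V × V → ℝ) (Φ : St V I → ℝ) : St V I → ℝ :=
  fun s => ∑ p, c p * ((Φ (step s (p, false)) + Φ (step s (p, true))) / 2)

/-- The sum over all histories with `n` rings. -/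
noncomputable def WW (c : V × V → ℝ) : ℕ → (St V I → ℝ) → St V I → ℝ
  | 0, Φ => Φ
  | n + 1, Φ => TT c (WW c n Φ)

end St

/-- The Poisson weight of `n` rings of total rate `2 tot c` up to time `h`. -/
noncomputable def pw (c : V × V → ℝ) (h : ℝ) (n : ℕ) : ℝ :=
  Real.exp (-(2 * h * Hier.tot c)) * (2 * h) ^ n / n.factorial

end Pool.Agent.Stirring.HC
end
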