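import Pool.Agent.Lib.MP_6c3d62_pr.Mg.G056

section

section

/-! Hidden coins, A1: one ring and the conditional expectation. -/

open Finset

set_option linter.unusedSectionVars false

namespace Pool.Agent.Stirring.HC

variable {V : Type} [Fintype V] [DecidableEq V] {I : Type} [DecidableEq I]

/-! Linearity of `El`. -/

theorem El_add (μ : I → Equiv.Perm V → ℝ) (l : List I) (F G : Equiv.Perm V → ℝ) :
    El μ l (fun σ => F σ + G σ) = El μ l F + El μ l G := by
  induction l generalizing F G with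
  | nil => rfl
  | cons i l ih =>
    unfold El
    rw [← Finset.sum_add_distrib]
    refine Finset.sum_congr rfl fun π _ => ?_
    rw [ih]; ring

theorem El_smul (μ : I → Equiv.Perm V → ℝ) (l : List I) (r : ℝ) (F : Equiv.Perm V → ℝ) :
    El μ l (fun σ => r * F σ) = r * El μ l F := by
  induction l generalizing F with
  | nil => rfl
  | cons i l ih =>
    unfold El
    rw [Finset.mul_sum]
    refine Finset.sum_congr rfl fun π _ => ?_
    rw [ih]; ring

theorem El_zero (μ : I → Equiv.Perm V → ℝ) (l : List I) : El μ l (fun _ => 0) = 0 := by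
  have := El_smul μ l 0 (fun _ => 0)
  simpa using this

theorem El_sum {ι : Type*} (μ : I → Equiv.Perm V → ℝ) (l : List I) (t : Finset ι)
    (F : ι → Equiv.Perm V → ℝ) :
    El μ l (fun σ => ∑ j ∈ t, F j σ) = ∑ j ∈ t, El μ l (F j) := by
  classical
  induction t using Finset.induction_on with
  | empty => simp only [Finset.sum_empty]; exact El_zero μ l
  | insert a t ha ih =>
    simp only [Finset.sum_insert ha]
    rw [El_add, ih]

theorem El_congr {μ ν : I → Equiv.Perm V → ℝ} {l : List I} (h : ∀ i ∈ l, μ i = ν i)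
    (F : Equiv.Perm V → ℝ) : El μ l F = El ν l F := by
  induction l generalizing F with
  | nil => rfl
  | cons i l ih =>
    unfold El
    rw [h i List.mem_cons_self]
    exact Finset.sum_congr rfl fun π _ => by rw [ih fun j hj => h j (List.mem_cons_of_mem _ hj)]

/-- Functions which are constant on a monoid which carries the laws. -/
theorem El_const_on {μ : I → Equiv.Perm V → ℝ} {l : List I} {P : Equiv.Perm V → Prop}
    (hP1 : P 1) (hPm : ∀ σ τ, P σ → P τ → P (σ * τ)) (hl : ∀ i ∈ l, IsLaw (μ i))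
    (hμ : ∀ i ∈ l, ∀ π, μ i π ≠ 0 → P π) {F : Equiv.Perm V → ℝ} {r : ℝ}
    (hF : ∀ σ, P σ → F σ = r) : El μ l F = r := by
  induction l generalizing F with
  | nil => exact hF 1 hP1
  | cons i l ih =>
    unfold El
    have h1 : ∀ π, μ i π * El μ l (fun σ => F (π * σ)) = μ i π * r := by
      intro π
      by_cases h : μ i π = 0
      · rw [h, zero_mul, zero_mul]
      · rw [ih (fun j hj => hl j (List.mem_cons_of_mem _ hj))
          (fun j hj => hμ j (List.mem_cons_of_mem _ hj))
          (fun σ hσ => hF _ (hPm _ _ (hμ i List.mem_cons_self π h) hσ))]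
    rw [Finset.sum_congr rfl fun π _ => h1 π, ← Finset.sum_mul, (hl i List.mem_cons_self).one,
      one_mul]

theorem El_conj_swap (t : Equiv.Perm V) (ht : t * t = 1) (μ : I → Equiv.Perm V → ℝ) (l : List I)
    (F : Equiv.Perm V → ℝ) :
    El (fun i π => μ i (t * π * t)) l F = El μ l (fun π => F (t * π * t)) := by
  have htt : ∀ π : Equiv.Perm V, t * (t * π * t) * t = π := by
    intro π
    calc t * (t * π * t) * t = (t * t) * π * (t * t) := by simp only [mul_assoc]
      _ = π := by rw [ht, one_mul, mul_one]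
  induction l generalizing F with
  | nil => simp [El, ht]
  | cons i l ih =>
    unfold El
    rw [← Equiv.sum_comp ((Equiv.mulLeft t).trans (Equiv.mulRight t))]
    refine Finset.sum_congr rfl fun π _ => ?_
    have h1 : ((Equiv.mulLeft t).trans (Equiv.mulRight t)) π = t * π * t := rfl
    rw [h1, ih, htt]
    congr 1
    have h3 : (fun σ => F (t * π * t * (t * σ * t))) = fun σ => F (t * (π * σ) * t) := by
      funext σ
      congr 1
      calc t * π * t * (t * σ * t) = t * π * (t * t) * σ * t := by simp only [mul_assoc]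
        _ = t * (π * σ) * t := by rw [ht, mul_one]; simp only [mul_assoc]
    rw [h3]

/-- A permutation which commutes with all the hidden ones. -/
theorem El_comm {μ : I → Equiv.Perm V → ℝ} {l : List I} {t : Equiv.Perm V}
    (h : ∀ i ∈ l, ∀ π, μ i π ≠ 0 → t * π = π * t) (F : Equiv.Perm V → ℝ) :
    El μ l (fun σ => F (t * σ)) = El μ l (fun σ => F (σ * t)) := by
  induction l generalizing F with
  | nil => simp [El]
  | cons i l ih =>
    unfold El
    refine Finset.sum_congr rfl fun π _ => ?_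
    by_cases h0 : μ i π = 0
    · rw [h0, zero_mul, zero_mul]
    · have h1 := h i List.mem_cons_self π h0
      have h2 : (fun σ => F (t * (π * σ))) = fun σ => F (π * (t * σ)) := by
        funext σ
        rw [← mul_assoc, h1, mul_assoc]
      rw [h2, ih (fun j hj => h j (List.mem_cons_of_mem _ hj)) (fun σ => F (π * σ))]
      simp only [mul_assoc]

/-- Right multiplication of one law by an involution of its class. -/
theorem El_update_rm {μ : I → Equiv.Perm V → ℝ} {l : List I} (hl : l.Nodup) {i : I} (hi : i ∈ l)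
    {t : Equiv.Perm V} (ht : t * t = 1)
    (h : ∀ j ∈ l, j ≠ i → ∀ π, μ j π ≠ 0 → t * π = π * t) (F : Equiv.Perm V → ℝ) :
    El (Function.update μ i (rm t (μ i))) l F = El μ l (fun σ => F (σ * t)) := by
  induction l generalizing F with
  | nil => exact absurd hi (by simp)
  | cons j l ih =>
    have hl' := List.nodup_cons.mp hl
    unfold El
    rcases eq_or_ne j i with rfl | hne
    · rw [Function.update_self]
      have h1 : ∀ (π : Equiv.Perm V), El (Function.update μ j (rm t (μ j))) l
          (fun σ => F (π * σ)) = El μ l (fun σ => F (π * σ)) := fun π =>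
        El_congr (fun k hk => Function.update_of_ne (fun e : k = j => hl'.1 (e ▸ hk)) _ _) _
      simp only [h1]
      rw [← Equiv.sum_comp (Equiv.mulRight t)]
      refine Finset.sum_congr rfl fun π _ => ?_
      have h2 : (Equiv.mulRight t) π = π * t := rfl
      rw [h2]
      have h3 : rm t (μ j) (π * t) = μ j π := by
        unfold rm
        rw [mul_assoc, ht, mul_one]
      rw [h3]
      congr 1
      have h4 := El_comm (μ := μ) (l := l) (t := t)
        (fun k hk => h k (List.mem_cons_of_mem _ hk) (fun e => hl'.1 (e ▸ hk)))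
        (fun σ => F (π * σ))
      simp only [mul_assoc] at h4 ⊢
      exact h4
    · rw [Function.update_of_ne hne]
      refine Finset.sum_congr rfl fun π _ => ?_
      have hi' : i ∈ l := (List.mem_cons.mp hi).resolve_left (fun e => hne e.symm)
      rw [ih hl'.2 hi' (fun k hk => h k (List.mem_cons_of_mem _ hk))]
      simp only [mul_assoc]

theorem El_update_mid {μ : I → Equiv.Perm V → ℝ} {l : List I} (hl : l.Nodup) {i : I} (hi : i ∈ l)
    (m : Equiv.Perm V → ℝ) (F : Equiv.Perm V → ℝ) :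
    El (Function.update μ i (fun π => (μ i π + m π) / 2)) l F =
      (El μ l F + El (Function.update μ i m) l F) / 2 := by
  induction l generalizing F with
  | nil => exact absurd hi (by simp)
  | cons j l ih =>
    have hl' := List.nodup_cons.mp hl
    unfold El
    rw [← Finset.sum_add_distrib, Finset.sum_div]
    refine Finset.sum_congr rfl fun π _ => ?_
    rcases eq_or_ne j i with rfl | hne
    · rw [Function.update_self, Function.update_self]
      have h1 : ∀ m' : Equiv.Perm V → ℝ, El (Function.update μ j m') l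
          (fun σ => F (π * σ)) = El μ l (fun σ => F (π * σ)) := fun m' =>
        El_congr (fun k hk => Function.update_of_ne (fun e : k = j => hl'.1 (e ▸ hk)) _ _) _
      rw [h1, h1]
      ring
    · rw [Function.update_of_ne hne, Function.update_of_ne hne]
      have hi' : i ∈ l := (List.mem_cons.mp hi).resolve_left (fun e => hne e.symm)
      rw [ih hl'.2 hi']
      ring

/-! States. -/

theorem inv_st0 (κ₀ : V → Option I) : Inv κ₀ (st0 κ₀ : St V I) := by
  refine ⟨fun i => ⟨fun π => ?_, ?_⟩, fun i π hπ z _ => ?_, fun z => rfl⟩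
  · show (0 : ℝ) ≤ if π = 1 then 1 else 0
    split_ifs <;> norm_num
  · show ∑ π : Equiv.Perm V, (if π = 1 then (1 : ℝ) else 0) = 1
    rw [Finset.sum_ite_eq' univ (1 : Equiv.Perm V), if_pos (Finset.mem_univ _)]
  · have h1 : (if π = 1 then (1 : ℝ) else 0) ≠ 0 := hπ
    by_cases h2 : π = 1
    · rw [h2]; rfl
    · rw [if_neg h2] at h1; exact absurd rfl h1

theorem mem_cls {κ : V → Option I} {i : I} {z : V} : z ∈ cls κ i ↔ κ z = some i := by
  simp [cls]

theorem Inv.step {κ₀ : V → Option I} {s : St V I} (h : Inv κ₀ s) (a : (V × V) × Bool) :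
    Inv κ₀ (step s a) := by
  unfold HC.step
  split_ifs with h1 h2
  · refine ⟨fun i => ?_, fun i => ?_, h.col⟩
    · show IsLaw (if s.κ a.1.1 = some i then _ else s.q i)
      split_ifs with h3
      · have h4 := rm_law (h.law i) (Equiv.swap a.1.1 a.1.2)
        refine ⟨fun π => ?_, ?_⟩
        · have := (h.law i).nn π
          have := h4.nn π
          show 0 ≤ (s.q i π + rm (Equiv.swap a.1.1 a.1.2) (s.q i) π) / 2
          linarith
        · rw [← Finset.sum_div, Finset.sum_add_distrib, (h.law i).one, h4.one]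
          norm_num
      · exact h.law i
    · show SuppIn (cls s.κ i) (if s.κ a.1.1 = some i then _ else s.q i)
      split_ifs with h3
      · intro π hπ z hz
        have h4 : s.q i π ≠ 0 ∨ s.q i (π * Equiv.swap a.1.1 a.1.2) ≠ 0 := by
          by_contra hcon
          push Not at hcon
          refine hπ ?_
          show (s.q i π + s.q i (π * Equiv.swap a.1.1 a.1.2)) / 2 = 0
          rw [hcon.1, hcon.2]; norm_num
        rcases h4 with h4 | h4
        · exact h.supp i π h4 z hz
        · have h5 := h.supp i _ h4 z hz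
          rw [Equiv.Perm.mul_apply, Equiv.swap_apply_of_ne_of_ne] at h5
          · exact h5
          · rintro rfl
            exact hz (mem_cls.mpr h3)
          · rintro rfl
            exact hz (mem_cls.mpr (h1.1 ▸ h3))
      · exact h.supp i
  · refine ⟨fun i => ?_, fun i => ?_, fun z => ?_⟩
    · refine ⟨fun π => (h.law i).nn _, ?_⟩
      rw [← (h.law i).one]
      exact Equiv.sum_comp ((Equiv.mulLeft (Equiv.swap a.1.1 a.1.2)).trans
        (Equiv.mulRight (Equiv.swap a.1.1 a.1.2))) (s.q i)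
    · intro π hπ z hz
      have h3 : Equiv.swap a.1.1 a.1.2 z ∉ cls s.κ i := by
        intro h4
        have h5 : s.κ (Equiv.swap a.1.1 a.1.2 z) = some i := mem_cls.mp h4
        exact hz (mem_cls.mpr h5)
      have h4 := h.supp i _ hπ _ h3
      rw [Equiv.Perm.mul_apply, Equiv.Perm.mul_apply, Equiv.swap_apply_self] at h4
      exact (Equiv.swap a.1.1 a.1.2).injective h4
    · show s.κ (Equiv.swap a.1.1 a.1.2 z) = κ₀ ((s.η * Equiv.swap a.1.1 a.1.2) z)
      rw [h.col, Equiv.Perm.mul_apply]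
  · exact h

theorem val_st0 (κ₀ : V → Option I) (cs : List I) (F : Equiv.Perm V → ℝ) :
    val cs (st0 κ₀ : St V I) F = F 1 := by
  have h0 := inv_st0 (I := I) κ₀
  unfold val
  refine El_const_on (P := fun σ => σ = 1) rfl (fun σ τ h1 h2 => by rw [h1, h2, mul_one])
    (fun i _ => h0.law i) (fun i _ π hπ => ?_) (fun σ hσ => ?_)
  · by_contra h2
    have h1 : (if π = 1 then (1 : ℝ) else 0) ≠ 0 := hπ
    rw [if_neg h2] at h1
    exact h1 rfl
  · rw [hσ]; rfl

theorem swap_comm_of_supp {C : Finset V} {π : Equiv.Perm V} (hπ : ∀ z, z ∉ C → π z = z) {x y : V}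
    (hx : x ∉ C) (hy : y ∉ C) : Equiv.swap x y * π = π * Equiv.swap x y := by
  have h1 : π * Equiv.swap x y * π⁻¹ = Equiv.swap (π x) (π y) :=
    (Equiv.swap_apply_apply π x y).symm
  rw [hπ x hx, hπ y hy, mul_inv_eq_iff_eq_mul] at h1
  exact h1.symm

/-- The two coins together are the lazy step. -/
theorem val_step {κ₀ : V → Option I} {s : St V I} (h : Inv κ₀ s) {cs : List I} (hcs : cs.Nodup)
    (hc : ∀ i z, s.κ z = some i → i ∈ cs) (F : Equiv.Perm V → ℝ) (p : V × V) :
    (val cs (step s (p, false)) F + val cs (step s (p, true)) F) / 2 =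
      (val cs s F + val cs s (fun σ => F (σ * Equiv.swap p.1 p.2))) / 2 := by
  have htt : Equiv.swap p.1 p.2 * Equiv.swap p.1 p.2 = 1 := Equiv.swap_mul_self _ _
  by_cases h1 : hid s p
  · obtain ⟨i, hi⟩ : ∃ i, s.κ p.1 = some i := Option.ne_none_iff_exists'.mp h1.2
    have hi2 : s.κ p.2 = some i := h1.1 ▸ hi
    have hs : ∀ b : Bool, val cs (step s (p, b)) F =
        El (Function.update s.q i (fun π => (s.q i π + rm (Equiv.swap p.1 p.2) (s.q i) π) / 2)) cs
          (fun π => F (s.η * π)) := by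
      intro b
      have h2 : step s (p, b) = { s with q := fun j => if s.κ p.1 = some j then
        (fun π => (s.q j π + rm (Equiv.swap p.1 p.2) (s.q j) π) / 2) else s.q j } := by
        unfold step
        exact if_pos h1
      rw [h2]
      unfold val
      refine El_congr (fun j _ => ?_) _
      show (if s.κ p.1 = some j then _ else s.q j) = _
      rw [hi]
      rcases eq_or_ne j i with rfl | hne
      · rw [if_pos rfl, Function.update_self]
      · rw [if_neg (fun e => hne (Option.some.inj e).symm), Function.update_of_ne hne]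
    rw [hs, hs, El_update_mid hcs (hc i p.1 hi), El_update_rm hcs (hc i p.1 hi) htt]
    · unfold val
      simp only [mul_assoc]
      ring
    · intro j _ hji π hπ
      refine swap_comm_of_supp (h.supp j π hπ) ?_ ?_
      · rw [mem_cls, hi]
        exact fun e => hji (Option.some.inj e).symm
      · rw [mem_cls, hi2]
        exact fun e => hji (Option.some.inj e).symm
  · have h2 : step s (p, false) = s := by
      unfold step
      rw [if_neg h1]
      simp
    have h3 : step s (p, true) = { κ := fun z => s.κ (Equiv.swap p.1 p.2 z)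
                                   η := s.η * Equiv.swap p.1 p.2
                                   q := fun i π => s.q i (Equiv.swap p.1 p.2 * π *
                                     Equiv.swap p.1 p.2) } := by
      unfold step
      rw [if_neg h1]
      simp
    rw [h2, h3]
    congr 2
    unfold val
    show El (fun i π => s.q i (Equiv.swap p.1 p.2 * π * Equiv.swap p.1 p.2)) cs
      (fun π => F (s.η * Equiv.swap p.1 p.2 * π)) = _
    rw [El_conj_swap _ htt]
    congr 1
    funext π
    congr 1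
    calc s.η * Equiv.swap p.1 p.2 * (Equiv.swap p.1 p.2 * π * Equiv.swap p.1 p.2)
        = s.η * (Equiv.swap p.1 p.2 * Equiv.swap p.1 p.2) * π * Equiv.swap p.1 p.2 := by
          simp only [mul_assoc]
      _ = s.η * π * Equiv.swap p.1 p.2 := by rw [htt, mul_one]

theorem val_lz {κ₀ : V → Option I} {s : St V I} (h : Inv κ₀ s) {cs : List I} (hcs : cs.Nodup)
    (hc : ∀ i z, κ₀ z = some i → i ∈ cs) (c : V × V → ℝ) (F : Equiv.Perm V → ℝ) :
    val cs s (lz c F) = TT c (fun s' => val cs s' F) s := by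
  have hc' : ∀ i z, s.κ z = some i → i ∈ cs := fun i z hz => hc i (s.η z) (by rw [← h.col]; exact hz)
  unfold TT
  have h1 : ∀ p, c p * ((val cs (step s (p, false)) F + val cs (step s (p, true)) F) / 2) =
      El s.q cs (fun π => c p * (1 / 2 * (F (s.η * π) + F (s.η * π * Equiv.swap p.1 p.2)))) := by
    intro p
    rw [val_step h hcs hc' F p, El_smul, El_smul, El_add]
    unfold val
    ring
  rw [Finset.sum_congr rfl fun p _ => h1 p, ← El_sum]
  unfold val lz
  congr 1
  funext π
  exact Finset.sum_congr rfl fun p _ => by ring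

theorem TT_congr {κ₀ : V → Option I} {c : V × V → ℝ} {Φ Ψ : St V I → ℝ}
    (h : ∀ s, Inv κ₀ s → Φ s = Ψ s) {s : St V I} (hs : Inv κ₀ s) : TT c Φ s = TT c Ψ s := by
  unfold TT
  exact Finset.sum_congr rfl fun p _ => by rw [h _ (hs.step _), h _ (hs.step _)]

theorem val_WW {κ₀ : V → Option I} {s : St V I} (h : Inv κ₀ s) {cs : List I} (hcs : cs.Nodup)
    (hc : ∀ i z, κ₀ z = some i → i ∈ cs) (c : V × V → ℝ) (F : Equiv.Perm V → ℝ) (n : ℕ) :
    val cs s ((lz c)^[n] F) = WW c n (fun s' => val cs s' F) s := by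
  induction n generalizing s with
  | zero => rfl
  | succ n ih =>
    rw [Function.iterate_succ_apply', val_lz h hcs hc]
    exact TT_congr (fun s' hs' => ih hs') h

/-- The colour at a site is a function of the permutation. -/
theorem val_col {κ₀ : V → Option I} {s : St V I} (h : Inv κ₀ s) (cs : List I) (z : V)
    (f : Option I → ℝ) : val cs s (fun σ => f (κ₀ (σ z))) = f (s.κ z) := by
  unfold val
  refine El_const_on (P := fun σ => ∀ z, s.κ (σ z) = s.κ z) (fun z => rfl)
    (fun σ τ h1 h2 z => by rw [Equiv.Perm.mul_apply, h1, h2]) (fun i _ => h.law i)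
    (fun i _ π hπ z => ?_) (fun σ hσ => ?_)
  · by_cases hz : z ∈ cls s.κ i
    · have : π z ∈ cls s.κ i := by
        by_contra hcon
        have h4 := h.supp i π hπ (π z) hcon
        rw [π.injective h4] at hcon
        exact hcon hz
      rw [mem_cls.mp hz, mem_cls.mp this]
    · rw [h.supp i π hπ z hz]
  · show f (κ₀ ((s.η * σ) z)) = f (s.κ z)
    rw [Equiv.Perm.mul_apply, ← h.col, hσ]

/-- Monotonicity on the reachable states. -/
theorem WW_mono {κ₀ : V → Option I} {c : V × V → ℝ} (hc : ∀ p, 0 ≤ c p) {Φ Ψ : St V I → ℝ}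
    (h : ∀ s, Inv κ₀ s → Φ s ≤ Ψ s) (n : ℕ) {s : St V I} (hs : Inv κ₀ s) :
    WW c n Φ s ≤ WW c n Ψ s := by
  induction n generalizing s with
  | zero => exact h s hs
  | succ n ih =>
    show TT c _ s ≤ TT c _ s
    unfold TT
    refine Finset.sum_le_sum fun p _ => mul_le_mul_of_nonneg_left ?_ (hc p)
    have h1 := ih (hs.step (p, false))
    have h2 := ih (hs.step (p, true))
    linarith

theorem WW_const (c : V × V → ℝ) (r : ℝ) (n : ℕ) (s : St V I) :
    WW c n (fun _ => r) s = r * Hier.tot c ^ n := by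
  induction n generalizing s with
  | zero => simp [WW]
  | succ n ih =>
    show TT c _ s = _
    unfold TT
    simp only [ih]
    rw [← Finset.sum_mul]
    unfold Hier.tot
    ring

theorem WW_add (c : V × V → ℝ) (Φ Ψ : St V I → ℝ) (n : ℕ) (s : St V I) :
    WW c n (fun s => Φ s + Ψ s) s = WW c n Φ s + WW c n Ψ s := by
  induction n generalizing s with
  | zero => rfl
  | succ n ih =>
    show TT c _ s = TT c _ s + TT c _ s
    unfold TT
    rw [← Finset.sum_add_distrib]
    refine Finset.sum_congr rfl fun p _ => ?_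
    rw [ih, ih]; ring

theorem WW_smul (c : V × V → ℝ) (r : ℝ) (Φ : St V I → ℝ) (n : ℕ) (s : St V I) :
    WW c n (fun s => r * Φ s) s = r * WW c n Φ s := by
  induction n generalizing s with
  | zero => rfl
  | succ n ih =>
    show TT c _ s = r * TT c _ s
    unfold TT
    rw [Finset.mul_sum]
    refine Finset.sum_congr rfl fun p _ => ?_
    rw [ih, ih]; ring

theorem WW_sum {ι : Type*} (c : V × V → ℝ) (t : Finset ι) (Φ : ι → St V I → ℝ) (n : ℕ)
    (s : St V I) : WW c n (fun s => ∑ j ∈ t, Φ j s) s = ∑ j ∈ t, WW c n (Φ j) s := by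
  classical
  induction t using Finset.induction_on with
  | empty =>
    simp only [Finset.sum_empty]
    rw [WW_const, zero_mul]
  | insert a t ha ih =>
    simp only [Finset.sum_insert ha]
    rw [WW_add, ih]

theorem WW_succ' (c : V × V → ℝ) (Φ : St V I → ℝ) (n : ℕ) (s : St V I) :
    WW c n (TT c Φ) s = WW c (n + 1) Φ s := by
  induction n generalizing s with
  | zero => rfl
  | succ n ih =>
    show TT c (WW c n (TT c Φ)) s = TT c (WW c (n + 1) Φ) s
    congr 1
    funext s'
    exact ih s'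

end Pool.Agent.Stirring.HC
end

section

/-! Hidden coins, A2: the entropy of the hidden permutations increases at each hidden ring. -/

open Finset

set_option linter.unusedSectionVars false

namespace Pool.Agent.Stirring.HC

variable {V : Type} [Fintype V] [DecidableEq V] {I : Type} [DecidableEq I]

/-- The total entropy. -/
noncomputable def GG (cs : List I) (s : St V I) : ℝ := (cs.map fun i => ent (s.q i)).sum

/-- The roughness of the law of the hidden permutations at the pair `p`. -/
noncomputable def dd (s : St V I) (p : V × V) : ℝ :=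
  match s.κ p.1 with
  | some i => if s.κ p.2 = some i then tv (s.q i) (rm (Equiv.swap p.1 p.2) (s.q i)) ^ 2 else 0
  | none => 0

theorem dd_nonneg (s : St V I) (p : V × V) : 0 ≤ dd s p := by
  unfold dd
  split
  · split_ifs
    · positivity
    · exact le_rfl
  · exact le_rfl

theorem dd_le_one {κ₀ : V → Option I} {s : St V I} (h : Inv κ₀ s) (p : V × V) : dd s p ≤ 1 := by
  unfold dd
  split
  · next i hi =>
    split_ifs
    · have h1 := rm_law (h.law i) (Equiv.swap p.1 p.2)
      have h2 := tv_le_one (h.law i).nn h1.nn (h.law i).one h1.one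
      have h3 := tv_nonneg (s.q i) (rm (Equiv.swap p.1 p.2) (s.q i))
      nlinarith
    · norm_num
  · norm_num

theorem GG_nonneg {κ₀ : V → Option I} {s : St V I} (h : Inv κ₀ s) (cs : List I) :
    0 ≤ GG cs s := by
  unfold GG
  refine List.sum_nonneg fun x hx => ?_
  obtain ⟨i, -, rfl⟩ := List.mem_map.1 hx
  exact ent_nonneg (h.law i).nn (h.law i).one

/-- `ent ≤ |C| log |V|` for each class, and the classes are disjoint. -/
theorem GG_le {κ₀ : V → Option I} {s : St V I} (h : Inv κ₀ s) {cs : List I} (hcs : cs.Nodup) :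
    GG cs s ≤ Fintype.card V * Real.log (Fintype.card V) := by
  have h0 : 0 ≤ Real.log (Fintype.card V : ℝ) := Real.log_natCast_nonneg _
  unfold GG
  rw [← List.sum_toFinset _ hcs]
  have h1 : ∑ i ∈ cs.toFinset, ent (s.q i) ≤
      ∑ i ∈ cs.toFinset, ((cls s.κ i).card : ℝ) * Real.log (Fintype.card V) :=
    Finset.sum_le_sum fun i _ => ent_le_supp (h.law i) (h.supp i)
  refine h1.trans ?_
  rw [← Finset.sum_mul]
  refine mul_le_mul_of_nonneg_right ?_ h0
  have h2 : (cs.toFinset.biUnion fun i => cls s.κ i).card = ∑ i ∈ cs.toFinset, (cls s.κ i).card := by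
    refine Finset.card_biUnion fun i _ j _ hij => ?_
    show Disjoint (cls s.κ i) (cls s.κ j)
    rw [Finset.disjoint_left]
    intro z hz hz'
    unfold cls at hz hz'
    simp only [Finset.mem_filter, Finset.mem_univ, true_and] at hz hz'
    rw [hz] at hz'
    exact hij (Option.some.inj hz')
  have h3 : (cs.toFinset.biUnion fun i => cls s.κ i).card ≤ Fintype.card V := Finset.card_le_univ _
  rw [h2] at h3
  exact_mod_cast h3

theorem a2_sum_le {f g : I → ℝ} {cs : List I} (h : ∀ i, g i ≤ f i) {i : I} (hi : i ∈ cs) {δ : ℝ}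
    (hδ : g i + δ ≤ f i) : (cs.map g).sum + δ ≤ (cs.map f).sum := by
  have hall : ∀ l : List I, (l.map g).sum ≤ (l.map f).sum := by
    intro l
    induction l with
    | nil => simp
    | cons a l ih => simp only [List.map_cons, List.sum_cons]; exact add_le_add (h a) ih
  induction cs with
  | nil => exact absurd hi List.not_mem_nil
  | cons a l ih =>
    simp only [List.map_cons, List.sum_cons]
    by_cases hai : i = a
    · subst hai
      have := hall l
      linarith
    · have h1 := ih ((List.mem_cons.1 hi).resolve_left hai)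
      have := h a
      linarith

theorem GG_step {κ₀ : V → Option I} {s : St V I} (h : Inv κ₀ s) {cs : List I} (hcs : cs.Nodup)
    (hc : ∀ i z, κ₀ z = some i → i ∈ cs) (p : V × V) :
    GG cs s + dd s p / 2 ≤ (GG cs (step s (p, false)) + GG cs (step s (p, true))) / 2 := by
  by_cases hh : hid s p
  · have e1 : step s (p, false) = step s (p, true) := by
      unfold step
      simp only [if_pos hh]
    obtain ⟨i, hi⟩ := Option.ne_none_iff_exists'.1 hh.2
    have hi2 : s.κ p.2 = some i := hh.1 ▸ hi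
    have hics : i ∈ cs := hc i (s.η p.1) (by rw [← h.col]; exact hi)
    have hd : dd s p = tv (s.q i) (rm (Equiv.swap p.1 p.2) (s.q i)) ^ 2 := by
      unfold dd
      rw [hi]
      simp only [hi2, if_true]
    have e2 : GG cs s + dd s p / 2 ≤ GG cs (step s (p, true)) := by
      unfold GG
      refine a2_sum_le (fun j => ?_) hics ?_
      · unfold step
        simp only [if_pos hh]
        by_cases hj : s.κ p.1 = some j
        · rw [if_pos hj]
          have h1 := ent_step_rm (h.law j) (Equiv.swap p.1 p.2)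
          have h2 : 0 ≤ tv (s.q j) (rm (Equiv.swap p.1 p.2) (s.q j)) ^ 2 / 2 := by positivity
          linarith
        · rw [if_neg hj]
      · unfold step
        simp only [if_pos hh, if_pos hi]
        rw [hd]
        exact ent_step_rm (h.law i) (Equiv.swap p.1 p.2)
    rw [e1]
    linarith
  · have hd : dd s p = 0 := by
      unfold dd
      split
      · next i hi =>
        rw [if_neg]
        intro h2
        exact hh ⟨hi.trans h2.symm, by rw [hi]; exact Option.some_ne_none i⟩
      · rfl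
    have e1 : GG cs (step s (p, false)) = GG cs s := by
      unfold step
      simp only [if_neg hh, Bool.false_eq_true, if_false]
    have e2 : GG cs (step s (p, true)) = GG cs s := by
      unfold step GG
      simp only [if_neg hh, if_true]
      congr 1
      refine List.map_congr_left fun j _ => ?_
      exact ent_conj (s.q j) (Equiv.swap p.1 p.2)
    rw [hd, e1, e2]
    linarith

theorem TT_GG {κ₀ : V → Option I} {s : St V I} (h : Inv κ₀ s) {cs : List I} (hcs : cs.Nodup)
    (hc : ∀ i z, κ₀ z = some i → i ∈ cs) {c : V × V → ℝ} (hc0 : ∀ p, 0 ≤ c p) :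
    Hier.tot c * GG cs s + (∑ p, c p * dd s p) / 2 ≤ TT c (GG cs) s := by
  unfold TT Hier.tot
  rw [Finset.sum_mul, Finset.sum_div, ← Finset.sum_add_distrib]
  refine Finset.sum_le_sum fun p _ => ?_
  have h1 := mul_le_mul_of_nonneg_left (GG_step h hcs hc p) (hc0 p)
  linarith

/-- The increments of the entropy control the roughness. -/
theorem WW_dd {κ₀ : V → Option I} {s : St V I} (h : Inv κ₀ s) {cs : List I} (hcs : cs.Nodup)
    (hc : ∀ i z, κ₀ z = some i → i ∈ cs) {c : V × V → ℝ} (hc0 : ∀ p, 0 ≤ c p) (n : ℕ) :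
    Hier.tot c * WW c n (GG cs) s + WW c n (fun s => ∑ p, c p * dd s p) s / 2 ≤
      WW c (n + 1) (GG cs) s := by
  rw [← WW_succ']
  have h1 := WW_mono hc0 (Φ := fun s => Hier.tot c * GG cs s + (1 / 2) * ∑ p, c p * dd s p)
    (Ψ := TT c (GG cs)) (κ₀ := κ₀) (fun s' hs' => by
      have := TT_GG hs' hcs hc hc0
      linarith) n h
  rw [WW_add c (fun s => Hier.tot c * GG cs s) (fun s => (1 / 2) * ∑ p, c p * dd s p), WW_smul,
    WW_smul c (1 / 2) (fun s => ∑ p, c p * dd s p)] at h1
  linarith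

end Pool.Agent.Stirring.HC
end
end

section

section

/-! Hidden coins, A3: the semigroup as a Poisson mixture of the lazy walk; the choice of the
time. -/

open Finset Filter

set_option linter.unusedSectionVars false

namespace Pool.Agent.Stirring.HC

variable {V : Type} [Fintype V] [DecidableEq V]

/-- The lazy step as an operator. -/
noncomputable def lzT (c : V × V → ℝ) : Hier.Op V :=
  (1 / 2 : ℝ) • (Hier.tot c • (1 : Hier.Op V) + Hier.stepT c)

theorem lzT_apply (c : V × V → ℝ) (F : Equiv.Perm V → ℝ) : lzT c F = lz c F := by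
  funext σ
  have h : lzT c F σ = (1 / 2 : ℝ) * (Hier.tot c * F σ + Hier.stepT c F σ) := rfl
  rw [h, Hier.stepT_apply, Hier.tot, Finset.sum_mul, ← Finset.sum_add_distrib, Finset.mul_sum]
  exact Finset.sum_congr rfl fun p _ => by ring

theorem lzT_pow (c : V × V → ℝ) (n : ℕ) (F : Equiv.Perm V → ℝ) :
    (lzT c ^ n) F = (lz c)^[n] F := by
  induction n generalizing F with
  | zero => rfl
  | succ n ih =>
    rw [pow_succ, Function.iterate_succ_apply, ← lzT_apply, ← ih]
    rfl

/-- PROOF: `gen c = 2 • lz c - 2 tot c • 1`; as `sg_hasSum`. -/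
theorem sg_lz (c : V × V → ℝ) (h : ℝ) (F : Equiv.Perm V → ℝ) (σ : Equiv.Perm V) :
    HasSum (fun n => pw c h n * ((lz c)^[n] F) σ) (Hier.sg c h F σ) := by
  have h1 : h • Hier.gen c = (2 * h) • lzT c + (-(2 * h * Hier.tot c)) • (1 : Hier.Op V) := by
    unfold Hier.gen lzT
    module
  have h2 : Hier.sg c h = Real.exp (-(2 * h * Hier.tot c)) •
      NormedSpace.exp ((2 * h) • lzT c) := by
    unfold Hier.sg
    rw [h1, NormedSpace.exp_add_of_commute (Commute.smul_right (Commute.one_right _) _),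
      Hier.exp_smul_one, mul_smul_comm, mul_one]
  have h3 := (NormedSpace.exp_series_hasSum_exp' (𝕂 := ℝ) ((2 * h) • lzT c)).mapL (Hier.ev F σ)
  have h4 := h3.mul_left (Real.exp (-(2 * h * Hier.tot c)))
  have h5 : Hier.sg c h F σ = Real.exp (-(2 * h * Hier.tot c)) *
      Hier.ev F σ (NormedSpace.exp ((2 * h) • lzT c)) := by
    rw [h2]; rfl
  rw [h5]
  refine h4.congr_fun ?_ |> fun h => h
  intro n
  rw [smul_pow, ← smul_assoc, map_smul, Hier.ev_apply, smul_eq_mul, smul_eq_mul, lzT_pow]
  unfold pw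
  rw [div_eq_inv_mul]
  ring

theorem pw_nonneg {c : V × V → ℝ} (_hc : ∀ p, 0 ≤ c p) {h : ℝ} (hh : 0 ≤ h) (n : ℕ) :
    0 ≤ pw c h n := by
  unfold pw
  positivity

theorem hasSum_pois (x : ℝ) : HasSum (fun n : ℕ => Real.exp (-x) * x ^ n / n.factorial) 1 := by
  have h1 : HasSum (fun n : ℕ => x ^ n / n.factorial) (Real.exp x) := by
    have := NormedSpace.expSeries_div_hasSum_exp (𝔸 := ℝ) x
    rwa [← Real.exp_eq_exp_ℝ] at this
  have h2 := h1.mul_left (Real.exp (-x))
  rw [← Real.exp_add, neg_add_cancel, Real.exp_zero] at h2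
  refine h2.congr_fun ?_ |> fun h => h
  intro n
  rw [mul_div_assoc]

theorem pw_hasSum (c : V × V → ℝ) (h : ℝ) :
    HasSum (fun n => pw c h n * Hier.tot c ^ n) 1 := by
  have h1 := hasSum_pois (2 * h * Hier.tot c)
  refine h1.congr_fun ?_ |> fun h => h
  intro n
  unfold pw
  rw [mul_pow]
  ring

theorem lz_pow_nonneg {c : V × V → ℝ} (hc : ∀ p, 0 ≤ c p) {F : Equiv.Perm V → ℝ}
    (hF : ∀ σ, 0 ≤ F σ) (n : ℕ) : ∀ σ, 0 ≤ ((lz c)^[n] F) σ := by
  induction n generalizing F with
  | zero => exact hF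
  | succ n ih =>
    intro σ
    rw [Function.iterate_succ_apply]
    refine ih (fun τ => ?_) σ
    exact Finset.sum_nonneg fun p _ => mul_nonneg (hc p)
      (div_nonneg (add_nonneg (hF _) (hF _)) (by norm_num))

theorem lz_pow_one (c : V × V → ℝ) (n : ℕ) (σ : Equiv.Perm V) :
    ((lz c)^[n] fun _ => (1 : ℝ)) σ = Hier.tot c ^ n := by
  have h1 : ∀ r : ℝ, lz c (fun _ => r) = fun _ => Hier.tot c * r := by
    intro r
    funext τ
    unfold lz Hier.tot
    rw [Finset.sum_mul]
    exact Finset.sum_congr rfl fun p _ => by ring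
  have h2 : ∀ (n : ℕ) (r : ℝ), ((lz c)^[n] fun _ => r) = fun _ => Hier.tot c ^ n * r := by
    intro n
    induction n with
    | zero => intro r; simp
    | succ n ih =>
      intro r
      rw [Function.iterate_succ_apply, h1, ih]
      funext _
      ring
  rw [h2, mul_one]

/-- The tail of the mixture is a positive functional. PROOF: take `F` = indicator of `π`. -/
theorem sg_tail {c : V × V → ℝ} (hc : ∀ p, 0 ≤ c p) {h : ℝ} (hh : 0 ≤ h) (M : ℕ) :
    ∃ b : Equiv.Perm V → ℝ, (∀ π, 0 ≤ b π) ∧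
      (∀ F : Equiv.Perm V → ℝ, Hier.sg c h F 1 =
        (∑ n ∈ range M, pw c h n * ((lz c)^[n] F) 1) + ∑ π, b π * F π) ∧
      ∑ π, b π = 1 - ∑ n ∈ range M, pw c h n * Hier.tot c ^ n := by
  classical
  set δ : Equiv.Perm V → Equiv.Perm V → ℝ := fun π => Pi.single π 1 with hδ
  have hδ0 : ∀ π σ, 0 ≤ δ π σ := by
    intro π σ
    simp only [hδ, Pi.single_apply]
    split_ifs <;> norm_num
  set b : Equiv.Perm V → ℝ := fun π => Hier.sg c h (δ π) 1 -
    ∑ n ∈ range M, pw c h n * ((lz c)^[n] (δ π)) 1 with hb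
  have hb0 : ∀ π, 0 ≤ b π := by
    intro π
    have h1 := sum_le_hasSum (range M) (fun n _ => mul_nonneg (pw_nonneg hc hh n)
      (lz_pow_nonneg hc (hδ0 π) n 1)) (sg_lz c h (δ π) 1)
    simp only [hb]
    linarith
  have hF : ∀ F : Equiv.Perm V → ℝ, Hier.sg c h F 1 =
      (∑ n ∈ range M, pw c h n * ((lz c)^[n] F) 1) + ∑ π, b π * F π := by
    intro F
    have h1 : F = ∑ π, F π • δ π := by
      funext σ
      rw [Finset.sum_apply]
      simp [hδ, Pi.single_apply]
    have h2 : ∀ T : Hier.Op V, T F 1 = ∑ π, F π * T (δ π) 1 := by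
      intro T
      conv_lhs => rw [h1]
      rw [map_sum, Finset.sum_apply]
      refine Finset.sum_congr rfl fun π _ => ?_
      rw [map_smul]
      rfl
    have h3 : ∑ n ∈ range M, pw c h n * ((lz c)^[n] F) 1 =
        ∑ π, F π * ∑ n ∈ range M, pw c h n * ((lz c)^[n] (δ π)) 1 := by
      simp only [Finset.mul_sum]
      rw [Finset.sum_comm]
      refine Finset.sum_congr rfl fun n _ => ?_
      rw [← lzT_pow, h2 (lzT c ^ n), Finset.mul_sum]
      refine Finset.sum_congr rfl fun π _ => ?_
      rw [lzT_pow]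
      ring
    rw [h2, h3, ← Finset.sum_add_distrib]
    refine Finset.sum_congr rfl fun π _ => ?_
    simp only [hb]
    ring
  refine ⟨b, hb0, hF, ?_⟩
  have h1 := hF (fun _ => 1)
  rw [Hier.sg_const] at h1
  simp only [mul_one, lz_pow_one] at h1
  linarith

/-- The tail of the exponential series. -/
theorem hasSum_tail (x : ℝ) (M : ℕ) : HasSum (fun n : ℕ => x ^ (n + M) / (n + M).factorial)
    (Real.exp x - ∑ n ∈ range M, x ^ n / n.factorial) := by
  have h1 : HasSum (fun n : ℕ => x ^ n / n.factorial) (Real.exp x) := by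
    have := NormedSpace.expSeries_div_hasSum_exp (𝔸 := ℝ) x
    rwa [← Real.exp_eq_exp_ℝ] at this
  exact (hasSum_nat_add_iff' M).2 h1

/-- The choice of the time. PROOF: `f h = ∑_{n < M} P_h(n) g n` with `P_h(n) = e^(-λh) (λh)^n / n!`;
`f' h = λ ∑_{n < M - 1} P_h(n) (g (n+1) - g n) - λ P_h(M-1) g (M-1)`; the mean value theorem on
`[h₀/2, h₀]`; `P_h(n)` tends to `0` uniformly for `h ≤ h₀`. -/
theorem exists_time {g : ℕ → ℝ} {B lam h₀ δ : ℝ} (hlam : 0 < lam) (hh : 0 < h₀) (hδ : 0 < δ)
    (hg : ∀ n, 0 ≤ g n ∧ g n ≤ B) : ∃ M : ℕ, ∃ h : ℝ, h₀ / 2 ≤ h ∧ h ≤ h₀ ∧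
      lam * ∑ n ∈ range M, Real.exp (-(lam * h)) * (lam * h) ^ n / n.factorial *
        (g (n + 1) - g n) ≤ 2 * B / h₀ + δ ∧
      1 - δ ≤ ∑ n ∈ range M, Real.exp (-(lam * h)) * (lam * h) ^ n / n.factorial := by
  have hB : 0 ≤ B := (hg 0).1.trans (hg 0).2
  set X : ℝ := lam * h₀ with hX
  have hX0 : 0 < X := mul_pos hlam hh
  -- the number `K` of terms
  have hser : HasSum (fun n : ℕ => X ^ n / n.factorial) (Real.exp X) := by
    have := NormedSpace.expSeries_div_hasSum_exp (𝔸 := ℝ) X
    rwa [← Real.exp_eq_exp_ℝ] at this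
  have h1 : ∀ᶠ K : ℕ in atTop, lam * B * (X ^ K / K.factorial) < δ := by
    have h2 := (hser.summable.tendsto_atTop_zero.const_mul (lam * B))
    rw [mul_zero] at h2
    exact h2.eventually (gt_mem_nhds hδ)
  have h2 : ∀ᶠ K : ℕ in atTop, Real.exp X - δ <
      ∑ n ∈ range (K + 1), X ^ n / n.factorial := by
    have h3 := (hser.tendsto_sum_nat.comp (tendsto_add_atTop_nat 1)).eventually
      (lt_mem_nhds (show Real.exp X - δ < Real.exp X by linarith))
    exact h3
  obtain ⟨K, hK1, hK2⟩ := (h1.and h2).exists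
  set P : ℕ → ℝ → ℝ := fun n h => Real.exp (-(lam * h)) * (lam * h) ^ n / n.factorial with hP
  have hP0 : ∀ n h, 0 ≤ h → 0 ≤ P n h := by
    intro n h hh
    simp only [hP]
    positivity
  have hlin : ∀ h : ℝ, HasDerivAt (fun h : ℝ => lam * h) lam h := by
    intro h
    simpa using (hasDerivAt_id h).const_mul lam
  have hexp : ∀ h : ℝ, HasDerivAt (fun h : ℝ => Real.exp (-(lam * h)))
      (-lam * Real.exp (-(lam * h))) h := by
    intro h
    have := (hlin h).fun_neg.exp
    refine this.congr_deriv ?_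
    ring
  set Q : ℕ → ℝ → ℝ := fun n h => match n with
    | 0 => 0
    | m + 1 => P m h with hQ
  have hPd : ∀ n h, HasDerivAt (P n) (lam * (Q n h - P n h)) h := by
    intro n h
    have h3 := ((hexp h).fun_mul ((hlin h).fun_pow n)).div_const (n.factorial : ℝ)
    refine h3.congr_deriv ?_
    cases n with
    | zero =>
      simp only [hQ, hP]
      simp
    | succ m =>
      simp only [hQ, hP, Nat.factorial_succ, Nat.cast_mul, Nat.add_sub_cancel]
      have h4 : (m.factorial : ℝ) ≠ 0 := Nat.cast_ne_zero.2 (Nat.factorial_ne_zero m)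
      have h5 : ((m + 1 : ℕ) : ℝ) ≠ 0 := Nat.cast_ne_zero.2 (Nat.succ_ne_zero m)
      field_simp
      ring
  set f : ℝ → ℝ := fun h => ∑ n ∈ range (K + 1), P n h * g n with hf
  have hfd : ∀ h, HasDerivAt f (∑ n ∈ range (K + 1), lam * (Q n h - P n h) * g n) h := by
    intro h
    exact HasDerivAt.fun_sum fun n _ => (hPd n h).mul_const (g n)
  have hmvt := exists_hasDerivAt_eq_slope f _ (show h₀ / 2 < h₀ by linarith)
    (fun h _ => (hfd h).continuousAt.continuousWithinAt) (fun h _ => hfd h)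
  obtain ⟨h, hhI, hslope⟩ := hmvt
  have hhp : 0 < h := by have := hhI.1; linarith
  refine ⟨K + 1, h, hhI.1.le, hhI.2.le, ?_, ?_⟩
  · have h3 : ∑ n ∈ range (K + 1), lam * (Q n h - P n h) * g n =
        lam * ∑ n ∈ range (K + 1), P n h * (g (n + 1) - g n) - lam * (P K h * g (K + 1)) := by
      have h4 : ∑ n ∈ range (K + 1), Q n h * g n = ∑ n ∈ range K, P n h * g (n + 1) := by
        rw [Finset.sum_range_succ']
        simp [hQ]
      have h5 : ∑ n ∈ range (K + 1), P n h * g (n + 1) =
          ∑ n ∈ range K, P n h * g (n + 1) + P K h * g (K + 1) := Finset.sum_range_succ _ _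
      have h6 : ∑ n ∈ range (K + 1), lam * (Q n h - P n h) * g n =
          lam * (∑ n ∈ range (K + 1), Q n h * g n - ∑ n ∈ range (K + 1), P n h * g n) := by
        rw [← Finset.sum_sub_distrib, Finset.mul_sum]
        exact Finset.sum_congr rfl fun n _ => by ring
      have h7 : ∑ n ∈ range (K + 1), P n h * (g (n + 1) - g n) =
          ∑ n ∈ range (K + 1), P n h * g (n + 1) - ∑ n ∈ range (K + 1), P n h * g n := by
        rw [← Finset.sum_sub_distrib]
        exact Finset.sum_congr rfl fun n _ => by ring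
      rw [h6, h4, h7, h5]
      ring
    have hPsum : ∀ h, 0 ≤ h → ∑ n ∈ range (K + 1), P n h ≤ 1 := by
      intro h hh
      exact sum_le_hasSum (range (K + 1)) (fun n _ => hP0 n h hh) (hasSum_pois (lam * h))
    have hf1 : f h₀ ≤ B := by
      have h8 : f h₀ ≤ ∑ n ∈ range (K + 1), P n h₀ * B :=
        Finset.sum_le_sum fun n _ => mul_le_mul_of_nonneg_left (hg n).2 (hP0 n h₀ hh.le)
      rw [← Finset.sum_mul] at h8
      have := mul_le_mul_of_nonneg_right (hPsum h₀ hh.le) hB
      linarith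
    have hf0 : 0 ≤ f (h₀ / 2) := Finset.sum_nonneg fun n _ =>
      mul_nonneg (hP0 n _ (by linarith)) (hg n).1
    have h9 : (f h₀ - f (h₀ / 2)) / (h₀ - h₀ / 2) ≤ 2 * B / h₀ := by
      have h10 : h₀ - h₀ / 2 = h₀ / 2 := by ring
      rw [h10, div_le_div_iff₀ (by linarith) hh]
      nlinarith
    have h11 : lam * (P K h * g (K + 1)) ≤ δ := by
      have h12 : P K h ≤ X ^ K / K.factorial := by
        simp only [hP]
        have h13 : Real.exp (-(lam * h)) ≤ 1 := Real.exp_le_one_iff.2 (by
          have := mul_pos hlam hhp; linarith)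
        have h14 : (lam * h) ^ K ≤ X ^ K := by
          refine pow_le_pow_left₀ (mul_pos hlam hhp).le ?_ K
          exact mul_le_mul_of_nonneg_left hhI.2.le hlam.le
        refine div_le_div_of_nonneg_right ?_ (Nat.cast_nonneg _)
        calc Real.exp (-(lam * h)) * (lam * h) ^ K ≤ 1 * X ^ K :=
              mul_le_mul h13 h14 (by positivity) (by norm_num)
          _ = X ^ K := one_mul _
      have h15 : P K h * g (K + 1) ≤ (X ^ K / K.factorial) * B :=
        mul_le_mul h12 (hg _).2 (hg _).1 (by positivity)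
      have h16 := mul_le_mul_of_nonneg_left h15 hlam.le
      nlinarith
    show lam * ∑ n ∈ range (K + 1), P n h * (g (n + 1) - g n) ≤ 2 * B / h₀ + δ
    linarith [hslope, h3]
  · show 1 - δ ≤ ∑ n ∈ range (K + 1), P n h
    have h3 : ∑ n ∈ range (K + 1), P n h =
        Real.exp (-(lam * h)) * ∑ n ∈ range (K + 1), (lam * h) ^ n / n.factorial := by
      rw [Finset.mul_sum]
      refine Finset.sum_congr rfl fun n _ => ?_
      simp only [hP]
      rw [mul_div_assoc]
    have h4 : Real.exp (lam * h) - ∑ n ∈ range (K + 1), (lam * h) ^ n / n.factorial ≤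
        Real.exp X - ∑ n ∈ range (K + 1), X ^ n / n.factorial := by
      refine hasSum_le (fun n => ?_) (hasSum_tail (lam * h) (K + 1)) (hasSum_tail X (K + 1))
      refine div_le_div_of_nonneg_right ?_ (Nat.cast_nonneg _)
      exact pow_le_pow_left₀ (mul_pos hlam hhp).le
        (mul_le_mul_of_nonneg_left hhI.2.le hlam.le) _
    have h5 : Real.exp (-(lam * h)) * Real.exp (lam * h) = 1 := by
      rw [← Real.exp_add, neg_add_cancel, Real.exp_zero]
    have h6 : Real.exp (-(lam * h)) ≤ 1 := Real.exp_le_one_iff.2 (by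
      have := mul_pos hlam hhp; linarith)
    have h7 : 0 < Real.exp (-(lam * h)) := Real.exp_pos _
    rw [h3]
    have h8 : Real.exp (lam * h) - δ ≤ ∑ n ∈ range (K + 1), (lam * h) ^ n / n.factorial := by
      linarith
    have h9 := mul_le_mul_of_nonneg_left h8 h7.le
    rw [mul_sub, h5] at h9
    nlinarith

end Pool.Agent.Stirring.HC
end

section

/-! Hidden coins, A5: laws with independent shuffles of bounded density in the windows. -/

open Finset

set_option linter.unusedSectionVars false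

namespace Pool.Agent.Stirring.HC

variable {V : Type} [Fintype V] [DecidableEq V] {I : Type} [DecidableEq I]

/-- A law on the permutations of the window `W` of density at most four. -/
structure WLaw (W : Finset V) (p : Equiv.Perm V → ℝ) : Prop where
  law : IsLaw p
  supp : SuppIn W p
  le : ∀ s, p s ≤ 4 / (W.card.factorial : ℝ)

/-- `Φ₁` is the law of `T` and `Φ₂` the law of `T * ∏ s_i` with independent `s_i` of density at most
four in the windows of a random set `l` of good indices; `g` bounds the mean number of good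
indices from below. -/
def Dec (W : I → Finset V) (D : Finset V) (cs : List I) (g : ℝ)
    (Φ₁ Φ₂ : (Equiv.Perm V → ℝ) → ℝ) : Prop :=
  ∃ (Ξ : Type) (_ : Fintype Ξ) (w : Ξ → ℝ) (T : Ξ → Equiv.Perm V) (l : Ξ → List I)
    (μ : Ξ → I → Equiv.Perm V → ℝ), (∀ ξ, 0 ≤ w ξ) ∧ (∀ ξ, w ξ ≠ 0 → ∀ z, z ∉ D → T ξ z = z) ∧
    (∀ ξ, (l ξ).Sublist cs) ∧ (∀ ξ, ∀ i ∈ l ξ, WLaw (W i) (μ ξ i)) ∧
    (∀ F, Φ₁ F = ∑ ξ, w ξ * F (T ξ)) ∧
    (∀ F, Φ₂ F = ∑ ξ, w ξ * El (μ ξ) (l ξ) (fun π => F (T ξ * π))) ∧
    g ≤ ∑ ξ, w ξ * (l ξ).length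

variable {W : I → Finset V} {D : Finset V} {cs : List I}

theorem Dec.congr {g : ℝ} {Φ₁ Φ₂ Ψ₁ Ψ₂ : (Equiv.Perm V → ℝ) → ℝ} (h : Dec W D cs g Φ₁ Φ₂)
    (h1 : ∀ F, Ψ₁ F = Φ₁ F) (h2 : ∀ F, Ψ₂ F = Φ₂ F) {g' : ℝ} (hg : g' ≤ g) :
    Dec W D cs g' Ψ₁ Ψ₂ := by
  obtain ⟨Ξ, _, w, T, l, μ, h3, h4, h5, h6, h7, h8, h9⟩ := h
  exact ⟨Ξ, _, w, T, l, μ, h3, h4, h5, h6, fun F => (h1 F).trans (h7 F),
    fun F => (h2 F).trans (h8 F), hg.trans h9⟩

theorem Dec.mono {g : ℝ} {Φ₁ Φ₂ : (Equiv.Perm V → ℝ) → ℝ} (h : Dec W D cs g Φ₁ Φ₂)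
    {D' : Finset V} (hD : D ⊆ D') {cs' : List I} (hcs : cs.Sublist cs') :
    Dec W D' cs' g Φ₁ Φ₂ := by
  obtain ⟨Ξ, _, w, T, l, μ, h3, h4, h5, h6, h7, h8, h9⟩ := h
  exact ⟨Ξ, _, w, T, l, μ, h3, fun ξ hξ z hz => h4 ξ hξ z fun h => hz (hD h),
    fun ξ => (h5 ξ).trans hcs, h6, h7, h8, h9⟩

theorem Dec.zero (W : I → Finset V) (D : Finset V) (cs : List I) :
    Dec W D cs 0 (fun _ => 0) (fun _ => 0) :=
  ⟨Empty, inferInstance, fun _ => 0, fun _ => 1, fun _ => [], fun _ _ _ => 0,
    fun ξ => ξ.elim, fun ξ => ξ.elim, fun ξ => ξ.elim, fun ξ => ξ.elim, fun F => by simp,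
    fun F => by simp, by simp⟩

theorem Dec.add {g g' : ℝ} {Φ₁ Φ₂ Ψ₁ Ψ₂ : (Equiv.Perm V → ℝ) → ℝ} (h : Dec W D cs g Φ₁ Φ₂)
    (h' : Dec W D cs g' Ψ₁ Ψ₂) :
    Dec W D cs (g + g') (fun F => Φ₁ F + Ψ₁ F) (fun F => Φ₂ F + Ψ₂ F) := by
  obtain ⟨Ξ, _, w, T, l, μ, h3, h4, h5, h6, h7, h8, h9⟩ := h
  obtain ⟨Ξ', _, w', T', l', μ', h3', h4', h5', h6', h7', h8', h9'⟩ := h'
  refine ⟨Ξ ⊕ Ξ', inferInstance, Sum.elim w w', Sum.elim T T', Sum.elim l l', Sum.elim μ μ',
    ?_, ?_, ?_, ?_, ?_, ?_, ?_⟩
  · rintro (ξ | ξ)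
    · exact h3 ξ
    · exact h3' ξ
  · rintro (ξ | ξ)
    · exact h4 ξ
    · exact h4' ξ
  · rintro (ξ | ξ)
    · exact h5 ξ
    · exact h5' ξ
  · rintro (ξ | ξ)
    · exact h6 ξ
    · exact h6' ξ
  · intro F
    show Φ₁ F + Ψ₁ F = _
    rw [Fintype.sum_sum_type, h7, h7']
    rfl
  · intro F
    show Φ₂ F + Ψ₂ F = _
    rw [Fintype.sum_sum_type, h8, h8']
    rfl
  · rw [Fintype.sum_sum_type]
    exact add_le_add h9 h9'

theorem Dec.smul {g : ℝ} {Φ₁ Φ₂ : (Equiv.Perm V → ℝ) → ℝ} (h : Dec W D cs g Φ₁ Φ₂) {r : ℝ}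
    (hr : 0 ≤ r) : Dec W D cs (r * g) (fun F => r * Φ₁ F) (fun F => r * Φ₂ F) := by
  obtain ⟨Ξ, _, w, T, l, μ, h3, h4, h5, h6, h7, h8, h9⟩ := h
  refine ⟨Ξ, inferInstance, fun ξ => r * w ξ, T, l, μ, fun ξ => mul_nonneg hr (h3 ξ), ?_, h5, h6,
    ?_, ?_, ?_⟩
  · intro ξ hξ
    exact h4 ξ (right_ne_zero_of_mul hξ)
  · intro F
    show r * Φ₁ F = _
    rw [h7, Finset.mul_sum]
    exact Finset.sum_congr rfl fun ξ _ => by ring
  · intro F
    show r * Φ₂ F = _
    rw [h8, Finset.mul_sum]
    exact Finset.sum_congr rfl fun ξ _ => by ring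
  · refine (mul_le_mul_of_nonneg_left h9 hr).trans (le_of_eq ?_)
    rw [Finset.mul_sum]
    exact Finset.sum_congr rfl fun ξ _ => by ring

theorem Dec.sum {ι : Type*} (t : Finset ι) {g : ι → ℝ} {Φ₁ Φ₂ : ι → (Equiv.Perm V → ℝ) → ℝ}
    (h : ∀ j ∈ t, Dec W D cs (g j) (Φ₁ j) (Φ₂ j)) :
    Dec W D cs (∑ j ∈ t, g j) (fun F => ∑ j ∈ t, Φ₁ j F) (fun F => ∑ j ∈ t, Φ₂ j F) := by
  classical
  induction t using Finset.induction_on with
  | empty => simpa using Dec.zero W D cs
  | insert a t ha ih =>
    have h1 := (h a (Finset.mem_insert_self _ _)).add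
      (ih fun j hj => h j (Finset.mem_insert_of_mem hj))
    refine h1.congr (fun F => ?_) (fun F => ?_) (le_of_eq ?_)
    · rw [Finset.sum_insert ha]
    · rw [Finset.sum_insert ha]
    · rw [Finset.sum_insert ha]

theorem Dec.pure (W : I → Finset V) {D : Finset V} (cs : List I) {T : Equiv.Perm V}
    (hT : ∀ z, z ∉ D → T z = z) : Dec W D cs 0 (fun F => F T) (fun F => F T) := by
  refine ⟨Unit, inferInstance, fun _ => 1, fun _ => T, fun _ => [], fun _ _ _ => 0,
    fun _ => zero_le_one, fun _ _ => hT, fun _ => List.nil_sublist _, ?_, fun F => by simp,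
    fun F => by simp [El], by simp⟩
  intro _ i hi
  exact absurd hi (by simp)

theorem Dec.tail (W : I → Finset V) (cs : List I) {b : Equiv.Perm V → ℝ} (hb : ∀ π, 0 ≤ b π) :
    Dec W univ cs 0 (fun F => ∑ π, b π * F π) (fun F => ∑ π, b π * F π) := by
  have h := Dec.sum (W := W) (D := univ) (cs := cs) (univ : Finset (Equiv.Perm V))
    (g := fun _ => b _ * 0) (Φ₁ := fun π F => b π * F π) (Φ₂ := fun π F => b π * F π)
    (fun π _ => (Dec.pure W cs (fun z hz => absurd (Finset.mem_univ z) hz)).smul (hb π))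
  refine h.congr (fun F => rfl) (fun F => rfl) (by simp)

/-- Multiplication from the left by a fixed permutation. -/
theorem Dec.lmul {g : ℝ} {Φ₁ Φ₂ : (Equiv.Perm V → ℝ) → ℝ} (h : Dec W D cs g Φ₁ Φ₂)
    {η : Equiv.Perm V} (hη : ∀ z, z ∉ D → η z = z) :
    Dec W D cs g (fun F => Φ₁ (fun σ => F (η * σ))) (fun F => Φ₂ (fun σ => F (η * σ))) := by
  obtain ⟨Ξ, _, w, T, l, μ, h3, h4, h5, h6, h7, h8, h9⟩ := h
  refine ⟨Ξ, inferInstance, w, fun ξ => η * T ξ, l, μ, h3, ?_, h5, h6, ?_, ?_, h9⟩
  · intro ξ hξ z hz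
    rw [Equiv.Perm.mul_apply, h4 ξ hξ z hz, hη z hz]
  · intro F
    show Φ₁ _ = _
    rw [h7]
  · intro F
    show Φ₂ _ = _
    rw [h8]
    simp only [mul_assoc]

/-- One more window, with a shuffle. -/
theorem Dec.unit {g : ℝ} {Φ₁ Φ₂ : (Equiv.Perm V → ℝ) → ℝ} (h : Dec W D cs g Φ₁ Φ₂)
    {C : Finset V} (hCD : Disjoint C D) {i : I} (hi : i ∉ cs) (hW : W i ⊆ C)
    (h1 : Φ₁ (fun _ => 1) = 1) {ρ : Equiv.Perm V} (hρ : ∀ z, z ∉ C → ρ z = z)
    {m : Equiv.Perm V → ℝ} (hm : WLaw (W i) m) :
    Dec W (C ∪ D) (i :: cs) (g + 1) (fun F => Φ₁ (fun σ => F (ρ * σ)))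
      (fun F => ∑ s, m s * Φ₂ (fun σ => F (ρ * s * σ))) := by
  obtain ⟨Ξ, _, w, T, l, μ, h3, h4, h5, h6, h7, h8, h9⟩ := h
  have hil : ∀ ξ, i ∉ l ξ := fun ξ hc => hi ((h5 ξ).subset hc)
  have hEl : ∀ ξ (F : Equiv.Perm V → ℝ),
      El (Function.update (μ ξ) i m) (l ξ) F = El (μ ξ) (l ξ) F := by
    intro ξ
    have : ∀ (l' : List I), i ∉ l' → ∀ F : Equiv.Perm V → ℝ,
        El (Function.update (μ ξ) i m) l' F = El (μ ξ) l' F := by
      intro l'
      induction l' with
      | nil => intro _ F; rfl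
      | cons j l' ih =>
        intro hj F
        have hj1 : j ≠ i := fun e => hj (by rw [e]; exact List.mem_cons_self)
        have hj2 : i ∉ l' := fun e => hj (List.mem_cons_of_mem _ e)
        unfold El
        rw [Function.update_of_ne hj1]
        exact Finset.sum_congr rfl fun π _ => by rw [ih hj2]
    exact this (l ξ) (hil ξ)
  refine ⟨Ξ, inferInstance, w, fun ξ => ρ * T ξ, fun ξ => i :: l ξ,
    fun ξ => Function.update (μ ξ) i m, h3, ?_, fun ξ => (h5 ξ).cons_cons i, ?_, ?_, ?_, ?_⟩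
  · intro ξ hξ z hz
    rw [Finset.mem_union, not_or] at hz
    rw [Equiv.Perm.mul_apply, h4 ξ hξ z hz.2, hρ z hz.1]
  · intro ξ j hj
    rcases eq_or_ne j i with rfl | hne
    · show WLaw (W j) (Function.update (μ ξ) j m j)
      rw [Function.update_self]; exact hm
    · show WLaw (W j) (Function.update (μ ξ) i m j)
      rw [Function.update_of_ne hne]
      exact h6 ξ j ((List.mem_cons.mp hj).resolve_left hne)
  · intro F
    show Φ₁ _ = _
    rw [h7]
  · intro F
    show ∑ s, m s * Φ₂ (fun σ => F (ρ * s * σ)) = _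
    calc ∑ s, m s * Φ₂ (fun σ => F (ρ * s * σ))
        = ∑ s, ∑ ξ, w ξ * (m s * El (μ ξ) (l ξ) (fun π => F (ρ * T ξ * (s * π)))) := by
          refine Finset.sum_congr rfl fun s _ => ?_
          rw [h8, Finset.mul_sum]
          refine Finset.sum_congr rfl fun ξ _ => ?_
          by_cases hw : w ξ = 0
          · rw [hw]; ring
          by_cases hms : m s = 0
          · rw [hms]; ring
          have hcomm : s * T ξ = T ξ * s := by
            ext z
            rw [Equiv.Perm.mul_apply, Equiv.Perm.mul_apply]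
            by_cases hz : z ∈ C
            · have hzD : z ∉ D := Finset.disjoint_left.mp hCD hz
              rw [h4 ξ hw z hzD]
              have hsz : s z ∈ C := by
                by_contra hcon
                have h10 := hm.supp s hms (s z) (fun h => hcon (hW h))
                rw [s.injective h10] at hcon
                exact hcon hz
              rw [h4 ξ hw (s z) (Finset.disjoint_left.mp hCD hsz)]
            · rw [hm.supp s hms z (fun h => hz (hW h))]
              refine hm.supp s hms (T ξ z) (fun h => hz ?_)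
              have hTz : T ξ z ∉ D := Finset.disjoint_left.mp hCD (hW h)
              have h11 := h4 ξ hw (T ξ z) hTz
              have h12 := (T ξ).injective h11
              rw [h12] at h
              exact hW h
          have h13 : (fun π => F (ρ * s * (T ξ * π))) = fun π => F (ρ * T ξ * (s * π)) := by
            funext π
            rw [mul_assoc, ← mul_assoc s, hcomm]
            simp only [mul_assoc]
          rw [h13]
          ring
      _ = ∑ ξ, w ξ * El (Function.update (μ ξ) i m) (i :: l ξ) (fun π => F (ρ * T ξ * π)) := by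
          rw [Finset.sum_comm]
          refine Finset.sum_congr rfl fun ξ _ => ?_
          rw [← Finset.mul_sum]
          congr 1
          show _ = ∑ π, Function.update (μ ξ) i m i π *
            El (Function.update (μ ξ) i m) (l ξ) (fun σ => F (ρ * T ξ * (π * σ)))
          rw [Function.update_self]
          exact Finset.sum_congr rfl fun s _ => by rw [hEl]
  · have h14 : ∑ ξ, w ξ * ((i :: l ξ).length : ℝ) = ∑ ξ, w ξ * (l ξ).length + 1 := by
      rw [← h1, h7, ← Finset.sum_add_distrib]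
      refine Finset.sum_congr rfl fun ξ _ => ?_
      rw [List.length_cons]
      push_cast
      ring
    rw [h14]
    linarith

/-- One more window whose hidden law is nearly invariant. -/
theorem Dec.cons {g : ℝ} {Φ₁ Φ₂ : (Equiv.Perm V → ℝ) → ℝ} (h : Dec W D cs g Φ₁ Φ₂)
    {C : Finset V} (hCD : Disjoint C D) {i : I} (hi : i ∉ cs) (hW : W i ⊆ C)
    (h1 : Φ₁ (fun _ => 1) = 1) {p : Equiv.Perm V → ℝ} (hp : IsLaw p) (hC : SuppIn C p) {e : ℝ}
    (he : ∀ s : Equiv.Perm V, (∀ z, z ∉ W i → s z = z) → tv p (rm s p) ≤ e) :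
    Dec W (C ∪ D) (i :: cs) (g + (1 - 2 * e)) (fun F => ∑ π, p π * Φ₁ (fun σ => F (π * σ)))
      (fun F => ∑ π, p π * Φ₂ (fun σ => F (π * σ))) := by
  obtain ⟨a, bb, mu, ha, hbb, hab, hmu1, hmu2, hmu3, hbe, _, hF⟩ := decomp hp he
  obtain ⟨hCa, hCb⟩ := decomp_supp hC ha hbb hab
  have hA : Dec W (C ∪ D) (i :: cs) (∑ ρ, a ρ * (g + 1))
      (fun F => ∑ ρ, a ρ * Φ₁ (fun σ => F (ρ * σ)))
      (fun F => ∑ ρ, a ρ * ∑ s, mu ρ s * Φ₂ (fun σ => F (ρ * s * σ))) := by
    refine Dec.sum univ fun ρ _ => ?_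
    by_cases hρ : a ρ = 0
    · exact (Dec.zero W (C ∪ D) (i :: cs)).congr (fun F => by rw [hρ, zero_mul])
        (fun F => by rw [hρ, zero_mul]) (by rw [hρ, zero_mul])
    · exact (h.unit hCD hi hW h1 (hCa ρ hρ) ⟨hmu1 ρ, hmu2 ρ, hmu3 ρ⟩).smul (ha ρ)
  have hB : Dec W (C ∪ D) (i :: cs) (∑ ρ, bb ρ * g)
      (fun F => ∑ ρ, bb ρ * Φ₁ (fun σ => F (ρ * σ)))
      (fun F => ∑ ρ, bb ρ * Φ₂ (fun σ => F (ρ * σ))) := by
    refine Dec.sum univ fun ρ _ => ?_
    by_cases hρ : bb ρ = 0
    · exact (Dec.zero W (C ∪ D) (i :: cs)).congr (fun F => by rw [hρ, zero_mul])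
        (fun F => by rw [hρ, zero_mul]) (by rw [hρ, zero_mul])
    · exact ((h.mono Finset.subset_union_right (List.sublist_cons_self i cs)).lmul
        (η := ρ) (fun z hz => hCb ρ hρ z fun hz' => hz (Finset.mem_union_left _ hz'))).smul (hbb ρ)
  refine (hA.add hB).congr (fun F => ?_) (fun F => ?_) ?_
  · rw [← Finset.sum_add_distrib]
    refine Finset.sum_congr rfl fun ρ _ => ?_
    rw [← hab ρ]; ring
  · exact hF (fun π => Φ₂ (fun σ => F (π * σ)))
  · have h2 : ∑ ρ, a ρ + ∑ ρ, bb ρ = 1 := by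
      rw [← Finset.sum_add_distrib, ← hp.one]
      exact Finset.sum_congr rfl fun ρ _ => hab ρ
    rw [← Finset.sum_mul, ← Finset.sum_mul]
    have h3 : (∑ ρ, a ρ) * (g + 1) + (∑ ρ, bb ρ) * g = (∑ ρ, a ρ + ∑ ρ, bb ρ) * g + ∑ ρ, a ρ := by
      ring
    rw [h3, h2]
    linarith

/-- One more window without shuffle. -/
theorem Dec.cons' {g : ℝ} {Φ₁ Φ₂ : (Equiv.Perm V → ℝ) → ℝ} (h : Dec W D cs g Φ₁ Φ₂)
    {C : Finset V} {i : I} {p : Equiv.Perm V → ℝ} (hp : IsLaw p)
    (hC : SuppIn C p) :
    Dec W (C ∪ D) (i :: cs) g (fun F => ∑ π, p π * Φ₁ (fun σ => F (π * σ)))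
      (fun F => ∑ π, p π * Φ₂ (fun σ => F (π * σ))) := by
  have hB : Dec W (C ∪ D) (i :: cs) (∑ ρ, p ρ * g)
      (fun F => ∑ ρ, p ρ * Φ₁ (fun σ => F (ρ * σ)))
      (fun F => ∑ ρ, p ρ * Φ₂ (fun σ => F (ρ * σ))) := by
    refine Dec.sum univ fun ρ _ => ?_
    by_cases hρ : p ρ = 0
    · exact (Dec.zero W (C ∪ D) (i :: cs)).congr (fun F => by rw [hρ, zero_mul])
        (fun F => by rw [hρ, zero_mul]) (by rw [hρ, zero_mul])
    · exact ((h.mono Finset.subset_union_right (List.sublist_cons_self i cs)).lmul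
        (η := ρ) (fun z hz => hC ρ hρ z fun hz' => hz (Finset.mem_union_left _ hz'))).smul (hp.nn ρ)
  refine hB.congr (fun F => rfl) (fun F => rfl) ?_
  rw [← Finset.sum_mul, hp.one, one_mul]

theorem El_one {μ : I → Equiv.Perm V → ℝ} {l : List I} (h : ∀ i ∈ l, IsLaw (μ i)) :
    El μ l (fun _ => 1) = 1 := by
  induction l with
  | nil => rfl
  | cons i l ih =>
    show ∑ π, μ i π * El μ l (fun _ => 1) = 1
    rw [ih fun j hj => h j (List.mem_cons_of_mem _ hj)]
    simp [(h i List.mem_cons_self).one]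

/-- The mean number of good windows, given the state. -/
noncomputable def gd (W : I → Finset V) (e : St V I → I → ℝ) (cs : List I) (s : St V I) : ℝ :=
  (cs.map fun i => if W i ⊆ cls s.κ i then 1 - 2 * e s i else 0).sum

theorem dec_El {κ₀ : V → Option I} {s : St V I} (h : Inv κ₀ s) {e : St V I → I → ℝ}
    (he : ∀ i, W i ⊆ cls s.κ i → ∀ σ : Equiv.Perm V, (∀ z, z ∉ W i → σ z = z) →
      tv (s.q i) (rm σ (s.q i)) ≤ e s i) (l : List I) (hl : l.Nodup) :
    Dec W (univ.filter fun z => ∃ i ∈ l, s.κ z = some i) l (gd W e l s) (El s.q l) (El s.q l) := by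
  induction l with
  | nil =>
    have := Dec.pure W (D := univ.filter fun z => ∃ i ∈ ([] : List I), s.κ z = some i) []
      (T := 1) (fun z _ => rfl)
    exact this.congr (fun F => rfl) (fun F => rfl) (by simp [gd])
  | cons i l ih =>
    have hl' := List.nodup_cons.mp hl
    have h1 := ih hl'.2
    have hdis : Disjoint (cls s.κ i) (univ.filter fun z => ∃ j ∈ l, s.κ z = some j) := by
      rw [Finset.disjoint_left]
      intro z hz hz'
      simp only [cls, Finset.mem_filter, Finset.mem_univ, true_and] at hz hz'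
      obtain ⟨j, hj, hj'⟩ := hz'
      rw [hz] at hj'
      exact hl'.1 (Option.some.inj hj' ▸ hj)
    have hsub : cls s.κ i ∪ (univ.filter fun z => ∃ j ∈ l, s.κ z = some j) ⊆
        univ.filter fun z => ∃ j ∈ i :: l, s.κ z = some j := by
      intro z hz
      rw [Finset.mem_union] at hz
      simp only [cls, Finset.mem_filter, Finset.mem_univ, true_and] at hz ⊢
      rcases hz with hz | ⟨j, hj, hj'⟩
      · exact ⟨i, List.mem_cons_self, hz⟩
      · exact ⟨j, List.mem_cons_of_mem _ hj, hj'⟩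
    have hone : El s.q l (fun _ => 1) = 1 := El_one fun j _ => h.law j
    by_cases hW : W i ⊆ cls s.κ i
    · have h2 := h1.cons hdis hl'.1 hW hone (h.law i) (h.supp i) (he i hW)
      refine (h2.mono hsub (List.Sublist.refl _)).congr (fun F => rfl) (fun F => rfl) ?_
      simp only [gd, List.map_cons, List.sum_cons]
      rw [if_pos hW]
      linarith
    · have h2 := h1.cons' (i := i) (h.law i) (h.supp i)
      refine (h2.mono hsub (List.Sublist.refl _)).congr (fun F => rfl) (fun F => rfl) ?_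
      simp only [gd, List.map_cons, List.sum_cons]
      rw [if_neg hW]
      linarith

theorem dec_val {κ₀ : V → Option I} {s : St V I} (h : Inv κ₀ s) {e : St V I → I → ℝ}
    (he : ∀ i, W i ⊆ cls s.κ i → ∀ σ : Equiv.Perm V, (∀ z, z ∉ W i → σ z = z) →
      tv (s.q i) (rm σ (s.q i)) ≤ e s i) (hcs : cs.Nodup) :
    Dec W univ cs (gd W e cs s) (val cs s) (val cs s) :=
  (((dec_El h he cs hcs).mono (Finset.subset_univ _) (List.Sublist.refl _)).lmul
    (η := s.η) (fun z hz => absurd (Finset.mem_univ z) hz)).congr (fun F => rfl) (fun F => rfl)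
    le_rfl

theorem dec_WW {κ₀ : V → Option I} {c : V × V → ℝ} (hc : ∀ p, 0 ≤ c p) {G : St V I → ℝ}
    (hG : ∀ s : St V I, Inv κ₀ s → Dec W univ cs (G s) (val cs s) (val cs s)) (n : ℕ)
    {s : St V I} (hs : Inv κ₀ s) :
    Dec W univ cs (WW c n G s) (fun F => WW c n (fun s' => val cs s' F) s)
      (fun F => WW c n (fun s' => val cs s' F) s) := by
  induction n generalizing s with
  | zero => exact hG s hs
  | succ n ih =>
    have h1 : Dec W univ cs (∑ p : V × V, c p * (1 / 2 * (WW c n G (step s (p, false)) +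
        WW c n G (step s (p, true)))))
        (fun F => ∑ p : V × V, c p * (1 / 2 * (WW c n (fun s' => val cs s' F) (step s (p, false)) +
          WW c n (fun s' => val cs s' F) (step s (p, true)))))
        (fun F => ∑ p : V × V, c p * (1 / 2 * (WW c n (fun s' => val cs s' F) (step s (p, false)) +
          WW c n (fun s' => val cs s' F) (step s (p, true))))) :=
      Dec.sum univ fun p _ => (((ih (hs.step (p, false))).add (ih (hs.step (p, true)))).smul
        (by norm_num)).smul (hc p)
    refine h1.congr (fun F => ?_) (fun F => ?_) (le_of_eq ?_)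
    · show TT c _ s = _
      unfold TT
      exact Finset.sum_congr rfl fun p _ => by ring
    · show TT c _ s = _
      unfold TT
      exact Finset.sum_congr rfl fun p _ => by ring
    · show TT c _ s = _
      unfold TT
      exact Finset.sum_congr rfl fun p _ => by ring

/-- The semigroup. -/
theorem dec_sg {κ₀ : V → Option I} (hcs : cs.Nodup) (hcol : ∀ i z, κ₀ z = some i → i ∈ cs)
    {c : V × V → ℝ} (hc : ∀ p, 0 ≤ c p) {h : ℝ} (hh : 0 ≤ h) {G : St V I → ℝ}
    (hG : ∀ s : St V I, Inv κ₀ s → Dec W univ cs (G s) (val cs s) (val cs s)) (M : ℕ) :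
    Dec W univ cs (∑ n ∈ range M, pw c h n * WW c n G (st0 κ₀))
      (fun F => Hier.sg c h F 1) (fun F => Hier.sg c h F 1) := by
  obtain ⟨b, hb, hF, _⟩ := sg_tail hc hh M
  have h1 : Dec W univ cs (∑ n ∈ range M, pw c h n * WW c n G (st0 κ₀))
      (fun F => ∑ n ∈ range M, pw c h n * WW c n (fun s' => val cs s' F) (st0 κ₀))
      (fun F => ∑ n ∈ range M, pw c h n * WW c n (fun s' => val cs s' F) (st0 κ₀)) :=
    Dec.sum _ fun n _ => (dec_WW hc hG n (inv_st0 κ₀)).smul (pw_nonneg hc hh n)
  have h2 : ∀ F : Equiv.Perm V → ℝ, Hier.sg c h F 1 =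
      ∑ n ∈ range M, pw c h n * WW c n (fun s' => val cs s' F) (st0 κ₀) + ∑ π, b π * F π := by
    intro F
    rw [hF F]
    congr 1
    refine Finset.sum_congr rfl fun n _ => ?_
    rw [← val_WW (inv_st0 κ₀) hcs hcol c F n, val_st0]
  exact (h1.add (Dec.tail W cs hb)).congr h2 h2 (by linarith)

end Pool.Agent.Stirring.HC
end
end
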