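import Pool.Agent.Lib.MP_6c3d62_pr.Mg.G052

section

/-! The lower bound for the heat kernel of the torus. -/

open Finset

set_option linter.unusedSectionVars false

namespace Pool.Agent.Stirring.QK

variable {d L : ℕ} [NeZero L]

/-- The `L¹` distance of two kernels. -/
theorem hk_l1 (hL : 2 ≤ L) {s : ℝ} (hs : 0 < s) (x y : Fin d → ZMod L) :
    ∑ z, |hk d L s y z - hk d L s x z| ≤ d * nrm (y - x) * (1 / Real.sqrt s) := by
  have h1 := phiG_eq (single_ne hL) s (y - x) x
  have h2 : x + (y - x) = y := by abel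
  rw [h2] at h1
  have h3 : y - x = ∑ i ∈ (Finset.univ : Finset (Fin d)),
      ((y - x) i).valMinAbs • (Pi.single i 1 : Fin d → ZMod L) := by
    funext j
    rw [Finset.sum_apply, Finset.sum_eq_single j]
    · rw [Pi.smul_apply, Pi.single_eq_same, zsmul_eq_mul, mul_one, ZMod.coe_valMinAbs]
    · intro i _ hij
      rw [Pi.smul_apply, Pi.single_eq_of_ne (Ne.symm hij), smul_zero]
    · intro h; exact absurd (Finset.mem_univ _) h
  have h4 := phiG_sum (single_ne hL) hs (fun i => ((y - x) i).valMinAbs) Finset.univ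
  rw [← h3] at h4
  have h5 : ∑ z, |hk d L s y z - hk d L s x z| = phiG
    (fun i : Fin d => (Pi.single i 1 : Fin d → ZMod L)) s (y - x) := h1
  rw [h5]
  refine h4.trans (mul_le_mul_of_nonneg_right ?_ (by positivity))
  have h6 : ∑ i : Fin d, ((y - x) i).valMinAbs.natAbs ≤ d * nrm (y - x) := by
    refine (Finset.sum_le_sum (g := fun _ => nrm (y - x)) fun i _ => av_le_nrm _ i).trans ?_
    rw [Finset.sum_const, Finset.card_univ, Fintype.card_fin, smul_eq_mul]
  exact_mod_cast h6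

/-- The mass outside a ball, second moment version. -/
theorem hk_tail2 (hL : 2 ≤ L) {s R : ℝ} (hs : 0 ≤ s) (hR : 0 < R) (x : Fin d → ZMod L) :
    ∑ y ∈ Finset.univ.filter (fun y => R ≤ nrm (y - x)), hk d L s x y
      ≤ d * (2 * s / R ^ 2) :=
  hk_markov (a := R ^ 2) (b := 2 * s) hs hR x (g := fun k => ((av k : ℕ) : ℝ) ^ 2)
    (fun k => by positivity) (by positivity) (fun k hk => by gcongr) (hk_second hL hs x)

/-- The number of points in a ball. -/
theorem card_ball (r : ℕ) (x : Fin d → ZMod L) :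
    (Finset.univ.filter fun y : Fin d → ZMod L => nrm (y - x) ≤ r).card ≤ (2 * r + 1) ^ d := by
  have h1 : (Finset.univ.filter fun y : Fin d → ZMod L => nrm (y - x) ≤ r).card ≤
      (Fintype.piFinset fun _ : Fin d => Finset.univ.filter fun k : ZMod L => av k ≤ r).card := by
    refine Finset.card_le_card_of_injOn (fun y => y - x) (fun y hy => ?_)
      (fun a _ b _ h => sub_left_injective h)
    rw [Finset.mem_coe, Fintype.mem_piFinset]
    intro i
    rw [Finset.mem_filter]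
    exact ⟨Finset.mem_univ _, (av_le_nrm _ i).trans (Finset.mem_filter.1 hy).2⟩
  refine h1.trans ?_
  rw [Fintype.card_piFinset_const]
  exact Nat.pow_le_pow_left (card_av_le r) d

/-- H3 -/
theorem hk_ge (d : ℕ) : ∃ c : ℝ, 0 < c ∧ ∀ (L : ℕ) [NeZero L], 2 ≤ L → ∀ s : ℝ, 1 ≤ s →
    ∀ x y : Fin d → ZMod L, (nrm (y - x) : ℝ) ≤ c * Real.sqrt s →
    c * (1 / Real.sqrt s) ^ d ≤ hk d L s x y := by
  set K : ℝ := 2 * Real.sqrt d + 1 with hK
  have hK1 : 1 ≤ K := by
    have := Real.sqrt_nonneg (d : ℝ)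
    linarith
  have hKd : 4 * (d : ℝ) ≤ K ^ 2 := by
    have h1 := Real.sqrt_nonneg (d : ℝ)
    have h2 := Real.sq_sqrt (Nat.cast_nonneg (α := ℝ) d)
    nlinarith
  set c0 : ℝ := (1 / 16) * (1 / (2 * K + 1)) ^ d with hc0
  have hc0p : 0 < c0 := by positivity
  refine ⟨min (1 / (4 * d + 4)) c0, lt_min (by positivity) hc0p, ?_⟩
  intro L _ hL s hs x y hxy
  set c := min (1 / (4 * (d : ℝ) + 4)) c0 with hc
  have hs0 : 0 < s := by linarith
  have hsq : 0 < Real.sqrt s := Real.sqrt_pos.2 hs0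
  have hsq1 : 1 ≤ Real.sqrt s := Real.one_le_sqrt.2 hs
  -- half time
  have ht : 0 < s / 2 := by linarith
  set p : (Fin d → ZMod L) → ℝ := hk d L (s / 2) x with hp
  set q : (Fin d → ZMod L) → ℝ := hk d L (s / 2) y with hq
  have hp0 : ∀ z, 0 ≤ p z := fun z => hk_nonneg ht.le _ _
  have hq0 : ∀ z, 0 ≤ q z := fun z => hk_nonneg ht.le _ _
  have hpq : hk d L s x y = ∑ z, p z * q z := by
    have h1 : s = s / 2 + s / 2 := by ring
    conv_lhs => rw [h1]
    rw [hk_add]
    exact Finset.sum_congr rfl fun z _ => by rw [hk_symm (s / 2) z y]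
  -- total variation
  have htv : ∑ z, |q z - p z| ≤ 1 / 2 := by
    refine (hk_l1 hL ht x y).trans ?_
    have h1 : (nrm (y - x) : ℝ) ≤ 1 / (4 * d + 4) * Real.sqrt s :=
      hxy.trans (mul_le_mul_of_nonneg_right (min_le_left _ _) hsq.le)
    have h2 : Real.sqrt (s / 2) ≥ Real.sqrt s / 2 := by
      have h3 : Real.sqrt s / 2 = Real.sqrt (s / 4) := by
        rw [Real.sqrt_div' _ (by norm_num : (0 : ℝ) ≤ 4)]
        norm_num
      rw [h3]
      exact Real.sqrt_le_sqrt (by linarith)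
    have h3 : 1 / Real.sqrt (s / 2) ≤ 2 / Real.sqrt s := by
      rw [div_le_div_iff₀ (Real.sqrt_pos.2 ht) hsq]
      linarith
    have h4 : (d : ℝ) * nrm (y - x) ≤ d * (1 / (4 * d + 4) * Real.sqrt s) :=
      mul_le_mul_of_nonneg_left h1 (Nat.cast_nonneg _)
    calc (d : ℝ) * nrm (y - x) * (1 / Real.sqrt (s / 2)) ≤
        d * (1 / (4 * d + 4) * Real.sqrt s) * (2 / Real.sqrt s) :=
          mul_le_mul h4 h3 (by positivity) (by positivity)
      _ = d * 2 / (4 * d + 4) := by field_simp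
      _ ≤ 1 / 2 := by
        rw [div_le_div_iff₀ (by positivity) (by norm_num)]
        linarith
  -- the ball
  set R : ℝ := K * Real.sqrt s with hR
  have hRp : 0 < R := by positivity
  set B := Finset.univ.filter (fun z : Fin d → ZMod L => ¬ R ≤ nrm (z - x)) with hB
  have hmass : 3 / 4 ≤ ∑ z ∈ B, p z := by
    have h1 := hk_tail2 hL ht.le hRp x
    have h2 := Finset.sum_filter_add_sum_filter_not Finset.univ
      (fun z : Fin d → ZMod L => R ≤ nrm (z - x)) p
    have h3 : ∑ z, p z = 1 := hk_sum _ x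
    have h4 : (d : ℝ) * (2 * (s / 2) / R ^ 2) ≤ 1 / 4 := by
      rw [hR, mul_pow, Real.sq_sqrt hs0.le]
      have h5 : (d : ℝ) * (2 * (s / 2) / (K ^ 2 * s)) = d / K ^ 2 := by field_simp
      rw [h5, div_le_div_iff₀ (by positivity) (by norm_num)]
      linarith
    linarith
  have hmin : 1 / 4 ≤ ∑ z ∈ B, min (p z) (q z) := by
    have h1 : ∑ z ∈ B, (p z - |q z - p z|) ≤ ∑ z ∈ B, min (p z) (q z) := by
      refine Finset.sum_le_sum fun z _ => ?_
      refine le_min ?_ ?_
      · have := abs_nonneg (q z - p z); linarith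
      · have := neg_abs_le (q z - p z); linarith
    have h2 : ∑ z ∈ B, |q z - p z| ≤ ∑ z, |q z - p z| :=
      Finset.sum_le_univ_sum_of_nonneg fun _ => abs_nonneg _
    rw [Finset.sum_sub_distrib] at h1
    linarith
  have hcard : (B.card : ℝ) ≤ ((2 * K + 1) * Real.sqrt s) ^ d := by
    have h1 : B.card ≤ (Finset.univ.filter fun z : Fin d → ZMod L =>
        nrm (z - x) ≤ ⌊R⌋₊).card := by
      refine Finset.card_le_card fun z hz => ?_
      rw [Finset.mem_filter]
      refine ⟨Finset.mem_univ _, Nat.le_floor ?_⟩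
      exact (not_le.1 (Finset.mem_filter.1 hz).2).le
    have h2 := h1.trans (card_ball _ x)
    have h3 : (B.card : ℝ) ≤ ((2 * ⌊R⌋₊ + 1 : ℕ) : ℝ) ^ d := by exact_mod_cast h2
    refine h3.trans (pow_le_pow_left₀ (Nat.cast_nonneg _) ?_ d)
    push_cast
    have h4 := Nat.floor_le hRp.le
    nlinarith
  have hcs : (∑ z ∈ B, min (p z) (q z)) ^ 2 ≤ B.card * ∑ z ∈ B, (min (p z) (q z)) ^ 2 :=
    sq_sum_le_card_mul_sum_sq
  have h6 : ∑ z ∈ B, (min (p z) (q z)) ^ 2 ≤ ∑ z, p z * q z := by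
    refine (Finset.sum_le_sum fun z _ => ?_).trans
      (Finset.sum_le_univ_sum_of_nonneg fun z => mul_nonneg (hp0 z) (hq0 z))
    rw [sq]
    exact mul_le_mul (min_le_left _ _) (min_le_right _ _) (le_min (hp0 z) (hq0 z)) (hp0 z)
  have h7 : (1 / 16 : ℝ) ≤ ((2 * K + 1) * Real.sqrt s) ^ d * hk d L s x y := by
    rw [hpq]
    have h8 : (1 / 16 : ℝ) ≤ (∑ z ∈ B, min (p z) (q z)) ^ 2 := by nlinarith
    have h9 : 0 ≤ ∑ z ∈ B, (min (p z) (q z)) ^ 2 := Finset.sum_nonneg fun _ _ => sq_nonneg _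
    calc (1 / 16 : ℝ) ≤ _ := h8
      _ ≤ _ := hcs
      _ ≤ ((2 * K + 1) * Real.sqrt s) ^ d * ∑ z ∈ B, (min (p z) (q z)) ^ 2 :=
        mul_le_mul_of_nonneg_right hcard h9
      _ ≤ _ := mul_le_mul_of_nonneg_left h6 (by positivity)
  have h8 : c * (1 / Real.sqrt s) ^ d ≤ c0 * (1 / Real.sqrt s) ^ d :=
    mul_le_mul_of_nonneg_right (min_le_right _ _) (by positivity)
  refine h8.trans ?_
  have h9 : 0 < (2 * K + 1) ^ d := by positivity
  have h10 : 0 < Real.sqrt s ^ d := by positivity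
  rw [mul_pow] at h7
  rw [hc0, one_div_pow, one_div_pow]
  have h11 : 1 / 16 * (1 / (2 * K + 1) ^ d) * (1 / Real.sqrt s ^ d) =
      (1 / 16) / ((2 * K + 1) ^ d * Real.sqrt s ^ d) := by field_simp
  rw [h11, div_le_iff₀ (by positivity)]
  linarith

end Pool.Agent.Stirring.QK
end

section

section

/-! Supersolutions on the torus, and the oscillation of heat functions. -/

open Finset

set_option linter.unusedSectionVars false

namespace Pool.Agent.Stirring.QK

variable {d L : ℕ} [NeZero L]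

/-- The exponential function of one coordinate is a supersolution. -/
theorem heat_cosh (hL : 2 ≤ L) {s : ℝ} (hs : 0 ≤ s) (lam : ℝ) (x y : Fin d → ZMod L) (j : Fin d) :
    heat (tr d L) s (fun z => Real.cosh (lam * (av (z j - x j) : ℕ))) y ≤
      Real.exp (2 * s * (Real.cosh lam - 1)) * Real.cosh (lam * (av (y j - x j) : ℕ)) := by
  have h := heat_le_mul (e := fun i : Fin d => (Pi.single i 1 : Fin d → ZMod L)) hs
    (F := fun y => Real.cosh (lam * (av (y j - x j) : ℕ))) (κ := 2 * (Real.cosh lam - 1))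
    (by have := Real.one_le_cosh lam; linarith) (fun z => by
      have h2 := lap_coord hL j (fun k => Real.cosh (lam * (av k : ℕ))) x z
      rw [← tr_eq, h2]
      exact av_cosh_diff lam _) y
  rw [← tr_eq] at h
  have h3 : 2 * (Real.cosh lam - 1) * s = 2 * s * (Real.cosh lam - 1) := by ring
  rwa [h3] at h

/-- `chf_heat` of Loc. -/
theorem heat_sum_cosh (hL : 2 ≤ L) {α s : ℝ} (hs : 0 ≤ s) (x y : Fin d → ZMod L) :
    heat (tr d L) s (fun z => ∑ i, Real.cosh (α * ((z i - x i).valMinAbs.natAbs : ℝ))) y ≤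
      Real.exp (2 * s * (Real.cosh α - 1)) *
        ∑ i, Real.cosh (α * ((y i - x i).valMinAbs.natAbs : ℝ)) := by
  have h1 : (fun z : Fin d → ZMod L => ∑ i, Real.cosh (α * ((z i - x i).valMinAbs.natAbs : ℝ))) =
      ∑ i, fun z : Fin d → ZMod L => Real.cosh (α * ((z i - x i).valMinAbs.natAbs : ℝ)) := by
    funext z
    rw [Finset.sum_apply]
  rw [h1, map_sum, Finset.sum_apply, Finset.mul_sum]
  exact Finset.sum_le_sum fun i _ => heat_cosh hL hs α x y i

theorem nrm_neg (z : Fin d → ZMod L) : nrm (-z) = nrm z := by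
  unfold nrm
  congr 1
  funext i
  rw [Pi.neg_apply, ZMod.natAbs_valMinAbs_neg]

/-- The `L¹` oscillation of a heat function. -/
theorem heat_osc (hL : 2 ≤ L) {s : ℝ} (hs : 0 < s) (g : (Fin d → ZMod L) → ℝ)
    (z : Fin d → ZMod L) :
    ∑ q, |heat (tr d L) s g (q + z) - heat (tr d L) s g q| ≤
      d * nrm z * (1 / Real.sqrt s) * ∑ x, |g x| := by
  have h1 : ∀ q, |heat (tr d L) s g (q + z) - heat (tr d L) s g q| ≤
      ∑ x, |hk d L s (q + z) x - hk d L s q x| * |g x| := by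
    intro q
    rw [heat_eq_sum, heat_eq_sum, ← Finset.sum_sub_distrib]
    refine (Finset.abs_sum_le_sum_abs _ _).trans (Finset.sum_le_sum fun x _ => ?_)
    rw [← sub_mul, abs_mul]
  refine (Finset.sum_le_sum fun q _ => h1 q).trans ?_
  rw [Finset.sum_comm, Finset.mul_sum]
  refine Finset.sum_le_sum fun x _ => ?_
  rw [← Finset.sum_mul]
  refine mul_le_mul_of_nonneg_right ?_ (abs_nonneg _)
  -- `hk (q + z) x = hk x (q + z) = hk (x - z) q`
  have h2 := hk_l1 hL hs x (x - z)
  have h3 : x - z - x = -z := by abel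
  rw [h3, nrm_neg] at h2
  refine le_trans (le_of_eq ?_) h2
  refine Finset.sum_congr rfl fun q _ => ?_
  have h4 := hk_translate (L := L) s (x - z) q z
  rw [sub_add_cancel] at h4
  rw [hk_symm s (q + z) x, hk_symm s q x, h4]

/-- Oscillation over an arbitrary window whose points have norm at most `b`. -/
theorem heat_osc_win (hL : 2 ≤ L) {s : ℝ} (hs : 0 < s) (g : (Fin d → ZMod L) → ℝ)
    (Q : Finset (Fin d → ZMod L)) (b : ℕ) (hQ : ∀ z ∈ Q, nrm z ≤ b) :
    ∑ z ∈ Q, ∑ q, |heat (tr d L) s g (q + z) - heat (tr d L) s g q| ≤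
      Q.card * (d * b) * (1 / Real.sqrt s) * ∑ x, |g x| := by
  have h1 : ∀ z ∈ Q, ∑ q, |heat (tr d L) s g (q + z) - heat (tr d L) s g q| ≤
      d * b * (1 / Real.sqrt s) * ∑ x, |g x| := by
    intro z hz
    refine (heat_osc hL hs g z).trans ?_
    have h2 : (nrm z : ℝ) ≤ b := by exact_mod_cast hQ z hz
    have h3 : 0 ≤ ∑ x, |g x| := Finset.sum_nonneg fun _ _ => abs_nonneg _
    gcongr
  refine (Finset.sum_le_sum h1).trans (le_of_eq ?_)
  rw [Finset.sum_const, nsmul_eq_mul]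
  ring

end Pool.Agent.Stirring.QK
end

section

/-! The torus heat kernel: see Heat3, Heat4, Heat5. -/
end
end
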