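import Pool.Agent.Lib.MP_6c3d62_pr.Mg.G056
import Pool.Agent.Lib.MP_6c3d62_pr.Mg.G059
import Pool.Agent.Lib.MP_6c3d62_pr.Mg.G057

section

section

/-! Hidden coins, A6: the cubes and the windows of the torus. `r` = side of the cubes, `K = L / r`
cubes per direction, colours = corners of the cubes, windows = `box (x + u) b`. -/

open Finset

set_option linter.unusedSectionVars false

namespace Pool.Agent.Stirring.HC

variable {d L : ℕ} [NeZero L]

/-- The corner of the cube of side `r` which contains `z` (`none` in the rest of the torus). -/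
def cor (r : ℕ) (z : Fin d → ZMod L) : Option (Fin d → ZMod L) :=
  if ∀ j, (z j).val / r < L / r then some fun j => ((r * ((z j).val / r) : ℕ) : ZMod L) else none

/-- The corners. -/
def cors (d L r : ℕ) : Finset (Fin d → ZMod L) :=
  (Fintype.piFinset fun _ : Fin d => range (L / r)).image fun i j => ((r * i j : ℕ) : ZMod L)

/-- A vector of naturals as an element of the torus. -/
def vec (d L : ℕ) (u : Fin d → ℕ) : Fin d → ZMod L := fun j => ((u j : ℕ) : ZMod L)

/-- The window of the cube with corner `x`. -/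
def wnd (u : Fin d → ℕ) (b : ℕ) (x : Fin d → ZMod L) : Finset (Fin d → ZMod L) :=
  box (x + vec d L u) b

theorem a6_lt {r i c : ℕ} (hi : i < L / r) (hc : c < r) : r * i + c < L := by
  have h1 : r * (i + 1) ≤ L := (Nat.mul_le_mul_left r hi).trans (Nat.mul_div_le L r)
  have h2 : r * (i + 1) = r * i + r := by ring
  omega

theorem a6_mem_cors {r : ℕ} {x : Fin d → ZMod L} : x ∈ cors d L r ↔
    ∃ i : Fin d → ℕ, (∀ j, i j < L / r) ∧ x = fun j => ((r * i j : ℕ) : ZMod L) := by
  unfold cors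
  rw [Finset.mem_image]
  constructor
  · rintro ⟨i, hi, rfl⟩
    exact ⟨i, fun j => Finset.mem_range.mp (Fintype.mem_piFinset.mp hi j), rfl⟩
  · rintro ⟨i, hi, rfl⟩
    exact ⟨i, Fintype.mem_piFinset.mpr fun j => Finset.mem_range.mpr (hi j), rfl⟩

theorem a6_cor {r : ℕ} {i c : Fin d → ℕ} {z : Fin d → ZMod L} (hi : ∀ j, i j < L / r)
    (hc : ∀ j, c j < r) (hz : ∀ j, z j = ((r * i j + c j : ℕ) : ZMod L)) :
    cor r z = some fun j => ((r * i j : ℕ) : ZMod L) := by
  have h : ∀ j, (z j).val / r = i j := fun j => by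
    rw [hz j, ZMod.val_natCast_of_lt (a6_lt (hi j) (hc j)),
      Nat.mul_add_div (by have := hc j; omega), Nat.div_eq_of_lt (hc j), add_zero]
  unfold cor
  rw [if_pos fun j => by rw [h j]; exact hi j]
  congr 1
  funext j
  rw [h j]

theorem a6_inj {r : ℕ} {i i' c c' : Fin d → ℕ} (hi : ∀ j, i j < L / r) (hc : ∀ j, c j < r)
    (hi' : ∀ j, i' j < L / r) (hc' : ∀ j, c' j < r)
    (h : ∀ j, ((r * i j + c j : ℕ) : ZMod L) = ((r * i' j + c' j : ℕ) : ZMod L)) :
    i = i' ∧ c = c' := by
  have h1 : ∀ j, r * i j + c j = r * i' j + c' j := fun j => by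
    have := congrArg ZMod.val (h j)
    rwa [ZMod.val_natCast_of_lt (a6_lt (hi j) (hc j)),
      ZMod.val_natCast_of_lt (a6_lt (hi' j) (hc' j))] at this
  have h2 : i = i' := by
    funext j
    have h3 := congrArg (· / r) (h1 j)
    rwa [Nat.mul_add_div (by have := hc j; omega), Nat.mul_add_div (by have := hc j; omega),
      Nat.div_eq_of_lt (hc j), Nat.div_eq_of_lt (hc' j), add_zero, add_zero] at h3
  subst h2
  refine ⟨rfl, ?_⟩
  funext j
  exact Nat.add_left_cancel (h1 j)

theorem card_cors {r : ℕ} (hr : 1 ≤ r) : (cors d L r).card = (L / r) ^ d := by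
  unfold cors
  rw [Finset.card_image_of_injOn, Fintype.card_piFinset]
  · simp
  · intro i hi i' hi' h
    have hi1 : ∀ j, i j < L / r := fun j =>
      Finset.mem_range.mp (Fintype.mem_piFinset.mp (Finset.mem_coe.mp hi) j)
    have hi2 : ∀ j, i' j < L / r := fun j =>
      Finset.mem_range.mp (Fintype.mem_piFinset.mp (Finset.mem_coe.mp hi') j)
    exact (a6_inj (c := fun _ => 0) (c' := fun _ => 0) hi1 (fun _ => hr) hi2 (fun _ => hr)
      (fun j => congrFun h j)).1

theorem cor_mem {r : ℕ} {x z : Fin d → ZMod L} (h : cor r z = some x) : x ∈ cors d L r := by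
  unfold cor at h
  split_ifs at h with h1
  exact a6_mem_cors.mpr ⟨fun j => (z j).val / r, h1, (Option.some.inj h).symm⟩

/-- The window lies in its cube. -/
theorem cor_wnd {r b : ℕ} {u : Fin d → ℕ} (hu : ∀ j, u j + b ≤ r) {x z : Fin d → ZMod L}
    (hx : x ∈ cors d L r) (hz : z ∈ wnd u b x) : cor r z = some x := by
  obtain ⟨i, hi, rfl⟩ := a6_mem_cors.mp hx
  obtain ⟨c, hc, rfl⟩ := mem_box.mp hz
  refine a6_cor (c := fun j => u j + c j) hi (fun j => ?_) (fun j => ?_)
  · have := hu j
    have := hc j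
    omega
  · simp only [Pi.add_apply, vec]
    push_cast
    ring

/-- The windows are disjoint, also after a shift. -/
theorem wnd_disj {r b : ℕ} {u : Fin d → ℕ} (hu : ∀ j, u j + b ≤ r) {x y z : Fin d → ZMod L}
    (hx : x ∈ cors d L r) (hy : y ∈ cors d L r) (hz : z ∈ wnd u b x) (hz' : z ∈ wnd u b y) :
    x = y :=
  Option.some.inj ((cor_wnd hu hx hz).symm.trans (cor_wnd hu hy hz'))

/-- A site outside the cube is far from the window. -/
theorem far_wnd {r b : ℕ} {u : Fin d → ℕ} (hu : ∀ j, r / 4 < u j) (hu' : ∀ j, u j ≤ 2 * (r / 4))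
    (hb : 8 * b ≤ r) {x z z' : Fin d → ZMod L} (hx : x ∈ cors d L r) (hz : z ∈ wnd u b x)
    (hz' : cor r z' ≠ some x) : (r : ℝ) / 4 ≤ QK.nrm (z' - z) := by
  by_contra hcon
  apply hz'
  have h1 : 4 * QK.nrm (z' - z) < r := by
    have h2 : (QK.nrm (z' - z) : ℝ) < r / 4 := not_le.mp hcon
    have h3 : (4 * QK.nrm (z' - z) : ℝ) < r := by linarith
    exact_mod_cast h3
  obtain ⟨i, hi, rfl⟩ := a6_mem_cors.mp hx
  obtain ⟨c, hc, rfl⟩ := mem_box.mp hz
  set z := ((fun j => ((r * i j : ℕ) : ZMod L)) + vec d L u) + fun j => ((c j : ℕ) : ZMod L)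
    with hzdef
  set m : Fin d → ℤ := fun j => ((z' - z) j).valMinAbs with hm
  have h4 : ∀ j, (m j).natAbs ≤ QK.nrm (z' - z) := fun j =>
    Finset.le_sup (f := fun i => ((z' - z) i).valMinAbs.natAbs) (Finset.mem_univ j)
  have h5 : ∀ j, (0 : ℤ) ≤ (u j + c j : ℤ) + m j := fun j => by
    have := h4 j
    have := hu j
    omega
  have h6 : ∀ j, ((u j + c j : ℤ) + m j) < r := fun j => by
    have := h4 j
    have := hu j
    have := hu' j
    have := hc j
    omega
  refine a6_cor (c := fun j => ((u j + c j : ℤ) + m j).toNat) hi (fun j => ?_) (fun j => ?_)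
  · have := h5 j
    have := h6 j
    omega
  · have h7 : z' j = z j + (m j : ZMod L) := by
      rw [hm]
      simp only [Pi.sub_apply, ZMod.coe_valMinAbs]
      ring
    have h8 : ((((u j + c j : ℤ) + m j).toNat : ℕ) : ZMod L) = (u j : ZMod L) + (c j : ZMod L) +
        (m j : ZMod L) := by
      have h9 : ((((u j + c j : ℤ) + m j).toNat : ℤ) : ZMod L) =
          (((u j + c j : ℤ) + m j : ℤ) : ZMod L) := by rw [Int.toNat_of_nonneg (h5 j)]
      rw [Int.cast_natCast] at h9
      rw [h9]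
      push_cast
      ring
    rw [h7, Nat.cast_add, h8, hzdef]
    simp only [Pi.add_apply, vec]
    ring

/-- The torus and the cubes. -/
theorem card_torus {r : ℕ} (hr : 8 ≤ r) (hL : 2 * r ≤ L) :
    ((L : ℝ) ^ d) ≤ 12 ^ d * ((L / r : ℕ) : ℝ) ^ d * ((r / 4 : ℕ) : ℝ) ^ d := by
  rw [← mul_pow, ← mul_pow]
  refine pow_le_pow_left₀ (Nat.cast_nonneg L) ?_ d
  have h1 : 2 ≤ L / r := (Nat.le_div_iff_mul_le (by omega)).mpr hL
  have h2 : L < r * (L / r) + r := by
    have := Nat.div_add_mod L r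
    have := Nat.mod_lt L (show 0 < r by omega)
    omega
  have h3 : r ≤ 4 * (r / 4) + 3 := by omega
  have h4 : 2 ≤ r / 4 := by omega
  have h5 : L ≤ 12 * (L / r) * (r / 4) := by
    have h6 : 2 * r ≤ 12 * (r / 4) := by omega
    have h7 : r ≤ 6 * (r / 4) := by omega
    have h8 : L ≤ 2 * r * (L / r) := by nlinarith
    calc L ≤ 2 * r * (L / r) := h8
      _ ≤ 12 * (r / 4) * (L / r) := Nat.mul_le_mul_right _ h6
      _ = 12 * (L / r) * (r / 4) := by ring
  exact_mod_cast h5

/-- Choice of the offset of the windows. -/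
theorem exists_offset {r b : ℕ} (hr : 8 ≤ r) (hb : 8 * b ≤ r) {f : (Fin d → ZMod L) → ℝ}
    (hf : ∀ z, 0 ≤ f z) : ∃ u : Fin d → ℕ, (∀ j, r / 4 < u j) ∧ (∀ j, u j ≤ 2 * (r / 4)) ∧
      ((r / 4 : ℕ) : ℝ) ^ d * ∑ x ∈ cors d L r, ∑ z ∈ wnd u b x, f z ≤ (b : ℝ) ^ d * ∑ z, f z := by
  classical
  set U : Finset (Fin d → ℕ) := Fintype.piFinset fun _ : Fin d => range (r / 4) with hU
  have hU0 : U.Nonempty := ⟨fun _ => 0, by
    rw [hU, Fintype.mem_piFinset]
    intro j
    rw [Finset.mem_range]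
    omega⟩
  have hUc : (U.card : ℝ) = ((r / 4 : ℕ) : ℝ) ^ d := by
    rw [hU, Fintype.card_piFinset]
    simp
  set u : (Fin d → ℕ) → Fin d → ℕ := fun v j => r / 4 + 1 + v j with hu
  set g : (Fin d → ℕ) → ℝ := fun v => ∑ x ∈ cors d L r, ∑ z ∈ wnd (u v) b x, f z with hg
  obtain ⟨v, hv, hmin⟩ := U.exists_min_image g hU0
  have hUlt : ∀ v' ∈ U, ∀ j, v' j < r / 4 := fun v' hv' j =>
    Finset.mem_range.mp (Fintype.mem_piFinset.mp hv' j)
  refine ⟨u v, fun j => ?_, fun j => ?_, ?_⟩
  · simp only [hu]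
    omega
  · have := hUlt v hv j
    simp only [hu]
    omega
  have h1 : ((r / 4 : ℕ) : ℝ) ^ d * g v ≤ ∑ v' ∈ U, g v' := by
    rw [← hUc, ← nsmul_eq_mul]
    exact Finset.card_nsmul_le_sum U g (g v) hmin
  set cv : (Fin d → Fin b) → Fin d → ZMod L := fun c j => (((c j : ℕ)) : ZMod L) with hcv
  have h2 : ∀ v' ∈ U, g v' ≤ ∑ c : Fin d → Fin b, ∑ x ∈ cors d L r,
      f (x + vec d L (u v') + cv c) := by
    intro v' _
    rw [hg, Finset.sum_comm]
    refine Finset.sum_le_sum fun x _ => ?_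
    exact Finset.sum_image_le_of_nonneg fun c _ => hf _
  have h3 : ∀ c : Fin d → Fin b, ∑ v' ∈ U, ∑ x ∈ cors d L r, f (x + vec d L (u v') + cv c) ≤
      ∑ z, f z := by
    intro c
    rw [← Finset.sum_product']
    rw [← Finset.sum_image (f := f) (s := U ×ˢ cors d L r)
      (g := fun p => p.2 + vec d L (u p.1) + cv c)]
    · exact Finset.sum_le_sum_of_subset_of_nonneg (Finset.subset_univ _) fun _ _ _ => hf _
    · rintro ⟨v1, x1⟩ hp1 ⟨v2, x2⟩ hp2 heq
      rw [Finset.mem_coe, Finset.mem_product] at hp1 hp2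
      obtain ⟨i1, hi1, rfl⟩ := a6_mem_cors.mp hp1.2
      obtain ⟨i2, hi2, rfl⟩ := a6_mem_cors.mp hp2.2
      have hv1 := hUlt v1 hp1.1
      have hv2 := hUlt v2 hp2.1
      have h4 := a6_inj (L := L) (r := r) (i := i1) (i' := i2)
        (c := fun j => u v1 j + c j) (c' := fun j => u v2 j + c j) hi1
        (fun j => by
          have := hv1 j
          have := (c j).2
          simp only [hu]
          omega) hi2
        (fun j => by
          have := hv2 j
          have := (c j).2
          simp only [hu]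
          omega)
        (fun j => by
          have h5 := congrFun heq j
          simp only [Pi.add_apply, vec, hcv] at h5
          push_cast at h5 ⊢
          rw [← add_assoc, ← add_assoc]
          exact h5)
      have h6 : v1 = v2 := by
        funext j
        have := congrFun h4.2 j
        simp only [hu] at this
        omega
      rw [h6, h4.1]
  calc ((r / 4 : ℕ) : ℝ) ^ d * g v ≤ ∑ v' ∈ U, g v' := h1
    _ ≤ ∑ v' ∈ U, ∑ c : Fin d → Fin b, ∑ x ∈ cors d L r, f (x + vec d L (u v') + cv c) :=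
        Finset.sum_le_sum h2
    _ = ∑ c : Fin d → Fin b, ∑ v' ∈ U, ∑ x ∈ cors d L r, f (x + vec d L (u v') + cv c) :=
        Finset.sum_comm
    _ ≤ ∑ _c : Fin d → Fin b, ∑ z, f z := Finset.sum_le_sum fun c _ => h3 c
    _ = (b : ℝ) ^ d * ∑ z, f z := by
        rw [Finset.sum_const, Finset.card_univ, nsmul_eq_mul, Fintype.card_fun, Fintype.card_fin,
          Fintype.card_fin]
        push_cast
        ring

/-- The total rate and sums against the rates of the torus. -/
theorem sum_tr (f : (Fin d → ZMod L) × (Fin d → ZMod L) → ℝ) :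
    ∑ p, QK.tr d L p * f p = ∑ z, ∑ i, f (z, z + Pi.single i 1) := by
  rw [Fintype.sum_prod_type]
  refine Finset.sum_congr rfl fun z _ => ?_
  simp only [QK.tr, Finset.sum_mul]
  rw [Finset.sum_comm]
  refine Finset.sum_congr rfl fun i _ => ?_
  simp only [ite_mul, one_mul, zero_mul]
  rw [Finset.sum_ite_eq' Finset.univ (z + Pi.single i 1) fun y => f (z, y)]
  simp

theorem tr_nonneg (p : (Fin d → ZMod L) × (Fin d → ZMod L)) : 0 ≤ QK.tr d L p := by
  unfold QK.tr
  exact Finset.sum_nonneg fun i _ => by split_ifs <;> norm_num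

theorem tot_tr_pos (hd : 1 ≤ d) : 0 < Hier.tot (QK.tr d L) := by
  have h := sum_tr (d := d) (L := L) fun _ => 1
  simp only [mul_one] at h
  unfold Hier.tot
  rw [h]
  have h1 : 0 < Fintype.card (Fin d → ZMod L) := Fintype.card_pos
  simp only [Finset.sum_const, Finset.card_univ, nsmul_eq_mul, mul_one, Fintype.card_fin]
  positivity

/-- Displacement: the particle at a site `z` of the window comes from the same cube. -/
theorem disp {r b : ℕ} {u : Fin d → ℕ} (hL : 2 ≤ L) (hr : 8 ≤ r) (hu : ∀ j, r / 4 < u j)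
    (hu' : ∀ j, u j ≤ 2 * (r / 4)) (hb : 8 * b ≤ r) {x z : Fin d → ZMod L}
    (hx : x ∈ cors d L r) (hz : z ∈ wnd u b x) {h : ℝ} (hh : 0 < h) (hh' : (r : ℝ) ≤ 16 * h) :
    Hier.sg (QK.tr d L) h (fun σ => if cor r (σ z) = some x then 0 else 1) 1 ≤
      2 * d * Real.exp (-((r : ℝ) ^ 2 / (128 * h))) := by
  have h1 := QK.sg_one_inv (QK.tr d L) h (fun y => if cor r y = some x then (0 : ℝ) else 1) z
  rw [h1, QK.heat_eq_sum]
  have hk0 : ∀ y, 0 ≤ QK.hk d L h z y := fun y => by
    unfold QK.hk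
    refine QK.heat_nonneg tr_nonneg hh.le (fun w => ?_) z
    by_cases hw : w = y
    · subst hw
      rw [Pi.single_eq_same]
      exact zero_le_one
    · rw [Pi.single_eq_of_ne hw]
  have h2 := QK.hk_tail (d := d) (L := L) hL hh (R := (r : ℝ) / 4) (by positivity)
    (by linarith) z
  have h3 : ((r : ℝ) / 4) ^ 2 / (8 * h) = (r : ℝ) ^ 2 / (128 * h) := by
    field_simp
    ring
  rw [h3] at h2
  refine le_trans ?_ h2
  rw [Finset.sum_filter]
  refine Finset.sum_le_sum fun y _ => ?_
  by_cases hy : cor r y = some x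
  · rw [if_pos hy, mul_zero]
    split_ifs
    · exact hk0 y
    · exact le_refl 0
  · rw [if_neg hy, mul_one, if_pos (far_wnd hu hu' hb hx hz hy)]

/-- All neighbours in a window: total variation of the permutations of the window. `q` is the law
of the hidden permutation. -/
theorem tv_wnd {b : ℕ} (hb : b ≤ L) {p : Equiv.Perm (Fin d → ZMod L) → ℝ} {x : Fin d → ZMod L}
    (s : Equiv.Perm (Fin d → ZMod L)) (hs : ∀ z, z ∉ box x b → s z = z) :
    tv p (rm s p) ≤ 2 * (d * b) * b ^ d * Real.sqrt (∑ z ∈ box x b, ∑ i : Fin d,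
      if z + Pi.single i 1 ∈ box x b then tv p (rm (Equiv.swap z (z + Pi.single i 1)) p) ^ 2
        else 0) := by
  set S : ℝ := ∑ z ∈ box x b, ∑ i : Fin d,
      if z + Pi.single i 1 ∈ box x b then tv p (rm (Equiv.swap z (z + Pi.single i 1)) p) ^ 2
        else 0 with hS
  have h0 : ∀ z ∈ box x b, ∀ i : Fin d, (0 : ℝ) ≤ if z + Pi.single i 1 ∈ box x b then
      tv p (rm (Equiv.swap z (z + Pi.single i 1)) p) ^ 2 else 0 := fun z _ i => by
    split_ifs
    · positivity
    · exact le_refl 0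
  have h1 : ∀ z ∈ box x b, ∀ i : Fin d, z + Pi.single i 1 ∈ box x b →
      tv p (rm (Equiv.swap z (z + Pi.single i 1)) p) ≤ Real.sqrt S := by
    intro z hz i hi
    refine Real.le_sqrt_of_sq_le ?_
    have h2 := Finset.single_le_sum (f := fun z => ∑ i : Fin d,
      if z + Pi.single i 1 ∈ box x b then tv p (rm (Equiv.swap z (z + Pi.single i 1)) p) ^ 2
        else 0) (fun z hz => Finset.sum_nonneg fun i _ => h0 z hz i) hz
    have h3 := Finset.single_le_sum (f := fun i : Fin d =>
      if z + Pi.single i 1 ∈ box x b then tv p (rm (Equiv.swap z (z + Pi.single i 1)) p) ^ 2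
        else 0) (fun i _ => h0 z hz i) (Finset.mem_univ i)
    rw [if_pos hi] at h3
    exact h3.trans h2
  have h4 := tv_box (p := p) (x := x) hb (Real.sqrt_nonneg S) (fun z hz z' hz' hn => by
    obtain ⟨i, rfl | rfl⟩ := hn
    · exact h1 z hz i hz'
    · rw [Equiv.swap_comm]
      exact h1 z' hz' i hz) s hs
  refine h4.trans (le_of_eq ?_)
  push_cast
  ring

end Pool.Agent.Stirring.HC
end

section

/-! Hidden coins, local version of A5: the shuffles of an arbitrary set of windows may be left out. -/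

open Finset

set_option linter.unusedSectionVars false

namespace Pool.Agent.Stirring.HC

variable {V : Type} [Fintype V] [DecidableEq V] {I : Type} [DecidableEq I]

/-- `Φ P` is the law of `T * ∏ s_i` with independent `s_i` of density at most four in the windows
`i` of a random set `l` of good indices, for `i` with `P i` only; `g` bounds the mean number of good
indices from below. -/
def DecP (W : I → Finset V) (D : Finset V) (cs : List I) (g : ℝ)
    (Φ : (I → Bool) → (Equiv.Perm V → ℝ) → ℝ) : Prop :=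
  ∃ (Ξ : Type) (_ : Fintype Ξ) (w : Ξ → ℝ) (T : Ξ → Equiv.Perm V) (l : Ξ → List I)
    (μ : Ξ → I → Equiv.Perm V → ℝ), (∀ ξ, 0 ≤ w ξ) ∧ (∀ ξ, w ξ ≠ 0 → ∀ z, z ∉ D → T ξ z = z) ∧
    (∀ ξ, (l ξ).Sublist cs) ∧ (∀ ξ, ∀ i ∈ l ξ, WLaw (W i) (μ ξ i)) ∧
    (∀ P F, Φ P F = ∑ ξ, w ξ * El (μ ξ) ((l ξ).filter P) (fun π => F (T ξ * π))) ∧
    g ≤ ∑ ξ, w ξ * (l ξ).length

variable {W : I → Finset V} {D : Finset V} {cs : List I}

theorem DecP.congr {g : ℝ} {Φ Ψ : (I → Bool) → (Equiv.Perm V → ℝ) → ℝ} (h : DecP W D cs g Φ)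
    (h2 : ∀ P F, Ψ P F = Φ P F) {g' : ℝ} (hg : g' ≤ g) : DecP W D cs g' Ψ := by
  obtain ⟨Ξ, _, w, T, l, μ, h3, h4, h5, h6, h8, h9⟩ := h
  exact ⟨Ξ, _, w, T, l, μ, h3, h4, h5, h6, fun P F => (h2 P F).trans (h8 P F), hg.trans h9⟩

theorem DecP.mono {g : ℝ} {Φ : (I → Bool) → (Equiv.Perm V → ℝ) → ℝ} (h : DecP W D cs g Φ)
    {D' : Finset V} (hD : D ⊆ D') {cs' : List I} (hcs : cs.Sublist cs') :
    DecP W D' cs' g Φ := by
  obtain ⟨Ξ, _, w, T, l, μ, h3, h4, h5, h6, h8, h9⟩ := h
  exact ⟨Ξ, _, w, T, l, μ, h3, fun ξ hξ z hz => h4 ξ hξ z fun h => hz (hD h),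
    fun ξ => (h5 ξ).trans hcs, h6, h8, h9⟩

theorem DecP.zero (W : I → Finset V) (D : Finset V) (cs : List I) :
    DecP W D cs 0 (fun _ _ => 0) :=
  ⟨Empty, inferInstance, fun _ => 0, fun _ => 1, fun _ => [], fun _ _ _ => 0,
    fun ξ => ξ.elim, fun ξ => ξ.elim, fun ξ => ξ.elim, fun ξ => ξ.elim, fun P F => by simp,
    by simp⟩

theorem DecP.add {g g' : ℝ} {Φ Ψ : (I → Bool) → (Equiv.Perm V → ℝ) → ℝ}
    (h : DecP W D cs g Φ) (h' : DecP W D cs g' Ψ) :
    DecP W D cs (g + g') (fun P F => Φ P F + Ψ P F) := by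
  obtain ⟨Ξ, _, w, T, l, μ, h3, h4, h5, h6, h8, h9⟩ := h
  obtain ⟨Ξ', _, w', T', l', μ', h3', h4', h5', h6', h8', h9'⟩ := h'
  refine ⟨Ξ ⊕ Ξ', inferInstance, Sum.elim w w', Sum.elim T T', Sum.elim l l', Sum.elim μ μ',
    ?_, ?_, ?_, ?_, ?_, ?_⟩
  · rintro (ξ | ξ)
    · exact h3 ξ
    · exact h3' ξ
  · rintro (ξ | ξ)
    · exact h4 ξ
    · exact h4' ξ
  · rintro (ξ | ξ)
    · exact h5 ξ
    · exact h5' ξ
  · rintro (ξ | ξ)
    · exact h6 ξ
    · exact h6' ξ
  · intro P F
    show Φ P F + Ψ P F = _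
    rw [Fintype.sum_sum_type, h8, h8']
    rfl
  · rw [Fintype.sum_sum_type]
    exact add_le_add h9 h9'

theorem DecP.smul {g : ℝ} {Φ : (I → Bool) → (Equiv.Perm V → ℝ) → ℝ} (h : DecP W D cs g Φ) {r : ℝ}
    (hr : 0 ≤ r) : DecP W D cs (r * g) (fun P F => r * Φ P F) := by
  obtain ⟨Ξ, _, w, T, l, μ, h3, h4, h5, h6, h8, h9⟩ := h
  refine ⟨Ξ, inferInstance, fun ξ => r * w ξ, T, l, μ, fun ξ => mul_nonneg hr (h3 ξ), ?_, h5, h6,
    ?_, ?_⟩
  · intro ξ hξ
    exact h4 ξ (right_ne_zero_of_mul hξ)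
  · intro P F
    show r * Φ P F = _
    rw [h8, Finset.mul_sum]
    exact Finset.sum_congr rfl fun ξ _ => by ring
  · refine (mul_le_mul_of_nonneg_left h9 hr).trans (le_of_eq ?_)
    rw [Finset.mul_sum]
    exact Finset.sum_congr rfl fun ξ _ => by ring

theorem DecP.sum {ι : Type*} (t : Finset ι) {g : ι → ℝ}
    {Φ : ι → (I → Bool) → (Equiv.Perm V → ℝ) → ℝ}
    (h : ∀ j ∈ t, DecP W D cs (g j) (Φ j)) :
    DecP W D cs (∑ j ∈ t, g j) (fun P F => ∑ j ∈ t, Φ j P F) := by
  classical
  induction t using Finset.induction_on with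
  | empty => simpa using DecP.zero W D cs
  | insert a t ha ih =>
    have h1 := (h a (Finset.mem_insert_self _ _)).add
      (ih fun j hj => h j (Finset.mem_insert_of_mem hj))
    refine h1.congr (fun P F => ?_) (le_of_eq ?_)
    · rw [Finset.sum_insert ha]
    · rw [Finset.sum_insert ha]

theorem DecP.pure (W : I → Finset V) {D : Finset V} (cs : List I) {T : Equiv.Perm V}
    (hT : ∀ z, z ∉ D → T z = z) : DecP W D cs 0 (fun _ F => F T) := by
  refine ⟨Unit, inferInstance, fun _ => 1, fun _ => T, fun _ => [], fun _ _ _ => 0,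
    fun _ => zero_le_one, fun _ _ => hT, fun _ => List.nil_sublist _, ?_,
    fun P F => by simp [El], by simp⟩
  intro _ i hi
  exact absurd hi (by simp)

theorem DecP.tail (W : I → Finset V) (cs : List I) {b : Equiv.Perm V → ℝ} (hb : ∀ π, 0 ≤ b π) :
    DecP W univ cs 0 (fun _ F => ∑ π, b π * F π) := by
  have h := DecP.sum (W := W) (D := univ) (cs := cs) (univ : Finset (Equiv.Perm V))
    (g := fun _ => b _ * 0) (Φ := fun π _ F => b π * F π)
    (fun π _ => (DecP.pure W cs (fun z hz => absurd (Finset.mem_univ z) hz)).smul (hb π))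
  refine h.congr (fun P F => rfl) (by simp)

/-- Multiplication from the left by a fixed permutation. -/
theorem DecP.lmul {g : ℝ} {Φ : (I → Bool) → (Equiv.Perm V → ℝ) → ℝ} (h : DecP W D cs g Φ)
    {η : Equiv.Perm V} (hη : ∀ z, z ∉ D → η z = z) :
    DecP W D cs g (fun P F => Φ P (fun σ => F (η * σ))) := by
  obtain ⟨Ξ, _, w, T, l, μ, h3, h4, h5, h6, h8, h9⟩ := h
  refine ⟨Ξ, inferInstance, w, fun ξ => η * T ξ, l, μ, h3, ?_, h5, h6, ?_, h9⟩
  · intro ξ hξ z hz
    rw [Equiv.Perm.mul_apply, h4 ξ hξ z hz, hη z hz]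
  · intro P F
    show Φ P _ = _
    rw [h8]
    simp only [mul_assoc]

/-- One more window, with a shuffle. -/
theorem DecP.unit {g : ℝ} {Φ : (I → Bool) → (Equiv.Perm V → ℝ) → ℝ} (h : DecP W D cs g Φ)
    {C : Finset V} (hCD : Disjoint C D) {i : I} (hi : i ∉ cs) (hW : W i ⊆ C)
    (h1 : Φ (fun _ => false) (fun _ => 1) = 1) {ρ : Equiv.Perm V} (hρ : ∀ z, z ∉ C → ρ z = z)
    {m : Equiv.Perm V → ℝ} (hm : WLaw (W i) m) :
    DecP W (C ∪ D) (i :: cs) (g + 1) (fun P F => if P i then
      ∑ s, m s * Φ P (fun σ => F (ρ * s * σ)) else Φ P (fun σ => F (ρ * σ))) := by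
  obtain ⟨Ξ, _, w, T, l, μ, h3, h4, h5, h6, h8, h9⟩ := h
  have hil : ∀ ξ, i ∉ l ξ := fun ξ hc => hi ((h5 ξ).subset hc)
  have hEl : ∀ ξ (P : I → Bool) (F : Equiv.Perm V → ℝ),
      El (Function.update (μ ξ) i m) ((l ξ).filter P) F = El (μ ξ) ((l ξ).filter P) F := by
    intro ξ P
    have : ∀ (l' : List I), i ∉ l' → ∀ F : Equiv.Perm V → ℝ,
        El (Function.update (μ ξ) i m) l' F = El (μ ξ) l' F := by
      intro l'
      induction l' with
      | nil => intro _ F; rfl
      | cons j l' ih =>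
        intro hj F
        have hj1 : j ≠ i := fun e => hj (by rw [e]; exact List.mem_cons_self)
        have hj2 : i ∉ l' := fun e => hj (List.mem_cons_of_mem _ e)
        unfold El
        rw [Function.update_of_ne hj1]
        exact Finset.sum_congr rfl fun π _ => by rw [ih hj2]
    exact this _ fun hc => hil ξ (List.mem_of_mem_filter hc)
  refine ⟨Ξ, inferInstance, w, fun ξ => ρ * T ξ, fun ξ => i :: l ξ,
    fun ξ => Function.update (μ ξ) i m, h3, ?_, fun ξ => (h5 ξ).cons_cons i, ?_, ?_, ?_⟩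
  · intro ξ hξ z hz
    rw [Finset.mem_union, not_or] at hz
    rw [Equiv.Perm.mul_apply, h4 ξ hξ z hz.2, hρ z hz.1]
  · intro ξ j hj
    rcases eq_or_ne j i with rfl | hne
    · show WLaw (W j) (Function.update (μ ξ) j m j)
      rw [Function.update_self]; exact hm
    · show WLaw (W j) (Function.update (μ ξ) i m j)
      rw [Function.update_of_ne hne]
      exact h6 ξ j ((List.mem_cons.mp hj).resolve_left hne)
  · intro P F
    by_cases hPi : P i = true
    swap
    · have hf : ∀ ξ, (i :: l ξ).filter P = (l ξ).filter P := fun ξ =>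
        List.filter_cons_of_neg hPi
      simp only [if_neg hPi, hf, hEl]
      rw [h8]
      simp only [mul_assoc]
    have hf : ∀ ξ, (i :: l ξ).filter P = i :: (l ξ).filter P := fun ξ =>
      List.filter_cons_of_pos hPi
    simp only [if_pos hPi, hf]
    calc ∑ s, m s * Φ P (fun σ => F (ρ * s * σ))
        = ∑ s, ∑ ξ, w ξ * (m s * El (μ ξ) ((l ξ).filter P)
            (fun π => F (ρ * T ξ * (s * π)))) := by
          refine Finset.sum_congr rfl fun s _ => ?_
          rw [h8, Finset.mul_sum]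
          refine Finset.sum_congr rfl fun ξ _ => ?_
          by_cases hw : w ξ = 0
          · rw [hw]; ring
          by_cases hms : m s = 0
          · rw [hms]; ring
          have hcomm : s * T ξ = T ξ * s := by
            ext z
            rw [Equiv.Perm.mul_apply, Equiv.Perm.mul_apply]
            by_cases hz : z ∈ C
            · have hzD : z ∉ D := Finset.disjoint_left.mp hCD hz
              rw [h4 ξ hw z hzD]
              have hsz : s z ∈ C := by
                by_contra hcon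
                have h10 := hm.supp s hms (s z) (fun h => hcon (hW h))
                rw [s.injective h10] at hcon
                exact hcon hz
              rw [h4 ξ hw (s z) (Finset.disjoint_left.mp hCD hsz)]
            · rw [hm.supp s hms z (fun h => hz (hW h))]
              refine hm.supp s hms (T ξ z) (fun h => hz ?_)
              have hTz : T ξ z ∉ D := Finset.disjoint_left.mp hCD (hW h)
              have h11 := h4 ξ hw (T ξ z) hTz
              have h12 := (T ξ).injective h11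
              rw [h12] at h
              exact hW h
          have h13 : (fun π => F (ρ * s * (T ξ * π))) = fun π => F (ρ * T ξ * (s * π)) := by
            funext π
            rw [mul_assoc, ← mul_assoc s, hcomm]
            simp only [mul_assoc]
          rw [h13]
          ring
      _ = ∑ ξ, w ξ * El (Function.update (μ ξ) i m) (i :: (l ξ).filter P)
            (fun π => F (ρ * T ξ * π)) := by
          rw [Finset.sum_comm]
          refine Finset.sum_congr rfl fun ξ _ => ?_
          rw [← Finset.mul_sum]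
          congr 1
          show _ = ∑ π, Function.update (μ ξ) i m i π *
            El (Function.update (μ ξ) i m) ((l ξ).filter P) (fun σ => F (ρ * T ξ * (π * σ)))
          rw [Function.update_self]
          exact Finset.sum_congr rfl fun s _ => by rw [hEl]
  · have hw1 : ∑ ξ, w ξ = 1 := by
      rw [← h1, h8]
      refine Finset.sum_congr rfl fun ξ _ => ?_
      have : (l ξ).filter (fun _ => false) = [] := by simp
      rw [this]
      show w ξ = w ξ * 1
      ring
    have h14 : ∑ ξ, w ξ * ((i :: l ξ).length : ℝ) = ∑ ξ, w ξ * (l ξ).length + 1 := by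
      rw [← hw1, ← Finset.sum_add_distrib]
      refine Finset.sum_congr rfl fun ξ _ => ?_
      rw [List.length_cons]
      push_cast
      ring
    rw [h14]
    linarith

/-- One more window whose hidden law is nearly invariant. -/
theorem DecP.cons {g : ℝ} {Φ : (I → Bool) → (Equiv.Perm V → ℝ) → ℝ} (h : DecP W D cs g Φ)
    {C : Finset V} (hCD : Disjoint C D) {i : I} (hi : i ∉ cs) (hW : W i ⊆ C)
    (h1 : Φ (fun _ => false) (fun _ => 1) = 1) {p : Equiv.Perm V → ℝ} (hp : IsLaw p)
    (hC : SuppIn C p) {e : ℝ}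
    (he : ∀ s : Equiv.Perm V, (∀ z, z ∉ W i → s z = z) → tv p (rm s p) ≤ e) :
    DecP W (C ∪ D) (i :: cs) (g + (1 - 2 * e))
      (fun P F => ∑ π, p π * Φ P (fun σ => F (π * σ))) := by
  obtain ⟨a, bb, mu, ha, hbb, hab, hmu1, hmu2, hmu3, hbe, _, hF⟩ := decomp hp he
  obtain ⟨hCa, hCb⟩ := decomp_supp hC ha hbb hab
  have hA : DecP W (C ∪ D) (i :: cs) (∑ ρ, a ρ * (g + 1))
      (fun P F => ∑ ρ, a ρ * (if P i then
        ∑ s, mu ρ s * Φ P (fun σ => F (ρ * s * σ)) else Φ P (fun σ => F (ρ * σ)))) := by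
    refine DecP.sum univ fun ρ _ => ?_
    by_cases hρ : a ρ = 0
    · exact (DecP.zero W (C ∪ D) (i :: cs)).congr
        (fun P F => by rw [hρ, zero_mul]) (by rw [hρ, zero_mul])
    · exact (h.unit hCD hi hW h1 (hCa ρ hρ) ⟨hmu1 ρ, hmu2 ρ, hmu3 ρ⟩).smul (ha ρ)
  have hB : DecP W (C ∪ D) (i :: cs) (∑ ρ, bb ρ * g)
      (fun P F => ∑ ρ, bb ρ * Φ P (fun σ => F (ρ * σ))) := by
    refine DecP.sum univ fun ρ _ => ?_
    by_cases hρ : bb ρ = 0
    · exact (DecP.zero W (C ∪ D) (i :: cs)).congr
        (fun P F => by rw [hρ, zero_mul]) (by rw [hρ, zero_mul])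
    · exact ((h.mono Finset.subset_union_right (List.sublist_cons_self i cs)).lmul
        (η := ρ) (fun z hz => hCb ρ hρ z fun hz' => hz (Finset.mem_union_left _ hz'))).smul (hbb ρ)
  refine (hA.add hB).congr (fun P F => ?_) ?_
  · by_cases hPi : P i = true
    · simp only [if_pos hPi]
      exact hF (fun π => Φ P (fun σ => F (π * σ)))
    · simp only [if_neg hPi]
      rw [← Finset.sum_add_distrib]
      refine Finset.sum_congr rfl fun ρ _ => ?_
      rw [← hab ρ]; ring
  · have h2 : ∑ ρ, a ρ + ∑ ρ, bb ρ = 1 := by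
      rw [← Finset.sum_add_distrib, ← hp.one]
      exact Finset.sum_congr rfl fun ρ _ => hab ρ
    rw [← Finset.sum_mul, ← Finset.sum_mul]
    have h3 : (∑ ρ, a ρ) * (g + 1) + (∑ ρ, bb ρ) * g = (∑ ρ, a ρ + ∑ ρ, bb ρ) * g + ∑ ρ, a ρ := by
      ring
    rw [h3, h2]
    linarith

/-- One more window without shuffle. -/
theorem DecP.cons' {g : ℝ} {Φ : (I → Bool) → (Equiv.Perm V → ℝ) → ℝ} (h : DecP W D cs g Φ)
    {C : Finset V} {i : I} {p : Equiv.Perm V → ℝ} (hp : IsLaw p)
    (hC : SuppIn C p) :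
    DecP W (C ∪ D) (i :: cs) g (fun P F => ∑ π, p π * Φ P (fun σ => F (π * σ))) := by
  have hB : DecP W (C ∪ D) (i :: cs) (∑ ρ, p ρ * g)
      (fun P F => ∑ ρ, p ρ * Φ P (fun σ => F (ρ * σ))) := by
    refine DecP.sum univ fun ρ _ => ?_
    by_cases hρ : p ρ = 0
    · exact (DecP.zero W (C ∪ D) (i :: cs)).congr
        (fun P F => by rw [hρ, zero_mul]) (by rw [hρ, zero_mul])
    · exact ((h.mono Finset.subset_union_right (List.sublist_cons_self i cs)).lmul
        (η := ρ) (fun z hz => hC ρ hρ z fun hz' => hz (Finset.mem_union_left _ hz'))).smul (hp.nn ρ)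
  refine hB.congr (fun P F => rfl) ?_
  rw [← Finset.sum_mul, hp.one, one_mul]

theorem decP_El {κ₀ : V → Option I} {s : St V I} (h : Inv κ₀ s) {e : St V I → I → ℝ}
    (he : ∀ i, W i ⊆ cls s.κ i → ∀ σ : Equiv.Perm V, (∀ z, z ∉ W i → σ z = z) →
      tv (s.q i) (rm σ (s.q i)) ≤ e s i) (l : List I) (hl : l.Nodup) :
    DecP W (univ.filter fun z => ∃ i ∈ l, s.κ z = some i) l (gd W e l s)
      (fun _ => El s.q l) := by
  induction l with
  | nil =>
    have := DecP.pure W (D := univ.filter fun z => ∃ i ∈ ([] : List I), s.κ z = some i) []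
      (T := 1) (fun z _ => rfl)
    exact this.congr (fun P F => rfl) (by simp [gd])
  | cons i l ih =>
    have hl' := List.nodup_cons.mp hl
    have h1 := ih hl'.2
    have hdis : Disjoint (cls s.κ i) (univ.filter fun z => ∃ j ∈ l, s.κ z = some j) := by
      rw [Finset.disjoint_left]
      intro z hz hz'
      simp only [cls, Finset.mem_filter, Finset.mem_univ, true_and] at hz hz'
      obtain ⟨j, hj, hj'⟩ := hz'
      rw [hz] at hj'
      exact hl'.1 (Option.some.inj hj' ▸ hj)
    have hsub : cls s.κ i ∪ (univ.filter fun z => ∃ j ∈ l, s.κ z = some j) ⊆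
        univ.filter fun z => ∃ j ∈ i :: l, s.κ z = some j := by
      intro z hz
      rw [Finset.mem_union] at hz
      simp only [cls, Finset.mem_filter, Finset.mem_univ, true_and] at hz ⊢
      rcases hz with hz | ⟨j, hj, hj'⟩
      · exact ⟨i, List.mem_cons_self, hz⟩
      · exact ⟨j, List.mem_cons_of_mem _ hj, hj'⟩
    have hone : El s.q l (fun _ => 1) = 1 := El_one fun j _ => h.law j
    by_cases hW : W i ⊆ cls s.κ i
    · have h2 := h1.cons hdis hl'.1 hW hone (h.law i) (h.supp i) (he i hW)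
      refine (h2.mono hsub (List.Sublist.refl _)).congr (fun P F => rfl) ?_
      simp only [gd, List.map_cons, List.sum_cons]
      rw [if_pos hW]
      linarith
    · have h2 := h1.cons' (i := i) (h.law i) (h.supp i)
      refine (h2.mono hsub (List.Sublist.refl _)).congr (fun P F => rfl) ?_
      simp only [gd, List.map_cons, List.sum_cons]
      rw [if_neg hW]
      linarith

theorem decP_val {κ₀ : V → Option I} {s : St V I} (h : Inv κ₀ s) {e : St V I → I → ℝ}
    (he : ∀ i, W i ⊆ cls s.κ i → ∀ σ : Equiv.Perm V, (∀ z, z ∉ W i → σ z = z) →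
      tv (s.q i) (rm σ (s.q i)) ≤ e s i) (hcs : cs.Nodup) :
    DecP W univ cs (gd W e cs s) (fun _ => val cs s) :=
  (((decP_El h he cs hcs).mono (Finset.subset_univ _) (List.Sublist.refl _)).lmul
    (η := s.η) (fun z hz => absurd (Finset.mem_univ z) hz)).congr (fun P F => rfl)
    le_rfl

theorem decP_WW {κ₀ : V → Option I} {c : V × V → ℝ} (hc : ∀ p, 0 ≤ c p) {G : St V I → ℝ}
    (hG : ∀ s : St V I, Inv κ₀ s → DecP W univ cs (G s) (fun _ => val cs s)) (n : ℕ)
    {s : St V I} (hs : Inv κ₀ s) :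
    DecP W univ cs (WW c n G s) (fun _ F => WW c n (fun s' => val cs s' F) s) := by
  induction n generalizing s with
  | zero => exact hG s hs
  | succ n ih =>
    have h1 : DecP W univ cs (∑ p : V × V, c p * (1 / 2 * (WW c n G (step s (p, false)) +
        WW c n G (step s (p, true)))))
        (fun _ F => ∑ p : V × V, c p * (1 / 2 * (WW c n (fun s' => val cs s' F)
          (step s (p, false)) + WW c n (fun s' => val cs s' F) (step s (p, true))))) :=
      DecP.sum univ fun p _ => (((ih (hs.step (p, false))).add (ih (hs.step (p, true)))).smul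
        (by norm_num)).smul (hc p)
    refine h1.congr (fun P F => ?_) (le_of_eq ?_)
    · show TT c _ s = _
      unfold TT
      exact Finset.sum_congr rfl fun p _ => by ring
    · show TT c _ s = _
      unfold TT
      exact Finset.sum_congr rfl fun p _ => by ring

/-- The semigroup. -/
theorem decP_sg {κ₀ : V → Option I} (hcs : cs.Nodup) (hcol : ∀ i z, κ₀ z = some i → i ∈ cs)
    {c : V × V → ℝ} (hc : ∀ p, 0 ≤ c p) {h : ℝ} (hh : 0 ≤ h) {G : St V I → ℝ}
    (hG : ∀ s : St V I, Inv κ₀ s → DecP W univ cs (G s) (fun _ => val cs s)) (M : ℕ) :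
    DecP W univ cs (∑ n ∈ range M, pw c h n * WW c n G (st0 κ₀))
      (fun _ F => Hier.sg c h F 1) := by
  obtain ⟨b, hb, hF, _⟩ := sg_tail hc hh M
  have h1 : DecP W univ cs (∑ n ∈ range M, pw c h n * WW c n G (st0 κ₀))
      (fun _ F => ∑ n ∈ range M, pw c h n * WW c n (fun s' => val cs s' F) (st0 κ₀)) :=
    DecP.sum _ fun n _ => (decP_WW hc hG n (inv_st0 κ₀)).smul (pw_nonneg hc hh n)
  have h2 : ∀ F : Equiv.Perm V → ℝ, Hier.sg c h F 1 =
      ∑ n ∈ range M, pw c h n * WW c n (fun s' => val cs s' F) (st0 κ₀) + ∑ π, b π * F π := by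
    intro F
    rw [hF F]
    congr 1
    refine Finset.sum_congr rfl fun n _ => ?_
    rw [← val_WW (inv_st0 κ₀) hcs hcol c F n, val_st0]
  exact (h1.add (DecP.tail W cs hb)).congr (fun _ F => h2 F) (by linarith)

end Pool.Agent.Stirring.HC
end
end

section

section

/-! Hidden coins, A7: one slab, without shift. -/

open Finset

set_option linter.unusedSectionVars false

namespace Pool.Agent.Stirring.HC

variable {d L : ℕ} [NeZero L]

/-- The colour at `z` is not `x`. -/
def badc (x : Fin d → ZMod L) (o : Option (Fin d → ZMod L)) : ℝ := if o = some x then 0 else 1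

/-- Roughness of the hidden laws at the site `z`. -/
noncomputable def rough (s : St (Fin d → ZMod L) (Fin d → ZMod L)) (z : Fin d → ZMod L) : ℝ :=
  ∑ i : Fin d, dd s (z, z + Pi.single i 1)

theorem rough_nonneg (s : St (Fin d → ZMod L) (Fin d → ZMod L)) (z : Fin d → ZMod L) :
    0 ≤ rough s z := Finset.sum_nonneg fun _ _ => dd_nonneg s _

/-- The error of the window `x`. -/
noncomputable def errw (u : Fin d → ℕ) (b : ℕ) (s : St (Fin d → ZMod L) (Fin d → ZMod L))
    (x : Fin d → ZMod L) : ℝ :=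
  2 * (d * b) * b ^ d * Real.sqrt (∑ z ∈ wnd u b x, rough s z)

theorem errw_spec {u : Fin d → ℕ} {b : ℕ} (hb : b ≤ L) (s : St (Fin d → ZMod L) (Fin d → ZMod L))
    (x : Fin d → ZMod L) (hx : wnd u b x ⊆ cls s.κ x) (σ : Equiv.Perm (Fin d → ZMod L))
    (hσ : ∀ z, z ∉ wnd u b x → σ z = z) : tv (s.q x) (rm σ (s.q x)) ≤ errw u b s x := by
  refine (tv_wnd (x := x + vec d L u) hb σ hσ).trans ?_
  unfold errw
  refine mul_le_mul_of_nonneg_left (Real.sqrt_le_sqrt ?_) (by positivity)
  refine Finset.sum_le_sum fun z hz => Finset.sum_le_sum fun i _ => ?_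
  split_ifs with h
  · have h1 : s.κ z = some x := by
      have := hx hz
      simpa [cls] using this
    have h2 : s.κ (z + Pi.single i 1) = some x := by
      have := hx (show z + Pi.single i 1 ∈ wnd u b x from h)
      simpa [cls] using this
    unfold dd
    simp only [h1, h2, if_true]
    exact le_rfl
  · exact dd_nonneg s _

/-- Lower bound for one window. -/
theorem unit_low {u : Fin d → ℕ} {b : ℕ} (s : St (Fin d → ZMod L) (Fin d → ZMod L))
    (x : Fin d → ZMod L) :
    7 / 8 - ∑ z ∈ wnd u b x, badc x (s.κ z) -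
        32 * d ^ 2 * b ^ 2 * (b ^ d) ^ 2 * ∑ z ∈ wnd u b x, rough s z ≤
      if wnd u b x ⊆ cls s.κ x then 1 - 2 * errw u b s x else 0 := by
  have hX : 0 ≤ ∑ z ∈ wnd u b x, rough s z := Finset.sum_nonneg fun z _ => rough_nonneg s z
  have hbad : 0 ≤ ∑ z ∈ wnd u b x, badc x (s.κ z) := Finset.sum_nonneg fun z _ => by
    unfold badc; split_ifs <;> norm_num
  have hA : (0 : ℝ) ≤ 32 * d ^ 2 * b ^ 2 * (b ^ d) ^ 2 * ∑ z ∈ wnd u b x, rough s z := by
    positivity
  split_ifs with h
  · have h1 : (2 * errw u b s x) ^ 2 = 16 * d ^ 2 * b ^ 2 * (b ^ d) ^ 2 *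
        ∑ z ∈ wnd u b x, rough s z := by
      unfold errw
      have h2 := Real.sq_sqrt hX
      calc (2 * (2 * (d * b) * b ^ d * Real.sqrt (∑ z ∈ wnd u b x, rough s z))) ^ 2
          = 16 * d ^ 2 * b ^ 2 * (b ^ d) ^ 2 * (Real.sqrt (∑ z ∈ wnd u b x, rough s z)) ^ 2 := by
            ring
        _ = _ := by rw [h2]
    nlinarith [sq_nonneg (2 * (2 * errw u b s x) - 1 / 2)]
  · have h1 : 1 ≤ ∑ z ∈ wnd u b x, badc x (s.κ z) := by
      obtain ⟨z, hz, hz'⟩ := Finset.not_subset.mp h
      have h2 : badc x (s.κ z) = 1 := by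
        unfold badc
        rw [if_neg]
        intro h3
        exact hz' (by simp [cls, h3])
      rw [← h2]
      exact Finset.single_le_sum (f := fun z => badc x (s.κ z))
        (fun z _ => by show 0 ≤ badc x (s.κ z); unfold badc; split_ifs <;> norm_num) hz
    linarith

theorem WW_nonneg {V I : Type} [Fintype V] [DecidableEq V] [DecidableEq I] {κ₀ : V → Option I}
    {c : V × V → ℝ} (hc : ∀ p, 0 ≤ c p) {Φ : St V I → ℝ}
    (h : ∀ s, Inv κ₀ s → 0 ≤ Φ s) (n : ℕ) {s : St V I} (hs : Inv κ₀ s) : 0 ≤ WW c n Φ s := by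
  have h1 := WW_mono hc (Φ := fun _ => 0) (Ψ := Φ) (fun s hs => h s hs) n hs
  rw [WW_const, zero_mul] at h1
  exact h1

theorem pw_tot {V : Type} [Fintype V] [DecidableEq V] (c : V × V → ℝ) (h : ℝ) (n : ℕ) :
    pw c h n * Hier.tot c ^ n = Real.exp (-(2 * Hier.tot c * h)) * (2 * Hier.tot c * h) ^ n /
      n.factorial := by
  unfold pw
  have h1 : 2 * h * Hier.tot c = 2 * Hier.tot c * h := by ring
  rw [h1, mul_pow (2 * Hier.tot c) h, mul_pow 2 (Hier.tot c), mul_pow 2 h]
  ring

/-- The choice of the time. -/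
theorem choose_time {V I : Type} [Fintype V] [DecidableEq V] [DecidableEq I] {κ₀ : V → Option I}
    {cs : List I} (hcs : cs.Nodup) (hcol : ∀ i z, κ₀ z = some i → i ∈ cs) {c : V × V → ℝ}
    (hc : ∀ p, 0 ≤ c p) (htot : 0 < Hier.tot c) {h₀ δ : ℝ} (hh : 0 < h₀) (hδ : 0 < δ) :
    ∃ M : ℕ, ∃ h : ℝ, h₀ / 2 ≤ h ∧ h ≤ h₀ ∧
      ∑ n ∈ range M, pw c h n * WW c n (fun s => ∑ p, c p * dd s p) (st0 κ₀ : St V I) ≤
        2 * (Fintype.card V * Real.log (Fintype.card V)) / h₀ + δ ∧
      1 - δ ≤ ∑ n ∈ range M, pw c h n * Hier.tot c ^ n := by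
  set B : ℝ := Fintype.card V * Real.log (Fintype.card V) with hB
  set g : ℕ → ℝ := fun n => WW c n (GG cs) (st0 κ₀ : St V I) / Hier.tot c ^ n with hg
  have h0 := inv_st0 (V := V) (I := I) κ₀
  have hgB : ∀ n, 0 ≤ g n ∧ g n ≤ B := by
    intro n
    have hp : 0 < Hier.tot c ^ n := pow_pos htot n
    constructor
    · exact div_nonneg (WW_nonneg hc (fun s hs => GG_nonneg hs cs) n h0) hp.le
    · rw [hg]
      show _ / _ ≤ _
      rw [div_le_iff₀ hp, ← WW_const c B n (st0 κ₀ : St V I)]
      exact WW_mono hc (fun s hs => GG_le hs hcs) n h0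
  obtain ⟨M, h, h1, h2, h3, h4⟩ := exists_time (lam := 2 * Hier.tot c) (by positivity) hh hδ hgB
  refine ⟨M, h, h1, h2, le_trans ?_ h3, ?_⟩
  · rw [Finset.mul_sum]
    have hh0 : 0 ≤ h := by linarith
    refine Finset.sum_le_sum fun n _ => ?_
    have hp : 0 < Hier.tot c ^ n := pow_pos htot n
    have h5 := WW_dd h0 hcs hcol hc n
    have h6 : WW c n (GG cs) (st0 κ₀ : St V I) = g n * Hier.tot c ^ n := by
      rw [hg]; field_simp
    have h7 : WW c (n + 1) (GG cs) (st0 κ₀ : St V I) = g (n + 1) * (Hier.tot c ^ n * Hier.tot c) := by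
      rw [hg, ← pow_succ]; field_simp
    rw [h6, h7] at h5
    rw [← pw_tot]
    have h8 := pw_nonneg hc hh0 n
    have h9 : WW c n (fun s => ∑ p, c p * dd s p) (st0 κ₀ : St V I) ≤
        2 * Hier.tot c * (Hier.tot c ^ n * (g (n + 1) - g n)) := by nlinarith
    calc pw c h n * WW c n (fun s => ∑ p, c p * dd s p) (st0 κ₀ : St V I)
        ≤ pw c h n * (2 * Hier.tot c * (Hier.tot c ^ n * (g (n + 1) - g n))) :=
          mul_le_mul_of_nonneg_left h9 h8
      _ = _ := by ring
  · refine h4.trans (le_of_eq ?_)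
    exact Finset.sum_congr rfl fun n _ => (pw_tot c h n).symm

/-- One slab without shift. -/
theorem base (hd : 1 ≤ d) {b r : ℕ} {h₀ : ℝ} (hb1 : 1 ≤ b) (hb : 8 * b ≤ r) (hr : 2 * r ≤ L)
    (hh : (r : ℝ) ≤ 8 * h₀) (hlog : 128 * h₀ * Real.log (16 * d * (b : ℝ) ^ d) ≤ (r : ℝ) ^ 2)
    (hbig : 1024 * 12 ^ d * (d : ℝ) ^ 2 * (b : ℝ) ^ 2 * ((b : ℝ) ^ d) ^ 3 *
      Real.log ((L : ℝ) ^ d) ≤ h₀) :
    ∃ h : ℝ, h₀ / 2 ≤ h ∧ h ≤ h₀ ∧ ∃ u : Fin d → ℕ, (∀ j, u j + b ≤ r) ∧
      Dec (wnd (L := L) u b) univ (cors d L r).toList (((L / r : ℕ) : ℝ) ^ d / 2)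
        (fun F => Hier.sg (QK.tr d L) h F 1) (fun F => Hier.sg (QK.tr d L) h F 1) := by
  have hr8 : 8 ≤ r := by omega
  have hL2 : 2 ≤ L := by omega
  have hh0 : 0 < h₀ := by
    have : (8 : ℝ) ≤ r := by exact_mod_cast hr8
    linarith
  set c := QK.tr d L with hc
  have hc0 : ∀ p, 0 ≤ c p := tr_nonneg
  have htot : 0 < Hier.tot c := tot_tr_pos hd
  set cs := (cors d L r).toList with hcsdef
  have hcs : cs.Nodup := Finset.nodup_toList _
  have hcol : ∀ i z, cor (d := d) (L := L) r z = some i → i ∈ cs := fun i z h =>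
    Finset.mem_toList.mpr (cor_mem h)
  -- numbers
  set N : ℝ := (b : ℝ) ^ d with hN
  have hN1 : 1 ≤ N := one_le_pow₀ (by exact_mod_cast hb1)
  set K : ℝ := ((L / r : ℕ) : ℝ) ^ d with hK
  have hK1 : 1 ≤ K := by
    refine one_le_pow₀ ?_
    have : 1 ≤ L / r := by
      rw [Nat.le_div_iff_mul_le (by omega)]
      omega
    exact_mod_cast this
  set a : ℝ := ((r / 4 : ℕ) : ℝ) ^ d with ha
  have ha1 : 1 ≤ a := by
    refine one_le_pow₀ ?_
    have : 1 ≤ r / 4 := by omega
    exact_mod_cast this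
  have hcardV : (Fintype.card (Fin d → ZMod L) : ℝ) = (L : ℝ) ^ d := by
    rw [Fintype.card_fun, ZMod.card, Fintype.card_fin]
    push_cast
    rfl
  set n : ℝ := (L : ℝ) ^ d with hn
  have hn2 : 2 ≤ n := by
    calc (2 : ℝ) = 2 ^ 1 := by norm_num
      _ ≤ 2 ^ d := pow_le_pow_right₀ (by norm_num) hd
      _ ≤ (L : ℝ) ^ d := pow_le_pow_left₀ (by norm_num) (by exact_mod_cast hL2) d
  have hlogn : 0 < Real.log n := Real.log_pos (by linarith)
  have hncard : n ≤ 12 ^ d * K * a := card_torus hr8 hr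
  set B : ℝ := n * Real.log n with hB
  have hBpos : 0 < B := by positivity
  obtain ⟨M, h, h1, h2, h3, h4⟩ := choose_time (κ₀ := cor (d := d) (L := L) r) hcs hcol hc0 htot hh0
    (δ := min (1 / 8) (2 * B / h₀)) (lt_min (by norm_num) (by positivity))
  rw [hcardV] at h3
  have hhpos : 0 < h := by linarith
  have hδ1 : min (1 / 8) (2 * B / h₀) ≤ 1 / 8 := min_le_left _ _
  have hδ2 : min (1 / 8) (2 * B / h₀) ≤ 2 * B / h₀ := min_le_right _ _
  have h0 := inv_st0 (V := Fin d → ZMod L) (I := Fin d → ZMod L) (cor r)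
  set S0 : St (Fin d → ZMod L) (Fin d → ZMod L) := st0 (cor r) with hS0
  set f : (Fin d → ZMod L) → ℝ := fun z =>
    ∑ n ∈ range M, pw c h n * WW c n (fun s => rough s z) S0 with hf
  have hf0 : ∀ z, 0 ≤ f z := fun z => Finset.sum_nonneg fun n _ =>
    mul_nonneg (pw_nonneg hc0 hhpos.le n) (WW_nonneg hc0 (fun s _ => rough_nonneg s z) n h0)
  obtain ⟨u, hu1, hu2, hu3⟩ := exists_offset (d := d) (L := L) (b := b) hr8 hb hf0
  have hub : ∀ j, u j + b ≤ r := fun j => by have := hu2 j; omega
  refine ⟨h, h1, h2, u, hub, ?_⟩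
  have hbL : b ≤ L := by omega
  have hdec := dec_sg (W := wnd (L := L) u b) (κ₀ := cor r) (G := gd (wnd u b) (errw u b) cs)
    hcs hcol hc0 hhpos.le (fun s hs => dec_val hs (fun i hi σ hσ => errw_spec hbL s i hi σ hσ) hcs) M
  refine hdec.congr (fun F => rfl) (fun F => rfl) ?_
  -- the sum of the roughness
  have hfsum : ∑ z, f z ≤ 4 * B / h₀ := by
    have h5 : ∑ z, f z = ∑ n ∈ range M, pw c h n * WW c n (fun s => ∑ p, c p * dd s p) S0 := by
      rw [hf]
      show ∑ z, ∑ n ∈ range M, pw c h n * WW c n (fun s => rough s z) S0 = _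
      rw [Finset.sum_comm]
      refine Finset.sum_congr rfl fun n _ => ?_
      rw [← Finset.mul_sum, ← WW_sum]
      congr 2
      funext s
      rw [hc, sum_tr]
      rfl
    rw [h5]
    refine h3.trans ?_
    have : 4 * B / h₀ = 2 * B / h₀ + 2 * B / h₀ := by ring
    rw [this]
    linarith
  -- the displacement
  have hdisp : ∀ x ∈ cors d L r, ∀ z ∈ wnd u b x,
      ∑ n ∈ range M, pw c h n * WW c n (fun s => badc x (s.κ z)) S0 ≤ 1 / (8 * N) := by
    intro x hx z hz
    set F : Equiv.Perm (Fin d → ZMod L) → ℝ := fun σ => if cor r (σ z) = some x then 0 else 1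
      with hF
    have hF0 : ∀ σ, 0 ≤ F σ := fun σ => by
      rw [hF]; show 0 ≤ (if cor r (σ z) = some x then (0 : ℝ) else 1)
      split_ifs <;> norm_num
    have h5 : ∑ n ∈ range M, pw c h n * WW c n (fun s => badc x (s.κ z)) S0 =
        ∑ n ∈ range M, pw c h n * ((lz c)^[n] F) 1 := by
      refine Finset.sum_congr rfl fun n _ => ?_
      congr 1
      have h6 := val_WW h0 hcs hcol c F n
      rw [val_st0] at h6
      rw [h6]
      refine le_antisymm (WW_mono hc0 (fun s hs => ?_) n h0) (WW_mono hc0 (fun s hs => ?_) n h0)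
      · exact (val_col hs cs z (badc x)).ge
      · exact (val_col hs cs z (badc x)).le
    rw [h5]
    obtain ⟨bt, hbt, hsg, _⟩ := sg_tail hc0 hhpos.le M
    have h6 := hsg F
    have h7 : 0 ≤ ∑ π, bt π * F π := Finset.sum_nonneg fun π _ => mul_nonneg (hbt π) (hF0 π)
    have h8 := disp hL2 hr8 hu1 hu2 hb hx hz hhpos (by linarith)
    have h9 : 2 * d * Real.exp (-((r : ℝ) ^ 2 / (128 * h))) ≤ 1 / (8 * N) := by
      have hdN : 0 < 16 * (d : ℝ) * N := by
        have : (1 : ℝ) ≤ d := by exact_mod_cast hd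
        positivity
      have h10 : Real.log (16 * d * N) ≤ (r : ℝ) ^ 2 / (128 * h) := by
        rw [le_div_iff₀ (by positivity)]
        have h11 : 0 ≤ Real.log (16 * d * N) := by
          refine Real.log_nonneg ?_
          have : (1 : ℝ) ≤ d := by exact_mod_cast hd
          nlinarith
        calc Real.log (16 * d * N) * (128 * h) ≤ Real.log (16 * d * N) * (128 * h₀) :=
              mul_le_mul_of_nonneg_left (by linarith) h11
          _ = 128 * h₀ * Real.log (16 * d * N) := by ring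
          _ ≤ _ := hlog
      have h12 : Real.exp (-((r : ℝ) ^ 2 / (128 * h))) ≤ 1 / (16 * d * N) := by
        calc Real.exp (-((r : ℝ) ^ 2 / (128 * h))) ≤ Real.exp (-Real.log (16 * d * N)) :=
              Real.exp_le_exp.mpr (by linarith)
          _ = 1 / (16 * d * N) := by rw [Real.exp_neg, Real.exp_log hdN, one_div]
      have hd0 : (0 : ℝ) < d := by exact_mod_cast (by omega : 0 < d)
      calc 2 * d * Real.exp (-((r : ℝ) ^ 2 / (128 * h))) ≤ 2 * d * (1 / (16 * d * N)) :=
            mul_le_mul_of_nonneg_left h12 (by positivity)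
        _ = 1 / (8 * N) := by field_simp; norm_num
    linarith
  -- lower bound
  have hcardcors : ((cors d L r).card : ℝ) = K := by
    rw [card_cors (by omega)]; push_cast; rfl
  have hwcard : ∀ x, ((wnd (L := L) u b x).card : ℝ) = N := by
    intro x
    unfold wnd
    rw [box_card hbL]; push_cast; rfl
  set A : ℝ := 32 * (d : ℝ) ^ 2 * (b : ℝ) ^ 2 * N ^ 2 with hA
  have hlow : ∀ n, WW c n (gd (wnd u b) (errw u b) cs) S0 ≥
      7 / 8 * K * Hier.tot c ^ n -
        ∑ x ∈ cors d L r, ∑ z ∈ wnd u b x, WW c n (fun s => badc x (s.κ z)) S0 -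
        A * ∑ x ∈ cors d L r, ∑ z ∈ wnd u b x, WW c n (fun s => rough s z) S0 := by
    intro n
    have h5 : WW c n (fun s => 7 / 8 * K) S0 ≤ WW c n (fun s => (gd (wnd u b) (errw u b) cs s +
        ∑ x ∈ cors d L r, ∑ z ∈ wnd u b x, badc x (s.κ z)) +
        A * ∑ x ∈ cors d L r, ∑ z ∈ wnd u b x, rough s z) S0 := by
      refine WW_mono hc0 (fun s _ => ?_) n h0
      have h6 : gd (wnd u b) (errw u b) cs s = ∑ x ∈ cors d L r,
          if wnd u b x ⊆ cls s.κ x then 1 - 2 * errw u b s x else 0 := by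
        unfold gd
        rw [hcsdef, Finset.sum_map_toList]
      rw [h6, Finset.mul_sum, ← Finset.sum_add_distrib, ← Finset.sum_add_distrib, ← hcardcors,
        mul_comm, ← nsmul_eq_mul, ← Finset.sum_const]
      refine Finset.sum_le_sum fun x _ => ?_
      have := unit_low (u := u) (b := b) s x
      linarith
    rw [WW_const, WW_add, WW_add, WW_smul, WW_sum, WW_sum] at h5
    have h7 : ∀ x ∈ cors d L r, WW c n (fun s => ∑ z ∈ wnd u b x, badc x (s.κ z)) S0 =
        ∑ z ∈ wnd u b x, WW c n (fun s => badc x (s.κ z)) S0 := fun x _ => WW_sum _ _ _ _ _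
    have h8 : ∀ x ∈ cors d L r, WW c n (fun s => ∑ z ∈ wnd u b x, rough s z) S0 =
        ∑ z ∈ wnd u b x, WW c n (fun s => rough s z) S0 := fun x _ => WW_sum _ _ _ _ _
    rw [Finset.sum_congr rfl h7, Finset.sum_congr rfl h8] at h5
    linarith
  have hsum : ∑ n ∈ range M, pw c h n * WW c n (gd (wnd u b) (errw u b) cs) S0 ≥
      7 / 8 * K * ∑ n ∈ range M, pw c h n * Hier.tot c ^ n -
        ∑ x ∈ cors d L r, ∑ z ∈ wnd u b x,
          ∑ n ∈ range M, pw c h n * WW c n (fun s => badc x (s.κ z)) S0 -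
        A * ∑ x ∈ cors d L r, ∑ z ∈ wnd u b x, f z := by
    have h5 : ∀ n ∈ range M, pw c h n * (7 / 8 * K * Hier.tot c ^ n -
        ∑ x ∈ cors d L r, ∑ z ∈ wnd u b x, WW c n (fun s => badc x (s.κ z)) S0 -
        A * ∑ x ∈ cors d L r, ∑ z ∈ wnd u b x, WW c n (fun s => rough s z) S0) ≤
        pw c h n * WW c n (gd (wnd u b) (errw u b) cs) S0 := fun n _ =>
      mul_le_mul_of_nonneg_left (hlow n) (pw_nonneg hc0 hhpos.le n)
    refine le_trans (le_of_eq ?_) (Finset.sum_le_sum h5)
    have h6 : ∑ x ∈ cors d L r, ∑ z ∈ wnd u b x,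
          ∑ n ∈ range M, pw c h n * WW c n (fun s => badc x (s.κ z)) S0 =
        ∑ n ∈ range M, pw c h n * ∑ x ∈ cors d L r, ∑ z ∈ wnd u b x,
          WW c n (fun s => badc x (s.κ z)) S0 := by
      simp only [Finset.mul_sum]
      rw [Finset.sum_comm]
      rw [Finset.sum_congr rfl fun n _ => Finset.sum_comm]
    have h7 : ∑ x ∈ cors d L r, ∑ z ∈ wnd u b x, f z =
        ∑ n ∈ range M, pw c h n * ∑ x ∈ cors d L r, ∑ z ∈ wnd u b x,
          WW c n (fun s => rough s z) S0 := by
      simp only [Finset.mul_sum, hf]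
      rw [Finset.sum_comm]
      rw [Finset.sum_congr rfl fun n _ => Finset.sum_comm]
    rw [h6, h7, Finset.mul_sum, Finset.mul_sum, ← Finset.sum_sub_distrib, ← Finset.sum_sub_distrib]
    exact Finset.sum_congr rfl fun n _ => by ring
  have hbadsum : ∑ x ∈ cors d L r, ∑ z ∈ wnd u b x,
      ∑ n ∈ range M, pw c h n * WW c n (fun s => badc x (s.κ z)) S0 ≤ K / 8 := by
    calc _ ≤ ∑ x ∈ cors d L r, ∑ z ∈ wnd u b x, 1 / (8 * N) :=
          Finset.sum_le_sum fun x hx => Finset.sum_le_sum fun z hz => hdisp x hx z hz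
      _ = ∑ x ∈ cors d L r, (1 / 8 : ℝ) := by
          refine Finset.sum_congr rfl fun x _ => ?_
          rw [Finset.sum_const, nsmul_eq_mul, hwcard]
          field_simp
      _ = K / 8 := by rw [Finset.sum_const, nsmul_eq_mul, hcardcors]; ring
  have hroughsum : A * ∑ x ∈ cors d L r, ∑ z ∈ wnd u b x, f z ≤ K / 8 := by
    have h5 : ∑ x ∈ cors d L r, ∑ z ∈ wnd u b x, f z ≤ N * (4 * B / h₀) / a := by
      rw [le_div_iff₀ (by positivity), mul_comm]
      exact hu3.trans (mul_le_mul_of_nonneg_left hfsum (by positivity))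
    calc A * ∑ x ∈ cors d L r, ∑ z ∈ wnd u b x, f z ≤ A * (N * (4 * B / h₀) / a) :=
          mul_le_mul_of_nonneg_left h5 (by positivity)
      _ ≤ A * (N * (4 * ((12 ^ d * K * a) * Real.log n) / h₀) / a) := by
          have : B ≤ (12 ^ d * K * a) * Real.log n :=
            mul_le_mul_of_nonneg_right hncard hlogn.le
          gcongr
      _ = K / 8 * ((1024 * 12 ^ d * (d : ℝ) ^ 2 * (b : ℝ) ^ 2 * N ^ 3 * Real.log n) / h₀) := by
          rw [hA]
          field_simp
          ring
      _ ≤ K / 8 * 1 := by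
          refine mul_le_mul_of_nonneg_left ?_ (by positivity)
          rw [div_le_one hh0]
          exact hbig
      _ = K / 8 := mul_one _
  have h5 : 7 / 8 * K * (7 / 8) ≤ 7 / 8 * K * ∑ n ∈ range M, pw c h n * Hier.tot c ^ n :=
    mul_le_mul_of_nonneg_left (by linarith) (by positivity)
  have h6 := hsum
  linarith

end Pool.Agent.Stirring.HC
end

section

/-! Hidden coins, A8: the uniform shift; the final form of one slab. -/

open Finset

set_option linter.unusedSectionVars false

namespace Pool.Agent.Stirring.HC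

section General

variable {V : Type} [Fintype V] [DecidableEq V] {I : Type} [DecidableEq I]

/-- Conjugated laws. -/
theorem El_conj (t : Equiv.Perm V) (μ : I → Equiv.Perm V → ℝ) (l : List I)
    (F : Equiv.Perm V → ℝ) :
    El (fun i π => μ i (t⁻¹ * π * t)) l F = El μ l (fun π => F (t * π * t⁻¹)) := by
  induction l generalizing F with
  | nil => simp [El]
  | cons i l ih =>
    unfold El
    rw [← Equiv.sum_comp ((Equiv.mulLeft t).trans (Equiv.mulRight t⁻¹))]
    refine Finset.sum_congr rfl fun π _ => ?_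
    have h1 : ((Equiv.mulLeft t).trans (Equiv.mulRight t⁻¹)) π = t * π * t⁻¹ := rfl
    rw [h1, ih]
    have h2 : t⁻¹ * (t * π * t⁻¹) * t = π := by group
    rw [h2]
    congr 1
    have h3 : (fun σ => F (t * π * t⁻¹ * (t * σ * t⁻¹))) = fun σ => F (t * (π * σ) * t⁻¹) := by
      funext σ
      congr 1
      group
    rw [h3]

theorem El_map {I' : Type} (f : I → I') (μ : I' → Equiv.Perm V → ℝ) (l : List I)
    (F : Equiv.Perm V → ℝ) : El μ (l.map f) F = El (fun i => μ (f i)) l F := by
  induction l generalizing F with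
  | nil => rfl
  | cons i l ih =>
    rw [List.map_cons]
    unfold El
    exact Finset.sum_congr rfl fun π _ => by rw [ih]

theorem El_congr' {μ ν : I → Equiv.Perm V → ℝ} {l : List I} (h : ∀ i ∈ l, μ i = ν i)
    (F : Equiv.Perm V → ℝ) : El μ l F = El ν l F := by
  induction l generalizing F with
  | nil => rfl
  | cons i l ih =>
    unfold El
    rw [h i List.mem_cons_self]
    exact Finset.sum_congr rfl fun π _ => by rw [ih fun j hj => h j (List.mem_cons_of_mem _ hj)]

/-- Laws on permutations of disjoint sets commute. -/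
theorem El_perm' {μ : I → Equiv.Perm V → ℝ} {W : I → Finset V} {l l' : List I}
    (hl : l.Nodup) (hs : ∀ i ∈ l, SuppIn (W i) (μ i))
    (hd : ∀ i ∈ l, ∀ j ∈ l, i ≠ j → Disjoint (W i) (W j)) (h : l.Perm l')
    (F : Equiv.Perm V → ℝ) : El μ l F = El μ l' F := by
  induction h generalizing F with
  | nil => rfl
  | cons i _ ih =>
    unfold El
    exact Finset.sum_congr rfl fun π _ => by
      rw [ih (List.nodup_cons.mp hl).2 (fun j hj => hs j (List.mem_cons_of_mem _ hj))
        (fun j hj k hk => hd j (List.mem_cons_of_mem _ hj) k (List.mem_cons_of_mem _ hk))]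
  | swap i j l =>
    have hij : i ≠ j := by
      intro h
      rw [h] at hl
      exact (List.nodup_cons.mp hl).1 List.mem_cons_self
    unfold El
    unfold El
    simp only [Finset.mul_sum]
    rw [Finset.sum_comm]
    refine Finset.sum_congr rfl fun π _ => Finset.sum_congr rfl fun ρ _ => ?_
    by_cases h1 : μ i π = 0
    · rw [h1]; ring
    by_cases h2 : μ j ρ = 0
    · rw [h2]; ring
    have h3 : π * ρ = ρ * π := by
      have hW := hd i (by simp) j (by simp) hij
      have hi := hs i (by simp) π h1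
      have hj := hs j (by simp) ρ h2
      ext z
      rw [Equiv.Perm.mul_apply, Equiv.Perm.mul_apply]
      by_cases hz : z ∈ W i
      · have hzj : z ∉ W j := Finset.disjoint_left.mp hW hz
        rw [hj z hzj]
        have : π z ∈ W i := by
          by_contra hcon
          have h4 := hi (π z) hcon
          rw [π.injective h4] at hcon
          exact hcon hz
        rw [hj (π z) (Finset.disjoint_left.mp hW this)]
      · rw [hi z hz]
        by_cases hz' : ρ z ∈ W i
        · have h4 := hj (ρ z) (Finset.disjoint_left.mp hW hz')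
          rw [ρ.injective h4] at hz'
          exact absurd hz' hz
        · rw [hi _ hz']
    have h4 : (fun σ => F (π * (ρ * σ))) = fun σ => F (ρ * (π * σ)) := by
      funext σ
      rw [← mul_assoc, h3, mul_assoc]
    rw [h4]
    ring
  | trans h1 _ ih1 ih2 =>
    rw [ih1 hl hs hd F, ih2 (h1.nodup_iff.mp hl) (fun i hi => hs i (h1.mem_iff.mpr hi))
      (fun i hi j hj => hd i (h1.mem_iff.mpr hi) j (h1.mem_iff.mpr hj)) F]

end General

section Shift

variable {V : Type} [AddCommGroup V] [Fintype V] [DecidableEq V]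

/-- The translation by `s`. -/
def trl (s : V) : Equiv.Perm V := Equiv.addLeft s

theorem trl_apply (s z : V) : trl s z = s + z := rfl

theorem trl_inv_apply (s z : V) : (trl s)⁻¹ z = z - s := by
  rw [Equiv.Perm.inv_eq_iff_eq, trl_apply]; abel

/-- Invariance of the semigroup under translations. -/
theorem sg_trl {c : V × V → ℝ} (hc : ∀ s x y, c (s + x, s + y) = c (x, y)) (h : ℝ) (s : V)
    (F : Equiv.Perm V → ℝ) :
    Hier.sg c h (fun σ => F (trl s * σ * (trl s)⁻¹)) 1 = Hier.sg c h F 1 := by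
  have key : ∀ n : ℕ, ∀ G : Equiv.Perm V → ℝ, (lz c)^[n] (fun σ => G (trl s * σ * (trl s)⁻¹)) =
      fun σ => ((lz c)^[n] G) (trl s * σ * (trl s)⁻¹) := by
    intro n
    induction n with
    | zero => intro G; rfl
    | succ n ih =>
      intro G
      rw [Function.iterate_succ_apply, Function.iterate_succ_apply, ← ih]
      congr 1
      funext σ
      symm
      unfold lz
      rw [← Equiv.sum_comp ((Equiv.addLeft s).prodCongr (Equiv.addLeft s))]
      refine Finset.sum_congr rfl fun p _ => ?_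
      have h1 : ((Equiv.addLeft s).prodCongr (Equiv.addLeft s)) p = (s + p.1, s + p.2) := rfl
      rw [h1, hc]
      have h2 : trl s * (σ * Equiv.swap p.1 p.2) * (trl s)⁻¹ =
          trl s * σ * (trl s)⁻¹ * Equiv.swap (s + p.1) (s + p.2) := by
        have h3 : Equiv.swap (s + p.1) (s + p.2) = trl s * Equiv.swap p.1 p.2 * (trl s)⁻¹ := by
          have := Equiv.swap_apply_apply (trl s) p.1 p.2
          rw [trl_apply, trl_apply] at this
          exact this
        rw [h3]
        group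
      show c p * ((G (trl s * σ * (trl s)⁻¹) +
          G (trl s * σ * (trl s)⁻¹ * Equiv.swap (s + p.1) (s + p.2))) / 2) =
        c p * ((G (trl s * σ * (trl s)⁻¹) + G (trl s * (σ * Equiv.swap p.1 p.2) * (trl s)⁻¹)) / 2)
      rw [h2]
  have h1 := sg_lz c h (fun σ => F (trl s * σ * (trl s)⁻¹)) 1
  have h2 := sg_lz c h F 1
  refine h1.unique ?_
  convert h2 using 2 with n
  rw [key n F]
  simp

theorem sg_sum' {ι : Type*} (c : V × V → ℝ) (h : ℝ) (t : Finset ι) (F : ι → Equiv.Perm V → ℝ) :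
    Hier.sg c h (fun σ => ∑ j ∈ t, F j σ) 1 = ∑ j ∈ t, Hier.sg c h (F j) 1 := by
  classical
  induction t using Finset.induction_on with
  | empty => simp only [Finset.sum_empty]; exact Hier.sg_const c h 0 1
  | insert a t ha ih =>
    have h1 : (fun σ => ∑ j ∈ insert a t, F j σ) = F a + fun σ => ∑ j ∈ t, F j σ := by
      funext σ
      rw [Finset.sum_insert ha]
      rfl
    rw [h1, Hier.sg_add, ih, Finset.sum_insert ha]

theorem sg_avg (c : V × V → ℝ) (h : ℝ) (F : V → Equiv.Perm V → ℝ) :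
    Hier.sg c h (fun σ => (∑ s, F s σ) / Fintype.card V) 1 =
      (∑ s, Hier.sg c h (F s) 1) / Fintype.card V := by
  have h1 : (fun σ => (∑ s, F s σ) / (Fintype.card V : ℝ)) =
      ((1 : ℝ) / Fintype.card V) • fun σ => ∑ s, F s σ := by
    funext σ
    rw [Pi.smul_apply, smul_eq_mul]
    ring
  rw [h1, Hier.sg_smul, sg_sum']
  ring

/-- One slab with a uniform shift. -/
theorem slab_of_dec {c : V × V → ℝ} (hc : ∀ s x y, c (s + x, s + y) = c (x, y)) {h : ℝ}
    {Q : Finset V} {cs : List V} (hcs : cs.Nodup) (u : V) {W : V → Finset V}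
    (hW : ∀ x z, z ∈ W x ↔ z - (x + u) ∈ Q)
    (hdis : ∀ x ∈ cs, ∀ y ∈ cs, ∀ z, z ∈ W x → z ∈ W y → x = y) {g : ℝ}
    (hD : Dec W univ cs g (fun F => Hier.sg c h F 1) (fun F => Hier.sg c h F 1)) :
    ∃ (Ω : Type) (_ : Fintype Ω) (S : QK.Slab V Ω) (ν : Ω → V → Equiv.Perm V → ℝ),
      QK.SlabLaw c h S Q (cs.map (· + u)).toFinset ∧
      (∀ a, ∀ q ∈ S.good a, (∀ σ, 0 ≤ ν a q σ) ∧ ∑ σ, ν a q σ = 1 ∧
        (∀ σ, ν a q σ ≠ 0 → ∀ v, v - q ∉ Q → σ v = v) ∧
        ∀ σ, ν a q σ ≤ 4 / (Q.card.factorial : ℝ)) ∧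
      (∀ F : Equiv.Perm V → V → ℝ,
        ∑ a, S.w a * El (ν a) (S.good a).toList (fun π => F (S.T a * π) (S.sh a)) =
          Hier.sg c h (fun τ => (∑ s, F τ s) / Fintype.card V) 1) ∧
      ∀ z, g * Q.card / Fintype.card V ≤
        ∑ a, S.w a * (if QK.InWin Q (S.good a) z then 1 else 0) := by
  obtain ⟨Ξ, _, w, T, l, μ, h3, _, h5, h6, h7', h8', h9⟩ := hD
  have h7 : ∀ F : Equiv.Perm V → ℝ, Hier.sg c h F 1 = ∑ ξ, w ξ * F (T ξ) := h7'
  have h8 : ∀ F : Equiv.Perm V → ℝ, Hier.sg c h F 1 =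
      ∑ ξ, w ξ * El (μ ξ) (l ξ) (fun π => F (T ξ * π)) := h8'
  have hn : (0 : ℝ) < Fintype.card V := by
    have : 0 < Fintype.card V := Fintype.card_pos_iff.mpr ⟨0⟩
    exact_mod_cast this
  have hlnd : ∀ ξ, (l ξ).Nodup := fun ξ => hcs.sublist (h5 ξ)
  have hQW : ∀ x, (W x).card = Q.card := by
    intro x
    refine Finset.card_bij (fun z _ => z - (x + u)) (fun z hz => (hW x z).mp hz) ?_ ?_
    · intro z _ z' _ h; exact sub_left_injective h
    · intro y hy
      exact ⟨y + (x + u), (hW x _).mpr (by simpa using hy), by simp⟩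
  set gd' : Ξ × V → List V := fun a => (l a.1).map fun x => a.2 + (x + u) with hgd'
  have hgnd : ∀ a, (gd' a).Nodup := fun a =>
    (hlnd a.1).map fun x y hxy => by
      have := add_left_cancel hxy
      exact add_right_cancel this
  set S : QK.Slab V (Ξ × V) :=
    { w := fun a => w a.1 / Fintype.card V
      T := fun a => trl a.2 * T a.1 * (trl a.2)⁻¹
      sh := fun a => a.2
      good := fun a => (gd' a).toFinset } with hS
  set ν : Ξ × V → V → Equiv.Perm V → ℝ := fun a q π =>
    μ a.1 (q - a.2 - u) ((trl a.2)⁻¹ * π * trl a.2) with hν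
  have hlaw : ∀ F : Equiv.Perm V → V → ℝ, ∑ a, S.w a * F (S.T a) (S.sh a) =
      Hier.sg c h (fun τ => (∑ s, F τ s) / Fintype.card V) 1 := by
    intro F
    rw [sg_avg, Finset.sum_div, Fintype.sum_prod_type, Finset.sum_comm]
    refine Finset.sum_congr rfl fun s _ => ?_
    rw [← sg_trl hc h s, h7, Finset.sum_div]
    exact Finset.sum_congr rfl fun ξ _ => by simp only [hS]; ring
  refine ⟨Ξ × V, inferInstance, S, ν, ?_, ?_, ?_, ?_⟩
  · refine ⟨fun a => div_nonneg (h3 _) hn.le, ?_, hlaw, ?_, ?_⟩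
    · have h10 := hlaw (fun _ _ => 1)
      simp only [mul_one] at h10
      rw [h10]
      have h11 : (fun _ : Equiv.Perm V => (∑ _s : V, (1 : ℝ)) / Fintype.card V) = fun _ => 1 := by
        funext _
        simp
      rw [h11, Hier.sg_const]
    · intro a q hq
      simp only [hS, hgd', List.mem_toFinset, List.mem_map] at hq
      obtain ⟨x, hx, rfl⟩ := hq
      rw [Finset.mem_image]
      refine ⟨x + u, ?_, rfl⟩
      rw [List.mem_toFinset, List.mem_map]
      exact ⟨x, (h5 _).subset hx, rfl⟩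
    · intro s q hq q' hq' z hz hz'
      rw [Finset.mem_image] at hq hq'
      obtain ⟨x', hx', rfl⟩ := hq
      obtain ⟨y', hy', rfl⟩ := hq'
      rw [List.mem_toFinset, List.mem_map] at hx' hy'
      obtain ⟨x, hx, rfl⟩ := hx'
      obtain ⟨y, hy, rfl⟩ := hy'
      have h10 : z - s ∈ W x := by
        rw [hW]
        have : z - s - (x + u) = z - (s + (x + u)) := by abel
        rw [this]; exact hz
      have h11 : z - s ∈ W y := by
        rw [hW]
        have : z - s - (y + u) = z - (s + (y + u)) := by abel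
        rw [this]; exact hz'
      rw [hdis x hx y hy _ h10 h11]
  · intro a q hq
    simp only [hS, hgd', List.mem_toFinset, List.mem_map] at hq
    obtain ⟨x, hx, rfl⟩ := hq
    have h10 : a.2 + (x + u) - a.2 - u = x := by abel
    have h11 := h6 a.1 x hx
    refine ⟨fun σ => h11.law.nn _ |> fun h => by simp only [hν, h10]; exact h, ?_, ?_, ?_⟩
    · simp only [hν, h10]
      rw [← h11.law.one]
      exact Equiv.sum_comp ((Equiv.mulLeft (trl a.2)⁻¹).trans (Equiv.mulRight (trl a.2))) (μ a.1 x)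
    · intro σ hσ v hv
      simp only [hν, h10] at hσ
      have h12 : v - a.2 ∉ W x := by
        rw [hW]
        have : v - a.2 - (x + u) = v - (a.2 + (x + u)) := by abel
        rw [this]; exact hv
      have h13 := h11.supp _ hσ _ h12
      rw [Equiv.Perm.mul_apply, Equiv.Perm.mul_apply, trl_apply, trl_inv_apply] at h13
      have h14 : a.2 + (v - a.2) = v := by abel
      rw [h14] at h13
      exact sub_left_injective h13
    · intro σ
      simp only [hν, h10]
      have := h11.le ((trl a.2)⁻¹ * σ * trl a.2)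
      rwa [hQW] at this
  · intro F
    rw [sg_avg, Finset.sum_div, Fintype.sum_prod_type, Finset.sum_comm]
    refine Finset.sum_congr rfl fun s _ => ?_
    rw [← sg_trl hc h s, h8, Finset.sum_div]
    refine Finset.sum_congr rfl fun ξ _ => ?_
    have h10 : El (ν (ξ, s)) (S.good (ξ, s)).toList (fun π => F (S.T (ξ, s) * π) (S.sh (ξ, s))) =
        El (μ ξ) (l ξ) (fun π => F (trl s * (T ξ * π) * (trl s)⁻¹) s) := by
      have hperm : (S.good (ξ, s)).toList.Perm (gd' (ξ, s)) := by
        simp only [hS]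
        exact List.toFinset_toList (hgnd (ξ, s))
      have hsupp : ∀ q ∈ gd' (ξ, s), SuppIn (univ.filter fun v => v - q ∈ Q) (ν (ξ, s) q) := by
        intro q hq σ hσ v hv
        simp only [hgd', List.mem_map] at hq
        obtain ⟨x, hx, rfl⟩ := hq
        have h10 : s + (x + u) - s - u = x := by abel
        have h11 := h6 ξ x hx
        simp only [hν, h10] at hσ
        have h12 : v - s ∉ W x := by
          rw [hW]
          have : v - s - (x + u) = v - (s + (x + u)) := by abel
          rw [this]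
          simpa using hv
        have h13 := h11.supp _ hσ _ h12
        rw [Equiv.Perm.mul_apply, Equiv.Perm.mul_apply, trl_apply, trl_inv_apply] at h13
        have h14 : s + (v - s) = v := by abel
        rw [h14] at h13
        exact sub_left_injective h13
      have hdd : ∀ q ∈ gd' (ξ, s), ∀ q' ∈ gd' (ξ, s), q ≠ q' →
          Disjoint (univ.filter fun v => v - q ∈ Q) (univ.filter fun v => v - q' ∈ Q) := by
        intro q hq q' hq' hne
        simp only [hgd', List.mem_map] at hq hq'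
        obtain ⟨x, hx, rfl⟩ := hq
        obtain ⟨y, hy, rfl⟩ := hq'
        rw [Finset.disjoint_left]
        intro z hz hz'
        simp only [Finset.mem_filter, Finset.mem_univ, true_and] at hz hz'
        have h10 : z - s ∈ W x := by
          rw [hW]
          have : z - s - (x + u) = z - (s + (x + u)) := by abel
          rw [this]; exact hz
        have h11 : z - s ∈ W y := by
          rw [hW]
          have : z - s - (y + u) = z - (s + (y + u)) := by abel
          rw [this]; exact hz'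
        exact hne (by rw [hdis x ((h5 ξ).subset hx) y ((h5 ξ).subset hy) _ h10 h11])
      rw [El_perm' (W := fun q => univ.filter fun v => v - q ∈ Q) (Finset.nodup_toList _)
        (fun q hq => hsupp q (hperm.mem_iff.mp hq))
        (fun q hq q' hq' => hdd q (hperm.mem_iff.mp hq) q' (hperm.mem_iff.mp hq')) hperm]
      simp only [hgd']
      rw [El_map]
      have h15 : ∀ x ∈ l ξ, ν (ξ, s) (s + (x + u)) = fun π =>
          μ ξ x ((trl s)⁻¹ * π * trl s) := by
        intro x _
        have h10 : s + (x + u) - s - u = x := by abel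
        funext π
        simp only [hν, h10]
      rw [El_congr' h15, El_conj]
      congr 1
      funext π
      simp only [hS]
      congr 1
      group
    rw [h10]
    simp only [hS]
    ring
  · intro z
    have h10 : ∀ ξ, ∑ s : V, (if QK.InWin Q (S.good (ξ, s)) z then (1 : ℝ) else 0) =
        (l ξ).length * Q.card := by
      intro ξ
      have h11 : ∀ s : V, (if QK.InWin Q (S.good (ξ, s)) z then (1 : ℝ) else 0) =
          ∑ x ∈ (l ξ).toFinset, if z - (s + (x + u)) ∈ Q then 1 else 0 := by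
        intro s
        by_cases h12 : QK.InWin Q (S.good (ξ, s)) z
        · rw [if_pos h12]
          obtain ⟨q, hq, hz⟩ := h12
          simp only [hS, hgd', List.mem_toFinset, List.mem_map] at hq
          obtain ⟨x, hx, rfl⟩ := hq
          rw [Finset.sum_eq_single x, if_pos hz]
          · intro y hy hne
            rw [if_neg]
            intro hz'
            refine hne (hdis y ((h5 ξ).subset (List.mem_toFinset.mp hy)) x ((h5 ξ).subset hx) (z - s)
              ?_ ?_)
            · rw [hW]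
              have : z - s - (y + u) = z - (s + (y + u)) := by abel
              rw [this]; exact hz'
            · rw [hW]
              have : z - s - (x + u) = z - (s + (x + u)) := by abel
              rw [this]; exact hz
          · intro h; exact absurd (List.mem_toFinset.mpr hx) h
        · rw [if_neg h12, Finset.sum_eq_zero]
          intro x hx
          rw [if_neg]
          intro hz
          refine h12 ⟨s + (x + u), ?_, hz⟩
          simp only [hS, hgd', List.mem_toFinset, List.mem_map]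
          exact ⟨x, List.mem_toFinset.mp hx, rfl⟩
      simp only [h11]
      rw [Finset.sum_comm]
      have h13 : ∀ x ∈ (l ξ).toFinset, ∑ s : V, (if z - (s + (x + u)) ∈ Q then (1 : ℝ) else 0) =
          Q.card := by
        intro x _
        rw [← Equiv.sum_comp (Equiv.subLeft (z - (x + u)))
          (fun s : V => if z - (s + (x + u)) ∈ Q then (1 : ℝ) else 0)]
        have h14 : ∀ s : V, z - ((Equiv.subLeft (z - (x + u))) s + (x + u)) = s := by
          intro s
          rw [Equiv.subLeft_apply]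
          abel
        simp only [h14]
        rw [Finset.sum_ite_mem, Finset.univ_inter, Finset.sum_const, nsmul_eq_mul, mul_one]
      rw [Finset.sum_congr rfl h13, Finset.sum_const, nsmul_eq_mul,
        List.toFinset_card_of_nodup (hlnd ξ)]
    have h11 : ∑ a, S.w a * (if QK.InWin Q (S.good a) z then (1 : ℝ) else 0) =
        (∑ ξ, w ξ * (l ξ).length) * Q.card / Fintype.card V := by
      rw [Fintype.sum_prod_type, Finset.sum_mul, Finset.sum_div]
      refine Finset.sum_congr rfl fun ξ _ => ?_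
      have h12 := h10 ξ
      calc ∑ s, S.w (ξ, s) * (if QK.InWin Q (S.good (ξ, s)) z then (1 : ℝ) else 0)
          = w ξ / Fintype.card V *
            ∑ s : V, (if QK.InWin Q (S.good (ξ, s)) z then (1 : ℝ) else 0) := by
            rw [Finset.mul_sum]
        _ = _ := by rw [h12]; ring
    rw [h11]
    have : (0 : ℝ) ≤ Q.card := Nat.cast_nonneg _
    gcongr

end Shift

end Pool.Agent.Stirring.HC
end

section

/-! Hidden coins, local version: the entropy of a class is at most `|class| log |class|`. -/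

open Finset

set_option linter.unusedSectionVars false

namespace Pool.Agent.Stirring.HC

section Ent

variable {V : Type} [Fintype V] [DecidableEq V] {I : Type} [DecidableEq I]

/-- The entropy of a law on the permutations of `C`. -/
theorem ent_le_supp' {p : Equiv.Perm V → ℝ} (hp : IsLaw p) {C : Finset V} (hC : SuppIn C p) :
    ent p ≤ C.card * Real.log C.card := by
  classical
  set A : Finset (Equiv.Perm V) := Finset.univ.filter fun π => ∀ z, z ∉ C → π z = z with hA
  have h1 : ent p ≤ Real.log A.card := by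
    refine ent_le hp.nn hp.one A fun π hπ => ?_
    by_contra h
    refine hπ ?_
    rw [hA, Finset.mem_filter]
    exact ⟨Finset.mem_univ _, hC π h⟩
  have hmap : ∀ π ∈ A, ∀ c ∈ C, π c ∈ C := by
    intro π hπ c hc
    by_contra h
    have h2 := (Finset.mem_filter.mp hπ).2 (π c) h
    exact h ((π.injective h2).symm ▸ hc)
  have h2 : A.card ≤ C.card ^ C.card := by
    have h3 : A.card ≤ Fintype.card (C → C) := by
      rw [← Finset.card_univ]
      refine Finset.card_le_card_of_injOn
        (fun π => fun c : C => if h : π c ∈ C then ⟨π c, h⟩ else c)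
        (fun _ _ => Finset.mem_coe.mpr (Finset.mem_univ _)) ?_
      intro π hπ π' hπ' h
      have hm := (Finset.mem_filter.mp (Finset.mem_coe.mp hπ)).2
      have hm' := (Finset.mem_filter.mp (Finset.mem_coe.mp hπ')).2
      refine Equiv.ext fun z => ?_
      by_cases hz : z ∈ C
      · have h4 := congrFun h ⟨z, hz⟩
        simp only [dif_pos (hmap π (Finset.mem_coe.mp hπ) z hz),
          dif_pos (hmap π' (Finset.mem_coe.mp hπ') z hz), Subtype.mk.injEq] at h4
        exact h4
      · rw [hm z hz, hm' z hz]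
    rw [Fintype.card_fun, Fintype.card_coe] at h3
    exact h3
  have hpos : 0 < A.card := by
    rw [Finset.card_pos]
    exact ⟨1, by rw [hA, Finset.mem_filter]; exact ⟨Finset.mem_univ _, fun z _ => rfl⟩⟩
  refine h1.trans ?_
  rw [← Real.log_pow]
  refine Real.log_le_log (by exact_mod_cast hpos) ?_
  exact_mod_cast h2

theorem cls_card {κ₀ : V → Option I} {s : St V I} (h : Inv κ₀ s) (i : I) :
    (cls s.κ i).card = (cls κ₀ i).card := by
  refine Finset.card_bij (fun z _ => s.η z) ?_ ?_ ?_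
  · intro z hz
    unfold cls at hz ⊢
    rw [Finset.mem_filter] at hz ⊢
    exact ⟨Finset.mem_univ _, by rw [← h.col z]; exact hz.2⟩
  · intro z _ z' _ hzz
    exact s.η.injective hzz
  · intro y hy
    refine ⟨s.η.symm y, ?_, Equiv.apply_symm_apply _ _⟩
    unfold cls at hy ⊢
    rw [Finset.mem_filter] at hy ⊢
    exact ⟨Finset.mem_univ _, by rw [h.col, Equiv.apply_symm_apply]; exact hy.2⟩

/-- The total entropy, when the classes have at most `K` sites. -/
theorem GG_le' {κ₀ : V → Option I} {s : St V I} (h : Inv κ₀ s) {cs : List I} (hcs : cs.Nodup)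
    {K : ℝ} (hK1 : 1 ≤ K) (hK : ∀ i, ((cls κ₀ i).card : ℝ) ≤ K) :
    GG cs s ≤ Fintype.card V * Real.log K := by
  have h0 : 0 ≤ Real.log K := Real.log_nonneg hK1
  unfold GG
  rw [← List.sum_toFinset _ hcs]
  have h1 : ∑ i ∈ cs.toFinset, ent (s.q i) ≤
      ∑ i ∈ cs.toFinset, ((cls s.κ i).card : ℝ) * Real.log K := by
    refine Finset.sum_le_sum fun i _ => (ent_le_supp' (h.law i) (h.supp i)).trans ?_
    rw [cls_card h i]
    rcases Nat.eq_zero_or_pos (cls κ₀ i).card with h2 | h2
    · rw [h2]; simp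
    · refine mul_le_mul_of_nonneg_left (Real.log_le_log (by exact_mod_cast h2) (hK i))
        (Nat.cast_nonneg _)
  refine h1.trans ?_
  rw [← Finset.sum_mul]
  refine mul_le_mul_of_nonneg_right ?_ h0
  have h2 : (cs.toFinset.biUnion fun i => cls s.κ i).card = ∑ i ∈ cs.toFinset, (cls s.κ i).card := by
    refine Finset.card_biUnion fun i _ j _ hij => ?_
    show Disjoint (cls s.κ i) (cls s.κ j)
    rw [Finset.disjoint_left]
    intro z hz hz'
    unfold cls at hz hz'
    simp only [Finset.mem_filter, Finset.mem_univ, true_and] at hz hz'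
    rw [hz] at hz'
    exact hij (Option.some.inj hz')
  have h3 : (cs.toFinset.biUnion fun i => cls s.κ i).card ≤ Fintype.card V := Finset.card_le_univ _
  rw [h2] at h3
  exact_mod_cast h3

/-- The choice of the time. -/
theorem choose_time' {κ₀ : V → Option I}
    {cs : List I} (hcs : cs.Nodup) (hcol : ∀ i z, κ₀ z = some i → i ∈ cs) {c : V × V → ℝ}
    (hc : ∀ p, 0 ≤ c p) (htot : 0 < Hier.tot c) {K : ℝ} (hK1 : 1 ≤ K)
    (hK : ∀ i, ((cls κ₀ i).card : ℝ) ≤ K) {h₀ δ : ℝ} (hh : 0 < h₀) (hδ : 0 < δ) :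
    ∃ M : ℕ, ∃ h : ℝ, h₀ / 2 ≤ h ∧ h ≤ h₀ ∧
      ∑ n ∈ range M, pw c h n * WW c n (fun s => ∑ p, c p * dd s p) (st0 κ₀ : St V I) ≤
        2 * (Fintype.card V * Real.log K) / h₀ + δ ∧
      1 - δ ≤ ∑ n ∈ range M, pw c h n * Hier.tot c ^ n := by
  set B : ℝ := Fintype.card V * Real.log K with hB
  set g : ℕ → ℝ := fun n => WW c n (GG cs) (st0 κ₀ : St V I) / Hier.tot c ^ n with hg
  have h0 := inv_st0 (V := V) (I := I) κ₀
  have hgB : ∀ n, 0 ≤ g n ∧ g n ≤ B := by
    intro n
    have hp : 0 < Hier.tot c ^ n := pow_pos htot n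
    constructor
    · exact div_nonneg (WW_nonneg hc (fun s hs => GG_nonneg hs cs) n h0) hp.le
    · rw [hg]
      show _ / _ ≤ _
      rw [div_le_iff₀ hp, ← WW_const c B n (st0 κ₀ : St V I)]
      exact WW_mono hc (fun s hs => GG_le' hs hcs hK1 hK) n h0
  obtain ⟨M, h, h1, h2, h3, h4⟩ := exists_time (lam := 2 * Hier.tot c) (by positivity) hh hδ hgB
  refine ⟨M, h, h1, h2, le_trans ?_ h3, ?_⟩
  · rw [Finset.mul_sum]
    have hh0 : 0 ≤ h := by linarith
    refine Finset.sum_le_sum fun n _ => ?_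
    have hp : 0 < Hier.tot c ^ n := pow_pos htot n
    have h5 := WW_dd h0 hcs hcol hc n
    have h6 : WW c n (GG cs) (st0 κ₀ : St V I) = g n * Hier.tot c ^ n := by
      rw [hg]; field_simp
    have h7 : WW c (n + 1) (GG cs) (st0 κ₀ : St V I) = g (n + 1) * (Hier.tot c ^ n * Hier.tot c) := by
      rw [hg, ← pow_succ]; field_simp
    rw [h6, h7] at h5
    rw [← pw_tot]
    have h8 := pw_nonneg hc hh0 n
    have h9 : WW c n (fun s => ∑ p, c p * dd s p) (st0 κ₀ : St V I) ≤
        2 * Hier.tot c * (Hier.tot c ^ n * (g (n + 1) - g n)) := by nlinarith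
    calc pw c h n * WW c n (fun s => ∑ p, c p * dd s p) (st0 κ₀ : St V I)
        ≤ pw c h n * (2 * Hier.tot c * (Hier.tot c ^ n * (g (n + 1) - g n))) :=
          mul_le_mul_of_nonneg_left h9 h8
      _ = _ := by ring
  · refine h4.trans (le_of_eq ?_)
    exact Finset.sum_congr rfl fun n _ => (pw_tot c h n).symm

end Ent

variable {d L : ℕ} [NeZero L]

/-- The cubes have at most `r ^ d` sites. -/
theorem cls_cor_card {r : ℕ} (hr : 1 ≤ r) (x : Fin d → ZMod L) :
    (cls (cor (d := d) (L := L) r) x).card ≤ r ^ d := by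
  have h1 : (Fintype.piFinset fun _ : Fin d => range r).card = r ^ d := by
    rw [Fintype.card_piFinset]; simp
  rw [← h1]
  refine Finset.card_le_card_of_injOn (fun z j => (z j).val % r) ?_ ?_
  · intro z _
    rw [Finset.mem_coe, Fintype.mem_piFinset]
    intro j
    rw [Finset.mem_range]
    exact Nat.mod_lt _ (by omega)
  · intro z hz z' hz' h
    have e1 : ∀ y : Fin d → ZMod L, y ∈ cls (cor (d := d) (L := L) r) x →
        (∀ j, (y j).val / r < L / r) ∧ ∀ j, ((r * ((y j).val / r) : ℕ) : ZMod L) = x j := by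
      intro y hy
      unfold cls cor at hy
      rw [Finset.mem_filter] at hy
      have h2 := hy.2
      split_ifs at h2 with h3
      exact ⟨h3, fun j => congrFun (Option.some.inj h2) j⟩
    obtain ⟨a1, a2⟩ := e1 z (Finset.mem_coe.mp hz)
    obtain ⟨b1, b2⟩ := e1 z' (Finset.mem_coe.mp hz')
    funext j
    have h2 : ((r * ((z j).val / r) : ℕ) : ZMod L) = ((r * ((z' j).val / r) : ℕ) : ZMod L) := by
      rw [a2 j, b2 j]
    have h3 : ∀ y : ZMod L, r * (y.val / r) < L := fun y =>
      lt_of_le_of_lt (Nat.mul_div_le _ _) (ZMod.val_lt y)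
    have h4 := congrArg ZMod.val h2
    rw [ZMod.val_natCast_of_lt (h3 _), ZMod.val_natCast_of_lt (h3 _)] at h4
    have h5 : (z j).val % r = (z' j).val % r := congrFun h j
    apply ZMod.val_injective L
    rw [← Nat.div_add_mod (z j).val r, ← Nat.div_add_mod (z' j).val r, h4, h5]

end Pool.Agent.Stirring.HC
end
end
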