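import Pool.Agent.Lib.MP_6c3d62_pr.Mg.G077
import Pool.Agent.Lib.MP_6c3d62_pr.Mg.G081
import Pool.Agent.Lib.MP_6c3d62_pr.Mg.G076
import Pool.Agent.Lib.MP_6c3d62_pr.HP.A10b

section

/-! Many macroscopic cycles: cycles with length in a window. -/

open Finset Filter

set_option linter.unusedSectionVars false

namespace Pool.Agent.Stirring.Hier

/-- Indicator of `l < a`. -/
noncomputable def below (a : ℝ) (l : ℕ) : ℝ := if (l : ℝ) < a then 1 else 0

/-- Indicator of `a / 2 ≤ l < a`. -/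
noncomputable def wind (a : ℝ) (l : ℕ) : ℝ := below a l - below (a / 2) l

theorem below_nonneg (a : ℝ) (l : ℕ) : 0 ≤ below a l := by
  unfold below; split_ifs <;> norm_num

theorem below_le_one (a : ℝ) (l : ℕ) : below a l ≤ 1 := by
  unfold below; split_ifs <;> norm_num

theorem wind_eq {a : ℝ} (ha : 0 ≤ a) (l : ℕ) :
    wind a l = if a / 2 ≤ l ∧ (l : ℝ) < a then 1 else 0 := by
  unfold wind below
  by_cases h1 : (l : ℝ) < a
  · by_cases h2 : (l : ℝ) < a / 2
    · rw [if_pos h1, if_pos h2, if_neg (by rintro ⟨h, _⟩; linarith)]; ring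
    · rw [if_pos h1, if_neg h2, if_pos ⟨not_lt.mp h2, h1⟩]; ring
  · have h2 : ¬ (l : ℝ) < a / 2 := by
      push Not at h1 ⊢
      linarith
    rw [if_neg h1, if_neg h2, if_neg (fun h => h1 h.2)]; ring

theorem wind_nonneg {a : ℝ} (ha : 0 ≤ a) (l : ℕ) : 0 ≤ wind a l := by
  rw [wind_eq ha]; split_ifs <;> norm_num

theorem wind_le_one {a : ℝ} (ha : 0 ≤ a) (l : ℕ) : wind a l ≤ 1 := by
  rw [wind_eq ha]; split_ifs <;> norm_num

theorem sum_wind_ge {a : ℝ} (ha : 4 ≤ a) {l : ℕ} (hl : a ≤ l) :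
    a ^ 2 / 4 ≤ 2 * ∑ j ∈ Finset.range l, (j : ℝ) * wind a j := by
  have ha0 : 0 ≤ a := by linarith
  have h1 : ∑ j ∈ Finset.Ico ⌈a / 2⌉₊ ⌈a⌉₊, (a / 2) ≤
      ∑ j ∈ Finset.range l, (j : ℝ) * wind a j := by
    have h2 : ∑ j ∈ Finset.Ico ⌈a / 2⌉₊ ⌈a⌉₊, (a / 2) ≤
        ∑ j ∈ Finset.Ico ⌈a / 2⌉₊ ⌈a⌉₊, (j : ℝ) * wind a j := by
      refine Finset.sum_le_sum fun j hj => ?_
      obtain ⟨h3, h4⟩ := Finset.mem_Ico.mp hj
      have h5 : a / 2 ≤ j := Nat.ceil_le.mp h3
      have h6 : (j : ℝ) < a := Nat.lt_ceil.mp h4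
      rw [wind_eq ha0, if_pos ⟨h5, h6⟩, mul_one]
      exact h5
    refine h2.trans (Finset.sum_le_sum_of_subset_of_nonneg ?_ ?_)
    · intro j hj
      have h4 := (Finset.mem_Ico.mp hj).2
      have h6 : (j : ℝ) < a := Nat.lt_ceil.mp h4
      have h7 : (j : ℝ) < l := lt_of_lt_of_le h6 hl
      exact Finset.mem_range.mpr (by exact_mod_cast h7)
    · intro j _ _
      exact mul_nonneg (Nat.cast_nonneg _) (wind_nonneg ha0 j)
  rw [Finset.sum_const, Nat.card_Ico, nsmul_eq_mul] at h1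
  have h2 : (⌈a / 2⌉₊ : ℝ) < a / 2 + 1 := Nat.ceil_lt_add_one (by linarith)
  have h3 : a ≤ (⌈a⌉₊ : ℝ) := Nat.le_ceil a
  have h4 : ⌈a / 2⌉₊ ≤ ⌈a⌉₊ := Nat.ceil_mono (by linarith)
  rw [Nat.cast_sub h4] at h1
  have h5 : a / 4 ≤ (⌈a⌉₊ : ℝ) - (⌈a / 2⌉₊ : ℝ) := by linarith
  nlinarith

variable {V : Type*} [Fintype V] [DecidableEq V] {ι : Type*} [DecidableEq ι]

theorem gen_wind_ge {β : V → ι} {n : ℕ} (hn : ∀ x, (blk β x).card = n) {g : ℝ} (hg : 0 ≤ g)
    {a : ℝ} (ha : 4 ≤ a) (han : a ≤ n) {σ : Equiv.Perm V} (hσ : σ ∈ pres β) (x : V) :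
    g / (n : ℝ) ^ 2 * (a ^ 2 / 4 * (1 - below a (cl σ x)) - 3 * a * n * wind a (cl σ x)) ≤
      gen (brate β n g) (fun τ => wind a (cl τ x)) σ := by
  have ha0 : 0 ≤ a := by linarith
  rw [gen_cl hσ]
  refine mul_le_mul_of_nonneg_left ?_ (by positivity)
  set l := cl σ x with hl
  by_cases h1 : a ≤ l
  · -- long cycle
    have hw : wind a l = 0 := by
      rw [wind_eq ha0, if_neg (by rintro ⟨_, h⟩; linarith)]
    have hb : below a l = 0 := by
      unfold below; rw [if_neg (by linarith)]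
    rw [hw, hb]
    have h2 := sum_wind_ge ha h1
    have h3 : 0 ≤ 2 * (l : ℝ) * ∑ b ∈ blk β x \ orb σ x, (wind a (l + cl σ b) - 0) := by
      refine mul_nonneg (by positivity) (Finset.sum_nonneg fun b _ => ?_)
      rw [sub_zero]
      exact wind_nonneg ha0 _
    have h4 : ∑ j ∈ Finset.range l, (j : ℝ) * (wind a j - 0) =
        ∑ j ∈ Finset.range l, (j : ℝ) * wind a j :=
      Finset.sum_congr rfl fun j _ => by rw [sub_zero]
    rw [h4]
    linarith
  · push Not at h1
    have hb : below a l = 1 := by unfold below; rw [if_pos h1]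
    rw [hb, sub_self, mul_zero, zero_sub]
    by_cases h2 : a / 2 ≤ l
    · have hw : wind a l = 1 := by rw [wind_eq ha0, if_pos ⟨h2, h1⟩]
      rw [hw, mul_one]
      have h3 : -((l : ℝ) * (l - 1) / 2) ≤ ∑ j ∈ Finset.range l, (j : ℝ) * (wind a j - 1) := by
        rw [← sum_range_id, ← Finset.sum_neg_distrib]
        refine Finset.sum_le_sum fun j _ => ?_
        have := wind_nonneg ha0 j
        have hj : (0 : ℝ) ≤ j := Nat.cast_nonneg _
        nlinarith
      have h4 : -(n : ℝ) ≤ ∑ b ∈ blk β x \ orb σ x, (wind a (l + cl σ b) - 1) := by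
        have h5 : ∑ b ∈ blk β x \ orb σ x, (-1 : ℝ) ≤
            ∑ b ∈ blk β x \ orb σ x, (wind a (l + cl σ b) - 1) :=
          Finset.sum_le_sum fun b _ => by linarith [wind_nonneg ha0 (l + cl σ b)]
        refine le_trans ?_ h5
        rw [Finset.sum_const, nsmul_eq_mul, mul_neg, mul_one, neg_le_neg_iff, ← hn x]
        exact_mod_cast Finset.card_le_card Finset.sdiff_subset
      have hl0 : (0 : ℝ) ≤ l := Nat.cast_nonneg _
      have h5 := mul_le_mul_of_nonneg_left h4 (by positivity : (0 : ℝ) ≤ 2 * l)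
      nlinarith
    · have hw : wind a l = 0 := by rw [wind_eq ha0, if_neg (fun h => h2 h.1)]
      rw [hw]
      have h3 : 0 ≤ ∑ j ∈ Finset.range l, (j : ℝ) * (wind a j - 0) :=
        Finset.sum_nonneg fun j _ => mul_nonneg (Nat.cast_nonneg _) (by
          rw [sub_zero]; exact wind_nonneg ha0 j)
      have h4 : 0 ≤ ∑ b ∈ blk β x \ orb σ x, (wind a (l + cl σ b) - 0) :=
        Finset.sum_nonneg fun b _ => by rw [sub_zero]; exact wind_nonneg ha0 _
      have hl0 : (0 : ℝ) ≤ l := Nat.cast_nonneg _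
      have h5 := mul_nonneg (by positivity : (0 : ℝ) ≤ 2 * l) h4
      linarith

/-- The fraction of vertices of the block with length in the window. -/
noncomputable def Wn (β : V → ι) (n : ℕ) (a : ℝ) (σ : Equiv.Perm V) (x : V) : ℝ :=
  (∑ y ∈ blk β x, wind a (cl σ y)) / n

theorem Wn_nonneg {β : V → ι} {n : ℕ} {a : ℝ} (ha : 0 ≤ a) (σ : Equiv.Perm V) (x : V) :
    0 ≤ Wn β n a σ x :=
  div_nonneg (Finset.sum_nonneg fun y _ => wind_nonneg ha _) (Nat.cast_nonneg _)

theorem below_le {H n : ℝ} (hH : 0 < H) (hn : 0 < n) (l : ℕ) :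
    below (1 / H * n) l ≤ 3 * ex (H / n) l := by
  have h := one_sub_three_ex_le hH hn l
  unfold below
  split_ifs with h1
  · rw [if_neg (not_le.mpr h1)] at h
    linarith
  · have := ex_pos (H / n) l
    linarith

theorem gen_Wn_ge {β : V → ι} {n : ℕ} (hn : ∀ x, (blk β x).card = n) {g : ℝ} (hg : 0 ≤ g)
    {H : ℝ} (hH : 1 ≤ H) (ha : 4 ≤ 1 / H * n) {σ : Equiv.Perm V} (hσ : σ ∈ pres β) (x : V) :
    g / H ^ 2 / 4 * (1 - 3 * Phi β n H σ x) - 3 * g / H * Wn β n (1 / H * n) σ x ≤
      gen (brate β n g) (fun τ => Wn β n (1 / H * n) τ x) σ := by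
  have hn0 := n_pos hn x
  have hH0 : 0 < H := by linarith
  set a : ℝ := 1 / H * n with hadef
  have han : a ≤ n := by
    rw [hadef, div_mul_eq_mul_div, one_mul, div_le_iff₀ hH0]
    nlinarith
  have e1 : gen (brate β n g) (fun τ => Wn β n a τ x) σ =
      (∑ y ∈ blk β x, gen (brate β n g) (fun τ => wind a (cl τ y)) σ) / n := by
    have : (fun τ : Equiv.Perm V => Wn β n a τ x) =
        fun τ => (∑ y ∈ blk β x, (fun τ => wind a (cl τ y)) τ) / n := rfl
    rw [this, gen_div, gen_sum']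
  rw [e1, le_div_iff₀ hn0]
  have h1 : ∑ y ∈ blk β x, g / (n : ℝ) ^ 2 * (a ^ 2 / 4 * (1 - 3 * ex (H / n) (cl σ y)) -
      3 * a * n * wind a (cl σ y)) ≤
      ∑ y ∈ blk β x, gen (brate β n g) (fun τ => wind a (cl τ y)) σ := by
    refine Finset.sum_le_sum fun y _ => ?_
    refine le_trans ?_ (gen_wind_ge hn hg ha han hσ y)
    refine mul_le_mul_of_nonneg_left ?_ (by positivity)
    have h2 := below_le hH0 hn0 (cl σ y)
    rw [← hadef] at h2
    have h3 : a ^ 2 / 4 * (1 - 3 * ex (H / n) (cl σ y)) ≤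
        a ^ 2 / 4 * (1 - below a (cl σ y)) :=
      mul_le_mul_of_nonneg_left (by linarith) (by positivity)
    linarith
  refine le_trans (le_of_eq ?_) h1
  rw [← Finset.mul_sum, Finset.sum_sub_distrib, ← Finset.mul_sum, ← Finset.mul_sum,
    Finset.sum_sub_distrib, Finset.sum_const, hn, nsmul_eq_mul, ← Finset.mul_sum]
  unfold Phi Wn
  rw [hadef]
  field_simp

/-- Lower Gronwall inequality on an interval. -/
theorem gron_lower_Icc {u u' : ℝ → ℝ} {a b T₀ T : ℝ} (hb : 0 < b) (hT : T₀ ≤ T)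
    (hu : ∀ s ∈ Set.Icc T₀ T, HasDerivAt u (u' s) s)
    (h : ∀ s ∈ Set.Icc T₀ T, a - b * u s ≤ u' s) :
    a / b + Real.exp (-(b * (T - T₀))) * (u T₀ - a / b) ≤ u T := by
  set v : ℝ → ℝ := fun x => Real.exp (b * (x - T₀)) * (u x - a / b) with hv
  have hd : ∀ x ∈ Set.Icc T₀ T, HasDerivAt v (Real.exp (b * (x - T₀)) * (u' x + b * u x - a)) x := by
    intro x hx
    have h1 : HasDerivAt (fun y => Real.exp (b * (y - T₀))) (Real.exp (b * (x - T₀)) * (b * 1)) x :=
      (((hasDerivAt_id x).sub_const T₀).const_mul b).exp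
    have h2 := h1.mul ((hu x hx).sub_const (a / b))
    refine h2.congr_deriv ?_
    field_simp
    ring
  have hmono : MonotoneOn v (Set.Icc T₀ T) := by
    refine monotoneOn_of_deriv_nonneg (convex_Icc T₀ T) ?_ ?_ ?_
    · exact fun x hx => (hd x hx).continuousAt.continuousWithinAt
    · intro x hx
      rw [interior_Icc] at hx
      exact (hd x ⟨hx.1.le, hx.2.le⟩).differentiableAt.differentiableWithinAt
    · intro x hx
      rw [interior_Icc] at hx
      have hx' : x ∈ Set.Icc T₀ T := ⟨hx.1.le, hx.2.le⟩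
      rw [(hd x hx').deriv]
      have := h x hx'
      have h3 := Real.exp_pos (b * (x - T₀))
      refine mul_nonneg h3.le (by linarith)
  have h4 := hmono (Set.left_mem_Icc.mpr hT) (Set.right_mem_Icc.mpr hT) hT
  simp only [hv, sub_self, mul_zero, Real.exp_zero, one_mul] at h4
  have h5 : Real.exp (-(b * (T - T₀))) * (Real.exp (b * (T - T₀)) * (u T - a / b)) =
      u T - a / b := by
    rw [← mul_assoc, ← Real.exp_add]; simp
  have h6 := mul_le_mul_of_nonneg_left h4 (Real.exp_pos (-(b * (T - T₀)))).le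
  rw [h5] at h6
  linarith

/-- The window at the top level. -/
theorem sg_Wn_ge {β : V → ι} {n : ℕ} (hn : ∀ x, (blk β x).card = n) {g : ℝ} (hg : 0 < g)
    {H h₀ t : ℝ} (hH : 1 ≤ H) (ha : 4 ≤ 1 / H * n) (hH0 : H ≤ h₀) (ht : h₀ ≤ g * t / 2)
    {σ : Equiv.Perm V} (hσ : σ ∈ pres β) (x : V) :
    1 / (12 * H) * (1 - Real.exp (-(3 / 2 * (g * t) / H))) * (1 - 3 * (4 * Phi β n h₀ σ x +
      16 * (g * t) / h₀ ^ 2 + 16 / H)) ≤
      sg (brate β n g) t (fun τ => Wn β n (1 / H * n) τ x) σ := by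
  have hn0 := n_pos hn x
  have hHp : 0 < H := by linarith
  have hh₀ : 0 < h₀ := by linarith
  have ht0 : 0 < t := by
    by_contra hc
    push Not at hc
    nlinarith
  have hc := brate_nonneg (β := β) (n := n) hg.le
  have hG := stab_pres β n g
  set Q : ℝ := 4 * Phi β n h₀ σ x + 16 * (g * t) / h₀ ^ 2 + 16 / H with hQ
  have hQs : ∀ s ∈ Set.Icc (t / 2) t, sg (brate β n g) s (fun τ => Phi β n H τ x) σ ≤ Q := by
    intro s hs
    have h1 : h₀ - H ≤ g * s := by
      have := mul_le_mul_of_nonneg_left hs.1 hg.le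
      linarith
    refine (top_level hn hg hHp hH0 h1 hσ x).trans ?_
    have h2 : 16 * (g * s) / h₀ ^ 2 ≤ 16 * (g * t) / h₀ ^ 2 := by
      refine div_le_div_of_nonneg_right ?_ (by positivity)
      have := mul_le_mul_of_nonneg_left hs.2 hg.le
      linarith
    linarith
  set A : ℝ := g / H ^ 2 / 4 * (1 - 3 * Q) with hA
  set b : ℝ := 3 * g / H with hb
  have hb0 : 0 < b := by positivity
  have h1 := gron_lower_Icc (a := A) hb0 (by linarith : t / 2 ≤ t)
    (fun s _ => sg_hasDerivAt (brate β n g) (fun τ => Wn β n (1 / H * n) τ x) σ s) (by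
      intro s hs
      have h2 := sg_mono_on hc hG (f := (fun _ => g / H ^ 2 / 4) +
        (-(g / H ^ 2 / 4 * 3)) • ((fun τ => Phi β n H τ x) : Fn V) +
        (-b) • ((fun τ => Wn β n (1 / H * n) τ x) : Fn V))
        (g := gen (brate β n g) (fun τ => Wn β n (1 / H * n) τ x)) (by
          intro τ hτ
          simp only [Pi.add_apply, Pi.smul_apply, smul_eq_mul]
          refine le_trans (le_of_eq ?_) (gen_Wn_ge hn hg.le hH ha hτ x)
          rw [hb]
          ring) (by linarith [hs.1] : 0 ≤ s) σ hσ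
      rw [sg_add, sg_add, sg_const, sg_smul, sg_smul] at h2
      refine le_trans ?_ h2
      have h3 := mul_le_mul_of_nonneg_left (hQs s hs) (by positivity : 0 ≤ g / H ^ 2 / 4 * 3)
      rw [hA]
      linarith)
  have h2 : 0 ≤ sg (brate β n g) (t / 2) (fun τ => Wn β n (1 / H * n) τ x) σ :=
    sg_nonneg_on hc hG (fun τ _ => Wn_nonneg (by positivity) τ x) (by linarith) σ hσ
  refine le_trans ?_ h1
  have h3 : A / b = 1 / (12 * H) * (1 - 3 * Q) := by
    rw [hA, hb]; field_simp; ring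
  have h4 : b * (t - t / 2) = 3 / 2 * (g * t) / H := by rw [hb]; ring
  rw [h3, h4]
  have h5 := Real.exp_pos (-(3 / 2 * (g * t) / H))
  nlinarith [mul_nonneg h5.le h2]

end Pool.Agent.Stirring.Hier
end

section

/-! Arbitrarily many macroscopic cycles. -/

open Finset Filter

set_option linter.unusedSectionVars false

namespace Pool.Agent.Stirring.Hier

variable {N K : ℕ}

section

variable {g : ℕ → ℝ} {t c : ℝ}

theorem window_final (hg : ∀ j, 0 < g j) (ht : 0 < t) (hN : 2 ≤ N) (hc : 0 < c) (hc1 : c ≤ 1)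
    (hcg : ∀ j, c * g j ≤ g (j + 1)) {S H : ℝ} (hS : ∀ k, ∑ j ∈ Finset.range k, 1 / g j ≤ S)
    (hH : 1 ≤ H) (ht1 : 896 * S ≤ lam N c ^ 2 * t) (hHg : H ≤ lam N c * (t * g (K + 1)))
    (hn4 : 4 ≤ 1 / H * (((N ^ (K + 1) : ℕ)) : ℝ))
    (hB : 3 * (128 * S / (lam N c ^ 2 * t) + 16 / H) ≤ 1 / 2) (x : Word N (K + 1)) :
    1 / (48 * H) ≤ EL N (K + 1) g t (K + 1)
      (fun τ => Wn (lab N (K + 1) (K + 1)) (N ^ (K + 1)) (1 / H * (((N ^ (K + 1) : ℕ)) : ℝ))
        τ x) := by
  have hN0 : 0 < N := by omega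
  have hl := lam_pos hN0 hc
  have hl1 := lam_le_one hN0 hc hc1
  have hHp : 0 < H := by linarith
  have hgn : ∀ j, 0 ≤ g j := fun j => (hg j).le
  have hlt : 0 < lam N c ^ 2 * t := by positivity
  have hsmall' : ∀ k, aa N g t c k ≤ 28 * S / (lam N c ^ 2 * t) := by
    intro k
    unfold aa
    rw [div_mul_eq_mul_div]
    exact div_le_div_of_nonneg_right (mul_le_mul_of_nonneg_left (hS _) (by norm_num)) hlt.le
  have hsmall : ∀ k, aa N g t c k ≤ 1 / 32 := by
    intro k
    refine (hsmall' k).trans ?_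
    rw [div_le_iff₀ hlt]
    linarith
  obtain ⟨M, W, hM0, hW0, hMW, hM, hW⟩ := recursion (K := K + 1) hg ht hN hc hc1 hcg hsmall
    (by omega : K ≤ K + 1)
  obtain ⟨s1, s2, s3⟩ := scales hg ht hN0 hc hc1 hcg K
  have hMle : M ≤ 28 * S / (lam N c ^ 2 * t) := by
    have := hsmall' K
    linarith
  have hgK := hg (K + 1)
  set h₁ : ℝ := lam N c * (t * g (K + 1)) with hh₁
  have hh₁0 : 0 < h₁ := by positivity
  set h₀ : ℝ := max (N * (lam N c * (t * g K))) h₁ with hh₀
  have hgS : 1 / g (K + 1) ≤ S := by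
    have h1 := hS (K + 2)
    rw [Finset.sum_range_succ] at h1
    have h2 : 0 ≤ ∑ j ∈ Finset.range (K + 1), 1 / g j := Finset.sum_nonneg fun j _ => by
      have := hg j
      positivity
    linarith
  have hHh : H ≤ h₀ := hHg.trans (le_max_right _ _)
  have hcard : ∀ x : Word N (K + 1), (blk (lab N (K + 1) (K + 1)) x).card = N ^ (K + 1) :=
    fun x => card_blk le_rfl x
  rw [EL_succ]
  set C : ℝ := 1 / (12 * H) * (1 - Real.exp (-(3 / 2 * (g (K + 1) * t) / H))) with hC
  have hexp : Real.exp (-(3 / 2 * (g (K + 1) * t) / H)) ≤ 1 / 2 := by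
    have h1 : H ≤ g (K + 1) * t := by
      have h2 : 0 ≤ t * g (K + 1) := by positivity
      have h3 : lam N c * (t * g (K + 1)) ≤ 1 * (t * g (K + 1)) :=
        mul_le_mul_of_nonneg_right hl1 h2
      rw [hh₁] at hHg
      linarith
    have h2 : 1 ≤ 3 / 2 * (g (K + 1) * t) / H := by
      rw [le_div_iff₀ hHp]; linarith
    set y : ℝ := 3 / 2 * (g (K + 1) * t) / H with hy
    have h3 := Real.add_one_le_exp y
    have h4 : Real.exp y * Real.exp (-y) = 1 := by rw [← Real.exp_add]; simp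
    have h5 := Real.exp_pos (-y)
    nlinarith
  have hC1 : 1 / (24 * H) ≤ C := by
    have h1 : 1 / (24 * H) = 1 / (12 * H) * (1 / 2) := by field_simp; norm_num
    rw [h1, hC]
    exact mul_le_mul_of_nonneg_left (by linarith) (by positivity)
  have hC0 : 0 ≤ C := le_trans (by positivity) hC1
  have h1 : ∀ σ ∈ pres (lab N (K + 1) K),
      C * (1 - 3 * (16 * (g (K + 1) * t) / h₀ ^ 2 + 16 / H)) +
        (-(12 * C)) * Phi (lab N (K + 1) (K + 1)) (N ^ (K + 1)) (N * (lam N c * (t * g K))) σ x ≤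
      sg (brate (lab N (K + 1) (K + 1)) (N ^ (K + 1)) (g (K + 1))) t
      (fun τ => Wn (lab N (K + 1) (K + 1)) (N ^ (K + 1)) (1 / H * (((N ^ (K + 1) : ℕ)) : ℝ))
        τ x) σ := by
    intro σ hσ
    refine le_trans ?_ (sg_Wn_ge hcard (hg _) hH hn4 hHh s3 (pres_mono (Nat.le_succ K) hσ) x)
    rw [← hC]
    have h2 := Phi_anti hcard (le_max_left (N * (lam N c * (t * g K))) h₁) σ x
    have h3 := mul_le_mul_of_nonneg_left h2 (by positivity : 0 ≤ 12 * C)
    rw [← hh₀] at h3
    linarith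
  refine le_trans ?_ (EL_mono hgn ht.le K h1)
  rw [EL_add, EL_const, EL_mul]
  have h2 := EL_Phi_avg hN0 (by omega : K < K + 1) hM x
  have h3 : 16 * (g (K + 1) * t) / h₀ ^ 2 ≤ 16 * S / (lam N c ^ 2 * t) := by
    have h4 : 16 * (g (K + 1) * t) / h₁ ^ 2 = 16 * (1 / g (K + 1)) / (lam N c ^ 2 * t) := by
      rw [hh₁]; field_simp
    have h5 : 16 * (g (K + 1) * t) / h₀ ^ 2 ≤ 16 * (g (K + 1) * t) / h₁ ^ 2 := by
      refine div_le_div_of_nonneg_left (by positivity) (by positivity) ?_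
      exact pow_le_pow_left₀ hh₁0.le (le_max_right _ _) 2
    refine h5.trans ?_
    rw [h4]
    exact div_le_div_of_nonneg_right (by linarith) hlt.le
  have h5 : 128 * S / (lam N c ^ 2 * t) = 4 * (28 * S / (lam N c ^ 2 * t)) +
      16 * S / (lam N c ^ 2 * t) := by ring
  have h6 : 1 / 2 ≤ 1 - 3 * (16 * (g (K + 1) * t) / h₀ ^ 2 + 16 / H) - 12 *
      EL N (K + 1) g t K (fun τ => Phi (lab N (K + 1) (K + 1)) (N ^ (K + 1))
        (N * (lam N c * (t * g K))) τ x) := by
    rw [h5] at hB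
    linarith
  have h7 := mul_le_mul_of_nonneg_left h6 hC0
  have h8 : 1 / (48 * H) = 1 / (24 * H) * (1 / 2) := by field_simp; norm_num
  rw [h8]
  have h9 := mul_le_mul_of_nonneg_right hC1 (by norm_num : (0 : ℝ) ≤ 1 / 2)
  linarith

end

/-! ### Counting cycles -/

section Count

variable {V : Type*} [Fintype V] [DecidableEq V]

/-- The number of cycles of length at least `a`. -/
noncomputable def numC (a : ℝ) (σ : Equiv.Perm V) : ℕ :=
  ((Finset.univ.filter fun x => a ≤ cl σ x).image (orb σ)).card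

theorem orb_eq_of_mem {σ : Equiv.Perm V} {x y : V} (h : y ∈ orb σ x) : orb σ y = orb σ x := by
  have hsub : ∀ x y : V, y ∈ orb σ x → orb σ y ⊆ orb σ x := by
    intro x y h z hz
    obtain ⟨i, rfl⟩ := mem_orb.mp h
    obtain ⟨j, rfl⟩ := mem_orb.mp hz
    exact mem_orb.mpr ⟨j + i, Function.iterate_add_apply _ _ _ _⟩
  exact Finset.Subset.antisymm (hsub x y h) (hsub y x (mem_orb_symm.mp h))

theorem self_mem_orb (σ : Equiv.Perm V) (x : V) : x ∈ orb σ x := mem_orb.mpr ⟨0, rfl⟩

theorem sum_inv_eq (a : ℝ) (σ : Equiv.Perm V) :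
    ∑ x : V, (if a ≤ cl σ x then 1 / (cl σ x : ℝ) else 0) = numC a σ := by
  rw [← Finset.sum_filter]
  set X := Finset.univ.filter fun x => a ≤ cl σ x with hX
  have h1 : ∀ x ∈ X, orb σ x ∈ X.image (orb σ) := fun x hx => Finset.mem_image_of_mem _ hx
  rw [← Finset.sum_fiberwise_of_maps_to h1]
  have h2 : ∀ O ∈ X.image (orb σ), ∑ x ∈ X.filter (fun x => orb σ x = O), 1 / (cl σ x : ℝ) = 1 := by
    intro O hO
    obtain ⟨y, hy, rfl⟩ := Finset.mem_image.mp hO
    have h3 : X.filter (fun x => orb σ x = orb σ y) = orb σ y := by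
      ext z
      rw [Finset.mem_filter]
      constructor
      · rintro ⟨_, hz⟩
        rw [← hz]; exact self_mem_orb σ z
      · intro hz
        refine ⟨?_, orb_eq_of_mem hz⟩
        rw [hX, Finset.mem_filter] at hy ⊢
        refine ⟨Finset.mem_univ _, ?_⟩
        rw [cl_orb hz]; exact hy.2
    rw [h3, Finset.sum_congr rfl fun z hz => by rw [cl_orb hz], Finset.sum_const, card_orb,
      nsmul_eq_mul]
    have : (0 : ℝ) < cl σ y := by exact_mod_cast cl_pos σ y
    field_simp
  rw [Finset.sum_congr rfl h2, Finset.sum_const, nsmul_eq_mul, mul_one]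
  rfl

theorem exists_reps {a : ℝ} {σ : Equiv.Perm V} {i : ℕ} (h : i ≤ numC a σ) :
    ∃ s : Finset V, s.card = i ∧ (∀ x ∈ s, a ≤ cycLen σ x) ∧
      ∀ x ∈ s, ∀ y ∈ s, σ.SameCycle x y → x = y := by
  obtain ⟨u, hu1, hu2, hu3⟩ := Finset.exists_subset_injOn_image_eq_of_surjOn
    (f := orb σ) (↑(Finset.univ.filter fun x => a ≤ cl σ x) : Set V)
    ((Finset.univ.filter fun x => a ≤ cl σ x).image (orb σ)) (by
      rw [Finset.coe_image]
      exact Set.surjOn_image _ _)
  have hcard : u.card = numC a σ := by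
    unfold numC
    rw [← hu3, Finset.card_image_of_injOn hu2]
  rw [← hcard] at h
  obtain ⟨s, hs1, hs2⟩ := Finset.exists_subset_card_eq h
  refine ⟨s, hs2, ?_, ?_⟩
  · intro x hx
    have h1 := hu1 (Finset.mem_coe.mpr (hs1 hx))
    rw [Finset.mem_coe, Finset.mem_filter] at h1
    rw [cycLen_eq]
    exact h1.2
  · intro x hx y hy hxy
    refine hu2 (Finset.mem_coe.mpr (hs1 hx)) (Finset.mem_coe.mpr (hs1 hy)) ?_
    obtain ⟨j, hj⟩ := hxy.exists_nat_pow_eq
    have h1 : y ∈ orb σ x := mem_orb.mpr ⟨j, by rw [Equiv.Perm.iterate_eq_pow]; exact hj⟩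
    exact (orb_eq_of_mem h1).symm

/-- The number of long cycles is bounded below by the windows. -/
theorem sum_wind_le {a₀ : ℝ} (ha₀ : 0 < a₀) (J l : ℕ) (hl : 0 < l) :
    ∑ j ∈ Finset.range J, wind (a₀ / 2 ^ j) l / (a₀ / 2 ^ j) ≤
      if a₀ / 2 ^ J ≤ l then 1 / (l : ℝ) else 0 := by
  have hl0 : (0 : ℝ) < l := by exact_mod_cast hl
  have h1 : ∀ j ∈ Finset.range J, wind (a₀ / 2 ^ j) l / (a₀ / 2 ^ j) ≤
      (1 / (l : ℝ)) * wind (a₀ / 2 ^ j) l := by
    intro j _
    have hj : 0 < a₀ / 2 ^ j := by positivity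
    rw [wind_eq hj.le]
    split_ifs with h
    · rw [mul_one]
      exact one_div_le_one_div_of_le hl0 h.2.le
    · simp
  refine (Finset.sum_le_sum h1).trans ?_
  rw [← Finset.mul_sum]
  have h2 : ∑ j ∈ Finset.range J, wind (a₀ / 2 ^ j) l =
      below a₀ l - below (a₀ / 2 ^ J) l := by
    have h3 : ∀ j ∈ Finset.range J, wind (a₀ / 2 ^ j) l =
        below (a₀ / 2 ^ j) l - below (a₀ / 2 ^ (j + 1)) l := by
      intro j _
      unfold wind
      have : a₀ / 2 ^ j / 2 = a₀ / 2 ^ (j + 1) := by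
        rw [pow_succ]; field_simp
      rw [this]
    rw [Finset.sum_congr rfl h3, Finset.sum_range_sub']
    simp
  rw [h2]
  have h4 := below_le_one a₀ l
  split_ifs with h
  · have h5 := below_nonneg (a₀ / 2 ^ J) l
    have h6 : 0 < 1 / (l : ℝ) := by positivity
    nlinarith
  · push Not at h
    have h5 : below (a₀ / 2 ^ J) l = 1 := by unfold below; rw [if_pos h]
    rw [h5]
    have h6 : 0 < 1 / (l : ℝ) := by positivity
    nlinarith

end Count

theorem numC_ge (hN : 0 < N) (J : ℕ) {H₀ : ℝ} (hH₀ : 0 < H₀)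
    (σ : Equiv.Perm (Word N K)) (x₀ : Word N K) :
    ∑ j ∈ Finset.range J, (H₀ * 2 ^ j) * Wn (lab N K K) (N ^ K)
      (1 / (H₀ * 2 ^ j) * (((N ^ K : ℕ)) : ℝ)) σ x₀ ≤
      numC (1 / (H₀ * 2 ^ J) * (((N ^ K : ℕ)) : ℝ)) σ := by
  have hn0 : (0 : ℝ) < ((N ^ K : ℕ) : ℝ) := by exact_mod_cast pow_pos hN K
  set n : ℝ := ((N ^ K : ℕ) : ℝ) with hn
  rw [← sum_inv_eq]
  have e1 : ∀ j : ℕ, 1 / (H₀ * 2 ^ j) * n = (n / H₀) / 2 ^ j := by
    intro j; field_simp
  have h1 : ∀ j ∈ Finset.range J, (H₀ * 2 ^ j) * Wn (lab N K K) (N ^ K)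
      (1 / (H₀ * 2 ^ j) * n) σ x₀ =
      ∑ x : Word N K, wind ((n / H₀) / 2 ^ j) (cl σ x) / ((n / H₀) / 2 ^ j) := by
    intro j _
    unfold Wn
    rw [blk_top, e1, ← hn, ← Finset.sum_div]
    field_simp
  rw [Finset.sum_congr rfl h1, Finset.sum_comm, e1]
  exact Finset.sum_le_sum fun x _ => sum_wind_le (by positivity) J (cl σ x) (cl_pos σ x)

theorem numC_le {ε : ℝ} (hN : 0 < N) (hε : 0 < ε) (σ : Equiv.Perm (Word N K)) :
    (numC (ε * (((N ^ K : ℕ)) : ℝ)) σ : ℝ) ≤ 1 / ε := by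
  have hn0 : (0 : ℝ) < ((N ^ K : ℕ) : ℝ) := by exact_mod_cast pow_pos hN K
  rw [← sum_inv_eq]
  have h1 : ∀ x ∈ (Finset.univ : Finset (Word N K)),
      (if ε * (((N ^ K : ℕ)) : ℝ) ≤ cl σ x then 1 / (cl σ x : ℝ) else 0) ≤
      1 / (ε * (((N ^ K : ℕ)) : ℝ)) := by
    intro x _
    split_ifs with h
    · exact one_div_le_one_div_of_le (by positivity) h
    · positivity
  refine (Finset.sum_le_sum h1).trans (le_of_eq ?_)
  rw [Finset.sum_const, Finset.card_univ, nsmul_eq_mul, card_word]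
  push_cast at hn0 ⊢
  field_simp

/-- The transient case: for large `t`, for every `i` there are `i` macroscopic cycles with
positive probability. -/
theorem many_case {g : ℕ → ℝ} {c : ℝ} (hN : 2 ≤ N) (hg : ∀ j, 0 < g j) (hc : 0 < c)
    (hcg : ∀ j, c * g j ≤ g (j + 1)) (hs : Summable fun j => 1 / g j) :
    ∃ t₀ : ℝ, 0 < t₀ ∧ ∀ t, t₀ ≤ t → ∀ i : ℕ, 1 ≤ i → ∃ ε : ℝ, 0 < ε ∧ ∀ᶠ K : ℕ in atTop,
      ε ≤ hexpect N K g t (ind {σ : Equiv.Perm (Word N K) | ∃ s : Finset (Word N K),
        s.card = i ∧ (∀ x ∈ s, ε * (N : ℝ) ^ K ≤ cycLen σ x) ∧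
        ∀ x ∈ s, ∀ y ∈ s, σ.SameCycle x y → x = y}) := by
  classical
  have hN0 : 0 < N := by omega
  have hNr : (2 : ℝ) ≤ N := by exact_mod_cast hN
  have hgn : ∀ j, 0 ≤ g j := fun j => (hg j).le
  set c' : ℝ := min c 1 with hc'
  have hc0 : 0 < c' := lt_min hc one_pos
  have hc1 : c' ≤ 1 := min_le_right _ _
  have hcg' : ∀ j, c' * g j ≤ g (j + 1) := fun j =>
    (mul_le_mul_of_nonneg_right (min_le_left _ _) (hgn j)).trans (hcg j)
  obtain ⟨hS0, hS⟩ := summable_bound hg hs
  set S : ℝ := ∑' j, 1 / g j with hSdef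
  have hl := lam_pos hN0 hc0
  set L : ℝ := lam N c' with hL
  refine ⟨896 * S / L ^ 2 + 1536 * S / L ^ 2, by positivity, ?_⟩
  intro t ht i hi1
  have e1 : 0 < 896 * S / L ^ 2 := by positivity
  have e2 : 0 < 1536 * S / L ^ 2 := by positivity
  have ht0 : 0 < t := by linarith
  have ht1 : 896 * S ≤ L ^ 2 * t := by
    have : 896 * S / L ^ 2 ≤ t := by linarith
    rw [div_le_iff₀ (by positivity)] at this
    linarith
  have ht2 : 1536 * S ≤ L ^ 2 * t := by
    have : 1536 * S / L ^ 2 ≤ t := by linarith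
    rw [div_le_iff₀ (by positivity)] at this
    linarith
  set J : ℕ := 48 * i with hJ
  set HJ : ℝ := 192 * 2 ^ J with hHJ
  have hHJ0 : 0 < HJ := by positivity
  refine ⟨1 / HJ, by positivity, ?_⟩
  -- large levels
  have hgt : Tendsto g atTop atTop := by
    have h1 := hs.tendsto_atTop_zero
    have h2 : Tendsto (fun j => (1 / g j)⁻¹) atTop atTop := by
      refine Tendsto.inv_tendsto_nhdsGT_zero ?_
      rw [tendsto_nhdsWithin_iff]
      exact ⟨h1, Eventually.of_forall fun j => by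
        have := hg j
        show 0 < 1 / g j
        positivity⟩
    refine h2.congr fun j => ?_
    rw [one_div, inv_inv]
  have hev1 : ∀ᶠ K : ℕ in atTop, HJ / (L * t) ≤ g K := hgt.eventually_ge_atTop _
  have hev2 : ∀ᶠ K : ℕ in atTop, 4 * HJ ≤ (N : ℝ) ^ K :=
    (tendsto_pow_atTop_atTop_of_one_lt (by linarith)).eventually_ge_atTop _
  filter_upwards [hev1, hev2, eventually_ge_atTop 1] with K hK1 hK2 hK3
  obtain ⟨k, rfl⟩ : ∃ k, K = k + 1 := ⟨K - 1, by omega⟩
  have hLt : 0 < L * t := by positivity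
  have hK1' : HJ ≤ L * (t * g (k + 1)) := by
    rw [div_le_iff₀ hLt] at hK1
    linarith
  rw [hexpect_eq]
  have x₀ : Word N (k + 1) := fun _ => ⟨0, hN0⟩
  set n : ℝ := ((N ^ (k + 1) : ℕ) : ℝ) with hn
  have hnr : n = (N : ℝ) ^ (k + 1) := by rw [hn]; push_cast; rfl
  have hn0 : 0 < n := by rw [hnr]; positivity
  set Z : Fn (Word N (k + 1)) := fun σ => (numC (1 / HJ * n) σ : ℝ) with hZ
  -- expectation of the number of long cycles
  have hEZ : (i : ℝ) ≤ EL N (k + 1) g t (k + 1) Z := by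
    have h1 := EL_mono (N := N) (K := k + 1) hgn ht0.le (k + 1)
      (f := fun σ => ∑ j ∈ Finset.range J, ((192 : ℝ) * 2 ^ j) *
        Wn (lab N (k + 1) (k + 1)) (N ^ (k + 1)) (1 / ((192 : ℝ) * 2 ^ j) * n) σ x₀) (h := Z)
      (fun σ _ => numC_ge hN0 J (by norm_num) σ x₀)
    refine le_trans ?_ h1
    rw [EL_sum]
    have h2 : ∀ j ∈ Finset.range J, (1 : ℝ) / 48 ≤ EL N (k + 1) g t (k + 1)
        (fun σ => ((192 : ℝ) * 2 ^ j) *
        Wn (lab N (k + 1) (k + 1)) (N ^ (k + 1)) (1 / ((192 : ℝ) * 2 ^ j) * n) σ x₀) := by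
      intro j hj
      have hjJ : (192 : ℝ) * 2 ^ j ≤ HJ := by
        rw [hHJ]
        exact mul_le_mul_of_nonneg_left
          (pow_le_pow_right₀ (by norm_num) (Finset.mem_range.mp hj).le) (by norm_num)
      have hj1 : (1 : ℝ) ≤ 2 ^ j := one_le_pow₀ (by norm_num)
      have hj0 : (0 : ℝ) < 192 * 2 ^ j := by positivity
      rw [EL_mul]
      have h3 := window_final (K := k) hg ht0 hN hc0 hc1 hcg' hS
        (by linarith : (1 : ℝ) ≤ 192 * 2 ^ j) ht1 (hjJ.trans hK1') (by
          rw [div_mul_eq_mul_div, one_mul, le_div_iff₀ hj0, ← hn, hnr]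
          linarith) (by
          have h4 : 128 * S / (L ^ 2 * t) ≤ 1 / 12 := by
            rw [div_le_div_iff₀ (by positivity) (by norm_num)]
            linarith
          have h5 : 16 / ((192 : ℝ) * 2 ^ j) ≤ 1 / 12 := by
            rw [div_le_div_iff₀ hj0 (by norm_num)]
            linarith
          linarith) x₀
      have h4 := mul_le_mul_of_nonneg_left h3 hj0.le
      refine le_trans (le_of_eq ?_) h4
      field_simp
    have h3 := Finset.sum_le_sum h2
    rw [Finset.sum_const, Finset.card_range, nsmul_eq_mul, hJ] at h3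
    refine le_trans (le_of_eq ?_) h3
    push_cast
    ring
  -- from expectation to probability
  have hpt : ∀ σ ∈ pres (lab N (k + 1) (k + 1)), (1 / HJ) * Z σ + (1 / HJ) * (-((i : ℝ) - 1)) ≤
      ind {σ : Equiv.Perm (Word N (k + 1)) | ∃ s : Finset (Word N (k + 1)),
        s.card = i ∧ (∀ x ∈ s, 1 / HJ * (N : ℝ) ^ (k + 1) ≤ cycLen σ x) ∧
        ∀ x ∈ s, ∀ y ∈ s, σ.SameCycle x y → x = y} σ := by
    intro σ _
    by_cases hi : i ≤ numC (1 / HJ * n) σ
    · have hmem : σ ∈ {σ : Equiv.Perm (Word N (k + 1)) | ∃ s : Finset (Word N (k + 1)),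
        s.card = i ∧ (∀ x ∈ s, 1 / HJ * (N : ℝ) ^ (k + 1) ≤ cycLen σ x) ∧
        ∀ x ∈ s, ∀ y ∈ s, σ.SameCycle x y → x = y} := by
        obtain ⟨s, hs1, hs2, hs3⟩ := exists_reps hi
        rw [hnr] at hs2
        exact ⟨s, hs1, hs2, hs3⟩
      unfold ind
      rw [Set.indicator_of_mem hmem]
      have h1 := numC_le (ε := 1 / HJ) hN0 (by positivity) σ
      rw [← hn] at h1
      have h2 : (1 / HJ) * Z σ ≤ 1 := by
        have h3 := mul_le_mul_of_nonneg_left h1 (by positivity : 0 ≤ 1 / HJ)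
        refine h3.trans (le_of_eq ?_)
        field_simp
      have h4 : (1 : ℝ) ≤ i := by exact_mod_cast hi1
      have h5 : (1 / HJ) * (-((i : ℝ) - 1)) ≤ 0 :=
        mul_nonpos_of_nonneg_of_nonpos (by positivity) (by linarith)
      linarith
    · push Not at hi
      have h1 : (numC (1 / HJ * n) σ : ℝ) ≤ (i : ℝ) - 1 := by
        have : numC (1 / HJ * n) σ + 1 ≤ i := hi
        have h2 : ((numC (1 / HJ * n) σ : ℝ)) + 1 ≤ i := by exact_mod_cast this
        linarith
      have h2 : (1 / HJ) * Z σ + (1 / HJ) * (-((i : ℝ) - 1)) ≤ 0 := by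
        rw [← mul_add]
        exact mul_nonpos_of_nonneg_of_nonpos (by positivity) (by
          have : Z σ ≤ (i : ℝ) - 1 := h1
          linarith)
      exact h2.trans (ind_nonneg _ _)
  have h1 := EL_mono (N := N) (K := k + 1) hgn ht0.le (k + 1) hpt
  refine le_trans ?_ h1
  rw [EL_add, EL_mul, EL_const]
  have h2 := mul_le_mul_of_nonneg_left hEZ (by positivity : 0 ≤ 1 / HJ)
  linarith

end Pool.Agent.Stirring.Hier
end

section

/-! Restriction of a permutation of the system of size `K + 1` to a block of level `K`. -/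

open Finset Filter

set_option linter.unusedSectionVars false

namespace Pool.Agent.Stirring.Hier

variable {N K : ℕ}

/-- Words of length `K + 1` with the last letter `a`. -/
def ext (a : Fin N) (x : Word N K) : Word N (K + 1) := Fin.snoc (α := fun _ => Fin N) x a

theorem ext_last (a : Fin N) (x : Word N K) : ext a x (Fin.last K) = a := by
  unfold ext; exact Fin.snoc_last (α := fun _ => Fin N) a x

theorem ext_castSucc (a : Fin N) (x : Word N K) (i : Fin K) : ext a x i.castSucc = x i := by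
  unfold ext; exact Fin.snoc_castSucc (α := fun _ => Fin N) a x i

theorem ext_init (w : Word N (K + 1)) :
    ext (w (Fin.last K)) (fun i : Fin K => w i.castSucc) = w := by
  funext i
  refine Fin.lastCases ?_ (fun j => ?_) i
  · rw [ext_last]
  · rw [ext_castSucc]

theorem ext_inj {a b : Fin N} {x y : Word N K} (h : ext a x = ext b y) : a = b ∧ x = y := by
  constructor
  · have := congrFun h (Fin.last K)
    rwa [ext_last, ext_last] at this
  · funext i
    have := congrFun h i.castSucc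
    rwa [ext_castSucc, ext_castSucc] at this

theorem sum_ext (F : Word N (K + 1) → ℝ) :
    ∑ w, F w = ∑ a : Fin N, ∑ x : Word N K, F (ext a x) := by
  have e := Equiv.sum_comp (M := ℝ) (Fin.snocEquiv (fun _ : Fin (K + 1) => Fin N))
    (fun w : Fin (K + 1) → Fin N => F w)
  rw [← e, Fintype.sum_prod_type]
  rfl

theorem sameBlock_ext {j : ℕ} (hj : j ≤ K) {a b : Fin N} {x y : Word N K} :
    SameBlock j (ext a x) (ext b y) ↔ a = b ∧ SameBlock j x y := by
  constructor
  · intro h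
    constructor
    · have := h (Fin.last K) (by simpa using hj)
      rwa [ext_last, ext_last] at this
    · intro i hi
      have := h i.castSucc (by simpa using hi)
      rwa [ext_castSucc, ext_castSucc] at this
  · rintro ⟨h1, h2⟩ i
    refine Fin.lastCases ?_ (fun i => ?_) i
    · intro _
      rw [ext_last, ext_last, h1]
    · intro hi
      rw [ext_castSucc, ext_castSucc]
      exact h2 i (by simpa using hi)

theorem lev_ext (g : ℕ → ℝ) {k : ℕ} (hk : k ≤ K) (a b : Fin N) (x y : Word N K) :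
    lev N (K + 1) g k (ext a x, ext b y) = if a = b then lev N K g k (x, y) else 0 := by
  unfold lev
  rw [Finset.sum_apply, Finset.sum_apply]
  by_cases hab : a = b
  · rw [if_pos hab]
    refine Finset.sum_congr rfl fun j hj => ?_
    have hj' := Finset.mem_range.mp hj
    unfold brate
    subst hab
    by_cases h : SameBlock (j + 1) x y
    · rw [if_pos (lab_eq_iff.mpr ((sameBlock_ext (by omega)).mpr ⟨rfl, h⟩)),
        if_pos (lab_eq_iff.mpr h)]
    · rw [if_neg (fun h' => h ((sameBlock_ext (by omega)).mp (lab_eq_iff.mp h')).2),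
        if_neg (fun h' => h (lab_eq_iff.mp h'))]
  · rw [if_neg hab]
    refine Finset.sum_eq_zero fun j hj => ?_
    have hj' := Finset.mem_range.mp hj
    unfold brate
    simp only [lab_eq_iff, sameBlock_ext (show j + 1 ≤ K by omega), hab, false_and, if_false]

/-- The map on the words of length `K`. -/
def rmap (a : Fin N) (σ : Equiv.Perm (Word N (K + 1))) (x : Word N K) : Word N K :=
  fun i => σ (ext a x) i.castSucc

open Classical in
/-- The restriction to the block `a`. -/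
noncomputable def restr (a : Fin N) (σ : Equiv.Perm (Word N (K + 1))) : Equiv.Perm (Word N K) :=
  if h : Function.Bijective (rmap a σ) then Equiv.ofBijective _ h else 1

theorem mem_pres_last {σ : Equiv.Perm (Word N (K + 1))} (hσ : σ ∈ pres (lab N (K + 1) K))
    (w : Word N (K + 1)) : σ w (Fin.last K) = w (Fin.last K) := by
  have h := hσ w
  rw [lab_eq_iff] at h
  exact h (Fin.last K) (by simp)

theorem rmap_bij {σ : Equiv.Perm (Word N (K + 1))} (hσ : σ ∈ pres (lab N (K + 1) K))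
    (a : Fin N) : Function.Bijective (rmap a σ) := by
  rw [← Finite.injective_iff_bijective]
  intro x y hxy
  have h1 : ∀ x, ext a (rmap a σ x) = σ (ext a x) := by
    intro x
    have h2 := mem_pres_last hσ (ext a x)
    rw [ext_last] at h2
    conv_rhs => rw [← ext_init (σ (ext a x)), h2]
    rfl
  have h2 : σ (ext a x) = σ (ext a y) := by rw [← h1, ← h1, hxy]
  exact (ext_inj (σ.injective h2)).2

theorem ext_restr {σ : Equiv.Perm (Word N (K + 1))} (hσ : σ ∈ pres (lab N (K + 1) K))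
    (a : Fin N) (x : Word N K) : ext a (restr a σ x) = σ (ext a x) := by
  have h1 : restr a σ x = rmap a σ x := by
    unfold restr
    rw [dif_pos (rmap_bij hσ a)]
    rfl
  have h2 := mem_pres_last hσ (ext a x)
  rw [ext_last] at h2
  conv_rhs => rw [← ext_init (σ (ext a x)), h2]
  rw [h1]
  rfl

theorem restr_one (a : Fin N) : restr a (1 : Equiv.Perm (Word N (K + 1))) = 1 := by
  refine Equiv.ext fun x => ?_
  have h := ext_restr (one_mem_pres (N := N) (K := K + 1) K) a x
  exact (ext_inj h).2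

theorem restr_swap {σ : Equiv.Perm (Word N (K + 1))} (hσ : σ ∈ pres (lab N (K + 1) K))
    (a : Fin N) (x y : Word N K) :
    restr a (σ * Equiv.swap (ext a x) (ext a y)) = restr a σ * Equiv.swap x y := by
  have hσ' : σ * Equiv.swap (ext a x) (ext a y) ∈ pres (lab N (K + 1) K) := by
    intro w
    show lab N (K + 1) K (σ (Equiv.swap (ext a x) (ext a y) w)) = _
    rw [hσ, lab_swap le_rfl]
    rw [lab_eq_iff, sameBlock_ext le_rfl]
    exact ⟨rfl, fun i hi => absurd i.2 (by omega)⟩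
  refine Equiv.ext fun z => ?_
  have h1 := ext_restr hσ' a z
  have h2 : Equiv.swap (ext a x) (ext a y) (ext a z) = ext a (Equiv.swap x y z) := by
    by_cases hx : z = x
    · rw [hx, Equiv.swap_apply_left, Equiv.swap_apply_left]
    · by_cases hy : z = y
      · rw [hy, Equiv.swap_apply_right, Equiv.swap_apply_right]
      · rw [Equiv.swap_apply_of_ne_of_ne hx hy, Equiv.swap_apply_of_ne_of_ne
          (fun h => hx (ext_inj h).2) (fun h => hy (ext_inj h).2)]
  rw [Equiv.Perm.mul_apply, h2, ← ext_restr hσ a] at h1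
  exact (ext_inj h1).2

theorem restr_swap_ne {σ : Equiv.Perm (Word N (K + 1))} (hσ : σ ∈ pres (lab N (K + 1) K))
    {a b : Fin N} (hab : a ≠ b) (x y : Word N K) :
    restr a (σ * Equiv.swap (ext b x) (ext b y)) = restr a σ := by
  have hσ' : σ * Equiv.swap (ext b x) (ext b y) ∈ pres (lab N (K + 1) K) := by
    intro w
    show lab N (K + 1) K (σ (Equiv.swap (ext b x) (ext b y) w)) = _
    rw [hσ, lab_swap le_rfl]
    rw [lab_eq_iff, sameBlock_ext le_rfl]
    exact ⟨rfl, fun i hi => absurd i.2 (by omega)⟩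
  refine Equiv.ext fun z => ?_
  have h1 := ext_restr hσ' a z
  have h2 : Equiv.swap (ext b x) (ext b y) (ext a z) = ext a z :=
    Equiv.swap_apply_of_ne_of_ne (fun h => hab (ext_inj h).1) (fun h => hab (ext_inj h).1)
  rw [Equiv.Perm.mul_apply, h2, ← ext_restr hσ a] at h1
  exact (ext_inj h1).2

theorem pres_of_le {k : ℕ} (hk : k ≤ K) {σ : Equiv.Perm (Word N (K + 1))}
    (hσ : σ ∈ pres (lab N (K + 1) k)) : σ ∈ pres (lab N (K + 1) K) := pres_mono hk hσ

theorem stab_lev' (g : ℕ → ℝ) {k : ℕ} (hk : k ≤ K) :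
    Stab (lev N (K + 1) g k) (pres (lab N (K + 1) K)) := by
  intro σ hσ p hp y
  have h1 := lev_apply_ne hp
  show lab N (K + 1) K (σ (Equiv.swap p.1 p.2 y)) = lab N (K + 1) K y
  rw [hσ, lab_swap hk h1]

/-- The generator and the restriction. -/
theorem gen_restr (g : ℕ → ℝ) {k : ℕ} (hk : k ≤ K) (a : Fin N) (f : Fn (Word N K))
    {σ : Equiv.Perm (Word N (K + 1))} (hσ : σ ∈ pres (lab N (K + 1) K)) :
    gen (lev N (K + 1) g k) (fun τ => f (restr a τ)) σ = gen (lev N K g k) f (restr a σ) := by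
  rw [gen_apply, gen_apply, Fintype.sum_prod_type, sum_ext]
  have h1 : ∀ (b : Fin N) (x : Word N K), ∑ w : Word N (K + 1),
      lev N (K + 1) g k (ext b x, w) *
        (f (restr a (σ * Equiv.swap (ext b x) w)) - f (restr a σ)) =
      if b = a then ∑ y : Word N K, lev N K g k (x, y) *
        (f (restr a σ * Equiv.swap x y) - f (restr a σ)) else 0 := by
    intro b x
    rw [sum_ext]
    have h2 : ∀ (c : Fin N) (y : Word N K), lev N (K + 1) g k (ext b x, ext c y) *
        (f (restr a (σ * Equiv.swap (ext b x) (ext c y))) - f (restr a σ)) =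
        if c = b then (if b = a then lev N K g k (x, y) *
          (f (restr a σ * Equiv.swap x y) - f (restr a σ)) else 0) else 0 := by
      intro c y
      rw [lev_ext g hk]
      by_cases hc : c = b
      · subst hc
        rw [if_pos rfl, if_pos rfl]
        by_cases hb : c = a
        · subst hb
          rw [if_pos rfl, restr_swap hσ]
        · rw [if_neg hb, restr_swap_ne hσ (Ne.symm hb), sub_self, mul_zero]
      · rw [if_neg hc, if_neg (Ne.symm hc), zero_mul]
    simp only [h2]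
    rw [Finset.sum_comm]
    simp only [Finset.sum_ite_eq', Finset.mem_univ, if_true]
    split_ifs
    · rfl
    · exact Finset.sum_const_zero
  simp only [h1]
  rw [Finset.sum_comm]
  simp only [Finset.sum_ite_eq', Finset.mem_univ, if_true]
  rw [Fintype.sum_prod_type]

theorem gen_congr_on {V : Type*} [Fintype V] [DecidableEq V] {c : V × V → ℝ}
    {G : Set (Equiv.Perm V)} (hG : Stab c G) {f h : Fn V} (hfh : ∀ σ ∈ G, f σ = h σ)
    {σ : Equiv.Perm V} (hσ : σ ∈ G) : gen c f σ = gen c h σ := by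
  rw [gen_apply, gen_apply]
  refine Finset.sum_congr rfl fun p _ => ?_
  by_cases hp : c p = 0
  · rw [hp, zero_mul, zero_mul]
  · rw [hfh _ (hG σ hσ p hp), hfh _ hσ]

theorem gen_pow_restr (g : ℕ → ℝ) {k : ℕ} (hk : k ≤ K) (a : Fin N) (f : Fn (Word N K)) (n : ℕ) :
    ∀ σ ∈ pres (lab N (K + 1) K), (gen (lev N (K + 1) g k) ^ n) (fun τ => f (restr a τ)) σ =
      (gen (lev N K g k) ^ n) f (restr a σ) := by
  induction n with
  | zero => intro σ _; rfl
  | succ n ih =>
    intro σ hσ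
    have e1 : (gen (lev N (K + 1) g k) ^ (n + 1)) (fun τ => f (restr a τ)) =
        gen (lev N (K + 1) g k) ((gen (lev N (K + 1) g k) ^ n) (fun τ => f (restr a τ))) := by
      rw [pow_succ']; rfl
    have e2 : (gen (lev N K g k) ^ (n + 1)) f =
        gen (lev N K g k) ((gen (lev N K g k) ^ n) f) := by
      rw [pow_succ']; rfl
    rw [e1, e2, gen_congr_on (stab_lev' g hk) ih hσ,
      gen_restr g hk a ((gen (lev N K g k) ^ n) f) hσ]

theorem sg_hasSum_gen {V : Type*} [Fintype V] [DecidableEq V] (c : V × V → ℝ) (s : ℝ) (f : Fn V)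
    (σ : Equiv.Perm V) :
    HasSum (fun n : ℕ => (n.factorial : ℝ)⁻¹ * (s ^ n * ((gen c ^ n) f σ))) (sg c s f σ) := by
  have h := (NormedSpace.exp_series_hasSum_exp' (𝕂 := ℝ) (s • gen c)).mapL (ev f σ)
  have h3 : sg c s f σ = ev f σ (NormedSpace.exp (s • gen c)) := rfl
  rw [h3]
  refine h.congr_fun ?_ |> fun h => h
  intro n
  rw [smul_pow, map_smul, map_smul, ev_apply, smul_eq_mul, smul_eq_mul]

/-- The semigroup and the restriction. -/
theorem sg_restr (g : ℕ → ℝ) {k : ℕ} (hk : k ≤ K) (a : Fin N) (f : Fn (Word N K)) (s : ℝ)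
    {σ : Equiv.Perm (Word N (K + 1))} (hσ : σ ∈ pres (lab N (K + 1) K)) :
    sg (lev N (K + 1) g k) s (fun τ => f (restr a τ)) σ =
      sg (lev N K g k) s f (restr a σ) := by
  have h1 := sg_hasSum_gen (lev N (K + 1) g k) s (fun τ => f (restr a τ)) σ
  have h2 := sg_hasSum_gen (lev N K g k) s f (restr a σ)
  refine h1.unique ?_
  refine h2.congr_fun ?_ |> fun h => h
  intro n
  rw [gen_pow_restr g hk a f n σ hσ]

theorem EL_restr (g : ℕ → ℝ) (t : ℝ) {k : ℕ} (hk : k ≤ K) (a : Fin N) (f : Fn (Word N K)) :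
    EL N (K + 1) g t k (fun τ => f (restr a τ)) = EL N K g t k f := by
  unfold EL
  rw [sg_restr g hk a f t (one_mem_pres K), restr_one]

/-- The cycles of the restriction. -/
theorem cl_restr {σ : Equiv.Perm (Word N (K + 1))} (hσ : σ ∈ pres (lab N (K + 1) K))
    (a : Fin N) (x : Word N K) : cl (restr a σ) x = cl σ (ext a x) := by
  unfold cl
  have h1 : ∀ (n : ℕ) (x : Word N K), ext a ((restr a σ : Word N K → Word N K)^[n] x) =
      (σ : Word N (K + 1) → Word N (K + 1))^[n] (ext a x) := by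
    intro n
    induction n with
    | zero => intro x; rfl
    | succ n ih =>
      intro x
      rw [Function.iterate_succ_apply, Function.iterate_succ_apply, ih, ext_restr hσ]
  rw [Function.minimalPeriod_eq_minimalPeriod_iff]
  intro n
  unfold Function.IsPeriodicPt Function.IsFixedPt
  rw [← h1]
  constructor
  · intro h; rw [h]
  · intro h; exact (ext_inj h).2

/-- The average over all vertices of a function of the cycle length. -/
noncomputable def av (N K : ℕ) (φ : ℕ → ℝ) (σ : Equiv.Perm (Word N K)) : ℝ :=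
  (∑ x : Word N K, φ (cl σ x)) / (N : ℝ) ^ K

theorem av_succ (φ : ℕ → ℝ) {σ : Equiv.Perm (Word N (K + 1))}
    (hσ : σ ∈ pres (lab N (K + 1) K)) :
    av N (K + 1) φ σ = (∑ a : Fin N, av N K φ (restr a σ)) / N := by
  unfold av
  rw [sum_ext, ← Finset.sum_div, div_div, pow_succ]
  congr 1
  refine Finset.sum_congr rfl fun a _ => Finset.sum_congr rfl fun x _ => ?_
  rw [cl_restr hσ]

theorem EL_congr {g : ℕ → ℝ} (hg : ∀ j, 0 ≤ g j) {t : ℝ} (ht : 0 ≤ t) (k : ℕ)
    {f h : Fn (Word N K)} (hfh : ∀ σ ∈ pres (lab N K k), f σ = h σ) :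
    EL N K g t k f = EL N K g t k h :=
  le_antisymm (EL_mono hg ht k fun σ hσ => (hfh σ hσ).le)
    (EL_mono hg ht k fun σ hσ => (hfh σ hσ).ge)

/-- The average before the last level. -/
theorem EL_av_succ (hN : 0 < N) {g : ℕ → ℝ} (hg : ∀ j, 0 ≤ g j) {t : ℝ} (ht : 0 ≤ t)
    (φ : ℕ → ℝ) : EL N (K + 1) g t K (av N (K + 1) φ) = EL N K g t K (av N K φ) := by
  have hNr : (0 : ℝ) < N := by exact_mod_cast hN
  have h1 : EL N (K + 1) g t K (av N (K + 1) φ) =
      EL N (K + 1) g t K (fun σ => (1 / (N : ℝ)) * ∑ a : Fin N, av N K φ (restr a σ)) :=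
    EL_congr hg ht K fun σ hσ => by rw [av_succ φ hσ]; ring
  rw [h1, EL_mul, EL_sum]
  simp only [EL_restr g t (le_refl K)]
  rw [Finset.sum_const, Finset.card_univ, Fintype.card_fin, nsmul_eq_mul]
  field_simp

end Pool.Agent.Stirring.Hier
end

section

/-! The law of the cycle of a vertex converges as the size of the system tends to infinity, and there
is no mass at intermediate scales. -/

open Finset Filter

set_option linter.unusedSectionVars false

namespace Pool.Agent.Stirring.Hier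

section General

variable {V : Type*} [Fintype V] [DecidableEq V] {ι : Type*} [DecidableEq ι]

/-- A cycle with length below `a` is touched at rate at most `3 a g / n`. -/
theorem gen_ind_ge {β : V → ι} {n : ℕ} (hn : ∀ x, (blk β x).card = n) {g : ℝ} (hg : 0 ≤ g)
    {a : ℝ} {F : ℕ → ℝ} (hF : ∀ l, F l = 0 ∨ (F l = 1 ∧ (l : ℝ) < a))
    {σ : Equiv.Perm V} (hσ : σ ∈ pres β) (x : V) :
    -(3 * a * g / n) * F (cl σ x) ≤ gen (brate β n g) (fun τ => F (cl τ x)) σ := by
  have hn0 := n_pos hn x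
  have hF0 : ∀ l, 0 ≤ F l := fun l => by
    rcases hF l with h | h
    · rw [h]
    · rw [h.1]; norm_num
  rw [gen_cl hσ]
  set l := cl σ x with hl
  have hl0 : (0 : ℝ) ≤ l := Nat.cast_nonneg _
  rcases hF l with h | ⟨h, hla⟩
  · rw [h, mul_zero]
    refine mul_nonneg (by positivity) (add_nonneg ?_ ?_)
    · refine mul_nonneg (by norm_num) (Finset.sum_nonneg fun j _ => ?_)
      rw [sub_zero]
      exact mul_nonneg (Nat.cast_nonneg _) (hF0 j)
    · refine mul_nonneg (by positivity) (Finset.sum_nonneg fun b _ => ?_)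
      rw [sub_zero]
      exact hF0 _
  · rw [h, mul_one]
    have h3 : -((l : ℝ) * (l - 1) / 2) ≤ ∑ j ∈ Finset.range l, (j : ℝ) * (F j - 1) := by
      rw [← sum_range_id, ← Finset.sum_neg_distrib]
      refine Finset.sum_le_sum fun j _ => ?_
      have := hF0 j
      have hj : (0 : ℝ) ≤ j := Nat.cast_nonneg _
      nlinarith
    have h4 : -(n : ℝ) ≤ ∑ b ∈ blk β x \ orb σ x, (F (l + cl σ b) - 1) := by
      have h5 : ∑ b ∈ blk β x \ orb σ x, (-1 : ℝ) ≤
          ∑ b ∈ blk β x \ orb σ x, (F (l + cl σ b) - 1) :=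
        Finset.sum_le_sum fun b _ => by linarith [hF0 (l + cl σ b)]
      refine le_trans ?_ h5
      rw [Finset.sum_const, nsmul_eq_mul, mul_neg, mul_one, neg_le_neg_iff, ← hn x]
      exact_mod_cast Finset.card_le_card Finset.sdiff_subset
    have h5 := mul_le_mul_of_nonneg_left h4 (by positivity : (0 : ℝ) ≤ 2 * l)
    have hln : (l : ℝ) ≤ n := by
      have : l ≤ n := by
        rw [hl, ← hn x]
        exact cl_le_card (pres_blk hσ x) (self_mem_blk _ x)
      exact_mod_cast this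
    have h6 : -(3 * a * n) ≤ 2 * ∑ j ∈ Finset.range l, (j : ℝ) * (F j - 1) +
        2 * (l : ℝ) * ∑ b ∈ blk β x \ orb σ x, (F (l + cl σ b) - 1) := by
      nlinarith
    have h7 : -(3 * a * g / n) = g / (n : ℝ) ^ 2 * (-(3 * a * n)) := by
      field_simp
    rw [h7]
    exact mul_le_mul_of_nonneg_left h6 (by positivity)

/-- Cycles shorter than `m` are created at rate at most `g m ^ 2 / n ^ 2`. -/
theorem gen_below_le {β : V → ι} {n : ℕ} {g : ℝ} (hg : 0 ≤ g)
    (m : ℕ) {σ : Equiv.Perm V} (hσ : σ ∈ pres β) (x : V) :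
    gen (brate β n g) (fun τ => below (m : ℝ) (cl τ x)) σ ≤ g * ((m : ℝ) ^ 2 / (n : ℝ) ^ 2) := by
  rw [gen_cl hσ]
  have e1 : g * ((m : ℝ) ^ 2 / (n : ℝ) ^ 2) = g / (n : ℝ) ^ 2 * (m : ℝ) ^ 2 := by ring
  rw [e1]
  refine mul_le_mul_of_nonneg_left ?_ (by positivity)
  set l := cl σ x with hl
  by_cases h : (l : ℝ) < m
  · have hb : below (m : ℝ) l = 1 := by unfold below; rw [if_pos h]
    rw [hb]
    have h1 : ∑ j ∈ Finset.range l, (j : ℝ) * (below (m : ℝ) j - 1) ≤ 0 :=
      Finset.sum_nonpos fun j _ =>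
        mul_nonpos_of_nonneg_of_nonpos (Nat.cast_nonneg _) (by linarith [below_le_one (m : ℝ) j])
    have h2 : ∑ b ∈ blk β x \ orb σ x, (below (m : ℝ) (l + cl σ b) - 1) ≤ 0 :=
      Finset.sum_nonpos fun b _ => by linarith [below_le_one (m : ℝ) (l + cl σ b)]
    have h3 : 2 * (l : ℝ) * ∑ b ∈ blk β x \ orb σ x, (below (m : ℝ) (l + cl σ b) - 1) ≤ 0 :=
      mul_nonpos_of_nonneg_of_nonpos (by positivity) h2
    nlinarith [sq_nonneg (m : ℝ)]
  · have hb : below (m : ℝ) l = 0 := by unfold below; rw [if_neg h]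
    rw [hb]
    push Not at h
    have h2 : ∑ b ∈ blk β x \ orb σ x, (below (m : ℝ) (l + cl σ b) - 0) = 0 := by
      refine Finset.sum_eq_zero fun b _ => ?_
      unfold below
      rw [if_neg, sub_zero]
      push_cast
      have : (0 : ℝ) ≤ cl σ b := Nat.cast_nonneg _
      linarith
    rw [h2, mul_zero, add_zero]
    have h1 : ∑ j ∈ Finset.range l, (j : ℝ) * (below (m : ℝ) j - 0) ≤
        ∑ j ∈ Finset.range m, (j : ℝ) := by
      have h3 : ∀ j ∈ Finset.range l, (j : ℝ) * (below (m : ℝ) j - 0) =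
          if j < m then (j : ℝ) else 0 := by
        intro j _
        unfold below
        by_cases hj : j < m
        · rw [if_pos (by exact_mod_cast hj), if_pos hj]; ring
        · rw [if_neg (by exact_mod_cast hj), if_neg hj]; ring
      rw [Finset.sum_congr rfl h3, ← Finset.sum_filter]
      refine Finset.sum_le_sum_of_subset_of_nonneg ?_ (fun j _ _ => Nat.cast_nonneg _)
      intro j hj
      rw [Finset.mem_filter] at hj
      exact Finset.mem_range.mpr hj.2
    rw [sum_range_id] at h1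
    have : (0 : ℝ) ≤ m := Nat.cast_nonneg _
    nlinarith

end General

variable {N K : ℕ}

/-- Averages over a block of the whole system. -/
theorem av_eq (φ : ℕ → ℝ) (σ : Equiv.Perm (Word N K)) :
    av N K φ σ = (∑ x ∈ (Finset.univ : Finset (Word N K)), φ (cl σ x)) / (N : ℝ) ^ K := rfl

theorem gen_av (c : Word N K × Word N K → ℝ) (φ : ℕ → ℝ) (σ : Equiv.Perm (Word N K)) :
    gen c (av N K φ) σ = (∑ x, gen c (fun τ => φ (cl τ x)) σ) / (N : ℝ) ^ K := by
  have h : av N K φ = fun τ => (∑ x ∈ (Finset.univ : Finset (Word N K)), (fun τ => φ (cl τ x)) τ) /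
      (N : ℝ) ^ K := rfl
  rw [h, gen_div, gen_sum']

theorem av_mono {φ ψ : ℕ → ℝ} (h : ∀ l, φ l ≤ ψ l) (σ : Equiv.Perm (Word N K)) :
    av N K φ σ ≤ av N K ψ σ := by
  unfold av
  exact div_le_div_of_nonneg_right (Finset.sum_le_sum fun x _ => h _) (by positivity)

theorem av_const (hN : 0 < N) (r : ℝ) (σ : Equiv.Perm (Word N K)) :
    av N K (fun _ => r) σ = r := by
  have hNr : (0 : ℝ) < N := by exact_mod_cast hN
  unfold av
  rw [Finset.sum_const, Finset.card_univ, nsmul_eq_mul, card_word]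
  field_simp

theorem av_add (φ ψ : ℕ → ℝ) (σ : Equiv.Perm (Word N K)) :
    av N K (fun l => φ l + ψ l) σ = av N K φ σ + av N K ψ σ := by
  unfold av
  rw [Finset.sum_add_distrib, add_div]

theorem av_mul (r : ℝ) (φ : ℕ → ℝ) (σ : Equiv.Perm (Word N K)) :
    av N K (fun l => r * φ l) σ = r * av N K φ σ := by
  unfold av
  rw [← Finset.mul_sum, mul_div_assoc]

/-- The rates of the last level. -/
noncomputable def top (N K : ℕ) (g : ℕ → ℝ) : Word N K × Word N K → ℝ :=
  brate (lab N K K) (N ^ K) (g K)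

theorem card_top (x : Word N K) : (blk (lab N K K) x).card = N ^ K := card_blk le_rfl x

theorem pres_top (σ : Equiv.Perm (Word N K)) : σ ∈ pres (lab N K K) := by
  intro y
  rw [lab_eq_iff]
  intro i hi
  exact absurd i.2 (by omega)

theorem top_nonneg {g : ℕ → ℝ} (hg : ∀ j, 0 ≤ g j) (p : Word N K × Word N K) :
    0 ≤ top N K g p := brate_nonneg (hg K) p

/-- The expectation in the system of size `K + 1`, as an expectation before the last level. -/
theorem EL_top (g : ℕ → ℝ) (t : ℝ) (f : Fn (Word N (K + 1))) :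
    EL N (K + 1) g t (K + 1) f = EL N (K + 1) g t K (sg (top N (K + 1) g) t f) :=
  EL_succ g t K f

/-- The rate at which a vertex is involved in rings of the level `j`. -/
noncomputable def gam (N : ℕ) (g : ℕ → ℝ) (j : ℕ) : ℝ := g j / (N : ℝ) ^ j

theorem sg_av_ge (hN : 0 < N) {g : ℕ → ℝ} (hg : ∀ j, 0 ≤ g j) {t a : ℝ} (ht : 0 ≤ t)
    {F : ℕ → ℝ} (hF : ∀ l, F l = 0 ∨ (F l = 1 ∧ (l : ℝ) < a)) (σ : Equiv.Perm (Word N K)) :
    Real.exp (-(3 * a * t * gam N g K)) * av N K F σ ≤ sg (top N K g) t (av N K F) σ := by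
  have hNr : (0 : ℝ) < N := by exact_mod_cast hN
  have hgen : ∀ τ : Equiv.Perm (Word N K), -(3 * a * gam N g K) * av N K F τ ≤
      gen (top N K g) (av N K F) τ := by
    intro τ
    rw [gen_av]
    unfold av
    rw [mul_div_assoc']
    refine div_le_div_of_nonneg_right ?_ (by positivity)
    rw [Finset.mul_sum]
    refine Finset.sum_le_sum fun x _ => ?_
    refine le_trans (le_of_eq ?_) (gen_ind_ge card_top (hg K) hF (pres_top τ) x)
    unfold gam
    push_cast
    ring
  have h1 := move_lin (top_nonneg hg) (stab_univ (top N K g)) (T := t) (κ := 0)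
    (F := fun s τ => -(Real.exp (3 * a * gam N g K * s) * av N K F τ))
    (F' := fun s τ => -(Real.exp (3 * a * gam N g K * s) * (3 * a * gam N g K * 1) *
      av N K F τ)) ht (by
      intro s _ τ
      have h2 : HasDerivAt (fun u => Real.exp (3 * a * gam N g K * u))
        (Real.exp (3 * a * gam N g K * s) * (3 * a * gam N g K * 1)) s :=
        ((hasDerivAt_id s).const_mul (3 * a * gam N g K)).exp
      exact (h2.mul_const _).neg) (by
      intro s _ τ _
      have h3 : gen (top N K g) (fun τ => -(Real.exp (3 * a * gam N g K * s) * av N K F τ)) τ =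
          -(Real.exp (3 * a * gam N g K * s)) * gen (top N K g) (av N K F) τ := by
        rw [gen_apply, gen_apply, Finset.mul_sum]
        refine Finset.sum_congr rfl fun p _ => ?_
        ring
      rw [h3]
      have h4 := mul_le_mul_of_nonneg_left (hgen τ) (Real.exp_pos (3 * a * gam N g K * s)).le
      linarith) (Set.mem_univ σ)
  have h2 : sg (top N K g) t (fun τ => -(Real.exp (3 * a * gam N g K * t) * av N K F τ)) σ =
      -(Real.exp (3 * a * gam N g K * t)) * sg (top N K g) t (av N K F) σ := by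
    have h3 : (fun τ => -(Real.exp (3 * a * gam N g K * t) * av N K F τ)) =
        (-(Real.exp (3 * a * gam N g K * t))) • (av N K F) := by
      funext τ
      rw [Pi.smul_apply, smul_eq_mul]
      ring
    rw [h3, sg_smul]
  rw [h2] at h1
  simp only [mul_zero, Real.exp_zero, one_mul, zero_mul, add_zero] at h1
  have h3 : Real.exp (-(3 * a * t * gam N g K)) * Real.exp (3 * a * gam N g K * t) = 1 := by
    rw [← Real.exp_add, Real.exp_eq_one_iff]; ring
  have h4 := mul_le_mul_of_nonneg_left h1 (Real.exp_pos (-(3 * a * t * gam N g K))).le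
  have h5 : Real.exp (-(3 * a * t * gam N g K)) * (-(Real.exp (3 * a * gam N g K * t)) *
      sg (top N K g) t (av N K F) σ) = -sg (top N K g) t (av N K F) σ := by
    rw [← mul_assoc, mul_neg, h3]; ring
  rw [h5] at h4
  linarith

theorem sg_below_le (hN : 0 < N) {g : ℕ → ℝ} (hg : ∀ j, 0 ≤ g j) {t : ℝ} (ht : 0 ≤ t)
    (m : ℕ) (σ : Equiv.Perm (Word N K)) :
    sg (top N K g) t (av N K (below (m : ℝ))) σ ≤ av N K (below (m : ℝ)) σ +
      (m : ℝ) ^ 2 * t * gam N g K := by
  have hNr : (1 : ℝ) ≤ N := by exact_mod_cast hN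
  have hgen : ∀ τ ∈ (Set.univ : Set (Equiv.Perm (Word N K))),
      gen (top N K g) (av N K (below (m : ℝ))) τ ≤ (m : ℝ) ^ 2 * gam N g K := by
    intro τ _
    rw [gen_av, div_le_iff₀ (by positivity)]
    calc ∑ x, gen (top N K g) (fun τ => below (m : ℝ) (cl τ x)) τ ≤
          ∑ _x : Word N K, (m : ℝ) ^ 2 * gam N g K := by
          refine Finset.sum_le_sum fun x _ => ?_
          refine (gen_below_le (hg K) m (pres_top τ) x).trans ?_
          unfold gam
          have h1 : g K * ((m : ℝ) ^ 2 / ((N ^ K : ℕ) : ℝ) ^ 2) =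
              (m : ℝ) ^ 2 * (g K / (N : ℝ) ^ K) * (1 / (N : ℝ) ^ K) := by
            push_cast; field_simp
          rw [h1]
          have h2 : 1 / (N : ℝ) ^ K ≤ 1 := by
            rw [div_le_one (by positivity)]
            exact one_le_pow₀ hNr
          have h3 : 0 ≤ (m : ℝ) ^ 2 * (g K / (N : ℝ) ^ K) := by
            have := hg K
            positivity
          nlinarith
      _ = (m : ℝ) ^ 2 * gam N g K * (N : ℝ) ^ K := by
          rw [Finset.sum_const, Finset.card_univ, nsmul_eq_mul, card_word]; ring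
  have h1 := sg_lin_upper (top_nonneg hg) (stab_univ (top N K g)) hgen ht (Set.mem_univ σ)
  refine h1.trans (le_of_eq ?_)
  ring

/-- The fraction of vertices in cycles of length less than `a`. -/
noncomputable def uu (N : ℕ) (g : ℕ → ℝ) (t : ℝ) (K : ℕ) (a : ℝ) : ℝ :=
  EL N K g t K (av N K (below a))

section Limit

variable {g : ℕ → ℝ} {t : ℝ}

theorem uu_nonneg (hg : ∀ j, 0 ≤ g j) (ht : 0 ≤ t) (K : ℕ) (a : ℝ) : 0 ≤ uu N g t K a := by
  have h := EL_mono (N := N) (K := K) hg ht K (f := fun _ => 0) (h := av N K (below a))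
    (fun σ _ => by
      unfold av
      exact div_nonneg (Finset.sum_nonneg fun x _ => below_nonneg _ _) (by positivity))
  rwa [EL_const] at h

theorem uu_mono (hg : ∀ j, 0 ≤ g j) (ht : 0 ≤ t) (K : ℕ) {a b : ℝ} (hab : a ≤ b) :
    uu N g t K a ≤ uu N g t K b := by
  refine EL_mono hg ht K fun σ _ => av_mono (fun l => ?_) σ
  unfold below
  split_ifs with h1 h2
  · exact le_rfl
  · exact absurd (lt_of_lt_of_le h1 hab) h2
  · norm_num
  · exact le_rfl

theorem uu_le_one (hN : 0 < N) (hg : ∀ j, 0 ≤ g j) (ht : 0 ≤ t) (K : ℕ) (a : ℝ) :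
    uu N g t K a ≤ 1 := by
  have h := EL_mono (N := N) (K := K) hg ht K (f := av N K (below a)) (h := fun _ => 1)
    (fun σ _ => by
      rw [← av_const (K := K) hN 1 σ]
      exact av_mono (fun l => below_le_one a l) σ)
  rwa [EL_const] at h

theorem uu_ceil (K : ℕ) (a : ℝ) : uu N g t K a = uu N g t K (⌈a⌉₊ : ℝ) := by
  have h : below a = below (⌈a⌉₊ : ℝ) := by
    funext l
    unfold below
    by_cases h1 : (l : ℝ) < a
    · rw [if_pos h1, if_pos (by exact_mod_cast Nat.lt_ceil.mpr h1)]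
    · rw [if_neg h1, if_neg]
      intro h2
      exact h1 (Nat.lt_ceil.mp (by exact_mod_cast h2))
  unfold uu
  rw [h]

/-- Windows can only lose a bounded fraction of their mass. -/
theorem uu_window (hN : 0 < N) (hg : ∀ j, 0 ≤ g j) (ht : 0 ≤ t) (K : ℕ) {a b : ℝ}
    (hba : b ≤ a) : Real.exp (-(3 * a * t * gam N g (K + 1))) * (uu N g t K a - uu N g t K b) ≤
      uu N g t (K + 1) a - uu N g t (K + 1) b := by
  have e1 : ∀ K, uu N g t K a - uu N g t K b =
      EL N K g t K (av N K (fun l => below a l - below b l)) := by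
    intro K
    have h1 : av N K (fun l => below a l - below b l) =
        fun σ => av N K (below a) σ + (-1) * av N K (below b) σ := by
      funext σ
      unfold av
      rw [Finset.sum_sub_distrib]
      ring
    rw [h1, EL_add, EL_mul]
    unfold uu
    ring
  rw [e1, e1, ← EL_av_succ hN hg ht, EL_top, ← EL_mul]
  refine EL_mono hg ht K fun σ _ => ?_
  refine sg_av_ge hN hg ht (fun l => ?_) σ
  unfold below
  by_cases h1 : (l : ℝ) < b
  · rw [if_pos h1, if_pos (lt_of_lt_of_le h1 hba)]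
    left; ring
  · rw [if_neg h1]
    by_cases h2 : (l : ℝ) < a
    · rw [if_pos h2]
      right
      exact ⟨by ring, h2⟩
    · rw [if_neg h2]
      left; ring

theorem uu_step (hN : 0 < N) (hg : ∀ j, 0 ≤ g j) (ht : 0 ≤ t) (K m : ℕ) :
    |uu N g t (K + 1) m - uu N g t K m| ≤ 3 * (m : ℝ) ^ 2 * t * gam N g (K + 1) := by
  have hγ : 0 ≤ gam N g (K + 1) := by
    have := hg (K + 1)
    unfold gam
    positivity
  have hm : (m : ℝ) ≤ (m : ℝ) ^ 2 := by
    have : m ≤ m ^ 2 := by nlinarith [Nat.zero_le m, Nat.lt_or_ge m 1]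
    exact_mod_cast this
  have hm0 : (0 : ℝ) ≤ m := Nat.cast_nonneg _
  have htγ : 0 ≤ t * gam N g (K + 1) := mul_nonneg ht hγ
  have h1 : uu N g t (K + 1) m ≤ uu N g t K m + (m : ℝ) ^ 2 * t * gam N g (K + 1) := by
    unfold uu
    have h2 := EL_mono (N := N) (K := K + 1) hg ht K
      (f := sg (top N (K + 1) g) t (av N (K + 1) (below (m : ℝ))))
      (h := fun σ => av N (K + 1) (below (m : ℝ)) σ + (m : ℝ) ^ 2 * t * gam N g (K + 1))
      (fun σ _ => sg_below_le hN hg ht m σ)
    rw [EL_add, EL_const, ← EL_top, EL_av_succ hN hg ht (below (m : ℝ))] at h2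
    exact h2
  have h2 := uu_window (N := N) hN hg ht K (a := (m : ℝ)) (b := 0) hm0
  have h3 : ∀ K, uu N g t K 0 = 0 := by
    intro K
    have h4 : below 0 = fun _ => (0 : ℝ) := by
      funext l
      unfold below
      rw [if_neg]
      push Not
      exact Nat.cast_nonneg _
    unfold uu
    rw [h4]
    have h5 : av N K (fun _ => (0 : ℝ)) = fun _ => 0 := by
      funext σ
      unfold av
      simp
    rw [h5, EL_const]
  rw [h3, h3, sub_zero, sub_zero] at h2
  have h4 := Real.add_one_le_exp (-(3 * (m : ℝ) * t * gam N g (K + 1)))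
  have h5 := uu_le_one (N := N) (g := g) (t := t) hN hg ht K m
  have h6 := uu_nonneg (N := N) (g := g) (t := t) hg ht K m
  have h7 : (1 - 3 * (m : ℝ) * t * gam N g (K + 1)) * uu N g t K m ≤ uu N g t (K + 1) m :=
    le_trans (mul_le_mul_of_nonneg_right (by linarith) h6) h2
  have h8 : 0 ≤ (m : ℝ) * (t * gam N g (K + 1)) := mul_nonneg hm0 htγ
  have h9 : (m : ℝ) * (t * gam N g (K + 1)) ≤ (m : ℝ) ^ 2 * (t * gam N g (K + 1)) :=
    mul_le_mul_of_nonneg_right hm htγ
  rw [abs_le]
  constructor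
  · nlinarith
  · nlinarith

end Limit

end Pool.Agent.Stirring.Hier
end

section

section

end

section

/-! A5c: the mean over the permutations of `Z`. -/

open Finset

namespace Pool.Agent.Stirring.HP

variable {V : Type} [Fintype V] [DecidableEq V]

/-- The theorem for `|Z| ≤ 1`: both means are `F 1` by `Inv_const` (`μ ∈ matchings X` is supported in
`X`; `matchings X` is not empty by `card_matchings`). -/
theorem core_small {X Z : Finset V} {M : ℕ} (hX : X.card = 2 * M) (hZ : Z.card ≤ 1)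
    {F : Equiv.Perm V → ℝ} (hI : Inv X Z F) {ρ : Equiv.Perm V} (hS : SuppIn (X ∪ Z) ρ) :
    AM F ρ X = UZ Z F := by
  have h1 : ∑ μ ∈ matchings X, F (ρ * μ) = ((matchings X).card : ℝ) * F 1 := by
    rw [Finset.sum_congr rfl fun μ hμ => Inv_const hZ hI (suppIn_mul hS
      (suppIn_mono Finset.subset_union_left (matchings_suppIn hμ))), Finset.sum_const,
      nsmul_eq_mul]
  have h2 : ∑ π ∈ univ.filter (SuppIn Z), F π = (Z.card.factorial : ℝ) * F 1 := by
    rw [Finset.sum_congr rfl fun π hπ => Inv_const hZ hI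
      (suppIn_mono Finset.subset_union_right (Finset.mem_filter.1 hπ).2), Finset.sum_const,
      nsmul_eq_mul, card_suppIn]
  have h3 : ((matchings X).card : ℝ) ≠ 0 := by
    rw [card_matchings hX]
    exact_mod_cast (mm_pos M).ne'
  have h4 : (Z.card.factorial : ℝ) ≠ 0 := by exact_mod_cast (Nat.factorial_pos _).ne'
  rw [AM, UZ, h1, h2, mul_div_cancel_left₀ _ h3, mul_div_cancel_left₀ _ h4]

end Pool.Agent.Stirring.HP
end

section

end

section

end

section

end
end
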