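import Pool.Agent.Lib.MP_6c3d62_pr.Mg.G079
import Pool.Agent.Lib.MP_6c3d62_pr.Mg.G081

section

/-! The limit of the law of the cycle of a vertex, and the absence of mass at intermediate scales. -/

open Finset Filter Topology

set_option linter.unusedSectionVars false

namespace Pool.Agent.Stirring.Hier

variable {N K : ℕ}

/-- The ratio of the geometric series. -/
noncomputable def qq (N : ℕ) (ρ : ℝ) : ℝ := max ρ 1 / N

section

variable {g : ℕ → ℝ} {t ρ : ℝ}

theorem qq_pos (hN : 0 < N) : 0 < qq N ρ := by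
  have hNr : (0 : ℝ) < N := by exact_mod_cast hN
  have : (0 : ℝ) < max ρ 1 := lt_of_lt_of_le one_pos (le_max_right _ _)
  unfold qq
  positivity

theorem qq_lt_one (hN : 2 ≤ N) (hρN : ρ < N) : qq N ρ < 1 := by
  have hNr : (2 : ℝ) ≤ N := by exact_mod_cast hN
  have hm : max ρ 1 < N := max_lt hρN (by linarith)
  unfold qq
  rw [div_lt_one (by linarith)]
  exact hm

theorem gam_pos (hN : 0 < N) (hg : ∀ j, 0 < g j) (j : ℕ) : 0 < gam N g j := by
  have hNr : (0 : ℝ) < N := by exact_mod_cast hN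
  have := hg j
  unfold gam
  positivity

theorem gam_succ_le (hN : 0 < N) (hg : ∀ j, 0 < g j) (hρ : ∀ j, g (j + 1) ≤ ρ * g j) (j : ℕ) :
    gam N g (j + 1) ≤ qq N ρ * gam N g j := by
  have hNr : (0 : ℝ) < N := by exact_mod_cast hN
  unfold gam qq
  have h1 : g (j + 1) ≤ max ρ 1 * g j :=
    (hρ j).trans (mul_le_mul_of_nonneg_right (le_max_left _ _) (hg j).le)
  have h2 : max ρ 1 / N * (g j / (N : ℝ) ^ j) = max ρ 1 * g j / (N : ℝ) ^ (j + 1) := by
    rw [pow_succ]; field_simp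
  rw [h2]
  exact div_le_div_of_nonneg_right h1 (by positivity)

theorem gam_add_le (hN : 0 < N) (hg : ∀ j, 0 < g j) (hρ : ∀ j, g (j + 1) ≤ ρ * g j) (K i : ℕ) :
    gam N g (K + i) ≤ qq N ρ ^ i * gam N g K := by
  induction i with
  | zero => simp
  | succ i ih =>
    have h1 := gam_succ_le hN hg hρ (K + i)
    have h2 := mul_le_mul_of_nonneg_left ih (qq_pos (ρ := ρ) hN).le
    rw [pow_succ']
    have e : K + (i + 1) = K + i + 1 := rfl
    rw [e]
    linarith

theorem gam_le (hN : 0 < N) (hg : ∀ j, 0 < g j) (hρ : ∀ j, g (j + 1) ≤ ρ * g j) (i : ℕ) :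
    gam N g i ≤ qq N ρ ^ i * g 0 := by
  have h := gam_add_le hN hg hρ 0 i
  rw [Nat.zero_add] at h
  have h2 : gam N g 0 = g 0 := by unfold gam; simp
  rwa [h2] at h

theorem gam_tendsto (hN : 2 ≤ N) (hg : ∀ j, 0 < g j) (hρN : ρ < N)
    (hρ : ∀ j, g (j + 1) ≤ ρ * g j) : Tendsto (gam N g) atTop (𝓝 0) := by
  have h1 := (tendsto_pow_atTop_nhds_zero_of_lt_one (qq_pos (N := N) (ρ := ρ) (by omega)).le
    (qq_lt_one hN hρN)).mul_const (g 0)
  rw [zero_mul] at h1
  exact squeeze_zero (fun j => (gam_pos (by omega) hg j).le) (fun j => gam_le (by omega) hg hρ j) h1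

theorem uu_diff (hN : 2 ≤ N) (hg : ∀ j, 0 < g j) (hρN : ρ < N) (hρ : ∀ j, g (j + 1) ≤ ρ * g j)
    (ht : 0 ≤ t) (K m j : ℕ) :
    |uu N g t (K + j) m - uu N g t K m| ≤ 3 * (m : ℝ) ^ 2 * t * (gam N g K / (1 - qq N ρ)) := by
  have hN0 : 0 < N := by omega
  have hq0 := qq_pos (ρ := ρ) hN0
  have hq1 := qq_lt_one (ρ := ρ) hN hρN
  have hγ := gam_pos hN0 hg K
  have h1 : |uu N g t (K + j) m - uu N g t K m| ≤
      3 * (m : ℝ) ^ 2 * t * ((∑ i ∈ Finset.range j, qq N ρ ^ i) * gam N g K) := by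
    induction j with
    | zero => simp
    | succ j ih =>
      have h2 := uu_step (N := N) (t := t) hN0 (fun j => (hg j).le) ht (K + j) m
      have h3 : gam N g (K + j + 1) ≤ qq N ρ ^ j * gam N g K := by
        refine (gam_add_le hN0 hg hρ K (j + 1)).trans ?_
        rw [pow_succ]
        have : 0 ≤ qq N ρ ^ j * gam N g K := by positivity
        nlinarith
      have h4 : 3 * (m : ℝ) ^ 2 * t * gam N g (K + j + 1) ≤
          3 * (m : ℝ) ^ 2 * t * (qq N ρ ^ j * gam N g K) :=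
        mul_le_mul_of_nonneg_left h3 (by positivity)
      rw [Finset.sum_range_succ]
      have h5 : uu N g t (K + (j + 1)) m - uu N g t K m =
          (uu N g t (K + j + 1) m - uu N g t (K + j) m) +
          (uu N g t (K + j) m - uu N g t K m) := by
        have : K + (j + 1) = K + j + 1 := rfl
        rw [this]; ring
      rw [h5]
      refine (abs_add_le _ _).trans ?_
      nlinarith
  refine h1.trans ?_
  refine mul_le_mul_of_nonneg_left ?_ (by positivity)
  have h3 := (summable_geometric_of_lt_one hq0.le hq1).sum_le_tsum (Finset.range j)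
    (fun i _ => pow_nonneg hq0.le i)
  rw [tsum_geometric_of_lt_one hq0.le hq1] at h3
  rw [div_eq_inv_mul]
  exact mul_le_mul_of_nonneg_right h3 hγ.le

theorem uu_cauchy (hN : 2 ≤ N) (hg : ∀ j, 0 < g j) (hρN : ρ < N)
    (hρ : ∀ j, g (j + 1) ≤ ρ * g j) (ht : 0 ≤ t) (m : ℕ) :
    CauchySeq fun K => uu N g t K m := by
  have hN0 : 0 < N := by omega
  have hq0 := qq_pos (ρ := ρ) hN0
  have hq1 := qq_lt_one (ρ := ρ) hN hρN
  have hg0 := hg 0
  refine cauchySeq_of_le_geometric (qq N ρ) (3 * (m : ℝ) ^ 2 * t * g 0) hq1 fun K => ?_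
  rw [Real.dist_eq, abs_sub_comm]
  refine (uu_step hN0 (fun j => (hg j).le) ht K m).trans ?_
  have h1 := gam_le hN0 hg hρ (K + 1)
  have h2 : qq N ρ ^ (K + 1) * g 0 ≤ qq N ρ ^ K * g 0 := by
    refine mul_le_mul_of_nonneg_right ?_ hg0.le
    rw [pow_succ]
    have : 0 ≤ qq N ρ ^ K := by positivity
    nlinarith
  have h3 := mul_le_mul_of_nonneg_left (h1.trans h2) (by positivity : 0 ≤ 3 * (m : ℝ) ^ 2 * t)
  refine h3.trans (le_of_eq ?_)
  ring

/-- The limit of the fraction of vertices in cycles of length less than `m`. -/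
noncomputable def ul (N : ℕ) (g : ℕ → ℝ) (t : ℝ) (m : ℕ) : ℝ :=
  limUnder atTop fun K => uu N g t K m

/-- The limit of the fraction of vertices in finite cycles. -/
noncomputable def finf (N : ℕ) (g : ℕ → ℝ) (t : ℝ) : ℝ := ⨆ m : ℕ, ul N g t m

section Hyp

variable (hN : 2 ≤ N) (hg : ∀ j, 0 < g j) (hρN : ρ < N) (hρ : ∀ j, g (j + 1) ≤ ρ * g j)
  (ht : 0 ≤ t)

include hN hg hρN hρ ht

theorem ul_tendsto (m : ℕ) : Tendsto (fun K => uu N g t K m) atTop (𝓝 (ul N g t m)) :=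
  (uu_cauchy hN hg hρN hρ ht m).tendsto_limUnder

theorem ul_dist (m K : ℕ) :
    |ul N g t m - uu N g t K m| ≤ 3 * (m : ℝ) ^ 2 * t * (gam N g K / (1 - qq N ρ)) := by
  have h1 := ul_tendsto hN hg hρN hρ ht m
  have h2 : Tendsto (fun j => uu N g t (K + j) m) atTop (𝓝 (ul N g t m)) := by
    have := h1.comp (tendsto_add_atTop_nat K)
    refine this.congr fun j => ?_
    simp only [Function.comp_apply, Nat.add_comm]
  have h3 := (h2.sub_const (uu N g t K m)).abs
  exact le_of_tendsto' h3 fun j => uu_diff hN hg hρN hρ ht K m j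

theorem ul_mono {m m' : ℕ} (h : m ≤ m') : ul N g t m ≤ ul N g t m' :=
  le_of_tendsto_of_tendsto' (ul_tendsto hN hg hρN hρ ht m) (ul_tendsto hN hg hρN hρ ht m')
    fun K => uu_mono (fun j => (hg j).le) ht K (by exact_mod_cast h)

theorem ul_le_one (m : ℕ) : ul N g t m ≤ 1 :=
  le_of_tendsto' (ul_tendsto hN hg hρN hρ ht m)
    fun K => uu_le_one (by omega) (fun j => (hg j).le) ht K m

theorem ul_nonneg (m : ℕ) : 0 ≤ ul N g t m :=
  ge_of_tendsto' (ul_tendsto hN hg hρN hρ ht m)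
    fun K => uu_nonneg (fun j => (hg j).le) ht K m

theorem ul_bdd : BddAbove (Set.range fun m : ℕ => ul N g t m) := by
  refine ⟨1, ?_⟩
  rintro _ ⟨m, rfl⟩
  exact ul_le_one hN hg hρN hρ ht m

theorem ul_le_finf (m : ℕ) : ul N g t m ≤ finf N g t := le_ciSup (ul_bdd hN hg hρN hρ ht) m

theorem finf_le_one : finf N g t ≤ 1 := ciSup_le fun m => ul_le_one hN hg hρN hρ ht m

theorem finf_nonneg : 0 ≤ finf N g t :=
  (ul_nonneg hN hg hρN hρ ht 0).trans (ul_le_finf hN hg hρN hρ ht 0)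

theorem ul_tendsto_finf : Tendsto (fun m => ul N g t m) atTop (𝓝 (finf N g t)) :=
  tendsto_atTop_ciSup (fun _ _ h => ul_mono hN hg hρN hρ ht h) (ul_bdd hN hg hρN hρ ht)

/-- The mass of a window after `j` further levels. -/
theorem uu_window_many (K j : ℕ) {a b : ℝ} (ha : 0 ≤ a) (hba : b ≤ a) :
    Real.exp (-(3 * a * t * (gam N g K / (1 - qq N ρ)))) * (uu N g t K a - uu N g t K b) ≤
      uu N g t (K + j) a - uu N g t (K + j) b := by
  have hN0 : 0 < N := by omega
  have hq0 := qq_pos (ρ := ρ) hN0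
  have hq1 := qq_lt_one (ρ := ρ) hN hρN
  have hγ := gam_pos hN0 hg K
  have hw0 : 0 ≤ uu N g t K a - uu N g t K b := by
    have := uu_mono (N := N) (fun j => (hg j).le) ht K hba
    linarith
  have h1 : Real.exp (-(3 * a * t * ((∑ i ∈ Finset.range j, qq N ρ ^ i) * gam N g K))) *
      (uu N g t K a - uu N g t K b) ≤ uu N g t (K + j) a - uu N g t (K + j) b := by
    induction j with
    | zero => simp
    | succ j ih =>
      have h2 := uu_window (N := N) hN0 (fun j => (hg j).le) ht (K + j) hba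
      refine le_trans ?_ h2
      have h3 : gam N g (K + j + 1) ≤ qq N ρ ^ j * gam N g K := by
        refine (gam_add_le hN0 hg hρ K (j + 1)).trans ?_
        rw [pow_succ]
        have : 0 ≤ qq N ρ ^ j * gam N g K := by positivity
        nlinarith
      have h4 := mul_le_mul_of_nonneg_left h3 (by positivity : 0 ≤ 3 * a * t)
      have h5 : Real.exp (-(3 * a * t *
          ((∑ i ∈ Finset.range (j + 1), qq N ρ ^ i) * gam N g K))) ≤
          Real.exp (-(3 * a * t * gam N g (K + j + 1))) *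
          Real.exp (-(3 * a * t * ((∑ i ∈ Finset.range j, qq N ρ ^ i) * gam N g K))) := by
        rw [← Real.exp_add, Real.exp_le_exp, Finset.sum_range_succ]
        nlinarith
      calc _ ≤ Real.exp (-(3 * a * t * gam N g (K + j + 1))) *
          Real.exp (-(3 * a * t * ((∑ i ∈ Finset.range j, qq N ρ ^ i) * gam N g K))) *
          (uu N g t K a - uu N g t K b) := mul_le_mul_of_nonneg_right h5 hw0
        _ = Real.exp (-(3 * a * t * gam N g (K + j + 1))) *
          (Real.exp (-(3 * a * t * ((∑ i ∈ Finset.range j, qq N ρ ^ i) * gam N g K))) *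
          (uu N g t K a - uu N g t K b)) := by ring
        _ ≤ _ := mul_le_mul_of_nonneg_left ih (Real.exp_pos _).le
  refine le_trans ?_ h1
  refine mul_le_mul_of_nonneg_right ?_ hw0
  rw [Real.exp_le_exp, neg_le_neg_iff]
  refine mul_le_mul_of_nonneg_left ?_ (by positivity)
  have h3 := (summable_geometric_of_lt_one hq0.le hq1).sum_le_tsum (Finset.range j)
    (fun i _ => pow_nonneg hq0.le i)
  rw [tsum_geometric_of_lt_one hq0.le hq1] at h3
  rw [div_eq_inv_mul]
  exact mul_le_mul_of_nonneg_right h3 hγ.le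

/-- The mass of a window at level `K` is controlled by the limit. -/
theorem uu_window_le (K m : ℕ) {a : ℝ} (ha : 0 ≤ a) (hma : (m : ℝ) ≤ a) :
    uu N g t K a - uu N g t K m ≤
      Real.exp (3 * a * t * (gam N g K / (1 - qq N ρ))) * (finf N g t - ul N g t m) := by
  have h1 : Tendsto (fun j => uu N g t (K + j) a - uu N g t (K + j) m) atTop
      (𝓝 (ul N g t ⌈a⌉₊ - ul N g t m)) := by
    have h2 : ∀ m : ℕ, Tendsto (fun j => uu N g t (K + j) m) atTop (𝓝 (ul N g t m)) := by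
      intro m
      have := (ul_tendsto hN hg hρN hρ ht m).comp (tendsto_add_atTop_nat K)
      refine this.congr fun j => ?_
      simp only [Function.comp_apply, Nat.add_comm]
    refine ((h2 ⌈a⌉₊).sub (h2 m)).congr fun j => ?_
    rw [← uu_ceil]
  have h2 := ge_of_tendsto' h1 fun j => uu_window_many hN hg hρN hρ ht K j ha hma
  have h3 := ul_le_finf hN hg hρN hρ ht ⌈a⌉₊
  have h4 := mul_le_mul_of_nonneg_left h2
    (Real.exp_pos (3 * a * t * (gam N g K / (1 - qq N ρ)))).le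
  rw [← mul_assoc, ← Real.exp_add, add_neg_cancel, Real.exp_zero, one_mul] at h4
  refine h4.trans ?_
  exact mul_le_mul_of_nonneg_left (by linarith) (Real.exp_pos _).le

/-- There is no mass between the finite cycles and the cycles which are touched at level `K`. -/
theorem uu_meso (ht' : 0 < t) {A : ℝ} (hA : 0 < A) :
    Tendsto (fun K => uu N g t K (A / (t * gam N g K))) atTop (𝓝 (finf N g t)) := by
  have hN0 : 0 < N := by omega
  have hq0 := qq_pos (ρ := ρ) hN0
  have hq1 := qq_lt_one (ρ := ρ) hN hρN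
  have hinf : Tendsto (fun K => A / (t * gam N g K)) atTop atTop := by
    have h1 := (gam_tendsto hN hg hρN hρ).const_mul t
    rw [mul_zero] at h1
    have h2 : Tendsto (fun K => t * gam N g K) atTop (𝓝[>] 0) := by
      rw [tendsto_nhdsWithin_iff]
      exact ⟨h1, Eventually.of_forall fun j => mul_pos ht' (gam_pos hN0 hg j)⟩
    have h3 := h2.inv_tendsto_nhdsGT_zero
    refine (h3.const_mul_atTop hA).congr fun j => ?_
    rw [Pi.inv_apply, div_eq_mul_inv]
  rw [Metric.tendsto_atTop]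
  intro ε hε
  set E : ℝ := Real.exp (3 * A / (1 - qq N ρ)) with hE
  have hE0 : 0 < E := Real.exp_pos _
  obtain ⟨m, hm⟩ := (Metric.tendsto_atTop.mp (ul_tendsto_finf hN hg hρN hρ ht)
    (min (ε / 4) (ε / (4 * E))) (by positivity))
  have hm1 := hm m le_rfl
  rw [Real.dist_eq] at hm1
  have hm2 := (abs_lt.mp hm1).1
  have hm3 : finf N g t - ul N g t m < ε / (4 * E) := by
    have := min_le_right (ε / 4) (ε / (4 * E))
    linarith
  have hm4 : finf N g t - ul N g t m < ε / 4 := by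
    have := min_le_left (ε / 4) (ε / (4 * E))
    linarith
  obtain ⟨K₁, hK₁⟩ := (Metric.tendsto_atTop.mp (ul_tendsto hN hg hρN hρ ht m) (ε / 4)
    (by positivity))
  obtain ⟨K₂, hK₂⟩ := eventually_atTop.mp (hinf.eventually_ge_atTop (m : ℝ))
  refine ⟨max K₁ K₂, fun K hK => ?_⟩
  have h1 := hK₁ K (le_trans (le_max_left _ _) hK)
  have h2 := hK₂ K (le_trans (le_max_right _ _) hK)
  rw [Real.dist_eq] at h1 ⊢
  have hγ := gam_pos hN0 hg K
  set a : ℝ := A / (t * gam N g K) with ha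
  have ha0 : 0 ≤ a := by positivity
  have h3 := uu_window_le hN hg hρN hρ ht K m ha0 h2
  have h4 : 3 * a * t * (gam N g K / (1 - qq N ρ)) = 3 * A / (1 - qq N ρ) := by
    rw [ha]; field_simp
  rw [h4, ← hE] at h3
  have h5 : E * (finf N g t - ul N g t m) ≤ ε / 4 := by
    have h6 := mul_le_mul_of_nonneg_left hm3.le hE0.le
    have h7 : E * (ε / (4 * E)) = ε / 4 := by field_simp
    linarith
  have h6 := uu_mono (N := N) (fun j => (hg j).le) ht K h2
  have h7 := ul_le_finf hN hg hρN hρ ht m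
  have h8 := (abs_lt.mp h1)
  rw [abs_lt]
  constructor <;> linarith [h8.1, h8.2]

end Hyp

end

/-- The Laplace functional of the whole system. -/
noncomputable def Ps (N K : ℕ) (h : ℝ) (σ : Equiv.Perm (Word N K)) : ℝ :=
  av N K (ex (h / (N : ℝ) ^ K)) σ

theorem Phi_top (h : ℝ) (σ : Equiv.Perm (Word N K)) (x : Word N K) :
    Phi (lab N K K) (N ^ K) h σ x = Ps N K h σ := by
  unfold Phi Ps av
  rw [blk_top]
  push_cast
  rfl

section

variable {g : ℕ → ℝ} {t ρ : ℝ}

theorem ex_le_below {h : ℝ} (hh : 0 ≤ h) (a : ℝ) (l : ℕ) :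
    ex h l ≤ below a l + Real.exp (-(h * a)) := by
  unfold below
  split_ifs with h1
  · have := ex_le_one hh l
    have := Real.exp_pos (-(h * a))
    linarith
  · push Not at h1
    unfold ex
    rw [zero_add, Real.exp_le_exp, neg_le_neg_iff]
    exact mul_le_mul_of_nonneg_left h1 hh

theorem below_le_ex {h : ℝ} (hh : 0 ≤ h) (a : ℝ) (l : ℕ) :
    Real.exp (-(h * a)) * below a l ≤ ex h l := by
  unfold below
  split_ifs with h1
  · rw [mul_one]
    unfold ex
    rw [Real.exp_le_exp, neg_le_neg_iff]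
    exact mul_le_mul_of_nonneg_left h1.le hh
  · rw [mul_zero]
    exact (ex_pos h l).le

/-- The Laplace functional at the scale `t g_K` converges to the mass of the finite cycles. -/
theorem Ps_tendsto (hN : 2 ≤ N) (hg : ∀ j, 0 < g j) (hρN : ρ < N)
    (hρ : ∀ j, g (j + 1) ≤ ρ * g j) (ht : 0 < t) {l : ℝ} (hl : 0 < l) :
    Tendsto (fun K => EL N K g t K (Ps N K (l * (t * g K)))) atTop (𝓝 (finf N g t)) := by
  have hN0 : 0 < N := by omega
  have hNr : (0 : ℝ) < N := by exact_mod_cast hN0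
  have hgn : ∀ j, 0 ≤ g j := fun j => (hg j).le
  have hγ : ∀ K, 0 < gam N g K := gam_pos hN0 hg
  have e1 : ∀ K, l * (t * g K) / (N : ℝ) ^ K = l * (t * gam N g K) := by
    intro K; unfold gam; ring
  -- upper bound
  have hup : ∀ A : ℝ, 0 < A → ∀ K, EL N K g t K (Ps N K (l * (t * g K))) ≤
      uu N g t K (A / (t * gam N g K)) + Real.exp (-(l * A)) := by
    intro A hA K
    have h0 := hγ K
    have h1 := EL_mono (N := N) (K := K) hgn ht.le K (f := Ps N K (l * (t * g K)))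
      (h := fun σ => av N K (below (A / (t * gam N g K))) σ + Real.exp (-(l * A))) (by
        intro σ _
        unfold Ps
        rw [e1]
        have h2 : av N K (ex (l * (t * gam N g K))) σ ≤
            av N K (fun j => below (A / (t * gam N g K)) j + Real.exp (-(l * A))) σ := by
          refine av_mono (fun j => ?_) σ
          refine (ex_le_below (by positivity) (A / (t * gam N g K)) j).trans (le_of_eq ?_)
          have h3 : l * (t * gam N g K) * (A / (t * gam N g K)) = l * A := by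
            field_simp
          rw [h3]
        rw [av_add, av_const hN0] at h2
        exact h2)
    rwa [EL_add, EL_const] at h1
  have hlo : ∀ (m K : ℕ), Real.exp (-(l * (t * gam N g K) * m)) * uu N g t K m ≤
      EL N K g t K (Ps N K (l * (t * g K))) := by
    intro m K
    have h0 := hγ K
    have h1 := EL_mono (N := N) (K := K) hgn ht.le K
      (f := fun σ => Real.exp (-(l * (t * gam N g K) * m)) * av N K (below (m : ℝ)) σ)
      (h := Ps N K (l * (t * g K))) (by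
        intro σ _
        unfold Ps
        rw [e1, ← av_mul]
        exact av_mono (fun j => below_le_ex (by positivity) (m : ℝ) j) σ)
    rwa [EL_mul] at h1
  rw [Metric.tendsto_atTop]
  intro ε hε
  -- choice of A
  obtain ⟨A, hA0, hA⟩ : ∃ A : ℝ, 0 < A ∧ Real.exp (-(l * A)) < ε / 2 := by
    have h1 : Tendsto (fun A : ℝ => Real.exp (-(l * A))) atTop (𝓝 0) :=
      Real.tendsto_exp_neg_atTop_nhds_zero.comp (tendsto_id.const_mul_atTop hl)
    have h2 := (h1.eventually_lt_const (half_pos hε)).and (eventually_gt_atTop 0)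
    obtain ⟨A, h3, h4⟩ := h2.exists
    exact ⟨A, h4, h3⟩
  obtain ⟨m, hm⟩ := (Metric.tendsto_atTop.mp (ul_tendsto_finf hN hg hρN hρ ht.le) (ε / 2)
    (by positivity))
  have hm1 := hm m le_rfl
  rw [Real.dist_eq] at hm1
  have h1 : Tendsto (fun K => Real.exp (-(l * (t * gam N g K) * m)) * uu N g t K m) atTop
      (𝓝 (ul N g t m)) := by
    have h2 : Tendsto (fun K => Real.exp (-(l * (t * gam N g K) * m))) atTop (𝓝 1) := by
      have h3 := (((gam_tendsto hN hg hρN hρ).const_mul t).const_mul l).mul_const (m : ℝ)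
      have h4 := (Real.continuous_exp.tendsto _).comp h3.neg
      simpa [Function.comp_def] using h4
    have h5 := h2.mul (ul_tendsto hN hg hρN hρ ht.le m)
    rwa [one_mul] at h5
  obtain ⟨K₁, hK₁⟩ := (Metric.tendsto_atTop.mp h1 (ε / 2) (by positivity))
  obtain ⟨K₂, hK₂⟩ := (Metric.tendsto_atTop.mp (uu_meso hN hg hρN hρ ht.le ht hA0) (ε / 2)
    (by positivity))
  refine ⟨max K₁ K₂, fun K hK => ?_⟩
  have h2 := hK₁ K (le_trans (le_max_left _ _) hK)
  have h3 := hK₂ K (le_trans (le_max_right _ _) hK)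
  rw [Real.dist_eq] at h2 h3 ⊢
  have h4 := hup A hA0 K
  have h5 := hlo m K
  have h6 := ul_le_finf hN hg hρN hρ ht.le m
  rw [abs_lt] at *
  constructor
  · linarith [h2.1, hm1.1]
  · linarith [h3.2]

end

end Pool.Agent.Stirring.Hier
end

section

/-! One level of the hierarchy, with general thresholds. -/

open Finset Filter Topology

set_option linter.unusedSectionVars false

namespace Pool.Agent.Stirring.Hier

section Step

variable {V : Type*} [Fintype V] [DecidableEq V] {ι : Type*} [DecidableEq ι]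

variable {β : V → ι} {n : ℕ} (hn : ∀ x, (blk β x).card = n) {g h : ℝ}

include hn

/-- Drift of the Laplace functional with decreasing parameter. -/
theorem move_Phi_le' {b m κ : ℝ} (hg : 0 ≤ g) (hh : 0 < h) (hκ : 0 < κ) (hb : 0 ≤ b)
    (hbm : b + m + κ ≤ 1) {σ : Equiv.Perm V} (hσ : σ ∈ pres β) (x : V) :
    gen (brate β n g) (fun τ => Phi β n h τ x) σ + 2 * b * g * dPhi β n h σ x ≤
      g * (4 / h ^ 2 + 4 * b ^ 2 / (κ ^ 2 * h) * sp m (Phi β n h σ x)) := by
  have h1 := gen_Phi_le hn hg hh hσ x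
  set P := Phi β n h σ x with hP
  set d := dPhi β n h σ x with hd
  have hd0 : 0 ≤ d := dPhi_nonneg hn h σ x
  have h2 : h * d ≤ 1 - P := mul_dPhi_le hn h σ x
  have h3 : (2 * b - 2 * (1 - P)) * d ≤ 4 * b ^ 2 / (κ ^ 2 * h) * sp m P := by
    by_cases hA : b ≤ 1 - P
    · have h4 : (2 * b - 2 * (1 - P)) * d ≤ 0 :=
        mul_nonpos_of_nonpos_of_nonneg (by linarith) hd0
      have h5 : 0 ≤ 4 * b ^ 2 / (κ ^ 2 * h) * sp m P := mul_nonneg (by positivity) (sp_nonneg m P)
      linarith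
    · push Not at hA
      have h4 : κ ^ 2 ≤ sp m P := by
        unfold sp
        have h5 : κ ≤ max (P - m) 0 := le_trans (by linarith) (le_max_left _ _)
        exact pow_le_pow_left₀ hκ.le h5 2
      have h6 : d ≤ b / h := by
        rw [le_div_iff₀ hh]; linarith
      have h7 : 0 ≤ 1 - P := le_trans (mul_nonneg hh.le hd0) h2
      have h8 : (2 * b - 2 * (1 - P)) * d ≤ 2 * b * (b / h) := by
        have : (2 * b - 2 * (1 - P)) * d ≤ 2 * b * d :=
          mul_le_mul_of_nonneg_right (by linarith) hd0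
        exact this.trans (mul_le_mul_of_nonneg_left h6 (by linarith))
      have h9 : 2 * b * (b / h) = 2 * b ^ 2 / (κ ^ 2 * h) * κ ^ 2 := by field_simp
      rw [h9] at h8
      have h10 : 2 * b ^ 2 / (κ ^ 2 * h) * κ ^ 2 ≤ 4 * b ^ 2 / (κ ^ 2 * h) * sp m P := by
        refine mul_le_mul ?_ h4 (by positivity) (by positivity)
        refine div_le_div_of_nonneg_right ?_ (by positivity)
        nlinarith [sq_nonneg b]
      exact h8.trans h10
  have h10 := mul_le_mul_of_nonneg_left h3 hg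
  nlinarith

/-- Drift of the square with decreasing parameter. -/
theorem move_sp_le' {b m κ : ℝ} (hg : 0 ≤ g) (hh : 0 < h) (hm0 : 0 ≤ m) (hκ : 0 < κ)
    (hκ1 : κ ≤ 1) (hb : 0 ≤ b)
    (hbm : b + m + κ ≤ 1) {σ : Equiv.Perm V} (hσ : σ ∈ pres β) (x : V) :
    gen (brate β n g) (fun τ => sp m (Phi β n h τ x)) σ +
        2 * max (Phi β n h σ x - m) 0 * (2 * b * g * dPhi β n h σ x) ≤
      g * (4 * b ^ 2 / (κ ^ 2 * h)) * sp m (Phi β n h σ x) + g * (12 / h ^ 2) := by
  have h1 := gen_sp_le hn hg hh m hσ x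
  have h2 := gen_Phi_le hn hg hh hσ x
  set P := Phi β n h σ x with hP
  set d := dPhi β n h σ x with hd
  have hd0 : 0 ≤ d := dPhi_nonneg hn h σ x
  have h3 : h * d ≤ 1 - P := mul_dPhi_le hn h σ x
  have hP1 : 0 ≤ 1 - P := le_trans (mul_nonneg hh.le hd0) h3
  set u := max (P - m) 0 with hu
  have hu0 : 0 ≤ u := le_max_right _ _
  have hu1 : u ≤ 1 := max_le (by linarith) zero_le_one
  have hsp : sp m P = u ^ 2 := rfl
  have h4 : 2 * u * ((2 * b - 2 * (1 - P)) * d) ≤ 4 * b ^ 2 / (κ ^ 2 * h) * u ^ 2 := by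
    by_cases hA : b ≤ 1 - P
    · have h4 : (2 * b - 2 * (1 - P)) * d ≤ 0 :=
        mul_nonpos_of_nonpos_of_nonneg (by linarith) hd0
      have h5 : 0 ≤ 4 * b ^ 2 / (κ ^ 2 * h) * u ^ 2 := by positivity
      nlinarith [mul_nonneg hu0 (neg_nonneg.mpr h4)]
    · push Not at hA
      have h5 : κ ≤ u := le_trans (by linarith) (le_max_left _ _)
      have h6 : d ≤ b / h := by
        rw [le_div_iff₀ hh]; linarith
      have h8 : (2 * b - 2 * (1 - P)) * d ≤ 2 * b * (b / h) := by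
        have : (2 * b - 2 * (1 - P)) * d ≤ 2 * b * d :=
          mul_le_mul_of_nonneg_right (by linarith) hd0
        exact this.trans (mul_le_mul_of_nonneg_left h6 (by linarith))
      have h9 : 2 * u * ((2 * b - 2 * (1 - P)) * d) ≤ 2 * u * (2 * b * (b / h)) :=
        mul_le_mul_of_nonneg_left h8 (by linarith)
      have h10 : 2 * u * (2 * b * (b / h)) = (4 * b ^ 2 / (κ ^ 2 * h)) * (κ ^ 2 * u) := by
        field_simp
        ring
      rw [h10] at h9
      refine h9.trans (mul_le_mul_of_nonneg_left ?_ (by positivity))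
      nlinarith [mul_nonneg hκ.le hu0]
  have h5 : 2 * u * (g * (4 / h ^ 2 - 2 * (1 - P) * d)) + g * (4 / h ^ 2) +
      2 * u * (2 * b * g * d) ≤ g * (4 * b ^ 2 / (κ ^ 2 * h)) * sp m P + g * (12 / h ^ 2) := by
    rw [hsp]
    have h6 : 2 * u * (g * (4 / h ^ 2)) ≤ g * (8 / h ^ 2) := by
      have h7 : 0 ≤ g * (8 / h ^ 2) := by positivity
      have h8 : 2 * u * (g * (4 / h ^ 2)) = u * (g * (8 / h ^ 2)) := by ring
      rw [h8]
      nlinarith
    have h9 := mul_le_mul_of_nonneg_left h4 hg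
    have h10 : g * (12 / h ^ 2) = g * (8 / h ^ 2) + g * (4 / h ^ 2) := by ring
    rw [h10]
    nlinarith
  have h6 : 2 * u * gen (brate β n g) (fun τ => Phi β n h τ x) σ ≤
      2 * u * (g * (4 / h ^ 2 - 2 * (1 - P) * d)) :=
    mul_le_mul_of_nonneg_left h2 (by linarith)
  linarith

omit hn in
theorem exp_le_one_add {e y : ℝ} (he0 : 0 ≤ e) (he : e ≤ 1 / 2) (hy : y ≤ e) :
    Real.exp y ≤ 1 + 2 * e := by
  have h1 : Real.exp y ≤ Real.exp e := Real.exp_le_exp.mpr hy
  refine h1.trans ?_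
  have h2 := Real.add_one_le_exp (-e)
  have h3 : Real.exp e * Real.exp (-e) = 1 := by rw [← Real.exp_add]; simp
  have h4 := Real.exp_pos e
  nlinarith

section OneLevel

variable {b m κ e t h₀ h₁ : ℝ}

/-- First phase: the parameter decreases from `h₀` to `h₁`. -/
theorem phase_one' (hg : 0 < g) (hh₁ : 0 < h₁) (h10 : h₁ ≤ h₀) (hb : 0 < b) (hm0 : 0 ≤ m)
    (hκ : 0 < κ) (hκ1 : κ ≤ 1) (hbm : b + m + κ ≤ 1) (he0 : 0 < e) (he : e ≤ 1 / 2)
    (hbh : 2 * b * h₀ ≤ e * κ ^ 2 * h₁) {σ : Equiv.Perm V} (hσ : σ ∈ pres β) (x : V) :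
    sg (brate β n g) ((h₀ - h₁) / (2 * b * g)) (fun τ => sp m (Phi β n h₁ τ x)) σ ≤
      (1 + 2 * e) * (sp m (Phi β n h₀ σ x) + g * (12 / h₁ ^ 2) * ((h₀ - h₁) / (2 * b * g))) ∧
    sg (brate β n g) ((h₀ - h₁) / (2 * b * g)) (fun τ => Phi β n h₁ τ x) σ ≤
      Phi β n h₀ σ x + g * (4 / h₁ ^ 2) * ((h₀ - h₁) / (2 * b * g)) +
      e * ((1 + 2 * e) * (sp m (Phi β n h₀ σ x) +
        g * (12 / h₁ ^ 2) * ((h₀ - h₁) / (2 * b * g)))) := by
  set T : ℝ := (h₀ - h₁) / (2 * b * g) with hT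
  have hbg : 0 < 2 * b * g := by positivity
  have hT0 : 0 ≤ T := div_nonneg (by linarith) hbg.le
  set hs : ℝ → ℝ := fun s => h₀ - 2 * b * g * s with hhs
  have hs0 : hs 0 = h₀ := by simp [hhs]
  have hsT : hs T = h₁ := by
    simp only [hhs, hT]
    field_simp
    ring
  have hs1 : ∀ s ∈ Set.Icc 0 T, h₁ ≤ hs s := by
    intro s hs'
    rw [← hsT]
    simp only [hhs]
    have := mul_le_mul_of_nonneg_left hs'.2 hbg.le
    linarith
  set F : ℝ → Fn V := fun s τ => Phi β n (hs s) τ x with hF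
  set F' : ℝ → Fn V := fun s τ => 2 * b * g * dPhi β n (hs s) τ x with hF'
  have hds : ∀ s, HasDerivAt hs (-(2 * b * g)) s := by
    intro s
    have := ((hasDerivAt_id s).const_mul (2 * b * g)).const_sub h₀
    exact this.congr_deriv (by ring)
  have hd : ∀ s τ, HasDerivAt (fun u => F u τ) (F' s τ) s := by
    intro s τ
    have h1 := (Phi_hasDerivAt β n (hs s) τ x).comp s (hds s)
    exact h1.congr_deriv (by simp only [hF']; ring)
  have hdsp : ∀ s τ, HasDerivAt (fun u => sp m (F u τ))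
      (2 * max (Phi β n (hs s) τ x - m) 0 * (2 * b * g * dPhi β n (hs s) τ x)) s := by
    intro s τ
    exact (sp_hasDerivAt m (F s τ)).comp s (hd s τ)
  set B : ℝ := g * (4 * b ^ 2 / (κ ^ 2 * h₁)) with hB
  set κ' : ℝ := g * (12 / h₁ ^ 2) with hκ'
  have hB0 : 0 ≤ B := by positivity
  have hκ0 : 0 ≤ κ' := by positivity
  have hBT : B * T ≤ e := by
    have h1 : B * T = 2 * b * (h₀ - h₁) / (κ ^ 2 * h₁) := by
      rw [hB, hT]; field_simp; ring
    rw [h1, div_le_iff₀ (by positivity)]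
    have h2 : 0 ≤ b * h₁ := by positivity
    nlinarith
  -- the bound for the square
  have key : ∀ S ∈ Set.Icc 0 T, sg (brate β n g) S (fun τ => sp m (F S τ)) σ ≤
      (1 + 2 * e) * (sp m (Phi β n h₀ σ x) + κ' * T) := by
    intro S hS
    have h1 := move_gron (brate_nonneg (β := β) (n := n) hg.le) (stab_pres β n g)
      (F := fun s τ => sp m (F s τ))
      (F' := fun s τ => 2 * max (Phi β n (hs s) τ x - m) 0 * (2 * b * g * dPhi β n (hs s) τ x))
      hB0 hκ0 hS.1 (fun s _ τ => hdsp s τ) (by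
        intro s hs' τ hτ
        have hs2 := hs1 s ⟨hs'.1, hs'.2.trans hS.2⟩
        have hpos : 0 < hs s := lt_of_lt_of_le hh₁ hs2
        refine (move_sp_le' hn hg.le hpos hm0 hκ hκ1 hb.le hbm hτ x).trans ?_
        have h2 : g * (4 * b ^ 2 / (κ ^ 2 * hs s)) ≤ B := by
          rw [hB]
          refine mul_le_mul_of_nonneg_left ?_ hg.le
          exact div_le_div_of_nonneg_left (by positivity) (by positivity)
            (mul_le_mul_of_nonneg_left hs2 (by positivity))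
        have h3 : g * (12 / hs s ^ 2) ≤ κ' := by
          rw [hκ']
          refine mul_le_mul_of_nonneg_left ?_ hg.le
          exact div_le_div_of_nonneg_left (by norm_num) (by positivity)
            (pow_le_pow_left₀ hh₁.le hs2 2)
        exact add_le_add (mul_le_mul_of_nonneg_right h2 (sp_nonneg _ _)) h3) hσ
    refine h1.trans ?_
    have h2 : Real.exp (B * S) ≤ 1 + 2 * e := by
      refine exp_le_one_add he0.le he (le_trans ?_ hBT)
      exact mul_le_mul_of_nonneg_left hS.2 hB0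
    have h3 : F 0 σ = Phi β n h₀ σ x := by simp only [hF, hs0]
    simp only [h3]
    have h4 : κ' * S ≤ κ' * T := mul_le_mul_of_nonneg_left hS.2 hκ0
    have h5 : 0 ≤ κ' * S := mul_nonneg hκ0 hS.1
    have h6 := sp_nonneg m (Phi β n h₀ σ x)
    calc Real.exp (B * S) * (sp m (Phi β n h₀ σ x) + κ' * S) ≤
          (1 + 2 * e) * (sp m (Phi β n h₀ σ x) + κ' * S) :=
          mul_le_mul_of_nonneg_right h2 (by linarith)
      _ ≤ _ := mul_le_mul_of_nonneg_left (by linarith) (by linarith)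
  constructor
  · have h1 := key T ⟨hT0, le_rfl⟩
    simp only [hF, hsT] at h1
    exact h1
  · set Q : ℝ := (1 + 2 * e) * (sp m (Phi β n h₀ σ x) + κ' * T) with hQ
    have hQ0 : 0 ≤ Q := by
      have h6 := sp_nonneg m (Phi β n h₀ σ x)
      have h7 := mul_nonneg hκ0 hT0
      positivity
    have h1 := lin_upper_Icc (κ := g * (4 / h₁ ^ 2) + B * Q) hT0
      (fun s _ => sg_move_hasDerivAt (brate β n g) (F := F) (F' := F') (s := s)
        (fun τ => hd s τ) σ) (by
        intro s hs'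
        have hs2 := hs1 s hs'
        have hpos : 0 < hs s := lt_of_lt_of_le hh₁ hs2
        have h2 := sg_mono_on (brate_nonneg (β := β) (n := n) hg.le) (stab_pres β n g)
          (f := fun τ => gen (brate β n g) (F s) τ + F' s τ)
          (g := (fun _ => g * (4 / h₁ ^ 2)) + B • (fun τ => sp m (F s τ))) (by
            intro τ hτ
            rw [Pi.add_apply, Pi.smul_apply, smul_eq_mul]
            refine (move_Phi_le' hn hg.le hpos hκ hb.le hbm hτ x).trans ?_
            have h3 : g * (4 / hs s ^ 2) ≤ g * (4 / h₁ ^ 2) := by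
              refine mul_le_mul_of_nonneg_left ?_ hg.le
              exact div_le_div_of_nonneg_left (by norm_num) (by positivity)
                (pow_le_pow_left₀ hh₁.le hs2 2)
            have h4 : g * (4 * b ^ 2 / (κ ^ 2 * hs s)) ≤ B := by
              rw [hB]
              refine mul_le_mul_of_nonneg_left ?_ hg.le
              exact div_le_div_of_nonneg_left (by positivity) (by positivity)
                (mul_le_mul_of_nonneg_left hs2 (by positivity))
            have h5 : g * (4 / hs s ^ 2 + 4 * b ^ 2 / (κ ^ 2 * hs s) *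
                sp m (Phi β n (hs s) τ x)) =
                g * (4 / hs s ^ 2) + g * (4 * b ^ 2 / (κ ^ 2 * hs s)) *
                sp m (Phi β n (hs s) τ x) := by
              ring
            rw [h5]
            exact add_le_add h3 (mul_le_mul_of_nonneg_right h4 (sp_nonneg _ _))) hs'.1 σ hσ
        rw [sg_add, sg_const, sg_smul] at h2
        refine h2.trans ?_
        exact add_le_add le_rfl (mul_le_mul_of_nonneg_left (key s hs') hB0))
    simp only [sg_zero] at h1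
    have h2 : F 0 σ = Phi β n h₀ σ x := by simp only [hF, hs0]
    have h3 : sg (brate β n g) T (F T) σ =
        sg (brate β n g) T (fun τ => Phi β n h₁ τ x) σ := by
      simp only [hF, hsT]
    rw [h2, h3] at h1
    refine h1.trans ?_
    have h4 : (g * (4 / h₁ ^ 2) + B * Q) * T = g * (4 / h₁ ^ 2) * T + (B * T) * Q := by ring
    rw [h4]
    have h5 : (B * T) * Q ≤ e * Q := mul_le_mul_of_nonneg_right hBT hQ0
    linarith

/-- The two bounds for one level. -/
theorem one_level' (hg : 0 < g) (hh₁ : 0 < h₁) (h10 : h₁ ≤ h₀) (hb : 0 < b) (hm0 : 0 ≤ m)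
    (hκ : 0 < κ) (hκ1 : κ ≤ 1) (hbm : b + m + κ ≤ 1) (he0 : 0 < e) (he : e ≤ 1 / 2)
    (hbh : 2 * b * h₀ ≤ e * κ ^ 2 * h₁) (ht : h₀ - h₁ ≤ 2 * b * g * t)
    {σ : Equiv.Perm V} (hσ : σ ∈ pres β) (x : V) :
    sg (brate β n g) t (fun τ => sp m (Phi β n h₁ τ x)) σ ≤
      (1 + 2 * e) * sp m (Phi β n h₀ σ x) + 24 * (g * t) / h₁ ^ 2 ∧
    sg (brate β n g) t (fun τ => Phi β n h₁ τ x) σ ≤
      Phi β n h₀ σ x + sp m (Phi β n h₀ σ x) + 16 * (g * t) / h₁ ^ 2 := by
  set T : ℝ := (h₀ - h₁) / (2 * b * g) with hT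
  have hbg : 0 < 2 * b * g := by positivity
  have hT0 : 0 ≤ T := div_nonneg (by linarith) hbg.le
  have hTt : T ≤ t := by
    rw [hT, div_le_iff₀ hbg]; linarith
  have hc := brate_nonneg (β := β) (n := n) hg.le
  have hG := stab_pres β n g
  obtain ⟨h1, h2⟩ := phase_one' hn hg hh₁ h10 hb hm0 hκ hκ1 hbm he0 he hbh hσ x
  rw [← hT] at h1 h2
  have e1 : sg (brate β n g) t = sg (brate β n g) T * sg (brate β n g) (t - T) := by
    rw [← sg_add_time]; congr 1; ring
  have hh2 : 0 < h₁ ^ 2 := by positivity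
  have hTg : 0 ≤ g * T / h₁ ^ 2 := by positivity
  have htT : 0 ≤ g * (t - T) / h₁ ^ 2 := by
    have : 0 ≤ t - T := by linarith
    positivity
  have hsp0 := sp_nonneg m (Phi β n h₀ σ x)
  constructor
  · have h3 : ∀ τ ∈ pres β, sg (brate β n g) (t - T) (fun τ => sp m (Phi β n h₁ τ x)) τ ≤
        (((fun τ => sp m (Phi β n h₁ τ x)) : Fn V) + ((fun _ => g * (12 / h₁ ^ 2) * (t - T)) : Fn V)) τ := by
      intro τ hτ
      exact sg_lin_upper hc hG (fun τ' hτ' => gen_sp_simple hn hg.le hh₁ hm0 hτ' x)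
        (by linarith) hτ
    have h4 := sg_mono_on hc hG h3 hT0 σ hσ
    rw [sg_add, sg_const] at h4
    rw [e1]
    have h5 := h4.trans (add_le_add h1 le_rfl)
    have h6 : (1 + 2 * e) * (sp m (Phi β n h₀ σ x) + g * (12 / h₁ ^ 2) * T) +
        g * (12 / h₁ ^ 2) * (t - T) = (1 + 2 * e) * sp m (Phi β n h₀ σ x) +
        (1 + 2 * e) * 12 * (g * T / h₁ ^ 2) + 12 * (g * (t - T) / h₁ ^ 2) := by ring
    have h7 : 24 * (g * t) / h₁ ^ 2 = 24 * (g * T / h₁ ^ 2) + 24 * (g * (t - T) / h₁ ^ 2) := by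
      ring
    rw [h6] at h5
    rw [h7]
    have h8 : (1 + 2 * e) * 12 * (g * T / h₁ ^ 2) ≤ 24 * (g * T / h₁ ^ 2) :=
      mul_le_mul_of_nonneg_right (by linarith) hTg
    exact h5.trans (by linarith)
  · have h3 : ∀ τ ∈ pres β, sg (brate β n g) (t - T) (fun τ => Phi β n h₁ τ x) τ ≤
        (((fun τ => Phi β n h₁ τ x) : Fn V) + ((fun _ => g * (4 / h₁ ^ 2) * (t - T)) : Fn V)) τ := by
      intro τ hτ
      exact sg_lin_upper hc hG (fun τ' hτ' => gen_Phi_simple hn hg.le hh₁ hτ' x)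
        (by linarith) hτ
    have h4 := sg_mono_on hc hG h3 hT0 σ hσ
    rw [sg_add, sg_const] at h4
    rw [e1]
    have h5 := h4.trans (add_le_add h2 le_rfl)
    have h8 : e * ((1 + 2 * e) * (sp m (Phi β n h₀ σ x) + g * (12 / h₁ ^ 2) * T)) ≤
        sp m (Phi β n h₀ σ x) + 12 * (g * T / h₁ ^ 2) := by
      have h9 : g * (12 / h₁ ^ 2) * T = 12 * (g * T / h₁ ^ 2) := by ring
      rw [h9]
      have h10 : 0 ≤ sp m (Phi β n h₀ σ x) + 12 * (g * T / h₁ ^ 2) := by linarith
      have h11 : e * (1 + 2 * e) ≤ 1 := by nlinarith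
      nlinarith
    have h6 : Phi β n h₀ σ x + g * (4 / h₁ ^ 2) * T +
        e * ((1 + 2 * e) * (sp m (Phi β n h₀ σ x) + g * (12 / h₁ ^ 2) * T)) +
        g * (4 / h₁ ^ 2) * (t - T) ≤ Phi β n h₀ σ x + sp m (Phi β n h₀ σ x) +
        16 * (g * T / h₁ ^ 2) + 4 * (g * (t - T) / h₁ ^ 2) := by
      have h9 : g * (4 / h₁ ^ 2) * T = 4 * (g * T / h₁ ^ 2) := by ring
      have h10 : g * (4 / h₁ ^ 2) * (t - T) = 4 * (g * (t - T) / h₁ ^ 2) := by ring
      rw [h9, h10]
      linarith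
    have h7 : 16 * (g * t) / h₁ ^ 2 = 16 * (g * T / h₁ ^ 2) + 16 * (g * (t - T) / h₁ ^ 2) := by
      ring
    rw [h7]
    refine h5.trans (h6.trans (by linarith))

end OneLevel

end Step

variable {N K : ℕ}

theorem restr_out {σ : Equiv.Perm (Word N (K + 1))} (hσ : σ ∈ pres (lab N (K + 1) K))
    {a : Fin N} {p : Word N (K + 1) × Word N (K + 1)}
    (hp : lab N (K + 1) K p.1 = lab N (K + 1) K p.2) (ha : p.1 (Fin.last K) ≠ a) :
    restr a (σ * Equiv.swap p.1 p.2) = restr a σ := by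
  have h1 : p.1 (Fin.last K) = p.2 (Fin.last K) := by
    rw [lab_eq_iff] at hp
    exact hp (Fin.last K) (by simp)
  rw [← ext_init p.1, ← ext_init p.2, ← h1]
  exact restr_swap_ne hσ (Ne.symm ha) _ _

/-- Different blocks are independent before the last level. -/
theorem EL_restr_indep {g : ℕ → ℝ} (hg : ∀ j, 0 ≤ g j) {t : ℝ} (ht : 0 ≤ t) {a a' : Fin N}
    (haa : a ≠ a') (F F' : Fn (Word N K)) :
    EL N (K + 1) g t K (fun σ => F (restr a σ) * F' (restr a' σ)) =
      EL N K g t K F * EL N K g t K F' := by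
  have h := sg_indep (lev_nonneg (N := N) (K := K + 1) hg K) (stab_lev' g (le_refl K))
    (fun w => w (Fin.last K) = a)
    (fun p hp => by
      have h1 := lev_apply_ne hp
      rw [lab_eq_iff] at h1
      rw [h1 (Fin.last K) (by simp)])
    (f := fun σ => F (restr a σ)) (f' := fun σ => F' (restr a' σ))
    (fun σ hσ p hp hB => by
      show F (restr a (σ * Equiv.swap p.1 p.2)) = F (restr a σ)
      rw [restr_out hσ (lev_apply_ne hp) hB])
    (fun σ hσ p hp hB => by
      show F' (restr a' (σ * Equiv.swap p.1 p.2)) = F' (restr a' σ)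
      rw [restr_out hσ (lev_apply_ne hp) (by rw [hB]; exact haa)])
    ht 1 (one_mem_pres K)
  have h1 := EL_restr (N := N) (K := K) g t (le_refl K) a F
  have h2 := EL_restr (N := N) (K := K) g t (le_refl K) a' F'
  unfold EL at *
  rw [h, h1, h2]

theorem Ps_succ (hN : 0 < N) (h : ℝ) {σ : Equiv.Perm (Word N (K + 1))}
    (hσ : σ ∈ pres (lab N (K + 1) K)) :
    Ps N (K + 1) (N * h) σ = (∑ a : Fin N, Ps N K h (restr a σ)) / N := by
  have hNr : (0 : ℝ) < N := by exact_mod_cast hN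
  have e : (N : ℝ) * h / (N : ℝ) ^ (K + 1) = h / (N : ℝ) ^ K := by
    rw [pow_succ]; field_simp
  unfold Ps
  rw [e, av_succ _ hσ]

theorem Ps_nonneg (h : ℝ) (σ : Equiv.Perm (Word N K)) : 0 ≤ Ps N K h σ := by
  unfold Ps av
  exact div_nonneg (Finset.sum_nonneg fun x _ => (ex_pos _ _).le) (by positivity)

theorem Ps_le_one (hN : 0 < N) {h : ℝ} (hh : 0 ≤ h) (σ : Equiv.Perm (Word N K)) :
    Ps N K h σ ≤ 1 := by
  have h1 : av N K (ex (h / (N : ℝ) ^ K)) σ ≤ av N K (fun _ => 1) σ :=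
    av_mono (fun l => ex_le_one (by positivity) l) σ
  rw [av_const hN] at h1
  exact h1

theorem Ps_anti {h h' : ℝ} (hh : h ≤ h') (σ : Equiv.Perm (Word N K)) :
    Ps N K h' σ ≤ Ps N K h σ := by
  unfold Ps
  refine av_mono (fun l => ?_) σ
  unfold ex
  rw [Real.exp_le_exp, neg_le_neg_iff]
  exact mul_le_mul_of_nonneg_right (div_le_div_of_nonneg_right hh (by positivity))
    (Nat.cast_nonneg _)

section Rec

variable {g : ℕ → ℝ} {t : ℝ}

theorem EL_pos_sq_le' (hg : ∀ j, 0 ≤ g j) (ht : 0 ≤ t)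
    {h m M W : ℝ} (hm : 0 < m) (hW0 : 0 ≤ W)
    (hM : EL N K g t K (Ps N K h) ≤ M) (hW : EL N K g t K (fun τ => sp m (Ps N K h τ)) ≤ W) :
    (EL N K g t K (fun τ => max (Ps N K h τ - m) 0)) ^ 2 ≤ W * (M / m) := by
  classical
  have h1 := sg_cs (lev_nonneg (N := N) (K := K) hg K) ht
    (fun τ => max (Ps N K h τ - m) 0) (fun τ => if m < Ps N K h τ then 1 else 0) 1
  have e1 : (fun τ => max (Ps N K h τ - m) 0 * (if m < Ps N K h τ then (1 : ℝ) else 0)) =
      fun τ => max (Ps N K h τ - m) 0 := by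
    funext τ
    by_cases h : m < Ps N K h τ
    · rw [if_pos h, mul_one]
    · rw [if_neg h, mul_zero, max_eq_right (by linarith)]
  rw [e1] at h1
  have h2 : sg (lev N K g K) t (fun τ => (if m < Ps N K h τ then (1 : ℝ) else 0) ^ 2) 1 ≤
      M / m := by
    have h3 : ∀ τ ∈ pres (lab N K K), (if m < Ps N K h τ then (1 : ℝ) else 0) ^ 2 ≤
        (1 / m) * Ps N K h τ := by
      intro τ _
      by_cases h : m < Ps N K h τ
      · rw [if_pos h, one_pow, div_mul_eq_mul_div, one_mul, le_div_iff₀ hm]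
        linarith
      · rw [if_neg h]
        simp only [ne_eq, OfNat.ofNat_ne_zero, not_false_eq_true, zero_pow]
        exact mul_nonneg (by positivity) (Ps_nonneg _ τ)
    have h4 := EL_mono (N := N) (K := K) hg ht K h3
    rw [EL_mul] at h4
    refine h4.trans ?_
    rw [div_mul_eq_mul_div, one_mul]
    exact div_le_div_of_nonneg_right hM hm.le
  have h4 : 0 ≤ sg (lev N K g K) t (fun τ => (if m < Ps N K h τ then (1 : ℝ) else 0) ^ 2) 1 :=
    sg_nonneg_on (lev_nonneg hg K) (stab_univ _) (fun τ _ => sq_nonneg _) ht 1 (Set.mem_univ _)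
  calc (EL N K g t K (fun τ => max (Ps N K h τ - m) 0)) ^ 2 ≤ _ := h1
    _ ≤ W * (M / m) := mul_le_mul hW h2 h4 hW0

/-- Averaging the square of the positive part over the blocks. -/
theorem EL_sp_avg' (hg : ∀ j, 0 ≤ g j) (ht : 0 ≤ t) (hN : 0 < N)
    {h m M W : ℝ} (hm : 0 < m) (hW0 : 0 ≤ W)
    (hM : EL N K g t K (Ps N K h) ≤ M) (hW : EL N K g t K (fun τ => sp m (Ps N K h τ)) ≤ W) :
    EL N (K + 1) g t K (fun τ => sp m (Ps N (K + 1) (N * h) τ)) ≤
      (1 / N + (1 - 1 / N) * (M / m)) * W := by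
  have hNr : (0 : ℝ) < N := by exact_mod_cast hN
  set φ : Fn (Word N K) := fun τ => max (Ps N K h τ - m) 0 with hφ
  have h1 : ∀ σ ∈ pres (lab N (K + 1) K), sp m (Ps N (K + 1) (N * h) σ) ≤
      (1 / (N : ℝ) ^ 2) * ∑ a : Fin N, ∑ a' : Fin N, φ (restr a σ) * φ (restr a' σ) := by
    intro σ hσ
    rw [Ps_succ hN h hσ]
    unfold sp
    have h2 := max_avg_le (m := m) hN (fun a => Ps N K h (restr a σ))
    refine (pow_le_pow_left₀ (le_max_right _ _) h2 2).trans (le_of_eq ?_)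
    rw [div_pow, sq (∑ a, max (Ps N K h (restr a σ) - m) 0), Finset.sum_mul_sum]
    ring
  refine (EL_mono hg ht K h1).trans ?_
  rw [EL_mul, EL_sum]
  have h2 : ∀ a : Fin N, EL N (K + 1) g t K (fun σ => ∑ a', φ (restr a σ) * φ (restr a' σ)) ≤
      W + (N - 1) * (W * (M / m)) := by
    intro a
    rw [EL_sum]
    have h3 : ∀ a' ∈ (Finset.univ : Finset (Fin N)),
        EL N (K + 1) g t K (fun σ => φ (restr a σ) * φ (restr a' σ)) ≤
        (if a' = a then W - W * (M / m) else 0) + W * (M / m) := by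
      intro a' _
      by_cases haa : a' = a
      · rw [if_pos haa, haa]
        have e1 : EL N (K + 1) g t K (fun σ => φ (restr a σ) * φ (restr a σ)) =
            EL N K g t K (fun τ => φ τ * φ τ) := EL_restr g t (le_refl K) a (fun τ => φ τ * φ τ)
        rw [e1]
        have e2 : (fun τ => φ τ * φ τ) = fun τ => sp m (Ps N K h τ) := by
          funext τ
          unfold sp
          rw [sq]
        rw [e2]
        linarith
      · rw [if_neg haa, zero_add, EL_restr_indep hg ht (Ne.symm haa)]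
        have h6 := EL_pos_sq_le' (N := N) (K := K) hg ht hm hW0 hM hW
        rw [← sq]
        exact h6
    refine (Finset.sum_le_sum h3).trans (le_of_eq ?_)
    rw [Finset.sum_add_distrib, Finset.sum_ite_eq' , if_pos (Finset.mem_univ _), Finset.sum_const,
      Finset.card_univ, Fintype.card_fin, nsmul_eq_mul]
    ring
  have h3 : ∑ a : Fin N, EL N (K + 1) g t K (fun σ => ∑ a', φ (restr a σ) * φ (restr a' σ)) ≤
      N * (W + (N - 1) * (W * (M / m))) := by
    refine (Finset.sum_le_sum fun a _ => h2 a).trans (le_of_eq ?_)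
    rw [Finset.sum_const, Finset.card_univ, Fintype.card_fin, nsmul_eq_mul]
  refine (mul_le_mul_of_nonneg_left h3 (by positivity)).trans (le_of_eq ?_)
  field_simp

/-- The mean over the blocks. -/
theorem EL_Ps_avg (hg : ∀ j, 0 ≤ g j) (ht : 0 ≤ t) (hN : 0 < N) (h : ℝ) :
    EL N (K + 1) g t K (Ps N (K + 1) (N * h)) = EL N K g t K (Ps N K h) := by
  have hNr : (0 : ℝ) < N := by exact_mod_cast hN
  have e : (N : ℝ) * h / (N : ℝ) ^ (K + 1) = h / (N : ℝ) ^ K := by
    rw [pow_succ]; field_simp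
  have h1 : Ps N (K + 1) (N * h) = av N (K + 1) (ex (h / (N : ℝ) ^ K)) := by
    funext σ
    unfold Ps
    rw [e]
  rw [h1, EL_av_succ hN hg ht]
  rfl

/-- One step of the recursion, with general thresholds. -/
theorem rec_step' (hg : ∀ j, 0 < g j) (ht : 0 ≤ t) (hN : 0 < N)
    {h h₁ m κ e b M W : ℝ} (hh₁ : 0 < h₁) (hm : 0 < m) (hb : 0 < b)
    (hκ : 0 < κ) (hκ1 : κ ≤ 1) (hbm : b + m + κ ≤ 1) (he0 : 0 < e) (he : e ≤ 1 / 2)
    (hbh : 2 * b * max (N * h) h₁ ≤ e * κ ^ 2 * h₁)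
    (hbt : max (N * h) h₁ - h₁ ≤ 2 * b * g (K + 1) * t) (hW0 : 0 ≤ W)
    (hM : EL N K g t K (Ps N K h) ≤ M) (hW : EL N K g t K (fun τ => sp m (Ps N K h τ)) ≤ W) :
    EL N (K + 1) g t (K + 1) (fun τ => sp m (Ps N (K + 1) h₁ τ)) ≤
      (1 + 2 * e) * ((1 / N + (1 - 1 / N) * (M / m)) * W) + 24 * (g (K + 1) * t) / h₁ ^ 2 ∧
    EL N (K + 1) g t (K + 1) (Ps N (K + 1) h₁) ≤
      M + (1 / N + (1 - 1 / N) * (M / m)) * W + 16 * (g (K + 1) * t) / h₁ ^ 2 := by
  have hgn : ∀ j, 0 ≤ g j := fun j => (hg j).le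
  have hcard : ∀ x : Word N (K + 1), (blk (lab N (K + 1) (K + 1)) x).card = N ^ (K + 1) :=
    fun x => card_top x
  set h₀ : ℝ := max (N * h) h₁ with hh₀
  have h10 : h₁ ≤ h₀ := le_max_right _ _
  have hNh : N * h ≤ h₀ := le_max_left _ _
  have h1 := EL_sp_avg' (K := K) hgn ht hN hm hW0 hM hW
  have h2 := EL_Ps_avg (N := N) (K := K) hgn ht hN h
  have x₀ : Word N (K + 1) := fun _ => ⟨0, hN⟩
  have eP : ∀ h : ℝ, (fun τ => Phi (lab N (K + 1) (K + 1)) (N ^ (K + 1)) h τ x₀) =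
      Ps N (K + 1) h := fun h => by funext τ; exact Phi_top h τ x₀
  have eS : ∀ h : ℝ, (fun τ => sp m (Phi (lab N (K + 1) (K + 1)) (N ^ (K + 1)) h τ x₀)) =
      fun τ => sp m (Ps N (K + 1) h τ) := fun h => by funext τ; rw [Phi_top h τ x₀]
  constructor
  · rw [EL_top]
    have h3 : ∀ σ ∈ pres (lab N (K + 1) K), sg (top N (K + 1) g) t
        (fun τ => sp m (Ps N (K + 1) h₁ τ)) σ ≤
        (1 + 2 * e) * sp m (Ps N (K + 1) (N * h) σ) + 24 * (g (K + 1) * t) / h₁ ^ 2 := by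
      intro σ _
      have h4 := (one_level' hcard (hg (K + 1)) hh₁ h10 hb hm.le hκ hκ1 hbm he0 he hbh hbt
        (pres_top σ) x₀).1
      rw [eS h₁, Phi_top] at h4
      refine h4.trans ?_
      have h5 := mul_le_mul_of_nonneg_left (sp_mono m (Ps_anti hNh σ))
        (by linarith : 0 ≤ 1 + 2 * e)
      linarith
    refine (EL_mono hgn ht K h3).trans ?_
    rw [EL_add, EL_mul, EL_const]
    have h4 := mul_le_mul_of_nonneg_left h1 (by linarith : 0 ≤ 1 + 2 * e)
    linarith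
  · rw [EL_top]
    have h3 : ∀ σ ∈ pres (lab N (K + 1) K), sg (top N (K + 1) g) t (Ps N (K + 1) h₁) σ ≤
        (Ps N (K + 1) (N * h) σ + sp m (Ps N (K + 1) (N * h) σ)) +
        16 * (g (K + 1) * t) / h₁ ^ 2 := by
      intro σ _
      have h4 := (one_level' hcard (hg (K + 1)) hh₁ h10 hb hm.le hκ hκ1 hbm he0 he hbh hbt
        (pres_top σ) x₀).2
      rw [eP h₁, Phi_top] at h4
      refine h4.trans ?_
      have h5 := sp_mono m (Ps_anti hNh σ)
      have h6 := Ps_anti hNh σ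
      linarith
    refine (EL_mono hgn ht K h3).trans ?_
    rw [EL_add, EL_add, EL_const]
    have h4 : EL N (K + 1) g t K (fun σ => Ps N (K + 1) (N * h) σ) ≤ M := by
      have h5 : (fun σ => Ps N (K + 1) (N * h) σ) = Ps N (K + 1) (N * h) := rfl
      rw [h5, h2]
      exact hM
    linarith

end Rec

end Pool.Agent.Stirring.Hier
end

section

/-! Propagation of the bounds over all levels, and continuity of the mass of finite cycles. -/

open Finset Filter Topology

set_option linter.unusedSectionVars false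

namespace Pool.Agent.Stirring.Hier

variable {N K : ℕ}

/-- The mean of the Laplace functional at the scale `l`. -/
noncomputable def MM (N : ℕ) (g : ℕ → ℝ) (l t : ℝ) (K : ℕ) : ℝ :=
  EL N K g t K (Ps N K (l * (t * g K)))

/-- The mean square of its positive part. -/
noncomputable def WW (N : ℕ) (g : ℕ → ℝ) (m l t : ℝ) (K : ℕ) : ℝ :=
  EL N K g t K (fun τ => sp m (Ps N K (l * (t * g K)) τ))

theorem WW_nonneg {g : ℕ → ℝ} (hg : ∀ j, 0 ≤ g j) {t : ℝ} (ht : 0 ≤ t) (m l : ℝ) (K : ℕ) :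
    0 ≤ WW N g m l t K := by
  have h := EL_mono (N := N) (K := K) hg ht K (f := fun _ => 0)
    (h := fun τ => sp m (Ps N K (l * (t * g K)) τ)) (fun σ _ => sp_nonneg _ _)
  rwa [EL_const] at h

theorem MM_nonneg {g : ℕ → ℝ} (hg : ∀ j, 0 ≤ g j) {t : ℝ} (ht : 0 ≤ t) (l : ℝ) (K : ℕ) :
    0 ≤ MM N g l t K := by
  have h := EL_mono (N := N) (K := K) hg ht K (f := fun _ => 0)
    (h := Ps N K (l * (t * g K))) (fun σ _ => Ps_nonneg _ _)
  rwa [EL_const] at h

/-- The recursion, with parameters. -/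
theorem step_params (hN : 2 ≤ N) {c : ℝ} (hc : 0 < c) (hc1 : c ≤ 1) {m Mb l₀ : ℝ} (hm : 0 < m)
    (hm1 : m < 1) (hMb : 0 ≤ Mb) (hMm : Mb < m) (hl₀ : 0 < l₀) :
    ∃ l q : ℝ, 0 < l ∧ l ≤ l₀ ∧ 0 < q ∧ q < 1 ∧ ∀ (g : ℕ → ℝ), (∀ j, 0 < g j) →
      (∀ j, c * g j ≤ g (j + 1)) → ∀ t : ℝ, 0 < t → ∀ K : ℕ, MM N g l t K ≤ Mb →
      WW N g m l t (K + 1) ≤ q * WW N g m l t K + 24 / (l ^ 2 * t) * (1 / g (K + 1)) ∧
      MM N g l t (K + 1) ≤ MM N g l t K + WW N g m l t K +
        16 / (l ^ 2 * t) * (1 / g (K + 1)) := by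
  have hN0 : 0 < N := by omega
  have hNr : (2 : ℝ) ≤ N := by exact_mod_cast hN
  have hNp : (0 : ℝ) < N := by linarith
  set κ : ℝ := (1 - m) / 2 with hκdef
  have hκ : 0 < κ := by rw [hκdef]; linarith
  have hκ1 : κ ≤ 1 := by rw [hκdef]; linarith
  set q₁ : ℝ := 1 / N + (1 - 1 / N) * (Mb / m) with hq₁
  have hN1 : 1 / (N : ℝ) ≤ 1 / 2 := by
    rw [div_le_div_iff₀ hNp (by norm_num)]; linarith
  have hN2 : 0 < 1 / (N : ℝ) := by positivity
  have hMm' : Mb / m < 1 := by rw [div_lt_one hm]; exact hMm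
  have hMm0 : 0 ≤ Mb / m := by positivity
  have hq₁0 : 0 < q₁ := by
    have : 0 ≤ (1 - 1 / (N : ℝ)) * (Mb / m) := mul_nonneg (by linarith) hMm0
    rw [hq₁]; linarith
  have hq₁1 : q₁ < 1 := by
    have : (1 - 1 / (N : ℝ)) * (Mb / m) < (1 - 1 / (N : ℝ)) * 1 :=
      mul_lt_mul_of_pos_left hMm' (by linarith)
    rw [hq₁]; linarith
  set e : ℝ := min (1 / 2) ((1 - q₁) / 4) with he
  have he0 : 0 < e := lt_min (by norm_num) (by linarith)
  have he1 : e ≤ 1 / 2 := min_le_left _ _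
  have he2 : e ≤ (1 - q₁) / 4 := min_le_right _ _
  set b : ℝ := min κ (e * κ ^ 2 * c / (2 * N)) with hb
  have hb0 : 0 < b := lt_min hκ (by positivity)
  have hb1 : b ≤ κ := min_le_left _ _
  have hb2 : b ≤ e * κ ^ 2 * c / (2 * N) := min_le_right _ _
  set l : ℝ := min l₀ (2 * b * c / N) with hl
  have hl0 : 0 < l := lt_min hl₀ (by positivity)
  have hl1 : l ≤ l₀ := min_le_left _ _
  have hl2 : l ≤ 2 * b * c / N := min_le_right _ _
  have hfin : (1 + 2 * e) * q₁ ≤ (1 + q₁) / 2 := by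
    have h1 : e * q₁ ≤ (1 - q₁) / 4 * 1 := mul_le_mul he2 hq₁1.le hq₁0.le (by linarith)
    linarith
  refine ⟨l, (1 + q₁) / 2, hl0, hl1, by linarith, by linarith, ?_⟩
  intro g hg hcg t ht K hMK
  have hgn : ∀ j, 0 ≤ g j := fun j => (hg j).le
  have hgK := hg K
  have hgK1 := hg (K + 1)
  set h : ℝ := l * (t * g K) with hh
  set h₁ : ℝ := l * (t * g (K + 1)) with hh₁
  have hh₁0 : 0 < h₁ := by positivity
  have hh0 : 0 < h := by positivity
  have hch : c * h ≤ h₁ := by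
    have := mul_le_mul_of_nonneg_left (hcg K) (by positivity : 0 ≤ l * t)
    rw [hh, hh₁]; linarith
  have hmax : max (N * h) h₁ ≤ N / c * h₁ := by
    refine max_le ?_ ?_
    · rw [div_mul_eq_mul_div, le_div_iff₀ hc]
      have := mul_le_mul_of_nonneg_left hch hNp.le
      linarith
    · rw [div_mul_eq_mul_div, le_div_iff₀ hc]
      nlinarith
  have hbh : 2 * b * max (N * h) h₁ ≤ e * κ ^ 2 * h₁ := by
    have h1 := mul_le_mul_of_nonneg_left hmax (by positivity : 0 ≤ 2 * b)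
    refine h1.trans ?_
    have h2 : 2 * b * (N / c) ≤ e * κ ^ 2 := by
      have h3 : 2 * b * (N / c) = b * (2 * N / c) := by ring
      have h4 := mul_le_mul_of_nonneg_right hb2 (by positivity : (0 : ℝ) ≤ 2 * N / c)
      have h5 : e * κ ^ 2 * c / (2 * N) * (2 * N / c) = e * κ ^ 2 := by field_simp
      rw [h3]; linarith
    have h3 := mul_le_mul_of_nonneg_right h2 hh₁0.le
    linarith
  have hbt : max (N * h) h₁ - h₁ ≤ 2 * b * g (K + 1) * t := by
    rcases le_total (N * h) h₁ with h' | h'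
    · rw [max_eq_right h', sub_self]; positivity
    · rw [max_eq_left h']
      have h1 : N * h ≤ 2 * b * g (K + 1) * t := by
        have h2 : N * h = (N * l / c) * (t * (c * g K)) := by rw [hh]; field_simp
        have h3 : N * l / c ≤ 2 * b := by
          rw [div_le_iff₀ hc]
          rw [le_div_iff₀ hNp] at hl2
          linarith
        have h4 : t * (c * g K) ≤ t * g (K + 1) := mul_le_mul_of_nonneg_left (hcg K) ht.le
        rw [h2]
        calc N * l / c * (t * (c * g K)) ≤ 2 * b * (t * g (K + 1)) :=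
              mul_le_mul h3 h4 (by positivity) (by positivity)
          _ = _ := by ring
      linarith
  have hW0 := WW_nonneg (N := N) hgn ht.le m l K
  have hstep := rec_step' (K := K) hg ht.le hN0 hh₁0 hm hb0 hκ hκ1
    (by rw [hκdef] at hb1 ⊢; linarith) he0 he1 hbh hbt hW0 (le_refl (MM N g l t K)) le_rfl
  have hM0 := MM_nonneg (N := N) hgn ht.le l K
  set M := MM N g l t K with hMdef
  set W := WW N g m l t K with hWdef
  have hfac : 1 / (N : ℝ) + (1 - 1 / N) * (M / m) ≤ q₁ := by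
    rw [hq₁]
    have h1 : M / m ≤ Mb / m := div_le_div_of_nonneg_right hMK hm.le
    have h2 := mul_le_mul_of_nonneg_left h1 (by linarith : 0 ≤ 1 - 1 / (N : ℝ))
    linarith
  have e1 : (g (K + 1) * t) / h₁ ^ 2 = 1 / (l ^ 2 * t) * (1 / g (K + 1)) := by
    rw [hh₁]; field_simp
  have hfW := mul_le_mul_of_nonneg_right hfac hW0
  constructor
  · refine hstep.1.trans ?_
    have h1 : 24 * (g (K + 1) * t) / h₁ ^ 2 = 24 / (l ^ 2 * t) * (1 / g (K + 1)) := by
      rw [mul_div_assoc, e1]; ring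
    rw [h1]
    have h2 := mul_le_mul_of_nonneg_left hfW (by linarith : 0 ≤ 1 + 2 * e)
    have h3 : (1 + 2 * e) * (q₁ * W) ≤ (1 + q₁) / 2 * W := by
      rw [← mul_assoc]
      refine mul_le_mul_of_nonneg_right ?_ hW0
      exact hfin
    exact add_le_add (h2.trans h3) le_rfl
  · refine hstep.2.trans ?_
    have h1 : 16 * (g (K + 1) * t) / h₁ ^ 2 = 16 / (l ^ 2 * t) * (1 / g (K + 1)) := by
      rw [mul_div_assoc, e1]; ring
    rw [h1]
    have h3 : q₁ * W ≤ 1 * W := mul_le_mul_of_nonneg_right hq₁1.le hW0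
    rw [one_mul] at h3
    exact add_le_add (add_le_add le_rfl (hfW.trans h3)) le_rfl

theorem tendsto_of_contract {W δ : ℕ → ℝ} {q : ℝ} (hq0 : 0 < q) (hq1 : q < 1) (hW : ∀ k, 0 ≤ W k)
    {k₀ : ℕ} (h : ∀ k, k₀ ≤ k → W (k + 1) ≤ q * W k + δ k) (hδ : Tendsto δ atTop (𝓝 0)) :
    Tendsto W atTop (𝓝 0) := by
  rw [Metric.tendsto_atTop]
  intro ε hε
  have h1 : ∀ᶠ k in atTop, δ k < ε * (1 - q) / 2 :=
    hδ.eventually_lt_const (by have : 0 < 1 - q := by linarith
                               positivity)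
  obtain ⟨k₁, hk₁⟩ := eventually_atTop.mp h1
  set k₂ := max k₀ k₁ with hk₂
  have h2 : ∀ j, W (k₂ + j) ≤ q ^ j * W k₂ + ε / 2 := by
    intro j
    induction j with
    | zero =>
      simp only [Nat.add_zero, pow_zero, one_mul]
      linarith
    | succ j ih =>
      have h3 := h (k₂ + j) (le_trans (le_max_left _ _) (Nat.le_add_right _ _))
      have h4 := hk₁ (k₂ + j) (le_trans (le_max_right _ _) (Nat.le_add_right _ _))
      have h5 := mul_le_mul_of_nonneg_left ih hq0.le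
      have e : k₂ + (j + 1) = k₂ + j + 1 := rfl
      rw [e, pow_succ']
      nlinarith
  have h3 : Tendsto (fun j => q ^ j * W k₂) atTop (𝓝 0) := by
    have := (tendsto_pow_atTop_nhds_zero_of_lt_one hq0.le hq1).mul_const (W k₂)
    rwa [zero_mul] at this
  obtain ⟨j₀, hj₀⟩ := eventually_atTop.mp (h3.eventually_lt_const (half_pos hε))
  refine ⟨k₂ + j₀, fun k hk => ?_⟩
  obtain ⟨j, rfl⟩ := Nat.exists_eq_add_of_le (le_trans (Nat.le_add_right _ _) hk)
  have h4 := hj₀ j (by omega)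
  have h5 := h2 j
  rw [Real.dist_eq, sub_zero, abs_of_nonneg (hW _)]
  linarith

section

variable {g : ℕ → ℝ} {t c ρ : ℝ}

theorem g_tendsto (hg : ∀ j, 0 < g j) (hs : Summable fun j => 1 / g j) :
    Tendsto g atTop atTop := by
  have h1 := hs.tendsto_atTop_zero
  have h2 : Tendsto (fun j => (1 / g j)⁻¹) atTop atTop := by
    refine Tendsto.inv_tendsto_nhdsGT_zero ?_
    rw [tendsto_nhdsWithin_iff]
    exact ⟨h1, Eventually.of_forall fun j => by
      have := hg j
      show 0 < 1 / g j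
      positivity⟩
  refine h2.congr fun j => ?_
  rw [one_div, inv_inv]

theorem inv_tendsto (hs : Summable fun j => 1 / g j) (C : ℝ) :
    Tendsto (fun K => C * (1 / g (K + 1))) atTop (𝓝 0) := by
  have h1 := (hs.tendsto_atTop_zero.comp (tendsto_add_atTop_nat 1)).const_mul C
  rw [mul_zero] at h1
  exact h1

/-- If the mean stays below `Mb < m`, then the mean square of the positive part tends to zero. -/
theorem WW_tendsto (hg : ∀ j, 0 < g j) (hs : Summable fun j => 1 / g j) (ht : 0 < t)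
    {m Mb l q : ℝ} (hq0 : 0 < q) (hq1 : q < 1)
    (hstep : ∀ K : ℕ, MM N g l t K ≤ Mb →
      WW N g m l t (K + 1) ≤ q * WW N g m l t K + 24 / (l ^ 2 * t) * (1 / g (K + 1)) ∧
      MM N g l t (K + 1) ≤ MM N g l t K + WW N g m l t K +
        16 / (l ^ 2 * t) * (1 / g (K + 1)))
    (hM : ∀ᶠ K in atTop, MM N g l t K ≤ Mb) : Tendsto (WW N g m l t) atTop (𝓝 0) := by
  obtain ⟨k₀, hk₀⟩ := eventually_atTop.mp hM
  exact tendsto_of_contract hq0 hq1 (WW_nonneg (fun j => (hg j).le) ht.le m l)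
    (fun k hk => (hstep k (hk₀ k hk)).1) (inv_tendsto hs (24 / (l ^ 2 * t)))

/-- Propagation of the bound for the mean. -/
theorem MM_propagate (hg : ∀ j, 0 < g j) (hs : Summable fun j => 1 / g j) (ht : 0 < t)
    {m Mb l q : ℝ} (hl : 0 < l) (hq1 : q < 1)
    (hstep : ∀ K : ℕ, MM N g l t K ≤ Mb →
      WW N g m l t (K + 1) ≤ q * WW N g m l t K + 24 / (l ^ 2 * t) * (1 / g (K + 1)) ∧
      MM N g l t (K + 1) ≤ MM N g l t K + WW N g m l t K +
        16 / (l ^ 2 * t) * (1 / g (K + 1))) {K₀ : ℕ}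
    (h0 : MM N g l t K₀ + 1 / (1 - q) * WW N g m l t K₀ + (16 + 24 / (1 - q)) / (l ^ 2 * t) *
      (∑' j, 1 / g (j + (K₀ + 1))) ≤ Mb) (j : ℕ) :
    MM N g l t (K₀ + j) ≤ MM N g l t K₀ + 1 / (1 - q) * WW N g m l t K₀ +
      (16 + 24 / (1 - q)) / (l ^ 2 * t) * (∑' j, 1 / g (j + (K₀ + 1))) := by
  have hq' : 0 < 1 - q := by linarith
  set A : ℝ := 1 / (1 - q) with hA
  have hA0 : 0 < A := by positivity
  have hAq : 1 + A * q = A := by rw [hA]; field_simp; ring
  set C : ℝ := (16 + 24 / (1 - q)) / (l ^ 2 * t) with hC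
  have hC0 : 0 < C := by positivity
  have hCe : C = 16 / (l ^ 2 * t) + A * (24 / (l ^ 2 * t)) := by
    rw [hC, hA]; field_simp
  have hs' : Summable fun j => 1 / g (j + (K₀ + 1)) := (summable_nat_add_iff (K₀ + 1)).mpr hs
  have hpos : ∀ j, 0 ≤ 1 / g (j + (K₀ + 1)) := fun j => by
    have := hg (j + (K₀ + 1))
    positivity
  have key : ∀ j, MM N g l t (K₀ + j) + A * WW N g m l t (K₀ + j) ≤
      MM N g l t K₀ + A * WW N g m l t K₀ + C * ∑ i ∈ Finset.range j, 1 / g (i + (K₀ + 1)) := by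
    intro j
    induction j with
    | zero => simp
    | succ j ih =>
      have h1 : C * ∑ i ∈ Finset.range j, 1 / g (i + (K₀ + 1)) ≤
          C * ∑' j, 1 / g (j + (K₀ + 1)) :=
        mul_le_mul_of_nonneg_left (hs'.sum_le_tsum _ fun i _ => hpos i) hC0.le
      have hW := mul_nonneg hA0.le (WW_nonneg (N := N) (fun j => (hg j).le) ht.le m l (K₀ + j))
      obtain ⟨h2, h3⟩ := hstep (K₀ + j) (by linarith)
      have h4 := mul_le_mul_of_nonneg_left h2 hA0.le
      rw [Finset.sum_range_succ]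
      have e1 : K₀ + (j + 1) = K₀ + j + 1 := rfl
      have e2 : j + (K₀ + 1) = K₀ + j + 1 := by ring
      rw [e1, e2]
      have h5 : C * (∑ i ∈ Finset.range j, 1 / g (i + (K₀ + 1)) + 1 / g (K₀ + j + 1)) =
          C * ∑ i ∈ Finset.range j, 1 / g (i + (K₀ + 1)) + 16 / (l ^ 2 * t) *
          (1 / g (K₀ + j + 1)) + A * (24 / (l ^ 2 * t) * (1 / g (K₀ + j + 1))) := by
        rw [mul_add]
        have : C * (1 / g (K₀ + j + 1)) = 16 / (l ^ 2 * t) *
          (1 / g (K₀ + j + 1)) + A * (24 / (l ^ 2 * t) * (1 / g (K₀ + j + 1))) := by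
          rw [hCe]; ring
        rw [this]; ring
      rw [h5]
      have h6 : WW N g m l t (K₀ + j) + A * (q * WW N g m l t (K₀ + j)) =
          A * WW N g m l t (K₀ + j) := by
        have : WW N g m l t (K₀ + j) + A * (q * WW N g m l t (K₀ + j)) =
            (1 + A * q) * WW N g m l t (K₀ + j) := by ring
        rw [this, hAq]
      linarith
  have h1 := key j
  have hW := mul_nonneg hA0.le (WW_nonneg (N := N) (fun j => (hg j).le) ht.le m l (K₀ + j))
  have h2 : C * ∑ i ∈ Finset.range j, 1 / g (i + (K₀ + 1)) ≤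
      C * ∑' j, 1 / g (j + (K₀ + 1)) :=
    mul_le_mul_of_nonneg_left (hs'.sum_le_tsum _ fun i _ => hpos i) hC0.le
  linarith

theorem EL_continuous (g : ℕ → ℝ) (k : ℕ) {F : ℝ → Fn (Word N K)}
    (hF : ∀ σ, Continuous fun s => F s σ) : Continuous fun s => EL N K g s k (F s) := by
  have h1 : Continuous fun s : ℝ => sg (lev N K g k) s := by
    rw [continuous_iff_continuousAt]
    intro s
    exact (hasDerivAt_exp_smul_const (𝕂 := ℝ) (gen (lev N K g k)) s).continuousAt
  have h2 : Continuous F := continuous_pi hF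
  exact (continuous_apply 1).comp (h1.clm_apply h2)

theorem MM_continuous (g : ℕ → ℝ) (l : ℝ) (K : ℕ) : Continuous fun s => MM N g l s K := by
  refine EL_continuous g K fun σ => ?_
  unfold Ps av ex
  fun_prop

theorem sp_continuous (m : ℝ) : Continuous (sp m) := by
  unfold sp
  fun_prop

theorem WW_continuous (g : ℕ → ℝ) (m l : ℝ) (K : ℕ) : Continuous fun s => WW N g m l s K := by
  refine EL_continuous g K fun σ => ?_
  refine (sp_continuous m).comp ?_
  unfold Ps av ex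
  fun_prop

theorem uu_continuous (g : ℕ → ℝ) (K : ℕ) (a : ℝ) : Continuous fun s => uu N g s K a :=
  EL_continuous g K fun σ => continuous_const

theorem finf_zero (hN : 2 ≤ N) (hg : ∀ j, 0 < g j) (hρN : ρ < N)
    (hρ : ∀ j, g (j + 1) ≤ ρ * g j) : finf N g 0 = 1 := by
  have hN0 : 0 < N := by omega
  have h1 : ∀ K, uu N g 0 K (2 : ℕ) = 1 := by
    intro K
    unfold uu EL
    rw [sg_zero]
    unfold av
    have h2 : ∀ x : Word N K, below ((2 : ℕ) : ℝ) (cl 1 x) = 1 := by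
      intro x
      rw [cl_one]
      unfold below
      rw [if_pos (by norm_num)]
    rw [Finset.sum_congr rfl fun x _ => h2 x, Finset.sum_const, Finset.card_univ, nsmul_eq_mul,
      mul_one, card_word]
    have hNr : (0 : ℝ) < N := by exact_mod_cast hN0
    field_simp
  have h2 := ul_tendsto hN hg hρN hρ (le_refl 0) 2
  have h3 : ul N g 0 2 = 1 := by
    refine tendsto_nhds_unique h2 ?_
    refine tendsto_const_nhds.congr fun K => ?_
    rw [h1]
  refine le_antisymm (finf_le_one hN hg hρN hρ le_rfl) ?_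
  rw [← h3]
  exact ul_le_finf hN hg hρN hρ le_rfl 2

/-- The mass of the finite cycles is lower semicontinuous. -/
theorem finf_lower (hN : 2 ≤ N) (hg : ∀ j, 0 < g j) (hρN : ρ < N)
    (hρ : ∀ j, g (j + 1) ≤ ρ * g j) (ht : 0 ≤ t) {ε : ℝ} (hε : 0 < ε) :
    ∃ δ : ℝ, 0 < δ ∧ ∀ s, 0 ≤ s → |s - t| < δ → finf N g t - ε < finf N g s := by
  have hN0 : 0 < N := by omega
  have hq1 := qq_lt_one (ρ := ρ) hN hρN
  obtain ⟨m, hm⟩ := (Metric.tendsto_atTop.mp (ul_tendsto_finf hN hg hρN hρ ht) (ε / 4)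
    (by positivity))
  have hm1 := hm m le_rfl
  rw [Real.dist_eq] at hm1
  have h1 : Tendsto (fun K => 3 * (m : ℝ) ^ 2 * (t + 1) * (gam N g K / (1 - qq N ρ))) atTop
      (𝓝 0) := by
    have := ((gam_tendsto hN hg hρN hρ).div_const (1 - qq N ρ)).const_mul
      (3 * (m : ℝ) ^ 2 * (t + 1))
    simpa using this
  obtain ⟨K, hK⟩ := (h1.eventually_lt_const (by positivity : 0 < ε / 4)).exists
  obtain ⟨δ, hδ0, hδ⟩ := Metric.continuousAt_iff.mp
    ((uu_continuous (N := N) g K m).continuousAt (x := t)) (ε / 4) (by positivity)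
  refine ⟨min δ 1, lt_min hδ0 one_pos, fun s hs0 hs => ?_⟩
  have h2 := hδ (x := s) (by rw [Real.dist_eq]; exact lt_of_lt_of_le hs (min_le_left _ _))
  rw [Real.dist_eq] at h2
  have h3 := ul_dist hN hg hρN hρ hs0 m K
  have h4 := ul_dist hN hg hρN hρ ht m K
  have hs1 : s ≤ t + 1 := by
    have := (abs_lt.mp (lt_of_lt_of_le hs (min_le_right _ _))).2
    linarith
  have hγ : 0 ≤ gam N g K / (1 - qq N ρ) := by
    have := gam_pos hN0 hg K
    have h' : 0 < 1 - qq N ρ := by linarith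
    positivity
  have h5 : 3 * (m : ℝ) ^ 2 * s * (gam N g K / (1 - qq N ρ)) ≤
      3 * (m : ℝ) ^ 2 * (t + 1) * (gam N g K / (1 - qq N ρ)) := by
    refine mul_le_mul_of_nonneg_right ?_ hγ
    exact mul_le_mul_of_nonneg_left hs1 (by positivity)
  have h6 : 3 * (m : ℝ) ^ 2 * t * (gam N g K / (1 - qq N ρ)) ≤
      3 * (m : ℝ) ^ 2 * (t + 1) * (gam N g K / (1 - qq N ρ)) := by
    refine mul_le_mul_of_nonneg_right ?_ hγ
    exact mul_le_mul_of_nonneg_left (by linarith) (by positivity)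
  have h7 := ul_le_finf hN hg hρN hρ hs0 m
  have h8 := abs_le.mp h3
  have h9 := abs_le.mp h4
  have h10 := abs_lt.mp h2
  have h11 := abs_lt.mp hm1
  linarith [h8.1, h8.2, h9.1, h9.2, h10.1, h10.2, h11.1, h11.2]

/-- The mass of the finite cycles is upper semicontinuous at positive times. -/
theorem finf_upper (hN : 2 ≤ N) (hg : ∀ j, 0 < g j) (hc : 0 < c) (hρN : ρ < N)
    (hcg : ∀ j, c * g j ≤ g (j + 1)) (hρ : ∀ j, g (j + 1) ≤ ρ * g j)
    (hs : Summable fun j => 1 / g j) (ht : 0 < t) {ε : ℝ} (hε : 0 < ε) :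
    ∃ δ : ℝ, 0 < δ ∧ ∀ s, 0 < s → |s - t| < δ → finf N g s < finf N g t + ε := by
  have hf0 := finf_nonneg hN hg hρN hρ ht.le
  have hgn : ∀ j, 0 ≤ g j := fun j => (hg j).le
  rcases (finf_le_one hN hg hρN hρ ht.le).eq_or_lt with h1 | h1
  · refine ⟨1, one_pos, fun s hs0 _ => ?_⟩
    have := finf_le_one hN hg hρN hρ hs0.le
    linarith
  set c' : ℝ := min c 1 with hc'
  have hc0 : 0 < c' := lt_min hc one_pos
  have hc1 : c' ≤ 1 := min_le_right _ _
  have hcg' : ∀ j, c' * g j ≤ g (j + 1) := fun j =>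
    (mul_le_mul_of_nonneg_right (min_le_left _ _) (hgn j)).trans (hcg j)
  set f := finf N g t with hf
  set Mb : ℝ := f + (1 - f) / 3 with hMb
  set m : ℝ := f + 2 * (1 - f) / 3 with hm
  obtain ⟨l, q, hl, _, hq0, hq1, hstep⟩ := step_params (N := N) hN hc0 hc1 (m := m) (Mb := Mb)
    (l₀ := 1) (by rw [hm]; linarith) (by rw [hm]; linarith) (by rw [hMb]; linarith)
    (by rw [hm, hMb]; linarith) one_pos
  set ε' : ℝ := min ε ((1 - f) / 3) with hε'
  have hε'0 : 0 < ε' := lt_min hε (by linarith)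
  have hMt := Ps_tendsto hN hg hρN hρ ht hl
  have hWt : Tendsto (WW N g m l t) atTop (𝓝 0) := by
    refine WW_tendsto hg hs ht hq0 hq1 (hstep g hg hcg' t ht) ?_
    have h2 : ∀ᶠ K in atTop, MM N g l t K < Mb :=
      hMt.eventually_lt_const (by rw [hMb]; linarith)
    exact h2.mono fun K hK => hK.le
  have hq' : 0 < 1 - q := by linarith
  -- the tail
  have htail : Tendsto (fun K => (16 + 24 / (1 - q)) / (l ^ 2 * (t / 2)) *
      (∑' j, 1 / g (j + (K + 1)))) atTop (𝓝 0) := by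
    have h2 := (tendsto_sum_nat_add (fun j => 1 / g j)).comp (tendsto_add_atTop_nat 1)
    have h3 := h2.const_mul ((16 + 24 / (1 - q)) / (l ^ 2 * (t / 2)))
    rw [mul_zero] at h3
    exact h3
  have hψ : Tendsto (fun K => MM N g l t K + 1 / (1 - q) * WW N g m l t K) atTop
      (𝓝 (f + 1 / (1 - q) * 0)) := hMt.add (hWt.const_mul _)
  rw [mul_zero, add_zero] at hψ
  obtain ⟨K₀, hK1, hK2⟩ := ((hψ.eventually_lt_const (by linarith : f < f + ε' / 3)).and
    (htail.eventually_lt_const (by positivity : 0 < ε' / 3))).exists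
  have hcont : Continuous fun s => MM N g l s K₀ + 1 / (1 - q) * WW N g m l s K₀ :=
    (MM_continuous g l K₀).add ((WW_continuous g m l K₀).const_mul _)
  obtain ⟨δ, hδ0, hδ⟩ := Metric.continuousAt_iff.mp (hcont.continuousAt (x := t)) (ε' / 3)
    (by positivity)
  refine ⟨min δ (t / 2), lt_min hδ0 (by positivity), fun s hs0 hst => ?_⟩
  have h2 := hδ (x := s) (by rw [Real.dist_eq]; exact lt_of_lt_of_le hst (min_le_left _ _))
  rw [Real.dist_eq] at h2
  have h3 := (abs_lt.mp h2).2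
  have hs2 : t / 2 ≤ s := by
    have := (abs_lt.mp (lt_of_lt_of_le hst (min_le_right _ _))).1
    linarith
  have hT0 : 0 ≤ ∑' j, 1 / g (j + (K₀ + 1)) := tsum_nonneg fun j => by
    have := hg (j + (K₀ + 1))
    positivity
  have h4 : (16 + 24 / (1 - q)) / (l ^ 2 * s) * (∑' j, 1 / g (j + (K₀ + 1))) ≤
      (16 + 24 / (1 - q)) / (l ^ 2 * (t / 2)) * (∑' j, 1 / g (j + (K₀ + 1))) := by
    refine mul_le_mul_of_nonneg_right ?_ hT0
    exact div_le_div_of_nonneg_left (by positivity) (by positivity)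
      (mul_le_mul_of_nonneg_left hs2 (by positivity))
  have hε1 : ε' ≤ ε := min_le_left _ _
  have hε2 : ε' ≤ (1 - f) / 3 := min_le_right _ _
  have h5 := MM_propagate (N := N) hg hs hs0 hl hq1 (hstep g hg hcg' s hs0) (K₀ := K₀) (by
    rw [hMb]; linarith)
  have h6 : Tendsto (fun j => MM N g l s (K₀ + j)) atTop (𝓝 (finf N g s)) := by
    have := (Ps_tendsto hN hg hρN hρ hs0 hl).comp (tendsto_add_atTop_nat K₀)
    refine this.congr fun j => ?_
    simp only [Function.comp_apply, Nat.add_comm]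
    rfl
  have h7 := le_of_tendsto' h6 h5
  linarith

/-- The mass of the finite cycles is continuous. -/
theorem finf_continuousOn (hN : 2 ≤ N) (hg : ∀ j, 0 < g j) (hc : 0 < c) (hρN : ρ < N)
    (hcg : ∀ j, c * g j ≤ g (j + 1)) (hρ : ∀ j, g (j + 1) ≤ ρ * g j)
    (hs : Summable fun j => 1 / g j) : ContinuousOn (finf N g) (Set.Ici 0) := by
  rw [Metric.continuousOn_iff]
  intro t ht ε hε
  have ht0 : (0 : ℝ) ≤ t := ht
  obtain ⟨δ₁, hδ₁, h1⟩ := finf_lower hN hg hρN hρ ht0 hε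
  rcases ht0.eq_or_lt with h0 | h0
  · refine ⟨δ₁, hδ₁, fun s hs0 hst => ?_⟩
    rw [Real.dist_eq] at hst ⊢
    have h2 := h1 s hs0 hst
    have h3 := finf_le_one hN hg hρN hρ (show (0 : ℝ) ≤ s from hs0)
    rw [← h0, finf_zero hN hg hρN hρ] at h2 ⊢
    rw [abs_lt]
    constructor <;> linarith
  · obtain ⟨δ₂, hδ₂, h2⟩ := finf_upper hN hg hc hρN hcg hρ hs h0 hε
    refine ⟨min δ₁ (min δ₂ t), lt_min hδ₁ (lt_min hδ₂ h0), fun s hs0 hst => ?_⟩
    rw [Real.dist_eq] at hst ⊢
    have h3 := h1 s hs0 (lt_of_lt_of_le hst (min_le_left _ _))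
    have h4 : 0 < s := by
      have := (abs_lt.mp (lt_of_lt_of_le hst ((min_le_right _ _).trans (min_le_right _ _)))).1
      linarith
    have h5 := h2 s h4 (lt_of_lt_of_le hst ((min_le_right _ _).trans (min_le_left _ _)))
    rw [abs_lt]
    constructor <;> linarith

end

end Pool.Agent.Stirring.Hier
end

section

section

/-! A6a: the step at `x = ρ z`, when `y` is the predecessor of a point `j` of `Z`. -/

open Finset

namespace Pool.Agent.Stirring.HP

variable {V : Type} [Fintype V] [DecidableEq V]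

theorem rho_mem {X Z : Finset V} {ρ : Equiv.Perm V} (hS : SuppIn (X ∪ Z) ρ) (hQ : Q1 Z ρ) {z : V}
    (hz : z ∈ Z) : ρ z ∈ X := by
  have h := suppIn_apply_mem hS (mem_union_right X hz)
  rcases mem_union.1 h with h | h
  · exact h
  · exact absurd h (hQ z hz)

/-- The predecessors of the points of `Z` are in `X` (by `Q1` they are not in `Z`) and different from
`ρ z` (as `ρ (ρ z) ∉ Z`). -/
theorem hits_subset {X Z : Finset V} {ρ : Equiv.Perm V} (hS : SuppIn (X ∪ Z) ρ) (hQ : Q1 Z ρ)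
    {z : V} (hz : z ∈ Z) (hG : ρ (ρ z) ∉ Z) : Z.image ρ.symm ⊆ X.erase (ρ z) := by
  intro y hy
  obtain ⟨j, hj, rfl⟩ := mem_image.1 hy
  have hρ : ρ (ρ.symm j) = j := ρ.apply_symm_apply j
  rw [mem_erase]
  refine ⟨fun h => hG ?_, ?_⟩
  · rw [← h, hρ]
    exact hj
  · by_contra hX
    have hZ : ρ.symm j ∉ Z := fun h => hQ _ h (by rw [hρ]; exact hj)
    have h1 : ρ.symm j ∉ X ∪ Z := by
      rw [mem_union]
      rintro (h | h)
      · exact hX h
      · exact hZ h
    have h2 := hS _ h1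
    rw [hρ] at h2
    exact hZ (h2 ▸ hj)

theorem hits_card (Z : Finset V) (ρ : Equiv.Perm V) : (Z.image ρ.symm).card = Z.card :=
  card_image_of_injective _ ρ.symm.injective

private theorem A6a_aux {X Z : Finset V} {ρ : Equiv.Perm V} (hXZ : Disjoint X Z)
    (hS : SuppIn (X ∪ Z) ρ) (hQ : Q1 Z ρ)
    {z : V} (hz : z ∈ Z) (hG : ρ (ρ z) ∉ Z) {j : V} (hj : j ∈ Z) :
    ρ z ≠ ρ.symm j ∧ (∀ i ∈ Z, i ≠ ρ z) ∧ (∀ i ∈ Z, i ≠ ρ.symm j) := by
  have h := mem_erase.1 (hits_subset hS hQ hz hG (mem_image_of_mem _ hj))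
  refine ⟨h.1.symm, fun i hi e => ?_, fun i hi e => ?_⟩
  · exact disjoint_left.1 hXZ (rho_mem hS hQ hz) (e ▸ hi)
  · exact disjoint_left.1 hXZ h.2 (e ▸ hi)

/-- `stp_apply` at `i = z` with `x = ρ z`, `y = ρ.symm j`: `ρ z = x` and `ρ y = j ≠ y`. -/
theorem hit_val {X Z : Finset V} {ρ : Equiv.Perm V} (hXZ : Disjoint X Z)
    (hS : SuppIn (X ∪ Z) ρ) (hQ : Q1 Z ρ)
    {z : V} (hz : z ∈ Z) (hG : ρ (ρ z) ∉ Z) {j : V} (hj : j ∈ Z) :
    stp (ρ z) (ρ.symm j) ρ z = j := by
  obtain ⟨h1, h2, h3⟩ := A6a_aux hXZ hS hQ hz hG hj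
  rw [stp_apply h1 (h2 z hz) (h3 z hz), if_pos rfl, ρ.apply_symm_apply, if_neg (h3 j hj)]

/-- Write `x = ρ z`, `y = ρ.symm j`, `ρ' = stp x y ρ`. For `i ∈ Z`, `i ≠ z`: `ρ' i` is `ρ x` (if
`ρ i = y`) or `ρ i`; both are not in `Z` (`hG`, `hQ`). Now `del z ρ' i = ρ' i` for these `i`, since
`ρ' i ≠ z`. -/
theorem hit_Q1 {X Z : Finset V} {ρ : Equiv.Perm V} (hXZ : Disjoint X Z)
    (hS : SuppIn (X ∪ Z) ρ) (hQ : Q1 Z ρ)
    {z : V} (hz : z ∈ Z) (hG : ρ (ρ z) ∉ Z) {j : V} (hj : j ∈ Z) :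
    Q1 (Z.erase z) (del z (stp (ρ z) (ρ.symm j) ρ)) := by
  obtain ⟨h1, h2, h3⟩ := A6a_aux hXZ hS hQ hz hG hj
  intro i hi
  obtain ⟨hiz, hiZ⟩ := mem_erase.1 hi
  have key : stp (ρ z) (ρ.symm j) ρ i ∉ Z := by
    rw [stp_apply h1 (h2 i hiZ) (h3 i hiZ), if_neg (fun h => hiz (ρ.injective h))]
    split_ifs with h4 h5
    · exact absurd (ρ.injective h5).symm (h2 z hz)
    · exact hG
    · exact hQ i hiZ
  rw [del_apply hiz, if_neg (fun h => key (by rw [h]; exact hz))]
  exact fun h => key (mem_of_mem_erase h)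

end Pool.Agent.Stirring.HP
end

section

/-! A7a: the step at `x = ρ z`, when `y` is not the predecessor of a point of `Z`. -/

open Finset

namespace Pool.Agent.Stirring.HP

variable {V : Type} [Fintype V] [DecidableEq V]

private theorem A7a_mem {X Z : Finset V} {ρ : Equiv.Perm V} (hS : SuppIn (X ∪ Z) ρ) (hQ : Q1 Z ρ)
    {z : V} (hz : z ∈ Z) : ρ z ∈ X := by
  have h := suppIn_apply_mem hS (mem_union_right X hz)
  rcases mem_union.1 h with h | h
  · exact h
  · exact absurd h (hQ z hz)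

/-- `ρ' = stp x y ρ`, `x = ρ z`: `ρ' z` is `ρ x` (if `ρ y = y`) or `ρ y`, both not in `Z`; for
`i ∈ Z`, `i ≠ z`: `ρ' i` is `ρ x` (if `ρ i = y`) or `ρ i`, both not in `Z`. (`i ≠ x, y` because
`x, y ∈ X`.) -/
theorem miss_Q1 {X Z : Finset V} {ρ : Equiv.Perm V} (hXZ : Disjoint X Z)
    (hS : SuppIn (X ∪ Z) ρ) (hQ : Q1 Z ρ)
    {z : V} (hz : z ∈ Z) (hG : ρ (ρ z) ∉ Z) {y : V} (hy : y ∈ X.erase (ρ z)) (hy' : ρ y ∉ Z) :
    Q1 Z (stp (ρ z) y ρ) := by
  obtain ⟨hyx, hyX⟩ := mem_erase.1 hy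
  have hx : ρ z ∈ X := A7a_mem hS hQ hz
  intro i hi
  have hix : i ≠ ρ z := fun e => disjoint_left.1 hXZ hx (e ▸ hi)
  have hiy : i ≠ y := fun e => disjoint_left.1 hXZ hyX (e ▸ hi)
  rw [stp_apply hyx.symm hix hiy]
  split_ifs with h1 h2 h3 h4
  · exact hG
  · exact hy'
  · exact hy'
  · exact hG
  · exact hQ i hi

/-- `ρ' z = ρ y`; `ρ' (ρ y) = ρ (ρ y) ∉ Z` unless `ρ (ρ y) = y`, in which case `ρ' (ρ y) = ρ x ∉ Z`
(note `ρ y ≠ x` and `ρ (ρ y) ≠ x` since `x = ρ z`, `y ∉ Z`, `ρ y ∉ Z`). -/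
theorem miss_G {X Z : Finset V} {ρ : Equiv.Perm V} (hXZ : Disjoint X Z)
    (hS : SuppIn (X ∪ Z) ρ) (hQ : Q1 Z ρ)
    {z : V} (hz : z ∈ Z) (hG : ρ (ρ z) ∉ Z) {y : V} (hy : y ∈ X.erase (ρ z)) (hy' : ρ y ∉ Z)
    (h1 : ρ y ≠ y) (h2 : ρ (ρ y) ∉ Z) :
    stp (ρ z) y ρ (stp (ρ z) y ρ z) ∉ Z := by
  obtain ⟨hyx, hyX⟩ := mem_erase.1 hy
  have hx : ρ z ∈ X := A7a_mem hS hQ hz
  have hzx : z ≠ ρ z := fun e => disjoint_left.1 hXZ hx (e ▸ hz)
  have hzy : z ≠ y := fun e => disjoint_left.1 hXZ hyX (e ▸ hz)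
  rw [stp_apply hyx.symm hzx hzy, if_pos rfl, if_neg h1,
    stp_apply hyx.symm (fun e => hzy (ρ.injective e).symm) h1,
    if_neg (fun e => hy' (by rw [ρ.injective e]; exact hz))]
  split_ifs with h3 h4
  · exact absurd (ρ.injective h4).symm hzx
  · exact hG
  · exact h2

end Pool.Agent.Stirring.HP
end

section

/-! A9a: the two inequalities for one step. -/

open Finset

namespace Pool.Agent.Stirring.HP

variable {V : Type} [Fintype V] [DecidableEq V]

/-- Let `x = ρ z`, `R = 2 M + 1 = |X.erase x|`, `U = UZ Z F`. By `AM_stp`, `AM F ρ X - U` is the mean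
over the `R` points `y ∈ X.erase x` of `AM F (stp x y ρ) (rmv X x y) - U`.

Hits: `y = ρ.symm j`, `j ∈ Z` (`k = |Z|` points of `X.erase x`, `hits_subset`, `hits_card`). By
`hit_val` and `AM_glue` the term is `AM (glue z j F) (del z (stp x y ρ)) (rmv X x y) - U`; by `UZ_rec`
`∑_{j ∈ Z} (UZ (Z.erase z) (glue z j F) - U) = 0`, so the sum over the hits is at most `k * e1` in
absolute value.

Misses: the other `R - k` points, those with `ρ y ∉ Z`. If `y` is special (`y = ρ (ρ x)`,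
`y = ρ (ρ (ρ x))` or `ρ (ρ y) = z`; at most `3` points) the term is `≤ e4 = e2 + (e4 - e2)`. If `y` is
not special and `ρ y = y` or `ρ (ρ y) ∈ Z` (at most `phi X ρ + k` points of `X`) it is
`≤ e3 = e2 + (e3 - e2)`. Otherwise it is `≤ e2`. -/
theorem G_step {X Z : Finset V} {M : ℕ} {F : Equiv.Perm V → ℝ} {ρ : Equiv.Perm V} {z : V}
    (hXZ : Disjoint X Z) (hX : X.card = 2 * (M + 1)) (hS : SuppIn (X ∪ Z) ρ) (hI : Inv X Z F)
    (hQ : Q1 Z ρ) (hz : z ∈ Z) (hG : ρ (ρ z) ∉ Z) {e1 e2 e3 e4 : ℝ}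
    (h23 : e2 ≤ e3) (h24 : e2 ≤ e4)
    (H1 : ∀ j ∈ Z, |AM (glue z j F) (del z (stp (ρ z) (ρ.symm j) ρ)) (rmv X (ρ z) (ρ.symm j)) -
      UZ (Z.erase z) (glue z j F)| ≤ e1)
    (H2 : ∀ y ∈ X.erase (ρ z), ρ y ∉ Z → ρ y ≠ y → ρ (ρ y) ∉ Z → y ≠ ρ (ρ (ρ z)) →
      y ≠ ρ (ρ (ρ (ρ z))) → |AM F (stp (ρ z) y ρ) (rmv X (ρ z) y) - UZ Z F| ≤ e2)
    (H3 : ∀ y ∈ X.erase (ρ z), ρ y ∉ Z → y ≠ ρ (ρ (ρ z)) → y ≠ ρ (ρ (ρ (ρ z))) → ρ (ρ y) ≠ z →
      |AM F (stp (ρ z) y ρ) (rmv X (ρ z) y) - UZ Z F| ≤ e3)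
    (H4 : ∀ y ∈ X.erase (ρ z), ρ y ∉ Z →
      |AM F (stp (ρ z) y ρ) (rmv X (ρ z) y) - UZ Z F| ≤ e4) :
    |AM F ρ X - UZ Z F| ≤ (Z.card * e1 + (2 * M + 1 - Z.card) * e2 +
      (phi X ρ + Z.card) * (e3 - e2) + 3 * (e4 - e2)) / (2 * M + 1) := by
  have hx : ρ z ∈ X := rho_mem hS hQ hz
  have hEc : (X.erase (ρ z)).card = 2 * M + 1 := by
    rw [card_erase_of_mem hx, hX]
    omega
  have hR : (0 : ℝ) < 2 * M + 1 := by positivity
  have hHsub : Z.image ρ.symm ⊆ X.erase (ρ z) := hits_subset hS hQ hz hG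
  have hHc : (Z.image ρ.symm).card = Z.card := hits_card Z ρ
  have hk0 : (0 : ℝ) < Z.card := by exact_mod_cast card_pos.2 ⟨z, hz⟩
  have h1 : AM F ρ X - UZ Z F = (∑ y ∈ X.erase (ρ z),
      (AM F (stp (ρ z) y ρ) (rmv X (ρ z) y) - UZ Z F)) / (2 * M + 1) := by
    rw [AM_stp hX hx hI hS, sum_sub_distrib, sum_const, hEc, nsmul_eq_mul, sub_div]
    push_cast
    field_simp
  have h2 : |∑ y ∈ Z.image ρ.symm, (AM F (stp (ρ z) y ρ) (rmv X (ρ z) y) - UZ Z F)| ≤
      Z.card * e1 := by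
    rw [sum_image fun a _ b _ hab => ρ.symm.injective hab]
    have h3 : ∑ j ∈ Z, (AM F (stp (ρ z) (ρ.symm j) ρ) (rmv X (ρ z) (ρ.symm j)) - UZ Z F) =
        ∑ j ∈ Z, (AM (glue z j F) (del z (stp (ρ z) (ρ.symm j) ρ)) (rmv X (ρ z) (ρ.symm j)) -
          UZ (Z.erase z) (glue z j F)) := by
      have h4 : ∑ j ∈ Z, UZ Z F = ∑ j ∈ Z, UZ (Z.erase z) (glue z j F) := by
        rw [sum_const, nsmul_eq_mul, UZ_rec hz F]
        field_simp
      rw [sum_sub_distrib, sum_sub_distrib, h4]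
      congr 1
      refine sum_congr rfl fun j hj => ?_
      exact AM_glue (hit_val hXZ hS hQ hz hG hj) F
    rw [h3]
    calc _ ≤ ∑ j ∈ Z, |AM (glue z j F) (del z (stp (ρ z) (ρ.symm j) ρ))
          (rmv X (ρ z) (ρ.symm j)) - UZ (Z.erase z) (glue z j F)| := abs_sum_le_sum_abs _ _
      _ ≤ ∑ j ∈ Z, e1 := sum_le_sum H1
      _ = Z.card * e1 := by rw [sum_const, nsmul_eq_mul]
  let S3 : Finset V := (X.erase (ρ z)).filter fun y => ρ y = y ∨ ρ (ρ y) ∈ Z
  let S4 : Finset V := {ρ (ρ (ρ z)), ρ (ρ (ρ (ρ z))), ρ.symm (ρ.symm z)}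
  have hS3 : S3.card ≤ phi X ρ + Z.card := by
    have h5 : S3 ⊆ (X.filter fun y => ρ (ρ y) = y) ∪ (Z.image ρ.symm).image ρ.symm := by
      intro y hy
      rw [mem_filter] at hy
      rw [mem_union, mem_filter, mem_image]
      rcases hy.2 with h6 | h6
      · exact Or.inl ⟨(mem_erase.1 hy.1).2, by rw [h6, h6]⟩
      · refine Or.inr ⟨ρ y, mem_image.2 ⟨ρ (ρ y), h6, ρ.symm_apply_apply _⟩,
          ρ.symm_apply_apply _⟩
    refine (card_le_card h5).trans ((card_union_le _ _).trans ?_)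
    exact Nat.add_le_add_left (card_image_le.trans card_image_le) _
  have hS4 : S4.card ≤ 3 := card_le_three
  have h6 : |∑ y ∈ X.erase (ρ z) \ Z.image ρ.symm,
      (AM F (stp (ρ z) y ρ) (rmv X (ρ z) y) - UZ Z F)| ≤
      (2 * M + 1 - Z.card) * e2 + (phi X ρ + Z.card) * (e3 - e2) + 3 * (e4 - e2) := by
    calc _ ≤ ∑ y ∈ X.erase (ρ z) \ Z.image ρ.symm,
          |AM F (stp (ρ z) y ρ) (rmv X (ρ z) y) - UZ Z F| := abs_sum_le_sum_abs _ _
      _ ≤ ∑ y ∈ X.erase (ρ z) \ Z.image ρ.symm, (e2 + (if y ∈ S3 then (e3 - e2) else 0) +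
          (if y ∈ S4 then (e4 - e2) else 0)) := by
        refine sum_le_sum fun y hy => ?_
        rw [mem_sdiff] at hy
        have hyE := hy.1
        have hyZ : ρ y ∉ Z := fun h7 =>
          hy.2 (mem_image.2 ⟨ρ y, h7, ρ.symm_apply_apply _⟩)
        have hg3 : 0 ≤ (if y ∈ S3 then (e3 - e2) else 0) := by
          split_ifs
          · linarith
          · exact le_rfl
        have hg4 : 0 ≤ (if y ∈ S4 then (e4 - e2) else 0) := by
          split_ifs
          · linarith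
          · exact le_rfl
        by_cases h8 : y ∈ S4
        · have h9 := H4 y hyE hyZ
          rw [if_pos h8]
          linarith
        · have h10 : y ≠ ρ (ρ (ρ z)) ∧ y ≠ ρ (ρ (ρ (ρ z))) ∧ y ≠ ρ.symm (ρ.symm z) := by
            refine ⟨fun h => h8 ?_, fun h => h8 ?_, fun h => h8 ?_⟩
            · rw [h]; simp [S4]
            · rw [h]; simp [S4]
            · rw [h]; simp [S4]
          obtain ⟨ha, hb, hc⟩ := h10
          have hc' : ρ (ρ y) ≠ z := by
            intro h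
            apply hc
            rw [← h, ρ.symm_apply_apply, ρ.symm_apply_apply]
          by_cases h11 : y ∈ S3
          · have h12 := H3 y hyE hyZ ha hb hc'
            rw [if_pos h11]
            linarith
          · have h13 : ¬ (ρ y = y ∨ ρ (ρ y) ∈ Z) := fun h => h11 (mem_filter.2 ⟨hyE, h⟩)
            push Not at h13
            have h14 := H2 y hyE hyZ h13.1 h13.2 ha hb
            linarith
      _ = (2 * M + 1 - Z.card) * e2 +
          ((X.erase (ρ z) \ Z.image ρ.symm).filter (· ∈ S3)).card * (e3 - e2) +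
          ((X.erase (ρ z) \ Z.image ρ.symm).filter (· ∈ S4)).card * (e4 - e2) := by
        rw [sum_add_distrib, sum_add_distrib, sum_const, ← sum_filter, ← sum_filter, sum_const,
          sum_const, nsmul_eq_mul, nsmul_eq_mul, nsmul_eq_mul, card_sdiff_of_subset hHsub, hEc,
          hHc, Nat.cast_sub (by rw [← hEc, ← hHc]; exact card_le_card hHsub)]
        push_cast
        ring
      _ ≤ _ := by
        have h15 : (((X.erase (ρ z) \ Z.image ρ.symm).filter (· ∈ S3)).card : ℝ) ≤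
            phi X ρ + Z.card := by
          have : ((X.erase (ρ z) \ Z.image ρ.symm).filter (· ∈ S3)).card ≤ phi X ρ + Z.card :=
            (card_le_card fun y hy => (mem_filter.1 hy).2).trans hS3
          exact_mod_cast this
        have h16 : (((X.erase (ρ z) \ Z.image ρ.symm).filter (· ∈ S4)).card : ℝ) ≤ 3 := by
          have : ((X.erase (ρ z) \ Z.image ρ.symm).filter (· ∈ S4)).card ≤ 3 :=
            (card_le_card fun y hy => (mem_filter.1 hy).2).trans hS4
          exact_mod_cast this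
        have h17 := mul_le_mul_of_nonneg_right h15 (sub_nonneg.2 h23)
        have h18 := mul_le_mul_of_nonneg_right h16 (sub_nonneg.2 h24)
        linarith
  rw [h1, abs_div, abs_of_pos hR, div_le_div_iff_of_pos_right hR, ← sum_sdiff hHsub]
  refine (abs_add_le _ _).trans ?_
  linarith

end Pool.Agent.Stirring.HP
end

section

/-! A9b: the two inequalities for one step. -/

open Finset

namespace Pool.Agent.Stirring.HP

variable {V : Type} [Fintype V] [DecidableEq V]

/-- `AM_stp` at `x = ρ z`; the good `y` (see `Gd`) have a term `≤ e2`, the others (`card_not_good`) a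
term `≤ 2` (`AM_abs_le`, `UZ_abs_le`). -/
theorem H_step {X Z : Finset V} {M : ℕ} {F : Equiv.Perm V → ℝ} {ρ : Equiv.Perm V} {z : V}
    (hXZ : Disjoint X Z) (hX : X.card = 2 * (M + 1)) (hS : SuppIn (X ∪ Z) ρ) (hI : Inv X Z F)
    (hF : ∀ π, |F π| ≤ 1) (hQ : Q1 Z ρ) (hz : z ∈ Z) {e2 : ℝ} (he : 0 ≤ e2)
    (H2 : ∀ y ∈ X.erase (ρ z), Gd Z ρ z y →
      |AM F (stp (ρ z) y ρ) (rmv X (ρ z) y) - UZ Z F| ≤ e2) :
    |AM F ρ X - UZ Z F| ≤ e2 + 2 * (phi X ρ + 3 * Z.card + 2) / (2 * M + 1) := by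
  classical
  have hx : ρ z ∈ X := rho_mem hS hQ hz
  have hcard : (X.erase (ρ z)).card = 2 * M + 1 := by
    rw [Finset.card_erase_of_mem hx, hX]; omega
  have hR : (0 : ℝ) < 2 * (M : ℝ) + 1 := by positivity
  have hcardR : ((X.erase (ρ z)).card : ℝ) = 2 * (M : ℝ) + 1 := by
    rw [hcard]; push_cast; ring
  set T : V → ℝ := fun y => AM F (stp (ρ z) y ρ) (rmv X (ρ z) y) - UZ Z F with hT
  have hstep : AM F ρ X - UZ Z F = (∑ y ∈ X.erase (ρ z), T y) / (2 * M + 1) := by
    rw [AM_stp hX hx hI hS, hT, Finset.sum_sub_distrib, Finset.sum_const, nsmul_eq_mul, hcardR,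
      sub_div, mul_div_cancel_left₀ _ hR.ne']
  have hbound : ∀ y ∈ X.erase (ρ z), |T y| ≤ e2 + 2 * (if Gd Z ρ z y then (0 : ℝ) else 1) := by
    intro y hy
    by_cases hg : Gd Z ρ z y
    · rw [if_pos hg, mul_zero, add_zero]
      exact H2 y hy hg
    · rw [if_neg hg, mul_one]
      have h1 : |AM F (stp (ρ z) y ρ) (rmv X (ρ z) y)| ≤ 1 := AM_abs_le zero_le_one hF _ _
      have h2 : |UZ Z F| ≤ 1 := UZ_abs_le hF Z
      have h3 := abs_sub (AM F (stp (ρ z) y ρ) (rmv X (ρ z) y)) (UZ Z F)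
      have h4 : |T y| ≤ |AM F (stp (ρ z) y ρ) (rmv X (ρ z) y)| + |UZ Z F| := h3
      linarith
  have hsum : ∑ y ∈ X.erase (ρ z), (e2 + 2 * (if Gd Z ρ z y then (0 : ℝ) else 1)) ≤
      (2 * M + 1) * e2 + 2 * (phi X ρ + 3 * Z.card + 2) := by
    rw [Finset.sum_add_distrib, Finset.sum_const, nsmul_eq_mul, hcardR, ← Finset.mul_sum]
    have h5 : ∑ y ∈ X.erase (ρ z), (if Gd Z ρ z y then (0 : ℝ) else 1) =
        (((X.erase (ρ z)).filter fun y => ¬ Gd Z ρ z y).card : ℝ) := by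
      rw [Finset.card_filter, Nat.cast_sum]
      refine Finset.sum_congr rfl (fun y _ => ?_)
      by_cases hg : Gd Z ρ z y
      · simp [hg]
      · simp [hg]
    have h6 : ((((X.erase (ρ z)).filter fun y => ¬ Gd Z ρ z y).card : ℕ) : ℝ) ≤
        ((phi X ρ + 3 * Z.card + 2 : ℕ) : ℝ) := by
      exact_mod_cast card_not_good X Z ρ z
    rw [h5]
    push_cast at h6
    linarith
  rw [hstep, abs_div, abs_of_pos hR, div_le_iff₀ hR]
  calc |∑ y ∈ X.erase (ρ z), T y| ≤ ∑ y ∈ X.erase (ρ z), |T y| := Finset.abs_sum_le_sum_abs _ _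
    _ ≤ ∑ y ∈ X.erase (ρ z), (e2 + 2 * (if Gd Z ρ z y then (0 : ℝ) else 1)) :=
      Finset.sum_le_sum hbound
    _ ≤ (2 * M + 1) * e2 + 2 * (phi X ρ + 3 * Z.card + 2) := hsum
    _ = (e2 + 2 * (phi X ρ + 3 * Z.card + 2) / (2 * M + 1)) * (2 * M + 1) := by
      field_simp

end Pool.Agent.Stirring.HP
end

section

end

section

/-! A6b: the step at `x = ρ z`, when `y` is the predecessor of a point `j` of `Z`. -/

open Finset

namespace Pool.Agent.Stirring.HP

variable {V : Type} [Fintype V] [DecidableEq V]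

/-- The permutation `ρ'' = del z (stp x y ρ)` differs from `ρ` at most at `x`, `y`, `z` and at three
other points (the predecessors of `x`, `y` under `ρ` and of `z` under `stp x y ρ`; the predecessor of
`x` is `z`). If a point `p ≠ x, y` has period at most two under `ρ''` but not under `ρ`, then `p` or
`ρ'' p` is one of the (at most three) points `i ≠ x, y` at which `ρ''` and `ρ` differ; for each such
`i` there are at most two such `p`, namely `i` and `ρ''.symm i`. Hence at most `6` new points. (By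
computer: at most `3`.) -/
theorem hit_phi {X Z : Finset V} {ρ : Equiv.Perm V} (hXZ : Disjoint X Z)
    (hS : SuppIn (X ∪ Z) ρ) (hQ : Q1 Z ρ)
    {z : V} (hz : z ∈ Z) (hG : ρ (ρ z) ∉ Z) {j : V} (hj : j ∈ Z) :
    phi (rmv X (ρ z) (ρ.symm j)) (del z (stp (ρ z) (ρ.symm j) ρ)) ≤ phi X ρ + 6 := by
  have hx : ρ z ∈ X := rho_mem hS hQ hz
  have hy := mem_erase.1 (hits_subset hS hQ hz hG (mem_image_of_mem _ hj))
  have hxz : ρ z ≠ z := fun e => disjoint_left.1 hXZ hx (by rw [e]; exact hz)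
  have hyz : ρ.symm j ≠ z := fun e => disjoint_left.1 hXZ hy.2 (by rw [e]; exact hz)
  have hxy : ρ z ≠ ρ.symm j := hy.1.symm
  set x := ρ z with hxdef
  set y := ρ.symm j with hydef
  set ρ' := stp x y ρ with hρ'
  set ρ'' := del z ρ' with hρ''
  have ex : ρ'' x = x := by
    rw [hρ'', del_apply hxz, hρ', stp_left, if_neg hxz]
  have ey : ρ'' y = y := by
    rw [hρ'', del_apply hyz, hρ', stp_right, if_neg hyz]
  set D : Finset V := {z, ρ.symm y, ρ'.symm z} with hD
  have hDc : D.card ≤ 3 := card_le_three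
  have hne : ∀ i, i ≠ x → i ≠ y → i ∉ D → ρ'' i = ρ i := by
    intro i hix hiy hiD
    rw [hD] at hiD
    simp only [mem_insert, mem_singleton, not_or] at hiD
    obtain ⟨h1, h2, h3⟩ := hiD
    have h4 : ρ' i ≠ z := fun h => h3 (by rw [← h, ρ'.symm_apply_apply])
    have h5 : ρ i ≠ y := fun h => h2 (by rw [← h, ρ.symm_apply_apply])
    rw [hρ'', del_apply h1, if_neg h4, hρ', stp_apply hxy hix hiy,
      if_neg (fun h => h1 (ρ.injective h)), if_neg h5]
  have hsub : (rmv X x y).filter (fun p => ρ'' (ρ'' p) = p) ⊆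
      (X.filter fun p => ρ (ρ p) = p) ∪ (D ∪ D.image ρ''.symm) := by
    intro p hp
    rw [mem_filter, mem_erase, mem_erase] at hp
    obtain ⟨⟨hpy, hpx, hpX⟩, hpp⟩ := hp
    rw [mem_union, mem_union]
    by_cases h1 : p ∈ D
    · exact Or.inr (Or.inl h1)
    by_cases h2 : ρ'' p ∈ D
    · exact Or.inr (Or.inr (mem_image.2 ⟨ρ'' p, h2, ρ''.symm_apply_apply p⟩))
    left
    rw [mem_filter]
    refine ⟨hpX, ?_⟩
    have e1 := hne p hpx hpy h1
    have e2 := hne (ρ'' p) (fun h => hpx (ρ''.injective (h.trans ex.symm)))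
      (fun h => hpy (ρ''.injective (h.trans ey.symm))) h2
    rw [← e1, ← e2, hpp]
  calc phi (rmv X x y) ρ'' ≤ ((X.filter fun p => ρ (ρ p) = p) ∪ (D ∪ D.image ρ''.symm)).card :=
        card_le_card hsub
    _ ≤ (X.filter fun p => ρ (ρ p) = p).card + (D ∪ D.image ρ''.symm).card := card_union_le _ _
    _ ≤ phi X ρ + 6 := by
        have h1 := card_union_le D (D.image ρ''.symm)
        have h2 : (D.image ρ''.symm).card ≤ D.card := card_image_le
        unfold phi
        omega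

end Pool.Agent.Stirring.HP
end

section

end

section

/-! A7b: the step at `x = ρ z`, when `y` is not the predecessor of a point of `Z`. -/

open Finset

namespace Pool.Agent.Stirring.HP

variable {V : Type} [Fintype V] [DecidableEq V]

/-- `ρ' = stp x y ρ` differs from `ρ` at most at `x`, `y`, `z` and at the predecessor of `y`. If a
point `p ≠ x, y` has period at most two under `ρ'` but not under `ρ`, then `p` or `ρ' p` is one of the
(at most two) points `i ≠ x, y` at which `ρ'` and `ρ` differ; for each such `i` there are at most two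
such `p`, namely `i` and `ρ'.symm i`. Hence at most `4` new points. -/
theorem miss_phi4 {X Z : Finset V} {ρ : Equiv.Perm V} (hXZ : Disjoint X Z)
    (hS : SuppIn (X ∪ Z) ρ) (hQ : Q1 Z ρ)
    {z : V} (hz : z ∈ Z) {y : V} (hy : y ∈ X.erase (ρ z)) :
    phi (rmv X (ρ z) y) (stp (ρ z) y ρ) ≤ phi X ρ + 4 := by
  set x := ρ z with hx
  set σ := stp x y ρ with hσ
  have hyx : x ≠ y := (Finset.ne_of_mem_erase hy).symm
  have hsub : (rmv X x y).filter (fun p => σ (σ p) = p)
      ⊆ X.filter (fun p => ρ (ρ p) = p) ∪ {z, ρ.symm y, σ.symm z, σ.symm (ρ.symm y)} := by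
    intro p hp
    rw [Finset.mem_filter] at hp
    obtain ⟨hpX, hpp⟩ := hp
    have hpy : p ≠ y := Finset.ne_of_mem_erase hpX
    have hpX' := Finset.mem_of_mem_erase hpX
    have hpx : p ≠ x := Finset.ne_of_mem_erase hpX'
    have hpX'' := Finset.mem_of_mem_erase hpX'
    by_cases hD : p ∈ ({z, ρ.symm y, σ.symm z, σ.symm (ρ.symm y)} : Finset V)
    · exact Finset.mem_union_right _ hD
    · refine Finset.mem_union_left _ (Finset.mem_filter.2 ⟨hpX'', ?_⟩)
      simp only [Finset.mem_insert, Finset.mem_singleton, not_or] at hD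
      obtain ⟨h1, h2, h3, h4⟩ := hD
      have key : ∀ q, q ≠ x → q ≠ y → q ≠ z → q ≠ ρ.symm y → σ q = ρ q := by
        intro q hqx hqy hqz hqy'
        have e1 : ρ q ≠ x := fun h => hqz (ρ.injective h)
        have e2 : ρ q ≠ y := fun h => hqy' ((Equiv.symm_apply_eq ρ).2 h.symm).symm
        rw [hσ, stp_apply hyx hqx hqy, if_neg e1, if_neg e2]
      have k1 : σ p = ρ p := key p hpx hpy h1 h2
      have e1 : σ p ≠ x := by
        rw [k1]
        exact fun h => h1 (ρ.injective h)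
      have e2 : σ p ≠ y := by
        rw [k1]
        exact fun h => h2 ((Equiv.symm_apply_eq ρ).2 h.symm).symm
      have e3 : σ p ≠ z := fun h => h3 ((Equiv.symm_apply_eq σ).2 h.symm).symm
      have e4 : σ p ≠ ρ.symm y := fun h => h4 ((Equiv.symm_apply_eq σ).2 h.symm).symm
      have k2 : σ (σ p) = ρ (σ p) := key (σ p) e1 e2 e3 e4
      rw [← k1, ← k2]
      exact hpp
  unfold phi
  refine (Finset.card_le_card hsub).trans ((Finset.card_union_le _ _).trans ?_)
  exact Nat.add_le_add_left Finset.card_le_four _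

end Pool.Agent.Stirring.HP
end
end
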