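import Pool.Agent.Lib.MP_6c3d62_pr.Mg.G081
import Pool.Agent.Lib.MP_6c3d62_pr.Mg.G080
import Pool.Agent.Lib.MP_6c3d62_pr.Mg.G077
import Pool.Agent.Lib.MP_6c3d62_pr.Mg.G016
import Pool.Agent.Lib.MP_6c3d62_pr.Mg.G076
import Pool.Agent.Lib.MP_6c3d62_pr.Mg.G079

section

section

/-! A7c: the step at `x = ρ z`, when `y` is not the predecessor of a point of `Z`. -/

open Finset

namespace Pool.Agent.Stirring.HP

variable {V : Type} [Fintype V] [DecidableEq V]

/-- Let `x = ρ z`, `ρ' = stp x y ρ`, and let `p ∈ X`, `p ≠ x, y`, `ρ' (ρ' p) = p`.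

Case `ρ y ≠ y`. Claim: `ρ (ρ p) = p` (so `p ↦ p` is injective into the points counted by `phi X ρ`).
`p ≠ z`. If `ρ' p = ρ p` and `ρ' (ρ p) = ρ (ρ p)` this is clear. By `stp_apply` the only points `i`
with `ρ' i ≠ ρ i` (other than `x`, `y`) are `i = z`, where `ρ' z = ρ y`, and the point `i` with
`ρ i = y` if it is not `x`, where `ρ' i = ρ x`. If `ρ' p = z` then `p = ρ' z = ρ y` and
`ρ' (ρ y) = z`; either `ρ (ρ y) = z` (excluded), or `ρ (ρ y) = y` and `z = ρ' (ρ y) = ρ x`: then `ρ x = z`,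
i.e. `ρ (ρ z) = z ∈ Z` (excluded), or `ρ (ρ y) = x`, `ρ y = z` (excluded). If `ρ p = y`, `p ≠ z`: then
`ρ' p = ρ x`, and `p = ρ' (ρ x)`; if `ρ x = p` then `y = ρ (ρ x)` (excluded); otherwise `ρ' (ρ x)`
is `ρ (ρ x)` (then `y = ρ p = ρ (ρ (ρ x))`, excluded) unless `ρ (ρ x) = y` (excluded) or
`ρ (ρ x) = x` (`ρ x = z`, excluded). If `ρ' p = i` with `ρ i = y`, `i ≠ p`: then `p = ρ' i = ρ x`
and `ρ' (ρ x) = i`, as before.

Case `ρ y = y`. Then `ρ' z = ρ x` and `ρ'`, `ρ` agree at the other points `≠ x, y`. A point `p` as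
above with `ρ (ρ p) ≠ p` must be `p = ρ x` (with `ρ (ρ x) = z`), so there is at most one; and `y` is
counted by `phi X ρ` but is not in `rmv X x y`. -/
theorem miss_phi {X Z : Finset V} {ρ : Equiv.Perm V} (hXZ : Disjoint X Z)
    (hS : SuppIn (X ∪ Z) ρ) (hQ : Q1 Z ρ)
    {z : V} (hz : z ∈ Z) (hG : ρ (ρ z) ∉ Z) {y : V} (hy : y ∈ X.erase (ρ z)) (hy' : ρ y ∉ Z)
    (h1 : y ≠ ρ (ρ (ρ z))) (h2 : y ≠ ρ (ρ (ρ (ρ z)))) (h3 : ρ (ρ y) ≠ z) :
    phi (rmv X (ρ z) y) (stp (ρ z) y ρ) ≤ phi X ρ := by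
  have hyX : y ∈ X := Finset.mem_of_mem_erase hy
  have hyx : y ≠ ρ z := Finset.ne_of_mem_erase hy
  have hzX : z ∉ X := fun h => Finset.disjoint_left.mp hXZ h hz
  have hyZ : y ∉ Z := fun h => Finset.disjoint_left.mp hXZ hyX h
  have hρz : ρ z ∉ Z := hQ z hz
  have hzx : z ≠ ρ z := fun h => hρz (h ▸ hz)
  have hρx : ρ (ρ z) ≠ ρ z := fun h => hzx (ρ.injective h).symm
  have key : ∀ i, i ≠ ρ z → i ≠ y → i ≠ z → ρ i ≠ y → stp (ρ z) y ρ i = ρ i := by
    intro i hix hiy hiz hi
    rw [stp_apply hyx.symm hix hiy, if_neg (fun h => hiz (ρ.injective h)), if_neg hi]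
  have keyy : ∀ i, i ≠ ρ z → i ≠ y → ρ i = y → stp (ρ z) y ρ i = ρ (ρ z) := by
    intro i hix hiy hi
    rw [stp_apply hyx.symm hix hiy, if_neg (fun h => hyx (hi ▸ h)), if_pos hi, if_neg hρx]
  have hne : ∀ p, p ≠ ρ z → p ≠ y → stp (ρ z) y ρ (stp (ρ z) y ρ p) = p →
      stp (ρ z) y ρ p ≠ ρ z ∧ stp (ρ z) y ρ p ≠ y := by
    intro p hpx hpy hp
    refine ⟨fun h => ?_, fun h => ?_⟩
    · rw [h, stp_left] at hp; exact hpx hp.symm
    · rw [h, stp_right] at hp; exact hpy hp.symm
  have hzy : z ≠ y := fun h => hyZ (h ▸ hz)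
  by_cases hyy : ρ y = y
  · -- the case `ρ y = y`
    have hz' : stp (ρ z) y ρ z = ρ (ρ z) := by
      rw [stp_apply hyx.symm hzx hzy, if_pos rfl, if_pos hyy]
    have hsub : (rmv X (ρ z) y).filter (fun p => stp (ρ z) y ρ (stp (ρ z) y ρ p) = p) ⊆
        insert (ρ (ρ z)) ((X.filter (fun p => ρ (ρ p) = p)).erase y) := by
      intro p hp
      rw [Finset.mem_filter] at hp
      obtain ⟨hpm, hpp⟩ := hp
      have hpy : p ≠ y := Finset.ne_of_mem_erase hpm
      have hpx : p ≠ ρ z := Finset.ne_of_mem_erase (Finset.mem_of_mem_erase hpm)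
      have hpX : p ∈ X := Finset.mem_of_mem_erase (Finset.mem_of_mem_erase hpm)
      have hpz : p ≠ z := fun h => hzX (h ▸ hpX)
      have hpy' : ρ p ≠ y := fun h => hpy (ρ.injective (h.trans hyy.symm))
      obtain ⟨hq1, hq2⟩ := hne p hpx hpy hpp
      have hq : stp (ρ z) y ρ p = ρ p := key p hpx hpy hpz hpy'
      rw [hq] at hpp hq1 hq2
      rw [Finset.mem_insert, Finset.mem_erase, Finset.mem_filter]
      by_cases hqz : ρ p = z
      · left
        rw [hqz, hz'] at hpp
        exact hpp.symm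
      · right
        have hqy : ρ (ρ p) ≠ y := fun h => hq2 (ρ.injective (h.trans hyy.symm))
        rw [key (ρ p) hq1 hq2 hqz hqy] at hpp
        exact ⟨hpy, hpX, hpp⟩
    have hmem : y ∈ X.filter (fun p => ρ (ρ p) = p) := by
      rw [Finset.mem_filter]
      exact ⟨hyX, by rw [hyy, hyy]⟩
    calc phi (rmv X (ρ z) y) (stp (ρ z) y ρ)
        ≤ (insert (ρ (ρ z)) ((X.filter (fun p => ρ (ρ p) = p)).erase y)).card :=
          Finset.card_le_card hsub
      _ ≤ ((X.filter (fun p => ρ (ρ p) = p)).erase y).card + 1 := Finset.card_insert_le _ _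
      _ = phi X ρ := Finset.card_erase_add_one hmem
  · -- the case `ρ y ≠ y`
    have hz' : stp (ρ z) y ρ z = ρ y := by
      rw [stp_apply hyx.symm hzx hzy, if_pos rfl, if_neg hyy]
    refine Finset.card_le_card (fun p hp => ?_)
    rw [Finset.mem_filter] at hp ⊢
    obtain ⟨hpm, hpp⟩ := hp
    have hpy : p ≠ y := Finset.ne_of_mem_erase hpm
    have hpx : p ≠ ρ z := Finset.ne_of_mem_erase (Finset.mem_of_mem_erase hpm)
    have hpX : p ∈ X := Finset.mem_of_mem_erase (Finset.mem_of_mem_erase hpm)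
    have hpz : p ≠ z := fun h => hzX (h ▸ hpX)
    refine ⟨hpX, ?_⟩
    obtain ⟨hq1, hq2⟩ := hne p hpx hpy hpp
    by_cases hpy' : ρ p = y
    · exfalso
      have hq : stp (ρ z) y ρ p = ρ (ρ z) := keyy p hpx hpy hpy'
      rw [hq] at hpp hq1 hq2
      have hqz : ρ (ρ z) ≠ z := fun h => hG (h.symm ▸ hz)
      have hqy : ρ (ρ (ρ z)) ≠ y := fun h => h1 h.symm
      rw [key _ hq1 hq2 hqz hqy] at hpp
      apply h2
      rw [hpp, hpy']
    · have hq : stp (ρ z) y ρ p = ρ p := key p hpx hpy hpz hpy'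
      rw [hq] at hpp hq1 hq2
      by_cases hqz : ρ p = z
      · exfalso
        rw [hqz, hz'] at hpp
        exact h3 (by rw [hpp, hqz])
      · by_cases hqy : ρ (ρ p) = y
        · exfalso
          rw [keyy _ hq1 hq2 hqy] at hpp
          apply h2
          rw [hpp, hqy]
        · rw [key _ hq1 hq2 hqz hqy] at hpp
          exact hpp

end Pool.Agent.Stirring.HP
end

section

end

section

/-! The weighted sum of the counts. -/

open Finset

set_option linter.unusedSectionVars false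

namespace Pool.Agent.Stirring.Mono

variable {V : Type*} [Fintype V] [DecidableEq V]

private theorem S1_lin {G : Finset (Equiv.Perm V)} {T I F : Equiv.Perm V → ℝ}
    {A B : ℕ → Equiv.Perm V → ℝ} {a b : ℕ → ℝ} {k : ℕ}
    (h : ∀ σ ∈ G, T σ = -(k : ℝ) * I σ + ∑ j ∈ Finset.range k, a j * A j σ +
      ∑ j ∈ Finset.range k, b j * B j σ) :
    ∑ σ ∈ G, T σ * F σ = -(k : ℝ) * ∑ σ ∈ G, I σ * F σ +
      ∑ j ∈ Finset.range k, a j * ∑ σ ∈ G, A j σ * F σ +
      ∑ j ∈ Finset.range k, b j * ∑ σ ∈ G, B j σ * F σ := by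
  have h1 : ∀ (c : ℕ → ℝ) (X : ℕ → Equiv.Perm V → ℝ),
      ∑ σ ∈ G, (∑ j ∈ Finset.range k, c j * X j σ) * F σ =
        ∑ j ∈ Finset.range k, c j * ∑ σ ∈ G, X j σ * F σ := by
    intro c X
    simp only [Finset.sum_mul, Finset.mul_sum]
    rw [Finset.sum_comm]
    refine Finset.sum_congr rfl fun j _ => Finset.sum_congr rfl fun σ _ => ?_
    ring
  rw [← h1 a A, ← h1 b B, Finset.mul_sum, ← Finset.sum_add_distrib, ← Finset.sum_add_distrib]
  refine Finset.sum_congr rfl fun σ hσ => ?_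
  rw [h σ hσ]
  ring

private theorem S1_inv {G : Finset (Equiv.Perm V)} {x y : V}
    (hGs : ∀ σ ∈ G, σ * Equiv.swap x y ∈ G) {F : Equiv.Perm V → ℝ}
    (hF : ∀ σ, F (σ * Equiv.swap x y) = -F σ) (N : Equiv.Perm V → ℝ) :
    ∑ σ ∈ G, (N σ - N (σ * Equiv.swap x y)) * F σ = 2 * ∑ σ ∈ G, N σ * F σ := by
  have hinv : ∀ σ : Equiv.Perm V, σ * Equiv.swap x y * Equiv.swap x y = σ := by
    intro σ
    rw [mul_assoc, Equiv.swap_mul_self, mul_one]
  have h1 : ∑ σ ∈ G, N (σ * Equiv.swap x y) * F σ = -∑ σ ∈ G, N σ * F σ := by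
    rw [← Finset.sum_neg_distrib]
    refine Finset.sum_bij' (fun σ _ => σ * Equiv.swap x y) (fun σ _ => σ * Equiv.swap x y)
      (fun σ hσ => hGs σ hσ) (fun σ hσ => hGs σ hσ) (fun σ _ => hinv σ) (fun σ _ => hinv σ)
      fun σ _ => ?_
    rw [hF σ]
    ring
  simp only [sub_mul, Finset.sum_sub_distrib]
  rw [h1]
  ring

/-- TASK S1a. PROOF. `M = ∅` or `M = {x}`, `M' = ∅` or `M' = {y}` (`Finset.card_le_one_iff_subset_singleton`
or `Finset.card_le_one`, cases). If not both are nonempty the formula `formula_none`, `formula_left`,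
`formula_right` for every `σ ∈ G`, multiplied by `F σ` and summed over `σ ∈ G` (`Finset.mul_sum`,
`Finset.sum_comm`, `Finset.sum_add_distrib`) is the claim. If `M = {x}`, `M' = {y}` (`x ≠ y` by
`hdis`, `x, y ∈ U`), put `τ σ = σ * swap x y`. For any `N : Perm V → ℝ`:
`∑ σ ∈ G, (N σ - N (τ σ)) * F σ = 2 * ∑ σ ∈ G, N σ * F σ` (*), because `σ ↦ τ σ` is an involution of
`G` (`hGs`) and `F (τ σ) = -F σ` (`hF`), so `∑ N (τ σ) * F σ = -∑ N (τ σ) * F (τ σ) =
-∑ N σ * F σ` (`Finset.sum_nbij'` or `Finset.sum_bij'`). Multiply `formula_two` by `F σ`, sum over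
`σ ∈ G`, apply (*) to `N = tN .. k`, `N = iN U {x} {y} .. j`, `N = iN U {y} {x} .. j`, and divide by
`2`. -/
theorem main_sum {U M M' : Finset V} (hM : M ⊆ U) (hM' : M' ⊆ U) (hM1 : M.card ≤ 1)
    (hM1' : M'.card ≤ 1) (hdis : Disjoint M M') {G : Finset (Equiv.Perm V)}
    (hG : ∀ σ ∈ G, ∀ v ∈ U, σ v ∈ U)
    (hGs : ∀ σ ∈ G, ∀ x ∈ U, ∀ y ∈ U, σ * Equiv.swap x y ∈ G) {F : Equiv.Perm V → ℝ}
    (hF : AS (M ∪ M') F) (k : ℕ) :
    ∑ σ ∈ G, (tN U M M' σ k : ℝ) * F σ =
      -(k : ℝ) * ∑ σ ∈ G, (iN U M M' σ k : ℝ) * F σ +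
      ∑ j ∈ Finset.range k, ((U.card : ℝ) - k - j) * ∑ σ ∈ G, (iN U M M' σ j : ℝ) * F σ +
      ∑ j ∈ Finset.range k, ((k : ℝ) - j) * ∑ σ ∈ G, (iN U M' M σ j : ℝ) * F σ := by
  rcases Finset.eq_empty_or_nonempty M with rfl | hMn
  · rcases Finset.eq_empty_or_nonempty M' with rfl | hMn'
    · exact S1_lin (T := fun σ => (tN U ∅ ∅ σ k : ℝ)) (I := fun σ => (iN U ∅ ∅ σ k : ℝ))
        (A := fun j σ => (iN U ∅ ∅ σ j : ℝ)) (B := fun j σ => (iN U ∅ ∅ σ j : ℝ))
        (a := fun j => (U.card : ℝ) - k - j) (b := fun j => (k : ℝ) - j)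
        fun σ hσ => formula_none (hG σ hσ) k
    · obtain ⟨x, rfl⟩ := Finset.card_eq_one.1 (le_antisymm hM1' (Finset.card_pos.2 hMn'))
      exact S1_lin (T := fun σ => (tN U ∅ {x} σ k : ℝ)) (I := fun σ => (iN U ∅ {x} σ k : ℝ))
        (A := fun j σ => (iN U ∅ {x} σ j : ℝ)) (B := fun j σ => (iN U {x} ∅ σ j : ℝ))
        (a := fun j => (U.card : ℝ) - k - j) (b := fun j => (k : ℝ) - j)
        fun σ hσ => formula_right (hG σ hσ) (hM' (Finset.mem_singleton_self x)) k
  · obtain ⟨x, rfl⟩ := Finset.card_eq_one.1 (le_antisymm hM1 (Finset.card_pos.2 hMn))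
    have hx : x ∈ U := hM (Finset.mem_singleton_self x)
    rcases Finset.eq_empty_or_nonempty M' with rfl | hMn'
    · exact S1_lin (T := fun σ => (tN U {x} ∅ σ k : ℝ)) (I := fun σ => (iN U {x} ∅ σ k : ℝ))
        (A := fun j σ => (iN U {x} ∅ σ j : ℝ)) (B := fun j σ => (iN U ∅ {x} σ j : ℝ))
        (a := fun j => (U.card : ℝ) - k - j) (b := fun j => (k : ℝ) - j)
        fun σ hσ => formula_left (hG σ hσ) hx k
    · obtain ⟨y, rfl⟩ := Finset.card_eq_one.1 (le_antisymm hM1' (Finset.card_pos.2 hMn'))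
      have hy : y ∈ U := hM' (Finset.mem_singleton_self y)
      have hxy : x ≠ y := by
        intro h
        rw [h] at hdis
        exact Finset.disjoint_left.1 hdis (Finset.mem_singleton_self y)
          (Finset.mem_singleton_self y)
      have hF' : ∀ σ, F (σ * Equiv.swap x y) = -F σ := fun σ =>
        hF x (Finset.mem_union_left _ (Finset.mem_singleton_self x)) y
          (Finset.mem_union_right _ (Finset.mem_singleton_self y)) hxy σ
      have hinv : ∀ N : Equiv.Perm V → ℝ,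
          ∑ σ ∈ G, (N σ - N (σ * Equiv.swap x y)) * F σ = 2 * ∑ σ ∈ G, N σ * F σ :=
        fun N => S1_inv (fun σ hσ => hGs σ hσ x hx y hy) hF' N
      have h1 := S1_lin (G := G) (F := F)
        (T := fun σ => (tN U {x} {y} σ k : ℝ) - tN U {x} {y} (σ * Equiv.swap x y) k)
        (I := fun σ => (iN U {x} {y} σ k : ℝ) - iN U {x} {y} (σ * Equiv.swap x y) k)
        (A := fun j σ => (iN U {x} {y} σ j : ℝ) - iN U {x} {y} (σ * Equiv.swap x y) j)
        (B := fun j σ => (iN U {y} {x} σ j : ℝ) - iN U {y} {x} (σ * Equiv.swap x y) j)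
        (a := fun j => (U.card : ℝ) - k - j) (b := fun j => (k : ℝ) - j)
        fun σ hσ => formula_two (hG σ hσ) hx hy hxy k
      rw [hinv fun σ => (tN U {x} {y} σ k : ℝ), hinv fun σ => (iN U {x} {y} σ k : ℝ)] at h1
      have h2 : ∀ j, ∑ σ ∈ G, ((iN U {x} {y} σ j : ℝ) -
          iN U {x} {y} (σ * Equiv.swap x y) j) * F σ = 2 * ∑ σ ∈ G, (iN U {x} {y} σ j : ℝ) * F σ :=
        fun j => hinv fun σ => (iN U {x} {y} σ j : ℝ)
      have h3 : ∀ j, ∑ σ ∈ G, ((iN U {y} {x} σ j : ℝ) -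
          iN U {y} {x} (σ * Equiv.swap x y) j) * F σ = 2 * ∑ σ ∈ G, (iN U {y} {x} σ j : ℝ) * F σ :=
        fun j => hinv fun σ => (iN U {y} {x} σ j : ℝ)
      simp only [h2, h3] at h1
      have h4 : ∀ (c X : ℕ → ℝ), ∑ j ∈ Finset.range k, c j * (2 * X j) =
          2 * ∑ j ∈ Finset.range k, c j * X j := by
        intro c X
        rw [Finset.mul_sum]
        exact Finset.sum_congr rfl fun j _ => by ring
      rw [h4 (fun j => (U.card : ℝ) - k - j), h4 (fun j => (k : ℝ) - j)] at h1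
      linarith

end Pool.Agent.Stirring.Mono
end

section

/-! The inequality for a pair of colour classes. -/

open Finset

set_option linter.unusedSectionVars false

namespace Pool.Agent.Stirring.Mono

variable {V : Type*} [Fintype V] [DecidableEq V] {ι : Type*} [DecidableEq ι]

/-- TASK S2a. PROOF. `hF.2.2` (the property `NP`) applied to the colouring `rc c U S a b`.
Refinement: let `rc v = rc w`. If `v, w ∈ U` use `hβ`. If `v ∈ U`, `w ∉ U`: `rc v ∈ {a, b}` and
`rc w = c w ∉ {a, b}` by `hU`: impossible. If both are outside: `c v = c w`, use `hc`. Separation of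
the marks: `x, y ∈ Mk`, `rc x = rc y`. Both outside `U`: `hcM`. Mixed: impossible. Both in `U`: each
has `c = a` or `c = b` (`hU`). If `c x = c y` use `hcM`. If `c x = a`, `c y = b`: by `h1`, `h2` the
colours `rc x`, `rc y` are different (either `x ∈ S`, `y ∉ S`, or `x ∉ S`, `y ∈ S`), contradiction
with `a ≠ b`. Symmetric in the last case. -/
theorem fam_ys_nonpos {β : V → ι} {Mk : Finset V} {F : Equiv.Perm V → ℝ} (hF : Cone β Mk F)
    {c : V → V} (hc : ∀ v w, c v = c w → β v = β w)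
    (hcM : ∀ x ∈ Mk, ∀ y ∈ Mk, c x = c y → x = y) {a b : V} (hab : a ≠ b) {U S : Finset V}
    (hU : ∀ v, v ∈ U ↔ c v = a ∨ c v = b) (hβ : ∀ v ∈ U, ∀ w ∈ U, β v = β w)
    (h : (∀ m ∈ Mk, c m = a → m ∈ S) ∧ (∀ m ∈ Mk, c m = b → m ∉ S) ∨
      (∀ m ∈ Mk, c m = b → m ∈ S) ∧ (∀ m ∈ Mk, c m = a → m ∉ S)) :
    ys (rc c U S a b) F ≤ 0 := by
  have hin : ∀ v ∈ U, rc c U S a b v = if v ∈ S then a else b := by
    intro v hv
    unfold rc
    rw [if_pos hv]
  have hout : ∀ v, v ∉ U → rc c U S a b v = c v := by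
    intro v hv
    unfold rc
    rw [if_neg hv]
  have hmix : ∀ v w, v ∈ U → w ∉ U → rc c U S a b v ≠ rc c U S a b w := by
    intro v w hv hw h1
    rw [hin v hv, hout w hw] at h1
    have h2 := (hU w).not.mp hw
    push Not at h2
    by_cases h3 : v ∈ S
    · rw [if_pos h3] at h1
      exact h2.1 h1.symm
    · rw [if_neg h3] at h1
      exact h2.2 h1.symm
  refine hF.2.2 (rc c U S a b) ?_ ?_
  · intro v w hvw
    by_cases hv : v ∈ U
    · by_cases hw : w ∈ U
      · exact hβ v hv w hw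
      · exact absurd hvw (hmix v w hv hw)
    · by_cases hw : w ∈ U
      · exact absurd hvw.symm (hmix w v hw hv)
      · rw [hout v hv, hout w hw] at hvw
        exact hc v w hvw
  · have key : ∀ x ∈ Mk, ∀ y ∈ Mk, c x = a → c y = b →
        rc c U S a b x ≠ rc c U S a b y := by
      intro x hx y hy hxa hyb
      rw [hin x ((hU x).mpr (Or.inl hxa)), hin y ((hU y).mpr (Or.inr hyb))]
      rcases h with ⟨h1, h2⟩ | ⟨h1, h2⟩
      · rw [if_pos (h1 x hx hxa), if_neg (h2 y hy hyb)]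
        exact hab
      · rw [if_neg (h2 x hx hxa), if_pos (h1 y hy hyb)]
        exact hab.symm
    intro x hx y hy hxy
    by_cases hxU : x ∈ U
    · by_cases hyU : y ∈ U
      · rcases (hU x).mp hxU with hxa | hxb
        · rcases (hU y).mp hyU with hya | hyb
          · exact hcM x hx y hy (hxa.trans hya.symm)
          · exact absurd hxy (key x hx y hy hxa hyb)
        · rcases (hU y).mp hyU with hya | hyb
          · exact absurd hxy.symm (key y hy x hx hya hxb)
          · exact hcM x hx y hy (hxb.trans hyb.symm)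
      · exact absurd hxy (hmix x y hxU hyU)
    · by_cases hyU : y ∈ U
      · exact absurd hxy.symm (hmix y x hyU hxU)
      · rw [hout x hxU, hout y hyU] at hxy
        exact hcM x hx y hy hxy

end Pool.Agent.Stirring.Mono
end

section

/-! The inequality for a pair of colour classes. -/

open Finset

set_option linter.unusedSectionVars false

namespace Pool.Agent.Stirring.Mono

variable {V : Type*} [Fintype V] [DecidableEq V] {ι : Type*} [DecidableEq ι]

/-- TASK S2b. PROOF. Let `P`, `Q` be the two classes, `U = univ.filter (c · = a ∨ c · = b)`,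
`M = Mk.filter (c · = a)`, `M' = Mk.filter (c · = b)`, `k = P.card`, `n = U.card = P.card + Q.card`,
`c₀ = rc c U U a b`, `G = yg c₀`. All points of `U` have the same `β`: two points of colour `a` by
`hc`, two of colour `b` by `hc`, one of each by `hβ`. `rc c U P a b = c` and `U \ P = Q`, so the left
side is `cr c U P a b F`. `P ∈ fam U M M' k`. Let `N = (fam U M M' k).card > 0`. By `cr_inv` and
`sum_cr`: `N * LHS = ∑ S ∈ fam U M M' k, cr c U S a b F = ∑ σ ∈ G, tN U M M' σ k * F σ`. By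
`main_sum` (`M.card ≤ 1`, `M'.card ≤ 1` by `hcM`; `G` preserves `U` by `yg_rc_pres`, and
`σ * swap x y ∈ G` for `x, y ∈ U` because `c₀ x = c₀ y`; `AS (M ∪ M') F` from `AS Mk F`), this is
`-k * I k + ∑ j ∈ range k, (n - k - j) * I j + ∑ j ∈ range k, (k - j) * I' j` where by `sum_inv`
`I j = ∑ σ ∈ G, iN U M M' σ j * F σ = ∑ S ∈ fam U M M' j, ys (rc c U S a b) F ≤ 0` and
`I' j = ∑ S ∈ fam U M' M j, ys (rc c U S a b) F ≤ 0` (`fam_ys_nonpos`; for `S ∈ fam U M M' j`:
`M ⊆ S`, `M'` disjoint; for `S ∈ fam U M' M j` the second alternative), and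
`I k = N * ys c F` by `ys_inv` (compare every `S ∈ fam U M M' k` with `P`, and `rc c U P a b = c`).
The coefficients `n - k - j = Q.card - j ≥ 0`, `k - j ≥ 0` for `j < k ≤ Q.card`. So
`N * LHS ≤ -k * N * ys c F`; divide by `N`. -/
theorem pair_le {β : V → ι} {Mk : Finset V} {F : Equiv.Perm V → ℝ} (hF : Cone β Mk F)
    {c : V → V} (hc : ∀ v w, c v = c w → β v = β w)
    (hcM : ∀ x ∈ Mk, ∀ y ∈ Mk, c x = c y → x = y) {a b : V} (hab : a ≠ b)
    (hβ : ∀ v w, c v = a → c w = b → β v = β w)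
    (hle : (Finset.univ.filter fun v => c v = a).card ≤
      (Finset.univ.filter fun v => c v = b).card) :
    ∑ v ∈ Finset.univ.filter (fun v => c v = a), ∑ w ∈ Finset.univ.filter (fun w => c w = b),
        ys c (fun π => F (π * Equiv.swap v w)) ≤
      -((Finset.univ.filter fun v => c v = a).card : ℝ) * ys c F := by
  classical
  set P := Finset.univ.filter fun v => c v = a with hP
  set Q := Finset.univ.filter fun w => c w = b with hQ
  set U : Finset V := Finset.univ.filter fun v => c v = a ∨ c v = b with hUd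
  set M := Mk.filter fun v => c v = a with hMd
  set M' := Mk.filter fun v => c v = b with hMd'
  have hU : ∀ v, v ∈ U ↔ c v = a ∨ c v = b := by
    intro v
    rw [hUd, Finset.mem_filter]
    simp
  have hPm : ∀ v, v ∈ P ↔ c v = a := by
    intro v
    rw [hP, Finset.mem_filter]
    simp
  have hQm : ∀ v, v ∈ Q ↔ c v = b := by
    intro v
    rw [hQ, Finset.mem_filter]
    simp
  have hMm : ∀ v, v ∈ M ↔ v ∈ Mk ∧ c v = a := by
    intro v
    rw [hMd, Finset.mem_filter]
  have hMm' : ∀ v, v ∈ M' ↔ v ∈ Mk ∧ c v = b := by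
    intro v
    rw [hMd', Finset.mem_filter]
  have hPU : P ⊆ U := fun v hv => (hU v).mpr (Or.inl ((hPm v).mp hv))
  have hMU : M ⊆ U := fun v hv => (hU v).mpr (Or.inl ((hMm v).mp hv).2)
  have hMU' : M' ⊆ U := fun v hv => (hU v).mpr (Or.inr ((hMm' v).mp hv).2)
  have hUP : U \ P = Q := by
    ext v
    rw [Finset.mem_sdiff, hU, hPm, hQm]
    constructor
    · rintro ⟨h1 | h1, h2⟩
      · exact absurd h1 h2
      · exact h1
    · intro h
      exact ⟨Or.inr h, fun h2 => hab (h2.symm.trans h)⟩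
  have hrc : rc c U P a b = c := by
    funext v
    unfold rc
    by_cases hv : v ∈ U
    · rw [if_pos hv]
      by_cases hvP : v ∈ P
      · rw [if_pos hvP]
        exact ((hPm v).mp hvP).symm
      · rw [if_neg hvP]
        rcases (hU v).mp hv with h | h
        · exact absurd ((hPm v).mpr h) hvP
        · exact h.symm
    · rw [if_neg hv]
  have hβU : ∀ v ∈ U, ∀ w ∈ U, β v = β w := by
    intro v hv w hw
    rcases (hU v).mp hv with h1 | h1 <;> rcases (hU w).mp hw with h2 | h2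
    · exact hc v w (h1.trans h2.symm)
    · exact hβ v w h1 h2
    · exact (hβ w v h2 h1).symm
    · exact hc v w (h1.trans h2.symm)
  have hMkU : ∀ m ∈ Mk, m ∈ U → m ∈ M ∨ m ∈ M' := by
    intro m hm hmU
    rcases (hU m).mp hmU with h | h
    · exact Or.inl ((hMm m).mpr ⟨hm, h⟩)
    · exact Or.inr ((hMm' m).mpr ⟨hm, h⟩)
  have hPfam : P ∈ fam U M M' P.card := by
    rw [mem_fam]
    refine ⟨hPU, rfl, fun v hv => (hPm v).mpr ((hMm v).mp hv).2, ?_⟩
    rw [Finset.disjoint_left]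
    intro v hv hv2
    exact hab (((hPm v).mp hv2).symm.trans ((hMm' v).mp hv).2)
  have hcardU : (U.card : ℝ) = (P.card : ℝ) + (Q.card : ℝ) := by
    have h1 := Finset.card_sdiff_add_card_eq_card hPU
    rw [hUP] at h1
    rw [← h1]
    push_cast
    ring
  have hlhs : ∑ v ∈ P, ∑ w ∈ Q, ys c (fun π => F (π * Equiv.swap v w)) = cr c U P a b F := by
    unfold cr
    rw [hrc, hUP]
  have hM1 : M.card ≤ 1 := by
    rw [Finset.card_le_one]
    intro x hx y hy
    exact hcM x ((hMm x).mp hx).1 y ((hMm y).mp hy).1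
      (((hMm x).mp hx).2.trans ((hMm y).mp hy).2.symm)
  have hM1' : M'.card ≤ 1 := by
    rw [Finset.card_le_one]
    intro x hx y hy
    exact hcM x ((hMm' x).mp hx).1 y ((hMm' y).mp hy).1
      (((hMm' x).mp hx).2.trans ((hMm' y).mp hy).2.symm)
  have hdis : Disjoint M M' := by
    rw [Finset.disjoint_left]
    intro v hv hv2
    exact hab (((hMm v).mp hv).2.symm.trans ((hMm' v).mp hv2).2)
  have hG : ∀ σ ∈ yg (rc c U U a b), ∀ v ∈ U, σ v ∈ U := fun σ hσ => yg_rc_pres hU hσ
  have hcol : ∀ v ∈ U, rc c U U a b v = a := by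
    intro v hv
    unfold rc
    rw [if_pos hv, if_pos hv]
  have hGs : ∀ σ ∈ yg (rc c U U a b), ∀ x ∈ U, ∀ y ∈ U,
      σ * Equiv.swap x y ∈ yg (rc c U U a b) := by
    intro σ hσ x hx y hy
    rw [mem_yg] at hσ ⊢
    intro v
    rw [Equiv.Perm.mul_apply, hσ]
    by_cases h1 : v = x
    · rw [h1, Equiv.swap_apply_left, hcol y hy, hcol x hx]
    · by_cases h2 : v = y
      · rw [h2, Equiv.swap_apply_right, hcol y hy, hcol x hx]
      · rw [Equiv.swap_apply_of_ne_of_ne h1 h2]
  have hAS : AS (M ∪ M') F := by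
    intro x hx y hy hxy σ
    have hx' : x ∈ Mk := by
      rcases Finset.mem_union.mp hx with h | h
      · exact ((hMm x).mp h).1
      · exact ((hMm' x).mp h).1
    have hy' : y ∈ Mk := by
      rcases Finset.mem_union.mp hy with h | h
      · exact ((hMm y).mp h).1
      · exact ((hMm' y).mp h).1
    exact hF.2.1 x hx' y hy' hxy σ
  have hmain := main_sum hMU hMU' hM1 hM1' hdis hG hGs hAS P.card
  have h1 : ∑ S ∈ fam U M M' P.card, cr c U S a b F =
      ((fam U M M' P.card).card : ℝ) * cr c U P a b F := by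
    rw [Finset.sum_congr rfl fun S hS => cr_inv hF.1 hβU hMkU hS hPfam c a b, Finset.sum_const,
      nsmul_eq_mul]
  have h2 : ∑ S ∈ fam U M M' P.card, ys (rc c U S a b) F =
      ((fam U M M' P.card).card : ℝ) * ys c F := by
    rw [Finset.sum_congr rfl fun S hS => ys_inv hF.1 hβU hMkU hS hPfam c a b, Finset.sum_const,
      nsmul_eq_mul, hrc]
  rw [sum_cr hab hU M M' P.card F] at h1
  rw [sum_inv hab hU M M' P.card F] at h2
  rw [h1, h2] at hmain
  have hI : ∀ j, ∑ σ ∈ yg (rc c U U a b), (iN U M M' σ j : ℝ) * F σ ≤ 0 := by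
    intro j
    rw [← sum_inv hab hU M M' j F]
    refine Finset.sum_nonpos fun S hS => ?_
    have hS2 := mem_fam.mp hS
    refine fam_ys_nonpos hF hc hcM hab hU hβU (Or.inl ⟨?_, ?_⟩)
    · intro m hm hca
      exact hS2.2.2.1 ((hMm m).mpr ⟨hm, hca⟩)
    · intro m hm hcb
      exact Finset.disjoint_left.mp hS2.2.2.2 ((hMm' m).mpr ⟨hm, hcb⟩)
  have hI' : ∀ j, ∑ σ ∈ yg (rc c U U a b), (iN U M' M σ j : ℝ) * F σ ≤ 0 := by
    intro j
    rw [← sum_inv hab hU M' M j F]
    refine Finset.sum_nonpos fun S hS => ?_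
    have hS2 := mem_fam.mp hS
    refine fam_ys_nonpos hF hc hcM hab hU hβU (Or.inr ⟨?_, ?_⟩)
    · intro m hm hcb
      exact hS2.2.2.1 ((hMm' m).mpr ⟨hm, hcb⟩)
    · intro m hm hca
      exact Finset.disjoint_left.mp hS2.2.2.2 ((hMm m).mpr ⟨hm, hca⟩)
  have hleR : (P.card : ℝ) ≤ (Q.card : ℝ) := by exact_mod_cast hle
  have hs1 : ∑ j ∈ Finset.range P.card, ((U.card : ℝ) - P.card - j) *
      ∑ σ ∈ yg (rc c U U a b), (iN U M M' σ j : ℝ) * F σ ≤ 0 := by
    refine Finset.sum_nonpos fun j hj => ?_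
    have hj2 : (j : ℝ) < (P.card : ℝ) := by exact_mod_cast Finset.mem_range.mp hj
    refine mul_nonpos_of_nonneg_of_nonpos ?_ (hI j)
    rw [hcardU]
    linarith
  have hs2 : ∑ j ∈ Finset.range P.card, ((P.card : ℝ) - j) *
      ∑ σ ∈ yg (rc c U U a b), (iN U M' M σ j : ℝ) * F σ ≤ 0 := by
    refine Finset.sum_nonpos fun j hj => ?_
    have hj2 : (j : ℝ) < (P.card : ℝ) := by exact_mod_cast Finset.mem_range.mp hj
    exact mul_nonpos_of_nonneg_of_nonpos (by linarith) (hI' j)
  have hN : (0 : ℝ) < ((fam U M M' P.card).card : ℝ) := by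
    exact_mod_cast Finset.card_pos.mpr ⟨P, hPfam⟩
  have hfin : ((fam U M M' P.card).card : ℝ) * cr c U P a b F ≤
      ((fam U M M' P.card).card : ℝ) * (-(P.card : ℝ) * ys c F) := by
    have h3 : -(P.card : ℝ) * (((fam U M M' P.card).card : ℝ) * ys c F) =
        ((fam U M M' P.card).card : ℝ) * (-(P.card : ℝ) * ys c F) := by ring
    rw [hmain, h3]
    linarith
  rw [hlhs]
  exact le_of_mul_le_mul_left hfin hN

end Pool.Agent.Stirring.Mono
end

section

/-! One step keeps the sums nonpositive. -/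

open Finset

set_option linter.unusedSectionVars false

namespace Pool.Agent.Stirring.Mono

variable {V : Type*} [Fintype V] [DecidableEq V] {ι : Type*} [DecidableEq ι]

/-- Same colour: the transposition does not change the sum. -/
private theorem ys_swap {c : V → V} {v w : V} (h : c v = c w) (F : Equiv.Perm V → ℝ) :
    ys c (fun π => F (π * Equiv.swap v w)) = ys c F := by
  unfold ys
  have hs : ∀ x, c (Equiv.swap v w x) = c x := by
    intro x
    by_cases hx : x = v
    · rw [hx, Equiv.swap_apply_left, h]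
    · by_cases hx2 : x = w
      · rw [hx2, Equiv.swap_apply_right, h]
      · rw [Equiv.swap_apply_of_ne_of_ne hx hx2]
  refine Finset.sum_nbij' (fun π => π * Equiv.swap v w) (fun π => π * Equiv.swap v w)
    ?_ ?_ ?_ ?_ ?_
  · intro π hπ
    rw [mem_yg] at hπ ⊢
    intro x
    rw [Equiv.Perm.mul_apply, hπ, hs]
  · intro π hπ
    rw [mem_yg] at hπ ⊢
    intro x
    rw [Equiv.Perm.mul_apply, hπ, hs]
  · intro π _
    show π * Equiv.swap v w * Equiv.swap v w = π
    rw [mul_assoc, Equiv.swap_mul_self, mul_one]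
  · intro π _
    show π * Equiv.swap v w * Equiv.swap v w = π
    rw [mul_assoc, Equiv.swap_mul_self, mul_one]
  · intro π _
    rfl

/-- TASK S3. PROOF. Put `A v w = ys c (fun π => F (π * swap v w))`, `s = -(ys c F) ≥ 0` (`hF.2.2`),
`n = Fintype.card V`. The left side is `∑ v, ∑ w, ite` (`Fintype.sum_prod_type`), and grouping
by colours (`Finset.sum_fiberwise`, twice): `∑ a, ∑ b, D a b`,
`D a b = ∑ v ∈ univ.filter (c · = a), ∑ w ∈ univ.filter (c · = b),
(if β v = β w then r else 0) * A v w`.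
Claim: `D a b ≤ r * n * s` for all `a b`; the sum over the `n ^ 2` pairs gives the result.
Proof of the claim. (i) `a = b`: for `v, w` of the same colour, `β v = β w` by `hc` and
`A v w = ys c F`: `swap v w` preserves `c`, so `π ↦ π * swap v w` is a bijection of `yg c`
(`Finset.sum_nbij'`/`Equiv.sum_comp`); so every term is `r * ys c F ≤ 0` and
`D a a ≤ 0 ≤ r * n * s` (`Finset.sum_nonpos`). (ii) `a ≠ b` and there are no `v, w` with `c v = a`,
`c w = b`, `β v = β w`: all terms are `0`. (iii) `a ≠ b` and there are such `v₀, w₀`: then for all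
`v, w` with `c v = a`, `c w = b`: `β v = β v₀ = β w₀ = β w` by `hc`. So
`D a b = r * ∑ ∑ A v w`. If `#{c = a} ≤ #{c = b}`, `pair_le` gives `∑ ∑ A ≤ #{c = a} * s ≤ n * s`.
Otherwise `pair_le` with `a`, `b` exchanged, `swap v w = swap w v` (`Equiv.swap_comm`) and
`Finset.sum_comm` give `∑ ∑ A ≤ #{c = b} * s ≤ n * s`. -/
theorem step_np {β : V → ι} {Mk : Finset V} {F : Equiv.Perm V → ℝ} (hF : Cone β Mk F)
    {c : V → V} (hc : ∀ v w, c v = c w → β v = β w)
    (hcM : ∀ x ∈ Mk, ∀ y ∈ Mk, c x = c y → x = y) {r : ℝ} (hr : 0 ≤ r) :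
    ∑ p : V × V, (if β p.1 = β p.2 then r else 0) *
        ys c (fun π => F (π * Equiv.swap p.1 p.2)) ≤
      (Fintype.card V : ℝ) ^ 2 * (r * Fintype.card V * (-(ys c F))) := by
  have hs0 : ys c F ≤ 0 := hF.2.2 c hc hcM
  have hn0 : (0 : ℝ) ≤ (Fintype.card V : ℝ) := Nat.cast_nonneg _
  have hB0 : 0 ≤ r * Fintype.card V * (-(ys c F)) :=
    mul_nonneg (mul_nonneg hr hn0) (by linarith)
  have hcard : ∀ a : V, ((Finset.univ.filter fun v => c v = a).card : ℝ) ≤ Fintype.card V := by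
    intro a
    exact_mod_cast Finset.card_le_univ _
  -- the claim for a pair of colours
  have hD : ∀ a b : V, ∑ v ∈ Finset.univ.filter (fun v => c v = a),
      ∑ w ∈ Finset.univ.filter (fun w => c w = b),
        (if β v = β w then r else 0) * ys c (fun π => F (π * Equiv.swap v w)) ≤
      r * Fintype.card V * (-(ys c F)) := by
    intro a b
    by_cases hab : a = b
    · subst hab
      refine le_trans (Finset.sum_nonpos fun v hv => Finset.sum_nonpos fun w hw => ?_) hB0
      rw [Finset.mem_filter] at hv hw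
      have hvw : c v = c w := by rw [hv.2, hw.2]
      rw [if_pos (hc v w hvw), ys_swap hvw]
      exact mul_nonpos_of_nonneg_of_nonpos hr hs0
    · by_cases hex : ∃ v w, c v = a ∧ c w = b ∧ β v = β w
      · obtain ⟨v₀, w₀, hv₀, hw₀, hβ₀⟩ := hex
        have hβ : ∀ v w, c v = a → c w = b → β v = β w := by
          intro v w hv hw
          rw [hc v v₀ (by rw [hv, hv₀]), hβ₀, hc w₀ w (by rw [hw, hw₀])]
        have h1 : ∑ v ∈ Finset.univ.filter (fun v => c v = a),
            ∑ w ∈ Finset.univ.filter (fun w => c w = b),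
              (if β v = β w then r else 0) * ys c (fun π => F (π * Equiv.swap v w)) =
            r * ∑ v ∈ Finset.univ.filter (fun v => c v = a),
              ∑ w ∈ Finset.univ.filter (fun w => c w = b),
                ys c (fun π => F (π * Equiv.swap v w)) := by
          rw [Finset.mul_sum]
          refine Finset.sum_congr rfl fun v hv => ?_
          rw [Finset.mul_sum]
          refine Finset.sum_congr rfl fun w hw => ?_
          rw [Finset.mem_filter] at hv hw
          rw [if_pos (hβ v w hv.2 hw.2)]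
        have h2 : ∑ v ∈ Finset.univ.filter (fun v => c v = a),
              ∑ w ∈ Finset.univ.filter (fun w => c w = b),
                ys c (fun π => F (π * Equiv.swap v w)) ≤ Fintype.card V * (-(ys c F)) := by
          by_cases hle : (Finset.univ.filter fun v => c v = a).card ≤
              (Finset.univ.filter fun v => c v = b).card
          · refine le_trans (pair_le hF hc hcM hab hβ hle) ?_
            have h3 := mul_le_mul_of_nonneg_right (hcard a)
              (by linarith : (0 : ℝ) ≤ -(ys c F))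
            linarith
          · have hle' : (Finset.univ.filter fun v => c v = b).card ≤
              (Finset.univ.filter fun v => c v = a).card := by omega
            have h3 := pair_le hF hc hcM (Ne.symm hab)
              (fun v w hv hw => (hβ w v hw hv).symm) hle'
            rw [Finset.sum_comm]
            have h4 : ∑ w ∈ Finset.univ.filter (fun w => c w = b),
                ∑ v ∈ Finset.univ.filter (fun v => c v = a),
                  ys c (fun π => F (π * Equiv.swap v w)) =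
                ∑ v ∈ Finset.univ.filter (fun v => c v = b),
                  ∑ w ∈ Finset.univ.filter (fun w => c w = a),
                    ys c (fun π => F (π * Equiv.swap v w)) := by
              refine Finset.sum_congr rfl fun w _ => Finset.sum_congr rfl fun v _ => ?_
              rw [Equiv.swap_comm]
            rw [h4]
            refine le_trans h3 ?_
            have h5 := mul_le_mul_of_nonneg_right (hcard b)
              (by linarith : (0 : ℝ) ≤ -(ys c F))
            linarith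
        rw [h1, mul_assoc]
        exact mul_le_mul_of_nonneg_left h2 hr
      · refine le_trans (le_of_eq (Finset.sum_eq_zero fun v hv =>
          Finset.sum_eq_zero fun w hw => ?_)) hB0
        rw [Finset.mem_filter] at hv hw
        rw [if_neg (fun h => hex ⟨v, w, hv.2, hw.2, h⟩), zero_mul]
  -- the sum is grouped by the colours
  have hL : ∑ p : V × V, (if β p.1 = β p.2 then r else 0) *
        ys c (fun π => F (π * Equiv.swap p.1 p.2)) =
      ∑ a : V, ∑ b : V, ∑ v ∈ Finset.univ.filter (fun v => c v = a),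
        ∑ w ∈ Finset.univ.filter (fun w => c w = b),
          (if β v = β w then r else 0) * ys c (fun π => F (π * Equiv.swap v w)) := by
    rw [Fintype.sum_prod_type]
    rw [← Finset.sum_fiberwise Finset.univ c]
    refine Finset.sum_congr rfl fun a _ => ?_
    symm
    rw [Finset.sum_comm]
    refine Finset.sum_congr rfl fun v _ => ?_
    exact Finset.sum_fiberwise Finset.univ c (fun w => (if β v = β w then r else 0) *
      ys c (fun π => F (π * Equiv.swap v w)))
  rw [hL]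
  have h6 : ∑ a : V, ∑ b : V, ∑ v ∈ Finset.univ.filter (fun v => c v = a),
        ∑ w ∈ Finset.univ.filter (fun w => c w = b),
          (if β v = β w then r else 0) * ys c (fun π => F (π * Equiv.swap v w)) ≤
      ∑ _a : V, ∑ _b : V, r * Fintype.card V * (-(ys c F)) :=
    Finset.sum_le_sum fun a _ => Finset.sum_le_sum fun b _ => hD a b
  refine le_trans h6 (le_of_eq ?_)
  rw [Finset.sum_const, Finset.sum_const, Finset.card_univ, nsmul_eq_mul, nsmul_eq_mul]
  ring

end Pool.Agent.Stirring.Mono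
end

section

/-! The cone is kept by the random walk. -/

open Finset Pool.Agent.Stirring.Hier

set_option linter.unusedSectionVars false

namespace Pool.Agent.Stirring.Mono

variable {V : Type*} [Fintype V] [DecidableEq V] {ι κ : Type*} [DecidableEq ι] [DecidableEq κ]

/-- Adding the rate `C` on the diagonal. -/
noncomputable def lazyRate (q : V × V → ℝ) (C : ℝ) : V × V → ℝ :=
  fun p => q p + if p.1 = p.2 then C else 0

/-- TASK S5a. PROOF. `gen_apply`: the additional terms are `C * (F (σ * swap v v) - F σ) = 0`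
(`Equiv.swap_self`). So `gen (lazyRate q C) = gen q` (`ContinuousLinearMap.ext`, `funext`), and `sg`
is defined from `gen`. -/
theorem sg_lazy (q : V × V → ℝ) (C t : ℝ) : sg (lazyRate q C) t = sg q t := by
  have h : gen (lazyRate q C) = gen q := by
    refine ContinuousLinearMap.ext fun F => ?_
    funext σ
    rw [gen_apply, gen_apply]
    refine Finset.sum_congr rfl fun p _ => ?_
    unfold lazyRate
    by_cases hp : p.1 = p.2
    · have h1 : σ * Equiv.swap p.1 p.2 = σ := by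
        rw [hp, Equiv.swap_self]
        exact mul_one σ
      rw [h1, sub_self, mul_zero, mul_zero]
    · rw [if_neg hp, add_zero]
  unfold sg
  rw [h]

/-- TASK S5b. PROOF. For `g` preserving `β`: `brate β n γ (g u, g v) = brate β n γ (u, v)` (unfold,
`β (g u) = β u`), and `g u = g v ↔ u = v`. -/
theorem lazy_conj (β : V → ι) (n : ℕ) (γ C : ℝ) (g : Equiv.Perm V) (hg : ∀ v, β (g v) = β v)
    (p : V × V) : lazyRate (brate β n γ) C (g p.1, g p.2) = lazyRate (brate β n γ) C p := by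
  unfold lazyRate brate
  simp only [hg, EmbeddingLike.apply_eq_iff_eq]

/-- TASK S5c. PROOF. Put `q = lazyRate (brate β n γ) C`, `r = γ / n ^ 2 ≥ 0`, `m = card V`,
`C = m * r * m ...` as in the hypothesis. `CI`, `AS`: `CI_step`, `AS_step` with `lazy_conj`
(`swap x y` preserves `β` for marks `x, y` by `hMk`: `Equiv.swap_apply_def`, cases). `NP`: for `c` as in
the definition, `ys c (stepT q F) = ∑ p, q p * ys c (fun π => F (π * swap p.1 p.2))`
(`Finset.sum_comm`, `Finset.mul_sum`) `= ∑ p, brate p * ys c (..) + ∑ v, C * ys c F`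
(`swap v v = 1`; `Fintype.sum_prod_type`, the diagonal) `≤ m ^ 2 * (r * m * s) - C * m * s ≤ 0` where
`s = -(ys c F) ≥ 0`, by `step_np` and `hC : m ^ 2 * r ≤ C`. -/
theorem cone_step {β : V → ι} {Mk : Finset V} {F : Fn V} (hF : Cone β Mk F)
    (hMk : ∀ x ∈ Mk, ∀ y ∈ Mk, β x = β y) (n : ℕ) {γ : ℝ} (hγ : 0 ≤ γ) {C : ℝ}
    (hC : (Fintype.card V : ℝ) ^ 2 * (γ / (n : ℝ) ^ 2) ≤ C) :
    Cone β Mk (stepT (lazyRate (brate β n γ) C) F) := by
  have hq : ∀ g : Equiv.Perm V, (∀ v, β (g v) = β v) → ∀ p : V × V,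
      lazyRate (brate β n γ) C (g p.1, g p.2) = lazyRate (brate β n γ) C p :=
    fun g hg p => lazy_conj β n γ C g hg p
  refine ⟨CI_step hF.1 hq, AS_step hF.2.1 (fun x hx y hy p => hq (Equiv.swap x y) ?_ p), ?_⟩
  · intro v
    have hxy := hMk x hx y hy
    rw [Equiv.swap_apply_def]
    split_ifs with h1 h2
    · rw [h1, hxy]
    · rw [h2, hxy]
    · rfl
  · intro c hc hcM
    have hr : 0 ≤ γ / (n : ℝ) ^ 2 := by positivity
    have key := step_np hF hc hcM hr
    have hs : ys c F ≤ 0 := hF.2.2 c hc hcM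
    have h1 : ys c (stepT (lazyRate (brate β n γ) C) F) =
        ∑ p : V × V, lazyRate (brate β n γ) C p *
          ys c (fun π => F (π * Equiv.swap p.1 p.2)) := by
      unfold ys
      simp only [stepT_apply]
      rw [Finset.sum_comm]
      refine Finset.sum_congr rfl fun p _ => ?_
      rw [Finset.mul_sum]
    have h2 : ∑ p : V × V, lazyRate (brate β n γ) C p *
          ys c (fun π => F (π * Equiv.swap p.1 p.2)) =
        ∑ p : V × V, (if β p.1 = β p.2 then γ / (n : ℝ) ^ 2 else 0) *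
          ys c (fun π => F (π * Equiv.swap p.1 p.2)) +
        ∑ p : V × V, (if p.1 = p.2 then C else 0) *
          ys c (fun π => F (π * Equiv.swap p.1 p.2)) := by
      rw [← Finset.sum_add_distrib]
      refine Finset.sum_congr rfl fun p _ => ?_
      unfold lazyRate brate
      rw [add_mul]
    have h3 : ∑ p : V × V, (if p.1 = p.2 then C else 0) *
          ys c (fun π => F (π * Equiv.swap p.1 p.2)) = (Fintype.card V : ℝ) * (C * ys c F) := by
      rw [Fintype.sum_prod_type]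
      have h4 : ∀ v : V, ∑ w : V, (if v = w then C else 0) *
          ys c (fun π => F (π * Equiv.swap v w)) = C * ys c F := by
        intro v
        rw [Finset.sum_eq_single v]
        · rw [if_pos rfl]
          have h5 : (fun π : Equiv.Perm V => F (π * Equiv.swap v v)) = F := by
            funext π
            rw [Equiv.swap_self]
            exact congrArg F (mul_one π)
          rw [h5]
        · intro w _ hw
          rw [if_neg (Ne.symm hw), zero_mul]
        · intro h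
          exact absurd (Finset.mem_univ v) h
      rw [Finset.sum_congr rfl fun v _ => h4 v, Finset.sum_const, Finset.card_univ, nsmul_eq_mul]
    rw [h1, h2, h3]
    have hm : (0 : ℝ) ≤ Fintype.card V := Nat.cast_nonneg _
    have h6 : 0 ≤ (Fintype.card V : ℝ) * (-(ys c F)) := mul_nonneg hm (by linarith)
    have h7 := mul_le_mul_of_nonneg_right hC h6
    nlinarith [key, h7]

end Pool.Agent.Stirring.Mono
end

section

/-! The cone is kept by the semigroup. -/

open Finset Pool.Agent.Stirring.Hier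

set_option linter.unusedSectionVars false

namespace Pool.Agent.Stirring.Mono

variable {V : Type*} [Fintype V] [DecidableEq V] {ι κ : Type*} [DecidableEq ι] [DecidableEq κ]

/-- TASK S5d. PROOF. `CI_sg`, `AS_sg` (for `q = brate β n γ`, or for `lazyRate ..` and `sg_lazy`), and for
`NP`: with `C = m ^ 2 * (γ / n ^ 2)` and `q = lazyRate (brate β n γ) C`, all `(stepT q ^ k) F` are in
the cone by induction (`cone_step`, `pow_succ'`). `sg_lazy`, and `sg_hasSum q t F π` summed over
`π ∈ yg c` (`hasSum_sum`): `ys c (sg q t F)` is the sum over `k` of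
`exp (-(t * tot q)) * (t ^ k / k! * ys c ((stepT q ^ k) F)) ≤ 0`: `HasSum.nonpos`-type lemma
(`hasSum_le` against `hasSum_zero`). -/
theorem cone_sg {β : V → ι} {Mk : Finset V} {F : Fn V} (hF : Cone β Mk F)
    (hMk : ∀ x ∈ Mk, ∀ y ∈ Mk, β x = β y) (n : ℕ) {γ : ℝ} (hγ : 0 ≤ γ) {t : ℝ} (ht : 0 ≤ t) :
    Cone β Mk (sg (brate β n γ) t F) := by
  have hq : ∀ g : Equiv.Perm V, (∀ v, β (g v) = β v) → ∀ p : V × V,
      brate β n γ (g p.1, g p.2) = brate β n γ p := by
    intro g hg p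
    unfold brate
    simp only [hg]
  have hk : ∀ k : ℕ, Cone β Mk ((stepT (lazyRate (brate β n γ)
      ((Fintype.card V : ℝ) ^ 2 * (γ / (n : ℝ) ^ 2))) ^ k) F) := by
    intro k
    induction k with
    | zero => rw [pow_zero]; exact hF
    | succ k ih => rw [pow_succ']; exact cone_step ih hMk n hγ le_rfl
  refine ⟨CI_sg hF.1 hq t, AS_sg hF.2.1 (fun x hx y hy p => hq (Equiv.swap x y) ?_ p) t, ?_⟩
  · intro v
    have hxy := hMk x hx y hy
    rw [Equiv.swap_apply_def]
    split_ifs with h1 h2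
    · rw [h1, hxy]
    · rw [h2, hxy]
    · rfl
  · intro c hc hcM
    rw [← sg_lazy (brate β n γ) ((Fintype.card V : ℝ) ^ 2 * (γ / (n : ℝ) ^ 2)) t]
    have h1 : HasSum (fun k : ℕ => ∑ π ∈ yg c,
        Real.exp (-(t * tot (lazyRate (brate β n γ)
          ((Fintype.card V : ℝ) ^ 2 * (γ / (n : ℝ) ^ 2))))) * (t ^ k / k.factorial *
          ((stepT (lazyRate (brate β n γ)
            ((Fintype.card V : ℝ) ^ 2 * (γ / (n : ℝ) ^ 2))) ^ k) F π)))
        (∑ π ∈ yg c, sg (lazyRate (brate β n γ)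
          ((Fintype.card V : ℝ) ^ 2 * (γ / (n : ℝ) ^ 2))) t F π) :=
      hasSum_sum fun π _ => sg_hasSum _ t F π
    refine hasSum_le (fun k => ?_) h1 hasSum_zero
    rw [← Finset.mul_sum, ← Finset.mul_sum]
    have h2 := (hk k).2.2 c hc hcM
    unfold ys at h2
    have h3 : (0 : ℝ) ≤ t ^ k / k.factorial := by positivity
    exact mul_nonpos_of_nonneg_of_nonpos (Real.exp_pos _).le
      (mul_nonpos_of_nonneg_of_nonpos h3 h2)

/-- TASK S5e. PROOF. `CI`: a permutation preserving `β` preserves `β'` by `h` (`β (g v) = β v` gives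
`β' (g v) = β' v`). `AS`: the same. `NP`: a colouring finer than `β` is finer than `β'`. -/
theorem cone_refine {β : V → ι} {β' : V → κ} (h : ∀ v w, β v = β w → β' v = β' w)
    {Mk : Finset V} {F : Fn V} (hF : Cone β' Mk F) : Cone β Mk F :=
  ⟨fun g hg hm σ => hF.1 g (fun v => h _ _ (hg v)) hm σ, hF.2.1,
    fun c hc hcM => hF.2.2 c (fun v w hvw => h v w (hc v w hvw)) hcM⟩

/-- TASK S5f. PROOF. Let `H σ = ∑ p, brate β n γ p * Fp p σ`. `CI` is `hcov`; `AS ∅` is trivial.
`NP`: `c` finer than `β`. `ys c H = ∑ p, brate p * ys c (Fp p)` (`Finset.sum_comm`,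
`Finset.mul_sum`). Each term is `≤ 0`: if `β p.1 ≠ β p.2` it is `0`. If `p.1 = p.2` it is `0` by
`hdiag`. If `p.1 ≠ p.2` and `c p.1 ≠ c p.2`: `ys c (Fp p) ≤ 0` by `NP` of `hcone` (marks
`{p.1, p.2}`, separated), `brate ≥ 0`. If `p.1 ≠ p.2` and `c p.1 = c p.2`: `swap p.1 p.2` preserves
`c`, so `ys c (Fp p) = ∑ π ∈ yg c, Fp p (π * swap p.1 p.2) = -ys c (Fp p)` by `AS`, so it is `0`. -/
theorem cone_pairs {β : V → ι} {n : ℕ} {γ : ℝ} (hγ : 0 ≤ γ) {Fp : V × V → Fn V}
    (hcone : ∀ p : V × V, β p.1 = β p.2 → Cone β {p.1, p.2} (Fp p))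
    (hdiag : ∀ v, Fp (v, v) = 0)
    (hcov : CI β ∅ fun σ => ∑ p : V × V, brate β n γ p * Fp p σ) :
    Cone β ∅ fun σ => ∑ p : V × V, brate β n γ p * Fp p σ := by
  refine ⟨hcov, fun x hx => absurd hx (Finset.notMem_empty x), ?_⟩
  intro c hc _
  have h1 : ys c (fun σ => ∑ p : V × V, brate β n γ p * Fp p σ) =
      ∑ p : V × V, brate β n γ p * ys c (Fp p) := by
    unfold ys
    rw [Finset.sum_comm]
    refine Finset.sum_congr rfl fun p _ => ?_
    rw [Finset.mul_sum]
  rw [h1]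
  refine Finset.sum_nonpos fun p _ => ?_
  by_cases hβ : β p.1 = β p.2
  · have hb := brate_nonneg (β := β) (n := n) hγ p
    by_cases hp : p.1 = p.2
    · have h2 : Fp p = 0 := by
        have h3 : p = (p.1, p.1) := Prod.ext rfl hp.symm
        rw [h3]
        exact hdiag p.1
      have h3 : ys c (Fp p) = 0 := by
        rw [h2]
        unfold ys
        simp
      rw [h3, mul_zero]
    · have hC := hcone p hβ
      by_cases hcp : c p.1 = c p.2
      · have h2 : ys c (Fp p) = -ys c (Fp p) := by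
          have hτ : ∀ v, c (Equiv.swap p.1 p.2 v) = c v := by
            intro v
            rw [Equiv.swap_apply_def]
            split_ifs with h3 h4
            · rw [h3, hcp]
            · rw [h4, hcp]
            · rfl
          have h3 : ys c (Fp p) = ∑ π ∈ yg c, Fp p (π * Equiv.swap p.1 p.2) := by
            unfold ys
            refine Finset.sum_nbij' (fun π => π * Equiv.swap p.1 p.2)
              (fun π => π * Equiv.swap p.1 p.2) ?_ ?_ ?_ ?_ ?_
            · intro π hπ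
              rw [mem_yg] at *
              intro v
              rw [Equiv.Perm.mul_apply, hπ, hτ]
            · intro π hπ
              rw [mem_yg] at *
              intro v
              rw [Equiv.Perm.mul_apply, hπ, hτ]
            · intro π _
              show π * Equiv.swap p.1 p.2 * Equiv.swap p.1 p.2 = π
              rw [mul_assoc, Equiv.swap_mul_self, mul_one]
            · intro π _
              show π * Equiv.swap p.1 p.2 * Equiv.swap p.1 p.2 = π
              rw [mul_assoc, Equiv.swap_mul_self, mul_one]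
            · intro π _
              show Fp p π = Fp p (π * Equiv.swap p.1 p.2 * Equiv.swap p.1 p.2)
              rw [mul_assoc, Equiv.swap_mul_self, mul_one]
          have h4 : ∑ π ∈ yg c, Fp p (π * Equiv.swap p.1 p.2) = -ys c (Fp p) := by
            unfold ys
            rw [← Finset.sum_neg_distrib]
            refine Finset.sum_congr rfl fun π _ => ?_
            exact hC.2.1 p.1 (by simp) p.2 (by simp) hp π
          rw [← h4]
          exact h3
        have h5 : ys c (Fp p) = 0 := by linarith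
        rw [h5, mul_zero]
      · have h2 : ys c (Fp p) ≤ 0 := by
          refine hC.2.2 c hc ?_
          intro x hx y hy hxy
          rw [Finset.mem_insert, Finset.mem_singleton] at hx hy
          rcases hx with rfl | rfl <;> rcases hy with rfl | rfl
          · rfl
          · exact absurd hxy hcp
          · exact absurd hxy.symm hcp
          · rfl
        exact mul_nonpos_of_nonneg_of_nonpos hb h2
  · unfold brate
    rw [if_neg hβ, zero_mul]

end Pool.Agent.Stirring.Mono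
end
end

section

section

/-! A11a: a permutation times a uniform perfect matching induces a uniform permutation. -/

open Finset

namespace Pool.Agent.Stirring.HP

/-- The bound for the states with `Q1` and `ρ (ρ z) ∉ Z`. -/
def GB (k : ℕ) (A : ℝ) (M : ℕ) : Prop :=
  ∀ (V : Type) [Fintype V] [DecidableEq V] (X Z : Finset V) (ρ : Equiv.Perm V)
    (F : Equiv.Perm V → ℝ) (z : V), Disjoint X Z → Z.card = k → X.card = 2 * M →
    SuppIn (X ∪ Z) ρ → Inv X Z F → (∀ π, |F π| ≤ 1) → Q1 Z ρ → z ∈ Z → ρ (ρ z) ∉ Z →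
    |AM F ρ X - UZ Z F| ≤ A * ((phi X ρ : ℝ) + 200) ^ 2 * bet M

/-- The bound for the states with `Q1`. -/
def QB (k : ℕ) (A : ℝ) (M : ℕ) : Prop :=
  ∀ (V : Type) [Fintype V] [DecidableEq V] (X Z : Finset V) (ρ : Equiv.Perm V)
    (F : Equiv.Perm V → ℝ), Disjoint X Z → Z.card = k → X.card = 2 * M →
    SuppIn (X ∪ Z) ρ → Inv X Z F → (∀ π, |F π| ≤ 1) → Q1 Z ρ →
    |AM F ρ X - UZ Z F| ≤ A * ((phi X ρ : ℝ) + 200) ^ 2 * bet M

/-- The intermediate bound for the states with `Q1`, `M ≥ 1`. -/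
def HB (k : ℕ) (A : ℝ) (M : ℕ) : Prop :=
  ∀ (V : Type) [Fintype V] [DecidableEq V] (X Z : Finset V) (ρ : Equiv.Perm V)
    (F : Equiv.Perm V → ℝ), Disjoint X Z → Z.card = k → X.card = 2 * M →
    SuppIn (X ∪ Z) ρ → Inv X Z F → (∀ π, |F π| ≤ 1) → Q1 Z ρ →
    |AM F ρ X - UZ Z F| ≤ hb A k ((phi X ρ : ℝ) + 200) M

/-- `k ≥ 1`: take `z ∈ Z`. If `ρ (ρ z) ∉ Z`, use `GB k A (M + 1)` and `bet_anti`. Otherwise `H_step`
with `e2 = A (phi X ρ + 200)² bet M`: for good `y` apply `GB k A M` to `stp (ρ z) y ρ`, `rmv X (ρ z) y`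
(`good_Q1`, `good_G`, `good_phi`, `stp_suppIn`, `Inv_mono`, card `2 M`). `2 (φ + 3 k + 2) / (2 M + 1) ≤
2 (φ + 200 + 3 k) / (M + 1)`. -/
theorem HB_of_GB {k : ℕ} (hk : 1 ≤ k) {A : ℝ} (hA : 0 < A) {M : ℕ} (h0 : GB k A M)
    (h1 : GB k A (M + 1)) : HB k A (M + 1) := by
  intro V _ _ X Z ρ F hXZ hZ hX hS hI hF hQ
  obtain ⟨z, hz⟩ : Z.Nonempty := by
    rw [← Finset.card_pos]; omega
  have hxU : ρ z ∈ X ∪ Z := suppIn_apply_mem hS (mem_union_right _ hz)
  have hx : ρ z ∈ X := by
    rcases mem_union.1 hxU with h | h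
    · exact h
    · exact absurd h (hQ z hz)
  have hφ : (0 : ℝ) ≤ (phi X ρ : ℝ) := Nat.cast_nonneg _
  have hbet := bet_pos M
  have he : 0 ≤ A * ((phi X ρ : ℝ) + 200) ^ 2 * bet M := by positivity
  have H := H_step (M := M) hXZ hX hS hI hF hQ hz he (by
    intro y hy hg
    have hyX : y ∈ X := mem_of_mem_erase hy
    have hyx : y ≠ ρ z := ne_of_mem_erase hy
    have hsub : rmv X (ρ z) y ⊆ X := fun a ha => mem_of_mem_erase (mem_of_mem_erase ha)
    have hc : (rmv X (ρ z) y).card = 2 * M := by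
      rw [card_erase_of_mem hy, card_erase_of_mem hx, hX]; omega
    have hsupp : SuppIn (rmv X (ρ z) y ∪ Z) (stp (ρ z) y ρ) := by
      refine suppIn_mono ?_ (stp_suppIn (S := X ∪ Z) hxU (mem_union_left _ hyX) hS)
      intro a ha
      simp only [mem_erase, mem_union] at ha ⊢
      tauto
    have h := h0 V (rmv X (ρ z) y) Z (stp (ρ z) y ρ) F z (hXZ.mono_left hsub) hZ hc hsupp
      (Inv_mono hsub hI) hF (good_Q1 hXZ hS hQ hz hy hg) hz (good_G hXZ hS hQ hz hy hg)
    refine h.trans ?_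
    have hp : (phi (rmv X (ρ z) y) (stp (ρ z) y ρ) : ℝ) ≤ (phi X ρ : ℝ) := by
      exact_mod_cast good_phi hXZ hS hQ hz hy hg
    have hp0 : (0 : ℝ) ≤ (phi (rmv X (ρ z) y) (stp (ρ z) y ρ) : ℝ) := Nat.cast_nonneg _
    gcongr)
  refine H.trans ?_
  simp only [hb, Nat.add_sub_cancel]
  rw [hZ]
  have hM : (0 : ℝ) ≤ (M : ℝ) := Nat.cast_nonneg M
  have hk0 : (0 : ℝ) ≤ (k : ℝ) := Nat.cast_nonneg k
  push_cast
  refine add_le_add le_rfl ?_
  apply div_le_div₀
  · positivity
  · linarith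
  · linarith
  · linarith

end Pool.Agent.Stirring.HP
end

section

/-! A11b: a permutation times a uniform perfect matching induces a uniform permutation. -/

open Finset

namespace Pool.Agent.Stirring.HP

/-- The induction step. If `2 ≤ A (φ + 200)² bet (M + 1)` the bound is trivial. Otherwise `M ≥ 1`
(since `A ≥ 4`), and `G_step` with `e1 = A' (φ + 206)² bet M` (`QB (k - 1) A' M` for `Z.erase z`,
`glue z j F`: `Inv_glue`, `Inv_mono`, `hit_Q1`, `hit_phi`, `suppIn_del`, `stp_suppIn`), `e2 = A (φ + 200)²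
bet M` (`GB k A M`, `miss_Q1`, `miss_G`, `miss_phi`), `e3 = hb A k (φ + 200) M` (`HB k A M`,
`miss_Q1`, `miss_phi`), `e4 = hb A k (φ + 204) M` (`HB k A M`, `miss_Q1`, `miss_phi4`); then
`arith_step` with `P = φ + 200` (and `φ + k ≤ P + k`, `e2 ≤ e3`). -/
theorem GB_succ {k : ℕ} (hk : 2 ≤ k) {A' A : ℝ} (hA' : 1 ≤ A')
    (hA : 10 * A' + 64 * (1 + 3 * (k : ℝ)) ^ 2 ≤ A) {M : ℕ} (hQ : QB (k - 1) A' M)
    (hG : GB k A M) (hH : 1 ≤ M → HB k A M) : GB k A (M + 1) := by
  intro V _ _ X Z ρ F z hXZ hZ hX hS hI hF hQ1 hz hG1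
  have hk' : (2 : ℝ) ≤ (k : ℝ) := by exact_mod_cast hk
  have hA0 : 0 < A := by nlinarith [sq_nonneg (1 + 3 * (k : ℝ))]
  obtain ⟨P, hP⟩ : ∃ P : ℝ, P = (phi X ρ : ℝ) + 200 := ⟨_, rfl⟩
  have hphi : (0 : ℝ) ≤ (phi X ρ : ℝ) := Nat.cast_nonneg _
  have hP200 : 200 ≤ P := by linarith
  rw [← hP]
  rcases le_or_gt 2 (A * P ^ 2 * bet (M + 1)) with htr | hlt
  · have h1 := AM_abs_le (c := 1) zero_le_one hF ρ X
    have h2 := UZ_abs_le (c := 1) hF Z
    have h3 := abs_sub (AM F ρ X) (UZ Z F)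
    linarith
  have hM : 1 ≤ M := by
    by_contra hcon
    have hM0 : M = 0 := by omega
    subst hM0
    have hb1 : bet (0 + 1) = 3 / 4 := by
      rw [bet_succ, bet_zero]
      norm_num
    rw [hb1] at hlt
    have hA1 : 10 ≤ A := by nlinarith [sq_nonneg (1 + 3 * (k : ℝ))]
    have hP2 : 40000 ≤ P ^ 2 := by nlinarith
    nlinarith [mul_le_mul hA1 hP2 (by norm_num) hA0.le]
  have hHB := hH hM
  have hx : ρ z ∈ X := rho_mem hS hQ1 hz
  have hbM := bet_pos M
  -- general facts
  have hsub : ∀ y, rmv X (ρ z) y ⊆ X := fun y a ha =>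
    Finset.mem_of_mem_erase (Finset.mem_of_mem_erase ha)
  have hcard : ∀ y ∈ X.erase (ρ z), (rmv X (ρ z) y).card = 2 * M := by
    intro y hy
    have e1 : (X.erase (ρ z)).card = X.card - 1 := Finset.card_erase_of_mem hx
    have e2 : ((X.erase (ρ z)).erase y).card = (X.erase (ρ z)).card - 1 :=
      Finset.card_erase_of_mem hy
    show ((X.erase (ρ z)).erase y).card = 2 * M
    omega
  have hdisj : ∀ y, Disjoint (rmv X (ρ z) y) Z := fun y => hXZ.mono_left (hsub y)
  have hsupp : ∀ y ∈ X.erase (ρ z), SuppIn (rmv X (ρ z) y ∪ Z) (stp (ρ z) y ρ) := by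
    intro y hy
    refine suppIn_mono ?_ (stp_suppIn (Finset.mem_union_left _ hx)
      (Finset.mem_union_left _ (Finset.mem_of_mem_erase hy)) hS)
    intro a ha
    rw [Finset.mem_erase, Finset.mem_erase, Finset.mem_union] at ha
    obtain ⟨h1, h2, h3 | h3⟩ := ha
    · exact Finset.mem_union_left _ (Finset.mem_erase.2 ⟨h1, Finset.mem_erase.2 ⟨h2, h3⟩⟩)
    · exact Finset.mem_union_right _ h3
  have hinv : ∀ y, Inv (rmv X (ρ z) y) Z F := fun y => Inv_mono (hsub y) hI
  have hmono : ∀ (q : ℕ) (c : ℝ), 0 ≤ c → (q : ℝ) + 200 ≤ P + c →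
      ((q : ℝ) + 200) ^ 2 ≤ (P + c) ^ 2 := by
    intro q c hc hq
    have hq0 : (0 : ℝ) ≤ (q : ℝ) := Nat.cast_nonneg q
    exact pow_le_pow_left₀ (by linarith) hq 2
  have hhb : ∀ (q : ℕ) (Q : ℝ), (q : ℝ) + 200 ≤ Q → hb A k ((q : ℝ) + 200) M ≤ hb A k Q M := by
    intro q Q hq
    have hq0 : (0 : ℝ) ≤ (q : ℝ) := Nat.cast_nonneg q
    unfold hb
    have e1 : ((q : ℝ) + 200) ^ 2 ≤ Q ^ 2 := pow_le_pow_left₀ (by linarith) hq 2
    have e2 := bet_pos (M - 1)
    have hMr : (0 : ℝ) < (M : ℝ) := by exact_mod_cast hM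
    refine add_le_add ?_ ?_
    · exact mul_le_mul_of_nonneg_right (mul_le_mul_of_nonneg_left e1 hA0.le) e2.le
    · exact div_le_div_of_nonneg_right (by linarith) hMr.le
  have hMr : (0 : ℝ) < (M : ℝ) := by exact_mod_cast hM
  have hbet : bet M ≤ bet (M - 1) := bet_anti (Nat.sub_le M 1)
  have h23 : A * P ^ 2 * bet M ≤ hb A k P M := by
    unfold hb
    have e1 : A * P ^ 2 * bet M ≤ A * P ^ 2 * bet (M - 1) :=
      mul_le_mul_of_nonneg_left hbet (by positivity)
    have e2 : 0 ≤ 2 * (P + 3 * (k : ℝ)) / (M : ℝ) := by positivity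
    linarith
  have h34 : hb A k P M ≤ hb A k (P + 4) M := by
    have := hhb (phi X ρ) (P + 4) (by linarith)
    rwa [← hP] at this
  have hstep := G_step (e1 := A' * (P + 6) ^ 2 * bet M) (e2 := A * P ^ 2 * bet M)
    (e3 := hb A k P M) (e4 := hb A k (P + 4) M) hXZ hX hS hI hQ1 hz hG1 h23 (h23.trans h34)
    ?_ ?_ ?_ ?_
  · rw [hZ] at hstep
    refine hstep.trans ((div_le_div_of_nonneg_right ?_ (by positivity)).trans
      (arith_step hk' hA' hA hP200 hM hlt))
    have e1 : ((phi X ρ : ℝ) + k) * (hb A k P M - A * P ^ 2 * bet M)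
        ≤ (P + k) * (hb A k P M - A * P ^ 2 * bet M) :=
      mul_le_mul_of_nonneg_right (by linarith) (by linarith)
    linarith
  · intro j hj
    have hy : ρ.symm j ∈ X.erase (ρ z) :=
      hits_subset hS hQ1 hz hG1 (Finset.mem_image_of_mem _ hj)
    have h1 := hQ V (rmv X (ρ z) (ρ.symm j)) (Z.erase z) (del z (stp (ρ z) (ρ.symm j) ρ))
      (glue z j F) ((hdisj _).mono_right (Finset.erase_subset _ _))
      (by rw [Finset.card_erase_of_mem hz, hZ]) (hcard _ hy) ?_
      (Inv_mono (hsub _) (Inv_glue hXZ hz hj hI)) (fun π => hF _)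
      (hit_Q1 hXZ hS hQ1 hz hG1 hj)
    · refine h1.trans ?_
      have h2 := hit_phi hXZ hS hQ1 hz hG1 hj
      have h3 : ((phi (rmv X (ρ z) (ρ.symm j)) (del z (stp (ρ z) (ρ.symm j) ρ)) : ℕ) : ℝ)
          ≤ (phi X ρ : ℝ) + 6 := by exact_mod_cast h2
      exact mul_le_mul_of_nonneg_right (mul_le_mul_of_nonneg_left
        (hmono _ 6 (by norm_num) (by linarith)) (by linarith)) hbM.le
    · refine suppIn_mono ?_ (suppIn_del (hsupp _ hy) z)
      intro a ha
      rw [Finset.mem_erase, Finset.mem_union] at ha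
      obtain ⟨h1, h2 | h2⟩ := ha
      · exact Finset.mem_union_left _ h2
      · exact Finset.mem_union_right _ (Finset.mem_erase.2 ⟨h1, h2⟩)
  · intro y hy hy' h1 h2 h3 h4
    have h5 := hG V (rmv X (ρ z) y) Z (stp (ρ z) y ρ) F z (hdisj y) hZ (hcard y hy) (hsupp y hy)
      (hinv y) hF (miss_Q1 hXZ hS hQ1 hz hG1 hy hy') hz
      (miss_G hXZ hS hQ1 hz hG1 hy hy' h1 h2)
    refine h5.trans ?_
    have h6 := miss_phi hXZ hS hQ1 hz hG1 hy hy' h3 h4 (fun h => h2 (h ▸ hz))
    have h7 : ((phi (rmv X (ρ z) y) (stp (ρ z) y ρ) : ℕ) : ℝ) ≤ (phi X ρ : ℝ) := by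
      exact_mod_cast h6
    have h8 := hmono _ 0 le_rfl (by linarith : ((phi (rmv X (ρ z) y) (stp (ρ z) y ρ) : ℕ) : ℝ)
      + 200 ≤ P + 0)
    rw [add_zero] at h8
    exact mul_le_mul_of_nonneg_right (mul_le_mul_of_nonneg_left h8 hA0.le) hbM.le
  · intro y hy hy' h3 h4 h5
    have h6 := hHB V (rmv X (ρ z) y) Z (stp (ρ z) y ρ) F (hdisj y) hZ (hcard y hy) (hsupp y hy)
      (hinv y) hF (miss_Q1 hXZ hS hQ1 hz hG1 hy hy')
    refine h6.trans (hhb _ _ ?_)
    have h7 := miss_phi hXZ hS hQ1 hz hG1 hy hy' h3 h4 h5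
    have h8 : ((phi (rmv X (ρ z) y) (stp (ρ z) y ρ) : ℕ) : ℝ) ≤ (phi X ρ : ℝ) := by
      exact_mod_cast h7
    linarith
  · intro y hy hy'
    have h6 := hHB V (rmv X (ρ z) y) Z (stp (ρ z) y ρ) F (hdisj y) hZ (hcard y hy) (hsupp y hy)
      (hinv y) hF (miss_Q1 hXZ hS hQ1 hz hG1 hy hy')
    refine h6.trans (hhb _ _ ?_)
    have h7 := miss_phi4 hXZ hS hQ1 hz hy
    have h8 : ((phi (rmv X (ρ z) y) (stp (ρ z) y ρ) : ℕ) : ℝ) ≤ (phi X ρ : ℝ) + 4 := by
      exact_mod_cast h7
    linarith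

end Pool.Agent.Stirring.HP
end

section

/-! A11c: a permutation times a uniform perfect matching induces a uniform permutation. -/

open Finset

namespace Pool.Agent.Stirring.HP

theorem A11c_triv {V : Type} [Fintype V] [DecidableEq V] {X Z : Finset V} {ρ : Equiv.Perm V}
    {F : Equiv.Perm V → ℝ} (hF : ∀ π, |F π| ≤ 1) {A : ℝ} (hA : 4 ≤ A) :
    |AM F ρ X - UZ Z F| ≤ A * ((phi X ρ : ℝ) + 200) ^ 2 * bet 0 := by
  have h1 := AM_abs_le (c := 1) zero_le_one hF ρ X
  have h2 := UZ_abs_le (c := 1) hF Z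
  have h3 := abs_sub (AM F ρ X) (UZ Z F)
  have hphi : (0 : ℝ) ≤ (phi X ρ : ℝ) := Nat.cast_nonneg _
  have h4 : 40000 ≤ ((phi X ρ : ℝ) + 200) ^ 2 := by nlinarith
  rw [bet_zero, mul_one]
  nlinarith

/-- `GB k A 0` is trivial (`A ≥ 2`), then induction: `HB k A M` (`M ≥ 1`) follows from `GB k A (M - 1)`
and `GB k A M` by `HB_of_GB`, `GB k A (M + 1)` by `GB_succ`. -/
theorem GB_all {k : ℕ} (hk : 2 ≤ k) {A' A : ℝ} (hA' : 1 ≤ A')
    (hA : 10 * A' + 64 * (1 + 3 * (k : ℝ)) ^ 2 ≤ A) (hQ : ∀ M, QB (k - 1) A' M) (M : ℕ) :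
    GB k A M := by
  have hk' : (2 : ℝ) ≤ (k : ℝ) := by exact_mod_cast hk
  have hA0 : 4 ≤ A := by nlinarith [sq_nonneg (1 + 3 * (k : ℝ))]
  have key : ∀ M, GB k A M ∧ (1 ≤ M → HB k A M) := by
    intro M
    induction M with
    | zero =>
      refine ⟨?_, fun h => by omega⟩
      intro V _ _ X Z ρ F z hXZ hZ hX hS hI hF hQ1 hz hG1
      exact A11c_triv hF (by linarith)
    | succ M ih =>
      have g := GB_succ hk hA' hA (hQ M) ih.1 ih.2
      exact ⟨g, fun _ => HB_of_GB (by omega) (by linarith) ih.1 g⟩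
  exact (key M).1

/-- `QB k A'' M` for all `M`, with `A'' = 2 A + 8 (1 + 3 k)`: `M = 0` trivial; for `M ≥ 1` use `HB`
(`HB_of_GB`): `bet (M - 1) ≤ (4 / 3) bet M`, and `2 (P + 3 k) / M ≤ 4 (P + 3 k) / (M + 1) ≤
4 (1 + 3 k) P² bet M` by `bet_lower` (`1 / (M + 1) ≤ bet M ^ 2 ≤ bet M`). -/
theorem QB_of_GB {k : ℕ} (hk : 2 ≤ k) {A : ℝ} (hA : 4 ≤ A) (hG : ∀ M, GB k A M) (M : ℕ) :
    QB k (2 * A + 8 * (1 + 3 * k)) M := by
  have hk' : (2 : ℝ) ≤ (k : ℝ) := by exact_mod_cast hk
  rcases Nat.eq_zero_or_pos M with hM | hM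
  · subst hM
    intro V _ _ X Z ρ F hXZ hZ hX hS hI hF hQ1
    exact A11c_triv hF (by linarith)
  · obtain ⟨M', rfl⟩ : ∃ M', M = M' + 1 := ⟨M - 1, by omega⟩
    have hHB := HB_of_GB (by omega : 1 ≤ k) (by linarith : 0 < A) (hG M') (hG (M' + 1))
    intro V _ _ X Z ρ F hXZ hZ hX hS hI hF hQ1
    refine (hHB V X Z ρ F hXZ hZ hX hS hI hF hQ1).trans ?_
    obtain ⟨P, hP⟩ : ∃ P : ℝ, P = (phi X ρ : ℝ) + 200 := ⟨_, rfl⟩
    have hphi : (0 : ℝ) ≤ (phi X ρ : ℝ) := Nat.cast_nonneg _
    have hP200 : 200 ≤ P := by linarith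
    rw [← hP]
    unfold hb
    rw [Nat.add_sub_cancel]
    have hb1 := bet_succ M'
    have hb0 := bet_pos M'
    have hbs := bet_pos (M' + 1)
    have hM0 : (0 : ℝ) ≤ (M' : ℝ) := Nat.cast_nonneg _
    have e1 : bet M' ≤ 4 / 3 * bet (M' + 1) := by
      have h1 : 1 / (4 * ((M' : ℝ) + 1)) ≤ 1 / 4 :=
        one_div_le_one_div_of_le (by norm_num) (by linarith)
      rw [hb1]
      nlinarith
    have e2 : A * P ^ 2 * bet M' ≤ 2 * A * P ^ 2 * bet (M' + 1) := by
      have h2 : 0 ≤ A * P ^ 2 := by positivity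
      have h3 := mul_le_mul_of_nonneg_left e1 h2
      have h4 : 0 ≤ A * P ^ 2 * bet (M' + 1) := by positivity
      linarith
    have e3 : 1 / (((M' + 1 : ℕ) : ℝ) + 1) ≤ bet (M' + 1) := by
      have h1 := bet_lower (M' + 1)
      have h2 := bet_le_one (M' + 1)
      nlinarith
    have e4 : 2 * (P + 3 * (k : ℝ)) / ((M' + 1 : ℕ) : ℝ)
        ≤ 4 * (P + 3 * (k : ℝ)) * (1 / (((M' + 1 : ℕ) : ℝ) + 1)) := by
      rw [mul_one_div, div_le_div_iff₀ (by positivity) (by positivity)]
      push_cast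
      have : 0 ≤ P + 3 * (k : ℝ) := by linarith
      nlinarith
    have e5 : 4 * (P + 3 * (k : ℝ)) * (1 / (((M' + 1 : ℕ) : ℝ) + 1))
        ≤ 4 * (P + 3 * (k : ℝ)) * bet (M' + 1) :=
      mul_le_mul_of_nonneg_left e3 (by linarith)
    have e6 : 4 * (P + 3 * (k : ℝ)) * bet (M' + 1)
        ≤ 8 * (1 + 3 * (k : ℝ)) * P ^ 2 * bet (M' + 1) := by
      refine mul_le_mul_of_nonneg_right ?_ hbs.le
      nlinarith [mul_nonneg (by linarith : 0 ≤ P - 1) (by linarith : (0 : ℝ) ≤ (k : ℝ))]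
    have e7 : (2 * A + 8 * (1 + 3 * (k : ℝ))) * P ^ 2 * bet (M' + 1)
        = 2 * A * P ^ 2 * bet (M' + 1) + 8 * (1 + 3 * (k : ℝ)) * P ^ 2 * bet (M' + 1) := by ring
    rw [e7]
    linarith

/-- Induction on `k`: `k ≤ 1` by `core_small`; `k ≥ 2` by `GB_all` and `QB_of_GB`. -/
theorem core (k : ℕ) : ∃ A : ℝ, 1 ≤ A ∧ ∀ M, QB k A M := by
  induction k with
  | zero =>
    refine ⟨1, le_rfl, fun M => ?_⟩
    intro V _ _ X Z ρ F hXZ hZ hX hS hI hF hQ1
    rw [core_small hX (by omega) hI hS, sub_self, abs_zero]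
    have := bet_pos M
    positivity
  | succ k ih =>
    rcases Nat.lt_or_ge k 1 with h1 | h1
    · refine ⟨1, le_rfl, fun M => ?_⟩
      intro V _ _ X Z ρ F hXZ hZ hX hS hI hF hQ1
      rw [core_small hX (by omega) hI hS, sub_self, abs_zero]
      have := bet_pos M
      positivity
    · obtain ⟨A', hA', hQ⟩ := ih
      have hk2 : 2 ≤ k + 1 := by omega
      have hk' : (2 : ℝ) ≤ ((k + 1 : ℕ) : ℝ) := by exact_mod_cast hk2
      obtain ⟨A, hA⟩ : ∃ A : ℝ, A = 10 * A' + 64 * (1 + 3 * ((k + 1 : ℕ) : ℝ)) ^ 2 := ⟨_, rfl⟩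
      have hA4 : 4 ≤ A := by
        rw [hA]
        nlinarith [sq_nonneg (1 + 3 * ((k + 1 : ℕ) : ℝ))]
      have hG := GB_all hk2 hA' hA.ge (fun M => by
        rw [Nat.add_sub_cancel]
        exact hQ M)
      exact ⟨2 * A + 8 * (1 + 3 * ((k + 1 : ℕ) : ℝ)), by linarith, fun M =>
        QB_of_GB hk2 hA4 hG M⟩

end Pool.Agent.Stirring.HP
end

section

end
end

section

section

/-! The cone: all files. -/
end

section

/-! Down the levels of the hierarchy. -/

open Finset Pool.Agent.Stirring.Hier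

set_option linter.unusedSectionVars false

namespace Pool.Agent.Stirring.Mono

variable {N K : ℕ}

/-- The product of the semigroups of the `d` highest levels. -/
noncomputable def hi (N K : ℕ) (g : ℕ → ℝ) (t : ℝ) : ℕ → Op (Word N K)
  | 0 => 1
  | d + 1 => sg (brate (lab N K (K - d)) (N ^ (K - d)) (g (K - d))) t * hi N K g t d

/-- TASK H2a. PROOF. Induction on `d`: `hi .. (d+1) f = sg (..) (hi .. d f)` by `rfl`, and `EL_succ` at
`k = K - (d + 1)`, `k + 1 = K - d`. -/
theorem EL_hi (g : ℕ → ℝ) (t : ℝ) {d : ℕ} (hd : d ≤ K) (f : Fn (Word N K)) :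
    EL N K g t K f = EL N K g t (K - d) (hi N K g t d f) := by
  induction d with
  | zero => rfl
  | succ d ih =>
    have h : K - d = (K - (d + 1)) + 1 := by omega
    rw [ih (by omega)]
    have h2 : hi N K g t (d + 1) f =
        sg (brate (lab N K (K - d)) (N ^ (K - d)) (g (K - d))) t (hi N K g t d f) := rfl
    rw [h2, h, EL_succ]

/-- TASK H2b. PROOF. `lab_eq_iff`, `sameBlock_mono`. -/
theorem lab_refine {j k : ℕ} (hjk : j ≤ k) (v w : Word N K) (h : lab N K j v = lab N K j w) :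
    lab N K k v = lab N K k w := by
  rw [lab_eq_iff] at *
  exact sameBlock_mono hjk h

/-- TASK H2c. PROOF. Induction on `d` (for all `j`). `d = 0`: `hh_cone`. Step: `j + (d + 1) ≤ K + 1`, so
`j ≤ K - d`. By the induction hypothesis for `j' = K - d` (`(K - d) + d ≤ K + 1` since `d ≤ K`;
`lab (K - d) x = lab (K - d) y` by `lab_refine`) the function `hi .. d (hh φ x y)` is in
`Cone (lab N K (K - d)) {x, y}`; `cone_sg` (the marks `x, y` are in one block of level `K - d`), then
`cone_refine` with `lab_refine` from level `K - d` to level `j`. -/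
theorem hi_cone {φ : ℕ → ℝ} (hφ : Antitone φ) {g : ℕ → ℝ} (hg : ∀ j, 0 ≤ g j) {t : ℝ}
    (ht : 0 ≤ t) (d : ℕ) : ∀ {j : ℕ}, j + d ≤ K + 1 → j ≤ K → ∀ {x y : Word N K},
      lab N K j x = lab N K j y → Cone (lab N K j) {x, y} (hi N K g t d (hh φ x y)) := by
  induction d with
  | zero =>
    intro j _ _ x y _
    exact hh_cone hφ _ x y
  | succ d ih =>
    intro j hj hjK x y hxy
    have hjd : j ≤ K - d := by omega
    have h1 : lab N K (K - d) x = lab N K (K - d) y := lab_refine hjd x y hxy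
    have h2 : Cone (lab N K (K - d)) {x, y} (hi N K g t d (hh φ x y)) :=
      ih (by omega) (by omega) h1
    have h3 : ∀ u ∈ ({x, y} : Finset (Word N K)), ∀ v ∈ ({x, y} : Finset (Word N K)),
        lab N K (K - d) u = lab N K (K - d) v := by
      intro u hu v hv
      rw [Finset.mem_insert, Finset.mem_singleton] at hu hv
      rcases hu with rfl | rfl <;> rcases hv with rfl | rfl
      · rfl
      · exact h1
      · exact h1.symm
      · rfl
    exact cone_refine (lab_refine hjd) (cone_sg h2 h3 (N ^ (K - d)) (hg _) ht)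

/-- TASK H2d. PROOF. Induction on `d`: `CI_sg` for `β = lab N K j` and `q = brate (lab N K (K - d)) ..`
(`j ≤ K - d`): for `g` preserving `lab N K j`, it preserves `lab N K (K - d)` (`lab_refine`), so
`brate (g u, g v) = brate (u, v)`. -/
theorem hi_CI (g : ℕ → ℝ) (t : ℝ) (d : ℕ) {j : ℕ} (hj : j + d ≤ K + 1) {F : Fn (Word N K)}
    (hF : CI (lab N K j) ∅ F) : CI (lab N K j) ∅ (hi N K g t d F) := by
  induction d with
  | zero => exact hF
  | succ d ih =>
    have hjd : j ≤ K - d := by omega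
    have h1 : CI (lab N K j) ∅ (hi N K g t d F) := ih (by omega)
    refine CI_sg h1 (q := brate (lab N K (K - d)) (N ^ (K - d)) (g (K - d))) ?_ t
    intro e he p
    have h2 : ∀ v, lab N K (K - d) (e v) = lab N K (K - d) v :=
      fun v => lab_refine hjd _ _ (he v)
    unfold brate
    simp only [h2]

/-- TASK H2e. PROOF. Induction on `k`. `k = 0`: `EL_zero`, `EL .. 0 F = F 1`. `NP` for the colouring
`c = id`: finer than anything; `yg id = {1}` (`Equiv.ext`), so `ys id F = F 1 ≤ 0`. Step: `EL_succ`,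
`cone_sg` (no marks), `cone_refine` with `lab_refine` (level `k + 1` to level `k`), induction. -/
theorem EL_nonpos {g : ℕ → ℝ} (hg : ∀ j, 0 ≤ g j) {t : ℝ} (ht : 0 ≤ t) (k : ℕ) :
    ∀ {F : Fn (Word N K)}, Cone (lab N K k) ∅ F → EL N K g t k F ≤ 0 := by
  induction k with
  | zero =>
    intro F hF
    rw [EL_zero]
    have h1 := hF.2.2 id (fun v w h => congrArg _ (show v = w from h))
      (fun x hx => absurd hx (Finset.notMem_empty x))
    have h2 : yg (id : Word N K → Word N K) = {1} := by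
      ext π
      rw [mem_yg, Finset.mem_singleton]
      constructor
      · intro h
        exact Equiv.ext fun v => h v
      · rintro rfl v
        rfl
    unfold ys at h1
    rwa [h2, Finset.sum_singleton] at h1
  | succ k ih =>
    intro F hF
    rw [EL_succ]
    exact ih (cone_refine (lab_refine (Nat.le_succ k))
      (cone_sg hF (fun x hx => absurd hx (Finset.notMem_empty x)) _ (hg _) ht))

end Pool.Agent.Stirring.Mono
end
end

section

section

/-! Monotonicity in time. -/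

open Finset Filter Pool.Agent.Stirring.Hier

set_option linter.unusedSectionVars false

namespace Pool.Agent.Stirring.Mono

variable {N K : ℕ}

/-- TASK H3a. PROOF. Let `β = lab N K j`, `γ = g j`, `n = N ^ j`, `d = K + 1 - j` (so `d ≤ K`,
`K - d = j - 1`, `j + d = K + 1`). By `gen_cs`, `gen (brate β n γ) (cs φ) = fun σ => ∑ p, brate p *
hh φ p.1 p.2 σ =: H`. `EL_hi`: `EL K H = EL (j - 1) (hi d H)`, and by linearity
`hi d H = fun σ => ∑ p, brate p * (hi d (hh φ p.1 p.2)) σ` (`map_sum`, `map_smul`). Use `cone_pairs` with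
`Fp p = hi d (hh φ p.1 p.2)`: `hcone` is `hi_cone` (with `j ≤ K`); `hdiag`: `hh φ v v = 0`
(`Equiv.swap_self`), `map_zero`; `hcov` is `hi_CI` for `H`: `CI β ∅ H` because
`H = gen (brate ..) (cs φ) = stepT (..) (cs φ) - tot • cs φ` (unfold `gen`), `CI_step`, `cs_conj`,
and `brate` is invariant under `g` preserving `β` (or directly: `H (g σ g⁻¹)`, change of variables).
So `hi d H` is in `Cone β ∅`, hence in `Cone (lab N K (j - 1)) ∅` (`cone_refine`, `lab_refine`), and
`EL_nonpos` gives the claim. -/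
theorem EL_gen_nonpos {φ : ℕ → ℝ} (hφ : Antitone φ) {g : ℕ → ℝ} (hg : ∀ j, 0 ≤ g j) {t : ℝ}
    (ht : 0 ≤ t) {j : ℕ} (hj : 1 ≤ j) (hjK : j ≤ K) :
    EL N K g t K (gen (brate (lab N K j) (N ^ j) (g j)) (cs φ)) ≤ 0 := by
  have hdK : K + 1 - j ≤ K := by omega
  have hKd : K - (K + 1 - j) = j - 1 := by omega
  have hjd : j + (K + 1 - j) ≤ K + 1 := by omega
  generalize K + 1 - j = d at hdK hKd hjd
  have hcs : CI (lab N K j) ∅ (cs φ : Fn (Word N K)) := fun e _ _ σ => cs_conj φ e σ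
  have hq : ∀ e : Equiv.Perm (Word N K), (∀ v, lab N K j (e v) = lab N K j v) → ∀ p,
      brate (lab N K j) (N ^ j) (g j) (e p.1, e p.2) = brate (lab N K j) (N ^ j) (g j) p := by
    intro e he p
    unfold brate
    simp only [he]
  have hH : CI (lab N K j) ∅ (gen (brate (lab N K j) (N ^ j) (g j)) (cs φ)) := by
    have h0 : gen (brate (lab N K j) (N ^ j) (g j)) (cs φ) =
        stepT (brate (lab N K j) (N ^ j) (g j)) (cs φ) -
          tot (brate (lab N K j) (N ^ j) (g j)) • (cs φ : Fn (Word N K)) := rfl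
    intro e he hm σ
    rw [h0, Pi.sub_apply, Pi.sub_apply, Pi.smul_apply, Pi.smul_apply, hcs e he hm σ,
      CI_step hcs hq e he hm σ]
  have h1 : hi N K g t d (gen (brate (lab N K j) (N ^ j) (g j)) (cs φ)) =
      fun σ => ∑ p : Word N K × Word N K, brate (lab N K j) (N ^ j) (g j) p *
        hi N K g t d (hh φ p.1 p.2) σ := by
    have h2 : gen (brate (lab N K j) (N ^ j) (g j)) (cs φ) =
        ∑ p : Word N K × Word N K, brate (lab N K j) (N ^ j) (g j) p • hh φ p.1 p.2 := by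
      rw [gen_cs]
      funext σ
      rw [Finset.sum_apply]
      rfl
    rw [h2, map_sum]
    funext σ
    rw [Finset.sum_apply]
    refine Finset.sum_congr rfl fun p _ => ?_
    rw [map_smul]
    rfl
  have hC : Cone (lab N K j) ∅ (hi N K g t d (gen (brate (lab N K j) (N ^ j) (g j)) (cs φ))) := by
    have h3 := hi_CI g t d hjd hH
    rw [h1] at h3 ⊢
    refine cone_pairs (Fp := fun p => hi N K g t d (hh φ p.1 p.2)) (hg j) ?_ ?_ h3
    · intro p hp
      exact hi_cone hφ hg ht d hjd hjK hp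
    · intro v
      show hi N K g t d (hh φ v v) = 0
      have h4 : (hh φ v v : Fn (Word N K)) = 0 := by
        funext σ
        show cs φ (σ * Equiv.swap v v) - cs φ σ = 0
        rw [Equiv.swap_self]
        exact sub_self _
      rw [h4, map_zero]
  rw [EL_hi g t hdK, hKd]
  exact EL_nonpos hg ht (j - 1) (cone_refine (lab_refine (Nat.sub_le j 1)) hC)

end Pool.Agent.Stirring.Mono
end

section

/-! Monotonicity in time. -/

open Finset Filter Pool.Agent.Stirring.Hier

set_option linter.unusedSectionVars false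

namespace Pool.Agent.Stirring.Mono

variable {N K : ℕ}

private theorem H3b_gen_lev (g : ℕ → ℝ) (k : ℕ) (f : Fn (Word N K)) :
    gen (lev N K g k) f = fun σ => ∑ j ∈ Finset.range k,
      gen (brate (lab N K (j + 1)) (N ^ (j + 1)) (g (j + 1))) f σ := by
  induction k with
  | zero =>
    funext σ
    rw [lev_zero, gen_apply]
    simp
  | succ k ih =>
    rw [lev_succ, gen_add]
    funext σ
    rw [Finset.sum_range_succ]
    have h1 : (gen (lev N K g k) + gen (brate (lab N K (k + 1)) (N ^ (k + 1)) (g (k + 1)))) f σ =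
        gen (lev N K g k) f σ +
          gen (brate (lab N K (k + 1)) (N ^ (k + 1)) (g (k + 1))) f σ := rfl
    rw [h1, ih]

private theorem H3b_deriv (φ : ℕ → ℝ) (g : ℕ → ℝ) (t : ℝ) :
    HasDerivAt (fun t => EL N K g t K (cs φ)) (EL N K g t K (gen (lev N K g K) (cs φ))) t :=
  sg_hasDerivAt (lev N K g K) (cs φ) 1 t

private theorem H3b_nonpos {φ : ℕ → ℝ} (hφ : Antitone φ) {g : ℕ → ℝ} (hg : ∀ j, 0 ≤ g j)
    {t : ℝ} (ht : 0 ≤ t) : EL N K g t K (gen (lev N K g K) (cs φ)) ≤ 0 := by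
  rw [H3b_gen_lev, EL_sum]
  refine Finset.sum_nonpos fun j hj => ?_
  exact EL_gen_nonpos hφ hg ht (Nat.succ_pos j) (Finset.mem_range.1 hj)

/-- TASK H3b. PROOF. `gen (lev N K g K) = ∑ i ∈ range K, gen (brate (lab (i+1)) ..)` (`lev`, `gen_add`,
`gen 0 = 0` (see the proof of `EL_zero`); induction on the number of levels with `lev_succ`), so
`EL K (gen (lev K) (cs φ)) = ∑ .. ≤ 0` by `EL_gen_nonpos` (`EL_sum`/`EL_add`). By `sg_hasDerivAt`
(`EL` is `sg (lev ..) t f 1`) the derivative of `t ↦ EL N K g t K (cs φ)` is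
`EL N K g t K (gen (lev ..) (cs φ)) ≤ 0` for `t ≥ 0`; `antitoneOn_of_deriv_nonpos` on
`convex_Ici 0` (continuity from `HasDerivAt`, interior `Ioi 0`). -/
theorem EL_cs_antitone {φ : ℕ → ℝ} (hφ : Antitone φ) {g : ℕ → ℝ} (hg : ∀ j, 0 ≤ g j) :
    AntitoneOn (fun t => EL N K g t K (cs φ)) (Set.Ici 0) := by
  refine antitoneOn_of_deriv_nonpos (convex_Ici 0)
    (fun t _ => (H3b_deriv φ g t).continuousAt.continuousWithinAt)
    (fun t _ => (H3b_deriv φ g t).differentiableAt.differentiableWithinAt) fun t ht => ?_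
  rw [interior_Ici] at ht
  rw [(H3b_deriv φ g t).deriv]
  exact H3b_nonpos hφ hg (le_of_lt ht)

/-- TASK H3c. PROOF. `uu N g t K a = EL N K g t K (av N K (below a))`, and
`av N K φ σ = (∑ x, φ (cl σ x)) / N ^ K = (1 / N ^ K) * cs φ σ` (`EL_mul`; `EL_cs_antitone`; `below a` is
antitone in `l`). -/
theorem uu_antitone {g : ℕ → ℝ} (hg : ∀ j, 0 ≤ g j) (a : ℝ) :
    AntitoneOn (fun t => uu N g t K a) (Set.Ici 0) := by
  have hb : Antitone (below a) := by
    intro l l' hl
    unfold below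
    have h1 : (l : ℝ) ≤ l' := by exact_mod_cast hl
    split_ifs with h2 h3
    · exact le_rfl
    · exact absurd (lt_of_le_of_lt h1 h2) h3
    · exact zero_le_one
    · exact le_rfl
  have h1 : ∀ t, uu N g t K a = (1 / (N : ℝ) ^ K) * EL N K g t K (cs (below a)) := by
    intro t
    unfold uu
    rw [← EL_mul]
    congr 1
    funext σ
    unfold av cs
    ring
  intro s hs t ht hst
  show uu N g t K a ≤ uu N g s K a
  rw [h1, h1]
  exact mul_le_mul_of_nonneg_left (EL_cs_antitone hb hg hs ht hst) (by positivity)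

/-- TASK H3d. PROOF. `ul_tendsto` at `s` and at `t`, `uu_antitone`, `le_of_tendsto_of_tendsto'`; then
`ciSup_mono (ul_bdd ..)`. The hypotheses are those of the section of `HierLimit`. -/
theorem finf_antitone (hN : 2 ≤ N) {g : ℕ → ℝ} (hg : ∀ j, 0 < g j) {ρ : ℝ} (hρN : ρ < N)
    (hρ : ∀ j, g (j + 1) ≤ ρ * g j) : AntitoneOn (fun t => finf N g t) (Set.Ici 0) := by
  intro s hs t ht hst
  show finf N g t ≤ finf N g s
  unfold finf
  refine ciSup_mono (ul_bdd hN hg hρN hρ hs) fun m => ?_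
  refine le_of_tendsto_of_tendsto' (ul_tendsto hN hg hρN hρ ht m) (ul_tendsto hN hg hρN hρ hs m)
    fun K => ?_
  exact uu_antitone (fun j => (hg j).le) (m : ℝ) hs ht hst

/-- TASK H3e. PROOF. `hexpect_eq`, and `∑ x, φ (cycLen σ x) = cs φ σ` by `cycLen_eq`;
`EL_cs_antitone`. -/
theorem hexpect_antitone {φ : ℕ → ℝ} (hφ : Antitone φ) {g : ℕ → ℝ} (hg : ∀ j, 0 ≤ g j) (K : ℕ) :
    AntitoneOn (fun t => hexpect N K g t fun σ => ∑ x, φ (cycLen σ x)) (Set.Ici 0) := by
  have h1 : ∀ t, hexpect N K g t (fun σ => ∑ x, φ (cycLen σ x)) = EL N K g t K (cs φ) := by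
    intro t
    rw [hexpect_eq]
    congr 1
    funext σ
    unfold cs
    exact Finset.sum_congr rfl fun x _ => by rw [cycLen_eq]
  simp only [h1]
  exact EL_cs_antitone hφ hg

end Pool.Agent.Stirring.Mono
end
end
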