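import Pool.Agent.Lib.MP_6c3d62_pr.Mg.G078
import Pool.Agent.Lib.MP_6c3d62_pr.Mg.G094
import Pool.Agent.Lib.MP_6c3d62_pr.Mg.G077
import Pool.Agent.Lib.MP_6c3d62_pr.Mg.G082
import Pool.Agent.Lib.MP_6c3d62_pr.Mg.G079
import Pool.Agent.Lib.MP_6c3d62_pr.Mg.G083
import Pool.Agent.Lib.MP_6c3d62_pr.Mg.G081

section

section

/-! B8a: the mean of a grouping count after `M` random transpositions. -/

open Finset

namespace Pool.Agent.Stirring.HP

/-- The normalized count of the maps `z` with the grouping `R`. -/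
noncomputable def cnt {κ : Type} [Fintype κ] [DecidableEq κ] (R : κ → κ → Prop) {V : Type}
    [Fintype V] [DecidableEq V] (τ : Equiv.Perm V) : ℝ :=
  (∑ z : κ → V, gI R τ z) / (Fintype.card V : ℝ) ^ Fintype.card κ

/-- The proportion of the vertices in cycles of length at least `l` and less than `n / q`. -/
noncomputable def midf {V : Type} [Fintype V] [DecidableEq V] (l : ℕ) (q : ℝ)
    (σ : Equiv.Perm V) : ℝ :=
  ((univ.filter fun x : V => l ≤ Hier.cl σ x ∧ (Hier.cl σ x : ℝ) < Fintype.card V / q).card : ℝ) /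
    Fintype.card V

theorem cnt_nonneg {κ : Type} [Fintype κ] [DecidableEq κ] (R : κ → κ → Prop) {V : Type}
    [Fintype V] [DecidableEq V] (τ : Equiv.Perm V) : 0 ≤ cnt R τ := by
  unfold cnt
  exact div_nonneg (Finset.sum_nonneg fun z _ => gI_nonneg R τ z) (by positivity)

theorem cnt_le_one {κ : Type} [Fintype κ] [DecidableEq κ] (R : κ → κ → Prop) {V : Type}
    [Fintype V] [DecidableEq V] (τ : Equiv.Perm V) : cnt R τ ≤ 1 := by
  unfold cnt
  refine div_le_one_of_le₀ ?_ (by positivity)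
  refine (Finset.sum_le_sum fun z _ => gI_le_one R τ z).trans (le_of_eq ?_)
  rw [Finset.sum_const, Finset.card_univ, nsmul_eq_mul, mul_one, Fintype.card_fun]
  push_cast
  rfl

/-- `PM M` and the count of all `z`, against `LM` and the `z` with values in `B = big l σ`: by `nice_eq`
the terms agree when `smp z w` is nice, and they are in `[0, 1]`; `card_not_nice`, `sum_smp` for
`univ`. -/
theorem PM_LM {κ : Type} [Fintype κ] [DecidableEq κ] {R : κ → κ → Prop} (hR : NoIso R) {V : Type}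
    [Fintype V] [DecidableEq V] [Nonempty V] (σ : Equiv.Perm V) {l : ℕ} (hl : 1 ≤ l) (M : ℕ) :
    |PM M (fun τ => cnt R τ) σ -
      (∑ z ∈ Fintype.piFinset (fun _ : κ => big l σ), LM (big l σ) M (fun τ => gI R τ z) σ) /
        (Fintype.card V : ℝ) ^ Fintype.card κ| ≤
      ((Fintype.card κ : ℝ) + 2 * M) ^ 2 * l / Fintype.card V := by
  classical
  set n := Fintype.card V with hn
  set B := big l σ with hB
  have hn0 : (0 : ℝ) < n := by
    have : 0 < n := Fintype.card_pos
    exact_mod_cast this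
  set D : (κ → V) → (Fin M → V × V) → ℝ := fun z w =>
    gI R (σ * wp w) z - if ∀ a, z a ∈ B then gI R (σ * wpB B w) z else 0 with hD
  have e1 : PM M (fun τ => cnt R τ) σ -
      (∑ z ∈ Fintype.piFinset (fun _ : κ => B), LM B M (fun τ => gI R τ z) σ) /
        (n : ℝ) ^ Fintype.card κ =
      (∑ z : κ → V, ∑ w : Fin M → V × V, D z w) / ((n : ℝ) ^ Fintype.card κ * ((n : ℝ) ^ 2) ^ M) := by
    have h1 : PM M (fun τ => cnt R τ) σ = (∑ z : κ → V, ∑ w : Fin M → V × V,
        gI R (σ * wp w) z) / ((n : ℝ) ^ Fintype.card κ * ((n : ℝ) ^ 2) ^ M) := by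
      unfold PM cnt
      rw [← hn, Finset.sum_comm, ← Finset.sum_div, div_div]
    have h2 : (∑ z ∈ Fintype.piFinset (fun _ : κ => B), LM B M (fun τ => gI R τ z) σ) /
        (n : ℝ) ^ Fintype.card κ = (∑ z : κ → V, ∑ w : Fin M → V × V,
        if ∀ a, z a ∈ B then gI R (σ * wpB B w) z else 0) /
          ((n : ℝ) ^ Fintype.card κ * ((n : ℝ) ^ 2) ^ M) := by
      unfold LM
      rw [← hn, ← Finset.sum_div, div_div, mul_comm]
      congr 1
      have h3 : Fintype.piFinset (fun _ : κ => B) = univ.filter fun z : κ → V => ∀ a, z a ∈ B := by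
        ext z
        simp
      rw [h3, Finset.sum_filter]
      refine Finset.sum_congr rfl fun z _ => ?_
      by_cases hz : ∀ a, z a ∈ B
      · rw [if_pos hz]
        exact Finset.sum_congr rfl fun w _ => by rw [if_pos hz]
      · rw [if_neg hz]
        exact (Finset.sum_eq_zero fun w _ => by rw [if_neg hz]).symm
    rw [h1, h2, ← sub_div, ← Finset.sum_sub_distrib]
    congr 1
    refine Finset.sum_congr rfl fun z _ => ?_
    rw [← Finset.sum_sub_distrib]
  have hDle : ∀ z w, |D z w| ≤ if ¬ Nice σ B (smp z w) then 1 else 0 := by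
    intro z w
    by_cases h : Nice σ B (smp z w)
    · rw [if_neg (not_not.mpr h)]
      have h1 : D z w = 0 := by
        simp only [hD]
        rw [nice_eq hR h, sub_self]
      rw [h1, abs_zero]
    · rw [if_pos h]
      simp only [hD]
      have h1 := gI_nonneg R (σ * wp w) z
      have h2 := gI_le_one R (σ * wp w) z
      have h3 := gI_nonneg R (σ * wpB B w) z
      have h4 := gI_le_one R (σ * wpB B w) z
      rw [abs_le]
      split_ifs <;> constructor <;> linarith
  have h5 : |∑ z : κ → V, ∑ w : Fin M → V × V, D z w| ≤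
      ((univ.filter fun u : κ ⊕ (Fin M ⊕ Fin M) → V => ¬ Nice σ B u).card : ℝ) := by
    refine (Finset.abs_sum_le_sum_abs _ _).trans ?_
    refine (Finset.sum_le_sum fun z _ => Finset.abs_sum_le_sum_abs _ _).trans ?_
    refine (Finset.sum_le_sum fun z _ => Finset.sum_le_sum fun w _ => hDle z w).trans ?_
    have h6 := sum_smp (V := V) (κ := κ) univ M (fun u => if ¬ Nice σ B u then (1 : ℝ) else 0)
    rw [Finset.univ_product_univ, Fintype.piFinset_univ, Fintype.piFinset_univ,
      Fintype.piFinset_univ] at h6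
    rw [h6, Finset.sum_boole]
  have h7 := card_not_nice (V := V) (I := κ ⊕ (Fin M ⊕ Fin M)) hl σ
  have hI : Fintype.card (κ ⊕ (Fin M ⊕ Fin M)) = Fintype.card κ + 2 * M := by
    simp only [Fintype.card_sum, Fintype.card_fin]
    omega
  rw [hI, ← hn, ← hB] at h7
  have h8 : ((univ.filter fun u : κ ⊕ (Fin M ⊕ Fin M) → V => ¬ Nice σ B u).card : ℝ) ≤
      ((Fintype.card κ : ℝ) + 2 * M) ^ 2 * (l * (n : ℝ) ^ (Fintype.card κ + 2 * M - 1)) := by
    exact_mod_cast h7
  have hden : (n : ℝ) ^ Fintype.card κ * ((n : ℝ) ^ 2) ^ M = (n : ℝ) ^ (Fintype.card κ + 2 * M) := by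
    rw [← pow_mul, ← pow_add]
  rw [e1, hden, abs_div, abs_of_pos (a := (n : ℝ) ^ (Fintype.card κ + 2 * M)) (by positivity)]
  rw [div_le_div_iff₀ (by positivity) hn0]
  refine (mul_le_mul_of_nonneg_right (h5.trans h8) hn0.le).trans ?_
  rcases Nat.eq_zero_or_pos (Fintype.card κ + 2 * M) with h0 | hpos
  · have h9 : (Fintype.card κ : ℝ) + 2 * M = 0 := by exact_mod_cast h0
    rw [h9]
    simp
  · have h9 : (n : ℝ) ^ (Fintype.card κ + 2 * M) = (n : ℝ) ^ (Fintype.card κ + 2 * M - 1) * n := by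
      rw [← pow_succ]
      congr 1
      omega
    rw [h9]
    refine le_of_eq ?_
    ring

end Pool.Agent.Stirring.HP
end

section

/-! C5a: convergence in law of the rescaled cycle lengths. -/

open Finset Filter Topology

namespace Pool.Agent.Stirring.HP

open Pool.Agent.Stirring.Hier

theorem scale_mem {m : ℝ} (h0 : 0 ≤ m) (h1 : m ≤ 1) (p : KKset) : (fun i => m * p.1 i) ∈ KKset := by
  refine ⟨fun i => mul_nonneg h0 (p.2.1 i), fun i => mul_le_mul_of_nonneg_left (p.2.2.1 i) h0,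
    fun n => ?_⟩
  rw [← Finset.mul_sum]
  exact mul_le_one₀ h1 (Finset.sum_nonneg fun i _ => p.2.1 i) (p.2.2.2 n)

/-- Multiplication of all the masses by `m`. -/
noncomputable def scl (m : ℝ) (h0 : 0 ≤ m) (h1 : m ≤ 1) (p : KKset) : KKset :=
  ⟨fun i => m * p.1 i, scale_mem h0 h1 p⟩

/-- Homogeneous moments: `G (pt σ) = cnt R σ` and `G (m p) = m ^ |κ| G p`. -/
def MomH (G : C(KKset, ℝ)) : Prop :=
  ∃ (κ : Type) (_ : Fintype κ) (_ : DecidableEq κ) (R : κ → κ → Prop), NoIso R ∧
    (∀ (V : Type) [Fintype V] [DecidableEq V] [Nonempty V] (σ : Equiv.Perm V),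
      G (pt σ) = cnt R σ) ∧
    ∀ (m : ℝ) (h0 : 0 ≤ m) (h1 : m ≤ 1) (p : KKset), G (scl m h0 h1 p) = m ^ Fintype.card κ * G p

theorem momH_powS (k : ℕ) : MomH (powS k) := by
  refine ⟨Fin (k + 2), inferInstance, inferInstance, fun _ _ => True, ?_, ?_, ?_⟩
  · intro a
    obtain ⟨b, hb⟩ := exists_ne a
    exact ⟨b, hb, Or.inl trivial⟩
  · intro V _ _ _ σ
    unfold cnt
    rw [powS_pt, Fintype.card_fin]
  · intro m h0 h1 p
    rw [powS_apply, powS_apply, Fintype.card_fin, ← tsum_mul_left]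
    refine tsum_congr fun i => ?_
    show (m * p.1 i) ^ (k + 2) = _
    rw [mul_pow]

theorem momH_one : MomH 1 := by
  refine ⟨Fin 0, inferInstance, inferInstance, fun _ _ => True, ?_, ?_, ?_⟩
  · intro a
    exact a.elim0
  · intro V _ _ _ σ
    unfold cnt
    rw [Fintype.card_fin, pow_zero, div_one, ContinuousMap.one_apply]
    have h1 : ∀ z : Fin 0 → V, gI (fun _ _ => True) σ z = 1 := by
      intro z
      rw [gI_eq (P := True) ⟨fun _ => trivial, fun _ a => a.elim0⟩, if_pos trivial]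
    rw [Finset.sum_congr rfl fun z _ => h1 z]
    simp
  · intro m h0 h1 p
    rw [Fintype.card_fin, pow_zero, ContinuousMap.one_apply, ContinuousMap.one_apply, one_mul]

/-- As `mom_mul` (`gI_sum_mul`). -/
theorem momH_mul {G H : C(KKset, ℝ)} (hG : MomH G) (hH : MomH H) : MomH (G * H) := by
  obtain ⟨κ, _, _, R, hR, h, hs⟩ := hG
  obtain ⟨κ', _, _, R', hR', h', hs'⟩ := hH
  refine ⟨κ ⊕ κ', inferInstance, inferInstance, Sum.LiftRel R R', ?_, ?_, ?_⟩
  · rintro (a | a)
    · obtain ⟨b, hb, hab⟩ := hR a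
      refine ⟨Sum.inl b, fun e => hb (Sum.inl_injective e), ?_⟩
      exact hab.imp Sum.LiftRel.inl Sum.LiftRel.inl
    · obtain ⟨b, hb, hab⟩ := hR' a
      refine ⟨Sum.inr b, fun e => hb (Sum.inr_injective e), ?_⟩
      exact hab.imp Sum.LiftRel.inr Sum.LiftRel.inr
  · intro V _ _ _ σ
    rw [ContinuousMap.mul_apply, h V σ, h' V σ]
    unfold cnt
    rw [gI_sum_mul, Fintype.card_sum, pow_add, div_mul_div_comm]
  · intro m h0 h1 p
    rw [ContinuousMap.mul_apply, ContinuousMap.mul_apply, hs m h0 h1 p, hs' m h0 h1 p,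
      Fintype.card_sum, pow_add]
    ring

end Pool.Agent.Stirring.HP
end

section

/-! C2a: the last level of the hierarchy. -/

open Finset Filter Topology

namespace Pool.Agent.Stirring.HP

open Pool.Agent.Stirring.Hier

variable {N : ℕ} {g : ℕ → ℝ} {t c ρ : ℝ}

private theorem C2a_top {K : ℕ} (p : Word N K × Word N K) :
    top N K g p = g K / ((N : ℝ) ^ K) ^ 2 := by
  unfold top brate
  rw [if_pos (lab_eq_iff.2 fun i hi => absurd i.2 (by omega)), Nat.cast_pow]

private theorem C2a_ne (N K : ℕ) [NeZero N] : ((N : ℝ) ^ K) ≠ 0 :=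
  pow_ne_zero _ (Nat.cast_ne_zero.2 (NeZero.ne N))

private theorem C2a_tot [NeZero N] (K : ℕ) : tot (top N K g) = g K := by
  unfold tot
  simp_rw [C2a_top]
  rw [sum_const, card_univ, Fintype.card_prod, nsmul_eq_mul]
  push_cast
  rw [card_word]
  have := C2a_ne N K
  field_simp

/-- The rates of the last level are constant. `(tot)⁻¹ ^ M • (stepT ^ M) f = PM M f` for them
(`stepT_pow_apply`; `card_word`; `top N K g p = g K / (N ^ K) ^ 2` for every `p`, `tot = g K`). -/
theorem top_PM [NeZero N] {K : ℕ} (hg : 0 < g K) (M : ℕ) (f : Fn (Word N K)) :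
    (tot (top N K g))⁻¹ ^ M • (stepT (top N K g) ^ M) f = PM M f := by
  funext σ
  rw [Pi.smul_apply, smul_eq_mul, stepT_pow_apply, C2a_tot, PM]
  simp_rw [C2a_top, prod_const, card_univ, Fintype.card_fin]
  rw [← mul_sum, card_word]
  have h1 := C2a_ne N K
  have h2 : g K ≠ 0 := hg.ne'
  rw [← mul_assoc, ← mul_pow, eq_div_iff (by positivity), mul_comm, ← mul_assoc, ← mul_pow]
  have h3 : ((N : ℝ) ^ K) ^ 2 * ((g K)⁻¹ * (g K / ((N : ℝ) ^ K) ^ 2)) = 1 := by field_simp
  rw [h3, one_pow, one_mul]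
  rfl

theorem tot_top [NeZero N] {K : ℕ} : tot (top N K g) = g K := C2a_tot K

/-- `EL_top` and `sg_smooth_pow` pointwise, then `EL_mono`, `EL_const`. -/
theorem EL_PM [NeZero N] (hg : ∀ j, 0 < g j) (ht : 0 < t) {K : ℕ} {f : Fn (Word N (K + 1))}
    {C : ℝ} (hf : ∀ σ, |f σ| ≤ C) (M : ℕ) :
    |EL N (K + 1) g t (K + 1) f - EL N (K + 1) g t (K + 1) (PM M f)| ≤
      M * (C / Real.sqrt (t * g (K + 1))) := by
  have hg' : ∀ j, 0 ≤ g j := fun j => (hg j).le
  have h1 : ∀ σ, |Hier.sg (top N (K + 1) g) t f σ - Hier.sg (top N (K + 1) g) t (PM M f) σ| ≤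
      M * (C / Real.sqrt (t * g (K + 1))) := by
    intro σ
    have h := sg_smooth_pow (c := top N (K + 1) g) (top_nonneg hg')
      (by rw [tot_top]; exact hg (K + 1)) ht hf M σ
    rwa [top_PM (hg (K + 1)), tot_top] at h
  set D : ℝ := M * (C / Real.sqrt (t * g (K + 1))) with hD
  rw [EL_top, EL_top]
  have key : ∀ F G : Fn (Word N (K + 1)), (∀ σ, F σ ≤ G σ + D) →
      EL N (K + 1) g t K F ≤ EL N (K + 1) g t K G + D := by
    intro F G hFG
    have h2 := EL_mono hg' ht.le K (f := F) (h := fun σ => G σ + D) (fun σ _ => hFG σ)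
    have h3 := EL_add (N := N) (K := K + 1) g t K G (fun _ => D)
    rw [EL_const] at h3
    rwa [h3] at h2
  rw [abs_le]
  constructor
  · have := key (Hier.sg (top N (K + 1) g) t (PM M f)) (Hier.sg (top N (K + 1) g) t f)
      (fun σ => by have := (abs_le.1 (h1 σ)).1; linarith)
    linarith
  · have := key (Hier.sg (top N (K + 1) g) t f) (Hier.sg (top N (K + 1) g) t (PM M f))
      (fun σ => by have := (abs_le.1 (h1 σ)).2; linarith)
    linarith

theorem midf_eq {K : ℕ} (l : ℕ) (q : ℝ) (σ : Equiv.Perm (Word N K)) :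
    midf l q σ = (∑ x, if l ≤ cl σ x ∧ (cl σ x : ℝ) < (N : ℝ) ^ K / q then (1 : ℝ) else 0) /
      (N : ℝ) ^ K := by
  unfold midf
  rw [card_filter, card_word]
  push_cast
  rfl

theorem big_eq [NeZero N] {K : ℕ} (l : ℕ) (σ : Equiv.Perm (Word N K)) :
    ((big l σ).card : ℝ) / Fintype.card (Word N K) = 1 - av N K (below l) σ := by
  have h1 := C2a_ne N K
  unfold av big
  rw [card_word, eq_sub_iff_add_eq, ← add_div, div_eq_one_iff_eq h1, card_filter]
  push_cast
  rw [← sum_add_distrib, ← card_word (N := N) (K := K), ← card_univ]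
  have h2 : ((univ : Finset (Word N K)).card : ℝ) = ∑ _x : Word N K, (1 : ℝ) := by
    rw [sum_const, nsmul_eq_mul, mul_one]
  rw [h2]
  refine sum_congr rfl fun x _ => ?_
  unfold below
  by_cases h : l ≤ cl σ x
  · rw [if_pos h, if_neg (by rw [not_lt]; exact_mod_cast h), add_zero]
  · rw [if_neg h, if_pos (by rw [not_le] at h; exact_mod_cast h), zero_add]

end Pool.Agent.Stirring.HP
end

section

/-! C4b: the limit of the grouping counts. -/

open Finset Filter Topology

namespace Pool.Agent.Stirring.HP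

open Pool.Agent.Stirring.Hier

/-- Every index has a partner, so `gI R σ z ≤ ` indicator of `z a`, `z b` in one cycle for some fixed
`a ≠ b`; this cycle has length less than `l` or `z a ∈ big l σ`. The number of the pairs in one cycle
of length `< l` is at most `l n`. -/
theorem cnt_le {κ : Type} [Fintype κ] [DecidableEq κ] [Nonempty κ] {R : κ → κ → Prop}
    (hR : NoIso R) {V : Type} [Fintype V] [DecidableEq V] [Nonempty V] (σ : Equiv.Perm V)
    (l : ℕ) : cnt R σ ≤ ((big l σ).card : ℝ) / Fintype.card V + l / Fintype.card V := by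
  classical
  obtain ⟨a⟩ := (inferInstance : Nonempty κ)
  obtain ⟨b, hba, hR'⟩ := hR a
  set n := Fintype.card V with hn
  have hn0 : (0 : ℝ) < n := by
    have : 0 < n := Fintype.card_pos
    exact_mod_cast this
  have hk : 0 < Fintype.card κ := Fintype.card_pos
  have h1 : (∑ z : κ → V, gI R σ z) ≤
      (((univ.filter fun z : κ → V => z a ∈ big l σ).card : ℕ) : ℝ) +
        (((univ.filter fun z : κ → V => z a ∉ big l σ ∧ σ.SameCycle (z a) (z b)).card : ℕ) : ℝ) := by
    rw [← Finset.sum_boole, ← Finset.sum_boole, ← Finset.sum_add_distrib]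
    refine Finset.sum_le_sum fun z _ => ?_
    by_cases hz : ∀ a b, R a b → σ.SameCycle (z a) (z b)
    · rw [gI_eq (P := ∀ a b, R a b → σ.SameCycle (z a) (z b)) Iff.rfl, if_pos hz]
      have hs : σ.SameCycle (z a) (z b) := by
        rcases hR' with h | h
        · exact hz _ _ h
        · exact (hz _ _ h).symm
      by_cases hb : z a ∈ big l σ
      · rw [if_pos hb, if_neg (by tauto)]
        norm_num
      · rw [if_neg hb, if_pos ⟨hb, hs⟩]
        norm_num
    · rw [gI_eq (P := ∀ a b, R a b → σ.SameCycle (z a) (z b)) Iff.rfl, if_neg hz]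
      split_ifs <;> norm_num
  have h2 : (univ.filter fun z : κ → V => z a ∈ big l σ).card ≤
      n ^ (Fintype.card κ - 1) * (big l σ).card := by
    have h := card_pair (V := V) (I := κ) (B := univ) (E := fun _ y => y ∈ big l σ)
      (D := (big l σ).card) (fun x _ => by
        refine Finset.card_le_card ?_
        intro y hy
        exact (Finset.mem_filter.mp hy).2) hba
    rw [Fintype.piFinset_univ, Finset.card_univ] at h
    exact h
  have h3 : (univ.filter fun z : κ → V => z a ∉ big l σ ∧ σ.SameCycle (z a) (z b)).card ≤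
      n ^ (Fintype.card κ - 1) * l := by
    have h := card_pair (V := V) (I := κ) (B := univ)
      (E := fun x y => x ∉ big l σ ∧ σ.SameCycle x y)
      (D := l) (fun x _ => by
        by_cases hx : x ∈ big l σ
        · rw [Finset.filter_false_of_mem (fun y _ h => h.1 hx)]
          exact Nat.zero_le _
        · have h4 : (univ.filter fun y => x ∉ big l σ ∧ σ.SameCycle x y) ⊆ Hier.orb σ x := by
            intro y hy
            exact mem_orb_iff.mpr (Finset.mem_filter.mp hy).2.2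
          refine (Finset.card_le_card h4).trans ?_
          rw [Hier.card_orb]
          unfold big at hx
          rw [Finset.mem_filter] at hx
          have : ¬ (l ≤ cl σ x) := fun h => hx ⟨Finset.mem_univ _, h⟩
          omega) hba.symm
    rw [Fintype.piFinset_univ, Finset.card_univ] at h
    exact h
  have hpow : (n : ℝ) ^ Fintype.card κ = (n : ℝ) ^ (Fintype.card κ - 1) * n := by
    rw [← pow_succ]
    congr 1
    omega
  have hp : (0 : ℝ) < (n : ℝ) ^ (Fintype.card κ - 1) := by positivity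
  unfold cnt
  rw [← hn, hpow, div_le_iff₀ (by positivity)]
  have h2' : (((univ.filter fun z : κ → V => z a ∈ big l σ).card : ℕ) : ℝ) ≤
      (n : ℝ) ^ (Fintype.card κ - 1) * (big l σ).card := by exact_mod_cast h2
  have h3' : (((univ.filter fun z : κ → V => z a ∉ big l σ ∧ σ.SameCycle (z a) (z b)).card : ℕ) : ℝ) ≤
      (n : ℝ) ^ (Fintype.card κ - 1) * l := by exact_mod_cast h3
  refine h1.trans ((add_le_add h2' h3').trans (le_of_eq ?_))
  field_simp

variable {N : ℕ} {g : ℕ → ℝ} {t c ρ : ℝ}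

/-- Case `finf = 1` (in particular `t = 0`, `finf_zero`): `cnt_le`, `big_eq` and `uu_long`: the
expectation of `cnt R` is at most `1 - uu N g t K l + l / N^K`, arbitrarily small. -/
theorem cnt_limit_zero (hN : 2 ≤ N) (hg : ∀ j, 0 < g j) (hc : 0 < c) (hρN : ρ < N)
    (hcg : ∀ j, c * g j ≤ g (j + 1)) (hρ : ∀ j, g (j + 1) ≤ ρ * g j)
    (hs : Summable fun j => 1 / g j) (ht : 0 ≤ t) (hf : finf N g t = 1)
    {κ : Type} [Fintype κ] [DecidableEq κ] [Nonempty κ] {R : κ → κ → Prop} (hR : NoIso R) :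
    Tendsto (fun K => EL N K g t K (fun σ => cnt R σ)) atTop (𝓝 0) := by
  have hN0 : 0 < N := by omega
  have : NeZero N := ⟨by omega⟩
  have hN1 : (1 : ℝ) < N := by exact_mod_cast (by omega : 1 < N)
  have hgn : ∀ j, 0 ≤ g j := fun j => (hg j).le
  have hcard : ∀ K, (Fintype.card (Word N K) : ℝ) = (N : ℝ) ^ K := by
    intro K
    rw [card_word]
  have hnn : ∀ K, Nonempty (Word N K) := by
    intro K
    refine Fintype.card_pos_iff.mp ?_
    have h1 : (0 : ℝ) < (Fintype.card (Word N K) : ℝ) := by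
      rw [hcard]
      positivity
    exact_mod_cast h1
  have hlow : ∀ K, 0 ≤ EL N K g t K (fun σ => cnt R σ) := by
    intro K
    have h := EL_mono (N := N) (K := K) hgn ht K (f := fun _ => 0) (h := fun σ => cnt R σ)
      (fun σ _ => cnt_nonneg R σ)
    rwa [EL_const] at h
  have hup : ∀ (l K : ℕ), EL N K g t K (fun σ => cnt R σ) ≤
      (1 - uu N g t K l) + l / (N : ℝ) ^ K := by
    intro l K
    have := hnn K
    have h := EL_mono (N := N) (K := K) hgn ht K (f := fun σ => cnt R σ)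
      (h := fun σ => (-1) * av N K (below l) σ + (1 + l / (N : ℝ) ^ K)) (fun σ _ => by
        have h1 := cnt_le hR σ l
        rw [big_eq, hcard] at h1
        linarith)
    rw [EL_add, EL_mul, EL_const] at h
    unfold uu
    linarith
  rw [Metric.tendsto_atTop]
  intro ε hε
  obtain ⟨m₀, hm₀⟩ := uu_long hN hg hρN hρ ht (show 0 < ε / 3 by positivity)
  have h1 := hm₀ m₀ le_rfl
  have h2 : ∀ᶠ K : ℕ in atTop, (3 * (m₀ : ℝ)) / ε ≤ (N : ℝ) ^ K :=
    (tendsto_pow_atTop_atTop_of_one_lt hN1).eventually_ge_atTop _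
  obtain ⟨K₀, hK₀⟩ := Filter.eventually_atTop.mp (h1.and h2)
  refine ⟨K₀, fun K hK => ?_⟩
  obtain ⟨h3, h4⟩ := hK₀ K hK
  rw [hf] at h3
  rw [Real.dist_eq, sub_zero, abs_of_nonneg (hlow K)]
  have hNK : (0 : ℝ) < (N : ℝ) ^ K := by positivity
  have h5 : (m₀ : ℝ) / (N : ℝ) ^ K ≤ ε / 3 := by
    rw [div_le_iff₀ hε] at h4
    rw [div_le_iff₀ hNK]
    linarith
  have h6 := hup m₀ K
  have h7 := abs_le.mp h3
  linarith [h7.1]

end Pool.Agent.Stirring.HP
end

section

/-! B7b: the mean over the words in the points of `B`. -/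

open Finset

namespace Pool.Agent.Stirring.HP

variable {V : Type} [Fintype V] [DecidableEq V] {κ : Type} [Fintype κ] [DecidableEq κ]

/-- The proportion of the short cycles, and the probability that a long one contains at most two
sample points. -/
noncomputable def shr (B : Finset V) (σ : Equiv.Perm V) (q : ℝ) (s : ℕ) : ℝ :=
  ((B.filter fun x => (Hier.cl σ x : ℝ) < B.card / q).card : ℝ) / B.card +
    s * (1 - 1 / q) ^ (s - 2)

open Classical in
private theorem b7b_cover (B : Finset V) (σ : Equiv.Perm V) (j : ℕ) :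
    ((Fintype.piFinset (fun _ : κ ⊕ (Fin j ⊕ Fin j) => B)).filter fun u =>
      Function.Injective u ∧
        ¬ Q1 (univ.image (u ∘ Sum.inl)) (trc (univ.image u) σ)) ⊆
    (univ : Finset (κ × κ)).biUnion fun ab =>
      (Fintype.piFinset (fun _ : κ ⊕ (Fin j ⊕ Fin j) => B)).filter fun u =>
        Function.Injective u ∧ trc (univ.image u) σ (u (Sum.inl ab.1)) = u (Sum.inl ab.2) := by
  intro u hu
  rw [mem_filter] at hu
  obtain ⟨h1, h2, h3⟩ := hu
  unfold Q1 at h3
  push Not at h3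
  obtain ⟨x, hx, hy⟩ := h3
  obtain ⟨a, -, rfl⟩ := mem_image.1 hx
  obtain ⟨b, -, hb⟩ := mem_image.1 hy
  exact mem_biUnion.2 ⟨(a, b), mem_univ _, mem_filter.2 ⟨h1, h2, hb.symm⟩⟩

/-- If `Q1` fails there are `a, b` with `ρ (z a) = z b`, `ρ = trc (image u) σ`, `z = u ∘ inl`. For
`a ≠ b`: `card_exch` with `f S = trc S σ`, and `|I| - 1 ≥ 2 j` (here `|κ| ≥ 2`). For `a = b`: the
cycle of `z a` contains at most two points of the image (`trc_two`), `card_short`. -/
theorem count_Q1 {B : Finset V} (hB0 : B.Nonempty) {σ : Equiv.Perm V} (hB : ∀ x ∈ B, σ x ∈ B)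
    {j : ℕ} (hj : 1 ≤ j) {q : ℝ} (hq : 1 ≤ q) :
    (((Fintype.piFinset (fun _ : κ ⊕ (Fin j ⊕ Fin j) => B)).filter fun u =>
      Function.Injective u ∧
        ¬ Q1 (univ.image (u ∘ Sum.inl)) (trc (univ.image u) σ)).card : ℝ) ≤
      (B.card : ℝ) ^ (Fintype.card κ + 2 * j) *
        ((Fintype.card κ : ℝ) ^ 2 / (2 * j) +
          Fintype.card κ * shr B σ q (Fintype.card κ + 2 * j)) := by
  classical
  have hn : 0 < (B.card : ℝ) := by exact_mod_cast hB0.card_pos
  obtain ⟨s, hs⟩ : ∃ s, s = Fintype.card κ + 2 * j := ⟨_, rfl⟩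
  have hI : Fintype.card (κ ⊕ (Fin j ⊕ Fin j)) = s := by
    rw [Fintype.card_sum, Fintype.card_sum, Fintype.card_fin, hs]
    ring
  have hj' : 0 < (j : ℝ) := by exact_mod_cast hj
  rw [← hs]
  -- two different points
  have hne : ∀ a b : κ, a ≠ b →
      (((Fintype.piFinset (fun _ : κ ⊕ (Fin j ⊕ Fin j) => B)).filter fun u =>
        Function.Injective u ∧ trc (univ.image u) σ (u (Sum.inl a)) = u (Sum.inl b)).card : ℝ) ≤
      (B.card : ℝ) ^ s / (2 * j) := by
    intro a b hab
    have h1 := card_exch (I := κ ⊕ (Fin j ⊕ Fin j)) B (fun S x => trc S σ x)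
      (a := Sum.inl a) (b := Sum.inl b) (fun h => hab (Sum.inl_injective h))
    rw [hI] at h1
    have h2 : 2 * j ≤ s - 1 := by
      have h3 : 1 ≤ Fintype.card κ := Fintype.card_pos_iff.2 ⟨a⟩
      omega
    rw [le_div_iff₀ (by positivity)]
    have h4 := (Nat.mul_le_mul_right _ h2).trans h1
    have h5 : ((2 * j * ((Fintype.piFinset (fun _ : κ ⊕ (Fin j ⊕ Fin j) => B)).filter fun u =>
        Function.Injective u ∧ trc (univ.image u) σ (u (Sum.inl a)) = u (Sum.inl b)).card : ℕ) :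
          ℝ) ≤ ((B.card ^ s : ℕ) : ℝ) := by
      exact_mod_cast h4
    push_cast at h5
    linarith
  -- a fixed point
  have heq : ∀ a : κ,
      (((Fintype.piFinset (fun _ : κ ⊕ (Fin j ⊕ Fin j) => B)).filter fun u =>
        Function.Injective u ∧ trc (univ.image u) σ (u (Sum.inl a)) = u (Sum.inl a)).card : ℝ) ≤
      (B.card : ℝ) ^ s * shr B σ q s := by
    intro a
    have h1 := card_short (I := κ ⊕ (Fin j ⊕ Fin j)) hB (Sum.inl a) (by rw [hI]; omega) hq
    rw [hI] at h1
    have h2 : (B.card : ℝ) ^ s * shr B σ q s =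
        (B.card : ℝ) ^ (s - 1) *
          ((B.filter fun x => (Hier.cl σ x : ℝ) < B.card / q).card : ℝ) +
        s * ((B.card : ℝ) ^ s * (1 - 1 / q) ^ (s - 2)) := by
      obtain ⟨r, hr⟩ : ∃ r, s = r + 1 := ⟨s - 1, by omega⟩
      unfold shr
      rw [hr, Nat.add_sub_cancel, pow_succ]
      generalize ((B.filter fun x => (Hier.cl σ x : ℝ) < B.card / q).card : ℝ) = A
      generalize (1 - 1 / q) ^ (r + 1 - 2) = c
      rw [mul_add, mul_assoc ((B.card : ℝ) ^ r), mul_div_cancel₀ _ hn.ne']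
      ring
    rw [h2]
    refine le_trans ?_ h1
    exact_mod_cast card_le_card fun u hu => by
      rw [mem_filter] at hu ⊢
      obtain ⟨h3, h4, h5⟩ := hu
      exact ⟨h3, h4, trc_two (mem_image_of_mem _ (mem_univ _)) (by rw [h5, h5])⟩
  -- the sum
  have h1 := (card_le_card (b7b_cover (κ := κ) B σ j)).trans card_biUnion_le
  have h2 : (((Fintype.piFinset (fun _ : κ ⊕ (Fin j ⊕ Fin j) => B)).filter fun u =>
      Function.Injective u ∧
        ¬ Q1 (univ.image (u ∘ Sum.inl)) (trc (univ.image u) σ)).card : ℝ) ≤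
      ∑ ab : κ × κ, (((Fintype.piFinset (fun _ : κ ⊕ (Fin j ⊕ Fin j) => B)).filter fun u =>
        Function.Injective u ∧
          trc (univ.image u) σ (u (Sum.inl ab.1)) = u (Sum.inl ab.2)).card : ℝ) := by
    exact_mod_cast h1
  refine h2.trans ?_
  have hX : 0 ≤ (B.card : ℝ) ^ s * shr B σ q s := by
    refine mul_nonneg (pow_nonneg hn.le _) ?_
    unfold shr
    have : 0 ≤ 1 - 1 / q := by
      rw [sub_nonneg, div_le_one (by linarith)]
      exact hq
    positivity
  have h3 : ∀ ab : κ × κ,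
      (((Fintype.piFinset (fun _ : κ ⊕ (Fin j ⊕ Fin j) => B)).filter fun u =>
        Function.Injective u ∧
          trc (univ.image u) σ (u (Sum.inl ab.1)) = u (Sum.inl ab.2)).card : ℝ) ≤
      (if ab.1 = ab.2 then (B.card : ℝ) ^ s * shr B σ q s else 0) +
        (B.card : ℝ) ^ s / (2 * j) := by
    rintro ⟨a, b⟩
    by_cases hab : a = b
    · subst hab
      simp only [if_true]
      have : 0 ≤ (B.card : ℝ) ^ s / (2 * j) := by positivity
      linarith [heq a]
    · simp only [if_neg hab]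
      linarith [hne a b hab]
  refine (sum_le_sum fun ab _ => h3 ab).trans ?_
  rw [sum_add_distrib, Fintype.sum_prod_type]
  simp only [sum_ite_eq, mem_univ, if_true, sum_const, card_univ, nsmul_eq_mul, Fintype.card_prod,
    Nat.cast_mul]
  apply le_of_eq
  field_simp
  ring

end Pool.Agent.Stirring.HP
end

section

/-! B7c: the mean over the words in the points of `B`. -/

open Finset

namespace Pool.Agent.Stirring.HP

variable {V : Type} [Fintype V] [DecidableEq V] {κ : Type} [Fintype κ] [DecidableEq κ]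

/-- `phi X ρ` is the sum over the indices `i : Fin j ⊕ Fin j` of the indicator of
`ρ (ρ (u i)) = u i` (`u` is injective); `trc_two` and `card_short`. -/
theorem count_phi {B : Finset V} (hB0 : B.Nonempty) {σ : Equiv.Perm V} (hB : ∀ x ∈ B, σ x ∈ B)
    {j : ℕ} (hj : 1 ≤ j) {q : ℝ} (hq : 1 ≤ q) :
    ∑ u ∈ (Fintype.piFinset (fun _ : κ ⊕ (Fin j ⊕ Fin j) => B)).filter
        (fun u => Function.Injective u),
      (phi (univ.image (u ∘ Sum.inr)) (trc (univ.image u) σ) : ℝ) ≤
      (B.card : ℝ) ^ (Fintype.card κ + 2 * j) *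
        (2 * j * shr B σ q (Fintype.card κ + 2 * j)) := by
  have hcard : Fintype.card (κ ⊕ (Fin j ⊕ Fin j)) = Fintype.card κ + 2 * j := by
    rw [Fintype.card_sum, Fintype.card_sum, Fintype.card_fin]
    ring
  have hn : 0 < (B.card : ℝ) := by exact_mod_cast hB0.card_pos
  have h1 : ∀ i : Fin j ⊕ Fin j,
      (((Fintype.piFinset (fun _ : κ ⊕ (Fin j ⊕ Fin j) => B)).filter fun u =>
        Function.Injective u ∧
          trc (univ.image u) σ (trc (univ.image u) σ (u (Sum.inr i))) = u (Sum.inr i)).card : ℝ) ≤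
      (B.card : ℝ) ^ (Fintype.card κ + 2 * j) * shr B σ q (Fintype.card κ + 2 * j) := by
    intro i
    have h2 : 2 ≤ Fintype.card (κ ⊕ (Fin j ⊕ Fin j)) := by omega
    refine le_trans (Nat.cast_le.2 (card_le_card ?_))
      ((card_short hB (Sum.inr i : κ ⊕ (Fin j ⊕ Fin j)) h2 hq).trans (le_of_eq ?_))
    · intro u
      simp only [mem_filter]
      rintro ⟨h3, h4, h5⟩
      exact ⟨h3, h4, trc_two (mem_image_of_mem _ (mem_univ _)) h5⟩
    · rw [hcard]
      unfold shr
      have h3 : (B.card : ℝ) ^ (Fintype.card κ + 2 * j) =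
          (B.card : ℝ) ^ (Fintype.card κ + 2 * j - 1) * B.card := by
        rw [← pow_succ]
        congr 1
        omega
      rw [mul_add, h3]
      congr 1
      · rw [mul_assoc, ← mul_div_assoc, mul_div_cancel_left₀ _ hn.ne']
      · ring
  have h2 : ∀ u ∈ (Fintype.piFinset (fun _ : κ ⊕ (Fin j ⊕ Fin j) => B)).filter
      (fun u => Function.Injective u),
      (phi (univ.image (u ∘ Sum.inr)) (trc (univ.image u) σ) : ℝ) =
        ∑ i : Fin j ⊕ Fin j,
          if trc (univ.image u) σ (trc (univ.image u) σ (u (Sum.inr i))) = u (Sum.inr i)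
          then (1 : ℝ) else 0 := by
    intro u hu
    have hinj : Function.Injective (u ∘ (Sum.inr : Fin j ⊕ Fin j → κ ⊕ (Fin j ⊕ Fin j))) :=
      (mem_filter.1 hu).2.comp Sum.inr_injective
    rw [phi, filter_image, card_image_of_injective _ hinj, card_filter]
    push_cast
    rfl
  rw [sum_congr rfl h2, sum_comm]
  calc _ ≤ ∑ _i : Fin j ⊕ Fin j,
        (B.card : ℝ) ^ (Fintype.card κ + 2 * j) * shr B σ q (Fintype.card κ + 2 * j) := by
        refine sum_le_sum fun i _ => ?_
        rw [← sum_filter, filter_filter, sum_const, nsmul_eq_mul, mul_one]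
        exact h1 i
    _ = _ := by
        rw [sum_const, card_univ, Fintype.card_sum, Fintype.card_fin, nsmul_eq_mul]
        push_cast
        ring

end Pool.Agent.Stirring.HP
end

section

/-! B3b: grouping events. -/

open Finset

namespace Pool.Agent.Stirring.HP

variable {V : Type} [Fintype V] [DecidableEq V] {κ : Type} [Fintype κ] [DecidableEq κ]

/-- The permutations supported in the image of `z` correspond to the permutations of `κ`
(e.g. `Equiv.Perm.viaEmbedding`, or `UZ_rec`-free: `Equiv.Perm.extendDomain`), and the relation of being in the same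
cycle is transported. -/
theorem UZ_gI (R : κ → κ → Prop) {z : κ → V} (hz : Function.Injective z) :
    UZ (univ.image z) (fun π => gI R π z) = UR R := by
  classical
  let p : V → Prop := fun x => x ∈ univ.image z
  let f : κ ≃ Subtype p := Equiv.ofBijective
    (fun c => ⟨z c, Finset.mem_image_of_mem z (Finset.mem_univ c)⟩)
    ⟨fun a b h => hz (congrArg Subtype.val h), fun ⟨x, hx⟩ => by
      obtain ⟨c, _, hc⟩ := Finset.mem_image.1 hx
      exact ⟨c, Subtype.ext hc⟩⟩
  have hf : ∀ c, (f c : V) = z c := fun c => rfl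
  unfold UZ UR
  rw [Finset.card_image_of_injective _ hz, Finset.card_univ]
  congr 1
  symm
  refine Finset.sum_bij (fun τ _ => τ.extendDomain f) ?_ ?_ ?_ ?_
  · intro τ _
    rw [Finset.mem_filter]
    exact ⟨Finset.mem_univ _, fun a ha => Equiv.Perm.extendDomain_apply_not_subtype _ _ ha⟩
  · intro τ _ τ' _ h
    exact Equiv.Perm.extendDomainHom_injective f h
  · intro π hπ
    have hS := (Finset.mem_filter.1 hπ).2
    have hiff : ∀ x, p (π x) ↔ p x := by
      intro x
      constructor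
      · intro h
        by_contra hx
        rw [hS x hx] at h
        exact hx h
      · intro h
        exact suppIn_apply_mem hS h
    refine ⟨f.permCongr.symm (π.subtypePerm hiff), Finset.mem_univ _, ?_⟩
    ext x
    by_cases hx : p x
    · rw [Equiv.Perm.extendDomain_apply_subtype _ _ hx]
      simp
    · rw [Equiv.Perm.extendDomain_apply_not_subtype _ _ hx]
      exact (hS x hx).symm
  · intro τ _
    unfold gI
    refine if_congr ?_ rfl rfl
    constructor
    · intro H c c' hc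
      have := (Equiv.Perm.sameCycle_extendDomain (g := τ) (f := f) (x := c) (y := c')).2 (H c c' hc)
      exact this
    · intro H c c' hc
      exact (Equiv.Perm.sameCycle_extendDomain (g := τ) (f := f) (x := c) (y := c')).1 (H c c' hc)

end Pool.Agent.Stirring.HP
end

section

/-! B3c: grouping events. -/

open Finset

namespace Pool.Agent.Stirring.HP

variable {V : Type} [Fintype V] [DecidableEq V] {κ : Type} [Fintype κ] [DecidableEq κ]

/-- `core (Fintype.card κ)` for `Z = univ.image z`, `F π = gI R π z`, `ρ = trc (X ∪ Z) σ`: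
`AM F σ X = AM F ρ X` by `trc_mul` (`gI_del`), `Inv X Z F` by `gI_del`, `UZ_gI`. -/
theorem core_gI (κ : Type) [Fintype κ] [DecidableEq κ] : ∃ A : ℝ, 1 ≤ A ∧
    ∀ (R : κ → κ → Prop) (V : Type) [Fintype V] [DecidableEq V] (X : Finset V) (z : κ → V)
      (σ : Equiv.Perm V) (j : ℕ), Function.Injective z → Disjoint X (univ.image z) →
      X.card = 2 * j → Q1 (univ.image z) (trc (X ∪ univ.image z) σ) →
      |AM (fun π => gI R π z) σ X - UR R| ≤
        A * ((phi X (trc (X ∪ univ.image z) σ) : ℝ) + 200) ^ 2 * bet j := by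
  obtain ⟨A, hA1, hA⟩ := core (Fintype.card κ)
  refine ⟨A, hA1, ?_⟩
  intro R V _ _ X z σ j hz hd hc hQ
  have hAM : AM (fun π => gI R π z) σ X =
      AM (fun π => gI R π z) (trc (X ∪ univ.image z) σ) X := by
    unfold AM
    congr 1
    refine Finset.sum_congr rfl fun μ hμ => ?_
    refine trc_mul (S := X ∪ univ.image z) (F := fun π => gI R π z) ?_ ?_ σ
    · intro a ha π
      refine gI_del R (fun c hca => ha ?_) π
      rw [← hca]
      exact Finset.mem_union_right _ (Finset.mem_image_of_mem z (Finset.mem_univ c))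
    · intro a ha
      have h1 := (Finset.mem_filter.1 hμ).2.2 a
      by_contra hne
      exact ha (Finset.mem_union_left _ (h1.1 hne))
  rw [hAM, ← UZ_gI R hz]
  refine hA j V X (univ.image z) (trc (X ∪ univ.image z) σ) (fun π => gI R π z) hd ?_ hc
    (trc_suppIn _ _) ?_ (fun π => gI_abs_le R π z) hQ
  · rw [Finset.card_image_of_injective _ hz, Finset.card_univ]
  · intro π _ a ha
    refine gI_del R (fun c hca => ?_) π
    have h2 : a ∈ univ.image z := by
      rw [← hca]
      exact Finset.mem_image_of_mem z (Finset.mem_univ c)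
    exact (Finset.disjoint_left.1 hd ha) h2

end Pool.Agent.Stirring.HP
end

section

end

section

/-! B7d: the mean over the words in the points of `B`. -/

open Finset

namespace Pool.Agent.Stirring.HP

variable {V : Type} [Fintype V] [DecidableEq V] {κ : Type} [Fintype κ] [DecidableEq κ]

private theorem B7d_AM_nonneg {F : Equiv.Perm V → ℝ} (hF : ∀ π, 0 ≤ F π) (ρ : Equiv.Perm V)
    (X : Finset V) : 0 ≤ AM F ρ X :=
  div_nonneg (Finset.sum_nonneg fun μ _ => hF _) (Nat.cast_nonneg _)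

/-- The error for one sample. -/
private noncomputable def B7dE (σ : Equiv.Perm V) (j : ℕ) (c Φ₀ : ℝ)
    (u : κ ⊕ (Fin j ⊕ Fin j) → V) : ℝ :=
  c + (if Q1 (univ.image (u ∘ Sum.inl)) (trc (univ.image u) σ) then 0 else 1) +
    (phi (univ.image (u ∘ Sum.inr)) (trc (univ.image u) σ) : ℝ) / Φ₀

private theorem B7d_pt {R : κ → κ → Prop} {B : Finset V} {σ : Equiv.Perm V} {j : ℕ} {A Φ₀ : ℝ}
    (hA1 : 1 ≤ A) (hΦ : 0 < Φ₀)
    (hA : ∀ (X : Finset V) (z : κ → V), Function.Injective z → Disjoint X (univ.image z) →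
      X.card = 2 * j → Q1 (univ.image z) (trc (X ∪ univ.image z) σ) →
      |AM (fun π => gI R π z) σ X - UR R| ≤
        A * ((phi X (trc (X ∪ univ.image z) σ) : ℝ) + 200) ^ 2 * bet j)
    {z : κ → V} {w : Fin j → V × V} (hz : Function.Injective z) (hw : w ∈ GW B z j) :
    |AM (fun π => gI R π z) σ (univ.image (slots w)) - UR R| ≤
      B7dE σ j (A * (Φ₀ + 200) ^ 2 * bet j) Φ₀ (smp z w) := by
  have hw' := (Finset.mem_filter.mp hw).2
  obtain ⟨hinj, hsl⟩ := hw'
  have hbet := bet_pos j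
  have hc0 : 0 ≤ A * (Φ₀ + 200) ^ 2 * bet j := by positivity
  have hcard : (univ.image (slots w)).card = 2 * j := by
    rw [Finset.card_image_of_injective _ hinj, Finset.card_univ]
    simp only [Fintype.card_sum, Fintype.card_fin]
    omega
  have hdisj : Disjoint (univ.image (slots w)) (univ.image z) := by
    rw [Finset.disjoint_left]
    intro y hy hy'
    rw [Finset.mem_image] at hy hy'
    obtain ⟨s, _, rfl⟩ := hy
    obtain ⟨c, _, hc⟩ := hy'
    exact (hsl s).2 c hc.symm
  have h01 : |AM (fun π => gI R π z) σ (univ.image (slots w)) - UR R| ≤ 1 := by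
    have h1 := B7d_AM_nonneg (fun π => gI_nonneg R π z) σ (univ.image (slots w))
    have h2 : |AM (fun π => gI R π z) σ (univ.image (slots w))| ≤ 1 :=
      AM_abs_le zero_le_one (fun π => gI_abs_le R π z) _ _
    have h3 := UR_nonneg R
    have h4 := UR_le_one R
    have h5 := (abs_le.mp h2).2
    rw [abs_le]
    constructor <;> linarith
  have hin : (smp z w) ∘ Sum.inl = z := rfl
  have hir : (smp z w) ∘ Sum.inr = slots w := rfl
  unfold B7dE
  rw [hin, hir, image_smp]
  have hphi0 : (0 : ℝ) ≤ (phi (univ.image (slots w))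
      (trc (univ.image (slots w) ∪ univ.image z) σ) : ℝ) / Φ₀ :=
    div_nonneg (Nat.cast_nonneg _) hΦ.le
  by_cases hQ : Q1 (univ.image z) (trc (univ.image (slots w) ∪ univ.image z) σ)
  · rw [if_pos hQ, add_zero]
    by_cases hφ : (phi (univ.image (slots w))
        (trc (univ.image (slots w) ∪ univ.image z) σ) : ℝ) ≤ Φ₀
    · have h1 := hA _ z hz hdisj hcard hQ
      have h2 : A * ((phi (univ.image (slots w))
          (trc (univ.image (slots w) ∪ univ.image z) σ) : ℝ) + 200) ^ 2 * bet j ≤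
          A * (Φ₀ + 200) ^ 2 * bet j := by
        refine mul_le_mul_of_nonneg_right ?_ hbet.le
        refine mul_le_mul_of_nonneg_left ?_ (by linarith)
        refine pow_le_pow_left₀ (by positivity) (by linarith) 2
      linarith
    · have h1 : (1 : ℝ) ≤ (phi (univ.image (slots w))
          (trc (univ.image (slots w) ∪ univ.image z) σ) : ℝ) / Φ₀ := by
        rw [le_div_iff₀ hΦ, one_mul]
        exact (not_le.mp hφ).le
      linarith
  · rw [if_neg hQ]
    linarith

private theorem B7d_inner (R : κ → κ → Prop) (B : Finset V) (σ : Equiv.Perm V) (j : ℕ)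
    (z : κ → V) :
    ∑ w ∈ Fintype.piFinset (fun _ : Fin j => B ×ˢ B),
      (if Function.Injective (smp z w) then gI R (σ * wp w) z - UR R else 0) =
    ∑ w ∈ Fintype.piFinset (fun _ : Fin j => B ×ˢ B),
      (if Function.Injective (smp z w) then
        AM (fun π => gI R π z) σ (univ.image (slots w)) - UR R else 0) := by
  by_cases hz : Function.Injective z
  · have hset : (Fintype.piFinset (fun _ : Fin j => B ×ˢ B)).filter
        (fun w => Function.Injective (smp z w)) = GW B z j := by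
      ext w
      rw [Finset.mem_filter, Fintype.mem_piFinset]
      have h1 := smp_inj (B := B) (z := z) (w := w)
      have h2 : (∀ s, slots w s ∈ B) ↔ ∀ a, w a ∈ B ×ˢ B := by
        constructor
        · intro h a
          rw [Finset.mem_product]
          exact ⟨h (Sum.inl a), h (Sum.inr a)⟩
        · intro h s
          rcases s with a | a
          · exact (Finset.mem_product.mp (h a)).1
          · exact (Finset.mem_product.mp (h a)).2
      constructor
      · rintro ⟨h3, h4⟩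
        exact (h1.mp ⟨h4, h2.mpr h3⟩).2
      · intro h3
        obtain ⟨h4, h5⟩ := h1.mpr ⟨hz, h3⟩
        exact ⟨h2.mp h5, h4⟩
    rw [← Finset.sum_filter, ← Finset.sum_filter, hset, Finset.sum_sub_distrib,
      Finset.sum_sub_distrib]
    rw [sum_GW B z j (fun π => gI R π z) σ]
  · have h : ∀ w : Fin j → V × V, ¬ Function.Injective (smp z w) := by
      intro w hw
      exact hz (fun a b hab => Sum.inl_injective (hw (by exact hab)))
    refine Finset.sum_congr rfl (fun w _ => ?_)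
    rw [if_neg (h w), if_neg (h w)]

private theorem B7d_sumE {B : Finset V} (hB0 : B.Nonempty) {σ : Equiv.Perm V}
    (hB : ∀ x ∈ B, σ x ∈ B) {j : ℕ} (hj : 1 ≤ j) {q : ℝ} (hq : 1 ≤ q) {c Φ₀ : ℝ} (hc : 0 ≤ c)
    (hΦ : 0 < Φ₀) :
    ∑ u ∈ Fintype.piFinset (fun _ : κ ⊕ (Fin j ⊕ Fin j) => B),
      (if Function.Injective u then B7dE σ j c Φ₀ u else 0) ≤
    (B.card : ℝ) ^ (Fintype.card κ + 2 * j) * (c + (Fintype.card κ : ℝ) ^ 2 / (2 * j) +
      (Fintype.card κ + 2 * j / Φ₀) * shr B σ q (Fintype.card κ + 2 * j)) := by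
  have h1 := count_Q1 (κ := κ) hB0 hB hj hq
  have h2 := count_phi (κ := κ) hB0 hB hj hq
  rw [← Finset.sum_filter]
  unfold B7dE
  rw [Finset.sum_add_distrib, Finset.sum_add_distrib, Finset.sum_const, nsmul_eq_mul,
    ← Finset.sum_div]
  have h3 : ((((Fintype.piFinset (fun _ : κ ⊕ (Fin j ⊕ Fin j) => B)).filter
      (fun u => Function.Injective u)).card : ℕ) : ℝ) ≤
      (B.card : ℝ) ^ (Fintype.card κ + 2 * j) := by
    have h4 := Finset.card_filter_le (Fintype.piFinset (fun _ : κ ⊕ (Fin j ⊕ Fin j) => B))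
      (fun u => Function.Injective u)
    have h5 : (Fintype.piFinset (fun _ : κ ⊕ (Fin j ⊕ Fin j) => B)).card =
        B.card ^ (Fintype.card κ + 2 * j) := by
      rw [Fintype.card_piFinset, Finset.prod_const, Finset.card_univ]
      congr 1
      simp only [Fintype.card_sum, Fintype.card_fin]
      omega
    rw [h5] at h4
    exact_mod_cast h4
  have h4 : ∑ u ∈ (Fintype.piFinset (fun _ : κ ⊕ (Fin j ⊕ Fin j) => B)).filter
      (fun u => Function.Injective u),
      (if Q1 (univ.image (u ∘ Sum.inl)) (trc (univ.image u) σ) then (0 : ℝ) else 1) =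
      (((Fintype.piFinset (fun _ : κ ⊕ (Fin j ⊕ Fin j) => B)).filter fun u =>
      Function.Injective u ∧
        ¬ Q1 (univ.image (u ∘ Sum.inl)) (trc (univ.image u) σ)).card : ℝ) := by
    rw [← Finset.filter_filter, Finset.card_filter, Nat.cast_sum]
    refine Finset.sum_congr rfl (fun u _ => ?_)
    by_cases hQ : Q1 (univ.image (u ∘ Sum.inl)) (trc (univ.image u) σ)
    · simp [hQ]
    · simp [hQ]
  rw [h4]
  have h5 : (∑ u ∈ (Fintype.piFinset (fun _ : κ ⊕ (Fin j ⊕ Fin j) => B)).filter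
        (fun u => Function.Injective u),
      (phi (univ.image (u ∘ Sum.inr)) (trc (univ.image u) σ) : ℝ)) / Φ₀ ≤
      ((B.card : ℝ) ^ (Fintype.card κ + 2 * j) *
        (2 * j * shr B σ q (Fintype.card κ + 2 * j))) / Φ₀ :=
    div_le_div_of_nonneg_right h2 hΦ.le
  have h6 := mul_le_mul_of_nonneg_right h3 hc
  have h7 : (B.card : ℝ) ^ (Fintype.card κ + 2 * j) * (c + (Fintype.card κ : ℝ) ^ 2 / (2 * j) +
      (Fintype.card κ + 2 * j / Φ₀) * shr B σ q (Fintype.card κ + 2 * j)) =
      (B.card : ℝ) ^ (Fintype.card κ + 2 * j) * c +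
      (B.card : ℝ) ^ (Fintype.card κ + 2 * j) *
        ((Fintype.card κ : ℝ) ^ 2 / (2 * j) +
          Fintype.card κ * shr B σ q (Fintype.card κ + 2 * j)) +
      ((B.card : ℝ) ^ (Fintype.card κ + 2 * j) *
        (2 * j * shr B σ q (Fintype.card κ + 2 * j))) / Φ₀ := by
    ring
  rw [h7]
  linarith

/-- Let `k = |κ|`, `s = k + 2 j`, `N = |B| ^ s`. By `sum_smp` the left side is `N⁻¹` times the absolute
value of the sum over the pairs `(z, w)` of `gI R (σ * wp w) z - UR R`, all these terms are in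
`[-1, 1]`. The pairs for which `smp z w` is not injective: at most `s² |B| ^ (s - 1)`
(`card_not_inj`). The others are the `z` injective, `w ∈ GW B z j` (`smp_inj`), and by `sum_GW`
`gI R (σ * wp w) z` may be replaced by `AM (fun π => gI R π z) σ (image (slots w))`; with
`ρ = trc (image (smp z w)) σ` (`image_smp`) the difference with `UR R` is at most `A (Φ₀ + 200)² bet j`
(`core_gI`) if `Q1` holds and `phi ≤ Φ₀`, and at most `1` always (both are in `[0, 1]`); so it is at most
`A (Φ₀ + 200)² bet j + 1{not Q1} + phi / Φ₀`. Sum with `count_Q1` and `count_phi`. -/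
theorem QM_avg (κ : Type) [Fintype κ] [DecidableEq κ] : ∃ A : ℝ, 1 ≤ A ∧
    ∀ (R : κ → κ → Prop) (V : Type) [Fintype V] [DecidableEq V] (B : Finset V)
      (σ : Equiv.Perm V) (j : ℕ) (q Φ₀ : ℝ), B.Nonempty → (∀ x ∈ B, σ x ∈ B) → 1 ≤ j → 1 ≤ q →
      0 < Φ₀ →
      |(∑ z ∈ Fintype.piFinset (fun _ : κ => B), QM B j (fun τ => gI R τ z) σ) /
          (B.card : ℝ) ^ Fintype.card κ - UR R| ≤
        ((Fintype.card κ : ℝ) + 2 * j) ^ 2 / B.card + A * (Φ₀ + 200) ^ 2 * bet j +
          (Fintype.card κ : ℝ) ^ 2 / j +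
          (Fintype.card κ + 2 * j / Φ₀) * shr B σ q (Fintype.card κ + 2 * j) := by
  obtain ⟨A, hA1, hA⟩ := core_gI κ
  refine ⟨A, hA1, ?_⟩
  intro R V _ _ B σ j q Φ₀ hB0 hB hj hq hΦ
  have hN0 : (0 : ℝ) < (B.card : ℝ) := by exact_mod_cast hB0.card_pos
  have hj0 : (0 : ℝ) < (j : ℝ) := by exact_mod_cast hj
  have hbet := bet_pos j
  have hc0 : 0 ≤ A * (Φ₀ + 200) ^ 2 * bet j := by positivity
  -- step 1
  have hcz : (((Fintype.piFinset (fun _ : κ => B)).card : ℕ) : ℝ) =
      (B.card : ℝ) ^ Fintype.card κ := by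
    rw [Fintype.card_piFinset, Finset.prod_const, Finset.card_univ]
    push_cast
    rfl
  have hcw : (((Fintype.piFinset (fun _ : Fin j => B ×ˢ B)).card : ℕ) : ℝ) =
      ((B.card : ℝ) ^ 2) ^ j := by
    rw [Fintype.card_piFinset, Finset.prod_const, Finset.card_univ, Finset.card_product,
      Fintype.card_fin]
    push_cast
    rw [pow_two]
  have hpow : (B.card : ℝ) ^ (Fintype.card κ + 2 * j) =
      ((B.card : ℝ) ^ 2) ^ j * (B.card : ℝ) ^ Fintype.card κ := by
    rw [pow_add, pow_mul, mul_comm]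
  have hp1 : (0 : ℝ) < ((B.card : ℝ) ^ 2) ^ j := by positivity
  have hp2 : (0 : ℝ) < (B.card : ℝ) ^ Fintype.card κ := by positivity
  have hstep1 : (∑ z ∈ Fintype.piFinset (fun _ : κ => B), QM B j (fun τ => gI R τ z) σ) /
          (B.card : ℝ) ^ Fintype.card κ - UR R =
      (∑ z ∈ Fintype.piFinset (fun _ : κ => B),
        ∑ w ∈ Fintype.piFinset (fun _ : Fin j => B ×ˢ B), (gI R (σ * wp w) z - UR R)) /
        (B.card : ℝ) ^ (Fintype.card κ + 2 * j) := by
    have h1 : ∑ z ∈ Fintype.piFinset (fun _ : κ => B),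
        ∑ w ∈ Fintype.piFinset (fun _ : Fin j => B ×ˢ B), (gI R (σ * wp w) z - UR R) =
        ∑ z ∈ Fintype.piFinset (fun _ : κ => B),
        ∑ w ∈ Fintype.piFinset (fun _ : Fin j => B ×ˢ B), gI R (σ * wp w) z -
        (B.card : ℝ) ^ (Fintype.card κ + 2 * j) * UR R := by
      rw [hpow, ← hcz, ← hcw]
      rw [← Finset.sum_congr rfl (fun z _ => (Finset.sum_sub_distrib
        (s := Fintype.piFinset (fun _ : Fin j => B ×ˢ B)) (fun w => gI R (σ * wp w) z)
        (fun _ => UR R)).symm)]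
      rw [Finset.sum_sub_distrib]
      simp only [Finset.sum_const, nsmul_eq_mul]
      ring
    rw [h1]
    unfold QM
    rw [← Finset.sum_div, hpow]
    field_simp
  -- step 2
  have hsplit : ∑ z ∈ Fintype.piFinset (fun _ : κ => B),
        ∑ w ∈ Fintype.piFinset (fun _ : Fin j => B ×ˢ B), (gI R (σ * wp w) z - UR R) =
      ∑ z ∈ Fintype.piFinset (fun _ : κ => B),
        ∑ w ∈ Fintype.piFinset (fun _ : Fin j => B ×ˢ B),
          (if Function.Injective (smp z w) then
        AM (fun π => gI R π z) σ (univ.image (slots w)) - UR R else 0) +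
      ∑ z ∈ Fintype.piFinset (fun _ : κ => B),
        ∑ w ∈ Fintype.piFinset (fun _ : Fin j => B ×ˢ B),
          (if Function.Injective (smp z w) then 0 else gI R (σ * wp w) z - UR R) := by
    rw [← Finset.sum_add_distrib]
    refine Finset.sum_congr rfl (fun z _ => ?_)
    rw [← B7d_inner R B σ j z, ← Finset.sum_add_distrib]
    refine Finset.sum_congr rfl (fun w _ => ?_)
    split_ifs
    · rw [add_zero]
    · rw [zero_add]
  -- the injective samples
  have hI1 : |∑ z ∈ Fintype.piFinset (fun _ : κ => B),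
        ∑ w ∈ Fintype.piFinset (fun _ : Fin j => B ×ˢ B),
          (if Function.Injective (smp z w) then
        AM (fun π => gI R π z) σ (univ.image (slots w)) - UR R else 0)| ≤
      ∑ u ∈ Fintype.piFinset (fun _ : κ ⊕ (Fin j ⊕ Fin j) => B),
      (if Function.Injective u then B7dE σ j (A * (Φ₀ + 200) ^ 2 * bet j) Φ₀ u else 0) := by
    rw [← sum_smp B j (fun u => if Function.Injective u then
      B7dE σ j (A * (Φ₀ + 200) ^ 2 * bet j) Φ₀ u else 0)]
    refine (Finset.abs_sum_le_sum_abs _ _).trans (Finset.sum_le_sum (fun z hz => ?_))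
    refine (Finset.abs_sum_le_sum_abs _ _).trans (Finset.sum_le_sum (fun w hw => ?_))
    by_cases hinj : Function.Injective (smp z w)
    · rw [if_pos hinj, if_pos hinj]
      have h2 : ∀ s, slots w s ∈ B := by
        rw [Fintype.mem_piFinset] at hw
        intro s
        rcases s with a | a
        · exact (Finset.mem_product.mp (hw a)).1
        · exact (Finset.mem_product.mp (hw a)).2
      obtain ⟨h3, h4⟩ := smp_inj.mp ⟨hinj, h2⟩
      exact B7d_pt hA1 hΦ (fun X z => hA R V X z σ j) h3 h4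
    · rw [if_neg hinj, if_neg hinj, abs_zero]
  have hI2 := B7d_sumE (κ := κ) hB0 hB hj hq hc0 hΦ
  -- the others
  have hJ : |∑ z ∈ Fintype.piFinset (fun _ : κ => B),
        ∑ w ∈ Fintype.piFinset (fun _ : Fin j => B ×ˢ B),
          (if Function.Injective (smp z w) then 0 else gI R (σ * wp w) z - UR R)| ≤
      ((Fintype.card κ : ℝ) + 2 * j) ^ 2 / B.card * (B.card : ℝ) ^ (Fintype.card κ + 2 * j) := by
    have h1 : |∑ z ∈ Fintype.piFinset (fun _ : κ => B),
        ∑ w ∈ Fintype.piFinset (fun _ : Fin j => B ×ˢ B),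
          (if Function.Injective (smp z w) then 0 else gI R (σ * wp w) z - UR R)| ≤
        ∑ u ∈ Fintype.piFinset (fun _ : κ ⊕ (Fin j ⊕ Fin j) => B),
          (if Function.Injective u then (0 : ℝ) else 1) := by
      rw [← sum_smp B j (fun u => if Function.Injective u then (0 : ℝ) else 1)]
      refine (Finset.abs_sum_le_sum_abs _ _).trans (Finset.sum_le_sum (fun z _ => ?_))
      refine (Finset.abs_sum_le_sum_abs _ _).trans (Finset.sum_le_sum (fun w _ => ?_))
      split_ifs
      · rw [abs_zero]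
      · have h3 := gI_nonneg R (σ * wp w) z
        have h4 := gI_le_one R (σ * wp w) z
        have h5 := UR_nonneg R
        have h6 := UR_le_one R
        rw [abs_le]
        constructor <;> linarith
    have h2 : ∑ u ∈ Fintype.piFinset (fun _ : κ ⊕ (Fin j ⊕ Fin j) => B),
          (if Function.Injective u then (0 : ℝ) else 1) =
        (((Fintype.piFinset fun _ : κ ⊕ (Fin j ⊕ Fin j) => B).filter
          fun u => ¬ Function.Injective u).card : ℝ) := by
      rw [Finset.card_filter, Nat.cast_sum]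
      refine Finset.sum_congr rfl (fun u _ => ?_)
      by_cases hu : Function.Injective u
      · simp [hu]
      · simp [hu]
    have h3 := card_not_inj (I := κ ⊕ (Fin j ⊕ Fin j)) B
    have h4 : Fintype.card (κ ⊕ (Fin j ⊕ Fin j)) = Fintype.card κ + 2 * j := by
      simp only [Fintype.card_sum, Fintype.card_fin]
      omega
    rw [h4] at h3
    have h5 : ((((Fintype.piFinset fun _ : κ ⊕ (Fin j ⊕ Fin j) => B).filter
          fun u => ¬ Function.Injective u).card : ℕ) : ℝ) ≤
        ((Fintype.card κ : ℝ) + 2 * j) ^ 2 * (B.card : ℝ) ^ (Fintype.card κ + 2 * j - 1) := by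
      exact_mod_cast h3
    have h6 : (B.card : ℝ) ^ (Fintype.card κ + 2 * j) =
        (B.card : ℝ) * (B.card : ℝ) ^ (Fintype.card κ + 2 * j - 1) := by
      rw [← pow_succ']
      congr 1
      omega
    rw [h2] at h1
    refine h1.trans (h5.trans (le_of_eq ?_))
    rw [h6]
    field_simp
  -- conclusion
  have hps : (0 : ℝ) < (B.card : ℝ) ^ (Fintype.card κ + 2 * j) := by positivity
  rw [hstep1, hsplit, abs_div, abs_of_pos hps, div_le_iff₀ hps]
  refine (abs_add_le _ _).trans ?_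
  have h8 : (Fintype.card κ : ℝ) ^ 2 / (2 * j) ≤ (Fintype.card κ : ℝ) ^ 2 / j := by
    refine div_le_div_of_nonneg_left (by positivity) hj0 (by linarith)
  have h9 := mul_le_mul_of_nonneg_left h8 hps.le
  have h10 := hI1.trans hI2
  have h11 : (((Fintype.card κ : ℝ) + 2 * j) ^ 2 / B.card + A * (Φ₀ + 200) ^ 2 * bet j +
          (Fintype.card κ : ℝ) ^ 2 / j +
          (Fintype.card κ + 2 * j / Φ₀) * shr B σ q (Fintype.card κ + 2 * j)) *
          (B.card : ℝ) ^ (Fintype.card κ + 2 * j) =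
      (B.card : ℝ) ^ (Fintype.card κ + 2 * j) * (A * (Φ₀ + 200) ^ 2 * bet j +
        (Fintype.card κ : ℝ) ^ 2 / (2 * j) +
      (Fintype.card κ + 2 * j / Φ₀) * shr B σ q (Fintype.card κ + 2 * j)) +
      ((B.card : ℝ) ^ (Fintype.card κ + 2 * j) * ((Fintype.card κ : ℝ) ^ 2 / j) -
        (B.card : ℝ) ^ (Fintype.card κ + 2 * j) * ((Fintype.card κ : ℝ) ^ 2 / (2 * j))) +
      ((Fintype.card κ : ℝ) + 2 * j) ^ 2 / B.card *
        (B.card : ℝ) ^ (Fintype.card κ + 2 * j) := by ring
  rw [h11]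
  linarith

end Pool.Agent.Stirring.HP
end

section

end

section

/-! C2b: the last level of the hierarchy. -/

open Finset Filter Topology

namespace Pool.Agent.Stirring.HP

open Pool.Agent.Stirring.Hier

variable {N : ℕ} {g : ℕ → ℝ} {t c ρ : ℝ}

/-- Let `C₀` be the constant of `top_bound` and `C = e C₀`. Pointwise
`Ps N K q σ ≥ exp (- q l / N^K) * av N K (below l) σ + e⁻¹ * midf l q σ` (`ex (q / N^K) (cl σ x)` is at
least `exp (- q l / N^K)` if `cl σ x < l`, at least `e⁻¹` if `cl σ x < N^K / q`). Take expectations: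
`EL (Ps q) ≤ finf + η' + C₀ / q` (`top_bound` with `s = t`, `EL_top`), `EL (av (below l)) = uu N g t K l`
converges to `ul N g t l` (`ul_tendsto`), which is `≥ finf - η'` for `l ≥ l₀` (`ul_tendsto_finf`,
`ul_mono`), and `exp (- q l / N^K) → 1`. -/
theorem mid_small (hN : 2 ≤ N) (hg : ∀ j, 0 < g j) (hc : 0 < c) (hρN : ρ < N)
    (hcg : ∀ j, c * g j ≤ g (j + 1)) (hρ : ∀ j, g (j + 1) ≤ ρ * g j)
    (hs : Summable fun j => 1 / g j) (ht : 0 < t) (hf1 : finf N g t < 1) :
    ∃ C : ℝ, 0 < C ∧ ∀ q : ℝ, 1 ≤ q → ∀ η : ℝ, 0 < η → ∃ l₀ : ℕ, ∀ l : ℕ, l₀ ≤ l →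
      ∀ᶠ K in atTop, EL N K g t K (fun σ => midf l q σ) ≤ C / q + η := by
  have hN0 : 0 < N := by omega
  have hNp : (0 : ℝ) < N := by exact_mod_cast hN0
  have hgn : ∀ j, 0 ≤ g j := fun j => (hg j).le
  obtain ⟨C₀, hC₀, hb⟩ := top_bound hN hg hc hρN hcg hρ hs ht hf1
  have he : (0 : ℝ) < Real.exp 1 := Real.exp_pos 1
  refine ⟨Real.exp 1 * C₀, by positivity, fun q hq η hη => ?_⟩
  have hqp : (0 : ℝ) < q := by linarith
  set η' : ℝ := η / (3 * Real.exp 1) with hη'
  have hη0 : 0 < η' := by positivity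
  obtain ⟨l₀, hl₀⟩ := Metric.tendsto_atTop.mp (ul_tendsto_finf hN hg hρN hρ ht.le) η' hη0
  refine ⟨l₀, fun l hl => ?_⟩
  have hl1 := hl₀ l hl
  rw [Real.dist_eq] at hl1
  have hl2 := (abs_lt.mp hl1).1
  obtain ⟨K₀, hK₀⟩ := eventually_atTop.mp (hb q hq η' hη0)
  have hpow : Tendsto (fun K : ℕ => (N : ℝ) ^ K) atTop atTop :=
    tendsto_pow_atTop_atTop_of_one_lt (by
      have : (2 : ℝ) ≤ N := by exact_mod_cast hN
      linarith)
  have h1 : Tendsto (fun K : ℕ => Real.exp (-(q / (N : ℝ) ^ K * l)) * uu N g t K l) atTop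
      (𝓝 (ul N g t l)) := by
    have h3 : Tendsto (fun K : ℕ => q / (N : ℝ) ^ K) atTop (𝓝 0) :=
      hpow.const_div_atTop q
    have h4 := (Real.continuous_exp.tendsto _).comp (h3.mul_const (l : ℝ)).neg
    have h2 : Tendsto (fun K : ℕ => Real.exp (-(q / (N : ℝ) ^ K * l))) atTop (𝓝 1) := by
      simpa [Function.comp_def] using h4
    have h5 := h2.mul (ul_tendsto hN hg hρN hρ ht.le l)
    rwa [one_mul] at h5
  have h2 : ∀ᶠ K : ℕ in atTop, ul N g t l - η' < Real.exp (-(q / (N : ℝ) ^ K * l)) * uu N g t K l :=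
    h1.eventually_const_lt (by linarith)
  filter_upwards [eventually_ge_atTop (K₀ + 1), h2] with K hK h3
  obtain ⟨k, rfl⟩ : ∃ k, K = k + 1 := ⟨K - 1, by omega⟩
  have h4 := hK₀ k (by omega) t ⟨by linarith, le_rfl⟩
  have hn : (0 : ℝ) < (N : ℝ) ^ (k + 1) := by positivity
  set mid : ℕ → ℝ := fun j => if l ≤ j ∧ (j : ℝ) < (N : ℝ) ^ (k + 1) / q then (1 : ℝ) else 0
    with hmid
  have hmid' : ∀ σ : Equiv.Perm (Word N (k + 1)), midf l q σ = av N (k + 1) mid σ := by
    intro σ
    rw [midf_eq]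
    rfl
  have h5 : ∀ σ : Equiv.Perm (Word N (k + 1)),
      Real.exp (-(q / (N : ℝ) ^ (k + 1) * l)) * av N (k + 1) (below l) σ +
        Real.exp (-1) * midf l q σ ≤ Ps N (k + 1) q σ := by
    intro σ
    rw [hmid', ← av_mul, ← av_mul, ← av_add]
    unfold Ps
    refine av_mono (fun j => ?_) σ
    have hh : 0 ≤ q / (N : ℝ) ^ (k + 1) := by positivity
    by_cases hj : j < l
    · have hm0 : mid j = 0 := if_neg (fun h => absurd h.1 (by omega))
      rw [hm0, mul_zero, add_zero]
      exact below_le_ex hh (l : ℝ) j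
    · have hb0 : below (l : ℝ) j = 0 := by
        unfold below
        rw [if_neg]
        intro h
        exact hj (by exact_mod_cast h)
      rw [hb0, mul_zero, zero_add]
      by_cases hj2 : l ≤ j ∧ (j : ℝ) < (N : ℝ) ^ (k + 1) / q
      · have hm1 : mid j = 1 := if_pos hj2
        rw [hm1, mul_one]
        unfold ex
        rw [Real.exp_le_exp, neg_le_neg_iff]
        have h6 := hj2.2
        rw [lt_div_iff₀ hqp] at h6
        rw [div_mul_eq_mul_div, div_le_one hn]
        linarith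
      · have hm0 : mid j = 0 := if_neg hj2
        rw [hm0, mul_zero]
        exact (ex_pos _ j).le
  have h6 := EL_mono (N := N) (K := k + 1) hgn ht.le (k + 1)
    (f := fun σ => Real.exp (-(q / (N : ℝ) ^ (k + 1) * l)) * av N (k + 1) (below l) σ +
        Real.exp (-1) * midf l q σ) (h := Ps N (k + 1) q) (fun σ _ => h5 σ)
  rw [EL_add, EL_mul, EL_mul, EL_top g t (Ps N (k + 1) q)] at h6
  have h7 : EL N (k + 1) g t (k + 1) (av N (k + 1) (below (l : ℝ))) = uu N g t (k + 1) l := rfl
  rw [h7] at h6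
  have h8 : Real.exp (-1) * EL N (k + 1) g t (k + 1) (fun σ => midf l q σ) ≤ 3 * η' + C₀ / q := by
    linarith
  have h9 := mul_le_mul_of_nonneg_left h8 he.le
  rw [← mul_assoc, ← Real.exp_add, add_neg_cancel, Real.exp_zero, one_mul] at h9
  refine h9.trans (le_of_eq ?_)
  rw [hη']
  field_simp
  ring

end Pool.Agent.Stirring.HP
end

section

end

section

/-! C4d: the limit of the grouping counts. -/

open Finset Filter Topology

namespace Pool.Agent.Stirring.HP

open Pool.Agent.Stirring.Hier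

variable {N : ℕ} {g : ℕ → ℝ} {t c ρ : ℝ}

private theorem C4d_inj {κ : Type} [Fintype κ] [DecidableEq κ] (R : κ → κ → Prop) {V : Type}
    [Fintype V] [DecidableEq V] {z : κ → V} (hz : Function.Injective z) :
    unifE (fun σ : Equiv.Perm V => gI R σ z) = UR R := by
  have h2 : (fun σ : Equiv.Perm V => gI R σ z) =
      fun σ => ∑ τ : Equiv.Perm κ, gI R τ id * patW τ σ z := funext fun σ => gI_comp R σ z id
  rw [h2, unifE_sum, UR, sum_div]
  refine sum_congr rfl fun τ _ => ?_
  rw [unifE_smul]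
  unfold patW
  rw [unifE_smul, unif_pat hz]
  have h3 : ((relCl τ).card : ℝ) ≠ 0 := by
    exact_mod_cast (card_pos.2 ⟨_, self_mem_relCl τ⟩).ne'
  field_simp

private theorem C4d_bound {κ : Type} [Fintype κ] [DecidableEq κ] (R : κ → κ → Prop) {V : Type}
    [Fintype V] [DecidableEq V] [Nonempty V] :
    |unifE (fun σ : Equiv.Perm V => cnt R σ) - UR R| ≤
      (Fintype.card κ : ℝ) ^ 2 / Fintype.card V := by
  have hn : 0 < (Fintype.card V : ℝ) := by exact_mod_cast Fintype.card_pos
  have e1 : unifE (fun σ : Equiv.Perm V => cnt R σ) =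
      (∑ z : κ → V, unifE (fun σ : Equiv.Perm V => gI R σ z)) /
        (Fintype.card V : ℝ) ^ Fintype.card κ := by
    have : (fun σ : Equiv.Perm V => cnt R σ) =
        fun σ => ((Fintype.card V : ℝ) ^ Fintype.card κ)⁻¹ * ∑ z : κ → V, gI R σ z := by
      funext σ
      unfold cnt
      rw [div_eq_inv_mul]
    rw [this, unifE_smul, unifE_sum, div_eq_inv_mul]
  have e2 : UR R = (∑ _z : κ → V, UR R) / (Fintype.card V : ℝ) ^ Fintype.card κ := by
    rw [sum_const, card_univ, Fintype.card_fun, nsmul_eq_mul]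
    push_cast
    field_simp
  have h1 : ∀ z : κ → V, |unifE (fun σ : Equiv.Perm V => gI R σ z) - UR R| ≤
      if ¬ Function.Injective z then (1 : ℝ) else 0 := by
    intro z
    by_cases h : Function.Injective z
    · rw [if_neg (not_not.2 h), C4d_inj R h, sub_self, abs_zero]
    · rw [if_pos h]
      have h2 : unifE (fun σ : Equiv.Perm V => gI R σ z) ≤ 1 :=
        (le_abs_self _).trans (unifE_abs_le fun σ => gI_abs_le R σ z)
      have h3 : 0 ≤ unifE (fun σ : Equiv.Perm V => gI R σ z) :=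
        div_nonneg (sum_nonneg fun σ _ => gI_nonneg R σ z) (by positivity)
      have h4 := UR_nonneg R
      have h5 := UR_le_one R
      rw [abs_le]
      constructor <;> linarith
  have h2 : (∑ z : κ → V, if ¬ Function.Injective z then (1 : ℝ) else 0) ≤
      (Fintype.card κ : ℝ) ^ 2 * (Fintype.card V : ℝ) ^ (Fintype.card κ - 1) := by
    have h3 := card_not_inj (I := κ) (univ : Finset V)
    rw [Fintype.piFinset_univ, card_univ] at h3
    rw [← sum_filter, sum_const, nsmul_eq_mul, mul_one]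
    exact_mod_cast h3
  rw [e1]
  rw [e2]
  rw [← sub_div, ← sum_sub_distrib, abs_div, abs_of_pos (by positivity :
    (0 : ℝ) < (Fintype.card V : ℝ) ^ Fintype.card κ), div_le_iff₀ (by positivity)]
  refine ((abs_sum_le_sum_abs _ _).trans (sum_le_sum fun z _ => h1 z)).trans (h2.trans ?_)
  rcases Nat.eq_zero_or_pos (Fintype.card κ) with h | h
  · rw [h]
    simp
  · obtain ⟨k, hk⟩ := Nat.exists_eq_succ_of_ne_zero h.ne'
    rw [hk, Nat.succ_eq_add_one, Nat.add_sub_cancel, pow_succ (Fintype.card V : ℝ) k]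
    refine le_of_eq ?_
    field_simp

/-- For a uniform permutation of `n` points the expectation of `cnt R` tends to `UR R`: for injective
`z` it is exactly `UR R` (`UZ_gI` is not needed: `unif_pat` summed over the `τ`, or relabelling), and
the proportion of the maps `κ → Fin n` which are not injective tends to `0` (`card_not_inj`). -/
theorem cnt_unif {κ : Type} [Fintype κ] [DecidableEq κ] (R : κ → κ → Prop) :
    Tendsto (fun n : ℕ => unifE (fun σ : Equiv.Perm (Fin (n + 1)) => cnt R σ)) atTop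
      (𝓝 (UR R)) := by
  rw [tendsto_iff_norm_sub_tendsto_zero]
  have h1 : Tendsto (fun n : ℕ => (Fintype.card κ : ℝ) ^ 2 * (1 / ((n : ℝ) + 1))) atTop (𝓝 0) := by
    simpa using tendsto_one_div_add_atTop_nhds_zero_nat.const_mul ((Fintype.card κ : ℝ) ^ 2)
  refine squeeze_zero (fun n => norm_nonneg _) (fun n => ?_) h1
  have h2 := C4d_bound R (V := Fin (n + 1))
  rw [Fintype.card_fin, Nat.cast_add, Nat.cast_one] at h2
  rw [Real.norm_eq_abs, mul_one_div]
  exact h2

end Pool.Agent.Stirring.HP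
end
end

section

section

/-! B8b: the mean of a grouping count after `M` random transpositions. -/

open Finset

namespace Pool.Agent.Stirring.HP

private theorem B8b_QM_nonneg {V : Type} [Fintype V] [DecidableEq V] (B : Finset V) (j : ℕ)
    {f : Equiv.Perm V → ℝ} (hf : ∀ τ, 0 ≤ f τ) (σ : Equiv.Perm V) : 0 ≤ QM B j f σ := by
  unfold QM
  exact div_nonneg (Finset.sum_nonneg fun w _ => hf _) (by positivity)

private theorem B8b_QM_le_one {V : Type} [Fintype V] [DecidableEq V] (B : Finset V) (j : ℕ)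
    {f : Equiv.Perm V → ℝ} (hf : ∀ τ, f τ ≤ 1) (σ : Equiv.Perm V) : QM B j f σ ≤ 1 := by
  unfold QM
  refine div_le_one_of_le₀ ?_ (by positivity)
  refine (Finset.sum_le_sum fun w _ => hf _).trans (le_of_eq ?_)
  rw [Finset.sum_const, Fintype.card_piFinset, nsmul_eq_mul, mul_one, Finset.prod_const,
    Finset.card_univ, Fintype.card_fin, Finset.card_product]
  push_cast
  ring

private theorem B8b_avg_abs {κ : Type} [Fintype κ] [DecidableEq κ] (R : κ → κ → Prop) {V : Type}
    [Fintype V] [DecidableEq V] (B : Finset V) (j : ℕ) (σ : Equiv.Perm V) :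
    |(∑ z ∈ Fintype.piFinset (fun _ : κ => B), QM B j (fun τ => gI R τ z) σ) /
          (B.card : ℝ) ^ Fintype.card κ - UR R| ≤ 1 := by
  have h0 : 0 ≤ (∑ z ∈ Fintype.piFinset (fun _ : κ => B), QM B j (fun τ => gI R τ z) σ) /
          (B.card : ℝ) ^ Fintype.card κ :=
    div_nonneg (Finset.sum_nonneg fun z _ => B8b_QM_nonneg B j (fun τ => gI_nonneg R τ z) σ)
      (by positivity)
  have h1 : (∑ z ∈ Fintype.piFinset (fun _ : κ => B), QM B j (fun τ => gI R τ z) σ) /
          (B.card : ℝ) ^ Fintype.card κ ≤ 1 := by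
    refine div_le_one_of_le₀ ?_ (by positivity)
    refine (Finset.sum_le_sum fun z _ =>
      B8b_QM_le_one B j (fun τ => gI_le_one R τ z) σ).trans (le_of_eq ?_)
    rw [Finset.sum_const, Fintype.card_piFinset, nsmul_eq_mul, mul_one, Finset.prod_const,
      Finset.card_univ]
    push_cast
    ring
  rw [abs_le]
  constructor <;> linarith [UR_nonneg R, UR_le_one R]

private theorem B8b_big_inv {V : Type} [Fintype V] [DecidableEq V] (l : ℕ) (σ : Equiv.Perm V) :
    ∀ x ∈ big l σ, σ x ∈ big l σ := by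
  intro x hx
  unfold big at hx ⊢
  rw [Finset.mem_filter] at hx ⊢
  refine ⟨Finset.mem_univ _, ?_⟩
  have h : Hier.cl σ (σ x) = Hier.cl σ x := by
    unfold Hier.cl
    refine Function.minimalPeriod_apply ?_
    exact ⟨Hier.cl σ x, Hier.cl_pos σ x, Hier.iterate_cl σ x⟩
  rw [h]
  exact hx.2

/-- The comparison of `shr` with `midf`. -/
private theorem B8b_shr {V : Type} [Fintype V] [DecidableEq V] [Nonempty V] (σ : Equiv.Perm V)
    (l : ℕ) {q b : ℝ} (hq : 1 ≤ q) (hb : b = ((big l σ).card : ℝ) / Fintype.card V) (hb0 : 0 < b)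
    {s m : ℕ} {S : ℝ} (hs : m ≤ s - 2) (hS : (s : ℝ) ≤ S) :
    shr (big l σ) σ q s ≤ midf l q σ / b + S * (1 - 1 / q) ^ m := by
  have hn : (0 : ℝ) < Fintype.card V := by exact_mod_cast Fintype.card_pos
  have hq0 : 0 < q := by linarith
  have hB0 : (0 : ℝ) < (big l σ).card := by
    rw [hb] at hb0
    by_contra hcon
    push Not at hcon
    have : ((big l σ).card : ℝ) / Fintype.card V ≤ 0 :=
      div_nonpos_of_nonpos_of_nonneg hcon hn.le
    linarith
  have hBn : ((big l σ).card : ℝ) ≤ Fintype.card V := by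
    exact_mod_cast Finset.card_le_univ _
  have hr0 : 0 ≤ 1 - 1 / q := by
    rw [sub_nonneg, div_le_one hq0]; exact hq
  have hr1 : 1 - 1 / q ≤ 1 := by
    have : 0 < 1 / q := by positivity
    linarith
  unfold shr midf
  refine add_le_add ?_ ?_
  · have hsub : ((big l σ).filter fun x => (Hier.cl σ x : ℝ) < (big l σ).card / q) ⊆
        univ.filter fun x : V => l ≤ Hier.cl σ x ∧ (Hier.cl σ x : ℝ) < Fintype.card V / q := by
      intro x hx
      rw [Finset.mem_filter] at hx ⊢
      refine ⟨Finset.mem_univ _, ?_, ?_⟩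
      · have := hx.1
        unfold big at this
        exact (Finset.mem_filter.mp this).2
      · exact hx.2.trans_le (by gcongr)
    have hc : ((((big l σ).filter fun x => (Hier.cl σ x : ℝ) < (big l σ).card / q).card : ℕ) : ℝ) ≤
        ((univ.filter fun x : V => l ≤ Hier.cl σ x ∧
          (Hier.cl σ x : ℝ) < Fintype.card V / q).card : ℕ) := by
      exact_mod_cast Finset.card_le_card hsub
    rw [hb, div_div_div_cancel_right₀ hn.ne']
    gcongr
  · refine mul_le_mul hS ?_ (by positivity) (le_trans (by positivity) hS)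
    exact pow_le_pow_of_le_one hr0 hr1 hs

/-- `b = |big l σ| / n`. By `PM_LM` and `LM_eq` the left side is at most
`(k + 2 M)² l / n + b^k ∑_j Bin(M, b²)(j) |(∑_{z ∈ B^κ} QM B j (gI R · z) σ) / |B|^k - UR R|`; the terms
`j < j₀` are `≤ Bin(j)` (the difference of two numbers in `[0, 1]`) and add up to at most
`4 / (M b²)` (`binom_tail`), for `j₀ ≤ j ≤ M` use `QM_avg`, `bet_anti`, `j ≤ M`, and
`shr B σ q (k + 2 j) ≤ midf l q σ / b + (k + 2 M) (1 - 1 / q) ^ (2 j₀ - 2)` (a vertex of `B` with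
`cl σ x < |B| / q ≤ n / q` is counted by `midf`). -/
theorem PM_avg (κ : Type) [Fintype κ] [DecidableEq κ] : ∃ A : ℝ, 1 ≤ A ∧
    ∀ (R : κ → κ → Prop), NoIso R → ∀ (V : Type) [Fintype V] [DecidableEq V] [Nonempty V]
      (σ : Equiv.Perm V) (l M j₀ : ℕ) (q Φ₀ b : ℝ), 1 ≤ l → 1 ≤ M → 1 ≤ j₀ → 1 ≤ q → 0 < Φ₀ →
      b = ((big l σ).card : ℝ) / Fintype.card V → 0 < b → (j₀ : ℝ) ≤ M * b ^ 2 / 2 →
      |PM M (fun τ => cnt R τ) σ - b ^ Fintype.card κ * UR R| ≤
        ((Fintype.card κ : ℝ) + 2 * M) ^ 2 * l / Fintype.card V + 4 / (M * b ^ 2) +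
          (((Fintype.card κ : ℝ) + 2 * M) ^ 2 / (b * Fintype.card V) +
            A * (Φ₀ + 200) ^ 2 * bet j₀ + (Fintype.card κ : ℝ) ^ 2 / j₀ +
            (Fintype.card κ + 2 * M / Φ₀) * (midf l q σ / b +
              (Fintype.card κ + 2 * M) * (1 - 1 / q) ^ (2 * j₀ - 2))) := by
  obtain ⟨A, hA1, hA⟩ := QM_avg κ
  refine ⟨A, hA1, ?_⟩
  intro R hR V _ _ _ σ l M j₀ q Φ₀ b hl hM hj₀ hq hΦ hb hb0 hjM
  have hn : (0 : ℝ) < Fintype.card V := by exact_mod_cast Fintype.card_pos
  have hq0 : 0 < q := by linarith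
  have hB0 : (0 : ℝ) < (big l σ).card := by
    have hb0' := hb0
    rw [hb] at hb0'
    by_contra hcon
    push Not at hcon
    have : ((big l σ).card : ℝ) / Fintype.card V ≤ 0 :=
      div_nonpos_of_nonpos_of_nonneg hcon hn.le
    linarith
  have hBne : (big l σ).Nonempty := by
    rw [← Finset.card_pos]; exact_mod_cast hB0
  have hBn : ((big l σ).card : ℝ) ≤ Fintype.card V := by
    exact_mod_cast Finset.card_le_univ _
  have hb1 : b ≤ 1 := by
    rw [hb]; exact div_le_one_of_le₀ hBn hn.le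
  have hBb : ((big l σ).card : ℝ) = b * Fintype.card V := by
    rw [hb]; field_simp
  have hp0 : 0 < b ^ 2 := by positivity
  have hp1 : b ^ 2 ≤ 1 := pow_le_one₀ hb0.le hb1
  have hr0 : 0 ≤ 1 - 1 / q := by
    rw [sub_nonneg, div_le_one hq0]; exact hq
  have hmid0 : 0 ≤ midf l q σ := div_nonneg (Nat.cast_nonneg _) (Nat.cast_nonneg _)
  -- the bound for one `j`
  set E : ℝ := ((Fintype.card κ : ℝ) + 2 * M) ^ 2 / (b * Fintype.card V) +
            A * (Φ₀ + 200) ^ 2 * bet j₀ + (Fintype.card κ : ℝ) ^ 2 / j₀ +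
            (Fintype.card κ + 2 * M / Φ₀) * (midf l q σ / b +
              (Fintype.card κ + 2 * M) * (1 - 1 / q) ^ (2 * j₀ - 2)) with hE
  have hE0 : 0 ≤ E := by
    have := bet_pos j₀
    rw [hE]
    positivity
  set av : ℕ → ℝ := fun j => (∑ z ∈ Fintype.piFinset (fun _ : κ => big l σ),
    QM (big l σ) j (fun τ => gI R τ z) σ) / ((big l σ).card : ℝ) ^ Fintype.card κ with hav
  have hbin0 : ∀ j, j ∈ range (M + 1) →
      0 ≤ (M.choose j : ℝ) * (b ^ 2) ^ j * (1 - b ^ 2) ^ (M - j) := by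
    intro j _
    have : 0 ≤ 1 - b ^ 2 := by linarith
    positivity
  have hj1 : ∀ j, j₀ ≤ j → j ≤ M → |av j - UR R| ≤ E := by
    intro j hj hjM'
    have hjj : (j₀ : ℝ) ≤ j := by exact_mod_cast hj
    have hj₀r : (1 : ℝ) ≤ j₀ := by exact_mod_cast hj₀
    have hjMr : (j : ℝ) ≤ M := by exact_mod_cast hjM'
    refine (hA R V (big l σ) σ j q Φ₀ hBne (B8b_big_inv l σ) (hj₀.trans hj) hq hΦ).trans ?_
    have hshr := B8b_shr σ l hq hb hb0 (s := Fintype.card κ + 2 * j) (m := 2 * j₀ - 2)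
      (S := (Fintype.card κ : ℝ) + 2 * M) (by omega) (by push_cast; linarith)
    have hbet := bet_anti hj
    have hshr0 : 0 ≤ midf l q σ / b +
              ((Fintype.card κ : ℝ) + 2 * M) * (1 - 1 / q) ^ (2 * j₀ - 2) := by positivity
    rw [hE]
    refine add_le_add (add_le_add (add_le_add ?_ ?_) ?_) ?_
    · rw [hBb]
      gcongr
    · exact mul_le_mul_of_nonneg_left hbet (by positivity)
    · exact div_le_div_of_nonneg_left (by positivity) (by linarith) hjj
    · refine mul_le_mul ?_ hshr ?_ (by positivity)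
      · gcongr
      · unfold shr
        exact add_nonneg (div_nonneg (Nat.cast_nonneg _) (Nat.cast_nonneg _))
          (mul_nonneg (Nat.cast_nonneg _) (pow_nonneg hr0 _))
  have hLM : (∑ z ∈ Fintype.piFinset (fun _ : κ => big l σ),
      LM (big l σ) M (fun τ => gI R τ z) σ) / (Fintype.card V : ℝ) ^ Fintype.card κ =
      b ^ Fintype.card κ * ∑ j ∈ range (M + 1),
        (M.choose j : ℝ) * (b ^ 2) ^ j * (1 - b ^ 2) ^ (M - j) * av j := by
    have h1 : ∀ z ∈ Fintype.piFinset (fun _ : κ => big l σ),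
        LM (big l σ) M (fun τ => gI R τ z) σ = ∑ j ∈ range (M + 1),
          (M.choose j : ℝ) * (b ^ 2) ^ j * (1 - b ^ 2) ^ (M - j) *
            QM (big l σ) j (fun τ => gI R τ z) σ := by
      intro z _
      rw [LM_eq hBne M _ σ, ← hb]
    rw [Finset.sum_congr rfl h1, Finset.sum_comm, Finset.mul_sum, Finset.sum_div]
    refine Finset.sum_congr rfl fun j _ => ?_
    rw [← Finset.mul_sum, hav]
    simp only
    rw [hBb, mul_pow]
    field_simp
  have hUR : b ^ Fintype.card κ * UR R = b ^ Fintype.card κ * ∑ j ∈ range (M + 1),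
        (M.choose j : ℝ) * (b ^ 2) ^ j * (1 - b ^ 2) ^ (M - j) * UR R := by
    rw [← Finset.sum_mul, binom_sum, one_mul]
  have hsec : |(∑ z ∈ Fintype.piFinset (fun _ : κ => big l σ),
      LM (big l σ) M (fun τ => gI R τ z) σ) / (Fintype.card V : ℝ) ^ Fintype.card κ -
      b ^ Fintype.card κ * UR R| ≤ 4 / (M * b ^ 2) + E := by
    rw [hLM, hUR, ← mul_sub, ← Finset.sum_sub_distrib, abs_mul, abs_of_nonneg (by positivity)]
    refine (mul_le_of_le_one_left (abs_nonneg _) (pow_le_one₀ hb0.le hb1)).trans ?_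
    refine (Finset.abs_sum_le_sum_abs _ _).trans ?_
    have h2 : ∀ j ∈ range (M + 1),
        |(M.choose j : ℝ) * (b ^ 2) ^ j * (1 - b ^ 2) ^ (M - j) * av j -
          (M.choose j : ℝ) * (b ^ 2) ^ j * (1 - b ^ 2) ^ (M - j) * UR R| ≤
        (if j < j₀ then (M.choose j : ℝ) * (b ^ 2) ^ j * (1 - b ^ 2) ^ (M - j) else 0) +
          (M.choose j : ℝ) * (b ^ 2) ^ j * (1 - b ^ 2) ^ (M - j) * E := by
      intro j hj
      rw [← mul_sub, abs_mul, abs_of_nonneg (hbin0 j hj)]
      have hjM' : j ≤ M := by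
        have := Finset.mem_range.mp hj
        omega
      by_cases hlt : j < j₀
      · rw [if_pos hlt]
        have h3 := B8b_avg_abs R (big l σ) j σ
        have h4 : (M.choose j : ℝ) * (b ^ 2) ^ j * (1 - b ^ 2) ^ (M - j) * |av j - UR R| ≤
            (M.choose j : ℝ) * (b ^ 2) ^ j * (1 - b ^ 2) ^ (M - j) * 1 :=
          mul_le_mul_of_nonneg_left h3 (hbin0 j hj)
        have h5 := mul_nonneg (hbin0 j hj) hE0
        linarith
      · rw [if_neg hlt, zero_add]
        exact mul_le_mul_of_nonneg_left (hj1 j (by omega) hjM') (hbin0 j hj)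
    refine (Finset.sum_le_sum h2).trans ?_
    rw [Finset.sum_add_distrib, ← Finset.sum_mul, binom_sum, one_mul]
    refine add_le_add ?_ le_rfl
    exact binom_tail hp0 hp1 hM (by linarith)
  have hfirst := PM_LM hR σ hl M
  have := abs_sub_le (PM M (fun τ => cnt R τ) σ)
    ((∑ z ∈ Fintype.piFinset (fun _ : κ => big l σ), LM (big l σ) M (fun τ => gI R τ z) σ) /
        (Fintype.card V : ℝ) ^ Fintype.card κ) (b ^ Fintype.card κ * UR R)
  refine this.trans ?_
  rw [add_assoc]
  exact add_le_add hfirst hsec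

end Pool.Agent.Stirring.HP
end

section

/-! C4c: the limit of the grouping counts. -/

open Finset Filter Topology

namespace Pool.Agent.Stirring.HP

open Pool.Agent.Stirring.Hier

private theorem C4c_PM_mem {V : Type} [Fintype V] [DecidableEq V] [Nonempty V] (M : ℕ)
    {f : Equiv.Perm V → ℝ} (h0 : ∀ σ, 0 ≤ f σ) (h1 : ∀ σ, f σ ≤ 1) (σ : Equiv.Perm V) :
    0 ≤ PM M f σ ∧ PM M f σ ≤ 1 := by
  have hn : (0 : ℝ) < Fintype.card V := by exact_mod_cast Fintype.card_pos
  unfold PM
  constructor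
  · exact div_nonneg (Finset.sum_nonneg fun w _ => h0 _) (by positivity)
  · rw [div_le_one (by positivity)]
    refine (Finset.sum_le_sum fun w _ => h1 _).trans (le_of_eq ?_)
    rw [Finset.sum_const, Finset.card_univ, nsmul_eq_mul, mul_one, Fintype.card_fun,
      Fintype.card_prod, Fintype.card_fin]
    push_cast
    ring

private theorem C4c_pow_diff {b m : ℝ} (hb0 : 0 ≤ b) (hb1 : b ≤ 1) (hm0 : 0 ≤ m) (hm1 : m ≤ 1)
    (k : ℕ) : |b ^ k - m ^ k| ≤ k * |b - m| := by
  induction k with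
  | zero => simp
  | succ k ih =>
    have e : b ^ (k + 1) - m ^ (k + 1) = b * (b ^ k - m ^ k) + (b - m) * m ^ k := by ring
    rw [e]
    refine (abs_add_le _ _).trans ?_
    rw [abs_mul, abs_mul, abs_of_nonneg hb0, abs_of_nonneg (pow_nonneg hm0 k)]
    have h1 : m ^ k ≤ 1 := pow_le_one₀ hm0 hm1
    have h2 := abs_nonneg (b ^ k - m ^ k)
    have h3 := abs_nonneg (b - m)
    push_cast
    nlinarith

variable {N : ℕ} {g : ℕ → ℝ} {t c ρ : ℝ}

/-- Case `finf < 1`. Let `m = 1 - finf`, `b₀ = m / 2`, `b = 1 - av N K (below l) σ` (`big_eq`),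
`k = |κ|`, `U = UR R ∈ [0, 1]`. Given `δ`, take `C` from `mid_small`, the parameters from `params`
(with `3 b₀`-independent `δ / 10`), then `η` small, `l` large, `K` large. Pointwise: if `b ≥ b₀`, `PM_avg`
(all the terms are decreasing in `b`) bounds `|PM M (cnt R) σ - b^k U|` by
`small + (k + 2 M / Φ₀) / b₀ * midf l q σ`; if `b < b₀`, the difference is at most `1 ≤ |b - m| / b₀`.
And `|b^k - m^k| ≤ k |b - m|`. Expectations: `mid_small`, `conc`, and `EL_PM` (`g (K + 1) → ∞`,
`g_tendsto`) to replace `cnt R` by `PM M (cnt R)`. -/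
theorem cnt_limit_pos (hN : 2 ≤ N) (hg : ∀ j, 0 < g j) (hc : 0 < c) (hρN : ρ < N)
    (hcg : ∀ j, c * g j ≤ g (j + 1)) (hρ : ∀ j, g (j + 1) ≤ ρ * g j)
    (hs : Summable fun j => 1 / g j) (ht : 0 < t) (hf : finf N g t < 1)
    {κ : Type} [Fintype κ] [DecidableEq κ] {R : κ → κ → Prop} (hR : NoIso R) :
    Tendsto (fun K => EL N K g t K (fun σ => cnt R σ)) atTop
      (𝓝 ((1 - finf N g t) ^ Fintype.card κ * UR R)) := by
  have hN0 : 0 < N := by omega
  haveI : NeZero N := ⟨by omega⟩
  have hNr : (2 : ℝ) ≤ N := by exact_mod_cast hN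
  have hgn : ∀ j, 0 ≤ g j := fun j => (hg j).le
  have hf0 := finf_nonneg hN hg hρN hρ ht.le
  set f := finf N g t with hfdef
  set m : ℝ := 1 - f with hmdef
  have hm0 : 0 < m := by rw [hmdef]; linarith
  have hm1 : m ≤ 1 := by rw [hmdef]; linarith
  set k := Fintype.card κ with hk
  set U := UR R with hU
  have hU0 : 0 ≤ U := UR_nonneg R
  have hU1 : U ≤ 1 := UR_le_one R
  set b₀ : ℝ := m / 2 with hb₀def
  have hb₀ : 0 < b₀ := by positivity
  have hb₀1 : b₀ ≤ 1 := by rw [hb₀def]; linarith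
  rw [Metric.tendsto_atTop]
  intro ε hε
  set δ : ℝ := ε / 8 with hδdef
  have hδ : 0 < δ := by positivity
  obtain ⟨A, hA1, hPM⟩ := PM_avg κ
  obtain ⟨C, hC, hmid⟩ := mid_small hN hg hc hρN hcg hρ hs ht hf
  obtain ⟨M, j₀, q, Φ₀, hM1, hj1, hq1, hΦ, hj0, hp1, hp2⟩ := params k (A := A) (b₀ := b₀) (C := C)
    (δ := δ) (by linarith) hb₀ hb₀1 hC hδ
  have hMr : (1 : ℝ) ≤ M := by exact_mod_cast hM1
  have hk0 : (0 : ℝ) ≤ k := Nat.cast_nonneg k
  set D₁ : ℝ := (k + 2 * M / Φ₀) / b₀ with hD₁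
  have hD₁0 : 0 ≤ D₁ := by positivity
  set D₂ : ℝ := k + 1 / b₀ with hD₂
  have hD₂0 : 0 ≤ D₂ := by positivity
  obtain ⟨l₁, hl₁⟩ := hmid q hq1 (δ / (D₁ + 1)) (by positivity)
  obtain ⟨l₂, hl₂⟩ := conc hN hg hc hρN hcg hρ hs ht.le (η := δ / (D₂ + 1)) (by positivity)
  set l : ℕ := max (max l₁ l₂) 1 with hl
  have hll₁ : l₁ ≤ l := (le_max_left _ _).trans (le_max_left _ _)
  have hll₂ : l₂ ≤ l := (le_max_right _ _).trans (le_max_left _ _)
  have hl1 : 1 ≤ l := le_max_right _ _
  have e1 := hl₁ l hll₁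
  have e2 := hl₂ l hll₂
  have hNK : Tendsto (fun K : ℕ => (N : ℝ) ^ K) atTop atTop :=
    tendsto_pow_atTop_atTop_of_one_lt (by linarith)
  set E₀ : ℝ := (k + 2 * M) ^ 2 * l + (k + 2 * M) ^ 2 / b₀ with hE₀
  have e3 : ∀ᶠ K : ℕ in atTop, E₀ / δ ≤ (N : ℝ) ^ K := hNK.eventually_ge_atTop _
  have e4 : ∀ᶠ K : ℕ in atTop, (M / δ) ^ 2 / t ≤ g K :=
    (g_tendsto hg hs).eventually_ge_atTop _
  obtain ⟨K₀, hK₀⟩ := eventually_atTop.mp ((e1.and e2).and (e3.and e4))
  refine ⟨K₀ + 1, fun K hK => ?_⟩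
  obtain ⟨K', rfl⟩ : ∃ K', K = K' + 1 := ⟨K - 1, by omega⟩
  obtain ⟨⟨h1, h2⟩, h3, h4⟩ := hK₀ (K' + 1) (by omega)
  have hn : (0 : ℝ) < (N : ℝ) ^ (K' + 1) := by positivity
  have hcard : (Fintype.card (Word N (K' + 1)) : ℝ) = (N : ℝ) ^ (K' + 1) := card_word
  -- step 1: replace cnt by its mean
  have s1 := EL_PM (N := N) (g := g) (t := t) hg ht (K := K')
    (f := fun σ : Equiv.Perm (Word N (K' + 1)) => cnt R σ) (C := 1) (fun σ => by
      rw [abs_of_nonneg (cnt_nonneg R σ)]; exact cnt_le_one R σ) M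
  have s2 : (M : ℝ) * (1 / Real.sqrt (t * g (K' + 1))) ≤ δ := by
    have hg' := hg (K' + 1)
    have h5 : (M / δ) ^ 2 ≤ t * g (K' + 1) := by
      rw [div_le_iff₀ ht] at h4; linarith
    have h6 : M / δ ≤ Real.sqrt (t * g (K' + 1)) := Real.le_sqrt_of_sq_le h5
    have h7 : 0 < Real.sqrt (t * g (K' + 1)) := Real.sqrt_pos.mpr (by positivity)
    rw [mul_one_div, div_le_iff₀ h7]
    rw [div_le_iff₀ hδ] at h6
    linarith
  -- step 2: the pointwise bound
  have key : ∀ σ : Equiv.Perm (Word N (K' + 1)),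
      |PM M (fun τ => cnt R τ) σ - m ^ k * U| ≤
        2 * δ + (D₁ * midf l q σ + D₂ * |av N (K' + 1) (below l) σ - f|) := by
    intro σ
    have hbig := big_eq (N := N) (K := K' + 1) l σ
    set b : ℝ := ((big l σ).card : ℝ) / Fintype.card (Word N (K' + 1)) with hb
    have hbm : b - m = f - av N (K' + 1) (below l) σ := by rw [hbig, hmdef]; ring
    have hbm' : |b - m| = |av N (K' + 1) (below l) σ - f| := by rw [hbm, abs_sub_comm]
    have hb0 : 0 ≤ b := by positivity
    have hb1 : b ≤ 1 := by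
      rw [hb, div_le_one (by rw [hcard]; exact hn)]
      exact_mod_cast Finset.card_le_univ _
    have hmid0 : 0 ≤ midf l q σ := by unfold midf; positivity
    obtain ⟨hP0, hP1⟩ := C4c_PM_mem M (f := fun τ : Equiv.Perm (Word N (K' + 1)) => cnt R τ)
      (fun τ => cnt_nonneg R τ) (fun τ => cnt_le_one R τ) σ
    rw [← hbm']
    have hab := abs_nonneg (b - m)
    by_cases hbb : b₀ ≤ b
    · have hbpos : 0 < b := lt_of_lt_of_le hb₀ hbb
      have hsq : b₀ ^ 2 ≤ b ^ 2 := pow_le_pow_left₀ hb₀.le hbb 2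
      have h5 := hPM R hR (Word N (K' + 1)) σ l M j₀ q Φ₀ b hl1 hM1 hj1 hq1 hΦ rfl hbpos (by
        refine hj0.trans ?_
        have := mul_le_mul_of_nonneg_left hsq (by positivity : (0 : ℝ) ≤ M)
        linarith)
      rw [hcard] at h5
      have h6 : |b ^ k * U - m ^ k * U| ≤ k * |b - m| := by
        rw [← sub_mul, abs_mul, abs_of_nonneg hU0]
        have h7 := C4c_pow_diff hb0 hb1 hm0.le hm1 k
        have h8 := abs_nonneg (b ^ k - m ^ k)
        exact (mul_le_of_le_one_right h8 hU1).trans h7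
      have t1 : (k + 2 * (M : ℝ)) ^ 2 * l / (N : ℝ) ^ (K' + 1) +
          (k + 2 * (M : ℝ)) ^ 2 / (b * (N : ℝ) ^ (K' + 1)) ≤ δ := by
        have h7 : (k + 2 * (M : ℝ)) ^ 2 / (b * (N : ℝ) ^ (K' + 1)) ≤
            (k + 2 * (M : ℝ)) ^ 2 / b₀ / (N : ℝ) ^ (K' + 1) := by
          rw [div_div]
          refine div_le_div_of_nonneg_left (by positivity) (by positivity) ?_
          exact mul_le_mul_of_nonneg_right hbb hn.le
        have h8 : (k + 2 * (M : ℝ)) ^ 2 * l / (N : ℝ) ^ (K' + 1) +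
            (k + 2 * (M : ℝ)) ^ 2 / b₀ / (N : ℝ) ^ (K' + 1) = E₀ / (N : ℝ) ^ (K' + 1) := by
          rw [hE₀]; ring
        have h9 : E₀ / (N : ℝ) ^ (K' + 1) ≤ δ := by
          rw [div_le_iff₀ hn]
          rw [div_le_iff₀ hδ] at h3
          linarith
        linarith
      have t2 : 4 / (M * b ^ 2) ≤ 4 / (M * b₀ ^ 2) := by
        refine div_le_div_of_nonneg_left (by norm_num) (by positivity) ?_
        exact mul_le_mul_of_nonneg_left hsq (by positivity)
      have hX0 : (0 : ℝ) ≤ k + 2 * M / Φ₀ := by positivity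
      have t3 : (k + 2 * M / Φ₀) * (midf l q σ / b) ≤ D₁ * midf l q σ := by
        have h7 : midf l q σ / b ≤ midf l q σ / b₀ :=
          div_le_div_of_nonneg_left hmid0 hb₀ hbb
        refine (mul_le_mul_of_nonneg_left h7 hX0).trans (le_of_eq ?_)
        rw [hD₁]; ring
      have t4 : (k : ℝ) * |b - m| ≤ D₂ * |b - m| := by
        refine mul_le_mul_of_nonneg_right ?_ hab
        rw [hD₂]
        have : 0 ≤ 1 / b₀ := by positivity
        linarith
      have t5 : |PM M (fun τ => cnt R τ) σ - m ^ k * U| ≤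
          |PM M (fun τ => cnt R τ) σ - b ^ k * U| + |b ^ k * U - m ^ k * U| :=
        abs_sub_le _ _ _
      have t6 : (k + 2 * M / Φ₀) * (midf l q σ / b + (k + 2 * M) * (1 - 1 / q) ^ (2 * j₀ - 2)) =
          (k + 2 * M / Φ₀) * (midf l q σ / b) +
          (k + 2 * M / Φ₀) * ((k + 2 * M) * (1 - 1 / q) ^ (2 * j₀ - 2)) := by ring
      rw [t6] at h5
      linarith
    · push Not at hbb
      have h5 : b₀ ≤ |b - m| := by
        have h6 : m - b ≤ |b - m| := by rw [abs_sub_comm]; exact le_abs_self _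
        rw [hb₀def] at hbb ⊢
        linarith
      have h6 : 1 ≤ 1 / b₀ * |b - m| := by
        rw [one_div_mul_eq_div, le_div_iff₀ hb₀]; linarith
      have h7 : |PM M (fun τ => cnt R τ) σ - m ^ k * U| ≤ 1 := by
        have h8 : 0 ≤ m ^ k * U := by positivity
        have h9 : m ^ k * U ≤ 1 := mul_le_one₀ (pow_le_one₀ hm0.le hm1) hU0 hU1
        rw [abs_le]
        constructor <;> linarith
      have h8 : 1 / b₀ * |b - m| ≤ D₂ * |b - m| := by
        refine mul_le_mul_of_nonneg_right ?_ hab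
        rw [hD₂]; linarith
      have h9 := mul_nonneg hD₁0 hmid0
      linarith
  -- step 3: expectations
  have k1 : |EL N (K' + 1) g t (K' + 1) (PM M fun τ => cnt R τ) - m ^ k * U| ≤
      2 * δ + (D₁ * (C / q + δ / (D₁ + 1)) + D₂ * (δ / (D₂ + 1))) := by
    have h5 := EL_mono (N := N) (K := K' + 1) hgn ht.le (K' + 1)
      (f := PM M fun τ => cnt R τ)
      (h := fun σ => (m ^ k * U + 2 * δ) + (D₁ * midf l q σ +
        D₂ * |av N (K' + 1) (below l) σ - f|)) (fun σ _ => by
          have := (abs_le.mp (key σ)).2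
          linarith)
    have h6 := EL_mono (N := N) (K := K' + 1) hgn ht.le (K' + 1)
      (f := fun σ => (m ^ k * U - 2 * δ) + (-1) * (D₁ * midf l q σ +
        D₂ * |av N (K' + 1) (below l) σ - f|))
      (h := PM M fun τ => cnt R τ) (fun σ _ => by
          have := (abs_le.mp (key σ)).1
          linarith)
    rw [EL_add, EL_const, EL_add, EL_mul, EL_mul] at h5
    rw [EL_add, EL_const, EL_mul, EL_add, EL_mul, EL_mul] at h6
    have h7 := mul_le_mul_of_nonneg_left h1 hD₁0
    have h8 := mul_le_mul_of_nonneg_left h2 hD₂0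
    rw [abs_le]
    constructor
    · linarith
    · linarith
  have k2 : D₁ * (C / q + δ / (D₁ + 1)) ≤ 2 * δ := by
    have h5 : D₁ * (δ / (D₁ + 1)) ≤ δ := by
      rw [mul_div_assoc', div_le_iff₀ (by positivity), mul_add, mul_one, mul_comm D₁ δ]
      exact le_add_of_nonneg_right hδ.le
    rw [mul_add]
    linarith
  have k3 : D₂ * (δ / (D₂ + 1)) ≤ δ := by
    rw [mul_div_assoc', div_le_iff₀ (by positivity), mul_add, mul_one, mul_comm D₂ δ]
    exact le_add_of_nonneg_right hδ.le
  rw [Real.dist_eq]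
  have k4 := abs_sub_le (EL N (K' + 1) g t (K' + 1) fun σ => cnt R σ)
    (EL N (K' + 1) g t (K' + 1) (PM M fun τ => cnt R τ)) (m ^ k * U)
  have k5 : 6 * δ < ε := by rw [hδdef]; linarith
  linarith

end Pool.Agent.Stirring.HP
end

section

/-! C4e: the limit of the grouping counts. -/

open Finset Filter Topology

namespace Pool.Agent.Stirring.HP

open Pool.Agent.Stirring.Hier

variable {N : ℕ} {g : ℕ → ℝ} {t c ρ : ℝ}

theorem cnt_limit (hN : 2 ≤ N) (hg : ∀ j, 0 < g j) (hc : 0 < c) (hρN : ρ < N)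
    (hcg : ∀ j, c * g j ≤ g (j + 1)) (hρ : ∀ j, g (j + 1) ≤ ρ * g j)
    (hs : Summable fun j => 1 / g j) (ht : 0 ≤ t)
    {κ : Type} [Fintype κ] [DecidableEq κ] {R : κ → κ → Prop} (hR : NoIso R) :
    Tendsto (fun K => EL N K g t K (fun σ => cnt R σ)) atTop
      (𝓝 ((1 - finf N g t) ^ Fintype.card κ * UR R)) := by
  rcases isEmpty_or_nonempty κ with hκ | hκ
  · have h1 : ∀ {V : Type} [Fintype V] [DecidableEq V] (σ : Equiv.Perm V) (z : κ → V),
        gI R σ z = 1 := by
      intro V _ _ σ z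
      rw [gI_eq (P := True) ⟨fun _ => trivial, fun _ a => (IsEmpty.false a).elim⟩, if_pos trivial]
    have h2 : ∀ K, (fun σ : Equiv.Perm (Word N K) => cnt R σ) = fun _ => (1 : ℝ) := by
      intro K
      funext σ
      unfold cnt
      rw [Finset.sum_congr rfl fun z _ => h1 σ z, Finset.sum_const, Finset.card_univ,
        Fintype.card_fun, Fintype.card_eq_zero (α := κ)]
      simp
    have h3 : (1 - finf N g t) ^ Fintype.card κ * UR R = 1 := by
      unfold UR
      rw [Finset.sum_congr rfl fun τ _ => h1 τ id, Finset.sum_const, Finset.card_univ,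
        Fintype.card_perm, Fintype.card_eq_zero (α := κ)]
      simp
    rw [h3]
    have h4 : (fun K => EL N K g t K (fun σ => cnt R σ)) = fun _ => (1 : ℝ) := by
      funext K
      rw [h2, EL_const]
    rw [h4]
    exact tendsto_const_nhds
  · rcases eq_or_lt_of_le (finf_le_one hN hg hρN hρ ht) with hf | hf
    · have h1 := cnt_limit_zero hN hg hc hρN hcg hρ hs ht hf hR
      have h2 : (1 - finf N g t) ^ Fintype.card κ * UR R = 0 := by
        rw [hf, sub_self, zero_pow Fintype.card_ne_zero, zero_mul]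
      rw [h2]
      exact h1
    · rcases eq_or_lt_of_le ht with h0 | h0
      · exfalso
        rw [← h0, finf_zero hN hg hρN hρ] at hf
        exact lt_irrefl _ hf
      · exact cnt_limit_pos hN hg hc hρN hcg hρ hs h0 hf hR

end Pool.Agent.Stirring.HP
end

section

end

section

/-! C5b: convergence in law of the rescaled cycle lengths. -/

open Finset Filter Topology

namespace Pool.Agent.Stirring.HP

open Pool.Agent.Stirring.Hier

/-- The expectations for the stirring at time `t` and for `m` times a uniform permutation have the same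
limit. -/
def ClH (N : ℕ) [NeZero N] (g : ℕ → ℝ) (t m : ℝ) (h0 : 0 ≤ m) (h1 : m ≤ 1)
    (G : C(KKset, ℝ)) : Prop :=
  ∃ L : ℝ, Tendsto (fun K => EL N K g t K (fun σ => G (pt σ))) atTop (𝓝 L) ∧
    Tendsto (fun n : ℕ => unifE (fun σ : Equiv.Perm (Fin (n + 1)) => G (scl m h0 h1 (pt σ)))) atTop
      (𝓝 L)

variable {N : ℕ} [NeZero N] {g : ℕ → ℝ} {t c ρ m : ℝ} {h0 : 0 ≤ m} {h1 : m ≤ 1}

theorem clH_add {G H : C(KKset, ℝ)} (hG : ClH N g t m h0 h1 G) (hH : ClH N g t m h0 h1 H) :
    ClH N g t m h0 h1 (G + H) := by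
  obtain ⟨L, h1, h2⟩ := hG
  obtain ⟨L', h1', h2'⟩ := hH
  refine ⟨L + L', ?_, ?_⟩
  · refine (h1.add h1').congr fun K => ?_
    rw [← EL_add]
    rfl
  · refine (h2.add h2').congr fun n => ?_
    rw [← unifE_add]
    rfl

theorem clH_smul (a : ℝ) {G : C(KKset, ℝ)} (hG : ClH N g t m h0 h1 G) :
    ClH N g t m h0 h1 (a • G) := by
  obtain ⟨L, h1, h2⟩ := hG
  refine ⟨a * L, ?_, ?_⟩
  · refine (h1.const_mul a).congr fun K => ?_
    rw [← EL_mul]
    rfl
  · refine (h2.const_mul a).congr fun n => ?_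
    rw [← unifE_smul]
    rfl

theorem clH_zero : ClH N g t m h0 h1 0 := by
  refine ⟨0, ?_, ?_⟩
  · refine tendsto_const_nhds.congr fun K => ?_
    exact (EL_const g t K 0).symm
  · refine tendsto_const_nhds.congr fun n => ?_
    exact (unifE_const (0 : ℝ)).symm

/-- `cnt_limit` and `cnt_unif` (multiplied by `m ^ |κ|`). -/
theorem clH_momH (hN : 2 ≤ N) (hg : ∀ j, 0 < g j) (hc : 0 < c) (hρN : ρ < N)
    (hcg : ∀ j, c * g j ≤ g (j + 1)) (hρ : ∀ j, g (j + 1) ≤ ρ * g j)
    (hs : Summable fun j => 1 / g j) (ht : 0 ≤ t) (hm : m = 1 - finf N g t) {G : C(KKset, ℝ)}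
    (hG : MomH G) : ClH N g t m h0 h1 G := by
  obtain ⟨κ, _, _, R, hR, h, h'⟩ := hG
  refine ⟨(1 - finf N g t) ^ Fintype.card κ * UR R, ?_, ?_⟩
  · refine (cnt_limit hN hg hc hρN hcg hρ hs ht hR).congr fun K => ?_
    congr 1
    funext σ
    exact (h _ σ).symm
  · rw [← hm]
    refine ((cnt_unif R).const_mul (m ^ Fintype.card κ)).congr fun n => ?_
    rw [← unifE_smul]
    congr 1
    funext σ
    rw [h', h]

/-- As `close_adjoin`. -/
theorem clH_adjoin (hN : 2 ≤ N) (hg : ∀ j, 0 < g j) (hc : 0 < c) (hρN : ρ < N)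
    (hcg : ∀ j, c * g j ≤ g (j + 1)) (hρ : ∀ j, g (j + 1) ≤ ρ * g j)
    (hs : Summable fun j => 1 / g j) (ht : 0 ≤ t) (hm : m = 1 - finf N g t) {G : C(KKset, ℝ)}
    (hG : G ∈ Algebra.adjoin ℝ (Set.range powS)) : ClH N g t m h0 h1 G := by
  rw [← Subalgebra.mem_toSubmodule, Algebra.adjoin_eq_span] at hG
  induction hG using Submodule.span_induction with
  | mem G hG =>
    refine clH_momH hN hg hc hρN hcg hρ hs ht hm ?_
    induction hG using Submonoid.closure_induction with
    | mem G h =>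
      obtain ⟨k, rfl⟩ := h
      exact momH_powS k
    | one => exact momH_one
    | mul G H _ _ h1 h2 => exact momH_mul h1 h2
  | zero => exact clH_zero
  | add G H _ _ h1 h2 => exact clH_add h1 h2
  | smul a G _ h => exact clH_smul a h

/-- Approximation (`approx_powS`) and the Cauchy criterion: both sequences of expectations of `F` are
within `ε` of those of `G`, which have a common limit. -/
theorem clH_all (hN : 2 ≤ N) (hg : ∀ j, 0 < g j) (hc : 0 < c) (hρN : ρ < N)
    (hcg : ∀ j, c * g j ≤ g (j + 1)) (hρ : ∀ j, g (j + 1) ≤ ρ * g j)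
    (hs : Summable fun j => 1 / g j) (ht : 0 ≤ t) (hm : m = 1 - finf N g t)
    (F : C(KKset, ℝ)) : ClH N g t m h0 h1 F := by
  have hgn : ∀ j, 0 ≤ g j := fun j => (hg j).le
  have hEL : ∀ (K : ℕ) (f : Fn (Word N K)) (c : ℝ), (∀ σ, |f σ| ≤ c) → |EL N K g t K f| ≤ c := by
    intro K f c hf
    have e1 := EL_mono (N := N) (K := K) hgn ht K (f := f) (h := fun _ => c)
      (fun σ _ => (abs_le.mp (hf σ)).2)
    have e2 := EL_mono (N := N) (K := K) hgn ht K (f := fun _ => -c) (h := f)
      (fun σ _ => (abs_le.mp (hf σ)).1)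
    rw [EL_const] at e1 e2
    exact abs_le.mpr ⟨e2, e1⟩
  have key : ∀ ε : ℝ, 0 < ε → ∃ L : ℝ,
      (∀ᶠ K : ℕ in atTop, |EL N K g t K (fun σ => F (pt σ)) - L| < ε) ∧
      (∀ᶠ n : ℕ in atTop,
        |unifE (fun σ : Equiv.Perm (Fin (n + 1)) => F (scl m h0 h1 (pt σ))) - L| < ε) := by
    intro ε hε
    obtain ⟨G, hG, hFG⟩ := approx_powS F (ε := ε / 2) (by positivity)
    obtain ⟨L, hL1, hL2⟩ := clH_adjoin (h0 := h0) (h1 := h1) hN hg hc hρN hcg hρ hs ht hm hG
    refine ⟨L, ?_, ?_⟩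
    · obtain ⟨K₀, hK₀⟩ := Metric.tendsto_atTop.mp hL1 (ε / 2) (by positivity)
      filter_upwards [eventually_ge_atTop K₀] with K hK
      have e1 := hK₀ K hK
      rw [Real.dist_eq] at e1
      have e2 : EL N K g t K (fun σ => F (pt σ)) = EL N K g t K (fun σ => G (pt σ)) +
          EL N K g t K (fun σ => F (pt σ) - G (pt σ)) := by
        rw [← EL_add]
        congr 1
        funext σ
        ring
      have e3 := hEL K (fun σ => F (pt σ) - G (pt σ)) (ε / 2) (fun σ => (hFG _).le)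
      rw [e2]
      have e4 : EL N K g t K (fun σ => G (pt σ)) +
          EL N K g t K (fun σ => F (pt σ) - G (pt σ)) - L =
          (EL N K g t K (fun σ => G (pt σ)) - L) +
          EL N K g t K (fun σ => F (pt σ) - G (pt σ)) := by ring
      rw [e4]
      refine (abs_add_le _ _).trans_lt ?_
      linarith
    · obtain ⟨K₀, hK₀⟩ := Metric.tendsto_atTop.mp hL2 (ε / 2) (by positivity)
      filter_upwards [eventually_ge_atTop K₀] with K hK
      have e1 := hK₀ K hK
      rw [Real.dist_eq] at e1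
      have e2 : unifE (fun σ : Equiv.Perm (Fin (K + 1)) => F (scl m h0 h1 (pt σ))) =
          unifE (fun σ : Equiv.Perm (Fin (K + 1)) => G (scl m h0 h1 (pt σ))) +
          unifE (fun σ : Equiv.Perm (Fin (K + 1)) =>
            F (scl m h0 h1 (pt σ)) - G (scl m h0 h1 (pt σ))) := by
        rw [← unifE_add]
        congr 1
        funext σ
        ring
      have e3 : |unifE (fun σ : Equiv.Perm (Fin (K + 1)) =>
            F (scl m h0 h1 (pt σ)) - G (scl m h0 h1 (pt σ)))| ≤ ε / 2 :=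
        unifE_abs_le fun σ => (hFG _).le
      rw [e2]
      have e4 : unifE (fun σ : Equiv.Perm (Fin (K + 1)) => G (scl m h0 h1 (pt σ))) +
          unifE (fun σ : Equiv.Perm (Fin (K + 1)) =>
            F (scl m h0 h1 (pt σ)) - G (scl m h0 h1 (pt σ))) - L =
          (unifE (fun σ : Equiv.Perm (Fin (K + 1)) => G (scl m h0 h1 (pt σ))) - L) +
          unifE (fun σ : Equiv.Perm (Fin (K + 1)) =>
            F (scl m h0 h1 (pt σ)) - G (scl m h0 h1 (pt σ))) := by ring
      rw [e4]
      refine (abs_add_le _ _).trans_lt ?_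
      linarith
  have hcau : CauchySeq fun K : ℕ => EL N K g t K (fun σ => F (pt σ)) := by
    rw [Metric.cauchySeq_iff']
    intro ε hε
    obtain ⟨L, hL1, _⟩ := key (ε / 2) (by positivity)
    obtain ⟨K₀, hK₀⟩ := eventually_atTop.mp hL1
    refine ⟨K₀, fun K hK => ?_⟩
    have e1 := hK₀ K hK
    have e2 := hK₀ K₀ le_rfl
    rw [Real.dist_eq]
    rw [abs_lt] at *
    constructor <;> linarith [e1.1, e1.2, e2.1, e2.2]
  obtain ⟨L, hL⟩ := cauchySeq_tendsto_of_complete hcau
  refine ⟨L, hL, ?_⟩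
  rw [Metric.tendsto_atTop]
  intro ε hε
  obtain ⟨L', hL1, hL2⟩ := key (ε / 3) (by positivity)
  have h3 : |L - L'| ≤ ε / 3 := by
    have h4 : Tendsto (fun K : ℕ => |EL N K g t K (fun σ => F (pt σ)) - L'|) atTop (𝓝 |L - L'|) :=
      (hL.sub_const L').abs
    exact le_of_tendsto h4 (hL1.mono fun K hK => hK.le)
  obtain ⟨n₀, hn₀⟩ := eventually_atTop.mp hL2
  refine ⟨n₀, fun n hn => ?_⟩
  have h4 := hn₀ n hn
  rw [Real.dist_eq]
  rw [abs_lt] at *
  rw [abs_le] at h3
  constructor <;> linarith [h4.1, h4.2, h3.1, h3.2]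

end Pool.Agent.Stirring.HP
end

section

end

section

/-! C6a: the theorem on the rescaled cycle lengths. -/

open Finset Filter Topology

namespace Pool.Agent.Stirring.HP

open Pool.Agent.Stirring.Hier

variable {N : ℕ} {g : ℕ → ℝ} {t c ρ : ℝ}

/-- A continuous function of the first `r` masses. -/
noncomputable def C6a_F {r : ℕ} (f : (Fin r → ℝ) → ℝ) (hf : Continuous f) : C(KKset, ℝ) :=
  ⟨fun p => f fun i => p.1 i, hf.comp (continuous_pi fun i =>
    (continuous_apply (i : ℕ)).comp continuous_subtype_val)⟩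

/-- The sum of the first `k` masses. -/
noncomputable def C6a_S (k : ℕ) : C(KKset, ℝ) :=
  ⟨fun p => ∑ i ∈ range k, p.1 i, continuous_finsetSum _ fun i _ =>
    (continuous_apply i).comp continuous_subtype_val⟩

/-- `clH_all` for `F p = f (fun i => p i)`, `m = 1 - finf N g t` (`finf_nonneg`, `finf_le_one`; the
instance `NeZero N` from `hN`): both sides converge to the same limit `L`; for `n ≥ 1` write
`n = n' + 1`. -/
theorem len_close (hN : 2 ≤ N) (hg : ∀ j, 0 < g j) (hc : 0 < c) (hρN : ρ < N)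
    (hcg : ∀ j, c * g j ≤ g (j + 1)) (hρ : ∀ j, g (j + 1) ≤ ρ * g j)
    (hs : Summable fun j => 1 / g j) (ht : 0 ≤ t) {r : ℕ} {f : (Fin r → ℝ) → ℝ}
    (hf : Continuous f) {δ : ℝ} (hδ : 0 < δ) :
    ∃ n₀ : ℕ, ∀ n : ℕ, n₀ ≤ n → ∀ᶠ K : ℕ in atTop,
      |hexpect N K g t (fun σ => f fun i => relLen σ i) -
        (∑ τ : Equiv.Perm (Fin n), f fun i => (1 - finf N g t) * relLen τ i) /
          (n.factorial : ℝ)| ≤ δ := by
  have hNe : NeZero N := ⟨by omega⟩
  have hf0 := finf_nonneg hN hg hρN hρ ht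
  have hf1 := finf_le_one hN hg hρN hρ ht
  obtain ⟨L, hL1, hL2⟩ := clH_all (h0 := by linarith) (h1 := by linarith) hN hg hc hρN hcg hρ hs ht
    (rfl : 1 - finf N g t = 1 - finf N g t) (C6a_F f hf)
  have h1 := (Metric.tendsto_atTop.1 hL2) (δ / 2) (half_pos hδ)
  obtain ⟨n₁, hn₁⟩ := h1
  have h2 := (Metric.tendsto_nhds.1 hL1) (δ / 2) (half_pos hδ)
  refine ⟨n₁ + 1, fun n hn => ?_⟩
  obtain ⟨n', rfl⟩ : ∃ n', n = n' + 1 := ⟨n - 1, by omega⟩
  filter_upwards [h2] with K hK
  have h3 := hn₁ n' (by omega)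
  rw [Real.dist_eq] at hK h3
  rw [hexpect_eq]
  have e1 : EL N K g t K (fun σ => f fun i => relLen σ i) =
      EL N K g t K (fun σ => C6a_F f hf (pt σ)) := rfl
  have e2 : (∑ τ : Equiv.Perm (Fin (n' + 1)), f fun i => (1 - finf N g t) * relLen τ i) /
      ((n' + 1).factorial : ℝ) = unifE (fun σ : Equiv.Perm (Fin (n' + 1)) =>
        C6a_F f hf (scl (1 - finf N g t) (by linarith) (by linarith) (pt σ))) := by
    unfold unifE
    rw [Fintype.card_fin]
    rfl
  rw [e1, e2]
  rw [abs_lt] at hK h3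
  rw [abs_le]
  constructor <;> linarith [hK.1, hK.2, h3.1, h3.2]

/-- The limits exist by `clH_all`; `topMass_eq` and `top_case` give `|a k - (1 - finf)| ≤ η` for
`k ≥ k₀` (`card_word`). -/
theorem sum_limit (hN : 2 ≤ N) (hg : ∀ j, 0 < g j) (hc : 0 < c) (hρN : ρ < N)
    (hcg : ∀ j, c * g j ≤ g (j + 1)) (hρ : ∀ j, g (j + 1) ≤ ρ * g j)
    (hs : Summable fun j => 1 / g j) (ht : 0 ≤ t) :
    ∃ a : ℕ → ℝ, (∀ k, Tendsto (fun K => hexpect N K g t fun σ => ∑ i ∈ range k, relLen σ i)
        atTop (𝓝 (a k))) ∧ Tendsto a atTop (𝓝 (1 - finf N g t)) := by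
  have hNe : NeZero N := ⟨by omega⟩
  have hf0 := finf_nonneg hN hg hρN hρ ht
  have hf1 := finf_le_one hN hg hρN hρ ht
  have hex : ∀ k : ℕ, ∃ L : ℝ, Tendsto (fun K => hexpect N K g t fun σ =>
      ∑ i ∈ range k, relLen σ i) atTop (𝓝 L) := by
    intro k
    obtain ⟨L, hL1, -⟩ := clH_all (h0 := by linarith) (h1 := by linarith) hN hg hc hρN hcg hρ hs
      ht (rfl : 1 - finf N g t = 1 - finf N g t) (C6a_S k)
    refine ⟨L, hL1.congr fun K => ?_⟩
    rw [hexpect_eq]
    rfl
  choose a ha using hex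
  refine ⟨a, ha, Metric.tendsto_atTop.2 fun η hη => ?_⟩
  obtain ⟨k₀, hk₀⟩ := top_case hN hg hc hρN hcg hρ hs ht (half_pos hη)
  refine ⟨k₀, fun k hk => ?_⟩
  have h1 : ∀ᶠ K in atTop, |(hexpect N K g t fun σ => ∑ i ∈ range k, relLen σ i) -
      (1 - finf N g t)| ≤ η / 2 := by
    filter_upwards [hk₀ k hk] with K hK
    have e1 : (hexpect N K g t fun σ => ∑ i ∈ range k, relLen σ i) =
        hexpect N K g t (fun σ => (topMass k σ : ℝ)) / (N : ℝ) ^ K := by
      have e2 : (fun σ : Equiv.Perm (Word N K) => ∑ i ∈ range k, relLen σ i) =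
          fun σ => ((N : ℝ) ^ K)⁻¹ * (topMass k σ : ℝ) := by
        funext σ
        rw [← topMass_eq, card_word, div_eq_inv_mul]
      rw [hexpect_eq, hexpect_eq, e2, EL_mul, div_eq_inv_mul]
    rw [e1]
    exact hK
  have h2 : |a k - (1 - finf N g t)| ≤ η / 2 :=
    le_of_tendsto ((ha k).sub_const _).abs h1
  rw [Real.dist_eq]
  linarith

end Pool.Agent.Stirring.HP
end
end
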