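import Pool.Agent.Lib.MP_6c3d62_pr.Mg.G086
import Pool.Agent.Lib.MP_6c3d62_pr.Defs

section

section

/-! Bound for the block-wise complete graph stirring. -/

open Finset

set_option linter.unusedSectionVars false

namespace Pool.Agent.Stirring

variable {V : Type*} [Fintype V] [DecidableEq V] {K : Type*} [DecidableEq K]

/-- Block-wise complete graph weights on ordered pairs. -/
noncomputable def blockW (β : V → K) (r : K → ℝ) (S : Finset K) : V × V → ℝ :=
  fun p => if β p.1 = β p.2 ∧ β p.1 ∈ S then r (β p.1) else 0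

/-- The transposition of an ordered pair. -/
def sw (p : V × V) : Equiv.Perm V := Equiv.swap p.1 p.2

theorem prod_sw_fix {β : V → K} {P : K → Prop} (l : List (V × V))
    (hl : ∀ p ∈ l, P (β p.1) ∧ P (β p.2)) {z : V} (hz : ¬ P (β z)) : (l.map sw).prod z = z := by
  induction l with
  | nil => simp
  | cons p l ih =>
    rw [List.map_cons, List.prod_cons, Equiv.Perm.mul_apply,
      ih fun q hq => hl q (List.mem_cons_of_mem _ hq)]
    have := hl p List.mem_cons_self
    refine Equiv.swap_apply_of_ne_of_ne ?_ ?_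
    · rintro rfl; exact hz this.1
    · rintro rfl; exact hz this.2

theorem E_block_insert (β : V → K) (r : K → ℝ) {S : Finset K} {k : K} (hk : k ∉ S) :
    E (blockW β r (insert k S)) sw cw = E (blockW β r {k}) sw cw * E (blockW β r S) sw cw := by
  set p : V × V → Bool := fun q => decide (β q.1 = k) with hp
  have h1 : restr (blockW β r (insert k S)) p = blockW β r {k} := by
    funext q
    simp only [restr, hp, blockW, Finset.mem_insert, Finset.mem_singleton, decide_eq_true_eq]
    by_cases h : β q.1 = k <;> simp [h]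
  have h2 : restr (blockW β r (insert k S)) (fun q => !p q) = blockW β r S := by
    funext q
    simp only [restr, hp, blockW, Finset.mem_insert, Bool.not_eq_true', decide_eq_false_iff_not]
    by_cases h : β q.1 = k
    · simp [h, hk]
    · simp [h]
  rw [E_split (blockW β r (insert k S)) sw p cw, h1, h2]
  intro l hl
  have hl' : ∀ q ∈ l, β q.1 = β q.2 := by
    intro q hq
    by_contra hne
    refine hl q hq ?_
    simp [blockW, hne]
  have ha : ∀ q ∈ l.filter p, β q.1 = k ∧ β q.2 = k := by
    intro q hq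
    have := List.mem_filter.mp hq
    have h3 : β q.1 = k := by simpa [hp] using this.2
    exact ⟨h3, by rw [← hl' q this.1]; exact h3⟩
  have hb : ∀ q ∈ l.filter (fun q => !p q), ¬ β q.1 = k ∧ ¬ β q.2 = k := by
    intro q hq
    have := List.mem_filter.mp hq
    have h3 : ¬ β q.1 = k := by simpa [hp] using this.2
    exact ⟨h3, by rw [← hl' q this.1]; exact h3⟩
  have hdisj : Equiv.Perm.Disjoint ((l.filter p).map sw).prod
      ((l.filter fun q => !p q).map sw).prod := by
    intro z
    by_cases hz : β z = k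
    · right
      exact prod_sw_fix (P := fun j => ¬ j = k) _ hb (not_not.mpr hz)
    · left
      exact prod_sw_fix (P := fun j => j = k) _ ha hz
  rw [prod_filter_split sw p l, cw_mul hdisj]
  intro a ha' b hb' hpa hpb
  have h3 : β a.1 = k := by simpa [hp] using hpa
  have h4 : β a.2 = k := by rw [← hl' a ha']; exact h3
  have h5 : ¬ β b.1 = k := by simpa [hp] using hpb
  have h6 : ¬ β b.2 = k := by rw [← hl' b hb']; exact h5
  refine Equiv.Perm.Disjoint.commute ?_
  intro z
  by_cases hz : β z = k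
  · right
    refine Equiv.swap_apply_of_ne_of_ne ?_ ?_
    · rintro rfl; exact h5 hz
    · rintro rfl; exact h6 hz
  · left
    refine Equiv.swap_apply_of_ne_of_ne ?_ ?_
    · rintro rfl; exact hz h3
    · rintro rfl; exact hz h4

theorem E_block_empty (β : V → K) (r : K → ℝ) : E (blockW β r ∅) sw cw = 1 := by
  have h : ∀ l : List (V × V), (∀ a ∈ l, blockW β r ∅ a ≠ 0) →
      cw (l.map sw).prod = (fun _ => (1 : ℝ)) (l.map sw).prod := by
    intro l hl
    cases l with
    | nil =>
      simp only [List.map_nil, List.prod_nil]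
      rw [cw_eq]; simp
    | cons a l =>
      exact absurd (by simp [blockW]) (hl a List.mem_cons_self)
  rw [E_congr_law (h := fun _ => (1 : ℝ)) _ _ h, E_const]

theorem E_block_prod (β : V → K) (r : K → ℝ) (S : Finset K) :
    E (blockW β r S) sw cw = ∏ k ∈ S, E (blockW β r {k}) sw cw := by
  induction S using Finset.induction_on with
  | empty => rw [E_block_empty, Finset.prod_empty]
  | insert k S hk ih => rw [E_block_insert β r hk, Finset.prod_insert hk, ih]

theorem E_block_single (β : V → K) (r : K → ℝ) (hr : ∀ k, 0 ≤ r k) (k : K) :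
    E (blockW β r {k}) sw cw ≤
      (((Finset.univ.filter fun x => β x = k).card : ℝ) + 1) *
        ((1 + Real.exp (-(r k * (Finset.univ.filter fun x => β x = k).card))) / 2) ^
          (Finset.univ.filter fun x => β x = k).card := by
  classical
  set B := {x : V // β x = k} with hB
  have hcard : Fintype.card B = (Finset.univ.filter fun x => β x = k).card :=
    Fintype.card_subtype _
  have hj : Function.Injective (fun q : B × B => ((q.1 : V), (q.2 : V))) := by
    rintro ⟨a, b⟩ ⟨a', b'⟩ h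
    simp only [Prod.mk.injEq] at h
    exact Prod.ext (Subtype.ext h.1) (Subtype.ext h.2)
  have h1 := E_transport (j := fun q : B × B => ((q.1 : V), (q.2 : V))) hj (blockW β r {k})
    (by
      intro a ha
      have h3 : β a.1 = k ∧ β a.2 = k := by
        by_contra hne
        refine ha ?_
        simp only [blockW, Finset.mem_singleton]
        rw [if_neg]
        rintro ⟨h4, h5⟩
        exact hne ⟨h5, by rw [← h4]; exact h5⟩
      exact ⟨(⟨a.1, h3.1⟩, ⟨a.2, h3.2⟩), rfl⟩) sw cw
    (Equiv.Perm.ofSubtype (p := fun x : V => β x = k)) (fun q : B × B => Equiv.swap q.1 q.2)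
    (by
      intro q
      rw [Equiv.Perm.ofSubtype_swap_eq]; rfl)
  rw [h1]
  have h2 : (fun q : B × B => blockW β r {k} ((q.1 : V), (q.2 : V))) = fun _ => r k := by
    funext q
    simp only [blockW, Finset.mem_singleton]
    rw [if_pos ⟨by rw [q.1.2, q.2.2], q.1.2⟩, q.1.2]
  rw [h2]
  have h3 : (fun σ : Equiv.Perm B => cw (Equiv.Perm.ofSubtype (p := fun x : V => β x = k) σ)) =
      fun σ => (2 ^ Fintype.card B : ℝ)⁻¹ * fixSets σ := by
    funext σ
    rw [cw_ofSubtype, cw, div_eq_inv_mul]
  rw [h3, E_smul]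
  have h4 := E_fixSets_complete_le (ι := B) (hr k)
  have h5 : (fun p : B × B => Equiv.swap p.1 p.2) = fun p : B × B => Equiv.swap p.1 p.2 := rfl
  calc (2 ^ Fintype.card B : ℝ)⁻¹ * E (fun _ => r k) (fun p : B × B => Equiv.swap p.1 p.2) fixSets
      ≤ (2 ^ Fintype.card B : ℝ)⁻¹ * ((Fintype.card B + 1) *
        (1 + Real.exp (-(r k * Fintype.card B))) ^ (Fintype.card B)) :=
        mul_le_mul_of_nonneg_left h4 (by positivity)
    _ = _ := by
        rw [hcard, div_pow]
        ring

/-- The number-of-cycles generating function of block-wise complete graph stirring. -/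
theorem E_block_fixSets_le [Fintype K] (β : V → K) (r : K → ℝ) (hr : ∀ k, 0 ≤ r k) :
    E (blockW β r Finset.univ) sw fixSets ≤
      ∏ k, ((((Finset.univ.filter fun x => β x = k).card : ℝ) + 1) *
        (1 + Real.exp (-(r k * (Finset.univ.filter fun x => β x = k).card))) ^
          (Finset.univ.filter fun x => β x = k).card) := by
  have h1 : (fixSets : Equiv.Perm V → ℝ) = fun σ => (2 ^ Fintype.card V : ℝ) * cw σ := by
    funext σ
    rw [cw]; field_simp
  rw [h1, E_smul, E_block_prod]
  have h2 : ∏ k, E (blockW β r {k}) sw cw ≤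
      ∏ k, ((((Finset.univ.filter fun x => β x = k).card : ℝ) + 1) *
        ((1 + Real.exp (-(r k * (Finset.univ.filter fun x => β x = k).card))) / 2) ^
          (Finset.univ.filter fun x => β x = k).card) := by
    refine Finset.prod_le_prod (fun k _ => ?_) fun k _ => E_block_single β r hr k
    refine E_nonneg ?_ sw fun σ => cw_nonneg σ
    intro a
    unfold blockW
    split_ifs
    · exact hr _
    · exact le_refl _
  refine (mul_le_mul_of_nonneg_left h2 (by positivity)).trans (le_of_eq ?_)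
  have h3 : Fintype.card V = ∑ k, (Finset.univ.filter fun x => β x = k).card := by
    rw [← Finset.card_univ]
    exact Finset.card_eq_sum_card_fiberwise fun x _ => Finset.mem_univ _
  rw [h3, ← Finset.prod_pow_eq_pow_sum, ← Finset.prod_mul_distrib]
  refine Finset.prod_congr rfl fun k _ => ?_
  rw [div_pow]
  field_simp

end Pool.Agent.Stirring
end

section

/-! Comparison of the torus with block-wise complete graphs. -/

open Finset

set_option linter.unusedSectionVars false

namespace Pool.Agent.Stirring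

section Length

variable {V : Type*} [Fintype V] [DecidableEq V]

/-- A subadditive length on permutations. -/
structure IsLen (ell : Equiv.Perm V → ℝ) : Prop where
  nonneg : ∀ g, 0 ≤ ell g
  one : ell 1 = 0
  mul : ∀ g h, ell (g * h) ≤ ell g + ell h

theorem IsLen.tri {ell : Equiv.Perm V → ℝ} (h : IsLen ell) (x y z : V) :
    ell (Equiv.swap x z) ≤ ell (Equiv.swap x y) + 2 * ell (Equiv.swap y z) := by
  have h1 := h.nonneg (Equiv.swap y z)
  have h2 := h.nonneg (Equiv.swap x y)
  by_cases hxz : x = z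
  · subst hxz
    rw [Equiv.swap_self]
    have : ell (Equiv.refl V) = 0 := h.one
    rw [this]; positivity
  by_cases hxy : x = y
  · subst hxy
    linarith
  have hid : Equiv.swap x z = Equiv.swap y z * (Equiv.swap x y * Equiv.swap y z) := by
    have := Equiv.mul_swap_eq_swap_mul (Equiv.swap y z) x y
    rw [← mul_assoc, this, Equiv.swap_apply_of_ne_of_ne hxy hxz, Equiv.swap_apply_left, mul_assoc,
      Equiv.swap_mul_self, mul_one]
  rw [hid]
  have h3 := h.mul (Equiv.swap y z) (Equiv.swap x y * Equiv.swap y z)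
  have h4 := h.mul (Equiv.swap x y) (Equiv.swap y z)
  linarith

theorem IsLen.path {ell : Equiv.Perm V → ℝ} (h : IsLen ell) (u : ℕ → V) (a k : ℕ) :
    ell (Equiv.swap (u a) (u (a + k))) ≤
      2 * ∑ i ∈ Finset.Ico a (a + k), ell (Equiv.swap (u i) (u (i + 1))) := by
  induction k with
  | zero =>
    simp only [add_zero, Equiv.swap_self, Finset.Ico_self, Finset.sum_empty, mul_zero]
    have : ell (Equiv.refl V) = 0 := h.one
    rw [this]
  | succ k ih =>
    rw [← add_assoc, Finset.sum_Ico_succ_top (by omega), mul_add]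
    have := h.tri (u a) (u (a + k)) (u (a + k + 1))
    linarith

/-- The length function of a function on subsets. -/
noncomputable def lenFun (φ : Finset V → ℝ) (g : Equiv.Perm V) : ℝ :=
  Real.sqrt (∑ A, (φ A - φ (A.map g.toEmbedding)) ^ 2)

theorem lenFun_eq_norm (φ : Finset V → ℝ) (g : Equiv.Perm V) :
    lenFun φ g = ‖(WithLp.toLp 2 (fun A => φ A - φ (A.map g.toEmbedding)) :
      EuclideanSpace ℝ (Finset V))‖ := by
  rw [EuclideanSpace.norm_eq]
  simp [lenFun]

theorem isLen_lenFun (φ : Finset V → ℝ) : IsLen (lenFun φ) where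
  nonneg g := Real.sqrt_nonneg _
  one := by
    unfold lenFun
    have : ∀ A : Finset V, A.map (1 : Equiv.Perm V).toEmbedding = A := fun A => Finset.map_refl
    simp [this]
  mul g h := by
    rw [lenFun_eq_norm, lenFun_eq_norm φ g, lenFun_eq_norm φ h]
    have h1 : ‖(WithLp.toLp 2 (fun A => φ A - φ (A.map g.toEmbedding)) :
        EuclideanSpace ℝ (Finset V))‖ = ‖(WithLp.toLp 2 (fun A => φ (A.map h.toEmbedding) -
        φ ((A.map h.toEmbedding).map g.toEmbedding)) : EuclideanSpace ℝ (Finset V))‖ := by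
      rw [EuclideanSpace.norm_eq, EuclideanSpace.norm_eq]
      congr 1
      exact (Equiv.sum_comp (setHom V h) (fun A => ‖φ A - φ (A.map g.toEmbedding)‖ ^ 2)).symm
    rw [h1, add_comm]
    refine le_trans (le_of_eq ?_) (norm_add_le _ _)
    congr 1
    ext A
    simp only [PiLp.add_apply]
    rw [Finset.map_map]
    have : (g * h).toEmbedding = h.toEmbedding.trans g.toEmbedding := rfl
    rw [this]; ring

theorem lenFun_sq (φ : Finset V → ℝ) (g : Equiv.Perm V) :
    lenFun φ g ^ 2 = ∑ A, (φ A - φ (A.map g.toEmbedding)) ^ 2 :=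
  Real.sq_sqrt (Finset.sum_nonneg fun _ _ => sq_nonneg _)

open Matrix in
theorem quad_form_eq (φ : Finset V → ℝ) (g : Equiv.Perm V) :
    φ ⬝ᵥ (permMat _ (setHom V g) - 1).mulVec φ = -(lenFun φ g ^ 2) / 2 := by
  rw [lenFun_sq, Matrix.sub_mulVec, Matrix.one_mulVec, dotProduct_sub]
  have h1 : φ ⬝ᵥ (permMat _ (setHom V g)).mulVec φ = ∑ A, φ (A.map g.toEmbedding) * φ A := by
    unfold dotProduct
    simp only [Matrix.mulVec, dotProduct, permMat_apply, Finset.mul_sum, ite_mul, one_mul, zero_mul,
      mul_ite, mul_zero]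
    rw [Finset.sum_comm]
    refine Finset.sum_congr rfl fun B _ => ?_
    rw [Finset.sum_ite_eq']
    simp [setHom_apply]
  have h2 : φ ⬝ᵥ φ = ∑ A, φ A * φ A := rfl
  have h3 : ∑ A : Finset V, φ A ^ 2 = ∑ A : Finset V, φ (A.map g.toEmbedding) ^ 2 :=
    (Equiv.sum_comp (setHom V g) (fun A => φ A ^ 2)).symm
  have h4 : ∑ A : Finset V, (φ A - φ (A.map g.toEmbedding)) ^ 2 =
      2 * ∑ A, φ A ^ 2 - 2 * ∑ A, φ (A.map g.toEmbedding) * φ A := by
    have : ∀ A : Finset V, (φ A - φ (A.map g.toEmbedding)) ^ 2 =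
        φ A ^ 2 + φ (A.map g.toEmbedding) ^ 2 - 2 * (φ (A.map g.toEmbedding) * φ A) := fun A => by
      ring
    rw [Finset.sum_congr rfl fun A _ => this A, Finset.sum_sub_distrib, Finset.sum_add_distrib,
      ← h3, ← Finset.mul_sum]
    ring
  rw [h1, h2, h4]
  simp only [← sq]
  ring

end Length

end Pool.Agent.Stirring
end

section

/-! Comparison of the Dirichlet forms of the torus and of the block-wise complete graph. -/

open Finset

set_option linter.unusedSectionVars false

namespace Pool.Agent.Stirring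

section OneD

/-- Block index of an integer. -/
def bn (l q i : ℕ) : ℕ := min (i / l) (q - 1)

theorem bn_mono (l q : ℕ) {i j : ℕ} (h : i ≤ j) : bn l q i ≤ bn l q j :=
  min_le_min_right _ (Nat.div_le_div_right h)

theorem bn_lt {l q : ℕ} (hq : 0 < q) (i : ℕ) : bn l q i < q :=
  lt_of_le_of_lt (min_le_right _ _) (by omega)

variable {L : ℕ} [NeZero L]

/-- Block index on the cycle. -/
def bz (l q : ℕ) (hq : 0 < q) (a : ZMod L) : Fin q := ⟨bn l q a.val, bn_lt hq _⟩

theorem card_bz_ge {l q : ℕ} (hq : 0 < q) (hl : 0 < l) (hL : q * l ≤ L) (j : Fin q) :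
    l ≤ (Finset.univ.filter fun a : ZMod L => bz l q hq a = j).card := by
  have hinj : Set.InjOn (fun i : ℕ => (((j : ℕ) * l + i : ℕ) : ZMod L)) (Finset.range l) := by
    intro i hi i' hi' h
    simp only [Finset.coe_range, Set.mem_Iio] at hi hi'
    have hb : ∀ k : ℕ, k < l → (j : ℕ) * l + k < L := by
      intro k hk
      have : (j : ℕ) * l + l ≤ q * l := by
        have := Nat.mul_le_mul_right l (Nat.succ_le_of_lt j.2)
        rw [Nat.succ_mul] at this; exact this
      omega
    have h2 := congrArg ZMod.val h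
    simp only at h2
    rw [ZMod.val_natCast_of_lt (hb i hi), ZMod.val_natCast_of_lt (hb i' hi')] at h2
    omega
  calc l = (Finset.range l).card := (Finset.card_range l).symm
    _ = ((Finset.range l).image (fun i : ℕ => (((j : ℕ) * l + i : ℕ) : ZMod L))).card :=
        (Finset.card_image_of_injOn hinj).symm
    _ ≤ _ := by
        refine Finset.card_le_card ?_
        intro a ha
        obtain ⟨i, hi, rfl⟩ := Finset.mem_image.mp ha
        rw [Finset.mem_range] at hi
        rw [Finset.mem_filter]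
        refine ⟨Finset.mem_univ _, ?_⟩
        have hlt : (j : ℕ) * l + i < L := by
          have : (j : ℕ) * l + l ≤ q * l := by
            have := Nat.mul_le_mul_right l (Nat.succ_le_of_lt j.2)
            rw [Nat.succ_mul] at this; exact this
          omega
        apply Fin.ext
        simp only [bz, bn]
        rw [ZMod.val_natCast_of_lt hlt]
        have : ((j : ℕ) * l + i) / l = j := by
          rw [mul_comm, Nat.mul_add_div hl, Nat.div_eq_of_lt hi, add_zero]
        rw [this]
        have := j.2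
        omega

theorem card_bz_le {l q : ℕ} (hq : 0 < q) (hl : 0 < l) (hL : L < (q + 1) * l) (j : Fin q) :
    (Finset.univ.filter fun a : ZMod L => bz l q hq a = j).card ≤ 2 * l := by
  have h1 : ∀ a ∈ (Finset.univ.filter fun a : ZMod L => bz l q hq a = j),
      a.val ∈ Finset.Ico ((j : ℕ) * l) ((j : ℕ) * l + 2 * l) := by
    intro a ha
    have ha' := (Finset.mem_filter.mp ha).2
    have h2 : bn l q a.val = j := congrArg Fin.val ha'
    have hav : a.val < L := ZMod.val_lt a
    unfold bn at h2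
    rw [Finset.mem_Ico]
    have hj := j.2
    have hdm := Nat.div_add_mod a.val l
    have hmod := Nat.mod_lt a.val hl
    constructor
    · have : (j : ℕ) ≤ a.val / l := by omega
      calc (j : ℕ) * l ≤ a.val / l * l := Nat.mul_le_mul_right _ this
        _ ≤ a.val := Nat.div_mul_le_self _ _
    · by_cases hjq : (j : ℕ) < q - 1
      · have : a.val / l = j := by omega
        rw [this] at hdm
        nlinarith
      · have hjq' : q = j + 1 := by omega
        rw [hjq'] at hL
        nlinarith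
  have hinj : Set.InjOn (fun a : ZMod L => a.val)
      (Finset.univ.filter fun a : ZMod L => bz l q hq a = j) := fun a _ b _ h =>
    ZMod.val_injective L h
  have := Finset.card_le_card_of_injOn (fun a : ZMod L => a.val) h1 hinj
  rwa [Nat.card_Ico, Nat.add_sub_cancel_left] at this

end OneD

section Lines

variable {d L : ℕ} [NeZero L]

theorem update_add_single (z : Fin d → ZMod L) (j : Fin d) (a : ZMod L) :
    Function.update z j a + Pi.single j 1 = Function.update z j (a + 1) := by
  ext i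
  by_cases h : i = j
  · subst h; simp
  · simp [h]

theorem len_line {ell : Equiv.Perm (Fin d → ZMod L) → ℝ} (h : IsLen ell) (z : Fin d → ZMod L)
    (j : Fin d) {l q : ℕ} (hq : 0 < q) {c : ZMod L} (hc : bz l q hq c = bz l q hq (z j)) :
    ell (Equiv.swap z (Function.update z j c)) ≤
      2 * ∑ a with bz l q hq a = bz l q hq (z j), ell (edgeSwap d L (Function.update z j a, j)) := by
  classical
  -- the ordered case
  have key : ∀ a b : ZMod L, a.val ≤ b.val → bz l q hq a = bz l q hq (z j) →
      bz l q hq b = bz l q hq (z j) →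
      ell (Equiv.swap (Function.update z j a) (Function.update z j b)) ≤
        2 * ∑ a with bz l q hq a = bz l q hq (z j),
          ell (edgeSwap d L (Function.update z j a, j)) := by
    intro a b hab ha hb
    obtain ⟨k, hk⟩ := Nat.exists_eq_add_of_le hab
    have h1 := h.path (fun i : ℕ => Function.update z j ((i : ℕ) : ZMod L)) a.val k
    rw [← hk] at h1
    simp only [ZMod.natCast_val, ZMod.cast_id', id_eq] at h1
    refine h1.trans ?_
    refine mul_le_mul_of_nonneg_left ?_ (by norm_num)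
    have h2 : ∀ i ∈ Finset.Ico a.val b.val,
        ell (Equiv.swap (Function.update z j ((i : ℕ) : ZMod L))
          (Function.update z j (((i + 1 : ℕ)) : ZMod L))) =
        ell (edgeSwap d L (Function.update z j ((i : ℕ) : ZMod L), j)) := by
      intro i _
      rw [edgeSwap]
      simp only
      rw [update_add_single]
      push_cast
      rfl
    rw [Finset.sum_congr rfl h2]
    have hinj : Set.InjOn (fun i : ℕ => ((i : ℕ) : ZMod L)) (Finset.Ico a.val b.val) := by
      intro i hi i' hi' hii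
      simp only [Finset.coe_Ico, Set.mem_Ico] at hi hi'
      have hbL := ZMod.val_lt b
      have h3 := congrArg ZMod.val hii
      simp only at h3
      rwa [ZMod.val_natCast_of_lt (by omega), ZMod.val_natCast_of_lt (by omega)] at h3
    rw [← Finset.sum_image (f := fun a : ZMod L => ell (edgeSwap d L (Function.update z j a, j)))
      hinj]
    refine Finset.sum_le_sum_of_subset_of_nonneg ?_ fun _ _ _ => h.nonneg _
    intro x hx
    obtain ⟨i, hi, rfl⟩ := Finset.mem_image.mp hx
    rw [Finset.mem_Ico] at hi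
    rw [Finset.mem_filter]
    refine ⟨Finset.mem_univ _, ?_⟩
    have hbL := ZMod.val_lt b
    apply Fin.ext
    have e1 : bn l q a.val = (bz l q hq (z j) : ℕ) := congrArg Fin.val ha
    have e2 : bn l q b.val = (bz l q hq (z j) : ℕ) := congrArg Fin.val hb
    change bn l q (((i : ℕ) : ZMod L)).val = _
    rw [ZMod.val_natCast_of_lt (by omega)]
    have e3 := bn_mono l q hi.1
    have e4 := bn_mono l q hi.2.le
    omega
  rcases le_total (z j).val c.val with hle | hle
  · have := key (z j) c hle rfl hc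
    rwa [Function.update_eq_self] at this
  · have := key c (z j) hle hc rfl
    rw [Function.update_eq_self] at this
    rwa [Equiv.swap_comm]

end Lines

end Pool.Agent.Stirring
end

section

/-! Comparison of Dirichlet forms, summed version. -/

open Finset

set_option linter.unusedSectionVars false

namespace Pool.Agent.Stirring

variable {d L : ℕ} [NeZero L]

/-- Exchange a coordinate. -/
def exCoord (d L : ℕ) (j : Fin d) : ((Fin d → ZMod L) × ZMod L) ≃ ((Fin d → ZMod L) × ZMod L) where
  toFun p := (Function.update p.1 j p.2, p.1 j)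
  invFun p := (Function.update p.1 j p.2, p.1 j)
  left_inv p := by simp
  right_inv p := by simp

theorem sum_exCoord {l q : ℕ} (hq : 0 < q) (j : Fin d) (G : (Fin d → ZMod L) → ℝ) :
    ∑ z : Fin d → ZMod L, ∑ a : ZMod L with bz l q hq a = bz l q hq (z j),
        G (Function.update z j a) =
      ∑ z : Fin d → ZMod L, ∑ a : ZMod L with bz l q hq a = bz l q hq (z j), G z := by
  have h1 : ∀ H : (Fin d → ZMod L) → ZMod L → ℝ,
      ∑ z : Fin d → ZMod L, ∑ a : ZMod L with bz l q hq a = bz l q hq (z j), H z a =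
      ∑ p : (Fin d → ZMod L) × ZMod L, if bz l q hq p.2 = bz l q hq (p.1 j) then H p.1 p.2 else 0 := by
    intro H
    rw [Fintype.sum_prod_type]
    refine Finset.sum_congr rfl fun z _ => ?_
    rw [Finset.sum_filter]
  rw [h1 (fun z a => G (Function.update z j a)), h1 (fun z _ => G z),
    ← (exCoord d L j).sum_comp]
  refine Finset.sum_congr rfl fun p _ => ?_
  simp only [exCoord, Equiv.coe_fn_mk, Function.update_self, Function.update_idem,
    Function.update_eq_self]
  simp only [eq_comm]

theorem line_sum {ell : Equiv.Perm (Fin d → ZMod L) → ℝ} (h : IsLen ell) (j : Fin d) {l q : ℕ}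
    (hq : 0 < q) (hl : 0 < l) (hL : L < (q + 1) * l) :
    ∑ z : Fin d → ZMod L, ∑ c with bz l q hq c = bz l q hq (z j),
      ell (Equiv.swap z (Function.update z j c)) ^ 2 ≤
      32 * (l : ℝ) ^ 3 * ∑ z, ell (edgeSwap d L (z, j)) ^ 2 := by
  have hcard : ∀ z : Fin d → ZMod L,
      ((Finset.univ.filter fun a : ZMod L => bz l q hq a = bz l q hq (z j)).card : ℝ) ≤ 2 * l := by
    intro z
    exact_mod_cast card_bz_le hq hl hL (bz l q hq (z j))
  have h1 : ∀ z : Fin d → ZMod L, ∀ c ∈ Finset.univ.filter (fun c : ZMod L =>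
      bz l q hq c = bz l q hq (z j)),
      ell (Equiv.swap z (Function.update z j c)) ^ 2 ≤
        8 * l * ∑ a with bz l q hq a = bz l q hq (z j),
          ell (edgeSwap d L (Function.update z j a, j)) ^ 2 := by
    intro z c hc
    have h2 := len_line h z j hq (Finset.mem_filter.mp hc).2
    have h3 := h.nonneg (Equiv.swap z (Function.update z j c))
    have h4 := sq_sum_le_card_mul_sum_sq
      (s := Finset.univ.filter fun a : ZMod L => bz l q hq a = bz l q hq (z j))
      (f := fun a => ell (edgeSwap d L (Function.update z j a, j)))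
    have h5 : 0 ≤ ∑ a with bz l q hq a = bz l q hq (z j),
        ell (edgeSwap d L (Function.update z j a, j)) ^ 2 :=
      Finset.sum_nonneg fun _ _ => sq_nonneg _
    calc ell (Equiv.swap z (Function.update z j c)) ^ 2 ≤
        (2 * ∑ a with bz l q hq a = bz l q hq (z j),
          ell (edgeSwap d L (Function.update z j a, j))) ^ 2 := by
          exact pow_le_pow_left₀ h3 h2 2
      _ = 4 * (∑ a with bz l q hq a = bz l q hq (z j),
          ell (edgeSwap d L (Function.update z j a, j))) ^ 2 := by ring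
      _ ≤ 4 * ((2 * l) * ∑ a with bz l q hq a = bz l q hq (z j),
          ell (edgeSwap d L (Function.update z j a, j)) ^ 2) := by
          refine mul_le_mul_of_nonneg_left (h4.trans ?_) (by norm_num)
          exact mul_le_mul_of_nonneg_right (hcard z) h5
      _ = _ := by ring
  calc ∑ z : Fin d → ZMod L, ∑ c with bz l q hq c = bz l q hq (z j),
      ell (Equiv.swap z (Function.update z j c)) ^ 2
      ≤ ∑ z : Fin d → ZMod L, ∑ c with bz l q hq c = bz l q hq (z j),
        8 * l * ∑ a with bz l q hq a = bz l q hq (z j),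
          ell (edgeSwap d L (Function.update z j a, j)) ^ 2 :=
        Finset.sum_le_sum fun z _ => Finset.sum_le_sum fun c hc => h1 z c hc
    _ ≤ ∑ z : Fin d → ZMod L, (2 * l) * (8 * l * ∑ a with bz l q hq a = bz l q hq (z j),
          ell (edgeSwap d L (Function.update z j a, j)) ^ 2) := by
        refine Finset.sum_le_sum fun z _ => ?_
        rw [Finset.sum_const, nsmul_eq_mul]
        refine mul_le_mul_of_nonneg_right (hcard z) ?_
        exact mul_nonneg (by positivity) (Finset.sum_nonneg fun _ _ => sq_nonneg _)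
    _ = 16 * (l : ℝ) ^ 2 * ∑ z : Fin d → ZMod L, ∑ a with bz l q hq a = bz l q hq (z j),
          ell (edgeSwap d L (Function.update z j a, j)) ^ 2 := by
        rw [Finset.mul_sum]
        refine Finset.sum_congr rfl fun z _ => by ring
    _ = 16 * (l : ℝ) ^ 2 * ∑ z : Fin d → ZMod L, ∑ a : ZMod L with
          bz l q hq a = bz l q hq (z j), ell (edgeSwap d L (z, j)) ^ 2 := by
        rw [sum_exCoord hq j (fun z => ell (edgeSwap d L (z, j)) ^ 2)]
    _ ≤ 16 * (l : ℝ) ^ 2 * ∑ z : Fin d → ZMod L, (2 * l) * ell (edgeSwap d L (z, j)) ^ 2 := by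
        refine mul_le_mul_of_nonneg_left ?_ (by positivity)
        refine Finset.sum_le_sum fun z _ => ?_
        rw [Finset.sum_const, nsmul_eq_mul]
        exact mul_le_mul_of_nonneg_right (hcard z) (sq_nonneg _)
    _ = _ := by
        rw [← Finset.mul_sum]; ring

/-- Block label of a vertex. -/
def bv (d L : ℕ) [NeZero L] (l q : ℕ) (hq : 0 < q) (x : Fin d → ZMod L) : Fin d → Fin q :=
  fun i => bz l q hq (x i)

/-- Hybrid point. -/
def hyb (x y : Fin d → ZMod L) (j : ℕ) : Fin d → ZMod L := fun i => if i.val < j then y i else x i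

theorem hyb_succ (x y : Fin d → ZMod L) (j : Fin d) :
    hyb x y (j.val + 1) = Function.update (hyb x y j.val) j (y j) := by
  ext i
  by_cases h : i = j
  · subst h; simp [hyb]
  · have h' : i.val ≠ j.val := fun h2 => h (Fin.ext h2)
    rw [Function.update_of_ne h]
    unfold hyb
    have : i.val < j.val + 1 ↔ i.val < j.val := by omega
    simp only [this]

theorem card_fiber_fix_le {l q : ℕ} (hq : 0 < q) (hl : 0 < l) (hL : L < (q + 1) * l) (j : Fin d)
    (z : Fin d → ZMod L) :
    ((Finset.univ.filter fun w : Fin d → ZMod L => bv d L l q hq w = bv d L l q hq z ∧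
      w j = z j).card : ℝ) ≤ (2 * l) ^ (d - 1) := by
  have h1 : (Finset.univ.filter fun w : Fin d → ZMod L => bv d L l q hq w = bv d L l q hq z ∧
      w j = z j) = Fintype.piFinset (fun i => if i = j then {z j} else
        Finset.univ.filter fun a : ZMod L => bz l q hq a = bz l q hq (z i)) := by
    ext w
    simp only [Finset.mem_filter, Finset.mem_univ, true_and, Fintype.mem_piFinset]
    constructor
    · rintro ⟨h2, h3⟩ i
      by_cases h : i = j
      · subst h; simp [h3]
      · rw [if_neg h, Finset.mem_filter]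
        exact ⟨Finset.mem_univ _, congrFun h2 i⟩
    · intro h2
      have h3 : w j = z j := by
        have := h2 j
        simpa using this
      refine ⟨?_, h3⟩
      funext i
      by_cases h : i = j
      · subst h; simp only [bv]; rw [h3]
      · have := h2 i
        rw [if_neg h, Finset.mem_filter] at this
        exact this.2
  rw [h1, Fintype.card_piFinset]
  have h4 : ∏ i, (if i = j then ({z j} : Finset (ZMod L)) else
      Finset.univ.filter fun a : ZMod L => bz l q hq a = bz l q hq (z i)).card ≤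
      ∏ i : Fin d, (if i = j then 1 else 2 * l) := by
    refine Finset.prod_le_prod' fun i _ => ?_
    by_cases h : i = j
    · simp [h]
    · rw [if_neg h, if_neg h]
      exact card_bz_le hq hl hL _
  have h5 : ∏ i : Fin d, (if i = j then 1 else 2 * l) = (2 * l) ^ (d - 1) := by
    rw [← Finset.mul_prod_erase Finset.univ _ (Finset.mem_univ j), if_pos rfl, one_mul]
    rw [Finset.prod_congr rfl (g := fun _ => 2 * l) fun i hi => if_neg (Finset.ne_of_mem_erase hi),
      Finset.prod_const, Finset.card_erase_of_mem (Finset.mem_univ _), Finset.card_univ,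
      Fintype.card_fin]
  rw [h5] at h4
  exact_mod_cast h4

theorem hyb_count {l q : ℕ} (hq : 0 < q) (hl : 0 < l) (hL : L < (q + 1) * l) (j : Fin d)
    (F : (Fin d → ZMod L) → ZMod L → ℝ) (hF : ∀ z c, 0 ≤ F z c) :
    ∑ p : (Fin d → ZMod L) × (Fin d → ZMod L) with bv d L l q hq p.1 = bv d L l q hq p.2,
      F (hyb p.1 p.2 j.val) (p.2 j) ≤
    (2 * l : ℝ) ^ (d - 1) * ∑ z : Fin d → ZMod L, ∑ c with bz l q hq c = bz l q hq (z j), F z c := by
  classical
  set T : Finset ((Fin d → ZMod L) × ZMod L × (Fin d → ZMod L)) :=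
    Finset.univ.filter fun t => bz l q hq t.2.1 = bz l q hq (t.1 j) ∧
      (bv d L l q hq t.2.2 = bv d L l q hq t.1 ∧ t.2.2 j = t.1 j) with hT
  set Ψ : (Fin d → ZMod L) × (Fin d → ZMod L) → (Fin d → ZMod L) × ZMod L × (Fin d → ZMod L) :=
    fun p => (hyb p.1 p.2 j.val, p.2 j, hyb p.2 p.1 (j.val + 1)) with hΨ
  have hinj : Set.InjOn Ψ (Finset.univ.filter fun p : (Fin d → ZMod L) × (Fin d → ZMod L) =>
      bv d L l q hq p.1 = bv d L l q hq p.2) := by
    rintro ⟨x, y⟩ _ ⟨x', y'⟩ _ h
    simp only [hΨ, Prod.mk.injEq] at h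
    obtain ⟨h1, h2, h3⟩ := h
    have hx : x = x' := by
      funext i
      have e1 := congrFun h1 i
      have e3 := congrFun h3 i
      simp only [hyb] at e1 e3
      by_cases hi : i.val < j.val
      · rw [if_pos (by omega), if_pos (by omega)] at e3; exact e3
      · rw [if_neg hi, if_neg hi] at e1; exact e1
    have hy : y = y' := by
      funext i
      have e1 := congrFun h1 i
      have e3 := congrFun h3 i
      simp only [hyb] at e1 e3
      by_cases hi : i.val < j.val
      · rw [if_pos hi, if_pos hi] at e1; exact e1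
      · by_cases hij : i = j
        · subst hij; exact h2
        · have : j.val < i.val := by
            have : i.val ≠ j.val := fun h => hij (Fin.ext h)
            omega
          rw [if_neg (by omega), if_neg (by omega)] at e3; exact e3
    rw [hx, hy]
  have hmaps : ∀ p ∈ (Finset.univ.filter fun p : (Fin d → ZMod L) × (Fin d → ZMod L) =>
      bv d L l q hq p.1 = bv d L l q hq p.2), Ψ p ∈ T := by
    rintro ⟨x, y⟩ hp
    have hxy := (Finset.mem_filter.mp hp).2
    simp only at hxy
    have hxy' : ∀ i, bz l q hq (x i) = bz l q hq (y i) := fun i => congrFun hxy i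
    rw [hT, Finset.mem_filter]
    refine ⟨Finset.mem_univ _, ?_, ?_, ?_⟩
    · simp only [hΨ, hyb, lt_irrefl, if_false]
      exact (hxy' j).symm
    · funext i
      simp only [hΨ, bv, hyb]
      split_ifs <;> simp [hxy' i]
    · simp [hΨ, hyb]
  calc ∑ p : (Fin d → ZMod L) × (Fin d → ZMod L) with bv d L l q hq p.1 = bv d L l q hq p.2,
      F (hyb p.1 p.2 j.val) (p.2 j)
      = ∑ t ∈ (Finset.univ.filter fun p : (Fin d → ZMod L) × (Fin d → ZMod L) =>
        bv d L l q hq p.1 = bv d L l q hq p.2).image Ψ, F t.1 t.2.1 := by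
        rw [Finset.sum_image hinj]
    _ ≤ ∑ t ∈ T, F t.1 t.2.1 := by
        refine Finset.sum_le_sum_of_subset_of_nonneg ?_ fun _ _ _ => hF _ _
        intro t ht
        obtain ⟨p, hp, rfl⟩ := Finset.mem_image.mp ht
        exact hmaps p hp
    _ = ∑ z : Fin d → ZMod L, ∑ c with bz l q hq c = bz l q hq (z j),
        ((Finset.univ.filter fun w : Fin d → ZMod L => bv d L l q hq w = bv d L l q hq z ∧
          w j = z j).card : ℝ) * F z c := by
        rw [hT, Finset.sum_filter, Fintype.sum_prod_type]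
        refine Finset.sum_congr rfl fun z _ => ?_
        rw [Fintype.sum_prod_type, Finset.sum_filter]
        refine Finset.sum_congr rfl fun c _ => ?_
        by_cases hc : bz l q hq c = bz l q hq (z j)
        · simp only [hc, true_and, if_true]
          rw [← Finset.sum_filter, Finset.sum_const, nsmul_eq_mul]
        · simp [hc]
    _ ≤ ∑ z : Fin d → ZMod L, ∑ c with bz l q hq c = bz l q hq (z j),
        (2 * l : ℝ) ^ (d - 1) * F z c := by
        refine Finset.sum_le_sum fun z _ => Finset.sum_le_sum fun c _ => ?_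
        exact mul_le_mul_of_nonneg_right (card_fiber_fix_le hq hl hL j z) (hF _ _)
    _ = _ := by
        simp only [Finset.mul_sum]

theorem box_sum {ell : Equiv.Perm (Fin d → ZMod L) → ℝ} (h : IsLen ell) {l q : ℕ}
    (hq : 0 < q) (hl : 0 < l) (hL : L < (q + 1) * l) :
    ∑ p : (Fin d → ZMod L) × (Fin d → ZMod L) with bv d L l q hq p.1 = bv d L l q hq p.2,
      ell (Equiv.swap p.1 p.2) ^ 2 ≤
    128 * d * (2 * l : ℝ) ^ (d - 1) * (l : ℝ) ^ 3 *
      ∑ e : (Fin d → ZMod L) × Fin d, ell (edgeSwap d L e) ^ 2 := by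
  have h1 : ∀ p : (Fin d → ZMod L) × (Fin d → ZMod L),
      ell (Equiv.swap p.1 p.2) ^ 2 ≤ 4 * d * ∑ j : Fin d,
        ell (Equiv.swap (hyb p.1 p.2 j.val)
          (Function.update (hyb p.1 p.2 j.val) j (p.2 j))) ^ 2 := by
    rintro ⟨x, y⟩
    simp only
    have h2 := h.path (fun j => hyb x y j) 0 d
    simp only [zero_add] at h2
    have e0 : hyb x y 0 = x := by ext i; simp [hyb]
    have ed : hyb x y d = y := by ext i; simp [hyb]
    rw [e0, ed, ← Finset.range_eq_Ico, Finset.sum_range] at h2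
    have h3 : ∀ j : Fin d, ell (Equiv.swap (hyb x y j.val) (hyb x y (j.val + 1))) =
        ell (Equiv.swap (hyb x y j.val) (Function.update (hyb x y j.val) j (y j))) := fun j => by
      rw [hyb_succ]
    rw [Finset.sum_congr rfl fun j _ => h3 j] at h2
    have h4 := sq_sum_le_card_mul_sum_sq (s := (Finset.univ : Finset (Fin d)))
      (f := fun j => ell (Equiv.swap (hyb x y j.val) (Function.update (hyb x y j.val) j (y j))))
    rw [Finset.card_univ, Fintype.card_fin] at h4
    calc ell (Equiv.swap x y) ^ 2 ≤ (2 * ∑ j : Fin d,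
        ell (Equiv.swap (hyb x y j.val) (Function.update (hyb x y j.val) j (y j)))) ^ 2 :=
          pow_le_pow_left₀ (h.nonneg _) h2 2
      _ = 4 * (∑ j : Fin d,
        ell (Equiv.swap (hyb x y j.val) (Function.update (hyb x y j.val) j (y j)))) ^ 2 := by ring
      _ ≤ _ := by
        rw [mul_assoc]
        exact mul_le_mul_of_nonneg_left h4 (by norm_num)
  calc ∑ p : (Fin d → ZMod L) × (Fin d → ZMod L) with bv d L l q hq p.1 = bv d L l q hq p.2,
      ell (Equiv.swap p.1 p.2) ^ 2
      ≤ ∑ p : (Fin d → ZMod L) × (Fin d → ZMod L) with bv d L l q hq p.1 = bv d L l q hq p.2,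
        4 * d * ∑ j : Fin d, ell (Equiv.swap (hyb p.1 p.2 j.val)
          (Function.update (hyb p.1 p.2 j.val) j (p.2 j))) ^ 2 :=
        Finset.sum_le_sum fun p _ => h1 p
    _ = 4 * d * ∑ j : Fin d,
        ∑ p : (Fin d → ZMod L) × (Fin d → ZMod L) with bv d L l q hq p.1 = bv d L l q hq p.2,
          ell (Equiv.swap (hyb p.1 p.2 j.val)
          (Function.update (hyb p.1 p.2 j.val) j (p.2 j))) ^ 2 := by
        rw [← Finset.mul_sum, Finset.sum_comm]
    _ ≤ 4 * d * ∑ j : Fin d, ((2 * l : ℝ) ^ (d - 1) *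
        (32 * (l : ℝ) ^ 3 * ∑ z, ell (edgeSwap d L (z, j)) ^ 2)) := by
        refine mul_le_mul_of_nonneg_left ?_ (by positivity)
        refine Finset.sum_le_sum fun j _ => ?_
        refine (hyb_count hq hl hL j
          (fun z c => ell (Equiv.swap z (Function.update z j c)) ^ 2) fun z c => sq_nonneg _).trans ?_
        exact mul_le_mul_of_nonneg_left (line_sum h j hq hl hL) (by positivity)
    _ = _ := by
        have h5 : ∑ e : (Fin d → ZMod L) × Fin d, ell (edgeSwap d L e) ^ 2 =
            ∑ j : Fin d, ∑ z : Fin d → ZMod L, ell (edgeSwap d L (z, j)) ^ 2 := by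
          rw [Fintype.sum_prod_type, Finset.sum_comm]
        rw [h5]
        simp only [Finset.mul_sum]
        refine Finset.sum_congr rfl fun j _ => Finset.sum_congr rfl fun z _ => by ring

end Pool.Agent.Stirring
end

section

/-! The grand canonical partition function of the exclusion process with extra complete graph
stirring. -/

open Finset Matrix

set_option linter.unusedSectionVars false

namespace Pool.Agent.Stirring

section Weight

variable {V : Type*} [Fintype V] [DecidableEq V]

/-- Weighted number of invariant sets. -/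
noncomputable def gw (a : ℝ) (σ : Equiv.Perm V) : ℝ :=
  ∑ A : Finset V, if A.map σ.toEmbedding = A then Real.exp (-(a * A.card)) else 0

theorem map_eq_iff' {σ : Equiv.Perm V} {A : Finset V} :
    A.map σ.toEmbedding = A ↔ ∀ x, σ x ∈ A ↔ x ∈ A := by
  constructor
  · intro h x; exact mem_iff_of_map_eq h x
  · intro h
    ext x
    rw [Finset.mem_map_equiv]
    have := h (σ.symm x)
    rw [Equiv.apply_symm_apply] at this
    exact this.symm

theorem gw_zero (σ : Equiv.Perm V) : gw 0 σ = fixSets σ := by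
  unfold gw fixSets
  rw [Finset.card_filter]
  push_cast
  refine Finset.sum_congr rfl fun A _ => ?_
  simp

theorem gw_eq_sum (a : ℝ) (σ : Equiv.Perm V) :
    gw a σ = ∑ k ∈ Finset.range (Fintype.card V + 1),
      Real.exp (-(a * k)) * trace (permMat _ (levHom V k σ)) := by
  unfold gw
  rw [← Finset.sum_fiberwise_of_maps_to (t := Finset.range (Fintype.card V + 1))
    (g := fun A : Finset V => A.card)
    (fun A _ => Finset.mem_range.mpr (Nat.lt_succ_of_le (Finset.card_le_univ A)))]
  refine Finset.sum_congr rfl fun k _ => ?_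
  rw [trace_permMat, Finset.card_filter]
  push_cast
  rw [Finset.mul_sum]
  symm
  refine Finset.sum_bij (fun (A : Lev V k) _ => A.1) ?_ ?_ ?_ ?_
  · intro A _
    rw [Finset.mem_filter]
    exact ⟨Finset.mem_univ _, A.2⟩
  · intro A _ B _ h; exact Subtype.ext h
  · intro A hA
    exact ⟨⟨A, (Finset.mem_filter.mp hA).2⟩, Finset.mem_univ _, rfl⟩
  · intro A _
    have h1 : (levHom V k σ A = A) ↔ A.1.map σ.toEmbedding = A.1 := by
      rw [Subtype.ext_iff, levHom_coe]
    simp only [h1]
    rw [A.2]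
    split_ifs <;> simp

theorem sum_split_compl (S : Finset V) (g : Finset V → ℝ) :
    ∑ A, g A = ∑ B ∈ S.powerset, ∑ B' ∈ Sᶜ.powerset, g (B ∪ B') := by
  rw [← Finset.sum_product']
  refine Finset.sum_bij' (fun A _ => (A ∩ S, A ∩ Sᶜ)) (fun q _ => q.1 ∪ q.2) ?_ ?_ ?_ ?_ ?_
  · intro A _
    rw [Finset.mem_product]
    simp only [Finset.mem_powerset]
    exact ⟨Finset.inter_subset_right, Finset.inter_subset_right⟩
  · intro q _; exact Finset.mem_univ _
  · intro A _
    simp only
    rw [← Finset.inter_union_distrib_left, Finset.union_compl, Finset.inter_univ]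
  · rintro ⟨B, B'⟩ hq
    rw [Finset.mem_product] at hq
    simp only [Finset.mem_powerset] at hq
    have h1 := hq.1
    have h2 := hq.2
    refine Prod.ext ?_ ?_
    · ext x
      simp only [Finset.mem_inter, Finset.mem_union]
      constructor
      · rintro ⟨hx | hx, hS⟩
        · exact hx
        · exact absurd hS (Finset.mem_compl.mp (h2 hx))
      · intro hx; exact ⟨Or.inl hx, h1 hx⟩
    · ext x
      simp only [Finset.mem_inter, Finset.mem_union]
      constructor
      · rintro ⟨hx | hx, hS⟩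
        · exact absurd (h1 hx) (Finset.mem_compl.mp hS)
        · exact hx
      · intro hx; exact ⟨Or.inr hx, h2 hx⟩
  · intro A _
    simp only
    rw [← Finset.inter_union_distrib_left, Finset.union_compl, Finset.inter_univ]

theorem card_union_compl {S B B' : Finset V} (hB : B ∈ S.powerset) (hB' : B' ∈ Sᶜ.powerset) :
    (B ∪ B').card = B.card + B'.card := by
  rw [Finset.mem_powerset] at hB hB'
  refine Finset.card_union_of_disjoint ?_
  rw [Finset.disjoint_left]
  intro x h1 h2
  exact Finset.mem_compl.mp (hB' h2) (hB h1)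

theorem sum_exp_powerset (a : ℝ) (S : Finset V) :
    ∑ B ∈ S.powerset, Real.exp (-(a * B.card)) = (1 + Real.exp (-a)) ^ S.card := by
  have h := Finset.prod_add (fun _ : V => Real.exp (-a)) (fun _ => 1) S
  simp only [Finset.prod_const, one_pow, mul_one] at h
  rw [add_comm, h]
  refine Finset.sum_congr rfl fun B _ => ?_
  rw [← Real.exp_nat_mul]
  ring_nf

/-- Normalized weight. -/
noncomputable def ngw (a : ℝ) (σ : Equiv.Perm V) : ℝ := gw a σ / (1 + Real.exp (-a)) ^ Fintype.card V

/-- The weight restricted to subsets of `S`. -/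
noncomputable def rw' (a : ℝ) (S : Finset V) (σ : Equiv.Perm V) : ℝ :=
  ∑ B ∈ S.powerset, if B.map σ.toEmbedding = B then Real.exp (-(a * B.card)) else 0

theorem gw_mul_split (a : ℝ) (S : Finset V) {σ τ : Equiv.Perm V} (hσ : ∀ x, x ∉ S → σ x = x)
    (hτ : ∀ x ∈ S, τ x = x) : gw a (σ * τ) = rw' a S σ * rw' a Sᶜ τ := by
  have hσS : ∀ x, x ∈ S → σ x ∈ S := by
    intro x hx
    by_contra h
    have h2 := hσ _ h
    have := σ.injective h2
    rw [this] at h
    exact h hx
  have hτS : ∀ x, x ∉ S → τ x ∉ S := by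
    intro x hx h
    have h2 := hτ _ h
    have := τ.injective h2
    rw [this] at h
    exact hx h
  unfold gw rw'
  rw [sum_split_compl S, Finset.sum_mul_sum]
  refine Finset.sum_congr rfl fun B hB => Finset.sum_congr rfl fun B' hB' => ?_
  rw [card_union_compl hB hB']
  have hBS := Finset.mem_powerset.mp hB
  have hB'S := Finset.mem_powerset.mp hB'
  have key : (B ∪ B').map (σ * τ).toEmbedding = B ∪ B' ↔
      B.map σ.toEmbedding = B ∧ B'.map τ.toEmbedding = B' := by
    rw [map_eq_iff', map_eq_iff', map_eq_iff']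
    constructor
    · intro h
      refine ⟨fun x => ?_, fun x => ?_⟩
      · by_cases hx : x ∈ S
        · have := h x
          rw [Equiv.Perm.mul_apply, hτ x hx, Finset.mem_union, Finset.mem_union] at this
          have n1 : σ x ∉ B' := fun h' => Finset.mem_compl.mp (hB'S h') (hσS x hx)
          have n2 : x ∉ B' := fun h' => Finset.mem_compl.mp (hB'S h') hx
          simpa [n1, n2] using this
        · rw [hσ x hx]
      · by_cases hx : x ∈ S
        · rw [hτ x hx]
        · have := h x
          rw [Equiv.Perm.mul_apply, hσ _ (hτS x hx), Finset.mem_union, Finset.mem_union] at this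
          have n1 : τ x ∉ B := fun h' => hτS x hx (hBS h')
          have n2 : x ∉ B := fun h' => hx (hBS h')
          simpa [n1, n2] using this
    · rintro ⟨h1, h2⟩ x
      rw [Equiv.Perm.mul_apply, Finset.mem_union, Finset.mem_union]
      by_cases hx : x ∈ S
      · rw [hτ x hx, h1 x]
        have n1 : σ x ∉ B' := fun h' => Finset.mem_compl.mp (hB'S h') (hσS x hx)
        have n2 : x ∉ B' := fun h' => Finset.mem_compl.mp (hB'S h') hx
        simp [n1, n2]
      · rw [hσ _ (hτS x hx), h2 x]
        have n1 : τ x ∉ B := fun h' => hτS x hx (hBS h')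
        have n2 : x ∉ B := fun h' => hx (hBS h')
        simp [n1, n2]
  by_cases h1 : B.map σ.toEmbedding = B
  · by_cases h2 : B'.map τ.toEmbedding = B'
    · rw [if_pos (key.mpr ⟨h1, h2⟩), if_pos h1, if_pos h2, ← Real.exp_add]
      push_cast; ring_nf
    · rw [if_neg (fun h => h2 (key.mp h).2), if_neg h2, mul_zero]
  · rw [if_neg (fun h => h1 (key.mp h).1), if_neg h1, zero_mul]

theorem rw'_one (a : ℝ) (S : Finset V) : rw' a S 1 = (1 + Real.exp (-a)) ^ S.card := by
  rw [← sum_exp_powerset]
  unfold rw'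
  refine Finset.sum_congr rfl fun B _ => if_pos ?_
  exact Finset.map_refl

theorem ngw_mul (a : ℝ) {σ τ : Equiv.Perm V} (h : Equiv.Perm.Disjoint σ τ) :
    ngw a (σ * τ) = ngw a σ * ngw a τ := by
  have h1 : ∀ x, x ∉ σ.support → σ x = x := fun x hx => by
    rwa [Equiv.Perm.mem_support, not_not] at hx
  have h2 : ∀ x ∈ σ.support, τ x = x := fun x hx => by
    rcases h x with h' | h'
    · exact absurd h' (Equiv.Perm.mem_support.mp hx)
    · exact h'
  have e1 := gw_mul_split a σ.support h1 h2
  have e2 := gw_mul_split a σ.support (σ := σ) (τ := 1) h1 (fun x _ => rfl)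
  have e3 := gw_mul_split a σ.support (σ := 1) (τ := τ) (fun x _ => rfl) h2
  rw [mul_one, rw'_one] at e2
  rw [one_mul, rw'_one] at e3
  unfold ngw
  rw [e1, e2, e3]
  have hcard : σ.support.card + σ.supportᶜ.card = Fintype.card V := Finset.card_add_card_compl _
  rw [← hcard, pow_add]
  have := Real.exp_pos (-a)
  field_simp

theorem ngw_ofSubtype (a : ℝ) {p : V → Prop} [DecidablePred p] (σ : Equiv.Perm (Subtype p)) :
    ngw a (Equiv.Perm.ofSubtype σ) = ngw a σ := by
  set S : Finset V := Finset.univ.filter p with hS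
  have h1 : ∀ x, x ∉ S → Equiv.Perm.ofSubtype σ x = x := by
    intro x hx
    refine Equiv.Perm.ofSubtype_apply_of_not_mem σ ?_
    simpa [hS] using hx
  have e1 := gw_mul_split a S (σ := Equiv.Perm.ofSubtype σ) (τ := 1) h1 (fun x _ => rfl)
  rw [mul_one, rw'_one] at e1
  have hcard : Fintype.card (Subtype p) + Sᶜ.card = Fintype.card V := by
    rw [Fintype.card_subtype]; exact Finset.card_add_card_compl _
  have e2 : rw' a S (Equiv.Perm.ofSubtype σ) = gw a σ := by
    unfold rw' gw
    symm
    refine Finset.sum_bij (fun (A : Finset (Subtype p)) _ => A.map (Function.Embedding.subtype p))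
      ?_ ?_ ?_ ?_
    · intro A _
      rw [Finset.mem_powerset]
      intro x hx
      rw [Finset.mem_map] at hx
      obtain ⟨y, _, rfl⟩ := hx
      simpa [hS] using y.2
    · intro A _ B _ h
      exact Finset.map_injective _ h
    · intro B hB
      refine ⟨B.subtype p, Finset.mem_univ _, ?_⟩
      refine Finset.subtype_map_of_mem ?_
      intro x hx
      have := Finset.mem_powerset.mp hB hx
      simpa [hS] using this
    · intro A _
      rw [Finset.card_map]
      have : (A.map (Function.Embedding.subtype p)).map (Equiv.Perm.ofSubtype σ).toEmbedding =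
          A.map (Function.Embedding.subtype p) ↔ A.map σ.toEmbedding = A := by
        rw [map_eq_iff', map_eq_iff']
        constructor
        · intro h x
          have := h x
          rw [Equiv.Perm.ofSubtype_apply_coe] at this
          have q1 := (σ x).2
          have q2 := x.2
          simpa [q1, q2] using this
        · intro h x
          by_cases hx : p x
          · have := h ⟨x, hx⟩
            rw [Equiv.Perm.ofSubtype_apply_of_mem σ hx]
            have q1 := (σ ⟨x, hx⟩).2
            simpa [hx, q1] using this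
          · rw [Equiv.Perm.ofSubtype_apply_of_not_mem σ hx]
      simp only [this]
  unfold ngw
  rw [e1, e2, ← hcard, pow_add]
  have := Real.exp_pos (-a)
  field_simp

theorem gw_nonneg (a : ℝ) (σ : Equiv.Perm V) : 0 ≤ gw a σ := by
  unfold gw
  refine Finset.sum_nonneg fun A _ => ?_
  split_ifs
  · exact (Real.exp_pos _).le
  · exact le_refl _

theorem ngw_nonneg (a : ℝ) (σ : Equiv.Perm V) : 0 ≤ ngw a σ := by
  have := Real.exp_pos (-a)
  exact div_nonneg (gw_nonneg a σ) (by positivity)

end Weight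

section Exclusion

variable {ι : Type*} [Fintype ι] [DecidableEq ι]

/-- The number of fixed `k`-subsets equals the number of fixed subsets of the complementary size. -/
theorem trace_lev_compl (σ : Equiv.Perm ι) {k : ℕ} (hk : k ≤ Fintype.card ι) :
    trace (permMat _ (levHom ι k σ)) = trace (permMat _ (levHom ι (Fintype.card ι - k) σ)) := by
  rw [trace_permMat, trace_permMat]
  congr 1
  have hc : ∀ {j : ℕ} (A : Lev ι j), A.1ᶜ.card = Fintype.card ι - j := fun A => by
    rw [Finset.card_compl, A.2]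
  have hinv : ∀ {j : ℕ} (A : Lev ι j), levHom ι j σ A = A ↔ ∀ x, σ x ∈ A.1 ↔ x ∈ A.1 := by
    intro j A
    rw [Subtype.ext_iff, levHom_coe, map_eq_iff']
  refine Finset.card_bij' (fun A _ => (⟨A.1ᶜ, hc A⟩ : Lev ι (Fintype.card ι - k)))
    (fun A _ => (⟨A.1ᶜ, by rw [hc A]; omega⟩ : Lev ι k)) ?_ ?_ ?_ ?_
  · intro A hA
    rw [Finset.mem_filter, hinv] at hA ⊢
    refine ⟨Finset.mem_univ _, fun x => ?_⟩
    rw [Finset.mem_compl, Finset.mem_compl, hA.2 x]
  · intro A hA
    rw [Finset.mem_filter, hinv] at hA ⊢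
    refine ⟨Finset.mem_univ _, fun x => ?_⟩
    rw [Finset.mem_compl, Finset.mem_compl, hA.2 x]
  · intro A _; exact Subtype.ext (compl_compl _)
  · intro A _; exact Subtype.ext (compl_compl _)

theorem lTrace_eq_E (c : ι × ι → ℝ) (k : ℕ) :
    lTrace ι c k = E c (fun p : ι × ι => Equiv.swap p.1 p.2)
      (fun σ => trace (permMat _ (levHom ι k σ))) := by
  have h3 := E_trace c (fun p : ι × ι => Equiv.swap p.1 p.2)
    ((permMat (Lev ι k)).comp (levHom ι k))
  simp only [MonoidHom.comp_apply] at h3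
  rw [h3]
  rfl

theorem lTrace_compl (c : ι × ι → ℝ) {k : ℕ} (hk : k ≤ Fintype.card ι) :
    lTrace ι c k = lTrace ι c (Fintype.card ι - k) := by
  rw [lTrace_eq_E, lTrace_eq_E]
  congr 1
  funext σ
  exact trace_lev_compl σ hk

/-- The profile of the heat kernel is nondecreasing up to the middle level. -/
theorem lTrace_mono (c : ι × ι → ℝ) {k : ℕ} (hk : 2 * (k + 1) ≤ Fintype.card ι) :
    lTrace ι c k ≤ lTrace ι c (k + 1) := by
  set n := Fintype.card ι with hn
  set D : ℕ → ℝ := fun j => lTrace ι c (j + 1) - lTrace ι c j with hD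
  have hsum : ∀ (r : ℝ) (m : ℕ), lTrace ι (fun p => c p + r) m =
      1 + ∑ j ∈ Finset.range m, Real.exp (-(2 * r * ((j : ℝ) + 1) * ((n : ℝ) - j))) * D j := by
    intro r m
    induction m with
    | zero => rw [lTrace_zero]; simp
    | succ m ih =>
      have := lTrace_succ c r m
      rw [Finset.sum_range_succ, ← add_assoc, ← ih]
      linarith
  set G : ℝ := ((k : ℝ) + 1) * ((n : ℝ) - k) with hG
  have hnk : (2 : ℝ) * (k + 1) ≤ n := by exact_mod_cast hk
  have hGpos : 0 < G := by
    have h1 : (0 : ℝ) ≤ k := Nat.cast_nonneg k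
    exact mul_pos (by linarith) (by linarith)
  have hpos : ∀ s : ℝ, 0 ≤ Real.exp (-(2 * G) * s) + ∑ j ∈ Finset.range k,
      Real.exp (-(2 * (G - ((j : ℝ) + 1) * ((n : ℝ) - j))) * s) * D j + D k := by
    intro s
    have h1 := lTrace_nonneg (fun p => c p + (-s)) (k + 1)
    rw [hsum, Finset.sum_range_succ] at h1
    have h2 := mul_nonneg (Real.exp_pos (-(2 * G) * s)).le h1
    refine h2.trans (le_of_eq ?_)
    rw [mul_add, mul_add, mul_one, Finset.mul_sum, add_assoc]
    congr 1
    congr 1
    · refine Finset.sum_congr rfl fun j _ => ?_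
      rw [← mul_assoc, ← Real.exp_add]
      congr 2
      ring
    · rw [← mul_assoc, ← Real.exp_add]
      have : -(2 * G) * s + -(2 * -s * ((k : ℝ) + 1) * ((n : ℝ) - k)) = 0 := by rw [hG]; ring
      rw [this, Real.exp_zero, one_mul]
  have hexp : ∀ e : ℝ, 0 < e → Filter.Tendsto (fun s : ℝ => Real.exp (-(2 * e) * s))
      Filter.atTop (nhds 0) := by
    intro e he
    refine Real.tendsto_exp_atBot.comp ?_
    refine Filter.Tendsto.const_mul_atTop_of_neg (by linarith) Filter.tendsto_id
  have hlim : Filter.Tendsto (fun s : ℝ => Real.exp (-(2 * G) * s) + ∑ j ∈ Finset.range k,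
      Real.exp (-(2 * (G - ((j : ℝ) + 1) * ((n : ℝ) - j))) * s) * D j + D k)
      Filter.atTop (nhds (0 + ∑ j ∈ Finset.range k, 0 * D j + D k)) := by
    refine ((hexp G hGpos).add (tendsto_finsetSum _ fun j hj => ?_)).add_const _
    refine (hexp _ ?_).mul_const _
    have hjk : j < k := Finset.mem_range.mp hj
    have hjk' : (j : ℝ) + 1 ≤ k := by exact_mod_cast hjk
    have h0 : (0 : ℝ) ≤ j := Nat.cast_nonneg j
    have : G - ((j : ℝ) + 1) * ((n : ℝ) - j) = ((k : ℝ) - j) * ((n : ℝ) - k - j - 1) := by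
      rw [hG]; ring
    rw [this]
    exact mul_pos (by linarith) (by linarith)
  have h3 := ge_of_tendsto' hlim hpos
  simp only [zero_mul, Finset.sum_const_zero, add_zero, zero_add] at h3
  rw [hD] at h3
  simp only at h3
  linarith

/-- The grand canonical partition function. -/
noncomputable def Xi (ι : Type*) [Fintype ι] [DecidableEq ι] (c : ι × ι → ℝ) (a : ℝ) : ℝ :=
  E c (fun p : ι × ι => Equiv.swap p.1 p.2) (gw a)

theorem Xi_eq (c : ι × ι → ℝ) (a : ℝ) :
    Xi ι c a = ∑ k ∈ Finset.range (Fintype.card ι + 1), Real.exp (-(a * k)) * lTrace ι c k := by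
  unfold Xi
  have h : (gw a : Equiv.Perm ι → ℝ) = fun σ => ∑ k ∈ Finset.range (Fintype.card ι + 1),
      Real.exp (-(a * k)) * trace (permMat _ (levHom ι k σ)) := by
    funext σ; exact gw_eq_sum a σ
  rw [h, E_sum]
  refine Finset.sum_congr rfl fun k _ => ?_
  rw [E_smul, lTrace_eq_E]

theorem Xi_antitone (c : ι × ι → ℝ) {a b : ℝ} (h : a ≤ b) : Xi ι c b ≤ Xi ι c a := by
  rw [Xi_eq, Xi_eq]
  refine Finset.sum_le_sum fun k _ => ?_
  refine mul_le_mul_of_nonneg_right (Real.exp_le_exp.mpr ?_) (lTrace_nonneg c k)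
  have : (0 : ℝ) ≤ k := Nat.cast_nonneg k
  nlinarith

theorem Xi_nonneg (c : ι × ι → ℝ) (a : ℝ) : 0 ≤ Xi ι c a := by
  rw [Xi_eq]
  exact Finset.sum_nonneg fun k _ => mul_nonneg (Real.exp_pos _).le (lTrace_nonneg c k)

/-- Pointwise bound for the profile after adding complete graph stirring. -/
theorem lTrace_add_le (c : ι × ι → ℝ) {r : ℝ} (hr : 0 ≤ r) {k : ℕ} (hk : k ≤ Fintype.card ι) :
    lTrace ι (fun p => c p + r) k ≤ ∑ i ∈ Finset.range (k + 1),
      Real.exp (-(r * Fintype.card ι * i)) * lTrace ι c i := by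
  set n := Fintype.card ι with hn
  -- first half
  have half : ∀ m : ℕ, 2 * m ≤ n → lTrace ι (fun p => c p + r) m ≤
      ∑ i ∈ Finset.range (m + 1), Real.exp (-(r * n * i)) * lTrace ι c i := by
    intro m
    induction m with
    | zero => intro _; rw [lTrace_zero]; simp [lTrace_zero]
    | succ m ih =>
      intro hm
      rw [Finset.sum_range_succ]
      have h1 := ih (by omega)
      have h2 := lTrace_succ c r m
      have h3 := lTrace_mono c hm
      have h4 := lTrace_nonneg c m
      have hm' : (2 : ℝ) * (m + 1) ≤ n := by exact_mod_cast hm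
      have h5 : Real.exp (-(2 * r * ((m : ℝ) + 1) * ((n : ℝ) - m))) ≤
          Real.exp (-(r * n * ((m + 1 : ℕ) : ℝ))) := by
        refine Real.exp_le_exp.mpr ?_
        push_cast
        have h6 : (0 : ℝ) ≤ r * (m + 1) := by positivity
        nlinarith
      have h7 : Real.exp (-(2 * r * ((m : ℝ) + 1) * ((n : ℝ) - m))) *
          (lTrace ι c (m + 1) - lTrace ι c m) ≤
          Real.exp (-(r * n * ((m + 1 : ℕ) : ℝ))) * lTrace ι c (m + 1) := by
        refine mul_le_mul h5 (by linarith) (by linarith) (Real.exp_pos _).le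
      linarith
  by_cases h : 2 * k ≤ n
  · exact half k h
  · rw [lTrace_compl _ hk, ← hn]
    refine (half (n - k) (by omega)).trans ?_
    refine Finset.sum_le_sum_of_subset_of_nonneg ?_ fun i _ _ =>
      mul_nonneg (Real.exp_pos _).le (lTrace_nonneg c i)
    intro j hj
    rw [Finset.mem_range] at *
    omega

theorem Xi_add_le (c : ι × ι → ℝ) {r : ℝ} (hr : 0 ≤ r) {a : ℝ} (ha : 0 < a) :
    Xi ι (fun p => c p + r) a ≤
      (1 - Real.exp (-a))⁻¹ * Xi ι c (a + r * Fintype.card ι) := by
  set n := Fintype.card ι with hn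
  have hea : Real.exp (-a) < 1 := by rw [Real.exp_lt_one_iff]; linarith
  have h1a : 0 < 1 - Real.exp (-a) := by linarith
  rw [Xi_eq, Xi_eq, ← hn]
  calc ∑ k ∈ Finset.range (n + 1), Real.exp (-(a * k)) * lTrace ι (fun p => c p + r) k
      ≤ ∑ k ∈ Finset.range (n + 1), Real.exp (-(a * k)) *
        ∑ i ∈ Finset.range (k + 1), Real.exp (-(r * n * i)) * lTrace ι c i := by
        refine Finset.sum_le_sum fun k hk => ?_
        refine mul_le_mul_of_nonneg_left ?_ (Real.exp_pos _).le
        exact lTrace_add_le c hr (Nat.lt_succ_iff.mp (Finset.mem_range.mp hk))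
    _ = ∑ i ∈ Finset.range (n + 1), Real.exp (-(r * n * i)) * lTrace ι c i *
        ∑ k ∈ Finset.Ico i (n + 1), Real.exp (-(a * k)) := by
        simp only [Finset.mul_sum]
        have h1 : ∀ k ∈ Finset.range (n + 1), ∑ i ∈ Finset.range (k + 1),
            Real.exp (-(a * k)) * (Real.exp (-(r * n * i)) * lTrace ι c i) =
            ∑ i ∈ Finset.range (n + 1), if i ≤ k then
            Real.exp (-(a * k)) * (Real.exp (-(r * n * i)) * lTrace ι c i) else 0 := by
          intro k hk
          rw [← Finset.sum_filter]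
          refine Finset.sum_congr ?_ fun _ _ => rfl
          ext i
          rw [Finset.mem_range] at hk
          simp only [Finset.mem_range, Finset.mem_filter]
          omega
        rw [Finset.sum_congr rfl h1, Finset.sum_comm]
        refine Finset.sum_congr rfl fun i _ => ?_
        rw [← Finset.sum_filter]
        have h2 : (Finset.range (n + 1)).filter (fun k => i ≤ k) = Finset.Ico i (n + 1) := by
          ext k
          simp only [Finset.mem_filter, Finset.mem_range, Finset.mem_Ico]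
          omega
        rw [h2]
        exact Finset.sum_congr rfl fun k _ => by ring
    _ ≤ ∑ i ∈ Finset.range (n + 1), Real.exp (-(r * n * i)) * lTrace ι c i *
        (Real.exp (-(a * i)) * (1 - Real.exp (-a))⁻¹) := by
        refine Finset.sum_le_sum fun i _ => ?_
        refine mul_le_mul_of_nonneg_left ?_ (mul_nonneg (Real.exp_pos _).le (lTrace_nonneg c i))
        have h3 : ∑ k ∈ Finset.Ico i (n + 1), Real.exp (-(a * k)) =
            Real.exp (-(a * i)) * ∑ j ∈ Finset.range (n + 1 - i), Real.exp (-a) ^ j := by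
          rw [Finset.sum_Ico_eq_sum_range, Finset.mul_sum]
          refine Finset.sum_congr rfl fun j _ => ?_
          rw [← Real.exp_nat_mul, ← Real.exp_add]
          push_cast
          ring_nf
        rw [h3]
        refine mul_le_mul_of_nonneg_left ?_ (Real.exp_pos _).le
        rw [← one_div, le_div_iff₀ h1a, geom_sum_mul_neg]
        have := pow_nonneg (Real.exp_pos (-a)).le (n + 1 - i)
        linarith
    _ = _ := by
        rw [Finset.mul_sum]
        refine Finset.sum_congr rfl fun i _ => ?_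
        have : Real.exp (-((a + r * n) * i)) = Real.exp (-(a * i)) * Real.exp (-(r * n * i)) := by
          rw [← Real.exp_add]; ring_nf
        rw [this]; ring

theorem Xi_zero_add_le (c : ι × ι → ℝ) {r : ℝ} (hr : 0 ≤ r) :
    Xi ι (fun p => c p + r) 0 ≤ (Fintype.card ι + 1) * Xi ι c (r * Fintype.card ι) := by
  set n := Fintype.card ι with hn
  rw [Xi_eq, Xi_eq, ← hn]
  simp only [zero_mul, neg_zero, Real.exp_zero, one_mul]
  calc ∑ k ∈ Finset.range (n + 1), lTrace ι (fun p => c p + r) k
      ≤ ∑ k ∈ Finset.range (n + 1),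
        ∑ i ∈ Finset.range (n + 1), Real.exp (-(r * n * i)) * lTrace ι c i := by
        refine Finset.sum_le_sum fun k hk => ?_
        refine (lTrace_add_le c hr (Nat.lt_succ_iff.mp (Finset.mem_range.mp hk))).trans ?_
        refine Finset.sum_le_sum_of_subset_of_nonneg ?_ fun i _ _ =>
          mul_nonneg (Real.exp_pos _).le (lTrace_nonneg c i)
        intro j hj
        rw [Finset.mem_range] at *
        omega
    _ = _ := by
        rw [Finset.sum_const, Finset.card_range, nsmul_eq_mul]
        push_cast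
        rfl

end Exclusion

end Pool.Agent.Stirring
end

section

/-! One scale of the multiscale bound. -/

open Finset

set_option linter.unusedSectionVars false

namespace Pool.Agent.Stirring

variable {V : Type*} [Fintype V] [DecidableEq V] {K : Type*} [DecidableEq K]

/-- Rates restricted to the blocks in `S`. -/
noncomputable def resB (β : V → K) (c : V × V → ℝ) (S : Finset K) : V × V → ℝ :=
  fun p => if β p.1 ∈ S then c p else 0

theorem E_resB_insert {β : V → K} {c : V × V → ℝ} (hc : ∀ p, c p ≠ 0 → β p.1 = β p.2) (a : ℝ)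
    {S : Finset K} {k : K} (hk : k ∉ S) :
    E (resB β c (insert k S)) sw (ngw a) = E (resB β c {k}) sw (ngw a) *
      E (resB β c S) sw (ngw a) := by
  set p : V × V → Bool := fun q => decide (β q.1 = k) with hp
  have h1 : restr (resB β c (insert k S)) p = resB β c {k} := by
    funext q
    simp only [restr, hp, resB, Finset.mem_insert, Finset.mem_singleton, decide_eq_true_eq]
    by_cases h : β q.1 = k <;> simp [h]
  have h2 : restr (resB β c (insert k S)) (fun q => !p q) = resB β c S := by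
    funext q
    simp only [restr, hp, resB, Finset.mem_insert, Bool.not_eq_true', decide_eq_false_iff_not]
    by_cases h : β q.1 = k
    · simp [h, hk]
    · simp [h]
  rw [E_split (resB β c (insert k S)) sw p (ngw a), h1, h2]
  intro l hl
  have hl' : ∀ q ∈ l, β q.1 = β q.2 := by
    intro q hq
    refine hc q ?_
    intro h0
    refine hl q hq ?_
    simp [resB, h0]
  have ha : ∀ q ∈ l.filter p, β q.1 = k ∧ β q.2 = k := by
    intro q hq
    have := List.mem_filter.mp hq
    have h3 : β q.1 = k := by simpa [hp] using this.2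
    exact ⟨h3, by rw [← hl' q this.1]; exact h3⟩
  have hb : ∀ q ∈ l.filter (fun q => !p q), ¬ β q.1 = k ∧ ¬ β q.2 = k := by
    intro q hq
    have := List.mem_filter.mp hq
    have h3 : ¬ β q.1 = k := by simpa [hp] using this.2
    exact ⟨h3, by rw [← hl' q this.1]; exact h3⟩
  have hdisj : Equiv.Perm.Disjoint ((l.filter p).map sw).prod
      ((l.filter fun q => !p q).map sw).prod := by
    intro z
    by_cases hz : β z = k
    · right
      exact prod_sw_fix (P := fun j => ¬ j = k) _ hb (not_not.mpr hz)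
    · left
      exact prod_sw_fix (P := fun j => j = k) _ ha hz
  rw [prod_filter_split sw p l, ngw_mul a hdisj]
  intro a ha' b hb' hpa hpb
  have h3 : β a.1 = k := by simpa [hp] using hpa
  have h4 : β a.2 = k := by rw [← hl' a ha']; exact h3
  have h5 : ¬ β b.1 = k := by simpa [hp] using hpb
  have h6 : ¬ β b.2 = k := by rw [← hl' b hb']; exact h5
  refine Equiv.Perm.Disjoint.commute ?_
  intro z
  by_cases hz : β z = k
  · right
    refine Equiv.swap_apply_of_ne_of_ne ?_ ?_
    · rintro rfl; exact h5 hz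
    · rintro rfl; exact h6 hz
  · left
    refine Equiv.swap_apply_of_ne_of_ne ?_ ?_
    · rintro rfl; exact hz h3
    · rintro rfl; exact hz h4

theorem ngw_one (a : ℝ) : ngw a (1 : Equiv.Perm V) = 1 := by
  have h := gw_mul_split a (∅ : Finset V) (σ := 1) (τ := 1) (fun x _ => rfl) (fun x _ => rfl)
  rw [mul_one, rw'_one, rw'_one, Finset.card_empty, pow_zero, one_mul, Finset.compl_empty,
    Finset.card_univ] at h
  unfold ngw
  rw [h]
  have := Real.exp_pos (-a)
  exact div_self (by positivity)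

theorem E_resB_empty (β : V → K) (c : V × V → ℝ) (a : ℝ) : E (resB β c ∅) sw (ngw a) = 1 := by
  have h : ∀ l : List (V × V), (∀ q ∈ l, resB β c ∅ q ≠ 0) →
      ngw a (l.map sw).prod = (fun _ => (1 : ℝ)) (l.map sw).prod := by
    intro l hl
    cases l with
    | nil =>
      simp only [List.map_nil, List.prod_nil]
      rw [ngw_one]
    | cons q l =>
      exact absurd (by simp [resB]) (hl q List.mem_cons_self)
  rw [E_congr_law (h := fun _ => (1 : ℝ)) _ _ h, E_const]

theorem E_resB_prod {β : V → K} {c : V × V → ℝ} (hc : ∀ p, c p ≠ 0 → β p.1 = β p.2) (a : ℝ)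
    (S : Finset K) : E (resB β c S) sw (ngw a) = ∏ k ∈ S, E (resB β c {k}) sw (ngw a) := by
  induction S using Finset.induction_on with
  | empty => rw [E_resB_empty, Finset.prod_empty]
  | insert k S hk ih => rw [E_resB_insert hc a hk, Finset.prod_insert hk, ih]

/-- Rates on a block, as rates on the subtype. -/
def subR (β : V → K) (c : V × V → ℝ) (k : K) : {x : V // β x = k} × {x : V // β x = k} → ℝ :=
  fun q => c (q.1, q.2)

theorem E_resB_single {β : V → K} {c : V × V → ℝ} (hc : ∀ p, c p ≠ 0 → β p.1 = β p.2) (a : ℝ)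
    (k : K) : E (resB β c {k}) sw (ngw a) = Xi {x : V // β x = k} (subR β c k) a /
      (1 + Real.exp (-a)) ^ Fintype.card {x : V // β x = k} := by
  classical
  set B := {x : V // β x = k} with hB
  have hj : Function.Injective (fun q : B × B => ((q.1 : V), (q.2 : V))) := by
    rintro ⟨a, b⟩ ⟨a', b'⟩ h
    simp only [Prod.mk.injEq] at h
    exact Prod.ext (Subtype.ext h.1) (Subtype.ext h.2)
  have h1 := E_transport (j := fun q : B × B => ((q.1 : V), (q.2 : V))) hj (resB β c {k})
    (by
      intro q hq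
      have h2 : β q.1 = k := by
        by_contra hne
        refine hq ?_
        simp [resB, hne]
      have h3 : c q ≠ 0 := by
        intro h0
        refine hq ?_
        simp [resB, h0]
      exact ⟨(⟨q.1, h2⟩, ⟨q.2, by rw [← hc q h3]; exact h2⟩), rfl⟩) sw (ngw a)
    (Equiv.Perm.ofSubtype (p := fun x : V => β x = k)) (fun q : B × B => Equiv.swap q.1 q.2)
    (by
      intro q
      rw [Equiv.Perm.ofSubtype_swap_eq]; rfl)
  rw [h1]
  have h2 : (fun q : B × B => resB β c {k} ((q.1 : V), (q.2 : V))) = subR β c k := by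
    funext q
    simp only [resB, Finset.mem_singleton, subR]
    rw [if_pos q.1.2]
  rw [h2]
  have h3 : (fun σ : Equiv.Perm B => ngw a (Equiv.Perm.ofSubtype (p := fun x : V => β x = k) σ)) =
      fun σ => ((1 + Real.exp (-a)) ^ Fintype.card B)⁻¹ * gw a σ := by
    funext σ
    rw [ngw_ofSubtype, ngw, div_eq_inv_mul]
  rw [h3, E_smul, Xi, div_eq_inv_mul]

theorem resB_image (β : V → K) (c : V × V → ℝ) : resB β c (Finset.univ.image β) = c := by
  funext p
  unfold resB
  rw [if_pos (Finset.mem_image_of_mem β (Finset.mem_univ _))]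

/-- The grand canonical partition function factorizes over blocks. -/
theorem Xi_prod {β : V → K} {c : V × V → ℝ} (hc : ∀ p, c p ≠ 0 → β p.1 = β p.2) (a : ℝ) :
    Xi V c a = ∏ k ∈ Finset.univ.image β, Xi {x : V // β x = k} (subR β c k) a := by
  have hpos : (0 : ℝ) < 1 + Real.exp (-a) := by have := Real.exp_pos (-a); positivity
  have h1 : Xi V c a = (1 + Real.exp (-a)) ^ Fintype.card V * E c sw (ngw a) := by
    have h2 : (gw a : Equiv.Perm V → ℝ) = fun σ => (1 + Real.exp (-a)) ^ Fintype.card V * ngw a σ := by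
      funext σ
      rw [ngw]
      field_simp
    unfold Xi
    rw [h2, E_smul]
    rfl
  rw [h1]
  conv_lhs => rw [← resB_image β c]
  rw [E_resB_prod hc]
  rw [Finset.prod_congr rfl fun k _ => E_resB_single hc a k, Finset.prod_div_distrib]
  have h3 : ∏ k ∈ Finset.univ.image β, (1 + Real.exp (-a)) ^ Fintype.card {x : V // β x = k} =
      (1 + Real.exp (-a)) ^ Fintype.card V := by
    rw [Finset.prod_pow_eq_pow_sum]
    congr 1
    rw [← Finset.card_univ (α := V),
      Finset.card_eq_sum_card_fiberwise (f := β) (t := Finset.univ.image β)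
        (fun x _ => Finset.mem_image_of_mem β (Finset.mem_univ x))]
    refine Finset.sum_congr rfl fun k _ => ?_
    rw [Fintype.card_subtype]
  rw [h3]
  field_simp

/-- Adding complete graph stirring inside the blocks. -/
theorem Xi_step {β : V → K} {c : V × V → ℝ} (hc : ∀ p, c p ≠ 0 → β p.1 = β p.2) {r s a : ℝ}
    (hr : 0 ≤ r) (ha : 0 < a)
    (hs : ∀ k ∈ Finset.univ.image β, s ≤ Fintype.card {x : V // β x = k}) :
    Xi V (fun p => c p + if β p.1 = β p.2 then r else 0) a ≤
      ((1 - Real.exp (-a))⁻¹) ^ (Finset.univ.image β).card * Xi V c (a + r * s) := by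
  have hc' : ∀ p : V × V, (c p + if β p.1 = β p.2 then r else 0) ≠ 0 → β p.1 = β p.2 := by
    intro p hp
    by_contra hne
    refine hp ?_
    rw [if_neg hne, add_zero]
    by_contra h0
    exact hne (hc p h0)
  have hea : Real.exp (-a) < 1 := by rw [Real.exp_lt_one_iff]; linarith
  have h1a : 0 < 1 - Real.exp (-a) := by linarith
  rw [Xi_prod hc', Xi_prod hc, ← Finset.prod_const, ← Finset.prod_mul_distrib]
  refine Finset.prod_le_prod (fun k _ => Xi_nonneg _ _) fun k hk => ?_
  have h1 : subR β (fun p => c p + if β p.1 = β p.2 then r else 0) k =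
      fun q => subR β c k q + r := by
    funext q
    simp only [subR]
    rw [if_pos (by rw [q.1.2, q.2.2])]
  rw [h1]
  refine (Xi_add_le _ hr ha).trans ?_
  refine mul_le_mul_of_nonneg_left ?_ (by positivity)
  refine Xi_antitone _ ?_
  have := mul_le_mul_of_nonneg_left (hs k hk) hr
  linarith

/-- The partition function without stirring. -/
theorem Xi_zero_rates (a : ℝ) : Xi V (fun _ => 0) a = (1 + Real.exp (-a)) ^ Fintype.card V := by
  unfold Xi
  have h : ∀ l : List (V × V), (∀ q ∈ l, (fun _ : V × V => (0 : ℝ)) q ≠ 0) →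
      gw a (l.map (fun p : V × V => Equiv.swap p.1 p.2)).prod =
        (fun _ => (1 + Real.exp (-a)) ^ Fintype.card V)
          (l.map (fun p : V × V => Equiv.swap p.1 p.2)).prod := by
    intro l hl
    cases l with
    | nil =>
      simp only [List.map_nil, List.prod_nil]
      have h2 := ngw_one (V := V) a
      unfold ngw at h2
      have hpos : (0 : ℝ) < 1 + Real.exp (-a) := by have := Real.exp_pos (-a); positivity
      rwa [div_eq_one_iff_eq (by positivity)] at h2
    | cons q l =>
      exact absurd rfl (hl q List.mem_cons_self)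
  rw [E_congr_law (h := fun _ => (1 + Real.exp (-a)) ^ Fintype.card V) _ _ h, E_const]

end Pool.Agent.Stirring
end
end

section

/-! Upper bound for the expected number of cycles on the torus. -/

open Finset

set_option linter.unusedSectionVars false

namespace Pool.Agent.Stirring

variable {d L : ℕ} [NeZero L]

theorem card_letters : (Fintype.card ((Fin d → ZMod L) × Fin d) : ℝ) = d * (L : ℝ) ^ d := by
  rw [Fintype.card_prod, Fintype.card_fun, ZMod.card, Fintype.card_fin]
  push_cast; ring

theorem card_torus : Fintype.card (Fin d → ZMod L) = L ^ d := by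
  rw [Fintype.card_fun, ZMod.card, Fintype.card_fin]

theorem expect_eq (t : ℝ) (f : Equiv.Perm (Fin d → ZMod L) → ℝ) :
    expect d L t f = E (fun _ : (Fin d → ZMod L) × Fin d => t) (edgeSwap d L) f := by
  unfold expect E Z
  rw [← tsum_mul_left]
  refine tsum_congr fun n => ?_
  have h1 : ∑ _a : (Fin d → ZMod L) × Fin d, t = d * (L : ℝ) ^ d * t := by
    rw [Finset.sum_const, Finset.card_univ, nsmul_eq_mul, card_letters]
  rw [h1]
  unfold wordSum
  have h2 : ∀ w : Fin n → (Fin d → ZMod L) × Fin d,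
      (∏ _i : Fin n, t) * f ((List.ofFn w).map (edgeSwap d L)).prod =
      t ^ n * f ((List.ofFn w).map (edgeSwap d L)).prod := by
    intro w
    rw [Finset.prod_const, Finset.card_univ, Fintype.card_fin]
  rw [Finset.sum_congr rfl fun w _ => h2 w, ← Finset.mul_sum]
  ring

open Matrix in
theorem fixSets_eq_trace {V : Type*} [Fintype V] [DecidableEq V] (σ : Equiv.Perm V) :
    fixSets σ = trace (((permMat (Finset V)).comp (setHom V)) σ) := by
  rw [MonoidHom.comp_apply, trace_permMat]
  rfl

open Matrix in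
theorem isSymm_gen {V : Type*} [Fintype V] [DecidableEq V] {α : Type*} [Fintype α] (c : α → ℝ)
    (g : α → Equiv.Perm V) (hg : ∀ a, g a * g a = 1) :
    (∑ a, c a • (((permMat (Finset V)).comp (setHom V)) (g a) - 1)).IsSymm := by
  rw [Matrix.IsSymm, Matrix.transpose_sum]
  refine Finset.sum_congr rfl fun a _ => ?_
  rw [Matrix.transpose_smul, Matrix.transpose_sub, Matrix.transpose_one]
  have h : (((permMat (Finset V)).comp (setHom V)) (g a)).IsSymm := by
    rw [MonoidHom.comp_apply]
    refine permMat_swap_isSymm_of_involutive ?_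
    rw [← map_mul, hg, map_one]
  rw [h.eq]

open Matrix in
theorem quad_gen {V : Type*} [Fintype V] [DecidableEq V] (φ : Finset V → ℝ) {γ : Type*} [Fintype γ]
    (c : γ → ℝ) (g : γ → Equiv.Perm V) :
    φ ⬝ᵥ (∑ a, c a • (((permMat (Finset V)).comp (setHom V)) (g a) - 1)).mulVec φ =
      -(∑ a, c a * lenFun φ (g a) ^ 2) / 2 := by
  rw [Matrix.sum_mulVec, dotProduct_sum]
  rw [← Finset.sum_neg_distrib, Finset.sum_div]
  refine Finset.sum_congr rfl fun a _ => ?_
  rw [Matrix.smul_mulVec, dotProduct_smul, MonoidHom.comp_apply, quad_form_eq, smul_eq_mul]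
  ring

open Matrix in
theorem E_fixSets_mono {V : Type*} [Fintype V] [DecidableEq V] {α β : Type*} [Fintype α] [Fintype β]
    (c : α → ℝ) (g : α → Equiv.Perm V) (hg : ∀ a, g a * g a = 1)
    (c' : β → ℝ) (g' : β → Equiv.Perm V) (hg' : ∀ a, g' a * g' a = 1)
    (h : ∀ ell : Equiv.Perm V → ℝ, IsLen ell →
      ∑ b, c' b * ell (g' b) ^ 2 ≤ ∑ a, c a * ell (g a) ^ 2) :
    E c g fixSets ≤ E c' g' fixSets := by
  have h1 : (fixSets : Equiv.Perm V → ℝ) = fun σ =>
      trace (((permMat (Finset V)).comp (setHom V)) σ) := by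
    funext σ; exact fixSets_eq_trace σ
  rw [h1, E_trace, E_trace]
  refine trace_exp_mono (isSymm_gen c g hg) (isSymm_gen c' g' hg') fun φ => ?_
  rw [quad_gen, quad_gen]
  have := h (lenFun φ) (isLen_lenFun φ)
  linarith

theorem edgeSwap_mul_self (e : (Fin d → ZMod L) × Fin d) :
    edgeSwap d L e * edgeSwap d L e = 1 := Equiv.swap_mul_self _ _

theorem card_fiber_bv {l q : ℕ} (hq : 0 < q) (k : Fin d → Fin q) :
    (Finset.univ.filter fun x : Fin d → ZMod L => bv d L l q hq x = k) =
      Fintype.piFinset (fun i => Finset.univ.filter fun a : ZMod L => bz l q hq a = k i) := by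
  ext x
  simp only [Finset.mem_filter, Finset.mem_univ, true_and, Fintype.mem_piFinset]
  exact ⟨fun h i => congrFun h i, fun h => funext h⟩

theorem card_fiber_bv_ge {l q : ℕ} (hq : 0 < q) (hl : 0 < l) (hL : q * l ≤ L)
    (k : Fin d → Fin q) :
    l ^ d ≤ (Finset.univ.filter fun x : Fin d → ZMod L => bv d L l q hq x = k).card := by
  rw [card_fiber_bv, Fintype.card_piFinset]
  calc l ^ d = ∏ _i : Fin d, l := by rw [Finset.prod_const, Finset.card_univ, Fintype.card_fin]
    _ ≤ _ := Finset.prod_le_prod' fun i _ => card_bz_ge hq hl hL _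

theorem card_fiber_bv_le {l q : ℕ} (hq : 0 < q) (hl : 0 < l) (hL : L < (q + 1) * l)
    (k : Fin d → Fin q) :
    (Finset.univ.filter fun x : Fin d → ZMod L => bv d L l q hq x = k).card ≤ (2 * l) ^ d := by
  rw [card_fiber_bv, Fintype.card_piFinset]
  calc _ ≤ ∏ _i : Fin d, 2 * l := Finset.prod_le_prod' fun i _ => card_bz_le hq hl hL _
    _ = _ := by rw [Finset.prod_const, Finset.card_univ, Fintype.card_fin]

/-- Comparison with block-wise complete graphs. -/
theorem expect_fixSets_le (hd : 1 ≤ d) {t : ℝ} (ht : 0 ≤ t) {l q : ℕ} (hq : 0 < q) (hl : 0 < l)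
    (hL1 : q * l ≤ L) (hL2 : L < (q + 1) * l) :
    expect d L t fixSets ≤
      ∏ k : Fin d → Fin q, ((((Finset.univ.filter fun x : Fin d → ZMod L =>
        bv d L l q hq x = k).card : ℝ) + 1) *
        (1 + Real.exp (-(t / (64 * d * 2 ^ d * l ^ 2)))) ^
          (Finset.univ.filter fun x : Fin d → ZMod L => bv d L l q hq x = k).card) := by
  set ρ : ℝ := t / (64 * d * 2 ^ d * l ^ 2) with hρ
  have hρ0 : 0 ≤ ρ := by positivity
  have hl' : (0 : ℝ) < l := by exact_mod_cast hl
  have hd' : (0 : ℝ) < d := by exact_mod_cast hd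
  set r : (Fin d → Fin q) → ℝ := fun k =>
    ρ / (Finset.univ.filter fun x : Fin d → ZMod L => bv d L l q hq x = k).card with hr
  have hr0 : ∀ k, 0 ≤ r k := fun k => by positivity
  have hmpos : ∀ k : Fin d → Fin q,
      (0 : ℝ) < (Finset.univ.filter fun x : Fin d → ZMod L => bv d L l q hq x = k).card := by
    intro k
    have h1 := card_fiber_bv_ge (d := d) (L := L) hq hl hL1 k
    have h2 : 0 < l ^ d := by positivity
    exact_mod_cast lt_of_lt_of_le h2 h1
  have hr1 : ∀ k, r k ≤ ρ / (l : ℝ) ^ d := by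
    intro k
    refine div_le_div_of_nonneg_left hρ0 (by positivity) ?_
    exact_mod_cast card_fiber_bv_ge hq hl hL1 k
  rw [expect_eq]
  have h1 : E (fun _ : (Fin d → ZMod L) × Fin d => t) (edgeSwap d L) fixSets ≤
      E (blockW (bv d L l q hq) r Finset.univ) sw fixSets := by
    refine E_fixSets_mono _ _ edgeSwap_mul_self _ _ (fun p => Equiv.swap_mul_self _ _) ?_
    intro ell hell
    calc ∑ p, blockW (bv d L l q hq) r Finset.univ p * ell (sw p) ^ 2
        ≤ ∑ p : (Fin d → ZMod L) × (Fin d → ZMod L) with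
          bv d L l q hq p.1 = bv d L l q hq p.2, ρ / (l : ℝ) ^ d * ell (Equiv.swap p.1 p.2) ^ 2 := by
          rw [Finset.sum_filter]
          refine Finset.sum_le_sum fun p _ => ?_
          unfold blockW
          by_cases hp : bv d L l q hq p.1 = bv d L l q hq p.2
          · rw [if_pos ⟨hp, Finset.mem_univ _⟩, if_pos hp]
            exact mul_le_mul_of_nonneg_right (hr1 _) (sq_nonneg _)
          · rw [if_neg (fun h => hp h.1), if_neg hp, zero_mul]
      _ = ρ / (l : ℝ) ^ d * ∑ p : (Fin d → ZMod L) × (Fin d → ZMod L) with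
          bv d L l q hq p.1 = bv d L l q hq p.2, ell (Equiv.swap p.1 p.2) ^ 2 := by
          rw [Finset.mul_sum]
      _ ≤ ρ / (l : ℝ) ^ d * (128 * d * (2 * l : ℝ) ^ (d - 1) * (l : ℝ) ^ 3 *
          ∑ e : (Fin d → ZMod L) × Fin d, ell (edgeSwap d L e) ^ 2) := by
          exact mul_le_mul_of_nonneg_left (box_sum hell hq hl hL2) (by positivity)
      _ = t * ∑ e : (Fin d → ZMod L) × Fin d, ell (edgeSwap d L e) ^ 2 := by
          obtain ⟨d', rfl⟩ : ∃ d', d = d' + 1 := ⟨d - 1, by omega⟩
          rw [hρ]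
          simp only [Nat.add_sub_cancel]
          rw [mul_pow, pow_succ (l : ℝ) d', pow_succ (2 : ℝ) d']
          have hd'' : ((d' + 1 : ℕ) : ℝ) ≠ 0 := by positivity
          field_simp
          ring
      _ = _ := by rw [Finset.mul_sum]
  refine h1.trans ((E_block_fixSets_le (bv d L l q hq) r hr0).trans (le_of_eq ?_))
  refine Finset.prod_congr rfl fun k _ => ?_
  have : r k * ((Finset.univ.filter fun x : Fin d → ZMod L => bv d L l q hq x = k).card : ℝ) = ρ := by
    rw [hr]
    have := (hmpos k).ne'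
    field_simp
  rw [this]

/-- First form of the bound for the expected number of cycles. -/
theorem expect_numCycles_le (hd : 1 ≤ d) {t : ℝ} (ht : 0 ≤ t) {l q : ℕ} (hq : 0 < q) (hl : 0 < l)
    (hL1 : q * l ≤ L) (hL2 : L < (q + 1) * l) :
    expect d L t (fun σ => (numCycles σ : ℝ)) * Real.log 2 ≤
      (q : ℝ) ^ d * Real.log ((2 * l : ℝ) ^ d + 1) +
        (L : ℝ) ^ d * Real.exp (-(t / (64 * d * 2 ^ d * l ^ 2))) := by
  set ρ : ℝ := t / (64 * d * 2 ^ d * l ^ 2) with hρ
  have h1 := expect_fixSets_le (d := d) (L := L) hd ht hq hl hL1 hL2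
  rw [← hρ] at h1
  have h2 := two_rpow_E_le (c := fun _ : (Fin d → ZMod L) × Fin d => t) (fun _ => ht)
    (edgeSwap d L) (fun σ => (numCycles σ : ℝ))
  have h3 : (fun σ : Equiv.Perm (Fin d → ZMod L) => (2 : ℝ) ^ (numCycles σ : ℝ)) = fixSets := by
    funext σ; rw [fixSets_eq_two_pow, Real.rpow_natCast]
  rw [h3, ← expect_eq, ← expect_eq] at h2
  have h4 := h2.trans h1
  have h5 := Real.log_le_log (by positivity) h4
  rw [Real.log_rpow (by norm_num)] at h5
  refine h5.trans ?_
  have hpos : ∀ k ∈ (Finset.univ : Finset (Fin d → Fin q)),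
      ((((Finset.univ.filter fun x : Fin d → ZMod L =>
        bv d L l q hq x = k).card : ℝ) + 1) *
        (1 + Real.exp (-ρ)) ^
          (Finset.univ.filter fun x : Fin d → ZMod L => bv d L l q hq x = k).card) ≠ 0 := by
    intro k _
    have := Real.exp_pos (-ρ)
    positivity
  rw [Real.log_prod hpos]
  have h6 : ∀ k ∈ (Finset.univ : Finset (Fin d → Fin q)),
      Real.log ((((Finset.univ.filter fun x : Fin d → ZMod L =>
        bv d L l q hq x = k).card : ℝ) + 1) *
        (1 + Real.exp (-ρ)) ^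
          (Finset.univ.filter fun x : Fin d → ZMod L => bv d L l q hq x = k).card) ≤
      Real.log ((2 * l : ℝ) ^ d + 1) + ((Finset.univ.filter fun x : Fin d → ZMod L =>
        bv d L l q hq x = k).card : ℝ) * Real.exp (-ρ) := by
    intro k _
    have he := Real.exp_pos (-ρ)
    rw [Real.log_mul (by positivity) (by positivity), Real.log_pow]
    refine add_le_add ?_ ?_
    · refine Real.log_le_log (by positivity) ?_
      have := card_fiber_bv_le (d := d) (L := L) hq hl hL2 k
      have h7 : ((Finset.univ.filter fun x : Fin d → ZMod L => bv d L l q hq x = k).card : ℝ) ≤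
          (2 * l : ℝ) ^ d := by exact_mod_cast this
      linarith
    · refine mul_le_mul_of_nonneg_left ?_ (Nat.cast_nonneg _)
      have := Real.log_le_sub_one_of_pos (show 0 < 1 + Real.exp (-ρ) by positivity)
      linarith
  refine (Finset.sum_le_sum h6).trans (le_of_eq ?_)
  rw [Finset.sum_add_distrib, Finset.sum_const, Finset.card_univ, Fintype.card_fun,
    Fintype.card_fin, Fintype.card_fin, nsmul_eq_mul, ← Finset.sum_mul]
  have h8 : ∑ k : Fin d → Fin q, ((Finset.univ.filter fun x : Fin d → ZMod L =>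
      bv d L l q hq x = k).card : ℝ) = (L : ℝ) ^ d := by
    rw [← Nat.cast_sum, ← Finset.card_eq_sum_card_fiberwise (fun x _ => Finset.mem_univ _),
      Finset.card_univ, card_torus]
    push_cast; rfl
  rw [h8]
  push_cast
  rfl

end Pool.Agent.Stirring
end

section

/-! The multiscale bound on the torus. -/

open Finset

set_option linter.unusedSectionVars false

namespace Pool.Agent.Stirring

variable {d L : ℕ} [NeZero L]

theorem bn_refine {L i j : ℕ} (hij : i ≤ j) (hj : 2 ^ j ≤ L) (x : ℕ) :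
    bn (2 ^ j) (L / 2 ^ j) x = min (bn (2 ^ i) (L / 2 ^ i) x / 2 ^ (j - i)) (L / 2 ^ j - 1) := by
  unfold bn
  obtain ⟨m, rfl⟩ := Nat.exists_eq_add_of_le hij
  rw [Nat.add_sub_cancel_left]
  have hm : 0 < 2 ^ m := by positivity
  have h1 : ∀ z : ℕ, z / 2 ^ (i + m) = z / 2 ^ i / 2 ^ m := by
    intro z; rw [pow_add, Nat.div_div_eq_div_mul]
  rw [h1 x, h1 L]
  set q := L / 2 ^ i with hq
  have hq1 : 2 ^ m ≤ q := by
    rw [hq, Nat.le_div_iff_mul_le (by positivity), ← pow_add, add_comm]; exact hj
  set y := x / 2 ^ i with hy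
  by_cases hyq : y ≤ q - 1
  · rw [min_eq_left hyq]
  · push Not at hyq
    rw [min_eq_right hyq.le]
    have h3 : q / 2 ^ m - 1 ≤ (q - 1) / 2 ^ m := by
      rw [Nat.le_div_iff_mul_le hm, Nat.sub_mul, one_mul]
      have := Nat.div_mul_le_self q (2 ^ m)
      have h4 : 0 < 2 ^ m := hm
      omega
    have h4 : q / 2 ^ m - 1 ≤ y / 2 ^ m := h3.trans (Nat.div_le_div_right hyq.le)
    rw [min_eq_right h3, min_eq_right h4]

/-- Block index at scale `2 ^ j`. -/
def lv (d L : ℕ) (j : ℕ) (x : Fin d → ZMod L) : Fin d → ℕ :=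
  fun i => bn (2 ^ j) (L / 2 ^ j) (x i).val

theorem lv_refine {i j : ℕ} (hij : i ≤ j) (hj : 2 ^ j ≤ L) {x y : Fin d → ZMod L}
    (h : lv d L i x = lv d L i y) : lv d L j x = lv d L j y := by
  funext m
  unfold lv
  rw [bn_refine hij hj, bn_refine hij hj]
  have : bn (2 ^ i) (L / 2 ^ i) (x m).val = bn (2 ^ i) (L / 2 ^ i) (y m).val := congrFun h m
  rw [this]

theorem lv_eq_iff_bv {j : ℕ} (hq : 0 < L / 2 ^ j) (x y : Fin d → ZMod L) :
    lv d L j x = lv d L j y ↔ bv d L (2 ^ j) (L / 2 ^ j) hq x = bv d L (2 ^ j) (L / 2 ^ j) hq y := by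
  constructor
  · intro h
    funext m
    exact Fin.ext (congrFun h m)
  · intro h
    funext m
    exact congrArg Fin.val (congrFun h m)

theorem card_block_ge {j : ℕ} (hj : 2 ^ j ≤ L) {k : Fin d → ℕ}
    (hk : k ∈ Finset.univ.image (lv d L j)) :
    ((2 : ℝ) ^ j) ^ d ≤ Fintype.card {x : Fin d → ZMod L // lv d L j x = k} := by
  have hq : 0 < L / 2 ^ j := Nat.div_pos hj (by positivity)
  obtain ⟨x, _, rfl⟩ := Finset.mem_image.mp hk
  have h1 := card_fiber_bv_ge (d := d) (L := L) hq (l := 2 ^ j) (by positivity)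
    (Nat.div_mul_le_self _ _) (bv d L (2 ^ j) (L / 2 ^ j) hq x)
  have h2 : Fintype.card {y : Fin d → ZMod L // lv d L j y = lv d L j x} =
      (Finset.univ.filter fun y : Fin d → ZMod L =>
        bv d L (2 ^ j) (L / 2 ^ j) hq y = bv d L (2 ^ j) (L / 2 ^ j) hq x).card := by
    rw [Fintype.card_subtype]
    congr 1
    ext y
    simp only [Finset.mem_filter, Finset.mem_univ, true_and]
    exact lv_eq_iff_bv hq y x
  rw [h2]
  exact_mod_cast h1

theorem card_image_lv_le (j : ℕ) (hj : 2 ^ j ≤ L) :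
    (Finset.univ.image (lv d L j)).card ≤ (L / 2 ^ j) ^ d := by
  have hq : 0 < L / 2 ^ j := Nat.div_pos hj (by positivity)
  calc (Finset.univ.image (lv d L j)).card
      ≤ (Fintype.piFinset (fun _ : Fin d => Finset.range (L / 2 ^ j))).card := by
        refine Finset.card_le_card ?_
        intro k hk
        obtain ⟨x, _, rfl⟩ := Finset.mem_image.mp hk
        rw [Fintype.mem_piFinset]
        intro i
        rw [Finset.mem_range]
        exact bn_lt hq _
    _ = _ := by
        rw [Fintype.card_piFinset]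
        simp

theorem box_sum_lv {ell : Equiv.Perm (Fin d → ZMod L) → ℝ} (h : IsLen ell) (hd : 1 ≤ d) {j : ℕ}
    (hj : 2 ^ j ≤ L) :
    ∑ p : (Fin d → ZMod L) × (Fin d → ZMod L), (if lv d L j p.1 = lv d L j p.2 then
      ell (Equiv.swap p.1 p.2) ^ 2 else 0) ≤
    64 * d * 2 ^ d * ((2 : ℝ) ^ j) ^ (d + 2) *
      ∑ e : (Fin d → ZMod L) × Fin d, ell (edgeSwap d L e) ^ 2 := by
  have hq : 0 < L / 2 ^ j := Nat.div_pos hj (by positivity)
  have h1 := box_sum h hq (l := 2 ^ j) (by positivity) (by
    have := Nat.lt_div_mul_add (a := L) (b := 2 ^ j) (by positivity)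
    rw [add_mul, one_mul]; exact this)
  rw [← Finset.sum_filter]
  have h2 : (Finset.univ.filter fun p : (Fin d → ZMod L) × (Fin d → ZMod L) =>
      lv d L j p.1 = lv d L j p.2) = Finset.univ.filter fun p =>
      bv d L (2 ^ j) (L / 2 ^ j) hq p.1 = bv d L (2 ^ j) (L / 2 ^ j) hq p.2 := by
    ext p
    simp only [Finset.mem_filter, Finset.mem_univ, true_and]
    exact lv_eq_iff_bv hq _ _
  rw [h2]
  refine h1.trans (le_of_eq ?_)
  obtain ⟨d', rfl⟩ : ∃ d', d = d' + 1 := ⟨d - 1, by omega⟩
  simp only [Nat.add_sub_cancel]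
  push_cast
  rw [mul_pow, pow_succ (2 : ℝ) d']
  ring

/-- Multiscale rates. -/
noncomputable def cM (d L : ℕ) (b : ℕ → ℝ) (J : ℕ) : (Fin d → ZMod L) × (Fin d → ZMod L) → ℝ :=
  fun p => ∑ j ∈ Finset.range J, if lv d L (j + 1) p.1 = lv d L (j + 1) p.2 then b (j + 1) else 0

theorem cM_succ (b : ℕ → ℝ) (J : ℕ) :
    cM d L b (J + 1) = fun p => cM d L b J p +
      if lv d L (J + 1) p.1 = lv d L (J + 1) p.2 then b (J + 1) else 0 := by
  funext p
  unfold cM
  rw [Finset.sum_range_succ]

theorem cM_support (b : ℕ → ℝ) {J m : ℕ} (hJ : J ≤ m) (hm : 2 ^ m ≤ L) :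
    ∀ p, cM d L b J p ≠ 0 → lv d L m p.1 = lv d L m p.2 := by
  intro p hp
  by_contra hne
  refine hp ?_
  unfold cM
  refine Finset.sum_eq_zero fun j hj => if_neg ?_
  intro h
  have := Finset.mem_range.mp hj
  exact hne (lv_refine (by omega) hm h)

/-- Tail sums of rates. -/
noncomputable def tailA (d : ℕ) (b : ℕ → ℝ) (J j : ℕ) : ℝ :=
  ∑ i ∈ Finset.Ico j J, b (i + 1) * ((2 : ℝ) ^ (i + 1)) ^ d

theorem tailA_succ (b : ℕ → ℝ) {J j : ℕ} (h : j < J) :
    tailA d b J j = tailA d b J (j + 1) + b (j + 1) * ((2 : ℝ) ^ (j + 1)) ^ d := by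
  unfold tailA
  rw [Finset.sum_eq_sum_Ico_succ_bot h, add_comm]

theorem tailA_self (b : ℕ → ℝ) (J : ℕ) : tailA d b J J = 0 := by
  unfold tailA; simp

theorem tailA_ge (b : ℕ → ℝ) (hb : ∀ j, 0 < b j) {J j : ℕ} (h : j < J) :
    b (j + 1) * ((2 : ℝ) ^ (j + 1)) ^ d ≤ tailA d b J j := by
  unfold tailA
  refine Finset.single_le_sum (f := fun i => b (i + 1) * ((2 : ℝ) ^ (i + 1)) ^ d) ?_
    (Finset.mem_Ico.mpr ⟨le_refl _, h⟩)
  intro i _
  have := hb (i + 1)
  positivity

theorem tailA_pos (b : ℕ → ℝ) (hb : ∀ j, 0 < b j) {J j : ℕ} (h : j < J) : 0 < tailA d b J j := by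
  refine lt_of_lt_of_le ?_ (tailA_ge b hb h)
  have := hb (j + 1)
  positivity

theorem Xi_multi (b : ℕ → ℝ) (hb : ∀ j, 0 < b j) {J : ℕ} (hJ : 2 ^ J ≤ L) (m : ℕ) (hm : m < J) :
    Xi (Fin d → ZMod L) (cM d L b m) (tailA d b J m) ≤
      (∏ j ∈ Finset.range m, ((1 - Real.exp (-tailA d b J (j + 1)))⁻¹) ^ ((L / 2 ^ (j + 1)) ^ d)) *
        (1 + Real.exp (-tailA d b J 0)) ^ (L ^ d) := by
  induction m with
  | zero =>
    have h : cM d L b 0 = fun _ => 0 := by
      funext p; simp [cM]
    rw [h, Xi_zero_rates, Finset.range_zero, Finset.prod_empty, one_mul, card_torus]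
  | succ m ih =>
    have hmL : 2 ^ (m + 1) ≤ L := (Nat.pow_le_pow_right (by norm_num) (by omega)).trans hJ
    have ha := tailA_pos (d := d) b hb hm
    have h1 := Xi_step (β := lv d L (m + 1)) (c := cM d L b m)
      (cM_support b (by omega) hmL) (r := b (m + 1)) (s := ((2 : ℝ) ^ (m + 1)) ^ d)
      (a := tailA d b J (m + 1)) (hb _).le ha (fun k hk => card_block_ge hmL hk)
    rw [← cM_succ, ← tailA_succ b (by omega : m < J)] at h1
    refine h1.trans ?_
    have hea : Real.exp (-tailA d b J (m + 1)) < 1 := by rw [Real.exp_lt_one_iff]; linarith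
    have h1a : 0 < 1 - Real.exp (-tailA d b J (m + 1)) := by linarith
    have h1b : 1 ≤ (1 - Real.exp (-tailA d b J (m + 1)))⁻¹ := by
      rw [one_le_inv₀ h1a]
      have := Real.exp_pos (-tailA d b J (m + 1))
      linarith
    rw [Finset.prod_range_succ]
    calc _ ≤ ((1 - Real.exp (-tailA d b J (m + 1)))⁻¹) ^ ((L / 2 ^ (m + 1)) ^ d) *
          Xi (Fin d → ZMod L) (cM d L b m) (tailA d b J m) := by
          refine mul_le_mul_of_nonneg_right ?_ (Xi_nonneg _ _)
          exact pow_le_pow_right₀ h1b (card_image_lv_le _ hmL)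
      _ ≤ ((1 - Real.exp (-tailA d b J (m + 1)))⁻¹) ^ ((L / 2 ^ (m + 1)) ^ d) * _ :=
          mul_le_mul_of_nonneg_left (ih (by omega)) (by positivity)
      _ = _ := by ring

theorem expect_fixSets_multi (hd : 1 ≤ d) (hL : 2 ≤ L) {t : ℝ} (b : ℕ → ℝ) (hb : ∀ j, 0 < b j)
    (hbt : ∑ j ∈ Finset.range (Nat.log 2 L), b (j + 1) *
      (64 * d * 2 ^ d * ((2 : ℝ) ^ (j + 1)) ^ (d + 2)) ≤ t) :
    expect d L t fixSets ≤ ((L : ℝ) ^ d + 1) *
      ((∏ j ∈ Finset.range (Nat.log 2 L - 1),
        ((1 - Real.exp (-tailA d b (Nat.log 2 L) (j + 1)))⁻¹) ^ ((L / 2 ^ (j + 1)) ^ d)) *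
        (1 + Real.exp (-tailA d b (Nat.log 2 L) 0)) ^ (L ^ d)) := by
  obtain ⟨J, hJ⟩ : ∃ J, Nat.log 2 L = J + 1 := by
    have := Nat.log_pos (b := 2) (by norm_num) hL
    exact ⟨Nat.log 2 L - 1, by omega⟩
  rw [hJ] at hbt ⊢
  have hLJ : 2 ^ (J + 1) ≤ L := by rw [← hJ]; exact Nat.pow_log_le_self 2 (by omega)
  have hLJ2 : L < 2 ^ (J + 1 + 1) := by rw [← hJ]; exact Nat.lt_pow_succ_log_self (by norm_num) L
  have hq1 : L / 2 ^ (J + 1) = 1 := by
    refine Nat.div_eq_of_lt_le (by omega) ?_
    rw [pow_succ] at hLJ2; omega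
  rw [Nat.add_sub_cancel, expect_eq]
  have h1 : E (fun _ : (Fin d → ZMod L) × Fin d => t) (edgeSwap d L) fixSets ≤
      E (cM d L b (J + 1)) sw fixSets := by
    refine E_fixSets_mono _ _ edgeSwap_mul_self _ _ (fun p => Equiv.swap_mul_self _ _) ?_
    intro ell hell
    have hS : 0 ≤ ∑ e : (Fin d → ZMod L) × Fin d, ell (edgeSwap d L e) ^ 2 :=
      Finset.sum_nonneg fun _ _ => sq_nonneg _
    calc ∑ p, cM d L b (J + 1) p * ell (sw p) ^ 2
        = ∑ j ∈ Finset.range (J + 1), b (j + 1) *
          ∑ p : (Fin d → ZMod L) × (Fin d → ZMod L), (if lv d L (j + 1) p.1 = lv d L (j + 1) p.2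
            then ell (Equiv.swap p.1 p.2) ^ 2 else 0) := by
          simp only [cM, Finset.sum_mul, Finset.mul_sum]
          rw [Finset.sum_comm]
          refine Finset.sum_congr rfl fun j _ => Finset.sum_congr rfl fun p _ => ?_
          split_ifs
          · rfl
          · simp
      _ ≤ ∑ j ∈ Finset.range (J + 1), b (j + 1) *
          (64 * d * 2 ^ d * ((2 : ℝ) ^ (j + 1)) ^ (d + 2) *
            ∑ e : (Fin d → ZMod L) × Fin d, ell (edgeSwap d L e) ^ 2) := by
          refine Finset.sum_le_sum fun j hj => mul_le_mul_of_nonneg_left ?_ (hb _).le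
          refine box_sum_lv hell hd ?_
          have := Finset.mem_range.mp hj
          exact (Nat.pow_le_pow_right (by norm_num) (by omega)).trans hLJ
      _ = (∑ j ∈ Finset.range (J + 1), b (j + 1) *
          (64 * d * 2 ^ d * ((2 : ℝ) ^ (j + 1)) ^ (d + 2))) *
            ∑ e : (Fin d → ZMod L) × Fin d, ell (edgeSwap d L e) ^ 2 := by
          rw [Finset.sum_mul]
          exact Finset.sum_congr rfl fun j _ => by ring
      _ ≤ t * ∑ e : (Fin d → ZMod L) × Fin d, ell (edgeSwap d L e) ^ 2 :=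
          mul_le_mul_of_nonneg_right hbt hS
      _ = _ := by rw [Finset.mul_sum]
  refine h1.trans ?_
  -- the top level
  have h2 : cM d L b (J + 1) = fun p => cM d L b J p + b (J + 1) := by
    rw [cM_succ]
    funext p
    rw [if_pos]
    funext i
    unfold lv bn
    rw [hq1]; simp
  have h3 : E (cM d L b (J + 1)) sw fixSets = Xi (Fin d → ZMod L) (cM d L b (J + 1)) 0 := by
    unfold Xi
    have : (gw 0 : Equiv.Perm (Fin d → ZMod L) → ℝ) = fixSets := by
      funext σ; exact gw_zero σ
    rw [this]; rfl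
  rw [h3, h2]
  refine (Xi_zero_add_le _ (hb _).le).trans ?_
  rw [card_torus]
  push_cast
  refine mul_le_mul_of_nonneg_left ?_ (by positivity)
  refine le_trans (Xi_antitone _ ?_) (Xi_multi b hb hLJ J (Nat.lt_succ_self J))
  rw [tailA_succ b (Nat.lt_succ_self J), tailA_self, zero_add]
  refine mul_le_mul_of_nonneg_left ?_ (hb _).le
  refine pow_le_pow_left₀ (by positivity) ?_ d
  exact_mod_cast hLJ

end Pool.Agent.Stirring
end

section

/-! Sharp upper bound for the density of cycles. -/

open Finset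

set_option linter.unusedSectionVars false

namespace Pool.Agent.Stirring

/-- Distance of natural numbers. -/
def nd (j m : ℕ) : ℕ := (j - m) + (m - j)

theorem sum_pow_nd_le {ρ : ℝ} (h0 : 0 ≤ ρ) (h1 : ρ < 1) (N m : ℕ) :
    ∑ j ∈ Finset.range N, ρ ^ nd j m ≤ 2 / (1 - ρ) := by
  have hg : ∀ n : ℕ, ∑ j ∈ Finset.range n, ρ ^ j ≤ 1 / (1 - ρ) := by
    intro n
    rw [le_div_iff₀ (by linarith), geom_sum_mul_neg]
    have := pow_nonneg h0 n
    linarith
  calc ∑ j ∈ Finset.range N, ρ ^ nd j m ≤ ∑ j ∈ Finset.range (m + N), ρ ^ nd j m := by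
        refine Finset.sum_le_sum_of_subset_of_nonneg ?_ fun i _ _ => pow_nonneg h0 _
        intro j hj
        rw [Finset.mem_range] at *
        omega
    _ = ∑ j ∈ Finset.range m, ρ ^ nd j m + ∑ j ∈ Finset.range N, ρ ^ nd (m + j) m :=
        Finset.sum_range_add _ _ _
    _ ≤ 1 / (1 - ρ) + 1 / (1 - ρ) := by
        refine add_le_add ?_ ?_
        · rw [← Finset.sum_range_reflect]
          refine le_trans (Finset.sum_le_sum fun j hj => ?_) (hg m)
          have hj' := Finset.mem_range.mp hj
          have : nd (m - 1 - j) m = j + 1 := by unfold nd; omega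
          rw [this, pow_succ]
          have := pow_nonneg h0 j
          nlinarith
        · refine le_trans (le_of_eq (Finset.sum_congr rfl fun j _ => ?_)) (hg N)
          have : nd (m + j) m = j := by unfold nd; omega
          rw [this]
    _ = 2 / (1 - ρ) := by ring

theorem sum_pow_nd_shift_le {ρ : ℝ} (h0 : 0 ≤ ρ) (h1 : ρ < 1) (N m k : ℕ) :
    ∑ j ∈ Finset.range N, ρ ^ nd (j + k) m ≤ 2 / (1 - ρ) := by
  refine le_trans ?_ (sum_pow_nd_le h0 h1 (k + N) m)
  rw [Finset.sum_range_add]
  have h2 : ∑ j ∈ Finset.range N, ρ ^ nd (j + k) m = ∑ j ∈ Finset.range N, ρ ^ nd (k + j) m :=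
    Finset.sum_congr rfl fun j _ => by rw [add_comm]
  rw [h2]
  have : 0 ≤ ∑ x ∈ Finset.range k, ρ ^ nd x m := Finset.sum_nonneg fun _ _ => pow_nonneg h0 _
  linarith

/-- The comparison constant. -/
noncomputable def kap (d : ℕ) : ℝ := 1 / (256 * d * 2 ^ d)

theorem kap_pos {d : ℕ} (hd : 1 ≤ d) : 0 < kap d := by
  unfold kap
  have : (0 : ℝ) < d := by exact_mod_cast hd
  positivity

theorem kap_le_one {d : ℕ} (hd : 1 ≤ d) : kap d ≤ 1 := by
  unfold kap
  have h1 : (1 : ℝ) ≤ d := by exact_mod_cast hd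
  have h2 : (1 : ℝ) ≤ 2 ^ d := one_le_pow₀ (by norm_num)
  rw [div_le_one (by positivity)]
  nlinarith

/-- The entropy function. -/
noncomputable def ent (A : ℝ) : ℝ := Real.log ((1 - Real.exp (-A))⁻¹)

theorem exp_neg_le_ent {A : ℝ} (hA : 0 < A) : Real.exp (-A) ≤ ent A := by
  have hea : Real.exp (-A) < 1 := by rw [Real.exp_lt_one_iff]; linarith
  unfold ent
  rw [Real.log_inv]
  have := Real.log_le_sub_one_of_pos (show 0 < 1 - Real.exp (-A) by linarith)
  linarith

theorem ent_le_pow {A : ℝ} (hA : 0 < A) (m : ℕ) (hm : 1 ≤ m) :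
    ent A ≤ (m.factorial : ℝ) / A ^ m := by
  have hea : Real.exp (-A) < 1 := by rw [Real.exp_lt_one_iff]; linarith
  have h1a : 0 < 1 - Real.exp (-A) := by linarith
  unfold ent
  have h1 := Real.log_le_sub_one_of_pos (show 0 < (1 - Real.exp (-A))⁻¹ by positivity)
  refine h1.trans ?_
  have h2 : (1 - Real.exp (-A))⁻¹ - 1 = 1 / (Real.exp A - 1) := by
    rw [Real.exp_neg] at h1a ⊢
    have h3 := Real.exp_pos A
    have h4 : 0 < Real.exp A - 1 := by
      have := Real.one_lt_exp_iff.mpr hA
      linarith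
    have h5 : 1 - (Real.exp A)⁻¹ = (Real.exp A - 1) / Real.exp A := by field_simp
    rw [h5, inv_div]
    field_simp
    ring
  rw [h2]
  have h3 : A ^ m / (m.factorial : ℝ) ≤ Real.exp A - 1 := by
    have h4 := Real.sum_le_exp_of_nonneg hA.le (m + 1)
    rw [Finset.sum_range_succ] at h4
    have h5 : 1 ≤ ∑ i ∈ Finset.range m, A ^ i / (i.factorial : ℝ) := by
      have := Finset.single_le_sum (f := fun i => A ^ i / (i.factorial : ℝ))
        (fun i _ => by positivity) (Finset.mem_range.mpr hm : 0 ∈ Finset.range m)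
      simpa using this
    linarith
  have h6 : 0 < A ^ m / (m.factorial : ℝ) := by positivity
  calc 1 / (Real.exp A - 1) ≤ 1 / (A ^ m / (m.factorial : ℝ)) :=
        one_div_le_one_div_of_le h6 h3
    _ = _ := by rw [one_div_div]

theorem ent_le_log {A : ℝ} (hA : 0 < A) : ent A ≤ Real.log (1 + 1 / A) := by
  have hea : Real.exp (-A) < 1 := by rw [Real.exp_lt_one_iff]; linarith
  have h1a : 0 < 1 - Real.exp (-A) := by linarith
  unfold ent
  refine Real.log_le_log (by positivity) ?_
  have h1 : A + 1 ≤ Real.exp A := Real.add_one_le_exp A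
  have h2 : Real.exp (-A) ≤ (A + 1)⁻¹ := by
    rw [Real.exp_neg]
    exact inv_anti₀ (by linarith) h1
  have h3 : A / (A + 1) ≤ 1 - Real.exp (-A) := by
    have : A / (A + 1) = 1 - (A + 1)⁻¹ := by field_simp; ring
    rw [this]; linarith
  calc (1 - Real.exp (-A))⁻¹ ≤ (A / (A + 1))⁻¹ := inv_anti₀ (by positivity) h3
    _ = 1 + 1 / A := by rw [inv_div]; field_simp

theorem ent_antitone {A B : ℝ} (hA : 0 < A) (h : A ≤ B) : ent B ≤ ent A := by
  have hea : Real.exp (-A) < 1 := by rw [Real.exp_lt_one_iff]; linarith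
  have heb : Real.exp (-B) < 1 := by rw [Real.exp_lt_one_iff]; linarith
  unfold ent
  refine Real.log_le_log (inv_pos.mpr (by linarith)) ?_
  refine inv_anti₀ (by linarith) ?_
  have := Real.exp_le_exp.mpr (show -B ≤ -A by linarith)
  linarith

/-- The constant in the scale bound. -/
noncomputable def kk (d : ℕ) : ℝ :=
  2 ^ d * (((d + 1).factorial : ℝ) / kap d ^ (d + 1) + 2 * (Real.log (2 / kap d) + 3))

theorem log_kap_nonneg {d : ℕ} (hd : 1 ≤ d) : 0 ≤ Real.log (2 / kap d) := by
  refine Real.log_nonneg ?_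
  rw [le_div_iff₀ (kap_pos hd)]
  have := kap_le_one hd
  linarith

/-- Contribution of one scale. -/
theorem scale_bound {d : ℕ} (hd : 1 ≤ d) (j J0 : ℕ) {A : ℝ}
    (hA : kap d * (4 : ℝ) ^ J0 / 4 ^ (j + 1) * (1 / 2) ^ nd (j + 1) J0 ≤ A) :
    ent A / ((2 : ℝ) ^ j) ^ d ≤ kk d / ((2 : ℝ) ^ J0) ^ d * (3 / 4) ^ nd (j + 1) J0 := by
  have hk := kap_pos hd
  have hlog := log_kap_nonneg hd
  set D := nd (j + 1) J0 with hD
  have hpos : 0 < kap d * (4 : ℝ) ^ J0 / 4 ^ (j + 1) * (1 / 2) ^ D := by positivity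
  have hA0 : 0 < A := lt_of_lt_of_le hpos hA
  have h34 : (0 : ℝ) < (3 / 4) ^ D := by positivity
  have hF : (0 : ℝ) ≤ ((d + 1).factorial : ℝ) / kap d ^ (d + 1) := by positivity
  by_cases hj : j + 1 ≤ J0
  · obtain ⟨m, rfl⟩ := Nat.exists_eq_add_of_le hj
    have hDm : D = m := by rw [hD]; unfold nd; omega
    rw [hDm] at hA h34 ⊢
    have h1 : kap d * 2 ^ m ≤ A := by
      refine le_trans (le_of_eq ?_) hA
      rw [pow_add]
      have : (4 : ℝ) ^ m * (1 / 2) ^ m = 2 ^ m := by rw [← mul_pow]; norm_num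
      field_simp
      exact this.symm
    have h2 : ent A ≤ ((d + 1).factorial : ℝ) / (kap d * 2 ^ m) ^ (d + 1) :=
      (ent_antitone (by positivity) h1).trans (ent_le_pow (by positivity) _ (by omega))
    calc ent A / ((2 : ℝ) ^ j) ^ d
        ≤ ((d + 1).factorial : ℝ) / (kap d * 2 ^ m) ^ (d + 1) / ((2 : ℝ) ^ j) ^ d :=
          div_le_div_of_nonneg_right h2 (by positivity)
      _ = 2 ^ d * (((d + 1).factorial : ℝ) / kap d ^ (d + 1)) / ((2 : ℝ) ^ (j + 1 + m)) ^ d *
          (1 / 2) ^ m := by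
          rw [mul_pow, pow_add (2 : ℝ) (j + 1) m, pow_succ (2 : ℝ) j, mul_pow, mul_pow,
            pow_succ ((2 : ℝ) ^ m) d, one_div, inv_pow]
          field_simp
      _ ≤ kk d / ((2 : ℝ) ^ (j + 1 + m)) ^ d * (3 / 4) ^ m := by
          refine mul_le_mul ?_ (pow_le_pow_left₀ (by norm_num) (by norm_num) m) (by positivity)
            (by unfold kk; positivity)
          refine div_le_div_of_nonneg_right ?_ (by positivity)
          unfold kk
          refine mul_le_mul_of_nonneg_left ?_ (by positivity)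
          linarith
  · push Not at hj
    obtain ⟨m, hm⟩ := Nat.exists_eq_add_of_lt hj
    have hjm : j = J0 + m := by omega
    have hDm : D = m + 1 := by rw [hD, hjm]; unfold nd; omega
    rw [hDm] at hA h34 ⊢
    have h1 : kap d * (1 / 8) ^ (m + 1) ≤ A := by
      refine le_trans (le_of_eq ?_) hA
      rw [hjm, show J0 + m + 1 = J0 + (m + 1) by ring, pow_add (4 : ℝ) J0 (m + 1)]
      have : (1 / 8 : ℝ) ^ (m + 1) = (1 / 4) ^ (m + 1) * (1 / 2) ^ (m + 1) := by
        rw [← mul_pow]; norm_num
      rw [this, one_div, inv_pow]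
      field_simp
    have h8 : (0 : ℝ) < (1 / 8) ^ (m + 1) := by positivity
    have h2 : ent A ≤ (Real.log (2 / kap d) + 3) * ((m : ℝ) + 2) := by
      refine (ent_antitone (by positivity) h1).trans ((ent_le_log (by positivity)).trans ?_)
      have h3 : 1 + 1 / (kap d * (1 / 8) ^ (m + 1)) ≤ 2 / kap d * 8 ^ (m + 1) := by
        have h4 : (1 / 8 : ℝ) ^ (m + 1) = (8 ^ (m + 1))⁻¹ := by rw [one_div, inv_pow]
        rw [h4]
        have h5 : 1 / (kap d * ((8 : ℝ) ^ (m + 1))⁻¹) = 1 / kap d * 8 ^ (m + 1) := by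
          field_simp
        rw [h5]
        have h6 : 1 ≤ 1 / kap d * (8 : ℝ) ^ (m + 1) := by
          have h7 : 1 ≤ 1 / kap d := by
            rw [le_div_iff₀ hk]; linarith [kap_le_one hd]
          have h8' : (1 : ℝ) ≤ 8 ^ (m + 1) := one_le_pow₀ (by norm_num)
          nlinarith
        have h9 : 2 / kap d * (8 : ℝ) ^ (m + 1) = 2 * (1 / kap d * 8 ^ (m + 1)) := by ring
        rw [h9]; linarith
      refine (Real.log_le_log (by positivity) h3).trans ?_
      rw [Real.log_mul (by positivity) (by positivity), Real.log_pow]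
      have hl8 : Real.log 8 ≤ 3 := by
        have : Real.log 8 = 3 * Real.log 2 := by
          rw [show (8 : ℝ) = 2 ^ 3 by norm_num, Real.log_pow]; norm_num
        rw [this]
        have := Real.log_two_lt_d9
        linarith
      push_cast
      have hm0 : (0 : ℝ) ≤ m := Nat.cast_nonneg m
      nlinarith
    have h10 : ((m : ℝ) + 2) * (1 / 2) ^ (m + 1) ≤ 2 * (3 / 4) ^ (m + 1) := by
      have h11 : ((m : ℝ) + 2) ≤ 2 * (3 / 2) ^ (m + 1) := by
        have h12 := one_add_mul_le_pow (show (-2 : ℝ) ≤ 1 / 2 by norm_num) (m + 1)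
        push_cast at h12
        have h13 : (1 + 1 / 2 : ℝ) = 3 / 2 := by norm_num
        rw [h13] at h12
        linarith
      have h14 : (3 / 4 : ℝ) ^ (m + 1) = (3 / 2) ^ (m + 1) * (1 / 2) ^ (m + 1) := by
        rw [← mul_pow]; norm_num
      rw [h14]
      have : (0 : ℝ) < (1 / 2) ^ (m + 1) := by positivity
      nlinarith
    have h15 : (1 : ℝ) / ((2 : ℝ) ^ j) ^ d ≤ 2 ^ d / ((2 : ℝ) ^ J0) ^ d * (1 / 2) ^ (m + 1) := by
      rw [hjm]
      have h16 : ((2 : ℝ) ^ (J0 + m)) ^ d * 2 ^ d = ((2 : ℝ) ^ J0) ^ d * (2 ^ (m + 1)) ^ d := by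
        rw [← mul_pow, ← mul_pow, ← pow_succ, ← pow_add, add_assoc]
      have h17 : (2 : ℝ) ^ (m + 1) ≤ (2 ^ (m + 1)) ^ d := by
        have : (1 : ℝ) ≤ 2 ^ (m + 1) := one_le_pow₀ (by norm_num)
        calc (2 : ℝ) ^ (m + 1) = (2 ^ (m + 1)) ^ 1 := (pow_one _).symm
          _ ≤ (2 ^ (m + 1)) ^ d := pow_le_pow_right₀ this hd
      have h18 : (1 / 2 : ℝ) ^ (m + 1) = 1 / 2 ^ (m + 1) := by rw [one_div, inv_pow, one_div]
      rw [h18, div_mul_div_comm, mul_one, div_le_div_iff₀ (by positivity) (by positivity), one_mul]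
      calc ((2 : ℝ) ^ J0) ^ d * 2 ^ (m + 1) ≤ ((2 : ℝ) ^ J0) ^ d * (2 ^ (m + 1)) ^ d :=
            mul_le_mul_of_nonneg_left h17 (by positivity)
        _ = 2 ^ d * ((2 : ℝ) ^ (J0 + m)) ^ d := by rw [← h16]; ring
    calc ent A / ((2 : ℝ) ^ j) ^ d = ent A * (1 / ((2 : ℝ) ^ j) ^ d) := by ring
      _ ≤ (Real.log (2 / kap d) + 3) * ((m : ℝ) + 2) *
          (2 ^ d / ((2 : ℝ) ^ J0) ^ d * (1 / 2) ^ (m + 1)) := by
          refine mul_le_mul h2 h15 (by positivity) (by positivity)
      _ = (Real.log (2 / kap d) + 3) * 2 ^ d / ((2 : ℝ) ^ J0) ^ d *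
          (((m : ℝ) + 2) * (1 / 2) ^ (m + 1)) := by ring
      _ ≤ (Real.log (2 / kap d) + 3) * 2 ^ d / ((2 : ℝ) ^ J0) ^ d * (2 * (3 / 4) ^ (m + 1)) :=
          mul_le_mul_of_nonneg_left h10 (by positivity)
      _ = 2 ^ d * (2 * (Real.log (2 / kap d) + 3)) / ((2 : ℝ) ^ J0) ^ d * (3 / 4) ^ (m + 1) := by
          ring
      _ ≤ _ := by
          refine mul_le_mul_of_nonneg_right ?_ h34.le
          refine div_le_div_of_nonneg_right ?_ (by positivity)
          unfold kk
          refine mul_le_mul_of_nonneg_left ?_ (by positivity)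
          linarith

variable {d L : ℕ} [NeZero L]

/-- The exponential moment bound at a dyadic time scale. -/
theorem log_expect_fixSets_le_dyadic (hd : 1 ≤ d) (hL : 2 ≤ L) {t : ℝ} {J0 : ℕ}
    (ht : (4 : ℝ) ^ J0 ≤ t) :
    Real.log (expect d L t fixSets) ≤ Real.log ((L : ℝ) ^ d + 1) +
      9 * kk d / ((2 : ℝ) ^ J0) ^ d * (L : ℝ) ^ d := by
  have hk := kap_pos hd
  have ht0 : 0 < t := lt_of_lt_of_le (by positivity) ht
  have hd' : (0 : ℝ) < d := by exact_mod_cast hd
  set b : ℕ → ℝ := fun j => t * (1 / 2) ^ nd j J0 / 4 / (64 * d * 2 ^ d * ((2 : ℝ) ^ j) ^ (d + 2))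
    with hb
  have hbpos : ∀ j, 0 < b j := fun j => by rw [hb]; positivity
  set J := Nat.log 2 L with hJ
  have hJ1 : 1 ≤ J := Nat.log_pos (by norm_num) hL
  have hbt : ∑ j ∈ Finset.range J, b (j + 1) *
      (64 * d * 2 ^ d * ((2 : ℝ) ^ (j + 1)) ^ (d + 2)) ≤ t := by
    have h1 : ∀ j ∈ Finset.range J, b (j + 1) * (64 * d * 2 ^ d * ((2 : ℝ) ^ (j + 1)) ^ (d + 2)) =
        t / 4 * (1 / 2) ^ nd (j + 1) J0 := by
      intro j _
      simp only [hb]
      field_simp
    rw [Finset.sum_congr rfl h1, ← Finset.mul_sum]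
    have h2 := sum_pow_nd_shift_le (ρ := 1 / 2) (by norm_num) (by norm_num) J J0 1
    have h3 : (2 : ℝ) / (1 - 1 / 2) = 4 := by norm_num
    rw [h3] at h2
    calc t / 4 * ∑ j ∈ Finset.range J, (1 / 2 : ℝ) ^ nd (j + 1) J0 ≤ t / 4 * 4 :=
          mul_le_mul_of_nonneg_left h2 (by positivity)
      _ = t := by ring
  have hA : ∀ j < J, kap d * (4 : ℝ) ^ J0 / 4 ^ (j + 1) * (1 / 2) ^ nd (j + 1) J0 ≤
      tailA d b J j := by
    intro j hj
    refine le_trans ?_ (tailA_ge b hbpos hj)
    have h1 : b (j + 1) * ((2 : ℝ) ^ (j + 1)) ^ d =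
        kap d * t / 4 ^ (j + 1) * (1 / 2) ^ nd (j + 1) J0 := by
      simp only [hb, kap]
      have h4 : (4 : ℝ) ^ (j + 1) = (2 ^ (j + 1)) ^ 2 := by
        rw [← pow_mul, mul_comm, pow_mul]; norm_num
      rw [h4, pow_add ((2 : ℝ) ^ (j + 1)) d 2]
      field_simp
      ring
    rw [h1]
    refine mul_le_mul_of_nonneg_right ?_ (by positivity)
    refine div_le_div_of_nonneg_right ?_ (by positivity)
    exact mul_le_mul_of_nonneg_left ht hk.le
  have hApos : ∀ j < J, 0 < tailA d b J j := fun j hj => tailA_pos b hbpos hj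
  have h1 := expect_fixSets_multi (L := L) hd hL b hbpos hbt
  rw [← hJ] at h1
  have hE : 0 < expect d L t fixSets := by
    have h2 := E_mono (c := fun _ : (Fin d → ZMod L) × Fin d => t) (fun _ => ht0.le)
      (edgeSwap d L) (f := fun _ => 1) (h := fixSets) (fun σ => by
        rw [fixSets_eq_two_pow]; exact one_le_pow₀ (by norm_num))
    rw [E_const] at h2
    rw [expect_eq]
    linarith
  refine (Real.log_le_log hE h1).trans ?_
  have hinv : ∀ j < J, 0 < (1 - Real.exp (-tailA d b J j))⁻¹ := by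
    intro j hj
    have := hApos j hj
    have hea : Real.exp (-tailA d b J j) < 1 := by rw [Real.exp_lt_one_iff]; linarith
    exact inv_pos.mpr (by linarith)
  have hprodpos : ∀ j ∈ Finset.range (J - 1),
      ((1 - Real.exp (-tailA d b J (j + 1)))⁻¹) ^ ((L / 2 ^ (j + 1)) ^ d) ≠ 0 := by
    intro j hj
    have := Finset.mem_range.mp hj
    exact (pow_pos (hinv (j + 1) (by omega)) _).ne'
  have hexp := Real.exp_pos (-tailA d b J 0)
  rw [Real.log_mul (by positivity) (mul_ne_zero (Finset.prod_ne_zero_iff.mpr hprodpos)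
    (by positivity)), Real.log_mul (Finset.prod_ne_zero_iff.mpr hprodpos) (by positivity),
    Real.log_prod hprodpos, Real.log_pow]
  refine add_le_add_right ?_ _
  have hLd : (0 : ℝ) ≤ (L : ℝ) ^ d := by positivity
  have hkk : 0 < kk d := by
    unfold kk
    have := log_kap_nonneg hd
    positivity
  -- each scale
  have hterm : ∀ j ∈ Finset.range (J - 1),
      Real.log (((1 - Real.exp (-tailA d b J (j + 1)))⁻¹) ^ ((L / 2 ^ (j + 1)) ^ d)) ≤
      (L : ℝ) ^ d * (kk d / ((2 : ℝ) ^ J0) ^ d) * (3 / 4) ^ nd (j + 2) J0 := by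
    intro j hj
    have hjJ : j + 1 < J := by have := Finset.mem_range.mp hj; omega
    have hs := scale_bound hd (j + 1) J0 (hA (j + 1) hjJ)
    rw [Real.log_pow]
    have hent : 0 ≤ ent (tailA d b J (j + 1)) :=
      (Real.exp_pos _).le.trans (exp_neg_le_ent (hApos _ hjJ))
    have hq : (((L / 2 ^ (j + 1)) ^ d : ℕ) : ℝ) ≤ (L : ℝ) ^ d / ((2 : ℝ) ^ (j + 1)) ^ d := by
      push_cast
      rw [← div_pow]
      refine pow_le_pow_left₀ (Nat.cast_nonneg _) ?_ d
      have := @Nat.cast_div_le ℝ _ _ _ L (2 ^ (j + 1))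
      push_cast at this
      exact this
    calc (((L / 2 ^ (j + 1)) ^ d : ℕ) : ℝ) * Real.log ((1 - Real.exp (-tailA d b J (j + 1)))⁻¹)
        ≤ (L : ℝ) ^ d / ((2 : ℝ) ^ (j + 1)) ^ d * ent (tailA d b J (j + 1)) :=
          mul_le_mul_of_nonneg_right hq hent
      _ = (L : ℝ) ^ d * (ent (tailA d b J (j + 1)) / ((2 : ℝ) ^ (j + 1)) ^ d) := by ring
      _ ≤ (L : ℝ) ^ d * (kk d / ((2 : ℝ) ^ J0) ^ d * (3 / 4) ^ nd (j + 1 + 1) J0) :=
          mul_le_mul_of_nonneg_left hs hLd
      _ = _ := by ring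
  have hsum := Finset.sum_le_sum hterm
  rw [← Finset.mul_sum] at hsum
  have hgeo := sum_pow_nd_shift_le (ρ := 3 / 4) (by norm_num) (by norm_num) (J - 1) J0 2
  have h8 : (2 : ℝ) / (1 - 3 / 4) = 8 := by norm_num
  rw [h8] at hgeo
  have hlast : ((L ^ d : ℕ) : ℝ) * Real.log (1 + Real.exp (-tailA d b J 0)) ≤
      (L : ℝ) ^ d * (kk d / ((2 : ℝ) ^ J0) ^ d) := by
    push_cast
    refine mul_le_mul_of_nonneg_left ?_ hLd
    have h2 := Real.log_le_sub_one_of_pos (show 0 < 1 + Real.exp (-tailA d b J 0) by positivity)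
    have h3 := exp_neg_le_ent (hApos 0 (by omega))
    have h4 := scale_bound hd 0 J0 (hA 0 (by omega))
    rw [pow_zero, one_pow, div_one] at h4
    have h5 : (3 / 4 : ℝ) ^ nd (0 + 1) J0 ≤ 1 := pow_le_one₀ (by norm_num) (by norm_num)
    have h6 : kk d / ((2 : ℝ) ^ J0) ^ d * (3 / 4) ^ nd (0 + 1) J0 ≤ kk d / ((2 : ℝ) ^ J0) ^ d * 1 :=
      mul_le_mul_of_nonneg_left h5 (by positivity)
    linarith
  have hfin : (L : ℝ) ^ d * (kk d / ((2 : ℝ) ^ J0) ^ d) *
      ∑ j ∈ Finset.range (J - 1), (3 / 4 : ℝ) ^ nd (j + 2) J0 ≤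
      (L : ℝ) ^ d * (kk d / ((2 : ℝ) ^ J0) ^ d) * 8 :=
    mul_le_mul_of_nonneg_left hgeo (by positivity)
  calc _ ≤ (L : ℝ) ^ d * (kk d / ((2 : ℝ) ^ J0) ^ d) * 8 +
        (L : ℝ) ^ d * (kk d / ((2 : ℝ) ^ J0) ^ d) := add_le_add (hsum.trans hfin) hlast
    _ = _ := by ring

/-- The constant of the sharp bound. -/
noncomputable def cs (d : ℕ) : ℝ := 9 * 2 ^ d * kk d

theorem kk_pos {d : ℕ} (hd : 1 ≤ d) : 0 < kk d := by
  unfold kk
  have := log_kap_nonneg hd
  have := kap_pos hd
  positivity

theorem cs_pos {d : ℕ} (hd : 1 ≤ d) : 0 < cs d := by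
  unfold cs
  have := kk_pos hd
  positivity

/-- Exponential moment of the number of cycles. -/
theorem log_expect_fixSets_le (hd : 1 ≤ d) (hL : 2 ≤ L) {t : ℝ} (ht : 1 ≤ t) :
    Real.log (expect d L t fixSets) ≤ Real.log ((L : ℝ) ^ d + 1) +
      cs d * t ^ (-((d : ℝ) / 2)) * (L : ℝ) ^ d := by
  set J0 := Nat.log 4 ⌊t⌋₊ with hJ0
  have hft : 1 ≤ ⌊t⌋₊ := Nat.one_le_floor_iff _ |>.mpr ht
  have h1 : (4 : ℝ) ^ J0 ≤ t := by
    have h2 : 4 ^ J0 ≤ ⌊t⌋₊ := Nat.pow_log_le_self 4 (by omega)
    have h3 : ((4 ^ J0 : ℕ) : ℝ) ≤ (⌊t⌋₊ : ℝ) := by exact_mod_cast h2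
    push_cast at h3
    exact h3.trans (Nat.floor_le (by linarith))
  have h2 : t < (4 : ℝ) ^ (J0 + 1) := by
    have h3 : ⌊t⌋₊ < 4 ^ (J0 + 1) := Nat.lt_pow_succ_log_self (by norm_num) _
    have h4 : (⌊t⌋₊ : ℝ) + 1 ≤ ((4 ^ (J0 + 1) : ℕ) : ℝ) := by exact_mod_cast h3
    push_cast at h4
    exact (Nat.lt_floor_add_one t).trans_le h4
  have h3 := log_expect_fixSets_le_dyadic (L := L) hd hL h1
  refine h3.trans (add_le_add_right (mul_le_mul_of_nonneg_right ?_ (by positivity)) _)
  have ht0 : 0 < t := by linarith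
  have h4 : t ^ ((d : ℝ) / 2) ≤ ((2 : ℝ) ^ (J0 + 1)) ^ d := by
    have h5 : ((2 : ℝ) ^ (J0 + 1)) ^ d = ((4 : ℝ) ^ (J0 + 1)) ^ ((d : ℝ) / 2) := by
      rw [show (4 : ℝ) = 2 ^ 2 by norm_num, ← pow_mul, ← pow_mul, ← Real.rpow_natCast,
        ← Real.rpow_natCast, ← Real.rpow_mul (by norm_num)]
      congr 1
      push_cast
      ring
    rw [h5]
    exact Real.rpow_le_rpow ht0.le h2.le (by positivity)
  have hkk := kk_pos hd
  rw [Real.rpow_neg ht0.le]
  have h6 : 0 < t ^ ((d : ℝ) / 2) := Real.rpow_pos_of_pos ht0 _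
  calc 9 * kk d / ((2 : ℝ) ^ J0) ^ d = 9 * 2 ^ d * kk d * (((2 : ℝ) ^ (J0 + 1)) ^ d)⁻¹ := by
        rw [pow_succ (2 : ℝ) J0, mul_pow]
        field_simp
    _ ≤ 9 * 2 ^ d * kk d * (t ^ ((d : ℝ) / 2))⁻¹ :=
        mul_le_mul_of_nonneg_left (inv_anti₀ h6 h4) (by positivity)
    _ = _ := rfl

/-- Upper bound for the expected number of cycles. -/
theorem expect_numCycles_sharp (hd : 1 ≤ d) (hL : 2 ≤ L) {t : ℝ} (ht : 1 ≤ t) :
    expect d L t (fun σ => (numCycles σ : ℝ)) * Real.log 2 ≤ Real.log ((L : ℝ) ^ d + 1) +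
      cs d * t ^ (-((d : ℝ) / 2)) * (L : ℝ) ^ d := by
  have ht0 : 0 ≤ t := by linarith
  have h2 := two_rpow_E_le (c := fun _ : (Fin d → ZMod L) × Fin d => t) (fun _ => ht0)
    (edgeSwap d L) (fun σ => (numCycles σ : ℝ))
  have h3 : (fun σ : Equiv.Perm (Fin d → ZMod L) => (2 : ℝ) ^ (numCycles σ : ℝ)) = fixSets := by
    funext σ; rw [fixSets_eq_two_pow, Real.rpow_natCast]
  rw [h3, ← expect_eq, ← expect_eq] at h2
  have h5 := Real.log_le_log (by positivity) h2
  rw [Real.log_rpow (by norm_num)] at h5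
  exact h5.trans (log_expect_fixSets_le hd hL ht)

end Pool.Agent.Stirring
end

section

/-! Symmetries of the stirring process. -/

open Finset

set_option linter.unusedSectionVars false

namespace Pool.Agent.Stirring

section General

variable {α : Type*} [Fintype α] {G : Type*} [Group G] [Fintype G] [DecidableEq G]

theorem wordSum_equiv (c : α → ℝ) (F : List α → ℝ) (π : α ≃ α) (n : ℕ) :
    wordSum c F n = wordSum (fun a => c (π a)) (fun l => F (l.map π)) n := by
  unfold wordSum
  rw [← (Equiv.arrowCongr (Equiv.refl (Fin n)) π).sum_comp]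
  refine Finset.sum_congr rfl fun w _ => ?_
  simp [Equiv.arrowCongr, List.map_ofFn, Function.comp_def]

theorem prod_conj_map (g : α → G) (τ : G) (l : List α) :
    (l.map fun a => τ * g a * τ⁻¹).prod = τ * (l.map g).prod * τ⁻¹ := by
  induction l with
  | nil => simp
  | cons a l ih =>
    rw [List.map_cons, List.prod_cons, ih, List.map_cons, List.prod_cons]
    group

theorem E_conj (c : α → ℝ) (g : α → G) (π : α ≃ α) (τ : G) (hc : ∀ a, c (π a) = c a)
    (hg : ∀ a, g (π a) = τ * g a * τ⁻¹) (f : G → ℝ) :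
    E c g f = E c g (fun σ => f (τ * σ * τ⁻¹)) := by
  unfold E Z
  congr 1
  refine tsum_congr fun n => ?_
  rw [wordSum_equiv c _ π]
  have h1 : (fun a => c (π a)) = c := funext hc
  rw [h1]
  congr 2
  funext l
  rw [List.map_map]
  have h2 : (g ∘ π) = fun a => τ * g a * τ⁻¹ := funext hg
  rw [h2, prod_conj_map]

end General

section Torus

variable {d L : ℕ} [NeZero L]

/-- Translation of the torus. -/
def trans (d L : ℕ) (a : Fin d → ZMod L) : Equiv.Perm (Fin d → ZMod L) := Equiv.addRight a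

/-- Translation of edges. -/
def transE (d L : ℕ) (a : Fin d → ZMod L) :
    ((Fin d → ZMod L) × Fin d) ≃ ((Fin d → ZMod L) × Fin d) :=
  Equiv.prodCongr (Equiv.addRight a) (Equiv.refl _)

theorem edgeSwap_transE (a : Fin d → ZMod L) (e : (Fin d → ZMod L) × Fin d) :
    edgeSwap d L (transE d L a e) = trans d L a * edgeSwap d L e * (trans d L a)⁻¹ := by
  unfold edgeSwap
  rw [← Equiv.swap_apply_apply]
  simp only [transE, trans, Equiv.prodCongr_apply, Prod.map, Equiv.coe_addRight, Equiv.refl_apply]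
  rw [add_right_comm]

theorem card_cyc_conj {V : Type*} [Fintype V] [DecidableEq V] (σ τ : Equiv.Perm V) (x : V) :
    (cyc (τ * σ * τ⁻¹) (τ x)).card = (cyc σ x).card := by
  have h : cyc (τ * σ * τ⁻¹) (τ x) = (cyc σ x).map τ.toEmbedding := by
    ext y
    rw [mem_cyc, Equiv.Perm.sameCycle_conj, Finset.mem_map_equiv, mem_cyc]
    have h1 : τ⁻¹ (τ x) = x := by
      rw [← Equiv.Perm.mul_apply, inv_mul_cancel, Equiv.Perm.one_apply]
    rw [h1]
    rfl
  rw [h, Finset.card_map]

theorem expect_trans (t : ℝ) (a : Fin d → ZMod L) (f : Equiv.Perm (Fin d → ZMod L) → ℝ) :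
    expect d L t f = expect d L t (fun σ => f (trans d L a * σ * (trans d L a)⁻¹)) := by
  rw [expect_eq, expect_eq]
  exact E_conj _ _ (transE d L a) (trans d L a) (fun _ => rfl) (edgeSwap_transE a) f

theorem expect_card_cyc (t : ℝ) (h : ℕ → ℝ) (x y : Fin d → ZMod L) :
    expect d L t (fun σ => h (cyc σ x).card) = expect d L t (fun σ => h (cyc σ y).card) := by
  have h1 := expect_trans t (x - y) (fun σ => h (cyc σ x).card)
  rw [h1]
  congr 1
  funext σ
  have h2 : trans d L (x - y) y = x := by simp [trans]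
  have h3 := card_cyc_conj σ (trans d L (x - y)) y
  rw [h2] at h3
  rw [h3]

theorem expect_inv_card_cyc (t : ℝ) (x : Fin d → ZMod L) :
    (L : ℝ) ^ d * expect d L t (fun σ => ((cyc σ x).card : ℝ)⁻¹) =
      expect d L t (fun σ => (numCycles σ : ℝ)) := by
  have h1 : (fun σ : Equiv.Perm (Fin d → ZMod L) => (numCycles σ : ℝ)) =
      fun σ => ∑ y, ((cyc σ y).card : ℝ)⁻¹ := by
    funext σ; exact (sum_inv_card_cyc σ).symm
  rw [h1, expect_eq t (fun σ => ∑ y, ((cyc σ y).card : ℝ)⁻¹), E_sum]
  have h2 : ∀ y ∈ (Finset.univ : Finset (Fin d → ZMod L)),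
      E (fun _ : (Fin d → ZMod L) × Fin d => t) (edgeSwap d L) (fun σ => ((cyc σ y).card : ℝ)⁻¹) =
        expect d L t (fun σ => ((cyc σ x).card : ℝ)⁻¹) := by
    intro y _
    rw [← expect_eq]
    exact expect_card_cyc t (fun n => (n : ℝ)⁻¹) y x
  rw [Finset.sum_congr rfl h2, Finset.sum_const, Finset.card_univ, card_torus, nsmul_eq_mul]
  push_cast; ring

end Torus

end Pool.Agent.Stirring
end
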