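import Pool.Agent.Lib.MP_6c3d62_pr.Mg.G088

section

/-! Comparison of the two-point function at different distances. -/

open Finset Matrix

set_option linter.unusedSectionVars false

namespace Pool.Agent.Stirring

variable {d L : ℕ} [NeZero L]

theorem sameProb_shift (s : ℝ) (x z : Fin d → ZMod L) :
    sameProb d L s x (x + z) = sameProb d L s 0 z := by
  have h := sameProb_conj s (transE d L x) (trans d L x) (edgeSwap_transE x) 0 z
  have h1 : trans d L x 0 = x := by simp [trans]
  have h2 : trans d L x z = x + z := by simp [trans, add_comm]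
  rw [h1, h2] at h
  exact h

/-- One term of the potential. -/
noncomputable def Dpot (z w x : Fin d → ZMod L) (A : Finset (Fin d → ZMod L)) : ℝ :=
  (if x ∈ A ∧ x + z ∈ A then 1 else 0) - (if x ∈ A ∧ x + w ∈ A then 1 else 0)

theorem Dpot_map {z w : Fin d → ZMod L} (hz : z ≠ 0) (hw : w ≠ 0) (x : Fin d → ZMod L)
    (A : Finset (Fin d → ZMod L)) :
    Dpot z w x (A.map (Equiv.swap (x + z) (x + w)).toEmbedding) = -Dpot z w x A := by
  have hx1 : x ≠ x + z := fun h => hz (by simpa using h.symm)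
  have hx2 : x ≠ x + w := fun h => hw (by simpa using h.symm)
  have h1 : ∀ u, u ∈ A.map (Equiv.swap (x + z) (x + w)).toEmbedding ↔
      Equiv.swap (x + z) (x + w) u ∈ A := by
    intro u
    rw [Finset.mem_map_equiv, Equiv.symm_swap]
  unfold Dpot
  simp only [h1, Equiv.swap_apply_of_ne_of_ne hx1 hx2, Equiv.swap_apply_left,
    Equiv.swap_apply_right]
  ring

theorem abs_Dpot_le (z w x : Fin d → ZMod L) (A : Finset (Fin d → ZMod L)) :
    |Dpot z w x A| ≤ 1 := by
  unfold Dpot
  split_ifs <;> norm_num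

/-- The potential. -/
noncomputable def Upot (γ : ℝ) (z w : Fin d → ZMod L) (A : Finset (Fin d → ZMod L)) : ℝ :=
  γ * ∑ x, Dpot z w x A

theorem avgI_Upot (γ : ℝ) (z w : Fin d → ZMod L) (τ : Equiv.Perm (Fin d → ZMod L)) :
    avgI (Upot γ z w) τ = γ / 4 * ∑ x, ((if τ.SameCycle x (x + z) then (1 : ℝ) else 0) -
      (if τ.SameCycle x (x + w) then 1 else 0)) := by
  classical
  have h1 : avgI (Upot γ z w) τ = γ * avgI (fun A => ∑ x, Dpot z w x A) τ := avgI_smul γ _ τ
  have h2 : ∀ x : Fin d → ZMod L, avgI (Dpot z w x) τ = 1 / 4 *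
      ((if τ.SameCycle x (x + z) then (1 : ℝ) else 0) -
      (if τ.SameCycle x (x + w) then 1 else 0)) := by
    intro x
    have h3 := avgI_sub (fun A => if x ∈ A ∧ x + z ∈ A then (1 : ℝ) else 0)
      (fun A => if x ∈ A ∧ x + w ∈ A then (1 : ℝ) else 0) τ
    rw [avgI_pair, avgI_pair] at h3
    refine h3.trans ?_
    ring
  rw [h1, avgI_sum]
  have h4 : ∑ x, avgI (fun A => Dpot z w x A) τ = ∑ x, 1 / 4 *
      ((if τ.SameCycle x (x + z) then (1 : ℝ) else 0) -
      (if τ.SameCycle x (x + w) then 1 else 0)) := Finset.sum_congr rfl fun x _ => h2 x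
  rw [h4, ← Finset.mul_sum]
  ring

theorem E_avgI_Upot (t γ : ℝ) (z w : Fin d → ZMod L) :
    E (fun _ : (Fin d → ZMod L) × Fin d => t) (edgeSwap d L) (avgI (Upot γ z w)) =
      γ / 4 * (L : ℝ) ^ d * (sameProb d L t 0 z - sameProb d L t 0 w) := by
  classical
  have h1 : avgI (Upot γ z w) = fun τ : Equiv.Perm (Fin d → ZMod L) => γ / 4 * ∑ x : Fin d → ZMod L,
      ((if τ.SameCycle x (x + z) then (1 : ℝ) else 0) +
        (-1) * (if τ.SameCycle x (x + w) then 1 else 0)) := by
    funext τ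
    rw [avgI_Upot]
    congr 1
    exact Finset.sum_congr rfl fun x _ => by ring
  rw [h1, E_smul, E_sum]
  have h2 : ∀ x ∈ (Finset.univ : Finset (Fin d → ZMod L)),
      E (fun _ : (Fin d → ZMod L) × Fin d => t) (edgeSwap d L)
        (fun τ => (if τ.SameCycle x (x + z) then (1 : ℝ) else 0) +
          (-1) * (if τ.SameCycle x (x + w) then 1 else 0)) =
      sameProb d L t 0 z - sameProb d L t 0 w := by
    intro x _
    rw [E_add, E_smul, ← expect_eq, ← expect_eq]
    have h3 : expect d L t (fun τ => if τ.SameCycle x (x + z) then (1 : ℝ) else 0) =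
        sameProb d L t 0 z := sameProb_shift t x z
    have h4 : expect d L t (fun τ => if τ.SameCycle x (x + w) then (1 : ℝ) else 0) =
        sameProb d L t 0 w := sameProb_shift t x w
    rw [h3, h4]; ring
  rw [Finset.sum_congr rfl h2, Finset.sum_const, Finset.card_univ, card_torus, nsmul_eq_mul]
  push_cast; ring

theorem trace_Upot_le {t : ℝ} (ht : 0 < t) {γ : ℝ} (hγ : 0 < γ) {z w : Fin d → ZMod L}
    (hz : z ≠ 0) (hw : w ≠ 0) (k : Fin d → ℤ) (hk : w = z + red d L k)
    (hK : 0 < ∑ i, |(k i : ℝ)|) :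
    trace (NormedSpace.exp (∑ a, (fun _ : (Fin d → ZMod L) × Fin d => t) a •
      (rhoS (Fin d → ZMod L) (edgeSwap d L a) - 1) + diagonal (Upot γ z w))) ≤
    Real.exp (4 * γ ^ 2 * (∑ i, |(k i : ℝ)|) ^ 2 * (L : ℝ) ^ d / t) *
      expect d L (t / 2) fixSets := by
  set K := ∑ i, |(k i : ℝ)| with hKdef
  set κ := 4 * γ ^ 2 * K ^ 2 * (L : ℝ) ^ d / t with hκ
  have h0 : expect d L (t / 2) fixSets = trace (NormedSpace.exp
      (∑ a, (fun _ : (Fin d → ZMod L) × Fin d => t / 2) a •
        (rhoS (Fin d → ZMod L) (edgeSwap d L a) - 1))) := by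
    rw [expect_eq]
    have h1 : (fixSets : Equiv.Perm (Fin d → ZMod L) → ℝ) = fun σ =>
        trace (rhoS (Fin d → ZMod L) σ) := by
      funext σ; exact fixSets_eq_trace σ
    rw [h1, E_trace]
  rw [h0, ← trace_exp_add_smul_one]
  have hsym : ∀ s : ℝ, (∑ a, (fun _ : (Fin d → ZMod L) × Fin d => s) a •
      (rhoS (Fin d → ZMod L) (edgeSwap d L a) - 1)).IsSymm := fun s =>
    isSymm_gen _ _ edgeSwap_mul_self
  refine trace_exp_mono ?_ ?_ fun f => ?_
  · rw [Matrix.IsSymm, Matrix.transpose_add, (hsym t).eq, diagonal_transpose]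
  · rw [Matrix.IsSymm, Matrix.transpose_add, (hsym (t / 2)).eq, Matrix.transpose_smul,
      Matrix.transpose_one]
  rw [Matrix.add_mulVec, dotProduct_add, Matrix.add_mulVec, dotProduct_add, quad_gen, quad_gen]
  have h2 : f ⬝ᵥ (diagonal (Upot γ z w)).mulVec f = ∑ A, Upot γ z w A * f A ^ 2 := by
    unfold dotProduct
    refine Finset.sum_congr rfl fun A _ => ?_
    rw [mulVec_diagonal]; ring
  have h3 : f ⬝ᵥ (κ • (1 : Matrix (Finset (Fin d → ZMod L)) (Finset (Fin d → ZMod L)) ℝ)).mulVec f =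
      κ * ∑ A, f A ^ 2 := by
    rw [Matrix.smul_mulVec, Matrix.one_mulVec, dotProduct_smul, smul_eq_mul]
    congr 1
    unfold dotProduct
    exact Finset.sum_congr rfl fun A _ => by ring
  rw [h2, h3]
  set a : ℝ := t / (8 * γ * K ^ 2) with ha
  have hapos : 0 < a := by positivity
  set S := ∑ e, lenFun f (edgeSwap d L e) ^ 2 with hS
  have h4 : ∑ A, Upot γ z w A * f A ^ 2 ≤
      γ * (a / 2 * (4 * K ^ 2 * S) + (L : ℝ) ^ d * (1 / (2 * a) * ∑ A, f A ^ 2)) := by
    have h5 : ∑ A, Upot γ z w A * f A ^ 2 = γ * ∑ x, ∑ A, Dpot z w x A * f A ^ 2 := by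
      rw [Finset.sum_comm, Finset.mul_sum]
      refine Finset.sum_congr rfl fun A _ => ?_
      unfold Upot
      rw [mul_assoc, Finset.sum_mul]
    rw [h5]
    refine mul_le_mul_of_nonneg_left ?_ hγ.le
    have h6 := Finset.sum_le_sum fun x (_ : x ∈ (Finset.univ : Finset (Fin d → ZMod L))) =>
      quad_diag_le (Dpot z w x) f (Dpot_map hz hw x) (abs_Dpot_le z w x) hapos
    rw [Finset.sum_add_distrib, ← Finset.mul_sum] at h6
    simp only [Finset.sum_const, Finset.card_univ, card_torus, nsmul_eq_mul] at h6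
    push_cast at h6
    refine h6.trans (add_le_add_left (mul_le_mul_of_nonneg_left ?_ (by positivity)) _)
    exact sum_swap_sq_le (isLen_lenFun f) z w k hk
  have h7 : γ * (a / 2 * (4 * K ^ 2 * S)) = t / 4 * S := by
    rw [ha]; field_simp; ring
  have h8 : γ * ((L : ℝ) ^ d * (1 / (2 * a) * ∑ A, f A ^ 2)) = κ * ∑ A, f A ^ 2 := by
    rw [ha, hκ]; field_simp; ring
  have h9 : ∀ s : ℝ, ∑ e : (Fin d → ZMod L) × Fin d, s * lenFun f (edgeSwap d L e) ^ 2 = s * S := by
    intro s; rw [hS, Finset.mul_sum]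
  rw [h9, h9]
  rw [mul_add, h7, h8] at h4
  linarith

/-- The comparison of the two-point function at two distances, with a free parameter. -/
theorem two_point_free (hd : 1 ≤ d) (hL : 2 ≤ L) {t : ℝ} (ht : 2 ≤ t) {γ : ℝ} (hγ : 0 < γ)
    {z w : Fin d → ZMod L} (hz : z ≠ 0) (hw : w ≠ 0) (k : Fin d → ℤ) (hk : w = z + red d L k)
    (hK : 0 < ∑ i, |(k i : ℝ)|) :
    γ / 4 * (L : ℝ) ^ d * (sameProb d L t 0 z - sameProb d L t 0 w) ≤
      4 * γ ^ 2 * (∑ i, |(k i : ℝ)|) ^ 2 * (L : ℝ) ^ d / t +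
        (Real.log ((L : ℝ) ^ d + 1) + cs d * (t / 2) ^ (-((d : ℝ) / 2)) * (L : ℝ) ^ d) := by
  have ht0 : 0 ≤ t := by linarith
  have h1 := path_jensen (c := fun _ : (Fin d → ZMod L) × Fin d => t) (fun _ => ht0)
    (edgeSwap d L) (Upot γ z w)
  have h2 := h1.trans (trace_Upot_le (by linarith) hγ hz hw k hk hK)
  have hE : 0 < expect d L (t / 2) fixSets := by
    have h3 := expect_mono (d := d) (L := L) (t := t / 2) (by linarith) (f := fun _ => 1)
      (g := fixSets) (fun σ => by rw [fixSets_eq_two_pow]; exact one_le_pow₀ (by norm_num))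
    rw [expect_const] at h3
    linarith
  have h3 := Real.log_le_log (Real.exp_pos _) h2
  rw [Real.log_exp, Real.log_mul (Real.exp_pos _).ne' hE.ne', Real.log_exp, E_avgI_Upot] at h3
  have h4 := log_expect_fixSets_le (L := L) hd hL (t := t / 2) (by linarith)
  have h5 : 0 ≤ E (fun _ : (Fin d → ZMod L) × Fin d => t) (edgeSwap d L)
      (fun σ => (numCycles σ : ℝ)) := E_nonneg (fun _ => ht0) _ fun σ => Nat.cast_nonneg _
  have h6 : 0 ≤ Real.log 2 := Real.log_nonneg (by norm_num)
  have h7 := mul_nonneg h6 h5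
  linarith

end Pool.Agent.Stirring
end

section

/-! The two-point function over long distances. -/

open Finset

set_option linter.unusedSectionVars false

namespace Pool.Agent.Stirring

variable {d L : ℕ} [NeZero L]

/-- The rate `t ^ (-d/2) + log L / L ^ d`. -/
noncomputable def bet (d L : ℕ) (t : ℝ) : ℝ := t ^ (-((d : ℝ) / 2)) + Real.log L / (L : ℝ) ^ d

theorem bet_pos (hL : 2 ≤ L) {t : ℝ} (ht : 0 < t) : 0 < bet d L t := by
  have h1 : 0 < t ^ (-((d : ℝ) / 2)) := Real.rpow_pos_of_pos ht _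
  have h2 : 0 ≤ Real.log L := Real.log_nonneg (by exact_mod_cast (by omega : 1 ≤ L))
  have h3 : 0 ≤ Real.log L / (L : ℝ) ^ d := by positivity
  unfold bet; linarith

theorem bet_anti {s t : ℝ} (hs : 0 < s) (hst : s ≤ t) : bet d L t ≤ bet d L s := by
  unfold bet
  refine add_le_add_left (Real.rpow_le_rpow_of_nonpos hs hst ?_) _
  have : (0 : ℝ) ≤ d := by positivity
  linarith

/-- Constant for the comparison of two-point functions. -/
noncomputable def cg (d : ℕ) : ℝ := 4 * (4 + (d + 1) + cs d * 2 ^ d) + 2 ^ (d + 1)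

theorem cg_pos {d : ℕ} (hd : 1 ≤ d) : 0 < cg d := by
  have := cs_pos hd
  unfold cg; positivity

theorem sameProb_nonneg {t : ℝ} (ht : 0 ≤ t) (x y : Fin d → ZMod L) : 0 ≤ sameProb d L t x y := by
  classical
  have h := expect_mono (d := d) (L := L) ht (f := fun _ => 0)
    (g := fun σ => if σ.SameCycle x y then (1 : ℝ) else 0) (fun σ => by split_ifs <;> norm_num)
  rwa [expect_const] at h

theorem sameProb_le_one {t : ℝ} (ht : 0 ≤ t) (x y : Fin d → ZMod L) : sameProb d L t x y ≤ 1 := by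
  classical
  have h := expect_mono (d := d) (L := L) ht
    (f := fun σ => if σ.SameCycle x y then (1 : ℝ) else 0) (g := fun _ => 1)
    (fun σ => by split_ifs <;> norm_num)
  rwa [expect_const] at h

theorem log_add_le (hd : 1 ≤ d) (hL : 2 ≤ L) {t : ℝ} (ht : 0 < t) :
    Real.log ((L : ℝ) ^ d + 1) + cs d * (t / 2) ^ (-((d : ℝ) / 2)) * (L : ℝ) ^ d ≤
      ((d + 1) + cs d * 2 ^ d) * bet d L t * (L : ℝ) ^ d := by
  have hL' : (2 : ℝ) ≤ L := by exact_mod_cast hL
  have hlogL : 0 ≤ Real.log L := Real.log_nonneg (by linarith)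
  have hcs := cs_pos hd
  have hLd : 0 < (L : ℝ) ^ d := by positivity
  have h1 : Real.log ((L : ℝ) ^ d + 1) ≤ ((d : ℝ) + 1) * Real.log L := by
    have h2 : ((d : ℝ) + 1) * Real.log L = Real.log ((L : ℝ) ^ (d + 1)) := by
      rw [Real.log_pow]; push_cast; ring
    rw [h2]
    refine Real.log_le_log (by positivity) ?_
    have h3 : (1 : ℝ) ≤ (L : ℝ) ^ d := one_le_pow₀ (by linarith)
    rw [pow_succ]
    nlinarith
  have h4 : (t / 2) ^ (-((d : ℝ) / 2)) ≤ 2 ^ d * t ^ (-((d : ℝ) / 2)) := by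
    rw [div_eq_mul_inv, Real.mul_rpow ht.le (by norm_num), mul_comm]
    refine mul_le_mul_of_nonneg_right ?_ (Real.rpow_nonneg ht.le _)
    rw [Real.inv_rpow (by norm_num), ← Real.rpow_neg (by norm_num), neg_neg, ← Real.rpow_natCast]
    refine Real.rpow_le_rpow_of_exponent_le (by norm_num) ?_
    have : (0 : ℝ) ≤ d := by positivity
    linarith
  have h5 : bet d L t * (L : ℝ) ^ d = t ^ (-((d : ℝ) / 2)) * (L : ℝ) ^ d + Real.log L := by
    unfold bet; field_simp
  have h6 : ((d + 1) + cs d * 2 ^ d) * bet d L t * (L : ℝ) ^ d =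
      ((d + 1) + cs d * 2 ^ d) * (t ^ (-((d : ℝ) / 2)) * (L : ℝ) ^ d + Real.log L) := by
    rw [mul_assoc, h5]
  rw [h6]
  have ht0 : 0 ≤ t ^ (-((d : ℝ) / 2)) * (L : ℝ) ^ d :=
    mul_nonneg (Real.rpow_nonneg ht.le _) hLd.le
  have h7 : cs d * (t / 2) ^ (-((d : ℝ) / 2)) * (L : ℝ) ^ d ≤
      cs d * 2 ^ d * (t ^ (-((d : ℝ) / 2)) * (L : ℝ) ^ d) := by
    calc cs d * (t / 2) ^ (-((d : ℝ) / 2)) * (L : ℝ) ^ d
        ≤ cs d * (2 ^ d * t ^ (-((d : ℝ) / 2))) * (L : ℝ) ^ d :=
          mul_le_mul_of_nonneg_right (mul_le_mul_of_nonneg_left h4 hcs.le) hLd.le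
      _ = _ := by ring
  have h8 : 0 ≤ cs d * 2 ^ d * Real.log L := by positivity
  have h9 : 0 ≤ ((d : ℝ) + 1) * (t ^ (-((d : ℝ) / 2)) * (L : ℝ) ^ d) := by positivity
  linarith

theorem two_point_le (hd : 1 ≤ d) (hL : 2 ≤ L) {t : ℝ} (ht : 1 ≤ t)
    {z w : Fin d → ZMod L} (hz : z ≠ 0) (hw : w ≠ 0) (k : Fin d → ℤ) (hk : w = z + red d L k) :
    sameProb d L t 0 z - sameProb d L t 0 w ≤
      cg d * (∑ i, |(k i : ℝ)|) * Real.sqrt (bet d L t / t) := by
  have ht0 : 0 < t := by linarith
  have hb := bet_pos (d := d) hL ht0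
  have hcg := cg_pos hd
  have hcs := cs_pos hd
  have hLpos : (0 : ℝ) < L := by exact_mod_cast (by omega : 0 < L)
  have hLd : 0 < (L : ℝ) ^ d := by positivity
  have hKnn : 0 ≤ ∑ i, |(k i : ℝ)| := Finset.sum_nonneg fun _ _ => abs_nonneg _
  by_cases hK : ∀ i, k i = 0
  · have : w = z := by
      rw [hk]
      ext i
      simp [red, hK i]
    rw [this, sub_self]
    positivity
  push Not at hK
  obtain ⟨i0, hi0⟩ := hK
  have hK1 : 1 ≤ ∑ i, |(k i : ℝ)| := by
    refine le_trans ?_ (Finset.single_le_sum (f := fun i => |(k i : ℝ)|)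
      (fun i _ => abs_nonneg _) (Finset.mem_univ i0))
    exact_mod_cast Int.one_le_abs hi0
  set K := ∑ i, |(k i : ℝ)| with hKdef
  set β := bet d L t with hβ
  have hKpos : 0 < K := by linarith
  by_cases ht2 : t < 2
  · -- trivial case
    have h1 : sameProb d L t 0 z - sameProb d L t 0 w ≤ 1 := by
      have := sameProb_le_one ht0.le (0 : Fin d → ZMod L) z
      have := sameProb_nonneg ht0.le (0 : Fin d → ZMod L) w
      linarith
    refine h1.trans ?_
    have h2 : (1 / 2 ^ (d + 1)) ^ 2 ≤ β / t := by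
      have h3 : (1 / 2 : ℝ) ^ d ≤ t ^ (-((d : ℝ) / 2)) := by
        rw [Real.rpow_neg ht0.le, one_div, inv_pow]
        refine inv_anti₀ (Real.rpow_pos_of_pos ht0 _) ?_
        calc t ^ ((d : ℝ) / 2) ≤ 2 ^ ((d : ℝ) / 2) :=
              Real.rpow_le_rpow ht0.le ht2.le (by positivity)
          _ ≤ 2 ^ (d : ℝ) := by
              refine Real.rpow_le_rpow_of_exponent_le (by norm_num) ?_
              have : (0 : ℝ) ≤ d := by positivity
              linarith
          _ = 2 ^ d := Real.rpow_natCast _ _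
      have h4 : t ^ (-((d : ℝ) / 2)) ≤ β := by
        have h2 : 0 ≤ Real.log L := Real.log_nonneg (by exact_mod_cast (by omega : 1 ≤ L))
        have h3 : 0 ≤ Real.log L / (L : ℝ) ^ d := by positivity
        rw [hβ]; unfold bet; linarith
      rw [le_div_iff₀ ht0]
      have h5 : (1 / 2 ^ (d + 1) : ℝ) ^ 2 = (1 / 2) ^ d * ((1 / 2) ^ d * (1 / 4)) := by
        rw [div_pow, one_pow, div_pow, one_pow, ← pow_mul, mul_comm (d + 1) 2, pow_mul]
        rw [pow_succ]
        have : ((2 : ℝ) ^ 2) ^ d = 2 ^ d * 2 ^ d := by rw [← pow_mul, two_mul, pow_add]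
        rw [this]; field_simp; norm_num
      have h6 : (1 / 2 : ℝ) ^ d ≤ 1 := pow_le_one₀ (by norm_num) (by norm_num)
      have h7 : 0 < (1 / 2 : ℝ) ^ d := by positivity
      rw [h5]
      nlinarith
    have h3 : 1 / 2 ^ (d + 1) ≤ Real.sqrt (β / t) := by
      rw [Real.le_sqrt' (by positivity)]; exact h2
    have h4 : (2 : ℝ) ^ (d + 1) ≤ cg d := by
      have : 0 ≤ 4 * (4 + ((d : ℝ) + 1) + cs d * 2 ^ d) := by positivity
      unfold cg; linarith
    calc (1 : ℝ) = 2 ^ (d + 1) * 1 * (1 / 2 ^ (d + 1)) := by field_simp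
      _ ≤ cg d * K * Real.sqrt (β / t) :=
          mul_le_mul (mul_le_mul h4 hK1 (by norm_num) hcg.le) h3 (by positivity) (by positivity)
  · push Not at ht2
    set γ := Real.sqrt (t * β) / K with hγ
    have hsq : 0 < Real.sqrt (t * β) := Real.sqrt_pos.mpr (by positivity)
    have hγpos : 0 < γ := by positivity
    have h1 := two_point_free hd hL ht2 hγpos hz hw k hk hKpos
    have h2 := log_add_le (L := L) hd hL ht0
    have h3 : 4 * γ ^ 2 * K ^ 2 * (L : ℝ) ^ d / t = 4 * β * (L : ℝ) ^ d := by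
      rw [hγ, div_pow, Real.sq_sqrt (by positivity)]; field_simp
    rw [h3] at h1
    set Δ := sameProb d L t 0 z - sameProb d L t 0 w with hΔ
    have h4 : γ / 4 * Δ ≤ (4 + (d + 1) + cs d * 2 ^ d) * β := by
      have h5 : γ / 4 * Δ * (L : ℝ) ^ d ≤ (4 + (d + 1) + cs d * 2 ^ d) * β * (L : ℝ) ^ d := by
        nlinarith
      exact le_of_mul_le_mul_right h5 hLd
    have h5 : Δ ≤ 4 * (4 + (d + 1) + cs d * 2 ^ d) * (β / γ) := by
      rw [← mul_div_assoc, le_div_iff₀ hγpos]
      linarith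
    have h6 : β / γ = K * Real.sqrt (β / t) := by
      have h7 : Real.sqrt (β / t) = Real.sqrt (t * β) / t := by
        rw [show β / t = (t * β) / t ^ 2 by field_simp, Real.sqrt_div (by positivity),
          Real.sqrt_sq ht0.le]
      have hs2 : Real.sqrt (t * β) * Real.sqrt (t * β) = t * β :=
        Real.mul_self_sqrt (by positivity)
      rw [h7, hγ, div_div_eq_mul_div, mul_div_assoc', div_eq_div_iff hsq.ne' ht0.ne']
      linear_combination (-K) * hs2
    rw [h6] at h5
    have h7 : 4 * (4 + ((d : ℝ) + 1) + cs d * 2 ^ d) ≤ cg d := by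
      unfold cg
      have : (0 : ℝ) ≤ 2 ^ (d + 1) := by positivity
      linarith
    calc Δ ≤ 4 * (4 + (d + 1) + cs d * 2 ^ d) * (K * Real.sqrt (β / t)) := h5
      _ ≤ cg d * (K * Real.sqrt (β / t)) := mul_le_mul_of_nonneg_right h7 (by positivity)
      _ = _ := by ring

theorem two_point_abs (hd : 1 ≤ d) (hL : 2 ≤ L) {t : ℝ} (ht : 1 ≤ t)
    {z w : Fin d → ZMod L} (hz : z ≠ 0) (hw : w ≠ 0) (k : Fin d → ℤ) (hk : w = z + red d L k) :
    |sameProb d L t 0 w - sameProb d L t 0 z| ≤
      cg d * (∑ i, |(k i : ℝ)|) * Real.sqrt (bet d L t / t) := by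
  rw [abs_le]
  have h1 := two_point_le hd hL ht hz hw k hk
  have hk2 : z = w + red d L (-k) := by
    rw [hk]
    ext i
    simp [red]
  have h2 := two_point_le hd hL ht hw hz (-k) hk2
  have h3 : ∑ i, |((-k) i : ℝ)| = ∑ i, |(k i : ℝ)| :=
    Finset.sum_congr rfl fun i _ => by simp
  have h4 : ∑ i, |(((-k) i : ℤ) : ℝ)| = ∑ i, |(k i : ℝ)| :=
    Finset.sum_congr rfl fun i _ => by simp
  rw [h4] at h2
  constructor <;> linarith

theorem half_window (hd : 1 ≤ d) (hL : 3 ≤ L) {t T : ℝ} (ht : 1 ≤ t) (hT : 0 < T)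
    (x : Fin d → ZMod L) (i : Fin d) :
    |(∫ s in t..(t + T), sameProb d L s x (x + Pi.single i 1)) / T - 1 / 2| ≤
      cf d * (bet d L t / T) := by
  have hL2 : 2 ≤ L := by omega
  have hLpos : (0 : ℝ) < L := by exact_mod_cast (by omega : 0 < L)
  have hd1 : (1 : ℝ) ≤ d := by exact_mod_cast hd
  have hcf := cf_pos hd
  have hw := window_identity (d := d) (L := L) hd hL2 t (t + T) x i
  have hcont := continuous_sameProb (d := d) (L := L) x (x + Pi.single i 1)
  have hI : IntervalIntegrable (fun s => sameProb d L s x (x + Pi.single i 1))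
      MeasureTheory.volume t (t + T) := hcont.intervalIntegrable _ _
  have h1 : ∫ s in t..(t + T), (2 * sameProb d L s x (x + Pi.single i 1) - 1) =
      2 * (∫ s in t..(t + T), sameProb d L s x (x + Pi.single i 1)) - T := by
    rw [intervalIntegral.integral_sub (hI.const_mul 2) intervalIntegrable_const,
      intervalIntegral.integral_const_mul]
    simp
  rw [h1] at hw
  set I := ∫ s in t..(t + T), sameProb d L s x (x + Pi.single i 1) with hIdef
  set Na := expect d L t (fun σ => (numCycles σ : ℝ)) with hNa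
  set Nb := expect d L (t + T) (fun σ => (numCycles σ : ℝ)) with hNb
  set B := cf d * bet d L t with hB
  have hBL : (L : ℝ) ^ d * B = cf d * ((L : ℝ) ^ d * t ^ (-((d : ℝ) / 2)) + Real.log L) := by
    rw [hB, bet]; field_simp
  have hNa1 : Na ≤ (L : ℝ) ^ d * B := by
    rw [hBL]; exact expect_numCycles_final hd hL2 ht
  have hNb1 : Nb ≤ (L : ℝ) ^ d * B := by
    rw [hBL]
    refine (expect_numCycles_final hd hL2 (by linarith)).trans ?_
    refine mul_le_mul_of_nonneg_left ?_ hcf.le
    refine add_le_add_left (mul_le_mul_of_nonneg_left ?_ (by positivity)) _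
    exact Real.rpow_le_rpow_of_nonpos (by linarith) (by linarith) (by
      have : (0 : ℝ) ≤ d := by positivity
      linarith)
  have hNa0 : 0 ≤ Na := by
    have := expect_mono (d := d) (L := L) (t := t) (by linarith) (f := fun _ => 0)
      (g := fun σ => (numCycles σ : ℝ)) (fun σ => Nat.cast_nonneg _)
    rwa [expect_const] at this
  have hNb0 : 0 ≤ Nb := by
    have := expect_mono (d := d) (L := L) (t := t + T) (by linarith) (f := fun _ => 0)
      (g := fun σ => (numCycles σ : ℝ)) (fun σ => Nat.cast_nonneg _)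
    rwa [expect_const] at this
  have hLd : 0 < (L : ℝ) ^ d := by positivity
  have hB0 : 0 ≤ B := by
    have := hNa0.trans hNa1
    exact nonneg_of_mul_nonneg_right this hLd
  have h2 : I / T - 1 / 2 = (Nb - Na) / (d * (L : ℝ) ^ d) / (2 * T) := by
    rw [← hw]; field_simp
  rw [h2, abs_div, abs_div, abs_of_pos (show 0 < (d : ℝ) * (L : ℝ) ^ d by positivity),
    abs_of_pos (show 0 < 2 * T by positivity)]
  have h3 : |Nb - Na| ≤ (L : ℝ) ^ d * B := by
    rw [abs_le]; constructor <;> linarith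
  have h4 : |Nb - Na| / (d * (L : ℝ) ^ d) ≤ B := by
    rw [div_le_iff₀ (by positivity)]
    refine h3.trans ?_
    have : 0 ≤ (L : ℝ) ^ d * B := by positivity
    nlinarith
  calc |Nb - Na| / (d * (L : ℝ) ^ d) / (2 * T) ≤ B / (2 * T) :=
        div_le_div_of_nonneg_right h4 (by positivity)
    _ ≤ B / T := by
        refine div_le_div_of_nonneg_left hB0 hT (by linarith)
    _ = cf d * (bet d L t / T) := by rw [hB]; ring

/-- The constant of the two-point estimate. -/
noncomputable def clr (d : ℕ) : ℝ := cf d + cg d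

theorem clr_pos {d : ℕ} (hd : 1 ≤ d) : 0 < clr d := by
  have := cf_pos hd
  have := cg_pos hd
  unfold clr; positivity

theorem sameProb_symm (s : ℝ) (x y : Fin d → ZMod L) :
    sameProb d L s x y = sameProb d L s y x := by
  unfold sameProb
  congr 1
  funext σ
  exact if_congr Equiv.Perm.sameCycle_comm rfl rfl

theorem sameProb_neg (s : ℝ) (u : Fin d → ZMod L) :
    sameProb d L s 0 (-u) = sameProb d L s 0 u := by
  have h := sameProb_shift s u (-u)
  rw [add_neg_cancel] at h
  rw [← h, sameProb_symm]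

/-- Time averages of the two-point function. -/
theorem same_window (hd : 1 ≤ d) (hL : 3 ≤ L) {t T : ℝ} (ht : 1 ≤ t) (hT : 0 < T)
    (x y : Fin d → ZMod L) (k : Fin d → ℤ) (hxy : x ≠ y) (hk : y = x + red d L k) :
    |(∫ s in t..(t + T), sameProb d L s x y) / T - 1 / 2| ≤
      clr d * (bet d L t / T + ((∑ i, |(k i : ℝ)|) - 1) * Real.sqrt (bet d L t / t)) := by
  have hL2 : 2 ≤ L := by omega
  have hcf := cf_pos hd
  have hcg := cg_pos hd
  have ht0 : 0 < t := by linarith
  have hb := bet_pos (d := d) hL2 ht0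
  have hw0 : red d L k ≠ 0 := fun h => hxy (by rw [hk, h, add_zero])
  -- some coordinate is nonzero
  have hk0 : ∃ i, k i ≠ 0 := by
    by_contra h
    push Not at h
    refine hw0 ?_
    ext i
    simp [red, h i]
  obtain ⟨i0, hi0⟩ := hk0
  set K := ∑ i, |(k i : ℝ)| with hKdef
  have hK1 : 1 ≤ K := by
    refine le_trans ?_ (Finset.single_le_sum (f := fun i => |(k i : ℝ)|)
      (fun i _ => abs_nonneg _) (Finset.mem_univ i0))
    exact_mod_cast Int.one_le_abs hi0
  set sg : ℤ := Int.sign (k i0) with hsg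
  have hsg1 : sg = 1 ∨ sg = -1 := by
    rcases lt_trichotomy (k i0) 0 with h | h | h
    · right; rw [hsg, Int.sign_eq_neg_one_of_neg h]
    · exact absurd h hi0
    · left; rw [hsg, Int.sign_eq_one_of_pos h]
  set u : Fin d → ZMod L := Pi.single i0 1 with hu
  set e : Fin d → ZMod L := red d L (Pi.single i0 sg) with he
  have heu : e = u ∨ e = -u := by
    rcases hsg1 with h | h
    · left
      ext i
      rw [he, h, hu]
      by_cases hi : i = i0
      · subst hi; simp [red]
      · simp only [red, Pi.single_eq_of_ne hi]; simp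
    · right
      ext i
      rw [he, h, hu]
      by_cases hi : i = i0
      · subst hi; simp [red]
      · simp only [red, Pi.neg_apply, Pi.single_eq_of_ne hi]; simp
  have hu0 : u ≠ 0 := by
    intro h
    have := edge_ne (d := d) (L := L) hL2 0 i0
    rw [← hu, h, add_zero] at this
    exact this rfl
  have he0 : e ≠ 0 := by
    rcases heu with h | h
    · rw [h]; exact hu0
    · rw [h]; exact neg_ne_zero.mpr hu0
  have heP : ∀ s, sameProb d L s 0 e = sameProb d L s 0 u := by
    intro s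
    rcases heu with h | h
    · rw [h]
    · rw [h, sameProb_neg]
  set k' : Fin d → ℤ := k - Pi.single i0 sg with hk'
  have hke : red d L k = e + red d L k' := by
    ext i
    simp only [red, hk', Pi.add_apply, Pi.sub_apply, he]
    push_cast
    ring
  have hK' : ∑ i, |(k' i : ℝ)| = K - 1 := by
    have h1 : ∀ i, |(k' i : ℝ)| = |(k i : ℝ)| - (if i = i0 then 1 else 0) := by
      intro i
      simp only [hk', Pi.sub_apply]
      by_cases h : i = i0
      · subst h
        rw [Pi.single_eq_same, if_pos rfl]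
        rcases lt_trichotomy (k i) 0 with h2 | h2 | h2
        · have h3 : sg = -1 := by rw [hsg, Int.sign_eq_neg_one_of_neg h2]
          have h4 : (k i : ℝ) ≤ -1 := by exact_mod_cast (by omega : k i ≤ -1)
          rw [h3, abs_of_nonpos (by linarith : (k i : ℝ) ≤ 0)]
          push_cast
          rw [abs_of_nonpos (by linarith)]
          ring
        · exact absurd h2 hi0
        · have h3 : sg = 1 := by rw [hsg, Int.sign_eq_one_of_pos h2]
          have h4 : (1 : ℝ) ≤ k i := by exact_mod_cast (by omega : 1 ≤ k i)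
          rw [h3, abs_of_nonneg (by linarith : (0 : ℝ) ≤ k i)]
          push_cast
          rw [abs_of_nonneg (by linarith)]
      · rw [Pi.single_eq_of_ne h, if_neg h]; simp
    rw [Finset.sum_congr rfl fun i _ => h1 i, Finset.sum_sub_distrib,
      Finset.sum_ite_eq' Finset.univ i0 (fun _ => (1 : ℝ)), if_pos (Finset.mem_univ _)]
  have hpt : ∀ s ∈ Set.uIoc t (t + T), ‖sameProb d L s x y - sameProb d L s x (x + u)‖ ≤
      cg d * (K - 1) * Real.sqrt (bet d L t / t) := by
    intro s hs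
    rw [Set.uIoc_of_le (by linarith)] at hs
    have hs1 : t < s := hs.1
    have h1 := two_point_abs hd hL2 (t := s) (by linarith) he0 hw0 k' hke
    rw [hk, sameProb_shift, sameProb_shift, Real.norm_eq_abs, ← heP]
    refine h1.trans ?_
    have h2 : Real.sqrt (bet d L s / s) ≤ Real.sqrt (bet d L t / t) := by
      refine Real.sqrt_le_sqrt ?_
      exact div_le_div₀ hb.le (bet_anti ht0 hs1.le) ht0 hs1.le
    rw [hK']
    have h3 : 0 ≤ K - 1 := by linarith
    exact mul_le_mul_of_nonneg_left h2 (by positivity)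
  have hI1 : IntervalIntegrable (fun s => sameProb d L s x y) MeasureTheory.volume t (t + T) :=
    (continuous_sameProb x y).intervalIntegrable _ _
  have hI2 : IntervalIntegrable (fun s => sameProb d L s x (x + u)) MeasureTheory.volume t (t + T) :=
    (continuous_sameProb x (x + u)).intervalIntegrable _ _
  have h3 := intervalIntegral.norm_integral_le_of_norm_le_const hpt
  rw [intervalIntegral.integral_sub hI1 hI2, Real.norm_eq_abs] at h3
  have h4 : |t + T - t| = T := by rw [add_sub_cancel_left, abs_of_pos hT]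
  rw [h4] at h3
  have h5 := half_window (d := d) (L := L) hd hL ht hT x i0
  rw [← hu] at h5
  set I1 := ∫ s in t..(t + T), sameProb d L s x y
  set I2 := ∫ s in t..(t + T), sameProb d L s x (x + u)
  have h6 : |I1 / T - I2 / T| ≤ cg d * (K - 1) * Real.sqrt (bet d L t / t) := by
    rw [← sub_div, abs_div, abs_of_pos hT, div_le_iff₀ hT]
    exact h3
  have h7 : I1 / T - 1 / 2 = (I1 / T - I2 / T) + (I2 / T - 1 / 2) := by ring
  rw [h7]
  refine (abs_add_le _ _).trans ?_
  have hK0 : 0 ≤ K - 1 := by linarith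
  have h8 : 0 ≤ (K - 1) * Real.sqrt (bet d L t / t) := by positivity
  have h9 : 0 ≤ bet d L t / T := by positivity
  unfold clr
  nlinarith [mul_nonneg hcf.le h8, mul_nonneg hcg.le h9]

end Pool.Agent.Stirring
end

section

/-! Ising chains along the cycles of a permutation. -/

open Finset Matrix Filter Topology

set_option linter.unusedSectionVars false

namespace Pool.Agent.Stirring

section Spin

variable {V : Type*} [Fintype V] [DecidableEq V]

/-- The spin at `x` of the configuration `A`. -/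
def sg (A : Finset V) (x : V) : ℝ := if x ∈ A then -1 else 1

theorem sg_mul_self (A : Finset V) (x : V) : sg A x * sg A x = 1 := by
  unfold sg; split_ifs <;> norm_num

theorem abs_sg (A : Finset V) (x : V) : |sg A x| = 1 := by
  unfold sg; split_ifs <;> norm_num

theorem sg_map (σ : Equiv.Perm V) (A : Finset V) (x : V) :
    sg (A.map σ.toEmbedding) x = sg A (σ⁻¹ x) := by
  unfold sg
  simp only [Finset.mem_map_equiv]
  rfl

/-- Walsh functions. -/
def wal (S A : Finset V) : ℝ := ∏ x ∈ S, sg A x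

theorem wal_map (σ : Equiv.Perm V) (S A : Finset V) :
    wal S (A.map σ.toEmbedding) = wal (S.map (σ⁻¹).toEmbedding) A := by
  unfold wal
  rw [Finset.prod_map]
  exact Finset.prod_congr rfl fun x _ => sg_map σ A x

theorem prod_symmDiff_of_sq {f : V → ℝ} (hf : ∀ x, f x * f x = 1) (S T : Finset V) :
    (∏ x ∈ S, f x) * ∏ x ∈ T, f x = ∏ x ∈ symmDiff S T, f x := by
  have h1 : ∏ x ∈ S, f x = (∏ x ∈ S \ T, f x) * ∏ x ∈ S ∩ T, f x := by
    rw [mul_comm]
    exact (Finset.prod_inter_mul_prod_sdiff S T f).symm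
  have h2 : ∏ x ∈ T, f x = (∏ x ∈ T \ S, f x) * ∏ x ∈ S ∩ T, f x := by
    rw [mul_comm, Finset.inter_comm]
    exact (Finset.prod_inter_mul_prod_sdiff T S f).symm
  have h3 : (∏ x ∈ S ∩ T, f x) * ∏ x ∈ S ∩ T, f x = 1 := by
    rw [← Finset.prod_mul_distrib]
    exact Finset.prod_eq_one fun x _ => hf x
  have h4 : ∏ x ∈ symmDiff S T, f x = (∏ x ∈ S \ T, f x) * ∏ x ∈ T \ S, f x := by
    rw [symmDiff_def, Finset.sup_eq_union, Finset.prod_union]
    rw [Finset.disjoint_left]
    intro x hx hx'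
    exact (Finset.mem_sdiff.mp hx').2 (Finset.mem_sdiff.mp hx).1
  rw [h1, h2, h4]
  calc _ = (∏ x ∈ S \ T, f x) * (∏ x ∈ T \ S, f x) *
        ((∏ x ∈ S ∩ T, f x) * ∏ x ∈ S ∩ T, f x) := by ring
    _ = _ := by rw [h3, mul_one]

theorem wal_mul (S T A : Finset V) : wal S A * wal T A = wal (symmDiff S T) A :=
  prod_symmDiff_of_sq (sg_mul_self A) S T

theorem sum_wal (S : Finset V) :
    ∑ A : Finset V, wal S A = if S = ∅ then (2 : ℝ) ^ Fintype.card V else 0 := by
  have h1 : ∀ A : Finset V, wal S A =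
      (∏ x ∈ A, (if x ∈ S then (-1 : ℝ) else 1)) * ∏ x ∈ Finset.univ \ A, (1 : ℝ) := by
    intro A
    rw [Finset.prod_const_one, mul_one]
    unfold wal sg
    rw [Finset.prod_ite, Finset.prod_ite]
    simp only [Finset.prod_const, one_pow, mul_one]
    congr 2
    ext x
    simp [and_comm]
  rw [Finset.sum_congr rfl fun A _ => h1 A]
  have h2 := Finset.prod_add (fun x : V => if x ∈ S then (-1 : ℝ) else 1) (fun _ => (1 : ℝ))
    Finset.univ
  rw [Finset.powerset_univ] at h2
  rw [← h2]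
  split_ifs with h
  · subst h
    simp
    norm_num
  · obtain ⟨x, hx⟩ := Finset.nonempty_iff_ne_empty.mpr h
    refine Finset.prod_eq_zero (Finset.mem_univ x) ?_
    rw [if_pos hx]; norm_num

/-- The closure operator. -/
noncomputable def MM (V : Type*) [Fintype V] [DecidableEq V] (ϑ : ℝ) :
    Matrix (Finset V) (Finset V) ℝ :=
  Matrix.of fun A B => ∏ x, (1 + ϑ * (sg A x * sg B x)) / 2

theorem MM_apply (ϑ : ℝ) (A B : Finset V) :
    MM V ϑ A B = ∏ x, (1 + ϑ * (sg A x * sg B x)) / 2 := rfl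

theorem MM_eq_sum (ϑ : ℝ) (A B : Finset V) :
    MM V ϑ A B = (2 ^ Fintype.card V)⁻¹ * ∑ S : Finset V, ϑ ^ S.card * (wal S A * wal S B) := by
  rw [MM_apply, Finset.prod_div_distrib, Finset.prod_const, Finset.card_univ, div_eq_inv_mul]
  congr 1
  rw [Finset.prod_one_add, Finset.powerset_univ]
  refine Finset.sum_congr rfl fun S _ => ?_
  rw [Finset.prod_mul_distrib, Finset.prod_const, Finset.prod_mul_distrib]
  rfl

theorem MM_nonneg {ϑ : ℝ} (h0 : 0 ≤ ϑ) (h1 : ϑ ≤ 1) (A B : Finset V) : 0 ≤ MM V ϑ A B := by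
  rw [MM_apply]
  refine Finset.prod_nonneg fun x _ => ?_
  have h2 : |ϑ * (sg A x * sg B x)| ≤ 1 := by
    rw [abs_mul, abs_mul, abs_sg, abs_sg, abs_of_nonneg h0]; linarith
  have := (abs_le.mp h2).1
  linarith

theorem MM_symm (ϑ : ℝ) (A B : Finset V) : MM V ϑ A B = MM V ϑ B A := by
  rw [MM_apply, MM_apply]
  exact Finset.prod_congr rfl fun x _ => by rw [mul_comm (sg A x)]

theorem MM_map (ϑ : ℝ) (σ : Equiv.Perm V) (A B : Finset V) :
    MM V ϑ (A.map σ.toEmbedding) (B.map σ.toEmbedding) = MM V ϑ A B := by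
  rw [MM_apply, MM_apply, ← Equiv.prod_comp σ⁻¹ fun x => (1 + ϑ * (sg A x * sg B x)) / 2]
  exact Finset.prod_congr rfl fun x _ => by rw [sg_map, sg_map]

theorem MM_row (ϑ : ℝ) (A : Finset V) : ∑ B, MM V ϑ A B = 1 := by
  simp only [MM_eq_sum]
  rw [← Finset.mul_sum, Finset.sum_comm]
  have h : ∀ S : Finset V, ∑ B : Finset V, ϑ ^ S.card * (wal S A * wal S B) =
      if S = ∅ then (2 : ℝ) ^ Fintype.card V else 0 := by
    intro S
    rw [← Finset.mul_sum, ← Finset.mul_sum, sum_wal]
    split_ifs with h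
    · subst h; simp [wal]
    · simp
  rw [Finset.sum_congr rfl fun S _ => h S, Finset.sum_ite_eq' Finset.univ ∅ fun _ =>
    (2 : ℝ) ^ Fintype.card V, if_pos (Finset.mem_univ _)]
  exact inv_mul_cancel₀ (by positivity)

theorem MM_quad_le {ϑ : ℝ} (h0 : 0 ≤ ϑ) (h1 : ϑ ≤ 1) (f : Finset V → ℝ) :
    ∑ A, ∑ B, MM V ϑ A B * (f A * f B) ≤ ∑ A, f A ^ 2 := by
  have h2 : ∀ A B : Finset V, MM V ϑ A B * (f A * f B) ≤
      MM V ϑ A B * (f A ^ 2 / 2) + MM V ϑ A B * (f B ^ 2 / 2) := by
    intro A B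
    rw [← mul_add]
    refine mul_le_mul_of_nonneg_left ?_ (MM_nonneg h0 h1 A B)
    nlinarith [sq_nonneg (f A - f B)]
  refine (Finset.sum_le_sum fun A _ => Finset.sum_le_sum fun B _ => h2 A B).trans ?_
  simp only [Finset.sum_add_distrib]
  have h3 : ∑ A : Finset V, ∑ B : Finset V, MM V ϑ A B * (f A ^ 2 / 2) = ∑ A, f A ^ 2 / 2 := by
    refine Finset.sum_congr rfl fun A _ => ?_
    rw [← Finset.sum_mul, MM_row, one_mul]
  have h4 : ∑ A : Finset V, ∑ B : Finset V, MM V ϑ A B * (f B ^ 2 / 2) = ∑ A, f A ^ 2 / 2 := by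
    rw [Finset.sum_comm]
    refine Finset.sum_congr rfl fun B _ => ?_
    rw [← Finset.sum_mul]
    simp only [MM_symm ϑ _ B]
    rw [MM_row, one_mul]
  rw [h3, h4, ← Finset.sum_add_distrib]
  exact le_of_eq (Finset.sum_congr rfl fun A _ => by ring)

/-- Sum over sets with prescribed boundary. -/
noncomputable def Wt (ϑ : ℝ) (τ : Equiv.Perm V) (X : Finset V) : ℝ :=
  ∑ S : Finset V, if symmDiff S (S.map (τ⁻¹).toEmbedding) = X then ϑ ^ S.card else 0

theorem sum_MM_wal (ϑ : ℝ) (τ : Equiv.Perm V) (X : Finset V) :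
    ∑ A, MM V ϑ A (A.map τ.toEmbedding) * wal X A = Wt ϑ τ X := by
  simp only [MM_eq_sum, wal_map]
  have h1 : ∀ A : Finset V, (2 ^ Fintype.card V : ℝ)⁻¹ * (∑ S : Finset V,
      ϑ ^ S.card * (wal S A * wal (S.map (τ⁻¹).toEmbedding) A)) * wal X A =
      (2 ^ Fintype.card V : ℝ)⁻¹ * ∑ S : Finset V, ϑ ^ S.card *
        wal (symmDiff (symmDiff S (S.map (τ⁻¹).toEmbedding)) X) A := by
    intro A
    rw [mul_assoc, Finset.sum_mul]
    congr 1
    refine Finset.sum_congr rfl fun S _ => ?_
    rw [wal_mul, mul_assoc, wal_mul]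
  rw [Finset.sum_congr rfl fun A _ => h1 A, ← Finset.mul_sum, Finset.sum_comm]
  have h2 : ∀ S : Finset V, ∑ A : Finset V, ϑ ^ S.card *
        wal (symmDiff (symmDiff S (S.map (τ⁻¹).toEmbedding)) X) A =
      2 ^ Fintype.card V *
        (if symmDiff S (S.map (τ⁻¹).toEmbedding) = X then ϑ ^ S.card else 0) := by
    intro S
    rw [← Finset.mul_sum, sum_wal]
    have h3 : symmDiff (symmDiff S (S.map (τ⁻¹).toEmbedding)) X = ∅ ↔
        symmDiff S (S.map (τ⁻¹).toEmbedding) = X := by
      rw [← Finset.bot_eq_empty, symmDiff_eq_bot]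
    simp only [h3]
    split_ifs <;> ring
  rw [Finset.sum_congr rfl fun S _ => h2 S, ← Finset.mul_sum, ← mul_assoc,
    inv_mul_cancel₀ (by positivity), one_mul]
  rfl

/-- The partition function of the Ising chains. -/
noncomputable def Zt (ϑ : ℝ) (τ : Equiv.Perm V) : ℝ := Wt ϑ τ ∅

theorem sum_MM (ϑ : ℝ) (τ : Equiv.Perm V) :
    ∑ A, MM V ϑ A (A.map τ.toEmbedding) = Zt ϑ τ := by
  have := sum_MM_wal ϑ τ ∅
  simpa [wal, Zt] using this

theorem Wt_nonneg {ϑ : ℝ} (h0 : 0 ≤ ϑ) (τ : Equiv.Perm V) (X : Finset V) : 0 ≤ Wt ϑ τ X :=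
  Finset.sum_nonneg fun S _ => by split_ifs <;> positivity

theorem one_le_Zt {ϑ : ℝ} (h0 : 0 ≤ ϑ) (τ : Equiv.Perm V) : 1 ≤ Zt ϑ τ := by
  unfold Zt Wt
  refine le_trans ?_ (Finset.single_le_sum (f := fun S : Finset V =>
    if symmDiff S (S.map (τ⁻¹).toEmbedding) = ∅ then ϑ ^ S.card else 0)
    (fun S _ => by split_ifs <;> positivity) (Finset.mem_univ ∅))
  simp

end Spin

end Pool.Agent.Stirring
end

section

/-! Jensen's inequality for the exclusion path measure closed by the operator `MM`. -/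

open Finset Matrix Filter Topology

set_option linter.unusedSectionVars false

namespace Pool.Agent.Stirring

section PathM

variable {V : Type*} [Fintype V] [DecidableEq V]

theorem path_traceM (ϑ : ℝ) (U : Finset V → ℝ) (l : List (Equiv.Perm V)) :
    trace (MM V ϑ * (l.map fun σ => rhoS V σ * diagonal (fun A => Real.exp (U A))).prod) =
      ∑ A : Finset V, MM V ϑ A (A.map l.prod.toEmbedding) * Real.exp (sPot U l A) := by
  rw [trace]
  simp only [diag_apply, Matrix.mul_apply, path_entry]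
  refine Finset.sum_congr rfl fun A _ => ?_
  rw [Finset.sum_eq_single (A.map l.prod.toEmbedding)]
  · rw [if_pos rfl]
  · intro B _ hB
    rw [if_neg hB, mul_zero]
  · intro h; exact absurd (Finset.mem_univ _) h

theorem sum_M_conj (ϑ : ℝ) (U : Finset V → ℝ) (a b : Equiv.Perm V) :
    ∑ A : Finset V, MM V ϑ A (A.map (a * b).toEmbedding) * U (A.map b.toEmbedding) =
      ∑ B : Finset V, MM V ϑ B (B.map (b * a).toEmbedding) * U B := by
  rw [← Equiv.sum_comp (setHom V b) fun B : Finset V =>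
    MM V ϑ B (B.map (b * a).toEmbedding) * U B]
  refine Finset.sum_congr rfl fun A _ => ?_
  rw [setHom_apply, ← MM_map ϑ b A, ← mul_toEmbedding_map, ← mul_toEmbedding_map, mul_assoc]

/-- Weighted average of a function over the colourings. -/
noncomputable def avgM (ϑ : ℝ) (U : Finset V → ℝ) (τ : Equiv.Perm V) : ℝ :=
  (∑ A : Finset V, MM V ϑ A (A.map τ.toEmbedding) * U A) / Zt ϑ τ

theorem Zt_comm (ϑ : ℝ) (a b : Equiv.Perm V) : Zt ϑ (a * b) = Zt ϑ (b * a) := by
  have h := sum_M_conj ϑ (fun _ => (1 : ℝ)) a b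
  simp only [mul_one] at h
  rw [← sum_MM, ← sum_MM, h]

theorem Zt_pos {ϑ : ℝ} (h0 : 0 ≤ ϑ) (τ : Equiv.Perm V) : 0 < Zt ϑ τ :=
  lt_of_lt_of_le one_pos (one_le_Zt h0 τ)

theorem avgM_sPot (ϑ : ℝ) (U : Finset V → ℝ) (l : List (Equiv.Perm V)) :
    avgM ϑ (sPot U l) l.prod =
      ∑ j ∈ Finset.range l.length, avgM ϑ U (l.rotate (j + 1)).prod := by
  unfold avgM sPot
  simp only [Finset.mul_sum]
  rw [Finset.sum_comm, Finset.sum_div]
  refine Finset.sum_congr rfl fun j hj => ?_
  have hj' : j + 1 ≤ l.length := Finset.mem_range.mp hj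
  have h1 : l.prod = (l.take (j + 1)).prod * (l.drop (j + 1)).prod := by
    rw [← List.prod_append, List.take_append_drop]
  have h2 : (l.rotate (j + 1)).prod = (l.drop (j + 1)).prod * (l.take (j + 1)).prod := by
    rw [List.rotate_eq_drop_append_take hj', List.prod_append]
  rw [h1, h2, sum_M_conj, Zt_comm]

theorem avgM_smul (ϑ r : ℝ) (U : Finset V → ℝ) (τ : Equiv.Perm V) :
    avgM ϑ (fun A => r * U A) τ = r * avgM ϑ U τ := by
  unfold avgM
  rw [← mul_div_assoc, Finset.mul_sum]
  congr 1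
  exact Finset.sum_congr rfl fun A _ => by ring

theorem avgM_sub (ϑ : ℝ) (U W : Finset V → ℝ) (τ : Equiv.Perm V) :
    avgM ϑ (fun A => U A - W A) τ = avgM ϑ U τ - avgM ϑ W τ := by
  unfold avgM
  simp only [mul_sub]
  rw [Finset.sum_sub_distrib, sub_div]

theorem avgM_sum (ϑ : ℝ) {ι : Type*} (s : Finset ι) (U : ι → Finset V → ℝ) (τ : Equiv.Perm V) :
    avgM ϑ (fun A => ∑ i ∈ s, U i A) τ = ∑ i ∈ s, avgM ϑ (U i) τ := by
  unfold avgM
  simp only [Finset.mul_sum]
  rw [Finset.sum_comm, Finset.sum_div]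

/-- Jensen for the weighted average. -/
theorem jensen_M {ϑ : ℝ} (h0 : 0 ≤ ϑ) (h1 : ϑ ≤ 1) (W : Finset V → ℝ) (τ : Equiv.Perm V) :
    Real.exp (Real.log (Zt ϑ τ) + avgM ϑ W τ) ≤
      ∑ A : Finset V, MM V ϑ A (A.map τ.toEmbedding) * Real.exp (W A) := by
  have hc := Zt_pos h0 τ
  set m := avgM ϑ W τ with hm
  have hsum : ∑ A : Finset V, MM V ϑ A (A.map τ.toEmbedding) * W A = Zt ϑ τ * m := by
    rw [hm, avgM]; field_simp
  have key : ∀ x : ℝ, Real.exp m * (1 + (x + -m)) ≤ Real.exp x := by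
    intro x
    have h1 : Real.exp x = Real.exp m * Real.exp (x + -m) := by
      rw [← Real.exp_add]; ring_nf
    rw [h1]
    refine mul_le_mul_of_nonneg_left ?_ (Real.exp_pos _).le
    have := Real.add_one_le_exp (x + -m)
    linarith
  have h2 : ∑ A : Finset V, MM V ϑ A (A.map τ.toEmbedding) * (Real.exp m * (1 + (W A + -m))) ≤
      ∑ A : Finset V, MM V ϑ A (A.map τ.toEmbedding) * Real.exp (W A) :=
    Finset.sum_le_sum fun A _ => mul_le_mul_of_nonneg_left (key (W A)) (MM_nonneg h0 h1 _ _)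
  have h3 : ∑ A : Finset V, MM V ϑ A (A.map τ.toEmbedding) * (Real.exp m * (1 + (W A + -m))) =
      Real.exp m * ((1 - m) * (∑ A : Finset V, MM V ϑ A (A.map τ.toEmbedding)) +
        ∑ A : Finset V, MM V ϑ A (A.map τ.toEmbedding) * W A) := by
    rw [Finset.mul_sum, ← Finset.sum_add_distrib, Finset.mul_sum]
    exact Finset.sum_congr rfl fun A _ => by ring
  rw [h3, hsum, sum_MM] at h2
  rw [Real.exp_add, Real.exp_log hc, mul_comm]
  refine le_trans (le_of_eq ?_) h2
  ring

variable {α : Type*} [Fintype α]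

theorem path_lowerM {ϑ : ℝ} (h0 : 0 ≤ ϑ) (h1 : ϑ ≤ 1) {c : α → ℝ} (hc : ∀ a, 0 ≤ c a)
    (g : α → Equiv.Perm V) (U : Finset V → ℝ) {m : ℕ} (hm : 0 < m) :
    Real.exp (E c g (fun σ => Real.log (Zt ϑ σ)) + E c g (avgM ϑ U)) ≤
      trace (MM V ϑ * (NormedSpace.exp ((m : ℝ)⁻¹ • ∑ a, c a • (rhoS V (g a) - 1)) *
        NormedSpace.exp ((m : ℝ)⁻¹ • diagonal U)) ^ m) := by
  have hm' : (m : ℝ) ≠ 0 := by exact_mod_cast hm.ne'
  set p := law (fun a => (m : ℝ)⁻¹ * c a) g with hp
  have hp0 : ∀ σ, 0 ≤ p σ := law_nonneg (fun a => mul_nonneg (by positivity) (hc a)) g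
  have hp1 : ∑ σ, p σ = 1 := law_sum _ _
  set U' : Finset V → ℝ := fun A => (m : ℝ)⁻¹ * U A with hU'
  have h1' : NormedSpace.exp ((m : ℝ)⁻¹ • diagonal U) = diagonal (fun A => Real.exp (U' A)) := by
    have : (m : ℝ)⁻¹ • (diagonal U : Matrix (Finset V) (Finset V) ℝ) = diagonal U' := by
      ext i j; simp [diagonal_apply, hU']
    rw [this, exp_diag_real]
  have h2 : NormedSpace.exp ((m : ℝ)⁻¹ • ∑ a, c a • (rhoS V (g a) - 1)) *
      NormedSpace.exp ((m : ℝ)⁻¹ • diagonal U) =
      ∑ σ, p σ • (rhoS V σ * diagonal (fun A => Real.exp (U' A))) := by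
    rw [h1', ← smul_gen, exp_gen_eq_sum_law, Finset.sum_mul]
    exact Finset.sum_congr rfl fun σ _ => by rw [Matrix.smul_mul]
  have h3 := wordSum_matrix' p (fun σ => rhoS V σ * diagonal (fun A => Real.exp (U' A))) m
    (MM V ϑ)
  rw [h2, ← h3]
  have h4 : wordSum p (fun l => Real.exp (Real.log (Zt ϑ l.prod) +
      avgM ϑ (sPot U' l) l.prod)) m ≤
      wordSum p (fun l => trace (MM V ϑ * (l.map fun σ => rhoS V σ *
        diagonal (fun A => Real.exp (U' A))).prod)) m := by
    refine wordSum_mono hp0 (fun l => ?_) m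
    rw [path_traceM]
    exact jensen_M h0 h1 _ _
  refine le_trans (le_trans (Real.exp_le_exp.mpr (le_of_eq ?_)) (exp_wordSum_le hp0 hp1 _ m)) h4
  rw [wordSum_add, hp, wordSum_law c g hm (fun σ => Real.log (Zt ϑ σ))]
  congr 1
  have h5 : wordSum p (fun l => avgM ϑ (sPot U' l) l.prod) m =
      wordSum p (fun l => ∑ j ∈ Finset.range m, avgM ϑ U' (l.rotate (j + 1)).prod) m := by
    refine wordSum_congr_length _ _ fun l hl => ?_
    rw [avgM_sPot, hl]
  rw [← hp, h5, wordSum_sum]
  have h6 : ∀ j ∈ Finset.range m, wordSum p (fun l => avgM ϑ U' (l.rotate (j + 1)).prod) m =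
      (m : ℝ)⁻¹ * E c g (avgM ϑ U) := by
    intro j _
    rw [wordSum_rotate p (fun l => avgM ϑ U' l.prod) m (j + 1), hp, wordSum_law c g hm (avgM ϑ U'),
      ← E_smul]
    congr 1
    funext τ
    exact avgM_smul _ _ _ _
  rw [Finset.sum_congr rfl h6, Finset.sum_const, Finset.card_range, nsmul_eq_mul]
  field_simp

/-- Lower bound for the partition function of the exclusion process with a potential. -/
theorem path_jensenM {ϑ : ℝ} (h0 : 0 ≤ ϑ) (h1 : ϑ ≤ 1) {c : α → ℝ} (hc : ∀ a, 0 ≤ c a)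
    (g : α → Equiv.Perm V) (U : Finset V → ℝ) :
    Real.exp (E c g (fun σ => Real.log (Zt ϑ σ)) + E c g (avgM ϑ U)) ≤
      trace (MM V ϑ * NormedSpace.exp (∑ a, c a • (rhoS V (g a) - 1) + diagonal U)) := by
  letI : NormedRing (Matrix (Finset V) (Finset V) ℝ) := Matrix.linftyOpNormedRing
  letI : NormedAlgebra ℝ (Matrix (Finset V) (Finset V) ℝ) := Matrix.linftyOpNormedAlgebra
  haveI : NormOneClass (Matrix (Finset V) (Finset V) ℝ) := Matrix.linfty_opNormOneClass
  have h1' := trotter (∑ a, c a • (rhoS V (g a) - 1))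
    (diagonal U : Matrix (Finset V) (Finset V) ℝ)
  have h2 : Continuous fun M : Matrix (Finset V) (Finset V) ℝ => trace (MM V ϑ * M) :=
    (LinearMap.toContinuousLinearMap ((Matrix.traceLinearMap (Finset V) ℝ ℝ).comp
      (LinearMap.mulLeft ℝ (MM V ϑ)))).continuous
  have h3 := (h2.tendsto _).comp h1'
  refine ge_of_tendsto h3 ?_
  filter_upwards [eventually_gt_atTop 0] with m hm
  exact path_lowerM h0 h1 hc g U hm

/-- The closure operator does not increase the trace. -/
theorem trace_MM_mul_exp_le {ϑ : ℝ} (h0 : 0 ≤ ϑ) (h1 : ϑ ≤ 1)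
    {H : Matrix (Finset V) (Finset V) ℝ} (hH : H.IsSymm) :
    trace (MM V ϑ * NormedSpace.exp H) ≤ trace (NormedSpace.exp H) := by
  set S : Matrix (Finset V) (Finset V) ℝ := NormedSpace.exp ((2 : ℝ)⁻¹ • H) with hS
  have hsq : NormedSpace.exp H = S * S := by
    rw [hS, ← Matrix.exp_add_of_commute _ _ (Commute.refl _), ← add_smul]
    norm_num
  have hSs : S.IsSymm := by
    rw [hS, Matrix.IsSymm, ← Matrix.exp_transpose, Matrix.transpose_smul, hH.eq]
  have hS' : ∀ A B, S A B = S B A := fun A B => by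
    conv_lhs => rw [← hSs.eq]
    rfl
  rw [hsq, ← Matrix.mul_assoc, Matrix.trace_mul_comm]
  have h2 : trace (S * (MM V ϑ * S)) =
      ∑ C, ∑ A, ∑ B, MM V ϑ A B * (S C A * S C B) := by
    rw [trace]
    refine Finset.sum_congr rfl fun C _ => ?_
    rw [diag_apply, Matrix.mul_apply]
    refine Finset.sum_congr rfl fun A _ => ?_
    rw [Matrix.mul_apply, Finset.mul_sum]
    refine Finset.sum_congr rfl fun B _ => ?_
    rw [hS' B C]; ring
  have h3 : trace (S * S) = ∑ C, ∑ A, S C A ^ 2 := by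
    rw [trace]
    refine Finset.sum_congr rfl fun C _ => ?_
    rw [diag_apply, Matrix.mul_apply]
    refine Finset.sum_congr rfl fun A _ => ?_
    rw [hS' A C]; ring
  rw [h2, h3]
  exact Finset.sum_le_sum fun C _ => MM_quad_le h0 h1 fun A => S C A

end PathM

end Pool.Agent.Stirring
end

section

/-! Jensen's inequality for Poissonized words with matrix letters. -/

open Finset Matrix Filter Topology

set_option linter.unusedSectionVars false
set_option linter.style.haveILetI false

namespace Pool.Agent.Stirring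

section ZGrowth

variable {α : Type*} [Fintype α]

theorem Z_mono_gro {c : α → ℝ} (hc : ∀ a, 0 ≤ c a) {F G : List α → ℝ} {C R C' R' : ℝ}
    (hF : ∀ l, |F l| ≤ C * R ^ l.length) (hG : ∀ l, |G l| ≤ C' * R' ^ l.length)
    (h : ∀ l, F l ≤ G l) : Z c F ≤ Z c G := by
  unfold Z
  refine Summable.tsum_le_tsum (fun n => ?_) (summable_of_growth c F hF)
    (summable_of_growth c G hG)
  exact div_le_div_of_nonneg_right (wordSum_mono hc h n) (by positivity)

theorem Z_add_gro (c : α → ℝ) {F G : List α → ℝ} {C R C' R' : ℝ}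
    (hF : ∀ l, |F l| ≤ C * R ^ l.length) (hG : ∀ l, |G l| ≤ C' * R' ^ l.length) :
    Z c (fun l => F l + G l) = Z c F + Z c G := by
  unfold Z
  rw [← (summable_of_growth c F hF).tsum_add (summable_of_growth c G hG)]
  exact tsum_congr fun n => by rw [wordSum_add, add_div]

theorem length_le_two_pow (l : List α) : (l.length : ℝ) ≤ 2 ^ l.length := by
  exact_mod_cast (Nat.lt_two_pow_self (n := l.length)).le

/-- Jensen's inequality for Poissonized words. -/
theorem exp_Z_le {c : α → ℝ} (hc : ∀ a, 0 ≤ c a) {F : List α → ℝ} {K : ℝ}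
    (hF : ∀ l, |F l| ≤ K * l.length) :
    Real.exp (Real.exp (-∑ a, c a) * Z c F) ≤
      Real.exp (-∑ a, c a) * Z c (fun l => Real.exp (F l)) := by
  set s := ∑ a, c a with hs
  set m := Real.exp (-s) * Z c F with hm
  have hK : ∀ l : List α, |F l| ≤ max K 0 * 2 ^ l.length := fun l =>
    (hF l).trans ((mul_le_mul_of_nonneg_right (le_max_left _ _) (Nat.cast_nonneg _)).trans
      (mul_le_mul_of_nonneg_left (length_le_two_pow l) (le_max_right _ _)))
  have hone : ∀ (r : ℝ) (l : List α), |r| ≤ |r| * 1 ^ l.length := fun r l => by simp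
  have key : ∀ x : ℝ, Real.exp m * ((1 - m) + x) ≤ Real.exp x := by
    intro x
    have h1 : Real.exp x = Real.exp m * Real.exp (x - m) := by
      rw [← Real.exp_add]; ring_nf
    rw [h1]
    refine mul_le_mul_of_nonneg_left ?_ (Real.exp_pos _).le
    have := Real.add_one_le_exp (x - m)
    linarith
  have hFm : ∀ l : List α, |(1 - m) + F l| ≤ (|1 - m| + max K 0) * 2 ^ l.length := by
    intro l
    refine (abs_add_le _ _).trans ?_
    rw [add_mul]
    refine add_le_add ?_ (hK l)
    have : (1 : ℝ) ≤ 2 ^ l.length := one_le_pow₀ (by norm_num)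
    nlinarith [abs_nonneg (1 - m)]
  have hL : ∀ l : List α, |Real.exp m * ((1 - m) + F l)| ≤
      (Real.exp m * (|1 - m| + max K 0)) * 2 ^ l.length := by
    intro l
    rw [abs_mul, abs_of_pos (Real.exp_pos m), mul_assoc]
    exact mul_le_mul_of_nonneg_left (hFm l) (Real.exp_pos m).le
  have hE : ∀ l : List α, |Real.exp (F l)| ≤ 1 * Real.exp K ^ l.length := by
    intro l
    rw [abs_of_pos (Real.exp_pos _), one_mul, ← Real.exp_nat_mul, mul_comm]
    exact Real.exp_le_exp.mpr ((le_abs_self _).trans (hF l))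
  have h2 := Z_mono_gro hc hL hE fun l => key (F l)
  rw [Z_smul c (Real.exp m) (fun l => (1 - m) + F l),
    Z_add_gro c (F := fun _ => 1 - m) (hone (1 - m)) hK, Z_const, ← hs] at h2
  have h3 : Z c F = Real.exp s * m := by
    rw [hm, ← mul_assoc, ← Real.exp_add, add_neg_cancel, Real.exp_zero, one_mul]
  rw [h3] at h2
  have h4 : Real.exp m = Real.exp (-s) * (Real.exp m * ((1 - m) * Real.exp s + Real.exp s * m)) := by
    have : Real.exp (-s) * Real.exp s = 1 := by rw [← Real.exp_add, neg_add_cancel, Real.exp_zero]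
    calc Real.exp m = Real.exp m * (Real.exp (-s) * Real.exp s) := by rw [this, mul_one]
      _ = _ := by ring
  rw [h4]
  exact mul_le_mul_of_nonneg_left h2 (Real.exp_pos _).le

/-- Sum over the rotations of a word. -/
theorem Z_rotate_sum (c : α → ℝ) {H : List α → ℝ} {K : ℝ} (hH : ∀ l, |H l| ≤ K) :
    Z c (fun l => ∑ j ∈ Finset.range l.length, H (l.rotate j)) =
      ∑ a, c a * Z c (fun l => H (a :: l)) := by
  have hK0 : 0 ≤ K := (abs_nonneg _).trans (hH [])
  have hgro : ∀ l : List α, |∑ j ∈ Finset.range l.length, H (l.rotate j)| ≤ K * 2 ^ l.length := by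
    intro l
    refine (Finset.abs_sum_le_sum_abs _ _).trans ?_
    refine (Finset.sum_le_sum fun j _ => hH (l.rotate j)).trans ?_
    rw [Finset.sum_const, Finset.card_range, nsmul_eq_mul, mul_comm]
    exact mul_le_mul_of_nonneg_left (length_le_two_pow l) hK0
  have h1 : ∀ n : ℕ, wordSum c (fun l => ∑ j ∈ Finset.range l.length, H (l.rotate j)) n =
      n * wordSum c H n := by
    intro n
    rw [wordSum_congr_length c (G := fun l => ∑ j ∈ Finset.range n, H (l.rotate j)) n
      (fun l hl => by rw [hl]), wordSum_sum]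
    rw [Finset.sum_congr rfl fun j _ => wordSum_rotate c H n j, Finset.sum_const,
      Finset.card_range, nsmul_eq_mul]
  unfold Z
  rw [(summable_of_growth c _ hgro).tsum_eq_zero_add]
  have h2 : ∀ n : ℕ, wordSum c (fun l => ∑ j ∈ Finset.range l.length, H (l.rotate j)) (n + 1) /
      ((n + 1).factorial : ℝ) = ∑ a, c a * (wordSum c (fun l => H (a :: l)) n /
        (n.factorial : ℝ)) := by
    intro n
    rw [h1, wordSum_succ, Nat.factorial_succ]
    push_cast
    have h3 : ((n : ℝ) + 1) ≠ 0 := by positivity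
    have h4 : (n.factorial : ℝ) ≠ 0 := by positivity
    rw [mul_div_mul_left _ _ h3, Finset.sum_div]
    exact Finset.sum_congr rfl fun a _ => by rw [mul_div_assoc]
  simp only [h2]
  rw [h1, Summable.tsum_finsetSum fun a _ =>
    (summable_of_bounded c (fun l => H (a :: l)) (fun l => hH _)).mul_left (c a)]
  simp only [tsum_mul_left, Nat.cast_zero, zero_mul, zero_div, zero_add]

variable {κ : Type*} [Fintype κ] [DecidableEq κ]

theorem Z_trace (c : α → ℝ) (B : α → Matrix κ κ ℝ) (M : Matrix κ κ ℝ) :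
    Z c (fun l => trace (M * (l.map B).prod)) =
      trace (M * NormedSpace.exp (∑ a, c a • B a)) := by
  letI : NormedRing (Matrix κ κ ℝ) := Matrix.linftyOpNormedRing
  letI : NormedAlgebra ℝ (Matrix κ κ ℝ) := Matrix.linftyOpNormedAlgebra
  have h := NormedSpace.exp_series_hasSum_exp' (𝕂 := ℝ) (∑ a, c a • B a)
  have h2 := h.mapL (LinearMap.toContinuousLinearMap ((Matrix.traceLinearMap κ ℝ ℝ).comp
      (LinearMap.mulLeft ℝ M)))
  have h3 := h2.tsum_eq
  simp only [LinearMap.coe_toContinuousLinearMap', LinearMap.comp_apply,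
    LinearMap.mulLeft_apply, Matrix.traceLinearMap_apply, Matrix.mul_smul, trace_smul,
    smul_eq_mul] at h3
  unfold Z
  refine Eq.trans ?_ h3
  exact tsum_congr fun n => by rw [wordSum_matrix', div_eq_inv_mul]

theorem exp_add_smul_one' (A : Matrix κ κ ℝ) (s : ℝ) :
    NormedSpace.exp (A + s • (1 : Matrix κ κ ℝ)) = Real.exp s • NormedSpace.exp A := by
  have h2 : NormedSpace.exp (s • (1 : Matrix κ κ ℝ)) = Real.exp s • (1 : Matrix κ κ ℝ) := by
    have : s • (1 : Matrix κ κ ℝ) = diagonal (fun _ => s) := by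
      ext i j; simp [Matrix.one_apply, diagonal_apply]
    rw [this, exp_diagonal, Pi.exp_def]
    ext i j
    simp [Matrix.one_apply, diagonal_apply, Real.exp_eq_exp_ℝ]
  rw [Matrix.exp_add_of_commute _ _ (Commute.smul_right (Commute.one_right _) _), h2,
    Matrix.mul_smul, mul_one]

end ZGrowth

section Clo

variable (V : Type*) [Fintype V] [DecidableEq V]

/-- A closure: a random colouring of the vertices that depends on a permutation, together with an
operator that dominates it. -/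
structure Clo where
  /-- the law of the random colouring -/
  w : Equiv.Perm V → Finset V → ℝ
  /-- the closing operator -/
  M : Matrix (Finset V) (Finset V) ℝ
  w_nonneg : ∀ σ A, 0 ≤ w σ A
  w_sum : ∀ σ, ∑ A, w σ A = 1
  w_conj : ∀ a b A, w (b * a) (A.map b.toEmbedding) = w (a * b) A
  exp_le : ∀ (σ : Equiv.Perm V) (X : Finset V → ℝ), Real.exp (∑ A, w σ A * X A) ≤
    ∑ A, M A (A.map σ.toEmbedding) * Real.exp (X A)
  trace_le : ∀ H : Matrix (Finset V) (Finset V) ℝ, H.IsSymm →
    trace (M * NormedSpace.exp H) ≤ trace (NormedSpace.exp H)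

end Clo

namespace Clo

variable {V : Type*} [Fintype V] [DecidableEq V] (K : Clo V)

/-- The average of a function over the random colouring. -/
noncomputable def avg (X : Finset V → ℝ) (σ : Equiv.Perm V) : ℝ := ∑ A, K.w σ A * X A

theorem avg_add (X Y : Finset V → ℝ) (σ : Equiv.Perm V) :
    K.avg (fun A => X A + Y A) σ = K.avg X σ + K.avg Y σ := by
  simp only [avg, mul_add, Finset.sum_add_distrib]

theorem avg_sub (X Y : Finset V → ℝ) (σ : Equiv.Perm V) :
    K.avg (fun A => X A - Y A) σ = K.avg X σ - K.avg Y σ := by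
  simp only [avg, mul_sub, Finset.sum_sub_distrib]

theorem avg_smul (r : ℝ) (X : Finset V → ℝ) (σ : Equiv.Perm V) :
    K.avg (fun A => r * X A) σ = r * K.avg X σ := by
  simp only [avg, Finset.mul_sum]
  exact Finset.sum_congr rfl fun A _ => by ring

theorem avg_sum {ι : Type*} (s : Finset ι) (X : ι → Finset V → ℝ) (σ : Equiv.Perm V) :
    K.avg (fun A => ∑ i ∈ s, X i A) σ = ∑ i ∈ s, K.avg (X i) σ := by
  simp only [avg, Finset.mul_sum]
  rw [Finset.sum_comm]

theorem avg_const (r : ℝ) (σ : Equiv.Perm V) : K.avg (fun _ => r) σ = r := by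
  simp only [avg]
  rw [← Finset.sum_mul, K.w_sum, one_mul]

theorem avg_mono {X Y : Finset V → ℝ} (h : ∀ A, X A ≤ Y A) (σ : Equiv.Perm V) :
    K.avg X σ ≤ K.avg Y σ :=
  Finset.sum_le_sum fun A _ => mul_le_mul_of_nonneg_left (h A) (K.w_nonneg σ A)

theorem abs_avg_le {X : Finset V → ℝ} {B : ℝ} (h : ∀ A, |X A| ≤ B) (σ : Equiv.Perm V) :
    |K.avg X σ| ≤ B := by
  rw [abs_le]
  constructor
  · rw [← K.avg_const (-B) σ]
    exact K.avg_mono (fun A => (abs_le.mp (h A)).1) σ
  · rw [← K.avg_const B σ]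
    exact K.avg_mono (fun A => (abs_le.mp (h A)).2) σ

theorem avg_conj (X : Finset V → ℝ) (a b : Equiv.Perm V) :
    K.avg (fun A => X (A.map b.toEmbedding)) (a * b) = K.avg X (b * a) := by
  unfold avg
  rw [← Equiv.sum_comp (setHom V b) fun B : Finset V => K.w (b * a) B * X B]
  refine Finset.sum_congr rfl fun A _ => ?_
  rw [setHom_apply, K.w_conj]

end Clo

section Word

variable {V : Type*} [Fintype V] [DecidableEq V] {α : Type*} [Fintype α]

/-- The matrix of a letter. -/
noncomputable def letM (g : α → Equiv.Perm V) (Y : α → Finset V → ℝ) (a : α) :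
    Matrix (Finset V) (Finset V) ℝ :=
  diagonal (fun A => Real.exp (Y a A)) * rhoS V (g a)

/-- The weight of the first letter. -/
noncomputable def hdW (g : α → Equiv.Perm V) (Y : α → Finset V → ℝ) :
    List α → Finset V → ℝ
  | [], _ => 0
  | a :: l, A => Y a (A.map ((a :: l).map g).prod.toEmbedding)

/-- The total weight. -/
noncomputable def totW (g : α → Equiv.Perm V) (Y : α → Finset V → ℝ) (l : List α)
    (A : Finset V) : ℝ := ∑ j ∈ Finset.range l.length, hdW g Y (l.drop j) A

theorem totW_cons (g : α → Equiv.Perm V) (Y : α → Finset V → ℝ) (a : α) (l : List α)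
    (A : Finset V) :
    totW g Y (a :: l) A = Y a (A.map ((a :: l).map g).prod.toEmbedding) + totW g Y l A := by
  unfold totW
  rw [List.length_cons, Finset.sum_range_succ', add_comm]
  rfl

theorem letM_prod_apply (g : α → Equiv.Perm V) (Y : α → Finset V → ℝ) (l : List α)
    (C A : Finset V) :
    ((l.map (letM g Y)).prod) C A =
      if C = A.map (l.map g).prod.toEmbedding then Real.exp (totW g Y l A) else 0 := by
  induction l generalizing C with
  | nil =>
    rw [List.map_nil, List.prod_nil, Matrix.one_apply, List.map_nil, List.prod_nil]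
    have : A.map (1 : Equiv.Perm V).toEmbedding = A := Finset.map_refl
    rw [this]
    simp [totW]
  | cons a l ih =>
    rw [List.map_cons, List.prod_cons, Matrix.mul_apply]
    simp only [ih]
    rw [Finset.sum_eq_single (A.map (l.map g).prod.toEmbedding)]
    · rw [if_pos rfl, letM, Matrix.diagonal_mul, MonoidHom.comp_apply, permMat_apply,
        setHom_apply, totW_cons, List.map_cons, List.prod_cons, mul_toEmbedding_map, Real.exp_add]
      split_ifs with h
      · rw [h]; ring
      · ring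
    · intro D _ hD
      rw [if_neg hD, mul_zero]
    · intro h; exact absurd (Finset.mem_univ _) h

theorem trace_letM (M : Matrix (Finset V) (Finset V) ℝ) (g : α → Equiv.Perm V)
    (Y : α → Finset V → ℝ) (l : List α) :
    trace (M * (l.map (letM g Y)).prod) =
      ∑ A : Finset V, M A (A.map (l.map g).prod.toEmbedding) * Real.exp (totW g Y l A) := by
  rw [trace]
  simp only [diag_apply, Matrix.mul_apply, letM_prod_apply]
  refine Finset.sum_congr rfl fun A _ => ?_
  rw [Finset.sum_eq_single (A.map (l.map g).prod.toEmbedding)]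
  · rw [if_pos rfl]
  · intro B _ hB
    rw [if_neg hB, mul_zero]
  · intro h; exact absurd (Finset.mem_univ _) h

theorem abs_totW_le (g : α → Equiv.Perm V) {Y : α → Finset V → ℝ} {B : ℝ}
    (hY : ∀ a A, |Y a A| ≤ B) (l : List α) (A : Finset V) :
    |totW g Y l A| ≤ B * l.length := by
  induction l with
  | nil => simp [totW]
  | cons a l ih =>
    rw [totW_cons]
    refine (abs_add_le _ _).trans ?_
    have := hY a (A.map ((a :: l).map g).prod.toEmbedding)
    rw [List.length_cons]
    push_cast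
    linarith

/-- The averaged weight of the first letter. -/
noncomputable def hdA (K : Clo V) (g : α → Equiv.Perm V) (Y : α → Finset V → ℝ) :
    List α → ℝ
  | [] => 0
  | a :: l => K.avg (Y a) ((a :: l).map g).prod

theorem abs_hdA_le (K : Clo V) (g : α → Equiv.Perm V) {Y : α → Finset V → ℝ} {B : ℝ}
    (hB : 0 ≤ B) (hY : ∀ a A, |Y a A| ≤ B) (l : List α) : |hdA K g Y l| ≤ B := by
  cases l with
  | nil => simpa [hdA] using hB
  | cons a l => exact K.abs_avg_le (hY a) _

theorem avg_totW (K : Clo V) (g : α → Equiv.Perm V) (Y : α → Finset V → ℝ) (l : List α) :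
    K.avg (totW g Y l) (l.map g).prod = ∑ j ∈ Finset.range l.length, hdA K g Y (l.rotate j) := by
  have h0 : K.avg (totW g Y l) (l.map g).prod =
      ∑ j ∈ Finset.range l.length, K.avg (hdW g Y (l.drop j)) (l.map g).prod := by
    unfold totW
    exact K.avg_sum _ _ _
  rw [h0]
  refine Finset.sum_congr rfl fun j hj => ?_
  have hj' : j < l.length := Finset.mem_range.mp hj
  obtain ⟨a, l', hl'⟩ : ∃ a l', l.drop j = a :: l' := by
    refine List.exists_cons_of_ne_nil ?_
    intro h
    have := List.length_drop (i := j) (l := l)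
    rw [h, List.length_nil] at this
    omega
  have h1 : (l.map g).prod = ((l.take j).map g).prod * ((l.drop j).map g).prod := by
    rw [← List.prod_append, ← List.map_append, List.take_append_drop]
  have h2 : l.rotate j = a :: (l' ++ l.take j) := by
    rw [List.rotate_eq_drop_append_take hj'.le, hl', List.cons_append]
  rw [h1, h2, hl']
  have h3 : hdA K g Y (a :: (l' ++ l.take j)) =
      K.avg (Y a) (((a :: l').map g).prod * ((l.take j).map g).prod) := by
    rw [← List.prod_append, ← List.map_append]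
    rfl
  rw [h3, ← K.avg_conj (Y a)]
  rfl

/-- Jensen's inequality for words closed by `K`. -/
theorem Clo.word_jensen (K : Clo V) {c : α → ℝ} (hc : ∀ a, 0 ≤ c a) (g : α → Equiv.Perm V)
    (Y : α → Finset V → ℝ) :
    Real.exp (∑ a, c a * E c g (fun σ => K.avg (Y a) (g a * σ))) ≤
      trace (K.M * NormedSpace.exp (∑ a, c a • (letM g Y a - 1))) := by
  classical
  -- a bound
  set B : ℝ := ∑ a, ∑ A, |Y a A| with hB
  have hB0 : 0 ≤ B := Finset.sum_nonneg fun a _ => Finset.sum_nonneg fun A _ => abs_nonneg _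
  have hY : ∀ a A, |Y a A| ≤ B := by
    intro a A
    refine (Finset.single_le_sum (f := fun A => |Y a A|) (fun _ _ => abs_nonneg _)
      (Finset.mem_univ A)).trans ?_
    exact Finset.single_le_sum (f := fun a => ∑ A, |Y a A|)
      (fun _ _ => Finset.sum_nonneg fun _ _ => abs_nonneg _) (Finset.mem_univ a)
  set s := ∑ a, c a with hs
  have hrot : ∀ l : List α, |∑ j ∈ Finset.range l.length, hdA K g Y (l.rotate j)| ≤
      B * l.length := by
    intro l
    refine (Finset.abs_sum_le_sum_abs _ _).trans ?_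
    refine (Finset.sum_le_sum fun j _ => abs_hdA_le K g hB0 hY (l.rotate j)).trans ?_
    rw [Finset.sum_const, Finset.card_range, nsmul_eq_mul, mul_comm]
  have h1 := exp_Z_le hc hrot
  rw [Z_rotate_sum c (abs_hdA_le K g hB0 hY)] at h1
  have h2 : Real.exp (-∑ a, c a) * ∑ a, c a * Z c (fun l => hdA K g Y (a :: l)) =
      ∑ a, c a * E c g (fun σ => K.avg (Y a) (g a * σ)) := by
    rw [Finset.mul_sum]
    refine Finset.sum_congr rfl fun a _ => ?_
    unfold E
    rw [← mul_assoc, mul_comm (Real.exp _) (c a), mul_assoc]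
    rfl
  rw [h2] at h1
  refine h1.trans ?_
  have h3 : Z c (fun l => Real.exp (∑ j ∈ Finset.range l.length, hdA K g Y (l.rotate j))) ≤
      Z c (fun l => trace (K.M * (l.map (letM g Y)).prod)) := by
    refine Z_mono_gro hc (C := 1) (R := Real.exp B)
      (C' := ∑ A : Finset V, ∑ D : Finset V, |K.M A D|) (R' := Real.exp B) ?_ ?_ ?_
    · intro l
      rw [abs_of_pos (Real.exp_pos _), one_mul, ← Real.exp_nat_mul, mul_comm (l.length : ℝ)]
      exact Real.exp_le_exp.mpr ((le_abs_self _).trans (hrot l))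
    · intro l
      rw [trace_letM]
      refine (Finset.abs_sum_le_sum_abs _ _).trans ?_
      rw [Finset.sum_mul]
      refine Finset.sum_le_sum fun A _ => ?_
      rw [abs_mul, abs_of_pos (Real.exp_pos _), ← Real.exp_nat_mul, mul_comm (l.length : ℝ)]
      refine mul_le_mul ?_ (Real.exp_le_exp.mpr ((le_abs_self _).trans (abs_totW_le g hY l A)))
        (Real.exp_pos _).le (Finset.sum_nonneg fun _ _ => abs_nonneg _)
      exact Finset.single_le_sum (f := fun D => |K.M A D|) (fun _ _ => abs_nonneg _)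
        (Finset.mem_univ _)
    · intro l
      rw [trace_letM, ← avg_totW]
      exact K.exp_le _ _
  refine (mul_le_mul_of_nonneg_left h3 (Real.exp_pos _).le).trans (le_of_eq ?_)
  rw [Z_trace]
  have h4 : ∑ a, c a • (letM g Y a - 1) =
      (∑ a, c a • letM g Y a) + (-(∑ a, c a)) • (1 : Matrix (Finset V) (Finset V) ℝ) := by
    simp only [smul_sub, Finset.sum_sub_distrib, ← Finset.sum_smul]
    rw [neg_smul, sub_eq_add_neg]
  rw [h4, exp_add_smul_one', Matrix.mul_smul, trace_smul, smul_eq_mul]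

end Word

end Pool.Agent.Stirring
end
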